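import Pool.Statements.S00046
-- import your own Pool.Agent.* helpers here

set_option autoImplicit false
open Pool Pool.MP_172a5c_ag

namespace Pool.Agent.S00046

open MvPolynomial

noncomputable def sg (y : ℝ) : ℝ := 79 / 75 * y ^ 3 + 1
noncomputable def R0 (y : ℝ) : ℝ := sg y ^ 4 - 4 * sg y ^ 2 * y ^ 2 + 2 * y ^ 4
noncomputable def NN (y : ℝ) : ℝ :=
  4 * sg y * (sg y ^ 2 - 2 * y ^ 2) * (3 - 2 * sg y) + 7 * R0 y

lemma NN_fin : {y : ℝ | NN y = 0}.Finite := by
  set s : Polynomial ℝ := Polynomial.C (79 / 75) * Polynomial.X ^ 3 + 1 with hs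
  set p : Polynomial ℝ := 4 * s * (s ^ 2 - 2 * Polynomial.X ^ 2) * (3 - 2 * s) +
    7 * (s ^ 4 - 4 * s ^ 2 * Polynomial.X ^ 2 + 2 * Polynomial.X ^ 4) with hp
  have he : ∀ y, p.eval y = NN y := by
    intro y; simp [hp, hs, NN, R0, sg]
  have h0 : p ≠ 0 := by
    intro h
    have := he 0
    rw [h] at this
    norm_num [NN, R0, sg] at this
  refine (p.roots.toFinset.finite_toSet).subset ?_
  intro y hy
  simp only [Finset.mem_coe, Multiset.mem_toFinset, Polynomial.mem_roots h0, Polynomial.IsRoot.def]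
  rw [he]; exact hy

lemma rootsY : ∃ c : ℝ, 0 < c ∧ ∃ Y : Finset ℝ, Y.card = 4 ∧
    ∀ y ∈ Y, 1 ≤ y ∧ R0 y = c * y ^ 11 ∧ NN y ≠ 0 := by
  obtain ⟨c, hc, hc2⟩ := (Set.Ioo_infinite (show (29060 / 10000 : ℝ) < 29061 / 10000 by norm_num)).exists_notMem_finite
    (NN_fin.image fun y => R0 y / y ^ 11)
  obtain ⟨hc0, hc1⟩ := hc
  have hcont : Continuous fun y : ℝ => R0 y - c * y ^ 11 := by unfold R0 sg; fun_prop
  have v0 : 0 < R0 1 - c * 1 ^ 11 := by norm_num [R0, sg]; linarith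
  have v1 : R0 (1074 / 1000) - c * (1074 / 1000) ^ 11 < 0 := by norm_num [R0, sg]; linarith
  have v2 : 0 < R0 (1137 / 1000) - c * (1137 / 1000) ^ 11 := by norm_num [R0, sg]; linarith
  have v3 : R0 (1218 / 1000) - c * (1218 / 1000) ^ 11 < 0 := by norm_num [R0, sg]; linarith
  have v4 : 0 < R0 (16 / 10) - c * (16 / 10) ^ 11 := by norm_num [R0, sg]; linarith
  obtain ⟨a, ha, ha'⟩ := intermediate_value_Ioo' (show (1 : ℝ) ≤ 1074 / 1000 by norm_num)
    hcont.continuousOn ⟨v1, v0⟩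
  obtain ⟨b, hb, hb'⟩ := intermediate_value_Ioo (show (1074 / 1000 : ℝ) ≤ 1137 / 1000 by norm_num)
    hcont.continuousOn ⟨v1, v2⟩
  obtain ⟨d, hd, hd'⟩ := intermediate_value_Ioo' (show (1137 / 1000 : ℝ) ≤ 1218 / 1000 by norm_num)
    hcont.continuousOn ⟨v3, v2⟩
  obtain ⟨e, he, he'⟩ := intermediate_value_Ioo (show (1218 / 1000 : ℝ) ≤ 16 / 10 by norm_num)
    hcont.continuousOn ⟨v3, v4⟩
  simp only at ha' hb' hd' he'
  obtain ⟨ha1, ha2⟩ := ha
  obtain ⟨hb1, hb2⟩ := hb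
  obtain ⟨hd1, hd2⟩ := hd
  obtain ⟨he1, he2⟩ := he
  have key : ∀ y : ℝ, 1 ≤ y → R0 y - c * y ^ 11 = 0 → 1 ≤ y ∧ R0 y = c * y ^ 11 ∧ NN y ≠ 0 := by
    intro y h1 h2
    refine ⟨h1, by linarith, fun hN => hc2 ⟨y, hN, ?_⟩⟩
    have : y ^ 11 ≠ 0 := by positivity
    field_simp
    linarith
  refine ⟨c, by linarith, {a, b, d, e}, ?_, ?_⟩
  · rw [Finset.card_insert_of_notMem, Finset.card_insert_of_notMem, Finset.card_insert_of_notMem,
      Finset.card_singleton]
    · simp only [Finset.mem_singleton]; intro h; linarith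
    · simp only [Finset.mem_insert, Finset.mem_singleton]; rintro (h | h) <;> linarith
    · simp only [Finset.mem_insert, Finset.mem_singleton]; rintro (h | h | h) <;> linarith
  · intro y hy
    simp only [Finset.mem_insert, Finset.mem_singleton] at hy
    rcases hy with rfl | rfl | rfl | rfl
    · exact key _ (by linarith) ha'
    · exact key _ (by linarith) hb'
    · exact key _ (by linarith) hd'
    · exact key _ (by linarith) he'

/-- a positive simple solution of `h1 = h2 = 0` -/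
def Good (c s t : ℝ) : Prop := 0 < s ∧ 0 < t ∧ 1 - c * s + s ^ 16 * t ^ 56 = 0 ∧
  -(79 / 75) + t - s ^ 3 * t ^ 12 + s ^ 4 * t ^ 15 = 0 ∧
  (-(c * s) + 16 * (s ^ 16 * t ^ 56)) * (t - 12 * (s ^ 3 * t ^ 12) + 15 * (s ^ 4 * t ^ 15)) -
    56 * (s ^ 16 * t ^ 56) * (-3 * (s ^ 3 * t ^ 12) + 4 * (s ^ 4 * t ^ 15)) ≠ 0

lemma good_of {c x y : ℝ} (hx : 0 < x) (hx1 : x ≠ 1) (hy : 0 < y) (h : (x ^ 2 + 1) * y = x * sg y)
    (hR : R0 y = c * y ^ 11) (hN : NN y ≠ 0) : Good c (x ^ 4 * y ^ 7) (1 / (x * y ^ 2)) := by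
  have hs : sg y = (x ^ 2 + 1) * y / x := by field_simp; linarith
  have e1 : (x ^ 4 * y ^ 7) ^ 16 * (1 / (x * y ^ 2)) ^ 56 = x ^ 8 := by field_simp
  have e2 : (x ^ 4 * y ^ 7) ^ 3 * (1 / (x * y ^ 2)) ^ 12 = 1 / y ^ 3 := by field_simp
  have e3 : (x ^ 4 * y ^ 7) ^ 4 * (1 / (x * y ^ 2)) ^ 15 = x / y ^ 2 := by field_simp
  have e4 : c * (x ^ 4 * y ^ 7) = 1 + x ^ 8 := by
    have : R0 y = (1 + x ^ 8) * y ^ 4 / x ^ 4 := by
      unfold R0; rw [hs]; field_simp; ring
    rw [this] at hR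
    field_simp at hR
    linarith
  refine ⟨by positivity, by positivity, ?_, ?_, ?_⟩
  · rw [e1, e4]; ring
  · rw [e2, e3]
    unfold sg at h
    field_simp
    linarith
  · rw [e1, e2, e3, e4]
    intro h0
    apply hN
    have hx2 : x ^ 2 - 1 ≠ 0 := by
      intro h2
      apply hx1
      nlinarith
    have : NN y = -((-(1 + x ^ 8) + 16 * x ^ 8) * (1 / (x * y ^ 2) - 12 * (1 / y ^ 3) + 15 * (x / y ^ 2)) -
        56 * x ^ 8 * (-3 * (1 / y ^ 3) + 4 * (x / y ^ 2))) * y ^ 6 / (x ^ 3 * (x ^ 2 - 1)) := by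
      unfold NN R0; rw [hs]; field_simp; ring
    rw [this, h0]; simp

lemma pos8 : ∃ c : ℝ, 0 < c ∧ ∃ P : Finset (ℝ × ℝ), P.card = 8 ∧ ∀ p ∈ P, Good c p.1 p.2 := by
  obtain ⟨c, hc, Y, hY, hY'⟩ := rootsY
  have hx : ∀ y : ℝ, ∃ x : ℝ, 1 ≤ y → 1 < x ∧ (x ^ 2 + 1) * y = x * sg y := by
    intro y
    by_cases h1 : 1 ≤ y
    · have hy : 0 < y := by linarith
      have h2 : 2 < sg y / y := by
        rw [lt_div_iff₀ hy]; unfold sg
        nlinarith [mul_nonneg (sub_nonneg.2 h1) (sub_nonneg.2 h1), mul_nonneg (mul_nonneg (sub_nonneg.2 h1) (sub_nonneg.2 h1)) (sub_nonneg.2 h1)]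
      set s := sg y / y with hs
      have h3 : sg y = s * y := by rw [hs]; field_simp
      have h4 : 0 ≤ s ^ 2 - 4 := by nlinarith
      refine ⟨(s + Real.sqrt (s ^ 2 - 4)) / 2, fun _ => ⟨?_, ?_⟩⟩
      · have := Real.sqrt_nonneg (s ^ 2 - 4); linarith
      · have := Real.sq_sqrt h4
        rw [h3]
        linear_combination y / 4 * this
    · exact ⟨0, fun h => absurd h h1⟩
  choose x hx using hx
  classical
  let z : ℝ × Bool → ℝ := fun q => if q.2 then x q.1 else 1 / x q.1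
  refine ⟨c, hc, (Y ×ˢ Finset.univ).image fun q : ℝ × Bool => (z q ^ 4 * q.1 ^ 7, 1 / (z q * q.1 ^ 2)), ?_, ?_⟩
  · rw [Finset.card_image_of_injOn]
    · simp [hY]
    · rintro ⟨a, i⟩ ha ⟨b, j⟩ hb hab
      simp only [Finset.coe_product, Set.mem_prod, Finset.mem_coe] at ha hb
      have a1 := (hY' a ha.1).1
      have b1 := (hY' b hb.1).1
      have xa := (hx a a1).1
      have xb := (hx b b1).1
      have za : 0 < z (a, i) := by cases i <;> simp [z] <;> linarith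
      have zb : 0 < z (b, j) := by cases j <;> simp [z] <;> linarith
      simp only [Prod.mk.injEq] at hab
      obtain ⟨h1, h2⟩ := hab
      have ha0 : 0 < a := by linarith
      have hb0 : 0 < b := by linarith
      have hab : a = b := by
        have e1 : a = 1 / ((z (a, i) ^ 4 * a ^ 7) * (1 / (z (a, i) * a ^ 2)) ^ 4) := by field_simp
        have e2 : b = 1 / ((z (b, j) ^ 4 * b ^ 7) * (1 / (z (b, j) * b ^ 2)) ^ 4) := by field_simp
        rw [e1, h1, h2, ← e2]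
      subst hab
      have hz : z (a, i) = z (a, j) := by field_simp at h2; linarith
      have hlt : 1 / x a < x a := by
        rw [div_lt_iff₀ (by linarith)]; nlinarith
      cases i <;> cases j <;> simp [z] at hz ⊢ <;> simp at hlt <;> linarith
  · intro p hp
    obtain ⟨⟨a, i⟩, ha, rfl⟩ := Finset.mem_image.1 hp
    obtain ⟨a1, a2, a3⟩ := hY' a (Finset.mem_product.1 ha).1
    obtain ⟨xa, xb⟩ := hx a a1
    have x0 : 0 < x a := by linarith
    cases i
    · refine good_of (by simp [z]; exact x0) ?_ (by linarith) ?_ a2 a3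
      · simp [z]; linarith
      · simp only [z]; simp; field_simp; linarith
    · exact good_of (by simpa [z] using x0) (by simp [z]; linarith) (by linarith) (by simpa [z] using xb) a2 a3

noncomputable def F1 (c : ℝ) : MvPolynomial (Fin 2) ℝ :=
  C 1 * X 0 ^ 1 * X 1 ^ 0 + C (-c) * X 0 ^ 3 * X 1 ^ 0 + C 1 * X 0 ^ 33 * X 1 ^ 112
noncomputable def F2 : MvPolynomial (Fin 2) ℝ :=
  C (-(79 / 75)) * X 0 ^ 0 * X 1 ^ 1 + C 1 * X 0 ^ 0 * X 1 ^ 3 + C (-1) * X 0 ^ 6 * X 1 ^ 25 +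
    C 1 * X 0 ^ 8 * X 1 ^ 31

lemma supp1 (a : ℝ) (i j : ℕ) :
    (C a * X 0 ^ i * X 1 ^ j : MvPolynomial (Fin 2) ℝ).support.card ≤ 1 := by
  rw [X_pow_eq_monomial, X_pow_eq_monomial, C_mul_monomial, monomial_mul]
  exact (Finset.card_le_card support_monomial_subset).trans (by simp)

lemma supp_add (p q : MvPolynomial (Fin 2) ℝ) :
    (p + q).support.card ≤ p.support.card + q.support.card :=
  (Finset.card_le_card support_add).trans (Finset.card_union_le _ _)

def Sol (c u v : ℝ) : Prop := u * (1 - c * u ^ 2 + u ^ 32 * v ^ 112) = 0 ∧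
  v * (-(79 / 75) + v ^ 2 - u ^ 6 * v ^ 24 + u ^ 8 * v ^ 30) = 0 ∧
  (1 - 3 * c * u ^ 2 + 33 * u ^ 32 * v ^ 112) * (-(79 / 75) + 3 * v ^ 2 - 25 * u ^ 6 * v ^ 24 + 31 * u ^ 8 * v ^ 30) -
    112 * u ^ 33 * v ^ 111 * (-6 * u ^ 5 * v ^ 25 + 8 * u ^ 7 * v ^ 31) ≠ 0

lemma sol_of_good {c u v : ℝ} (h : Good c (u ^ 2) (v ^ 2)) : Sol c u v := by
  obtain ⟨-, -, h1, h2, h3⟩ := h
  refine ⟨by linear_combination u * h1, by linear_combination v * h2, fun h => h3 ?_⟩
  have e1 : 1 - 3 * c * u ^ 2 + 33 * u ^ 32 * v ^ 112 = 2 * (-(c * u ^ 2) + 16 * (u ^ 32 * v ^ 112)) := by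
    linear_combination h1
  have e2 : -(79 / 75) + 3 * v ^ 2 - 25 * u ^ 6 * v ^ 24 + 31 * u ^ 8 * v ^ 30 =
      2 * (v ^ 2 - 12 * (u ^ 6 * v ^ 24) + 15 * (u ^ 8 * v ^ 30)) := by linear_combination h2
  rw [e1, e2] at h
  linear_combination h / 4

lemma many : ∃ c : ℝ, ∃ S : Finset (ℝ × ℝ), 36 ≤ S.card ∧ ∀ p ∈ S, Sol c p.1 p.2 := by
  obtain ⟨c, hc, P, hP, hP'⟩ := pos8
  classical
  let e : Bool → ℝ := fun b => if b then 1 else -1
  have he : ∀ b, e b ^ 2 = 1 := by intro b; cases b <;> simp [e]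
  have hinj : ∀ (b b' : Bool) (s s' : ℝ), 0 < s → 0 < s' → e b * √s = e b' * √s' → b = b' ∧ s = s' := by
    intro b b' s s' hs hs' h
    have h1 := Real.sqrt_pos.2 hs
    have h2 := Real.sqrt_pos.2 hs'
    have h3 : s = s' := by
      have := congrArg (· ^ 2) h
      simp only [mul_pow, he, Real.sq_sqrt hs.le, Real.sq_sqrt hs'.le, one_mul] at this
      exact this
    subst h3
    cases b <;> cases b' <;> simp [e] at h ⊢ <;> linarith
  let T : Finset (ℝ × ℝ) := (P ×ˢ Finset.univ).image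
    fun q : (ℝ × ℝ) × (Bool × Bool) => (e q.2.1 * √q.1.1, e q.2.2 * √q.1.2)
  have hT : T.card = 32 := by
    rw [Finset.card_image_of_injOn]
    · simp [hP]
    · rintro ⟨a, i⟩ ha ⟨b, j⟩ hb hab
      simp only [Finset.coe_product, Set.mem_prod, Finset.mem_coe] at ha hb
      simp only [Prod.mk.injEq] at hab
      obtain ⟨h1, h2⟩ := hinj _ _ _ _ (hP' a ha.1).1 (hP' b hb.1).1 hab.1
      obtain ⟨h3, h4⟩ := hinj _ _ _ _ (hP' a ha.1).2.1 (hP' b hb.1).2.1 hab.2
      exact Prod.ext (Prod.ext h2 h4) (Prod.ext h1 h3)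
  have hT' : ∀ p ∈ T, Good c (p.1 ^ 2) (p.2 ^ 2) := by
    intro p hp
    obtain ⟨⟨a, i⟩, ha, rfl⟩ := Finset.mem_image.1 hp
    have hg := hP' a (Finset.mem_product.1 ha).1
    simp only [mul_pow, he, Real.sq_sqrt hg.1.le, Real.sq_sqrt hg.2.1.le, one_mul]
    exact hg
  set a := √(1 / c) with ha
  set b := √(79 / 75 : ℝ) with hb
  have a0 : 0 < a := Real.sqrt_pos.2 (by positivity)
  have b0 : 0 < b := Real.sqrt_pos.2 (by positivity)
  have a2 : c * a ^ 2 = 1 := by rw [ha, Real.sq_sqrt (by positivity)]; field_simp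
  have b2 : b ^ 2 = 79 / 75 := Real.sq_sqrt (by positivity)
  let U : Finset (ℝ × ℝ) := {(a, 0), (-a, 0), (0, b), (0, -b)}
  have hU : U.card = 4 := by
    rw [Finset.card_insert_of_notMem, Finset.card_insert_of_notMem, Finset.card_insert_of_notMem,
      Finset.card_singleton]
    · simp; linarith
    · simp; exact ⟨fun h => absurd h a0.ne', fun h => absurd h a0.ne'⟩
    · simp; exact ⟨by linarith, fun h => absurd h a0.ne', fun h => absurd h a0.ne'⟩
  refine ⟨c, T ∪ U, ?_, ?_⟩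
  · rw [Finset.card_union_of_disjoint, hT, hU]
    rw [Finset.disjoint_left]
    intro p hp hp'
    have h1 := (hT' p hp).1
    have h2 := (hT' p hp).2.1
    simp only [U, Finset.mem_insert, Finset.mem_singleton] at hp'
    rcases hp' with rfl | rfl | rfl | rfl <;> simp at h1 h2
  · intro p hp
    rcases Finset.mem_union.1 hp with hp | hp
    · exact sol_of_good (hT' p hp)
    · simp only [U, Finset.mem_insert, Finset.mem_singleton] at hp
      rcases hp with rfl | rfl | rfl | rfl <;> refine ⟨?_, ?_, ?_⟩ <;> simp <;> first | linarith | (right; linarith)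

/-- The negation of the preceding statement: Any real system f(x,y)=g(x,y)=0, with f having m₁ and g having m₂ monomials, has at most (2m₁−1)(2m₂−1) real solutions with nonzero Jacobian, and this number is attained for all m₁, m₂ ≥ 1. -/
theorem result :
    ¬ ((∀ (f g : MvPolynomial (Fin 2) ℝ) (S : Finset (Fin 2 → ℝ)),
      (∀ p ∈ S, MvPolynomial.eval p f = 0 ∧ MvPolynomial.eval p g = 0 ∧
        MvPolynomial.eval p (MvPolynomial.pderiv 0 f) * MvPolynomial.eval p (MvPolynomial.pderiv 1 g) -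
          MvPolynomial.eval p (MvPolynomial.pderiv 1 f) * MvPolynomial.eval p (MvPolynomial.pderiv 0 g) ≠ 0) →
      S.card ≤ (2 * f.support.card - 1) * (2 * g.support.card - 1)) ∧
    (∀ m₁ m₂ : ℕ, 1 ≤ m₁ → 1 ≤ m₂ →
      ∃ f g : MvPolynomial (Fin 2) ℝ, f.support.card = m₁ ∧ g.support.card = m₂ ∧
        ∃ S : Finset (Fin 2 → ℝ), S.card = (2 * m₁ - 1) * (2 * m₂ - 1) ∧
          ∀ p ∈ S, MvPolynomial.eval p f = 0 ∧ MvPolynomial.eval p g = 0 ∧
            MvPolynomial.eval p (MvPolynomial.pderiv 0 f) * MvPolynomial.eval p (MvPolynomial.pderiv 1 g) -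
              MvPolynomial.eval p (MvPolynomial.pderiv 1 f) * MvPolynomial.eval p (MvPolynomial.pderiv 0 g) ≠ 0)) := by
  rintro ⟨H, -⟩
  obtain ⟨c, S, hS, hS'⟩ := many
  classical
  have h := H (F1 c) F2 (S.image fun p => ![p.1, p.2]) (by
    intro q hq
    obtain ⟨p, hp, rfl⟩ := Finset.mem_image.1 hq
    obtain ⟨h1, h2, h3⟩ := hS' p hp
    refine ⟨?_, ?_, fun h => h3 ?_⟩
    · simp [F1]; linear_combination h1
    · simp [F2]; linear_combination h2
    · simp [F1, F2, pderiv_X, Pi.single_apply] at h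
      linear_combination h)
  rw [Finset.card_image_of_injective _ (by
    intro p q h
    exact Prod.ext (congrFun h 0) (congrFun h 1))] at h
  have h1 : (F1 c).support.card ≤ 3 :=
    (supp_add _ _).trans (add_le_add ((supp_add _ _).trans (add_le_add (supp1 _ _ _) (supp1 _ _ _))) (supp1 _ _ _))
  have h2 : F2.support.card ≤ 4 :=
    (supp_add _ _).trans (add_le_add ((supp_add _ _).trans (add_le_add ((supp_add _ _).trans
      (add_le_add (supp1 _ _ _) (supp1 _ _ _))) (supp1 _ _ _))) (supp1 _ _ _))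
  have h3 : (2 * (F1 c).support.card - 1) * (2 * F2.support.card - 1) ≤ 5 * 7 :=
    Nat.mul_le_mul (by omega) (by omega)
  omega

end Pool.Agent.S00046
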