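import Pool.Statements.S00062
import Pool.Agent.Lead.Pd2

set_option autoImplicit false
open Pool Pool.MP_1cfa24_ag

namespace Pool.Agent.S00062

open MvPolynomial Pool.Agent.Lead.Pd1

abbrev R3 := MvPolynomial (Fin 3) ℚ

theorem hy : Prime (X 1 : R3) := X_prime

theorem hyx : ¬ (X 1 : R3) ∣ X 0 := by
  rw [X_dvd_X]
  decide

theorem hz (a b c : R3) (h : X 2 * a = X 1 * b + X 0 * c) :
    ∃ p q, a = X 0 * p + X 1 * q := by
  let τ : R3 →ₐ[ℚ] R3 := aeval ![0, 0, X 2]
  have t0 : τ (X 0) = 0 := by simp [τ]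
  have t1 : τ (X 1) = 0 := by simp [τ]
  have t2 : τ (X 2) = X 2 := by simp [τ]
  have key : ∀ a : R3, ∃ p q, a = τ a + X 0 * p + X 1 * q := by
    intro a
    induction a using MvPolynomial.induction_on with
    | C r => exact ⟨0, 0, by simp [τ]⟩
    | add a b ha hb =>
      obtain ⟨p, q, h1⟩ := ha
      obtain ⟨p', q', h2⟩ := hb
      exact ⟨p + p', q + q', by rw [map_add]; linear_combination h1 + h2⟩
    | mul_X a i ha =>
      obtain ⟨p, q, h1⟩ := ha
      fin_cases i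
      · refine ⟨a, 0, ?_⟩
        show a * X 0 = τ (a * X 0) + _ + _
        rw [map_mul, t0]
        ring
      · refine ⟨0, a, ?_⟩
        show a * X 1 = τ (a * X 1) + _ + _
        rw [map_mul, t1]
        ring
      · refine ⟨p * X 2, q * X 2, ?_⟩
        show a * X 2 = τ (a * X 2) + _ + _
        rw [map_mul, t2]
        linear_combination X 2 * h1
  have h1 := congrArg τ h
  rw [map_mul, map_add, map_mul, map_mul, t0, t1, t2] at h1
  have h2 : τ a = 0 := by
    have h3 : (X 2 : R3) * τ a = 0 := by rw [h1]; ring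
    exact (mul_eq_zero.1 h3).resolve_left (X_ne_zero _)
  obtain ⟨p, q, h3⟩ := key a
  exact ⟨p, q, by rw [h2] at h3; linear_combination h3⟩

/-- The negation of the preceding statement: For a homogeneous ideal Q of a polynomial ring over a field: if pd Q = 1 and pd Q^t = 1 for all large t, then pd Q^t = 1 for every t ≥ 1 (pd = 1 means a finite free cover with projective kernel exists and the module is not projective). -/
theorem result :
    ¬ (∀ (k : Type) [Field k] (n : ℕ) (Q : Ideal (MvPolynomial (Fin n) k)),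
      (∃ s : Set (MvPolynomial (Fin n) k),
          (∀ p ∈ s, ∃ d : ℕ, MvPolynomial.IsHomogeneous p d) ∧ Q = Ideal.span s) →
      ((∃ (m : ℕ) (f : (Fin m → MvPolynomial (Fin n) k) →ₗ[MvPolynomial (Fin n) k] ↥Q),
            Function.Surjective f ∧
              Module.Projective (MvPolynomial (Fin n) k) ↥(LinearMap.ker f)) ∧
          ¬ Module.Projective (MvPolynomial (Fin n) k) ↥Q) →
      (∃ t₀ : ℕ, ∀ t : ℕ, t₀ ≤ t →
          (∃ (m : ℕ) (f : (Fin m → MvPolynomial (Fin n) k) →ₗ[MvPolynomial (Fin n) k] ↥(Q ^ t)),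
              Function.Surjective f ∧
                Module.Projective (MvPolynomial (Fin n) k) ↥(LinearMap.ker f)) ∧
            ¬ Module.Projective (MvPolynomial (Fin n) k) ↥(Q ^ t)) →
      ∀ t : ℕ, 1 ≤ t →
        (∃ (m : ℕ) (f : (Fin m → MvPolynomial (Fin n) k) →ₗ[MvPolynomial (Fin n) k] ↥(Q ^ t)),
            Function.Surjective f ∧
              Module.Projective (MvPolynomial (Fin n) k) ↥(LinearMap.ker f)) ∧
          ¬ Module.Projective (MvPolynomial (Fin n) k) ↥(Q ^ t)) := by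
  intro H
  have e0 : (constantCoeff : R3 →+* ℚ) (X 0) = 0 := by simp
  have e1 : (constantCoeff : R3 →+* ℚ) (X 1) = 0 := by simp
  have h := H ℚ 3 (QQ (X 0) (X 1) (X 2)) ?_ ⟨pd_QQ _ hy hyx, ?_⟩ ⟨3, ?_⟩ 2 (by norm_num)
  · exact not_pd_sq hy hyx hz constantCoeff e0 e1
      (aeval ![X 0, X 1, 0] : R3 →ₐ[ℚ] R3).toRingHom (by simp) (by simp) (by simp) h.1
  · refine ⟨_, ?_, rfl⟩
    have i0 : (X 0 : R3).IsHomogeneous 1 := isHomogeneous_X _ _
    have i1 : (X 1 : R3).IsHomogeneous 1 := isHomogeneous_X _ _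
    have i2 : (X 2 : R3).IsHomogeneous 1 := isHomogeneous_X _ _
    rintro _ ⟨i, rfl⟩
    fin_cases i
    · exact ⟨_, i0.pow 7⟩
    · exact ⟨_, (i0.pow 6).mul i1⟩
    · exact ⟨_, (i0.pow 4).mul (i1.pow 3)⟩
    · exact ⟨_, i0.mul (i1.pow 6)⟩
    · exact ⟨_, i1.pow 7⟩
    · exact ⟨8, ((i0.pow 3).mul (i1.pow 5)).add ((i2.mul (i0.pow 5)).mul (i1.pow 2))⟩
  · exact not_proj hy hyx _ 7 (gen_mem _ _ _ 0) (gen_mem _ _ _ 4)
      (fun h => one_not_mem _ _ constantCoeff e0 e1 6 (QQ_le _ _ _ h))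
  · intro t ht
    rw [QQ_pow _ _ _ t ht]
    refine ⟨pd_MM hy hyx _, not_proj hy hyx _ (7 * t) ?_ ?_ ?_⟩
    · simpa using mono_mem (X 0 : R3) (X 1) (N := 7 * t) (7 * t) 0 rfl
    · simpa using mono_mem (X 0 : R3) (X 1) (N := 7 * t) 0 (7 * t) (by simp)
    · obtain ⟨N, hN⟩ : ∃ N, 7 * t = N + 1 := ⟨7 * t - 1, by omega⟩
      rw [hN]
      exact one_not_mem _ _ constantCoeff e0 e1 N

end Pool.Agent.S00062
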