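import Pool.Statements.S00086
-- import your own Pool.Agent.* helpers here

set_option autoImplicit false
open Pool Pool.MP_26e61c_ag

namespace Pool.Agent.S00086

/-- The support of the test point. -/
def S : List (Fin 4 → ZMod 10) :=
  [![0, 0, 0, 0], ![0, 8, 0, 2], ![3, 0, 0, 7], ![3, 0, 1, 6], ![3, 1, 0, 6], ![4, 0, 0, 6],
    ![4, 8, 1, 7], ![8, 0, 0, 2]]

/-- The values used at each leaf. -/
def C : Fin 4 → List (ZMod 10) := ![[0, 3, 4, 8], [0, 8, 1], [0, 1], [0, 2, 7, 6]]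

lemma key0 : ∀ a ∈ C 0, ∀ b ∈ C 1, ∀ c ∈ C 2, ∀ d ∈ C 3, a + b + c + d = 0 →
    ∃ s ∈ ![8, 1, 1, 0] :: S, s 0 = a ∧ s 1 = b ∧ s 2 = c ∧ s 3 = d := by decide +kernel

lemma key2 : ∀ s ∈ S, (∀ i, s i ∈ C i) ∧ ∀ i j : Fin 4,
    s i + s j = ![8, 1, 1, 0] i + ![8, 1, 1, 0] j → i = j := by
  simp only [S, List.forall_mem_cons, List.not_mem_nil, false_imp_iff, implies_true]
  decide +kernel

lemma key (A : Finset (Fin 4)) (hA : A.card = 2) (g : Fin 4 → ZMod 10) (hg : ∑ i, g i = 0) :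
    g ∈ S ↔ (∃ s ∈ S, ∑ i ∈ A, s i = ∑ i ∈ A, g i) ∧ ∀ i, g i ∈ C i := by
  refine ⟨fun h => ⟨⟨g, h, rfl⟩, (key2 g h).1⟩, fun h => ?_⟩
  obtain ⟨i, j, hij, rfl⟩ := Finset.card_eq_two.1 hA
  simp only [Finset.sum_pair hij] at h
  obtain ⟨s, hs, h0, h1, h2, h3⟩ := key0 _ (h.2 0) _ (h.2 1) _ (h.2 2) _ (h.2 3)
    (by rwa [Fin.sum_univ_four] at hg)
  obtain rfl : g = s := by ext i; fin_cases i <;> simp [*]
  obtain ⟨t, ht, e⟩ := h.1
  exact (List.mem_cons.1 hs).resolve_left fun e' => hij ((key2 t ht).2 i j (e' ▸ e))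

open MvPolynomial in
/-- The negation of the preceding statement: For every finite abelian G and n at least 4: every polynomial vanishing on the claw group-based model, times a high enough power of the irrelevant ideal, lies in the sum of the ideals of all prolongations splitting the leaves into two parts of size at least 2. -/
theorem result :
    ¬ (∀ (G : Type) [AddCommGroup G] [Fintype G] (n : ℕ), 4 ≤ n →
      ∀ f : MvPolynomial {g : Fin n → G // ∑ i, g i = 0} ℂ,
        f ∈ RingHom.ker (MvPolynomial.aeval (R := ℂ)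
          (fun g : {g : Fin n → G // ∑ i, g i = 0} =>
            (∏ i, MvPolynomial.X (some i, g.1 i) :
              MvPolynomial (Option (Fin n) × G) ℂ))) →
        ∃ k : ℕ, ∀ h ∈ (Ideal.span (Set.range
            (MvPolynomial.X : {g : Fin n → G // ∑ i, g i = 0} →
              MvPolynomial {g : Fin n → G // ∑ i, g i = 0} ℂ))) ^ k,
          h * f ∈ ⨆ A : {A : Finset (Fin n) // 2 ≤ A.card ∧ A.card + 2 ≤ n},
            RingHom.ker (MvPolynomial.aeval (R := ℂ)
              (fun g : {g : Fin n → G // ∑ i, g i = 0} =>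
                (MvPolynomial.X (none, ∑ i ∈ A.1, g.1 i) *
                  ∏ i, MvPolynomial.X (some i, g.1 i) :
                  MvPolynomial (Option (Fin n) × G) ℂ)))) := by
  intro h
  let q : (g : Fin 4 → ZMod 10) → ∑ i, g i = 0 →
    MvPolynomial {g : Fin 4 → ZMod 10 // ∑ i, g i = 0} ℂ := fun g hg => X ⟨g, hg⟩
  obtain ⟨k, hk⟩ := h (ZMod 10) 4 le_rfl
    (q ![0, 0, 0, 0] (by decide) * q ![3, 1, 0, 6] (by decide) * q ![4, 8, 1, 7] (by decide) *
      q ![8, 0, 0, 2] (by decide) - q ![8, 1, 1, 0] (by decide) * q ![3, 0, 0, 7] (by decide) *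
      q ![0, 8, 0, 2] (by decide) * q ![4, 0, 0, 6] (by decide)) (by
    simp only [RingHom.mem_ker, q, map_sub, map_mul, aeval_X, Fin.prod_univ_four,
      Matrix.cons_val]
    ring)
  set ev : MvPolynomial {g : Fin 4 → ZMod 10 // ∑ i, g i = 0} ℂ →ₐ[ℂ] ℂ :=
    aeval fun g => if g.1 ∈ S then 1 else 0 with hev
  have h1 := hk _ (Ideal.pow_mem_pow (Ideal.subset_span (Set.mem_range_self ⟨![0, 0, 0, 0], by decide⟩)) k)
  have h2 : _ ∈ RingHom.ker ev := (iSup_le fun A p hp => ?_ : _ ≤ RingHom.ker ev) h1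
  · have a0 : ![0, 0, 0, 0] ∈ S := by decide
    have a1 : ![3, 1, 0, 6] ∈ S := by decide
    have a2 : ![4, 8, 1, 7] ∈ S := by decide
    have a3 : ![8, 0, 0, 2] ∈ S := by decide
    have a4 : ![8, 1, 1, 0] ∉ S := by decide
    simp only [RingHom.mem_ker, q, hev, map_sub, map_mul, map_pow, aeval_X, a0, a1, a2, a3, a4,
      if_true, if_false] at h2
    simp at h2
  · classical
    have e := congrArg (aeval (R := ℂ) (S₁ := ℂ) fun z : Option (Fin 4) × ZMod 10 =>
      if z.1.elim (∃ s ∈ S, ∑ i ∈ A.1, s i = z.2) (fun i => z.2 ∈ C i) then 1 else 0)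
      (RingHom.mem_ker.1 hp)
    rw [map_zero, comp_aeval_apply] at e
    rw [RingHom.mem_ker, ← e, hev]
    congr 2; ext g
    simp only [key A.1 (by have := A.2; omega) g.1 g.2, map_mul, map_prod, aeval_X, Option.elim]
    by_cases h3 : ∀ i, g.1 i ∈ C i
    · simp [h3]
    · obtain ⟨i, hi⟩ := not_forall.1 h3
      rw [Finset.prod_eq_zero (Finset.mem_univ i) (if_neg hi), if_neg fun h => h3 h.2, mul_zero]

end Pool.Agent.S00086
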