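import Pool.Statements.S00164
import Pool.Agent.H20.Gen

set_option autoImplicit false
open Pool Pool.MP_450528_ag

namespace Pool.Agent.S00164

open MvPolynomial Pool.Agent.H20.Gen

abbrev J := Fin 3 → Fin 2

lemma sumJ {M : Type} [AddCommMonoid M] (f : J → M) : ∑ I, f I = f ![0,0,0] + (f ![0,0,1] + (f ![0,1,0] + (f ![0,1,1] +
    (f ![1,0,0] + (f ![1,0,1] + (f ![1,1,0] + f ![1,1,1])))))) := by
  have : (Finset.univ : Finset J) = {![0,0,0], ![0,0,1], ![0,1,0], ![0,1,1], ![1,0,0], ![1,0,1],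
    ![1,1,0], ![1,1,1]} := by decide
  rw [this]
  iterate 7 rw [Finset.sum_insert (by decide)]
  rw [Finset.sum_singleton]

lemma allJ {p : J → Prop} (h : p ![0,0,0] ∧ p ![0,0,1] ∧ p ![0,1,0] ∧ p ![0,1,1] ∧ p ![1,0,0] ∧
    p ![1,0,1] ∧ p ![1,1,0] ∧ p ![1,1,1]) : ∀ I, p I := by
  have : ∀ I : J, I = ![0,0,0] ∨ I = ![0,0,1] ∨ I = ![0,1,0] ∨ I = ![0,1,1] ∨ I = ![1,0,0] ∨
    I = ![1,0,1] ∨ I = ![1,1,0] ∨ I = ![1,1,1] := by decide
  intro I
  rcases this I with rfl | rfl | rfl | rfl | rfl | rfl | rfl | rfl <;> tauto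

lemma inner (a b : Fin 3 → Fin 2 → ℂ) (I : J) :
    ∑ k : Fin 3, b k (I k) * ∏ j ∈ Finset.univ.erase k, a j (I j) =
      b 0 (I 0) * (a 1 (I 1) * a 2 (I 2)) + b 1 (I 1) * (a 0 (I 0) * a 2 (I 2)) +
        b 2 (I 2) * (a 0 (I 0) * a 1 (I 1)) := by
  rw [Fin.sum_univ_three, show (Finset.univ.erase 0 : Finset (Fin 3)) = {1, 2} by decide,
    show (Finset.univ.erase 1 : Finset (Fin 3)) = {0, 2} by decide,
    show (Finset.univ.erase 2 : Finset (Fin 3)) = {0, 1} by decide,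
    Finset.prod_pair (by decide), Finset.prod_pair (by decide), Finset.prod_pair (by decide)]

def IsCrit (T x : J → ℂ) : Prop := (∑ I, x I) = 1 ∧ ∃ a : Fin 3 → Fin 2 → ℂ,
  (∀ I, x I = ∏ k, a k (I k)) ∧ ∀ b : Fin 3 → Fin 2 → ℂ,
    (∑ I : J, (∑ k, b k (I k) * ∏ j ∈ Finset.univ.erase k, a j (I j))) = 0 →
    (∑ I : J, (x I - T I) * (∑ k, b k (I k) * ∏ j ∈ Finset.univ.erase k, a j (I j))) = 0

lemma IsCrit.shift {T x : J → ℂ} (h : IsCrit T x) (c : ℂ) : IsCrit (fun I => T I + c) x := by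
  obtain ⟨h1, a, h2, h3⟩ := h
  refine ⟨h1, a, h2, fun b hb => ?_⟩
  have := h3 b hb
  simp only [sumJ] at this hb ⊢
  linear_combination this - c * hb

def e : Fin 2 → ℂ := ![1, -1]
@[simp] lemma e0 : e 0 = 1 := rfl
@[simp] lemma e1 : e 1 = -1 := rfl

noncomputable def Xp (y : Fin 8 → ℂ) (I : J) : ℂ :=
  (1 + e (I 0) * y 0) / 2 * ((1 + e (I 1) * y 1) / 2) * ((1 + e (I 2) * y 2) / 2)

noncomputable def Ψ (I : J) : MvPolynomial (Fin 8) ℂ := C (1 / 8) * (X 7 +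
  C (e (I 0)) * (X 0 * (1 + X 1 ^ 2) * (1 + X 2 ^ 2) - X 3 * X 1 - X 4 * X 2 - X 6 * X 1 * X 2) +
  C (e (I 1)) * (X 1 * (1 + X 0 ^ 2) * (1 + X 2 ^ 2) - X 3 * X 0 - X 5 * X 2 - X 6 * X 0 * X 2) +
  C (e (I 2)) * (X 2 * (1 + X 0 ^ 2) * (1 + X 1 ^ 2) - X 4 * X 0 - X 5 * X 1 - X 6 * X 0 * X 1) +
  C (e (I 0) * e (I 1)) * X 3 + C (e (I 0) * e (I 2)) * X 4 + C (e (I 1) * e (I 2)) * X 5 +
  C (e (I 0) * e (I 1) * e (I 2)) * X 6)

lemma evΨ (y : Fin 8 → ℂ) (I : J) : eval y (Ψ I) = 1 / 8 * (y 7 +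
  e (I 0) * (y 0 * (1 + y 1 ^ 2) * (1 + y 2 ^ 2) - y 3 * y 1 - y 4 * y 2 - y 6 * y 1 * y 2) +
  e (I 1) * (y 1 * (1 + y 0 ^ 2) * (1 + y 2 ^ 2) - y 3 * y 0 - y 5 * y 2 - y 6 * y 0 * y 2) +
  e (I 2) * (y 2 * (1 + y 0 ^ 2) * (1 + y 1 ^ 2) - y 4 * y 0 - y 5 * y 1 - y 6 * y 0 * y 1) +
  e (I 0) * e (I 1) * y 3 + e (I 0) * e (I 2) * y 4 + e (I 1) * e (I 2) * y 5 +
  e (I 0) * e (I 1) * e (I 2) * y 6) := by
  simp only [Ψ, map_mul, map_add, map_sub, map_pow, eval_C, eval_X, map_one]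

/-- the point of the fibre with given `u v w` -/
noncomputable def mk (T : J → ℂ) (u v w : ℂ) : Fin 8 → ℂ :=
  ![u, v, w, ∑ I, e (I 0) * e (I 1) * T I, ∑ I, e (I 0) * e (I 2) * T I, ∑ I, e (I 1) * e (I 2) * T I,
    ∑ I, e (I 0) * e (I 1) * e (I 2) * T I, ∑ I, T I]

lemma mk_mem (T : J → ℂ) (u v w : ℂ)
    (h0 : u * (1 + v ^ 2) * (1 + w ^ 2) - mk T u v w 3 * v - mk T u v w 4 * w - mk T u v w 6 * v * w =
      ∑ I, e (I 0) * T I)
    (h1 : v * (1 + u ^ 2) * (1 + w ^ 2) - mk T u v w 3 * u - mk T u v w 5 * w - mk T u v w 6 * u * w =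
      ∑ I, e (I 1) * T I)
    (h2 : w * (1 + u ^ 2) * (1 + v ^ 2) - mk T u v w 4 * u - mk T u v w 5 * v - mk T u v w 6 * u * v =
      ∑ I, e (I 2) * T I) : mk T u v w ∈ Fib Ψ T := by
  intro I
  rw [evΨ, show mk T u v w 0 = u from rfl, show mk T u v w 1 = v from rfl,
    show mk T u v w 2 = w from rfl, h0, h1, h2]
  revert I
  apply allJ
  simp [mk, sumJ]
  refine ⟨?_, ?_, ?_, ?_, ?_, ?_, ?_, ?_⟩ <;> ring

noncomputable def Ay (y : Fin 8 → ℂ) (k : Fin 3) (i : Fin 2) : ℂ := (1 + e i * ![y 0, y 1, y 2] k) / 2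

lemma crit_of_fib {T : J → ℂ} {y : Fin 8 → ℂ} (hy : y ∈ Fib Ψ T) : IsCrit T (Xp y) := by
  have hT : T = fun I => eval y (Ψ I) := funext fun I => (hy I).symm
  refine ⟨?_, Ay y, fun I => ?_, fun b hb => ?_⟩
  · simp [sumJ, Xp]; ring
  · rw [Fin.prod_univ_three]; rfl
  · rw [hT]
    simp only [inner] at hb ⊢
    simp only [sumJ, evΨ, Xp, Ay, Matrix.cons_val, e0, e1] at hb ⊢
    linear_combination (1 / 8 * (1 - y 7 +
      y 0 * (y 0 - (y 0 * (1 + y 1 ^ 2) * (1 + y 2 ^ 2) - y 3 * y 1 - y 4 * y 2 - y 6 * y 1 * y 2)) +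
      y 1 * (y 1 - (y 1 * (1 + y 0 ^ 2) * (1 + y 2 ^ 2) - y 3 * y 0 - y 5 * y 2 - y 6 * y 0 * y 2)) +
      y 2 * (y 2 - (y 2 * (1 + y 0 ^ 2) * (1 + y 1 ^ 2) - y 4 * y 0 - y 5 * y 1 - y 6 * y 0 * y 1)) +
      y 0 * y 1 * (y 0 * y 1 - y 3) + y 0 * y 2 * (y 0 * y 2 - y 4) + y 1 * y 2 * (y 1 * y 2 - y 5) +
      y 0 * y 1 * y 2 * (y 0 * y 1 * y 2 - y 6))) * hb

lemma fib_of_crit {T x : J → ℂ} (h : IsCrit T x) : ∃ y ∈ Fib Ψ T, Xp y = x := by
  obtain ⟨h1, a, h2, h3⟩ := h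
  have hx : x = fun I => a 0 (I 0) * a 1 (I 1) * a 2 (I 2) := by
    funext I; rw [h2, Fin.prod_univ_three]
  subst hx
  have hs : (a 0 0 + a 0 1) * (a 1 0 + a 1 1) * (a 2 0 + a 2 1) = 1 := by
    simp [sumJ] at h1; linear_combination h1
  have g0 := h3 ![e, 0, 0] (by simp only [inner]; simp [sumJ]; ring)
  have g1 := h3 ![0, e, 0] (by simp only [inner]; simp [sumJ])
  have g2 := h3 ![0, 0, e] (by simp only [inner]; simp [sumJ])
  simp only [inner] at g0 g1 g2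
  obtain ⟨α, hα⟩ : ∃ α, α = a 0 0 + a 0 1 := ⟨_, rfl⟩
  obtain ⟨β, hβ⟩ : ∃ α, α = a 1 0 + a 1 1 := ⟨_, rfl⟩
  obtain ⟨γ, hγ⟩ : ∃ α, α = a 2 0 + a 2 1 := ⟨_, rfl⟩
  rw [← hα, ← hβ, ← hγ] at hs
  have n0 : α ≠ 0 := by rintro rfl; simp at hs
  have n1 : β ≠ 0 := by rintro rfl; simp at hs
  have n2 : γ ≠ 0 := by rintro rfl; simp at hs
  obtain ⟨u, hu⟩ : ∃ u, u = (a 0 0 - a 0 1) / α := ⟨_, rfl⟩
  obtain ⟨v, hv⟩ : ∃ u, u = (a 1 0 - a 1 1) / β := ⟨_, rfl⟩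
  obtain ⟨w, hw⟩ : ∃ u, u = (a 2 0 - a 2 1) / γ := ⟨_, rfl⟩
  have a00 : a 0 0 = α * (1 + u) / 2 := by rw [hu]; field_simp; linear_combination -hα
  have a01 : a 0 1 = α * (1 - u) / 2 := by rw [hu]; field_simp; linear_combination -hα
  have a10 : a 1 0 = β * (1 + v) / 2 := by rw [hv]; field_simp; linear_combination -hβ
  have a11 : a 1 1 = β * (1 - v) / 2 := by rw [hv]; field_simp; linear_combination -hβ
  have a20 : a 2 0 = γ * (1 + w) / 2 := by rw [hw]; field_simp; linear_combination -hγ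
  have a21 : a 2 1 = γ * (1 - w) / 2 := by rw [hw]; field_simp; linear_combination -hγ
  simp [sumJ, a00, a01, a10, a11, a20, a21] at g0 g1 g2
  refine ⟨mk T u v w, mk_mem T u v w ?_ ?_ ?_, ?_⟩
  · simp [mk, sumJ]
    apply mul_left_cancel₀ (mul_ne_zero n1 n2)
    linear_combination 4 * g0 - β * γ * u * (1 + v ^ 2) * (1 + w ^ 2) * hs
  · simp [mk, sumJ]
    apply mul_left_cancel₀ (mul_ne_zero n0 n2)
    linear_combination 4 * g1 - α * γ * v * (1 + u ^ 2) * (1 + w ^ 2) * hs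
  · simp [mk, sumJ]
    apply mul_left_cancel₀ (mul_ne_zero n0 n1)
    linear_combination 4 * g2 - α * β * w * (1 + u ^ 2) * (1 + v ^ 2) * hs
  · funext I
    revert I
    apply allJ
    simp [Xp, mk, a00, a01, a10, a11, a20, a21]
    refine ⟨?_, ?_, ?_, ?_, ?_, ?_, ?_, ?_⟩
    · linear_combination -(1 + u) * (1 + v) * (1 + w) / 8 * hs
    · linear_combination -(1 + u) * (1 + v) * (1 - w) / 8 * hs
    · linear_combination -(1 + u) * (1 - v) * (1 + w) / 8 * hs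
    · linear_combination -(1 + u) * (1 - v) * (1 - w) / 8 * hs
    · linear_combination -(1 - u) * (1 + v) * (1 + w) / 8 * hs
    · linear_combination -(1 - u) * (1 + v) * (1 - w) / 8 * hs
    · linear_combination -(1 - u) * (1 - v) * (1 + w) / 8 * hs
    · linear_combination -(1 - u) * (1 - v) * (1 - w) / 8 * hs

lemma Xp_uvw (y : Fin 8 → ℂ) : y 0 = ∑ I, e (I 0) * Xp y I ∧ y 1 = ∑ I, e (I 1) * Xp y I ∧
    y 2 = ∑ I, e (I 2) * Xp y I := by
  simp [sumJ, Xp]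
  refine ⟨?_, ?_, ?_⟩ <;> ring

lemma fib_eq {T : J → ℂ} {y : Fin 8 → ℂ} (hy : y ∈ Fib Ψ T) : y = mk T (y 0) (y 1) (y 2) := by
  have hT : T = fun I => eval y (Ψ I) := funext fun I => (hy I).symm
  rw [hT]
  funext i
  fin_cases i <;> simp [mk, sumJ, evΨ] <;> ring

lemma generic : ∃ N : ℕ, ∃ P : MvPolynomial J ℂ, P ≠ 0 ∧ ∀ T : J → ℂ, eval T P ≠ 0 →
    {x | IsCrit T x}.Finite ∧ {x | IsCrit T x}.ncard = N := by
  obtain ⟨N, P, hP, h⟩ := generic_count (by simp) Ψ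
  refine ⟨N, P, hP, fun T hT => ?_⟩
  have he : {x | IsCrit T x} = Xp '' Fib Ψ T := by
    ext x
    exact ⟨fib_of_crit, by rintro ⟨y, hy, rfl⟩; exact crit_of_fib hy⟩
  rw [he]
  refine ⟨(h T hT).1.image _, ?_⟩
  rw [Set.InjOn.ncard_image, (h T hT).2]
  intro y hy z hz hyz
  obtain ⟨y0, y1, y2⟩ := Xp_uvw y
  obtain ⟨z0, z1, z2⟩ := Xp_uvw z
  rw [fib_eq hy, fib_eq hz, y0, y1, y2, z0, z1, z2, hyz]

lemma quad {E Q δ : ℝ} (hδ : 0 < δ) (hQ : 0 ≤ Q) (h : ∀ t, |t| ≤ δ → 0 ≤ 2 * t * E + t ^ 2 * Q) :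
    E = 0 := by
  set s := min (δ / (|E| + 1)) (1 / (Q + 1)) with hs
  have s0 : 0 < s := lt_min (by positivity) (by positivity)
  have s1 : s * (|E| + 1) ≤ δ := (le_div_iff₀ (by positivity)).1 (min_le_left _ _)
  have s2 : s * (Q + 1) ≤ 1 := (le_div_iff₀ (by positivity)).1 (min_le_right _ _)
  have := h (-(s * E)) (by rw [abs_neg, abs_mul, abs_of_pos s0]; nlinarith)
  have h2 : s * E ^ 2 * (2 - s * Q) ≤ 0 := by nlinarith
  have h3 : 0 < 2 - s * Q := by nlinarith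
  by_contra hE
  have : 0 < s * E ^ 2 * (2 - s * Q) := by positivity
  linarith

lemma realcrit {a b c p q r t : ℝ} (ha : |a| ≤ 1 / 100) (hb : |b| ≤ 1 / 100) (hc : |c| ≤ 1 / 100)
    (hp : |p - 3 / 4| ≤ 1 / 100) (hq : |q - 3 / 4| ≤ 1 / 100) (hr : |r - 3 / 4| ≤ 1 / 100)
    (ht : |t| ≤ 1 / 100) : ∃ u v w : ℝ, 0 < u + v + w ∧
      u * (1 + v ^ 2) * (1 + w ^ 2) - p * v - q * w - t * v * w = a ∧
      v * (1 + u ^ 2) * (1 + w ^ 2) - p * u - r * w - t * u * w = b ∧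
      w * (1 + u ^ 2) * (1 + v ^ 2) - q * u - r * v - t * u * v = c := by
  rw [abs_le] at ha hb hc hp hq hr ht
  let g : ℝ × ℝ × ℝ → ℝ := fun z => (z.1 - a) ^ 2 + (z.2.1 - b) ^ 2 + (z.2.2 - c) ^ 2 +
    (z.1 * z.2.1 - p) ^ 2 + (z.1 * z.2.2 - q) ^ 2 + (z.2.1 * z.2.2 - r) ^ 2 + (z.1 * z.2.1 * z.2.2 - t) ^ 2
  let K : Set (ℝ × ℝ × ℝ) := Set.Icc (-3, -3, -3) (3, 3, 3) ∩ {z | 0 ≤ z.1 + z.2.1 + z.2.2}
  have hK : IsCompact K := isCompact_Icc.inter_right (isClosed_le continuous_const (by fun_prop))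
  have mem : ∀ u v w : ℝ, -3 ≤ u → u ≤ 3 → -3 ≤ v → v ≤ 3 → -3 ≤ w → w ≤ 3 → 0 ≤ u + v + w →
      (u, v, w) ∈ K := fun u v w h1 h2 h3 h4 h5 h6 h7 => ⟨⟨⟨h1, h3, h5⟩, ⟨h2, h4, h6⟩⟩, h7⟩
  have m0 := mem (1 / 2) (1 / 2) (1 / 2) (by norm_num) (by norm_num) (by norm_num) (by norm_num)
    (by norm_num) (by norm_num) (by norm_num)
  obtain ⟨⟨u, v, w⟩, ⟨-, hz⟩, hmin⟩ := hK.exists_isMinOn ⟨_, m0⟩ (show Continuous g by fun_prop).continuousOn
  have hz : 0 ≤ u + v + w := hz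
  have b0 : g (u, v, w) ≤ 158 / 100 := by
    refine le_trans (hmin m0) ?_
    simp only [g]
    nlinarith
  simp only [g] at b0
  have s1 := sq_nonneg (u - a)
  have s2 := sq_nonneg (v - b)
  have s3 := sq_nonneg (w - c)
  have s4 := sq_nonneg (u * v - p)
  have s5 := sq_nonneg (u * w - q)
  have s6 := sq_nonneg (v * w - r)
  have s7 := sq_nonneg (u * v * w - t)
  have aux : ∀ u a : ℝ, (u - a) ^ 2 ≤ 158 / 100 → -(1 / 100) ≤ a ∧ a ≤ 1 / 100 → -2 ≤ u ∧ u ≤ 2 := by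
    clear * -
    intro u a h1 h2
    have := abs_le_of_sq_le_sq' (show (u - a) ^ 2 ≤ (3 / 2) ^ 2 by linarith) (by norm_num)
    constructor <;> linarith [this.1, this.2]
  have u1 := aux u a (by linarith) ha
  have v1 := aux v b (by linarith) hb
  have w1 := aux w c (by linarith) hc
  have hpos : 0 < u + v + w := by
    refine lt_of_le_of_ne hz fun h0 => ?_
    have hw : w = -u - v := by linarith
    have k1 : 0 ≤ -(p * (u * v) + q * (u * w) + r * (v * w)) := by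
      rw [hw]
      nlinarith [mul_nonneg (show 0 ≤ q - 74 / 100 by linarith) (sq_nonneg u),
        mul_nonneg (show 0 ≤ r - 74 / 100 by linarith) (sq_nonneg v),
        mul_nonneg (show 0 ≤ 78 / 100 + (q + r - p) by linarith) (sq_nonneg (u + v)),
        mul_nonneg (show 0 ≤ 78 / 100 - (q + r - p) by linarith) (sq_nonneg (u - v)),
        sq_nonneg u, sq_nonneg v]
    have p2 : (74 / 100) ^ 2 ≤ p ^ 2 := by nlinarith
    have q2 : (74 / 100) ^ 2 ≤ q ^ 2 := by nlinarith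
    have r2 : (74 / 100) ^ 2 ≤ r ^ 2 := by nlinarith
    nlinarith [sq_nonneg (u * v), sq_nonneg (u * w), sq_nonneg (v * w)]
  have hδ : 0 < min 1 (u + v + w) := lt_min one_pos hpos
  have d1 := min_le_left 1 (u + v + w)
  have d2 := min_le_right 1 (u + v + w)
  refine ⟨u, v, w, hpos, ?_, ?_, ?_⟩
  · rw [← sub_eq_zero]
    refine quad hδ (show 0 ≤ (1 + v ^ 2) * (1 + w ^ 2) by positivity) fun h hh => ?_
    rw [abs_le] at hh
    have := hmin (mem (u + h) v w (by linarith) (by linarith) (by linarith) (by linarith) (by linarith)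
      (by linarith) (by linarith))
    simp only [g, Set.mem_setOf_eq] at this
    linarith
  · rw [← sub_eq_zero]
    refine quad hδ (show 0 ≤ (1 + u ^ 2) * (1 + w ^ 2) by positivity) fun h hh => ?_
    rw [abs_le] at hh
    have := hmin (mem u (v + h) w (by linarith) (by linarith) (by linarith) (by linarith) (by linarith)
      (by linarith) (by linarith))
    simp only [g, Set.mem_setOf_eq] at this
    linarith
  · rw [← sub_eq_zero]
    refine quad hδ (show 0 ≤ (1 + u ^ 2) * (1 + v ^ 2) by positivity) fun h hh => ?_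
    rw [abs_le] at hh
    have := hmin (mem u v (w + h) (by linarith) (by linarith) (by linarith) (by linarith) (by linarith)
      (by linarith) (by linarith))
    simp only [g, Set.mem_setOf_eq] at this
    linarith

noncomputable def T0 (I : J) : ℝ := if I 0 = I 1 ∧ I 1 = I 2 then 13 / 32 else 1 / 32
def er : Fin 2 → ℝ := ![1, -1]
@[simp] lemma er0 : er 0 = 1 := rfl
@[simp] lemma er1 : er 1 = -1 := rfl
lemma e_er (i : Fin 2) : e i = (er i : ℝ) := by fin_cases i <;> simp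

lemma two_real (R : J → ℝ) (hR : ∀ I, |R I - T0 I| < 1 / 1000) : ∃ x x' : J → ℂ, x ≠ x' ∧
    (IsCrit (fun I => (R I : ℂ)) x ∧ ∀ I, (x I).im = 0) ∧
    (IsCrit (fun I => (R I : ℂ)) x' ∧ ∀ I, (x' I).im = 0) := by
  have h0 := abs_lt.1 (hR ![0,0,0])
  have h1 := abs_lt.1 (hR ![0,0,1])
  have h2 := abs_lt.1 (hR ![0,1,0])
  have h3 := abs_lt.1 (hR ![0,1,1])
  have h4 := abs_lt.1 (hR ![1,0,0])
  have h5 := abs_lt.1 (hR ![1,0,1])
  have h6 := abs_lt.1 (hR ![1,1,0])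
  have h7 := abs_lt.1 (hR ![1,1,1])
  simp [T0] at h0 h1 h2 h3 h4 h5 h6 h7
  have ha : |∑ I, er (I 0) * R I| ≤ 1 / 100 := by
    rw [abs_le]; simp [sumJ]; constructor <;> linarith
  have hb : |∑ I, er (I 1) * R I| ≤ 1 / 100 := by
    rw [abs_le]; simp [sumJ]; constructor <;> linarith
  have hc : |∑ I, er (I 2) * R I| ≤ 1 / 100 := by
    rw [abs_le]; simp [sumJ]; constructor <;> linarith
  have hp : |∑ I, er (I 0) * er (I 1) * R I - 3 / 4| ≤ 1 / 100 := by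
    rw [abs_le]; simp [sumJ]; constructor <;> linarith
  have hq : |∑ I, er (I 0) * er (I 2) * R I - 3 / 4| ≤ 1 / 100 := by
    rw [abs_le]; simp [sumJ]; constructor <;> linarith
  have hr : |∑ I, er (I 1) * er (I 2) * R I - 3 / 4| ≤ 1 / 100 := by
    rw [abs_le]; simp [sumJ]; constructor <;> linarith
  have ht : |∑ I, er (I 0) * er (I 1) * er (I 2) * R I| ≤ 1 / 100 := by
    rw [abs_le]; simp [sumJ]; constructor <;> linarith
  obtain ⟨u, v, w, hs, k0, k1, k2⟩ := realcrit ha hb hc hp hq hr ht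
  obtain ⟨u', v', w', hs', k0', k1', k2'⟩ := realcrit ((abs_neg _).trans_le ha) ((abs_neg _).trans_le hb)
    ((abs_neg _).trans_le hc) hp hq hr ((abs_neg _).trans_le ht)
  have him : ∀ u v w : ℝ, ∀ I, (Xp (mk (fun I => (R I : ℂ)) u v w) I).im = 0 := by
    intro u v w I
    have : Xp (mk (fun I => (R I : ℂ)) u v w) I =
        (((1 + er (I 0) * u) / 2 * ((1 + er (I 1) * v) / 2) * ((1 + er (I 2) * w) / 2) : ℝ) : ℂ) := by
      simp only [Xp, e_er]; push_cast; rfl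
    rw [this, Complex.ofReal_im]
  refine ⟨Xp (mk (fun I => (R I : ℂ)) u v w), Xp (mk (fun I => (R I : ℂ)) (-u' : ℝ) (-v' : ℝ) (-w' : ℝ)),
    fun h => ?_, ⟨crit_of_fib (mk_mem _ _ _ _ ?_ ?_ ?_), him _ _ _⟩,
    ⟨crit_of_fib (mk_mem _ _ _ _ ?_ ?_ ?_), him _ _ _⟩⟩
  · obtain ⟨y0, y1, y2⟩ := Xp_uvw (mk (fun I => (R I : ℂ)) u v w)
    obtain ⟨z0, z1, z2⟩ := Xp_uvw (mk (fun I => (R I : ℂ)) (-u' : ℝ) (-v' : ℝ) (-w' : ℝ))
    rw [h, ← z0] at y0
    rw [h, ← z1] at y1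
    rw [h, ← z2] at y2
    have y0 : u = -u' := Complex.ofReal_injective y0
    have y1 : v = -v' := Complex.ofReal_injective y1
    have y2 : w = -w' := Complex.ofReal_injective y2
    linarith
  all_goals simp only [mk, e_er, Matrix.cons_val]
  · exact_mod_cast k0
  · exact_mod_cast k1
  · exact_mod_cast k2
  · norm_cast; linear_combination -k0'
  · norm_cast; linear_combination -k1'
  · norm_cast; linear_combination -k2'

/-- The negation of the preceding statement: For all d≥2, m_k≥2: if a nonnegative real tensor with entry sum 1 has exactly N distinct critical points of squared distance on rank-one tensors with entry sum 1 (N = generic count), exactly one is real. -/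
theorem result :
    ¬ (∀ (d : ℕ) (m : Fin d → ℕ), 2 ≤ d → (∀ k, 2 ≤ m k) →
  ∀ (Crit : (((k : Fin d) → Fin (m k)) → ℂ) → Set (((k : Fin d) → Fin (m k)) → ℂ)),
  (∀ (T x : ((k : Fin d) → Fin (m k)) → ℂ), x ∈ Crit T ↔
     ((∑ I : ((k : Fin d) → Fin (m k)), x I) = 1 ∧ ∃ a : (k : Fin d) → Fin (m k) → ℂ,
        (∀ I : ((k : Fin d) → Fin (m k)), x I = ∏ k : Fin d, a k (I k)) ∧
        ∀ b : (k : Fin d) → Fin (m k) → ℂ,
          (∑ I : ((k : Fin d) → Fin (m k)),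
              (∑ k : Fin d, b k (I k) * ∏ j ∈ Finset.univ.erase k, a j (I j))) = 0 →
          (∑ I : ((k : Fin d) → Fin (m k)), (x I - T I) *
              (∑ k : Fin d, b k (I k) * ∏ j ∈ Finset.univ.erase k, a j (I j))) = 0)) →
  ∀ N : ℕ,
  (∃ P : MvPolynomial ((k : Fin d) → Fin (m k)) ℂ, P ≠ 0 ∧
     ∀ T : ((k : Fin d) → Fin (m k)) → ℂ, MvPolynomial.eval T P ≠ 0 →
       (Crit T).Finite ∧ (Crit T).ncard = N) →
  ∀ T : ((k : Fin d) → Fin (m k)) → ℝ, (∀ I : ((k : Fin d) → Fin (m k)), 0 ≤ T I) →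
    (∑ I : ((k : Fin d) → Fin (m k)), T I) = 1 →
    (Crit (fun I : ((k : Fin d) → Fin (m k)) => (T I : ℂ))).Finite →
    (Crit (fun I : ((k : Fin d) → Fin (m k)) => (T I : ℂ))).ncard = N →
    {x : ((k : Fin d) → Fin (m k)) → ℂ |
        x ∈ Crit (fun I : ((k : Fin d) → Fin (m k)) => (T I : ℂ)) ∧
        ∀ I : ((k : Fin d) → Fin (m k)), (x I).im = 0}.ncard = 1) := by
  intro H
  obtain ⟨N, P, hP, hgen⟩ := generic
  have hex : ∃ x ∈ Set.pi Set.univ (fun I : J => (fun r : ℝ => (r : ℂ)) ''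
      Set.Ioo (T0 I - 1 / 1000) (T0 I + 1 / 1000)), eval x P ≠ 0 := by
    by_contra hc
    push Not at hc
    exact hP (MvPolynomial.funext_set _ (fun I => (Set.Ioo_infinite (show T0 I - 1 / 1000 < T0 I + 1 / 1000 by linarith)).image
      Complex.ofReal_injective.injOn) fun x hx => by simpa using hc x hx)
  obtain ⟨x, hx, hxP⟩ := hex
  choose R hR hRx using fun I => hx I (Set.mem_univ I)
  obtain rfl : x = fun I => (R I : ℂ) := funext fun I => (hRx I).symm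
  have hR' : ∀ I, |R I - T0 I| < 1 / 1000 := fun I => by
    rw [abs_lt]; constructor <;> linarith [(hR I).1, (hR I).2]
  obtain ⟨c, hc⟩ : ∃ c : ℝ, c = (1 - ∑ I, R I) / 8 := ⟨_, rfl⟩
  have hc' : -(1 / 1000) ≤ c := by
    have h0 := (hR ![0,0,0]).2
    have h1 := (hR ![0,0,1]).2
    have h2 := (hR ![0,1,0]).2
    have h3 := (hR ![0,1,1]).2
    have h4 := (hR ![1,0,0]).2
    have h5 := (hR ![1,0,1]).2
    have h6 := (hR ![1,1,0]).2
    have h7 := (hR ![1,1,1]).2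
    simp [T0] at h0 h1 h2 h3 h4 h5 h6 h7
    rw [hc, sumJ]; linarith
  have he : {x | IsCrit (fun I => ((R I + c : ℝ) : ℂ)) x} = {x | IsCrit (fun I => (R I : ℂ)) x} := by
    ext x
    constructor
    · intro h; simpa using IsCrit.shift h (-c)
    · intro h; simpa using IsCrit.shift h c
  have := H 3 (fun _ => 2) (by norm_num) (fun _ => le_rfl) (fun T => {x | IsCrit T x})
    (fun T x => Iff.rfl) N ⟨P, hP, hgen⟩ (fun I => R I + c) (fun I => by
      have h1 := (hR I).1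
      have h2 : 1 / 32 ≤ T0 I := by unfold T0; split_ifs <;> norm_num
      linarith)
    (by
      have := sumJ R
      rw [sumJ]; linarith)
    (by simp only [he]; exact (hgen _ hxP).1) (by simp only [he]; exact (hgen _ hxP).2)
  simp only [he] at this
  obtain ⟨z, hz⟩ := Set.ncard_eq_one.1 this
  obtain ⟨x, x', hne, h1, h2⟩ := two_real R hR'
  have e1 : x ∈ ({z} : Set (J → ℂ)) := by rw [← hz]; exact h1
  have e2 : x' ∈ ({z} : Set (J → ℂ)) := by rw [← hz]; exact h2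
  exact hne (e1.trans e2.symm)

end Pool.Agent.S00164
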