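import Pool.Statements.S00170
import Pool.Agent.H23.Iso1

set_option autoImplicit false
open Pool Pool.MP_4658d5_ag

set_option maxSynthPendingDepth 3

namespace Pool.Agent.S00170

open Pool.Agent.H23.Iso Filter Topology

noncomputable def P : MvPolynomial (Fin 3) ℂ :=
  MvPolynomial.X 0 * MvPolynomial.X 1 * ((MvPolynomial.X 0 - 1) ^ 2 * MvPolynomial.X 2 - 1 -
    (MvPolynomial.X 0 - 1) * MvPolynomial.X 1)

lemma evP (v : Fin 3 → ℂ) : MvPolynomial.eval v P = pp v := by simp [P, pp]

abbrev XX := {x : Fin 3 → ℂ // MvPolynomial.eval x P = 0}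

def Φ (t : ℂ) (v : Fin 3 → ℂ) : Fin 3 → ℂ :=
  ![v 0, t * v 1, v 2 - (1 - t) * v 1 * ((v 0 - 1) * v 2 - v 1)]

lemma Φ_mem (t : ℂ) (v : Fin 3 → ℂ) (h : pp v = 0) : pp (Φ t v) = 0 := by
  simp only [pp, Φ, Matrix.cons_val_zero, Matrix.cons_val_one, Matrix.cons_val] at h ⊢
  linear_combination (t - t * (1 - t) * (v 0 - 1) * v 1) * h

lemma Φ_cont : Continuous (fun q : ℂ × (Fin 3 → ℂ) => Φ q.1 q.2) := by
  refine continuous_pi (fun i => ?_)
  fin_cases i <;> simp only [Φ] <;> simp <;> fun_prop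

lemma Φ_cont' {T : Type} [TopologicalSpace T] {a : T → ℂ} {b : T → Fin 3 → ℂ} (ha : Continuous a)
    (hb : Continuous b) : Continuous (fun q => Φ (a q) (b q)) :=
  Φ_cont.comp (ha.prodMk hb)

lemma c1 : Continuous (fun q : unitInterval × XX => ((q.1 : ℝ) : ℂ)) :=
  Complex.continuous_ofReal.comp (continuous_subtype_val.comp continuous_fst)

lemma c2 : Continuous (fun q : unitInterval × XX => q.2.1) :=
  continuous_subtype_val.comp continuous_snd

noncomputable def F0 : C(XX, XX) where
  toFun v := ⟨Φ 0 v.1, by rw [evP]; exact Φ_mem _ _ (evP _ ▸ v.2)⟩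
  continuous_toFun := Continuous.subtype_mk (Φ_cont' continuous_const continuous_subtype_val)
    (fun v => by rw [evP]; exact Φ_mem _ _ (evP _ ▸ v.2))

noncomputable def H1 : F0.Homotopy (ContinuousMap.id XX) where
  toFun q := ⟨Φ ((q.1 : ℝ) : ℂ) q.2.1, by rw [evP]; exact Φ_mem _ _ (evP _ ▸ q.2.2)⟩
  continuous_toFun := Continuous.subtype_mk (Φ_cont' c1 c2)
    (fun q => by rw [evP]; exact Φ_mem _ _ (evP _ ▸ q.2.2))
  map_zero_left v := by simp [F0]
  map_one_left v := by
    apply Subtype.ext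
    funext i
    fin_cases i <;> simp [Φ]

noncomputable def H2 : (ContinuousMap.const XX ⟨0, by rw [evP]; simp [pp]⟩).Homotopy F0 where
  toFun q := ⟨((q.1 : ℝ) : ℂ) • Φ 0 q.2.1, by simp [evP, pp, Φ]⟩
  continuous_toFun := Continuous.subtype_mk (Continuous.smul c1 (Φ_cont' continuous_const c2))
    (fun q => by simp [evP, pp, Φ])
  map_zero_left v := by simp
  map_one_left v := by simp [F0]

lemma contr : ContractibleSpace XX :=
  (contractible_iff_id_nullhomotopic XX).2 ⟨_, ⟨(H2.trans H1).symm⟩⟩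

/-- The negation of the preceding statement: For every complex polynomial p in n variables whose zero set is contractible (Euclidean topology), there is a finite set S such that any two fibres p=c and p=d with c, d outside S are isomorphic affine varieties via polynomial maps. -/
theorem result :
    ¬ (∀ (n : ℕ) (p : MvPolynomial (Fin n) ℂ),
      ContractibleSpace {x : Fin n → ℂ // MvPolynomial.eval x p = 0} →
      ∃ S : Finset ℂ, ∀ c d : ℂ, c ∉ S → d ∉ S →
        ∃ f g : Fin n → MvPolynomial (Fin n) ℂ,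
          (∀ x : Fin n → ℂ, MvPolynomial.eval x p = c →
              MvPolynomial.eval (fun i => MvPolynomial.eval x (f i)) p = d ∧
              (fun j => MvPolynomial.eval (fun i => MvPolynomial.eval x (f i)) (g j)) = x) ∧
          (∀ y : Fin n → ℂ, MvPolynomial.eval y p = d →
              MvPolynomial.eval (fun i => MvPolynomial.eval y (g i)) p = c ∧
              (fun j => MvPolynomial.eval (fun i => MvPolynomial.eval y (g i)) (f j)) = y)) := by
  intro H
  obtain ⟨S, hS⟩ := H 3 P contr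
  obtain ⟨c, ⟨n, rfl⟩, hcS⟩ := (Set.infinite_range_of_injective
    (f := fun n : ℕ => ((n : ℂ) + 1) * Complex.I) (fun a b h => by
      simpa using h)).exists_notMem_finset S
  set c : ℂ := ((n : ℂ) + 1) * Complex.I with hcdef
  have hcim : c.im ≠ 0 := by simp [hcdef]; positivity
  have hc : c ≠ 0 := fun h => hcim (by simp [h])
  obtain ⟨d, hd⟩ : ∃ d : ℂ, d ∉ (S : Set ℂ) ∪ {0} ∪ Set.range (fun q : ℤ × ℤ × ℤ × ℤ =>
      1 + ((q.1 : ℂ) + q.2.1 * (c - 1)) / (q.2.2.1 + q.2.2.2 * (c - 1))) := by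
    by_contra hcon
    push Not at hcon
    exact not_countable_complex ((Set.eq_univ_iff_forall.2 hcon) ▸
      ((S.countable_toSet.union (Set.countable_singleton _)).union (Set.countable_range _)))
  simp only [Set.mem_union, not_or, Set.mem_singleton_iff, Finset.mem_coe] at hd
  obtain ⟨⟨hdS, hd0⟩, hdr⟩ := hd
  obtain ⟨f, g, hf, hg⟩ := hS c d hcS hdS
  simp only [evP] at hf hg
  obtain ⟨κ0, α0, β0, k0, c0⟩ := key c hc (f 0) (fun v hv h0 => by
    have := (hf v hv).1
    simp only [pp, h0] at this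
    exact hd0 (by rw [← this]; ring))
  obtain ⟨κ1, α1, β1, k1, -⟩ := key c hc (f 1) (fun v hv h0 => by
    have := (hf v hv).1
    simp only [pp, h0] at this
    exact hd0 (by rw [← this]; ring))
  have hm : ∀ t, pp (γ c t 0) = c := fun t => γ_mem c t 0 (by simpa [yy] using hc)
  have hz : MvPolynomial.eval (γ c 0 0) (f 2) ≠ MvPolynomial.eval (γ c 1 0) (f 2) := by
    intro h
    have h1 : (fun i => MvPolynomial.eval (γ c 0 0) (f i)) =
        (fun i => MvPolynomial.eval (γ c 1 0) (f i)) := by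
      funext i
      fin_cases i
      · exact (k0 0).1.trans (k0 1).1.symm
      · exact (k1 0).1.trans (k1 1).1.symm
      · exact h
    have h2 := (hf _ (hm 0)).2
    rw [h1, (hf _ (hm 1)).2] at h2
    have h3 := congrFun h2 2
    simp [γ, RR, yy, hc] at h3
  have e0 := (hf _ (hm 0)).1
  have e1 := (hf _ (hm 1)).1
  simp only [pp, (k0 0).1, (k0 1).1, (k1 0).1, (k1 1).1] at e0 e1
  have hκ0 : κ0 = 1 := by
    have h1 : κ0 * κ1 * (κ0 - 1) ^ 2 *
        (MvPolynomial.eval (γ c 0 0) (f 2) - MvPolynomial.eval (γ c 1 0) (f 2)) = 0 := by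
      linear_combination e0 - e1
    have h2 : κ0 * κ1 ≠ 0 := fun h => hd0 (by rw [← e0, h, zero_mul])
    have h3 := (mul_eq_zero.1 ((mul_eq_zero.1 h1).resolve_right (sub_ne_zero.2 hz))).resolve_left h2
    exact sub_eq_zero.1 (pow_eq_zero_iff two_ne_zero |>.1 h3)
  subst hκ0
  have hκ1 : κ1 = -d := by linear_combination -e0
  subst hκ1
  have hD := (((k0 0).2.mul (k1 0).2).mul ((((((k0 0).2.sub_const 1).pow 2).mul
    (γ_diff c 0 hc (f 2)).hasDerivAt).sub_const 1).sub (((k0 0).2.sub_const 1).mul (k1 0).2)))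
  have hD0 := (hD.congr_of_eventuallyEq (f₁ := fun _ => d) (by
    filter_upwards [ev_ne c 0 hc] with u hu
    exact (hf _ (γ_mem c 0 u hu)).1.symm)).unique (hasDerivAt_const _ _)
  simp only [Pi.mul_apply, Pi.sub_apply, Pi.pow_apply, (k0 0).1, (k1 0).1] at hD0
  have hrel : (α1 : ℂ) + β1 * (c - 1) = (d - 1) * (α0 + β0 * (c - 1)) := by
    apply mul_left_cancel₀ hd0
    norm_num at hD0
    linear_combination hD0
  by_cases hA : (α0 : ℂ) + β0 * (c - 1) = 0
  · have hβ : β0 = 0 := by
      have := congrArg Complex.im hA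
      simpa [hcim] using this
    have hα : α0 = 0 := by simpa [hβ] using hA
    let y : Fin 3 → ℂ := ![2, 1, d / 2 + 2]
    have hy : pp y = d := by simp [pp, y]; ring
    obtain ⟨h1, h2⟩ := hg y hy
    have h3 := congrFun h2 0
    set v : Fin 3 → ℂ := fun i => MvPolynomial.eval y (g i)
    by_cases hv : v 0 = 1
    · have hv1 : v 1 = -c := by
        simp only [pp, hv] at h1
        linear_combination -h1
      have : v = γ c (-c * v 2 - c + 2 * c * (c * (1 - c))) 0 := by
        funext i
        fin_cases i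
        · simp [γ, hv]
        · simp [γ, yy, hv1]
        · simp [γ, yy, RR]
          field_simp
          ring
      rw [this, (k0 _).1] at h3
      simp [y] at h3
    · rw [c0 hα hβ v h1 hv] at h3
      simp [y] at h3
  · exact hdr ⟨(α1, β1, α0, β0), by simp only; rw [hrel, mul_div_cancel_right₀ _ hA]; ring⟩

end Pool.Agent.S00170
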