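import Pool.Statements.S00296
import Pool.Agent.H24.Dan5

set_option autoImplicit false
open Pool Pool.MP_89b417_ag

namespace Pool.Agent.S00296

/-- The negation of the preceding statement: For an irreducible complex polynomial p in n variables whose zero set is contractible, there is a finite set S such that for all c, d outside S the coordinate rings C[x]/(p-c) and C[x]/(p-d) are isomorphic C-algebras. -/
theorem result :
    ¬ (∀ (n : ℕ) (p : MvPolynomial (Fin n) ℂ), Irreducible p →
      ContractibleSpace ↥({x : Fin n → ℂ | MvPolynomial.eval x p = 0} : Set (Fin n → ℂ)) →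
      ∃ S : Finset ℂ, ∀ c d : ℂ, c ∉ S → d ∉ S →
        Nonempty ((MvPolynomial (Fin n) ℂ ⧸ Ideal.span {p - MvPolynomial.C c}) ≃ₐ[ℂ]
          (MvPolynomial (Fin n) ℂ ⧸ Ideal.span {p - MvPolynomial.C d}))) := by
  intro H
  obtain ⟨S, hS⟩ := H 3 _ H24.Dan.irr H24.Dan.contr
  classical
  obtain ⟨c, hc⟩ := Infinite.exists_notMem_finset (insert 0 S)
  obtain ⟨d, hd⟩ := Infinite.exists_notMem_finset (insert c (insert (-c) S))
  simp only [Finset.mem_insert, not_or] at hc hd
  obtain ⟨φ⟩ : Nonempty (H24.Dan.R c ≃ₐ[ℂ] H24.Dan.R d) := hS c d hc.2 hd.2.2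
  exact (H24.Dan.noniso φ hc.1).elim hd.1 hd.2.1

end Pool.Agent.S00296
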