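import Pool.Statements.S00308
import Pool.Agent.H20.Trip2

set_option autoImplicit false
open Pool Pool.MP_8fff0f_ag

namespace Pool.Agent.S00308

/-- The negation of the preceding statement: For every finite abelian group G, the toric ideal of the group-based model on the tripod is generated by polynomials of degree at most ∣G∣. This ideal is the kernel of q_{(g1,g2,g3)} ↦ a1_{g1}·a2_{g2}·a3_{g3} over tuples with g1+g2+g3=0. -/
theorem result :
    ¬ (∀ (G : Type) [AddCommGroup G] [Fintype G],
      ∃ S : Set (MvPolynomial {g : Fin 3 → G // ∑ i, g i = 0} ℂ),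
        (∀ p ∈ S, p.totalDegree ≤ Fintype.card G) ∧
        Ideal.span S =
          RingHom.ker
            (MvPolynomial.aeval
              (fun g : {g : Fin 3 → G // ∑ i, g i = 0} =>
                ∏ i : Fin 3, (MvPolynomial.X (i, g.1 i) : MvPolynomial (Fin 3 × G) ℂ)))) := by
  intro h
  obtain ⟨S, h1, h2⟩ := h (H20.Trip.G 13)
  obtain ⟨ev, h3, f, -, h4, h5, -⟩ := H20.Trip.main3 (M := 13)
  have : Ideal.span S ≤ RingHom.ker ev := Ideal.span_le.2 fun p hp =>
    h3 p (RingHom.mem_ker.1 (h2 ▸ Ideal.subset_span hp)) ((h1 p hp).trans_lt (by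
      rw [H20.Trip.card_G]; norm_num))
  exact one_ne_zero (h5.symm.trans (this (h2 ▸ RingHom.mem_ker.2 h4)))

end Pool.Agent.S00308
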