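import Pool.Statements.S00406


set_option autoImplicit false
open Pool Pool.MP_b9ea36_ag

set_option maxSynthPendingDepth 3

namespace Pool.Agent.S00406

lemma near_ne (a ε b : ℝ) (hε : 0 < ε) : ∃ x, |x - a| < ε ∧ x ≠ b := by
  by_cases h : a = b
  · refine ⟨a + ε / 2, ?_, ?_⟩
    · rw [abs_lt]; constructor <;> linarith
    · rw [← h]; linarith
  · exact ⟨a, by simpa using hε, h⟩

def EE : Finset (Fin 5 × Fin 5) :=
  Finset.univ.filter (fun p => p.2 = p.1 ∨ p.2 = p.1 + 1 ∨ p.2 = p.1 + 2)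

lemma dense (A : Matrix (Fin 5) (Fin 5) ℝ) (ε : ℝ) (hε : 0 < ε) :
    ∃ B : Matrix (Fin 5) (Fin 5) ℝ, B.rank ≤ 2 ∧ ∀ p ∈ EE, |B p.1 p.2 - A p.1 p.2| < ε := by
  obtain ⟨a22, h22, n22⟩ := near_ne (A 2 2) ε 0 hε
  obtain ⟨a02, h02, n02⟩ := near_ne (A 0 2) ε 0 hε
  obtain ⟨a00, h00, n00⟩ := near_ne (A 0 0) ε 0 hε
  obtain ⟨a01, h01, n01⟩ := near_ne (A 0 1) ε 0 hε
  obtain ⟨l, hl⟩ : ∃ l, l = a02 / a22 := ⟨_, rfl⟩
  have nl : l ≠ 0 := hl ▸ div_ne_zero n02 n22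
  obtain ⟨w0, hw0⟩ : ∃ w, w = a00 / l := ⟨_, rfl⟩
  obtain ⟨w1, hw1⟩ : ∃ w, w = a01 / l := ⟨_, rfl⟩
  have nw0 : w0 ≠ 0 := hw0 ▸ div_ne_zero n00 nl
  have nw1 : w1 ≠ 0 := hw1 ▸ div_ne_zero n01 nl
  obtain ⟨a44, h44, n44⟩ := near_ne (A 4 4) ε (A 2 4 * A 4 0 / w0) hε
  obtain ⟨a34, h34, n34⟩ := near_ne (A 3 4) ε (A 2 4 * A 3 0 / w0) hε
  have d1 : w0 * a44 - A 2 4 * A 4 0 ≠ 0 := by
    intro h; apply n44; field_simp; linarith
  have d2 : w0 * a34 - A 2 4 * A 3 0 ≠ 0 := by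
    intro h; apply n34; field_simp; linarith
  obtain ⟨β, hβ⟩ : ∃ w, w = (w0 * a34 - A 2 4 * A 3 0) / (w0 * a44 - A 2 4 * A 4 0) := ⟨_, rfl⟩
  obtain ⟨α, hα⟩ : ∃ w, w = (A 3 0 * a44 - a34 * A 4 0) / (w0 * a44 - A 2 4 * A 4 0) := ⟨_, rfl⟩
  have nβ : β ≠ 0 := hβ ▸ div_ne_zero d2 d1
  obtain ⟨a33, h33, n33⟩ := near_ne (A 3 3) ε (α * A 2 3 + β * (A 2 3 * A 4 1 / w1)) hε
  obtain ⟨z3, hz3⟩ : ∃ w, w = (a33 - α * A 2 3) / β := ⟨_, rfl⟩
  have e33 : α * A 2 3 + β * z3 = a33 := by rw [hz3]; field_simp; ring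
  have d3 : w1 * z3 - A 2 3 * A 4 1 ≠ 0 := by
    intro h; apply n33
    have : z3 = A 2 3 * A 4 1 / w1 := by field_simp; linarith
    rw [← this, e33]
  obtain ⟨a13, h13, n13⟩ := near_ne (A 1 3) ε (A 2 3 * A 1 1 / w1) hε
  have d4 : w1 * a13 - A 2 3 * A 1 1 ≠ 0 := by
    intro h; apply n13; field_simp; linarith
  obtain ⟨δ, hδ⟩ : ∃ w, w = (w1 * a13 - A 2 3 * A 1 1) / (w1 * z3 - A 2 3 * A 4 1) := ⟨_, rfl⟩
  obtain ⟨γ, hγ⟩ : ∃ w, w = (A 1 1 * z3 - a13 * A 4 1) / (w1 * z3 - A 2 3 * A 4 1) := ⟨_, rfl⟩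
  have nδ : δ ≠ 0 := hδ ▸ div_ne_zero d4 d3
  obtain ⟨z2, hz2⟩ : ∃ w, w = (A 1 2 - γ * a22) / δ := ⟨_, rfl⟩
  have e12 : γ * a22 + δ * z2 = A 1 2 := by rw [hz2]; field_simp; ring
  have e11 : γ * w1 + δ * A 4 1 = A 1 1 := by
    rw [hγ, hδ, div_mul_eq_mul_div, div_mul_eq_mul_div, ← add_div, div_eq_iff d3]; ring
  have e13 : γ * A 2 3 + δ * z3 = a13 := by
    rw [hγ, hδ, div_mul_eq_mul_div, div_mul_eq_mul_div, ← add_div, div_eq_iff d3]; ring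
  have e30 : α * w0 + β * A 4 0 = A 3 0 := by
    rw [hα, hβ, div_mul_eq_mul_div, div_mul_eq_mul_div, ← add_div, div_eq_iff d1]; ring
  have e34 : α * A 2 4 + β * a44 = a34 := by
    rw [hα, hβ, div_mul_eq_mul_div, div_mul_eq_mul_div, ← add_div, div_eq_iff d1]; ring
  have e00 : l * w0 = a00 := by rw [hw0]; field_simp
  have e01 : l * w1 = a01 := by rw [hw1]; field_simp
  have e02 : l * a22 = a02 := by rw [hl]; field_simp
  let P : Matrix (Fin 5) (Fin 2) ℝ := !![l, 0; γ, δ; 1, 0; α, β; 0, 1]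
  let Q : Matrix (Fin 2) (Fin 5) ℝ := !![w0, w1, a22, A 2 3, A 2 4; A 4 0, A 4 1, z2, z3, a44]
  refine ⟨P * Q, (Matrix.rank_mul_le_left P Q).trans (Matrix.rank_le_width P), ?_⟩
  have hE : EE = {(0,0),(0,1),(0,2),(1,1),(1,2),(1,3),(2,2),(2,3),(2,4),(3,3),(3,4),(3,0),
      (4,4),(4,0),(4,1)} := by decide
  rw [hE]
  simp only [Finset.mem_insert, Finset.mem_singleton, forall_eq_or_imp, forall_eq]
  simp only [P, Q, Matrix.mul_apply, Fin.sum_univ_two]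
  simp [e00, e01, e02, e11, e12, e13, e30, e33, e34, h00, h01, h02, h13, h22, h33, h34, h44, hε]

/-- The negation of the preceding statement: For every bipartite graph with nonempty 3-core, there is a nonempty open set of real partial matrices on its edges that cannot be completed to rank at most 2, i.e. its maximal typical rank is at least 3. -/
theorem result :
    ¬ (∀ (m n : ℕ) (E : Finset (Fin m × Fin n)),
      (∃ (R : Finset (Fin m)) (C : Finset (Fin n)),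
          (R.Nonempty ∨ C.Nonempty) ∧
          (∀ i ∈ R, 3 ≤ (C.filter (fun j => (i, j) ∈ E)).card) ∧
          (∀ j ∈ C, 3 ≤ (R.filter (fun i => (i, j) ∈ E)).card)) →
      ∃ U : Set (Matrix (Fin m) (Fin n) ℝ),
        IsOpen U ∧ U.Nonempty ∧
        ∀ A ∈ U, ∀ B : Matrix (Fin m) (Fin n) ℝ,
          (∀ p ∈ E, B p.1 p.2 = A p.1 p.2) → 3 ≤ B.rank) := by
  classical
  intro H
  obtain ⟨U, hU, ⟨A, hA⟩, h⟩ := H 5 5 EE ⟨Finset.univ, Finset.univ, Or.inl Finset.univ_nonempty,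
    by decide, by decide⟩
  have hU' : IsOpen (X := Fin 5 → Fin 5 → ℝ) U := hU
  obtain ⟨ε, hε, hb⟩ := Metric.isOpen_iff.1 hU' A hA
  obtain ⟨B, hB, hBA⟩ := dense A ε hε
  have h3 := h (fun i j => if (i, j) ∈ EE then B i j else A i j) (hb (by
    rw [Metric.mem_ball, dist_pi_lt_iff hε]
    intro i
    rw [dist_pi_lt_iff hε]
    intro j
    split_ifs with hij
    · exact hBA (i, j) hij
    · simpa using hε)) B (fun p hp => by simp [hp])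
  omega

end Pool.Agent.S00406
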