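import Pool.Statements.S00426
-- import your own Pool.Agent.* helpers here

set_option autoImplicit false
open Pool Pool.MP_c213cb_ag

namespace Pool.Agent.S00426

open Finset

section gen

variable {F : Type} [Field F]

def mg (T : (Fin 20 → Fin 2) → F) (S : Finset (Fin 20)) (x : Fin 20 → Fin 2) : F :=
  ∑ z ∈ (Finset.univ : Finset (Fin 20 → Fin 2)).filter (fun z => ∀ k ∈ S, z k = x k), T z

def CI (T : (Fin 20 → Fin 2) → F) (i j : Fin 20) (K : Finset (Fin 20)) : Prop :=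
  ∀ x y : Fin 20 → Fin 2, (∀ k ∈ K, x k = y k) →
    mg T (insert i (insert j K)) x * mg T (insert i (insert j K)) y =
      mg T (insert i (insert j K)) (Function.update x j (y j)) *
        mg T (insert i (insert j K)) (Function.update y j (x j))

def N4 (T : (Fin 20 → Fin 2) → F) (i j : Fin 20) (c d a b : Fin 2) : F :=
  ∑ z, if z i = a ∧ z j = b ∧ z 0 = c ∧ z 1 = d then T z else 0

def N3 (T : (Fin 20 → Fin 2) → F) (i : Fin 20) (c d a : Fin 2) : F :=
  ∑ z, if z i = a ∧ z 0 = c ∧ z 1 = d then T z else 0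

def N2 (T : (Fin 20 → Fin 2) → F) (i j : Fin 20) (a b : Fin 2) : F :=
  ∑ z, if z i = a ∧ z j = b then T z else 0

def ZZ (T : (Fin 20 → Fin 2) → F) (c d : Fin 2) : F :=
  ∑ z, if z 0 = c ∧ z 1 = d then T z else 0

lemma mg4 (T : (Fin 20 → Fin 2) → F) (i j : Fin 20) (x : Fin 20 → Fin 2) :
    mg T (insert i (insert j {0, 1})) x = N4 T i j (x 0) (x 1) (x i) (x j) := by
  rw [mg, N4, sum_filter]
  simp only [mem_insert, mem_singleton, forall_eq_or_imp, forall_eq]

lemma mg2 (T : (Fin 20 → Fin 2) → F) (i j : Fin 20) (x : Fin 20 → Fin 2) :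
    mg T (insert i (insert j ∅)) x = N2 T i j (x i) (x j) := by
  rw [mg, N2, sum_filter]
  simp only [insert_empty_eq, mem_insert, mem_singleton, forall_eq_or_imp, forall_eq]

lemma f2 (a : Fin 2) : a = 0 ∨ a = 1 := by revert a; decide

lemma N2_eq (T : (Fin 20 → Fin 2) → F) (i j : Fin 20) (a b : Fin 2) :
    N2 T i j a b = N4 T i j 0 0 a b + N4 T i j 0 1 a b + N4 T i j 1 0 a b + N4 T i j 1 1 a b := by
  simp only [N2, N4, ← sum_add_distrib]
  refine sum_congr rfl fun z _ => ?_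
  rcases f2 (z 0) with h | h <;> rcases f2 (z 1) with h' | h' <;> simp [h, h']

lemma N3_eq (T : (Fin 20 → Fin 2) → F) (i j : Fin 20) (c d a : Fin 2) :
    N3 T i c d a = N4 T i j c d a 0 + N4 T i j c d a 1 := by
  simp only [N3, N4, ← sum_add_distrib]
  refine sum_congr rfl fun z _ => ?_
  rcases f2 (z j) with h | h <;> simp [h]

lemma N3_eq' (T : (Fin 20 → Fin 2) → F) (i j : Fin 20) (c d b : Fin 2) :
    N3 T j c d b = N4 T i j c d 0 b + N4 T i j c d 1 b := by
  simp only [N3, N4, ← sum_add_distrib]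
  refine sum_congr rfl fun z _ => ?_
  rcases f2 (z i) with h | h <;> simp [h]

lemma ZZ_eq (T : (Fin 20 → Fin 2) → F) (i : Fin 20) (c d : Fin 2) :
    ZZ T c d = N3 T i c d 0 + N3 T i c d 1 := by
  simp only [N3, ZZ, ← sum_add_distrib]
  refine sum_congr rfl fun z _ => ?_
  rcases f2 (z i) with h | h <;> simp [h]

lemma CI0 (T : (Fin 20 → Fin 2) → F) (i j : Fin 20) (hij : i ≠ j) :
    CI T i j ∅ ↔ N2 T i j 0 0 * N2 T i j 1 1 = N2 T i j 0 1 * N2 T i j 1 0 := by
  simp only [CI, mg2, Function.update_self, Function.update_of_ne hij]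
  constructor
  · intro h; exact h (fun _ => 0) (fun _ => 1) (by simp)
  · intro h x y _
    rcases f2 (x i) with h1 | h1 <;> rcases f2 (x j) with h2 | h2 <;>
      rcases f2 (y i) with h3 | h3 <;> rcases f2 (y j) with h4 | h4 <;>
      simp only [h1, h2, h3, h4] <;> first | rfl | exact mul_comm _ _ | linear_combination h | linear_combination -h

lemma CI1 (T : (Fin 20 → Fin 2) → F) (i j : Fin 20) (hij : i ≠ j) (hi : 2 ≤ i.1) (hj : 2 ≤ j.1) :
    CI T i j {0, 1} ↔ ∀ c d a b a' b', N4 T i j c d a b * N4 T i j c d a' b' =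
      N4 T i j c d a b' * N4 T i j c d a' b := by
  have h0 : (0 : Fin 20) ≠ j := by rintro rfl; simp at hj
  have h1 : (1 : Fin 20) ≠ j := by rintro rfl; simp at hj
  have h2 : i ≠ 0 := by rintro rfl; simp at hi
  have h3 : i ≠ 1 := by rintro rfl; simp at hi
  simp only [CI, mg4, Function.update_self, Function.update_of_ne hij, Function.update_of_ne h0,
    Function.update_of_ne h1]
  constructor
  · intro h c d a b a' b'
    have := h (fun k => if k = 0 then c else if k = 1 then d else if k = i then a else b)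
      (fun k => if k = 0 then c else if k = 1 then d else if k = i then a' else b') (by simp)
    simpa [h0.symm, h1.symm, h2, h3, hij.symm] using this
  · intro h x y hxy
    rw [← hxy 0 (by simp), ← hxy 1 (by simp)]
    exact h _ _ _ _ _ _

end gen

def mu (T : (Fin 20 → Fin 2) → ℚ) (i : Fin 20) : ℚ :=
  (N3 T i 0 0 0 + N3 T i 0 1 0 + N3 T i 1 0 0 + N3 T i 1 1 0) /
    (ZZ T 0 0 + ZZ T 0 1 + ZZ T 1 0 + ZZ T 1 1)

def pa (T : (Fin 20 → Fin 2) → ℚ) (i : Fin 20) (c d : Fin 2) : ℚ := N3 T i c d 0 - mu T i * ZZ T c d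

def pb (T : (Fin 20 → Fin 2) → ℚ) (j : Fin 20) (c d : Fin 2) : ℚ :=
  N3 T j c d 0 / ZZ T c d - N3 T j 1 1 0 / ZZ T 1 1

def cc (T : (Fin 20 → Fin 2) → ℚ) (i j : Fin 20) : ℚ :=
  pa T i 0 0 * pb T j 0 0 + pa T i 0 1 * pb T j 0 1 + pa T i 1 0 * pb T j 1 0

lemma ZZ_pos (T : (Fin 20 → Fin 2) → ℚ) (hT : ∀ x, 0 < T x) (c d : Fin 2) : 0 < ZZ T c d := by
  refine sum_pos' (fun z _ => ?_) ⟨fun k => if k = 0 then c else d, mem_univ _, by simp [hT]⟩
  split_ifs
  · exact (hT z).le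
  · exact le_rfl

lemma cc_iff (T : (Fin 20 → Fin 2) → ℚ) (hT : ∀ x, 0 < T x) (i j : Fin 20) (hij : i ≠ j)
    (hi : 2 ≤ i.1) (hj : 2 ≤ j.1) (h : CI T i j {0, 1}) : CI T i j ∅ ↔ cc T i j = 0 := by
  rw [CI1 T i j hij hi hj] at h
  have hz := ZZ_pos T hT
  have key : ∀ c d, N4 T i j c d 0 0 = N3 T i c d 0 * (N3 T j c d 0 / ZZ T c d) := by
    intro c d
    rw [mul_div_assoc', eq_div_iff (hz c d).ne', ZZ_eq T i, N3_eq' T i j, N3_eq T i j, N3_eq T i j]
    linear_combination h c d 0 0 1 1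
  have h00 := hz 0 0
  have h01 := hz 0 1
  have h10 := hz 1 0
  have h11 := hz 1 1
  set W := ZZ T 0 0 + ZZ T 0 1 + ZZ T 1 0 + ZZ T 1 1 with hW
  have hW0 : 0 < W := add_pos (add_pos (add_pos h00 h01) h10) h11
  have e1 : cc T i j * W = N2 T i j 0 0 * N2 T i j 1 1 - N2 T i j 0 1 * N2 T i j 1 0 := by
    have e2 : N2 T i j 0 0 * N2 T i j 1 1 - N2 T i j 0 1 * N2 T i j 1 0 = N2 T i j 0 0 * W -
        (N3 T i 0 0 0 + N3 T i 0 1 0 + N3 T i 1 0 0 + N3 T i 1 1 0) *
        (N3 T j 0 0 0 + N3 T j 0 1 0 + N3 T j 1 0 0 + N3 T j 1 1 0) := by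
      rw [hW]
      simp only [ZZ_eq T i, N3_eq' T i j, N2_eq]
      simp only [N3_eq T i j]
      ring
    rw [e2, N2_eq]
    simp only [key, cc, pa, pb, mu, ← hW]
    have : ZZ T 1 1 = W - (ZZ T 0 0 + ZZ T 0 1 + ZZ T 1 0) := by rw [hW]; ring
    field_simp
    rw [hW]
    ring
  rw [CI0 T i j hij, ← sub_eq_zero, ← e1]
  simp [hW0.ne']

lemma col (T : (Fin 20 → Fin 2) → ℚ) (L P Q R S : Fin 20) (h1 : cc T P L = 0) (h2 : cc T Q L = 0)
    (h3 : cc T R L = 0) (h4 : cc T S L ≠ 0) :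
    cc T P 11 * (cc T Q 12 * cc T R 13 - cc T Q 13 * cc T R 12)
      - cc T P 12 * (cc T Q 11 * cc T R 13 - cc T Q 13 * cc T R 11)
      + cc T P 13 * (cc T Q 11 * cc T R 12 - cc T Q 12 * cc T R 11) = 0 := by
  unfold cc at *
  generalize pa T P 0 0 = p1, pa T P 0 1 = p2, pa T P 1 0 = p3, pa T Q 0 0 = q1, pa T Q 0 1 = q2,
    pa T Q 1 0 = q3, pa T R 0 0 = r1, pa T R 0 1 = r2, pa T R 1 0 = r3, pa T S 0 0 = s1,
    pa T S 0 1 = s2, pa T S 1 0 = s3, pb T L 0 0 = l1, pb T L 0 1 = l2, pb T L 1 0 = l3 at *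
  have hd : (p1 * (q2 * r3 - q3 * r2) - p2 * (q1 * r3 - q3 * r1) + p3 * (q1 * r2 - q2 * r1)) = 0 := by
    refine (mul_eq_zero.1 ?_).resolve_right h4
    linear_combination (s1 * (q2 * r3 - q3 * r2) - s2 * (q1 * r3 - q3 * r1) + s3 * (q1 * r2 - q2 * r1)) * h1
      - (s1 * (p2 * r3 - p3 * r2) - s2 * (p1 * r3 - p3 * r1) + s3 * (p1 * r2 - p2 * r1)) * h2
      + (s1 * (p2 * q3 - p3 * q2) - s2 * (p1 * q3 - p3 * q1) + s3 * (p1 * q2 - p2 * q1)) * h3
  generalize pb T 11 0 0 = a1, pb T 11 0 1 = a2, pb T 11 1 0 = a3, pb T 12 0 0 = b1,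
    pb T 12 0 1 = b2, pb T 12 1 0 = b3, pb T 13 0 0 = c1, pb T 13 0 1 = c2, pb T 13 1 0 = c3
  linear_combination
    (a1 * (b2 * c3 - b3 * c2) - a2 * (b1 * c3 - b3 * c1) + a3 * (b1 * c2 - b2 * c1)) * hd

def vz : Fin 20 → Fin 3 → ℤ × ℤ :=
  ![![0, 0, 0], ![0, 0, 0], ![(1, 0), 0, 0], ![0, (1, 0), 0], ![0, 0, (1, 0)],
    ![(1, 0), (1, 0), 0], ![(1, 0), (1, 1), 0], ![(-1, 1), 0, (1, 0)], ![0, (1, 0), (1, 0)],
    ![(1, 0), (1, 0), (1, 0)], ![(-1, 1), (0, 1), (1, 0)],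
    ![(1, 0), 0, 0], ![0, (1, 0), 0], ![0, 0, (1, 0)], ![0, (1, 0), (-1, 0)],
    ![(1, 0), 0, (1, -1)], ![(1, 1), (-1, 0), 0], ![(1, 0), (-1, 0), 0],
    ![(1, 0), (-1, 0), (1, 0)], ![(1, 1), (-1, 0), (0, -1)]]

def ml (p q : ℤ × ℤ) : ℤ × ℤ := (p.1 * q.1 + p.2 * q.2, p.1 * q.2 + p.2 * q.1 + p.2 * q.2)

def dz (i j : Fin 20) : ℤ × ℤ := ml (vz i 0) (vz j 0) + ml (vz i 1) (vz j 1) + ml (vz i 2) (vz j 2)

lemma norat (T : (Fin 20 → Fin 2) → ℚ)
    (h : ∀ i j : Fin 20, 2 ≤ i.1 → i.1 ≤ 10 → 11 ≤ j.1 → (cc T i j = 0 ↔ dz i j = 0)) : False := by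
  have z : ∀ i j : Fin 20, (2 ≤ i.1 ∧ i.1 ≤ 10 ∧ 11 ≤ j.1 ∧ dz i j = 0) → cc T i j = 0 :=
    fun i j ⟨a, b, c, d⟩ => (h i j a b c).2 d
  have n : ∀ i j : Fin 20, (2 ≤ i.1 ∧ i.1 ≤ 10 ∧ 11 ≤ j.1 ∧ dz i j ≠ 0) → cc T i j ≠ 0 :=
    fun i j ⟨a, b, c, d⟩ e => d ((h i j a b c).1 e)
  have e1 := col T 14 2 9 8 3 (z _ _ (by decide)) (z _ _ (by decide)) (z _ _ (by decide))
    (n _ _ (by decide))
  have e2 := col T 15 3 10 7 2 (z _ _ (by decide)) (z _ _ (by decide)) (z _ _ (by decide))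
    (n _ _ (by decide))
  have e3 := col T 16 4 10 6 2 (z _ _ (by decide)) (z _ _ (by decide)) (z _ _ (by decide))
    (n _ _ (by decide))
  have e4 := col T 17 4 9 5 2 (z _ _ (by decide)) (z _ _ (by decide)) (z _ _ (by decide))
    (n _ _ (by decide))
  have e5 := col T 18 10 5 8 2 (z _ _ (by decide)) (z _ _ (by decide)) (z _ _ (by decide))
    (n _ _ (by decide))
  have e6 := col T 19 9 6 7 2 (z _ _ (by decide)) (z _ _ (by decide)) (z _ _ (by decide))
    (n _ _ (by decide))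
  simp only [z 2 12 (by decide), z 2 13 (by decide), z 3 11 (by decide), z 3 13 (by decide),
    z 4 11 (by decide), z 4 12 (by decide), z 5 13 (by decide), z 6 13 (by decide),
    z 7 12 (by decide), z 8 11 (by decide)] at e1 e2 e3 e4 e5 e6
  have nA := n 2 11 (by decide)
  have nB := n 3 12 (by decide)
  have nI := n 4 13 (by decide)
  have n1 := n 5 11 (by decide)
  have n2 := n 5 12 (by decide)
  have n3 := n 6 11 (by decide)
  have n4 := n 6 12 (by decide)
  have n5 := n 7 11 (by decide)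
  have n6 := n 7 13 (by decide)
  have n7 := n 8 12 (by decide)
  have n8 := n 8 13 (by decide)
  have n9 := n 9 11 (by decide)
  have n10 := n 10 13 (by decide)
  generalize cc T 2 11 = xA, cc T 3 12 = yB, cc T 4 13 = zI, cc T 5 11 = xE, cc T 5 12 = yE,
    cc T 6 11 = xF, cc T 6 12 = yF, cc T 7 11 = xH, cc T 7 13 = zH, cc T 8 12 = yG,
    cc T 8 13 = zG, cc T 9 11 = xD, cc T 9 12 = yD, cc T 9 13 = zD, cc T 10 11 = xC,
    cc T 10 12 = yC, cc T 10 13 = zC at e1 e2 e3 e4 e5 e6 nA nB nI n1 n2 n3 n4 n5 n6 n7 n8 n9 n10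
  clear h z n
  have a1 : yD * zG = zD * yG := mul_left_cancel₀ nA (by linear_combination e1)
  have a2 : xC * zH = zC * xH := mul_left_cancel₀ nB (by linear_combination -e2)
  have a3 : xC * yF = yC * xF := mul_left_cancel₀ nI (by linear_combination e3)
  have a4 : xD * yE = yD * xE := mul_left_cancel₀ nI (by linear_combination e4)
  have b1 : xH * zG * (yF * xE - yE * xF) = yG * zH * (xE * xF) := mul_left_cancel₀ n10 (by
    linear_combination (-(zH * xF)) * e5 + (yE * zG * xF - yF * xE * zG) * a2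
      + (xE * zG * zH) * a3)
  have b2 : yG * zH * (yF * xE - yE * xF) = xH * zG * (yE * yF) := mul_left_cancel₀ n9 (by
    linear_combination (xE * yG) * e6 - (yF * xH * xE) * a1
      - (xF * zH * yG + yF * xH * zG) * a4)
  have b3 : (yF * xE - yE * xF) ^ 2 = (yF * xE) * (yE * xF) :=
    mul_left_cancel₀ (mul_ne_zero n5 n8) (by
      linear_combination (yF * xE - yE * xF) * b1 + (xE * xF) * b2)
  have b4 : IsSquare ((5 : ℕ) : ℚ) := ⟨(2 * (yF * xE) - 3 * (yE * xF)) / (yE * xF), by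
    field_simp
    push_cast
    linear_combination (-4) * b3⟩
  rw [Rat.isSquare_natCast_iff] at b4
  obtain ⟨r, hr⟩ := b4
  have : r ≤ 3 := by nlinarith
  interval_cases r <;> omega

noncomputable def rr (p : ℤ × ℤ) : ℝ := p.1 + p.2 * Real.goldenRatio

lemma rr_ml (p q : ℤ × ℤ) : rr (ml p q) = rr p * rr q := by
  simp only [rr, ml]; push_cast
  linear_combination (-(p.2 : ℝ) * q.2) * Real.goldenRatio_sq

lemma rr_add (p q : ℤ × ℤ) : rr (p + q) = rr p + rr q := by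
  simp only [rr, Prod.fst_add, Prod.snd_add]; push_cast; ring

lemma rr_zero (p : ℤ × ℤ) : rr p = 0 ↔ p = 0 := by
  refine ⟨fun h => ?_, fun h => by simp [h, rr]⟩
  by_cases h2 : p.2 = 0
  · have : (p.1 : ℝ) = 0 := by simpa [rr, h2] using h
    exact Prod.ext (by exact_mod_cast this) h2
  · exfalso
    have := (Real.goldenRatio_irrational.intCast_mul h2).intCast_add p.1
    exact this ⟨0, by simpa [rr] using h.symm⟩

lemma rr_bd (i : Fin 20) (k : Fin 3) : |rr (vz i k)| ≤ 3 := by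
  have h : ∀ i k, |(vz i k).1| ≤ 1 ∧ |(vz i k).2| ≤ 1 := by decide
  obtain ⟨h1, h2⟩ := h i k
  have h1' : |((vz i k).1 : ℝ)| ≤ 1 := by exact_mod_cast h1
  have h2' : |((vz i k).2 : ℝ)| ≤ 1 := by exact_mod_cast h2
  have h3 := Real.goldenRatio_pos
  have h4 := Real.goldenRatio_lt_two
  refine (abs_add_le _ _).trans ?_
  rw [abs_mul, abs_of_pos h3]
  nlinarith [abs_nonneg ((vz i k).2 : ℝ)]

def sg (a : Fin 2) : ℝ := if a = 0 then 1 else -1

noncomputable def ff (i : Fin 20) (c d : Fin 2) : ℝ :=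
  (rr (vz i 0) * sg c + rr (vz i 1) * sg d + rr (vz i 2) * (sg c * sg d)) / 10

noncomputable def ww (i : Fin 20) (c d a : Fin 2) : ℝ := 1 + sg a * ff i c d

lemma ww_pos (i : Fin 20) (c d a : Fin 2) : 0 < ww i c d a := by
  have h0 := abs_le.1 (rr_bd i 0)
  have h1 := abs_le.1 (rr_bd i 1)
  have h2 := abs_le.1 (rr_bd i 2)
  rcases f2 a with rfl | rfl <;> rcases f2 c with rfl | rfl <;> rcases f2 d with rfl | rfl <;>
    simp [ww, ff, sg] <;> linarith [h0.1, h0.2, h1.1, h1.2, h2.1, h2.2]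

noncomputable def PP (z : Fin 20 → Fin 2) : ℝ := ∏ k, ww k (z 0) (z 1) (z k)

lemma mgP (S : Finset (Fin 20)) (h0 : 0 ∈ S) (h1 : 1 ∈ S) (x : Fin 20 → Fin 2) :
    mg PP S x = ∏ k, if k ∈ S then ww k (x 0) (x 1) (x k) else 2 := by
  have e : (Finset.univ : Finset (Fin 20 → Fin 2)).filter (fun z => ∀ k ∈ S, z k = x k) =
      Fintype.piFinset fun k => if k ∈ S then {x k} else univ := by
    ext z
    simp only [mem_filter, mem_univ, true_and, Fintype.mem_piFinset]
    refine forall_congr' fun k => ?_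
    by_cases hk : k ∈ S <;> simp [hk]
  have e2 : mg PP S x = ∑ z ∈ Fintype.piFinset fun k => if k ∈ S then {x k} else univ,
      ∏ k, ww k (x 0) (x 1) (z k) := by
    rw [mg, ← e]
    refine sum_congr rfl fun z hz => ?_
    have := (mem_filter.1 hz).2
    rw [PP, this 0 h0, this 1 h1]
  rw [e2, ← prod_univ_sum]
  refine prod_congr rfl fun k _ => ?_
  by_cases hk : k ∈ S
  · simp [hk]
  · simp [hk, ww, sg]; ring

lemma N4P (i j : Fin 20) (hij : i ≠ j) (hi : 2 ≤ i.1) (hj : 2 ≤ j.1) : ∃ κ : ℝ, 0 < κ ∧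
    ∀ c d a b, N4 PP i j c d a b = κ * ww i c d a * ww j c d b := by
  have h0 : j ≠ 0 := by rintro rfl; simp at hj
  have h1 : j ≠ 1 := by rintro rfl; simp at hj
  have h2 : i ≠ 0 := by rintro rfl; simp at hi
  have h3 : i ≠ 1 := by rintro rfl; simp at hi
  refine ⟨∏ k ∈ (univ.erase i).erase j, if k = 0 ∨ k = 1 then 1 else 2,
    prod_pos fun k _ => by split_ifs <;> norm_num, fun c d a b => ?_⟩
  have e := mg4 PP i j (fun k => if k = 0 then c else if k = 1 then d else if k = i then a else b)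
  rw [mgP _ (by simp) (by simp)] at e
  simp only [h0, h1, h2, h3, hij.symm, if_true, if_false, one_ne_zero] at e
  rw [← e, ← mul_prod_erase univ _ (mem_univ i),
    ← mul_prod_erase (univ.erase i) _ (mem_erase.2 ⟨hij.symm, mem_univ j⟩)]
  simp only [mem_insert, true_or, or_true, if_true, h0, h1, h2, h3, hij.symm, if_false]
  rw [prod_congr rfl (g := fun k => if k = 0 ∨ k = 1 then (1 : ℝ) else 2)]
  · ring
  · intro k hk
    obtain ⟨k1, k2⟩ := mem_erase.1 hk
    have k3 := (mem_erase.1 k2).1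
    by_cases k4 : k = 0
    · subst k4; simp [ww, ff, vz, rr]
    · by_cases k5 : k = 1
      · subst k5; simp [ww, ff, vz, rr]
      · simp [k1, k3, k4, k5]

lemma CIP (i j : Fin 20) (hij : i ≠ j) (hi : 2 ≤ i.1) (hj : 2 ≤ j.1) :
    CI PP i j {0, 1} ∧ (CI PP i j ∅ ↔ dz i j = 0) := by
  obtain ⟨κ, hκ, h⟩ := N4P i j hij hi hj
  constructor
  · rw [CI1 PP i j hij hi hj]
    intro c d a b a' b'
    simp only [h]; ring
  · rw [CI0 PP i j hij, ← rr_zero, ← sub_eq_zero, dz, rr_add, rr_add, rr_ml, rr_ml, rr_ml]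
    have : N2 PP i j 0 0 * N2 PP i j 1 1 - N2 PP i j 0 1 * N2 PP i j 1 0 = (κ ^ 2 * 16 / 25) *
        (rr (vz i 0) * rr (vz j 0) + rr (vz i 1) * rr (vz j 1) + rr (vz i 2) * rr (vz j 2)) := by
      simp only [N2_eq, h, ww, ff, sg, if_true, one_ne_zero, if_false]
      ring
    rw [this]
    simp [hκ.ne']

/-- The negation of the preceding statement: For every positive real table on n discrete variables with at least 2 states each, there is a positive rational table satisfying exactly the same CI statements X_i indep X_j given X_K (vanishing 2x2 minors of the marginal). -/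
theorem result :
    ¬ (∀ (n : ℕ) (d : Fin n → ℕ), (∀ k, 2 ≤ d k) →
  ∀ P : ((k : Fin n) → Fin (d k)) → ℝ, (∀ x, 0 < P x) →
  ∃ Q : ((k : Fin n) → Fin (d k)) → ℚ, (∀ x, 0 < Q x) ∧
    ∀ (i j : Fin n) (K : Finset (Fin n)), i ≠ j → i ∉ K → j ∉ K →
      ((∀ x y : (k : Fin n) → Fin (d k), (∀ k ∈ K, x k = y k) →
          (∑ z ∈ (Finset.univ : Finset ((k : Fin n) → Fin (d k))).filter
              (fun z : ((k : Fin n) → Fin (d k)) => ∀ k ∈ insert i (insert j K), z k = x k), P z) *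
          (∑ z ∈ (Finset.univ : Finset ((k : Fin n) → Fin (d k))).filter
              (fun z : ((k : Fin n) → Fin (d k)) => ∀ k ∈ insert i (insert j K), z k = y k), P z) =
          (∑ z ∈ (Finset.univ : Finset ((k : Fin n) → Fin (d k))).filter
              (fun z : ((k : Fin n) → Fin (d k)) =>
                ∀ k ∈ insert i (insert j K), z k = Function.update x j (y j) k), P z) *
          (∑ z ∈ (Finset.univ : Finset ((k : Fin n) → Fin (d k))).filter
              (fun z : ((k : Fin n) → Fin (d k)) =>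
                ∀ k ∈ insert i (insert j K), z k = Function.update y j (x j) k), P z)) ↔
       (∀ x y : (k : Fin n) → Fin (d k), (∀ k ∈ K, x k = y k) →
          (∑ z ∈ (Finset.univ : Finset ((k : Fin n) → Fin (d k))).filter
              (fun z : ((k : Fin n) → Fin (d k)) => ∀ k ∈ insert i (insert j K), z k = x k), Q z) *
          (∑ z ∈ (Finset.univ : Finset ((k : Fin n) → Fin (d k))).filter
              (fun z : ((k : Fin n) → Fin (d k)) => ∀ k ∈ insert i (insert j K), z k = y k), Q z) =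
          (∑ z ∈ (Finset.univ : Finset ((k : Fin n) → Fin (d k))).filter
              (fun z : ((k : Fin n) → Fin (d k)) =>
                ∀ k ∈ insert i (insert j K), z k = Function.update x j (y j) k), Q z) *
          (∑ z ∈ (Finset.univ : Finset ((k : Fin n) → Fin (d k))).filter
              (fun z : ((k : Fin n) → Fin (d k)) =>
                ∀ k ∈ insert i (insert j K), z k = Function.update y j (x j) k), Q z)))) := by
  intro h
  obtain ⟨Q, hQ, h2⟩ := h 20 (fun _ => 2) (fun _ => le_rfl) PP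
    (fun x => Finset.prod_pos fun k _ => ww_pos _ _ _ _)
  have h3 : ∀ (i j : Fin 20) (K : Finset (Fin 20)), i ≠ j → i ∉ K → j ∉ K →
      (CI PP i j K ↔ CI Q i j K) := h2
  refine norat Q fun i j hi hi' hj => ?_
  have hij : i ≠ j := by rintro rfl; omega
  have hj' : 2 ≤ j.1 := by omega
  obtain ⟨a1, a2⟩ := CIP i j hij hi hj'
  have m : ∀ k : Fin 20, 2 ≤ k.1 → k ∉ ({0, 1} : Finset (Fin 20)) := by decide
  rw [← cc_iff Q hQ i j hij hi hj' ((h3 i j _ hij (m i hi) (m j hj')).1 a1), ← a2,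
    h3 i j ∅ hij (by simp) (by simp)]

end Pool.Agent.S00426
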