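import Pool.Statements.S00530
import Pool.Agent.H20.Trip2

set_option autoImplicit false
open Pool Pool.MP_ebd967_ag

namespace Pool.Agent.S00530

open Filter in
lemma grow (Q : Polynomial ℕ) : ∃ M : ℕ, Q.eval (14 * (M + 1) ^ 2) < 2 ^ M := by
  have h := ((tendsto_pow_const_div_const_pow_of_one_lt (2 * Q.natDegree) (one_lt_two (α := ℝ))).comp
    (tendsto_add_atTop_nat 1)).const_mul (2 * (Q.eval 1 : ℕ) * 14 ^ Q.natDegree : ℝ)
  rw [mul_zero] at h
  obtain ⟨M, hM⟩ := (h.eventually (gt_mem_nhds one_pos)).exists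
  refine ⟨M, lt_of_le_of_lt (b := Q.eval 1 * (14 * (M + 1) ^ 2) ^ Q.natDegree) ?_ ?_⟩
  · rw [Polynomial.eval_eq_sum_range, Polynomial.eval_eq_sum_range, Finset.sum_mul]
    refine Finset.sum_le_sum fun i hi => ?_
    rw [one_pow, mul_one]
    exact Nat.mul_le_mul_left _ (Nat.pow_le_pow_right (by positivity)
      (Nat.lt_succ_iff.1 (Finset.mem_range.1 hi)))
  · simp only [Function.comp, ← mul_div_assoc] at hM
    rw [div_lt_one (by positivity), pow_succ (2 : ℝ), pow_mul] at hM
    rw [← Nat.cast_lt (α := ℝ)]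
    push_cast at hM ⊢
    rw [mul_pow]
    linarith

/-- The negation of the preceding statement: There is a polynomial Q such that, for every finite abelian group G, the toric ideal of the claw-tree group-based model is generated by its elements of degree at most Q(∣G∣). -/
theorem result :
    ¬ (∃ Q : Polynomial ℕ, ∀ (G : Type) [AddCommGroup G] [Fintype G],
      ∀ p : MvPolynomial {g : G × G × G // g.1 + g.2.1 + g.2.2 = 0} ℂ,
        MvPolynomial.aeval
            (fun s : {g : G × G × G // g.1 + g.2.1 + g.2.2 = 0} =>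
              (MvPolynomial.X ((0 : Fin 3), s.1.1) * MvPolynomial.X ((1 : Fin 3), s.1.2.1) *
                MvPolynomial.X ((2 : Fin 3), s.1.2.2) : MvPolynomial (Fin 3 × G) ℂ)) p = 0 →
        p ∈ Ideal.span
          {q : MvPolynomial {g : G × G × G // g.1 + g.2.1 + g.2.2 = 0} ℂ |
            MvPolynomial.aeval
                (fun s : {g : G × G × G // g.1 + g.2.1 + g.2.2 = 0} =>
                  (MvPolynomial.X ((0 : Fin 3), s.1.1) * MvPolynomial.X ((1 : Fin 3), s.1.2.1) *
                    MvPolynomial.X ((2 : Fin 3), s.1.2.2) : MvPolynomial (Fin 3 × G) ℂ)) q = 0 ∧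
              q.totalDegree ≤ Q.eval (Fintype.card G)}) := by
  rintro ⟨Q, h⟩
  obtain ⟨M, hM⟩ := grow Q
  obtain ⟨ev, h3, f, -, h4, h5, -⟩ := H20.Trip.main (M := M + 1)
    (fun s : {g : H20.Trip.G (M + 1) × H20.Trip.G (M + 1) × H20.Trip.G (M + 1) //
      g.1 + g.2.1 + g.2.2 = 0} => ![s.1.1, s.1.2.1, s.1.2.2]) (fun t => t.2) (fun t t' h0 h1 => by
      have h2 := t.2.trans t'.2.symm
      simp only [Matrix.cons_val] at h0 h1
      rw [h0, h1, add_right_inj] at h2
      exact Subtype.ext (Prod.ext h0 (Prod.ext h1 h2)))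
    (fun η => ⟨(_, _, _), H20.Trip.h_sum η⟩) fun η => by ext1 i; fin_cases i <;> rfl
  simp only [Fin.prod_univ_three, Matrix.cons_val] at h3 h4
  refine one_ne_zero (h5.symm.trans (RingHom.mem_ker.1 ((Ideal.span_le (I := RingHom.ker ev)).2
    ?_ (h _ f h4))))
  exact fun p hp => h3 p hp.1 (hp.2.trans_lt (by rwa [H20.Trip.card_G]))

end Pool.Agent.S00530
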