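import Pool.Statements.S00548
-- import your own Pool.Agent.* helpers here

set_option autoImplicit false
open Pool Pool.MP_f28cea_ag

namespace Pool.Agent.S00548

open MvPolynomial in
lemma scale {k A ι : Type} [Field k] [CommRing A] [Algebra k A] [Fintype ι] {w : ι → ℕ}
    {p : MvPolynomial ι k} {d : ℕ} (h : IsWeightedHomogeneous w p d) (T : A) (H : ι → A) :
    aeval (fun i => T ^ w i * H i) p = T ^ d * aeval H p := by
  rw [aeval_def, aeval_def, eval₂_eq', eval₂_eq', Finset.mul_sum]
  refine Finset.sum_congr rfl fun s hs => ?_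
  rw [← h (mem_support_iff.1 hs), Finsupp.weight_apply, Finsupp.sum_fintype _ _ (by simp)]
  simp only [mul_pow, Finset.prod_mul_distrib, ← pow_mul, Finset.prod_pow_eq_pow_sum,
    smul_eq_mul, mul_comm (w _)]
  ring

open Polynomial in
lemma key {k ι : Type} [Field k] [Fintype ι] {w : ι → ℕ} (hw : ∀ j, 0 < w j)
    {p : MvPolynomial ι k} {d : ℕ} (h : MvPolynomial.IsWeightedHomogeneous w p d)
    (h0 : ∀ y : ι → k, MvPolynomial.aeval y p = 0 → y = 0) (F : ι → k[X])
    (hF : MvPolynomial.aeval F p = 0) (z : ι) : F z = 0 := by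
  classical
  by_contra hz
  obtain ⟨j, hj, hm⟩ := (Finset.univ.filter fun i => F i ≠ 0).exists_min_image
    (fun i => ((F i).rootMultiplicity 0 : ℚ) / w i) ⟨z, by simpa using hz⟩
  set a := (F j).rootMultiplicity 0 with ha
  have : ∀ i, ∃ H : k[X], expand k (w j) (F i) = (X ^ a) ^ w i * H ∧ (i = j → H.eval 0 ≠ 0) :=
    fun i => by
      by_cases hi : F i = 0
      · exact ⟨0, by simp [hi], fun e => absurd (e ▸ hi) (by simpa using hj)⟩
      obtain ⟨u, hu, hd⟩ := exists_eq_pow_rootMultiplicity_mul_and_not_dvd _ hi 0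
      have := hm i (by simpa using hi)
      rw [div_le_div_iff₀ (by exact_mod_cast hw j) (by exact_mod_cast hw i)] at this
      obtain ⟨c, hc⟩ := Nat.exists_eq_add_of_le (show a * w i ≤ (F i).rootMultiplicity 0 * w j by
        exact_mod_cast this)
      refine ⟨X ^ c * expand k (w j) u, ?_, fun e => ?_⟩
      · conv_lhs => rw [hu]
        simp only [map_zero, sub_zero, map_mul, map_pow, expand_X]
        rw [← pow_mul, mul_comm (w j), hc]; ring
      · subst e
        have : c = 0 := by rw [← ha] at hc; omega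
        rw [dvd_iff_isRoot] at hd
        simpa [this, expand_eval, (hw i).ne'] using hd
  choose H h1 h2 using this
  have e2 : MvPolynomial.aeval (fun i => (X ^ a) ^ w i * H i) p = 0 := by
    rw [← funext h1, ← MvPolynomial.comp_aeval_apply, hF, map_zero]
  rw [scale h, mul_eq_zero] at e2
  rcases e2 with e2 | e2
  · exact pow_ne_zero _ (pow_ne_zero _ X_ne_zero) e2
  have e3 := h0 (fun i => aeval 0 (H i)) (by rw [← MvPolynomial.comp_aeval_apply, e2, map_zero])
  exact h2 j rfl (by simpa using congrFun e3 j)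

/-- The negation of the preceding statement: For all fields k⊆K and ideals I of k[X1..Xn]: f vanishes on the K-zeros of I iff some block-weighted-homogeneous p over k (increasing positive block weights, only zero in K is 0) has p(f,f1,…,fm) in I. -/
theorem result :
    ¬ (∀ (k K : Type) [Field k] [Field K] [Algebra k K] (n : ℕ)
      (I : Ideal (MvPolynomial (Fin n) k)) (f : MvPolynomial (Fin n) k),
      (∃ m : ℕ, ∃ w : Fin (m + 1) → ℕ, Monotone w ∧ (∀ j, 0 < w j) ∧
        ∃ p : MvPolynomial (Fin (m + 1)) k, ∃ d : ℕ,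
          MvPolynomial.IsWeightedHomogeneous w p d ∧
          (∀ y : Fin (m + 1) → K, MvPolynomial.aeval y p = 0 ↔ y = 0) ∧
          ∃ g : Fin m → MvPolynomial (Fin n) k,
            MvPolynomial.aeval
              (Fin.cons f g : Fin (m + 1) → MvPolynomial (Fin n) k) p ∈ I) ↔
      (∀ x : Fin n → K, (∀ q ∈ I, MvPolynomial.aeval x q = 0) →
        MvPolynomial.aeval x f = 0)) := by
  intro h
  obtain ⟨m, w, -, hw, p, d, hp, h0, g, hg⟩ := (h (ZMod 2) (ZMod 2) 1 ⊥
    (MvPolynomial.X 0 ^ 2 - MvPolynomial.X 0)).2 fun x _ => by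
      simp only [map_sub, map_pow, MvPolynomial.aeval_X]
      generalize x 0 = y
      revert y; decide
  set φ := MvPolynomial.aeval (R := ZMod 2) fun _ : Fin 1 => (Polynomial.X : Polynomial (ZMod 2))
  have := key hw hp (fun y => (h0 y).1) _
    (by rw [← MvPolynomial.comp_aeval_apply _ φ, Ideal.mem_bot.1 hg, map_zero]) 0
  have e := congrArg (Polynomial.coeff · 2) this
  simp [φ, Polynomial.coeff_X] at e

end Pool.Agent.S00548
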