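import Pool.Statements.S00576

set_option autoImplicit false
open Pool Pool.MP_008109_al

namespace Pool.Agent.S00576

section core
variable {G : Type} [CommGroup G]

def Special (S : Set G) : Prop :=
  (1 : G) ∉ S ∧ ∀ U V : Finset G, Disjoint U V →
    ∃ z : G, z ∉ U ∧ z ∉ V ∧ (∀ u ∈ U, z * u⁻¹ ∈ S) ∧ (∀ v ∈ V, z * v⁻¹ ∉ S)

def Good (S S' : Set G) (H : Subgroup (G × G)) : Prop :=
  (H : Set (G × G)).Finite ∧ (∀ p ∈ H, p.1 = 1 ↔ p.2 = 1) ∧ ∀ p ∈ H, p.1 ∈ S ↔ p.2 ∈ S'

theorem forth (h2 : ∀ x : G, x * x = 1) (S S' : Set G) (hS' : Special S')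
    (H : Subgroup (G × G)) (hH : Good S S' H) (x : G) :
    ∃ K : Subgroup (G × G), Good S S' K ∧ H ≤ K ∧ ∃ y, (x, y) ∈ K := by
  classical
  by_cases hx : ∃ y, (x, y) ∈ H
  · exact ⟨H, hH, le_rfl, hx⟩
  have hinv : ∀ x : G, x⁻¹ = x := fun x => inv_eq_of_mul_eq_one_right (h2 x)
  obtain ⟨hfin, h1, hS⟩ := hH
  set U : Finset G := (hfin.toFinset.filter (fun p => p.1 * x ∈ S)).image Prod.snd with hU
  set V : Finset G := (hfin.toFinset.filter (fun p => p.1 * x ∉ S)).image Prod.snd with hV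
  have hinj : ∀ p ∈ H, ∀ q ∈ H, p.2 = q.2 → p.1 = q.1 := by
    intro p hp q hq h
    have := (h1 (p * q⁻¹) (H.mul_mem hp (H.inv_mem hq))).2 (by simp [h])
    simpa [mul_inv_eq_one] using this
  have hdisj : Disjoint U V := by
    rw [Finset.disjoint_left]
    intro a haU haV
    simp only [hU, hV, Finset.mem_image, Finset.mem_filter, Set.Finite.mem_toFinset,
      SetLike.mem_coe] at haU haV
    obtain ⟨p, ⟨hp, hp'⟩, rfl⟩ := haU
    obtain ⟨q, ⟨hq, hq'⟩, h⟩ := haV
    rw [hinj q hq p hp h] at hq'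
    exact hq' hp'
  obtain ⟨y, hyU, hyV, hU', hV'⟩ := hS'.2 U V hdisj
  have hxy : ((x, y) : G × G) * (x, y) = 1 := by ext <;> simp [h2]
  let K : Subgroup (G × G) :=
    { carrier := {p | p ∈ H ∨ p * (x, y) ∈ H}
      one_mem' := Or.inl H.one_mem
      mul_mem' := by
        rintro a b (ha | ha) (hb | hb)
        · exact Or.inl (H.mul_mem ha hb)
        · right; rw [mul_assoc]; exact H.mul_mem ha hb
        · right; rw [mul_right_comm]; exact H.mul_mem ha hb
        · left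
          have := H.mul_mem ha hb
          rwa [mul_mul_mul_comm, hxy, mul_one] at this
      inv_mem' := by
        intro a ha
        have : a⁻¹ = a := by ext <;> simp [hinv]
        rwa [this] }
  have hmem : ∀ p, p ∈ K ↔ p ∈ H ∨ p * (x, y) ∈ H := fun p => Iff.rfl
  have hUV : ∀ p ∈ H, p.2 ∈ U ∨ p.2 ∈ V := by
    intro p hp
    by_cases h : p.1 * x ∈ S
    · left
      simp only [hU, Finset.mem_image, Finset.mem_filter, Set.Finite.mem_toFinset, SetLike.mem_coe]
      exact ⟨p, ⟨hp, h⟩, rfl⟩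
    · right
      simp only [hV, Finset.mem_image, Finset.mem_filter, Set.Finite.mem_toFinset, SetLike.mem_coe]
      exact ⟨p, ⟨hp, h⟩, rfl⟩
  refine ⟨K, ⟨?_, ?_, ?_⟩, fun p hp => Or.inl hp, y, Or.inr (by rw [hxy]; exact H.one_mem)⟩
  · refine (hfin.union (hfin.image (fun p => p * (x, y)))).subset ?_
    rintro p (hp | hp)
    · exact Or.inl hp
    · exact Or.inr ⟨_, hp, by simp only [mul_assoc, hxy, mul_one]⟩
  · rintro p (hp | hp)
    · exact h1 p hp
    · constructor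
      · intro h
        exfalso
        apply hx
        refine ⟨p.2 * y, ?_⟩
        have : p * (x, y) = (x, p.2 * y) := by ext <;> simp [h]
        rwa [this] at hp
      · intro h
        exfalso
        have := hUV _ hp
        simp only [Prod.snd_mul, h, one_mul] at this
        tauto
  · rintro p (hp | hp)
    · exact hS p hp
    · have e1 : (p * (x, y)).1 * x = p.1 := by simp [mul_assoc, h2]
      have e2 : y * (p * (x, y)).2⁻¹ = p.2 := by
        simp only [Prod.snd_mul, hinv]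
        rw [mul_comm, mul_assoc, h2, mul_one]
      constructor
      · intro h
        rw [← e2]
        apply hU'
        simp only [hU, Finset.mem_image, Finset.mem_filter, Set.Finite.mem_toFinset,
          SetLike.mem_coe]
        exact ⟨_, ⟨hp, by rwa [e1]⟩, rfl⟩
      · intro h
        by_contra h'
        rw [← e2] at h
        refine hV' _ ?_ h
        simp only [hV, Finset.mem_image, Finset.mem_filter, Set.Finite.mem_toFinset,
          SetLike.mem_coe]
        exact ⟨_, ⟨hp, by rwa [e1]⟩, rfl⟩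

theorem Good.swap {S S' : Set G} {H : Subgroup (G × G)} (hH : Good S S' H) :
    Good S' S (H.comap (MulEquiv.prodComm : G × G ≃* G × G).toMonoidHom) := by
  obtain ⟨hfin, h1, hS⟩ := hH
  refine ⟨?_, ?_, ?_⟩
  · rw [Subgroup.coe_comap]
    exact hfin.preimage (MulEquiv.prodComm : G × G ≃* G × G).injective.injOn
  · intro p hp
    exact (h1 _ hp).symm
  · intro p hp
    exact (hS _ hp).symm

theorem step (h2 : ∀ x : G, x * x = 1) (S S' : Set G) (hS : Special S) (hS' : Special S')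
    (H : Subgroup (G × G)) (hH : Good S S' H) (x : G) :
    ∃ K : Subgroup (G × G), Good S S' K ∧ H ≤ K ∧ (∃ y, (x, y) ∈ K) ∧ ∃ y, (y, x) ∈ K := by
  obtain ⟨K, hK, hHK, y, hy⟩ := forth h2 S S' hS' H hH x
  obtain ⟨L, hL, hKL, w, hw⟩ := forth h2 S' S hS _ hK.swap x
  refine ⟨_, hL.swap, ?_, ⟨y, ?_⟩, ⟨w, hw⟩⟩
  · intro p hp
    exact hKL (show p.swap ∈ _ from hHK hp)
  · exact hKL (show ((y, x) : G × G) ∈ _ from hy)

theorem one_orbit [Countable G] (h2 : ∀ x : G, x * x = 1) (S S' : Set G) (hS : Special S)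
    (hS' : Special S') : ∃ σ : MulAut G, (fun x => σ x) '' S = S' := by
  obtain ⟨e, he⟩ := exists_surjective_nat G
  have hbot : Good S S' ⊥ := by
    refine ⟨by simp, ?_, ?_⟩
    · intro p hp
      rw [Subgroup.mem_bot] at hp
      simp [hp]
    · intro p hp
      rw [Subgroup.mem_bot] at hp
      simp [hp, hS.1, hS'.1]
  choose nxt hgood hle hf hb using step h2 S S' hS hS'
  let seq : ℕ → {H : Subgroup (G × G) // Good S S' H} := fun n =>
    Nat.rec ⟨⊥, hbot⟩ (fun n H => ⟨nxt H.1 H.2 (e n), hgood _ _ _⟩) n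
  have hmono : Monotone (fun n => (seq n).1) := monotone_nat_of_le_succ (fun n => hle _ _ _)
  set K : Subgroup (G × G) := ⨆ n, (seq n).1 with hK
  have hmem : ∀ p, p ∈ K ↔ ∃ n, p ∈ (seq n).1 := fun p =>
    Subgroup.mem_iSup_of_directed hmono.directed_le
  have k1 : ∀ p ∈ K, p.1 = 1 ↔ p.2 = 1 := by
    intro p hp
    obtain ⟨n, hn⟩ := (hmem p).1 hp
    exact (seq n).2.2.1 p hn
  have kS : ∀ p ∈ K, p.1 ∈ S ↔ p.2 ∈ S' := by
    intro p hp
    obtain ⟨n, hn⟩ := (hmem p).1 hp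
    exact (seq n).2.2.2 p hn
  have b1 : Function.Bijective (Prod.fst ∘ K.subtype) := by
    constructor
    · rintro ⟨p, hp⟩ ⟨q, hq⟩ h
      have h' : p.1 = q.1 := h
      have := (k1 (p * q⁻¹) (K.mul_mem hp (K.inv_mem hq))).1 (by simp [h'])
      apply Subtype.ext
      ext
      · exact h'
      · simpa [mul_inv_eq_one] using this
    · intro x
      obtain ⟨n, rfl⟩ := he x
      obtain ⟨y, hy⟩ := hf (seq n).1 (seq n).2 (e n)
      exact ⟨⟨(e n, y), (hmem _).2 ⟨n + 1, hy⟩⟩, rfl⟩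
  have b2 : Function.Bijective (Prod.snd ∘ K.subtype) := by
    constructor
    · rintro ⟨p, hp⟩ ⟨q, hq⟩ h
      have h' : p.2 = q.2 := h
      have := (k1 (p * q⁻¹) (K.mul_mem hp (K.inv_mem hq))).2 (by simp [h'])
      apply Subtype.ext
      ext
      · simpa [mul_inv_eq_one] using this
      · exact h'
    · intro x
      obtain ⟨n, rfl⟩ := he x
      obtain ⟨y, hy⟩ := hb (seq n).1 (seq n).2 (e n)
      exact ⟨⟨(y, e n), (hmem _).2 ⟨n + 1, hy⟩⟩, rfl⟩
  obtain ⟨σ, hσ⟩ := Subgroup.exists_mulEquiv_eq_graph b1 b2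
  have hx : ∀ x, x ∈ S ↔ σ x ∈ S' := by
    intro x
    apply kS (x, σ x)
    rw [hσ]
    exact MonoidHom.mem_graph.2 rfl
  refine ⟨σ, ?_⟩
  ext y
  constructor
  · rintro ⟨x, hx', rfl⟩
    exact (hx x).1 hx'
  · intro hy
    refine ⟨σ.symm y, (hx _).2 (by simpa using hy), by simp⟩

end core

abbrev X : Type := Multiplicative (ℕ →₀ ZMod 2)

instance : Countable X := inferInstanceAs (Countable (ℕ →₀ ZMod 2))

theorem X_sq (x : X) : x * x = 1 := by
  apply Multiplicative.toAdd.injective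
  ext i
  simp only [toAdd_mul, Finsupp.coe_add, Pi.add_apply, toAdd_one, Finsupp.coe_zero, Pi.zero_apply]
  generalize (Multiplicative.toAdd x) i = a
  revert a
  decide

theorem card_aut : Cardinal.mk (MulAut X) = Cardinal.continuum := by
  apply le_antisymm
  · have h1 : Cardinal.mk (MulAut X) ≤ Cardinal.mk (X → X) :=
      Cardinal.mk_le_of_injective (f := fun σ : MulAut X => (σ : X → X)) DFunLike.coe_injective
    refine h1.trans ?_
    rw [← Cardinal.power_def, Cardinal.mk_eq_aleph0 X, Cardinal.aleph0_power_aleph0]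
  · have h1 : Cardinal.mk (Equiv.Perm ℕ) = Cardinal.continuum := by
      rw [Cardinal.mk_perm_eq_two_power]
      simp
    rw [← h1]
    refine Cardinal.mk_le_of_injective
      (f := fun e : Equiv.Perm ℕ =>
        (AddEquiv.toMultiplicative (Finsupp.domCongr e : (ℕ →₀ ZMod 2) ≃+ (ℕ →₀ ZMod 2)) :
          MulAut X)) ?_
    intro e e' h
    have h' := AddEquiv.toMultiplicative.injective h
    ext i
    have := DFunLike.congr_fun h' (Finsupp.single i 1)
    simp only [Finsupp.domCongr_apply, Finsupp.equivMapDomain_single] at this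
    exact Finsupp.single_left_injective (one_ne_zero) this

theorem result :
    ¬ (∀ (X : Type) [Group X] [Countable X],
      (∀ (F : Finset (X × X)), (∀ p ∈ F, p.1 ≠ p.2) → ∀ (E : Finset X),
        ∃ z : X, z ∉ E ∧ ∀ p ∈ F, p.1 * z⁻¹ ≠ z * p.2⁻¹) →
      Cardinal.mk (MulAut X) = Cardinal.continuum →
      ∃ f : ℝ → Set X,
        (∀ r : ℝ, (∀ s ∈ f r, s⁻¹ ∈ f r) ∧ (1 : X) ∉ f r ∧
          ∀ U V : Finset X, Disjoint U V →
            ∃ z : X, z ∉ U ∧ z ∉ V ∧ (∀ u ∈ U, z * u⁻¹ ∈ f r) ∧ (∀ v ∈ V, z * v⁻¹ ∉ f r)) ∧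
        ∀ r s : ℝ, r ≠ s → ∀ σ : MulAut X, (fun x => σ x) '' f r ≠ f s) := by
  intro h
  have hinv : ∀ x : X, x⁻¹ = x := fun x => inv_eq_of_mul_eq_one_right (X_sq x)
  have hd : ∀ (F : Finset (X × X)), (∀ p ∈ F, p.1 ≠ p.2) → ∀ (E : Finset X),
        ∃ z : X, z ∉ E ∧ ∀ p ∈ F, p.1 * z⁻¹ ≠ z * p.2⁻¹ := by
    intro F hF E
    obtain ⟨z, hz⟩ := Infinite.exists_notMem_finset E
    refine ⟨z, hz, fun p hp h => hF p hp ?_⟩
    rw [hinv, hinv, mul_comm] at h
    exact mul_left_cancel h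
  obtain ⟨f, hf, hf'⟩ := h X hd card_aut
  obtain ⟨σ, hσ⟩ := one_orbit X_sq (f 0) (f 1) ⟨(hf 0).2.1, (hf 0).2.2⟩ ⟨(hf 1).2.1, (hf 1).2.2⟩
  exact hf' 0 1 zero_ne_one σ hσ

end Pool.Agent.S00576
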