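import Pool.Statements.S00609
import Pool.Agent.H14.TSeq

set_option autoImplicit false
open Pool Pool.MP_042d8e_al

namespace Pool.Agent.S00609

theorem result :
    ∃ (G : Type) (_ : Group G) (V : Type) (_ : MulAction G V) (lev : V → ℕ) (par : V → V),
      (∀ v w : V, lev v = 0 → lev w = 0 → v = w) ∧
      (∃ v : V, lev v = 0) ∧
      (∀ w : V, lev w = 0 → par w = w) ∧
      (∀ w : V, lev w ≠ 0 → lev (par w) + 1 = lev w) ∧
      (∀ n : ℕ, {v : V | lev v = n}.Finite) ∧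
      (∀ v : V, ∃ w₁ w₂ : V, w₁ ≠ w₂ ∧ par w₁ = v ∧ par w₂ = v ∧
          lev w₁ = lev v + 1 ∧ lev w₂ = lev v + 1) ∧
      (∀ (g : G) (w : V), lev (g • w) = lev w ∧ par (g • w) = g • par w) ∧
      (∀ g : G, (∀ v : V, g • v = v) → g = 1) ∧
      (∀ v w : V, lev v = lev w → ∃ g : G, g • v = w) ∧
      (∀ n : ℕ, (Subgroup.closure {g : G | ∃ v : V, lev v = n ∧
          ∀ w : V, (∀ k : ℕ, par^[k] w ≠ v) → g • w = w}).FiniteIndex) ∧
      ∃ M : ℕ → ℕ → Subgroup G,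
        (∀ a : ℕ, Antitone (M a) ∧ (∀ i : ℕ, (M a i).Normal ∧ (M a i).FiniteIndex) ∧
            (⨅ i : ℕ, M a i) = ⊥) ∧
        (∀ a b : ℕ, a ≠ b →
            ¬ ((∀ i : ℕ, ∃ j : ℕ, M b j ≤ M a i) ∧ (∀ i : ℕ, ∃ j : ℕ, M a j ≤ M b i))) := by
  open Pool.Agent.H14.TSeq in
  refine ⟨G, inferInstance, V, inferInstance, List.length, List.tail, ?_, ⟨[], rfl⟩, ?_, ?_,
    fun n => List.finite_length_eq Z n, fun v => ⟨0 :: v, 1 :: v, by simp, rfl, rfl, rfl, rfl⟩,
    fun g w => ⟨len g w, ?_⟩, fun g hg => Subtype.ext (Equiv.ext hg), fun v w h => ?_, fun n => ?_,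
    M, fun a => ⟨?_, fun i => ⟨?_, ?_⟩, ?_⟩, fun a b h hh => ?_⟩
  · intro v w h1 h2
    rw [List.eq_nil_of_length_eq_zero h1, List.eq_nil_of_length_eq_zero h2]
  · intro w h
    rw [List.eq_nil_of_length_eq_zero h]; rfl
  · intro w h
    rw [List.length_tail]; omega
  · change (g.1 w).tail = g.1 w.tail
    rw [(por_spec g).2, (por_spec g).2, act_tail]
  · obtain ⟨a, ha, e⟩ := trans v w h
    exact ⟨mk a ha, e⟩
  · refine Subgroup.finiteIndex_of_le (H := (res n).ker) fun g hg => ?_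
    refine rist n (por_spec g).1.toFinset g fun l hl => ⟨by simpa using hl, ?_⟩
    by_contra h
    apply hl
    rw [por, mem_ker.1 hg _ (by simp; omega)]
    rfl
  · intro i j hij g hg
    exact ⟨mem_ker.2 fun l hl => mem_ker.1 hg.1 l (hl.trans hij), hg.2⟩
  · unfold M; infer_instance
  · unfold M; infer_instance
  · rw [eq_bot_iff]
    intro g hg
    rw [Subgroup.mem_iInf] at hg
    exact Subtype.ext (Equiv.ext fun l => mem_ker.1 (hg l.length).1 l le_rfl)
  · obtain ⟨j, hj⟩ := hh.1 0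
    exact notle h j hj

end Pool.Agent.S00609
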