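import Pool.Statements.S00643
import Pool.Agent.H32.MinRankB

set_option autoImplicit false
open Pool Pool.MP_066b7c_al

namespace Pool.Agent.S00643

/-- For all sizes with 1≤k_i≤a_i b_i, off a proper algebraic set of pairs of k_i-tuples of complex a_i×b_i matrices, the min rank of nonzero elements of span(M_i⊗N_j) equals the product of the min ranks of span(M) and span(N). -/
theorem result :
    ∀ (a1 b1 k1 a2 b2 k2 : ℕ), 1 ≤ k1 → k1 ≤ a1 * b1 → 1 ≤ k2 → k2 ≤ a2 * b2 →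
      ∃ P : MvPolynomial ((Fin k1 × Fin a1 × Fin b1) ⊕ (Fin k2 × Fin a2 × Fin b2)) ℂ,
        P ≠ 0 ∧
        ∀ (M : Fin k1 → Matrix (Fin a1) (Fin b1) ℂ) (N : Fin k2 → Matrix (Fin a2) (Fin b2) ℂ),
          MvPolynomial.eval
              (Sum.elim (fun t : Fin k1 × Fin a1 × Fin b1 => M t.1 t.2.1 t.2.2)
                (fun t : Fin k2 × Fin a2 × Fin b2 => N t.1 t.2.1 t.2.2)) P ≠ 0 →
          sInf {r : ℕ | ∃ s ∈ Submodule.span ℂ
              {x : Matrix (Fin a1 × Fin a2) (Fin b1 × Fin b2) ℂ |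
                ∃ i j, x = Matrix.kroneckerMap (fun u v : ℂ => u * v) (M i) (N j)},
              s ≠ 0 ∧ s.rank = r}
            = sInf {r : ℕ | ∃ s ∈ Submodule.span ℂ (Set.range M), s ≠ 0 ∧ s.rank = r} *
              sInf {r : ℕ | ∃ s ∈ Submodule.span ℂ (Set.range N), s ≠ 0 ∧ s.rank = r} := by
  intro a1 b1 k1 a2 b2 k2 h1 h2 h3 h4
  obtain ⟨r1, p1, p2, p3, p4, ω1, p5, p6⟩ := Pool.Agent.H32.MinRank.exists_r h1 h2
  obtain ⟨r2, q1, q2, q3, q4, ω2, q5, q6⟩ := Pool.Agent.H32.MinRank.exists_r h3 h4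
  let Z : Fin k1 × Fin k2 → Matrix (Fin a1 × Fin a2) (Fin b1 × Fin b2)
      (MvPolynomial ((Fin k1 × Fin a1 × Fin b1) ⊕ (Fin k2 × Fin a2 × Fin b2)) ℂ) :=
    fun w => Matrix.of fun u v =>
      MvPolynomial.X (Sum.inl (w.1, u.1, v.1)) * MvPolynomial.X (Sum.inr (w.2, u.2, v.2))
  have hZ : ∀ (M : Fin k1 → Matrix (Fin a1) (Fin b1) ℂ) (N : Fin k2 → Matrix (Fin a2) (Fin b2) ℂ)
      (w : Fin k1 × Fin k2), (Z w).map (MvPolynomial.aeval
        (Sum.elim (fun t : Fin k1 × Fin a1 × Fin b1 => M t.1 t.2.1 t.2.2)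
          (fun t : Fin k2 × Fin a2 × Fin b2 => N t.1 t.2.1 t.2.2)))
        = Matrix.kroneckerMap (fun u v : ℂ => u * v) (M w.1) (N w.2) := by
    intro M N w
    ext u v
    simp [Z]
  obtain ⟨P, hP0, hP⟩ := Pool.Agent.H32.MinRank.generic_open (r1 * r2) Z
    (Sum.elim
      (fun t : Fin k1 × Fin a1 × Fin b1 => Pool.Agent.H32.MinRank.G a1 b1 (ω1 t.1) t.2.1 t.2.2)
      (fun t : Fin k2 × Fin a2 × Fin b2 => Pool.Agent.H32.MinRank.G a2 b2 (ω2 t.1) t.2.1 t.2.2))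
    (by
    intro c hc
    simp only [hZ (fun i => Pool.Agent.H32.MinRank.G a1 b1 (ω1 i))
      (fun i => Pool.Agent.H32.MinRank.G a2 b2 (ω2 i))]
    exact Pool.Agent.H32.MinRank.tensor_rank ω1 p5 p6 ω2 q5 q6 c hc)
  refine ⟨P, hP0, fun M N hMN => ?_⟩
  refine Pool.Agent.H32.MinRank.assemble p1 p2 p3 p4 q1 q2 q3 q4 M N fun c hc => ?_
  have := hP _ hMN c hc
  simpa only [hZ] using this

end Pool.Agent.S00643
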