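import Pool.Statements.S00661

set_option autoImplicit false
open Pointwise
open Pool Pool.MP_08cc25_al

namespace Pool.Agent.S00661

open Cardinal Order

variable {G : Type} [Group G]

lemma card_closure (s : Set G) : #(Subgroup.closure s) ≤ max #s ℵ₀ := by
  have h1 : Subgroup.closure s = (FreeGroup.lift (fun x : s => (x : G))).range := by
    rw [FreeGroup.range_lift_eq_closure, Subtype.range_coe]
  rw [h1]
  refine (mk_range_le (f := FreeGroup.lift (fun x : s => (x : G)))).trans ?_
  have h2 : #(FreeGroup s) ≤ #(List (s × Bool)) :=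
    mk_le_of_surjective (f := FreeGroup.mk) Quot.mk_surjective
  refine h2.trans ((mk_list_le_max _).trans (max_le (le_max_right _ _) ?_))
  rw [mk_prod, lift_id, lift_id]
  refine (mul_le_max _ _).trans (max_le (max_le (le_max_left _ _) ?_) (le_max_right _ _))
  exact (mk_le_aleph0).trans (le_max_right _ _)

omit [Group G] in
lemma exists_idx : ∃ idx : G → Ordinal.{0}, (∀ α : Ordinal.{0}, #{x | idx x < α} ≤ α.card) ∧
    ∀ ν : Cardinal.{0}, ν ≤ #G → ν ≤ #{x | idx x < ν.ord} := by
  obtain ⟨r, wo, hr⟩ := Cardinal.ord_eq G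
  refine ⟨Ordinal.typein r, fun α => ?_, fun ν hν => ?_⟩
  · rw [← Cardinal.lift_le.{1}, ← mk_Iio_ordinal]
    have := lift_mk_le_lift_mk_of_injective
      (f := fun x : {x | Ordinal.typein r x < α} => (⟨Ordinal.typein r x.1, x.2⟩ : Set.Iio α))
      (fun x y h => Subtype.ext ((Ordinal.typein r).injective (congrArg Subtype.val h)))
    rwa [lift_id'.{0, 1}] at this
  · rw [← Cardinal.lift_le.{1}]
    have h1 := mk_Iio_ordinal ν.ord
    rw [card_ord] at h1
    rw [← h1]
    have := lift_mk_le_lift_mk_of_surjective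
      (f := fun x : {x | Ordinal.typein r x < ν.ord} =>
        (⟨Ordinal.typein r x.1, x.2⟩ : Set.Iio ν.ord))
      (fun ⟨β, hβ⟩ => by
        have : β < Ordinal.type r := by
          rw [← hr]; exact lt_of_lt_of_le hβ (ord_le_ord.2 hν)
        obtain ⟨x, rfl⟩ := Ordinal.typein_surj r this
        exact ⟨⟨x, hβ⟩, rfl⟩)
    rwa [lift_id'.{0, 1}] at this

section filt
variable (idx : G → Ordinal.{0})

def Gs (α : Ordinal.{0}) : Subgroup G := Subgroup.closure {x | idx x < α}

lemma Gs_mono {α β : Ordinal.{0}} (h : α ≤ β) : Gs idx α ≤ Gs idx β :=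
  Subgroup.closure_mono fun _ hx => lt_of_lt_of_le hx h

noncomputable def rk (w : G) : Ordinal.{0} := sInf {α | w ∈ Gs idx α}

lemma mem_rk (w : G) : w ∈ Gs idx (rk idx w) :=
  csInf_mem (s := {α | w ∈ Gs idx α}) ⟨succ (idx w), Subgroup.subset_closure (show idx w < succ (idx w) from lt_succ _)⟩

lemma mem_iff {w : G} {α : Ordinal.{0}} : w ∈ Gs idx α ↔ rk idx w ≤ α :=
  ⟨fun h => csInf_le' h, fun h => Gs_mono idx h (mem_rk idx w)⟩

lemma rk_one : rk idx 1 = 0 := nonpos_iff_eq_zero.1 ((mem_iff idx).1 (one_mem _))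

lemma rk_inv (w : G) : rk idx w⁻¹ = rk idx w :=
  le_antisymm ((mem_iff idx).1 (inv_mem (mem_rk idx w)))
    ((mem_iff idx).1 (inv_mem_iff.1 (mem_rk idx w⁻¹)))

lemma rk_mul (v w : G) : rk idx (v * w) ≤ max (rk idx v) (rk idx w) :=
  (mem_iff idx).1 (mul_mem ((mem_iff idx).2 (le_max_left _ _)) ((mem_iff idx).2 (le_max_right _ _)))

lemma rk_mul_eq {f g : G} (h : rk idx g < rk idx f) : rk idx (f * g) = rk idx f := by
  refine le_antisymm ((rk_mul idx f g).trans (max_le le_rfl h.le)) ?_
  have := rk_mul idx (f * g) g⁻¹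
  rw [mul_inv_cancel_right, rk_inv] at this
  rcases le_max_iff.1 this with h1 | h1
  · exact h1
  · exact absurd h (not_lt.2 h1)

/-- Elements of rank below `α` (or zero). -/
def Lo (α : Ordinal.{0}) : Subgroup G where
  carrier := {w | rk idx w < α ∨ rk idx w = 0}
  one_mem' := Or.inr (rk_one idx)
  mul_mem' := by
    intro a b ha hb
    have := rk_mul idx a b
    rcases ha with ha | ha <;> rcases hb with hb | hb
    · exact Or.inl (this.trans_lt (max_lt ha hb))
    · exact Or.inl (this.trans_lt (max_lt ha (hb ▸ zero_le.trans_lt ha)))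
    · exact Or.inl (this.trans_lt (max_lt (ha ▸ zero_le.trans_lt hb) hb))
    · rw [ha, hb, max_self] at this
      exact Or.inr (nonpos_iff_eq_zero.1 this)
  inv_mem' := by
    intro a ha
    simpa only [Set.mem_setOf_eq, rk_inv] using ha

noncomputable def strip (w : G) : G :=
  (QuotientGroup.mk w : G ⧸ Lo idx (rk idx w)).out⁻¹ * w

lemma strip_mem (w : G) : strip idx w ∈ Lo idx (rk idx w) :=
  QuotientGroup.eq.1 (Quotient.out_eq' _)

lemma strip_lt {w : G} (h : rk idx w ≠ 0) : rk idx (strip idx w) < rk idx w :=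
  (strip_mem idx w).elim id fun h' => h' ▸ pos_iff_ne_zero.2 h

lemma strip_mul {f g : G} (h : rk idx g < rk idx f) : strip idx (f * g) = strip idx f * g := by
  unfold strip
  rw [rk_mul_eq idx h, QuotientGroup.mk_mul_of_mem f (show g ∈ Lo idx _ from Or.inl h), mul_assoc]

open Classical in
noncomputable def len (w : G) : ℕ :=
  if _h : rk idx w = 0 then 0 else len (strip idx w) + 1
termination_by rk idx w
decreasing_by exact strip_lt idx _h

open Classical in
noncomputable def col (w : G) : ℕ :=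
  if _h : rk idx w = 0 then 0 else max (len idx w⁻¹) (col (strip idx w))
termination_by rk idx w
decreasing_by exact strip_lt idx _h

lemma len_le_col (w : G) : len idx w⁻¹ ≤ col idx w := by
  rw [col]
  split_ifs with h
  · rw [len, dif_pos (by rwa [rk_inv])]
  · exact le_max_left _ _

lemma reduce (α : Ordinal.{0}) (f : G) :
    ∃ u, rk idx u ≤ α ∧ ∀ g, rk idx g ≤ α → col idx (u * g) ≤ col idx (f * g) := by
  induction h : rk idx f using Ordinal.induction generalizing f with
  | _ β ih =>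
    subst h
    by_cases hf : rk idx f ≤ α
    · exact ⟨f, hf, fun _ _ => le_rfl⟩
    · push Not at hf
      have h0 : rk idx f ≠ 0 := (zero_le.trans_lt hf).ne'
      obtain ⟨u, hu, hu'⟩ := ih _ (strip_lt idx h0) (strip idx f) rfl
      refine ⟨u, hu, fun g hg => (hu' g hg).trans ?_⟩
      have hlt := hg.trans_lt hf
      rw [← strip_mul idx hlt]
      conv_rhs => rw [col, dif_neg (by rwa [rk_mul_eq idx hlt])]
      exact le_max_right _ _

lemma lt_of_limit {lam : Ordinal.{0}} (hl : IsSuccLimit lam) {w : G} (hw : rk idx w ≤ lam) :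
    rk idx w < lam := by
  have h := (mem_iff idx).2 hw
  clear hw
  induction h using Subgroup.closure_induction with
  | mem x hx =>
    exact ((mem_iff idx).1 (Subgroup.subset_closure (lt_succ (idx x)))).trans_lt (hl.succ_lt hx)
  | one => rw [rk_one]; exact hl.bot_lt
  | mul x y _ _ hx hy => exact (rk_mul idx x y).trans_lt (max_lt hx hy)
  | inv x _ hx => rwa [rk_inv]

lemma long (lam β : Ordinal.{0}) (hβ : β < lam)
    (hz : ∀ γ < lam, ∃ z, γ < rk idx z ∧ rk idx z < lam) (m : ℕ) :
    ∃ g, rk idx g < lam ∧ ∀ u, rk idx u ≤ β → m ≤ len idx (g * u) := by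
  induction m with
  | zero => exact ⟨1, by rw [rk_one]; exact zero_le.trans_lt hβ, by simp⟩
  | succ m ih =>
    obtain ⟨g, hg, hg'⟩ := ih
    obtain ⟨z, hz1, hz2⟩ := hz _ (max_lt hβ hg)
    have hgz : rk idx g < rk idx z := (le_max_right _ _).trans_lt hz1
    have h0 : rk idx z ≠ 0 := (zero_le.trans_lt hz1).ne'
    have hs := strip_lt idx h0
    have hlow : ∀ u, rk idx u ≤ β → rk idx ((strip idx z)⁻¹ * (g * u)) < rk idx z := fun u hu =>
      (rk_mul idx _ _).trans_lt (max_lt (by rwa [rk_inv]) ((rk_mul idx _ _).trans_lt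
        (max_lt hgz (hu.trans_lt ((le_max_left _ _).trans_lt hz1)))))
    refine ⟨z * ((strip idx z)⁻¹ * g), ?_, fun u hu => ?_⟩
    · have := hlow 1 (by rw [rk_one]; exact zero_le)
      rw [mul_one] at this
      rwa [rk_mul_eq idx this]
    · rw [mul_assoc, mul_assoc, len, dif_neg (by rwa [rk_mul_eq idx (hlow u hu)]),
        strip_mul idx (hlow u hu), mul_inv_cancel_left]
      exact Nat.succ_le_succ (hg' u hu)

end filt

lemma main (hG : ℵ₀ < #G) : ∃ c : G → ℕ, ∀ (n : ℕ) (F : Set G), #F < #G →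
    ∃ g, ∀ f ∈ F, n < c (f⁻¹ * g) := by
  obtain ⟨idx, h1, h2⟩ := exists_idx (G := G)
  refine ⟨col idx, fun n F hF => ?_⟩
  set ν := max #F ℵ₀ with hν
  have hνG : succ ν ≤ #G := succ_le_of_lt (max_lt hF hG)
  have hreg : (succ ν).IsRegular := isRegular_succ (le_max_right _ _)
  set lam := (succ ν).ord with hlam
  have hl : IsSuccLimit lam := isSuccLimit_ord hreg.aleph0_le
  choose u hu hu' using fun f : F => reduce idx lam (f : G)⁻¹
  have hβ : (⨆ f, rk idx (u f)) < lam :=
    iSup_lt_ord_of_isRegular hreg ((le_max_left _ _).trans_lt (lt_succ _))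
      fun f => lt_of_limit idx hl (hu f)
  obtain ⟨g, hg, hg'⟩ := long idx lam _ hβ (fun γ hγ => by
    by_contra hcon
    push Not at hcon
    have hsub : {x | idx x < lam} ⊆ (Gs idx γ : Set G) := fun x hx => by
      have := lt_of_limit idx hl ((mem_iff idx).1 (Subgroup.subset_closure hx))
      by_contra h
      exact absurd (hcon x (not_le.1 fun h' => h ((mem_iff idx).2 h'))) (not_le.2 this)
    have h3 : succ ν ≤ max γ.card ℵ₀ :=
      (h2 _ hνG).trans ((mk_le_mk_of_subset hsub).trans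
        ((card_closure _).trans (max_le_max_right _ (h1 γ))))
    have h4 : γ.card < succ ν := lt_ord.1 hγ
    exact absurd h3 (not_le.2 (max_lt h4 ((le_max_right _ _).trans_lt (lt_succ _))))) (n + 1)
  refine ⟨g⁻¹, fun f hf => ?_⟩
  refine lt_of_lt_of_le ?_ (hu' ⟨f, hf⟩ g⁻¹ (by rw [rk_inv]; exact hg.le))
  refine lt_of_lt_of_le ?_ (len_le_col idx _)
  rw [mul_inv_rev, inv_inv]
  exact hg' _ (by rw [rk_inv]; exact Ordinal.le_iSup (fun f => rk idx (u f)) ⟨f, hf⟩)

/-- Every infinite group G can be split into countably many pairwise disjoint sets A_n so that no A_n satisfies F·A_n = G for any subset F of G of cardinality smaller than that of G. -/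
theorem result :
    ∀ (G : Type) [Group G], Infinite G →
      ∃ A : ℕ → Set G,
        (⋃ n, A n) = Set.univ ∧
        Pairwise (fun i j => Disjoint (A i) (A j)) ∧
        ∀ n, ¬ ∃ F : Set G, Cardinal.mk F < Cardinal.mk G ∧ F * A n = Set.univ := by
  intro G _ hG
  have key : ∃ c : G → ℕ, ∀ (n : ℕ) (F : Set G), #F < #G → ∃ g, ∀ f ∈ F, c (f⁻¹ * g) ≠ n := by
    rcases (aleph0_le_mk G).eq_or_lt with h | h
    · have : Countable G := mk_le_aleph0_iff.1 h.ge
      obtain ⟨c, hc⟩ := exists_injective_nat G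
      refine ⟨c, fun n F hF => ?_⟩
      rw [← h, lt_aleph0_iff_set_finite] at hF
      have hfin : (F * {x | c x = n}).Finite :=
        hF.mul (Set.Subsingleton.finite fun x hx y hy => hc (hx.trans hy.symm))
      obtain ⟨g, hg⟩ := hfin.exists_notMem
      exact ⟨g, fun f hf h => hg ⟨f, hf, f⁻¹ * g, h, by simp⟩⟩
    · obtain ⟨c, hc⟩ := main h
      refine ⟨c, fun n F hF => ?_⟩
      obtain ⟨g, hg⟩ := hc n F hF
      exact ⟨g, fun f hf => (hg f hf).ne'⟩
  obtain ⟨c, hc⟩ := key
  refine ⟨fun n => {x | c x = n}, Set.eq_univ_of_forall fun a => Set.mem_iUnion.mpr ⟨c a, rfl⟩,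
    fun i j hij => Set.disjoint_left.mpr fun a h1 h2 => hij (h1.symm.trans h2), ?_⟩
  rintro n ⟨F, hF, h⟩
  obtain ⟨g, hg⟩ := hc n F hF
  obtain ⟨f, hf, a, ha, rfl⟩ : g ∈ F * {x | c x = n} := by rw [h]; trivial
  exact hg f hf (by simpa using ha)

end Pool.Agent.S00661
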