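import Pool.Statements.S00684
import Pool.Agent.H15.Scottish

set_option autoImplicit false
open Pool Pool.MP_0b625c_al

namespace Pool.Agent.S00684

theorem result :
    ¬ (∀ (E₁ : Type) [Group E₁] [MetricSpace E₁] [CompleteSpace E₁] [IsTopologicalGroup E₁]
      (U : (Circle → Circle) →* E₁),
      Function.Bijective U →
      (∀ x : Circle → Circle, ∀ ε > (0 : ℝ), ∃ δ > (0 : ℝ), ∀ y : Circle → Circle,
          (∀ q : Circle, dist (x q) (y q) ≤ δ) → dist (U x) (U y) < ε) →
      (∀ x : Circle → Circle, ∀ ε > (0 : ℝ), ∃ δ > (0 : ℝ), ∀ y : Circle → Circle,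
          dist (U x) (U y) < δ → ∀ q : Circle, dist (x q) (y q) ≤ ε)) := by
  intro H
  open Pool.Agent.H15.Scottish in
  have h := H W U ⟨fun _ _ h => h, fun x => ⟨x, rfl⟩⟩ (by
    intro x ε hε
    refine ⟨ε / 4, by linarith, fun y hy => ?_⟩
    have : D x y ≤ ε / 2 := D_le _ _ _ fun q => by
      have h1 := hy q
      have h2 := w_le q
      have h3 := w_pos q
      have h4 := dist_nonneg (x := x q) (y := y q)
      nlinarith
    exact lt_of_le_of_lt this (by linarith))
  obtain ⟨δ, hδ, h1⟩ := h 1 1 one_pos
  obtain ⟨q, hq⟩ := Pool.Agent.H15.Scottish.small_w (δ / 4) (by linarith)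
  classical
  let m : Circle := ⟨-1, by simp [Submonoid.unitSphere]⟩
  have hm : dist (1 : Circle) m = 2 := by
    rw [Pool.Agent.H15.Scottish.cdist]
    have : ((1 : Circle) : ℂ) - (m : ℂ) = 2 := by
      show (1 : ℂ) - (-1) = 2
      norm_num
    exact (congrArg _ this).trans (by simp)
  have h2 := h1 (Function.update 1 q m) (by
    have : Pool.Agent.H15.Scottish.D (1 : Circle → Circle) (Function.update 1 q m) ≤ δ / 2 := by
      apply Pool.Agent.H15.Scottish.D_le
      intro r
      by_cases hr : r = q
      · subst hr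
        simp only [Function.update_self, Pi.one_apply, hm]
        linarith
      · simp only [Function.update_of_ne hr, dist_self, mul_zero]
        linarith
    exact lt_of_le_of_lt this (by linarith)) q
  simp only [Function.update_self, Pi.one_apply, hm] at h2
  linarith

end Pool.Agent.S00684
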