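import Pool.Statements.S00691
import Mathlib
import Pool.Agent.H16.AutF4

set_option autoImplicit false
open Pool Pool.MP_0c10a3_al

namespace Pool.Agent.S00691

/-- For every free group F of infinite rank and every generating set X of Aut(F), there is a bound n such that every automorphism of F is a product of at most n elements of X or their inverses. -/
theorem result :
    ∀ (α : Type) [Infinite α], ∀ X : Set (MulAut (FreeGroup α)),
      Subgroup.closure X = ⊤ →
        ∃ n : ℕ, ∀ g : MulAut (FreeGroup α),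
          ∃ l : List (MulAut (FreeGroup α)),
            l.length ≤ n ∧ (∀ x ∈ l, x ∈ X ∨ x⁻¹ ∈ X) ∧ l.prod = g := by
  intro α _ X hX
  have hm : ∀ (m n : ℕ) (a b : MulAut (FreeGroup α)),
      (∃ l : List (MulAut (FreeGroup α)), l.length ≤ m ∧ (∀ x ∈ l, x ∈ X ∨ x⁻¹ ∈ X) ∧ l.prod = a) →
      (∃ l : List (MulAut (FreeGroup α)), l.length ≤ n ∧ (∀ x ∈ l, x ∈ X ∨ x⁻¹ ∈ X) ∧ l.prod = b) →
      ∃ l : List (MulAut (FreeGroup α)), l.length ≤ m + n ∧ (∀ x ∈ l, x ∈ X ∨ x⁻¹ ∈ X) ∧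
        l.prod = a * b := by
    rintro m n _ _ ⟨l, a1, a2, rfl⟩ ⟨l', b1, b2, rfl⟩
    refine ⟨l ++ l', by rw [List.length_append]; omega, fun x hx => ?_, List.prod_append⟩
    exact (List.mem_append.1 hx).elim (a2 x) (b2 x)
  refine H16.AutF.berg α (fun n g => ∃ l : List (MulAut (FreeGroup α)),
    l.length ≤ n ∧ (∀ x ∈ l, x ∈ X ∨ x⁻¹ ∈ X) ∧ l.prod = g) hm ?_ ?_ ?_
  · rintro n _ ⟨l, a1, a2, rfl⟩
    refine ⟨(l.map fun x => x⁻¹).reverse, by simpa using a1, fun x hx => ?_,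
      (List.prod_inv_reverse l).symm⟩
    obtain ⟨y, hy, rfl⟩ := List.mem_map.1 (List.mem_reverse.1 hx)
    rw [inv_inv]
    exact (a2 y hy).symm
  · rintro m n _ h ⟨l, a1, a2, rfl⟩
    exact ⟨l, a1.trans h, a2, rfl⟩
  · intro a
    have : a ∈ (Subgroup.closure X).toSubmonoid := by rw [hX]; trivial
    rw [Subgroup.closure_toSubmonoid] at this
    obtain ⟨l, h1, h2⟩ := Submonoid.exists_list_of_mem_closure this
    exact ⟨_, l, le_rfl, h1, h2⟩

end Pool.Agent.S00691
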