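import Pool.Statements.S00738
import Pool.Agent.H4.Wie3
-- import your own Pool.Agent.* helpers here

set_option autoImplicit false
open Pool Pool.MP_0f752e_al

namespace Pool.Agent.S00738

open Pool.Agent.H4.Wie in
lemma chain {G : Type} [Group G] {U : Subgroup G} (h : U.IsSubnormal) :
    ∃ n : ℕ, ∃ c : ℕ → Subgroup G, c 0 = U ∧ c n = ⊤ ∧
      ∀ i < n, c i ≤ c (i + 1) ∧ ((c i).subgroupOf (c (i + 1))).Normal := by
  obtain ⟨n, f, h1, h2, h3, h4⟩ := h.exists_chain
  exact ⟨n, f, h3, h4, fun i _ => ⟨h1 (Nat.le_succ i), h2 i⟩⟩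

/-- The negation of the preceding statement: Take any class of finite groups closed under images, subdirect products, normal subgroups and products of normal members. Then for finite G and U, V subnormal in ⟨U,V⟩, the residual of ⟨U,V⟩ equals the join of the residuals of U and V. -/
theorem result :
    ¬ (∀ F : (H : Type) → [Group H] → Prop,
      (∀ (G H : Type) [Group G] [Group H] [Finite G], F G →
          ∀ f : G →* H, Function.Surjective f → F H) →
      (∀ (G H₁ H₂ : Type) [Group G] [Group H₁] [Group H₂] [Finite G],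
          F H₁ → F H₂ → ∀ (f₁ : G →* H₁) (f₂ : G →* H₂),
            Function.Surjective f₁ → Function.Surjective f₂ →
            f₁.ker ⊓ f₂.ker = ⊥ → F G) →
      (∀ (G : Type) [Group G] [Finite G], F G →
          ∀ N : Subgroup G, N.Normal → F N) →
      (∀ (G : Type) [Group G] [Finite G] (N M : Subgroup G),
          N.Normal → M.Normal → F N → F M → N ⊔ M = ⊤ → F G) →
      ∀ (G : Type) [Group G] [Finite G] (U V : Subgroup G),
        (∃ n : ℕ, ∃ c : ℕ → Subgroup G, c 0 = U ∧ c n = U ⊔ V ∧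
          ∀ i < n, c i ≤ c (i + 1) ∧ ((c i).subgroupOf (c (i + 1))).Normal) →
        (∃ n : ℕ, ∃ c : ℕ → Subgroup G, c 0 = V ∧ c n = U ⊔ V ∧
          ∀ i < n, c i ≤ c (i + 1) ∧ ((c i).subgroupOf (c (i + 1))).Normal) →
        (⨅ (H : Type) (_ : Group H) (_ : F H) (f : ↥(U ⊔ V) →* H)
            (_ : Function.Surjective f), f.ker).map (U ⊔ V).subtype =
          (⨅ (H : Type) (_ : Group H) (_ : F H) (f : ↥U →* H)
              (_ : Function.Surjective f), f.ker).map U.subtype ⊔
          (⨅ (H : Type) (_ : Group H) (_ : F H) (f : ↥V →* H)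
              (_ : Function.Surjective f), f.ker).map V.subtype) := by
  intro h
  open Pool.Agent.H4.Wie in
  have E := SolF_FF FW_FF
  obtain ⟨G, _, _, U, V, Z, A, sU, sV, e, hA, ⟨Q, _, f, f1, f2, f3⟩, ⟨P, _, g, g1, g2, g3⟩, hJ⟩ :=
    Pool.Agent.H4.Wie.main
  have := h _ (fun G H _ _ _ a f hf => E.isF.2.1 G H f hf a)
    (fun G H K _ _ _ _ a b f g hf hg e => E.isF.r0 f g hf hg e a b)
    (fun G _ _ a N hN => E.nrm N hN a)
    (fun G _ _ N M hN hM a b e => E.n0 G N M hN hM e a b) G U V (e ▸ chain sU) (e ▸ chain sV)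
  refine hA (le_trans ?_ (this.le.trans (sup_le (le_trans (Subgroup.map_mono ?_) f3)
    (le_trans (Subgroup.map_mono ?_) g3))))
  · intro a ha
    have m : ∀ x, x ∈ U ⊔ V := fun x => e ▸ Subgroup.mem_top x
    refine ⟨⟨a, m a⟩, ?_, rfl⟩
    simp only [SetLike.mem_coe, Subgroup.mem_iInf]
    intro H _ b φ hφ
    exact hJ H (φ.comp ((MonoidHom.id G).codRestrict _ m))
      (hφ.comp fun x => ⟨x.1, rfl⟩) b ha
  · exact iInf_le_of_le Q (iInf_le_of_le _ (iInf_le_of_le f2 (iInf₂_le f f1)))
  · exact iInf_le_of_le P (iInf_le_of_le _ (iInf_le_of_le g2 (iInf₂_le g g1)))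

end Pool.Agent.S00738
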