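import Pool.Statements.S00777
import Pool.Agent.H2.FreeRF1

set_option autoImplicit false
open Pool Pool.MP_1358e2_al

namespace Pool.Agent.S00777

open Pool.Agent.H2.RF
open FreeGroup hiding map_mul map_one map_inv

def V {H : Type} [Group H] (a b : H) : H := a * (b * a * b⁻¹) * a⁻¹ * (b * a * b⁻¹)⁻¹

lemma map_V {H H' : Type} [Group H] [Group H'] (f : H →* H') (a b : H) :
    f (V a b) = V (f a) (f b) := by simp [V]

abbrev F := FreeGroup Bool
def u : F := of false
def v : F := V (of false) (of true)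

def rel : FreeGroup (Fin 3) := of 2 * of 0 * (of 2)⁻¹ * (V (of 0) (of 1))⁻¹
abbrev G := PresentedGroup ({rel} : Set (FreeGroup (Fin 3)))
def io : F →* G := lift fun s => PresentedGroup.of (bif s then 1 else 0)
def T : G := PresentedGroup.of 2

lemma io_u : io u = PresentedGroup.of 0 := by simp [io, u]
lemma io_b : io (of true) = PresentedGroup.of 1 := by simp [io]

lemma relG : T * io u * T⁻¹ = io v := by
  have h : PresentedGroup.mk ({rel} : Set (FreeGroup (Fin 3))) rel = 1 :=
    PresentedGroup.one_of_mem rfl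
  rw [v, map_V, io_b, show io (of false) = _ from io_u, io_u]
  rw [rel, map_mul, map_inv, map_V, mul_inv_eq_one] at h
  exact h

/-! ### `u` and `v` are not proper powers -/

def ra : Equiv.Perm ((ℤ × ℤ) × ℤ) where
  toFun p := (p.1 + (1, 0), p.2 + if p.1 = 0 then 1 else 0)
  invFun p := (p.1 - (1, 0), p.2 - if p.1 - (1, 0) = 0 then 1 else 0)
  left_inv p := by simp
  right_inv p := by simp

def rb : Equiv.Perm ((ℤ × ℤ) × ℤ) where
  toFun p := (p.1 + (0, 1), p.2)
  invFun p := (p.1 - (0, 1), p.2)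
  left_inv p := by simp
  right_inv p := by simp

def rho : F →* Equiv.Perm ((ℤ × ℤ) × ℤ) := lift fun s => bif s then rb else ra

lemma rho_form (g : F) : ∃ (d : ℤ × ℤ) (c : ℤ × ℤ → ℤ), ∀ p n, rho g (p, n) = (p + d, n + c p) := by
  induction g using FreeGroup.induction_on with
  | C1 => exact ⟨0, 0, by simp⟩
  | of x =>
    cases x
    · exact ⟨(1, 0), fun p => if p = 0 then 1 else 0, fun p n => by simp [rho, ra]⟩
    · exact ⟨(0, 1), 0, fun p n => by simp [rho, rb]⟩
  | inv_of x h =>
    obtain ⟨d, c, h⟩ := h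
    refine ⟨-d, fun p => - c (p - d), fun p n => ?_⟩
    rw [map_inv, Equiv.Perm.inv_eq_iff_eq, h]
    simp [sub_eq_add_neg]
  | mul x y h k =>
    obtain ⟨d, c, h⟩ := h
    obtain ⟨d', c', k⟩ := k
    refine ⟨d' + d, fun p => c' p + c (p + d'), fun p n => ?_⟩
    rw [map_mul, Equiv.Perm.mul_apply, k, h]
    simp [add_assoc]

lemma rho_pow1 (z : F) (d : ℤ × ℤ) (c : ℤ × ℤ → ℤ) (h : ∀ p n, rho z (p, n) = (p + d, n + c p))
    (k : ℕ) (p : ℤ × ℤ) (n : ℤ) : (rho (z ^ k) (p, n)).1 = p + k • d := by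
  induction k with
  | zero => simp
  | succ k ih =>
    rw [pow_succ', map_mul, Equiv.Perm.mul_apply, ← Prod.mk.eta (p := rho (z ^ k) (p, n)), h, ih,
      succ_nsmul, add_assoc]

lemma rho_pow2 (z : F) (c : ℤ × ℤ → ℤ) (h : ∀ p n, rho z (p, n) = (p + 0, n + c p))
    (k : ℕ) (p : ℤ × ℤ) (n : ℤ) : rho (z ^ k) (p, n) = (p, n + k * c p) := by
  induction k with
  | zero => simp
  | succ k ih =>
    rw [pow_succ', map_mul, Equiv.Perm.mul_apply, ih, h]
    simp [add_mul, add_assoc]

lemma np_u (z : F) (k : ℕ) (e : z ^ k = u) : k = 1 := by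
  obtain ⟨d, c, h⟩ := rho_form z
  have h1 := congrArg Prod.fst (rho_pow1 z d c h k 0 0)
  rw [e] at h1
  have h2 : (1 : ℤ) = k * d.1 := by simpa [rho, u, ra] using h1
  have := Int.eq_one_or_neg_one_of_mul_eq_one h2.symm
  omega

lemma rho_v : rho v ((1, 0), 0) = ((1, 0), 1) := by
  rw [v, map_V]
  simp only [rho, lift_apply_of, cond_true, cond_false]
  decide

lemma np_v (z : F) (k : ℕ) (e : z ^ k = v) : k = 1 := by
  obtain ⟨d, c, h⟩ := rho_form z
  have h1 := rho_pow1 z d c h k (1, 0) 0
  rw [e, rho_v] at h1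
  have k0 : k ≠ 0 := by
    rintro rfl
    have := rho_v
    rw [← e] at this
    simp at this
  have hd : d = 0 := by
    have : k • d = 0 := by simpa using h1
    exact (smul_eq_zero.1 this).resolve_left k0
  subst hd
  have h2 := rho_pow2 z c h k (1, 0) 0
  rw [e, rho_v] at h2
  have h3 : (1 : ℤ) = k * c (1, 0) := by simpa using congrArg Prod.snd h2
  have := Int.eq_one_or_neg_one_of_mul_eq_one h3.symm
  omega

/-! ### good finite quotients of the base group -/

lemma good_quot (W : List F) : ∃ (K : Type) (_ : Group K) (_ : Finite K) (q : F →* K),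
    orderOf (q u) = orderOf (q v) ∧ ∀ g ∈ W, (g ≠ 1 → q g ≠ 1) ∧
      (g ∉ Subgroup.zpowers u → q g ∉ Subgroup.zpowers (q u)) ∧
      (g ∉ Subgroup.zpowers v → q g ∉ Subgroup.zpowers (q v)) := by
  obtain ⟨K, _, _, q, hq⟩ := free_rf_list
    (W ++ (W.map (fun g => g * u * g⁻¹ * u⁻¹) ++ W.map (fun g => g * v * g⁻¹ * v⁻¹)))
  set M := 2 * Nat.card K with hM
  have Mpos : 0 < M := by have := Nat.card_pos (α := K); omega
  have : NeZero M := ⟨Mpos.ne'⟩
  have : NeZero (4 * M) := ⟨by omega⟩
  let q2 : F →* DihedralGroup (4 * M) := lift fun s => bif s then .r (-1) else .sr 0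
  let q3 : F →* Multiplicative (ZMod M) := lift fun s => bif s then 1 else Multiplicative.ofAdd 1
  have o1 : ∀ x : K, orderOf x ∣ M := fun x => (orderOf_dvd_natCard x).trans (Dvd.intro_left 2 rfl)
  have o2 : orderOf (q2 u) = 2 := by simp [q2, u, DihedralGroup.orderOf_sr]
  have o3 : orderOf (q3 u) = M := by simp [q3, u, ZMod.addOrderOf_one]
  have o4 : orderOf (q2 v) = M := by
    have : q2 v = (DihedralGroup.r 1) ^ 4 := by
      rw [v, map_V, DihedralGroup.r_one_pow]
      simp only [q2, lift_apply_of, cond_true, cond_false, V]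
      simp
      norm_num
    rw [this, orderOf_pow_of_dvd (by norm_num) (by rw [DihedralGroup.orderOf_r_one]; simp),
      DihedralGroup.orderOf_r_one]
    omega
  have o5 : q3 v = 1 := by rw [v, map_V]; simp [V]
  refine ⟨K × DihedralGroup (4 * M) × Multiplicative (ZMod M), inferInstance, inferInstance,
    q.prod (q2.prod q3), ?_, fun g hg => ⟨fun h e => ?_, fun h e => ?_, fun h e => ?_⟩⟩
  · simp only [MonoidHom.prod_apply, Prod.orderOf_mk, o2, o3, o4, o5, orderOf_one, Nat.lcm_one_right]
    rw [Nat.lcm_eq_right (show 2 ∣ M from Dvd.intro _ rfl), Nat.lcm_eq_right (o1 _),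
      Nat.lcm_eq_right (o1 _)]
  · exact hq g (by simp [hg]) h (congrArg Prod.fst e)
  · refine hq (g * u * g⁻¹ * u⁻¹) (List.mem_append_right _ (List.mem_append_left _
      (List.mem_map.2 ⟨g, hg, rfl⟩))) (fun e' => h (mem_zpowers_of_comm u g np_u ?_)) ?_
    · rw [mul_inv_eq_one, mul_inv_eq_iff_eq_mul] at e'; exact e'
    · obtain ⟨k, hk⟩ := e
      have : q u ^ k = q g := congrArg Prod.fst hk
      simp only [map_mul, map_inv, ← this]; group
  · refine hq (g * v * g⁻¹ * v⁻¹) (List.mem_append_right _ (List.mem_append_right _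
      (List.mem_map.2 ⟨g, hg, rfl⟩))) (fun e' => h (mem_zpowers_of_comm v g np_v ?_)) ?_
    · rw [mul_inv_eq_one, mul_inv_eq_iff_eq_mul] at e'; exact e'
    · obtain ⟨k, hk⟩ := e
      have : q v ^ k = q g := congrArg Prod.fst hk
      simp only [map_mul, map_inv, ← this]; group

/-! ### reduced forms -/

def ev : List (Bool × F) → G
  | [] => 1
  | p :: L => (bif p.1 then T else T⁻¹) * io p.2 * ev L

def R (p p' : Bool × F) : Prop :=
  (p.1 = true → p'.1 = false → p.2 ∉ Subgroup.zpowers u) ∧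
  (p.1 = false → p'.1 = true → p.2 ∉ Subgroup.zpowers v)

lemma step (e : Bool) (g : F) (L : List (Bool × F)) (hL : L.IsChain R) :
    ∃ (g' : F) (L' : List (Bool × F)), L'.IsChain R ∧
      (bif e then T else T⁻¹) * (io g * ev L) = io g' * ev L' := by
  by_cases h : ((e, g) :: L).IsChain R
  · exact ⟨1, _, h, by simp [ev, mul_assoc]⟩
  · cases L with
    | nil => exact (h (List.isChain_singleton _)).elim
    | cons p L =>
      obtain ⟨e', g'⟩ := p
      have hL' : L.IsChain R := hL.tail
      have hR : ¬ R (e, g) (e', g') := fun k => h (List.isChain_cons_cons.2 ⟨k, hL⟩)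
      cases e <;> cases e'
      · exact (hR (by simp [R])).elim
      · have : g ∈ Subgroup.zpowers v := by simpa [R] using hR
        obtain ⟨k, rfl⟩ := this
        refine ⟨u ^ k * g', L, hL', ?_⟩
        simp only [ev, cond_true, cond_false, map_mul, map_zpow, ← relG, conj_zpow]
        group
      · have : g ∈ Subgroup.zpowers u := by simpa [R] using hR
        obtain ⟨k, rfl⟩ := this
        refine ⟨v ^ k * g', L, hL', ?_⟩
        simp only [ev, cond_true, cond_false, map_mul, map_zpow, ← relG, conj_zpow]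
        group
      · exact (hR (by simp [R])).elim

lemma normal_form (w : G) : ∃ (g : F) (L : List (Bool × F)), L.IsChain R ∧ w = io g * ev L := by
  obtain ⟨w, rfl⟩ := PresentedGroup.mk_surjective _ w
  have key : ∀ (w : FreeGroup (Fin 3)) (g : F) (L : List (Bool × F)), L.IsChain R →
      (∃ (g' : F) (L' : List (Bool × F)), L'.IsChain R ∧
        PresentedGroup.mk {rel} w * (io g * ev L) = io g' * ev L') ∧
      (∃ (g' : F) (L' : List (Bool × F)), L'.IsChain R ∧
        (PresentedGroup.mk {rel} w)⁻¹ * (io g * ev L) = io g' * ev L') := by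
    intro w
    induction w with
    | C1 => intro g L h; exact ⟨⟨g, L, h, by simp⟩, ⟨g, L, h, by simp⟩⟩
    | of x =>
      intro g L h
      fin_cases x
      · exact ⟨⟨u * g, L, h, by rw [map_mul, io_u, mul_assoc]; rfl⟩,
          ⟨u⁻¹ * g, L, h, by rw [map_mul, map_inv, io_u, mul_assoc]; rfl⟩⟩
      · exact ⟨⟨of true * g, L, h, by rw [map_mul, io_b, mul_assoc]; rfl⟩,
          ⟨(of true)⁻¹ * g, L, h, by rw [map_mul, map_inv, io_b, mul_assoc]; rfl⟩⟩
      · exact ⟨step true g L h, step false g L h⟩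
    | inv_of x ih =>
      intro g L h
      rw [map_inv, inv_inv]
      exact (ih g L h).symm
    | mul x y hx hy =>
      intro g L h
      constructor
      · obtain ⟨g1, L1, h1, e1⟩ := (hy g L h).1
        obtain ⟨g2, L2, h2, e2⟩ := (hx g1 L1 h1).1
        exact ⟨g2, L2, h2, by rw [map_mul, mul_assoc, e1, e2]⟩
      · obtain ⟨g1, L1, h1, e1⟩ := (hx g L h).2
        obtain ⟨g2, L2, h2, e2⟩ := (hy g1 L1 h1).2
        exact ⟨g2, L2, h2, by rw [map_mul, mul_inv_rev, mul_assoc, e1, e2]⟩
  obtain ⟨g, L, h, e⟩ := (key w 1 [] List.isChain_nil).1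
  exact ⟨g, L, h, by simpa [ev] using e⟩

/-! ### the finite actions -/

section
variable {K : Type} [Group K] (q : F →* K) (τ : Equiv.Perm K)

def lab (x : K) : Set K := {y | y * x⁻¹ ∈ Subgroup.zpowers (q u)}

lemma lab_u (x : K) : lab q (q u * x) = lab q x := by
  ext y
  simp only [lab, Set.mem_setOf_eq, mul_inv_rev, ← mul_assoc]
  exact Subgroup.mul_mem_cancel_right _ (inv_mem (Subgroup.mem_zpowers _))

lemma lab_eq {x y : K} (h : lab q x = lab q y) : x * y⁻¹ ∈ Subgroup.zpowers (q u) := by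
  have : x ∈ lab q x := by simp [lab]
  rw [h] at this
  exact this

def pos : List (Bool × F) → K
  | [] => 1
  | p :: L => bif p.1 then τ (q p.2 * pos L) else τ⁻¹ (q p.2 * pos L)

def hd (p : Bool × F) (L : List (Bool × F)) : Set K × Bool :=
  (lab q (bif p.1 then q p.2 * pos q τ L else τ⁻¹ (q p.2 * pos q τ L)), p.1)

def word : List (Bool × F) → List (Set K × Bool)
  | [] => []
  | p :: L => hd q τ p L :: word L

lemma word_red (hτ : ∀ x, τ (q u * x) = q v * τ x) (L : List (Bool × F)) (hL : L.IsChain R)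
    (hq : ∀ p ∈ L, (p.2 ∉ Subgroup.zpowers u → q p.2 ∉ Subgroup.zpowers (q u)) ∧
      (p.2 ∉ Subgroup.zpowers v → q p.2 ∉ Subgroup.zpowers (q v))) :
    IsReduced (word q τ L) := by
  have hz : ∀ (k : ℤ) x, τ (q u ^ k * x) = q v ^ k * τ x := by
    intro k
    induction k with
    | zero => simp
    | succ k ih => intro x; rw [zpow_add_one, zpow_add_one, mul_assoc, ih, hτ, mul_assoc]
    | pred k ih =>
      intro x
      have := hτ ((q u)⁻¹ * x)
      rw [mul_inv_cancel_left] at this
      rw [zpow_sub_one, zpow_sub_one, mul_assoc, ih, this]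
      group
  induction L with
  | nil => exact List.isChain_nil
  | cons p L ih =>
    have ih' := ih hL.tail fun p' hp => hq p' (List.mem_cons_of_mem _ hp)
    cases L with
    | nil => exact List.isChain_singleton _
    | cons p' L =>
      refine List.isChain_cons_cons.2 ⟨fun e => ?_, ih'⟩
      obtain ⟨hR, -⟩ := List.isChain_cons_cons.1 hL
      have hp := hq p List.mem_cons_self
      obtain ⟨b, g⟩ := p
      obtain ⟨b', g'⟩ := p'
      cases b <;> cases b'
      · rfl
      · refine (hp.2 (hR.2 rfl rfl) ?_).elim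
        obtain ⟨k, hk⟩ := lab_eq q e
        simp only [pos, cond_true, cond_false] at hk
        have h1 := hz k (q g' * pos q τ L)
        rw [hk, inv_mul_cancel_right] at h1
        exact ⟨k, (mul_right_cancel ((Equiv.apply_symm_apply τ _).symm.trans h1)).symm⟩
      · refine (hp.1 (hR.1 rfl rfl) ?_).elim
        have := lab_eq q e
        simpa [pos] using this
      · rfl

variable {Y : Type} [Group Y] (f : FreeGroup (Set K) →* Y)

def A (Y : Type) : K →* Equiv.Perm (K × Y) :=
  MonoidHom.mk' (fun k => (Equiv.mulLeft k).prodCongr (Equiv.refl Y))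
    fun a b => Equiv.ext fun p => Prod.ext (mul_assoc _ _ _) rfl

def tau : Equiv.Perm (K × Y) where
  toFun p := (τ p.1, f (of (lab q p.1)) * p.2)
  invFun p := (τ⁻¹ p.1, (f (of (lab q (τ⁻¹ p.1))))⁻¹ * p.2)
  left_inv p := by simp
  right_inv p := by simp

lemma exists_Phi (hτ : ∀ x, τ (q u * x) = q v * τ x) : ∃ Φ : G →* Equiv.Perm (K × Y),
    (∀ g, Φ (io g) = A Y (q g)) ∧ Φ T = tau q τ f := by
  have h : ∀ r ∈ ({rel} : Set (FreeGroup (Fin 3))),
      lift ![A Y (q u), A Y (q (of true)), tau q τ f] r = 1 := by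
    rintro r rfl
    rw [rel, map_mul, map_inv, map_V, mul_inv_eq_one]
    simp only [map_mul, map_inv, lift_apply_of]
    show tau q τ f * A Y (q u) * (tau q τ f)⁻¹ = V (A Y (q u)) (A Y (q (of true)))
    rw [← map_V, u, ← map_V, mul_inv_eq_iff_eq_mul]
    refine Equiv.ext fun p => Prod.ext (hτ p.1) ?_
    show f (of (lab q (q u * p.1))) * p.2 = f (of (lab q p.1)) * p.2
    rw [lab_u]
  refine ⟨PresentedGroup.toGroup h, fun g => ?_, PresentedGroup.toGroup.of h⟩
  have : (PresentedGroup.toGroup h).comp io = (A Y).comp q := by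
    refine FreeGroup.ext_hom _ _ fun s => ?_
    cases s
    · show PresentedGroup.toGroup h (io u) = _
      rw [io_u, PresentedGroup.toGroup.of]; rfl
    · show PresentedGroup.toGroup h (io (of true)) = _
      rw [io_b, PresentedGroup.toGroup.of]; rfl
  exact DFunLike.congr_fun this g

lemma Phi_ev (Φ : G →* Equiv.Perm (K × Y)) (h1 : ∀ g, Φ (io g) = A Y (q g))
    (h2 : Φ T = tau q τ f) (L : List (Bool × F)) :
    Φ (ev L) (1, 1) = (pos q τ L, f (mk (word q τ L))) := by
  induction L with
  | nil => exact Prod.ext (by simp [ev, pos]) (by simp [ev, word, ← one_eq_mk])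
  | cons p L ih =>
    obtain ⟨b, g⟩ := p
    have e : mk (word q τ ((b, g) :: L)) = mk [hd q τ (b, g) L] * mk (word q τ L) := by
      rw [mul_mk]; rfl
    rw [ev, map_mul, map_mul, Equiv.Perm.mul_apply, Equiv.Perm.mul_apply, ih, h1, e, map_mul]
    cases b
    · rw [cond_false, map_inv, h2]
      exact Prod.ext rfl (congrArg (· * _) (map_inv f _).symm)
    · rw [cond_true, h2]
      rfl

end

theorem rf (w : G) (hw : w ≠ 1) :
    ∃ (H : Type) (_ : Group H) (_ : Finite H) (Φ : G →* H), Φ w ≠ 1 := by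
  classical
  obtain ⟨g, L, hL, rfl⟩ := normal_form w
  obtain ⟨K, _, _, q, ho, hq⟩ := good_quot (g :: L.map Prod.snd)
  obtain ⟨τ, hτ⟩ := exists_tau _ _ ho
  have red := word_red q τ hτ L hL fun p hp =>
    (hq p.2 (List.mem_cons_of_mem _ (List.mem_map_of_mem hp))).2
  obtain ⟨Y, _, _, f, hf⟩ := free_rf_list [mk (word q τ L)]
  obtain ⟨Φ, h1, h2⟩ := exists_Phi q τ f hτ
  refine ⟨Equiv.Perm (K × Y), inferInstance, inferInstance, Φ, fun e => ?_⟩
  have e1 : Φ (io g * ev L) (1, 1) = (1, 1) := by rw [e]; rfl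
  rw [map_mul, Equiv.Perm.mul_apply, Phi_ev q τ f Φ h1 h2, h1] at e1
  cases L with
  | nil =>
    refine (hq g List.mem_cons_self).1 (fun k => hw (by simp [k, ev])) ?_
    have : q g * 1 = 1 := congrArg Prod.fst e1
    simpa using this
  | cons p L =>
    refine hf _ List.mem_cons_self (fun k => ?_) (congrArg Prod.snd e1)
    have := congrArg toWord k
    rw [toWord_mk, red.reduce_eq] at this
    simp [word] at this

lemma io_u_ne : io u ≠ 1 := by
  obtain ⟨K, _, _, q, ho, hq⟩ := good_quot [u]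
  obtain ⟨τ, hτ⟩ := exists_tau _ _ ho
  obtain ⟨Φ, h1, -⟩ := exists_Phi q τ (1 : FreeGroup (Set K) →* Unit) hτ
  intro e
  refine (hq u List.mem_cons_self).1 (fun k => by simpa using np_u 1 0 (by simp [k])) ?_
  have e1 : Φ (io u) (1, 1) = (1, 1) := by rw [e, map_one]; rfl
  rw [h1] at e1
  have : q u * 1 = 1 := congrArg Prod.fst e1
  simpa using this

/-- There exist n and r ∈ F(Fin n) such that ⟨Fin n ∣ r⟩ is residually finite (each g≠1 avoids some finite-index normal subgroup) and some g≠1 lies in every term of the derived series (i.e., not residually solvable). -/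
theorem result :
    ∃ (n : ℕ) (r : FreeGroup (Fin n)),
      (∀ g : PresentedGroup ({r} : Set (FreeGroup (Fin n))), g ≠ 1 →
        ∃ N : Subgroup (PresentedGroup ({r} : Set (FreeGroup (Fin n)))),
          N.Normal ∧ N.FiniteIndex ∧ g ∉ N) ∧
      ∃ g : PresentedGroup ({r} : Set (FreeGroup (Fin n))), g ≠ 1 ∧
        ∀ k : ℕ, g ∈ derivedSeries (PresentedGroup ({r} : Set (FreeGroup (Fin n)))) k := by
  refine ⟨3, rel, fun g hg => ?_, io u, io_u_ne, fun k => ?_⟩
  · obtain ⟨H, _, _, Φ, h⟩ := rf g hg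
    exact ⟨Φ.ker, inferInstance, Subgroup.finiteIndex_ker Φ, h⟩
  · induction k with
    | zero => exact Subgroup.mem_top _
    | succ k ih =>
      have hN := derivedSeries_normal G k
      have hN' := derivedSeries_normal G (k + 1)
      have h1 : io v ∈ derivedSeries G (k + 1) := by
        rw [v, map_V, derivedSeries_succ]
        exact Subgroup.commutator_mem_commutator ih (hN.conj_mem _ ih (io (of true)))
      have h2 := hN'.conj_mem _ h1 T⁻¹
      rw [← relG] at h2
      simpa [mul_assoc] using h2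

end Pool.Agent.S00777
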