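import Pool.Statements.S00790
import Pool.Agent.H9.Clif2

set_option autoImplicit false
open Pool Pool.MP_145108_al

namespace Pool.Agent.S00790

/-- The negation of the preceding statement: For every unital ring R: if the lattice of right ideals is distributive and each element is a root of a monic polynomial with central coefficients, then the lattice of left ideals is distributive. -/
theorem result :
    ¬ (∀ (R : Type) [Ring R],
      (∀ a b c : Submodule Rᵐᵒᵖ R, a ⊓ (b ⊔ c) = (a ⊓ b) ⊔ (a ⊓ c)) →
      (∀ x : R, ∃ p : Polynomial (Subring.center R),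
          p.Monic ∧ Polynomial.eval₂ (Subring.center R).subtype x p = 0) →
      ∀ a b c : Submodule R R, a ⊓ (b ⊔ c) = (a ⊓ b) ⊔ (a ⊓ c)) := by
  intro h
  obtain ⟨K, D, _, _, _, e, h1, h2, h3, h4, h5, h6⟩ := Pool.Agent.H9.Clif1.exD
  obtain ⟨σ, g, hg⟩ := Pool.Agent.H9.Clif2.exSigma e h2 h3 h4 h5 h6
  refine Pool.Agent.H9.Clif2.not_left σ g hg (h _ (fun a b c => ?_) fun x => ?_)
  · rcases Pool.Agent.H9.Clif2.right_total σ b c with h | h
    · rw [sup_eq_right.2 h, sup_eq_right.2 (inf_le_inf_left a h)]
    · rw [sup_eq_left.2 h, sup_eq_left.2 (inf_le_inf_left a h)]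
  · obtain ⟨p, hp, hp'⟩ := Pool.Agent.H9.Clif2.integral σ h1 x
    refine ⟨p.map ((algebraMap K _).codRestrict (Subring.center _) fun r =>
      Subring.mem_center_iff.2 fun y => (Algebra.commutes r y).symm), hp.map _, ?_⟩
    rw [Polynomial.eval₂_map]
    exact hp'

end Pool.Agent.S00790
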