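import Pool.Statements.S00801
import Pool.Agent.H24.PG2

set_option autoImplicit false
open Pool Pool.MP_166ce5_al

namespace Pool.Agent.S00801

/-- There is an infinite, residually finite, periodic group generated by a finite set S, whose S-balls grow at least like c^n for some c>1, and in which the maximal element order in the ball of radius n is o(n). -/
theorem result :
    ∃ (G : Type) (_ : Group G) (S : Finset G),
      Infinite G ∧
      Subgroup.closure (S : Set G) = ⊤ ∧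
      (∀ g : G, IsOfFinOrder g) ∧
      (∀ g : G, g ≠ 1 → ∃ N : Subgroup G, N.Normal ∧ N.index ≠ 0 ∧ g ∉ N) ∧
      (∃ c : ℝ, 1 < c ∧ ∀ n : ℕ,
        c ^ n ≤ (({g : G | ∃ l : List G, l.length ≤ n ∧
          (∀ x ∈ l, x ∈ S ∨ x⁻¹ ∈ S) ∧ l.prod = g}).ncard : ℝ)) ∧
      (∀ ε : ℝ, 0 < ε → ∃ N : ℕ, ∀ n : ℕ, N ≤ n → ∀ g : G,
        (∃ l : List G, l.length ≤ n ∧ (∀ x ∈ l, x ∈ S ∨ x⁻¹ ∈ S) ∧ l.prod = g) →
        (orderOf g : ℝ) ≤ ε * n) := by
  refine ⟨H24.PG.Wr H24.PG.G0, inferInstance, H24.PG.gens H24.PG.S0, inferInstance,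
    H24.PG.gens_closure _ H24.PG.S0_gen, fun g => ?_, H24.PG.wr_RF H24.PG.G0_RF,
    ⟨2, by norm_num, fun n => ?_⟩, fun ε hε => H24.PG.W_sub ε hε⟩
  · obtain ⟨n, hn⟩ := H24.PG.exists_ball _ (H24.PG.gens_closure _ H24.PG.S0_gen) g
    refine isOfFinOrder_iff_pow_eq_one.2 ⟨2 ^ (2 * n + 2), by positivity,
      H24.PG.W_pow hn ?_⟩
    have := Nat.lt_pow_self (n := 2 * n) (show 1 < 3 by norm_num)
    omega
  · exact_mod_cast H24.PG.wr_growth H24.PG.S0 H24.PG.S0_sym H24.PG.S0_gen n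

end Pool.Agent.S00801
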