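import Pool.Statements.S00840
import Pool.Agent.H23.Sanov

set_option autoImplicit false
open Pool Pool.MP_1a5400_al

namespace Pool.Agent.S00840

open Pool.Agent.H23.Sanov Matrix

abbrev F := FreeGroup (Fin 2)

def ph : F →* G := FreeGroup.lift gens
def a : F := FreeGroup.of 0
def b : F := FreeGroup.of 1
lemma ph_a : ph a = mA := by simp [ph, a, gens]
lemma ph_b : ph b = mB := by simp [ph, b, gens]

lemma vm (x y : F) : (ph (x * y)).1 = (ph x).1 * (ph y).1 := by rw [map_mul]; rfl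

def tt : Matrix (Fin 2) (Fin 2) ℤ := !![-1, 2; -2, 2]

/-- pairs related by conjugation with `tt` -/
def Rel : Subgroup (F × F) where
  carrier := {p | tt * (ph p.1).1 = (ph p.2).1 * tt}
  one_mem' := by simp
  mul_mem' := by
    intro p q hp hq
    change tt * (ph p.1).1 = (ph p.2).1 * tt at hp
    change tt * (ph q.1).1 = (ph q.2).1 * tt at hq
    change tt * (ph (p.1 * q.1)).1 = (ph (p.2 * q.2)).1 * tt
    rw [vm, vm, ← mul_assoc, hp, mul_assoc, hq, mul_assoc]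
  inv_mem' := by
    intro p hp
    change tt * (ph p.1).1 = (ph p.2).1 * tt at hp
    change tt * (ph p.1⁻¹).1 = (ph p.2⁻¹).1 * tt
    have h1 : (ph p.1).1 * (ph p.1⁻¹).1 = 1 := by
      rw [← vm]; simp
    have h2 : (ph p.2⁻¹).1 * (ph p.2).1 = 1 := by
      rw [← vm]; simp
    calc tt * (ph p.1⁻¹).1 = (ph p.2⁻¹).1 * ((ph p.2).1 * tt) * (ph p.1⁻¹).1 := by
          rw [← mul_assoc, h2, one_mul]
      _ = _ := by rw [← hp, mul_assoc, mul_assoc, h1, mul_one]

lemma mem_Rel {p : F × F} : p ∈ Rel ↔ tt * (ph p.1).1 = (ph p.2).1 * tt := Iff.rfl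

lemma rel_ent {x y : F} (h : (x, y) ∈ Rel) :
    -ph x 0 0 + 2 * ph x 1 0 = -ph y 0 0 - 2 * ph y 0 1 ∧
    -ph x 0 1 + 2 * ph x 1 1 = 2 * ph y 0 0 + 2 * ph y 0 1 ∧
    -2 * ph x 0 0 + 2 * ph x 1 0 = -ph y 1 0 - 2 * ph y 1 1 ∧
    -2 * ph x 0 1 + 2 * ph x 1 1 = 2 * ph y 1 0 + 2 * ph y 1 1 := by
  rw [mem_Rel] at h
  have h00 := congrFun (congrFun h 0) 0
  have h01 := congrFun (congrFun h 0) 1
  have h10 := congrFun (congrFun h 1) 0
  have h11 := congrFun (congrFun h 1) 1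
  simp [tt, mul_apply, Fin.sum_univ_two] at h00 h01 h10 h11
  refine ⟨?_, ?_, ?_, ?_⟩ <;> linarith

lemma eq_one_of {y : F} (h1 : ph y 0 0 = 1) (h2 : ph y 0 1 = 0) (h3 : ph y 1 0 = 0)
    (h4 : ph y 1 1 = 1) : y = 1 := by
  apply inj
  change ph y = ph 1
  rw [map_one]
  ext i j
  fin_cases i <;> fin_cases j <;> simpa

lemma rel_left {y : F} (h : (1, y) ∈ Rel) : y = 1 := by
  have := rel_ent h
  simp at this
  apply eq_one_of <;> omega

lemma rel_right {x : F} (h : (x, 1) ∈ Rel) : x = 1 := by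
  have := rel_ent h
  simp at this
  apply eq_one_of <;> omega

lemma r1 : (a * a, b * a * b⁻¹) ∈ Rel := by
  rw [mem_Rel]
  simp only [map_mul, map_inv, ph_a, ph_b, mB_inv]
  simp [tt, mA, mB, mBi]

lemma r2 : (b, a * b⁻¹ * a * b⁻¹) ∈ Rel := by
  rw [mem_Rel]
  simp only [map_mul, map_inv, ph_a, ph_b, mB_inv]
  simp [tt, mA, mB, mBi]

lemma r3 : (a⁻¹ * b * a, b * a⁻¹ * b * b * a * b⁻¹) ∈ Rel := by
  rw [mem_Rel]
  simp only [map_mul, map_inv, ph_a, ph_b, mA_inv, mB_inv]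
  simp [tt, mA, mB, mAi, mBi]

def chi : F →* Multiplicative (ZMod 2) := FreeGroup.lift ![Multiplicative.ofAdd 1, 1]

lemma chi_a : chi a = Multiplicative.ofAdd 1 := by simp [chi, a]
lemma chi_b : chi b = 1 := by simp [chi, b]

lemma ker_index : chi.ker.index = 2 := by
  rw [Subgroup.index_ker, MonoidHom.range_eq_top.2]
  · simp
  · intro z
    have : z = 1 ∨ z = Multiplicative.ofAdd 1 := by revert z; decide
    rcases this with rfl | rfl
    · exact ⟨1, map_one _⟩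
    · exact ⟨a, chi_a⟩

def TT : Subgroup F := Rel.map (MonoidHom.fst F F)

lemma dom (w : F) : (chi w = 1 → w ∈ TT) ∧ (chi w ≠ 1 → a⁻¹ * w ∈ TT) := by
  have t1 : a * a ∈ TT := ⟨_, r1, rfl⟩
  have t2 : b ∈ TT := ⟨_, r2, rfl⟩
  have t3 : a⁻¹ * b * a ∈ TT := ⟨_, r3, rfl⟩
  have hw : w ∈ Subgroup.closure (Set.range (FreeGroup.of : Fin 2 → F)) := by
    rw [FreeGroup.closure_range_of]; trivial
  have k1 : ∀ z : Multiplicative (ZMod 2), (Multiplicative.ofAdd 1 * z = 1 ↔ z ≠ 1) ∧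
      ((Multiplicative.ofAdd 1)⁻¹ * z = 1 ↔ z ≠ 1) := by decide
  induction hw using Subgroup.closure_induction_left with
  | one => simp
  | mul_left x hx y _ ih =>
    obtain ⟨i, rfl⟩ := hx
    fin_cases i
    · change (chi (a * y) = 1 → a * y ∈ TT) ∧ (chi (a * y) ≠ 1 → a⁻¹ * (a * y) ∈ TT)
      rw [map_mul, chi_a, Ne, (k1 _).1]
      refine ⟨fun h => ?_, fun h => ?_⟩
      · have := TT.mul_mem t1 (ih.2 h)
        rwa [show a * a * (a⁻¹ * y) = a * y by group] at this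
      · rw [inv_mul_cancel_left]; exact ih.1 (not_not.1 h)
    · change (chi (b * y) = 1 → b * y ∈ TT) ∧ (chi (b * y) ≠ 1 → a⁻¹ * (b * y) ∈ TT)
      rw [map_mul, chi_b, one_mul]
      refine ⟨fun h => TT.mul_mem t2 (ih.1 h), fun h => ?_⟩
      have := TT.mul_mem t3 (ih.2 h)
      rwa [show a⁻¹ * b * a * (a⁻¹ * y) = a⁻¹ * (b * y) by group] at this
  | inv_mul_cancel x hx y _ ih =>
    obtain ⟨i, rfl⟩ := hx
    fin_cases i
    · change (chi (a⁻¹ * y) = 1 → a⁻¹ * y ∈ TT) ∧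
        (chi (a⁻¹ * y) ≠ 1 → a⁻¹ * (a⁻¹ * y) ∈ TT)
      rw [map_mul, map_inv, chi_a, Ne, (k1 _).2]
      refine ⟨fun h => ih.2 h, fun h => ?_⟩
      have := TT.mul_mem (TT.inv_mem t1) (ih.1 (not_not.1 h))
      rwa [show (a * a)⁻¹ * y = a⁻¹ * (a⁻¹ * y) by group] at this
    · change (chi (b⁻¹ * y) = 1 → b⁻¹ * y ∈ TT) ∧
        (chi (b⁻¹ * y) ≠ 1 → a⁻¹ * (b⁻¹ * y) ∈ TT)
      rw [map_mul, map_inv, chi_b, inv_one, one_mul]
      refine ⟨fun h => TT.mul_mem (TT.inv_mem t2) (ih.1 h), fun h => ?_⟩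
      have := TT.mul_mem (TT.inv_mem t3) (ih.2 h)
      rwa [show (a⁻¹ * b * a)⁻¹ * (a⁻¹ * y) = a⁻¹ * (b⁻¹ * y) by group] at this

lemma ex (s : chi.ker) : ∃ y, (s.1, y) ∈ Rel := by
  obtain ⟨⟨x, y⟩, h, rfl⟩ := (dom s.1).1 s.2
  exact ⟨y, h⟩

lemma uniq {x y y' : F} (h : (x, y) ∈ Rel) (h' : (x, y') ∈ Rel) : y = y' := by
  have := Rel.mul_mem h (Rel.inv_mem h')
  rw [Prod.inv_mk, Prod.mk_mul_mk, mul_inv_cancel] at this
  exact mul_inv_eq_one.1 (rel_left this)

noncomputable def ff : chi.ker →* F :=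
  MonoidHom.mk' (fun s => (ex s).choose) fun s s' =>
    uniq (ex (s * s')).choose_spec (Rel.mul_mem (ex s).choose_spec (ex s').choose_spec)

lemma ff_rel (s : chi.ker) : (s.1, ff s) ∈ Rel := (ex s).choose_spec

lemma ff_inj : Function.Injective ff := by
  rw [injective_iff_map_eq_one]
  intro s hs
  have := ff_rel s
  rw [hs] at this
  exact Subtype.ext (rel_right this)

lemma descent (N : ℕ) : ∀ u : ℕ → ℤ, (∀ n, 2 * u (n + 2) = -2 * u n - 3 * u (n + 1)) →
    2 * u 0 ^ 2 + 3 * u 0 * u 1 + 2 * u 1 ^ 2 ≤ N → u 0 = 0 ∧ u 1 = 0 := by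
  induction N with
  | zero =>
    intro u _ h
    simp only [Nat.cast_zero] at h
    constructor <;> nlinarith [sq_nonneg (u 0 + u 1), sq_nonneg (u 0), sq_nonneg (u 1)]
  | succ N ih =>
    intro u hu h
    have he : ∀ n, u (n + 1) = 2 * (u (n + 1) / 2) := fun n => by have := hu n; omega
    have h0 := hu 0
    have h1 := he 0
    have h2 := he 1
    simp only [zero_add, Nat.reduceAdd] at h0 h1 h2
    have e0 : u 0 = -(3 * (u 1 / 2)) - 2 * (u 2 / 2) := by omega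
    have := ih (fun n => u (n + 1) / 2) (fun n => by
      have h3 := hu (n + 1)
      have h4 := he n
      have h5 := he (n + 1)
      have h6 := he (n + 2)
      simp only [add_assoc, Nat.reduceAdd] at h3 h4 h5 h6 ⊢
      omega) (by
      simp only [zero_add, Nat.reduceAdd]
      set p := u 1 / 2
      set q := u 2 / 2
      rw [e0, h1] at h
      push_cast at h
      nlinarith [sq_nonneg (p + q), sq_nonneg p, sq_nonneg q])
    simp only [zero_add, Nat.reduceAdd] at this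
    omega

/-- The negation of the preceding statement: For every index-2 subgroup S of the free group on two generators, every subgroup R and every isomorphism f from S onto R, some nontrivial subgroup H inside S satisfies f(H) ⊆ H. -/
theorem result :
    ¬ (∀ (S R : Subgroup (FreeGroup (Fin 2))), S.index = 2 →
      ∀ f : S ≃* R,
        ∃ H : Subgroup (FreeGroup (Fin 2)),
          H ≤ S ∧ H ≠ ⊥ ∧
            ∀ x : S, (x : FreeGroup (Fin 2)) ∈ H → ((f x : R) : FreeGroup (Fin 2)) ∈ H) := by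
  intro h
  obtain ⟨H, hS, hne, hH⟩ := h chi.ker ff.range ker_index (MonoidHom.ofInjective ff_inj)
  apply hne
  rw [eq_bot_iff]
  intro x hx
  let g : H → H := fun y => ⟨ff ⟨y.1, hS y.2⟩, hH ⟨y.1, hS y.2⟩ y.2⟩
  let z : ℕ → F := fun n => (g^[n] ⟨x, hx⟩).1
  have hz : ∀ n, (z n, z (n + 1)) ∈ Rel := fun n => by
    simp only [z, Function.iterate_succ_apply']
    exact ff_rel ⟨_, hS (g^[n] ⟨x, hx⟩).2⟩
  have h1 := descent _ (fun n => ph (z n) 0 1 + ph (z n) 1 0) (fun n => by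
    have e1 := rel_ent (hz n)
    have e2 := rel_ent (hz (n + 1))
    simp only [add_assoc, Nat.reduceAdd] at e2 ⊢
    omega) (Int.self_le_toNat _)
  have e1 := rel_ent (hz 0)
  have e2 := det_eq (ph (z 0))
  simp only [zero_add] at h1 e1
  have hz0 : z 0 = x := rfl
  rw [hz0] at h1 e1 e2
  obtain ⟨y, hy⟩ : ∃ y, ph x 0 1 = 2 * y := ⟨ph x 1 1 - ph (z 1) 0 0 - ph (z 1) 0 1, by omega⟩
  have e3 : ph x 1 1 = ph x 0 0 + 3 * y := by omega
  have e4 : ph x 1 0 = -(2 * y) := by omega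
  rw [e3, e4, hy] at e2
  have e5 : y = 0 := by nlinarith [sq_nonneg (2 * ph x 0 0 + 3 * y)]
  subst e5
  have e6 : x * x = 1 := by
    apply eq_one_of <;> rw [map_mul, mul_ent] <;> simp only [e3, e4, hy] <;> nlinarith
  rw [← sq] at e6
  exact (pow_left_injective two_ne_zero (by simpa using e6) : x = 1)

end Pool.Agent.S00840
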