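import Pool.Statements.S00846
import Pool.Agent.H3.UAddB

set_option autoImplicit false
open Pool Pool.MP_1ad72b_al

namespace Pool.Agent.S00846

/-- The negation of the preceding statement: Every lattice-ordered group whose addition is the only lattice-monotone group operation on its lattice with the same zero is archimedean: whenever all natural multiples of a lie below some b, a ≤ 0. -/
theorem result :
    ¬ (∀ (G : Type) [Lattice G] [AddGroup G] [AddLeftMono G] [AddRightMono G],
      (∀ op : G → G → G,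
          (∀ x y z : G, op (op x y) z = op x (op y z)) →
          (∀ x : G, op 0 x = x ∧ op x 0 = x) →
          (∀ x : G, ∃ y : G, op x y = 0 ∧ op y x = 0) →
          (∀ a b c : G, a ≤ b → op c a ≤ op c b ∧ op a c ≤ op b c) →
          ∀ x y : G, op x y = x + y) →
      ∀ a b : G, (∀ n : ℕ, n • a ≤ b) → a ≤ 0) := by
  intro H
  let y : H3.UAdd.X := ⟨fun j => if j = 0 then H3.UAdd.mk 1 0 else H3.UAdd.mk 0 1, by simp⟩
  have := H H3.UAdd.GG (fun op a b c d x y => by
    choose I hI using c
    letI : Mul H3.UAdd.GG := ⟨op⟩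
    letI : One H3.UAdd.GG := ⟨0⟩
    letI : Inv H3.UAdd.GG := ⟨I⟩
    letI : Group H3.UAdd.GG := Group.ofLeftAxioms a (fun x => (b x).1) fun x => (hI x).2
    haveI : MulLeftMono H3.UAdd.GG := ⟨fun c a b h => (d a b c h).1⟩
    haveI : MulRightMono H3.UAdd.GG := ⟨fun c a b h => (d a b c h).2⟩
    exact H3.UAdd.uniq rfl x y) (H3.UAdd.gen 1) (H3.UAdd.gen 0) fun n => H3.UAdd.le_v.2 fun x => by
      refine le_of_lt (H3.UAdd.lt_iff.2 (Or.inl ?_))
      simpa [-nsmul_eq_mul, x.2.2] using x.2.1
  refine (H3.UAdd.le_v.1 this y).not_gt (H3.UAdd.lt_iff.2 ?_)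
  simp [y]

end Pool.Agent.S00846
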