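import Pool.Statements.S00850
import Pool.Agent.H4.Wie3
-- import your own Pool.Agent.* helpers here

set_option autoImplicit false
open Pool Pool.MP_1b0854_al

namespace Pool.Agent.S00850

open Pool.Agent.H4.Wie in
lemma chain {G : Type} [Group G] {U : Subgroup G} (h : U.IsSubnormal) :
    ∃ n : ℕ, ∃ c : ℕ → Subgroup G, c 0 = U ∧ c n = ⊤ ∧
      ∀ i < n, c i ≤ c (i + 1) ∧ ((c i).subgroupOf (c (i + 1))).Normal := by
  obtain ⟨n, f, h1, h2, h3, h4⟩ := h.exists_chain
  exact ⟨n, f, h3, h4, fun i _ => ⟨h1 (Nat.le_succ i), h2 i⟩⟩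

/-- The negation of the preceding statement: Let F be a class of finite groups closed under images, subdirect products, normal subgroups and normal products, and solubly saturated. Then for subnormal H, K of a finite group, the F-residual of the join of H and K is the join of their F-residuals. -/
theorem result :
    ¬ (∀ F : (G : Type) → [Group G] → Prop,
    (∀ (G : Type) [Group G] [Finite G] (Q : Type) [Group Q] (f : G →* Q),
        Function.Surjective f → F G → F Q) →
    (∀ (G : Type) [Group G] [Finite G] (Q₁ : Type) [Group Q₁] (Q₂ : Type) [Group Q₂]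
        (Q : Type) [Group Q] (f₁ : G →* Q₁) (f₂ : G →* Q₂) (f : G →* Q),
        Function.Surjective f₁ → Function.Surjective f₂ → Function.Surjective f →
        f.ker = f₁.ker ⊓ f₂.ker → F Q₁ → F Q₂ → F Q) →
    (∀ (G : Type) [Group G] [Finite G] (N : Subgroup G), N.Normal → F G → F ↥N) →
    (∀ (G : Type) [Group G] [Finite G] (N M : Subgroup G), N.Normal → M.Normal →
        F ↥N → F ↥M → F ↥(N ⊔ M)) →
    (∀ (G : Type) [Group G] [Finite G] (N : Subgroup G), N.Normal → IsSolvable ↥N →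
        (∀ (Q : Type) [Group Q] (f : G →* Q), Function.Surjective f →
            f.ker = (frattini ↥N).map N.subtype → F Q) → F G) →
    ∀ (G : Type) [Group G] [Finite G] (H K : Subgroup G),
      (∃ n : ℕ, ∃ c : ℕ → Subgroup G, c 0 = H ∧ c n = ⊤ ∧
        ∀ i < n, c i ≤ c (i + 1) ∧ ((c i).subgroupOf (c (i + 1))).Normal) →
      (∃ n : ℕ, ∃ c : ℕ → Subgroup G, c 0 = K ∧ c n = ⊤ ∧
        ∀ i < n, c i ≤ c (i + 1) ∧ ((c i).subgroupOf (c (i + 1))).Normal) →
      (⨅ (N : Subgroup ↥(H ⊔ K)) (_ : N.Normal ∧ ∀ (Q : Type) [Group Q] (f : ↥(H ⊔ K) →* Q),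
          Function.Surjective f → f.ker = N → F Q), N).map (H ⊔ K).subtype
        = (⨅ (N : Subgroup ↥H) (_ : N.Normal ∧ ∀ (Q : Type) [Group Q] (f : ↥H →* Q),
            Function.Surjective f → f.ker = N → F Q), N).map H.subtype
          ⊔ (⨅ (N : Subgroup ↥K) (_ : N.Normal ∧ ∀ (Q : Type) [Group Q] (f : ↥K →* Q),
            Function.Surjective f → f.ker = N → F Q), N).map K.subtype) := by
  intro h
  open Pool.Agent.H4.Wie in
  have E := SolF_FF FW_FF
  obtain ⟨G, _, _, U, V, Z, A, sU, sV, e, hA, ⟨Q, _, f, f1, f2, f3⟩, ⟨P, _, g, g1, g2, g3⟩, hJ⟩ :=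
    Pool.Agent.H4.Wie.main
  have := h _ (fun G _ _ H _ f hf a => E.isF.2.1 G H f hf a)
    (fun G _ _ H _ K _ L _ f g θ hf hg hθ e a b => E.isF.q2 f g θ hf hg hθ
      (fun x c d => (e.symm ▸ ⟨c, d⟩ : x ∈ θ.ker)) a b)
    (fun G _ _ N hN a => E.nrm N hN a)
    (fun G _ _ N M hN hM a b => E.n0 _ (N.subgroupOf (N ⊔ M)) (M.subgroupOf (N ⊔ M))
      (hN.subgroupOf _) (hM.subgroupOf _)
      (by rw [← Subgroup.subgroupOf_sup le_sup_left le_sup_right, Subgroup.subgroupOf_self])
      (E.isF.2.1 _ _ (Subgroup.subgroupOfEquivOfLe le_sup_left).symm.toMonoidHom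
        (MulEquiv.surjective _) a)
      (E.isF.2.1 _ _ (Subgroup.subgroupOfEquivOfLe le_sup_right).symm.toMonoidHom
        (MulEquiv.surjective _) b))
    (fun G _ _ N hN sN a => by
      have : ((frattini N).map N.subtype).Normal := ConjAct.normal_of_characteristic_of_normal
      have s := QuotientGroup.mk'_surjective ((frattini N).map N.subtype)
      refine (a _ _ s (QuotientGroup.ker_mk' _)).ext Pool.Agent.H4.Wie.FW_FF
        (Pool.Agent.H4.Wie.nr_surj s) ?_
      rw [QuotientGroup.ker_mk']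
      exact Pool.Agent.H4.Wie.sol_le (Subgroup.map_subtype_le _) sN)
    G U V (chain sU) (chain sV)
  refine hA (le_trans ?_ (this.le.trans (sup_le (le_trans (Subgroup.map_mono ?_) f3)
    (le_trans (Subgroup.map_mono ?_) g3))))
  · intro a ha
    have m : ∀ x, x ∈ U ⊔ V := fun x => e ▸ Subgroup.mem_top x
    refine ⟨⟨a, m a⟩, ?_, rfl⟩
    simp only [SetLike.mem_coe, Subgroup.mem_iInf]
    intro N ⟨_, hN⟩
    have s := QuotientGroup.mk'_surjective N
    exact (QuotientGroup.eq_one_iff _).1 (hJ _ ((QuotientGroup.mk' N).comp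
      ((MonoidHom.id G).codRestrict _ m)) (s.comp fun x => ⟨x.1, rfl⟩)
      (hN _ _ s (QuotientGroup.ker_mk' _)) ha)
  · exact iInf₂_le f.ker ⟨inferInstance, fun L _ θ hθ k => E.q f f1 θ hθ
      (fun x c => (k.symm ▸ c : x ∈ θ.ker)) f2⟩
  · exact iInf₂_le g.ker ⟨inferInstance, fun L _ θ hθ k => E.q g g1 θ hθ
      (fun x c => (k.symm ▸ c : x ∈ θ.ker)) g2⟩

end Pool.Agent.S00850
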