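import Pool.Statements.S00882
-- import your own Pool.Agent.* helpers here

set_option autoImplicit false
open Pool Pool.MP_1e7c77_al

namespace Pool.Agent.S00882

@[ext] structure GG where
  i : ℤ
  j : ℤ
  k : ℤ
  m : ℤ

@[ext] structure HH where
  i : ℚ
  j : ℚ
  k : ℚ
  m : ℚ

/-- the sign `(-1)^k` -/
def sg (k : ℤ) : ℤ := 1 - 2 * (k % 2)

lemma sg_cases (k : ℤ) : (k % 2 = 0 ∧ sg k = 1) ∨ (k % 2 = 1 ∧ sg k = -1) := by
  unfold sg; omega

lemma sg_add (k k' t : ℤ) : sg (k + k' + 2 * t) = sg k * sg k' := by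
  rcases sg_cases k with ⟨h1, h2⟩ | ⟨h1, h2⟩ <;> rcases sg_cases k' with ⟨h3, h4⟩ | ⟨h3, h4⟩ <;>
    rw [h2, h4] <;> unfold sg <;> omega

lemma sg_sq (k : ℤ) : sg k * sg k = 1 := by
  rcases sg_cases k with ⟨_, h2⟩ | ⟨_, h2⟩ <;> rw [h2] <;> norm_num

instance : Mul GG := ⟨fun a b => ⟨a.i + b.i, a.j + b.j, a.k + b.k + 2 * (a.i * b.j), a.m + sg a.k * b.m⟩⟩
instance : One GG := ⟨⟨0, 0, 0, 0⟩⟩
instance : Inv GG := ⟨fun a => ⟨-a.i, -a.j, -a.k + 2 * (a.i * a.j), -(sg a.k * a.m)⟩⟩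

@[simp] lemma GG.mul_i (a b : GG) : (a * b).i = a.i + b.i := rfl
@[simp] lemma GG.mul_j (a b : GG) : (a * b).j = a.j + b.j := rfl
@[simp] lemma GG.mul_k (a b : GG) : (a * b).k = a.k + b.k + 2 * (a.i * b.j) := rfl
@[simp] lemma GG.mul_m (a b : GG) : (a * b).m = a.m + sg a.k * b.m := rfl
@[simp] lemma GG.one_i : (1 : GG).i = 0 := rfl
@[simp] lemma GG.one_j : (1 : GG).j = 0 := rfl
@[simp] lemma GG.one_k : (1 : GG).k = 0 := rfl
@[simp] lemma GG.one_m : (1 : GG).m = 0 := rfl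
@[simp] lemma GG.inv_i (a : GG) : (a⁻¹).i = -a.i := rfl
@[simp] lemma GG.inv_j (a : GG) : (a⁻¹).j = -a.j := rfl
@[simp] lemma GG.inv_k (a : GG) : (a⁻¹).k = -a.k + 2 * (a.i * a.j) := rfl
@[simp] lemma GG.inv_m (a : GG) : (a⁻¹).m = -(sg a.k * a.m) := rfl

lemma sg_zero : sg 0 = 1 := rfl

instance : Group GG := Group.ofLeftAxioms
  (fun a b c => by
    ext
    · simp; ring
    · simp; ring
    · simp; ring
    · simp only [GG.mul_m, GG.mul_k, sg_add]; ring)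
  (fun a => by ext <;> simp [sg_zero])
  (fun a => by
    ext
    · simp
    · simp
    · simp
    · simp only [GG.mul_m, GG.inv_m, GG.inv_k, GG.one_m]
      have h : sg (-a.k + 2 * (a.i * a.j)) = sg a.k := by unfold sg; omega
      rw [h]; ring)

instance : Mul HH := ⟨fun a b => ⟨a.i + b.i, a.j + b.j, a.k + b.k + 2 * (a.i * b.j), a.m + b.m⟩⟩
instance : One HH := ⟨⟨0, 0, 0, 0⟩⟩
instance : Inv HH := ⟨fun a => ⟨-a.i, -a.j, -a.k + 2 * (a.i * a.j), -a.m⟩⟩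

@[simp] lemma HH.mul_i (a b : HH) : (a * b).i = a.i + b.i := rfl
@[simp] lemma HH.mul_j (a b : HH) : (a * b).j = a.j + b.j := rfl
@[simp] lemma HH.mul_k (a b : HH) : (a * b).k = a.k + b.k + 2 * (a.i * b.j) := rfl
@[simp] lemma HH.mul_m (a b : HH) : (a * b).m = a.m + b.m := rfl
@[simp] lemma HH.one_i : (1 : HH).i = 0 := rfl
@[simp] lemma HH.one_j : (1 : HH).j = 0 := rfl
@[simp] lemma HH.one_k : (1 : HH).k = 0 := rfl
@[simp] lemma HH.one_m : (1 : HH).m = 0 := rfl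
@[simp] lemma HH.inv_i (a : HH) : (a⁻¹).i = -a.i := rfl
@[simp] lemma HH.inv_j (a : HH) : (a⁻¹).j = -a.j := rfl
@[simp] lemma HH.inv_k (a : HH) : (a⁻¹).k = -a.k + 2 * (a.i * a.j) := rfl
@[simp] lemma HH.inv_m (a : HH) : (a⁻¹).m = -a.m := rfl

instance : Group HH := Group.ofLeftAxioms
  (fun a b c => by ext <;> simp <;> ring)
  (fun a => by ext <;> simp)
  (fun a => by ext <;> simp)

lemma HH.pow_eq (a : HH) (n : ℕ) :
    a ^ n = ⟨n * a.i, n * a.j, n * a.k + n * (n - 1) * (a.i * a.j), n * a.m⟩ := by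
  induction n with
  | zero => ext <;> simp
  | succ n ih => rw [pow_succ, ih]; ext <;> simp <;> ring

def NN : Subgroup GG where
  carrier := {a | a.k % 2 = 0}
  mul_mem' := by
    intro a b ha hb
    simp only [Set.mem_setOf_eq, GG.mul_k] at *
    omega
  one_mem' := by simp
  inv_mem' := by
    intro a ha
    simp only [Set.mem_setOf_eq, GG.inv_k] at *
    omega

lemma mem_NN (a : GG) : a ∈ NN ↔ a.k % 2 = 0 := Iff.rfl

def iota : NN →* HH where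
  toFun x := ⟨x.1.i, x.1.j, x.1.k, x.1.m⟩
  map_one' := by ext <;> simp
  map_mul' x y := by
    have hx : sg x.1.k = 1 := by
      have := (mem_NN _).1 x.2
      unfold sg; omega
    ext <;> simp [hx]

lemma iota_apply (x : NN) : iota x = ⟨x.1.i, x.1.j, x.1.k, x.1.m⟩ := rfl

lemma iota_inj : Function.Injective iota := by
  intro x y h
  rw [iota_apply, iota_apply] at h
  simp only [HH.mk.injEq, Int.cast_inj] at h
  apply Subtype.ext
  ext <;> tauto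

def proj : HH →* Multiplicative (ℚ × ℚ) where
  toFun a := Multiplicative.ofAdd (a.i, a.j)
  map_one' := rfl
  map_mul' _ _ := rfl

instance nilH : Group.IsNilpotent HH := by
  refine Subgroup.isNilpotent_of_ker_le_center proj ?_
  intro a ha
  rw [MonoidHom.mem_ker] at ha
  have h : (a.i, a.j) = (0, 0) := ha
  simp only [Prod.mk.injEq] at h
  rw [Subgroup.mem_center_iff]
  intro b
  ext <;> simp [h.1, h.2] <;> ring

lemma nilN : Group.IsNilpotent NN := by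
  refine Subgroup.isNilpotent_of_ker_le_center iota ?_
  rw [(MonoidHom.ker_eq_bot_iff _).2 iota_inj]
  exact bot_le

def PP : Set GG := {a | 0 < a.i ∨ (a.i = 0 ∧ (0 < a.k ∨ (a.k = 0 ∧ (0 < a.m ∨ (a.m = 0 ∧ 0 < a.j)))))}
def QQ : Set HH := {a | 0 < a.i ∨ (a.i = 0 ∧ (0 < a.k ∨ (a.k = 0 ∧ (0 < a.m ∨ (a.m = 0 ∧ 0 < a.j)))))}

lemma mem_PP (a : GG) : a ∈ PP ↔
  0 < a.i ∨ (a.i = 0 ∧ (0 < a.k ∨ (a.k = 0 ∧ (0 < a.m ∨ (a.m = 0 ∧ 0 < a.j))))) := Iff.rfl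
lemma mem_QQ (a : HH) : a ∈ QQ ↔
  0 < a.i ∨ (a.i = 0 ∧ (0 < a.k ∨ (a.k = 0 ∧ (0 < a.m ∨ (a.m = 0 ∧ 0 < a.j))))) := Iff.rfl

lemma coneP : (∀ a ∈ PP, ∀ b ∈ PP, a * b ∈ PP) ∧ (1 : GG) ∉ PP ∧
    (∀ a : GG, a ≠ 1 → (a ∈ PP ↔ a⁻¹ ∉ PP)) := by
  refine ⟨?_, by simp [mem_PP], ?_⟩
  · intro a ha b hb
    rw [mem_PP] at *
    simp only [GG.mul_i, GG.mul_j, GG.mul_k, GG.mul_m]
    rcases ha with ha | ⟨ha, ha'⟩
    · left; omega
    rcases hb with hb | ⟨hb, hb'⟩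
    · left; omega
    right
    refine ⟨by omega, ?_⟩
    rw [ha]
    rcases ha' with ha' | ⟨ha', ha''⟩
    · left; omega
    rw [ha', sg_zero]
    omega
  · intro a ha
    have hne : ¬ (a.i = 0 ∧ a.j = 0 ∧ a.k = 0 ∧ a.m = 0) := by
      rintro ⟨h1, h2, h3, h4⟩
      exact ha (by ext <;> simp [*])
    rw [mem_PP, mem_PP]
    simp only [GG.inv_i, GG.inv_j, GG.inv_k, GG.inv_m]
    by_cases h1 : a.i = 0
    · rw [h1]
      by_cases h2 : a.k = 0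
      · rw [h2, sg_zero]
        omega
      · omega
    · omega

lemma coneQ : (∀ a ∈ QQ, ∀ b ∈ QQ, a * b ∈ QQ) ∧ (1 : HH) ∉ QQ ∧
    (∀ a : HH, a ≠ 1 → (a ∈ QQ ↔ a⁻¹ ∉ QQ)) := by
  refine ⟨?_, by simp [mem_QQ], ?_⟩
  · intro a ha b hb
    rw [mem_QQ] at *
    simp only [HH.mul_i, HH.mul_j, HH.mul_k, HH.mul_m]
    rcases ha with ha | ⟨ha, ha'⟩
    · left; rcases hb with hb | ⟨hb, -⟩ <;> linarith
    rcases hb with hb | ⟨hb, hb'⟩
    · left; linarith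
    right
    refine ⟨by linarith, ?_⟩
    rw [ha]
    rcases ha' with ha' | ⟨ha', ha''⟩
    · left; rcases hb' with hb' | ⟨hb', -⟩ <;> linarith
    rcases hb' with hb' | ⟨hb', hb''⟩
    · left; linarith
    right
    refine ⟨by linarith, ?_⟩
    rcases ha'' with ha'' | ⟨ha'', ha3⟩
    · left; rcases hb'' with hb'' | ⟨hb'', -⟩ <;> linarith
    rcases hb'' with hb'' | ⟨hb'', hb3⟩
    · left; linarith
    right
    exact ⟨by linarith, by linarith⟩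
  · intro a ha
    have hne : ¬ (a.i = 0 ∧ a.j = 0 ∧ a.k = 0 ∧ a.m = 0) := by
      rintro ⟨h1, h2, h3, h4⟩
      exact ha (by ext <;> simp [*])
    rw [mem_QQ, mem_QQ]
    simp only [HH.inv_i, HH.inv_j, HH.inv_k, HH.inv_m]
    rcases lt_trichotomy a.i 0 with h1 | h1 | h1
    · simp [h1, h1.ne, h1.le, not_lt.2 h1.le]
    · rcases lt_trichotomy a.k 0 with h2 | h2 | h2
      · simp [h1, h2, h2.ne, h2.le, not_lt.2 h2.le]
      · rcases lt_trichotomy a.m 0 with h3 | h3 | h3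
        · simp [h1, h2, h3, h3.ne, h3.le, not_lt.2 h3.le]
        · have h4 : a.j ≠ 0 := fun h => hne ⟨h1, h, h2, h3⟩
          simp only [h1, h2, h3]
          simp only [lt_self_iff_false, true_and, false_or, neg_zero, zero_mul, mul_zero, add_zero,
            Left.neg_pos_iff, not_lt]
          exact ⟨le_of_lt, fun h => lt_of_le_of_ne h h4.symm⟩
        · simp [h1, h2, h3, h3.ne', h3.le, not_lt.2 h3.le]
      · simp [h1, h2, h2.ne', h2.le, not_lt.2 h2.le]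
    · simp [h1, h1.ne', h1.le, not_lt.2 h1.le]

lemma divH (h : HH) (n : ℕ) (hn : 0 < n) : ∃ x : HH, x ^ n = h := by
  have hn' : (n : ℚ) ≠ 0 := by positivity
  refine ⟨⟨h.i / n, h.j / n, (h.k - (n - 1) * (h.i * h.j) / n) / n, h.m / n⟩, ?_⟩
  rw [HH.pow_eq]
  ext <;> simp <;> field_simp
  ring

lemma exists_int (q : ℚ) (d : ℕ) (hd : q.den ∣ d) : ∃ z : ℤ, (z : ℚ) = d * q := by
  obtain ⟨e, rfl⟩ := hd
  refine ⟨e * q.num, ?_⟩
  push_cast
  rw [← Rat.den_mul_eq_num]; ring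

lemma rootH (h : HH) : ∃ n : ℕ, 0 < n ∧ h ^ n ∈ iota.range := by
  set d : ℕ := h.i.den * h.j.den * h.k.den * h.m.den * (h.i * h.j).den with hd
  have hpos : 0 < d := by
    have := h.i.den_pos; have := h.j.den_pos; have := h.k.den_pos; have := h.m.den_pos
    have := (h.i * h.j).den_pos
    positivity
  obtain ⟨z1, h1⟩ := exists_int h.i d ⟨h.j.den * h.k.den * h.m.den * (h.i * h.j).den, by rw [hd]; ring⟩
  obtain ⟨z2, h2⟩ := exists_int h.j d ⟨h.i.den * h.k.den * h.m.den * (h.i * h.j).den, by rw [hd]; ring⟩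
  obtain ⟨z3, h3⟩ := exists_int h.k d ⟨h.i.den * h.j.den * h.m.den * (h.i * h.j).den, by rw [hd]; ring⟩
  obtain ⟨z4, h4⟩ := exists_int h.m d ⟨h.i.den * h.j.den * h.k.den * (h.i * h.j).den, by rw [hd]; ring⟩
  obtain ⟨z5, h5⟩ := exists_int (h.i * h.j) d ⟨h.i.den * h.j.den * h.k.den * h.m.den, by rw [hd]; ring⟩
  refine ⟨2 * d, by omega, ⟨⟨2 * z1, 2 * z2, 2 * (z3 + (2 * d - 1) * z5), 2 * z4⟩, ?_⟩, ?_⟩
  · rw [mem_NN]; simp
  · rw [iota_apply, HH.pow_eq]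
    ext <;> push_cast
    · rw [h1]; ring
    · rw [h2]; ring
    · rw [h3, h5]; ring
    · rw [h4]; ring

/-- The negation of the preceding statement: Take a group G with a right-order cone P, a nilpotent subgroup N, its minimal divisible completion N# with a cone extending P∩N, and g in N#. Then the cone on N cut out by the g-conjugate of that cone is the restriction of some right-order cone on G. -/
theorem result :
    ¬ (∀ (G : Type) [Group G] (N : Subgroup G), Group.IsNilpotent N →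
    ∀ (P : Set G),
      ((∀ a ∈ P, ∀ b ∈ P, a * b ∈ P) ∧ (1 : G) ∉ P ∧ (∀ a : G, a ≠ 1 → (a ∈ P ↔ a⁻¹ ∉ P))) →
    ∀ (H : Type) [Group H], Group.IsNilpotent H →
      (∀ h : H, ∀ n : ℕ, 0 < n → ∃ x : H, x ^ n = h) →
    ∀ (ι : N →* H), Function.Injective ι →
      (∀ h : H, ∃ n : ℕ, 0 < n ∧ h ^ n ∈ ι.range) →
    ∀ (Q : Set H),
      ((∀ a ∈ Q, ∀ b ∈ Q, a * b ∈ Q) ∧ (1 : H) ∉ Q ∧ (∀ a : H, a ≠ 1 → (a ∈ Q ↔ a⁻¹ ∉ Q))) →
      (∀ x : N, ι x ∈ Q ↔ (x : G) ∈ P) →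
    ∀ g : H, ∃ R : Set G,
      ((∀ a ∈ R, ∀ b ∈ R, a * b ∈ R) ∧ (1 : G) ∉ R ∧ (∀ a : G, a ≠ 1 → (a ∈ R ↔ a⁻¹ ∉ R))) ∧
      (∀ x : N, (x : G) ∈ R ↔ g⁻¹ * ι x * g ∈ Q)) := by
  intro hall
  obtain ⟨R, ⟨hmul, hone, hinv⟩, hR⟩ := hall GG NN nilN PP coneP HH nilH divH iota iota_inj rootH QQ coneQ
    (fun x => by rw [iota_apply, mem_QQ, mem_PP]; simp) ⟨1 / 2, 0, 0, 0⟩
  have hw : (⟨0, 2, 2, 0⟩ : GG) ∈ R := by
    refine (hR ⟨⟨0, 2, 2, 0⟩, by rw [mem_NN]; simp⟩).2 ?_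
    rw [iota_apply, mem_QQ]; simp
  have hw' : (⟨0, 2, 2, -1⟩ : GG) ∉ R := by
    intro h
    have := (hR ⟨⟨0, 2, 2, -1⟩, by rw [mem_NN]; simp⟩).1 h
    rw [iota_apply, mem_QQ] at this
    simp at this
    norm_num at this
  have key : ∀ a : GG, a * a = ⟨0, 2, 2, 0⟩ → a ∈ R := by
    intro a ha
    have hne : a ≠ 1 := by
      rintro rfl
      have := congrArg GG.j ha
      simp at this
    rw [hinv a hne]
    intro hi
    apply hone
    have := hmul _ (hmul _ hi _ hi) _ hw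
    rw [← ha] at this
    simpa [mul_assoc] using this
  have h1 := key ⟨0, 1, 1, 0⟩ (by ext <;> simp)
  have h2 := key ⟨0, 1, 1, 1⟩ (by ext <;> simp [sg])
  apply hw'
  have := hmul _ h1 _ h2
  have e : (⟨0, 1, 1, 0⟩ : GG) * ⟨0, 1, 1, 1⟩ = ⟨0, 2, 2, -1⟩ := by ext <;> simp [sg]
  rwa [e] at this

end Pool.Agent.S00882
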