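import Pool.Statements.S00949
import Pool.Agent.H3.ProB

set_option autoImplicit false
open N5f09da3c
open Pool Pool.MP_23b8d1_al

namespace Pool.Agent.S00949

/-- There exists a group G that is simple (nontrivial, only trivial normal subgroups) such that every bi-invariant (left and right translation invariant) partial order on G is contained in a bi-invariant linear order. -/
theorem result :
    ∃ (G : Type*) (_ : Group G), IsSimpleGroup G ∧ ProOrderable G := by
  haveI := H3.Pro.simple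
  refine ⟨ULift H3.Pro.GG, inferInstance, MulEquiv.ulift.isSimpleGroup, ?_⟩
  intro r hr hb
  have one : ∀ a b, r a b → r 1 (a⁻¹ * b) := fun a b h => by simpa using hb.1 a⁻¹ a b h
  obtain ⟨Q, q1, q2, q3, q4, q5⟩ := H3.Pro.main
    (P := {f | ∃ x : ULift H3.Pro.GG, r 1 x ∧ (x.down : H3.Pro.A) = f})
    (by rintro _ ⟨x, -, rfl⟩; exact x.down.2) ⟨1, hr.refl 1, rfl⟩
    (by
      rintro _ ⟨x, hx, rfl⟩ _ ⟨y, hy, rfl⟩
      exact ⟨x * y, hr.trans _ _ _ hx (by simpa using hb.1 x _ _ hy), rfl⟩)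
    (by
      rintro _ ⟨x, hx, rfl⟩ g hg
      exact ⟨⟨⟨g, hg⟩⟩ * x * (⟨⟨g, hg⟩⟩ : ULift H3.Pro.GG)⁻¹, by
        simpa using hb.2 (⟨⟨g, hg⟩⟩ : ULift H3.Pro.GG)⁻¹ _ _ (hb.1 ⟨⟨g, hg⟩⟩ _ _ hx), rfl⟩)
    (by
      rintro _ ⟨x, hx, rfl⟩ ⟨y, hy, e⟩
      have e' : y = x⁻¹ := ULift.ext _ _ (Subtype.ext e)
      subst e'
      have : x = 1 := hr.antisymm _ _ (by simpa using hb.1 x _ _ hy) hx
      rw [this]; rfl)
  refine ⟨fun a b => (a.down : H3.Pro.A)⁻¹ * b.down ∈ Q,
    { refl := fun a => by simpa using q1 ⟨1, hr.refl 1, rfl⟩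
      trans := fun a b c h1 h2 => by simpa [mul_assoc] using q2 _ h1 _ h2
      antisymm := fun a b h1 h2 => ULift.ext _ _ (Subtype.ext
        (inv_mul_eq_one.1 (q4 _ h1 (by simpa using h2))))
      total := fun a b => by
        simpa using q5 _ (H3.Pro.GG_le (H3.Pro.GG.mul_mem (H3.Pro.GG.inv_mem a.down.2) b.down.2)) },
    ⟨fun g a b h => by simpa [ULift.mul_down, mul_assoc] using h, fun g a b h => by
      simpa [ULift.mul_down, mul_assoc] using q3 _ h _ (H3.Pro.GG_le (H3.Pro.GG.inv_mem g.down.2))⟩,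
    fun x y h => q1 ⟨_, one x y h, rfl⟩⟩

end Pool.Agent.S00949
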