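import Pool.Statements.S00960
import Pool.Agent.H23.Tod

set_option autoImplicit false
open Pool Pool.MP_2475ca_al

namespace Pool.Agent.S00960

/-- The negation of the preceding statement: There exist M < G acting on n points with M transitive, and a partition of ordered distinct pairs into k ≥ 2 classes, G-invariant, G-transitive, each fixed by M, with G inducing a non-cyclic group on the classes and some prime part of n not ≡ 1 mod k. -/
theorem result :
    ¬ (∃ (n k : ℕ) (M G : Subgroup (Equiv.Perm (Fin n))) (c : Fin n → Fin n → Fin k),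
    2 ≤ k ∧ M < G ∧
    (∀ a b : Fin n, ∃ m ∈ M, m a = b) ∧
    (∀ i : Fin k, ∃ a b : Fin n, a ≠ b ∧ c a b = i) ∧
    (∀ g ∈ G, ∃ σ : Equiv.Perm (Fin k),
      ∀ a b : Fin n, a ≠ b → c (g a) (g b) = σ (c a b)) ∧
    (∀ i j : Fin k, ∃ g ∈ G,
      ∀ a b : Fin n, a ≠ b → c a b = i → c (g a) (g b) = j) ∧
    (∀ m ∈ M, ∀ a b : Fin n, a ≠ b → c (m a) (m b) = c a b) ∧
    (¬ ∃ τ : Equiv.Perm (Fin k), ∀ g ∈ G, ∃ z : ℤ,
      ∀ a b : Fin n, a ≠ b → c (g a) (g b) = (τ ^ z) (c a b)) ∧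
    (∃ r : ℕ, r.Prime ∧ r ∣ n ∧ ¬ Nat.ModEq k (r ^ (n.factorization r)) 1)) := by
  rintro ⟨n, k, M, G, c, hk, hMG, hM, hsurj, hG, htr, hfix, -, r, hr, hrn, hne⟩
  choose σ hσ using hG
  letI act : MulAction G (Fin k) :=
    { smul := fun g i => σ g g.2 i
      one_smul := fun i => by
        obtain ⟨a, b, hab, rfl⟩ := hsurj i
        exact (hσ _ (1 : G).2 a b hab).symm
      mul_smul := fun g h i => by
        obtain ⟨a, b, hab, rfl⟩ := hsurj i
        show σ _ (g * h).2 (c a b) = σ _ g.2 (σ _ h.2 (c a b))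
        rw [← hσ _ (g * h).2 a b hab, ← hσ _ h.2 a b hab,
          ← hσ _ g.2 _ _ (fun e => hab ((h : Equiv.Perm (Fin n)).injective e))]
        rfl }
  have hc : ∀ (g : G) (a b : Fin n), a ≠ b → c (g • a) (g • b) = g • c a b :=
    fun g a b hab => hσ _ g.2 a b hab
  obtain ⟨a0, -, -⟩ := hsurj ⟨0, by omega⟩
  have : Nonempty (Fin n) := ⟨a0⟩
  have key := H23.Tod.main c hc (MulAction.toPermHom G (Fin k)).ker
    (fun l hl x => congrArg (fun f : Equiv.Perm (Fin k) => f x) (MonoidHom.mem_ker.mp hl))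
    (fun a b => by
      obtain ⟨m, hm, e⟩ := hM a b
      refine ⟨⟨m, hMG.le hm⟩, MonoidHom.mem_ker.mpr (Equiv.ext fun i => ?_), e⟩
      obtain ⟨a, b, hab, rfl⟩ := hsurj i
      exact (hc ⟨m, hMG.le hm⟩ a b hab).symm.trans (hfix m hm a b hab))
    (fun i j => by
      obtain ⟨g, hg, e⟩ := htr i j
      obtain ⟨a, b, hab, rfl⟩ := hsurj i
      exact ⟨⟨g, hg⟩, (hc ⟨g, hg⟩ a b hab).symm.trans (e a b hab rfl)⟩) hr
  rw [Nat.card_eq_fintype_card, Nat.card_eq_fintype_card, Fintype.card_fin, Fintype.card_fin] at key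
  exact hne ((Nat.modEq_iff_dvd' (Nat.one_le_pow _ _ hr.pos)).mpr key).symm

end Pool.Agent.S00960
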