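import Pool.Statements.S00995

set_option autoImplicit false
open Pool Pool.MP_271f28_al

namespace Pool.Agent.S00995

section
variable {S : Type} [Semigroup S] (T : Subsemigroup S)

def T1 : Submonoid (WithOne S) where
  carrier := {u | u = 1 ∨ ∃ t ∈ T, u = (t : WithOne S)}
  one_mem' := Or.inl rfl
  mul_mem' := by
    rintro a b (rfl | ⟨s, hs, rfl⟩) (rfl | ⟨t, ht, rfl⟩)
    · exact Or.inl (one_mul _)
    · exact Or.inr ⟨t, ht, one_mul _⟩
    · exact Or.inr ⟨s, hs, mul_one _⟩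
    · exact Or.inr ⟨s * t, T.mul_mem hs ht, rfl⟩

theorem mem_T1 {u : WithOne S} : u ∈ T1 T ↔ u = 1 ∨ ∃ t ∈ T, u = (t : WithOne S) := Iff.rfl

theorem coe_mem_T1 {x : S} : (x : WithOne S) ∈ T1 T ↔ x ∈ T := by
  rw [mem_T1]
  simp

def cls (x : S) : Set S := {y : S |
  insert x ((fun t => x * t) '' (T : Set S)) = insert y ((fun t => y * t) '' (T : Set S)) ∧
  insert x ((fun t => t * x) '' (T : Set S)) = insert y ((fun t => t * y) '' (T : Set S))}

theorem mem_sR {x z : S} : z ∈ insert x ((fun t => x * t) '' (T : Set S)) ↔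
    ∃ u ∈ T1 T, (z : WithOne S) = x * u := by
  constructor
  · rintro (rfl | ⟨t, ht, rfl⟩)
    · exact ⟨1, one_mem _, (mul_one _).symm⟩
    · exact ⟨t, (coe_mem_T1 T).2 ht, rfl⟩
  · rintro ⟨u, rfl | ⟨t, ht, rfl⟩, h⟩
    · exact Or.inl (by simpa using h)
    · exact Or.inr ⟨t, ht, by exact_mod_cast h.symm⟩

theorem mem_sL {x z : S} : z ∈ insert x ((fun t => t * x) '' (T : Set S)) ↔
    ∃ u ∈ T1 T, (z : WithOne S) = u * x := by
  constructor
  · rintro (rfl | ⟨t, ht, rfl⟩)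
    · exact ⟨1, one_mem _, (one_mul _).symm⟩
    · exact ⟨t, (coe_mem_T1 T).2 ht, rfl⟩
  · rintro ⟨u, rfl | ⟨t, ht, rfl⟩, h⟩
    · exact Or.inl (by simpa using h)
    · exact Or.inr ⟨t, ht, by exact_mod_cast h.symm⟩

theorem mem_cls {x y : S} : y ∈ cls T x ↔
    (∃ u ∈ T1 T, (y : WithOne S) = x * u) ∧ (∃ u ∈ T1 T, (x : WithOne S) = y * u) ∧
    (∃ u ∈ T1 T, (y : WithOne S) = u * x) ∧ (∃ u ∈ T1 T, (x : WithOne S) = u * y) := by
  constructor
  · rintro ⟨h1, h2⟩
    refine ⟨(mem_sR T).1 ?_, (mem_sR T).1 ?_, (mem_sL T).1 ?_, (mem_sL T).1 ?_⟩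
    · rw [h1]; exact Set.mem_insert _ _
    · rw [← h1]; exact Set.mem_insert _ _
    · rw [h2]; exact Set.mem_insert _ _
    · rw [← h2]; exact Set.mem_insert _ _
  · rintro ⟨⟨a, ha, ea⟩, ⟨b, hb, eb⟩, ⟨c, hc, ec⟩, ⟨d, hd, ed⟩⟩
    constructor
    · ext z
      rw [mem_sR, mem_sR]
      constructor
      · rintro ⟨u, hu, e⟩
        exact ⟨b * u, mul_mem hb hu, by rw [e, eb, mul_assoc]⟩
      · rintro ⟨u, hu, e⟩
        exact ⟨a * u, mul_mem ha hu, by rw [e, ea, mul_assoc]⟩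
    · ext z
      rw [mem_sL, mem_sL]
      constructor
      · rintro ⟨u, hu, e⟩
        exact ⟨u * d, mul_mem hu hd, by rw [e, ed, mul_assoc]⟩
      · rintro ⟨u, hu, e⟩
        exact ⟨u * c, mul_mem hu hc, by rw [e, ec, mul_assoc]⟩

theorem self_mem_cls (x : S) : x ∈ cls T x := ⟨rfl, rfl⟩

theorem cls_eq {x y : S} (h : y ∈ cls T x) : cls T y = cls T x := by
  ext z
  exact ⟨fun hz => ⟨h.1.trans hz.1, h.2.trans hz.2⟩,
    fun hz => ⟨h.1.symm.trans hz.1, h.2.symm.trans hz.2⟩⟩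

theorem not_mem_of_cls {x y : S} (h : y ∈ cls T x) (hx : x ∉ T) : y ∉ T := by
  intro hy
  obtain ⟨-, ⟨u, hu, e⟩, -⟩ := (mem_cls T).1 h
  exact hx ((coe_mem_T1 T).1 (e ▸ mul_mem ((coe_mem_T1 T).2 hy) hu))

theorem map_T1 (φ : S →ₙ* S) (hφ : ∀ s ∈ T, φ s ∈ T) {u : WithOne S} (hu : u ∈ T1 T) :
    WithOne.mapMulHom φ u ∈ T1 T := by
  rcases hu with rfl | ⟨t, ht, rfl⟩
  · rw [map_one]; exact one_mem _
  · exact (coe_mem_T1 T).2 (hφ t ht)

theorem map_cls (φ : S →ₙ* S) (hφ : ∀ s ∈ T, φ s ∈ T) {x y : S} (h : y ∈ cls T x) :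
    φ y ∈ cls T (φ x) := by
  obtain ⟨⟨a, ha, ea⟩, ⟨b, hb, eb⟩, ⟨c, hc, ec⟩, ⟨d, hd, ed⟩⟩ := (mem_cls T).1 h
  refine (mem_cls T).2 ⟨⟨_, map_T1 T φ hφ ha, ?_⟩, ⟨_, map_T1 T φ hφ hb, ?_⟩,
    ⟨_, map_T1 T φ hφ hc, ?_⟩, ⟨_, map_T1 T φ hφ hd, ?_⟩⟩
  · simpa using congrArg (WithOne.mapMulHom φ) ea
  · simpa using congrArg (WithOne.mapMulHom φ) eb
  · simpa using congrArg (WithOne.mapMulHom φ) ec
  · simpa using congrArg (WithOne.mapMulHom φ) ed

theorem green_aux {h h' z z' : S} {u : WithOne S} (hu : u ∈ T1 T) (hh : h' ∈ cls T h)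
    (e : (h' : WithOne S) = h * u) (hz : z ∈ cls T h) (e' : (z' : WithOne S) = z * u) :
    z' ∈ cls T h := by
  obtain ⟨-, ⟨w, hw, ew⟩, ⟨c, hc, ec⟩, ⟨d, hd, ed⟩⟩ := (mem_cls T).1 hh
  obtain ⟨⟨a, ha, ea⟩, ⟨b, hb, eb⟩, ⟨v, hv, ev⟩, ⟨v', hv', ev'⟩⟩ := (mem_cls T).1 hz
  have e1 : (z' : WithOne S) = v * h' := by rw [e', ev, e, mul_assoc]
  have e2 : (z : WithOne S) = z' * w := by rw [e1, mul_assoc, ← ew, ev]
  have e3 : (h' : WithOne S) = v' * z' := by rw [e', ← mul_assoc, ← ev', e]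
  exact (mem_cls T).2 ⟨⟨a * u, mul_mem ha hu, by rw [e', ea, mul_assoc]⟩,
    ⟨w * b, mul_mem hw hb, by rw [← mul_assoc, ← e2, eb]⟩,
    ⟨v * c, mul_mem hv hc, by rw [e1, ec, mul_assoc]⟩,
    ⟨d * v', mul_mem hd hv', by rw [mul_assoc, ← e3, ed]⟩⟩

theorem exists_coe (z : S) (u : WithOne S) : ∃ z' : S, (z' : WithOne S) = z * u := by
  induction u using WithOne.recOneCoe with
  | one => exact ⟨z, (mul_one _).symm⟩
  | coe t => exact ⟨z * t, rfl⟩

def St (H : Set S) : Submonoid (WithOne S) := Submonoid.closure {u : WithOne S | u = 1 ∨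
  ∃ t ∈ T, u = (t : WithOne S) ∧ (fun h => h * t) '' H = H}

theorem St_prop {H : Set S} {u : WithOne S} (hu : u ∈ St T H) :
    u ∈ T1 T ∧ ∀ h ∈ H, ∃ h' ∈ H, (h' : WithOne S) = h * u := by
  induction hu using Submonoid.closure_induction with
  | mem u hu =>
    rcases hu with rfl | ⟨t, ht, rfl, e⟩
    · exact ⟨one_mem _, fun h hh => ⟨h, hh, (mul_one _).symm⟩⟩
    · exact ⟨(coe_mem_T1 T).2 ht, fun h hh => ⟨h * t, e ▸ ⟨h, hh, rfl⟩, rfl⟩⟩
  | one => exact ⟨one_mem _, fun h hh => ⟨h, hh, (mul_one _).symm⟩⟩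
  | mul a b _ _ ha hb =>
    refine ⟨mul_mem ha.1 hb.1, fun h hh => ?_⟩
    obtain ⟨h1, hh1, e1⟩ := ha.2 h hh
    obtain ⟨h2, hh2, e2⟩ := hb.2 h1 hh1
    exact ⟨h2, hh2, by rw [e2, e1, mul_assoc]⟩

theorem green {x h h' : S} {u : WithOne S} (hu : u ∈ T1 T) (hh : h ∈ cls T x)
    (hh' : h' ∈ cls T x) (e : (h' : WithOne S) = h * u) : u ∈ St T (cls T x) := by
  rw [← cls_eq T hh] at hh' ⊢
  apply Submonoid.subset_closure
  rcases id hu with rfl | ⟨t, ht, rfl⟩
  · exact Or.inl rfl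
  refine Or.inr ⟨t, ht, rfl, ?_⟩
  ext z
  constructor
  · rintro ⟨z, hz, rfl⟩
    exact green_aux T hu hh' e hz rfl
  · intro hz
    obtain ⟨-, ⟨w, hw, ew⟩, -⟩ := (mem_cls T).1 hh'
    rw [← cls_eq T hh'] at hz ⊢
    obtain ⟨-, -, ⟨v, hv, ev⟩, -⟩ := (mem_cls T).1 hz
    obtain ⟨z0, e0⟩ := exists_coe z w
    refine ⟨z0, green_aux T hw ((cls_eq T hh').symm ▸ self_mem_cls T h) ew hz e0, ?_⟩
    have : ((z0 * t : S) : WithOne S) = z := by
      rw [WithOne.coe_mul, e0, ev, mul_assoc v, ← ew, mul_assoc, ← e]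
    exact_mod_cast this

def sig (H : Set S) : Con (St T H) where
  r a b := ∀ h ∈ H, (h : WithOne S) * (a : WithOne S) = (h : WithOne S) * (b : WithOne S)
  iseqv := ⟨fun _ _ _ => rfl, fun e h hh => (e h hh).symm,
    fun e e' h hh => (e h hh).trans (e' h hh)⟩
  mul' := by
    intro a b c d e e' h hh
    obtain ⟨h', hh', e1⟩ := (St_prop T b.2).2 h hh
    rw [Submonoid.coe_mul, Submonoid.coe_mul, ← mul_assoc, ← mul_assoc, e h hh, ← e1, e' h' hh']

theorem sig_of_point {x h : S} (hh : h ∈ cls T x) {a b : St T (cls T x)}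
    (e : (h : WithOne S) * (a : WithOne S) = (h : WithOne S) * (b : WithOne S)) :
    sig T (cls T x) a b := by
  intro z hz
  rw [← cls_eq T hh] at hz
  obtain ⟨-, -, ⟨v, -, ev⟩, -⟩ := (mem_cls T).1 hz
  rw [ev, mul_assoc, e, mul_assoc]

theorem inj_of_fix (hT : ∀ f : T →ₙ* T, Function.Surjective f → Function.Injective f)
    (hG : ∀ x, x ∉ T → ∀ f : (sig T (cls T x)).Quotient →* (sig T (cls T x)).Quotient,
      Function.Surjective f → Function.Injective f)
    (φ : S →ₙ* S) (hs : Function.Surjective φ) (h1 : ∀ s, φ s ∈ T ↔ s ∈ T)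
    (h2 : ∀ x, x ∉ T → φ x ∈ cls T x) : Function.Injective φ := by
  intro x y hxy
  by_cases hx : x ∈ T
  · have hy : y ∈ T := by rw [← h1, ← hxy, h1]; exact hx
    let g : T →ₙ* T := ⟨fun t => ⟨φ t, (h1 _).2 t.2⟩, fun a b => Subtype.ext (map_mul φ _ _)⟩
    have hg : Function.Surjective g := by
      intro t
      obtain ⟨s, e⟩ := hs t
      exact ⟨⟨s, (h1 s).1 (e ▸ t.2)⟩, Subtype.ext e⟩
    exact congrArg Subtype.val (hT g hg (a₁ := ⟨x, hx⟩) (a₂ := ⟨y, hy⟩) (Subtype.ext hxy))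
  have hy : y ∉ T := by rw [← h1, ← hxy, h1]; exact hx
  have hback : ∀ z, φ z ∈ cls T x → z ∈ cls T x := by
    intro z hz
    have hzT : z ∉ T := by rw [← h1]; exact not_mem_of_cls T hz hx
    rw [← cls_eq T hz, cls_eq T (h2 z hzT)]
    exact self_mem_cls T z
  have hfor : ∀ z, z ∈ cls T x → φ z ∈ cls T x := by
    intro z hz
    rw [← cls_eq T hz]
    exact h2 z (not_mem_of_cls T hz hx)
  have hmap : ∀ u ∈ St T (cls T x), WithOne.mapMulHom φ u ∈ St T (cls T x) := by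
    intro u hu
    obtain ⟨h', hh', e⟩ := (St_prop T hu).2 x (self_mem_cls T x)
    refine green T (map_T1 T φ (fun s => (h1 s).2) (St_prop T hu).1) (h2 x hx) (hfor h' hh') ?_
    simpa using congrArg (WithOne.mapMulHom φ) e
  let ψ : St T (cls T x) →* St T (cls T x) := (WithOne.mapMulHom φ).restrict hmap
  have hψ : ∀ a, (ψ a : WithOne S) = WithOne.mapMulHom φ a := fun _ => rfl
  let F : (sig T (cls T x)).Quotient →* (sig T (cls T x)).Quotient :=
    (sig T (cls T x)).lift ((sig T (cls T x)).mk'.comp ψ) (by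
      intro a b hab
      rw [Con.ker_rel]
      refine (sig T (cls T x)).eq.2 (sig_of_point T (h2 x hx) ?_)
      simpa [hψ] using congrArg (WithOne.mapMulHom φ) (hab x (self_mem_cls T x)))
  have hF : ∀ a : St T (cls T x), F (a : (sig T (cls T x)).Quotient) =
      (ψ a : (sig T (cls T x)).Quotient) := fun _ => rfl
  have hFs : Function.Surjective F := by
    intro q
    obtain ⟨u, rfl⟩ := (sig T (cls T x)).mk'_surjective q
    obtain ⟨z, hz, e⟩ := (St_prop T u.2).2 (φ x) (h2 x hx)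
    obtain ⟨z', rfl⟩ := hs z
    have hz' := hback z' hz
    obtain ⟨⟨t, ht, et⟩, -⟩ := (mem_cls T).1 hz'
    refine ⟨((⟨t, green T ht (self_mem_cls T x) hz' et⟩ : St T (cls T x)) :
      (sig T (cls T x)).Quotient), ?_⟩
    rw [hF]
    refine (sig T (cls T x)).eq.2 (sig_of_point T (h2 x hx) ?_)
    rw [← e, hψ]
    simpa using (congrArg (WithOne.mapMulHom φ) et).symm
  have hyx : y ∈ cls T x := hback y (hxy ▸ h2 x hx)
  obtain ⟨⟨t, ht, et⟩, -⟩ := (mem_cls T).1 hyx
  have key := hG x hx F hFs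
    (a₁ := ((⟨t, green T ht (self_mem_cls T x) hyx et⟩ : St T (cls T x)) :
      (sig T (cls T x)).Quotient))
    (a₂ := ((1 : St T (cls T x)) : (sig T (cls T x)).Quotient)) (by
      rw [hF, hF]
      refine (sig T (cls T x)).eq.2 (sig_of_point T (h2 x hx) ?_)
      rw [hψ, hψ]
      simpa [hxy] using (congrArg (WithOne.mapMulHom φ) et).symm)
  have := (sig T (cls T x)).eq.1 key x (self_mem_cls T x)
  have e2 : (x : WithOne S) = y := by
    rw [et]
    simpa using this.symm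
  exact_mod_cast e2

def iter (f : S →ₙ* S) (k : ℕ) : S →ₙ* S where
  toFun := f^[k]
  map_mul' a b := by
    induction k with
    | zero => rfl
    | succ k ih => rw [Function.iterate_succ_apply', ih, map_mul, Function.iterate_succ_apply',
        Function.iterate_succ_apply']

theorem pigeon {β : Type} [Finite β] (g : ℕ → β) : ∃ k m, 0 < m ∧ g k = g (m + k) := by
  obtain ⟨a, b, hab, e⟩ := Finite.exists_ne_map_eq_of_infinite g
  rcases lt_or_gt_of_ne hab with h | h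
  · exact ⟨a, b - a, by omega, by rw [e, Nat.sub_add_cancel h.le]⟩
  · exact ⟨b, a - b, by omega, by rw [← e, Nat.sub_add_cancel h.le]⟩

def Lang (m : WithOne S) : Set (WithOne S) := {b | m * b ∉ T1 T}

theorem finite_Lang (hfin : Set.Finite {C : Set S | ∃ x : S, x ∉ T ∧ C = cls T x}) :
    (Set.range (Lang T)).Finite := by
  refine ((hfin.image fun C : Set S =>
    {b : WithOne S | ∃ y : S, y ∈ C ∧ (y : WithOne S) * b ∉ T1 T}).union
    (hfin.finite_subsets.image fun D : Set (Set S) =>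
      {b : WithOne S | ∃ C ∈ D, ∃ y : S, y ∈ C ∧ b = (y : WithOne S)})).subset ?_
  rintro _ ⟨m, rfl⟩
  have hcoe : ∀ b : WithOne S, b ∉ T1 T → ∃ y : S, y ∉ T ∧ b = y := by
    intro b hb
    induction b using WithOne.recOneCoe with
    | one => exact absurd (one_mem _) hb
    | coe y => exact ⟨y, fun h => hb ((coe_mem_T1 T).2 h), rfl⟩
  by_cases hm : m ∈ T1 T
  · right
    refine ⟨{C | ∃ x : S, (x : WithOne S) ∈ Lang T m ∧ C = cls T x}, ?_, ?_⟩
    · rintro C ⟨x, hx, rfl⟩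
      exact ⟨x, fun h => hx (mul_mem hm ((coe_mem_T1 T).2 h)), rfl⟩
    · ext b
      constructor
      · rintro ⟨C, ⟨x, hx, rfl⟩, y, hy, rfl⟩ h
        obtain ⟨-, ⟨u, hu, e⟩, -⟩ := (mem_cls T).1 hy
        exact hx (by rw [e, ← mul_assoc]; exact mul_mem h hu)
      · intro hb
        obtain ⟨y, -, rfl⟩ := hcoe b fun h => hb (mul_mem hm h)
        exact ⟨cls T y, ⟨y, hb, rfl⟩, y, self_mem_cls T y, rfl⟩
  · left
    obtain ⟨x, hx, rfl⟩ := hcoe m hm
    refine ⟨cls T x, ⟨x, hx, rfl⟩, ?_⟩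
    ext b
    constructor
    · rintro ⟨y, hy, h⟩ h'
      obtain ⟨-, -, ⟨u, hu, e⟩, -⟩ := (mem_cls T).1 hy
      exact h (by rw [e, mul_assoc]; exact mul_mem hu h')
    · intro hb
      exact ⟨x, self_mem_cls T x, hb⟩

def act (a : WithOne S) (L : Set.range (Lang T)) : Set.range (Lang T) :=
  ⟨{b | a * b ∈ L.1}, by
    obtain ⟨_, m, rfl⟩ := L
    exact ⟨m * a, by ext b; simp [Lang, mul_assoc]⟩⟩

theorem act_mul (a b : WithOne S) : act T (a * b) = act T b ∘ act T a := by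
  funext L
  apply Subtype.ext
  ext c
  simp [act, mul_assoc]

theorem exists_pow_pres (hfg : ∃ F : Finset S, Subsemigroup.closure (↑F : Set S) = T)
    (hfin : Set.Finite {C : Set S | ∃ x : S, x ∉ T ∧ C = cls T x})
    (f : S →ₙ* S) (hs : Function.Surjective f) :
    ∃ m, 0 < m ∧ ∀ s, f^[m] s ∈ T ↔ s ∈ T := by
  obtain ⟨F, hF⟩ := hfg
  have := (finite_Lang T hfin).to_subtype
  have := hfin.to_subtype
  choose rep hrep using fun C : {C : Set S | ∃ x : S, x ∉ T ∧ C = cls T x} => C.2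
  obtain ⟨k, m, hm, e⟩ := pigeon fun k =>
    ((fun x : F => act T (iter f k x : S)), (fun C => act T (iter f k (rep C) : S)))
  have hmul : ∀ a b : S, act T (iter f k a : S) = act T (iter f (m + k) a : S) →
      act T (iter f k b : S) = act T (iter f (m + k) b : S) →
      act T (iter f k (a * b) : S) = act T (iter f (m + k) (a * b) : S) := by
    intro a b ha hb
    rw [map_mul, map_mul, WithOne.coe_mul, WithOne.coe_mul, act_mul, act_mul, ha, hb]
  have hTT : ∀ a ∈ T, act T (iter f k a : S) = act T (iter f (m + k) a : S) := by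
    intro a ha
    rw [← hF] at ha
    induction ha using Subsemigroup.closure_induction with
    | mem x hx => exact congrFun (congrArg Prod.fst e) ⟨x, hx⟩
    | mul a b _ _ ha hb => exact hmul a b ha hb
  have hall : ∀ a, act T (iter f k a : S) = act T (iter f (m + k) a : S) := by
    intro a
    by_cases ha : a ∈ T
    · exact hTT a ha
    have h1 : act T (iter f k (rep ⟨cls T a, a, ha, rfl⟩) : S) =
        act T (iter f (m + k) (rep ⟨cls T a, a, ha, rfl⟩) : S) :=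
      congrFun (congrArg Prod.snd e) ⟨cls T a, a, ha, rfl⟩
    have h2 : a ∈ cls T (rep ⟨cls T a, a, ha, rfl⟩) := (hrep _).2 ▸ self_mem_cls T a
    have h3 : a ∈ insert (rep ⟨cls T a, a, ha, rfl⟩)
        ((fun t => rep ⟨cls T a, a, ha, rfl⟩ * t) '' (T : Set S)) := by
      rw [h2.1]; exact Set.mem_insert _ _
    generalize rep ⟨cls T a, a, ha, rfl⟩ = r at h1 h3
    rcases h3 with rfl | ⟨t, ht, rfl⟩
    · exact h1
    · exact hmul r t h1 (hTT t ht)
  refine ⟨m, hm, fun s => ?_⟩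
  obtain ⟨a, rfl⟩ := hs.iterate k s
  have h1 := congrArg (fun g => (1 : WithOne S) ∈ (g ⟨Lang T 1, 1, rfl⟩).1) (hall a)
  simp only [act, Lang, Set.mem_ofPred_eq, one_mul, mul_one, coe_mem_T1, eq_iff_iff, not_iff_not]
    at h1
  rw [← Function.iterate_add_apply]
  exact h1.symm

theorem exists_pow_fix (hfin : Set.Finite {C : Set S | ∃ x : S, x ∉ T ∧ C = cls T x})
    (f : S →ₙ* S) (hs : Function.Surjective f) (h1 : ∀ s, f s ∈ T ↔ s ∈ T) :
    ∃ m, 0 < m ∧ ∀ x, x ∉ T → f^[m] x ∈ cls T x := by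
  have := hfin.to_subtype
  have hit : ∀ k s, f^[k] s ∈ T ↔ s ∈ T := by
    intro k
    induction k with
    | zero => simp
    | succ k ih => intro s; rw [Function.iterate_succ_apply', h1, ih]
  choose rep hrep using fun C : {C : Set S | ∃ x : S, x ∉ T ∧ C = cls T x} => C.2
  obtain ⟨k, m, hm, e⟩ := pigeon fun k => fun C =>
    (⟨cls T (f^[k] (rep C)), _, (hit k _).not.2 (hrep C).1, rfl⟩ :
      {C : Set S | ∃ x : S, x ∉ T ∧ C = cls T x})
  refine ⟨m, hm, fun x hx => ?_⟩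
  obtain ⟨a, rfl⟩ := hs.iterate k x
  have ha : a ∉ T := (hit k a).not.1 hx
  have h2 : cls T (iter f k (rep ⟨cls T a, a, ha, rfl⟩)) =
      cls T (iter f (m + k) (rep ⟨cls T a, a, ha, rfl⟩)) :=
    congrArg Subtype.val (congrFun e ⟨cls T a, a, ha, rfl⟩)
  have h3 : a ∈ cls T (rep ⟨cls T a, a, ha, rfl⟩) := (hrep _).2 ▸ self_mem_cls T a
  have h4 := map_cls T (iter f k) (fun s => (hit k s).2) h3
  have h5 := map_cls T (iter f (m + k)) (fun s => (hit (m + k) s).2) h3
  rw [← Function.iterate_add_apply]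
  change f^[m + k] a ∈ cls T (iter f k a)
  rw [cls_eq T h4, h2]
  exact h5

end


/-- If T is a finitely generated hopfian subsemigroup of S with finitely many relative H-classes outside T, and every relative Schützenberger group of such a class is hopfian, then every surjective endomorphism of S is injective. -/
theorem result :
  ∀ (S : Type) [Semigroup S] (T : Subsemigroup S),
    (∃ F : Finset S, Subsemigroup.closure (↑F : Set S) = T) →
    Set.Finite {C : Set S | ∃ x : S, x ∉ T ∧ C = {y : S |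
        insert x ((fun t => x * t) '' (T : Set S)) = insert y ((fun t => y * t) '' (T : Set S)) ∧
        insert x ((fun t => t * x) '' (T : Set S)) = insert y ((fun t => t * y) '' (T : Set S))}} →
    (∀ f : T →ₙ* T, Function.Surjective f → Function.Injective f) →
    (∀ H : Set S, (∃ x : S, x ∉ T ∧ H = {y : S |
        insert x ((fun t => x * t) '' (T : Set S)) = insert y ((fun t => y * t) '' (T : Set S)) ∧
        insert x ((fun t => t * x) '' (T : Set S)) = insert y ((fun t => t * y) '' (T : Set S))}) →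
      ∀ f : (conGen (fun a b : ↥(Submonoid.closure {u : WithOne S | u = 1 ∨
                ∃ t ∈ T, u = (t : WithOne S) ∧ (fun h => h * t) '' H = H}) =>
              ∀ h ∈ H, (h : WithOne S) * (a : WithOne S) = (h : WithOne S) * (b : WithOne S))).Quotient →*
            (conGen (fun a b : ↥(Submonoid.closure {u : WithOne S | u = 1 ∨
                ∃ t ∈ T, u = (t : WithOne S) ∧ (fun h => h * t) '' H = H}) =>
              ∀ h ∈ H, (h : WithOne S) * (a : WithOne S) = (h : WithOne S) * (b : WithOne S))).Quotient,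
        Function.Surjective f → Function.Injective f) →
    ∀ f : S →ₙ* S, Function.Surjective f → Function.Injective f := by
  intro S _ T hfg hfin hT hG f hs
  obtain ⟨m, hm, h1⟩ := exists_pow_pres T hfg hfin f hs
  obtain ⟨j, hj, h2⟩ := exists_pow_fix T hfin (iter f m) (hs.iterate m) h1
  have hG' : ∀ x, x ∉ T → ∀ f : (sig T (cls T x)).Quotient →* (sig T (cls T x)).Quotient,
      Function.Surjective f → Function.Injective f := by
    intro x hx
    rw [← Con.conGen_of_con (sig T (cls T x))]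
    exact hG (cls T x) ⟨x, hx, rfl⟩
  have hit : ∀ k s, (iter f m)^[k] s ∈ T ↔ s ∈ T := by
    intro k
    induction k with
    | zero => simp
    | succ k ih => intro s; rw [Function.iterate_succ_apply', ← ih s]; exact h1 _
  have h3 : Function.Injective (f^[m])^[j] :=
    inj_of_fix T hT hG' (iter (iter f m) j) ((hs.iterate m).iterate j) (hit j) h2
  rw [← Function.iterate_mul] at h3
  obtain ⟨r, hr⟩ : ∃ r, m * j = r + 1 := ⟨m * j - 1, by have := Nat.mul_pos hm hj; omega⟩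
  rw [hr, Function.iterate_succ] at h3
  exact h3.of_comp

end Pool.Agent.S00995
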