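import Pool.Statements.S01012
-- import your own Pool.Agent.* helpers here

set_option autoImplicit false
open Pool Pool.MP_293fae_al

namespace Pool.Agent.S01012

theorem two_X {A : Type} [CommRing A] [IsDomain A] [IsLocalRing A] (h2 : (2 : A) ≠ 0)
    (hm : (2 : A) ∈ IsLocalRing.maximalIdeal A) (a b : PowerSeries A) :
    2 * PowerSeries.X ≠ a ^ 2 + b ^ 2 := by
  intro h
  have c2 : (2 : PowerSeries A) = PowerSeries.C 2 := (map_ofNat _ 2).symm
  have e0 := congrArg (PowerSeries.coeff 0) h
  have e1 := congrArg (PowerSeries.coeff 1) h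
  have e2 := congrArg (PowerSeries.coeff 2) h
  rw [c2, PowerSeries.coeff_C_mul, sq, sq, map_add, PowerSeries.coeff_mul, PowerSeries.coeff_mul]
    at e0 e1 e2
  simp [Finset.Nat.antidiagonal_succ, PowerSeries.coeff_X] at e0 e1 e2
  set a0 := PowerSeries.constantCoeff a
  set b0 := PowerSeries.constantCoeff b
  set a1 := PowerSeries.coeff 1 a
  set b1 := PowerSeries.coeff 1 b
  have f1 : a0 * a1 + b0 * b1 = 1 := mul_left_cancel₀ h2 (by linear_combination -e1)
  have t : (2 : IsLocalRing.ResidueField A) = 0 := by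
    rw [← map_ofNat (IsLocalRing.residue A) 2]
    exact (IsLocalRing.residue_eq_zero_iff _).2 hm
  have g0 := congrArg (IsLocalRing.residue A) e0
  have g1 := congrArg (IsLocalRing.residue A) f1
  have g2 := congrArg (IsLocalRing.residue A) e2
  simp only [map_add, map_mul, map_zero, map_one] at g0 g1 g2
  set r := IsLocalRing.residue A
  have k0 : r a0 + r b0 = 0 := pow_eq_zero_iff (two_ne_zero) |>.1 (by
    linear_combination -g0 + r a0 * r b0 * t)
  have k1 : r a1 + r b1 = 0 := pow_eq_zero_iff (two_ne_zero) |>.1 (by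
    linear_combination -g2 + (r a1 * r b1 - r a0 * r (PowerSeries.coeff 2 a) -
      r b0 * r (PowerSeries.coeff 2 b)) * t)
  have : (1 : IsLocalRing.ResidueField A) = 0 := by
    linear_combination -g1 + r a0 * k1 + r b1 * k0 - r a0 * r b1 * t
  exact one_ne_zero this

theorem main {A : Type} [CommRing A] [IsDomain A] [IsLocalRing A] [IsNoetherianRing A]
    (h2 : (2 : A) ≠ 0) (hm : (2 : A) ∈ IsLocalRing.maximalIdeal A) (π : A)
    (hπ : IsLocalRing.maximalIdeal A = Ideal.span {π}) :
    ringKrullDim (PowerSeries A) = 2 ∧ IsLocalRing.maximalIdeal (PowerSeries A) =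
      Ideal.span {PowerSeries.C π, PowerSeries.X} := by
  have hmem : ∀ f : PowerSeries A, f ∈ IsLocalRing.maximalIdeal (PowerSeries A) ↔
      PowerSeries.constantCoeff f ∈ IsLocalRing.maximalIdeal A := fun f => by
    simp [PowerSeries.isUnit_iff_constantCoeff]
  have hM : IsLocalRing.maximalIdeal (PowerSeries A) =
      Ideal.span {PowerSeries.C π, PowerSeries.X} := by
    apply le_antisymm
    · intro f hf
      rw [hmem, hπ, Ideal.mem_span_singleton'] at hf
      obtain ⟨c, hc⟩ := hf
      rw [Ideal.mem_span_pair]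
      refine ⟨PowerSeries.C c, PowerSeries.mk fun p => PowerSeries.coeff (p + 1) f, ?_⟩
      rw [← map_mul, hc, add_comm, mul_comm]
      exact (PowerSeries.eq_X_mul_shift_add_const f).symm
    · rw [Ideal.span_le]
      rintro f (rfl | rfl)
      · rw [SetLike.mem_coe, hmem, hπ]; simp
      · rw [SetLike.mem_coe, hmem]; simp
  refine ⟨le_antisymm ?_ ?_, hM⟩
  · refine (ringKrullDim_le_spanFinrank_maximalIdeal _).trans ?_
    rw [hM]
    have := (Submodule.spanFinrank_span_le_ncard_of_finite (R := PowerSeries A)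
      (Set.toFinite ({PowerSeries.C π, PowerSeries.X} : Set (PowerSeries A)))).trans
      ((Set.ncard_insert_le _ _).trans (by simp : _ ≤ 2))
    exact_mod_cast this
  · let p0 : PrimeSpectrum (PowerSeries A) := ⟨⊥, Ideal.isPrime_bot⟩
    let p1 : PrimeSpectrum (PowerSeries A) :=
      ⟨RingHom.ker PowerSeries.constantCoeff, RingHom.ker_isPrime _⟩
    let p2 : PrimeSpectrum (PowerSeries A) := ⟨IsLocalRing.maximalIdeal _, inferInstance⟩
    have l1 : p0 < p1 := by
      refine lt_of_le_of_ne (bot_le (a := p1.asIdeal)) fun h => ?_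
      have : (PowerSeries.X : PowerSeries A) ∈ p1.asIdeal := by simp [p1]
      rw [← h] at this
      exact PowerSeries.X_ne_zero this
    have l2 : p1 < p2 := by
      refine lt_of_le_of_ne (IsLocalRing.le_maximalIdeal p1.2.ne_top) fun h => ?_
      have : PowerSeries.C (2 : A) ∈ p2.asIdeal := (hmem _).2 (by simpa using hm)
      rw [← h] at this
      exact h2 (by simpa [p1] using this)
    exact (Order.le_krullDim_iff (n := 2)).2 ⟨LTSeries.mk 2 ![p0, p1, p2]
      (Fin.strictMono_iff_lt_succ.2 fun i => by fin_cases i <;> simpa), rfl⟩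

/-- The negation of the preceding statement: For every 2-dimensional regular local ring R with fraction field K, and every n, every sum of squares in R is a sum of n squares iff the same holds in K; that is, the Pythagoras numbers of R and K agree. -/
theorem result :
    ¬ (∀ (R : Type) [CommRing R] [IsDomain R] [IsLocalRing R] [IsNoetherianRing R],
      ringKrullDim R = 2 →
      (∃ a b : R, IsLocalRing.maximalIdeal R = Ideal.span {a, b}) →
      ∀ (K : Type) [Field K] [Algebra R K] [IsFractionRing R K],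
      ∀ n : ℕ,
        ((∀ x : R, IsSumSq x → ∃ f : Fin n → R, x = ∑ i, f i ^ 2) ↔
          (∀ x : K, IsSumSq x → ∃ f : Fin n → K, x = ∑ i, f i ^ 2))) := by
  intro H
  let φ : GaussianInt →+* ZMod 2 := Zsqrtd.lift ⟨1, by decide⟩
  let P : Ideal GaussianInt := RingHom.ker φ
  haveI : P.IsPrime := RingHom.ker_isPrime φ
  let A := Localization.AtPrime P
  obtain ⟨π, hπ⟩ := (IsPrincipalIdealRing.principal P).principal
  have hinj : Function.Injective (algebraMap GaussianInt A) :=
    IsLocalization.injective A P.primeCompl_le_nonZeroDivisors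
  have h2 : (2 : A) ≠ 0 := by
    rw [← map_ofNat (algebraMap GaussianInt A) 2, ← map_zero (algebraMap GaussianInt A)]
    exact fun h => absurd (hinj h) (by decide)
  have hm : (2 : A) ∈ IsLocalRing.maximalIdeal A := by
    rw [← Localization.AtPrime.map_eq_maximalIdeal, ← map_ofNat (algebraMap GaussianInt A) 2]
    refine Ideal.mem_map_of_mem _ ?_
    rw [RingHom.mem_ker, map_ofNat]; decide
  have hπ' : IsLocalRing.maximalIdeal A = Ideal.span {algebraMap GaussianInt A π} := by
    rw [← Localization.AtPrime.map_eq_maximalIdeal, ← Set.image_singleton, ← Ideal.map_span]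
    exact congrArg _ hπ
  obtain ⟨h1, h3⟩ := main h2 hm _ hπ'
  let j : PowerSeries A := PowerSeries.C (algebraMap GaussianInt A ⟨0, 1⟩)
  have hj : j * j = -1 := by
    have : (⟨0, 1⟩ * ⟨0, 1⟩ : GaussianInt) = -1 := by decide
    simp only [j, ← map_mul, this, map_neg, map_one]
  let K := FractionRing (PowerSeries A)
  have h2K : (2 : K) ≠ 0 := by
    rw [← map_ofNat (algebraMap (PowerSeries A) K) 2, ← map_ofNat (PowerSeries.C (R := A)) 2]
    intro h
    rw [map_eq_zero_iff _ (IsFractionRing.injective _ _),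
      map_eq_zero_iff _ PowerSeries.C_injective] at h
    exact h2 h
  have hjK : algebraMap _ K j * algebraMap _ K j = -1 := by rw [← map_mul, hj]; simp
  obtain ⟨f, hf⟩ := (H (PowerSeries A) h1 ⟨_, _, h3⟩ K 2).2 (fun x _ =>
    ⟨![(x + 1) / 2, algebraMap _ K j * ((x - 1) / 2)], by
      simp only [Fin.sum_univ_two, Matrix.cons_val_zero, Matrix.cons_val_one]
      have h3 : (2 : K) * 2⁻¹ = 1 := mul_inv_cancel₀ h2K
      rw [mul_pow, sq (algebraMap _ K j), hjK, div_eq_mul_inv, div_eq_mul_inv]
      linear_combination (-x * (2 * 2⁻¹ + 1)) * h3⟩) (2 * PowerSeries.X) (by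
      have : (2 * PowerSeries.X : PowerSeries A) = (PowerSeries.X + 1) * (PowerSeries.X + 1) +
          ((j * PowerSeries.X) * (j * PowerSeries.X) + (j * j + 0)) := by
        linear_combination (-PowerSeries.X ^ 2 - 1) * hj
      rw [this]
      exact IsSumSq.sq_add _ (IsSumSq.sq_add _ (IsSumSq.sq_add _ IsSumSq.zero)))
  rw [Fin.sum_univ_two] at hf
  exact two_X h2 hm _ _ hf

end Pool.Agent.S01012
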