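import Pool.Statements.S01019
import Pool.Agent.H25.PowSg

set_option autoImplicit false
open scoped Pointwise
open Pool Pool.MP_29ab50_al

namespace Pool.Agent.S01019

/-- Every commutative semigroup in which each element generates a finite subsemigroup embeds, via an injective homomorphism, into the semigroup of nonempty subsets (pointwise product) of some abelian group in which every element has finite order. -/
theorem result :
    ∀ (S : Type) [CommSemigroup S],
      (∀ x : S, (Subsemigroup.closure ({x} : Set S) : Set S).Finite) →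
      ∃ (G : Type) (_ : CommGroup G), Monoid.IsTorsion G ∧
        ∃ f : S →ₙ* Set G, Function.Injective f ∧ ∀ s : S, (f s).Nonempty := by
  intro S _ hS
  have hfin : ∀ s : WithOne S, (Set.range fun n : ℕ => s ^ n).Finite := by
    intro s
    induction s using WithOne.recOneCoe with
    | one => exact (Set.finite_singleton 1).subset (by rintro _ ⟨n, rfl⟩; simp)
    | coe x =>
      refine (((hS x).image (fun a : S => (a : WithOne S))).insert 1).subset ?_
      rintro _ ⟨n, rfl⟩
      induction n with
      | zero => exact Or.inl (pow_zero _)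
      | succ n ih =>
        right
        have hx : x ∈ Subsemigroup.closure ({x} : Set S) := Subsemigroup.subset_closure rfl
        rcases ih with h | ⟨y, hy, h⟩
        · exact ⟨x, hx, by simp only [pow_succ] at h ⊢; rw [h, one_mul]⟩
        · exact ⟨y * x, mul_mem hy hx, by simp only [pow_succ] at h ⊢; rw [← h]; rfl⟩
  choose N h1 h2 using fun s => Pool.Agent.H25.PowSg.exists_N s (hfin s)
  obtain ⟨c, hc⟩ := Pool.Agent.H25.PowSg.exists_code (WithOne S)
  let d : Pool.Agent.H25.PowSg.Dat (WithOne S) (WithOne S ⊕ ℕ) := ⟨N, h1, h2, c, hc⟩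
  refine ⟨Multiplicative (Pool.Agent.H25.PowSg.GG (WithOne S ⊕ ℕ)), inferInstance,
    fun g => Pool.Agent.H25.PowSg.GG_fin (Multiplicative.toAdd g),
    ⟨fun s => Pool.Agent.H25.PowSg.ff d s, fun s t => ?_⟩, fun s t h => ?_, fun s => ?_⟩
  · rw [WithOne.coe_mul, Pool.Agent.H25.PowSg.ff_mul]
  · exact WithOne.coe_inj.1 (Pool.Agent.H25.PowSg.ff_inj d h)
  · obtain ⟨x, hx, _⟩ := Pool.Agent.H25.PowSg.key d s
    exact ⟨x, hx⟩

end Pool.Agent.S01019
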