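import Pool.Statements.S01040
import Pool.Agent.H10.Wr2

set_option autoImplicit false
open Pool Pool.MP_2bc940_al

namespace Pool.Agent.S01040

/-- The negation of the preceding statement: For every group, if for some finite generating set the limsup of (number of conjugacy classes meeting the radius-n ball)^(1/n) equals the limsup of (size of the radius-n ball)^(1/n), then the same equality holds for every finite generating set. -/
theorem result :
    ¬ (∀ (G : Type) [Group G],
      (∃ S : Finset G, Subgroup.closure (S : Set G) = ⊤ ∧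
        Filter.limsup (fun n : ℕ =>
            ((Set.ncard (ConjClasses.mk ''
              {g : G | ∃ l : List G, l.length ≤ n ∧ (∀ x ∈ l, x ∈ S ∨ x⁻¹ ∈ S) ∧ l.prod = g}) : ℕ) : ℝ)
              ^ ((1 : ℝ) / (n : ℝ))) Filter.atTop
          = Filter.limsup (fun n : ℕ =>
            ((Set.ncard
              {g : G | ∃ l : List G, l.length ≤ n ∧ (∀ x ∈ l, x ∈ S ∨ x⁻¹ ∈ S) ∧ l.prod = g} : ℕ) : ℝ)
              ^ ((1 : ℝ) / (n : ℝ))) Filter.atTop) →
      ∀ T : Finset G, Subgroup.closure (T : Set G) = ⊤ →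
        Filter.limsup (fun n : ℕ =>
            ((Set.ncard (ConjClasses.mk ''
              {g : G | ∃ l : List G, l.length ≤ n ∧ (∀ x ∈ l, x ∈ T ∨ x⁻¹ ∈ T) ∧ l.prod = g}) : ℕ) : ℝ)
              ^ ((1 : ℝ) / (n : ℝ))) Filter.atTop
          = Filter.limsup (fun n : ℕ =>
            ((Set.ncard
              {g : G | ∃ l : List G, l.length ≤ n ∧ (∀ x ∈ l, x ∈ T ∨ x⁻¹ ∈ T) ∧ l.prod = g} : ℕ) : ℝ)
              ^ ((1 : ℝ) / (n : ℝ))) Filter.atTop) := by
  classical
  open Pool.Agent.H10.Wr in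
  intro h
  obtain ⟨Q, _, x, y, hQ, _, ht⟩ := H10.GS.gs
  let R : Finset Q := {1, x, x⁻¹, y, y⁻¹}
  have hR : Subgroup.closure (R : Set Q) = ⊤ :=
    top_unique (hQ.ge.trans (Subgroup.closure_mono (by rintro _ (rfl | rfl) <;> simp [R])))
  have hi : ∀ s ∈ R, s⁻¹ ∈ R := by simp [R]
  have R5 : R.card ≤ 5 := Finset.card_le_five
  let B := Fin 3 → Equiv.Perm (Fin 3)
  let K : Finset B := Fintype.piFinset fun _ => {1, Equiv.swap 0 1, finRotate 3}
  have hK : ∀ β : B, ∃ b, b * β * b⁻¹ ∈ K := fun β => by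
    have : ∀ β : Equiv.Perm (Fin 3), ∃ b, b * β * b⁻¹ ∈
      ({1, Equiv.swap 0 1, finRotate 3} : Finset (Equiv.Perm (Fin 3))) := by decide
    choose b hb using this
    exact ⟨fun i => b (β i), Fintype.mem_piFinset.2 fun i => hb _⟩
  have K27 : K.card ≤ 27 := by
    rw [Fintype.card_piFinset]
    exact (Finset.prod_le_pow_card _ _ 3 fun _ _ => Finset.card_le_three).trans (by simp)
  have hH : Subgroup.closure (SH B R : Set (W B Q)) = ⊤ := SH_top (by simp [R]) hR
  obtain ⟨M, hM⟩ : ∃ M, M = 2 * (SH B R).card + 1 := ⟨_, rfl⟩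
  have : NeZero M := ⟨by omega⟩
  let S : Finset (F (ZMod M)) := Finset.univ.image X
  let T : Finset (F (ZMod M)) := {X 0, X 1}
  have hS : Subgroup.closure (S : Set (F (ZMod M))) = ⊤ := X_top _ AddSubgroup.closure_univ
    (Subgroup.subset_closure (by simp [S])) fun a _ => Subgroup.subset_closure (by simp [S])
  have hT : Subgroup.closure (T : Set (F (ZMod M))) = ⊤ := X_top (T := {1}) _
    (top_unique fun a _ => by
      rw [AddSubgroup.mem_closure_singleton]; exact ⟨a.val, by simp⟩)
    (Subgroup.subset_closure (by simp [T])) fun a ha => Subgroup.subset_closure (by simp_all [T])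
  have u1 : ∀ n, 1 ≤ n → (ball (un (SH B R) S) n).ncard ≤ (n + 1) ^ 4 * M ^ n := fun n hn => by
    have := cnt (n := n) (c := 1) (d := (n + 1) * (2 * n + 1)) (M := M) (A := ball (SH B R))
      (B := ball S) (fun i _ => by simpa [hM] using ball_card _ i) fun i hi => ⟨(ball_card _ _).1,
        (Fup i).trans (by rw [ZMod.card]; gcongr)⟩
    refine (Set.ncard_le_ncard (split n) this.1).trans (this.2.trans ?_)
    have : 2 * n + 1 ≤ (n + 1) * (n + 1) := by nlinarith
    calc _ ≤ (n + 1) * (1 * ((n + 1) * ((n + 1) * (n + 1))) * M ^ n) := by gcongr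
      _ = _ := by ring
  have u2 : ∀ n, (ConjClasses.mk '' ball (un (SH B R) S) n).ncard ≤ _ := fun n =>
    Set.ncard_image_le (ball_card _ n).1
  have u3 : ∀ n, 1 ≤ n → M ^ n ≤ (n + 1) ^ 1 * (ConjClasses.mk '' ball (un (SH B R) S) n).ncard := by
    intro n hn
    exact (ZMod.card M ▸ Flow (A := ZMod M) hn).trans (Nat.mul_le_mul (by simp) (un_r _ _ n))
  have a1 := up u1
  have a2 := up fun n hn => (u2 n).trans (u1 n hn)
  have e : rate (fun n => (ConjClasses.mk '' ball (un (SH B R) T) n).ncard) =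
      rate fun n => (ball (un (SH B R) T) n).ncard :=
    h _ ⟨un (SH B R) S, un_top hH hS, (a2.1.antisymm (a2.2 M u3)).trans (a1.1.antisymm (a1.2 M
      fun n hn => (u3 n hn).trans (Nat.mul_le_mul_left _ (u2 n)))).symm⟩ _ (un_top hH hT)
  have b1 := (up (d := 0) fun n _ => by simpa using (ball_card (un (SH B R) T) n).2).2 216 fun n _ => by
    have := low (B := B) hR hi n
    rw [show Fintype.card B = 216 by simp [B, Fintype.card_perm, Nat.factorial]] at this
    exact this.trans ((un_l _ T n).trans (Nat.le_mul_of_pos_left _ (by simp)))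
  have b2 := (up (d := 6) (M := 135)
      (u := fun n => (ConjClasses.mk '' ball (un (SH B R) T) n).ncard) fun n hn => by
    choose N n1 n2 n3 using cls (by simp [R]) hi ht hK
    have := cnt (n := n) (c := 27) (d := 1) (M := 135) (A := N) (B := ball T)
      (fun i _ => ⟨n1 i, (n2 i).trans (Nat.mul_le_mul K27 (Nat.pow_le_pow_left
        (Nat.mul_le_mul R5 K27) _))⟩) fun i _ => ⟨(ball_card _ _).1, (ball_card _ _).2.trans (by
          have : T.card ≤ 2 := Finset.card_le_two
          rw [one_mul]; exact Nat.pow_le_pow_left (by omega) _)⟩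
    refine le_trans (Set.ncard_le_ncard ?_ (this.1.image _)) ((Set.ncard_image_le
      (f := ConjClasses.mk) this.1).trans (this.2.trans ?_))
    · rintro _ ⟨g, hg, rfl⟩
      obtain ⟨i, a, b, c⟩ := split n g hg
      obtain ⟨k, k1, k2⟩ := n3 i _ b
      obtain ⟨d, rfl⟩ := isConj_iff.1 k2
      exact ⟨(_, g.2), ⟨i, a, k1, c⟩, ConjClasses.mk_eq_mk_iff_isConj.2
        (isConj_iff.2 ⟨(d⁻¹, 1), by ext1 <;> simp [mul_assoc]⟩)⟩
    · have : 27 ≤ (n + 1) ^ 5 := le_trans (by norm_num) (Nat.pow_le_pow_left (by omega : 2 ≤ n + 1) 5)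
      calc _ ≤ (n + 1) * ((n + 1) ^ 5 * 1 * 135 ^ n) := by gcongr
        _ = _ := by ring).1
  rw [e] at b2
  exact absurd (b1.trans b2) (by norm_num)

end Pool.Agent.S01040
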