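import Pool.Statements.S01061

set_option autoImplicit false
open Pool Pool.MP_2d5453_al

namespace Pool.Agent.S01061

open scoped commutatorElement

abbrev A : Type := ℕ → ZMod 4

@[ext] structure W where
  v : A → ZMod 2
  a : A
  e : ℤˣ

instance : Mul W := ⟨fun g h => ⟨fun b => h.v b + g.v (h.e • b + h.a), g.e • h.a + g.a, g.e * h.e⟩⟩
instance : One W := ⟨⟨0, 0, 1⟩⟩
instance : Inv W := ⟨fun g => ⟨fun b => g.v (g.e • (b - g.a)), -(g.e • g.a), g.e⟩⟩

@[simp] theorem mul_v (g h : W) (b : A) : (g * h).v b = h.v b + g.v (h.e • b + h.a) := rfl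
@[simp] theorem mul_a (g h : W) : (g * h).a = g.e • h.a + g.a := rfl
@[simp] theorem mul_e (g h : W) : (g * h).e = g.e * h.e := rfl
@[simp] theorem one_v (b : A) : (1 : W).v b = 0 := rfl
@[simp] theorem one_a : (1 : W).a = 0 := rfl
@[simp] theorem one_e : (1 : W).e = 1 := rfl
@[simp] theorem inv_v (g : W) (b : A) : g⁻¹.v b = g.v (g.e • (b - g.a)) := rfl
@[simp] theorem inv_a (g : W) : g⁻¹.a = -(g.e • g.a) := rfl
@[simp] theorem inv_e (g : W) : g⁻¹.e = g.e := rfl

theorem two (t : ZMod 2) : t + t = 0 := by revert t; decide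
theorem four (a : A) : a + a + (a + a) = 0 := by
  funext i
  have : ∀ t : ZMod 4, t + t + (t + t) = 0 := by decide
  exact this _

instance : Group W := Group.ofLeftAxioms
  (fun x y z => by
    ext1
    · funext b; simp [mul_smul, add_assoc]
    · simp [mul_smul, add_assoc]
    · simp [mul_assoc])
  (fun x => by ext1 <;> [(funext b; simp); simp; simp])
  (fun x => by
    ext1
    · funext b; simp [smul_smul, two]
    · simp
    · simp)

/-- the commutator -/
def c (y z : W) : W := z⁻¹ * y⁻¹ * z * y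

theorem c_e (y z : W) : (c y z).e = 1 := by
  rcases Int.units_eq_one_or y.e with h | h <;> rcases Int.units_eq_one_or z.e with h' | h' <;>
    simp [c, h, h']

theorem c_V (y : W) (w : A → ZMod 2) :
    c y ⟨w, 0, 1⟩ = ⟨fun b => w (y.e • b + y.a) + w b, 0, 1⟩ := by
  ext1
  · funext b
    simp only [c, mul_v, inv_v, inv_a, inv_e, one_smul, add_zero, sub_zero, add_sub_cancel_right,
      smul_smul, mul_e, one_mul, Int.units_mul_self, smul_add, add_neg_cancel_right]
    linear_combination two (y.v b)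
  · simp [c, smul_smul]
  · exact c_e _ _

theorem eqV {z : W} (h1 : z.a = 0) (h2 : z.e = 1) : ∃ w, z = ⟨w, 0, 1⟩ :=
  ⟨z.v, by ext1 <;> simp [h1, h2]⟩

theorem V4 (y : W) (hy : y.e = 1) {z : W} (h1 : z.a = 0) (h2 : z.e = 1) :
    c y (c y (c y (c y z))) = 1 := by
  obtain ⟨w, rfl⟩ := eqV h1 h2
  simp only [c_V, hy, one_smul]
  ext1
  · funext b
    have : b + y.a + y.a + y.a + y.a = b := by linear_combination four y.a
    simp only [this, one_v]
    linear_combination two (w b) + 2 * two (w (b + y.a)) + 3 * two (w (b + y.a + y.a)) +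
      2 * two (w (b + y.a + y.a + y.a))
  · rfl
  · rfl

theorem V2 (y : W) (hy : y.e = -1) {z : W} (h1 : z.a = 0) (h2 : z.e = 1) : c y (c y z) = 1 := by
  obtain ⟨w, rfl⟩ := eqV h1 h2
  simp only [c_V, hy]
  ext1
  · funext b
    simp only [Units.neg_smul, one_smul, neg_add_rev, neg_neg, one_v]
    rw [show -y.a + b + y.a = b by abel]
    linear_combination two (w b) + two (w (-b + y.a))
  · rfl
  · rfl

theorem engel (x y : W) : c y (c y (c y (c y (c y x)))) = 1 := by
  rcases Int.units_eq_one_or y.e with h | h <;> rcases Int.units_eq_one_or x.e with h' | h'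
  · exact V4 y h (by simp [c, h, h']) (c_e _ _)
  · have h1 := V4 y h (z := c y x * (y * y)⁻¹)
      (by simp [c, h, h']) (by simp [c_e, h])
    have h2 : ∀ u, c y ((y * y)⁻¹ * u * (y * y)) = (y * y)⁻¹ * c y u * (y * y) := fun u => by
      unfold c; group
    have h3 : c y (c y x) = (y * y)⁻¹ * c y (c y x * (y * y)⁻¹) * (y * y) := by
      generalize c y x = u
      unfold c; group
    rw [h3, h2, h2, h2, h1]; simp
  · rw [V2 y h (z := c y (c y x)) _ (c_e _ _)]
    · simp [c]
    · simp [c, h, h']; linear_combination four x.a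
  · rw [V2 y h (z := c y (c y x)) _ (c_e _ _)]
    · simp [c]
    · simp [c, h, h']; linear_combination four y.a - four x.a

theorem engel' (x y : W) : (fun z : W => z⁻¹ * y⁻¹ * z * y)^[5] x = 1 := by
  have : (fun z : W => z⁻¹ * y⁻¹ * z * y) = c y := rfl
  rw [this]
  generalize hc : c y = f
  show f (f (f (f (f x)))) = 1
  rw [← hc]
  exact engel x y

def H1 : Subgroup W where
  carrier := {g | g.e = 1}
  mul_mem' {a b} (ha : a.e = 1) (hb : b.e = 1) := show (a * b).e = 1 by simp [ha, hb]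
  one_mem' := rfl
  inv_mem' h := h

def H2 : Subgroup W where
  carrier := {g | g.a = 0 ∧ g.e = 1}
  mul_mem' {a b} ha hb := show (a * b).a = 0 ∧ (a * b).e = 1 by simp [ha.1, ha.2, hb.1, hb.2]
  one_mem' := ⟨rfl, rfl⟩
  inv_mem' {a} h := show a⁻¹.a = 0 ∧ a⁻¹.e = 1 by simp [h.1, h.2]

theorem comm_eq {G : Type} [Group G] (a b : G) : ⁅a, b⁆ = a⁻¹⁻¹ * b⁻¹⁻¹ * a⁻¹ * b⁻¹ := by
  simp [commutatorElement_def]

theorem solv : IsSolvable W := by
  have h1 : derivedSeries W 1 ≤ H1 := Subgroup.commutator_le.2 fun a _ b _ => by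
    rw [comm_eq]; exact c_e _ _
  have h2 : derivedSeries W 2 ≤ H2 := Subgroup.commutator_le.2 fun a ha b hb => by
    have ha' : a.e = 1 := h1 ha
    have hb' : b.e = 1 := h1 hb
    rw [comm_eq]; exact ⟨by simp [ha', hb'], c_e _ _⟩
  refine ⟨3, le_bot_iff.1 (Subgroup.commutator_le.2 fun a ha b hb => ?_)⟩
  obtain ⟨w, h⟩ := eqV (H2.inv_mem (h2 ha)).1 (H2.inv_mem (h2 ha)).2
  have hb' := H2.inv_mem (h2 hb)
  rw [comm_eq, h, Subgroup.mem_bot]
  refine (c_V _ _).trans ?_
  rw [hb'.1, hb'.2]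
  ext1
  · funext b; simp [two]
  · rfl
  · rfl

theorem pg : IsPGroup 2 W := fun g => ⟨4, by
  have h1 : (g ^ 2).e = 1 := by simp [sq]
  obtain ⟨w, h⟩ := eqV (z := ((g ^ 2) ^ 2) ^ 2)
    (by generalize g ^ 2 = u at h1; simp [sq, h1, four]) (by rw [sq (_ ^ 2), mul_e, Int.units_mul_self])
  rw [show g ^ 2 ^ 4 = (((g ^ 2) ^ 2) ^ 2) ^ 2 by simp [← pow_mul], h, sq]
  ext1
  · funext b; simp [two]
  · simp
  · simp⟩

def x : W := ⟨0, 0, -1⟩
def p : A := Pi.single 0 1
def z (n : ℕ) : W := ⟨0, Pi.single (n + 1) 2, 1⟩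

/-- There is a soluble group in which every element has 2-power order and every commutator [x,y,y,y,y,y] is trivial, but some element lies in no normal nilpotent subgroup, so the group is not a Fitting group. -/
theorem result :
    ∃ (G : Type) (_ : Group G),
      IsSolvable G ∧
      IsPGroup 2 G ∧
      (∀ x y : G, (fun z : G => z⁻¹ * y⁻¹ * z * y)^[5] x = 1) ∧
      ¬ (∀ g : G, ∃ N : Subgroup G, N.Normal ∧ Group.IsNilpotent N ∧ g ∈ N) := by
  classical
  refine ⟨W, inferInstance, solv, pg, engel', fun H => ?_⟩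
  obtain ⟨N, hN, hnil, hx⟩ := H x
  have hc : ∀ u, c x u ∈ N := fun u => mul_mem (by
    have := hN.conj_mem _ (inv_mem hx) u⁻¹
    rwa [inv_inv] at this) hx
  have hz : ∀ n, z n ∈ N := fun n => by
    convert hc ⟨0, Pi.single (n + 1) 1, 1⟩ using 1
    ext1
    · funext b; simp [z, c, x]
    · funext i
      have : (2 : ZMod 4) = -1 + -1 := by decide
      by_cases h : i = n + 1
      · subst h; simpa [z, c, x] using this
      · simp [z, c, x, h]
    · simp [z, c, x]
  have key : ∀ n, ∃ w, (⟨w, 0, 1⟩ : W) ∈ N.lowerCentralSeries n ∧ w p = 1 ∧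
      ∀ b i, n + 1 ≤ i → b i ≠ 0 → w b = 0 := by
    intro n
    induction n with
    | zero =>
      have h0 := hc ⟨Pi.single p 1, 0, 1⟩
      rw [c_V] at h0
      refine ⟨_, h0, ?_, fun b i h1 h2 => ?_⟩
      · have h6 : (-1 : ZMod 4) ≠ 1 := by decide
        have : -p ≠ p := fun h => h6 (by simpa [p] using congrFun h 0)
        simp [x, this]
      · have h3 : i ≠ 0 := by omega
        have h4 : b ≠ p := fun h => h2 (by simp [h, p, h3])
        have h5 : -b ≠ p := fun h => h2 (by simpa [p, h3] using congrFun h i)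
        simp [x, h4, h5]
    | succ n ih =>
      obtain ⟨w, h1, h3, h4⟩ := ih
      have h0 : c (z n) ⟨w, 0, 1⟩ ∈ N.lowerCentralSeries (n + 1) := by
        have := Subgroup.commutator_mem_commutator (inv_mem h1) (inv_mem (hz n))
        rw [comm_eq, inv_inv, inv_inv] at this
        simpa [c, mul_assoc] using this
      rw [c_V] at h0
      refine ⟨_, h0, ?_, fun b i h5 h6 => ?_⟩
      · have h7 : (2 : ZMod 4) ≠ 0 := by decide
        rw [h4 _ (n + 1) le_rfl, h3, zero_add]
        simpa [z, p] using h7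
      · rw [h4 _ i (by omega), h4 _ i (by omega) h6, add_zero]
        simpa [z, show i ≠ n + 1 by omega] using h6
  obtain ⟨n, hn⟩ := N.isNilpotent_iff_lowerCentralSeries.1 hnil
  obtain ⟨w, h1, h3, -⟩ := key n
  rw [hn, Subgroup.mem_bot] at h1
  have h4 : w p = 0 := congrFun (congrArg W.v h1) p
  rw [h3] at h4
  exact absurd h4 (by decide)

end Pool.Agent.S01061
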