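import Pool.Statements.S01079

set_option autoImplicit false
open Pool Pool.MP_2f4300_al

namespace Pool.Agent.S01079
open Topology Filter Pointwise

section Abs

variable {G : Type} [Group G]

structure Tails (T : ℕ → Subgroup G) : Prop where
  anti : Antitone T
  comm : ∀ g : G, ∃ n, ∀ t ∈ T n, g * t = t * g
  sep : ∀ t : G, (∀ n, t ∈ T n) → t = 1

variable {T : ℕ → Subgroup G}

@[instance_reducible]
def fb (hT : Tails T) (H : Subgroup G) : GroupFilterBasis G where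
  sets := {U | ∃ n, U = ((H ⊓ T n : Subgroup G) : Set G)}
  nonempty := ⟨_, 0, rfl⟩
  inter_sets := by
    rintro _ _ ⟨n, rfl⟩ ⟨m, rfl⟩
    refine ⟨_, ⟨max n m, rfl⟩, fun x hx => ⟨⟨hx.1, hT.anti (le_max_left _ _) hx.2⟩,
      ⟨hx.1, hT.anti (le_max_right _ _) hx.2⟩⟩⟩
  one' := by
    rintro _ ⟨n, rfl⟩
    exact Subgroup.one_mem _
  mul' := by
    rintro _ ⟨n, rfl⟩
    refine ⟨_, ⟨n, rfl⟩, ?_⟩
    rintro _ ⟨x, hx, y, hy, rfl⟩
    exact Subgroup.mul_mem _ hx hy
  inv' := by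
    rintro _ ⟨n, rfl⟩
    exact ⟨_, ⟨n, rfl⟩, fun x hx => Subgroup.inv_mem _ hx⟩
  conj' := by
    rintro g _ ⟨n, rfl⟩
    obtain ⟨m, hm⟩ := hT.comm g
    refine ⟨_, ⟨max n m, rfl⟩, fun x hx => ?_⟩
    have h1 : g * x * g⁻¹ = x := by
      rw [hm x (hT.anti (le_max_right _ _) hx.2), mul_inv_cancel_right]
    change g * x * g⁻¹ ∈ (H ⊓ T n : Subgroup G)
    rw [h1]
    exact ⟨hx.1, hT.anti (le_max_left _ _) hx.2⟩

def top (hT : Tails T) (H : Subgroup G) : GroupTopology G where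
  toTopologicalSpace := (fb hT H).topology
  toIsTopologicalGroup := (fb hT H).isTopologicalGroup

lemma mem_top (hT : Tails T) (H : Subgroup G) (U : Set G) :
    U ∈ @nhds G (top hT H).toTopologicalSpace 1 ↔ ∃ n, ∀ x, x ∈ H → x ∈ T n → x ∈ U := by
  refine ((fb hT H).nhds_one_hasBasis.mem_iff).trans ⟨?_, ?_⟩
  · rintro ⟨_, ⟨n, rfl⟩, h⟩
    exact ⟨n, fun x h1 h2 => h ⟨h1, h2⟩⟩
  · rintro ⟨n, h⟩
    exact ⟨_, ⟨n, rfl⟩, fun x hx => h x hx.1 hx.2⟩

lemma le_iff (t t' : GroupTopology G) :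
    t ≤ t' ↔ @nhds G t.toTopologicalSpace 1 ≤ @nhds G t'.toTopologicalSpace 1 := by
  rw [← GroupTopology.toTopologicalSpace_le]
  refine ⟨fun h => nhds_mono h, fun h => ?_⟩
  rw [← continuous_id_iff_le]
  refine @continuous_of_continuousAt_one G t.toTopologicalSpace _ t.toIsTopologicalGroup G (G →* G) _
    t'.toTopologicalSpace t'.toIsTopologicalGroup.toContinuousMul _ _ (MonoidHom.id G) ?_
  simpa [ContinuousAt, tendsto_id'] using h

lemma top_t2 (hT : Tails T) (H : Subgroup G) : @T2Space G (top hT H).toTopologicalSpace := by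
  refine @IsTopologicalGroup.t2Space_of_one_sep G (top hT H).toTopologicalSpace _
    (top hT H).toIsTopologicalGroup fun x hx => ?_
  obtain ⟨n, hn⟩ : ∃ n, x ∉ T n := by
    by_contra hc
    push Not at hc
    exact hx (hT.sep x hc)
  exact ⟨T n, (mem_top hT H _).2 ⟨n, fun _ _ h => h⟩, hn⟩

lemma top_mono (hT : Tails T) {H K : Subgroup G} (h : H ≤ K) : top hT H ≤ top hT K := by
  rw [le_iff]
  intro U hU
  obtain ⟨n, hn⟩ := (mem_top hT K U).1 hU
  exact (mem_top hT H U).2 ⟨n, fun x h1 h2 => hn x (h h1) h2⟩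

lemma top_lt (hT : Tails T) {H K : Subgroup G} (h : H ≤ K)
    (h2 : ∀ n, ∃ t, t ∈ K ∧ t ∈ T n ∧ t ∉ H) : top hT H < top hT K := by
  refine lt_of_le_not_ge (top_mono hT h) fun h3 => ?_
  rw [le_iff] at h3
  obtain ⟨n, hn⟩ := (mem_top hT K H).1 (h3 ((mem_top hT H H).2 ⟨0, fun _ h _ => h⟩))
  obtain ⟨t, h4, h5, h6⟩ := h2 n
  exact h6 (hn t h4 h5)

lemma top_covBy (hT : Tails T) {H K : Subgroup G} (h : H ≤ K)
    (h2 : ∀ n, ∃ t, t ∈ K ∧ t ∈ T n ∧ t ∉ H)
    (h3 : ∀ n q g, q ∈ K → q ∈ T n → q ∉ H → g ∈ K → g ∈ T n → g ∉ H →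
      ∃ a b, a ∈ H ∧ a ∈ T n ∧ b ∈ H ∧ b ∈ T n ∧ g = a * q * b) : top hT H ⋖ top hT K := by
  refine ⟨top_lt hT h h2, fun ρ h4 h5 => ?_⟩
  have h6 := (le_iff _ _).1 h4.le
  have h7 := (le_iff _ _).1 h5.le
  have hK : ∀ n, ((K ⊓ T n : Subgroup G) : Set G) ∈ @nhds G ρ.toTopologicalSpace 1 := fun n =>
    h7 ((mem_top hT K _).2 ⟨n, fun x h1 h2 => ⟨h1, h2⟩⟩)
  by_cases hH : (H : Set G) ∈ @nhds G ρ.toTopologicalSpace 1
  · refine h4.not_ge ((le_iff _ _).2 fun U hU => ?_)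
    obtain ⟨n, hn⟩ := (mem_top hT H U).1 hU
    exact mem_of_superset (inter_mem hH (hK n)) fun x hx => hn x hx.1 hx.2.2
  · refine h5.not_ge ((le_iff _ _).2 fun U hU => ?_)
    letI := ρ.toTopologicalSpace
    haveI := ρ.toIsTopologicalGroup
    obtain ⟨V, hV, hVU⟩ := exists_nhds_one_split4 hU
    obtain ⟨n, hn⟩ := (mem_top hT H V).1 (h6 hV)
    have h1 : (1 : G) ∈ V := mem_of_mem_nhds hV
    obtain ⟨q, hq, hqH⟩ : ∃ q ∈ V ∩ ((K ⊓ T n : Subgroup G) : Set G), q ∉ H := by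
      by_contra hc
      push Not at hc
      exact hH (mem_of_superset (inter_mem hV (hK n)) hc)
    refine (mem_top hT K U).2 ⟨n, fun g hg1 hg2 => ?_⟩
    by_cases hg : g ∈ H
    · simpa using hVU (hn g hg hg2) h1 h1 h1
    · obtain ⟨a, b, ha1, ha2, hb1, hb2, rfl⟩ := h3 n q g hq.2.1 hq.2.2 hqH hg1 hg2 hg
      simpa using hVU (hn a ha1 ha2) hq.1 (hn b hb1 hb2) h1

end Abs

lemma two_fun {X : Type} [AddCommGroup X] [Module ℚ X] (U : Submodule ℚ X) (φ ψ : X →ₗ[ℚ] ℚ)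
    {u v : X} (hu : u ∈ U) (hv : v ∈ U) (h1 : φ u ≠ 0) (h2 : ψ v ≠ 0) :
    ∃ w ∈ U, φ w = 1 ∧ ψ w ≠ 0 := by
  have key : ∀ w ∈ U, φ w ≠ 0 → ψ w ≠ 0 → ∃ w ∈ U, φ w = 1 ∧ ψ w ≠ 0 := fun w hw a b =>
    ⟨(φ w)⁻¹ • w, U.smul_mem _ hw, by simp [a], by simp [a, b]⟩
  by_cases h3 : ψ u = 0
  · by_cases h4 : φ v = 0
    · exact key (u + v) (U.add_mem hu hv) (by simp [h4, h1]) (by simp [h3, h2])
    · exact key v hv h4 h2
  · exact key u hu h1 h3

abbrev V := ℕ →₀ ℚ
abbrev E := V ≃ₗ[ℚ] V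
noncomputable abbrev e (i : ℕ) : V := Finsupp.single i 1

lemma inv_app (g : E) (v : V) : g (g⁻¹ v) = v := g.apply_symm_apply v
lemma app_inv (g : E) (v : V) : g⁻¹ (g v) = v := g.symm_apply_apply v

def Fx (i : ℕ) : Subgroup E where
  carrier := {g | g (e i) = e i ∧ ∀ v, g v i = v i}
  one_mem' := ⟨rfl, fun _ => rfl⟩
  mul_mem' := fun {a b} ha hb => ⟨by
      change a (b (e i)) = e i
      rw [hb.1, ha.1], fun v => by
      change a (b v) i = v i
      rw [ha.2, hb.2]⟩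
  inv_mem' := fun {a} ha => ⟨by
      have := app_inv a (e i)
      rwa [ha.1] at this, fun v => by
      have := ha.2 (a⁻¹ v)
      rw [inv_app] at this
      exact this.symm⟩

def G0 : Subgroup E where
  carrier := {g | (∀ v, g v 0 = v 0) ∧ ∃ m, ∀ i, m < i → g ∈ Fx i}
  one_mem' := ⟨fun _ => rfl, 0, fun _ _ => Subgroup.one_mem _⟩
  mul_mem' := fun {a b} ha hb => by
    obtain ⟨m, hm⟩ := ha.2
    obtain ⟨n, hn⟩ := hb.2
    refine ⟨fun v => ?_, max m n, fun i hi => Subgroup.mul_mem _ (hm i (by omega)) (hn i (by omega))⟩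
    change a (b v) 0 = v 0
    rw [ha.1, hb.1]
  inv_mem' := fun {a} ha => by
    obtain ⟨m, hm⟩ := ha.2
    refine ⟨fun v => ?_, m, fun i hi => Subgroup.inv_mem _ (hm i hi)⟩
    have := ha.1 (a⁻¹ v)
    rw [inv_app] at this
    exact this.symm

abbrev G := ↥G0

def T (n : ℕ) : Subgroup G where
  carrier := {g | ∀ i, 1 ≤ i → i ≤ n → (g : E) ∈ Fx i}
  one_mem' := fun _ _ _ => Subgroup.one_mem _
  mul_mem' := fun ha hb i h1 h2 => Subgroup.mul_mem _ (ha i h1 h2) (hb i h1 h2)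
  inv_mem' := fun ha i h1 h2 => Subgroup.inv_mem _ (ha i h1 h2)

lemma fix_of (g : E) (v : V) (h : ∀ i, v i ≠ 0 → g (e i) = e i) : g v = v := by
  conv_lhs => rw [← Finsupp.sum_single v]
  conv_rhs => rw [← Finsupp.sum_single v]
  rw [Finsupp.sum, map_sum]
  refine Finset.sum_congr rfl fun i hi => ?_
  have h1 : Finsupp.single i (v i) = v i • e i := by simp
  rw [h1, map_smul, h i (Finsupp.mem_support_iff.1 hi)]

lemma coord {n : ℕ} {t : G} (ht : t ∈ T n) (v : V) (i : ℕ) (hi : i ≤ n) : (t : E) v i = v i := by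
  rcases Nat.eq_zero_or_pos i with rfl | h
  · exact t.2.1 v
  · exact (ht i h hi).2 v

lemma tails : Tails T := by
  refine ⟨fun n m h g hg i h1 h2 => hg i h1 (h2.trans h), fun g => ?_, fun t ht => ?_⟩
  · obtain ⟨m, hm⟩ := g.2.2
    refine ⟨m, fun t ht => Subtype.ext (LinearEquiv.ext fun x => ?_)⟩
    change (g : E) ((t : E) x) = (t : E) ((g : E) x)
    have h1 : (g : E) ((t : E) x - x) = (t : E) x - x := fix_of _ _ fun i hi => by
      refine (hm i (lt_of_not_ge fun h => hi ?_)).1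
      simp [coord ht x i h]
    have h2 : (t : E) ((g : E) x - x) = (g : E) x - x := fix_of _ _ fun i hi => by
      refine (ht i (Nat.pos_of_ne_zero fun h => hi ?_) (le_of_not_gt fun h => hi ?_)).1
      · subst h
        simp [g.2.1 x]
      · simp [(hm i h).2 x]
    rw [map_sub] at h1 h2
    rw [sub_eq_iff_eq_add.1 h1, sub_eq_iff_eq_add.1 h2]
    abel
  · exact Subtype.ext (LinearEquiv.ext fun x => Finsupp.ext fun i => coord (ht i) x i le_rfl)

lemma countG : Countable G := by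
  have hf : ∀ g : G, (Function.support fun i => (g : E) (e i) - e i).Finite := by
    intro g
    obtain ⟨m, hm⟩ := g.2.2
    refine (Set.finite_le_nat m).subset fun i hi => ?_
    by_contra hc
    exact hi (by simp only [(hm i (lt_of_not_ge hc)).1, sub_self])
  refine Function.Injective.countable
    (f := fun g : G => Finsupp.ofSupportFinite (fun i => (g : E) (e i) - e i) (hf g)) ?_
  intro g h hgh
  have h1 : ∀ i, (g : E) (e i) = (h : E) (e i) := fun i => by
    have := DFunLike.congr_fun hgh i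
    simpa [Finsupp.ofSupportFinite_coe] using this
  refine Subtype.ext (LinearEquiv.toLinearMap_injective (Finsupp.lhom_ext' fun i => ?_))
  ext1
  exact h1 i

noncomputable def tv (f : V →ₗ[ℚ] ℚ) (x : V) (h : 1 + f x ≠ 0) : E :=
  LinearEquiv.ofLinear (LinearMap.id + f.smulRight x)
    (LinearMap.id - f.smulRight ((1 + f x)⁻¹ • x))
    (LinearMap.ext fun v => by
      simp only [LinearMap.comp_apply, LinearMap.add_apply, LinearMap.sub_apply, LinearMap.id_apply,
        LinearMap.smulRight_apply, map_sub, map_smul, smul_eq_mul, smul_smul]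
      match_scalars <;> field_simp <;> ring)
    (LinearMap.ext fun v => by
      simp only [LinearMap.comp_apply, LinearMap.add_apply, LinearMap.sub_apply, LinearMap.id_apply,
        LinearMap.smulRight_apply, map_add, map_smul, smul_eq_mul, smul_smul]
      match_scalars <;> field_simp <;> ring)

lemma tv_app (f : V →ₗ[ℚ] ℚ) (x : V) (h : 1 + f x ≠ 0) (v : V) : tv f x h v = v + f v • x := rfl

lemma tv_Fx (f : V →ₗ[ℚ] ℚ) (x : V) (h : 1 + f x ≠ 0) (i : ℕ) (h1 : f (e i) = 0) (h2 : x i = 0) :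
    tv f x h ∈ Fx i := ⟨by simp [tv_app, h1], fun v => by simp [tv_app, h2]⟩

lemma bound (x : V) : ∃ m, ∀ i, m < i → x i = 0 := by
  obtain ⟨m, hm⟩ := x.support.bddAbove
  refine ⟨m, fun i hi => ?_⟩
  by_contra hc
  exact absurd (hm (Finset.mem_coe.2 (Finsupp.mem_support_iff.2 hc))) (not_le.2 hi)

lemma tv_G (f : V →ₗ[ℚ] ℚ) (x : V) (h : 1 + f x ≠ 0) (h0 : x 0 = 0)
    (h1 : ∃ m, ∀ i, m < i → f (e i) = 0) : tv f x h ∈ G0 := by
  obtain ⟨m, hm⟩ := h1
  obtain ⟨n, hn⟩ := bound x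
  exact ⟨fun v => by simp [tv_app, h0], max m n, fun i hi =>
    tv_Fx _ _ _ _ (hm i (by omega)) (hn i (by omega))⟩

noncomputable def s : V →ₗ[ℚ] ℚ := Finsupp.linearCombination ℚ fun _ => (1 : ℚ)

lemma s_e (i : ℕ) : s (e i) = 1 := by simp [s]

def K : Subgroup G where
  carrier := {g | (g : E) (e 0) = e 0}
  one_mem' := rfl
  mul_mem' := fun {a b} ha hb => by
    change (a : E) ((b : E) (e 0)) = e 0
    rw [hb, ha]
  inv_mem' := fun {a} ha => by
    have := app_inv a (e 0)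
    rw [ha] at this
    exact this

def M (W : AddSubgroup ℚ) : Subgroup G where
  carrier := {g | ∃ w ∈ W, ∀ v, s ((g : E) v) = s v + w * v 0}
  one_mem' := ⟨0, W.zero_mem, fun v => by simp⟩
  mul_mem' := by
    rintro a b ⟨w, hw, ha⟩ ⟨w', hw', hb⟩
    refine ⟨w + w', W.add_mem hw hw', fun v => ?_⟩
    change s ((a : E) ((b : E) v)) = _
    rw [ha, hb, b.2.1]
    ring
  inv_mem' := by
    rintro a ⟨w, hw, ha⟩
    refine ⟨-w, W.neg_mem hw, fun v => ?_⟩
    have h1 := ha ((a : E)⁻¹ v)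
    have h2 := (a⁻¹).2.1 v
    rw [inv_app] at h1
    change ((a : E)⁻¹ v) 0 = v 0 at h2
    change s ((a : E)⁻¹ v) = _
    rw [h1, h2]
    ring

noncomputable def H : Subgroup G := K ⊓ M ⊥

lemma mem_H (g : G) : g ∈ H ↔ g ∈ K ∧ ∀ v, s ((g : E) v) = s v := by
  refine and_congr_right fun _ => ⟨?_, fun h => ⟨0, AddSubgroup.zero_mem _, fun v => by simp [h]⟩⟩
  rintro ⟨w, hw, h⟩ v
  rw [AddSubgroup.mem_bot] at hw
  simp [h, hw]

noncomputable def tr (w : ℚ) (n : ℕ) : G :=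
  ⟨tv (Finsupp.lapply 0) (w • e (n + 1)) (by simp), tv_G _ _ _ (by simp)
    ⟨0, fun i hi => by simp [Finsupp.single_apply, hi.ne']⟩⟩

lemma tr_app (w : ℚ) (n : ℕ) (v : V) : (tr w n : E) v = v + v 0 • w • e (n + 1) := rfl

lemma tr_T (w : ℚ) (n : ℕ) : tr w n ∈ T n := fun i h1 h2 =>
  tv_Fx (Finsupp.lapply 0) (w • e (n + 1)) (by simp) _ (by simp [Finsupp.single_apply]; omega)
    (by simp [Finsupp.single_apply]; omega)

lemma tr_M (w : ℚ) (n : ℕ) (W : AddSubgroup ℚ) : tr w n ∈ M W ↔ w ∈ W := by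
  constructor
  · rintro ⟨w', hw', h⟩
    have := h (e 0)
    rw [tr_app, map_add, map_smul, map_smul, s_e, s_e] at this
    simp at this
    rwa [this]
  · intro hw
    refine ⟨w, hw, fun v => ?_⟩
    rw [tr_app, map_add, map_smul, map_smul, s_e]
    simp [mul_comm]

lemma tr_K (n : ℕ) : tr 1 n ∉ K := by
  intro h
  have h1 : (tr 1 n : E) (e 0) = e 0 := h
  have := DFunLike.congr_fun h1 (n + 1)
  simp [tr_app] at this

lemma cov1 : top tails K ⋖ top tails ⊤ := by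
  refine top_covBy tails le_top (fun n => ⟨tr 1 n, trivial, tr_T 1 n, tr_K n⟩) ?_
  intro n q g _ hq hqK _ hg hgK
  set a' : V := (q : E) (e 0) - e 0 with ha'
  set a : V := (g : E) (e 0) - e 0 with ha
  have h1 : ∀ i ≤ n, a' i = 0 := fun i hi => by simp [ha', coord hq _ i hi]
  have h2 : ∀ i ≤ n, a i = 0 := fun i hi => by simp [ha, coord hg _ i hi]
  let U : Submodule ℚ (V →ₗ[ℚ] ℚ) :=
    { carrier := {f | (∀ i ≤ n, f (e i) = 0) ∧ ∃ m, ∀ i, m < i → f (e i) = 0}
      zero_mem' := ⟨fun _ _ => rfl, 0, fun _ _ => rfl⟩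
      add_mem' := by
        rintro f f' ⟨h, m, hm⟩ ⟨h', m', hm'⟩
        exact ⟨fun i hi => by simp only [LinearMap.add_apply, h i hi, h' i hi, add_zero], max m m',
          fun i hi => by simp only [LinearMap.add_apply, hm i (by omega), hm' i (by omega), add_zero]⟩
      smul_mem' := by
        rintro c f ⟨h, m, hm⟩
        exact ⟨fun i hi => by simp only [LinearMap.smul_apply, h i hi, smul_zero], m,
          fun i hi => by simp only [LinearMap.smul_apply, hm i hi, smul_zero]⟩ }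
  have hU : ∀ j, n < j → Finsupp.lapply j ∈ U := fun j hj =>
    ⟨fun i hi => by simp [Finsupp.single_apply]; omega, j, fun i hi => by
      simp [Finsupp.single_apply]; omega⟩
  obtain ⟨i, hi⟩ : ∃ i, a' i ≠ 0 := by
    by_contra hc
    push Not at hc
    exact hqK (sub_eq_zero.1 (Finsupp.ext hc : a' = 0))
  obtain ⟨j, hj⟩ : ∃ j, a j ≠ 0 := by
    by_contra hc
    push Not at hc
    exact hgK (sub_eq_zero.1 (Finsupp.ext hc : a = 0))
  obtain ⟨f, hf, hf1, hf2⟩ := two_fun U (LinearMap.applyₗ a') (LinearMap.applyₗ a)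
    (hU i (lt_of_not_ge fun h => hi (h1 i h))) (hU j (lt_of_not_ge fun h => hj (h2 j h))) hi hj
  change f a' = 1 at hf1
  change f a ≠ 0 at hf2
  have h3 : 1 + f (a - a') ≠ 0 := by rw [map_sub, hf1]; simpa using hf2
  let h : G := ⟨tv f (a - a') h3, tv_G _ _ _ (by simp [h1, h2]) hf.2⟩
  have hT : h ∈ T n := fun i _ hi => tv_Fx _ _ h3 _ (hf.1 i hi) (by simp [h1 i hi, h2 i hi])
  have hK : h ∈ K := by
    change tv f (a - a') h3 (e 0) = e 0
    rw [tv_app, hf.1 0 (Nat.zero_le _), zero_smul, add_zero]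
  have h4 : (h : E) ((q : E) (e 0)) = (g : E) (e 0) := by
    change tv f (a - a') h3 _ = _
    have h5 : (q : E) (e 0) = e 0 + a' := by rw [ha']; abel
    have h6 : (g : E) (e 0) = e 0 + a := by rw [ha]; abel
    rw [tv_app, h5, h6, map_add, hf1, hf.1 0 (Nat.zero_le _), zero_add, one_smul]
    abel
  refine ⟨h, q⁻¹ * h⁻¹ * g, hK, hT, ?_, Subgroup.mul_mem _ (Subgroup.mul_mem _
    (Subgroup.inv_mem _ hq) (Subgroup.inv_mem _ hT)) hg, by group⟩
  change (q : E)⁻¹ ((h : E)⁻¹ ((g : E) (e 0))) = e 0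
  rw [← h4, app_inv, app_inv]

lemma cov2 : top tails H ⋖ top tails K := by
  refine top_covBy tails inf_le_left (fun n => ?_) ?_
  · refine ⟨⟨tv (Finsupp.lapply (n + 1)) (e (n + 1)) (by simp), tv_G _ _ _ (by simp)
      ⟨n + 1, fun i hi => by simp [Finsupp.single_apply, hi.ne']⟩⟩, ?_, fun i h1 h2 =>
      tv_Fx (Finsupp.lapply (n + 1)) (e (n + 1)) (by simp) _
        (by simp [Finsupp.single_apply]; omega) (by simp [Finsupp.single_apply]; omega),
      fun h => ?_⟩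
    · change tv (Finsupp.lapply (n + 1)) (e (n + 1)) (by simp) (e 0) = e 0
      simp [tv_app]
    · have := ((mem_H _).1 h).2 (e (n + 1))
      change s (tv (Finsupp.lapply (n + 1)) (e (n + 1)) (by simp) (e (n + 1))) = _ at this
      rw [tv_app, map_add, map_smul, s_e] at this
      simp at this
  intro n q g hqK hq hqH hgK hg hgH
  let β : G → V →ₗ[ℚ] ℚ := fun g => s ∘ₗ (g : E).toLinearMap - s
  have hβ : ∀ g v, β g v = s ((g : E) v) - s v := fun _ _ => rfl
  have h1 : ∀ g : G, g ∈ K → g ∈ T n → ∀ i ≤ n, β g (e i) = 0 := by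
    intro g h1 h2 i hi
    rcases Nat.eq_zero_or_pos i with rfl | h
    · rw [hβ, show (g : E) (e 0) = e 0 from h1, sub_self]
    · rw [hβ, (h2 i h hi).1, sub_self]
  have h2 : ∀ g : G, g ∈ K → g ∉ H → ∃ i, β g (e i) ≠ 0 := by
    intro g h1 h2
    by_contra hc
    push Not at hc
    have h3 : β g = 0 := Finsupp.lhom_ext' fun i => by
      ext1
      exact hc i
    refine h2 ((mem_H g).2 ⟨h1, fun v => ?_⟩)
    rw [← sub_eq_zero, ← hβ, h3]
    rfl
  let U : Submodule ℚ V :=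
    { carrier := {x | ∀ i ≤ n, x i = 0}
      zero_mem' := fun _ _ => rfl
      add_mem' := fun {x y} hx hy i hi => by simp [hx i hi, hy i hi]
      smul_mem' := fun c x hx i hi => by simp [hx i hi] }
  have hU : ∀ j, n < j → e j ∈ U := fun j hj i hi => by simp [Finsupp.single_apply]; omega
  obtain ⟨i, hi⟩ := h2 q hqK hqH
  obtain ⟨j, hj⟩ := h2 g hgK hgH
  obtain ⟨y, hy, hy1, hy2⟩ := two_fun U (β q) (β g)
    (hU i (lt_of_not_ge fun h => hi (h1 q hqK hq i h)))
    (hU j (lt_of_not_ge fun h => hj (h1 g hgK hg j h))) hi hj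
  obtain ⟨m, hm⟩ := q.2.2
  obtain ⟨m', hm'⟩ := g.2.2
  have hbq : ∀ i, m < i → β q (e i) = 0 := fun i hi => by rw [hβ, (hm i hi).1, sub_self]
  have hbg : ∀ i, m' < i → β g (e i) = 0 := fun i hi => by rw [hβ, (hm' i hi).1, sub_self]
  set x : V := y - s y • e (n + m + m' + 1) with hx
  have hxU : x ∈ U := U.sub_mem hy (U.smul_mem _ (hU _ (by omega)))
  have hx0 : s x = 0 := by rw [hx, map_sub, map_smul, s_e]; simp
  have hx1 : β q x = 1 := by rw [hx, map_sub, map_smul, hbq _ (by omega), hy1]; simp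
  have hx2 : β g x ≠ 0 := by rw [hx, map_sub, map_smul, hbg _ (by omega)]; simpa using hy2
  have h3 : 1 + (β g - β q) x ≠ 0 := by rw [LinearMap.sub_apply, hx1]; simpa using hx2
  let h : G := ⟨tv (β g - β q) x h3, tv_G _ _ _ (hxU 0 (Nat.zero_le _)) ⟨m + m', fun i hi => by
    rw [LinearMap.sub_apply, hbq i (by omega), hbg i (by omega), sub_self]⟩⟩
  have hf : ∀ i ≤ n, (β g - β q) (e i) = 0 := fun i hi => by
    rw [LinearMap.sub_apply, h1 q hqK hq i hi, h1 g hgK hg i hi, sub_self]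
  have hT : h ∈ T n := fun i _ hi => tv_Fx _ _ h3 _ (hf i hi) (hxU i hi)
  have hK : h ∈ K := by
    change tv _ x h3 (e 0) = e 0
    rw [tv_app, hf 0 (Nat.zero_le _), zero_smul, add_zero]
  have hs : ∀ v, s ((h : E) v) = s v := fun v => by
    change s (tv _ x h3 v) = _
    rw [tv_app, map_add, map_smul, hx0]
    simp
  have h4 : ∀ v, s ((q : E) ((h : E) v)) = s ((g : E) v) := fun v => by
    have h5 := hβ q ((h : E) v)
    have h6 : β q ((h : E) v) = β g v := by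
      change β q (tv _ x h3 v) = _
      rw [tv_app, map_add, map_smul, hx1, LinearMap.sub_apply (β g) (β q), smul_eq_mul]
      ring
    rw [h6, hs, hβ] at h5
    linarith
  refine ⟨g * h⁻¹ * q⁻¹, h, (mem_H _).2 ⟨Subgroup.mul_mem _ (Subgroup.mul_mem _ hgK
    (Subgroup.inv_mem _ hK)) (Subgroup.inv_mem _ hqK), fun v => ?_⟩, Subgroup.mul_mem _
    (Subgroup.mul_mem _ hg (Subgroup.inv_mem _ hT)) (Subgroup.inv_mem _ hq),
    (mem_H _).2 ⟨hK, hs⟩, hT, by group⟩
  change s ((g : E) ((h : E)⁻¹ ((q : E)⁻¹ v))) = s v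
  rw [← h4, inv_app, inv_app]

def W (j : ℕ) : AddSubgroup ℚ := AddSubgroup.zmultiples ((2 : ℚ) ^ j)

lemma W_not (j : ℕ) (x : ℚ) (h0 : 0 < x) (h1 : x < 2 ^ j) : x ∉ W j := by
  rintro ⟨k, hk⟩
  change k • (2 : ℚ) ^ j = x at hk
  rw [zsmul_eq_mul] at hk
  have hp : (0 : ℚ) < 2 ^ j := by positivity
  have h2 : (0 : ℚ) < k := by
    by_contra hc
    nlinarith
  have h3 : (k : ℚ) < 1 := by
    by_contra hc
    nlinarith
  have h4 : 0 < k := by exact_mod_cast h2
  have h5 : k < 1 := by exact_mod_cast h3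
  omega

lemma M_mono {W W' : AddSubgroup ℚ} (h : W ≤ W') : M W ≤ M W' := by
  rintro g ⟨w, hw, hg⟩
  exact ⟨w, h hw, hg⟩

lemma chain_anti : StrictAnti fun j => top tails (M (W j)) := by
  refine strictAnti_nat_of_succ_lt fun j => top_lt tails (M_mono ?_) fun n =>
    ⟨tr (2 ^ j) n, (tr_M _ _ _).2 (AddSubgroup.mem_zmultiples _), tr_T _ _, fun h =>
      W_not (j + 1) _ (by positivity) (by rw [pow_succ]; nlinarith [pow_pos (two_pos (α := ℚ)) j])
        ((tr_M _ _ _).1 h)⟩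
  rw [W, AddSubgroup.zmultiples_le]
  exact ⟨2, by simp [pow_succ, mul_comm]⟩


/-- There is a countable infinite group with a Hausdorff non-discrete group topology, a finite maximal (non-refinable) chain of Hausdorff group topologies τ0..τk, and an infinite chain of group topologies all strictly between τ0 and τk. -/
theorem result :
    ∃ (G : Type) (_ : Group G), Countable G ∧ Infinite G ∧
      (∃ t : GroupTopology G, @T2Space G t.toTopologicalSpace ∧ t.toTopologicalSpace ≠ ⊥) ∧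
      ∃ (k : ℕ) (τ : Fin (k + 1) → GroupTopology G),
        (∀ i : Fin k, τ i.castSucc ⋖ τ i.succ) ∧
        (∀ i : Fin (k + 1), @T2Space G (τ i).toTopologicalSpace) ∧
        ∃ S : Set (GroupTopology G), S.Infinite ∧ IsChain (· ≤ ·) S ∧
          ∀ s ∈ S, τ 0 < s ∧ s < τ (Fin.last k) := by
  have hinf : Infinite G := Infinite.of_injective (fun w : ℚ => tr w 0) fun w w' h => by
    have h1 : tr w 0 ∈ M (AddSubgroup.zmultiples w') := by
      have h2 : tr w 0 = tr w' 0 := h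
      rw [h2]
      exact (tr_M _ _ _).2 (AddSubgroup.mem_zmultiples _)
    have h2 : (tr w 0 : E) (e 0) = (tr w' 0 : E) (e 0) := by
      have h2 : tr w 0 = tr w' 0 := h
      rw [h2]
    have := DFunLike.congr_fun h2 1
    simpa [tr_app] using this
  refine ⟨G, inferInstance, countG, hinf, ⟨top tails ⊤, top_t2 _ _, fun h => ?_⟩, 2,
    ![top tails H, top tails K, top tails ⊤], ?_, ?_, Set.range fun j => top tails (M (W j)),
    Set.infinite_range_of_injective chain_anti.injective, ?_, ?_⟩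
  · refine cov1.lt.not_ge ?_
    rw [← GroupTopology.toTopologicalSpace_le, h]
    exact bot_le
  · intro i
    fin_cases i
    · exact cov2
    · exact cov1
  · intro i
    fin_cases i <;> exact top_t2 _ _
  · rintro _ ⟨i, rfl⟩ _ ⟨j, rfl⟩ _
    rcases le_total i j with h | h
    · exact Or.inr (chain_anti.antitone h)
    · exact Or.inl (chain_anti.antitone h)
  · rintro _ ⟨j, rfl⟩
    refine ⟨top_lt tails (inf_le_right.trans (M_mono bot_le)) fun n =>
      ⟨tr (2 ^ j) n, (tr_M _ _ _).2 (AddSubgroup.mem_zmultiples _), tr_T _ _, fun h => ?_⟩,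
      top_lt tails le_top fun n => ⟨tr (1 / 2) n, trivial, tr_T _ _, fun h => ?_⟩⟩
    · have := (tr_M _ _ _).1 h.2
      simp at this
    · exact W_not j _ (by norm_num) (lt_of_lt_of_le (by norm_num) (one_le_pow₀ one_le_two))
        ((tr_M _ _ _).1 h)

end Pool.Agent.S01079
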