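import Pool.Statements.S01104
import Pool.Agent.H15.ProtC

set_option autoImplicit false
open Pointwise
open Pool Pool.MP_317811_al

namespace Pool.Agent.S01104

theorem result :
    ¬ (∀ (G : Type) [Group G] (n : ℕ) (A : Fin n → Set G),
      Pairwise (fun i j => Disjoint (A i) (A j)) →
      (⋃ i, A i) = Set.univ →
      ∃ i : Fin n, ∃ F : Finset G, F.card ≤ n ∧
        (A i)⁻¹ * A i * (F : Set G) = Set.univ) := by
  intro H
  obtain ⟨c, hc⟩ := Pool.Agent.H15.Prot.main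
  obtain ⟨i, F, hF, h⟩ := H (FreeGroup ℕ) 4 (fun i => {a | c a⁻¹ = i})
    (fun i j hij => Set.disjoint_left.mpr fun a h1 h2 => hij (h1.symm.trans h2))
    (Set.eq_univ_of_forall fun a => Set.mem_iUnion.mpr ⟨c a⁻¹, rfl⟩)
  obtain ⟨t, ht⟩ := hc i F.toList (by simpa using hF)
  have hm : t ∈ ({a | c a⁻¹ = i} : Set (FreeGroup ℕ))⁻¹ * {a | c a⁻¹ = i} *
      (F : Set (FreeGroup ℕ)) := by
    rw [h]; trivial
  obtain ⟨_, ⟨a, ha, b, hb, rfl⟩, f, hf, rfl⟩ := hm
  refine ht (b * f)⁻¹ f (by simpa using hf) ⟨?_, ?_⟩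
  · have h1 : a * b * f * (b * f)⁻¹ = a := by group
    simp only [h1]
    simpa using ha
  · have h1 : f * (b * f)⁻¹ = b⁻¹ := by group
    rw [h1]
    exact hb

end Pool.Agent.S01104
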