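import Pool.Statements.S01117

set_option autoImplicit false
set_option linter.unusedSectionVars false
open Pool Pool.MP_32c87b_al

namespace Pool.Agent.S01117

/-- Points: a level (bottom or top), an index in a well-order and a group element.
The label function `s` is a parameter of the type. -/
@[ext] structure Om (G W : Type) (s : W → W → G) where
  b : Bool
  w : W
  x : G

section
variable {G W : Type} [Group G] [Lattice G] [MulLeftMono G] [MulRightMono G] [LinearOrder W]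
  {s : W → W → G}

instance : PartialOrder (Om G W s) where
  le p q := (p.b = q.b ∧ p.w = q.w ∧ p.x ≤ q.x) ∨
    (p.b = false ∧ q.b = true ∧ p.w ≤ q.w ∧ p.x * s p.w q.w ≤ q.x)
  le_refl p := Or.inl ⟨rfl, rfl, le_rfl⟩
  le_trans := by
    rintro ⟨pb, pw, px⟩ ⟨qb, qw, qx⟩ ⟨rb, rw, rx⟩ h1 h2
    simp only at h1 h2 ⊢
    rcases h1 with ⟨rfl, rfl, h1⟩ | ⟨rfl, rfl, h1, h1'⟩
    · rcases h2 with ⟨rfl, rfl, h2⟩ | ⟨rfl, rfl, h2, h2'⟩
      · exact Or.inl ⟨rfl, rfl, h1.trans h2⟩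
      · exact Or.inr ⟨rfl, rfl, h2, (mul_le_mul_left h1 _).trans h2'⟩
    · rcases h2 with ⟨rfl, rfl, h2⟩ | ⟨h, -⟩
      · exact Or.inr ⟨rfl, rfl, h1, h1'.trans h2⟩
      · exact absurd h (by simp)
  le_antisymm := by
    rintro ⟨pb, pw, px⟩ ⟨qb, qw, qx⟩ h1 h2
    simp only at h1 h2
    rcases h1 with ⟨rfl, rfl, h1⟩ | ⟨rfl, rfl, h1, h1'⟩
    · rcases h2 with ⟨-, -, h2⟩ | ⟨rfl, h, -⟩
      · rw [le_antisymm h1 h2]
      · exact absurd h (by simp)
    · rcases h2 with ⟨h, -⟩ | ⟨h, -⟩ <;> exact absurd h (by simp)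

lemma le_def (p q : Om G W s) : p ≤ q ↔ (p.b = q.b ∧ p.w = q.w ∧ p.x ≤ q.x) ∨
    (p.b = false ∧ q.b = true ∧ p.w ≤ q.w ∧ p.x * s p.w q.w ≤ q.x) := Iff.rfl

/-- Equal or adjacent classes. -/
def C (p q : Om G W s) : Prop := (p.b = q.b ∧ p.w = q.w) ∨
  (p.b = false ∧ q.b = true ∧ p.w ≤ q.w) ∨ (p.b = true ∧ q.b = false ∧ q.w ≤ p.w)

lemma C_iff (p q : Om G W s) :
    C p q ↔ (∃ r, p ≤ r ∧ q ≤ r) ∧ (∃ r, r ≤ p ∧ r ≤ q) := by
  obtain ⟨pb, pw, px⟩ := p
  obtain ⟨qb, qw, qx⟩ := q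
  constructor
  · rintro (⟨h1, h2⟩ | ⟨h1, h2, h3⟩ | ⟨h1, h2, h3⟩) <;> simp only at h1 h2 <;> subst h1 h2
    · exact ⟨⟨⟨pb, pw, px ⊔ qx⟩, Or.inl ⟨rfl, rfl, le_sup_left⟩, Or.inl ⟨rfl, rfl, le_sup_right⟩⟩,
        ⟨⟨pb, pw, px ⊓ qx⟩, Or.inl ⟨rfl, rfl, inf_le_left⟩, Or.inl ⟨rfl, rfl, inf_le_right⟩⟩⟩
    · refine ⟨⟨⟨true, qw, (px * s pw qw) ⊔ qx⟩, Or.inr ⟨rfl, rfl, h3, le_sup_left⟩,
        Or.inl ⟨rfl, rfl, le_sup_right⟩⟩,
        ⟨⟨false, pw, px ⊓ (qx * (s pw qw)⁻¹)⟩, Or.inl ⟨rfl, rfl, inf_le_left⟩,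
        Or.inr ⟨rfl, rfl, h3, ?_⟩⟩⟩
      exact le_mul_inv_iff_mul_le.mp inf_le_right
    · refine ⟨⟨⟨true, pw, px ⊔ (qx * s qw pw)⟩, Or.inl ⟨rfl, rfl, le_sup_left⟩,
        Or.inr ⟨rfl, rfl, h3, le_sup_right⟩⟩,
        ⟨⟨false, qw, (px * (s qw pw)⁻¹) ⊓ qx⟩, Or.inr ⟨rfl, rfl, h3, ?_⟩,
        Or.inl ⟨rfl, rfl, inf_le_right⟩⟩⟩
      exact le_mul_inv_iff_mul_le.mp inf_le_left
  · rintro ⟨⟨⟨ub, uw, ux⟩, hu1, hu2⟩, ⟨⟨lb, lw, lx⟩, hl1, hl2⟩⟩
    simp only [le_def, C] at hu1 hu2 hl1 hl2 ⊢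
    cases pb <;> cases qb <;> cases ub <;> cases lb <;> simp_all

lemma C_map (f : Om G W s ≃o Om G W s) (p q : Om G W s) : C (f p) (f q) ↔ C p q := by
  rw [C_iff, C_iff]
  constructor
  · rintro ⟨⟨u, h1, h2⟩, ⟨l, h3, h4⟩⟩
    exact ⟨⟨f.symm u, f.le_symm_apply.mpr h1, f.le_symm_apply.mpr h2⟩,
      ⟨f.symm l, f.symm_apply_le.mpr h3, f.symm_apply_le.mpr h4⟩⟩
  · rintro ⟨⟨u, h1, h2⟩, ⟨l, h3, h4⟩⟩
    exact ⟨⟨f u, f.monotone h1, f.monotone h2⟩, ⟨f l, f.monotone h3, f.monotone h4⟩⟩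

lemma top_iff {w0 w1 : W} (h01 : w0 < w1) (h0 : ∀ w, w0 ≤ w) (p : Om G W s) :
    p.b = true ↔ ∀ q r, p ≤ q → (C q r ↔ C p r) := by
  obtain ⟨pb, pw, px⟩ := p
  constructor
  · rintro h ⟨qb, qw, qx⟩ r hq
    simp only at h
    subst h
    rcases hq with ⟨h1, h2, -⟩ | ⟨h1, -⟩
    · simp only at h1 h2
      subst h1 h2
      rfl
    · exact absurd h1 (by simp)
  · intro h
    cases pb with
    | true => rfl
    | false =>
      exfalso
      have hq : (⟨false, pw, px⟩ : Om G W s) ≤ ⟨true, max pw w1, px * s pw (max pw w1)⟩ :=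
        Or.inr ⟨rfl, rfl, le_max_left _ _, le_rfl⟩
      by_cases hw : pw = w0
      · have := (h _ ⟨false, w1, 1⟩ hq).mp (Or.inr (Or.inr ⟨rfl, rfl, le_max_right _ _⟩))
        simp only [C] at this
        simp only [true_and, Bool.false_eq_true, false_and, and_false, or_false] at this
        exact h01.ne (hw.symm.trans this)
      · have := (h _ ⟨false, w0, 1⟩ hq).mp (Or.inr (Or.inr ⟨rfl, rfl, h0 _⟩))
        simp only [C] at this
        simp only [true_and, Bool.false_eq_true, false_and, and_false, or_false] at this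
        exact hw this

lemma map_b {w0 w1 : W} (h01 : w0 < w1) (h0 : ∀ w, w0 ≤ w) (f : Om G W s ≃o Om G W s)
    (p : Om G W s) : (f p).b = p.b := by
  have : (f p).b = true ↔ p.b = true := by
    rw [top_iff h01 h0, top_iff h01 h0]
    constructor
    · intro h q r hq
      rw [← C_map f, ← C_map f p]
      exact h _ _ (f.monotone hq)
    · intro h q r hq
      obtain ⟨q, rfl⟩ := f.surjective q
      obtain ⟨r, rfl⟩ := f.surjective r
      rw [C_map, C_map]
      exact h _ _ (f.le_iff_le.mp hq)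
  cases h1 : (f p).b <;> cases h2 : p.b <;> simp_all

lemma bot_le_iff (p q : Om G W s) (hp : p.b = false) (hq : q.b = false) :
    p.w ≤ q.w ↔ ∀ r : Om G W s, r.b = true → C q r → C p r := by
  constructor
  · intro h r hr hc
    simp only [C, hp, hq, hr] at hc ⊢
    simp only [Bool.false_eq_true, false_and, true_and, false_or, or_false] at hc ⊢
    exact h.trans hc
  · intro h
    have := h ⟨true, q.w, 1⟩ rfl (Or.inr (Or.inl ⟨hq, rfl, le_rfl⟩))
    simp only [C, hp] at this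
    simpa using this

lemma map_bot_le {w0 w1 : W} (h01 : w0 < w1) (h0 : ∀ w, w0 ≤ w) (f : Om G W s ≃o Om G W s)
    (p q : Om G W s) (hp : p.b = false) (hq : q.b = false) :
    (f p).w ≤ (f q).w ↔ p.w ≤ q.w := by
  rw [bot_le_iff p q hp hq, bot_le_iff (f p) (f q) ((map_b h01 h0 f p).trans hp)
    ((map_b h01 h0 f q).trans hq)]
  constructor
  · intro h r hr hc
    rw [← C_map f] at hc ⊢
    exact h _ ((map_b h01 h0 f r).trans hr) hc
  · intro h r hr hc
    obtain ⟨r, rfl⟩ := f.surjective r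
    rw [C_map f] at hc ⊢
    exact h _ ((map_b h01 h0 f r).symm.trans hr) hc

lemma le_map_w [WellFoundedLT W] {w0 w1 : W} (h01 : w0 < w1) (h0 : ∀ w, w0 ≤ w)
    (f : Om G W s ≃o Om G W s) (p : Om G W s) (hp : p.b = false) : p.w ≤ (f p).w := by
  have hm : StrictMono fun w : W => (f ⟨false, w, 1⟩).w := by
    intro a b hab
    exact lt_of_not_ge fun h =>
      (not_le.mpr hab) ((map_bot_le h01 h0 f ⟨false, b, 1⟩ ⟨false, a, 1⟩ rfl rfl).mp h)
  exact (hm.le_apply (x := p.w)).trans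
    ((map_bot_le h01 h0 f ⟨false, p.w, 1⟩ p rfl hp).mpr le_rfl)

lemma map_w [WellFoundedLT W] {w0 w1 : W} (h01 : w0 < w1) (h0 : ∀ w, w0 ≤ w)
    (f : Om G W s ≃o Om G W s) (p : Om G W s) : (f p).w = p.w := by
  have hbot : ∀ q : Om G W s, q.b = false → (f q).w = q.w := by
    intro q hq
    refine le_antisymm ?_ (le_map_w h01 h0 f q hq)
    have := le_map_w h01 h0 f.symm (f q) ((map_b h01 h0 f q).trans hq)
    simpa using this
  cases hp : p.b with
  | false => exact hbot p hp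
  | true =>
    have key : ∀ w : W, w ≤ (f p).w ↔ w ≤ p.w := by
      intro w
      have h1 := C_map f ⟨false, w, 1⟩ p
      simp only [C, map_b h01 h0 f, hp, hbot ⟨false, w, 1⟩ rfl] at h1
      simpa using h1
    exact le_antisymm ((key _).mp le_rfl) ((key _).mpr le_rfl)

/-- Left multiplication. -/
def act (a : G) : Om G W s ≃o Om G W s where
  toFun p := ⟨p.b, p.w, a * p.x⟩
  invFun p := ⟨p.b, p.w, a⁻¹ * p.x⟩
  left_inv p := by simp
  right_inv p := by simp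
  map_rel_iff' := by
    intro p q
    simp only [Equiv.coe_fn_mk, le_def, mul_assoc, mul_le_mul_iff_left]

lemma act_surj [WellFoundedLT W] {w0 w1 : W} (h01 : w0 < w1) (h0 : ∀ w, w0 ≤ w)
    (hs0 : ∀ v, s w0 v = 1) (hs1 : ∀ w, s w w = 1) (hs : ∀ g : G, ∃ v, w1 ≤ v ∧ s w1 v = g)
    (f : Om G W s ≃o Om G W s) : ∃ a : G, act a = f := by
  have hf : ∀ p : Om G W s, f p = ⟨p.b, p.w, (f p).x⟩ := fun p =>
    Om.ext (map_b h01 h0 f p) (map_w h01 h0 f p) rfl
  have edge : ∀ (w v : W) (x : G), w ≤ v →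
      (f ⟨true, v, x * s w v⟩).x = (f ⟨false, w, x⟩).x * s w v := by
    intro w v x hwv
    apply le_antisymm
    · obtain ⟨q, hq⟩ := f.surjective ⟨true, v, (f ⟨false, w, x⟩).x * s w v⟩
      have hqb : q.b = true := by rw [← map_b h01 h0 f q, hq]
      have hqw : q.w = v := by rw [← map_w h01 h0 f q, hq]
      have h1 : f ⟨false, w, x⟩ ≤ f q := by
        rw [hq, hf ⟨false, w, x⟩]
        exact Or.inr ⟨rfl, rfl, hwv, le_rfl⟩
      have h2 := f.le_iff_le.mp h1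
      have h3 : x * s w v ≤ q.x := by
        rcases h2 with ⟨h, -⟩ | ⟨-, -, -, h⟩
        · rw [hqb] at h; exact absurd h (by simp)
        · rwa [hqw] at h
      have h4 : (⟨true, v, x * s w v⟩ : Om G W s) ≤ q := Or.inl ⟨hqb.symm, hqw.symm, h3⟩
      have h5 := f.monotone h4
      rw [hq, hf ⟨true, v, x * s w v⟩] at h5
      rcases h5 with ⟨-, -, h⟩ | ⟨h, -⟩
      · exact h
      · exact absurd h (by simp)
    · have h4 : (⟨false, w, x⟩ : Om G W s) ≤ ⟨true, v, x * s w v⟩ := Or.inr ⟨rfl, rfl, hwv, le_rfl⟩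
      have h5 := f.monotone h4
      rw [hf ⟨false, w, x⟩, hf ⟨true, v, x * s w v⟩] at h5
      rcases h5 with ⟨h, -⟩ | ⟨-, -, -, h⟩
      · exact absurd h (by simp)
      · exact h
  have htop : ∀ (v : W) (x : G), (f ⟨true, v, x⟩).x = (f ⟨false, w0, x⟩).x := by
    intro v x
    simpa [hs0] using edge w0 v x (h0 v)
  have hbot : ∀ (v : W) (x : G), (f ⟨false, v, x⟩).x = (f ⟨false, w0, x⟩).x := by
    intro v x
    rw [← htop v x]
    simpa [hs1] using (edge v v x le_rfl).symm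
  have hlin : ∀ x : G, (f ⟨false, w0, x⟩).x = (f ⟨false, w0, 1⟩).x * x := by
    intro x
    obtain ⟨v, hv, hx⟩ := hs x
    have := edge w1 v 1 hv
    rw [hx, one_mul, htop, hbot w1 1] at this
    exact this
  refine ⟨(f ⟨false, w0, 1⟩).x, ?_⟩
  refine DFunLike.ext _ _ fun p => ?_
  obtain ⟨pb, pw, px⟩ := p
  rw [hf ⟨pb, pw, px⟩]
  refine Om.ext rfl rfl ?_
  cases pb
  · exact ((hbot pw px).trans (hlin px)).symm
  · exact ((htop pw px).trans (hlin px)).symm

end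

/-- A copy of a type without its instances. -/
structure Cp (G : Type) where
  down : G

/-- The labels: only the edges from the second index to the indices above it carry a label. -/
def lab {G : Type} [Group G] : WithBot (WithBot (Cp G)) → WithBot (WithBot (Cp G)) → G
  | some none, some (some g) => g.down
  | _, _ => 1

/-- Every lattice-ordered group G is isomorphic, as a group and as an ordered set, to the group of order automorphisms of some poset Ω under composition, with automorphisms ordered pointwise. -/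
theorem result :
    ∀ (G : Type) [Group G] [Lattice G] [MulLeftMono G] [MulRightMono G],
      ∃ (Ω : Type) (_ : PartialOrder Ω) (φ : G → (Ω ≃o Ω)),
        Function.Bijective φ ∧
        (∀ a b : G, φ (a * b) = (φ b).trans (φ a)) ∧
        (∀ a b : G, a ≤ b ↔ ∀ x : Ω, φ a x ≤ φ b x) := by
  intro G _ _ _ _
  obtain ⟨lo, wf⟩ := exists_wellFoundedLT (Cp G)
  refine ⟨Om G (WithBot (WithBot (Cp G))) lab, inferInstance, act, ⟨?_, ?_⟩, ?_, ?_⟩
  · intro a b h
    have := congrArg (fun f : Om G (WithBot (WithBot (Cp G))) lab ≃o _ =>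
      (f ⟨false, ⊥, 1⟩).x) h
    simpa [act] using this
  · intro f
    refine act_surj (w0 := ⊥) (w1 := ((⊥ : WithBot (Cp G)) : WithBot (WithBot (Cp G))))
      (WithBot.bot_lt_coe _) (fun _ => bot_le) ?_ ?_ ?_ f
    · intro v; rfl
    · rintro (_ | _ | _) <;> rfl
    · intro g
      exact ⟨((Cp.mk g : Cp G) : WithBot (Cp G)), WithBot.coe_le_coe.mpr bot_le, rfl⟩
  · intro a b
    refine DFunLike.ext _ _ fun p => ?_
    refine Om.ext rfl rfl ?_
    simp [act, mul_assoc]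
  · intro a b
    constructor
    · intro h p
      exact Or.inl ⟨rfl, rfl, mul_le_mul_left h _⟩
    · intro h
      rcases h ⟨false, ⊥, 1⟩ with ⟨-, -, h⟩ | ⟨-, h, -⟩
      · simpa [act] using h
      · exact absurd h (by simp [act])

end Pool.Agent.S01117
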