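import Pool.Statements.S01121
import Pool.Agent.H3.Engel

set_option autoImplicit false
open Pool Pool.MP_32f798_al

namespace Pool.Agent.S01121

/-- For every n, every group that is n-Engel and admits a right-invariant strict total order also admits a right-invariant strict total order < in which 1<f<g implies g < f g^m f⁻¹ for some positive integer m. -/
theorem result :
    ∀ (n : ℕ) (G : Type) [Group G],
      (∀ x y : G, (fun z : G => z⁻¹ * y⁻¹ * z * y)^[n] x = 1) →
      (∃ r : G → G → Prop,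
        (∀ a, ¬ r a a) ∧ (∀ a b c, r a b → r b c → r a c) ∧
        (∀ a b, a = b ∨ r a b ∨ r b a) ∧
        (∀ a b c, r a b → r (a * c) (b * c))) →
      ∃ r : G → G → Prop,
        (∀ a, ¬ r a a) ∧ (∀ a b c, r a b → r b c → r a c) ∧
        (∀ a b, a = b ∨ r a b ∨ r b a) ∧
        (∀ a b c, r a b → r (a * c) (b * c)) ∧
        (∀ f g : G, r 1 f → r f g → ∃ m : ℕ, 0 < m ∧ r g (f * g ^ m * f⁻¹)) := by
  rintro n G _ he ⟨r, h1, h2, h3, h4⟩
  exact ⟨r, h1, h2, h3, h4, fun f g hf hg => Pool.Agent.H3.Engel.conrad he r h1 h2 h3 h4 f g hf hg⟩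

end Pool.Agent.S01121
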