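import Pool.Statements.S01146
import Pool.Agent.H16.PartC

set_option autoImplicit false
open Pointwise
open Pool Pool.MP_34521c_al

namespace Pool.Agent.S01146

/-- The negation of the preceding statement: For every group G partitioned into n nonempty cells that pairwise commute as sets, some cell A has the property that at most n translates of A·A⁻¹ cover G. -/
theorem result :
    ¬ (∀ (G : Type) [Group G] (n : ℕ) (A : Fin n → Set G),
      (∀ i, (A i).Nonempty) →
      Pairwise (fun i j => Disjoint (A i) (A j)) →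
      (⋃ i, A i) = Set.univ →
      (∀ i j, A i * A j = A j * A i) →
      ∃ i : Fin n, ∃ F : Finset G, F.card ≤ n ∧
        (F : Set G) * (A i * (A i)⁻¹) = Set.univ) := by
  intro H
  classical
  obtain ⟨c, hc, hr⟩ := Pool.Agent.H16.Part.main
  have hall : ∀ i j : Fin 16, ({a | c a = i} * {a | c a = j} : Set (FreeGroup ℕ)) = Set.univ := by
    intro i j
    refine Set.eq_univ_of_forall fun g => ?_
    obtain ⟨a, ha, hb⟩ := hr g i j
    exact ⟨a, ha, a⁻¹ * g, hb, by simp⟩
  obtain ⟨i, F, hF, h⟩ := H (FreeGroup ℕ) 16 (fun i => {a | c a = i})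
    (fun i => by obtain ⟨a, ha, -⟩ := hr 1 i i; exact ⟨a, ha⟩)
    (fun i j hij => Set.disjoint_left.mpr fun a h1 h2 => hij (h1.symm.trans h2))
    (Set.eq_univ_of_forall fun a => Set.mem_iUnion.mpr ⟨c a, rfl⟩)
    (fun i j => by rw [hall, hall])
  obtain ⟨t, ht⟩ := hc i [1] (F.toList.map (·⁻¹)) (by simp) (by simpa using hF)
  have hm : t ∈ (F : Set (FreeGroup ℕ)) * ({a | c a = i} * {a | c a = i}⁻¹) := by
    rw [h]; trivial
  obtain ⟨x, hx, _, ⟨a, ha, b, hb, rfl⟩, rfl⟩ := hm
  refine ht b⁻¹ 1 (by simp) x⁻¹ (List.mem_map.2 ⟨x, by simpa using hx, rfl⟩) ⟨?_, ?_⟩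
  · have h1 : x⁻¹ * (x * (a * b) * b⁻¹) = a := by group
    simp only [h1]
    exact ha
  · rw [one_mul]
    exact hb

end Pool.Agent.S01146
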