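import Pool.Statements.S01178
import Pool.Agent.Lead.Kf1

set_option autoImplicit false
open Pool Pool.MP_36bee5_al

namespace Pool.Agent.S01178

open MvPolynomial Pool.Agent.Lead.Kf

noncomputable def JJ : Ideal S := Ideal.span {X 0 ^ 2 + X 1 ^ 2, X 2 ^ 2 + X 3 ^ 2}

noncomputable abbrev pr : S →+* S ⧸ JJ := Ideal.Quotient.mk JJ

theorem eqJ (p q : S) : pr p = pr q ↔
    ∃ a b, p = q + a * (X 0 ^ 2 + X 1 ^ 2) + b * (X 2 ^ 2 + X 3 ^ 2) := by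
  rw [Ideal.Quotient.eq, JJ, Ideal.mem_span_pair]
  constructor
  · rintro ⟨a, b, h⟩
    exact ⟨a, b, by linear_combination -h⟩
  · rintro ⟨a, b, h⟩
    exact ⟨a, b, by linear_combination -h⟩

noncomputable def sp (i : Fin 4) : Ideal (S ⧸ JJ) := Ideal.span {pr (X i)}

theorem mem_sp (i : Fin 4) (r : S ⧸ JJ) : r ∈ sp i ↔ ∃ u : S, r = pr (u * X i) := by
  rw [sp, Ideal.mem_span_singleton']
  constructor
  · rintro ⟨a, rfl⟩
    obtain ⟨u, rfl⟩ := Ideal.Quotient.mk_surjective a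
    exact ⟨u, by rw [map_mul]⟩
  · rintro ⟨u, rfl⟩
    exact ⟨pr u, by rw [map_mul]⟩

theorem mem_sup' (I : Ideal (S ⧸ JJ)) (i : Fin 4) (r : S ⧸ JJ) :
    r ∈ I ⊔ sp i ↔ ∃ y ∈ I, ∃ u : S, r = y + pr (u * X i) := by
  rw [Submodule.mem_sup]
  constructor
  · rintro ⟨y, hy, z, hz, rfl⟩
    obtain ⟨u, rfl⟩ := (mem_sp i z).1 hz
    exact ⟨y, hy, u, rfl⟩
  · rintro ⟨y, hy, u, rfl⟩
    exact ⟨y, hy, _, (mem_sp i _).2 ⟨u, rfl⟩, rfl⟩

theorem mem2 (i k : Fin 4) (r : S ⧸ JJ) :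
    r ∈ sp i ⊔ sp k ↔ ∃ u v : S, r = pr (u * X i + v * X k) := by
  simp only [mem_sup', mem_sp, map_add]
  constructor
  · rintro ⟨_, ⟨u, rfl⟩, v, rfl⟩
    exact ⟨u, v, rfl⟩
  · rintro ⟨u, v, rfl⟩
    exact ⟨_, ⟨u, rfl⟩, v, rfl⟩

theorem mem3 (i k l : Fin 4) (r : S ⧸ JJ) :
    r ∈ sp i ⊔ sp k ⊔ sp l ↔ ∃ u v w : S, r = pr (u * X i + v * X k + w * X l) := by
  rw [mem_sup']
  simp only [mem2]
  constructor
  · rintro ⟨_, ⟨u, v, rfl⟩, w, rfl⟩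
    exact ⟨u, v, w, by rw [← map_add]⟩
  · rintro ⟨u, v, w, rfl⟩
    exact ⟨_, ⟨u, v, rfl⟩, w, by rw [← map_add]⟩

theorem mem4 (i k l m : Fin 4) (r : S ⧸ JJ) :
    r ∈ sp i ⊔ sp k ⊔ sp l ⊔ sp m ↔
      ∃ u v w s : S, r = pr (u * X i + v * X k + w * X l + s * X m) := by
  rw [mem_sup']
  simp only [mem3]
  constructor
  · rintro ⟨_, ⟨u, v, w, rfl⟩, s, rfl⟩
    exact ⟨u, v, w, s, by rw [← map_add]⟩
  · rintro ⟨u, v, w, s, rfl⟩
    exact ⟨_, ⟨u, v, w, rfl⟩, s, by rw [← map_add]⟩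

theorem col (I : Ideal (S ⧸ JJ)) (i : Fin 4) (r : S ⧸ JJ) :
    (∀ y ∈ I ⊔ sp i, r * y ∈ I) ↔ pr (X i) * r ∈ I := by
  constructor
  · intro h
    rw [mul_comm]
    exact h _ (Ideal.mem_sup_right (Ideal.subset_span rfl))
  · intro h y hy
    obtain ⟨y', hy', u, rfl⟩ := (mem_sup' I i y).1 hy
    rw [mul_add, map_mul]
    refine add_mem (Ideal.mul_mem_left _ _ hy') ?_
    convert Ideal.mul_mem_left _ (pr u) h using 1
    ring

def Lin (I : Ideal (S ⧸ JJ)) : Prop :=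
  I = Ideal.span {y : S ⧸ JJ | y ∈ I ∧ ∃ p : S, p.IsHomogeneous 1 ∧ Ideal.Quotient.mk JJ p = y}

theorem lin_of (I : Ideal (S ⧸ JJ))
    (h : I ≤ Ideal.span {y : S ⧸ JJ | y ∈ I ∧ ∃ p : S, p.IsHomogeneous 1 ∧ pr p = y}) : Lin I :=
  le_antisymm h (Ideal.span_le.2 fun _ hy => hy.1)

theorem lin_sp (i : Fin 4) : Lin (sp i) :=
  lin_of _ (Ideal.span_le.2 (by
    rintro _ rfl
    exact Ideal.subset_span ⟨Ideal.subset_span rfl, X i, isHomogeneous_X _ _, rfl⟩))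

theorem lin_sup {I I' : Ideal (S ⧸ JJ)} (h : Lin I) (h' : Lin I') : Lin (I ⊔ I') := by
  apply lin_of
  refine sup_le ?_ ?_
  · refine h.le.trans (Ideal.span_mono ?_)
    rintro y ⟨h1, h2⟩
    exact ⟨Ideal.mem_sup_left h1, h2⟩
  · refine h'.le.trans (Ideal.span_mono ?_)
    rintro y ⟨h1, h2⟩
    exact ⟨Ideal.mem_sup_right h1, h2⟩

theorem max_eq : Ideal.span {y : S ⧸ JJ | ∃ p : S, p.IsHomogeneous 1 ∧ Ideal.Quotient.mk JJ p = y} =
    sp 0 ⊔ sp 2 ⊔ sp 1 ⊔ sp 3 := by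
  apply le_antisymm
  · apply Ideal.span_le.2
    rintro _ ⟨p, hp, rfl⟩
    obtain ⟨c, rfl⟩ := lin p hp
    exact (mem4 _ _ _ _ _).2 ⟨C (c 0), C (c 2), C (c 1), C (c 3), by congr 1; ring⟩
  · have : ∀ i, sp i ≤ Ideal.span {y : S ⧸ JJ | ∃ p : S, p.IsHomogeneous 1 ∧
        Ideal.Quotient.mk JJ p = y} := fun i => Ideal.span_le.2 (by
      rintro _ rfl
      exact Ideal.subset_span ⟨X i, isHomogeneous_X _ _, rfl⟩)
    exact sup_le (sup_le (sup_le (this 0) (this 2)) (this 1)) (this 3)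

theorem k0 (r : S ⧸ JJ) : r ∈ (⊥ : Ideal (S ⧸ JJ)) ↔ pr (X 0) * r ∈ (⊥ : Ideal (S ⧸ JJ)) := by
  refine ⟨fun h => Ideal.mul_mem_left _ _ h, fun h => ?_⟩
  obtain ⟨r, rfl⟩ := Ideal.Quotient.mk_surjective r
  rw [Ideal.mem_bot, ← map_mul, ← map_zero pr, eqJ] at h
  obtain ⟨a, b, h⟩ := h
  obtain ⟨a', b', h'⟩ := c1 (i := 0) (j := 1) (k := 2) (l := 3) (by decide) (by decide) (by decide)
    (by decide) (by decide) r a b (by linear_combination h)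
  rw [Ideal.mem_bot, ← map_zero pr, eqJ]
  exact ⟨a', b', by linear_combination h'⟩

theorem k1 (r : S ⧸ JJ) : r ∈ (⊥ : Ideal (S ⧸ JJ)) ↔ pr (X 1) * r ∈ (⊥ : Ideal (S ⧸ JJ)) := by
  refine ⟨fun h => Ideal.mul_mem_left _ _ h, fun h => ?_⟩
  obtain ⟨r, rfl⟩ := Ideal.Quotient.mk_surjective r
  rw [Ideal.mem_bot, ← map_mul, ← map_zero pr, eqJ] at h
  obtain ⟨a, b, h⟩ := h
  obtain ⟨a', b', h'⟩ := c1 (i := 1) (j := 0) (k := 2) (l := 3) (by decide) (by decide) (by decide)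
    (by decide) (by decide) r a b (by linear_combination h)
  rw [Ideal.mem_bot, ← map_zero pr, eqJ]
  exact ⟨a', b', by linear_combination h'⟩

theorem k02 (r : S ⧸ JJ) : r ∈ sp 0 ↔ pr (X 2) * r ∈ sp 0 := by
  refine ⟨fun h => Ideal.mul_mem_left _ _ h, fun h => ?_⟩
  obtain ⟨r, rfl⟩ := Ideal.Quotient.mk_surjective r
  obtain ⟨u, h⟩ := (mem_sp _ _).1 h
  rw [← map_mul, eqJ] at h
  obtain ⟨a, b, h⟩ := h
  obtain ⟨u', a', b', h'⟩ := c2 (i := 0) (j := 1) (k := 2) (l := 3) (by decide) (by decide)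
    (by decide) (by decide) (by decide) (by decide) r u a b (by linear_combination h)
  exact (mem_sp _ _).2 ⟨u', (eqJ _ _).2 ⟨a', b', by linear_combination h'⟩⟩

theorem k13 (r : S ⧸ JJ) : r ∈ sp 1 ↔ pr (X 3) * r ∈ sp 1 := by
  refine ⟨fun h => Ideal.mul_mem_left _ _ h, fun h => ?_⟩
  obtain ⟨r, rfl⟩ := Ideal.Quotient.mk_surjective r
  obtain ⟨u, h⟩ := (mem_sp _ _).1 h
  rw [← map_mul, eqJ] at h
  obtain ⟨a, b, h⟩ := h
  obtain ⟨u', a', b', h'⟩ := c2 (i := 1) (j := 0) (k := 3) (l := 2) (by decide) (by decide)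
    (by decide) (by decide) (by decide) (by decide) r u a b (by linear_combination h)
  exact (mem_sp _ _).2 ⟨u', (eqJ _ _).2 ⟨a', b', by linear_combination h'⟩⟩

theorem k021 (r : S ⧸ JJ) : r ∈ sp 0 ⊔ sp 2 ⊔ sp 1 ↔ pr (X 1) * r ∈ sp 0 ⊔ sp 2 := by
  constructor
  · intro h
    obtain ⟨u, v, w, rfl⟩ := (mem3 _ _ _ _).1 h
    rw [← map_mul]
    exact (mem2 _ _ _).2 ⟨X 1 * u - w * X 0, X 1 * v, (eqJ _ _).2 ⟨w, 0, by ring⟩⟩
  · intro h
    obtain ⟨r, rfl⟩ := Ideal.Quotient.mk_surjective r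
    obtain ⟨u, v, h⟩ := (mem2 _ _ _).1 h
    rw [← map_mul, eqJ] at h
    obtain ⟨a, b, h⟩ := h
    obtain ⟨u', v', w, b', h'⟩ := c3 r u v a b (by linear_combination h)
    exact (mem3 _ _ _ _).2 ⟨u', v', w, (eqJ _ _).2 ⟨0, b', by linear_combination h'⟩⟩

theorem k0213 (r : S ⧸ JJ) :
    r ∈ sp 0 ⊔ sp 2 ⊔ sp 1 ⊔ sp 3 ↔ pr (X 3) * r ∈ sp 0 ⊔ sp 2 ⊔ sp 1 := by
  constructor
  · intro h
    obtain ⟨u, v, w, s, rfl⟩ := (mem4 _ _ _ _ _).1 h
    rw [← map_mul]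
    exact (mem3 _ _ _ _).2 ⟨X 3 * u, X 3 * v - s * X 2, X 3 * w, (eqJ _ _).2 ⟨0, s, by ring⟩⟩
  · intro h
    obtain ⟨r, rfl⟩ := Ideal.Quotient.mk_surjective r
    obtain ⟨u, v, w, h⟩ := (mem3 _ _ _ _).1 h
    rw [← map_mul, eqJ] at h
    obtain ⟨a, b, h⟩ := h
    obtain ⟨u', v', w', s, h'⟩ := c4 r u v w a b (by linear_combination h)
    exact (mem4 _ _ _ _ _).2 ⟨u', v', w', s, by rw [h']⟩

theorem mem_prod (r : S ⧸ JJ) (h : r ∈ (sp 0 ⊔ sp 2) * (sp 1 ⊔ sp 3)) :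
    ∃ a : Fin 4 → S, r = pr (G a) := by
  refine Submodule.mul_induction_on h ?_ ?_
  · intro p hp q hq
    obtain ⟨u, v, rfl⟩ := (mem2 _ _ _).1 hp
    obtain ⟨u', v', rfl⟩ := (mem2 _ _ _).1 hq
    refine ⟨![u * u', u * v', v * u', v * v'], ?_⟩
    rw [← map_mul]
    congr 1
    simp only [G, Matrix.cons_val_zero, Matrix.cons_val_one, Matrix.cons_val]
    ring
  · rintro p q ⟨a, rfl⟩ ⟨b, rfl⟩
    refine ⟨a + b, ?_⟩
    rw [← map_add]
    congr 1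
    simp only [G, Pi.add_apply]
    ring

theorem xin (i k : Fin 4) : pr (X i) ∈ sp i ⊔ sp k := Ideal.mem_sup_left (Ideal.subset_span rfl)

theorem xin' (i k : Fin 4) : pr (X k) ∈ sp i ⊔ sp k := Ideal.mem_sup_right (Ideal.subset_span rfl)

theorem no_lin {b0 b1 : ℕ} (g : Fin b0 → S ⧸ JJ) (A : Matrix (Fin b0) (Fin b1) (S ⧸ JJ))
    (hA : ∀ a c, ∃ p : S, p.IsHomogeneous 1 ∧ Ideal.Quotient.mk JJ p = A a c)
    (hg : Ideal.span (Set.range g) = (sp 0 ⊔ sp 2) * (sp 1 ⊔ sp 3))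
    (hv : ∀ v : Fin b0 → S ⧸ JJ, ∑ j, v j * g j = 0 ↔ ∃ w, A.mulVec w = v) : False := by
  have h1 : ∀ j, ∃ a : Fin 4 → S, g j = pr (G a) := fun j =>
    mem_prod _ (hg ▸ Ideal.subset_span ⟨j, rfl⟩)
  choose a ha using h1
  have h2 : ∀ j k, ∃ c : Fin 4 → ℚ, A j k =
      pr (C (c 0) * X 0 + C (c 1) * X 1 + C (c 2) * X 2 + C (c 3) * X 3) := by
    intro j k
    obtain ⟨p, hp, e⟩ := hA j k
    obtain ⟨c, rfl⟩ := lin p hp
    exact ⟨c, e.symm⟩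
  choose c hc using h2
  have hcol : ∀ k, ∑ j, pr (C (constantCoeff (a j 1))) * A j k ∈ sp 1 ⊔ sp 2 := by
    intro k
    have e := (hv (fun j => A j k)).2 ⟨Pi.single k 1, by
      funext j
      simp [Matrix.mulVec_single_one]⟩
    simp only [hc, ha, ← map_mul, ← map_sum] at e
    rw [← map_zero pr, eqJ] at e
    obtain ⟨u, v, e⟩ := e
    rw [zero_add] at e
    have e1 := congrArg D1 e
    have e2 := congrArg D2 e
    rw [D1_J, map_sum] at e1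
    rw [D2_J, map_sum] at e2
    simp only [add_mul, map_add, D1_G, D2_G] at e1 e2
    simp only [Fin.isValue, Fin.reduceEq, if_true, if_false, add_zero, zero_add] at e1 e2
    have f1 : ∑ j, constantCoeff (a j 1) * c j k 0 = 0 := by
      have : 2 * ∑ j, constantCoeff (a j 1) * c j k 0 = 0 := by
        rw [← e1, Finset.mul_sum]
        exact Finset.sum_congr rfl fun j _ => by ring
      linarith
    have f2 : ∑ j, constantCoeff (a j 1) * c j k 3 = 0 := by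
      have : -2 * ∑ j, constantCoeff (a j 1) * c j k 3 = 0 := by
        rw [← e2, Finset.mul_sum]
        exact Finset.sum_congr rfl fun j _ => by ring
      linarith
    refine (mem2 _ _ _).2 ⟨C (∑ j, constantCoeff (a j 1) * c j k 1),
      C (∑ j, constantCoeff (a j 1) * c j k 2), ?_⟩
    simp only [hc, ← map_mul, ← map_sum]
    congr 1
    have g1 := congrArg (fun q => (C q : S) * X 0) f1
    have g2 := congrArg (fun q => (C q : S) * X 3) f2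
    simp only [map_sum, map_mul, Finset.sum_mul, map_zero, zero_mul] at g1 g2 ⊢
    simp only [mul_add, Finset.sum_add_distrib, ← mul_assoc]
    rw [g1, g2]
    ring
  have m1 : pr (X 0) * pr (X 3) ∈ Ideal.span (Set.range g) :=
    hg ▸ Ideal.mul_mem_mul (xin 0 2) (xin' 1 3)
  have m2 : pr (X 2) * pr (X 1) ∈ Ideal.span (Set.range g) :=
    hg ▸ Ideal.mul_mem_mul (xin' 0 2) (xin 1 3)
  obtain ⟨r, hr⟩ := Ideal.mem_span_range_iff_exists_fun.1 m1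
  obtain ⟨r', hr'⟩ := Ideal.mem_span_range_iff_exists_fun.1 m2
  obtain ⟨w, hw⟩ := (hv (fun j => pr (X 0 * X 3) * r j - pr (X 2 * X 1) * r' j)).1 (by
    simp only [sub_mul, mul_assoc, Finset.sum_sub_distrib, ← Finset.mul_sum, hr, hr', ← map_mul]
    rw [sub_eq_zero, eqJ]
    exact ⟨X 3 ^ 2, -X 1 ^ 2, by ring⟩)
  have h3 : ∑ j, pr (C (constantCoeff (a j 1))) *
      (pr (X 0 * X 3) * r j - pr (X 2 * X 1) * r' j) ∈ sp 1 ⊔ sp 2 := by
    have : ∑ j, pr (C (constantCoeff (a j 1))) * (pr (X 0 * X 3) * r j - pr (X 2 * X 1) * r' j) =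
        ∑ k, (∑ j, pr (C (constantCoeff (a j 1))) * A j k) * w k := by
      simp only [Finset.sum_mul]
      rw [Finset.sum_comm]
      refine Finset.sum_congr rfl fun j _ => ?_
      have := congrFun hw j
      simp only [Matrix.mulVec, dotProduct] at this
      rw [← this, Finset.mul_sum]
      exact Finset.sum_congr rfl fun k _ => by ring
    rw [this]
    exact Ideal.sum_mem _ fun k _ => Ideal.mul_mem_right _ _ (hcol k)
  have h4 : ∀ j, ∃ p, pr p = r j := fun j => Ideal.Quotient.mk_surjective _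
  have h4' : ∀ j, ∃ p, pr p = r' j := fun j => Ideal.Quotient.mk_surjective _
  choose p hp using h4
  choose p' hp' using h4'
  obtain ⟨u, v, h5⟩ := (mem2 _ _ _).1 h3
  simp only [← hp, ← hp', ← map_mul, ← map_sub, ← map_sum] at h5
  simp only [← hp, ha, ← map_mul, ← map_sum] at hr
  obtain ⟨a1, b1, h5⟩ := (eqJ _ _).1 h5
  obtain ⟨a2, b2, hr⟩ := (eqJ _ _).1 hr
  have e1 := congrArg (d2 0 3) h5
  have e2 := congrArg (d2 0 3) hr
  rw [add_assoc, map_add, d2_J, map_add, d2_lin 1 (by decide) (by decide),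
    d2_lin 2 (by decide) (by decide), map_sum] at e1
  rw [add_assoc, map_add, d2_J, map_sum, ← one_mul (X 0 * X 3 : S), d2_mul] at e2
  simp only [d2_G] at e2
  have e3 : ∀ j, d2 0 3 (C (constantCoeff (a j 1)) * (X 0 * X 3 * p j - X 2 * X 1 * p' j)) =
      constantCoeff (p j) * constantCoeff (a j 1) := by
    intro j
    have : C (constantCoeff (a j 1)) * (X 0 * X 3 * p j - X 2 * X 1 * p' j) =
        (C (constantCoeff (a j 1)) * p j) * (X 0 * X 3) -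
          (C (constantCoeff (a j 1)) * p' j) * (X 2 * X 1) := by ring
    rw [this, map_sub, d2_mul, d2_mul]
    simp [mul_comm]
  simp only [e3] at e1
  rw [e2] at e1
  simp at e1

/-- The negation of the preceding statement: For a standard graded algebra with a Koszul filtration F, every nonzero product of d ≥ 1 ideals from F has a d-linear free resolution over R (generated in degree d, linear matrices thereafter), i.e. its regularity over R equals d. -/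
theorem result :
    ¬ (∀ (K : Type) [Field K] (n : ℕ) (J : Ideal (MvPolynomial (Fin n) K)),
      (∀ p ∈ J, ∀ i : ℕ, MvPolynomial.homogeneousComponent i p ∈ J) →
      ∀ (F : Set (Ideal (MvPolynomial (Fin n) K ⧸ J))),
        (∀ I ∈ F, I = Ideal.span {y : MvPolynomial (Fin n) K ⧸ J | y ∈ I ∧
            ∃ p : MvPolynomial (Fin n) K, p.IsHomogeneous 1 ∧ Ideal.Quotient.mk J p = y}) →
        (⊥ ∈ F) →
        (Ideal.span {y : MvPolynomial (Fin n) K ⧸ J |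
            ∃ p : MvPolynomial (Fin n) K, p.IsHomogeneous 1 ∧ Ideal.Quotient.mk J p = y} ∈ F) →
        (∀ I ∈ F, I ≠ ⊥ → ∃ I' ∈ F, I' ≤ I ∧
            (∃ x : MvPolynomial (Fin n) K ⧸ J,
              (∃ p : MvPolynomial (Fin n) K, p.IsHomogeneous 1 ∧ Ideal.Quotient.mk J p = x) ∧
              I = I' ⊔ Ideal.span {x}) ∧
            ∃ C ∈ F, ∀ r : MvPolynomial (Fin n) K ⧸ J, r ∈ C ↔ ∀ y ∈ I, r * y ∈ I') →
        ∀ (d : ℕ), 1 ≤ d → ∀ (I : Fin d → Ideal (MvPolynomial (Fin n) K ⧸ J)),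
          (∀ k, I k ∈ F) → (∏ k, I k) ≠ ⊥ →
          ∃ b : ℕ → ℕ, ∃ g : Fin (b 0) → MvPolynomial (Fin n) K ⧸ J,
            ∃ A : (i : ℕ) → Matrix (Fin (b i)) (Fin (b (i + 1))) (MvPolynomial (Fin n) K ⧸ J),
              (∀ j, ∃ p : MvPolynomial (Fin n) K, p.IsHomogeneous d ∧ Ideal.Quotient.mk J p = g j) ∧
              (∀ i a c, ∃ p : MvPolynomial (Fin n) K, p.IsHomogeneous 1 ∧
                  Ideal.Quotient.mk J p = A i a c) ∧
              Ideal.span (Set.range g) = ∏ k, I k ∧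
              (∀ v : Fin (b 0) → MvPolynomial (Fin n) K ⧸ J,
                  ∑ j, v j * g j = 0 ↔ ∃ w, (A 0).mulVec w = v) ∧
              (∀ (i : ℕ) (v : Fin (b (i + 1)) → MvPolynomial (Fin n) K ⧸ J),
                  (A i).mulVec v = 0 ↔ ∃ w, (A (i + 1)).mulVec w = v)) := by
  intro H
  have h := H ℚ 4 JJ ?_
    {⊥, sp 0, sp 0 ⊔ sp 2, sp 1, sp 1 ⊔ sp 3, sp 0 ⊔ sp 2 ⊔ sp 1, sp 0 ⊔ sp 2 ⊔ sp 1 ⊔ sp 3}
    ?_ (by simp) (by rw [max_eq]; simp) ?_ 2 (by norm_num) ![sp 0 ⊔ sp 2, sp 1 ⊔ sp 3] ?_ ?_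
  · obtain ⟨b, g, A, -, hA, hg, hv, -⟩ := h
    rw [Fin.prod_univ_two] at hg
    exact no_lin g (A 0) (hA 0) hg hv
  · intro f hf d
    let _ := @gradedAlgebra (Fin 4) ℚ _
    refine homogeneousComponent_mem_of_mem (Ideal.homogeneous_span _ _ ?_) hf d
    rintro s (rfl | rfl)
    · exact ⟨2, ((isHomogeneous_X ℚ 0).pow 2).add ((isHomogeneous_X ℚ 1).pow 2)⟩
    · exact ⟨2, ((isHomogeneous_X ℚ 2).pow 2).add ((isHomogeneous_X ℚ 3).pow 2)⟩
  · rintro I (rfl | rfl | rfl | rfl | rfl | rfl | rfl)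
    · exact lin_of _ bot_le
    · exact lin_sp 0
    · exact lin_sup (lin_sp 0) (lin_sp 2)
    · exact lin_sp 1
    · exact lin_sup (lin_sp 1) (lin_sp 3)
    · exact lin_sup (lin_sup (lin_sp 0) (lin_sp 2)) (lin_sp 1)
    · exact lin_sup (lin_sup (lin_sup (lin_sp 0) (lin_sp 2)) (lin_sp 1)) (lin_sp 3)
  · rintro I (rfl | rfl | rfl | rfl | rfl | rfl | rfl) hI
    · exact absurd rfl hI
    · refine ⟨⊥, by simp, bot_le, ⟨pr (X 0), ⟨X 0, isHomogeneous_X _ _, rfl⟩, (bot_sup_eq _).symm⟩,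
        ⊥, by simp, fun r => ?_⟩
      rw [k0, ← col, bot_sup_eq]
    · refine ⟨sp 0, by simp, le_sup_left, ⟨pr (X 2), ⟨X 2, isHomogeneous_X _ _, rfl⟩, rfl⟩,
        sp 0, by simp, fun r => ?_⟩
      rw [col, ← k02]
    · refine ⟨⊥, by simp, bot_le, ⟨pr (X 1), ⟨X 1, isHomogeneous_X _ _, rfl⟩, (bot_sup_eq _).symm⟩,
        ⊥, by simp, fun r => ?_⟩
      rw [k1, ← col, bot_sup_eq]
    · refine ⟨sp 1, by simp, le_sup_left, ⟨pr (X 3), ⟨X 3, isHomogeneous_X _ _, rfl⟩, rfl⟩,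
        sp 1, by simp, fun r => ?_⟩
      rw [col, ← k13]
    · refine ⟨sp 0 ⊔ sp 2, by simp, le_sup_left, ⟨pr (X 1), ⟨X 1, isHomogeneous_X _ _, rfl⟩, rfl⟩,
        sp 0 ⊔ sp 2 ⊔ sp 1, by simp, fun r => ?_⟩
      rw [col, ← k021]
    · refine ⟨sp 0 ⊔ sp 2 ⊔ sp 1, by simp, le_sup_left,
        ⟨pr (X 3), ⟨X 3, isHomogeneous_X _ _, rfl⟩, rfl⟩,
        sp 0 ⊔ sp 2 ⊔ sp 1 ⊔ sp 3, by simp, fun r => ?_⟩
      rw [col, ← k0213]
  · intro k
    fin_cases k <;> simp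
  · rw [Fin.prod_univ_two]
    intro h0
    have m1 : pr (X 0) * pr (X 3) ∈ (sp 0 ⊔ sp 2) * (sp 1 ⊔ sp 3) :=
      Ideal.mul_mem_mul (xin 0 2) (xin' 1 3)
    have h1 : (sp 0 ⊔ sp 2) * (sp 1 ⊔ sp 3) = ⊥ := h0
    rw [h1, Ideal.mem_bot, ← map_mul, ← map_zero pr, eqJ] at m1
    obtain ⟨a, b, e⟩ := m1
    have e2 := congrArg (d2 0 3) e
    rw [zero_add, d2_J, ← one_mul (X 0 * X 3 : S), d2_mul] at e2
    simp at e2

end Pool.Agent.S01178
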