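import Pool.Statements.S01194
-- import your own Pool.Agent.* helpers here

set_option autoImplicit false
open Pool Pool.MP_37d31d_al

namespace Pool.Agent.S01194

abbrev T := ZMod 3

def F {R : Type} [CommRing R] (d : T) (a : R) : R :=
  if d = 0 then 2 * a else if d = 1 then 1 - a else -1 - a

theorem T_cases (d : T) : d = 0 ∨ d = 1 ∨ d = 2 := by revert d; decide

theorem F_sd {R : Type} [CommRing R] (c1 c2 c3 : T) (a1 a2 a3 : R) :
    -(-a3 + F (c3 - c2) a2) + F ((-c2 - c3) - c1) a1 =
      -(-a3 + F (c3 - c1) a1) + F ((-c1 - c3) - (-c1 - c2)) (-a2 + F (c2 - c1) a1) := by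
  rcases T_cases c1 with rfl | rfl | rfl <;> rcases T_cases c2 with rfl | rfl | rfl <;>
    rcases T_cases c3 with rfl | rfl | rfl <;>
    simp +decide only [F, if_true, if_false] <;> ring

theorem F_zero {R : Type} [CommRing R] (a : R) : F 0 a = 2 * a := by simp [F]

@[ext] structure X where
  u : T
  v : T
  a : ZMod 5
  b : ZMod 7
  c : ZMod 11
  d : ZMod 13

instance : Fintype X :=
  Fintype.ofEquiv (T × T × ZMod 5 × ZMod 7 × ZMod 11 × ZMod 13)
    ⟨fun p => ⟨p.1, p.2.1, p.2.2.1, p.2.2.2.1, p.2.2.2.2.1, p.2.2.2.2.2⟩,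
     fun x => (x.u, x.v, x.a, x.b, x.c, x.d), fun _ => rfl, fun _ => rfl⟩

def op (x y : X) : X :=
  ⟨-x.u - y.u, -x.v - y.v, -y.a + F (y.u - x.u) x.a, -y.b + F (y.v - x.v) x.b,
    -y.c + F ((y.u + y.v) - (x.u + x.v)) x.c, -y.d + F ((y.u - y.v) - (x.u - x.v)) x.d⟩

def inv (x y : X) : X :=
  ⟨-x.u - y.u, -x.v - y.v, -y.a + F ((-x.u - y.u) - x.u) x.a, -y.b + F ((-x.v - y.v) - x.v) x.b,
    -y.c + F (((-x.u - y.u) + (-x.v - y.v)) - (x.u + x.v)) x.c,
    -y.d + F (((-x.u - y.u) - (-x.v - y.v)) - (x.u - x.v)) x.d⟩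

theorem T_three (s : T) : -s - s = s := by revert s; decide

instance : Quandle X where
  act := op
  self_distrib := by
    intro x y z
    ext
    · simp only [op]; linear_combination T_three x.u - T_three y.u + T_three y.u
    · simp only [op]; linear_combination T_three x.v - T_three y.v + T_three y.v
    · exact F_sd x.u y.u z.u x.a y.a z.a
    · exact F_sd x.v y.v z.v x.b y.b z.b
    · have := F_sd (x.u + x.v) (y.u + y.v) (z.u + z.v) x.c y.c z.c
      simp only [op]
      convert this using 3 <;> ring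
    · have := F_sd (x.u - x.v) (y.u - y.v) (z.u - z.v) x.d y.d z.d
      simp only [op]
      convert this using 3 <;> ring
  invAct := inv
  left_inv := by
    intro x y
    ext <;> simp [op, inv]
  right_inv := by
    intro x y
    ext <;> simp [op, inv]
  fix := by
    intro x
    ext <;> simp [op, F_zero, T_three] <;> ring

def o : X := ⟨0, 0, 0, 0, 0, 0⟩

theorem F_surj5 : ∀ (d : T) (b : ZMod 5), ∃ a, F d a = b := by decide
theorem F_surj7 : ∀ (d : T) (b : ZMod 7), ∃ a, F d a = b := by decide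
theorem F_surj11 : ∀ (d : T) (b : ZMod 11), ∃ a, F d a = b := by decide
theorem F_surj13 : ∀ (d : T) (b : ZMod 13), ∃ a, F d a = b := by decide

theorem reach (y : X) : ∃ t : X, op t o = y := by
  obtain ⟨a, ha⟩ := F_surj5 y.u y.a
  obtain ⟨b, hb⟩ := F_surj7 y.v y.b
  obtain ⟨c, hc⟩ := F_surj11 (y.u + y.v) y.c
  obtain ⟨d, hd⟩ := F_surj13 (y.u - y.v) y.d
  refine ⟨⟨-y.u, -y.v, a, b, c, d⟩, ?_⟩
  ext
  · simp [op, o]
  · simp [op, o]
  · simp [op, o, ha]
  · simp [op, o, hb]
  · rw [← hc]; simp only [op, o]; rw [neg_zero, zero_add]; congr 1; ring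
  · rw [← hd]; simp only [op, o]; rw [neg_zero, zero_add]; congr 1; ring

def e {R : Type} [CommRing R] (d : T) : R := F d 0

theorem e_neg {R : Type} [CommRing R] (d : T) : (e (-d) : R) = - e d := by
  rcases T_cases d with rfl | rfl | rfl <;> simp +decide [e, F]

theorem e_zero {R : Type} [CommRing R] : (e 0 : R) = 0 := by simp [e, F]

theorem op_o (y : X) : op o y =
    ⟨-y.u, -y.v, -y.a + e y.u, -y.b + e y.v, -y.c + e (y.u + y.v), -y.d + e (y.u - y.v)⟩ := by
  simp [op, o, e]

theorem iter (k : ℕ) (y : X) : (op o)^[2 * k] y =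
    ⟨y.u, y.v, y.a - 2 * k * e y.u, y.b - 2 * k * e y.v, y.c - 2 * k * e (y.u + y.v),
      y.d - 2 * k * e (y.u - y.v)⟩ := by
  induction k with
  | zero => simp
  | succ k ih =>
    rw [Nat.mul_succ, Function.iterate_succ_apply', Function.iterate_succ_apply', ih, op_o, op_o]
    have h1 : -y.u + -y.v = -(y.u + y.v) := by ring
    have h2 : -y.u - -y.v = -(y.u - y.v) := by ring
    ext <;> simp only [h1, h2, e_neg, neg_neg] <;> push_cast <;> ring

theorem cover : ∀ u v : T, u = 0 ∨ v = 0 ∨ u + v = 0 ∨ u - v = 0 := by decide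


/-- The negation of the preceding statement: In every finite connected quandle, for each element x, some cycle of the translation by x has a length divisible by the length of every cycle of that translation; that is, all cycle lengths divide the largest one. -/
theorem result :
    ¬ (∀ (X : Type) [Quandle X] [Fintype X],
      (∀ a b : X, ∃ g ∈ Subgroup.closure (Set.range (Rack.act' : X → Equiv.Perm X)), g a = b) →
      ∀ x : X, ∃ z : X, ∀ y : X,
        Function.minimalPeriod (Shelf.act x) y ∣ Function.minimalPeriod (Shelf.act x) z) := by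
  intro h
  obtain ⟨z, hz⟩ := h X (by
    intro a b
    obtain ⟨s, hs⟩ := reach a
    obtain ⟨t, ht⟩ := reach b
    refine ⟨Rack.act' t * (Rack.act' s)⁻¹, Subgroup.mul_mem _ (Subgroup.subset_closure ⟨t, rfl⟩)
      (Subgroup.inv_mem _ (Subgroup.subset_closure ⟨s, rfl⟩)), ?_⟩
    have : (Rack.act' s)⁻¹ a = o := by
      rw [Equiv.Perm.inv_eq_iff_eq]
      exact hs.symm
    rw [Equiv.Perm.mul_apply, this]
    exact ht) o
  have key : ∀ k : ℕ, (op o)^[2 * k] z = z → ∀ y, (op o)^[2 * k] y = y := by
    intro k hk y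
    have h1 : Function.minimalPeriod (op o) z ∣ 2 * k :=
      Function.IsPeriodicPt.minimalPeriod_dvd hk
    exact Function.isPeriodicPt_iff_minimalPeriod_dvd.2 ((hz y).trans h1)
  rcases cover z.u z.v with h0 | h0 | h0 | h0
  · have := key 1001 (by
      rw [iter]
      have e1 : ((1001 : ℕ) : ZMod 7) = 0 := by decide
      have e2 : ((1001 : ℕ) : ZMod 11) = 0 := by decide
      have e3 : ((1001 : ℕ) : ZMod 13) = 0 := by decide
      ext <;> simp only [h0, e_zero, e1, e2, e3] <;> ring) ⟨1, 0, 0, 0, 0, 0⟩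
    rw [iter] at this
    have := congrArg X.a this
    revert this; decide
  · have := key 715 (by
      rw [iter]
      have e1 : ((715 : ℕ) : ZMod 5) = 0 := by decide
      have e2 : ((715 : ℕ) : ZMod 11) = 0 := by decide
      have e3 : ((715 : ℕ) : ZMod 13) = 0 := by decide
      ext <;> simp only [h0, e_zero, e1, e2, e3] <;> ring) ⟨0, 1, 0, 0, 0, 0⟩
    rw [iter] at this
    have := congrArg X.b this
    revert this; decide
  · have := key 455 (by
      rw [iter]
      have e1 : ((455 : ℕ) : ZMod 5) = 0 := by decide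
      have e2 : ((455 : ℕ) : ZMod 7) = 0 := by decide
      have e3 : ((455 : ℕ) : ZMod 13) = 0 := by decide
      ext <;> simp only [h0, e_zero, e1, e2, e3] <;> ring) ⟨1, 0, 0, 0, 0, 0⟩
    rw [iter] at this
    have := congrArg X.c this
    revert this; decide
  · have := key 385 (by
      rw [iter]
      have e1 : ((385 : ℕ) : ZMod 5) = 0 := by decide
      have e2 : ((385 : ℕ) : ZMod 7) = 0 := by decide
      have e3 : ((385 : ℕ) : ZMod 11) = 0 := by decide
      ext <;> simp only [h0, e_zero, e1, e2, e3] <;> ring) ⟨1, 0, 0, 0, 0, 0⟩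
    rw [iter] at this
    have := congrArg X.d this
    revert this; decide

end Pool.Agent.S01194
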