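import Pool.Statements.S01235
import Pool.Agent.Lead.Mathieu1

set_option autoImplicit false
open Polynomial
open Pool Pool.MP_3bbc5b_al

namespace Pool.Agent.S01235

/-- For the Hermite, Laguerre and Jacobi operators (α, β > −1), the polynomials lying in the image of ℂ[t] form a Mathieu subspace: if every power a^m (m ≥ 1) is in it, then b·a^m is in it for all large m, for every polynomial b. -/
theorem result :
    (∀ a b : Polynomial ℂ,
      (∀ m : ℕ, 1 ≤ m → ∃ f : Polynomial ℂ, a ^ m = derivative f - 2 * X * f) →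
      ∃ N : ℕ, ∀ m : ℕ, N ≤ m → ∃ f : Polynomial ℂ, b * a ^ m = derivative f - 2 * X * f) ∧
    (∀ α : ℝ, -1 < α → ∀ a b : Polynomial ℂ,
      (∀ m : ℕ, 1 ≤ m → ∃ f : Polynomial ℂ,
        X * a ^ m = X * derivative f + (C (α : ℂ) - X) * f) →
      ∃ N : ℕ, ∀ m : ℕ, N ≤ m → ∃ f : Polynomial ℂ,
        X * (b * a ^ m) = X * derivative f + (C (α : ℂ) - X) * f) ∧
    (∀ α β : ℝ, -1 < α → -1 < β → ∀ a b : Polynomial ℂ,
      (∀ m : ℕ, 1 ≤ m → ∃ f : Polynomial ℂ,
        (1 - X ^ 2) * a ^ m = (1 - X ^ 2) * derivative f - C (α : ℂ) * (1 + X) * f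
          + C (β : ℂ) * (1 - X) * f) →
      ∃ N : ℕ, ∀ m : ℕ, N ≤ m → ∃ f : Polynomial ℂ,
        (1 - X ^ 2) * (b * a ^ m) = (1 - X ^ 2) * derivative f - C (α : ℂ) * (1 + X) * f
          + C (β : ℂ) * (1 - X) * f) := by
  have hXX : ∀ j : ℕ, (X : ℂ[X]) * derivative (X ^ j) = C (j : ℂ) * X ^ j := by
    intro j
    rcases j with _ | j
    · simp
    · rw [derivative_X_pow]; simp only [Nat.add_sub_cancel]; ring
  refine ⟨?_, ?_, ?_⟩
  · intro a b h
    have := Pool.Agent.Lead.Mathieu1.mathieu 1 (-(2 * X)) one_ne_zero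
      (fun r hr => by simp at hr)
      (fun j => ⟨-2, by norm_num, 0, j, by
        rw [derivative_X_pow]
        simp only [derivative_one, map_neg, map_zero]
        have : (C (2 : ℂ) : ℂ[X]) = 2 := rfl
        rw [this]; ring⟩) a b
      (fun m hm => by
        obtain ⟨f, hf⟩ := h m hm
        exact ⟨f, by linear_combination hf⟩)
    refine ⟨1, fun m hm => ?_⟩
    obtain ⟨f, hf⟩ := this m hm
    exact ⟨f, by linear_combination hf⟩
  · intro α hα a b h
    have := Pool.Agent.Lead.Mathieu1.mathieu X (C (α : ℂ) - X) X_ne_zero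
      (fun r hr => by
        have hr0 : r = 0 := by simpa using hr
        subst hr0
        refine ⟨by simp, α + 1, by linarith, ?_⟩
        simp; ring)
      (fun j => ⟨-1, by norm_num, j + 1 + α, 0, by
        rw [hXX]
        simp only [derivative_X, map_neg, map_zero, map_add, map_one]
        ring⟩) a b h
    exact ⟨1, this⟩
  · intro α β hα hβ a b h
    have hσ : (1 - X ^ 2 : ℂ[X]) ≠ 0 := by
      intro h0
      have := congrArg (eval 0) h0
      simp at this
    have hd : derivative (1 - X ^ 2 : ℂ[X]) = -(2 * X) := by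
      rw [derivative_sub, derivative_one, derivative_X_pow]
      have : (C ((2 : ℕ) : ℂ) : ℂ[X]) = 2 := by simp; rfl
      rw [this]; ring
    have := Pool.Agent.Lead.Mathieu1.mathieu (1 - X ^ 2)
      (-(C (α : ℂ) * (1 + X)) + C (β : ℂ) * (1 - X)) hσ
      (fun r hr => by
        have hr1 : (r - 1) * (r + 1) = 0 := by
          have : 1 - r ^ 2 = 0 := by simpa using hr
          linear_combination -this
        rw [hd]
        rcases mul_eq_zero.1 hr1 with h1 | h1
        · have : r = 1 := by linear_combination h1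
          subst this
          refine ⟨by simp, α + 1, by linarith, ?_⟩
          simp; ring
        · have : r = -1 := by linear_combination h1
          subst this
          refine ⟨by simp, β + 1, by linarith, ?_⟩
          simp; ring)
      (fun j => ⟨-(j + α + β + 2), by
        have : (0 : ℝ) < j + α + β + 2 := by
          have : (0 : ℝ) ≤ j := Nat.cast_nonneg j
          linarith
        have h2 : ((j : ℂ) + α + β + 2) ≠ 0 := by exact_mod_cast this.ne'
        exact neg_ne_zero.2 h2, β - α, j, by
        have h1 := hXX j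
        have h2 : derivative ((X : ℂ[X]) ^ j) = C (j : ℂ) * X ^ (j - 1) := derivative_X_pow j
        rw [hd]
        simp only [map_neg, map_add, map_sub]
        have : (C (2 : ℂ) : ℂ[X]) = 2 := rfl
        rw [this]
        linear_combination h2 - X * h1⟩) a b
      (fun m hm => by
        obtain ⟨f, hf⟩ := h m hm
        exact ⟨f, by linear_combination hf⟩)
    refine ⟨1, fun m hm => ?_⟩
    obtain ⟨f, hf⟩ := this m hm
    exact ⟨f, by linear_combination hf⟩

end Pool.Agent.S01235
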