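import Pool.Statements.S01258
import Pool.Agent.H29.UAdd

set_option autoImplicit false
open Pool Pool.MP_3dd297_al

namespace Pool.Agent.S01258

open Pool.Agent.H29.UAdd in
theorem result :
    ¬ (∀ (G : Type) [AddCommGroup G] [Lattice G] [IsOrderedAddMonoid G],
      (∃ (I : Type) (f : G →+ (I → ℤ)),
        Function.Injective f ∧
        (∀ x y : G, f (x ⊔ y) = f x ⊔ f y) ∧
        (∀ x y : G, f (x ⊓ y) = f x ⊓ f y) ∧
        (∀ i : I, Function.Surjective (fun x : G => f x i))) →
      ∀ op : G → G → G,
        (∀ a b c : G, op (op a b) c = op a (op b c)) →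
        (∀ a : G, op 0 a = a ∧ op a 0 = a) →
        (∀ a : G, ∃ b : G, op a b = 0 ∧ op b a = 0) →
        (∀ a b c : G, a ≤ b → op c a ≤ op c b ∧ op a c ≤ op b c) →
        ∀ x y : G, op x y = x + y) := by
  intro h
  letI : Lattice G := Subtype.lattice (fun _ _ => sup_mem) (fun _ _ => inf_mem)
  have : IsOrderedAddMonoid G :=
    { add_le_add_left := fun a b hab c => by
        show a.1 + c.1 ≤ b.1 + c.1
        exact add_le_add_left (show a.1 ≤ b.1 from hab) _ }
  let f : G →+ (I → ℤ) :=
    { toFun := fun g j => lvl (g.1 j), map_zero' := rfl, map_add' := fun _ _ => rfl }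
  have h1 := h G ⟨I, f, fun a b e => Subtype.ext (eq_of_lvl a.2 b.2 (fun j => congrFun e j)),
    fun a b => funext fun j => lvl_mono.map_sup _ _,
    fun a b => funext fun j => lvl_mono.map_inf _ _,
    fun j a => ⟨⟨pt j (toLex (a, 0)), pt_mem _ _⟩, by
      show lvl (pt j (toLex (a, 0)) j) = a
      rw [pt_self, lvl_mk]⟩⟩
    (fun x y => Phi.symm (Phi x + Phi y - Phi 0))
    (fun a b c => by
      simp only [OrderIso.apply_symm_apply]
      congr 1
      abel)
    (fun a => by simp)
    (fun a => ⟨Phi.symm (Phi 0 + Phi 0 - Phi a), by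
      simp only [OrderIso.apply_symm_apply]
      constructor
      · rw [OrderIso.symm_apply_eq]; abel
      · rw [OrderIso.symm_apply_eq]; abel⟩)
    (fun a b c hab => by
      have h2 : Phi a ≤ Phi b := Phi.monotone hab
      constructor
      · apply Phi.symm.monotone
        exact sub_le_sub_right (add_le_add_right h2 _) _
      · apply Phi.symm.monotone
        exact sub_le_sub_right (add_le_add_left h2 _) _)
  obtain ⟨x, hx⟩ := Phi_not_affine
  apply hx
  rw [← h1 x x, OrderIso.apply_symm_apply]

end Pool.Agent.S01258
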