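import Pool.Statements.S01289
import Pool.Agent.H15.GLc

set_option autoImplicit false
open Pool Pool.MP_3fc405_al

namespace Pool.Agent.S01289

theorem result :
    ∀ (D : Type) [DivisionRing D] (V : Type) [AddCommGroup V] [Module D V],
      ¬ Module.Finite D V →
      ∀ g : LinearMap.GeneralLinearGroup D V,
        ∃ a b : LinearMap.GeneralLinearGroup D V, g = a * b * a⁻¹ * b⁻¹ := by
  intro D _ V _ _ hV g
  have hV' : Cardinal.aleph0 ≤ Module.rank D V :=
    not_lt.1 fun h => hV (Module.rank_lt_aleph0_iff.1 h)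
  obtain ⟨a, b, h⟩ := Pool.Agent.H15.GLc.main hV' g.toLinearEquiv
  refine ⟨(LinearMap.GeneralLinearGroup.ofLinearEquiv a)⁻¹,
    LinearMap.GeneralLinearGroup.ofLinearEquiv b, ?_⟩
  rw [inv_inv, eq_mul_inv_iff_mul_eq, mul_assoc, eq_inv_mul_iff_mul_eq]
  ext v
  exact (h v).symm

end Pool.Agent.S01289
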