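import Pool.Statements.S01299
import Pool.Agent.H5.ImgC

set_option autoImplicit false
open Pool Pool.MP_405479_al

namespace Pool.Agent.S01299
open Polynomial Pool.Agent.H5.Img

/-- For every commutative Q-algebra A, c in A, a in A[t]: if every power f^m (m≥1) lies in the image of h ↦ c·h' − a·h on A[t], then for every g, g·f^m lies in that image for all large m. -/
theorem result :
    ∀ (A : Type) [CommRing A] [Algebra ℚ A] (c : A) (a : Polynomial A) (f g : Polynomial A),
      (∀ m : ℕ, 1 ≤ m →
        ∃ h : Polynomial A, Polynomial.C c * Polynomial.derivative h - a * h = f ^ m) →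
      ∃ N : ℕ, ∀ m : ℕ, N ≤ m →
        ∃ h : Polynomial A, Polynomial.C c * Polynomial.derivative h - a * h = g * f ^ m := by
  intro A _ _ c a f g hyp
  classical
  obtain ⟨h1, H1⟩ := hyp 1 le_rfl
  rw [pow_one] at H1
  choose k n q hq using cert c a f hyp
  let ps : Finset A[X] := {a, f, g, h1, C c} ∪
    (Finset.range (f.natDegree + 1)).biUnion fun j => Finset.univ.image (q j)
  let s : Finset A := ps.biUnion coeffs
  let B := Algebra.adjoin ℚ (s : Set A)
  have : Algebra.FiniteType ℚ B := (Subalgebra.fg_iff_finiteType B).1 ⟨s, rfl⟩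
  have : IsNoetherianRing B := Algebra.FiniteType.isNoetherianRing ℚ B
  let φ : B →+* A := B.val.toRingHom
  have hφ : Function.Injective φ := Subtype.val_injective
  have hinj := Polynomial.map_injective φ hφ
  have hl : ∀ p ∈ ps, ∃ p' : B[X], p'.map φ = p := by
    intro p hp
    rw [← mem_lifts, lifts_iff_coeffs_subset_range]
    intro x hx
    exact ⟨⟨x, Algebra.subset_adjoin (Finset.mem_coe.2 (Finset.mem_biUnion.2 ⟨p, hp, hx⟩))⟩, rfl⟩
  obtain ⟨a', ha'⟩ := hl a (by simp [ps])
  obtain ⟨f', hf'⟩ := hl f (by simp [ps])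
  obtain ⟨g', hg'⟩ := hl g (by simp [ps])
  obtain ⟨h1', hh1'⟩ := hl h1 (by simp [ps])
  obtain ⟨cc, hcc⟩ := hl (C c) (by simp [ps])
  have hc' : φ (cc.coeff 0) = c := by rw [← coeff_map, hcc, coeff_C_zero]
  set c' := cc.coeff 0
  obtain ⟨N, hN⟩ := noeth c' a' f' g' h1'
    (hinj (by
      simp only [Polynomial.map_sub, Polynomial.map_mul, map_C, ← derivative_map]
      rw [hc', ha', hh1', hf', H1]))
    (fun i j hi => by
      have := nil c a f hyp i j hi
      rw [← hc', ← ha', ← hf', coeff_map, coeff_map, ← map_mul, ← map_mul] at this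
      exact (IsNilpotent.map_iff hφ).1 this)
    (fun j => by
      by_cases hj : f.natDegree < j
      · have : f'.natDegree < j := by rwa [← natDegree_map_eq_of_injective hφ, hf']
        rw [iterate_derivative_eq_zero this]
        exact ⟨0, 0, 0, by simp⟩
      · have hq' : ∀ i, ∃ p' : B[X], p'.map φ = q j i := fun i => hl _ (Finset.mem_union_right _
          (Finset.mem_biUnion.2 ⟨j, Finset.mem_range.2 (by omega),
            Finset.mem_image_of_mem _ (Finset.mem_univ i)⟩))
        choose q' hq' using hq'
        refine ⟨k j, n j, q', hinj ?_⟩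
        simp only [Polynomial.map_sub, Polynomial.map_mul, Polynomial.map_pow, map_C,
          Polynomial.map_sum, ← iterate_derivative_map, Polynomial.map_zero, hq', hc', ha', hf']
        exact hq j)
  refine ⟨N, fun m hm => ?_⟩
  obtain ⟨h, hh⟩ := hN m hm
  refine ⟨h.map φ, ?_⟩
  have := congrArg (Polynomial.map φ) hh
  simp only [Polynomial.map_sub, Polynomial.map_mul, Polynomial.map_pow, map_C,
    ← derivative_map, hc', ha', hf', hg'] at this
  exact this

end Pool.Agent.S01299
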