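import Pool.Statements.S01303
import Pool.Agent.H2.MG10

set_option autoImplicit false
open Pool Pool.MP_417230_al

namespace Pool.Agent.S01303

/-- Every complete Hausdorff abelian topological group that is locally minimal has a compact subgroup K such that the quotient G/K is metrizable. -/
theorem result :
    ∀ (G : Type) [AddCommGroup G] [UniformSpace G] [IsUniformAddGroup G] [T2Space G]
      [CompleteSpace G],
      (∃ V ∈ nhds (0 : G), ∀ σ : TopologicalSpace G,
          @IsTopologicalAddGroup G σ _ → @T2Space G σ →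
          (UniformSpace.toTopologicalSpace : TopologicalSpace G) ≤ σ →
          V ∈ @nhds G σ 0 → σ = (UniformSpace.toTopologicalSpace : TopologicalSpace G)) →
      ∃ K : AddSubgroup G, IsCompact (K : Set G) ∧ TopologicalSpace.MetrizableSpace (G ⧸ K) := by
  rintro G _ u _ _ _ ⟨V, hV, h⟩
  open Filter Topology Set H2.MG in
  have hm : LM (Multiplicative G) V := LM.of_top fun σ a b c d =>
    h σ (@IsTopologicalAddGroup.mk G σ _ (@ContinuousAdd.mk G σ _ a.toContinuousMul.1)
      (@ContinuousNeg.mk G σ _ a.toContinuousInv.1)) b c d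
  open Filter Topology Set H2.MG in
  obtain ⟨W, hW, hWV⟩ := exists_nhds_one_split (M := Multiplicative G) hV
  open Filter Topology Set H2.MG in
  obtain ⟨ρ, r1, r2, r3⟩ := exists_sn (SIN.comm (Multiplicative G)) hW
  have : T2Space (Multiplicative G) := inferInstanceAs (T2Space G)
  have hc : Continuous fun x : G => ρ (.ofAdd x) := r1.cont r2
  open Filter Topology Set H2.MG in
  have key : ∀ F : Ultrafilter G, ↑F ≤ comap (fun x : G => ρ (.ofAdd x)) (𝓝 0) →
      ∃ y, ρ (.ofAdd y) = 0 ∧ ↑F ≤ 𝓝 y := by
    intro F hF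
    obtain ⟨y, hy⟩ := CompleteSpace.complete (f := (F : Filter G)) (by
      rw [IsUniformAddGroup.cauchy_iff_tendsto]
      refine ⟨F.neBot', fun U hU => ?_⟩
      obtain ⟨T, hT, hTU⟩ := exists_div (G := Multiplicative G) hU 1
      obtain ⟨ε, hε, E, hE⟩ := rp r1 hm ⟨W, hW, by
        rintro _ ⟨w, hw, x, hx, rfl⟩; exact hWV _ hw _ (r3 _ hx)⟩ hT
      obtain ⟨f, -, hf⟩ := (Ultrafilter.finite_biUnion_mem_iff (f := F)
        (s := fun f : Multiplicative G => {x : G | f⁻¹ * .ofAdd x ∈ T}) E.finite_toSet).1
        (mem_of_superset (hF (preimage_mem_comap (gt_mem_nhds hε))) fun x hx => by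
          simpa using hE _ hx)
      exact mem_map.2 (mem_of_superset (prod_mem_prod hf hf) fun z hz => by
        have h1 := hTU _ hz.1 _ hz.2
        rw [mul_div_mul_left_eq_div] at h1
        exact h1))
    exact ⟨y, tendsto_nhds_unique ((hc.tendsto y).mono_left hy) (tendsto_iff_comap.2 hF), hy⟩
  let K : AddSubgroup G := Subgroup.toAddSubgroup' r1.ker
  have hK : IsClosed (K : Set G) := isClosed_eq hc continuous_const
  open Filter Topology Set H2.MG in
  refine ⟨K, isCompact_iff_ultrafilter_le_nhds.2 fun F hF => key F (tendsto_iff_comap.1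
    (tendsto_const_nhds.congr' (mem_of_superset (le_principal_iff.1 hF) fun x hx => Eq.symm hx))), ?_⟩
  open Filter Topology Set H2.MG in
  have h1 : 𝓝 (0 : G ⧸ K) = map (QuotientAddGroup.mk) (comap (fun x : G => ρ (.ofAdd x)) (𝓝 0)) := by
    refine le_antisymm ?_ (map_le_iff_le_comap.2 (le_iff_ultrafilter.2 fun F hF => ?_))
    · rw [← QuotientAddGroup.mk_zero, QuotientAddGroup.nhds_eq]
      exact map_mono (tendsto_iff_comap.1 r2)
    · obtain ⟨y, h1, h2⟩ := key F hF
      rw [← (QuotientAddGroup.eq_zero_iff y).2 (show y ∈ K from h1)]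
      exact tendsto_iff_comap.1 ((QuotientAddGroup.continuous_mk.tendsto y).mono_left h2)
  haveI : T2Space (Multiplicative (G ⧸ K)) := inferInstanceAs (T2Space (G ⧸ K))
  exact H2.MG.metr (G := Multiplicative (G ⧸ K))
    (show (nhds (0 : G ⧸ K)).IsCountablyGenerated by rw [h1]; infer_instance)

end Pool.Agent.S01303
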