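import Pool.Statements.S01339
import Pool.Agent.H4.Form1
-- import your own Pool.Agent.* helpers here

set_option autoImplicit false
open Pool Pool.MP_44c8f1_al

namespace Pool.Agent.S01339

open Pool.Agent.H4.Form in
lemma key {H F : Cl} (hH : IsF H) (hF : IsF F)
    (sH : ∀ (G : Type) [Group G] [Finite G], H (G ⧸ frattini G) → H G)
    (hHF : ∀ (G : Type) [Group G], H G → F G) {G B Q : Type} [Group G] [Finite G] [Group B]
    [Group Q] (hB : F B) (hQ : H Q) (n : ℕ) : ∀ (D E : Type) [Group D] [Group E] [Finite D]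
    (β : D →* B) (θ : D →* Q) (γ : D →* E) (π : D →* G), Nat.card D = n →
    Function.Surjective β → Function.Surjective θ → Function.Surjective γ →
    Function.Surjective π → (∀ x, β x = 1 → γ x = 1 → x = 1) →
    (∀ x, θ x = 1 → ∃ y, β y = 1 ∧ γ y = γ x) → (∀ x, β x = 1 → π x ∈ frattini G) →
    (∀ x, β x = 1 → θ x = 1) → F G := by
  induction n using Nat.strong_induction_on with
  | _ n ih =>
    intro D E _ _ _ β θ γ π hn sβ sθ sγ sπ h1 h2 h3 h4
    have := Finite.of_surjective γ sγ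
    by_cases hc : β.ker.map γ ≤ frattini E
    · have : H E := sH E (hH.q2 θ θ ((QuotientGroup.mk' (frattini E)).comp γ) sθ sθ
        ((QuotientGroup.mk'_surjective _).comp sγ) (fun x hx _ => by
          obtain ⟨y, hy, e⟩ := h2 x hx
          exact (QuotientGroup.eq_one_iff _).2 (e ▸ hc ⟨y, hy, rfl⟩)) hQ hQ)
      exact hF.q2 β γ π sβ sγ sπ (fun x a b => by rw [h1 x a b, map_one]) hB (hHF _ this)
    · simp only [frattini, Order.radical, le_iInf_iff, not_forall] at hc
      obtain ⟨K, hK, hc⟩ := hc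
      have hs : β.ker.map γ ⊔ K = ⊤ := hK.2 _ (right_lt_sup.2 hc)
      have hn' : (β.ker.map γ).Normal := (inferInstance : β.ker.Normal).map γ sγ
      let C := K.comap γ
      have dec : ∀ d : D, ∃ y, β y = 1 ∧ ∃ c ∈ C, d = y * c := fun d => by
        obtain ⟨_, ⟨y, hy, rfl⟩, k, hk, e⟩ :=
          Subgroup.mem_sup_of_normal_left.1 (hs ▸ Subgroup.mem_top (γ d))
        refine ⟨y, hy, y⁻¹ * d, ?_, by simp⟩
        show γ (y⁻¹ * d) ∈ K
        rw [map_mul, map_inv, ← e]; simpa using hk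
      have hC : C ≠ ⊤ := fun h => hK.1 (by
        rw [eq_top_iff]; intro e _
        obtain ⟨d, rfl⟩ := sγ e
        exact (h ▸ Subgroup.mem_top d : d ∈ C))
      refine ih _ (hn ▸ Pool.Agent.H4.Fit.card_lt_top hC) C (γ.comp C.subtype).range
        (β.comp C.subtype) (θ.comp C.subtype) (γ.comp C.subtype).rangeRestrict
        (π.comp C.subtype) rfl (fun b => ?_) (fun b => ?_) (MonoidHom.rangeRestrict_surjective _)
        ?_ (fun x a b => Subtype.ext (h1 _ a (congrArg Subtype.val b))) (fun x hx => ?_)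
        (fun x => h3 x) (fun x => h4 x)
      · obtain ⟨d, rfl⟩ := sβ b
        obtain ⟨y, hy, c, hc, rfl⟩ := dec d
        exact ⟨⟨c, hc⟩, by simp [hy]⟩
      · obtain ⟨d, rfl⟩ := sθ b
        obtain ⟨y, hy, c, hc, rfl⟩ := dec d
        exact ⟨⟨c, hc⟩, by simp [h4 y hy]⟩
      · rw [← MonoidHom.range_eq_top]
        refine frattini_nongenerating (eq_top_iff.2 fun g _ => ?_)
        obtain ⟨d, rfl⟩ := sπ g
        obtain ⟨y, hy, c, hc, rfl⟩ := dec d
        rw [map_mul]
        exact Subgroup.mul_mem _ (Subgroup.mem_sup_right (h3 y hy))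
          (Subgroup.mem_sup_left ⟨⟨c, hc⟩, rfl⟩)
      · obtain ⟨y, hy, e⟩ := h2 x hx
        exact ⟨⟨y, show γ y ∈ K from e ▸ x.2⟩, hy, Subtype.ext e⟩

open Pool.Agent.H4.Form in
lemma half {H F₁ F₂ : Cl} (hH : IsF H) (h1 : IsF F₁) (h2 : IsF F₂)
    (sH : ∀ (G : Type) [Group G] [Finite G], H (G ⧸ frattini G) → H G)
    (hHF : ∀ (G : Type) [Group G], H G → F₁ G)
    (hI : ∀ (G : Type) [Group G], F₁ G → F₂ G → H G) (G : Type) [Group G] [Finite G]
    (hG : F₁ (G ⧸ frattini G)) (hg : gen F₁ F₂ G) : F₁ G := by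
  have sq := QuotientGroup.mk'_surjective (frattini G)
  rcases gen_desc h1 h2 hg with h | h | ⟨_, D, B, C, _, _, _, β, γ, π, b1, c1, sb, sc, sp, hj⟩
  · exact h
  · exact hHF _ (sH G (hI _ hG (h2.2.1 _ _ _ sq h)))
  have := h1.1 _ b1
  have := h2.1 _ c1
  have : Finite D := Finite.of_injective (β.prod γ) ((injective_iff_map_eq_one _).2 fun x hx =>
    hj x (Prod.ext_iff.1 hx).1 (Prod.ext_iff.1 hx).2)
  let φ := (QuotientGroup.mk' (frattini G)).comp π
  have sφ : Function.Surjective φ := sq.comp sp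
  let N := β.ker ⊓ φ.ker
  have s1 := QuotientGroup.mk'_surjective N
  have s2 := QuotientGroup.mk'_surjective (N ⊔ γ.ker)
  refine key hH h1 sH hHF (B := D ⧸ N) (Q := D ⧸ (N ⊔ γ.ker))
    (h1.q2 β φ _ sb sφ s1 (fun x a b => (QuotientGroup.eq_one_iff _).2 ⟨a, b⟩) b1 hG)
    (hI _ (h1.q2 β φ _ sb sφ s2 (fun x a b => (QuotientGroup.eq_one_iff _).2
      (Subgroup.mem_sup_left ⟨a, b⟩)) b1 hG) (h2.q2 γ γ _ sc sc s2 (fun x a _ =>
      (QuotientGroup.eq_one_iff _).2 (Subgroup.mem_sup_right a)) c1 c1)) _ D C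
    (QuotientGroup.mk' _) (QuotientGroup.mk' _) γ π rfl s1 s2 sc sp
    (fun x a b => hj x ((QuotientGroup.eq_one_iff _).1 a).1 b) (fun x hx => ?_)
    (fun x a => (QuotientGroup.eq_one_iff _).1 ((QuotientGroup.eq_one_iff (N := N) _).1 a).2)
    (fun x a => (QuotientGroup.eq_one_iff _).2
      (Subgroup.mem_sup_left ((QuotientGroup.eq_one_iff _).1 a)))
  obtain ⟨y, hy, z, hz, rfl⟩ :=
    Subgroup.mem_sup_of_normal_left.1 ((QuotientGroup.eq_one_iff _).1 hx)
  exact ⟨y, (QuotientGroup.eq_one_iff _).2 hy, by rw [map_mul, show γ z = 1 from hz, mul_one]⟩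

/-- Let H ⊆ F1, F2 ⊆ M be formations of finite groups, with H and M saturated (equivalently local). If F1 ∩ F2 = H and the formation generated by F1 ∪ F2 is M, then F1 and F2 are both saturated (local). -/
theorem result :
    ∀ (Form Sat : ((G : Type) → [Group G] → Prop) → Prop),
      (∀ F : (G : Type) → [Group G] → Prop,
        Form F ↔
          ((∀ (G : Type) [Group G], F G → Finite G) ∧
           (∀ (G K : Type) [Group G] [Group K], Nonempty (G ≃* K) → F G → F K) ∧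
           (∀ (G : Type) [Group G] (N : Subgroup G) [N.Normal], F G → F (G ⧸ N)) ∧
           (∀ (G : Type) [Group G] [Finite G] (N L : Subgroup G) [N.Normal] [L.Normal],
              N ⊓ L = ⊥ → F (G ⧸ N) → F (G ⧸ L) → F G))) →
      (∀ F : (G : Type) → [Group G] → Prop,
        Sat F ↔ (∀ (G : Type) [Group G] [Finite G], F (G ⧸ frattini G) → F G)) →
      ∀ (H M F₁ F₂ : (G : Type) → [Group G] → Prop),
        Form H → Sat H → Form M → Sat M → Form F₁ → Form F₂ →
        (∀ (G : Type) [Group G], H G → F₁ G) →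
        (∀ (G : Type) [Group G], H G → F₂ G) →
        (∀ (G : Type) [Group G], F₁ G → M G) →
        (∀ (G : Type) [Group G], F₂ G → M G) →
        (∀ (G : Type) [Group G], F₁ G → F₂ G → H G) →
        (∀ X : (G : Type) → [Group G] → Prop, Form X →
          (∀ (G : Type) [Group G], F₁ G → X G) →
          (∀ (G : Type) [Group G], F₂ G → X G) →
          (∀ (G : Type) [Group G], M G → X G)) →
        Sat F₁ ∧ Sat F₂ := by
  intro Form Sat hF hS H M F₁ F₂ fH sH fM sM f1 f2 a1 a2 m1 m2 hI hM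
  have e : ∀ X, Form X ↔ Pool.Agent.H4.Form.IsF X := fun X => by
    rw [hF]
    refine ⟨fun ⟨h1, h2, h3, h4⟩ => ⟨h1, fun G K _ _ f hf h => h2 _ _
      ⟨QuotientGroup.quotientKerEquivOfSurjective f hf⟩ (h3 _ _ h), fun G _ N L _ _ h a b => ?_⟩,
      fun h => ⟨h.1, fun G K _ _ ⟨f⟩ => h.2.1 _ _ f.toMonoidHom f.surjective,
        fun G _ N _ => h.2.1 _ _ _ (QuotientGroup.mk'_surjective N),
        fun G _ _ N L _ _ => h.2.2 G N L⟩⟩
    have := Pool.Agent.H4.Form.fin_isF.2.2 G N L h (h1 _ a) (h1 _ b)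
    exact h4 G N L h a b
  rw [hS] at sH sM
  rw [e] at fH f1 f2
  refine ⟨(hS _).2 fun G _ _ h => half fH f1 f2 sH a1 hI G h fun K hK k1 k2 => ?_,
    (hS _).2 fun G _ _ h => half fH f2 f1 sH a2 (fun G _ a b => hI G b a) G h
      fun K hK k1 k2 => ?_⟩
  · exact hM K ((e K).2 hK) k1 k2 G (sM G (m1 _ h))
  · exact hM K ((e K).2 hK) k2 k1 G (sM G (m2 _ h))

end Pool.Agent.S01339
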