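import Pool.Statements.S01406
import Pool.Agent.H19.Cay

set_option autoImplicit false
open Pool Pool.MP_4d7bfe_al

namespace Pool.Agent.S01406

/-- The negation of the preceding statement: There exist groups G, H with finite symmetric generating sets S, T (neither containing 1) and a bijection G to H carrying the Cayley graph of (G,S) isomorphically onto that of (H,T), where G is periodic and H is not. -/
theorem result :
    ¬ (∃ (G H : Type) (_ : Group G) (_ : Group H) (S : Finset G) (T : Finset H),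
      Subgroup.closure (S : Set G) = ⊤ ∧ Subgroup.closure (T : Set H) = ⊤ ∧
      (1 : G) ∉ S ∧ (1 : H) ∉ T ∧
      (∀ x ∈ S, x⁻¹ ∈ S) ∧ (∀ y ∈ T, y⁻¹ ∈ T) ∧
      Monoid.IsTorsion G ∧ ¬ Monoid.IsTorsion H ∧
      ∃ e : G ≃ H, ∀ g h : G, g⁻¹ * h ∈ S ↔ (e g)⁻¹ * (e h) ∈ T) := by
  rintro ⟨G, H, _, _, S, T, hS, -, -, -, hi, -, hG, hH, e, he⟩
  exact hH (Pool.Agent.H19.Cay.main (S : Set G) (T : Set H) S.finite_toSet hS
    (fun x hx => hi x hx) hG e (fun g h => he g h))

end Pool.Agent.S01406
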