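import Pool.Statements.S01419
import Pool.Agent.H4.Form2

set_option autoImplicit false
open Pool Pool.MP_4f47f1_al

namespace Pool.Agent.S01419

/-- For every soluble formation of finite groups with a chain of at most 4 maximal-subformation steps from the empty class, its subformations satisfy A ∩ (B ∨ C) ⊆ (A ∩ B) ∨ (A ∩ C), with ∨ meaning the generated formation. -/
theorem result :
  ∀ Φ : (∀ (G : Type) [Group G], Prop) → Prop,
    (∀ X : (∀ (G : Type) [Group G], Prop), Φ X ↔
      ((∀ (G : Type) [Group G], X G → Finite G) ∧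
       (∀ (G H : Type) [Group G] [Group H] (f : G →* H),
          Function.Surjective f → X G → X H) ∧
       (∀ (G : Type) [Group G] (N₁ N₂ : Subgroup G) [N₁.Normal] [N₂.Normal],
          N₁ ⊓ N₂ = ⊥ → X (G ⧸ N₁) → X (G ⧸ N₂) → X G))) →
    ∀ F : (∀ (G : Type) [Group G], Prop), Φ F →
      (∀ (G : Type) [Group G], F G → IsSolvable G) →
      (∃ t : ℕ, t ≤ 4 ∧ ∃ c : ℕ → (∀ (G : Type) [Group G], Prop),
         (∀ (G : Type) [Group G], ¬ c 0 G) ∧
         (∀ (G : Type) [Group G], c t G ↔ F G) ∧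
         ∀ i : ℕ, i < t →
           Φ (c i) ∧ Φ (c (i + 1)) ∧
           (∀ (G : Type) [Group G], c i G → c (i + 1) G) ∧
           (∃ G : Type, ∃ inst : Group G, c (i + 1) G ∧ ¬ c i G) ∧
           ∀ K : (∀ (G : Type) [Group G], Prop), Φ K →
             (∀ (G : Type) [Group G], c i G → K G) →
             (∀ (G : Type) [Group G], K G → c (i + 1) G) →
             ((∀ (G : Type) [Group G], K G → c i G) ∨
              (∀ (G : Type) [Group G], c (i + 1) G → K G))) →
      ∀ A B C : (∀ (G : Type) [Group G], Prop), Φ A → Φ B → Φ C →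
        (∀ (G : Type) [Group G], A G → F G) →
        (∀ (G : Type) [Group G], B G → F G) →
        (∀ (G : Type) [Group G], C G → F G) →
        ∀ (G : Type) [Group G], A G →
          (∀ K : (∀ (X : Type) [Group X], Prop), Φ K →
            (∀ (X : Type) [Group X], B X → K X) →
            (∀ (X : Type) [Group X], C X → K X) → K G) →
          ∀ K : (∀ (X : Type) [Group X], Prop), Φ K →
            (∀ (X : Type) [Group X], A X → B X → K X) →
            (∀ (X : Type) [Group X], A X → C X → K X) → K G := by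
  intro Φ hΦ F hF hsol ⟨t, ht, c, h0, hct, hc⟩ A B C hA hB hC hAF hBF hCF G _ hG hBC K hK k1 k2
  have hΦ' : ∀ X, Φ X ↔ Pool.Agent.H4.Form.IsF X := hΦ
  classical
  have hi : ∀ i, i ≤ t → Pool.Agent.H4.Form.IsF (c i) := by
    intro i hi
    rcases Nat.eq_zero_or_pos i with rfl | h
    · exact ⟨fun G _ h => absurd h (h0 G), fun G _ _ _ _ _ h => absurd h (h0 G),
        fun G _ _ _ _ _ _ h _ => absurd h (h0 _)⟩
    · obtain ⟨j, rfl⟩ : ∃ j, i = j + 1 := ⟨i - 1, by omega⟩
      exact (hΦ' _).1 (hc j (by omega)).2.1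
  let c' : ℕ → Pool.Agent.H4.Form.Fm := fun i => ⟨c (min i t), hi _ (min_le_right _ _)⟩
  have e : ∀ i, i ≤ t → (c' i).1 = c i := fun i h => by simp only [c', min_eq_left h]
  have key := Pool.Agent.H4.Form.main ⟨F, (hΦ' _).1 hF⟩ hsol t ht c'
    (by rw [e 0 (Nat.zero_le _)]; exact h0)
    (fun G _ h => by rw [e t le_rfl]; exact (hct G).2 h)
    (fun i h => by
      obtain ⟨-, -, h3, -, h5⟩ := hc i h
      refine ⟨fun G _ => by rw [e i h.le, e (i + 1) h]; exact h3 G, fun L l1 l2 => ?_⟩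
      have := h5 L.1 ((hΦ' _).2 L.2) (by rw [← e i h.le]; exact l1) (by rw [← e (i + 1) h]; exact l2)
      rw [← e i h.le, ← e (i + 1) h] at this
      exact this)
    ⟨A, (hΦ' _).1 hA⟩ ⟨B, (hΦ' _).1 hB⟩ ⟨C, (hΦ' _).1 hC⟩ hAF hBF
  exact key G ⟨hG, fun L hL l1 l2 => hBC L ((hΦ' _).2 hL) l1 l2⟩ K ((hΦ' _).1 hK)
    (fun X _ h => k1 X h.1 h.2) (fun X _ h => k2 X h.1 h.2)

end Pool.Agent.S01419
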