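import Pool.Statements.S01461
import Pool.Agent.H2.Am2

set_option autoImplicit false
open Pool Pool.MP_52bd65_al

namespace Pool.Agent.S01461

open Pool.Agent.H2.Amn Filter

structure Lv where
  X : Type
  [ord : LinearOrder X]
  G : Subgroup (Equiv.Perm X)
  sm : G ≤ SM X
  am : Am G

attribute [instance] Lv.ord

noncomputable def L : ℕ → Lv
  | 0 => { X := ℤ, G := ⊥, sm := bot_le, am := Am.bot }
  | n + 1 => { X := Y (L n).X, G := nxt (L n).G, sm := nxt_sm (L n).sm,
               am := nxt_am (L n).sm (L n).am }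

noncomputable def I (n : ℕ) : (L n).X → (L (n + 1)).X := io
noncomputable def J (n : ℕ) : Equiv.Perm (L n).X →* Equiv.Perm (L (n + 1)).X := jj

lemma I_sm (n : ℕ) : StrictMono (I n) := io_sm
lemma J_I (n : ℕ) (g : Equiv.Perm (L n).X) (x : (L n).X) : J n g (I n x) = I n (g x) := jj_io g x
lemma J_mem (n : ℕ) {g : Equiv.Perm (L n).X} (h : g ∈ (L n).G) : J n g ∈ (L (n + 1)).G := jj_mem h

lemma extend {α : ℕ → Type} (p : ∀ n, α n → Prop) (f : ∀ n, α n → α (n + 1)) (d : ∀ n, α n)
    (hd : ∀ n, p n (d n)) (hf : ∀ n x, p n x → p (n + 1) (f n x)) (k : ℕ) (x : α k) (hx : p k x) :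
    ∃ s : ∀ n, α n, s k = x ∧ (∀ n, p n (s n)) ∧ ∀ n, k ≤ n → s (n + 1) = f n (s n) := by
  classical
  let d' : ∀ n, α n := Function.update d k x
  have hd' : ∀ n, p n (d' n) := fun n => by
    by_cases h : n = k
    · subst h; simpa [d'] using hx
    · simpa [d', h] using hd n
  let s : ∀ n, α n := fun n =>
    Nat.rec (d' 0) (fun n y => if n + 1 ≤ k then d' (n + 1) else f n y) n
  have hs : ∀ n, s (n + 1) = if n + 1 ≤ k then d' (n + 1) else f n (s n) := fun n => rfl
  refine ⟨s, ?_, fun n => ?_, fun n hn => by rw [hs, if_neg (by omega)]⟩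
  · cases k with
    | zero => show d' 0 = x; simp [d']
    | succ k => rw [hs, if_pos le_rfl]; simp [d']
  · induction n with
    | zero => exact hd' 0
    | succ n ih => rw [hs]; split_ifs; exacts [hd' _, hf _ _ ih]

abbrev P := ∀ n, Equiv.Perm (L n).X

def D (k i : ℕ) : Subgroup P where
  carrier := {s | (∀ n, s n ∈ (L n).G) ∧ (∀ n, k ≤ n → s (n + 1) = J n (s n)) ∧ ∀ n, n < i → s n = 1}
  one_mem' := ⟨fun _ => one_mem _, fun n _ => (map_one (J n)).symm, fun _ _ => rfl⟩
  mul_mem' := fun {a b} ha hb => ⟨fun n => mul_mem (ha.1 n) (hb.1 n), fun n hn => by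
    simp only [Pi.mul_apply, map_mul, ha.2.1 n hn, hb.2.1 n hn], fun n hn => by
    simp only [Pi.mul_apply, ha.2.2 n hn, hb.2.2 n hn, mul_one]⟩
  inv_mem' := fun {a} ha => ⟨fun n => inv_mem (ha.1 n), fun n hn => by
    simp only [Pi.inv_apply, map_inv, ha.2.1 n hn], fun n hn => by
    simp only [Pi.inv_apply, ha.2.2 n hn, inv_one]⟩

lemma D_am (k : ℕ) : ∀ j i, i + j = k + 1 → Am (D k i) := by
  intro j
  induction j with
  | zero =>
    intro i hi
    refine Am.mono (fun s hs => Subgroup.mem_bot.2 (funext fun n => ?_)) Am.bot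
    induction n with
    | zero => exact hs.2.2 0 (by omega)
    | succ n ih =>
      by_cases h : k ≤ n
      · rw [hs.2.1 n h, ih]; exact map_one (J n)
      · exact hs.2.2 _ (by omega)
  | succ j ih =>
    intro i hi
    refine Am.ext (Pi.evalMonoidHom (fun n => Equiv.Perm (L n).X) i)
      (Am.mono ?_ (L i).am) (Am.mono ?_ (ih (i + 1) (by omega)))
    · rintro _ ⟨s, hs, rfl⟩; exact hs.1 i
    · rintro s ⟨hs, h1⟩
      refine ⟨hs.1, hs.2.1, fun n hn => ?_⟩
      rcases Nat.lt_succ_iff_lt_or_eq.1 hn with h | rfl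
      · exact hs.2.2 n h
      · exact h1

lemma D_mono : Monotone fun k => D k 0 :=
  fun _ _ h _ hs => ⟨hs.1, fun n hn => hs.2.1 n (h.trans hn), hs.2.2⟩

def H : Subgroup P := ⨆ k, D k 0

lemma mem_H {s : P} : s ∈ H ↔ ∃ k, s ∈ D k 0 := Subgroup.mem_iSup_of_directed D_mono.directed_le

lemma H_am : Am H :=
  Am.union _ D_mono H (fun k => le_iSup (fun k => D k 0) k) (fun _ h => mem_H.1 h)
    fun k => D_am k (k + 1) 0 (by omega)

def S : Type := {x : ∀ n, (L n).X // ∀ᶠ n in atTop, x (n + 1) = I n (x n)}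

instance : Preorder S where
  le x y := ∀ᶠ n in atTop, x.1 n ≤ y.1 n
  le_refl x := Eventually.of_forall fun _ => le_rfl
  le_trans x y z h k := by filter_upwards [h, k] with n h k using h.trans k

lemma le_iff {x y : S} {k : ℕ} (hx : ∀ n, k ≤ n → x.1 (n + 1) = I n (x.1 n))
    (hy : ∀ n, k ≤ n → y.1 (n + 1) = I n (y.1 n)) {m : ℕ} (hm : k ≤ m) :
    x ≤ y ↔ x.1 m ≤ y.1 m := by
  have key : ∀ n, k ≤ n → (x.1 n ≤ y.1 n ↔ x.1 k ≤ y.1 k) := by
    intro n hn
    induction n, hn using Nat.le_induction with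
    | base => rfl
    | succ n hn ih => rw [hx n hn, hy n hn, (I_sm n).le_iff_le, ih]
  rw [key m hm]
  constructor
  · intro h
    obtain ⟨n, h1, h2⟩ := (Eventually.and h (eventually_ge_atTop k)).exists
    exact (key n h2).1 h1
  · intro h
    show ∀ᶠ n in atTop, x.1 n ≤ y.1 n
    filter_upwards [eventually_ge_atTop k] with n hn using (key n hn).2 h

instance : @Std.Total S (· ≤ ·) := ⟨fun x y => by
  obtain ⟨k, hk⟩ := eventually_atTop.1 (x.2.and y.2)
  have hx := fun n hn => (hk n hn).1
  have hy := fun n hn => (hk n hn).2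
  rw [le_iff hx hy le_rfl, le_iff hy hx le_rfl]
  exact le_total _ _⟩

def act (g : H) (x : S) : S := ⟨fun n => g.1 n (x.1 n), by
  obtain ⟨k, hk⟩ := mem_H.1 g.2
  filter_upwards [x.2, eventually_ge_atTop k] with n h1 h2
  rw [h1, hk.2.1 n h2, J_I]⟩

lemma act_mono (g : H) : Monotone (act g) := by
  intro x y h
  obtain ⟨k, hk⟩ := mem_H.1 g.2
  exact Eventually.mono h fun n hn => StrictMono.monotone ((L n).sm (hk.1 n)) hn

abbrev XX := Antisymmetrization S (· ≤ ·)

noncomputable instance : LinearOrder XX := by classical exact inferInstance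

instance : MulAction H XX where
  smul g := OrderHom.antisymmetrization ⟨act g, act_mono g⟩
  one_smul x := by induction x using Antisymmetrization.ind; rfl
  mul_smul a b x := by induction x using Antisymmetrization.ind; rfl

lemma trans_lv {n : ℕ} (x y : Fin n → S) (k : ℕ)
    (hx : ∀ i m, k ≤ m → (x i).1 (m + 1) = I m ((x i).1 m))
    (hy : ∀ i m, k ≤ m → (y i).1 (m + 1) = I m ((y i).1 m))
    (sx : StrictMono x) (sy : StrictMono y) (m : ℕ) :
    ∃ g ∈ (L (k + m)).G, ∀ i : Fin n, i.val < m → g ((x i).1 (k + m)) = (y i).1 (k + m) := by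
  induction m with
  | zero => exact ⟨1, one_mem _, fun i hi => by omega⟩
  | succ m ih =>
    obtain ⟨g, hg, e⟩ := ih
    have hm : k ≤ k + m := Nat.le_add_right k m
    obtain ⟨g', hg', e'⟩ := step (L (k + m)).sm (fun i => (x i).1 (k + m))
      (fun i => (y i).1 (k + m))
      (fun i j h => lt_of_not_ge fun c => (sx h).not_ge ((le_iff (hx j) (hx i) hm).2 c))
      (fun i j h => lt_of_not_ge fun c => (sy h).not_ge ((le_iff (hy j) (hy i) hm).2 c)) m g hg e
    refine ⟨g', hg', fun i hi => ?_⟩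
    have h1 := hx i (k + m) hm
    have h2 := hy i (k + m) hm
    exact (congrArg g' h1).trans ((e' i hi).trans h2.symm)

noncomputable def d0 (z : ℤ) : ∀ n, (L n).X := fun n => Nat.rec z (fun n y => I n y) n

noncomputable def s0 (z : ℤ) : S := ⟨d0 z, Eventually.of_forall fun _ => rfl⟩

/-- There is a group with a left-invariant finitely additive probability mean on all its subsets, acting monotonically on a linearly ordered set with at least two points, such that any increasing n-tuple can be sent to any other increasing n-tuple. -/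
theorem result :
    ∃ (G : Type) (_ : Group G) (X : Type) (_ : LinearOrder X) (_ : MulAction G X),
      Nontrivial X ∧
      (∀ g : G, Monotone (fun x : X => g • x)) ∧
      (∀ n : ℕ, ∀ x y : Fin n → X, StrictMono x → StrictMono y →
        ∃ g : G, ∀ i, g • x i = y i) ∧
      (∃ m : Set G → ℝ,
        (∀ A, 0 ≤ m A) ∧ m Set.univ = 1 ∧
        (∀ A B : Set G, Disjoint A B → m (A ∪ B) = m A + m B) ∧
        (∀ (g : G) (A : Set G), m ((fun h => g * h) '' A) = m A)) := by
  refine ⟨H, inferInstance, XX, inferInstance, inferInstance, ?_,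
    fun g => (OrderHom.antisymmetrization ⟨act g, act_mono g⟩).monotone, ?_, H_am.measure⟩
  · refine ⟨toAntisymmetrization _ (s0 1), toAntisymmetrization _ (s0 0), fun e => ?_⟩
    have h : s0 1 ≤ s0 0 := toAntisymmetrization_le_toAntisymmetrization_iff.1 e.le
    have : (1 : ℤ) ≤ 0 := (le_iff (k := 0) (fun _ _ => rfl) (fun _ _ => rfl) le_rfl).1 h
    omega
  · intro n x y sx sy
    choose a ha using fun i => Quotient.exists_rep (x i)
    choose b hb using fun i => Quotient.exists_rep (y i)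
    have ha' : ∀ i, toAntisymmetrization (· ≤ ·) (a i) = x i := ha
    have hb' : ∀ i, toAntisymmetrization (· ≤ ·) (b i) = y i := hb
    have sa : StrictMono a := fun i j h =>
      toAntisymmetrization_lt_toAntisymmetrization_iff.1 (by rw [ha', ha']; exact sx h)
    have sb : StrictMono b := fun i j h =>
      toAntisymmetrization_lt_toAntisymmetrization_iff.1 (by rw [hb', hb']; exact sy h)
    obtain ⟨k, hk⟩ := eventually_atTop.1
      ((eventually_all.2 fun i => (a i).2).and (eventually_all.2 fun i => (b i).2))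
    have hx := fun i m hm => (hk m hm).1 i
    have hy := fun i m hm => (hk m hm).2 i
    obtain ⟨g, hg, e⟩ := trans_lv a b k hx hy sa sb n
    obtain ⟨s, e1, e2, e3⟩ := extend (α := fun n => Equiv.Perm (L n).X) (fun n g => g ∈ (L n).G)
      (fun n g => J n g) (fun _ => 1) (fun _ => one_mem _) (fun n _ h => J_mem n h) (k + n) g hg
    let γ : H := ⟨s, mem_H.2 ⟨k + n, e2, e3, fun _ h => by omega⟩⟩
    refine ⟨γ, fun i => ?_⟩
    rw [← ha', ← hb']
    have c1 : ∀ m, k + n ≤ m → (act γ (a i)).1 (m + 1) = I m ((act γ (a i)).1 m) := fun m hm => by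
      show s (m + 1) ((a i).1 (m + 1)) = I m (s m ((a i).1 m))
      rw [e3 m hm, hx i m (by omega), J_I]
    have c2 : ∀ m, k + n ≤ m → (b i).1 (m + 1) = I m ((b i).1 m) := fun m hm => hy i m (by omega)
    have c3 : (act γ (a i)).1 (k + n) = (b i).1 (k + n) := by
      show s (k + n) _ = _
      rw [e1, e i i.2]
    exact Quotient.sound' ⟨(le_iff c1 c2 le_rfl).2 c3.le, (le_iff c2 c1 le_rfl).2 c3.ge⟩

end Pool.Agent.S01461
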