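import Pool.Statements.S01469
import Pool.Agent.H28.LiePr

set_option autoImplicit false
open Pool Pool.MP_5314be_al

namespace Pool.Agent.S01469


/-- There is a field K and a Lie algebra L over K such that L is not generated by any finite set, but every proper Lie subalgebra of L is generated by some finite set. -/
theorem result :
    ∃ (K : Type) (_ : Field K) (L : Type) (_ : LieRing L) (_ : LieAlgebra K L),
      (¬ ∃ s : Set L, s.Finite ∧ LieSubalgebra.lieSpan K L s = ⊤) ∧
      ∀ H : LieSubalgebra K L, H ≠ ⊤ →
        ∃ s : Set L, s.Finite ∧ LieSubalgebra.lieSpan K L s = H := by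
  obtain ⟨K, iK, L, iL, iA, h1, h2⟩ := Pool.Agent.H28.LiePr.main
  refine ⟨K, iK, L, iL, iA, h1, ?_⟩
  intro H hH
  haveI := h2 H hH
  have hfg : H.toSubmodule.FG := (Submodule.fg_iff_finiteDimensional _).2 (h2 H hH)
  obtain ⟨s, hs⟩ := hfg
  refine ⟨s, s.finite_toSet, le_antisymm ?_ ?_⟩
  · rw [LieSubalgebra.lieSpan_le]
    intro x hx
    have : x ∈ Submodule.span K (s : Set L) := Submodule.subset_span hx
    rw [hs] at this
    exact this
  · intro x hx
    have hx' : x ∈ Submodule.span K (s : Set L) := by rw [hs]; exact hx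
    exact LieSubalgebra.submodule_span_le_lieSpan hx'

end Pool.Agent.S01469
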