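import Pool.Statements.S01482

set_option autoImplicit false
open Pool Pool.MP_5439be_al

namespace Pool.Agent.S01482

abbrev V : Type := ℕ →₀ ℚ
abbrev W : Type := V × V

instance f2 : Fact (Nat.Prime 2) := ⟨by norm_num⟩
instance f3 : Fact (Nat.Prime 3) := ⟨by norm_num⟩
instance f5 : Fact (Nat.Prime 5) := ⟨by norm_num⟩
instance f7 : Fact (Nat.Prime 7) := ⟨by norm_num⟩
instance f11 : Fact (Nat.Prime 11) := ⟨by norm_num⟩

/-- backward shift -/
noncomputable def ph : V →ₗ[ℚ] V := Finsupp.lcomapDomain Nat.succ Nat.succ_injective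

theorem ph_apply (u : V) (n : ℕ) : ph u n = u (n + 1) := rfl

/-- forward shift -/
noncomputable def sg (u : V) : V := Finsupp.mapDomain Nat.succ u

theorem ph_sg (u : V) : ph (sg u) = u :=
  Finsupp.leftInverse_lcomapDomain_mapDomain (R := ℚ) Nat.succ Nat.succ_injective u

theorem sg_zero (u : V) : sg u 0 = 0 := by
  apply Finsupp.mapDomain_of_notMem_range
  simp

theorem sg_succ (u : V) (n : ℕ) : sg u (n + 1) = u n := by
  rw [← ph_apply, ph_sg]

/-- vectors with r-integral coordinates -/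
def Z (r : ℕ) [Fact r.Prime] : AddSubgroup V where
  carrier := {u | ∀ n, padicNorm r (u n) ≤ 1}
  add_mem' := by
    intro a b ha hb n
    exact padicNorm.nonarchimedean.trans (max_le (ha n) (hb n))
  zero_mem' := by
    intro n
    simp
  neg_mem' := by
    intro a ha n
    simpa using ha n

theorem ph_mem (r : ℕ) [Fact r.Prime] {u : V} (h : u ∈ Z r) : ph u ∈ Z r := fun n => h (n + 1)

theorem sg_mem (r : ℕ) [Fact r.Prime] {u : V} (h : u ∈ Z r) : sg u ∈ Z r := by
  intro n
  cases n with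
  | zero => rw [sg_zero]; simp
  | succ n => rw [sg_succ]; exact h n

/-- vectors whose coordinates have denominators a power of l -/
def D (l : ℕ) : AddSubgroup V where
  carrier := {u | ∀ (r : ℕ) [Fact r.Prime], r ≠ l → u ∈ Z r}
  add_mem' := by
    intro a b ha hb r _ hr
    exact add_mem (ha r hr) (hb r hr)
  zero_mem' := by
    intro r _ _
    exact zero_mem _
  neg_mem' := by
    intro a ha r _ hr
    exact neg_mem (ha r hr)

theorem D_le {l : ℕ} {u : V} (h : u ∈ D l) (r : ℕ) [Fact r.Prime] (hr : r ≠ l) : u ∈ Z r :=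
  h r hr

theorem ph_memD {l : ℕ} {u : V} (h : u ∈ D l) : ph u ∈ D l := fun r _ hr => ph_mem r (h r hr)

theorem sg_memD {l : ℕ} {u : V} (h : u ∈ D l) : sg u ∈ D l := fun r _ hr => sg_mem r (h r hr)

/-- the big group -/
def G : AddSubgroup W where
  carrier := {x | ∃ a ∈ D 2, ∃ b ∈ D 3, ∃ c ∈ D 5, ∃ d ∈ D 7, x = (a + c + d, b + c + ph d)}
  add_mem' := by
    rintro _ _ ⟨a, ha, b, hb, c, hc, d, hd, rfl⟩ ⟨a', ha', b', hb', c', hc', d', hd', rfl⟩
    refine ⟨a + a', add_mem ha ha', b + b', add_mem hb hb', c + c', add_mem hc hc', d + d',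
      add_mem hd hd', ?_⟩
    rw [Prod.mk_add_mk, map_add]
    congr 1 <;> abel
  zero_mem' := ⟨0, zero_mem _, 0, zero_mem _, 0, zero_mem _, 0, zero_mem _, by
    rw [map_zero, add_zero, add_zero]
    rfl⟩
  neg_mem' := by
    rintro _ ⟨a, ha, b, hb, c, hc, d, hd, rfl⟩
    refine ⟨-a, neg_mem ha, -b, neg_mem hb, -c, neg_mem hc, -d, neg_mem hd, ?_⟩
    rw [Prod.neg_mk, map_neg]
    congr 1 <;> abel

theorem g2 {x : W} (h : x ∈ G) : x.2 ∈ Z 2 := by
  obtain ⟨a, ha, b, hb, c, hc, d, hd, rfl⟩ := h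
  exact add_mem (add_mem (D_le hb 2 (by norm_num)) (D_le hc 2 (by norm_num)))
    (ph_mem 2 (D_le hd 2 (by norm_num)))

theorem g3 {x : W} (h : x ∈ G) : x.1 ∈ Z 3 := by
  obtain ⟨a, ha, b, hb, c, hc, d, hd, rfl⟩ := h
  exact add_mem (add_mem (D_le ha 3 (by norm_num)) (D_le hc 3 (by norm_num)))
    (D_le hd 3 (by norm_num))

theorem g5 {x : W} (h : x ∈ G) : x.1 - x.2 ∈ Z 5 := by
  obtain ⟨a, ha, b, hb, c, hc, d, hd, rfl⟩ := h
  have : a + c + d - (b + c + ph d) = a + d - b - ph d := by abel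
  simp only [this]
  exact sub_mem (sub_mem (add_mem (D_le ha 5 (by norm_num)) (D_le hd 5 (by norm_num)))
    (D_le hb 5 (by norm_num))) (ph_mem 5 (D_le hd 5 (by norm_num)))

theorem g7 {x : W} (h : x ∈ G) : ph x.1 - x.2 ∈ Z 7 := by
  obtain ⟨a, ha, b, hb, c, hc, d, hd, rfl⟩ := h
  have : ph (a + c + d) - (b + c + ph d) = ph a + ph c - b - c := by
    rw [map_add, map_add]
    abel
  simp only [this]
  exact sub_mem (sub_mem (add_mem (ph_mem 7 (D_le ha 7 (by norm_num)))
    (ph_mem 7 (D_le hc 7 (by norm_num)))) (D_le hb 7 (by norm_num))) (D_le hc 7 (by norm_num))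

theorem g11a {x : W} (h : x ∈ G) : x.1 ∈ Z 11 := by
  obtain ⟨a, ha, b, hb, c, hc, d, hd, rfl⟩ := h
  exact add_mem (add_mem (D_le ha 11 (by norm_num)) (D_le hc 11 (by norm_num)))
    (D_le hd 11 (by norm_num))

theorem g11b {x : W} (h : x ∈ G) : x.2 ∈ Z 11 := by
  obtain ⟨a, ha, b, hb, c, hc, d, hd, rfl⟩ := h
  exact add_mem (add_mem (D_le hb 11 (by norm_num)) (D_le hc 11 (by norm_num)))
    (ph_mem 11 (D_le hd 11 (by norm_num)))

/-- the subgroup of index eleven -/
def H : AddSubgroup W where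
  carrier := {x | x ∈ G ∧ padicNorm 11 (x.1 0) < 1}
  add_mem' := by
    rintro a b ⟨ha, ha'⟩ ⟨hb, hb'⟩
    exact ⟨add_mem ha hb, padicNorm.nonarchimedean.trans_lt (max_lt ha' hb')⟩
  zero_mem' := ⟨zero_mem _, by simp⟩
  neg_mem' := by
    rintro a ⟨ha, ha'⟩
    exact ⟨neg_mem ha, by simpa using ha'⟩

theorem norm_pow' (r : ℕ) [Fact r.Prime] (q : ℚ) (k : ℕ) :
    padicNorm r (q ^ k) = padicNorm r q ^ k := by
  induction k with
  | zero => simp
  | succ k ih => rw [pow_succ, padicNorm.mul, ih, pow_succ]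

theorem norm_c (r l : ℕ) [Fact r.Prime] [Fact l.Prime] (h : r ≠ l) (k : ℕ) :
    padicNorm r (11 / (l : ℚ) ^ k) = padicNorm r 11 := by
  rw [padicNorm.div, norm_pow', padicNorm.padicNorm_of_prime_of_ne h]
  simp

theorem single_memD (l : ℕ) [Fact l.Prime] (k n : ℕ) :
    (11 / (l : ℚ) ^ k) • (Finsupp.single n (1 : ℚ) : V) ∈ D l := by
  intro r _ hr m
  simp only [Finsupp.smul_single, smul_eq_mul, mul_one, Finsupp.single_apply]
  split_ifs
  · rw [norm_c r l hr]
    exact_mod_cast padicNorm.of_nat (p := r) 11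
  · simp

theorem single_lt (l : ℕ) [Fact l.Prime] (hl : 11 ≠ l) (k n : ℕ) :
    padicNorm 11 (((11 / (l : ℚ) ^ k) • (Finsupp.single n (1 : ℚ) : V)) 0) < 1 := by
  simp only [Finsupp.smul_single, smul_eq_mul, mul_one, Finsupp.single_apply]
  split_ifs
  · rw [norm_c 11 l hl]
    exact_mod_cast padicNorm.padicNorm_p_lt_one_of_prime (p := 11)
  · simp

theorem div_zero' (l : ℕ) [hl : Fact l.Prime] (h11 : l ≠ 11) (u : V)
    (h : ∀ k : ℕ, (11 / (l : ℚ) ^ k) • u ∈ Z l) : u = 0 := by
  ext n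
  by_contra hn
  have hpos : 0 < padicNorm l (u n) :=
    lt_of_le_of_ne (padicNorm.nonneg _) (padicNorm.nonzero hn).symm
  have hl1 : (1 : ℚ) < l := by exact_mod_cast hl.out.one_lt
  obtain ⟨k, hk⟩ := pow_unbounded_of_one_lt (padicNorm l (u n))⁻¹ hl1
  have h1 := h k n
  have h2 : padicNorm l (11 : ℚ) = 1 := by
    exact_mod_cast padicNorm.padicNorm_of_prime_of_ne (p := l) (q := 11) h11
  simp only [Finsupp.smul_apply, smul_eq_mul] at h1
  rw [padicNorm.mul, padicNorm.div, norm_pow', padicNorm.padicNorm_p_of_prime, h2] at h1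
  simp only [inv_pow, div_inv_eq_mul, one_mul] at h1
  rw [inv_lt_iff_one_lt_mul₀ hpos] at hk
  linarith

theorem structure_thm (F : W →ₗ[ℚ] W) (hF : ∀ x ∈ H, F x ∈ H) :
    ∃ a : V →ₗ[ℚ] V, (∀ x, F x = (a x.1, a x.2)) ∧ ∀ u, ph (a u) = a (ph u) := by
  have key : ∀ (l : ℕ) [Fact l.Prime], l ≠ 11 → ∀ (i : V →ₗ[ℚ] W) (π : W →ₗ[ℚ] V),
      (∀ x ∈ G, π x ∈ Z l) → (∀ u ∈ D l, padicNorm 11 (u 0) < 1 → i u ∈ H) →
      ∀ u, π (F (i u)) = 0 := by
    intro l _ hl i π hπ hi
    have : π ∘ₗ F ∘ₗ i = 0 := by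
      apply Finsupp.lhom_ext'
      intro n
      apply LinearMap.ext_ring
      simp only [LinearMap.comp_apply, Finsupp.lsingle_apply, LinearMap.zero_apply]
      refine div_zero' l hl _ fun k => ?_
      rw [← map_smul, ← map_smul, ← map_smul]
      exact hπ _ (hF _ (hi _ (single_memD l k n) (single_lt l hl.symm k n))).1
    intro u
    exact LinearMap.congr_fun this u
  have h2 := key 2 (by norm_num) (LinearMap.inl ℚ V V) (LinearMap.snd ℚ V V)
    (fun x hx => g2 hx) (fun u hu h0 => ⟨⟨u, hu, 0, zero_mem _, 0, zero_mem _, 0, zero_mem _,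
      by simp⟩, h0⟩)
  have h3 := key 3 (by norm_num) (LinearMap.inr ℚ V V) (LinearMap.fst ℚ V V)
    (fun x hx => g3 hx) (fun u hu _ => ⟨⟨0, zero_mem _, u, hu, 0, zero_mem _, 0, zero_mem _,
      by simp⟩, by simp⟩)
  have h5 := key 5 (by norm_num) (LinearMap.prod LinearMap.id LinearMap.id)
    (LinearMap.fst ℚ V V - LinearMap.snd ℚ V V)
    (fun x hx => g5 hx) (fun u hu h0 => ⟨⟨0, zero_mem _, 0, zero_mem _, u, hu, 0, zero_mem _,
      by simp⟩, h0⟩)
  have h7 := key 7 (by norm_num) (LinearMap.prod LinearMap.id ph)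
    (ph ∘ₗ LinearMap.fst ℚ V V - LinearMap.snd ℚ V V)
    (fun x hx => g7 hx) (fun u hu h0 => ⟨⟨0, zero_mem _, 0, zero_mem _, 0, zero_mem _, u, hu,
      by simp⟩, h0⟩)
  simp only [LinearMap.inl_apply, LinearMap.snd_apply, LinearMap.inr_apply, LinearMap.fst_apply,
    LinearMap.prod_apply, LinearMap.id_apply, LinearMap.sub_apply, LinearMap.comp_apply,
    Function.prod_apply] at h2 h3 h5 h7
  have hs : ∀ u v : V, F (u, v) = ((F (u, 0)).1, (F (0, v)).2) := by
    intro u v
    have : (u, v) = (u, 0) + (0, v) := by simp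
    rw [this, map_add]
    ext1
    · simp [h3]
    · simp [h2]
  have hab : ∀ u : V, (F (0, u)).2 = (F (u, 0)).1 := by
    intro u
    have := h5 u
    rw [hs] at this
    exact (sub_eq_zero.1 this).symm
  refine ⟨LinearMap.fst ℚ V V ∘ₗ F ∘ₗ LinearMap.inl ℚ V V, fun x => ?_, fun u => ?_⟩
  · simp only [LinearMap.comp_apply, LinearMap.inl_apply, LinearMap.fst_apply]
    rw [← hab x.2, ← hs]
  · simp only [LinearMap.comp_apply, LinearMap.inl_apply, LinearMap.fst_apply]
    have := h7 u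
    rw [hs, hab] at this
    exact sub_eq_zero.1 this

theorem ph_iter (n : ℕ) (u : V) (m : ℕ) : (ph^[n] u) m = u (m + n) := by
  induction n generalizing m with
  | zero => rfl
  | succ n ih =>
    rw [Function.iterate_succ_apply', ph_apply, ih]
    congr 1
    omega

theorem ker_e0 (a : V →ₗ[ℚ] V) (hc : ∀ u, ph (a u) = a (ph u)) (u : V) (hu : u ≠ 0)
    (h : a u = 0) : a (Finsupp.single 0 1) = 0 := by
  have hne : u.support.Nonempty := Finsupp.support_nonempty_iff.2 hu
  set n := u.support.max' hne with hn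
  have hn0 : u n ≠ 0 := Finsupp.mem_support_iff.1 (u.support.max'_mem hne)
  have h1 : ∀ k, a (ph^[k] u) = 0 := by
    intro k
    induction k with
    | zero => exact h
    | succ k ih => rw [Function.iterate_succ_apply', ← hc, ih, map_zero]
  have h2 : ph^[n] u = u n • Finsupp.single 0 1 := by
    ext m
    rw [ph_iter]
    cases m with
    | zero => simp
    | succ m =>
      have : m + 1 + n ∉ u.support := fun hm => by
        have := u.support.le_max' _ hm
        omega
      simpa using this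
  have h3 := h1 n
  rw [h2, map_smul] at h3
  exact (smul_eq_zero.1 h3).resolve_left hn0

theorem single_mem (n : ℕ) (l : ℕ) : (Finsupp.single n (1 : ℚ) : V) ∈ D l := by
  intro r _ _ m
  rw [Finsupp.single_apply]
  split_ifs <;> simp

theorem hopf (f : H →+ H) (hf : Function.Surjective f) : Function.Injective f := by
  letI : DivisibleBy W ℤ :=
    { div := fun x n => (n : ℚ)⁻¹ • x
      div_zero := by simp
      div_cancel := by
        intro n x hn
        have : (n : ℚ) ≠ 0 := by exact_mod_cast hn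
        rw [← Int.cast_smul_eq_zsmul ℚ, smul_smul, mul_inv_cancel₀ this, one_smul] }
  obtain ⟨F0, hF0⟩ := (Module.Baer.of_divisible W).extension_property_addMonoidHom H.subtype
    Subtype.val_injective (H.subtype.comp f)
  have hFf : ∀ x : H, F0.toRatLinearMap x = (f x : W) := fun x => DFunLike.congr_fun hF0 x
  obtain ⟨a, ha, hc⟩ := structure_thm F0.toRatLinearMap fun x hx => by
    rw [hFf ⟨x, hx⟩]
    exact (f ⟨x, hx⟩).2
  rw [injective_iff_map_eq_zero]
  intro x hx
  by_contra hx0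
  have h1 : (a x.1.1, a x.1.2) = 0 := by
    rw [← ha, hFf, hx]
    rfl
  have h2 : a (Finsupp.single 0 1) = 0 := by
    by_cases h : x.1.1 = 0
    · refine ker_e0 a hc x.1.2 (fun h' => hx0 ?_) (Prod.ext_iff.1 h1).2
      exact Subtype.ext (Prod.ext h h')
    · exact ker_e0 a hc x.1.1 h (Prod.ext_iff.1 h1).1
  have h3 : ∀ k, padicNorm 11 (a (Finsupp.single k 1) 0) < 1 := by
    intro k
    cases k with
    | zero => rw [h2]; simp
    | succ k =>
      have hm : ((Finsupp.single (k + 1) 1, 0) : W) ∈ H :=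
        ⟨⟨_, single_mem (k + 1) 2, 0, zero_mem _, 0, zero_mem _, 0, zero_mem _, by simp⟩,
          by simp⟩
      have := (f ⟨_, hm⟩).2.2
      rw [← hFf, ha] at this
      exact this
  have hm : ((0, Finsupp.single 0 1) : W) ∈ H :=
    ⟨⟨0, zero_mem _, _, single_mem 0 3, 0, zero_mem _, 0, zero_mem _, by simp⟩, by simp⟩
  obtain ⟨y, hy⟩ := hf ⟨_, hm⟩
  have h4 : a y.1.2 = Finsupp.single 0 1 := by
    have := hFf y
    rw [ha, hy] at this
    exact (Prod.ext_iff.1 this).2
  have h5 : a y.1.2 0 = ∑ k ∈ y.1.2.support, y.1.2 k * a (Finsupp.single k 1) 0 := by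
    conv_lhs => rw [← Finsupp.sum_single y.1.2, Finsupp.sum, map_sum, Finsupp.finsetSum_apply]
    refine Finset.sum_congr rfl fun k _ => ?_
    rw [← smul_eq_mul, ← Finsupp.smul_apply, ← map_smul]
    simp
  have h6 : padicNorm 11 (a y.1.2 0) < 1 := by
    rw [h5]
    refine padicNorm.sum_lt' (fun k _ => ?_) one_pos
    rw [padicNorm.mul]
    exact mul_lt_one_of_nonneg_of_lt_one_right (g11b y.2.1 k) (padicNorm.nonneg _) (h3 k)
  rw [h4] at h6
  simp at h6

/-- the surjective endomorphism with a kernel -/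
noncomputable def sh : G →+ G :=
  AddMonoidHom.mk' (fun x => ⟨(ph x.1.1, ph x.1.2), by
    obtain ⟨_, a, ha, b, hb, c, hc, d, hd, rfl⟩ := x
    exact ⟨_, ph_memD ha, _, ph_memD hb, _, ph_memD hc, _, ph_memD hd, by simp⟩⟩)
    (fun x y => by
      apply Subtype.ext
      simp)

theorem sh_surj : Function.Surjective sh := by
  rintro ⟨_, a, ha, b, hb, c, hc, d, hd, rfl⟩
  refine ⟨⟨_, _, sg_memD ha, _, sg_memD hb, _, sg_memD hc, _, sg_memD hd, rfl⟩, ?_⟩
  apply Subtype.ext
  simp [sh, ph_sg]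

theorem sh_not_inj : ¬ Function.Injective sh := by
  rw [injective_iff_map_eq_zero]
  intro h
  have hm : ((Finsupp.single 0 1, 0) : W) ∈ G :=
    ⟨_, single_mem 0 2, 0, zero_mem _, 0, zero_mem _, 0, zero_mem _, by simp⟩
  have h1 := h ⟨_, hm⟩ (by
    apply Subtype.ext
    simp only [sh, AddMonoidHom.mk'_apply, map_zero, ZeroMemClass.coe_zero, Prod.mk_eq_zero,
      and_true]
    ext n
    simp [ph_apply])
  have h2 := congrArg (fun x : G => x.1.1 0) h1
  simp at h2

/-- the first coordinate as an 11-adic integer -/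
noncomputable def toZ (x : G) : ℤ_[11] := ⟨((x.1.1 0 : ℚ) : ℚ_[11]), by
  rw [Padic.eq_padicNorm]
  exact_mod_cast g11a x.2 0⟩

theorem toZ_coe (x : G) : (toZ x : ℚ_[11]) = ((x.1.1 0 : ℚ) : ℚ_[11]) := rfl

/-- reduction of the first coordinate modulo eleven -/
noncomputable def red : G →+ ZMod 11 :=
  (PadicInt.toZMod : ℤ_[11] →+* ZMod 11).toAddMonoidHom.comp
    (AddMonoidHom.mk' toZ (fun x y => by
        apply PadicInt.ext
        rw [PadicInt.coe_add, toZ_coe, toZ_coe, toZ_coe]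
        simp))

theorem ker_red : red.ker ≤ H.addSubgroupOf G := by
  intro x hx
  refine ⟨x.2, ?_⟩
  have h1 : toZ x ∈ RingHom.ker (PadicInt.toZMod : ℤ_[11] →+* ZMod 11) := hx
  rw [PadicInt.ker_toZMod, IsLocalRing.mem_maximalIdeal, PadicInt.mem_nonunits] at h1
  have h2 : ‖((x.1.1 0 : ℚ) : ℚ_[11])‖ < 1 := h1
  rw [Padic.eq_padicNorm] at h2
  exact_mod_cast h2

/-- The negation of the preceding statement: For every group G and every finite-index subgroup H of G, if every surjective endomorphism of H is injective, then every surjective endomorphism of G is injective. -/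
theorem result :
    ¬ (∀ (G : Type) [Group G] (H : Subgroup G), H.FiniteIndex →
      (∀ f : ↥H →* ↥H, Function.Surjective f → Function.Injective f) →
      ∀ g : G →* G, Function.Surjective g → Function.Injective g) := by
  intro h
  have hfi : (H.addSubgroupOf G).FiniteIndex := AddSubgroup.finiteIndex_of_le ker_red
  have hle : H ≤ G := fun x hx => hx.1
  let e : Multiplicative H ≃* (H.addSubgroupOf G).toSubgroup :=
    { toFun := fun x => ⟨Multiplicative.ofAdd ⟨x.toAdd.1, hle x.toAdd.2⟩, x.toAdd.2⟩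
      invFun := fun x => Multiplicative.ofAdd ⟨x.1.toAdd.1, x.2⟩
      left_inv := fun _ => rfl
      right_inv := fun _ => rfl
      map_mul' := fun _ _ => rfl }
  refine sh_not_inj (h (Multiplicative G) (H.addSubgroupOf G).toSubgroup ⟨?_⟩ ?_
    (AddMonoidHom.toMultiplicative sh) sh_surj)
  · rw [AddSubgroup.index_toSubgroup]
    exact hfi.index_ne_zero
  · intro f hf
    let f' : H →+ H := AddMonoidHom.toMultiplicative.symm
      (e.symm.toMonoidHom.comp (f.comp e.toMonoidHom))
    have h1 : Function.Surjective f' := e.symm.surjective.comp (hf.comp e.surjective)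
    have h2 : Function.Injective (e.symm ∘ f ∘ e) := hopf f' h1
    have h3 : Function.Injective (f ∘ e) := Function.Injective.of_comp h2
    exact Function.Injective.of_comp_right h3 e.surjective

end Pool.Agent.S01482
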