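import Pool.Statements.S01517
import Pool.Agent.H3.IsaA

set_option autoImplicit false
open Pool Pool.MP_55ae8f_al

namespace Pool.Agent.S01517
open Pool.Agent.H3.Isa

attribute [local irreducible] L

lemma el_add (p : ℕ × ℕ × ℕ) (s t : ZMod 3 × ZMod 3 × ZMod 3) :
    el p (s + t) = el p s + el p t := by
  simp only [el, Prod.fst_add, Prod.snd_add, add_smul]; abel

lemma el_neg (p : ℕ × ℕ × ℕ) (s : ZMod 3 × ZMod 3 × ZMod 3) : el p (-s) = -el p s := by
  simp only [el, Prod.fst_neg, Prod.snd_neg, neg_smul]; abel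

lemma el_zero (p : ℕ × ℕ × ℕ) : el p 0 = 0 := by simp [el]

lemma B_el (p : ℕ × ℕ × ℕ) (s t : ZMod 3 × ZMod 3 × ZMod 3) :
    B (el p s) (el p t) = (s.1 * t.2.1 - s.2.1 * t.1) * B (dec p.1) (dec p.2.1)
      + (s.1 * t.2.2 - s.2.2 * t.1) * B (dec p.1) (dec p.2.2)
      + (s.2.1 * t.2.2 - s.2.2 * t.2.1) * B (dec p.2.1) (dec p.2.2) := by
  simp only [B, el, Pi.add_apply, Pi.smul_apply, smul_eq_mul]; ring

lemma dec_one : dec 1 = e := by decide

def sub (p : ℕ × ℕ × ℕ) (h : good p) : Subgroup G where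
  carrier := {g | ∃ t, el p t = g.v}
  one_mem' := ⟨0, el_zero p⟩
  inv_mem' := by
    rintro g ⟨t, ht⟩
    exact ⟨-t, by rw [el_neg, ht]; rfl⟩
  mul_mem' := by
    rintro g g' ⟨s, hs⟩ ⟨t, ht⟩
    rcases h with h | ⟨h1, h2, h3⟩
    · refine ⟨s + t + (B g.v g'.v, 0, 0), ?_⟩
      rw [el_add, el_add, hs, ht, mul_v]
      simp [el, h, dec_one]
    · refine ⟨s + t, ?_⟩
      rw [el_add, mul_v, ← hs, ← ht, B_el, h1, h2, h3]; simp

def H (p : ℕ × ℕ × ℕ) : Subgroup G := if h : good p then sub p h else ⊥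

lemma mem_H {p : ℕ × ℕ × ℕ} (hp : p ∈ L) (g : G) : g ∈ H p ↔ ∃ t, el p t = g.v := by
  unfold H; rw [dif_pos (L_good p hp)]; rfl

def D : Finset ((ℕ × ℕ × ℕ) × (ZMod 3 × ZMod 3 × ZMod 3)) := L.toFinset ×ˢ (Finset.univ.erase 0)

lemma card_D : D.card ≤ 19682 := by
  have h0 : D.card = L.toFinset.card *
      ((Finset.univ : Finset (ZMod 3 × ZMod 3 × ZMod 3)).erase 0).card := Finset.card_product _ _
  have h1 : L.toFinset.card ≤ L.length := List.toFinset_card_le L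
  have h2 : ((Finset.univ : Finset (ZMod 3 × ZMod 3 × ZMod 3)).erase 0).card = 26 := by
    rw [Finset.card_erase_of_mem (Finset.mem_univ _)]; simp
  rw [L_len] at h1
  rw [h0, h2]; omega

lemma card_V : (Finset.univ.erase (0 : V)).card = 19682 := by
  rw [Finset.card_erase_of_mem (Finset.mem_univ _)]; simp

lemma sub_img : Finset.univ.erase (0 : V) ⊆ D.image (fun q => el q.1 q.2) := by
  intro x hx
  obtain ⟨p, hp, t, ht⟩ := cover x
  refine Finset.mem_image.2 ⟨(p, t), ?_, ht⟩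
  have : t ≠ 0 := by
    rintro rfl
    rw [el_zero] at ht
    simp [← ht] at hx
  simp [D, hp, this]

lemma img_eq : Finset.univ.erase (0 : V) = D.image (fun q => el q.1 q.2) :=
  Finset.eq_of_subset_of_card_le sub_img
    ((Finset.card_image_le.trans card_D).trans card_V.ge)

lemma injD : Set.InjOn (fun q : (ℕ × ℕ × ℕ) × (ZMod 3 × ZMod 3 × ZMod 3) => el q.1 q.2) D := by
  apply Finset.injOn_of_card_image_eq
  apply le_antisymm Finset.card_image_le
  rw [← img_eq, card_V]; exact card_D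

lemma el_ne {p : ℕ × ℕ × ℕ} (hp : p ∈ L) {t : ZMod 3 × ZMod 3 × ZMod 3} (ht : t ≠ 0) :
    el p t ≠ 0 := by
  have : el p t ∈ Finset.univ.erase (0 : V) := by
    rw [img_eq]; exact Finset.mem_image.2 ⟨(p, t), by simp [D, hp, ht], rfl⟩
  simpa using this

lemma card_H {p : ℕ × ℕ × ℕ} (hp : p ∈ L) : Nat.card (H p) = 27 := by
  have : Nat.card (ZMod 3 × ZMod 3 × ZMod 3) = 27 := by simp
  rw [← this]
  symm
  refine Nat.card_eq_of_bijective (fun t => ⟨⟨el p t⟩, (mem_H hp _).2 ⟨t, rfl⟩⟩) ⟨?_, ?_⟩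
  · intro s t hst
    have h : el p s = el p t := congrArg (fun x : H p => x.1.v) hst
    by_contra hne
    apply el_ne hp (sub_ne_zero.2 hne)
    rw [sub_eq_add_neg, el_add, el_neg, h]; simp
  · rintro ⟨g, hg⟩
    obtain ⟨t, ht⟩ := (mem_H hp g).1 hg
    exact ⟨t, Subtype.ext (G.ext ht)⟩

lemma one_mem_L : ((1, 3, 9) : ℕ × ℕ × ℕ) ∈ L := by unfold L; exact List.mem_cons_self

/-- There is a finite group with a family of nontrivial proper subgroups, all of the same order, such that each non-identity element lies in exactly one of them, and at least one of these subgroups is non-abelian. -/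
theorem result :
    ∃ (G : Type) (_ : Group G) (_ : Finite G) (P : Finset (Subgroup G)),
      (∀ H ∈ P, H ≠ ⊥ ∧ H ≠ ⊤) ∧
      (∀ g : G, g ≠ 1 → ∃! H : Subgroup G, H ∈ P ∧ g ∈ H) ∧
      (∀ H ∈ P, ∀ K ∈ P, Nat.card H = Nat.card K) ∧
      (∃ H ∈ P, ∃ x ∈ H, ∃ y ∈ H, x * y ≠ y * x) := by
  classical
  have hP : ∀ K ∈ L.toFinset.image H, ∃ p ∈ L, H p = K := by
    intro K hK
    obtain ⟨p, hp, h⟩ := Finset.mem_image.1 hK
    exact ⟨p, List.mem_toFinset.1 hp, h⟩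
  have hP' : ∀ p ∈ L, H p ∈ L.toFinset.image H := fun p hp =>
    Finset.mem_image.2 ⟨p, List.mem_toFinset.2 hp, rfl⟩
  refine ⟨G, inferInstance, inferInstance, L.toFinset.image H, ?_, ?_, ?_, ?_⟩
  · intro K hK
    obtain ⟨p, hp, rfl⟩ := hP K hK
    have hc := card_H hp
    constructor
    · intro h; rw [h] at hc; simp at hc
    · intro h
      rw [h, Subgroup.card_top, Nat.card_congr eqv] at hc
      simp at hc
  · intro g hg
    have hg0 : g.v ≠ 0 := fun h => hg (G.ext h)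
    obtain ⟨p, hp, t, ht⟩ := cover g.v
    refine ⟨H p, ⟨hP' p hp, (mem_H hp g).2 ⟨t, ht⟩⟩, ?_⟩
    rintro K ⟨hK, hgK⟩
    obtain ⟨q, hq, rfl⟩ := hP K hK
    obtain ⟨s, hs⟩ := (mem_H hq g).1 hgK
    have ht0 : t ≠ 0 := by rintro rfl; exact hg0 (ht.symm.trans (el_zero _))
    have hs0 : s ≠ 0 := by rintro rfl; exact hg0 (hs.symm.trans (el_zero _))
    have := injD (x₁ := (q, s)) (x₂ := (p, t)) (by simp [D, hq, hs0]) (by simp [D, hp, ht0])
      (hs.trans ht.symm)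
    rw [show q = p from (Prod.ext_iff.1 this).1]
  · intro K hK K' hK'
    obtain ⟨p, hp, rfl⟩ := hP K hK
    obtain ⟨q, hq, rfl⟩ := hP K' hK'
    rw [card_H hp, card_H hq]
  · refine ⟨H (1, 3, 9), hP' _ one_mem_L, ⟨el (1, 3, 9) (0, 1, 0)⟩, (mem_H one_mem_L _).2 ⟨_, rfl⟩,
      ⟨el (1, 3, 9) (0, 0, 1)⟩, (mem_H one_mem_L _).2 ⟨_, rfl⟩, ?_⟩
    intro h
    have h' := congrArg (fun x : G => x.v 0) h
    revert h'
    decide

end Pool.Agent.S01517
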