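import Pool.Statements.S01552
import Pool.Agent.H29.Precomp

set_option autoImplicit false
open scoped Pointwise
open Pool Pool.MP_5893d4_al

namespace Pool.Agent.S01552

theorem result :
    ¬ (∀ (G : Type) [Group G],
      Cardinal.mk G ≤ 2 ^ Cardinal.continuum →
      (∃ t : TopologicalSpace G,
        @IsTopologicalGroup G t _ ∧ @T2Space G t ∧
          ∀ U ∈ @nhds G t 1, ∃ F : Finset G, (F : Set G) * U = Set.univ) →
      ∀ ℰ : Set (Set G), ℰ.Countable →
        ∃ t : TopologicalSpace G,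
          (@IsTopologicalGroup G t _ ∧ @T2Space G t ∧
            ∀ U ∈ @nhds G t 1, ∃ F : Finset G, (F : Set G) * U = Set.univ) ∧
          ∀ E ∈ ℰ,
            @closure G t E =
              ⋂₀ {C : Set G | E ⊆ C ∧
                ∀ s : TopologicalSpace G,
                  (@IsTopologicalGroup G s _ ∧ @T2Space G s ∧
                    ∀ U ∈ @nhds G s 1, ∃ F : Finset G, (F : Set G) * U = Set.univ) →
                  @IsClosed G s C}) := by
  intro h
  obtain ⟨t0, g0, -⟩ := Pool.Agent.H29.Precomp.dense 0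
  obtain ⟨t, g, ht⟩ := h (Pool.Agent.H29.Precomp.H ℤ)
    (Cardinal.mk_le_aleph0.trans (Cardinal.aleph0_le_continuum.trans (Cardinal.cantor _).le))
    ⟨t0, g0⟩ _ (Set.countable_range Pool.Agent.H29.Precomp.E)
  refine Pool.Agent.H29.Precomp.no_top (t := t) g fun m => ?_
  rw [ht _ ⟨m, rfl⟩]
  obtain ⟨s, gs, hs⟩ := Pool.Agent.H29.Precomp.dense m
  exact fun C hC => (@IsClosed.closure_subset_iff _ s _ _ (hC.2 s gs)).2 hC.1 hs

end Pool.Agent.S01552
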