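import Pool.Statements.S01554
-- import your own Pool.Agent.* helpers here

set_option autoImplicit false
open Pool Pool.MP_58cc81_al

namespace Pool.Agent.S01554

abbrev K := ℕ × ℕ → UnitAddCircle

def V := ℕ →₀ ZMod 2

noncomputable instance : AddCommGroup V := inferInstanceAs (AddCommGroup (ℕ →₀ ZMod 2))
noncomputable instance : Module (ZMod 2) V := inferInstanceAs (Module (ZMod 2) (ℕ →₀ ZMod 2))
instance : TopologicalSpace V := ⊥
instance : DiscreteTopology V := ⟨rfl⟩
instance : Infinite V := inferInstanceAs (Infinite (ℕ →₀ ZMod 2))

def co (v : V) (i : ℕ) : ZMod 2 := (show ℕ →₀ ZMod 2 from v) i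

lemma co_add (v w : V) (i : ℕ) : co (v + w) i = co v i + co w i := rfl
lemma co_zero (i : ℕ) : co 0 i = 0 := rfl
lemma co_neg (v : V) (i : ℕ) : co (-v) i = - co v i := rfl
lemma co_ext (v w : V) (h : ∀ i, co v i = co w i) : v = w := Finsupp.ext h

noncomputable def be (v w : V) : K := fun p => ZMod.toAddCircle (co v p.1 * co w p.2)

lemma be_add_left (u v w : V) : be (u + v) w = be u w + be v w := by
  funext p; simp [be, co_add, add_mul]
lemma be_add_right (u v w : V) : be u (v + w) = be u v + be u w := by
  funext p; simp [be, co_add, mul_add]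
lemma be_zero_left (w : V) : be 0 w = 0 := by
  funext p; simp [be, co_zero]
lemma be_zero_right (w : V) : be w 0 = 0 := by
  funext p; simp [be, co_zero]
lemma be_neg_left (v w : V) : be (-v) w = - be v w := by
  funext p; simp only [be, co_neg, neg_mul, map_neg, Pi.neg_apply]
lemma be_neg_right (v w : V) : be v (-w) = - be v w := by
  funext p; simp only [be, co_neg, mul_neg, map_neg, Pi.neg_apply]

def GG := K × V

instance : TopologicalSpace GG := inferInstanceAs (TopologicalSpace (K × V))
instance : T2Space GG := inferInstanceAs (T2Space (K × V))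
instance : LocallyCompactSpace GG := inferInstanceAs (LocallyCompactSpace (K × V))

noncomputable instance : Mul GG := ⟨fun x y => (x.1 + y.1 + be x.2 y.2, x.2 + y.2)⟩
noncomputable instance : One GG := ⟨(0, 0)⟩
noncomputable instance : Inv GG := ⟨fun x => (-x.1 + be x.2 x.2, -x.2)⟩

lemma mul_1 (x y : GG) : (x * y).1 = x.1 + y.1 + be x.2 y.2 := rfl
lemma mul_2 (x y : GG) : (x * y).2 = x.2 + y.2 := rfl
lemma inv_1 (x : GG) : (x⁻¹).1 = -x.1 + be x.2 x.2 := rfl
lemma inv_2 (x : GG) : (x⁻¹).2 = -x.2 := rfl
lemma one_1 : (1 : GG).1 = 0 := rfl
lemma one_2 : (1 : GG).2 = 0 := rfl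

noncomputable instance : Group GG := Group.ofLeftAxioms
  (fun x y z => Prod.ext (by
      simp only [mul_1, mul_2, be_add_left, be_add_right]; abel)
    (by simp only [mul_2, add_assoc]))
  (fun x => Prod.ext (by simp only [mul_1, one_1, one_2, be_zero_left]; abel)
    (by simp only [mul_2, one_2, zero_add]))
  (fun x => Prod.ext (by simp only [mul_1, one_1, inv_1, inv_2, be_neg_left]; abel)
    (by simp only [mul_2, one_2, inv_2, neg_add_cancel]))

lemma c1 : Continuous (fun x : GG => x.1) := continuous_fst
lemma c2 : Continuous (fun x : GG => x.2) := continuous_snd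

lemma cgen {X Y : Type} [TopologicalSpace X] [TopologicalSpace Y] (F : V → V → Y) (f g : X → V)
    (hf : Continuous f) (hg : Continuous g) : Continuous (fun x => F (f x) (g x)) := by
  have h : Continuous (fun p : V × V => F p.1 p.2) := continuous_of_discreteTopology
  exact h.comp (hf.prodMk hg)

lemma cbe {X : Type} [TopologicalSpace X] (f g : X → V) (hf : Continuous f) (hg : Continuous g) :
    Continuous (fun x => be (f x) (g x)) := cgen be f g hf hg

lemma cadd {X : Type} [TopologicalSpace X] (f g : X → V) (hf : Continuous f) (hg : Continuous g) :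
    Continuous (fun x => f x + g x) := cgen (fun a b => a + b) f g hf hg

lemma cneg {X : Type} [TopologicalSpace X] (f : X → V) (hf : Continuous f) :
    Continuous (fun x => - f x) := cgen (fun a _ => - a) f f hf hf

lemma cpair {X : Type} [TopologicalSpace X] (f : X → GG) (h1 : Continuous (fun x => (f x).1))
    (h2 : Continuous (fun x => (f x).2)) : Continuous f :=
  Continuous.prodMk h1 h2

instance : IsTopologicalGroup GG where
  continuous_mul := by
    have a1 : Continuous (fun p : GG × GG => p.1.1) := c1.comp continuous_fst
    have a2 : Continuous (fun p : GG × GG => p.2.1) := c1.comp continuous_snd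
    have b1 : Continuous (fun p : GG × GG => p.1.2) := c2.comp continuous_fst
    have b2 : Continuous (fun p : GG × GG => p.2.2) := c2.comp continuous_snd
    apply cpair
    · simp only [mul_1]
      exact (a1.add a2).add (cbe _ _ b1 b2)
    · simp only [mul_2]
      exact cadd _ _ b1 b2
  continuous_inv := by
    apply cpair
    · simp only [inv_1]
      exact c1.neg.add (cbe _ _ c2 c2)
    · simp only [inv_2]
      exact cneg _ c2

lemma compact_of_fin (S : Set GG) (F : Set V) (hF : F.Finite) (h : ∀ x ∈ S, x.2 ∈ F) :
    IsCompact (closure S) := by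
  have h1 : IsCompact ((Set.univ : Set K) ×ˢ F) := isCompact_univ.prod hF.isCompact
  exact IsCompact.closure_of_subset (X := GG) h1 (fun x hx => ⟨trivial, h x hx⟩)

lemma z01 (a : ZMod 2) : a = 0 ∨ a = 1 := by
  revert a; decide

/-- The negation of the preceding statement: A Hausdorff locally compact group with small invariant neighbourhoods, whose abelian subgroups have compact closure and whose relatively compact subsets generate relatively compact subgroups, is totally disconnected or compact. -/
theorem result :
    ¬ (∀ (G : Type) [Group G] [TopologicalSpace G] [IsTopologicalGroup G]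
      [LocallyCompactSpace G] [T2Space G],
      (∀ U ∈ nhds (1 : G), ∃ V ∈ nhds (1 : G), V ⊆ U ∧
          ∀ g x : G, x ∈ V → g * x * g⁻¹ ∈ V) →
      (∀ H : Subgroup G, (∀ a ∈ H, ∀ b ∈ H, a * b = b * a) →
          IsCompact (closure (H : Set G))) →
      (∀ K : Set G, IsCompact (closure K) →
          IsCompact (closure ((Subgroup.closure K : Subgroup G) : Set G))) →
      TotallyDisconnectedSpace G ∨ CompactSpace G) := by
  intro h
  have key := h GG ?_ ?_ ?_
  · rcases key with hk | hk
    · let f : K → GG := fun a => (a, 0)
      have hc : Continuous f := Continuous.prodMk continuous_id continuous_const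
      have h1 : IsPreconnected (Set.range f) := isPreconnected_range hc
      have h2 := h1.subsingleton ⟨0, rfl⟩ ⟨fun _ => ZMod.toAddCircle (1 : ZMod 2), rfl⟩
      have h3 := congrFun (congrArg Prod.fst h2) (0, 0)
      have h4 : ZMod.toAddCircle (0 : ZMod 2) = ZMod.toAddCircle (1 : ZMod 2) := by
        rw [map_zero]; exact h3
      exact absurd (ZMod.toAddCircle_injective 2 h4) (by decide)
    · have h1 : IsCompact ((fun x : GG => x.2) '' Set.univ) := isCompact_univ.image c2
      have h2 := h1.finite_of_discrete
      have h3 : (fun x : GG => x.2) '' Set.univ = Set.univ := by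
        apply Set.eq_univ_of_forall
        intro v
        exact ⟨(0, v), trivial, rfl⟩
      rw [h3] at h2
      exact Set.infinite_univ h2
  · intro U hU
    refine ⟨U ∩ {x | x.2 = 0}, Filter.inter_mem hU ?_, Set.inter_subset_left, ?_⟩
    · exact ((isOpen_discrete ({0} : Set V)).preimage c2).mem_nhds rfl
    · intro g x hx
      have hx2 : x.2 = 0 := hx.2
      have : g * x * g⁻¹ = x := by
        apply Prod.ext
        · simp only [mul_1, mul_2, inv_1, inv_2, hx2, be_zero_right, add_zero, be_neg_right]; abel
        · simp only [mul_2, inv_2, hx2]; abel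
      rw [this]
      exact hx
  · intro H hH
    by_cases h0 : ∀ x ∈ H, x.2 = 0
    · exact compact_of_fin _ {0} (Set.finite_singleton _) h0
    · push Not at h0
      obtain ⟨x, hx, hx0⟩ := h0
      refine compact_of_fin _ {0, x.2} (Set.toFinite _) ?_
      intro y hy
      have hc := congrArg Prod.fst (hH x hx y hy)
      simp only [mul_1] at hc
      have hc2 : be x.2 y.2 = be y.2 x.2 := by
        rw [add_comm y.1 x.1] at hc
        exact add_left_cancel hc
      have hj : ∃ j, co x.2 j = 1 := by
        by_contra hn
        push Not at hn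
        exact hx0 (co_ext _ _ fun i => (z01 _).resolve_right (hn i))
      obtain ⟨j, hj⟩ := hj
      have hi : ∀ i, co x.2 i * co y.2 j = co y.2 i := by
        intro i
        have := ZMod.toAddCircle_injective 2 (congrFun hc2 (i, j))
        simpa [hj] using this
      rcases z01 (co y.2 j) with h1 | h1
      · left
        exact co_ext _ _ fun i => by rw [← hi i, h1, mul_zero, co_zero]
      · right
        exact co_ext _ _ fun i => by rw [← hi i, h1, mul_one]
  · intro S hS
    have hF : ((fun x : GG => x.2) '' closure S).Finite := (hS.image c2).finite_of_discrete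
    let W : Submodule (ZMod 2) V := Submodule.span (ZMod 2) ((fun x : GG => x.2) '' closure S)
    have : Module.Finite (ZMod 2) W := Module.Finite.span_of_finite _ hF
    have hW : Finite W := Module.finite_of_finite (ZMod 2)
    refine compact_of_fin _ (W : Set V) (Set.toFinite _) ?_
    intro x hx
    induction hx using Subgroup.closure_induction with
    | mem y hy => exact Submodule.subset_span ⟨y, subset_closure hy, rfl⟩
    | one => exact W.zero_mem
    | mul a b _ _ ha hb => exact W.add_mem ha hb
    | inv a _ ha => exact W.neg_mem ha

end Pool.Agent.S01554
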