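import Pool.Statements.S01558
-- import your own Pool.Agent.* helpers here

set_option autoImplicit false
open Pool Pool.MP_5939ed_al

namespace Pool.Agent.S01558

open Equiv

section dist
variable {X : Type} [Fintype X] [DecidableEq X]

def D (s t : Perm X) : ℕ := (Finset.univ.filter (fun i => s i ≠ t i)).card

theorem D_comm (s t : Perm X) : D s t = D t s := by
  unfold D; congr 1; ext i; simp [ne_comm]

theorem D_tri (s t u : Perm X) : D s u ≤ D s t + D t u := by
  unfold D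
  refine le_trans (Finset.card_le_card ?_) (Finset.card_union_le _ _)
  intro i
  simp only [Finset.mem_filter, Finset.mem_univ, true_and, Finset.mem_union]
  intro h
  by_contra hh
  push Not at hh
  exact h (hh.1.trans hh.2)

theorem D_left (r s t : Perm X) : D (r * s) (r * t) = D s t := by
  unfold D; congr 1; ext i; simp

theorem D_right (r s t : Perm X) : D (s * r) (t * r) = D s t := by
  unfold D
  apply Finset.card_bij (fun i _ => r i)
  · intro i hi
    have h2 := (Finset.mem_filter.1 hi).2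
    exact Finset.mem_filter.2 ⟨Finset.mem_univ _, h2⟩
  · intro i _ j _ h; exact r.injective h
  · intro j hj
    have h2 := (Finset.mem_filter.1 hj).2
    refine ⟨r⁻¹ j, Finset.mem_filter.2 ⟨Finset.mem_univ _, ?_⟩, by simp⟩
    simpa using h2

theorem D_mul (s t s' t' : Perm X) : D (s * t) (s' * t') ≤ D s s' + D t t' := by
  have := D_tri (s * t) (s' * t) (s' * t')
  rwa [D_right, D_left] at this

theorem D_inv (s s' : Perm X) : D s⁻¹ s'⁻¹ = D s s' := by
  rw [← D_left s, ← D_right s', D_comm]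
  simp

theorem D_congr {Y : Type} [Fintype Y] [DecidableEq Y] (e : X ≃ Y) (s t : Perm X) :
    D (e.permCongrHom s) (e.permCongrHom t) = D s t := by
  unfold D
  symm
  apply Finset.card_bij (fun i _ => e i)
  · intro i hi; simpa using hi
  · intro i _ j _ h; exact e.injective h
  · intro j hj; exact ⟨e.symm j, by simpa using hj, by simp⟩

end dist

def dd {G : Type} [Group G] (a b c : G) : G := (b * a * b⁻¹)⁻¹ * c * (b * a * b⁻¹)

theorem exact_comm {G : Type} [Group G] [Finite G] (a b c : G) (h1 : b⁻¹ * a * b = a ^ 2)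
    (h2 : a⁻¹ * c * a = c ^ 2) : c * dd a b c = dd a b c * c := by
  have hg : (b * a * b⁻¹) ^ 2 = a := by
    rw [conj_pow, ← h1]; group
  have hle : Subgroup.zpowers a ≤ Subgroup.zpowers (b * a * b⁻¹) := by
    rw [Subgroup.zpowers_le]
    exact ⟨2, by simpa using hg⟩
  have hord : orderOf (b * a * b⁻¹) = orderOf a := by
    have := (MulAut.conj b).orderOf_eq a
    simpa using this
  have heq : Subgroup.zpowers a = Subgroup.zpowers (b * a * b⁻¹) :=
    Subgroup.eq_of_le_of_card_ge hle (by rw [Nat.card_zpowers, Nat.card_zpowers, hord])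
  have hm : b * a * b⁻¹ ∈ Subgroup.zpowers a := by rw [heq]; exact Subgroup.mem_zpowers _
  obtain ⟨j, hj⟩ := (mem_powers_iff_mem_zpowers.2 hm : b * a * b⁻¹ ∈ Submonoid.powers a)
  have hp : ∀ j : ℕ, (a ^ j)⁻¹ * c * a ^ j = c ^ (2 ^ j) := by
    intro j
    induction j with
    | zero => simp
    | succ j ih =>
      have : (a ^ (j + 1))⁻¹ * c * a ^ (j + 1) = (a ^ j)⁻¹ * (a⁻¹ * c * a) * a ^ j := by group
      rw [this, h2, pow_succ' 2 j, mul_comm 2, pow_mul, ← ih]
      have := conj_pow (i := 2) (a := (a ^ j)⁻¹) (b := c)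
      simpa using this.symm
  have hj' : a ^ j = b * a * b⁻¹ := hj
  rw [dd, ← hj', hp]
  exact (Commute.pow_right (Commute.refl c) _)

theorem core {X : Type} [Fintype X] [DecidableEq X] (a b c a' b' c' : Perm X)
    (h1 : b'⁻¹ * a' * b' = a' ^ 2) (h2 : a'⁻¹ * c' * a' = c' ^ 2) :
    D (c * dd a b c) (dd a b c * c) ≤ 4 * D a a' + 8 * D b b' + 4 * D c c' := by
  have hg : D (b * a * b⁻¹) (b' * a' * b'⁻¹) ≤ D a a' + 2 * D b b' := by
    have e1 := D_mul (b * a) b⁻¹ (b' * a') b'⁻¹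
    have e2 := D_mul b a b' a'
    rw [D_inv] at e1
    omega
  have hd : D (dd a b c) (dd a' b' c') ≤ 2 * D a a' + 4 * D b b' + D c c' := by
    have e1 := D_mul ((b * a * b⁻¹)⁻¹ * c) (b * a * b⁻¹) ((b' * a' * b'⁻¹)⁻¹ * c') (b' * a' * b'⁻¹)
    have e2 := D_mul (b * a * b⁻¹)⁻¹ c (b' * a' * b'⁻¹)⁻¹ c'
    rw [D_inv] at e2
    unfold dd
    omega
  have e1 := D_mul c (dd a b c) c' (dd a' b' c')
  have e2 := D_mul (dd a b c) c (dd a' b' c') c'
  have e3 := D_tri (c * dd a b c) (c' * dd a' b' c') (dd a b c * c)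
  rw [exact_comm a' b' c' h1 h2] at e1 e3
  rw [D_comm (dd a' b' c' * c')] at e3
  omega

def g1 : Perm (Fin 4) := swap 0 1 * swap 1 2
def g2 : Perm (Fin 4) := swap 1 2 * swap 2 3

theorem pow2 {G : Type} [Group G] (g : G) (h : g ^ 3 = 1) (i : ℕ) :
    g ^ (2 ^ i) = g ∨ g ^ (2 ^ i) = g ^ 2 := by
  induction i with
  | zero => simp
  | succ i ih =>
    rw [pow_succ 2 i, pow_mul]
    rcases ih with ih | ih
    · rw [ih]; exact Or.inr rfl
    · rw [ih, ← pow_mul]
      left
      have : g ^ (2 * 2) = g ^ 3 * g := by rw [← pow_succ]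
      rw [this, h, one_mul]

theorem noncomm (i j : ℕ) (f : Fin 4) :
    (g1 ^ (2 ^ i)) ((g2 ^ (2 ^ j)) f) ≠ (g2 ^ (2 ^ j)) ((g1 ^ (2 ^ i)) f) := by
  rcases pow2 g1 (by decide) i with h1 | h1 <;> rcases pow2 g2 (by decide) j with h2 | h2 <;>
    rw [h1, h2] <;> revert f <;> decide

abbrev Y (m : ℕ) := ZMod (2 * m + 1) × Fin 4

theorem half (m : ℕ) : (2 : ZMod (2 * m + 1)) * ((m : ZMod (2 * m + 1)) + 1) = 1 := by
  have h : ((2 * m + 1 : ℕ) : ZMod (2 * m + 1)) = 0 := ZMod.natCast_self _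
  push_cast at h
  linear_combination h

def aX (m : ℕ) : Perm (Y m) :=
  ⟨fun p => (p.1 + 1, p.2), fun p => (p.1 - 1, p.2), fun p => by simp, fun p => by simp⟩

def bX (m : ℕ) : Perm (Y m) :=
  ⟨fun p => (((m : ZMod (2 * m + 1)) + 1) * p.1, p.2), fun p => (2 * p.1, p.2),
    fun p => by simp only [← mul_assoc, half, one_mul],
    fun p => by simp only [← mul_assoc, mul_comm _ (2 : ZMod (2 * m + 1)), half, one_mul]⟩

def beta (m : ℕ) (x : ZMod (2 * m + 1)) : Perm (Fin 4) :=
  (if x.val ≤ m then g1 else g2) ^ (2 ^ x.val)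

def cX (m : ℕ) : Perm (Y m) := Equiv.prodCongrRight (beta m)

theorem rel1 (m : ℕ) : (bX m)⁻¹ * aX m * bX m = aX m ^ 2 := by
  ext p
  · change 2 * (((m : ZMod (2 * m + 1)) + 1) * p.1 + 1) = p.1 + 1 + 1
    linear_combination p.1 * half m
  · rfl

theorem rel2 (m : ℕ) : D ((aX m)⁻¹ * cX m * aX m) (cX m ^ 2) ≤ 8 := by
  unfold D
  have hsub : (Finset.univ.filter (fun p => ((aX m)⁻¹ * cX m * aX m) p ≠ (cX m ^ 2) p)) ⊆
      ({((m : ℕ) : ZMod (2 * m + 1)), ((2 * m : ℕ) : ZMod (2 * m + 1))} : Finset _) ×ˢ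
        (Finset.univ : Finset (Fin 4)) := by
    intro p hp
    rw [Finset.mem_filter] at hp
    by_contra hn
    apply hp.2
    simp only [Finset.mem_product, Finset.mem_insert, Finset.mem_singleton, Finset.mem_univ,
      and_true, not_or] at hn
    have h1 : p.1.val ≠ m := fun h => hn.1 (by rw [← ZMod.natCast_zmod_val p.1, h])
    have h2 : p.1.val ≠ 2 * m := fun h => hn.2 (by rw [← ZMod.natCast_zmod_val p.1, h])
    have h3 := ZMod.val_lt p.1
    have h4 : (p.1 + 1).val = p.1.val + 1 := by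
      have : p.1 + 1 = ((p.1.val + 1 : ℕ) : ZMod (2 * m + 1)) := by simp
      rw [this, ZMod.val_cast_of_lt (by omega)]
    have h5 : beta m (p.1 + 1) = beta m p.1 * beta m p.1 := by
      rw [← sq, beta, beta, h4, pow_succ 2, pow_mul]
      congr 2
      split_ifs <;> first | rfl | omega
    change (p.1 + 1 - 1, beta m (p.1 + 1) p.2) = (p.1, beta m p.1 (beta m p.1 p.2))
    rw [h5]; simp
  refine le_trans (Finset.card_le_card hsub) ?_
  rw [Finset.card_product]
  have := Finset.card_le_two (a := ((m : ℕ) : ZMod (2 * m + 1)))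
    (b := ((2 * m : ℕ) : ZMod (2 * m + 1)))
  simp only [Finset.card_univ, Fintype.card_fin]
  omega

theorem dd_apply (m : ℕ) (p : Y m) :
    dd (aX m) (bX m) (cX m) p = (p.1, beta m (p.1 + ((m : ZMod (2 * m + 1)) + 1)) p.2) := by
  have hg : ∀ q : Y m, (bX m * aX m * (bX m)⁻¹) q = (q.1 + ((m : ZMod (2 * m + 1)) + 1), q.2) := by
    intro q
    ext
    · change ((m : ZMod (2 * m + 1)) + 1) * (2 * q.1 + 1) = q.1 + ((m : ZMod (2 * m + 1)) + 1)
      linear_combination q.1 * half m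
    · rfl
  rw [dd, Perm.mul_apply, Perm.mul_apply, Perm.inv_eq_iff_eq, hg, hg]
  rfl

theorem far (m : ℕ) :
    4 * m ≤ D (cX m * dd (aX m) (bX m) (cX m)) (dd (aX m) (bX m) (cX m) * cX m) := by
  unfold D
  have hc : (((Finset.range m).image (Nat.cast : ℕ → ZMod (2 * m + 1))) ×ˢ
      (Finset.univ : Finset (Fin 4))).card = 4 * m := by
    rw [Finset.card_product, Finset.card_image_of_injOn]
    · simp [mul_comm]
    · intro i hi j hj h
      have hi' : i < m := by simpa using hi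
      have hj' : j < m := by simpa using hj
      have := congrArg ZMod.val h
      rwa [ZMod.val_cast_of_lt (by omega), ZMod.val_cast_of_lt (by omega)] at this
  rw [← hc]
  apply Finset.card_le_card
  rintro ⟨x, f⟩ hp
  simp only [Finset.mem_product, Finset.mem_image, Finset.mem_range, Finset.mem_univ,
    and_true] at hp
  obtain ⟨i, hi, rfl⟩ := hp
  simp only [Finset.mem_filter, Finset.mem_univ, true_and, Perm.mul_apply, dd_apply]
  have h1 : ((i : ℕ) : ZMod (2 * m + 1)).val = i := ZMod.val_cast_of_lt (by omega)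
  have h2 : (((i : ℕ) : ZMod (2 * m + 1)) + ((m : ZMod (2 * m + 1)) + 1)).val = i + m + 1 := by
    have : ((i : ℕ) : ZMod (2 * m + 1)) + ((m : ZMod (2 * m + 1)) + 1) =
        ((i + m + 1 : ℕ) : ZMod (2 * m + 1)) := by push_cast; ring
    rw [this, ZMod.val_cast_of_lt (by omega)]
  have b1 : beta m (i : ZMod (2 * m + 1)) = g1 ^ (2 ^ i) := by
    rw [beta, h1, if_pos (by omega)]
  have b2 : beta m (((i : ℕ) : ZMod (2 * m + 1)) + ((m : ZMod (2 * m + 1)) + 1)) =
      g2 ^ (2 ^ (i + m + 1)) := by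
    rw [beta, h2, if_neg (by omega)]
  intro h
  have h3 := congrArg Prod.snd h
  change beta m _ (beta m _ f) = beta m _ (beta m _ f) at h3
  change beta m (i : ZMod (2 * m + 1)) (beta m ((i : ZMod (2 * m + 1)) + _) f) =
    beta m ((i : ZMod (2 * m + 1)) + _) (beta m (i : ZMod (2 * m + 1)) f) at h3
  rw [b1, b2] at h3
  exact noncomm _ _ _ h3


/-- The negation of the preceding statement: For every n≥2, the group ⟨a,b,c ∣ b⁻¹ab=aⁿ, a⁻¹ca=cⁿ⟩ (two BS(1,n) amalgamated via x₁=t₂) is stable in permutations: almost-solutions in Sym(N), in normalized Hamming distance, are uniformly close to exact solutions. -/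
theorem result :
    ¬ (∀ n : ℕ, 2 ≤ n → ∀ ε : ℝ, 0 < ε → ∃ δ : ℝ, 0 < δ ∧
      ∀ N : ℕ, ∀ a b c : Equiv.Perm (Fin N),
        ((Finset.univ.filter (fun i => (b⁻¹ * a * b) i ≠ (a ^ n) i)).card : ℝ) / N < δ →
        ((Finset.univ.filter (fun i => (a⁻¹ * c * a) i ≠ (c ^ n) i)).card : ℝ) / N < δ →
        ∃ a' b' c' : Equiv.Perm (Fin N),
          b'⁻¹ * a' * b' = a' ^ n ∧ a'⁻¹ * c' * a' = c' ^ n ∧
          ((Finset.univ.filter (fun i => a i ≠ a' i)).card : ℝ) / N < ε ∧
          ((Finset.univ.filter (fun i => b i ≠ b' i)).card : ℝ) / N < ε ∧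
          ((Finset.univ.filter (fun i => c i ≠ c' i)).card : ℝ) / N < ε) := by
  intro h
  obtain ⟨δ, hδ, h⟩ := h 2 le_rfl (1 / 100) (by norm_num)
  obtain ⟨m, hm⟩ := exists_nat_gt (1 / δ + 1)
  have hm1 : (1 : ℝ) < m := by
    have : 0 < 1 / δ := by positivity
    linarith
  have hcard : Fintype.card (Y m) = (2 * m + 1) * 4 := by simp [ZMod.card]
  let e : Y m ≃ Fin ((2 * m + 1) * 4) := Fintype.equivFinOfCardEq hcard
  let φ := e.permCongrHom
  have hN : (0 : ℝ) < (((2 * m + 1) * 4 : ℕ) : ℝ) := by positivity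
  obtain ⟨a', b', c', h1, h2, ha, hb, hc⟩ := h ((2 * m + 1) * 4) (φ (aX m)) (φ (bX m)) (φ (cX m))
    (by
      rw [← map_inv, ← map_mul, ← map_mul, rel1, map_pow]
      simpa using hδ)
    (by
      rw [← map_inv, ← map_mul, ← map_mul, ← map_pow]
      change ((D (φ _) (φ _) : ℕ) : ℝ) / _ < δ
      rw [D_congr, div_lt_iff₀ hN]
      have h8 : ((D ((aX m)⁻¹ * cX m * aX m) (cX m ^ 2) : ℕ) : ℝ) ≤ 8 := by
        exact_mod_cast rel2 m
      have h9 : 1 < δ * m := by
        have : 1 / δ < m := by linarith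
        rw [div_lt_iff₀ hδ] at this
        linarith
      push_cast
      nlinarith)
  have hcore := core (φ (aX m)) (φ (bX m)) (φ (cX m)) a' b' c' h1 h2
  have hdd : dd (φ (aX m)) (φ (bX m)) (φ (cX m)) = φ (dd (aX m) (bX m) (cX m)) := by
    simp only [dd, map_mul, map_inv]
  rw [hdd, ← map_mul, ← map_mul, D_congr] at hcore
  have hfar := (far m).trans hcore
  change ((D _ _ : ℕ) : ℝ) / _ < _ at ha hb hc
  rw [div_lt_iff₀ hN] at ha hb hc
  have hfar' : (4 * m : ℝ) ≤ 4 * (D (φ (aX m)) a' : ℝ) + 8 * (D (φ (bX m)) b' : ℝ) +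
      4 * (D (φ (cX m)) c' : ℝ) := by exact_mod_cast hfar
  push_cast at ha hb hc
  linarith

end Pool.Agent.S01558
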