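import Pool.Statements.S01567
import Pool.Agent.H3.CubeB

set_option autoImplicit false
open Pool Pool.MP_5a0037_al Finset Pool.Agent.H3.Cube

namespace Pool.Agent.S01567

/-- There is g : ℕ → ℕ such that every loop whose multiplication group is nilpotent of class ≤ c and which is supernilpotent (some higher commutator [1,…,1] vanishes) has supernilpotence class ≤ g(c). -/
theorem result :
    ∃ g : ℕ → ℕ, ∀ (Q : Type) [MulOneClass Q],
      (∀ a : Q, Function.Bijective (fun x : Q => a * x)) →
      (∀ a : Q, Function.Bijective (fun x : Q => x * a)) →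
      ∀ c n : ℕ,
      upperCentralSeries (↥(Subgroup.closure
          {σ : Equiv.Perm Q | ∃ a : Q, ((⇑σ) = fun x : Q => a * x) ∨ ((⇑σ) = fun x : Q => x * a)})) c = ⊤ →
      (∀ (m : ℕ) (p : (Fin n → Fin m → Q) → (Fin m → Q) → Q),
        (∀ S : Set ((Fin n → Fin m → Q) → (Fin m → Q) → Q),
          (∀ (i : Fin n) (j : Fin m), (fun (x : Fin n → Fin m → Q) (_ : Fin m → Q) => x i j) ∈ S) →
          (∀ j : Fin m, (fun (_ : Fin n → Fin m → Q) (y : Fin m → Q) => y j) ∈ S) →
          (∀ q : Q, (fun (_ : Fin n → Fin m → Q) (_ : Fin m → Q) => q) ∈ S) →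
          (∀ f ∈ S, ∀ h ∈ S, (fun (x : Fin n → Fin m → Q) (y : Fin m → Q) => f x y * h x y) ∈ S) →
          (∀ f ∈ S, ∀ h ∈ S, ∀ r : (Fin n → Fin m → Q) → (Fin m → Q) → Q,
            (∀ x y, f x y * r x y = h x y) → r ∈ S) →
          (∀ f ∈ S, ∀ h ∈ S, ∀ r : (Fin n → Fin m → Q) → (Fin m → Q) → Q,
            (∀ x y, r x y * f x y = h x y) → r ∈ S) →
          p ∈ S) →
        ∀ (a b : Fin n → Fin m → Q) (u v : Fin m → Q),
          (∀ s : Fin n → Bool, s ≠ (fun _ => true) →
            p (fun i => if s i then b i else a i) u = p (fun i => if s i then b i else a i) v) →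
          p b u = p b v) →
      (∀ (m : ℕ) (p : (Fin (g c) → Fin m → Q) → (Fin m → Q) → Q),
        (∀ S : Set ((Fin (g c) → Fin m → Q) → (Fin m → Q) → Q),
          (∀ (i : Fin (g c)) (j : Fin m), (fun (x : Fin (g c) → Fin m → Q) (_ : Fin m → Q) => x i j) ∈ S) →
          (∀ j : Fin m, (fun (_ : Fin (g c) → Fin m → Q) (y : Fin m → Q) => y j) ∈ S) →
          (∀ q : Q, (fun (_ : Fin (g c) → Fin m → Q) (_ : Fin m → Q) => q) ∈ S) →
          (∀ f ∈ S, ∀ h ∈ S, (fun (x : Fin (g c) → Fin m → Q) (y : Fin m → Q) => f x y * h x y) ∈ S) →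
          (∀ f ∈ S, ∀ h ∈ S, ∀ r : (Fin (g c) → Fin m → Q) → (Fin m → Q) → Q,
            (∀ x y, f x y * r x y = h x y) → r ∈ S) →
          (∀ f ∈ S, ∀ h ∈ S, ∀ r : (Fin (g c) → Fin m → Q) → (Fin m → Q) → Q,
            (∀ x y, r x y * f x y = h x y) → r ∈ S) →
          p ∈ S) →
        ∀ (a b : Fin (g c) → Fin m → Q) (u v : Fin m → Q),
          (∀ s : Fin (g c) → Bool, s ≠ (fun _ => true) →
            p (fun i => if s i then b i else a i) u = p (fun i => if s i then b i else a i) v) →
          p b u = p b v) := by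
  refine ⟨fun c => 4 ^ c, fun Q _ hl hr c n hc _ m p hp a b u v h => ?_⟩
  set G := Subgroup.closure
    {σ : Equiv.Perm Q | ∃ a : Q, ((⇑σ) = fun x : Q => a * x) ∨ ((⇑σ) = fun x : Q => x * a)}
  let ld : Q → Q → Q := fun x y => (Equiv.ofBijective _ (hl x)).symm y
  let rd : Q → Q → Q := fun x y => (Equiv.ofBijective _ (hr y)).symm x
  have l1 : ∀ x y, x * ld x y = y := fun x y => (Equiv.ofBijective _ (hl x)).apply_symm_apply y
  have r1 : ∀ x y, rd x y * y = x := fun x y => (Equiv.ofBijective _ (hr y)).apply_symm_apply x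
  have data : LoopData G (1 : Q) (· * ·) ld rd :=
    ⟨fun x => ⟨⟨Equiv.ofBijective _ (hl x), Subgroup.subset_closure ⟨x, Or.inl rfl⟩⟩, fun _ => rfl⟩,
     fun x => ⟨⟨Equiv.ofBijective _ (hr x), Subgroup.subset_closure ⟨x, Or.inr rfl⟩⟩, fun _ => rfl⟩,
     mul_one, l1, r1⟩
  have two : ∀ (i : Option (Fin (4 ^ c))) (x y : Q),
      E G (1 : Q) c (fun T : Finset (Option (Fin (4 ^ c))) => if i ∈ T then y else x) := by
    intro i x y
    obtain ⟨g, hg⟩ := data.trans x
    obtain ⟨k, hk⟩ := data.trans y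
    refine ⟨chi (k * g⁻¹) {i} ∅ * fun _ => g, (P.chi (fFF c) _ _ _ _ (by simp)
      (by simp [FF, jf, Gam])).mul (fFF c) (P.const (by simp [FF, jf, Gam])), fun S => ?_⟩
    by_cases hi : i ∈ S <;> simp [chi, hi, ← hg, ← hk]
  let X : Finset (Option (Fin (4 ^ c))) → Fin (4 ^ c) → Fin m → Q :=
    fun T i => if some i ∈ T then b i else a i
  have key : ∀ w : Fin m → Q,
      E G (1 : Q) c (fun T => p (X T) (if none ∈ T then w else u)) := fun w => by
    refine hp {f | E G (1 : Q) c (fun T => f (X T) (if none ∈ T then w else u))}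
      (fun i j => ?_) (fun j => ?_) (fun q => ?_) (fun f hf k hk => (closed data c _ _ _ hf hk).1)
      (fun f hf k hk r e => ?_) (fun f hf k hk r e => ?_)
    · have := two (some i) (a i j) (b i j)
      simpa only [X, ite_apply, Set.mem_setOf_eq] using this
    · have := two none (u j) (w j)
      simpa only [ite_apply, Set.mem_setOf_eq] using this
    · simpa using two none q q
    · have : r = fun x y => ld (f x y) (k x y) := by
        funext x y
        exact (hl (f x y)).1 ((e x y).trans (l1 _ _).symm)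
      rw [this]
      exact (closed data c _ _ _ hf hk).2.1
    · have : r = fun x y => rd (k x y) (f x y) := by
        funext x y
        exact (hr (f x y)).1 ((e x y).trans (r1 _ _).symm)
      rw [this]
      exact (closed data c _ _ _ hk hf).2.2
  have one : ∀ x, ld x x = 1 := fun x => (hl x).1 ((l1 x x).trans (mul_one x).symm)
  obtain ⟨g, h1, h2⟩ := (closed data c _ _ _ (key u) (key v)).2.1
  have h3 := h1.complete (H := MulAction.stabilizer G (1 : Q)) (by
    have a1 : c ≤ jf (4 ^ c + 1) := le_jf (Nat.lt_succ_self _)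
    have : Group.IsNilpotent G := ⟨⟨c, hc⟩⟩
    have a2 : Gam G c = ⊥ := Subgroup.lowerCentralSeries_eq_bot_iff_upperCentralSeries_eq_top.2 hc
    simp [FF, min_eq_right a1, a2]) (fun S hS => by
    rw [MulAction.mem_stabilizer_iff, ← h2]
    by_cases hn : none ∈ S
    · have := h (fun i => decide (some i ∈ S)) (fun e => hS.2 (by
        rintro (_ | i) -
        · exact hn
        · simpa using congrFun e i))
      simp only [decide_eq_true_eq] at this
      simp only [hn, if_true, ite_self]
      rw [show p (X S) u = p (X S) v from this, one]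
    · simp only [hn, if_false, one])
  rw [MulAction.mem_stabilizer_iff, ← h2] at h3
  have e : X univ = b := by funext i; simp [X]
  simp only [e, mem_univ, if_true] at h3
  rw [← l1 (p b u) (p b v), h3, mul_one]

end Pool.Agent.S01567
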