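import Pool.Statements.S01599
import Pool.Agent.H15.AIM

set_option autoImplicit false
open Pool Pool.MP_5cdc7f_al

namespace Pool.Agent.S01599

theorem result :
    ∃ (n : ℕ) (mul : Fin n → Fin n → Fin n) (e : Fin n),
      Odd n ∧
      (∀ x, mul e x = x ∧ mul x e = x) ∧
      (∀ a b, ∃! x, mul a x = b) ∧
      (∀ a b, ∃! y, mul y a = b) ∧
      (∀ σ ∈ Subgroup.closure
          {π : Equiv.Perm (Fin n) | ∃ a, (∀ x, π x = mul a x) ∨ (∀ x, π x = mul x a)},
        ∀ τ ∈ Subgroup.closure
          {π : Equiv.Perm (Fin n) | ∃ a, (∀ x, π x = mul a x) ∨ (∀ x, π x = mul x a)},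
          σ e = e → τ e = e → σ * τ = τ * σ) ∧
      ¬ ((∀ x y, ∃ c,
            (∀ u v, mul c u = mul u c ∧
              mul (mul c u) v = mul c (mul u v) ∧
              mul (mul u c) v = mul u (mul c v) ∧
              mul (mul u v) c = mul u (mul v c)) ∧
            mul x y = mul (mul y x) c) ∧
         (∀ x y w, ∃ c,
            (∀ u v, mul c u = mul u c ∧
              mul (mul c u) v = mul c (mul u v) ∧
              mul (mul u c) v = mul u (mul c v) ∧
              mul (mul u v) c = mul u (mul v c)) ∧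
            mul (mul x y) w = mul (mul x (mul y w)) c)) := by
  open Pool.Agent.H15.AIM in
  let E := Fintype.equivFin Q
  have hb : ∀ a b, ∃! x, E (mul (E.symm a) (E.symm x)) = b := fun a b => by
    obtain ⟨x, h1, h2⟩ := bij (E.symm a) (E.symm b)
    exact ⟨E x, by simp [h1], fun y hy => by
      rw [← h2 (E.symm y) (E.eq_symm_apply.2 hy), E.apply_symm_apply]⟩
  refine ⟨_, fun a b => E (mul (E.symm a) (E.symm b)), E o, odd,
    fun x => by simp [one, comm o], hb, fun a b => by simpa only [comm _ (E.symm a)] using hb a b,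
    stab _ _ (fun x => by simp [one]) (fun x y => by rw [comm]) hb
      (fun x y z => E (φ (E.symm x) (E.symm y) (E.symm z))) (fun x y z => by simp [h1])
      (fun x y u v z => by simp only [Equiv.symm_apply_apply]; rw [h2]), fun h => ?_⟩
  obtain ⟨c, h3, h4⟩ := h.2 (E { o with a1 := 1 }) (E { o with a2 := 1 }) (E { o with a3 := 1 })
  refine nc (E.symm c) (fun u v => ?_) (by simpa using h4)
  simpa using (h3 (E u) (E v)).2.1

end Pool.Agent.S01599
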