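import Pool.Statements.S01635
import Pool.Agent.H30.Prodisc
-- import your own Pool.Agent.* helpers here

set_option autoImplicit false
open Pool Pool.MP_5ee74f_al

namespace Pool.Agent.S01635

/-- Every complete Hausdorff abelian group with a basis of open subgroups at 0, generated by a compact set, and with no nontrivial compact subgroups, is discrete and isomorphic to Z^n for some n. -/
theorem result :
    ∀ (G : Type) [AddCommGroup G] [UniformSpace G] [IsUniformAddGroup G]
      [T2Space G] [CompleteSpace G],
      (∀ s ∈ nhds (0 : G), ∃ U : AddSubgroup G, IsOpen (U : Set G) ∧ (U : Set G) ⊆ s) →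
      (∃ K : Set G, IsCompact K ∧ AddSubgroup.closure K = ⊤) →
      (∀ H : AddSubgroup G, IsCompact (H : Set G) → H = ⊥) →
      DiscreteTopology G ∧ ∃ n : ℕ, Nonempty (G ≃+ (Fin n → ℤ)) := by
  intro G _ _ _ _ _ hb hK hc
  obtain ⟨K, hK, hg⟩ := hK
  exact Pool.Agent.H30.Prodisc.main hb hK hg hc

end Pool.Agent.S01635
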