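import Pool.Statements.S01712
import Pool.Agent.H30.Semilin
-- import your own Pool.Agent.* helpers here

set_option autoImplicit false
open Pool Pool.MP_63a718_al

namespace Pool.Agent.S01712

/-- The negation of the preceding statement: For every group G and every right-invariant, upward-directed partial order on G whose positive cone is a chain, there is a right-invariant total order on G that contains it. -/
theorem result :
    ¬ (∀ (G : Type) [Group G] (r : G → G → Prop),
      (∀ a : G, r a a) →
      (∀ a b : G, r a b → r b a → a = b) →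
      (∀ a b c : G, r a b → r b c → r a c) →
      (∀ a b c : G, r a b → r (a * c) (b * c)) →
      (∀ a b : G, ∃ c : G, r a c ∧ r b c) →
      (∀ a b : G, r 1 a → r 1 b → r a b ∨ r b a) →
      ∃ s : G → G → Prop,
        (∀ a : G, s a a) ∧
        (∀ a b : G, s a b → s b a → a = b) ∧
        (∀ a b c : G, s a b → s b c → s a c) ∧
        (∀ a b : G, s a b ∨ s b a) ∧
        (∀ a b c : G, s a b → s (a * c) (b * c)) ∧
        (∀ a b : G, r a b → s a b)) := by
  intro H
  open Pool.Agent.H30.Semilin in
  obtain ⟨s, -, anti, tr, tot, ri, ex⟩ := H G (fun a b => P (b * a⁻¹))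
    (fun a => by simpa using P_one)
    (fun a b h1 h2 => by
      have := P_anti h1 (by simpa using h2)
      exact (mul_inv_eq_one.mp this).symm)
    (fun a b c h1 h2 => by simpa [mul_assoc] using P_mul h2 h1)
    (fun a b c h => by simpa [mul_assoc] using h)
    (fun a b => by
      obtain ⟨i, hi⟩ := P_ev a⁻¹
      obtain ⟨j, hj⟩ := P_ev b⁻¹
      exact ⟨⟨0, max i j, 0, 0⟩, hi _ (le_max_left _ _), hj _ (le_max_right _ _)⟩)
    (fun a b h1 h2 => P_chain (by simpa using h1) (by simpa using h2))
  open Pool.Agent.H30.Semilin in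
  have hP : ∀ g, P g → s 1 g := fun g hg => ex 1 g (by simpa using hg)
  have hmul : ∀ g h, s 1 g → s 1 h → s 1 (g * h) := fun g h hg hh =>
    tr _ _ _ hh (by simpa using ri _ _ h hg)
  have hone : ∀ g h, s 1 g → s 1 h → g * h = 1 → g = 1 := fun g h hg hh e => by
    have e' : h * g = 1 := mul_eq_one_comm.mp e
    have := ri _ _ g hh
    rw [e', one_mul] at this
    exact anti _ _ this hg
  open Pool.Agent.H30.Semilin in
  rcases tot 1 ew with h | h
  · open Pool.Agent.H30.Semilin in
    refine ew_ne (hone ew (ea * (ew * (ew⁻¹ * ew⁻¹ * ea))) h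
      (hmul _ _ (hP _ P_ea) (hmul _ _ h (hP _ P_2))) ?_)
    open Pool.Agent.H30.Semilin in
    simpa only [mul_assoc] using rel1
  · open Pool.Agent.H30.Semilin in
    have h' : s 1 ew⁻¹ := by simpa using ri _ _ ew⁻¹ h
    open Pool.Agent.H30.Semilin in
    refine ew_ne (inv_eq_one.mp (hone ew⁻¹ (ea * (ew⁻¹ * (ew * ew * ea))) h'
      (hmul _ _ (hP _ P_ea) (hmul _ _ h' (hP _ P_1))) ?_))
    open Pool.Agent.H30.Semilin in
    simpa only [mul_assoc] using rel2

end Pool.Agent.S01712
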