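import Pool.Statements.S01748
-- import your own Pool.Agent.* helpers here

set_option autoImplicit false
open scoped Pointwise
open Pool Pool.MP_674247_al

namespace Pool.Agent.S01748

section Words

variable {X : Type} [Group X]

lemma inv_mem_pow {S : Set X} (hS : ∀ x ∈ S, x⁻¹ ∈ S) (n : ℕ) : ∀ x ∈ S ^ n, x⁻¹ ∈ S ^ n := by
  induction n with
  | zero => simp
  | succ n ih =>
    intro x hx
    rw [pow_succ] at hx
    obtain ⟨a, ha, b, hb, rfl⟩ := hx
    rw [pow_succ', mul_inv_rev]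
    exact Set.mul_mem_mul (hS b hb) (ih a ha)

lemma exists_pow {S : Set X} (hc : Subgroup.closure S = ⊤) (hS : ∀ x ∈ S, x⁻¹ ∈ S) (x : X) :
    ∃ n, x ∈ S ^ n := by
  have hx : x ∈ Subgroup.closure S := hc ▸ Subgroup.mem_top x
  induction hx using Subgroup.closure_induction with
  | mem x hx => exact ⟨1, by simpa using hx⟩
  | one => exact ⟨0, by simp⟩
  | mul x y _ _ hx hy =>
    obtain ⟨n, hn⟩ := hx
    obtain ⟨m, hm⟩ := hy
    exact ⟨n + m, by rw [pow_add]; exact Set.mul_mem_mul hn hm⟩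
  | inv x _ hx =>
    obtain ⟨n, hn⟩ := hx
    exact ⟨n, inv_mem_pow hS n x hn⟩

lemma finite_pow {S : Set X} (hc : Subgroup.closure S = ⊤) (h1 : (1 : X) ∈ S)
    (hS : ∀ x ∈ S, x⁻¹ ∈ S) {T : Set X} (hT : T.Finite) : ∃ C, ∀ x ∈ T, x ∈ S ^ C := by
  choose n hn using exists_pow hc hS
  obtain ⟨C, hC⟩ := (hT.image n).bddAbove
  exact ⟨C, fun x hx => Set.pow_subset_pow_right h1 (hC ⟨x, hx, rfl⟩) (hn x)⟩

lemma lip {Y : Type} [Group Y] {S : Set X} {R : Set Y} (F : X → Y) (C : ℕ)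
    (h : ∀ x, ∀ s ∈ S, (F x)⁻¹ * F (x * s) ∈ R ^ C) (n : ℕ) :
    ∀ x y, x⁻¹ * y ∈ S ^ n → (F x)⁻¹ * F y ∈ R ^ (C * n) := by
  induction n with
  | zero =>
    intro x y hxy
    have : x = y := by simpa [inv_mul_eq_one] using hxy
    simp [this]
  | succ n ih =>
    intro x y hxy
    rw [pow_succ] at hxy
    obtain ⟨a, ha, b, hb, hab⟩ := hxy
    have hy : y = x * a * b := by
      rw [mul_assoc]; simp only at hab; rw [hab]; simp
    have h1 := ih x (x * a) (by simpa using ha)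
    have h2 := h (x * a) b hb
    rw [mul_add, mul_one, pow_add, hy]
    have := Set.mul_mem_mul h1 h2
    simpa [mul_assoc] using this

lemma hom_bound {S : Set X} (φ : X → ℤ) (hφ : ∀ a b, φ (a * b) = φ a + φ b) (M : ℤ)
    (hM : ∀ s ∈ S, φ s ≤ M) (n : ℕ) : ∀ x ∈ S ^ n, φ x ≤ M * n := by
  induction n with
  | zero =>
    intro x hx
    have h1 : φ 1 = 0 := by have := hφ 1 1; simp at this; exact this
    simp at hx
    simp [hx, h1]
  | succ n ih =>
    intro x hx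
    rw [pow_succ] at hx
    obtain ⟨a, ha, b, hb, rfl⟩ := hx
    have := ih a ha
    have := hM b hb
    simp only [hφ]
    push_cast
    linarith

end Words

lemma mcshane {Z E : Type} [Group Z] [Group E] (ι : Z →* E) (hcen : ι.range ≤ Subgroup.center E)
    (SZ : Finset Z) (SE : Set E) (hc : Subgroup.closure SE = ⊤) (hS : ∀ x ∈ SE, x⁻¹ ∈ SE)
    (C : ℕ) (hC : ∀ (z : Z) (n : ℕ), ι z ∈ SE ^ n → z ∈ (SZ : Set Z) ^ (C * n + C))
    (φ : Z → ℤ) (hφ : ∀ a b, φ (a * b) = φ a + φ b) :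
    ∃ (h : E → ℤ) (L : ℤ), (∀ e w, h (e * ι w) = h e + φ w) ∧
      ∀ e, ∀ s ∈ SE, |h (e * s) - h e| ≤ L := by
  classical
  have h1 : φ 1 = 0 := by have := hφ 1 1; simp at this; exact this
  have hinv : ∀ a, φ a⁻¹ = -φ a := fun a => by
    have := hφ a a⁻¹
    rw [mul_inv_cancel, h1] at this
    linarith
  obtain ⟨M0, hM0⟩ := (SZ.finite_toSet.image φ).bddAbove
  let M : ℤ := max M0 0
  have hM : ∀ s ∈ (SZ : Set Z), φ s ≤ M := fun s hs => (hM0 ⟨s, hs, rfl⟩).trans (le_max_left _ _)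
  have hM0' : 0 ≤ M := le_max_right _ _
  let ℓ : E → ℕ := fun e => Nat.find (exists_pow hc hS e)
  have hℓ : ∀ e, e ∈ SE ^ ℓ e := fun e => Nat.find_spec (exists_pow hc hS e)
  have hℓ' : ∀ e n, e ∈ SE ^ n → ℓ e ≤ n := fun e n hn => Nat.find_min' _ hn
  have hsub : ∀ a b, ℓ (a * b) ≤ ℓ a + ℓ b := fun a b =>
    hℓ' _ _ (by rw [pow_add]; exact Set.mul_mem_mul (hℓ a) (hℓ b))
  let L : ℤ := M * C
  have hL : 0 ≤ L := by positivity
  have hb : ∀ z, φ z ≤ L * ℓ (ι z) + L := by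
    intro z
    have := hom_bound φ hφ M hM _ z (hC z _ (hℓ _))
    push_cast at this
    simp only [L]
    linarith
  let F : E → Z → ℤ := fun e z => φ z + L * ℓ ((ι z)⁻¹ * e)
  have hex : ∀ e, ∃ m : ℤ, (∃ z, F e z = m) ∧ ∀ m', (∃ z, F e z = m') → m ≤ m' := by
    intro e
    refine Int.exists_least_of_bdd ⟨-L * ℓ e⁻¹ - L, ?_⟩ ⟨_, 1, rfl⟩
    rintro _ ⟨z, rfl⟩
    have h2 := hb z⁻¹
    have h3 := hsub ((ι z)⁻¹ * e) e⁻¹
    rw [mul_inv_cancel_right] at h3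
    rw [hinv, map_inv] at h2
    have h4 : (ℓ (ι z)⁻¹ : ℤ) ≤ ℓ ((ι z)⁻¹ * e) + ℓ e⁻¹ := by exact_mod_cast h3
    simp only [F]
    nlinarith
  choose h hh hh' using hex
  have hcomm : ∀ z e, ι z * e = e * ι z := fun z e =>
    (Subgroup.mem_center_iff.1 (hcen ⟨z, rfl⟩) e).symm
  have e1 : ∀ e w, h (e * ι w) ≤ h e + φ w := by
    intro e w
    obtain ⟨z, hz⟩ := hh e
    refine hh' _ _ ⟨z * w, ?_⟩
    rw [← hz]
    simp only [F, hφ, map_mul, mul_inv_rev]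
    have : (ι w)⁻¹ * (ι z)⁻¹ * (e * ι w) = (ι z)⁻¹ * e := by
      rw [← hcomm w e, ← map_inv, ← map_inv, hcomm w⁻¹, map_inv, map_inv]
      group
    rw [this]; ring
  have e2 : ∀ e, ∀ s ∈ SE, h (e * s) ≤ h e + L := by
    intro e s hs
    obtain ⟨z, hz⟩ := hh e
    refine (hh' _ _ ⟨z, rfl⟩).trans ?_
    rw [← hz]
    have h3 := hsub ((ι z)⁻¹ * e) s
    have h4 := hℓ' s 1 (by simpa using hs)
    have h5 : (ℓ ((ι z)⁻¹ * (e * s)) : ℤ) ≤ ℓ ((ι z)⁻¹ * e) + 1 := by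
      rw [← mul_assoc]; exact_mod_cast (by omega)
    simp only [F]
    nlinarith
  refine ⟨h, L, fun e w => le_antisymm (e1 e w) ?_, fun e s hs => abs_le.2 ⟨?_, ?_⟩⟩
  · have := e1 (e * ι w) w⁻¹
    rw [map_inv, mul_inv_cancel_right, hinv] at this
    linarith
  · have := e2 (e * s) s⁻¹ (hS s hs)
    rw [mul_inv_cancel_right] at this
    linarith
  · have := e2 e s hs
    linarith

lemma coords (Z : Type) [Group Z] (hcomm : ∀ a b : Z, a * b = b * a) (hfg : Group.FG Z) :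
    ∃ (n : ℕ) (φ : Z → Fin n → ℤ), (∀ a b, φ (a * b) = φ a + φ b) ∧ Function.Surjective φ ∧
      ∀ L : ℤ, {z | ∀ i, |φ z i| ≤ L}.Finite := by
  let _ : CommGroup Z := { mul_comm := hcomm }
  have : AddGroup.FG (Additive Z) := inferInstance
  obtain ⟨n, κ, hκ, p, hp, e, ⟨ψ⟩⟩ := AddCommGroup.equiv_free_prod_directSum_zmod (Additive Z)
  refine ⟨n, fun z => (ψ (Additive.ofMul z)).1, fun a b => ?_, fun v => ?_, fun L => ?_⟩
  · beta_reduce
    rw [ofMul_mul, map_add]; rfl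
  · refine ⟨Additive.toMul (ψ.symm (Finsupp.equivFunOnFinite.symm v, 0)), ?_⟩
    simp
  · have : ∀ i, NeZero (p i ^ e i) := fun i => ⟨pow_ne_zero _ (hp i).ne_zero⟩
    have : Finite (DirectSum κ fun i => ZMod (p i ^ e i)) :=
      Finite.of_injective _ DFunLike.coe_injective
    let g : Z → (Fin n → ℤ) × (DirectSum κ fun i => ZMod (p i ^ e i)) :=
      fun z => ((ψ (Additive.ofMul z)).1, (ψ (Additive.ofMul z)).2)
    have hg : Function.Injective g := by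
      intro a b hab
      simp only [g, Prod.mk.injEq] at hab
      exact Additive.ofMul.injective (ψ.injective (Prod.ext (DFunLike.coe_injective hab.1) hab.2))
    refine Set.Finite.subset (((Set.Finite.pi' (fun _ : Fin n => Set.finite_Icc (-L) L)).prod
      Set.finite_univ).preimage hg.injOn) ?_
    intro z hz
    exact ⟨fun i => abs_le.1 (hz i), trivial⟩


/-- The negation of the preceding statement: There is a central extension 1→Z→E→G→1 of finitely generated groups in which Z is undistorted in E (word metrics), but no quasi-isometry Z×G→E commutes with the projections to G. -/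
theorem result :
    ¬ (∃ (Z E G : Type) (_ : Group Z) (_ : Group E) (_ : Group G) (ι : Z →* E) (π : E →* G),
    Function.Injective ι ∧ Function.Surjective π ∧ ι.range = π.ker ∧
    ι.range ≤ Subgroup.center E ∧
    ∃ (SZ : Finset Z) (SE : Finset E) (SP : Finset (Z × G)),
      Subgroup.closure (SZ : Set Z) = ⊤ ∧ (1 : Z) ∈ SZ ∧ (∀ x ∈ SZ, x⁻¹ ∈ SZ) ∧
      Subgroup.closure (SE : Set E) = ⊤ ∧ (1 : E) ∈ SE ∧ (∀ x ∈ SE, x⁻¹ ∈ SE) ∧
      Subgroup.closure (SP : Set (Z × G)) = ⊤ ∧ (1 : Z × G) ∈ SP ∧ (∀ x ∈ SP, x⁻¹ ∈ SP) ∧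
      (∃ C : ℕ, ∀ (z : Z) (n : ℕ),
          ι z ∈ (SE : Set E) ^ n → z ∈ (SZ : Set Z) ^ (C * n + C)) ∧
      ¬ ∃ (f : Z × G → E) (C : ℕ), (∀ p : Z × G, π (f p) = p.2) ∧
          (∀ (p q : Z × G) (n : ℕ), p⁻¹ * q ∈ (SP : Set (Z × G)) ^ n →
              (f p)⁻¹ * f q ∈ (SE : Set E) ^ (C * n + C)) ∧
          (∀ (p q : Z × G) (n : ℕ), (f p)⁻¹ * f q ∈ (SE : Set E) ^ n →
              p⁻¹ * q ∈ (SP : Set (Z × G)) ^ (C * n + C)) ∧
          (∀ e : E, ∃ p : Z × G, (f p)⁻¹ * e ∈ (SE : Set E) ^ C)) := by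
  classical
  rintro ⟨Z, E, G, _, _, _, ι, π, hι, hπ, hker, hcen, SZ, SE, SP, hZ, -, -, hE, hE1, hEi,
    hP, hP1, hPi, ⟨C, hC⟩, hno⟩
  apply hno
  have hcomm : ∀ z e, ι z * e = e * ι z := fun z e =>
    (Subgroup.mem_center_iff.1 (hcen ⟨z, rfl⟩) e).symm
  have hπι : ∀ z, π (ι z) = 1 := fun z => by
    have : ι z ∈ π.ker := hker ▸ ⟨z, rfl⟩
    exact this
  have hlift : ∀ e e', π e = π e' → ∃ w, e' = e * ι w := by
    intro e e' h
    have : e⁻¹ * e' ∈ ι.range := by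
      rw [hker, MonoidHom.mem_ker, map_mul, map_inv, h, inv_mul_cancel]
    obtain ⟨w, hw⟩ := this
    exact ⟨w, by rw [hw]; simp⟩
  obtain ⟨n, φ, hφ, hφs, hφf⟩ := coords Z
    (fun a b => hι (by rw [map_mul, map_mul, hcomm])) ⟨⟨SZ, hZ⟩⟩
  have hh := fun i : Fin n => mcshane ι hcen SZ SE hE hEi C hC (fun z => φ z i)
    (fun a b => by rw [hφ]; rfl)
  choose h L hh1 hh2 using hh
  obtain ⟨L0, hL0⟩ := (Set.finite_range L).bddAbove
  have hσ : ∀ g, ∃ e, π e = g ∧ ∀ i, h i e = 0 := by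
    intro g
    obtain ⟨e, rfl⟩ := hπ g
    obtain ⟨w, hw⟩ := hφs (fun i => -h i e)
    exact ⟨e * ι w, by simp [hπι], fun i => by rw [hh1, hw]; simp⟩
  choose σ hσ1 hσ2 using hσ
  have hH := fun e => hlift (σ (π e)) e (hσ1 _)
  choose H hH using hH
  let f : Z × G → E := fun p => σ p.2 * ι p.1
  let Φ : E → Z × G := fun e => (H e, π e)
  have hπf : ∀ p, π (f p) = p.2 := fun p => by simp [f, hσ1, hπι]
  have hfΦ : ∀ e, f (Φ e) = e := fun e => (hH e).symm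
  have hΦf : ∀ p, Φ (f p) = p := by
    intro p
    refine Prod.ext ?_ (hπf p)
    have := hH (f p)
    rw [hπf] at this
    exact (hι (mul_left_cancel this)).symm
  have hφH : ∀ e i, φ (H e) i = h i e := by
    intro e i
    have := hh1 i (σ (π e)) (H e)
    rw [← hH e, hσ2] at this
    linarith
  have hHm : ∀ e w, H (e * ι w) = H e * w := by
    intro e w
    have h1 := hH (e * ι w)
    rw [map_mul, hπι, mul_one] at h1
    nth_rewrite 1 [hH e] at h1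
    rw [mul_assoc, ← map_mul] at h1
    exact (hι (mul_left_cancel h1)).symm
  let T : Set Z := {z | ∀ i, |φ z i| ≤ L0}
  have hT : ∀ e, ∀ s ∈ (SE : Set E), (H e)⁻¹ * H (e * s) ∈ T := by
    intro e s hs i
    have h1 := congrFun (hφ (H e) ((H e)⁻¹ * H (e * s))) i
    rw [mul_inv_cancel_left, Pi.add_apply, hφH, hφH] at h1
    have h2 := (hh2 i e s hs).trans (hL0 ⟨i, rfl⟩)
    rwa [h1, add_sub_cancel_left] at h2
  obtain ⟨C1, hC1⟩ := finite_pow hP hP1 hPi ((hφf L0).prod (SE.finite_toSet.image π))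
  have hΦ : ∀ e e' m, e⁻¹ * e' ∈ (SE : Set E) ^ m →
      (Φ e)⁻¹ * Φ e' ∈ (SP : Set (Z × G)) ^ (C1 * m) := by
    intro e e' m
    refine lip Φ C1 (fun x s hs => hC1 _ ⟨hT x s hs, s, hs, ?_⟩) m e e'
    simp [Φ]
  obtain ⟨C2, hC2⟩ := finite_pow hE hE1 hEi (SP.finite_toSet.image (fun p => σ p.2))
  have hfin : ((SP : Set (Z × G)) ^ (C1 * C2)).Finite := by
    rw [← Finset.coe_pow]; exact Finset.finite_toSet _
  obtain ⟨C3, hC3⟩ := finite_pow hE hE1 hEi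
    ((SP.finite_toSet.prod hfin).image (fun r => σ r.1.2 * ι (r.2.1⁻¹ * r.1.1)))
  have hf : ∀ p q m, p⁻¹ * q ∈ (SP : Set (Z × G)) ^ m →
      (f p)⁻¹ * f q ∈ (SE : Set E) ^ (C3 * m) := by
    intro p q m
    refine lip f C3 (fun x s hs => hC3 _ ?_) m p q
    have h1 := hΦ (f x) (f x * σ s.2) C2 (by simpa using hC2 _ ⟨s, hs, rfl⟩)
    refine ⟨(s, _), ⟨hs, h1⟩, ?_⟩
    obtain ⟨w, hw⟩ := hlift (f x * σ s.2) (f (x * s)) (by simp [hπf, hσ1])
    have h2 : H (f (x * s)) = H (f x * σ s.2) * w := by rw [hw, hHm]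
    have h3 : H (f (x * s)) = x.1 * s.1 := congrArg Prod.fst (hΦf (x * s))
    have h4 : H (f x) = x.1 := congrArg Prod.fst (hΦf x)
    have h5 : w = (H (f x * σ s.2))⁻¹ * (x.1 * s.1) := by rw [← h3, h2]; simp
    rw [hw, h5]
    simp [Φ, h4, mul_assoc]
  refine ⟨f, max C1 C3, hπf, fun p q m hm => ?_, fun p q m hm => ?_, fun e => ⟨Φ e, ?_⟩⟩
  · refine Set.pow_subset_pow_right hE1 ?_ (hf p q m hm)
    have := Nat.mul_le_mul_right m (le_max_right C1 C3)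
    omega
  · have := hΦ _ _ m hm
    rw [hΦf, hΦf] at this
    refine Set.pow_subset_pow_right hP1 ?_ this
    have := Nat.mul_le_mul_right m (le_max_left C1 C3)
    omega
  · rw [hfΦ, inv_mul_cancel]
    exact Set.one_mem_pow hE1

end Pool.Agent.S01748
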