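import Pool.Statements.S01782

set_option autoImplicit false
open Pool Pool.MP_698b85_al

namespace Pool.Agent.S01782

@[ext] structure U where
  s : ZMod 4
  r : ZMod 4
  b1 : ZMod 4
  b2 : ZMod 4
  b3 : ZMod 4
  c1 : ZMod 4
  c2 : ZMod 4
  d : ZMod 4

instance : Mul U := ⟨fun x y => ⟨x.s + y.s, x.r + y.r, x.b1 + y.b1 + x.s * y.s,
  x.b2 + y.b2 + x.s * y.r, x.b3 + y.b3 + x.r * y.r, x.c1 + y.c1 + x.s * y.b2 + x.b1 * y.r,
  x.c2 + y.c2 + x.s * y.b3 + x.b2 * y.r, x.d + y.d + x.s * y.c2 + x.b1 * y.b3 + x.c1 * y.r⟩⟩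

instance : One U := ⟨⟨0, 0, 0, 0, 0, 0, 0, 0⟩⟩

instance : Inv U := ⟨fun x => ⟨-x.s, -x.r, -x.b1 + x.s * x.s, -x.b2 + x.s * x.r,
  -x.b3 + x.r * x.r, -x.c1 + x.s * x.b2 + x.b1 * x.r - x.s * x.s * x.r,
  -x.c2 + x.s * x.b3 + x.b2 * x.r - x.s * x.r * x.r,
  -x.d + x.s * x.c2 + x.b1 * x.b3 + x.c1 * x.r - x.s * x.s * x.b3 - x.s * x.b2 * x.r
    - x.b1 * x.r * x.r + x.s * x.s * x.r * x.r⟩⟩

theorem mul_def (x y : U) : x * y = ⟨x.s + y.s, x.r + y.r, x.b1 + y.b1 + x.s * y.s,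
  x.b2 + y.b2 + x.s * y.r, x.b3 + y.b3 + x.r * y.r, x.c1 + y.c1 + x.s * y.b2 + x.b1 * y.r,
  x.c2 + y.c2 + x.s * y.b3 + x.b2 * y.r, x.d + y.d + x.s * y.c2 + x.b1 * y.b3 + x.c1 * y.r⟩ := rfl

theorem one_def : (1 : U) = ⟨0, 0, 0, 0, 0, 0, 0, 0⟩ := rfl

theorem inv_def (x : U) : x⁻¹ = ⟨-x.s, -x.r, -x.b1 + x.s * x.s, -x.b2 + x.s * x.r,
  -x.b3 + x.r * x.r, -x.c1 + x.s * x.b2 + x.b1 * x.r - x.s * x.s * x.r,
  -x.c2 + x.s * x.b3 + x.b2 * x.r - x.s * x.r * x.r,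
  -x.d + x.s * x.c2 + x.b1 * x.b3 + x.c1 * x.r - x.s * x.s * x.b3 - x.s * x.b2 * x.r
    - x.b1 * x.r * x.r + x.s * x.s * x.r * x.r⟩ := rfl

instance : Group U := Group.ofLeftAxioms
  (fun x y z => by ext <;> simp only [mul_def] <;> ring)
  (fun x => by ext <;> simp [mul_def, one_def])
  (fun x => by ext <;> simp only [mul_def, one_def, inv_def] <;> ring)

theorem eng (x y : U) : (fun z => z⁻¹ * y⁻¹ * z * y)^[3] x =
    ⟨0, 0, 0, 0, 0, 0, 0, -2 * y.s * y.r * (x.s * y.r - y.s * x.r)⟩ := by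
  have h1 : ∀ z : U, z.s = 0 → z.r = 0 → z.b1 = 0 → z.b2 = 0 → z.b3 = 0 →
      z⁻¹ * y⁻¹ * z * y = ⟨0, 0, 0, 0, 0, 0, 0, z.c1 * y.r - y.s * z.c2⟩ := by
    rintro ⟨s, r, b1, b2, b3, c1, c2, d⟩ rfl rfl rfl rfl rfl
    ext <;> simp only [mul_def, inv_def] <;> ring
  have h2 : ∀ z : U, z.s = 0 → z.r = 0 → z.b1 = 0 → z.b3 = 0 → ∃ d,
      z⁻¹ * y⁻¹ * z * y = ⟨0, 0, 0, 0, 0, -y.s * z.b2, z.b2 * y.r, d⟩ := by
    rintro ⟨s, r, b1, b2, b3, c1, c2, d⟩ rfl rfl rfl rfl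
    refine ⟨_, U.ext ?_ ?_ ?_ ?_ ?_ ?_ ?_ rfl⟩ <;> simp only [mul_def, inv_def] <;> ring
  have h3 : ∃ c1 c2 d, x⁻¹ * y⁻¹ * x * y = ⟨0, 0, 0, x.s * y.r - y.s * x.r, 0, c1, c2, d⟩ := by
    refine ⟨_, _, _, U.ext ?_ ?_ ?_ ?_ ?_ rfl rfl rfl⟩ <;> simp only [mul_def, inv_def] <;> ring
  obtain ⟨c1, c2, d, h3⟩ := h3
  obtain ⟨d', h4⟩ := h2 ⟨0, 0, 0, x.s * y.r - y.s * x.r, 0, c1, c2, d⟩ rfl rfl rfl rfl
  simp only [Function.iterate_succ, Function.iterate_zero, Function.comp_apply, id]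
  rw [h3, h4, h1 _ rfl rfl rfl rfl rfl]
  ext <;> simp only [] <;> ring

def par (x : U) : ZMod 4 := 2 * (x.r - x.s)

theorem par_mul (x y : U) : par (x * y) = par x + par y := by simp only [par, mul_def]; ring
theorem par_inv (x : U) : par x⁻¹ = -par x := by simp only [par, inv_def]; ring

def G : Subgroup (ℕ → U) where
  carrier := {g | ∀ i, par (g i) = par (g 0)}
  mul_mem' ha hb i := by simp only [Pi.mul_apply, par_mul]; rw [ha i, hb i]
  one_mem' _ := rfl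
  inv_mem' ha i := by simp only [Pi.inv_apply, par_inv]; rw [ha i]

theorem ev (x y : G) (i k : ℕ) : ((fun z => z⁻¹ * y⁻¹ * z * y)^[k] x).1 i =
    (fun z => z⁻¹ * (y.1 i)⁻¹ * z * y.1 i)^[k] (x.1 i) := by
  induction k with
  | zero => rfl
  | succ k ih => rw [Function.iterate_succ_apply', Function.iterate_succ_apply', ← ih]; rfl

theorem good (x y : G) (h : par (x.1 0) = par (y.1 0)) :
    (fun z => z⁻¹ * y⁻¹ * z * y)^[3] x = 1 := by
  refine Subtype.ext (funext fun i => ?_)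
  have h1 : par (x.1 i) = par (y.1 i) := by rw [x.2 i, y.2 i, h]
  have h2 : ∀ a b c d : ZMod 4, 2 * (b - a) = 2 * (d - c) → -2 * c * d * (a * d - c * b) = 0 := by
    decide
  rw [ev, eng, h2 _ _ _ _ h1]
  rfl

def a : U := ⟨0, 1, 0, 0, 0, 0, 0, 0⟩
def h : U := ⟨1, 1, 0, 0, 0, 0, 0, 0⟩

def g (j : ℕ) : G := ⟨fun i => if i = j then a * h else a, fun i => by
  have : par (a * h) = par a := by decide
  dsimp only
  split_ifs <;> simp [this]⟩

/-- The negation of the preceding statement: For every k ≥ 1 and group G: if every infinite subset has distinct x,y with [x,_k y]=[y,_k x]=1, then every infinite subset has distinct x,y generating a k-Engel subgroup. -/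
theorem result :
    ¬ (∀ k : ℕ, 1 ≤ k → ∀ (G : Type) [Group G],
      (∀ S : Set G, S.Infinite →
        ∃ x ∈ S, ∃ y ∈ S, x ≠ y ∧
          (fun z => z⁻¹ * y⁻¹ * z * y)^[k] x = 1 ∧
          (fun z => z⁻¹ * x⁻¹ * z * x)^[k] y = 1) →
      (∀ S : Set G, S.Infinite →
        ∃ x ∈ S, ∃ y ∈ S, x ≠ y ∧
          ∀ a ∈ Subgroup.closure ({x, y} : Set G),
            ∀ b ∈ Subgroup.closure ({x, y} : Set G),
              (fun z => z⁻¹ * b⁻¹ * z * b)^[k] a = 1)) := by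
  intro H
  have H1 := H 3 (by norm_num) G (fun S hS => by
    obtain ⟨x, hx, y, hy, h1, h2⟩ := hS.exists_ne_map_eq_of_mapsTo
      (f := fun x : G => par (x.1 0)) (t := Set.univ) (fun _ _ => trivial) Set.finite_univ
    exact ⟨x, hx, y, hy, h1, good x y h2, good y x h2.symm⟩)
  have hinj : Function.Injective g := fun i j hij => by
    by_contra hne
    have := congrArg U.s (congrFun (congrArg Subtype.val hij) i)
    simp only [g, if_true, if_neg hne] at this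
    exact absurd this (by decide)
  obtain ⟨_, ⟨i, rfl⟩, _, ⟨j, rfl⟩, hne, H2⟩ := H1 _ (Set.infinite_range_of_injective hinj)
  have hij : i ≠ j := fun e => hne (by rw [e])
  have hx : g i ∈ Subgroup.closure ({g i, g j} : Set G) := Subgroup.subset_closure (by simp)
  have hy : g j ∈ Subgroup.closure ({g i, g j} : Set G) := Subgroup.subset_closure (by simp)
  have H3 := congrFun (congrArg Subtype.val (H2 _ hy _ (mul_mem (inv_mem hy) hx))) i
  have e1 : (g j).1 i = a := if_neg hij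
  have e2 : ((g j)⁻¹ * g i).1 i = h := by
    show ((g j).1 i)⁻¹ * (g i).1 i = h
    rw [e1, show (g i).1 i = a * h from if_pos rfl, inv_mul_cancel_left]
  rw [ev, eng, e1, e2] at H3
  have H4 : -2 * h.s * h.r * (a.s * h.r - h.s * a.r) = 0 := congrArg U.d H3
  exact absurd H4 (by decide)

end Pool.Agent.S01782
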