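import Pool.Statements.S01827
import Pool.Agent.H18.Met.Main
-- import your own Pool.Agent.* helpers here

set_option autoImplicit false
open Pool Pool.MP_6d5e8e_al

namespace Pool.Agent.S01827

/-- There is a finitely generated group whose second derived subgroup is trivial, together with a nonzero module over its integral group ring that is generated by one element and is isomorphic, as a module, to its own direct sum with itself. -/
theorem result :
    ∃ (G : Type) (_ : Group G), Group.FG G ∧ derivedSeries G 2 = ⊥ ∧
      ∃ (V : Type) (_ : AddCommGroup V) (_ : Module (MonoidAlgebra ℤ G) V),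
        Nontrivial V ∧
        (∃ v : V, Submodule.span (MonoidAlgebra ℤ G) {v} = ⊤) ∧
        Nonempty (V ≃ₗ[MonoidAlgebra ℤ G] (V × V)) := by
  exact ⟨Pool.Agent.H18.Met.G, inferInstance, Pool.Agent.H18.Met.G_fg, Pool.Agent.H18.Met.G_met,
    Pool.Agent.H18.Met.main⟩

end Pool.Agent.S01827
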