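import Pool.Statements.S01862
import Pool.Agent.H2.OD2

set_option autoImplicit false
open Pool Pool.MP_701827_al

namespace Pool.Agent.S01862

/-- The negation of the preceding statement: For every division ring K with a Hausdorff ring topology τ, there is a coarser Hausdorff ring topology on K in which inversion is continuous at every nonzero element. -/
theorem result :
    ¬ (∀ (K : Type) [DivisionRing K] (τ : TopologicalSpace K),
      @IsTopologicalRing K τ _ → @T2Space K τ →
      ∃ σ : TopologicalSpace K, τ ≤ σ ∧ @IsTopologicalRing K σ _ ∧ @T2Space K σ ∧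
        ∀ x : K, x ≠ 0 → @ContinuousAt K K σ σ (fun y => y⁻¹) x) := by
  intro h
  obtain ⟨K, _, τ, h1, h2, h3⟩ := Pool.Agent.H2.OD.main
  exact h3 (h K τ h1 h2)

end Pool.Agent.S01862
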