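import Pool.Statements.S01864
import Pool.Agent.H29.RAlt2

set_option autoImplicit false
open Pool Pool.MP_702bfb_al

namespace Pool.Agent.S01864

theorem result :
    ¬ (∀ (R : Type) [NonUnitalNonAssocRing R],
      (∀ x y : R, (x * y) * y = x * (y * y)) →
      (∃ s : Finset R, NonUnitalSubring.closure (s : Set R) = ⊤) →
      (∃ n : ℕ, ∀ x : R, (fun y => y * x)^[n] x = 0) →
      ∃ D : ℕ → AddSubgroup R,
        D 0 = ⊤ ∧
        (∀ k : ℕ, D (k + 1) =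
          AddSubgroup.closure {z : R | ∃ a ∈ D k, ∃ b ∈ D k, z = a * b}) ∧
        ∃ m : ℕ, D m = ⊥) := by
  intro h
  obtain ⟨D, h0, hs, m, hm⟩ := h Pool.Agent.H29.RAlt2.R
    (fun x y => Subtype.ext (Pool.Agent.H29.RAlt2.ralt x.1 y.1)) Pool.Agent.H29.RAlt2.R_fg
    ⟨3, fun x => Subtype.ext (Pool.Agent.H29.RAlt2.nil (Pool.Agent.H29.RAlt2.R_le x.2))⟩
  obtain ⟨y, hy, e⟩ := Pool.Agent.H29.RAlt2.der D h0 hs m 0
  rw [hm, AddSubgroup.mem_bot] at hy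
  rw [hy] at e
  exact Pool.Agent.H29.RAlt2.prod_ne (Finset.Ico 0 (0 + 2 ^ m)) (congrArg (fun w => w.2.1) e).symm

end Pool.Agent.S01864
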