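import Pool.Statements.S01882

set_option autoImplicit false
open Pool Pool.MP_718035_al

namespace Pool.Agent.S01882

open Polynomial Cardinal Matrix

abbrev G := Matrix.SpecialLinearGroup (Fin 2) ℝ

lemma mul00 (a b : G) (i j : Fin 2) : (a * b) i j = a i 0 * b 0 j + a i 1 * b 1 j := by
  simp [Matrix.mul_apply, Fin.sum_univ_two]

lemma det2 (a : G) : a 0 0 * a 1 1 - a 0 1 * a 1 0 = 1 := by
  have := a.det_coe; rwa [Matrix.det_fin_two] at this

def GK (K : Subfield ℝ) : Subgroup G where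
  carrier := {m | ∀ i j, m i j ∈ K}
  one_mem' := fun i j => by
    fin_cases i <;> fin_cases j <;> simp
  mul_mem' := fun {a b} ha hb i j => by
    rw [mul00]; exact add_mem (mul_mem (ha _ _) (hb _ _)) (mul_mem (ha _ _) (hb _ _))
  inv_mem' := fun {a} ha i j => by
    rw [Matrix.SpecialLinearGroup.SL2_inv_expl]
    fin_cases i <;> fin_cases j <;> simp [ha _ _]

lemma cen (m : G) : m ∈ Subgroup.center G ↔ m 0 1 = 0 ∧ m 1 0 = 0 ∧ m 0 0 = m 1 1 := by
  refine ⟨fun h => ?_, fun ⟨h1, h2, h3⟩ => Subgroup.mem_center_iff.2 fun g => ?_⟩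
  · obtain ⟨r, -, hr⟩ := Matrix.SpecialLinearGroup.mem_center_iff.1 h
    have e : ∀ i j, m i j = Matrix.scalar (Fin 2) r i j := fun i j => by rw [hr]
    simp [e]
  · ext i j; fin_cases i <;> fin_cases j <;> simp [mul00, h1, h2, h3, mul_comm]

lemma cen_le (K : Subfield ℝ) : Subgroup.center G ≤ GK K := fun m hm i j => by
  obtain ⟨h1, h2, h3⟩ := (cen m).1 hm
  have := det2 m
  rw [h1, h3, zero_mul, sub_zero, mul_self_eq_one_iff] at this
  fin_cases i <;> fin_cases j <;> rcases this with h | h <;> simp [h1, h2, h3, h]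

lemma trans (K : Subfield ℝ) (hK : #K < 𝔠) : ∃ s : ℝ, Transcendental K s := by
  by_contra! h
  have := Algebraic.cardinalMk_le_max K ℝ
  rw [mk_congr (Equiv.subtypeUnivEquiv fun x => not_not.1 (h x)), mk_real] at this
  exact this.not_gt (max_lt hK aleph0_lt_continuum)

lemma tr2 (K : Subfield ℝ) (s : ℝ) (hs : Transcendental K s) (a b c : ℝ) (ha : a ∈ K) (hb : b ∈ K)
    (hc : c ∈ K) (h : a * s ^ 2 + b * s + c = 0) : a = 0 ∧ b = 0 ∧ c = 0 := by
  have := transcendental_iff.1 hs (C ⟨a, ha⟩ * X ^ 2 + C ⟨b, hb⟩ * X + C ⟨c, hc⟩)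
    (by simp only [map_add, map_mul, aeval_C, aeval_X, map_pow]; exact h)
  have e := fun k => congrArg (fun p => ((coeff p k : K) : ℝ)) this
  have e0 := e 0; have e1 := e 1; have e2 := e 2
  simp [coeff_X, coeff_C] at e0 e1 e2
  exact ⟨e2, e1, e0⟩

def xx (s t : ℝ) : G := ⟨!![1 + t * s, -t; t * s ^ 2, 1 - t * s], by simp [Matrix.det_fin_two]; ring⟩

lemma xx_inv (s t : ℝ) : (xx s t)⁻¹ = xx s (-t) := by
  rw [Matrix.SpecialLinearGroup.SL2_inv_expl]
  ext i j; fin_cases i <;> fin_cases j <;> simp [xx] <;> ring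

def St (L : Subfield ℝ) (t : ℝ) (d : ℕ) (γ : G) (P : ℝ → ℝ → Prop) : Prop :=
  ∃ p q : L[X], p.natDegree ≤ d ∧ q.natDegree ≤ d ∧ γ 0 0 = aeval t p ∧ γ 1 0 = aeval t q ∧
    P (p.coeff d) (q.coeff d)

lemma st1 (L : Subfield ℝ) (s t : ℝ) (hs : s ∈ L) (e : ℝ) (he : e = 1 ∨ e = -1) (d : ℕ) (γ : G)
    (h : St L t d γ fun a b => s * a ≠ b) :
    St L t (d + 1) (xx s (e * t) * γ) fun a b => a ≠ 0 ∧ b = s * a := by
  obtain ⟨p, q, hp, hq, e1, e2, h⟩ := h
  have eL : e ∈ L := by rcases he with rfl | rfl <;> simp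
  have e0 : e ≠ 0 := by rcases he with rfl | rfl <;> simp
  refine ⟨p + C ⟨e, eL⟩ * (X * (C ⟨s, hs⟩ * p - q)),
    q + C (⟨s, hs⟩ * ⟨e, eL⟩) * (X * (C ⟨s, hs⟩ * p - q)), ?_, ?_, ?_, ?_, ?_⟩
  · compute_degree!; omega
  · compute_degree!; omega
  · simp [mul00, xx, e1, e2, Subfield.algebraMap_ofSubfield]; ring
  · simp [mul00, xx, e1, e2, Subfield.algebraMap_ofSubfield]; ring
  · simp only [coeff_add, coeff_C_mul, coeff_X_mul, coeff_sub,
      coeff_eq_zero_of_natDegree_lt (Nat.lt_succ_of_le hp),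
      coeff_eq_zero_of_natDegree_lt (Nat.lt_succ_of_le hq)]
    simp [e0, sub_eq_zero, h, mul_assoc]

lemma st2 (K L : Subfield ℝ) (hL : K ≤ L) (s t : ℝ) (hs : Transcendental K s) (d : ℕ) (γ m : G)
    (hm : m ∈ GK K) (hc : m ∉ Subgroup.center G)
    (h : St L t d γ fun a b => a ≠ 0 ∧ b = s * a) : St L t d (m * γ) fun a b => s * a ≠ b := by
  obtain ⟨p, q, hp, hq, e1, e2, h0, h⟩ := h
  refine ⟨C ⟨_, hL (hm 0 0)⟩ * p + C ⟨_, hL (hm 0 1)⟩ * q,
    C ⟨_, hL (hm 1 0)⟩ * p + C ⟨_, hL (hm 1 1)⟩ * q, ?_, ?_, ?_, ?_, fun e => hc ?_⟩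
  · compute_degree!
  · compute_degree!
  · simp [mul00, e1, e2, Subfield.algebraMap_ofSubfield]
  · simp [mul00, e1, e2, Subfield.algebraMap_ofSubfield]
  · simp only [coeff_add, coeff_C_mul, Subfield.coe_add, Subfield.coe_mul, h] at e
    obtain ⟨a, b, c⟩ := tr2 K s hs _ _ _ (hm 0 1) (sub_mem (hm 0 0) (hm 1 1)) (neg_mem (hm 1 0))
      (mul_left_cancel₀ h0 (by linear_combination e))
    exact (cen m).2 ⟨a, neg_eq_zero.1 c, sub_eq_zero.1 b⟩

inductive W (H Y : Subgroup G) : G → Prop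
  | base (y h : G) : y ∈ Y → y ∉ Subgroup.center G → h ∈ H → W H Y (y * h)
  | step (y h γ : G) : y ∈ Y → y ∉ Subgroup.center G → h ∈ H → h ∉ Subgroup.center G →
      W H Y γ → W H Y (y * h * γ)

lemma nf (H Y : Subgroup G) (hH : Subgroup.center G ≤ H) (hY : Subgroup.center G ≤ Y) (γ : G)
    (hγ : γ ∈ H ⊔ Y) : γ ∈ H ∨ ∃ h ∈ H, ∃ ω, W H Y ω ∧ γ = h * ω := by
  rw [Subgroup.sup_eq_closure] at hγ
  have l1 : ∀ y ∈ H, ∀ γ, (γ ∈ H ∨ ∃ h ∈ H, ∃ ω, W H Y ω ∧ γ = h * ω) →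
      (y * γ ∈ H ∨ ∃ h ∈ H, ∃ ω, W H Y ω ∧ y * γ = h * ω) := by
    rintro y hy γ (h | ⟨h, hh, ω, hω, rfl⟩)
    exacts [Or.inl (mul_mem hy h), Or.inr ⟨_, mul_mem hy hh, ω, hω, (mul_assoc _ _ _).symm⟩]
  have l2 : ∀ y ∈ (H : Set G) ∪ Y, ∀ γ, (γ ∈ H ∨ ∃ h ∈ H, ∃ ω, W H Y ω ∧ γ = h * ω) →
      (y * γ ∈ H ∨ ∃ h ∈ H, ∃ ω, W H Y ω ∧ y * γ = h * ω) := by
    rintro y (hy | hy) γ hγ
    · exact l1 y hy γ hγ
    by_cases c : y ∈ Subgroup.center G
    · exact l1 y (hH c) γ hγ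
    rcases hγ with h | ⟨h, hh, ω, hω, rfl⟩
    · exact Or.inr ⟨1, one_mem _, _, .base y γ hy c h, by simp⟩
    by_cases c2 : h ∈ Subgroup.center G
    swap; · exact Or.inr ⟨1, one_mem _, _, .step y h ω hy c hh c2 hω, by simp [mul_assoc]⟩
    cases hω with
    | base y' h' a1 a2 a3 =>
      by_cases c3 : y * h * y' ∈ Subgroup.center G
      · exact Or.inl (by simpa only [mul_assoc] using mul_mem (hH c3) a3)
      · exact Or.inr ⟨1, one_mem _, _, .base _ h' (mul_mem (mul_mem hy (hY c2)) a1) c3 a3,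
          by simp [mul_assoc]⟩
    | step y' h' ω' a1 a2 a3 a4 a5 =>
      by_cases c3 : y * h * y' ∈ Subgroup.center G
      · exact Or.inr ⟨_, mul_mem (hH c3) a3, ω', a5, by simp [mul_assoc]⟩
      · exact Or.inr ⟨1, one_mem _, _, .step _ h' ω' (mul_mem (mul_mem hy (hY c2)) a1) c3 a3 a4 a5,
          by simp [mul_assoc]⟩
  induction hγ using Subgroup.closure_induction_left with
  | one => exact Or.inl (one_mem _)
  | mul_left x hx y _ ih => exact l2 x hx y ih
  | inv_mul_cancel x hx y _ ih =>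
    exact l2 _ (hx.imp (fun h => inv_mem (s := H) h) fun h => inv_mem (s := Y) h) y ih

lemma core (K : Subfield ℝ) (hK : #K < 𝔠) (H : Subgroup G) (hH : Subgroup.center G ≤ H)
    (hHK : H ≤ GK K) (g u : G) (hg : g ∈ GK K) (hu : u ∈ GK K) (h : u ∉ H) :
    ∃ x : G, u ∉ H ⊔ Subgroup.closure {x * g * x⁻¹} := by
  obtain ⟨s, hs⟩ := trans K hK
  let L := Subfield.closure (insert s (K : Set ℝ))
  have sL : s ∈ L := Subfield.subset_closure (Set.mem_insert _ _)
  have KL : K ≤ L := fun a ha => Subfield.subset_closure (Set.mem_insert_of_mem _ ha)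
  obtain ⟨t, ht⟩ := trans L ((Subfield.cardinalMk_closure_le_max _).trans_lt (max_lt
    (mk_insert_le.trans_lt (add_lt_of_lt aleph0_le_continuum hK (one_lt_aleph0.trans aleph0_lt_continuum)))
    aleph0_lt_continuum))
  let Y := (GK K).map (MulAut.conj (xx s t)).toMonoidHom
  have cc : ∀ m : G, m ∈ Subgroup.center G → ∀ x, x * m * x⁻¹ = m := fun m hm x => by
    rw [Subgroup.mem_center_iff.1 hm x, mul_inv_cancel_right]
  have hY : Subgroup.center G ≤ Y := fun m hm => ⟨m, cen_le K hm, cc m hm _⟩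
  have yy : ∀ y ∈ Y, y ∉ Subgroup.center G → ∀ d γ, (St L t d γ fun a b => s * a ≠ b) →
      St L t (d + 1 + 1) (y * γ) fun a b => a ≠ 0 ∧ b = s * a := by
    rintro _ ⟨m, hm, rfl⟩ hc d γ hγ
    have := st1 L s t sL 1 (Or.inl rfl) _ _ (st2 K L KL s t hs _ _ m hm
      (fun c => hc (by simpa [cc m c] using c)) (st1 L s t sL (-1) (Or.inr rfl) d γ hγ))
    simpa [xx_inv, mul_assoc] using this
  have key : ∀ ω, W H Y ω → ∃ d, St L t (d + 1) ω fun a b => a ≠ 0 ∧ b = s * a := fun ω hω => by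
    induction hω with
    | base y h a1 a2 a3 =>
      refine ⟨_, yy y a1 a2 0 h ⟨C ⟨_, KL (hHK a3 0 0)⟩, C ⟨_, KL (hHK a3 1 0)⟩, by simp, by simp,
        by simp [Subfield.algebraMap_ofSubfield], by simp [Subfield.algebraMap_ofSubfield], fun e => ?_⟩⟩
      simp only [coeff_C_zero] at e
      obtain ⟨-, b, c⟩ := tr2 K s hs 0 _ _ (zero_mem _) (hHK a3 0 0) (neg_mem (hHK a3 1 0))
        (by linear_combination e)
      simpa [b, neg_eq_zero.1 c] using det2 h
    | step y h γ a1 a2 a3 a4 _ ih =>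
      obtain ⟨d, hd⟩ := ih
      exact ⟨_, by rw [mul_assoc]; exact yy y a1 a2 _ _ (st2 K L KL s t hs _ _ h (hHK a3) a4 hd)⟩
  refine ⟨xx s t, fun hh => ?_⟩
  obtain ⟨h', a1, ω, a2, rfl⟩ := (nf H Y hH hY u ((sup_le_sup_left ((Subgroup.closure_le Y).2
    (Set.singleton_subset_iff.2 ⟨g, hg, rfl⟩)) H) hh)).resolve_left h
  obtain ⟨d, p, q, -, -, e1, -, h0, -⟩ := key ω a2
  have := KL (((GK K).mul_mem_cancel_left (hHK a1)).1 hu 0 0)
  have e := transcendental_iff.1 ht (p - C ⟨_, this⟩) (by simp [← e1, Subfield.algebraMap_ofSubfield])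
  exact h0 (by rw [sub_eq_zero.1 e]; simp)

lemma exists_rec {ι β : Type} [LinearOrder ι] [WellFoundedLT ι] [Nonempty β]
    (P : ι → Set β → β → Prop) :
    ∃ f : ι → β, ∀ i, (∃ b, P i (f '' Set.Iio i) b) → P i (f '' Set.Iio i) (f i) := by
  let f : ι → β := (wellFounded_lt (α := ι)).fix fun i r =>
    Classical.epsilon (P i {b | ∃ j, ∃ h : j < i, r j h = b})
  refine ⟨f, fun i h => ?_⟩
  have : f i = Classical.epsilon (P i (f '' Set.Iio i)) := by
    rw [show f i = _ from WellFounded.fix_eq _ _ i]; congr; ext b; simp [f]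
  rw [this]; exact Classical.epsilon_spec h


/-- The negation of the preceding statement: Every subgroup of SL_2(R), viewed as an abstract group, that contains a conjugate of every element is the whole group; that is, SL_2(R) is invariably generated. -/
theorem result :
    ¬ (∀ H : Subgroup (Matrix.SpecialLinearGroup (Fin 2) ℝ),
      (∀ g : Matrix.SpecialLinearGroup (Fin 2) ℝ,
        ∃ x : Matrix.SpecialLinearGroup (Fin 2) ℝ, x * g * x⁻¹ ∈ H) →
      H = ⊤) := by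
  intro hh
  let u : G := ⟨!![1, 1; 0, 1], by simp [Matrix.det_fin_two]⟩
  let ι := (#G).ord.ToType
  obtain ⟨e⟩ : Nonempty (ι ≃ G) := Cardinal.eq.1 (mk_ord_toType _)
  have cG : #G ≤ 𝔠 := (mk_subtype_le _).trans (by
    have : (𝔠 : Cardinal.{0}) ^ (2 : Cardinal.{0}) = 𝔠 := by
      rw [← one_add_one_eq_two, power_add]; simp
    simp [Matrix, mk_real, this])
  obtain ⟨f, hf⟩ := exists_rec fun (i : ι) (S : Set G) (y : G) => (∃ x, x * e i * x⁻¹ = y) ∧
    (u ∉ Subgroup.center G ⊔ Subgroup.closure S →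
      u ∉ Subgroup.center G ⊔ Subgroup.closure S ⊔ Subgroup.closure {y})
  replace hf := fun i => hf i (by
    by_cases h : u ∈ Subgroup.center G ⊔ Subgroup.closure (f '' Set.Iio i)
    · exact ⟨e i, ⟨1, by simp⟩, fun h' => absurd h h'⟩
    let T : Set ℝ := (fun p : G × Fin 2 × Fin 2 => p.1 p.2.1 p.2.2) ''
      (insert (e i) (f '' Set.Iio i) ×ˢ Set.univ)
    have a0 := aleph0_lt_continuum
    obtain ⟨x, hx⟩ := core (Subfield.closure T) ((Subfield.cardinalMk_closure_le_max _).trans_lt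
      (max_lt (mk_image_le.trans_lt (by
        rw [mk_setProd]
        exact mul_lt_of_lt a0.le (mk_insert_le.trans_lt (add_lt_of_lt a0.le (mk_image_le.trans_lt
          ((mk_Iio_toType_ord_lt i).trans_le cG)) (one_lt_aleph0.trans a0)))
          ((Set.toFinite _).lt_aleph0.trans a0))) a0)) _ le_sup_left
      (sup_le (cen_le _) ((Subgroup.closure_le _).2 fun m hm a b =>
        Subfield.subset_closure ⟨(m, a, b), ⟨Or.inr hm, trivial⟩, rfl⟩)) (e i) u
      (fun a b => Subfield.subset_closure ⟨(e i, a, b), ⟨Or.inl rfl, trivial⟩, rfl⟩)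
      (fun a b => by fin_cases a <;> fin_cases b <;> simp [u]) h
    exact ⟨_, ⟨x, rfl⟩, fun _ => hx⟩)
  let D : WithBot ι → Subgroup G := fun o =>
    Subgroup.center G ⊔ Subgroup.closure (f '' {j | (j : WithBot ι) ≤ o})
  have mD : Monotone D := fun a b h => sup_le_sup_left (Subgroup.closure_mono
    (Set.image_mono fun j hj => le_trans hj h)) _
  have lim : ∀ T : Set ι, (∀ j ∈ T, u ∉ D j) → u ∉ Subgroup.center G ⊔ Subgroup.closure (f '' T) := by
    intro T hT hu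
    haveI : Nonempty {o : WithBot ι // ∀ j : ι, o = j → j ∈ T} := ⟨⟨⊥, by simp⟩⟩
    have := (sup_le (le_iSup_of_le (f := fun o : {o : WithBot ι // ∀ j : ι, o = j → j ∈ T} => D o)
      ⟨⊥, by simp⟩ le_sup_left) ((Subgroup.closure_le _).2 (by
        rintro _ ⟨j, hj, rfl⟩
        exact Subgroup.mem_iSup_of_mem ⟨j, by simpa using hj⟩ (Subgroup.mem_sup_right
          (Subgroup.subset_closure ⟨j, by simp, rfl⟩))))) hu
    obtain ⟨⟨o, ho⟩, h⟩ := (Subgroup.mem_iSup_of_directed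
      ((mD.comp (Subtype.mono_coe _)).directed_le)).1 this
    induction o using WithBot.recBotCoe with
    | bot => simpa [D, cen, u] using h
    | coe j => exact hT j (ho j rfl) h
  have all : ∀ i : ι, u ∉ D i := fun i => by
    induction i using WellFoundedLT.induction with
    | ind i ih =>
      have := (hf i).2 (lim _ ih)
      rwa [sup_assoc, ← Subgroup.closure_union, ← Set.image_singleton, ← Set.image_union,
        Set.Iio_union_right, show Set.Iic i = {j : ι | (j : WithBot ι) ≤ i} by ext; simp] at this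
  refine lim Set.univ (fun j _ => all j) ?_
  rw [hh (Subgroup.center G ⊔ Subgroup.closure (f '' Set.univ)) fun g => ?_]
  · trivial
  obtain ⟨x, hx⟩ := (hf (e.symm g)).1
  rw [e.apply_symm_apply] at hx
  exact ⟨x, Subgroup.mem_sup_right (Subgroup.subset_closure ⟨_, trivial, hx.symm⟩)⟩

end Pool.Agent.S01882
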