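import Pool.Statements.S01898

set_option autoImplicit false
open Pool Pool.MP_72b122_al

namespace Pool.Agent.S01898

open Topology Filter

/-- finitely supported integer sequences -/
abbrev D : Type := ℕ →₀ ℤ

/-- the group, written multiplicatively -/
def G : Type := Multiplicative (D × D)

noncomputable instance : CommGroup G := inferInstanceAs (CommGroup (Multiplicative (D × D)))
noncomputable instance : Lattice G := inferInstanceAs (Lattice (D × D))

def fst (g : G) : D := (Multiplicative.toAdd g).1
def snd (g : G) : D := (Multiplicative.toAdd g).2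
def mk (a b : D) : G := Multiplicative.ofAdd (a, b)

@[simp] lemma fst_mk (a b : D) : fst (mk a b) = a := rfl
@[simp] lemma snd_mk (a b : D) : snd (mk a b) = b := rfl
@[simp] lemma fst_mul (g h : G) : fst (g * h) = fst g + fst h := rfl
@[simp] lemma snd_mul (g h : G) : snd (g * h) = snd g + snd h := rfl
@[simp] lemma fst_inv (g : G) : fst g⁻¹ = - fst g := rfl
@[simp] lemma snd_inv (g : G) : snd g⁻¹ = - snd g := rfl
@[simp] lemma fst_one : fst 1 = 0 := rfl
@[simp] lemma snd_one : snd 1 = 0 := rfl
@[simp] lemma fst_sup (g h : G) : fst (g ⊔ h) = fst g ⊔ fst h := rfl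
@[simp] lemma snd_sup (g h : G) : snd (g ⊔ h) = snd g ⊔ snd h := rfl
@[simp] lemma fst_inf (g h : G) : fst (g ⊓ h) = fst g ⊓ fst h := rfl
@[simp] lemma snd_inf (g h : G) : snd (g ⊓ h) = snd g ⊓ snd h := rfl
lemma le_def (g h : G) : g ≤ h ↔ fst g ≤ fst h ∧ snd g ≤ snd h := Iff.rfl
lemma ext' {g h : G} (h1 : fst g = fst h) (h2 : snd g = snd h) : g = h := Prod.ext h1 h2

instance : MulLeftMono G := ⟨by
  intro a b c h
  rw [le_def] at h ⊢
  exact ⟨by simpa using h.1, by simpa using h.2⟩⟩

instance : MulRightMono G := ⟨by
  intro a b c h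
  change b * a ≤ c * a
  rw [le_def] at h ⊢
  exact ⟨by simpa using h.1, by simpa using h.2⟩⟩

/-- a discrete copy of `D` -/
def E : Type := D
noncomputable instance : AddCommGroup E := inferInstanceAs (AddCommGroup D)
instance : TopologicalSpace E := ⊥
instance : DiscreteTopology E := ⟨rfl⟩

noncomputable def dl (g : G) : E := (fst g - snd g : D)

noncomputable def io (g : G) : E × (ℕ → ℤ) := (dl g, fun n => fst g n)

noncomputable instance : TopologicalSpace G := TopologicalSpace.induced io inferInstance

lemma cont_io : Continuous io := continuous_induced_dom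
lemma cont_dl : Continuous dl := continuous_fst.comp cont_io
lemma cont_co (n : ℕ) : Continuous (fun g : G => fst g n) :=
  (continuous_apply n).comp (continuous_snd.comp cont_io)

lemma cont_into {X : Type} [TopologicalSpace X] {f : X → G} (h1 : Continuous (fun x => dl (f x)))
    (h2 : ∀ n, Continuous (fun x => fst (f x) n)) : Continuous f := by
  rw [continuous_induced_rng]
  exact h1.prodMk (continuous_pi h2)

lemma dl_mul (g h : G) : dl (g * h) = dl g + dl h := by
  change (fst g + fst h - (snd g + snd h) : D) = (fst g - snd g) + (fst h - snd h)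
  abel

lemma dl_inv (g : G) : dl g⁻¹ = - dl g := by
  change (-fst g - (-snd g) : D) = -(fst g - snd g)
  abel

instance : IsTopologicalGroup G where
  continuous_mul := by
    apply cont_into
    · simp only [dl_mul]
      exact (cont_dl.comp continuous_fst).add (cont_dl.comp continuous_snd)
    · intro n
      simp only [fst_mul, Finsupp.add_apply]
      exact ((cont_co n).comp continuous_fst).add ((cont_co n).comp continuous_snd)
  continuous_inv := by
    apply cont_into
    · simp only [dl_inv]
      exact cont_dl.neg
    · intro n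
      simp only [fst_inv, Finsupp.neg_apply]
      exact (cont_co n).neg

lemma ev_near (g : G) (s : Finset ℕ) :
    ∀ᶠ x in 𝓝 g, dl x = dl g ∧ ∀ n ∈ s, fst x n = fst g n := by
  refine Filter.Eventually.and ?_ ?_
  · exact (cont_dl.continuousAt (x := g)).eventually (p := fun y => y = dl g)
      (by simp [nhds_discrete])
  · rw [Filter.eventually_all_finset]
    intro n _
    exact ((cont_co n).continuousAt (x := g)).eventually (p := fun y => y = fst g n)
      (by simp [nhds_discrete])

lemma cont_op (op : ℤ → ℤ → ℤ) (F : G → G → G)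
    (h1 : ∀ g h n, fst (F g h) n = op (fst g n) (fst h n))
    (h2 : ∀ g h n, snd (F g h) n = op (snd g n) (snd h n)) :
    Continuous (fun p : G × G => F p.1 p.2) := by
  apply cont_into
  · rw [continuous_iff_continuousAt]
    rintro ⟨g, h⟩
    have hs := (ev_near g ((fst g - snd g).support ∪ (fst h - snd h).support)).prod_nhds
      (ev_near h ((fst g - snd g).support ∪ (fst h - snd h).support))
    refine tendsto_const_nhds.congr' ?_
    filter_upwards [hs]
    rintro ⟨x, y⟩ ⟨⟨hx1, hx2⟩, ⟨hy1, hy2⟩⟩
    have hx1' : (fst x - snd x : D) = fst g - snd g := hx1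
    have hy1' : (fst y - snd y : D) = fst h - snd h := hy1
    change (fst (F g h) - snd (F g h) : D) = fst (F x y) - snd (F x y)
    ext n
    have ex := congrArg (fun d : D => d n) hx1'
    have ey := congrArg (fun d : D => d n) hy1'
    simp only [Finsupp.sub_apply] at ex ey ⊢
    rw [h1, h2, h1, h2]
    by_cases hn : n ∈ (fst g - snd g).support ∪ (fst h - snd h).support
    · have a1 := hx2 n hn
      have a2 := hy2 n hn
      have a3 : snd x n = snd g n := by simp only at a1; omega
      have a4 : snd y n = snd h n := by simp only at a2; omega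
      simp only at a1 a2
      rw [a1, a2, a3, a4]
    · simp only [Finset.mem_union, Finsupp.mem_support_iff, not_or, not_not,
        Finsupp.sub_apply] at hn
      have b1 : snd g n = fst g n := by omega
      have b2 : snd h n = fst h n := by omega
      have b3 : snd x n = fst x n := by omega
      have b4 : snd y n = fst y n := by omega
      rw [b1, b2, b3, b4]; simp
  · intro n
    simp only [h1]
    exact (continuous_of_discreteTopology (f := fun q : ℤ × ℤ => op q.1 q.2)).comp
      (((cont_co n).comp continuous_fst).prodMk ((cont_co n).comp continuous_snd))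

instance : TopologicalLattice G where
  continuous_inf := cont_op (fun a b => a ⊓ b) (fun g h => g ⊓ h)
    (fun g h n => by simp [Finsupp.inf_apply]) (fun g h n => by simp [Finsupp.inf_apply])
  continuous_sup := cont_op (fun a b => a ⊔ b) (fun g h => g ⊔ h)
    (fun g h n => by simp [Finsupp.sup_apply]) (fun g h n => by simp [Finsupp.sup_apply])

noncomputable def A : Subgroup G where
  carrier := {g | snd g = 0}
  mul_mem' := by intro a b ha hb; simp only [Set.mem_setOf_eq] at *; simp [ha, hb]
  one_mem' := rfl
  inv_mem' := by intro a ha; simp only [Set.mem_setOf_eq] at *; simp [ha]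

noncomputable def B : Subgroup G where
  carrier := {g | fst g = 0}
  mul_mem' := by intro a b ha hb; simp only [Set.mem_setOf_eq] at *; simp [ha, hb]
  one_mem' := rfl
  inv_mem' := by intro a ha; simp only [Set.mem_setOf_eq] at *; simp [ha]

lemma memA (g : G) : g ∈ A ↔ snd g = 0 := Iff.rfl
lemma memB (g : G) : g ∈ B ↔ fst g = 0 := Iff.rfl

lemma cont_snd (n : ℕ) : Continuous (fun g : G => snd g n) := by
  have : (fun g : G => snd g n) = fun g => fst g n - (fun d : E => (show D from d) n) (dl g) := by
    funext g
    change snd g n = fst g n - (fst g - snd g : D) n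
    simp
  rw [this]
  exact (cont_co n).sub ((continuous_of_discreteTopology (f := fun d : E => (show D from d) n)).comp cont_dl)

lemma closedA : IsClosed (A : Set G) := by
  have : (A : Set G) = ⋂ n, {g | snd g n = 0} := by
    ext g; simp only [SetLike.mem_coe, memA, Set.mem_iInter, Set.mem_setOf_eq]
    exact ⟨fun h n => by simp [h], fun h => Finsupp.ext h⟩
  rw [this]
  exact isClosed_iInter fun n => isClosed_eq (cont_snd n) continuous_const

lemma closedB : IsClosed (B : Set G) := by
  have : (B : Set G) = ⋂ n, {g | fst g n = 0} := by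
    ext g; simp only [SetLike.mem_coe, memB, Set.mem_iInter, Set.mem_setOf_eq]
    exact ⟨fun h n => by simp [h], fun h => Finsupp.ext h⟩
  rw [this]
  exact isClosed_iInter fun n => isClosed_eq (cont_co n) continuous_const

noncomputable def sq (k : ℕ) : G := mk (Finsupp.single k 1) (Finsupp.single k 1)

lemma tend_sq : Tendsto sq atTop (𝓝 1) := by
  rw [nhds_induced, tendsto_comap_iff]
  refine Filter.Tendsto.prodMk_nhds ?_ ?_
  · refine tendsto_const_nhds.congr ?_
    intro k
    change ((0 : D) - 0 : D) = Finsupp.single k 1 - Finsupp.single k 1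
    simp
  · rw [tendsto_pi_nhds]
    intro n
    refine tendsto_const_nhds.congr' ?_
    filter_upwards [eventually_gt_atTop n] with k hk
    change (0 : D) n = (Finsupp.single k (1 : ℤ)) n
    rw [Finsupp.single_eq_of_ne (by omega)]; rfl

/-- Counterexample: two copies of the finitely supported integer sequences, with the group
topology whose basic neighbourhoods of the identity are the diagonal tails. -/
theorem result :
    ¬ (∀ (G : Type) [Group G] [Lattice G] [MulLeftMono G] [MulRightMono G]
      [TopologicalSpace G] [IsTopologicalGroup G] [TopologicalLattice G]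
      (A B : Subgroup G),
      A.Normal → B.Normal →
      IsClosed (A : Set G) → IsClosed (B : Set G) →
      (∀ x ∈ A, ∀ y ∈ A, x ⊔ y ∈ A ∧ x ⊓ y ∈ A) →
      (∀ x ∈ B, ∀ y ∈ B, x ⊔ y ∈ B ∧ x ⊓ y ∈ B) →
      ∀ φ : (↥A × ↥B) → G, (∀ p, φ p = (p.1 : G) * (p.2 : G)) →
      Function.Bijective φ →
      (∀ p q : ↥A × ↥B, p ≤ q ↔ φ p ≤ φ q) →
      ∃ e : (↥A × ↥B) ≃ₜ G, ∀ p, e p = φ p) := by
  intro h
  obtain ⟨e, he⟩ := h G A B inferInstance inferInstance closedA closedB
    (by
      intro x hx y hy
      rw [memA] at hx hy
      simp [memA, hx, hy])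
    (by
      intro x hx y hy
      rw [memB] at hx hy
      simp [memB, hx, hy])
    (fun p => (p.1 : G) * (p.2 : G)) (fun _ => rfl)
    (by
      constructor
      · rintro ⟨⟨a, ha⟩, ⟨b, hb⟩⟩ ⟨⟨c, hc⟩, ⟨d, hd⟩⟩ hh
        rw [memA] at ha hc
        rw [memB] at hb hd
        have h1 := congrArg fst hh
        have h2 := congrArg snd hh
        simp only [fst_mul, snd_mul, ha, hb, hc, hd, add_zero, zero_add] at h1 h2
        have e1 : a = c := ext' h1 (by rw [ha, hc])
        have e2 : b = d := ext' (by rw [hb, hd]) h2
        subst e1; subst e2; rfl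
      · intro g
        refine ⟨(⟨mk (fst g) 0, rfl⟩, ⟨mk 0 (snd g), rfl⟩), ?_⟩
        exact ext' (by simp) (by simp))
    (by
      rintro ⟨⟨a, ha⟩, ⟨b, hb⟩⟩ ⟨⟨c, hc⟩, ⟨d, hd⟩⟩
      rw [memA] at ha hc
      rw [memB] at hb hd
      simp only [Prod.mk_le_mk, Subtype.mk_le_mk, le_def, fst_mul, snd_mul, ha, hb, hc, hd,
        add_zero, zero_add, le_refl, and_true, true_and])
  have key : ∀ g : G, dl ((e.symm g).1 : G) = (fst g : D) := by
    intro g
    have h1 := he (e.symm g)
    rw [e.apply_symm_apply] at h1
    have ha : snd ((e.symm g).1 : G) = 0 := (e.symm g).1.2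
    have hb : fst ((e.symm g).2 : G) = 0 := (e.symm g).2.2
    have h2 := congrArg fst h1
    rw [fst_mul, hb, add_zero] at h2
    change (fst ((e.symm g).1 : G) - snd ((e.symm g).1 : G) : D) = fst g
    rw [ha, sub_zero, h2]
  have hc : Continuous (fun g : G => dl ((e.symm g).1 : G)) :=
    cont_dl.comp (continuous_subtype_val.comp (continuous_fst.comp e.symm.continuous))
  have ht := (hc.tendsto 1).comp tend_sq
  rw [nhds_discrete, tendsto_pure] at ht
  obtain ⟨k, hk⟩ := ht.exists
  simp only [Function.comp, key] at hk
  have hk' : (Finsupp.single k (1 : ℤ) : D) = 0 := hk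
  simp at hk'

end Pool.Agent.S01898
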