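import Pool.Statements.S01910
import Pool.Agent.Lead.LS2

set_option autoImplicit false
open Pool Pool.MP_734462_al

namespace Pool.Agent.S01910

open Polynomial Pool.Agent.Lead.LS

lemma exists_point (p : ℚ[X][X]) (hp : p ≠ 0) : ∃ s t : ℚ, evalEval s t p ≠ 0 := by
  have key : ∀ q : ℚ[X], q ≠ 0 → ∃ s : ℚ, q.eval s ≠ 0 := by
    intro q hq
    obtain ⟨s, hs⟩ := (finite_setOf_isRoot hq).exists_notMem
    exact ⟨s, hs⟩
  obtain ⟨s, hs⟩ := key p.leadingCoeff (leadingCoeff_ne_zero.2 hp)
  obtain ⟨t, ht⟩ := key (p.map (evalRingHom s)) fun h0 => by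
    have := congrArg (fun q => coeff q p.natDegree) h0
    simp only [coeff_map, coeff_zero] at this
    exact hs this
  exact ⟨s, t, by rw [← map_evalRingHom_eval]; exact ht⟩

instance : Countable (T ℚ) := by
  rw [← Cardinal.mk_le_aleph0_iff]
  refine (FreeAlgebra.cardinalMk_le_max ℚ (Fin 3)).trans ?_
  simp

lemma iter_eq {Q : Type} [Ring Q] (b : Q) (n : ℕ) : (fun y : Q => b * y)^[n] b = b ^ (n + 1) := by
  induction n with
  | zero => simp
  | succ n ih => rw [Function.iterate_succ_apply', ih, ← pow_succ']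

lemma rho_pow (s t : ℚ) {N : ℕ} {φ : T ℚ} (hφ : φ ∈ Hom ℚ N) (n : ℕ) :
    rho (zz s t ^ (N * n)) (φ ^ n) = evalEval s t (ev φ) ^ n • (1 : T ℚ) := by
  induction n with
  | zero => simp
  | succ n ih =>
    rw [Nat.mul_succ, pow_add, rho_mul_apply, pow_succ φ, rho_zz s t N φ hφ, map_smul, ih,
      smul_smul, pow_succ']

/-- The negation of the preceding statement: For every field F there is an associative nil F-algebra A of at most countable dimension such that every nil F-algebra of at most countable dimension is the image of a surjective algebra homomorphism from A. -/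
theorem result :
    ¬ (∀ (F : Type) [Field F],
      ∃ (A : Type) (_instR : NonUnitalRing A) (_instM : Module F A)
        (_instT : IsScalarTower F A A) (_instC : SMulCommClass F A A),
        (∀ a : A, ∃ n : ℕ, (fun x : A => a * x)^[n] a = 0) ∧
        Module.rank F A ≤ Cardinal.aleph0 ∧
        ∀ (B : Type) [NonUnitalRing B] [Module F B] [IsScalarTower F B B]
          [SMulCommClass F B B],
          (∀ b : B, ∃ n : ℕ, (fun x : B => b * x)^[n] b = 0) →
          Module.rank F B ≤ Cardinal.aleph0 →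
            ∃ f : A →ₙₐ[F] B, Function.Surjective f) := by
  intro H
  obtain ⟨A, _, _, _, _, hnilA, hrank, huniv⟩ := H ℚ
  haveI : Countable A := by
    let b := Module.Free.chooseBasis ℚ A
    haveI : Countable (Module.Free.ChooseBasisIndex ℚ A) := by
      rw [← Cardinal.mk_le_aleph0_iff, ← Module.Free.rank_eq_card_chooseBasisIndex]
      exact hrank
    exact b.repr.toEquiv.countable_iff.2 inferInstance
  obtain ⟨τ, hτ⟩ := exists_surjective_nat (Fin 3 → A)
  haveI : Nonempty {g : T ℚ // eps g = 0} := ⟨⟨0, by simp⟩⟩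
  obtain ⟨e, he⟩ := exists_surjective_nat {g : T ℚ // eps g = 0}
  choose idx hidx using hnilA
  choose ps pt hpt using fun st : St ℚ => exists_point (ev (st.φ 0)) (st.ne 0)
  obtain ⟨s, I, hI, hnil, -, hann⟩ := exists_ideal (fun i => (e i).1) (fun i => (e i).2)
    (fun i st => st.N * (idx (pt st • τ i 0 + ps st • τ i 1 + τ i 2) + 1))
  let mk : T ℚ →ₐ[ℚ] (T ℚ ⧸ I) := Ideal.Quotient.mkₐ ℚ I
  let B : NonUnitalSubalgebra ℚ (T ℚ ⧸ I) :=
    { carrier := {q | ∃ r, eps r = 0 ∧ mk r = q}
      add_mem' := by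
        rintro _ _ ⟨a, ha, rfl⟩ ⟨b, hb, rfl⟩
        exact ⟨a + b, by simp [ha, hb], by simp⟩
      zero_mem' := ⟨0, by simp, by simp⟩
      mul_mem' := by
        rintro _ _ ⟨a, ha, rfl⟩ ⟨b, hb, rfl⟩
        exact ⟨a * b, by simp [ha], by simp⟩
      smul_mem' := by
        rintro c _ ⟨a, ha, rfl⟩
        exact ⟨c • a, by simp [ha], by simp⟩ }
  have hiter : ∀ (b : B) (n : ℕ), (((fun y : B => b * y)^[n] b : B) : T ℚ ⧸ I) = b.1 ^ (n + 1) := by
    intro b n
    induction n with
    | zero => simp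
    | succ n ih =>
      rw [Function.iterate_succ_apply', MulMemClass.coe_mul, ih, ← pow_succ']
  haveI : Countable (T ℚ ⧸ I) := Ideal.Quotient.mk_surjective.countable
  obtain ⟨f, hf⟩ := huniv B (by
      rintro ⟨_, r, hr, rfl⟩
      obtain ⟨i, hi⟩ := he ⟨r, hr⟩
      obtain ⟨n, hn⟩ := hnil i
      refine ⟨n, Subtype.ext ?_⟩
      rw [hiter]
      have h1 : r ^ n ∈ I := by simpa [hi] using hn
      show mk r ^ (n + 1) = 0
      rw [pow_succ, ← map_pow, show mk (r ^ n) = 0 from Ideal.Quotient.eq_zero_iff_mem.2 h1,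
        zero_mul])
    ((rank_le_card ℚ B).trans Cardinal.mk_le_aleph0)
  choose a ha using fun k : Fin 3 => hf ⟨mk (x k), x k, eps_x k, rfl⟩
  obtain ⟨i, hi⟩ := hτ a
  set st := s i with hst
  set w : A := pt st • τ i 0 + ps st • τ i 1 + τ i 2 with hw
  have hfw : ((f w : B) : T ℚ ⧸ I) = mk (zz (ps st) (pt st)) := by
    rw [hw, hi, map_add, map_add, map_smul, map_smul, ha, ha, ha]
    simp [zz]
  have hfi : ∀ n, f ((fun y : A => w * y)^[n] w) = (fun y : B => f w * y)^[n] (f w) := by
    intro n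
    induction n with
    | zero => rfl
    | succ n ih => rw [Function.iterate_succ_apply', Function.iterate_succ_apply', map_mul, ih]
  have h1 := hiter (f w) (idx w)
  rw [← hfi, hidx, map_zero, hfw, ← map_pow] at h1
  have h2 : zz (ps st) (pt st) ^ (idx w + 1) ∈ I := Ideal.Quotient.eq_zero_iff_mem.1 h1.symm
  have h3 : zz (ps st) (pt st) ^ (st.N * (idx w + 1)) ∈ I := by
    obtain ⟨N', hN'⟩ : ∃ N', st.N = N' + 1 := ⟨st.N - 1, by have := st.pos; omega⟩
    rw [hN', add_mul, one_mul, pow_add]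
    exact I.mul_mem_left _ h2
  have h4 := hann i _ h3 (st.φ 0 ^ (idx w + 1)) (pow_mem (Algebra.subset_adjoin (Set.mem_range_self 0)) _) _
    (pow_mem_Hom (st.hom 0) _) (Or.inr le_rfl)
  rw [rho_pow _ _ (st.hom 0)] at h4
  have h5 := congrArg eps h4
  rw [map_smul, map_one, map_zero, smul_eq_mul, mul_one] at h5
  exact pow_ne_zero _ (hpt st) h5

end Pool.Agent.S01910
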