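import Pool.Statements.S01920

set_option autoImplicit false
open Pool Pool.MP_73ecfa_al

namespace Pool.Agent.S01920

/-- Coordinates: V = Q^3 (first factor), L0 = Q, L1 = Q^3, L2 = Q^3. -/
abbrev V3 : Type := ℚ × ℚ × ℚ
abbrev Car : Type := V3 × ℚ × V3 × V3

/-- The 10-dimensional algebra V + M with M = L0 + L1 + L2.
A vector v of V acts on M by (s,p,q) goes to (v . q, s v, v x p). -/
def Alg : Type := Car

instance : AddCommGroup Alg := inferInstanceAs (AddCommGroup Car)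
instance : Module ℚ Alg := inferInstanceAs (Module ℚ Car)

def c0 (a : Car) : ℚ := a.1.1
def c1 (a : Car) : ℚ := a.1.2.1
def c2 (a : Car) : ℚ := a.1.2.2
def c3 (a : Car) : ℚ := a.2.1
def c4 (a : Car) : ℚ := a.2.2.1.1
def c5 (a : Car) : ℚ := a.2.2.1.2.1
def c6 (a : Car) : ℚ := a.2.2.1.2.2
def c7 (a : Car) : ℚ := a.2.2.2.1
def c8 (a : Car) : ℚ := a.2.2.2.2.1
def c9 (a : Car) : ℚ := a.2.2.2.2.2

@[simp] theorem c0_add (a b : Car) : c0 (a + b) = c0 a + c0 b := rfl
@[simp] theorem c0_neg (a : Car) : c0 (-a) = - c0 a := rfl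
@[simp] theorem c0_zero : c0 0 = 0 := rfl
@[simp] theorem c0_smul (r : ℚ) (a : Car) : c0 (r • a) = r * c0 a := rfl
@[simp] theorem c0_mk (x0 x1 x2 x3 x4 x5 x6 x7 x8 x9 : ℚ) :
    c0 ((x0, x1, x2), x3, (x4, x5, x6), (x7, x8, x9)) = x0 := rfl
@[simp] theorem c1_add (a b : Car) : c1 (a + b) = c1 a + c1 b := rfl
@[simp] theorem c1_neg (a : Car) : c1 (-a) = - c1 a := rfl
@[simp] theorem c1_zero : c1 0 = 0 := rfl
@[simp] theorem c1_smul (r : ℚ) (a : Car) : c1 (r • a) = r * c1 a := rfl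
@[simp] theorem c1_mk (x0 x1 x2 x3 x4 x5 x6 x7 x8 x9 : ℚ) :
    c1 ((x0, x1, x2), x3, (x4, x5, x6), (x7, x8, x9)) = x1 := rfl
@[simp] theorem c2_add (a b : Car) : c2 (a + b) = c2 a + c2 b := rfl
@[simp] theorem c2_neg (a : Car) : c2 (-a) = - c2 a := rfl
@[simp] theorem c2_zero : c2 0 = 0 := rfl
@[simp] theorem c2_smul (r : ℚ) (a : Car) : c2 (r • a) = r * c2 a := rfl
@[simp] theorem c2_mk (x0 x1 x2 x3 x4 x5 x6 x7 x8 x9 : ℚ) :
    c2 ((x0, x1, x2), x3, (x4, x5, x6), (x7, x8, x9)) = x2 := rfl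
@[simp] theorem c3_add (a b : Car) : c3 (a + b) = c3 a + c3 b := rfl
@[simp] theorem c3_neg (a : Car) : c3 (-a) = - c3 a := rfl
@[simp] theorem c3_zero : c3 0 = 0 := rfl
@[simp] theorem c3_smul (r : ℚ) (a : Car) : c3 (r • a) = r * c3 a := rfl
@[simp] theorem c3_mk (x0 x1 x2 x3 x4 x5 x6 x7 x8 x9 : ℚ) :
    c3 ((x0, x1, x2), x3, (x4, x5, x6), (x7, x8, x9)) = x3 := rfl
@[simp] theorem c4_add (a b : Car) : c4 (a + b) = c4 a + c4 b := rfl
@[simp] theorem c4_neg (a : Car) : c4 (-a) = - c4 a := rfl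
@[simp] theorem c4_zero : c4 0 = 0 := rfl
@[simp] theorem c4_smul (r : ℚ) (a : Car) : c4 (r • a) = r * c4 a := rfl
@[simp] theorem c4_mk (x0 x1 x2 x3 x4 x5 x6 x7 x8 x9 : ℚ) :
    c4 ((x0, x1, x2), x3, (x4, x5, x6), (x7, x8, x9)) = x4 := rfl
@[simp] theorem c5_add (a b : Car) : c5 (a + b) = c5 a + c5 b := rfl
@[simp] theorem c5_neg (a : Car) : c5 (-a) = - c5 a := rfl
@[simp] theorem c5_zero : c5 0 = 0 := rfl
@[simp] theorem c5_smul (r : ℚ) (a : Car) : c5 (r • a) = r * c5 a := rfl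
@[simp] theorem c5_mk (x0 x1 x2 x3 x4 x5 x6 x7 x8 x9 : ℚ) :
    c5 ((x0, x1, x2), x3, (x4, x5, x6), (x7, x8, x9)) = x5 := rfl
@[simp] theorem c6_add (a b : Car) : c6 (a + b) = c6 a + c6 b := rfl
@[simp] theorem c6_neg (a : Car) : c6 (-a) = - c6 a := rfl
@[simp] theorem c6_zero : c6 0 = 0 := rfl
@[simp] theorem c6_smul (r : ℚ) (a : Car) : c6 (r • a) = r * c6 a := rfl
@[simp] theorem c6_mk (x0 x1 x2 x3 x4 x5 x6 x7 x8 x9 : ℚ) :
    c6 ((x0, x1, x2), x3, (x4, x5, x6), (x7, x8, x9)) = x6 := rfl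
@[simp] theorem c7_add (a b : Car) : c7 (a + b) = c7 a + c7 b := rfl
@[simp] theorem c7_neg (a : Car) : c7 (-a) = - c7 a := rfl
@[simp] theorem c7_zero : c7 0 = 0 := rfl
@[simp] theorem c7_smul (r : ℚ) (a : Car) : c7 (r • a) = r * c7 a := rfl
@[simp] theorem c7_mk (x0 x1 x2 x3 x4 x5 x6 x7 x8 x9 : ℚ) :
    c7 ((x0, x1, x2), x3, (x4, x5, x6), (x7, x8, x9)) = x7 := rfl
@[simp] theorem c8_add (a b : Car) : c8 (a + b) = c8 a + c8 b := rfl
@[simp] theorem c8_neg (a : Car) : c8 (-a) = - c8 a := rfl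
@[simp] theorem c8_zero : c8 0 = 0 := rfl
@[simp] theorem c8_smul (r : ℚ) (a : Car) : c8 (r • a) = r * c8 a := rfl
@[simp] theorem c8_mk (x0 x1 x2 x3 x4 x5 x6 x7 x8 x9 : ℚ) :
    c8 ((x0, x1, x2), x3, (x4, x5, x6), (x7, x8, x9)) = x8 := rfl
@[simp] theorem c9_add (a b : Car) : c9 (a + b) = c9 a + c9 b := rfl
@[simp] theorem c9_neg (a : Car) : c9 (-a) = - c9 a := rfl
@[simp] theorem c9_zero : c9 0 = 0 := rfl
@[simp] theorem c9_smul (r : ℚ) (a : Car) : c9 (r • a) = r * c9 a := rfl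
@[simp] theorem c9_mk (x0 x1 x2 x3 x4 x5 x6 x7 x8 x9 : ℚ) :
    c9 ((x0, x1, x2), x3, (x4, x5, x6), (x7, x8, x9)) = x9 := rfl

theorem cext {a b : Car} (h0 : c0 a = c0 b) (h1 : c1 a = c1 b) (h2 : c2 a = c2 b)
    (h3 : c3 a = c3 b) (h4 : c4 a = c4 b) (h5 : c5 a = c5 b) (h6 : c6 a = c6 b)
    (h7 : c7 a = c7 b) (h8 : c8 a = c8 b) (h9 : c9 a = c9 b) : a = b :=
  Prod.ext (Prod.ext h0 (Prod.ext h1 h2)) (Prod.ext h3 (Prod.ext (Prod.ext h4 (Prod.ext h5 h6))
    (Prod.ext h7 (Prod.ext h8 h9))))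

def amul (a b : Car) : Car :=
  ((0, 0, 0),
    (c0 a * c7 b + c1 a * c8 b + c2 a * c9 b) - (c0 b * c7 a + c1 b * c8 a + c2 b * c9 a),
    (c3 b * c0 a - c3 a * c0 b, c3 b * c1 a - c3 a * c1 b, c3 b * c2 a - c3 a * c2 b),
    ((c1 a * c6 b - c2 a * c5 b) - (c1 b * c6 a - c2 b * c5 a),
    (c2 a * c4 b - c0 a * c6 b) - (c2 b * c4 a - c0 b * c6 a),
    (c0 a * c5 b - c1 a * c4 b) - (c0 b * c5 a - c1 b * c4 a)))

theorem amul_add (a b c : Car) : amul a (b + c) = amul a b + amul a c := by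
  apply cext <;> simp [amul] <;> ring

theorem add_amul (a b c : Car) : amul (a + b) c = amul a c + amul b c := by
  apply cext <;> simp [amul] <;> ring

theorem smul_amul (r : ℚ) (a b : Car) : amul (r • a) b = r • amul a b := by
  apply cext <;> simp [amul] <;> ring

theorem amul_smul (r : ℚ) (a b : Car) : amul a (r • b) = r • amul a b := by
  apply cext <;> simp [amul] <;> ring

theorem amul_self (a : Car) : amul a a = 0 := by
  apply cext <;> simp [amul]

instance : NonUnitalNonAssocRing Alg :=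
  { (inferInstance : AddCommGroup Alg) with
    mul := amul
    left_distrib := amul_add
    right_distrib := add_amul
    zero_mul := fun a => by
      show amul 0 a = 0
      apply cext <;> simp [amul]
    mul_zero := fun a => by
      show amul a 0 = 0
      apply cext <;> simp [amul] }

instance : IsScalarTower ℚ Alg Alg := ⟨fun r a b => smul_amul r a b⟩
instance : SMulCommClass ℚ Alg Alg := ⟨fun r a b => (amul_smul r a b).symm⟩

/-- The invariant satisfied by the value of a word of length L in two elements x, y. -/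
def Inv (x y : Car) (L : ℕ) (a : Car) : Prop :=
  (∃ r t : ℚ, c0 a = r * c0 x + t * c0 y ∧ c1 a = r * c1 x + t * c1 y ∧ c2 a = r * c2 x + t * c2 y) ∧
  (2 ≤ L → c0 a = 0 ∧ c1 a = 0 ∧ c2 a = 0) ∧
  (3 ≤ L → ∃ r t : ℚ, c4 a = r * c0 x + t * c0 y ∧ c5 a = r * c1 x + t * c1 y ∧
      c6 a = r * c2 x + t * c2 y) ∧
  (4 ≤ L → ∃ r : ℚ, c7 a = r * (c1 x * c2 y - c2 x * c1 y) ∧ c8 a = r * (c2 x * c0 y - c0 x * c2 y) ∧
      c9 a = r * (c0 x * c1 y - c1 x * c0 y)) ∧
  (5 ≤ L → c3 a = 0) ∧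
  (6 ≤ L → c4 a = 0 ∧ c5 a = 0 ∧ c6 a = 0) ∧
  (7 ≤ L → c7 a = 0 ∧ c8 a = 0 ∧ c9 a = 0)

theorem inv_left (x y a b : Car) (L1 L : ℕ) (ha : Inv x y L1 a) (hb : Inv x y L b)
    (hL : 2 ≤ L) : Inv x y (L + 1) (amul a b) := by
  obtain ⟨⟨r, t, h0, h1, h2⟩, -⟩ := ha
  obtain ⟨-, g2, g3, g4, g5, g6, g7⟩ := hb
  obtain ⟨b0, b1, b2⟩ := g2 hL
  refine ⟨⟨0, 0, by simp [amul], by simp [amul], by simp [amul]⟩,
    fun _ => ⟨by simp [amul], by simp [amul], by simp [amul]⟩, fun _ => ?_, fun h => ?_,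
    fun h => ?_, fun h => ?_, fun h => ?_⟩
  · refine ⟨c3 b * r, c3 b * t, ?_, ?_, ?_⟩ <;> simp [amul, h0, h1, h2, b0, b1, b2] <;> ring
  · obtain ⟨r', t', k4, k5, k6⟩ := g3 (by omega)
    refine ⟨r * t' - t * r', ?_, ?_, ?_⟩ <;>
      simp [amul, h0, h1, h2, b0, b1, b2, k4, k5, k6] <;> ring
  · obtain ⟨r', k7, k8, k9⟩ := g4 (by omega)
    simp [amul, h0, h1, h2, b0, b1, b2, k7, k8, k9]; ring
  · have k3 := g5 (by omega)
    refine ⟨?_, ?_, ?_⟩ <;> simp [amul, b0, b1, b2, k3]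
  · obtain ⟨k4, k5, k6⟩ := g6 (by omega)
    refine ⟨?_, ?_, ?_⟩ <;> simp [amul, b0, b1, b2, k4, k5, k6]

theorem amul_anti (a b : Car) : amul a b = - amul b a := by
  apply cext <;> simp [amul]

theorem inv_neg (x y a : Car) (L : ℕ) (ha : Inv x y L a) : Inv x y L (-a) := by
  obtain ⟨⟨r, t, h0, h1, h2⟩, g2, g3, g4, g5, g6, g7⟩ := ha
  refine ⟨⟨-r, -t, by simp [h0]; ring, by simp [h1]; ring, by simp [h2]; ring⟩,
    fun h => ?_, fun h => ?_, fun h => ?_, fun h => ?_, fun h => ?_, fun h => ?_⟩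
  · obtain ⟨k0, k1, k2⟩ := g2 h; simp [k0, k1, k2]
  · obtain ⟨r', t', k4, k5, k6⟩ := g3 h
    exact ⟨-r', -t', by simp [k4]; ring, by simp [k5]; ring, by simp [k6]; ring⟩
  · obtain ⟨r', k4, k5, k6⟩ := g4 h
    exact ⟨-r', by simp [k4], by simp [k5], by simp [k6]⟩
  · simp [g5 h]
  · obtain ⟨k0, k1, k2⟩ := g6 h; simp [k0, k1, k2]
  · obtain ⟨k0, k1, k2⟩ := g7 h; simp [k0, k1, k2]

theorem inv_mul (x y a b : Car) (L1 L2 : ℕ) (h1 : 1 ≤ L1) (h2 : 1 ≤ L2)
    (ha : Inv x y L1 a) (hb : Inv x y L2 b) : Inv x y (L1 + L2) (amul a b) := by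
  by_cases d1 : 2 ≤ L1
  · by_cases d2 : 2 ≤ L2
    · obtain ⟨a0, a1, a2⟩ := ha.2.1 d1
      obtain ⟨b0, b1, b2⟩ := hb.2.1 d2
      have : amul a b = 0 := by
        apply cext <;> simp [amul, a0, a1, a2, b0, b1, b2]
      rw [this]
      refine ⟨⟨0, 0, by simp, by simp, by simp⟩, fun _ => by simp,
        fun _ => ⟨0, 0, by simp, by simp, by simp⟩, fun _ => ⟨0, by simp, by simp, by simp⟩,
        fun _ => by simp, fun _ => by simp, fun _ => by simp⟩
    · have : L2 = 1 := by omega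
      subst this
      rw [amul_anti]
      exact inv_neg _ _ _ _ (inv_left x y b a 1 L1 hb ha d1)
  · have : L1 = 1 := by omega
    subst this
    by_cases d2 : 2 ≤ L2
    · rw [add_comm]; exact inv_left x y a b 1 L2 ha hb d2
    · have : L2 = 1 := by omega
      subst this
      refine ⟨⟨0, 0, by simp [amul], by simp [amul], by simp [amul]⟩,
        fun _ => ⟨by simp [amul], by simp [amul], by simp [amul]⟩, fun h => by omega,
        fun h => by omega, fun h => by omega, fun h => by omega, fun h => by omega⟩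

theorem inv_word (x : Fin 2 → Alg) (w : FreeMagma (Fin 2)) :
    Inv (x 0) (x 1) w.length (FreeMagma.lift x w : Alg) := by
  induction w using FreeMagma.recOnMul with
  | ih1 i =>
    have hl : (FreeMagma.of i).length = 1 := rfl
    rw [hl, FreeMagma.lift_of]
    refine ⟨?_, fun h => by omega, fun h => by omega,
        fun h => by omega, fun h => by omega, fun h => by omega, fun h => by omega⟩
    fin_cases i
    · exact ⟨1, 0, by simp, by simp, by simp⟩
    · exact ⟨0, 1, by simp, by simp, by simp⟩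
  | ih2 u v hu hv =>
    have hl : (u * v).length = u.length + v.length := rfl
    rw [hl, map_mul]
    exact inv_mul _ _ _ _ _ _ (FreeMagma.length_pos u) (FreeMagma.length_pos v) hu hv

theorem word_zero (x : Fin 2 → Alg) (w : FreeMagma (Fin 2)) (h : 7 ≤ w.length) :
    FreeMagma.lift x w = 0 := by
  obtain ⟨-, g2, -, -, g5, g6, g7⟩ := inv_word x w
  obtain ⟨a0, a1, a2⟩ := g2 (by omega)
  have a3 := g5 (by omega)
  obtain ⟨a4, a5, a6⟩ := g6 (by omega)
  obtain ⟨a7, a8, a9⟩ := g7 h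
  exact cext a0 a1 a2 a3 a4 a5 a6 a7 a8 a9

/-- The identities: all monomials of degree at least 7 in the first two variables. -/
def ids : Set (MonoidAlgebra ℚ (FreeMagma ℕ)) :=
  {f | ∃ w : FreeMagma (Fin 2), 7 ≤ w.length ∧
    f = MonoidAlgebra.single (FreeMagma.map (fun i : Fin 2 => (i : ℕ)) w) 1}

theorem lift_map {A : Type} [Mul A] (v : ℕ → A) (w : FreeMagma (Fin 2)) :
    FreeMagma.lift v (FreeMagma.map (fun i : Fin 2 => (i : ℕ)) w) =
      FreeMagma.lift (fun i : Fin 2 => v i) w := by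
  induction w using FreeMagma.recOnMul with
  | ih1 i => simp
  | ih2 u v hu hv => simp [hu, hv]

def gens : Fin 4 → Alg :=
  ![((1,0,0),0,(0,0,0),(0,0,0)), ((0,1,0),0,(0,0,0),(0,0,0)), ((0,0,1),0,(0,0,0),(0,0,0)),
    ((0,0,0),1,(0,0,0),(0,0,0))]

def wd : ℕ → FreeMagma (Fin 4)
  | 0 => FreeMagma.of 3
  | k + 1 => FreeMagma.of 2 * (FreeMagma.of 0 * (FreeMagma.of 1 * wd k))

theorem wd_len (k : ℕ) : k ≤ (wd k).length := by
  induction k with
  | zero => simp
  | succ k ih =>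
    have : (wd (k + 1)).length = 1 + (1 + (1 + (wd k).length)) := rfl
    omega

theorem wd_val (k : ℕ) : FreeMagma.lift gens (wd k) = gens 3 := by
  induction k with
  | zero => simp [wd]
  | succ k ih =>
    simp only [wd, map_mul, FreeMagma.lift_of, ih]
    show amul _ (amul _ (amul _ _)) = _
    apply cext <;> simp [amul, gens]

/-- The negation of the preceding statement: For any field and any variety of anticommutative algebras given by identities: if for some n at least 2 all long enough products of any n elements vanish uniformly, then every finitely generated algebra of the variety is nilpotent. -/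
theorem result :
    ¬ (∀ (K : Type) [Field K] (S : Set (MonoidAlgebra K (FreeMagma ℕ))) (n : ℕ), 2 ≤ n →
      (∃ c : ℕ, ∀ (A : Type) [NonUnitalNonAssocRing A] [Module K A]
          [IsScalarTower K A A] [SMulCommClass K A A],
          (∀ a : A, a * a = 0) →
          (∀ f ∈ S, ∀ v : ℕ → A, MonoidAlgebra.liftMagma K (FreeMagma.lift v) f = 0) →
          ∀ (x : Fin n → A) (w : FreeMagma (Fin n)), c ≤ w.length → FreeMagma.lift x w = 0) →
      ∀ (A : Type) [NonUnitalNonAssocRing A] [Module K A]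
          [IsScalarTower K A A] [SMulCommClass K A A],
          (∀ a : A, a * a = 0) →
          (∀ f ∈ S, ∀ v : ℕ → A, MonoidAlgebra.liftMagma K (FreeMagma.lift v) f = 0) →
          ∀ (m : ℕ) (x : Fin m → A), ∃ c : ℕ,
            ∀ w : FreeMagma (Fin m), c ≤ w.length → FreeMagma.lift x w = 0) := by
  intro H
  have key : ∀ (A : Type) [NonUnitalNonAssocRing A] [Module ℚ A]
      [IsScalarTower ℚ A A] [SMulCommClass ℚ A A] (v : ℕ → A) (w : FreeMagma (Fin 2)),
      MonoidAlgebra.liftMagma ℚ (FreeMagma.lift v)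
        (MonoidAlgebra.single (FreeMagma.map (fun i : Fin 2 => (i : ℕ)) w) 1) =
      FreeMagma.lift (fun i : Fin 2 => v i) w := by
    intro A _ _ _ _ v w
    rw [← lift_map]
    simp [MonoidAlgebra.liftMagma]
  have h1 := H ℚ ids 2 le_rfl ⟨7, ?_⟩ Alg amul_self ?_ 4 gens
  · obtain ⟨c, hc⟩ := h1
    have := hc (wd c) (wd_len c)
    rw [wd_val] at this
    have h3 := congrArg c3 this
    simp [gens] at h3
    exact absurd h3 (by change ¬ ((1 : ℚ) = 0); norm_num)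
  · intro A _ _ _ _ _ hS x w hw
    have := hS _ ⟨w, hw, rfl⟩ (fun i => if i = 0 then x 0 else x 1)
    rw [key] at this
    rw [← this]
    congr 2
    funext i; fin_cases i <;> simp
  · rintro f ⟨w, hw, rfl⟩ v
    rw [key]
    exact word_zero _ w hw

end Pool.Agent.S01920
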