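import Pool.Statements.S01961
import Pool.Agent.H5.Fock

set_option autoImplicit false
open scoped ComplexOrder
open Pool Pool.MP_7742c6_al

namespace Pool.Agent.S01961

section aux
open MvPolynomial Finset Pool.Agent.H5.Fock
open scoped ComplexConjugate

variable {σ : Type*} [Fintype σ] [DecidableEq σ]

noncomputable def Q (W : (σ →₀ ℕ) → ℝ) (p : MvPolynomial σ ℂ) : ℝ :=
  ∑ m ∈ p.support, W m * Complex.normSq (coeff m p)

theorem Q_eq (W : (σ →₀ ℕ) → ℝ) (p : MvPolynomial σ ℂ) (s : Finset (σ →₀ ℕ))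
    (hs : p.support ⊆ s) : Q W p = ∑ m ∈ s, W m * Complex.normSq (coeff m p) := by
  unfold Q
  refine Finset.sum_subset hs fun m _ hm => ?_
  rw [MvPolynomial.notMem_support_iff.mp hm]
  simp

theorem Q_X_mul (W : (σ →₀ ℕ) → ℝ) (i : σ) (p : MvPolynomial σ ℂ) :
    Q W (X i * p) = Q (fun m => W (Finsupp.single i 1 + m)) p := by
  unfold Q
  rw [support_X_mul, Finset.sum_map]
  refine Finset.sum_congr rfl fun m _ => ?_
  simp only [addLeftEmbedding_apply]
  rw [coeff_X_mul]

theorem B_self (p : MvPolynomial σ ℂ) : B p p = (Q w p : ℂ) := by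
  unfold B Q
  push_cast
  refine Finset.sum_congr rfl fun m _ => ?_
  rw [Complex.normSq_eq_conj_mul_self]

theorem cs (α β P R : ℂ) (k : ℝ) (hk : 0 < k) :
    (Complex.normSq α - k * Complex.normSq β) * Complex.normSq P
      + (Complex.normSq β - Complex.normSq α / k) * Complex.normSq R
      ≤ Complex.normSq (α * P + β * R) := by
  have h1 : 0 ≤ Complex.normSq ((k : ℂ) * conj β * P + conj α * R) / k :=
    div_nonneg (Complex.normSq_nonneg _) hk.le
  have h2 : Complex.normSq (α * P + β * R) - ((Complex.normSq α - k * Complex.normSq β) * Complex.normSq P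
      + (Complex.normSq β - Complex.normSq α / k) * Complex.normSq R)
      = Complex.normSq ((k : ℂ) * conj β * P + conj α * R) / k := by
    simp only [Complex.normSq_apply, Complex.add_re, Complex.add_im, Complex.mul_re, Complex.mul_im,
      Complex.conj_re, Complex.conj_im, Complex.ofReal_re, Complex.ofReal_im]
    field_simp
    ring
  linarith

/-- the ratio `h`. -/
noncomputable def hh (A Bq : ℝ) (N a : ℕ) : ℝ :=
  if a = 0 then 0 else if 12 * A ≤ (N + 1) * Bq then (a : ℝ) / (a + 1) else ((a : ℝ) + 1) / (a + 2)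

noncomputable def kap (A Bq : ℝ) (a b : ℕ) : ℝ := (b : ℝ) * hh A Bq (a + b) a / (a + 1)

theorem kap_pos (A Bq : ℝ) (a b : ℕ) (ha : a ≠ 0) (hb : b ≠ 0) : 0 < kap A Bq a b := by
  unfold kap hh
  rw [if_neg ha]
  have ha' : (0 : ℝ) < a := by exact_mod_cast Nat.pos_of_ne_zero ha
  have hb' : (0 : ℝ) < b := by exact_mod_cast Nat.pos_of_ne_zero hb
  split_ifs <;> positivity

theorem scalar (A Bq : ℝ) (hA : 0 ≤ A) (hB : 0 ≤ Bq) (a b : ℕ) :
    Bq / 2 * ((a + 1) + (b + 1)) ≤
      ((a : ℝ) + 2) * (a + 1) * (A - kap A Bq (a + 1) b * Bq)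
        + ((a : ℝ) + 1) * (b + 1) * (Bq - A / kap A Bq a (b + 1)) := by
  have hb : (0 : ℝ) ≤ b := Nat.cast_nonneg b
  unfold kap hh
  have e : a + 1 + b = a + (b + 1) := by ring
  rw [e, if_neg (Nat.succ_ne_zero a)]
  rcases Nat.eq_zero_or_pos a with rfl | ha
  · simp only [if_true, Nat.cast_zero, zero_add, mul_zero, zero_div, div_zero, Nat.cast_one]
    push_cast
    split_ifs with h
    · nlinarith
    · push Not at h
      nlinarith
  · rw [if_neg ha.ne']
    have ha' : (1 : ℝ) ≤ a := by exact_mod_cast ha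
    push_cast
    split_ifs with h
    · have key : ((a : ℝ) + 2) * (a + 1) * (A - (b : ℝ) * ((a + 1) / (a + 1 + 1)) / (a + 1 + 1) * Bq)
        + ((a : ℝ) + 1) * (b + 1) * (Bq - A / ((b + 1) * (a / (a + 1)) / (a + 1)))
        - Bq / 2 * ((a + 1) + (b + 1))
        = ((a + (b + 1) + 1) * Bq * a ^ 2 - 2 * (a + 1) * (a + 2) * A) / (2 * a * (a + 2)) := by
        field_simp
        ring
      have : 0 ≤ ((a + (b + 1) + 1) * Bq * (a : ℝ) ^ 2 - 2 * (a + 1) * (a + 2) * A) / (2 * a * (a + 2)) := by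
        apply div_nonneg _ (by positivity)
        have h3 : 0 ≤ (5 * (a : ℝ) + 2) * (a - 1) := mul_nonneg (by positivity) (by linarith)
        nlinarith [mul_nonneg hA h3, mul_le_mul_of_nonneg_right h (sq_nonneg (a : ℝ))]
      linarith
    · have key : ((a : ℝ) + 2) * (a + 1) * (A - (b : ℝ) * ((a + 1 + 1) / (a + 1 + 2)) / (a + 1 + 1) * Bq)
        + ((a : ℝ) + 1) * (b + 1) * (Bq - A / ((b + 1) * ((a + 1) / (a + 2)) / (a + 1)))
        - Bq / 2 * ((a + 1) + (b + 1))
        = Bq * ((a - 1) * (a + b + 2) + 2 * (a + 1)) / (2 * (a + 3)) := by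
        field_simp
        ring
      have : 0 ≤ Bq * (((a : ℝ) - 1) * (a + b + 2) + 2 * (a + 1)) / (2 * (a + 3)) := by
        apply div_nonneg _ (by positivity)
        apply mul_nonneg hB
        have : 0 ≤ ((a : ℝ) - 1) * (a + b + 2) := mul_nonneg (by linarith) (by positivity)
        linarith
      linarith

theorem key (x y : σ) (hxy : x ≠ y) (α β : ℂ) (q : MvPolynomial σ ℂ) :
    Complex.normSq β / 2 * (Q w (X x * q) + Q w (X y * q))
      ≤ Q w (X x * (C α * (X x * q) + C β * (X y * q))) := by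
  set A := Complex.normSq α with hAdef
  set Bq := Complex.normSq β with hBdef
  have hA : 0 ≤ A := Complex.normSq_nonneg _
  have hB : 0 ≤ Bq := Complex.normSq_nonneg _
  let W : (σ →₀ ℕ) → ℝ := fun m => w (Finsupp.single x 1 + m)
  let W1 : (σ →₀ ℕ) → ℝ := fun m => W m * (A - kap A Bq (m x) (m y) * Bq)
  let W2 : (σ →₀ ℕ) → ℝ := fun m => W m * (Bq - A / kap A Bq (m x) (m y))
  have step1 : Q W1 (X x * q) + Q W2 (X y * q) ≤ Q W (C α * (X x * q) + C β * (X y * q)) := by
    have hs : (C α * (X x * q) + C β * (X y * q)).support ⊆ (X x * q).support ∪ (X y * q).support := by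
      refine MvPolynomial.support_add.trans (Finset.union_subset_union ?_ ?_)
      · rw [C_mul']; exact MvPolynomial.support_smul
      · rw [C_mul']; exact MvPolynomial.support_smul
    rw [Q_eq W _ _ hs, Q_eq W1 _ _ (Finset.subset_union_left (s₂ := (X y * q).support)),
      Q_eq W2 _ _ (Finset.subset_union_right (s₁ := (X x * q).support)), ← Finset.sum_add_distrib]
    refine Finset.sum_le_sum fun m _ => ?_
    rw [coeff_add, coeff_C_mul, coeff_C_mul]
    have hW : 0 < W m := w_pos _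
    have : (A - kap A Bq (m x) (m y) * Bq) * Complex.normSq (coeff m (X x * q))
        + (Bq - A / kap A Bq (m x) (m y)) * Complex.normSq (coeff m (X y * q))
        ≤ Complex.normSq (α * coeff m (X x * q) + β * coeff m (X y * q)) := by
      by_cases ha : m x = 0
      · have h0 : coeff m (X x * q) = 0 := by
          rw [coeff_X_mul', if_neg (by simp [ha])]
        have hk : kap A Bq (m x) (m y) = 0 := by simp [kap, hh, ha]
        rw [h0, hk]
        simp [hBdef]
      by_cases hb : m y = 0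
      · have h0 : coeff m (X y * q) = 0 := by
          rw [coeff_X_mul', if_neg (by simp [hb])]
        have hk : kap A Bq (m x) (m y) = 0 := by simp [kap, hb]
        rw [h0, hk]
        simp [hAdef]
      exact cs α β _ _ _ (kap_pos A Bq _ _ ha hb)
    have := mul_le_mul_of_nonneg_left this hW.le
    simp only [W1, W2]
    linarith
  rw [Q_X_mul w x (C α * (X x * q) + C β * (X y * q))]
  refine le_trans ?_ step1
  rw [Q_X_mul, Q_X_mul, Q_X_mul, Q_X_mul]
  unfold Q
  rw [← Finset.sum_add_distrib, ← Finset.sum_add_distrib, Finset.mul_sum]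
  refine Finset.sum_le_sum fun m _ => ?_
  have hq : 0 ≤ Complex.normSq (coeff m q) := Complex.normSq_nonneg _
  have hw : 0 < w m := w_pos m
  have hs := scalar A Bq hA hB (m x) (m y)
  have := mul_le_mul_of_nonneg_right hs (mul_nonneg hw.le hq)
  simp only [W1, W2, W, w_add, Finsupp.add_apply, Finsupp.single_eq_same,
    Finsupp.single_eq_of_ne hxy, Finsupp.single_eq_of_ne hxy.symm, zero_add, add_comm 1 (m x),
    add_comm 1 (m y)]
  push_cast
  nlinarith [this]

theorem exists_tri (n : ℕ) (A : Matrix (Fin n) (Fin n) ℂ) (hA : A.PosSemidef) :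
    ∃ v : Fin n → Fin n → ℂ, (∀ i k, i < k → v i k = 0) ∧
      A = Matrix.of fun i j => ∑ k, conj (v i k) * v j k := by
  open scoped MatrixOrder in
  obtain ⟨M, rfl⟩ := CStarAlgebra.nonneg_iff_eq_star_mul_self.mp hA.nonneg
  let f : Fin n → EuclideanSpace ℂ (Fin n) := fun j => WithLp.toLp 2 (fun k => M k j)
  have hdim : Module.finrank ℂ (EuclideanSpace ℂ (Fin n)) = Fintype.card (Fin n) := by simp
  let b := InnerProductSpace.gramSchmidtOrthonormalBasis hdim f
  refine ⟨fun j k => inner ℂ (b k) (f j), fun i k hik => ?_, ?_⟩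
  · exact InnerProductSpace.gramSchmidtOrthonormalBasis_inv_triangular hdim f hik
  · ext i j
    simp only [Matrix.of_apply, inner_conj_symm]
    rw [b.sum_inner_mul_inner]
    simp [f, Matrix.mul_apply, PiLp.inner_apply, mul_comm]

end aux

open MvPolynomial Finset Pool.Agent.H5.Fock in
open scoped ComplexConjugate in
/-- For every complex positive semidefinite matrix A of size at least 2, a11·per A(1∣1) − a12·per A(1∣2) − a21·per A(2∣1) + a22·per A(2∣2) is at most 2·per A, comparing real parts since both sides are real. -/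
theorem result :
    ∀ (n : ℕ) (A : Matrix (Fin (n+2)) (Fin (n+2)) ℂ), A.PosSemidef →
      (A 0 0 * (A.submatrix (Fin.succAbove (0 : Fin (n+2))) (Fin.succAbove (0 : Fin (n+2)))).permanent
        - A 0 1 * (A.submatrix (Fin.succAbove (0 : Fin (n+2))) (Fin.succAbove (1 : Fin (n+2)))).permanent
        - A 1 0 * (A.submatrix (Fin.succAbove (1 : Fin (n+2))) (Fin.succAbove (0 : Fin (n+2)))).permanent
        + A 1 1 * (A.submatrix (Fin.succAbove (1 : Fin (n+2))) (Fin.succAbove (1 : Fin (n+2)))).permanent).re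
      ≤ 2 * (A.permanent).re := by
  intro n A hA
  obtain ⟨v, hv, rfl⟩ := exists_tri _ A hA
  have hsub : ∀ r c : Fin (n+2), ((Matrix.of fun i j => ∑ k, conj (v i k) * v j k).submatrix
      r.succAbove c.succAbove).permanent
      = B (∏ i, ell (v (r.succAbove i))) (∏ j, ell (v (c.succAbove j))) := fun r c =>
    perm_gram (n+1) (fun i => v (r.succAbove i)) (fun j => v (c.succAbove j))
  rw [hsub, hsub, hsub, hsub, perm_gram]
  set q : MvPolynomial (Fin (n+2)) ℂ := ∏ i : Fin n, ell (v i.succ.succ) with hq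
  have hv0 : ∀ k : Fin (n+1), v 0 k.succ = 0 := fun k => hv _ _ (Fin.succ_pos k)
  have hv1 : ∀ k : Fin n, v 1 k.succ.succ = 0 := fun k => hv _ _ (by
    rw [Fin.lt_def]; simp)
  have l0 : ell (v 0) = C (v 0 0) * X 0 := by
    unfold ell
    rw [Fin.sum_univ_succ]
    simp [hv0]
  have l1 : ell (v 1) = C (v 1 0) * X 0 + C (v 1 1) * X 1 := by
    unfold ell
    rw [Fin.sum_univ_succ, Fin.sum_univ_succ]
    simp [hv1]
  have p0 : ∏ i, ell (v ((0 : Fin (n+2)).succAbove i)) = C (v 1 0) * (X 0 * q) + C (v 1 1) * (X 1 * q) := by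
    rw [Fin.prod_univ_succ]
    simp only [Fin.succAbove_zero, Fin.succ_zero_eq_one, l1, ← hq]
    ring
  have p1 : ∏ i, ell (v ((1 : Fin (n+2)).succAbove i)) = C (v 0 0) * (X 0 * q) := by
    rw [Fin.prod_univ_succ]
    simp only [Fin.one_succAbove_zero, Fin.one_succAbove_succ, l0, ← hq]
    ring
  have p2 : ∏ i, ell (v i) = C (v 0 0) * (X 0 * (C (v 1 0) * (X 0 * q) + C (v 1 1) * (X 1 * q))) := by
    rw [Fin.prod_univ_succ, Fin.prod_univ_succ]
    simp only [Fin.succ_zero_eq_one, l0, l1, ← hq]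
    ring
  have a00 : ∑ k, conj (v 0 k) * v 0 k = conj (v 0 0) * v 0 0 := by
    rw [Fin.sum_univ_succ]; simp [hv0]
  have a01 : ∑ k, conj (v 0 k) * v 1 k = conj (v 0 0) * v 1 0 := by
    rw [Fin.sum_univ_succ]; simp [hv0]
  have a10 : ∑ k, conj (v 1 k) * v 0 k = conj (v 1 0) * v 0 0 := by
    rw [Fin.sum_univ_succ]; simp [hv0]
  have a11 : ∑ k, conj (v 1 k) * v 1 k = conj (v 1 0) * v 1 0 + conj (v 1 1) * v 1 1 := by
    rw [Fin.sum_univ_succ, Fin.sum_univ_succ]; simp [hv1]
  simp only [Matrix.of_apply]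
  rw [p0, p1, p2, a00, a01, a10, a11]
  have hk := key (0 : Fin (n+2)) 1 (by simp) (v 1 0) (v 1 1) q
  have e1 : conj (v 0 0) * v 0 0 * B (C (v 1 0) * (X 0 * q) + C (v 1 1) * (X 1 * q))
        (C (v 1 0) * (X 0 * q) + C (v 1 1) * (X 1 * q))
      - conj (v 0 0) * v 1 0 * B (C (v 1 0) * (X 0 * q) + C (v 1 1) * (X 1 * q)) (C (v 0 0) * (X 0 * q))
      - conj (v 1 0) * v 0 0 * B (C (v 0 0) * (X 0 * q)) (C (v 1 0) * (X 0 * q) + C (v 1 1) * (X 1 * q))
      + (conj (v 1 0) * v 1 0 + conj (v 1 1) * v 1 1) * B (C (v 0 0) * (X 0 * q)) (C (v 0 0) * (X 0 * q))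
      = ((Complex.normSq (v 0 0) * (Complex.normSq (v 1 1) * (Q w (X 0 * q) + Q w (X 1 * q))) : ℝ) : ℂ) := by
    simp only [B_add_left, B_add_right, B_C_left, B_C_right]
    push_cast
    rw [← B_self, ← B_self, Complex.normSq_eq_conj_mul_self, Complex.normSq_eq_conj_mul_self]
    ring
  rw [e1, B_C_left, B_C_right, B_self, ← mul_assoc (conj (v 0 0)), ← Complex.normSq_eq_conj_mul_self,
    ← Complex.ofReal_mul, Complex.ofReal_re, Complex.ofReal_re]
  have := mul_le_mul_of_nonneg_left hk (Complex.normSq_nonneg (v 0 0))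
  linarith

end Pool.Agent.S01961
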