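import Pool.Statements.S01968

set_option autoImplicit false
open scoped Pointwise
open Pool Pool.MP_77870d_al

namespace Pool.Agent.S01968

/-- finitary permutations -/
def FS (Ω : Type) : Subgroup (Equiv.Perm Ω) where
  carrier := {π | {s | π s ≠ s}.Finite}
  one_mem' := by simp
  mul_mem' := by
    intro a b ha hb
    refine (Set.Finite.union ha hb).subset ?_
    intro s hs
    by_contra hc
    simp only [Set.mem_union, Set.mem_setOf_eq, not_or, not_not] at hc
    apply hs
    rw [Equiv.Perm.mul_apply, hc.2, hc.1]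
  inv_mem' := by
    intro a ha
    refine Set.Finite.subset ha ?_
    intro s hs h
    apply hs
    rw [Equiv.Perm.inv_eq_iff_eq]
    exact h.symm

lemma FS_tors (Ω : Type) : Monoid.IsTorsion (FS Ω) := by
  classical
  rintro ⟨π, hπ⟩
  have hπ' : {s | π s ≠ s}.Finite := hπ
  have h1 : ∀ x, π (π x) ≠ π x ↔ π x ≠ x := fun x => π.injective.ne_iff
  haveI : Finite {x // π x ≠ x} := hπ'
  have h2 : IsOfFinOrder (π.subtypePerm (p := fun x => π x ≠ x) h1) := isOfFinOrder_of_finite _
  have h3 := MonoidHom.isOfFinOrder Equiv.Perm.ofSubtype h2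
  rw [Equiv.Perm.ofSubtype_subtypePerm h1 (fun _ h => h)] at h3
  exact (FS Ω).subtype_injective.isOfFinOrder_iff.1 h3

def sw {Ω : Type} [DecidableEq Ω] (a b : Ω) : FS Ω := ⟨Equiv.swap a b, by
  refine ((Set.finite_singleton b).insert a).subset ?_
  intro s hs
  by_contra hc
  simp only [Set.mem_insert_iff, Set.mem_singleton_iff, not_or] at hc
  exact hs (Equiv.swap_apply_of_ne_of_ne hc.1 hc.2)⟩

lemma sw_val {Ω : Type} [DecidableEq Ω] (a b : Ω) : (sw a b).1 = Equiv.swap a b := rfl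

abbrev Lt : Type := Option ℕ
abbrev W : Type := FreeSemigroup Lt

def wl (u : W) : List Lt := u.head :: u.tail

lemma wl_mul (u v : W) : wl (u * v) = wl u ++ wl v := rfl

/-- the free part -/
def U : W →ₙ* Set (FS (List Lt)) := FreeSemigroup.lift fun l =>
  {π | ∀ w, π.1 w = l :: w ∨ (π.1 w).length ≤ w.length}

lemma U_of (l : Lt) : U (FreeSemigroup.of l) =
    {π | ∀ w, π.1 w = l :: w ∨ (π.1 w).length ≤ w.length} := rfl

lemma U_bound (u : W) : ∀ π ∈ U u, ∀ w,
    π.1 w = wl u ++ w ∨ (π.1 w).length < (wl u).length + w.length := by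
  induction u using FreeSemigroup.recOnMul with
  | ih1 l =>
    intro π hπ w
    rcases hπ w with h | h
    · exact Or.inl h
    · right
      simp only [wl, List.length_cons]
      omega
  | ih2 l v h1 h2 =>
    intro π hπ w
    rw [map_mul] at hπ
    obtain ⟨a, ha, b, hb, rfl⟩ := hπ
    have e : (a * b).1 w = a.1 (b.1 w) := rfl
    have e1 : (wl (FreeSemigroup.of l)).length = 1 := rfl
    rw [e, wl_mul, List.length_append]
    rcases h2 b hb w with h | h
    · rcases h1 a ha (b.1 w) with h' | h'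
      · left; rw [h', h, List.append_assoc]
      · right; rw [h, List.length_append] at h'; rw [h]; omega
    · right
      rcases h1 a ha (b.1 w) with h' | h'
      · rw [h', List.length_append]; omega
      · omega

lemma U_ex (u : W) : ∀ w, ∃ π ∈ U u, π.1 w = wl u ++ w := by
  have h0 : ∀ l w, ∃ π ∈ U (FreeSemigroup.of l), π.1 w = wl (FreeSemigroup.of l) ++ w := by
    intro l w
    refine ⟨sw w (l :: w), ?_, Equiv.swap_apply_left _ _⟩
    intro w'
    rw [sw_val, Equiv.swap_apply_def]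
    split_ifs with h1 h2
    · left; rw [h1]; rfl
    · right; rw [h2]; simp
    · right; exact le_rfl
  induction u using FreeSemigroup.recOnMul with
  | ih1 l => exact h0 l
  | ih2 l v h1 h2 =>
    intro w
    obtain ⟨b, hb, hb'⟩ := h2 w
    obtain ⟨a, ha, ha'⟩ := h1 (wl v ++ w)
    refine ⟨a * b, by rw [map_mul]; exact Set.mul_mem_mul ha hb, ?_⟩
    have e : (a * b).1 w = a.1 (b.1 w) := rfl
    rw [e, hb', ha', wl_mul, List.append_assoc]

lemma U_ne (u : W) : (U u).Nonempty := by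
  obtain ⟨π, h, _⟩ := U_ex u []
  exact ⟨π, h⟩

lemma U_inj {u v : W} (h : U u = U v) : u = v := by
  have hw : wl u = wl v := by
    obtain ⟨a, ha, ha'⟩ := U_ex u []
    obtain ⟨b, hb, hb'⟩ := U_ex v []
    have h1 := U_bound v a (h ▸ ha) []
    have h2 := U_bound u b (h ▸ hb) []
    rw [ha'] at h1
    rw [hb'] at h2
    simp only [List.append_nil, List.length_nil, add_zero] at h1 h2
    rcases h1 with h1 | h1
    · exact h1
    · rcases h2 with h2 | h2
      · exact h2.symm
      · omega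
  obtain ⟨a, b⟩ := u
  obtain ⟨c, d⟩ := v
  simp only [wl, List.cons.injEq] at hw
  rw [hw.1, hw.2]

lemma U_ne_univ (u : W) : U u ≠ Set.univ := by
  intro h
  have h1 := U_bound u (sw [] (none :: wl u)) (h ▸ Set.mem_univ _) []
  rw [sw_val, Equiv.swap_apply_left] at h1
  rcases h1 with h1 | h1
  · have := congrArg List.length h1
    simp at this
  · simp at h1

def step : Lt → Option ℕ → Option ℕ
  | _, none => none
  | none, some n => some (n + 1)
  | some k, some n => if n = k then some 0 else none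

def act : W →ₙ* Function.End (Option ℕ) := FreeSemigroup.lift step

lemma act_none (u : W) : act u none = none := by
  induction u using FreeSemigroup.recOnMul with
  | ih1 l => cases l <;> rfl
  | ih2 l v h1 h2 =>
    rw [map_mul]
    change act (FreeSemigroup.of l) (act v none) = none
    rw [h2, h1]

/-- the semigroup -/
def S : Type := Option ℕ ⊕ W

instance : Semigroup S where
  mul
    | Sum.inl _, _ => Sum.inl none
    | Sum.inr u, Sum.inl p => Sum.inl (act u p)
    | Sum.inr u, Sum.inr v => Sum.inr (u * v)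
  mul_assoc := by
    rintro (p | u) (q | v) (r | w)
    · rfl
    · rfl
    · rfl
    · rfl
    · exact congrArg Sum.inl (act_none u).symm
    · exact congrArg Sum.inl (act_none u).symm
    · refine congrArg Sum.inl ?_
      rw [map_mul]
      rfl
    · exact congrArg Sum.inr (mul_assoc u v w)

def sa (p : Option ℕ) : S := Sum.inl p
def st (u : W) : S := Sum.inr u

lemma sa_mul (p : Option ℕ) (s : S) : sa p * s = sa none := rfl
lemma st_sa (u : W) (p : Option ℕ) : st u * sa p = sa (act u p) := rfl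
lemma st_st (u v : W) : st u * st v = st (u * v) := rfl

abbrev Ω : Type := ℕ ⊕ ℕ

def cyc (r : ℕ) : Equiv.Perm ℕ where
  toFun i := if i < r then i + 1 else if i = r then 0 else i
  invFun i := if i = 0 then r else if i ≤ r then i - 1 else i
  left_inv i := by
    simp only
    split_ifs <;> first | omega | contradiction
  right_inv i := by
    simp only
    split_ifs <;> first | omega | contradiction

def cy (r : ℕ) : FS Ω := ⟨Equiv.Perm.sumCongr (cyc r) 1, by
  refine ((Set.finite_Iic r).image Sum.inl).subset ?_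
  rintro (i | i) hs
  · refine ⟨i, ?_, rfl⟩
    by_contra hc
    apply hs
    simp only [Set.mem_Iic, not_le] at hc
    change Sum.inl (if i < r then i + 1 else if i = r then 0 else i) = Sum.inl i
    rw [if_neg (by omega), if_neg (by omega)]
  · exact absurd rfl hs⟩

lemma cy_inl (r i : ℕ) :
    (cy r).1 (Sum.inl i) = Sum.inl (if i < r then i + 1 else if i = r then 0 else i) := rfl
lemma cy_inr (r i : ℕ) : (cy r).1 (Sum.inr i) = Sum.inr i := rfl

def B (k : ℕ) : Set Ω := {s | s = Sum.inl k ∨ ∃ r, s = Sum.inr r}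

def XL (N : ℕ) : Lt → Set (FS Ω)
  | none => {π | (∀ r, ∃ r', π.1 (Sum.inr r) = Sum.inr r') ∧
      (∀ i < N, π.1 (Sum.inl i) = Sum.inl (i + 1)) ∧
      ∀ i, ∃ j ≤ i + 1, π.1 (Sum.inl i) = Sum.inl j}
  | some k => {π | ∀ s, π.1 s ∈ B 0 ↔ s ∈ B k}

def im (Z : Set (FS Ω)) (T : Set Ω) : Set Ω := {y | ∃ π ∈ Z, ∃ s ∈ T, π.1 s = y}

def Sn (N : ℕ) : ℕ → Set Ω
  | 0 => B 0
  | n + 1 => im (XL N none) (Sn N n)

def Sg (N : ℕ) : Option ℕ → Set Ω
  | none => Set.univ
  | some n => Sn N n

def A (T : Set Ω) : Set (FS Ω) := {g | g.1 (Sum.inr 0) ∈ T}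

lemma mul_A (Z : Set (FS Ω)) (T : Set Ω) : Z * A T = A (im Z T) := by
  ext h
  constructor
  · rintro ⟨π, hπ, g, hg, rfl⟩
    exact ⟨π, hπ, _, hg, rfl⟩
  · rintro ⟨π, hπ, s, hs, h1⟩
    refine ⟨π, hπ, π⁻¹ * h, ?_, by simp⟩
    change (π.1)⁻¹ (h.1 (Sum.inr 0)) ∈ T
    rw [← h1]
    simpa using hs

lemma A_mul (Z : Set (FS Ω)) (T : Set Ω) (hT : ∀ r, Sum.inr r ∈ T)
    (hZ : ∀ r, ∃ π ∈ Z, π.1 (Sum.inr r) = Sum.inr 0) : A T * Z = Set.univ := by
  refine Set.eq_univ_of_forall fun h => ?_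
  have h1 : {s | h.1 s ≠ s}.Finite := h.2
  have h2 : (Sum.inr ⁻¹' {s | h.1 s ≠ s} : Set ℕ).Finite :=
    h1.preimage Sum.inr_injective.injOn
  obtain ⟨r, hr⟩ := h2.exists_notMem
  simp only [Set.mem_preimage, Set.mem_setOf_eq, not_not] at hr
  obtain ⟨π, hπ, hπ'⟩ := hZ r
  refine ⟨h * π⁻¹, ?_, π, hπ, by simp⟩
  change h.1 ((π.1)⁻¹ (Sum.inr 0)) ∈ T
  rw [← hπ']
  simp only [Equiv.Perm.coe_inv, Equiv.symm_apply_apply]
  rw [hr]
  exact hT r

lemma cy_mem (N r : ℕ) (h : N ≤ r) : cy r ∈ XL N none := by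
  refine ⟨fun i => ⟨i, rfl⟩, fun i hi => ?_, fun i => ?_⟩
  · rw [cy_inl, if_pos (by omega)]
  · rw [cy_inl]
    refine ⟨_, ?_, rfl⟩
    split_ifs <;> omega

lemma Sn_R (N n r : ℕ) : Sum.inr r ∈ Sn N n := by
  induction n with
  | zero => exact Or.inr ⟨r, rfl⟩
  | succ n ih => exact ⟨cy N, cy_mem N N le_rfl, _, ih, rfl⟩

lemma Sg_R (N : ℕ) (p : Option ℕ) (r : ℕ) : Sum.inr r ∈ Sg N p := by
  cases p with
  | none => trivial
  | some n => exact Sn_R N n r

lemma Sn_top (N n : ℕ) : Sum.inl n ∈ Sn N n := by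
  induction n with
  | zero => exact Or.inl rfl
  | succ n ih =>
    refine ⟨cy (N + n + 1), cy_mem N _ (by omega), _, ih, ?_⟩
    rw [cy_inl, if_pos (by omega)]

lemma Sn_le (N n : ℕ) : ∀ m, Sum.inl m ∈ Sn N n → m ≤ n := by
  induction n with
  | zero =>
    rintro m (h | ⟨r, h⟩)
    · exact (Sum.inl.inj h).le
    · cases h
  | succ n ih =>
    rintro m ⟨π, hπ, s | s, hs, h⟩
    · obtain ⟨j, hj, hj'⟩ := hπ.2.2 s
      have := ih s hs
      rw [hj'] at h
      have := Sum.inl.inj h
      omega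
    · obtain ⟨j, hj⟩ := hπ.1 s
      rw [hj] at h
      cases h

lemma Sn_eq (N n : ℕ) (h : n ≤ N) : Sn N n = B n := by
  induction n with
  | zero => rfl
  | succ n ih =>
    apply Set.Subset.antisymm
    · rintro y ⟨π, hπ, s, hs, rfl⟩
      rw [ih (by omega)] at hs
      rcases hs with rfl | ⟨r, rfl⟩
      · exact Or.inl (hπ.2.1 n (by omega))
      · exact Or.inr (hπ.1 r)
    · rintro y (rfl | ⟨r, rfl⟩)
      · exact Sn_top N _
      · exact Sn_R N _ r

lemma Sg_inj (N : ℕ) {p q : Option ℕ} (h : Sg N p = Sg N q) : p = q := by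
  cases p with
  | none =>
    cases q with
    | none => rfl
    | some n =>
      have := Sn_le N n (n + 1) (by change _ ∈ Sg N (some n); rw [← h]; trivial)
      omega
  | some m =>
    cases q with
    | none =>
      have := Sn_le N m (m + 1) (by change _ ∈ Sg N (some m); rw [h]; trivial)
      omega
    | some n =>
      have h' : Sn N m = Sn N n := h
      have h1 := Sn_le N n m (h' ▸ Sn_top N m)
      have h2 := Sn_le N m n (h' ▸ Sn_top N n)
      rw [le_antisymm h1 h2]

lemma A_inj {T T' : Set Ω} (h : A T = A T') : T = T' := by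
  ext s
  have : sw (Sum.inr 0) s ∈ A T ↔ sw (Sum.inr 0) s ∈ A T' := by rw [h]
  simpa [A, sw_val] using this

lemma sw_Y {k : ℕ} {N : ℕ} {π : FS Ω} (hπ : π ∈ XL N (some k)) (a b : Ω)
    (hab : a ∈ B 0 ↔ b ∈ B 0) : sw a b * π ∈ XL N (some k) := by
  intro s
  rw [← hπ s]
  change Equiv.swap a b (π.1 s) ∈ B 0 ↔ _
  rw [Equiv.swap_apply_def]
  split_ifs with h1 h2
  · rw [h1, hab]
  · rw [h2, hab]
  · rfl

lemma Y0 (N k : ℕ) : sw (Sum.inl k) (Sum.inl 0) ∈ XL N (some k) := by
  intro s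
  rw [sw_val, Equiv.swap_apply_def]
  split_ifs with h1 h2
  · simp [B, h1]
  · subst h2
    simp only [B, Set.mem_setOf_eq, Sum.inl.injEq, reduceCtorEq, exists_false, or_false]
    exact eq_comm
  · simp [B, h1, h2]

lemma inr_B (k r : ℕ) : (Sum.inr r : Ω) ∈ B k := Or.inr ⟨r, rfl⟩

lemma Y0_inr (k r : ℕ) : (sw (Sum.inl k : Ω) (Sum.inl 0)).1 (Sum.inr r) = Sum.inr r :=
  Equiv.swap_apply_of_ne_of_ne (by simp) (by simp)

lemma im_Y (N k : ℕ) (T : Set Ω) (hT : ∀ r, Sum.inr r ∈ T) (n : ℕ) (hn : n ≠ k)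
    (hn' : Sum.inl n ∈ T) : im (XL N (some k)) T = Set.univ := by
  refine Set.eq_univ_of_forall fun y => ?_
  by_cases hy : y ∈ B 0
  · refine ⟨_, sw_Y (Y0 N k) (Sum.inr 0) y (by simp [hy, inr_B]), _, hT 0, ?_⟩
    change Equiv.swap (Sum.inr 0) y ((sw (Sum.inl k : Ω) (Sum.inl 0)).1 (Sum.inr 0)) = y
    rw [Y0_inr, Equiv.swap_apply_left]
  · have h1 : (sw (Sum.inl k : Ω) (Sum.inl 0)).1 (Sum.inl n) ∉ B 0 := by
      rw [Y0 N k]
      simp [B, hn]
    refine ⟨_, sw_Y (Y0 N k) _ y (iff_of_false h1 hy), _, hn', ?_⟩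
    exact Equiv.swap_apply_left _ _

def ok (N : ℕ) (l : Lt) : Prop := ∀ k, l = some k → k ≤ N

lemma im_step (N : ℕ) (l : Lt) (hl : ok N l) (p : Option ℕ) :
    im (XL N l) (Sg N p) = Sg N (step l p) := by
  cases p with
  | none =>
    have : step l none = none := by cases l <;> rfl
    rw [this]
    cases l with
    | none =>
      refine Set.eq_univ_of_forall fun y => ⟨cy N, cy_mem N N le_rfl, (cy N).1⁻¹ y, trivial, ?_⟩
      simp
    | some k => exact im_Y N k _ (fun _ => trivial) (k + 1) (by omega) trivial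
  | some n =>
    cases l with
    | none => rfl
    | some k =>
      by_cases h : n = k
      · subst h
        have : step (some n) (some n) = some 0 := by simp [step]
        rw [this]
        change im _ (Sn N n) = B 0
        rw [Sn_eq N n (hl n rfl)]
        apply Set.Subset.antisymm
        · rintro y ⟨π, hπ, s, hs, rfl⟩
          exact (hπ s).2 hs
        · intro y hy
          refine ⟨_, Y0 N n, (sw (Sum.inl n : Ω) (Sum.inl 0)).1⁻¹ y, ?_, by simp⟩
          rw [← Y0 N n]
          simpa using hy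
      · have : step (some k) (some n) = none := by simp [step, h]
        rw [this]
        exact im_Y N k _ (Sn_R N n) n h (Sn_top N n)

lemma XL_hit (N : ℕ) (l : Lt) (r : ℕ) : ∃ π ∈ XL N l, π.1 (Sum.inr r) = Sum.inr 0 := by
  cases l with
  | none =>
    refine ⟨sw (Sum.inr r) (Sum.inr 0) * cy N, ⟨fun i => ?_, fun i hi => ?_, fun i => ?_⟩,
      Equiv.swap_apply_left _ _⟩
    · change ∃ r', Equiv.swap (Sum.inr r : Ω) (Sum.inr 0) (Sum.inr i) = _
      rw [Equiv.swap_apply_def]
      split_ifs <;> exact ⟨_, rfl⟩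
    · change Equiv.swap (Sum.inr r : Ω) (Sum.inr 0) ((cy N).1 (Sum.inl i)) = _
      rw [(cy_mem N N le_rfl).2.1 i hi]
      exact Equiv.swap_apply_of_ne_of_ne (by simp) (by simp)
    · obtain ⟨j, hj, hj'⟩ := (cy_mem N N le_rfl).2.2 i
      refine ⟨j, hj, ?_⟩
      change Equiv.swap (Sum.inr r : Ω) (Sum.inr 0) ((cy N).1 (Sum.inl i)) = _
      rw [hj']
      exact Equiv.swap_apply_of_ne_of_ne (by simp) (by simp)
  | some k =>
    refine ⟨_, sw_Y (Y0 N k) (Sum.inr r) (Sum.inr 0) (by simp [inr_B]), ?_⟩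
    change Equiv.swap _ _ ((sw (Sum.inl k : Ω) (Sum.inl 0)).1 (Sum.inr r)) = _
    rw [Y0_inr, Equiv.swap_apply_left]

def X (N : ℕ) : W →ₙ* Set (FS Ω) := FreeSemigroup.lift (XL N)

lemma X_ne (N : ℕ) (u : W) : (X N u).Nonempty := by
  have h0 : ∀ l, (X N (FreeSemigroup.of l)).Nonempty := fun l => by
    obtain ⟨π, h, _⟩ := XL_hit N l 0
    exact ⟨π, h⟩
  induction u using FreeSemigroup.recOnMul with
  | ih1 l => exact h0 l
  | ih2 l v h1 h2 => rw [map_mul]; exact h1.mul h2

lemma X_A (N : ℕ) (u : W) : (∀ l ∈ wl u, ok N l) → ∀ p,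
    X N u * A (Sg N p) = A (Sg N (act u p)) := by
  induction u using FreeSemigroup.recOnMul with
  | ih1 l =>
    intro h p
    rw [mul_A]
    exact congrArg A (im_step N l (h l (by simp [wl])) p)
  | ih2 l v h1 h2 =>
    intro h p
    rw [wl_mul] at h
    rw [map_mul, mul_assoc, h2 (fun l' hl => h l' (List.mem_append_right _ hl)),
      h1 (fun l' hl => h l' (List.mem_append_left _ hl)), map_mul]
    rfl

lemma A_X (N : ℕ) (u : W) (p : Option ℕ) : A (Sg N p) * X N u = Set.univ := by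
  induction u using FreeSemigroup.recOnMul with
  | ih1 l => exact A_mul _ _ (Sg_R N p) (XL_hit N l)
  | ih2 l v h1 _ => rw [map_mul, ← mul_assoc, h1, Set.univ_mul (X_ne N v)]

lemma A_A (N : ℕ) (p q : Option ℕ) : A (Sg N p) * A (Sg N q) = Set.univ :=
  A_mul _ _ (Sg_R N p) fun r => ⟨sw (Sum.inr 0) (Sum.inr r), by
    change Equiv.swap (Sum.inr 0 : Ω) (Sum.inr r) (Sum.inr 0) ∈ Sg N q
    rw [Equiv.swap_apply_left]
    exact Sg_R N q r, Equiv.swap_apply_right _ _⟩

def Φ (N : ℕ) : S → Set (FS Ω × FS (List Lt))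
  | Sum.inl p => A (Sg N p) ×ˢ Set.univ
  | Sum.inr u => X N u ×ˢ U u

def good (N : ℕ) : Subsemigroup S where
  carrier := {s | ∀ u, s = st u → ∀ l ∈ wl u, ok N l}
  mul_mem' := by
    rintro (p | u) (q | v) h1 h2 w hw
    · cases hw
    · cases hw
    · cases hw
    · have : u * v = w := Sum.inr.inj hw
      subst this
      intro l hl
      rw [wl_mul, List.mem_append] at hl
      rcases hl with hl | hl
      · exact h1 u rfl l hl
      · exact h2 v rfl l hl

lemma A_univ : A Set.univ = Set.univ := rfl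

lemma Φ_mul (N : ℕ) (s t : S) (hs : s ∈ good N) : Φ N (s * t) = Φ N s * Φ N t := by
  rcases s with p | u <;> rcases t with q | v
  · change A (Sg N none) ×ˢ Set.univ = (A (Sg N p) ×ˢ Set.univ) * (A (Sg N q) ×ˢ Set.univ)
    rw [Set.prod_mul_prod_comm, A_A, Set.univ_mul_univ]
    rfl
  · change A (Sg N none) ×ˢ Set.univ = (A (Sg N p) ×ˢ Set.univ) * (X N v ×ˢ U v)
    rw [Set.prod_mul_prod_comm, A_X, Set.univ_mul (U_ne v)]
    rfl
  · change A (Sg N (act u q)) ×ˢ Set.univ = (X N u ×ˢ U u) * (A (Sg N q) ×ˢ Set.univ)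
    rw [Set.prod_mul_prod_comm, X_A N u (hs u rfl), Set.mul_univ (U_ne u)]
  · change X N (u * v) ×ˢ U (u * v) = (X N u ×ˢ U u) * (X N v ×ˢ U v)
    rw [Set.prod_mul_prod_comm, map_mul, map_mul]

lemma A_ne (N : ℕ) (p : Option ℕ) : (A (Sg N p)).Nonempty := ⟨1, Sg_R N p 0⟩

lemma Φ_inj (N : ℕ) : Function.Injective (Φ N) := by
  rintro (p | u) (q | v) h
  · have h' : A (Sg N p) ×ˢ (Set.univ : Set (FS (List Lt))) = A (Sg N q) ×ˢ Set.univ := h
    rw [Set.prod_eq_prod_iff_of_nonempty ((A_ne N p).prod Set.univ_nonempty)] at h'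
    rw [Sg_inj N (A_inj h'.1)]
  · have h' : A (Sg N p) ×ˢ (Set.univ : Set (FS (List Lt))) = X N v ×ˢ U v := h
    rw [Set.prod_eq_prod_iff_of_nonempty ((A_ne N p).prod Set.univ_nonempty)] at h'
    exact absurd h'.2.symm (U_ne_univ v)
  · have h' : X N u ×ˢ U u = A (Sg N q) ×ˢ (Set.univ : Set (FS (List Lt))) := h
    rw [Set.prod_eq_prod_iff_of_nonempty ((X_ne N u).prod (U_ne u))] at h'
    exact absurd h'.2 (U_ne_univ u)
  · have h' : X N u ×ˢ U u = X N v ×ˢ U v := h
    rw [Set.prod_eq_prod_iff_of_nonempty ((X_ne N u).prod (U_ne u))] at h'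
    rw [U_inj h'.2]

lemma ev_good (s : S) : ∀ᶠ N in Filter.atTop, s ∈ good N := by
  rcases s with p | u
  · exact Filter.Eventually.of_forall fun N w hw => by cases hw
  · have : ∀ᶠ N in Filter.atTop, ∀ l ∈ {l | l ∈ wl u}, ok N l := by
      rw [Filter.eventually_all_finite (List.finite_toSet _)]
      intro l _
      cases l with
      | none => exact Filter.Eventually.of_forall fun N k hk => by cases hk
      | some k =>
        filter_upwards [Filter.eventually_ge_atTop k] with N hN k' hk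
        rw [← Option.some.inj hk]; exact hN
    filter_upwards [this] with N hN w hw
    have : u = w := Sum.inr.inj hw
    subst this
    exact hN


/-- The negation of the preceding statement: For every semigroup S: if each finitely generated subsemigroup of S embeds into the semigroup of all subsets of some torsion group, then S itself embeds into the semigroup of all subsets of some torsion group. -/
theorem result :
    ¬ (∀ (S : Type) [Semigroup S],
      (∀ T : Subsemigroup S, (∃ F : Finset S, Subsemigroup.closure (F : Set S) = T) →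
        ∃ (G : Type) (_ : Group G), Monoid.IsTorsion G ∧
          ∃ f : T →ₙ* Set G, Function.Injective f) →
      ∃ (G : Type) (_ : Group G), Monoid.IsTorsion G ∧
        ∃ f : S →ₙ* Set G, Function.Injective f) := by
  intro h
  obtain ⟨G, _, hG, f, hf⟩ := h S (by
    rintro T ⟨F, rfl⟩
    have h1 : ∀ᶠ N in Filter.atTop, ∀ s ∈ (F : Set S), s ∈ good N := by
      rw [Filter.eventually_all_finite F.finite_toSet]
      exact fun s _ => ev_good s
    obtain ⟨N, hN⟩ := h1.exists
    have h2 : Subsemigroup.closure (F : Set S) ≤ good N := Subsemigroup.closure_le.2 hN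
    refine ⟨FS Ω × FS (List Lt), inferInstance, ?_, ⟨fun s => Φ N s.1, fun s t => Φ_mul N _ _ (h2 s.2)⟩,
      (Φ_inj N).comp Subtype.val_injective⟩
    rintro ⟨a, b⟩
    exact IsOfFinOrder.prod_mk (FS_tors _ a) (FS_tors _ b))
  have hne : ∀ s : S, s ≠ sa none → (f s).Nonempty := by
    intro s hs
    rw [Set.nonempty_iff_ne_empty]
    intro h0
    apply hs
    apply hf
    rw [← sa_mul none s, map_mul, h0, Set.mul_empty]
  obtain ⟨x, hx⟩ := hne (st (FreeSemigroup.of none)) (by intro h; cases h)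
  have hpow : ∀ n, f (sa (some (n + 1))) = f (st (FreeSemigroup.of none)) ^ (n + 1) * f (sa (some 0)) := by
    intro n
    induction n with
    | zero => rw [zero_add, pow_one, ← map_mul]; rfl
    | succ n ih => rw [pow_succ', mul_assoc, ← ih, ← map_mul]; rfl
  obtain ⟨m, hm, hxm⟩ := isOfFinOrder_iff_pow_eq_one.1 (hG x)
  obtain ⟨n, rfl⟩ : ∃ n, m = n + 1 := ⟨m - 1, by omega⟩
  have h1 : (1 : G) ∈ f (st (FreeSemigroup.of none)) ^ (n + 1) := hxm ▸ Set.pow_mem_pow hx
  obtain ⟨y, hy⟩ := hne (st (FreeSemigroup.of (some (n + 1)))) (by intro h; cases h)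
  have h2 : f (st (FreeSemigroup.of (some (n + 1)))) * f (sa (some (n + 1))) = f (sa (some 0)) := by
    rw [← map_mul, st_sa]
    congr 2
    change step (some (n + 1)) (some (n + 1)) = some 0
    simp [step]
  have h3 : f (sa (some 0)) ⊆ f (sa (some (n + 1))) := by
    intro a ha
    rw [hpow]
    exact ⟨1, h1, a, ha, one_mul a⟩
  have h4 : ∀ a ∈ f (sa (some (n + 1))), y * a ∈ f (sa (some 0)) := fun a ha =>
    h2 ▸ Set.mul_mem_mul hy ha
  have h5 : ∀ k, ∀ a ∈ f (sa (some (n + 1))), y ^ (k + 1) * a ∈ f (sa (some 0)) := by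
    intro k
    induction k with
    | zero => simpa using h4
    | succ k ih =>
      intro a ha
      rw [pow_succ', mul_assoc]
      exact h4 _ (h3 (ih a ha))
  obtain ⟨k, hk, hyk⟩ := isOfFinOrder_iff_pow_eq_one.1 (hG y)
  obtain ⟨k', rfl⟩ : ∃ k', k = k' + 1 := ⟨k - 1, by omega⟩
  have h6 : f (sa (some (n + 1))) = f (sa (some 0)) := by
    refine Set.Subset.antisymm (fun a ha => ?_) h3
    have := h5 k' a ha
    rwa [hyk, one_mul] at this
  have h7 := hf h6
  have h8 : some (n + 1) = some 0 := Sum.inl.inj h7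
  simp at h8

end Pool.Agent.S01968
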