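import Pool.Statements.S01976

set_option autoImplicit false
open Pool Pool.MP_783016_al

namespace Pool.Agent.S01976

open Polynomial

abbrev B : Type := Polynomial (ZMod 2)
abbrev T : Type := Polynomial B
abbrev S : Type := T × T × T × T

/-- The ring B + uN + u^2 B^4[u], a subalgebra of (B[u])^4. -/
noncomputable def R : Subalgebra T S where
  carrier := {f | f.1.coeff 0 = f.2.2.2.coeff 0 ∧ f.2.1.coeff 0 = f.2.2.2.coeff 0 ∧
    f.2.2.1.coeff 0 = f.2.2.2.coeff 0 ∧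
    f.1.coeff 1 - f.2.1.coeff 1 - f.2.2.1.coeff 1 + f.2.2.2.coeff 1 = 0}
  mul_mem' := by
    rintro ⟨a1, a2, a3, a4⟩ ⟨b1, b2, b3, b4⟩ ⟨h1, h2, h3, h4⟩ ⟨g1, g2, g3, g4⟩
    simp only [Set.mem_ofPred_eq, Prod.mk_mul_mk, mul_coeff_zero, mul_coeff_one] at *
    refine ⟨by rw [h1, g1], by rw [h2, g2], by rw [h3, g3], ?_⟩
    rw [h1, h2, h3, g1, g2, g3]
    linear_combination (a4.coeff 0) * g4 + (b4.coeff 0) * h4
  add_mem' := by
    rintro ⟨a1, a2, a3, a4⟩ ⟨b1, b2, b3, b4⟩ ⟨h1, h2, h3, h4⟩ ⟨g1, g2, g3, g4⟩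
    simp only [Set.mem_ofPred_eq, Prod.mk_add_mk, coeff_add] at *
    refine ⟨by rw [h1, g1], by rw [h2, g2], by rw [h3, g3], ?_⟩
    linear_combination g4 + h4
  algebraMap_mem' := by
    intro r
    simp [Prod.algebraMap_apply]

instance : IsNoetherianRing R := by
  have h : IsNoetherian T R := isNoetherian_submodule' R.toSubmodule
  exact isNoetherian_of_tower T h

theorem mem_R (f : S) : f ∈ R ↔ (f.1.coeff 0 = f.2.2.2.coeff 0 ∧ f.2.1.coeff 0 = f.2.2.2.coeff 0 ∧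
    f.2.2.1.coeff 0 = f.2.2.2.coeff 0 ∧
    f.1.coeff 1 - f.2.1.coeff 1 - f.2.2.1.coeff 1 + f.2.2.2.coeff 1 = 0) := Iff.rfl

noncomputable def w (j m : ℕ) : S :=
  (X ^ j * C ((1 + X) ^ m), X ^ j, X ^ j * C (X ^ m), 0)

theorem w_mem (j m : ℕ) (hj : 2 ≤ j) : w j m ∈ R := by
  rw [mem_R]
  have h0 : ¬ (0 = j) := by omega
  have h1 : ¬ (1 = j) := by omega
  simp only [w, coeff_mul_C, coeff_X_pow, if_neg h0, if_neg h1, coeff_zero]
  simp

theorem w_mem_one (m : ℕ) : w 1 m ∈ R ↔ ((1 + X : B) ^ m = 1 + X ^ m) := by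
  rw [mem_R]
  simp only [w, coeff_mul_C, coeff_X_pow, coeff_zero]
  simp only [zero_ne_one, if_false, if_true, zero_mul, one_mul, true_and, add_zero]
  constructor
  · intro h; linear_combination h
  · intro h; linear_combination h

noncomputable def u : R := algebraMap T R X
noncomputable def x : R := ⟨w 2 1, w_mem 2 1 le_rfl⟩

theorem u_pow (n : ℕ) : ((u ^ n : R) : S) = (X ^ n, X ^ n, X ^ n, X ^ n) := by
  simp [u, Prod.algebraMap_apply]

theorem x_pow (m : ℕ) (hm : 1 ≤ m) : ((x ^ m : R) : S) = w (2 * m) m := by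
  have : m ≠ 0 := by omega
  simp [x, w, mul_pow, ← pow_mul, this]
  ring

theorem key (m n : ℕ) (hm : 1 ≤ m) :
    (Ideal.span {x}) ^ m ≤ (Ideal.span {u}) ^ n ↔ (n ≤ 2 * m ∧ w (2 * m - n) m ∈ R) := by
  rw [Ideal.span_singleton_pow, Ideal.span_singleton_pow, Ideal.span_singleton_le_span_singleton]
  constructor
  · rintro ⟨⟨⟨s1, s2, s3, s4⟩, hs⟩, h⟩
    have h' := congrArg (fun r : R => (r : S)) h
    simp only [Subalgebra.coe_mul, x_pow m hm, u_pow, w, Prod.mk_mul_mk, Prod.mk.injEq] at h'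
    obtain ⟨h1, h2, h3, h4⟩ := h'
    have hX : (X : T) ^ n ≠ 0 := pow_ne_zero _ X_ne_zero
    have hn : n ≤ 2 * m := by
      have hd : (X : T) ^ n ∣ X ^ (2 * m) := ⟨s2, h2⟩
      exact (pow_dvd_pow_iff X_ne_zero not_isUnit_X).1 hd
    refine ⟨hn, ?_⟩
    have e : (X : T) ^ (2 * m) = X ^ n * X ^ (2 * m - n) := by
      rw [← pow_add]; congr 1; omega
    rw [e] at h1 h2 h3
    rw [mul_assoc] at h1 h3
    have e1 := mul_left_cancel₀ hX h1
    have e2 := mul_left_cancel₀ hX h2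
    have e3 := mul_left_cancel₀ hX h3
    have e4 : s4 = 0 := by
      rcases mul_eq_zero.1 h4.symm with h | h
      · exact absurd h hX
      · exact h
    unfold w
    rw [e1, e3, e2, ← e4]
    exact hs
  · rintro ⟨hn, hw⟩
    refine ⟨⟨_, hw⟩, ?_⟩
    apply Subtype.ext
    have e : (X : T) ^ (2 * m) = X ^ n * X ^ (2 * m - n) := by
      rw [← pow_add]; congr 1; omega
    simp only [Subalgebra.coe_mul, x_pow m hm, u_pow, w, Prod.mk_mul_mk, e, mul_assoc, mul_zero]

theorem w_zero_not (m : ℕ) : w 0 m ∉ R := by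
  rw [mem_R]
  simp [w]

theorem v_good (m : ℕ) (hm : 1 ≤ m) (h : (1 + X : B) ^ m = 1 + X ^ m) :
    sSup {n : ℕ | (Ideal.span {x}) ^ m ≤ (Ideal.span {u}) ^ n} = 2 * m - 1 := by
  apply IsGreatest.csSup_eq
  constructor
  · rw [Set.mem_ofPred_eq, key m _ hm]
    refine ⟨by omega, ?_⟩
    have : 2 * m - (2 * m - 1) = 1 := by omega
    rw [this, w_mem_one]; exact h
  · intro n hn
    have hn' := (key m n hm).1 hn
    by_contra hc
    have : 2 * m - n = 0 := by omega
    rw [this] at hn'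
    exact w_zero_not m hn'.2

theorem v_bad (m : ℕ) (hm : 1 ≤ m) (h : (1 + X : B) ^ m ≠ 1 + X ^ m) :
    sSup {n : ℕ | (Ideal.span {x}) ^ m ≤ (Ideal.span {u}) ^ n} = 2 * m - 2 := by
  apply IsGreatest.csSup_eq
  constructor
  · rw [Set.mem_ofPred_eq, key m _ hm]
    exact ⟨by omega, w_mem _ _ (by omega)⟩
  · intro n hn
    have hn' := (key m n hm).1 hn
    by_contra hc
    have : 2 * m - n = 0 ∨ 2 * m - n = 1 := by omega
    rcases this with this | this
    · rw [this] at hn'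
      exact w_zero_not m hn'.2
    · rw [this, w_mem_one] at hn'
      exact h hn'.2

theorem good (k : ℕ) : (1 + X : B) ^ (2 ^ k) = 1 + X ^ (2 ^ k) := by
  rw [add_pow_char_pow]; simp

theorem bad (k t : ℕ) (ht : 0 < t) (htk : t < 2 ^ k) :
    (1 + X : B) ^ (2 ^ k + t) ≠ 1 + X ^ (2 ^ k + t) := by
  intro h
  rw [pow_add, good, add_mul, one_mul] at h
  have h2 := congrArg (fun p : B => p.coeff t) h
  have hk : 0 < 2 ^ k := by positivity
  simp only [coeff_add, coeff_one_add_X_pow, Nat.choose_self, coeff_X_pow_mul', coeff_one,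
    coeff_X_pow, if_neg (show ¬ (2 ^ k ≤ t) by omega), if_neg (show ¬ (t = 0) by omega),
    if_neg (show ¬ (t = 2 ^ k + t) by omega)] at h2
  simp at h2

/-- The negation of the preceding statement: Let A be Noetherian, J ⊆ rad I, I not nilpotent, ⋂ Iⁿ = 0, J not nilpotent, and v(m) the largest n with Jᵐ ⊆ Iⁿ. Then some t > 0 satisfies v(m+1+t) − v(m+t) = v(m+1) − v(m) for all large m. -/
theorem result :
    ¬ (∀ (A : Type) [CommRing A] [IsNoetherianRing A] (I J : Ideal A),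
      J ≤ I.radical → (∀ n : ℕ, I ^ n ≠ ⊥) → (⨅ n : ℕ, I ^ n) = ⊥ →
      (∀ m : ℕ, J ^ m ≠ ⊥) →
      ∃ t : ℕ, 0 < t ∧ ∃ M : ℕ, ∀ m : ℕ, M ≤ m →
        ((sSup {n : ℕ | J ^ (m + 1 + t) ≤ I ^ n} : ℕ) : ℤ)
            - ((sSup {n : ℕ | J ^ (m + t) ≤ I ^ n} : ℕ) : ℤ)
          = ((sSup {n : ℕ | J ^ (m + 1) ≤ I ^ n} : ℕ) : ℤ)
            - ((sSup {n : ℕ | J ^ m ≤ I ^ n} : ℕ) : ℤ)) := by
  intro H
  have hX : ∀ n : ℕ, (X : T) ^ n ≠ 0 := fun n => pow_ne_zero _ X_ne_zero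
  obtain ⟨t, ht, M, hM⟩ := H R (Ideal.span {u}) (Ideal.span {x})
    (by
      have h := (key 2 1 (by norm_num)).2 ⟨by norm_num, w_mem _ _ (by norm_num)⟩
      rw [Submodule.pow_one] at h
      rw [Ideal.span_singleton_le_iff_mem]
      exact ⟨2, h (Ideal.pow_mem_pow (Ideal.mem_span_singleton_self x) 2)⟩)
    (by
      intro n hn
      rw [Ideal.span_singleton_pow, Ideal.span_singleton_eq_bot] at hn
      have h' := congrArg (fun r : R => (r : S).1) hn
      simp only [u_pow] at h'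
      exact hX n h')
    (by
      rw [eq_bot_iff]
      intro r hr
      rw [Ideal.mem_iInf] at hr
      have hd : ∀ n : ℕ, (X : T) ^ n ∣ (r : S).1 ∧ (X : T) ^ n ∣ (r : S).2.1 ∧
          (X : T) ^ n ∣ (r : S).2.2.1 ∧ (X : T) ^ n ∣ (r : S).2.2.2 := by
        intro n
        have h := hr n
        rw [Ideal.span_singleton_pow, Ideal.mem_span_singleton] at h
        obtain ⟨s, hs⟩ := h
        rw [hs]
        simp only [Subalgebra.coe_mul, u_pow, Prod.fst_mul, Prod.snd_mul]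
        exact ⟨dvd_mul_right _ _, dvd_mul_right _ _, dvd_mul_right _ _, dvd_mul_right _ _⟩
      have hz : ∀ f : T, (∀ n : ℕ, (X : T) ^ n ∣ f) → f = 0 := by
        intro f hf
        ext1 d
        exact (X_pow_dvd_iff.1 (hf (d + 1))) d (by omega)
      rw [Ideal.mem_bot]
      apply Subtype.ext
      exact Prod.ext (hz _ fun n => (hd n).1) (Prod.ext (hz _ fun n => (hd n).2.1)
        (Prod.ext (hz _ fun n => (hd n).2.2.1) (hz _ fun n => (hd n).2.2.2))))
    (by
      intro m hm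
      rw [Ideal.span_singleton_pow, Ideal.span_singleton_eq_bot] at hm
      have h2 : x ^ (m + 1) = 0 := by rw [pow_succ, hm, zero_mul]
      have h' := congrArg (fun r : R => (r : S).2.1) h2
      simp only [x_pow (m + 1) (by omega), w] at h'
      exact hX _ h')
  set k := M + t + 1 with hk
  have hlt : k < 2 ^ k := Nat.lt_two_pow_self
  have h := hM (2 ^ k) (by omega)
  rw [v_good (2 ^ k) (by omega) (good k), v_bad (2 ^ k + 1) (by omega) (bad k 1 (by omega) (by omega)),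
    v_bad (2 ^ k + t) (by omega) (bad k t ht (by omega)), add_assoc,
    v_bad (2 ^ k + (1 + t)) (by omega) (bad k (1 + t) (by omega) (by omega))] at h
  omega

end Pool.Agent.S01976
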