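import Pool.Statements.S02007
-- import your own Pool.Agent.* helpers here

set_option autoImplicit false
open Pool Pool.MP_79c14d_al

namespace Pool.Agent.S02007

open scoped commutatorElement

section lead
variable {R : Type} [Ring R]

def Lv (R : Type) [Ring R] (d : ℕ) : Subgroup Rˣ where
  carrier := {x | ∃ A : R, (x : R) = 1 + (3 ^ d : ℤ) • A}
  one_mem' := ⟨0, by simp⟩
  mul_mem' := by
    rintro x y ⟨A, hA⟩ ⟨B, hB⟩
    refine ⟨A + B + (3 ^ d : ℤ) • (A * B), ?_⟩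
    rw [Units.val_mul, hA, hB]
    simp only [mul_add, add_mul, smul_mul_assoc, mul_smul_comm, one_mul, mul_one]
    module
  inv_mem' := by
    rintro x ⟨A, hA⟩
    refine ⟨-(A * ((x⁻¹ : Rˣ) : R)), ?_⟩
    have h : (x : R) * ((x⁻¹ : Rˣ) : R) = 1 := x.mul_inv
    rw [hA, add_mul, one_mul, smul_mul_assoc] at h
    rw [← h]; module

lemma Lv_mono {d e : ℕ} (h : d ≤ e) : Lv R e ≤ Lv R d := by
  rintro x ⟨A, hA⟩
  obtain ⟨c, rfl⟩ := Nat.exists_eq_add_of_le h
  exact ⟨(3 ^ c : ℤ) • A, by rw [hA, pow_add, mul_smul]⟩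

def Lead (d : ℕ) (A : R) (x : Rˣ) : Prop :=
  ∃ C : R, (x : R) = 1 + (3 ^ d : ℤ) • (A + (3 : ℤ) • C)

lemma comm_val (x y : Rˣ) : ((⁅x, y⁆ : Rˣ) : R) =
    1 + ((x : R) * y - y * x) * ((x⁻¹ * y⁻¹ : Rˣ) : R) := by
  have : (y : R) * x * ((x⁻¹ * y⁻¹ : Rˣ) : R) = 1 := by
    rw [← Units.val_mul, ← Units.val_mul]; simp
  rw [sub_mul, this, commutatorElement_def]
  simp [mul_assoc]

lemma Lv_comm {d e : ℕ} {x y : Rˣ} (hx : x ∈ Lv R d) (hy : y ∈ Lv R e) :
    ⁅x, y⁆ ∈ Lv R (d + e) := by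
  obtain ⟨A, hA⟩ := hx
  obtain ⟨B, hB⟩ := hy
  refine ⟨(A * B - B * A) * ((x⁻¹ * y⁻¹ : Rˣ) : R), ?_⟩
  rw [comm_val]
  generalize ((x⁻¹ * y⁻¹ : Rˣ) : R) = w
  rw [hA, hB, pow_add]
  simp only [mul_add, add_mul, sub_mul, smul_mul_assoc, mul_smul_comm, one_mul, mul_one]
  module

lemma Lead.lv {d : ℕ} {A : R} {x : Rˣ} (h : Lead d A x) : x ∈ Lv R d := by
  obtain ⟨C, hC⟩ := h
  exact ⟨_, hC⟩

lemma Lead.comm {d e : ℕ} {A B : R} {x y : Rˣ} (hx : Lead d A x) (hy : Lead e B y)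
    (hd : 1 ≤ d) (he : 1 ≤ e) : Lead (d + e) (A * B - B * A) ⁅x, y⁆ := by
  obtain ⟨W, hW⟩ : x⁻¹ * y⁻¹ ∈ Lv R 1 :=
    mul_mem (inv_mem (Lv_mono hd hx.lv)) (inv_mem (Lv_mono he hy.lv))
  obtain ⟨C, hA⟩ := hx
  obtain ⟨D, hB⟩ := hy
  refine ⟨(A * D + C * B - B * C - D * A + (3 : ℤ) • (C * D - D * C)) * (1 + (3 : ℤ) • W) +
    (A * B - B * A) * W, ?_⟩
  rw [comm_val, hW, hA, hB, pow_add]
  simp only [mul_add, add_mul, sub_mul, smul_mul_assoc, mul_smul_comm, one_mul, mul_one]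
  module

lemma Lead.congr {d : ℕ} {A A' : R} {x : Rˣ} (h : Lead d A x) (Z : R)
    (hZ : A = A' + (3 : ℤ) • Z) : Lead d A' x := by
  obtain ⟨C, hC⟩ := h
  exact ⟨C + Z, by rw [hC, hZ]; module⟩

lemma Lead.conj {d : ℕ} {A : R} {x y : Rˣ} (h : Lead d A x) (hy : y ∈ Lv R 1) :
    Lead d A (y * x * y⁻¹) := by
  obtain ⟨C, hC⟩ := h
  obtain ⟨W, hW⟩ := inv_mem hy
  obtain ⟨V, hV⟩ := hy
  have h1 : (y : R) * ((y⁻¹ : Rˣ) : R) = 1 := y.mul_inv
  have h2 : ((y * x * y⁻¹ : Rˣ) : R) =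
      1 + (3 ^ d : ℤ) • ((y : R) * (A + (3 : ℤ) • C) * ((y⁻¹ : Rˣ) : R)) := by
    rw [Units.val_mul, Units.val_mul, hC, mul_add, add_mul, mul_one, h1, mul_smul_comm,
      smul_mul_assoc]
  refine ⟨C + (V * (A + (3 : ℤ) • C) + (A + (3 : ℤ) • C) * W +
    (3 : ℤ) • (V * (A + (3 : ℤ) • C) * W)), ?_⟩
  rw [h2, hW, hV]
  simp only [mul_add, add_mul, smul_mul_assoc, mul_smul_comm, one_mul, mul_one]
  module

lemma Lead.mul_lv {d : ℕ} {A : R} {x u : Rˣ} (h : Lead d A x) (hu : u ∈ Lv R (d + 1)) :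
    Lead d A (x * u) := by
  obtain ⟨C, hC⟩ := h
  obtain ⟨V, hV⟩ := hu
  refine ⟨C + V + (3 ^ d : ℤ) • ((A + (3 : ℤ) • C) * V), ?_⟩
  rw [Units.val_mul, hC, hV, pow_succ]
  simp only [mul_add, add_mul, smul_mul_assoc, mul_smul_comm, one_mul, mul_one]
  module

lemma Lead.inv {d : ℕ} {A : R} {x : Rˣ} (h : Lead d A x) (hd : 1 ≤ d) : Lead d (-A) x⁻¹ := by
  obtain ⟨W, hW⟩ := inv_mem (Lv_mono hd h.lv)
  obtain ⟨C, hC⟩ := h
  have h1 : (x : R) * ((x⁻¹ : Rˣ) : R) = 1 := x.mul_inv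
  rw [hC, add_mul, one_mul, smul_mul_assoc] at h1
  have h2 : ((x⁻¹ : Rˣ) : R) = 1 - (3 ^ d : ℤ) • ((A + (3 : ℤ) • C) * ((x⁻¹ : Rˣ) : R)) := by
    rw [← h1]; abel
  refine ⟨-C - (A + (3 : ℤ) • C) * W, ?_⟩
  rw [h2, hW]
  simp only [mul_add, add_mul, smul_mul_assoc, mul_smul_comm, mul_one]
  module

def LeadU (d : ℕ) (A : R) (x : Rˣ) : Prop := Lead d A x ∨ Lead d (-A) x

lemma LeadU.comm {d e : ℕ} {A B : R} {x y : Rˣ} (hx : LeadU d A x) (hy : LeadU e B y)
    (hd : 1 ≤ d) (he : 1 ≤ e) : LeadU (d + e) (A * B - B * A) ⁅x, y⁆ := by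
  rcases hx with hx | hx <;> rcases hy with hy | hy
  · exact Or.inl (hx.comm hy hd he)
  · exact Or.inr ((hx.comm hy hd he).congr 0 (by noncomm_ring))
  · exact Or.inr ((hx.comm hy hd he).congr 0 (by noncomm_ring))
  · exact Or.inl ((hx.comm hy hd he).congr 0 (by noncomm_ring))

lemma LeadU.congr {d : ℕ} {A A' : R} {x : Rˣ} (h : LeadU d A x) (Z : R)
    (hZ : A = A' + (3 : ℤ) • Z) : LeadU d A' x :=
  h.imp (fun h => h.congr Z hZ) (fun h => h.congr (-Z) (by rw [hZ]; module))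

lemma LeadU.neg {d : ℕ} {A : R} {x : Rˣ} (h : LeadU d (-A) x) : LeadU d A x :=
  h.symm.imp (fun h => by rwa [neg_neg] at h) id

lemma LeadU.conj {d : ℕ} {A : R} {x y : Rˣ} (h : LeadU d A x) (hy : y ∈ Lv R 1) :
    LeadU d A (y * x * y⁻¹) := h.imp (fun h => h.conj hy) (fun h => h.conj hy)

lemma LeadU.mul_lv {d : ℕ} {A : R} {x u : Rˣ} (h : LeadU d A x) (hu : u ∈ Lv R (d + 1)) :
    LeadU d A (x * u) := h.imp (fun h => h.mul_lv hu) (fun h => h.mul_lv hu)

lemma LeadU.inv {d : ℕ} {A : R} {x : Rˣ} (h : LeadU d A x) (hd : 1 ≤ d) : LeadU d A x⁻¹ :=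
  LeadU.neg (h.imp (fun h => h.inv hd) (fun h => h.inv hd))

end lead

abbrev M2 := Matrix (Fin 2) (Fin 2) ℤ
abbrev F := FreeGroup (Fin 3)
abbrev D (j : ℕ) : Subgroup F := derivedSeries F j

def mE : M2 := !![0, 1; 0, 0]
def mF : M2 := !![0, 0; 1, 0]
def mH : M2 := !![1, 0; 0, -1]

def u0 : M2ˣ := ⟨!![1, 3; 0, 1], !![1, -3; 0, 1], by decide, by decide⟩
def u1 : M2ˣ := ⟨!![1, 0; 3, 1], !![1, 0; -3, 1], by decide, by decide⟩
def u2 : M2ˣ := ⟨!![4, 9; -9, -20], !![-20, -9; 9, 4], by decide, by decide⟩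

def rho : F →* M2ˣ := FreeGroup.lift ![u0, u1, u2]

lemma l0 : Lead 1 mE u0 := ⟨0, by decide⟩
lemma l1 : Lead 1 mF u1 := ⟨0, by decide⟩
lemma l2 : Lead 1 mH u2 := ⟨!![0, 1; -1, -2], by decide⟩

lemma rho_one (x : F) : rho x ∈ Lv M2 1 := by
  induction x using FreeGroup.induction_on with
  | C1 => rw [map_one]; exact one_mem _
  | of i =>
    rw [rho, FreeGroup.lift_apply_of]
    fin_cases i
    · exact l0.lv
    · exact l1.lv
    · exact l2.lv
  | inv_of i h => rw [map_inv]; exact inv_mem h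
  | mul x y hx hy => rw [map_mul]; exact mul_mem hx hy

lemma rho_D (j : ℕ) : D j ≤ (Lv M2 (2 ^ j)).comap rho := by
  induction j with
  | zero => exact fun x _ => rho_one x
  | succ j ih =>
    rw [D, derivedSeries_succ, Subgroup.commutator_le]
    intro x hx y hy
    rw [Subgroup.mem_comap, map_commutatorElement, pow_succ, mul_two]
    exact Lv_comm (ih hx) (ih hy)

def tr : ℕ → F × F × F
  | 0 => (FreeGroup.of 0, FreeGroup.of 1, FreeGroup.of 2)
  | k + 1 => (⁅(tr k).2.2, (tr k).1⁆, ⁅(tr k).2.2, (tr k).2.1⁆, ⁅(tr k).1, (tr k).2.1⁆)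

lemma tr_mem (k : ℕ) : (tr k).1 ∈ D k ∧ (tr k).2.1 ∈ D k ∧ (tr k).2.2 ∈ D k := by
  induction k with
  | zero => exact ⟨trivial, trivial, trivial⟩
  | succ k ih =>
    exact ⟨Subgroup.commutator_mem_commutator ih.2.2 ih.1,
      Subgroup.commutator_mem_commutator ih.2.2 ih.2.1,
      Subgroup.commutator_mem_commutator ih.1 ih.2.1⟩

lemma tr_lead (k : ℕ) : LeadU (2 ^ k) mE (rho (tr k).1) ∧ LeadU (2 ^ k) mF (rho (tr k).2.1) ∧
    LeadU (2 ^ k) mH (rho (tr k).2.2) := by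
  induction k with
  | zero =>
    simp only [tr, rho, FreeGroup.lift_apply_of]
    exact ⟨Or.inl l0, Or.inl l1, Or.inl l2⟩
  | succ k ih =>
    have h1 : 1 ≤ 2 ^ k := Nat.one_le_two_pow
    simp only [tr, map_commutatorElement, pow_succ, mul_two]
    exact ⟨((ih.2.2.comm ih.1 h1 h1).congr mE (by decide)).neg,
      (ih.2.2.comm ih.2.1 h1 h1).congr (-mF) (by decide),
      (ih.1.comm ih.2.1 h1 h1).congr 0 (by decide)⟩

lemma not_lead {d : ℕ} {x : M2ˣ} (h : LeadU d mE x) (hx : x ∈ Lv M2 (d + 1)) : False := by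
  obtain ⟨V, hV⟩ := hx
  have h3 : (3 ^ d : ℤ) ≠ 0 := by positivity
  rcases h with ⟨C, hC⟩ | ⟨C, hC⟩ <;>
  · have := congrFun (congrFun (hC.symm.trans hV) 0) 1
    simp only [Matrix.add_apply, Matrix.smul_apply, smul_eq_mul, pow_succ, mul_assoc,
      add_right_inj, Matrix.neg_apply] at this
    have h4 := mul_left_cancel₀ h3 this
    have h5 : mE 0 1 = 1 := rfl
    omega

def ff (e : ℕ → Bool) (k : ℕ) : F := if e k then (tr k).1 else 1

lemma ff_mem (e : ℕ → Bool) (k : ℕ) : ff e k ∈ D k := by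
  unfold ff; split_ifs
  · exact (tr_mem k).1
  · exact one_mem _

def G (e : ℕ → Bool) : ℕ → ℕ → F
  | 0, _ => 1
  | n + 1, k => ff e k * ⁅G e n (k + 1), (tr (k + 1)).2.2⁆

lemma G_succ (e : ℕ → Bool) (n k : ℕ) :
    G e (n + 1) k = ff e k * ⁅G e n (k + 1), (tr (k + 1)).2.2⁆ := rfl

lemma D_anti {G : Type} [Group G] {i j : ℕ} (h : i ≤ j) :
    derivedSeries G j ≤ derivedSeries G i := by
  induction h with
  | refl => exact le_rfl
  | step _ ih => exact le_trans (Subgroup.commutator_le_left _ _) ih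

lemma G_mem (e : ℕ → Bool) (n : ℕ) : ∀ k, G e n k ∈ D k := by
  induction n with
  | zero => exact fun k => one_mem _
  | succ n ih =>
    intro k
    exact mul_mem (ff_mem e k) (D_anti (show k ≤ k + 1 + 1 by omega)
      (Subgroup.commutator_mem_commutator (ih _) (tr_mem _).2.2))

lemma G_cong (e : ℕ → Bool) (m n : ℕ) : ∀ k, m ≤ k + n →
    QuotientGroup.mk' (D m) (G e n k) = QuotientGroup.mk' (D m) (G e (n + 1) k) := by
  induction n with
  | zero =>
    intro k hk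
    rw [G, map_one, eq_comm, QuotientGroup.mk'_apply, QuotientGroup.eq_one_iff]
    exact D_anti hk (G_mem e _ k)
  | succ n ih =>
    intro k hk
    rw [G, G, map_mul, map_mul, map_commutatorElement, map_commutatorElement,
      ih (k + 1) (by omega)]

lemma G_lead (e e' : ℕ → Bool) (m : ℕ) : ∀ i, (∀ l < m, e (i + l) = e' (i + l)) →
    e (i + m) ≠ e' (i + m) → ∃ d, 1 ≤ d ∧ ∀ n,
      LeadU d mE (rho (G e (n + m + 1) i) * (rho (G e' (n + m + 1) i))⁻¹) := by
  induction m with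
  | zero =>
    intro i _ h
    have h1 : 1 ≤ 2 ^ i := Nat.one_le_two_pow
    refine ⟨2 ^ i, h1, fun n => ?_⟩
    have hc : ∀ e : ℕ → Bool, rho ⁅G e n (i + 1), (tr (i + 1)).2.2⁆ ∈ Lv M2 (2 ^ i + 1) :=
      fun e => Lv_mono (by rw [pow_succ, pow_succ]; omega) (rho_D (i + 1 + 1)
        (Subgroup.commutator_mem_commutator (G_mem e n _) (tr_mem _).2.2))
    have hu := mul_mem (hc e) (inv_mem (hc e'))
    simp only [G, add_zero, map_mul, ff] at h ⊢
    cases h1' : e i <;> cases h2' : e' i <;> simp only [h1', h2', ne_eq, not_true_eq_false] at h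
    · have := ((tr_lead i).1.mul_lv (inv_mem hu)).inv h1
      simpa [mul_assoc] using this
    · have := (tr_lead i).1.mul_lv hu
      simpa [mul_assoc] using this
  | succ m ih =>
    intro i h1 h2
    obtain ⟨d, hd, h⟩ := ih (i + 1) (fun l hl => by
      rw [show i + 1 + l = i + (l + 1) by ring]; exact h1 _ (by omega))
      (by rwa [show i + 1 + m = i + (m + 1) by ring])
    refine ⟨d + 2 ^ (i + 1), le_add_right hd, fun n => ?_⟩
    have hf : ff e i = ff e' i := by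
      have := h1 0 (by omega)
      simp only [add_zero] at this
      simp only [ff, this]
    have h3 := (((h n).comm ((tr_lead (i + 1)).2.2.conj (rho_one (G e' (n + m + 1) (i + 1))))
      hd Nat.one_le_two_pow).congr (A' := mE) (-mE) (by decide)).conj (rho_one (ff e i))
    rw [show n + (m + 1) + 1 = (n + m + 1) + 1 by ring, G_succ e (n + m + 1), G_succ e' (n + m + 1), ← hf]
    convert h3 using 1
    simp only [map_mul, map_commutatorElement, commutatorElement_def, map_inv]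
    group

abbrev P := ∀ j : ℕ, F ⧸ D j

def psi0 : F →* P := Pi.monoidHom (fun j => QuotientGroup.mk' (D j))

def g (e : ℕ → Bool) (k : ℕ) : P := fun j => QuotientGroup.mk' (D j) (G e j k)

lemma g_rec (e : ℕ → Bool) (k : ℕ) :
    g e k = psi0 (ff e k) * ⁅g e (k + 1), psi0 (tr (k + 1)).2.2⁆ := by
  funext j
  rw [g, G_cong e j j k (by omega), G, map_mul, map_commutatorElement]
  rfl

lemma g_inj : Function.Injective (fun e => g e 0) := by
  intro e e' h
  by_contra hne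
  have hex : ∃ k, e k ≠ e' k := by
    by_contra hc
    push Not at hc
    exact hne (funext hc)
  obtain ⟨d, _, hd⟩ := G_lead e e' (Nat.find hex) 0
    (fun l hl => by simpa using Nat.find_min hex hl) (by simpa using Nat.find_spec hex)
  refine not_lead (hd d) ?_
  set j := d + Nat.find hex + 1 with hj
  have h1 : QuotientGroup.mk' (D j) (G e j 0) = QuotientGroup.mk' (D j) (G e' j 0) :=
    congrFun h j
  have h2 : G e j 0 * (G e' j 0)⁻¹ ∈ D j := by
    rw [← QuotientGroup.eq_one_iff, ← QuotientGroup.mk'_apply, map_mul, map_inv, h1,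
      mul_inv_cancel]
  have h3 := rho_D j h2
  rw [Subgroup.mem_comap, map_mul, map_inv] at h3
  have h4 : j < 2 ^ j := Nat.lt_two_pow_self
  exact Lv_mono (by omega) h3

def gens : Set P := Set.range psi0 ∪ {x | ∃ e k, x = g e k}

abbrev Gam : Subgroup P := Subgroup.closure gens

def psi : F →* Gam := psi0.codRestrict Gam (fun x => Subgroup.subset_closure (Or.inl ⟨x, rfl⟩))

def gh (e : ℕ → Bool) (k : ℕ) : Gam := ⟨g e k, Subgroup.subset_closure (Or.inr ⟨e, k, rfl⟩)⟩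

lemma gh_rec (e : ℕ → Bool) (k : ℕ) :
    gh e k = psi (ff e k) * ⁅gh e (k + 1), psi (tr (k + 1)).2.2⁆ := Subtype.ext (g_rec e k)

lemma psi_D {j : ℕ} {x : F} (h : x ∈ D j) : psi x ∈ derivedSeries Gam j :=
  map_derivedSeries_le_derivedSeries psi j ⟨x, h, rfl⟩

lemma gh_mem (e : ℕ → Bool) (j : ℕ) : ∀ k, j ≤ k → gh e k ∈ derivedSeries Gam j := by
  induction j with
  | zero => exact fun _ _ => trivial
  | succ j ih =>
    intro k hk
    rw [gh_rec]
    exact mul_mem (psi_D (D_anti hk (ff_mem e k))) (Subgroup.commutator_mem_commutator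
      (ih (k + 1) (by omega)) (psi_D (D_anti (show j ≤ k + 1 by omega) (tr_mem _).2.2)))

lemma surj (j : ℕ) (y : Gam) : ∃ x : F, (psi x)⁻¹ * y ∈ derivedSeries Gam j := by
  let pr := QuotientGroup.mk' (derivedSeries Gam j)
  let K : Subgroup Gam := ((pr.comp psi).range).comap pr
  have hp : ∀ x, psi x ∈ K := fun x => ⟨x, rfl⟩
  have hg : ∀ e n k, j ≤ k + n → gh e k ∈ K := by
    intro e n
    induction n with
    | zero =>
      intro k hk
      refine ⟨1, ?_⟩
      rw [map_one, eq_comm, QuotientGroup.mk'_apply, QuotientGroup.eq_one_iff]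
      exact gh_mem e j k hk
    | succ n ih =>
      intro k hk
      have h1 := ih (k + 1) (by omega)
      rw [gh_rec, commutatorElement_def]
      exact mul_mem (hp _) (mul_mem (mul_mem (mul_mem h1 (hp _)) (inv_mem h1)) (inv_mem (hp _)))
  have hK : ⊤ ≤ K := by
    rw [← Subgroup.closure_closure_coe_preimage, Subgroup.closure_le]
    rintro ⟨y, hy⟩ (⟨x, rfl⟩ | ⟨e, k, rfl⟩)
    · exact hp x
    · exact hg e j k (by omega)
  obtain ⟨x, hx⟩ := hK (Subgroup.mem_top y)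
  exact ⟨x, QuotientGroup.eq.mp hx⟩

lemma D_quot (j : ℕ) : derivedSeries (F ⧸ D j) j = ⊥ := by
  rw [← map_derivedSeries_eq (QuotientGroup.mk'_surjective (D j)), Subgroup.map_eq_bot_iff,
    QuotientGroup.ker_mk']

def th (j : ℕ) : Gam →* F ⧸ D j := (Pi.evalMonoidHom (fun j => F ⧸ D j) j).comp Gam.subtype

/-- There exist a free group F of finite rank, a residually soluble non-free group Γ, and a homomorphism ψ from F to Γ inducing a bijection F/D^j(F) → Γ/D^j(Γ) for every j ≥ 1, where D^j is the j-th derived subgroup. -/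
theorem result :
    ∃ (n : ℕ) (Γ : Type) (_ : Group Γ) (ψ : FreeGroup (Fin n) →* Γ),
      (∀ g : Γ, g ≠ 1 →
        ∃ (S : Type) (_ : Group S) (_ : IsSolvable S) (f : Γ →* S), f g ≠ 1) ∧
      ¬ IsFreeGroup Γ ∧
      ∀ j : ℕ, 1 ≤ j →
        (derivedSeries Γ j).comap ψ = derivedSeries (FreeGroup (Fin n)) j ∧
        ∀ γ : Γ, ∃ x : FreeGroup (Fin n), (ψ x)⁻¹ * γ ∈ derivedSeries Γ j := by
  refine ⟨3, Gam, inferInstance, psi, fun y hy => ?_, fun hfree => ?_, fun j _ => ⟨?_, surj j⟩⟩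
  · obtain ⟨j, hj⟩ : ∃ j, th j y ≠ 1 := by
      by_contra hc
      push Not at hc
      exact hy (Subtype.ext (funext hc))
    exact ⟨F ⧸ D j, inferInstance, ⟨⟨j, D_quot j⟩⟩, th j, hj⟩
  · classical
    choose x hx using fun a : IsFreeGroup.Generators Gam => surj 1 (IsFreeGroup.of a)
    have hinj : Function.Injective x := by
      intro a b hab
      by_contra hne
      let ph : Gam →* Multiplicative ℤ :=
        IsFreeGroup.lift (fun c => if c = a then Multiplicative.ofAdd 1 else 1)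
      have hk : ∀ z ∈ derivedSeries Gam 1, ph z = 1 := by
        intro z hz
        have h1 : derivedSeries Gam 1 ≤ ph.ker := by
          rw [derivedSeries_succ, Subgroup.commutator_le]
          intro p _ q _
          rw [MonoidHom.mem_ker, map_commutatorElement, commutatorElement_eq_one_iff_mul_comm,
            mul_comm]
        exact h1 hz
      have h1 := hk _ (hx a)
      have h2 := hk _ (hx b)
      rw [map_mul, map_inv, inv_mul_eq_one] at h1 h2
      rw [hab, h2] at h1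
      simp only [ph, IsFreeGroup.lift_of, Ne.symm hne, if_true, if_false] at h1
      exact absurd h1 (by decide)
    have hc : Countable (IsFreeGroup.Generators Gam) := hinj.countable
    have hc2 : Countable Gam := (IsFreeGroup.toFreeGroup Gam).injective.countable
    have hc3 : Countable (ℕ → Bool) :=
      Function.Injective.countable (f := fun e => gh e 0)
        (fun e e' h => g_inj (congrArg Subtype.val h))
    obtain ⟨s, hs⟩ := exists_surjective_nat (ℕ → Bool)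
    obtain ⟨n, hn⟩ := hs (fun n => !(s n n))
    have := congrFun hn n
    simp at this
  · ext x
    refine ⟨fun h => ?_, fun h => psi_D h⟩
    have h1 := map_derivedSeries_le_derivedSeries (th j) j ⟨_, h, rfl⟩
    rw [D_quot, Subgroup.mem_bot] at h1
    exact (QuotientGroup.eq_one_iff x).mp h1

end Pool.Agent.S02007
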