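import Pool.Statements.S02098
-- import your own Pool.Agent.* helpers here

set_option autoImplicit false
open Pool Pool.MP_81db1e_al

namespace Pool.Agent.S02098

/-- The negation of the preceding statement: For every char-0 field k and k-algebra R with some finite-dimensional representation, there is one finite-dimensional representation (F,A) in which every family of R that is dependent in some finite-dimensional representation is already dependent. -/
theorem result :
    ¬ (∀ (k : Type) [Field k] [CharZero k] (R : Type) [Ring R] [Algebra k R],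
      (∃ (F : Type) (_ : Field F) (_ : Algebra k F) (A : Type) (_ : Ring A)
          (_ : Algebra F A) (_ : Algebra k A) (_ : IsScalarTower k F A)
          (_ : FiniteDimensional F A) (φ : R →ₐ[k] A), Function.Injective φ) →
      ∃ (F : Type) (_ : Field F) (_ : Algebra k F) (A : Type) (_ : Ring A)
          (_ : Algebra F A) (_ : Algebra k A) (_ : IsScalarTower k F A)
          (_ : FiniteDimensional F A) (φ : R →ₐ[k] A),
        Function.Injective φ ∧
        ∀ (F' : Type) [Field F'] [Algebra k F'] (A' : Type) [Ring A'] [Algebra F' A']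
          [Algebra k A'] [IsScalarTower k F' A'] [FiniteDimensional F' A']
          (φ' : R →ₐ[k] A'), Function.Injective φ' →
          ∀ (ι : Type) (r : ι → R),
            ¬ LinearIndependent F' (fun i => φ' (r i)) →
            ¬ LinearIndependent F (fun i => φ (r i))) := by
  intro h
  obtain ⟨F, _, _, A, _, _, _, _, _, φ, hφ, hdep⟩ := h ℚ (ℂ × ℂ)
    ⟨ℂ, inferInstance, inferInstance, ℂ × ℂ, inferInstance, inferInstance, inferInstance,
      inferInstance, inferInstance, AlgHom.id ℚ _, fun _ _ h => h⟩
  have hnt : (1 : A) ≠ 0 := by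
    intro h1
    have : φ 1 = φ 0 := by rw [map_one, map_zero, h1]
    exact one_ne_zero (hφ this)
  have scal : ∀ x : ℂ × ℂ, ¬ LinearIndependent F (fun i : Fin 2 => φ (![1, x] i)) →
      ∃ c : F, φ x = c • (1 : A) := by
    intro x hx
    have e : (fun i : Fin 2 => φ (![1, x] i)) = ![(1 : A), φ x] := by
      funext i; fin_cases i <;> simp
    rw [e, LinearIndependent.pair_iff' hnt] at hx
    push Not at hx
    obtain ⟨c, hc⟩ := hx
    exact ⟨c, hc.symm⟩
  have d1 := hdep ℂ (ℂ × ℂ) (AlgHom.id ℚ _) (fun _ _ h => h) (Fin 2)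
    ![1, (Complex.I, Complex.I)] (by
      have e : (fun i : Fin 2 => (AlgHom.id ℚ (ℂ × ℂ)) (![1, (Complex.I, Complex.I)] i)) =
          ![(1 : ℂ × ℂ), (Complex.I, Complex.I)] := by
        funext i; fin_cases i <;> simp
      rw [e, LinearIndependent.pair_iff' one_ne_zero]
      push Not
      exact ⟨Complex.I, by ext <;> simp⟩)
  let ψ : (ℂ × ℂ) →ₐ[ℚ] (ℂ × ℂ) :=
    AlgHom.prodMap (AlgHom.id ℚ ℂ) ((Complex.conjAe : ℂ →ₐ[ℝ] ℂ).restrictScalars ℚ)
  have hψ : ∀ z w : ℂ, ψ (z, w) = (z, (starRingEnd ℂ) w) := fun z w => rfl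
  have d2 := hdep ℂ (ℂ × ℂ) ψ (by
      rintro ⟨a, b⟩ ⟨c, d⟩ h
      rw [hψ, hψ, Prod.mk.injEq] at h
      rw [h.1, (starRingEnd ℂ).injective h.2]) (Fin 2)
    ![1, (Complex.I, -Complex.I)] (by
      have e : (fun i : Fin 2 => ψ (![1, (Complex.I, -Complex.I)] i)) =
          ![(1 : ℂ × ℂ), (Complex.I, Complex.I)] := by
        funext i; fin_cases i
        · simp
        · simp [hψ]
      rw [e, LinearIndependent.pair_iff' one_ne_zero]
      push Not
      exact ⟨Complex.I, by ext <;> simp⟩)
  obtain ⟨c, hc⟩ := scal _ d1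
  obtain ⟨d, hd⟩ := scal _ d2
  have h1 : φ (2 * Complex.I, 0) = (c + d) • (1 : A) := by
    rw [add_smul, ← hc, ← hd, ← map_add]
    congr 1
    ext <;> simp [two_mul]
  have h2 : φ (0, 2 * Complex.I) = (c - d) • (1 : A) := by
    rw [sub_smul, ← hc, ← hd, ← map_sub]
    congr 1
    ext <;> simp [two_mul]
  have h3 : ((c + d) * (c - d)) • (1 : A) = 0 := by
    have : φ (2 * Complex.I, 0) * φ (0, 2 * Complex.I) = 0 := by
      rw [← map_mul, ← map_zero φ]
      congr 1
      ext <;> simp
    rw [h1, h2, smul_mul_smul_comm, mul_one] at this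
    exact this
  rcases mul_eq_zero.1 ((smul_eq_zero.1 h3).resolve_right hnt) with h0 | h0
  · rw [h0, zero_smul, ← map_zero φ] at h1
    have := congrArg Prod.fst (hφ h1)
    simp at this
  · rw [h0, zero_smul, ← map_zero φ] at h2
    have := congrArg Prod.snd (hφ h2)
    simp at this

end Pool.Agent.S02098
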