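import Pool.Statements.S02185
import Pool.Agent.H29.Burau

set_option autoImplicit false
open Pool Pool.MP_8823bb_al

namespace Pool.Agent.S02185

open Pool.Agent.H29.Burau in
theorem result :
    ∀ n : ℕ, 4 < n →
      ∀ M ∈ Submonoid.closure
        {A : Matrix (Fin n) (Fin n) (LaurentPolynomial ℤ) |
          ∃ i : ℕ, i + 1 < n ∧
            (A = Matrix.of (fun (a b : Fin n) =>
                if ((a : ℕ) = i ∧ (b : ℕ) = i) then (1 - LaurentPolynomial.T 1 : LaurentPolynomial ℤ)
                else if ((a : ℕ) = i ∧ (b : ℕ) = i + 1) then (LaurentPolynomial.T 1 : LaurentPolynomial ℤ)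
                else if ((a : ℕ) = i + 1 ∧ (b : ℕ) = i) then (1 : LaurentPolynomial ℤ)
                else if ((a : ℕ) = i + 1 ∧ (b : ℕ) = i + 1) then (0 : LaurentPolynomial ℤ)
                else if a = b then (1 : LaurentPolynomial ℤ) else (0 : LaurentPolynomial ℤ))
            ∨ A = Matrix.of (fun (a b : Fin n) =>
                if ((a : ℕ) = i ∧ (b : ℕ) = i) then (0 : LaurentPolynomial ℤ)
                else if ((a : ℕ) = i ∧ (b : ℕ) = i + 1) then (1 : LaurentPolynomial ℤ)
                else if ((a : ℕ) = i + 1 ∧ (b : ℕ) = i) then (LaurentPolynomial.T (-1) : LaurentPolynomial ℤ)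
                else if ((a : ℕ) = i + 1 ∧ (b : ℕ) = i + 1) then (1 - LaurentPolynomial.T (-1) : LaurentPolynomial ℤ)
                else if a = b then (1 : LaurentPolynomial ℤ) else (0 : LaurentPolynomial ℤ)))},
        ∀ k : ℕ, 0 < k → M ^ k = 1 → M = 1 := by
  intro n _ M hM k hk h
  refine main _ ?_ M hM k hk h
  rintro A ⟨i, hi, hA⟩ t ht
  have ht0 : t ≠ 0 := by rintro rfl; simp at ht
  have hst : star t = t⁻¹ := (eq_inv_of_mul_eq_one_right ht)
  rcases hA with rfl | rfl
  · convert rank_one t 1 (⟨i, by omega⟩ : Fin n) ⟨i + 1, hi⟩ rfl ht (by simp) using 1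
    ext a b
    simp only [RingHom.mapMatrix_apply, Matrix.map_apply, Matrix.of_apply, Matrix.add_apply,
      Matrix.smul_apply, Matrix.vecMulVec_apply, Pi.add_apply, Pi.sub_apply, Pi.single_apply,
      Matrix.one_apply, Fin.ext_iff, apply_ite (ev t), map_sub, map_one, map_zero, ev_T ht0,
      smul_eq_mul]
    split_ifs <;> first | omega | (simp; done) | (simp; ring)
  · convert rank_one t t⁻¹ (⟨i, by omega⟩ : Fin n) ⟨i + 1, hi⟩ rfl ht
      (by rw [star_inv₀, hst]; field_simp; ring) using 1
    ext a b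
    simp only [RingHom.mapMatrix_apply, Matrix.map_apply, Matrix.of_apply, Matrix.add_apply,
      Matrix.smul_apply, Matrix.vecMulVec_apply, Pi.add_apply, Pi.sub_apply, Pi.single_apply,
      Matrix.one_apply, Fin.ext_iff, apply_ite (ev t), map_sub, map_one, map_zero, ev_T ht0,
      smul_eq_mul]
    split_ifs <;> first | omega | (simp [ht0]; done) | (simp [ht0]; ring)

end Pool.Agent.S02185
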