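import Pool.Statements.S02188
import Pool.Agent.H29.Markov

set_option autoImplicit false
open Cardinal
open Pool Pool.MP_8859ef_al

namespace Pool.Agent.S02188

open Pool.Agent.H29.Markov in
theorem result :
    ¬ (∀ (G : Type) [Group G], Cardinal.mk G ≤ 2 ^ Cardinal.continuum →
      ∀ (E : Set (Set G)), E.Countable →
        ∃ t : TopologicalSpace G, @IsTopologicalGroup G t _ ∧ @T2Space G t ∧
          ∀ e ∈ E, @closure G t e =
            @closure G (sSup {s : TopologicalSpace G | @IsTopologicalGroup G s _ ∧ @T2Space G s}) e) := by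
  intro h
  obtain ⟨t, ht1, ht2, ht3⟩ := h G card_G {E1, E2} (Set.toFinite _).countable
  obtain ⟨t1, a1, a2, a3⟩ := top1
  obtain ⟨t2, b1, b2, b3⟩ := top2
  refine @no_top t ht1 ht2 (fun x => ?_) (fun x => ?_)
  · rw [ht3 E1 (by simp)]
    exact closure.mono (le_sSup (by exact ⟨a1, a2⟩)) (a3 x)
  · rw [ht3 E2 (by simp)]
    exact closure.mono (le_sSup (by exact ⟨b1, b2⟩)) (b3 x)

end Pool.Agent.S02188
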