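import Pool.Statements.S02219
import Pool.Agent.H26.PalWidth

set_option autoImplicit false
open Pool Pool.MP_8bc403_al

namespace Pool.Agent.S02219

/-- There is a group with finite generating sets X and Y such that every element is a product of boundedly many palindromes over X, but no such bound exists for palindromes over Y. -/
theorem result :
    ∃ (G : Type) (_ : Group G) (X Y : Finset G),
      Subgroup.closure (X : Set G) = ⊤ ∧ Subgroup.closure (Y : Set G) = ⊤ ∧
      (∃ N : ℕ, ∀ g : G, ∃ ps : List G, ps.length ≤ N ∧ ps.prod = g ∧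
        ∀ p ∈ ps, ∃ w : List G, (∀ x ∈ w, x ∈ X ∨ x⁻¹ ∈ X) ∧ w.reverse = w ∧ w.prod = p) ∧
      ¬ (∃ N : ℕ, ∀ g : G, ∃ ps : List G, ps.length ≤ N ∧ ps.prod = g ∧
        ∀ p ∈ ps, ∃ w : List G, (∀ x ∈ w, x ∈ Y ∨ x⁻¹ ∈ Y) ∧ w.reverse = w ∧ w.prod = p) := by
  open Pool.Agent.H26.PalWidth in
  refine ⟨FreeGroup Bool, inferInstance, {a, b, a * b}, {a, b}, ?_, ?_, ?_, infinite_width⟩
  · rw [eq_top_iff, ← Pool.Agent.H26.PalWidth.closure_ab]
    apply Subgroup.closure_mono
    intro x hx
    rcases hx with rfl | rfl <;> simp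
  · rw [← Pool.Agent.H26.PalWidth.closure_ab]
    simp
  · refine ⟨3, fun g => ?_⟩
    open Pool.Agent.H26.PalWidth in
    have := width_three (G := FreeGroup Bool)
      (({a, b, a * b} : Finset (FreeGroup Bool)) : Set (FreeGroup Bool)) a b closure_ab
      (by simp) (by simp) (by simp) g
    simpa only [Finset.mem_coe] using this

end Pool.Agent.S02219
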