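import Pool.Statements.S02231
import Mathlib
import Pool.Agent.H16.AutF4

set_option autoImplicit false
open Pool Pool.MP_8e22c2_al

namespace Pool.Agent.S02231

/-- For every free group with an infinite basis, there is a single automorphism whose normal closure in the automorphism group is the entire automorphism group. -/
theorem result :
    ∀ (α : Type) [Infinite α],
      ∃ φ : MulAut (FreeGroup α),
        Subgroup.normalClosure ({φ} : Set (MulAut (FreeGroup α))) = ⊤ := by
  intro α _
  obtain ⟨σ, -, -, h⟩ := H16.AutF.invol α
  exact ⟨σ, h⟩

end Pool.Agent.S02231
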