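import Pool.Statements.S02271
import Mathlib
import Pool.Agent.H16.Cryst

set_option autoImplicit false
open Pool Pool.MP_908eba_al

namespace Pool.Agent.S02271
open Pool.Agent.H16.Cryst

def B (p q : ℕ) : (Fin p ⊕ Fin q → ℝ) →ₗ[ℝ] (Fin p ⊕ Fin q → ℝ) →ₗ[ℝ] ℝ :=
  LinearMap.mk₂ ℝ (fun v w => ∑ i, v (Sum.inl i) * w (Sum.inl i) - ∑ j, v (Sum.inr j) * w (Sum.inr j))
    (fun _ _ _ => by simp [add_mul, Finset.sum_add_distrib]; ring)
    (fun _ _ _ => by simp [Finset.mul_sum, mul_sub, mul_assoc])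
    (fun _ _ _ => by simp [mul_add, Finset.sum_add_distrib]; ring)
    (fun _ _ _ => by simp [Finset.mul_sum, mul_sub, mul_left_comm])

theorem B_apply {p q : ℕ} (v w : Fin p ⊕ Fin q → ℝ) : B p q v w =
    ∑ i, v (Sum.inl i) * w (Sum.inl i) - ∑ j, v (Sum.inr j) * w (Sum.inr j) := rfl

theorem B_symm {p q : ℕ} (v w : Fin p ⊕ Fin q → ℝ) : B p q v w = B p q w v := by
  simp [B_apply, mul_comm]

theorem B_nd {p q : ℕ} (v : Fin p ⊕ Fin q → ℝ) (h : ∀ w, B p q v w = 0) : v = 0 := by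
  funext i
  have := h (Pi.single i 1)
  rcases i with i | i <;> simpa [B_apply, Pi.single_apply] using this

def lin (V : Type) [AddCommGroup V] [Module ℝ V] : (V ≃ᵃ[ℝ] V) →* Module.End ℝ V where
  toFun f := f.linear.toLinearMap
  map_one' := rfl
  map_mul' _ _ := rfl

theorem lin_one {V : Type} [AddCommGroup V] [Module ℝ V] (f : V ≃ᵃ[ℝ] V) :
    lin V f = 1 ↔ f.linear = LinearEquiv.refl ℝ V :=
  ⟨fun h => LinearEquiv.toLinearMap_injective h, fun h => congrArg LinearEquiv.toLinearMap h⟩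

theorem app {V : Type} [AddCommGroup V] [Module ℝ V] (f : V ≃ᵃ[ℝ] V) (v : V) :
    f v = f 0 + lin V f v := by
  have := f.map_vadd 0 v
  show f v = f 0 + f.linear v
  simpa [add_comm] using this

/-- For every crystallographic group Γ of motions of ℝ^{p,q}, only finitely many subgroups of Γ arise as the translation lattice under some faithful realisation of Γ as a crystallographic group of motions of ℝ^{p,q}. -/
theorem result :
  ∀ (p q : ℕ) (Γ : Subgroup ((Fin p ⊕ Fin q → ℝ) ≃ᵃ[ℝ] (Fin p ⊕ Fin q → ℝ))),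
    (∀ f ∈ Γ, ∀ v : Fin p ⊕ Fin q → ℝ,
      (∑ i : Fin p, (f.linear v (Sum.inl i)) ^ 2) - (∑ j : Fin q, (f.linear v (Sum.inr j)) ^ 2)
        = (∑ i : Fin p, (v (Sum.inl i)) ^ 2) - (∑ j : Fin q, (v (Sum.inr j)) ^ 2)) →
    (∃ b : Module.Basis (Fin p ⊕ Fin q) ℝ (Fin p ⊕ Fin q → ℝ),
      {w : Fin p ⊕ Fin q → ℝ | ∃ f ∈ Γ, f.linear = LinearEquiv.refl ℝ (Fin p ⊕ Fin q → ℝ) ∧ f 0 = w}
        = (Submodule.span ℤ (Set.range b) : Set (Fin p ⊕ Fin q → ℝ))) →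
    {L : Subgroup Γ | ∃ φ : Γ →* ((Fin p ⊕ Fin q → ℝ) ≃ᵃ[ℝ] (Fin p ⊕ Fin q → ℝ)),
        Function.Injective φ ∧
        (∀ g : Γ, ∀ v : Fin p ⊕ Fin q → ℝ,
          (∑ i : Fin p, ((φ g).linear v (Sum.inl i)) ^ 2) - (∑ j : Fin q, ((φ g).linear v (Sum.inr j)) ^ 2)
            = (∑ i : Fin p, (v (Sum.inl i)) ^ 2) - (∑ j : Fin q, (v (Sum.inr j)) ^ 2)) ∧
        (∃ b : Module.Basis (Fin p ⊕ Fin q) ℝ (Fin p ⊕ Fin q → ℝ),
          {w : Fin p ⊕ Fin q → ℝ | ∃ g : Γ, (φ g).linear = LinearEquiv.refl ℝ (Fin p ⊕ Fin q → ℝ) ∧ φ g 0 = w}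
            = (Submodule.span ℤ (Set.range b) : Set (Fin p ⊕ Fin q → ℝ))) ∧
        ∀ g : Γ, g ∈ L ↔ (φ g).linear = LinearEquiv.refl ℝ (Fin p ⊕ Fin q → ℝ)}.Finite := by
  intro p q Γ _ _
  refine (main (G := Γ) (B p q) B_symm B_nd).subset ?_
  rintro L ⟨φ, hi, ho, ⟨b, hb⟩, hL⟩
  have he : ∀ j, ∃ g : Γ, (φ g).linear = LinearEquiv.refl ℝ _ ∧ φ g 0 = b j := fun j =>
    hb.ge (Submodule.subset_span ⟨j, rfl⟩)
  choose e e1 e2 using he
  refine ⟨⟨(lin _).comp φ, fun g => φ g 0, fun g h => ?_, fun g h1 h2 => hi ?_, b, e,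
    fun j => (lin_one _).2 (e1 j), e2, fun g h => hb.le ⟨g, (lin_one _).1 h, rfl⟩,
    fun g v w => ?_⟩, fun g => (hL g).trans (lin_one _).symm⟩
  · rw [map_mul]
    exact app (φ g) (φ h 0)
  · rw [map_one]
    refine AffineEquiv.ext fun v => ?_
    have h1 : lin _ (φ g) = 1 := h1
    have h2 : φ g 0 = 0 := h2
    rw [app, h1, h2]
    simp
  · have hq : ∀ v, B p q (lin _ (φ g) v) (lin _ (φ g) v) = B p q v v := fun v => by
      have := ho g v
      simp only [sq] at this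
      exact this
    have := hq (v + w)
    simp only [map_add, LinearMap.add_apply, hq, B_symm w v,
      B_symm (lin _ (φ g) w) (lin _ (φ g) v)] at this
    show B p q (lin _ (φ g) v) (lin _ (φ g) w) = _
    linarith

end Pool.Agent.S02271
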