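import Pool.Statements.S02284
import Pool.Agent.H3.EllB

set_option autoImplicit false
open Pool Pool.MP_918b6a_al

namespace Pool.Agent.S02284

/-- The negation of the preceding statement: In any lattice-ordered group whose only normal convex sublattice-subgroups are trivial or everything, every normal convex subgroup is also trivial or everything. -/
theorem result :
    ¬ (∀ (G : Type) [Group G] [Lattice G] [MulLeftMono G] [MulRightMono G],
      (∀ H : Subgroup G, H.Normal →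
          (∀ a b g : G, a ∈ H → b ∈ H → a ≤ g → g ≤ b → g ∈ H) →
          (∀ a b : G, a ∈ H → b ∈ H → a ⊔ b ∈ H ∧ a ⊓ b ∈ H) →
          H = ⊥ ∨ H = ⊤) →
      ∀ H : Subgroup G, H.Normal →
        (∀ a b g : G, a ∈ H → b ∈ H → a ≤ g → g ≤ b → g ∈ H) →
        H = ⊥ ∨ H = ⊤) := by
  intro h
  have pos : ∀ g : H3.Ell.G, g ≠ 1 → g ⊔ 1 ≠ 1 ∨ g⁻¹ ⊔ 1 ≠ 1 := by
    intro g hg
    by_contra hc
    push Not at hc
    have h1 : g ≤ 1 := sup_eq_right.1 hc.1
    have h2 : g⁻¹ ≤ 1 := sup_eq_right.1 hc.2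
    exact hg (le_antisymm h1 (Left.inv_le_one_iff.1 h2))
  obtain ⟨n, hn, hn1⟩ := H3.Ell.exN
  rcases h H3.Ell.G (fun K hK hc hs => by
      by_cases hb : K = ⊥
      · exact Or.inl hb
      right
      obtain ⟨g, hg, g1, g2⟩ : ∃ g ∈ K, 1 ≤ g ∧ g ≠ 1 := by
        obtain ⟨x, hx, hx1⟩ := (K.bot_or_exists_ne_one).resolve_left hb
        rcases pos x hx1 with e | e
        · exact ⟨_, (hs _ _ hx K.one_mem).1, le_sup_right, e⟩
        · exact ⟨_, (hs _ _ (K.inv_mem hx) K.one_mem).1, le_sup_right, e⟩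
      refine eq_top_iff.2 fun y _ => ?_
      obtain ⟨u, hu⟩ := H3.Ell.dom g1 g2 y
      obtain ⟨v, hv⟩ := H3.Ell.dom g1 g2 y⁻¹
      exact hc _ _ _ (K.inv_mem (hK.conj_mem g hg v)) (hK.conj_mem g hg u) (inv_le'.1 hv) hu)
    H3.Ell.N H3.Ell.Nnormal (fun a b g ha hb h1 h2 => by
      have e := H3.Ell.Ntriv (H3.Ell.N.mul_mem (H3.Ell.N.inv_mem ha) hb)
        (by simpa using h1.trans h2)
      have e2 : a = b := inv_mul_eq_one.1 e
      rw [← le_antisymm h1 (e2 ▸ h2)]
      exact ha) with e | e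
  · rw [e] at hn; exact hn1 hn
  · rcases pos n hn1 with k | k <;> exact k (H3.Ell.Ntriv (e ▸ trivial) le_sup_right)

end Pool.Agent.S02284
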