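import Pool.Statements.S02286
-- import your own Pool.Agent.* helpers here

set_option autoImplicit false
open Pool Pool.MP_91b10e_al

namespace Pool.Agent.S02286

/-- The negation of the preceding statement: For every group G, if the Zariski topology (closed subbasis: solution sets of one-variable equations with constants from G) is compact, then it is Noetherian. -/
theorem result :
    ¬ (∀ (G : Type) [Group G],
      @IsCompact G
        (TopologicalSpace.generateFrom
          {U : Set G | ∃ w : Monoid.Coprod G (Multiplicative ℤ),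
            U = {x : G | Monoid.Coprod.lift (MonoidHom.id G) (zpowersHom G x) w ≠ 1}})
        Set.univ →
      @TopologicalSpace.NoetherianSpace G
        (TopologicalSpace.generateFrom
          {U : Set G | ∃ w : Monoid.Coprod G (Multiplicative ℤ),
            U = {x : G | Monoid.Coprod.lift (MonoidHom.id G) (zpowersHom G x) w ≠ 1}})) := by
  classical
  intro h
  let S := Equiv.Perm (Fin 3)
  let _ : TopologicalSpace S := ⊥
  have : DiscreteTopology S := ⟨rfl⟩
  have hc : ∀ w : Monoid.Coprod (ℕ → S) (Multiplicative ℤ), Continuous fun x : ℕ → S =>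
      Monoid.Coprod.lift (MonoidHom.id (ℕ → S)) (zpowersHom (ℕ → S) x) w := fun w => by
    induction w using Monoid.Coprod.induction_on with
    | inl g => simpa using continuous_const
    | inr n => simpa using continuous_zpow (G := ℕ → S) n.toAdd
    | mul a b ha hb => simp only [map_mul]; exact ha.mul hb
  have h1 := h (ℕ → S) (by
    have := @IsCompact.image _ _ _ (TopologicalSpace.generateFrom
          {U : Set (ℕ → S) | ∃ w : Monoid.Coprod (ℕ → S) (Multiplicative ℤ),
            U = {x | Monoid.Coprod.lift (MonoidHom.id _) (zpowersHom _ x) w ≠ 1}}) _ id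
      isCompact_univ (continuous_id_of_le (le_generateFrom (by
        rintro _ ⟨w, rfl⟩
        exact isOpen_ne_fun (hc w) continuous_const)))
    simpa using this)
  have h2 := @TopologicalSpace.NoetherianSpace.isCompact _ (TopologicalSpace.generateFrom _) h1 {x | x ≠ 1}
  obtain ⟨t, ht⟩ := @IsCompact.elim_finite_subcover _ (TopologicalSpace.generateFrom _) _ (ℕ × S) h2
    (fun p => {x | x * Pi.mulSingle p.1 p.2 * x⁻¹ * (Pi.mulSingle p.1 p.2)⁻¹ ≠ 1})
    (fun p => TopologicalSpace.isOpen_generateFrom_of_mem
      ⟨Monoid.Coprod.inr (Multiplicative.ofAdd 1) * Monoid.Coprod.inl (Pi.mulSingle p.1 p.2) *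
        Monoid.Coprod.inr (Multiplicative.ofAdd (-1)) *
        Monoid.Coprod.inl (Pi.mulSingle p.1 p.2)⁻¹, by simp⟩)
    (fun x hx => by
      obtain ⟨n, hn⟩ := Function.ne_iff.1 hx
      have : ∀ a : S, a ≠ 1 → ∃ g : S, a * g * a⁻¹ * g⁻¹ ≠ 1 := by decide
      obtain ⟨g, hg⟩ := this _ hn
      exact Set.mem_iUnion.2 ⟨(n, g), fun e => hg (by simpa using congrFun e n)⟩)
  obtain ⟨m, hm⟩ := Infinite.exists_notMem_finset (t.image Prod.fst)
  have h3 : (Pi.mulSingle m (Equiv.swap 0 1) : ℕ → S) ≠ 1 := fun e => by
    have := congrFun e m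
    rw [Pi.mulSingle_eq_same] at this
    exact (by decide : (Equiv.swap 0 1 : Equiv.Perm (Fin 3)) ≠ 1) this
  obtain ⟨p, hp, h4⟩ := Set.mem_iUnion₂.1 (ht h3)
  refine h4 (funext fun k => ?_)
  by_cases hk : k = m
  · have : k ≠ p.1 := fun e => hm (Finset.mem_image.2 ⟨p, hp, e ▸ hk⟩)
    simp only [Pi.mul_apply, Pi.inv_apply, Pi.mulSingle_eq_of_ne this, Pi.one_apply, mul_one,
      one_mul, inv_one]
    exact mul_inv_cancel (G := S) _
  · simp only [Pi.mul_apply, Pi.inv_apply, Pi.mulSingle_eq_of_ne hk, Pi.one_apply, mul_one,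
      one_mul, inv_one]
    exact mul_inv_cancel (G := S) _

end Pool.Agent.S02286
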