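import Pool.Statements.S02387
import Pool.Agent.H6.SqCount

set_option autoImplicit false
open Pool Pool.MP_970c5e_al

namespace Pool.Agent.S02387

theorem card_sq_le' (A : Type) [CommGroup A] [Finite A] :
    Nat.card {x : A // x * x = 1} ≤ 2 ^ Group.rank A := by
  let φ : A →* A := powMonoidHom 2
  have h1 : Nat.card {x : A // x * x = 1} = Nat.card φ.ker := by
    refine Nat.card_congr (Equiv.subtypeEquivRight ?_)
    intro x
    simp [φ, MonoidHom.mem_ker, sq]
  have h2 : Nat.card φ.ker = Nat.card (A ⧸ φ.range) := by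
    have e1 := Subgroup.card_mul_index φ.ker
    rw [Subgroup.index_ker] at e1
    have e2 := Subgroup.card_mul_index φ.range
    have hp : 0 < Nat.card φ.range := Nat.card_pos
    rw [← Subgroup.index_eq_card]
    apply Nat.eq_of_mul_eq_mul_right hp
    rw [e1, mul_comm, e2]
  have h3 : Nat.card (A ⧸ φ.range) ∣ 2 ^ Group.rank (A ⧸ φ.range) := by
    apply card_dvd_exponent_pow_rank'
    intro q
    obtain ⟨y, rfl⟩ := QuotientGroup.mk_surjective q
    rw [← QuotientGroup.mk_pow, QuotientGroup.eq_one_iff]
    exact ⟨y, rfl⟩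
  have h4 : Group.rank (A ⧸ φ.range) ≤ Group.rank A :=
    Group.rank_le_of_surjective _ (QuotientGroup.mk'_surjective φ.range)
  calc _ = _ := h1.trans h2
    _ ≤ _ := Nat.le_of_dvd (by positivity) h3
    _ ≤ _ := Nat.pow_le_pow_right (by norm_num) h4

theorem card_sq_le (A : Type) [Group A] [IsMulCommutative A] [Finite A] :
    Nat.card {x : A // x * x = 1} ≤ 2 ^ Group.rank A :=
  @card_sq_le' A { (inferInstance : Group A) with mul_comm := mul_comm' } _

/-- For every finite 2-group in which all elements of order dividing 2 are central, the index of the subgroup generated by squares is at most 2 to the power twice the minimal number of generators of the center. -/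
theorem result :
    ∀ (G : Type) [Group G] [Finite G], IsPGroup 2 G →
      (∀ g : G, g ^ 2 = 1 → g ∈ Subgroup.center G) →
      (Subgroup.closure {x : G | ∃ g : G, g ^ 2 = x}).index
        ≤ 2 ^ (2 * Group.rank (Subgroup.center G)) := by
  intro G _ _ hP hc
  have : Fact (Nat.Prime 2) := ⟨Nat.prime_two⟩
  set K := Subgroup.closure {x : G | ∃ g : G, g ^ 2 = x} with hK
  have hN : K.Normal := by
    constructor
    intro n hn g
    induction hn using Subgroup.closure_induction with
    | mem x hx =>
      obtain ⟨y, rfl⟩ := hx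
      exact Subgroup.subset_closure ⟨g * y * g⁻¹, by simp [sq, mul_assoc]⟩
    | one => simp
    | mul x y _ _ hx hy =>
      have := K.mul_mem hx hy
      convert this using 1; group
    | inv x _ hx =>
      have := K.inv_mem hx
      convert this using 1; group
  have hπ : ∀ x : G, QuotientGroup.mk' K (x * x) = 1 := by
    intro x
    rw [QuotientGroup.mk'_apply, QuotientGroup.eq_one_iff]
    exact Subgroup.subset_closure ⟨x, sq x⟩
  obtain ⟨d, hd⟩ := IsPGroup.iff_card.1 (hP.to_quotient K)
  have hdvd := Pool.Agent.H6.SqCount.two_pow_dvd hP (QuotientGroup.mk' K) hπ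
    (QuotientGroup.mk'_surjective K) ((d + 1) / 2) (by
      rw [hd]
      calc 4 ^ ((d + 1) / 2) = 2 ^ (2 * ((d + 1) / 2)) := by rw [pow_mul]; norm_num
        _ ≤ 2 ^ (d + 1) := Nat.pow_le_pow_right (by norm_num) (by omega)
        _ = _ := by ring)
  have hpos : 0 < Nat.card {x : G // x * x = 1} := by
    have : Nonempty {x : G // x * x = 1} := ⟨⟨1, by simp⟩⟩
    exact Nat.card_pos
  have h1 : Nat.card {x : G // x * x = 1} = Nat.card {x : Subgroup.center G // x * x = 1} := by
    refine Nat.card_congr
      { toFun := fun x => ⟨⟨x.1, hc x.1 (by rw [sq]; exact x.2)⟩, Subtype.ext x.2⟩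
        invFun := fun y => ⟨y.1.1, congrArg Subtype.val y.2⟩
        left_inv := fun x => rfl
        right_inv := fun y => rfl }
  have h2 := card_sq_le (Subgroup.center G)
  have h5 : 2 ^ ((d + 1) / 2) ≤ 2 ^ Group.rank (Subgroup.center G) := by
    calc _ ≤ _ := Nat.le_of_dvd hpos hdvd
      _ = _ := h1
      _ ≤ _ := h2
  have h6 := (Nat.pow_le_pow_iff_right (by norm_num : 1 < 2)).1 h5
  rw [Subgroup.index_eq_card, hd]
  exact Nat.pow_le_pow_right (by norm_num) (by omega)

end Pool.Agent.S02387
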