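import Pool.Statements.S02397
import Pool.Agent.H5.CFG
import Pool.Agent.H5.Gold

set_option autoImplicit false
open Pool Pool.MP_977c67_al

namespace Pool.Agent.S02397

open Pool.Agent.H5.CFG Pool.Agent.H5.Gold

inductive NT
  | start
  | pal
  | any
  | J (e : Bool)
  | N (e : Bool) (l d : ℤ)

abbrev Sy := Symbol (Option Bool) NT

def dir {β : Type} (e : Bool) (xs : List β) : List β := if e then xs else xs.reverse

def tt (a : Bool) : Sy := Symbol.terminal (some a)
def nn (n : NT) : Sy := Symbol.nonterminal n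

def rho (e : Bool) (l d : ℤ) (a : Bool) : ContextFreeRule (Option Bool) NT :=
  if 3 ≤ |d| then ⟨NT.N e l d, [nn NT.any]⟩
  else if l ≤ 0 then ⟨NT.N e l d, dir e [tt a, nn (NT.N e (l + 1) (d + o [a]))]⟩
  else ⟨NT.N e l d, dir e [nn (NT.N e (l - (2 * z [a] + o [a])) (d - z [a])), tt a]⟩

def base (a : Bool) : List (ContextFreeRule (Option Bool) NT) :=
  [⟨NT.start, [nn NT.pal]⟩,
   ⟨NT.start, [nn (NT.J true), Symbol.terminal none, nn (NT.J false)]⟩,
   ⟨NT.pal, [tt a, nn NT.pal, tt a]⟩,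
   ⟨NT.pal, [tt a, Symbol.terminal none, tt a]⟩,
   ⟨NT.any, []⟩,
   ⟨NT.any, [tt a, nn NT.any]⟩,
   ⟨NT.J a, [nn NT.any, nn (NT.N a 0 0), nn NT.any]⟩]

def ruleSet : Set (ContextFreeRule (Option Bool) NT) :=
  {r | ∃ a, r ∈ base a} ∪ {r | ∃ e l d a, |l| ≤ 1 ∧ |d| ≤ 3 ∧ r = rho e l d a}

theorem ruleSet_finite : ruleSet.Finite := by
  refine Set.Finite.union ?_ ?_
  · have : {r | ∃ a, r ∈ base a} = ⋃ a, {r | r ∈ base a} := by ext; simp
    rw [this]
    exact Set.finite_iUnion fun a => List.finite_toSet _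
  · have hfin : ((Set.univ : Set Bool) ×ˢ (Set.Icc (-1 : ℤ) 1) ×ˢ (Set.Icc (-3 : ℤ) 3) ×ˢ
        (Set.univ : Set Bool)).Finite :=
      Set.finite_univ.prod ((Set.finite_Icc _ _).prod ((Set.finite_Icc _ _).prod Set.finite_univ))
    refine (hfin.image fun x => rho x.1 x.2.1 x.2.2.1 x.2.2.2).subset ?_
    rintro r ⟨e, l, d, a, hl, hd, rfl⟩
    exact ⟨(e, l, d, a), ⟨trivial, abs_le.mp hl, abs_le.mp hd, trivial⟩, rfl⟩

noncomputable def g : ContextFreeGrammar (Option Bool) := ⟨NT, NT.start, ruleSet_finite.toFinset⟩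

theorem mem_rules (r : ContextFreeRule (Option Bool) NT) : r ∈ g.rules ↔ r ∈ ruleSet :=
  ruleSet_finite.mem_toFinset

def Sem : NT → List (Option Bool) → Prop
  | NT.start, w => ∃ u v : List Bool, u ≠ [] ∧ v ≠ [] ∧ (u = v ∨ (I u ∧ I v)) ∧
      w = u.map some ++ [none] ++ v.reverse.map some
  | NT.pal, w => ∃ u : List Bool, u ≠ [] ∧ w = u.map some ++ [none] ++ u.reverse.map some
  | NT.any, w => ∃ u : List Bool, w = u.map some
  | NT.J e, w => ∃ u : List Bool, I u ∧ w = (dir e u).map some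
  | NT.N e l d, w => ∃ u : List Bool, G l d u ∧ w = (dir e u).map some

theorem sound_rules : ∀ r ∈ g.rules, ∀ w, Y Sem r.output w → Sem r.input w := by
  intro r hr w hw
  rcases (mem_rules r).mp hr with ⟨a, ha⟩ | ⟨e, l, d, a, hl, hd, rfl⟩
  · simp only [base, List.mem_cons, List.not_mem_nil, or_false] at ha
    rcases ha with rfl | rfl | rfl | rfl | rfl | rfl | rfl
    · obtain ⟨x, w', rfl, ⟨u, hu, rfl⟩, rfl⟩ := hw
      exact ⟨u, u, hu, hu, Or.inl rfl, by simp⟩
    · obtain ⟨x, w', rfl, ⟨u, hu, rfl⟩, w2, rfl, y, w3, rfl, ⟨v, hv, rfl⟩, rfl⟩ := hw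
      refine ⟨u, v, ?_, ?_, Or.inr ⟨hu, hv⟩, by simp [dir]⟩
      · rintro rfl; exact I_ne_nil hu
      · rintro rfl; exact I_ne_nil hv
    · obtain ⟨w1, rfl, x, w', rfl, ⟨u, hu, rfl⟩, w2, rfl, rfl⟩ := hw
      exact ⟨a :: u, by simp, by simp⟩
    · obtain ⟨w1, rfl, w2, rfl, w3, rfl, rfl⟩ := hw
      exact ⟨[a], by simp, by simp⟩
    · exact ⟨[], hw⟩
    · obtain ⟨w1, rfl, x, w', rfl, ⟨u, rfl⟩, rfl⟩ := hw
      exact ⟨a :: u, by simp⟩
    · obtain ⟨x, w', rfl, ⟨s, rfl⟩, y, w2, rfl, ⟨m, hm, rfl⟩, y', w3, rfl, ⟨t, rfl⟩, rfl⟩ := hw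
      cases a
      · exact ⟨t.reverse ++ m ++ s.reverse, ⟨_, m, _, rfl, hm⟩, by simp [dir]⟩
      · exact ⟨s ++ m ++ t, ⟨_, m, _, rfl, hm⟩, by simp [dir]⟩
  · unfold rho at hw ⊢
    split_ifs at hw ⊢ with h1 h2
    · obtain ⟨x, w', rfl, ⟨u, rfl⟩, rfl⟩ := hw
      exact ⟨dir e u, G.stop _ _ _ h1, by cases e <;> simp [dir]⟩
    · cases e
      · obtain ⟨x, w', rfl, ⟨u, hu, rfl⟩, w2, rfl, rfl⟩ := hw
        exact ⟨a :: u, G.left _ _ _ _ h1 h2 hu, by simp [dir]⟩
      · obtain ⟨w1, rfl, x, w', rfl, ⟨u, hu, rfl⟩, rfl⟩ := hw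
        exact ⟨a :: u, G.left _ _ _ _ h1 h2 hu, by simp [dir]⟩
    · cases e
      · obtain ⟨w1, rfl, x, w', rfl, ⟨u, hu, rfl⟩, rfl⟩ := hw
        exact ⟨u ++ [a], G.right _ _ _ _ h1 h2 hu, by simp [dir]⟩
      · obtain ⟨x, w', rfl, ⟨u, hu, rfl⟩, w2, rfl, rfl⟩ := hw
        exact ⟨u ++ [a], G.right _ _ _ _ h1 h2 hu, by simp [dir]⟩

theorem base_mem (a : Bool) (r : ContextFreeRule (Option Bool) NT) (h : r ∈ base a) :
    r ∈ g.rules := (mem_rules r).mpr (Or.inl ⟨a, h⟩)

theorem der_base (a : Bool) (n : NT) (out : List Sy)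
    (h : (⟨n, out⟩ : ContextFreeRule (Option Bool) NT) ∈ base a) (w : List (Option Bool))
    (hY : Y (N := NT) (Der g) out w) : Der g n w :=
  der_of_rule g _ (base_mem a _ h) w hY

theorem der_any (u : List Bool) : Der g NT.any (u.map some) := by
  induction u with
  | nil => exact der_base true (NT.any) [] (by simp [base]) _ rfl
  | cons a u ih =>
    exact der_base a (NT.any) [tt a, nn NT.any] (by simp [base]) _
      ⟨u.map some, rfl, u.map some, [], by simp, ih, rfl⟩

theorem der_pal (u : List Bool) (hu : u ≠ []) :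
    Der g NT.pal (u.map some ++ [none] ++ u.reverse.map some) := by
  induction u with
  | nil => exact absurd rfl hu
  | cons a u ih =>
    by_cases h : u = []
    · subst h
      exact der_base a (NT.pal) [tt a, Symbol.terminal none, tt a] (by simp [base]) _ ⟨_, rfl, _, rfl, _, rfl, rfl⟩
    · exact der_base a (NT.pal) [tt a, nn NT.pal, tt a] (by simp [base]) _
        ⟨u.map some ++ [none] ++ u.reverse.map some ++ [some a], by simp, _, [some a], rfl, ih h,
          [], rfl, rfl⟩

theorem der_N (e : Bool) {l d : ℤ} {u : List Bool} (h : G l d u) (hl : |l| ≤ 1) (hd : |d| ≤ 3) :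
    Der g (NT.N e l d) ((dir e u).map some) := by
  induction h with
  | stop l d w h1 =>
    have hr : rho e l d true ∈ g.rules := (mem_rules _).mpr (Or.inr ⟨e, l, d, true, hl, hd, rfl⟩)
    rw [rho, if_pos h1] at hr
    exact der_of_rule g _ hr _ ⟨_, [], by simp, der_any (dir e w), rfl⟩
  | left l d a w h1 h2 _ ih =>
    have hr : rho e l d a ∈ g.rules := (mem_rules _).mpr (Or.inr ⟨e, l, d, a, hl, hd, rfl⟩)
    rw [rho, if_neg h1, if_pos h2] at hr
    have h3 := oz_one a
    have h4 := o_nonneg [a]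
    have h5 := z_nonneg [a]
    have ih' := ih (by rw [abs_le] at hl ⊢; omega) (by
      rw [not_le, abs_lt] at h1; rw [abs_le]; omega)
    refine der_of_rule g _ hr _ ?_
    cases e
    · exact ⟨_, [some a], by simp [dir], ih', [], rfl, rfl⟩
    · exact ⟨w.map some, by simp [dir], _, [], by simp [dir], ih', rfl⟩
  | right l d a w h1 h2 _ ih =>
    have hr : rho e l d a ∈ g.rules := (mem_rules _).mpr (Or.inr ⟨e, l, d, a, hl, hd, rfl⟩)
    rw [rho, if_neg h1, if_neg h2] at hr
    have h3 := oz_one a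
    have h4 := o_nonneg [a]
    have h5 := z_nonneg [a]
    have ih' := ih (by rw [abs_le] at hl ⊢; omega) (by
      rw [not_le, abs_lt] at h1; rw [abs_le]; omega)
    refine der_of_rule g _ hr _ ?_
    cases e
    · exact ⟨w.reverse.map some, by simp [dir], _, [], by simp [dir], ih', rfl⟩
    · exact ⟨_, [some a], by simp [dir], ih', [], rfl, rfl⟩

theorem der_J (e : Bool) {u : List Bool} (h : I u) : Der g (NT.J e) ((dir e u).map some) := by
  obtain ⟨s, m, t, rfl, hm⟩ := h
  refine der_base e (NT.J e) [nn NT.any, nn (NT.N e 0 0), nn NT.any] (by simp [base]) _ ?_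
  have hN := der_N e hm (by simp) (by simp)
  cases e
  · exact ⟨_, _, by simp [dir], der_any t.reverse, _, _, rfl, hN, _, [], rfl, der_any s.reverse, rfl⟩
  · exact ⟨_, _, by simp [dir], der_any s, _, _, rfl, hN, _, [], rfl, der_any t, rfl⟩

theorem der_start (w : List (Option Bool)) (h : Sem NT.start w) : Der g NT.start w := by
  obtain ⟨u, v, hu, hv, rfl | ⟨h1, h2⟩, rfl⟩ := h
  · exact der_base true (NT.start) [nn NT.pal] (by simp [base]) _
      ⟨_, [], by simp, der_pal u hu, rfl⟩
  · exact der_base true (NT.start) [nn (NT.J true), Symbol.terminal none, nn (NT.J false)] (by simp [base]) _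
      ⟨_, _, by simp [dir], der_J true h1, _, rfl, _, [], rfl, der_J false h2, rfl⟩

/-- nonempty words -/
abbrev W : Type := {u : List Bool // u ≠ []}

instance instW : Semigroup W where
  mul u v := ⟨u.1 ++ v.1, by simp [u.2]⟩
  mul_assoc u v w := Subtype.ext (List.append_assoc _ _ _)

theorem W_mul (u v : W) : (u * v).1 = u.1 ++ v.1 := rfl

def rees : Con W where
  r u v := u.1 = v.1 ∨ (I u.1 ∧ I v.1)
  iseqv := ⟨fun _ => Or.inl rfl, fun h => h.elim (fun h => Or.inl h.symm) (fun h => Or.inr h.symm),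
    fun {x y w} h1 h2 => by
      rcases h1 with h1 | h1
      · rw [h1]; exact h2
      · rcases h2 with h2 | h2
        · rw [← h2]; exact Or.inr h1
        · exact Or.inr ⟨h1.1, h2.2⟩⟩
  mul' := fun {a b c d} h1 h2 => by
    show (a.1 ++ c.1 = b.1 ++ d.1) ∨ (I (a.1 ++ c.1) ∧ I (b.1 ++ d.1))
    rcases h1 with h1 | h1
    · rcases h2 with h2 | h2
      · left; rw [h1, h2]
      · exact Or.inr ⟨I_append_left _ h2.1, I_append_left _ h2.2⟩
    · exact Or.inr ⟨I_append_right _ h1.1, I_append_right _ h1.2⟩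

def ltr (a : Bool) : rees.Quotient := ((⟨[a], by simp⟩ : W) : rees.Quotient)

theorem prod_eq (u : List Bool) (hu : u ≠ []) :
    (u.map (fun a => ((ltr a : rees.Quotient) : WithOne rees.Quotient))).prod
      = (((⟨u, hu⟩ : W) : rees.Quotient) : WithOne rees.Quotient) := by
  induction u with
  | nil => exact absurd rfl hu
  | cons a u ih =>
    by_cases h : u = []
    · subst h
      simp [ltr]
    · rw [List.map_cons, List.prod_cons, ih h, ← WithOne.coe_mul, ltr, ← Con.coe_mul]
      rfl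

theorem pw_ne (u : W) (n : ℕ) : pw u.1 (n + 1) ≠ [] := by simp [pw, u.2]

/-- There is an infinite semigroup, every element generating a finite subsemigroup, with a finite generating set for which the language of words u#reverse(v), u and v nonempty and equal in the semigroup, is context-free. -/
theorem result :
    ∃ (S : Type) (_ : Semigroup S) (α : Type) (_ : Fintype α) (f : α → S),
      Infinite S ∧
      (∀ x : S, (Subsemigroup.closure ({x} : Set S) : Set S).Finite) ∧
      Subsemigroup.closure (Set.range f) = ⊤ ∧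
      Language.IsContextFree
        ({w : List (Option α) | ∃ u v : List α, u ≠ [] ∧ v ≠ [] ∧
            (u.map (fun a => ((f a : S) : WithOne S))).prod =
              (v.map (fun a => ((f a : S) : WithOne S))).prod ∧
            w = u.map some ++ [none] ++ v.reverse.map some} : Language (Option α)) := by
  refine ⟨rees.Quotient, inferInstance, Bool, inferInstance, ltr, ?_, ?_, ?_, ?_⟩
  · choose w hw hI using exists_not_I
    have hne : ∀ n, w (n + 1) ≠ [] := fun n h => by simpa [h] using hw (n + 1)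
    refine Infinite.of_injective (fun n : ℕ => ((⟨w (n + 1), hne n⟩ : W) : rees.Quotient)) ?_
    intro m n hmn
    rcases rees.eq.mp hmn with h | h
    · have := congrArg List.length h
      simpa [hw] using this
    · exact absurd h.1 (hI _)
  · intro x
    obtain ⟨u, rfl⟩ := Quotient.exists_rep x
    obtain ⟨n, hn⟩ := exists_pw_I u.1 u.2
    let F : ℕ → rees.Quotient := fun k => ((⟨pw u.1 (k + 1), pw_ne u k⟩ : W) : rees.Quotient)
    refine ((Set.finite_Iic n).image F).subset ?_
    have h1 : ∀ y ∈ Subsemigroup.closure ({(u : rees.Quotient)} : Set rees.Quotient), ∃ k, y = F k := by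
      intro y hy
      induction hy using Subsemigroup.closure_induction with
      | mem x hx =>
        refine ⟨0, ?_⟩
        rw [Set.mem_singleton_iff.mp hx]
        exact rees.eq.mpr (Or.inl (pw_one u.1).symm)
      | mul x y _ _ hx hy =>
        obtain ⟨k, rfl⟩ := hx
        obtain ⟨m, rfl⟩ := hy
        refine ⟨k + 1 + m, ?_⟩
        simp only [F]
        rw [← Con.coe_mul]
        refine rees.eq.mpr (Or.inl ?_)
        rw [W_mul]
        exact (pw_add u.1 (k + 1) (m + 1)).symm
    intro y hy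
    obtain ⟨k, rfl⟩ := h1 y hy
    by_cases hk : k ≤ n
    · exact ⟨k, hk, rfl⟩
    · refine ⟨n, Set.mem_Iic.mpr le_rfl, rees.eq.mpr (Or.inr ⟨?_, ?_⟩)⟩
      · show I (pw u.1 (n + 1))
        rw [pw_add]; exact I_append_right _ hn
      · show I (pw u.1 (k + 1))
        rw [show k + 1 = n + (k + 1 - n) by omega, pw_add]; exact I_append_right _ hn
  · rw [eq_top_iff]
    intro x _
    obtain ⟨⟨u, hu⟩, rfl⟩ := Quotient.exists_rep x
    induction u with
    | nil => exact absurd rfl hu
    | cons a u ih =>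
      by_cases h : u = []
      · subst h
        exact Subsemigroup.subset_closure ⟨a, rfl⟩
      · exact Subsemigroup.mul_mem _
          (Subsemigroup.subset_closure (Set.mem_range_self (f := ltr) a)) (ih h trivial)
  · refine ⟨g, ?_⟩
    ext w
    rw [language_eq g Sem sound_rules der_start]
    constructor
    · rintro ⟨u, v, hu, hv, h, rfl⟩
      refine ⟨u, v, hu, hv, ?_, rfl⟩
      rw [prod_eq u hu, prod_eq v hv, WithOne.coe_inj]
      exact rees.eq.mpr h
    · rintro ⟨u, v, hu, hv, h, rfl⟩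
      rw [prod_eq u hu, prod_eq v hv, WithOne.coe_inj] at h
      exact ⟨u, v, hu, hv, rees.eq.mp h, rfl⟩

end Pool.Agent.S02397
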