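import Pool.Statements.S02413
import Pool.Agent.H22.Hoehnke

set_option autoImplicit false
open Pool Pool.MP_98297f_al

namespace Pool.Agent.S02413

/-- For every field of characteristic 2 and finite groups G, H of the same odd order: if some bijection makes their generic minimal polynomials have the same degree and the same coefficients strictly between top and constant term, then G and H are isomorphic. -/
theorem result :
    ∀ (K : Type) [Field K] [CharP K 2] (G H : Type) [Group G] [Group H] [Fintype G] [Fintype H],
      Odd (Fintype.card G) → Fintype.card G = Fintype.card H →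
      (∃ π : G ≃ H,
        (minpoly (FractionRing (MvPolynomial G K))
            (∑ g : G, (algebraMap (MvPolynomial G K) (FractionRing (MvPolynomial G K)) (MvPolynomial.X g)) •
              MonoidAlgebra.single g (1 : FractionRing (MvPolynomial G K)))).natDegree =
          (minpoly (FractionRing (MvPolynomial G K))
            (∑ g : G, (algebraMap (MvPolynomial G K) (FractionRing (MvPolynomial G K)) (MvPolynomial.X g)) •
              MonoidAlgebra.single (π g) (1 : FractionRing (MvPolynomial G K)))).natDegree ∧
        ∀ j : ℕ, 1 ≤ j →
          j < (minpoly (FractionRing (MvPolynomial G K))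
            (∑ g : G, (algebraMap (MvPolynomial G K) (FractionRing (MvPolynomial G K)) (MvPolynomial.X g)) •
              MonoidAlgebra.single g (1 : FractionRing (MvPolynomial G K)))).natDegree →
          (minpoly (FractionRing (MvPolynomial G K))
            (∑ g : G, (algebraMap (MvPolynomial G K) (FractionRing (MvPolynomial G K)) (MvPolynomial.X g)) •
              MonoidAlgebra.single g (1 : FractionRing (MvPolynomial G K)))).coeff j =
          (minpoly (FractionRing (MvPolynomial G K))
            (∑ g : G, (algebraMap (MvPolynomial G K) (FractionRing (MvPolynomial G K)) (MvPolynomial.X g)) •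
              MonoidAlgebra.single (π g) (1 : FractionRing (MvPolynomial G K)))).coeff j) →
      Nonempty (G ≃* H) := by
  intro K _ _ G H _ _ _ _ hG hc ⟨π, hd, h⟩
  apply Pool.Agent.H22.Hoehnke.main (K := K) hG (hc ▸ hG) π
  exact Pool.Agent.H22.Hoehnke.eq_of_coeff _ _
    (minpoly.monic (Algebra.IsIntegral.isIntegral _))
    (minpoly.monic (Algebra.IsIntegral.isIntegral _)) hd h _
    (Pool.Agent.H22.Hoehnke.eps_root (fun g => g) _)
    (Pool.Agent.H22.Hoehnke.eps_root (fun g => π g) _)

end Pool.Agent.S02413
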