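import Pool.Statements.S02419
import Pool.Agent.H17.SDR

set_option autoImplicit false
open scoped Pointwise
open Pool Pool.MP_9865ab_al

namespace Pool.Agent.S02419

open Cardinal Pool.Agent.H17

theorem finish {G ι J : Type} [Group G] [Nonempty ι] (κ : Cardinal.{0}) (hι : #ι = κ)
    (col : J → ι) (f : J → G) (hf : Function.Injective f) (F F' : ι → Set G)
    (hF : ∀ i, #(F i) < κ) (hF' : ∀ i, #(F' i) < κ)
    (h1 : ∀ i x, ∃ j, col j = i ∧ ∃ a ∈ F i, x = a * f j)
    (h2 : ∀ i x, ∃ j, col j = i ∧ ∃ a ∈ F' i, x = f j * a) :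
    ∃ P : Set (Set G), Setoid.IsPartition P ∧ Cardinal.mk P = κ ∧ ∀ A ∈ P,
      (∃ F : Set G, Cardinal.mk F < κ ∧ F * A = Set.univ) ∧
      (∃ F : Set G, Cardinal.mk F < κ ∧ A * F = Set.univ) := by
  classical
  let c : G → ι := Function.extend f col (fun _ => Classical.arbitrary ι)
  have hc : ∀ j, c (f j) = col j := fun j => hf.extend_apply _ _ j
  have hs : Function.Surjective c := by
    intro i
    obtain ⟨j, hj, _⟩ := h1 i 1
    exact ⟨f j, (hc j).trans hj⟩
  refine ⟨Set.range fun i => c ⁻¹' {i}, ⟨?_, fun a => ⟨c ⁻¹' {c a}, ⟨⟨_, rfl⟩, rfl⟩, ?_⟩⟩, ?_, ?_⟩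
  · rintro ⟨i, hi⟩
    obtain ⟨g, hg⟩ := hs i
    have : g ∈ c ⁻¹' {i} := hg
    simp only at hi
    rw [hi] at this
    exact this
  · rintro _ ⟨⟨i, rfl⟩, hi⟩
    have : c a = i := hi
    rw [this]
  · rw [mk_range_eq _ fun a b h => ?_, hι]
    obtain ⟨g, hg⟩ := hs a
    have h3 : g ∈ c ⁻¹' {a} := hg
    rw [h] at h3
    exact hg.symm.trans h3
  · rintro _ ⟨i, rfl⟩
    refine ⟨⟨F i, hF i, Set.eq_univ_of_forall fun x => ?_⟩,
      ⟨F' i, hF' i, Set.eq_univ_of_forall fun x => ?_⟩⟩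
    · obtain ⟨j, hj, a, ha, rfl⟩ := h1 i x
      exact Set.mul_mem_mul ha ((hc j).trans hj)
    · obtain ⟨j, hj, a, ha, rfl⟩ := h2 i x
      exact Set.mul_mem_mul ((hc j).trans hj) ha

theorem case_countable (G : Type) [Group G] [Infinite G] :
    ∃ P : Set (Set G), Setoid.IsPartition P ∧ Cardinal.mk P = ℵ₀ ∧ ∀ A ∈ P,
      (∃ F : Set G, Cardinal.mk F < ℵ₀ ∧ F * A = Set.univ) ∧
      (∃ F : Set G, Cardinal.mk F < ℵ₀ ∧ A * F = Set.univ) := by
  classical
  choose E hE using fun k : ℕ => Infinite.exists_subset_card_eq G (2 ^ (k + 1))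
  let B : ℕ → G → Finset G := fun k x =>
    if k % 2 = 0 then (E k).image (· * x) else (E k).image (x * ·)
  have hB : ∀ k x, (B k x).card = 2 ^ (k + 1) := by
    intro k x
    simp only [B]
    split_ifs
    · rw [Finset.card_image_of_injective _ (mul_left_injective x), hE]
    · rw [Finset.card_image_of_injective _ (mul_right_injective x), hE]
  choose M hM1 hM2 using fun k => max_pairwise (fun x y => Disjoint (B k x) (B k y))
    (fun _ _ h => h.symm)
  obtain ⟨f, hf1, hf2⟩ := hall_blocks B M hB hM1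
  have hM3 : ∀ k x, ∃ y ∈ M k, ∃ z, z ∈ B k x ∧ z ∈ B k y := by
    intro k x
    rcases hM2 k x with h | ⟨y, hy, h⟩
    · obtain ⟨z, hz⟩ : (B k x).Nonempty := by
        rw [← Finset.card_pos, hB]
        positivity
      exact ⟨x, h, z, hz, hz⟩
    · exact ⟨y, hy, Finset.not_disjoint_iff.1 h⟩
  refine finish ℵ₀ mk_nat (fun p : {p : ℕ × G // p.2 ∈ M p.1} => p.1.1 / 2) f hf1
    (fun n => ↑((E (2 * n))⁻¹ * E (2 * n) * (E (2 * n))⁻¹))
    (fun n => ↑((E (2 * n + 1))⁻¹ * E (2 * n + 1) * (E (2 * n + 1))⁻¹))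
    (fun n => finset_card_lt_aleph0 _) (fun n => finset_card_lt_aleph0 _) ?_ ?_
  · intro n x
    obtain ⟨y, hy, z, h1, h2⟩ := hM3 (2 * n) x
    have h3 := hf2 ⟨(2 * n, y), hy⟩
    have e : (2 * n) % 2 = 0 := by omega
    simp only [B, e, if_true, Finset.mem_image] at h1 h2 h3
    obtain ⟨a, ha, rfl⟩ := h1
    obtain ⟨b, hb, h2⟩ := h2
    obtain ⟨d, hd, h3⟩ := h3
    refine ⟨⟨(2 * n, y), hy⟩, by simp, a⁻¹ * b * d⁻¹, Finset.mul_mem_mul (Finset.mul_mem_mul
      (Finset.inv_mem_inv ha) hb) (Finset.inv_mem_inv hd), ?_⟩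
    rw [← h3, mul_assoc, inv_mul_cancel_left, mul_assoc, h2, inv_mul_cancel_left]
  · intro n x
    obtain ⟨y, hy, z, h1, h2⟩ := hM3 (2 * n + 1) x
    have h3 := hf2 ⟨(2 * n + 1, y), hy⟩
    have e : ¬ (2 * n + 1) % 2 = 0 := by omega
    simp only [B, e, if_false, Finset.mem_image] at h1 h2 h3
    obtain ⟨a, ha, rfl⟩ := h1
    obtain ⟨b, hb, h2⟩ := h2
    obtain ⟨d, hd, h3⟩ := h3
    refine ⟨⟨(2 * n + 1, y), hy⟩, by simp only; omega, d⁻¹ * b * a⁻¹, Finset.mul_mem_mul
      (Finset.mul_mem_mul (Finset.inv_mem_inv hd) hb) (Finset.inv_mem_inv ha), ?_⟩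
    rw [← h3, ← mul_assoc, ← mul_assoc, mul_inv_cancel_right, h2, mul_inv_cancel_right]

def Sid {G : Type} [Group G] (Z : Set G) : Prop :=
  ∀ a ∈ Z, ∀ b ∈ Z, ∀ c ∈ Z, ∀ d ∈ Z, a ≠ b → (a⁻¹ * b = c⁻¹ * d ∨ a * b⁻¹ = c * d⁻¹) →
    a = c ∨ a = d ∨ b = c ∨ b = d

theorem exists_sid (G : Type) [Group G] [Infinite G] : ∃ Z : Set G, Sid Z ∧ #G ≤ #Z := by
  have hF : Order.IsOfFiniteCharacter {Z : Set G | Sid Z} := by
    intro Z
    constructor
    · exact fun h y hy _ a ha b hb c hc d hd => h a (hy ha) b (hy hb) c (hy hc) d (hy hd)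
    · intro h a ha b hb c hc d hd
      exact h {a, b, c, d} (by simp [Set.insert_subset_iff, ha, hb, hc, hd]) (by simp)
        a (by simp) b (by simp) c (by simp) d (by simp)
  obtain ⟨Z, _, hZ⟩ := hF.exists_maximal (x := ∅) (by simp [Sid])
  refine ⟨Z, hZ.prop, ?_⟩
  have h1 : ∀ w, w ∈ Z ∨ ∃ p : Z × Z × Z, w = (p.1 : G) * (p.2.1 : G)⁻¹ * (p.2.2 : G) := by
    intro w
    by_contra hc
    push Not at hc
    apply hc.1
    refine hZ.mem_of_prop_insert ?_
    have k : ∀ a ∈ Z, ∀ b ∈ Z, ∀ c ∈ Z, w ≠ a * b⁻¹ * c := fun a ha b hb c hc' =>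
      hc.2 (⟨a, ha⟩, ⟨b, hb⟩, ⟨c, hc'⟩)
    intro a ha b hb c hc' d hd hab h
    by_contra hn
    push Not at hn
    obtain ⟨n1, n2, n3, n4⟩ := hn
    rcases ha with rfl | ha
    · have hb' : b ∈ Z := hb.resolve_left hab.symm
      have hc'' : c ∈ Z := hc'.resolve_left n1.symm
      have hd' : d ∈ Z := hd.resolve_left n2.symm
      rcases h with h | h
      · apply k b hb' d hd' c hc''
        have : b = a * (c⁻¹ * d) := by rw [← h]; group
        rw [this]
        group
      · apply k c hc'' d hd' b hb'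
        rw [← h]
        group
    rcases hb with rfl | hb
    · have hc'' : c ∈ Z := hc'.resolve_left n3.symm
      have hd' : d ∈ Z := hd.resolve_left n4.symm
      rcases h with h | h
      · apply k a ha c hc'' d hd'
        rw [mul_assoc, ← h]
        group
      · apply k d hd' c hc'' a ha
        have : a = c * d⁻¹ * b := by rw [← h]; group
        rw [this]
        group
    rcases hc' with rfl | hc'
    · have hd' : d ∈ Z := by
        refine hd.resolve_left ?_
        rintro rfl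
        rcases h with h | h
        · exact hab (inv_mul_eq_one.1 (by simpa using h))
        · exact hab (mul_inv_eq_one.1 (by simpa using h))
      rcases h with h | h
      · apply k d hd' b hb a ha
        have : d = c * (a⁻¹ * b) := by rw [h]; group
        rw [this]
        group
      · apply k a ha b hb d hd'
        rw [h]
        group
    rcases hd with rfl | hd
    · rcases h with h | h
      · apply k c hc' a ha b hb
        rw [mul_assoc, h]
        group
      · apply k b hb a ha c hc'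
        have : c = a * b⁻¹ * d := by rw [h]; group
        rw [this]
        group
    have := hZ.prop a ha b hb c hc' d hd hab h
    tauto
  have h2 : #G ≤ #Z + #Z * (#Z * #Z) := by
    have : Function.Surjective (Sum.elim (fun z : Z => (z : G))
        (fun p : Z × Z × Z => (p.1 : G) * (p.2.1 : G)⁻¹ * (p.2.2 : G))) := by
      intro w
      rcases h1 w with h | ⟨p, h⟩
      · exact ⟨Sum.inl ⟨w, h⟩, rfl⟩
      · exact ⟨Sum.inr p, h.symm⟩
    simpa using mk_le_of_surjective this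
  by_contra hlt
  push Not at hlt
  have h0 := aleph0_le_mk G
  exact absurd h2 (not_le.2 (add_lt_of_lt h0 hlt (mul_lt_of_lt h0 hlt (mul_lt_of_lt h0 hlt hlt))))

/-- For every infinite group G and infinite cardinal κ ≤ ∣G∣, G splits into exactly κ nonempty disjoint cells, each with G = FA and G = AF for some sets F of size less than κ. -/
theorem result : ∀ (G : Type) [Group G], Infinite G → ∀ κ : Cardinal.{0}, Cardinal.aleph0 ≤ κ → κ ≤ Cardinal.mk G → ∃ P : Set (Set G), Setoid.IsPartition P ∧ Cardinal.mk P = κ ∧ ∀ A ∈ P, (∃ F : Set G, Cardinal.mk F < κ ∧ F * A = Set.univ) ∧ (∃ F : Set G, Cardinal.mk F < κ ∧ A * F = Set.univ) := by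
  intro G _ _ κ h0 h1
  rcases h0.eq_or_lt with rfl | h2
  · exact case_countable G
  obtain ⟨Z, hZ, hZc⟩ := exists_sid G
  have hne : Nonempty κ.out := by
    rw [← mk_ne_zero_iff, mk_out]
    exact (aleph0_pos.trans h2).ne'
  obtain ⟨e⟩ : Nonempty (κ.out × ℕ ↪ Z) := by
    rw [← Cardinal.le_def]
    simp only [mk_prod, mk_out, lift_id, mk_nat]
    rw [mul_aleph0_eq h0]
    exact h1.trans hZc
  let u : κ.out → ℕ → G := fun i n => e (i, n)
  have hu : ∀ i m j n, u i m = u j n → i = j ∧ m = n := by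
    intro i m j n h
    simpa using e.injective (Subtype.ext h)
  let S : G × κ.out × Bool → Set G := fun p =>
    Set.range fun n => if p.2.2 then u p.2.1 n * p.1 else p.1 * u p.2.1 n
  have key : ∀ g : G, g ≠ 1 → {i | ∃ m n, (u i m)⁻¹ * u i n = g}.Subsingleton ∧
      {i | ∃ m n, u i m * (u i n)⁻¹ = g}.Subsingleton := by
    intro g hg
    constructor
    · rintro i ⟨m, n, h⟩ j ⟨m', n', h'⟩
      have := hZ _ (e (i, m)).2 _ (e (i, n)).2 _ (e (j, m')).2 _ (e (j, n')).2
        (fun hh => hg (by rw [← h]; exact inv_mul_eq_one.2 hh)) (Or.inl (h.trans h'.symm))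
      rcases this with t | t | t | t <;> exact (hu _ _ _ _ t).1
    · rintro i ⟨m, n, h⟩ j ⟨m', n', h'⟩
      have := hZ _ (e (i, m)).2 _ (e (i, n)).2 _ (e (j, m')).2 _ (e (j, n')).2
        (fun hh => hg (by rw [← h]; exact mul_inv_eq_one.2 hh)) (Or.inr (h.trans h'.symm))
      rcases this with t | t | t | t <;> exact (hu _ _ _ _ t).1
  obtain ⟨f, hf1, hf2⟩ := sdr S (fun _ => Set.countable_range _) (by
    rintro ⟨x, i, b⟩
    apply Set.infinite_range_of_injective
    intro m n h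
    cases b
    · exact (hu _ _ _ _ (mul_left_cancel h)).2
    · exact (hu _ _ _ _ (mul_right_cancel h)).2) (by
    intro p q hpq
    have c1 := (key (p⁻¹ * q) (by simpa [inv_mul_eq_one] using hpq)).1.countable
    have c2 := (key (p * q⁻¹) (by simpa [mul_inv_eq_one] using hpq)).2.countable
    have c3 := (c1.prod (Set.countable_univ (α := ℕ))).image
      (fun t => ((p * (u t.1 t.2)⁻¹, t.1, false) : G × κ.out × Bool))
    have c4 := (c2.prod (Set.countable_univ (α := ℕ))).image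
      (fun t => (((u t.1 t.2)⁻¹ * p, t.1, true) : G × κ.out × Bool))
    refine (c3.union c4).mono ?_
    rintro ⟨x, i, b⟩ ⟨⟨m, hm⟩, ⟨n, hn⟩⟩
    cases b
    · simp only [Bool.false_eq_true, if_false] at hm hn
      subst hm hn
      exact Or.inl ⟨(i, m), ⟨⟨m, n, by group⟩, trivial⟩, by simp⟩
    · simp only [if_true] at hm hn
      subst hm hn
      exact Or.inr ⟨(i, m), ⟨⟨m, n, by group⟩, trivial⟩, by simp⟩)
  have hF : ∀ i, #(Set.range fun n => (u i n)⁻¹) < κ := fun i =>
    (le_aleph0_iff_set_countable.2 (Set.countable_range _)).trans_lt h2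
  refine finish κ (mk_out κ) (fun p => p.2.1) f hf1 _ _ hF hF ?_ ?_
  · intro i x
    obtain ⟨n, hn⟩ := hf2 (x, i, true)
    refine ⟨(x, i, true), rfl, _, ⟨n, rfl⟩, ?_⟩
    rw [← hn]
    simp
  · intro i x
    obtain ⟨n, hn⟩ := hf2 (x, i, false)
    refine ⟨(x, i, false), rfl, _, ⟨n, rfl⟩, ?_⟩
    rw [← hn]
    simp

end Pool.Agent.S02419
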