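import Pool.Statements.S02425
import Pool.Agent.H15.QP3

set_option autoImplicit false
open Pointwise
open Pool Pool.MP_98b561_al

namespace Pool.Agent.S02425

theorem result :
  ∃ (G : Type) (_ : Group G),
    ∀ (len : Set G → G → ℕ),
      (∀ (S : Set G) (g : G), len S g = sInf {n : ℕ | g ∈ (S ∪ S⁻¹) ^ n}) →
    ∀ (gp : Set G → G → G → ℝ),
      (∀ (S : Set G) (a b : G),
        gp S a b = ((len S a : ℝ) + (len S b : ℝ) - (len S (a⁻¹ * b) : ℝ)) / 2) →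
    ∀ (lox : Set G → G → Prop),
      (∀ (S : Set G) (g : G),
        lox S g ↔ ∃ c : ℝ, 0 < c ∧ ∀ n : ℕ, c * (n : ℝ) ≤ (len S (g ^ n) : ℝ)) →
    ∀ (sameEnd : Set G → G → G → Prop),
      (∀ (S : Set G) (a b : G),
        sameEnd S a b ↔ ∀ K : ℝ, ∃ N : ℕ, ∀ n m : ℕ, N ≤ n → N ≤ m →
          K ≤ gp S (a ^ n) (b ^ m)) →
    ∀ (QP : Set G → Prop),
      (∀ S : Set G, QP S ↔
        (Subgroup.closure S = ⊤ ∧
         (∃ δ : ℝ, ∀ x y z : G, min (gp S x y) (gp S y z) - δ ≤ gp S x z) ∧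
         (∃ g h : G, lox S g ∧ lox S h ∧
            ¬ ((sameEnd S g h ∧ sameEnd S g⁻¹ h⁻¹) ∨
               (sameEnd S g h⁻¹ ∧ sameEnd S g⁻¹ h))) ∧
         (∀ g h : G, lox S g → lox S h →
            (sameEnd S g h ∨ sameEnd S g h⁻¹ ∨ sameEnd S g⁻¹ h ∨ sameEnd S g⁻¹ h⁻¹)))) →
    ∃ X : Set G, QP X ∧
      ∀ Y : Set G, QP Y →
        (∃ C : ℕ, ∀ y ∈ Y, len X y ≤ C) ∧ (∃ C : ℕ, ∀ x ∈ X, len Y x ≤ C) := by
  refine ⟨Pool.Agent.H15.QP.GG, inferInstance, fun len h1 gp h2 lox h3 se h4 QP h5 => ?_⟩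
  open Pool.Agent.H15.QP in
  obtain rfl : len = Pool.Agent.H15.QP.len := funext fun S => funext fun g => h1 S g
  obtain rfl : gp = fun S => Pool.Agent.H15.QP.gp fun g => (Pool.Agent.H15.QP.len S g : ℝ) :=
    funext fun S => funext fun a => funext fun b => h2 S a b
  obtain rfl : lox = fun S => Pool.Agent.H15.QP.Lox fun g => (Pool.Agent.H15.QP.len S g : ℝ) :=
    funext fun S => funext fun a => propext (h3 S a)
  obtain rfl : se = fun S => Pool.Agent.H15.QP.SE fun g => (Pool.Agent.H15.QP.len S g : ℝ) :=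
    funext fun S => funext fun a => funext fun b => propext (h4 S a b)
  open Pool.Agent.H15.QP in
  refine ⟨XX, (h5 _).2 ⟨XX_top, ⟨2, hypX.hyp⟩, ⟨t, hh, loxX (n := 0) fun _ _ => rfl, loxX hh_tr,
    fun h => h.elim (fun h => nse2 h.2) fun h => nse1 h.2⟩,
    fun g h hg hh => qp4 hypX (hypS XX_top) hg hh⟩, fun Y hY => ?_⟩
  obtain ⟨a1, ⟨δ, a2⟩, ⟨g, h, a3, a4, a5⟩, -⟩ := (h5 Y).1 hY
  open Pool.Agent.H15.QP in
  have H : Hyp (fun g => (Pool.Agent.H15.QP.len Y g : ℝ)) δ :=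
    ⟨fun a b => by exact_mod_cast len_mul a1 a b, fun a => by rw [len_inv], by simp [len_one], a2⟩
  open Pool.Agent.H15.QP in
  obtain ⟨C, hC⟩ := uniq H (hypS a1) a3 a4 a5
  open Pool.Agent.H15.QP in
  obtain ⟨F, hF⟩ := bdd (Pool.Agent.H15.QP.len Y) (len_mul a1) (len_inv Y) 0
  open Pool.Agent.H15.QP in
  refine ⟨⟨3 * C + 1, fun y hy => ?_⟩, F + Pool.Agent.H15.QP.len Y t, ?_⟩
  · obtain ⟨c, c1, c2⟩ := hC y (by exact_mod_cast Pool.Agent.H15.QP.len_gen hy)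
    have := Pool.Agent.H15.QP.len_ub (a := y) (c := c) (j := C + c) (by simpa using c2)
    rw [abs_le] at c1
    omega
  · rintro x (rfl | hx)
    · omega
    · have := hF x hx
      omega

end Pool.Agent.S02425
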