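import Pool.Statements.S02430

set_option autoImplicit false
open Pool Pool.MP_98fcd2_al

namespace Pool.Agent.S02430

open Function Equiv
open scoped commutatorElement

abbrev K := ZMod 7

lemma seven : (7 : K) = 0 := rfl

def V (r : ℤ) : AddSubgroup (ℤ → K) where
  carrier := {v | Antiperiodic v r}
  zero_mem' := fun x => by simp
  add_mem' := fun {a b} ha hb x => by simp only [Pi.add_apply, ha x, hb x]; ring
  neg_mem' := fun {a} ha x => by simp only [Pi.neg_apply, ha x]

def σ (r j : ℤ) : K := ((j / r).negOnePow : ℤ)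

lemma σ_anti (r : ℤ) (hr : r ≠ 0) : Antiperiodic (σ r) r := fun j => by
  have := Int.add_mul_ediv_right j 1 hr
  rw [one_mul] at this
  simp [σ, this, Int.negOnePow_succ]

lemma V_ext (r : ℤ) (hr : 0 < r) (v w : V r) (h : ∀ j, 0 ≤ j → j < r → v.1 j = w.1 j) : v = w := by
  ext j
  rw [← Int.emod_add_mul_ediv j r, mul_comm, ← Int.cast_id (n := j / r), Antiperiodic.add_int_mul_eq v.2,
    Antiperiodic.add_int_mul_eq w.2, h _ (Int.emod_nonneg _ hr.ne') (Int.emod_lt_of_pos _ hr)]

lemma V_fin (r : ℕ) (hr : 0 < r) : Finite (V r) :=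
  Finite.of_injective (fun (v : V r) (i : Fin r) => v.1 (i : ℕ)) fun v w h =>
    V_ext r (by exact_mod_cast hr) v w fun j h0 h1 => by
      lift j to ℕ using h0
      exact congrFun h ⟨j, by exact_mod_cast h1⟩

def sh (r e : ℤ) : Perm (V r) where
  toFun v := ⟨fun j => v.1 (j - e), fun j => by simp only [add_sub_right_comm j]; exact v.2 _⟩
  invFun v := ⟨fun j => v.1 (j + e), fun j => by simp only [add_right_comm j r]; exact v.2 _⟩
  left_inv v := by ext; simp
  right_inv v := by ext; simp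

def A (r : ℤ) (hr : r ≠ 0) : Perm (V r) where
  toFun v := ⟨fun j => if r ∣ j then 2 * v.1 j + σ r j else v.1 j, fun j => by
    simp only [dvd_add_self_right, σ_anti r hr j, v.2 j]; split_ifs <;> ring⟩
  invFun v := ⟨fun j => if r ∣ j then 4 * (v.1 j - σ r j) else v.1 j, fun j => by
    simp only [dvd_add_self_right, σ_anti r hr j, v.2 j]; split_ifs <;> ring⟩
  left_inv v := by
    ext j; simp only; split_ifs
    exacts [by linear_combination (v.1 j) * seven, rfl]
  right_inv v := by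
    ext j; simp only; split_ifs
    exacts [by linear_combination (v.1 j - σ r j) * seven, rfl]

def ρ (r : ℤ) (hr : r ≠ 0) : FreeGroup Bool →* Perm (V r) :=
  FreeGroup.lift fun b => if b then A r hr else sh r 1

def R {r : ℤ} (e : ℤ) (u b : ℤ → K) (π : Perm (V r)) : Prop :=
  (∀ j, u j ^ 3 = 1) ∧ ∀ v j, (π v).1 j = u j * v.1 (j - e) + b j

lemma R.mul {r e e' : ℤ} {u b u' b' : ℤ → K} {π π' : Perm (V r)} (h : R e u b π)
    (h' : R e' u' b' π') : R (e + e') (fun j => u j * u' (j - e))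
      (fun j => u j * b' (j - e) + b j) (π * π') :=
  ⟨fun j => by rw [mul_pow, h.1, h'.1, mul_one], fun v j => by
    rw [Perm.mul_apply, h.2, h'.2, sub_sub]; ring⟩

lemma R.inv {r e : ℤ} {u b : ℤ → K} {π : Perm (V r)} (h : R e u b π) :
    R (-e) (fun j => u (j + e) ^ 2) (fun j => -(u (j + e) ^ 2 * b (j + e))) π⁻¹ :=
  ⟨fun j => by rw [← pow_mul, mul_comm, pow_mul, h.1, one_pow], fun v j => by
    have := h.2 (π⁻¹ v) (j + e)
    rw [Perm.inv_def, apply_symm_apply, add_sub_cancel_right, ← Perm.inv_def] at this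
    rw [sub_neg_eq_add, this]
    linear_combination (-(π⁻¹ v).1 j) * h.1 (j + e)⟩

lemma R.one {r : ℤ} : R 0 1 0 (1 : Perm (V r)) := ⟨by simp, by simp⟩

def P (w : FreeGroup Bool) : Prop := ∃ (n : ℕ) (e : ℤ), |e| ≤ n ∧ ∀ r hr,
  (∃ u b, R e u b (ρ r hr w)) ∧ ∀ z : V r, (∀ j : ℤ, |j| ≤ n → z.1 j = -1) → ρ r hr w z = sh r e z

lemma allP (w : FreeGroup Bool) : P w := by
  induction w using FreeGroup.induction_on with
  | C1 => exact ⟨0, 0, by simp, fun r hr => ⟨⟨_, _, by rw [map_one]; exact R.one⟩, fun z _ => by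
      ext; simp [sh]⟩⟩
  | of b =>
    cases b
    · exact ⟨1, 1, by simp, fun r hr => ⟨⟨1, 0, by simp, by simp [ρ, sh]⟩, by simp [ρ]⟩⟩
    · refine ⟨0, 0, by simp, fun r hr => ⟨⟨fun j => if r ∣ j then 2 else 1,
        fun j => if r ∣ j then σ r j else 0, fun j => by simp only; split_ifs <;> rfl, fun v j => by
          simp only [ρ, A, FreeGroup.lift_apply_of, if_true, coe_fn_mk]; split_ifs <;> simp⟩,
        fun z hz => ?_⟩⟩
      ext j
      simp only [ρ, A, sh, FreeGroup.lift_apply_of, if_true, coe_fn_mk, sub_zero]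
      split_ifs with h
      swap; · rfl
      obtain ⟨k, rfl⟩ := h
      have := Antiperiodic.add_int_mul_eq (x := 0) z.2 k
      rw [hz 0 (by simp), zero_add, Int.cast_id, mul_comm] at this
      rw [this, σ, Int.mul_ediv_cancel_left _ hr]; ring
  | inv_of b h =>
    obtain ⟨n, e, h1, h2⟩ := h
    refine ⟨n + n, -e, by rw [abs_neg]; omega, fun r hr => ⟨?_, fun z hz => ?_⟩⟩
    · obtain ⟨u, b, h⟩ := (h2 r hr).1
      exact ⟨_, _, by rw [map_inv]; exact h.inv⟩
    · rw [map_inv, Perm.inv_eq_iff_eq, (h2 r hr).2 (sh r (-e) z) fun j hj => hz _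
        ((abs_sub _ _).trans (by rw [abs_neg]; push_cast; linarith))]
      ext; simp [sh]
  | mul x y h h' =>
    obtain ⟨n, e, h1, h2⟩ := h
    obtain ⟨n', e', h1', h2'⟩ := h'
    refine ⟨n + n', e + e', (abs_add_le _ _).trans (by push_cast; linarith),
      fun r hr => ⟨?_, fun z hz => ?_⟩⟩
    · obtain ⟨u, b, h⟩ := (h2 r hr).1
      obtain ⟨u', b', h'⟩ := (h2' r hr).1
      exact ⟨_, _, by rw [map_mul]; exact h.mul h'⟩
    · rw [map_mul, Perm.mul_apply, (h2' r hr).2 z fun j hj => hz j (by push_cast; omega),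
        (h2 r hr).2 (sh r e' z) fun j hj => hz _ ((abs_sub _ _).trans (by push_cast; linarith))]
      ext; simp [sh, sub_sub]

def A1 (r : ℤ) : Subgroup (Perm (V r)) where
  carrier := {π | ∃ u b, R 0 u b π}
  one_mem' := ⟨_, _, R.one⟩
  mul_mem' := fun ⟨_, _, h⟩ ⟨_, _, h'⟩ => ⟨_, _, by simpa using h.mul h'⟩
  inv_mem' := fun ⟨_, _, h⟩ => ⟨_, _, by simpa using h.inv⟩

def A2 (r : ℤ) : Subgroup (Perm (V r)) where
  carrier := {π | ∃ b, R 0 1 b π}
  one_mem' := ⟨_, R.one⟩
  mul_mem' := fun ⟨_, h⟩ ⟨_, h'⟩ => ⟨_, by simpa [Pi.one_def] using h.mul h'⟩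
  inv_mem' := fun ⟨_, h⟩ => ⟨_, by simpa [Pi.one_def] using h.inv⟩

lemma solv (r : ℤ) (hr : r ≠ 0) : derivedSeries (FreeGroup Bool) 3 ≤ (ρ r hr).ker := by
  have h1 : derivedSeries (FreeGroup Bool) 1 ≤ (A1 r).comap (ρ r hr) :=
    Subgroup.commutator_le.2 fun x _ y _ => by
      obtain ⟨n, e, -, h⟩ := allP x
      obtain ⟨n', e', -, h'⟩ := allP y
      obtain ⟨u, b, h⟩ := (h r hr).1
      obtain ⟨u', b', h'⟩ := (h' r hr).1
      have := ((h.mul h').mul h.inv).mul h'.inv
      rw [show e + e' + -e + -e' = 0 by ring] at this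
      exact ⟨_, _, by rw [map_commutatorElement]; exact this⟩
  have h2 : derivedSeries (FreeGroup Bool) 2 ≤ (A2 r).comap (ρ r hr) :=
    Subgroup.commutator_le.2 fun x hx y hy => by
      obtain ⟨u, b, h⟩ := h1 hx
      obtain ⟨u', b', h'⟩ := h1 hy
      have := ((h.mul h').mul h.inv).mul h'.inv
      simp only [neg_zero, add_zero, sub_zero] at this
      rw [show (fun j => u j * u' j * u j ^ 2 * u' j ^ 2) = 1 from funext fun j => by
        rw [Pi.one_apply]; linear_combination (u' j ^ 3) * h.1 j + h'.1 j] at this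
      exact ⟨_, by rw [map_commutatorElement]; exact this⟩
  refine Subgroup.commutator_le.2 fun x hx y hy => ?_
  obtain ⟨b, h⟩ := h2 hx
  obtain ⟨b', h'⟩ := h2 hy
  rw [MonoidHom.mem_ker, map_commutatorElement, commutatorElement_eq_one_iff_mul_comm]
  ext v j
  simp only [Perm.mul_apply, h.2, h'.2, Pi.one_apply, sub_zero]; ring

def δ (r : ℤ) (hr : r ≠ 0) : V r := A r hr 0

lemma trans (r : ℕ) (hr : (r : ℤ) ≠ 0) (v : V r) : ∃ w, ρ r hr w 0 = v := by
  have t : ∀ i : ℕ, ρ r hr (FreeGroup.of false ^ i) = sh r i := fun i => by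
    induction i with
    | zero => ext; simp [sh]
    | succ i ih => rw [pow_succ, map_mul, ih]; ext; simp [ρ, sh, sub_sub]
  have a : ρ r hr (FreeGroup.of true) = A r hr := by simp [ρ]
  have c : ∀ v, ρ r hr (⁅FreeGroup.of true, FreeGroup.of false ^ r * FreeGroup.of true *
      (FreeGroup.of false ^ r)⁻¹⁆) v = v + 5 • δ r hr := fun v => by
    simp only [commutatorElement_def, map_mul, map_inv, t, a, mul_inv_rev, inv_inv]
    ext j
    have := (σ_anti r hr).sub_eq j
    simp only [Perm.mul_apply, Perm.inv_def, A, sh, δ, coe_fn_mk, coe_fn_symm_mk, sub_add_cancel,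
      dvd_sub_self_right, AddSubgroup.coe_add, Pi.add_apply, AddSubgroup.coe_nsmul, Pi.smul_apply,
      Antiperiodic.sub_eq v.2, v.2 _, this, ZeroMemClass.coe_zero, Pi.zero_apply]
    rw [nsmul_eq_mul]; push_cast; split_ifs
    · linear_combination (9 * v.1 j + 6 * σ r j) * seven
    · simp
  have step : ∀ (i : ℕ) (k : ℕ) (v : V r), (∃ w, ρ r hr w 0 = v) →
      ∃ w, ρ r hr w 0 = v + k • 5 • sh r i (δ r hr) := fun i k v h => by
    induction k with
    | zero => simpa using h
    | succ k ih =>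
      obtain ⟨w, hw⟩ := ih
      refine ⟨FreeGroup.of false ^ i * ⁅FreeGroup.of true, FreeGroup.of false ^ r * FreeGroup.of true *
        (FreeGroup.of false ^ r)⁻¹⁆ * (FreeGroup.of false ^ i)⁻¹ * w, ?_⟩
      rw [map_mul, map_mul, map_mul, Perm.mul_apply, Perm.mul_apply, Perm.mul_apply, c, hw, map_inv,
        t, succ_nsmul _ k, ← add_assoc]
      ext; simp [sh, Perm.inv_def]
  have sm : ∀ k : ℕ, ∃ w, ρ r hr w 0 = ∑ i ∈ Finset.range k, (3 * v.1 i).val • 5 • sh r i (δ r hr) :=
    fun k => by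
      induction k with
      | zero => exact ⟨1, by simp⟩
      | succ k ih => rw [Finset.sum_range_succ]; exact step _ _ _ ih
  obtain ⟨w, hw⟩ := sm r
  refine ⟨w, hw.trans (V_ext r (by omega) _ _ fun j h0 h1 => ?_)⟩
  lift j to ℕ using h0
  rw [AddSubgroup.val_finset_sum, Finset.sum_apply, Finset.sum_eq_single j]
  · simp [sh, δ, A, σ]
    linear_combination (2 * v.1 j) * seven
  · intro i hi hij
    have := Finset.mem_range.1 hi
    have : ¬(r : ℤ) ∣ j - i := fun h => by
      have := Int.eq_zero_of_abs_lt_dvd h (abs_lt.2 ⟨by omega, by omega⟩); omega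
    simp [sh, δ, A, this]
  · simp; omega

lemma fixp (w : FreeGroup Bool) : ∃ n : ℕ, ∀ m : ℕ, n ≤ m → ∀ hr : (((2 * m + 1).factorial : ℕ) : ℤ) ≠ 0,
    ∃ v, ρ _ hr w v = v := by
  obtain ⟨n, e, h1, h2⟩ := allP w
  refine ⟨n, fun m hm hr => ?_⟩
  set r := (2 * m + 1).factorial
  obtain ⟨⟨u, b, h⟩, h3⟩ := h2 r hr
  have r1 : 2 * m + 1 ≤ r := Nat.self_le_factorial _
  rcases eq_or_ne e 0 with rfl | e0
  · let z : V r := ⟨fun j => -σ r (j + n), fun j => by
      simp only [add_right_comm j, σ_anti r hr (j + n)]⟩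
    refine ⟨z, (h3 z fun j hj => ?_).trans (by ext; simp [sh])⟩
    have := abs_le.1 hj
    simp only [z, σ]
    rw [Int.ediv_eq_zero_of_lt (by omega) (by omega)]; simp
  haveI := V_fin r (by omega)
  obtain ⟨v, hv⟩ := Finite.injective_iff_surjective.1 (show Injective fun v => ρ _ hr w v - v from
    fun v v' (hv : ρ _ hr w v - v = ρ _ hr w v' - v') => by
      have p : Periodic (fun j => (v - v').1 j ^ 3) e := fun j => by
        have := congrFun (congrArg Subtype.val hv) (j + e)
        simp only [AddSubgroupClass.coe_sub, Pi.sub_apply, h.2, add_sub_cancel_right] at this ⊢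
        rw [show v.1 (j + e) - v'.1 (j + e) = u (j + e) * (v.1 j - v'.1 j) by
          linear_combination -this, mul_pow, h.1, one_mul]
      obtain ⟨q, hq⟩ : e ∣ r := Int.natAbs_dvd.1 (Int.natCast_dvd_natCast.2
        (Nat.dvd_factorial (Int.natAbs_pos.2 e0) (by have := abs_le.1 h1; omega)))
      rw [← sub_eq_zero]; ext j; change _ = 0
      have := p.int_mul q j
      rw [Int.cast_id, mul_comm, ← hq] at this
      simp only [(v - v').2 j] at this
      revert this
      generalize (v - v').1 j = x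
      revert x; decide) 0
  exact ⟨v, sub_eq_zero.1 hv⟩


/-- The negation of the preceding statement: Every finitely generated solvable group G has a finite subset S such that, however each element of S is replaced by a conjugate of it, the resulting elements still generate G. -/
theorem result :
    ¬ (∀ (G : Type) [Group G], Group.FG G → IsSolvable G →
      ∃ S : Finset G, ∀ g : G → G,
        Subgroup.closure ((fun s => (g s)⁻¹ * s * g s) '' (S : Set G)) = ⊤) := by
  intro h
  let N := derivedSeries (FreeGroup Bool) 3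
  haveI : N.Normal := derivedSeries_normal _ _
  obtain ⟨S, hS⟩ := h (FreeGroup Bool ⧸ N) (Group.fg_of_surjective (QuotientGroup.mk'_surjective N))
    ⟨3, by rw [← map_derivedSeries_eq (QuotientGroup.mk'_surjective N),
      Subgroup.map_eq_bot_iff, QuotientGroup.ker_mk']⟩
  choose n hn using fun s : FreeGroup Bool ⧸ N => fixp s.out
  set m := S.sup n
  have hr : (((2 * m + 1).factorial : ℕ) : ℤ) ≠ 0 := by positivity
  let φ := QuotientGroup.lift N (ρ _ hr) (solv _ hr)
  have : ∀ s, ∃ g, s ∈ S → φ (g⁻¹ * s * g) 0 = 0 := fun s => by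
    by_cases hs : s ∈ S
    swap; · exact ⟨1, fun h => absurd h hs⟩
    obtain ⟨v, hv⟩ := hn s m (Finset.le_sup hs) hr
    obtain ⟨w, rfl⟩ := trans _ hr v
    refine ⟨w, fun _ => ?_⟩
    rw [← s.out_eq', map_mul, map_mul, map_inv, Perm.mul_apply, Perm.mul_apply]
    exact Perm.inv_eq_iff_eq.2 hv
  choose g hg using this
  have := (hS g).ge.trans ((Subgroup.closure_le
    ((MulAction.stabilizer (Perm (V (2 * m + 1).factorial)) (0 : V (2 * m + 1).factorial)).comap φ)).2 (by
      rintro _ ⟨s, hs, rfl⟩; exact MulAction.mem_stabilizer_iff.2 (hg s hs)))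
      (Subgroup.mem_top ((FreeGroup.of true : FreeGroup Bool) : FreeGroup Bool ⧸ N))
  have := congrFun (congrArg Subtype.val (show ρ _ hr (FreeGroup.of true) 0 = 0 from
    MulAction.mem_stabilizer_iff.1 this)) 0
  simp [ρ, A, σ] at this
  exact absurd this (by decide)

end Pool.Agent.S02430
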