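import Pool.Statements.S02438
import Pool.Agent.Lead.LS2

set_option autoImplicit false
open Pool Pool.MP_99e35a_al

namespace Pool.Agent.S02438

open Polynomial Pool.Agent.Lead.LS

lemma exists_point (p : ℕ → ℂ[X][X]) (hp : ∀ i, p i ≠ 0) :
    ∃ s t : ℂ, ∀ i, evalEval s t (p i) ≠ 0 := by
  have key : ∀ q : ℕ → ℂ[X], (∀ i, q i ≠ 0) → ∃ s : ℂ, ∀ i, (q i).eval s ≠ 0 := by
    intro q hq
    by_contra hcon
    push Not at hcon
    apply not_countable_complex
    have : (Set.univ : Set ℂ) ⊆ ⋃ i, {s | (q i).IsRoot s} := fun s _ => by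
      obtain ⟨i, hi⟩ := hcon s
      exact Set.mem_iUnion.2 ⟨i, hi⟩
    exact (Set.countable_iUnion fun i => (finite_setOf_isRoot (hq i)).countable).mono this
  obtain ⟨s, hs⟩ := key (fun i => (p i).leadingCoeff) fun i => leadingCoeff_ne_zero.2 (hp i)
  obtain ⟨t, ht⟩ := key (fun i => (p i).map (evalRingHom s)) fun i h0 => by
    have := congrArg (fun q => coeff q (p i).natDegree) h0
    simp only [coeff_map, coeff_zero] at this
    exact hs i this
  exact ⟨s, t, fun i => by rw [← map_evalRingHom_eval]; exact ht i⟩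

instance : Countable (FreeAlgebra ℤ (Fin 3)) := by
  rw [← Cardinal.mk_le_aleph0_iff]
  refine (FreeAlgebra.cardinalMk_le_max ℤ (Fin 3)).trans ?_
  simp

noncomputable def jj : FreeAlgebra ℤ (Fin 3) →ₐ[ℤ] T ℂ := FreeAlgebra.lift ℤ (x (K := ℂ))

lemma main : ∃ (m : Ideal (T ℂ)) (z : T ℂ), m.IsMaximal ∧ 1 - z ∈ m ∧
    z ∈ Submodule.span ℂ (Set.range (x (K := ℂ))) ∧
    ∀ g, eps (jj g) = 0 → ∃ n, ∀ r, jj g ^ n * r ∈ m := by
  haveI : Nonempty {g : FreeAlgebra ℤ (Fin 3) // eps (jj g) = 0} := ⟨⟨0, by simp⟩⟩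
  obtain ⟨e, he⟩ := exists_surjective_nat {g : FreeAlgebra ℤ (Fin 3) // eps (jj g) = 0}
  obtain ⟨s, I, hI, hnil, hN, hann⟩ := exists_ideal (fun i => jj (e i).1) (fun i => (e i).2)
    (fun _ _ => 0)
  obtain ⟨a, b, hab⟩ := exists_point (fun i => ev ((s i).φ 0)) fun i => (s i).ne 0
  set z : T ℂ := zz a b with hz
  have hne : I ⊔ Ideal.span {1 - z} ≠ ⊤ := by
    rw [Ne, Ideal.eq_top_iff_one, Submodule.mem_sup]
    rintro ⟨u, hu, w, hw, huw⟩
    obtain ⟨r, rfl⟩ := Submodule.mem_span_singleton.1 hw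
    rw [smul_eq_mul] at huw
    obtain ⟨D, hD⟩ := exists_Lt r
    set N := (s D).N with hNdef
    set φ := (s D).φ 0 with hφ
    have hφh : φ ∈ Hom ℂ N := (s D).hom 0
    have hr : r ∈ Lt ℂ N := Lt_mono (hN D).le hD
    set G : T ℂ := ∑ j ∈ Finset.range (N + 1), z ^ j with hG
    have h1 : (1 - z) * G = 1 - z ^ (N + 1) := by rw [hG]; exact mul_neg_geom_sum z (N + 1)
    have h2 : rho (z ^ (N + 1)) φ = 0 :=
      rho_pow_zero (eps_zz a b) _ _ (Hom_le_Lt (Nat.lt_succ_self N) hφh)
    have h3 : rho (u * G) φ = 0 :=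
      hann D _ (I.mul_mem_right _ hu) φ (Algebra.subset_adjoin ⟨0, rfl⟩) N hφh (Or.inl le_rfl)
    have h4 : rho G φ = rho r φ := by
      have : G = u * G + r * (1 - z ^ (N + 1)) := by
        rw [← h1, ← mul_assoc, ← add_mul, huw, one_mul]
      conv_lhs => rw [this]
      rw [map_add, LinearMap.add_apply, h3, zero_add, rho_mul_apply, map_sub, LinearMap.sub_apply,
        h2, sub_zero, map_one, Module.End.one_apply]
    have h5 : eps (rho G φ) = evalEval a b (ev φ) := by
      have h6 : (∑ j ∈ Finset.range N, z ^ j) ∈ Lt ℂ N :=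
        Submodule.sum_mem _ fun j hj => Hom_le_Lt (Finset.mem_range.1 hj) (by
          simpa using pow_mem_Hom (zz_mem a b) j)
      have h7 := rho_zz a b N φ hφh 1
      rw [one_mul] at h7
      rw [hG, Finset.sum_range_succ, map_add, LinearMap.add_apply, map_add, eps_rho_Lt hφh h6,
        zero_add, h7, map_smul, map_one, smul_eq_mul, mul_one]
    rw [h4, eps_rho_Lt hφh hr] at h5
    exact hab D h5.symm
  obtain ⟨m, hm, hle⟩ := Ideal.exists_le_maximal _ hne
  refine ⟨m, z, hm, hle (Submodule.mem_sup_right (Ideal.subset_span rfl)), ?_, ?_⟩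
  · have := zz_mem a b
    rwa [Hom, pow_one] at this
  · intro g hg
    obtain ⟨i, hi⟩ := he ⟨g, hg⟩
    obtain ⟨n, hn⟩ := hnil i
    refine ⟨n, fun r => hle (Submodule.mem_sup_left (I.mul_mem_right _ ?_))⟩
    simpa [hi] using hn

/-- The negation of the preceding statement: For any group G and char-0 field k, any nonzero k-representation V with no invariant subspaces besides 0 and V, in which each g−1 is nilpotent on each vector, has G acting as the identity. -/
theorem result :
    ¬ (∀ (k : Type) [Field k] [CharZero k] (G : Type) [Group G]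
      (V : Type) [AddCommGroup V] [Module k V] (ρ : Representation k G V),
      Nontrivial V →
      (∀ W : Submodule k V, (∀ g : G, ∀ v ∈ W, ρ g v ∈ W) → W = ⊥ ∨ W = ⊤) →
      (∀ g : G, ∀ v : V, ∃ n : ℕ, ((ρ g - 1) ^ n) v = 0) →
      ∀ g : G, ρ g = 1) := by
  intro H
  obtain ⟨m, z, hm, hz, hzs, hnil⟩ := main
  let V : Type := T ℂ ⧸ (m : Submodule (T ℂ) (T ℂ))
  haveI hsimple : IsSimpleModule (T ℂ) V := isSimpleModule_iff_isCoatom.2 hm.out
  let π : T ℂ →ₐ[ℂ] Module.End ℂ V := Algebra.lsmul ℂ ℂ V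
  have hπ : ∀ (r : T ℂ) (v : V), π r v = r • v := fun _ _ => rfl
  have hnil' : ∀ g, eps (jj g) = 0 → ∃ n, π (jj g) ^ (n + 1) = 0 := by
    intro g hg
    obtain ⟨n, hn⟩ := hnil g hg
    refine ⟨n, ?_⟩
    rw [← map_pow]
    ext v
    obtain ⟨r, rfl⟩ := Submodule.Quotient.mk_surjective _ v
    rw [hπ, ← Submodule.Quotient.mk_smul, LinearMap.zero_apply, Submodule.Quotient.mk_eq_zero,
      smul_eq_mul, pow_succ, mul_assoc]
    exact hn _
  let G : Subgroup (Module.End ℂ V)ˣ :=
    { carrier := {u | ∃ g, eps (jj g) = 0 ∧ (u : Module.End ℂ V) = π (jj (1 + g))}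
      one_mem' := ⟨0, by simp, by simp⟩
      mul_mem' := by
        rintro u w ⟨g, hg, hu⟩ ⟨h, hh, hw⟩
        refine ⟨g + h + g * h, by simp [hg, hh], ?_⟩
        rw [Units.val_mul, hu, hw, ← map_mul, ← map_mul]
        congr 2
        noncomm_ring
      inv_mem' := by
        rintro u ⟨g, hg, hu⟩
        obtain ⟨n, hn⟩ := hnil' g hg
        refine ⟨∑ j ∈ Finset.range (n + 1), (-g) ^ j - 1, ?_, ?_⟩
        · simp [Finset.sum_range_succ', hg]
        · rw [add_sub_cancel]
          apply Units.inv_eq_of_mul_eq_one_right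
          have h1 := mul_neg_geom_sum (-g) (n + 1)
          rw [sub_neg_eq_add] at h1
          rw [neg_pow g] at h1
          rw [hu, ← map_mul, ← map_mul, h1, map_sub, map_sub, map_one, map_one, map_mul jj,
            map_mul π, map_pow jj g, map_pow π (jj g), hn, mul_zero, sub_zero] }
  let ρ : Representation ℂ G V := (Units.coeHom (Module.End ℂ V)).comp G.subtype
  have hρ : ∀ g : G, ρ g = (g.1 : Module.End ℂ V) := fun _ => rfl
  have hx : ∀ i, ∃ g : G, ρ g = 1 + π (x i) := by
    intro i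
    have hj : jj (FreeAlgebra.ι ℤ i) = x i := by simp [jj]
    have hg : eps (jj (FreeAlgebra.ι ℤ i)) = 0 := by rw [hj, eps_x]
    obtain ⟨n, hn⟩ := hnil' _ hg
    rw [hj] at hn
    obtain ⟨u, hu⟩ := IsNilpotent.isUnit_one_add (⟨n + 1, hn⟩ : IsNilpotent (π (x i)))
    exact ⟨⟨u, FreeAlgebra.ι ℤ i, hg, by rw [hu, map_add, map_add, map_one, map_one, hj]⟩, hu⟩
  haveI hnt : Nontrivial V := IsSimpleModule.nontrivial (T ℂ) V
  have htriv := H ℂ G V ρ hnt (by
      intro W hW
      have hWx : ∀ i, ∀ v ∈ W, (x i : T ℂ) • v ∈ W := by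
        intro i v hv
        obtain ⟨g, hg⟩ := hx i
        have := W.sub_mem (hW g v hv) hv
        rwa [hg, LinearMap.add_apply, Module.End.one_apply, add_sub_cancel_left] at this
      have hWr : ∀ r : T ℂ, ∀ v ∈ W, r • v ∈ W := by
        intro r
        induction r using FreeAlgebra.induction with
        | grade0 c => intro v hv; rw [algebraMap_smul]; exact W.smul_mem c hv
        | grade1 i => exact hWx i
        | mul a b ha hb => intro v hv; rw [mul_smul]; exact ha _ (hb _ hv)
        | add a b ha hb => intro v hv; rw [add_smul]; exact W.add_mem (ha _ hv) (hb _ hv)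
      let W' : Submodule (T ℂ) V :=
        { carrier := W
          add_mem' := W.add_mem
          zero_mem' := W.zero_mem
          smul_mem' := hWr }
      rcases eq_bot_or_eq_top W' with h | h
      · left
        rw [eq_bot_iff]
        intro v hv
        have : v ∈ W' := hv
        rw [h] at this
        exact this
      · right
        rw [eq_top_iff]
        intro v _
        have : v ∈ W' := by rw [h]; trivial
        exact this)
    (by
      rintro ⟨u, g, hg, hu⟩ v
      obtain ⟨n, hn⟩ := hnil' g hg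
      refine ⟨n + 1, ?_⟩
      rw [hρ]
      simp only
      rw [hu, map_add, map_add, map_one, map_one, add_sub_cancel_left, hn, LinearMap.zero_apply])
  have hx0 : ∀ i, π (x i) = 0 := by
    intro i
    obtain ⟨g, hg⟩ := hx i
    rw [htriv g] at hg
    simpa using hg
  have hz0 : π z = 0 := by
    have : Submodule.span ℂ (Set.range (x (K := ℂ))) ≤ LinearMap.ker π.toLinearMap :=
      Submodule.span_le.2 (by rintro _ ⟨i, rfl⟩; exact hx0 i)
    exact this hzs
  have h1 : z ∈ m := by
    have := hπ z (Submodule.Quotient.mk 1)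
    rw [hz0, LinearMap.zero_apply, ← Submodule.Quotient.mk_smul, smul_eq_mul, mul_one] at this
    exact (Submodule.Quotient.mk_eq_zero _).1 this.symm
  apply hm.ne_top
  rw [Ideal.eq_top_iff_one]
  simpa using m.add_mem hz h1

end Pool.Agent.S02438
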