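import Pool.Statements.S02463
import Pool.Agent.H23.Delta2

set_option autoImplicit false
open Pool Pool.MP_9bbc25_al

namespace Pool.Agent.S02463

open Pool.Agent.H23.DeltaSet

/-- the semigroup attached to `R` and `n` -/
def SG (R : ℤ → Prop) (n : ℕ) : AddSubmonoid ℕ where
  carrier := {x | ∃ j, Len R n x j}
  zero_mem' := ⟨0, 0, 0, 0, C.zero, by simp, rfl⟩
  add_mem' := by
    rintro a b ⟨j, k, l, ρ, a1, a2, a3⟩ ⟨j', k', l', ρ', b1, b2, b3⟩
    exact ⟨j + j', k + k', l + l', ρ + ρ', a1.add b1, by push_cast; rw [a2, b2]; ring, by omega⟩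

section
variable {R : ℤ → Prop} {D : Finset ℕ} {m : ℕ} {P Q : ℤ} {n : ℕ}

lemma size (H : Data R D m P Q) (hn : (P + Q + m + 5) * (P + Q) ≤ n) {x : ℤ} {j : ℕ}
    (a : Len R n x j) : (j : ℤ) * n ≤ x ∧ (x = j * n ∨ 2 * n - P ≤ x) := by
  have hP := H.Ppos
  have hQ := H.Qpos
  have hm : (0 : ℤ) ≤ m := by positivity
  have hn0 : P + Q ≤ n := by nlinarith
  obtain ⟨k, l, ρ, a1, a2, a3⟩ := a
  have h1 := (a1.bounds H.bd).1
  have hl : (0 : ℤ) ≤ l := by positivity
  have hk : (0 : ℤ) ≤ k := by positivity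
  subst a3
  push_cast
  refine ⟨by nlinarith, ?_⟩
  rcases Nat.eq_zero_or_pos l with rfl | h
  · left; rw [a2, a1.eq_zero]; simp
  · right
    have : (1 : ℤ) ≤ l := by exact_mod_cast h
    nlinarith

lemma atom_iff (H : Data R D m P Q) (hn : (P + Q + m + 5) * (P + Q) ≤ n) (a : ℕ) :
    (a ∈ SG R n ∧ a ≠ 0 ∧ ∀ b ∈ SG R n, ∀ c ∈ SG R n, b + c = a → b = 0 ∨ c = 0) ↔
      Len R n a 1 := by
  have hP := H.Ppos
  have hQ := H.Qpos
  have hm : (0 : ℤ) ≤ m := by positivity
  have hn0 : P + Q < n := by nlinarith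
  constructor
  · rintro ⟨⟨j, hj⟩, h0, h1⟩
    have split : ∀ (y z : ℤ) (i : ℕ), Len R n y 1 → Len R n z i → (a : ℤ) = y + z → i + 1 = j →
        Len R n a 1 := by
      intro y z i hy hz e1 e2
      have s1 := (size H hn hy).1
      have s2 := (size H hn hz).1
      have hi : (0 : ℤ) ≤ i * n := by positivity
      obtain ⟨y', rfl⟩ := Int.eq_ofNat_of_zero_le (show 0 ≤ y by omega)
      obtain ⟨z', rfl⟩ := Int.eq_ofNat_of_zero_le (show 0 ≤ z by omega)
      rcases h1 y' ⟨1, hy⟩ z' ⟨i, hz⟩ (by omega) with h | h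
      · omega
      · rw [show a = y' by omega]; exact hy
    obtain ⟨k, l, ρ, a1, a2, a3⟩ := hj
    rcases k with _ | k
    · rcases l with _ | l
      · rw [a1.eq_zero] at a2; omega
      · obtain ⟨r, r1, r2⟩ := a1.succ
        exact split _ _ l ⟨0, 1, r, C.one r1, rfl, rfl⟩ ⟨0, l, ρ - r, r2, rfl, by omega⟩
          (by rw [a2]; push_cast; ring) (by omega)
    · exact split _ _ (k + l) ⟨1, 0, 0, C.zero, rfl, rfl⟩ ⟨k, l, ρ, a1, rfl, rfl⟩
        (by rw [a2]; push_cast; ring) (by omega)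
  · intro h
    have s0 := (size H hn h).1
    refine ⟨⟨1, h⟩, by omega, ?_⟩
    rintro b ⟨j, hb⟩ c ⟨j', hc⟩ e
    by_contra hne
    push Not at hne
    have nz : ∀ (x i : ℕ), Len R n x i → x ≠ 0 → (x : ℤ) = n ∨ (x : ℤ) = 2 * n ∨
        2 * n - P ≤ x := by
      intro x i hx h0
      obtain ⟨s1, s2 | s2⟩ := size H hn hx
      · rcases i with _ | _ | i
        · omega
        · omega
        · have : (0 : ℤ) ≤ i * n := by positivity
          push_cast at s2
          right; right; nlinarith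
      · omega
    have t1 := nz b j hb hne.1
    have t2 := nz c j' hc hne.2
    obtain ⟨k, l, ρ, a1, a2, a3⟩ := h
    have t3 := (a1.bounds H.bd).2
    have t4 : l = 1 → ρ ≠ 0 := by
      rintro rfl rfl
      exact H.girth 1 (by omega) (by have := H.m2; omega) a1
    rcases l with _ | _ | l
    · rw [a1.eq_zero, show k = 1 by omega] at a2
      omega
    · rw [show k = 0 by omega] at a2
      have := t4 rfl
      omega
    · omega

lemma len_iff (H : Data R D m P Q) (hn : (P + Q + m + 5) * (P + Q) ≤ n) (x j : ℕ) :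
    (∃ s : Multiset ℕ, (∀ a ∈ s, a ∈ SG R n ∧ a ≠ 0 ∧
      ∀ b ∈ SG R n, ∀ c ∈ SG R n, b + c = a → b = 0 ∨ c = 0) ∧ s.sum = x ∧
      Multiset.card s = j) ↔ Len R n x j := by
  simp only [atom_iff H hn]
  constructor
  · rintro ⟨s, s1, rfl, rfl⟩
    induction s using Multiset.induction_on with
    | empty => exact ⟨0, 0, 0, C.zero, by simp, rfl⟩
    | cons a s ih =>
      obtain ⟨k, l, ρ, a1, a2, a3⟩ := s1 a (Multiset.mem_cons_self _ _)
      obtain ⟨k', l', ρ', b1, b2, b3⟩ := ih fun a ha => s1 a (Multiset.mem_cons_of_mem ha)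
      refine ⟨k + k', l + l', ρ + ρ', a1.add b1, ?_, by rw [Multiset.card_cons]; omega⟩
      rw [Multiset.sum_cons, Nat.cast_add, a2, b2]
      push_cast
      ring
  · intro h
    induction j generalizing x with
    | zero =>
      obtain ⟨k, l, ρ, a1, a2, a3⟩ := h
      rw [show l = 0 by omega] at a1 a2
      rw [a1.eq_zero, show k = 0 by omega] at a2
      exact ⟨0, by simp, by simp; omega, rfl⟩
    | succ j ih =>
      have split : ∀ (y z : ℤ), Len R n y 1 → Len R n z j → (x : ℤ) = y + z →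
          ∃ s : Multiset ℕ, (∀ a ∈ s, Len R n a 1) ∧ s.sum = x ∧ Multiset.card s = j + 1 := by
        intro y z hy hz e1
        have s1 := (size H hn hy).1
        have s2 := (size H hn hz).1
        have hi : (0 : ℤ) ≤ j * n := by positivity
        obtain ⟨y', rfl⟩ := Int.eq_ofNat_of_zero_le (show 0 ≤ y by omega)
        obtain ⟨z', rfl⟩ := Int.eq_ofNat_of_zero_le (show 0 ≤ z by omega)
        obtain ⟨s, t1, t2, t3⟩ := ih z' hz
        refine ⟨y' ::ₘ s, fun a ha => ?_, by rw [Multiset.sum_cons]; omega, by simp [t3]⟩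
        rcases Multiset.mem_cons.mp ha with rfl | ha
        exacts [hy, t1 a ha]
      obtain ⟨k, l, ρ, a1, a2, a3⟩ := h
      rcases k with _ | k
      · obtain rfl : l = j + 1 := by omega
        obtain ⟨r, r1, r2⟩ := a1.succ
        exact split _ _ ⟨0, 1, r, C.one r1, rfl, rfl⟩ ⟨0, j, ρ - r, r2, rfl, by omega⟩
          (by rw [a2]; push_cast; ring)
      · exact split _ _ ⟨1, 0, 0, C.zero, rfl, rfl⟩ ⟨k, l, ρ, a1, rfl, by omega⟩
          (by rw [a2]; push_cast; ring)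

lemma cofin (H : Data R D m P Q) (hn : 0 < n) : ((SG R n : Set ℕ)ᶜ).Finite := by
  refine (Set.finite_lt_nat (2 * n * n)).subset fun x hx => ?_
  by_contra h
  apply hx
  have h1 : 2 * n ≤ x / n := (Nat.le_div_iff_mul_le hn).mpr (not_lt.mp h)
  have h2 := Nat.div_add_mod x n
  have h3 := Nat.mod_lt x hn
  obtain ⟨t, ht⟩ : ∃ t, n = x % n + t := ⟨n - x % n, by omega⟩
  obtain ⟨k, hk⟩ : ∃ k, x / n + 1 = k + 2 * t := ⟨x / n + 1 - 2 * t, by omega⟩
  refine ⟨_, k, t, _, C.rep H.neg t, ?_, rfl⟩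
  have e1 : (x : ℤ) = n * (x / n : ℕ) + (x % n : ℕ) := by exact_mod_cast h2.symm
  have e2 : (n : ℤ) = (x % n : ℕ) + t := by exact_mod_cast ht
  have e3 : ((x / n : ℕ) : ℤ) + 1 = k + 2 * t := by exact_mod_cast hk
  linear_combination e1 - e2 + n * e3

end

/-- the semigroup generated by two and three -/
def S23 : AddSubmonoid ℕ where
  carrier := {x | x ≠ 1}
  zero_mem' := by simp
  add_mem' := by
    intro a b ha hb
    simp only [Set.mem_ofPred_eq] at *
    omega

lemma len23 (x j : ℕ) :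
    (∃ s : Multiset ℕ, (∀ a ∈ s, a ∈ S23 ∧ a ≠ 0 ∧
      ∀ b ∈ S23, ∀ c ∈ S23, b + c = a → b = 0 ∨ c = 0) ∧ s.sum = x ∧
      Multiset.card s = j) ↔ 2 * j ≤ x ∧ x ≤ 3 * j := by
  have mem : ∀ a, a ∈ S23 ↔ a ≠ 1 := fun a => Iff.rfl
  have atom : ∀ a, (a ∈ S23 ∧ a ≠ 0 ∧ ∀ b ∈ S23, ∀ c ∈ S23, b + c = a → b = 0 ∨ c = 0) ↔
      2 ≤ a ∧ a ≤ 3 := by
    intro a
    simp only [mem]
    constructor
    · rintro ⟨h1, h2, h3⟩
      by_contra h
      have := h3 2 (by omega) (a - 2) (by omega) (by omega)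
      omega
    · intro h
      exact ⟨by omega, by omega, fun b hb c hc e => by omega⟩
  simp only [atom]
  constructor
  · rintro ⟨s, s1, rfl, rfl⟩
    have h1 := Multiset.card_nsmul_le_sum (s := s) (a := 2) fun a ha => (s1 a ha).1
    have h2 := Multiset.sum_le_card_nsmul s 3 fun a ha => (s1 a ha).2
    simp only [smul_eq_mul] at h1 h2
    omega
  · intro h
    refine ⟨Multiset.replicate (3 * j - x) 2 + Multiset.replicate (x - 2 * j) 3, fun a ha => ?_,
      by simp; omega, by simp; omega⟩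
    rcases Multiset.mem_add.mp ha with h | h <;> rw [Multiset.eq_of_mem_replicate h] <;> omega


/-- Every finite set of positive integers containing 1 equals the delta set of some numerical semigroup, i.e. the set of gaps between consecutive factorization lengths over its minimal generators. -/
theorem result :
    ∀ D : Finset ℕ, (∀ d ∈ D, 0 < d) → 1 ∈ D →
      ∃ S : AddSubmonoid ℕ, ((S : Set ℕ)ᶜ).Finite ∧
        {d : ℕ | 0 < d ∧ ∃ n ∈ S, ∃ k : ℕ,
          (∃ m : Multiset ℕ,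
              (∀ a ∈ m, a ∈ S ∧ a ≠ 0 ∧ ∀ b ∈ S, ∀ c ∈ S, b + c = a → b = 0 ∨ c = 0) ∧
              m.sum = n ∧ Multiset.card m = k) ∧
          (∃ m : Multiset ℕ,
              (∀ a ∈ m, a ∈ S ∧ a ≠ 0 ∧ ∀ b ∈ S, ∀ c ∈ S, b + c = a → b = 0 ∨ c = 0) ∧
              m.sum = n ∧ Multiset.card m = k + d) ∧
          ∀ j : ℕ, k < j → j < k + d →
            ¬ ∃ m : Multiset ℕ,
              (∀ a ∈ m, a ∈ S ∧ a ≠ 0 ∧ ∀ b ∈ S, ∀ c ∈ S, b + c = a → b = 0 ∨ c = 0) ∧
              m.sum = n ∧ Multiset.card m = j} = (D : Set ℕ) := by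
  intro D hpos h1
  by_cases hD : ∀ d ∈ D, d ≤ 1
  · refine ⟨S23, (Set.finite_singleton 1).subset fun x hx => not_not.mp hx, ?_⟩
    ext d
    simp only [len23, Set.mem_ofPred_eq, Finset.mem_coe]
    constructor
    · rintro ⟨h0, x, -, k, a, b, c⟩
      have := c (k + 1) (by omega)
      rw [show d = 1 by omega]
      exact h1
    · intro hd
      have := hD d hd
      have := hpos d hd
      exact ⟨by omega, 6, (by show (6 : ℕ) ≠ 1; omega), 2, by omega, by omega,
        fun j _ _ => by omega⟩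
  · push Not at hD
    obtain ⟨d0, hd0, hd1⟩ := hD
    have hle : ∀ d ∈ D, d ≤ D.max' ⟨1, h1⟩ := fun d hd => D.le_max' d hd
    obtain ⟨R, P, Q, H⟩ := exists_data D _ hpos hle h1 (D.max'_mem _)
      (by have := hle d0 hd0; omega)
    have hP := H.Ppos
    have hQ := H.Qpos
    obtain ⟨n, hn⟩ := Int.eq_ofNat_of_zero_le
      (show 0 ≤ (P + Q + (D.max' ⟨1, h1⟩ : ℕ) + 5) * (P + Q) by positivity)
    have hn0 : 0 < n := by
      have : (0 : ℤ) < n := by rw [← hn]; positivity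
      exact_mod_cast this
    refine ⟨SG R n, cofin H hn0, ?_⟩
    ext d
    simp only [len_iff H hn.le, Set.mem_ofPred_eq, Finset.mem_coe]
    constructor
    · rintro ⟨h0, x, -, k, a, b, c⟩
      exact H.gap_mem hn.le h0 a b c
    · intro hd
      obtain ⟨x, j, a, b, c⟩ := H.gap_att hn.le hd
      exact ⟨hpos d hd, x, ⟨j, a⟩, j, a, b, c⟩

end Pool.Agent.S02463
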