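import Pool.Statements.S02477
import Pool.Agent.H14.AutW2

set_option autoImplicit false
open Pool Pool.MP_9d3c8a_al

namespace Pool.Agent.S02477

theorem result :
    ∀ (F : Type) [Field F] [CharZero F]
      (θ : Derivation F (MvPolynomial ℕ F) (MvPolynomial ℕ F) →
            Derivation F (MvPolynomial ℕ F) (MvPolynomial ℕ F)),
      (∀ d : Derivation F (MvPolynomial ℕ F) (MvPolynomial ℕ F),
          Set.Finite {i : ℕ | d (MvPolynomial.X i) ≠ 0} →
          Set.Finite {i : ℕ | θ d (MvPolynomial.X i) ≠ 0}) →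
      (∀ e : Derivation F (MvPolynomial ℕ F) (MvPolynomial ℕ F),
          Set.Finite {i : ℕ | e (MvPolynomial.X i) ≠ 0} →
          ∃ d : Derivation F (MvPolynomial ℕ F) (MvPolynomial ℕ F),
            Set.Finite {i : ℕ | d (MvPolynomial.X i) ≠ 0} ∧ θ d = e) →
      (∀ d e : Derivation F (MvPolynomial ℕ F) (MvPolynomial ℕ F),
          Set.Finite {i : ℕ | d (MvPolynomial.X i) ≠ 0} →
          Set.Finite {i : ℕ | e (MvPolynomial.X i) ≠ 0} →
          θ d = θ e → d = e) →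
      (∀ d e : Derivation F (MvPolynomial ℕ F) (MvPolynomial ℕ F),
          Set.Finite {i : ℕ | d (MvPolynomial.X i) ≠ 0} →
          Set.Finite {i : ℕ | e (MvPolynomial.X i) ≠ 0} →
          θ (d + e) = θ d + θ e ∧ θ ⁅d, e⁆ = ⁅θ d, θ e⁆) →
      (∀ (c : F) (d : Derivation F (MvPolynomial ℕ F) (MvPolynomial ℕ F)),
          Set.Finite {i : ℕ | d (MvPolynomial.X i) ≠ 0} →
          θ (c • d) = c • θ d) →
      ∃ φ : MvPolynomial ℕ F ≃ₐ[F] MvPolynomial ℕ F,
        (∀ n : ℕ, Set.Finite {i : ℕ | n ∈ (φ (MvPolynomial.X i)).vars} ∧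
                  Set.Finite {i : ℕ | n ∈ (φ.symm (MvPolynomial.X i)).vars}) ∧
        ∀ d : Derivation F (MvPolynomial ℕ F) (MvPolynomial ℕ F),
          Set.Finite {i : ℕ | d (MvPolynomial.X i) ≠ 0} →
          ∀ f : MvPolynomial ℕ F, θ d f = φ (d (φ.symm f)) := by
  intro F _ _ θ h1 h2 h3 h4 h5
  have h : Pool.Agent.H14.AutW.IsAut _ θ := ⟨h1, h2, h3, h4, h5⟩
  have g := Pool.Agent.H14.AutW.good_fin (F := F)
  obtain ⟨φ, hφ⟩ := h.main g
  refine ⟨φ, fun n => ⟨?_, ?_⟩, fun d hd f => ?_⟩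
  · obtain ⟨d, hd, e⟩ := h2 _ (g.pd n)
    refine hd.subset fun i hi hc => Pool.Agent.H14.AutW.pd_vars hi ?_
    rw [← e, hφ d hd, hc, map_zero]
  · refine (h1 _ (g.pd n)).subset fun i hi hc => Pool.Agent.H14.AutW.pd_vars hi ?_
    have := hφ _ (g.pd n) (φ.symm (MvPolynomial.X i))
    rw [φ.apply_symm_apply, hc] at this
    exact φ.injective (this.symm.trans (map_zero φ).symm)
  · rw [← hφ d hd, φ.apply_symm_apply]

end Pool.Agent.S02477
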