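import Pool.Statements.S02504
import Pool.Agent.H14.Sofic

set_option autoImplicit false
open Pool Pool.MP_9f8f27_al

namespace Pool.Agent.S02504

theorem result :
    ¬ (∀ (G : Type) [Group G] (S : Finset G), Subgroup.closure (S : Set G) = ⊤ →
      (∀ n : ℕ, ∃ d : ℕ, 0 < d ∧ ∃ φ : G → Equiv.Perm (Fin d),
        φ 1 = 1 ∧
        (∀ g h : G,
          (∃ l : List G, l.length ≤ n ∧ (∀ x ∈ l, x ∈ S ∨ x⁻¹ ∈ S) ∧ l.prod = g) →
          (∃ l : List G, l.length ≤ n ∧ (∀ x ∈ l, x ∈ S ∨ x⁻¹ ∈ S) ∧ l.prod = h) →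
          ((Finset.univ.filter (fun i : Fin d => φ (g * h) i ≠ (φ g * φ h) i)).card : ℝ)
              / (d : ℝ) ≤ 1 / (n : ℝ)) ∧
        (∀ g : G,
          (∃ l : List G, l.length ≤ n ∧ (∀ x ∈ l, x ∈ S ∨ x⁻¹ ∈ S) ∧ l.prod = g) →
          g ≠ 1 →
          1 - 1 / (n : ℝ) ≤
            ((Finset.univ.filter (fun i : Fin d => φ g i ≠ i)).card : ℝ) / (d : ℝ))) →
      ∃ C : ℕ, 0 < C ∧ ∀ n d : ℕ, 0 < d →
        (∃ φ : G → Equiv.Perm (Fin d),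
          φ 1 = 1 ∧
          (∀ g h : G,
            (∃ l : List G, l.length ≤ C * n ∧ (∀ x ∈ l, x ∈ S ∨ x⁻¹ ∈ S) ∧ l.prod = g) →
            (∃ l : List G, l.length ≤ C * n ∧ (∀ x ∈ l, x ∈ S ∨ x⁻¹ ∈ S) ∧ l.prod = h) →
            ((Finset.univ.filter (fun i : Fin d => φ (g * h) i ≠ (φ g * φ h) i)).card : ℝ)
                / (d : ℝ) ≤ 1 / ((C * n : ℕ) : ℝ)) ∧
          (∀ g : G,
            (∃ l : List G, l.length ≤ C * n ∧ (∀ x ∈ l, x ∈ S ∨ x⁻¹ ∈ S) ∧ l.prod = g) →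
            g ≠ 1 →
            1 - 1 / ((C * n : ℕ) : ℝ) ≤
              ((Finset.univ.filter (fun i : Fin d => φ g i ≠ i)).card : ℝ) / (d : ℝ))) →
        Nat.card {g : G // ∃ l : List G, l.length ≤ n ∧ (∀ x ∈ l, x ∈ S ∨ x⁻¹ ∈ S) ∧ l.prod = g}
          ≤ C * d) := by
  intro H
  have key := H Pool.Agent.H14.Sofic.G Pool.Agent.H14.Sofic.S Pool.Agent.H14.Sofic.closure_S (by
    intro n
    obtain ⟨p, hp1, hp2⟩ := Nat.exists_infinite_primes (2 * n + 1)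
    obtain ⟨φ, h1, h2, h3⟩ := Pool.Agent.H14.Sofic.approx n p hp2 (by omega)
    exact ⟨p * p, Nat.mul_pos hp2.pos hp2.pos, φ, h1, fun g h _ _ => h2 g h, h3⟩)
  obtain ⟨C, hC, key⟩ := key
  set m := 144 * C ^ 3 with hm
  have hm0 : 0 < m := by positivity
  obtain ⟨p, hp, hp1, hp2⟩ := Nat.exists_prime_lt_and_le_two_mul (2 * (C * (3 * m)))
    (by positivity)
  obtain ⟨φ, h1, h2, h3⟩ := Pool.Agent.H14.Sofic.approx (C * (3 * m)) p hp hp1
  have h4 := key (3 * m) (p * p) (Nat.mul_pos hp.pos hp.pos)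
    ⟨φ, h1, fun g h _ _ => h2 g h, h3⟩
  have h5 := Pool.Agent.H14.Sofic.card_ball m
  have h6 : (m + 1) ^ 3 ≤ C * (p * p) := le_trans h5 h4
  have h7 : p * p ≤ (12 * C * m) * (12 * C * m) :=
    Nat.mul_le_mul (by linarith) (by linarith)
  have h8 : C * (p * p) ≤ m ^ 3 := by
    calc C * (p * p) ≤ C * ((12 * C * m) * (12 * C * m)) := Nat.mul_le_mul_left _ h7
      _ = (144 * C ^ 3) * m ^ 2 := by ring
      _ = m ^ 3 := by rw [← hm]; ring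
  have h9 : m ^ 3 < (m + 1) ^ 3 := Nat.pow_lt_pow_left (by omega) (by norm_num)
  omega

end Pool.Agent.S02504
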