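import Pool.Statements.S02538
import Pool.Agent.H29.GKNil

set_option autoImplicit false
open Pool Pool.MP_a19302_al

namespace Pool.Agent.S02538

open Classical in
open Pool.Agent.H29.GKNil in
theorem result :
    ¬ (∀ (k : Type) [Field k] (A : Type) [Ring A] [Algebra k A],
      Algebra.FiniteType k A →
      (∃ V : Submodule k A, FiniteDimensional k V ∧ (1 : A) ∈ V ∧
          Algebra.adjoin k (V : Set A) = ⊤ ∧
          ∃ C d : ℕ, ∀ n : ℕ, Module.finrank k ↥(V ^ n) ≤ C * (n + 1) ^ d) →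
      ∃ N : TwoSidedIdeal A,
        (∃ m : ℕ, ∀ f : Fin m → A, (∀ i, f i ∈ N) → (List.ofFn f).prod = 0) ∧
        ∀ I : TwoSidedIdeal A,
          (∃ m : ℕ, ∀ f : Fin m → A, (∀ i, f i ∈ I) → (List.ofFn f).prod = 0) → I ≤ N) := by
  intro h
  letI : Ring A := inferInstance
  have hfd : Module.Finite ℚ V :=
    Module.Finite.span_of_finite ℚ (Set.toFinite _)
  have hft : Algebra.FiniteType ℚ A := by
    refine ⟨⟨{1, sA, yA}, ?_⟩⟩
    have := V_top
    rw [V, Algebra.adjoin_span] at this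
    simpa using this
  obtain ⟨N, ⟨m, hm⟩, hN⟩ := h ℚ A hft
    ⟨V, hfd, Submodule.subset_span (by simp), V_top, 3, 2, V_rank⟩
  have h1 := hm (fun i => e (0 + i)) fun i => hN _ ⟨_, I_nil _⟩ (e_mem _)
  have h2 := e_prod m 0
  rw [h1] at h2
  simp at h2

end Pool.Agent.S02538
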