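import Pool.Statements.S02549
import Pool.Agent.Lead.Heis1

set_option autoImplicit false
open Pool Pool.MP_a23033_al

namespace Pool.Agent.S02549

open MonoidAlgebra Pool.Agent.Lead.Heis

/-- The Magnus group. -/
@[ext] structure G where
  q : Q
  m : Fin 2 → R

noncomputable instance : Mul G := ⟨fun a b => ⟨a.q * b.q, a.m + (single a.q 1 : R) • b.m⟩⟩
noncomputable instance : One G := ⟨⟨1, 0⟩⟩
noncomputable instance : Inv G := ⟨fun a => ⟨a.q⁻¹, -((single a.q⁻¹ 1 : R) • a.m)⟩⟩

@[simp] lemma mul_q (a b : G) : (a * b).q = a.q * b.q := rfl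
@[simp] lemma mul_m (a b : G) : (a * b).m = a.m + (single a.q 1 : R) • b.m := rfl
@[simp] lemma one_q : (1 : G).q = 1 := rfl
@[simp] lemma one_m : (1 : G).m = 0 := rfl
@[simp] lemma inv_q (a : G) : a⁻¹.q = a.q⁻¹ := rfl
@[simp] lemma inv_m (a : G) : a⁻¹.m = -((single a.q⁻¹ 1 : R) • a.m) := rfl

noncomputable instance : Group G := Group.ofLeftAxioms
  (fun a b c => by
    apply G.ext
    · simp [mul_assoc]
    · simp [smul_smul, single_mul_single, add_assoc])
  (fun a => by
    apply G.ext
    · simp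
    · simp [← one_def])
  (fun a => by apply G.ext <;> simp)

abbrev F : Type := FreeGroup (Fin 2)

def gen : Fin 2 → Q := ![qx, qy]

noncomputable def μ : F →* G := FreeGroup.lift fun i => ⟨gen i, Pi.single i 1⟩

noncomputable def pr : G →* Q := MonoidHom.mk' G.q mul_q

noncomputable def π : F →* Q := pr.comp μ

lemma π_eq (w : F) : π w = (μ w).q := rfl

lemma π_of (i : Fin 2) : π (FreeGroup.of i) = gen i := by simp [π_eq, μ]

lemma π_surj : Function.Surjective π := by
  intro g
  refine ⟨FreeGroup.of 1 ^ g.j * (FreeGroup.of 0 * FreeGroup.of 1 * (FreeGroup.of 0)⁻¹ *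
    (FreeGroup.of 1)⁻¹) ^ g.l * FreeGroup.of 0 ^ g.i, ?_⟩
  simp only [map_mul, map_zpow, map_inv, π_of]
  exact (normal_form g).symm

/-- chain rule homomorphism -/
noncomputable def Ψ (φ : Q →* Q) (J : Fin 2 → Fin 2 → R) : G →* G := MonoidHom.mk'
  (fun a => ⟨φ a.q, ∑ i, mapDomainRingHom ℤ φ (a.m i) • J i⟩) (by
    intro a b
    apply G.ext
    · simp
    · simp only [mul_m, Pi.add_apply, Pi.smul_apply, smul_eq_mul, map_add, map_mul, add_smul,
        Finset.sum_add_distrib, Finset.smul_sum, smul_smul]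
      simp)

lemma chain (f : Fin 2 → F) (φ : Q →* Q) (hφ : ∀ i, φ (gen i) = π (f i)) (w : F) :
    μ (FreeGroup.lift f w) = Ψ φ (fun i => (μ (f i)).m) (μ w) := by
  have : μ.comp (FreeGroup.lift f) = (Ψ φ (fun i => (μ (f i)).m)).comp μ := by
    refine FreeGroup.ext_hom _ _ fun i => ?_
    simp only [MonoidHom.comp_apply, FreeGroup.lift_apply_of]
    apply G.ext
    · simp only [Ψ, MonoidHom.mk'_apply]
      rw [← π_eq, ← π_eq, π_of, hφ]
    · simp only [Ψ, MonoidHom.mk'_apply]
      rw [show (μ (FreeGroup.of i)).m = Pi.single i 1 by simp [μ], Finset.sum_eq_single i]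
      · simp only [Pi.single_eq_same, map_one, one_smul]
      · intro j _ hj; simp only [Pi.single_eq_of_ne hj, map_zero, zero_smul]
      · simp
  exact DFunLike.congr_fun this w

/-- induced endomorphism of the Heisenberg group -/
noncomputable def bar (f : Fin 2 → F) : Q →* Q := endo (π (f 0)) (π (f 1))

lemma bar_gen (f : Fin 2 → F) (i : Fin 2) : bar f (gen i) = π (f i) := by
  fin_cases i
  · exact endo_x _ _
  · exact endo_y _ _

lemma invariant (f : Fin 2 → F) (w : F) (hw : w ∈ μ.ker) : FreeGroup.lift f w ∈ μ.ker := by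
  rw [MonoidHom.mem_ker] at hw ⊢
  rw [chain f _ (bar_gen f), hw, map_one]

lemma rel_smul (m : Fin 2 → R) (hm : (⟨1, m⟩ : G) ∈ μ.range) (r : R) :
    (⟨1, r • m⟩ : G) ∈ μ.range := by
  induction r using induction_linear with
  | zero => rw [zero_smul]; exact μ.range.one_mem
  | add a b ha hb =>
    have := μ.range.mul_mem ha hb
    convert this using 1
    apply G.ext
    · simp
    · simp [add_smul, ← one_def]
  | single g c =>
    obtain ⟨w, rfl⟩ := π_surj g
    have h1 : (⟨1, (single (π w) 1 : R) • m⟩ : G) ∈ μ.range := by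
      have := μ.range.mul_mem (μ.range.mul_mem ⟨w, rfl⟩ hm) (μ.range.inv_mem ⟨w, rfl⟩)
      convert this using 1
      apply G.ext
      · simp
      · simp [smul_smul, single_mul_single, π_eq, ← one_def]
    have h2 : ∀ (m : Fin 2 → R) (c : ℤ), (⟨1, m⟩ : G) ^ c = ⟨1, c • m⟩ := by
      intro m c
      induction c using Int.induction_on with
      | zero => apply G.ext <;> simp
      | succ n ih => rw [zpow_add_one, ih]; apply G.ext <;> simp [add_smul, ← one_def]
      | pred n ih =>
        rw [zpow_sub_one, ih]; apply G.ext <;> simp [← one_def, sub_eq_add_neg, add_smul]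
    have := μ.range.zpow_mem h1 c
    rw [h2, ← smul_assoc] at this
    simpa using this

noncomputable def ρy : Fin 2 → R := ![ι ((y - 1) * (Z * y - 1)), ι (Z * y - 1) - ι (y - 1) * X]

lemma ρy_mem : (⟨1, ρy⟩ : G) ∈ μ.range := by
  refine ⟨(FreeGroup.of 0 * FreeGroup.of 1 * (FreeGroup.of 0)⁻¹ * (FreeGroup.of 1)⁻¹) *
    FreeGroup.of 1 * (FreeGroup.of 0 * FreeGroup.of 1 * (FreeGroup.of 0)⁻¹ * (FreeGroup.of 1)⁻¹)⁻¹ *
    (FreeGroup.of 1)⁻¹, ?_⟩
  have hy : ι y = single ⟨0, 1, 0⟩ 1 := by rw [y, ι_single]; rfl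
  have hZ : ι Z = single ⟨0, 0, 1⟩ 1 := by rw [Z, ι_single]; rfl
  have hmul : ∀ a b c d e f : ℤ, (⟨a, b, c⟩ : Q) * ⟨d, e, f⟩ = ⟨a + d, b + e, c + f + a * e⟩ :=
    fun _ _ _ _ _ _ => rfl
  have hinv : ∀ a b c : ℤ, (⟨a, b, c⟩ : Q)⁻¹ = ⟨-a, -b, -c + a * b⟩ := fun _ _ _ => rfl
  have hone : (1 : R) = single ⟨0, 0, 0⟩ 1 := rfl
  simp only [map_mul, map_inv, μ, FreeGroup.lift_apply_of]
  apply G.ext
  · ext <;> simp [gen, qx, qy]
  · funext k
    fin_cases k
    · simp [gen, qx, qy, ρy, hy, hZ, hmul, hinv, mul_sub, sub_mul, single_mul_single,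
        hone]
      abel
    · simp [gen, qx, qy, ρy, hy, hZ, hmul, hinv, mul_sub, sub_mul, single_mul_single,
        hone, X]
      abel

lemma row_eq : ι β • ρy + Pi.single 0 1 = ![ra, rb] := by
  funext k
  fin_cases k
  · simp [ρy, ra, a0, mul_assoc, add_comm]
  · simp [ρy, rb, mul_assoc, mul_sub, sub_mul]

/-- There is a variety of groups (given by laws), a rank r, and an element h of the relatively free group of rank r that is not primitive, together with an injective endomorphism of that group sending h to a primitive element. -/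
theorem result :
    ∃ (W : Set (FreeGroup ℕ)) (r : ℕ) (V : Subgroup (FreeGroup (Fin r))),
      V = Subgroup.closure
        {x : FreeGroup (Fin r) | ∃ (f : ℕ → FreeGroup (Fin r)) (w : FreeGroup ℕ),
          w ∈ W ∧ FreeGroup.lift f w = x} ∧
      ∃ (h : FreeGroup (Fin r)) (g : Fin r → FreeGroup (Fin r)),
        (¬ ∃ (a b : Fin r → FreeGroup (Fin r)) (i : Fin r),
            (∀ j : Fin r, (FreeGroup.lift b (a j))⁻¹ * FreeGroup.of j ∈ V) ∧
            (∀ j : Fin r, (FreeGroup.lift a (b j))⁻¹ * FreeGroup.of j ∈ V) ∧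
            (a i)⁻¹ * h ∈ V) ∧
        (∀ w : FreeGroup (Fin r), FreeGroup.lift g w ∈ V → w ∈ V) ∧
        (∃ (a b : Fin r → FreeGroup (Fin r)) (i : Fin r),
            (∀ j : Fin r, (FreeGroup.lift b (a j))⁻¹ * FreeGroup.of j ∈ V) ∧
            (∀ j : Fin r, (FreeGroup.lift a (b j))⁻¹ * FreeGroup.of j ∈ V) ∧
            (a i)⁻¹ * FreeGroup.lift g h ∈ V) := by
  classical
  refine ⟨FreeGroup.map Fin.val '' (μ.ker : Set F), 2, μ.ker, ?_, ?_⟩
  · apply le_antisymm
    · intro k hk
      refine Subgroup.subset_closure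
        ⟨fun n => if h : n < 2 then FreeGroup.of ⟨n, h⟩ else 1, _, ⟨k, hk, rfl⟩, ?_⟩
      have : (FreeGroup.lift fun n => if h : n < 2 then FreeGroup.of (⟨n, h⟩ : Fin 2) else 1).comp
          (FreeGroup.map Fin.val) = MonoidHom.id _ := by
        refine FreeGroup.ext_hom _ _ fun i => ?_
        simp [-Order.lt_two_iff, i.2]
      exact DFunLike.congr_fun this k
    · rw [Subgroup.closure_le]
      rintro _ ⟨f, _, ⟨k, hk, rfl⟩, rfl⟩
      have : (FreeGroup.lift f).comp (FreeGroup.map Fin.val)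
          = FreeGroup.lift fun i : Fin 2 => f i := by
        refine FreeGroup.ext_hom _ _ fun i => ?_
        simp
      have h2 := DFunLike.congr_fun this k
      simp only [MonoidHom.comp_apply] at h2
      rw [h2]
      exact invariant _ _ hk
  have hker : ∀ a b : F, a⁻¹ * b ∈ μ.ker ↔ μ a = μ b := by
    intro a b
    rw [MonoidHom.mem_ker, map_mul, map_inv, inv_mul_eq_one]
  have hof : ∀ i, μ (FreeGroup.of i) = ⟨gen i, Pi.single i 1⟩ := fun i => by simp [μ]
  obtain ⟨c1, c2, hc⟩ := unimod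
  let c : Fin 2 → R := ![c1, c2]
  obtain ⟨k0, hk0⟩ := rel_smul _ ρy_mem (ι β)
  have hk : ∀ i, ∃ k, μ k = ⟨1, (-(c i * ι β)) • ρy⟩ := fun i => rel_smul _ ρy_mem _
  choose k hk using hk
  have hh : μ (k0 * FreeGroup.of 0) = ⟨qx, ![ra, rb]⟩ := by
    rw [map_mul, hk0, hof, ← row_eq]
    apply G.ext
    · simp [gen]
    · simp [← one_def]
  have hg : ∀ i, μ (k i * FreeGroup.of i) = ⟨gen i, (-(c i * ι β)) • ρy + Pi.single i 1⟩ := by
    intro i
    rw [map_mul, hk, hof]
    apply G.ext
    · simp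
    · simp [← one_def]
  have hα : ∀ w, μ (FreeGroup.lift (fun i => k i * FreeGroup.of i) w)
      = ⟨(μ w).q, (μ w).m - ((μ w).m 0 * c1 + (μ w).m 1 * c2) • ι β • ρy⟩ := by
    intro w
    rw [chain _ (MonoidHom.id Q) (fun i => by rw [π_eq, hg]; rfl)]
    apply G.ext
    · rfl
    · simp only [Ψ, MonoidHom.mk'_apply, hg, Fin.sum_univ_two]
      have e : ∀ r : R, mapDomainRingHom ℤ (MonoidHom.id Q) r = r := fun r => by simp
      rw [e, e]
      funext j
      fin_cases j <;> simp [c, add_mul, mul_assoc] <;> abel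
  refine ⟨k0 * FreeGroup.of 0, fun i => k i * FreeGroup.of i, ?_, ?_, ?_⟩
  · rintro ⟨a, b, i, h1, h2, h3⟩
    simp only [hker] at h1 h2 h3
    rw [hh] at h3
    let N : Matrix (Fin 2) (Fin 2) R := Matrix.of fun j l => (μ (a j)).m l
    let P : Matrix (Fin 2) (Fin 2) R := Matrix.of fun j l => mapDomainRingHom ℤ (bar a) ((μ (b j)).m l)
    have hPN : P * N = 1 := by
      ext1 j l
      have := congrArg (fun g : G => g.m l) (h2 j)
      simp only [chain a _ (bar_gen a), hof, Ψ, MonoidHom.mk'_apply, Finset.sum_apply,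
        Pi.smul_apply, smul_eq_mul] at this
      simp only [Matrix.mul_apply, N, P, Matrix.of_apply, this, Matrix.one_apply, Pi.single_apply,
        eq_comm]
    have hid : (bar a).comp (bar b) = MonoidHom.id Q := by
      have h4 : ((bar a).comp (bar b)).comp π = π := by
        refine FreeGroup.ext_hom _ _ fun j => ?_
        have := congrArg G.q (h2 j)
        simp only [chain a _ (bar_gen a), hof, Ψ, MonoidHom.mk'_apply] at this
        simp only [MonoidHom.comp_apply, π_of, bar_gen, π_eq (b j), this]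
      ext1 g
      obtain ⟨w, rfl⟩ := π_surj g
      exact DFunLike.congr_fun h4 w
    have hid2 : ∀ r : R, mapDomainRingHom ℤ (bar a) (mapDomainRingHom ℤ (bar b) r) = r := by
      intro r
      induction r using induction_linear with
      | zero => simp only [map_zero]
      | add x y hx hy => simp only [map_add, hx, hy]
      | single g c =>
        have : bar a (bar b g) = g := DFunLike.congr_fun hid g
        simp [this]
    have hNP : N * P = 1 := by
      ext1 j l
      have := congrArg (fun g : G => mapDomainRingHom ℤ (bar a) (g.m l)) (h1 j)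
      simp only [chain b _ (bar_gen b), hof, Ψ, MonoidHom.mk'_apply, Finset.sum_apply,
        Pi.smul_apply, smul_eq_mul, map_sum, map_mul, hid2] at this
      simp only [Matrix.mul_apply, N, P, Matrix.of_apply, this, Matrix.one_apply, Pi.single_apply]
      by_cases hjl : j = l
      · simp only [hjl, if_true, map_one]
      · simp only [hjl, Ne.symm hjl, if_false, map_zero]
    have hN0 : N i 0 = ra := by simp [N, h3]
    have hN1 : N i 1 = rb := by simp [N, h3]
    obtain ⟨i', hi', hsum⟩ : ∃ i' : Fin 2, i ≠ i' ∧ ∀ f : Fin 2 → R, ∑ l, f l = f i + f i' := by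
      fin_cases i
      · exact ⟨1, by decide, fun f => by simp⟩
      · exact ⟨0, by decide, fun f => by simp [add_comm]⟩
    refine not_free (P 0 i') (P 1 i') ?_ ?_
    · have := congrFun (congrFun hNP i) i'
      rw [Matrix.mul_apply, Fin.sum_univ_two, hN0, hN1, Matrix.one_apply_ne hi'] at this
      exact this
    · intro f g hfg
      have h5 : (P * N).mulVec ![f, g] = ![f, g] := by rw [hPN, Matrix.one_mulVec]
      rw [← Matrix.mulVec_mulVec] at h5
      have h6 := congrFun h5 1
      have h7 : N.mulVec ![f, g] i = 0 := by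
        simp [Matrix.mulVec, dotProduct, Fin.sum_univ_two, hN0, hN1, hfg]
      rw [Matrix.mulVec, dotProduct, hsum, h7, mul_zero, zero_add] at h6
      exact ⟨_, h6.symm⟩
  · intro w hw
    rw [MonoidHom.mem_ker] at hw ⊢
    rw [hα] at hw
    have h1 : (μ w).q = 1 := congrArg G.q hw
    have h2 : (μ w).m - ((μ w).m 0 * c1 + (μ w).m 1 * c2) • ι β • ρy = 0 := congrArg G.m hw
    have h3 : ι β • ρy = ![ra, rb] - Pi.single 0 1 := by rw [← row_eq]; simp
    rw [h3, sub_eq_zero] at h2
    set l := (μ w).m 0 * c1 + (μ w).m 1 * c2 with hl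
    have h4 : (μ w).m 0 = l * (ra - 1) := by rw [h2]; simp [Matrix.vecHead]
    have h5 : (μ w).m 1 = l * rb := by rw [h2]; simp [Matrix.vecHead, Matrix.vecTail]
    have h6 : l * c1 = 0 := by
      have : l = l * (ra * c1 + rb * c2) - l * c1 := by
        conv_lhs => rw [hl, h4, h5]
        noncomm_ring
      rw [hc, mul_one] at this
      exact sub_eq_self.1 this.symm
    have hc1 : c1 ≠ 0 := by
      rintro rfl
      let ε : R →ₐ[ℤ] ℤ := MonoidAlgebra.lift ℤ ℤ Q 1
      have h7 := congrArg ε hc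
      have e1 : ε (ι y) = 1 := by rw [y, ι_single]; simp [ε]
      have e2 : ε (ι Z) = 1 := by rw [Z, ι_single]; simp [ε]
      simp [rb, β, e1, e2] at h7
    have h8 : l = 0 := by
      by_contra h
      exact R_mul_ne h hc1 h6
    apply G.ext
    · exact h1
    · rw [h2, h8]; simp
  · refine ⟨FreeGroup.of, FreeGroup.of, 0, fun j => by simp, fun j => by simp, ?_⟩
    rw [hker, hα, hh, hof]
    apply G.ext
    · rfl
    · simp only [Matrix.cons_val_zero, Matrix.cons_val_one, hc, one_smul]
      rw [← row_eq]; simp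

end Pool.Agent.S02549
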