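import Pool.Statements.S02628
import Pool.Agent.H4.Fib4
-- import your own Pool.Agent.* helpers here

set_option autoImplicit false
open Pool Pool.MP_a9d502_al

namespace Pool.Agent.S02628

/-- The negation of the preceding statement: There is a class F of finite soluble groups with these properties. It contains the trivial group, is closed under isomorphism, normal subgroups and joins of normal F-subgroups, and is not closed under both quotients and subdirect products. For every finite soluble G = AB, the F-radicals satisfy A_F -/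
theorem result :
    ¬ (∃ F : (G : Type) → [Group G] → Prop,
    (∀ (G : Type) [Group G], F G → Finite G ∧ IsSolvable G) ∧
    F Unit ∧
    (∀ (G H : Type) [Group G] [Group H], (G ≃* H) → F G → F H) ∧
    (∀ (G : Type) [Group G] (N : Subgroup G), N.Normal → F G → F ↥N) ∧
    (∀ (G : Type) [Group G] [Finite G] (N M : Subgroup G),
        N.Normal → M.Normal → F ↥N → F ↥M → F ↥(N ⊔ M)) ∧
    ¬ ((∀ (G : Type) [Group G] [Finite G] (N : Subgroup G) [N.Normal],
          F G → F (G ⧸ N)) ∧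
       (∀ (G : Type) [Group G] [Finite G] (N M : Subgroup G) [N.Normal] [M.Normal],
          F (G ⧸ N) → F (G ⧸ M) → F (G ⧸ (N ⊓ M)))) ∧
    (∀ (G : Type) [Group G] [Finite G], IsSolvable G →
      ∀ A B : Subgroup G, (∀ g : G, ∃ a ∈ A, ∃ b ∈ B, g = a * b) →
        (sSup {N : Subgroup ↥A | N.Normal ∧ F ↥N}).map A.subtype ⊓
          (sSup {N : Subgroup ↥B | N.Normal ∧ F ↥N}).map B.subtype ≤
          sSup {N : Subgroup G | N.Normal ∧ F ↥N})) := by
  rintro ⟨F, h1, h2, h3, h4, h5, h6, h7⟩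
  have hF : Pool.Agent.H4.Fib.FC F := ⟨h1, fun G H _ _ ⟨e⟩ => h3 G H e, h4, h5,
    fun G _ _ hs A B hA hB hf R hR x hx => (sSup_le fun N hN => hR N hN.1.isSubnormal hN.2 :
      sSup {N : Subgroup G | N.Normal ∧ F N} ≤ R) (h7 G hs A B (fun g => by
        obtain ⟨a, ha, b, hb, e⟩ := hf g
        exact ⟨a, ha, b, hb, e.symm⟩)
      ⟨⟨⟨x, hx.1⟩, (le_sSup (And.intro inferInstance (h3 _ _ Subgroup.topEquiv.symm hA)) :
          ⊤ ≤ sSup {N : Subgroup A | N.Normal ∧ F N}) trivial, rfl⟩,
        ⟨⟨x, hx.2⟩, (le_sSup (And.intro inferInstance (h3 _ _ Subgroup.topEquiv.symm hB)) :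
          ⊤ ≤ sSup {N : Subgroup B | N.Normal ∧ F N}) trivial, rfl⟩⟩), _, _, h2⟩
  refine h6 ⟨fun G _ _ N _ hG => hF.quot N hG, fun G _ _ N M _ _ a b => ?_⟩
  let π := QuotientGroup.mk' (N ⊓ M)
  have hπ := QuotientGroup.mk'_surjective (N ⊓ M)
  have := Subgroup.Normal.map ‹N.Normal› π hπ
  have := Subgroup.Normal.map ‹M.Normal› π hπ
  refine hF.subd (N.map π) (M.map π) (eq_bot_iff.2 ?_)
    (h3 _ _ (QuotientGroup.quotientQuotientEquivQuotient _ N inf_le_left).symm a)
    (h3 _ _ (QuotientGroup.quotientQuotientEquivQuotient _ M inf_le_right).symm b)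
  rintro _ ⟨⟨x, hx, rfl⟩, y, hy, e⟩
  have k : y⁻¹ * x ∈ N ⊓ M := QuotientGroup.eq.1 e
  exact (QuotientGroup.eq_one_iff _).2 ⟨hx, by simpa using M.mul_mem hy k.2⟩

end Pool.Agent.S02628
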