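import Pool.Statements.S02629

set_option autoImplicit false
open Pool Pool.MP_a9e0e5_al

namespace Pool.Agent.S02629

open scoped commutatorElement
open Function

section
variable {G : Type} (Ω : Type) [Group G] [Group Ω] [MulDistribMulAction Ω G] {k : ℕ}

/-- one move -/
def R (a b : Fin k → G) : Prop :=
  (∃ i j : Fin k, i ≠ j ∧
    (b = Function.update a i (a i * a j) ∨
     b = Function.update a i (a i * (a j)⁻¹) ∨
     b = Function.update a i (a j * a i) ∨
     b = Function.update a i ((a j)⁻¹ * a i))) ∨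
  (∃ i : Fin k, b = Function.update a i (a i)⁻¹) ∨
  (∃ (i : Fin k) (g : G), b = Function.update a i (g⁻¹ * a i * g)) ∨
  (∃ (i : Fin k) (ω : Ω), b = Function.update a i (ω • a i))

/-- equivalence -/
abbrev E (a b : Fin k → G) : Prop := Relation.ReflTransGen (R Ω) a b

/-- invariant normal subgroups -/
def Iv (H : Subgroup G) : Prop := H.Normal ∧ ∀ ω : Ω, ∀ h ∈ H, ω • h ∈ H

/-- generating tuples -/
def Gen (a : Fin k → G) : Prop := ∀ H : Subgroup G, Iv Ω H → (∀ i, a i ∈ H) → H = ⊤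

/-- invariant normal closure -/
def K (x : G) : Subgroup G := sInf {H | Iv Ω H ∧ x ∈ H}

variable {Ω}

theorem R.symm {a b : Fin k → G} (h : R Ω a b) : R Ω b a := by
  rcases h with ⟨i, j, hij, rfl | rfl | rfl | rfl⟩ | ⟨i, rfl⟩ | ⟨i, g, rfl⟩ | ⟨i, w, rfl⟩
  · exact .inl ⟨i, j, hij, .inr (.inl (by simp [update_of_ne hij.symm]))⟩
  · exact .inl ⟨i, j, hij, .inl (by simp [update_of_ne hij.symm])⟩
  · exact .inl ⟨i, j, hij, .inr (.inr (.inr (by simp [update_of_ne hij.symm])))⟩
  · exact .inl ⟨i, j, hij, .inr (.inr (.inl (by simp [update_of_ne hij.symm])))⟩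
  · exact .inr (.inl ⟨i, by simp⟩)
  · exact .inr (.inr (.inl ⟨i, g⁻¹, by simp [mul_assoc]⟩))
  · exact .inr (.inr (.inr ⟨i, w⁻¹, by simp⟩))

theorem E.symm {a b : Fin k → G} (h : E Ω a b) : E Ω b a := by
  induction h with
  | refl => exact .refl
  | tail _ h ih => exact Relation.ReflTransGen.head h.symm ih

theorem R.mem {a b : Fin k → G} (h : R Ω a b) {H : Subgroup G} (hH : Iv Ω H) (ha : ∀ i, a i ∈ H)
    (l : Fin k) : b l ∈ H := by
  have key : ∀ i x, x ∈ H → update a i x l ∈ H := fun i x hx => by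
    by_cases h : l = i
    · subst h; simpa
    · simp [update_of_ne h, ha]
  rcases h with ⟨i, j, -, rfl | rfl | rfl | rfl⟩ | ⟨i, rfl⟩ | ⟨i, g, rfl⟩ | ⟨i, w, rfl⟩
  · exact key _ _ (mul_mem (ha _) (ha _))
  · exact key _ _ (mul_mem (ha _) (inv_mem (ha _)))
  · exact key _ _ (mul_mem (ha _) (ha _))
  · exact key _ _ (mul_mem (inv_mem (ha _)) (ha _))
  · exact key _ _ (inv_mem (ha _))
  · exact key _ _ (hH.1.conj_mem' _ (ha _) _)
  · exact key _ _ (hH.2 _ _ (ha _))

theorem E.gen {a b : Fin k → G} (h : E Ω a b) (ha : Gen Ω a) : Gen Ω b := by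
  induction h with
  | refl => exact ha
  | tail _ h ih => exact fun H hH hb => ih H hH (h.symm.mem hH hb)

theorem K_iv (x : G) : Iv Ω (K Ω x) :=
  ⟨⟨fun n hn g => Subgroup.mem_sInf.2 fun H hH => hH.1.1.conj_mem _ (Subgroup.mem_sInf.1 hn H hH) g⟩,
    fun w n hn => Subgroup.mem_sInf.2 fun H hH => hH.1.2 w _ (Subgroup.mem_sInf.1 hn H hH)⟩

theorem K_mem (x : G) : x ∈ K Ω x := Subgroup.mem_sInf.2 fun _ hH => hH.2

theorem K_le {x : G} {H : Subgroup G} (hH : Iv Ω H) (hx : x ∈ H) : K Ω x ≤ H := sInf_le ⟨hH, hx⟩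

theorem iv_iff {H : Subgroup G} : Iv Ω H ↔ H.Normal ∧
    ∀ ω : Ω, H.map (MulDistribMulAction.toMonoidHom G ω) ≤ H :=
  and_congr_right fun _ => forall_congr' fun _ => by rw [Subgroup.map_le_iff_le_comap]; rfl

theorem Iv.sup {A B : Subgroup G} (hA : Iv Ω A) (hB : Iv Ω B) : Iv Ω (A ⊔ B) := by
  have := hA.1
  have := hB.1
  refine iv_iff.2 ⟨inferInstance, fun w => ?_⟩
  rw [Subgroup.map_sup]
  exact sup_le_sup ((iv_iff.1 hA).2 w) ((iv_iff.1 hB).2 w)

theorem Iv.comm {A B : Subgroup G} (hA : Iv Ω A) (hB : Iv Ω B) : Iv Ω ⁅A, B⁆ := by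
  have := hA.1
  have := hB.1
  refine iv_iff.2 ⟨inferInstance, fun w => ?_⟩
  rw [Subgroup.map_commutator]
  exact Subgroup.commutator_mono ((iv_iff.1 hA).2 w) ((iv_iff.1 hB).2 w)

theorem iv_top : Iv Ω (⊤ : Subgroup G) := ⟨inferInstance, fun _ _ _ => trivial⟩

/-- centraliser of `A` modulo `L` -/
def Cen (A L : Subgroup G) (hL : L.Normal) : Subgroup G where
  carrier := {x | ∀ y ∈ A, ⁅x, y⁆ ∈ L}
  mul_mem' {a b} ha hb y hy := by
    have := mul_mem (hL.conj_mem _ (hb y hy) a) (ha y hy)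
    convert this using 1
    simp only [commutatorElement_def]; group
  one_mem' y _ := by simp
  inv_mem' {a} ha y hy := by
    have := inv_mem (hL.conj_mem' _ (ha y hy) a)
    convert this using 1
    simp only [commutatorElement_def]; group

theorem Cen_iv {A L : Subgroup G} (hA : Iv Ω A) (hL : Iv Ω L) : Iv Ω (Cen A L hL.1) := by
  refine ⟨⟨fun n hn g y hy => ?_⟩, fun w n hn y hy => ?_⟩
  · have := hL.1.conj_mem _ (hn _ (hA.1.conj_mem' y hy g)) g
    convert this using 1
    simp only [commutatorElement_def]; group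
  · have := hL.2 w _ (hn _ (hA.2 w⁻¹ y hy))
    simpa [commutatorElement_def, smul_mul'] using this

theorem Cen_le {A B L : Subgroup G} (hL : L.Normal) (h : B ≤ Cen A L hL) : ⁅B, A⁆ ≤ L :=
  Subgroup.commutator_le.2 fun _ hx y hy => h hx y hy

theorem self_Cen {A L : Subgroup G} (hL : L.Normal) {x : G} (h : x ∈ L) : x ∈ Cen A L hL :=
  fun y _ => by
    have := mul_mem h (hL.conj_mem _ (inv_mem h) y)
    simpa [commutatorElement_def, mul_assoc] using this

theorem E_mul {i j : Fin k} (hij : i ≠ j) (a : Fin k → G) {y : G} (hy : y ∈ K Ω (a j)) :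
    E Ω a (update a i (a i * y)) := by
  let S : Subgroup G :=
    { carrier := {y | ∀ b : Fin k → G, b j = a j → E Ω b (update b i (b i * y))}
      mul_mem' := fun {y z} hy hz b hb => by
        have := hz (update b i (b i * y)) (by rw [update_of_ne hij.symm, hb])
        simp only [update_self, update_idem, mul_assoc] at this
        exact (hy b hb).trans this
      one_mem' := fun b _ => by simpa using Relation.ReflTransGen.refl
      inv_mem' := fun {y} hy b hb => by
        have := hy (update b i (b i * y⁻¹)) (by rw [update_of_ne hij.symm, hb])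
        simpa using this.symm }
  refine K_le (H := S) ⟨⟨fun n hn g b hb => ?_⟩, fun w n hn b hb => ?_⟩ (fun b hb => ?_) hy a rfl
  · have h1 := hn (update b i (g⁻¹ * b i * g)) (by rw [update_of_ne hij.symm, hb])
    refine (Relation.ReflTransGen.head (.inr (.inr (.inl ⟨i, g, rfl⟩))) h1).tail
      (.inr (.inr (.inl ⟨i, g⁻¹, ?_⟩)))
    simp [mul_assoc]
  · have h1 := hn (update b i (w⁻¹ • b i)) (by rw [update_of_ne hij.symm, hb])
    refine (Relation.ReflTransGen.head (.inr (.inr (.inr ⟨i, w⁻¹, rfl⟩))) h1).tail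
      (.inr (.inr (.inr ⟨i, w, ?_⟩)))
    simp [smul_mul']
  · exact .single (.inl ⟨i, j, hij, .inl (by rw [hb])⟩)

theorem E_many (j : Fin k) (a : Fin k → G) (y : Fin k → G) (hy : ∀ i, y i ∈ K Ω (a j))
    (s : Finset (Fin k)) (hs : j ∉ s) : E Ω a (fun i => if i ∈ s then a i * y i else a i) := by
  induction s using Finset.induction_on with
  | empty => simpa using Relation.ReflTransGen.refl
  | insert i s hi ih =>
    have h1 : j ≠ i := fun h => hs (by simp [h])
    have h2 : j ∉ s := fun h => hs (by simp [h])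
    refine (ih h2).trans ?_
    convert E_mul h1.symm (fun i => if i ∈ s then a i * y i else a i) (y := y i)
      (by simpa [h2] using hy i) using 1
    funext l
    by_cases h : l = i
    · subst h; simp [hi]
    · simp [h]

theorem fix {L M : Subgroup G} (hL : Iv Ω L) (j : Fin k) (a v : Fin k → G)
    (h1 : M ≤ K Ω (a j) ⊔ L) (h2 : ∀ i, (a i)⁻¹ * v i ∈ M) :
    ∃ b, E Ω a b ∧ b j = a j ∧ ∀ i, i ≠ j → (b i)⁻¹ * v i ∈ L := by
  have := hL.1
  have h3 : ∀ i, ∃ y ∈ K Ω (a j), (a i * y)⁻¹ * v i ∈ L := fun i => by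
    have h4 : (a i)⁻¹ * v i ∈ (↑(K Ω (a j) ⊔ L) : Set G) := h1 (h2 i)
    rw [Subgroup.mul_normal] at h4
    obtain ⟨y, hy, l, hl, h5⟩ := h4
    exact ⟨y, hy, by rw [mul_inv_rev, mul_assoc, ← h5]; simpa using hl⟩
  choose y hy h3 using h3
  exact ⟨_, E_many j a y hy (Finset.univ.erase j) (by simp), by simp, fun i hi => by
    simpa [hi] using h3 i⟩

theorem caseA {L M : Subgroup G} (hL : Iv Ω L) (hLM : L ≤ M) {i j : Fin k} (hij : i ≠ j)
    (a v : Fin k → G) (h1 : M ≤ K Ω (a i) ⊔ L) (h2 : M ≤ K Ω (v j) ⊔ L)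
    (h3 : ∀ l, (a l)⁻¹ * v l ∈ M) : ∃ b, E Ω a b ∧ ∀ l, (b l)⁻¹ * v l ∈ L := by
  obtain ⟨b, e1, e2, e3⟩ := fix hL i a v h1 h3
  have h4 : K Ω (v j) ≤ K Ω (b j) ⊔ L := K_le ((K_iv _).sup hL) (by
    simpa using mul_mem (Subgroup.mem_sup_left (K_mem (Ω := Ω) (b j)))
      (Subgroup.mem_sup_right (e3 j hij.symm)))
  obtain ⟨c, f1, f2, f3⟩ := fix hL j b v (h2.trans (sup_le h4 le_sup_right)) fun l => by
    by_cases h : l = i
    · rw [h, e2]; exact h3 i
    · exact hLM (e3 l h)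
  refine ⟨c, e1.trans f1, fun l => ?_⟩
  by_cases h : l = j
  · rw [h, f2]; exact e3 j hij.symm
  · exact f3 l h

theorem caseB {L M : Subgroup G} (hL : Iv Ω L) (hM : M.Normal) (hLM : L ≤ M) {i j : Fin k}
    (hij : i ≠ j) (a v : Fin k → G) (h1 : M ≤ K Ω (a i) ⊔ L) (h2 : M ≤ K Ω (v j * v i) ⊔ L)
    (h3 : ∀ l, (a l)⁻¹ * v l ∈ M) : ∃ b, E Ω a b ∧ ∀ l, (b l)⁻¹ * v l ∈ L := by
  obtain ⟨b, e1, e2⟩ := caseA hL hLM hij (update a j (a j * a i)) (update v j (v j * v i))
    (by rwa [update_of_ne hij]) (by rwa [update_self]) fun l => by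
      by_cases h : l = j
      · subst h
        have := mul_mem (hM.conj_mem' _ (h3 l) (a i)) (h3 i)
        simpa [mul_assoc] using this
      · simpa [update_of_ne h] using h3 l
  refine ⟨update b j (b j * (b i)⁻¹), (Relation.ReflTransGen.head (.inl ⟨j, i, hij.symm, .inl rfl⟩)
    e1).tail (.inl ⟨j, i, hij.symm, .inr (.inl rfl)⟩), fun l => ?_⟩
  by_cases h : l = j
  · subst h
    have h4 := e2 i
    have h5 := e2 l
    rw [update_of_ne hij] at h4
    rw [update_self] at h5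
    have := hL.1.conj_mem _ (mul_mem h5 (inv_mem h4)) (b i)
    simpa [mul_assoc] using this
  · simpa [update_of_ne h] using e2 l

theorem main [Finite G] (hk : 2 ≤ k) (v : Fin k → G) (hv : Gen Ω v) (a : Fin k → G)
    (ha : Gen Ω a) (h : ∀ l, (a l)⁻¹ * v l ∈ commutator G) (L : Subgroup G) (hL : Iv Ω L) :
    ∃ b, E Ω a b ∧ ∀ l, (b l)⁻¹ * v l ∈ L := by
  have : Nontrivial (Fin k) := Fin.nontrivial_iff_two_le.2 hk
  induction L using WellFoundedGT.induction with
  | ind L ih =>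
  by_cases h0 : ∀ i j, ⁅K Ω (v i), K Ω (v j)⁆ ≤ L
  · refine ⟨a, .refl, fun l => Cen_le hL.1 (hv _ (Cen_iv iv_top hL) fun j y _ => ?_).ge (h l)⟩
    have h1 := hv _ (Cen_iv (K_iv (v j)) hL) fun i y hy =>
      h0 i j (Subgroup.commutator_mem_commutator (K_mem _) hy)
    have h2 : y ∈ Cen (K Ω (v j)) L hL.1 := by rw [h1]; trivial
    simpa using inv_mem (h2 _ (K_mem _))
  obtain ⟨i, j, h1, h2⟩ : ∃ i j, ¬ ⁅K Ω (v i), K Ω (v j)⁆ ≤ L ∧
      (i ≠ j ∨ ∀ i j, i ≠ j → ⁅K Ω (v i), K Ω (v j)⁆ ≤ L) := by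
    by_cases h3 : ∀ i j, i ≠ j → ⁅K Ω (v i), K Ω (v j)⁆ ≤ L
    · push Not at h0
      obtain ⟨i, j, h0⟩ := h0
      exact ⟨i, j, h0, .inr h3⟩
    · push Not at h3
      obtain ⟨i, j, h3, h4⟩ := h3
      exact ⟨i, j, h4, .inl h3⟩
  obtain ⟨M, ⟨hM, hLM, hM1⟩, hmin⟩ := (wellFounded_lt (α := Subgroup G)).has_min
    {M | Iv Ω M ∧ L < M ∧ M ≤ ⁅K Ω (v i), K Ω (v j)⁆ ⊔ L}
    ⟨_, ((K_iv _).comm (K_iv _)).sup hL, right_lt_sup.2 h1, le_rfl⟩
  obtain ⟨u, e1, e2⟩ := ih M hLM hM
  suffices H : ∃ b, E Ω u b ∧ ∀ l, (b l)⁻¹ * v l ∈ L by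
    obtain ⟨b, f1, f2⟩ := H
    exact ⟨b, e1.trans f1, f2⟩
  by_cases hc : Cen M L hL.1 = ⊤
  · have h3 : M ≤ K Ω (u i) ⊔ L := by
      have hN := (K_iv (Ω := Ω) (u i)).sup hL
      refine hM1.trans (sup_le ((Subgroup.commutator_mono le_rfl le_top).trans
        (Cen_le hN.1 (K_le (Cen_iv iv_top hN) ?_))) le_sup_right)
      have h4 : (u i)⁻¹ * v i ∈ Cen ⊤ _ hN.1 := fun y _ => by
        have h5 : y ∈ Cen M L hL.1 := by rw [hc]; trivial
        simpa using Subgroup.mem_sup_right (inv_mem (h5 _ (e2 i)))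
      simpa using mul_mem (self_Cen hN.1 (Subgroup.mem_sup_left (K_mem _))) h4
    by_cases hij : i = j
    · subst hij
      obtain ⟨l, hl⟩ := exists_ne i
      refine caseB hL hM.1 hLM.le hl.symm u v h3 ?_ e2
      have hN := (K_iv (Ω := Ω) (v l * v i)).sup hL
      refine hM1.trans (sup_le (Cen_le hN.1 (K_le (Cen_iv (K_iv _) hN) ?_)) le_sup_right)
      have h4 : v l ∈ Cen (K Ω (v i)) _ hN.1 := fun y hy => Subgroup.mem_sup_right
        (h2.resolve_left (by simp) l i hl (Subgroup.commutator_mem_commutator (K_mem _) hy))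
      simpa using mul_mem (inv_mem h4) (self_Cen hN.1 (Subgroup.mem_sup_left (K_mem _)))
    · have := (K_iv (Ω := Ω) (v j)).1
      exact caseA hL hLM.le hij u v h3
        (hM1.trans (sup_le_sup_right (Subgroup.commutator_le_right _ _) _)) e2
  · have good : ∀ x, x ∉ Cen M L hL.1 → M ≤ K Ω x ⊔ L := fun x hx => by
      have := hM.1
      have := (K_iv (Ω := Ω) x).1
      have h3 : ⁅K Ω x, M⁆ ⊔ L ≤ M := sup_le (Subgroup.commutator_le_right _ _) hLM.le
      have h4 := h3.eq_of_not_lt (hmin _ ⟨((K_iv x).comm hM).sup hL, right_lt_sup.2 fun h5 =>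
        hx fun y hy => h5 (Subgroup.commutator_mem_commutator (K_mem _) hy), h3.trans hM1⟩)
      exact h4.ge.trans (sup_le_sup_right (Subgroup.commutator_le_left _ _) _)
    obtain ⟨p, hp⟩ : ∃ p, u p ∉ Cen M L hL.1 := by
      by_contra! H; exact hc (e1.gen ha _ (Cen_iv hM hL) H)
    obtain ⟨q, hq⟩ : ∃ q, v q ∉ Cen M L hL.1 := by
      by_contra! H; exact hc (hv _ (Cen_iv hM hL) H)
    by_cases hpq : p = q
    · subst hpq
      obtain ⟨l, hl⟩ := exists_ne p
      by_cases h5 : v l ∈ Cen M L hL.1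
      · exact caseB hL hM.1 hLM.le hl.symm u v (good _ hp)
          (good _ fun h6 => hq (by simpa using mul_mem (inv_mem h5) h6)) e2
      · exact caseA hL hLM.le hl.symm u v (good _ hp) (good _ h5) e2
    · exact caseA hL hLM.le hpq u v (good _ hp) (good _ hq) e2

theorem of_eq {x y : G} : Abelianization.of x = Abelianization.of y ↔ x⁻¹ * y ∈ commutator G :=
  QuotientGroup.eq

theorem of_upd (a : Fin k → G) (i : Fin k) (x : G) :
    (fun l => Abelianization.of (update a i x l)) =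
      update (fun l => Abelianization.of (a l)) i (Abelianization.of x) := by
  funext l
  by_cases h : l = i
  · subst h; simp
  · simp [update_of_ne h]

end

/-- For finite G with operator group Ω and k = minimal number of Ω-normal generators ≥ 2, two normally generating k-tuples are AC-equivalent (with conjugation by G and Ω) iff their images in G/[G,G] are AC-equivalent (with Ω-action). -/
theorem result :
    ∀ (G Ω : Type) [Group G] [Finite G] [Group Ω] [MulDistribMulAction Ω G] (k : ℕ),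
      2 ≤ k →
      (∃ u : Fin k → G, ∀ H : Subgroup G, H.Normal → (∀ ω : Ω, ∀ h ∈ H, ω • h ∈ H) →
          (∀ i, u i ∈ H) → H = ⊤) →
      (∀ m : ℕ, m < k → ∀ u : Fin m → G, ¬ (∀ H : Subgroup G, H.Normal →
          (∀ ω : Ω, ∀ h ∈ H, ω • h ∈ H) → (∀ i, u i ∈ H) → H = ⊤)) →
      ∀ U V : Fin k → G,
        (∀ H : Subgroup G, H.Normal → (∀ ω : Ω, ∀ h ∈ H, ω • h ∈ H) →
          (∀ i, U i ∈ H) → H = ⊤) →
        (∀ H : Subgroup G, H.Normal → (∀ ω : Ω, ∀ h ∈ H, ω • h ∈ H) →
          (∀ i, V i ∈ H) → H = ⊤) →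
        (Relation.ReflTransGen
            (fun a b : Fin k → G =>
              (∃ i j : Fin k, i ≠ j ∧
                (b = Function.update a i (a i * a j) ∨
                 b = Function.update a i (a i * (a j)⁻¹) ∨
                 b = Function.update a i (a j * a i) ∨
                 b = Function.update a i ((a j)⁻¹ * a i))) ∨
              (∃ i : Fin k, b = Function.update a i (a i)⁻¹) ∨
              (∃ (i : Fin k) (g : G), b = Function.update a i (g⁻¹ * a i * g)) ∨
              (∃ (i : Fin k) (ω : Ω), b = Function.update a i (ω • a i)))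
            U V ↔
          Relation.ReflTransGen
            (fun a b : Fin k → Abelianization G =>
              (∃ i j : Fin k, i ≠ j ∧
                (b = Function.update a i (a i * a j) ∨
                 b = Function.update a i (a i * (a j)⁻¹) ∨
                 b = Function.update a i (a j * a i) ∨
                 b = Function.update a i ((a j)⁻¹ * a i))) ∨
              (∃ i : Fin k, b = Function.update a i (a i)⁻¹) ∨
              (∃ (i : Fin k) (ω : Ω) (g : G), Abelianization.of g = a i ∧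
                b = Function.update a i (Abelianization.of (ω • g))))
            (fun i => Abelianization.of (U i)) (fun i => Abelianization.of (V i))) := by
  intro G Ω _ _ _ _ k hk _ _ U V hU hV
  constructor
  · intro h
    induction h with
    | refl => exact .refl
    | tail h1 h ih =>
      have ih := ih fun H h2 h3 => (E.gen (Ω := Ω) h1 fun H h => hU H h.1 h.2) H ⟨h2, h3⟩
      rcases h with ⟨i, j, hij, rfl | rfl | rfl | rfl⟩ | ⟨i, rfl⟩ | ⟨i, g, rfl⟩ | ⟨i, w, rfl⟩
      · exact ih.tail (.inl ⟨i, j, hij, .inl (by simp [of_upd])⟩)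
      · exact ih.tail (.inl ⟨i, j, hij, .inr (.inl (by simp [of_upd]))⟩)
      · exact ih.tail (.inl ⟨i, j, hij, .inr (.inr (.inl (by simp [of_upd])))⟩)
      · exact ih.tail (.inl ⟨i, j, hij, .inr (.inr (.inr (by simp [of_upd])))⟩)
      · exact ih.tail (.inr (.inl ⟨i, by simp [of_upd]⟩))
      · rw [of_upd]
        simpa [mul_comm (Abelianization.of g)⁻¹] using ih
      · exact ih.tail (.inr (.inr ⟨i, w, _, rfl, by simp [of_upd]⟩))
  · intro h
    have hD : Iv Ω (commutator G) := iv_top.comm iv_top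
    obtain ⟨W, h1, h2⟩ : ∃ W, E Ω U W ∧
        (fun i => Abelianization.of (W i)) = fun i => Abelianization.of (V i) := by
      generalize (fun i => Abelianization.of (V i)) = c at h
      induction h with
      | refl => exact ⟨U, .refl, rfl⟩
      | tail _ h ih =>
        obtain ⟨W, h1, rfl⟩ := ih
        rcases h with ⟨i, j, hij, rfl | rfl | rfl | rfl⟩ | ⟨i, rfl⟩ | ⟨i, w, g, hg, rfl⟩
        · exact ⟨_, h1.tail (.inl ⟨i, j, hij, .inl rfl⟩), by simp [of_upd]⟩
        · exact ⟨_, h1.tail (.inl ⟨i, j, hij, .inr (.inl rfl)⟩), by simp [of_upd]⟩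
        · exact ⟨_, h1.tail (.inl ⟨i, j, hij, .inr (.inr (.inl rfl))⟩), by simp [of_upd]⟩
        · exact ⟨_, h1.tail (.inl ⟨i, j, hij, .inr (.inr (.inr rfl))⟩), by simp [of_upd]⟩
        · exact ⟨_, h1.tail (.inr (.inl ⟨i, rfl⟩)), by simp [of_upd]⟩
        · refine ⟨_, h1.tail (.inr (.inr (.inr ⟨i, w, rfl⟩))), ?_⟩
          rw [of_upd, (of_eq (x := w • g) (y := w • W i)).2
            (by simpa [smul_mul'] using hD.2 w _ (of_eq.1 hg))]
    obtain ⟨b, h3, h4⟩ := main hk V (fun H h => hV H h.1 h.2) W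
      (h1.gen fun H h => hU H h.1 h.2) (fun l => of_eq.1 (congrFun h2 l)) ⊥
      ⟨inferInstance, fun w x hx => by simp [Subgroup.mem_bot.1 hx]⟩
    have : b = V := funext fun l => inv_mul_eq_one.1 (Subgroup.mem_bot.1 (h4 l))
    exact this ▸ h1.trans h3

end Pool.Agent.S02629
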