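import Pool.Statements.S02647
import Pool.Agent.H25.Std

set_option autoImplicit false
open Pool Pool.MP_aaf344_al

namespace Pool.Agent.S02647

/-- Setting: a field of characteristic p>0 and an algebra over it graded by a finite abelian group of order k whose degree-zero part is commutative. Claim: every such algebra satisfies the standard identity of degree kp. -/
theorem result :
    ∀ (F : Type) [Field F] (p : ℕ), 0 < p → CharP F p →
    ∀ (G : Type) [AddCommGroup G] [Fintype G] [DecidableEq G]
      (A : Type) [Ring A] [Algebra F A] (𝒜 : G → Submodule F A) [GradedAlgebra 𝒜],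
      (∀ a ∈ 𝒜 0, ∀ b ∈ 𝒜 0, a * b = b * a) →
      ∀ x : Fin (Fintype.card G * p) → A,
        ∑ σ : Equiv.Perm (Fin (Fintype.card G * p)),
          ((Equiv.Perm.sign σ : ℤˣ) : ℤ) • (List.ofFn (fun i => x (σ i))).prod = 0 := by
  intro F _ p hp0 hchar G _ _ _ A _ _ 𝒜 _ hA0 x
  have hp : p.Prime := (CharP.char_is_prime_or_zero F p).resolve_right (by omega)
  apply Pool.Agent.H25.Std.extract F
  have hpR : (p : TensorProduct F (Pool.Agent.H25.Std.EA F (Fintype.card G * p)) A) = 0 := by
    rw [← map_natCast (algebraMap F _), CharP.cast_eq_zero, map_zero]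
  have h := Pool.Agent.H25.Std.core (Pool.Agent.H25.Std.dd F (Fintype.card G * p) A) 𝒜 hA0 p hp hpR
    rfl (fun i g => (DirectSum.decompose 𝒜 (x i) g : A)) (fun i g => SetLike.coe_mem _)
  have hs : ∀ i, ∑ g, (DirectSum.decompose 𝒜 (x i) g : A) = x i := by
    intro i
    classical
    conv_rhs => rw [← DirectSum.sum_support_decompose 𝒜 (x i)]
    refine (Finset.sum_subset (Finset.subset_univ _) fun g _ hg => ?_).symm
    simpa using hg
  simp only [hs] at h
  simpa [Pool.Agent.H25.Std.dd] using h

end Pool.Agent.S02647
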