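import Pool.Statements.S02659

set_option autoImplicit false
open Filter Topology
open Pool Pool.MP_ab8afa_al

namespace Pool.Agent.S02659

open MeasureTheory

noncomputable def τ : UnitAddCircle := ((Real.sqrt 2 : ℝ) : UnitAddCircle)

theorem irr (Q : ℕ) (hQ : 0 < Q) : Irrational ((Q : ℝ) * Real.sqrt 2 / 1) := by
  rw [div_one]
  exact irrational_sqrt_two.natCast_mul hQ.ne'

theorem norm_τ_pos : 0 < ‖τ‖ := by
  rw [norm_pos_iff]
  intro h
  rw [τ, AddCircle.coe_eq_zero_iff] at h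
  obtain ⟨n, hn⟩ := h
  apply irrational_sqrt_two
  refine ⟨(n : ℚ), ?_⟩
  rw [← hn]
  simp

theorem exists_next (Q : ℕ) (hQ : 0 < Q) (δ : ℝ) (hδ : 0 < δ) :
    ∃ j : ℕ, 1 ≤ j ∧ ‖((1 + j * Q : ℕ) : ℤ) • τ‖ ≤ δ := by
  have h1 : DenseRange (fun n : ℤ => n • (((Q : ℝ) * Real.sqrt 2 : ℝ) : UnitAddCircle)) :=
    AddCircle.denseRange_zsmul_coe_iff.mpr (irr Q hQ)
  rw [denseRange_zsmul_iff_nsmul] at h1
  obtain ⟨j, hj⟩ := Metric.denseRange_iff.mp h1 (-τ) (min δ ‖τ‖) (lt_min hδ norm_τ_pos)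
  have he : ((1 + j * Q : ℕ) : ℤ) • τ = j • (((Q : ℝ) * Real.sqrt 2 : ℝ) : UnitAddCircle) + τ := by
    have : (((Q : ℝ) * Real.sqrt 2 : ℝ) : UnitAddCircle) = Q • τ := by
      rw [τ, ← AddCircle.coe_nsmul, nsmul_eq_mul]
    rw [this, natCast_zsmul, add_nsmul, one_nsmul, mul_nsmul', add_comm]
  rw [dist_comm, dist_eq_norm, sub_neg_eq_add] at hj
  refine ⟨j, ?_, ?_⟩
  · rcases Nat.eq_zero_or_pos j with h0 | h0
    · subst h0
      simp at hj
    · exact h0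
  · rw [he]
    exact hj.le.trans (min_le_left _ _)

theorem exists_p : ∃ p : ℕ → ℕ, p 0 = 1 ∧ (∀ n, 0 < p n) ∧ ∀ n, ∃ j : ℕ, 1 ≤ j ∧
    p (n + 1) = 1 + j * ((n + 2) * p n) ∧
    ‖((p (n + 1) : ℕ) : ℤ) • τ‖ ≤ 1 / (((n : ℝ) + 2) ^ 3 * p n) := by
  have H : ∀ (n : ℕ) (q : {q : ℕ // 0 < q}), ∃ q' : {q : ℕ // 0 < q}, ∃ j : ℕ, 1 ≤ j ∧
      q'.1 = 1 + j * ((n + 2) * q.1) ∧ ‖((q'.1 : ℕ) : ℤ) • τ‖ ≤ 1 / (((n : ℝ) + 2) ^ 3 * q.1) := by
    intro n q
    have hq : (0 : ℝ) < q.1 := by exact_mod_cast q.2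
    obtain ⟨j, hj, h⟩ := exists_next ((n + 2) * q.1) (Nat.mul_pos (by omega) q.2)
      (1 / (((n : ℝ) + 2) ^ 3 * q.1)) (by positivity)
    exact ⟨⟨1 + j * ((n + 2) * q.1), by omega⟩, j, hj, rfl, h⟩
  choose F hF using H
  let P : ℕ → {q : ℕ // 0 < q} := fun n => Nat.rec ⟨1, one_pos⟩ F n
  exact ⟨fun n => (P n).1, rfl, fun n => (P n).2, fun n => hF n (P n)⟩

/-- `z` is, at every scale `M`, close (for the character) to a short integer. -/
def Good (p : ℕ → ℕ) (z : ℤ) (r : ℝ) : Prop :=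
  ∀ M : ℕ, ∃ w : ℤ, |(w : ℝ)| ≤ r * ((M + 1) * p M) ∧
    ‖(z - w) • τ‖ ≤ r / (((M : ℝ) + 2) ^ 2 * p M)

theorem Good.sub {p : ℕ → ℕ} {z z' : ℤ} {r r' : ℝ} (h : Good p z r) (h' : Good p z' r') :
    Good p (z - z') (r + r') := by
  intro M
  obtain ⟨w, h1, h2⟩ := h M
  obtain ⟨w', h1', h2'⟩ := h' M
  refine ⟨w - w', ?_, ?_⟩
  · push_cast
    calc |(w : ℝ) - w'| ≤ |(w : ℝ)| + |(w' : ℝ)| := abs_sub _ _
      _ ≤ _ := by rw [add_mul]; exact add_le_add h1 h1'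
  · have : (z - z' - (w - w')) • τ = (z - w) • τ - (z' - w') • τ := by
      rw [← sub_smul]; congr 1; ring
    rw [this, add_div]
    exact (norm_sub_le _ _).trans (add_le_add h2 h2')

theorem Good.mono {p : ℕ → ℕ} {z : ℤ} {r r' : ℝ} (h : Good p z r) (hr : r ≤ r') :
    Good p z r' := by
  intro M
  obtain ⟨w, h1, h2⟩ := h M
  exact ⟨w, h1.trans (by gcongr), h2.trans (by gcongr)⟩

theorem good_of_rep {p : ℕ → ℕ} (hpos : ∀ n, 0 < p n) (hmono : Monotone p)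
    (hsm : ∀ n, ‖((p (n + 1) : ℕ) : ℤ) • τ‖ ≤ 1 / (((n : ℝ) + 2) ^ 3 * p n)) (k : ℕ →₀ ℤ) :
    Good p (k.sum (fun i c => c * (p i : ℤ))) (k.sum (fun i c => |(c : ℝ)| * (1 / ((i : ℝ) + 1)))) := by
  intro M
  have hpM : (0 : ℝ) < p M := by exact_mod_cast hpos M
  refine ⟨∑ i ∈ k.support.filter (· ≤ M), k i * (p i : ℤ), ?_, ?_⟩
  · push_cast
    refine (Finset.abs_sum_le_sum_abs _ _).trans ?_
    rw [Finsupp.sum, Finset.sum_mul]
    refine le_trans (Finset.sum_le_sum (g := fun i => |(k i : ℝ)| * (1 / ((i : ℝ) + 1)) *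
      ((M + 1) * p M)) ?_) (Finset.sum_le_sum_of_subset_of_nonneg (Finset.filter_subset _ _) ?_)
    · intro i hi
      have hiM : i ≤ M := (Finset.mem_filter.mp hi).2
      have h1 : (p i : ℝ) ≤ p M := by exact_mod_cast hmono hiM
      have h2 : (i : ℝ) + 1 ≤ M + 1 := by exact_mod_cast Nat.succ_le_succ hiM
      rw [abs_mul, Nat.abs_cast, mul_assoc]
      refine mul_le_mul_of_nonneg_left ?_ (abs_nonneg _)
      rw [one_div, ← div_eq_inv_mul, le_div_iff₀ (by positivity), mul_comm]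
      gcongr
    · intro i _ _
      positivity
  · rw [Finsupp.sum, ← Finset.sum_filter_add_sum_filter_not k.support (· ≤ M), add_sub_cancel_left,
      Finset.sum_smul]
    refine (norm_sum_le _ _).trans ?_
    rw [Finsupp.sum, Finset.sum_div]
    refine le_trans (Finset.sum_le_sum (g := fun i => |(k i : ℝ)| * (1 / ((i : ℝ) + 1)) /
      (((M : ℝ) + 2) ^ 2 * p M)) ?_) (Finset.sum_le_sum_of_subset_of_nonneg
        (Finset.filter_subset _ _) ?_)
    · intro i hi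
      have hiM : M < i := not_le.mp (Finset.mem_filter.mp hi).2
      obtain ⟨n, rfl⟩ : ∃ n, i = n + 1 := ⟨i - 1, by omega⟩
      have hn : M ≤ n := by omega
      rw [mul_smul]
      refine (norm_zsmul_le _ _).trans ?_
      rw [Int.norm_eq_abs, mul_div_assoc]
      refine mul_le_mul_of_nonneg_left ((hsm n).trans ?_) (abs_nonneg _)
      have h1 : (p M : ℝ) ≤ p n := by exact_mod_cast hmono hn
      have h2 : (M : ℝ) + 2 ≤ n + 2 := by exact_mod_cast Nat.add_le_add_right hn 2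
      rw [div_div]
      apply one_div_le_one_div_of_le (by positivity)
      push_cast
      calc ((n : ℝ) + 1 + 1) * (((M : ℝ) + 2) ^ 2 * p M)
          ≤ ((n : ℝ) + 1 + 1) * (((n : ℝ) + 2) ^ 2 * p n) := by gcongr
        _ = _ := by ring
    · intro i _ _
      positivity

theorem norm_le_cost {p : ℕ → ℕ} (hp0 : p 0 = 1) (hpos : ∀ n, 0 < p n)
    (hsm : ∀ n, ‖((p (n + 1) : ℕ) : ℤ) • τ‖ ≤ 1 / (((n : ℝ) + 2) ^ 3 * p n)) (k : ℕ →₀ ℤ) :
    ‖(k.sum (fun i c => c * (p i : ℤ))) • τ‖ ≤ k.sum (fun i c => |(c : ℝ)| * (1 / ((i : ℝ) + 1))) := by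
  rw [Finsupp.sum, Finsupp.sum, Finset.sum_smul]
  refine (norm_sum_le _ _).trans (Finset.sum_le_sum ?_)
  intro i _
  rw [mul_smul]
  refine (norm_zsmul_le _ _).trans ?_
  rw [Int.norm_eq_abs]
  refine mul_le_mul_of_nonneg_left ?_ (abs_nonneg _)
  cases i with
  | zero =>
    rw [hp0]
    have := AddCircle.norm_le_half_period (1 : ℝ) (x := τ) one_ne_zero
    simp only [Nat.cast_one, one_smul, Nat.cast_zero, zero_add, div_one]
    rw [abs_one] at this
    linarith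
  | succ n =>
    refine (hsm n).trans ?_
    have h1 : (1 : ℝ) ≤ p n := by exact_mod_cast hpos n
    apply one_div_le_one_div_of_le (by positivity)
    push_cast
    have h0 : (0 : ℝ) ≤ n := Nat.cast_nonneg n
    have : (1 : ℝ) ≤ ((n : ℝ) + 2) ^ 2 * p n := one_le_mul_of_one_le_of_one_le (by nlinarith) h1
    nlinarith

/-- The set of possible limit values at cost `R`. -/
def Bad (p : ℕ → ℕ) (R : ℕ) : Set ℝ :=
  {s | ∀ M : ℕ, ∃ w : ℤ, |(w : ℝ)| ≤ R * ((M + 1) * p M) ∧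
    |s - ‖w • τ‖| ≤ R / (((M : ℝ) + 2) ^ 2 * p M)}

theorem bad_null {p : ℕ → ℕ} (hpos : ∀ n, 0 < p n) (R : ℕ) : volume (Bad p R) = 0 := by
  have hb : ∀ M : ℕ, volume (Bad p R) ≤ ENNReal.ofReal ((2 * R + 1) * (2 * R) / ((M : ℝ) + 1)) := by
    intro M
    have hpM : (1 : ℝ) ≤ p M := by exact_mod_cast hpos M
    set Z : ℕ := R * ((M + 1) * p M) with hZ
    have hsub : Bad p R ⊆ ⋃ w ∈ Finset.Icc (-(Z : ℤ)) Z,
        Metric.closedBall ‖w • τ‖ (R / (((M : ℝ) + 2) ^ 2 * p M)) := by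
      intro s hs
      obtain ⟨w, h1, h2⟩ := hs M
      simp only [Set.mem_iUnion]
      refine ⟨w, ?_, by rwa [Metric.mem_closedBall, Real.dist_eq]⟩
      rw [Finset.mem_Icc, ← abs_le]
      have : |(w : ℝ)| ≤ (Z : ℝ) := by rw [hZ]; push_cast; exact h1
      exact_mod_cast this
    refine (measure_mono hsub).trans ((measure_biUnion_finset_le _ _).trans ?_)
    simp only [Real.volume_closedBall, Finset.sum_const, Int.card_Icc, nsmul_eq_mul]
    have hc : ((Z : ℤ) + 1 - -(Z : ℤ)).toNat = 2 * Z + 1 := by omega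
    rw [hc, ← ENNReal.ofReal_natCast, ← ENNReal.ofReal_mul (Nat.cast_nonneg _)]
    apply ENNReal.ofReal_le_ofReal
    rw [hZ]
    push_cast
    have hM : (0 : ℝ) ≤ M := Nat.cast_nonneg M
    have hR : (0 : ℝ) ≤ R := Nat.cast_nonneg R
    have h3 : (1 : ℝ) ≤ ((M : ℝ) + 1) * p M := one_le_mul_of_one_le_of_one_le (by linarith) hpM
    calc (2 * ((R : ℝ) * ((M + 1) * p M)) + 1) * (2 * (R / (((M : ℝ) + 2) ^ 2 * p M)))
        ≤ ((2 * R + 1) * ((M + 1) * p M)) * (2 * (R / (((M : ℝ) + 1) ^ 2 * p M))) := by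
          gcongr
          · nlinarith
          · norm_num
      _ = _ := by field_simp
  have ht : Tendsto (fun M : ℕ => ENNReal.ofReal ((2 * R + 1) * (2 * R) / ((M : ℝ) + 1))) atTop
      (𝓝 0) := by
    rw [← ENNReal.ofReal_zero]
    apply ENNReal.tendsto_ofReal
    exact tendsto_const_nhds.div_atTop (tendsto_atTop_add_const_right _ _ tendsto_natCast_atTop_atTop)
  exact le_antisymm (ge_of_tendsto' ht hb) zero_le

theorem exists_level {p : ℕ → ℕ} (hpos : ∀ n, 0 < p n) :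
    ∃ s : ℝ, 0 < s ∧ s < ‖τ‖ ∧ ∀ R, s ∉ Bad p R := by
  by_contra h
  push Not at h
  have hsub : Set.Ioo (0 : ℝ) ‖τ‖ ⊆ ⋃ R, Bad p R := fun s hs =>
    Set.mem_iUnion.mpr (h s hs.1 hs.2)
  have h0 : volume (Set.Ioo (0 : ℝ) ‖τ‖) = 0 :=
    measure_mono_null hsub (measure_iUnion_null (bad_null hpos))
  rw [Real.volume_Ioo, ENNReal.ofReal_eq_zero] at h0
  linarith [norm_τ_pos]

/-- There exist positive integers p_n and reals a_n with a_1=1 strictly decreasing to 0, a_n(p_{n+1}/p_n-1)≥1, and gcd-1 tails, and a split of ℤ into nonempty X and its complement Y, such that for x_i in X and y_i in Y the three N-series are never all convergent. -/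
theorem result :
    ∃ p : ℕ → ℕ, ∃ a : ℕ → ℝ,
      a 0 = 1 ∧ StrictAnti a ∧ Tendsto a atTop (𝓝 0) ∧
      (∀ n, 0 < p n) ∧
      (∀ n, 1 ≤ a n * ((p (n + 1) : ℝ) / (p n : ℝ) - 1)) ∧
      (∀ m : ℕ, ∃ s : Finset ℕ, (∀ n ∈ s, m < n) ∧ s.gcd p = 1) ∧
      ∃ X : Set ℤ, X.Nonempty ∧ Xᶜ.Nonempty ∧
        ∀ N : ℤ → ℝ,
          (∀ z : ℤ, N z = sInf {r : ℝ | ∃ k : ℕ →₀ ℤ,
              (k.sum (fun i c => c * (p i : ℤ))) = z ∧
              r = k.sum (fun i c => |(c : ℝ)| * a i)}) →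
          ∀ x y : ℕ → ℤ, (∀ i, x i ∈ X) → (∀ i, y i ∈ Xᶜ) →
            ¬ (Summable (fun i => N (x i - x (i + 1))) ∧
               Summable (fun i => N (y i - y (i + 1))) ∧
               Summable (fun i => N (x i - y i))) := by
  obtain ⟨p, hp0, hpos, hstep⟩ := exists_p
  have hsm : ∀ n, ‖((p (n + 1) : ℕ) : ℤ) • τ‖ ≤ 1 / (((n : ℝ) + 2) ^ 3 * p n) := fun n =>
    (hstep n).choose_spec.2.2
  have hge : ∀ n, (n + 2) * p n ≤ p (n + 1) := by
    intro n
    obtain ⟨j, hj, he, -⟩ := hstep n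
    rw [he]
    nlinarith [Nat.zero_le ((n + 2) * p n)]
  have hmono : Monotone p := monotone_nat_of_le_succ (fun n => by nlinarith [hge n, hpos n])
  obtain ⟨s, hs0, hs1, hsbad⟩ := exists_level hpos
  refine ⟨p, fun n => 1 / ((n : ℝ) + 1), by simp, ?_, tendsto_one_div_add_atTop_nhds_zero_nat,
    hpos, ?_, ?_, {z | ‖z • τ‖ < s}, ⟨0, by simpa using hs0⟩, ⟨1, by simpa using hs1.le⟩, ?_⟩
  · intro m n hmn
    apply one_div_lt_one_div_of_lt (by positivity)
    have : (m : ℝ) < n := by exact_mod_cast hmn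
    linarith
  · intro n
    have h1 : (0 : ℝ) < p n := by exact_mod_cast hpos n
    have h2 : ((n : ℝ) + 2) * p n ≤ p (n + 1) := by exact_mod_cast hge n
    have h3 : (n : ℝ) + 2 ≤ (p (n + 1) : ℝ) / p n := by rwa [le_div_iff₀ h1]
    show 1 ≤ 1 / ((n : ℝ) + 1) * _
    rw [one_div, ← div_eq_inv_mul, le_div_iff₀ (by positivity)]
    linarith
  · intro m
    refine ⟨{m + 1, m + 2}, by simp, ?_⟩
    obtain ⟨j, -, he, -⟩ := hstep (m + 1)
    rw [Finset.gcd_insert, Finset.gcd_singleton, normalize_eq, he, ← mul_assoc]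
    exact (Nat.coprime_add_mul_right_right (p (m + 1)) 1 _).mpr (Nat.coprime_one_right _)
  · intro N hN x y hx hy ⟨h1, _, h3⟩
    have hne : ∀ z : ℤ, ({r : ℝ | ∃ k : ℕ →₀ ℤ, (k.sum (fun i c => c * (p i : ℤ))) = z ∧
        r = k.sum (fun i c => |(c : ℝ)| * (1 / ((i : ℝ) + 1)))}).Nonempty := by
      intro z
      refine ⟨_, Finsupp.single 0 z, ?_, rfl⟩
      rw [Finsupp.sum_single_index (by simp), hp0]
      simp
    have hle : ∀ z : ℤ, ‖z • τ‖ ≤ N z := by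
      intro z
      rw [hN z]
      refine le_csInf (hne z) ?_
      rintro r ⟨k, rfl, rfl⟩
      exact norm_le_cost hp0 hpos hsm k
    have hgood : ∀ (z : ℤ) (η : ℝ), 0 < η → Good p z (N z + η) := by
      intro z η hη
      have : sInf {r : ℝ | ∃ k : ℕ →₀ ℤ, (k.sum (fun i c => c * (p i : ℤ))) = z ∧
        r = k.sum (fun i c => |(c : ℝ)| * (1 / ((i : ℝ) + 1)))} < N z + η := by
        rw [← hN z]; linarith
      obtain ⟨r, ⟨k, rfl, rfl⟩, hr⟩ := exists_lt_of_csInf_lt (hne z) this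
      exact (good_of_rep hpos hmono hsm k).mono hr.le
    have hind : ∀ i, Good p (x i) (N (x 0) + 1 +
        ∑ j ∈ Finset.range i, (N (x j - x (j + 1)) + (1 / 2) ^ j)) := by
      intro i
      induction i with
      | zero => simpa using hgood (x 0) 1 one_pos
      | succ i ih =>
        have := ih.sub (hgood (x i - x (i + 1)) ((1 / 2) ^ i) (by positivity))
        rw [sub_sub_cancel] at this
        rw [Finset.sum_range_succ, ← add_assoc]
        exact this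
    have hsum : Summable (fun j => N (x j - x (j + 1)) + (1 / 2 : ℝ) ^ j) :=
      h1.add summable_geometric_two
    obtain ⟨R, hR⟩ := exists_nat_ge (N (x 0) + 1 + ∑' j, (N (x j - x (j + 1)) + (1 / 2 : ℝ) ^ j))
    have hgR : ∀ i, Good p (x i) R := by
      intro i
      refine (hind i).mono (le_trans ?_ hR)
      gcongr
      refine hsum.sum_le_tsum _ (fun j _ => ?_)
      have := (norm_nonneg _).trans (hle (x j - x (j + 1)))
      positivity
    apply hsbad (R + 1)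
    intro M
    have hpM : (0 : ℝ) < p M := by exact_mod_cast hpos M
    have hε : (0 : ℝ) < 1 / (((M : ℝ) + 2) ^ 2 * p M) := by positivity
    obtain ⟨i, hi⟩ := ((h3.tendsto_atTop_zero.eventually (gt_mem_nhds hε))).exists
    obtain ⟨w, hw1, hw2⟩ := hgR i M
    refine ⟨w, hw1.trans (by push_cast; gcongr; linarith), ?_⟩
    have a1 : ‖x i • τ‖ < s := hx i
    have a2 : s ≤ ‖y i • τ‖ := not_lt.mp (hy i)
    have a3 : |‖x i • τ‖ - ‖y i • τ‖| ≤ N (x i - y i) := by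
      refine (abs_norm_sub_norm_le _ _).trans ?_
      rw [← sub_smul]
      exact hle _
    have a4 : |‖x i • τ‖ - ‖w • τ‖| ≤ R / (((M : ℝ) + 2) ^ 2 * p M) := by
      refine (abs_norm_sub_norm_le _ _).trans ?_
      rw [← sub_smul]
      exact hw2
    push_cast
    rw [add_div]
    rw [abs_le] at a3 a4 ⊢
    constructor <;> linarith [a3.1, a3.2, a4.1, a4.2]

end Pool.Agent.S02659
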