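import Pool.Statements.S02666

set_option autoImplicit false
open Pool Pool.MP_abd870_al

namespace Pool.Agent.S02666

open Topology Filter Set

/-- The abstract obstruction. -/
lemma obstruction {G R : Type} [Group G] [TopologicalSpace G] [IsTopologicalGroup G]
    [Ring R] [TopologicalSpace R] [IsTopologicalRing R] (f : G →ₙ* R) (hf : IsEmbedding f)
    (U0 : Set G) (hU0 : U0 ∈ 𝓝 (1 : G))
    (H : ∀ O ∈ 𝓝 (1 : G), ∃ (h m1 m2 m3 : G) (k : ℕ), h ^ k ∉ U0 ∧ h = m1 * m2 * m3 ∧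
      m1 ∈ O ∧ m2 ∈ O ∧ ∀ U ∈ 𝓝 (1 : G), ∀ m ∈ ({m1, m2, m3} : Set G),
        ∃ x ∈ O, Commute x h ∧ x * m * x⁻¹ ∈ U) : False := by
  have hc : Continuous f := hf.continuous
  set e := f 1 with he
  have hW : {y : R | ∀ g : G, f g = y + e → g ∈ U0} ∈ 𝓝 (0 : R) := by
    rw [hf.isInducing.nhds_eq_comap, mem_comap] at hU0
    obtain ⟨W, hW, hWU⟩ := hU0
    have h1 : Tendsto (fun y : R => y + e) (𝓝 0) (𝓝 e) := by
      have : Continuous fun y : R => y + e := by fun_prop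
      simpa using this.tendsto 0
    filter_upwards [h1 hW] with y hy g hg
    exact hWU (by rw [mem_preimage, hg]; exact hy)
  let Φ : G × G × G × R → R := fun p => f (p.1 * p.2.1 * p.2.2.1⁻¹) * p.2.2.2 * f p.2.2.1
  have hΦ : Continuous Φ := by fun_prop
  let Ψ : R × R × R → R := fun p => p.1 + p.2.1 + p.2.2
  have hΨ : Continuous Ψ := by fun_prop
  have h3 : Tendsto Ψ (𝓝 (0, 0, 0)) (𝓝 0) := by simpa [Ψ] using hΨ.tendsto (0, 0, 0)
  have h4 := h3 hW
  rw [mem_map, nhds_prod_eq, nhds_prod_eq, mem_prod_iff] at h4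
  obtain ⟨W1, hW1, W', hW', hWW⟩ := h4
  rw [mem_prod_iff] at hW'
  obtain ⟨W2, hW2, W3, hW3, hWW'⟩ := hW'
  have h5 : Tendsto Φ (𝓝 (1, 1, 1, 0)) (𝓝 0) := by simpa [Φ] using hΦ.tendsto (1, 1, 1, 0)
  have h6 := h5 (inter_mem hW1 (inter_mem hW2 hW3))
  rw [mem_map, nhds_prod_eq, nhds_prod_eq, nhds_prod_eq, mem_prod_iff] at h6
  obtain ⟨O1, hO1, O', hO', hOO⟩ := h6
  rw [mem_prod_iff] at hO'
  obtain ⟨O2, hO2, O'', hO'', hOO'⟩ := hO'
  rw [mem_prod_iff] at hO''
  obtain ⟨O3, hO3, V, hV, hOO''⟩ := hO''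
  have key : ∀ a ∈ O1, ∀ b ∈ O2, ∀ x ∈ O3, ∀ y ∈ V,
      f (a * b * x⁻¹) * y * f x ∈ W1 ∩ (W2 ∩ W3) := fun a ha b hb x hx y hy =>
    hOO (mk_mem_prod ha (hOO' (mk_mem_prod hb (hOO'' (mk_mem_prod hx hy))))) 
  obtain ⟨h, m1, m2, m3, k, hk, hm, hm1, hm2, H⟩ := H _ (inter_mem hO1 (inter_mem hO2 hO3))
  set σ := ∑ j ∈ Finset.range k, f (h ^ j) with hσ
  have hU : {u : G | (f u - e) * σ ∈ V} ∈ 𝓝 (1 : G) := by
    have : Continuous fun u : G => (f u - e) * σ := by fun_prop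
    have h7 : Tendsto (fun u : G => (f u - e) * σ) (𝓝 1) (𝓝 0) := by
      simpa [he] using this.tendsto 1
    exact h7 hV
  have term : ∀ a ∈ O1, ∀ b ∈ O2, ∀ m ∈ ({m1, m2, m3} : Set G),
      (f (a * b * m) - f (a * b)) * σ ∈ W1 ∩ (W2 ∩ W3) := by
    intro a ha b hb m hm
    obtain ⟨x, hx, hxh, hxm⟩ := H _ hU m hm
    have := key a ha b hb x hx.2.2 _ hxm
    have hcomm : σ * f x = f x * σ := by
      rw [hσ, Finset.sum_mul, Finset.mul_sum]
      refine Finset.sum_congr rfl fun j _ => ?_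
      rw [← map_mul, ← map_mul, (hxh.pow_right j).eq]
    convert this using 1
    rw [mul_assoc (f (a * b * x⁻¹)), mul_assoc _ σ, hcomm, ← mul_assoc, ← mul_assoc, mul_sub,
      sub_mul _ _ (f x), he]
    simp only [← map_mul]
    congr 3 <;> group
  have h1O1 : (1 : G) ∈ O1 := mem_of_mem_nhds hO1
  have h1O2 : (1 : G) ∈ O2 := mem_of_mem_nhds hO2
  have t1 := term 1 h1O1 1 h1O2 m1 (by simp)
  have t2 := term m1 hm1.1 1 h1O2 m2 (by simp)
  have t3 := term m1 hm1.1 m2 hm2.2.1 m3 (by simp)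
  have hsum := hWW (mk_mem_prod t1.1 (hWW' (mk_mem_prod t2.2.1 t3.2.2)))
  apply hk
  apply hsum
  have tel : (f h - e) * σ = f (h ^ k) - e := by
    rw [hσ, Finset.mul_sum, he, ← pow_zero h, ← Finset.sum_range_sub (fun j => f (h ^ j))]
    refine Finset.sum_congr rfl fun j _ => ?_
    rw [sub_mul, ← map_mul, ← map_mul, pow_zero, one_mul, pow_succ']
  simp only [Ψ, one_mul, mul_one, ← hm, ← he]
  rw [← add_mul, ← add_mul, ← sub_eq_iff_eq_add, ← tel]
  congr 1
  abel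

/-- Order isomorphisms of the line that are uniformly continuous in both directions. -/
def GG : Subgroup (ℝ ≃o ℝ) where
  carrier := {g | UniformContinuous g ∧ UniformContinuous g.symm}
  one_mem' := ⟨uniformContinuous_id, uniformContinuous_id⟩
  mul_mem' := fun ha hb => ⟨ha.1.comp hb.1, hb.2.comp ha.2⟩
  inv_mem' := fun ha => ⟨ha.2, ha.1⟩

def small (ε : ℝ) : Set GG := {g | ∀ t, |g.1 t - t| ≤ ε}

@[simp] lemma app_mul (g h : GG) (t : ℝ) : (g * h).1 t = g.1 (h.1 t) := rfl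
@[simp] lemma app_one (t : ℝ) : (1 : GG).1 t = t := rfl
@[simp] lemma app_inv (g : GG) (t : ℝ) : g.1 (g⁻¹.1 t) = t := g.1.apply_symm_apply t
@[simp] lemma inv_app (g : GG) (t : ℝ) : g⁻¹.1 (g.1 t) = t := g.1.symm_apply_apply t

@[reducible] def basis : GroupFilterBasis GG where
  sets := {U | ∃ ε > 0, U = small ε}
  nonempty := ⟨_, 1, one_pos, rfl⟩
  inter_sets := by
    rintro _ _ ⟨a, ha, rfl⟩ ⟨b, hb, rfl⟩
    exact ⟨_, ⟨min a b, lt_min ha hb, rfl⟩, fun g hg =>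
      ⟨fun t => (hg t).trans (min_le_left _ _), fun t => (hg t).trans (min_le_right _ _)⟩⟩
  one' := by
    rintro _ ⟨a, ha, rfl⟩ t
    simp [ha.le]
  mul' := by
    rintro _ ⟨a, ha, rfl⟩
    refine ⟨_, ⟨a / 2, by positivity, rfl⟩, ?_⟩
    rintro _ ⟨g, hg, h, hh, rfl⟩ t
    have h1 := abs_le.1 (hg (h.1 t))
    have h2 := abs_le.1 (hh t)
    simp only [app_mul]
    rw [abs_le]
    constructor <;> linarith
  inv' := by
    rintro _ ⟨a, ha, rfl⟩
    refine ⟨_, ⟨a, ha, rfl⟩, fun g hg t => ?_⟩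
    have := hg (g⁻¹.1 t)
    rwa [app_inv, abs_sub_comm] at this
  conj' := by
    rintro x _ ⟨a, ha, rfl⟩
    obtain ⟨δ, hδ, h⟩ := Metric.uniformContinuous_iff.1 x.2.1 a ha
    refine ⟨_, ⟨δ / 2, by positivity, rfl⟩, fun g hg t => ?_⟩
    have h1 := h (a := g.1 (x⁻¹.1 t)) (b := x⁻¹.1 t)
      (by rw [Real.dist_eq]; exact (hg _).trans_lt (by linarith))
    rw [Real.dist_eq, app_inv] at h1
    exact h1.le

lemma per_int (g : ℝ → ℝ) (hg : ∀ t, g (t + 1) = g t + 1) (n : ℤ) (t : ℝ) :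
    g (t + n) = g t + n := by
  have hp : Function.Periodic (fun t => g t - t) 1 := fun t => by simp only [hg]; ring
  have := hp.int_mul n t
  simp only [mul_one] at this
  linarith

lemma uc_of_per (g : ℝ ≃o ℝ) (hg : ∀ t, g (t + 1) = g t + 1) : UniformContinuous g := by
  rw [Metric.uniformContinuous_iff]
  intro ε hε
  have huc : UniformContinuousOn g (Icc (-1) 2) :=
    isCompact_Icc.uniformContinuousOn_of_continuous g.continuous.continuousOn
  obtain ⟨δ, hδ, h⟩ := Metric.uniformContinuousOn_iff.1 huc ε hε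
  refine ⟨min δ 1, lt_min hδ one_pos, fun {a b} hab => ?_⟩
  have h1 := Int.floor_le a
  have h2 := Int.lt_floor_add_one a
  rw [Real.dist_eq, lt_min_iff] at hab
  have h3 := abs_lt.1 hab.2
  have := h (a + (-⌊a⌋ : ℤ)) ⟨by push_cast; linarith, by push_cast; linarith⟩
    (b + (-⌊a⌋ : ℤ)) ⟨by push_cast; linarith, by push_cast; linarith⟩
    (by rw [dist_add_right, Real.dist_eq]; exact hab.1)
  rwa [per_int g hg, per_int g hg, dist_add_right] at this

lemma mem_of_per (g : ℝ ≃o ℝ) (hg : ∀ t, g (t + 1) = g t + 1) : g ∈ GG :=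
  ⟨uc_of_per g hg, uc_of_per g.symm fun t => by
    apply g.injective
    rw [hg]; simp⟩

lemma exists_per (φ : ℝ → ℝ) (hm : StrictMono φ) (hc : Continuous φ) (h0 : φ 0 = 0)
    (h1 : φ 1 = 1) :
    ∃ g : GG, (∀ t, g.1 (t + 1) = g.1 t + 1) ∧ ∀ t ∈ Icc (0 : ℝ) 1, g.1 t = φ t := by
  let F : ℝ → ℝ := fun t => ⌊t⌋ + φ (Int.fract t)
  have hF : StrictMono F := by
    intro s t hst
    have hfl : ⌊s⌋ ≤ ⌊t⌋ := Int.floor_le_floor hst.le
    rcases hfl.eq_or_lt with h | h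
    · have : Int.fract s < Int.fract t := by unfold Int.fract; rw [h]; linarith
      simp only [F, h]
      linarith [hm this]
    · have h2 : ((⌊s⌋ + 1 : ℤ) : ℝ) ≤ ⌊t⌋ := by exact_mod_cast h
      have h3 := hm (Int.fract_lt_one s)
      have h4 := hm.monotone (Int.fract_nonneg t)
      push_cast at h2
      simp only [F]
      linarith
  have hs : Function.Surjective F := by
    intro y
    obtain ⟨u, hu, hy⟩ := intermediate_value_Ico zero_le_one hc.continuousOn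
      (show Int.fract y ∈ Ico (φ 0) (φ 1) by
        rw [h0, h1]; exact ⟨Int.fract_nonneg y, Int.fract_lt_one y⟩)
    refine ⟨⌊y⌋ + u, ?_⟩
    simp only [F, Int.floor_intCast_add, Int.fract_intCast_add]
    rw [Int.floor_eq_zero_iff.2 hu, Int.fract_eq_self.2 hu, hy]
    simp
  have hper : ∀ t, F (t + 1) = F t + 1 := fun t => by
    simp only [F, Int.floor_add_one, Int.fract_add_one]; push_cast; ring
  refine ⟨⟨hF.orderIsoOfSurjective F hs, mem_of_per _ hper⟩, hper, fun t ht => ?_⟩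
  change F t = φ t
  rcases ht.2.eq_or_lt with rfl | h
  · simp [F, h0, h1]
  · simp only [F]
    rw [Int.floor_eq_zero_iff.2 ⟨ht.1, h⟩, Int.fract_eq_self.2 ⟨ht.1, h⟩]
    simp

/-- Translation. -/
def tr (c : ℝ) : GG := ⟨OrderIso.addRight c, mem_of_per _ fun t => by simp; ring⟩

@[simp] lemma tr_app (c t : ℝ) : (tr c).1 t = t + c := rfl
@[simp] lemma tr_inv_app (c t : ℝ) : (tr c)⁻¹.1 t = t - c := by
  apply (tr c).1.injective; rw [app_inv]; simp

lemma commute_of_per (g : GG) (hg : ∀ t, g.1 (t + 1) = g.1 t + 1) : Commute g (tr 1) := by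
  apply Subtype.ext
  ext t
  exact hg t

lemma small_of_fix (g : GG) (hg : ∀ t, g.1 (t + 1) = g.1 t + 1) (q : ℝ) (hq : g.1 q = q) :
    g ∈ small 1 := by
  intro t
  have h1 := Int.floor_le (t - q)
  have h2 := Int.lt_floor_add_one (t - q)
  have h3 := per_int _ hg ⌊t - q⌋ q
  have h4 := per_int _ hg (⌊t - q⌋ + 1) q
  have h5 : g.1 (q + ⌊t - q⌋) ≤ g.1 t := g.1.monotone (by linarith)
  have h6 : g.1 t ≤ g.1 (q + (⌊t - q⌋ + 1 : ℤ)) := g.1.monotone (by push_cast; linarith)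
  push_cast at h4 h6
  rw [abs_le]
  constructor <;> linarith

lemma squeeze (m : GG) (hm : ∀ t, m.1 (t + 1) = m.1 t + 1) (q c : ℝ) (hc : 0 < c) (hc1 : c < 1)
    (hq : ∀ t ∈ Icc q (q + c), m.1 t = t) (ε : ℝ) (hε : 0 < ε) :
    ∃ x ∈ small 1, Commute x (tr 1) ∧ x * m * x⁻¹ ∈ small ε := by
  wlog hε1 : ε ≤ 1 generalizing ε
  · obtain ⟨x, h1, h2, h3⟩ := this 1 one_pos le_rfl
    exact ⟨x, h1, h2, fun t => (h3 t).trans (not_le.1 hε1).le⟩
  have hc' : 1 ≤ 1 / c := by rw [le_div_iff₀ hc]; linarith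
  obtain ⟨y, hy, hyφ⟩ := exists_per (fun t => min (t / c) (1 - ε * (1 - t)))
    (fun s t hst => min_lt_min (by gcongr) (by nlinarith)) (by fun_prop)
    (by simp; linarith) (by simp; simpa using hc')
  have hx : ∀ t, (tr q * y * (tr q)⁻¹).1 (t + 1) = (tr q * y * (tr q)⁻¹).1 t + 1 := fun t => by
    simp only [app_mul, tr_app, tr_inv_app]
    rw [show t + 1 - q = t - q + 1 by ring, hy]; ring
  set x := tr q * y * (tr q)⁻¹ with hxdef
  have hxv : ∀ s ∈ Icc (q + c) (q + 1), q + 1 - ε ≤ x.1 s ∧ x.1 s ≤ q + 1 := by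
    intro s hs
    simp only [hxdef, app_mul, tr_app, tr_inv_app]
    rw [hyφ _ ⟨by linarith [hs.1], by linarith [hs.2]⟩]
    have h1 : 1 ≤ (s - q) / c := by rw [le_div_iff₀ hc]; linarith [hs.1]
    have h2 : 0 ≤ ε * (1 - (s - q)) := mul_nonneg hε.le (by linarith [hs.2])
    have h3 : ε * (1 - (s - q)) ≤ ε := by nlinarith [hs.1]
    rw [min_eq_right (by linarith)]
    constructor <;> linarith
  refine ⟨x, small_of_fix x hx q ?_, commute_of_per x hx, fun t => ?_⟩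
  · simp only [hxdef, app_mul, tr_app, tr_inv_app, sub_self]
    rw [hyφ 0 (by simp)]
    simp; linarith
  · obtain ⟨s, rfl⟩ := x.1.surjective t
    simp only [app_mul, inv_app]
    have h1 := Int.floor_le (s - q)
    have h2 := Int.lt_floor_add_one (s - q)
    obtain ⟨u, hu⟩ : ∃ u, s = u + ⌊s - q⌋ := ⟨s - ⌊s - q⌋, by ring⟩
    generalize ⌊s - q⌋ = n at h1 h2 hu
    subst hu
    rw [per_int _ hm, per_int _ hx, per_int _ hx, add_sub_add_right_eq_sub]
    by_cases hcase : u ≤ q + c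
    · rw [hq u ⟨by linarith, hcase⟩]; simp [hε.le]
    · have h3 : m.1 (q + c) ≤ m.1 u := m.1.monotone (by linarith)
      have h4 : m.1 u ≤ m.1 (q + 1) := m.1.monotone (by linarith)
      rw [hq _ ⟨by linarith, le_rfl⟩] at h3
      rw [hm, hq _ ⟨le_rfl, by linarith⟩] at h4
      have h5 := hxv u ⟨by linarith, by linarith⟩
      have h6 := hxv _ ⟨h3, h4⟩
      rw [abs_le]
      constructor <;> linarith

lemma scale_one : ∃ m1 m2 m3 : GG, tr 1 = m1 * m2 * m3 ∧ m1 ∈ small 1 ∧ m2 ∈ small 1 ∧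
    ∀ ε > 0, ∀ m ∈ ({m1, m2, m3} : Set GG),
      ∃ x ∈ small 1, Commute x (tr 1) ∧ x * m * x⁻¹ ∈ small ε := by
  obtain ⟨m3, h3, hφ⟩ := exists_per (fun t => max t (min (8 * t - 7 / 10) (t / 8 + 7 / 8)))
    (fun s t hst => max_lt_max hst (min_lt_min (by linarith) (by linarith))) (by fun_prop)
    (by norm_num) (by norm_num)
  have h3id : ∀ t ∈ Icc (0 : ℝ) (0 + 1 / 10), m3.1 t = t := fun t ht => by
    rw [hφ t ⟨ht.1, by linarith [ht.2]⟩]
    exact max_eq_left ((min_le_left _ _).trans (by linarith [ht.2]))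
  set m2 := tr (17 / 70) * m3 * (tr (17 / 70))⁻¹ with hm2
  have h2 : ∀ t, m2.1 (t + 1) = m2.1 t + 1 := fun t => by
    simp only [hm2, app_mul, tr_app, tr_inv_app]
    rw [show t + 1 - 17 / 70 = t - 17 / 70 + 1 by ring, h3]; ring
  have h2id : ∀ t ∈ Icc (17 / 70 : ℝ) (17 / 70 + 1 / 10), m2.1 t = t := fun t ht => by
    simp only [hm2, app_mul, tr_app, tr_inv_app]
    rw [h3id _ ⟨by linarith [ht.1], by linarith [ht.2]⟩]; ring
  have h23 : ∀ t ∈ Icc (15 / 100 : ℝ) (15 / 100 + 1 / 100), (m2 * m3).1 t = t + 1 := fun t ht => by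
    have e1 : m3.1 t = 8 * t - 7 / 10 := by
      rw [hφ t ⟨by linarith [ht.1], by linarith [ht.2]⟩, min_eq_left (by linarith [ht.2]),
        max_eq_right (by linarith [ht.1])]
    simp only [hm2, app_mul, tr_app, tr_inv_app, e1]
    rw [hφ _ ⟨by linarith [ht.1], by linarith [ht.2]⟩, min_eq_right (by linarith [ht.1]),
      max_eq_right (by linarith [ht.2])]
    ring
  have h23p : ∀ t, (m2 * m3).1 (t + 1) = (m2 * m3).1 t + 1 := fun t => by
    simp only [app_mul, h3, h2]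
  set m1 := tr 1 * (m2 * m3)⁻¹ with hm1
  have h1 : ∀ t, m1.1 (t + 1) = m1.1 t + 1 := fun t => by
    obtain ⟨s, rfl⟩ := (m2 * m3).1.surjective t
    rw [← h23p]
    simp only [hm1]
    rw [app_mul (tr 1), app_mul (tr 1), inv_app, inv_app]
    simp
  have h1id : ∀ t ∈ Icc (115 / 100 : ℝ) (115 / 100 + 1 / 100), m1.1 t = t := fun t ht => by
    have := h23 (t - 1) ⟨by linarith [ht.1], by linarith [ht.2]⟩
    rw [sub_add_cancel] at this
    conv_lhs => rw [← this]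
    simp only [hm1]
    rw [app_mul, inv_app]
    simp
  refine ⟨m1, m2, m3, by rw [hm1]; group, small_of_fix _ h1 _ (h1id (115 / 100) (by norm_num)),
    small_of_fix _ h2 _ (h2id (17 / 70) (by norm_num)), fun ε hε m hm => ?_⟩
  rcases hm with rfl | rfl | rfl
  · exact squeeze _ h1 _ _ (by norm_num) (by norm_num) h1id ε hε
  · exact squeeze _ h2 _ _ (by norm_num) (by norm_num) h2id ε hε
  · exact squeeze _ h3 _ _ (by norm_num) (by norm_num) h3id ε hε

/-- Scaling. -/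
noncomputable def sc (δ : ℝ) (hδ : 0 < δ) : GG :=
  ⟨OrderIso.mulLeft₀ δ hδ, (uniformContinuous_const_smul δ),
    (uniformContinuous_const_smul δ⁻¹)⟩

lemma sc_small (δ : ℝ) (hδ : 0 < δ) (ε : ℝ) (g : GG) (hg : g ∈ small ε) :
    MulAut.conj (sc δ hδ) g ∈ small (δ * ε) := by
  intro t
  obtain ⟨s, rfl⟩ := (sc δ hδ).1.surjective t
  rw [MulAut.conj_apply, app_mul, app_mul, inv_app]
  change |δ * g.1 s - δ * s| ≤ _
  rw [← mul_sub, abs_mul, abs_of_pos hδ]
  gcongr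
  exact hg s

lemma tr_pow (k : ℕ) (t : ℝ) : (tr 1 ^ k).1 t = t + k := by
  induction k with
  | zero => simp
  | succ k ih => rw [pow_succ', app_mul, ih]; simp; ring

/-- The negation of the preceding statement: Every topological group G admits a topological ring R and a multiplicative map from G into R that is a topological embedding (injective and a homeomorphism onto its image). -/
theorem result :
    ¬ (∀ (G : Type) [Group G] [TopologicalSpace G] [IsTopologicalGroup G],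
      ∃ (R : Type) (_ : Ring R) (_ : TopologicalSpace R),
        IsTopologicalRing R ∧ ∃ f : G →ₙ* R, Topology.IsEmbedding f) := by
  intro h
  let _ : TopologicalSpace GG := basis.topology
  have : IsTopologicalGroup GG := basis.isTopologicalGroup
  obtain ⟨R, _, _, _, f, hf⟩ := h GG
  refine obstruction f hf (small 1) (basis.mem_nhds_one ⟨1, one_pos, rfl⟩) ?_
  intro O hO
  obtain ⟨_, ⟨δ, hδ, rfl⟩, hO⟩ := basis.nhds_one_hasBasis.mem_iff.1 hO
  obtain ⟨m1, m2, m3, hm, h1, h2, H⟩ := scale_one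
  let κ := MulAut.conj (sc δ hδ)
  have hκ : ∀ g ∈ small 1, κ g ∈ O := fun g hg => hO (by
    have := sc_small δ hδ 1 g hg
    rwa [mul_one] at this)
  obtain ⟨k, hk⟩ := exists_nat_gt (1 / δ)
  refine ⟨κ (tr 1), κ m1, κ m2, κ m3, k, ?_, by rw [hm, map_mul, map_mul], hκ _ h1, hκ _ h2, ?_⟩
  · intro hs
    have := hs ((sc δ hδ).1 0)
    rw [← map_pow, MulAut.conj_apply, app_mul, app_mul, inv_app, tr_pow] at this
    change |δ * (0 + k) - δ * 0| ≤ 1 at this
    rw [div_lt_iff₀ hδ] at hk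
    have := (abs_le.1 this).2
    linarith
  · intro U hU m hm
    obtain ⟨_, ⟨ε, hε, rfl⟩, hU⟩ := basis.nhds_one_hasBasis.mem_iff.1 hU
    obtain ⟨m', hm', rfl⟩ : ∃ m' ∈ ({m1, m2, m3} : Set GG), m = κ m' := by
      rcases hm with rfl | rfl | rfl
      · exact ⟨m1, by simp, rfl⟩
      · exact ⟨m2, by simp, rfl⟩
      · exact ⟨m3, by simp, rfl⟩
    obtain ⟨x, hx, hxc, hxm⟩ := H (ε / δ) (by positivity) m' hm'
    refine ⟨κ x, hκ _ hx, hxc.map κ, hU ?_⟩
    have := sc_small δ hδ _ _ hxm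
    rw [mul_div_cancel₀ _ hδ.ne', map_mul, map_mul, map_inv] at this
    exact this

end Pool.Agent.S02666
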