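import Pool.Statements.S02752
import Pool.Agent.H15.ECL

set_option autoImplicit false
open Pool Pool.MP_b2345f_al

namespace Pool.Agent.S02752

theorem result :
    ¬ (∀ (n : ℕ) (Γ : SimpleGraph (Fin n)) (G : Fin n → Type) [∀ i, Group (G i)]
    (X : ∀ i, Finset (G i))
    (r : ∀ i, {x // x ∈ X i} → {x // x ∈ X i} → Prop),
    (∀ i, IsStrictTotalOrder {x // x ∈ X i} (r i)) →
    (∀ i, ∀ x ∈ X i, x⁻¹ ∈ X i) →
    (∀ i, Subgroup.closure ((X i : Finset (G i)) : Set (G i)) = ⊤) →
    (∀ i, ∃ (σ : Type), Finite σ ∧ ∃ (M : DFA {x // x ∈ X i} σ),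
      ∀ w : List {x // x ∈ X i}, w ∈ M.accepts ↔
        ((∀ w' : List {x // x ∈ X i},
            (w'.map Subtype.val).prod = (w.map Subtype.val).prod →
              w.length < w'.length ∨
                (w.length = w'.length ∧ (w = w' ∨ List.Lex (r i) w w'))) ∧
          ∀ w' : List {x // x ∈ X i},
            IsConj (w.map Subtype.val).prod (w'.map Subtype.val).prod →
              w.length ≤ w'.length)) →
    ∀ (H : Type) [Group H] (φ : Monoid.CoprodI G →* H),
      Function.Surjective φ →
      φ.ker = Subgroup.normalClosure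
        {x : Monoid.CoprodI G | ∃ (i j : Fin n), Γ.Adj i j ∧
          ∃ (a : G i) (b : G j),
            x = Monoid.CoprodI.of (M := G) (i := i) a * Monoid.CoprodI.of (M := G) (i := j) b *
              (Monoid.CoprodI.of (M := G) (i := i) a)⁻¹ *
              (Monoid.CoprodI.of (M := G) (i := j) b)⁻¹} →
    ∃ R : (Σ i, {x // x ∈ X i}) → (Σ i, {x // x ∈ X i}) → Prop,
      IsStrictTotalOrder (Σ i, {x // x ∈ X i}) R ∧
      (∀ i (a b : {x // x ∈ X i}), R ⟨i, a⟩ ⟨i, b⟩ ↔ r i a b) ∧
      ∃ (σ : Type), Finite σ ∧ ∃ (M : DFA (Σ i, {x // x ∈ X i}) σ),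
        ∀ w : List (Σ i, {x // x ∈ X i}), w ∈ M.accepts ↔
          ((∀ w' : List (Σ i, {x // x ∈ X i}),
              (w'.map (fun s : (Σ i, {x // x ∈ X i}) =>
                  φ (Monoid.CoprodI.of (M := G) (i := s.1) s.2.1))).prod =
              (w.map (fun s : (Σ i, {x // x ∈ X i}) =>
                  φ (Monoid.CoprodI.of (M := G) (i := s.1) s.2.1))).prod →
                w.length < w'.length ∨
                  (w.length = w'.length ∧ (w = w' ∨ List.Lex R w w'))) ∧
            ∀ w' : List (Σ i, {x // x ∈ X i}),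
              IsConj
                (w.map (fun s : (Σ i, {x // x ∈ X i}) =>
                  φ (Monoid.CoprodI.of (M := G) (i := s.1) s.2.1))).prod
                (w'.map (fun s : (Σ i, {x // x ∈ X i}) =>
                  φ (Monoid.CoprodI.of (M := G) (i := s.1) s.2.1))).prod →
                w.length ≤ w'.length)) := by
  intro h
  open Pool.Agent.H15.ECL in
  obtain ⟨R, -, -, σ, hσ, D, hD⟩ := h 2 ⊥ (fun _ => G) (fun _ => X) (fun _ => r) (fun _ => sto)
    (fun _ => allX _ (by decide))
    (fun _ => top_unique fun g _ => by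
      obtain ⟨w, rfl, -⟩ := ex_word g
      exact list_prod_mem (by
        intro x hx
        obtain ⟨y, -, rfl⟩ := List.mem_map.1 hx
        exact Subgroup.subset_closure y.2))
    (fun _ => ⟨Fin 14, inferInstance, M, reg⟩) H (MonoidHom.id _) Function.surjective_id
    (by simp)
  have key : ∀ m m', m + 3 ≤ m' + 1 + 1 → D.eval (List.replicate (m + 1) c) ≠
      D.eval (List.replicate (m' + 1) c) := by
    intro m m' hm e
    have a : W (m + 1) (m + 3) ∈ D.accepts := (hD _).2 ⟨fun w' e' => by
      rcases (SLW (m + 1) (m + 3) (by omega)).least lam_le w' e' with b | ⟨b, b' | b'⟩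
      · exact Or.inl b
      · exact Or.inr ⟨b, Or.inl b'⟩
      · exfalso
        generalize W (m + 1) (m + 3) = w at b b'
        clear e'
        induction b' with
        | nil => simp at b
        | rel h => exact h
        | cons _ ih => exact ih (by simpa using b), good m⟩
    have b : W (m' + 1) (m + 3) ∈ D.accepts := by
      rw [DFA.mem_accepts, DFA.eval, W, DFA.evalFrom_of_append] at a ⊢
      exact (show D.evalFrom D.start _ = D.evalFrom D.start _ from e) ▸ a
    obtain ⟨w, h1, h2⟩ := bad (m' + 1) (m + 3) hm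
    exact absurd (((hD _).1 b).2 w h1) (by omega)
  obtain ⟨m, m', hne, e⟩ := Finite.exists_ne_map_eq_of_infinite
    fun m : ℕ => D.eval (List.replicate (m + 1) c)
  rcases lt_or_gt_of_ne hne with a | a
  · exact key m m' (by omega) e
  · exact key m' m (by omega) e.symm

end Pool.Agent.S02752
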