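import Pool.Statements.S02883

set_option autoImplicit false
open Pool Pool.MP_bb8083_al
open scoped Pointwise

namespace Pool.Agent.S02883

open Finset

section core
variable {G : Type} [Group G] {k : ℕ}

noncomputable def ind (A : Set G) (g : G) : ℝ := by classical exact if g ∈ A then 1 else 0

lemma ind_nonneg (A : Set G) (g : G) : 0 ≤ ind A g := by unfold ind; split_ifs <;> norm_num
lemma ind_le (A : Set G) (g : G) : ind A g ≤ 1 := by unfold ind; split_ifs <;> norm_num
lemma ind_of_mem {A : Set G} {g : G} (h : g ∈ A) : ind A g = 1 := by simp [ind, h]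
lemma ind_of_not {A : Set G} {g : G} (h : g ∉ A) : ind A g = 0 := by simp [ind, h]

noncomputable def avg (q : Fin (k + 1) → G) (F : G → ℝ) (g : G) : ℝ :=
  (∑ j, F (q j * g)) / (k + 1)

noncomputable def op : List (Fin (k + 1) → G) → (G → ℝ) → G → ℝ
  | [], F => F
  | q :: L, F => op L (avg q F)

lemma op_append (L L' : List (Fin (k + 1) → G)) : ∀ F, op (L ++ L') F = op L' (op L F) := by
  induction L with
  | nil => intro F; rfl
  | cons q L ih => intro F; exact ih _

lemma op_mono (L : List (Fin (k + 1) → G)) :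
    ∀ F F' : G → ℝ, (∀ g, F g ≤ F' g) → ∀ g, op L F g ≤ op L F' g := by
  induction L with
  | nil => intro F F' h; exact h
  | cons q L ih =>
    intro F F' h
    refine ih _ _ fun g => ?_
    unfold avg
    gcongr with j
    exact h _

lemma op_const (L : List (Fin (k + 1) → G)) (c : ℝ) : op L (fun _ => c) = fun _ => c := by
  induction L with
  | nil => rfl
  | cons q L ih =>
    have : avg q (fun _ => c) = fun _ => c := by
      ext g; simp only [avg, sum_const, card_univ, Fintype.card_fin, nsmul_eq_mul]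
      push_cast; field_simp
    simp only [op, this, ih]

lemma op_add (L : List (Fin (k + 1) → G)) :
    ∀ F F' : G → ℝ, op L (fun g => F g + F' g) = fun g => op L F g + op L F' g := by
  induction L with
  | nil => intro F F'; rfl
  | cons q L ih =>
    intro F F'
    have : avg q (fun g => F g + F' g) = fun g => avg q F g + avg q F' g := by
      ext g; simp only [avg, sum_add_distrib, add_div]
    simp only [op, this, ih]

lemma op_sum {ι : Type} (L : List (Fin (k + 1) → G)) (s : Finset ι) (F : ι → G → ℝ) :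
    op L (fun g => ∑ i ∈ s, F i g) = fun g => ∑ i ∈ s, op L (F i) g := by
  classical
  induction s using Finset.induction_on with
  | empty => simpa using op_const L 0
  | insert a s ha ih => simp only [sum_insert ha, op_add, ih]

def Cl (A : Set G) (w : ℝ) (F : G → ℝ) : Prop :=
  ∃ (ι : Type) (s : Finset ι) (a : ι → ℝ) (x : ι → G), (∀ i, 0 ≤ a i) ∧ ∑ i ∈ s, a i ≤ w ∧
    ∀ g, F g ≤ ∑ i ∈ s, a i * ind A (x i * g)

lemma Cl.avg {A : Set G} {w : ℝ} {F : G → ℝ} (h : Cl A w F) (q : Fin (k + 1) → G) :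
    Cl A w (avg q F) := by
  obtain ⟨ι, s, a, x, ha, hw, hF⟩ := h
  refine ⟨ι × Fin (k + 1), s ×ˢ univ, fun p => a p.1 / (k + 1), fun p => x p.1 * q p.2,
    fun p => div_nonneg (ha _) (by positivity), ?_, fun g => ?_⟩
  · rw [sum_product]
    refine le_trans (le_of_eq ?_) hw
    refine sum_congr rfl fun i _ => ?_
    simp only [sum_const, card_univ, Fintype.card_fin, nsmul_eq_mul]
    push_cast; field_simp
  · rw [sum_product_right, S02883.avg, sum_div]
    refine sum_le_sum fun j _ => ?_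
    simp only [div_mul_eq_mul_div, ← sum_div, mul_assoc]
    gcongr
    exact hF _

lemma Cl.op {A : Set G} {w : ℝ} (L : List (Fin (k + 1) → G)) :
    ∀ {F : G → ℝ}, Cl A w F → Cl A w (op L F) := by
  induction L with
  | nil => intro F h; exact h
  | cons q L ih => intro F h; exact ih (h.avg q)

lemma smear (A : Set G) (p : Fin (k + 1) → G)
    (hp : ∀ j l, j ≠ l → p j * (p l)⁻¹ ∉ (A * A⁻¹) ^ 3) (η : ℝ) (hη : 0 < η) (N : ℕ) :
    ∀ (w : ℝ) (F : G → ℝ), Cl A w F → w ≤ N * η →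
      ∃ L : List (Fin (k + 1) → G), ∀ g, op L F g ≤ η + w / (k + 1) := by
  classical
  induction N with
  | zero =>
    rintro w F ⟨ι, s, a, x, ha, hw, hF⟩ hN
    refine ⟨[], fun g => (hF g).trans ?_⟩
    have h0 : 0 ≤ w := (sum_nonneg fun i _ => ha i).trans hw
    have : ∑ i ∈ s, a i * ind A (x i * g) ≤ ∑ i ∈ s, a i :=
      sum_le_sum fun i _ => mul_le_of_le_one_right (ha i) (ind_le _ _)
    have h1 : 0 ≤ w / (k + 1) := by positivity
    simp only [Nat.cast_zero, zero_mul] at hN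
    linarith
  | succ N ih =>
    rintro w F ⟨ι, s, a, x, ha, hw, hF⟩ hN
    have h0 : 0 ≤ w := (sum_nonneg fun i _ => ha i).trans hw
    by_cases hcase : ∀ g, ∑ i ∈ s, a i * ind A (x i * g) ≤ η
    · refine ⟨[], fun g => (hF g).trans ((hcase g).trans ?_)⟩
      have h1 : 0 ≤ w / (k + 1) := by positivity
      linarith
    push Not at hcase
    obtain ⟨g0, hg0⟩ := hcase
    set S := s.filter (fun i => x i * g0 ∈ A) with hS
    set S' := s.filter (fun i => ¬ x i * g0 ∈ A) with hS'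
    have hw0 : ∑ i ∈ s, a i * ind A (x i * g0) = ∑ i ∈ S, a i := by
      rw [hS, sum_filter]
      refine sum_congr rfl fun i _ => ?_
      split_ifs with h
      · rw [ind_of_mem h, mul_one]
      · rw [ind_of_not h, mul_zero]
    rw [hw0] at hg0
    obtain ⟨s0, hs0⟩ : S.Nonempty := by
      rw [nonempty_iff_ne_empty]
      intro h
      rw [h, sum_empty] at hg0
      linarith
    have hsplit : ∑ i ∈ S, a i + ∑ i ∈ S', a i = ∑ i ∈ s, a i := sum_filter_add_sum_filter_not _ _ _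
    let q : Fin (k + 1) → G := fun j => (x s0)⁻¹ * p j
    let F0 : G → ℝ := fun g => ∑ i ∈ S, a i * ind A (x i * g)
    let F1 : G → ℝ := fun g => ∑ i ∈ S', a i * ind A (x i * g)
    have hF1 : Cl A (w - ∑ i ∈ S, a i) F1 := ⟨ι, S', a, x, ha, by linarith, fun g => le_rfl⟩
    obtain ⟨L, hL⟩ := ih _ _ (hF1.avg q) (by push_cast at hN; linarith)
    have hF0 : ∀ g, avg q F0 g ≤ (∑ i ∈ S, a i) / (k + 1) := by
      intro g
      unfold avg
      gcongr
      have hle : ∀ g, F0 g ≤ ∑ i ∈ S, a i := fun g =>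
        sum_le_sum fun i _ => mul_le_of_le_one_right (ha i) (ind_le _ _)
      by_cases hex : ∃ j, ∃ i ∈ S, x i * (q j * g) ∈ A
      · obtain ⟨j, i, hi, hj⟩ := hex
        rw [sum_eq_single j]
        · exact hle _
        · intro l _ hl
          refine sum_eq_zero fun t ht => ?_
          rw [ind_of_not, mul_zero]
          intro hmem
          apply hp l j hl
          have e : p l * (p j)⁻¹ = ((x s0 * g0) * (x t * g0)⁻¹) *
              ((x t * (q l * g)) * (x i * (q j * g))⁻¹) * ((x i * g0) * (x s0 * g0)⁻¹) := by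
            simp only [q]; group
          rw [e, pow_succ, pow_two]
          have m : ∀ u v : G, u ∈ A → v ∈ A → u * v⁻¹ ∈ A * A⁻¹ := fun u v hu hv =>
            Set.mul_mem_mul hu (Set.inv_mem_inv.2 hv)
          exact Set.mul_mem_mul (Set.mul_mem_mul
            (m _ _ (mem_filter.1 hs0).2 (mem_filter.1 ht).2) (m _ _ hmem hj))
            (m _ _ (mem_filter.1 hi).2 (mem_filter.1 hs0).2)
        · simp
      · push Not at hex
        rw [sum_eq_zero]
        · exact sum_nonneg fun i _ => ha i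
        · intro j _
          refine sum_eq_zero fun t ht => ?_
          rw [ind_of_not (hex j t ht), mul_zero]
    refine ⟨q :: L, fun g => ?_⟩
    have h1 : op (q :: L) F g ≤ op (q :: L) (fun g => F0 g + F1 g) g :=
      op_mono _ _ _ (fun g => (hF g).trans (le_of_eq (sum_filter_add_sum_filter_not _ _ _).symm)) g
    rw [op_add] at h1
    have h2 : op (q :: L) F0 g ≤ (∑ i ∈ S, a i) / (k + 1) := by
      have := op_mono L _ _ hF0 g
      rwa [op_const] at this
    have h3 : op (q :: L) F1 g ≤ _ := hL g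
    rw [sub_div] at h3
    simp only at h1
    linarith

lemma core (A : Fin k → Set G) (hA : (⋃ i, A i) = Set.univ) :
    ∃ i, ∀ p : Fin (k + 1) → G, ∃ j l, j ≠ l ∧ p j * (p l)⁻¹ ∈ (A i * (A i)⁻¹) ^ 3 := by
  classical
  by_contra hcon
  push Not at hcon
  choose p hp using hcon
  set η : ℝ := 1 / (k + 1) ^ 2 with hη
  have hη0 : 0 < η := by positivity
  have key : ∀ I : Finset (Fin k), ∃ L : List (Fin (k + 1) → G), ∀ i ∈ I, ∀ g,
      op L (ind (A i)) g ≤ η + 1 / (k + 1) := by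
    intro I
    induction I using Finset.induction_on with
    | empty => exact ⟨[], by simp⟩
    | insert i I _ ih =>
      obtain ⟨L, hL⟩ := ih
      have h1 : Cl (A i) 1 (ind (A i)) :=
        ⟨Unit, univ, fun _ => 1, fun _ => 1, fun _ => zero_le_one, by simp, by simp⟩
      obtain ⟨L', hL'⟩ := smear (A i) (p i) (hp i) η hη0 ((k + 1) ^ 2) 1 _ (h1.op L)
        (by rw [hη]; push_cast; field_simp; rfl)
      refine ⟨L ++ L', fun i' hi' g => ?_⟩
      rw [op_append]
      rcases mem_insert.1 hi' with rfl | hi'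
      · exact hL' g
      · have := op_mono L' _ _ (hL i' hi') g
        rwa [op_const] at this
  obtain ⟨L, hL⟩ := key univ
  have h1 : ∀ g, (1 : ℝ) ≤ ∑ i, ind (A i) g := fun g => by
    obtain ⟨i, hi⟩ := Set.mem_iUnion.1 (hA ▸ Set.mem_univ g : g ∈ ⋃ i, A i)
    rw [← ind_of_mem hi]
    exact single_le_sum (f := fun i => ind (A i) g) (fun i _ => ind_nonneg _ _) (mem_univ i)
  have h2 := op_mono L _ _ h1 1
  rw [op_const, op_sum] at h2
  have h3 : ∑ i, op L (ind (A i)) 1 ≤ ∑ _i : Fin k, (η + 1 / (k + 1)) :=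
    sum_le_sum fun i hi => hL i hi 1
  simp only [sum_const, card_univ, Fintype.card_fin, nsmul_eq_mul] at h3
  have h4 : (k : ℝ) * (η + 1 / (k + 1)) < 1 := by
    rw [hη]; field_simp; nlinarith
  simp only at h2
  linarith

end core

section fin
variable {G : Type} [Group G] {n : ℕ}

lemma pow_stab (B : Set G) (m : ℕ) (h : B ^ (m + 1) ⊆ B ^ m) (d : ℕ) : B ^ (m + d) ⊆ B ^ m := by
  induction d with
  | zero => exact subset_rfl
  | succ d ih =>
    rw [← add_assoc, pow_succ]
    exact (Set.mul_subset_mul_right ih).trans (by rw [← pow_succ]; exact h)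

lemma final (B : Set G) (h1 : (1 : G) ∈ B) (hs : B⁻¹ = B) (K : ℕ) (hK : 3 ≤ K)
    (h : B ^ (K + 1) ⊆ B ^ K)
    (hsep : ∀ p : Fin (n + 1) → G, ∃ j l, j ≠ l ∧ p j * (p l)⁻¹ ∈ B ^ 3) :
    ∃ H : Subgroup G, B ^ K = (H : Set G) ∧ H.index ≠ 0 ∧ H.index ≤ n := by
  let H : Subgroup G :=
    { carrier := B ^ K
      one_mem' := Set.one_mem_pow h1
      mul_mem' := fun ha hb => pow_stab B K h K (by rw [pow_add]; exact Set.mul_mem_mul ha hb)
      inv_mem' := fun {a} ha => by
        have : a⁻¹ ∈ (B ^ K)⁻¹ := Set.inv_mem_inv.2 ha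
        rwa [← inv_pow, hs] at this }
  have hno : ∀ e : Fin (n + 1) → G ⧸ H, ¬ Function.Injective e := by
    intro e he
    obtain ⟨j, l, hjl, hm⟩ := hsep (fun j => (e j).out⁻¹)
    apply hjl
    apply he
    rw [← (e j).out_eq, ← (e l).out_eq]
    apply QuotientGroup.eq.2
    rw [inv_inv] at hm
    exact Set.pow_subset_pow_right h1 hK hm
  refine ⟨H, rfl, ?_⟩
  cases finite_or_infinite (G ⧸ H) with
  | inl hf =>
    refine ⟨Subgroup.index_ne_zero_of_finite, ?_⟩
    by_contra hlt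
    have := Fintype.ofFinite (G ⧸ H)
    have hc : Fintype.card (Fin (n + 1)) ≤ Fintype.card (G ⧸ H) := by
      rw [Fintype.card_fin, ← Nat.card_eq_fintype_card]
      exact not_le.1 hlt
    obtain ⟨e⟩ := Function.Embedding.nonempty_of_card_le hc
    exact hno e e.injective
  | inr hi =>
    exact absurd ((Infinite.natEmbedding _).injective.comp Fin.val_injective) (hno _)

lemma stab (B : Set G) (h1 : (1 : G) ∈ B) (hs : B⁻¹ = B) (K : ℕ) (hK : 4 * n ≤ K + 1)
    (hsep : ∀ p : Fin (n + 1) → G, ∃ j l, j ≠ l ∧ p j * (p l)⁻¹ ∈ B ^ 3) :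
    B ^ (K + 1) ⊆ B ^ K := by
  by_contra hcon
  have hz : ∀ j : Fin (n + 1), ∃ z ∈ B ^ (4 * (j : ℕ)), ∀ m < 4 * (j : ℕ), z ∉ B ^ m := by
    intro j
    rcases Nat.eq_zero_or_pos (j : ℕ) with h | h
    · exact ⟨1, Set.one_mem_pow h1, by omega⟩
    · obtain ⟨m, hm⟩ : ∃ m, 4 * (j : ℕ) = m + 1 := ⟨4 * j - 1, by omega⟩
      have hj := j.2
      have : ¬ B ^ (m + 1) ⊆ B ^ m := by
        intro h'
        apply hcon
        obtain ⟨d, hd⟩ : ∃ d, K + 1 = m + d := ⟨K + 1 - m, by omega⟩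
        rw [hd]
        exact (pow_stab B m h' d).trans (Set.pow_subset_pow_right h1 (by omega))
      obtain ⟨z, hz1, hz2⟩ := Set.not_subset.1 this
      rw [hm]
      exact ⟨z, hz1, fun m' hm' h' => hz2 (Set.pow_subset_pow_right h1 (by omega) h')⟩
  choose z hz1 hz2 using hz
  have key : ∀ j l : Fin (n + 1), j < l → (z j)⁻¹ * z l ∉ B ^ 3 := by
    intro j l hjl hm
    apply hz2 l (4 * j + 3) (by have : (j : ℕ) < l := hjl; omega)
    rw [pow_add]
    have := Set.mul_mem_mul (hz1 j) hm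
    rwa [mul_inv_cancel_left] at this
  obtain ⟨j, l, hjl, hm⟩ := hsep (fun j => (z j)⁻¹)
  rw [inv_inv] at hm
  rcases lt_or_gt_of_ne hjl with h | h
  · exact key j l h hm
  · apply key l j h
    have : ((z j)⁻¹ * z l)⁻¹ ∈ (B ^ 3)⁻¹ := Set.inv_mem_inv.2 hm
    rwa [← inv_pow, hs, mul_inv_rev, inv_inv] at this

lemma one_mem_of (A : Set G) (h : ((A * A⁻¹) ^ 3).Nonempty) : (1 : G) ∈ A * A⁻¹ := by
  obtain ⟨a, ha⟩ : A.Nonempty := by
    rw [Set.nonempty_iff_ne_empty]
    rintro rfl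
    simp at h
  exact ⟨a, ha, a⁻¹, Set.inv_mem_inv.2 ha, mul_inv_cancel a⟩

lemma symm_of (A : Set G) : (A * A⁻¹)⁻¹ = A * A⁻¹ := by rw [mul_inv_rev, inv_inv]

lemma two_cover (B : Set G) (h1 : (1 : G) ∈ B) (hs : B⁻¹ = B) (g : G)
    (hg : ∀ x, x ∈ B ∨ g * x ∈ B) :
    ∃ H : Subgroup G, B ^ 4 = (H : Set G) ∧ H.index ≠ 0 ∧ H.index ≤ 2 := by
  have hinv : ∀ x ∈ B, x⁻¹ ∈ B := fun x hx => hs ▸ Set.inv_mem_inv.2 hx
  refine final B h1 hs 4 (by norm_num) ?_ ?_
  · by_cases h2 : B ^ (1 + 1) ⊆ B ^ 1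
    · exact (pow_stab B 1 h2 4).trans (Set.pow_subset_pow_right h1 (by norm_num))
    · obtain ⟨y, hy1, hy2⟩ := Set.not_subset.1 h2
      rw [pow_one] at hy2
      have hy3 := (hg y).resolve_left hy2
      intro x _
      rcases hg x with h | h
      · exact Set.pow_subset_pow_right h1 (by norm_num : 1 ≤ 4) (by rwa [pow_one])
      · have e : x = y * (g * y)⁻¹ * (g * x) := by group
        rw [e, pow_succ, pow_succ]
        exact Set.mul_mem_mul (Set.mul_mem_mul hy1 (hinv _ hy3)) h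
  · intro p
    have m1 : ∀ u v : G, u⁻¹ ∈ B → v⁻¹ ∈ B → u * v⁻¹ ∈ B ^ 3 := fun u v hu hv => by
      refine Set.pow_subset_pow_right h1 (by norm_num : 2 ≤ 3) ?_
      rw [pow_two]
      exact Set.mul_mem_mul (by simpa using hinv _ hu) hv
    have m2 : ∀ u v : G, g * u⁻¹ ∈ B → g * v⁻¹ ∈ B → u * v⁻¹ ∈ B ^ 3 := fun u v hu hv => by
      have := m1 (u * g⁻¹) (v * g⁻¹) (by simpa using hu) (by simpa using hv)
      rwa [show u * g⁻¹ * (v * g⁻¹)⁻¹ = u * v⁻¹ by group] at this
    rcases hg (p 0)⁻¹ with a | a <;> rcases hg (p 1)⁻¹ with b | b <;>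
      rcases hg (p 2)⁻¹ with c | c <;>
      first
        | exact ⟨0, 1, by decide, m1 _ _ a b⟩
        | exact ⟨0, 1, by decide, m2 _ _ a b⟩
        | exact ⟨0, 2, by decide, m1 _ _ a c⟩
        | exact ⟨0, 2, by decide, m2 _ _ a c⟩
        | exact ⟨1, 2, by decide, m1 _ _ b c⟩
        | exact ⟨1, 2, by decide, m2 _ _ b c⟩

end fin

/-- For every group G and every partition of G into n pairwise disjoint sets, some cell A has (A·A⁻¹) raised to the power 4^(n−1) equal to a subgroup of G of finite index at most n. -/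
theorem result :
    ∀ (G : Type) [Group G] (n : ℕ) (A : Fin n → Set G),
      Pairwise (fun i j => Disjoint (A i) (A j)) →
      (⋃ i, A i) = Set.univ →
      ∃ i : Fin n, ∃ H : Subgroup G,
        ((A i * (A i)⁻¹) ^ (4 ^ (n - 1)) : Set G) = (H : Set G) ∧
        H.index ≠ 0 ∧ H.index ≤ n := by
  intro G _ n A _ hA
  have hcov : ∀ g : G, ∃ i, g ∈ A i := fun g =>
    Set.mem_iUnion.1 (hA ▸ Set.mem_univ g : g ∈ ⋃ i, A i)
  match n, A, hA, hcov with
  | 0, A, hA, hcov => obtain ⟨i, -⟩ := hcov 1; exact i.elim0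
  | 1, A, hA, hcov =>
    have h0 : ∀ g, g ∈ A 0 := fun g => by
      obtain ⟨i, hi⟩ := hcov g
      rwa [Subsingleton.elim i 0] at hi
    refine ⟨0, ⊤, ?_, by simp, by simp⟩
    ext g
    simp only [tsub_self, pow_zero, pow_one, Subgroup.coe_top, Set.mem_univ, iff_true]
    exact ⟨g, h0 g, 1, by simpa using h0 1, mul_one g⟩
  | 2, A, hA, hcov =>
    by_cases h0 : ∀ g, g ∈ A 0 * (A 0)⁻¹
    · exact ⟨0, two_cover _ (h0 1) (symm_of _) 1 fun x => Or.inl (h0 x)⟩
    · push Not at h0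
      obtain ⟨g, hg⟩ := h0
      have h1 : ∀ x, x ∈ A 1 ∨ g * x ∈ A 1 := fun x => by
        obtain ⟨i, hi⟩ := hcov x
        obtain ⟨j, hj⟩ := hcov (g * x)
        fin_cases i
        · fin_cases j
          · exact absurd ⟨g * x, hj, x⁻¹, Set.inv_mem_inv.2 hi, by simp⟩ hg
          · exact Or.inr hj
        · exact Or.inl hi
      obtain ⟨a, ha⟩ : (A 1).Nonempty := (h1 1).elim (fun h => ⟨_, h⟩) (fun h => ⟨_, h⟩)
      refine ⟨1, two_cover _ ⟨a, ha, a⁻¹, Set.inv_mem_inv.2 ha, mul_inv_cancel a⟩ (symm_of _) g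
        fun x => ?_⟩
      rcases h1 (x * a) with h | h
      · exact Or.inl ⟨_, h, a⁻¹, Set.inv_mem_inv.2 ha, by simp⟩
      · exact Or.inr ⟨_, h, a⁻¹, Set.inv_mem_inv.2 ha, by simp [← mul_assoc]⟩
  | n + 3, A, hA, hcov =>
    obtain ⟨i, hi⟩ := core A hA
    obtain ⟨j, l, -, hm⟩ := hi (fun _ => 1)
    have h1 := one_mem_of (A i) ⟨_, hm⟩
    have hK : 4 * (n + 3) ≤ 4 ^ (n + 3 - 1) := by
      have : n + 1 < 4 ^ (n + 1) := Nat.lt_pow_self (by norm_num)
      have h2 : n < 4 ^ n := Nat.lt_pow_self (by norm_num)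
      rw [show n + 3 - 1 = n + 2 by omega, pow_add]
      omega
    exact ⟨i, final _ h1 (symm_of _) _ (by omega) (stab _ h1 (symm_of _) _ (by omega) hi) hi⟩

end Pool.Agent.S02883
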