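import Pool.Statements.S02886
import Pool.Agent.H22.PiLength

set_option autoImplicit false
open Pool Pool.MP_bbd7c2_al

namespace Pool.Agent.S02886
open Pool.Agent.H22.PiLength

theorem not_dvd_pow {p q e : ℕ} (hp : p.Prime) (hq : q.Prime) (hne : p ≠ q) : ¬ p ∣ q ^ e :=
  fun h => hne ((Nat.prime_dvd_prime_iff_eq hp hq).1 (hp.dvd_of_dvd_pow h))


/-- The negation of the preceding statement: For a finite π-soluble group G with Hall π-subgroup H of nilpotent length ≤ a and p-length ≤ b for all p in π, G has a normal series with π′ factors and at most a−1+b nilpotent π-factors. -/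
theorem result :
    ¬ (∀ (G : Type) [Group G] [Finite G] (π : Set ℕ), (∀ p ∈ π, p.Prime) →
    (∃ (k : ℕ) (s : ℕ → Subgroup G), s 0 = ⊥ ∧ s k = ⊤ ∧ (∀ i ≤ k, (s i).Normal) ∧
      (∀ i < k, s i ≤ s (i + 1)) ∧
      ∀ i < k, (∀ q : ℕ, q.Prime → q ∣ Nat.card (s (i + 1)) / Nat.card (s i) → q ∉ π) ∨
        ∃ p ∈ π, ∃ e : ℕ, Nat.card (s (i + 1)) / Nat.card (s i) = p ^ e) →
    ∀ (H : Subgroup G), (∀ q : ℕ, q.Prime → q ∣ Nat.card H → q ∈ π) →
      (∀ q : ℕ, q.Prime → q ∣ H.index → q ∉ π) →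
    ∀ (a b : ℕ),
      (∃ t : ℕ → Subgroup H, t 0 = ⊥ ∧ t a = ⊤ ∧ (∀ i ≤ a, (t i).Normal) ∧
        (∀ i < a, t i ≤ t (i + 1)) ∧
        ∀ i < a, ∃ c : ℕ, (fun K : Subgroup H => ⁅K, t (i + 1)⁆)^[c] (t (i + 1)) ≤ t i) →
      (∀ p ∈ π, ∃ (k : ℕ) (s : ℕ → Subgroup G) (T : Finset ℕ), T.card ≤ b ∧
        s 0 = ⊥ ∧ s k = ⊤ ∧ (∀ i ≤ k, (s i).Normal) ∧ (∀ i < k, s i ≤ s (i + 1)) ∧
        ∀ i < k, (¬ p ∣ Nat.card (s (i + 1)) / Nat.card (s i)) ∨
          (i ∈ T ∧ ∃ e : ℕ, Nat.card (s (i + 1)) / Nat.card (s i) = p ^ e)) →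
      ∃ (k : ℕ) (s : ℕ → Subgroup G) (T : Finset ℕ), T.card ≤ a - 1 + b ∧
        s 0 = ⊥ ∧ s k = ⊤ ∧ (∀ i ≤ k, (s i).Normal) ∧ (∀ i < k, s i ≤ s (i + 1)) ∧
        ∀ i < k, (∀ q : ℕ, q.Prime → q ∣ Nat.card (s (i + 1)) / Nat.card (s i) → q ∉ π) ∨
          (i ∈ T ∧ (∀ q : ℕ, q.Prime → q ∣ Nat.card (s (i + 1)) / Nat.card (s i) → q ∈ π) ∧
            ∃ c : ℕ, (fun K : Subgroup G => ⁅K, s (i + 1)⁆)^[c] (s (i + 1)) ≤ s i)) := by
  intro hall
  obtain ⟨s, s0, s6, sn, sm, ⟨e0, c0⟩, ⟨e1, c1⟩, ⟨e2, c2⟩, ⟨e3, c3⟩, ⟨e4, c4⟩, ⟨e5, c5⟩⟩ := ser6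
  obtain ⟨H, ⟨N, hN⟩, M, hM⟩ := hall6
  have r0 : Nat.card (s 1) / Nat.card (s 0) = 2 ^ e0 := by
    rw [c0, Nat.mul_div_cancel _ Nat.card_pos]
  have r1 : Nat.card (s 2) / Nat.card (s 1) = 5 ^ e1 := by
    rw [c1, Nat.mul_div_cancel _ Nat.card_pos]
  have r2 : Nat.card (s 3) / Nat.card (s 2) = 2 ^ e2 := by
    rw [c2, Nat.mul_div_cancel _ Nat.card_pos]
  have r3 : Nat.card (s 4) / Nat.card (s 3) = 3 ^ e3 := by
    rw [c3, Nat.mul_div_cancel _ Nat.card_pos]
  have r4 : Nat.card (s 5) / Nat.card (s 4) = 5 ^ e4 := by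
    rw [c4, Nat.mul_div_cancel _ Nat.card_pos]
  have r5 : Nat.card (s 6) / Nat.card (s 5) = 3 ^ e5 := by
    rw [c5, Nat.mul_div_cancel _ Nat.card_pos]
  have p5 : Nat.Prime 5 := by norm_num
  have five : ∀ e q : ℕ, q.Prime → q ∣ 5 ^ e → q ∉ ({2, 3} : Set ℕ) := by
    intro e q hq hd
    have := (Nat.prime_dvd_prime_iff_eq hq p5).1 (hq.dvd_of_dvd_pow hd)
    subst this
    simp
  have hn3 : (s 3).Normal := sn 3 (by norm_num)
  have hx6 : ∀ x : H, orderOf (x : G6) ∣ 6 ^ N := fun x => by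
    rw [Subgroup.orderOf_coe]; exact (orderOf_dvd_natCard x).trans hN
  have hc3 : Nat.card (s 3) ∣ (2 * 5) ^ (e2 + e1 + e0) := by
    rw [c2, c1, c0, s0, Subgroup.card_bot, mul_one, pow_add, pow_add, mul_assoc]
    exact mul_dvd_mul (pow_dvd_pow_of_dvd (by norm_num) _) (mul_dvd_mul
      (pow_dvd_pow_of_dvd (by norm_num) _) (pow_dvd_pow_of_dvd (by norm_num) _))
  have hi3 : (s 3).index ∣ (3 * 5) ^ (e5 + e4 + e3) := by
    have h1 := (s 3).card_mul_index
    rw [← Subgroup.card_top (G := G6), ← s6, c5, c4, c3, ← mul_assoc, ← mul_assoc, mul_comm] at h1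
    rw [Nat.eq_of_mul_eq_mul_right Nat.card_pos h1, pow_add, pow_add]
    exact mul_dvd_mul (mul_dvd_mul (pow_dvd_pow_of_dvd (by norm_num) _)
      (pow_dvd_pow_of_dvd (by norm_num) _)) (pow_dvd_pow_of_dvd (by norm_num) _)
  obtain ⟨k, t, T, hT, t0, tk, tn, tm, th⟩ := hall G6 {2, 3}
    (by rintro p (rfl | rfl) <;> norm_num)
    ⟨6, s, s0, s6, sn, sm, by
      intro i hi
      interval_cases i
      · exact Or.inr ⟨2, by simp, e0, r0⟩
      · exact Or.inl (by rw [r1]; exact five e1)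
      · exact Or.inr ⟨2, by simp, e2, r2⟩
      · exact Or.inr ⟨3, by simp, e3, r3⟩
      · exact Or.inl (by rw [r4]; exact five e4)
      · exact Or.inr ⟨3, by simp, e5, r5⟩⟩ H
    (by
      intro q hq hd
      have h1 : q ∣ 2 * 3 := hq.dvd_of_dvd_pow (hd.trans hN)
      rcases (Nat.Prime.dvd_mul hq).1 h1 with h | h
      · exact Or.inl ((Nat.prime_dvd_prime_iff_eq hq Nat.prime_two).1 h)
      · exact Or.inr ((Nat.prime_dvd_prime_iff_eq hq Nat.prime_three).1 h))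
    (fun q hq hd => five M q hq (hd.trans hM)) 2 2
    ⟨fun i => if i = 0 then ⊥ else if i = 1 then (s 3).subgroupOf H else ⊤, rfl, rfl, by
      intro i hi
      interval_cases i
      · exact Subgroup.normal_bot
      · exact hn3.subgroupOf H
      · exact Subgroup.normal_top, by
      intro i hi
      interval_cases i
      · exact bot_le
      · exact le_top, by
      intro i hi
      interval_cases i
      · refine it_of_pgroup 2 Nat.prime_two ⊥ ((s 3).subgroupOf H) ?_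
        intro x hx
        have h1 : orderOf (x : G6) ∣ Nat.card (s 3) := Subgroup.orderOf_dvd_natCard _ hx
        obtain ⟨j, hj⟩ := gcd_pow _ 3 5 2 _ _ (hx6 x) (h1.trans hc3) (by norm_num)
        refine ⟨j, ?_⟩
        rw [Subgroup.mem_bot]
        rw [Subgroup.orderOf_coe] at hj
        exact orderOf_dvd_iff_pow_eq_one.1 hj
      · have := hn3.subgroupOf H
        refine it_of_pgroup 3 Nat.prime_three ((s 3).subgroupOf H) ⊤ ?_
        intro x _
        have h1 : orderOf (QuotientGroup.mk' (s 3) (x : G6)) ∣ (3 * 2) ^ N :=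
          (orderOf_map_dvd _ _).trans (hx6 x)
        have h2 : orderOf (QuotientGroup.mk' (s 3) (x : G6)) ∣ (s 3).index :=
          orderOf_dvd_natCard _
        obtain ⟨j, hj⟩ := gcd_pow _ 2 5 3 _ _ h1 (h2.trans hi3) (by norm_num)
        refine ⟨j, ?_⟩
        have h3 := orderOf_dvd_iff_pow_eq_one.1 hj
        rw [← map_pow] at h3
        exact (QuotientGroup.eq_one_iff ((x : G6) ^ 3 ^ j)).1 h3⟩
    (by
      rintro p (rfl | rfl)
      · refine ⟨6, s, {0, 2}, by simp, s0, s6, sn, sm, ?_⟩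
        intro i hi
        interval_cases i
        · exact Or.inr ⟨by simp, e0, r0⟩
        · exact Or.inl (by rw [r1]; exact not_dvd_pow Nat.prime_two p5 (by norm_num))
        · exact Or.inr ⟨by simp, e2, r2⟩
        · exact Or.inl (by rw [r3]; exact not_dvd_pow Nat.prime_two Nat.prime_three (by norm_num))
        · exact Or.inl (by rw [r4]; exact not_dvd_pow Nat.prime_two p5 (by norm_num))
        · exact Or.inl (by rw [r5]; exact not_dvd_pow Nat.prime_two Nat.prime_three (by norm_num))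
      · refine ⟨6, s, {3, 5}, by simp, s0, s6, sn, sm, ?_⟩
        intro i hi
        interval_cases i
        · exact Or.inl (by rw [r0]; exact not_dvd_pow Nat.prime_three Nat.prime_two (by norm_num))
        · exact Or.inl (by rw [r1]; exact not_dvd_pow Nat.prime_three p5 (by norm_num))
        · exact Or.inl (by rw [r2]; exact not_dvd_pow Nat.prime_three Nat.prime_two (by norm_num))
        · exact Or.inr ⟨by simp, e3, r3⟩
        · exact Or.inl (by rw [r4]; exact not_dvd_pow Nat.prime_three p5 (by norm_num))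
        · exact Or.inr ⟨by simp, e5, r5⟩)
  have hL := L_of_series k t T tk tn tm (fun i hi => (th i hi).imp id (fun h => ⟨h.1, h.2.2⟩))
  rw [t0] at hL
  exact lower (hL.mono hT)

end Pool.Agent.S02886
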