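import Pool.Statements.S02888
import Pool.Agent.H2.Fac

set_option autoImplicit false
open Pool Pool.MP_bc5942_al

namespace Pool.Agent.S02888

/-- The negation of the preceding statement: For every group G and subgroups A, B with every element of G equal to a·b (a in A, b in B): if A and B each have a composition series (finite subnormal chain with simple nontrivial factors), then G has one. -/
theorem result :
    ¬ (∀ (G : Type) [Group G] (A B : Subgroup G),
    (∀ g : G, ∃ a ∈ A, ∃ b ∈ B, g = a * b) →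
    (∃ n : ℕ, ∃ s : Fin (n+1) → Subgroup G, s 0 = ⊥ ∧ s (Fin.last n) = A ∧
      ∀ i : Fin n, s i.castSucc ≤ s i.succ ∧
        ((s i.castSucc).subgroupOf (s i.succ)).Normal ∧
        (s i.castSucc).subgroupOf (s i.succ) ≠ ⊤ ∧
        ∀ M : Subgroup (s i.succ), M.Normal →
          (s i.castSucc).subgroupOf (s i.succ) ≤ M →
          M = (s i.castSucc).subgroupOf (s i.succ) ∨ M = ⊤) →
    (∃ n : ℕ, ∃ s : Fin (n+1) → Subgroup G, s 0 = ⊥ ∧ s (Fin.last n) = B ∧
      ∀ i : Fin n, s i.castSucc ≤ s i.succ ∧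
        ((s i.castSucc).subgroupOf (s i.succ)).Normal ∧
        (s i.castSucc).subgroupOf (s i.succ) ≠ ⊤ ∧
        ∀ M : Subgroup (s i.succ), M.Normal →
          (s i.castSucc).subgroupOf (s i.succ) ≤ M →
          M = (s i.castSucc).subgroupOf (s i.succ) ∨ M = ⊤) →
    (∃ n : ℕ, ∃ s : Fin (n+1) → Subgroup G, s 0 = ⊥ ∧ s (Fin.last n) = ⊤ ∧
      ∀ i : Fin n, s i.castSucc ≤ s i.succ ∧
        ((s i.castSucc).subgroupOf (s i.succ)).Normal ∧
        (s i.castSucc).subgroupOf (s i.succ) ≠ ⊤ ∧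
        ∀ M : Subgroup (s i.succ), M.Normal →
          (s i.castSucc).subgroupOf (s i.succ) ≤ M →
          M = (s i.castSucc).subgroupOf (s i.succ) ∨ M = ⊤)) := by
  intro h
  have hs : ∀ A : Subgroup H2.Fac.G, IsSimpleGroup A →
      ∃ n : ℕ, ∃ s : Fin (n+1) → Subgroup H2.Fac.G, s 0 = ⊥ ∧ s (Fin.last n) = A ∧
      ∀ i : Fin n, s i.castSucc ≤ s i.succ ∧
        ((s i.castSucc).subgroupOf (s i.succ)).Normal ∧
        (s i.castSucc).subgroupOf (s i.succ) ≠ ⊤ ∧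
        ∀ M : Subgroup (s i.succ), M.Normal →
          (s i.castSucc).subgroupOf (s i.succ) ≤ M →
          M = (s i.castSucc).subgroupOf (s i.succ) ∨ M = ⊤ := fun A hA => by
    refine ⟨1, ![⊥, A], rfl, rfl, Fin.forall_fin_one.2 ?_⟩
    show ⊥ ≤ A ∧ ((⊥ : Subgroup H2.Fac.G).subgroupOf A).Normal ∧
      (⊥ : Subgroup H2.Fac.G).subgroupOf A ≠ ⊤ ∧ ∀ M : Subgroup A, M.Normal →
        (⊥ : Subgroup H2.Fac.G).subgroupOf A ≤ M →
        M = (⊥ : Subgroup H2.Fac.G).subgroupOf A ∨ M = ⊤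
    rw [Subgroup.bot_subgroupOf]
    exact ⟨bot_le, inferInstance, bot_ne_top, fun M hM _ => hM.eq_bot_or_eq_top⟩
  obtain ⟨n, s, h0, h1, h2⟩ := h H2.Fac.G _ _ H2.Fac.fact (hs _ inferInstance)
    (hs _ inferInstance)
  refine H2.Fac.nochain n s h0 h1 fun i k => ?_
  obtain ⟨-, h3, -, h4⟩ := h2 i
  refine (h4 ((H2.Fac.Nk k).subgroupOf _ ⊔ _) inferInstance le_sup_right).imp
    (fun h5 x hx hx' => ?_) fun h5 x hx => ?_
  · exact (le_sup_left.trans h5.le : (H2.Fac.Nk k).subgroupOf _ ≤ _) (x := ⟨x, hx'⟩) hx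
  · obtain ⟨y, hy, z, hz, h6⟩ :=
      Subgroup.mem_sup_of_normal_left.1 (h5 ▸ Subgroup.mem_top (⟨x, hx⟩ : s i.succ))
    exact ⟨y, hy, z, hz, congrArg Subtype.val h6⟩

end Pool.Agent.S02888
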