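import Pool.Statements.S02892
import Pool.Agent.H23.ZD2

set_option autoImplicit false
open Pool Pool.MP_bcc032_al

namespace Pool.Agent.S02892

/-- The negation of the preceding statement: For all d,s,n there is N such that, over any field, if the free algebra on d letters modulo s relations of degree ≤ n has zero divisors, then it has two nonzero elements of degree < N with product zero. -/
theorem result :
    ¬ (∀ d s n : ℕ, ∃ N : ℕ, ∀ (k : Type) [Field k] (r : Fin s → FreeAlgebra k (Fin d)),
      (∀ i, r i ∈ Submodule.span k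
        {a : FreeAlgebra k (Fin d) | ∃ w : FreeMonoid (Fin d),
          w.length ≤ n ∧ a = (w.toList.map (FreeAlgebra.ι k)).prod}) →
      (∃ p q : FreeAlgebra k (Fin d),
        p ∉ TwoSidedIdeal.span (Set.range r) ∧ q ∉ TwoSidedIdeal.span (Set.range r) ∧
        p * q ∈ TwoSidedIdeal.span (Set.range r)) →
      ∃ p q : FreeAlgebra k (Fin d),
        p ∈ Submodule.span k
          {a : FreeAlgebra k (Fin d) | ∃ w : FreeMonoid (Fin d),
            w.length < N ∧ a = (w.toList.map (FreeAlgebra.ι k)).prod} ∧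
        q ∈ Submodule.span k
          {a : FreeAlgebra k (Fin d) | ∃ w : FreeMonoid (Fin d),
            w.length < N ∧ a = (w.toList.map (FreeAlgebra.ι k)).prod} ∧
        p ∉ TwoSidedIdeal.span (Set.range r) ∧ q ∉ TwoSidedIdeal.span (Set.range r) ∧
        p * q ∈ TwoSidedIdeal.span (Set.range r)) := by
  intro H
  obtain ⟨N, hN⟩ := H 4 6 2
  obtain ⟨p, hp, hpp⟩ := Nat.exists_infinite_primes N
  haveI : Fact p.Prime := ⟨hpp⟩
  obtain ⟨x, y, hx, hy, hx0, hy0, hxy⟩ := hN (ZMod p) (Pool.Agent.H23.ZD.rels (ZMod p))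
    (Pool.Agent.H23.ZD.rels_deg (ZMod p)) (Pool.Agent.H23.ZD.nondomain p)
  exact Pool.Agent.H23.ZD.lowdomain p N hp x y hx hy hx0 hy0 hxy

end Pool.Agent.S02892
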