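import Pool.Statements.S02924

set_option autoImplicit false
open Pool Pool.MP_be2783_al

namespace Pool.Agent.S02924

noncomputable section
open Finsupp Nat

abbrev F := ZMod 3
abbrev V := ℤ →₀ F

open Classical in
def c (p : ℤ) : F := if ∃ n : ℕ, p = n ! + n then 1 else 0

def f : V →ₗ[F] V →ₗ[F] F :=
  linearCombination F fun i => linearCombination F fun j => i.negOnePow • c (j - i)
def a : V →ₗ[F] F := linearCombination F fun i => i.negOnePow • (1 : F)
def S (n : ℤ) : V →ₗ[F] V := lmapDomain F F (· + n)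

lemma S_single (n i : ℤ) (x : F) : S n (single i x) = single (i + n) x := by simp [S]
lemma S_S (n m : ℤ) (v : V) : S n (S m v) = S (n + m) v := by
  induction v using Finsupp.induction_linear with
  | zero => simp
  | add v w hv hw => simp [hv, hw]
  | single i x => simp only [S_single]; congr 1; ring
lemma S_zero (v : V) : S 0 v = v := by
  simp only [S, add_zero]
  exact mapDomain_id
lemma a_S (n : ℤ) (v : V) : a (S n v) = n.negOnePow • a v := by
  induction v using Finsupp.induction_linear with
  | zero => simp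
  | add v w hv hw => simp [hv, hw]
  | single i x =>
    simp only [S_single, a, linearCombination_single, Int.negOnePow_add, Units.smul_def,
      Units.val_mul, zsmul_eq_mul, smul_eq_mul]
    push_cast; ring
lemma f_S (n : ℤ) (v w : V) : f (S n v) (S n w) = n.negOnePow • f v w := by
  induction v using Finsupp.induction_linear with
  | zero => simp
  | add v w hv hw => simp [hv, hw]
  | single i x =>
    induction w using Finsupp.induction_linear with
    | zero => simp
    | add v w hv hw => simp only [map_add, hv, hw, smul_add]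
    | single j y =>
      simp only [S_single, f, linearCombination_single, Int.negOnePow_add, Units.smul_def,
        Units.val_mul, zsmul_eq_mul, smul_eq_mul, LinearMap.smul_apply, add_sub_add_right_eq_sub]
      push_cast; ring

lemma f_SS (n m : ℤ) (v : V) : f (S n v) (S m v) = ∑ i ∈ v.support, ∑ j ∈ v.support,
    v i * (v j * ((i + n).negOnePow • c (j + m - (i + n)))) := by
  conv_lhs => rw [← v.sum_single]
  simp only [Finsupp.sum, map_sum, S_single, LinearMap.sum_apply]
  rw [Finset.sum_comm]
  simp only [f, linearCombination_single, LinearMap.smul_apply, smul_eq_mul]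

lemma gap (n n' d : ℕ) (h : 2 * d + 2 ≤ n) (h1 : n ! + n ≤ n' ! + n' + 2 * d)
    (h2 : n' ! + n' < n ! + n) : False := by
  obtain ⟨m, rfl⟩ : ∃ m, n = m + 1 := ⟨n - 1, by omega⟩
  by_cases h3 : n' ≤ m
  · have := factorial_le h3
    have h4 := factorial_pos m
    rw [factorial_succ] at h1
    nlinarith
  · have := factorial_le (show m + 1 ≤ n' by omega)
    omega

lemma key (v : V) (hv : v ≠ 0) (k : ℤ) (hk : k ≠ 0) :
    ∃ N : ℤ, f v (S (k * N) v) ≠ f (S (k * N) v) v := by
  have hne : v.support.Nonempty := support_nonempty_iff.2 hv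
  set i0 := v.support.min' hne
  set j0 := v.support.max' hne
  have lo : ∀ i ∈ v.support, i0 ≤ i := fun i hi => v.support.min'_le i hi
  have hi : ∀ i ∈ v.support, i ≤ j0 := fun i hi => v.support.le_max' i hi
  have m0 : i0 ∈ v.support := v.support.min'_mem hne
  have m1 : j0 ∈ v.support := v.support.max'_mem hne
  obtain ⟨d, hd⟩ : ∃ d : ℕ, j0 - i0 = d := ⟨(j0 - i0).toNat, by have := lo j0 m1; omega⟩
  have hk' : 1 ≤ k.natAbs := by omega
  set n := d + k.natAbs * (2 * d + 2) with hn
  have n1 : 2 * d + 2 ≤ n := by nlinarith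
  have n2 : k.natAbs ≤ n := by nlinarith
  obtain ⟨N, hN⟩ : k ∣ (n ! : ℤ) + n - d := by
    have h1 : k ∣ (n ! : ℤ) := Int.natAbs_dvd.1 (Int.natCast_dvd_natCast.2 (dvd_factorial hk' n2))
    have h2 : k ∣ (n : ℤ) - d := by
      rw [hn]; push_cast
      rw [add_sub_cancel_left]
      exact Dvd.dvd.mul_right ((dvd_abs k k).2 dvd_rfl) _
    rw [add_sub_assoc]
    exact h1.add h2
  refine ⟨N, ?_⟩
  rw [← hN]
  have e1 := f_SS 0 ((n ! : ℤ) + n - d) v
  have e2 := f_SS ((n ! : ℤ) + n - d) 0 v
  rw [S_zero] at e1 e2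
  have fp := factorial_pos n
  have z2 : f (S ((n ! : ℤ) + n - d) v) v = 0 := by
    rw [e2]
    refine Finset.sum_eq_zero fun i h1 => Finset.sum_eq_zero fun j h2 => ?_
    rw [c, if_neg, smul_zero, mul_zero, mul_zero]
    rintro ⟨n', h⟩
    have := factorial_pos n'
    have := lo i h1
    have := hi j h2
    omega
  have cz : ∀ i ∈ v.support, ∀ j ∈ v.support, ¬ (i = i0 ∧ j = j0) →
      c (j + ((n ! : ℤ) + n - d) - (i + 0)) = 0 := by
    intro i h1 j h2 h3
    rw [c, if_neg]
    rintro ⟨n', h⟩
    have := lo i h1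
    have := hi j h2
    have := lo j h2
    have := hi i h1
    exact gap n n' d n1 (by omega) (by omega)
  rw [z2, e1, Finset.sum_eq_single_of_mem i0 m0, Finset.sum_eq_single_of_mem j0 m1,
    c, if_pos ⟨n, by omega⟩]
  · refine mul_ne_zero (mem_support_iff.1 m0) (mul_ne_zero (mem_support_iff.1 m1) ?_)
    rcases Int.units_eq_one_or (i0 + 0).negOnePow with h | h <;> rw [h] <;> decide
  · intro j h2 h3
    rw [cz i0 m0 j h2 (fun h => h3 h.2)]; simp
  · intro i h1 h3
    refine Finset.sum_eq_zero fun j h2 => ?_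
    rw [cz i h1 j h2 (fun h => h3 h.1)]; simp

def ι : F →+ ZMod 9 := AddMonoidHom.mk' (fun x => 3 * (x.val : ZMod 9)) (by decide)
def π : ZMod 9 →+ F := AddMonoidHom.mk' (fun x => (x.val : F)) (by decide)
lemma ι_u (u : ℤˣ) (x : F) : ι (u • x) = u • ι x := map_zsmul ι _ _
lemma π_u (u : ℤˣ) (x : ZMod 9) : π (u • x) = u • π x := map_zsmul π _ _
lemma π_ι (x : F) : π (ι x) = 0 := by revert x; decide

@[ext] structure G where
  v : V
  c : ZMod 9
  n : ℤ

instance : Mul G := ⟨fun x y =>
  ⟨x.v + S x.n y.v, x.c + x.n.negOnePow • y.c + ι (f x.v (S x.n y.v)), x.n + y.n⟩⟩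
instance : One G := ⟨⟨0, 0, 0⟩⟩
instance : Inv G := ⟨fun x =>
  ⟨-S (-x.n) x.v, x.n.negOnePow • (ι (f x.v x.v) - x.c), -x.n⟩⟩
@[simp] lemma mul_v (x y : G) : (x * y).v = x.v + S x.n y.v := rfl
@[simp] lemma mul_c (x y : G) :
  (x * y).c = x.c + x.n.negOnePow • y.c + ι (f x.v (S x.n y.v)) := rfl
@[simp] lemma mul_n (x y : G) : (x * y).n = x.n + y.n := rfl
@[simp] lemma one_v : (1 : G).v = 0 := rfl
@[simp] lemma one_c : (1 : G).c = 0 := rfl
@[simp] lemma one_n : (1 : G).n = 0 := rfl
@[simp] lemma inv_v (x : G) : (x⁻¹).v = -S (-x.n) x.v := rfl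
@[simp] lemma inv_c (x : G) : (x⁻¹).c = x.n.negOnePow • (ι (f x.v x.v) - x.c) := rfl
@[simp] lemma inv_n (x : G) : (x⁻¹).n = -x.n := rfl

instance : Group G := Group.ofLeftAxioms
  (fun x y z => by
    ext1
    · simp [S_S, add_assoc]
    · simp only [mul_c, mul_v, mul_n, map_add, LinearMap.add_apply, ← S_S, f_S, ι_u,
        Int.negOnePow_add, mul_smul, smul_add]
      abel
    · simp [add_assoc])
  (fun x => by ext1 <;> simp [S_zero])
  (fun x => by
    ext1
    · simp
    · simp [f_S, smul_sub]
    · simp)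

def deg : G →* Multiplicative ℤ := MonoidHom.mk' (fun x => Multiplicative.ofAdd x.n) fun _ _ => rfl

/-- `t = 1` gives the first factor, `t = 0` the second -/
def K (t : F) : Subgroup G where
  carrier := {x | π x.c = t * a x.v}
  one_mem' := by simp
  mul_mem' := by
    intro x y hx hy
    simp only [Set.mem_ofPred_eq] at hx hy ⊢
    simp only [mul_c, mul_v, map_add, π_ι, π_u, a_S, hx, hy]
    simp only [Units.smul_def, zsmul_eq_mul]
    ring
  inv_mem' := by
    intro x hx
    simp only [Set.mem_ofPred_eq] at hx ⊢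
    simp only [inv_c, inv_v, map_neg, map_sub, π_ι, π_u, a_S, hx, Int.negOnePow_neg]
    simp only [Units.smul_def, zsmul_eq_mul]
    ring

lemma cube (y : G) (h : y.n = 0) : y * y * y = ⟨0, 3 * y.c, 0⟩ := by
  ext1
  · simp only [mul_v, mul_n, h, add_zero, S_zero]
    ext i
    simp only [Finsupp.add_apply, Finsupp.zero_apply]
    generalize y.v i = x
    revert x; decide
  · simp only [mul_c, mul_v, mul_n, h, add_zero, S_zero, map_add, LinearMap.add_apply,
      Int.negOnePow_zero, one_smul]
    generalize f y.v y.v = x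
    generalize y.c = z
    revert x z; decide
  · simp [h]

lemma comm (y z : G) (h : y.n = 0) (h' : z.n = 0) :
    y * z = z * y * ⟨0, ι (f y.v z.v - f z.v y.v), 0⟩ := by
  ext1 <;> simp [h, h', S_zero, add_comm]

lemma nosec (t : F) (H : Subgroup (K t)) (ph : H →* DihedralGroup 9) :
    ¬ Function.Surjective ph := by
  intro hs
  obtain ⟨g, hg⟩ := hs (.sr 0)
  obtain ⟨h, hh⟩ := hs (.sr 1)
  let j : H →* G := (K t).subtype.comp H.subtype
  have hj : Function.Injective j := Subtype.val_injective.comp Subtype.val_injective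
  let y := g * h * g⁻¹ * h⁻¹
  have hy : ph y = .r 2 := by simp only [y, map_mul, map_inv, hg, hh]; decide
  have yn : (j y).n = 0 := by simp [y]
  have yc := cube _ yn
  have c0 : 3 * (j y).c ≠ 0 := by
    intro e
    rw [e, ← map_mul, ← map_mul] at yc
    have : y * y * y = 1 := hj (yc.trans (map_one j).symm)
    have := congrArg ph this
    simp only [map_mul, hy, map_one] at this
    exact absurd this (by decide)
  have v0 : (j y).v ≠ 0 := by
    intro e
    have h1 : π (j y).c = t * a (j y).v := y.1.2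
    rw [e, map_zero, mul_zero] at h1
    revert c0 h1
    generalize (j y).c = z
    revert z; decide
  have k0 : (j g).n ≠ 0 := by
    intro e
    have : g * (y * y * y) = y * y * y * g := by
      apply hj
      rw [map_mul, map_mul j (y * y * y), map_mul j (y * y), map_mul j y, yc]
      ext1 <;> simp [e, S_zero, add_comm]
    have := congrArg ph this
    simp only [map_mul, hy, hg] at this
    exact absurd this (by decide)
  obtain ⟨N, hN⟩ := key _ v0 _ k0
  let z := g ^ N * y * (g ^ N)⁻¹
  have gn : (j (g ^ N)).n = (j g).n * N := by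
    have : deg (j (g ^ N)) = deg (j g) ^ N := by rw [map_zpow, map_zpow]
    have := congrArg Multiplicative.toAdd this
    simpa [deg, mul_comm] using this
  have zn : (j z).n = 0 := by simp only [z, map_mul, map_inv, mul_n, inv_n, yn]; ring
  have zv : (j z).v = S ((j g).n * N) (j y).v := by
    simp only [z, map_mul, map_inv, mul_v, inv_v, mul_n, yn, add_zero, map_neg, S_S,
      add_neg_cancel, S_zero, gn]
    abel
  have hz : ph y * ph z = ph z * ph y := by
    simp only [z, map_mul, map_inv, hy]
    generalize ph (g ^ N) = u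
    revert u; decide
  have cm := comm _ _ yn zn
  rw [zv] at cm
  have h3 : ι (f (j y).v (S ((j g).n * N) (j y).v) - f (S ((j g).n * N) (j y).v) (j y).v) =
      3 * (j y).c ∨ ι (f (j y).v (S ((j g).n * N) (j y).v) -
        f (S ((j g).n * N) (j y).v) (j y).v) = 3 * (j y).c + 3 * (j y).c := by
    have := sub_ne_zero.2 hN
    revert this c0
    generalize (j y).c = z
    generalize f (j y).v (S ((j g).n * N) (j y).v) - f (S ((j g).n * N) (j y).v) (j y).v = w
    revert z w; decide
  rcases h3 with h3 | h3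
  · rw [h3, ← yc] at cm
    simp only [← map_mul] at cm
    have := congrArg ph (hj cm)
    simp only [map_mul] at this
    rw [hz, hy] at this
    exact absurd (left_eq_mul.1 this) (by decide)
  · have e : (⟨0, 3 * (j y).c + 3 * (j y).c, 0⟩ : G) =
        ⟨0, 3 * (j y).c, 0⟩ * ⟨0, 3 * (j y).c, 0⟩ := by ext1 <;> simp
    rw [h3, e, ← yc] at cm
    simp only [← map_mul] at cm
    have := congrArg ph (hj cm)
    simp only [map_mul] at this
    rw [hz, hy] at this
    exact absurd (left_eq_mul.1 this) (by decide)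

def H : Subgroup (K 1 × K 0) where
  carrier := {x | x.1.1.v = x.2.1.v ∧ x.1.1.n = x.2.1.n}
  one_mem' := ⟨rfl, rfl⟩
  mul_mem' := by
    rintro x y ⟨h1, h2⟩ ⟨h3, h4⟩
    constructor <;> simp [h1, h2, h3, h4]
  inv_mem' := by
    rintro x ⟨h1, h2⟩
    constructor <;> simp [h1, h2]

def D (u : ℤˣ) (x : ZMod 9) : DihedralGroup 9 := if u = 1 then .r x else .sr (-x)

lemma D_mul (u w : ℤˣ) (x y : ZMod 9) : D (u * w) (x + u • y) = D u x * D w y := by
  rcases Int.units_eq_one_or u with rfl | rfl <;> rcases Int.units_eq_one_or w with rfl | rfl <;>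
    revert x y <;> decide

def ph : H →* DihedralGroup 9 := MonoidHom.mk'
  (fun x => D x.1.1.1.n.negOnePow (x.1.1.1.c - x.1.2.1.c)) (by
    rintro ⟨x, h1, h2⟩ ⟨y, h3, h4⟩
    rw [← D_mul]
    simp only [Subgroup.coe_mul, Prod.fst_mul, Prod.snd_mul, mul_n, mul_c, Int.negOnePow_add,
      h1, h2, h3, smul_sub]
    congr 1
    abel)

lemma ph_surj : Function.Surjective ph := by
  have h : ∀ (x : ZMod 9) (n : ℤ), ∃ g, ph g = D n.negOnePow x := fun x n =>
    ⟨⟨(⟨⟨single 0 (π x), x, n⟩, by simp [K, a]⟩, ⟨⟨single 0 (π x), 0, n⟩, by simp [K]⟩),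
      rfl, rfl⟩, by simp [ph]⟩
  rintro (x | x)
  · exact (h x 0).imp fun g hg => hg.trans (by simp [D])
  · exact (h (-x) 1).imp fun g hg => hg.trans (by simp [D])

end

/-- The negation of the preceding statement: For all groups A and B, if some subgroup of A×B maps onto the dihedral group of order 18, then some subgroup of A or some subgroup of B maps onto that dihedral group. -/
theorem result :
    ¬ (∀ (A B : Type) [Group A] [Group B],
      (∃ H : Subgroup (A × B), ∃ f : H →* DihedralGroup 9, Function.Surjective f) →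
      ((∃ H : Subgroup A, ∃ f : H →* DihedralGroup 9, Function.Surjective f) ∨
       (∃ H : Subgroup B, ∃ f : H →* DihedralGroup 9, Function.Surjective f))) := by
  intro h
  rcases h (K 1) (K 0) ⟨H, ph, ph_surj⟩ with ⟨L, ψ, hψ⟩ | ⟨L, ψ, hψ⟩
  · exact nosec 1 L ψ hψ
  · exact nosec 0 L ψ hψ

end Pool.Agent.S02924
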