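import Pool.Statements.S02935
import Pool.Agent.H2.UL5

set_option autoImplicit false
open Pool Pool.MP_bfb3ed_al

namespace Pool.Agent.S02935

/-- The universal cover of SL2(R), modelled as continuous lifts to the real line of projective maps of det-1 matrices under composition, admits an injective group homomorphism into the permutation group of the naturals. -/
theorem result :
    ∀ S : Set (ℝ → ℝ),
      S = {f : ℝ → ℝ | Continuous f ∧
        ∃ M : Matrix (Fin 2) (Fin 2) ℝ, M.det = 1 ∧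
          ∀ x : ℝ,
            (M.mulVec ![Real.cos (Real.pi * x), Real.sin (Real.pi * x)]) 0
                * Real.sin (Real.pi * f x)
              - (M.mulVec ![Real.cos (Real.pi * x), Real.sin (Real.pi * x)]) 1
                * Real.cos (Real.pi * f x) = 0} →
      ∃ φ : (ℝ → ℝ) → Equiv.Perm ℕ,
        (∀ f ∈ S, ∀ g ∈ S, φ (f ∘ g) = φ f * φ g) ∧
        (∀ f ∈ S, ∀ g ∈ S, φ f = φ g → f = g) := by
  classical
  rintro S rfl
  obtain ⟨φ, hφ⟩ := Pool.Agent.H2.UL.main
  let S : Set (ℝ → ℝ) := {f | Continuous f ∧ ∃ M : Matrix (Fin 2) (Fin 2) ℝ, M.det = 1 ∧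
    ∀ x, Pool.Agent.H2.UL.Lift M x (f x)}
  refine ⟨fun f => if h : f ∈ S then φ ⟨f, h⟩ else 1, fun f (hf : f ∈ S) g (hg : g ∈ S) => ?_,
    fun f (hf : f ∈ S) g (hg : g ∈ S) h => ?_⟩
  · have h : f ∘ g ∈ S :=
      (Mul.mul (α := Pool.Agent.H2.UL.G) ⟨f, hf⟩ ⟨g, hg⟩).2
    simp only [dif_pos hf, dif_pos hg, dif_pos h]
    exact φ.map_mul ⟨f, hf⟩ ⟨g, hg⟩
  · simp only [dif_pos hf, dif_pos hg] at h
    exact congrArg Subtype.val (hφ h)

end Pool.Agent.S02935
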