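import Pool.Statements.S02941

set_option autoImplicit false
open Pool Pool.MP_bfcf3a_al

namespace Pool.Agent.S02941

open Matrix

lemma point {Ω : Type} [Fintype Ω] (h3 : 3 ≤ Fintype.card Ω) (G : Subgroup (Equiv.Perm Ω))
    (σ : Equiv.Perm Ω)
    (h : ∀ a b : Ω, a ≠ b → ∃ g ∈ G, ({g a, g b} : Set Ω) = {σ a, σ b}) (x : Ω) :
    ∃ g ∈ G, g x = σ x := by
  classical
  by_contra hx
  push Not at hx
  have key : ∀ z, z ≠ x → ∃ g ∈ G, g x = σ z ∧ g z = σ x := by
    intro z hz
    obtain ⟨g, hg, e⟩ := h x z hz.symm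
    rcases Set.pair_eq_pair_iff.mp e with e | e
    · exact absurd e.1 (hx g hg)
    · exact ⟨g, hg, e⟩
  obtain ⟨z, hz1, hz2⟩ : ∃ z, z ≠ x ∧ z ≠ σ⁻¹ x := by
    by_contra hc
    push Not at hc
    have : (Finset.univ : Finset Ω) ⊆ {x, σ⁻¹ x} := by
      intro z _
      by_cases hz : z = x
      · simp [hz]
      · simp [hc z hz]
    have h1 := Finset.card_le_card this
    have h2 : ({x, σ⁻¹ x} : Finset Ω).card ≤ 2 := Finset.card_le_two
    rw [Finset.card_univ] at h1
    omega
  obtain ⟨g, hg, e1, -⟩ := key z hz1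
  obtain ⟨g', hg', -, e2⟩ := key (σ z) (fun e => hz2 (by rw [← e]; simp))
  exact hx (g' * g) (G.mul_mem hg' hg) (by rw [Equiv.Perm.mul_apply, e1, e2])

/-- For every finite set Ω with at least 3 points and every permutation group G on Ω, the permutations preserving every G-invariant real subspace of ℝ^Ω are exactly those mapping each 2-subset into its G-orbit. -/
theorem result :
    ∀ (Ω : Type) [Fintype Ω], 3 ≤ Fintype.card Ω →
      ∀ G : Subgroup (Equiv.Perm Ω),
        ({σ : Equiv.Perm Ω |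
            ∀ W : Submodule ℝ (Ω → ℝ),
              (∀ g ∈ G, ∀ f ∈ W, (fun x => f (g x)) ∈ W) →
                ∀ f ∈ W, (fun x => f (σ x)) ∈ W} : Set (Equiv.Perm Ω)) =
        ({σ : Equiv.Perm Ω |
            ∀ a b : Ω, a ≠ b →
              ∃ g ∈ G, ({g a, g b} : Set Ω) = {σ a, σ b}} : Set (Equiv.Perm Ω)) := by
  classical
  intro Ω _ h3 G
  ext σ
  simp only [Set.mem_ofPred_eq]
  constructor
  · intro h a b _
    let M : Matrix Ω Ω ℝ := fun x y => if ∃ g ∈ G, ({g a, g b} : Set Ω) = {x, y} then 1 else 0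
    have hM : M.IsHermitian := by
      ext x y
      simp only [M, conjTranspose_apply, star_trivial, Set.pair_comm y x]
    have hinv : ∀ g ∈ G, ∀ x y, M (g x) (g y) = M x y := by
      intro g hg x y
      simp only [M]
      congr 1
      apply propext
      constructor
      · rintro ⟨k, hk, e⟩
        refine ⟨g⁻¹ * k, G.mul_mem (G.inv_mem hg) hk, ?_⟩
        have := congrArg (Set.image ⇑g⁻¹) e
        simpa [Set.image_pair] using this
      · rintro ⟨k, hk, e⟩
        refine ⟨g * k, G.mul_mem hg hk, ?_⟩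
        have := congrArg (Set.image ⇑g) e
        simpa [Set.image_pair] using this
    have hcomm : ∀ g ∈ G, ∀ f : Ω → ℝ, M *ᵥ (fun x => f (g x)) = fun x => (M *ᵥ f) (g x) := by
      intro g hg f
      funext x
      simp only [mulVec, dotProduct]
      rw [← Equiv.sum_comp g (fun y => M (g x) y * f y)]
      simp only [hinv g hg]
    let U : (Ω → ℝ) →ₗ[ℝ] (Ω → ℝ) := LinearMap.funLeft ℝ ℝ σ
    have hU : M.mulVecLin ∘ₗ U = U ∘ₗ M.mulVecLin := by
      apply (hM.eigenvectorBasis.toBasis.map (WithLp.linearEquiv 2 ℝ (Ω → ℝ))).ext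
      intro j
      have e := hM.mulVec_eigenvectorBasis j
      have h1 := h (LinearMap.ker (M.mulVecLin - hM.eigenvalues j • LinearMap.id)) (by
        intro g hg f hf
        simp only [LinearMap.mem_ker, LinearMap.sub_apply, LinearMap.smul_apply,
          LinearMap.id_apply, mulVecLin_apply, sub_eq_zero] at hf ⊢
        rw [hcomm g hg, hf]
        rfl) (⇑(hM.eigenvectorBasis j)) (by
        simp only [LinearMap.mem_ker, LinearMap.sub_apply, LinearMap.smul_apply,
          LinearMap.id_apply, mulVecLin_apply, sub_eq_zero]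
        exact e)
      simp only [LinearMap.mem_ker, LinearMap.sub_apply, LinearMap.smul_apply,
          LinearMap.id_apply, mulVecLin_apply, sub_eq_zero] at h1
      change M *ᵥ (fun x => hM.eigenvectorBasis j (σ x)) = U (M *ᵥ ⇑(hM.eigenvectorBasis j))
      rw [h1, e]
      rfl
    have h2 := congrFun (LinearMap.congr_fun hU (Pi.single (σ b) 1)) a
    have h4 : U (Pi.single (σ b) 1) = Pi.single b 1 := by
      funext x
      simp [U, LinearMap.funLeft_apply, Pi.single_apply]
    simp only [LinearMap.comp_apply, h4, mulVecLin_apply] at h2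
    simp only [U, LinearMap.funLeft_apply, mulVec_single_one, col_apply] at h2
    have h5 : M a b = 1 := if_pos ⟨1, G.one_mem, rfl⟩
    rw [h5] at h2
    by_contra hc
    have h6 : M (σ a) (σ b) = 0 := if_neg hc
    rw [h6] at h2
    exact one_ne_zero h2
  · intro h W hW f hf
    by_contra hc
    obtain ⟨φ, hφ1, hφ2⟩ := W.exists_le_ker_of_notMem hc
    let c : Ω → ℝ := fun x => φ (fun j => if x = j then 1 else 0)
    have hφ : ∀ u : Ω → ℝ, φ u = ∑ x, u x * c x := fun u => by
      rw [LinearMap.pi_apply_eq_sum_univ]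
      rfl
    let S : Ω → Ω → ℝ := fun x y => ∑ g : G, f (g.1 x) * f (g.1 y)
    have hS : ∀ g ∈ G, ∀ x y, S (g x) (g y) = S x y := by
      intro g hg x y
      exact Equiv.sum_comp (Equiv.mulRight (⟨g, hg⟩ : G)) (fun k : G => f (k.1 x) * f (k.1 y))
    have hS' : ∀ x y, S x y = S y x := fun x y => Finset.sum_congr rfl fun _ _ => mul_comm _ _
    have hσ : ∀ x y, S (σ x) (σ y) = S x y := by
      intro x y
      by_cases hxy : x = y
      · obtain ⟨g, hg, e⟩ := point h3 G σ h x
        rw [← hxy, ← e, hS g hg]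
      · obtain ⟨g, hg, e⟩ := h x y hxy
        rcases Set.pair_eq_pair_iff.mp e with e | e
        · rw [← e.1, ← e.2, hS g hg]
        · rw [← e.1, ← e.2, hS g hg, hS']
    have hq : ∀ τ : Equiv.Perm Ω, ∑ g : G, (φ (fun x => f (g.1 (τ x)))) ^ 2
        = ∑ x, ∑ y, S (τ x) (τ y) * (c x * c y) := by
      intro τ
      simp only [hφ, pow_two, Finset.sum_mul_sum]
      simp only [S, Finset.sum_mul]
      rw [Finset.sum_comm]
      refine Finset.sum_congr rfl fun x _ => ?_
      rw [Finset.sum_comm]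
      refine Finset.sum_congr rfl fun y _ => Finset.sum_congr rfl fun g _ => by ring
    have h1 := hq σ
    have h2 := hq 1
    simp only [hσ] at h1
    simp only [Equiv.Perm.one_apply] at h2
    rw [← h2] at h1
    have h0 : ∑ g : G, (φ (fun x => f (g.1 x))) ^ 2 = 0 :=
      Finset.sum_eq_zero fun g _ => by
        rw [LinearMap.mem_ker.mp (hφ2 (hW g.1 g.2 f hf))]
        norm_num
    rw [h0, Finset.sum_eq_zero_iff_of_nonneg (fun _ _ => sq_nonneg _)] at h1
    exact hφ1 (pow_eq_zero_iff two_ne_zero |>.mp (h1 1 (Finset.mem_univ _)))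

end Pool.Agent.S02941
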