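import Pool.Statements.S03016

set_option autoImplicit false
open Pool Pool.MP_c8c3c9_al

namespace Pool.Agent.S03016

/-- The wreath product of the cyclic group of order 30 with the symmetric group of degree 4. -/
abbrev G : Type :=
  (Fin 4 → Multiplicative (ZMod 30)) ⋊[mulAutArrow] Equiv.Perm (Fin 4)

def mk (a b c d : ZMod 30) (s : Equiv.Perm (Fin 4)) : G :=
  ⟨![Multiplicative.ofAdd a, Multiplicative.ofAdd b, Multiplicative.ofAdd c,
    Multiplicative.ofAdd d], s⟩

def g1 : G := mk 15 0 10 6 (Equiv.swap 0 1)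
def g2 : G := mk 10 0 15 6 (Equiv.swap 1 2)
def g3 : G := mk 10 6 0 15 (Equiv.swap 2 3)

lemma gext (g h : G) : g = h ↔ (∀ i, g.left i = h.left i) ∧ ∀ i, g.right i = h.right i := by
  constructor
  · rintro rfl
    exact ⟨fun _ => rfl, fun _ => rfl⟩
  · rintro ⟨h1, h2⟩
    exact SemidirectProduct.ext (funext h1) (Equiv.ext h2)

/-- The subrack of the conjugation rack generated by `g1, g2, g3`. -/
inductive S : G → Prop
  | a1 : S g1
  | a2 : S g2
  | a3 : S g3
  | cj {g h : G} : S g → S h → S (g * h * g⁻¹)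
  | ci {g h : G} : S g → S h → S (g⁻¹ * h * g)

def X : Type := {g : G // S g}

instance : Finite G := Finite.of_equiv _ SemidirectProduct.equivProd.symm

instance : Finite X := inferInstanceAs (Finite {g : G // S g})

instance : Rack X where
  act g h := ⟨g.1 * h.1 * g.1⁻¹, S.cj g.2 h.2⟩
  self_distrib := by
    intro x y z
    apply Subtype.ext
    simp only
    group
  invAct g h := ⟨g.1⁻¹ * h.1 * g.1, S.ci g.2 h.2⟩
  left_inv := by
    intro x y
    apply Subtype.ext
    simp only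
    group
  right_inv := by
    intro x y
    apply Subtype.ext
    simp only
    group

lemma act_val (g h : X) : (Shelf.act g h).1 = g.1 * h.1 * g.1⁻¹ := rfl

lemma iter_val (g h : X) (n : ℕ) : ((Shelf.act g)^[n] h).1 = g.1 ^ n * h.1 * (g.1 ^ n)⁻¹ := by
  induction n with
  | zero => simp
  | succ n ih =>
    rw [Function.iterate_succ_apply', act_val, ih, pow_succ']
    group

def R (a b : X) : Prop := ∃ x : X, Shelf.act x a = b

def x1 : X := ⟨g1, S.a1⟩
def x2 : X := ⟨g2, S.a2⟩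
def x3 : X := ⟨g3, S.a3⟩

lemma r12 : g1 * (g2 * g1 * g2⁻¹) * g1⁻¹ = g2 := by rw [gext]; decide +kernel
lemma r23 : g2 * (g3 * g2 * g3⁻¹) * g2⁻¹ = g3 := by rw [gext]; decide +kernel

lemma e12 : Relation.EqvGen R x1 x2 :=
  Relation.EqvGen.trans _ (Shelf.act x2 x1) _ (Relation.EqvGen.rel _ _ ⟨x2, rfl⟩)
    (Relation.EqvGen.rel _ _ ⟨x1, Subtype.ext r12⟩)

lemma e23 : Relation.EqvGen R x2 x3 :=
  Relation.EqvGen.trans _ (Shelf.act x3 x2) _ (Relation.EqvGen.rel _ _ ⟨x3, rfl⟩)
    (Relation.EqvGen.rel _ _ ⟨x2, Subtype.ext r23⟩)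

lemma conn (g : G) (hg : S g) : Relation.EqvGen R x1 ⟨g, hg⟩ := by
  induction hg with
  | a1 => exact Relation.EqvGen.refl _
  | a2 => exact e12
  | a3 => exact Relation.EqvGen.trans _ _ _ e12 e23
  | @cj g h hg hh _ ih =>
    exact Relation.EqvGen.trans _ _ _ ih (Relation.EqvGen.rel _ _ ⟨⟨g, hg⟩, rfl⟩)
  | @ci g h hg hh _ ih =>
    refine Relation.EqvGen.trans _ _ _ ih (Relation.EqvGen.symm _ _
      (Relation.EqvGen.rel _ _ ⟨⟨g, hg⟩, ?_⟩))
    apply Subtype.ext
    rw [act_val]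
    group

lemma swap_of (g : G) (hg : S g) : g.right.IsSwap := by
  induction hg with
  | a1 => exact ⟨0, 1, by decide, rfl⟩
  | a2 => exact ⟨1, 2, by decide, rfl⟩
  | a3 => exact ⟨2, 3, by decide, rfl⟩
  | @cj g h _ _ _ ih =>
    obtain ⟨a, b, hab, e⟩ := ih
    refine ⟨g.right a, g.right b, fun e' => hab (g.right.injective e'), ?_⟩
    rw [Equiv.swap_apply_apply, ← e]
    rfl
  | @ci g h _ _ _ ih =>
    obtain ⟨a, b, hab, e⟩ := ih
    refine ⟨g.right⁻¹ a, g.right⁻¹ b, fun e' => hab (g.right⁻¹.injective e'), ?_⟩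
    rw [Equiv.swap_apply_apply, ← e, inv_inv]
    rfl

lemma comm (y w : G) (hy : y.right = 1) (h : mulAutArrow w.right y.left = y.left) :
    y * w * y⁻¹ = w := by
  rw [mul_inv_eq_iff_eq_mul]
  ext1
  · rw [SemidirectProduct.mul_left, SemidirectProduct.mul_left, hy, h, map_one,
      MulAut.one_apply, mul_comm]
  · rw [SemidirectProduct.mul_right, SemidirectProduct.mul_right, hy, one_mul, mul_one]

lemma p2 : g1 ^ 2 = mk 15 15 20 12 1 := by rw [pow_two, gext]; decide +kernel
lemma p4 : g1 ^ 4 = mk 0 0 10 24 1 := by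
  refine (pow_add g1 2 2).trans ?_
  rw [p2, gext]; decide +kernel
lemma p8 : g1 ^ 8 = mk 0 0 20 18 1 := by
  refine (pow_add g1 4 4).trans ?_
  rw [p4, gext]; decide +kernel
lemma p12 : g1 ^ 12 = mk 0 0 0 12 1 := by
  refine (pow_add g1 8 4).trans ?_
  rw [p4, p8, gext]; decide +kernel
lemma p20 : g1 ^ 20 = mk 0 0 20 0 1 := by
  refine (pow_add g1 12 8).trans ?_
  rw [p12, p8, gext]; decide +kernel
lemma p10 : g1 ^ 10 = mk 15 15 10 0 1 := by
  refine (pow_add g1 8 2).trans ?_
  rw [p2, p8, gext]; decide +kernel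
lemma p30 : g1 ^ 30 = mk 15 15 0 0 1 := by
  refine (pow_add g1 20 10).trans ?_
  rw [p20, p10, gext]; decide +kernel

lemma cover : ∀ a b : Fin 4, a ≠ b →
    mulAutArrow (Equiv.swap a b) (mk 15 15 0 0 1).left = (mk 15 15 0 0 1).left ∨
    mulAutArrow (Equiv.swap a b) (mk 0 0 20 0 1).left = (mk 0 0 20 0 1).left ∨
    mulAutArrow (Equiv.swap a b) (mk 0 0 0 12 1).left = (mk 0 0 0 12 1).left := by
  decide +kernel

lemma n30 : mk 15 15 0 0 1 * g2 * (mk 15 15 0 0 1)⁻¹ ≠ g2 := by rw [Ne, gext]; decide +kernel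
lemma n20 : mk 0 0 20 0 1 * g2 * (mk 0 0 20 0 1)⁻¹ ≠ g2 := by rw [Ne, gext]; decide +kernel
lemma n12 : mk 0 0 0 12 1 * g3 * (mk 0 0 0 12 1)⁻¹ ≠ g3 := by rw [Ne, gext]; decide +kernel

lemma transfer (w z : X) (n : ℕ)
    (h : Function.minimalPeriod (Shelf.act x1) z ∣ Function.minimalPeriod (Shelf.act x1) w)
    (hw : g1 ^ n * w.1 * (g1 ^ n)⁻¹ = w.1) : g1 ^ n * z.1 * (g1 ^ n)⁻¹ = z.1 := by
  have h1 : Function.IsPeriodicPt (Shelf.act x1) n w := Subtype.ext ((iter_val x1 w n).trans hw)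
  have h2 : Function.IsPeriodicPt (Shelf.act x1) n z :=
    Function.isPeriodicPt_iff_minimalPeriod_dvd.mpr (h.trans h1.minimalPeriod_dvd)
  exact (iter_val x1 z n).symm.trans (congrArg Subtype.val h2)

/-- The negation of the preceding statement: For every finite connected rack X and every x in X, some cycle of the permutation y ↦ x ▷ y has a length that every other cycle length of that permutation divides; that is, all cycle lengths divide the largest one. -/
theorem result :
    ¬ (∀ (X : Type) [Rack X] [Finite X],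
      (∀ y z : X, Relation.EqvGen (fun a b : X => ∃ x : X, Shelf.act x a = b) y z) →
      ∀ x : X, ∃ w : X, ∀ z : X,
        Function.minimalPeriod (Shelf.act x) z ∣ Function.minimalPeriod (Shelf.act x) w) := by
  intro h
  obtain ⟨w, hw⟩ := h X (fun y z => Relation.EqvGen.trans _ _ _
    (Relation.EqvGen.symm _ _ (conn y.1 y.2)) (conn z.1 z.2)) x1
  obtain ⟨a, b, hab, e⟩ := swap_of w.1 w.2
  rcases cover a b hab with h1 | h1 | h1
  · have := transfer w x2 30 (hw x2) (by rw [p30]; exact comm _ _ rfl (by rw [e]; exact h1))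
    rw [p30] at this
    exact n30 this
  · have := transfer w x2 20 (hw x2) (by rw [p20]; exact comm _ _ rfl (by rw [e]; exact h1))
    rw [p20] at this
    exact n20 this
  · have := transfer w x3 12 (hw x3) (by rw [p12]; exact comm _ _ rfl (by rw [e]; exact h1))
    rw [p12] at this
    exact n12 this

end Pool.Agent.S03016
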