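import Pool.Statements.S03022
import Pool.Agent.H16.PartC

set_option autoImplicit false
open scoped Pointwise
open Pool Pool.MP_c8ecde_al

namespace Pool.Agent.S03022

/-- The negation of the preceding statement: For every group G and every partition of G into n cells, some cell A satisfies G = F·A·A⁻¹·F⁻¹ for some finite set F ⊆ G with at most n elements. -/
theorem result :
    ¬ (∀ (G : Type) [Group G] (n : ℕ) (A : Fin n → Set G),
      (∀ i j, i ≠ j → Disjoint (A i) (A j)) →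
      (⋃ i, A i) = Set.univ →
      ∃ i : Fin n, ∃ F : Finset G, F.card ≤ n ∧
        (F : Set G) * A i * (A i)⁻¹ * (F : Set G)⁻¹ = Set.univ) := by
  intro H
  classical
  obtain ⟨c, hc, -⟩ := Pool.Agent.H16.Part.main
  obtain ⟨i, F, hF, h⟩ := H (FreeGroup ℕ) 16 (fun i => {a | c a = i})
    (fun i j hij => Set.disjoint_left.mpr fun a h1 h2 => hij (h1.symm.trans h2))
    (Set.eq_univ_of_forall fun a => Set.mem_iUnion.mpr ⟨c a, rfl⟩)
  obtain ⟨t, ht⟩ := hc i (F.toList.map (·⁻¹)) (F.toList.map (·⁻¹)) (by simpa using hF)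
    (by simpa using hF)
  have hm : t ∈ (F : Set (FreeGroup ℕ)) * {a | c a = i} * {a | c a = i}⁻¹ *
      (F : Set (FreeGroup ℕ))⁻¹ := by
    rw [h]; trivial
  obtain ⟨_, ⟨_, ⟨x, hx, a, ha, rfl⟩, b, hb, rfl⟩, y, hy, rfl⟩ := hm
  refine ht (y⁻¹ * b⁻¹) y (List.mem_map.2 ⟨y⁻¹, by simpa using hy, by simp⟩) x⁻¹
    (List.mem_map.2 ⟨x, by simpa using hx, rfl⟩) ⟨?_, ?_⟩
  · have h1 : x⁻¹ * (x * a * b * y * (y⁻¹ * b⁻¹)) = a := by group
    simp only [h1]
    exact ha
  · rw [mul_inv_cancel_left]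
    exact hb

end Pool.Agent.S03022
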