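import Pool.Statements.S03041
import Pool.Agent.H33.RN3

set_option autoImplicit false
open Pool Pool.MP_c9c98b_al

namespace Pool.Agent.S03041

/-- There is a group G all of whose central extensions are residually nilpotent, yet some central extension of some central extension of G is not residually nilpotent. -/
theorem result :
    ∃ (G : Type) (hG : Group G),
      (∀ (E : Type) (hE : Group E) (f : E →* G), Function.Surjective f →
        f.ker ≤ Subgroup.center E →
        ∀ g : E, g ≠ 1 →
          ∃ (H : Type) (hH : Group H) (φ : E →* H), Group.IsNilpotent H ∧ φ g ≠ 1) ∧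
      ∃ (E₁ : Type) (h₁ : Group E₁) (f₁ : E₁ →* G)
        (E₂ : Type) (h₂ : Group E₂) (f₂ : E₂ →* E₁),
        Function.Surjective f₁ ∧ f₁.ker ≤ Subgroup.center E₁ ∧
        Function.Surjective f₂ ∧ f₂.ker ≤ Subgroup.center E₂ ∧
        ∃ g : E₂, g ≠ 1 ∧
          ∀ (H : Type) (hH : Group H) (φ : E₂ →* H), Group.IsNilpotent H → φ g = 1 := by
  exact ⟨H33.RN.Gam 1, inferInstance, H33.RN.part1, _, inferInstance, H33.RN.f1, _, inferInstance,
    H33.RN.f2, H33.RN.f1_surj, H33.RN.f1_cen, H33.RN.f2_surj, H33.RN.f2_cen, H33.RN.ww,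
    H33.RN.ww_ne, H33.RN.ww_kill⟩

end Pool.Agent.S03041
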