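import Pool.Statements.S03052
import Pool.Agent.H33.So3

set_option autoImplicit false
open Pool Pool.MP_cacfbf_al

namespace Pool.Agent.S03052

open Pool.Agent.H33.Std3 Pool.Agent.H33.So3

attribute [local instance 100] LieRing.ofAssociativeRing

/-- Symmetric traceless three by three matrices over the field with two elements. -/
def Ls : LieSubalgebra F Mx where
  carrier := {A | A 0 1 = A 1 0 ∧ A 0 2 = A 2 0 ∧ A 1 2 = A 2 1 ∧ A 0 0 + A 1 1 + A 2 2 = 0}
  add_mem' := by
    rintro A B ⟨a1, a2, a3, a4⟩ ⟨b1, b2, b3, b4⟩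
    refine ⟨?_, ?_, ?_, ?_⟩ <;> simp only [Matrix.add_apply, a1, a2, a3, b1, b2, b3]
    linear_combination a4 + b4
  zero_mem' := by simp
  smul_mem' := by
    rintro c A ⟨a1, a2, a3, a4⟩
    refine ⟨?_, ?_, ?_, ?_⟩ <;> simp only [Matrix.smul_apply, a1, a2, a3, smul_eq_mul]
    linear_combination c * a4
  lie_mem' := by
    rintro A B ⟨a1, a2, a3, a4⟩ ⟨b1, b2, b3, b4⟩
    have h2 : (2 : F) = 0 := rfl
    refine ⟨?_, ?_, ?_, ?_⟩ <;>
      simp only [LieRing.of_associative_ring_bracket, Matrix.sub_apply, Matrix.mul_apply,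
        Fin.sum_univ_three, a1, a2, a3, b1, b2, b3]
    · linear_combination (A 0 0 * B 1 0 + A 1 0 * B 1 1 + A 2 0 * B 2 1 - B 0 0 * A 1 0
        - B 1 0 * A 1 1 - B 2 0 * A 2 1) * h2
    · linear_combination (A 0 0 * B 2 0 + A 1 0 * B 2 1 + A 2 0 * B 2 2 - B 0 0 * A 2 0
        - B 1 0 * A 2 1 - B 2 0 * A 2 2) * h2
    · linear_combination (A 1 0 * B 2 0 + A 1 1 * B 2 1 + A 2 1 * B 2 2 - B 1 0 * A 2 0
        - B 1 1 * A 2 1 - B 2 1 * A 2 2) * h2
    · ring

lemma sq_mem (A : Mx) (h : A ∈ Ls) : A * A ∈ Ls := by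
  obtain ⟨a1, a2, a3, a4⟩ := h
  have h2 : (2 : F) = 0 := rfl
  refine ⟨?_, ?_, ?_, ?_⟩ <;> simp only [Matrix.mul_apply, Fin.sum_univ_three, a1, a2, a3]
  · ring
  · ring
  · ring
  · linear_combination (A 0 0 + A 1 1 + A 2 2) * a4 + (A 1 0 * A 1 0 + A 2 0 * A 2 0 + A 2 1 * A 2 1
      - A 0 0 * A 1 1 - A 0 0 * A 2 2 - A 1 1 * A 2 2) * h2

/-- The 2-map: squaring of matrices. -/
def pm (a : Ls) : Ls := ⟨a.1 * a.1, sq_mem a.1 a.2⟩

/-- The restricted enveloping algebra. -/
abbrev U := RingQuot (fun a b : UniversalEnvelopingAlgebra F Ls =>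
  ∃ x : Ls, a = UniversalEnvelopingAlgebra.ι F x ^ 2 ∧ b = UniversalEnvelopingAlgebra.ι F (pm x))

/-- The image of a Lie element. -/
noncomputable def em (a : Ls) : U := RingQuot.mkAlgHom F _ (UniversalEnvelopingAlgebra.ι F a)

lemma em_sq (a : Ls) : em a * em a = em (pm a) := by
  unfold em
  rw [← sq, ← map_pow]
  exact RingQuot.mkAlgHom_rel F ⟨a, rfl, rfl⟩

lemma em_lie (a b : Ls) : em b * em a = em a * em b + em ⁅a, b⁆ := by
  unfold em
  rw [LieHom.map_lie, LieRing.of_associative_ring_bracket, map_sub, map_mul, map_mul,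
    sub_eq_add_neg, neg_self, ← add_assoc, two_zero, zero_add]

lemma em_add (a b : Ls) : em (a + b) = em a + em b := by
  unfold em; rw [map_add, map_add]

lemma em_smul (c : F) (a : Ls) : em (c • a) = c • em a := by
  unfold em; rw [map_smul, map_smul]

/-- First generator. -/
def x0 : Ls := ⟨X, by refine ⟨?_, ?_, ?_, ?_⟩ <;> decide⟩
/-- Second generator. -/
def y0 : Ls := ⟨Y, by refine ⟨?_, ?_, ?_, ?_⟩ <;> decide⟩
/-- Third generator. -/
def z0 : Ls := ⟨Z, by refine ⟨?_, ?_, ?_, ?_⟩ <;> decide⟩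

lemma lie_xy : ⁅x0, y0⁆ = z0 := Subtype.ext (show X * Y - Y * X = Z by decide)
lemma lie_yz : ⁅y0, z0⁆ = x0 := Subtype.ext (show Y * Z - Z * Y = X by decide)
lemma lie_xz : ⁅x0, z0⁆ = y0 := Subtype.ext (show X * Z - Z * X = Y by decide)
lemma pm_z : pm z0 = pm x0 + pm y0 := Subtype.ext (show Z * Z = X * X + Y * Y by decide)
lemma pm_x : pm (pm x0) = pm x0 := Subtype.ext (show X * X * (X * X) = X * X by decide)
lemma pm_y : pm (pm y0) = pm y0 := Subtype.ext (show Y * Y * (Y * Y) = Y * Y by decide)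

lemma decomp (a : Ls) : a = a.1 1 2 • x0 + a.1 0 2 • y0 + a.1 0 1 • z0 + a.1 1 1 • pm x0
    + a.1 0 0 • pm y0 := by
  obtain ⟨A, a1, a2, a3, a4⟩ := a
  have h2 : (2 : F) = 0 := rfl
  apply Subtype.ext
  change A = A 1 2 • X + A 0 2 • Y + A 0 1 • Z + A 1 1 • (X * X) + A 0 0 • (Y * Y)
  have e1 : X * X = !![0, 0, 0; 0, 1, 0; 0, 0, 1] := by decide
  have e2 : Y * Y = !![1, 0, 0; 0, 0, 0; 0, 0, 1] := by decide
  rw [e1, e2]
  ext i j
  fin_cases i <;> fin_cases j <;> simp [X, Y, Z, a1, a2, a3]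
  linear_combination a4 - (A 0 0 + A 1 1) * h2

lemma rels : Rels (em x0) (em y0) (em z0) where
  yx := by rw [em_lie, lie_xy]
  zy := by rw [em_lie, lie_yz]
  zx := by rw [em_lie, lie_xz]
  zz := by rw [em_sq, em_sq, em_sq, pm_z, em_add]
  x4 := by rw [← mul_assoc, em_sq, em_sq, pm_x]
  y4 := by rw [← mul_assoc, em_sq, em_sq, pm_y]
  gen := by
    intro S hx hy hz a
    have hl : ∀ l : Ls, em l ∈ S := by
      intro l
      rw [decomp l, em_add, em_add, em_add, em_add, em_smul, em_smul, em_smul, em_smul, em_smul,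
        ← em_sq, ← em_sq]
      exact S.add_mem (S.add_mem (S.add_mem (S.add_mem (S.smul_mem hx _) (S.smul_mem hy _))
        (S.smul_mem hz _)) (S.smul_mem (S.mul_mem hx hx) _)) (S.smul_mem (S.mul_mem hy hy) _)
    obtain ⟨b, rfl⟩ := RingQuot.mkAlgHom_surjective F _ a
    have hs : Function.Surjective (UniversalEnvelopingAlgebra.mkAlgHom F Ls) :=
      Quotient.mk''_surjective
    obtain ⟨c, rfl⟩ := hs b
    induction c using TensorAlgebra.induction with
    | algebraMap r => rw [AlgHom.commutes, AlgHom.commutes]; exact S.algebraMap_mem r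
    | ι l => exact hl l
    | mul a b ha hb => rw [map_mul, map_mul]; exact S.mul_mem ha hb
    | add a b ha hb => rw [map_add, map_add]; exact S.add_mem ha hb

/-- The natural representation. -/
noncomputable def piU : U →ₐ[F] Mx :=
  RingQuot.liftAlgHom F ⟨UniversalEnvelopingAlgebra.lift F Ls.incl, by
    rintro _ _ ⟨a, rfl, rfl⟩
    rw [map_pow, UniversalEnvelopingAlgebra.lift_ι_apply, UniversalEnvelopingAlgebra.lift_ι_apply,
      sq]
    rfl⟩

/-- The trivial representation. -/
noncomputable def epU : U →ₐ[F] Mx :=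
  RingQuot.liftAlgHom F ⟨UniversalEnvelopingAlgebra.lift F (0 : Ls →ₗ⁅F⁆ Mx), by
    rintro _ _ ⟨a, rfl, rfl⟩
    rw [map_pow, UniversalEnvelopingAlgebra.lift_ι_apply, UniversalEnvelopingAlgebra.lift_ι_apply]
    simp⟩

lemma piU_em (a : Ls) : piU (em a) = a.1 := by
  unfold piU em
  rw [RingQuot.liftAlgHom_mkAlgHom_apply, UniversalEnvelopingAlgebra.lift_ι_apply]
  rfl

lemma epU_em (a : Ls) : epU (em a) = 0 := by
  unfold epU em
  rw [RingQuot.liftAlgHom_mkAlgHom_apply, UniversalEnvelopingAlgebra.lift_ι_apply]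
  rfl

lemma cube (k : U) (h1 : piU k = 0) (h2 : epU k = 0) : k ^ 3 = 0 :=
  cube_zero rels piU epU (piU_em x0) (piU_em y0) (piU_em z0) (epU_em _) (epU_em _) (epU_em _) k h1 h2

lemma not_nil (k : U) (v : Fin 3 → F) (hv : v ≠ 0) (h : Matrix.mulVec (piU k) v = v) (t : ℕ) :
    k ^ t ≠ 0 := by
  intro e
  have h1 : ∀ n : ℕ, Matrix.mulVec (piU k ^ n) v = v := by
    intro n
    induction n with
    | zero => simp
    | succ n ih => rw [pow_succ, ← Matrix.mulVec_mulVec, h, ih]
  have h2 := h1 t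
  rw [← map_pow, e, map_zero, Matrix.zero_mulVec] at h2
  exact hv h2.symm

lemma st2 : Matrix.mulVec (St 2 ![X, Y]) ![1, 1, 0] = ![1, 1, 0] := by
  simp only [St_succ, St_zero]
  decide +kernel

lemma st4 : Matrix.mulVec (St 4 ![Z * X * (Y * Z) * (X * Y), X * Y, Y * Z, Z * X]) ![0, 1, 0]
    = ![0, 1, 0] := by
  simp only [St_succ, St_zero]
  decide +kernel

/-- The negation of the preceding statement: For every prime p, field F of char p, Lie p-algebra L and PI non-unital subalgebra R of u(L): if n is the least positive integer such that some power of the standard polynomial S_2n vanishes on R, then n is a power of p. -/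
theorem result :
    ¬ (∀ (p : ℕ), p.Prime → ∀ (F : Type) [Field F] [CharP F p] (L : Type) [LieRing L] [LieAlgebra F L]
    (f : L → L),
    (∀ (a : F) (x : L), f (a • x) = a ^ p • f x) →
    (∀ x y : L, (LieAlgebra.ad F L x ^ p) y = ⁅f x, y⁆) →
    (∀ x y : L,
      UniversalEnvelopingAlgebra.ι F (f (x + y)) - UniversalEnvelopingAlgebra.ι F (f x)
        - UniversalEnvelopingAlgebra.ι F (f y)
      = (UniversalEnvelopingAlgebra.ι F x + UniversalEnvelopingAlgebra.ι F y) ^ p
        - UniversalEnvelopingAlgebra.ι F x ^ p - UniversalEnvelopingAlgebra.ι F y ^ p) →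
    ∀ R : NonUnitalSubalgebra F (RingQuot (fun a b : UniversalEnvelopingAlgebra F L =>
        ∃ x : L, a = UniversalEnvelopingAlgebra.ι F x ^ p ∧ b = UniversalEnvelopingAlgebra.ι F (f x))),
    (∃ m : ℕ, ∃ φ : FreeAlgebra F (Fin m), φ ≠ 0 ∧
      ∀ r : Fin m → RingQuot (fun a b : UniversalEnvelopingAlgebra F L =>
        ∃ x : L, a = UniversalEnvelopingAlgebra.ι F x ^ p ∧ b = UniversalEnvelopingAlgebra.ι F (f x)),
        (∀ i, r i ∈ R) → FreeAlgebra.lift F r φ = 0) →
    ∀ n : ℕ, 1 ≤ n →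
      (∃ t : ℕ, 1 ≤ t ∧
        ∀ r : Fin (2 * n) → RingQuot (fun a b : UniversalEnvelopingAlgebra F L =>
          ∃ x : L, a = UniversalEnvelopingAlgebra.ι F x ^ p ∧ b = UniversalEnvelopingAlgebra.ι F (f x)),
          (∀ i, r i ∈ R) →
          (∑ σ : Equiv.Perm (Fin (2 * n)),
            ((Equiv.Perm.sign σ : ℤˣ) : ℤ) • (List.ofFn fun i => r (σ i)).prod) ^ t = 0) →
      (∀ m : ℕ, 1 ≤ m → m < n →
        ¬ ∃ t : ℕ, 1 ≤ t ∧
          ∀ r : Fin (2 * m) → RingQuot (fun a b : UniversalEnvelopingAlgebra F L =>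
            ∃ x : L, a = UniversalEnvelopingAlgebra.ι F x ^ p ∧ b = UniversalEnvelopingAlgebra.ι F (f x)),
            (∀ i, r i ∈ R) →
            (∑ σ : Equiv.Perm (Fin (2 * m)),
              ((Equiv.Perm.sign σ : ℤˣ) : ℤ) • (List.ofFn fun i => r (σ i)).prod) ^ t = 0) →
      ∃ k : ℕ, n = p ^ k) := by
  intro h
  obtain ⟨k, hk⟩ := h 2 Nat.prime_two F Ls pm
    (fun a x => Subtype.ext (by
      change (a • x.1) * (a • x.1) = a ^ 2 • (x.1 * x.1)
      rw [smul_mul_smul_comm, sq]))
    (fun x y => Subtype.ext (by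
      change x.1 * (x.1 * y.1 - y.1 * x.1) - (x.1 * y.1 - y.1 * x.1) * x.1
        = x.1 * x.1 * y.1 - y.1 * (x.1 * x.1)
      simp only [sub_eq_add_neg, neg_self, mul_add, add_mul, mul_assoc]
      rw [add_assoc, ← add_assoc (x.1 * (y.1 * x.1)), two_zero, zero_add]))
    (fun x y => by
      have e : pm (x + y) - pm x - pm y = ⁅x, y⁆ := Subtype.ext (by
        change (x.1 + y.1) * (x.1 + y.1) - x.1 * x.1 - y.1 * y.1 = x.1 * y.1 - y.1 * x.1
        rw [sub_eq_add_neg (x.1 * y.1), neg_self]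
        noncomm_ring)
      rw [← map_sub, ← map_sub, e, LieHom.map_lie, LieRing.of_associative_ring_bracket,
        sub_eq_add_neg (_ * _), neg_self]
      noncomm_ring)
    ⊤
    (by
      obtain ⟨i, j, hij, he⟩ := Finite.exists_ne_map_eq_of_infinite
        (fun n : ℕ => fun a : Mx => a ^ n)
      refine ⟨1, (FreeAlgebra.ι F 0 ^ i - FreeAlgebra.ι F 0 ^ j) ^ 3, fun e => ?_, fun r _ => ?_⟩
      · have := congrArg (FreeAlgebra.lift F (fun _ : Fin 1 => (Polynomial.X : Polynomial F))) e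
        simp only [map_pow, map_sub, FreeAlgebra.lift_ι_apply, map_zero] at this
        have h2 := sub_eq_zero.mp (pow_eq_zero_iff (by norm_num) |>.mp this)
        have h3 := congrArg Polynomial.natDegree h2
        simp only [Polynomial.natDegree_X_pow] at h3
        exact hij h3
      · simp only [map_pow, map_sub, FreeAlgebra.lift_ι_apply]
        apply cube
        · rw [map_sub, map_pow, map_pow, sub_eq_zero]; exact congrFun he _
        · rw [map_sub, map_pow, map_pow, sub_eq_zero]; exact congrFun he _)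
    3 (by norm_num)
    ⟨3, by norm_num, fun r _ => by
      rw [signed_eq]
      apply cube
      · rw [map_St]; exact St_six _
      · rw [map_St]; exact St_six _⟩
    (by
      rintro m h1 h2 ⟨t, -, ht⟩
      have hx := piU_em x0
      have hy := piU_em y0
      have hz := piU_em z0
      interval_cases m
      · have := ht ![em x0, em y0] (fun _ => trivial)
        rw [signed_eq] at this
        refine not_nil _ ![1, 1, 0] (by decide) ?_ t this
        have e : (fun i => piU (![em x0, em y0] i)) = ![X, Y] := by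
          funext i
          fin_cases i
          · exact hx
          · exact hy
        rw [map_St]
        exact (congrArg (fun r => Matrix.mulVec (St 2 r) ![1, 1, 0]) e).trans st2
      · have := ht ![em z0 * em x0 * (em y0 * em z0) * (em x0 * em y0), em x0 * em y0,
          em y0 * em z0, em z0 * em x0] (fun _ => trivial)
        rw [signed_eq] at this
        refine not_nil _ ![0, 1, 0] (by decide) ?_ t this
        have e : (fun i => piU (![em z0 * em x0 * (em y0 * em z0) * (em x0 * em y0), em x0 * em y0,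
            em y0 * em z0, em z0 * em x0] i))
            = ![Z * X * (Y * Z) * (X * Y), X * Y, Y * Z, Z * X] := by
          funext i
          fin_cases i <;> simp [piU_em, x0, y0, z0]
        rw [map_St]
        exact (congrArg (fun r => Matrix.mulVec (St 4 r) ![0, 1, 0]) e).trans st4)
  rcases k with _ | k
  · norm_num at hk
  · rw [pow_succ] at hk
    omega

end Pool.Agent.S03052
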