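import Pool.Statements.S03082
import Pool.Agent.H9.DLim

set_option autoImplicit false
open CategoryTheory CategoryTheory.Limits
open Pool Pool.MP_cd2797_al

namespace Pool.Agent.S03082

/-- The negation of the preceding statement: For any ring and any class C of modules, if the class of direct limits of modules from C is closed under direct summands, then it is closed under direct limits over directed sets. -/
theorem result :
    ¬ (∀ (R : Type) [Ring R] (C : Set (ModuleCat.{0} R)) (L : ModuleCat.{0} R → Prop),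
    (∀ M : ModuleCat.{0} R, L M ↔
      ∃ (ι : Type) (_ : Preorder ι) (_ : IsDirected ι (· ≤ ·)) (_ : Nonempty ι)
        (F : ι ⥤ ModuleCat.{0} R) (c : Cocone F),
        Nonempty (IsColimit c) ∧ Nonempty (c.pt ≅ M) ∧ ∀ i, F.obj i ∈ C) →
    (∀ (M N : ModuleCat.{0} R) (s : N ⟶ M) (r : M ⟶ N), s ≫ r = 𝟙 N → L M → L N) →
    ∀ (ι : Type) (_ : Preorder ι) (_ : IsDirected ι (· ≤ ·)) (_ : Nonempty ι)
      (F : ι ⥤ ModuleCat.{0} R) (c : Cocone F),
      Nonempty (IsColimit c) → (∀ i, L (F.obj i)) → L c.pt) := by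
  intro H
  open Pool.Agent.H9.DLim in
  have hT : Monotone (fun n => ⋃ j, S n j) := by
    intro n m h y hy
    obtain ⟨j, hj⟩ := Set.mem_iUnion.1 hy
    exact Set.mem_iUnion.2 ⟨_, hj.1.trans h, le_rfl⟩
  open Pool.Agent.H9.DLim in
  obtain ⟨ι, _, _, _, F, c, ⟨hc⟩, ⟨e⟩, hF⟩ := H R C _ (fun M => Iff.rfl) (by
    rintro M N s r hsr ⟨ι, _, _, _, F, c, ⟨hc⟩, ⟨e⟩, hF⟩
    have hM : Good M := good_colim (IsColimit.extendIso e.hom hc) (fun i => (hF i).1)
    have h1 : ∀ x : N, r (s x) = x := fun x => ConcreteCategory.congr_hom hsr x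
    by_cases h : ∀ x : N, x = 0
    · refine ⟨Unit, inferInstance, inferInstance, inferInstance, (Functor.const Unit).obj N,
        _, ⟨isColimitConstCocone Unit N⟩, ⟨Iso.refl _⟩, fun _ => ⟨⟨fun q q' x x' _ _ => ?_,
          fun x hx => absurd (h x) hx⟩, Or.inl h⟩⟩
      exact (h _).trans (h _).symm
    · obtain ⟨x, hx⟩ := not_forall.1 h
      have h2 : (r ≫ s) (s x) ≠ 0 := fun e' => hx (by
        have e2 : s (r (s x)) = 0 := e'
        rw [← h1 x, ← h1 (r (s x)), e2, map_zero])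
      have h3 : r ≫ s = 𝟙 M := by
        ext z
        have := inj_of_ne hM hM (r ≫ s) _ h2 (s (r z) - z) (by
          show s (r (s (r z) - z)) = 0
          rw [map_sub, h1, sub_self, map_zero])
        exact sub_eq_zero.1 this
      exact ⟨ι, _, ‹_›, ‹_›, F, c, ⟨hc⟩, ⟨e ≪≫ ⟨r, s, h3, hsr⟩⟩, hF⟩)
    ℕ inferInstance inferInstance inferInstance _ (cc _ hT) ⟨cc_colim _ hT⟩ (fun n => by
      have hS : Monotone (S n) := fun a b h y hy => ⟨hy.1, hy.2.trans h⟩
      exact ⟨ℕ, inferInstance, inferInstance, inferInstance, _, cc _ hS, ⟨cc_colim _ hS⟩,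
        ⟨Iso.refl _⟩, fun j => ⟨good_M _, Or.inr ⟨n, j, supp_M _⟩⟩⟩)
  open Pool.Agent.H9.DLim in
  refine supp_colim (IsColimit.extendIso e.hom hc) hF ((supp_M _).trans ?_)
  exact Set.eq_univ_of_forall fun y => Set.mem_iUnion.2 ⟨y.2, Set.mem_iUnion.2 ⟨_, le_rfl, le_rfl⟩⟩

end Pool.Agent.S03082
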