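import Pool.Statements.S03098

set_option autoImplicit false
open Pool Pool.MP_ce123d_al

namespace Pool.Agent.S03098

/-- Elements: units `g n e` (the group Z x C2), two families `x`, `y`, a swapped pair `w`,
a sink `z` and a zero `o`. -/
inductive E : Type
  | g (n : ℤ) (e : Bool) : E
  | x (j : ℤ) : E
  | y (k : ℤ) : E
  | w (e : Bool) : E
  | z : E
  | o : E

def A (n : ℤ) : Prop := ∃ m : ℕ, n = 2 ^ m

open Classical in
noncomputable def mul : E → E → E
  | .g n e, .g m d => .g (n + m) (xor e d)
  | .g _ _, .x j => .x j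
  | .g n _, .y k => .y (n + k)
  | .g _ _, .w d => .w d
  | .g _ _, .z => .z
  | .x j, .g n _ => .x (j + n)
  | .x j, .y k => if A (j + k) then .z else .o
  | .y k, .g _ _ => .y k
  | .w d, .g _ e => .w (xor d e)
  | .z, .g _ _ => .z
  | _, _ => .o

theorem mul_assoc' (a b c : E) : mul (mul a b) c = mul a (mul b c) := by
  cases a <;> cases b <;> cases c <;> simp only [mul, add_assoc, Bool.xor_assoc] <;>
    first | rfl | (split_ifs <;> first | rfl | simp_all [add_assoc])

noncomputable instance : Semigroup E where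
  mul := mul
  mul_assoc := mul_assoc'

theorem mul_def (a b : E) : a * b = mul a b := rfl

def par (n : ℤ) : Bool := decide (n % 2 = 1)

theorem par_add (n m : ℤ) : par (n + m) = xor (par n) (par m) := by
  unfold par
  rcases Int.emod_two_eq_zero_or_one n with h | h <;>
  rcases Int.emod_two_eq_zero_or_one m with h' | h' <;>
  simp [Int.add_emod, h, h']

def inT : E → Prop
  | .g n e => e = par n
  | _ => True

def T : Subsemigroup E where
  carrier := {a | inT a}
  mul_mem' := by
    intro a b ha hb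
    cases a <;> cases b <;> simp only [Set.mem_ofPred_eq, mul_def, mul, inT] at ha hb ⊢ <;>
      first | trivial | (rw [ha, hb, par_add]) | (split_ifs <;> trivial)

theorem mem_T (a : E) : a ∈ T ↔ inT a := Iff.rfl

def C (n : ℤ) : T := ⟨.g n (par n), rfl⟩
def X (j : ℤ) : T := ⟨.x j, trivial⟩
def Y (j : ℤ) : T := ⟨.y j, trivial⟩
def W (e : Bool) : T := ⟨.w e, trivial⟩
def Z : T := ⟨.z, trivial⟩
def O : T := ⟨.o, trivial⟩

theorem T_cases (t : T) : (∃ n, t = C n) ∨ (∃ j, t = X j) ∨ (∃ j, t = Y j) ∨ (∃ e, t = W e) ∨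
    t = Z ∨ t = O := by
  obtain ⟨a, ha⟩ := t
  cases a with
  | g n e =>
    left
    refine ⟨n, ?_⟩
    have : e = par n := ha
    subst this
    rfl
  | x j => exact Or.inr (Or.inl ⟨j, rfl⟩)
  | y j => exact Or.inr (Or.inr (Or.inl ⟨j, rfl⟩))
  | w e => exact Or.inr (Or.inr (Or.inr (Or.inl ⟨e, rfl⟩)))
  | z => exact Or.inr (Or.inr (Or.inr (Or.inr (Or.inl rfl))))
  | o => exact Or.inr (Or.inr (Or.inr (Or.inr (Or.inr rfl))))

theorem CC (n m : ℤ) : C n * C m = C (n + m) := by
  apply Subtype.ext
  simp [C, mul_def, mul, par_add]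

theorem XC (n m : ℤ) : X n * C m = X (n + m) := rfl
theorem CY (n m : ℤ) : C n * Y m = Y (n + m) := rfl
theorem YC (n m : ℤ) : Y n * C m = Y n := rfl
theorem WC (e : Bool) (m : ℤ) : W e * C m = W (xor e (par m)) := rfl

theorem XY_Z (n m : ℤ) : X n * Y m = Z ↔ A (n + m) := by
  rw [Subtype.ext_iff]
  simp only [X, Y, Z, MulMemClass.coe_mul, mul_def, mul]
  split_ifs with h <;> simp [h]

theorem A_odd (k c : ℤ) (hk : k % 2 = 1) (h1 : A (k + c)) (h2 : A (2 * k + c))
    (h4 : A (4 * k + c)) : k = 1 := by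
  obtain ⟨a, ha⟩ := h1
  obtain ⟨b, hb⟩ := h2
  obtain ⟨d, hd⟩ := h4
  have key : ∀ m : ℕ, (2 : ℤ) ^ m = 1 ∨ (2 : ℤ) ^ m = 2 ∨ (4 ≤ (2 : ℤ) ^ m ∧ (2 : ℤ) ^ m % 4 = 0) := by
    intro m
    match m with
    | 0 => left; rfl
    | 1 => right; left; rfl
    | (m + 2) =>
      right; right
      have : (1 : ℤ) ≤ 2 ^ m := one_le_pow₀ (by norm_num)
      rw [pow_add]
      constructor
      · omega
      · omega
  have ka := key a
  have kb := key b
  have kd := key d
  omega

theorem cohopf (f : T →ₙ* T) (hf : Function.Injective f) : Function.Surjective f := by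
  have idem : ∀ t : T, t * t = t → t = C 0 ∨ t = O := by
    intro t ht
    rcases T_cases t with ⟨n, rfl⟩ | ⟨n, rfl⟩ | ⟨n, rfl⟩ | ⟨n, rfl⟩ | rfl | rfl
    · left
      rw [CC, Subtype.ext_iff] at ht
      simp only [C, E.g.injEq] at ht
      have : n = 0 := by omega
      rw [this]
    all_goals first | (right; rfl) | (exfalso; rw [Subtype.ext_iff] at ht; cases ht)
  have one_mul' : ∀ t : T, C 0 * t = t := by
    intro t
    rcases T_cases t with ⟨n, rfl⟩ | ⟨n, rfl⟩ | ⟨n, rfl⟩ | ⟨n, rfl⟩ | rfl | rfl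
    · rw [CC, zero_add]
    · rfl
    · rw [CY, zero_add]
    all_goals rfl
  have hO : f O = O := by
    rcases idem (f O) (by rw [← map_mul]; rfl) with h | h
    · exfalso
      have h1 : f Z = f O := by
        rw [← one_mul' (f Z), ← h, ← map_mul]; rfl
      have := hf h1
      cases (Subtype.ext_iff.1 this)
    · exact h
  have h1 : f (C 0) = C 0 := by
    rcases idem (f (C 0)) (by rw [← map_mul, CC, add_zero]) with h | h
    · exact h
    · exfalso
      have := hf (h.trans hO.symm)
      cases (Subtype.ext_iff.1 this)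
  have unit : ∀ s t : T, s * t = C 0 → ∃ k, s = C k ∧ t = C (-k) := by
    intro s t h
    rcases T_cases s with ⟨n, rfl⟩ | ⟨n, rfl⟩ | ⟨n, rfl⟩ | ⟨n, rfl⟩ | rfl | rfl <;>
    rcases T_cases t with ⟨m, rfl⟩ | ⟨m, rfl⟩ | ⟨m, rfl⟩ | ⟨m, rfl⟩ | rfl | rfl
    · rw [CC, Subtype.ext_iff] at h
      simp only [C, E.g.injEq] at h
      refine ⟨n, rfl, ?_⟩
      have : m = -n := by omega
      rw [this]
    all_goals
      exfalso
      rw [Subtype.ext_iff] at h
      simp only [C, X, Y, Z, W, O, MulMemClass.coe_mul, mul_def, mul] at h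
      first | cases h | (split_ifs at h)
  obtain ⟨k, hk, hk'⟩ := unit (f (C 1)) (f (C (-1))) (by rw [← map_mul, CC, ← h1]; rfl)
  have hC : ∀ n : ℤ, f (C n) = C (k * n) := by
    intro n
    induction n using Int.induction_on with
    | zero => rw [h1, mul_zero]
    | succ n ih => rw [← CC, map_mul, ih, hk, CC]; congr 1; ring
    | pred n ih => rw [sub_eq_add_neg, ← CC, map_mul, ih, hk', CC]; congr 1; ring
  have nonunit : ∀ t : T, t * t = O → ∀ n, f t ≠ C n := by
    intro t ht n h
    have : f (t * t) = O := by rw [ht, hO]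
    rw [map_mul, h, CC] at this
    cases (Subtype.ext_iff.1 this)
  have hXY : X 0 * Y 1 = Z := (XY_Z 0 1).2 ⟨0, by norm_num⟩
  have hZO : f Z ≠ O := by
    intro h
    have := hf (h.trans hO.symm)
    cases (Subtype.ext_iff.1 this)
  have prodz : ∀ s t : T, (∀ n, s ≠ C n) → (∀ n, t ≠ C n) → s * t ≠ O →
      ∃ a b, s = X a ∧ t = Y b ∧ s * t = Z := by
    intro s t hs ht h
    rcases T_cases s with ⟨n, rfl⟩ | ⟨n, rfl⟩ | ⟨n, rfl⟩ | ⟨n, rfl⟩ | rfl | rfl <;>
    rcases T_cases t with ⟨m, rfl⟩ | ⟨m, rfl⟩ | ⟨m, rfl⟩ | ⟨m, rfl⟩ | rfl | rfl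
    all_goals first
      | exact absurd rfl (hs _)
      | exact absurd rfl (ht _)
      | exact absurd rfl h
      | skip
    refine ⟨n, m, rfl, rfl, ?_⟩
    by_contra h'
    apply h
    rw [XY_Z] at h'
    apply Subtype.ext
    simp [X, Y, O, mul_def, mul, h']
  obtain ⟨a, b, hX0, hY1, hZ⟩ := prodz (f (X 0)) (f (Y 1)) (nonunit _ rfl) (nonunit _ rfl)
    (by rw [← map_mul, hXY]; exact hZO)
  rw [← map_mul, hXY] at hZ
  have hX : ∀ j, f (X j) = X (a + k * j) := by
    intro j
    have : X j = X 0 * C j := by rw [XC, zero_add]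
    rw [this, map_mul, hX0, hC, XC]
  have hY : ∀ j, f (Y j) = Y (k * (j - 1) + b) := by
    intro j
    have : Y j = C (j - 1) * Y 1 := by rw [CY]; congr 1; ring
    rw [this, map_mul, hY1, hC, CY]
  have hW : ∀ e, ∃ d, f (W e) = W d ∧ k % 2 = 1 := by
    intro e
    have e1 : f (W e) * C k ≠ f (W e) := by
      intro h
      rw [← hk, ← map_mul] at h
      have := Subtype.ext_iff.1 (hf h)
      cases e <;> simp [W, C, mul_def, mul, par] at this
    have e2 : f (W e) * C (k * 2) = f (W e) := by
      rw [← hC, ← map_mul]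
      congr 1
      apply Subtype.ext
      cases e <;> simp [W, C, mul_def, mul, par]
    rcases T_cases (f (W e)) with ⟨n, h⟩ | ⟨n, h⟩ | ⟨n, h⟩ | ⟨n, h⟩ | h | h
    · exact absurd h (nonunit _ rfl n)
    · exfalso
      rw [h, XC] at e1 e2
      have := Subtype.ext_iff.1 e2
      simp only [X, E.x.injEq] at this
      have hk0 : k = 0 := by omega
      apply e1
      rw [hk0, add_zero]
    · exfalso
      apply e1
      rw [h, YC]
    · refine ⟨n, h, ?_⟩
      by_contra hk2
      apply e1
      rw [h, WC]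
      simp [par, hk2]
    · exfalso
      apply e1
      rw [h]; rfl
    · exfalso
      apply e1
      rw [h]; rfl
  obtain ⟨d, hd, hodd⟩ := hW false
  have hA : ∀ j, A j → A (k * j + (a + b - k)) := by
    intro j hj
    have : X 0 * Y j = Z := (XY_Z 0 j).2 (by rwa [zero_add])
    have h2 := congrArg f this
    rw [map_mul, hX, hY, hZ, XY_Z] at h2
    convert h2 using 1
    ring
  have hk1 : k = 1 := by
    apply A_odd k (a + b - k) hodd
    · simpa using hA 1 ⟨0, by norm_num⟩
    · have := hA 2 ⟨1, by norm_num⟩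
      rwa [mul_comm] at this
    · have := hA 4 ⟨2, by norm_num⟩
      rwa [mul_comm] at this
  subst hk1
  intro t
  rcases T_cases t with ⟨n, rfl⟩ | ⟨n, rfl⟩ | ⟨n, rfl⟩ | ⟨n, rfl⟩ | rfl | rfl
  · exact ⟨C n, by rw [hC, one_mul]⟩
  · exact ⟨X (n - a), by rw [hX]; congr 1; ring⟩
  · exact ⟨Y (n - b + 1), by rw [hY]; congr 1; ring⟩
  · by_cases hn : n = d
    · exact ⟨W false, by rw [hd, hn]⟩
    · refine ⟨W false * C 1, ?_⟩
      rw [map_mul, hd, hk, WC]
      congr 1
      cases n <;> cases d <;> simp_all [par]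
  · exact ⟨Z, hZ⟩
  · exact ⟨O, hO⟩

def phi : E → E
  | .g n e => .g (2 * n) e
  | .x j => .x (2 * j)
  | .y j => .y (2 * j)
  | .w e => .w e
  | .z => .z
  | .o => .o

theorem A_two (n : ℤ) : A (2 * n) ↔ A n := by
  constructor
  · rintro ⟨m, hm⟩
    cases m with
    | zero => simp at hm; omega
    | succ m => exact ⟨m, by rw [pow_succ] at hm; omega⟩
  · rintro ⟨m, rfl⟩
    exact ⟨m + 1, by ring⟩

noncomputable def phiHom : E →ₙ* E where
  toFun := phi
  map_mul' := by
    intro a b
    cases a <;> cases b <;> simp only [mul_def, mul, phi, ← mul_add, A_two]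
    split_ifs <;> first | rfl | simp_all [← mul_add, A_two]

theorem result :
    ¬ (∀ (S : Type) [Semigroup S] (T : Subsemigroup S),
      (∃ G : Finset S, Subsemigroup.closure (G : Set S) = T) →
      (∃ F : Finset S, ∀ u : S, u ∉ T → ∃ v ∈ F, v ∉ T ∧
        ((u = v ∨ ∃ t ∈ T, u = v * t) ∧ (v = u ∨ ∃ t ∈ T, v = u * t)) ∧
        ((u = v ∨ ∃ t ∈ T, u = t * v) ∧ (v = u ∨ ∃ t ∈ T, v = t * u))) →
      (∀ f : T →ₙ* T, Function.Injective f → Function.Surjective f) →
      ∀ f : S →ₙ* S, Function.Injective f → Function.Surjective f) := by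
  classical
  intro h
  have hs := h E T ?_ ?_ cohopf phiHom ?_
  · obtain ⟨a, ha⟩ := hs (.x 1)
    cases a <;> simp [phiHom, phi] at ha
    omega
  · refine ⟨{.g 1 true, .g (-1) true, .x 0, .y 0, .w false, .w true, .z, .o}, ?_⟩
    apply le_antisymm
    · rw [Subsemigroup.closure_le]
      intro a ha
      simp only [Finset.coe_insert, Finset.coe_singleton, Set.mem_insert_iff,
        Set.mem_singleton_iff] at ha
      rcases ha with rfl | rfl | rfl | rfl | rfl | rfl | rfl | rfl <;>
        first | trivial | (show _ = par _; decide)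
    · set K := Subsemigroup.closure
        ((({.g 1 true, .g (-1) true, .x 0, .y 0, .w false, .w true, .z, .o} : Finset E)) : Set E)
      have g1 : E.g 1 true ∈ K := Subsemigroup.subset_closure (by simp)
      have g2 : E.g (-1) true ∈ K := Subsemigroup.subset_closure (by simp)
      have gn : ∀ n : ℤ, E.g n (par n) ∈ K := by
        intro n
        induction n using Int.induction_on with
        | zero => exact K.mul_mem g1 g2
        | succ n ih =>
          have := K.mul_mem ih g1
          rw [par_add]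
          exact this
        | pred n ih =>
          have := K.mul_mem ih g2
          rw [sub_eq_add_neg, par_add]
          exact this
      intro a ha
      cases a with
      | g n e =>
        have : e = par n := ha
        subst this
        exact gn n
      | x j =>
        have := K.mul_mem (Subsemigroup.subset_closure (by simp) : E.x 0 ∈ K) (gn j)
        simpa [mul_def, mul] using this
      | y j =>
        have := K.mul_mem (gn j) (Subsemigroup.subset_closure (by simp) : E.y 0 ∈ K)
        simpa [mul_def, mul] using this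
      | w e => cases e <;> exact Subsemigroup.subset_closure (by simp)
      | z => exact Subsemigroup.subset_closure (by simp)
      | o => exact Subsemigroup.subset_closure (by simp)
  · refine ⟨{.g 0 true}, ?_⟩
    intro u hu
    cases u with
    | g n e =>
      have he : e = !par n := by
        have : ¬ e = par n := hu
        cases e <;> cases hp : par n <;> simp_all
      subst he
      have hneg : par (-n) = par n := by
        unfold par
        have : (-n) % 2 = n % 2 := by omega
        rw [this]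
      refine ⟨.g 0 true, by simp, by rw [mem_T]; simp [inT, par], ⟨Or.inr ⟨.g n (par n), rfl, ?_⟩,
        Or.inr ⟨.g (-n) (par (-n)), rfl, ?_⟩⟩, ⟨Or.inr ⟨.g n (par n), rfl, ?_⟩,
        Or.inr ⟨.g (-n) (par (-n)), rfl, ?_⟩⟩⟩ <;> simp [mul_def, mul, hneg]
    | x j => exact absurd trivial hu
    | y j => exact absurd trivial hu
    | w j => exact absurd trivial hu
    | z => exact absurd trivial hu
    | o => exact absurd trivial hu
  · intro a b hab
    cases a <;> cases b <;> simp [phiHom, phi] at hab ⊢ <;> exact hab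

end Pool.Agent.S03098
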