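import Pool.Statements.S03180
import Pool.Agent.H9.Lie2

set_option autoImplicit false
open Pool Pool.MP_d4d493_al

namespace Pool.Agent.S03180

/-- The negation of the preceding statement: Let L be a 2-step nilpotent Lie algebra over an algebraically closed field, where each non-central element's centralizer lies in a finite-dimensional subspace plus the center. Then every nonzero element lies outside some Lie ideal of finite codimension. -/
theorem result :
    ¬ (∀ (K : Type) (L : Type) [Field K] [IsAlgClosed K] [LieRing L] [LieAlgebra K L],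
      (∀ x y z : L, ⁅x, ⁅y, z⁆⁆ = 0) →
      (∀ x : L, (∃ y : L, ⁅x, y⁆ ≠ 0) →
        ∃ W : Submodule K L, FiniteDimensional K W ∧
          ∀ y : L, ⁅x, y⁆ = 0 →
            ∃ w ∈ W, ∃ z : L, (∀ u : L, ⁅z, u⁆ = 0) ∧ y = w + z) →
      ∀ x : L, x ≠ 0 →
        ∃ I : LieIdeal K L, x ∉ I ∧ FiniteDimensional K (L ⧸ (I : Submodule K L))) := by
  intro h
  obtain ⟨I, hI, hfin⟩ := h ℂ Pool.Agent.H9.Lie2.L Pool.Agent.H9.Lie2.nilp
    Pool.Agent.H9.Lie2.centralizer Pool.Agent.H9.Lie2.w0 Pool.Agent.H9.Lie2.w0_ne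
  exact hI (Pool.Agent.H9.Lie2.w0_mem I)

end Pool.Agent.S03180
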