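import Pool.Statements.S03186
-- import your own Pool.Agent.* helpers here

set_option autoImplicit false
open Pool Pool.MP_d5772f_al

namespace Pool.Agent.S03186

theorem general (L : Type) [Group L] [Finite L] (H : Subgroup L) (hH : Odd H.index) (x : L)
    (hx : ∀ h ∈ H, ¬ Odd (orderOf (x * h))) :
    ¬ (∀ (G : Type) [Group G] [Finite G] (T : Sylow 2 G) (t : G),
      t ∈ (T : Subgroup G) →
      (∀ x ∈ (T : Subgroup G), x * t = t * x) →
      orderOf t = 2 →
      ∀ g : G, ∃ c ∈ Subgroup.centralizer ({t} : Set G), Odd (orderOf (g * c))) := by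
  classical
  intro hall
  let N := (L ⧸ H) → Multiplicative (ZMod 2)
  let G := N ⋊[mulAutArrow] L
  haveI : Finite G := Finite.of_equiv _ (SemidirectProduct.equivProd (N := N) (G := L) (φ := mulAutArrow)).symm
  let w0 : L ⧸ H := ((1 : L) : L ⧸ H)
  let d : N := fun w => if w = w0 then Multiplicative.ofAdd 1 else 1
  let t : G := SemidirectProduct.inl d
  have hne : (Multiplicative.ofAdd (1 : ZMod 2)) ≠ 1 := by decide
  have hd1 : d ≠ 1 := by
    intro h
    have := congrFun h w0
    simp only [d, if_true] at this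
    exact hne this
  have hd2 : d * d = 1 := by
    funext w
    show d w * d w = 1
    simp only [d]
    split_ifs
    · decide
    · simp
  have ht2 : orderOf t = 2 := by
    haveI : Fact (Nat.Prime 2) := ⟨Nat.prime_two⟩
    apply orderOf_eq_prime
    · simp only [t]
      rw [← map_pow, pow_two, hd2, map_one]
    · intro h
      apply hd1
      apply SemidirectProduct.inl_injective (φ := (mulAutArrow : L →* MulAut N))
      rw [map_one]; exact h
  have hC : Subgroup.centralizer ({t} : Set G) = H.comap SemidirectProduct.rightHom := by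
    ext c
    rw [Subgroup.mem_centralizer_iff, Subgroup.mem_comap]
    simp only [Set.mem_singleton_iff, forall_eq]
    have key : t * c = c * t ↔ (mulAutArrow c.right : MulAut N) d = d := by
      have l1 : (t * c).left = d * c.left := by
        show d * (mulAutArrow (1 : L) : MulAut N) c.left = _
        rw [map_one]; rfl
      have l2 : (c * t).left = c.left * (mulAutArrow c.right : MulAut N) d := rfl
      constructor
      · intro h
        have := congrArg SemidirectProduct.left h
        rw [l1, l2, mul_comm d] at this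
        exact (mul_left_cancel this).symm
      · intro h
        apply SemidirectProduct.ext
        · rw [l1, l2, h, mul_comm]
        · show 1 * c.right = c.right * 1
          simp
    rw [key]
    have happ : ∀ w, (mulAutArrow c.right : MulAut N) d w = d (c.right⁻¹ • w) := fun w => rfl
    have hst : c.right⁻¹ • w0 = w0 ↔ c.right ∈ H := by
      simp only [w0]
      rw [MulAction.Quotient.smul_coe, smul_eq_mul, mul_one, QuotientGroup.eq]
      simp
    constructor
    · intro h
      have := congrFun h w0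
      rw [happ] at this
      show c.right ∈ H
      rw [← hst]
      by_contra hcon
      simp only [d, if_true, if_neg hcon] at this
      exact hne this.symm
    · intro h
      have h' : c.right⁻¹ • w0 = w0 := hst.2 h
      funext w
      rw [happ]
      simp only [d]
      have : c.right⁻¹ • w = w0 ↔ w = w0 := by
        constructor
        · intro h2
          exact MulAction.injective (c.right⁻¹) (h2.trans h'.symm)
        · rintro rfl; exact h'
      simp only [this]
  let C : Subgroup G := Subgroup.centralizer ({t} : Set G)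
  have hCi : C.index = H.index := by
    simp only [C]
    rw [hC]
    exact Subgroup.index_comap_of_surjective _ SemidirectProduct.rightHom_surjective
  have htC : t ∈ C := by
    rw [Subgroup.mem_centralizer_iff]
    rintro y rfl
    rfl
  haveI : Fact (Nat.Prime 2) := ⟨Nat.prime_two⟩
  have hp : IsPGroup 2 (Subgroup.zpowers (⟨t, htC⟩ : C)) := by
    apply IsPGroup.of_card (n := 1)
    rw [Nat.card_zpowers, ← Subgroup.orderOf_coe]
    simpa using ht2
  obtain ⟨Q, hQ⟩ := hp.exists_le_sylow
  have hQp : IsPGroup 2 ((Q : Subgroup C).map C.subtype) := Q.isPGroup'.map _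
  have hQi : ¬ 2 ∣ ((Q : Subgroup C).map C.subtype).index := by
    rw [Subgroup.index_map_subtype, hCi]
    intro h
    rcases (Nat.Prime.dvd_mul Nat.prime_two).1 h with h | h
    · exact Q.not_dvd_index h
    · exact (Nat.not_even_iff_odd.2 hH) (even_iff_two_dvd.2 h)
  obtain ⟨c, hc, hodd⟩ := hall G (hQp.toSylow hQi) t
    (by
      refine ⟨⟨t, htC⟩, hQ (Subgroup.mem_zpowers _), rfl⟩)
    (by
      rintro y ⟨z, -, rfl⟩
      exact ((Subgroup.mem_centralizer_iff.1 z.2) t rfl).symm)
    ht2 (SemidirectProduct.inr x)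
  rw [hC] at hc
  apply hx _ hc
  have h1 := orderOf_map_dvd (SemidirectProduct.rightHom : G →* L) (SemidirectProduct.inr x * c)
  rw [map_mul, SemidirectProduct.rightHom_inr] at h1
  exact hodd.of_dvd_nat h1

abbrev F := ZMod 37
instance : Fact (Nat.Prime 37) := ⟨by norm_num⟩

abbrev T4 := F × F × F × F
def toM (a : T4) : Matrix (Fin 2) (Fin 2) F := !![a.1, a.2.1; a.2.2.1, a.2.2.2]
def mu (a b : T4) : T4 :=
  (a.1 * b.1 + a.2.1 * b.2.2.1, a.1 * b.2.1 + a.2.1 * b.2.2.2,
   a.2.2.1 * b.1 + a.2.2.2 * b.2.2.1, a.2.2.1 * b.2.1 + a.2.2.2 * b.2.2.2)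
def e1 : T4 := (1, 0, 0, 1)
def pw (a : T4) : ℕ → T4
  | 0 => e1
  | n + 1 => mu (pw a n) a

theorem toM_mu (a b : T4) : toM (mu a b) = toM a * toM b := by
  simp [toM, mu, Matrix.mul_fin_two]
theorem toM_e1 : toM e1 = 1 := by
  simp [toM, e1, Matrix.one_fin_two]
theorem toM_pw (a : T4) (n : ℕ) : toM (pw a n) = toM a ^ n := by
  induction n with
  | zero => simp [pw, toM_e1]
  | succ n ih => rw [pw, toM_mu, ih, pow_succ]
theorem toM_inj {a b : T4} (h : toM a = toM b) : a = b := by
  have h1 := congrFun (congrFun h 0) 0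
  have h2 := congrFun (congrFun h 0) 1
  have h3 := congrFun (congrFun h 1) 0
  have h4 := congrFun (congrFun h 1) 1
  simp [toM] at h1 h2 h3 h4
  ext <;> assumption

abbrev I := Bool × Fin 4 × Fin 4
def u (i : Fin 4) : F := ![1, 6, 36, 31] i
def f (i : I) : T4 := if i.1 then (0, u i.2.1, u i.2.2, 0) else (u i.2.1, 0, 0, u i.2.2)
def iv (i : I) : I := if i.1 then (true, -i.2.2, -i.2.1) else (false, -i.2.1, -i.2.2)
def ml (i j : I) : I :=
  if i.1 then (!j.1, i.2.1 + j.2.2, i.2.2 + j.2.1) else (j.1, i.2.1 + j.2.1, i.2.2 + j.2.2)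

theorem f_iv : ∀ i, mu (f i) (f (iv i)) = e1 ∧ mu (f (iv i)) (f i) = e1 := by decide +kernel
theorem f_ml : ∀ i j, mu (f i) (f j) = f (ml i j) := by decide +kernel
theorem f_inj : ∀ i j, f i = f j → i = j := by decide +kernel
theorem f_ord : ∀ i, ∃ k ∈ [4, 6, 9, 18, 76], pw (mu (2, 10, 14, 15) (f i)) k ≠ e1 ∧
    pw (mu (2, 10, 14, 15) (f i)) (k * 2) = e1 := by decide +kernel

def g (i : I) : GL (Fin 2) F :=
  ⟨toM (f i), toM (f (iv i)), by rw [← toM_mu, (f_iv i).1, toM_e1],
    by rw [← toM_mu, (f_iv i).2, toM_e1]⟩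

def x0 : GL (Fin 2) F :=
  ⟨toM (2, 10, 14, 15), toM (15, -10, -14, 2),
    by rw [← toM_mu, ← toM_e1]; congr 1,
    by rw [← toM_mu, ← toM_e1]; congr 1⟩

def H : Subgroup (GL (Fin 2) F) where
  carrier := Set.range g
  one_mem' := ⟨(false, 0, 0), Units.ext toM_e1⟩
  mul_mem' := by
    rintro _ _ ⟨i, rfl⟩ ⟨j, rfl⟩
    refine ⟨ml i j, Units.ext ?_⟩
    show toM (f (ml i j)) = toM (f i) * toM (f j)
    rw [← toM_mu, f_ml]
  inv_mem' := by
    rintro _ ⟨i, rfl⟩
    exact ⟨iv i, Units.ext rfl⟩

theorem card_H : Nat.card H = 32 := by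
  have hinj : Function.Injective g := by
    intro i j h
    exact f_inj i j (toM_inj (congrArg Units.val h))
  have : Nat.card H = Nat.card (Set.range g) := rfl
  rw [this, Nat.card_range_of_injective hinj]
  simp

theorem index_H : Odd H.index := by
  have h1 := H.card_mul_index
  rw [card_H, Matrix.card_GL_field] at h1
  simp only [ZMod.card, Fin.prod_univ_two] at h1
  norm_num at h1
  have : H.index = 56943 := by omega
  rw [this]
  decide

theorem even_H : ∀ h ∈ H, ¬ Odd (orderOf (x0 * h)) := by
  rintro _ ⟨i, rfl⟩ hodd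
  obtain ⟨k, -, hk1, hk2⟩ := f_ord i
  have hv : ∀ n, ((x0 * g i) ^ n).val = toM (pw (mu (2, 10, 14, 15) (f i)) n) := by
    intro n
    rw [toM_pw, toM_mu, Units.val_pow_eq_pow_val]
    rfl
  haveI : Fact (Nat.Prime 2) := ⟨Nat.prime_two⟩
  have h2 : orderOf ((x0 * g i) ^ k) = 2 := by
    apply orderOf_eq_prime
    · rw [← pow_mul]
      apply Units.ext
      rw [hv, hk2, toM_e1]; rfl
    · intro h
      apply hk1
      apply toM_inj
      rw [← hv, h, toM_e1]; rfl
  have h3 := orderOf_pow_dvd (x := x0 * g i) k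
  rw [h2] at h3
  exact (Nat.not_even_iff_odd.2 hodd) (even_iff_two_dvd.2 h3)

/-- The negation of the preceding statement: For every finite group G, Sylow 2-subgroup T and involution t central in T, every left coset g·C_G(t) of the centralizer of t contains an element of odd order. -/
theorem result :
    ¬ (∀ (G : Type) [Group G] [Finite G] (T : Sylow 2 G) (t : G),
      t ∈ (T : Subgroup G) →
      (∀ x ∈ (T : Subgroup G), x * t = t * x) →
      orderOf t = 2 →
      ∀ g : G, ∃ c ∈ Subgroup.centralizer ({t} : Set G), Odd (orderOf (g * c))) := by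
  exact general _ H index_H x0 even_H

end Pool.Agent.S03186
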