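import Pool.Statements.S03202

set_option autoImplicit false
open Pool Pool.MP_d69214_al

namespace Pool.Agent.S03202

open Polynomial
open scoped commutatorElement

section
variable {K : Type} [Field K]

abbrev G (K : Type) [Field K] := Matrix.SpecialLinearGroup (Fin 2) K

lemma mul00 (a b : G K) (i j : Fin 2) : (a * b) i j = a i 0 * b 0 j + a i 1 * b 1 j := by
  simp [Matrix.mul_apply, Fin.sum_univ_two]

lemma det2 (a : G K) : a 0 0 * a 1 1 - a 0 1 * a 1 0 = 1 := by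
  have := a.det_coe; rwa [Matrix.det_fin_two] at this

lemma ext2 {a b : G K} (h1 : a 0 0 = b 0 0) (h2 : a 0 1 = b 0 1) (h3 : a 1 0 = b 1 0)
    (h4 : a 1 1 = b 1 1) : a = b := by
  ext i j; fin_cases i <;> fin_cases j <;> assumption

lemma inv2 (a : G K) : a⁻¹ 0 0 = a 1 1 ∧ a⁻¹ 0 1 = -a 0 1 ∧ a⁻¹ 1 0 = -a 1 0 ∧ a⁻¹ 1 1 = a 0 0 := by
  rw [Matrix.SpecialLinearGroup.SL2_inv_expl]; simp

def u (a : K) : G K := ⟨!![1, a; 0, 1], by simp [Matrix.det_fin_two]⟩

lemma u_eq (a : K) : u a 0 0 = 1 ∧ u a 0 1 = a ∧ u a 1 0 = 0 ∧ u a 1 1 = 1 := by simp [u]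

lemma u_add (a b : K) : u a * u b = u (a + b) := by
  apply ext2 <;> simp [mul00, u_eq, add_comm]

lemma up (h : G K) (h0 : h 1 0 = 0) (a : K) : h * u a * h⁻¹ = u (h 0 0 ^ 2 * a) := by
  have := det2 h
  rw [h0] at this
  apply ext2 <;> simp only [mul00, u_eq, inv2, h0]
  exacts [by linear_combination this, by ring, by ring, by linear_combination this]

lemma gen (H : Subgroup (G K)) (hu : ∀ a, u a ∈ H) (w : G K) (hw : w ∈ H) (h0 : w 0 0 = 0) :
    H = ⊤ := by
  have dw := det2 w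
  rw [h0] at dw
  have w1 : w 1 0 ≠ 0 := by rintro h; simp [h] at dw
  have key : ∀ g : G K, g 1 0 ≠ 0 → g ∈ H := fun g hg => by
    have d := det2 g
    have : g = u ((g 0 0 - 1) / g 1 0) * (w * u (-g 1 0 / w 1 0 ^ 2) * w⁻¹) *
        u ((g 1 1 - 1) / g 1 0) := by
      have e : w 0 1 = -1 / w 1 0 := by field_simp; linear_combination -dw
      apply ext2 <;> simp only [mul00, u_eq, inv2, h0, e] <;> field_simp
      exacts [by ring, by linear_combination (-w 1 0 ^ 2 * g 1 0) * d, by ring, by ring]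
    rw [this]
    exact mul_mem (mul_mem (hu _) (mul_mem (mul_mem hw (hu _)) (inv_mem hw))) (hu _)
  refine top_unique fun g _ => ?_
  by_cases hg : g 1 0 = 0
  swap; · exact key g hg
  refine (H.mul_mem_cancel_left hw).1 (key _ ?_)
  have d := det2 g
  rw [mul00, hg, mul_zero, add_zero]
  exact mul_ne_zero w1 (by rintro h; simp [h, hg] at d)

def cp (τ : K) : G K := ⟨!![0, -1; 1, τ], by simp [Matrix.det_fin_two]⟩

lemma tr_conj (x : G K) (τ : K) : (x * cp τ * x⁻¹) 0 0 + (x * cp τ * x⁻¹) 1 1 = τ := by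
  simp only [mul00, inv2]; simp [cp]; linear_combination τ * det2 x

lemma fix_mul (x : K) (n m : ℕ) (h : x ^ 2 ^ n = x) : x ^ 2 ^ (n * m) = x := by
  induction m with
  | zero => simp
  | succ m ih => rw [Nat.mul_succ, pow_add, pow_mul, ih, h]

variable [CharP K 2]

lemma two (K : Type) [Field K] [CharP K 2] : (2 : K) = 0 := CharTwo.two_eq_zero

lemma finord (hf : ∀ x : K, ∃ n, 0 < n ∧ x ^ 2 ^ n = x) (g : G K) : IsOfFinOrder g := by
  choose n n0 hn using hf
  let N := ∏ p : Fin 2 × Fin 2, n (g p.1 p.2)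
  have N0 : N ≠ 0 := Finset.prod_ne_zero_iff.2 fun p _ => (n0 _).ne'
  let M : Submonoid (G K) :=
    { carrier := {m | ∀ i j, m i j ^ 2 ^ N = m i j}
      one_mem' := fun i j => by fin_cases i <;> fin_cases j <;> simp
      mul_mem' := fun {a b} ha hb i j => by
        rw [mul00, add_pow_char_pow, mul_pow, mul_pow, ha, ha, hb, hb] }
  have fin : {x : K | x ^ 2 ^ N = x}.Finite :=
    ((X ^ 2 ^ N - X : K[X]).rootSet_finite K).subset fun x hx => by
      rw [mem_rootSet]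
      exact ⟨FiniteField.X_pow_card_pow_sub_X_ne_zero K N0 one_lt_two, by simpa [sub_eq_zero] using hx⟩
  refine finite_powers.1 (Set.Finite.subset (s := M) ?_ (Submonoid.powers_le.2 fun i j => ?_))
  · exact Set.Finite.of_finite_image ((Set.Finite.pi' fun _ => Set.Finite.pi' fun _ => fin).subset
      (by rintro _ ⟨m, hm, rfl⟩; exact hm)) (Subtype.val_injective.injOn)
  · obtain ⟨k, hk⟩ : n (g i j) ∣ N := Finset.dvd_prod_of_mem _ (Finset.mem_univ (i, j))
    rw [hk]; exact fix_mul _ _ _ (hn _)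

lemma swap (hf : ∀ x : K, ∃ n, 0 < n ∧ x ^ 2 ^ n = x) (H : Subgroup (G K)) (a : K) (a0 : a ≠ 0)
    (ha : u a ∈ H) (b : G K) (hb : b ∈ H) (bb : b * b = 1) (b0 : b 1 0 ≠ 0) :
    ∃ s ∈ H, s * s = 1 ∧ s * u a = b * s := by
  have aa : u a * u a = 1 := by rw [u_add, CharTwo.add_self_eq_zero]; apply ext2 <;> simp [u]
  have ia := inv_eq_of_mul_eq_one_right aa
  have ib := inv_eq_of_mul_eq_one_right bb
  have c1 : ∀ k : ℕ, u a * (u a * b) ^ k = ((u a * b) ^ k)⁻¹ * u a := fun k => by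
    rw [← inv_pow]
    exact (SemiconjBy.pow_right (by rw [SemiconjBy, mul_inv_rev, ia, ib, ← mul_assoc, aa, mul_assoc,
      aa, one_mul, mul_one]) k)
  have c2 : ∀ k : ℕ, b * (u a * b) ^ k = ((u a * b) ^ k)⁻¹ * b := fun k => by
    rw [← inv_pow]
    exact (SemiconjBy.pow_right (by rw [SemiconjBy, mul_inv_rev, ia, ib, mul_assoc]) k)
  have h1 := pow_orderOf_eq_one (u a * b)
  have h2 := (finord hf (u a * b)).orderOf_pos
  obtain ⟨k, hk | hk⟩ := Nat.even_or_odd' (orderOf (u a * b))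
  · refine absurd ?_ (pow_ne_one_of_lt_orderOf (x := u a * b) (n := k) (by omega) (by omega))
    rw [hk, two_mul, pow_add] at h1
    have e1 := c1 k
    have e2 := c2 k
    rw [inv_eq_of_mul_eq_one_right h1] at e1 e2
    generalize (u a * b) ^ k = z at *
    have f1 := congrArg (fun m : G K => m 0 0) e1
    have f2 := congrArg (fun m : G K => m 0 1) e1
    have f3 := congrArg (fun m : G K => m 0 0) e2
    have d := det2 z
    simp only [mul00, u_eq] at f1 f2 f3
    have z1 : z 1 0 = 0 := mul_left_cancel₀ a0 (by linear_combination f1)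
    have z2 : z 1 1 = z 0 0 := mul_left_cancel₀ a0 (by linear_combination f2)
    have z3 : z 0 1 = 0 := mul_left_cancel₀ b0 (by rw [z1] at f3; linear_combination -f3)
    have z4 : z 0 0 = 1 := by
      rw [z1, z2] at d
      exact sub_eq_zero.1 (pow_eq_zero_iff two_ne_zero |>.1
        (by linear_combination d + (1 - z 0 0) * two K))
    apply ext2 <;> simp [z1, z2, z3, z4]
  · refine ⟨(u a * b) ^ k * u a, mul_mem (pow_mem (mul_mem ha hb) _) ha, ?_, ?_⟩
    · rw [mul_assoc, ← mul_assoc (u a), c1, mul_assoc, aa, mul_one, mul_inv_cancel]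
    · rw [hk, two_mul, pow_succ, pow_add, mul_assoc] at h1
      rw [mul_assoc, aa, mul_one, ← mul_assoc, c2, mul_assoc, eq_inv_mul_iff_mul_eq]
      rw [← mul_assoc, mul_eq_one_iff_eq_inv, mul_inv_rev, ia, ib] at h1
      exact h1

lemma invo (hf : ∀ x : K, ∃ n, 0 < n ∧ x ^ 2 ^ n = x) (H : Subgroup (G K)) (a a' : K) (a0 : a ≠ 0)
    (a0' : a' ≠ 0) (ha : u a ∈ H) (ha' : u a' ∈ H) (h : G K) (hh : h ∈ H) (h0 : h 1 0 ≠ 0) :
    ∃ s ∈ H, s 1 0 ≠ 0 ∧ a * s 1 0 ^ 2 = a' * h 1 0 ^ 2 ∧ s 0 0 = h 0 0 / h 1 0 * s 1 0 ∧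
      s 1 1 = s 0 0 ∧ s 0 1 = (1 + s 0 0 ^ 2) / s 1 0 := by
  have d := det2 h
  obtain ⟨s, hs, ss, e⟩ := swap hf H a a0 ha (h * u a' * h⁻¹) (mul_mem (mul_mem hh ha') (inv_mem hh))
    (by rw [conj_mul, u_add, CharTwo.add_self_eq_zero, show u (0 : K) = 1 by apply ext2 <;> simp [u]]
        simp)
    (by simp only [mul00, u_eq, inv2]
        exact fun e => mul_ne_zero a0' (pow_ne_zero 2 h0) (by linear_combination -e))
  have s1 : s 1 1 = s 0 0 := by rw [← (inv2 s).1, inv_eq_of_mul_eq_one_right ss]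
  have ds := det2 s
  have f1 := congrArg (fun m : G K => m 1 0) e
  have f2 := congrArg (fun m : G K => m 1 1) e
  simp only [mul00, u_eq, inv2, s1] at f1 f2 ds
  have g1 : h 1 0 * s 0 0 = h 0 0 * s 1 0 := mul_left_cancel₀ (mul_ne_zero a0' h0)
    (by linear_combination f1 + s 1 0 * d)
  have s0 : s 1 0 ≠ 0 := fun z => by
    rw [z, mul_zero, mul_eq_zero] at g1
    simp [z, g1.resolve_left h0] at ds
  refine ⟨s, hs, s0, ?_, by field_simp; linear_combination g1, s1, ?_⟩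
  · linear_combination s 1 0 * f2 + s 1 0 * s 0 0 * d + a' * h 1 0 ^ 2 * ds -
      a' * h 1 0 * s 0 0 * g1
  · field_simp; linear_combination -ds - two K

theorem main (hf : ∀ x : K, ∃ n, 0 < n ∧ x ^ 2 ^ n = x) (hω : ∀ x : K, x ^ 2 + x + 1 ≠ 0)
    (c : K) (hc : c ^ 2 + c ≠ 0) (H : Subgroup (G K))
    (ht : ∀ τ : K, ∃ h ∈ H, h 0 0 + h 1 1 = τ) (h1 : u 1 ∈ H) (w : G K) (hw : w ∈ H)
    (w0 : w 0 0 = 0) : H = ⊤ := by
  have w1 : w 1 0 ≠ 0 := fun h => by simpa [h, w0] using det2 w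
  have sq : ∀ x y : K, x ^ 2 = y ^ 2 → x = y := fun x y h => sub_eq_zero.1
    (pow_eq_zero_iff two_ne_zero |>.1 (by linear_combination h + (y ^ 2 - x * y) * two K))
  have dg : ∀ a a' : K, a ≠ 0 → a' ≠ 0 → u a ∈ H → u a' ∈ H → ∀ h ∈ H, h 1 0 ≠ 0 → ∃ D ∈ H,
      D 1 0 = 0 ∧ a * D 0 0 ^ 2 = a' ∧ D 0 1 = h 0 0 / h 1 0 * (D 0 0 + D 1 1) :=
    fun a a' a0 a0' ha ha' h hh h0 => by
      obtain ⟨s, hs, s0, s1, s2, s3, s4⟩ := invo hf H 1 1 one_ne_zero one_ne_zero h1 h1 h hh h0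
      obtain ⟨t, ht, t0, t1, t2, t3, t4⟩ := invo hf H a a' a0 a0' ha ha' h hh h0
      have := sq (s 1 0) (h 1 0) (by linear_combination s1)
      refine ⟨s * t, mul_mem hs ht, ?_, ?_, ?_⟩ <;> simp only [mul00, s4, s3, t4, t3] <;>
        simp only [s2, t2, this] <;> field_simp
      · linear_combination (h 0 0 * t 1 0) * two K
      · linear_combination t1 + (2 * a * t 1 0 ^ 2 * h 0 0 ^ 2 * (1 + h 0 0 ^ 2)) * two K
      · linear_combination (-(h 0 0 ^ 3 * t 1 0 ^ 2)) * two K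
  let F : Subfield K :=
    { carrier := {a | u a ∈ H}
      zero_mem' := by
        rw [Set.mem_setOf, show u (0 : K) = 1 by apply ext2 <;> simp [u]]; exact one_mem _
      one_mem' := h1
      add_mem' := fun {a b} ha hb => by rw [Set.mem_setOf, ← u_add]; exact mul_mem ha hb
      neg_mem' := fun {a} ha => by rwa [CharTwo.neg_eq]
      mul_mem' := fun {a b} ha hb => by
        rcases eq_or_ne a 0 with rfl | a0
        · rwa [zero_mul]
        obtain ⟨D, d1, d2, d3, -⟩ := dg 1 a one_ne_zero a0 h1 ha w hw w1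
        rw [Set.mem_setOf, ← d3, one_mul, ← up D d2]
        exact mul_mem (mul_mem d1 hb) (inv_mem d1)
      inv_mem' := fun a ha => by
        rcases eq_or_ne a 0 with rfl | a0
        · rwa [inv_zero]
        obtain ⟨D, d1, d2, d3, -⟩ := dg a 1 a0 one_ne_zero ha h1 w hw w1
        rw [Set.mem_setOf, ← eq_inv_of_mul_eq_one_right d3, ← mul_one (_ ^ 2), ← up D d2]
        exact mul_mem (mul_mem d1 h1) (inv_mem d1) }
  have mF : ∀ a, a ∈ F ↔ u a ∈ H := fun a => Iff.rfl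
  have rt : ∀ x, x ^ 2 ∈ F → x ∈ F := fun x hx => by
    obtain ⟨n, n0, hn⟩ := hf x
    obtain ⟨n, rfl⟩ := Nat.exists_eq_succ_of_ne_zero n0.ne'
    rw [← hn, pow_succ', pow_mul]; exact pow_mem hx _
  have tri : ∀ h ∈ H, h 1 0 = 0 → h 0 0 ∈ F ∧ h 1 1 = (h 0 0)⁻¹ := fun h hh h0 =>
    ⟨rt _ (by rw [mF, ← mul_one (_ ^ 2), ← up h h0]; exact mul_mem (mul_mem hh h1) (inv_mem hh)),
      eq_inv_of_mul_eq_one_right (by simpa [h0] using det2 h)⟩
  by_cases hA : ∃ a ∈ F, a ≠ 0 ∧ a ≠ 1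
  · obtain ⟨a, ha, a0, a1⟩ := hA
    have pt : ∀ h ∈ H, h 1 0 ≠ 0 → h 0 0 / h 1 0 ∈ F := fun h hh h0 => by
      obtain ⟨D, d1, d2, d3, d4⟩ := dg 1 a one_ne_zero a0 h1 ha h hh h0
      obtain ⟨E, e1, e2, e3, e4⟩ := dg 1 a one_ne_zero a0 h1 ha w hw w1
      have e5 := sq (E 0 0) (D 0 0) (by linear_combination e3 - d3)
      have d0 : D 0 0 ≠ 0 := fun z => a0 (by simpa [z] using d3.symm)
      have : D * E⁻¹ = u (h 0 0 / h 1 0 * (a + 1)) := by
        apply ext2 <;> simp only [mul00, inv2, u_eq, d2, e2, d4, e4, w0, (tri D d1 d2).2,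
          (tri E e1 e2).2, e5, ← d3] <;> field_simp <;> ring
      have := (mF _).2 (this ▸ mul_mem d1 (inv_mem e1))
      have a2 : a + 1 ≠ 0 := fun z => a1 (by linear_combination z - two K)
      simpa [mul_div_cancel_right₀ _ a2] using div_mem this (add_mem ha (one_mem F))
    have lo : ∀ h ∈ H, h 1 0 ≠ 0 → h 0 0 ∈ F := fun h hh h0 => by
      have x := pt h hh h0
      set g := u (h 0 0 / h 1 0) * h with hg
      have gH : g ∈ H := mul_mem x hh
      have g0 : g 0 0 = 0 := by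
        simp only [hg, mul00, u_eq]; field_simp; linear_combination h 0 0 * two K
      have g1 : g 1 0 = h 1 0 := by simp [hg, mul00, u_eq]
      have dd := det2 g
      have e1 : (g * u 1 * g⁻¹ : G K) 1 0 = -h 1 0 ^ 2 := by simp only [mul00, u_eq, inv2, g1]; ring
      have e2 : (g * u 1 * g⁻¹ : G K) 0 0 = 1 := by
        simp only [mul00, u_eq, inv2, g0] at dd ⊢; linear_combination dd
      have := pt _ (mul_mem (mul_mem gH h1) (inv_mem gH)) (by rw [e1]; simp [h0])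
      rw [e1, e2] at this
      simpa [h0] using mul_mem x (rt (h 1 0) (by simpa using neg_mem (inv_mem this)))
    refine gen H (fun τ => (mF τ).1 ?_) w hw w0
    obtain ⟨h, hh, rfl⟩ := ht τ
    by_cases h0 : h 1 0 = 0
    · rw [(tri h hh h0).2]; exact add_mem (tri h hh h0).1 (inv_mem (tri h hh h0).1)
    · exact add_mem (lo h hh h0) ((inv2 h).1 ▸ lo _ (inv_mem hh) (by simpa [inv2] using h0))
  push Not at hA
  have key : ∀ h ∈ H, h 0 0 + h 1 1 ≠ 0 → h 0 0 + h 1 1 = h 1 0 := fun h hh t0 => by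
    have d := det2 h
    by_cases h0 : h 1 0 = 0
    · refine absurd ?_ t0
      rw [(tri h hh h0).2, hA _ (tri h hh h0).1 fun z => by simp [z, h0] at d]
      simpa using CharTwo.add_self_eq_zero (1 : K)
    obtain ⟨s, hs, s0, s1, s2, s3, s4⟩ := invo hf H 1 1 one_ne_zero one_ne_zero h1 h1 h hh h0
    have := sq (s 1 0) (h 1 0) (by linear_combination s1)
    have e : s * h = u ((h 0 0 + h 1 1) / h 1 0) := by
      apply ext2 <;> simp only [mul00, u_eq, s4, s3] <;> simp only [s2, this] <;> field_simp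
      · linear_combination (h 0 0 ^ 2) * two K
      · linear_combination h 0 0 * d + (h 0 0 * h 0 1 * h 1 0) * two K
      · linear_combination (h 1 0 * h 0 0) * two K
      · linear_combination d + (h 0 1 * h 1 0) * two K
    have := hA _ ((mF _).2 (e ▸ mul_mem hs hh)) (div_ne_zero t0 h0)
    rwa [div_eq_one_iff_eq h0] at this
  obtain ⟨n, n0, hn⟩ := hf (c ^ 2 + c)⁻¹
  obtain ⟨n, rfl⟩ := Nat.exists_eq_succ_of_ne_zero n0.ne'
  rw [pow_succ 2 n, pow_mul] at hn
  generalize (c ^ 2 + c)⁻¹ ^ 2 ^ n = τ at hn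
  have hτ : τ ^ 2 * (c ^ 2 + c) = 1 := by rw [hn, inv_mul_cancel₀ hc]
  have τ0 : τ ≠ 0 := by rintro rfl; simp at hτ
  obtain ⟨d, hd, d1⟩ := ht τ
  obtain ⟨e, he, e1⟩ := ht 1
  have d2 := key d hd (by rwa [d1])
  have e2 := key e he (by simp [e1])
  have k1 := key _ (mul_mem hd he)
  have k2 := key _ (mul_mem (inv_mem hd) he)
  have dd := det2 d
  have de := det2 e
  simp only [mul00, inv2] at k1 k2
  rw [d1] at d2; rw [e1] at e2
  rw [← d2, eq_sub_of_add_eq' d1] at dd k1 k2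
  rw [← e2, eq_sub_of_add_eq' e1] at de k1 k2
  generalize d 0 0 = p at *; generalize d 0 1 = q at *
  generalize e 0 0 = p' at *; generalize e 0 1 = q' at *
  have k3 : q = τ * q' := by
    by_contra z
    have z1 : _ := not_not.1 (mt k1 fun y => z (by linear_combination y + (τ * p' - p * p' - τ * q') * two K))
    have z2 : _ := not_not.1 (mt k2 fun y => z (by linear_combination -y + (τ * p' - p * p' - τ * q') * two K))
    exact τ0 (by linear_combination z1 + z2)
  refine absurd (mul_left_cancel₀ (pow_ne_zero 2 τ0) ?_) (hω (p / τ + p' + c))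
  rw [k3] at dd
  field_simp
  linear_combination dd - τ ^ 2 * de + hτ +
    (p ^ 2 + τ ^ 2 * p' + τ * p * p' + τ * p * c + τ ^ 2 * p' * c + 1) * two K

theorem ig (hf : ∀ x : K, ∃ n, 0 < n ∧ x ^ 2 ^ n = x) (hω : ∀ x : K, x ^ 2 + x + 1 ≠ 0)
    (c : K) (hc : c ^ 2 + c ≠ 0) (H : Subgroup (G K)) (hH : ∀ g, ∃ x, x * g * x⁻¹ ∈ H) : H = ⊤ := by
  have cj : ∀ y : G K, ∀ g, ∃ x, x * g * x⁻¹ ∈ H.comap (MulAut.conj y).toMonoidHom := fun y g => by
    obtain ⟨x, hx⟩ := hH g
    exact ⟨y⁻¹ * x, by simpa [mul_assoc] using hx⟩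
  obtain ⟨y, hy⟩ := hH (u 1)
  obtain ⟨x, hx⟩ := cj y (cp 1)
  have t := tr_conj x 1
  generalize x * cp 1 * x⁻¹ = e at hx t
  have e0 : e 1 0 ≠ 0 := fun z => hω (e 0 0) (by
    have := det2 e
    rw [z] at this
    linear_combination e 0 0 * t - this + e 0 0 * two K)
  have := main hf hω c hc (H.comap (MulAut.conj (y * u (e 0 0 / e 1 0))).toMonoidHom)
    (fun τ => (cj _ (cp τ)).elim fun x hx => ⟨_, hx, tr_conj x τ⟩) (by
      have : u (e 0 0 / e 1 0) * u 1 * (u (e 0 0 / e 1 0))⁻¹ = u 1 := by simp [up, u_eq]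
      rw [← this] at hy
      simpa [mul_assoc] using hy)
    ((u (e 0 0 / e 1 0))⁻¹ * e * u (e 0 0 / e 1 0)) (by simpa [mul_assoc] using hx)
    (by simp [mul00, inv2, u_eq, e0])
  exact Subgroup.comap_injective (MulAut.conj _).surjective (this.trans (Subgroup.comap_top _).symm)

lemma normal_top (hf : ∀ x : K, ∃ n, 0 < n ∧ x ^ 2 ^ n = x) (N : Subgroup (G K)) (hN : N.Normal)
    (c : K) (c0 : c ≠ 0) (hc : u c ∈ N) : N = ⊤ := by
  have hu : ∀ a, u a ∈ N := fun a => by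
    rcases eq_or_ne a 0 with rfl | a0
    · rw [show u (0 : K) = 1 by apply ext2 <;> simp [u]]; exact one_mem _
    obtain ⟨n, n0, hn⟩ := hf (a / c)
    obtain ⟨n, rfl⟩ := Nat.exists_eq_succ_of_ne_zero n0.ne'
    rw [pow_succ, pow_mul] at hn
    generalize (a / c) ^ 2 ^ n = t at hn
    have t0 : t ≠ 0 := by rintro rfl; exact div_ne_zero a0 c0 (by simpa using hn.symm)
    have := hN.conj_mem _ hc ⟨!![t, 0; 0, t⁻¹], by simp [Matrix.det_fin_two, t0]⟩
    rw [up _ (by simp)] at this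
    simpa [hn, c0] using this
  exact gen N hu (u 1 * (cp 0 * u 1 * (cp 0)⁻¹)) (mul_mem (hu 1) (hN.conj_mem _ (hu 1) _))
    (by simp [mul00, inv2, u_eq, cp])

end

noncomputable def K0 : Subfield (AlgebraicClosure (ZMod 2)) where
  carrier := {x | ∃ n, Odd n ∧ x ^ 2 ^ n = x}
  zero_mem' := ⟨1, odd_one, by simp⟩
  one_mem' := ⟨1, odd_one, by simp⟩
  add_mem' := fun {a b} ⟨n, h1, h2⟩ ⟨m, h3, h4⟩ => ⟨n * m, h1.mul h3, by
    rw [add_pow_char_pow, fix_mul a n m h2, mul_comm, fix_mul b m n h4]⟩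
  mul_mem' := fun {a b} ⟨n, h1, h2⟩ ⟨m, h3, h4⟩ => ⟨n * m, h1.mul h3, by
    rw [mul_pow, fix_mul a n m h2, mul_comm n, fix_mul b m n h4]⟩
  neg_mem' := fun {a} ha => by rwa [CharTwo.neg_eq]
  inv_mem' := fun a ⟨n, h1, h2⟩ => ⟨n, h1, by rw [inv_pow, h2]⟩

lemma K0_fix (x : K0) : ∃ n, 0 < n ∧ x ^ 2 ^ n = x :=
  let ⟨n, h1, h2⟩ := x.2; ⟨n, h1.pos, Subtype.ext h2⟩

lemma K0_ω (x : K0) : x ^ 2 + x + 1 ≠ 0 := fun h => by
  obtain ⟨n, ⟨k, rfl⟩, h2⟩ := x.2
  have h3 : x ^ 2 ^ 2 = x := by linear_combination (x ^ 2 - x) * h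
  have h4 : x ^ 2 ^ (2 * k + 1) = x := Subtype.ext h2
  rw [pow_succ, pow_mul, fix_mul x 2 k h3] at h4
  exact one_ne_zero (α := K0) (by linear_combination h - h4 - x * two K0)

instance : Infinite K0 := by
  refine not_finite_iff_infinite.1 fun h => ?_
  have := card_rootSet_eq_natDegree (K := AlgebraicClosure (ZMod 2)) (galois_poly_separable
    (K := ZMod 2) 2 (2 ^ (2 * Nat.card K0 + 1)) (dvd_pow_self 2 (by omega))) (IsAlgClosed.splits _)
  rw [FiniteField.X_pow_card_pow_sub_X_natDegree_eq _ (by omega) one_lt_two,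
    ← Nat.card_eq_fintype_card] at this
  have h2 := Nat.card_mono (t := (K0 : Set (AlgebraicClosure (ZMod 2)))) h
    (s := (X ^ 2 ^ (2 * Nat.card K0 + 1) - X : (ZMod 2)[X]).rootSet _) (fun x hx =>
      ⟨_, odd_two_mul_add_one _, by simpa [sub_eq_zero] using (mem_rootSet.1 hx).2⟩)
  have h3 := Nat.lt_two_pow_self (n := 2 * Nat.card K0 + 1)
  rw [this] at h2
  change _ ≤ Nat.card K0 at h2
  omega


/-- The negation of the preceding statement: For every field K and n, if a subgroup G of GL_n(K) is invariably generated (every subset meeting all conjugacy classes of G generates G), then G has a solvable subgroup of finite index. -/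
theorem result :
    ¬ (∀ (K : Type) [Field K] (n : ℕ) (G : Subgroup (Matrix.GeneralLinearGroup (Fin n) K)),
      (∀ S : Set G, (∀ g : G, ∃ s ∈ S, IsConj g s) → Subgroup.closure S = ⊤) →
      ∃ H : Subgroup G, H.FiniteIndex ∧ IsSolvable H) := by
  classical
  intro h
  let φ := MonoidHom.ofInjective (Matrix.SpecialLinearGroup.toGL_injective (n := Fin 2) (R := K0))
  obtain ⟨c, hc⟩ := Infinite.exists_notMem_finset ({0, 1} : Finset K0)
  simp only [Finset.mem_insert, Finset.mem_singleton, not_or] at hc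
  have c1 : c + 1 ≠ 0 := fun z => hc.2 (by linear_combination z - two K0)
  obtain ⟨S, h1, h2⟩ := h K0 2 _ fun S hS => Subgroup.comap_injective (f := φ.toMonoidHom)
    φ.surjective ((ig K0_fix K0_ω c (by rw [sq, ← mul_add_one]; exact mul_ne_zero hc.1 c1) _
      fun g => by
        obtain ⟨s, hs, hh⟩ := hS (φ g)
        obtain ⟨x, rfl⟩ := isConj_iff.1 hh
        exact ⟨φ.symm x, by simpa using Subgroup.subset_closure hs⟩).trans (Subgroup.comap_top _).symm)
  obtain ⟨a, b, ab, e⟩ := Finite.exists_ne_map_eq_of_infinite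
    fun a : K0 => (QuotientGroup.mk (φ (u a)) : _ ⧸ S.normalCore)
  have hN := normal_top K0_fix (S.normalCore.comap φ.toMonoidHom) inferInstance (a + b)
    (fun z => ab (by linear_combination z - b * two K0)) (by
      have := QuotientGroup.eq.1 e
      rwa [← map_inv, ← map_mul, inv_eq_of_mul_eq_one_right (show u a * u a = 1 by
        rw [u_add, CharTwo.add_self_eq_zero]; apply ext2 <;> simp [u]), u_add] at this)
  haveI : Group.IsSolvable S := h2
  haveI : Group.IsSolvable (G K0) := Group.isSolvable_of_isSolvable_injective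
    (f := φ.toMonoidHom.codRestrict S fun g => S.normalCore_le (hN.ge (Subgroup.mem_top g)))
    fun x y hxy => φ.injective (congrArg Subtype.val hxy)
  haveI : Nontrivial (G K0) := ⟨u 1, 1, fun z => by simpa [u] using congrArg (fun m : G K0 => m 0 1) z⟩
  refine (Group.IsSolvable.commutator_lt_top_of_nontrivial (G K0)).ne (normal_top K0_fix _
    inferInstance ((c + 1) ^ 2) (pow_ne_zero _ c1) ?_)
  let d : G K0 := ⟨!![c, 0; 0, c⁻¹], by simp [Matrix.det_fin_two, hc.1]⟩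
  have := Subgroup.commutator_mem_commutator (Subgroup.mem_top d) (Subgroup.mem_top (u 1))
  rw [commutatorElement_def, up _ (by simp [d]), inv_eq_of_mul_eq_one_right (show u (1 : K0) * u 1 = 1 by
    rw [u_add, CharTwo.add_self_eq_zero]; apply ext2 <;> simp [u]), u_add] at this
  simpa [CharTwo.add_sq, d, commutator_def] using this

end Pool.Agent.S03202
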