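import Pool.Statements.S03208
import Pool.Agent.H14.Conj2

set_option autoImplicit false
open Pool Pool.MP_d7a7a6_al

namespace Pool.Agent.S03208

theorem result :
    ¬ (∃ f : ℕ → ℕ, ∀ (F : Type) [Field F] (R : Type) [NonUnitalRing R] [Module F R]
      [IsScalarTower F R R] [SMulCommClass F R R],
      (∃ n : ℕ, ∀ x : Fin n → R,
        (List.ofFn (fun i => (Unitization.inr (x i) : Unitization F R))).prod = 0) →
      ∀ d : ℕ, ∀ g : Fin d → (Unitization F R)ˣ,
        (∀ i, ∃ r : R, ((g i : (Unitization F R)ˣ) : Unitization F R) = 1 + Unitization.inr r) →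
        (∀ r : R, ∃ u ∈ Subgroup.closure (Set.range g),
          (u : Unitization F R) = 1 + Unitization.inr r) →
        Module.rank F R ≤ (f d : Cardinal)) := by
  open Pool.Agent.H14.Conj in
  rintro ⟨f, hf⟩
  haveI : Fact (Nat.Prime 2) := ⟨Nat.prime_two⟩
  have hfin : {u : List (ZMod 13) | u.length ≤ 5 ∧ u ≠ []}.Finite :=
    (List.finite_length_le (ZMod 13) 5).subset fun u hu => hu.1
  obtain ⟨d, ⟨e⟩⟩ := @Finite.exists_equiv_fin _ hfin.to_subtype
  set N := f d + 1
  have hu : ∀ i : Fin d, IsUnit (1 + xx (XX N) (e.symm i).1) := fun i => by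
    refine IsNilpotent.isUnit_one_add (R := Unitization (ZMod 2) (RR N)) ⟨N + 1, ?_⟩
    apply Jtop N
    have := prod_mem N (List.replicate (N + 1) (xx (XX N) (e.symm i).1)) fun z hz => by
      rw [List.eq_of_mem_replicate hz]
      exact J_mono _ (List.length_pos_iff.2 (e.symm i).2.2) (xx_mem _ _)
    simpa using this
  have h1 := hf (ZMod 2) (RR N) ⟨N + 1, fun x => Jtop N _ (by
      have := prod_mem N (List.ofFn fun i => (Unitization.inr (x i) : Unitization (ZMod 2) (RR N)))
        fun z hz => by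
          obtain ⟨i, rfl⟩ := List.mem_ofFn.1 hz
          exact inr_mem N _
      simpa using this)⟩ d (fun i => (hu i).unit) (fun i => by
      obtain ⟨r, hr, -⟩ := xx_inr N _ (e.symm i).2.2
      exact ⟨r, by rw [IsUnit.unit_spec, hr]⟩) (fun r =>
      lemC (XX N) (Subgroup.closure (Set.range fun i => (hu i).unit)) (J0 N) (fun u h1 h2 => ⟨(hu (e ⟨u, h2, h1⟩)).unit,
        Subgroup.subset_closure ⟨_, rfl⟩, by simp⟩) (fun u h6 => by
          by_cases h : ∃ i, occ N i u
          · obtain ⟨a, b, ha, hb, h1, h2⟩ := rot N u h6 h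
            exact Or.inr ⟨a, b, ha, hb, h1, xx_zero N _ (by simp [ha]) h2⟩
          · exact Or.inl (xx_zero N u (List.length_pos_iff.1 (by omega)) fun i hi => h ⟨i, hi⟩))
        N (Jtop N) N 1 le_rfl (add_comm _ _) _ (inr_mem N r))
  have h2 := (rank_ge N).trans h1
  have h3 : N ≤ f d := by exact_mod_cast h2
  omega

end Pool.Agent.S03208
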