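import Pool.Statements.S03273
import Pool.Agent.H28.IdemB

set_option autoImplicit false
open Pool Pool.MP_dd6327_al

namespace Pool.Agent.S03273

/-- There is a possibly non-unital simple ring without zero divisors that is not a division ring and is ring-isomorphic to each of its nonzero left ideals L satisfying L·L = L. -/
theorem result :
    ∃ (R : Type) (inst : NonUnitalRing R),
      IsSimpleRing R ∧ NoZeroDivisors R ∧
      (¬ ∃ e : R, (∀ x : R, e * x = x ∧ x * e = x) ∧
          ∀ x : R, x ≠ 0 → ∃ y : R, x * y = e ∧ y * x = e) ∧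
      ∀ L : NonUnitalSubring R, L ≠ ⊥ →
        (∀ r x : R, x ∈ L → r * x ∈ L) →
        AddSubgroup.closure {z : R | ∃ a ∈ L, ∃ b ∈ L, z = a * b} = L.toAddSubgroup →
        Nonempty (L ≃+* R) := by
  obtain ⟨D, inst, w, H⟩ := Pool.Agent.H28.IdemB.exists_hyp
  exact Pool.Agent.H28.IdemA.main H

end Pool.Agent.S03273
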