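import Pool.Statements.S03280


set_option autoImplicit false
open Pool Pool.MP_de34bb_al

set_option maxSynthPendingDepth 3

namespace Pool.Agent.S03280

open Matrix Matrix.SpecialLinearGroup
open scoped commutatorElement LinearAlgebra.Projectivization

instance : Fact (Nat.Prime 5) := ⟨by norm_num⟩

abbrev F := ZMod 5
abbrev SL4 := Matrix.SpecialLinearGroup (Fin 4) F
abbrev G4 := Matrix.GeneralLinearGroup (Fin 4) F

lemma diag_dec {i j : Fin 4} (hij : i ≠ j) (a : F) (ha : a ≠ 0) :
    diag2n hij a ha = transvection hij a * transvection hij.symm (- a⁻¹) * transvection hij a *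
      transvection hij (-1) * transvection hij.symm 1 * transvection hij (-1) := by
  refine Subtype.ext ?_
  simp only [diag2n_coe, coe_mul, transvection_coe, mul_add, add_mul, one_mul, mul_one,
    single_mul_single_same, single_mul_single_of_ne _ _ _ _ hij,
    single_mul_single_of_ne _ _ _ _ hij.symm, zero_mul, add_zero]
  ext k l
  have h1 := mul_inv_cancel₀ ha
  simp only [diagonal_apply, Matrix.add_apply, one_apply, single_apply]
  by_cases hk : i = k <;> by_cases hl : i = l <;> by_cases hk' : j = k <;> by_cases hl' : j = l <;>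
    simp_all [eq_comm]

lemma tr_ind (P : SL4 → Prop)
    (ht : ∀ (i j : Fin 4) (h : i ≠ j) c, P (transvection h c))
    (hmul : ∀ A B, P A → P B → P (A * B)) (A : SL4) : P A := by
  refine diagonal_transvection_induction' P _ (fun i j hij c hc => ?_) ht hmul
  rw [diag_dec hij c hc]
  refine hmul _ _ (hmul _ _ (hmul _ _ (hmul _ _ (hmul _ _ ?_ ?_) ?_) ?_) ?_) ?_
  all_goals exact ht _ _ _ _

lemma perfect : commutator SL4 = ⊤ := by
  refine le_antisymm le_top (fun A _ => tr_ind (· ∈ commutator SL4) ?_ (fun _ _ => mul_mem) A)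
  intro i j hij c
  obtain ⟨k, hik, hkj⟩ : ∃ k, i ≠ k ∧ k ≠ j := by revert i j; decide
  have : transvection hij c = ⁅transvection hik c, transvection hkj (1 : F)⁆ := by
    rw [commutatorElement_def, transvection_inv, transvection_inv]
    refine Subtype.ext ?_
    simp only [coe_mul, transvection_coe, mul_add, add_mul, one_mul, mul_one,
      single_mul_single_same, single_mul_single_of_ne _ _ _ _ hij.symm,
      single_mul_single_of_ne _ _ _ _ hik.symm, single_mul_single_of_ne _ _ _ _ hkj.symm,
      add_zero, mul_neg]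
    simp only [← single_neg]
    abel
  rw [this]
  exact Subgroup.commutator_mem_commutator (Subgroup.mem_top _) (Subgroup.mem_top _)

noncomputable def iw : MulAction.IwasawaStructure SL4 (ℙ F (Fin 4 → F)) where
  T p := lineStab p.submodule
  is_comm p := by
    rw [← Projectivization.mk_rep p, Projectivization.submodule_mk]
    exact lineStab_isMulCommutative_of_span p.rep p.rep_nonzero
  is_conj g p := by rw [PSL.smul_submodule, lineStab_smul]
  is_generator := by
    refine le_antisymm le_top (fun A _ => tr_ind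
      (· ∈ ⨆ p : ℙ F (Fin 4 → F), lineStab p.submodule) ?_ (fun _ _ => mul_mem) A)
    intro i j hij c
    have h := SL2Gen.transvection_mem_lineStab hij c
    rw [← Projectivization.submodule_mk (K := F) _ (Pi.single_ne_zero_iff.2 one_ne_zero)] at h
    exact Subgroup.mem_iSup_of_mem _ h

lemma quasi (N : Subgroup SL4) [N.Normal] : N = ⊤ ∨ N ≤ Subgroup.center SL4 := by
  by_cases h : MulAction.fixedPoints N (ℙ F (Fin 4 → F)) = Set.univ
  · right
    rw [← Projectivization.SL_mulAction_ker]
    intro n hn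
    rw [MonoidHom.mem_ker]
    ext x : 1
    exact Set.eq_univ_iff_forall.mp h x ⟨n, hn⟩
  · left
    exact top_le_iff.1 (perfect ▸ iw.commutator_le N h)

def LL : Subgroup G4 := (⊤ : Subgroup SL4).map toGL

lemma mem_LL (x : G4) : x ∈ LL ↔ (x : Matrix (Fin 4) (Fin 4) F).det = 1 := by
  constructor
  · rintro ⟨y, -, rfl⟩
    exact y.2
  · intro h
    exact ⟨⟨(x : Matrix (Fin 4) (Fin 4) F), h⟩, Subgroup.mem_top _,
      Units.ext (coe_GL_coe_matrix _)⟩

def φ : Fˣ →* G4 where
  toFun u := ⟨1 + single 3 3 ((u : F) - 1), 1 + single 3 3 (((u⁻¹ : Fˣ) : F) - 1), by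
      simp only [mul_add, add_mul, one_mul, mul_one, single_mul_single_same, add_assoc,
        ← single_add]
      rw [show (u : F) - 1 + (((u⁻¹ : Fˣ) : F) - 1 + ((u : F) - 1) * (((u⁻¹ : Fˣ) : F) - 1))
        = (u : F) * ((u⁻¹ : Fˣ) : F) - 1 by ring, Units.mul_inv, sub_self, single_zero,
        add_zero], by
      simp only [mul_add, add_mul, one_mul, mul_one, single_mul_single_same, add_assoc,
        ← single_add]
      rw [show ((u⁻¹ : Fˣ) : F) - 1 + ((u : F) - 1 + (((u⁻¹ : Fˣ) : F) - 1) * ((u : F) - 1))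
        = (u : F) * ((u⁻¹ : Fˣ) : F) - 1 by ring, Units.mul_inv, sub_self, single_zero,
        add_zero]⟩
  map_one' := Units.ext (by simp)
  map_mul' u v := Units.ext (by
    simp only [Units.val_mul, mul_add, add_mul, one_mul, mul_one, single_mul_single_same, add_assoc,
        ← single_add]
    congr 2; ring)

lemma φ_coe (u : Fˣ) : (φ u : Matrix (Fin 4) (Fin 4) F) = 1 + single 3 3 ((u : F) - 1) := rfl

lemma φ_det (u : Fˣ) : (φ u : Matrix (Fin 4) (Fin 4) F).det = u := by
  have : (φ u : Matrix (Fin 4) (Fin 4) F) = diagonal ![1, 1, 1, (u : F)] := by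
    rw [φ_coe]
    ext i j
    fin_cases i <;> fin_cases j <;> simp
  rw [this, det_diagonal]
  simp [Fin.prod_univ_four]

lemma φ_inj : Function.Injective φ := fun u v h => Units.ext (by rw [← φ_det, h, φ_det])

lemma cent_le : Subgroup.centralizer (LL : Set G4) ≤ LL := by
  intro x hx
  rw [mem_LL]
  obtain ⟨r, hr⟩ := mem_range_scalar_of_commute_transvectionStruct
    (M := (x : Matrix (Fin 4) (Fin 4) F)) (fun t => by
      have := hx (toGL t.toSpecialLinearGroup) ⟨_, trivial, rfl⟩
      exact congrArg Units.val this)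
  have hd : (x : Matrix (Fin 4) (Fin 4) F).det = r ^ 4 := by
    rw [← hr, scalar_apply, det_diagonal]; simp
  have hne : (x : Matrix (Fin 4) (Fin 4) F).det ≠ 0 := x.det_ne_zero
  rw [hd] at hne ⊢
  clear hr hd
  revert r
  decide

/-- The negation of the preceding statement: In a finite group G, if a cyclic subgroup A of order 4 is a TI-subgroup and L is a component (subnormal quasisimple subgroup) with A meeting L·C(L) trivially, then A centralizes L. -/
theorem result :
    ¬ (∀ (G : Type) [Group G] [Finite G] (A L : Subgroup G),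
      IsCyclic A → Nat.card A = 4 →
      (∀ g : G, (∀ x ∈ A, g * x * g⁻¹ ∈ A → x = 1) ∨ (∀ x ∈ A, g * x * g⁻¹ ∈ A)) →
      L ≠ ⊥ →
      ⁅L, L⁆ = L →
      (∀ N : Subgroup G, N ≤ L → (∀ l ∈ L, ∀ n ∈ N, l * n * l⁻¹ ∈ N) →
          N = L ∨ N ≤ Subgroup.centralizer (L : Set G)) →
      (∃ n : ℕ, ∃ H : ℕ → Subgroup G, H 0 = L ∧ H n = ⊤ ∧
          ∀ i < n, H i ≤ H (i + 1) ∧ ∀ x ∈ H (i + 1), ∀ y ∈ H i, x * y * x⁻¹ ∈ H i) →
      A ⊓ (L ⊔ Subgroup.centralizer (L : Set G)) = ⊥ →
      A ≤ Subgroup.centralizer (L : Set G)) := by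
  intro H
  have hcard : Nat.card φ.range = 4 := by
    rw [← Nat.card_congr (MonoidHom.ofInjective φ_inj).toEquiv, Nat.card_eq_fintype_card,
      ZMod.card_units]
  have hbot : φ.range ⊓ (LL ⊔ Subgroup.centralizer (LL : Set G4)) = ⊥ := by
    rw [sup_eq_left.2 cent_le, eq_bot_iff]
    rintro x ⟨⟨u, rfl⟩, hx⟩
    have h1 : u = 1 := Units.ext (by rw [← φ_det]; exact (mem_LL _).1 hx)
    rw [h1, map_one]; exact one_mem _
  have h := H G4 φ.range LL (isCyclic_of_surjective _ φ.rangeRestrict_surjective) hcard ?_ ?_ ?_ ?_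
    ?_ hbot
  · have h2 : φ.range = ⊥ := by
      rw [← hbot]
      exact (inf_eq_left.2 (h.trans le_sup_right)).symm
    rw [h2] at hcard
    simp at hcard
  · intro g
    rw [or_iff_not_imp_left]
    intro hn
    push Not at hn
    obtain ⟨_, ⟨u, rfl⟩, ⟨v, hv⟩, hu⟩ := hn
    have hu1 : (u : F) - 1 ≠ 0 := by
      intro h0
      exact hu (by rw [show u = 1 from Units.ext (sub_eq_zero.1 h0), map_one])
    have h1 : φ v * g = g * φ u := by rw [hv]; group
    have h2 := congrArg Units.val h1
    rw [Units.val_mul, Units.val_mul] at h2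
    have h3 : v = u := by
      have := congrArg det h2
      rw [det_mul, det_mul, φ_det, φ_det, mul_comm] at this
      exact Units.ext (mul_left_cancel₀ g.det_ne_zero this)
    subst h3
    have h4 : ∀ c : F, single 3 3 c = c • (single 3 3 1 : Matrix (Fin 4) (Fin 4) F) := by
      intro c; simp
    rw [φ_coe, add_mul, mul_add, one_mul, mul_one, add_right_inj, h4, smul_mul_assoc,
      mul_smul_comm] at h2
    have h5 := smul_right_injective _ hu1 h2
    rintro _ ⟨w, rfl⟩
    refine ⟨w, ?_⟩
    rw [eq_mul_inv_iff_mul_eq]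
    refine Units.ext ?_
    rw [Units.val_mul, Units.val_mul, φ_coe, add_mul, mul_add, one_mul, mul_one, h4,
      smul_mul_assoc, mul_smul_comm, h5]
  · intro h0
    have : toGL (transvection (show (0 : Fin 4) ≠ 1 by decide) (1 : F)) ∈ LL := ⟨_, trivial, rfl⟩
    rw [h0, Subgroup.mem_bot] at this
    have h1 : (transvection (show (0 : Fin 4) ≠ 1 by decide) (1 : F) : SL4) = 1 :=
      toGL_injective (this.trans (map_one _).symm)
    have h2 := (transvection_mem_center_iff (show (0 : Fin 4) ≠ 1 by decide) (1 : F)).1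
      (h1 ▸ one_mem _)
    exact one_ne_zero h2
  · rw [LL, ← Subgroup.map_commutator, ← commutator_def, perfect]
  · intro N hN hn
    have : (N.comap toGL).Normal := ⟨fun n hn' g => by
      rw [Subgroup.mem_comap, map_mul, map_mul, map_inv]
      exact hn _ ⟨g, trivial, rfl⟩ _ hn'⟩
    rcases quasi (N.comap toGL) with h | h
    · left
      refine le_antisymm hN ?_
      rintro _ ⟨y, -, rfl⟩
      exact (h ▸ Subgroup.mem_top y : y ∈ N.comap toGL)
    · right
      intro n hn'
      obtain ⟨y, -, rfl⟩ := hN hn'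
      rintro _ ⟨z, -, rfl⟩
      rw [← map_mul, ← map_mul, Subgroup.mem_center_iff.1 (h hn') z]
  · refine ⟨1, fun i => if i = 0 then LL else ⊤, rfl, rfl, fun i hi => ?_⟩
    obtain rfl : i = 0 := by omega
    refine ⟨le_top, fun x _ y hy => ?_⟩
    have hy' : y ∈ LL := hy
    show x * y * x⁻¹ ∈ LL
    rw [mem_LL] at hy' ⊢
    rw [Units.val_mul, Units.val_mul, det_mul, det_mul, hy', mul_one, ← det_mul, Units.mul_inv,
      det_one]

end Pool.Agent.S03280
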