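import Pool.Statements.S03302
import Pool.Agent.H13.Form8G

set_option autoImplicit false
open Pool Pool.MP_e00c87_al

namespace Pool.Agent.S03302

open Pool.Agent.H13.Form8 in
/-- The negation of the preceding statement: For any saturated formation F and finite soluble minimal non-F-group G whose F-residual is a Sylow p-subgroup, that residual is a homomorphic image of the Sylow p-subgroup of PSU(3,q) over the field of order q², q = p^n, for some n ≥ 1. -/
theorem result :
    ¬ (∀ (F : ∀ (H : Type) [Group H], Prop),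
    (∀ (H K : Type) [Group H] [Group K] [Finite H] (f : H →* K),
        Function.Surjective f → F H → F K) →
    (∀ (H K₁ K₂ : Type) [Group H] [Group K₁] [Group K₂] [Finite H]
        (f₁ : H →* K₁) (f₂ : H →* K₂),
        Function.Surjective f₁ → Function.Surjective f₂ → F K₁ → F K₂ →
        F ↥(f₁.prod f₂).range) →
    (∀ (H K : Type) [Group H] [Group K] [Finite H] (f : H →* K),
        Function.Surjective f → (∀ M : Subgroup H, IsCoatom M → f.ker ≤ M) →
        F K → F H) →
    ∀ (G : Type) [Group G] [Finite G],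
      IsSolvable G → ¬ F G → (∀ K : Subgroup G, K ≠ ⊤ → F ↥K) →
      ∀ (p : ℕ) [Fact p.Prime] (R : Subgroup G),
        R = sInf {K : Subgroup G | ∃ (H : Type) (_ : Group H) (_ : Finite H),
              F H ∧ ∃ f : G →* H, Function.Surjective f ∧ f.ker = K} →
        (∃ P : Sylow p G, (P : Subgroup G) = R) →
        ∃ n : ℕ, 0 < n ∧
          ∃ φ : GaloisField p (2 * n) × GaloisField p (2 * n) → G,
            (∀ x : GaloisField p (2 * n) × GaloisField p (2 * n),
                x.2 + x.2 ^ (p ^ n) + x.1 ^ (p ^ n + 1) = 0 → φ x ∈ R) ∧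
            (∀ g ∈ R, ∃ x : GaloisField p (2 * n) × GaloisField p (2 * n),
                x.2 + x.2 ^ (p ^ n) + x.1 ^ (p ^ n + 1) = 0 ∧ φ x = g) ∧
            (∀ x y : GaloisField p (2 * n) × GaloisField p (2 * n),
                x.2 + x.2 ^ (p ^ n) + x.1 ^ (p ^ n + 1) = 0 →
                y.2 + y.2 ^ (p ^ n) + y.1 ^ (p ^ n + 1) = 0 →
                φ (x.1 + y.1, x.2 + y.2 - x.1 * y.1 ^ (p ^ n)) = φ x * φ y)) := by
  intro h
  obtain ⟨n, hn, ψ, h1, h2, h3⟩ := h (fun H _ => F H) (fun H K _ _ _ f hf => F1 H K f hf)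
    (fun _ K₁ K₂ _ _ _ _ _ _ _ _ => F2 K₁ K₂ _) (fun H K _ _ _ f hf hk => F3 H K f hf hk)
    G solv notF proper 3 π.ker (le_antisymm (le_sInf (by
      rintro _ ⟨H, _, _, hH, f, -, rfl⟩
      exact ker_ge H hH f)) (sInf_le ⟨U, inferInstance, inferInstance, FU, π, π_surj, rfl⟩))
    ⟨pP.toSylow idx, rfl⟩
  have hc : Nat.card (GaloisField 3 (2 * n)) = 3 ^ (2 * n) := GaloisField.card 3 _ (by omega)
  refine noquot n hc (iterateFrobenius _ 3 n) (fun x => ?_) ψ ?_ ?_ ?_
  · have := Fintype.ofFinite (GaloisField 3 (2 * n))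
    rw [iterateFrobenius_def, iterateFrobenius_def, ← pow_mul, ← pow_add, ← two_mul, ← hc,
      Nat.card_eq_fintype_card, FiniteField.pow_card]
  · simpa only [iterateFrobenius_def, pow_succ] using h1
  · simpa only [iterateFrobenius_def, pow_succ] using h2
  · simpa only [iterateFrobenius_def, pow_succ] using h3

end Pool.Agent.S03302
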