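import Pool.Statements.S03463
import Pool.Agent.H3.EllP

set_option autoImplicit false
open Pool Pool.MP_ec79b7_al

namespace Pool.Agent.S03463

/-- Every lattice-ordered group with the Engel property (for all x, y some iterated commutator [x,_n y] is 1) is residually totally ordered: each non-identity element survives some lattice-and-group homomorphism into a totally ordered group. -/
theorem result :
    ∀ (G : Type) [Group G] [Lattice G] [MulLeftMono G] [MulRightMono G],
      (∀ x y : G, ∃ n : ℕ, (fun z : G => z⁻¹ * y⁻¹ * z * y)^[n] x = 1) →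
      ∀ g : G, g ≠ 1 →
        ∃ (H : Type) (_ : Group H) (_ : LinearOrder H) (_ : MulLeftMono H)
          (_ : MulRightMono H) (f : G →* H),
          (∀ a b : G, f (a ⊔ b) = f a ⊔ f b) ∧
          (∀ a b : G, f (a ⊓ b) = f a ⊓ f b) ∧
          f g ≠ 1 := by
  intro G _ _ _ _ hE g hg
  classical
  have hp : 1 < g ⊔ g⁻¹ ⊔ 1 := by
    refine lt_of_le_of_ne le_sup_right fun e => hg ?_
    have h1 : g ⊔ g⁻¹ ≤ 1 := sup_eq_right.1 e.symm
    exact le_antisymm (le_sup_left.trans h1) (Left.inv_le_one_iff.1 (le_sup_right.trans h1))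
  obtain ⟨R, tot, tr, li, mo, su, inf, np⟩ := H3.EllP.exists_prime hp
  have rf : ∀ x, R x x := fun x => mo x x le_rfl
  have pr : ∀ u v x, R (u ⊓ v) x → R u x ∨ R v x := fun u v x h =>
    (tot u v).imp (fun k => tr _ _ _ (inf _ _ _ (rf u) k) h)
      fun k => tr _ _ _ (inf _ _ _ k (rf v)) h
  have T : ∀ x, (∀ h, R h (x * h)) ∨ ∀ h, R (x * h) h := by
    intro x
    by_contra hc
    push Not at hc
    obtain ⟨⟨h2, k2⟩, h1, k1⟩ := hc
    obtain ⟨c, hc⟩ : ∃ c, c = (h1⁻¹ * x⁺ᵐ * h1) ⊓ (h2⁻¹ * x⁻ᵐ * h2) := ⟨_, rfl⟩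
    have cj : ∀ h a b : G, a ≤ b → h⁻¹ * a * h ≤ h⁻¹ * b * h := fun h a b e =>
      mul_le_mul_left (mul_le_mul_right e _) _
    have c1 : 1 ≤ c := hc ▸ le_inf (by simpa using cj h1 _ _ (one_le_oneLePart x))
      (by simpa using cj h2 _ _ (one_le_leOnePart x))
    obtain ⟨n, hn⟩ := hE c (h2⁻¹ * h1)
    refine H3.EllP.rolle tot tr li (h2⁻¹ * h1) c (fun k => mo _ _ (by simpa using cj _ _ _ c1))
      (fun k => pr _ _ _ (mo _ _ ?_)) (fun k => ?_) n hn
    · have e : c ⊓ ((h2⁻¹ * h1)⁻¹ * c * (h2⁻¹ * h1)) ≤ 1 := by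
        have e1 : (h2⁻¹ * h1)⁻¹ * c * (h2⁻¹ * h1) ≤ h1⁻¹ * x⁻ᵐ * h1 :=
          (cj _ _ _ (hc ▸ inf_le_right)).trans_eq (by group)
        refine (inf_le_inf (hc ▸ inf_le_left) e1).trans_eq ?_
        rw [← inf_mul, ← mul_inf, oneLePart_inf_leOnePart_eq_one]; group
      have := cj ((h2⁻¹ * h1) ^ k) _ _ e
      rw [mul_inf, inf_mul, mul_one, inv_mul_cancel] at this
      refine le_of_eq_of_le ?_ this
      congr 1
      rw [pow_succ', mul_inv_rev ((h2⁻¹ * h1)) (_ ^ k)]; simp only [mul_assoc]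
    · rcases pr _ _ _ (hc ▸ k) with e | e
      · refine k1 ((li h1⁻¹ _ _).1 ?_)
        simpa [mul_assoc] using tr _ _ _ (mo _ _ (cj h1 _ _ (le_oneLePart x))) e
      · refine k2 ((li (x * h2)⁻¹ _ _).1 ?_)
        simpa [mul_assoc] using tr _ _ _ (mo _ _ (cj h2 _ _ (inv_le_leOnePart x))) e
  let K : Subgroup G :=
    { carrier := {x | ∀ h, R h (x * h) ∧ R (x * h) h}
      one_mem' := fun h => by simp [rf]
      mul_mem' := fun {a b} ha hb h => by
        rw [mul_assoc]
        exact ⟨tr _ _ _ (hb h).1 (ha _).1, tr _ _ _ (ha _).2 (hb h).2⟩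
      inv_mem' := fun {a} ha h => by simpa using (ha (a⁻¹ * h)).symm }
  haveI : K.Normal := ⟨fun x hx u h => by
    have := hx (u⁻¹ * h)
    rw [← li u (u⁻¹ * h), ← li u _ (u⁻¹ * h)] at this
    simpa [mul_assoc] using this⟩
  have li' : ∀ x y h, R h (x⁻¹ * y * h) ↔ R (x * h) (y * h) := fun x y h => by
    rw [← li x]; simp [mul_assoc]
  have li2 : ∀ x y h, R (x⁻¹ * y * h) h ↔ R (y * h) (x * h) := fun x y h => by
    rw [← li x]; simp [mul_assoc]
  have eq : ∀ x y : G, (x : G ⧸ K) = y ↔ ∀ h, R (x * h) (y * h) ∧ R (y * h) (x * h) :=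
    fun x y => QuotientGroup.eq.trans (forall_congr' fun h => and_congr (li' _ _ _) (li2 _ _ _))
  let le : G ⧸ K → G ⧸ K → Prop := fun a b => ∀ h, R (a.out * h) (b.out * h)
  have lem : ∀ x y : G, le x y ↔ ∀ h, R (x * h) (y * h) := fun x y => by
    have h1 := (eq _ _).1 (QuotientGroup.out_eq' (x : G ⧸ K))
    have h2 := (eq _ _).1 (QuotientGroup.out_eq' (y : G ⧸ K))
    exact ⟨fun k h => tr _ _ _ (tr _ _ _ (h1 h).2 (k h)) (h2 h).1,
      fun k h => tr _ _ _ (tr _ _ _ (h1 h).1 (k h)) (h2 h).2⟩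
  letI L : LinearOrder (G ⧸ K) :=
    { le := le
      le_refl := fun _ _ => rf _
      le_trans := fun _ _ _ a b h => tr _ _ _ (a h) (b h)
      le_antisymm := fun a b h k => by
        rw [← a.out_eq, ← b.out_eq]
        exact (eq _ _).2 fun u => ⟨h u, k u⟩
      le_total := fun a b => (T (a.out⁻¹ * b.out)).imp (fun k h => (li' _ _ _).1 (k h))
        fun k h => (li2 _ _ _).1 (k h)
      toDecidableLE := inferInstance }
  have lem' : ∀ x y : G, (x : G ⧸ K) ≤ y ↔ ∀ h, R (x * h) (y * h) := lem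
  have mo' : ∀ x y : G, x ≤ y → (x : G ⧸ K) ≤ y := fun x y e =>
    (lem' _ _).2 fun h => mo _ _ (mul_le_mul_left e h)
  refine ⟨G ⧸ K, inferInstance, L, ⟨fun c a b h => ?_⟩, ⟨fun c a b h => ?_⟩,
    QuotientGroup.mk' K, fun a b => ?_, fun a b => ?_, fun e => ?_⟩
  · induction a, b using Quotient.ind₂ with | _ a b
    induction c using Quotient.ind with | _ c
    exact (lem' (c * a) (c * b)).2 fun u => by simpa [mul_assoc, li] using (lem' a b).1 h u
  · induction a, b using Quotient.ind₂ with | _ a b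
    induction c using Quotient.ind with | _ c
    exact (lem' (a * c) (b * c)).2 fun u => by simpa [mul_assoc] using (lem' a b).1 h (c * u)
  · refine le_antisymm ?_ (sup_le (mo' _ _ le_sup_left) (mo' _ _ le_sup_right))
    rcases le_total (a : G ⧸ K) b with h | h
    · exact le_sup_of_le_right ((lem' _ _).2 fun u => by
        rw [sup_mul]; exact su _ _ _ ((lem' a b).1 h u) (rf _))
    · exact le_sup_of_le_left ((lem' _ _).2 fun u => by
        rw [sup_mul]; exact su _ _ _ (rf _) ((lem' b a).1 h u))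
  · refine le_antisymm (le_inf (mo' _ _ inf_le_left) (mo' _ _ inf_le_right)) ?_
    rcases le_total (a : G ⧸ K) b with h | h
    · exact inf_le_of_left_le ((lem' _ _).2 fun u => by
        rw [inf_mul]; exact inf _ _ _ (rf _) ((lem' a b).1 h u))
    · exact inf_le_of_right_le ((lem' _ _).2 fun u => by
        rw [inf_mul]; exact inf _ _ _ ((lem' b a).1 h u) (rf _))
  · have hk : g ∈ K := (QuotientGroup.eq_one_iff g).1 e
    exact np (su _ _ _ (su _ _ _ (by simpa using (hk 1).2) (by simpa using (K.inv_mem hk 1).2))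
      (rf _))

end Pool.Agent.S03463
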