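import Pool.Statements.S03487
import Pool.Agent.H3.Retr

set_option autoImplicit false
open scoped Pointwise
open Pool Pool.MP_ee01d4_al

namespace Pool.Agent.S03487

/-- Every group G admitting a map σ from finite non-empty subsets to G with σ{g}=g and σ(XY)=σ(X)σ(Y) is a unique product group: any two finite non-empty subsets have some product with a unique representation. -/
theorem result :
    ∀ (G : Type) [Group G] [DecidableEq G],
      (∃ σ : Finset G → G,
          (∀ g : G, σ {g} = g) ∧
          ∀ X Y : Finset G, X.Nonempty → Y.Nonempty → σ (X * Y) = σ X * σ Y) →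
      UniqueProds G := by
  rintro G _ _ ⟨σ, h1, hm⟩
  exact H3.Retr.up h1 hm

end Pool.Agent.S03487
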