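import Pool.Statements.S03530
-- import your own Pool.Agent.* helpers here

set_option autoImplicit false
open Pool Pool.MP_f345de_al

namespace Pool.Agent.S03530

open scoped commutatorElement

section OrderPart
variable {G : Type} [Group G] [LinearOrder G] [MulLeftMono G] [MulRightMono G]

theorem swap_pow {a b : G} (h : a * b ≤ b * a) (n : ℕ) : a ^ n * b ≤ b * a ^ n := by
  induction n with
  | zero => simp
  | succ n ih =>
    calc a ^ (n + 1) * b = a * (a ^ n * b) := by rw [pow_succ', mul_assoc]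
      _ ≤ a * (b * a ^ n) := mul_le_mul_right ih a
      _ = (a * b) * a ^ n := by rw [mul_assoc]
      _ ≤ (b * a) * a ^ n := mul_le_mul_left h _
      _ = b * a ^ (n + 1) := by rw [pow_succ', mul_assoc]

theorem pow_mul_le {a b : G} (h : a * b ≤ b * a) (n : ℕ) : a ^ n * b ^ n ≤ (a * b) ^ n := by
  induction n with
  | zero => simp
  | succ n ih =>
    calc a ^ (n + 1) * b ^ (n + 1) = a * ((a ^ n * b) * b ^ n) := by
          rw [pow_succ', pow_succ']; simp only [mul_assoc]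
      _ ≤ a * ((b * a ^ n) * b ^ n) := mul_le_mul_right (mul_le_mul_left (swap_pow h n) _) a
      _ = (a * b) * (a ^ n * b ^ n) := by simp only [mul_assoc]
      _ ≤ (a * b) * (a * b) ^ n := mul_le_mul_right ih _
      _ = (a * b) ^ (n + 1) := by rw [pow_succ']

theorem inv_le_of {a b : G} (h : a ≤ b) : b⁻¹ ≤ a⁻¹ := by
  have h1 : b⁻¹ * a * a⁻¹ ≤ b⁻¹ * b * a⁻¹ := mul_le_mul_left (mul_le_mul_right h _) _
  simpa using h1

theorem pow_mono' {z : G} (hz : 1 ≤ z) {m n : ℕ} (h : m ≤ n) : z ^ m ≤ z ^ n :=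
  pow_le_pow_right' hz h

theorem zpow_mono' {z : G} (hz : 1 ≤ z) {m n : ℤ} (h : m ≤ n) : z ^ m ≤ z ^ n := by
  obtain ⟨k, rfl⟩ := Int.le.dest h
  rw [zpow_add, zpow_natCast]
  have := mul_le_mul_right (one_le_pow_of_one_le' hz k) (z ^ m)
  simpa using this

def Bd (z : G) (hz : 1 ≤ z) : Subgroup G where
  carrier := {g | ∃ K : ℕ, g ≤ z ^ K ∧ g⁻¹ ≤ z ^ K}
  one_mem' := ⟨0, by simp⟩
  mul_mem' := by
    rintro a b ⟨K, h1, h2⟩ ⟨L, h3, h4⟩
    refine ⟨K + L, ?_, ?_⟩
    · rw [pow_add]; exact mul_le_mul' h1 h3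
    · rw [mul_inv_rev, add_comm, pow_add]; exact mul_le_mul' h4 h2
  inv_mem' := by
    rintro a ⟨K, h1, h2⟩
    exact ⟨K, h2, by simpa using h1⟩

def Inf (z : G) (hz : 1 ≤ z) : Subgroup G where
  carrier := {c | ∃ K : ℕ, ∀ n : ℕ, c ^ n ≤ z ^ K ∧ c⁻¹ ^ n ≤ z ^ K}
  one_mem' := ⟨0, by simp⟩
  mul_mem' := by
    have key : ∀ (a b : G) (K L : ℕ), (∀ n : ℕ, a ^ n ≤ z ^ K) → (∀ n : ℕ, b ^ n ≤ z ^ L) →
        ∀ n : ℕ, (a * b) ^ n ≤ z ^ (K + L) := by
      intro a b K L h1 h2 n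
      rcases le_total a b with h | h
      · calc (a * b) ^ n ≤ (b * b) ^ n := pow_le_pow_left' (mul_le_mul_left h b) n
          _ = b ^ (2 * n) := by rw [pow_mul, pow_two]
          _ ≤ z ^ L := h2 _
          _ ≤ z ^ (K + L) := pow_mono' hz (by omega)
      · calc (a * b) ^ n ≤ (a * a) ^ n := pow_le_pow_left' (mul_le_mul_right h a) n
          _ = a ^ (2 * n) := by rw [pow_mul, pow_two]
          _ ≤ z ^ K := h1 _
          _ ≤ z ^ (K + L) := pow_mono' hz (by omega)
    rintro a b ⟨K, h1⟩ ⟨L, h2⟩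
    refine ⟨K + L, fun n => ⟨key a b K L (fun n => (h1 n).1) (fun n => (h2 n).1) n, ?_⟩⟩
    rw [mul_inv_rev, add_comm]
    exact key _ _ L K (fun n => (h2 n).2) (fun n => (h1 n).2) n
  inv_mem' := by
    rintro a ⟨K, h1⟩
    exact ⟨K, fun n => ⟨(h1 n).2, by simpa using (h1 n).1⟩⟩

theorem conj_le {z : G} (hz : 1 < z) {g : G} (hg : g ∈ Bd z hz.le) (K : ℕ) :
    g⁻¹ * z ^ K * g ≤ z ^ (K + 1) := by
  obtain ⟨L, h1, h2⟩ := hg
  obtain ⟨m, hm1, hm2⟩ := Int.exists_greatest_of_bdd (P := fun m : ℤ => z ^ m ≤ g)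
    ⟨L, fun m hm => by
      by_contra hlt
      have h3 : z ^ ((L : ℤ) + 1) ≤ z ^ m := zpow_mono' hz.le (by omega)
      have h4 : z ^ ((L : ℤ) + 1) ≤ z ^ L := (h3.trans hm).trans h1
      rw [zpow_add, zpow_natCast, zpow_one] at h4
      have h5 := mul_le_mul_right h4 (z ^ L)⁻¹
      simp only [inv_mul_cancel_left, inv_mul_cancel] at h5
      exact absurd hz (not_lt.2 h5)⟩
    ⟨-L, by
      have := inv_le_of h2
      simpa using this⟩
  have h3 : g ≤ z ^ (m + 1) := by
    by_contra hlt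
    have := hm2 (m + 1) (not_le.1 hlt).le
    omega
  calc g⁻¹ * z ^ K * g ≤ (z ^ m)⁻¹ * z ^ K * z ^ (m + 1) :=
        mul_le_mul' (mul_le_mul_left (inv_le_of hm1) _) h3
    _ = z ^ (K + 1) := by
      rw [← zpow_neg, ← zpow_natCast, ← zpow_natCast, ← zpow_add, ← zpow_add]
      congr 1
      push_cast
      ring

theorem comm_bd {z : G} (hz : 1 < z) {g h : G} (hg : g ∈ Bd z hz.le) (hh : h ∈ Bd z hz.le) :
    ∃ K : ℕ, ∀ n : ℕ, ⁅g, h⁆ ^ n ≤ z ^ K := by
  obtain ⟨K, h1, h2⟩ := id hh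
  refine ⟨K + 1 + K, fun n => ?_⟩
  have e1 : (g⁻¹ * ⁅g, h⁆) ^ n = h * g⁻¹ ^ n * h⁻¹ := by
    rw [← conj_pow]
    congr 1
    rw [commutatorElement_def]; group
  have hk : g⁻¹ ^ n ∈ Bd z hz.le := pow_mem (inv_mem hg) n
  rcases le_total (g⁻¹ * ⁅g, h⁆) (⁅g, h⁆ * g⁻¹) with hc | hc
  · have h3 := pow_mul_le hc n
    rw [e1] at h3
    calc ⁅g, h⁆ ^ n = (g⁻¹ ^ n)⁻¹ * (g⁻¹ ^ n * ⁅g, h⁆ ^ n) := by rw [inv_mul_cancel_left]
      _ ≤ (g⁻¹ ^ n)⁻¹ * (h * g⁻¹ ^ n * h⁻¹) := mul_le_mul_right h3 _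
      _ ≤ (g⁻¹ ^ n)⁻¹ * (z ^ K * g⁻¹ ^ n * z ^ K) :=
          mul_le_mul_right (mul_le_mul' (mul_le_mul_left h1 _) h2) _
      _ = ((g⁻¹ ^ n)⁻¹ * z ^ K * g⁻¹ ^ n) * z ^ K := by simp only [mul_assoc]
      _ ≤ z ^ (K + 1) * z ^ K := mul_le_mul_left (conj_le hz hk K) _
      _ = z ^ (K + 1 + K) := by rw [← pow_add]
  · have h3 := (pow_mul_le hc n).trans (pow_le_pow_left' hc n)
    rw [e1] at h3
    calc ⁅g, h⁆ ^ n = (⁅g, h⁆ ^ n * g⁻¹ ^ n) * (g⁻¹ ^ n)⁻¹ := by rw [mul_inv_cancel_right]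
      _ ≤ (h * g⁻¹ ^ n * h⁻¹) * (g⁻¹ ^ n)⁻¹ := mul_le_mul_left h3 _
      _ ≤ (z ^ K * g⁻¹ ^ n * z ^ K) * (g⁻¹ ^ n)⁻¹ :=
          mul_le_mul_left (mul_le_mul' (mul_le_mul_left h1 _) h2) _
      _ = z ^ K * (((g⁻¹ ^ n)⁻¹)⁻¹ * z ^ K * (g⁻¹ ^ n)⁻¹) := by
          simp only [mul_assoc, inv_inv]
      _ ≤ z ^ K * z ^ (K + 1) := mul_le_mul_right (conj_le hz (inv_mem hk) K) _
      _ = z ^ (K + 1 + K) := by rw [← pow_add, add_comm]

theorem perfect_trivial (Z : Set G) (hZ : Z.Finite)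
    (hp : Subgroup.closure Z ≤ ⁅Subgroup.closure Z, Subgroup.closure Z⁆) :
    Subgroup.closure Z = ⊥ := by
  rw [Subgroup.closure_eq_bot_iff]
  intro y hy
  by_contra hy1
  obtain ⟨w, hw, hmax⟩ := Set.exists_max_image Z (fun g => max g g⁻¹) hZ ⟨y, hy⟩
  set z := max w w⁻¹ with hzdef
  have hz : 1 < z := by
    refine lt_of_lt_of_le ?_ (hmax y hy)
    rcases lt_trichotomy y 1 with h | h | h
    · refine lt_max_of_lt_right (lt_of_le_of_ne ?_ ?_)
      · simpa using inv_le_of h.le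
      · intro h'
        exact hy1 (by simpa using h'.symm)
    · exact absurd h hy1
    · exact lt_max_of_lt_left h
  have hB : Subgroup.closure Z ≤ Bd z hz.le := by
    rw [Subgroup.closure_le]
    intro g hg
    refine ⟨1, ?_, ?_⟩
    · rw [pow_one]; exact (le_max_left _ _).trans (hmax g hg)
    · rw [pow_one]; exact (le_max_right _ _).trans (hmax g hg)
  have hC : ⁅Subgroup.closure Z, Subgroup.closure Z⁆ ≤ Inf z hz.le := by
    rw [Subgroup.commutator_le]
    intro g hg h hh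
    obtain ⟨K, hK⟩ := comm_bd hz (hB hg) (hB hh)
    obtain ⟨L, hL⟩ := comm_bd hz (hB hh) (hB hg)
    refine ⟨K + L, fun n => ⟨(hK n).trans (pow_mono' hz.le (by omega)), ?_⟩⟩
    rw [commutatorElement_inv]
    exact (hL n).trans (pow_mono' hz.le (by omega))
  have hzA : z ∈ Subgroup.closure Z := by
    rcases max_choice w w⁻¹ with h | h
    · rw [hzdef, h]; exact Subgroup.subset_closure hw
    · rw [hzdef, h]; exact inv_mem (Subgroup.subset_closure hw)
  obtain ⟨K, hK⟩ := hC (hp hzA)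
  have h4 := (hK (K + 1)).1
  rw [pow_succ] at h4
  have h5 := mul_le_mul_right h4 (z ^ K)⁻¹
  simp only [inv_mul_cancel_left, inv_mul_cancel] at h5
  exact absurd hz (not_lt.2 h5)

end OrderPart

theorem metab {Γ : Type} [Group Γ] (M : Subgroup Γ) [hN : M.Normal]
    (hM : ∀ a ∈ M, ∀ b ∈ M, a * b = b * a)
    (hK : ∀ a ∈ commutator Γ, ∀ b ∈ commutator Γ, a * b = b * a)
    (hgen : ∀ g : Γ, ∃ k ∈ commutator Γ, ∃ m ∈ M, g = k * m) : commutator Γ = ⊥ := by
  have h1 : ⁅⁅M, (⊤ : Subgroup Γ)⁆, (⊤ : Subgroup Γ)⁆ = ⊥ := by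
    rw [Subgroup.commutator_eq_bot_iff_le_centralizer]
    intro x hx
    have hxM : x ∈ M := Subgroup.commutator_le_left _ _ hx
    have hxK : x ∈ commutator Γ := Subgroup.commutator_mono le_top le_rfl hx
    rw [Subgroup.mem_centralizer_iff]
    intro g _
    obtain ⟨k, hk, m, hm, rfl⟩ := hgen g
    rw [mul_assoc, hM m hm x hxM, ← mul_assoc, hK k hk x hxK, mul_assoc]
  have h2 : ⁅⁅(⊤ : Subgroup Γ), (⊤ : Subgroup Γ)⁆, M⁆ = ⊥ :=
    Subgroup.commutator_commutator_eq_bot_of_rotate (by rw [Subgroup.commutator_comm ⊤ M]; exact h1)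
      h1
  rw [Subgroup.commutator_eq_bot_iff_le_centralizer] at h2
  have h3 : ∀ k ∈ commutator Γ, ∀ m ∈ M, m * k = k * m := fun k hk m hm =>
    Subgroup.mem_centralizer_iff.1 (h2 hk) m hm
  rw [eq_bot_iff, commutator_def, Subgroup.commutator_le]
  intro g _ g' _
  obtain ⟨k, hk, m, hm, rfl⟩ := hgen g
  obtain ⟨k', hk', m', hm', rfl⟩ := hgen g'
  rw [Subgroup.mem_bot, commutatorElement_eq_one_iff_mul_comm]
  calc k * m * (k' * m') = k * (m * k') * m' := by simp only [mul_assoc]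
    _ = (k * k') * (m * m') := by rw [h3 k' hk' m hm]; simp only [mul_assoc]
    _ = (k' * k) * (m' * m) := by rw [hK k hk k' hk', hM m hm m' hm']
    _ = k' * (k * m') * m := by simp only [mul_assoc]
    _ = k' * m' * (k * m) := by rw [← h3 k hk m' hm']; simp only [mul_assoc]

theorem cm {G H : Type} [Group G] [Group H] (q : G →* H) (hq : Function.Surjective q) :
    commutator H = (commutator G).map q := by
  rw [commutator_def, commutator_def, Subgroup.map_commutator, Subgroup.map_top_of_surjective q hq]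

theorem perfect_comm {G : Type} [Group G] (M : Subgroup G) [hN : M.Normal]
    (hM : ∀ a ∈ M, ∀ b ∈ M, a * b = b * a)
    (hgen : ∀ g : G, ∃ k ∈ commutator G, ∃ m ∈ M, g = k * m) :
    commutator G ≤ ⁅commutator G, commutator G⁆ := by
  let q := QuotientGroup.mk' ⁅commutator G, commutator G⁆
  have hq : Function.Surjective q := QuotientGroup.mk'_surjective _
  have hc : commutator (G ⧸ ⁅commutator G, commutator G⁆) = (commutator G).map q := by
    exact cm q hq
  have : (M.map q).Normal := hN.map q hq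
  have h1 := metab (M.map q)
    (by rintro _ ⟨a, ha, rfl⟩ _ ⟨b, hb, rfl⟩; rw [← map_mul, ← map_mul, hM a ha b hb])
    (by
      rw [hc]
      rintro _ ⟨a, ha, rfl⟩ _ ⟨b, hb, rfl⟩
      rw [← commutatorElement_eq_one_iff_mul_comm, ← map_commutatorElement]
      exact (QuotientGroup.eq_one_iff _).2 (Subgroup.commutator_mem_commutator ha hb))
    (by
      intro g
      obtain ⟨g, rfl⟩ := hq g
      obtain ⟨k, hk, m, hm, rfl⟩ := hgen g
      exact ⟨q k, hc ▸ ⟨k, hk, rfl⟩, q m, ⟨m, hm, rfl⟩, map_mul _ _ _⟩)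
  rw [hc, Subgroup.map_eq_bot_iff, QuotientGroup.ker_mk'] at h1
  exact h1

theorem fg_comm {G ι : Type} [Group G] [Finite ι] (x : ι → G)
    (hx : Subgroup.closure (Set.range x) = ⊤) (M : Subgroup G) [hN : M.Normal]
    (hM : ∀ a ∈ M, ∀ b ∈ M, a * b = b * a)
    (hgen : ∀ g : G, ∃ k ∈ commutator G, ∃ m ∈ M, g = k * m) :
    ∃ Z : Set G, Z.Finite ∧ Subgroup.closure Z = commutator G := by
  choose w hw h hh e using fun i => hgen (x i)
  let Z : Set G := Set.range w ∪ Set.range (fun p : ι × ι => ⁅h p.1, w p.2⁆)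
  refine ⟨Z, (Set.finite_range _).union (Set.finite_range _), le_antisymm ?_ ?_⟩
  · rw [Subgroup.closure_le]
    rintro _ (⟨i, rfl⟩ | ⟨p, rfl⟩)
    · exact hw i
    · exact Subgroup.commutator_mem_commutator (Subgroup.mem_top _) (Subgroup.mem_top _)
  · have hwA : ∀ j, w j ∈ Subgroup.closure Z := fun j => Subgroup.subset_closure (Or.inl ⟨j, rfl⟩)
    have hcA : ∀ i j, ⁅h i, w j⁆ ∈ Subgroup.closure Z := fun i j =>
      Subgroup.subset_closure (Or.inr ⟨(i, j), rfl⟩)
    have hcM : ∀ i j, ⁅h i, w j⁆ ∈ M := fun i j => by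
      have := M.mul_mem (hh i) (hN.conj_mem _ (M.inv_mem (hh i)) (w j))
      rw [commutatorElement_def]
      simpa only [mul_assoc] using this
    have conj : ∀ m ∈ M, (∀ j, m * w j * m⁻¹ ∈ Subgroup.closure Z) →
        ∀ a ∈ Subgroup.closure Z, m * a * m⁻¹ ∈ Subgroup.closure Z := by
      intro m hm h1 a ha
      have : Subgroup.closure Z ≤ (Subgroup.closure Z).comap (MulAut.conj m).toMonoidHom := by
        rw [Subgroup.closure_le]
        rintro _ (⟨i, rfl⟩ | ⟨p, rfl⟩)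
        · exact h1 i
        · show m * ⁅h p.1, w p.2⁆ * m⁻¹ ∈ Subgroup.closure Z
          rw [hM m hm _ (hcM _ _), mul_inv_cancel_right]
          exact hcA _ _
      exact this ha
    have hnorm : ∀ i, h i ∈ Subgroup.normalizer (Subgroup.closure Z : Set G) := by
      intro i
      rw [Subgroup.mem_normalizer_iff]
      intro a
      constructor
      · apply conj _ (hh i)
        intro j
        have := (Subgroup.closure Z).mul_mem (hcA i j) (hwA j)
        rw [commutatorElement_def] at this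
        simpa using this
      · intro ha
        have := conj _ (M.inv_mem (hh i)) (fun j => by
          have h2 := (Subgroup.closure Z).mul_mem ((Subgroup.closure Z).inv_mem (hcA i j)) (hwA j)
          have h3 := hM _ (M.inv_mem (hh i)) _ (hN.conj_mem _ (hh i) (w j))
          have h4 : (h i)⁻¹ * w j * (h i)⁻¹⁻¹ = ⁅h i, w j⁆⁻¹ * w j := by
            rw [commutatorElement_def]
            calc (h i)⁻¹ * w j * (h i)⁻¹⁻¹ = ((h i)⁻¹ * (w j * h i * (w j)⁻¹)) * w j := by group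
              _ = (w j * h i * (w j)⁻¹ * (h i)⁻¹) * w j := by rw [h3]
              _ = _ := by group
          rw [h4]; exact h2) _ ha
        simpa [mul_assoc] using this
    have hA : (Subgroup.closure Z).Normal := by
      rw [← Subgroup.normalizer_eq_top_iff, eq_top_iff, ← hx, Subgroup.closure_le]
      rintro _ ⟨i, rfl⟩
      rw [e i]
      exact Subgroup.mul_mem _ (Subgroup.le_normalizer (hwA i)) (hnorm i)
    let q := QuotientGroup.mk' (Subgroup.closure Z)
    have hqx : ∀ i, q (x i) = q (h i) := by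
      intro i
      rw [e i, map_mul, show q (w i) = 1 from (QuotientGroup.eq_one_iff _).2 (hwA i), one_mul]
    have c1 : ∀ i, ∀ g, q g * q (x i) = q (x i) * q g := by
      intro i g
      have : Subgroup.closure (Set.range x) ≤ (Subgroup.centralizer {q (x i)}).comap q := by
        rw [Subgroup.closure_le]
        rintro _ ⟨j, rfl⟩
        show q (x j) ∈ Subgroup.centralizer {q (x i)}
        rw [Subgroup.mem_centralizer_iff]
        rintro _ rfl
        rw [hqx, hqx, ← map_mul, ← map_mul, hM _ (hh i) _ (hh j)]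
      have h2 := this (hx ▸ Subgroup.mem_top g)
      exact (Subgroup.mem_centralizer_iff.1 h2 _ rfl).symm
    have c2 : ∀ g g', q g * q g' = q g' * q g := by
      intro g g'
      have : Subgroup.closure (Set.range x) ≤ (Subgroup.centralizer {q g}).comap q := by
        rw [Subgroup.closure_le]
        rintro _ ⟨j, rfl⟩
        show q (x j) ∈ Subgroup.centralizer {q g}
        rw [Subgroup.mem_centralizer_iff]
        rintro _ rfl
        exact c1 j g
      have h2 := this (hx ▸ Subgroup.mem_top g')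
      exact Subgroup.mem_centralizer_iff.1 h2 _ rfl
    rw [commutator_def, Subgroup.commutator_le]
    intro g _ g' _
    rw [← QuotientGroup.eq_one_iff]
    show q ⁅g, g'⁆ = 1
    rw [map_commutatorElement, commutatorElement_eq_one_iff_mul_comm]
    exact c2 g g'

theorem right_order {F X : Type} [Group F] [LinearOrder X] (φ : F →* Equiv.Perm X)
    (hφ : ∀ g, StrictMono (φ g)) :
    ∃ o : LinearOrder (F ⧸ φ.ker), ∀ a b c : F ⧸ φ.ker, a ≤ b → a * c ≤ b * c := by
  obtain ⟨lo, wf⟩ := exists_wellFoundedLT (α := PLift X)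
  let ψ : F ⧸ φ.ker →* Equiv.Perm X := QuotientGroup.kerLift φ
  have hψ : Function.Injective ψ := QuotientGroup.kerLift_injective φ
  have hm : ∀ a, StrictMono (ψ a) := by
    intro a
    obtain ⟨g, rfl⟩ := QuotientGroup.mk_surjective a
    exact hφ g
  let ι : F ⧸ φ.ker → Lex (PLift X → X) := fun a => toLex fun i => ψ a⁻¹ i.down
  have hι : Function.Injective ι := by
    intro a b h
    apply inv_injective
    apply hψ
    ext x
    exact congrFun h ⟨x⟩
  refine ⟨LinearOrder.lift' ι hι, fun a b c hab => ?_⟩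
  have hab' : ι a ≤ ι b := hab
  show ι (a * c) ≤ ι (b * c)
  rcases hab'.eq_or_lt with h | h
  · rw [hι h]
  · obtain ⟨i, h1, h2⟩ := h
    refine le_of_lt ⟨i, fun j hj => ?_, ?_⟩
    · have := h1 j hj
      show ψ (a * c)⁻¹ j.down = ψ (b * c)⁻¹ j.down
      rw [mul_inv_rev, mul_inv_rev, map_mul, map_mul, Equiv.Perm.mul_apply, Equiv.Perm.mul_apply]
      exact congrArg _ this
    · show ψ (a * c)⁻¹ i.down < ψ (b * c)⁻¹ i.down
      rw [mul_inv_rev, mul_inv_rev, map_mul, map_mul, Equiv.Perm.mul_apply, Equiv.Perm.mul_apply]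
      exact hm _ h2

theorem main {ι X : Type} [Finite ι] [LinearOrder X] (φ : FreeGroup ι →* Equiv.Perm X)
    (hne : ∃ g, φ g ≠ 1)
    (hp : ∀ i, φ (FreeGroup.of i) ∈ (commutator (FreeGroup ι)).map φ) :
    ¬ ∃ o : LinearOrder (FreeGroup ι ⧸ ⁅φ.ker, φ.ker⁆),
        (∀ a b c : FreeGroup ι ⧸ ⁅φ.ker, φ.ker⁆, a ≤ b → c * a ≤ c * b) ∧
        (∀ a b c : FreeGroup ι ⧸ ⁅φ.ker, φ.ker⁆, a ≤ b → a * c ≤ b * c) := by
  rintro ⟨o, hl, hr⟩
  have : MulLeftMono (FreeGroup ι ⧸ ⁅φ.ker, φ.ker⁆) := ⟨fun c a b h => hl a b c h⟩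
  have : MulRightMono (FreeGroup ι ⧸ ⁅φ.ker, φ.ker⁆) := ⟨fun c a b h => hr a b c h⟩
  let q := QuotientGroup.mk' ⁅φ.ker, φ.ker⁆
  have hq : Function.Surjective q := QuotientGroup.mk'_surjective _
  have hc : commutator (FreeGroup ι ⧸ ⁅φ.ker, φ.ker⁆) = (commutator (FreeGroup ι)).map q := by
    exact cm q hq
  have hN : (φ.ker.map q).Normal := φ.normal_ker.map q hq
  have hM : ∀ a ∈ φ.ker.map q, ∀ b ∈ φ.ker.map q, a * b = b * a := by
    rintro _ ⟨a, ha, rfl⟩ _ ⟨b, hb, rfl⟩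
    rw [← commutatorElement_eq_one_iff_mul_comm, ← map_commutatorElement]
    exact (QuotientGroup.eq_one_iff _).2 (Subgroup.commutator_mem_commutator ha hb)
  have hall : ∀ g, φ g ∈ (commutator (FreeGroup ι)).map φ := by
    intro g
    have : Subgroup.closure (Set.range (FreeGroup.of : ι → FreeGroup ι)) ≤
        ((commutator (FreeGroup ι)).map φ).comap φ := by
      rw [Subgroup.closure_le]
      rintro _ ⟨i, rfl⟩
      exact hp i
    exact this (FreeGroup.closure_range_of ι ▸ Subgroup.mem_top g)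
  have hgen : ∀ g : FreeGroup ι ⧸ ⁅φ.ker, φ.ker⁆, ∃ k ∈ commutator (FreeGroup ι ⧸ ⁅φ.ker, φ.ker⁆),
      ∃ m ∈ φ.ker.map q, g = k * m := by
    intro g
    obtain ⟨g, rfl⟩ := hq g
    obtain ⟨w, hw, e⟩ := hall g
    refine ⟨q w, hc ▸ ⟨w, hw, rfl⟩, q (w⁻¹ * g), ⟨_, ?_, rfl⟩, ?_⟩
    · show φ (w⁻¹ * g) = 1
      rw [map_mul, map_inv, e, inv_mul_cancel]
    · rw [← map_mul, mul_inv_cancel_left]
  obtain ⟨Z, hZ, hZc⟩ := fg_comm (fun i => q (FreeGroup.of i)) (by
    have : Set.range (fun i => q (FreeGroup.of i)) = q '' Set.range FreeGroup.of := by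
      rw [← Set.range_comp]; rfl
    rw [this, ← MonoidHom.map_closure, FreeGroup.closure_range_of,
      Subgroup.map_top_of_surjective q hq]) _ hM hgen
  have h1 := perfect_trivial Z hZ (by rw [hZc]; exact perfect_comm _ hM hgen)
  rw [hZc, hc, Subgroup.map_eq_bot_iff, QuotientGroup.ker_mk'] at h1
  obtain ⟨g, hg⟩ := hne
  obtain ⟨w, hw, e⟩ := hall g
  apply hg
  rw [← e]
  exact Subgroup.commutator_le_left _ _ (h1 hw)

abbrev X := Lex (ℤ × WithTop ℝ)

noncomputable def af (l t : ℝ) (p : X) : X := toLex (p.1, p.2.map fun q => l * q + t)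

open Classical in
noncomputable def sf (p : X) : X :=
  WithTop.recTopCoe (toLex (p.1 + 1, ((0 : ℝ) : WithTop ℝ)))
    (fun q : ℝ => if q < 0 then toLex (p.1, ((-1 / q : ℝ) : WithTop ℝ)) else if q = 0 then toLex (p.1, ⊤)
      else toLex (p.1 + 1, ((-1 / q : ℝ) : WithTop ℝ))) p.2

open Classical in
noncomputable def sg (p : X) : X :=
  WithTop.recTopCoe (toLex (p.1, ((0 : ℝ) : WithTop ℝ)))
    (fun q : ℝ => if q < 0 then toLex (p.1 - 1, ((-1 / q : ℝ) : WithTop ℝ)) else if q = 0 then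
      toLex (p.1 - 1, ⊤) else toLex (p.1, ((-1 / q : ℝ) : WithTop ℝ))) p.2

theorem af_top (l t : ℝ) (n : ℤ) : af l t (toLex (n, ⊤)) = toLex (n, ⊤) := rfl
theorem af_coe (l t : ℝ) (n : ℤ) (q : ℝ) :
    af l t (toLex (n, (q : WithTop ℝ))) = toLex (n, ((l * q + t : ℝ) : WithTop ℝ)) := rfl
theorem sf_top (n : ℤ) : sf (toLex (n, ⊤)) = toLex (n + 1, ((0 : ℝ) : WithTop ℝ)) := rfl
theorem sf_neg (n : ℤ) {q : ℝ} (h : q < 0) :
    sf (toLex (n, (q : WithTop ℝ))) = toLex (n, ((-1 / q : ℝ) : WithTop ℝ)) := if_pos h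
theorem sf_zero (n : ℤ) {q : ℝ} (h : q = 0) :
    sf (toLex (n, (q : WithTop ℝ))) = toLex (n, ⊤) := (if_neg (by simp [h])).trans (if_pos h)
theorem sf_pos (n : ℤ) {q : ℝ} (h : 0 < q) :
    sf (toLex (n, (q : WithTop ℝ))) = toLex (n + 1, ((-1 / q : ℝ) : WithTop ℝ)) :=
  (if_neg h.le.not_gt).trans (if_neg h.ne')
theorem sg_top (n : ℤ) : sg (toLex (n, ⊤)) = toLex (n, ((0 : ℝ) : WithTop ℝ)) := rfl
theorem sg_neg (n : ℤ) {q : ℝ} (h : q < 0) :
    sg (toLex (n, (q : WithTop ℝ))) = toLex (n - 1, ((-1 / q : ℝ) : WithTop ℝ)) := if_pos h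
theorem sg_zero (n : ℤ) {q : ℝ} (h : q = 0) :
    sg (toLex (n, (q : WithTop ℝ))) = toLex (n - 1, ⊤) := (if_neg (by simp [h])).trans (if_pos h)
theorem sg_pos (n : ℤ) {q : ℝ} (h : 0 < q) :
    sg (toLex (n, (q : WithTop ℝ))) = toLex (n, ((-1 / q : ℝ) : WithTop ℝ)) :=
  (if_neg h.le.not_gt).trans (if_neg h.ne')

theorem X_ind {P : X → Prop} (h1 : ∀ n : ℤ, P (toLex (n, ⊤)))
    (h2 : ∀ (n : ℤ) (q : ℝ), P (toLex (n, (q : WithTop ℝ)))) (p : X) : P p := by
  obtain ⟨n, x⟩ := p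
  induction x using WithTop.recTopCoe with
  | top => exact h1 n
  | coe q => exact h2 n q

theorem nd_pos {q : ℝ} (h : q < 0) : 0 < -1 / q := div_pos_of_neg_of_neg (by norm_num) h
theorem nd_neg {q : ℝ} (h : 0 < q) : -1 / q < 0 := div_neg_of_neg_of_pos (by norm_num) h

noncomputable def A (l : ℝ) (hl : l ≠ 0) (t : ℝ) : Equiv.Perm X where
  toFun := af l t
  invFun := af l⁻¹ (-(l⁻¹ * t))
  left_inv := X_ind (fun n => rfl) (fun n q => by
    rw [af_coe, af_coe]; congr 3; field_simp; ring)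
  right_inv := X_ind (fun n => rfl) (fun n q => by
    rw [af_coe, af_coe]; congr 3; field_simp; ring)

noncomputable def S : Equiv.Perm X where
  toFun := sf
  invFun := sg
  left_inv := X_ind (fun n => by rw [sf_top, sg_zero _ rfl]; simp) (fun n q => by
    rcases lt_trichotomy q 0 with h | h | h
    · rw [sf_neg _ h, sg_pos _ (nd_pos h)]; simp
    · rw [sf_zero _ h, sg_top, h]
    · rw [sf_pos _ h, sg_neg _ (nd_neg h)]; simp)
  right_inv := X_ind (fun n => by rw [sg_top, sf_zero _ rfl]) (fun n q => by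
    rcases lt_trichotomy q 0 with h | h | h
    · rw [sg_neg _ h, sf_pos _ (nd_pos h)]; simp
    · rw [sg_zero _ h, sf_top, h]; simp
    · rw [sg_pos _ h, sf_neg _ (nd_neg h)]; simp)

theorem A_mono {l : ℝ} (hl : 0 < l) (t : ℝ) : StrictMono (A l hl.ne' t) := by
  intro p p'
  show p < p' → af l t p < af l t p'
  induction p using X_ind <;> induction p' using X_ind <;>
    simp only [af_top, af_coe, Prod.Lex.toLex_lt_toLex, WithTop.coe_lt_coe, WithTop.coe_lt_top,
      not_top_lt, imp_self]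
  rintro (h | ⟨h1, h2⟩)
  · exact Or.inl h
  · exact Or.inr ⟨h1, by nlinarith⟩

theorem nd_lt {p q : ℝ} (h : p < q) (hpq : 0 < p * q) : -1 / p < -1 / q := by
  have hp : p ≠ 0 := by rintro rfl; simp at hpq
  have hq : q ≠ 0 := by rintro rfl; simp at hpq
  have : -1 / q - -1 / p = (q - p) / (p * q) := by field_simp; ring
  have h2 : 0 < (q - p) / (p * q) := div_pos (by linarith) hpq
  linarith

theorem lt_tt (n m : ℤ) : (toLex (n, ⊤) : X) < toLex (m, ⊤) ↔ n < m := by
  simp [Prod.Lex.toLex_lt_toLex]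
theorem lt_tc (n m : ℤ) (q : ℝ) : (toLex (n, ⊤) : X) < toLex (m, (q : WithTop ℝ)) ↔ n < m := by
  simp [Prod.Lex.toLex_lt_toLex]
theorem lt_ct (n m : ℤ) (q : ℝ) : (toLex (n, (q : WithTop ℝ)) : X) < toLex (m, ⊤) ↔ n ≤ m := by
  simp [Prod.Lex.toLex_lt_toLex, le_iff_lt_or_eq]
theorem lt_cc (n m : ℤ) (p q : ℝ) : (toLex (n, (p : WithTop ℝ)) : X) < toLex (m, (q : WithTop ℝ))
    ↔ n < m ∨ (n = m ∧ p < q) := by
  simp [Prod.Lex.toLex_lt_toLex]
theorem cc_of_le {n m : ℤ} {p q : ℝ} (h : n ≤ m) (h' : p < q) : n < m ∨ (n = m ∧ p < q) := by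
  rcases h.lt_or_eq with h | h
  · exact Or.inl h
  · exact Or.inr ⟨h, h'⟩

theorem S_mono : StrictMono S := by
  intro p p'
  show p < p' → sf p < sf p'
  induction p using X_ind with
  | h1 n =>
    induction p' using X_ind with
    | h1 m =>
      rw [sf_top, sf_top, lt_tt, lt_cc]
      intro h; left; omega
    | h2 m q =>
      rcases lt_trichotomy q 0 with h | h | h
      · rw [sf_top, sf_neg _ h, lt_tc, lt_cc]
        intro h1; exact cc_of_le (by omega) (nd_pos h)
      · rw [sf_top, sf_zero _ h, lt_tc, lt_ct]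
        omega
      · rw [sf_top, sf_pos _ h, lt_tc, lt_cc]
        intro h; left; omega
  | h2 n p =>
    induction p' using X_ind with
    | h1 m =>
      rcases lt_trichotomy p 0 with h | h | h
      · rw [sf_top, sf_neg _ h, lt_ct, lt_cc]
        intro h; left; omega
      · rw [sf_top, sf_zero _ h, lt_ct, lt_tc]
        omega
      · rw [sf_top, sf_pos _ h, lt_ct, lt_cc]
        intro h1; exact cc_of_le (by omega) (nd_neg h)
    | h2 m q =>
      rcases lt_trichotomy p 0 with h | h | h <;> rcases lt_trichotomy q 0 with h' | h' | h'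
      · rw [sf_neg _ h, sf_neg _ h', lt_cc, lt_cc]
        rintro (h1 | ⟨h1, h2⟩)
        · exact Or.inl h1
        · exact Or.inr ⟨h1, nd_lt h2 (mul_pos_of_neg_of_neg h h')⟩
      · rw [sf_neg _ h, sf_zero _ h', lt_cc, lt_ct]
        rintro (h1 | ⟨h1, h2⟩) <;> omega
      · rw [sf_neg _ h, sf_pos _ h', lt_cc, lt_cc]
        rintro (h1 | ⟨h1, h2⟩) <;> left <;> omega
      · rw [sf_zero _ h, sf_neg _ h', lt_cc, lt_tc]
        rintro (h1 | ⟨h1, h2⟩)
        · exact h1
        · linarith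
      · rw [sf_zero _ h, sf_zero _ h', lt_cc, lt_tt]
        rintro (h1 | ⟨h1, h2⟩)
        · exact h1
        · linarith
      · rw [sf_zero _ h, sf_pos _ h', lt_cc, lt_tc]
        rintro (h1 | ⟨h1, h2⟩) <;> omega
      · rw [sf_pos _ h, sf_neg _ h', lt_cc, lt_cc]
        rintro (h1 | ⟨h1, h2⟩)
        · exact cc_of_le (by omega) ((nd_neg h).trans (nd_pos h'))
        · linarith
      · rw [sf_pos _ h, sf_zero _ h', lt_cc, lt_ct]
        rintro (h1 | ⟨h1, h2⟩)
        · omega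
        · linarith
      · rw [sf_pos _ h, sf_pos _ h', lt_cc, lt_cc]
        rintro (h1 | ⟨h1, h2⟩)
        · left; omega
        · exact Or.inr ⟨by omega, nd_lt h2 (mul_pos h h')⟩

theorem rel (μ : ℝ) (hμ : 0 < μ) :
    A 1 one_ne_zero μ * S * A 1 one_ne_zero (1 / μ) =
      A (μ ^ 2) (by positivity) 0 * S * A 1 one_ne_zero (-μ) * S := by
  apply Equiv.ext
  intro p
  show af 1 μ (sf (af 1 (1 / μ) p)) = af (μ ^ 2) 0 (sf (af 1 (-μ) (sf p)))
  have hμ' : μ ≠ 0 := hμ.ne'
  induction p using X_ind with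
  | h1 n =>
    rw [af_top, sf_top, af_coe, af_coe, sf_neg _ (by linarith), af_coe]
    congr 3
    rw [show 1 * (0 : ℝ) + -μ = -μ by ring]
    field_simp; ring
  | h2 n q =>
    rw [af_coe]
    have h1 : 0 < 1 / μ := by positivity
    rcases lt_trichotomy q 0 with h | h | h
    · rw [sf_neg _ h, af_coe]
      have hq : q ≠ 0 := h.ne
      have e : 1 * (-1 / q) + -μ = (μ / (-q)) * (1 * q + 1 / μ) := by field_simp; ring
      have h2 : 0 < μ / (-q) := div_pos hμ (by linarith)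
      rcases lt_trichotomy (1 * q + 1 / μ) 0 with h' | h' | h'
      · rw [sf_neg _ h', sf_neg _ (by rw [e]; exact mul_neg_of_pos_of_neg h2 h'), af_coe, af_coe, e]
        have := h'.ne
        congr 3
        generalize hr : 1 * q + 1 / μ = r at *
        have : q = r - 1 / μ := by linarith
        field_simp
        rw [this]; field_simp; ring
      · rw [sf_zero _ h', sf_zero _ (by rw [e, h', mul_zero]), af_top, af_top]
      · rw [sf_pos _ h', sf_pos _ (by rw [e]; exact mul_pos h2 h'), af_coe, af_coe, e]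
        have := h'.ne'
        congr 3
        generalize hr : 1 * q + 1 / μ = r at *
        have : q = r - 1 / μ := by linarith
        field_simp
        rw [this]; field_simp; ring
    · rw [sf_zero _ h, af_top, sf_top, af_coe, sf_pos _ (by rw [h]; linarith), af_coe, h]
      congr 3; field_simp; ring
    · have h3 := nd_neg h
      have hq : q ≠ 0 := h.ne'
      rw [sf_pos _ h, af_coe, sf_pos _ (by linarith), sf_neg _ (by linarith), af_coe, af_coe]
      have e : 1 * (-1 / q) + -μ = (μ / (-q)) * (1 * q + 1 / μ) := by field_simp; ring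
      have h4 : 1 * q + 1 / μ ≠ 0 := by positivity
      rw [e]
      congr 3
      generalize hr : 1 * q + 1 / μ = r at *
      have : q = r - 1 / μ := by linarith
      field_simp
      rw [this]; field_simp; ring

theorem A_mul (l l' : ℝ) (hl : l ≠ 0) (hl' : l' ≠ 0) (t t' : ℝ) :
    A l hl t * A l' hl' t' = A (l * l') (mul_ne_zero hl hl') (l * t' + t) := by
  apply Equiv.ext
  intro p
  show af l t (af l' t' p) = af (l * l') (l * t' + t) p
  induction p using X_ind with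
  | h1 n => rfl
  | h2 n q => rw [af_coe, af_coe, af_coe]; congr 3; ring

theorem A_congr {l l' : ℝ} {hl : l ≠ 0} {hl' : l' ≠ 0} {t t' : ℝ} (h1 : l = l') (h2 : t = t') :
    A l hl t = A l' hl' t' := by subst h1 h2; rfl

theorem A_one : A 1 one_ne_zero 0 = 1 := by
  apply Equiv.ext
  intro p
  show af 1 0 p = p
  induction p using X_ind with
  | h1 n => rfl
  | h2 n q => rw [af_coe]; simp

noncomputable def gens : Fin 4 → Equiv.Perm X :=
  ![A 1 one_ne_zero 1, A 1 one_ne_zero (Real.sqrt 2), S, A 2 two_ne_zero 0]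

noncomputable def φ : FreeGroup (Fin 4) →* Equiv.Perm X := FreeGroup.lift gens

theorem φ_mono (g : FreeGroup (Fin 4)) : StrictMono (φ g) := by
  induction g using FreeGroup.induction_on with
  | C1 => rw [map_one]; exact strictMono_id
  | of i =>
    rw [φ, FreeGroup.lift_apply_of]
    fin_cases i
    · exact A_mono one_pos _
    · exact A_mono one_pos _
    · exact S_mono
    · exact A_mono two_pos _
  | inv_of i h =>
    rw [map_inv]
    intro a b hab
    apply h.lt_iff_lt.1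
    simpa using hab
  | mul a b ha hb => rw [map_mul]; exact ha.comp hb

theorem φ_perfect (i : Fin 4) : φ (FreeGroup.of i) ∈ (commutator (FreeGroup (Fin 4))).map φ := by
  set P := (commutator (FreeGroup (Fin 4))).map φ
  have hc : ∀ a ∈ φ.range, ∀ b ∈ φ.range, a * b * a⁻¹ * b⁻¹ ∈ P := by
    rintro _ ⟨a, rfl⟩ _ ⟨b, rfl⟩
    exact ⟨⁅a, b⁆, Subgroup.commutator_mem_commutator (Subgroup.mem_top _) (Subgroup.mem_top _), by
      rw [map_commutatorElement, commutatorElement_def]⟩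
  have hconj : ∀ a ∈ φ.range, ∀ b ∈ φ.range, b ∈ P → a * b * a⁻¹ ∈ P := by
    intro a ha b hb hbP
    simpa using P.mul_mem (hc a ha b hb) hbP
  have hr : ∀ i, gens i ∈ φ.range := fun i => ⟨FreeGroup.of i, by rw [φ, FreeGroup.lift_apply_of]⟩
  have r0 : A 1 one_ne_zero 1 ∈ φ.range := hr 0
  have r1 : A 1 one_ne_zero (Real.sqrt 2) ∈ φ.range := hr 1
  have r2 : S ∈ φ.range := hr 2
  have r3 : A 2 two_ne_zero 0 ∈ φ.range := hr 3
  have hu : ∀ t, A 1 one_ne_zero t ∈ φ.range → A 1 one_ne_zero t ∈ P := by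
    intro t ht
    have h1 := hc _ r3 _ ht
    have h2 : A 2 two_ne_zero 0 * A 1 one_ne_zero t =
        A 1 one_ne_zero t * A 1 one_ne_zero t * A 2 two_ne_zero 0 := by
      simp only [A_mul]
      exact A_congr (by ring) (by ring)
    rw [h2] at h1
    simpa using h1
  have hinv : ∀ t, A 1 one_ne_zero (-t) = (A 1 one_ne_zero t)⁻¹ := by
    intro t
    rw [eq_inv_iff_mul_eq_one, A_mul, ← A_one]
    exact A_congr (by ring) (by ring)
  have key : ∀ (μ : ℝ) (hμ : 0 < μ), A 1 one_ne_zero μ ∈ φ.range →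
      A 1 one_ne_zero (1 / μ) ∈ φ.range → A (μ ^ 2) (by positivity) 0 * S ∈ P := by
    intro μ hμ h1 h2
    have h3 := rel μ hμ
    rw [hinv] at h3
    have h4 : A (μ ^ 2) (by positivity) 0 * S = A 1 one_ne_zero μ * (S * A 1 one_ne_zero (1 / μ) * S⁻¹)
        * A 1 one_ne_zero μ := by
      rw [← mul_assoc, ← mul_assoc, h3]; group
    rw [h4]
    exact P.mul_mem (P.mul_mem (hu _ h1) (hconj _ r2 _ h2 (hu _ h2))) (hu _ h1)
  have hS : S ∈ P := by
    have := key 1 one_pos r0 (by rw [div_one]; exact r0)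
    rwa [show A ((1 : ℝ) ^ 2) (by positivity) 0 = 1 from
      (A_congr (by ring) rfl).trans A_one, one_mul] at this
  have hs : 0 < Real.sqrt 2 := by positivity
  have hs2 : Real.sqrt 2 ^ 2 = 2 := Real.sq_sqrt (by norm_num)
  have hD : A 2 two_ne_zero 0 ∈ P := by
    have h1 : A 2 two_ne_zero 0 * A 1 one_ne_zero (1 / Real.sqrt 2) =
        A 1 one_ne_zero (Real.sqrt 2) * A 2 two_ne_zero 0 := by
      simp only [A_mul]
      refine A_congr (by ring) ?_
      field_simp
      linarith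
    have h2 : A 1 one_ne_zero (1 / Real.sqrt 2) ∈ φ.range := by
      have := φ.range.mul_mem (φ.range.inv_mem r3) (φ.range.mul_mem r1 r3)
      rwa [← h1, inv_mul_cancel_left] at this
    have h3 := key _ hs r1 h2
    rw [show A (Real.sqrt 2 ^ 2) (by positivity) 0 = A 2 two_ne_zero 0 from A_congr hs2 rfl] at h3
    simpa using P.mul_mem h3 (P.inv_mem hS)
  rw [φ, FreeGroup.lift_apply_of]
  fin_cases i
  · exact hu _ r0
  · exact hu _ r1
  · exact hS
  · exact hD

/-- The negation of the preceding statement: For every free group F and normal subgroup H, if F/H admits a right-invariant linear order, then F/[H,H] admits a linear order invariant under both left and right multiplication. -/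
theorem result :
    ¬ (∀ (α : Type) (H : Subgroup (FreeGroup α)) [H.Normal],
      (∃ o : LinearOrder (FreeGroup α ⧸ H),
          ∀ a b c : FreeGroup α ⧸ H, a ≤ b → a * c ≤ b * c) →
      ∃ o : LinearOrder (FreeGroup α ⧸ ⁅H, H⁆),
        (∀ a b c : FreeGroup α ⧸ ⁅H, H⁆, a ≤ b → c * a ≤ c * b) ∧
        (∀ a b c : FreeGroup α ⧸ ⁅H, H⁆, a ≤ b → a * c ≤ b * c)) := by
  intro h
  refine main φ ⟨FreeGroup.of 2, ?_⟩ φ_perfect (h _ φ.ker (right_order φ φ_mono))
  rw [φ, FreeGroup.lift_apply_of]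
  intro h1
  have h2 : sf (toLex (0, ⊤)) = toLex (0, ⊤) := congrArg (fun f : Equiv.Perm X => f (toLex (0, ⊤))) h1
  rw [sf_top] at h2
  simp at h2

end Pool.Agent.S03530
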