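import Pool.Statements.S03533
import Pool.Agent.H28.LiePr

set_option autoImplicit false
open Pool Pool.MP_f38670_al

namespace Pool.Agent.S03533


/-- There is a field K and a Lie algebra L over K such that L is infinite-dimensional over K, but every Lie subalgebra of L other than L itself is finite-dimensional over K. -/
theorem result :
    ∃ (K : Type) (_ : Field K) (L : Type) (_ : LieRing L) (_ : LieAlgebra K L),
      ¬ FiniteDimensional K L ∧
        ∀ H : LieSubalgebra K L, H ≠ ⊤ → FiniteDimensional K H := by
  obtain ⟨K, iK, L, iL, iA, h1, h2⟩ := Pool.Agent.H28.LiePr.main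
  refine ⟨K, iK, L, iL, iA, ?_, h2⟩
  intro hfin
  apply h1
  obtain ⟨s, hs⟩ := Module.Finite.fg_top (R := K) (M := L)
  refine ⟨s, s.finite_toSet, ?_⟩
  rw [eq_top_iff]
  intro x _
  have hx : x ∈ Submodule.span K (s : Set L) := by rw [hs]; trivial
  exact LieSubalgebra.submodule_span_le_lieSpan hx

end Pool.Agent.S03533
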