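import Pool.Statements.S03547
import Pool.Agent.H15.Lev

set_option autoImplicit false
universe u
open Pool Pool.MP_f49b6d_al

namespace Pool.Agent.S03547

theorem result :
    ∀ (G : Type u) [Group G] [Infinite G],
      ∃ f : G → ℕ, ∀ n : ℕ,
        (∀ L : Set G,
          (∃ F : Set G, Cardinal.mk F < Cardinal.mk G ∧
              ∀ g : G, ∃ x ∈ F, ∃ y ∈ L, g = x * y) →
          (∃ F : Set G, Cardinal.mk F < Cardinal.mk G ∧
              ∀ g : G, ∃ x ∈ F, ∃ y ∈ L, f y ≠ n ∧ g = x * y)) ∧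
        (∀ L : Set G,
          (∃ F : Set G, Cardinal.mk F < Cardinal.mk G ∧
              ∀ g : G, ∃ x ∈ F, ∃ y ∈ L, g = y * x) →
          (∃ F : Set G, Cardinal.mk F < Cardinal.mk G ∧
              ∀ g : G, ∃ x ∈ F, ∃ y ∈ L, f y ≠ n ∧ g = y * x)) := by
  intro G _ _
  obtain ⟨f, hf⟩ := H15.Lev.exists_LS G
  have key : ∀ (n : ℕ) (L : Set G), (∃ F : Set G, Cardinal.mk F < Cardinal.mk G ∧
      ∀ g : G, ∃ x ∈ F, ∃ y ∈ L, g = x * y) → ∃ F : Set G, Cardinal.mk F < Cardinal.mk G ∧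
      ∀ g : G, ∃ x ∈ F, ∃ y ∈ L, f y ≠ n ∧ g = x * y := by
    rintro n L ⟨F, hF, h⟩
    obtain ⟨T, hT, k⟩ := hf n F⁻¹ (by simpa using hF)
    refine ⟨Set.image2 (fun t a => t⁻¹ * a) T F, Cardinal.mk_image2_le.trans_lt
      (Cardinal.mul_lt_of_lt (Cardinal.aleph0_le_mk G) hT hF), fun g => ?_⟩
    obtain ⟨t, ht, e⟩ := k g
    obtain ⟨a, ha, y, hy, m⟩ := h (t * g)
    exact ⟨_, ⟨t, ht, a, ha, rfl⟩, y, hy, by simpa [m] using e a⁻¹ (by simpa using ha),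
      by rw [mul_assoc, ← m, inv_mul_cancel_left]⟩
  refine ⟨fun g => Nat.pair (f g) (f g⁻¹), fun n => ⟨fun L h => ?_, fun L ⟨F, hF, h⟩ => ?_⟩⟩
  · obtain ⟨F, hF, k⟩ := key n.unpair.1 L h
    refine ⟨F, hF, fun g => ?_⟩
    obtain ⟨x, hx, y, hy, a, b⟩ := k g
    exact ⟨x, hx, y, hy, fun e => a (by simp [← e]), b⟩
  · obtain ⟨F, hF, k⟩ := key n.unpair.2 L⁻¹ ⟨F⁻¹, by simpa using hF, fun g => by
      obtain ⟨x, hx, y, hy, e⟩ := h g⁻¹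
      exact ⟨x⁻¹, by simpa using hx, y⁻¹, by simpa using hy, by rw [← mul_inv_rev, ← e, inv_inv]⟩⟩
    refine ⟨F⁻¹, by simpa using hF, fun g => ?_⟩
    obtain ⟨x, hx, y, hy, a, b⟩ := k g⁻¹
    exact ⟨x⁻¹, by simpa using hx, y⁻¹, hy, fun e => a (by simp [← e]),
      by rw [← mul_inv_rev, ← b, inv_inv]⟩

end Pool.Agent.S03547
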