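import Pool.Statements.S03570
-- import your own Pool.Agent.* helpers here

set_option autoImplicit false
open Pool Pool.MP_f67ce1_al

namespace Pool.Agent.S03570

abbrev PP := ∀ n : ℕ, Matrix (Fin n) (Fin n) ℚ

def S : Subring PP where
  carrier := {A | (∀ n, (A n).BlockTriangular id) ∧
    ∃ c : ℚ, ∀ᶠ n in Filter.cofinite, A n = c • (1 : Matrix (Fin n) (Fin n) ℚ)}
  mul_mem' := by
    rintro A B ⟨a1, c, a2⟩ ⟨b1, d, b2⟩
    refine ⟨fun n => (a1 n).mul (b1 n), c * d, ?_⟩
    filter_upwards [a2, b2] with n h1 h2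
    rw [Pi.mul_apply, h1, h2, smul_mul_smul_comm, mul_one]
  one_mem' := ⟨fun n => Matrix.blockTriangular_one, 1, by simp⟩
  add_mem' := by
    rintro A B ⟨a1, c, a2⟩ ⟨b1, d, b2⟩
    refine ⟨fun n => (a1 n).add (b1 n), c + d, ?_⟩
    filter_upwards [a2, b2] with n h1 h2
    rw [Pi.add_apply, h1, h2, add_smul]
  zero_mem' := ⟨fun n => Matrix.blockTriangular_zero, 0, by simp⟩
  neg_mem' := by
    rintro A ⟨a1, c, a2⟩
    refine ⟨fun n => (a1 n).neg, -c, ?_⟩
    filter_upwards [a2] with n h1
    rw [Pi.neg_apply, h1, neg_smul]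

noncomputable def emb (n : ℕ) (M : Matrix (Fin n) (Fin n) ℚ) (h : M.BlockTriangular id) : S :=
  ⟨Pi.single n M, fun k => by
    by_cases e : k = n
    · subst e; simpa using h
    · rw [Pi.single_eq_of_ne e]; exact Matrix.blockTriangular_zero, 0, by
    filter_upwards [(Set.finite_singleton n).compl_mem_cofinite] with k hk
    rw [Pi.single_eq_of_ne hk, zero_smul]⟩

lemma emb_same (n : ℕ) (M : Matrix (Fin n) (Fin n) ℚ) (h : M.BlockTriangular id) :
    (emb n M h).1 n = M := by simp [emb]

lemma emb_ne (n : ℕ) (M : Matrix (Fin n) (Fin n) ℚ) (h : M.BlockTriangular id) {k : ℕ}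
    (e : k ≠ n) : (emb n M h).1 k = 0 := by simp [emb, e]

lemma tri {n : ℕ} {i j : Fin n} (h : i ≤ j) (c : ℚ) :
    (Matrix.single i j c).BlockTriangular id := by
  intro a b hab
  rw [Matrix.single_apply, if_neg]
  rintro ⟨rfl, rfl⟩
  exact absurd h (not_le.mpr hab)

noncomputable def E {n : ℕ} {i j : Fin n} (h : i ≤ j) (c : ℚ) : S := emb n _ (tri h c)

lemma Sext {x y : S} (n : ℕ) (h1 : x.1 n = y.1 n) (h2 : ∀ k, k ≠ n → x.1 k = y.1 k) : x = y := by
  apply Subtype.ext
  funext k
  by_cases e : k = n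
  · subst e; exact h1
  · exact h2 k e

lemma mul_app (x y : S) (n : ℕ) : (x * y).1 n = x.1 n * y.1 n := rfl

abbrev rm {R : Type} [Ring R] (e : R) : R →ₗ[R] R := LinearMap.toSpanSingleton R R e

lemma split {R : Type} [Ring R] (N : Submodule R R) (e : R)
    (h1 : Module.Projective R (N.map (rm e))) (h2 : Module.Projective R (N ⊓ LinearMap.ker (rm e) : Submodule R R)) :
    Module.Projective R N := by
  let g : N →ₗ[R] N.map (rm e) := (rm e).submoduleMap N
  have hg : Function.Surjective g := LinearMap.submoduleMap_surjective _ _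
  obtain ⟨s, hs⟩ := Module.projective_lifting_property g LinearMap.id hg
  have hs' : ∀ y, (s y).1 * e = y.1 := fun y => congrArg Subtype.val (LinearMap.congr_fun hs y)
  let a : N →ₗ[R] (N ⊓ LinearMap.ker (rm e) : Submodule R R) :=
    LinearMap.codRestrict _ (N.subtype ∘ₗ (LinearMap.id - s ∘ₗ g)) (fun x => ⟨(x - s (g x)).2, by
      show (x.1 - (s (g x)).1) * e = 0
      rw [sub_mul, hs']; exact sub_self _⟩)
  refine Module.Projective.of_split (a.prod g)
    ((Submodule.inclusion inf_le_left).coprod s) ?_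
  ext x
  show x.1 - (s (g x)).1 + (s (g x)).1 = x.1
  simp

lemma col {n : ℕ} (k : Fin n) (N : Submodule S S) (h : ∀ x ∈ N, x * E (le_refl k) 1 = x) :
    Module.Projective S N := by
  classical
  have h0 : ∀ x ∈ N, ∀ i j, j ≠ k → x.1 n i j = 0 := fun x hx i j hj => by
    rw [← h x hx, mul_app, E, emb_same, Matrix.mul_single_apply_of_ne _ _ _ _ _ hj]
  by_cases hN : ∃ m, ∃ x ∈ N, x.1 n m k ≠ 0
  · obtain ⟨m, hm, hmax⟩ := (Finset.univ.filter fun m => ∃ x ∈ N, x.1 n m k ≠ 0).exists_max_image id
      (let ⟨m, hm⟩ := hN; ⟨m, by simpa using hm⟩)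
    simp only [Finset.mem_filter, Finset.mem_univ, true_and, id] at hm hmax
    obtain ⟨x, hx, hx0⟩ := hm
    have hmk : m ≤ k := by
      by_contra hh
      exact hx0 (x.2.1 n (not_le.mp hh))
    have hu : E hmk 1 ∈ N := by
      have := N.smul_mem (E (le_refl m) (x.1 n m k)⁻¹) hx
      convert this using 1
      refine Sext n ?_ (fun j hj => ?_)
      · rw [smul_eq_mul, mul_app, E, E, emb_same, emb_same]
        ext a b
        by_cases ha : a = m
        · subst ha
          rw [Matrix.single_mul_apply_same]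
          by_cases hb : b = k
          · subst hb; simp [hx0]
          · rw [h0 x hx _ _ hb]; simp [Ne.symm hb]
        · rw [Matrix.single_mul_apply_of_ne _ _ _ _ _ ha]; simp [Ne.symm ha]
      · rw [smul_eq_mul, mul_app, E, E, emb_ne _ _ _ hj, emb_ne _ _ _ hj, zero_mul]
    have ht : ∀ y : N, (y.1.1 n * Matrix.single k m (1 : ℚ)).BlockTriangular id := by
      intro y a b hab
      by_cases hb : b = m
      · subst hb
        rw [Matrix.mul_single_apply_same, mul_one]
        by_contra hh
        exact absurd (hmax a ⟨y.1, y.2, hh⟩) (not_le.mpr hab)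
      · rw [Matrix.mul_single_apply_of_ne _ _ _ _ _ hb]
    let i : N →ₗ[S] S :=
      { toFun := fun y => emb n _ (ht y)
        map_add' := fun y z => Sext n (by
            show _ = (emb n _ (ht y)).1 n + (emb n _ (ht z)).1 n
            rw [emb_same, emb_same, emb_same, ← add_mul]; rfl) (fun j hj => by
            show _ = (emb n _ (ht y)).1 j + (emb n _ (ht z)).1 j
            rw [emb_ne _ _ _ hj, emb_ne _ _ _ hj, emb_ne _ _ _ hj, add_zero])
        map_smul' := fun r y => Sext n (by
            show _ = r.1 n * (emb n _ (ht y)).1 n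
            rw [emb_same, emb_same, ← mul_assoc]; rfl) (fun j hj => by
            show _ = r.1 j * (emb n _ (ht y)).1 j
            rw [emb_ne _ _ _ hj, emb_ne _ _ _ hj, mul_zero]) }
    refine Module.Projective.of_split i (LinearMap.toSpanSingleton S N ⟨_, hu⟩) ?_
    refine LinearMap.ext fun y => Subtype.ext ?_
    show emb n _ (ht y) * E hmk 1 = y.1
    refine Eq.trans ?_ (h y.1 y.2)
    refine Sext n ?_ (fun j hj => ?_)
    · rw [mul_app, mul_app, E, E, emb_same, emb_same, emb_same, mul_assoc,
        Matrix.single_mul_single_same, mul_one]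
    · rw [mul_app, mul_app, E, E, emb_ne _ _ _ hj, emb_ne _ _ _ hj, emb_ne _ _ _ hj, mul_zero, mul_zero]
  · push Not at hN
    have : Subsingleton N := ⟨fun y z => by
      have hz : ∀ y : N, y.1 = 0 := fun y => by
        refine Sext n ?_ (fun j hj => ?_)
        · ext a b
          by_cases hb : b = k
          · subst hb; exact hN a y.1 y.2
          · exact h0 y.1 y.2 a b hb
        · rw [← h y.1 y.2, mul_app, E, emb_ne _ _ _ hj, mul_zero]; rfl
      exact Subtype.ext ((hz y).trans (hz z).symm)⟩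
    infer_instance

lemma blk (n k : ℕ) : ∀ N : Submodule S S, (∀ x ∈ N, (∀ j, j ≠ n → x.1 j = 0) ∧
    ∀ a b : Fin n, k ≤ b.1 → x.1 n a b = 0) → Module.Projective S N := by
  induction k with
  | zero =>
    intro N h
    have : Subsingleton N := ⟨fun y z => by
      have hz : ∀ y : N, y.1 = 0 := fun y => by
        refine Sext n ?_ (h y.1 y.2).1
        ext a b
        exact (h y.1 y.2).2 a b (Nat.zero_le _)
      exact Subtype.ext ((hz y).trans (hz z).symm)⟩
    infer_instance
  | succ k ih =>
    intro N h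
    by_cases hk : k < n
    · refine split N (E (le_refl (⟨k, hk⟩ : Fin n)) 1) (col ⟨k, hk⟩ _ ?_) (ih _ ?_)
      · rintro _ ⟨x, -, rfl⟩
        show x * _ * _ = x * _
        rw [mul_assoc]
        congr 1
        refine Sext n ?_ (fun j hj => ?_)
        · rw [mul_app, E, emb_same, Matrix.single_mul_single_same, mul_one]
        · rw [mul_app, E, emb_ne _ _ _ hj, mul_zero]
      · rintro x ⟨hx, hx2⟩
        refine ⟨(h x hx).1, fun a b hb => ?_⟩
        by_cases e : b = ⟨k, hk⟩
        · have : (x * E (le_refl (⟨k, hk⟩ : Fin n)) 1).1 n a b = 0 := by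
            have : x * E (le_refl (⟨k, hk⟩ : Fin n)) 1 = 0 := hx2
            rw [this]; rfl
          rw [mul_app, E, emb_same, e, Matrix.mul_single_apply_same, mul_one] at this
          rw [e]; exact this
        · exact (h x hx).2 a b (by have : b.1 ≠ k := fun h => e (Fin.ext h)
                                   omega)
    · exact ih N (fun x hx => ⟨(h x hx).1, fun a b hb => by have := b.2; omega⟩)

noncomputable def ee (n : ℕ) : S := emb n 1 Matrix.blockTriangular_one

lemma ee_comm (n : ℕ) (x : S) : x * ee n = ee n * x :=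
  Sext n (by rw [mul_app, mul_app, ee, emb_same, mul_one, one_mul]) (fun j hj => by
    rw [mul_app, mul_app, ee, emb_ne _ _ _ hj, mul_zero, zero_mul])

lemma hered (L : Submodule S S) : Module.Projective S L := by
  classical
  obtain ⟨f, hf, hfin⟩ : ∃ f ∈ L, ∀ x ∈ L, {n | (x - x * f).1 n ≠ 0}.Finite := by
    by_cases h : ∀ x ∈ L, {n | x.1 n ≠ 0}.Finite
    · exact ⟨0, L.zero_mem, by simpa using h⟩
    · push Not at h
      obtain ⟨y, hy, h⟩ := h
      obtain ⟨c, hc⟩ := y.2.2
      have hc0 : c ≠ 0 := by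
        rintro rfl
        exact h (by simpa [Filter.eventually_cofinite] using hc)
      let d : S := ⟨fun n => c⁻¹ • 1, fun n => fun a b hab => by
        show (c⁻¹ • (1 : Matrix (Fin n) (Fin n) ℚ)) a b = 0
        rw [Matrix.smul_apply, Matrix.blockTriangular_one hab, smul_zero], c⁻¹, by simp⟩
      refine ⟨d * y, L.smul_mem d hy, fun x _ => (Filter.eventually_cofinite.mp hc).subset ?_⟩
      intro n hn h1
      apply hn
      show x.1 n - x.1 n * ((c⁻¹ • 1) * y.1 n) = 0
      rw [h1, smul_mul_smul_comm, inv_mul_cancel₀ hc0]; simp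
  have hP : ∀ n, Module.Projective S (L.map (rm (ee n))) := fun n => blk n n _ (by
    rintro _ ⟨x, -, rfl⟩
    refine ⟨fun j hj => ?_, fun a b hb => by have := b.2; omega⟩
    show (x * ee n).1 j = 0
    rw [mul_app, ee, emb_ne _ _ _ hj, mul_zero])
  have hle : ∀ n, L.map (rm (ee n)) ≤ L := by
    rintro n _ ⟨x, hx, rfl⟩
    show x * ee n ∈ L
    rw [ee_comm]; exact L.smul_mem _ hx
  refine Module.Projective.of_lifting_property'' (fun π hπ => ?_)
  choose h hh using fun n => Module.projective_lifting_property π (Submodule.inclusion (hle n)) hπ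
  obtain ⟨f', hf'⟩ := hπ ⟨f, hf⟩
  let q : L →ₗ[S] L := LinearMap.id - LinearMap.toSpanSingleton S L ⟨f, hf⟩ ∘ₗ L.subtype
  let g : ℕ → L →ₗ[S] (L →₀ S) := fun n => h n ∘ₗ (rm (ee n)).submoduleMap L ∘ₗ q
  have hz : ∀ (x : L) n, (x.1 - x.1 * f).1 n = 0 → (rm (ee n)).submoduleMap L (q x) = 0 := by
    intro x n hn
    apply Subtype.ext
    show (x.1 - x.1 * f) * ee n = 0
    refine Sext n ?_ (fun j hj => ?_)
    · rw [mul_app, hn, zero_mul]; rfl
    · rw [mul_app, ee, emb_ne _ _ _ hj, mul_zero]; rfl
  have hsup : ∀ x : L, Function.support (fun n => g n x) ⊆ (hfin x.1 x.2).toFinset := by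
    intro x n hn
    simp only [Set.Finite.coe_toFinset, Set.mem_ofPred_eq]
    intro h0
    apply hn
    show h n _ = 0
    rw [LinearMap.comp_apply, hz x n h0, map_zero]
  have hs : ∀ x : L, Function.HasFiniteSupport (fun n => g n x) := fun x =>
    (Finset.finite_toSet _).subset (hsup x)
  let G : L →ₗ[S] (L →₀ S) :=
    { toFun := fun x => ∑ᶠ n, g n x
      map_add' := fun x y => by
        simp only [map_add]; exact finsum_add_distrib (hs x) (hs y)
      map_smul' := fun r x => by
        simp only [map_smul, RingHom.id_apply]; exact (smul_finsum' r (hs x)).symm }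
  refine ⟨LinearMap.toSpanSingleton S _ f' ∘ₗ L.subtype + G, LinearMap.ext fun x => ?_⟩
  show π (x.1 • f' + ∑ᶠ n, g n x) = x
  rw [finsum_eq_sum_of_support_subset _ (hsup x), map_add, map_smul, hf', map_sum]
  have e1 : ∀ n, (π (g n x)).1 = (x.1 - x.1 * f) * ee n := fun n =>
    congrArg Subtype.val (LinearMap.congr_fun (hh n) _)
  apply Subtype.ext
  rw [Submodule.coe_add, Submodule.coe_sum]
  simp only [e1]
  show x.1 * f + _ = x.1
  rw [← eq_sub_iff_add_eq']
  generalize hfin x.1 x.2 = hF
  generalize x.1 - x.1 * f = z at hF ⊢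
  apply Subtype.ext
  funext n
  rw [AddSubmonoidClass.coe_finsetSum, Finset.sum_apply, Finset.sum_eq_single n]
  · rw [mul_app, ee, emb_same, mul_one]
  · intro j _ hj
    rw [mul_app, ee, emb_ne _ _ _ hj.symm, mul_zero]
  · intro hn
    have : z.1 n = 0 := by simpa using hn
    rw [mul_app, this, zero_mul]

lemma lst (n k : ℕ) (hk : k < n + 1) : ∃ l : List S, l.length = k ∧
    (∀ x ∈ l, ∀ r, x * r * x = 0) ∧ l.prod.1 (n + 1) 0 ⟨k, hk⟩ = 1 := by
  induction k with
  | zero => exact ⟨[], rfl, by simp, by simp⟩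
  | succ k ih =>
    obtain ⟨l, h1, h2, h3⟩ := ih (by omega)
    have hle : (⟨k, by omega⟩ : Fin (n + 1)) ≤ ⟨k + 1, hk⟩ := by simp [Fin.le_def]
    refine ⟨l ++ [E hle 1], by simp [h1], ?_, ?_⟩
    · intro x hx r
      rcases List.mem_append.mp hx with hx | hx
      · exact h2 x hx r
      · rw [List.mem_singleton.mp hx]
        refine Sext (n + 1) ?_ (fun j hj => ?_)
        · rw [mul_app, mul_app, E, emb_same, Matrix.single_mul_mul_single, r.2.1 (n + 1)
            (by simp [Fin.lt_def])]
          simp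
        · rw [mul_app, E, emb_ne _ _ _ hj, mul_zero]; rfl
    · rw [List.prod_append, List.prod_singleton, mul_app, E, emb_same,
        Matrix.mul_single_apply_same, h3, mul_one]
/-- The negation of the preceding statement: For every ring whose left ideals are all projective, its prime radical (intersection of all prime two-sided ideals) is nilpotent, and the quotient of the ring by the prime radical again has all left ideals projective. -/
theorem result :
    ¬ (∀ (R : Type) [Ring R], (∀ I : Submodule R R, Module.Projective R I) →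
      (∃ n : ℕ, ∀ l : List R, l.length = n →
          (∀ x ∈ l, ∀ J : TwoSidedIdeal R,
            ((∃ y : R, y ∉ J) ∧ ∀ a b : R, (∀ r : R, a * r * b ∈ J) → a ∈ J ∨ b ∈ J) →
              x ∈ J) →
          l.prod = 0) ∧
      ∀ (S : Type) [Ring S] (f : R →+* S), Function.Surjective f →
        (∀ x : R, f x = 0 ↔
          ∀ J : TwoSidedIdeal R,
            ((∃ y : R, y ∉ J) ∧ ∀ a b : R, (∀ r : R, a * r * b ∈ J) → a ∈ J ∨ b ∈ J) →
              x ∈ J) →
        ∀ I : Submodule S S, Module.Projective S I) := by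
  intro H
  obtain ⟨n, hn⟩ := (H S hered).1
  obtain ⟨l, h1, h2, h3⟩ := lst n n (by omega)
  rw [hn l h1 (fun x hx J hJ => (hJ.2 x x (fun r => by rw [h2 x hx r]; exact J.zero_mem)).elim id id)] at h3
  exact zero_ne_one h3

end Pool.Agent.S03570
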