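import Pool.Statements.S03579
import Pool.Agent.H5.FreeSep

set_option autoImplicit false
open Pool Pool.MP_f762b7_al

namespace Pool.Agent.S03579

open Pool.Agent.H5.FreeZ Polynomial

theorem fg_step {R : Type*} [CommRing R] [IsDomain R] [IsPrincipalIdealRing R] {E : Type*}
    [AddCommGroup E] [Module R E] (N N' : Submodule R E) (hle : N ≤ N') (hfg : N'.FG)
    (hsat : ∀ r : R, r ≠ 0 → ∀ y ∈ N', r • y ∈ N → y ∈ N) (B : Set E) (hB : Good B N) :
    ∃ B', B ⊆ B' ∧ Good B' N' := by
  have h1 : Module.Finite R N' := Module.Finite.iff_fg.mpr hfg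
  have h2 : Module.IsTorsionFree R (N' ⧸ N.comap N'.subtype) := by
    refine Module.IsTorsionFree.of_smul_eq_zero fun r m h => ?_
    obtain ⟨y, rfl⟩ := Submodule.Quotient.mk_surjective _ m
    by_cases hr : r = 0
    · exact Or.inl hr
    · right
      rw [← Submodule.Quotient.mk_smul, Submodule.Quotient.mk_eq_zero] at h
      rw [Submodule.Quotient.mk_eq_zero]
      exact hsat r hr y y.2 h
  refine ext_step N N' hle (N.comap N'.subtype).mkQ (fun y => ?_) B hB
  rw [Submodule.mkQ_apply, Submodule.Quotient.mk_eq_zero]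
  rfl

section perf
variable (p : ℕ) [Fact p.Prime] (k : Type*) [Field k] (E : Type*) [Field E] [CharP E p]
  [Algebra k[X] E]

def NN (n : ℕ) : Submodule k[X] E where
  carrier := {y | ∃ r : k[X], algebraMap k[X] E r = y ^ p ^ n}
  zero_mem' := ⟨0, by rw [map_zero, zero_pow (pow_ne_zero n (Fact.out : p.Prime).ne_zero)]⟩
  add_mem' := by
    rintro a b ⟨r, hr⟩ ⟨s, hs⟩
    exact ⟨r + s, by rw [map_add, hr, hs, add_pow_char_pow]⟩
  smul_mem' := by
    rintro c a ⟨r, hr⟩
    exact ⟨c ^ p ^ n * r, by rw [map_mul, map_pow, hr, Algebra.smul_def, mul_pow]⟩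

theorem NN_int (n : ℕ) (y : E) (hy : y ∈ NN p k E n) : IsIntegral k[X] y := by
  obtain ⟨r, hr⟩ := hy
  refine IsIntegral.of_pow (pow_pos (Fact.out : p.Prime).pos n) ?_
  rw [← hr]
  exact isIntegral_algebraMap

theorem NN_mono : Monotone (NN p k E) := by
  refine monotone_nat_of_le_succ fun n y hy => ?_
  obtain ⟨r, hr⟩ := hy
  exact ⟨r ^ p, by rw [map_pow, hr, ← pow_mul, ← pow_succ]⟩

theorem NN_fg [CharP k p] [PerfectRing k p] [IsAlgClosed E] (n : ℕ) : (NN p k E n).FG := by
  have hq : 0 < p ^ n := pow_pos (Fact.out : p.Prime).pos n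
  obtain ⟨t, ht⟩ := IsAlgClosed.exists_pow_nat_eq (algebraMap k[X] E X) hq
  have hti : IsIntegral k[X] t := NN_int p k E n t ⟨X, ht.symm⟩
  have hN : IsNoetherian k[X] (Algebra.adjoin k[X] {t}).toSubmodule :=
    isNoetherian_of_fg_of_noetherian _ hti.fg_adjoin_singleton
  refine isNoetherian_submodule.mp hN _ ?_
  have key : ∀ r : k[X], ∃ z ∈ Algebra.adjoin k[X] {t}, z ^ p ^ n = algebraMap k[X] E r := by
    intro r
    induction r using Polynomial.induction_on' with
    | add a b ha hb =>
      obtain ⟨z, hz, e1⟩ := ha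
      obtain ⟨w, hw, e2⟩ := hb
      exact ⟨z + w, add_mem hz hw, by rw [add_pow_char_pow, e1, e2, map_add]⟩
    | monomial m a =>
      obtain ⟨b, rfl⟩ := (bijective_iterateFrobenius k p n).2 a
      refine ⟨algebraMap k[X] E (C b) * t ^ m,
        mul_mem (Subalgebra.algebraMap_mem _ _) (pow_mem (Algebra.self_mem_adjoin_singleton _ _) _), ?_⟩
      rw [mul_pow, ← pow_mul, mul_comm m, pow_mul, ht,
        ← C_mul_X_pow_eq_monomial, iterateFrobenius_def, C_pow, map_mul, map_pow, map_pow]
  rintro y ⟨r, hr⟩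
  obtain ⟨z, hz, e⟩ := key r
  have : (y - z) ^ p ^ n = 0 := by rw [sub_pow_char_pow, e, hr, sub_self]
  rw [sub_eq_zero.mp (pow_eq_zero_iff hq.ne' |>.mp this)]
  exact hz

theorem perf_case [CharP k p] [PerfectRing k p] [IsAlgClosed E] [FaithfulSMul k[X] E]
    [Algebra.IsAlgebraic k[X] E] :
    ∃ f : integralClosure k[X] E →ₗ[k[X]] k[X], f ≠ 0 := by
  let K := FractionRing k[X]
  let _ : Algebra K E := FractionRing.liftAlgebra k[X] E
  have hT : IsScalarTower k[X] K E := FractionRing.isScalarTower_liftAlgebra k[X] E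
  have hKE : Algebra.IsAlgebraic K E := Algebra.IsAlgebraic.extendScalars (R := k[X])
    (IsFractionRing.injective k[X] K)
  have hK : CharP K p := (algebraMap K E).charP (algebraMap K E).injective p
  have hKe : ExpChar K p := ExpChar.prime Fact.out
  have hdown : ∀ (y : E) (a : K), IsIntegral k[X] y → algebraMap K E a = y →
      ∃ r : k[X], algebraMap k[X] E r = y := by
    rintro _ a hy rfl
    obtain ⟨r, rfl⟩ := IsIntegrallyClosed.algebraMap_eq_of_integral
      ((isIntegral_algebraMap_iff (algebraMap K E).injective).mp hy)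
    exact ⟨r, IsScalarTower.algebraMap_apply _ _ _ _⟩
  have hinj := FaithfulSMul.algebraMap_injective k[X] E
  obtain ⟨B0, -, hB0⟩ := fg_step ⊥ (NN p k E 0) bot_le (NN_fg p k E 0) (by
    intro r hr y _ h
    rw [Submodule.mem_bot] at h ⊢
    rw [Algebra.smul_def, mul_eq_zero] at h
    exact h.resolve_left fun h0 => hr (hinj (by rw [h0, map_zero]))) ∅
    ⟨linearIndepOn_empty _ _, Submodule.span_empty⟩
  obtain ⟨B1, hB1⟩ := seqB (NN p k E) (fun n B hB => fg_step _ _ (NN_mono p k E (Nat.le_succ n))
    (NN_fg p k E (n + 1)) (by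
      rintro r hr y hy ⟨s, hs⟩
      have h0 : algebraMap k[X] E r ≠ 0 := fun h0 => hr (hinj (by rw [h0, map_zero]))
      refine hdown _ (algebraMap k[X] K s / algebraMap k[X] K r ^ p ^ n)
        ((NN_int p k E _ y hy).pow _) ?_
      rw [map_div₀, map_pow, ← IsScalarTower.algebraMap_apply, ← IsScalarTower.algebraMap_apply, hs,
        Algebra.smul_def, mul_pow, mul_div_cancel_left₀ _ (pow_ne_zero _ h0)]) B hB) B0 hB0
  let K0 := perfectClosure K E
  have hT1 : IsScalarTower k[X] K0 E := IsScalarTower.of_algebraMap_eq fun r => rfl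
  have hF : FaithfulSMul k[X] K0 := by
    rw [faithfulSMul_iff_algebraMap_injective]
    intro a b h
    apply hinj
    rw [IsScalarTower.algebraMap_apply k[X] K0 E, h, ← IsScalarTower.algebraMap_apply]
  have heq : (⨆ n, NN p k E n) = RL k[X] (⊥ : IntermediateField K0 E) := by
    ext y
    rw [Submodule.mem_iSup_of_directed _ (NN_mono p k E).directed_le, mem_RL,
      IntermediateField.mem_bot]
    constructor
    · rintro ⟨n, hn⟩
      refine ⟨⟨⟨y, (mem_perfectClosure_iff_pow_mem p).mpr ⟨n, ?_⟩⟩, rfl⟩, NN_int p k E n y hn⟩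
      obtain ⟨r, hr⟩ := hn
      exact ⟨algebraMap k[X] K r, by rw [← IsScalarTower.algebraMap_apply, hr]⟩
    · rintro ⟨⟨z, rfl⟩, hi⟩
      obtain ⟨n, a, ha⟩ := (mem_perfectClosure_iff_pow_mem p).mp z.2
      exact ⟨n, hdown _ a (hi.pow _) ha⟩
  rw [heq] at hB1
  obtain ⟨B, hB⟩ := sep_all k[X] B1 hB1
  have hfree := free_of_good B _ hB
  let b := Module.Free.chooseBasis k[X] (RL k[X] (⊤ : IntermediateField K0 E))
  let j : integralClosure k[X] E →ₗ[k[X]] RL k[X] (⊤ : IntermediateField K0 E) :=
    { toFun := fun y => ⟨y, trivial, y.2⟩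
      map_add' := fun _ _ => rfl
      map_smul' := fun _ _ => rfl }
  have h1 : b.repr (j 1) ≠ 0 := by
    rw [ne_eq, LinearEquiv.map_eq_zero_iff]
    intro h
    exact one_ne_zero (congrArg Subtype.val h)
  obtain ⟨i, hi⟩ := Finsupp.ne_iff.mp h1
  exact ⟨(b.coord i).comp j, fun h => hi (by simpa using LinearMap.congr_fun h 1)⟩

end perf

attribute [local instance] Polynomial.algebra in
/-- For every field k of prime characteristic p, the integral closure of k[x] in an algebraic closure of k(x) admits a nonzero k[x]-linear map to k[x]. -/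
theorem result :
    ∀ (p : ℕ), p.Prime → ∀ (k : Type) [Field k] [CharP k p],
      ∃ f : ↥(integralClosure (Polynomial k) (AlgebraicClosure (FractionRing (Polynomial k))))
          →ₗ[Polynomial k] Polynomial k, f ≠ 0 := by
  intro p hp k _ _
  have : Fact p.Prime := ⟨hp⟩
  set E := AlgebraicClosure (FractionRing k[X]) with hE
  let k' := algebraicClosure k E
  have hE' : CharP E p := charP_of_injective_algebraMap (algebraMap k E).injective p
  have hk' : CharP k' p := charP_of_injective_algebraMap (algebraMap k k').injective p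
  have hac : IsAlgClosed k' := IsAlgClosure.isAlgClosed k
  let x : E := algebraMap k[X] E X
  have hinj : Function.Injective (algebraMap k[X] E) := by
    rw [IsScalarTower.algebraMap_eq k[X] (FractionRing k[X]) E]
    exact (algebraMap (FractionRing k[X]) E).injective.comp (IsFractionRing.injective _ _)
  have hae : ∀ r : k[X], aeval x r = algebraMap k[X] E r := fun r => by
    simp only [x]
    rw [aeval_algebraMap_apply, aeval_X_left_apply]
  have hx : Transcendental k x := by
    rw [transcendental_iff_injective]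
    intro a b h
    apply hinj
    rw [← hae, ← hae]; exact h
  have hx' : Transcendental k' x := hx.extendScalars k'
  let _ : Algebra k'[X] E := (aeval x : k'[X] →ₐ[k'] E).toRingHom.toAlgebra
  have hT : IsScalarTower k[X] k'[X] E := IsScalarTower.of_algebraMap_eq fun r => by
    rw [← hae]
    exact (aeval_map_algebraMap k' x r).symm
  have hF : FaithfulSMul k'[X] E :=
    (faithfulSMul_iff_algebraMap_injective _ _).mpr (transcendental_iff_injective.mp hx')
  have hA0 : Algebra.IsAlgebraic k[X] E :=
    (IsFractionRing.comap_isAlgebraic_iff (A := k[X]) (K := FractionRing k[X])).mpr inferInstance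
  have hA : Algebra.IsAlgebraic k'[X] E := Algebra.IsAlgebraic.extendScalars (R := k[X])
    (map_injective _ (algebraMap k k').injective)
  obtain ⟨f, hf⟩ := perf_case p k' E
  obtain ⟨y0, hy0⟩ : ∃ y, f y ≠ 0 := by
    by_contra hc
    push Not at hc
    exact hf (LinearMap.ext hc)
  obtain ⟨m, hm⟩ : ∃ m, (f y0).coeff m ≠ 0 := by
    by_contra hc
    push Not at hc
    exact hy0 (Polynomial.ext fun m => by simpa using hc m)
  obtain ⟨lam, hlam⟩ := Module.Projective.exists_dual_ne_zero k hm
  let pi : k'[X] → k[X] := fun s => ∑ i ∈ s.support, monomial i (lam (s.coeff i))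
  have hpi : ∀ s i, (pi s).coeff i = lam (s.coeff i) := by
    intro s i
    simp only [pi, finsetSum_coeff, coeff_monomial, Finset.sum_ite_eq']
    split_ifs with h
    · rfl
    · rw [notMem_support_iff.mp h, map_zero]
  let e : integralClosure k[X] E → integralClosure k'[X] E := fun y =>
    ⟨y, IsIntegral.tower_top (R := k[X]) y.2⟩
  refine ⟨{ toFun := fun y => pi (f (e y))
            map_add' := fun a b => ?_
            map_smul' := fun r a => ?_ }, fun h => ?_⟩
  · have : e (a + b) = e a + e b := rfl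
    ext i
    rw [this, map_add, coeff_add, hpi, hpi, hpi, coeff_add, map_add]
  · have : e (r • a) = (algebraMap k[X] k'[X] r) • e a := by
      apply Subtype.ext
      exact (algebraMap_smul k'[X] r (a : E)).symm
    ext i
    rw [this, map_smul, hpi, RingHom.id_apply, smul_eq_mul, smul_eq_mul, coeff_mul, coeff_mul,
      map_sum]
    refine Finset.sum_congr rfl fun c _ => ?_
    rw [hpi, algebraMap_def, coe_mapRingHom, coeff_map, ← Algebra.smul_def, map_smul, smul_eq_mul]
  · have h1 := LinearMap.congr_fun h ⟨y0, isIntegral_trans (R := k[X]) (A := k'[X]) _ y0.2⟩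
    have h2 : pi (f y0) = 0 := h1
    apply hlam
    rw [← hpi, h2, coeff_zero]

end Pool.Agent.S03579
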