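import Pool.Statements.S03650
import Pool.Agent.H2.BA2

set_option autoImplicit false
open Pool Pool.MP_feeeae_al

namespace Pool.Agent.S03650

open Pool.Agent.H2

/-- The negation of the preceding statement: If G is the topological full group of a group of homeomorphisms of the Cantor set and G acts highly transitively on a dense invariant set, then every bounded real cocycle of positive degree on G is the coboundary of a bounded cochain. -/
theorem result :
    ¬ (∀ (Γ G : Subgroup ((ℕ → Bool) ≃ₜ (ℕ → Bool))) (S : Set (ℕ → Bool)),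
      (∀ g : (ℕ → Bool) ≃ₜ (ℕ → Bool), g ∈ G ↔
          ∀ x : ℕ → Bool, ∃ U : Set (ℕ → Bool), IsClopen U ∧ x ∈ U ∧
            ∃ γ ∈ Γ, ∀ y ∈ U, g y = γ y) →
      Dense S →
      (∀ g ∈ G, ∀ x ∈ S, g x ∈ S) →
      (∀ (n : ℕ) (a b : Fin n → (ℕ → Bool)), Function.Injective a → Function.Injective b →
          (∀ i, a i ∈ S) → (∀ i, b i ∈ S) → ∃ g ∈ G, ∀ i, g (a i) = b i) →
      ∀ (n : ℕ) (f : (Fin (n + 1) → G) → ℝ), (∃ C : ℝ, ∀ x, |f x| ≤ C) →
        (∀ g : Fin (n + 1 + 1) → G,
            f (fun i => g i.succ) +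
              ∑ j : Fin (n + 1 + 1), (-1 : ℝ) ^ (j.val + 1) *
                f (Fin.contractNth j (fun a b => a * b) g) = 0) →
        ∃ h : (Fin n → G) → ℝ, (∃ C : ℝ, ∀ x, |h x| ≤ C) ∧
          ∀ g : Fin (n + 1) → G,
            h (fun i => g i.succ) +
              ∑ j : Fin (n + 1), (-1 : ℝ) ^ (j.val + 1) *
                h (Fin.contractNth j (fun a b => a * b) g) = f g) := by
  intro H
  obtain ⟨h, ⟨C, hC⟩, e⟩ := H BA.G BA.G Set.univ BA.G_full dense_univ (fun _ _ _ _ => trivial)
    (fun n a b ha hb _ _ => by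
      obtain ⟨g, hg, e⟩ := BA.trans n a b ha hb n
      exact ⟨g, hg, fun i => e i i.2⟩) 1
    (fun g => BA.Phi (g 1) - BA.Phi (g 0 * g 1) + BA.Phi (g 0))
    ⟨2 * Real.pi, fun g => by
      have := BA.Phi_defect (g 0) (g 1)
      rw [abs_le] at this ⊢
      constructor <;> linarith [this.1, this.2]⟩
    (fun g => by
      simp [Fin.sum_univ_succ, Fin.contractNth, mul_assoc]
      ring)
  refine BA.no_hom (fun γ => BA.phi γ - h (fun _ => BA.LL γ)) (fun a b => ?_) C (fun a => ?_)
  · have := e ![BA.LL a, BA.LL b]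
    have e0 : (fun i : Fin 1 => ![BA.LL a, BA.LL b] i.succ) = fun _ => BA.LL b := by
      funext i; fin_cases i; rfl
    have e1 : Fin.contractNth (0 : Fin 2) (fun a b => a * b) ![BA.LL a, BA.LL b] =
        fun _ => BA.LL (a * b) := by
      funext i; fin_cases i; rw [BA.LL_mul]; rfl
    have e2 : Fin.contractNth (1 : Fin 2) (fun a b => a * b) ![BA.LL a, BA.LL b] =
        fun _ => BA.LL a := by
      funext i; fin_cases i; rfl
    rw [Fin.sum_univ_two, e0, e1, e2] at this
    simp only [Matrix.cons_val_zero, Matrix.cons_val_one, ← BA.LL_mul, BA.Phi_LL] at this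
    norm_num at this
    linarith
  · simpa using hC _

end Pool.Agent.S03650
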