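import Pool.Statements.S03678
import Pool.Agent.H9.Orth

set_option autoImplicit false
open Pool Pool.MP_01e6d0_an

namespace Pool.Agent.S03678

/-- The negation of the preceding statement: For every system of nonzero continuous functions on [0,1] that is L²-orthogonal and uniformly dense in C[0,1], each continuous f is a uniform limit of finite combinations of those φ_n with nonzero Fourier coefficient of f. -/
theorem result :
    ¬ (∀ φ : ℕ → ℝ → ℝ,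
      (∀ n, ContinuousOn (φ n) (Set.Icc (0:ℝ) 1)) →
      (∀ n, ∃ t ∈ Set.Icc (0:ℝ) 1, φ n t ≠ 0) →
      (∀ m n : ℕ, m ≠ n → ∫ t in (0:ℝ)..1, φ m t * φ n t = 0) →
      (∀ g : ℝ → ℝ, ContinuousOn g (Set.Icc (0:ℝ) 1) → ∀ ε : ℝ, ε > 0 →
        ∃ s : Finset ℕ, ∃ c : ℕ → ℝ,
          ∀ t ∈ Set.Icc (0:ℝ) 1, |g t - ∑ i ∈ s, c i * φ i t| < ε) →
      ∀ f : ℝ → ℝ, ContinuousOn f (Set.Icc (0:ℝ) 1) → ∀ ε : ℝ, ε > 0 →
        ∃ s : Finset ℕ, (∀ i ∈ s, ∫ t in (0:ℝ)..1, f t * φ i t ≠ 0) ∧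
          ∃ c : ℕ → ℝ, ∀ t ∈ Set.Icc (0:ℝ) 1, |f t - ∑ i ∈ s, c i * φ i t| < ε) := by
  intro h
  obtain ⟨φ, h1, h2, h3, h4, h5⟩ := Pool.Agent.H9.Orth.main
  obtain ⟨s, hs, c, hc⟩ := h φ h1 h2 h3 h4 (fun _ => 1) continuousOn_const 1 one_pos
  have h0 := hc 0 (by simp)
  rw [Finset.sum_eq_zero] at h0
  · simp at h0
  · intro i hi
    rcases h5 i with h6 | h6
    · exfalso
      apply hs i hi
      simpa using h6
    · rw [h6, mul_zero]

end Pool.Agent.S03678
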