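import Pool.Statements.S03687
import Pool.Agent.H12.Join5

set_option autoImplicit false
open MeasureTheory
open Pool Pool.MP_03548f_an

namespace Pool.Agent.S03687

open Pool.Agent.H12.Avg Pool.Agent.H12.Join2 Pool.Agent.H12.Join3 Pool.Agent.H12.Join4
  Pool.Agent.H12.Join5


/-- For any two shift-invariant probability measures on sequences over countable alphabets, both of positive entropy, there is a shift-invariant joining under which some pair of first-coordinate events a, b fails the product rule. -/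
theorem result :
    ∀ (μ ν : Measure (ℕ → ℕ)),
      IsProbabilityMeasure μ → IsProbabilityMeasure ν →
      MeasurePreserving (fun (x : ℕ → ℕ) (n : ℕ) => x (n + 1)) μ μ →
      MeasurePreserving (fun (x : ℕ → ℕ) (n : ℕ) => x (n + 1)) ν ν →
      (∃ m : ℕ, ∃ f : ℕ → Fin m, ∃ c : ℝ, 0 < c ∧ ∀ n : ℕ,
        c * (n : ℝ) ≤ ∑ w : Fin n → Fin m,
          Real.negMulLog ((μ {x : ℕ → ℕ | ∀ i : Fin n, f (x i.val) = w i}).toReal)) →
      (∃ m : ℕ, ∃ f : ℕ → Fin m, ∃ c : ℝ, 0 < c ∧ ∀ n : ℕ,
        c * (n : ℝ) ≤ ∑ w : Fin n → Fin m,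
          Real.negMulLog ((ν {x : ℕ → ℕ | ∀ i : Fin n, f (x i.val) = w i}).toReal)) →
      ∃ ξ : Measure ((ℕ → ℕ) × (ℕ → ℕ)),
        IsProbabilityMeasure ξ ∧
        MeasurePreserving
          (Prod.map (fun (x : ℕ → ℕ) (n : ℕ) => x (n + 1))
                    (fun (x : ℕ → ℕ) (n : ℕ) => x (n + 1))) ξ ξ ∧
        ξ.map Prod.fst = μ ∧ ξ.map Prod.snd = ν ∧
        ∃ a b : ℕ,
          ξ ({p : (ℕ → ℕ) × (ℕ → ℕ) | p.1 0 = a} ∩ {p | p.2 0 = b}) ≠
            μ {x : ℕ → ℕ | x 0 = a} * ν {y : ℕ → ℕ | y 0 = b} := by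
  rintro μ ν hμ hν hT hU ⟨m, f, c, hc, hf⟩ ⟨m', f', c', hc', hf'⟩
  obtain ⟨F, -, α, d, -, -, ha⟩ := inn_of_not_det hT (not_det_of_entropy hT hc hf)
  obtain ⟨G, -, β, e, -, -, hb⟩ := inn_of_not_det hU (not_det_of_entropy hU hc' hf')
  have cs : Continuous (sh : (ℕ → ℕ) → ℕ → ℕ) := continuous_pi fun _ => continuous_apply _
  obtain ⟨ξ, p1, p2, p3, p4, p5⟩ := dependent hT hU cs cs
    ((continuous_of_discreteTopology (f := F)).comp (continuous_apply 0))
    ((continuous_of_discreteTopology (f := G)).comp (continuous_apply 0)) ha hb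
  refine ⟨ξ, p1, p2, p3, p4, ?_⟩
  by_contra hcon
  push Not at hcon
  apply p5
  have m0 : Measurable fun x : ℕ → ℕ => x 0 := measurable_pi_apply 0
  have m1 : Measurable fun p : (ℕ → ℕ) × (ℕ → ℕ) => (p.1 0, p.2 0) :=
    (m0.comp measurable_fst).prodMk (m0.comp measurable_snd)
  have key : ξ.map (fun p => (p.1 0, p.2 0)) =
      (μ.map fun x => x 0).prod (ν.map fun x => x 0) := by
    apply Measure.ext_of_singleton
    rintro ⟨a, b⟩
    rw [Measure.map_apply m1 (measurableSet_singleton _), ← Set.singleton_prod_singleton,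
      Measure.prod_prod, Measure.map_apply m0 (measurableSet_singleton _),
      Measure.map_apply m0 (measurableSet_singleton _)]
    exact hcon a b
  have h1 := integral_map (μ := ξ) m1.aemeasurable
    (measurable_of_countable fun q : ℕ × ℕ => F q.1 * G q.2).aestronglyMeasurable
  rw [key, integral_prod_mul F G,
    integral_map m0.aemeasurable (measurable_of_countable F).aestronglyMeasurable, ha.mean,
    zero_mul] at h1
  exact h1.symm

end Pool.Agent.S03687
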