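import Pool.Statements.S03690
import Pool.Agent.Lead.NullT2

set_option autoImplicit false
open Filter
open Pool Pool.MP_0396c7_an

namespace Pool.Agent.S03690

open Pool.Agent.Lead.NullT Topology

lemma modulus {X : Type} [MetricSpace X] [CompactSpace X] (e : X → ℕ → ℝ) (he : Continuous e)
    (hinj : Function.Injective e) {ε : ℝ} (hε : 0 < ε) :
    ∃ (L : ℕ) (η : ℝ), 0 < η ∧ ∀ x y, (∀ j < L, |e x j - e y j| ≤ η) → dist x y < ε := by
  by_contra hc
  push Not at hc
  have h : ∀ L : ℕ, ∃ p : X × X, (∀ j < L, |e p.1 j - e p.2 j| ≤ 1 / ((L : ℝ) + 1)) ∧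
      ε ≤ dist p.1 p.2 := by
    intro L
    obtain ⟨x, y, h1, h2⟩ := hc L (1 / ((L : ℝ) + 1)) (by positivity)
    exact ⟨(x, y), h1, h2⟩
  choose p hp1 hp2 using h
  obtain ⟨q, ψ, hψ, hq⟩ := CompactSpace.tendsto_subseq p
  have h1 : ε ≤ dist q.1 q.2 := by
    have : Tendsto (fun n => dist (p (ψ n)).1 (p (ψ n)).2) atTop (𝓝 (dist q.1 q.2)) :=
      (continuous_dist.tendsto q).comp hq
    exact ge_of_tendsto' this fun n => hp2 _
  have h2 : q.1 = q.2 := by
    apply hinj
    funext j
    have hc : Continuous fun r : X × X => |e r.1 j - e r.2 j| := by fun_prop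
    have t1 : Tendsto (fun n => |e (p (ψ n)).1 j - e (p (ψ n)).2 j|) atTop
        (𝓝 |e q.1 j - e q.2 j|) := (hc.tendsto q).comp hq
    have t2 : Tendsto (fun n => 1 / ((ψ n : ℝ) + 1)) atTop (𝓝 0) :=
      tendsto_one_div_add_atTop_nhds_zero_nat.comp hψ.tendsto_atTop
    have := le_of_tendsto_of_tendsto t1 t2 (by
      filter_upwards [hψ.tendsto_atTop.eventually_gt_atTop j] with n hn
      exact hp1 _ j hn)
    exact sub_eq_zero.1 (abs_nonpos_iff.1 this)
  rw [h2, dist_self] at h1
  linarith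

lemma growth (C d L : ℕ) {δ : ℝ} (hδ : 0 < δ) :
    ∀ᶠ n : ℕ in atTop, ((C * (n * L + 1) ^ d : ℕ) : ℝ) ≤ Real.exp (δ * n) := by
  obtain ⟨N, hN⟩ := exists_nat_ge ((C * ((L : ℝ) + 1) ^ d * (d + 1).factorial) / δ ^ (d + 1))
  filter_upwards [eventually_ge_atTop N, eventually_ge_atTop 1] with n h1 h2
  have h1' : (N : ℝ) ≤ n := by exact_mod_cast h1
  have h2' : (1 : ℝ) ≤ n := by exact_mod_cast h2
  refine le_trans ?_ (Real.pow_div_factorial_le_exp (δ * n) (by positivity) (d + 1))
  have hf : (0 : ℝ) < (d + 1).factorial := by exact_mod_cast Nat.factorial_pos _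
  rw [le_div_iff₀ hf]
  rw [div_le_iff₀ (by positivity)] at hN
  push_cast
  have a1 : ((n : ℝ) * L + 1) ^ d ≤ (n * (L + 1)) ^ d :=
    pow_le_pow_left₀ (by positivity) (by nlinarith) d
  calc (C : ℝ) * (n * L + 1) ^ d * (d + 1).factorial
      ≤ C * (n * (L + 1)) ^ d * (d + 1).factorial := by gcongr
    _ = (C * ((L : ℝ) + 1) ^ d * (d + 1).factorial) * n ^ d := by rw [mul_pow]; ring
    _ ≤ (n * δ ^ (d + 1)) * n ^ d :=
        mul_le_mul_of_nonneg_right
          (hN.trans (mul_le_mul_of_nonneg_right h1' (by positivity))) (by positivity)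
    _ = _ := by ring

theorem abstract (X : Type) [MetricSpace X] [CompactSpace X] (T : X → X)
    (e : X → ℕ → ℝ) (he : Continuous e) (hinj : Function.Injective e)
    (hS : ∀ x i, e (T x) i = e x (i + 1)) (x0 : X) (h0 : e x0 = f)
    (hd : DenseRange fun m => T^[m] x0) (z : X) (hz : e z = fun _ => 1) :
    (∀ U V : Set X, IsOpen U → IsOpen V → U.Nonempty → V.Nonempty →
        ∃ n : ℕ, 1 ≤ n ∧ (V ∩ T^[n] ⁻¹' U).Nonempty) ∧
      (∀ a : ℕ → ℕ, StrictMono a → ∀ ε : ℝ, 0 < ε → ∀ δ : ℝ, 0 < δ →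
        ∀ᶠ n in atTop, ∀ F : Finset X,
          (∀ x ∈ F, ∀ y ∈ F, x ≠ y → ∃ i < n, ε ≤ dist (T^[a i] x) (T^[a i] y)) →
          (F.card : ℝ) ≤ Real.exp (δ * n)) ∧
      ¬ ∀ ε : ℝ, 0 < ε → ∃ δ : ℝ, 0 < δ ∧ ∀ x y : X, dist x y < δ →
        ∀ᶠ n in atTop,
          (∑ i ∈ Finset.range n, dist (T^[i] x) (T^[i] y)) / (n : ℝ) < ε := by
  classical
  have hit : ∀ n x i, e (T^[n] x) i = e x (n + i) := by
    intro n x
    induction n with
    | zero => simp
    | succ n ih =>
      intro i
      rw [Function.iterate_succ_apply', hS, ih]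
      congr 1; ring
  refine ⟨?_, ?_, ?_⟩
  · intro U V hU hV hUn hVn
    obtain ⟨m, hm⟩ := hd.exists_mem_open hV hVn
    obtain ⟨m', hm'⟩ := hd.exists_mem_open hU hUn
    obtain ⟨ε, hε, hb⟩ := Metric.isOpen_iff.1 hU _ hm'
    obtain ⟨L, η, hη, hL⟩ := modulus e he hinj hε
    obtain ⟨q, hq, hr⟩ := f_rigid hη (m + 1)
    refine ⟨m' + q - m, by omega, T^[m] x0, hm, ?_⟩
    rw [Set.mem_preimage, ← Function.iterate_add_apply, show m' + q - m + m = m' + q by omega]
    refine hb (hL _ _ fun j _ => ?_)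
    rw [hit, hit, h0, show m' + q + j = m' + j + q by ring]
    exact hr _
  · intro a _ ε hε δ hδ
    obtain ⟨L, η, hη, hL⟩ := modulus e he hinj hε
    obtain ⟨C, d, hC⟩ := f_count (θ := η / 2) (by positivity)
    filter_upwards [growth C d L hδ] with n hn F hF
    refine le_trans (Nat.cast_le.2 ?_) hn
    set I : Finset ℕ := (Finset.range n ×ˢ Finset.range L).image fun p => a p.1 + p.2 with hI
    have hIc : I.card ≤ n * L := by
      refine Finset.card_image_le.trans ?_
      simp
    have happ : ∀ x : X, ∃ m, ∀ i ∈ I, |f (m + i) - e x i| < η / 4 := by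
      intro x
      have ho : IsOpen (⋂ i ∈ I, {y : X | |e y i - e x i| < η / 4}) :=
        isOpen_biInter_finset fun i _ => isOpen_lt (by fun_prop) continuous_const
      obtain ⟨m, hm⟩ := hd.exists_mem_open ho ⟨x, by simp; intros; positivity⟩
      refine ⟨m, fun i hi => ?_⟩
      have := Set.mem_iInter₂.1 hm i hi
      simp only [Set.mem_setOf_eq] at this
      rwa [hit, h0] at this
    choose μ hμ using happ
    have hsep : ∀ x ∈ F, ∀ y ∈ F, x ≠ y → ∃ i ∈ I, η / 2 ≤ |f (μ x + i) - f (μ y + i)| := by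
      intro x hx y hy hne
      obtain ⟨k, hk, hdist⟩ := hF x hx y hy hne
      have : ¬ ∀ j < L, |e (T^[a k] x) j - e (T^[a k] y) j| ≤ η := fun h =>
        absurd (hL _ _ h) (not_lt.2 hdist)
      push Not at this
      obtain ⟨j, hj, hlt⟩ := this
      have hi : a k + j ∈ I := Finset.mem_image.2 ⟨(k, j), by simp [hk, hj], rfl⟩
      refine ⟨_, hi, ?_⟩
      rw [hit, hit] at hlt
      have b1 := abs_lt.1 (hμ x _ hi)
      have b2 := abs_lt.1 (hμ y _ hi)
      rcases lt_abs.1 hlt with h | h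
      · exact le_abs.2 (Or.inl (by linarith))
      · exact le_abs.2 (Or.inr (by linarith))
    have hinjμ : Set.InjOn μ F := by
      intro x hx y hy h
      by_contra hne
      obtain ⟨i, -, hi⟩ := hsep x hx y hy hne
      rw [h, sub_self, abs_zero] at hi
      linarith
    rw [← Finset.card_image_of_injOn hinjμ]
    refine (hC I _ ?_).trans ?_
    · intro m hm m' hm' hne
      obtain ⟨x, hx, rfl⟩ := Finset.mem_image.1 hm
      obtain ⟨y, hy, rfl⟩ := Finset.mem_image.1 hm'
      exact hsep x hx y hy fun h => hne (by rw [h])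
    · gcongr
  · intro hme
    obtain ⟨ε0, hε0, haw⟩ := f_away
    have hu : UniformContinuous fun x => e x 0 :=
      CompactSpace.uniformContinuous_of_continuous (by fun_prop)
    obtain ⟨δ0, hδ0, hδ⟩ := Metric.uniformContinuous_iff.1 hu ε0 hε0
    obtain ⟨δ, hδp, hm⟩ := hme (δ0 / 3) (by positivity)
    obtain ⟨m, hmz⟩ := hd.exists_dist_lt z hδp
    obtain ⟨N, hN⟩ := eventually_atTop.1 (hm z (T^[m] x0) hmz)
    obtain ⟨b, hb, hf⟩ := haw (N + m + 1)
    have h1 := hN (3 * b) (by omega)
    have hb0 : (0 : ℝ) < b := by exact_mod_cast (by omega : 0 < b)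
    rw [div_lt_iff₀ (by push_cast; positivity)] at h1
    have h2 : ∑ i ∈ Finset.Ico (2 * b - m) (3 * b - m), δ0 ≤
        ∑ i ∈ Finset.range (3 * b), dist (T^[i] z) (T^[i] (T^[m] x0)) := by
      refine le_trans (Finset.sum_le_sum fun i hi => ?_)
        (Finset.sum_le_sum_of_subset_of_nonneg (fun i hi => ?_) fun _ _ _ => dist_nonneg)
      · rw [Finset.mem_Ico] at hi
        by_contra hc
        have := hδ (not_le.1 hc)
        rw [hit, hit, hit, hz, h0, Real.dist_eq] at this
        have h3 := hf (m + (i + 0)) (by omega) (by omega)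
        have := (abs_lt.1 this).2
        linarith
      · rw [Finset.mem_Ico] at hi
        rw [Finset.mem_range]; omega
    rw [Finset.sum_const, Nat.card_Ico, show 3 * b - m - (2 * b - m) = b by omega, nsmul_eq_mul] at h2
    push_cast at h1
    linarith

noncomputable def orb (m : ℕ) : ℕ → ℝ := fun i => f (m + i)

def shift (x : ℕ → ℝ) : ℕ → ℝ := fun i => x (i + 1)

lemma shift_cont : Continuous shift := by unfold shift; fun_prop

lemma shift_maps : Set.MapsTo shift (closure (Set.range orb)) (closure (Set.range orb)) := by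
  refine Set.MapsTo.closure ?_ shift_cont
  rintro _ ⟨m, rfl⟩
  refine ⟨m + 1, ?_⟩
  funext i
  simp only [orb, shift]
  congr 1; ring

lemma orb_compact : IsCompact (closure (Set.range orb)) := by
  have hK : IsCompact (Set.pi Set.univ fun _ : ℕ => Set.Icc (-1 : ℝ) 1) :=
    isCompact_univ_pi fun _ => isCompact_Icc
  refine hK.of_isClosed_subset isClosed_closure (closure_minimal ?_ hK.isClosed)
  rintro _ ⟨m, rfl⟩ i -
  exact abs_le.1 (f_abs _)

lemma one_mem : (fun _ => 1) ∈ closure (Set.range orb) := by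
  have h : ∀ L : ℕ, ∃ m, ∀ l < L, |f (m + l) - 1| ≤ 1 / ((L : ℝ) + 1) := fun L =>
    f_window (by positivity) L
  choose m hm using h
  refine mem_closure_of_tendsto (f := fun L => orb (m L)) (b := atTop) ?_
    (Eventually.of_forall fun L => ⟨_, rfl⟩)
  rw [tendsto_pi_nhds]
  intro l
  rw [tendsto_iff_dist_tendsto_zero]
  refine squeeze_zero' (Eventually.of_forall fun _ => dist_nonneg) ?_
    tendsto_one_div_add_atTop_nhds_zero_nat
  filter_upwards [eventually_gt_atTop l] with L hL
  exact hm L l hL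

/-- The negation of the preceding statement: Every continuous self-map of a compact metric space that is topologically transitive and has zero sequence entropy along every increasing sequence is mean equicontinuous: nearby points have uniformly small limsup of average orbit distance. -/
theorem result :
    ¬ (∀ (X : Type) [MetricSpace X] [CompactSpace X] (T : X → X), Continuous T →
      (∀ U V : Set X, IsOpen U → IsOpen V → U.Nonempty → V.Nonempty →
        ∃ n : ℕ, 1 ≤ n ∧ (V ∩ T^[n] ⁻¹' U).Nonempty) →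
      (∀ a : ℕ → ℕ, StrictMono a → ∀ ε : ℝ, 0 < ε → ∀ δ : ℝ, 0 < δ →
        ∀ᶠ n in atTop, ∀ F : Finset X,
          (∀ x ∈ F, ∀ y ∈ F, x ≠ y → ∃ i < n, ε ≤ dist (T^[a i] x) (T^[a i] y)) →
          (F.card : ℝ) ≤ Real.exp (δ * n)) →
      ∀ ε : ℝ, 0 < ε → ∃ δ : ℝ, 0 < δ ∧ ∀ x y : X, dist x y < δ →
        ∀ᶠ n in atTop,
          (∑ i ∈ Finset.range n, dist (T^[i] x) (T^[i] y)) / (n : ℝ) < ε) := by
  intro H
  let X : Type := closure (Set.range orb)
  haveI : CompactSpace X := isCompact_iff_compactSpace.1 orb_compact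
  letI : MetricSpace X := TopologicalSpace.metrizableSpaceMetric X
  let T : X → X := shift_maps.restrict
  have hT : Continuous T := shift_cont.restrict shift_maps
  let x0 : X := ⟨orb 0, subset_closure ⟨0, rfl⟩⟩
  have hit : ∀ m, (T^[m] x0).1 = orb m := by
    intro m
    induction m with
    | zero => rfl
    | succ m ih =>
      rw [Function.iterate_succ_apply']
      have : (T (T^[m] x0)).1 = shift (T^[m] x0).1 := rfl
      rw [this, ih]
      funext i
      simp only [orb, shift]
      congr 1; ring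
  have hd : DenseRange fun m => T^[m] x0 := by
    intro x
    rw [closure_subtype]
    have : Subtype.val '' (Set.range fun m => T^[m] x0) = Set.range orb := by
      rw [← Set.range_comp]
      congr 1
      funext m
      exact hit m
    rw [this]
    exact x.2
  obtain ⟨h1, h2, h3⟩ := abstract X T Subtype.val continuous_subtype_val Subtype.val_injective
    (fun _ _ => rfl) x0 (by funext i; simp [x0, orb]) hd ⟨_, one_mem⟩ rfl
  exact h3 (H X T hT h1 h2)

end Pool.Agent.S03690
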