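import Pool.Statements.S03716
import Pool.Agent.H2.DBR3

set_option autoImplicit false
open Pool Pool.MP_05b6ce_an

namespace Pool.Agent.S03716

/-- The negation of the preceding statement: For a Pythagorean pair (b,a) given by Taylor coefficients, with phi=b/a: if f is in H^2 and the convergent series sums c_m=Σ conj(phi_n) f_{m+n} are square-summable, then sup over g in H^2 of ‖f+bg‖²−‖g‖² equals Σ∣f_m∣²+Σ∣c_m∣². -/
theorem result :
    ¬ (∀ (a b φ : ℕ → ℂ),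
    (∀ g : ℕ → ℂ, Summable (fun n => ‖g n‖ ^ 2) →
      Summable (fun n => ‖∑ k ∈ Finset.range (n+1), a k * g (n-k)‖ ^ 2) ∧
      Summable (fun n => ‖∑ k ∈ Finset.range (n+1), b k * g (n-k)‖ ^ 2) ∧
      (∑' n, ‖∑ k ∈ Finset.range (n+1), a k * g (n-k)‖ ^ 2) +
        (∑' n, ‖∑ k ∈ Finset.range (n+1), b k * g (n-k)‖ ^ 2) = ∑' n, ‖g n‖ ^ 2) →
    (∀ g : ℕ → ℂ, Summable (fun n => ‖g n‖ ^ 2) →
      (∀ j : ℕ, ∑' n, a n * starRingEnd ℂ (g (n + j)) = 0) → g = 0) →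
    0 < (a 0).re → (a 0).im = 0 →
    (∀ n, ∑ k ∈ Finset.range (n+1), a k * φ (n-k) = b n) →
    ∀ f c : ℕ → ℂ, Summable (fun n => ‖f n‖ ^ 2) →
      (∀ m, Filter.Tendsto (fun N => ∑ n ∈ Finset.range N, starRingEnd ℂ (φ n) * f (m+n))
        Filter.atTop (nhds (c m))) →
      Summable (fun m => ‖c m‖ ^ 2) →
      IsLUB {x : ℝ | ∃ g : ℕ → ℂ, Summable (fun n => ‖g n‖ ^ 2) ∧
          x = (∑' n, ‖f n + ∑ k ∈ Finset.range (n+1), b k * g (n-k)‖ ^ 2) - ∑' n, ‖g n‖ ^ 2}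
        ((∑' m, ‖f m‖ ^ 2) + ∑' m, ‖c m‖ ^ 2)) := by
  intro hall
  obtain ⟨w, hw, hn, ⟨r, hr, hr0⟩, ho⟩ := Pool.Agent.H2.DBR.exists_w _ Pool.Agent.H2.DBR.dense_phi
  have h0 : w.fst 0 ≠ 0 := by rw [hr0]; exact Complex.ofReal_ne_zero.2 hr.ne'
  have hon := Pool.Agent.H2.DBR.orthon hw hn ho
  obtain ⟨f, hc, y, hy, hfy⟩ := Pool.Agent.H2.DBR.main_ex
  have hlub := hall w.fst w.snd Pool.Agent.H2.DBR.phi (by
    intro g hg
    obtain ⟨z, hz, h1, h2⟩ := Pool.Agent.H2.DBR.isom hon (Pool.Agent.H2.DBR.mk g hg)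
    simp only [Pool.Agent.H2.DBR.mk_apply] at h1 h2
    simp only [← h1, ← h2]
    refine ⟨Pool.Agent.H2.DBR.H.summable _, Pool.Agent.H2.DBR.H.summable _, ?_⟩
    rw [← Pool.Agent.H2.DBR.H.norm_sq, ← Pool.Agent.H2.DBR.H.norm_sq,
      ← WithLp.prod_norm_sq_eq_of_L2, hz, Pool.Agent.H2.DBR.H.norm_sq]
    rfl) (by
    intro g hg hj
    have : Pool.Agent.H2.DBR.mk g hg = 0 := by
      apply Pool.Agent.H2.DBR.dense_phi
      intro z hz
      have := Pool.Agent.H2.DBR.perp hw h0 ho (x := Pool.Agent.H2.DBR.pr (Pool.Agent.H2.DBR.mk g hg) 0)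
        (fun k => by
          rw [Pool.Agent.H2.DBR.inner_SH, Pool.Agent.H2.DBR.E.inner_eq,
            Pool.Agent.H2.DBR.H.inner_eq, Pool.Agent.H2.DBR.H.inner_eq]
          simpa [Pool.Agent.H2.DBR.BK] using hj k) hz
      rw [Pool.Agent.H2.DBR.E.inner_eq] at this
      simpa using this
    ext n
    exact congrArg (fun x : Pool.Agent.H2.DBR.H => x n) this)
    (by rw [hr0]; simpa using hr) (by rw [hr0]; simp) hw f (fun _ => 0)
    (Pool.Agent.H2.DBR.H.summable _) hc (by simpa using summable_zero)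
  apply hfy
  have := Pool.Agent.H2.DBR.perp hw h0 ho (x := Pool.Agent.H2.DBR.pr 0 f) (fun k => by
    rw [Pool.Agent.H2.DBR.E.inner_eq]
    simp only [Pool.Agent.H2.DBR.pr_fst, Pool.Agent.H2.DBR.pr_snd, inner_zero_left, zero_add,
      Pool.Agent.H2.DBR.SH]
    apply Pool.Agent.H2.DBR.inner_zero_of
    intro t
    have hmem := hlub.1 ⟨(lp.single 2 k t : Pool.Agent.H2.DBR.H), Pool.Agent.H2.DBR.H.summable _, rfl⟩
    have e1 : ∀ n, f n + ∑ i ∈ Finset.range (n + 1), w.snd i * (lp.single 2 k t : Pool.Agent.H2.DBR.H) (n - i) =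
        (f + t • Pool.Agent.H2.DBR.sh k w.snd) n := by
      intro n
      rw [← Pool.Agent.H2.DBR.conv_hasSum w.snd (lp.single 2 k t) (t • Pool.Agent.H2.DBR.sh k w.snd)]
      · rfl
      · have := hasSum_single (f := fun i => (lp.single 2 k t : Pool.Agent.H2.DBR.H) i •
          Pool.Agent.H2.DBR.sh i w.snd) k (fun i hi => by
            rw [lp.single_apply_ne _ _ _ hi, zero_smul])
        simpa using this
    simp only [e1] at hmem
    rw [← Pool.Agent.H2.DBR.H.norm_sq, ← Pool.Agent.H2.DBR.H.norm_sq, ← Pool.Agent.H2.DBR.H.norm_sq,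
      lp.norm_single (by norm_num)] at hmem
    simpa using hmem) hy
  rw [Pool.Agent.H2.DBR.E.inner_eq] at this
  simpa using this

end Pool.Agent.S03716
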