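import Pool.Statements.S03735
import Pool.Agent.H9.Bai2

set_option autoImplicit false
open Pool Pool.MP_086137_an

namespace Pool.Agent.S03735

/-- If a complex Banach algebra has every continuous derivation into every Banach bimodule approximable pointwise by uniformly bounded inner derivations, then every closed two-sided ideal of finite codimension has a bounded two-sided approximate identity. -/
theorem result :
    ∀ (A : Type) [NormedRing A] [NormedAlgebra ℂ A] [CompleteSpace A],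
      (∀ (X : Type) [NormedAddCommGroup X] [NormedSpace ℂ X] [CompleteSpace X]
          (L R : A →L[ℂ] X →L[ℂ] X),
          (∀ a b : A, L (a * b) = (L a).comp (L b)) →
          (∀ a b : A, R (a * b) = (R b).comp (R a)) →
          (∀ a b : A, (L a).comp (R b) = (R b).comp (L a)) →
          ∀ D : A →L[ℂ] X, (∀ a b : A, D (a * b) = L a (D b) + R b (D a)) →
            ∃ C : ℝ, ∀ F : Finset A, ∀ ε : ℝ, 0 < ε → ∃ ξ : X,
              (∀ a : A, ‖L a ξ - R a ξ‖ ≤ C * ‖a‖) ∧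
                ∀ a ∈ F, ‖D a - (L a ξ - R a ξ)‖ < ε) →
      ∀ J : Submodule ℂ A, (∀ a x : A, x ∈ J → a * x ∈ J ∧ x * a ∈ J) →
        IsClosed (J : Set A) → FiniteDimensional ℂ (A ⧸ J) →
        ∃ C : ℝ, ∀ F : Finset A, (∀ x ∈ F, x ∈ J) → ∀ ε : ℝ, 0 < ε →
          ∃ e ∈ J, ‖e‖ ≤ C ∧ ∀ x ∈ F, ‖e * x - x‖ < ε ∧ ‖x * e - x‖ < ε := by
  intro A _ _ _ H J h1 h2 h3
  open Pool.Agent.H9.Bai in
  obtain ⟨c, hc⟩ := right H h1 h2 (.of_finiteDimensional_quotient h2)
  obtain ⟨d, hd⟩ := H9.Bai.left H h1 h2 (.of_finiteDimensional_quotient h2)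
  obtain ⟨n, hn⟩ : ∃ n : ℕ, ∀ f ∈ J, ‖f‖ = 1 → ¬∀ x ∈ J, ‖f * x‖ ≤ 1 / (n + 1) * ‖x‖ := by
    by_contra! h
    choose f e1 e2 e3 using h
    exact H9.Bai.main H h1 h2 f e1 e2 e3
  obtain ⟨M, h0, hM⟩ : ∃ M, 0 < M ∧ ∀ f ∈ J, (∀ x ∈ J, ‖f * x - x‖ ≤ d * ‖x‖) → ‖f‖ ≤ M := by
    refine ⟨(n + 1) * (|d| + 1), by positivity, fun f hf h => le_of_not_gt fun h4 => ?_⟩
    have h5 : 0 < ‖f‖ := lt_trans (by positivity) h4
    refine hn (((‖f‖⁻¹ : ℝ) : ℂ) • f) (J.smul_mem _ hf) (by simp [norm_smul, h5.ne']) fun x hx => ?_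
    rw [smul_mul_assoc, norm_smul, Complex.norm_real, norm_inv, norm_norm, inv_mul_le_iff₀ h5,
      ← mul_assoc, mul_one_div]
    have := mul_le_mul_of_nonneg_right ((le_div_iff₀' (by positivity)).2 h4.le) (norm_nonneg x)
    linarith [h x hx, norm_sub_norm_le (f * x) x,
      mul_le_mul_of_nonneg_right (le_abs_self d) (norm_nonneg x)]
  have hN : ∀ e ∈ J, (∀ x ∈ J, ‖x * e - x‖ ≤ c * ‖x‖) → ‖e‖ ≤ (|c| + 1) * M := fun e he h =>
    le_of_forall_pos_le_add fun ε hε => by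
      obtain ⟨f, e1, e2, e3⟩ := hd {e} (by simpa) ε hε
      have e4 := mul_le_mul (le_abs_self c) (hM f e1 e2) (norm_nonneg _) (abs_nonneg _)
      linarith [hM f e1 e2, h f e1, norm_sub_norm_le (f * e) f, e3 e (by simp),
        norm_sub_norm_le e (f * e), norm_sub_rev e (f * e)]
  refine ⟨(|c| + 1) * M + M + (|c| + 1) * M * M, fun F hF ε hε => ?_⟩
  obtain ⟨e, e1, e2, e3⟩ := hc F hF (ε / (1 + M)) (by positivity)
  obtain ⟨f, f1, f2, f3⟩ := hd F hF (ε / (1 + (|c| + 1) * M)) (by positivity)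
  have e4 := hN e e1 e2
  have f4 := hM f f1 f2
  refine ⟨e + f - e * f, J.sub_mem (J.add_mem e1 f1) (h1 e f f1).1, norm_sub_le_of_le
    (norm_add_le_of_le e4 f4) (norm_mul_le_of_le e4 f4), fun x hx => ⟨?_, ?_⟩⟩
  · rw [show (e + f - e * f) * x - x = f * x - x - e * (f * x - x) by noncomm_ring]
    have := (lt_div_iff₀ (by positivity)).1 (f3 x hx)
    linarith [norm_sub_le (f * x - x) (e * (f * x - x)), norm_mul_le_of_le e4 (le_refl ‖f * x - x‖)]
  · rw [show x * (e + f - e * f) - x = x * e - x - (x * e - x) * f by noncomm_ring]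
    have := (lt_div_iff₀ (by positivity)).1 (e3 x hx)
    linarith [norm_sub_le (x * e - x) ((x * e - x) * f), norm_mul_le_of_le (le_refl ‖x * e - x‖) f4]

end Pool.Agent.S03735
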