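import Pool.Statements.S03755
import Pool.Agent.H21.Peano3

set_option autoImplicit false
open Pool Pool.MP_09c31c_an

namespace Pool.Agent.S03755

/-- There is a power series with absolutely summable complex coefficients whose sum has nonzero derivative everywhere in the open unit disc and maps the unit circle onto a set of positive planar Lebesgue measure. -/
theorem result :
    ∃ a : ℕ → ℂ, Summable (fun n => ‖a n‖) ∧
      (∀ z : ℂ, ‖z‖ < 1 → deriv (fun w : ℂ => ∑' n, a n * w ^ n) z ≠ 0) ∧
      MeasureTheory.volume ((fun w : ℂ => ∑' n, a n * w ^ n) '' Metric.sphere (0 : ℂ) 1) ≠ 0 := by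
  obtain ⟨a, h1, h2, h3⟩ := Pool.Agent.H21.Peano.main
  refine ⟨a, h1, h2, fun h => ?_⟩
  exact (Metric.measure_closedBall_pos MeasureTheory.volume (1 : ℂ) one_pos).ne'
    (MeasureTheory.measure_mono_null h3 h)

end Pool.Agent.S03755
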