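import Pool.Statements.S03759
-- import your own Pool.Agent.* helpers here

set_option autoImplicit false
open Pool Pool.MP_09f91e_an

namespace Pool.Agent.S03759

noncomputable def A1 : Matrix (Fin 3) (Fin 3) ℝ := !![(200/101), (0), (0); (0), (1), (0); (0), (0), (1)]
noncomputable def B1 : Matrix (Fin 3) (Fin 3) ℝ := !![(2/101), (0), (0); (0), (1), (0); (0), (0), (1)]
noncomputable def A2 : Matrix (Fin 3) (Fin 3) ℝ := !![(301/202), (99/202), (0); (99/202), (301/202), (0); (0), (0), (1)]
noncomputable def B2 : Matrix (Fin 3) (Fin 3) ℝ := !![(103/202), (-99/202), (0); (-99/202), (103/202), (0); (0), (0), (1)]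
noncomputable def A3 : Matrix (Fin 3) (Fin 3) ℝ := !![(186617/108209), (-235224/108209), (0); (39204/108209), (-9403/108209), (0); (0), (0), (1)]
noncomputable def B3 : Matrix (Fin 3) (Fin 3) ℝ := !![(88607/108209), (58806/108209), (0); (-9801/108209), (137612/108209), (0); (0), (0), (1)]

/-- There are two positive isotropic conductivities and a 3D multiple rank laminate of them whose normalized field matrix has cofactor trace strictly positive on one cell and strictly negative on another. -/
theorem result :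
    ∃ s1 s2 : ℝ, 0 < s1 ∧ 0 < s2 ∧
    ∃ L : List (ℝ × ℝ × Matrix (Fin 3) (Fin 3) ℝ),
      (∀ P : List (ℝ × ℝ × Matrix (Fin 3) (Fin 3) ℝ) → Prop,
        P [((1 : ℝ), s1, (1 : Matrix (Fin 3) (Fin 3) ℝ))] →
        P [((1 : ℝ), s2, (1 : Matrix (Fin 3) (Fin 3) ℝ))] →
        (∀ A B : List (ℝ × ℝ × Matrix (Fin 3) (Fin 3) ℝ), P A → P B →
          ∀ t : ℝ, 0 < t → t < 1 →
          ∀ n : Fin 3 → ℝ, n ≠ 0 →
          ∀ EA EB : Matrix (Fin 3) (Fin 3) ℝ,
            t • EA + (1 - t) • EB = 1 →
            (∃ c : Fin 3 → ℝ, EA - EB = Matrix.vecMulVec n c) →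
            Matrix.vecMul n
              ((A.map (fun p => (p.1 * p.2.1) • p.2.2)).sum * EA
                - (B.map (fun p => (p.1 * p.2.1) • p.2.2)).sum * EB) = 0 →
            P (A.map (fun p => (t * p.1, p.2.1, p.2.2 * EA))
                ++ B.map (fun p => ((1 - t) * p.1, p.2.1, p.2.2 * EB)))) →
        P L) ∧
      ∃ a ∈ L, ∃ b ∈ L,
        0 < (Matrix.adjugate a.2.2).trace ∧ (Matrix.adjugate b.2.2).trace < 0 := by
  refine ⟨1, 100, by norm_num, by norm_num,
    [((1/5 : ℝ) * ((1/2) * 1), (1 : ℝ), (1 * A1) * A3), ((1/5 : ℝ) * ((1 - 1/2) * 1), (100 : ℝ), (1 * B1) * A3),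
     ((1 - 1/5 : ℝ) * ((1/2) * 1), (1 : ℝ), (1 * A2) * B3), ((1 - 1/5 : ℝ) * ((1 - 1/2) * 1), (100 : ℝ), (1 * B2) * B3)], ?_, ?_⟩
  · intro P h1 h2 hstep
    have p1 := hstep _ _ h1 h2 (1/2) (by norm_num) (by norm_num) ![(1), (0), (0)]
        (by intro h; have := congrFun h 0; norm_num at this) A1 B1
        (by ext i j; fin_cases i <;> fin_cases j <;> simp [A1, B1] <;> norm_num)
        ⟨![(198/101), (0), (0)], by ext i j; fin_cases i <;> fin_cases j <;> simp [A1, B1, Matrix.vecMulVec_apply] <;> norm_num⟩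
        (by ext j; fin_cases j <;>
              simp [A1, B1, A2, B2, A3, B3, Matrix.vecMul, dotProduct, Fin.sum_univ_three, Matrix.mul_apply] <;> norm_num)
    have p2 := hstep _ _ h1 h2 (1/2) (by norm_num) (by norm_num) ![(1), (1), (0)]
        (by intro h; have := congrFun h 0; norm_num at this) A2 B2
        (by ext i j; fin_cases i <;> fin_cases j <;> simp [A2, B2] <;> norm_num)
        ⟨![(99/101), (99/101), (0)], by ext i j; fin_cases i <;> fin_cases j <;> simp [A2, B2, Matrix.vecMulVec_apply] <;> norm_num⟩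
        (by ext j; fin_cases j <;>
              simp [A1, B1, A2, B2, A3, B3, Matrix.vecMul, dotProduct, Fin.sum_univ_three, Matrix.mul_apply] <;> norm_num)
    have p3 := hstep _ _ p1 p2 (1/5) (by norm_num) (by norm_num) ![(2), (1), (0)]
        (by intro h; have := congrFun h 0; norm_num at this) A3 B3
        (by ext i j; fin_cases i <;> fin_cases j <;> simp [A3, B3] <;> norm_num)
        ⟨![(49005/108209), (-147015/108209), (0)], by ext i j; fin_cases i <;> fin_cases j <;> simp [A3, B3, Matrix.vecMulVec_apply] <;> norm_num⟩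
        (by ext j; fin_cases j <;>
              simp [A1, B1, A2, B2, A3, B3, Matrix.vecMul, dotProduct, Fin.sum_univ_three, Matrix.mul_apply] <;> norm_num)
    exact p3
  · refine ⟨((1/5 : ℝ) * ((1/2) * 1), (1 : ℝ), (1 * A1) * A3), by simp,
      ((1/5 : ℝ) * ((1 - 1/2) * 1), (100 : ℝ), (1 * B1) * A3), by simp, ?_, ?_⟩
    · simp [A1, A3, Matrix.adjugate_fin_three, Matrix.trace_fin_three, Matrix.mul_apply, Fin.sum_univ_three]
      norm_num
    · simp [B1, A3, Matrix.adjugate_fin_three, Matrix.trace_fin_three, Matrix.mul_apply, Fin.sum_univ_three]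
      norm_num

end Pool.Agent.S03759
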