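import Pool.Statements.S03774
-- import your own Pool.Agent.* helpers here

set_option autoImplicit false
open Matrix
open Pool Pool.MP_0ac5c2_an

namespace Pool.Agent.S03774

section Aux

variable {n : ℕ}

/-- entrywise smoothness -/
def Sm {E : Type} [NormedAddCommGroup E] [NormedSpace ℝ E] (A : E → Matrix (Fin n) (Fin n) ℂ) : Prop :=
  ∀ i j, ContDiff ℝ 1 (fun x => A x i j)

variable {E : Type} [NormedAddCommGroup E] [NormedSpace ℝ E]

lemma Sm.mul {A B : E → Matrix (Fin n) (Fin n) ℂ} (hA : Sm A) (hB : Sm B) : Sm (fun x => A x * B x) := by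
  intro i j
  simp only [Matrix.mul_apply]
  exact ContDiff.sum fun k _ => (hA i k).mul (hB k j)

lemma Sm.add {A B : E → Matrix (Fin n) (Fin n) ℂ} (hA : Sm A) (hB : Sm B) : Sm (fun x => A x + B x) :=
  fun i j => (hA i j).add (hB i j)

lemma Sm.sub {A B : E → Matrix (Fin n) (Fin n) ℂ} (hA : Sm A) (hB : Sm B) : Sm (fun x => A x - B x) :=
  fun i j => (hA i j).sub (hB i j)

lemma Sm.smul {c : E → ℂ} {A : E → Matrix (Fin n) (Fin n) ℂ} (hc : ContDiff ℝ 1 c) (hA : Sm A) :
    Sm (fun x => c x • A x) :=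
  fun i j => hc.mul (hA i j)

lemma Sm.const (A : Matrix (Fin n) (Fin n) ℂ) : Sm (fun _ : E => A) := fun _ _ => contDiff_const

lemma Sm.star {A : E → Matrix (Fin n) (Fin n) ℂ} (hA : Sm A) : Sm (fun x => (A x)ᴴ) :=
  fun i j => Complex.conjCLE.contDiff.comp (hA j i)

lemma Sm.det {A : E → Matrix (Fin n) (Fin n) ℂ} (hA : Sm A) : ContDiff ℝ 1 (fun x => (A x).det) := by
  simp only [Matrix.det_apply']
  exact ContDiff.sum fun σ _ => contDiff_const.mul (contDiff_prod fun i _ => hA _ _)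

lemma Sm.adj {A : E → Matrix (Fin n) (Fin n) ℂ} (hA : Sm A) : Sm (fun x => (A x).adjugate) := by
  intro i j
  simp only [Matrix.adjugate_apply]
  apply Sm.det
  intro a b
  simp only [Matrix.updateRow_apply]
  split_ifs
  · exact contDiff_const
  · exact hA a b

lemma Sm.aeval {A : E → Matrix (Fin n) (Fin n) ℂ} (hA : Sm A) (p : Polynomial ℂ) :
    Sm (fun x => Polynomial.aeval (A x) p) := by
  induction p using Polynomial.induction_on with
  | C a => simp only [Polynomial.aeval_C]; exact Sm.const _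
  | add p q hp hq => simp only [map_add]; exact hp.add hq
  | monomial k a h =>
    simp only [pow_succ, ← mul_assoc, map_mul _ _ Polynomial.X, Polynomial.aeval_X]
    exact h.mul hA

lemma Sm.trace {A : E → Matrix (Fin n) (Fin n) ℂ} (hA : Sm A) : ContDiff ℝ 1 (fun x => (A x).trace) := by
  simp only [Matrix.trace, Matrix.diag]
  exact ContDiff.sum fun i _ => hA i i

lemma aeval_conj {W X H : Matrix (Fin n) (Fin n) ℂ} (h : W * X = H * W) (p : Polynomial ℂ) :
    W * Polynomial.aeval X p = Polynomial.aeval H p * W := by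
  induction p using Polynomial.induction_on with
  | C a => simp only [Polynomial.aeval_C, Algebra.commutes]
  | add p q hp hq => simp only [map_add, mul_add, add_mul, hp, hq]
  | monomial k a ih =>
    simp only [pow_succ, ← mul_assoc, map_mul _ _ Polynomial.X, Polynomial.aeval_X]
    rw [ih, mul_assoc, h, mul_assoc]

lemma aeval_diag (d : Fin n → ℂ) (p : Polynomial ℂ) :
    Polynomial.aeval (Matrix.diagonal d) p = Matrix.diagonal (fun i => p.eval (d i)) := by
  induction p using Polynomial.induction_on with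
  | C a => simp [Matrix.algebraMap_eq_diagonal]
  | add p q hp hq => simp only [map_add, hp, hq, Matrix.diagonal_add, Polynomial.eval_add]
  | monomial k a ih =>
    simp only [pow_succ, ← mul_assoc, map_mul _ _ Polynomial.X, Polynomial.aeval_X]
    rw [ih, Matrix.diagonal_mul_diagonal]
    simp

def toep (r c : Fin n → ℂ) : Matrix (Fin n) (Fin n) ℂ := fun i j =>
  if i ≤ j then r ⟨j - i, by omega⟩ else c ⟨i - j, by omega⟩

lemma toep_of (F : ℕ → ℕ → ℂ) (h : ∀ i j, i + 1 < n → j + 1 < n → F (i + 1) (j + 1) = F i j) :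
    (Matrix.of fun i j : Fin n => F i j) = toep (fun j => F 0 j) (fun i => F i 0) := by
  have h1 : ∀ i m, i + m < n → F i (i + m) = F 0 m := by
    intro i m
    induction i with
    | zero => simp
    | succ i ih => intro hi; rw [show i + 1 + m = (i + m) + 1 by ring, h _ _ (by omega) (by omega), ih (by omega)]
  have h2 : ∀ i m, i + m < n → F (i + m) i = F m 0 := by
    intro i m
    induction i with
    | zero => simp
    | succ i ih => intro hi; rw [show i + 1 + m = (i + m) + 1 by ring, h _ _ (by omega) (by omega), ih (by omega)]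
  ext i j
  simp only [toep, Matrix.of_apply]
  split_ifs with hij
  · have : (i : ℕ) ≤ j := hij
    rw [← h1 i (j - i) (by omega)]; congr 1; omega
  · have : ¬ (i : ℕ) ≤ j := hij
    rw [← h2 j (i - j) (by omega)]; congr 1; omega

open scoped ComplexOrder in
lemma cyclic {T : Matrix (Fin n) (Fin n) ℂ} {k : Fin n → ℂ}
    (h1 : 1 - T * Tᴴ = Matrix.vecMulVec k (star k))
    (h2 : ∀ μ : ℂ, ∀ x : Fin n → ℂ, x ≠ 0 → T *ᵥ x = μ • x → ‖μ‖ < 1)
    (x : Fin n → ℂ) (hx : ∀ j < n, star k ⬝ᵥ ((Tᴴ ^ j) *ᵥ x) = 0) : x = 0 := by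
  by_contra hx0
  have hall : ∀ j, star k ⬝ᵥ ((Tᴴ ^ j) *ᵥ x) = 0 := by
    intro j
    have hn : 0 < n := by
      rcases Nat.eq_zero_or_pos n with rfl | h
      · exact absurd (Subsingleton.elim _ _) hx0
      · exact h
    have hnt : Nontrivial (Fin n → ℂ) := ⟨⟨x, 0, hx0⟩⟩
    rw [Matrix.pow_eq_aeval_mod_charpoly, Polynomial.aeval_eq_sum_range' (n := n), Matrix.sum_mulVec,
      dotProduct_sum]
    · refine Finset.sum_eq_zero fun i hi => ?_
      rw [Matrix.smul_mulVec, dotProduct_smul, hx i (Finset.mem_range.1 hi), smul_zero]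
    · have := Polynomial.natDegree_modByMonic_lt (Polynomial.X ^ j) (Matrix.charpoly_monic Tᴴ) (by
        intro e
        have := congrArg Polynomial.natDegree e
        rw [Matrix.charpoly_natDegree_eq_dim] at this
        simp at this; omega)
      rwa [Matrix.charpoly_natDegree_eq_dim, Fintype.card_fin] at this
  let Z : Submodule ℂ (Fin n → ℂ) :=
    { carrier := {y | ∀ j, star k ⬝ᵥ ((Tᴴ ^ j) *ᵥ y) = 0}
      add_mem' := fun {a b} ha hb j => by rw [Matrix.mulVec_add, dotProduct_add, ha j, hb j, add_zero]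
      zero_mem' := fun j => by simp
      smul_mem' := fun c a ha j => by rw [Matrix.mulVec_smul, dotProduct_smul, ha j, smul_zero] }
  have hZ : ∀ y ∈ Z, Matrix.mulVecLin Tᴴ y ∈ Z := by
    intro y hy j
    rw [Matrix.mulVecLin_apply, Matrix.mulVec_mulVec, ← pow_succ]
    exact hy _
  have hnt : Nontrivial Z := ⟨⟨⟨x, hall⟩, 0, fun e => hx0 (congrArg Subtype.val e)⟩⟩
  obtain ⟨l, hl⟩ := Module.End.exists_eigenvalue ((Matrix.mulVecLin Tᴴ).restrict hZ)
  obtain ⟨y, hy⟩ := hl.exists_hasEigenvector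
  have hy0 : (y : Fin n → ℂ) ≠ 0 := fun e => hy.2 (Subtype.ext e)
  have hy1 : Tᴴ *ᵥ (y : Fin n → ℂ) = l • (y : Fin n → ℂ) := congrArg Subtype.val hy.apply_eq_smul
  have hy2 : star k ⬝ᵥ (y : Fin n → ℂ) = 0 := by simpa using y.2 0
  have hy3 : T *ᵥ (Tᴴ *ᵥ (y : Fin n → ℂ)) = y := by
    have := congrArg (fun A => A *ᵥ (y : Fin n → ℂ)) h1
    simp only [Matrix.sub_mulVec, Matrix.one_mulVec, Matrix.vecMulVec_mulVec, hy2, ← Matrix.mulVec_mulVec] at this
    simp only [MulOpposite.op_zero, zero_smul] at this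
    exact (sub_eq_zero.1 this).symm
  rw [hy1, Matrix.mulVec_smul] at hy3
  have hl0 : l ≠ 0 := by rintro rfl; rw [zero_smul] at hy3; exact hy0 hy3.symm
  have hy4 : T *ᵥ (y : Fin n → ℂ) = l⁻¹ • (y : Fin n → ℂ) := by
    rw [← hy3, smul_smul, inv_mul_cancel₀ hl0, one_smul, hy3]
  have h5 := h2 _ _ hy0 hy4
  have h6 : star (y : Fin n → ℂ) ⬝ᵥ (T *ᵥ (y : Fin n → ℂ)) =
      star (Tᴴ *ᵥ (y : Fin n → ℂ)) ⬝ᵥ (y : Fin n → ℂ) := by
    rw [Matrix.star_mulVec, Matrix.conjTranspose_conjTranspose, Matrix.dotProduct_mulVec]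
  rw [hy4, hy1, dotProduct_smul, star_smul, smul_dotProduct, smul_eq_mul, smul_eq_mul] at h6
  have h7 : star (y : Fin n → ℂ) ⬝ᵥ (y : Fin n → ℂ) ≠ 0 := fun e => hy0 (dotProduct_star_self_eq_zero.1 e)
  have h8 := mul_right_cancel₀ h7 h6
  have h9 : ‖l⁻¹‖ = ‖l‖ := by rw [h8, norm_star]
  have h10 : ‖l‖ * ‖l⁻¹‖ = 1 := by rw [← norm_mul, mul_inv_cancel₀ hl0, norm_one]
  rw [h9] at h5 h10
  nlinarith [norm_nonneg l]

lemma model (hn : 0 < n) {M T : Matrix (Fin n) (Fin n) ℂ} {k u v : Fin n → ℂ}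
    (h1 : 1 - T * Tᴴ = Matrix.vecMulVec k (star k))
    (h2 : ∀ μ : ℂ, ∀ x : Fin n → ℂ, x ≠ 0 → T *ᵥ x = μ • x → ‖μ‖ < 1)
    (h3 : M - T * M * Tᴴ = Matrix.vecMulVec u (star k) + Matrix.vecMulVec k (star v)) :
    ∃ W : Matrix (Fin n) (Fin n) ℂ, IsUnit W ∧ ∃ r c r' c' : Fin n → ℂ,
      Wᴴ * W = toep r c ∧ Wᴴ * M * W = toep r' c' := by
  let C : Matrix (Fin n) (Fin n) ℂ := Matrix.of fun j => star k ᵥ* (Tᴴ ^ (j : ℕ))
  have hC : ∀ x j, (C *ᵥ x) j = star k ⬝ᵥ ((Tᴴ ^ (j : ℕ)) *ᵥ x) := fun x j => by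
    rw [Matrix.dotProduct_mulVec]; rfl
  have hCu : IsUnit C := by
    rw [← Matrix.mulVec_injective_iff_isUnit]
    intro x y hxy
    rw [← sub_eq_zero]
    refine cyclic h1 h2 _ fun j hj => ?_
    rw [← hC (x - y) ⟨j, hj⟩, Matrix.mulVec_sub, hxy, sub_self]; rfl
  obtain ⟨w, hw⟩ := (Matrix.mulVec_surjective_iff_isUnit.2 hCu) (Pi.single ⟨n - 1, by omega⟩ 1)
  have hw0 : ∀ j, j + 1 < n → star k ⬝ᵥ ((Tᴴ ^ j) *ᵥ w) = 0 := by
    intro j hj
    rw [← hC w ⟨j, by omega⟩, hw, Pi.single_eq_of_ne]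
    intro e; have := congrArg Fin.val e; simp at this; omega
  have hw1 : star k ⬝ᵥ ((Tᴴ ^ (n - 1)) *ᵥ w) = 1 := by
    rw [← hC w ⟨n - 1, by omega⟩, hw, Pi.single_eq_same]
  let ww : ℕ → Fin n → ℂ := fun j => (Tᴴ ^ j) *ᵥ w
  let W : Matrix (Fin n) (Fin n) ℂ := Matrix.of fun a j => ww j a
  have hWv : ∀ c : Fin n → ℂ, W *ᵥ c = ∑ j, c j • ww j := fun c => by
    funext a; simp [W, Matrix.mulVec, dotProduct, mul_comm]
  have hWu : IsUnit W := by
    rw [← Matrix.mulVec_injective_iff_isUnit]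
    intro x y hxy
    rw [← sub_eq_zero]
    have h0 : W *ᵥ (x - y) = 0 := by rw [Matrix.mulVec_sub, hxy, sub_self]
    generalize x - y = c at h0
    by_contra hc
    obtain ⟨j0, hj0, hmax⟩ := Finset.exists_max_image (Finset.univ.filter fun j => c j ≠ 0) id (by
      by_contra hne
      apply hc
      funext j
      by_contra hj
      exact hne ⟨j, by simpa using hj⟩)
    have hj0' : c j0 ≠ 0 := by simpa using hj0
    have h4 := congrArg (fun z => star k ⬝ᵥ ((Tᴴ ^ (n - 1 - j0)) *ᵥ z)) h0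
    simp only [hWv, Matrix.mulVec_zero, dotProduct_zero, Matrix.mulVec_sum, dotProduct_sum,
      Matrix.mulVec_smul, dotProduct_smul, ww, Matrix.mulVec_mulVec, ← pow_add] at h4
    rw [Finset.sum_eq_single j0] at h4
    · rw [show n - 1 - j0 + j0 = n - 1 by omega, hw1] at h4
      exact hj0' (by simpa using h4)
    · intro j _ hj
      by_cases hcj : c j = 0
      · simp [hcj]
      · have h5 : j ≤ j0 := hmax j (by simpa using hcj)
        have h6 : (j : ℕ) < j0 := lt_of_le_of_ne h5 (fun e => hj (Fin.ext e))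
        rw [hw0 _ (by omega), smul_zero]
    · simp
  have hform : ∀ A : Matrix (Fin n) (Fin n) ℂ,
      Wᴴ * A * W = Matrix.of fun i j : Fin n => star (ww i) ⬝ᵥ (A *ᵥ ww j) := by
    intro A
    ext i j
    rw [Matrix.mul_assoc]
    simp [W, Matrix.mul_apply, Matrix.mulVec, dotProduct]
  have hstep : ∀ (A : Matrix (Fin n) (Fin n) ℂ) (i j : ℕ),
      star (ww (i + 1)) ⬝ᵥ (A *ᵥ ww (j + 1)) = star (ww i) ⬝ᵥ ((T * A * Tᴴ) *ᵥ ww j) := by
    intro A i j
    have e : ∀ m, ww (m + 1) = Tᴴ *ᵥ ww m := fun m => by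
      simp only [ww, Matrix.mulVec_mulVec, ← pow_succ']
    rw [e, e, Matrix.star_mulVec, Matrix.conjTranspose_conjTranspose, ← Matrix.dotProduct_mulVec,
      Matrix.mulVec_mulVec, Matrix.mulVec_mulVec]
  have hk0 : ∀ i, i + 1 < n → star (ww i) ⬝ᵥ k = 0 := by
    intro i hi
    have := congrArg star (hw0 i hi)
    rw [star_zero, ← star_dotProduct_star, star_star] at this
    exact this
  have e2 := toep_of (n := n) (fun i j => star (ww i) ⬝ᵥ (M *ᵥ ww j)) (fun i j hi hj => by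
    have e : T * M * Tᴴ = M - (Matrix.vecMulVec u (star k) + Matrix.vecMulVec k (star v)) := by
      rw [← h3]; abel
    rw [hstep, e, Matrix.sub_mulVec, Matrix.add_mulVec, Matrix.vecMulVec_mulVec, Matrix.vecMulVec_mulVec,
      dotProduct_sub, dotProduct_add, hw0 j hj]
    simp [hk0 i hi])
  have e1 := toep_of (n := n) (fun i j => star (ww i) ⬝ᵥ ((1 : Matrix (Fin n) (Fin n) ℂ) *ᵥ ww j))
    (fun i j hi hj => by
    have e : T * 1 * Tᴴ = 1 - Matrix.vecMulVec k (star k) := by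
      rw [← h1]; simp
    rw [hstep, e, Matrix.sub_mulVec, Matrix.vecMulVec_mulVec, dotProduct_sub, hw0 j hj]
    simp)
  rw [← hform] at e1 e2
  rw [Matrix.mul_one] at e1
  exact ⟨W, hWu, _, _, _, _, e1, e2⟩

noncomputable def lag (i : Fin n) : Polynomial ℂ :=
  Lagrange.basis Finset.univ (fun l : Fin n => ((l : ℕ) : ℂ)) i

abbrev Par (n : ℕ) := Option (Fin 4 × Fin n) → ℂ
abbrev Pairs (n : ℕ) := {p : Fin n × Fin n // p.1 < p.2}

noncomputable def gi (x : Par n) : Matrix (Fin n) (Fin n) ℂ :=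
  x none • (toep (fun j => x (some (0, j))) (fun j => x (some (1, j)))).adjugate

noncomputable def nn (x : Par n) : Matrix (Fin n) (Fin n) ℂ :=
  toep (fun j => x (some (2, j))) (fun j => x (some (3, j)))

noncomputable def hh (x : Par n) : Matrix (Fin n) (Fin n) ℂ := gi x * ((1 / 2 : ℂ) • (nn x + (nn x)ᴴ))
noncomputable def kk (x : Par n) : Matrix (Fin n) (Fin n) ℂ :=
  gi x * ((1 / (2 * Complex.I) : ℂ) • (nn x - (nn x)ᴴ))

noncomputable def Psi (x : Par n) : Pairs n → ℝ := fun p =>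
  (Polynomial.aeval (hh x) (lag p.1.1) * kk x * Polynomial.aeval (hh x) (lag p.1.2) * kk x).trace.re

lemma sm_toep (a b : Fin 4) : Sm (fun x : Par n => toep (fun j => x (some (a, j))) (fun j => x (some (b, j)))) := by
  intro i j
  simp only [toep]
  split_ifs <;> exact contDiff_apply ℝ ℂ _

lemma Psi_smooth : ContDiff ℝ 1 (Psi (n := n)) := by
  have hg : Sm (gi (n := n)) := Sm.smul (contDiff_apply ℝ ℂ _) (sm_toep 0 1).adj
  have hn : Sm (nn (n := n)) := sm_toep 2 3
  have hh' : Sm (hh (n := n)) := hg.mul (Sm.smul contDiff_const (hn.add hn.star))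
  have hk' : Sm (kk (n := n)) := hg.mul (Sm.smul contDiff_const (hn.sub hn.star))
  refine contDiff_pi.2 fun p => ?_
  exact Complex.reCLM.contDiff.comp ((((hh'.aeval _).mul hk').mul (hh'.aeval _)).mul hk').trace

noncomputable def KK (t : Pairs n → ℝ) : Matrix (Fin n) (Fin n) ℂ := fun i j =>
  if h : i < j then (Real.sqrt (t ⟨(i, j), h⟩) : ℂ) else if h' : j < i then (Real.sqrt (t ⟨(j, i), h'⟩) : ℂ) else 1

noncomputable def HH (n : ℕ) : Matrix (Fin n) (Fin n) ℂ := Matrix.diagonal fun l : Fin n => ((l : ℕ) : ℂ)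

lemma KK_symm (t : Pairs n → ℝ) (i j : Fin n) : KK t j i = KK t i j := by
  unfold KK
  rcases lt_trichotomy i j with h | h | h
  · simp [h, not_lt.2 h.le]
  · subst h; rfl
  · simp [h, not_lt.2 h.le]

lemma KK_herm (t : Pairs n → ℝ) : (KK t)ᴴ = KK t := by
  ext i j
  rw [Matrix.conjTranspose_apply, KK_symm]
  unfold KK
  split_ifs <;> simp

lemma HH_herm : (HH n)ᴴ = HH n := by
  unfold HH
  rw [Matrix.diagonal_conjTranspose]
  congr 1; funext l; simp

noncomputable def MM (t : Pairs n → ℝ) : Matrix (Fin n) (Fin n) ℂ := HH n + Complex.I • KK t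

lemma MM_star (t : Pairs n → ℝ) : (MM t)ᴴ = HH n - Complex.I • KK t := by
  unfold MM
  rw [Matrix.conjTranspose_add, Matrix.conjTranspose_smul, HH_herm, KK_herm]
  simp [sub_eq_add_neg]

lemma aeval_lag (i : Fin n) : Polynomial.aeval (HH n) (lag i) = Matrix.diagonal (Pi.single i 1) := by
  unfold HH lag
  rw [aeval_diag]
  congr 1
  funext l
  have hinj : Set.InjOn (fun l : Fin n => ((l : ℕ) : ℂ)) (Finset.univ : Finset (Fin n)) := by
    intro a _ b _ h
    exact Fin.ext (Nat.cast_injective (R := ℂ) h)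
  by_cases h : l = i
  · subst h; rw [Lagrange.eval_basis_self hinj (Finset.mem_univ _), Pi.single_eq_same]
  · rw [Pi.single_eq_of_ne h]
    exact Lagrange.eval_basis_of_ne (v := fun l : Fin n => ((l : ℕ) : ℂ)) (Ne.symm h) (Finset.mem_univ _)

lemma mem_range (t : Pairs n → ℝ) (ht : ∀ p, 0 < t p) {W : Matrix (Fin n) (Fin n) ℂ} (hW : IsUnit W)
    {r c r' c' : Fin n → ℂ} (h1 : Wᴴ * W = toep r c) (h2 : Wᴴ * MM t * W = toep r' c') :
    t ∈ Set.range (Psi (n := n)) := by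
  let x : Par n := fun o => match o with
    | none => Ring.inverse (Wᴴ * W).det
    | some (a, j) => (![r, c, r', c'] a) j
  have hWd : IsUnit W.det := (Matrix.isUnit_iff_isUnit_det W).1 hW
  have hWd' : IsUnit Wᴴ.det := by rw [Matrix.det_conjTranspose]; exact hWd.star
  have hg : gi x = (Wᴴ * W)⁻¹ := by
    rw [Matrix.inv_def]; unfold gi; congr 2; rw [h1]; rfl
  have hn : nn x = Wᴴ * MM t * W := by rw [h2]; rfl
  have hn' : (nn x)ᴴ = Wᴴ * (MM t)ᴴ * W := by
    rw [hn]; simp [Matrix.mul_assoc]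
  have key : ∀ A : Matrix (Fin n) (Fin n) ℂ, W * (gi x * (Wᴴ * A * W)) = A * W := by
    intro A
    rw [hg, Matrix.mul_inv_rev, Matrix.mul_assoc, Matrix.mul_assoc Wᴴ, Matrix.mul_nonsing_inv_cancel_left _ _ hWd,
      Matrix.nonsing_inv_mul_cancel_left _ _ hWd']
  have hH : W * hh x = HH n * W := by
    rw [← key]; unfold hh; congr 2
    rw [hn', hn, MM_star, MM, ← Matrix.add_mul, ← Matrix.mul_add, ← Matrix.smul_mul, ← Matrix.mul_smul]
    congr 2
    ext i j; simp; ring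
  have hK : W * kk x = KK t * W := by
    rw [← key]; unfold kk; congr 2
    rw [hn', hn, MM_star, MM, ← Matrix.sub_mul, ← Matrix.mul_sub, ← Matrix.smul_mul, ← Matrix.mul_smul]
    congr 2
    ext i j; simp; field_simp; ring_nf; rw [Complex.I_sq]; ring
  refine ⟨x, funext fun p => ?_⟩
  unfold Psi
  have e1 : W * (Polynomial.aeval (hh x) (lag p.1.1) * kk x * Polynomial.aeval (hh x) (lag p.1.2) * kk x) =
      (Polynomial.aeval (HH n) (lag p.1.1) * KK t * Polynomial.aeval (HH n) (lag p.1.2) * KK t) * W := by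
    simp only [← Matrix.mul_assoc]
    rw [aeval_conj hH, Matrix.mul_assoc _ W, hK, ← Matrix.mul_assoc, Matrix.mul_assoc _ W, aeval_conj hH,
      ← Matrix.mul_assoc, Matrix.mul_assoc _ W, hK, ← Matrix.mul_assoc]
  have e2 : ∀ A B : Matrix (Fin n) (Fin n) ℂ, W * A = B * W → A.trace = B.trace := by
    intro A B h
    have : A = W⁻¹ * (B * W) := by rw [← h, Matrix.nonsing_inv_mul_cancel_left _ _ hWd]
    rw [this, Matrix.trace_mul_comm, Matrix.mul_assoc, Matrix.mul_nonsing_inv _ hWd, Matrix.mul_one]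
  rw [e2 _ _ e1, aeval_lag, aeval_lag]
  have e3 : (Matrix.diagonal (Pi.single p.1.1 1) * KK t * Matrix.diagonal (Pi.single p.1.2 1) * KK t).trace =
      KK t p.1.1 p.1.2 * KK t p.1.2 p.1.1 := by
    simp [Matrix.trace, Matrix.mul_apply, Matrix.diagonal_apply, Pi.single_apply]
  rw [e3, KK_symm t p.1.1 p.1.2]
  unfold KK
  rw [dif_pos p.2, ← Complex.ofReal_mul, Complex.ofReal_re, Real.mul_self_sqrt (ht _).le]

def Bad (M : Matrix (Fin n) (Fin n) ℂ) : Prop :=
  ∃ x y : Fin n → ℂ, ∃ a b : ℂ, x ≠ 0 ∧ y ≠ 0 ∧ M *ᵥ x = a • x ∧ M *ᵥ y = b • y ∧ star x ⬝ᵥ y = 0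

lemma eig_iff {M : Matrix (Fin n) (Fin n) ℂ} {x : Fin n → ℂ} (hx : x ≠ 0) :
    (∃ a : ℂ, M *ᵥ x = a • x) ↔ ∀ i j, (M *ᵥ x) i * x j = (M *ᵥ x) j * x i := by
  constructor
  · rintro ⟨a, ha⟩ i j; rw [ha]; simp; ring
  · intro h
    obtain ⟨j, hj⟩ := Function.ne_iff.1 hx
    have hj' : x j ≠ 0 := hj
    refine ⟨(M *ᵥ x) j / x j, funext fun i => ?_⟩
    rw [Pi.smul_apply, smul_eq_mul, div_mul_eq_mul_div, eq_div_iff hj', h i j]

lemma bad_closed : IsClosed {M : Matrix (Fin n) (Fin n) ℂ | Bad M} := by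
  let S := Metric.sphere (0 : Fin n → ℂ) 1
  let Z : Set (Matrix (Fin n) (Fin n) ℂ × (S × S)) := {q |
    (∀ i j, (q.1 *ᵥ q.2.1.1) i * q.2.1.1 j = (q.1 *ᵥ q.2.1.1) j * q.2.1.1 i) ∧
    (∀ i j, (q.1 *ᵥ q.2.2.1) i * q.2.2.1 j = (q.1 *ᵥ q.2.2.1) j * q.2.2.1 i) ∧ star q.2.1.1 ⬝ᵥ q.2.2.1 = 0}
  have hZ : IsClosed Z := by
    simp only [Z, Set.ofPred_and, Set.ofPred_forall]
    have c1 : Continuous (fun q : Matrix (Fin n) (Fin n) ℂ × (S × S) => (q.2.1.1 : Fin n → ℂ)) := by fun_prop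
    have c2 : Continuous (fun q : Matrix (Fin n) (Fin n) ℂ × (S × S) => (q.2.2.1 : Fin n → ℂ)) := by fun_prop
    have c3 := continuous_fst.matrix_mulVec c1
    have c4 := continuous_fst.matrix_mulVec c2
    exact (isClosed_iInter fun i => isClosed_iInter fun j => isClosed_eq
        (((continuous_apply i).comp c3).mul ((continuous_apply j).comp c1))
        (((continuous_apply j).comp c3).mul ((continuous_apply i).comp c1))).inter
      ((isClosed_iInter fun i => isClosed_iInter fun j => isClosed_eq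
        (((continuous_apply i).comp c4).mul ((continuous_apply j).comp c2))
        (((continuous_apply j).comp c4).mul ((continuous_apply i).comp c2))).inter
        (isClosed_eq (c1.star.dotProduct c2) continuous_const))
  have := isClosedMap_fst_of_compactSpace Z hZ
  convert this using 1
  ext M
  constructor
  · rintro ⟨x, y, a, b, hx, hy, h1, h2, h3⟩
    have nx : ‖x‖ ≠ 0 := norm_ne_zero_iff.2 hx
    have ny : ‖y‖ ≠ 0 := norm_ne_zero_iff.2 hy
    have sx : ((‖x‖⁻¹ : ℝ) : ℂ) • x ∈ S := by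
      simp [S, norm_smul, nx]
    have sy : ((‖y‖⁻¹ : ℝ) : ℂ) • y ∈ S := by
      simp [S, norm_smul, ny]
    refine ⟨(M, ⟨_, sx⟩, ⟨_, sy⟩), ⟨?_, ?_, ?_⟩, rfl⟩
    · intro i j; simp only [Matrix.mulVec_smul, h1, Pi.smul_apply, smul_eq_mul]; ring
    · intro i j; simp only [Matrix.mulVec_smul, h2, Pi.smul_apply, smul_eq_mul]; ring
    · simp only [star_smul, smul_dotProduct, dotProduct_smul, h3, smul_zero]
  · rintro ⟨⟨M', x, y⟩, ⟨h1, h2, h3⟩, rfl⟩
    have hx : x.1 ≠ 0 := by intro e; have := x.2; rw [e] at this; simp [S] at this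
    have hy : y.1 ≠ 0 := by intro e; have := y.2; rw [e] at this; simp [S] at this
    obtain ⟨a, ha⟩ := (eig_iff hx).2 h1
    obtain ⟨b, hb⟩ := (eig_iff hy).2 h2
    exact ⟨x, y, a, b, hx, hy, ha, hb, h3⟩

lemma MM_cont : Continuous (MM (n := n)) := by
  have : Continuous (KK (n := n)) := by
    refine continuous_pi fun i => continuous_pi fun j => ?_
    unfold KK
    split_ifs <;> fun_prop
  unfold MM
  fun_prop

lemma not_bad : ¬ Bad (MM (fun _ : Pairs n => 1)) := by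
  rintro ⟨x, y, a, b, hx, hy, h1, h2, h3⟩
  have hK : KK (fun _ : Pairs n => 1) = Matrix.of fun _ _ => 1 := by
    ext i j; unfold KK; split_ifs <;> simp
  have hKv : ∀ z : Fin n → ℂ, KK (fun _ : Pairs n => 1) *ᵥ z = fun _ => ∑ j, z j := fun z => by
    funext i; simp [hK, Matrix.mulVec, dotProduct]
  have hsum : ∀ (z : Fin n → ℂ) (c : ℂ), z ≠ 0 → MM (fun _ : Pairs n => 1) *ᵥ z = c • z → ∑ j, z j ≠ 0 := by
    intro z c hz hc hs
    obtain ⟨j, hj⟩ := Function.ne_iff.1 hz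
    have hj' : z j ≠ 0 := hj
    have e : ∀ i : Fin n, ((i : ℕ) : ℂ) * z i = c * z i := fun i => by
      have := congrFun hc i
      simpa [MM, HH, Matrix.add_mulVec, Matrix.smul_mulVec, hKv, hs, Matrix.mulVec_diagonal] using this
    have ej := mul_right_cancel₀ hj' (e j)
    rw [Finset.sum_eq_single j] at hs
    · exact hj' hs
    · intro i _ hi
      by_contra hzi
      have := mul_right_cancel₀ hzi (e i)
      rw [← ej] at this
      exact hi (Fin.ext (by exact_mod_cast this))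
    · simp
  have a1 : star x ⬝ᵥ (MM (fun _ : Pairs n => 1) *ᵥ y) = 0 := by rw [h2, dotProduct_smul, h3, smul_zero]
  have a2 : star x ⬝ᵥ ((MM (fun _ : Pairs n => 1))ᴴ *ᵥ y) = 0 := by
    rw [Matrix.dotProduct_mulVec, ← Matrix.star_mulVec, h1, star_smul, smul_dotProduct, h3, smul_zero]
  rw [MM_star, Matrix.sub_mulVec, dotProduct_sub] at a2
  rw [MM, Matrix.add_mulVec, dotProduct_add] at a1
  have a3 : star x ⬝ᵥ ((Complex.I • KK (fun _ : Pairs n => 1)) *ᵥ y) = 0 := by
    linear_combination (a1 - a2) / 2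
  rw [Matrix.smul_mulVec, dotProduct_smul, hKv, smul_eq_mul, mul_eq_zero] at a3
  rcases a3 with a3 | a3
  · exact Complex.I_ne_zero a3
  · have : star x ⬝ᵥ (fun _ => ∑ j, y j) = star (∑ j, x j) * ∑ j, y j := by
      simp [dotProduct, Finset.sum_mul]
    rw [this, mul_eq_zero, star_eq_zero] at a3
    exact a3.elim (hsum x a hx h1) (hsum y b hy h2)

end Aux

/-- The negation of the preceding statement: For n at least 4, every complex symmetric n×n matrix with no two orthogonal nonzero eigenvectors is unitarily equivalent to a truncated Toeplitz operator, encoded via the compressed-shift model and Sarason's rank-two criterion M − TMT* = u⊗k + k⊗v. -/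
theorem result :
    ¬ (∀ n : ℕ, 4 ≤ n → ∀ M : Matrix (Fin n) (Fin n) ℂ, Mᵀ = M →
      (¬ ∃ x y : Fin n → ℂ, ∃ a b : ℂ, x ≠ 0 ∧ y ≠ 0 ∧
          M *ᵥ x = a • x ∧ M *ᵥ y = b • y ∧ star x ⬝ᵥ y = 0) →
      ∃ T : Matrix (Fin n) (Fin n) ℂ, ∃ k u v : Fin n → ℂ,
        1 - T * Tᴴ = Matrix.vecMulVec k (star k) ∧
        (∀ μ : ℂ, ∀ x : Fin n → ℂ, x ≠ 0 → T *ᵥ x = μ • x → ‖μ‖ < 1) ∧
        M - T * M * Tᴴ = Matrix.vecMulVec u (star k) + Matrix.vecMulVec k (star v)) := by
  intro h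
  have hd : Dense (Set.range (Psi (n := 18)))ᶜ := by
    apply Psi_smooth.dense_compl_range_of_finrank_lt_finrank
    have h1 : Fintype.card (Pairs 18) = 153 := by
      rw [Fintype.card_subtype]; decide +kernel
    rw [Module.finrank_pi_fintype, Module.finrank_fintype_fun_eq_card, h1]
    simp
  have hU : IsOpen ({t : Pairs 18 → ℝ | ∀ p, 0 < t p} ∩ MM ⁻¹' {M | Bad M}ᶜ) := by
    refine IsOpen.inter ?_ (bad_closed.isOpen_compl.preimage MM_cont)
    rw [Set.ofPred_forall]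
    exact isOpen_iInter_of_finite fun p => isOpen_lt continuous_const (continuous_apply p)
  obtain ⟨t, ⟨ht1, ht2⟩, ht3⟩ := hd.inter_open_nonempty _ hU ⟨fun _ => 1, fun _ => one_pos, not_bad⟩
  obtain ⟨T, k, u, v, h1, h2, h3⟩ := h 18 (by norm_num) (MM t) (by
    ext i j
    simp only [MM, HH, Matrix.transpose_apply, Matrix.add_apply, Matrix.smul_apply, KK_symm t i j]
    congr 1
    by_cases hij : i = j
    · subst hij; rfl
    · simp [Matrix.diagonal_apply_ne _ hij, Matrix.diagonal_apply_ne _ (Ne.symm hij)]) ht2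
  obtain ⟨W, hW, r, c, r', c', e1, e2⟩ := model (by norm_num) h1 h2 h3
  exact ht3 (mem_range t ht1 hW e1 e2)

end Pool.Agent.S03774
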