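import Pool.Statements.S03781
import Pool.Agent.H21.Ruz3

set_option autoImplicit false
open scoped Topology
open Pool Pool.MP_0b4183_an

namespace Pool.Agent.S03781

open Pool.Agent.H21.Ruz

/-- If ψ is holomorphic on a connected open Ω in C^n, its Hessian has maximal rank k (0<k<n), and rank-k level sets of ∇ψ are affine (n−k)-planes, then every point where the kernel field has no local continuous extension lies on a positive-dimensional affine piece of such points. -/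
theorem result :
    ∀ (n k : ℕ) (Ω : Set (Fin n → ℂ)) (ψ : (Fin n → ℂ) → ℂ)
      (r : (Fin n → ℂ) → ℕ) (K : (Fin n → ℂ) → Submodule ℂ (Fin n → ℂ)),
      IsOpen Ω → IsConnected Ω → AnalyticOnNhd ℂ ψ Ω →
      (∀ ξ : Fin n → ℂ, r ξ = Module.finrank ℂ (LinearMap.range
        ((fderiv ℂ (fderiv ℂ ψ) ξ : (Fin n → ℂ) →L[ℂ] ((Fin n → ℂ) →L[ℂ] ℂ)) :
          (Fin n → ℂ) →ₗ[ℂ] ((Fin n → ℂ) →L[ℂ] ℂ)))) →
      (∀ ξ : Fin n → ℂ, K ξ = LinearMap.ker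
        ((fderiv ℂ (fderiv ℂ ψ) ξ : (Fin n → ℂ) →L[ℂ] ((Fin n → ℂ) →L[ℂ] ℂ)) :
          (Fin n → ℂ) →ₗ[ℂ] ((Fin n → ℂ) →L[ℂ] ℂ))) →
      1 ≤ k → k ≤ n - 1 →
      (∀ ξ ∈ Ω, r ξ ≤ k) →
      (∃ ξ ∈ Ω, r ξ = k) →
      (∀ ξ ∈ Ω, r ξ = k →
        ∃ V : Submodule ℂ (Fin n → ℂ), Module.finrank ℂ V = n - k ∧
          {η | η ∈ Ω ∧ fderiv ℂ ψ η = fderiv ℂ ψ ξ} = {η | η ∈ Ω ∧ η - ξ ∈ V}) →
      ∀ S : Set (Fin n → ℂ),
        S = {ξ | ξ ∈ Ω ∧ ¬ ∃ U : Set (Fin n → ℂ),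
              IsOpen U ∧ ξ ∈ U ∧ U ⊆ Ω ∧
              ∃ v : Fin (n - k) → (Fin n → ℂ) → (Fin n → ℂ),
                (∀ i, ContinuousOn (v i) U) ∧
                (∀ η ∈ U, LinearIndependent ℂ (fun i => v i η)) ∧
                (∀ η ∈ U, r η = k →
                  Submodule.span ℂ (Set.range (fun i => v i η)) = K η)} →
        ∀ ξ ∈ S, ∃ V : Submodule ℂ (Fin n → ℂ), V ≠ ⊥ ∧
          ∃ U ∈ 𝓝 ξ, ∀ η ∈ U, η - ξ ∈ V → η ∈ S := by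
  intro n k Ω ψ r K hΩ hc hψ hr hK hk1 hk2 hle hex hlev S hS ξ hξ
  have hG : AnalyticOnNhd ℂ (fderiv ℂ ψ) Ω := hψ.fderiv
  have hrk : ∀ z, r z = rk (fderiv ℂ ψ) z := hr
  have hSe : ∀ z, z ∈ S ↔ z ∈ Ω ∧ ¬ Pool.Agent.H21.Ruz.Ext Ω (fderiv ℂ ψ) k (n - k) z := by
    intro z
    rw [hS]
    simp only [Set.mem_setOf_eq, Pool.Agent.H21.Ruz.Ext, hrk, hK]
  obtain ⟨hξΩ, hξn⟩ := (hSe ξ).1 hξ
  obtain ⟨a, ha, R, hR, hRΩ, h⟩ := Pool.Agent.H21.Ruz.main (k := k) (m := n - k) hΩ hc.isPreconnected hG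
    (by simp; omega) (by omega) (fun z hz => hrk z ▸ hle z hz)
    (by obtain ⟨z, hz, h⟩ := hex; exact ⟨z, hz, hrk z ▸ h⟩)
    (fun z hz h => hlev z hz ((hrk z).trans h)) hξΩ
  refine ⟨Submodule.span ℂ {a}, by simpa using ha, Metric.ball ξ R, Metric.ball_mem_nhds ξ hR,
    fun η hη hV => ?_⟩
  obtain ⟨c, hc'⟩ := Submodule.mem_span_singleton.1 hV
  have e : η = ξ + c • a := by rw [hc']; abel
  rw [hSe]
  refine ⟨hRΩ hη, fun hE => hξn ?_⟩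
  rw [e] at hη hE
  exact h c hη hE

end Pool.Agent.S03781
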