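import Pool.Statements.S03785
import Pool.Agent.H5.Medial

set_option autoImplicit false
open Pool Pool.MP_0bc80f_an

namespace Pool.Agent.S03785

open Pool.Agent.H5.Medial Set Filter Topology

theorem cont_of_affine {X : Type} [LinearOrder X] [BoundedOrder X] [TopologicalSpace X]
    [OrderTopology X] (op : X → X → X) (α : ℝ) (h0 : 0 < α) (h1 : α < 1) (g : X → ℝ)
    (hg : Monotone g) (h : ∀ x y, g (op x y) = α * g x + (1 - α) * g y) : Continuous g := by
  let g' : X → Icc (g ⊥) (g ⊤) := fun x => ⟨g x, hg bot_le, hg le_top⟩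
  have hc : Continuous g' := by
    refine Monotone.continuous_of_denseRange (fun x y hxy => hg hxy) ?_
    set q := max α (1 - α) with hq
    have hq0 : 0 ≤ q := le_max_of_le_left h0.le
    have hq1 : q < 1 := max_lt h1 (by linarith)
    have key : ∀ r : Icc (g ⊥) (g ⊤), ∀ n : ℕ, ∃ x y, g x ≤ r ∧ (r : ℝ) ≤ g y ∧
        g y - g x ≤ q ^ n * (g ⊤ - g ⊥) := by
      intro r n
      induction n with
      | zero => exact ⟨⊥, ⊤, r.2.1, r.2.2, by simp⟩
      | succ n ih =>
        obtain ⟨x, y, a1, a2, a3⟩ := ih
        have b1 : α ≤ q := le_max_left _ _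
        have b2 : 1 - α ≤ q := le_max_right _ _
        have b3 : 0 ≤ g y - g x := by linarith
        have b4 := mul_le_mul_of_nonneg_left a3 hq0
        rcases le_total (g (op x y)) r with hr | hr
        · refine ⟨op x y, y, hr, a2, ?_⟩
          rw [h, pow_succ]
          nlinarith [mul_le_mul_of_nonneg_right b1 b3]
        · refine ⟨x, op x y, a1, hr, ?_⟩
          rw [h, pow_succ]
          nlinarith [mul_le_mul_of_nonneg_right b2 b3]
    rw [Metric.denseRange_iff]
    intro r ε hε
    have ht : Tendsto (fun n : ℕ => q ^ n * (g ⊤ - g ⊥)) atTop (𝓝 0) := by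
      simpa using (tendsto_pow_atTop_nhds_zero_of_lt_one hq0 hq1).mul_const (g ⊤ - g ⊥)
    obtain ⟨n, hn⟩ := (ht.eventually (gt_mem_nhds hε)).exists
    obtain ⟨x, y, a1, a2, a3⟩ := key r n
    refine ⟨x, ?_⟩
    rw [Subtype.dist_eq, Real.dist_eq, abs_lt]
    constructor <;> simp only [g'] <;> linarith
  exact continuous_subtype_val.comp hc

theorem binary {a b : ℝ} [Fact (a ≤ b)] (hab : a < b) (S : MO (Icc a b)) :
    ∃ (α : ℝ) (f : Icc a b → ℝ), 0 < α ∧ α < 1 ∧ StrictMono f ∧ Continuous f ∧ f ⊥ = 0 ∧ f ⊤ = 1 ∧
      ∀ x y, f (S.op x y) = α * f x + (1 - α) * f y := by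
  have hbt : (⊥ : Icc a b) < ⊤ := hab
  obtain ⟨α, f, a0, a1, hf, f0, f1, hop⟩ := S.exists_f hbt
  have : PreconnectedSpace (Icc a b) := Subtype.preconnectedSpace isPreconnected_Icc
  have hlc : ∀ u : Icc a b → Icc a b → Icc a b, (∀ y, StrictMono fun x => u x y) →
      (∀ y, u y y = y) → ¬ ∀ x y, f (u x y) = f y := by
    intro u u1 u2 u3
    have : IsLocallyConstant f := by
      rw [IsLocallyConstant.iff_eventually_eq]
      intro y
      have e1 : ∀ᶠ z in 𝓝 y, u ⊥ y ≤ z := by
        rcases eq_or_lt_of_le (bot_le : ⊥ ≤ y) with h | h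
        · refine Eventually.of_forall fun z => ?_
          rw [← h, u2]; exact bot_le
        · have : u ⊥ y < y := by simpa [u2] using u1 y h
          exact (eventually_gt_nhds this).mono fun z hz => hz.le
      have e2 : ∀ᶠ z in 𝓝 y, z ≤ u ⊤ y := by
        rcases eq_or_lt_of_le (le_top : y ≤ ⊤) with h | h
        · refine Eventually.of_forall fun z => ?_
          rw [h, u2]; exact le_top
        · have : y < u ⊤ y := by simpa [u2] using u1 y h
          exact (eventually_lt_nhds this).mono fun z hz => hz.le
      filter_upwards [e1, e2] with z h1 h2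
      exact le_antisymm (by rw [← u3 ⊤ y]; exact hf h2) (by rw [← u3 ⊥ y]; exact hf h1)
    have := this.apply_eq_of_preconnectedSpace ⊥ ⊤
    rw [f0, f1] at this
    exact zero_ne_one this
  have b0 : 0 < α := lt_of_le_of_ne a0 fun h =>
    hlc S.op S.left S.idem fun x y => by rw [hop, ← h]; ring
  have b1 : α < 1 := lt_of_le_of_ne a1 fun h =>
    hlc (fun x y => S.op y x) S.right S.idem fun x y => by rw [hop, h]; ring
  have hc := cont_of_affine S.op α b0 b1 f hf hop
  refine ⟨α, f, b0, b1, hf.strictMono_of_injective ?_, hc, f0, f1, hop⟩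
  have hsurj : ∀ r : Icc (0 : ℝ) 1, ∃ u, f u = r := fun r =>
    intermediate_value_univ ⊥ ⊤ hc (by rw [f0, f1]; exact r.2)
  choose U hU using hsurj
  have key : ∀ x y, x < y → f x ≠ f y := by
    intro x y hxy he
    have hval : ∀ r, ∀ z ∈ Ioo (S.op x (U r)) (S.op y (U r)), f z = α * f x + (1 - α) * r := by
      intro r z hz
      have c1 := hf hz.1.le
      have c2 := hf hz.2.le
      rw [hop, hU] at c1 c2
      rw [← he] at c2
      exact le_antisymm c2 c1
    have hcount : Countable (Icc (0 : ℝ) 1) := by
      refine Pairwise.countable_of_isOpen_disjoint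
        (s := fun r : Icc (0 : ℝ) 1 => Ioo (S.op x (U r)) (S.op y (U r))) ?_ (fun _ => isOpen_Ioo)
        fun r => nonempty_Ioo.mpr (S.left _ hxy)
      intro r s hrs
      rw [Function.onFun, Set.disjoint_left]
      intro z h1 h2
      apply hrs
      have := (hval r z h1).symm.trans (hval s z h2)
      apply Subtype.ext
      have h3 : (1 - α) * ((r : ℝ) - s) = 0 := by linarith
      rcases mul_eq_zero.mp h3 with h4 | h4 <;> linarith
    have := Cardinal.Real.Icc_countable_iff.mp (Set.countable_coe_iff.mp hcount)
    norm_num at this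
  intro x y h
  rcases lt_trichotomy x y with h' | h' | h'
  · exact absurd h (key x y h')
  · exact h'
  · exact absurd h.symm (key y x h')

theorem mono_pi {X : Type} [LinearOrder X] {n : ℕ} (F : (Fin n → X) → X)
    (h : ∀ (x : Fin n → X) (i : Fin n), StrictMono fun t => F (Function.update x i t)) :
    Monotone F := by
  intro x y hxy
  have key : ∀ s : Finset (Fin n), F x ≤ F (fun i => if i ∈ s then y i else x i) := by
    intro s
    induction s using Finset.induction_on with
    | empty => simp
    | insert j s hj ih =>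
      refine ih.trans ?_
      have := (h (fun i => if i ∈ s then y i else x i) j).monotone (hxy j)
      convert this using 2
      · funext i
        by_cases hi : i = j
        · subst hi; simp [hj]
        · simp [hi]
      · funext i
        by_cases hi : i = j
        · subst hi; simp
        · simp [hi]
  simpa using key Finset.univ

/-- For a<b and n≥2, every map F from [a,b]^n to [a,b] that is reflexive, bisymmetric and strictly increasing in each variable (not assumed symmetric) is continuous. -/
theorem result :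
    ∀ (a b : ℝ), a < b → ∀ (n : ℕ), 2 ≤ n →
      ∀ F : (Fin n → Set.Icc a b) → Set.Icc a b,
        (∀ x : Set.Icc a b, F (fun _ => x) = x) →
        (∀ M : Fin n → Fin n → Set.Icc a b,
            F (fun i => F (M i)) = F (fun j => F (fun i => M i j))) →
        (∀ (x : Fin n → Set.Icc a b) (i : Fin n),
            StrictMono (fun t : Set.Icc a b => F (Function.update x i t))) →
        Continuous F := by
  intro a b hab n hn F hr hb hs
  have : Fact (a ≤ b) := ⟨hab.le⟩
  have hmono := mono_pi F hs
  let i0 : Fin n := ⟨0, by omega⟩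
  let i1 : Fin n := ⟨1, by omega⟩
  have h01 : i1 ≠ i0 := by simp [i0, i1]
  let op : Icc a b → Icc a b → Icc a b := fun x y => F (fun j => if j = i0 then x else y)
  have hhom : ∀ x y : Fin n → Icc a b, F (fun i => op (x i) (y i)) = op (F x) (F y) := by
    intro x y
    rw [show (fun i => op (x i) (y i)) = fun i => F ((fun i j => if j = i0 then x i else y i) i)
      from rfl, hb]
    simp only [op]
    congr 1
    funext j
    split_ifs <;> rfl
  let S : MO (Icc a b) :=
    { op := op
      left := fun y x x' hx => by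
        have := hs (fun _ => y) i0 hx
        have e : ∀ t, Function.update (fun _ => y) i0 t = fun j => if j = i0 then t else y :=
          fun t => funext fun j => Function.update_apply _ _ _ _
        simp only [e] at this
        exact this
      right := fun x y y' hy => by
        have h1 := hs (fun j => if j = i0 then x else y) i1 hy
        simp only at h1
        have e : Function.update (fun j => if j = i0 then x else y) i1 y
            = fun j => if j = i0 then x else y := by
          rw [Function.update_eq_self_iff]; simp [h01]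
        rw [e] at h1
        refine h1.trans_le (hmono fun j => ?_)
        rw [Function.update_apply]
        split_ifs with h2 h3 h3
        · exact absurd (h2.symm.trans h3) h01
        · exact le_rfl
        · exact le_rfl
        · exact hy.le
      idem := fun x => by simp only [op, ite_self, hr]
      med := fun x y u v => by
        rw [← hhom]
        simp only [op]
        congr 1
        funext j
        split_ifs <;> rfl }
  obtain ⟨α, f, a0, a1, hf, hc, f0, f1, hop⟩ := binary hab S
  have : PreconnectedSpace (Icc a b) := Subtype.preconnectedSpace isPreconnected_Icc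
  let f' : Icc a b → Icc (0 : ℝ) 1 := fun x =>
    ⟨f x, by rw [← f0]; exact hf.monotone bot_le, by rw [← f1]; exact hf.monotone le_top⟩
  have hsurj : Function.Surjective f' := fun r => by
    obtain ⟨u, hu⟩ := intermediate_value_univ ⊥ ⊤ hc (by rw [f0, f1]; exact r.2)
    exact ⟨u, Subtype.ext hu⟩
  let e : Icc a b ≃o Icc (0 : ℝ) 1 := StrictMono.orderIsoOfSurjective f' (fun x y h => hf h) hsurj
  have he : ∀ x, (e x : ℝ) = f x := fun _ => rfl
  have he' : ∀ r, f (e.symm r) = r := fun r => by rw [← he, e.apply_symm_apply]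
  let cv : Icc (0 : ℝ) 1 → Icc (0 : ℝ) 1 → Icc (0 : ℝ) 1 := fun s t =>
    ⟨α * s + (1 - α) * t, by nlinarith [s.2.1, t.2.1], by nlinarith [s.2.2, t.2.2]⟩
  suffices h : Continuous fun x => f (F x) by
    have h2 : Continuous fun x => e (F x) := h.subtype_mk _
    have := e.symm.continuous.comp h2
    simpa [Function.comp_def] using this
  rw [continuous_iff_continuousAt]
  intro u
  have path : ∀ c : ℝ, ∀ (P : Icc (0 : ℝ) 1 → Fin n → Icc a b),
      (∀ s i, f (P s i) = f (u i) + s * (c - f (u i))) →
      (∀ s t, f (F (P (cv s t))) = α * f (F (P s)) + (1 - α) * f (F (P t))) ∧ P ⊥ = u := by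
    intro c P hP
    constructor
    · intro s t
      rw [← hop]
      congr 1
      refine Eq.trans ?_ (hhom _ _)
      congr 1
      funext i
      apply hf.injective
      rw [hP]
      refine Eq.trans ?_ (hop _ _).symm
      rw [hP, hP]
      simp only [cv]
      ring
    · funext i
      apply hf.injective
      rw [hP]
      show f (u i) + 0 * _ = _
      ring
  have hfu : ∀ i, 0 ≤ f (u i) ∧ f (u i) ≤ 1 := fun i => (f' (u i)).2
  have hbt : (⊥ : Icc (0 : ℝ) 1) < ⊤ := zero_lt_one (α := ℝ)
  have small : ∀ p : Icc (0 : ℝ) 1 → Prop, (∀ᶠ s in 𝓝 ⊥, p s) → ∃ s : Icc (0 : ℝ) 1, 0 < (s : ℝ) ∧ p s := by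
    intro p hp
    have : (𝓝[>] (⊥ : Icc (0 : ℝ) 1)).NeBot := nhdsGT_neBot_of_exists_gt ⟨⊤, hbt⟩
    obtain ⟨s, h1, h2⟩ := ((hp.filter_mono nhdsWithin_le_nhds).and
      (self_mem_nhdsWithin (s := Ioi (⊥ : Icc (0 : ℝ) 1)))).exists
    exact ⟨s, h2, h1⟩
  have hci : ∀ i, Tendsto (fun v : Fin n → Icc a b => f (v i)) (𝓝 u) (𝓝 (f (u i))) := fun i =>
    (hc.comp (continuous_apply i)).continuousAt
  refine tendsto_order.mpr ⟨fun c hcu => ?_, fun c hcu => ?_⟩
  · let P : Icc (0 : ℝ) 1 → Fin n → Icc a b := fun s i => e.symm ⟨f (u i) + s * (0 - f (u i)),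
      by nlinarith [s.2.1, s.2.2, (hfu i).1, (hfu i).2], by nlinarith [s.2.1, s.2.2, (hfu i).1, (hfu i).2]⟩
    have hP : ∀ s i, f (P s i) = f (u i) + s * (0 - f (u i)) := fun s i => he' _
    obtain ⟨p1, p2⟩ := path 0 P hP
    have hcont := cont_of_affine cv α a0 a1 (fun s => - f (F (P s))) (by
      intro s t hst
      refine neg_le_neg (hf.monotone (hmono fun i => hf.le_iff_le.mp ?_))
      rw [hP, hP]
      have : (s : ℝ) ≤ t := hst
      nlinarith [(hfu i).1]) (fun s t => by rw [p1]; ring)
    obtain ⟨s, s0, hs'⟩ := small (fun s => - f (F (P s)) < - c)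
      (hcont.continuousAt.eventually (gt_mem_nhds (by simp only [p2]; linarith)))
    have : ∀ᶠ v in 𝓝 u, ∀ i, P s i ≤ v i := by
      refine eventually_all.mpr fun i => ?_
      rcases eq_or_lt_of_le (hfu i).1 with h | h
      · refine Eventually.of_forall fun v => hf.le_iff_le.mp ?_
        rw [hP, ← h]
        simpa using (f' (v i)).2.1
      · refine ((hci i).eventually (lt_mem_nhds (a := f (P s i)) ?_)).mono fun v hv =>
          (hf.lt_iff_lt.mp hv).le
        rw [hP]; nlinarith
    filter_upwards [this] with v hv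
    have := hf.monotone (hmono hv)
    linarith
  · let P : Icc (0 : ℝ) 1 → Fin n → Icc a b := fun s i => e.symm ⟨f (u i) + s * (1 - f (u i)),
      by nlinarith [s.2.1, s.2.2, (hfu i).1, (hfu i).2], by nlinarith [s.2.1, s.2.2, (hfu i).1, (hfu i).2]⟩
    have hP : ∀ s i, f (P s i) = f (u i) + s * (1 - f (u i)) := fun s i => he' _
    obtain ⟨p1, p2⟩ := path 1 P hP
    have hcont := cont_of_affine cv α a0 a1 (fun s => f (F (P s))) (by
      intro s t hst
      refine hf.monotone (hmono fun i => hf.le_iff_le.mp ?_)
      rw [hP, hP]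
      have : (s : ℝ) ≤ t := hst
      nlinarith [(hfu i).2]) p1
    obtain ⟨s, s0, hs'⟩ := small (fun s => f (F (P s)) < c)
      (hcont.continuousAt.eventually (gt_mem_nhds (by simp only [p2]; exact hcu)))
    have : ∀ᶠ v in 𝓝 u, ∀ i, v i ≤ P s i := by
      refine eventually_all.mpr fun i => ?_
      rcases eq_or_lt_of_le (hfu i).2 with h | h
      · refine Eventually.of_forall fun v => hf.le_iff_le.mp ?_
        rw [hP, h]
        simpa using (f' (v i)).2.2
      · refine ((hci i).eventually (gt_mem_nhds (a := f (P s i)) ?_)).mono fun v hv =>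
          (hf.lt_iff_lt.mp hv).le
        rw [hP]; nlinarith
    filter_upwards [this] with v hv
    exact (hf.monotone (hmono hv)).trans_lt hs'

end Pool.Agent.S03785
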