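import Pool.Statements.S03823
import Pool.Agent.H18.Bonami2
-- import your own Pool.Agent.* helpers here

set_option autoImplicit false
open MeasureTheory
open Pool Pool.MP_0eb56c_an

namespace Pool.Agent.S03823

/-- For every p with 2<p<∞ and every finite measure μ, there is a real Hilbert space H and a bounded linear operator from H into L^p(μ) whose range is dense. -/
theorem result :
    ∀ (p : ENNReal) [Fact (1 ≤ p)], 2 < p → p ≠ ⊤ →
      ∀ (α : Type) [MeasurableSpace α] (μ : Measure α) [IsFiniteMeasure μ],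
        ∃ (H : Type) (_ : NormedAddCommGroup H) (_ : InnerProductSpace ℝ H)
          (_ : CompleteSpace H) (T : H →L[ℝ] Lp ℝ p μ), DenseRange (⇑T) := by
  intro p _ hp2 hp α m0 μ _
  classical
  obtain ⟨ι, A, hA, hsurj⟩ : ∃ (ι : Type) (A : ι → Set α), (∀ β, MeasurableSet (A β)) ∧
      ∀ s, MeasurableSet s → ∃ β, A β = s :=
    ⟨{s : Set α // MeasurableSet s}, Subtype.val, fun β => β.2, fun s hs => ⟨⟨s, hs⟩, rfl⟩⟩
  obtain ⟨_, _⟩ := exists_wellFoundedLT (α := ι)
  let S : ι → Set (Set α) := fun β =>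
    {s | ∃ F : Finset ι, (∀ γ ∈ F, γ < β) ∧ s = ⋂ γ ∈ F, A γ}
  have hpi : ∀ β, IsPiSystem (S β) := by
    rintro β _ ⟨F, hF, rfl⟩ _ ⟨G, hG, rfl⟩ _
    refine ⟨F ∪ G, fun γ hγ => (Finset.mem_union.1 hγ).elim (hF γ) (hG γ), ?_⟩
    rw [Finset.set_biInter_inter]
  obtain ⟨m, hmS⟩ : ∃ m : ι → MeasurableSpace α,
      ∀ β, m β = MeasurableSpace.generateFrom (S β) := ⟨_, fun _ => rfl⟩
  have hm : ∀ β, m β ≤ m0 := by
    intro β
    rw [hmS]
    refine MeasurableSpace.generateFrom_le ?_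
    rintro _ ⟨F, -, rfl⟩
    exact F.measurableSet_biInter fun γ _ => hA γ
  have hmono : ∀ β γ, β < γ → m β ≤ m γ := by
    intro β γ h
    rw [hmS, hmS]
    refine MeasurableSpace.generateFrom_mono ?_
    rintro _ ⟨F, hF, rfl⟩
    exact ⟨F, fun δ hδ => (hF δ hδ).trans h, rfl⟩
  have hS : ∀ β, ∀ s ∈ S β, MeasurableSet[m β] s := fun β s hs =>
    (hmS β) ▸ MeasurableSpace.measurableSet_generateFrom hs
  choose e he he1 he0 using fun β : ι =>
    H18.Bonami.exists_e μ (hm β) (hA β)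
  let d : ι → α → ℝ := fun β x =>
    (A β).indicator (fun _ => (1 : ℝ)) x - e β x
  have hdg : ∀ (β) (M : MeasurableSpace α), m β ≤ M → MeasurableSet[M] (A β) →
      H18.Bonami.BM M (d β) := by
    intro β M h1 h2
    have := (H18.Bonami.BM.ind h2).add ((H18.Bonami.BM.const M (-1)).mul ((he β).mono h1))
    simpa [d, sub_eq_add_neg] using this
  have hd0 : ∀ β, H18.Bonami.BM m0 (d β) := fun β => hdg β m0 (hm β) (hA β)
  have hd : ∀ β γ, β < γ → H18.Bonami.BM (m γ) (d β) := fun β γ h =>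
    hdg β _ (hmono β γ h) (hS γ _ ⟨{β}, by simpa using h, by simp⟩)
  have hd1 : ∀ β x, |d β x| ≤ 1 := by
    intro β x
    have := he1 β x
    by_cases h : x ∈ A β <;> simp only [d, h, Set.indicator_of_mem, Set.indicator_of_notMem,
      not_false_eq_true, abs_le] <;> constructor <;> linarith [this.1, this.2]
  obtain ⟨k, hk⟩ : ∃ k : ℕ, p.toReal ≤ ((2 * k + 4 : ℕ) : ℝ) := by
    obtain ⟨k, hk⟩ := exists_nat_ge p.toReal
    exact ⟨k, hk.trans (by exact_mod_cast (by omega : k ≤ 2 * k + 4))⟩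
  obtain ⟨ρ, hρ, hyp⟩ := H18.Bonami.hyper μ m hm d hd1 hd hd0 he0 k
  have hW : ∀ F : Finset ι,
      H18.Bonami.BM m0 fun x => ρ ^ F.card * ∏ β ∈ F, d β x := fun F =>
    (H18.Bonami.BM.const _ _).mul (H18.Bonami.BM.prod _ fun β _ => hd0 β)
  let w : Finset ι → Lp ℝ p μ := fun F => ((hW F).memLp μ p).toLp _
  have hw : ∀ F, (w F : α → ℝ) =ᵐ[μ] fun x => ρ ^ F.card * ∏ β ∈ F, d β x := fun F =>
    MemLp.coeFn_toLp _
  have hp0 : p ≠ 0 := (zero_lt_two.trans hp2).ne'
  have hpr : 0 < p.toReal := ENNReal.toReal_pos hp0 hp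
  obtain ⟨T, hT⟩ := H18.Bonami.hilbert_gen w ((2 * μ.real Set.univ) ^ p.toReal⁻¹ + 1)
    (by positivity) (by
      intro t a ha
      let B := t.biUnion id
      have hsub : t ⊆ B.powerset := fun F hF =>
        Finset.mem_powerset.2 (Finset.subset_biUnion_of_mem id hF)
      have h1 := hyp B (fun F => if F ∈ t then a F else 0) 1 (by
        rw [← Finset.sum_subset hsub (fun F _ hF => by simp [hF])]
        rwa [Finset.sum_congr rfl (fun F hF => by rw [if_pos hF])])
      have e1 : ∀ x, ∑ F ∈ B.powerset, (if F ∈ t then a F else 0) * (ρ ^ F.card * ∏ β ∈ F, d β x)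
          = ∑ F ∈ t, a F * (ρ ^ F.card * ∏ β ∈ F, d β x) := by
        intro x
        rw [← Finset.sum_subset hsub (fun F _ hF => by simp [hF])]
        exact Finset.sum_congr rfl fun F hF => by rw [if_pos hF]
      simp only [e1, one_pow, mul_one] at h1
      have hf : H18.Bonami.BM m0 fun x => ∑ F ∈ t, a F * (ρ ^ F.card * ∏ β ∈ F, d β x) :=
        H18.Bonami.BM.sum _ fun F _ => (H18.Bonami.BM.const _ _).mul (hW F)
      have e2 : ∀ t : Finset (Finset ι),
          ((∑ F ∈ t, a F • w F : Lp ℝ p μ) : α → ℝ) =ᵐ[μ]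
            fun x => ∑ F ∈ t, a F * (ρ ^ F.card * ∏ β ∈ F, d β x) := by
        intro t
        induction t using Finset.induction_on with
        | empty => simp only [Finset.sum_empty]; exact Lp.coeFn_zero ℝ p μ
        | insert F t hF ih =>
          simp only [Finset.sum_insert hF]
          filter_upwards [Lp.coeFn_add (a F • w F) (∑ F ∈ t, a F • w F), Lp.coeFn_smul (a F) (w F),
            hw F, ih] with x a1 a2 a3 a4
          rw [a1, Pi.add_apply, a2, Pi.smul_apply, a3, a4, smul_eq_mul]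
      set f : α → ℝ := fun x => ∑ F ∈ t, a F * (ρ ^ F.card * ∏ β ∈ F, d β x) with hfd
      rw [Lp.norm_def, eLpNorm_congr_ae (e2 t),
        (hf.memLp μ p).eLpNorm_eq_integral_rpow_norm hp0 hp,
        ENNReal.toReal_ofReal (by positivity)]
      have h2 : ∫ x, ‖f x‖ ^ p.toReal ∂μ ≤ ∫ x, (1 + f x ^ (2 * k + 4)) ∂μ := by
        refine integral_mono_of_nonneg (Filter.Eventually.of_forall fun x => by positivity)
          (((H18.Bonami.BM.const _ 1).add (hf.pow _)).int μ)
          (Filter.Eventually.of_forall fun x => ?_)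
        have e3 : f x ^ (2 * k + 4) = ‖f x‖ ^ ((2 * k + 4 : ℕ) : ℝ) := by
          rw [Real.rpow_natCast, Real.norm_eq_abs, Even.pow_abs ⟨k + 2, by ring⟩]
        beta_reduce
        rw [e3]
        have h3 : 0 ≤ ‖f x‖ ^ ((2 * k + 4 : ℕ) : ℝ) := by positivity
        rcases le_total ‖f x‖ 1 with h | h
        · have := Real.rpow_le_one (norm_nonneg _) h hpr.le
          linarith
        · have := Real.rpow_le_rpow_of_exponent_le h hk
          linarith
      rw [integral_add (integrable_const _) ((hf.pow _).int μ), integral_const, smul_eq_mul,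
        mul_one] at h2
      have h3 : (∫ x, ‖f x‖ ^ p.toReal ∂μ) ^ p.toReal⁻¹ ≤ (2 * μ.real Set.univ) ^ p.toReal⁻¹ :=
        Real.rpow_le_rpow (by positivity) (by linarith) (by positivity)
      linarith)
  refine ⟨_, inferInstance, inferInstance, inferInstance, T, ?_⟩
  let V : Set ι → Submodule ℝ (Lp ℝ p μ) := fun I =>
    (Submodule.span ℝ (w '' {F | ∀ γ ∈ F, γ ∈ I})).topologicalClosure
  have hVc : ∀ I, IsClosed (V I : Set (Lp ℝ p μ)) := fun I =>
    Submodule.isClosed_topologicalClosure _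
  have hVm : ∀ I I', I ⊆ I' → V I ≤ V I' := fun I I' h =>
    Submodule.topologicalClosure_mono (Submodule.span_mono
      (Set.image_mono fun F hF γ hγ => h (hF γ hγ)))
  have hVw : ∀ I (F : Finset _), (∀ γ ∈ F, γ ∈ I) → w F ∈ V I := fun I F hF =>
    Submodule.le_topologicalClosure _ (Submodule.subset_span ⟨F, hF, rfl⟩)
  have hV1 : ∀ I, H18.Bonami.In (V I) fun _ => 1 := fun I =>
    ⟨w ∅, hVw I ∅ (by simp), by simpa using hw ∅⟩
  have hmul : ∀ β I, Set.Iic β ⊆ I → ∀ h, H18.Bonami.In (V (Set.Iio β)) h →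
      H18.Bonami.In (V I) fun x => h x * d β x := by
    intro β I hI
    let D : Lp ℝ ⊤ μ := ((hd0 β).memLp μ ⊤).toLp _
    have hD : (D : α → ℝ) =ᵐ[μ] d β := MemLp.coeFn_toLp _
    let M : Lp ℝ p μ →L[ℝ] Lp ℝ p μ :=
      ((ContinuousLinearMap.mul ℝ ℝ).holderL μ p ⊤ p).flip D
    have hM : ∀ g, (M g : α → ℝ) =ᵐ[μ] fun x => g x * d β x := by
      intro g
      filter_upwards [(ContinuousLinearMap.mul ℝ ℝ).coeFn_holder (r := p) g D, hD] with x a1 a2
      rw [← a2]
      exact a1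
    have hle : V (Set.Iio β) ≤ (V I).comap (M : Lp ℝ p μ →ₗ[ℝ] Lp ℝ p μ) := by
      refine Submodule.topologicalClosure_minimal _ (Submodule.span_le.2 ?_)
        ((hVc I).preimage M.continuous)
      rintro _ ⟨F, hF, rfl⟩
      have hβ : β ∉ F := fun h => lt_irrefl β (hF β h)
      have h1 : H18.Bonami.In (V I) _ := ⟨_, hVw I (insert β F) (fun γ hγ =>
        hI ((Finset.mem_insert.1 hγ).elim (fun h => h.le) fun h => (hF γ h).le)), hw _⟩
      refine (h1.smul ρ⁻¹).mem _ ?_
      filter_upwards [hM (w F), hw F] with x a1 a2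
      rw [Finset.card_insert_of_notMem hβ, Finset.prod_insert hβ]
      refine a1.trans ?_
      rw [a2]
      field_simp
      ring
    rintro h ⟨g, hg, hgh⟩
    refine ⟨M g, hle hg, ?_⟩
    filter_upwards [hM g, hgh] with x a1 a2
    rw [a1, a2]
  have hstep : ∀ β I, Set.Iic β ⊆ I →
      (∀ g : Lp ℝ p μ, AEStronglyMeasurable[m β] g μ → g ∈ V (Set.Iio β)) →
      ∀ B, MeasurableSet[m β] B → H18.Bonami.In (V I) ((A β ∩ B).indicator fun _ => 1) := by
    intro β I hI ih B hB
    have ih' : ∀ h, H18.Bonami.BM (m β) h → H18.Bonami.In (V (Set.Iio β)) h := fun h hh =>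
      ⟨((hh.mono (hm β)).memLp μ p).toLp h, ih _ (hh.1.stronglyMeasurable.aestronglyMeasurable.congr
        (MemLp.coeFn_toLp _).symm), MemLp.coeFn_toLp _⟩
    have h1 := hmul β I hI _ (ih' _ (H18.Bonami.BM.ind hB))
    obtain ⟨g, hg, hg'⟩ := ih' _ ((H18.Bonami.BM.ind hB).mul (he β))
    have h2 := h1.add ⟨g, hVm _ _ (Set.Iio_subset_Iic_self.trans hI) hg, hg'⟩
    refine (congrArg (H18.Bonami.In (V I)) ?_).mp h2
    funext x
    by_cases a1 : x ∈ B <;> by_cases a2 : x ∈ A β <;> simp [d, a1, a2]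
  have main : ∀ β, ∀ g : Lp ℝ p μ, AEStronglyMeasurable[m β] g μ → g ∈ V (Set.Iio β) := by
    intro β
    induction β using WellFoundedLT.induction with
    | ind β ih =>
      refine H18.Bonami.in_of_basic hp _ (hVc _) (hm β) (S β) (hmS β) (hpi β) (hV1 _) ?_
      rintro _ ⟨F, hF, rfl⟩
      induction F using Finset.induction_on_max with
      | empty => simpa using hV1 _
      | insert γ F hγ _ =>
        have hγβ : γ < β := hF γ (by simp)
        rw [Finset.set_biInter_insert]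
        exact hstep γ _ (fun δ hδ => lt_of_le_of_lt hδ hγβ) (ih γ hγβ) _ (hS γ _ ⟨F, hγ, rfl⟩)
  have hall : ∀ g, g ∈ V Set.univ := fun g =>
    H18.Bonami.in_of_basic hp _ (hVc _) le_rfl {s | MeasurableSet s}
      (MeasurableSpace.generateFrom_measurableSet).symm MeasurableSpace.isPiSystem_measurableSet
      (hV1 _) (fun s hs => by
        obtain ⟨β, rfl⟩ := hsurj s hs
        simpa using hstep β Set.univ (Set.subset_univ _) (main _) Set.univ
          MeasurableSet.univ) g (Lp.aestronglyMeasurable g)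
  intro g
  have : V Set.univ ≤ (LinearMap.range (T : _ →ₗ[ℝ] Lp ℝ p μ)).topologicalClosure :=
    Submodule.topologicalClosure_mono (Submodule.span_le.2 (by
      rintro _ ⟨F, -, rfl⟩
      exact hT F))
  exact this (hall g)

end Pool.Agent.S03823
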