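import Pool.Statements.S03845
import Pool.Agent.H19.LAtom
-- import your own Pool.Agent.* helpers here

set_option autoImplicit false
open Filter Topology
open Pool Pool.MP_10e324_an

namespace Pool.Agent.S03845

theorem result :
    ∀ α : ℂ → ℂ, AnalyticOnNhd ℂ α (Metric.ball (0:ℂ) 1) →
      (∃ a ∈ Metric.ball (0:ℂ) 1, ∃ b ∈ Metric.ball (0:ℂ) 1, α a ≠ α b) →
      ((∀ f : ℂ → ℂ, AnalyticOnNhd ℂ f (Metric.ball (0:ℂ) 1) →
          (∀ z : ℕ → ℂ, (∀ n, z n ∈ Metric.ball (0:ℂ) 1) →
            Tendsto (fun n => ‖z n‖) atTop (𝓝 1) →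
            (∀ K : Set ℂ, K ⊆ f '' Metric.ball (0:ℂ) 1 → IsCompact K →
              {n : ℕ | f (z n) ∈ K}.Finite) →
            (∀ K : Set ℂ, K ⊆ α '' Metric.ball (0:ℂ) 1 → IsCompact K →
              {n : ℕ | α (z n) ∈ K}.Finite)) →
          ∃ φ : ℂ → ℂ, AnalyticOnNhd ℂ φ (α '' Metric.ball (0:ℂ) 1) ∧
            ∀ w ∈ Metric.ball (0:ℂ) 1, f w = φ (α w))
        ↔ Set.InjOn α (Metric.ball (0:ℂ) 1)) := by
  intro α hα hnc
  set D := Metric.ball (0:ℂ) 1 with hD
  have hDo : IsOpen D := Metric.isOpen_ball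
  have hDc : IsPreconnected D := (convex_ball (0:ℂ) 1).isPreconnected
  constructor
  · intro hat
    by_contra hni
    simp only [Set.InjOn, not_forall] at hni
    obtain ⟨a, ha, b, hb, hab, hne⟩ := hni
    have hGo : IsOpen (α '' D) := by
      rcases hα.is_constant_or_isOpen hDc with ⟨c, hc⟩ | h
      · obtain ⟨x, hx, y, hy, hxy⟩ := hnc
        exact absurd ((hc x hx).trans (hc y hy).symm) hxy
      · exact h D subset_rfl hDo
    obtain ⟨μ, hμ, hμu⟩ : ∃ μ : ℂ → ℂ, AnalyticOnNhd ℂ μ (α '' D) ∧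
        ∀ R : ℝ, ∃ z ∈ D, R ≤ ‖μ (α z)‖ := by
      by_cases hG : α '' D = Set.univ
      · refine ⟨id, analyticOnNhd_id, fun R => ?_⟩
        obtain ⟨z, hz, hzR⟩ : (R : ℂ) ∈ α '' D := by rw [hG]; trivial
        exact ⟨z, hz, by rw [id, hzR, Complex.norm_real]; exact le_abs_self R⟩
      · have hncl : ¬ IsClosed (α '' D) := by
          intro hcl
          rcases isClopen_iff.1 ⟨hcl, hGo⟩ with h | h
          · exact (h ▸ (Set.mem_image_of_mem α ha) : α a ∈ (∅ : Set ℂ))
          · exact hG h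
        rw [← closure_subset_iff_isClosed, Set.not_subset] at hncl
        obtain ⟨c, hc, hcG⟩ := hncl
        refine ⟨fun w => (w - c)⁻¹, fun w hw => ?_, fun R => ?_⟩
        · refine (analyticAt_id.sub analyticAt_const).inv ?_
          intro h
          have h' : w = c := sub_eq_zero.1 h
          exact hcG (h' ▸ hw)
        · obtain ⟨_, ⟨z, hz, rfl⟩, hd⟩ := Metric.mem_closure_iff.1 hc (1 / (|R| + 1)) (by positivity)
          refine ⟨z, hz, ?_⟩
          have h0 : 0 < ‖α z - c‖ := by
            rw [norm_pos_iff]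
            intro h
            exact hcG (by rw [← sub_eq_zero.1 h]; exact ⟨z, hz, rfl⟩)
          rw [dist_comm, dist_eq_norm, lt_div_iff₀ (by positivity)] at hd
          rw [norm_inv, ← one_div, le_div_iff₀ h0]
          nlinarith [le_abs_self R]
    set g : ℂ → ℂ := fun z => μ (α z) + z with hg
    have hga : AnalyticOnNhd ℂ g D := fun z hz =>
      ((hμ _ ⟨z, hz, rfl⟩).comp (hα z hz)).add analyticAt_id
    have hgab : g a ≠ g b := by
      intro h
      simp only [hg, hab] at h
      exact hne (add_left_cancel h)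
    have hUo : IsOpen (g '' D) := by
      rcases hga.is_constant_or_isOpen hDc with ⟨c, hc⟩ | h
      · exact absurd ((hc a ha).trans (hc b hb).symm) hgab
      · exact h D subset_rfl hDo
    obtain ⟨E, hE, hEs, hEab⟩ := Pool.Agent.H19.LAtom.entire_onto (g '' D) hUo (by
      intro R
      obtain ⟨z, hz, hR⟩ := hμu (R + 1)
      refine ⟨g z, ⟨z, hz, rfl⟩, ?_⟩
      have h1 : ‖z‖ < 1 := mem_ball_zero_iff.1 hz
      have h2 := norm_sub_le (g z) z
      have e : g z - z = μ (α z) := by simp [hg]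
      rw [e] at h2
      linarith) (g a) (g b) hgab
    obtain ⟨φ, -, hφ⟩ := hat (fun z => E (g z))
      (fun z hz => (hE.analyticAt (g z)).comp (hga z hz)) (by
        intro z hz _ hf K hK hKc
        obtain ⟨M, hM⟩ := hKc.exists_bound_of_continuousOn (hμ.continuousOn.mono hK)
        refine (hf (E '' Metric.closedBall 0 (M + 1)) ?_
          ((isCompact_closedBall _ _).image hE.continuous)).subset ?_
        · intro w _
          obtain ⟨_, ⟨y, hy, rfl⟩, hw⟩ := hEs w
          exact ⟨y, hy, hw⟩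
        · intro n hn
          refine ⟨g (z n), ?_, rfl⟩
          rw [mem_closedBall_zero_iff]
          have h1 : ‖z n‖ < 1 := mem_ball_zero_iff.1 (hz n)
          have h2 := hM _ hn
          exact (norm_add_le _ _).trans (by linarith))
    exact hEab ((hφ a ha).trans (by rw [hab]; exact (hφ b hb).symm))
  · intro hinj f hf _
    have hi := Pool.Agent.H19.LAtom.inv_analytic α D hDo hα hinj
    refine ⟨fun w => f (Function.invFunOn α D w), ?_, fun w hw => ?_⟩
    · rintro _ ⟨z, hz, rfl⟩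
      refine AnalyticAt.comp (g := f) ?_ (hi _ ⟨z, hz, rfl⟩)
      rw [hinj.leftInvOn_invFunOn hz]; exact hf z hz
    · simp only []
      rw [hinj.leftInvOn_invFunOn hw]

end Pool.Agent.S03845
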