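import Pool.Statements.S03896

set_option autoImplicit false
open Polynomial
open Pool Pool.MP_15266c_an

namespace Pool.Agent.S03896

noncomputable def Q0 : ℂ[X] := C (1 / 100) * X ^ 2 + 1
noncomputable def B0 : ℂ[X] := X ^ 2 - C 8 * X + C 41
noncomputable def P0 : ℂ[X] := X * Q0 * B0 ^ 4

noncomputable def r (x : ℝ) : ℝ :=
  (x ^ 2 / 100 + 1) * (x ^ 2 - 8 * x + 41) + x * (x / 50) * (x ^ 2 - 8 * x + 41) +
    4 * x * (x ^ 2 / 100 + 1) * (2 * x - 8)

theorem Q0_deg : Q0.natDegree = 2 := by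
  unfold Q0
  compute_degree!

theorem B0_deg : B0.natDegree = 2 := by
  unfold B0
  compute_degree!

theorem Q0_ne : Q0 ≠ 0 := by
  intro h
  have := Q0_deg
  rw [h] at this
  simp at this

theorem B0_ne : B0 ≠ 0 := by
  intro h
  have := B0_deg
  rw [h] at this
  simp at this

theorem P0_deg : P0.natDegree = 11 := by
  unfold P0
  rw [natDegree_mul (mul_ne_zero X_ne_zero Q0_ne) (pow_ne_zero _ B0_ne),
    natDegree_mul X_ne_zero Q0_ne, natDegree_pow, Q0_deg, B0_deg, natDegree_X]

theorem deriv_eval (x : ℝ) :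
    (derivative P0).eval (x : ℂ) = ((x : ℂ) ^ 2 - 8 * x + 41) ^ 3 * (r x : ℂ) := by
  unfold P0 Q0 B0 r
  simp [derivative_mul, derivative_pow]
  ring

theorem r_cont : Continuous r := by
  unfold r
  fun_prop

theorem root1 : ∃ x : ℝ, 1 ≤ x ∧ x < 2 ∧ r x = 0 := by
  have h : (0 : ℝ) ∈ Set.Icc (r 2) (r 1) := by
    unfold r
    constructor <;> norm_num
  obtain ⟨x, hx, hx0⟩ := intermediate_value_Icc' (by norm_num : (1 : ℝ) ≤ 2) r_cont.continuousOn h
  refine ⟨x, hx.1, lt_of_le_of_ne hx.2 ?_, hx0⟩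
  rintro rfl
  unfold r at hx0
  norm_num at hx0

theorem root2 : ∃ x : ℝ, 2 ≤ x ∧ r x = 0 := by
  have h : (0 : ℝ) ∈ Set.Icc (r 2) (r 4) := by
    unfold r
    constructor <;> norm_num
  obtain ⟨x, hx, hx0⟩ := intermediate_value_Icc (by norm_num : (2 : ℝ) ≤ 4) r_cont.continuousOn h
  exact ⟨x, hx.1, hx0⟩

theorem outside (x : ℝ) (hx : 1 ≤ x) : ¬ ‖Q0.eval (x : ℂ)‖ ≤ 1 := by
  have : Q0.eval (x : ℂ) = ((x ^ 2 / 100 + 1 : ℝ) : ℂ) := by
    unfold Q0
    simp
    ring
  rw [this, Complex.norm_real, Real.norm_eq_abs, abs_of_pos (by positivity)]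
  nlinarith

theorem result :
    ¬ (∀ (P Q : Polynomial ℂ), 1 ≤ Q.natDegree → Q.natDegree < P.natDegree → Q ∣ P →
      (∀ z ∈ P.roots, ‖Q.eval z‖ ≤ 1) →
      P.natDegree - Q.natDegree ≤
        (Multiset.filter (fun z => ‖Q.eval z‖ ≤ 1) (Polynomial.derivative P).roots).card) := by
  intro h
  have hroots : ∀ z ∈ P0.roots, ‖Q0.eval z‖ ≤ 1 := by
    intro z hz
    have hz' := (mem_roots'.1 hz).2
    unfold P0 at hz'
    simp only [IsRoot.def, eval_mul, eval_X, eval_pow, mul_eq_zero, pow_eq_zero_iff,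
      ne_eq, OfNat.ofNat_ne_zero, not_false_eq_true] at hz'
    rcases hz' with (rfl | hq) | hb
    · simp [Q0]
    · rw [hq]; simp
    · have hb' : (z - (4 + 5 * Complex.I)) * (z - (4 - 5 * Complex.I)) = 0 := by
        unfold B0 at hb
        simp at hb
        have := Complex.I_mul_I
        linear_combination hb - 25 * this
      have hn : ∀ a b : ℝ, a ^ 2 + b ^ 2 ≤ 1 → ‖(a : ℂ) + b * Complex.I‖ ≤ 1 := by
        intro a b hab
        rw [Complex.norm_add_mul_I]
        exact Real.sqrt_le_one.2 hab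
      rcases mul_eq_zero.1 hb' with h1 | h1
      · have hz : z = 4 + 5 * Complex.I := by linear_combination h1
        have : Q0.eval z = ((91 / 100 : ℝ) : ℂ) + ((2 / 5 : ℝ) : ℂ) * Complex.I := by
          rw [hz]
          unfold Q0
          simp
          have := Complex.I_mul_I
          linear_combination (1 / 4 : ℂ) * this
        rw [this]
        exact hn _ _ (by norm_num)
      · have hz : z = 4 - 5 * Complex.I := by linear_combination h1
        have : Q0.eval z = ((91 / 100 : ℝ) : ℂ) + ((-2 / 5 : ℝ) : ℂ) * Complex.I := by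
          rw [hz]
          unfold Q0
          simp
          have := Complex.I_mul_I
          linear_combination (1 / 4 : ℂ) * this
        rw [this]
        exact hn _ _ (by norm_num)
  have h1 := h P0 Q0 (by rw [Q0_deg]; norm_num) (by rw [Q0_deg, P0_deg]; norm_num)
    ⟨X * B0 ^ 4, by unfold P0; ring⟩ hroots
  rw [Q0_deg, P0_deg] at h1
  have hd : (derivative P0).natDegree = 10 := by
    rw [natDegree_derivative, P0_deg]
  have hne : derivative P0 ≠ 0 := by
    intro h0
    rw [h0] at hd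
    simp at hd
  have hcard : (derivative P0).roots.card ≤ 10 := hd ▸ card_roots' _
  obtain ⟨x, hx1, hx2, hx⟩ := root1
  obtain ⟨y, hy1, hy⟩ := root2
  have hxy : (x : ℂ) ≠ y := by
    intro h
    have := Complex.ofReal_injective h
    linarith
  have hsub : ({(x : ℂ), (y : ℂ)} : Multiset ℂ) ≤
      Multiset.filter (fun z => ¬ ‖Q0.eval z‖ ≤ 1) (derivative P0).roots := by
    rw [Multiset.le_iff_subset (by simp [hxy])]
    intro z hz
    simp only [Multiset.insert_eq_cons, Multiset.mem_cons, Multiset.mem_singleton] at hz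
    rw [Multiset.mem_filter, mem_roots hne, IsRoot.def]
    rcases hz with rfl | rfl
    · exact ⟨by rw [deriv_eval, hx]; simp, outside x hx1⟩
    · exact ⟨by rw [deriv_eval, hy]; simp, outside y (by linarith)⟩
  have h2 := Multiset.card_le_card hsub
  have h3 := congrArg Multiset.card
    (Multiset.filter_add_not (fun z => ‖Q0.eval z‖ ≤ 1) (derivative P0).roots)
  rw [Multiset.card_add] at h3
  simp only [Multiset.insert_eq_cons, Multiset.card_cons, Multiset.card_singleton] at h2
  omega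

end Pool.Agent.S03896
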