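import Pool.Statements.S03935

set_option autoImplicit false
open Pool Pool.MP_17a4eb_an

namespace Pool.Agent.S03935

open Polynomial Topology Filter

section abstract
variable {B : Type*} [NormedRing B] [NormedAlgebra ℂ B] [CompleteSpace B]

/-- A central element acts as a scalar on the quotient by a maximal left ideal. -/
lemma exists_scalar (L : Ideal B) (hL : L.IsMaximal) (z : B) (hz : ∀ b, Commute z b) :
    ∃ c : ℂ, algebraMap ℂ B c - z ∈ L := by
  by_contra hcon
  push Not at hcon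
  let L' : Submodule ℂ B := L.restrictScalars ℂ
  have hcl : IsClosed (L' : Set B) := Ideal.IsMaximal.isClosed (hI := hL)
  have hmem : ∀ x, x ∈ L' ↔ x ∈ L := fun x => Iff.rfl
  let T : (B ⧸ L') →L[ℂ] (B ⧸ L') :=
    L'.liftQL (L'.mkQL.comp (ContinuousLinearMap.mul ℂ B z)) (by
      intro x hx
      simp only [LinearMap.mem_ker]
      exact (Submodule.Quotient.mk_eq_zero L').2 (L.mul_mem_left z hx))
  have hT : ∀ x : B, T (Submodule.Quotient.mk x) = Submodule.Quotient.mk (z * x) := fun x => rfl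
  have h1 : (Submodule.Quotient.mk (1 : B) : B ⧸ L') ≠ 0 := by
    intro h
    exact hL.ne_top ((Ideal.eq_top_iff_one L).2 ((Submodule.Quotient.mk_eq_zero L').1 h))
  have : Nontrivial (B ⧸ L') := ⟨⟨_, _, h1⟩⟩
  obtain ⟨c, hc⟩ := spectrum.nonempty T
  apply hc
  rw [resolventSet, Set.mem_setOf_eq, ContinuousLinearMap.isUnit_iff_bijective]
  set w := algebraMap ℂ B c - z with hw
  have hwc : ∀ b, Commute w b := fun b => Commute.sub_left (Algebra.commutes c b) (hz b)
  have hS : ∀ x : B, (algebraMap ℂ ((B ⧸ L') →L[ℂ] (B ⧸ L')) c - T) (Submodule.Quotient.mk x) =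
      Submodule.Quotient.mk (w * x) := by
    intro x
    rw [ContinuousLinearMap.sub_apply, hT, hw, sub_mul, Submodule.Quotient.mk_sub,
      ← Algebra.smul_def, Submodule.Quotient.mk_smul]
    rfl
  obtain ⟨v, l, hl, hv⟩ := hL.exists_inv (hcon c)
  rw [← hw] at hv
  constructor
  · rw [injective_iff_map_eq_zero]
    intro x hx
    obtain ⟨x, rfl⟩ := Submodule.Quotient.mk_surjective L' x
    rw [hS, Submodule.Quotient.mk_eq_zero] at hx
    rw [Submodule.Quotient.mk_eq_zero]
    by_contra hxL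
    obtain ⟨v', l', hl', hv'⟩ := hL.exists_inv hxL
    apply hcon c
    rw [← hw]
    have : w = v' * (w * x) + w * l' := by
      calc w = w * (v' * x + l') := by rw [hv', mul_one]
        _ = v' * (w * x) + w * l' := by
          rw [mul_add, ← mul_assoc, (hwc v').eq, mul_assoc]
    rw [this]
    exact L.add_mem (L.mul_mem_left _ hx) (L.mul_mem_left _ hl')
  · intro x
    obtain ⟨x, rfl⟩ := Submodule.Quotient.mk_surjective L' x
    refine ⟨Submodule.Quotient.mk (x * v), ?_⟩
    rw [hS, Submodule.Quotient.eq]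
    have : w * (x * v) - x = -(x * l) := by
      have h2 : w * (x * v) = x * (v * w) := by rw [(hwc _).eq, mul_assoc]
      rw [h2]
      calc x * (v * w) - x = x * (v * w) - x * (v * w + l) := by rw [hv, mul_one]
        _ = -(x * l) := by rw [mul_add]; abel
    rw [this]
    exact L'.neg_mem (L.mul_mem_left _ hl)

/-- Local principle for left invertibility. -/
lemma allan (α z : B) (hz : ∀ b, Commute z b) (M t : ℝ) (ht : 0 ≤ t)
    (hn : ∀ n : ℕ, ‖z ^ n‖ ≤ M * t ^ n)
    (h : ∀ c : ℂ, ‖c‖ ≤ t → ∃ b : B, b * (α - algebraMap ℂ B c) = 1) :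
    ∃ g : B, g * (α - z) = 1 := by
  by_contra hcon
  have hne : Ideal.span {α - z} ≠ ⊤ := by
    intro ht
    have := (Ideal.eq_top_iff_one _).1 ht
    rw [Ideal.mem_span_singleton'] at this
    exact hcon this
  obtain ⟨L, hL, hle⟩ := Ideal.exists_le_maximal _ hne
  obtain ⟨c, hc⟩ := exists_scalar L hL z hz
  have hx : α - z ∈ L := hle (Ideal.mem_span_singleton_self _)
  by_cases hcz : ‖c‖ ≤ t
  · obtain ⟨b, hb⟩ := h c hcz
    apply hL.ne_top
    rw [Ideal.eq_top_iff_one, ← hb]
    apply L.mul_mem_left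
    have : α - algebraMap ℂ B c = (α - z) - (algebraMap ℂ B c - z) := by abel
    rw [this]
    exact L.sub_mem hx hc
  · push Not at hcz
    have hc0 : c ≠ 0 := by
      rintro rfl
      simp only [norm_zero] at hcz
      exact absurd hcz (not_lt.2 ht)
    have hcpos : 0 < ‖c‖ := norm_pos_iff.2 hc0
    have hlim : Tendsto (fun n : ℕ => M * (t / ‖c‖) ^ n) atTop (𝓝 (M * 0)) :=
      (tendsto_pow_atTop_nhds_zero_of_lt_one (by positivity)
        ((div_lt_one hcpos).2 hcz)).const_mul M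
    obtain ⟨n, hn'⟩ := (hlim.eventually_lt_const (by simp : M * 0 < 1)).exists
    have hlt : ‖(c⁻¹ • z) ^ n‖ < 1 := by
      refine lt_of_le_of_lt ?_ hn'
      rw [_root_.smul_pow, norm_smul, norm_pow, norm_inv, div_pow, inv_pow, ← mul_div_assoc,
        inv_mul_eq_div]
      gcongr
      exact hn n
    apply hL.ne_top
    apply Ideal.eq_top_of_isUnit_mem L (x := 1 - (c⁻¹ • z) ^ n) _
      (isUnit_one_sub_of_norm_lt_one hlt)
    have h2 : 1 - c⁻¹ • z = algebraMap ℂ B c⁻¹ * (algebraMap ℂ B c - z) := by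
      rw [mul_sub, ← map_mul, inv_mul_cancel₀ hc0, map_one, Algebra.smul_def]
    rw [← geom_sum_mul_neg, h2]
    exact L.mul_mem_left _ (L.mul_mem_left _ hc)

/-- Along a path of left invertible elements the class modulo invertibles is constant. -/
lemma path_unit (α z : B) (hz : ∀ b, Commute z b) (M t : ℝ) (ht : 0 ≤ t)
    (hn : ∀ n : ℕ, ‖z ^ n‖ ≤ M * t ^ n)
    (h : ∀ c : ℂ, ‖c‖ ≤ t → ∃ b : B, b * (α - algebraMap ℂ B c) = 1) :
    ∃ u : Bˣ, α - z = u * α := by
  let x : ℝ → B := fun s => α - (s : ℂ) • z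
  have hx : Continuous x := by fun_prop
  have key := (isPreconnected_Icc (a := (0 : ℝ)) (b := 1)).induction₂
    (fun s t => ∃ u : Bˣ, x t = u * x s) ?_ ?_ ?_ (x := 0) (y := 1) (by simp) (by simp)
  · simpa [x] using key
  · intro s hs
    obtain ⟨g, hg⟩ := allan α ((s : ℂ) • z) (fun b => (hz b).smul_left _) M t ht (fun n => by
      refine le_trans ?_ (hn n)
      rw [_root_.smul_pow, norm_smul, norm_pow, Complex.norm_real, Real.norm_eq_abs,
        abs_of_nonneg hs.1]
      exact mul_le_of_le_one_left (norm_nonneg _) (pow_le_one₀ hs.1 hs.2)) h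
    have hcont : Continuous fun t => ‖(x s - x t) * g‖ := by fun_prop
    have hev : ∀ᶠ t in 𝓝 s, ‖(x s - x t) * g‖ < 1 :=
      hcont.continuousAt.eventually_lt continuousAt_const (by simp)
    filter_upwards [nhdsWithin_le_nhds hev] with t ht
    refine ⟨Units.oneSub _ ht, ?_⟩
    have hg' : g * x s = 1 := hg
    rw [Units.val_oneSub, sub_mul, mul_assoc, hg']
    simp
  · rintro r s t - - - ⟨u, hu⟩ ⟨v, hv⟩
    exact ⟨v * u, by rw [hv, hu, Units.val_mul, mul_assoc]⟩
  · rintro s t - - ⟨u, hu⟩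
    exact ⟨u⁻¹, by rw [hu, Units.inv_mul_cancel_left]⟩

end abstract

lemma poly_div {A : Type*} [Ring A] (a : A) (q : A[X]) :
    ∃ (y : A) (r : A[X]), q = C y + (C a - X) * r := by
  induction q using Polynomial.induction_on with
  | C c => exact ⟨c, 0, by simp⟩
  | add p q hp hq =>
    obtain ⟨y, r, rfl⟩ := hp
    obtain ⟨y', r', rfl⟩ := hq
    exact ⟨y + y', r + r', by rw [map_add, mul_add]; abel⟩
  | monomial n c h =>
    obtain ⟨y, r, h⟩ := h
    refine ⟨a * y, r * X - C y, ?_⟩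
    rw [pow_succ, ← mul_assoc, h, map_mul, add_mul, mul_sub, sub_mul (C a) X (C y), mul_assoc,
      (commute_X (C y)).eq]
    abel

lemma abs_main {A B : Type*} [Ring A] [NormedRing B] [NormedAlgebra ℂ B] [CompleteSpace B]
    (φ : A[X] →+* B) (hd : DenseRange φ) (a b0 : A) (hb : b0 * a = 1) (M t : ℝ) (ht : 0 ≤ t)
    (hn : ∀ n : ℕ, ‖φ X ^ n‖ ≤ M * t ^ n)
    (h : ∀ c : ℂ, ‖c‖ ≤ t → ∃ b : B, b * (φ (C a) - algebraMap ℂ B c) = 1) :
    ∃ y : A, y * a = 0 ∧ IsUnit (φ ((C a - X) * C b0 + C y)) := by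
  have hz : ∀ b, Commute (φ X) b := by
    intro b
    refine hd.induction_on b ?_ ?_
    · exact isClosed_eq (by fun_prop) (by fun_prop)
    · intro q
      exact (commute_X q).map φ
  obtain ⟨u, hu⟩ := path_unit (φ (C a)) (φ X) hz M t ht hn h
  set α := φ (C a) with hα
  set β := φ (C b0) with hβ
  have hβα : β * α = 1 := by rw [hα, hβ, ← map_mul, ← map_mul, hb, map_one, map_one]
  set e := 1 - α * β with he
  have heα : e * α = 0 := by rw [he, sub_mul, mul_assoc, hβα]; simp
  have hee : e * e = e := by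
    conv_lhs => rw [he]
    rw [← he, he, mul_sub, ← mul_assoc, ← he, heα]; simp
  have hcont : Continuous fun p : B => ‖-(e * ((u⁻¹ : Bˣ) * p - 1) * e)‖ := by fun_prop
  have hopen : IsOpen {p : B | ‖-(e * ((u⁻¹ : Bˣ) * p - 1) * e)‖ < 1} :=
    isOpen_lt hcont continuous_const
  obtain ⟨q, hq⟩ := hd.exists_mem_open hopen ⟨u, by simp⟩
  obtain ⟨y, r, hyr⟩ := poly_div a q
  refine ⟨y * (1 - a * b0), by rw [mul_assoc, sub_mul, mul_assoc, hb]; simp, ?_⟩
  set η := φ (C y) with hη
  have hW : φ ((C a - X) * C b0 + C (y * (1 - a * b0))) = u * (α * β) + η * e := by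
    simp only [map_add, map_mul, map_sub, map_one]
    rw [← hα, ← hβ, ← hη, hu, mul_assoc]
  have hφq : φ q = η + u * α * φ r := by
    rw [hyr]; simp only [map_add, map_mul, map_sub]
    rw [← hα, ← hη, hu]
  set ε := e * ((u⁻¹ : Bˣ) * φ q - 1) * e with hε
  have hε1 : IsUnit (1 + ε) := by
    have := isUnit_one_sub_of_norm_lt_one (x := -ε) hq
    rwa [sub_neg_eq_add] at this
  set m := (u⁻¹ : Bˣ) * η with hm
  have hε2 : ε = e * m * e - e := by
    rw [hε, hφq, mul_add, ← hm, mul_assoc (u : B), Units.inv_mul_cancel_left]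
    rw [mul_sub e, mul_add e, ← mul_assoc e α, heα, sub_mul, mul_one, hee, zero_mul, add_zero]
  clear hn
  set n := (1 - e) * m * e with hn
  have hen : e * n = 0 := by
    rw [hn, ← mul_assoc, ← mul_assoc, mul_sub e, hee]; simp
  have hnn : n * n = 0 := by
    conv_lhs => rw [hn]
    rw [← hn, hn, mul_assoc _ e, ← hn, hen]; simp
  have hn1 : IsUnit (1 + n) := by
    have : IsNilpotent n := ⟨2, by rw [pow_two, hnn]⟩
    exact this.isUnit_one_add
  have hεn : ε * n = 0 := by rw [hε, mul_assoc _ e, hen]; simp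
  have hfin : u * (α * β) + η * e = u * ((1 + ε) * (1 + n)) := by
    have h1 : (1 + ε) * (1 + n) = α * β + m * e := by
      rw [add_mul, mul_add, mul_add, hεn, hε2, hn]
      have : α * β = 1 - e := by rw [he]; abel
      rw [this]
      noncomm_ring
    rw [h1, mul_add, hm, mul_assoc (↑u⁻¹ : B), Units.mul_inv_cancel_left]
  rw [hW, hfin]
  exact u.isUnit.mul (hε1.mul hn1)

lemma exists_y {A : Type} [NormedRing A] [NormedAlgebra ℂ A] [CompleteSpace A] (a b0 : A)
    (hb : b0 * a = 1) (t : ℝ) (ht0 : 0 ≤ t)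
    (h : ∀ z : ℂ, ‖z‖ ≤ t → ∃ b : A, b * (a - algebraMap ℂ A z) = 1) :
    ∃ y : A, y * a = 0 ∧ ∀ z : ℂ, ‖z‖ ≤ t → IsUnit ((a - algebraMap ℂ A z) * b0 + y) := by
  let D := Metric.closedBall (0 : ℂ) t
  let M : ℝ := ‖(1 : A)‖
  let ι : A →ₐ[ℂ] C(D, A) :=
    { toFun := fun x => ContinuousMap.const D x
      map_one' := rfl
      map_mul' := fun _ _ => rfl
      map_zero' := rfl
      map_add' := fun _ _ => rfl
      commutes' := fun _ => by ext; simp [Algebra.algebraMap_eq_smul_one] }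
  let ζ : C(D, A) := ⟨fun z => algebraMap ℂ A (z : ℂ), by fun_prop⟩
  have hcomm : ∀ x, Commute (ι x) ζ := fun x => by
    ext z
    exact (Algebra.commutes (z : ℂ) x).symm
  let ψ : A[X] →ₐ[ℂ] C(D, A) := Polynomial.eval₂AlgHom ι ζ hcomm
  let S : Subalgebra ℂ C(D, A) := ψ.range.topologicalClosure
  have : CompleteSpace S := (ψ.range.isClosed_topologicalClosure).completeSpace_coe
  let φ : A[X] →+* S := (ψ.codRestrict S (fun q => ψ.range.le_topologicalClosure ⟨q, rfl⟩)).toRingHom
  have hφ : ∀ q, (φ q : C(D, A)) = ψ q := fun _ => rfl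
  have hψC : ∀ x, ψ (C x) = ι x := fun x => by simp [ψ]
  have hψX : ψ X = ζ := by simp [ψ]
  have hd : DenseRange φ := by
    rw [DenseRange, Subtype.dense_iff]
    intro f hf
    refine closure_mono ?_ hf
    rintro g ⟨q, rfl⟩
    exact ⟨φ q, ⟨q, rfl⟩, rfl⟩
  obtain ⟨y, hy, hu⟩ := abs_main φ hd a b0 hb M t ht0 (fun n => by
      change ‖((φ X ^ n : S) : C(D, A))‖ ≤ _
      rw [Subalgebra.coe_pow, hφ, hψX, ContinuousMap.norm_le _ (by positivity)]
      intro z
      have hz : ‖(z : ℂ)‖ ≤ t := mem_closedBall_zero_iff.1 z.2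
      change ‖(algebraMap ℂ A (z : ℂ)) ^ n‖ ≤ _
      rw [← map_pow, norm_algebraMap, norm_pow, mul_comm]
      gcongr) (fun c hc => by
      obtain ⟨b, hb⟩ := h c hc
      refine ⟨φ (C b), ?_⟩
      have : algebraMap ℂ S c = φ (C (algebraMap ℂ A c)) := by
        apply Subtype.ext
        rw [hφ, hψC, AlgHom.commutes]; rfl
      rw [this, ← map_sub, ← map_sub, ← map_mul, ← map_mul, hb, map_one, map_one])
  refine ⟨y, hy, fun z hz => ?_⟩
  let ev : S →+* A :=
    { toFun := fun f => (f : C(D, A)) ⟨z, mem_closedBall_zero_iff.2 hz⟩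
      map_one' := rfl
      map_mul' := fun _ _ => rfl
      map_zero' := rfl
      map_add' := fun _ _ => rfl }
  have := hu.map ev
  convert this using 1
  change _ = ψ ((C a - X) * C b0 + C y) ⟨z, mem_closedBall_zero_iff.2 hz⟩
  simp only [map_add, map_mul, map_sub, hψC, hψX]
  rfl

/-- For every complex unital Banach algebra A, every left invertible a with left invertibility radius 1, and every compact K in the open unit disc, some g holomorphic on an open set containing K satisfies g(λ)(a−λ)=1 and the resolvent identity on K. -/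
theorem result :
    ∀ (A : Type) [NormedRing A] [NormedAlgebra ℂ A] [CompleteSpace A] (a : A),
      (∃ b : A, b * a = 1) →
      (∀ z : ℂ, ‖z‖ < 1 → ∃ b : A, b * (a - algebraMap ℂ A z) = 1) →
      (∀ α : ℝ, 1 < α → ∃ z : ℂ, ‖z‖ < α ∧ ∀ b : A, b * (a - algebraMap ℂ A z) ≠ 1) →
      ∀ K : Set ℂ, IsCompact K → K ⊆ Metric.ball (0 : ℂ) 1 →
        ∃ U : Set ℂ, IsOpen U ∧ K ⊆ U ∧
          ∃ g : ℂ → A, DifferentiableOn ℂ g U ∧
            (∀ z ∈ K, g z * (a - algebraMap ℂ A z) = 1) ∧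
            (∀ z ∈ K, ∀ w ∈ K, g z - g w = (z - w) • (g z * g w)) := by
  intro A _ _ _ a ⟨b0, hb⟩ h _ K hK hK1
  obtain ⟨t, ht0, ht1, hKt⟩ : ∃ t : ℝ, 0 ≤ t ∧ t < 1 ∧ ∀ z ∈ K, ‖z‖ ≤ t := by
    rcases K.eq_empty_or_nonempty with rfl | hne
    · exact ⟨0, le_rfl, one_pos, by simp⟩
    · obtain ⟨z, hz, hmax⟩ := hK.exists_isMaxOn hne continuous_norm.continuousOn
      exact ⟨‖z‖, norm_nonneg _, mem_ball_zero_iff.1 (hK1 hz), fun w hw => hmax hw⟩
  obtain ⟨y, hy, hu⟩ := exists_y a b0 hb t ht0 (fun z hz => h z (hz.trans_lt ht1))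
  let W : ℂ → A := fun z => (a - algebraMap ℂ A z) * b0 + y
  have hWd : Differentiable ℂ W := by
    have : W = fun z => a * b0 + y - z • b0 := by
      ext z; simp only [W, Algebra.smul_def, sub_mul]; abel
    rw [this]; fun_prop
  have hWa : ∀ z, W z * a = a - algebraMap ℂ A z := fun z => by
    simp only [W]; rw [add_mul, hy, mul_assoc, hb]; simp
  refine ⟨{z | IsUnit (W z)}, Units.isOpen.preimage hWd.continuous, fun z hz => hu z (hKt z hz),
    fun z => b0 * Ring.inverse (W z), ?_, ?_, ?_⟩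
  · intro z hz
    exact (((differentiableAt_inverse hz).comp z (hWd z)).const_mul b0).differentiableWithinAt
  · intro z hz
    rw [← hWa, mul_assoc, Ring.inverse_mul_cancel_left _ _ (hu z (hKt z hz)), hb]
  · intro z hz w hw
    have h1 : Ring.inverse (W z) * W z = 1 := Ring.inverse_mul_cancel _ (hu z (hKt z hz))
    have h2 : W w * Ring.inverse (W w) = 1 := Ring.mul_inverse_cancel _ (hu w (hKt w hw))
    have h3 : W w - W z = (z - w) • b0 := by
      simp only [W, Algebra.smul_def, sub_mul, map_sub]; abel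
    have h4 : Ring.inverse (W z) - Ring.inverse (W w) =
        Ring.inverse (W z) * (W w - W z) * Ring.inverse (W w) := by
      rw [mul_sub, sub_mul, h1, mul_assoc, h2]; simp
    simp only
    rw [← mul_sub, h4, h3]
    simp only [mul_smul_comm, smul_mul_assoc, mul_assoc]

end Pool.Agent.S03935
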