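import Pool.Statements.S03944
import Pool.Agent.H24.Rec2

set_option autoImplicit false
open Pool Pool.MP_18663b_an

namespace Pool.Agent.S03944

/-- The negation of the preceding statement: For every base r≥2, if a nonzero real x has base-r digits whose limiting block-frequency measures all have zero entropy (deterministic), then the digits of 1/x have the same property. -/
theorem result :
    ¬ (∀ r : ℕ, 2 ≤ r →
    ∀ D : ℝ → Prop,
      (∀ y : ℝ, D y ↔
        ∀ ε : ℝ, 0 < ε → ∃ K : ℕ, ∃ N₀ : ℕ, ∀ N : ℕ, N₀ ≤ N →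
          ∃ k : ℕ, 1 ≤ k ∧ k ≤ K ∧
            (∑ w : Fin k → Fin r,
                Real.negMulLog
                  ((((Finset.range N).filter (fun n : ℕ =>
                      ∀ i : Fin k,
                        ⌊(r : ℝ) ^ (n + i.val + 1) * y⌋ % (r : ℤ) = ((w i : ℕ) : ℤ))).card : ℝ)
                    / (N : ℝ))) / (k : ℝ) < ε) →
      ∀ x : ℝ, x ≠ 0 → D x → D x⁻¹) := by
  open H24.Rec Finset Filter Topology in
  intro H
  have x1 : 1 ≤ x := by linarith [(tail 0).1, X_ge 0]
  have H1 := H 10 (by norm_num) _ (fun y => Iff.rfl) x (by linarith)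
  simp only [Nat.cast_ofNat] at H1
  change (∀ ε : ℝ, 0 < ε → ∃ K N₀ : ℕ, ∀ N : ℕ, N₀ ≤ N → ∃ k : ℕ, 1 ≤ k ∧ k ≤ K ∧
    (∑ w : Fin k → Fin 10, Real.negMulLog ((((range N).filter fun n : ℕ =>
      ∀ i : Fin k, dig x (n + i) = (w i : ℕ)).card : ℝ) / N)) / k < ε) →
    (∀ ε : ℝ, 0 < ε → ∃ K N₀ : ℕ, ∀ N : ℕ, N₀ ≤ N → ∃ k : ℕ, 1 ≤ k ∧ k ≤ K ∧
    (∑ w : Fin k → Fin 10, Real.negMulLog ((((range N).filter fun n : ℕ =>
      ∀ i : Fin k, dig x⁻¹ (n + i) = (w i : ℕ)).card : ℝ) / N)) / k < ε) at H1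
  obtain ⟨K, N0, h⟩ := H1 (fun ε hε => by
    have : Tendsto (fun N : ℕ => ∑ w : Fin 1 → Fin 10, Real.negMulLog ((((range N).filter fun n : ℕ =>
        ∀ i : Fin 1, dig x (n + i) = (w i : ℕ)).card : ℝ) / N)) atTop (𝓝 (∑ _w : Fin 1 → Fin 10, 0)) := by
      refine tendsto_finsetSum _ fun w _ => ?_
      simp only [Fin.forall_fin_one, Fin.val_zero, add_zero]
      by_cases c : w 0 = 0
      · rw [← Real.negMulLog_one, ← sub_zero (1 : ℝ)]
        refine (Real.continuous_negMulLog.tendsto _).comp ((tendsto_const_nhds.sub sparse).congr' ?_)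
        filter_upwards [eventually_gt_atTop 0] with N hN
        have := card_filter_add_card_filter_not (s := range N) fun i => dig x i = 0
        rw [card_range] at this
        have h2 : (0 : ℝ) < N := by exact_mod_cast hN
        rw [c, eq_div_iff h2.ne', sub_mul, div_mul_cancel₀ _ h2.ne', one_mul, sub_eq_iff_eq_add]
        exact_mod_cast this.symm
      · rw [← Real.negMulLog_zero]
        refine (Real.continuous_negMulLog.tendsto _).comp (squeeze_zero (fun _ => by positivity)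
          (fun N => ?_) sparse)
        gcongr with i
        intro a
        rw [a]; omega
    rw [sum_const_zero] at this
    obtain ⟨N0, h⟩ := eventually_atTop.1 (this.eventually (gt_mem_nhds hε))
    exact ⟨1, N0, fun N hN => ⟨1, le_rfl, le_rfl, by simpa using h N hN⟩⟩) (Real.log 2)
      (Real.log_pos one_lt_two)
  have p := n_pos (K + N0)
  have g := n_ge (K + N0)
  obtain ⟨L, h1, h2, h3⟩ := h (2 * n (K + N0) * (10 ^ n (K + N0) + 1)) (by
    nlinarith [Nat.zero_le (n (K + N0) * 10 ^ n (K + N0)), Nat.zero_le ((K + N0) * s (K + N0)),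
      Nat.zero_le ((K + N0) * s (K + N0) * B (K + N0)), Nat.zero_le ((K + N0) * B (K + N0))])
  have c := cnt2 (K + N0) L (by omega)
  have N0 : 0 < 2 * n (K + N0) * (10 ^ n (K + N0) + 1) := by positivity
  generalize 2 * n _ * _ = N at h3 c N0
  have hN : (0 : ℝ) < N := by exact_mod_cast N0
  have hL : (1 : ℝ) ≤ L := by exact_mod_cast h1
  refine absurd h3 (not_lt.2 ?_)
  rw [le_div_iff₀ (by linarith)]
  have t : ∑ w : Fin L → Fin 10, (((range N).filter fun i =>
      ∀ j : Fin L, dig x⁻¹ (i + j) = (w j : ℕ)).card : ℝ) / N = 1 := by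
    rw [← sum_div, ← Nat.cast_sum, tot, div_self hN.ne']
  rw [← one_mul (_ * _), ← t, sum_mul]
  refine sum_le_sum fun w _ => ?_
  have c1 := c fun j => if h : j < L then (w ⟨j, h⟩ : ℕ) else 0
  rw [filter_congr (q := fun i => ∀ j : Fin L, dig x⁻¹ (i + j) = (w j : ℕ)) fun i _ =>
    ⟨fun a j => by simpa using a j j.2, fun a j hj => by simpa [hj] using a ⟨j, hj⟩⟩,
    ← div_le_iff₀ hN] at c1
  have c0 : (0 : ℝ) ≤ (((range N).filter fun i =>
      ∀ j : Fin L, dig x⁻¹ (i + j) = (w j : ℕ)).card : ℝ) / N := by positivity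
  generalize (_ / _ : ℝ) = f at c1 c0
  rcases c0.eq_or_lt with rfl | c0
  · simp
  rw [Real.negMulLog, neg_mul, ← mul_neg]
  gcongr
  rw [← Real.log_inv, mul_comm, ← Real.log_pow]
  refine Real.log_le_log (by positivity) ((le_inv_comm₀ (by positivity) c0).2 (c1.trans ?_))
  rw [div_le_iff₀ (by positivity), le_inv_mul_iff₀ (by positivity), show (10 : ℝ) = 2 * 5 by norm_num,
    mul_pow]
  gcongr
  exact le_trans (by norm_num) (le_self_pow₀ (by norm_num) (by omega))

end Pool.Agent.S03944
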