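import Pool.Statements.S03954
import Pool.Agent.H21.SigmaNb

set_option autoImplicit false
open Pool Pool.MP_196b75_an

namespace Pool.Agent.S03954

open Pool.Agent.H21.Spiral Pool.Agent.H21.SigmaNb

/-- The negation of the preceding statement: Every normalized analytic g on the unit disk with ∣(g'−1)−(g−z)/z∣+∣(g'−1)+(g−z)/z∣<2 throughout the disk has Hadamard product with every normalized univalent h nonvanishing for 0<∣z∣<1. -/
theorem result :
    ¬ (∀ g : ℂ → ℂ, DifferentiableOn ℂ g (Metric.ball (0 : ℂ) 1) → g 0 = 0 → deriv g 0 = 1 →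
      (∀ z : ℂ, z ∈ Metric.ball (0 : ℂ) 1 → z ≠ 0 →
        ‖(deriv g z - 1) - (g z - z) / z‖ + ‖(deriv g z - 1) + (g z - z) / z‖ < 2) →
      ∀ h : ℂ → ℂ, DifferentiableOn ℂ h (Metric.ball (0 : ℂ) 1) → h 0 = 0 → deriv h 0 = 1 →
        Set.InjOn h (Metric.ball (0 : ℂ) 1) →
        ∀ z : ℂ, 0 < ‖z‖ → ‖z‖ < 1 →
          (∑' n : ℕ, (iteratedDeriv n g 0 / (n.factorial : ℂ)) *
              (iteratedDeriv n h 0 / (n.factorial : ℂ)) * z ^ n) ≠ 0) := by
  intro H
  refine H g g_diff.differentiableOn g_zero g_one g_nb (h c)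
    (fun z hz => (h_deriv c hz).differentiableAt.differentiableWithinAt) (by simp [h]) ?_ hc_inj r
    (by rw [r_norm]; norm_num) (by rw [r_norm]; norm_num) had_zero
  rw [(h_deriv c (Metric.mem_ball_self one_pos)).deriv]
  simp [W_zero]

end Pool.Agent.S03954
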