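import Pool.Statements.S03956
import Pool.Agent.H12.Comp4

set_option autoImplicit false
open Pool Pool.MP_19858b_an

namespace Pool.Agent.S03956


/-- The negation of the preceding statement: In every nonzero real Banach space, the equivalent norms admitting a companion norm (some equivalent norm for which their unit ball is antiproximinal) form a first-category set under the metric of uniform convergence on the unit ball. -/
theorem result :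
    ¬ (∀ (X : Type) [NormedAddCommGroup X] [NormedSpace ℝ X] [CompleteSpace X] [Nontrivial X],
  ∃ F : ℕ → Set (Seminorm ℝ X),
    (∀ p : Seminorm ℝ X,
      (∃ a b : ℝ, 0 < a ∧ 0 < b ∧ ∀ x : X, a * ‖x‖ ≤ p x ∧ p x ≤ b * ‖x‖) →
      (∃ q : Seminorm ℝ X,
        (∃ a b : ℝ, 0 < a ∧ 0 < b ∧ ∀ x : X, a * ‖x‖ ≤ q x ∧ q x ≤ b * ‖x‖) ∧
        ∀ x : X, 1 < p x → ∀ y : X, p y ≤ 1 → ∃ z : X, p z ≤ 1 ∧ q (x - z) < q (x - y)) →
      ∃ n : ℕ, p ∈ F n) ∧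
    ∀ n : ℕ, ∀ p : Seminorm ℝ X,
      (∃ a b : ℝ, 0 < a ∧ 0 < b ∧ ∀ x : X, a * ‖x‖ ≤ p x ∧ p x ≤ b * ‖x‖) →
      ∀ ε : ℝ, 0 < ε →
        ∃ q : Seminorm ℝ X,
          (∃ a b : ℝ, 0 < a ∧ 0 < b ∧ ∀ x : X, a * ‖x‖ ≤ q x ∧ q x ≤ b * ‖x‖) ∧
          ∃ δ : ℝ, 0 < δ ∧
            ∀ r : Seminorm ℝ X,
              (∃ a b : ℝ, 0 < a ∧ 0 < b ∧ ∀ x : X, a * ‖x‖ ≤ r x ∧ r x ≤ b * ‖x‖) →
              (⨆ x : Metric.closedBall (0 : X) 1, |q (x : X) - r (x : X)|) < δ →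
              ((⨆ x : Metric.closedBall (0 : X) 1, |p (x : X) - r (x : X)|) < ε ∧ r ∉ F n)) := by
  intro H
  have := Pool.Agent.H12.Comp.nontriv
  obtain ⟨F, h1, h2⟩ := H Pool.Agent.H12.Comp.X0
  obtain ⟨p, hp, hq, hF⟩ := Pool.Agent.H12.Comp.main F fun n =>
    Pool.Agent.H12.Comp.DI_F (F n) (h2 n)
  obtain ⟨n, hn⟩ := h1 p hp hq
  exact hF n hn

end Pool.Agent.S03956
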