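import Pool.Statements.S03969
import Pool.Agent.H28.Atom

set_option autoImplicit false
open Pool Pool.MP_1ac4dc_an

namespace Pool.Agent.S03969

open Finset Filter Topology Pool.Agent.H28.Atom

noncomputable def P (d : ℕ) (x : ℝ) : ℝ := ∏ n ∈ range d, (x + (n + 1) / (d + 1))

noncomputable def G (d n : ℕ) (x : ℝ) : ℝ := (x + (n + 1) / d) * (x + 1 - (n + 1) / d)

lemma P_even (l : ℕ) (x : ℝ) : P (2 * l) x = ∏ n ∈ range l, G (2 * l + 1) n x := by
  rw [P, two_mul l, prod_range_add, ← prod_range_reflect (fun n => x + (((l + n : ℕ) : ℝ) + 1) / _),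
    ← prod_mul_distrib]
  refine prod_congr rfl fun n hn => ?_
  obtain ⟨j, rfl⟩ := Nat.exists_eq_add_of_lt (mem_range.1 hn)
  rw [G, show n + j + 1 - 1 - n = j by omega]; push_cast; congr 1; field_simp; ring

lemma P_odd (l : ℕ) (x : ℝ) :
    P (2 * l + 1) x = (x + 1 / 2) * ∏ n ∈ range l, G (2 * l + 2) n x := by
  rw [P, show 2 * l + 1 = l + 1 + l by ring, prod_range_add, prod_range_succ,
    ← prod_range_reflect (fun n => x + (((l + 1 + n : ℕ) : ℝ) + 1) / _), mul_right_comm,
    ← prod_mul_distrib, mul_comm]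
  congr 1
  · push_cast; congr 1; field_simp; ring
  refine prod_congr rfl fun n hn => ?_
  obtain ⟨j, rfl⟩ := Nat.exists_eq_add_of_lt (mem_range.1 hn)
  rw [G, show n + j + 1 - 1 - n = j by omega]; push_cast; congr 1 <;> (field_simp; ring)

lemma pair (d : ℕ) (hd : 1 ≤ d) (x : ℝ) :
    P (d + 1) x * ∏ n ∈ range ((d + 1) / 2), G (d + 1) n x =
      (x + 1 / 2) * P d x * ∏ n ∈ range ((d + 1) / 2), G (d + 2) n x := by
  rcases Nat.even_or_odd' d with ⟨l, rfl | rfl⟩
  · rw [show (2 * l + 1) / 2 = l by omega, P_odd, P_even]; ring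
  · rw [show (2 * l + 1 + 1) / 2 = l + 1 by omega, show 2 * l + 1 + 1 = 2 * (l + 1) by ring, P_even,
      P_odd, prod_range_succ (fun n => G (2 * (l + 1)) n x)]
    have : G (2 * (l + 1)) l x = (x + 1 / 2) ^ 2 := by rw [G]; push_cast; field_simp; ring
    rw [this, show 2 * (l + 1) = 2 * l + 2 by ring]; ring

lemma fac (d k : ℕ) : (((d + 1) * (k + 1)).factorial : ℝ) =
    ((d + 1) * k).factorial * ((d + 1) ^ (d + 1) * (k + 1) * P d k) := by
  have h : ∀ N e : ℕ, ((N + e).factorial : ℝ) = N.factorial * ∏ n ∈ range e, ((N : ℝ) + n + 1) := by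
    intro N e
    induction e with
    | zero => simp
    | succ e ih => rw [← add_assoc, Nat.factorial_succ, prod_range_succ]; push_cast; rw [ih]; ring
  rw [mul_add, mul_one, h, prod_range_succ, P]
  have : ∏ n ∈ range d, ((((d + 1) * k : ℕ) : ℝ) + n + 1) =
      ∏ n ∈ range d, ((d + 1 : ℝ) * (k + (n + 1) / (d + 1))) :=
    prod_congr rfl fun n _ => by push_cast; field_simp; ring
  rw [this, prod_mul_distrib, prod_const, card_range]; push_cast; ring

noncomputable def ρ (d : ℕ) : ℝ := (d + 1) ^ (d + 1) * 4 / (d + 2) ^ (d + 2)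

noncomputable def a (d k : ℕ) : ℝ := ((d + 1) * k).factorial * (2 * k).factorial /
  (((d + 2) * k).factorial * k.factorial) / ρ d ^ k

noncomputable def F (d n j : ℕ) : ℝ := G (d + 2) n j / G (d + 1) n j

lemma beta (d n : ℕ) (hn : n ∈ range ((d + 1) / 2)) :
    0 < ((n : ℝ) + 1) / (d + 1 : ℕ) ∧ ((n : ℝ) + 1) / (d + 1 : ℕ) ≤ 1 / 2 := by
  refine ⟨by positivity, ?_⟩
  have : 2 * (n + 1) ≤ d + 1 := by have := mem_range.1 hn; omega
  have : (2 * (n + 1) : ℝ) ≤ (d + 1 : ℕ) := by exact_mod_cast this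
  rw [div_le_iff₀ (by positivity)]; linarith

lemma a_pos (d k : ℕ) : 0 < a d k := by unfold a ρ; positivity

lemma a_succ (d : ℕ) (hd : 1 ≤ d) (k : ℕ) :
    a d (k + 1) * ∏ n ∈ range ((d + 1) / 2), F d n k = a d k := by
  have h1 := fac d k
  have h2 := fac (d + 1) k
  have h3 := fac 1 k
  have h4 := pair d hd k
  have p1 : 0 < P (d + 1) k := prod_pos fun n _ => by positivity
  have p2 : 0 < ∏ n ∈ range ((d + 1) / 2), G (d + 1) n k := prod_pos fun n hn => by
    have := beta d n hn
    exact mul_pos (by positivity) (by linarith [(k.cast_nonneg : (0 : ℝ) ≤ k)])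
  simp only [F, prod_div_distrib, a, ρ]
  rw [h1, h2, h3, Nat.factorial_succ k, pow_succ _ k]
  simp only [P, range_one, prod_singleton] at h4 p1 ⊢
  push_cast at h4 p1 ⊢
  generalize ∏ n ∈ range ((d + 1) / 2), G (d + 1) n k = A at *
  generalize ∏ n ∈ range ((d + 1) / 2), G (d + 2) n k = B at *
  generalize ∏ n ∈ range (d + 1), ((k : ℝ) + (n + 1) / (d + 1 + 1)) = C at *
  generalize ∏ n ∈ range d, ((k : ℝ) + (n + 1) / (d + 1)) = D at *
  rw [show (d : ℝ) + 1 + 1 = d + 2 by ring]
  field_simp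
  linear_combination (-4) * h4

noncomputable def t (j : ℕ) : ℝ := if j = 0 then 1 else 1 / (8 * (j * (j + 1)))

lemma t_sum (N : ℕ) : ∑ j ∈ range (N + 1), t j = 9 / 8 - 1 / (8 * (N + 1)) := by
  induction N with
  | zero => norm_num [t]
  | succ N ih => rw [sum_range_succ, ih, t, if_neg (by omega)]; push_cast; field_simp; ring

lemma tv (d n j : ℕ) (hn : n ∈ range ((d + 1) / 2)) :
    TV (fun k => F d n (j + k) - 1) (t j / (d + 1)) ∧ F d n j ≤ 1 := by
  obtain ⟨b0, b1⟩ := beta d n hn
  set β := ((n : ℝ) + 1) / (d + 1 : ℕ) with hβ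
  set α := ((n : ℝ) + 1) / (d + 2 : ℕ) with hα
  have D : (0 : ℝ) < d + 1 := by positivity
  have e1 : β - α = α / (d + 1) := by rw [hα, hβ]; push_cast; field_simp; ring
  have e2 : β - α = β / (d + 2) := by rw [hα, hβ]; push_cast; field_simp; ring
  have a0 : 0 < α := by positivity
  have ab : 0 < β - α := by rw [e1]; positivity
  have j0 : (0 : ℝ) ≤ j := j.cast_nonneg
  have c0 : 0 ≤ (β - α) * (1 - α - β) := mul_nonneg ab.le (by linarith)
  have q : 0 < (j : ℝ) + 1 - β := by linarith
  constructor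
  · have := ((TV_inv (j + β) (by positivity)).mul (TV_inv (j + 1 - β) q)).smul
      (-((β - α) * (1 - α - β)))
    rw [abs_neg, abs_of_nonneg c0] at this
    rw [show (fun k => F d n (j + k) - 1) = fun k : ℕ => -((β - α) * (1 - α - β)) *
      (1 / (k + (j + β)) * (1 / (k + (j + 1 - β)))) from funext fun k => by
        have k0 : (0 : ℝ) ≤ k := k.cast_nonneg
        have q1 : (k : ℝ) + (j + 1 - β) ≠ 0 := by linarith
        have q2 : (j : ℝ) + k + 1 - β ≠ 0 := by linarith
        simp only [F, G, ← hα, ← hβ]; push_cast; field_simp; ring]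
    refine this.mono ?_
    rw [one_div_mul_one_div, mul_one_div, div_le_div_iff₀ (by positivity) D, t]
    split_ifs with h
    · subst h
      have : (β - α) * (d + 1) ≤ β := by
        rw [e2, div_mul_eq_mul_div, div_le_iff₀ (by positivity)]; nlinarith
      simp only [Nat.cast_zero, zero_add]
      nlinarith [mul_le_mul this (show 1 - α - β ≤ 1 - β by linarith) (by linarith) b0.le]
    · have j1 : (0 : ℝ) < j := by positivity
      have : (β - α) * (d + 1) = α := by rw [e1]; field_simp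
      rw [mul_right_comm, this, div_mul_eq_mul_div 1, le_div_iff₀ (by positivity)]
      have h8 : α * (1 - α - β) * 8 ≤ 1 := by nlinarith [sq_nonneg (4 * α - 1)]
      nlinarith [mul_le_mul_of_nonneg_right h8 (show (0 : ℝ) ≤ j * (j + 1) by positivity),
        mul_pos b0 (show 0 < 1 - β by linarith)]
  · simp only [F, G, ← hα, ← hβ]
    rw [div_le_one (mul_pos (by positivity) q)]; nlinarith

lemma main (d : ℕ) (hd : 1 ≤ d) (z : ℂ)
    (hz : ∑' k, ((a d k / (2 * k).factorial : ℝ) : ℂ) * z ^ k = 0) : z.im = 0 := by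
  set τ := Real.exp (9 / 16) - 1
  have hτ : τ < 1 := by
    have : Real.exp (9 / 16) < Real.exp (Real.log 2) :=
      Real.exp_lt_exp.2 (by linarith [Real.log_two_gt_d9])
    rw [Real.exp_log two_pos] at this; simp only [τ]; linarith
  have b : ∀ N k, ∏ i ∈ range N ×ˢ range ((d + 1) / 2), F d i.2 (i.1 + k) = a d k / a d (N + k) := by
    intro N k
    rw [prod_product]
    induction N with
    | zero => simp [(a_pos d k).ne']
    | succ N ih =>
      rw [prod_range_succ, ih, ← a_succ d hd (N + k), add_right_comm N 1 k]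
      have := a_succ d hd (N + k)
      have h0 : ∏ n ∈ range ((d + 1) / 2), F d n (N + k) ≠ 0 := fun h => by
        rw [h, mul_zero] at this; exact (a_pos d _).ne this
      field_simp
  have T : ∀ N, TV (fun k => a d k / a d (N + 1 + k) - 1) τ := fun N => by
    have := TV_prod (range (N + 1) ×ˢ range ((d + 1) / 2)) (fun i k => F d i.2 (i.1 + k))
      (fun i => t i.1 / (d + 1)) fun i hi => (tv d i.2 i.1 (mem_product.1 hi).2).1
    simp only [b] at this
    refine this.mono (sub_le_sub_right ((prod_le_prod (g := fun i => Real.exp (t i.1 / (d + 1)))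
      (fun i _ => by unfold t; split_ifs <;> positivity)
      fun i _ => by linarith [Real.add_one_le_exp (t i.1 / (d + 1))]).trans ?_) 1)
    rw [← Real.exp_sum, Real.exp_le_exp, sum_product]
    simp only [sum_const, card_range, nsmul_eq_mul]
    rw [← mul_sum, ← sum_div, t_sum, ← mul_div_assoc, div_le_iff₀ (by positivity)]
    have h1 : (((d + 1) / 2 : ℕ) : ℝ) * 2 ≤ d + 1 := by exact_mod_cast Nat.div_mul_le_self (d + 1) 2
    have h2 : (0 : ℝ) ≤ ((d + 1) / 2 : ℕ) * (1 / (8 * (N + 1))) := by positivity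
    nlinarith
  have a0 : a d 0 = 1 := by simp [a]
  have mono : Monotone (a d) := monotone_nat_of_le_succ fun k => by
    rw [← a_succ d hd k]
    refine mul_le_of_le_one_right (a_pos d _).le (prod_le_one (fun n hn => ?_)
      fun n hn => (tv d n k hn).2)
    have := beta d n hn
    have h2 : ((n : ℝ) + 1) / (d + 2 : ℕ) ≤ (n + 1) / (d + 1 : ℕ) := by gcongr; omega
    have k0 : (0 : ℝ) ≤ k := k.cast_nonneg
    exact div_nonneg (mul_nonneg (by positivity) (by linarith))
      (mul_nonneg (by positivity) (by linarith))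
  have bd : ∀ N, a d N ≤ 1 / (1 - τ) := fun N => by
    have := T N 1 1 (by simp)
    rw [L_eq _ _ 1 (by simp)] at this
    simp only [range_one, sum_singleton, Polynomial.coeff_one_zero, one_mul, a0, add_zero,
      mul_one] at this
    have h := (abs_le.1 this).1
    refine (mono N.le_succ).trans ?_
    rw [le_div_iff₀ (by linarith), mul_comm, ← le_div_iff₀ (a_pos d _)]; linarith
  have lim := tendsto_atTop_ciSup mono ⟨_, Set.forall_mem_range.2 bd⟩
  have c1 : 1 ≤ ⨆ i, a d i := a0 ▸ le_ciSup ⟨_, Set.forall_mem_range.2 bd⟩ 0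
  refine atom (a d) _ (fun k => (abs_of_pos (a_pos d k)).trans_le (bd k)) (a_pos d 0).ne' τ hτ
    (fun Q M hQ h1 => ?_) z hz
  have M0 : 0 ≤ M := (abs_nonneg _).trans (hQ 0 (by simp))
  have : Tendsto (fun N => a d (N + 1) * ∑ k ∈ range (Q.natDegree + 1),
      Q.coeff k * (a d k / a d (N + 1 + k))) atTop (𝓝 ((⨆ i, a d i) *
        ∑ k ∈ range (Q.natDegree + 1), Q.coeff k * (a d k / ⨆ i, a d i))) :=
    (lim.comp (tendsto_add_atTop_nat 1)).mul (tendsto_finset_sum _ fun k _ =>
      (tendsto_const_nhds.div (lim.comp ((tendsto_add_atTop_nat k).comp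
        (tendsto_add_atTop_nat 1))) (by linarith)).const_mul _)
  rw [L_eq _ _ _ (Nat.lt_succ_self _)]
  refine le_of_le_of_eq (ge_of_tendsto' this fun N => ?_) ?_
  · have := (abs_le.1 (T N Q M hQ)).1
    rw [L_eq _ _ _ (Nat.lt_succ_self _)] at this
    simp only [mul_sub, sum_sub_distrib, mul_one] at this
    rw [Polynomial.eval_eq_sum_range] at h1
    simp only [one_pow, mul_one] at h1
    rw [h1] at this
    have h2 : 1 ≤ a d (N + 1) := a0 ▸ mono (Nat.zero_le _)
    have h3 : 0 ≤ (1 - τ) * M := mul_nonneg (by linarith) M0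
    exact (le_mul_of_one_le_left h3 h2).trans (mul_le_mul_of_nonneg_left (by linarith) (by linarith))
  · rw [mul_sum]; exact sum_congr rfl fun k _ => by field_simp

/-- For every integer m at least 2, every complex zero of the entire function sum over k of (mk)!/(((m+1)k)! k!) z^k is real. -/
theorem result :
    ∀ m : ℕ, 2 ≤ m → ∀ z : ℂ,
      (∑' k : ℕ, ((Nat.factorial (m * k) : ℂ) /
          ((Nat.factorial ((m + 1) * k) : ℂ) * (Nat.factorial k : ℂ))) * z ^ k) = 0 →
      z.im = 0 := by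
  intro m hm z hz
  obtain ⟨d, rfl⟩ : ∃ d, m = d + 1 := ⟨m - 1, by omega⟩
  have r0 : 0 < ρ d := by unfold ρ; positivity
  have := main d (by omega) (ρ d * z) (by
    rw [← hz]
    refine tsum_congr fun k => ?_
    have h1 : (ρ d : ℂ) ≠ 0 := by exact_mod_cast r0.ne'
    have h2 : ∀ n : ℕ, (n.factorial : ℂ) ≠ 0 := fun n => by exact_mod_cast n.factorial_ne_zero
    have := h2 (2 * k); have := h2 k; have := h2 ((d + 2) * k)
    rw [a, mul_pow]; push_cast; field_simp)
  simpa [r0.ne'] using this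

end Pool.Agent.S03969
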