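import Pool.Statements.S03988
import Pool.Agent.H17.Plich
import Pool.Agent.H15.Loeb

set_option autoImplicit false
open Pool Pool.MP_1c6fe5_an

namespace Pool.Agent.S03988

theorem result :
    ¬ (∀ (S : Type) [Semigroup S] (W : (S → ℝ) → Prop),
      (∀ f : S → ℝ, W f ↔
        ∃ F : lp (fun _ : S => ℝ) ⊤, (∀ t, F t = f t) ∧
          IsCompact (closure (toWeakSpace ℝ (lp (fun _ : S => ℝ) ⊤) ''
            {G : lp (fun _ : S => ℝ) ⊤ | ∃ s : S, ∀ t : S, G t = f (s * t)}))) →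
      (∃ m : (S → ℝ) → ℝ,
        (∀ f g : S → ℝ, W f → W g → m (f + g) = m f + m g) ∧
        (∀ (c : ℝ) (f : S → ℝ), W f → m (c • f) = c * m f) ∧
        (∀ f : S → ℝ, W f → (∀ t, 0 ≤ f t) → 0 ≤ m f) ∧
        m (fun _ => 1) = 1 ∧
        (∀ (s : S) (f : S → ℝ), W f → m (fun t => f (s * t)) = m f)) →
      ∀ (X : Type) [NormedAddCommGroup X] [NormedSpace ℝ X] [CompleteSpace X]
        (C : Set (StrongDual ℝ X)) (T : S → StrongDual ℝ X → StrongDual ℝ X),
        C.Nonempty → Convex ℝ C → TopologicalSpace.IsSeparable C →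
        IsCompact (StrongDual.toWeakDual '' C) →
        (∀ s, Set.MapsTo (T s) C C) →
        (∀ s t : S, ∀ φ ∈ C, T (s * t) φ = T s (T t φ)) →
        (∀ s : S, ∀ φ ∈ C, ∀ ψ ∈ C, ‖T s φ - T s ψ‖ ≤ ‖φ - ψ‖) →
        (∀ s : S, ContinuousOn
          (fun ω => StrongDual.toWeakDual (T s (StrongDual.toWeakDual.symm ω)))
          (StrongDual.toWeakDual '' C)) →
        ∃ φ ∈ C, ∀ s : S, T s φ = φ) := by
  intro h
  classical
  let K := OnePoint ℕ
  let S : Submonoid (Function.End K) :=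
    { carrier := {s | Continuous s}
      one_mem' := continuous_id
      mul_mem' := fun hs ht => Continuous.comp hs ht }
  let c : K → S := fun a => ⟨fun _ => a, continuous_const⟩
  have F : ∀ (Y : Type) [TopologicalSpace Y] (a b : Y) (i : ℕ), ∃ g : C(K, Y),
      (∀ j : ℕ, g j = if j ≤ i then a else b) ∧ g OnePoint.infty = b := fun Y _ a b i =>
    ⟨⟨fun x => OnePoint.rec b (fun j => if j ≤ i then a else b) x,
      (OnePoint.continuous_iff_from_nat _).2 (tendsto_const_nhds.congr'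
        ((Filter.eventually_gt_atTop i).mono fun j hj => (if_neg (not_le.2 hj)).symm))⟩,
      fun _ => rfl, rfl⟩
  let R : S → C(K, ℝ) →L[ℝ] C(K, ℝ) := fun s => LinearMap.mkContinuous
    { toFun := fun g => g.comp ⟨s.1, s.2⟩, map_add' := fun _ _ => rfl, map_smul' := fun _ _ => rfl } 1
    fun g => (ContinuousMap.norm_le _ (by positivity)).2 fun x => by
      rw [one_mul]; exact g.norm_coe_le_norm _
  have R1 : ∀ s (φ : StrongDual ℝ C(K, ℝ)), ‖φ.comp (R s)‖ ≤ ‖φ‖ := fun s φ =>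
    (φ.opNorm_comp_le _).trans (mul_le_of_le_one_right (norm_nonneg _)
      (LinearMap.mkContinuous_norm_le _ zero_le_one _))
  haveI := Pool.Agent.H17.Vald.sep_dual K
  obtain ⟨φ, hφ, e⟩ := h S _ (fun f => Iff.rfl) ⟨fun f => f (c OnePoint.infty), fun _ _ _ _ => rfl,
      fun _ _ _ => rfl, fun _ _ h => h _, rfl, by
    rintro s f ⟨F0, hF0, hf⟩
    show f (c (s.1 OnePoint.infty)) = f (c OnePoint.infty)
    generalize s.1 OnePoint.infty = a
    generalize (OnePoint.infty : K) = b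
    choose g g1 g2 using F K a b
    have bd : ∀ (H : lp (fun _ : S => ℝ) ⊤) t, H t ∈ Set.Icc (-‖H‖) ‖H‖ := fun H t =>
      abs_le.1 (lp.norm_apply_le_norm (by simp) H t)
    let G : ℕ → lp (fun _ : S => ℝ) ⊤ := fun i => ⟨fun t => f ((⟨fun x => g i x, (g i).2⟩ : S) * t),
      memℓp_infty ⟨‖F0‖, by rintro _ ⟨t, rfl⟩; beta_reduce; rw [← hF0]; exact abs_le.2 (bd F0 _)⟩⟩
    have tl := fun H : lp (fun _ : S => ℝ) ⊤ => Pool.Agent.H15.Loeb.tl fun j : ℕ => bd H (c j)
    let Λ : lp (fun _ : S => ℝ) ⊤ →L[ℝ] ℝ := LinearMap.mkContinuous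
      { toFun := fun H => Pool.Agent.H15.Loeb.lm fun j : ℕ => H (c j)
        map_add' := fun x y => Pool.Agent.H15.Loeb.lm_eq ((tl x).add (tl y))
        map_smul' := fun r x => Pool.Agent.H15.Loeb.lm_eq ((tl x).const_mul r) } 1
      fun H => by rw [one_mul]; exact abs_le.2 (Pool.Agent.H15.Loeb.lm_mem fun j : ℕ => bd H (c j))
    obtain ⟨H, -, hH⟩ := hf.ultrafilter_le_nhds ((Filter.hyperfilter ℕ).map
      fun i => toWeakSpace ℝ _ (G i)) (Filter.le_principal_iff.2 (Filter.mem_map.2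
        (Filter.Eventually.of_forall fun i => subset_closure ⟨_, ⟨_, fun _ => rfl⟩, rfl⟩)))
    have t : ∀ ψ : lp (fun _ : S => ℝ) ⊤ →L[ℝ] ℝ, Filter.Tendsto (fun i => ψ (G i))
        (Filter.hyperfilter ℕ) (nhds (ψ ((toWeakSpace ℝ _).symm H))) := fun ψ =>
      ((WeakBilin.eval_continuous (topDualPairing ℝ _).flip ψ).tendsto H).comp hH
    have Gc : ∀ i j : ℕ, G i (c j) = f (c (if j ≤ i then a else b)) := fun i j =>
      congrArg (fun x => f (c x)) (g1 i j)
    have h1 : ∀ j : ℕ, (toWeakSpace ℝ _).symm H (c j) = f (c a) := fun j =>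
      tendsto_nhds_unique (t (lp.evalCLM ℝ _ ⊤ (c j))) (tendsto_const_nhds.congr'
        (((Filter.eventually_ge_atTop j).filter_mono Nat.hyperfilter_le_atTop).mono fun i hi =>
          ((Gc i j).trans (by rw [if_pos hi])).symm))
    have h2 : ∀ i, Λ (G i) = f (c b) := fun i => Pool.Agent.H15.Loeb.lm_eq
      (tendsto_const_nhds.congr' (((Filter.eventually_gt_atTop i).filter_mono Nat.hyperfilter_le_atTop).mono
        fun j hj => ((Gc i j).trans (by rw [if_neg (not_le.2 hj)])).symm))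
    have h3 : Λ ((toWeakSpace ℝ _).symm H) = f (c a) := Pool.Agent.H15.Loeb.lm_eq (by
      simp only [h1]; exact tendsto_const_nhds)
    have := t Λ
    simp only [h2, h3] at this
    exact (tendsto_nhds_unique tendsto_const_nhds this).symm⟩
    C(K, ℝ) {φ | ‖φ‖ ≤ 1 ∧ φ 1 = 1} (fun s φ => φ.comp (R s))
    ⟨ContinuousMap.evalCLM ℝ OnePoint.infty, ContinuousLinearMap.opNorm_le_bound _ zero_le_one
      fun g => by rw [one_mul]; exact g.norm_coe_le_norm _, rfl⟩
    (by
      rintro x ⟨x1, x2⟩ y ⟨y1, y2⟩ a b ha hb hab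
      refine ⟨convex_closedBall (0 : StrongDual ℝ C(K, ℝ)) 1 (mem_closedBall_zero_iff.2 x1)
        (mem_closedBall_zero_iff.2 y1) ha hb hab |> mem_closedBall_zero_iff.1, ?_⟩
      simp [x2, y2, hab])
    (TopologicalSpace.IsSeparable.of_separableSpace _)
    (by
      have := (WeakDual.isCompact_closedBall (𝕜 := ℝ) (0 : StrongDual ℝ C(K, ℝ)) 1).inter_right
        (isClosed_eq (WeakDual.eval_continuous (1 : C(K, ℝ))) (continuous_const (y := (1 : ℝ))))
      refine (congrArg IsCompact (Set.ext fun ψ => ?_)).mp this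
      exact ⟨fun h => ⟨WeakDual.toStrongDual ψ, ⟨mem_closedBall_zero_iff.1 h.1, h.2⟩, rfl⟩, by
        rintro ⟨ψ, h, rfl⟩; exact ⟨mem_closedBall_zero_iff.2 h.1, h.2⟩⟩)
    (fun s φ h => ⟨(R1 s φ).trans h.1, h.2⟩) (fun _ _ _ _ => rfl)
    (fun s φ _ ψ _ => by rw [← ContinuousLinearMap.sub_comp]; exact R1 s _)
    (fun s => (WeakDual.continuous_of_continuous_eval fun g =>
      WeakDual.eval_continuous (R s g)).continuousOn)
  obtain ⟨g, g1, g2⟩ := F ℝ 0 1 0
  have k : ∀ a, φ g = g a := fun a => by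
    have := DFunLike.congr_fun (e (c a)) g
    rw [← this]
    show φ (R (c a) g) = _
    rw [show R (c a) g = g a • 1 from ContinuousMap.ext fun _ => (mul_one _).symm, map_smul, hφ.2,
      smul_eq_mul, mul_one]
  have := (k (0 : ℕ)).symm.trans (k OnePoint.infty)
  rw [g1, g2] at this
  simp at this

end Pool.Agent.S03988
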