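import Pool.Statements.S03998
import Pool.Agent.H2.Rigid

set_option autoImplicit false
open Filter Topology
open scoped symmDiff
open Pool Pool.MP_1dc7bd_an

namespace Pool.Agent.S03998

/-- The negation of the preceding statement: For every minimal homeomorphism of a Cantor space with an invariant probability measure that is rigid, and every clopen set of positive measure, the first return map on that set is rigid for the restricted measure. -/
theorem result :
    ¬ (∀ (X : Type) [TopologicalSpace X] [CompactSpace X] [TopologicalSpace.MetrizableSpace X]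
      [TotallyDisconnectedSpace X] [MeasurableSpace X] [BorelSpace X],
      (∀ x : X, (𝓝[≠] x).NeBot) →
      ∀ (T : X ≃ₜ X) (μ : MeasureTheory.Measure X),
        MeasureTheory.IsProbabilityMeasure μ →
        MeasureTheory.MeasurePreserving (⇑T) μ μ →
        (∀ x : X, Dense {y : X | ∃ n : ℕ, (⇑T)^[n] x = y ∨ (⇑T.symm)^[n] x = y}) →
        (∃ n : ℕ → ℕ, StrictMono n ∧ (∀ k, 0 < n k) ∧
          ∀ B : Set X, MeasurableSet B →
            Tendsto (fun k => μ (((⇑T)^[n k] ⁻¹' B) ∆ B)) atTop (𝓝 0)) →
        ∀ A : Set X, IsClopen A → μ A ≠ 0 →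
          ∀ S : X → X,
            (∀ x ∈ A, ∃ r : ℕ, 0 < r ∧ S x = (⇑T)^[r] x ∧ (⇑T)^[r] x ∈ A ∧
              ∀ j : ℕ, 0 < j → j < r → (⇑T)^[j] x ∉ A) →
            ∃ n : ℕ → ℕ, StrictMono n ∧ (∀ k, 0 < n k) ∧
              ∀ B : Set X, MeasurableSet B → B ⊆ A →
                Tendsto (fun k => μ ((A ∩ S^[n k] ⁻¹' B) ∆ B)) atTop (𝓝 0)) := by
  intro hall
  open Pool.Agent.H2.Rigid in
  obtain ⟨n, hn, -, h⟩ := hall XX no_isolated TT mu inferInstance mp minimal rigid AA AA_clopen (by
    intro h0
    have h1 := lower 4 le_rfl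
    have h2 : mu ((AA ∩ SS^[4] ⁻¹' BB) ∆ BB) = 0 := by
      refine MeasureTheory.measure_mono_null ?_ h0
      rintro z (hz | hz)
      · exact hz.1.1
      · exact BB_sub hz.1
    rw [h2] at h1
    simp at h1) SS (fun z _ => SS_spec z)
  have h1 := ENNReal.Tendsto.const_mul (a := 768)
    (h _ Pool.Agent.H2.Rigid.BB_meas Pool.Agent.H2.Rigid.BB_sub) (Or.inr (by norm_num))
  have h2 := ge_of_tendsto h1 (by
    filter_upwards [eventually_ge_atTop 4] with k hk
    exact Pool.Agent.H2.Rigid.lower (n k) (hk.trans (hn.id_le k)))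
  simp at h2

end Pool.Agent.S03998
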