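import Pool.Statements.S04003
import Pool.Agent.H9.Supp4

set_option autoImplicit false
open Pool Pool.MP_1e94b9_an

namespace Pool.Agent.S04003

/-- For every separable real Banach space with no subspace isomorphic to ℓ¹, the norm closure of the convex hull of the weak*-exposed points of the dual unit ball is the whole dual unit ball. -/
theorem result :
    ∀ (X : Type) [NormedAddCommGroup X] [NormedSpace ℝ X] [CompleteSpace X]
      [TopologicalSpace.SeparableSpace X],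
      (¬ ∃ T : (lp (fun _ : ℕ => ℝ) 1) →L[ℝ] X, ∃ c : ℝ, 0 < c ∧ ∀ a, c * ‖a‖ ≤ ‖T a‖) →
      closure (convexHull ℝ
        {f : X →L[ℝ] ℝ | f ∈ Metric.closedBall (0 : X →L[ℝ] ℝ) 1 ∧
          ∃ x : X, ∀ g ∈ Metric.closedBall (0 : X →L[ℝ] ℝ) 1, g ≠ f → g x < f x})
        = Metric.closedBall (0 : X →L[ℝ] ℝ) 1 := by
  intro X _ _ _ _ hX
  refine Set.Subset.antisymm (closure_minimal (convexHull_min (fun f hf => hf.1)
    (convex_closedBall _ _)) Metric.isClosed_closedBall) fun f0 hf0 => ?_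
  by_contra hn
  obtain ⟨G, u, h1, h2⟩ := geometric_hahn_banach_closed_point (convex_convexHull ℝ _).closure
    isClosed_closure hn
  have hc : 0 < (‖G‖ + 1)⁻¹ := by positivity
  let F : H9.Supp3.W X →ₗ[ℝ] ℝ := (‖G‖ + 1)⁻¹ • (G : (X →L[ℝ] ℝ) →ₗ[ℝ] ℝ)
  have hF : ∀ g : X →L[ℝ] ℝ, F g = (‖G‖ + 1)⁻¹ * G g := fun _ => rfl
  have hF' : ∀ g : X →L[ℝ] ℝ, -‖g‖ ≤ F g := fun g => by
    rw [hF, le_inv_mul_iff₀ (by positivity)]
    have h3 := neg_le_of_abs_le (G.le_opNorm g)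
    have h4 := norm_nonneg g
    linarith
  obtain ⟨r, d, hd, h3, h4⟩ : ∃ r d : ℝ, 0 < d ∧ r = (‖G‖ + 1)⁻¹ * u ∧ F f0 = r + 3 * d :=
    ⟨_, (F f0 - (‖G‖ + 1)⁻¹ * u) / 3, by
      have := mul_lt_mul_of_pos_left h2 hc
      rw [hF]; linarith, rfl, by ring⟩
  obtain ⟨H, h5, h6, h7⟩ := H9.Supp4.cover hX hF' (show r < r + d by linarith)
  obtain ⟨A, hA⟩ := (h5.insert ∅).exists_eq_range (Set.insert_nonempty _ _)
  have h8 : ∀ i, H9.Supp3.Good F (A i ×ˢ {r + d}) := fun i => by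
    rcases (hA ▸ Set.mem_range_self i : A i ∈ insert ∅ H) with h | h
    · rw [h, Set.empty_prod]
      exact ⟨isCompact_empty, convex_empty, by simp⟩
    · exact ⟨(h6 _ h).1.prod isCompact_singleton, (h6 _ h).2.1.prod (convex_singleton _),
        fun p hp => ((h6 _ h).2.2 _ hp.1).trans_eq hp.2.symm⟩
  obtain ⟨x, h9, h10⟩ := H9.Supp3.smooth_big
    (C := fun n => {z | ‖z‖ ≤ 1 ∧ ∀ i < n, ∀ h ∈ A i, h z ≤ r + 2 * d}) (f := f0) (e := r + 3 * d)
    (e' := r + 2 * d) ⟨fun n a ha b hb s t hs ht hst => ⟨mem_closedBall_zero_iff.1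
      (convex_closedBall (0 : X) 1 (mem_closedBall_zero_iff.2 ha.1)
        (mem_closedBall_zero_iff.2 hb.1) hs ht hst), fun i hi h hh =>
        convex_halfSpace_le (h : X →L[ℝ] ℝ).isLinear _ (ha.2 i hi h hh) (hb.2 i hi h hh) hs ht hst⟩,
      fun n m h z hz => ⟨hz.1, fun i hi => hz.2 i (hi.trans_le h)⟩, fun n z hz => hz.1⟩
    (mem_closedBall_zero_iff.1 hf0) (fun n M hM => le_of_forall_pos_le_add fun η hη => by
      obtain ⟨z, e1, e2⟩ := H9.Supp3.approx hF' (fun o : Option (Fin n) =>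
        o.elim {(-f0, -F f0)} fun i => A i ×ˢ {r + d}) (by
          rintro (_ | i)
          · exact H9.Supp4.good_pt (map_neg F f0).le
          · exact h8 i) (lt_min hd hη)
      have e3 : -f0 z < -F f0 + min d η := e2 none _ rfl
      have e4 := hM z ⟨e1, fun i hi h hh => by
        have e4 : h z < r + d + min d η := e2 (some ⟨i, hi⟩) (h, r + d) ⟨hh, rfl⟩
        have := min_le_left d η
        linarith⟩
      have := min_le_right d η
      linarith) (by linarith)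
  obtain ⟨g, hg⟩ := H9.Supp2.J_ne x
  have h11 := h1 g (subset_closure (subset_convexHull ℝ _ ⟨mem_closedBall_zero_iff.2 hg.1, x,
    fun g' hg' hne => by
      have h11 := mem_closedBall_zero_iff.1 hg'
      rw [hg.2]
      exact (H9.Supp1.le_norm h11 x).lt_of_ne fun h => hne (h9 ⟨h11, h⟩ hg)⟩))
  obtain ⟨B, h12, h13⟩ := h7 (a := g) ⟨mem_closedBall_zero_iff.2 hg.1, by
    show F g ≤ r
    rw [hF, h3]
    exact mul_le_mul_of_nonneg_left h11.le hc.le⟩
  obtain ⟨i, rfl⟩ : B ∈ Set.range A := hA ▸ Set.mem_insert_of_mem _ h12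
  obtain ⟨z, h14, h15⟩ := h10 g hg (i + 1)
  exact not_le.2 h15 (h14.2 i i.lt_succ_self g h13)

end Pool.Agent.S04003
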