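import Pool.Statements.S04016
-- import your own Pool.Agent.* helpers here

set_option autoImplicit false
open Pool Pool.MP_1fc4c0_an

namespace Pool.Agent.S04016

open Finset

def g (k : ℕ) : ℤ := ((k + 1).factorial : ℕ)
noncomputable def τ (k : ℕ) : ℝ := 1 / Real.sqrt (k + 1)
noncomputable def b (k : ℕ) : ℝ := (τ k - τ (k + 1)) / 4
noncomputable def q : ℤ → ℝ := Function.extend g b 0
noncomputable def p (i : ℤ) : ℝ := (if i = 0 then 1 / 2 else 0) + q i + q (-i)

lemma g_mono : StrictMono g := strictMono_nat_of_lt_succ fun k => by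
  unfold g
  exact_mod_cast (Nat.factorial_lt (by omega)).2 (by omega)

lemma g_pos (k : ℕ) : 0 < g k := by unfold g; exact_mod_cast Nat.factorial_pos _

lemma τ_pos (k : ℕ) : 0 < τ k := by unfold τ; positivity

lemma τ_anti : StrictAnti τ := strictAnti_nat_of_succ_lt fun k => by
  unfold τ
  apply one_div_lt_one_div_of_lt (by positivity)
  apply Real.sqrt_lt_sqrt (by positivity)
  push_cast; linarith

lemma b_pos (k : ℕ) : 0 < b k := by
  have := τ_anti (Nat.lt_succ_self k)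
  unfold b; linarith

lemma b_le (k : ℕ) : b k ≤ τ k ^ 3 := by
  unfold b τ
  have h1 : Real.sqrt (k + 1) ^ 2 = k + 1 := Real.sq_sqrt (by positivity)
  have h2 : Real.sqrt ((k + 1 : ℕ) + 1) ^ 2 = (k + 1 : ℕ) + 1 := Real.sq_sqrt (by positivity)
  have h3 : 0 < Real.sqrt (k + 1) := by positivity
  have h4 : Real.sqrt (k + 1) ≤ Real.sqrt ((k + 1 : ℕ) + 1) := by
    apply Real.sqrt_le_sqrt; push_cast; linarith
  set u := Real.sqrt (k + 1)
  set v := Real.sqrt ((k + 1 : ℕ) + 1)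
  have h5 : v ^ 2 = u ^ 2 + 1 := by rw [h1, h2]; push_cast; ring
  have h6 : 0 < v := h3.trans_le h4
  have h7 : (v - u) * u ≤ 1 := by nlinarith
  have h8 : (v - u) * u ^ 2 ≤ 4 * v := by nlinarith
  rw [div_sub_div _ _ h3.ne' h6.ne', div_div, div_pow, div_le_div_iff₀ (by positivity) (by positivity)]
  nlinarith [mul_le_mul_of_nonneg_left h8 h3.le]

lemma hasSum_b (K : ℕ) : HasSum (fun k => b (k + K)) (τ K / 4) := by
  rw [hasSum_iff_tendsto_nat_of_nonneg (fun k => (b_pos _).le)]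
  have e : ∀ n, ∑ k ∈ range n, b (k + K) = τ K / 4 - τ (n + K) / 4 := by
    intro n
    induction n with
    | zero => simp
    | succ n ih => rw [sum_range_succ, ih, b, show n + 1 + K = n + K + 1 by ring]; ring
  simp only [e]
  have h : Filter.Tendsto (fun n : ℕ => τ (n + K)) Filter.atTop (nhds 0) := by
    unfold τ
    simp only [one_div]
    apply Filter.Tendsto.inv_tendsto_atTop
    apply Real.tendsto_sqrt_atTop.comp
    apply Filter.tendsto_atTop_add_const_right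
    exact tendsto_natCast_atTop_atTop.comp (Filter.tendsto_add_atTop_nat K)
  simpa using (h.div_const 4).const_sub (τ K / 4)

lemma hasSum_b0 : HasSum b (1 / 4) := by simpa [τ] using hasSum_b 0

lemma q_nonneg (i : ℤ) : 0 ≤ q i := by
  unfold q
  by_cases h : ∃ k, g k = i
  · obtain ⟨k, rfl⟩ := h
    rw [g_mono.injective.extend_apply]; exact (b_pos k).le
  · rw [Function.extend_apply' _ _ _ h]; simp

lemma p_nonneg (i : ℤ) : 0 ≤ p i := by
  unfold p
  have := q_nonneg i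
  have := q_nonneg (-i)
  split_ifs <;> linarith

lemma p_supp {i : ℤ} (h : p i ≠ 0) : i = 0 ∨ ∃ k, i = g k ∨ i = - g k := by
  by_contra hn
  push Not at hn
  apply h
  unfold p q
  rw [if_neg hn.1, Function.extend_apply', Function.extend_apply']
  · simp
  · rintro ⟨k, hk⟩; exact (hn.2 k).2 (by rw [hk]; ring)
  · rintro ⟨k, hk⟩; exact (hn.2 k).1 hk.symm

lemma summ_b (u : ℕ → ℂ) (hu : ∀ k, ‖u k‖ ≤ 1) : Summable fun k => (b k : ℂ) * u k := by
  refine Summable.of_norm_bounded hasSum_b0.summable fun k => ?_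
  rw [norm_mul, Complex.norm_real, Real.norm_of_nonneg (b_pos k).le]
  exact mul_le_of_le_one_right (b_pos k).le (hu k)

lemma hasSum_q (ψ : ℤ → ℂ) (hψ : ∀ i, ‖ψ i‖ ≤ 1) :
    HasSum (fun i => (q i : ℂ) * ψ i) (∑' k, (b k : ℂ) * ψ (g k)) := by
  rw [← g_mono.injective.hasSum_iff]
  · have : ((fun i => (q i : ℂ) * ψ i) ∘ g) = fun k => (b k : ℂ) * ψ (g k) := by
      funext k
      simp [q, g_mono.injective.extend_apply]
    rw [this]
    exact (summ_b _ fun k => hψ _).hasSum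
  · intro i hi
    simp [q, Function.extend_apply' _ _ _ hi]

lemma hasSum_p (ψ : ℤ → ℂ) (hψ : ∀ i, ‖ψ i‖ ≤ 1) :
    HasSum (fun i => (p i : ℂ) * ψ i)
      (ψ 0 / 2 + ∑' k, (b k : ℂ) * ψ (g k) + ∑' k, (b k : ℂ) * ψ (- g k)) := by
  have h1 : HasSum (fun i : ℤ => (((if i = 0 then 1 / 2 else 0 : ℝ)) : ℂ) * ψ i) (ψ 0 / 2) := by
    have := hasSum_single (f := fun i : ℤ => (((if i = 0 then 1 / 2 else 0 : ℝ)) : ℂ) * ψ i) 0
      (fun i hi => by simp [hi])
    convert this using 1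
    simp; ring
  have h2 := hasSum_q ψ hψ
  have h3 : HasSum (fun i => (q (-i) : ℂ) * ψ i) (∑' k, (b k : ℂ) * ψ (- g k)) := by
    have := hasSum_q (fun i => ψ (-i)) (fun i => hψ _)
    rw [← (Equiv.neg ℤ).hasSum_iff] at this
    simpa [Function.comp_def] using this
  convert (h1.add h2).add h3 using 1
  funext i
  unfold p; push_cast; ring

lemma hasSum_bC : HasSum (fun k => (b k : ℂ)) (1 / 4) := by
  have := Complex.hasSum_ofReal.2 hasSum_b0
  simpa using this

lemma hasSum_p1 : HasSum p 1 := by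
  have h := hasSum_p (fun _ => 1) (fun _ => by simp)
  simp only [mul_one, hasSum_bC.tsum_eq] at h
  rw [← Complex.hasSum_ofReal]
  convert h using 1
  norm_num

/-- The Fourier transform is real and lies in `[0,1)`. -/
lemma fourier (t : ℝ) (ht : t ∈ Set.Ioo 0 (2 * Real.pi)) : ∃ r : ℝ, 0 ≤ r ∧ r < 1 ∧
    ∑' n : ℤ, (p n : ℂ) * Complex.exp (Complex.I * (t : ℂ) * (n : ℂ)) = r := by
  have hn : ∀ n : ℤ, ‖Complex.exp (Complex.I * (t : ℂ) * (n : ℂ))‖ ≤ 1 := by
    intro n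
    rw [Complex.norm_exp]; simp
  have h := (hasSum_p _ hn).tsum_eq
  have hs : Summable fun k => b k * Real.cos (t * g k) := by
    refine Summable.of_norm_bounded hasSum_b0.summable fun k => ?_
    rw [norm_mul, Real.norm_of_nonneg (b_pos k).le]
    exact mul_le_of_le_one_right (b_pos k).le (Real.abs_cos_le_one _)
  refine ⟨1 / 2 + 2 * ∑' k, b k * Real.cos (t * g k), ?_, ?_, ?_⟩
  · have : ∑' k, - b k ≤ ∑' k, b k * Real.cos (t * g k) :=
      hasSum_b0.summable.neg.tsum_le_tsum (fun k => by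
        nlinarith [b_pos k, Real.neg_one_le_cos (t * g k)]) hs
    rw [tsum_neg, hasSum_b0.tsum_eq] at this
    linarith
  · have h0 : b 0 * Real.cos (t * g 0) < b 0 := by
      have c1 : Real.cos t ≠ 1 := by
        intro hc
        have c2 : Real.cos (t - Real.pi) = -1 := by rw [Real.cos_sub_pi, hc]
        obtain ⟨n, hn⟩ := (Real.cos_eq_one_iff t).1 hc
        have p1 : (0 : ℝ) < n := by
          by_contra hh
          nlinarith [Real.pi_pos, ht.1]
        have p2 : (n : ℝ) < 1 := by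
          by_contra hh
          nlinarith [Real.pi_pos, ht.2]
        have p3 : (0 : ℤ) < n := by exact_mod_cast p1
        have p4 : n < (1 : ℤ) := by exact_mod_cast p2
        omega
      have c3 : Real.cos t < 1 := lt_of_le_of_ne (Real.cos_le_one t) c1
      have c4 : (g 0 : ℝ) = 1 := by simp [g]
      rw [c4, mul_one]
      nlinarith [b_pos 0]
    have : ∑' k, b k * Real.cos (t * g k) < ∑' k, b k :=
      hs.tsum_lt_tsum (fun k => by nlinarith [b_pos k, Real.cos_le_one (t * g k)]) h0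
        hasSum_b0.summable
    rw [hasSum_b0.tsum_eq] at this
    linarith
  · rw [h, add_assoc, ← (summ_b _ fun k => hn _).tsum_add (summ_b _ fun k => hn _)]
    push_cast
    rw [← tsum_mul_left]
    congr 1
    · simp
    · refine tsum_congr fun k => ?_
      rw [Complex.cos]
      congr 1
      ring_nf

def nm (c : ℕ →₀ ℤ) : ℤ := ∑ k ∈ c.support, |c k|
def pr (c : ℕ →₀ ℤ) : ℤ := ∑ k ∈ c.support, c k * g k

lemma nm_eq (c : ℕ →₀ ℤ) {T : Finset ℕ} (h : c.support ⊆ T) : nm c = ∑ k ∈ T, |c k| :=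
  sum_subset h fun k _ hk => by rw [Finsupp.notMem_support_iff.1 hk, abs_zero]

lemma pr_eq (c : ℕ →₀ ℤ) {T : Finset ℕ} (h : c.support ⊆ T) : pr c = ∑ k ∈ T, c k * g k :=
  sum_subset h fun k _ hk => by rw [Finsupp.notMem_support_iff.1 hk, zero_mul]

lemma nm_add (c d : ℕ →₀ ℤ) : nm (c + d) ≤ nm c + nm d := by
  rw [nm_eq (c + d) Finsupp.support_add, nm_eq c (T := c.support ∪ d.support) subset_union_left,
    nm_eq d (T := c.support ∪ d.support) subset_union_right, ← sum_add_distrib]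
  exact sum_le_sum fun k _ => abs_add_le _ _

lemma pr_add (c d : ℕ →₀ ℤ) : pr (c + d) = pr c + pr d := by
  rw [pr_eq (c + d) Finsupp.support_add, pr_eq c (T := c.support ∪ d.support) subset_union_left,
    pr_eq d (T := c.support ∪ d.support) subset_union_right, ← sum_add_distrib]
  exact sum_congr rfl fun k _ => by rw [Finsupp.add_apply, add_mul]

lemma nm_neg (c : ℕ →₀ ℤ) : nm (-c) = nm c := by simp [nm]
lemma pr_neg (c : ℕ →₀ ℤ) : pr (-c) = - pr c := by simp [pr]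

lemma nm_single (k : ℕ) (v : ℤ) : nm (Finsupp.single k v) = |v| := by
  rw [nm_eq _ Finsupp.support_single_subset]; simp
lemma pr_single (k : ℕ) (v : ℤ) : pr (Finsupp.single k v) = v * g k := by
  rw [pr_eq _ Finsupp.support_single_subset]; simp

lemma card_le_nm (c : ℕ →₀ ℤ) : (c.support.card : ℤ) ≤ nm c := by
  rw [card_eq_sum_ones]; push_cast
  exact sum_le_sum fun k hk => Int.one_le_abs (Finsupp.mem_support_iff.1 hk)

lemma uniq0 (e : ℕ →₀ ℤ) (K : ℕ) (h1 : pr e = 0) (h2 : nm e ≤ K + 1) :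
    ∀ k ∈ e.support, k ≤ K := by
  intro k hk
  by_contra hlt
  have hne : e.support.Nonempty := ⟨k, hk⟩
  obtain ⟨m, hm⟩ : ∃ m, e.support.max' hne = m + 1 :=
    ⟨e.support.max' hne - 1, by have := e.support.le_max' k hk; omega⟩
  have hmem : m + 1 ∈ e.support := hm ▸ e.support.max'_mem hne
  have hKm : K ≤ m := by have := e.support.le_max' k hk; omega
  have a1 : e (m + 1) * g (m + 1) = - ∑ i ∈ e.support.erase (m + 1), e i * g i := by
    rw [pr, ← add_sum_erase _ _ hmem] at h1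
    linarith
  have a2 : |∑ i ∈ e.support.erase (m + 1), e i * g i| ≤ nm e * g m := by
    refine (abs_sum_le_sum_abs _ _).trans ?_
    rw [nm, sum_mul]
    refine (sum_le_sum fun i hi => ?_).trans (sum_le_sum_of_subset_of_nonneg (erase_subset _ _)
      fun i _ _ => mul_nonneg (abs_nonneg _) (g_pos m).le)
    rw [abs_mul, abs_of_pos (g_pos i)]
    refine mul_le_mul_of_nonneg_left (g_mono.monotone ?_) (abs_nonneg _)
    have b1 := e.support.le_max' i (mem_of_mem_erase hi)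
    have b2 := ne_of_mem_erase hi
    omega
  have a3 : g (m + 1) = (m + 2) * g m := by
    unfold g; rw [Nat.factorial_succ]; push_cast; ring
  have a4 : g (m + 1) ≤ |e (m + 1) * g (m + 1)| := by
    rw [abs_mul, abs_of_pos (g_pos _)]
    exact le_mul_of_one_le_left (g_pos _).le (Int.one_le_abs (Finsupp.mem_support_iff.1 hmem))
  rw [a1, abs_neg] at a4
  have a5 : (K : ℤ) ≤ m := by exact_mod_cast hKm
  nlinarith [g_pos m]

def cnt (K : ℕ) (c : ℕ →₀ ℤ) : ℕ := (c.support.filter (K ≤ ·)).card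

lemma cnt_congr (K : ℕ) {c d : ℕ →₀ ℤ} (h : ∀ k, K ≤ k → c k = d k) : cnt K c = cnt K d := by
  unfold cnt
  congr 1
  ext k
  simp only [mem_filter, Finsupp.mem_support_iff]
  constructor
  · rintro ⟨h1, h2⟩; exact ⟨h k h2 ▸ h1, h2⟩
  · rintro ⟨h1, h2⟩; exact ⟨(h k h2).symm ▸ h1, h2⟩

lemma cnt_add (K : ℕ) {c : ℕ →₀ ℤ} {k : ℕ} (hk : K ≤ k) (hc : k ∉ c.support) {v : ℤ}
    (hv : v ≠ 0) : cnt K (c + Finsupp.single k v) = cnt K c + 1 := by
  unfold cnt
  rw [← card_insert_of_notMem (a := k) (fun h => hc (mem_filter.1 h).1)]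
  congr 1
  ext i
  simp only [mem_filter, Finsupp.mem_support_iff, mem_insert, Finsupp.add_apply]
  by_cases h : i = k
  · subst h
    simp [Finsupp.notMem_support_iff.1 hc, hv, hk]
  · simp [h, Finsupp.single_eq_of_ne h]

lemma exists_test (K N : ℕ) (hKN : 2 * (N + 1) ≤ K) (z : ℂ) (hz : ‖z‖ ≤ 1) :
    ∃ φ : ℤ → ℂ, (∀ i, ‖φ i‖ ≤ 1) ∧ φ 0 = 1 ∧ ∀ c, nm c ≤ N →
      ‖∑' i, (p i : ℂ) * φ (pr c + i) - (1 - τ K / 2 + τ K / 2 * z) * φ (pr c)‖
        ≤ 4 * N * τ K ^ 3 := by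
  classical
  let φ : ℤ → ℂ := fun x =>
    if h : ∃ c, nm c ≤ N + 1 ∧ pr c = x then z ^ cnt K h.choose else 1
  have hφ1 : ∀ i, ‖φ i‖ ≤ 1 := by
    intro i
    simp only [φ]
    split_ifs
    · rw [norm_pow]; exact pow_le_one₀ (norm_nonneg _) hz
    · simp
  have hφ : ∀ c, nm c ≤ N + 1 → φ (pr c) = z ^ cnt K c := by
    intro c hc
    have h : ∃ d, nm d ≤ N + 1 ∧ pr d = pr c := ⟨c, hc, rfl⟩
    simp only [φ, dif_pos h]
    congr 1
    apply cnt_congr
    intro k hk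
    obtain ⟨h1, h2⟩ := h.choose_spec
    by_contra hne
    have h3 := uniq0 (h.choose + -c) (K - 1) (by rw [pr_add, pr_neg, h2]; ring) (by
      have := nm_add h.choose (-c)
      rw [nm_neg] at this
      omega) k (by
      rw [Finsupp.mem_support_iff, Finsupp.add_apply, Finsupp.neg_apply]
      intro h4; exact hne (by linarith))
    omega
  refine ⟨φ, hφ1, ?_, fun c hc => ?_⟩
  · have := hφ 0 (by simp [nm]; positivity)
    simpa [pr, cnt] using this
  have hstep : ∀ k (v : ℤ), |v| = 1 → φ (pr c + v * g k) = z ^ cnt K (c + Finsupp.single k v) := by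
    intro k v hv
    rw [← hφ, pr_add, pr_single]
    have := nm_add c (Finsupp.single k v)
    rw [nm_single] at this
    omega
  let u : ℕ → ℂ := fun k => if k < K then 1 else z
  have hu : ∀ k, ‖u k‖ ≤ 1 := by
    intro k; simp only [u]; split_ifs
    · simp
    · exact hz
  have hbu : ∑' k, (b k : ℂ) * u k = 1 / 4 - τ K / 4 + τ K / 4 * z := by
    rw [← (summ_b u hu).sum_add_tsum_nat_add K]
    have e1 : ∑ i ∈ range K, (b i : ℂ) * u i = ∑ i ∈ range K, (b i : ℂ) :=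
      sum_congr rfl fun i hi => by simp [u, mem_range.1 hi]
    have e2 : HasSum (fun k => (b (k + K) : ℂ)) (τ K / 4) := by
      simpa using Complex.hasSum_ofReal.2 (hasSum_b K)
    have e3 : ∑' k, (b (k + K) : ℂ) * u (k + K) = τ K / 4 * z := by
      rw [← (e2.mul_right z).tsum_eq]
      exact tsum_congr fun k => by simp [u]
    have e4 := hasSum_bC.summable.sum_add_tsum_nat_add K
    rw [e2.tsum_eq, hasSum_bC.tsum_eq] at e4
    rw [e1, e3, ← e4]; ring
  have s1 := summ_b (fun k => φ (pr c + g k)) fun k => hφ1 _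
  have s2 := summ_b (fun k => φ (pr c + - g k)) fun k => hφ1 _
  have s3 := (summ_b u hu).mul_right (2 * φ (pr c))
  have e : ∑' i, (p i : ℂ) * φ (pr c + i) - (1 - τ K / 2 + τ K / 2 * z) * φ (pr c) =
      ∑' k, ((b k : ℂ) * φ (pr c + g k) + (b k : ℂ) * φ (pr c + - g k)
        - (b k : ℂ) * u k * (2 * φ (pr c))) := by
    rw [(hasSum_p (fun i => φ (pr c + i)) fun i => hφ1 _).tsum_eq, (s1.add s2).tsum_sub s3,
      s1.tsum_add s2, tsum_mul_right, hbu, add_zero]
    ring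
  rw [e, tsum_eq_sum (s := c.support.filter (K ≤ ·))]
  · refine (norm_sum_le _ _).trans ((sum_le_card_nsmul _ _ (4 * τ K ^ 3) ?_).trans ?_)
    · intro k hk
      have b1 : b k ≤ τ K ^ 3 := (b_le k).trans
        (pow_le_pow_left₀ (τ_pos k).le (τ_anti.antitone (mem_filter.1 hk).2) 3)
      have b2 : (b k : ℂ) * φ (pr c + g k) + (b k : ℂ) * φ (pr c + - g k)
          - (b k : ℂ) * u k * (2 * φ (pr c)) =
          (b k : ℂ) * (φ (pr c + g k) + φ (pr c + - g k) - 2 * (u k * φ (pr c))) := by ring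
      have b3 : ‖φ (pr c + g k) + φ (pr c + - g k) - 2 * (u k * φ (pr c))‖ ≤ 4 := by
        refine (norm_sub_le _ _).trans ?_
        have c1 := norm_add_le (φ (pr c + g k)) (φ (pr c + - g k))
        have c2 : ‖u k * φ (pr c)‖ ≤ 1 := by
          rw [norm_mul]; exact mul_le_one₀ (hu k) (norm_nonneg _) (hφ1 _)
        rw [norm_mul, Complex.norm_ofNat]
        linarith [hφ1 (pr c + g k), hφ1 (pr c + - g k)]
      rw [b2, norm_mul, Complex.norm_real, Real.norm_of_nonneg (b_pos k).le]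
      nlinarith [b_pos k, norm_nonneg (φ (pr c + g k) + φ (pr c + - g k) - 2 * (u k * φ (pr c)))]
    · rw [nsmul_eq_mul]
      have c1 : ((c.support.filter (K ≤ ·)).card : ℤ) ≤ N :=
        le_trans (by exact_mod_cast card_filter_le _ _) ((card_le_nm c).trans hc)
      have c2 : ((c.support.filter (K ≤ ·)).card : ℝ) ≤ N := by exact_mod_cast c1
      have c3 := pow_pos (τ_pos K) 3
      nlinarith
  · intro k hk
    have d1 := hstep k 1 (by simp)
    have d2 := hstep k (-1) (by simp)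
    rw [one_mul] at d1
    rw [neg_one_mul] at d2
    rw [d1, d2, hφ c (by omega)]
    by_cases hK : k < K
    · have : ∀ v : ℤ, cnt K (c + Finsupp.single k v) = cnt K c := fun v =>
        cnt_congr K fun i hi => by
          rw [Finsupp.add_apply, Finsupp.single_eq_of_ne (by omega), add_zero]
      simp only [this, u, if_pos hK]
      ring
    · have hc' : k ∉ c.support := fun h => hk (mem_filter.2 ⟨h, by omega⟩)
      rw [cnt_add K (by omega) hc' (by norm_num), cnt_add K (by omega) hc' (by norm_num)]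
      simp only [u, if_neg hK]
      ring

noncomputable def cv (f : ℤ → ℝ) : ℤ → ℝ := fun m => ∑' j : ℤ, f j * p (m - j)
noncomputable def it (n : ℕ) : ℤ → ℝ := cv^[n] (fun m => if m = 0 then (1 : ℝ) else 0)

def sh : ℤ × ℤ ≃ ℤ × ℤ where
  toFun x := (x.2, x.1 - x.2)
  invFun x := (x.1 + x.2, x.1)
  left_inv x := by simp
  right_inv x := by simp

lemma cv_summ {f : ℤ → ℝ} (h0 : ∀ i, 0 ≤ f i) (hs : Summable f) : Summable (cv f) := by
  have h := hs.mul_of_nonneg hasSum_p1.summable h0 p_nonneg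
  rw [← sh.summable_iff] at h
  exact h.prod

lemma cv_test {f : ℤ → ℝ} (h0 : ∀ i, 0 ≤ f i) (hs : Summable f) (φ : ℤ → ℂ)
    (hφ : ∀ i, ‖φ i‖ ≤ 1) :
    ∑' m, (cv f m : ℂ) * φ m = ∑' j, (f j : ℂ) * ∑' i, (p i : ℂ) * φ (j + i) := by
  have h := hs.mul_of_nonneg hasSum_p1.summable h0 p_nonneg
  have hC : Summable fun x : ℤ × ℤ => (f x.1 : ℂ) * ((p x.2 : ℂ) * φ (x.1 + x.2)) := by
    refine Summable.of_norm_bounded h fun x => ?_
    rw [norm_mul, norm_mul, Complex.norm_real, Complex.norm_real, Real.norm_of_nonneg (h0 _),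
      Real.norm_of_nonneg (p_nonneg _)]
    exact mul_le_mul_of_nonneg_left (mul_le_of_le_one_right (p_nonneg _) (hφ _)) (h0 _)
  have e1 := hC.tsum_prod
  have hC' := sh.summable_iff.2 hC
  have e2 := hC'.tsum_prod
  have e3 := sh.tsum_eq fun x : ℤ × ℤ => (f x.1 : ℂ) * ((p x.2 : ℂ) * φ (x.1 + x.2))
  simp only [tsum_mul_left] at e1
  rw [← e1, ← e3]
  refine Eq.trans ?_ e2.symm
  refine tsum_congr fun m => ?_
  unfold cv
  push_cast
  rw [← tsum_mul_right]
  refine tsum_congr fun j => ?_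
  simp [sh, mul_assoc]

lemma it_succ (n : ℕ) : it (n + 1) = cv (it n) := Function.iterate_succ_apply' _ _ _

lemma it_facts (n : ℕ) : (∀ i, 0 ≤ it n i) ∧ HasSum (it n) 1 ∧
    ∀ i, it n i ≠ 0 → ∃ c, nm c ≤ n ∧ pr c = i := by
  induction n with
  | zero =>
    refine ⟨fun i => ?_, ?_, fun i hi => ⟨0, by simp [nm], ?_⟩⟩
    · simp only [it, Function.iterate_zero, id]; split_ifs <;> norm_num
    · exact hasSum_ite_eq 0 1
    · simp only [it, Function.iterate_zero, id] at hi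
      by_contra hne
      exact hi (if_neg fun h => hne (by simp [pr, h]))
  | succ n ih =>
    obtain ⟨h0, h1, h2⟩ := ih
    rw [it_succ]
    refine ⟨fun i => tsum_nonneg fun j => mul_nonneg (h0 _) (p_nonneg _), ?_, fun i hi => ?_⟩
    · have a1 := cv_summ h0 h1.summable
      have a2 := cv_test h0 h1.summable (fun _ => 1) (fun _ => by simp)
      simp only [mul_one] at a2
      rw [← Complex.ofReal_tsum, ← Complex.ofReal_tsum, hasSum_p1.tsum_eq] at a2
      simp only [Complex.ofReal_one, mul_one] at a2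
      rw [← Complex.ofReal_tsum, h1.tsum_eq] at a2
      have a3 : ∑' m, cv (it n) m = 1 := by exact_mod_cast a2
      exact a3 ▸ a1.hasSum
    · have : ∃ j, it n j * p (i - j) ≠ 0 := by
        by_contra hn
        push Not at hn
        exact hi (by simp [cv, hn])
      obtain ⟨j, hj⟩ := this
      obtain ⟨c, c1, c2⟩ := h2 j (left_ne_zero_of_mul hj)
      have key : ∀ k (v : ℤ), |v| = 1 → i - j = v * g k → ∃ c, nm c ≤ (n + 1 : ℕ) ∧ pr c = i := by
        intro k v hv hk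
        refine ⟨c + Finsupp.single k v, ?_, by rw [pr_add, pr_single]; linarith⟩
        have := nm_add c (Finsupp.single k v)
        rw [nm_single] at this
        push_cast; omega
      rcases p_supp (right_ne_zero_of_mul hj) with h | ⟨k, h | h⟩
      · exact ⟨c, by push_cast; omega, by omega⟩
      · exact key k 1 (by simp) (by rw [h]; ring)
      · exact key k (-1) (by simp) (by rw [h]; ring)

lemma summ_it (n : ℕ) (φ : ℤ → ℂ) (hφ : ∀ i, ‖φ i‖ ≤ 1) :
    Summable fun m => (it n m : ℂ) * φ m := by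
  refine Summable.of_norm_bounded (it_facts n).2.1.summable fun m => ?_
  rw [norm_mul, Complex.norm_real, Real.norm_of_nonneg ((it_facts n).1 m)]
  exact mul_le_of_le_one_right ((it_facts n).1 m) (hφ m)

lemma lower (N : ℕ) (φ : ℤ → ℂ) (hφ : ∀ i, ‖φ i‖ ≤ 1) (h0 : φ 0 = 1) (l : ℂ) (hl : ‖l‖ ≤ 1)
    (ε : ℝ) (hε : 0 ≤ ε)
    (h : ∀ c, nm c ≤ N → ‖∑' i, (p i : ℂ) * φ (pr c + i) - l * φ (pr c)‖ ≤ ε) :
    ‖1 - l‖ * (‖l‖ ^ N - N * ε) - ε ≤ ∑' k, |it N k - it (N + 1) k| := by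
  let E : ℕ → ℂ := fun n => ∑' m, (it n m : ℂ) * φ m
  have hstep : ∀ n ≤ N, ‖E (n + 1) - l * E n‖ ≤ ε := by
    intro n hn
    obtain ⟨a0, a1, a2⟩ := it_facts n
    have hP : ∀ j, ‖∑' i, (p i : ℂ) * φ (j + i)‖ ≤ 1 := by
      intro j
      refine tsum_of_norm_bounded hasSum_p1 fun i => ?_
      rw [norm_mul, Complex.norm_real, Real.norm_of_nonneg (p_nonneg _)]
      exact mul_le_of_le_one_right (p_nonneg _) (hφ _)
    have e : E (n + 1) - l * E n =
        ∑' j, ((it n j : ℂ) * (∑' i, (p i : ℂ) * φ (j + i)) - l * ((it n j : ℂ) * φ j)) := by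
      rw [(summ_it n _ hP).tsum_sub ((summ_it n φ hφ).mul_left l), tsum_mul_left]
      simp only [E]
      rw [it_succ, cv_test a0 a1.summable φ hφ]
    rw [e]
    have := a1.mul_right ε
    rw [one_mul] at this
    refine tsum_of_norm_bounded this fun j => ?_
    by_cases hj : it n j = 0
    · simp [hj]
    · obtain ⟨c, c1, rfl⟩ := a2 j hj
      rw [mul_left_comm, ← mul_sub, norm_mul, Complex.norm_real, Real.norm_of_nonneg (a0 _)]
      exact mul_le_mul_of_nonneg_left (h c (by omega)) (a0 _)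
  have hE : ∀ n ≤ N, ‖E n - l ^ n‖ ≤ n * ε := by
    intro n hn
    induction n with
    | zero =>
      have : E 0 = 1 := by
        simp only [E, it, Function.iterate_zero, id]
        rw [tsum_eq_single 0 (fun m hm => by simp [hm])]
        simp [h0]
      simp [this]
    | succ n ih =>
      have e : E (n + 1) - l ^ (n + 1) = (E (n + 1) - l * E n) + l * (E n - l ^ n) := by ring
      rw [e]
      refine (norm_add_le _ _).trans ?_
      rw [norm_mul]
      have b1 := hstep n (by omega)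
      have b2 := ih (by omega)
      have b3 := mul_le_of_le_one_left (norm_nonneg (E n - l ^ n)) hl
      push_cast
      linarith
  have h1 : ‖E N - E (N + 1)‖ ≤ ∑' k, |it N k - it (N + 1) k| := by
    simp only [E]
    rw [← (summ_it N φ hφ).tsum_sub (summ_it (N + 1) φ hφ)]
    refine tsum_of_norm_bounded
      ((it_facts N).2.1.summable.sub (it_facts (N + 1)).2.1.summable).abs.hasSum fun m => ?_
    rw [← sub_mul, norm_mul, ← Complex.ofReal_sub, Complex.norm_real, Real.norm_eq_abs]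
    exact mul_le_of_le_one_right (abs_nonneg _) (hφ m)
  have h2 : ‖l‖ ^ N - N * ε ≤ ‖E N‖ := by
    have := norm_sub_norm_le (l ^ N) (E N)
    rw [norm_sub_rev, norm_pow] at this
    linarith [hE N le_rfl]
  have h3 : ‖1 - l‖ * ‖E N‖ ≤ ‖E N - E (N + 1)‖ + ε := by
    rw [← norm_mul, show (1 - l) * E N = (E N - E (N + 1)) + (E (N + 1) - l * E N) by ring]
    exact (norm_add_le _ _).trans (by linarith [hstep N le_rfl])
  have h4 := mul_le_mul_of_nonneg_left h2 (norm_nonneg (1 - l))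
  linarith

lemma unbounded (D : ℕ) (hD : 1 ≤ D) : ∃ N : ℕ,
    (D : ℝ) / 8 - 1 / 4 ≤ N * ∑' k, |it N k - it (N + 1) k| := by
  obtain ⟨M, hM⟩ : ∃ M, M = 16 * D ^ 4 := ⟨_, rfl⟩
  have hD2 : 1 ≤ D ^ 2 := Nat.one_le_pow _ _ hD
  have hM1 : 16 ≤ M := by rw [hM]; have := Nat.one_le_pow 4 D hD; omega
  have hK : 2 * (D ^ 2 * M + 1) + 1 ≤ M ^ 2 := by
    have a1 : M ^ 2 = 16 * (D ^ 2 * (D ^ 2 * M)) := by rw [pow_two M]; nth_rewrite 1 [hM]; ring
    have a2 : D ^ 2 * M ≤ D ^ 2 * (D ^ 2 * M) := Nat.le_mul_of_pos_left _ (by omega)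
    have a3 : M ≤ D ^ 2 * M := Nat.le_mul_of_pos_left _ (by omega)
    omega
  have hDR : (1 : ℝ) ≤ D := by exact_mod_cast hD
  have hMR : (16 : ℝ) ≤ M := by exact_mod_cast hM1
  have hMR' : (M : ℝ) = 16 * D ^ 4 := by exact_mod_cast hM
  have hτ : τ (M ^ 2 - 1) = 1 / M := by
    unfold τ
    rw [Nat.cast_sub (by omega)]
    push_cast
    rw [sub_add_cancel, Real.sqrt_sq (by positivity)]
  set δ : ℝ := 1 / D with hδ
  have hδ0 : 0 < δ := by positivity
  have hδ1 : δ ≤ 1 := by rw [hδ, div_le_one (by positivity)]; exact hDR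
  set w : ℝ := 1 / (2 * M) with hw
  have hw0 : 0 < w := by positivity
  have hw1 : w ≤ 1 := by rw [hw, div_le_one (by positivity)]; linarith
  have hz : ‖(⟨1 - δ ^ 2, δ⟩ : ℂ)‖ ≤ 1 := by
    rw [← sq_le_one_iff₀ (norm_nonneg _), Complex.sq_norm, Complex.normSq_mk]
    nlinarith [mul_pos hδ0 hδ0, pow_le_one₀ hδ0.le hδ1 (n := 2)]
  obtain ⟨φ, h1, h2, h3⟩ := exists_test (M ^ 2 - 1) (D ^ 2 * M) (by omega) _ hz
  have hl : (1 - (τ (M ^ 2 - 1) : ℂ) / 2 + τ (M ^ 2 - 1) / 2 * (⟨1 - δ ^ 2, δ⟩ : ℂ)) =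
      (⟨1 - w * δ ^ 2, w * δ⟩ : ℂ) := by
    have e : (τ (M ^ 2 - 1) : ℂ) / 2 = (w : ℂ) := by
      rw [hτ, hw]; push_cast; ring
    rw [e]
    apply Complex.ext <;> simp
    ring
  rw [hl, hτ] at h3
  have hd2 : δ ^ 2 ≤ 1 := pow_le_one₀ hδ0.le hδ1
  have hd3 : 0 < δ ^ 2 := by positivity
  have hl1 : ‖(⟨1 - w * δ ^ 2, w * δ⟩ : ℂ)‖ ≤ 1 := by
    rw [← sq_le_one_iff₀ (norm_nonneg _), Complex.sq_norm, Complex.normSq_mk]
    have : w * δ ^ 2 + w ≤ 2 := by nlinarith
    nlinarith [mul_pos hw0 hd3]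
  have h4 := lower (D ^ 2 * M) φ h1 h2 _ hl1 _ (by positivity) h3
  refine ⟨D ^ 2 * M, le_trans ?_ (mul_le_mul_of_nonneg_left h4 (by positivity))⟩
  have b1 : w * δ ≤ ‖1 - (⟨1 - w * δ ^ 2, w * δ⟩ : ℂ)‖ := by
    refine le_trans ?_ (Complex.abs_im_le_norm _)
    simp [abs_of_pos hw0, abs_of_pos hδ0]
  have b2 : 1 - w * δ ^ 2 ≤ ‖(⟨1 - w * δ ^ 2, w * δ⟩ : ℂ)‖ := Complex.re_le_norm ⟨_, _⟩
  have b3 : 0 ≤ 1 - w * δ ^ 2 := by nlinarith
  have b4 := one_add_mul_le_pow (a := -(w * δ ^ 2)) (by nlinarith) (D ^ 2 * M)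
  have b5 : ((D ^ 2 * M : ℕ) : ℝ) * (w * δ ^ 2) = 1 / 2 := by
    rw [hw, hδ]; push_cast; field_simp
  have b6 : 1 / 2 ≤ ‖(⟨1 - w * δ ^ 2, w * δ⟩ : ℂ)‖ ^ (D ^ 2 * M) := by
    refine le_trans ?_ (pow_le_pow_left₀ b3 b2 _)
    rw [sub_eq_add_neg]
    linarith
  have b7 : ((D ^ 2 * M : ℕ) : ℝ) * (4 * ((D ^ 2 * M : ℕ) : ℝ) * (1 / M) ^ 3) = 1 / 4 := by
    push_cast; field_simp; rw [hMR']; ring
  have b8 : ((D ^ 2 * M : ℕ) : ℝ) * (w * δ) = D / 2 := by
    rw [hw, hδ]; push_cast; field_simp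
  rw [b7, mul_sub, b7]
  have b9 : w * δ * (1 / 4) ≤ ‖1 - (⟨1 - w * δ ^ 2, w * δ⟩ : ℂ)‖ *
      (‖(⟨1 - w * δ ^ 2, w * δ⟩ : ℂ)‖ ^ (D ^ 2 * M) - 1 / 4) :=
    mul_le_mul b1 (by linarith) (by norm_num) (norm_nonneg _)
  have b10 := mul_le_mul_of_nonneg_left b9 (Nat.cast_nonneg (α := ℝ) (D ^ 2 * M))
  rw [← mul_assoc, b8] at b10
  linarith

/-- The negation of the preceding statement: For every probability measure on the integers whose Fourier transform has modulus below 1 off 0 mod 2π: the bound ∣1−μ̂(t)∣ ≤ C(1−∣μ̂(t)∣) holds iff n·‖μ^n − μ^(n+1)‖ in ℓ¹ stays bounded. -/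
theorem result :
    ¬ (∀ p : ℤ → ℝ, (∀ n, 0 ≤ p n) → Summable p → ∑' n, p n = 1 →
      (∀ t : ℝ, t ∈ Set.Ioo 0 (2 * Real.pi) →
        ‖∑' n : ℤ, (p n : ℂ) * Complex.exp (Complex.I * (t : ℂ) * (n : ℂ))‖ < 1) →
      ((∃ C : ℝ, ∀ t : ℝ, t ∈ Set.Ioo 0 (2 * Real.pi) →
          ‖1 - ∑' n : ℤ, (p n : ℂ) * Complex.exp (Complex.I * (t : ℂ) * (n : ℂ))‖
            ≤ C * (1 - ‖∑' n : ℤ, (p n : ℂ) * Complex.exp (Complex.I * (t : ℂ) * (n : ℂ))‖)) ↔
       (∃ C : ℝ, ∀ n : ℕ,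
          (n : ℝ) * ∑' k : ℤ,
            |((fun f : ℤ → ℝ => fun m : ℤ => ∑' j : ℤ, f j * p (m - j))^[n]
                (fun m : ℤ => if m = 0 then (1 : ℝ) else 0)) k
              - ((fun f : ℤ → ℝ => fun m : ℤ => ∑' j : ℤ, f j * p (m - j))^[n + 1]
                (fun m : ℤ => if m = 0 then (1 : ℝ) else 0)) k| ≤ C))) := by
  intro H
  have h := (H p p_nonneg hasSum_p1.summable hasSum_p1.tsum_eq (by
    intro t ht
    obtain ⟨r, h0, h1, h2⟩ := fourier t ht
    rwa [h2, Complex.norm_real, Real.norm_of_nonneg h0])).1 ⟨1, by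
    intro t ht
    obtain ⟨r, h0, h1, h2⟩ := fourier t ht
    rw [h2, Complex.norm_real, Real.norm_of_nonneg h0, ← Complex.ofReal_one, ← Complex.ofReal_sub,
      Complex.norm_real, Real.norm_of_nonneg (by linarith), one_mul]⟩
  obtain ⟨C, hC⟩ := h
  obtain ⟨D, hD⟩ := exists_nat_gt (8 * C + 2)
  obtain ⟨N, hN⟩ := unbounded (D + 1) (by omega)
  have := hN.trans (hC N)
  push_cast at this
  linarith

end Pool.Agent.S04016
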