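import Pool.Statements.S04054

set_option autoImplicit false
open Pool Pool.MP_22f2dc_an

namespace Pool.Agent.S04054

open MeasureTheory

abbrev E2 := EuclideanSpace ℝ (Fin 2)

/-- positive part -/
def p (t : ℝ) : ℝ := max t 0

lemma p_cont : Continuous p := continuous_id.max continuous_const

lemma p_mul (t : ℝ) : t * p t = p t ^ 2 := by
  unfold p
  rcases le_total t 0 with h | h
  · simp [h]
  · simp [h, sq]

lemma p2 (t : ℝ) : HasDerivAt (fun s => p s ^ 2) (2 * p t) t := by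
  rcases lt_trichotomy t 0 with h | h | h
  · have h1 : (fun s => p s ^ 2) =ᶠ[nhds t] fun _ => 0 := by
      filter_upwards [Iio_mem_nhds h] with s hs
      simp [p, le_of_lt (Set.mem_Iio.1 hs)]
    have h2 : 2 * p t = 0 := by simp [p, h.le]
    rw [h2]
    exact (hasDerivAt_const t 0).congr_of_eventuallyEq h1
  · subst h
    rw [hasDerivAt_iff_isLittleO_nhds_zero]
    refine Asymptotics.IsBigO.trans_isLittleO ?_
      (Asymptotics.isLittleO_pow_id (𝕜 := ℝ) (n := 2) (by norm_num))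
    refine Asymptotics.IsBigO.of_bound 1 (Filter.Eventually.of_forall fun s => ?_)
    rcases le_total s 0 with h | h
    · simp [p, h, sq_nonneg]
    · simp [p, h]
  · have h1 : (fun s => p s ^ 2) =ᶠ[nhds t] fun s => s ^ 2 := by
      filter_upwards [Ioi_mem_nhds h] with s hs
      simp [p, le_of_lt (Set.mem_Ioi.1 hs)]
    have h2 : 2 * p t = ((2 : ℕ) : ℝ) * t ^ (2 - 1) := by simp [p, h.le]
    rw [h2]
    exact (hasDerivAt_pow 2 t).congr_of_eventuallyEq h1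

lemma cv {f g : ℝ → ℝ} {a b x : ℝ} (h : HasDerivAt f a x) (hf : ∀ t, g t = f t) (ha : b = a) :
    HasDerivAt g b x := by
  rw [ha, funext hf]
  exact h

lemma p3 (t : ℝ) : HasDerivAt (fun s => p s ^ 3) (3 * p t ^ 2) t := by
  have h := (hasDerivAt_id t).mul (p2 t)
  refine cv h (fun s => ?_) ?_
  · have := p_mul s
    simp only [Pi.mul_apply, id]
    linear_combination (-p s) * this
  · have := p_mul t
    simp only [id]
    linear_combination (-2) * this

lemma p4 (t : ℝ) : HasDerivAt (fun s => p s ^ 4) (4 * p t ^ 3) t := by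
  have h := (p2 t).mul (p2 t)
  refine cv h (fun s => ?_) ?_
  · simp only [Pi.mul_apply]
    ring
  · ring

lemma p4_c1 : ContDiff ℝ 1 fun s => p s ^ 4 := by
  rw [contDiff_one_iff_deriv]
  refine ⟨fun t => (p4 t).differentiableAt, ?_⟩
  have : deriv (fun s => p s ^ 4) = fun t => 4 * p t ^ 3 := funext fun t => (p4 t).deriv
  rw [this]
  exact continuous_const.mul (p_cont.pow 3)

lemma ibp (F G ψ : E2 → ℝ) (hF : Continuous F) (hG : Continuous G) (e : E2)
    (h : ∀ x, HasLineDerivAt ℝ F (G x) x e)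
    (hψ : ContDiff ℝ ((⊤ : ℕ∞) : WithTop ℕ∞) ψ) (hc : HasCompactSupport ψ) :
    Integrable (fun x => F x * fderiv ℝ ψ x e) ∧
      ∫ x, F x * fderiv ℝ ψ x e = - ∫ x, G x * ψ x := by
  have h1 : Continuous fun x => fderiv ℝ ψ x e :=
    (hψ.continuous_fderiv (by simp)).clm_apply continuous_const
  have h2 : HasCompactSupport fun x => fderiv ℝ ψ x e := hc.fderiv_apply ℝ e
  have i1 : Integrable (fun x => F x * fderiv ℝ ψ x e) :=
    (hF.mul h1).integrable_of_hasCompactSupport h2.mul_left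
  have i2 : Integrable (fun x => G x * ψ x) :=
    (hG.mul hψ.continuous).integrable_of_hasCompactSupport hc.mul_left
  have i3 : Integrable (fun x => F x * ψ x) :=
    (hF.mul hψ.continuous).integrable_of_hasCompactSupport hc.mul_left
  refine ⟨i1, ?_⟩
  exact integral_bilinear_hasLineDerivAt_right_eq_neg_left_of_integrable
    (B := ContinuousLinearMap.mul ℝ ℝ) i2 i1 i3 (fun x _ => h x)
    (fun x _ => ((hψ.differentiable (by simp)) x).hasFDerivAt.hasLineDerivAt e)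

lemma weak (F1 F2 G ψ : E2 → ℝ) (h1 : Continuous F1) (h2 : Continuous F2) (hG : Continuous G)
    (d1 : ∀ x, HasLineDerivAt ℝ F1 (G x) x (EuclideanSpace.single 0 1))
    (d2 : ∀ x, HasLineDerivAt ℝ F2 (-G x) x (EuclideanSpace.single 1 1))
    (hψ : ContDiff ℝ ((⊤ : ℕ∞) : WithTop ℕ∞) ψ) (hc : HasCompactSupport ψ) :
    ∫ x, (F1 x * fderiv ℝ ψ x (EuclideanSpace.single 0 1) +
      F2 x * fderiv ℝ ψ x (EuclideanSpace.single 1 1)) = 0 := by
  obtain ⟨i1, e1⟩ := ibp F1 G ψ h1 hG _ d1 hψ hc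
  obtain ⟨i2, e2⟩ := ibp F2 (fun x => -G x) ψ h2 hG.neg _ d2 hψ hc
  rw [integral_add i1 i2, e1, e2]
  simp [integral_neg]

/-- the coefficient matrix -/
noncomputable def A (x : E2) : Matrix (Fin 2) (Fin 2) ℝ :=
  !![1, -p (x 0) ^ 2 / 4; -p (x 0) ^ 2 / 4, 1 + x 1 * p (x 0) / 2]

noncomputable def v (x : E2) : ℝ := x 0 * x 1 + p (x 0) ^ 4 / 24

lemma pr (i : Fin 2) (x : E2) :
    HasFDerivAt (fun y : E2 => y i) (EuclideanSpace.proj i : E2 →L[ℝ] ℝ) x :=
  (EuclideanSpace.proj i : E2 →L[ℝ] ℝ).hasFDerivAt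

lemma v_der (x w : E2) : fderiv ℝ v x w = (x 1 + p (x 0) ^ 3 / 6) * w 0 + x 0 * w 1 := by
  have h1 := ((pr 0 x).mul (pr 1 x)).add
    (((p4 (x 0)).comp_hasFDerivAt x (pr 0 x)).mul_const (1 / 24))
  have h2 : v = (fun y : E2 => y 0) * (fun y : E2 => y 1) +
      fun y => ((fun s => p s ^ 4) ∘ fun y : E2 => y 0) y * (1 / 24) := by
    funext y
    simp [v, div_eq_mul_inv]
  rw [h2, h1.fderiv]
  simp
  ring

lemma coord_lt {x : E2} (hx : x ∈ Metric.ball (0 : E2) 1) (i : Fin 2) : |x i| < 1 := by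
  have := PiLp.norm_apply_le x i
  rw [mem_ball_zero_iff] at hx
  exact lt_of_le_of_lt this hx

lemma p_bd {t : ℝ} (ht : |t| < 1) : 0 ≤ p t ∧ p t ≤ 1 :=
  ⟨le_max_right _ _, max_le (abs_lt.1 ht).2.le zero_le_one⟩

lemma half_mem (i : Fin 2) (c : ℝ) (hc : |c| < 1) :
    (EuclideanSpace.single i c : E2) ∈ Metric.ball (0 : E2) 1 := by
  simpa using hc

/-- The negation of the preceding statement: Take nonconstant C1 weak solutions u, v of div(A grad u)=0 on a connected open set in R^n, n≥2, with A symmetric, uniformly elliptic and Lipschitz. If u vanishes on a connected smooth hypersurface S and v on a nonempty open proper piece of S, then v vanishes on all of S. -/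
theorem result :
    ¬ (∀ (n : ℕ), 2 ≤ n →
  ∀ (Ω : Set (EuclideanSpace ℝ (Fin n))), IsOpen Ω → IsConnected Ω →
  ∀ (A : EuclideanSpace ℝ (Fin n) → Matrix (Fin n) (Fin n) ℝ) (K E : ℝ), 0 < K →
    (∀ x ∈ Ω, ∀ i j, A x i j = A x j i) →
    (∀ x ∈ Ω, ∀ ξ : EuclideanSpace ℝ (Fin n),
        K⁻¹ * ‖ξ‖ ^ 2 ≤ ∑ i, ∑ j, A x i j * ξ i * ξ j ∧
        ∑ i, ∑ j, A x i j * ξ i * ξ j ≤ K * ‖ξ‖ ^ 2) →
    (∀ x ∈ Ω, ∀ y ∈ Ω, ∀ i j, |A x i j - A y i j| ≤ E * dist x y) →
  ∀ (u v : EuclideanSpace ℝ (Fin n) → ℝ),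
    ContDiffOn ℝ 1 u Ω → ContDiffOn ℝ 1 v Ω →
    (¬ ∃ c : ℝ, ∀ x ∈ Ω, u x = c) →
    (¬ ∃ c : ℝ, ∀ x ∈ Ω, v x = c) →
    (∀ φ : EuclideanSpace ℝ (Fin n) → ℝ,
        ContDiff ℝ ((⊤ : ℕ∞) : WithTop ℕ∞) φ → HasCompactSupport φ → tsupport φ ⊆ Ω →
        ∫ x, ∑ i, ∑ j, A x i j * fderiv ℝ u x (EuclideanSpace.single j 1)
            * fderiv ℝ φ x (EuclideanSpace.single i 1) = 0) →
    (∀ φ : EuclideanSpace ℝ (Fin n) → ℝ,
        ContDiff ℝ ((⊤ : ℕ∞) : WithTop ℕ∞) φ → HasCompactSupport φ → tsupport φ ⊆ Ω →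
        ∫ x, ∑ i, ∑ j, A x i j * fderiv ℝ v x (EuclideanSpace.single j 1)
            * fderiv ℝ φ x (EuclideanSpace.single i 1) = 0) →
  ∀ (S Sig : Set (EuclideanSpace ℝ (Fin n))),
    S ⊆ Ω → IsConnected S →
    (∀ p ∈ S, ∃ (U : Set (EuclideanSpace ℝ (Fin n))) (f : EuclideanSpace ℝ (Fin n) → ℝ),
        IsOpen U ∧ p ∈ U ∧ ContDiff ℝ ((⊤ : ℕ∞) : WithTop ℕ∞) f ∧
        (∀ x ∈ U, fderiv ℝ f x ≠ 0) ∧ S ∩ U = {x | x ∈ U ∧ f x = 0}) →
    Sig ⊆ S → Sig.Nonempty → Sig ≠ S →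
    (∃ O : Set (EuclideanSpace ℝ (Fin n)), IsOpen O ∧ Sig = S ∩ O) →
    (∀ x ∈ S, u x = 0) →
    (∀ x ∈ Sig, v x = 0) →
    ∀ x ∈ S, v x = 0) := by
  intro h
  have hc0 : Continuous fun x : E2 => x 0 := by fun_prop
  have hc1 : Continuous fun x : E2 => x 1 := by fun_prop
  have hp0 : Continuous fun x : E2 => p (x 0) := p_cont.comp hc0
  have key := h 2 le_rfl (Metric.ball 0 1) Metric.isOpen_ball
    ((convex_ball _ _).isConnected ⟨0, by simp⟩) A 4 1 (by norm_num) ?_ ?_ ?_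
    (fun x => x 1) v ?_ ?_ ?_ ?_ ?_ ?_ (Metric.ball 0 1 ∩ {x | x 1 = 0})
    (Metric.ball 0 1 ∩ {x | x 1 = 0} ∩ {x | x 0 < 0}) Set.inter_subset_left ?_ ?_
    Set.inter_subset_left ?_ ?_ ⟨_, isOpen_lt hc0 continuous_const, rfl⟩ (fun x hx => hx.2) ?_
    (EuclideanSpace.single 0 (1 / 2)) ⟨half_mem _ _ (by norm_num [abs_lt]), by simp⟩
  all_goals clear h
  · norm_num [v, p] at key
  · intro x _ i j
    fin_cases i <;> fin_cases j <;> simp [A]
  · intro x hx ξ
    obtain ⟨a0, a1⟩ := p_bd (coord_lt hx 0)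
    have hy := abs_lt.1 (coord_lt hx 1)
    have hq : p (x 0) ^ 2 ≤ 1 := by nlinarith
    have hq0 : 0 ≤ p (x 0) ^ 2 := sq_nonneg _
    have hr1 : x 1 * p (x 0) ≤ 1 := by nlinarith
    have hr2 : -1 ≤ x 1 * p (x 0) := by nlinarith
    rw [EuclideanSpace.real_norm_sq_eq]
    simp only [Fin.sum_univ_two, A, Matrix.of_apply, Matrix.cons_val', Matrix.cons_val_zero,
      Matrix.cons_val_one, Matrix.cons_val_fin_one]
    generalize p (x 0) ^ 2 = q at *
    generalize x 1 * p (x 0) = r at *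
    constructor
    · nlinarith [mul_nonneg hq0 (sq_nonneg (ξ 0 - ξ 1)), mul_nonneg (sub_nonneg.2 hq) (sq_nonneg (ξ 0)),
        mul_nonneg (sub_nonneg.2 hq) (sq_nonneg (ξ 1)), mul_nonneg (sub_nonneg.2 hr2) (sq_nonneg (ξ 1)),
        sq_nonneg (ξ 0), sq_nonneg (ξ 1)]
    · nlinarith [mul_nonneg hq0 (sq_nonneg (ξ 0 + ξ 1)), mul_nonneg (sub_nonneg.2 hq) (sq_nonneg (ξ 0)),
        mul_nonneg (sub_nonneg.2 hq) (sq_nonneg (ξ 1)), mul_nonneg (sub_nonneg.2 hr1) (sq_nonneg (ξ 1)),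
        sq_nonneg (ξ 0), sq_nonneg (ξ 1)]
  · intro x hx y hy i j
    obtain ⟨a0, a1⟩ := p_bd (coord_lt hx 0)
    obtain ⟨b0, b1⟩ := p_bd (coord_lt hy 0)
    have hy1 := abs_lt.1 (coord_lt hy 1)
    have hd : ∀ i, |x i - y i| ≤ dist x y := fun i => PiLp.dist_apply_le x y i
    have hd1 := abs_le.1 (hd 1)
    have hd0 := abs_le.1 ((abs_max_sub_max_le_abs (x 0) (y 0) 0).trans (hd 0))
    change -dist x y ≤ p (x 0) - p (y 0) ∧ p (x 0) - p (y 0) ≤ dist x y at hd0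
    have hdn : 0 ≤ dist x y := dist_nonneg
    have e1 : |-p (x 0) ^ 2 / 4 - -p (y 0) ^ 2 / 4| ≤ 1 * dist x y := by
      rw [abs_le]
      constructor <;> nlinarith
    have e2 : |1 + x 1 * p (x 0) / 2 - (1 + y 1 * p (y 0) / 2)| ≤ 1 * dist x y := by
      rw [abs_le]
      constructor
      · nlinarith [mul_nonneg a0 (sub_nonneg.2 hd1.1),
          mul_nonneg (sub_nonneg.2 hd0.1) (sub_nonneg.2 hy1.1.le),
          mul_nonneg (sub_nonneg.2 hd0.2) (sub_nonneg.2 hy1.2.le),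
          mul_nonneg (sub_nonneg.2 a1) hdn]
      · nlinarith [mul_nonneg a0 (sub_nonneg.2 hd1.2),
          mul_nonneg (sub_nonneg.2 hd0.1) (sub_nonneg.2 hy1.2.le),
          mul_nonneg (sub_nonneg.2 hd0.2) (sub_nonneg.2 hy1.1.le),
          mul_nonneg (sub_nonneg.2 a1) hdn]
    fin_cases i <;> fin_cases j
    · simp [A]
    · exact e1
    · exact e1
    · exact e2
  · exact ContDiff.contDiffOn (by fun_prop)
  · refine ContDiff.contDiffOn (ContDiff.add (by fun_prop) (ContDiff.div_const ?_ _))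
    exact p4_c1.comp (by fun_prop)
  · rintro ⟨c, hc⟩
    have h1 := hc 0 (by simp)
    have h2 := hc _ (half_mem 1 (1 / 2) (by norm_num [abs_lt]))
    simp at h1 h2
    linarith
  · rintro ⟨c, hc⟩
    have h1 := hc 0 (by simp)
    have h2 := hc _ (half_mem 0 (1 / 2) (by norm_num [abs_lt]))
    norm_num [v, p] at h1 h2
    linarith
  · intro ψ hψ hc _
    refine Eq.trans (integral_congr_ae (ae_of_all _ fun x => ?_))
      (weak (fun x => -p (x 0) ^ 2 / 4) (fun x => 1 + x 1 * p (x 0) / 2) (fun x => -p (x 0) / 2) ψ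
        (by fun_prop) (by fun_prop) (by fun_prop) (fun x => ?_) (fun x => ?_) hψ hc)
    · simp [(pr 1 x).fderiv, A]
    · have h1 := (((p2 (x 0 + 0)).comp 0 ((hasDerivAt_id (0 : ℝ)).const_add (x 0))).neg).div_const 4
      refine cv h1 (fun t => ?_) ?_
      · simp
      · simp
        ring
    · have h1 := ((((hasDerivAt_id (0 : ℝ)).const_add (x 1)).mul_const (p (x 0))).div_const 2).const_add 1
      refine cv h1 (fun t => ?_) ?_
      · simp
      · ring
  · intro ψ hψ hc _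
    refine Eq.trans (integral_congr_ae (ae_of_all _ fun x => ?_))
      (weak (fun x => x 1 - p (x 0) ^ 3 / 12)
        (fun x => p (x 0) ^ 2 * x 1 / 4 - p (x 0) ^ 5 / 24 + x 0) (fun x => -p (x 0) ^ 2 / 4) ψ
        (by fun_prop) (by fun_prop) (by fun_prop) (fun x => ?_) (fun x => ?_) hψ hc)
    · have h1 := p_mul (x 0)
      simp [v_der, A]
      linear_combination (-p (x 0) / 4 * fderiv ℝ ψ x (EuclideanSpace.single 0 1) +
        x 1 / 2 * fderiv ℝ ψ x (EuclideanSpace.single 1 1)) * h1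
    · have h1 := (((p3 (x 0 + 0)).comp 0 ((hasDerivAt_id (0 : ℝ)).const_add (x 0))).div_const
        12).const_sub (x 1)
      refine cv h1 (fun t => ?_) ?_
      · simp
      · simp
        ring
    · have h1 := (((((hasDerivAt_id (0 : ℝ)).const_add (x 1)).const_mul (p (x 0) ^ 2)).div_const
        4).sub_const (p (x 0) ^ 5 / 24)).add_const (x 0)
      refine cv h1 (fun t => ?_) ?_
      · simp
      · ring
  · refine Convex.isConnected ((convex_ball _ _).inter ?_) ⟨0, by simp⟩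
    intro x hx y hy a b _ _ _
    simp only [Set.mem_ofPred_eq] at hx hy
    simp [hx, hy]
  · intro x hx
    refine ⟨Metric.ball 0 1, fun y => y 1, Metric.isOpen_ball, hx.1, by fun_prop, ?_, ?_⟩
    · intro y _ hy
      have := congrArg (fun L : E2 →L[ℝ] ℝ => L (EuclideanSpace.single 1 1)) hy
      simp [(pr 1 y).fderiv] at this
    · ext y
      simp only [Set.mem_inter_iff, Set.mem_ofPred_eq]
      tauto
  · exact ⟨EuclideanSpace.single 0 (-1 / 2), ⟨half_mem _ _ (by norm_num [abs_lt]), by simp⟩,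
      by norm_num⟩
  · intro hS
    have : (0 : E2) ∈ Metric.ball (0 : E2) 1 ∩ {x | x 1 = 0} ∩ {x | x 0 < 0} := by
      rw [hS]
      simp
    simp at this
  · rintro x ⟨⟨_, h1⟩, h2⟩
    simp only [Set.mem_ofPred_eq] at h1 h2
    simp [v, p, h1, h2.le]

end Pool.Agent.S04054
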