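import Pool.Statements.S04080
-- import your own Pool.Agent.* helpers here

set_option autoImplicit false
open Pool Pool.MP_24fbf1_an

namespace Pool.Agent.S04080

open NormedSpace in
lemma key {R : Type} [CStarAlgebra R] (A B P Q : R) (c : ℂ) (hc : ‖c‖ = 1)
    (hP : P ∈ skewAdjoint R) (hQ : Q ∈ skewAdjoint R) (h1 : A * P = c • 1) (h2 : P * A = c • 1)
    (h3 : B * Q = c • 1) (h4 : Q * B = c • 1) :
    ‖A * exp P * A - B * exp Q * B‖ ≤ (‖A‖ + 1 + ‖B‖) * ‖A - B‖ := by
  letI : NormedAlgebra ℚ R := .restrictScalars ℚ ℂ R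
  have u : ∀ (s : ℝ) (P : R), P ∈ skewAdjoint R → exp (s • P) ∈ unitary R := fun s P hP =>
    exp_mem_unitary_of_mem_skewAdjoint (skewAdjoint.smul_mem s hP)
  have cA : ∀ s : ℝ, A * exp (s • P) = exp (s • P) * A := fun s =>
    (Commute.exp_right (Commute.smul_right (h1.trans h2.symm) s)).eq
  have cB : ∀ s : ℝ, B * exp (s • Q) = exp (s • Q) * B := fun s =>
    (Commute.exp_right (Commute.smul_right (h3.trans h4.symm) s)).eq
  have hF : ∀ s : ℝ, HasDerivAt (fun s : ℝ => A * exp (s • P) * (exp ((1 - s) • Q) * B))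
      (exp (s • P) * (c • (B - A)) * exp ((1 - s) • Q)) s := by
    intro s
    have a1 := (hasDerivAt_exp_smul_const (𝕂 := ℝ) P s).const_mul A
    have a2 := (((hasDerivAt_exp_smul_const' (𝕂 := ℝ) Q (1 - s)).scomp s
      ((hasDerivAt_id s).const_sub 1))).mul_const B
    refine (a1.mul a2).congr_deriv ?_
    simp only [Function.comp, neg_smul, one_smul]
    rw [← cB, ← mul_assoc A, cA, neg_mul, mul_assoc Q, ← cB]
    simp only [mul_assoc, mul_neg]
    rw [← mul_assoc A P, h1, ← mul_assoc Q B, h4]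
    simp only [smul_mul_assoc, one_mul, mul_smul_comm, sub_mul, mul_sub, smul_sub, sub_eq_add_neg,
      add_mul, neg_mul, smul_add, mul_add, smul_neg, mul_neg]
  have hm := norm_image_sub_le_of_norm_deriv_le_segment_01' (C := ‖A - B‖)
    (fun s _ => (hF s).hasDerivWithinAt) (fun s _ => by
      rw [CStarRing.norm_mul_mem_unitary _ (u _ _ hQ), CStarRing.norm_mem_unitary_mul _ (u _ _ hP),
        norm_smul, hc, one_mul, norm_sub_rev])
  simp only [one_smul, sub_self, zero_smul, exp_zero, one_mul, mul_one, sub_zero] at hm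
  have uP := u 1 P hP
  have uQ := u 1 Q hQ
  rw [one_smul] at uP uQ
  have e : A * exp P * A - B * exp Q * B = A * (exp P * (A - B)) +
      (A * exp P * B - A * (exp Q * B)) + (A - B) * exp Q * B := by noncomm_ring
  rw [e]
  have b1 := norm_mul_le A (exp P * (A - B))
  have b2 := norm_mul_le ((A - B) * exp Q) B
  rw [CStarRing.norm_mem_unitary_mul _ uP] at b1
  rw [CStarRing.norm_mul_mem_unitary _ uQ] at b2
  have := norm_add₃_le (a := A * (exp P * (A - B))) (b := A * exp P * B - A * (exp Q * B))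
    (c := (A - B) * exp Q * B)
  nlinarith

noncomputable def f (x : ℝ) : ℝ := x + x * x + x * Real.sin x⁻¹ * x

lemma fd0 : HasDerivAt f 1 0 := by
  have h : HasDerivAt (fun x : ℝ => x * Real.sin x⁻¹ * x) 0 0 := by
    rw [hasDerivAt_iff_tendsto_slope_zero]
    refine squeeze_zero_norm' (a := fun x => ‖x‖) ?_ ?_
    · filter_upwards [self_mem_nhdsWithin] with x hx
      have hx : x ≠ 0 := hx
      have : x⁻¹ • ((0 + x) * Real.sin (0 + x)⁻¹ * (0 + x) - 0 * Real.sin 0⁻¹ * 0) =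
          x * Real.sin x⁻¹ := by simp only [zero_add, smul_eq_mul]; field_simp; ring
      rw [this, norm_mul]
      exact mul_le_of_le_one_right (norm_nonneg _) (Real.abs_sin_le_one _)
    · exact (continuous_norm.tendsto' 0 0 norm_zero).mono_left nhdsWithin_le_nhds
  have := ((hasDerivAt_id (0 : ℝ)).add ((hasDerivAt_id (0 : ℝ)).mul (hasDerivAt_id (0 : ℝ)))).add h
  exact this.congr_deriv (by simp)

lemma fd (x : ℝ) (hx : x ≠ 0) :
    HasDerivAt f (1 - Real.cos x⁻¹ + 2 * x * (1 + Real.sin x⁻¹)) x := by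
  have := ((hasDerivAt_id x).add ((hasDerivAt_id x).mul (hasDerivAt_id x))).add
    (((hasDerivAt_id x).mul (hasDerivAt_inv hx).sin).mul (hasDerivAt_id x))
  refine this.congr_deriv ?_
  simp only [id, Pi.mul_apply]
  field_simp
  ring

lemma fc : Continuous f := continuous_iff_continuousAt.mpr fun x => by
  by_cases h : x = 0
  · rw [h]; exact fd0.continuousAt
  · exact (fd x h).continuousAt

open NormedSpace Complex in
lemma sin_cfc {R : Type} [CStarAlgebra R] (X : R) (hX : IsSelfAdjoint X) :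
    cfc Real.sin X = (I / 2) • (exp ((-I) • X) - exp (I • X)) := by
  have hn : IsStarNormal X := hX.isStarNormal
  rw [← CFC.complex_exp_eq_normedSpace_exp, ← CFC.complex_exp_eq_normedSpace_exp,
    ← cfc_comp_smul (-I) _ X, ← cfc_comp_smul I _ X, ← cfc_sub _ _ X, ← cfc_smul (I / 2) _ X,
    cfc_real_eq_complex Real.sin hX]
  apply cfc_congr
  intro z hz
  have := hX.mem_spectrum_eq_re hz
  simp only [ofReal_sin, ← this, Complex.sin, smul_eq_mul]
  ring_nf

open NormedSpace Complex in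
lemma shift {R : Type} [CStarAlgebra R] (A : R) (hA : IsSelfAdjoint A)
    (hs : spectrum ℝ A ⊆ Set.Icc 0 1) (e : ℝ) (he : 0 < e) (he1 : e ≤ 1) :
    ∃ A' X : R, A' = A + e • 1 ∧ ‖A'‖ ≤ 2 ∧ IsSelfAdjoint X ∧ A' * X = 1 ∧ X * A' = 1 ∧
      cfc (fun x => f (x + e)) A =
        A' + A' * A' + (I / 2) • (A' * exp ((-I) • X) * A' - A' * exp (I • X) * A') := by
  have h0 : ∀ x ∈ spectrum ℝ A, x + e ≠ 0 := fun x hx => by have := (hs hx).1; linarith
  have c1 : ContinuousOn (fun x : ℝ => (x + e)⁻¹) (spectrum ℝ A) :=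
    ContinuousOn.inv₀ (by fun_prop) h0
  have c2 : ContinuousOn (fun x : ℝ => Real.sin (x + e)⁻¹) (spectrum ℝ A) :=
    Real.continuous_sin.comp_continuousOn c1
  refine ⟨cfc (fun x : ℝ => x + e) A, cfc (fun x : ℝ => (x + e)⁻¹) A, ?_, ?_, cfc_predicate _ _,
    ?_, ?_, ?_⟩
  · rw [cfc_add_const e _ A, cfc_id' ℝ A, Algebra.algebraMap_eq_smul_one]
  · refine norm_cfc_le (by norm_num) (fun x hx => ?_)
    have := hs hx
    rw [Real.norm_eq_abs, abs_le]; constructor <;> linarith [this.1, this.2]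
  · rw [← cfc_mul _ _ A, ← cfc_one ℝ A]
    exact cfc_congr (fun x hx => mul_inv_cancel₀ (h0 x hx))
  · rw [← cfc_mul _ _ A, ← cfc_one ℝ A]
    exact cfc_congr (fun x hx => inv_mul_cancel₀ (h0 x hx))
  · rw [← sub_mul, ← mul_sub, ← smul_mul_assoc, ← mul_smul_comm, ← sin_cfc _ (cfc_predicate _ _),
      ← cfc_comp' Real.sin _ A, ← cfc_mul _ _ A, ← cfc_mul _ _ A, ← cfc_mul _ _ A, ← cfc_add A _ _,
      ← cfc_add A _ _]
    rfl

open Complex in
lemma ol {R : Type} [CStarAlgebra R] (A B : R) (hA : IsSelfAdjoint A) (hB : IsSelfAdjoint B)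
    (sA : spectrum ℝ A ⊆ Set.Icc 0 1) (sB : spectrum ℝ B ⊆ Set.Icc 0 1) :
    ‖cfc f A - cfc f B‖ ≤ 10 * ‖A - B‖ := by
  refine le_of_forall_pos_le_add (fun δ hδ => ?_)
  obtain ⟨η, hη, hu⟩ := Metric.uniformContinuousOn_iff.mp
    ((isCompact_Icc (a := (0 : ℝ)) (b := 2)).uniformContinuousOn_of_continuous fc.continuousOn)
    (δ / 2) (by positivity)
  set e := min (η / 2) 1 with he
  have e0 : 0 < e := by positivity
  have e1 : e ≤ 1 := min_le_right _ _
  have e2 : e ≤ η / 2 := min_le_left _ _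
  have cl : ∀ A : R, IsSelfAdjoint A → spectrum ℝ A ⊆ Set.Icc 0 1 →
      ‖cfc f A - cfc (fun x => f (x + e)) A‖ ≤ δ / 2 := fun A hA sA => by
    have := fc
    rw [← cfc_sub _ _ A]
    refine norm_cfc_le (by positivity) (fun x hx => ?_)
    have := sA hx
    refine (hu x ⟨this.1, by linarith [this.2]⟩ (x + e) ⟨by linarith [this.1], by linarith [this.2]⟩
      ?_).le
    rw [Real.dist_eq, abs_lt]; constructor <;> linarith
  obtain ⟨A', X, a1, a2, a3, a4, a5, a6⟩ := shift A hA sA e e0 e1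
  obtain ⟨B', Y, b1, b2, b3, b4, b5, b6⟩ := shift B hB sB e e0 e1
  have hd : A' - B' = A - B := by rw [a1, b1]; abel
  have k : ∀ c : ℂ, ‖c‖ = 1 → c ∈ skewAdjoint ℂ → ‖A' * NormedSpace.exp (c • X) * A' -
      B' * NormedSpace.exp (c • Y) * B'‖ ≤ 5 * ‖A - B‖ := fun c hc hs => by
    refine (key A' B' _ _ c hc (a3.smul_mem_skewAdjoint hs) (b3.smul_mem_skewAdjoint hs)
      (by rw [mul_smul_comm, a4]) (by rw [smul_mul_assoc, a5]) (by rw [mul_smul_comm, b4])
      (by rw [smul_mul_assoc, b5])).trans ?_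
    rw [hd]; gcongr; linarith
  have k1 := k I (by simp) (by simp [skewAdjoint.mem_iff])
  have k2 := k (-I) (by simp) (by simp [skewAdjoint.mem_iff])
  have k3 : ‖A' * A' - B' * B'‖ ≤ 4 * ‖A - B‖ := by
    have : A' * A' - B' * B' = A' * (A - B) + (A - B) * B' := by rw [← hd]; noncomm_ring
    rw [this]
    have n1 := norm_mul_le A' (A - B)
    have n2 := norm_mul_le (A - B) B'
    have n3 := norm_add_le (A' * (A - B)) ((A - B) * B')
    nlinarith [norm_nonneg (A - B)]
  have k4 : ‖cfc (fun x => f (x + e)) A - cfc (fun x => f (x + e)) B‖ ≤ 10 * ‖A - B‖ := by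
    rw [a6, b6]
    generalize A' * NormedSpace.exp (I • X) * A' = p at *
    generalize B' * NormedSpace.exp (I • Y) * B' = q at *
    generalize A' * NormedSpace.exp ((-I) • X) * A' = r at *
    generalize B' * NormedSpace.exp ((-I) • Y) * B' = s at *
    have : A' + A' * A' + (I / 2) • (r - p) - (B' + B' * B' + (I / 2) • (s - q)) =
        (A - B) + (A' * A' - B' * B') + (I / 2) • ((r - s) - (p - q)) := by
      rw [← hd]; simp only [smul_sub]; abel
    rw [this]
    have n1 := norm_add₃_le (a := A - B) (b := A' * A' - B' * B') (c := (I / 2) • ((r - s) - (p - q)))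
    have n2 := norm_sub_le (r - s) (p - q)
    rw [norm_smul, show ‖I / 2‖ = 1 / 2 by simp] at n1
    linarith
  have n1 := cl A hA sA
  have n2 := cl B hB sB
  have : cfc f A - cfc f B = (cfc f A - cfc (fun x => f (x + e)) A) + (cfc (fun x => f (x + e)) A -
    cfc (fun x => f (x + e)) B) - (cfc f B - cfc (fun x => f (x + e)) B) := by abel
  rw [this]
  refine (norm_sub_le _ _).trans ?_
  have n3 := norm_add_le (cfc f A - cfc (fun x => f (x + e)) A) (cfc (fun x => f (x + e)) A -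
    cfc (fun x => f (x + e)) B)
  linarith
/-- The negation of the preceding statement: If f is operator Lipschitz on [a,b] (uniform bound on ‖f(A)−f(B)‖ by C‖A−B‖ for self-adjoint A,B with spectrum in [a,b]) and has nonzero derivative at every point of [a,b], then its inverse is operator Lipschitz on the interval between f(a) and f(b). -/
theorem result :
    ¬ (∀ (f : ℝ → ℝ) (a b : ℝ),
      (ContinuousOn f (Set.Icc a b) ∧
        ∃ C : ℝ, ∀ (H : Type) [NormedAddCommGroup H] [InnerProductSpace ℂ H] [CompleteSpace H],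
          ∀ A B : H →L[ℂ] H, IsSelfAdjoint A → IsSelfAdjoint B →
            spectrum ℝ A ⊆ Set.Icc a b → spectrum ℝ B ⊆ Set.Icc a b →
              ‖cfc f A - cfc f B‖ ≤ C * ‖A - B‖) →
      (∀ x ∈ Set.Icc a b, ∃ d : ℝ, d ≠ 0 ∧ HasDerivWithinAt f d (Set.Icc a b) x) →
      ∃ g : ℝ → ℝ, (∀ x ∈ Set.Icc a b, g (f x) = x) ∧
        (ContinuousOn g (Set.uIcc (f a) (f b)) ∧
          ∃ C : ℝ, ∀ (H : Type) [NormedAddCommGroup H] [InnerProductSpace ℂ H] [CompleteSpace H],
            ∀ A B : H →L[ℂ] H, IsSelfAdjoint A → IsSelfAdjoint B →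
              spectrum ℝ A ⊆ Set.uIcc (f a) (f b) → spectrum ℝ B ⊆ Set.uIcc (f a) (f b) →
                ‖cfc g A - cfc g B‖ ≤ C * ‖A - B‖)) := by
  intro H
  obtain ⟨g, hg, -, C, hC⟩ := H f 0 1 ⟨fc.continuousOn, 10, fun H _ _ _ A B => ol A B⟩ (by
    intro x hx
    by_cases h : x = 0
    · rw [h]; exact ⟨1, one_ne_zero, fd0.hasDerivWithinAt⟩
    · refine ⟨_, fun e => ?_, (fd x h).hasDerivWithinAt⟩
      have h0 : 0 < x := lt_of_le_of_ne hx.1 (Ne.symm h)
      have h1 := Real.cos_le_one x⁻¹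
      have h2 := Real.neg_one_le_sin x⁻¹
      have h3 := Real.sin_sq_add_cos_sq x⁻¹
      have h4 : 0 ≤ 2 * x * (1 + Real.sin x⁻¹) := mul_nonneg (by linarith) (by linarith)
      have h5 : Real.cos x⁻¹ = 1 := by linarith
      have h6 : 2 * x * (1 + Real.sin x⁻¹) = 0 := by linarith
      have h7 : Real.sin x⁻¹ = -1 := by
        have := (mul_eq_zero.mp h6).resolve_left (by positivity)
        linarith
      rw [h5, h7] at h3; norm_num at h3)
  have hm : ∀ x ∈ Set.Ioo (0 : ℝ) (1 / 2), f x ∈ Set.uIcc (f 0) (f 1) := fun x hx => by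
    apply Set.mem_uIcc_of_le
    · have := Real.neg_one_le_sin x⁻¹
      simp only [f, mul_zero, add_zero]
      nlinarith [hx.1, mul_pos hx.1 hx.1]
    · have := Real.sin_le_one x⁻¹
      have := Real.neg_one_le_sin (1 : ℝ)⁻¹
      simp only [f]
      nlinarith [hx.1, hx.2, mul_pos hx.1 hx.1]
  have hL : ∀ x ∈ Set.Ioo (0 : ℝ) (1 / 2), ∀ y ∈ Set.Ioo (0 : ℝ) (1 / 2),
      |x - y| ≤ C * |f x - f y| := fun x hx y hy => by
    have := hC ℂ (algebraMap ℝ _ (f x)) (algebraMap ℝ _ (f y)) (IsSelfAdjoint.algebraMap _ (.all _))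
      (IsSelfAdjoint.algebraMap _ (.all _))
      ((CFC.spectrum_algebraMap_subset _).trans (by simpa using hm x hx))
      ((CFC.spectrum_algebraMap_subset _).trans (by simpa using hm y hy))
    rwa [cfc_algebraMap, cfc_algebraMap, ← map_sub, ← map_sub, norm_algebraMap', norm_algebraMap',
      hg x ⟨hx.1.le, by linarith [hx.2]⟩, hg y ⟨hy.1.le, by linarith [hy.2]⟩] at this
  obtain ⟨k, hk⟩ := exists_nat_gt (|C| + 1)
  have hpi := Real.pi_gt_three
  have hC0 := abs_nonneg C
  have ht : 2 * |C| + 2 < k * (2 * Real.pi) := by nlinarith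
  set t := k * (2 * Real.pi) with htt
  have t0 : 0 < t := by linarith
  have hx : t⁻¹ ∈ Set.Ioo (0 : ℝ) (1 / 2) :=
    ⟨inv_pos.mpr t0, by rw [one_div]; exact inv_strictAnti₀ (by norm_num) (by linarith)⟩
  have hd := fd t⁻¹ hx.1.ne'
  rw [inv_inv, htt, Real.cos_nat_mul_two_pi, show (k : ℝ) * (2 * Real.pi) = (2 * k : ℕ) * Real.pi by
    push_cast; ring, Real.sin_nat_mul_pi, show ((2 * k : ℕ) : ℝ) * Real.pi = t by
    push_cast; ring] at hd
  have hs := ((hasDerivAt_iff_tendsto_slope.mp hd).abs).const_mul C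
  have : 1 ≤ C * |1 - 1 + 2 * t⁻¹ * (1 + 0)| := by
    refine ge_of_tendsto hs ?_
    filter_upwards [self_mem_nhdsWithin, nhdsWithin_le_nhds (isOpen_Ioo.mem_nhds hx)] with y hy hy2
    have h0 : 0 < |y - t⁻¹| := abs_pos.mpr (sub_ne_zero.mpr hy)
    rw [slope_def_field, abs_div, ← mul_div_assoc, le_div_iff₀ h0, one_mul]
    exact hL y hy2 _ hx
  rw [show (1 : ℝ) - 1 + 2 * t⁻¹ * (1 + 0) = 2 / t by ring, abs_of_pos (by positivity),
    ← mul_div_assoc, le_div_iff₀ t0] at this
  linarith [le_abs_self C]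

end Pool.Agent.S04080
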