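import Pool.Statements.S04088
import Pool.Agent.H6.TZc

set_option autoImplicit false
open MeasureTheory
open Pool Pool.MP_260e18_an

namespace Pool.Agent.S04088

noncomputable def io (α : ℤ → ℝ) : ℤ ⊕ ℕ → ℝ :=
  Sum.elim (fun n : ℤ => (n : ℝ) + α n) (fun m : ℕ => (m : ℝ) + 1 / 2)

lemma io_inj {α : ℤ → ℝ} (hα : ∀ n, |α n| ≤ 1 / 8) : Function.Injective (io α) := by
  rintro (a | a) (b | b) h <;> simp only [io, Sum.elim_inl, Sum.elim_inr] at h
  · have h1 := abs_le.mp (hα a)
    have h2 := abs_le.mp (hα b)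
    have a1 : (a : ℝ) < b + 1 := by linarith
    have a2 : (b : ℝ) < a + 1 := by linarith
    have a3 : a < b + 1 := by exact_mod_cast a1
    have a4 : b < a + 1 := by exact_mod_cast a2
    congr 1; omega
  · have h1 := abs_le.mp (hα a)
    have a1 : (a : ℝ) < (b : ℤ) + 1 := by push_cast; linarith
    have a2 : ((b : ℤ) : ℝ) < a := by push_cast; linarith
    have a3 : a < (b : ℤ) + 1 := by exact_mod_cast a1
    have a4 : (b : ℤ) < a := by exact_mod_cast a2
    omega
  · have h1 := abs_le.mp (hα b)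
    have a1 : (b : ℝ) < (a : ℤ) + 1 := by push_cast; linarith
    have a2 : ((a : ℤ) : ℝ) < b := by push_cast; linarith
    have a3 : b < (a : ℤ) + 1 := by exact_mod_cast a1
    have a4 : (a : ℤ) < b := by exact_mod_cast a2
    omega
  · have : (a : ℝ) = b := by linarith
    congr 1; exact_mod_cast this

lemma sub_img {α : ℤ → ℝ} (hα : ∀ n, |α n| ≤ 1 / 8) (x y : ℝ) (A B : ℤ) (hA : (A : ℝ) - 7 / 8 < x)
    (hA' : (A : ℝ) - 1 / 2 < x) (hB : y ≤ (B : ℝ) - 1 / 8) :
    Set.range (io α) ∩ Set.Ico x y ⊆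
      (((Finset.Ico A B).image (fun n : ℤ => (n : ℝ) + α n) ∪
        (Finset.Ico (max A 0) B).image (fun n : ℤ => (n : ℝ) + 1 / 2) : Finset ℝ) : Set ℝ) := by
  rintro _ ⟨⟨a | a, rfl⟩, h1, h2⟩ <;> simp only [io, Sum.elim_inl, Sum.elim_inr] at h1 h2 ⊢
  · have h := abs_le.mp (hα a)
    have a1 : (A : ℝ) - 1 < a := by linarith
    have a2 : (a : ℝ) < B := by linarith
    have a3 : A - 1 < a := by exact_mod_cast a1
    have a4 : a < B := by exact_mod_cast a2
    rw [Finset.mem_coe, Finset.mem_union]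
    exact Or.inl (Finset.mem_image.mpr ⟨a, Finset.mem_Ico.mpr ⟨by omega, a4⟩, rfl⟩)
  · have a1 : (A : ℝ) - 1 < (a : ℤ) := by push_cast; linarith
    have a2 : ((a : ℤ) : ℝ) < B := by push_cast; linarith
    have a3 : A - 1 < (a : ℤ) := by exact_mod_cast a1
    have a4 : (a : ℤ) < B := by exact_mod_cast a2
    rw [Finset.mem_coe, Finset.mem_union]
    exact Or.inr (Finset.mem_image.mpr ⟨a, Finset.mem_Ico.mpr ⟨by omega, a4⟩, by simp⟩)

lemma card_bd (α : ℤ → ℝ) (A B : ℤ) :
    ((Finset.Ico A B).image (fun n : ℤ => (n : ℝ) + α n) ∪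
        (Finset.Ico (max A 0) B).image (fun n : ℤ => (n : ℝ) + 1 / 2) : Finset ℝ).card ≤
      (B - A).toNat + (B - max A 0).toNat := by
  refine (Finset.card_union_le _ _).trans (add_le_add ?_ ?_)
  · exact Finset.card_image_le.trans (by simp)
  · exact Finset.card_image_le.trans (by simp)

/-- The negation of the preceding statement: Suppose f is integrable and not a.e. zero, and Λ is a nonempty set of bounded density with the sum over Λ of f(x-λ) absolutely convergent and zero for a.e. x. Then there is D>0 with #(Λ∩[x,x+r)) = Dr + o(r) as r→∞, uniformly in x. -/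
theorem result :
    ¬ (∀ (f : ℝ → ℂ) (Λ : Set ℝ),
      Integrable f volume →
      ¬ (f =ᵐ[volume] 0) →
      Λ.Nonempty →
      (∃ M : ℕ, ∀ x : ℝ, (Λ ∩ Set.Ico x (x + 1)).encard ≤ (M : ℕ∞)) →
      (∀ᵐ x ∂(volume : Measure ℝ),
        Summable (fun l : Λ => ‖f (x - (l : ℝ))‖) ∧
        ∑' l : Λ, f (x - (l : ℝ)) = 0) →
      ∃ D : ℝ, 0 < D ∧
        ∀ ε : ℝ, 0 < ε → ∃ R : ℝ, 0 < R ∧
          ∀ r : ℝ, R ≤ r → ∀ x : ℝ,
            |((Λ ∩ Set.Ico x (x + r)).ncard : ℝ) - D * r| ≤ ε * r) := by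
  intro H
  obtain ⟨f, α, hI, hc, hne, hα, ⟨K, hK, hd⟩, hS⟩ := Pool.Agent.H6.TZ.construct
  have hinj := io_inj hα
  obtain ⟨D, -, hD⟩ := H f (Set.range (io α)) hI
    (fun h => hne ((hc.ae_eq_iff_eq volume continuous_zero).mp h)) (Set.range_nonempty _)
    ⟨6, fun x => by
      have h1 := Int.floor_le x
      have h2 := Int.lt_floor_add_one x
      refine (Set.encard_le_encard (sub_img hα x (x + 1) ⌊x⌋ (⌊x⌋ + 3) (by linarith) (by linarith)
        (by push_cast; linarith))).trans ?_
      rw [Set.encard_coe_eq_coe_finsetCard]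
      exact_mod_cast (card_bd α _ _).trans (by omega)⟩
    (Filter.Eventually.of_forall (fun x => by
      obtain ⟨S, h1, h2⟩ := hS x
      have s1 : Summable (fun n : ℤ => ‖f (x - (n + α n))‖) :=
        Pool.Agent.H6.TZ.summable_of_decay f K hK hd (fun n => x - (n + α n)) (|x| + 1 / 8)
          (fun n => Or.inr (by
            have e : x - (n + α n) + n = x - α n := by ring
            rw [e]
            exact (abs_sub _ _).trans (by linarith [hα n])))
      have s2 : Summable (fun m : ℕ => ‖f (x - (m + 1 / 2))‖) := by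
        have := (Pool.Agent.H6.TZ.summable_of_decay f K hK hd (fun n => x - (n + 1 / 2))
          |x - 1 / 2| (fun n => Or.inr (by
            have e : x - (n + 1 / 2) + n = x - 1 / 2 := by ring
            rw [e]))).comp_injective (Nat.cast_injective (R := ℤ))
        simpa [Function.comp_def] using this
      constructor
      · refine (Equiv.ofInjective _ hinj).summable_iff.mp ?_
        exact (HasSum.sum (f := fun i => ‖f (x - io α i)‖) s1.hasSum s2.hasSum).summable
      · rw [← (Equiv.ofInjective _ hinj).tsum_eq]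
        have := (HasSum.sum (f := fun i => f (x - io α i)) h1 h2).tsum_eq
        rw [neg_add_cancel] at this
        exact this))
  obtain ⟨R, hR, hR2⟩ := hD (1 / 4) (by norm_num)
  obtain ⟨N, hN⟩ := exists_nat_ge R
  have hN0 : (0 : ℝ) < N := by linarith
  have L := hR2 N hN (-N - 1 / 4)
  have U := hR2 N hN (-1 / 4)
  have cL : (Set.range (io α) ∩ Set.Ico (-(N : ℝ) - 1 / 4) (-N - 1 / 4 + N)).ncard ≤ N := by
    refine (Set.ncard_le_ncard (sub_img hα _ _ (-N) 0 (by push_cast; linarith)
      (by push_cast; linarith) (by push_cast; linarith)) (Finset.finite_toSet _)).trans ?_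
    rw [Set.ncard_coe_finset]
    exact (card_bd α _ _).trans (by omega)
  have cU : 2 * N ≤ (Set.range (io α) ∩ Set.Ico (-1 / 4 : ℝ) (-1 / 4 + N)).ncard := by
    have fin : (Set.range (io α) ∩ Set.Ico (-1 / 4 : ℝ) (-1 / 4 + N)).Finite :=
      (Finset.finite_toSet _).subset (sub_img hα _ _ 0 N (by norm_num) (by norm_num)
        (by push_cast; linarith))
    have sub : ((((Finset.Ico (0 : ℤ) N).disjSum (Finset.range N)).image (io α) : Finset ℝ) : Set ℝ)
        ⊆ Set.range (io α) ∩ Set.Ico (-1 / 4 : ℝ) (-1 / 4 + N) := by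
      intro y hy
      rw [Finset.mem_coe, Finset.mem_image] at hy
      obtain ⟨i, hi, rfl⟩ := hy
      refine ⟨⟨i, rfl⟩, ?_⟩
      rcases i with a | a
      · rw [Finset.inl_mem_disjSum, Finset.mem_Ico] at hi
        have h := abs_le.mp (hα a)
        have a1 : (0 : ℝ) ≤ a := by exact_mod_cast hi.1
        have a2 : (a : ℝ) + 1 ≤ N := by exact_mod_cast hi.2
        simp only [io, Sum.elim_inl]
        constructor <;> linarith
      · rw [Finset.inr_mem_disjSum, Finset.mem_range] at hi
        have a1 : (0 : ℝ) ≤ a := by positivity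
        have a2 : (a : ℝ) + 1 ≤ N := by exact_mod_cast hi
        simp only [io, Sum.elim_inr]
        constructor <;> linarith
    have := Set.ncard_le_ncard sub fin
    rw [Set.ncard_coe_finset, Finset.card_image_of_injective _ hinj, Finset.card_disjSum] at this
    simp only [Int.card_Ico, Finset.card_range] at this
    omega
  have cL' : ((Set.range (io α) ∩ Set.Ico (-(N : ℝ) - 1 / 4) (-N - 1 / 4 + N)).ncard : ℝ) ≤ N := by
    exact_mod_cast cL
  have cU' : 2 * (N : ℝ) ≤ ((Set.range (io α) ∩ Set.Ico (-1 / 4 : ℝ) (-1 / 4 + N)).ncard : ℝ) := by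
    exact_mod_cast cU
  have := abs_le.mp L
  have := abs_le.mp U
  linarith [this.1]

end Pool.Agent.S04088
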