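import Pool.Statements.S04098
import Pool.Agent.H4.Chi2

set_option autoImplicit false
open Pool Pool.MP_268976_an

namespace Pool.Agent.S04098

/-- The negation of the preceding statement: For a Jacobi operator with positive off-diagonals a, diagonal b tending to infinity, a_n^2/(b_n b_{n+1}) tending to 1/4 and zero deficiency: if its essential spectrum has a least point ρ, then the essential spectrum equals [ρ, ∞). -/
theorem result :
    ¬ (∀ (a b : ℕ → ℝ), (∀ n, 0 < a n) →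
      Filter.Tendsto b Filter.atTop Filter.atTop →
      Filter.Tendsto (fun n => a n ^ 2 / (b n * b (n + 1))) Filter.atTop (nhds (1 / 4 : ℝ)) →
      (∀ u : ℕ → ℂ, Summable (fun k => ‖u k‖ ^ 2) →
        (∀ k : ℕ, (if k = 0 then (0 : ℂ) else (a (k - 1) : ℂ) * u (k - 1))
            + (b k : ℂ) * u k + (a k : ℂ) * u (k + 1) = Complex.I * u k) → u = 0) →
      ∀ S : Set ℝ,
        S = {t : ℝ | ∀ ε : ℝ, 0 < ε → ∀ n : ℕ, ∃ V : Submodule ℂ (ℕ →₀ ℂ),
              Module.finrank ℂ V = n ∧ ∀ x ∈ V,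
                ∑' k : ℕ, ‖(if k = 0 then (0 : ℂ) else (a (k - 1) : ℂ) * x (k - 1))
                    + (b k : ℂ) * x k + (a k : ℂ) * x (k + 1) - (t : ℂ) * x k‖ ^ 2
                  ≤ ε ^ 2 * ∑' k : ℕ, ‖x k‖ ^ 2} →
        ∀ ρ : ℝ, IsLeast S ρ → S = Set.Ici ρ) := by
  intro h
  have h1 := h H4.Chi.a H4.Chi.b H4.Chi.a_pos H4.Chi.b_tendsto H4.Chi.ab_tendsto H4.Chi.deficiency
    H4.Chi.S rfl 0 ⟨H4.Chi.zero_mem_S, fun t ht => by
      by_contra hlt
      exact H4.Chi.not_mem_S (by linarith [not_le.mp hlt]) (ne_of_lt (not_le.mp hlt)) ht⟩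
  refine H4.Chi.not_mem_S le_rfl one_ne_zero ?_
  rw [h1]
  exact Set.mem_Ici.mpr zero_le_one

end Pool.Agent.S04098
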