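import Pool.Statements.S04108

set_option autoImplicit false
open Pool Pool.MP_275f89_an

namespace Pool.Agent.S04108

/-- The negation of the preceding statement: Every commutative, associative, monotone operation on distance distribution functions with identity ε₀ is causal: if F₁≤F₂ and G₁≤G₂ on (−∞,a] with a>0, then τ(F₁,G₁)≤τ(F₂,G₂) on (−∞,a]. -/
theorem result :
    ¬ (∀ D : Set (ℝ → ℝ),
      D = {F : ℝ → ℝ | Monotone F ∧ (∀ x, 0 ≤ F x ∧ F x ≤ 1) ∧ (∀ x : ℝ, x ≤ 0 → F x = 0) ∧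
            ∀ x : ℝ, ContinuousWithinAt F (Set.Iio x) x} →
      ∀ τ : (ℝ → ℝ) → (ℝ → ℝ) → (ℝ → ℝ),
        (∀ F ∈ D, ∀ G ∈ D, τ F G ∈ D) →
        (∀ F ∈ D, ∀ G ∈ D, τ F G = τ G F) →
        (∀ F ∈ D, ∀ G ∈ D, ∀ H ∈ D, τ (τ F G) H = τ F (τ G H)) →
        (∀ F ∈ D, τ F (fun x : ℝ => if 0 < x then (1 : ℝ) else 0) = F) →
        (∀ F₁ ∈ D, ∀ F₂ ∈ D, ∀ G ∈ D, F₁ ≤ F₂ → τ F₁ G ≤ τ F₂ G) →
        ∀ a : ℝ, 0 < a →
          ∀ F₁ ∈ D, ∀ F₂ ∈ D, ∀ G₁ ∈ D, ∀ G₂ ∈ D,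
            (∀ x : ℝ, x ≤ a → F₁ x ≤ F₂ x) →
            (∀ x : ℝ, x ≤ a → G₁ x ≤ G₂ x) →
            ∀ x : ℝ, x ≤ a → τ F₁ G₁ x ≤ τ F₂ G₂ x) := by
  intro h
  classical
  set D : Set (ℝ → ℝ) := {F : ℝ → ℝ | Monotone F ∧ (∀ x, 0 ≤ F x ∧ F x ≤ 1) ∧
      (∀ x : ℝ, x ≤ 0 → F x = 0) ∧ ∀ x : ℝ, ContinuousWithinAt F (Set.Iio x) x} with hD
  set e : ℝ → ℝ := fun x : ℝ => if 0 < x then (1 : ℝ) else 0 with he
  have e2 : e 2 = 1 := by simp [he]
  have le_e : ∀ F ∈ D, F ≤ e := by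
    intro F hF x
    by_cases hx : 0 < x
    · simp only [he, hx, if_true]; exact (hF.2.1 x).2
    · simp only [he, hx, if_false]; exact (hF.2.2.1 x (not_lt.mp hx)).le
  have zero_le : ∀ F ∈ D, (0 : ℝ → ℝ) ≤ F := fun F hF x => (hF.2.1 x).1
  have zD : (0 : ℝ → ℝ) ∈ D :=
    ⟨monotone_const, fun x => by simp, fun x _ => rfl, fun x => continuousWithinAt_const⟩
  have infD : ∀ F ∈ D, ∀ G ∈ D, F ⊓ G ∈ D := by
    intro F hF G hG
    refine ⟨hF.1.inf hG.1, fun x => ⟨le_inf (hF.2.1 x).1 (hG.2.1 x).1,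
      inf_le_left.trans (hF.2.1 x).2⟩, fun x hx => ?_, fun x => ?_⟩
    · simp [hF.2.2.1 x hx, hG.2.2.1 x hx]
    · exact (hF.2.2.2 x).inf (hG.2.2.2 x)
  have z2 : ¬ ((0 : ℝ → ℝ) 2 = 1) := by simp
  have ze : ¬ ((0 : ℝ → ℝ) = e) := fun h => z2 (by rw [h]; exact e2)
  set τ : (ℝ → ℝ) → (ℝ → ℝ) → (ℝ → ℝ) := fun F G =>
    if G = e then F else if F = e then G else if F 2 = 1 ∧ G 2 = 1 then F ⊓ G else 0 with hτ
  have τe : ∀ F, τ F e = F := by intro F; simp [hτ]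
  have eτ : ∀ F, τ e F = F := by
    intro F
    by_cases hF : F = e
    · simp [hτ, hF]
    · simp [hτ, hF]
  have τU : ∀ F G, F ≠ e → G ≠ e → F 2 = 1 → G 2 = 1 → τ F G = F ⊓ G := by
    intro F G h1 h2 h3 h4; simp [hτ, h1, h2, h3, h4]
  have τN : ∀ F G, F ≠ e → G ≠ e → ¬ (F 2 = 1 ∧ G 2 = 1) → τ F G = 0 := by
    intro F G h1 h2 h3; simp only [hτ, h1, h2, h3, if_false]
  have infe : ∀ F ∈ D, ∀ G, F ≠ e → F ⊓ G ≠ e := by
    intro F hF G h1 h2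
    exact h1 (le_antisymm (le_e F hF) (h2 ▸ inf_le_left))
  have stepD : ∀ c : ℝ, 0 ≤ c → ∀ u : ℝ, 0 ≤ u → u ≤ 1 →
      (fun x : ℝ => if c < x then u else 0) ∈ D := by
    intro c hc u hu0 hu1
    refine ⟨?_, ?_, ?_, ?_⟩
    · intro x y hxy
      by_cases hx : c < x
      · simp [hx, hx.trans_le hxy]
      · by_cases hy : c < y <;> simp [hx, hy, hu0]
    · intro x; by_cases hx : c < x <;> simp [hx, hu0, hu1]
    · intro x hx
      have : ¬ c < x := not_lt.mpr (hx.trans hc)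
      simp [this]
    · intro x
      by_cases hx : c < x
      · refine (continuousWithinAt_const (b := u)).congr_of_eventuallyEq ?_ (by simp [hx])
        filter_upwards [mem_nhdsWithin_of_mem_nhds (Ioi_mem_nhds hx)] with y hy
        have : c < y := hy
        simp [this]
      · refine (continuousWithinAt_const (b := (0 : ℝ))).congr ?_ (by simp [hx])
        intro y hy
        have : ¬ c < y := not_lt.mpr ((le_of_lt hy).trans (not_lt.mp hx))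
        simp [this]
  set F₂ : ℝ → ℝ := fun x : ℝ => if 0 < x then (1 / 2 : ℝ) else 0 with hF₂
  set S : ℝ → ℝ := fun x : ℝ => if 1 < x then (1 : ℝ) else 0 with hS
  have F₂D : F₂ ∈ D := stepD 0 le_rfl _ (by norm_num) (by norm_num)
  have SD : S ∈ D := stepD 1 zero_le_one _ (by norm_num) (by norm_num)
  have F₁D : F₂ ⊔ S ∈ D := by
    refine ⟨F₂D.1.sup SD.1, fun x => ⟨(F₂D.2.1 x).1.trans le_sup_left,
      sup_le (F₂D.2.1 x).2 (SD.2.1 x).2⟩, fun x hx => ?_, fun x => ?_⟩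
    · simp [F₂D.2.2.1 x hx, SD.2.2.1 x hx]
    · exact (F₂D.2.2.2 x).sup (SD.2.2.2 x)
  have agree : ∀ x : ℝ, x ≤ 1 → (F₂ ⊔ S) x ≤ F₂ x := by
    intro x hx
    have : ¬ 1 < x := not_lt.mpr hx
    refine sup_le le_rfl ?_
    simp only [hS, this, if_false]
    exact (F₂D.2.1 x).1
  have key := h D rfl τ ?_ ?_ ?_ (fun F _ => τe F) ?_ 1 one_pos (F₂ ⊔ S) F₁D F₂ F₂D (F₂ ⊔ S) F₁D
    F₂ F₂D agree agree 1 le_rfl
  · have n1 : F₂ ⊔ S ≠ e := by
      intro hh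
      have := congrFun hh 1
      simp [hF₂, hS, he] at this
    have n2 : F₂ ≠ e := by
      intro hh
      have := congrFun hh 1
      simp [hF₂, he] at this
    have u1 : (F₂ ⊔ S) 2 = 1 := by
      simp [hF₂, hS]; norm_num
    have u2 : ¬ (F₂ 2 = 1 ∧ F₂ 2 = 1) := by
      simp [hF₂]
    rw [τU _ _ n1 n1 u1 u1, τN _ _ n2 n2 u2] at key
    simp [hF₂, hS] at key
    norm_num at key
  · intro F hF G hG
    simp only [hτ]
    split_ifs
    · exact hF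
    · exact hG
    · exact infD F hF G hG
    · exact zD
  · intro F _ G _
    by_cases hG : G = e
    · rw [hG, τe, eτ]
    by_cases hF : F = e
    · rw [hF, τe, eτ]
    by_cases hU : F 2 = 1 ∧ G 2 = 1
    · rw [τU F G hF hG hU.1 hU.2, τU G F hG hF hU.2 hU.1, inf_comm]
    · rw [τN F G hF hG hU, τN G F hG hF (fun h => hU h.symm)]
  · intro F hFD G hGD H hHD
    by_cases hH : H = e
    · rw [hH, τe, τe]
    by_cases hG : G = e
    · rw [hG, τe, eτ]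
    by_cases hF : F = e
    · rw [hF, eτ, eτ]
    have z0 : ∀ K, K ≠ e → τ 0 K = 0 := fun K hK => τN 0 K ze hK (fun h => z2 h.1)
    have z1 : ∀ K, K ≠ e → τ K 0 = 0 := fun K hK => τN K 0 hK ze (fun h => z2 h.2)
    by_cases h1 : F 2 = 1 ∧ G 2 = 1
    · rw [τU F G hF hG h1.1 h1.2]
      by_cases h2 : H 2 = 1
      · rw [τU G H hG hH h1.2 h2, τU _ H (infe F hFD G hF) hH (by simp [h1.1, h1.2]) h2,
          τU F _ hF (infe G hGD H hG) h1.1 (by simp [h1.2, h2]), inf_assoc]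
      · rw [τN G H hG hH (fun h => h2 h.2), z1 F hF,
          τN _ H (infe F hFD G hF) hH (fun h => h2 h.2)]
    · rw [τN F G hF hG h1, z0 H hH]
      by_cases h2 : G 2 = 1 ∧ H 2 = 1
      · rw [τU G H hG hH h2.1 h2.2,
          τN F _ hF (infe G hGD H hG) (fun h => h1 ⟨h.1, h2.1⟩)]
      · rw [τN G H hG hH h2, z1 F hF]
  · intro F₁ h₁ F₃ h₃ G hGD hle
    by_cases hG : G = e
    · rw [hG, τe, τe]; exact hle
    by_cases h3 : F₃ = e
    · rw [h3, eτ]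
      by_cases h1 : F₁ = e
      · rw [h1, eτ]
      by_cases hU : F₁ 2 = 1 ∧ G 2 = 1
      · rw [τU _ _ h1 hG hU.1 hU.2]; exact inf_le_right
      · rw [τN _ _ h1 hG hU]; exact zero_le G hGD
    have h1 : F₁ ≠ e := fun hh => h3 (le_antisymm (le_e _ h₃) (hh ▸ hle))
    by_cases hU : F₁ 2 = 1 ∧ G 2 = 1
    · have : F₃ 2 = 1 := le_antisymm (h₃.2.1 2).2 (hU.1 ▸ hle 2)
      rw [τU _ _ h1 hG hU.1 hU.2, τU _ _ h3 hG this hU.2]
      exact inf_le_inf_right G hle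
    · rw [τN _ _ h1 hG hU]
      simp only [hτ]
      split_ifs
      · exact zero_le _ (infD _ h₃ _ hGD)
      · exact le_rfl

end Pool.Agent.S04108
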