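import Pool.Statements.S04125
import Pool.Agent.H28.GaborC

set_option autoImplicit false
open MeasureTheory
open Pool Pool.MP_288ee9_an

namespace Pool.Agent.S04125
open Pool.Agent.H28.Gabor Set
open scoped ComplexConjugate

noncomputable def bb (t m l : ℤ) : E := !₂[(t : ℝ) / 8 + m, (l : ℝ) / 6]

noncomputable def τ : ℂ := Complex.exp (-2 * Real.pi * Complex.I / 8)

noncomputable def ω : ℂ := Complex.exp (-2 * Real.pi * Complex.I / 6)

lemma hτ : τ ^ 4 = -1 := by
  rw [τ, ← Complex.exp_nat_mul, ← Complex.exp_neg_pi_mul_I]; congr 1; push_cast; ring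

lemma hω : IsPrimitiveRoot ω 6 := by
  have : ω = (Complex.exp (2 * Real.pi * Complex.I / (6 : ℕ)))⁻¹ := by
    rw [ω, ← Complex.exp_neg]; congr 1; push_cast; ring
  exact this ▸ (Complex.isPrimitiveRoot_exp 6 (by norm_num)).inv

lemma e_bb (t m l : ℤ) (n : ℤ × ℤ) : e (bb t m l) (io n) = (τ ^ t) ^ n.1 * (ω ^ l) ^ n.2 := by
  rw [e_apply, τ, ω, ← zpow_mul, ← zpow_mul, ← Complex.exp_int_mul, ← Complex.exp_int_mul,
    ← mul_one (Complex.exp (((t * n.1 : ℤ) : ℂ) * _)),
    ← Complex.exp_int_mul_two_pi_mul_I (-(n.1 * m)), ← Complex.exp_add (((t * n.1 : ℤ) : ℂ) * _)]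
  congr 2 <;> simp [bb, io] <;> ring

lemma bb_sub (t m l t' m' l' : ℤ) : bb t m l + -bb t' m' l' = bb (t - t') (m - m') (l - l') := by
  ext i; fin_cases i <;> simp [bb] <;> ring

lemma bb_io (t l : ℤ) (m : ℤ × ℤ) : bb t m.1 (l + 6 * m.2) = bb t 0 l + io m := by
  ext i; fin_cases i <;> simp [bb, io]; ring

lemma e_io (m n : ℤ × ℤ) : e (io m) (io n) = 1 := by
  have := bb_io 0 0 m
  rw [show bb 0 0 0 = 0 by ext i; fin_cases i <;> simp [bb], zero_add, zero_add] at this
  rw [← this, e_bb, (hω.zpow_eq_one_iff_dvd _).2 (by simp)]; simp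

lemma mulE {μ : Measure E} {u w : E → ℂ} (hu : MemLp u 2 μ) (hw : Continuous w)
    (h : ∀ x, ‖w x‖ = 1) : MemLp (fun x => u x * w x) 2 μ :=
  hu.of_le (hu.1.mul hw.aestronglyMeasurable) (Filter.Eventually.of_forall fun x => by
    rw [norm_mul, h, mul_one])

abbrev K : Set E := c ⁻¹' (F : Set (ℤ × ℤ))

lemma mK : MeasurableSet K := meas_c (Set.to_countable _).measurableSet

lemma coef (g : E → ℂ) (hg : MemLp g 2 volume) (a : ℤ × ℤ) (b : E) :
    ∫ x, g x * conj (K.indicator (fun _ => (1 : ℂ)) (x - io a) * e b x) =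
      ∑ y ∈ F, ∫ q in Q, g (q + io (y + a)) * conj (e b (q + io (y + a))) := by
  haveI : IsFiniteMeasure (volume.restrict K) := isFiniteMeasure_restrict.2 (vol_K F).ne
  have h : ∀ x, g (x + io a) * conj (K.indicator (fun _ => (1 : ℂ)) (x + io a - io a) *
      e b (x + io a)) = K.indicator (fun x => g (x + io a) * conj (e b (x + io a))) x := fun x => by
    by_cases hx : x ∈ K <;> simp [hx]
  rw [← integral_add_right_eq_self _ (io a)]
  simp only [h]
  rw [integral_indicator mK, decomp F]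
  · simp only [io_add, add_assoc]
  · exact (mulE ((hg.comp_measurePreserving (measurePreserving_add_right _ (io a))).restrict K)
      (by have := cont_e b; fun_prop) (fun x => by simp [norm_e])).integrable one_le_two

lemma orth (s t m l s' t' m' l' : ℤ) (h : (s, t, m, l) ≠ (s', t', m', l')) :
    ∫ x, (K.indicator (fun _ => (1 : ℂ)) (x - io (6 * s, t)) * e (bb t m l) x) *
      conj (K.indicator (fun _ => (1 : ℂ)) (x - io (6 * s', t')) * e (bb t' m' l') x) = 0 := by
  have hg : MemLp (fun x => K.indicator (fun _ => (1 : ℂ)) (x - io (6 * s, t)) * e (bb t m l) x) 2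
      volume := mulE ((memLp_indicator_const 2 mK 1 (Or.inr (vol_K F).ne)).comp_measurePreserving
        (measurePreserving_sub_right _ _)) (cont_e _) (norm_e _)
  have h1 : ∀ y ∈ F, ∫ q in Q, K.indicator (fun _ => (1 : ℂ)) (q + io (y + (6 * s', t')) -
      io (6 * s, t)) * e (bb t m l) (q + io (y + (6 * s', t'))) *
      conj (e (bb t' m' l') (q + io (y + (6 * s', t')))) =
      (if y + (6 * (s' - s), -(t - t')) ∈ F then (τ ^ (t - t')) ^ y.1 * (ω ^ (l - l')) ^ y.2
      else 0) * (e (bb (t - t') (m - m') (l - l')) (io (6 * s', t')) *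
        ∫ q in Q, e (bb (t - t') (m - m') (l - l')) q) := fun y _ => by
    rw [← integral_const_mul, ← integral_const_mul]
    refine setIntegral_congr_fun meas_Q fun q hq => ?_
    have hq : c q = 0 := hq
    have : c (q + io (y + (6 * s', t')) - io (6 * s, t)) = y + (6 * (s' - s), -(t - t')) := by
      rw [sub_eq_add_neg, ← io_neg, c_add, c_add, hq]; ext <;> simp <;> ring
    simp only [mul_assoc, e_conj, ← e_add', bb_sub, indicator, mem_preimage, this,
      Finset.mem_coe]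
    split_ifs
    · rw [e_add, io_add, e_add, e_bb _ _ _ y]; ring
    · simp
  rw [coef _ hg, Finset.sum_congr rfl h1, ← Finset.sum_mul]
  by_cases h0 : s' - s ≠ 0 ∨ t - t' ≠ 0
  · rw [disc _ _ _ _ hτ h0, zero_mul]
  · push Not at h0
    by_cases h6 : (6 : ℤ) ∣ l - l'
    · obtain ⟨k, hk⟩ := h6
      have := bb_io 0 0 (m - m', k)
      rw [show bb 0 0 0 = 0 by ext i; fin_cases i <;> simp [bb], zero_add, zero_add] at this
      rw [h0.2, hk, this, int_e, mul_zero, mul_zero]
      intro h'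
      simp only [Prod.ext_iff, Prod.fst_zero, Prod.snd_zero, ne_eq] at h h'
      omega
    · refine mul_eq_zero_of_left ?_ _
      have h1 : ω ^ (l - l') ≠ 1 := fun h => h6 ((hω.zpow_eq_one_iff_dvd _).1 h)
      have h2 : (ω ^ (l - l')) ^ 6 = 1 := by
        rw [← zpow_natCast, ← zpow_mul]; exact (hω.zpow_eq_one_iff_dvd _).2 (by simp)
      rw [h0.1, h0.2, sumF]
      generalize ω ^ (l - l') = Y at h1 h2
      simp [F]
      refine mul_left_cancel₀ (sub_ne_zero.2 h1) ?_
      linear_combination 2 * h2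

lemma cpl (f : E → ℂ) (hf : MemLp f 2 volume) (h : ∀ s t m l : ℤ, ∫ x, f x *
    conj (K.indicator (fun _ => (1 : ℂ)) (x - io (6 * s, t)) * e (bb t m l) x) = 0) :
    f =ᵐ[volume] 0 := by
  have hQ : ∀ n b, MemLp (fun q => f (q + io n) * conj (e b (q + io n))) 2 (volume.restrict Q) :=
    fun n b => mulE ((hf.restrict _).comp_measurePreserving (mp_cell n))
      (by have := cont_e b; fun_prop) (fun x => by simp [norm_e])
  have h1 : ∀ s t : ℤ, ∀ l : Fin 6, ∀ᵐ q ∂volume.restrict Q, ∑ y ∈ F, f (q + io (y + (6 * s, t))) *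
      conj (e (bb t 0 (l : ℕ)) (q + io (y + (6 * s, t)))) = 0 := fun s t l => by
    refine uniq _ (memLp_finset_sum _ fun y _ => hQ _ _) fun m => ?_
    have := h s t m.1 ((l : ℕ) + 6 * m.2)
    rw [coef _ hf, ← integral_finset_sum _ fun y _ => (hQ _ _).integrable one_le_two] at this
    refine Eq.trans (integral_congr_ae (Filter.Eventually.of_forall fun q => ?_)) this
    simp only [Finset.sum_mul, bb_io, e_add', e_add (io m), e_io, map_mul, mul_one, mul_assoc]
  have h2 : ∀ᵐ q ∂volume.restrict Q, ∀ n, f (q + io n) = 0 := by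
    filter_upwards [ae_all_iff.2 fun s => ae_all_iff.2 fun t => ae_all_iff.2 (h1 s t)] with q hq
    refine compl _ (conj τ) (conj ω) (by rw [← map_pow, hτ]; simp)
      (hω.map_of_injective (starRingEnd ℂ).injective) fun s t l => ?_
    have := hq s t l
    have h0 : ∀ b x, conj (e b x) ≠ 0 := fun b x h => by simpa [h] using e_mul_conj b x
    refine mul_left_cancel₀ (mul_ne_zero (h0 (bb t 0 (l : ℕ)) q)
      (h0 (bb t 0 (l : ℕ)) (io (6 * s, t)))) ?_
    rw [mul_zero, ← this, Finset.mul_sum]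
    refine Finset.sum_congr rfl fun y _ => ?_
    rw [e_add, io_add y, e_add, e_bb _ _ _ y]
    simp only [map_mul, map_zpow₀, zpow_natCast, map_pow]
    ring
  have : (⋃ n, c ⁻¹' {n}) = univ := by ext; simp
  rw [← Measure.restrict_univ (μ := volume), ← this]
  refine (ae_restrict_iUnion_iff _ _).2 fun n => ?_
  filter_upwards [(mp_cell' n).quasiMeasurePreserving.ae h2] with x hx
  simpa using hx n

/-- There exist d ≥ 1, a measurable finite-measure set E in ℝ^d with no orthogonal basis of exponentials for L²(E), and S in ℝ^d × ℝ^d such that the functions χ_E(x−a)e^{−2πi x·b}, (a,b) in S, form an orthogonal basis of L²(ℝ^d). -/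
theorem result :
    ∃ (d : ℕ) (E : Set (EuclideanSpace ℝ (Fin d))),
      0 < d ∧ MeasurableSet E ∧ volume E < ⊤ ∧
      (¬ ∃ B : Set (EuclideanSpace ℝ (Fin d)),
          (∀ b ∈ B, ∀ b' ∈ B, b ≠ b' →
            ∫ x in E, Complex.exp (-2 * (Real.pi : ℂ) * Complex.I * ((inner ℝ x b : ℝ) : ℂ)) *
              starRingEnd ℂ (Complex.exp (-2 * (Real.pi : ℂ) * Complex.I * ((inner ℝ x b' : ℝ) : ℂ))) = 0) ∧
          (∀ f : EuclideanSpace ℝ (Fin d) → ℂ, MemLp f 2 (volume.restrict E) →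
            (∀ b ∈ B, ∫ x in E, f x *
              starRingEnd ℂ (Complex.exp (-2 * (Real.pi : ℂ) * Complex.I * ((inner ℝ x b : ℝ) : ℂ))) = 0) →
            f =ᵐ[volume.restrict E] 0)) ∧
      ∃ S : Set (EuclideanSpace ℝ (Fin d) × EuclideanSpace ℝ (Fin d)),
        (∀ p ∈ S, ∀ q ∈ S, p ≠ q →
          ∫ x, (E.indicator (fun _ => (1 : ℂ)) (x - p.1) *
                Complex.exp (-2 * (Real.pi : ℂ) * Complex.I * ((inner ℝ x p.2 : ℝ) : ℂ))) *
              starRingEnd ℂ (E.indicator (fun _ => (1 : ℂ)) (x - q.1) *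
                Complex.exp (-2 * (Real.pi : ℂ) * Complex.I * ((inner ℝ x q.2 : ℝ) : ℂ))) = 0) ∧
        (∀ f : EuclideanSpace ℝ (Fin d) → ℂ, MemLp f 2 volume →
          (∀ p ∈ S, ∫ x, f x *
              starRingEnd ℂ (E.indicator (fun _ => (1 : ℂ)) (x - p.1) *
                Complex.exp (-2 * (Real.pi : ℂ) * Complex.I * ((inner ℝ x p.2 : ℝ) : ℂ))) = 0) →
          f =ᵐ[volume] 0) := by
  refine ⟨2, K, two_pos, mK, vol_K F, fun ⟨B, h1, h2⟩ =>
    nonspec F (3, 3) (0, 0) (by decide) hole B h1 h2,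
    range fun p : ℤ × ℤ × ℤ × ℤ => (io (6 * p.1, p.2.1), bb p.2.1 p.2.2.1 p.2.2.2), ?_,
    fun f hf h => cpl f hf fun s t m l =>
      h (io (6 * s, t), bb t m l) (mem_range_self (s, t, m, l))⟩
  rintro _ ⟨⟨s, t, m, l⟩, rfl⟩ _ ⟨⟨s', t', m', l'⟩, rfl⟩ h
  exact orth s t m l s' t' m' l' fun h' => h (by rw [h'])

end Pool.Agent.S04125
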