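import Pool.Statements.S04134
import Pool.Agent.H17.Vald2

set_option autoImplicit false
open Pool Pool.MP_28dc43_an

namespace Pool.Agent.S04134

open Set Cardinal Pool.Agent.H17.Vald

theorem stab {X I : Type} [NormedAddCommGroup X] [NormedSpace ℝ X] (M : Set X)
    (hM : Dense ((Submodule.span ℝ M : Submodule ℝ X) : Set X)) (hI : ℵ₁ < #I) (x : I → X)
    {ε : ℝ} (hε : 0 < ε) : ∃ (E : Set I) (w : X), ℵ₁ < #E ∧ ∀ f : X →L[ℝ] ℝ,
      Set.Countable {m ∈ M | f m ≠ 0} → ‖f‖ ≤ 1 → ∃ B : Set I, B.Countable ∧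
        ∀ a ∈ E, a ∉ B → |f (x a) - f w| ≤ 2 * ε := by
  classical
  have : ∀ a, ∃ (c : X → ℝ) (H : Finset X), ↑H ⊆ M ∧ dist (x a) (∑ m ∈ H, c m • m) < ε := by
    intro a
    obtain ⟨y, hy, hd⟩ := hM.exists_dist_lt (x a) hε
    obtain ⟨c, H, h1, _, rfl⟩ := Submodule.mem_span_iff_exists_finset_subset.1 hy
    exact ⟨c, H, h1, hd⟩
  choose c H h1 h2 using this
  obtain ⟨n, hn⟩ := big_fiber (ι := ℕ) (S := univ) (by simp) (by rwa [mk_univ])
    (fun n => {a | (H a).card ≤ n}) fun a _ => ⟨_, le_refl (H a).card⟩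
  obtain ⟨R, E, _, hE2, hE3⟩ := delta n H _ hn fun x hx => hx
  obtain ⟨t, t1, t2⟩ := (R.countable_toSet.isSeparable.span (R := ℝ))
  obtain ⟨w, hw⟩ := big_fiber (small_of_countable t1) hE2
    (fun w => {a | a ∈ E ∧ dist (∑ m ∈ H a with m ∈ R, c a m • m) w.1 < ε}) (by
      intro a ha
      obtain ⟨w, a1, a2⟩ := Metric.mem_closure_iff.1 (t2 (show (∑ m ∈ H a with m ∈ R, c a m • m) ∈
        Submodule.span ℝ (R : Set X) from Submodule.sum_mem _ fun m hm => Submodule.smul_mem _ _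
          (Submodule.subset_span (Finset.mem_filter.1 hm).2))) ε hε
      exact ⟨⟨w, a1⟩, ha, a2⟩)
  refine ⟨_, w.1, hw, fun f f1 f2 => ⟨⋃ m ∈ {m ∈ M | f m ≠ 0}, {a | a ∈ E ∧ m ∈ H a ∧ m ∉ R},
    f1.biUnion fun m _ => Set.Subsingleton.countable fun a ha b hb =>
      hE3 a ha.1 b hb.1 m ha.2.1 hb.2.1 ha.2.2, fun a ha hb => ?_⟩⟩
  have e : f (∑ m ∈ H a, c a m • m) = f (∑ m ∈ H a with m ∈ R, c a m • m) := by
    rw [map_sum, map_sum, Finset.sum_filter]
    refine Finset.sum_congr rfl fun m hm => ?_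
    split_ifs with d
    · rfl
    · have : f m = 0 := by
        by_contra k
        exact hb (mem_iUnion₂.2 ⟨m, ⟨h1 a hm, k⟩, ha.1, hm, d⟩)
      simp [this]
  have lip : ∀ p q, |f p - f q| ≤ dist p q := by
    intro p q
    rw [← map_sub, dist_eq_norm]
    exact (f.le_opNorm _).trans (mul_le_of_le_one_left (norm_nonneg _) f2)
  have a1 := lip (x a) (∑ m ∈ H a, c a m • m)
  have a2 := lip (∑ m ∈ H a with m ∈ R, c a m • m) w.1
  have a3 := h2 a
  have a4 := ha.2
  rw [e] at a1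
  rw [abs_le] at *
  constructor <;> linarith [a1.1, a1.2, a2.1, a2.2]

noncomputable abbrev OO : Ordinal.{0} := (Cardinal.aleph.{0} 2).ord

theorem gap {E : Set OO.ToType} (hE : ℵ₁ < #E) (b : OO.ToType) :
    ∃ b', b < b' ∧ ¬ (E ∩ Ioo b b').Countable := by
  by_contra c
  push Not at c
  have s1 : #(Iic b) ≤ ℵ₁ := by
    rw [← Iio_union_right]
    refine small_union ?_ (small_of_countable (countable_singleton b))
    have e : Cardinal.aleph.{0} 2 = Order.succ ℵ₁ := by rw [succ_aleph, one_add_one_eq_two]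
    exact Order.lt_succ_iff.1 ((mk_Iio_toType_ord_lt b).trans_eq e)
  have s2 : ℵ₁ < #(E ∩ Ioi b : Set _) := by
    by_contra d
    obtain ⟨y, y1, y2⟩ := exists_not_mem hE (small_union s1 (not_lt.1 d))
    exact y2 ((le_or_gt y b).imp id fun h => ⟨y1, h⟩)
  refine total_contra (· ≥ ·) (fun x y => le_total y x) s2 fun x hx => ?_
  refine ((c x hx.2).insert x).mono fun y hy => ?_
  exact (eq_or_lt_of_le hy.2).imp id fun h => ⟨hy.1.1, hy.1.2, h⟩

noncomputable def g (a : OO.ToType) : BoundedContinuousFunction (Set.Iic OO) ℝ :=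
  BoundedContinuousFunction.indicator {t | t.1 ≤ (Ordinal.ToType.mk.symm a).1}
    ⟨isClosed_Iic.preimage continuous_subtype_val, by
      simp only [← Order.lt_succ_iff]
      exact isOpen_Iio.preimage continuous_subtype_val⟩

theorem g_apply (a : OO.ToType) (t : Set.Iic OO) :
    g a t = if t.1 ≤ (Ordinal.ToType.mk.symm a).1 then 1 else 0 := by
  classical
  show Set.indicator _ _ t = _
  by_cases h : t.1 ≤ (Ordinal.ToType.mk.symm a).1
  · rw [if_pos h, indicator_of_mem (by exact h)]; rfl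
  · rw [if_neg h, indicator_of_notMem (by exact h)]

theorem g_mono {a b : OO.ToType} (h : a ≤ b) (t : Set.Iic OO) : g a t ≤ g b t := by
  rw [g_apply, g_apply]
  have : (Ordinal.ToType.mk.symm a).1 ≤ (Ordinal.ToType.mk.symm b).1 :=
    Ordinal.ToType.mk.symm.monotone h
  split_ifs with h1 h2
  · rfl
  · exact absurd (h1.trans this) h2
  · norm_num
  · rfl

theorem g_bd (a : OO.ToType) (t : Set.Iic OO) : 0 ≤ g a t ∧ g a t ≤ 1 := by
  rw [g_apply]; split_ifs <;> norm_num

theorem alt (α β : ℕ → OO.ToType) (h1 : ∀ i, β i ≤ α i) (h2 : ∀ i, α i ≤ β (i + 1)) (n : ℕ) :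
    ‖∑ i ∈ Finset.range n, (g (α i) - g (β i))‖ ≤ 1 := by
  rw [BoundedContinuousFunction.norm_le zero_le_one]
  intro t
  have : 0 ≤ (∑ i ∈ Finset.range n, (g (α i) - g (β i))) t ∧
      (∑ i ∈ Finset.range n, (g (α i) - g (β i))) t ≤ g (β n) t - g (β 0) t := by
    induction n with
    | zero => simp
    | succ n ih =>
      rw [Finset.sum_range_succ, BoundedContinuousFunction.add_apply,
        BoundedContinuousFunction.sub_apply]
      have := g_mono (h1 n) t
      have := g_mono (h2 n) t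
      constructor <;> linarith [ih.1, ih.2]
  rw [Real.norm_eq_abs, abs_le]
  constructor <;> linarith [this.1, this.2, g_bd (β n) t, g_bd (β 0) t]

/-- The negation of the preceding statement: There is a real Banach space with a linearly dense set M and a norming family of functionals each nonzero on only countably many points of M (a Plichko space) into which C([0,ω₂]) embeds isomorphically. -/
theorem result :
    ¬ (∃ (X : Type) (_ : NormedAddCommGroup X) (_ : NormedSpace ℝ X) (_ : CompleteSpace X),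
      (∃ M : Set X, Dense ((Submodule.span ℝ M : Submodule ℝ X) : Set X) ∧
        ∃ c : ℝ, 0 < c ∧ ∀ x : X, ∃ f : X →L[ℝ] ℝ,
          Set.Countable {m ∈ M | f m ≠ 0} ∧ ‖f‖ ≤ 1 ∧ c * ‖x‖ ≤ |f x|) ∧
      ∃ T : BoundedContinuousFunction (Set.Iic (Cardinal.aleph.{0} 2).ord) ℝ →L[ℝ] X,
        ∃ c : ℝ, 0 < c ∧ ∀ g, c * ‖g‖ ≤ ‖T g‖) := by
  rintro ⟨X, _, _, _, ⟨M, hM, c, hc, hN⟩, T, c', hc', hT⟩
  have hI : ℵ₁ < #OO.ToType := by
    rw [mk_ord_toType]; exact aleph_lt_aleph.2 one_lt_two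
  obtain ⟨E, w, hE, hf⟩ := stab M hM hI (fun a => T (g a)) (ε := c * c' / 8) (by positivity)
  choose nx n1 n2 using gap hE
  obtain ⟨b0, _⟩ := exists_not_mem hE (B := ∅) (by simp)
  let β : ℕ → OO.ToType := fun i => nx^[i] b0
  have hβ : ∀ i, β (i + 1) = nx (β i) := fun i => Function.iterate_succ_apply' _ _ _
  have mβ : StrictMono β := strictMono_nat_of_lt_succ fun i => by rw [hβ]; exact n1 _
  obtain ⟨n, hn⟩ := exists_nat_gt (4 * ‖T‖ / (c * c'))
  obtain ⟨f, f1, f2, f3⟩ := hN (T (∑ i ∈ Finset.range n, (g (β (n + i)) - g (β i))))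
  obtain ⟨B, B1, B2⟩ := hf f f1 f2
  have : ∀ i, ∃ a ∈ E ∩ Ioo (β i) (β (i + 1)), a ∉ B := by
    intro i
    by_contra k
    push Not at k
    rw [hβ] at k
    exact n2 _ (B1.mono k)
  choose α a1 a2 using this
  have low : (n : ℝ) ≤ ‖∑ i ∈ Finset.range n, (g (β (n + i)) - g (β i))‖ := by
    refine le_trans ?_ (BoundedContinuousFunction.norm_coe_le_norm _
      ⟨(Ordinal.ToType.mk.symm (β n)).1, Iio_subset_Iic_self (Ordinal.ToType.mk.symm (β n)).2⟩)
    rw [BoundedContinuousFunction.sum_apply, Finset.sum_congr rfl (g := fun _ => (1 : ℝ))]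
    · simp
    · intro i hi
      rw [BoundedContinuousFunction.sub_apply, g_apply, g_apply, if_pos, if_neg, sub_zero]
      · exact not_le.2 (Ordinal.ToType.mk.symm.strictMono (mβ (Finset.mem_range.1 hi)))
      · exact Ordinal.ToType.mk.symm.monotone (mβ.monotone (Nat.le_add_right n i))
  have up : ∀ k, |f (T (∑ i ∈ Finset.range n, (g (α (k + i)) - g (β (k + i)))))| ≤ ‖T‖ := by
    intro k
    refine (f.le_opNorm _).trans ((mul_le_of_le_one_left (norm_nonneg _) f2).trans ?_)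
    exact (T.le_opNorm _).trans (mul_le_of_le_one_right (norm_nonneg _)
      (alt (fun i => α (k + i)) (fun i => β (k + i)) (fun i => (a1 _).2.1.le)
        (fun i => (a1 _).2.2.le) n))
  have mid : |∑ i ∈ Finset.range n, (f (T (g (α (n + i)))) - f (T (g (α (0 + i)))))| ≤
      n * (4 * (c * c' / 8)) := by
    refine (Finset.abs_sum_le_sum_abs _ _).trans ?_
    refine (Finset.sum_le_card_nsmul _ _ (4 * (c * c' / 8)) fun i _ => ?_).trans (by simp)
    have p := B2 _ (a1 (n + i)).1 (a2 _)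
    have q := B2 _ (a1 (0 + i)).1 (a2 _)
    rw [abs_le] at *
    constructor <;> linarith [p.1, p.2, q.1, q.2]
  have u1 := up n
  have u2 := up 0
  have l2 := (mul_le_mul_of_nonneg_left low hc'.le).trans (hT _)
  have l3 := (mul_le_mul_of_nonneg_left l2 hc.le).trans f3
  simp only [map_sum, map_sub, Finset.sum_sub_distrib, zero_add] at u1 u2 l3 mid
  rw [div_lt_iff₀ (by positivity)] at hn
  rw [abs_le] at u1 u2 mid
  rcases le_abs.1 l3 with k | k <;> nlinarith [u1.1, u1.2, u2.1, u2.2, mid.1, mid.2]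

end Pool.Agent.S04134
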