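import Pool.Statements.S04150
-- import your own Pool.Agent.* helpers here

set_option autoImplicit false
open Pool Pool.MP_299699_an

namespace Pool.Agent.S04150

abbrev H : Type := lp (fun _ : ℕ => ℝ) 2

lemma dual_repr (φ : StrongDual ℝ (H × ℝ)) :
    ∃ h : H, ∀ x : H, ∀ t : ℝ, φ (x, t) = inner ℝ h x + t * φ (0, 1) := by
  refine ⟨(InnerProductSpace.toDual ℝ H).symm (φ.comp (ContinuousLinearMap.inl ℝ H ℝ)), ?_⟩
  intro x t
  rw [InnerProductSpace.toDual_symm_apply]
  have : ((x, t) : H × ℝ) = (x, 0) + t • (0, 1) := by simp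
  rw [this, map_add, map_smul]
  simp

noncomputable def psi : H →L[ℝ] StrongDual ℝ (H × ℝ) :=
  (((ContinuousLinearMap.compL ℝ (H × ℝ) H ℝ).flip (ContinuousLinearMap.fst ℝ H ℝ)).comp
    (innerSL ℝ : H →L[ℝ] H →L[ℝ] ℝ))

lemma psi_apply (h x : H) (t : ℝ) : psi h (x, t) = inner ℝ h x := by
  simp [psi]

lemma refl : Function.Surjective (NormedSpace.inclusionInDoubleDual ℝ (H × ℝ)) := by
  intro Φ
  refine ⟨((InnerProductSpace.toDual ℝ H).symm (Φ.comp psi), Φ (ContinuousLinearMap.snd ℝ H ℝ)), ?_⟩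
  ext1 φ
  obtain ⟨h, hh⟩ := dual_repr φ
  have e : φ = psi h + φ (0, 1) • ContinuousLinearMap.snd ℝ H ℝ := by
    apply ContinuousLinearMap.ext
    rintro ⟨x, t⟩
    rw [hh, ContinuousLinearMap.add_apply, psi_apply]
    simp [mul_comm]
  rw [NormedSpace.dual_def, hh, real_inner_comm, InnerProductSpace.toDual_symm_apply]
  conv_rhs => rw [e]
  simp [mul_comm]

def C : Set (H × ℝ) := Metric.closedBall 0 1 ×ˢ {0}

lemma wc : IsCompact ((toWeakSpace ℝ (H × ℝ)) '' C) := by
  let j : WeakDual ℝ H → WeakSpace ℝ (H × ℝ) := fun φ =>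
    toWeakSpace ℝ (H × ℝ) ((InnerProductSpace.toDual ℝ H).symm (WeakDual.toStrongDual φ), 0)
  have hj : Continuous j := by
    apply WeakBilin.continuous_of_continuous_eval
    intro φ
    obtain ⟨h, hh⟩ := dual_repr φ
    have : (fun a : WeakDual ℝ H => ((topDualPairing ℝ (H × ℝ)).flip (j a)) φ) = fun a => a h := by
      funext a
      show φ ((InnerProductSpace.toDual ℝ H).symm (WeakDual.toStrongDual a), 0) = a h
      rw [hh, real_inner_comm, InnerProductSpace.toDual_symm_apply]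
      simp
    rw [this]
    exact WeakDual.eval_continuous h
  have hc := (WeakDual.isCompact_closedBall (𝕜 := ℝ) (E := H) 0 1).image hj
  convert hc using 1
  ext z
  constructor
  · rintro ⟨⟨x, t⟩, ⟨hx, ht⟩, rfl⟩
    refine ⟨StrongDual.toWeakDual (InnerProductSpace.toDual ℝ H x), ?_, ?_⟩
    · simpa using hx
    · have : t = 0 := ht
      simp [j, this]
  · rintro ⟨φ, hφ, rfl⟩
    refine ⟨((InnerProductSpace.toDual ℝ H).symm (WeakDual.toStrongDual φ), 0), ⟨?_, rfl⟩, rfl⟩
    simpa using hφ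

noncomputable def e (n : ℕ) : H := lp.single 2 n (1 : ℝ)

lemma norm_e (n : ℕ) : ‖e n‖ = 1 := by
  simp [e, lp.norm_single]

lemma sep (n m : ℕ) (h : n ≠ m) : 1 ≤ ‖e n - e m‖ := by
  have := lp.norm_apply_le_norm (p := 2) (by norm_num) (e n - e m) n
  simpa [e, lp.single_apply, Pi.single_apply, h] using this

def S : Set (H × ℝ) := Set.range fun n : ℕ => (e n, 1 / ((n : ℝ) + 1))

lemma pos (x : H) : Metric.infDist ((x, 0) : H × ℝ) S ≠ 0 := by
  intro h
  have hne : S.Nonempty := ⟨_, 0, rfl⟩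
  obtain ⟨_, ⟨n, rfl⟩, hn⟩ := (Metric.infDist_lt_iff hne).1 (h ▸ (by norm_num : (0 : ℝ) < 1 / 2))
  obtain ⟨_, ⟨m, rfl⟩, hm⟩ := (Metric.infDist_lt_iff hne).1
    (h ▸ (by positivity : (0 : ℝ) < min (1 / 2) (1 / ((n : ℝ) + 1))))
  rw [Prod.dist_eq, max_lt_iff] at hn hm
  simp only [lt_min_iff] at hm
  have hnm : n ≠ m := by
    rintro rfl
    have := hm.2.2
    rw [dist_comm, Real.dist_eq, sub_zero, abs_of_pos (by positivity)] at this
    exact lt_irrefl _ this
  have h1 := sep n m hnm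
  have h2 := dist_triangle_left (e n) (e m) x
  rw [dist_eq_norm] at h2
  linarith [hn.1, hm.1.1]

/-- The negation of the preceding statement: In every reflexive real Banach space, if C is closed, convex, weakly compact with normal structure and f is nonexpansive on C, then the set of values x minus f(x) for x in C is closed. -/
theorem result :
    ¬ (∀ (X : Type) [NormedAddCommGroup X] [NormedSpace ℝ X] [CompleteSpace X],
    Function.Surjective (NormedSpace.inclusionInDoubleDual ℝ X) →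
    ∀ (C : Set X), IsClosed C → Convex ℝ C → IsCompact ((toWeakSpace ℝ X) '' C) →
    (∀ K : Set X, K ⊆ C → Convex ℝ K → (∃ a ∈ K, ∃ b ∈ K, a ≠ b) →
        ∃ x ∈ K, ∃ r : ℝ, r < Metric.diam K ∧ ∀ y ∈ K, dist x y ≤ r) →
    ∀ f : X → X, (∀ x ∈ C, ∀ y ∈ C, dist (f x) (f y) ≤ dist x y) →
    IsClosed {z : X | ∃ x ∈ C, z = x - f x}) := by
  intro hall
  have hcl := hall (H × ℝ) refl C (Metric.isClosed_closedBall.prod isClosed_singleton)
    ((convex_closedBall 0 1).prod (convex_singleton 0)) wc ?_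
    (fun x => (x.1, Metric.infDist ((x.1, 0) : H × ℝ) S)) ?_
  · have hmem : ((0, 0) : H × ℝ) ∈ closure {z : H × ℝ | ∃ x ∈ C,
        z = x - (x.1, Metric.infDist ((x.1, 0) : H × ℝ) S)} := by
      rw [Metric.mem_closure_iff]
      intro ε hε
      obtain ⟨n, hn⟩ := exists_nat_one_div_lt hε
      refine ⟨_, ⟨(e n, 0), ⟨by simp [norm_e], rfl⟩, rfl⟩, ?_⟩
      have h1 : Metric.infDist ((e n, 0) : H × ℝ) S ≤ dist ((e n, 0) : H × ℝ) (e n, 1 / ((n : ℝ) + 1)) :=
        Metric.infDist_le_dist_of_mem ⟨n, rfl⟩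
      rw [Prod.dist_eq, dist_self, dist_comm, Real.dist_eq, sub_zero, abs_of_pos (by positivity),
        max_eq_right (by positivity)] at h1
      have h0 := Metric.infDist_nonneg (x := ((e n, 0) : H × ℝ)) (s := S)
      rw [Prod.dist_eq]
      simp only [Prod.fst_sub, Prod.snd_sub, sub_self, dist_self, zero_sub, dist_zero_left, norm_neg,
        Real.norm_of_nonneg h0, max_lt_iff]
      exact ⟨hε, by linarith⟩
    rw [hcl.closure_eq] at hmem
    obtain ⟨x, hx, h⟩ := hmem
    have h2 := congrArg Prod.snd h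
    have h3 : x.2 = 0 := hx.2
    simp only [Prod.snd_sub, h3, zero_sub] at h2
    exact pos x.1 (by linarith)
  · rintro K hK hconv ⟨a, ha, b, hb, hab⟩
    have hbd : Bornology.IsBounded K :=
      (Metric.isBounded_closedBall.prod Bornology.isBounded_singleton).subset hK
    have hd : ∀ x ∈ K, ∀ y ∈ K, dist x y = ‖x.1 - y.1‖ := by
      intro x hx y hy
      have h1 : x.2 = 0 := (hK hx).2
      have h2 : y.2 = 0 := (hK hy).2
      rw [Prod.dist_eq, h1, h2, dist_self, max_eq_left dist_nonneg, dist_eq_norm]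
    have hm : (1 / 2 : ℝ) • a + (1 / 2 : ℝ) • b ∈ K := hconv ha hb (by norm_num) (by norm_num) (by norm_num)
    have hpos : 0 < ‖a.1 - b.1‖ := by rw [← hd a ha b hb]; exact dist_pos.2 hab
    have hle : ‖a.1 - b.1‖ ≤ Metric.diam K := by
      rw [← hd a ha b hb]; exact Metric.dist_le_diam_of_mem hbd ha hb
    refine ⟨_, hm, Real.sqrt (Metric.diam K ^ 2 - ‖a.1 - b.1‖ ^ 2 / 4), ?_, fun y hy => ?_⟩
    · rw [Real.sqrt_lt' (by linarith)]
      nlinarith
    · rw [hd _ hm y hy]
      apply Real.le_sqrt_of_sq_le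
      have h1 : ‖a.1 - y.1‖ ≤ Metric.diam K := by
        rw [← hd a ha y hy]; exact Metric.dist_le_diam_of_mem hbd ha hy
      have h2 : ‖b.1 - y.1‖ ≤ Metric.diam K := by
        rw [← hd b hb y hy]; exact Metric.dist_le_diam_of_mem hbd hb hy
      have hp := parallelogram_law_with_norm ℝ (a.1 - y.1) (b.1 - y.1)
      have e1 : ((1 / 2 : ℝ) • a + (1 / 2 : ℝ) • b).1 - y.1 = (1 / 2 : ℝ) • (a.1 - y.1 + (b.1 - y.1)) := by
        simp only [Prod.fst_add, Prod.smul_fst]
        module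
      have e2 : a.1 - y.1 - (b.1 - y.1) = a.1 - b.1 := by abel
      rw [e1, norm_smul, Real.norm_of_nonneg (by norm_num)]
      rw [e2] at hp
      nlinarith [norm_nonneg (a.1 - y.1), norm_nonneg (b.1 - y.1)]
  · intro x hx y hy
    have h1 : x.2 = 0 := hx.2
    have h2 : y.2 = 0 := hy.2
    have h3 := (Metric.lipschitz_infDist_pt S).dist_le_mul ((x.1, 0) : H × ℝ) (y.1, 0)
    rw [Prod.dist_eq, Prod.dist_eq (x := x), h1, h2]
    simp only [NNReal.coe_one, one_mul, Prod.dist_eq, dist_self] at h3 ⊢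
    exact max_le (le_max_left _ _) h3

end Pool.Agent.S04150
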