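import Pool.Statements.S04194
import Pool.Agent.H22.Tilf1

set_option autoImplicit false
open Pool Pool.MP_2cf295_an

namespace Pool.Agent.S04194

open Pool.Agent.H22.Tilf

lemma half_neg (f : CT) (hf : ∀ n ∉ {k : ℤ | Odd k}, fourierCoeff (⇑f) n = 0) :
    T (((1 / 2 : ℝ) : ℝ) : UnitAddCircle) f = (-1 : ℂ) • f := by
  have : T (((1 / 2 : ℝ) : ℝ) : UnitAddCircle) f + f = 0 := by
    refine eq_zero_of_F _ fun k => ?_
    rw [map_add, F_T]
    by_cases hk : Odd k
    · obtain ⟨j, rfl⟩ := hk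
      have : fourier (2 * j + 1) (((1 / 2 : ℝ) : ℝ) : UnitAddCircle) = -1 := by
        rw [fourier_coe_apply]
        have e : 2 * (Real.pi : ℂ) * Complex.I * ((2 * j + 1 : ℤ) : ℂ) * ((1 / 2 : ℝ) : ℂ) / ((1 : ℝ) : ℂ)
            = j * (2 * Real.pi * Complex.I) + Real.pi * Complex.I := by push_cast; ring
        rw [e, Complex.exp_add, Complex.exp_int_mul_two_pi_mul_I, Complex.exp_pi_mul_I, one_mul]
      rw [this]; ring
    · rw [F_apply, hf k hk]; simp
  ext t
  have := congrArg (fun g : CT => g t) this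
  simp only [ContinuousMap.add_apply, ContinuousMap.zero_apply] at this
  rw [ContinuousMap.smul_apply, smul_eq_mul]
  linear_combination this


/-- The negation of the preceding statement: For every set E of integers: every translation-invariant linear functional on continuous circle functions with Fourier spectrum in E is sup-norm bounded if and only if E is a Sidon set. -/
theorem result :
    ¬ (∀ E : Set ℤ,
    (∀ φ : C(UnitAddCircle, ℂ) → ℂ,
      (∀ f g : C(UnitAddCircle, ℂ),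
          (∀ n ∉ E, fourierCoeff (⇑f) n = 0) →
          (∀ n ∉ E, fourierCoeff (⇑g) n = 0) →
          φ (f + g) = φ f + φ g) →
      (∀ (c : ℂ) (f : C(UnitAddCircle, ℂ)),
          (∀ n ∉ E, fourierCoeff (⇑f) n = 0) → φ (c • f) = c * φ f) →
      (∀ (a : UnitAddCircle) (f : C(UnitAddCircle, ℂ)),
          (∀ n ∉ E, fourierCoeff (⇑f) n = 0) →
          φ (f.comp (ContinuousMap.mk (fun x : UnitAddCircle => x + a)
            (continuous_add_right a))) = φ f) →
      ∃ C : ℝ, ∀ f : C(UnitAddCircle, ℂ),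
          (∀ n ∉ E, fourierCoeff (⇑f) n = 0) → ‖φ f‖ ≤ C * ‖f‖)
    ↔
    (∃ C : ℝ, ∀ (s : Finset ℤ) (c : ℤ → ℂ), (↑s ⊆ E) →
        ∑ n ∈ s, ‖c n‖ ≤ C * ‖∑ n ∈ s, c n • (fourier n : C(UnitAddCircle, ℂ))‖)) := by
  intro h
  obtain ⟨C, hC⟩ := (h {k : ℤ | Odd k}).1 (fun φ _ h2 h3 => ⟨0, fun f hf => by
    have e1 := h3 (((1 / 2 : ℝ) : ℝ) : UnitAddCircle) f hf
    have e2 : φ (T (((1 / 2 : ℝ) : ℝ) : UnitAddCircle) f) = φ f := e1
    rw [half_neg f hf, h2 _ _ hf] at e2
    have : φ f = 0 := by linear_combination (-1 / 2 : ℂ) * e2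
    simp [this]⟩)
  obtain ⟨n, hn⟩ := no_const C
  obtain ⟨c, h1, h2⟩ := flat n 1 2
  have inj : Set.InjOn (fun k : ℕ => (1 : ℤ) + 2 * k) (Finset.range (2 ^ n) : Finset ℕ) := by
    intro x _ y _ hxy
    simp only at hxy
    omega
  have := hC ((Finset.range (2 ^ n)).image fun k : ℕ => (1 : ℤ) + 2 * k)
    (fun m => c ((m - 1) / 2).toNat) (by
      intro m hm
      simp only [Finset.coe_image, Set.mem_image] at hm
      obtain ⟨k, _, rfl⟩ := hm
      exact ⟨k, by ring⟩)
  rw [Finset.sum_image inj, Finset.sum_image inj] at this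
  have e : ∀ k : ℕ, (((1 : ℤ) + 2 * k - 1) / 2).toNat = k := fun k => by omega
  simp only [e, h1, Finset.sum_const, Finset.card_range, nsmul_eq_mul, mul_one] at this
  push_cast at this
  exact hn _ (norm_nonneg _) h2 this

end Pool.Agent.S04194
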