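import Pool.Statements.S04202
import Pool.Agent.H4.Hol3

set_option autoImplicit false
open Filter Topology
open Pool Pool.MP_2d5ed4_an

namespace Pool.Agent.S04202

/-- The negation of the preceding statement: For a complex Fréchet space X and a holomorphic, strongly continuous group of operators T_z (z in ℂ) with every T_z, z ≠ 0, hypercyclic, some single vector has a dense T_z-orbit for every nonzero z. -/
theorem result :
    ¬ (∀ (X : Type) [AddCommGroup X] [Module ℂ X] [UniformSpace X] [IsUniformAddGroup X]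
      [ContinuousSMul ℂ X] [LocallyConvexSpace ℝ X] [CompleteSpace X]
      [TopologicalSpace.MetrizableSpace X] (T : ℂ → (X →L[ℂ] X)),
      T 0 = ContinuousLinearMap.id ℂ X →
      (∀ z w : ℂ, T (z + w) = (T z).comp (T w)) →
      (∀ x : X, Continuous (fun z : ℂ => T z x)) →
      (∀ (x : X) (z : ℂ), ∃ v : X,
        Tendsto (fun h : ℂ => h⁻¹ • (T (z + h) x - T z x)) (𝓝[≠] (0 : ℂ)) (𝓝 v)) →
      (∀ z : ℂ, z ≠ 0 → ∃ y : X, Dense (Set.range (fun n : ℕ => (⇑(T z))^[n] y))) →
      ∃ y : X, ∀ z : ℂ, z ≠ 0 → Dense (Set.range (fun n : ℕ => (⇑(T z))^[n] y))) := by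
  intro h
  obtain ⟨x, hx⟩ := @h (H4.Hol.X × H4.Hol.X) _ _ _ _ _
    (@NormedSpace.toLocallyConvexSpace _ _ NormedSpace.complexToReal) _ _ H4.Hol.T
    H4.Hol.T_zero H4.Hol.T_add H4.Hol.T_cont H4.Hol.T_hol H4.Hol.T_hyp
  exact H4.Hol.no_common x hx

end Pool.Agent.S04202
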