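import Pool.Statements.S04226

set_option autoImplicit false
open Pool Pool.MP_2eee10_an

namespace Pool.Agent.S04226

noncomputable def f (a b c : ℝ) : ℝ := (8512 * b + 6251 * a) / (449 * c + 4435 * b + 37 * a)

def Sol (x : ℕ → ℝ) : Prop :=
  (∀ n, 0 < x n) ∧ ∀ n : ℕ, x (n + 3) = f (x n) (x (n + 1)) (x (n + 2))

lemma f_pos {a b c : ℝ} (ha : 0 < a) (hb : 0 < b) (hc : 0 < c) : 0 < f a b c := by
  unfold f; positivity

lemma f_le {a b c : ℝ} (ha : 0 < a) (hb : 0 < b) (hc : 0 < c) : f a b c ≤ 169 := by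
  unfold f
  rw [div_le_iff₀ (by positivity)]
  nlinarith

lemma f_con {a b c r : ℝ} (hr : r ≤ 1 / 10) (ha : |a - 3| ≤ r) (hb : |b - 3| ≤ r)
    (hc : |c - 3| ≤ r) : |f a b c - 3| ≤ 9 / 10 * r := by
  have hr0 : 0 ≤ r := (abs_nonneg _).trans ha
  rw [abs_le] at ha hb hc
  have hD : (14270 : ℝ) ≤ 449 * c + 4435 * b + 37 * a := by linarith
  have hD0 : (0 : ℝ) < 449 * c + 4435 * b + 37 * a := by linarith
  have h1 : 9 / 10 * r * 14270 ≤ 9 / 10 * r * (449 * c + 4435 * b + 37 * a) :=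
    mul_le_mul_of_nonneg_left hD (by positivity)
  unfold f
  rw [abs_le]
  constructor
  · rw [le_sub_iff_add_le, le_div_iff₀ hD0]
    nlinarith
  · rw [sub_le_iff_le_add, div_le_iff₀ hD0]
    nlinarith

noncomputable def st (y : ℕ → ℝ) : ℕ → ℝ × ℝ × ℝ
  | 0 => (y 0, y 1, y 2)
  | n + 1 => ((st y n).2.1, (st y n).2.2, f (st y n).1 (st y n).2.1 (st y n).2.2)

lemma exists_sol (y : ℕ → ℝ) (hy : ∀ i : ℕ, i < 3 → 0 < y i) :
    ∃ x : ℕ → ℝ, Sol x ∧ ∀ i : ℕ, i < 3 → x i = y i := by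
  have hp : ∀ n, 0 < (st y n).1 ∧ 0 < (st y n).2.1 ∧ 0 < (st y n).2.2 := by
    intro n
    induction n with
    | zero => exact ⟨hy 0 (by norm_num), hy 1 (by norm_num), hy 2 (by norm_num)⟩
    | succ n ih => exact ⟨ih.2.1, ih.2.2, f_pos ih.1 ih.2.1 ih.2.2⟩
  refine ⟨fun n => (st y n).1, ⟨fun n => (hp n).1, fun n => rfl⟩, ?_⟩
  intro i hi
  interval_cases i <;> rfl

lemma bdd (x : ℕ → ℝ) (hx : Sol x) : ∃ M : ℝ, ∀ n, x n ≤ M := by
  refine ⟨x 0 + x 1 + x 2 + 169, fun n => ?_⟩
  have h0 := hx.1 0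
  have h1 := hx.1 1
  have h2 := hx.1 2
  match n with
  | 0 => linarith
  | 1 => linarith
  | 2 => linarith
  | n + 3 =>
    have := f_le (hx.1 n) (hx.1 (n + 1)) (hx.1 (n + 2))
    rw [hx.2 n]
    linarith

lemma decay (x : ℕ → ℝ) (hx : Sol x) (r q : ℝ) (hr0 : 0 ≤ r) (hr : r ≤ 1 / 10) (hq0 : 0 ≤ q)
    (hq : q ≤ 1) (hq3 : 9 / 10 ≤ q ^ 3) (h : ∀ i : ℕ, i < 3 → |x i - 3| ≤ r * q ^ i) (n : ℕ) :
    |x n - 3| ≤ r * q ^ n := by
  induction n using Nat.strong_induction_on with
  | _ n ih =>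
    by_cases hn : n < 3
    · exact h n hn
    · obtain ⟨m, rfl⟩ : ∃ m, n = m + 3 := ⟨n - 3, by omega⟩
      have hm : ∀ j, r * q ^ (m + j) ≤ r * q ^ m := fun j =>
        mul_le_mul_of_nonneg_left (pow_le_pow_of_le_one hq0 hq (by omega)) hr0
      have hm0 : r * q ^ m ≤ 1 / 10 :=
        (mul_le_of_le_one_right hr0 (pow_le_one₀ hq0 hq)).trans hr
      have := f_con hm0 (ih m (by omega)) ((ih (m + 1) (by omega)).trans (hm 1))
        ((ih (m + 2) (by omega)).trans (hm 2))
      rw [hx.2 m]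
      refine this.trans ?_
      rw [pow_add]
      have : 0 ≤ r * q ^ m := by positivity
      nlinarith

noncomputable def per (n : ℕ) : ℝ := if n % 3 = 0 then 2 else if n % 3 = 1 then 32 else 1

lemma per_sol : Sol per := by
  constructor
  · intro n
    unfold per
    split_ifs <;> norm_num
  · intro n
    have h : n % 3 = 0 ∨ n % 3 = 1 ∨ n % 3 = 2 := by omega
    rcases h with h | h | h
    · have h1 : (n + 1) % 3 = 1 := by omega
      have h2 : (n + 2) % 3 = 2 := by omega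
      have h3 : (n + 3) % 3 = 0 := by omega
      simp only [per, f, h, h1, h2, h3]
      norm_num
    · have h1 : (n + 1) % 3 = 2 := by omega
      have h2 : (n + 2) % 3 = 0 := by omega
      have h3 : (n + 3) % 3 = 1 := by omega
      simp only [per, f, h, h1, h2, h3]
      norm_num
    · have h1 : (n + 1) % 3 = 0 := by omega
      have h2 : (n + 2) % 3 = 1 := by omega
      have h3 : (n + 3) % 3 = 2 := by omega
      simp only [per, f, h, h1, h2, h3]
      norm_num

/-- The negation of the preceding statement: For any k ≥ 1 and nonnegative parameters where all positive initial values give positive, bounded solutions of the rational recurrence, any locally asymptotically stable equilibrium attracts every positive solution. -/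
theorem result :
    ¬ (∀ (k : ℕ), 1 ≤ k → ∀ (α A : ℝ) (β B : Fin k → ℝ), 0 ≤ α → 0 ≤ A →
    (∀ j, 0 ≤ β j) → (∀ j, 0 ≤ B j) →
    ∀ S : (ℕ → ℝ) → Prop,
      (∀ x : ℕ → ℝ, S x ↔ ((∀ n, 0 < x n) ∧
        ∀ n : ℕ, k ≤ n →
          (0 < A + ∑ j : Fin k, B j * x (n - 1 - (j : ℕ)) ∧
           x n = (α + ∑ j : Fin k, β j * x (n - 1 - (j : ℕ))) /
                 (A + ∑ j : Fin k, B j * x (n - 1 - (j : ℕ)))))) →
      (∀ y : ℕ → ℝ, (∀ i : ℕ, i < k → 0 < y i) →
        ∃ x : ℕ → ℝ, S x ∧ ∀ i : ℕ, i < k → x i = y i) →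
      (∀ x : ℕ → ℝ, S x → ∃ M : ℝ, ∀ n, x n ≤ M) →
      ∀ xbar : ℝ, 0 ≤ xbar →
        xbar * (A + ∑ j : Fin k, B j * xbar) = α + ∑ j : Fin k, β j * xbar →
        (∀ ε : ℝ, 0 < ε → ∃ δ : ℝ, 0 < δ ∧ ∀ x : ℕ → ℝ, S x →
          (∀ i : ℕ, i < k → |x i - xbar| < δ) → ∀ n : ℕ, k ≤ n → |x n - xbar| < ε) →
        (∃ γ : ℝ, 0 < γ ∧ ∀ x : ℕ → ℝ, S x →
          (∀ i : ℕ, i < k → |x i - xbar| < γ) →
          Filter.Tendsto x Filter.atTop (nhds xbar)) →
        ∀ x : ℕ → ℝ, S x → Filter.Tendsto x Filter.atTop (nhds xbar)) := by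
  intro h
  have key := h 3 (by norm_num) 0 0 ![0, 8512, 6251] ![449, 4435, 37] le_rfl le_rfl
    (by intro j; fin_cases j <;> simp) (by intro j; fin_cases j <;> simp) Sol (by
      intro x
      unfold Sol
      refine and_congr_right fun hp => ⟨fun hx n hn => ?_, fun hx n => ?_⟩
      · obtain ⟨m, rfl⟩ : ∃ m, n = m + 3 := ⟨n - 3, by omega⟩
        have h0 := hp m
        have h1 := hp (m + 1)
        have h2 := hp (m + 2)
        rw [hx m]
        simp only [Fin.sum_univ_three, f]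
        constructor
        · simp
          positivity
        · simp
      · rw [(hx (n + 3) (by omega)).2]
        simp only [Fin.sum_univ_three, f]
        simp)
    exists_sol bdd 3 (by norm_num) (by simp [Fin.sum_univ_three]; norm_num)
    (by
      intro ε hε
      refine ⟨min (ε / 2) (1 / 10), by positivity, fun x hx h0 n _ => ?_⟩
      have := decay x hx (min (ε / 2) (1 / 10)) 1 (by positivity) (min_le_right _ _) (by norm_num)
        le_rfl (by norm_num) (fun i hi => by simpa using (h0 i hi).le) n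
      have h2 := min_le_left (ε / 2) (1 / 10)
      rw [one_pow, mul_one] at this
      linarith)
    (by
      refine ⟨9 / 100, by norm_num, fun x hx h0 => ?_⟩
      have hd := decay x hx (1 / 10) (97 / 100) (by norm_num) le_rfl (by norm_num) (by norm_num)
        (by norm_num) (fun i hi => by
          refine (h0 i hi).le.trans ?_
          interval_cases i <;> norm_num)
      rw [tendsto_iff_dist_tendsto_zero]
      refine squeeze_zero (g := fun n => (1 / 10 : ℝ) * (97 / 100) ^ n) (fun _ => dist_nonneg)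
        (fun n => by rw [Real.dist_eq]; exact hd n) ?_
      have := (tendsto_pow_atTop_nhds_zero_of_lt_one (r := (97 / 100 : ℝ)) (by norm_num)
        (by norm_num)).const_mul (1 / 10 : ℝ)
      simpa using this)
    per per_sol
  rw [Metric.tendsto_atTop] at key
  obtain ⟨N, hN⟩ := key 1 (by norm_num)
  have := hN N le_rfl
  rw [Real.dist_eq, abs_lt] at this
  unfold per at this
  split_ifs at this <;> linarith [this.1, this.2]

end Pool.Agent.S04226
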