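import Pool.Statements.S04239
import Pool.Agent.H9.Supp4

set_option autoImplicit false
open Pool Pool.MP_2f7009_an

namespace Pool.Agent.S04239

/-- For every separable real Banach space X, whenever countably many sets of functionals cover the weak*-exposed points of the dual ball, the dual ball lies in the norm-closed convex hull of the union of their weak*-closed convex hulls. -/
theorem result :
    ∀ (X : Type) [NormedAddCommGroup X] [NormedSpace ℝ X] [CompleteSpace X]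
      [TopologicalSpace.SeparableSpace X],
      ∀ B : ℕ → Set (X →L[ℝ] ℝ),
        {φ : X →L[ℝ] ℝ | ‖φ‖ ≤ 1 ∧ ∃ x : X, ∀ ψ : X →L[ℝ] ℝ, ‖ψ‖ ≤ 1 → ψ ≠ φ → ψ x < φ x}
          ⊆ ⋃ n, B n →
        Metric.closedBall (0 : X →L[ℝ] ℝ) 1 ⊆
          closure (convexHull ℝ (⋃ n, {φ : X →L[ℝ] ℝ | ∀ F : Finset X, ∀ ε : ℝ, 0 < ε →
            ∃ ψ ∈ convexHull ℝ (B n), ∀ x ∈ F, |φ x - ψ x| < ε})) := by
  intro X _ _ _ _ B hB f0 hf0
  by_contra hn
  obtain ⟨G, u, h1, h2⟩ := geometric_hahn_banach_closed_point (convex_convexHull ℝ _).closure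
    isClosed_closure hn
  have hc : 0 < (‖G‖ + 1)⁻¹ := by positivity
  let F : H9.Supp3.W X →ₗ[ℝ] ℝ := (‖G‖ + 1)⁻¹ • (G : (X →L[ℝ] ℝ) →ₗ[ℝ] ℝ)
  have hF : ∀ g : X →L[ℝ] ℝ, F g = (‖G‖ + 1)⁻¹ * G g := fun _ => rfl
  have hF' : ∀ g : X →L[ℝ] ℝ, -‖g‖ ≤ F g := fun g => by
    rw [hF, le_inv_mul_iff₀ (by positivity)]
    have h3 := neg_le_of_abs_le (G.le_opNorm g)
    have h4 := norm_nonneg g
    linarith
  obtain ⟨r, d, hd, h3, h4⟩ : ∃ r d : ℝ, 0 < d ∧ r + d = (‖G‖ + 1)⁻¹ * u ∧ F f0 = r + 3 * d :=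
    ⟨_, (F f0 - (‖G‖ + 1)⁻¹ * u) / 2, by
      have := mul_lt_mul_of_pos_left h2 hc
      rw [hF]; linarith, sub_add_cancel _ _, by ring⟩
  have hK : IsCompact (H9.Supp4.K X) := WeakDual.isCompact_closedBall 0 1
  have hK' : Convex ℝ (H9.Supp4.K X) :=
    (convex_closedBall (0 : X →L[ℝ] ℝ) 1).linear_preimage WeakDual.toStrongDual.toLinearMap
  let A : ℕ → Set (H9.Supp3.W X) := fun n => closure (convexHull ℝ (H9.Supp4.K X ∩ B n))
  have h8 : ∀ i, H9.Supp3.Good F (A i ×ˢ {r + d}) := fun i => by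
    refine ⟨(hK.of_isClosed_subset isClosed_closure (closure_minimal (convexHull_min
      Set.inter_subset_left hK') hK.isClosed)).prod isCompact_singleton,
      (convex_convexHull _ _).closure.prod (convex_singleton _), fun p hp => ?_⟩
    refine le_of_le_of_eq (mul_le_mul_of_nonneg_left (h1 p.1 (subset_closure (subset_convexHull ℝ _
      (Set.mem_iUnion.2 ⟨i, fun S ε hε => ?_⟩)))).le hc.le) (h3.symm.trans hp.2.symm)
    obtain ⟨ψ, e1, e2⟩ := mem_closure_iff.1 hp.1 (⋂ x ∈ S, {ψ | |p.1 x - ψ x| < ε})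
      (isOpen_biInter_finset fun x _ => isOpen_lt
        (continuous_const.sub (WeakDual.eval_continuous x)).abs continuous_const)
      (Set.mem_iInter₂.2 fun x _ => by simpa using hε)
    exact ⟨ψ, convexHull_mono Set.inter_subset_right e2, fun x hx => Set.mem_iInter₂.1 e1 x hx⟩
  obtain ⟨x, h9, h10⟩ := H9.Supp3.smooth_big
    (C := fun n => {z | ‖z‖ ≤ 1 ∧ ∀ i < n, ∀ h ∈ A i, h z ≤ r + 2 * d}) (f := f0) (e := r + 3 * d)
    (e' := r + 2 * d) ⟨fun n a ha b hb s t hs ht hst => ⟨mem_closedBall_zero_iff.1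
      (convex_closedBall (0 : X) 1 (mem_closedBall_zero_iff.2 ha.1)
        (mem_closedBall_zero_iff.2 hb.1) hs ht hst), fun i hi h hh =>
        convex_halfSpace_le (h : X →L[ℝ] ℝ).isLinear _ (ha.2 i hi h hh) (hb.2 i hi h hh) hs ht hst⟩,
      fun n m h z hz => ⟨hz.1, fun i hi => hz.2 i (hi.trans_le h)⟩, fun n z hz => hz.1⟩
    (mem_closedBall_zero_iff.1 hf0) (fun n M hM => le_of_forall_pos_le_add fun η hη => by
      obtain ⟨z, e1, e2⟩ := H9.Supp3.approx hF' (fun o : Option (Fin n) =>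
        o.elim {(-f0, -F f0)} fun i => A i ×ˢ {r + d}) (by
          rintro (_ | i)
          · exact H9.Supp4.good_pt (map_neg F f0).le
          · exact h8 i) (lt_min hd hη)
      have e3 : -f0 z < -F f0 + min d η := e2 none _ rfl
      have e4 := hM z ⟨e1, fun i hi h hh => by
        have e4 : h z < r + d + min d η := e2 (some ⟨i, hi⟩) (h, r + d) ⟨hh, rfl⟩
        have := min_le_left d η
        linarith⟩
      have := min_le_right d η
      linarith) (by linarith)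
  obtain ⟨g, hg⟩ := H9.Supp2.J_ne x
  obtain ⟨i, hi⟩ := Set.mem_iUnion.1 (hB (a := g) ⟨hg.1, x, fun g' h11 hne => by
    rw [hg.2]
    exact (H9.Supp1.le_norm h11 x).lt_of_ne fun h => hne (h9 ⟨h11, h⟩ hg)⟩)
  obtain ⟨z, h14, h15⟩ := h10 g hg (i + 1)
  exact not_le.2 h15 (h14.2 i i.lt_succ_self g
    (subset_closure (subset_convexHull ℝ _ ⟨mem_closedBall_zero_iff.2 hg.1, hi⟩)))

end Pool.Agent.S04239
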