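import Pool.Statements.S04274
-- import your own Pool.Agent.* helpers here

set_option autoImplicit false
open Pool Pool.MP_32357e_an

namespace Pool.Agent.S04274

open Complex in
noncomputable def G (ζ : ℂ) : ℂ :=
  (1 / 100 + I / 2) * exp ((101 / 100 + I / 2) * ζ) + 1 / 100 * exp (101 / 100 * ζ)

open Complex in
noncomputable def η : ℂ := 1 / (1 + 50 * I)

open Complex in
theorem small {ζ : ℂ} (h : |ζ.im| ≤ 2) : ‖η * exp (-(I / 2) * ζ)‖ ≤ 3 / 50 := by
  have h1 : ‖η‖ ≤ 1 / 50 := by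
    rw [η, norm_div, norm_one]
    refine one_div_le_one_div_of_le (by norm_num) ?_
    simpa using abs_im_le_norm (1 + 50 * I)
  have h2 : ‖exp (-(I / 2) * ζ)‖ ≤ 3 := by
    rw [norm_exp]
    refine (Real.exp_le_exp.2 ?_).trans Real.exp_one_lt_three.le
    simp
    linarith [le_abs_self ζ.im]
  rw [norm_mul]
  nlinarith [norm_nonneg η, norm_nonneg (exp (-(I / 2) * ζ))]

open Complex in
theorem G_eq {ζ : ℂ} (h : |ζ.im| ≤ 2) : G ζ = (1 / 100 + I / 2) *
    exp ((101 / 100 + I / 2) * ζ + log (1 + η * exp (-(I / 2) * ζ))) := by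
  have h1 : 1 + η * exp (-(I / 2) * ζ) ≠ 0 :=
    slitPlane_ne_zero (mem_slitPlane_of_norm_lt_one ((small h).trans_lt (by norm_num)))
  have h2 : exp (101 / 100 * ζ) = exp ((101 / 100 + I / 2) * ζ) * exp (-(I / 2) * ζ) := by
    rw [← exp_add]
    congr 1
    ring
  have h3 : (1 / 100 + I / 2) * η = 1 / 100 := by
    have : (1 + 50 * I) ≠ 0 := fun h => by simpa using congrArg re h
    rw [η, mul_one_div, div_eq_iff this]
    ring
  rw [exp_add, exp_log h1, G, h2]
  linear_combination (-exp ((101 / 100 + I / 2) * ζ) * exp (-(I / 2) * ζ)) * h3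

open Complex in
theorem lip {ζ ξ : ℂ} (h : |ζ.im| ≤ 2) (h' : |ξ.im| ≤ 2) :
    ‖log (1 + η * exp (-(I / 2) * ζ)) - log (1 + η * exp (-(I / 2) * ξ))‖ ≤ 1 / 10 * ‖ζ - ξ‖ := by
  have hc : Convex ℝ {c : ℂ | |c.im| ≤ 2} := by
    simp only [abs_le]
    exact (convex_halfSpace_im_ge _).inter (convex_halfSpace_im_le _)
  refine hc.norm_image_sub_le_of_norm_hasDerivWithin_le
    (f := fun ζ => log (1 + η * exp (-(I / 2) * ζ)))
    (f' := fun ζ => η * (exp (-(I / 2) * ζ) * -(I / 2)) / (1 + η * exp (-(I / 2) * ζ)))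
    (fun x hx => HasDerivAt.hasDerivWithinAt ?_) (fun x hx => ?_) h' h
  · refine HasDerivAt.clog ?_ (mem_slitPlane_of_norm_lt_one ((small hx).trans_lt (by norm_num)))
    simpa using ((((hasDerivAt_id x).const_mul (-(I / 2))).cexp).const_mul η).const_add 1
  · have h1 := small hx
    have h2 := norm_sub_norm_le 1 (-(η * exp (-(I / 2) * x)))
    rw [norm_one, norm_neg, sub_neg_eq_add] at h2
    rw [← mul_assoc, norm_div, norm_mul, div_le_iff₀ (by linarith)]
    have h3 : ‖-(I / 2)‖ = 1 / 2 := by simp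
    rw [h3]
    linarith

open Complex in
theorem G_inj {ζ ξ : ℂ} (h : |ζ.im| < Real.pi / 2) (h' : |ξ.im| < Real.pi / 2) (e : G ζ = G ξ) :
    ζ = ξ := by
  have h1 : |ζ.im| ≤ 2 := by linarith [Real.pi_le_four]
  have h2 : |ξ.im| ≤ 2 := by linarith [Real.pi_le_four]
  have h0 : (1 / 100 + I / 2 : ℂ) ≠ 0 := fun h => by simpa using congrArg re h
  rw [G_eq h1, G_eq h2, mul_right_inj' h0, exp_eq_exp_iff_exists_int] at e
  obtain ⟨k, hk⟩ := e
  have h3 := lip h1 h2
  have h4 : log (1 + η * exp (-(I / 2) * ζ)) - log (1 + η * exp (-(I / 2) * ξ)) =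
      k * (2 * Real.pi * I) - (101 / 100 + I / 2) * (ζ - ξ) := by linear_combination hk
  rw [h4] at h3
  have h5 : |(ζ - ξ).im| < Real.pi := by
    rw [sub_im]
    linarith [abs_sub ζ.im ξ.im]
  rw [← sub_eq_zero]
  generalize ζ - ξ = d at h3 h5
  have h6 := (abs_re_le_norm _).trans h3
  have h7 := (abs_im_le_norm _).trans h3
  have h8 := norm_le_abs_re_add_abs_im d
  simp at h6 h7
  have hk0 : k = 0 := by
    have h9 : |(k : ℝ)| < 1 := by
      by_contra hc
      have h10 : 2 * Real.pi ≤ |k * (2 * Real.pi)| := by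
        rw [abs_mul, abs_of_pos Real.two_pi_pos]
        exact le_mul_of_one_le_left Real.two_pi_pos.le (not_lt.1 hc)
      rw [abs_le] at h6 h7
      rcases abs_cases d.re with a | a <;> rcases abs_cases d.im with b | b <;>
        rcases abs_cases (k * (2 * Real.pi)) with c | c <;> linarith [a.1, b.1, c.1, a.2, b.2]
    exact Int.abs_lt_one_iff.1 (by exact_mod_cast h9)
  subst hk0
  have h9 : 1 ≤ ‖(101 / 100 + I / 2 : ℂ)‖ := le_trans (by norm_num) (re_le_norm _)
  rw [Int.cast_zero, zero_mul, zero_sub, norm_neg, norm_mul] at h3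
  exact norm_le_zero_iff.1 (by nlinarith [norm_nonneg d])

theorem slit {z : ℂ} (hz : z ∈ Metric.ball (0 : ℂ) 1) : 0 < (1 - z).re := by
  have := (Complex.re_le_norm z).trans_lt (mem_ball_zero_iff.1 hz)
  simpa using this

theorem hlog {z : ℂ} (hz : z ∈ Metric.ball (0 : ℂ) 1) :
    HasDerivAt (fun z => -Complex.log (1 - z)) (Complex.exp (-Complex.log (1 - z))) z := by
  have h := Complex.mem_slitPlane_iff.2 (Or.inl (slit hz))
  rw [Complex.exp_neg, Complex.exp_log (Complex.slitPlane_ne_zero h)]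
  refine (((hasDerivAt_id z).const_sub 1).clog h).neg.congr_deriv ?_
  simp [neg_div]

/-- The negation of the preceding statement: For every injective analytic f on the unit disc, its primitive F with F(0)=0 satisfies a uniform bound on (1-∣z∣^2)∣f(z)∣/(1+∣F(z)∣^2) over the disc, i.e. F is a normal function. -/
theorem result :
    ¬ (∀ f F : ℂ → ℂ,
      AnalyticOnNhd ℂ f (Metric.ball (0:ℂ) 1) →
      Set.InjOn f (Metric.ball (0:ℂ) 1) →
      F 0 = 0 →
      (∀ z ∈ Metric.ball (0:ℂ) 1, HasDerivAt F (f z) z) →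
      ∃ C : ℝ, ∀ z ∈ Metric.ball (0:ℂ) 1,
        (1 - ‖z‖ ^ 2) * ‖f z‖ / (1 + ‖F z‖ ^ 2) ≤ C) := by
  intro h
  obtain ⟨C, hC⟩ := h (fun z => G (-Complex.log (1 - z)))
    (fun z => Complex.exp ((1 / 100 + Complex.I / 2) * -Complex.log (1 - z)) +
      Complex.exp (1 / 100 * -Complex.log (1 - z)) - 2)
    (DifferentiableOn.analyticOnNhd (fun z hz => by
      have hG : Differentiable ℂ G := by unfold G; fun_prop
      exact ((hG _).comp z (hlog hz).differentiableAt).differentiableWithinAt) Metric.isOpen_ball)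
    (fun z hz w hw e => by
      have hi : ∀ z ∈ Metric.ball (0 : ℂ) 1, |(-Complex.log (1 - z)).im| < Real.pi / 2 :=
        fun z hz => by
          rw [Complex.neg_im, abs_neg, Complex.log_im]
          exact Complex.abs_arg_lt_pi_div_two_iff.2 (Or.inl (slit hz))
      have h1 := congrArg Complex.exp (neg_inj.1 (G_inj (hi z hz) (hi w hw) e))
      have h2 : ∀ z ∈ Metric.ball (0 : ℂ) 1, 1 - z ≠ 0 := fun z hz h => by
        simpa [h] using slit hz
      rwa [Complex.exp_log (h2 z hz), Complex.exp_log (h2 w hw), sub_right_inj] at h1)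
    (by norm_num)
    (fun z hz => by
      refine ((((hlog hz).const_mul (1 / 100 + Complex.I / 2)).cexp.add
        ((hlog hz).const_mul (1 / 100)).cexp).sub_const 2).congr_deriv ?_
      generalize -Complex.log (1 - z) = ζ
      rw [G, show (101 / 100 + Complex.I / 2) * ζ = (1 / 100 + Complex.I / 2) * ζ + ζ by ring,
        show 101 / 100 * ζ = 1 / 100 * ζ + ζ by ring, Complex.exp_add, Complex.exp_add]
      ring)
  obtain ⟨n, hn⟩ := exists_nat_gt (1000 * C)
  obtain ⟨t, ht⟩ : ∃ t : ℝ, t = 2 * (Real.pi + n * (2 * Real.pi)) := ⟨_, rfl⟩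
  have ht0 : (n : ℝ) < t := by nlinarith [Real.pi_gt_three, Nat.cast_nonneg (α := ℝ) n]
  have ht1 : 0 < t := (Nat.cast_nonneg n).trans_lt ht0
  have he := Real.exp_pos (-t)
  have he1 : Real.exp (-t) < 1 := Real.exp_lt_one_iff.2 (by linarith)
  have hz : ‖((1 - Real.exp (-t) : ℝ) : ℂ)‖ = 1 - Real.exp (-t) := by
    rw [Complex.norm_real, Real.norm_of_nonneg (by linarith)]
  have h1 := hC ((1 - Real.exp (-t) : ℝ) : ℂ) (by rw [mem_ball_zero_iff, hz]; linarith)
  have h2 : -Complex.log (1 - ((1 - Real.exp (-t) : ℝ) : ℂ)) = t := by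
    rw [← Complex.ofReal_one, ← Complex.ofReal_sub, sub_sub_cancel, ← Complex.ofReal_log he.le,
      Real.log_exp]
    simp
  have h3 : Complex.exp (Complex.I / 2 * t) = -1 := by
    rw [← Complex.exp_pi_mul_I, Complex.exp_eq_exp_iff_exists_int]
    exact ⟨n, by rw [ht]; push_cast; ring⟩
  simp only [h2, hz, G, add_mul, Complex.exp_add, h3] at h1
  have h4 : (1 / 100 * (Complex.exp (101 / 100 * t) * -1) +
      Complex.I / 2 * (Complex.exp (101 / 100 * t) * -1) + 1 / 100 * Complex.exp (101 / 100 * t)) =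
      -(Complex.I / 2) * ((Real.exp t * Real.exp (t / 100) : ℝ) : ℂ) := by
    rw [← Real.exp_add, Complex.ofReal_exp]
    push_cast
    rw [show (t + t / 100 : ℂ) = 101 / 100 * t by ring]
    ring
  have h5 : Complex.exp (1 / 100 * t) * -1 + Complex.exp (1 / 100 * t) - 2 = -2 := by ring
  rw [h4, h5, norm_mul, Complex.norm_real, Real.norm_of_nonneg (by positivity),
    div_le_iff₀ (by positivity)] at h1
  have h6 : Real.exp (-t) * Real.exp t = 1 := by rw [← Real.exp_add]; simp
  have h7 := Real.add_one_le_exp (t / 100)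
  have h8 : ‖-(Complex.I / 2)‖ = 1 / 2 := by simp
  have h9 : ‖(-2 : ℂ)‖ = 2 := by simp
  rw [h8, h9] at h1
  have h10 : (1 - (1 - Real.exp (-t)) ^ 2) * (1 / 2 * (Real.exp t * Real.exp (t / 100))) =
      (2 - Real.exp (-t)) * Real.exp (t / 100) / 2 := by
    linear_combination ((2 - Real.exp (-t)) * Real.exp (t / 100) / 2) * h6
  rw [h10] at h1
  nlinarith

end Pool.Agent.S04274
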