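import Pool.Statements.S04335
import Pool.Agent.H10.PosIso
-- import your own Pool.Agent.* helpers here

set_option autoImplicit false
open Pool Pool.MP_36c1dd_an

namespace Pool.Agent.S04335

/-- There is a continuous linear isomorphism T from C([0,1]) onto C(Cantor set), with the Cantor set as binary sequences, such that T sends every nonnegative function to a nonnegative function. -/
theorem result :
    ∃ T : C(unitInterval, ℝ) ≃L[ℝ] C(ℕ → Bool, ℝ),
      ∀ f : C(unitInterval, ℝ), (∀ x, 0 ≤ f x) → ∀ y, 0 ≤ T f y := by
  have hI : Uncountable unitInterval := by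
    rw [← Cardinal.aleph0_lt_mk_iff, Cardinal.mk_Icc_real zero_lt_one]
    exact Cardinal.aleph0_lt_continuum
  have hD : Uncountable (ℕ → Bool) := by
    rw [← Cardinal.aleph0_lt_mk_iff]
    simp [Cardinal.aleph0_lt_continuum]
  let _ : MetricSpace (ℕ → Bool) := TopologicalSpace.metrizableSpaceMetric _
  exact Pool.Agent.H10.PosIso.main unitInterval (ℕ → Bool)

end Pool.Agent.S04335
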