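import Pool.Statements.S04342
import Pool.Agent.H21.LimFP

set_option autoImplicit false
open Pool Pool.MP_3789da_an

namespace Pool.Agent.S04342

open Pool.Agent.H21.LimFP

/-- The negation of the preceding statement: Every multivalued map on a nonempty complete metric space with nonempty closed values, whose Hausdorff distance H(Tx,Ty) is less than φ(d(x,y)) for x≠y with φ an L-function, has a point x with x in Tx. -/
theorem result :
    ¬ (∀ (X : Type) [MetricSpace X] [CompleteSpace X] [Nonempty X]
      (T : X → Set X) (φ : ℝ → ℝ),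
      (∀ x, (T x).Nonempty ∧ IsClosed (T x)) →
      φ 0 = 0 →
      (∀ s : ℝ, 0 < s → 0 < φ s) →
      (∀ s : ℝ, 0 < s → ∃ δ : ℝ, 0 < δ ∧ ∀ t ∈ Set.Icc s (s + δ), φ t ≤ s) →
      (∀ x y : X, x ≠ y →
        EMetric.hausdorffEdist (T x) (T y) < ENNReal.ofReal (φ (dist x y))) →
      ∃ x : X, x ∈ T x) := by
  intro H
  have hlt : ∀ s : ℝ, 0 < s → s - s ^ 2 / (8 + 4 * s) < s := by
    intro s hs
    have : 0 < s ^ 2 / (8 + 4 * s) := by positivity
    linarith
  obtain ⟨x, hx⟩ := H (Fin 3 → ℝ) T (fun t => t - t ^ 2 / (8 + 4 * t))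
    (fun x => ⟨T_nonempty x, T_closed x⟩) (by simp)
    (by
      intro s hs
      have h1 : s ^ 2 / (8 + 4 * s) < s := by
        rw [div_lt_iff₀ (by positivity)]; nlinarith
      show 0 < s - s ^ 2 / (8 + 4 * s)
      linarith)
    (by
      intro s hs
      refine ⟨s ^ 2 / (8 + 4 * s), by positivity, ?_⟩
      intro t ht
      obtain ⟨h1, h2⟩ := ht
      have ht0 : 0 < t := by linarith
      have h3 : s ^ 2 / (8 + 4 * s) ≤ t ^ 2 / (8 + 4 * t) := by
        rw [div_le_div_iff₀ (by positivity) (by positivity)]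
        have : 0 ≤ t - s := by linarith
        have h5 : 0 ≤ (t - s) * (8 * (t + s) + 4 * s * t) := by positivity
        nlinarith
      show t - t ^ 2 / (8 + 4 * t) ≤ s
      linarith)
    (by
      intro x y hxy
      have ht : 0 < dist x y := dist_pos.mpr hxy
      set t := dist x y with htdef
      have h1 : t ^ 2 / (4 + 2 * t) ≤ t / 2 := by
        rw [div_le_div_iff₀ (by positivity) (by positivity)]; nlinarith
      have h2 : t ^ 2 / (4 + 2 * t) ≤ t ^ 2 / 4 := by
        apply div_le_div_of_nonneg_left (by positivity) (by positivity); linarith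
      have h3 : t ^ 2 / (8 + 4 * t) < t ^ 2 / (4 + 2 * t) := by
        apply div_lt_div_of_pos_left (by positivity) (by positivity); linarith
      have he : 0 ≤ t - t ^ 2 / (4 + 2 * t) := by linarith
      have h4 := haus x y (t - t ^ 2 / (4 + 2 * t)) he (by
        rw [← htdef]
        have : t / 2 ≤ t - t ^ 2 / (4 + 2 * t) := by linarith
        nlinarith)
      refine lt_of_le_of_lt h4 ?_
      rw [ENNReal.ofReal_lt_ofReal_iff (by show 0 < t - t ^ 2 / (8 + 4 * t); linarith)]
      show t - t ^ 2 / (4 + 2 * t) < t - t ^ 2 / (8 + 4 * t)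
      linarith)
  exact not_mem x hx

end Pool.Agent.S04342
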