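import Pool.Statements.S04348
import Pool.Agent.H14.Interp

set_option autoImplicit false
open MeasureTheory
open scoped ENNReal
open Pool Pool.MP_37b4fc_an

namespace Pool.Agent.S04348

open Pool.Agent.H14.Interp in
theorem result :
    ¬ (∀ (E0 E1 F0 F1 : Type)
      [NormedAddCommGroup E0] [NormedSpace ℝ E0] [CompleteSpace E0]
      [NormedAddCommGroup E1] [NormedSpace ℝ E1] [CompleteSpace E1]
      [NormedAddCommGroup F0] [NormedSpace ℝ F0] [CompleteSpace F0]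
      [NormedAddCommGroup F1] [NormedSpace ℝ F1] [CompleteSpace F1]
      (ιA : E1 →L[ℝ] E0) (ιB : F1 →L[ℝ] F0),
      Function.Injective ιA → Function.Injective ιB →
      ∀ (U : E0 → F0) (V : E1 → F1) (M0 M1 : ℝ),
        (∀ a b : E0, ‖U a - U b‖ ≤ M0 * ‖a - b‖) →
        (∀ x : E1, U (ιA x) = ιB (V x)) →
        (∀ x : E1, ‖V x‖ ≤ M1 * ‖x‖) →
        Continuous V →
        ∀ θ : ℝ, 0 < θ → θ < 1 → ∀ p : ℝ≥0∞, 1 ≤ p →
        ∀ a : E0,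
          eLpNorm (fun t : ℝ => t ^ (-θ) * ⨅ y : E1, (‖a - ιA y‖ + t * ‖y‖)) p
            ((volume.restrict (Set.Ioi (0:ℝ))).withDensity (fun t => ENNReal.ofReal t⁻¹)) < ∞ →
          ∀ ε : ℝ≥0∞, 0 < ε → ∃ δ : ℝ≥0∞, 0 < δ ∧ ∀ b : E0,
            eLpNorm (fun t : ℝ => t ^ (-θ) * ⨅ y : E1, (‖b - ιA y‖ + t * ‖y‖)) p
              ((volume.restrict (Set.Ioi (0:ℝ))).withDensity (fun t => ENNReal.ofReal t⁻¹)) < ∞ →
            eLpNorm (fun t : ℝ => t ^ (-θ) * ⨅ y : E1, (‖(b - a) - ιA y‖ + t * ‖y‖)) p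
              ((volume.restrict (Set.Ioi (0:ℝ))).withDensity (fun t => ENNReal.ofReal t⁻¹)) < δ →
            eLpNorm (fun t : ℝ => t ^ (-θ) * ⨅ z : F1, (‖(U b - U a) - ιB z‖ + t * ‖z‖)) p
              ((volume.restrict (Set.Ioi (0:ℝ))).withDensity (fun t => ENNReal.ofReal t⁻¹)) < ε) := by
  intro h
  obtain ⟨δ, hδ, h2⟩ := h (E0 ℝ) (E1 ℝ) (B ℝ) (B ℝ) (iA ℝ) (J ℝ) (iA_inj ℝ) (J_inj ℝ) (U ℝ) (V ℝ)
    1 1 (U_lip ℝ) (U_iA ℝ) (V_bound ℝ) (V_cont ℝ) (1 / 2) (by norm_num) (by norm_num) ∞ le_top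
    (xs ℝ, 0) (K_point ℝ 0 (by simp)) (ENNReal.ofReal (1 / 2)) (by simp)
  obtain ⟨m, h3, h4⟩ := discont ℝ δ hδ
  exact absurd (h2 _ (K_point ℝ _ h3) ((K_diff ℝ _).trans_lt h4)) (not_lt.2 (K_image ℝ m))

end Pool.Agent.S04348
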