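import Pool.Statements.S04351
import Pool.Agent.H9.Supp2

set_option autoImplicit false
open Pool Pool.MP_37ff87_an

namespace Pool.Agent.S04351

/-- For every separable real Banach space X: if the set of Gâteaux derivatives of the norm at unit vectors (the support functionals at Gâteaux points) is norm separable in X*, then the dual X* is separable. -/
theorem result :
    ∀ (X : Type) [NormedAddCommGroup X] [NormedSpace ℝ X] [CompleteSpace X]
      [TopologicalSpace.SeparableSpace X],
      TopologicalSpace.IsSeparable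
          {f : X →L[ℝ] ℝ | ∃ x : X, ‖x‖ = 1 ∧
            ∀ v : X, HasLineDerivAt ℝ (fun y : X => ‖y‖) (f v) x v} →
        TopologicalSpace.SeparableSpace (X →L[ℝ] ℝ) := by
  intro X _ _ _ _ ⟨Y, h1, h2⟩
  by_contra hX
  obtain ⟨y, hy⟩ := (h1.insert 0).exists_eq_range (Set.insert_nonempty _ _)
  obtain ⟨x, e, e1, e2, e3, e4⟩ := H9.Supp2.smooth_far hX y
  obtain ⟨g, hg⟩ := H9.Supp2.J_ne x
  have h3 : ∀ v : X, HasLineDerivAt ℝ (fun y : X => ‖y‖) (g v) x v := fun v => by
    refine HasDerivAt.of_isLittleO (Asymptotics.isLittleO_iff.2 fun c hc => ?_)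
    have h4 : IsClosed {t : ℝ | ∃ g' ∈ H9.Supp1.J (x + t • v), c ≤ |g' v - g v|} :=
      H9.Supp1.usc _ (by fun_prop) (fun _ g' => c ≤ |g' v - g v|) (isClosed_le continuous_const
        (((WeakDual.eval_continuous v).comp continuous_snd).sub continuous_const).abs)
    filter_upwards [h4.isOpen_compl.mem_nhds (show (0 : ℝ) ∈ _ from by
      rintro ⟨g', h5, h6⟩
      rw [zero_smul, add_zero] at h5
      rw [e3 h5 hg, sub_self, abs_zero] at h6
      exact not_le.2 hc h6)] with t ht
    obtain ⟨g', h5⟩ := H9.Supp2.J_ne (x + t • v)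
    have h6 : |g' v - g v| < c := not_le.1 fun h => ht ⟨g', h5, h⟩
    have h7 := H9.Supp1.le_norm hg.1 (x + t • v)
    have h8 := H9.Supp1.le_norm h5.1 x
    have h9 := h5.2
    have h10 := (le_abs_self _).trans ((abs_mul t (g' v - g v)).trans_le
      (mul_le_mul_of_nonneg_left h6.le (abs_nonneg t)))
    rw [map_add, map_smul, smul_eq_mul] at h7 h9
    rw [hg.2] at h7
    simp only [zero_smul, add_zero, sub_zero, smul_eq_mul, Real.norm_eq_abs]
    rw [abs_of_nonneg (by linarith)]
    linarith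
  obtain ⟨g', h4, h5⟩ := Metric.mem_closure_iff.1 (h2 ⟨x, e1, h3⟩) e e2
  obtain ⟨i, rfl⟩ : g' ∈ Set.range y := hy ▸ Set.mem_insert_of_mem _ h4
  exact lt_asymm (e4 g hg i) (dist_eq_norm g (y i) ▸ h5)

end Pool.Agent.S04351
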