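import Pool.Statements.S04361
import Pool.Agent.H5.Cap

set_option autoImplicit false
open Pool Pool.MP_38bb9b_an

namespace Pool.Agent.S04361

open MeasureTheory Finset Polynomial Pool.Agent.H5.Cap

lemma exists_antider (N : ℕ) (q : ℂ[X]) (hq : q.Monic) (hN : q.natDegree = N) :
    ∃ p : ℂ[X], p.Monic ∧ p.natDegree = N + 1 ∧ derivative p = C ((N : ℂ) + 1) * q := by
  let p : ℂ[X] := ∑ i ∈ range (N + 1), monomial (i + 1) (((N : ℂ) + 1) * q.coeff i / ((i : ℂ) + 1))
  have hc : ∀ i, p.coeff (i + 1) = ((N : ℂ) + 1) * q.coeff i / ((i : ℂ) + 1) := by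
    intro i
    simp only [p, finsetSum_coeff, coeff_monomial, add_left_inj]
    rw [sum_ite_eq']
    split_ifs with h
    · rfl
    · rw [coeff_eq_zero_of_natDegree_lt (by rw [hN]; simpa using h)]
      simp
  have hne : ∀ i : ℕ, ((i : ℂ) + 1) ≠ 0 := fun i => by exact_mod_cast Nat.succ_ne_zero i
  have htop : p.coeff (N + 1) = 1 := by
    rw [hc, ← hN, hq.coeff_natDegree, mul_one, div_self (hne _)]
  have hdeg : p.natDegree ≤ N + 1 := by
    rw [natDegree_le_iff_coeff_eq_zero]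
    intro k hk
    obtain ⟨i, rfl⟩ : ∃ i, k = i + 1 := ⟨k - 1, by omega⟩
    rw [hc, coeff_eq_zero_of_natDegree_lt (by omega)]
    simp
  refine ⟨p, monic_of_natDegree_le_of_coeff_eq_one _ hdeg htop,
    natDegree_eq_of_le_of_coeff_ne_zero hdeg (by rw [htop]; exact one_ne_zero), ?_⟩
  ext i
  rw [coeff_derivative, hc, coeff_C_mul, div_mul_cancel₀ _ (hne i)]

/-- For each n ≥ 1 there is C > 0 such that every non-empty compact K in ℂ satisfies cap(K)^n ≥ C times the least area-L² norm on K of p′ over monic degree-n p, with cap given as the Chebyshev constant. -/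
theorem result :
    ∀ n : ℕ, 1 ≤ n → ∃ C : ℝ, 0 < C ∧ ∀ K : Set ℂ, IsCompact K → K.Nonempty →
      C * (⨅ p : {p : Polynomial ℂ // p.Monic ∧ p.natDegree = n},
            Real.sqrt (∫ z in K, ‖(Polynomial.derivative p.1).eval z‖ ^ 2)) ≤
        (⨅ m : ℕ,
            (⨅ q : {q : Polynomial ℂ // q.Monic ∧ q.natDegree = m + 1},
                sSup ((fun z => ‖q.1.eval z‖) '' K)) ^ ((1 : ℝ) / ((m : ℝ) + 1))) ^ n := by
  intro n hn
  obtain ⟨N, rfl⟩ : ∃ N, n = N + 1 := ⟨n - 1, by omega⟩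
  obtain ⟨I, hI0, hI⟩ : ∃ I : ℝ, 0 < I ∧ ∫⁻ x : ℂ, g ‖x‖ ≤ ENNReal.ofReal I :=
    ⟨(∫⁻ x : ℂ, g ‖x‖).toReal + 1, by positivity, by
      rw [ENNReal.ofReal_add ENNReal.toReal_nonneg zero_le_one, ENNReal.ofReal_toReal g_int.ne]
      exact le_self_add⟩
  set a : ℝ := ((N : ℝ) + 1) ^ 3 * (I + 1) with ha
  have ha0 : 0 < a := by positivity
  refine ⟨Real.exp (-1) / a, by positivity, fun K hK hKne => ?_⟩
  set L := ⨅ p : {p : Polynomial ℂ // p.Monic ∧ p.natDegree = N + 1},
    Real.sqrt (∫ z in K, ‖(Polynomial.derivative p.1).eval z‖ ^ 2) with hL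
  have hL0 : 0 ≤ L := Real.iInf_nonneg fun _ => Real.sqrt_nonneg _
  have hsup : ∀ q : ℂ[X], 0 ≤ sSup ((fun z => ‖q.eval z‖) '' K) := fun q =>
    Real.sSup_nonneg (by rintro _ ⟨z, -, rfl⟩; exact norm_nonneg _)
  rcases hL0.eq_or_lt with h0 | hLpos
  · rw [← h0, mul_zero]
    exact pow_nonneg (Real.iInf_nonneg fun m =>
      Real.rpow_nonneg (Real.iInf_nonneg fun q => hsup _) _) _
  have hN1 : (0 : ℝ) < (N : ℝ) + 1 := by positivity
  have hM : ∀ (j : Fin (N + 1)) (z : Fin (N + 1) → ℂ), ENNReal.ofReal ((L / (N + 1)) ^ 2) ≤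
      ∫⁻ x in K, ENNReal.ofReal (W (univ.erase j) x z ^ 2) := by
    intro j z
    obtain ⟨p, hp, hpd, hder⟩ := exists_antider N (∏ k ∈ univ.erase j, (X - C (z k)))
      (monic_prod_of_monic _ _ fun k _ => monic_X_sub_C _)
      (by rw [natDegree_finsetProd_X_sub_C_eq_card]; simp)
    have h1 : L ≤ Real.sqrt (∫ x in K, ‖(Polynomial.derivative p).eval x‖ ^ 2) :=
      ciInf_le ⟨0, by rintro _ ⟨p, rfl⟩; exact Real.sqrt_nonneg _⟩ (⟨p, hp, hpd⟩ :
        {p : Polynomial ℂ // p.Monic ∧ p.natDegree = N + 1})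
    have h2 : ∀ x, ‖(Polynomial.derivative p).eval x‖ ^ 2 =
        ((N : ℝ) + 1) ^ 2 * W (univ.erase j) x z ^ 2 := by
      intro x
      have h3 : ‖(N : ℂ) + 1‖ = (N : ℝ) + 1 := by
        rw [← Nat.cast_succ, Complex.norm_natCast, Nat.cast_succ]
      rw [hder, eval_mul, eval_C, norm_mul, h3, eval_prod, norm_prod, mul_pow]
      simp [W]
    simp only [h2] at h1
    rw [integral_const_mul] at h1
    have hcont : Continuous fun x : ℂ => W (univ.erase j) x z ^ 2 := by
      unfold W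
      fun_prop
    have hint : IntegrableOn (fun x : ℂ => W (univ.erase j) x z ^ 2) K volume :=
      hcont.continuousOn.integrableOn_compact hK
    rw [← ofReal_integral_eq_lintegral_ofReal hint (ae_of_all _ fun x => sq_nonneg _)]
    refine ENNReal.ofReal_le_ofReal ?_
    have h4 : 0 ≤ ∫ x in K, W (univ.erase j) x z ^ 2 := integral_nonneg fun x => sq_nonneg _
    rw [Real.le_sqrt hL0 (by positivity)] at h1
    rw [div_pow, div_le_iff₀ (by positivity)]
    linarith
  set t : ℝ := Real.exp (-1) / a * L with ht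
  have ht0 : 0 < t := by positivity
  have hτ : ∀ m : ℕ, t ^ ((1 : ℝ) / ((N + 1 : ℕ) : ℝ)) ≤
      (⨅ q : {q : Polynomial ℂ // q.Monic ∧ q.natDegree = m + 1},
        sSup ((fun z => ‖q.1.eval z‖) '' K)) ^ ((1 : ℝ) / ((m : ℝ) + 1)) := by
    intro m
    have hne : Nonempty {q : Polynomial ℂ // q.Monic ∧ q.natDegree = m + 1} :=
      ⟨⟨X ^ (m + 1), monic_X_pow _, natDegree_X_pow _⟩⟩
    have h1 : (t ^ ((1 : ℝ) / ((N + 1 : ℕ) : ℝ))) ^ (m + 1) ≤
        ⨅ q : {q : Polynomial ℂ // q.Monic ∧ q.natDegree = m + 1},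
          sSup ((fun z => ‖q.1.eval z‖) '' K) := by
      refine le_ciInf fun q => ?_
      obtain ⟨q, hq, hqd⟩ := q
      have hspl : q.Splits := IsAlgClosed.splits q
      have hcard : Fintype.card q.roots = m + 1 := by
        rw [Multiset.card_coe, ← hspl.natDegree_eq_card_roots, hqd]
      have hne2 : Nonempty q.roots := Fintype.card_pos_iff.1 (by omega)
      have hbdd : BddAbove ((fun z => ‖q.eval z‖) '' K) :=
        hK.bddAbove_image (q.continuous.norm).continuousOn
      have h2 := main (ι := Fin (N + 1)) (κ := q.roots) K hK ((L / (N + 1)) ^ 2) (L / a) I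
        (sSup ((fun z => ‖q.eval z‖) '' K)) (by positivity) (by positivity) hI ?_ hM
        (fun k => (k : ℂ)) ?_
      · rw [hcard, Fintype.card_fin] at h2
        have h3 : L / a * Real.exp (-1) = t := by rw [ht]; ring
        rw [h3] at h2
        refine (pow_le_pow_iff_left₀ (by positivity) (hsup _) (Nat.succ_ne_zero N)).1 ?_
        rw [← pow_mul, mul_comm, pow_mul, one_div, Real.rpow_inv_natCast_pow ht0.le
          (Nat.succ_ne_zero N)]
        exact h2.le
      · rw [Fintype.card_fin]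
        have h4 : (((N + 1 : ℕ) : ℝ)) ^ 3 * ((L / a) ^ 2 / (L / (N + 1)) ^ 2 * I) =
            I / (((N : ℝ) + 1) * (I + 1) ^ 2) := by
          rw [ha]
          push_cast
          field_simp
        rw [h4, div_lt_one (by positivity)]
        have h5 : (0 : ℝ) ≤ N := Nat.cast_nonneg N
        nlinarith [mul_nonneg h5 (sq_nonneg (I + 1))]
      · intro x hx
        refine le_trans (le_of_eq ?_) (le_csSup hbdd ⟨x, hx, rfl⟩)
        simp only
        rw [hspl.eval_eq_prod_roots_of_monic hq, ← norm_prod,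
          ← Multiset.map_univ q.roots (fun y => x - y)]
        rfl
    have h6 := Real.rpow_le_rpow (by positivity) h1 (z := (1 : ℝ) / ((m : ℝ) + 1)) (by positivity)
    rwa [← Nat.cast_succ, one_div ((m.succ : ℕ) : ℝ),
      Real.pow_rpow_inv_natCast (by positivity) (Nat.succ_ne_zero m),
      ← one_div ((m.succ : ℕ) : ℝ), Nat.cast_succ m] at h6
  have h7 := pow_le_pow_left₀ (by positivity) (le_ciInf hτ) (N + 1)
  rwa [one_div, Real.rpow_inv_natCast_pow ht0.le (Nat.succ_ne_zero N)] at h7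

end Pool.Agent.S04361
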