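import Pool.Statements.S04368
-- import your own Pool.Agent.* helpers here

set_option autoImplicit false
open Filter Topology
open Pool Pool.MP_393faa_an

namespace Pool.Agent.S04368

abbrev H : Type := lp (fun _ : ℕ => ℂ) 2

noncomputable def D (w : ℕ → ℝ) (K : ℝ) (h : ∀ n, |w n| ≤ K) : H →L[ℂ] H :=
  lp.mapCLM 2 (fun n => (w n : ℂ) • ContinuousLinearMap.id ℂ ℂ) ((abs_nonneg _).trans (h 0))
    (fun n => by simpa [norm_smul] using h n)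

theorem D_ap (w : ℕ → ℝ) (K : ℝ) (h : ∀ n, |w n| ≤ K) (x : H) (n : ℕ) :
    D w K h x n = w n * x n := rfl

theorem D_le (w : ℕ → ℝ) (K : ℝ) (h : ∀ n, |w n| ≤ K) : ‖D w K h‖ ≤ K := lp.norm_mapCLM_le ..

theorem D_ge (w : ℕ → ℝ) (K : ℝ) (h : ∀ n, |w n| ≤ K) (n : ℕ) : |w n| ≤ ‖D w K h‖ := by
  have h1 := (D w K h).le_opNorm (lp.single 2 n 1)
  have h2 := lp.norm_apply_le_norm (by norm_num) (D w K h (lp.single 2 n 1)) n
  rw [D_ap] at h2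
  rw [lp.norm_single (by norm_num)] at h1
  simpa using h2.trans h1

theorem sh_sum (x : H) :
    HasSum (fun n => ‖(if 2 ≤ n then x (n - 2) else 0 : ℂ)‖ ^ (2 : ENNReal).toReal)
      (‖x‖ ^ (2 : ENNReal).toReal) := by
  rw [← hasSum_nat_add_iff' 2]
  simpa [Finset.sum_range_succ] using lp.hasSum_norm (p := 2) (by norm_num) x

noncomputable def shL : H →ₗ[ℂ] H where
  toFun x := ⟨fun n => if 2 ≤ n then x (n - 2) else 0, memℓp_gen (sh_sum x).summable⟩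
  map_add' x y := by ext n; by_cases h : 2 ≤ n <;> simp [h]
  map_smul' c x := by ext n; by_cases h : 2 ≤ n <;> simp [h]

theorem shL_norm (x : H) : ‖shL x‖ = ‖x‖ := by
  have := (lp.hasSum_norm (p := 2) (by norm_num) (shL x)).unique (sh_sum x)
  simpa using this

noncomputable def sh : H →L[ℂ] H := shL.mkContinuous 1 fun x => by simp [shL_norm]

theorem sh_ap (x : H) (n : ℕ) : sh x n = if 2 ≤ n then x (n - 2) else 0 := rfl

theorem sh_norm (x : H) : ‖sh x‖ = ‖x‖ := shL_norm x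

noncomputable def U (w : ℕ → ℝ) (K K' : ℝ) (h : ∀ n, |w n| ≤ K) (h' : ∀ n, |(w n)⁻¹| ≤ K')
    (h0 : ∀ n, w n ≠ 0) : (H →L[ℂ] H)ˣ where
  val := D w K h
  inv := D (fun n => (w n)⁻¹) K' h'
  val_inv := by
    ext x n
    have : (w n : ℂ) ≠ 0 := by exact_mod_cast h0 n
    simp [D_ap, this]
  inv_val := by
    ext x n
    have : (w n : ℂ) ≠ 0 := by exact_mod_cast h0 n
    simp [D_ap, this]

noncomputable def w1 (n : ℕ) : ℝ := if n = 0 then 2 else if n = 1 then 2⁻¹ else 1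
noncomputable def w2 (n : ℕ) : ℝ := if n = 0 then 2 else if n = 1 then 1 else if n % 2 = 0 then 1 else 2

theorem a1 (n : ℕ) : |w1 n| ≤ 2 := by unfold w1; split_ifs <;> norm_num [abs_of_pos]
theorem b1 (n : ℕ) : |(w1 n)⁻¹| ≤ 2 := by unfold w1; split_ifs <;> norm_num [abs_of_pos]
theorem c1 (n : ℕ) : w1 n ≠ 0 := by unfold w1; split_ifs <;> norm_num
theorem a2 (n : ℕ) : |w2 n| ≤ 2 := by unfold w2; split_ifs <;> norm_num [abs_of_pos]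
theorem b2 (n : ℕ) : |(w2 n)⁻¹| ≤ 1 := by unfold w2; split_ifs <;> norm_num [abs_of_pos]
theorem c2 (n : ℕ) : w2 n ≠ 0 := by unfold w2; split_ifs <;> norm_num

theorem L_sh : D w1 2 a1 * sh = sh := by
  ext x n
  rcases n with _ | _ | n <;> simp [D_ap, sh_ap, w1]

theorem T_eq : D (fun n => (w1 n)⁻¹) 2 b1 * sh * D w1 2 a1 = sh * D w1 2 a1 := by
  ext x n
  rcases n with _ | _ | n <;> simp [D_ap, sh_ap, w1]

theorem T_eq2 : sh * D w1 2 a1 = D (fun n => (w2 n)⁻¹) 1 b2 * sh * D w2 2 a2 := by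
  ext x n
  rcases n with _ | _ | _ | _ | n <;> simp [D_ap, sh_ap, w1, w2]
  have : (n + 1 + 1 + 1 + 1) % 2 = n % 2 := by omega
  rw [this]
  split_ifs <;> simp

theorem T_pow (n : ℕ) (x : H) : ‖((sh * D w1 2 a1) ^ (n + 1)) x‖ = ‖D w1 2 a1 x‖ := by
  induction n with
  | zero => simp [sh_norm]
  | succ k ih =>
    rw [pow_succ', pow_succ', ← mul_assoc, ← mul_assoc, mul_assoc sh, L_sh, mul_assoc, mul_assoc,
      ContinuousLinearMap.mul_apply, sh_norm, ← mul_assoc, ← pow_succ', ih]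

/-- The negation of the preceding statement: On a complex Hilbert space, if T = L⁻¹SL with S an isometry and ‖Lx‖ = lim ‖Tⁿx‖ for all x, then ‖L‖‖L⁻¹‖ equals the infimum of ‖M‖‖M⁻¹‖ over all similarities M of T to an isometry. -/
theorem result :
    ¬ (∀ (H : Type) [NormedAddCommGroup H] [InnerProductSpace ℂ H] [CompleteSpace H]
      (T S : H →L[ℂ] H) (L : (H →L[ℂ] H)ˣ),
      (∀ x : H, ‖S x‖ = ‖x‖) →
      T = (↑L⁻¹ : H →L[ℂ] H) * S * (↑L : H →L[ℂ] H) →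
      (∀ x : H, Tendsto (fun n : ℕ => ‖(T ^ n) x‖) atTop (𝓝 ‖(↑L : H →L[ℂ] H) x‖)) →
      ‖(↑L : H →L[ℂ] H)‖ * ‖(↑L⁻¹ : H →L[ℂ] H)‖ =
        sInf {r : ℝ | ∃ (M : (H →L[ℂ] H)ˣ) (S' : H →L[ℂ] H),
          (∀ x : H, ‖S' x‖ = ‖x‖) ∧
          T = (↑M⁻¹ : H →L[ℂ] H) * S' * (↑M : H →L[ℂ] H) ∧
          r = ‖(↑M : H →L[ℂ] H)‖ * ‖(↑M⁻¹ : H →L[ℂ] H)‖}) := by
  intro h
  have h1 := h H (sh * D w1 2 a1) sh (U w1 2 2 a1 b1 c1) sh_norm T_eq.symm (fun x => by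
    rw [← tendsto_add_atTop_iff_nat 1]
    simp only [T_pow]
    exact tendsto_const_nhds)
  have h2 := csInf_le (s := {r : ℝ | ∃ (M : (H →L[ℂ] H)ˣ) (S' : H →L[ℂ] H),
          (∀ x : H, ‖S' x‖ = ‖x‖) ∧
          sh * D w1 2 a1 = (↑M⁻¹ : H →L[ℂ] H) * S' * (↑M : H →L[ℂ] H) ∧
          r = ‖(↑M : H →L[ℂ] H)‖ * ‖(↑M⁻¹ : H →L[ℂ] H)‖})
    ⟨0, by rintro r ⟨M, S', -, -, rfl⟩; positivity⟩ ⟨U w2 2 1 a2 b2 c2, sh, sh_norm, T_eq2, rfl⟩
  rw [← h1] at h2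
  change ‖D w1 2 a1‖ * ‖D (fun n => (w1 n)⁻¹) 2 b1‖ ≤
    ‖D w2 2 a2‖ * ‖D (fun n => (w2 n)⁻¹) 1 b2‖ at h2
  have p1 : 2 ≤ ‖D w1 2 a1‖ := by simpa [w1] using D_ge w1 2 a1 0
  have p2 : 2 ≤ ‖D (fun n => (w1 n)⁻¹) 2 b1‖ := by simpa [w1] using D_ge _ 2 b1 1
  have p3 := D_le w2 2 a2
  have p4 := D_le _ 1 b2
  have p5 := mul_le_mul p3 p4 (norm_nonneg _) (by norm_num)
  have p6 := mul_le_mul p1 p2 (by norm_num) (norm_nonneg _)
  linarith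

end Pool.Agent.S04368
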