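import Pool.Statements.S04380
import Pool.Agent.H22.Flux

set_option autoImplicit false
open Pool Pool.MP_39f9da_an

namespace Pool.Agent.S04380


/-- The negation of the preceding statement: For every residually finite group G and finite alphabet, every strongly irreducible subshift of finite type X over G has its finite-orbit configurations dense: any point of X can be matched on any finite set by a periodic point of X. -/
theorem result :
    ¬ (∀ (G : Type) [Group G],
    (∀ g : G, g ≠ 1 → ∃ H : Subgroup G, H.FiniteIndex ∧ g ∉ H) →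
    ∀ (A : Type) [Fintype A] (X : Set (G → A)),
      (∃ (S : Finset G) (P : Set (S → A)),
        X = {x | ∀ g : G, (fun s : S => x (s.1 * g)) ∈ P}) →
      (∃ Δ : Finset G, ∀ Ω₁ Ω₂ : Finset G,
        (∀ d ∈ Δ, ∀ w ∈ Ω₁, d * w ∉ Ω₂) →
        ∀ x₁ ∈ X, ∀ x₂ ∈ X, ∃ z ∈ X,
          (∀ w ∈ Ω₁, z w = x₁ w) ∧ (∀ w ∈ Ω₂, z w = x₂ w)) →
      ∀ x ∈ X, ∀ F : Finset G, ∃ y ∈ X,
        (Set.range (fun g : G => fun h : G => y (h * g))).Finite ∧
        ∀ h ∈ F, y h = x h) := by
  open Pool.Agent.H22.Flux in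
  intro h
  obtain ⟨y, hy, h, -⟩ := h G rf _ X sft si _ X0 ∅
  exact noper hy h

end Pool.Agent.S04380
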