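import Pool.Statements.S04402
import Pool.Agent.H18.Bonami2
-- import your own Pool.Agent.* helpers here

set_option autoImplicit false
open MeasureTheory Filter Topology
open Pool Pool.MP_3c0e9a_an

namespace Pool.Agent.S04402

open H18.Bonami

lemma exists_iid : ∃ ξ : ℕ → ℝ → ℝ, (∀ k, Measurable (ξ k)) ∧
    ∀ (s : Finset ℕ) (t : Set ℝ), MeasurableSet t →
      (volume.restrict (Set.Icc (0:ℝ) 1)) {ω | ∀ k ∈ s, ξ k ω ∈ t} =
        (volume.restrict (Set.Icc (0:ℝ) 1)) t ^ s.card := by
  haveI : IsProbabilityMeasure (volume.restrict (Set.Icc (0:ℝ) 1)) := ⟨by simp⟩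
  obtain ⟨g, hg, hmap⟩ := Measure.exists_measurable_map_eq
    (Measure.infinitePi fun _ : ℕ => volume.restrict (Set.Icc (0:ℝ) 1))
  have hp : Measurable (Set.projIcc (0:ℝ) 1 zero_le_one) := continuous_projIcc.measurable
  have h1 : MeasurePreserving (Set.projIcc (0:ℝ) 1 zero_le_one)
      (volume.restrict (Set.Icc (0:ℝ) 1)) volume := by
    refine ⟨hp, ?_⟩
    rw [← unitInterval.measurePreserving_coe.map_eq, Measure.map_map hp measurable_subtype_coe]
    have : Set.projIcc (0:ℝ) 1 zero_le_one ∘ Subtype.val = id := by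
      funext x; simp
    rw [this, Measure.map_id]
  have h2 := (show MeasurePreserving g volume _ from ⟨hg, hmap⟩).comp h1
  refine ⟨fun k ω => g (Set.projIcc 0 1 zero_le_one ω) k, fun k => by fun_prop, fun s t ht => ?_⟩
  have := h2.measure_preimage (s := Set.pi (s : Set ℕ) fun _ => t)
    (MeasurableSet.pi s.countable_toSet fun _ _ => ht).nullMeasurableSet
  rw [Measure.infinitePi_pi _ (fun _ _ => ht), Finset.prod_const] at this
  exact this

lemma weak_null {α : Type} [m : MeasurableSpace α] (μ : Measure α) [IsProbabilityMeasure μ]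
    (v : ℕ → α → ℝ) (hv : ∀ k, BM m (v k)) (u : ℕ → Lp ℝ 1 μ) (hu : ∀ k, (u k : α → ℝ) =ᵐ[μ] v k)
    (C : ℝ) (hC : ∀ k, ∫ t, v k t * v k t ∂μ ≤ C)
    (ho : ∀ k l, k ≠ l → ∫ t, v k t * v l t ∂μ = 0) (x : Lp ℝ 1 μ →L[ℝ] ℝ) (δ : ℝ) (hδ : 0 < δ) :
    {k | δ ≤ x (u k)}.Finite := by
  classical
  by_contra hinf
  set M := ‖x‖ + 1 with hM
  have hM0 : 0 < M := by positivity
  obtain ⟨N, hN⟩ := exists_nat_gt (M * M * C / (δ * δ))
  obtain ⟨K, hK, hcard⟩ := Set.Infinite.exists_subset_card_eq hinf (N + 1)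
  have e2 : ∀ K : Finset ℕ, ((∑ k ∈ K, u k : Lp ℝ 1 μ) : α → ℝ) =ᵐ[μ] fun t => ∑ k ∈ K, v k t := by
    intro K
    induction K using Finset.induction_on with
    | empty => simp only [Finset.sum_empty]; exact Lp.coeFn_zero ℝ 1 μ
    | insert k K hk ih =>
      simp only [Finset.sum_insert hk]
      filter_upwards [Lp.coeFn_add (u k) (∑ k ∈ K, u k), hu k, ih] with t a1 a2 a3
      rw [a1, Pi.add_apply, a2, a3]
  set n : ℝ := N + 1 with hn
  have hn0 : 0 < n := by positivity
  have h1 : δ * n ≤ x (∑ k ∈ K, u k) := by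
    rw [map_sum]
    have := Finset.card_nsmul_le_sum K (fun k => x (u k)) δ (fun k hk => hK hk)
    rw [hcard, nsmul_eq_mul] at this
    push_cast at this
    linarith
  have hb : BM m fun t => ∑ k ∈ K, v k t := BM.sum _ fun k _ => hv k
  have h2 : ∫ t, (∑ k ∈ K, v k t) * (∑ k ∈ K, v k t) ∂μ ≤ n * C := by
    simp only [Finset.sum_mul_sum]
    rw [integral_finset_sum _ fun k _ => (BM.sum _ fun l _ => (hv k).mul (hv l)).int μ]
    have : ∀ k ∈ K, ∫ t, ∑ l ∈ K, v k t * v l t ∂μ ≤ C := by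
      intro k hk
      rw [integral_finset_sum _ fun l _ => ((hv k).mul (hv l)).int μ,
        Finset.sum_eq_single k (fun l _ hl => ho k l hl.symm) (fun h => absurd hk h)]
      exact hC k
    have := Finset.sum_le_card_nsmul K _ C this
    rw [hcard, nsmul_eq_mul] at this
    push_cast at this
    exact this
  set c : ℝ := δ * n / M with hc
  have hc0 : 0 < c := by positivity
  have h3 : ‖∑ k ∈ K, u k‖ ≤ (n * C / c + c) / 2 := by
    rw [L1.norm_eq_integral_norm]
    have i1 := (hb.mul hb).int μ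
    calc _ = ∫ t, ‖∑ k ∈ K, v k t‖ ∂μ := integral_congr_ae ((e2 K).fun_comp norm)
      _ ≤ ∫ t, ((∑ k ∈ K, v k t) * (∑ k ∈ K, v k t) / c + c) / 2 ∂μ := by
          refine integral_mono (hb.int μ).norm (((i1.div_const c).add
            (integrable_const c)).div_const 2) fun t => ?_
          simp only [Real.norm_eq_abs]
          rw [← abs_mul_abs_self, le_div_iff₀ two_pos, div_add' _ _ _ hc0.ne', le_div_iff₀ hc0]
          nlinarith [sq_nonneg (|∑ k ∈ K, v k t| - c)]
      _ ≤ _ := by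
          rw [integral_div, integral_add (i1.div_const c) (integrable_const c), integral_div]
          simp only [integral_const, probReal_univ, smul_eq_mul, one_mul]
          gcongr
  have h4 : x (∑ k ∈ K, u k) ≤ M * ‖∑ k ∈ K, u k‖ :=
    ((le_abs_self _).trans (x.le_opNorm _)).trans (by gcongr; linarith)
  have h5 : δ * n ≤ M * ((n * C / c + c) / 2) := h1.trans (h4.trans (by gcongr))
  have e : M * ((n * C / c + c) / 2) = (M * M * C / δ + δ * n) / 2 := by
    rw [hc]; field_simp
  rw [e] at h5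
  rw [div_lt_iff₀ (by positivity)] at hN
  have h6 : δ * n ≤ M * M * C / δ := by linarith
  rw [le_div_iff₀ hδ] at h6
  nlinarith [mul_pos hδ hδ]

lemma int_two {α : Type} [m : MeasurableSpace α] (μ : Measure α) [IsProbabilityMeasure μ]
    {A B : Set α} (hA : MeasurableSet A) (hB : MeasurableSet B) (a b c d : ℝ) :
    ∫ t, (a * A.indicator (fun _ => (1 : ℝ)) t + b) * (c * B.indicator (fun _ => (1 : ℝ)) t + d) ∂μ
      = a * c * μ.real (A ∩ B) + a * d * μ.real A + b * c * μ.real B + b * d := by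
  have e : ∀ t, (a * A.indicator (fun _ => (1 : ℝ)) t + b) *
      (c * B.indicator (fun _ => (1 : ℝ)) t + d) =
      a * c * (A ∩ B).indicator (fun _ => (1 : ℝ)) t + a * d * A.indicator (fun _ => (1 : ℝ)) t +
        b * c * B.indicator (fun _ => (1 : ℝ)) t + b * d := by
    intro t
    by_cases h1 : t ∈ A <;> by_cases h2 : t ∈ B <;> simp [h1, h2] <;> ring
  simp only [e]
  have i1 := ((BM.ind (hA.inter hB)).int μ).const_mul (a * c)
  have i2 := ((BM.ind hA).int μ).const_mul (a * d)
  have i3 := ((BM.ind hB).int μ).const_mul (b * c)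
  rw [integral_add (by exact (i1.add i2).add i3) (integrable_const _),
    integral_add (by exact i1.add i2) i3, integral_add i1 i2]
  simp [integral_const_mul, integral_indicator, hA, hB, hA.inter hB]


/-- The negation of the preceding statement: Every sequence of measurable maps from [0,1] into real L^1[0,1], uniformly essentially bounded, with every functional of it tending to 0 in measure, has a subsequence with every functional of it tending to 0 almost everywhere. -/
theorem result :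
    ¬ (∀ f : ℕ → ℝ → MeasureTheory.Lp ℝ 1 (MeasureTheory.volume.restrict (Set.Icc (0:ℝ) 1)),
      (∀ n, MeasureTheory.AEStronglyMeasurable (f n)
          (MeasureTheory.volume.restrict (Set.Icc (0:ℝ) 1))) →
      (∃ C : ℝ, ∀ n, ∀ᵐ t ∂(MeasureTheory.volume.restrict (Set.Icc (0:ℝ) 1)), ‖f n t‖ ≤ C) →
      (∀ x : MeasureTheory.Lp ℝ 1 (MeasureTheory.volume.restrict (Set.Icc (0:ℝ) 1)) →L[ℝ] ℝ,
          MeasureTheory.TendstoInMeasure (MeasureTheory.volume.restrict (Set.Icc (0:ℝ) 1))
            (fun n t => x (f n t)) atTop (fun _ => (0:ℝ))) →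
      ∃ φ : ℕ → ℕ, StrictMono φ ∧
        ∀ x : MeasureTheory.Lp ℝ 1 (MeasureTheory.volume.restrict (Set.Icc (0:ℝ) 1)) →L[ℝ] ℝ,
          ∀ᵐ t ∂(MeasureTheory.volume.restrict (Set.Icc (0:ℝ) 1)),
            Tendsto (fun k => x (f (φ k) t)) atTop (𝓝 (0:ℝ))) := by
  intro H
  obtain ⟨ξ, hξ, hind⟩ := exists_iid
  set μ : Measure ℝ := volume.restrict (Set.Icc (0:ℝ) 1) with hμ
  haveI : IsProbabilityMeasure μ := ⟨by simp [hμ]⟩
  let L : ℝ → ℕ := fun y => ⌊y⁻¹⌋₊ - 1
  have hL : Measurable L := (measurable_from_top (f := fun n : ℕ => n - 1)).comp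
    (Nat.measurable_floor.comp measurable_inv)
  have hN : ∀ j : ℕ, ∃ N : ℕ, μ {y | L y ≠ j} ^ N ≤ 2⁻¹ ^ (j + 2) := by
    intro j
    have hm : MeasurableSet {y | L y = j} := hL (measurableSet_singleton j)
    have hlt : μ {y | L y ≠ j} < 1 := by
      refine lt_of_le_of_ne prob_le_one fun h => ?_
      have h0 : μ {y | L y = j} = 0 := (prob_compl_eq_one_iff hm).1 h
      have h1 : (0 : ℝ) < (j : ℝ) + 1 := by positivity
      have h2 : (0 : ℝ) < (j : ℝ) + 2 := by positivity
      have hsub : Set.Ioo ((j : ℝ) + 2)⁻¹ ((j : ℝ) + 1)⁻¹ ⊆ {y | L y = j} ∩ Set.Icc 0 1 := by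
        rintro y ⟨a, b⟩
        have hy : 0 < y := (inv_pos.2 h2).trans a
        have hb1 : ((j : ℝ) + 1)⁻¹ ≤ 1 := inv_le_one_of_one_le₀ (by linarith)
        refine ⟨?_, hy.le, (b.le.trans hb1)⟩
        have : ⌊y⁻¹⌋₊ = j + 1 := by
          rw [Nat.floor_eq_iff (by positivity)]
          push_cast
          exact ⟨(lt_inv_of_lt_inv₀ hy b).le, by
            have := inv_lt_of_inv_lt₀ h2 a
            linarith⟩
        simp [L, this]
      rw [hμ, Measure.restrict_apply hm] at h0
      have := measure_mono_null hsub h0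
      rw [Real.volume_Ioo, ENNReal.ofReal_eq_zero, sub_nonpos] at this
      exact absurd this (not_le.2 (inv_strictAnti₀ h1 (by linarith)))
    have := (ENNReal.tendsto_pow_atTop_nhds_zero_of_lt_one hlt).eventually
      (Iio_mem_nhds (show (0 : ENNReal) < 2⁻¹ ^ (j + 2) from ENNReal.pow_pos (by simp) _))
    obtain ⟨N, hN⟩ := this.exists
    exact ⟨N, le_of_lt hN⟩
  choose N hN using hN
  obtain ⟨q, hq0, hq1, hqN⟩ : ∃ q : ℕ → ℝ, (∀ j, 0 < q j) ∧ (∀ j, q j ≤ 1) ∧
      ∀ j, N j * q j ≤ 2⁻¹ ^ (j + 2) := by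
    refine ⟨fun j => 2⁻¹ ^ (j + 2) / (N j + 1), fun j => by positivity, fun j => ?_, fun j => ?_⟩
    · rw [div_le_one (by positivity)]
      have : (2⁻¹ : ℝ) ^ (j + 2) ≤ 1 := pow_le_one₀ (by norm_num) (by norm_num)
      have h2 : (0 : ℝ) ≤ N j := by positivity
      linarith
    · rw [← mul_div_assoc, div_le_iff₀ (by positivity)]
      have : (0 : ℝ) < 2⁻¹ ^ (j + 2) := by positivity
      nlinarith
  have h1 : ∀ k t, MeasurableSet t → μ (ξ k ⁻¹' t) = μ t := by
    intro k t ht
    have := hind {k} t ht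
    simp at this
    exact this
  let A : ℕ → ℕ → Set ℝ := fun k j => ξ k ⁻¹' Set.Icc 0 (q j)
  have hA : ∀ k j, MeasurableSet (A k j) := fun k j => hξ k measurableSet_Icc
  have hI : ∀ j, μ (Set.Icc 0 (q j)) = ENNReal.ofReal (q j) := by
    intro j
    rw [hμ, Measure.restrict_apply measurableSet_Icc,
      Set.inter_eq_left.2 (Set.Icc_subset_Icc_right (hq1 j))]
    simp
  have hA0 : ∀ k j, μ (A k j) = ENNReal.ofReal (q j) := fun k j => by
    rw [h1 k _ measurableSet_Icc, hI]
  have hA1 : ∀ k j, μ.real (A k j) = q j := fun k j => by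
    rw [measureReal_def, hA0, ENNReal.toReal_ofReal (hq0 j).le]
  have hA2 : ∀ k l j, k ≠ l → μ.real (A k j ∩ A l j) = q j ^ 2 := by
    intro k l j hkl
    have := hind {k, l} _ (measurableSet_Icc (a := 0) (b := q j))
    rw [Finset.card_pair hkl, hI] at this
    have e : A k j ∩ A l j = {ω | ∀ i ∈ ({k, l} : Finset ℕ), ξ i ω ∈ Set.Icc 0 (q j)} := by
      ext ω; simp [A]
    rw [measureReal_def, e, this, ENNReal.toReal_pow, ENNReal.toReal_ofReal (hq0 j).le]
  let v : ℕ → ℕ → ℝ → ℝ := fun k j t => (q j)⁻¹ * (A k j).indicator (fun _ => (1 : ℝ)) t + -1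
  have hv : ∀ k j, BM inferInstance (v k j) := fun k j =>
    ((BM.const _ _).mul (BM.ind (hA k j))).add (BM.const _ _)
  let u : ℕ → ℕ → Lp ℝ 1 μ := fun k j => ((hv k j).memLp μ 1).toLp _
  have hu : ∀ k j, (u k j : ℝ → ℝ) =ᵐ[μ] v k j := fun k j => MemLp.coeFn_toLp _
  obtain ⟨φ, hφ, hconv⟩ := H (fun k ω => u k (L (ξ k ω)))
    (fun k => ((StronglyMeasurable.of_discrete (f := u k)).comp_measurable
      (hL.comp (hξ k))).aestronglyMeasurable)
    ⟨2, fun k => Eventually.of_forall fun ω => by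
      generalize L (ξ k ω) = j
      rw [L1.norm_eq_integral_norm]
      have e := int_two μ (hA k j) (hA k j) (q j)⁻¹ 1 0 1
      simp only [zero_mul, zero_add, mul_one, mul_zero, add_zero, hA1,
        inv_mul_cancel₀ (hq0 j).ne'] at e
      calc _ = ∫ t, ‖v k j t‖ ∂μ := integral_congr_ae ((hu k j).fun_comp norm)
        _ ≤ ∫ t, ((q j)⁻¹ * (A k j).indicator (fun _ => (1 : ℝ)) t + 1) ∂μ := by
          refine integral_mono ((hv k j).int μ).norm ((((BM.const _ _).mul (BM.ind (hA k j))).add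
            (BM.const _ _)).int μ) fun t => ?_
          have := inv_pos.2 (hq0 j)
          by_cases h : t ∈ A k j <;> simp only [v, h, Set.indicator_of_mem,
            Set.indicator_of_notMem, not_false_eq_true, Real.norm_eq_abs, abs_le] <;>
            constructor <;> linarith
        _ = 2 := by rw [e]; norm_num⟩
    (by
      intro x
      have hw : ∀ (y : Lp ℝ 1 μ →L[ℝ] ℝ) (j : ℕ) (δ : ℝ), 0 < δ → ∀ᶠ k in atTop, y (u k j) < δ := by
        intro y j δ hδ
        have := (weak_null μ (fun k => v k j) (fun k => hv k j) (fun k => u k j) (fun k => hu k j)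
          (q j)⁻¹ (fun k => by
            rw [int_two μ (hA k j) (hA k j), Set.inter_self, hA1]
            have := hq0 j
            field_simp
            linarith) (fun k l hkl => by
            rw [int_two μ (hA k j) (hA l j), hA2 k l j hkl, hA1, hA1]
            have := hq0 j
            field_simp
            ring) y δ hδ).eventually_cofinite_notMem
        rw [Nat.cofinite_eq_atTop] at this
        exact this.mono fun k hk => not_le.1 hk
      rw [tendstoInMeasure_iff_norm]
      intro ε hε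
      rw [ENNReal.tendsto_nhds_zero]
      intro η hη
      have hR : ∀ J, MeasurableSet {y | J ≤ L y} := fun J => hL (measurableSet_Ici (a := J))
      have hlim := tendsto_measure_iInter_atTop (μ := μ) (s := fun J => {y | J ≤ L y})
        (fun J => (hR J).nullMeasurableSet) (fun a b hab y hy => hab.trans hy)
        ⟨0, measure_ne_top _ _⟩
      have e : ⋂ J, {y | J ≤ L y} = ∅ := by
        ext y
        simp only [Set.mem_iInter, Set.mem_setOf_eq, Set.mem_empty_iff_false, iff_false,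
          not_forall, not_le]
        exact ⟨L y + 1, Nat.lt_succ_self _⟩
      rw [e, measure_empty, ENNReal.tendsto_nhds_zero] at hlim
      obtain ⟨J, hJ⟩ := (hlim η hη).exists
      have h2 : ∀ᶠ k in atTop, ∀ j ∈ Finset.range J, x (u k j) < ε ∧ (-x) (u k j) < ε :=
        (eventually_all_finset _).2 fun j _ => (hw x j ε hε).and (hw (-x) j ε hε)
      filter_upwards [h2] with k hk
      refine le_trans (measure_mono (t := ξ k ⁻¹' {y | J ≤ L y}) fun ω hω => ?_)
        ((h1 k _ (hR J)).le.trans hJ)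
      by_contra h
      have := hk (L (ξ k ω)) (Finset.mem_range.2 (not_le.1 h))
      simp only [Set.mem_setOf_eq, sub_zero, Real.norm_eq_abs, ContinuousLinearMap.neg_apply]
        at hω this
      exact absurd hω (not_le.2 (abs_lt.2 ⟨by linarith [this.2], this.1⟩)))
  have hsum : ∑' j : ℕ, (2⁻¹ : ENNReal) ^ (j + 2) = 2⁻¹ := by
    simp only [pow_add, ENNReal.tsum_mul_right, ENNReal.tsum_geometric, ENNReal.one_sub_inv_two,
      inv_inv]
    rw [sq, ← mul_assoc, ENNReal.mul_inv_cancel (by simp) (by simp), one_mul]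
  let S : ℕ → Finset ℕ := fun j => (Finset.range (N j)).image fun r => φ (Nat.pair j r)
  have hS : ∀ j, (S j).card = N j := fun j => by
    rw [Finset.card_image_of_injective _ fun a b h => (Nat.pair_eq_pair.1 (hφ.injective h)).2,
      Finset.card_range]
  let G : Set ℝ := ⋃ j, ⋃ k ∈ S j, A k j
  have hG : MeasurableSet G := .iUnion fun j => (S j).measurableSet_biUnion fun k _ => hA k j
  have hG2 : μ.real G ≤ 2⁻¹ := by
    have : μ G ≤ 2⁻¹ := by
      refine (measure_iUnion_le _).trans (le_of_le_of_eq (ENNReal.tsum_le_tsum fun j => ?_) hsum)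
      refine (measure_biUnion_finset_le _ _).trans ?_
      simp only [hA0, Finset.sum_const, hS, nsmul_eq_mul]
      have := ENNReal.ofReal_le_ofReal (hqN j)
      rwa [ENNReal.ofReal_mul (by positivity), ENNReal.ofReal_natCast,
        ENNReal.ofReal_pow (by norm_num), ENNReal.ofReal_inv_of_pos two_pos,
        ENNReal.ofReal_ofNat] at this
    have := ENNReal.toReal_mono (by simp) this
    simpa [measureReal_def] using this
  let g : Lp ℝ ⊤ μ := ((BM.ind hG).memLp μ ⊤).toLp _
  have hg : (g : ℝ → ℝ) =ᵐ[μ] G.indicator fun _ => 1 := MemLp.coeFn_toLp _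
  let x : Lp ℝ 1 μ →L[ℝ] ℝ := (ContinuousLinearMap.mul ℝ ℝ).lpPairing μ ⊤ 1 g
  have hx : ∀ j, ∀ k ∈ S j, 2⁻¹ ≤ x (u k j) := by
    intro j k hk
    have e := int_two μ hG (hA k j) 1 0 (q j)⁻¹ (-1)
    have hsub : A k j ⊆ G := fun t ht => Set.mem_iUnion.2 ⟨j, Set.mem_biUnion hk ht⟩
    rw [Set.inter_eq_right.2 hsub, hA1] at e
    have e2 : x (u k j) = ∫ t, (1 * G.indicator (fun _ => (1 : ℝ)) t + 0) * v k j t ∂μ := by
      rw [ContinuousLinearMap.lpPairing_eq_integral]
      refine integral_congr_ae ?_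
      filter_upwards [hg, hu k j] with t a1 a2
      simp [a1, a2]
    rw [e2, e, one_mul, inv_mul_cancel₀ (hq0 j).ne']
    linarith
  let D : Set ℝ := ⋃ j, {ω | ∀ k ∈ S j, ξ k ω ∈ {y | L y ≠ j}}
  have hD : μ D ≤ 2⁻¹ := by
    refine (measure_iUnion_le _).trans (le_of_le_of_eq (ENNReal.tsum_le_tsum fun j => ?_) hsum)
    rw [hind (S j) {y | L y ≠ j} (hL (measurableSet_singleton j)).compl, hS]
    exact hN j
  have hall : ∀ᵐ ω ∂μ, ω ∈ D := by
    filter_upwards [hconv x] with ω hω
    by_contra hω'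
    obtain ⟨J, hJ⟩ := eventually_atTop.1 (hω.eventually (Iio_mem_nhds (by norm_num :
      (0 : ℝ) < 2⁻¹)))
    simp only [D, Set.mem_iUnion, Set.mem_setOf_eq, not_exists, not_forall, not_not] at hω'
    obtain ⟨k, hk, hkJ⟩ := hω' J
    obtain ⟨r, -, rfl⟩ := Finset.mem_image.1 hk
    have h2 := hJ (Nat.pair J r) (Nat.left_le_pair _ _)
    rw [hkJ] at h2
    exact absurd (hx J _ hk) (not_le.2 h2)
  have h2 : μ Set.univ ≤ μ D := measure_mono_ae (hall.mono fun ω h _ => h)
  rw [measure_univ] at h2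
  exact absurd (h2.trans hD) (by norm_num)

end Pool.Agent.S04402
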