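import Pool.Statements.S04442
import Pool.Agent.H11.WeakOrbit

set_option autoImplicit false
open Filter Topology NNReal
open Pool Pool.MP_3fe7c1_an

namespace Pool.Agent.S04442

open Pool.Agent.H11.WO

/-- the sequence space -/
abbrev X : Type := lp (fun _ : ℕ => ℂ) 1

lemma norm_w_le (n : ℕ) (t : ℝ≥0) : ‖w n t‖ ≤ 1 := by
  rw [norm_w]; exact exp_le_one' n t.2

lemma mul_le (t : ℝ≥0) (x : X) (n : ℕ) : ‖x n * w n t‖ ≤ ‖x n‖ := fterm_le x t.2 n

noncomputable def Tl (t : ℝ≥0) : X →ₗ[ℂ] X where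
  toFun x := ⟨fun n => x n * w n t, (lp.memℓp x).mono' (mul_le t x)⟩
  map_add' x y := by
    ext n
    show (x n + y n) * w n t = x n * w n t + y n * w n t
    ring
  map_smul' c x := by
    ext n
    show (c * x n) * w n t = c * (x n * w n t)
    ring

noncomputable def T (t : ℝ≥0) : X →L[ℂ] X :=
  (Tl t).mkContinuous 1 fun x => by
    rw [one_mul]
    exact lp.norm_mono one_ne_zero (mul_le t x)

lemma T_apply (t : ℝ≥0) (x : X) (n : ℕ) : T t x n = x n * w n t := rfl

lemma w_zero (n : ℕ) : w n 0 = 1 := by simp [w, e]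

lemma w_add (n : ℕ) (p q : ℝ) : w n (p + q) = w n p * w n q := by
  unfold w
  rw [mul_add (s n), e_add, mul_add, neg_add, Real.exp_add]
  push_cast
  ring

lemma summ (x : X) : Summable fun n => ‖x n‖ := by
  have := (lp.memℓp x).summable (by simp)
  simpa using this

/-- unit vectors -/
noncomputable def u (n : ℕ) : X := lp.single 1 n (1 : ℂ)

lemma norm_u (n : ℕ) : ‖u n‖ = 1 := by
  unfold u; rw [lp.norm_single (by simp)]; simp

lemma hs (x : X) : HasSum (fun n => x n • u n) x := by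
  have h := lp.hasSum_single (p := 1) (by simp) x
  have e : (fun n => x n • u n) = fun n => lp.single 1 n (x n) := by
    funext n
    unfold u
    rw [← lp.single_smul]; simp
  rw [e]; exact h

lemma w_cont (n : ℕ) : Continuous fun t : ℝ≥0 => w n t := by
  unfold w e
  fun_prop

lemma T_cont (x : X) : Continuous fun t : ℝ≥0 => T t x := by
  have e : (fun t : ℝ≥0 => T t x) = fun t : ℝ≥0 => ∑' n, (x n * w n t) • u n := by
    funext t
    exact (hs (T t x)).tsum_eq.symm
  rw [e]
  refine continuous_tsum (fun n => (continuous_const.mul (w_cont n)).smul continuous_const)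
    (summ x) fun n t => ?_
  rw [norm_smul, norm_u, mul_one]
  exact mul_le t x n

lemma orbit (x : X) (y : X →L[ℂ] ℂ) (t : ℝ≥0) :
    y (T t x) = ∑' n, (x n * y (u n)) * w n t := by
  have h := (hs (T t x)).mapL y
  rw [← h.tsum_eq]
  congr 1
  funext n
  rw [map_smul, T_apply, smul_eq_mul]
  ring

lemma summ2 (x : X) (y : X →L[ℂ] ℂ) : Summable fun n => ‖x n * y (u n)‖ := by
  refine .of_nonneg_of_le (fun n => norm_nonneg _) (fun n => ?_) ((summ x).mul_right ‖y‖)
  rw [norm_mul]
  gcongr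
  simpa [norm_u] using y.le_opNorm (u n)

lemma weak (x : X) (y : X →L[ℂ] ℂ) : Tendsto (fun t : ℝ≥0 => y (T t x)) atTop (𝓝 0) := by
  simp only [orbit]
  have := tendsto_tsum_of_dominated_convergence (𝓕 := atTop)
    (f := fun (t : ℝ≥0) (n : ℕ) => (x n * y (u n)) * w n t) (g := fun _ => 0) (summ2 x y) ?_ ?_
  · simpa using this
  · intro n
    rw [← mul_zero (x n * y (u n))]
    apply Tendsto.const_mul
    rw [tendsto_zero_iff_norm_tendsto_zero]
    simp only [norm_w]
    apply Real.tendsto_exp_neg_atTop_nhds_zero.comp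
    exact (NNReal.tendsto_coe_atTop.2 tendsto_id).const_mul_atTop (eps_pos n)
  · exact Eventually.of_forall fun t n => fterm_le (fun n => x n * y (u n)) t.2 n

lemma lower (t : ℝ≥0) (n : ℕ) : Real.exp (-(eps n * t)) ≤ ‖T t‖ := by
  have h1 := (T t).le_opNorm (u n)
  rw [norm_u, mul_one] at h1
  have h2 := lp.norm_apply_le_norm one_ne_zero (T t (u n)) n
  rw [T_apply] at h2
  have h3 : u n n = 1 := by simp [u]
  rw [h3, one_mul, norm_w] at h2
  linarith

lemma not_exp : ¬ ∃ M ω : ℝ, 0 < ω ∧ ∀ t : ℝ≥0, ‖T t‖ ≤ M * Real.exp (-ω * (t : ℝ)) := by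
  rintro ⟨M, ω, hω, h⟩
  obtain ⟨n, hn⟩ := exists_nat_one_div_lt (show 0 < ω / 2 by positivity)
  have hn' : eps n < ω / 2 := hn
  let t : ℝ≥0 := ⟨2 * |M| / ω, by positivity⟩
  have ht : (t : ℝ) = 2 * |M| / ω := rfl
  have ht0 : (0 : ℝ) ≤ t := t.2
  have h1 := (lower t n).trans (h t)
  have h2 : Real.exp (-(eps n * t)) = Real.exp ((ω - eps n) * t) * Real.exp (-ω * t) := by
    rw [← Real.exp_add]; ring_nf
  rw [h2] at h1
  have h3 := le_of_mul_le_mul_right h1 (Real.exp_pos _)
  have h4 := Real.add_one_le_exp ((ω - eps n) * t)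
  have h5 : ω / 2 * t ≤ (ω - eps n) * t := by gcongr; linarith
  have h6 : ω / 2 * t = |M| := by rw [ht]; field_simp
  have := le_abs_self M
  linarith


/-- The negation of the preceding statement: For every complex Banach space X and strongly continuous semigroup T on X that is weakly stable (y(T t x)→0 for all x, y∈X') and not exponentially stable, every positive antitone a:ℝ≥0→ℝ tending to 0 admits x∈X, y∈X' with a t ≤ ∣y(T t x)∣ for all t≥0. -/
theorem result :
    ¬ (∀ (X : Type) [NormedAddCommGroup X] [NormedSpace ℂ X] [CompleteSpace X]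
      (T : ℝ≥0 → (X →L[ℂ] X)),
      T 0 = 1 →
      (∀ s t : ℝ≥0, T (s + t) = T s * T t) →
      (∀ x : X, Continuous (fun t : ℝ≥0 => T t x)) →
      (∀ (x : X) (y : X →L[ℂ] ℂ), Tendsto (fun t : ℝ≥0 => y (T t x)) atTop (𝓝 0)) →
      (¬ ∃ M ω : ℝ, 0 < ω ∧ ∀ t : ℝ≥0, ‖T t‖ ≤ M * Real.exp (-ω * (t : ℝ))) →
      ∀ a : ℝ≥0 → ℝ, (∀ t, 0 < a t) → Antitone a → Tendsto a atTop (𝓝 0) →
        ∃ (x : X) (y : X →L[ℂ] ℂ), ∀ t : ℝ≥0, a t ≤ ‖y (T t x)‖) := by
  intro H
  obtain ⟨x, y, hxy⟩ := H X T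
    (by ext x n; rw [T_apply]; simp [w_zero])
    (by
      intro p q; ext x n
      show x n * w n ((p + q : ℝ≥0) : ℝ) = x n * w n q * w n p
      rw [NNReal.coe_add, w_add]; ring)
    T_cont weak not_exp (fun t => a t)
    (by
      intro t
      unfold a
      have : (0 : ℝ) < 1 + t := by positivity
      positivity)
    (fun p q hpq => a_anti p.2 hpq)
    (by
      unfold a
      simp only [one_div]
      apply tendsto_inv_atTop_zero.comp
      apply Real.tendsto_sqrt_atTop.comp
      exact tendsto_atTop_add_const_left _ _ (NNReal.tendsto_coe_atTop.2 tendsto_id))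
  refine core (summ2 x y) fun t ht => ?_
  have := hxy ⟨t, ht⟩
  rw [orbit] at this
  exact this

end Pool.Agent.S04442
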