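import Pool.Statements.S04455
import Pool.Agent.H21.Erd3

set_option autoImplicit false
open Pool Pool.MP_410a69_an

namespace Pool.Agent.S04455

/-- If w≥0 is bounded on [-1,1] with support [-1,1] and the monic orthogonal polynomials' L²(w dx)-norms have k-th roots tending to 1/2, then removing Lebesgue measure ≤ε from {w>0} leaves a set whose log capacity tends to 1/2 as ε→0. -/
theorem result :
    ∀ w : ℝ → ℝ, Measurable w → (∀ x, 0 ≤ w x) → (∃ M : ℝ, ∀ x, w x ≤ M) →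
      (∀ a b : ℝ, -1 ≤ a → a < b → b ≤ 1 → 0 < ∫ x in a..b, w x) →
      Filter.Tendsto
        (fun k : ℕ =>
          (sInf {t : ℝ | ∃ q : Polynomial ℝ, q.Monic ∧ q.natDegree = k ∧
              t = Real.sqrt (∫ x in (-1:ℝ)..1, (q.eval x) ^ 2 * w x)}) ^ ((1:ℝ) / k))
        Filter.atTop (nhds (1 / 2)) →
      ∀ η : ℝ, 0 < η → ∃ ε : ℝ, 0 < ε ∧
        ∀ E : Set ℝ, MeasurableSet E →
          E ⊆ {x : ℝ | x ∈ Set.Icc (-1:ℝ) 1 ∧ 0 < w x} →
          MeasureTheory.volume ({x : ℝ | x ∈ Set.Icc (-1:ℝ) 1 ∧ 0 < w x} \ E) ≤ ENNReal.ofReal ε →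
          1 / 2 - η ≤ sSup {c : ℝ | ∃ F : Set ℝ, IsCompact F ∧ F ⊆ E ∧
            c = sInf {s : ℝ | ∃ n : ℕ, 1 ≤ n ∧
              s = (sInf {t : ℝ | ∃ q : Polynomial ℝ, q.Monic ∧ q.natDegree = n ∧
                    t = sSup ((fun x => |q.eval x|) '' F)}) ^ ((1:ℝ) / n)}} := by
  rintro w hw h0 ⟨M, hM⟩ - h η hη
  exact Pool.Agent.H21.Erd.main w hw h0 M hM (Pool.Agent.H21.Erd.reg w h0 h) η hη

end Pool.Agent.S04455
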