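import Pool.Statements.S04462
import Pool.Agent.H1.Osc
-- import your own Pool.Agent.* helpers here

set_option autoImplicit false
open Filter Topology
open Pool Pool.MP_413ec1_an

namespace Pool.Agent.S04462

section Aux

open NormedSpace BoundedContinuousFunction

variable {Y : Type} [NormedAddCommGroup Y] [NormedSpace ℂ Y] [CompleteSpace Y]

lemma exp_add' (A : Y →L[ℂ] Y) (s t : ℝ) : exp ((s + t) • A) = exp (s • A) * exp (t • A) := by
  letI : NormedAlgebra ℚ (Y →L[ℂ] Y) := NormedAlgebra.restrictScalars ℚ ℂ _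
  rw [add_smul]
  exact exp_add_of_commute (((Commute.refl A).smul_left s).smul_right t)

lemma exp_eig (U : Y →L[ℂ] Y) (y : Y) (l : ℂ) (h : U y = l • y) : exp U y = Complex.exp l • y := by
  have h1 := (ContinuousLinearMap.apply ℂ Y y).hasSum (exp_series_hasSum_exp' (𝕂 := ℂ) U)
  have h2 := (exp_series_hasSum_exp' (𝕂 := ℂ) l).smul_const y
  have h3 : ∀ n : ℕ, (U ^ n) y = l ^ n • y := by
    intro n
    induction n with
    | zero => simp
    | succ n ih => rw [pow_succ, ContinuousLinearMap.mul_apply, h, map_smul, ih, smul_smul, pow_succ']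
  rw [Complex.exp_eq_exp_ℂ]
  refine h1.unique ?_
  convert h2 using 2 with n
  simp [h3, smul_smul]

noncomputable def GG (A B : Y →L[ℂ] Y) (p : ℝ × ℝ) : Y →L[ℂ] Y := exp (p.1 • A) * exp (p.2 • B)

lemma exp_cont (A : Y →L[ℂ] Y) : Continuous fun t : ℝ => exp (t • A) :=
  continuous_iff_continuousAt.2 fun t => (hasDerivAt_exp_smul_const (𝕂 := ℝ) A t).continuousAt

lemma GG_cont (A B : Y →L[ℂ] Y) : Continuous (GG A B) :=
  ((exp_cont A).comp continuous_fst).mul ((exp_cont B).comp continuous_snd)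

lemma GG_comm {A B U : Y →L[ℂ] Y} (hA : Commute U A) (hB : Commute U B) (p : ℝ × ℝ) :
    Commute U (GG A B p) :=
  ((hA.smul_right _).exp_right).mul_right ((hB.smul_right _).exp_right)

def EE (A B : Y →L[ℂ] Y) : Submodule ℂ (ℝ × ℝ →ᵇ Y) where
  carrier := {f | ∀ p, f p = GG A B p (f 0)}
  add_mem' := fun {f g} hf hg p => by simp [map_add, ← hf p, ← hg p]
  zero_mem' := fun p => by simp
  smul_mem' := fun c f hf p => by simp [map_smul, ← hf p]

lemma EE_closed (A B : Y →L[ℂ] Y) : IsClosed (EE A B : Set (ℝ × ℝ →ᵇ Y)) := by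
  have : (EE A B : Set (ℝ × ℝ →ᵇ Y)) = ⋂ p, {f | f p = GG A B p (f 0)} := by
    ext f; simp only [Set.mem_iInter]; rfl
  rw [this]
  exact isClosed_iInter fun p => isClosed_eq (continuous_eval_const p)
    ((GG A B p).continuous.comp (continuous_eval_const 0))

noncomputable def rho {A B : Y →L[ℂ] Y} (U : Y →L[ℂ] Y) (hA : Commute U A) (hB : Commute U B) :
    EE A B →L[ℂ] EE A B :=
  ((U.compLeftContinuousBounded (ℝ × ℝ)).comp (EE A B).subtypeL).codRestrict (EE A B) (fun f p => by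
    show U (f.1 p) = GG A B p (U (f.1 0))
    rw [f.2 p]
    exact congrArg (fun W : Y →L[ℂ] Y => W (f.1 0)) (GG_comm hA hB p).eq)

lemma rho_apply {A B : Y →L[ℂ] Y} (U : Y →L[ℂ] Y) (hA : Commute U A) (hB : Commute U B)
    (f : EE A B) (p : ℝ × ℝ) : (rho U hA hB f).1 p = U (f.1 p) := rfl

lemma EE_ext {A B : Y →L[ℂ] Y} {f g : EE A B} (h : ∀ p, f.1 p = g.1 p) : f = g :=
  Subtype.ext (BoundedContinuousFunction.ext h)

lemma tend {A B : Y →L[ℂ] Y} {ι : Type} {l : Filter ι} (F : ι → EE A B) (g x : EE A B)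
    (U : ι → Y →L[ℂ] Y) (h : ∀ i p, (F i).1 p - g.1 p = U i (x.1 p)) (hU : Tendsto U l (𝓝 0)) :
    Tendsto F l (𝓝 g) := by
  rw [tendsto_iff_norm_sub_tendsto_zero]
  have h1 : Tendsto (fun i => ‖U i‖ * ‖x.1‖) l (𝓝 0) := by
    simpa using (tendsto_zero_iff_norm_tendsto_zero.1 hU).mul_const ‖x.1‖
  refine squeeze_zero (fun _ => norm_nonneg _) (fun i => ?_) h1
  show ‖(F i).1 - g.1‖ ≤ _
  refine (BoundedContinuousFunction.norm_le (by positivity)).2 fun p => ?_
  rw [BoundedContinuousFunction.sub_apply, h]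
  exact (U i).le_opNorm_of_le (x.1.norm_coe_le_norm p)

lemma sg_cont {A B : Y →L[ℂ] Y} (C : Y →L[ℂ] Y) (hA : Commute C A) (hB : Commute C B) (x : EE A B) :
    Continuous fun t : ℝ => rho (exp (t • C)) (hA.smul_left t).exp_left (hB.smul_left t).exp_left x := by
  refine continuous_iff_continuousAt.2 fun t0 => ?_
  refine tend _ _ x (fun t => exp (t • C) - exp (t0 • C)) (fun t p => rfl) ?_
  simpa using ((exp_cont C).tendsto t0).sub_const (exp (t0 • C))

lemma sg_gen {A B : Y →L[ℂ] Y} (C : Y →L[ℂ] Y) (hA : Commute C A) (hB : Commute C B) (x y : EE A B) :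
    Tendsto (fun t : ℝ => t⁻¹ • (rho (exp (t • C)) (hA.smul_left t).exp_left (hB.smul_left t).exp_left x - x))
      (𝓝[>] 0) (𝓝 y) ↔ y = rho C hA hB x := by
  have h : Tendsto (fun t : ℝ => t⁻¹ • (rho (exp (t • C)) (hA.smul_left t).exp_left
      (hB.smul_left t).exp_left x - x)) (𝓝[>] 0) (𝓝 (rho C hA hB x)) := by
    refine tend _ _ x (fun t => t⁻¹ • (exp (t • C) - 1) - C) (fun t p => rfl) ?_
    have h1 := (hasDerivAt_exp_smul_const (𝕂 := ℝ) C 0).tendsto_slope_zero_right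
    simpa using h1.sub_const C
  exact ⟨fun h' => tendsto_nhds_unique h' h, fun h' => h' ▸ h⟩

lemma sg_bound {A B : Y →L[ℂ] Y} (U : Y →L[ℂ] Y) (hA : Commute U A) (hB : Commute U B) (q : ℝ × ℝ)
    (h : ∀ p, U * GG A B p = GG A B (q + p)) : ‖rho U hA hB‖ ≤ 1 := by
  refine ContinuousLinearMap.opNorm_le_bound _ zero_le_one fun f => ?_
  rw [one_mul]
  show ‖(rho U hA hB f).1‖ ≤ ‖f.1‖
  refine (BoundedContinuousFunction.norm_le (norm_nonneg _)).2 fun p => ?_
  have : (rho U hA hB f).1 p = f.1 (q + p) := by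
    rw [rho_apply, f.2 p, f.2 (q + p), ← h]; rfl
  rw [this]
  exact f.1.norm_coe_le_norm _

noncomputable def LL : (ℕ →ᵇ ℂ) →L[ℂ] (ℕ →ᵇ ℂ) :=
  compContinuousCLM ℂ ℂ ⟨fun j => j + 1, continuous_of_discreteTopology⟩

noncomputable def yy (b : ℝ) : ℕ →ᵇ ℂ :=
  if h : b ∈ Set.Icc (1 / 4 : ℝ) (5 / 16) then
    ofNormedAddCommGroupDiscrete (fun j => (((8 * b - 2) ^ j : ℝ) : ℂ)) 1 (fun j => by
      rw [Complex.norm_real, Real.norm_eq_abs, abs_pow]
      refine pow_le_one₀ (abs_nonneg _) ?_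
      rw [abs_le]; constructor <;> linarith [h.1, h.2])
  else 0

lemma yy_apply {b : ℝ} (h : b ∈ Set.Icc (1 / 4 : ℝ) (5 / 16)) (j : ℕ) :
    yy b j = (((8 * b - 2) ^ j : ℝ) : ℂ) := by
  unfold yy; rw [dif_pos h]; rfl

lemma yy_cont : ContinuousOn yy (Set.Icc (1 / 4 : ℝ) (5 / 16)) := by
  refine (LipschitzOnWith.of_dist_le_mul (K := 8) fun a ha b hb => ?_).continuousOn
  refine (BoundedContinuousFunction.dist_le (by positivity)).2 fun j => ?_
  rw [yy_apply ha, yy_apply hb, dist_eq_norm, ← Complex.ofReal_sub, Complex.norm_real, Real.norm_eq_abs]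
  refine (abs_pow_sub_pow_le _ _ _).trans ?_
  have h1 : max |8 * a - 2| |8 * b - 2| ≤ 1 / 2 := by
    rw [max_le_iff, abs_le, abs_le]
    refine ⟨⟨?_, ?_⟩, ?_, ?_⟩ <;> linarith [ha.1, ha.2, hb.1, hb.2]
  have h4 : (j : ℝ) * (1 / 2) ^ (j - 1) ≤ 1 := by
    rcases j with _ | j
    · simp
    · rw [Nat.add_sub_cancel, one_div_pow, mul_one_div, div_le_one (by positivity)]
      exact_mod_cast Nat.lt_two_pow_self
  have h5 : |8 * a - 2 - (8 * b - 2)| = 8 * dist a b := by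
    rw [show 8 * a - 2 - (8 * b - 2) = 8 * (a - b) by ring, abs_mul, Real.dist_eq]; norm_num
  rw [h5, mul_assoc]
  have h6 : (j : ℝ) * (max |8 * a - 2| |8 * b - 2|) ^ (j - 1) ≤ j * (1 / 2) ^ (j - 1) := by gcongr
  simpa using mul_le_of_le_one_right (by positivity : (0 : ℝ) ≤ 8 * dist a b) (h6.trans h4)

noncomputable def BB : (ℕ →ᵇ ℂ) →L[ℂ] (ℕ →ᵇ ℂ) := (-Complex.I / 4) • (1 - (-1 / 2 : ℂ) • LL)

lemma LL_norm : ‖(-1 / 2 : ℂ) • LL‖ ≤ 1 / 2 := by
  rw [norm_smul]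
  have : ‖LL‖ ≤ 1 := ContinuousLinearMap.opNorm_le_bound _ zero_le_one fun f => by
    rw [one_mul]
    exact (BoundedContinuousFunction.norm_le (norm_nonneg _)).2 fun j => f.norm_coe_le_norm (j + 1)
  have h2 : ‖(-1 / 2 : ℂ)‖ = 1 / 2 := by simp
  rw [h2]; linarith

lemma BB_norm : ‖BB‖ < 1 := by
  unfold BB
  rw [norm_smul]
  have h1 := norm_sub_le (1 : (ℕ →ᵇ ℂ) →L[ℂ] (ℕ →ᵇ ℂ)) ((-1 / 2 : ℂ) • LL)
  have h2 : ‖(1 : (ℕ →ᵇ ℂ) →L[ℂ] (ℕ →ᵇ ℂ))‖ ≤ 1 := ContinuousLinearMap.norm_id_le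
  have h3 : ‖(-Complex.I / 4 : ℂ)‖ = 1 / 4 := by simp
  have := LL_norm
  rw [h3]; linarith

lemma inv_gen (L : Y →L[ℂ] Y) (hL : ‖L‖ < 1) :
    ∃ A : Y →L[ℂ] Y, A * ((-Complex.I / 4) • (1 - L)) = 1 ∧ ((-Complex.I / 4) • (1 - L)) * A = 1 := by
  let u := Units.oneSub L hL
  have hu : 1 - L = (u : Y →L[ℂ] Y) := rfl
  have e : (4 * Complex.I) * (-Complex.I / 4) = 1 := by
    field_simp; ring_nf; rw [Complex.I_sq]; ring
  refine ⟨(4 * Complex.I) • (↑u⁻¹ : Y →L[ℂ] Y), ?_, ?_⟩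
  · rw [hu, smul_mul_smul_comm, Units.inv_mul, e, one_smul]
  · rw [hu, smul_mul_smul_comm, Units.mul_inv, mul_comm, e, one_smul]

lemma BB_yy {b : ℝ} (h : b ∈ Set.Icc (1 / 4 : ℝ) (5 / 16)) : BB (yy b) = (-Complex.I * b) • yy b := by
  ext j
  have : LL (yy b) j = yy b (j + 1) := rfl
  simp only [BB, ContinuousLinearMap.smul_apply, ContinuousLinearMap.sub_apply, ContinuousLinearMap.one_apply,
    BoundedContinuousFunction.coe_smul, BoundedContinuousFunction.coe_sub, Pi.smul_apply, Pi.sub_apply,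
    smul_eq_mul, this, yy_apply h]
  push_cast; ring

lemma atan_id (b : ℝ) : Complex.exp (Complex.I * ((2 * Real.arctan b : ℝ) : ℂ)) * (1 - Complex.I * b) =
    1 + Complex.I * b := by
  have h1 : Complex.exp (Complex.I * ((2 * Real.arctan b : ℝ) : ℂ)) =
      ((Real.cos (Real.arctan b) : ℂ) + (Real.sin (Real.arctan b) : ℂ) * Complex.I) ^ 2 := by
    rw [Complex.ofReal_cos, Complex.ofReal_sin, ← Complex.exp_mul_I, ← Complex.exp_nat_mul]
    congr 1; push_cast; ring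
  rw [h1, Real.cos_arctan, Real.sin_arctan]
  have h2 : ((√(1 + b ^ 2) : ℝ) : ℂ) ^ 2 = 1 + (b : ℂ) ^ 2 := by
    rw [← Complex.ofReal_pow, Real.sq_sqrt (by positivity)]; push_cast; ring
  have h3 : ((√(1 + b ^ 2) : ℝ) : ℂ) ≠ 0 := by
    exact_mod_cast (Real.sqrt_pos.2 (by positivity : (0 : ℝ) < 1 + b ^ 2)).ne'
  push_cast
  field_simp
  rw [h2]
  linear_combination (-(b : ℂ) ^ 2 - Complex.I * b ^ 3) * Complex.I_sq

end Aux

lemma main_gen {Y : Type} [NormedAddCommGroup Y] [NormedSpace ℂ Y] [CompleteSpace Y]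
    (A BB : Y →L[ℂ] Y) (hAB : A * BB = 1) (hBA : BB * A = 1) (BB_norm : ‖BB‖ < 1) (yy : ℝ → Y)
    (yy_cont : ContinuousOn yy (Set.Icc (1 / 4 : ℝ) (5 / 16)))
    (BB_yy : ∀ {b : ℝ}, b ∈ Set.Icc (1 / 4 : ℝ) (5 / 16) → BB (yy b) = (-Complex.I * b) • yy b)
    (el : ℕ → Y →L[ℂ] ℂ)
    (yy_apply : ∀ {b : ℝ}, b ∈ Set.Icc (1 / 4 : ℝ) (5 / 16) → ∀ j, el j (yy b) = (((8 * b - 2) ^ j : ℝ) : ℂ))
    (hel : ∀ (y : Y) (C : ℝ), 0 ≤ C → (∀ j, ‖el j y‖ ≤ C) → ‖y‖ ≤ C) (hel0 : ∀ y, ‖el 0 y‖ ≤ ‖y‖) :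
    ¬ (∀ (E : Type) [NormedAddCommGroup E] [NormedSpace ℂ E] [CompleteSpace E]
      (T S : ℝ → E →L[ℂ] E),
      T 0 = 1 → S 0 = 1 →
      (∀ s t : ℝ, 0 ≤ s → 0 ≤ t → T (s + t) = T s * T t) →
      (∀ s t : ℝ, 0 ≤ s → 0 ≤ t → S (s + t) = S s * S t) →
      (∀ x : E, ContinuousOn (fun t : ℝ => T t x) (Set.Ici 0)) →
      (∀ x : E, ContinuousOn (fun t : ℝ => S t x) (Set.Ici 0)) →
      (∃ M : ℝ, ∀ t : ℝ, 0 ≤ t → ‖T t‖ ≤ M) →
      (∃ M : ℝ, ∀ t : ℝ, 0 ≤ t → ‖S t‖ ≤ M) →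
      (∀ x y : E,
        Tendsto (fun t : ℝ => t⁻¹ • (T t x - x)) (𝓝[>] 0) (𝓝 y) ↔
          Tendsto (fun t : ℝ => t⁻¹ • (S t y - y)) (𝓝[>] 0) (𝓝 x)) →
      ∀ V : E →L[ℂ] E,
        (∀ x y : E, Tendsto (fun t : ℝ => t⁻¹ • (T t x - x)) (𝓝[>] 0) (𝓝 y) →
          V (y - x) = y + x) →
        ∃ C : ℝ, ∀ n : ℕ, ‖V ^ n‖ ≤ C) := by
  intro h
  have cAB : Commute A BB := hAB.trans hBA.symm
  let u := Units.oneSub BB BB_norm
  have hu : (u : Y →L[ℂ] Y) = 1 - BB := rfl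
  let V := (1 + BB) * (↑u⁻¹ : Y →L[ℂ] Y)
  have cV : ∀ W, Commute W BB → Commute V W := by
    intro W hW
    have h1 : Commute W (u : Y →L[ℂ] Y) := by
      rw [hu]; exact (Commute.one_right W).sub_right hW
    exact (((Commute.one_right W).add_right hW).mul_right h1.units_inv_right).symm
  have hV1 : V * (1 - BB) = 1 + BB := by
    rw [← hu, mul_assoc, Units.inv_mul, mul_one]
  have hV2 : V * (A - 1) = A + 1 := by
    have e1 : A - 1 = (1 - BB) * A := by rw [sub_mul, one_mul, hBA]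
    rw [e1, ← mul_assoc, hV1, add_mul, one_mul, hBA]
  haveI : CompleteSpace (EE A BB) := (EE_closed A BB).completeSpace_coe
  have cA := Commute.refl A
  have cB := Commute.refl BB
  obtain ⟨C, hC⟩ := h (EE A BB)
    (fun t => rho (NormedSpace.exp (t • A)) (cA.smul_left t).exp_left (cAB.smul_left t).exp_left)
    (fun t => rho (NormedSpace.exp (t • BB)) (cAB.symm.smul_left t).exp_left (cB.smul_left t).exp_left)
    (by ext1 f; exact EE_ext fun p => by rw [rho_apply]; simp)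
    (by ext1 f; exact EE_ext fun p => by rw [rho_apply]; simp)
    (fun s t _ _ => by ext1 f; exact EE_ext fun p => by rw [rho_apply, exp_add']; rfl)
    (fun s t _ _ => by ext1 f; exact EE_ext fun p => by rw [rho_apply, exp_add']; rfl)
    (fun x => (sg_cont A cA cAB x).continuousOn) (fun x => (sg_cont BB cAB.symm cB x).continuousOn)
    ⟨1, fun t _ => sg_bound _ _ _ (t, 0) fun p => by
      simp only [GG, Prod.fst_add, Prod.snd_add, zero_add, exp_add', mul_assoc]⟩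
    ⟨1, fun t _ => sg_bound _ _ _ (0, t) fun p => by
      simp only [GG, Prod.fst_add, Prod.snd_add, zero_add, exp_add']
      rw [← mul_assoc, ← mul_assoc, (((cAB.symm.smul_left t).smul_right p.1).exp_left.exp_right).eq]⟩
    (fun x y => by
      rw [sg_gen A cA cAB, sg_gen BB cAB.symm cB]
      constructor
      · rintro rfl
        exact EE_ext fun p => by
          rw [rho_apply, rho_apply, ← ContinuousLinearMap.mul_apply, hBA]; rfl
      · rintro rfl
        exact EE_ext fun p => by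
          rw [rho_apply, rho_apply, ← ContinuousLinearMap.mul_apply, hAB]; rfl)
    (rho V (cV A cAB) (cV BB cB))
    (fun x y hxy => by
      rw [sg_gen A cA cAB] at hxy
      subst hxy
      exact EE_ext fun p => congrArg (fun W : Y →L[ℂ] Y =>
        W (x.1 p)) hV2)
  have hC0 : 0 ≤ C := (norm_nonneg _).trans (hC 0)
  obtain ⟨n, hn⟩ := Pool.Agent.H1.Osc.osc (1 / (32 * (C + 1))) (by positivity)
  let w : ℝ → ℂ := fun b => Complex.exp (Complex.I * ((2 * Real.arctan b : ℝ) : ℂ))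
  have cw : Continuous w := by
    have := Real.continuous_arctan
    fun_prop
  have hI : Set.uIcc (1 / 4 : ℝ) (5 / 16) = Set.Icc (1 / 4 : ℝ) (5 / 16) := Set.uIcc_of_le (by norm_num)
  have i1 : IntervalIntegrable (fun b => w b ^ n • yy b) MeasureTheory.volume (1 / 4) (5 / 16) :=
    ((cw.pow n).continuousOn.smul yy_cont).intervalIntegrable_of_Icc (by norm_num)
  let y0 := ∫ b in (1 / 4 : ℝ)..(5 / 16), w b ^ n • yy b
  have ev : ∀ (U : Y →L[ℂ] Y) (j : ℕ),
      el j (U y0) = ∫ b in (1 / 4 : ℝ)..(5 / 16), w b ^ n * el j (U (yy b)) := by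
    intro U j
    have := ((el j).comp U).intervalIntegral_comp_comm i1
    simp only [ContinuousLinearMap.comp_apply, map_smul,
      smul_eq_mul] at this
    exact this.symm
  have hAy : ∀ b ∈ Set.Icc (1 / 4 : ℝ) (5 / 16), A (yy b) = (Complex.I / b) • yy b := by
    intro b hb
    have hb0 : (b : ℂ) ≠ 0 := by
      have : b ≠ 0 := by have := hb.1; intro e; rw [e] at this; norm_num at this
      exact_mod_cast this
    have h1 : A (BB (yy b)) = yy b := by rw [← ContinuousLinearMap.mul_apply, hAB]; rfl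
    rw [BB_yy hb, map_smul] at h1
    have e : Complex.I / b * (-Complex.I * b) = 1 := by
      field_simp; ring_nf; rw [Complex.I_sq]; ring
    conv_rhs => rw [← h1]
    rw [smul_smul, e, one_smul]
  have hGy : ∀ p : ℝ × ℝ, ∀ b ∈ Set.Icc (1 / 4 : ℝ) (5 / 16), GG A BB p (yy b) =
      Complex.exp (Complex.I * ((p.1 / b - p.2 * b : ℝ) : ℂ)) • yy b := by
    intro p b hb
    unfold GG
    rw [ContinuousLinearMap.mul_apply, exp_eig (p.2 • BB) (yy b) (p.2 * (-Complex.I * b)), map_smul,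
      exp_eig (p.1 • A) (yy b) (p.1 * (Complex.I / b)), smul_smul, ← Complex.exp_add]
    · congr 2; push_cast; ring
    · rw [ContinuousLinearMap.smul_apply, hAy b hb, mul_smul]; rfl
    · rw [ContinuousLinearMap.smul_apply, BB_yy hb, mul_smul (p.2 : ℂ)]; rfl
  have hVy : ∀ b ∈ Set.Icc (1 / 4 : ℝ) (5 / 16), w b • V (yy b) = yy b := by
    intro b hb
    have h1 := congrArg (fun W : Y →L[ℂ] Y =>
      W (yy b)) hV1
    simp only [ContinuousLinearMap.mul_apply, ContinuousLinearMap.sub_apply, ContinuousLinearMap.add_apply,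
      ContinuousLinearMap.one_apply, BB_yy hb] at h1
    have e1 : yy b - (-Complex.I * b) • yy b = (1 + Complex.I * b) • yy b := by
      rw [add_smul, one_smul, neg_mul, neg_smul, sub_neg_eq_add]
    have e2 : yy b + (-Complex.I * b) • yy b = (1 - Complex.I * b) • yy b := by
      rw [sub_smul, one_smul, neg_mul, neg_smul, sub_eq_add_neg]
    rw [e1, e2, map_smul, ← atan_id, mul_comm, mul_smul] at h1
    have h2 : (1 - Complex.I * b) ≠ 0 := by
      intro e; have := congrArg Complex.re e; simp at this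
    exact smul_right_injective _ h2 h1
  have hVn : ∀ m : ℕ, ∀ b ∈ Set.Icc (1 / 4 : ℝ) (5 / 16), w b ^ m • (V ^ m) (yy b) = yy b := by
    intro m b hb
    induction m with
    | zero => simp
    | succ m ih =>
      rw [pow_succ, pow_succ, ContinuousLinearMap.mul_apply, mul_smul, ← map_smul, hVy b hb, ih]
  have hb : ∀ p, ‖GG A BB p y0‖ ≤ 1 / (32 * (C + 1)) := by
    intro p
    refine hel _ _ (by positivity) fun j => ?_
    rw [ev]
    convert hn p.1 p.2 j using 2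
    refine intervalIntegral.integral_congr fun b hb => ?_
    rw [hI] at hb
    simp only [hGy p b hb, map_smul, smul_eq_mul, yy_apply hb, w]
    rw [← mul_assoc, ← Complex.exp_nat_mul, ← Complex.exp_add]
    congr 2; push_cast; ring
  have hG0 : GG A BB 0 = 1 := by simp [GG]
  let f : EE A BB := ⟨BoundedContinuousFunction.ofNormedAddCommGroup (fun p => GG A BB p y0)
    ((GG_cont A BB).clm_apply continuous_const) _ hb, fun p => by
      show GG A BB p y0 = GG A BB p (GG A BB 0 y0)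
      rw [hG0]; rfl⟩
  have hf : ‖f‖ ≤ 1 / (32 * (C + 1)) :=
    BoundedContinuousFunction.norm_ofNormedAddCommGroup_le _ (by positivity) hb
  have hpow : ∀ (m : ℕ) (g : EE A BB), (((rho V (cV A cAB) (cV BB cB)) ^ m) g).1 0 = (V ^ m) (g.1 0) := by
    intro m
    induction m with
    | zero => intro g; rfl
    | succ m ih => intro g; rw [pow_succ, pow_succ, ContinuousLinearMap.mul_apply, ih]; rfl
  have h1 : el 0 ((((rho V (cV A cAB) (cV BB cB)) ^ n) f).1 0) = 1 / 16 := by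
    have : f.1 0 = y0 := by
      show GG A BB 0 y0 = y0
      rw [hG0]; rfl
    rw [hpow, this, ev, intervalIntegral.integral_congr (g := fun _ => (1 : ℂ))]
    · simp; norm_num
    · intro b hb
      rw [hI] at hb
      have := congrArg (el 0) (hVn n b hb)
      simpa [yy_apply hb] using this
  have h2 : ‖el 0 ((((rho V (cV A cAB) (cV BB cB)) ^ n) f).1 0)‖ ≤ C * (1 / (32 * (C + 1))) := by
    refine (hel0 _).trans
      ((BoundedContinuousFunction.norm_coe_le_norm _ _).trans ?_)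
    exact (ContinuousLinearMap.le_opNorm _ f).trans (mul_le_mul (hC n) hf (norm_nonneg _) hC0)
  rw [h1] at h2
  have h3 : ‖(1 / 16 : ℂ)‖ = 1 / 16 := by simp
  rw [h3, mul_one_div, le_div_iff₀ (by positivity)] at h2
  linarith

/-- The negation of the preceding statement: On a complex Banach space, suppose A generates a bounded C0-semigroup and its inverse A⁻¹ also generates a bounded C0-semigroup. Then the bounded operator V with V(Ax−x)=Ax+x for all x in the domain of A has uniformly bounded powers. -/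
theorem result :
    ¬ (∀ (E : Type) [NormedAddCommGroup E] [NormedSpace ℂ E] [CompleteSpace E]
      (T S : ℝ → E →L[ℂ] E),
      T 0 = 1 → S 0 = 1 →
      (∀ s t : ℝ, 0 ≤ s → 0 ≤ t → T (s + t) = T s * T t) →
      (∀ s t : ℝ, 0 ≤ s → 0 ≤ t → S (s + t) = S s * S t) →
      (∀ x : E, ContinuousOn (fun t : ℝ => T t x) (Set.Ici 0)) →
      (∀ x : E, ContinuousOn (fun t : ℝ => S t x) (Set.Ici 0)) →
      (∃ M : ℝ, ∀ t : ℝ, 0 ≤ t → ‖T t‖ ≤ M) →
      (∃ M : ℝ, ∀ t : ℝ, 0 ≤ t → ‖S t‖ ≤ M) →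
      (∀ x y : E,
        Tendsto (fun t : ℝ => t⁻¹ • (T t x - x)) (𝓝[>] 0) (𝓝 y) ↔
          Tendsto (fun t : ℝ => t⁻¹ • (S t y - y)) (𝓝[>] 0) (𝓝 x)) →
      ∀ V : E →L[ℂ] E,
        (∀ x y : E, Tendsto (fun t : ℝ => t⁻¹ • (T t x - x)) (𝓝[>] 0) (𝓝 y) →
          V (y - x) = y + x) →
        ∃ C : ℝ, ∀ n : ℕ, ‖V ^ n‖ ≤ C) := by
  obtain ⟨A, h1, h2⟩ := inv_gen ((-1 / 2 : ℂ) • LL) (lt_of_le_of_lt LL_norm (by norm_num))
  exact main_gen A BB h1 h2 BB_norm yy yy_cont BB_yy (fun j => BoundedContinuousFunction.evalCLM ℂ j)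
    (fun hb j => yy_apply hb j) (fun y C hC h => (BoundedContinuousFunction.norm_le hC).2 h)
    (fun y => y.norm_coe_le_norm 0)

end Pool.Agent.S04462
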