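import Pool.Statements.S04471
import Pool.Agent.H2.Alex4

set_option autoImplicit false
open scoped InnerProductSpace
open Pool Pool.MP_41f01b_an

namespace Pool.Agent.S04471

/-- Every continuous convex function on a real separable Hilbert space has a point x with a vector y and a continuous symmetric bilinear B such that f(x+th)-f(x)-⟨y,th⟩-t²B(h,h)=o(t²) as t→0 for every h. -/
theorem result :
    ∀ (X : Type) [NormedAddCommGroup X] [InnerProductSpace ℝ X] [CompleteSpace X]
      [TopologicalSpace.SeparableSpace X] (f : X → ℝ),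
      Continuous f → ConvexOn ℝ Set.univ f →
      ∃ (x y : X) (B : X →L[ℝ] X →L[ℝ] ℝ),
        (∀ u v : X, B u v = B v u) ∧
        ∀ h : X,
          (fun t : ℝ => f (x + t • h) - f x - ⟪y, t • h⟫_ℝ - t ^ 2 * B h h)
            =o[nhds (0 : ℝ)] (fun t : ℝ => t ^ 2) := by
  intro X _ _ _ _ f hc hf
  obtain ⟨x, p, b, hb, h⟩ := Pool.Agent.H2.Alex.main hc hf
  refine ⟨x, (InnerProductSpace.toDual ℝ X).symm p, (1 / 2 : ℝ) • b, fun u v => ?_, fun v => ?_⟩
  · simp [hb u v]
  · rw [Asymptotics.isLittleO_iff]
    intro c hc0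
    filter_upwards [h v c hc0] with t ht
    rw [InnerProductSpace.toDual_symm_apply, Real.norm_eq_abs, Real.norm_eq_abs, abs_sq]
    have : ((1 / 2 : ℝ) • b) v v = b v v / 2 := by
      simp only [ContinuousLinearMap.smul_apply, smul_eq_mul]; ring
    rw [this]
    exact ht

end Pool.Agent.S04471
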