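import Pool.Statements.S04474
import Pool.Agent.H8.OddGabor2

set_option autoImplicit false
open MeasureTheory
open Pool Pool.MP_41f43f_an

namespace Pool.Agent.S04474


/-- The negation of the preceding statement: For n ≥ 1, every odd window g in the Feichtinger algebra and every relatively separated set Γ in the plane with lower Beurling density (n+1)/n, the Gabor system of g over Γ is not a frame for L²(ℝ). -/
theorem result :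
    ¬ (∀ n : ℕ, 1 ≤ n →
  ∀ g : ℝ → ℂ, MemLp g 2 volume →
    Integrable g volume →
    Integrable (fun p : ℝ × ℝ => ∫ t : ℝ, g t
        * Complex.exp (-(Real.pi : ℂ) * (((t - p.1) ^ 2 : ℝ) : ℂ))
        * Complex.exp (-2 * (Real.pi : ℂ) * Complex.I * (p.2 : ℂ) * (t : ℂ)))
      (volume : Measure (ℝ × ℝ)) →
    (∀ t : ℝ, g (-t) = -g t) →
  ∀ Γ : Set (ℝ × ℝ),
    (∃ C : ℕ, ∀ z : ℝ × ℝ,
      (Γ ∩ (Set.Ico z.1 (z.1 + 1) ×ˢ Set.Ico z.2 (z.2 + 1))).Finite ∧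
      (Γ ∩ (Set.Ico z.1 (z.1 + 1) ×ˢ Set.Ico z.2 (z.2 + 1))).ncard ≤ C) →
    Filter.liminf (fun R : ℝ => ⨅ z : ℝ × ℝ,
        ((Γ ∩ (Set.Ico z.1 (z.1 + R) ×ˢ Set.Ico z.2 (z.2 + R))).ncard : ℝ) / R ^ 2)
      Filter.atTop = ((n : ℝ) + 1) / (n : ℝ) →
    ¬ ∃ A B : ℝ, 0 < A ∧ 0 < B ∧ ∀ f : ℝ → ℂ, MemLp f 2 volume →
      Summable (fun γ : Γ => ‖∫ t : ℝ, f t * (starRingEnd ℂ)
          (Complex.exp (2 * (Real.pi : ℂ) * Complex.I * (((γ : ℝ × ℝ).2 : ℝ) : ℂ) * (t : ℂ))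
            * g (t - (γ : ℝ × ℝ).1))‖ ^ 2) ∧
      A * (∫ t : ℝ, ‖f t‖ ^ 2) ≤ (∑' γ : Γ, ‖∫ t : ℝ, f t * (starRingEnd ℂ)
          (Complex.exp (2 * (Real.pi : ℂ) * Complex.I * (((γ : ℝ × ℝ).2 : ℝ) : ℂ) * (t : ℂ))
            * g (t - (γ : ℝ × ℝ).1))‖ ^ 2) ∧
      (∑' γ : Γ, ‖∫ t : ℝ, f t * (starRingEnd ℂ)
          (Complex.exp (2 * (Real.pi : ℂ) * Complex.I * (((γ : ℝ × ℝ).2 : ℝ) : ℂ) * (t : ℂ))
            * g (t - (γ : ℝ × ℝ).1))‖ ^ 2) ≤ B * (∫ t : ℝ, ‖f t‖ ^ 2)) := by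
  intro h
  refine h 1 le_rfl Pool.Agent.H8.OddGabor.g (Pool.Agent.H8.OddGabor.g_memLp 2)
    (memLp_one_iff_integrable.1 (Pool.Agent.H8.OddGabor.g_memLp 1))
    Pool.Agent.H8.OddGabor.stft_int Pool.Agent.H8.OddGabor.g_odd Pool.Agent.H8.OddGabor.Γ
    ⟨8, fun z => ⟨(Pool.Agent.H8.OddGabor.cntΓ z 1 le_rfl).1, ?_⟩⟩ ?_
    ⟨1 / 4, 2, by norm_num, by norm_num, fun f hf => Pool.Agent.H8.OddGabor.frame f hf⟩
  · have := (Pool.Agent.H8.OddGabor.cntΓ z 1 le_rfl).2.2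
    norm_num at this
    exact_mod_cast this
  · rw [Pool.Agent.H8.OddGabor.dens]; norm_num

end Pool.Agent.S04474
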