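import Pool.Statements.S04486


set_option autoImplicit false
open MeasureTheory ProbabilityTheory
open Pool Pool.MP_42c79c_an

namespace Pool.Agent.S04486
open Set Filter
section
open Real

noncomputable def W {n : ℕ} (i j : Fin n) : ℝ := if i = j then 1 else if j < i then -1 / 2 else 0

lemma lu (n : ℕ) : ∀ (η a : ℝ) (M : Fin (n + 1) → Fin (n + 1) → ℝ), 0 ≤ a → 2 ^ n * η ≤ 1 / 10 →
    (∀ i j, j ≠ Fin.last n → |M i j - W i j| ≤ η) → (∀ i, a ≤ M i (Fin.last n)) →
    ∃ L U : Matrix (Fin (n + 1)) (Fin (n + 1)) ℝ, (∀ i j, i < j → L i j = 0) ∧ (∀ i, L i i = 1) ∧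
      (∀ i j, |L i j| ≤ 1) ∧ (∀ i j, j < i → U i j = 0) ∧ Matrix.of M = L * U ∧
      (4 / 3) ^ n * a ≤ U (Fin.last n) (Fin.last n) := by
  induction n with
  | zero =>
    exact fun η a M _ _ _ h => ⟨1, .of M, by simp, by simp, by simp [Fin.forall_fin_one], by simp,
      by simp, by simpa using h 0⟩
  | succ n ih =>
    intro η a M ha h1 h2 h3
    have h0 : (0 : Fin (n + 2)) ≠ Fin.last _ := (Fin.last_pos).ne
    have h4 := abs_le.1 (h2 0 0 h0)
    have hη : 0 ≤ η := (abs_nonneg _).trans (h2 0 0 h0)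
    have h5 : η ≤ 1 / 10 := le_trans (le_mul_of_one_le_left hη (one_le_pow₀ one_le_two)) h1
    simp only [W, if_true] at h4
    have h6 : 0 < M 0 0 := by linarith
    have h7 (i : Fin (n + 1)) : -1 ≤ M i.succ 0 / M 0 0 ∧ M i.succ 0 / M 0 0 ≤ -1 / 3 := by
      have := abs_le.1 (h2 i.succ 0 h0)
      simp only [W, i.succ_ne_zero, Fin.succ_pos, if_true, if_false] at this
      rw [le_div_iff₀ h6, div_le_iff₀ h6]; constructor <;> linarith
    have h8 (i : Fin (n + 1)) : |M i.succ 0 / M 0 0| ≤ 1 := abs_le.2 ⟨(h7 i).1, by linarith [h7 i]⟩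
    obtain ⟨L, U, a1, a2, a3, a4, a5, a6⟩ := ih (2 * η) (4 / 3 * a)
      (fun i j => M i.succ j.succ - M i.succ 0 / M 0 0 * M 0 j.succ) (by positivity)
      (by rw [pow_succ] at h1; linarith) (fun i j hj => by
        have b1 := h2 i.succ j.succ (by simpa using hj)
        have b2 := h2 0 j.succ (by simpa using hj)
        simp only [W, Fin.succ_inj, Fin.succ_lt_succ_iff, (Fin.succ_ne_zero j).symm, if_false,
          Fin.not_lt_zero, sub_zero] at b1 b2
        rw [sub_right_comm]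
        refine (abs_sub _ _).trans ?_
        rw [abs_mul]
        nlinarith [mul_le_mul (h8 i) b2 (abs_nonneg _) zero_le_one, show |_ - W i j| ≤ η from b1])
      fun i => by
        have := h3 i.succ
        have := h3 0
        rw [Fin.succ_last]
        nlinarith [h7 i]
    refine ⟨.of (Fin.cons (Fin.cons 1 0) fun i => Fin.cons (M i.succ 0 / M 0 0) (L i)),
      .of (Fin.cons (M 0) fun i => Fin.cons 0 (U i)), ?_, ?_, ?_, ?_, ?_, ?_⟩
    · simpa [Fin.forall_fin_succ] using a1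
    · simpa [Fin.forall_fin_succ] using a2
    · refine Fin.forall_fin_succ.2 ⟨Fin.forall_fin_succ.2 (by simp), fun i =>
        Fin.forall_fin_succ.2 ⟨h8 i, a3 i⟩⟩
    · refine Fin.forall_fin_succ.2 ⟨by simp, fun i =>
        Fin.forall_fin_succ.2 ⟨fun _ => rfl, fun j h => a4 i j (Fin.succ_lt_succ_iff.1 h)⟩⟩
    · ext i j
      refine i.cases ?_ fun i => j.cases ?_ fun j => ?_
      · simp [Matrix.mul_apply, Fin.sum_univ_succ]
      · simp [Matrix.mul_apply, Fin.sum_univ_succ, h6.ne']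
      · have := congrFun (congrFun a5 i) j
        rw [Matrix.mul_apply, Fin.sum_univ_succ]
        simp only [Matrix.mul_apply, Matrix.of_apply, Fin.cons_succ, Fin.cons_zero] at this ⊢
        linarith
    · rw [← Fin.succ_last, pow_succ, mul_assoc]
      simpa using a6

lemma box {s η : ℝ} (h0 : -2 ≤ s) (h1 : s + η ≤ 2) :
    ENNReal.ofReal (η / 27) ≤ gaussianReal 0 1 (Icc s (s + η)) := by
  rw [gaussianReal_apply _ one_ne_zero]
  refine le_trans (le_of_eq ?_) (setLIntegral_mono' (f := fun _ => .ofReal (1 / 27))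
    measurableSet_Icc fun t ht => ENNReal.ofReal_le_ofReal ?_)
  · rw [setLIntegral_const, volume_Icc, ← ENNReal.ofReal_mul (by positivity)]; congr 1; ring
  · have h2 : √(2 * π) ≤ 3 := sqrt_le_iff.2 ⟨by norm_num, by linarith [pi_lt_four]⟩
    have h3 : exp (t ^ 2 / 2) ≤ exp 1 ^ 2 := by
      rw [← exp_nat_mul, exp_le_exp]; push_cast; nlinarith [ht.1, ht.2]
    simp only [gaussianPDFReal, NNReal.coe_one, mul_one, sub_zero, neg_div, exp_neg, ← mul_inv,
      one_div]
    refine inv_anti₀ (by positivity) ?_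
    nlinarith [exp_one_lt_three, exp_pos 1, exp_pos (t ^ 2 / 2), mul_le_mul h2 h3 (exp_pos _).le
      (by norm_num)]

end


/-- The negation of the preceding statement: There are constants c₁ and c₂>0 such that for every n, every σ in (0,1], every real n×n Ā with spectral norm ≤ 1, and every x ≥ 1, the partial-pivoting growth factor of Ā+σG (G i.i.d. standard Gaussian) exceeds x(n/σ)^c₁ with probability ≤ 2^(−c₂x). -/
theorem result :
    ¬ (∃ c₁ c₂ : ℝ, 0 < c₂ ∧ ∀ n : ℕ, ∀ σ : ℝ, 0 < σ → σ ≤ 1 →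
    ∀ Abar : Matrix (Fin n) (Fin n) ℝ,
    (∀ v : Fin n → ℝ, ∑ i, (Abar.mulVec v i) ^ 2 ≤ ∑ i, v i ^ 2) →
    ∀ x : ℝ, 1 ≤ x →
    (Measure.pi fun _ : Fin n => Measure.pi fun _ : Fin n => gaussianReal 0 1)
      {G : Fin n → Fin n → ℝ | ∃ π : Equiv.Perm (Fin n), ∃ L U : Matrix (Fin n) (Fin n) ℝ,
        (∀ i j, i < j → L i j = 0) ∧ (∀ i, L i i = 1) ∧ (∀ i j, |L i j| ≤ 1) ∧
        (∀ i j, j < i → U i j = 0) ∧
        (Matrix.of fun i j => Abar (π i) j + σ * G (π i) j) = L * U ∧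
        x * ((n : ℝ) / σ) ^ c₁ * (⨆ i, ⨆ j, |Abar i j + σ * G i j|) < ⨆ i, ⨆ j, |U i j|}
      ≤ ENNReal.ofReal ((2 : ℝ) ^ (-(c₂ * x)))) := by
  rintro ⟨c₁, c₂, hc, h⟩
  obtain ⟨_ | n, hn⟩ := (((tendsto_pow_const_div_const_pow_of_one_lt (⌈c₁⌉₊ + 3)
    (show (1 : ℝ) < 4 / 3 by norm_num)).eventually_lt_const
      (show 0 < 1 / (4 * (10 / c₂ + 1)) by positivity)).and (eventually_gt_atTop 0)).exists
  · simp at hn
  replace hn := hn.1
  set N : ℝ := ((n + 1 : ℕ) : ℝ) with hN
  have h0 : 1 ≤ N := by simp [hN]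
  have h1 : 1 ≤ N ^ 3 := one_le_pow₀ h0
  have h2 : 0 < 10 / c₂ := by positivity
  let η : ℝ := 1 / 10 / 2 ^ n
  have h3 : η ≤ 1 / 10 := div_le_self (by norm_num) (one_le_pow₀ one_le_two)
  let s (i j : Fin (n + 1)) : ℝ := if j = Fin.last n then 1 else W i j
  have h4 (i j) : -1 ≤ s i j ∧ s i j ≤ 1 := by simp only [s, W]; split_ifs <;> norm_num
  refine (h (n + 1) 1 one_pos le_rfl 0 (fun v => by simp; positivity) ((10 / c₂ + 1) * N ^ 3)
    (by nlinarith)).not_gt (lt_of_lt_of_le ?_ (measure_mono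
      (s := univ.pi fun i => univ.pi fun j => Icc (s i j) (s i j + η)) fun G hG => ?_))
  · simp only [Measure.pi_pi]
    refine lt_of_lt_of_le ?_ (Finset.prod_le_prod' fun i _ => Finset.prod_le_prod' fun j _ =>
      box (by linarith [h4 i j]) (by linarith [h4 i j]))
    simp only [Finset.prod_const, Finset.card_univ, Fintype.card_fin, ← pow_mul]
    rw [← ENNReal.ofReal_pow (by positivity), ENNReal.ofReal_lt_ofReal_iff (by positivity)]
    calc _ < (2 : ℝ) ^ (-((10 * (n + 1) * ((n + 1) * (n + 1)) : ℕ) : ℝ)) := by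
          refine Real.rpow_lt_rpow_of_exponent_lt one_lt_two (neg_lt_neg ?_)
          have : c₂ * ((10 / c₂ + 1) * N ^ 3) = 10 * N ^ 3 + c₂ * N ^ 3 := by field_simp
          rw [this, hN]; push_cast
          have : 0 < c₂ * ((n : ℝ) + 1) ^ 3 := by positivity
          linarith
      _ ≤ _ := by
          rw [Real.rpow_neg zero_le_two, Real.rpow_natCast, pow_mul, ← inv_pow]
          gcongr
          rw [div_div, div_div, one_div]
          refine inv_anti₀ (by positivity) ?_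
          calc (10 : ℝ) * (2 ^ n * 27) ≤ 2 ^ n * 2 ^ 10 := by
                have : (0 : ℝ) < 2 ^ n := by positivity
                linarith
            _ ≤ _ := by rw [← pow_add]; exact pow_le_pow_right₀ one_le_two (by omega)
  · simp only [mem_univ_pi] at hG
    obtain ⟨L, U, a1, a2, a3, a4, a5, a6⟩ := lu n η 1 G zero_le_one (by simp [η]; field_simp; rfl)
      (fun i j hj => by
        have := hG i j
        simp only [s, hj, if_false] at this
        exact abs_le.2 ⟨by linarith [this.1, this.2], by linarith [this.2]⟩)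
      fun i => by simpa [s] using (hG i (Fin.last n)).1
    refine ⟨1, L, U, a1, a2, a3, a4, by simpa using a5, lt_of_lt_of_le ?_
      (le_ciSup_of_le (Finite.bddAbove_range _) (Fin.last n)
        (le_ciSup_of_le (Finite.bddAbove_range _) (Fin.last n) (a6.trans (le_abs_self _))))⟩
    have h5 : (⨆ i, ⨆ j, |(0 : Matrix _ _ ℝ) i j + 1 * G i j|) ≤ 2 := ciSup_le fun i => ciSup_le fun j =>
      by simpa using abs_le.2 ⟨by linarith [h4 i j, (hG i j).1], by linarith [h4 i j, (hG i j).2]⟩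
    have h6 : (N / 1) ^ c₁ ≤ N ^ ⌈c₁⌉₊ := by
      rw [div_one, ← Real.rpow_natCast]; exact Real.rpow_le_rpow_of_exponent_le h0 (Nat.le_ceil _)
    rw [div_lt_div_iff₀ (by positivity) (by positivity), pow_succ (4 / 3 : ℝ), pow_add] at hn
    calc _ ≤ (10 / c₂ + 1) * N ^ 3 * N ^ ⌈c₁⌉₊ * 2 := by
          refine le_trans (mul_le_mul_of_nonneg_left h5 (by positivity)) ?_
          gcongr
      _ < _ := by
          have : (0 : ℝ) < (4 / 3) ^ n := by positivity
          linarith

end Pool.Agent.S04486
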