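import Pool.Statements.S04492
import Pool.Agent.H31.Mono

set_option autoImplicit false
open scoped Classical
open Pool Pool.MP_42dd51_an
open Pool.Agent.H31

namespace Pool.Agent.S04492

lemma restrict {X Y : Type} (SX : Set (Schur.H X →L[ℂ] Schur.H X))
    (SY : Set (Schur.H Y →L[ℂ] Schur.H Y))
    (Φ : (Schur.H X →L[ℂ] Schur.H X) →⋆ₙₐ[ℂ] (Schur.H Y →L[ℂ] Schur.H Y))
    (h1 : Function.Injective Φ) (h2 : Continuous Φ) (h0 : 1 ∈ SX)
    (h4 : ∀ a ∈ SX, Φ a ∈ closure SY) :
    ∃ φ : (StarAlgebra.adjoin ℂ SX).topologicalClosure →⋆ₙₐ[ℂ]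
      (StarAlgebra.adjoin ℂ SY).topologicalClosure, Function.Injective φ := by
  have h5 : ∀ a ∈ SX, Φ a ∈ (StarAlgebra.adjoin ℂ SY).topologicalClosure := fun a ha =>
    closure_mono (StarAlgebra.subset_adjoin ℂ SY) (h4 a ha)
  let S : StarSubalgebra ℂ (Schur.H X →L[ℂ] Schur.H X) :=
    { carrier := Φ ⁻¹' (StarAlgebra.adjoin ℂ SY).topologicalClosure
      mul_mem' := fun {a b} ha hb => by
        rw [Set.mem_preimage, map_mul]; exact mul_mem ha hb
      add_mem' := fun {a b} ha hb => by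
        rw [Set.mem_preimage, map_add]; exact add_mem ha hb
      algebraMap_mem' := fun c => by
        rw [Set.mem_preimage, Algebra.algebraMap_eq_smul_one, map_smul]
        exact SMulMemClass.smul_mem c (h5 1 h0)
      star_mem' := fun {a} ha => by
        rw [Set.mem_preimage, map_star]; exact star_mem ha }
  have h6 : (StarAlgebra.adjoin ℂ SX).topologicalClosure ≤ S :=
    StarSubalgebra.topologicalClosure_minimal (StarAlgebra.adjoin_le h5)
      ((StarSubalgebra.isClosed_topologicalClosure _).preimage h2)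
  refine ⟨{ toFun := fun a => ⟨Φ a, h6 a.2⟩
            map_smul' := fun c a => Subtype.ext (map_smul Φ c a.1)
            map_zero' := Subtype.ext (map_zero Φ)
            map_add' := fun a b => Subtype.ext (map_add Φ a.1 b.1)
            map_mul' := fun a b => Subtype.ext (map_mul Φ a.1 b.1)
            map_star' := fun a => Subtype.ext (map_star Φ a.1) }, fun a b h => ?_⟩
  exact Subtype.ext (h1 (congrArg Subtype.val h))

/-- The negation of the preceding statement: For all uniformly locally finite metric spaces X, Y, if the uniform Roe algebra of X embeds into that of Y via an injective (not necessarily unital) *-homomorphism, then there is a coarse map X → Y whose fibers have uniformly bounded size. -/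
theorem result :
    ¬ (∀ (X Y : Type) [MetricSpace X] [MetricSpace Y],
      (∀ r : ℝ, 0 < r → ∃ N : ℕ, ∀ x : X, (Metric.closedBall x r).encard ≤ (N : ℕ∞)) →
      (∀ r : ℝ, 0 < r → ∃ N : ℕ, ∀ y : Y, (Metric.closedBall y r).encard ≤ (N : ℕ∞)) →
      (∃ φ : ↥((StarAlgebra.adjoin ℂ
                {a : lp (fun _ : X => ℂ) 2 →L[ℂ] lp (fun _ : X => ℂ) 2 |
                  ∃ r : ℝ, ∀ x x' : X, r < dist x x' →
                    inner ℂ (lp.single 2 x (1 : ℂ) : lp (fun _ : X => ℂ) 2)
                      (a (lp.single 2 x' (1 : ℂ) : lp (fun _ : X => ℂ) 2)) = 0}).topologicalClosure)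
            →⋆ₙₐ[ℂ]
            ↥((StarAlgebra.adjoin ℂ
                {b : lp (fun _ : Y => ℂ) 2 →L[ℂ] lp (fun _ : Y => ℂ) 2 |
                  ∃ r : ℝ, ∀ y y' : Y, r < dist y y' →
                    inner ℂ (lp.single 2 y (1 : ℂ) : lp (fun _ : Y => ℂ) 2)
                      (b (lp.single 2 y' (1 : ℂ) : lp (fun _ : Y => ℂ) 2)) = 0}).topologicalClosure),
          Function.Injective φ) →
      ∃ f : X → Y,
        (∀ r : ℝ, 0 < r → ∃ s : ℝ, 0 < s ∧
            ∀ x x' : X, dist x x' ≤ r → dist (f x) (f x') ≤ s) ∧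
        ∃ N : ℕ, ∀ y : Y, (f ⁻¹' {y}).encard ≤ (N : ℕ∞)) := by
  intro H
  obtain ⟨Φ, h1, h2, -, h4⟩ := Schur.exists_phi Mono.dX Mono.dY Mono.θ Mono.θ_norm Mono.θ_f
    Mono.dX_comm Mono.ulfP Mono.slow
  obtain ⟨f, hf, N, hN⟩ := @H Mono.XX (Mono.XX × Bool) Mono.mX Mono.mY (fun r _ => Mono.ulfX r)
    (fun r _ => Mono.ulfY r) (restrict _ _ Φ h1 h2
      ⟨0, fun x x' h => (Schur.inner_δ x (Schur.δ x')).trans (Schur.δ_ne (by
        rintro rfl
        exact absurd (@dist_self _ Mono.mX.toPseudoMetricSpace x) h.ne'))⟩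
      (by
        rintro a ⟨r, hr⟩
        refine closure_mono ?_ (h4 a ⟨r, fun x x' h => (Schur.inner_δ x' _).symm.trans
          (hr x' x (h.trans_eq (Mono.dX_comm x x')))⟩)
        rintro b ⟨r, hr⟩
        exact ⟨r, fun y y' h => (Schur.inner_δ y _).trans
          (hr y' y (h.trans_eq (Mono.dY_comm y y')))⟩))
  obtain ⟨s, -, hs⟩ := hf 1 one_pos
  obtain ⟨k, hk⟩ := exists_nat_ge s
  exact Mono.noreg f k (fun x x' h => (hs x x' h).trans hk) N hN

end Pool.Agent.S04492
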