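import Pool.Statements.S04505
import Pool.Agent.H9.BR6

set_option autoImplicit false
open Filter Topology
open Pool Pool.MP_438bde_an

namespace Pool.Agent.S04505

/-- On a reflexive real Banach space, if T is maximal monotone and T0 is bounded, finitely continuous and T-pseudomonotone, and T+T0 is coercive, then every functional equals y+T0(x) for some x and some y in T(x). -/
theorem result :
  ∀ (X : Type) [NormedAddCommGroup X] [NormedSpace ℝ X] [CompleteSpace X],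
    (∀ φ : (X →L[ℝ] ℝ) →L[ℝ] ℝ, ∃ x : X, ∀ f : X →L[ℝ] ℝ, φ f = f x) →
    ∀ (T : X → Set (X →L[ℝ] ℝ)) (T0 : X → (X →L[ℝ] ℝ)),
      (∀ x y : X, ∀ f ∈ T x, ∀ g ∈ T y, 0 ≤ (f - g) (x - y)) →
      (∀ (x : X) (f : X →L[ℝ] ℝ),
          (∀ y : X, ∀ g ∈ T y, 0 ≤ (f - g) (x - y)) → f ∈ T x) →
      (∀ R : ℝ, ∃ M : ℝ, ∀ x : X, ‖x‖ ≤ R → ‖T0 x‖ ≤ M) →
      (∀ F : Submodule ℝ X, FiniteDimensional ℝ F →
          ∀ φ : (X →L[ℝ] ℝ) →L[ℝ] ℝ, Continuous (fun x : F => φ (T0 (x : X)))) →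
      (∀ (u : ℕ → X) (v : X) (y : ℕ → (X →L[ℝ] ℝ)),
          (∀ f : X →L[ℝ] ℝ, Tendsto (fun j => f (u j)) atTop (𝓝 (f v))) →
          (∀ j, y j ∈ T (u j)) →
          (∃ C : ℝ, ∀ j, ‖y j‖ ≤ C) →
          (∀ ε : ℝ, 0 < ε → ∀ᶠ j in atTop, (T0 (u j)) (u j - v) ≤ ε) →
          ((∀ φ : (X →L[ℝ] ℝ) →L[ℝ] ℝ,
              Tendsto (fun j => φ (T0 (u j))) atTop (𝓝 (φ (T0 v)))) ∧
            Tendsto (fun j => (T0 (u j)) (u j - v)) atTop (𝓝 0))) →
      (∀ M : ℝ, ∃ R : ℝ, ∀ x : X, ∀ y ∈ T x, R ≤ ‖x‖ → M * ‖x‖ ≤ (y + T0 x) x) →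
      ∀ f : X →L[ℝ] ℝ, ∃ x : X, ∃ y ∈ T x, y + T0 x = f := by
  intro X _ _ _ hX T T0 h1 h2 h3 _ h5 h6 f
  obtain ⟨R, hR⟩ := h6 (1 + ‖f‖)
  obtain ⟨x, y, a, b⟩ := H9.BR.zero hX (Γ := fun x y => y ∈ T x) (S := fun x => T0 x - f)
    (fun x g => ⟨fun e a b c => h1 x a g e b c, h2 x g⟩) (fun u v y a b c d => by
      have e : Tendsto (fun j => f (u j - v)) atTop (𝓝 0) := by simpa using (a f).sub_const (f v)
      obtain ⟨p, q⟩ := h5 u v y a b c fun δ r =>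
        ((d _ (half_pos r)).and (e.eventually (gt_mem_nhds (half_pos r)))).mono fun j s => by
          have := s.1
          rw [sub_apply] at this
          linarith [s.2]
      exact ⟨fun s => (p (ContinuousLinearMap.apply ℝ ℝ s)).sub_const (f s),
        (sub_zero (0 : ℝ) ▸ q.sub e :)⟩)
    (fun r => (h3 r).imp' (fun M => M + ‖f‖) fun M e x g => norm_sub_le_of_le (e x g) le_rfl)
    (R0 := R) fun x y a b => by
      have := hR x y a b
      simp only [add_apply, sub_apply] at *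
      linarith [(le_abs_self _).trans (f.le_opNorm x)]
  exact ⟨x, y, a, by rwa [← add_sub_assoc, sub_eq_zero] at b⟩

end Pool.Agent.S04505
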