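import Pool.Statements.S04536
-- import your own Pool.Agent.* helpers here

set_option autoImplicit false
open Pool Pool.MP_45d43b_an

namespace Pool.Agent.S04536

open Filter Topology

abbrev E : Type := ZeroAtInftyContinuousMap ℕ ℝ

def mk (f : ℕ → ℝ) (h : Tendsto f atTop (𝓝 0)) : E :=
  ⟨⟨f, continuous_of_discreteTopology⟩, by rw [cocompact_eq_cofinite, Nat.cofinite_eq_atTop]; exact h⟩

@[simp] lemma mk_apply (f : ℕ → ℝ) (h : Tendsto f atTop (𝓝 0)) (n : ℕ) : mk f h n = f n := rfl

lemma tend (x : E) : Tendsto x atTop (𝓝 0) := by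
  have := x.zero_at_infty'
  rwa [cocompact_eq_cofinite, Nat.cofinite_eq_atTop] at this

lemma apply_le (x : E) (n : ℕ) : |x n| ≤ ‖x‖ := by
  rw [← ZeroAtInftyContinuousMap.norm_toBCF_eq_norm]
  exact x.toBCF.norm_coe_le_norm n

lemma norm_le (x : E) (r : ℝ) (hr : 0 ≤ r) (h : ∀ n, |x n| ≤ r) : ‖x‖ ≤ r := by
  rw [← ZeroAtInftyContinuousMap.norm_toBCF_eq_norm]
  exact (BoundedContinuousFunction.norm_le hr).2 h

noncomputable def T (x : E) : E :=
  mk (fun n => Nat.casesOn n (1 - ‖x‖) (fun m => x m))
    ((tendsto_add_atTop_iff_nat 1).1 (tend x))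

lemma T_zero (x : E) : T x 0 = 1 - ‖x‖ := rfl
lemma T_succ (x : E) (n : ℕ) : T x (n + 1) = x n := rfl

lemma T_lip : LipschitzWith 1 T := by
  refine LipschitzWith.of_dist_le_mul fun x y => ?_
  rw [NNReal.coe_one, one_mul, dist_eq_norm, dist_eq_norm]
  refine norm_le _ _ (norm_nonneg _) fun n => ?_
  cases n with
  | zero =>
    rw [ZeroAtInftyContinuousMap.sub_apply, T_zero, T_zero]
    have := abs_norm_sub_norm_le y x
    rw [norm_sub_rev] at this
    convert this using 2; ring
  | succ n =>
    rw [ZeroAtInftyContinuousMap.sub_apply, T_succ, T_succ]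
    exact apply_le (x - y) n

noncomputable def e (k : ℕ) : E :=
  mk (fun n => if n = k then 1 else 0) (tendsto_const_nhds.congr' (by
    filter_upwards [eventually_gt_atTop k] with n hn
    simp [hn.ne']))

lemma e_apply (k n : ℕ) : e k n = if n = k then 1 else 0 := rfl

lemma norm_e (k : ℕ) : ‖e k‖ = 1 := by
  apply le_antisymm
  · refine norm_le _ _ zero_le_one fun n => ?_
    rw [e_apply]; split_ifs <;> simp
  · simpa [e_apply] using apply_le (e k) k

lemma T_e (k : ℕ) : T (e k) = e (k + 1) := by
  ext n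
  cases n with
  | zero => rw [T_zero, norm_e, e_apply]; simp
  | succ n => rw [T_succ, e_apply, e_apply]; simp

lemma iter_e (k : ℕ) : T^[k] (e 0) = e k := by
  induction k with
  | zero => rfl
  | succ k ih => rw [Function.iterate_succ_apply', ih, T_e]

lemma sum_apply' (F : Finset ℕ) (g : ℕ → E) (n : ℕ) : (∑ k ∈ F, g k) n = ∑ k ∈ F, g k n := by
  classical
  induction F using Finset.induction_on with
  | empty => simp
  | insert a s ha ih => rw [Finset.sum_insert ha, Finset.sum_insert ha, ZeroAtInftyContinuousMap.add_apply, ih]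

lemma weak_null (φ : E →L[ℝ] ℝ) : Tendsto (fun k => φ (e k)) atTop (𝓝 0) := by
  have hs : Summable fun k => |φ (e k)| := by
    refine summable_of_sum_le (c := ‖φ‖) (fun _ => abs_nonneg _) fun F => ?_
    have h1 : ∑ k ∈ F, |φ (e k)| = φ (∑ k ∈ F, (SignType.sign (φ (e k)) : ℝ) • e k) := by
      rw [map_sum]
      refine Finset.sum_congr rfl fun k _ => ?_
      rw [map_smul, smul_eq_mul, sign_mul_self]
    have h2 : ‖∑ k ∈ F, (SignType.sign (φ (e k)) : ℝ) • e k‖ ≤ 1 := by
      refine norm_le _ _ zero_le_one fun n => ?_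
      rw [sum_apply']
      simp only [ZeroAtInftyContinuousMap.smul_apply, e_apply, smul_eq_mul, mul_ite, mul_one,
        mul_zero, Finset.sum_ite_eq]
      split_ifs
      · rcases SignType.trichotomy (SignType.sign (φ (e n))) with h | h | h <;> simp [h]
      · simp
    rw [h1]
    refine (le_abs_self _).trans ((φ.le_opNorm _).trans ?_)
    nlinarith [norm_nonneg φ]
  exact hs.of_abs.tendsto_atTop_zero

/-- The negation of the preceding statement: In real c_0, if a commutative semigroup acts on a nonempty closed convex set C by nonexpansive maps and some orbit is relatively weakly compact, then some point of C is fixed by every map. -/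
theorem result :
    ¬ (∀ (S : Type) [CommSemigroup S] (C : Set (ZeroAtInftyContinuousMap ℕ ℝ))
      (T : S → ZeroAtInftyContinuousMap ℕ ℝ → ZeroAtInftyContinuousMap ℕ ℝ),
      C.Nonempty → IsClosed C → Convex ℝ C →
      (∀ s, Set.MapsTo (T s) C C) →
      (∀ s, LipschitzOnWith 1 (T s) C) →
      (∀ s t, ∀ x ∈ C, T (s * t) x = T s (T t x)) →
      (∃ c ∈ C, IsCompact (closure
        (toWeakSpace ℝ (ZeroAtInftyContinuousMap ℕ ℝ) '' Set.range (fun s => T s c)))) →
      ∃ x ∈ C, ∀ s, T s x = x) := by
  intro h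
  obtain ⟨x, -, hx⟩ := h (Multiplicative ℕ) Set.univ (fun s => T^[s.toAdd]) Set.univ_nonempty
    isClosed_univ convex_univ (fun _ => Set.mapsTo_univ _ _)
    (fun s => by simpa using (T_lip.iterate s.toAdd))
    (fun s t x _ => by simp [Function.iterate_add_apply]) (by
      refine ⟨e 0, trivial, ?_⟩
      have ht : Tendsto (fun k => toWeakSpace ℝ E (e k)) atTop (𝓝 (toWeakSpace ℝ E 0)) := by
        refine (WeakBilin.tendsto_iff_forall_eval_tendsto _ ?_).2 fun φ => ?_
        · intro a b hab
          refine (SeparatingDual.eq_iff_forall_dual_eq (R := ℝ)).2 fun g => ?_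
          exact LinearMap.congr_fun hab g
        · have := weak_null φ
          rw [← map_zero φ] at this
          exact this
      have hc := ht.isCompact_insert_range
      refine hc.of_isClosed_subset isClosed_closure (closure_minimal ?_ hc.isClosed)
      rintro _ ⟨_, ⟨s, rfl⟩, rfl⟩
      exact Or.inr ⟨s.toAdd, by simp [iter_e]⟩)
  have h1 : T x = x := hx (Multiplicative.ofAdd 1)
  have h2 : ∀ n, x n = x 0 := by
    intro n
    induction n with
    | zero => rfl
    | succ n ih => rw [← h1, T_succ, h1, ih]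
  have h3 : x 0 = 0 := by
    have := tend x
    rw [show (x : ℕ → ℝ) = fun _ => x 0 from funext h2] at this
    exact tendsto_const_nhds_iff.1 this
  have h4 : x = 0 := by ext n; rw [h2, h3]; rfl
  have h5 := T_zero x
  rw [h1, h3, h4] at h5
  simp at h5

end Pool.Agent.S04536
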