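import Pool.Statements.S04554
import Pool.Agent.H29.IET

set_option autoImplicit false
open Pool Pool.MP_483d01_an

namespace Pool.Agent.S04554

open Pool.Agent.H29.IET in
theorem result :
    ¬ (∀ (d : ℕ) (π : Equiv.Perm (Fin d)) (UE : (Fin d → ℝ) → Prop),
    (∀ v : Fin d → ℝ, UE v ↔ ∃! μ : MeasureTheory.Measure ℝ,
        MeasureTheory.IsProbabilityMeasure μ ∧
        μ ((Set.Ico (0 : ℝ) (∑ i : Fin d, v i))ᶜ) = 0 ∧
        MeasureTheory.Measure.map (fun x : ℝ => x + ∑ j : Fin d,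
          (Set.Ico (∑ i ∈ (Finset.univ : Finset (Fin d)).filter (fun i : Fin d => i < j), v i)
             ((∑ i ∈ (Finset.univ : Finset (Fin d)).filter (fun i : Fin d => i < j), v i) + v j)).indicator
            (fun _ : ℝ => (∑ i ∈ (Finset.univ : Finset (Fin d)).filter (fun i : Fin d => π i < π j), v i) -
                      ∑ i ∈ (Finset.univ : Finset (Fin d)).filter (fun i : Fin d => i < j), v i) x) μ = μ) →
    ∀ a b : Fin d → ℝ, (∀ i, 0 < a i) → UE a →
      ∃ ε : ℝ, 0 < ε ∧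
        ∀ᵐ t : ℝ ∂(MeasureTheory.volume.restrict (Set.Ioo (-ε) ε)), UE (a + t • b)) := by
  intro H
  have h0 : (0:ℝ) < √2 - 1 := by
    have : (1:ℝ) < √2 := Real.lt_sqrt_of_sq_lt (by norm_num)
    linarith
  have h1 : √2 - 1 < (1:ℝ) := by
    have : √2 < (2:ℝ) := (Real.sqrt_lt' (by norm_num)).2 (by norm_num)
    linarith
  have hirr : Irrational (√2 - 1) := by
    simpa using irrational_sqrt_two.sub_intCast 1
  generalize √2 - 1 = α at h0 h1 hirr
  obtain ⟨ε, hε, h⟩ := H 4 pi4 _ (fun v => Iff.rfl) ![α, 1 - α, α, 1 - α] ![0, 1, 1, 0]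
    (by intro i; fin_cases i <;> simp <;> linarith) (by
      rw [T_eq α 0 _ (by simp) (by simp) (by simp) (by simp)]
      rw [show ∑ i : Fin 4, (![α, 1 - α, α, 1 - α] : Fin 4 → ℝ) i = 2 by
        simp [Fin.sum_univ_four]; ring]
      exact ue h0 h1 hirr)
  have h2 := MeasureTheory.ae_restrict_of_ae_restrict_of_subset
    (Set.Ioo_subset_Ioo_left (show -ε ≤ 0 by linarith)) h
  have h3 : ∀ᵐ t : ℝ ∂(MeasureTheory.volume.restrict (Set.Ioo 0 ε)), False := by
    filter_upwards [h2, MeasureTheory.ae_restrict_mem measurableSet_Ioo] with t ht hm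
    rw [T_eq α t _ (by simp) (by simp) (by simp) (by simp)] at ht
    rw [show ∑ i : Fin 4, (![α, 1 - α, α, 1 - α] + t • ![0, 1, 1, 0] : Fin 4 → ℝ) i = 2 + 2 * t by
        simp [Fin.sum_univ_four]; ring] at ht
    exact not_ue h0 h1 hm.1 ht
  rw [Filter.eventually_false_iff_eq_bot, MeasureTheory.ae_eq_bot,
    MeasureTheory.Measure.restrict_eq_zero, Real.volume_Ioo, ENNReal.ofReal_eq_zero] at h3
  linarith

end Pool.Agent.S04554
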