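import Pool.Statements.S04563

set_option autoImplicit false
open Pool Pool.MP_498e64_an

namespace Pool.Agent.S04563

/-- Compactness: an injective cellular automaton has a finite inverse memory set. -/
theorem exists_inverse_memory (M : Type) [Monoid M] (A : Type) [Fintype A] (S : Finset M)
    (μ : (↥S → A) → A)
    (hinj : Function.Injective (fun (x : M → A) (m : M) => μ (fun s => x (s.1 * m)))) :
    ∃ T : Finset M, ∀ x y : M → A,
      (∀ t ∈ T, μ (fun s => x (s.1 * t)) = μ (fun s => y (s.1 * t))) → x 1 = y 1 := by
  classical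
  letI : TopologicalSpace A := ⊥
  haveI : DiscreteTopology A := ⟨rfl⟩
  have hμ : Continuous μ := continuous_of_discreteTopology
  have hK : IsCompact {p : (M → A) × (M → A) | p.1 1 ≠ p.2 1} := by
    apply IsClosed.isCompact
    have hc : Continuous (fun p : (M → A) × (M → A) => (p.1 1, p.2 1)) := by fun_prop
    exact (isClosed_discrete {q : A × A | q.1 ≠ q.2}).preimage hc
  have hU : ∀ t : M, IsOpen {p : (M → A) × (M → A) |
      μ (fun s => p.1 (s.1 * t)) ≠ μ (fun s => p.2 (s.1 * t))} := by
    intro t
    have hc : Continuous (fun p : (M → A) × (M → A) =>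
        (μ (fun s => p.1 (s.1 * t)), μ (fun s => p.2 (s.1 * t)))) := by
      refine Continuous.prodMk (hμ.comp ?_) (hμ.comp ?_) <;> fun_prop
    exact (isOpen_discrete {q : A × A | q.1 ≠ q.2}).preimage hc
  obtain ⟨T, hT⟩ := hK.elim_finite_subcover _ hU (by
    intro p hp
    by_contra h
    simp only [Set.mem_iUnion, Set.mem_setOf_eq, not_exists, not_not] at h
    have : p.1 = p.2 := hinj (funext h)
    exact hp (by rw [this]))
  refine ⟨T, fun x y hxy => ?_⟩
  by_contra hne
  have := hT (show (x, y) ∈ {p : (M → A) × (M → A) | p.1 1 ≠ p.2 1} from hne)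
  simp only [Set.mem_iUnion, Set.mem_setOf_eq] at this
  obtain ⟨t, ht, h⟩ := this
  exact h (hxy t ht)

/-- For every monoid M: if every finitely generated submonoid has all injective finite-alphabet cellular automata surjective, then every injective finite-alphabet cellular automaton over M itself is surjective. -/
theorem result :
    ∀ (M : Type) [Monoid M],
      (∀ N : Submonoid M, N.FG →
        ∀ (A : Type) [Fintype A] (S : Finset N) (μ : (↥S → A) → A),
          Function.Injective (fun (x : N → A) (m : N) => μ (fun s => x (s.1 * m))) →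
          Function.Surjective (fun (x : N → A) (m : N) => μ (fun s => x (s.1 * m)))) →
      ∀ (A : Type) [Fintype A] (S : Finset M) (μ : (↥S → A) → A),
        Function.Injective (fun (x : M → A) (m : M) => μ (fun s => x (s.1 * m))) →
        Function.Surjective (fun (x : M → A) (m : M) => μ (fun s => x (s.1 * m))) := by
  intro M _ hloc A _ S μ hinj
  classical
  obtain ⟨T, hT⟩ := exists_inverse_memory M A S μ hinj
  let N : Submonoid M := Submonoid.closure ((S ∪ T : Finset M) : Set M)
  have hSN : ∀ s ∈ S, s ∈ N := fun s hs =>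
    Submonoid.subset_closure (by simp [hs])
  have hTN : ∀ s ∈ T, s ∈ N := fun s hs =>
    Submonoid.subset_closure (by simp [hs])
  let S' : Finset N := S.subtype (· ∈ N)
  let ι : ↥S → ↥S' := fun s => ⟨⟨s.1, hSN s.1 s.2⟩, by simp [S', s.2]⟩
  let μ' : (↥S' → A) → A := fun f => μ (fun s => f (ι s))
  have hinj' : Function.Injective (fun (x : N → A) (m : N) => μ' (fun s => x (s.1 * m))) := by
    intro x y hxy
    funext h
    let x' : M → A := fun m => if hm : m ∈ N then x (⟨m, hm⟩ * h) else x 1
    let y' : M → A := fun m => if hm : m ∈ N then y (⟨m, hm⟩ * h) else x 1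
    have := hT x' y' (by
      intro t ht
      have h1 := congrFun hxy (⟨t, hTN t ht⟩ * h)
      simp only [μ'] at h1
      have e1 : (fun s : ↥S => x' (s.1 * t)) = fun s => x ((ι s).1 * (⟨t, hTN t ht⟩ * h)) := by
        funext s
        have hm : s.1 * t ∈ N := N.mul_mem (hSN _ s.2) (hTN t ht)
        simp only [x', dif_pos hm, ← mul_assoc]
        rfl
      have e2 : (fun s : ↥S => y' (s.1 * t)) = fun s => y ((ι s).1 * (⟨t, hTN t ht⟩ * h)) := by
        funext s
        have hm : s.1 * t ∈ N := N.mul_mem (hSN _ s.2) (hTN t ht)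
        simp only [y', dif_pos hm, ← mul_assoc]
        rfl
      rw [e1, e2]
      exact h1)
    simp only [x', y', dif_pos N.one_mem] at this
    have e : (⟨1, N.one_mem⟩ : N) = 1 := rfl
    rw [e, one_mul] at this
    exact this
  have hsurj' := hloc N ⟨S ∪ T, rfl⟩ A S' μ' hinj'
  intro z
  choose g hg using fun m : M => hsurj' (fun h : N => z (h.1 * m))
  have key : ∀ (m : M) (s : N), g (s.1 * m) = fun h => g m (h * s) := by
    intro m s
    apply hinj'
    rw [hg]
    funext h'
    have := congrFun (hg m) (h' * s)
    simp only [mul_assoc] at this ⊢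
    rw [this]
    simp [mul_assoc]
  refine ⟨fun m => g m 1, ?_⟩
  funext m
  have := congrFun (hg m) 1
  simp only [μ', mul_one, OneMemClass.coe_one, one_mul] at this
  rw [← this]
  show μ _ = μ _
  congr 1
  funext s
  have h2 := congrFun (key m (ι s).1) 1
  simp only [one_mul] at h2
  exact h2

end Pool.Agent.S04563
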