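import Pool.Statements.S04585
import Pool.Agent.H18.Tsi2
-- import your own Pool.Agent.* helpers here

set_option autoImplicit false
open MeasureTheory Filter Topology
open Pool Pool.MP_4a5259_an

namespace Pool.Agent.S04585

open H18.Tsi

lemma dyad (r : ENNReal) (p : ℕ → Prop) [DecidablePred p] (h : ∀ m, p m → 2 ^ m ≤ r) (M : ℕ) :
    ∑ m ∈ Finset.range M, (if p m then (2 : ENNReal) ^ m else 0) ≤ 2 ^ M ∧
      ∑ m ∈ Finset.range M, (if p m then (2 : ENNReal) ^ m else 0) ≤ 2 * r := by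
  induction M with
  | zero => simp
  | succ M ih =>
    rw [Finset.sum_range_succ, pow_succ', two_mul, two_mul]
    split_ifs with hp
    · exact ⟨add_le_add ih.1 le_rfl, add_le_add (ih.1.trans (h M hp)) (h M hp)⟩
    · rw [add_zero, ← two_mul r]
      exact ⟨ih.1.trans le_self_add, ih.2⟩

lemma split3 (a b : ℕ) (h : a ≤ b) (y : Y) :
    R (Set.Iio a) y + R (Set.Ico a b) y + R (Set.Ici b) y = y :=
  H18.Tsi.ext fun i => by
    simp only [map_add, co_R, Set.mem_Iio, Set.mem_Ici, Set.mem_Ico]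
    split_ifs <;> first | omega | simp

lemma head (x : Y →L[ℝ] ℝ) (a : ℕ) (δ : ℝ) (h : ∀ i < a, ‖x (e i)‖ ≤ δ) :
    ‖x.comp (R (Set.Iio a))‖ ≤ a * δ := by
  rw [comp_Iio]
  refine (norm_sum_le _ _).trans ?_
  have := Finset.sum_le_card_nsmul (Finset.range a) (fun i => ‖x (e i) • co i‖) δ fun i hi => by
    have h1 : ‖co i‖ ≤ 1 := ContinuousLinearMap.opNorm_le_bound _ one_pos.le fun y => by
      rw [one_mul]; exact abs_co_le i y
    rw [norm_smul]
    exact (mul_le_of_le_one_right (norm_nonneg _) h1).trans (h i (Finset.mem_range.1 hi))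
  simpa using this


/-- Some reflexive infinite-dimensional real Banach space X has this property: every L^1-bounded sequence of strongly measurable f_n:[0,1]→X that tends scalarly to 0 in measure has a subsequence tending scalarly to 0 almost everywhere. -/
theorem result :
    ∃ (X : Type) (_ : NormedAddCommGroup X) (_ : NormedSpace ℝ X) (_ : CompleteSpace X),
      Function.Surjective (NormedSpace.inclusionInDoubleDual ℝ X) ∧
      ¬ FiniteDimensional ℝ X ∧
      ∀ f : ℕ → ℝ → X,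
        (∀ n, StronglyMeasurable (f n)) →
        (∃ C : NNReal, ∀ n, eLpNorm (f n) 1 (volume.restrict (Set.Icc (0 : ℝ) 1)) ≤ (C : ENNReal)) →
        (∀ φ : StrongDual ℝ X,
          TendstoInMeasure (volume.restrict (Set.Icc (0 : ℝ) 1))
            (fun n t => φ (f n t)) atTop (fun _ => (0 : ℝ))) →
        ∃ g : ℕ → ℕ, StrictMono g ∧
          ∀ φ : StrongDual ℝ X,
            ∀ᵐ t ∂(volume.restrict (Set.Icc (0 : ℝ) 1)),
              Tendsto (fun k => φ (f (g k) t)) atTop (𝓝 0) := by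
  classical
  refine ⟨StrongDual ℝ Y, inferInstance, inferInstance, inferInstance, refl_dual, inf_dim, ?_⟩
  set μ : Measure ℝ := volume.restrict (Set.Icc (0:ℝ) 1) with hμ
  haveI : IsProbabilityMeasure μ := ⟨by simp [hμ]⟩
  rintro f hf ⟨C, hC⟩ hm
  let u : ℕ → ℕ → ENNReal := fun n m => μ {t | (2 : ℝ) ^ m < ‖f n t‖}
  have hu : ∀ n M, ∑ m ∈ Finset.range M, 2 ^ m * u n m ≤ 2 * C := by
    intro n M
    have h1 : ∀ m : ℕ, MeasurableSet {t | (2 : ℝ) ^ m < ‖f n t‖} := fun m =>
      measurableSet_lt measurable_const (hf n).norm.measurable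
    simp only [u, ← lintegral_indicator_const (h1 _)]
    rw [← lintegral_finset_sum _ fun m _ => measurable_const.indicator (h1 m)]
    have h2 := hC n
    rw [eLpNorm_one_eq_lintegral_enorm] at h2
    refine le_trans (lintegral_mono fun t => ?_)
      ((lintegral_const_mul' 2 _ (by simp)).le.trans (by gcongr))
    simp only [Set.indicator_apply, Set.mem_setOf_eq]
    refine (dyad _ _ (fun m hm => ?_) M).2
    rw [← ofReal_norm_eq_enorm]
    have := ENNReal.ofReal_le_ofReal hm.le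
    rwa [ENNReal.ofReal_pow (by norm_num), ENNReal.ofReal_ofNat] at this
  have hcl : IsClosed {v : ℕ → ENNReal | ∀ M, ∑ m ∈ Finset.range M, 2 ^ m * v m ≤ 2 * C} := by
    simp only [Set.setOf_forall]
    exact isClosed_iInter fun M => isClosed_le (continuous_finset_sum _ fun m _ =>
      (ENNReal.continuous_const_mul (by simp)).comp (continuous_apply m)) continuous_const
  obtain ⟨ψ, hψ, hcp⟩ := hcl.isCompact.exists_mapClusterPt (f := atTop) (u := u)
    (le_principal_iff.2 (mem_map.2 (Eventually.of_forall hu)))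
  have hψs : ∑' m, 2 ^ m * ψ m ≠ ⊤ :=
    ne_top_of_le_ne_top (ENNReal.mul_ne_top (by simp) (by simp))
      (ENNReal.tsum_le_of_sum_range_le hψ)
  have hψs' : ∑' m, ψ m ≠ ⊤ := ne_top_of_le_ne_top hψs (ENNReal.tsum_le_tsum fun m =>
    le_mul_of_one_le_left' (one_le_pow₀ (by norm_num)))
  have hpos : ∀ k : ℕ, (0 : ENNReal) < 2⁻¹ ^ k := fun k => ENNReal.pow_pos (by simp) _
  have hgeo : ∑' k : ℕ, (2⁻¹ : ENNReal) ^ k ≠ ⊤ := by simp
  have key : ∀ k n a : ℕ, ∃ n' b : ℕ, n < n' ∧ a < b ∧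
      μ {t | (2⁻¹ : ℝ) ^ k ≤ ‖(f n' t).comp (R (Set.Iio a))‖} ≤ 2⁻¹ ^ k ∧
      (∀ m ∈ Finset.range (k + 1), u n' m < ψ m + 2⁻¹ ^ k) ∧
      μ {t | (2⁻¹ : ℝ) ^ k ≤ ‖(f n' t).comp (R (Set.Ici b))‖} ≤ 2⁻¹ ^ k := by
    intro k n a
    have h1 : ∃ᶠ n' in atTop, ∀ m ∈ Finset.range (k + 1), u n' m < ψ m + 2⁻¹ ^ k :=
      hcp.frequently (p := fun v => ∀ m ∈ Finset.range (k + 1), v m < ψ m + 2⁻¹ ^ k)
        ((eventually_all_finset _).2 fun m _ => ((continuous_apply m).tendsto ψ).eventually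
          (Iio_mem_nhds (ENNReal.lt_add_right (ENNReal.ne_top_of_tsum_ne_top hψs' m) (hpos k).ne')))
    set δ : ℝ := 2⁻¹ ^ k / (a + 1) with hδ
    have hδ0 : 0 < δ := by positivity
    have h2 := tendsto_finset_sum (Finset.range a) fun i _ => tendstoInMeasure_iff_norm.1
      (hm (NormedSpace.inclusionInDoubleDual ℝ Y (e i))) δ hδ0
    rw [Finset.sum_const_zero, ENNReal.tendsto_nhds_zero] at h2
    obtain ⟨n', h3, h4, h5⟩ := (h1.and_eventually ((h2 _ (hpos k)).and
      (eventually_gt_atTop n))).exists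
    have h6 := tendstoInMeasure_iff_norm.1 (tendstoInMeasure_of_tendsto_ae (μ := μ)
      (f := fun b t => ‖(f n' t).comp (R (Set.Ici b))‖) (g := fun _ => 0)
      (fun b => ((continuous_id.clm_comp continuous_const).norm.comp_stronglyMeasurable
        (hf n')).aestronglyMeasurable) (Eventually.of_forall fun t => shrink _))
      (2⁻¹ ^ k) (by positivity)
    rw [ENNReal.tendsto_nhds_zero] at h6
    obtain ⟨b, h7, h8⟩ := ((h6 _ (hpos k)).and (eventually_gt_atTop a)).exists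
    refine ⟨n', b, h5, h8, le_trans ?_ h4, h3, by simpa using h7⟩
    refine le_trans (measure_mono fun t ht => ?_) (measure_biUnion_finset_le _ _)
    by_contra hc
    simp only [Set.mem_iUnion, Set.mem_setOf_eq, not_exists, not_le, Finset.mem_range,
      sub_zero] at hc ht
    have h9 := ht.trans (head (f n' t) a δ fun i hi => (hc i hi).le)
    have h10 : (2⁻¹ : ℝ) ^ k = (a + 1) * δ := by rw [hδ]; field_simp
    linarith
  choose N B hN hB h1 h2 h3 using key
  let s : ℕ → ℕ × ℕ := fun k => Nat.rec (0, 0) (fun k v => (N k v.1 v.2, B k v.1 v.2)) k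
  let g : ℕ → ℕ := fun k => (s (k + 1)).1
  let a : ℕ → ℕ := fun k => (s k).2
  have ha : StrictMono a := strictMono_nat_of_lt_succ fun k => hB _ _ _
  refine ⟨g, strictMono_nat_of_lt_succ fun k => hN _ _ _, fun φ => ?_⟩
  obtain ⟨y, hy⟩ := H18.Tsi.refl φ
  let α : ℕ → ℝ := fun k => ‖R (Set.Ico (a k) (a (k + 1))) y‖
  have b1 := ae_eventually_notMem (μ := μ)
    (s := fun k => {t | (2⁻¹ : ℝ) ^ k ≤ ‖(f (g k) t).comp (R (Set.Iio (a k)))‖})
    (ne_top_of_le_ne_top hgeo (ENNReal.tsum_le_tsum fun k => h1 _ _ _))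
  have b3 := ae_eventually_notMem (μ := μ)
    (s := fun k => {t | (2⁻¹ : ℝ) ^ k ≤ ‖(f (g k) t).comp (R (Set.Ici (a (k + 1))))‖})
    (ne_top_of_le_ne_top hgeo (ENNReal.tsum_le_tsum fun k => h3 _ _ _))
  have b2 : ∀ ε : ℝ, 0 < ε → ∀ᵐ t ∂μ, ∀ᶠ k in atTop,
      t ∉ {t | ε < α k * ‖f (g k) t‖ ∧ α k ≤ ε} := by
    intro ε hε
    refine ae_eventually_notMem (ne_top_of_le_ne_top ?_ (ENNReal.tsum_le_tsum
      (g := fun k => (∑' m : ℕ, if ε / 2 ^ (m + 1) < α k then ψ m else 0) + ψ k + 2⁻¹ ^ k)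
      fun k => ?_))
    · rw [ENNReal.tsum_add, ENNReal.tsum_add, ENNReal.tsum_comm]
      refine ENNReal.add_ne_top.2 ⟨ENNReal.add_ne_top.2 ⟨?_, hψs'⟩, hgeo⟩
      refine ne_top_of_le_ne_top ?_ (ENNReal.tsum_le_tsum
        (g := fun m => ENNReal.ofReal (2 * (4 * ‖y‖ / ε + 1)) * (2 ^ m * ψ m)) fun m => ?_)
      · rw [ENNReal.tsum_mul_left]
        exact ENNReal.mul_ne_top ENNReal.ofReal_ne_top hψs
      rw [ENNReal.tsum_eq_iSup_sum]
      refine iSup_le fun S => ?_
      rw [← Finset.sum_filter, Finset.sum_const, nsmul_eq_mul, ← mul_assoc]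
      gcongr
      have h4 := weak a ha y (ε / 2 ^ (m + 1)) (by positivity)
        (S.filter fun k => ε / 2 ^ (m + 1) < α k) fun k hk => (Finset.mem_filter.1 hk).2
      have h5 : 2 * (2 * ‖y‖ / (ε / 2 ^ (m + 1)) + 1) ≤ 2 * (4 * ‖y‖ / ε + 1) * 2 ^ m := by
        have h6 : (1 : ℝ) ≤ 2 ^ m := one_le_pow₀ (by norm_num)
        have e : 2 * ‖y‖ / (ε / 2 ^ (m + 1)) = 4 * ‖y‖ / ε * 2 ^ m := by
          field_simp; ring
        rw [e]; linarith
      have := ENNReal.ofReal_le_ofReal (h4.trans h5)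
      rwa [ENNReal.ofReal_natCast, ENNReal.ofReal_mul (by positivity),
        ENNReal.ofReal_pow (by norm_num), ENNReal.ofReal_ofNat] at this
    by_cases h : 0 < α k ∧ α k ≤ ε
    swap
    · refine le_trans (measure_mono (t := ∅) fun t ht => h ⟨?_, ht.2⟩) (by simp)
      by_contra h4
      have h5 := ht.1
      nlinarith [norm_nonneg (f (g k) t)]
    have hex : ∃ m : ℕ, ε / 2 ^ (m + 1) < α k := by
      obtain ⟨m, hm⟩ := pow_unbounded_of_one_lt (ε / α k) (one_lt_two (α := ℝ))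
      refine ⟨m, ?_⟩
      rw [div_lt_iff₀ h.1] at hm
      rw [div_lt_iff₀ (by positivity), pow_succ]
      nlinarith
    have h4 := Nat.find_spec hex
    have h5 : α k ≤ ε / 2 ^ Nat.find hex := by
      rcases Nat.eq_zero_or_eq_succ_pred (Nat.find hex) with h6 | h6
      · simpa [h6] using h.2
      · have := Nat.find_min hex (m := (Nat.find hex).pred) (by omega)
        rw [h6]
        exact not_lt.1 this
    set m := Nat.find hex
    refine le_trans (measure_mono (t := {t | (2 : ℝ) ^ min m k < ‖f (g k) t‖}) fun t ht => ?_)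
      ((h2 _ _ _ (min m k) (Finset.mem_range.2 (by omega))).le.trans (add_le_add ?_ le_rfl))
    · refine lt_of_le_of_lt (pow_le_pow_right₀ (one_le_two (α := ℝ)) (min_le_left m k)) ?_
      rw [le_div_iff₀ (by positivity)] at h5
      exact lt_of_mul_lt_mul_left (h5.trans_lt ht.1) h.1.le
    · rcases min_choice m k with h6 | h6 <;> rw [h6]
      · exact le_add_right (le_trans (by rw [if_pos h4]) (ENNReal.le_tsum m))
      · exact le_add_self
  filter_upwards [b1, b3, ae_all_iff.2 fun j : ℕ => b2 (1 / (j + 1)) (by positivity)]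
    with t c1 c3 c2
  rw [Metric.tendsto_nhds]
  intro δ hδ
  obtain ⟨j, hj⟩ := exists_nat_one_div_lt (half_pos hδ)
  have c4 := (weak_finite a ha y (1 / (j + 1)) (by positivity)).eventually_cofinite_notMem
  rw [Nat.cofinite_eq_atTop] at c4
  have c5 := ((tendsto_pow_atTop_nhds_zero_of_lt_one (r := (2⁻¹ : ℝ)) (by norm_num)
    (by norm_num)).mul_const ‖y‖).eventually (Iio_mem_nhds (by simpa using hδ :
      0 * ‖y‖ < δ / 4))
  filter_upwards [c1, c3, c2 j, c4, c5] with k d1 d3 d2 d4 d5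
  simp only [Set.mem_setOf_eq, not_le, not_lt, not_and] at d1 d3 d2 d4
  have d6 : α k * ‖f (g k) t‖ ≤ 1 / (j + 1) := by
    by_contra hc
    exact absurd (d2 (not_le.1 hc)) (not_lt.2 d4)
  rw [dist_zero_right, hy, ← split3 _ _ (ha.monotone (Nat.le_succ k)) y, map_add, map_add]
  have e1 := ((f (g k) t).comp (R (Set.Iio (a k)))).le_opNorm y
  have e3 := ((f (g k) t).comp (R (Set.Ici (a (k + 1))))).le_opNorm y
  have e2 := (f (g k) t).le_opNorm (R (Set.Ico (a k) (a (k + 1))) y)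
  have e4 := mul_le_mul_of_nonneg_right d1.le (norm_nonneg y)
  have e5 := mul_le_mul_of_nonneg_right d3.le (norm_nonneg y)
  refine lt_of_le_of_lt norm_add₃_le ?_
  simp only [ContinuousLinearMap.comp_apply, α] at e1 e3 d6
  have d7 : (2⁻¹ : ℝ) ^ k * ‖y‖ < δ / 4 := d5
  linarith

end Pool.Agent.S04585
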