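import Pool.Statements.S04606

set_option autoImplicit false
open MeasureTheory
open Pool Pool.MP_4bee3f_an

namespace Pool.Agent.S04606

open Complex

abbrev E2 := EuclideanSpace ℝ (Fin 2)

def Z (x : E2) : ℂ := ⟨x 0, x 1⟩

lemma Z_dist (x y : E2) : ‖Z x - Z y‖ = dist x y := by
  rw [EuclideanSpace.dist_eq, Complex.norm_eq_sqrt_sq_add_sq]
  simp [Z, Fin.sum_univ_two, Real.dist_eq, sq_abs]

lemma Z_norm (x : E2) : ‖Z x‖ = ‖x‖ := by
  have := Z_dist x 0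
  have h0 : Z 0 = 0 := by simp [Z]; rfl
  simpa [h0] using this

noncomputable def G (z : ℂ) : ℂ := z ^ 2 / (starRingEnd ℂ) z

lemma G_norm (z : ℂ) : ‖G z‖ = ‖z‖ := by
  by_cases h : z = 0
  · simp [G, h]
  · have : ‖z‖ ≠ 0 := norm_ne_zero_iff.mpr h
    simp [G]; field_simp

lemma G_lip (z w : ℂ) : ‖G z - G w‖ ≤ 3 * ‖z - w‖ := by
  by_cases hz : z = 0
  · subst hz
    have : G 0 = 0 := by simp [G]
    simp [this, G_norm]; linarith [norm_nonneg w]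
  by_cases hw : w = 0
  · subst hw
    have : G 0 = 0 := by simp [G]
    simp [this, G_norm]; linarith [norm_nonneg z]
  have hz' : (starRingEnd ℂ) z ≠ 0 := by simpa using hz
  have hw' : (starRingEnd ℂ) w ≠ 0 := by simpa using hw
  have pz : 0 < ‖z‖ := norm_pos_iff.mpr hz
  have pw : 0 < ‖w‖ := norm_pos_iff.mpr hw
  have e : G z - G w = (z * (z - w) * (starRingEnd ℂ) w - z * w * (starRingEnd ℂ) (z - w)
      + w * (starRingEnd ℂ) z * (z - w)) / ((starRingEnd ℂ) z * (starRingEnd ℂ) w) := by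
    simp only [G, map_sub]; field_simp; ring
  rw [e, norm_div, div_le_iff₀ (by simp; positivity)]
  have h1 := norm_add_le (z * (z - w) * (starRingEnd ℂ) w - z * w * (starRingEnd ℂ) (z - w))
    (w * (starRingEnd ℂ) z * (z - w))
  have h2 := norm_sub_le (z * (z - w) * (starRingEnd ℂ) w) (z * w * (starRingEnd ℂ) (z - w))
  simp only [norm_mul, RingHomIsometric.norm_map] at h1 h2 ⊢
  nlinarith

lemma log_bd {r : ℝ} (h0 : 0 ≤ r) (h1 : r ≤ 1) : r * |Real.log r| ≤ 1 := by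
  rcases h0.eq_or_lt with h | h
  · simp [← h]
  · have := Real.abs_log_mul_self_lt r h h1
    rw [abs_mul, abs_of_pos h] at this
    linarith

lemma log_bd2 {r : ℝ} (h0 : 0 ≤ r) (h1 : r ≤ 1) : r * Real.log r ^ 2 ≤ 4 := by
  have hs := log_bd (Real.sqrt_nonneg r) (Real.sqrt_le_one.mpr h1)
  rw [Real.log_sqrt h0] at hs
  have e : r * Real.log r ^ 2 = 4 * (√r * |Real.log r / 2|) ^ 2 := by
    rw [mul_pow, sq_abs, Real.sq_sqrt h0]; ring
  have : 0 ≤ √r * |Real.log r / 2| := by positivity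
  nlinarith

lemma log_diff {r s : ℝ} (h0 : 0 ≤ s) (h : s ≤ r) : s * |Real.log r - Real.log s| ≤ r - s := by
  rcases h0.eq_or_lt with hs | hs
  · simp [← hs]; linarith
  · have hr : 0 < r := by linarith
    rw [abs_of_nonneg (sub_nonneg.mpr (Real.log_le_log hs h)), ← Real.log_div hr.ne' hs.ne']
    have := Real.log_le_sub_one_of_pos (div_pos hr hs)
    have e : s * (r / s - 1) = r - s := by field_simp
    nlinarith

noncomputable def W (z : ℂ) : ℂ := z ^ 2 * (Real.log ‖z‖ : ℝ)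

lemma W_lip' {z w : ℂ} (hz : ‖z‖ ≤ 1) (h : ‖w‖ ≤ ‖z‖) : ‖W z - W w‖ ≤ 3 * ‖z - w‖ := by
  have e : W z - W w = (z - w) * (z + w) * (Real.log ‖z‖ : ℝ)
      + w ^ 2 * ((Real.log ‖z‖ - Real.log ‖w‖ : ℝ) : ℂ) := by
    simp only [W]; push_cast; ring
  rw [e]
  refine (norm_add_le _ _).trans ?_
  simp only [norm_mul, norm_pow, Complex.norm_real, Real.norm_eq_abs]
  have h1 := log_bd (norm_nonneg z) hz
  have h2 := log_diff (norm_nonneg w) h
  have h3 : ‖z‖ - ‖w‖ ≤ ‖z - w‖ := norm_sub_norm_le z w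
  have h4 : ‖z + w‖ ≤ 2 * ‖z‖ := by linarith [norm_add_le z w]
  have h5 : ‖z + w‖ * |Real.log ‖z‖| ≤ 2 := by nlinarith [abs_nonneg (Real.log ‖z‖)]
  have h6 : ‖w‖ * (‖w‖ * |Real.log ‖z‖ - Real.log ‖w‖|) ≤ 1 * ‖z - w‖ :=
    mul_le_mul (h.trans hz) (h2.trans h3) (by positivity) (by norm_num)
  nlinarith [norm_nonneg (z - w)]

lemma W_lip {z w : ℂ} (hz : ‖z‖ ≤ 1) (hw : ‖w‖ ≤ 1) : ‖W z - W w‖ ≤ 3 * ‖z - w‖ := by
  rcases le_total ‖w‖ ‖z‖ with h | h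
  · exact W_lip' hz h
  · rw [norm_sub_rev, norm_sub_rev z]; exact W_lip' hw h

noncomputable def kk (r : ℝ) : ℝ := r ^ 2 * (4 * Real.log r + 1) ^ 2

lemma kk_lip' {r s : ℝ} (h0 : 0 ≤ s) (h : s ≤ r) (h1 : r ≤ 1) : |kk r - kk s| ≤ 200 * (r - s) := by
  have e : kk r - kk s = (r - s) * ((r + s) * (4 * Real.log r + 1) ^ 2)
      + 4 * (s * (Real.log r - Real.log s)) * (s * (4 * Real.log r + 4 * Real.log s + 2)) := by
    unfold kk; ring
  have hr : 0 ≤ r := h0.trans h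
  have a1 := log_bd hr h1
  have a2 := log_bd2 hr h1
  have a3 := log_bd h0 (h.trans h1)
  have a4 := log_diff h0 h
  have b1 : (r + s) * (4 * Real.log r + 1) ^ 2 ≤ 146 := by
    have : r * (4 * Real.log r + 1) ^ 2 ≤ 73 := by
      have := le_abs_self (Real.log r)
      nlinarith
    nlinarith [sq_nonneg (4 * Real.log r + 1)]
  have b2 : |s * (4 * Real.log r + 4 * Real.log s + 2)| ≤ 10 := by
    have c1 : s * |Real.log r| ≤ 1 := by nlinarith [abs_nonneg (Real.log r)]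
    have c2 := le_abs_self (Real.log r)
    have c3 := neg_abs_le (Real.log r)
    have c4 := le_abs_self (Real.log s)
    have c5 := neg_abs_le (Real.log s)
    rw [abs_le]; constructor <;> nlinarith
  have b3 : |s * (Real.log r - Real.log s)| ≤ r - s := by
    rw [abs_mul, abs_of_nonneg h0]; exact a4
  rw [e]
  refine (abs_add_le _ _).trans ?_
  rw [abs_mul, abs_mul, abs_mul, abs_of_nonneg (sub_nonneg.mpr h),
    abs_of_nonneg (show 0 ≤ r + s by linarith), abs_of_nonneg (sq_nonneg _), abs_mul (4 : ℝ)]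
  have b4 : |s * (Real.log r - Real.log s)| * |s * (4 * Real.log r + 4 * Real.log s + 2)|
      ≤ (r - s) * 10 := mul_le_mul b3 b2 (abs_nonneg _) (by linarith)
  have b5 : (r - s) * ((r + s) * (4 * Real.log r + 1) ^ 2) ≤ (r - s) * 146 :=
    mul_le_mul_of_nonneg_left b1 (by linarith)
  norm_num at b4 ⊢
  nlinarith

lemma kk_lip {r s : ℝ} (h0 : 0 ≤ s) (h0' : 0 ≤ r) (h : s ≤ 1) (h1 : r ≤ 1) :
    |kk r - kk s| ≤ 200 * |r - s| := by
  rcases le_total s r with h' | h'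
  · rw [abs_of_nonneg (sub_nonneg.mpr h')]; exact kk_lip' h0 h' h1
  · rw [abs_sub_comm, abs_sub_comm r, abs_of_nonneg (sub_nonneg.mpr h')]; exact kk_lip' h0' h' h

lemma kk_le {r : ℝ} (h0 : 0 ≤ r) (h1 : r ≤ 1) : kk r ≤ 25 := by
  have a1 := log_bd h0 h1
  have e : kk r = (4 * (r * Real.log r) + r) ^ 2 := by unfold kk; ring
  have c2 := le_abs_self (Real.log r)
  have c3 := neg_abs_le (Real.log r)
  rw [e]
  apply sq_le_sq' (b := 5) _ _ |>.trans (by norm_num) <;> nlinarith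

noncomputable def uu : Fin 2 → E2 → ℝ :=
  ![fun x => 10 * x 0 + (x 0 ^ 2 - x 1 ^ 2) * Real.log (x 0 ^ 2 + x 1 ^ 2),
    fun x => -10 * x 1 + 2 * x 0 * x 1 * Real.log (x 0 ^ 2 + x 1 ^ 2)]

noncomputable def cc : Fin 2 → E2 → ℝ :=
  ![fun x => 20 + 2 * (G (Z x)).re, fun x => 2 * (G (Z x)).im]

noncomputable def JJ (x : E2) : ℝ := kk ‖x‖ - ‖10 + G (Z x)‖ ^ 2

def AA : Fin 2 → Fin 2 → Fin 2 → E2 → ℝ := fun j i l _ =>
  ![![![1, 0], ![0, 1]], ![![0, -1], ![1, 0]]] j i l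

lemma nsq (x : E2) : x 0 ^ 2 + x 1 ^ 2 = ‖x‖ ^ 2 := by
  rw [EuclideanSpace.norm_sq_eq]; simp [Fin.sum_univ_two]

lemma lg (x : E2) : Real.log (x 0 ^ 2 + x 1 ^ 2) = 2 * Real.log ‖x‖ := by
  rw [nsq, Real.log_pow]; norm_num

lemma mk_lip {f : E2 → ℝ} {C : ℝ} (hC : 0 ≤ C)
    (h : ∀ x y : E2, ‖x‖ ≤ 1 → ‖y‖ ≤ 1 → |f x - f y| ≤ C * dist x y) :
    LipschitzOnWith ⟨C, hC⟩ f (Metric.ball 0 1) := by
  refine LipschitzOnWith.of_dist_le_mul fun x hx y hy => ?_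
  exact h x y (mem_ball_zero_iff.mp hx).le (mem_ball_zero_iff.mp hy).le

lemma pack {f : E2 → ℝ} {C : NNReal} (h : LipschitzOnWith C f (Metric.ball 0 1)) :
    ContDiffOn ℝ (0 : ℕ) f (Metric.ball 0 1) ∧ ∀ x ∈ Metric.ball (0 : E2) 1, ∃ C : NNReal,
      ∃ U ∈ nhds x, LipschitzOnWith C (iteratedFDeriv ℝ 0 f) (U ∩ Metric.ball 0 1) := by
  refine ⟨by simpa using h.continuousOn, fun x _ => ⟨1 * C, Set.univ, Filter.univ_mem, ?_⟩⟩
  rw [Set.univ_inter, iteratedFDeriv_zero_eq_comp]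
  exact (continuousMultilinearCurryFin0 ℝ E2 ℝ).symm.lipschitz.comp_lipschitzOnWith h

lemma uu_lip (i : Fin 2) : ∃ C, LipschitzOnWith C (uu i) (Metric.ball 0 1) := by
  refine ⟨_, mk_lip (C := 16) (by norm_num) fun x y hx hy => ?_⟩
  have h1 := W_lip (z := Z x) (w := Z y) (by rwa [Z_norm]) (by rwa [Z_norm])
  rw [Z_dist] at h1
  have h2 := Z_dist x y
  have r1 := Complex.abs_re_le_norm (W (Z x) - W (Z y))
  have r2 := Complex.abs_im_le_norm (W (Z x) - W (Z y))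
  have r3 := Complex.abs_re_le_norm (Z x - Z y)
  have r4 := Complex.abs_im_le_norm (Z x - Z y)
  have e0 : ∀ x : E2, uu 0 x = 10 * (Z x).re + 2 * (W (Z x)).re := by
    intro x
    simp only [uu, lg, W, Z_norm, Matrix.cons_val_zero]
    simp [Z, sq]; ring
  have e1 : ∀ x : E2, uu 1 x = -10 * (Z x).im + 2 * (W (Z x)).im := by
    intro x
    simp only [uu, lg, W, Z_norm, Matrix.cons_val_one, Matrix.cons_val_zero]
    simp [Z, sq]; ring
  rw [abs_le] at r1 r2 r3 r4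
  simp only [Complex.sub_re, Complex.sub_im] at r1 r2 r3 r4
  fin_cases i
  · show |uu 0 x - uu 0 y| ≤ _
    rw [e0, e0, abs_le]; constructor <;> linarith [r1.1, r1.2, r3.1, r3.2]
  · show |uu 1 x - uu 1 y| ≤ _
    rw [e1, e1, abs_le]; constructor <;> linarith [r2.1, r2.2, r4.1, r4.2]

lemma cc_lip (i : Fin 2) : ∃ C, LipschitzOnWith C (cc i) (Metric.ball 0 1) := by
  refine ⟨_, mk_lip (C := 6) (by norm_num) fun x y hx hy => ?_⟩
  have h1 := G_lip (Z x) (Z y)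
  rw [Z_dist] at h1
  have r1 := Complex.abs_re_le_norm (G (Z x) - G (Z y))
  have r2 := Complex.abs_im_le_norm (G (Z x) - G (Z y))
  rw [abs_le] at r1 r2
  simp only [Complex.sub_re, Complex.sub_im] at r1 r2
  fin_cases i
  · simp only [cc, Fin.zero_eta, Matrix.cons_val_zero]
    rw [abs_le]; constructor <;> linarith [r1.1, r1.2]
  · simp only [cc, Fin.mk_one, Matrix.cons_val_one, Matrix.cons_val_zero]
    rw [abs_le]; constructor <;> linarith [r2.1, r2.2]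

lemma JJ_lip : ∃ C, LipschitzOnWith C JJ (Metric.ball 0 1) := by
  refine ⟨_, mk_lip (C := 266) (by norm_num) fun x y hx hy => ?_⟩
  have h1 := G_lip (Z x) (Z y)
  rw [Z_dist] at h1
  have h2 := kk_lip (norm_nonneg y) (norm_nonneg x) hy hx
  have h3 : |‖x‖ - ‖y‖| ≤ dist x y := by rw [dist_eq_norm]; exact abs_norm_sub_norm_le x y
  have h4 : |‖10 + G (Z x)‖ - ‖10 + G (Z y)‖| ≤ 3 * dist x y := by
    refine (abs_norm_sub_norm_le _ _).trans ?_
    simpa using h1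
  have h5 : ∀ x : E2, ‖x‖ ≤ 1 → ‖10 + G (Z x)‖ ≤ 11 := by
    intro x hx
    have := norm_add_le 10 (G (Z x))
    rw [G_norm, Z_norm] at this
    simp at this; linarith
  have e : JJ x - JJ y = (kk ‖x‖ - kk ‖y‖) - (‖10 + G (Z x)‖ - ‖10 + G (Z y)‖) *
      (‖10 + G (Z x)‖ + ‖10 + G (Z y)‖) := by unfold JJ; ring
  rw [e]
  refine (abs_sub _ _).trans ?_
  rw [abs_mul, abs_of_nonneg (show 0 ≤ ‖10 + G (Z x)‖ + ‖10 + G (Z y)‖ by positivity)]
  have h6 : |‖10 + G (Z x)‖ - ‖10 + G (Z y)‖| * (‖10 + G (Z x)‖ + ‖10 + G (Z y)‖)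
      ≤ (3 * dist x y) * 22 :=
    mul_le_mul h4 (by linarith [h5 x hx, h5 y hy]) (by positivity) (by positivity)
  linarith

lemma JJ_ne {x : E2} (hx : ‖x‖ ≤ 1) : JJ x ≠ 0 := by
  have h1 := kk_le (norm_nonneg x) hx
  have h2 : 9 ≤ ‖10 + G (Z x)‖ := by
    have := norm_sub_le (10 + G (Z x)) (G (Z x))
    rw [G_norm, Z_norm] at this
    simp at this; linarith
  unfold JJ; nlinarith

lemma uu_der {x : E2} (hx : x ≠ 0) :
    fderiv ℝ (uu 0) x (EuclideanSpace.single 0 1) = 10 + 2 * x 0 * Real.log (x 0 ^ 2 + x 1 ^ 2)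
      + (x 0 ^ 2 - x 1 ^ 2) * (2 * x 0) / (x 0 ^ 2 + x 1 ^ 2) ∧
    fderiv ℝ (uu 0) x (EuclideanSpace.single 1 1) = -2 * x 1 * Real.log (x 0 ^ 2 + x 1 ^ 2)
      + (x 0 ^ 2 - x 1 ^ 2) * (2 * x 1) / (x 0 ^ 2 + x 1 ^ 2) ∧
    fderiv ℝ (uu 1) x (EuclideanSpace.single 0 1) = 2 * x 1 * Real.log (x 0 ^ 2 + x 1 ^ 2)
      + 2 * x 0 * x 1 * (2 * x 0) / (x 0 ^ 2 + x 1 ^ 2) ∧
    fderiv ℝ (uu 1) x (EuclideanSpace.single 1 1) = -10 + 2 * x 0 * Real.log (x 0 ^ 2 + x 1 ^ 2)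
      + 2 * x 0 * x 1 * (2 * x 1) / (x 0 ^ 2 + x 1 ^ 2) := by
  have hr : x 0 ^ 2 + x 1 ^ 2 ≠ 0 := by rw [nsq]; exact pow_ne_zero _ (norm_ne_zero_iff.mpr hx)
  have h0 : HasFDerivAt (fun w : E2 => w 0) (EuclideanSpace.proj (0 : Fin 2) : E2 →L[ℝ] ℝ) x :=
    (EuclideanSpace.proj (0 : Fin 2) : E2 →L[ℝ] ℝ).hasFDerivAt
  have h1 : HasFDerivAt (fun w : E2 => w 1) (EuclideanSpace.proj (1 : Fin 2) : E2 →L[ℝ] ℝ) x :=
    (EuclideanSpace.proj (1 : Fin 2) : E2 →L[ℝ] ℝ).hasFDerivAt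
  have hL := ((h0.pow 2).add (h1.pow 2)).log hr
  have d0 := (h0.const_mul 10).add (((h0.pow 2).sub (h1.pow 2)).mul hL)
  have d1 := (h1.const_mul (-10)).add (((h0.const_mul 2).mul h1).mul hL)
  have f0 := HasFDerivAt.fderiv (f := uu 0) d0
  have f1 := HasFDerivAt.fderiv (f := uu 1) d1
  rw [f0, f1]
  refine ⟨?_, ?_, ?_, ?_⟩ <;> simp <;> field_simp <;> ring

lemma G_re_im {x : E2} (hx : x ≠ 0) :
    (G (Z x)).re = (x 0 ^ 3 - 3 * x 0 * x 1 ^ 2) / (x 0 ^ 2 + x 1 ^ 2) ∧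
    (G (Z x)).im = (3 * x 0 ^ 2 * x 1 - x 1 ^ 3) / (x 0 ^ 2 + x 1 ^ 2) := by
  have hr : x 0 ^ 2 + x 1 ^ 2 ≠ 0 := by rw [nsq]; exact pow_ne_zero _ (norm_ne_zero_iff.mpr hx)
  have hr' : x 0 * x 0 + x 1 * x 1 ≠ 0 := by rwa [← sq, ← sq]
  simp only [G, Z, Complex.div_re, Complex.div_im, sq, Complex.mul_re, Complex.mul_im,
    Complex.conj_re, Complex.conj_im, Complex.normSq_apply]
  constructor <;> field_simp <;> ring

lemma ae_ne : ∀ᵐ x ∂(volume.restrict (Metric.ball (0 : E2) 1)), x ≠ 0 := by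
  apply ae_restrict_of_ae
  exact Set.Countable.ae_notMem (Set.countable_singleton (0 : E2)) volume


/-- The negation of the preceding statement: For all n≥2, k, open connected Ω⊆ℝⁿ, and linear elliptic systems with a locally Lipschitz a.e. solution u whose a.e. Jacobian equals a nonvanishing J: if A,B,c,J are C^{k,1} then u is C^{k+1,1}, and if A,B,c,J are C^{k+1} then u is C^{k+2}. -/
theorem result :
    ¬ (∀ (n : ℕ), 2 ≤ n → ∀ (k : ℕ) (Ω : Set (EuclideanSpace ℝ (Fin n))), IsOpen Ω → IsConnected Ω →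
  ∀ (A : Fin n → Fin n → Fin n → EuclideanSpace ℝ (Fin n) → ℝ)
    (B : Fin n → Fin n → EuclideanSpace ℝ (Fin n) → ℝ)
    (c : Fin n → EuclideanSpace ℝ (Fin n) → ℝ)
    (u : Fin n → EuclideanSpace ℝ (Fin n) → ℝ)
    (J : EuclideanSpace ℝ (Fin n) → ℝ),
  (∀ x ∈ Ω, ∀ ξ : Fin n → ℝ, ξ ≠ 0 →
      (Matrix.of fun i l => ∑ j, ξ j * A j i l x).det ≠ 0) →
  (∀ i, ∀ x ∈ Ω, ∃ C : NNReal, ∃ U ∈ nhds x, LipschitzOnWith C (u i) (U ∩ Ω)) →
  (∀ᵐ x ∂(volume.restrict Ω), ∀ i,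
      ∑ j, ∑ l, A j i l x * fderiv ℝ (u l) x (EuclideanSpace.single j 1)
        + ∑ l, B i l x * u l x = c i x) →
  (∀ x ∈ Ω, J x ≠ 0) →
  (∀ᵐ x ∂(volume.restrict Ω),
      (Matrix.of fun i j => fderiv ℝ (u i) x (EuclideanSpace.single j 1)).det = J x) →
  (((∀ j i l, ContDiffOn ℝ k (A j i l) Ω ∧ ∀ x ∈ Ω, ∃ C : NNReal, ∃ U ∈ nhds x,
        LipschitzOnWith C (iteratedFDeriv ℝ k (A j i l)) (U ∩ Ω)) ∧
    (∀ i l, ContDiffOn ℝ k (B i l) Ω ∧ ∀ x ∈ Ω, ∃ C : NNReal, ∃ U ∈ nhds x,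
        LipschitzOnWith C (iteratedFDeriv ℝ k (B i l)) (U ∩ Ω)) ∧
    (∀ i, ContDiffOn ℝ k (c i) Ω ∧ ∀ x ∈ Ω, ∃ C : NNReal, ∃ U ∈ nhds x,
        LipschitzOnWith C (iteratedFDeriv ℝ k (c i)) (U ∩ Ω)) ∧
    (ContDiffOn ℝ k J Ω ∧ ∀ x ∈ Ω, ∃ C : NNReal, ∃ U ∈ nhds x,
        LipschitzOnWith C (iteratedFDeriv ℝ k J) (U ∩ Ω)) →
    ∀ i, ContDiffOn ℝ (k + 1) (u i) Ω ∧ ∀ x ∈ Ω, ∃ C : NNReal, ∃ U ∈ nhds x,
        LipschitzOnWith C (iteratedFDeriv ℝ (k + 1) (u i)) (U ∩ Ω)) ∧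
   ((∀ j i l, ContDiffOn ℝ (k + 1) (A j i l) Ω) ∧
    (∀ i l, ContDiffOn ℝ (k + 1) (B i l) Ω) ∧
    (∀ i, ContDiffOn ℝ (k + 1) (c i) Ω) ∧
    ContDiffOn ℝ (k + 1) J Ω →
    ∀ i, ContDiffOn ℝ (k + 2) (u i) Ω))) := by
  intro H
  have key := (H 2 le_rfl 0 (Metric.ball 0 1) Metric.isOpen_ball
    (Metric.isConnected_ball (by norm_num)) AA (fun _ _ _ => 0) cc uu JJ
    (by
      intro x _ ξ hξ
      rw [Matrix.det_fin_two]
      simp [AA, Fin.sum_univ_two]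
      intro h
      apply hξ
      ext i
      fin_cases i <;> simp <;> nlinarith [sq_nonneg (ξ 0), sq_nonneg (ξ 1)])
    (by
      intro i x _
      obtain ⟨C, hC⟩ := uu_lip i
      exact ⟨C, Set.univ, Filter.univ_mem, by rwa [Set.univ_inter]⟩)
    (by
      filter_upwards [ae_ne] with x hx i
      obtain ⟨a, b, c, d⟩ := uu_der hx
      obtain ⟨e, f⟩ := G_re_im hx
      have hr : x 0 ^ 2 + x 1 ^ 2 ≠ 0 := by
        rw [nsq]; exact pow_ne_zero _ (norm_ne_zero_iff.mpr hx)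
      fin_cases i
      · simp only [Fin.sum_univ_two, a, b, c, d, AA, cc]
        simp [e]; field_simp; ring
      · simp only [Fin.sum_univ_two, a, b, c, d, AA, cc]
        simp [f]; field_simp; ring)
    (fun x hx => JJ_ne (mem_ball_zero_iff.mp hx).le)
    (by
      filter_upwards [ae_ne] with x hx
      obtain ⟨a, b, c, d⟩ := uu_der hx
      obtain ⟨e, f⟩ := G_re_im hx
      have hr : x 0 ^ 2 + x 1 ^ 2 ≠ 0 := by
        rw [nsq]; exact pow_ne_zero _ (norm_ne_zero_iff.mpr hx)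
      rw [Matrix.det_fin_two]
      simp only [Matrix.of_apply, a, b, c, d]
      have e1 : kk ‖x‖ = (x 0 ^ 2 + x 1 ^ 2) * (2 * Real.log (x 0 ^ 2 + x 1 ^ 2) + 1) ^ 2 := by
        rw [lg, nsq]; unfold kk; ring
      unfold JJ
      rw [e1, Complex.sq_norm, Complex.normSq_apply]
      simp [e, f]
      field_simp
      ring)).1
    ⟨fun j i l => pack (C := 0) (LipschitzWith.const _).lipschitzOnWith,
      fun i l => pack (C := 0) (LipschitzWith.const _).lipschitzOnWith,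
      fun i => pack (cc_lip i).choose_spec, pack JJ_lip.choose_spec⟩
  obtain ⟨C, U, hU, hC⟩ := (key 0).2 0 (by simp)
  obtain ⟨ε, hε, hb⟩ := Metric.mem_nhds_iff.mp
    (Filter.inter_mem hU (Metric.ball_mem_nhds (0 : E2) one_pos))
  have hev : ∀ᶠ t : ℝ in nhdsWithin 0 (Set.Ioi 0), Real.log t < -((C : ℝ) + 20) :=
    Real.tendsto_log_nhdsGT_zero.eventually (Filter.eventually_lt_atBot _)
  have hev2 : ∀ᶠ t : ℝ in nhdsWithin 0 (Set.Ioi 0), t ∈ Set.Ioo 0 (ε / 2) :=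
    Ioo_mem_nhdsGT (by linarith)
  obtain ⟨t, ht, ht0, ht1⟩ := (hev.and hev2).exists
  have hm : ∀ s : ℝ, 0 < s → s < ε → (EuclideanSpace.single 0 s : E2) ∈ U ∩ Metric.ball 0 1 := by
    intro s h0 h1
    apply hb
    simp [abs_of_pos h0, h1]
  have hne : ∀ s : ℝ, 0 < s → (EuclideanSpace.single 0 s : E2) ≠ 0 := by
    intro s h0 h
    have := congrArg (fun v : E2 => v 0) h
    simp at this; linarith
  have h1 := hC.dist_le_mul _ (hm (2 * t) (by linarith) (by linarith)) _ (hm t ht0 (by linarith))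
  have h2 : dist (EuclideanSpace.single 0 (2 * t) : E2) (EuclideanSpace.single 0 t) = t := by
    rw [EuclideanSpace.dist_single_same, Real.dist_eq, abs_of_pos (by linarith)]; ring
  rw [h2, dist_eq_norm] at h1
  have h3 := (iteratedFDeriv ℝ (0 + 1) (uu 0) (EuclideanSpace.single 0 (2 * t))
    - iteratedFDeriv ℝ (0 + 1) (uu 0) (EuclideanSpace.single 0 t)).le_opNorm
      (fun _ => EuclideanSpace.single 0 1)
  have h4 : ∀ s : ℝ, 0 < s → iteratedFDeriv ℝ (0 + 1) (uu 0) (EuclideanSpace.single 0 s)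
      (fun _ => EuclideanSpace.single 0 1) = 10 + 4 * s * Real.log s + 2 * s := by
    intro s hs
    rw [iteratedFDeriv_one_apply, (uu_der (hne s hs)).1]
    simp
    field_simp
    ring
  rw [ContinuousMultilinearMap.sub_apply, h4 _ (by linarith), h4 _ ht0,
    Real.log_mul (by norm_num) ht0.ne'] at h3
  simp only [EuclideanSpace.norm_single, norm_one, Finset.prod_const_one, mul_one,
    Real.norm_eq_abs] at h3
  have h5 := (abs_le.mp (h3.trans h1)).1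
  have h6 : Real.log 2 < 1 := by linarith [Real.log_two_lt_d9]
  have h7 : (0 : ℝ) ≤ C := C.2
  nlinarith

end Pool.Agent.S04606
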