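import Pool.Statements.S04611
import Pool.Agent.H24.KS2

set_option autoImplicit false
open Pool Pool.MP_4c66eb_an

namespace Pool.Agent.S04611

/-- For real f_0..f_n with f_n nonzero, if all complex zeros of sum f_k z^k are real and negative, then every root of P_n(z) = sum f_k f_{n-k} C(n,k)[(z)_k(z)_{n-k} - (z+1)_k(z-1)_{n-k}] is real and negative; the zero polynomial has no roots. -/
theorem result :
    ∀ (n : ℕ) (f : ℕ → ℝ), f n ≠ 0 →
      (∀ z : ℂ, (∑ k ∈ Finset.range (n + 1), (f k : ℂ) * z ^ k) = 0 →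
          z.im = 0 ∧ z.re < 0) →
      ∀ z ∈ (∑ k ∈ Finset.range (n + 1),
          Polynomial.C (((f k * f (n - k) * (n.choose k : ℝ)) : ℝ) : ℂ) *
            (ascPochhammer ℂ k * ascPochhammer ℂ (n - k) -
              (ascPochhammer ℂ k).comp (Polynomial.X + 1) *
                (ascPochhammer ℂ (n - k)).comp (Polynomial.X - 1))).roots,
        z.im = 0 ∧ z.re < 0 := by
  intro n f hf h z hz
  have hm := Pool.Agent.H24.KS.main n (fun k => (f k : ℂ)) (by exact_mod_cast hf)
    (fun w hw => h w (by rwa [Pool.Agent.H24.KS.pl_eval] at hw))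
  rw [Polynomial.mem_roots'] at hz
  obtain ⟨h0, hz⟩ := hz
  rcases hm with hm | hm
  · refine absurd (Polynomial.funext fun w => ?_) h0
    rw [Polynomial.eval_zero, ← hm w]
    simp [Polynomial.eval_finsetSum, Pool.Agent.H24.KS.po_eval]
  · refine hm z ?_
    rw [← hz.eq_zero]
    simp [Polynomial.eval_finsetSum, Pool.Agent.H24.KS.po_eval]

end Pool.Agent.S04611
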