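import Pool.Statements.S04624

set_option autoImplicit false
open MeasureTheory
open Pool Pool.MP_4d58d7_an

namespace Pool.Agent.S04624

theorem result :
    ¬ (∃ C : ℝ, ∃ c₀ : ℝ, 0 < c₀ ∧
    ∀ (n d p k : ℕ), 0 < n → 0 < d → 0 < p → 0 < k →
    ∀ ε : ℝ, 0 < ε → ε < 1 →
    ∀ (A : Matrix (Fin n) (Fin d) ℝ), A.rank = d →
    ∀ (B : Matrix (Fin n) (Fin p) ℝ),
    ∀ (μ : Measure (Fin n → Fin k → ℝ)) [IsProbabilityMeasure μ],
      (∀ x : Fin n → ℝ, ∫ ω, (∑ j, (∑ i, ω i j * x i) ^ 2) ∂μ = ∑ i, x i ^ 2) →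
      (∀ V : Submodule ℝ (Fin n → ℝ), Module.finrank ℝ V = d →
         ENNReal.ofReal (99 / 100) ≤
           μ {ω | ∀ x ∈ V, (1 - ε) * ∑ i, x i ^ 2 ≤ ∑ j, (∑ i, ω i j * x i) ^ 2}) →
      ENNReal.ofReal c₀ ≤ μ {ω | ∀ G : Matrix (Fin d) (Fin k) ℝ,
          (Matrix.transpose (Matrix.of ω) * A) * G * (Matrix.transpose (Matrix.of ω) * A)
              = Matrix.transpose (Matrix.of ω) * A →
          G * (Matrix.transpose (Matrix.of ω) * A) * G = G →
          Matrix.transpose ((Matrix.transpose (Matrix.of ω) * A) * G)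
              = (Matrix.transpose (Matrix.of ω) * A) * G →
          Matrix.transpose (G * (Matrix.transpose (Matrix.of ω) * A))
              = G * (Matrix.transpose (Matrix.of ω) * A) →
          ∀ X : Matrix (Fin d) (Fin p) ℝ,
            Real.sqrt (∑ i, ∑ j, ((A * (G * Matrix.transpose (Matrix.of ω) * B) - B) i j) ^ 2) ≤
              (1 + C * ε) * Real.sqrt (∑ i, ∑ j, ((A * X - B) i j) ^ 2)}) := by
  rintro ⟨C, c₀, hc, h⟩
  let w1 : Fin 2 → Fin 2 → ℝ := ![![401 / 400, 1 / 400], ![1 / 400, 401 / 400]]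
  let w2 : Fin 2 → Fin 2 → ℝ := ![![1 / 2, -1 / 2], ![-1 / 2, 1 / 2]]
  let μ : Measure (Fin 2 → Fin 2 → ℝ) := ENNReal.ofReal (40000 / 40401) • Measure.dirac w1 +
    ENNReal.ofReal (401 / 40401) • Measure.dirac w2
  have hμ : IsProbabilityMeasure μ := ⟨by
    simp only [μ, Measure.add_apply, Measure.smul_apply, measure_univ, smul_eq_mul, mul_one]
    rw [← ENNReal.ofReal_add (by norm_num) (by norm_num)]
    norm_num⟩
  have hC : 0 < |C| + 1 := by positivity
  have he : C * (1 / 1000000 / (|C| + 1)) ≤ 1 / 1000000 := by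
    rw [← mul_div_assoc, div_le_iff₀ hC]
    linarith [le_abs_self C]
  have he0 : (0 : ℝ) < 1 / 1000000 / (|C| + 1) := by positivity
  have he1 : 1 / 1000000 / (|C| + 1) < 1 := by
    rw [div_lt_iff₀ hC]
    linarith [abs_nonneg C]
  have key := h 2 1 1 2 (by norm_num) (by norm_num) (by norm_num) (by norm_num) _ he0 he1
    !![1; 0] ?_ !![0; 1] μ ?_ ?_
  · refine absurd key (not_le.2 ?_)
    clear h key
    simp only [μ, Measure.add_apply, Measure.smul_apply, Measure.dirac_apply]
    rw [Set.indicator_of_notMem, Set.indicator_of_notMem]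
    · simpa using hc
    · intro hw
      have h1 := hw !![1, -1] ?_ ?_ ?_ ?_ 0
      · simp only [Matrix.mul_apply, Matrix.sub_apply, Fin.sum_univ_succ, Matrix.transpose_apply,
          Matrix.of_apply, w2, Fin.sum_univ_zero, Matrix.zero_apply] at h1
        norm_num at h1 he
        refine absurd (h1.trans (add_le_add le_rfl he)) (not_le.2 (Real.lt_sqrt_of_sq_lt ?_))
        norm_num
      all_goals
        ext i j
        fin_cases i <;> fin_cases j <;>
          simp only [Matrix.mul_apply, Fin.sum_univ_succ, Matrix.transpose_apply,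
            Matrix.of_apply, w2, Fin.sum_univ_zero] <;> norm_num
    · intro hw
      have h1 := hw !![401 * 400 / 160802, 400 / 160802] ?_ ?_ ?_ ?_ 0
      · simp only [Matrix.mul_apply, Matrix.sub_apply, Fin.sum_univ_succ, Matrix.transpose_apply,
          Matrix.of_apply, w1, Fin.sum_univ_zero, Matrix.zero_apply] at h1
        have h2 : √((802 / 160802) ^ 2 + 1) ≤ 1 + C * (1 / 1000000 / (|C| + 1)) := by
          convert h1 using 1
          · congr 1
            norm_num
          · norm_num
        refine absurd (h2.trans (add_le_add le_rfl he)) (not_le.2 (Real.lt_sqrt_of_sq_lt ?_))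
        norm_num
      all_goals
        ext i j
        fin_cases i <;> fin_cases j <;>
          simp only [Matrix.mul_apply, Fin.sum_univ_succ, Matrix.transpose_apply,
            Matrix.of_apply, w1, Fin.sum_univ_zero] <;> norm_num
  · refine le_antisymm (Matrix.rank_le_width _) (Nat.one_le_iff_ne_zero.2 fun h0 => ?_)
    have h1 := Matrix.rank_mul_le_right (!![1, 0] : Matrix (Fin 1) (Fin 2) ℝ)
      (!![1; 0] : Matrix (Fin 2) (Fin 1) ℝ)
    rw [h0, show (!![1, 0] : Matrix (Fin 1) (Fin 2) ℝ) * (!![1; 0] : Matrix (Fin 2) (Fin 1) ℝ) = 1 by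
      ext i j
      fin_cases i
      fin_cases j
      simp [Matrix.mul_apply], Matrix.rank_one] at h1
    simp at h1
  · intro x
    simp only [μ]
    rw [integral_add_measure, integral_smul_measure, integral_smul_measure, integral_dirac,
      integral_dirac, ENNReal.toReal_ofReal (by norm_num), ENNReal.toReal_ofReal (by norm_num)]
    · simp [w1, w2, Fin.sum_univ_succ]
      ring
    · exact (integrable_dirac (by simp)).smul_measure ENNReal.ofReal_ne_top
    · exact (integrable_dirac (by simp)).smul_measure ENNReal.ofReal_ne_top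
  · intro V _
    simp only [μ, Measure.add_apply, Measure.smul_apply, Measure.dirac_apply]
    rw [Set.indicator_of_mem]
    · refine le_trans ?_ le_self_add
      simp only [Pi.one_apply, smul_eq_mul, mul_one]
      exact ENNReal.ofReal_le_ofReal (by norm_num)
    · intro x _
      simp [w1, Fin.sum_univ_succ]
      nlinarith [sq_nonneg (x 0 + x 1), mul_nonneg he0.le (add_nonneg (sq_nonneg (x 0)) (sq_nonneg (x 1)))]

end Pool.Agent.S04624
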