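import Pool.Statements.S04674
import Pool.Agent.H12.Lemn

set_option autoImplicit false
open Pool Pool.MP_51da40_an

namespace Pool.Agent.S04674


/-- The negation of the preceding statement: For every c>0 and ε>0, for all large n, every monic complex polynomial of degree n has at most εn connected components of {∣f∣≤1} with diameter greater than 1+c. -/
theorem result :
    ¬ (∀ c : ℝ, 0 < c → ∀ ε : ℝ, 0 < ε → ∃ N : ℕ, ∀ n : ℕ, N ≤ n →
      ∀ f : Polynomial ℂ, f.Monic → f.natDegree = n →
        ∀ s : Finset (Set ℂ),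
          (∀ C ∈ s, (∃ z : ℂ, ‖f.eval z‖ ≤ 1 ∧
              connectedComponentIn {w : ℂ | ‖f.eval w‖ ≤ 1} z = C) ∧
            1 + c < Metric.diam C) →
          (s.card : ℝ) ≤ ε * (n : ℝ)) := by
  intro H
  obtain ⟨N, hN⟩ := H (1 / 100) (by norm_num) (1 / 4200) (by norm_num)
  obtain ⟨n, hn, f, h1, h2, s, h3, h4⟩ := Pool.Agent.H12.Lemn.main N
  exact absurd (hN n hn f h1 h2 s h3) (not_le.2 h4)

end Pool.Agent.S04674
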