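import Pool.Statements.S04676
import Pool.Agent.H15.Circles

set_option autoImplicit false
open Pool Pool.MP_529e31_an

namespace Pool.Agent.S04676

theorem result :
    ¬ (∀ ρ : ℝ, 0 < ρ → ∀ S : Set ℂ,
      (∀ f : ℂ → ℂ, Differentiable ℂ f →
        (∃ A B : ℝ, 0 < A ∧ 0 < B ∧ ∀ z : ℂ, ‖f z‖ ≤ B * Real.exp (A * ‖z‖ ^ ρ)) →
        (Bornology.IsBounded (f '' S) ↔ Bornology.IsBounded (Set.range f))) →
      ∀ k : ℂ → ℝ, Continuous k → (∀ z : ℂ, 0 < k z) →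
        (∀ A : ℝ, 0 < A →
          Asymptotics.IsLittleO (Filter.cocompact ℂ) (fun z : ℂ => Real.exp (A * ‖z‖ ^ ρ)) k) →
        ∃ k' : ℂ → ℝ, Continuous k' ∧ (∀ z : ℂ, 0 < k' z) ∧
          (∀ A : ℝ, 0 < A →
            Asymptotics.IsLittleO (Filter.cocompact ℂ) (fun z : ℂ => Real.exp (A * ‖z‖ ^ ρ)) k') ∧
          ∃ C : ℝ, 0 < C ∧
            ∀ f : ℂ → ℂ, Differentiable ℂ f →
              (∃ A B : ℝ, 0 < A ∧ 0 < B ∧ ∀ z : ℂ, ‖f z‖ ≤ B * Real.exp (A * ‖z‖ ^ ρ)) →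
              (∀ z ∈ S, ‖f z‖ ≤ k' z) → ∀ z : ℂ, ‖f z‖ ≤ C * k z) := by
  intro H
  obtain ⟨k', hc, hp, ho, C, hC, hb⟩ := H 1 one_pos Pool.Agent.H15.Circles.S
    (fun f hf _ => ⟨Pool.Agent.H15.Circles.bdd f hf,
      fun h => h.subset (Set.image_subset_range _ _)⟩)
    (fun z => Real.exp (‖z‖ ^ 2)) (by fun_prop) (fun z => Real.exp_pos _)
    (fun A _ => Pool.Agent.H15.Circles.little A)
  obtain ⟨c, hc0, hck⟩ := Pool.Agent.H15.Circles.lower k' hc hp (ho 1 one_pos)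
  obtain ⟨n, hn⟩ := exists_nat_gt (C / c)
  have h1 := hb _ (Pool.Agent.H15.Circles.ff_diff c n) (Pool.Agent.H15.Circles.ff_type c hc0 n)
    (fun z hz => (Pool.Agent.H15.Circles.ff_on_S c hc0 n z hz).trans (hck z))
    ((2 * Pool.Agent.H15.Circles.R n : ℕ) : ℂ)
  have h2 := Pool.Agent.H15.Circles.ff_big c hc0 n
  rw [div_lt_iff₀ hc0] at hn
  have h3 := Real.exp_pos (‖((2 * Pool.Agent.H15.Circles.R n : ℕ) : ℂ)‖ ^ 2)
  nlinarith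

end Pool.Agent.S04676
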