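import Pool.Statements.S04677
import Pool.Agent.H14.Comp

set_option autoImplicit false
open Pool Pool.MP_52d740_an

namespace Pool.Agent.S04677

open Pool.Agent.H14.Comp in
theorem result :
    ∃ (k : ℕ) (X Y : Set (ℤ → ℕ)) (π : (ℤ → ℕ) → (ℤ → ℕ)),
      X.Nonempty ∧ IsClosed X ∧ (∀ x : ℤ → ℕ, x ∈ X ↔ (fun m : ℤ => x (m + 1)) ∈ X) ∧
      (∀ x ∈ X, ∀ i : ℤ, x i < k) ∧
      Y.Nonempty ∧ IsClosed Y ∧ (∀ y : ℤ → ℕ, y ∈ Y ↔ (fun m : ℤ => y (m + 1)) ∈ Y) ∧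
      (∀ y ∈ Y, ∀ i : ℤ, y i < k) ∧
      ContinuousOn π X ∧ Set.MapsTo π X Y ∧ Set.SurjOn π X Y ∧
      (∀ x ∈ X, π (fun m : ℤ => x (m + 1)) = (fun m : ℤ => π x (m + 1))) ∧
      ¬ ∃ F : (ℤ → ℕ) → ℝ, ContinuousOn F X ∧
        ∀ φ : (ℤ → ℕ) → ℝ, ContinuousOn φ Y →
          ∃ L : ℝ,
          Filter.Tendsto (fun n : ℕ => Real.log (∑ w : Fin n → Fin k,
            sSup ((fun x : ℤ → ℕ => Real.exp (∑ j ∈ Finset.range n,
              φ ((fun (z : ℤ → ℕ) (m : ℤ) => z (m + 1))^[j] x))) ''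
              {x : ℤ → ℕ | x ∈ Y ∧ ∀ i : Fin n, x ((i : ℕ) : ℤ) = ((w i : ℕ))})) / (n : ℝ))
            Filter.atTop (nhds L) ∧
          Filter.Tendsto (fun n : ℕ => Real.log (∑ w : Fin n → Fin k,
            sSup ((fun x : ℤ → ℕ => Real.exp (∑ j ∈ Finset.range n,
              (φ (π ((fun (z : ℤ → ℕ) (m : ℤ) => z (m + 1))^[j] x))
                + F ((fun (z : ℤ → ℕ) (m : ℤ) => z (m + 1))^[j] x)))) ''
              {x : ℤ → ℕ | x ∈ X ∧ ∀ i : Fin n, x ((i : ℕ) : ℤ) = ((w i : ℕ))})) / (n : ℝ))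
            Filter.atTop (nhds L) := by
  have hs : ∀ x : ℤ → ℕ, x = sh (-1) (sh 1 x) := fun x => funext fun i => by simp [sh]
  refine ⟨4, XS Set.univ, pr '' XS Set.univ, pr, ⟨_, p_mem 0 0⟩, XS_closed _,
    fun x => ⟨fun h => XS_sh h 1, fun h => ?_⟩, fun x hx => XS_lt hx,
    ⟨_, Set.mem_image_of_mem _ (p_mem 0 0)⟩, ((XS_compact _).image pr_cont).isClosed,
    fun y => ⟨?_, ?_⟩, ?_, pr_cont.continuousOn, Set.mapsTo_image _ _, Set.surjOn_image _ _,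
    fun x _ => rfl, ?_⟩
  · rw [hs x]
    exact XS_sh h (-1)
  · rintro ⟨x, hx, rfl⟩
    exact ⟨_, XS_sh hx 1, rfl⟩
  · rintro ⟨x, hx, h⟩
    refine ⟨_, XS_sh hx (-1), ?_⟩
    rw [← pr_sh, h]
    exact (hs y).symm
  · rintro _ ⟨x, -, rfl⟩
    exact pr_lt x
  · rintro ⟨F, hF, h⟩
    simp only [iter] at h
    exact main hF h

end Pool.Agent.S04677
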