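import Pool.Statements.S04718
import Pool.Agent.H9.RL1

set_option autoImplicit false
open Pool Pool.MP_565a2b_an

namespace Pool.Agent.S04718

/-- The negation of the preceding statement: Over ℝ and over ℂ: if a Banach space X is, up to isometry, the only Banach space whose dual is isometric to X*, then the numerical index of X* equals the numerical index of X. -/
theorem result :
    ¬ ((∀ (X : Type) [NormedAddCommGroup X] [NormedSpace ℝ X] [CompleteSpace X],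
      (∀ (Z : Type) [NormedAddCommGroup Z] [NormedSpace ℝ Z] [CompleteSpace Z],
        Nonempty ((Z →L[ℝ] ℝ) ≃ₗᵢ[ℝ] (X →L[ℝ] ℝ)) → Nonempty (Z ≃ₗᵢ[ℝ] X)) →
      sInf {s : ℝ | ∃ T : (X →L[ℝ] ℝ) →L[ℝ] (X →L[ℝ] ℝ), ‖T‖ = 1 ∧
          s = sSup {r : ℝ | ∃ (x : X →L[ℝ] ℝ) (f : (X →L[ℝ] ℝ) →L[ℝ] ℝ),
            ‖x‖ = 1 ∧ ‖f‖ = 1 ∧ f x = 1 ∧ r = ‖f (T x)‖}}
        = sInf {s : ℝ | ∃ T : X →L[ℝ] X, ‖T‖ = 1 ∧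
          s = sSup {r : ℝ | ∃ (x : X) (f : X →L[ℝ] ℝ),
            ‖x‖ = 1 ∧ ‖f‖ = 1 ∧ f x = 1 ∧ r = ‖f (T x)‖}}) ∧
    (∀ (X : Type) [NormedAddCommGroup X] [NormedSpace ℂ X] [CompleteSpace X],
      (∀ (Z : Type) [NormedAddCommGroup Z] [NormedSpace ℂ Z] [CompleteSpace Z],
        Nonempty ((Z →L[ℂ] ℂ) ≃ₗᵢ[ℂ] (X →L[ℂ] ℂ)) → Nonempty (Z ≃ₗᵢ[ℂ] X)) →
      sInf {s : ℝ | ∃ T : (X →L[ℂ] ℂ) →L[ℂ] (X →L[ℂ] ℂ), ‖T‖ = 1 ∧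
          s = sSup {r : ℝ | ∃ (x : X →L[ℂ] ℂ) (f : (X →L[ℂ] ℂ) →L[ℂ] ℂ),
            ‖x‖ = 1 ∧ ‖f‖ = 1 ∧ f x = 1 ∧ r = ‖f (T x)‖}}
        = sInf {s : ℝ | ∃ T : X →L[ℂ] X, ‖T‖ = 1 ∧
          s = sSup {r : ℝ | ∃ (x : X) (f : X →L[ℂ] ℂ),
            ‖x‖ = 1 ∧ ‖f‖ = 1 ∧ f x = 1 ∧ r = ‖f (T x)‖}})) := by
  rintro ⟨h, -⟩
  obtain ⟨T, a, b⟩ := H9.RL.upY
  have h1 := (h H9.RL.X fun Z _ _ _ ⟨Φ⟩ => H9.RL.uniq H9.RL.E Z Φ).symm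
  refine absurd (le_trans (a := (1 / 74 : ℝ)) (c := 1 / 100) ?_ (h1.trans_le (le_trans ?_ b)))
    (by norm_num)
  · exact le_csInf ⟨_, _, ContinuousLinearMap.norm_id, rfl⟩
      fun _ ⟨_, c, e⟩ => (H9.RL.lowZ (.refl _ _) c).trans_eq e.symm
  · exact csInf_le ⟨0, fun _ ⟨_, _, e⟩ => e ▸ Real.sSup_nonneg fun _ ⟨_, _, _, _, _, e⟩ =>
      (norm_nonneg _).trans_eq e.symm⟩ ⟨T, a, rfl⟩

end Pool.Agent.S04718
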