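import Pool.Statements.S04719
-- import your own Pool.Agent.* helpers here

set_option autoImplicit false
open Pool Pool.MP_565f87_an

namespace Pool.Agent.S04719

open Set

section
variable {M A : Type} (orb : M → Set M) (τ : (M → A) → (M → A))

def Inj (j : ℕ) : Prop := ∀ x x' : M → A,
  (∀ m, (orb m).ncard ≤ j → τ x m = τ x' m) → ∀ m, (orb m).ncard ≤ j → x m = x' m

def Surj (j : ℕ) : Prop := ∀ y : M → A, ∃ x, ∀ m, (orb m).ncard ≤ j → τ x m = y m

variable {orb τ}

lemma layer [Finite A] (hfin : ∀ m, (orb m).Finite) (hself : ∀ m, m ∈ orb m)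
    (hsub : ∀ m, ∀ m' ∈ orb m, orb m' ⊆ orb m)
    (hloc : ∀ x x' m, (∀ m' ∈ orb m, x m' = x' m') → τ x m = τ x' m) {j : ℕ}
    (hI : Inj orb τ (j + 1)) (x0 y : M → A) :
    ∃ x, (∀ m, (orb m).ncard ≤ j → x m = x0 m) ∧ ∀ m, (orb m).ncard = j + 1 → τ x m = y m := by
  classical
  have key : ∀ O : Set M, ∃ x : M → A, (∀ m, orb m ≠ O → x m = x0 m) ∧
      (O.ncard = j + 1 → ∀ m, orb m = O → τ x m = y m) := by
    intro O
    by_cases hO : O.ncard = j + 1
    swap
    · exact ⟨x0, fun _ _ => rfl, fun h => absurd h hO⟩
    have hOf : O.Finite := finite_of_ncard_pos (by omega)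
    have : Finite {m // orb m = O} := by
      refine Finite.subset hOf (s := O) (t := {m | orb m = O}) ?_
      intro m hm
      rw [← show orb m = O from hm]
      exact hself m
    let upd : ({m // orb m = O} → A) → M → A := fun z m => if h : orb m = O then z ⟨m, h⟩ else x0 m
    let F : ({m // orb m = O} → A) → ({m // orb m = O} → A) := fun z m => τ (upd z) m.1
    have hF : Function.Injective F := by
      intro z z' hz
      have h1 := hI (upd z) (upd z') (by
        intro m hm
        by_cases h : orb m = O
        · exact congrFun hz ⟨m, h⟩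
        · apply hloc
          intro m' hm'
          have : orb m' ≠ O := by
            intro h'
            apply h
            rw [← h']
            exact (eq_of_subset_of_ncard_le (hsub m m' hm') (by rw [h', hO]; exact hm)
              (hfin m)).symm
          simp [upd, this])
      funext m
      have := h1 m.1 (by rw [m.2, hO])
      simpa [upd, m.2] using this
    obtain ⟨z, hz⟩ := Finite.surjective_of_injective hF (fun m => y m.1)
    exact ⟨upd z, fun m hm => by simp [upd, hm], fun _ m hm => congrFun hz ⟨m, hm⟩⟩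
  choose X hX1 hX2 using key
  refine ⟨fun m => if (orb m).ncard ≤ j then x0 m else X (orb m) m, fun m hm => by simp [hm], ?_⟩
  intro m hm
  rw [← hX2 (orb m) hm m rfl]
  apply hloc
  intro m' hm'
  by_cases h : orb m' = orb m
  · simp [h, hm]
  · have h1 : (orb m').ncard ≤ j := by
      have := ncard_lt_ncard (ssubset_of_ne_of_subset h (hsub m m' hm')) (hfin m)
      omega
    simp [h1, hX1 (orb m) m' h]

theorem surj_of_inj [Finite A] [Nonempty A] (hfin : ∀ m, (orb m).Finite) (hself : ∀ m, m ∈ orb m)
    (hsub : ∀ m, ∀ m' ∈ orb m, orb m' ⊆ orb m)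
    (hloc : ∀ x x' m, (∀ m' ∈ orb m, x m' = x' m') → τ x m = τ x' m) (N : ℕ)
    (hI : Inj orb τ N) : Surj orb τ N := by
  have hdep : ∀ j x x', (∀ m, (orb m).ncard ≤ j → x m = x' m) →
      ∀ m, (orb m).ncard ≤ j → τ x m = τ x' m := fun j x x' h m hm =>
    hloc x x' m fun m' hm' => h m' ((ncard_le_ncard (hsub m m' hm') (hfin m)).trans hm)
  induction N with
  | zero =>
    intro y
    refine ⟨y, fun m hm => ?_⟩
    have := (ncard_pos (hfin m)).2 ⟨m, hself m⟩
    omega
  | succ j ih =>
    have hIj : Inj orb τ j := by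
      intro x x' h m hm
      obtain ⟨x'', h1, h2⟩ := layer hfin hself hsub hloc hI x' (τ x)
      rw [← h1 m hm]
      refine hI x x'' (fun n hn => ?_) m (by omega)
      rcases Nat.lt_or_ge j (orb n).ncard with h3 | h3
      · exact (h2 n (by omega)).symm
      · rw [h n h3]; exact (hdep j x'' x' h1 n h3).symm
    intro y
    obtain ⟨x0, h0⟩ := ih hIj y
    obtain ⟨x, h1, h2⟩ := layer hfin hself hsub hloc hI x0 y
    refine ⟨x, fun n hn => ?_⟩
    rcases Nat.lt_or_ge j (orb n).ncard with h3 | h3
    · exact h2 n (by omega)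
    · rw [← h0 n h3]; exact hdep j x x0 h1 n h3

end

/-- For every monoid whose finitely generated submonoids are all finite, every injective cellular automaton over a finite alphabet (finite memory set, local rule applied to shifted configurations) is surjective. -/
theorem result :
    ∀ (M : Type) [Monoid M],
      (∀ s : Finset M, (Submonoid.closure (s : Set M) : Set M).Finite) →
      ∀ (k : ℕ) (τ : (M → Fin k) → (M → Fin k)),
        (∃ S : Finset M, ∃ μ : ({a : M // a ∈ S} → Fin k) → Fin k,
          ∀ (x : M → Fin k) (m : M), τ x m = μ (fun s => x (m * s.1))) →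
        Function.Injective τ → Function.Surjective τ := by
  rintro M _ hM k τ ⟨S, μ, hτ⟩ hinj y
  have hL := hM S
  let orb : M → Set M := fun m => (fun l => m * l) '' (Submonoid.closure (S : Set M) : Set M)
  have hle : ∀ m, (orb m).ncard ≤ (Submonoid.closure (S : Set M) : Set M).ncard :=
    fun m => ncard_image_le hL
  have : Nonempty (Fin k) := ⟨y 1⟩
  obtain ⟨x, hx⟩ := surj_of_inj (orb := orb) (τ := τ) (fun m => hL.image _)
    (fun m => ⟨1, Submonoid.one_mem _, mul_one m⟩)
    (by
      rintro m _ ⟨l, hl, rfl⟩ _ ⟨l', hl', rfl⟩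
      exact ⟨l * l', Submonoid.mul_mem _ hl hl', (mul_assoc _ _ _).symm⟩)
    (by
      intro x x' m h
      rw [hτ, hτ]
      congr 1
      funext s
      exact h _ ⟨s.1, Submonoid.subset_closure s.2, rfl⟩) _
    (by
      intro x x' h m _
      rw [hinj (funext fun n => h n (hle n))]) y
  exact ⟨x, funext fun m => hx m (hle m)⟩

end Pool.Agent.S04719
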