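import Pool.Statements.S04722
import Pool.Agent.H22.LW

set_option autoImplicit false
open MeasureTheory Real ComplexConjugate
open Pool Pool.MP_5691a6_an

namespace Pool.Agent.S04722

noncomputable def phi : EuclideanSpace ℝ (Fin 2) ≃ᵐ ℝ × ℝ :=
  (MeasurableEquiv.toLp 2 (Fin 2 → ℝ)).symm.trans MeasurableEquiv.finTwoArrow

lemma phi_mp : MeasurePreserving phi :=
  (EuclideanSpace.volume_preserving_symm_measurableEquiv_toLp (Fin 2)).trans
    (volume_preserving_finTwoArrow ℝ)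

lemma phi_apply (x : EuclideanSpace ℝ (Fin 2)) : phi x = (x 0, x 1) := rfl

open Pool.Agent.H22.LW in
lemma G_eq {t s : EuclideanSpace ℝ (Fin 2)} {j k l m : ℤ} (h1 : t 0 = j) (h2 : t 1 = (2 * k : ℤ))
    (h3 : s 0 = l / 2) (h4 : s 1 = m) (x : EuclideanSpace ℝ (Fin 2)) :
    g (phi (x - t)) * Complex.exp (2 * π * Complex.I * ((@inner ℝ _ _ s x : ℝ) : ℂ)) =
      G j k l m (phi x) := by
  have : (@inner ℝ _ _ s x : ℝ) = l / 2 * x 0 + m * x 1 := by
    simp only [PiLp.inner_apply, Fin.sum_univ_two, h3, h4]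
    simp [mul_comm]
  simp only [G, e, phi_apply, this, PiLp.sub_apply, h1, h2]


/-- The negation of the preceding statement: If the Gabor system of a compactly supported L2 function g with translations T and frequencies S is an orthonormal basis of L2(R^d), then ∣g∣ is a normalized indicator of some Ω, Ω tiles by T, and exponentials over S form an orthogonal basis of L2(Ω). -/
theorem result :
    ¬ (∀ (d : ℕ), 0 < d →
    ∀ (g : EuclideanSpace ℝ (Fin d) → ℂ) (T S : Set (EuclideanSpace ℝ (Fin d))),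
      MemLp g 2 volume → HasCompactSupport g →
      (∀ t₁ ∈ T, ∀ s₁ ∈ S, ∀ t₂ ∈ T, ∀ s₂ ∈ S, (t₁ ≠ t₂ ∨ s₁ ≠ s₂) →
        ∫ x, (g (x - t₁) * Complex.exp (2 * π * Complex.I * ((@inner ℝ _ _ s₁ x : ℝ) : ℂ))) *
          conj (g (x - t₂) * Complex.exp (2 * π * Complex.I * ((@inner ℝ _ _ s₂ x : ℝ) : ℂ))) = 0) →
      (∀ t ∈ T, ∀ s ∈ S,
        ∫ x, (g (x - t) * Complex.exp (2 * π * Complex.I * ((@inner ℝ _ _ s x : ℝ) : ℂ))) *
          conj (g (x - t) * Complex.exp (2 * π * Complex.I * ((@inner ℝ _ _ s x : ℝ) : ℂ))) = 1) →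
      (∀ f : EuclideanSpace ℝ (Fin d) → ℂ, MemLp f 2 volume →
        (∀ t ∈ T, ∀ s ∈ S,
          ∫ x, f x * conj (g (x - t) * Complex.exp (2 * π * Complex.I * ((@inner ℝ _ _ s x : ℝ) : ℂ))) = 0) →
        f =ᵐ[volume] 0) →
      ∃ Ω : Set (EuclideanSpace ℝ (Fin d)),
        MeasurableSet Ω ∧ 0 < volume Ω ∧ volume Ω < ⊤ ∧
        (∀ᵐ x ∂volume, ‖g x‖ = (volume Ω).toReal ^ (-(1 / 2 : ℝ)) * Ω.indicator (fun _ => (1 : ℝ)) x) ∧
        (∀ᵐ x ∂volume, ∃! l, l ∈ T ∧ x - l ∈ Ω) ∧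
        (∀ l ∈ S, ∀ m ∈ S, l ≠ m →
          ∫ x in Ω, Complex.exp (2 * π * Complex.I * ((@inner ℝ _ _ l x : ℝ) : ℂ)) *
            conj (Complex.exp (2 * π * Complex.I * ((@inner ℝ _ _ m x : ℝ) : ℂ))) = 0) ∧
        (∀ f : EuclideanSpace ℝ (Fin d) → ℂ, MemLp f 2 (volume.restrict Ω) →
          (∀ l ∈ S, ∫ x in Ω, f x * conj (Complex.exp (2 * π * Complex.I * ((@inner ℝ _ _ l x : ℝ) : ℂ))) = 0) →
          f =ᵐ[volume.restrict Ω] 0)) := by
  intro H
  open Pool.Agent.H22.LW in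
  obtain ⟨Ω, -, -, -, h, -⟩ := H 2 two_pos (fun x => g (phi x))
    {t | ∃ j k : ℤ, t 0 = j ∧ t 1 = (2 * k : ℤ)} {s | ∃ l m : ℤ, s 0 = l / 2 ∧ s 1 = m}
    (by
      have := (G_mem 0 0 0 0).comp_measurePreserving phi_mp
      have e1 : (fun x => g (phi x)) = G 0 0 0 0 ∘ phi := by
        ext x; simp [G, e]
      rwa [e1])
    (by
      refine HasCompactSupport.intro (isCompact_closedBall (0 : EuclideanSpace ℝ (Fin 2)) 3)
        fun x hx => g_out ?_
      by_contra h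
      simp only [not_or, not_not, Set.mem_Ioc, phi_apply] at h
      apply hx
      rw [mem_closedBall_zero_iff, EuclideanSpace.norm_eq]
      refine Real.sqrt_le_iff.mpr ⟨by norm_num, ?_⟩
      simp only [Fin.sum_univ_two, Real.norm_eq_abs, sq_abs]
      nlinarith [h.1.1, h.1.2, h.2.1, h.2.2])
    (by
      rintro t ⟨j, k, h1, h2⟩ s ⟨l, m, h3, h4⟩ t' ⟨j', k', h1', h2'⟩ s' ⟨l', m', h3', h4'⟩ hne
      simp only [G_eq h1 h2 h3 h4, G_eq h1' h2' h3' h4']
      rw [phi_mp.integral_comp' (fun p => G j k l m p * conj (G j' k' l' m' p)), orth, if_neg]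
      rintro ⟨rfl, rfl, rfl, rfl⟩
      rcases hne with h | h <;> apply h <;> ext i <;> fin_cases i <;> simp [*])
    (by
      rintro t ⟨j, k, h1, h2⟩ s ⟨l, m, h3, h4⟩
      simp only [G_eq h1 h2 h3 h4]
      rw [phi_mp.integral_comp' (fun p => G j k l m p * conj (G j k l m p)), orth]
      simp)
    (by
      intro f hf h
      have h5 := complete (hf.comp_measurePreserving phi_mp.symm) fun j k l m => by
        have := h (phi.symm (j, (2 * k : ℤ))) ⟨j, k, rfl, rfl⟩ (phi.symm (l / 2, m))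
          ⟨l, m, rfl, rfl⟩
        simp only [G_eq (t := phi.symm (j, (2 * k : ℤ))) (s := phi.symm (l / 2, m))
          (j := j) (k := k) (l := l) (m := m) rfl rfl rfl rfl] at this
        rw [← phi_mp.integral_comp', ← this]
        simp
      filter_upwards [phi_mp.quasiMeasurePreserving.ae h5] with x hx
      simpa using hx)
  have hd := Measure.dense_of_ae h
  have key : ∀ n : ℤ, ∃ x : EuclideanSpace ℝ (Fin 2), ⌈x 0⌉ = n + 1 ∧ ⌈x 1⌉ = 1 ∧
      (‖Pool.Agent.H22.LW.g (phi x)‖ = 0 ∨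
        ‖Pool.Agent.H22.LW.g (phi x)‖ = (volume Ω).toReal ^ (-(1 / 2 : ℝ))) := by
    intro n
    obtain ⟨x, hx, hx'⟩ := hd.inter_open_nonempty
      {x : EuclideanSpace ℝ (Fin 2) | x 0 ∈ Set.Ioo (n : ℝ) (n + 1) ∧ x 1 ∈ Set.Ioo (0 : ℝ) 1}
      ((isOpen_Ioo.preimage (by fun_prop)).inter (isOpen_Ioo.preimage (by fun_prop)))
      ⟨phi.symm (n + 1 / 2, 1 / 2), show (n : ℝ) + 1 / 2 ∈ Set.Ioo _ _ from
        ⟨by linarith, by linarith⟩, show (1 / 2 : ℝ) ∈ Set.Ioo _ _ from ⟨by linarith, by linarith⟩⟩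
    refine ⟨x, (Pool.Agent.H22.LW.ceil_iff n _).mpr ⟨hx.1.1, hx.1.2.le⟩,
      Int.ceil_eq_iff.mpr ⟨by simpa using hx.2.1, by simpa using hx.2.2.le⟩, ?_⟩
    simp only [Set.mem_ofPred_eq, Set.indicator] at hx'
    split_ifs at hx'
    · right; simpa using hx'
    · left; simpa using hx'
  obtain ⟨x, x0, x1, hx⟩ := key 0
  obtain ⟨y, y0, y1, hy⟩ := key 1
  open Pool.Agent.H22.LW in
  simp only [g, A, B, ch, phi_apply, x0, x1, y0, y1, Complex.norm_real] at hx hy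
  norm_num at hx hy
  linarith

end Pool.Agent.S04722
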