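import Pool.Statements.S04727
import Pool.Agent.H17.CW2

set_option autoImplicit false
open Pool Pool.MP_577a3c26_an

namespace Pool.Agent.S04727

/-- The real continuous functions on the Hilbert cube with the pointwise-convergence topology are not homeomorphic to the Banach space C([0,1]^ω) with its weak topology. -/
theorem result :
    IsEmpty ({f : (ℕ → unitInterval) → ℝ // Continuous f} ≃ₜ
      WeakSpace ℝ C(ℕ → unitInterval, ℝ)) := by
  have : Infinite (ℕ → unitInterval) := Pi.infinite_of_left
  exact ⟨fun h => Pool.Agent.H17.CW.CKw h⟩

end Pool.Agent.S04727
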