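import Pool.Statements.S04734
import Pool.Agent.H13.Hill1

set_option autoImplicit false
open Pool Pool.MP_5876d3_an

namespace Pool.Agent.S04734

open Set Filter Topology MeasureTheory intervalIntegral Complex Pool.Agent.H13.Hill

noncomputable def τ (σ : ℂ) (x : ℝ) : ℂ := exp (σ * I * x)

theorem τ_ne (σ : ℂ) (x : ℝ) : τ σ x ≠ 0 := exp_ne_zero _

theorem τ_der (σ : ℂ) (x : ℝ) : HasDerivAt (τ σ) (τ σ x * (σ * I)) x := by
  have : HasDerivAt (fun x : ℝ => σ * I * x) (σ * I) x := by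
    simpa using (Complex.ofRealCLM.hasDerivAt (x := x)).const_mul (σ * I)
  exact this.cexp

theorem τ_norm {σ : ℂ} (h : σ = 1 ∨ σ = -1) (x : ℝ) : ‖τ σ x‖ = 1 := by
  rcases h with rfl | rfl <;> simp [τ, norm_exp]

theorem τ_per {σ : ℂ} (h : σ = 1 ∨ σ = -1) : Function.Periodic (τ σ) (2 * Real.pi) := by
  intro x
  unfold τ
  push_cast
  rcases h with rfl | rfl
  · rw [mul_add, exp_add, show 1 * I * (2 * Real.pi) = 2 * Real.pi * I by ring, exp_two_pi_mul_I, mul_one]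
  · rw [mul_add, exp_add, show -1 * I * (2 * Real.pi) = -(2 * Real.pi * I) by ring, exp_neg,
      exp_two_pi_mul_I, inv_one, mul_one]

theorem slit {σ : ℂ} (h : σ = 1 ∨ σ = -1) {c : ℝ} (hc : |c| < 1) (x : ℝ) : 1 + c * τ σ x ∈ slitPlane :=
  mem_slitPlane_of_norm_lt_one (by rw [norm_mul, τ_norm h, mul_one, norm_real]; exact hc)

theorem J {σ : ℂ} (h : σ = 1 ∨ σ = -1) {c : ℝ} (hc : |c| < 1) (A B C D : ℂ) :
    ∫ x in (0 : ℝ)..2 * Real.pi, (A * τ σ x + B + C / τ σ x + D / (1 + c * τ σ x)) =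
      2 * Real.pi * (B + D) := by
  have hs : σ ^ 2 = 1 := by rcases h with rfl | rfl <;> simp
  have hτ : Continuous (τ σ) := continuous_iff_continuousAt.2 fun x => (τ_der σ x).continuousAt
  have hne : ∀ x, 1 + c * τ σ x ≠ 0 := fun x => slitPlane_ne_zero (slit h hc x)
  rw [integral_eq_sub_of_hasDerivAt (f := fun x : ℝ => -I * σ * A * τ σ x + (B + D) * x +
    I * σ * C * (τ σ x)⁻¹ + I * σ * D * log (1 + c * τ σ x))]
  · have := τ_per h 0
    rw [zero_add] at this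
    rw [this]
    push_cast
    ring
  · intro x _
    refine (((((τ_der σ x).const_mul _).fun_add ((Complex.ofRealCLM.hasDerivAt (x := x)).const_mul _)).fun_add
      (((τ_der σ x).fun_inv (τ_ne σ x)).const_mul _)).fun_add
      (((((τ_der σ x).const_mul (c : ℂ)).const_add 1).clog_real (slit h hc x)).const_mul _)).congr_deriv ?_
    have := hne x
    have : 1 + τ σ x * c ≠ 0 := by rwa [mul_comm]
    have := τ_ne σ x
    simp only [ofRealCLM_apply, ofReal_one]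
    field_simp
    have hI : I ^ 2 = -1 := I_sq
    rw [hs, hI]
    ring
  · refine Continuous.intervalIntegrable ?_ _ _
    exact (((hτ.const_mul _).add continuous_const).add (continuous_const.div hτ (τ_ne σ))).add
      (continuous_const.div (by fun_prop) hne)

noncomputable def a : ℝ := √(√5 - 2)

theorem a_facts : 0 < a ∧ a < 1 ∧ a ^ 4 + 4 * a ^ 2 = 1 := by
  have h5 : √5 ^ 2 = (5 : ℝ) := Real.sq_sqrt (by norm_num)
  have h0 : (0 : ℝ) ≤ √5 := Real.sqrt_nonneg _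
  have h1 : (2 : ℝ) < √5 := by nlinarith
  have h2 : √5 < (3 : ℝ) := by nlinarith
  have h3 : a ^ 2 = √5 - 2 := Real.sq_sqrt (by linarith)
  have h4 : 0 < a := Real.sqrt_pos.2 (by linarith)
  refine ⟨h4, by nlinarith, ?_⟩
  rw [show a ^ 4 = (a ^ 2) ^ 2 by ring, h3]
  nlinarith

noncomputable def t (x : ℝ) : ℂ := τ 1 x
noncomputable def ρ (x : ℝ) : ℂ := 1 - a ^ 2 + a * (t x - (t x)⁻¹)
noncomputable def ρ1 (x : ℝ) : ℂ := I * a * (t x + (t x)⁻¹)
noncomputable def ρ2 (x : ℝ) : ℂ := -a * (t x - (t x)⁻¹)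
noncomputable def r (x : ℝ) : ℂ := exp (log (ρ x) / 2)
noncomputable def p (x : ℝ) : ℂ := r x * ((t x - a) / (1 + a * t x))
noncomputable def m (x : ℝ) : ℂ := r x * ((1 + a * t x) / (t x - a))
noncomputable def dp (x : ℝ) : ℂ := p x * ((ρ1 x / 2 + I * (1 + a ^ 2)) / ρ x)
noncomputable def dm (x : ℝ) : ℂ := m x * ((ρ1 x / 2 - I * (1 + a ^ 2)) / ρ x)
noncomputable def q (x : ℝ) : ℂ := ρ2 x / (2 * ρ x) - ρ1 x ^ 2 / (4 * ρ x ^ 2) - (1 + a ^ 2) ^ 2 / ρ x ^ 2

theorem t_ne (x : ℝ) : t x ≠ 0 := τ_ne _ _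
theorem t_inv (x : ℝ) : τ (-1) x = (t x)⁻¹ := by simp [t, τ, exp_neg]
theorem t_der (x : ℝ) : HasDerivAt t (t x * I) x := (τ_der 1 x).congr_deriv (by simp [t])
theorem t_per (x : ℝ) : t (x + 2 * Real.pi) = t x := τ_per (Or.inl rfl) x
theorem ha : |a| < 1 := by rw [abs_of_pos a_facts.1]; exact a_facts.2.1
theorem n1 (x : ℝ) : 1 + a * t x ≠ 0 := slitPlane_ne_zero (slit (Or.inl rfl) ha x)
theorem n1' (x : ℝ) : 1 + t x * a ≠ 0 := by rw [mul_comm]; exact n1 x
theorem n3 (x : ℝ) : 1 + (-a : ℝ) * τ (-1) x ≠ 0 :=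
  slitPlane_ne_zero (slit (Or.inr rfl) (by simpa using ha) x)
theorem n2 (x : ℝ) : t x - a ≠ 0 := by
  have := n3 x
  have h := t_ne x
  rw [t_inv] at this
  intro h0
  apply this
  push_cast
  field_simp
  linear_combination h0
theorem ρ_eq (x : ℝ) : ρ x = (t x - a) * (1 + a * t x) / t x := by
  have := t_ne x
  unfold ρ; field_simp; ring
theorem ρ_slit (x : ℝ) : ρ x ∈ slitPlane := by
  left
  have : ρ x = ((1 - a ^ 2 : ℝ) : ℂ) + ((2 * a * Real.sin x : ℝ) : ℂ) * I := by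
    rw [ρ, ← t_inv]
    simp only [t, τ]
    rw [show 1 * I * (x : ℂ) = x * I by ring, show -1 * I * (x : ℂ) = (-x) * I by ring, exp_mul_I,
      exp_mul_I, cos_neg, sin_neg]
    push_cast; ring
  rw [this]
  simp only [add_re, ofReal_re, mul_re, I_re, mul_zero, ofReal_im, I_im, zero_mul, sub_zero, add_zero]
  nlinarith [a_facts.1, a_facts.2.1]
theorem ρ_ne (x : ℝ) : ρ x ≠ 0 := slitPlane_ne_zero (ρ_slit x)
theorem ti_der (x : ℝ) : HasDerivAt (fun x => (t x)⁻¹) (-(t x)⁻¹ * I) x := by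
  refine ((t_der x).fun_inv (t_ne x)).congr_deriv ?_
  have := t_ne x
  field_simp
theorem ρ_der (x : ℝ) : HasDerivAt ρ (ρ1 x) x :=
  ((((t_der x).fun_sub (ti_der x)).const_mul (a : ℂ)).const_add (1 - (a : ℂ) ^ 2)).congr_deriv (by unfold ρ1; ring)
theorem ρ1_der (x : ℝ) : HasDerivAt ρ1 (ρ2 x) x :=
  (((t_der x).fun_add (ti_der x)).const_mul (I * a)).congr_deriv (by
    unfold ρ2; linear_combination (a * (t x - (t x)⁻¹)) * I_sq)
theorem r_sq (x : ℝ) : r x * r x = ρ x := by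
  unfold r; rw [← exp_add, add_halves, exp_log (ρ_ne x)]
theorem r_ne (x : ℝ) : r x ≠ 0 := exp_ne_zero _
theorem r_der (x : ℝ) : HasDerivAt r (r x * (ρ1 x / ρ x / 2)) x :=
  (((ρ_der x).clog_real (ρ_slit x)).div_const 2).cexp

theorem p_der (x : ℝ) : HasDerivAt p (dp x) x := by
  refine ((r_der x).fun_mul (((t_der x).sub_const (a : ℂ)).fun_div
    (((t_der x).const_mul (a : ℂ)).const_add 1) (n1 x))).congr_deriv ?_
  have := n1 x; have := n1' x; have := n2 x; have := t_ne x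
  simp only [dp, p, ρ_eq]
  field_simp
  ring

theorem m_der (x : ℝ) : HasDerivAt m (dm x) x := by
  refine ((r_der x).fun_mul ((((t_der x).const_mul (a : ℂ)).const_add 1).fun_div
    ((t_der x).sub_const (a : ℂ)) (n2 x))).congr_deriv ?_
  have := n1 x; have := n1' x; have := n2 x; have := t_ne x
  simp only [dm, m, ρ_eq]
  field_simp
  ring

theorem dp_der (x : ℝ) : HasDerivAt dp (q x * p x) x := by
  refine ((p_der x).fun_mul ((((ρ1_der x).div_const 2).add_const _).fun_div (ρ_der x)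
    (ρ_ne x))).congr_deriv ?_
  have := ρ_ne x
  simp only [dp, q]
  field_simp
  linear_combination (16 * p x * (1 + (a : ℂ) ^ 2) ^ 2) * I_sq

theorem dm_der (x : ℝ) : HasDerivAt dm (q x * m x) x := by
  refine ((m_der x).fun_mul ((((ρ1_der x).div_const 2).sub_const _).fun_div (ρ_der x)
    (ρ_ne x))).congr_deriv ?_
  have := ρ_ne x
  simp only [dm, q]
  field_simp
  linear_combination (16 * m x * (1 + (a : ℂ) ^ 2) ^ 2) * I_sq

theorem pm (x : ℝ) : p x * m x = ρ x := by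
  have := n1 x; have := n1' x; have := n2 x
  rw [← r_sq]; unfold p m; field_simp

theorem q_cont : Continuous q := by
  have h1 : Continuous t := continuous_iff_continuousAt.2 fun x => (t_der x).continuousAt
  have h2 : Continuous ρ := continuous_iff_continuousAt.2 fun x => (ρ_der x).continuousAt
  have h3 : Continuous ρ1 := continuous_iff_continuousAt.2 fun x => (ρ1_der x).continuousAt
  have h4 : Continuous ρ2 := continuous_const.mul (h1.sub (h1.inv₀ t_ne))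
  exact ((h4.div (by fun_prop) fun x => by simp [ρ_ne x]).sub
    ((h3.pow 2).div (by fun_prop) fun x => by simp [ρ_ne x])).sub
    (continuous_const.div (by fun_prop) fun x => by simp [ρ_ne x])

theorem ha0 : (a : ℂ) ≠ 0 := by exact_mod_cast a_facts.1.ne'
theorem ha4 : (a : ℂ) ^ 4 + 4 * a ^ 2 = 1 := by exact_mod_cast a_facts.2.2

theorem sol (x₀ : ℝ) (α β : ℂ) :
    ∃ y dy : ℂ → ℝ → ℂ, (∀ w, y w x₀ = α ∧ dy w x₀ = β ∧ ∀ x, HasDerivAt (y w) (dy w x) x ∧
      HasDerivAt (dy w) ((q x - w) * y w x) x) ∧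
      ∃ r dr : ℂ → ℂ, AnalyticAt ℂ r 0 ∧ AnalyticAt ℂ dr 0 ∧
        r 0 = 2 * Real.pi * (1 - a ^ 2) / (-2 * I * (1 + a ^ 2)) ^ 2 *
          (α * (dm x₀ - dp x₀) + β * (p x₀ - m x₀)) * (p x₀ - m x₀) ∧
        dr 0 = 2 * Real.pi * (1 - a ^ 2) / (-2 * I * (1 + a ^ 2)) ^ 2 *
          (α * (dm x₀ - dp x₀) + β * (p x₀ - m x₀)) * (dp x₀ - dm x₀) ∧
        ∀ w, y w (x₀ + 2 * Real.pi) = α + w * r w ∧ dy w (x₀ + 2 * Real.pi) = β + w * dr w := by
  refine hill Real.two_pi_pos p_der m_der dp_der dm_der q_cont (fun x => ?_) ?_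
    (fun x => by simp only [p, r, ρ, t_per]) (fun x => by simp only [m, r, ρ, t_per])
    (fun x => by simp only [dp, p, r, ρ, ρ1, t_per]) (fun x => by simp only [dm, m, r, ρ, ρ1, t_per])
    ?_ ?_ ?_ x₀ α β
  · have := ρ_ne x
    have h := pm x
    simp only [dp, dm]
    field_simp
    linear_combination (-4 * I * (1 + (a : ℂ) ^ 2)) * h
  · refine mul_ne_zero (by simp) ?_
    exact_mod_cast (by positivity : (1 + a ^ 2 : ℝ) ≠ 0)
  · have := J (Or.inl rfl) ha (1 / a) (-3 - 1 / a ^ 2) (-a ^ 3) ((1 + a ^ 2) ^ 3 / a ^ 2)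
    refine Eq.trans (integral_congr fun x _ => ?_) (this.trans ?_)
    · have := n1 x; have := n1' x; have := t_ne x; have := ha0
      show p x * p x = 1 / a * t x + _ + _ / t x + _ / (1 + a * t x)
      rw [show p x * p x = r x * r x * ((t x - a) / (1 + a * t x)) ^ 2 by unfold p; ring, r_sq, ρ_eq]
      field_simp
      ring
    · have := ha0
      congr 1
      field_simp
      linear_combination (a : ℂ) ^ 2 * ha4
  · have := J (Or.inl rfl) ha a (1 - a ^ 2) (-a) 0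
    refine Eq.trans (integral_congr fun x _ => ?_) (this.trans (by ring))
    show p x * m x = a * t x + _ + _ / t x + _
    rw [pm, ρ]; ring
  · have := J (Or.inr rfl) (c := -a) (by simpa using ha) (-1 / a) (-3 - 1 / a ^ 2) (a ^ 3)
      ((1 + a ^ 2) ^ 3 / a ^ 2)
    refine Eq.trans (integral_congr fun x _ => ?_) (this.trans ?_)
    · have := n2 x; have := t_ne x; have := ha0
      simp only [t_inv]
      rw [show m x * m x = r x * r x * ((1 + a * t x) / (t x - a)) ^ 2 by unfold m; ring, r_sq, ρ_eq,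
        show 1 + ((-a : ℝ) : ℂ) * (t x)⁻¹ = (t x - a) / t x by push_cast; field_simp; ring]
      field_simp
      ring
    · have := ha0
      congr 1
      field_simp
      linear_combination (a : ℂ) ^ 2 * ha4

theorem t0 : t 0 = 1 := by simp [t, τ]

theorem A_ne : p 0 - m 0 ≠ 0 := by
  have h1 := n1 0
  have h2 := n2 0
  have h3 := r_ne 0
  have := ha0
  rw [t0] at h1 h2
  have : p 0 - m 0 = -4 * a * r 0 / ((1 + a * 1) * (1 - a)) := by
    simp only [p, m, t0]; field_simp; ring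
  rw [this]
  exact div_ne_zero (by simp [*]) (mul_ne_zero h1 h2)

theorem B_ne : dp 0 - dm 0 ≠ 0 := by
  have h1 := n1 0
  have h2 := n2 0
  have h3 := r_ne 0
  have h4 := ρ_ne 0
  rw [t0] at h1 h2
  have : dp 0 - dm 0 = 2 * I * (1 + a ^ 4) * r 0 / ((1 + a * 1) * (1 - a) * ρ 0) := by
    simp only [dp, dm, p, m, ρ1, t0]; field_simp; ring
  rw [this]
  refine div_ne_zero (mul_ne_zero (mul_ne_zero (by simp) ?_) h3) (mul_ne_zero (mul_ne_zero h1 h2) h4)
  exact_mod_cast (by positivity : (1 + a ^ 4 : ℝ) ≠ 0)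

theorem K_ne : (2 * Real.pi * (1 - a ^ 2) / (-2 * I * (1 + a ^ 2)) ^ 2 : ℂ) ≠ 0 := by
  refine div_ne_zero (mul_ne_zero (by simp) ?_) (pow_ne_zero _ (mul_ne_zero (by simp) ?_))
  · exact_mod_cast (by nlinarith [a_facts.1, a_facts.2.1] : (1 - a ^ 2 : ℝ) ≠ 0)
  · exact_mod_cast (by positivity : (1 + a ^ 2 : ℝ) ≠ 0)

theorem ord_ge {f g : ℂ → ℂ} (hg : AnalyticAt ℂ g 0) (n : ℕ) (h : ∀ w, f w = w ^ n * g w) :
    n ≤ analyticOrderAt f 0 := by
  have : f = fun w => w ^ n * g w := funext h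
  exact (natCast_le_analyticOrderAt (by rw [this]; fun_prop)).2 ⟨g, hg, by simp [h]⟩

theorem ord_eq {f g : ℂ → ℂ} (hg : AnalyticAt ℂ g 0) (h0 : g 0 ≠ 0) (h : ∀ w, f w = w * g w) :
    analyticOrderAt f 0 = (1 : ℕ) := by
  have : f = fun w => w * g w := funext h
  exact (AnalyticAt.analyticOrderAt_eq_natCast (by rw [this]; fun_prop)).2 ⟨g, hg, h0, by simp [h]⟩

/-- The negation of the preceding statement: For any locally integrable complex a-periodic q, if the zero order of (tr M)^2-4 at z exceeds the sum of the minimal (over base points in [0,a]) Dirichlet and Neumann zero orders at z, then that sum is 0. -/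
theorem result :
    ¬ (∀ (a : ℝ), 0 < a → ∀ q : ℝ → ℂ, Function.Periodic q a →
    MeasureTheory.LocallyIntegrable q MeasureTheory.volume →
    ∀ c dc s ds : ℝ → ℂ → ℝ → ℂ,
    (∀ (x₀ : ℝ) (z : ℂ), Continuous (c x₀ z) ∧ Continuous (dc x₀ z) ∧
      Continuous (s x₀ z) ∧ Continuous (ds x₀ z) ∧
      ∀ x : ℝ,
        (c x₀ z x = 1 + ∫ t in x₀..x, dc x₀ z t) ∧
        (dc x₀ z x = ∫ t in x₀..x, (q t - z) * c x₀ z t) ∧
        (s x₀ z x = ∫ t in x₀..x, ds x₀ z t) ∧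
        (ds x₀ z x = 1 + ∫ t in x₀..x, (q t - z) * s x₀ z t)) →
    ∀ z : ℂ,
      (⨅ x₀ ∈ Set.Icc (0 : ℝ) a, analyticOrderAt (fun w : ℂ => s x₀ w (x₀ + a)) z) +
        (⨅ x₀ ∈ Set.Icc (0 : ℝ) a, analyticOrderAt (fun w : ℂ => dc x₀ w (x₀ + a)) z)
        < analyticOrderAt (fun w : ℂ => (c 0 w a + ds 0 w a) ^ 2 - 4) z →
      (⨅ x₀ ∈ Set.Icc (0 : ℝ) a, analyticOrderAt (fun w : ℂ => s x₀ w (x₀ + a)) z) +
        (⨅ x₀ ∈ Set.Icc (0 : ℝ) a, analyticOrderAt (fun w : ℂ => dc x₀ w (x₀ + a)) z) = 0) := by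
  intro h
  choose c dc hc cr cdr c1 c2 c3 c4 c5 using fun x₀ => sol x₀ 1 0
  choose s ds hs sr sdr s1 s2 s3 s4 s5 using fun x₀ => sol x₀ 0 1
  have cont : ∀ {f g : ℝ → ℂ}, (∀ x, HasDerivAt f (g x) x) → Continuous f := fun h =>
    continuous_iff_continuousAt.2 fun x => (h x).continuousAt
  have ftc : ∀ {f g : ℝ → ℂ}, (∀ x, HasDerivAt f (g x) x) → Continuous g → ∀ x₀ x,
      ∫ t in x₀..x, g t = f x - f x₀ := fun h hg x₀ x =>
    integral_eq_sub_of_hasDerivAt (fun x _ => h x) (hg.intervalIntegrable _ _)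
  have h0 : (0 : ℝ) ∈ Icc 0 (2 * Real.pi) := ⟨le_rfl, Real.two_pi_pos.le⟩
  have hp : (⨅ x₀ ∈ Icc (0 : ℝ) (2 * Real.pi),
      analyticOrderAt (fun w : ℂ => s x₀ w (x₀ + 2 * Real.pi)) 0) = (1 : ℕ) := by
    refine le_antisymm (iInf₂_le_of_le 0 h0 (ord_eq (s1 0) ?_ fun w => by rw [(s5 0 w).1, zero_add]).le)
      (le_iInf₂ fun x₀ _ => ord_ge (s1 x₀) 1 fun w => by simp [(s5 x₀ w).1])
    rw [s3]
    exact mul_ne_zero (mul_ne_zero K_ne (by simpa using A_ne)) A_ne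
  have hr : (⨅ x₀ ∈ Icc (0 : ℝ) (2 * Real.pi),
      analyticOrderAt (fun w : ℂ => dc x₀ w (x₀ + 2 * Real.pi)) 0) ≤ (1 : ℕ) := by
    refine iInf₂_le_of_le 0 h0 (ord_eq (c2 0) ?_ fun w => by rw [(c5 0 w).2, zero_add]).le
    rw [c4]
    refine mul_ne_zero (mul_ne_zero K_ne ?_) B_ne
    have := B_ne
    intro h'
    apply this
    linear_combination -h'
  have hd : ((3 : ℕ) : ℕ∞) ≤ analyticOrderAt
      (fun w : ℂ => (c 0 w (2 * Real.pi) + ds 0 w (2 * Real.pi)) ^ 2 - 4) 0 := by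
    have hW : ∀ w, c 0 w (2 * Real.pi) * ds 0 w (2 * Real.pi) -
        dc 0 w (2 * Real.pi) * s 0 w (2 * Real.pi) = 1 := by
      intro w
      have hd : ∀ x, HasDerivAt (fun x => c 0 w x * ds 0 w x - dc 0 w x * s 0 w x) 0 x := fun x =>
        (((((hc 0 w).2.2 x).1.fun_mul ((hs 0 w).2.2 x).2)).fun_sub
          (((hc 0 w).2.2 x).2.fun_mul ((hs 0 w).2.2 x).1)).congr_deriv (by ring)
      have := is_const_of_deriv_eq_zero (fun x => (hd x).differentiableAt) (fun x => (hd x).deriv)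
        (2 * Real.pi) 0
      rw [this, (hc 0 w).1, (hc 0 w).2.1, (hs 0 w).2.1]
      simp
    have an : AnalyticAt ℂ (fun w => (cr 0 w - sdr 0 w) ^ 2 + 4 * sr 0 w * cdr 0 w) 0 := by
      have := c1 0; have := c2 0; have := s1 0; have := s2 0
      fun_prop
    obtain ⟨g, hg, hg'⟩ := (natCast_le_analyticOrderAt an (n := 1)).1 (by
      rw [Nat.cast_one, ENat.one_le_iff_ne_zero, an.analyticOrderAt_ne_zero, c3, c4, s3, s4]
      ring)
    have e : ∀ w, (c 0 w (2 * Real.pi) + ds 0 w (2 * Real.pi)) ^ 2 - 4 =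
        w ^ 2 * ((cr 0 w - sdr 0 w) ^ 2 + 4 * sr 0 w * cdr 0 w) := by
      intro w
      have h1 := hW w
      have a1 := (c5 0 w).1
      have a2 := (c5 0 w).2
      have a3 := (s5 0 w).1
      have a4 := (s5 0 w).2
      rw [zero_add] at a1 a2 a3 a4
      rw [a1, a2, a3, a4] at h1
      rw [a1, a4]
      linear_combination 4 * h1
    simp only [e]
    refine (natCast_le_analyticOrderAt (by fun_prop)).2 ⟨g, hg, hg'.mono fun w hw => ?_⟩
    rw [hw]; simp; ring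
  have := h (2 * Real.pi) Real.two_pi_pos q (fun x => by simp only [q, ρ, ρ1, ρ2, t_per])
    q_cont.locallyIntegrable c dc s ds (fun x₀ z => by
      have k1 := cont fun x => ((hc x₀ z).2.2 x).1
      have k2 := cont fun x => ((hc x₀ z).2.2 x).2
      have k3 := cont fun x => ((hs x₀ z).2.2 x).1
      have k4 := cont fun x => ((hs x₀ z).2.2 x).2
      have := q_cont
      refine ⟨k1, k2, k3, k4, fun x => ?_⟩
      rw [ftc (fun x => ((hc x₀ z).2.2 x).1) k2, ftc (fun x => ((hc x₀ z).2.2 x).2) (by fun_prop),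
        ftc (fun x => ((hs x₀ z).2.2 x).1) k4, ftc (fun x => ((hs x₀ z).2.2 x).2) (by fun_prop),
        (hc x₀ z).1, (hc x₀ z).2.1, (hs x₀ z).1, (hs x₀ z).2.1]
      simp) 0 (by
      rw [hp]
      refine lt_of_le_of_lt (add_le_add_right hr _) (lt_of_lt_of_le ?_ hd)
      norm_num)
  rw [hp] at this
  simp at this

end Pool.Agent.S04734
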