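import Pool.Statements.S04738
import Pool.Agent.H15.Wedge

set_option autoImplicit false
open scoped Topology
open Pool Pool.MP_5915c0_an

namespace Pool.Agent.S04738

theorem result :
    ¬ (∀ (n d N : ℕ) (z : Fin n → ℂ) (U : Set (Fin n → ℂ)) (ρ : (Fin n → ℂ) → (Fin d → ℝ))
    (Γ : Set (Fin d → ℝ)) (p : (Fin n → ℂ) → EuclideanSpace ℂ (Fin N)) (q : (Fin n → ℂ) → ℂ)
    (g : (Fin n → ℂ) → EuclideanSpace ℂ (Fin N)),
    IsOpen U → z ∈ U → AnalyticOnNhd ℝ ρ U → ρ z = 0 →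
    Function.Surjective (fderiv ℝ ρ z) →
    (∀ v : Fin n → ℂ, ∃ a b : Fin n → ℂ,
      fderiv ℝ ρ z a = 0 ∧ fderiv ℝ ρ z b = 0 ∧ v = a + Complex.I • b) →
    IsOpen Γ → Convex ℝ Γ → Γ.Nonempty → (0 : Fin d → ℝ) ∉ Γ →
    (∀ x ∈ Γ, ∀ t : ℝ, 0 < t → t • x ∈ Γ) →
    AnalyticOnNhd ℂ p U → AnalyticOnNhd ℂ q U → ¬ (∀ᶠ w in 𝓝 z, q w = 0) →
    AnalyticOnNhd ℂ g {w | w ∈ U ∧ ρ w ∈ Γ} →
    (∀ w ∈ U, ρ w ∈ Γ → q w • g w = p w) →
    (∀ w ∈ U, ρ w ∈ Γ → ‖g w‖ < 1) →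
    (∀ m ∈ U, ρ m = 0 →
      Filter.Tendsto (fun w => ‖g w‖) (𝓝[{w | w ∈ U ∧ ρ w ∈ Γ}] m) (𝓝 1)) →
    ∃ V ∈ 𝓝 z, ∃ F : (Fin n → ℂ) → EuclideanSpace ℂ (Fin N),
      AnalyticOnNhd ℂ F V ∧ ∀ w ∈ V, w ∈ U → ρ w ∈ Γ → F w = g w) := by
  intro H
  have key := H 2 2 2 0 Set.univ Pool.Agent.H15.Wedge.rho Pool.Agent.H15.Wedge.Gam
    Pool.Agent.H15.Wedge.pp Pool.Agent.H15.Wedge.qq Pool.Agent.H15.Wedge.gg isOpen_univ trivial
    (fun w _ => Pool.Agent.H15.Wedge.rho.analyticAt w) (map_zero _) ?_ ?_ ?_ ?_ ?_ ?_ ?_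
    (fun w _ => Pool.Agent.H15.Wedge.an_pp w) (fun w _ => Pool.Agent.H15.Wedge.an_qq w) ?_
    (fun w hw => Pool.Agent.H15.Wedge.an_gg w (Pool.Agent.H15.Wedge.qq_ne w hw.2.1 hw.2.2))
    ?_ (fun w _ hw => Pool.Agent.H15.Wedge.norm_gg_lt w hw.1 hw.2)
    (fun m _ hm => Pool.Agent.H15.Wedge.tends m (congrFun hm 0) (congrFun hm 1))
  · obtain ⟨V, hV, F, hF, hFg⟩ := key
    exact Pool.Agent.H15.Wedge.no_ext V hV F hF (fun w hw hg => hFg w hw trivial hg)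
  · rw [ContinuousLinearMap.fderiv]
    intro x
    exact ⟨fun j => (x j : ℂ) * Complex.I, by funext j; simp⟩
  · intro v
    rw [ContinuousLinearMap.fderiv]
    refine ⟨fun j => ((v j).re : ℂ), fun j => ((v j).im : ℂ), by funext j; simp,
      by funext j; simp, ?_⟩
    funext j
    simp only [Pi.add_apply, Pi.smul_apply, smul_eq_mul]
    rw [mul_comm, Complex.re_add_im]
  · exact (isOpen_lt continuous_const (continuous_apply 0)).inter
      (isOpen_lt continuous_const (continuous_apply 1))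
  · intro x hx y hy a b ha hb hab
    have h1 := hx.1
    have h2 := hx.2
    have h3 := hy.1
    have h4 := hy.2
    rcases ha.eq_or_lt with h | h
    · subst h
      have : b = 1 := by linarith
      subst this
      simpa using hy
    · constructor
      · simp only [Pi.add_apply, Pi.smul_apply, smul_eq_mul]; positivity
      · simp only [Pi.add_apply, Pi.smul_apply, smul_eq_mul]; positivity
  · exact ⟨fun _ => 1, one_pos, one_pos⟩
  · intro h; exact lt_irrefl _ h.1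
  · intro x hx t ht
    exact ⟨mul_pos ht hx.1, mul_pos ht hx.2⟩
  · intro h
    have c : Continuous fun x : ℝ => (fun _ : Fin 2 => (x : ℂ)) :=
      continuous_pi fun _ => Complex.continuous_ofReal
    have t := c.tendsto 0
    have e : (fun _ : Fin 2 => ((0 : ℝ) : ℂ)) = 0 := by funext j; simp
    rw [e] at t
    have h2 : ∀ᶠ x : ℝ in 𝓝[>] 0, Pool.Agent.H15.Wedge.qq (fun _ => (x : ℂ)) = 0 :=
      (t.eventually h).filter_mono nhdsWithin_le_nhds
    obtain ⟨x, hx, hx0⟩ := (h2.and self_mem_nhdsWithin).exists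
    refine Pool.Agent.H15.Wedge.real_ne _ (by simp) (by simp) ?_ hx
    intro e
    have := congrFun e 0
    simp at this
    exact absurd this (ne_of_gt hx0)
  · intro w _ hw
    rw [Pool.Agent.H15.Wedge.gg, smul_smul,
      mul_inv_cancel₀ (Pool.Agent.H15.Wedge.qq_ne w hw.1 hw.2), one_smul]

end Pool.Agent.S04738
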