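import Pool.Statements.S04759
-- import your own Pool.Agent.* helpers here

set_option autoImplicit false
open Set
open Pool Pool.MP_5b6163_an

namespace Pool.Agent.S04759

open Classical in
noncomputable def pp (c d : ℤ) : ℤ → Fin 3 := fun i =>
  if ∃ j : ℕ, i = c - j ^ 2 then 1 else if ∃ j : ℕ, i = d + j ^ 2 then 2 else 0

def PP : Set (ℤ → Fin 3) := {x | ∃ c d : ℤ, c < d ∧ x = pp c d}

def sh (a : ℤ) (x : ℤ → Fin 3) : ℤ → Fin 3 := fun i => x (i + a)

lemma sh_cont (a : ℤ) : Continuous (sh a) := continuous_pi fun i => continuous_apply _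

lemma sh_sh (a b : ℤ) (x : ℤ → Fin 3) : sh a (sh b x) = sh (a + b) x := by
  funext i; simp [sh, add_assoc]

lemma sh_zero (x : ℤ → Fin 3) : sh 0 x = x := by funext i; simp [sh]

lemma pp_one (c d i : ℤ) : pp c d i = 1 ↔ ∃ j : ℕ, i = c - j ^ 2 := by
  unfold pp; split_ifs with h1 h2 <;> simp [h1]

lemma pp_two {c d : ℤ} (h : c < d) (i : ℤ) : pp c d i = 2 ↔ ∃ j : ℕ, i = d + j ^ 2 := by
  unfold pp; split_ifs with h1 h2
  · obtain ⟨j, hj⟩ := h1
    constructor
    · intro h; exact absurd h (by decide)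
    · rintro ⟨k, hk⟩; nlinarith [sq_nonneg (j : ℤ), sq_nonneg (k : ℤ)]
  · simp [h2]
  · simp [h2]

open Classical in
lemma sh_pp (a c d : ℤ) : sh a (pp c d) = pp (c - a) (d - a) := by
  funext i
  have h1 : (∃ j : ℕ, i + a = c - j ^ 2) ↔ ∃ j : ℕ, i = c - a - j ^ 2 :=
    exists_congr fun j => by constructor <;> intro h <;> linarith
  have h2 : (∃ j : ℕ, i + a = d + j ^ 2) ↔ ∃ j : ℕ, i = d - a + j ^ 2 :=
    exists_congr fun j => by constructor <;> intro h <;> linarith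
  unfold sh pp
  exact if_congr h1 rfl (if_congr h2 rfl rfl)

lemma sh_mem (a : ℤ) {x : ℤ → Fin 3} (hx : x ∈ closure PP) : sh a x ∈ closure PP := by
  refine map_mem_closure (sh_cont a) hx ?_
  rintro _ ⟨c, d, h, rfl⟩
  exact ⟨c - a, d - a, by linarith, sh_pp a c d⟩

lemma sq_bound {j k : ℕ} {w : ℤ} (hw : 0 < w) (h : (k : ℤ) ^ 2 - j ^ 2 = w) :
    (j : ℤ) ^ 2 ≤ w ^ 2 ∧ (k : ℤ) ^ 2 ≤ w ^ 2 := by
  have hj : (0 : ℤ) ≤ j := Int.natCast_nonneg _
  have hk : (0 : ℤ) ≤ k := Int.natCast_nonneg _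
  have h1 : (j : ℤ) < k := by
    by_contra hc; push Not at hc; nlinarith
  have h2 : (k : ℤ) ≤ w := by nlinarith
  constructor <;> nlinarith

lemma one_bound {c d u v : ℤ} (huv : u < v) (h1 : pp c d u = 1) (h2 : pp c d v = 1) :
    v ≤ c ∧ c ≤ v + (v - u) ^ 2 := by
  obtain ⟨j, hj⟩ := (pp_one _ _ _).1 h1
  obtain ⟨k, hk⟩ := (pp_one _ _ _).1 h2
  have := sq_bound (j := k) (k := j) (w := v - u) (by linarith) (by linarith)
  constructor <;> nlinarith [sq_nonneg (k : ℤ)]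

lemma two_bound {c d u v : ℤ} (hcd : c < d) (huv : u < v) (h1 : pp c d u = 2) (h2 : pp c d v = 2) :
    u - (v - u) ^ 2 ≤ d ∧ d ≤ u := by
  obtain ⟨j, hj⟩ := (pp_two hcd _).1 h1
  obtain ⟨k, hk⟩ := (pp_two hcd _).1 h2
  have := sq_bound (j := j) (k := k) (w := v - u) (by linarith) (by linarith)
  constructor <;> nlinarith [sq_nonneg (j : ℤ)]

lemma cyl_open (u : ℤ) (s : Fin 3) : IsOpen {y : ℤ → Fin 3 | y u = s} :=
  (isOpen_discrete ({s} : Set (Fin 3))).preimage (continuous_apply (A := fun _ : ℤ => Fin 3) u)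

lemma cyl_closed (u : ℤ) (s : Fin 3) : IsClosed {y : ℤ → Fin 3 | y u ≠ s} :=
  (cyl_open u s).isClosed_compl

lemma clos_trick {U C : Set (ℤ → Fin 3)} (hU : IsOpen U) (hC : IsClosed C) (h : U ∩ PP ⊆ C)
    {x : ℤ → Fin 3} (hx : x ∈ closure PP) (hxU : x ∈ U) : x ∈ C :=
  closure_minimal h hC (hU.inter_closure ⟨hxU, hx⟩)

lemma ones_bdd {x : ℤ → Fin 3} (hx : x ∈ closure PP) {u v : ℤ} (huv : u < v) (h1 : x u = 1)
    (h2 : x v = 1) (i : ℤ) (hi : v + (v - u) ^ 2 < i) : x i ≠ 1 := by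
  refine clos_trick ((cyl_open u 1).inter (cyl_open v 1)) (cyl_closed i 1) ?_ hx ⟨h1, h2⟩
  rintro _ ⟨⟨a1, a2⟩, c, d, hcd, rfl⟩ h
  obtain ⟨j, hj⟩ := (pp_one _ _ _).1 h
  have := (one_bound huv a1 a2).2
  nlinarith [sq_nonneg (j : ℤ)]

lemma twos_bdd {x : ℤ → Fin 3} (hx : x ∈ closure PP) {u v : ℤ} (huv : u < v) (h1 : x u = 2)
    (h2 : x v = 2) (i : ℤ) (hi : i < u - (v - u) ^ 2) : x i ≠ 2 := by
  refine clos_trick ((cyl_open u 2).inter (cyl_open v 2)) (cyl_closed i 2) ?_ hx ⟨h1, h2⟩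
  rintro _ ⟨⟨a1, a2⟩, c, d, hcd, rfl⟩ h
  obtain ⟨j, hj⟩ := (pp_two hcd _).1 h
  have := (two_bound hcd huv a1 a2).1
  nlinarith [sq_nonneg (j : ℤ)]

lemma fin3 (s : Fin 3) : s = 0 ∨ s = 1 ∨ s = 2 := by revert s; decide

lemma classify {x : ℤ → Fin 3} (hx : x ∈ closure PP) (hL : ∀ N, ∃ i < N, x i ≠ 0)
    (hR : ∀ N, ∃ i > N, x i ≠ 0) : x ∈ PP := by
  have h1 : ∀ N, ∃ i < N, x i = 1 := by
    by_contra hc
    push Not at hc
    obtain ⟨N0, hN0⟩ := hc
    have h2 : ∀ N, ∃ i < N, x i = 2 := by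
      intro N
      obtain ⟨i, hi, hx⟩ := hL (min N N0)
      refine ⟨i, lt_of_lt_of_le hi (min_le_left _ _), ?_⟩
      have := hN0 i (lt_of_lt_of_le hi (min_le_right _ _))
      rcases fin3 (x i) with h | h | h <;> simp_all
    obtain ⟨v, -, hv⟩ := h2 0
    obtain ⟨u, huv, hu⟩ := h2 v
    obtain ⟨i, hi, hi2⟩ := h2 (u - (v - u) ^ 2)
    exact twos_bdd hx huv hu hv i hi hi2
  have h2 : ∀ N, ∃ i > N, x i = 2 := by
    by_contra hc
    push Not at hc
    obtain ⟨N0, hN0⟩ := hc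
    have h2 : ∀ N, ∃ i > N, x i = 1 := by
      intro N
      obtain ⟨i, hi, hx⟩ := hR (max N N0)
      refine ⟨i, lt_of_le_of_lt (le_max_left _ _) hi, ?_⟩
      have := hN0 i (lt_of_le_of_lt (le_max_right _ _) hi)
      rcases fin3 (x i) with h | h | h <;> simp_all
    obtain ⟨u, -, hu⟩ := h2 0
    obtain ⟨v, huv, hv⟩ := h2 u
    obtain ⟨i, hi, hi2⟩ := h2 (v + (v - u) ^ 2)
    exact ones_bdd hx huv hu hv i hi hi2
  obtain ⟨v, -, hv⟩ := h1 0
  obtain ⟨u, huv, hu⟩ := h1 v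
  obtain ⟨u', -, hu'⟩ := h2 0
  obtain ⟨v', huv', hv'⟩ := h2 u'
  let S : Set (ℤ × ℤ) := (Icc v (v + (v - u) ^ 2) ×ˢ Icc (u' - (v' - u') ^ 2) u') ∩ {q | q.1 < q.2}
  have hS : S.Finite := ((finite_Icc _ _).prod (finite_Icc _ _)).inter_of_left _
  have hC : IsClosed ((fun q : ℤ × ℤ => pp q.1 q.2) '' S) := (hS.image _).isClosed
  have := clos_trick (((cyl_open u 1).inter (cyl_open v 1)).inter
    ((cyl_open u' 2).inter (cyl_open v' 2))) hC ?_ hx ⟨⟨hu, hv⟩, hu', hv'⟩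
  · obtain ⟨q, hq, rfl⟩ := this
    exact ⟨q.1, q.2, hq.2, rfl⟩
  · rintro _ ⟨⟨⟨a1, a2⟩, a3, a4⟩, c, d, hcd, rfl⟩
    exact ⟨(c, d), ⟨⟨one_bound huv a1 a2, two_bound hcd huv' a3 a4⟩, hcd⟩, rfl⟩

lemma pp_left (c d N : ℤ) : ∃ i < N, pp c d i ≠ 0 := by
  refine ⟨c - ((c - N).natAbs + 1 : ℕ) ^ 2, ?_, ?_⟩
  · push_cast
    have := le_abs_self (c - N)
    nlinarith [abs_nonneg (c - N)]
  · rw [(pp_one _ _ _).2 ⟨_, rfl⟩]; decide

lemma pp_right {c d : ℤ} (h : c < d) (N : ℤ) : ∃ i > N, pp c d i ≠ 0 := by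
  refine ⟨d + ((N - d).natAbs + 1 : ℕ) ^ 2, ?_, ?_⟩
  · push_cast
    have := le_abs_self (N - d)
    nlinarith [abs_nonneg (N - d)]
  · rw [(pp_two h _).2 ⟨_, rfl⟩]; decide

lemma sq_uniq {e : ℤ} {j k : ℕ} (h : (j : ℤ) ^ 2 - k ^ 2 = e) (hj : |e| < j) : e = 0 := by
  have hk : (0 : ℤ) ≤ k := Int.natCast_nonneg _
  have h1 := le_abs_self e
  have h2 := neg_abs_le e
  have h3 := abs_nonneg e
  rcases lt_trichotomy (j : ℤ) k with h4 | h4 | h4
  · nlinarith
  · rw [← h, h4]; ring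
  · nlinarith

lemma left_uniq {c d c' d' N : ℤ} (h : ∀ i < N, pp c d i = pp c' d' i) : c = c' := by
  set j : ℕ := (c - N).natAbs + (c - c').natAbs + 1 with hj
  have hj' : (j : ℤ) = |c - N| + |c - c'| + 1 := by rw [hj]; push_cast; ring
  have a1 := abs_nonneg (c - N)
  have a2 := abs_nonneg (c - c')
  have a3 := le_abs_self (c - N)
  have h1 : c - (j : ℤ) ^ 2 < N := by nlinarith
  have h2 := h _ h1
  rw [(pp_one _ _ _).2 ⟨j, rfl⟩] at h2
  obtain ⟨k, hk⟩ := (pp_one _ _ _).1 h2.symm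
  have := sq_uniq (e := c - c') (j := j) (k := k) (by linarith) (by linarith)
  linarith

lemma right_uniq {c d c' d' N : ℤ} (hc : c < d) (hc' : c' < d')
    (h : ∀ i > N, pp c d i = pp c' d' i) : d = d' := by
  set j : ℕ := (N - d).natAbs + (d' - d).natAbs + 1 with hj
  have hj' : (j : ℤ) = |N - d| + |d' - d| + 1 := by rw [hj]; push_cast; ring
  have a1 := abs_nonneg (N - d)
  have a2 := abs_nonneg (d' - d)
  have a3 := le_abs_self (N - d)
  have h1 : d + (j : ℤ) ^ 2 > N := by nlinarith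
  have h2 := h _ h1
  rw [(pp_two hc _).2 ⟨j, rfl⟩] at h2
  obtain ⟨k, hk⟩ := (pp_two hc' _).1 h2.symm
  have := sq_uniq (e := d' - d) (j := j) (k := k) (by linarith) (by linarith)
  linarith

lemma pp_left_eq {c d d' : ℤ} (h : c < d) (h' : c < d') (i : ℤ) (hi : i < c) :
    pp c d i = pp c d' i := by
  have h1 : ¬ ∃ j : ℕ, i = d + j ^ 2 := by rintro ⟨j, hj⟩; nlinarith [sq_nonneg (j : ℤ)]
  have h2 : ¬ ∃ j : ℕ, i = d' + j ^ 2 := by rintro ⟨j, hj⟩; nlinarith [sq_nonneg (j : ℤ)]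
  simp only [pp, if_neg h1, if_neg h2]

lemma pp_right_eq {c c' d : ℤ} (h : c < d) (h' : c' < d) (i : ℤ) (hi : i > d) :
    pp c d i = pp c' d i := by
  have h1 : ¬ ∃ j : ℕ, i = c - j ^ 2 := by rintro ⟨j, hj⟩; nlinarith [sq_nonneg (j : ℤ)]
  have h2 : ¬ ∃ j : ℕ, i = c' - j ^ 2 := by rintro ⟨j, hj⟩; nlinarith [sq_nonneg (j : ℤ)]
  simp only [pp, if_neg h1, if_neg h2]

lemma zero_mem : (fun _ => 0 : ℤ → Fin 3) ∈ closure PP := by
  refine mem_closure_of_tendsto (f := fun n : ℕ => pp (-(n : ℤ) - 1) (n + 1)) (b := Filter.atTop) ?_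
    (Filter.Eventually.of_forall fun n => ⟨_, _, by omega, rfl⟩)
  rw [tendsto_pi_nhds]
  intro i
  refine tendsto_const_nhds.congr' ?_
  filter_upwards [Filter.eventually_ge_atTop i.natAbs] with n hn
  have h0 : |i| ≤ n := by rw [← Int.natCast_natAbs]; exact_mod_cast hn
  have h3 := le_abs_self i
  have h4 := neg_abs_le i
  have h1 : ¬ ∃ j : ℕ, i = -(n : ℤ) - 1 - j ^ 2 := by rintro ⟨j, hj⟩; nlinarith [sq_nonneg (j : ℤ)]
  have h2 : ¬ ∃ j : ℕ, i = n + 1 + j ^ 2 := by rintro ⟨j, hj⟩; nlinarith [sq_nonneg (j : ℤ)]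
  simp only [pp, if_neg h1, if_neg h2]

lemma radius {f : (ℤ → Fin 3) → (ℤ → Fin 3)} (hc : ContinuousOn f (closure PP)) :
    ∃ r : ℕ, ∀ x ∈ closure PP, ∀ y ∈ closure PP, (∀ i : ℤ, |i| ≤ r → x i = y i) → f x 0 = f y 0 := by
  by_contra hcon
  push Not at hcon
  choose x hx y hy hxy hne using hcon
  have hK : IsCompact (closure PP) := isClosed_closure.isCompact
  obtain ⟨z, hz, φ, hφ, hlim⟩ := hK.tendsto_subseq hx
  have hlim' : Filter.Tendsto (y ∘ φ) Filter.atTop (nhds z) := by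
    rw [tendsto_pi_nhds] at hlim ⊢
    intro i
    refine (hlim i).congr' ?_
    filter_upwards [Filter.eventually_ge_atTop i.natAbs] with n hn
    apply hxy
    have : n ≤ φ n := hφ.id_le n
    rw [← Int.natCast_natAbs]; exact_mod_cast hn.trans this
  have key : ∀ w : ℕ → (ℤ → Fin 3), (∀ n, w n ∈ closure PP) → Filter.Tendsto w Filter.atTop (nhds z) →
      ∀ᶠ n in Filter.atTop, f (w n) 0 = f z 0 := by
    intro w hw hl
    have h1 : Filter.Tendsto (fun n => f (w n)) Filter.atTop (nhds (f z)) :=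
      (hc z hz).tendsto.comp (tendsto_nhdsWithin_iff.2 ⟨hl, Filter.Eventually.of_forall hw⟩)
    exact h1.eventually ((cyl_open 0 (f z 0)).mem_nhds rfl)
  obtain ⟨n, h1, h2⟩ := ((key _ (fun n => hx _) hlim).and (key _ (fun n => hy _) hlim')).exists
  exact hne (φ n) (h1.trans h2.symm)

lemma injunctive (f : (ℤ → Fin 3) → (ℤ → Fin 3)) (hm : MapsTo f (closure PP) (closure PP))
    (hc : ContinuousOn f (closure PP)) (hs : ∀ x ∈ closure PP, f (sh 1 x) = sh 1 (f x))
    (hsurj : SurjOn f (closure PP) (closure PP)) : InjOn f (closure PP) := by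
  have hsa : ∀ a : ℤ, ∀ x ∈ closure PP, f (sh a x) = sh a (f x) := by
    intro a
    induction a using Int.induction_on with
    | zero => intro x _; rw [sh_zero, sh_zero]
    | succ a ih =>
      intro x hx
      rw [add_comm, ← sh_sh, hs _ (sh_mem _ hx), ih x hx, sh_sh]
    | pred a ih =>
      intro x hx
      have h1 := hs _ (sh_mem (-(a : ℤ) - 1) hx)
      rw [sh_sh, show 1 + (-(a : ℤ) - 1) = -a by ring, ih x hx] at h1
      have h2 := congrArg (sh (-1)) h1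
      rw [sh_sh, sh_sh, show (-1 : ℤ) + 1 = 0 by ring, sh_zero] at h2
      rw [← h2]; congr 1; ring
  obtain ⟨r, hr⟩ := radius hc
  have hloc : ∀ x ∈ closure PP, ∀ y ∈ closure PP, ∀ k : ℤ, (∀ i : ℤ, |i| ≤ r → x (i + k) = y (i + k)) →
      f x k = f y k := by
    intro x hx y hy k h
    have := hr _ (sh_mem k hx) _ (sh_mem k hy) h
    rw [hsa k x hx, hsa k y hy] at this
    simpa [sh] using this
  have hL : ∀ x ∈ closure PP, ∀ y ∈ closure PP, ∀ N, (∀ i < N, x i = y i) →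
      ∀ i < N - r, f x i = f y i := by
    intro x hx y hy N h k hk
    refine hloc x hx y hy k fun i hi => h _ ?_
    have := le_abs_self i
    linarith
  have hR : ∀ x ∈ closure PP, ∀ y ∈ closure PP, ∀ N, (∀ i > N, x i = y i) →
      ∀ i > N + r, f x i = f y i := by
    intro x hx y hy N h k hk
    refine hloc x hx y hy k fun i hi => h _ ?_
    have := neg_abs_le i
    linarith
  have hP : ∀ {c d : ℤ}, c < d → pp c d ∈ closure PP := fun h => subset_closure ⟨_, _, h, rfl⟩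
  have hf0 : f (fun _ => 0) = fun _ => 0 := by
    have h1 : ∀ a, f (fun _ => 0) a = f (fun _ => 0) 0 := by
      intro a
      have := congrFun (hsa a _ zero_mem) 0
      have h0 : sh a (fun _ => 0) = fun _ => 0 := rfl
      rw [h0] at this
      simpa [sh] using this.symm
    by_contra hne
    have h2 : f (fun _ => 0) 0 ≠ 0 := fun e => hne (funext fun a => (h1 a).trans e)
    obtain ⟨c, d, hcd, he⟩ := classify (hm zero_mem) (fun N => ⟨N - 1, by linarith, by rwa [h1]⟩)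
      (fun N => ⟨N + 1, by linarith, by rwa [h1]⟩)
    have a1 : pp c d c = 1 := (pp_one _ _ _).2 ⟨0, by simp⟩
    have a2 : pp c d d = 2 := (pp_two hcd _).2 ⟨0, by simp⟩
    rw [← he, h1] at a1 a2
    rw [a1] at a2
    exact absurd a2 (by decide)
  obtain ⟨x0, hx0, hfx0⟩ := hsurj (hP (show (0 : ℤ) < 1 by norm_num))
  obtain ⟨c0, d0, hcd0, rfl⟩ : x0 ∈ PP := by
    refine classify hx0 (fun N => ?_) (fun N => ?_)
    · by_contra hcon
      push Not at hcon
      obtain ⟨i, hi, hne⟩ := pp_left 0 1 (N - r)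
      have := hL _ hx0 _ zero_mem N hcon i hi
      rw [hfx0, hf0] at this
      exact hne this
    · by_contra hcon
      push Not at hcon
      obtain ⟨i, hi, hne⟩ := pp_right (show (0 : ℤ) < 1 by norm_num) (N + r)
      have := hR _ hx0 _ zero_mem N hcon i hi
      rw [hfx0, hf0] at this
      exact hne this
  have hshift : ∀ a, f (pp (c0 - a) (d0 - a)) = pp (0 - a) (1 - a) := fun a => by
    rw [← sh_pp, hsa a _ hx0, hfx0, sh_pp]
  have hall : ∀ c d, c < d → c - c0 < d - d0 + 1 ∧ f (pp c d) = pp (c - c0) (d - d0 + 1) := by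
    intro c d hcd
    have h1 := hshift (c0 - c)
    have h2 := hshift (d0 - d)
    rw [show c0 - (c0 - c) = c by ring] at h1
    rw [show d0 - (d0 - d) = d by ring] at h2
    have l1 := hL _ (hP hcd) _ (hP (show c < d0 - (c0 - c) by linarith)) c
      (pp_left_eq hcd (by linarith))
    have r1 := hR _ (hP hcd) _ (hP (show c0 - (d0 - d) < d by linarith)) d
      (pp_right_eq hcd (by linarith))
    rw [h1] at l1
    rw [h2] at r1
    obtain ⟨c', d', hcd', he⟩ : f (pp c d) ∈ PP := by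
      refine classify (hm (hP hcd)) (fun N => ?_) (fun N => ?_)
      · obtain ⟨i, hi, hne⟩ := pp_left (0 - (c0 - c)) (1 - (c0 - c)) (min N (c - r))
        exact ⟨i, lt_of_lt_of_le hi (min_le_left _ _), by
          rwa [l1 i (lt_of_lt_of_le hi (min_le_right _ _))]⟩
      · obtain ⟨i, hi, hne⟩ := pp_right (show 0 - (d0 - d) < 1 - (d0 - d) by linarith) (max N (d + r))
        exact ⟨i, lt_of_le_of_lt (le_max_left _ _) hi, by
          rwa [r1 i (lt_of_le_of_lt (le_max_right _ _) hi)]⟩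
    rw [he] at l1 r1
    have e1 := left_uniq l1
    have e2 := right_uniq hcd' (by linarith) r1
    constructor
    · linarith
    · rw [he, e1, e2]; congr 1 <;> ring
  have hd0 : d0 = c0 + 1 := by
    have := (hall 0 1 (by norm_num)).1
    omega
  have heq : EqOn f (sh c0) (closure PP) := by
    refine Set.EqOn.of_subset_closure ?_ hc (sh_cont c0).continuousOn subset_closure subset_rfl
    rintro _ ⟨c, d, hcd, rfl⟩
    rw [(hall c d hcd).2, sh_pp, hd0]; congr 1; ring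
  intro x hx y hy hxy
  rw [heq hx, heq hy] at hxy
  have := congrArg (sh (-c0)) hxy
  rwa [sh_sh, sh_sh, neg_add_cancel, sh_zero, sh_zero] at this

def tau (x : ℤ → Fin 3) : ℤ → Fin 3 := fun i =>
  if x i = 1 then 1 else if x (i - 1) = 2 then 2 else 0

lemma tau_cont : Continuous tau := by
  refine continuous_pi fun i => ?_
  have : Continuous (fun q : Fin 3 × Fin 3 => if q.1 = 1 then (1 : Fin 3) else if q.2 = 2 then 2 else 0) :=
    continuous_of_discreteTopology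
  have h2 : Continuous (fun x : ℤ → Fin 3 => (x i, x (i - 1))) := by fun_prop
  exact this.comp h2

open Classical in
lemma tau_pp {c d : ℤ} (h : c < d) : tau (pp c d) = pp c (d + 1) := by
  funext i
  have h2 : (∃ j : ℕ, i - 1 = d + j ^ 2) ↔ ∃ j : ℕ, i = d + 1 + j ^ 2 :=
    exists_congr fun j => by constructor <;> intro h <;> linarith
  unfold tau
  conv_rhs => unfold pp
  exact if_congr (pp_one _ _ _) rfl (if_congr ((pp_two h _).trans h2) rfl rfl)

lemma no21 {x : ℤ → Fin 3} (hx : x ∈ closure PP) (i : ℤ) (h : x i = 2) : x (i + 1) ≠ 1 := by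
  refine clos_trick (cyl_open i 2) (cyl_closed (i + 1) 1) ?_ hx h
  rintro _ ⟨a1, c, d, hcd, rfl⟩ a2
  obtain ⟨j, hj⟩ := (pp_two hcd _).1 a1
  obtain ⟨k, hk⟩ := (pp_one _ _ _).1 a2
  nlinarith [sq_nonneg (j : ℤ), sq_nonneg (k : ℤ)]

lemma tau_one (x : ℤ → Fin 3) (i : ℤ) : tau x i = 1 ↔ x i = 1 := by
  unfold tau; split_ifs with h1 h2 <;> simp [h1]

lemma tau_two {x : ℤ → Fin 3} (hx : x ∈ closure PP) (i : ℤ) : tau x (i + 1) = 2 ↔ x i = 2 := by
  unfold tau
  rw [add_sub_cancel_right]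
  split_ifs with h1 h2
  · constructor
    · intro h; exact absurd h (by decide)
    · intro h; exact absurd h1 (no21 hx i h)
  · simp [h2]
  · simp [h2]

/-- There is a finite alphabet and a closed shift-invariant set X of bi-infinite sequences on which every surjective continuous shift-commuting self-map is injective, yet some injective such self-map is not surjective. -/
theorem result :
    ∃ n : ℕ, ∃ X : Set (ℤ → Fin n),
      IsClosed X ∧
      (∀ x : ℤ → Fin n, x ∈ X ↔ (fun i => x (i + 1)) ∈ X) ∧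
      (∀ f : (ℤ → Fin n) → (ℤ → Fin n),
        MapsTo f X X → ContinuousOn f X →
        (∀ x ∈ X, f (fun i => x (i + 1)) = fun i => f x (i + 1)) →
        SurjOn f X X → InjOn f X) ∧
      ¬ (∀ f : (ℤ → Fin n) → (ℤ → Fin n),
        MapsTo f X X → ContinuousOn f X →
        (∀ x ∈ X, f (fun i => x (i + 1)) = fun i => f x (i + 1)) →
        InjOn f X → SurjOn f X X) := by
  refine ⟨3, closure PP, isClosed_closure, fun x => ⟨fun hx => sh_mem 1 hx, fun hx => ?_⟩,
    fun f hm hc hs hsurj => injunctive f hm hc hs hsurj, fun h => ?_⟩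
  · have := sh_mem (-1) hx
    rwa [show (fun i => x (i + 1)) = sh 1 x from rfl, sh_sh, neg_add_cancel, sh_zero] at this
  · have h1 := h tau (fun x hx => map_mem_closure tau_cont hx (by
        rintro _ ⟨c, d, hcd, rfl⟩
        exact ⟨c, d + 1, by linarith, tau_pp hcd⟩)) tau_cont.continuousOn
      (fun x _ => by
        funext i
        simp only [tau, sub_add_cancel, add_sub_cancel_right])
      (fun x hx y hy hxy => by
        funext i
        have a1 : x i = 1 ↔ y i = 1 := by rw [← tau_one, hxy, tau_one]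
        have a2 : x i = 2 ↔ y i = 2 := by rw [← tau_two hx, hxy, tau_two hy]
        rcases fin3 (x i) with h | h | h <;> rcases fin3 (y i) with h' | h' | h' <;> simp_all)
    obtain ⟨x, hx, he⟩ := h1 (subset_closure ⟨0, 1, by norm_num, rfl⟩)
    have a1 : x 0 = 1 := by rw [← tau_one, he]; exact (pp_one _ _ _).2 ⟨0, by simp⟩
    have a2 : x 0 = 2 := by rw [← tau_two hx, he]; exact (pp_two (by norm_num) _).2 ⟨0, by simp⟩
    rw [a1] at a2
    exact absurd a2 (by decide)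

end Pool.Agent.S04759
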