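import Pool.Statements.S04785
import Pool.Agent.H12.PartialSums

set_option autoImplicit false
open scoped BigOperators
open Pool Pool.MP_5d54af_an

namespace Pool.Agent.S04785

/-- If f(z)=Σ a_k z^k converges everywhere, never vanishes and is nonconstant, then for every ε>0 some partial sum Σ_{k≤n} a_k z^k vanishes at a point z₀ where ∣f(z₀)∣<ε. -/
theorem result :
    ∀ (a : ℕ → ℂ) (f : ℂ → ℂ),
      (∀ z : ℂ, HasSum (fun k : ℕ => a k * z ^ k) (f z)) →
      (∀ z : ℂ, f z ≠ 0) →
      (∃ z w : ℂ, f z ≠ f w) →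
      ∀ ε : ℝ, 0 < ε →
        ∃ z₀ : ℂ, ∃ n : ℕ,
          (∑ k ∈ Finset.range (n + 1), a k * z₀ ^ k) = 0 ∧ ‖f z₀‖ < ε := by
  intro a f h h0 ⟨z, w, hzw⟩ ε hε
  by_contra hc
  push Not at hc
  have hε' : (ε : ℂ) ≠ 0 := by exact_mod_cast hε.ne'
  have key := Pool.Agent.H12.PartialSums.main (a := fun k => a k / ε) (f := fun z => f z / ε)
    (fun z => by simpa [div_mul_eq_mul_div] using (h z).div_const (ε : ℂ))
    (fun z => div_ne_zero (h0 z) hε') (fun n z hz => by
      rw [norm_div, Complex.norm_real, Real.norm_of_nonneg hε.le, one_le_div hε]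
      refine hc z n ?_
      simp only [Pool.Agent.H12.PartialSums.S, div_mul_eq_mul_div, ← Finset.sum_div] at hz
      exact (div_eq_zero_iff.mp hz).resolve_right hε')
  exact hzw ((div_left_inj' hε').mp ((key z).trans (key w).symm))

end Pool.Agent.S04785
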