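import Pool.Statements.S04808
import Pool.Agent.H3.EntE

set_option autoImplicit false
open Pool Pool.MP_5e6479_an

namespace Pool.Agent.S04808

/-- The negation of the preceding statement: For every closed set E in ℂ: if some non-polynomial entire function is bounded on E and some non-polynomial entire function has modulus at least a positive constant off E, then a single non-polynomial entire function does both. -/
theorem result :
    ¬ (∀ E : Set ℂ, IsClosed E →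
      (∃ f : ℂ → ℂ, Differentiable ℂ f ∧
          (¬ ∃ p : Polynomial ℂ, ∀ z, f z = p.eval z) ∧
          ∃ M : ℝ, ∀ z ∈ E, ‖f z‖ ≤ M) →
      (∃ g : ℂ → ℂ, Differentiable ℂ g ∧
          (¬ ∃ p : Polynomial ℂ, ∀ z, g z = p.eval z) ∧
          ∃ δ : ℝ, 0 < δ ∧ ∀ z ∉ E, δ ≤ ‖g z‖) →
      ∃ h : ℂ → ℂ, Differentiable ℂ h ∧
          (¬ ∃ p : Polynomial ℂ, ∀ z, h z = p.eval z) ∧
          (∃ M : ℝ, ∀ z ∈ E, ‖h z‖ ≤ M) ∧
          ∃ δ : ℝ, 0 < δ ∧ ∀ z ∉ E, δ ≤ ‖h z‖) := by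
  intro H
  obtain ⟨h, hd, hnp, ⟨M, hM⟩, δ, hδ, hlow⟩ := H Pool.Agent.H3.EntE.E Pool.Agent.H3.EntE.closed_E
    Pool.Agent.H3.EntE.ex_f Pool.Agent.H3.EntE.ex_g
  exact hnp (Pool.Agent.H3.EntE.poly_of h hd M hM δ hδ hlow)

end Pool.Agent.S04808
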