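import Pool.Statements.S04822

set_option autoImplicit false
open Pool Pool.MP_5fe217_an

namespace Pool.Agent.S04822

open Metric Filter Topology

abbrev E := EuclideanSpace ℂ (Fin 2)

/-- normalized starlike maps of the ball -/
def St (f : E → E) : Prop :=
  DifferentiableOn ℂ f (ball 0 1) ∧ Set.InjOn f (ball 0 1) ∧ f 0 = 0 ∧
    fderiv ℂ f 0 = ContinuousLinearMap.id ℂ E ∧
    ∀ z ∈ ball (0 : E) 1, z ≠ 0 →
      0 < (inner ℂ z ((fderiv ℂ f z).inverse (ContinuousLinearMap.id ℂ E (f z)))).re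

lemma invertible (T : E →L[ℂ] E) (hT : ∀ v, T v = 0 → v = 0) : T.IsInvertible := by
  have h : Function.Injective T.toLinearMap := (injective_iff_map_eq_zero _).2 hT
  exact ⟨(LinearEquiv.ofInjectiveEndo T.toLinearMap h).toContinuousLinearEquiv, by
    ext v : 1
    rfl⟩

lemma pert (φ : E → E) (hd : DifferentiableOn ℂ φ (ball 0 1)) (h0 : φ 0 = 0)
    (h1 : fderiv ℂ φ 0 = 0) (hb : ∀ z ∈ ball (0 : E) 1, ‖fderiv ℂ φ z‖ ≤ 1 / 5) :
    St (id + φ) := by
  have hda : ∀ z ∈ ball (0 : E) 1, DifferentiableAt ℂ φ z := fun z hz =>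
    hd.differentiableAt (isOpen_ball.mem_nhds hz)
  have hf : ∀ z ∈ ball (0 : E) 1,
      fderiv ℂ (id + φ) z = ContinuousLinearMap.id ℂ E + fderiv ℂ φ z := fun z hz =>
    ((hasFDerivAt_id z).add (hda z hz).hasFDerivAt).fderiv
  have hl : ∀ a ∈ ball (0 : E) 1, ∀ b ∈ ball (0 : E) 1, ‖φ b - φ a‖ ≤ 1 / 5 * ‖b - a‖ :=
    fun a ha b hb' => (convex_ball _ _).norm_image_sub_le_of_norm_fderiv_le hda hb ha hb'
  refine ⟨differentiableOn_id.add hd, fun a ha b hb' hab => ?_, by simp [h0],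
    by rw [hf 0 (by simp), h1, add_zero], fun z hz hz0 => ?_⟩
  · have h2 := hl a ha b hb'
    have h3 : φ b - φ a = -(b - a) := by
      simp only [Pi.add_apply, id] at hab
      linear_combination (norm := module) -hab
    rw [h3, norm_neg] at h2
    have h4 : ‖b - a‖ = 0 := by linarith [norm_nonneg (b - a)]
    exact (sub_eq_zero.1 (norm_eq_zero.1 h4)).symm
  · rw [hf z hz]
    have hle : ∀ v, ‖fderiv ℂ φ z v‖ ≤ 1 / 5 * ‖v‖ := fun v =>
      (fderiv ℂ φ z).le_of_opNorm_le (hb z hz) v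
    have hi := invertible (ContinuousLinearMap.id ℂ E + fderiv ℂ φ z) (fun v hv => by
      have h2 : fderiv ℂ φ z v = -v := by
        simp only [add_apply, ContinuousLinearMap.id_apply] at hv
        linear_combination (norm := module) hv
      have h3 := hle v
      rw [h2, norm_neg] at h3
      exact norm_eq_zero.1 (by linarith [norm_nonneg v]))
    set w := (ContinuousLinearMap.id ℂ E + fderiv ℂ φ z).inverse
      (ContinuousLinearMap.id ℂ E ((id + φ : E → E) z)) with hw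
    have h2 := hi.inverse_apply_eq.1 hw.symm
    simp only [add_apply, ContinuousLinearMap.id_apply, Pi.add_apply, id] at h2
    have h3 : w - z = φ z - fderiv ℂ φ z w := by linear_combination (norm := module) -h2
    have h4 := hl 0 (by simp) z hz
    rw [h0, sub_zero, sub_zero] at h4
    have h5 : ‖w - z‖ ≤ ‖φ z‖ + ‖fderiv ℂ φ z w‖ := h3 ▸ norm_sub_le _ _
    have h6 : ‖w‖ ≤ ‖z‖ + ‖w - z‖ := by
      simpa using norm_add_le z (w - z)
    have h7 := hle w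
    have h8 : ‖w - z‖ ≤ ‖z‖ / 2 := by linarith
    have h9 : inner ℂ z w = inner ℂ z z + inner ℂ z (w - z) := by
      rw [← inner_add_right]
      simp
    have h10 : (inner ℂ z z).re = ‖z‖ ^ 2 := inner_self_eq_norm_sq (𝕜 := ℂ) z
    have h11 : |(inner ℂ z (w - z)).re| ≤ ‖z‖ * ‖w - z‖ :=
      (Complex.abs_re_le_norm _).trans (norm_inner_le_norm _ _)
    have hz1 : 0 < ‖z‖ := norm_pos_iff.2 hz0
    rw [h9, Complex.add_re, h10]
    nlinarith [(abs_le.1 h11).1, mul_le_mul_of_nonneg_left h8 hz1.le]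

noncomputable def e0 : E := EuclideanSpace.single 0 1

/-- the map `(φ z₀, z₁)` -/
noncomputable def D (φ : ℂ → ℂ) (z : E) : E := z + (φ (z 0) - z 0) • e0

lemma D0 (φ : ℂ → ℂ) (z : E) : D φ z 0 = φ (z 0) := by simp [D, e0]

lemma D1 (φ : ℂ → ℂ) (z : E) : D φ z 1 = z 1 := by simp [D, e0]

lemma ext2 {a b : E} (h0 : a 0 = b 0) (h1 : a 1 = b 1) : a = b := by
  ext i
  fin_cases i
  · exact h0
  · exact h1

lemma c0 {z : E} (hz : z ∈ ball (0 : E) 1) : ‖z 0‖ < 1 :=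
  lt_of_le_of_lt (PiLp.norm_apply_le z 0) (mem_ball_zero_iff.1 hz)

lemma Dder (φ : ℂ → ℂ) (a : ℂ) (z : E) (h : HasDerivAt φ a (z 0)) :
    ∃ T : E →L[ℂ] E, HasFDerivAt (D φ) T z ∧ ∀ v, T v 0 = a * v 0 ∧ T v 1 = v 1 := by
  have hp : HasFDerivAt (fun y : E => y 0) (EuclideanSpace.proj 0 : E →L[ℂ] ℂ) z :=
    (EuclideanSpace.proj 0 : E →L[ℂ] ℂ).hasFDerivAt
  refine ⟨_, (hasFDerivAt_id z).add
    (((h.comp_hasFDerivAt z hp).sub hp).smul_const e0), fun v => ⟨?_, ?_⟩⟩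
  · simp [e0]
  · simp [e0]

lemma Dpos (φ : ℂ → ℂ) (hp : ∀ w, ‖w‖ < 1 → ∃ p : ℂ, φ w = w * p ∧ 0 < p.re) (z : E)
    (hz : z ∈ ball (0 : E) 1) (hz0 : z ≠ 0) : 0 < (inner ℂ z (D φ z)).re := by
  obtain ⟨p, h1, h2⟩ := hp _ (c0 hz)
  have h3 : (inner ℂ z (D φ z)).re = Complex.normSq (z 0) * p.re + Complex.normSq (z 1) := by
    simp [PiLp.inner_apply, D0, D1, h1, Complex.normSq_apply]
    ring
  rw [h3]
  by_cases h4 : z 0 = 0
  · have h5 : z 1 ≠ 0 := fun h5 => hz0 (ext2 h4 h5)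
    simpa [h4] using h5
  · have := mul_pos (Complex.normSq_pos.2 h4) h2
    linarith [Complex.normSq_nonneg (z 1)]

lemma Dbasic (φ φ' : ℂ → ℂ) (hd : ∀ w, ‖w‖ < 1 → HasDerivAt φ (φ' w) w) (h0 : φ 0 = 0)
    (h1 : φ' 0 = 1) : DifferentiableOn ℂ (D φ) (ball 0 1) ∧ D φ 0 = 0 ∧
      fderiv ℂ (D φ) 0 = ContinuousLinearMap.id ℂ E := by
  refine ⟨fun z hz => ?_, by simp [D, h0], ?_⟩
  · obtain ⟨T, hT, -⟩ := Dder φ _ z (hd _ (c0 hz))
    exact hT.differentiableAt.differentiableWithinAt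
  · obtain ⟨T, hT, h2⟩ := Dder φ _ 0 (hd _ (c0 (by simp)))
    rw [hT.fderiv]
    ext v : 1
    exact ext2 (by simpa [h1] using (h2 v).1) (h2 v).2

lemma Dinv (φ φ' : ℂ → ℂ) (hd : ∀ w, ‖w‖ < 1 → HasDerivAt φ (φ' w) w)
    (hne : ∀ w, ‖w‖ < 1 → φ' w ≠ 0) (z : E) (hz : z ∈ ball (0 : E) 1) :
    (fderiv ℂ (D φ) z).inverse (ContinuousLinearMap.id ℂ E (D φ z)) =
      D (fun w => φ w / φ' w) z := by
  obtain ⟨T, hT, h2⟩ := Dder φ _ z (hd _ (c0 hz))
  have h3 := hne _ (c0 hz)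
  rw [hT.fderiv, (invertible T fun v hv => ?_).inverse_apply_eq]
  · refine ext2 ?_ ?_
    · rw [(h2 _).1, D0]
      simp only [ContinuousLinearMap.id_apply, D0]
      field_simp
    · rw [(h2 _).2, D1]
      simp only [ContinuousLinearMap.id_apply, D1]
  · have h4 := h2 v
    rw [hv] at h4
    exact ext2 ((mul_eq_zero.1 h4.1.symm).resolve_left h3) h4.2.symm

lemma diag (φ φ' : ℂ → ℂ) (hd : ∀ w, ‖w‖ < 1 → HasDerivAt φ (φ' w) w) (h0 : φ 0 = 0)
    (h1 : φ' 0 = 1) (hne : ∀ w, ‖w‖ < 1 → φ' w ≠ 0)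
    (hi : ∀ a b, ‖a‖ < 1 → ‖b‖ < 1 → φ a = φ b → a = b)
    (hp : ∀ w, ‖w‖ < 1 → ∃ p : ℂ, φ w / φ' w = w * p ∧ 0 < p.re) : St (D φ) := by
  obtain ⟨a1, a2, a3⟩ := Dbasic φ φ' hd h0 h1
  refine ⟨a1, fun a ha b hb hab => ?_, a2, a3, fun z hz hz0 => ?_⟩
  · refine ext2 (hi _ _ (c0 ha) (c0 hb) ?_) ?_
    · rw [← D0 φ a, hab, D0]
    · rw [← D1 φ, hab, D1]
  · rw [Dinv φ φ' hd hne z hz]
    exact Dpos _ hp z hz hz0

lemma ne1 {c u : ℂ} (h : ‖u‖ < ‖c‖) : c + u ≠ 0 := fun h0 => by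
  rw [eq_neg_of_add_eq_zero_left h0, norm_neg] at h
  exact lt_irrefl _ h

lemma ne2 {c u : ℂ} (h : ‖u‖ < ‖c‖) : c - u ≠ 0 := by
  rw [sub_eq_add_neg]
  exact ne1 (by rwa [norm_neg])

lemma cv {f g : ℂ → ℂ} {a b x : ℂ} (h : HasDerivAt f a x) (hf : ∀ t, g t = f t) (ha : b = a) :
    HasDerivAt g b x := by
  rw [ha, funext hf]
  exact h

lemma re_half {u : ℂ} (h : ‖u‖ < 1) : 1 / 2 < ((1 - u)⁻¹).re := by
  have h1 : 0 < Complex.normSq (1 - u) := Complex.normSq_pos.2 (ne2 (by simpa using h))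
  have h2 : Complex.normSq u < 1 := by
    rw [Complex.normSq_eq_norm_sq]
    nlinarith [norm_nonneg u]
  rw [Complex.inv_re, lt_div_iff₀ h1]
  simp only [Complex.normSq_apply, Complex.sub_re, Complex.sub_im, Complex.one_re,
    Complex.one_im] at h2 ⊢
  nlinarith

lemma re_inv {p : ℂ} (h : 0 < p.re) : 0 < (p⁻¹).re := by
  rw [Complex.inv_re]
  exact div_pos h (Complex.normSq_pos.2 fun h0 => by simp [h0] at h)

lemma sq_lt {w : ℂ} (h : ‖w‖ < 1) : ‖w ^ 2‖ < ‖(1 : ℂ)‖ := by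
  rw [norm_pow, norm_one]
  nlinarith [norm_nonneg w]

lemma mul_lt {a b : ℂ} (ha : ‖a‖ < 1) (hb : ‖b‖ < 1) : ‖a * b‖ < 1 := by
  rw [norm_mul]
  nlinarith [norm_nonneg a, norm_nonneg b]

lemma n3 : ‖(3 : ℂ)‖ = 3 := by simp

lemma d0 (w : ℂ) (hw : ‖w‖ < 1) :
    HasDerivAt (fun w : ℂ => w / (1 - w ^ 2)) ((1 + w ^ 2) / (1 - w ^ 2) ^ 2) w := by
  refine cv ((hasDerivAt_id w).div ((hasDerivAt_pow 2 w).const_sub 1) (ne2 (sq_lt hw)))
    (fun _ => rfl) ?_
  simp only [id]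
  congr 1
  push_cast
  ring

lemma p0 (w : ℂ) (hw : ‖w‖ < 1) : 0 < ((1 - w ^ 2) / (1 + w ^ 2)).re := by
  have h1 := re_half (u := -w ^ 2) (by simpa using sq_lt hw)
  have h2 := ne1 (sq_lt hw)
  have h3 : (1 - w ^ 2) / (1 + w ^ 2) = 2 * (1 - -w ^ 2)⁻¹ - 1 := by
    rw [sub_neg_eq_add]
    field_simp
    ring
  rw [h3]
  simp only [Complex.sub_re, Complex.mul_re, Complex.one_re, Complex.re_ofNat, Complex.im_ofNat]
  linarith

lemma q0 (w : ℂ) (hw : ‖w‖ < 1) : w / (1 - w ^ 2) / ((1 + w ^ 2) / (1 - w ^ 2) ^ 2) =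
    w * ((1 - w ^ 2) / (1 + w ^ 2)) := by
  have h1 := ne1 (sq_lt hw)
  have h2 := ne2 (sq_lt hw)
  field_simp

lemma st0 : St (D fun w => w / (1 - w ^ 2)) := by
  refine diag _ _ d0 (by simp) (by simp)
    (fun w hw => div_ne_zero (ne1 (sq_lt hw)) (pow_ne_zero _ (ne2 (sq_lt hw))))
    (fun a b ha hb h => ?_) (fun w hw => ⟨_, q0 w hw, p0 w hw⟩)
  rw [div_eq_div_iff (ne2 (sq_lt ha)) (ne2 (sq_lt hb))] at h
  have h1 : (a - b) * (1 + a * b) = 0 := by linear_combination h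
  exact sub_eq_zero.1 ((mul_eq_zero.1 h1).resolve_right (ne1 (by simpa using mul_lt ha hb)))

lemma st1 : St (D fun w => w / (1 + w)) := by
  have hne : ∀ w : ℂ, ‖w‖ < 1 → 1 + w ≠ 0 := fun w hw => ne1 (by simpa using hw)
  refine diag _ (fun w => 1 / (1 + w) ^ 2) (fun w hw => ?_) (by simp) (by simp)
    (fun w hw => div_ne_zero one_ne_zero (pow_ne_zero _ (hne w hw)))
    (fun a b ha hb h => ?_) (fun w hw => ⟨1 + w, ?_, ?_⟩)
  · refine cv ((hasDerivAt_id w).div ((hasDerivAt_id w).const_add 1) (hne w hw))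
      (fun _ => rfl) ?_
    simp only [id]
    congr 1
    ring
  · rw [div_eq_div_iff (hne a ha) (hne b hb)] at h
    linear_combination h
  · have := hne w hw
    field_simp
  · have := (abs_le.1 (Complex.abs_re_le_norm w)).1
    simp only [Complex.add_re, Complex.one_re]
    linarith

lemma st2 : St (D fun w => 3 * w / ((1 - w) * (3 - w))) := by
  have h1 : ∀ w : ℂ, ‖w‖ < 1 → 1 - w ≠ 0 := fun w hw => ne2 (by simpa using hw)
  have h3 : ∀ w : ℂ, ‖w‖ < 1 → 3 - w ≠ 0 := fun w hw => ne2 (by rw [n3]; linarith)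
  refine diag _ (fun w => 3 * (3 - w ^ 2) / ((1 - w) * (3 - w)) ^ 2) (fun w hw => ?_) (by simp)
    (by norm_num)
    (fun w hw => div_ne_zero (mul_ne_zero three_ne_zero
      (h3 _ (by simpa using sq_lt hw))) (pow_ne_zero _ (mul_ne_zero (h1 w hw) (h3 w hw))))
    (fun a b ha hb h => ?_) (fun w hw => ⟨((1 - w)⁻¹ + (1 - w / 3)⁻¹ - 1)⁻¹, ?_, re_inv ?_⟩)
  · refine cv (((hasDerivAt_id w).const_mul 3).div
      (((hasDerivAt_id w).const_sub 1).mul ((hasDerivAt_id w).const_sub 3))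
      (mul_ne_zero (h1 w hw) (h3 w hw))) (fun _ => rfl) ?_
    simp only [id, Pi.mul_apply]
    congr 1
    ring
  · rw [div_eq_div_iff (mul_ne_zero (h1 a ha) (h3 a ha)) (mul_ne_zero (h1 b hb) (h3 b hb))] at h
    have h2 : (a - b) * (3 - a * b) = 0 := by linear_combination (1 / 3 : ℂ) * h
    exact sub_eq_zero.1 ((mul_eq_zero.1 h2).resolve_right (h3 _ (mul_lt ha hb)))
  · have a1 := h1 w hw
    have a2 := h3 w hw
    have a3 := h3 _ (by simpa using sq_lt hw : ‖w ^ 2‖ < 1)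
    have a4 : (1 - w)⁻¹ + (1 - w / 3)⁻¹ - 1 = (3 - w ^ 2) / ((1 - w) * (3 - w)) := by
      field_simp
      ring
    rw [a4]
    field_simp
  · have a1 := re_half hw
    have a2 := re_half (u := w / 3) (by rw [norm_div, n3]; linarith [norm_nonneg w])
    simp only [Complex.sub_re, Complex.add_re, Complex.one_re]
    linarith

lemma st3 : St (D fun w => w * (3 + w) / (3 - w)) := by
  have h3 : ∀ w : ℂ, ‖w‖ < 1 → 3 - w ≠ 0 := fun w hw => ne2 (by rw [n3]; linarith)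
  have h4 : ∀ w : ℂ, ‖w‖ < 1 → 3 + w ≠ 0 := fun w hw => ne1 (by rw [n3]; linarith)
  have h5 : ∀ a b : ℂ, ‖a‖ < 1 → ‖b‖ < 1 → 9 + (3 * a + 3 * b - a * b) ≠ 0 := fun a b ha hb => by
    refine ne1 ?_
    have e1 := norm_sub_le (3 * a + 3 * b) (a * b)
    have e2 := norm_add_le (3 * a) (3 * b)
    have e3 := mul_lt ha hb
    rw [norm_mul, norm_mul, n3] at e2
    have e4 : ‖(9 : ℂ)‖ = 9 := by simp
    linarith
  refine diag _ (fun w => (9 + (3 * w + 3 * w - w * w)) / (3 - w) ^ 2) (fun w hw => ?_) (by simp)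
    (by norm_num) (fun w hw => div_ne_zero (h5 w w hw hw) (pow_ne_zero _ (h3 w hw)))
    (fun a b ha hb h => ?_) (fun w hw => ⟨(1 + 6 * w / (9 - w ^ 2))⁻¹, ?_, re_inv ?_⟩)
  · refine cv (((hasDerivAt_id w).mul ((hasDerivAt_id w).const_add 3)).div
      ((hasDerivAt_id w).const_sub 3) (h3 w hw)) (fun _ => rfl) ?_
    simp only [id, Pi.mul_apply]
    congr 1
    ring
  · rw [div_eq_div_iff (h3 a ha) (h3 b hb)] at h
    have h2 : (a - b) * (9 + (3 * a + 3 * b - a * b)) = 0 := by linear_combination h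
    exact sub_eq_zero.1 ((mul_eq_zero.1 h2).resolve_right (h5 a b ha hb))
  · have a1 := h3 w hw
    have a2 := h4 w hw
    have a3 := h5 w w hw hw
    have a5 : 9 - w ^ 2 = (3 - w) * (3 + w) := by ring
    have a4 : 1 + 6 * w / (9 - w ^ 2) = (9 + (3 * w + 3 * w - w * w)) / ((3 - w) * (3 + w)) := by
      rw [a5]
      field_simp
      ring
    rw [a4, inv_div]
    generalize 9 + (3 * w + 3 * w - w * w) = u at a3 ⊢
    field_simp
  · have a1 : 8 ≤ ‖9 - w ^ 2‖ := by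
      have e1 := norm_sub_norm_le (9 : ℂ) (w ^ 2)
      have e2 := sq_lt hw
      have e4 : ‖(9 : ℂ)‖ = 9 := by simp
      rw [norm_one] at e2
      linarith
    have a2 : ‖6 * w / (9 - w ^ 2)‖ < 1 := by
      have e4 : ‖(6 : ℂ)‖ = 6 := by simp
      rw [norm_div, norm_mul, e4, div_lt_one (by linarith)]
      linarith
    have := (abs_le.1 (Complex.abs_re_le_norm (6 * w / (9 - w ^ 2)))).1
    simp only [Complex.add_re, Complex.one_re]
    linarith

lemma decomp (z : E) (hz : z ∈ ball (0 : E) 1) :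
    D (fun w => w / (1 - w ^ 2)) z =
      ((1 / 2 : ℂ) • D (fun w => w / (1 + w)) + (1 / 3 : ℂ) • D (fun w => 3 * w / ((1 - w) * (3 - w))) +
        (1 / 12 : ℂ) • D (fun w => w * (3 + w) / (3 - w)) + (1 / 12 : ℂ) • id : E → E) z := by
  have hw := c0 hz
  refine ext2 ?_ ?_
  · simp only [Pi.add_apply, Pi.smul_apply, PiLp.add_apply, PiLp.smul_apply, D0, id, smul_eq_mul]
    generalize z 0 = w at hw
    have a1 : 1 - w ≠ 0 := ne2 (by simpa using hw)
    have a2 : 1 + w ≠ 0 := ne1 (by simpa using hw)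
    have a3 : 3 - w ≠ 0 := ne2 (by rw [n3]; linarith)
    have a4 : 1 - w ^ 2 = (1 - w) * (1 + w) := by ring
    rw [a4]
    field_simp
    ring
  · simp only [Pi.add_apply, Pi.smul_apply, PiLp.add_apply, PiLp.smul_apply, D1, id, smul_eq_mul]
    ring

section L

variable (L : (E → E) → ℂ)
  (hadd : ∀ g₁ g₂ : E → E, DifferentiableOn ℂ g₁ (ball 0 1) → DifferentiableOn ℂ g₂ (ball 0 1) →
    L (g₁ + g₂) = L g₁ + L g₂)
  (hsm : ∀ (c : ℂ) (g : E → E), DifferentiableOn ℂ g (ball 0 1) → L (c • g) = c * L g)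
  (K : Set E) (hK : IsCompact K) (hKs : K ⊆ ball 0 1) (C : ℝ)
  (hb : ∀ g : E → E, DifferentiableOn ℂ g (ball 0 1) → ∀ M : ℝ, (∀ x ∈ K, ‖g x‖ ≤ M) →
    ‖L g‖ ≤ C * M)

include hadd in
lemma Lsub (g₁ g₂ : E → E) (h1 : DifferentiableOn ℂ g₁ (ball 0 1))
    (h2 : DifferentiableOn ℂ g₂ (ball 0 1)) : L (g₁ - g₂) = L g₁ - L g₂ := by
  have := hadd _ _ (h1.sub h2) h2
  rw [sub_add_cancel] at this
  rw [this, add_sub_cancel_right]

include hadd hsm in
lemma dil (hmax : ∀ g, St g → (L g).re ≤ (L id).re) (g : E → E) (hg : St g) (r : ℝ) (h0 : 0 < r)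
    (h1 : r < 1) : (L (fun z => (r : ℂ)⁻¹ • g ((r : ℂ) • z))).re = (L id).re := by
  have hr : (r : ℂ) ≠ 0 := by exact_mod_cast h0.ne'
  have hr1 : 1 < r⁻¹ := (one_lt_inv₀ h0).2 h1
  set φ : E → E := (fun z => (r : ℂ)⁻¹ • g ((r : ℂ) • z)) - id with hφ
  have hdg : DifferentiableOn ℂ (fun z : E => (r : ℂ)⁻¹ • g ((r : ℂ) • z)) (ball 0 r⁻¹) := by
    refine DifferentiableOn.fun_const_smul (hg.1.comp (differentiableOn_id.const_smul (r : ℂ))
      fun z hz => ?_) (r : ℂ)⁻¹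
    rw [mem_ball_zero_iff] at hz ⊢
    change ‖(r : ℂ) • z‖ < 1
    rw [norm_smul, Complex.norm_real, Real.norm_of_nonneg h0.le, ← lt_inv_mul_iff₀ h0, mul_one]
    exact hz
  have hd : DifferentiableOn ℂ φ (ball 0 r⁻¹) := hdg.sub differentiableOn_id
  have hd1 : DifferentiableOn ℂ φ (ball 0 1) := hd.mono (ball_subset_ball hr1.le)
  set ρ := (r⁻¹ - 1) / 2 with hρ
  have hρ0 : 0 < ρ := by rw [hρ]; linarith
  have hsub : closedBall (0 : E) (1 + ρ) ⊆ ball 0 r⁻¹ :=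
    closedBall_subset_ball (by rw [hρ]; linarith)
  obtain ⟨M, hM⟩ := (isCompact_closedBall (0 : E) (1 + ρ)).exists_bound_of_continuousOn
    (hd.continuousOn.mono hsub)
  have hM0 : 0 ≤ M := (norm_nonneg _).trans (hM 0 (by simp; linarith))
  have hB : ∀ z ∈ ball (0 : E) 1, ‖fderiv ℂ φ z‖ ≤ (M + M) / ρ := by
    intro z hz
    have hs : ball z ρ ⊆ closedBall 0 (1 + ρ) := by
      refine ball_subset_closedBall.trans (closedBall_subset_closedBall' ?_)
      have := mem_ball.1 hz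
      linarith
    refine Complex.norm_fderiv_le_div_of_mapsTo_ball (hd.mono (hs.trans hsub)) (fun y hy => ?_) hρ0
    rw [mem_closedBall, dist_eq_norm]
    exact (norm_sub_le _ _).trans (add_le_add (hM y (hs hy)) (hM z (hs (mem_ball_self hρ0))))
  have hφ0 : φ 0 = 0 := by simp [hφ, hg.2.2.1]
  have hφ1 : fderiv ℂ φ 0 = 0 := by
    have a1 : HasFDerivAt g (ContinuousLinearMap.id ℂ E) ((r : ℂ) • (0 : E)) := by
      rw [smul_zero, ← hg.2.2.2.1]
      exact (hg.1.differentiableAt (isOpen_ball.mem_nhds (by simp))).hasFDerivAt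
    have a2 := ((a1.comp (0 : E) ((hasFDerivAt_id (0 : E)).const_smul (r : ℂ))).const_smul
      (r : ℂ)⁻¹).sub (hasFDerivAt_id (0 : E))
    refine a2.fderiv.trans ?_
    ext v : 1
    change (r : ℂ)⁻¹ • (r : ℂ) • v - v = 0
    rw [inv_smul_smul₀ hr, sub_self]
  set B := (M + M) / ρ with hBd
  have hB0 : 0 ≤ B := by positivity
  have key : ∀ s : ℝ, |s| ≤ 1 / (5 * (B + 1)) → s * (L φ).re ≤ 0 := by
    intro s hs
    have a1 := hmax _ (pert ((s : ℂ) • φ) (hd1.const_smul _) (by simp [hφ0]) ?_ ?_)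
    · rw [hadd _ _ differentiableOn_id (hd1.const_smul _), hsm _ _ hd1] at a1
      simpa using a1
    · rw [fderiv_const_smul (hd1.differentiableAt (isOpen_ball.mem_nhds (by simp))), hφ1, smul_zero]
    · intro z hz
      rw [fderiv_const_smul (hd1.differentiableAt (isOpen_ball.mem_nhds hz)), norm_smul,
        Complex.norm_real, Real.norm_eq_abs]
      calc |s| * ‖fderiv ℂ φ z‖ ≤ 1 / (5 * (B + 1)) * (B + 1) :=
            mul_le_mul hs ((hB z hz).trans (by linarith)) (norm_nonneg _) (by positivity)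
        _ = 1 / 5 := by field_simp
  have hs0 : 0 < 1 / (5 * (B + 1)) := by positivity
  have k1 := key _ (abs_of_pos hs0).le
  have k2 := key (-(1 / (5 * (B + 1)))) (by rw [abs_neg]; exact (abs_of_pos hs0).le)
  have k3 : (L φ).re = 0 := by
    have : 1 / (5 * (B + 1)) * (L φ).re = 0 := by linarith
    exact (mul_eq_zero.1 this).resolve_left hs0.ne'
  rw [hφ, Lsub L hadd _ _ (hdg.mono (ball_subset_ball hr1.le)) differentiableOn_id,
    Complex.sub_re] at k3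
  linarith

include hadd hsm hK hKs hb in
lemma const (hmax : ∀ g, St g → (L g).re ≤ (L id).re) (g : E → E) (hg : St g) :
    (L g).re = (L id).re := by
  refine eq_of_forall_dist_le fun ε hε => ?_
  set δ := ε / (|C| + 1) with hδ
  have hδ0 : 0 < δ := by positivity
  have h1 : ∀ᶠ r : ℝ in 𝓝 1, ∀ z ∈ K, ‖(r : ℂ)⁻¹ • g ((r : ℂ) • z) - g z‖ < δ := by
    refine hK.eventually_forall_of_forall_eventually fun y hy => ?_
    have a1 : ContinuousAt g y := (hg.1.differentiableAt (isOpen_ball.mem_nhds (hKs hy))).continuousAt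
    have a2 : ContinuousAt (fun p : ℝ × E => g ((p.1 : ℂ) • p.2)) (1, y) :=
      ContinuousAt.comp_of_eq a1 (by fun_prop) (by simp)
    have a3 : ContinuousAt (fun p : ℝ × E => g p.2) (1, y) :=
      ContinuousAt.comp_of_eq a1 (by fun_prop) rfl
    have a4 : ContinuousAt (fun p : ℝ × E => (p.1 : ℂ)⁻¹) (1, y) :=
      ContinuousAt.inv₀ (by fun_prop) (by simp)
    exact ((a4.smul a2).sub a3).norm.eventually_lt continuousAt_const (by simpa using hδ0)
  obtain ⟨r, ⟨hr, hr0⟩, hr1⟩ := (((h1.and (lt_mem_nhds zero_lt_one)).filter_mono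
    (nhdsWithin_le_nhds (s := Set.Iio 1))).and self_mem_nhdsWithin).exists
  have hr1 : r < 1 := hr1
  have hdg : DifferentiableOn ℂ (fun z : E => (r : ℂ)⁻¹ • g ((r : ℂ) • z)) (ball 0 1) := by
    refine DifferentiableOn.fun_const_smul (hg.1.comp (differentiableOn_id.const_smul (r : ℂ))
      fun z hz => ?_) (r : ℂ)⁻¹
    rw [mem_ball_zero_iff] at hz ⊢
    change ‖(r : ℂ) • z‖ < 1
    rw [norm_smul, Complex.norm_real, Real.norm_of_nonneg hr0.le]
    nlinarith [norm_nonneg z]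
  have h2 := hb _ (hdg.sub hg.1) δ fun z hz => (hr z hz).le
  rw [Lsub L hadd _ _ hdg hg.1] at h2
  have h3 := (Complex.abs_re_le_norm _).trans h2
  rw [Complex.sub_re, dil L hadd hsm hmax g hg r hr0 hr1] at h3
  rw [dist_comm, Real.dist_eq]
  refine h3.trans ?_
  calc C * δ ≤ (|C| + 1) * δ := mul_le_mul_of_nonneg_right (by linarith [le_abs_self C]) hδ0.le
    _ = ε := by rw [hδ]; field_simp

include hadd hsm hK hKs hb in
lemma nosupp (hmax : ∀ g, St g → (L g).re ≤ (L (D fun w => w / (1 - w ^ 2))).re) (g : E → E)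
    (hg : St g) : (L g).re = (L id).re := by
  have i1 := st1.1.const_smul (1 / 2 : ℂ)
  have i2 := st2.1.const_smul (1 / 3 : ℂ)
  have i3 := st3.1.const_smul (1 / 12 : ℂ)
  have i4 : DifferentiableOn ℂ ((1 / 12 : ℂ) • (id : E → E)) (ball 0 1) :=
    differentiableOn_id.const_smul (1 / 12 : ℂ)
  have h1 := hb _ (st0.1.sub (((i1.add i2).add i3).add i4)) 0 fun z hz => by
    rw [Pi.sub_apply, decomp z (hKs hz), sub_self, norm_zero]
  rw [mul_zero, norm_le_zero_iff, Lsub L hadd _ _ st0.1 (((i1.add i2).add i3).add i4),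
    hadd _ _ ((i1.add i2).add i3) i4, hadd _ _ (i1.add i2) i3, hadd _ _ i1 i2,
    hsm _ _ st1.1, hsm _ _ st2.1, hsm _ _ st3.1, hsm _ _ differentiableOn_id, sub_eq_zero] at h1
  have h2 := congrArg Complex.re h1
  have h3 := hmax _ st1
  have h4 := hmax _ st2
  have h5 := hmax _ st3
  norm_num [Complex.add_re, Complex.mul_re] at h2
  refine const L hadd hsm K hK hKs C hb (fun g hg => (hmax g hg).trans ?_) g hg
  linarith

end L

lemma harnack (g : E → E) (hd : DifferentiableOn ℂ g (ball 0 1)) (h0 : g 0 = 0)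
    (h1 : fderiv ℂ g 0 = ContinuousLinearMap.id ℂ E)
    (hp : ∀ z ∈ ball (0 : E) 1, z ≠ 0 → 0 < (inner ℂ z (g z)).re) :
    3 / 5 ≤ (g ((1 / 2 : ℂ) • e0) 0 - g ((-1 / 2 : ℂ) • e0) 0).re := by
  have hn : ∀ w : ℂ, ‖w • e0‖ = ‖w‖ := fun w => by simp [e0, norm_smul]
  have hm : ∀ w ∈ ball (0 : ℂ) 1, w • e0 ∈ ball (0 : E) 1 := fun w hw => by
    rw [mem_ball_zero_iff] at hw ⊢
    rwa [hn]
  set u : ℂ → ℂ := fun w => g (w • e0) 0 with hu
  have hud : DifferentiableOn ℂ u (ball 0 1) :=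
    (EuclideanSpace.proj 0 : E →L[ℂ] ℂ).differentiable.comp_differentiableOn
      (hd.comp (by fun_prop) hm)
  have hu0 : u 0 = 0 := by simp [hu, h0]
  have hu1 : deriv u 0 = 1 := by
    have a1 : HasFDerivAt g (ContinuousLinearMap.id ℂ E) ((0 : ℂ) • e0) := by
      rw [zero_smul, ← h1]
      exact (hd.differentiableAt (isOpen_ball.mem_nhds (by simp))).hasFDerivAt
    have a2 := (EuclideanSpace.proj 0 : E →L[ℂ] ℂ).hasFDerivAt.comp_hasDerivAt (0 : ℂ)
      (a1.comp_hasDerivAt (0 : ℂ) ((hasDerivAt_id (0 : ℂ)).smul_const e0))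
    refine a2.deriv.trans ?_
    simp [e0]
  set p := dslope u 0 with hpd
  have hpdiff : DifferentiableOn ℂ p (ball 0 1) :=
    (Complex.differentiableOn_dslope (isOpen_ball.mem_nhds (by simp))).2 hud
  have hp0 : p 0 = 1 := by rw [hpd, dslope_same, hu1]
  have hup : ∀ w, u w = w * p w := fun w => by
    have := sub_smul_dslope u 0 w
    rw [hu0, sub_zero, sub_zero, smul_eq_mul] at this
    exact this.symm
  have hpp : ∀ w ∈ ball (0 : ℂ) 1, 0 < (p w).re := by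
    intro w hw
    by_cases hw0 : w = 0
    · simp [hw0, hp0]
    have a1 := hp _ (hm w hw) (by rw [← norm_ne_zero_iff, hn]; simpa using hw0)
    have a2 : (inner ℂ (w • e0) (g (w • e0))).re = Complex.normSq w * (p w).re := by
      have a3 : g (w • e0) 0 = w * p w := hup w
      rw [PiLp.inner_apply, Fin.sum_univ_two, a3]
      simp [e0, Complex.normSq_apply]
      ring
    rw [a2] at a1
    exact (mul_pos_iff_of_pos_left (Complex.normSq_pos.2 hw0)).1 a1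
  set e : ℂ → ℂ := fun w => (p w + p (-w)) / 2 with he
  have hneg : ∀ w ∈ ball (0 : ℂ) 1, -w ∈ ball (0 : ℂ) 1 := fun w hw => by simpa using hw
  have hed : DifferentiableOn ℂ e (ball 0 1) :=
    (hpdiff.add (hpdiff.comp differentiableOn_id.neg hneg)).div_const 2
  have hep : ∀ w ∈ ball (0 : ℂ) 1, 0 < (e w).re := fun w hw => by
    have := hpp w hw
    have := hpp _ (hneg w hw)
    simp only [he, Complex.div_ofNat_re, Complex.add_re]
    linarith
  have hne : ∀ w ∈ ball (0 : ℂ) 1, 1 + e w ≠ 0 := fun w hw h => by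
    have a1 := congrArg Complex.re h
    have := hep w hw
    simp only [Complex.add_re, Complex.one_re, Complex.zero_re] at a1
    linarith
  set ω : ℂ → ℂ := fun w => (1 - e w) / (1 + e w) with hω
  have hωd : DifferentiableOn ℂ ω (ball 0 1) :=
    (hed.const_sub 1).div (hed.const_add 1) hne
  have hω0 : ω 0 = 0 := by simp [hω, he, hp0]
  have hω1 : HasDerivAt ω 0 0 := by
    have a1 := (hωd.differentiableAt (isOpen_ball.mem_nhds (mem_ball_self one_pos))).hasDerivAt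
    have a2 : HasDerivAt ω (deriv ω 0) (-0) := by rwa [neg_zero]
    have a3 := cv (g := ω) (a2.comp 0 (hasDerivAt_neg (0 : ℂ))) (fun t => by simp [hω, he, add_comm]) rfl
    have a4 := a1.unique a3
    have a5 : deriv ω 0 = 0 := by linear_combination (1 / 2 : ℂ) * a4
    rwa [a5] at a1
  have hs := Complex.dist_le_mul_div_pow_of_mapsTo_ball_of_isLittleO (n := 1) (R₂ := 1)
    (z := (1 / 2 : ℂ)) hωd (fun w hw => ?_) ?_ (by norm_num)
  · rw [hω0, dist_zero_right, dist_zero_right] at hs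
    have hh : (1 / 2 : ℂ) ∈ ball (0 : ℂ) 1 := by norm_num
    have a1 : g ((1 / 2 : ℂ) • e0) 0 - g ((-1 / 2 : ℂ) • e0) 0 = e (1 / 2) := by
      have b1 : g ((1 / 2 : ℂ) • e0) 0 = _ := hup (1 / 2)
      have b2 : g ((-1 / 2 : ℂ) • e0) 0 = _ := hup (-1 / 2)
      rw [b1, b2, he, neg_div]
      ring
    rw [a1]
    have a2 := hep _ hh
    have a3 : 0 < ‖1 + e (1 / 2)‖ := norm_pos_iff.2 (hne _ hh)
    have a4 : ‖(1 / 2 : ℂ)‖ = 1 / 2 := by simp
    simp only [hω] at hs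
    rw [norm_div, div_le_iff₀ a3, a4] at hs
    have a5 := pow_le_pow_left₀ (norm_nonneg _) hs 2
    rw [mul_pow, Complex.sq_norm, Complex.sq_norm] at a5
    simp only [Complex.normSq_apply, Complex.sub_re, Complex.sub_im, Complex.add_re,
      Complex.add_im, Complex.one_re, Complex.one_im] at a5
    generalize e (1 / 2) = y at a2 a5 ⊢
    by_contra hc
    push Not at hc
    nlinarith [sq_nonneg y.im]
  · rw [hω0, mem_closedBall_zero_iff]
    simp only [hω]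
    rw [norm_div, div_le_one (norm_pos_iff.2 (hne w hw)),
      ← pow_le_pow_iff_left₀ (norm_nonneg _) (norm_nonneg _) two_ne_zero, Complex.sq_norm,
      Complex.sq_norm]
    have := hep w hw
    simp only [Complex.normSq_apply, Complex.sub_re, Complex.sub_im, Complex.add_re,
      Complex.add_im, Complex.one_re, Complex.one_im]
    nlinarith
  · simpa using hω1.isLittleO.norm_right

lemma dh (w : ℂ) (hw : ‖w‖ < 1) : HasDerivAt (fun w : ℂ => w * ((1 - w ^ 2) / (1 + w ^ 2)))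
    (deriv (fun w : ℂ => w * ((1 - w ^ 2) / (1 + w ^ 2))) w) w := by
  have := ne1 (sq_lt hw)
  exact DifferentiableAt.hasDerivAt (by fun_prop (disch := exact this))

lemma dh0 : deriv (fun w : ℂ => w * ((1 - w ^ 2) / (1 + w ^ 2))) 0 = 1 := by
  rw [deriv_fun_mul (by fun_prop) (by fun_prop (disch := simp))]
  simp

/-- The negation of the preceding statement: For n at least 2, A with max eigenvalue real part below twice min Re(Az,z) on the sphere, and f normalized spirallike w.r.t. A on the ball: f is a support point of that family iff h = Df^{-1} A f is a support point of N_A. -/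
theorem result :
    ¬ (∀ n : ℕ, 2 ≤ n →
  ∀ A : EuclideanSpace ℂ (Fin n) →L[ℂ] EuclideanSpace ℂ (Fin n),
  (∃ c : ℝ, (∀ z : EuclideanSpace ℂ (Fin n), ‖z‖ = 1 → c ≤ (inner ℂ z (A z)).re) ∧
     ∀ μ : ℂ, Module.End.HasEigenvalue A.toLinearMap μ → μ.re < 2 * c) →
  ∀ f : EuclideanSpace ℂ (Fin n) → EuclideanSpace ℂ (Fin n),
  (DifferentiableOn ℂ f (Metric.ball 0 1) ∧ Set.InjOn f (Metric.ball 0 1) ∧ f 0 = 0 ∧
     fderiv ℂ f 0 = ContinuousLinearMap.id ℂ (EuclideanSpace ℂ (Fin n)) ∧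
     ∀ z ∈ Metric.ball (0 : EuclideanSpace ℂ (Fin n)) 1, z ≠ 0 →
       0 < (inner ℂ z ((fderiv ℂ f z).inverse (A (f z)))).re) →
  ((∃ L : (EuclideanSpace ℂ (Fin n) → EuclideanSpace ℂ (Fin n)) → ℂ,
      ((∀ g₁ g₂ : EuclideanSpace ℂ (Fin n) → EuclideanSpace ℂ (Fin n),
          DifferentiableOn ℂ g₁ (Metric.ball 0 1) → DifferentiableOn ℂ g₂ (Metric.ball 0 1) →
          L (g₁ + g₂) = L g₁ + L g₂) ∧
       (∀ (c : ℂ) (g : EuclideanSpace ℂ (Fin n) → EuclideanSpace ℂ (Fin n)),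
          DifferentiableOn ℂ g (Metric.ball 0 1) → L (c • g) = c * L g) ∧
       ∃ K : Set (EuclideanSpace ℂ (Fin n)), IsCompact K ∧ K ⊆ Metric.ball 0 1 ∧
         ∃ C : ℝ, ∀ g : EuclideanSpace ℂ (Fin n) → EuclideanSpace ℂ (Fin n),
           DifferentiableOn ℂ g (Metric.ball 0 1) →
           ∀ M : ℝ, (∀ x ∈ K, ‖g x‖ ≤ M) → ‖L g‖ ≤ C * M) ∧
      (∃ g₁ g₂ : EuclideanSpace ℂ (Fin n) → EuclideanSpace ℂ (Fin n),
        (DifferentiableOn ℂ g₁ (Metric.ball 0 1) ∧ Set.InjOn g₁ (Metric.ball 0 1) ∧ g₁ 0 = 0 ∧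
          fderiv ℂ g₁ 0 = ContinuousLinearMap.id ℂ (EuclideanSpace ℂ (Fin n)) ∧
          ∀ z ∈ Metric.ball (0 : EuclideanSpace ℂ (Fin n)) 1, z ≠ 0 →
            0 < (inner ℂ z ((fderiv ℂ g₁ z).inverse (A (g₁ z)))).re) ∧
        (DifferentiableOn ℂ g₂ (Metric.ball 0 1) ∧ Set.InjOn g₂ (Metric.ball 0 1) ∧ g₂ 0 = 0 ∧
          fderiv ℂ g₂ 0 = ContinuousLinearMap.id ℂ (EuclideanSpace ℂ (Fin n)) ∧
          ∀ z ∈ Metric.ball (0 : EuclideanSpace ℂ (Fin n)) 1, z ≠ 0 →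
            0 < (inner ℂ z ((fderiv ℂ g₂ z).inverse (A (g₂ z)))).re) ∧
        (L g₁).re ≠ (L g₂).re) ∧
      ∀ g : EuclideanSpace ℂ (Fin n) → EuclideanSpace ℂ (Fin n),
        (DifferentiableOn ℂ g (Metric.ball 0 1) ∧ Set.InjOn g (Metric.ball 0 1) ∧ g 0 = 0 ∧
          fderiv ℂ g 0 = ContinuousLinearMap.id ℂ (EuclideanSpace ℂ (Fin n)) ∧
          ∀ z ∈ Metric.ball (0 : EuclideanSpace ℂ (Fin n)) 1, z ≠ 0 →
            0 < (inner ℂ z ((fderiv ℂ g z).inverse (A (g z)))).re) →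
        (L g).re ≤ (L f).re) ↔
   (∃ L : (EuclideanSpace ℂ (Fin n) → EuclideanSpace ℂ (Fin n)) → ℂ,
      ((∀ g₁ g₂ : EuclideanSpace ℂ (Fin n) → EuclideanSpace ℂ (Fin n),
          DifferentiableOn ℂ g₁ (Metric.ball 0 1) → DifferentiableOn ℂ g₂ (Metric.ball 0 1) →
          L (g₁ + g₂) = L g₁ + L g₂) ∧
       (∀ (c : ℂ) (g : EuclideanSpace ℂ (Fin n) → EuclideanSpace ℂ (Fin n)),
          DifferentiableOn ℂ g (Metric.ball 0 1) → L (c • g) = c * L g) ∧
       ∃ K : Set (EuclideanSpace ℂ (Fin n)), IsCompact K ∧ K ⊆ Metric.ball 0 1 ∧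
         ∃ C : ℝ, ∀ g : EuclideanSpace ℂ (Fin n) → EuclideanSpace ℂ (Fin n),
           DifferentiableOn ℂ g (Metric.ball 0 1) →
           ∀ M : ℝ, (∀ x ∈ K, ‖g x‖ ≤ M) → ‖L g‖ ≤ C * M) ∧
      (∃ g₁ g₂ : EuclideanSpace ℂ (Fin n) → EuclideanSpace ℂ (Fin n),
        (DifferentiableOn ℂ g₁ (Metric.ball 0 1) ∧ g₁ 0 = 0 ∧ fderiv ℂ g₁ 0 = A ∧
          ∀ z ∈ Metric.ball (0 : EuclideanSpace ℂ (Fin n)) 1, z ≠ 0 → 0 < (inner ℂ z (g₁ z)).re) ∧
        (DifferentiableOn ℂ g₂ (Metric.ball 0 1) ∧ g₂ 0 = 0 ∧ fderiv ℂ g₂ 0 = A ∧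
          ∀ z ∈ Metric.ball (0 : EuclideanSpace ℂ (Fin n)) 1, z ≠ 0 → 0 < (inner ℂ z (g₂ z)).re) ∧
        (L g₁).re ≠ (L g₂).re) ∧
      ∀ g : EuclideanSpace ℂ (Fin n) → EuclideanSpace ℂ (Fin n),
        (DifferentiableOn ℂ g (Metric.ball 0 1) ∧ g 0 = 0 ∧ fderiv ℂ g 0 = A ∧
          ∀ z ∈ Metric.ball (0 : EuclideanSpace ℂ (Fin n)) 1, z ≠ 0 → 0 < (inner ℂ z (g z)).re) →
        (L g).re ≤ (L (fun z => (fderiv ℂ f z).inverse (A (f z)))).re))) := by
  intro h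
  have key := (h 2 le_rfl (ContinuousLinearMap.id ℂ E) ⟨1, fun z hz => ?_, fun μ hμ => ?_⟩
    (D fun w => w / (1 - w ^ 2)) st0).2 ?_
  all_goals clear h
  · obtain ⟨L, ⟨hadd, hsm, K, hK, hKs, C, hb⟩, ⟨g₁, g₂, h1, h2, hne⟩, hmax⟩ := key
    exact hne ((nosupp L hadd hsm K hK hKs C hb hmax g₁ h1).trans
      (nosupp L hadd hsm K hK hKs C hb hmax g₂ h2).symm)
  · have : (inner ℂ z z).re = ‖z‖ ^ 2 := inner_self_eq_norm_sq (𝕜 := ℂ) z
    rw [ContinuousLinearMap.id_apply, this, hz]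
    norm_num
  · obtain ⟨v, hv⟩ := hμ.exists_hasEigenvector
    have h1 : v = μ • v := hv.apply_eq_smul
    have h2 : (1 - μ) • v = 0 := by rw [sub_smul, one_smul, ← h1, sub_self]
    have h3 : μ = 1 := (sub_eq_zero.1 ((smul_eq_zero.1 h2).resolve_right hv.2)).symm
    norm_num [h3]
  · have m1 : (1 / 2 : ℂ) • e0 ∈ ball (0 : E) 1 := by norm_num [e0, norm_smul]
    have m2 : (-1 / 2 : ℂ) • e0 ∈ ball (0 : E) 1 := by norm_num [e0, norm_smul]
    obtain ⟨b1, b2, b3⟩ := Dbasic _ _ dh (by simp) dh0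
    refine ⟨fun g => -(g ((1 / 2 : ℂ) • e0) 0 - g ((-1 / 2 : ℂ) • e0) 0),
      ⟨fun g₁ g₂ _ _ => ?_, fun c g _ => ?_, {(1 / 2 : ℂ) • e0, (-1 / 2 : ℂ) • e0},
        (Set.toFinite _).isCompact, ?_, 2, fun g _ M hM => ?_⟩,
      ⟨id, D fun w => w * ((1 - w ^ 2) / (1 + w ^ 2)),
        ⟨differentiableOn_id, rfl, fderiv_id, fun z _ hz => ?_⟩,
        ⟨b1, b2, b3, Dpos _ fun w hw => ⟨_, rfl, p0 w hw⟩⟩, ?_⟩, fun g hg => ?_⟩
    · simp only [Pi.add_apply, PiLp.add_apply]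
      ring
    · simp only [Pi.smul_apply, PiLp.smul_apply, smul_eq_mul]
      ring
    · rintro x (rfl | rfl)
      · exact m1
      · exact m2
    · have a1 := (PiLp.norm_apply_le _ 0).trans (hM _ (Or.inl rfl))
      have a2 := (PiLp.norm_apply_le _ 0).trans (hM _ (Or.inr rfl))
      rw [norm_neg]
      exact (norm_sub_le _ _).trans (by linarith)
    · have : (inner ℂ z z).re = ‖z‖ ^ 2 := inner_self_eq_norm_sq (𝕜 := ℂ) z
      rw [id, this]
      exact pow_pos (norm_pos_iff.2 hz) 2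
    · simp only [D0]
      norm_num [e0]
    · have hne : ∀ w : ℂ, ‖w‖ < 1 → (1 + w ^ 2) / (1 - w ^ 2) ^ 2 ≠ 0 := fun w hw =>
        div_ne_zero (ne1 (sq_lt hw)) (pow_ne_zero _ (ne2 (sq_lt hw)))
      have := harnack g hg.1 hg.2.1 hg.2.2.1 hg.2.2.2
      simp only [Dinv _ _ d0 hne _ m1, Dinv _ _ d0 hne _ m2, D0, Complex.neg_re]
      norm_num [e0] at this ⊢
      linarith

end Pool.Agent.S04822
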