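import Pool.Statements.S04844

set_option autoImplicit false
open Filter Topology
open Pool Pool.MP_613746_an

namespace Pool.Agent.S04844

/-- side lengths of the hierarchical blocks -/
def L : ℕ → ℕ
  | 0 => 1
  | m + 1 => 2 * L m * L m

theorem L_gt (m : ℕ) : m < L m := by
  induction m with
  | zero => simp [L]
  | succ m ih =>
    simp only [L]
    nlinarith

theorem L_pos (m : ℕ) : 0 < L m := lt_of_le_of_lt (Nat.zero_le _) (L_gt m)

theorem L_dvd (m k : ℕ) : ∃ q, L (m + k) = q * L m := by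
  induction k with
  | zero => exact ⟨1, by simp⟩
  | succ k ih =>
    obtain ⟨q, hq⟩ := ih
    refine ⟨2 * L (m + k) * q, ?_⟩
    show 2 * L (m + k) * L (m + k) = _
    rw [mul_assoc (2 * L (m + k)) q, ← hq]

theorem L_le (m k : ℕ) : L m ≤ L (m + k) := by
  obtain ⟨q, hq⟩ := L_dvd m k
  have h1 := L_pos (m + k)
  have h2 : 0 < q := by
    rcases Nat.eq_zero_or_pos q with h | h
    · rw [h] at hq; omega
    · exact h
  rw [hq]
  exact Nat.le_mul_of_pos_left _ h2

/-- colouring of the level m block whose row j is entirely true -/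
def c : ℕ → ℕ → ℕ → ℕ → Bool
  | 0, _, _, _ => true
  | m + 1, j, x, y =>
    if y / L m = j / L m then c m (j % L m) (x % L m) (y % L m)
    else !c m ((y / L m) % L m) (y % L m) (x % L m)

theorem c_row (m : ℕ) : ∀ j x, c m j x j = true := by
  induction m with
  | zero => intro j x; rfl
  | succ m ih => intro j x; simp [c, ih]

theorem divmod (a x q l : ℕ) (hx : x < l) (hq : 0 < q) :
    (a * l + x) / (q * l) = a / q ∧ (a * l + x) % (q * l) = (a % q) * l + x := by
  have h1 : a % q < q := Nat.mod_lt _ hq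
  have h2 : (a % q) * l + x < q * l := by nlinarith
  have h3 : a * l + x = ((a % q) * l + x) + (q * l) * (a / q) := by
    have := Nat.mod_add_div a q
    nth_rewrite 1 [← this]
    ring
  have h4 : 0 < q * l := by omega
  constructor
  · rw [h3, Nat.add_mul_div_left _ _ h4, Nat.div_eq_of_lt h2, zero_add]
  · rw [h3, Nat.add_mul_mod_self_left, Nat.mod_eq_of_lt h2]

theorem c_col (m j x : ℕ) :
    ∃ b, b < 2 * L m ∧ ∀ s, s < L m → c (m + 1) j x (b * L m + s) = false := by
  have hp := L_pos m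
  have hx : x % L m < L m := Nat.mod_lt _ hp
  obtain ⟨b, hb1, hb2, hb3⟩ : ∃ b, b < 2 * L m ∧ b ≠ j / L m ∧ b % L m = x % L m := by
    by_cases h : x % L m = j / L m
    · refine ⟨x % L m + L m, by omega, by omega, ?_⟩
      simp
    · exact ⟨x % L m, by omega, h, by simp⟩
  refine ⟨b, hb1, fun s hs => ?_⟩
  have h1 : (b * L m + s) / L m = b := by
    have := (divmod b s 1 (L m) hs one_pos).1
    simpa using this
  simp only [c, h1, hb2, if_false, hb3, c_row]
  rfl

theorem tile (m k : ℕ) : ∀ j a b, j < L (m + k) → a * L m + L m ≤ L (m + k) →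
    b * L m + L m ≤ L (m + k) → ∃ j', j' < L m ∧
      ((∀ x y, x < L m → y < L m → c (m + k) j (a * L m + x) (b * L m + y) = c m j' x y) ∨
       (∀ x y, x < L m → y < L m → c (m + k) j (a * L m + x) (b * L m + y) = !c m j' y x)) := by
  induction k with
  | zero =>
    intro j a b hj ha hb
    simp only [Nat.add_zero] at *
    have ha' : a * L m = 0 := by omega
    have hb' : b * L m = 0 := by omega
    exact ⟨j, hj, Or.inl fun x y _ _ => by simp [ha', hb']⟩
  | succ k ih =>
    intro j a b _ _ _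
    obtain ⟨q, hq⟩ := L_dvd m k
    have hp := L_pos (m + k)
    have hq0 : 0 < q := by
      rcases Nat.eq_zero_or_pos q with h | h
      · rw [h] at hq; omega
      · exact h
    have hbd : ∀ a, (a % q) * L m + L m ≤ L (m + k) := by
      intro a
      have h1 : a % q < q := Nat.mod_lt _ hq0
      rw [hq]
      nlinarith
    have hdm : ∀ a x, x < L m → (a * L m + x) / L (m + k) = a / q ∧
        (a * L m + x) % L (m + k) = (a % q) * L m + x := by
      intro a x hx
      rw [hq]
      exact divmod a x q (L m) hx hq0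
    by_cases hc : b / q = j / L (m + k)
    · obtain ⟨j', hj', h⟩ := ih (j % L (m + k)) (a % q) (b % q) (Nat.mod_lt _ hp) (hbd a) (hbd b)
      have e : ∀ x y, x < L m → y < L m → c (m + (k + 1)) j (a * L m + x) (b * L m + y) =
          c (m + k) (j % L (m + k)) ((a % q) * L m + x) ((b % q) * L m + y) := by
        intro x y hx hy
        show c (m + k + 1) _ _ _ = _
        simp only [c, (hdm a x hx).2, (hdm b y hy).1, (hdm b y hy).2, hc, if_true]
      refine ⟨j', hj', ?_⟩
      rcases h with h | h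
      · exact Or.inl fun x y hx hy => by rw [e x y hx hy, h x y hx hy]
      · exact Or.inr fun x y hx hy => by rw [e x y hx hy, h x y hx hy]
    · obtain ⟨j', hj', h⟩ := ih ((b / q) % L (m + k)) (b % q) (a % q) (Nat.mod_lt _ hp)
        (hbd b) (hbd a)
      have e : ∀ x y, x < L m → y < L m → c (m + (k + 1)) j (a * L m + x) (b * L m + y) =
          !c (m + k) ((b / q) % L (m + k)) ((b % q) * L m + y) ((a % q) * L m + x) := by
        intro x y hx hy
        show c (m + k + 1) _ _ _ = _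
        simp only [c, (hdm a x hx).2, (hdm b y hy).1, (hdm b y hy).2, hc, if_false]
      refine ⟨j', hj', ?_⟩
      rcases h with h | h
      · exact Or.inr fun x y hx hy => by rw [e x y hx hy, h y x hy hx]
      · exact Or.inl fun x y hx hy => by rw [e x y hx hy, h y x hy hx, Bool.not_not]

theorem c_stable (m k x y : ℕ) (hx : x < L m) (hy : y < L m) :
    c (m + k) 0 x y = c m 0 x y := by
  induction k with
  | zero => rfl
  | succ k ih =>
    have h1 : x < L (m + k) := lt_of_lt_of_le hx (L_le m k)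
    have h2 : y < L (m + k) := lt_of_lt_of_le hy (L_le m k)
    show c (m + k + 1) _ _ _ = _
    simp only [c, Nat.div_eq_of_lt h2, Nat.zero_div, if_true, Nat.zero_mod, Nat.mod_eq_of_lt h1,
      Nat.mod_eq_of_lt h2, ih]

/-- the limit colouring of the quarter plane -/
def cinf (x y : ℕ) : Bool := c (x + y) 0 x y

theorem cinf_eq (M x y : ℕ) (hx : x < L M) (hy : y < L M) : cinf x y = c M 0 x y := by
  have h1 := L_gt (x + y)
  have e1 := c_stable (x + y) M x y (by omega) (by omega)
  have e2 := c_stable M (x + y) x y hx hy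
  rw [cinf, ← e1, ← e2, add_comm M]

theorem tile_inf (m a b : ℕ) : ∃ j', j' < L m ∧
      ((∀ x y, x < L m → y < L m → cinf (a * L m + x) (b * L m + y) = c m j' x y) ∨
       (∀ x y, x < L m → y < L m → cinf (a * L m + x) (b * L m + y) = !c m j' y x)) := by
  set k := a * L m + b * L m + L m with hk
  have h1 := L_gt (m + k)
  obtain ⟨j', hj', h⟩ := tile m k 0 a b (L_pos _) (by omega) (by omega)
  have e : ∀ x y, x < L m → y < L m → cinf (a * L m + x) (b * L m + y) =
      c (m + k) 0 (a * L m + x) (b * L m + y) := fun x y hx hy =>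
    cinf_eq _ _ _ (by omega) (by omega)
  refine ⟨j', hj', ?_⟩
  rcases h with h | h
  · exact Or.inl fun x y hx hy => by rw [e x y hx hy, h x y hx hy]
  · exact Or.inr fun x y hx hy => by rw [e x y hx hy, h x y hx hy]

theorem runs (m x y : ℕ) :
    (∃ p, p ≤ x + L (m + 1) ∧ x ≤ p + L (m + 1) ∧ ∀ t, t < m → cinf (p + t) y = true) ∨
    (∃ p, p ≤ y + L (m + 1) ∧ y ≤ p + L (m + 1) ∧ ∀ t, t < m → cinf x (p + t) = false) := by
  have hp := L_pos (m + 1)
  have hm := L_gt m
  obtain ⟨j', _, h⟩ := tile_inf (m + 1) (x / L (m + 1)) (y / L (m + 1))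
  have hx0 : x % L (m + 1) < L (m + 1) := Nat.mod_lt _ hp
  have hy0 : y % L (m + 1) < L (m + 1) := Nat.mod_lt _ hp
  have ex : x / L (m + 1) * L (m + 1) + x % L (m + 1) = x := Nat.div_add_mod' _ _
  have ey : y / L (m + 1) * L (m + 1) + y % L (m + 1) = y := Nat.div_add_mod' _ _
  have hlt : ∀ b s, b < 2 * L m → s < L m → b * L m + s < L (m + 1) := by
    intro b s hb hs
    show _ < 2 * L m * L m
    nlinarith
  rcases h with h | h
  · right
    obtain ⟨b, hb, hs⟩ := c_col m j' (x % L (m + 1))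
    have h0 := hlt b 0 hb (L_pos m)
    refine ⟨y / L (m + 1) * L (m + 1) + b * L m, by omega, by omega, fun t ht => ?_⟩
    have := h (x % L (m + 1)) (b * L m + t) hx0 (hlt b t hb (by omega))
    rw [ex, hs t (by omega), ← add_assoc] at this
    exact this
  · left
    obtain ⟨b, hb, hs⟩ := c_col m j' (y % L (m + 1))
    have h0 := hlt b 0 hb (L_pos m)
    refine ⟨x / L (m + 1) * L (m + 1) + b * L m, by omega, by omega, fun t ht => ?_⟩
    have := h (b * L m + t) (y % L (m + 1)) (hlt b t hb (by omega)) hy0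
    rw [ey, hs t (by omega), ← add_assoc] at this
    exact this

theorem both (x y : ℕ) (v : Bool) :
    ∃ p q, p ≤ x + 1 ∧ x ≤ p + 1 ∧ q ≤ y + 1 ∧ y ≤ q + 1 ∧ cinf p q = v := by
  obtain ⟨j', hj', h⟩ := tile_inf 1 (x / 2) (y / 2)
  have hL : L 1 = 2 := rfl
  rw [hL] at h hj'
  have hc : ∀ j x y, c 1 j x y = decide (y = j) := by
    intro j x y
    simp [c, L]
  have key : ∃ s t, s < 2 ∧ t < 2 ∧ cinf (x / 2 * 2 + s) (y / 2 * 2 + t) = v := by
    rcases h with h | h
    · cases v
      · refine ⟨0, 1 - j', by omega, by omega, ?_⟩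
        rw [h _ _ (by omega) (by omega), hc]
        simp only [decide_eq_false_iff_not]
        omega
      · refine ⟨0, j', by omega, by omega, ?_⟩
        rw [h _ _ (by omega) (by omega), hc]
        simp
    · cases v
      · refine ⟨j', 0, by omega, by omega, ?_⟩
        rw [h _ _ (by omega) (by omega), hc]
        simp
      · refine ⟨1 - j', 0, by omega, by omega, ?_⟩
        rw [h _ _ (by omega) (by omega), hc]
        simp only [Bool.not_eq_eq_eq_not, Bool.not_true, decide_eq_false_iff_not]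
        omega
  obtain ⟨s, t, hs, ht, e⟩ := key
  exact ⟨_, _, by omega, by omega, by omega, by omega, e⟩

def R (m : ℕ) : ℤ := (L (m + 1) : ℤ) + m

/-- the defining conditions of the subshift -/
def Good (x : ℤ × ℤ → Bool) : Prop :=
  (∀ (m : ℕ) (i j : ℤ),
    (∃ p ∈ Set.Icc (i - R m) (i + R m), ∀ t : ℕ, t < m → x (p + t, j) = true) ∨
    (∃ p ∈ Set.Icc (j - R m) (j + R m), ∀ t : ℕ, t < m → x (i, p + t) = false)) ∧
  (∀ (i j : ℤ) (v : Bool), ∃ p ∈ Set.Icc (i - 1) (i + 1), ∃ q ∈ Set.Icc (j - 1) (j + 1),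
    x (p, q) = v)

theorem reflect (m : ℕ) (i : ℤ) (p : ℕ) (h1 : p ≤ i.natAbs + L (m + 1))
    (h2 : i.natAbs ≤ p + L (m + 1)) :
    ∃ p' ∈ Set.Icc (i - R m) (i + R m), ∀ t : ℕ, t < m →
      ∃ s, s < m ∧ (p' + t).natAbs = p + s := by
  by_cases hi : 0 ≤ i
  · refine ⟨p, ?_, fun t ht => ⟨t, ht, by omega⟩⟩
    simp only [Set.mem_Icc, R]
    omega
  · by_cases hm : m = 0
    · refine ⟨i, ?_, fun t ht => by omega⟩
      simp only [Set.mem_Icc, R]
      omega
    refine ⟨-(p + m - 1), ?_, fun t ht => ⟨m - 1 - t, by omega, by omega⟩⟩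
    simp only [Set.mem_Icc, R]
    omega

theorem good_ex : Good (fun k => cinf k.1.natAbs k.2.natAbs) := by
  constructor
  · intro m i j
    rcases runs m i.natAbs j.natAbs with ⟨p, h1, h2, h⟩ | ⟨p, h1, h2, h⟩
    · left
      obtain ⟨p', hp', h'⟩ := reflect m i p h1 h2
      refine ⟨p', hp', fun t ht => ?_⟩
      obtain ⟨s, hs, e⟩ := h' t ht
      simp only [e]
      exact h s hs
    · right
      obtain ⟨p', hp', h'⟩ := reflect m j p h1 h2
      refine ⟨p', hp', fun t ht => ?_⟩
      obtain ⟨s, hs, e⟩ := h' t ht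
      simp only [e]
      exact h s hs
  · intro i j v
    obtain ⟨p, q, h1, h2, h3, h4, h⟩ := both i.natAbs j.natAbs v
    have key : ∀ (i : ℤ) (p : ℕ), p ≤ i.natAbs + 1 → i.natAbs ≤ p + 1 →
        ∃ p' ∈ Set.Icc (i - 1) (i + 1), p'.natAbs = p := by
      intro i p h1 h2
      by_cases hi : 0 ≤ i
      · exact ⟨p, by simp only [Set.mem_Icc]; omega, by omega⟩
      · exact ⟨-p, by simp only [Set.mem_Icc]; omega, by omega⟩
    obtain ⟨p', hp', e1⟩ := key i p h1 h2
    obtain ⟨q', hq', e2⟩ := key j q h3 h4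
    exact ⟨p', hp', q', hq', by simp only [e1, e2]; exact h⟩

theorem closed_eq (k : ℤ × ℤ) (v : Bool) : IsClosed {x : ℤ × ℤ → Bool | x k = v} :=
  isClosed_eq (continuous_apply k) continuous_const

theorem closed_ex (a b : ℤ) (P : ℤ → (ℤ × ℤ → Bool) → Prop)
    (h : ∀ p, IsClosed {x | P p x}) : IsClosed {x | ∃ p ∈ Set.Icc a b, P p x} := by
  have : {x | ∃ p ∈ Set.Icc a b, P p x} = ⋃ p ∈ Set.Icc a b, {x | P p x} := by
    ext x
    simp only [Set.mem_ofPred_eq, Set.mem_iUnion, exists_prop]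
  rw [this]
  exact (Set.finite_Icc a b).isClosed_biUnion fun p _ => h p

theorem closed_all {ι : Sort*} (P : ι → (ℤ × ℤ → Bool) → Prop)
    (h : ∀ p, IsClosed {x | P p x}) : IsClosed {x | ∀ p, P p x} := by
  have : {x | ∀ p, P p x} = ⋂ p, {x | P p x} := by
    ext x
    simp only [Set.mem_ofPred_eq, Set.mem_iInter]
  rw [this]
  exact isClosed_iInter h

theorem good_closed : IsClosed {x | Good x} := by
  refine IsClosed.inter ?_ ?_
  · refine closed_all _ fun m => closed_all _ fun i => closed_all _ fun j => IsClosed.union ?_ ?_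
    · exact closed_ex _ _ _ fun p => closed_all _ fun t => closed_all _ fun _ => closed_eq _ _
    · exact closed_ex _ _ _ fun p => closed_all _ fun t => closed_all _ fun _ => closed_eq _ _
  · refine closed_all _ fun i => closed_all _ fun j => closed_all _ fun v => ?_
    exact closed_ex _ _ _ fun p => closed_ex _ _ _ fun q => closed_eq _ _

theorem good_shift (a b : ℤ) (x : ℤ × ℤ → Bool) (hx : Good x) :
    Good (fun k => x (k.1 + a, k.2 + b)) := by
  constructor
  · intro m i j
    rcases hx.1 m (i + a) (j + b) with ⟨p, hp, h⟩ | ⟨p, hp, h⟩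
    · left
      refine ⟨p - a, ?_, fun t ht => ?_⟩
      · simp only [Set.mem_Icc] at hp ⊢
        omega
      · have e : p - a + t + a = p + t := by ring
        simp only [e]
        exact h t ht
    · right
      refine ⟨p - b, ?_, fun t ht => ?_⟩
      · simp only [Set.mem_Icc] at hp ⊢
        omega
      · have e : p - b + t + b = p + t := by ring
        simp only [e]
        exact h t ht
  · intro i j v
    obtain ⟨p, hp, q, hq, h⟩ := hx.2 (i + a) (j + b) v
    refine ⟨p - a, ?_, q - b, ?_, ?_⟩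
    · simp only [Set.mem_Icc] at hp ⊢
      omega
    · simp only [Set.mem_Icc] at hq ⊢
      omega
    · simpa using h

abbrev X : Type := {x : ℤ × ℤ → Bool // Good x}

def sh (a b : ℤ) (x : X) : X := ⟨fun k => x.1 (k.1 + a, k.2 + b), good_shift a b x.1 x.2⟩

theorem sh_cont (a b : ℤ) : Continuous (sh a b) := by
  refine Continuous.subtype_mk ?_ _
  exact continuous_pi fun k => (continuous_apply _).comp continuous_subtype_val

theorem sh_iter (a b : ℤ) (n : ℕ) (x : X) (k : ℤ × ℤ) :
    ((sh a b)^[n] x).1 k = x.1 (k.1 + n * a, k.2 + n * b) := by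
  induction n generalizing k with
  | zero => simp
  | succ n ih =>
    rw [Function.iterate_succ_apply']
    show ((sh a b)^[n] x).1 (k.1 + a, k.2 + b) = _
    rw [ih]
    have e1 : k.1 + a + n * a = k.1 + ((n + 1 : ℕ) : ℤ) * a := by push_cast; ring
    have e2 : k.2 + b + n * b = k.2 + ((n + 1 : ℕ) : ℤ) * b := by push_cast; ring
    simp only [e1, e2]

theorem nhds_fin (x : X) (s : ℕ → ℤ × ℤ) (n : ℕ) :
    {y : X | ∀ t, t < n → y.1 (s t) = x.1 (s t)} ∈ 𝓝 x := by
  have : {y : X | ∀ t, t < n → y.1 (s t) = x.1 (s t)} =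
      ⋂ t ∈ Set.Iio n, {y : X | y.1 (s t) = x.1 (s t)} := by
    ext y
    simp only [Set.mem_ofPred_eq, Set.mem_iInter, Set.mem_Iio]
  rw [this, Filter.biInter_mem (Set.finite_Iio n)]
  intro t _
  have hc : Continuous fun y : X => y.1 (s t) := (continuous_apply _).comp continuous_subtype_val
  exact hc.continuousAt.preimage_mem_nhds
    ((isOpen_discrete {x.1 (s t)}).mem_nhds rfl)

/-- a line of a uniformly recurrent configuration with arbitrarily long runs is constant -/
theorem line_const (w : ℤ → Bool) (v : Bool)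
    (hUR : ∀ (p : ℤ) (n : ℕ), ∃ N : ℕ, ∀ m : ℕ, ∃ k : ℕ, m ≤ k ∧ k ≤ m + N ∧
      ∀ t : ℕ, t < n → w (p + t + k) = w (p + t))
    (hrun : ∀ m : ℕ, ∃ p : ℤ, ∀ t : ℕ, t < m → w (p + t) = v) (i : ℤ) : w i = v := by
  obtain ⟨N, hN⟩ := hUR i 1
  obtain ⟨p, hp⟩ := hrun (N + 1)
  obtain ⟨N', hN'⟩ := hUR p (N + 1)
  obtain ⟨k', hk1, _, hk'⟩ := hN' (i - p).toNat
  obtain ⟨k, h1, h2, h3⟩ := hN (p + k' - i).toNat
  have e1 := h3 0 one_pos
  have ht : (i + k - p - k').toNat < N + 1 := by omega
  have e2 := hk' _ ht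
  have e3 := hp _ ht
  have e4 : p + ((i + k - p - k').toNat : ℤ) + k' = i + (0 : ℕ) + k := by omega
  rw [e4, e1, e3] at e2
  simpa using e2

/-- The negation of the preceding statement: For any nonempty compact metric space and commuting continuous maps f, g on it, some point x is uniformly recurrent for both: for each neighbourhood U of x, the times n with f^n(x) in U (resp. g^n(x) in U) have bounded gaps. -/
theorem result :
    ¬ (∀ (X : Type) [MetricSpace X] [CompactSpace X] [Nonempty X]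
      (f g : X → X), Continuous f → Continuous g → f ∘ g = g ∘ f →
      ∃ x : X,
        (∀ U ∈ 𝓝 x, ∃ N : ℕ, ∀ m : ℕ, ∃ k : ℕ, m ≤ k ∧ k ≤ m + N ∧ f^[k] x ∈ U) ∧
        (∀ U ∈ 𝓝 x, ∃ N : ℕ, ∀ m : ℕ, ∃ k : ℕ, m ≤ k ∧ k ≤ m + N ∧ g^[k] x ∈ U)) := by
  intro h
  haveI : CompactSpace X := isCompact_iff_compactSpace.1 good_closed.isCompact
  haveI : Nonempty X := ⟨⟨_, good_ex⟩⟩
  haveI : TopologicalSpace.MetrizableSpace X :=
    Topology.IsEmbedding.subtypeVal.metrizableSpace
  letI : MetricSpace X := TopologicalSpace.metrizableSpaceMetric X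
  obtain ⟨x, hf, hg⟩ := h X (sh 1 0) (sh 0 1) (sh_cont 1 0) (sh_cont 0 1) (by
    funext x
    apply Subtype.ext
    funext k
    simp [sh])
  have hrow : ∀ j : ℤ, (∀ m : ℕ, ∃ p : ℤ, ∀ t : ℕ, t < m → x.1 (p + t, j) = true) →
      ∀ i, x.1 (i, j) = true := by
    intro j hr i
    refine line_const (fun i => x.1 (i, j)) true (fun p n => ?_) hr i
    obtain ⟨N, hN⟩ := hf _ (nhds_fin x (fun t => (p + t, j)) n)
    refine ⟨N, fun m => ?_⟩
    obtain ⟨k, h1, h2, h3⟩ := hN m
    refine ⟨k, h1, h2, fun t ht => ?_⟩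
    have := h3 t ht
    rw [sh_iter] at this
    simpa using this
  have hcol : ∀ i : ℤ, (∀ m : ℕ, ∃ p : ℤ, ∀ t : ℕ, t < m → x.1 (i, p + t) = false) →
      ∀ j, x.1 (i, j) = false := by
    intro i hr j
    refine line_const (fun j => x.1 (i, j)) false (fun p n => ?_) hr j
    obtain ⟨N, hN⟩ := hg _ (nhds_fin x (fun t => (i, p + t)) n)
    refine ⟨N, fun m => ?_⟩
    obtain ⟨k, h1, h2, h3⟩ := hN m
    refine ⟨k, h1, h2, fun t ht => ?_⟩
    have := h3 t ht
    rw [sh_iter] at this
    simpa using this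
  obtain ⟨i0, _, j0, _, e0⟩ := x.2.2 0 0 false
  obtain ⟨i1, _, j1, _, e1⟩ := x.2.2 0 0 true
  have n0 : ¬ ∀ m : ℕ, ∃ p : ℤ, ∀ t : ℕ, t < m → x.1 (p + t, j0) = true := by
    intro hh
    rw [hrow j0 hh i0] at e0
    exact absurd e0 (by simp)
  have n1 : ¬ ∀ m : ℕ, ∃ p : ℤ, ∀ t : ℕ, t < m → x.1 (i1, p + t) = false := by
    intro hh
    rw [hcol i1 hh j1] at e1
    exact absurd e1 (by simp)
  rw [not_forall] at n0 n1
  obtain ⟨m0, hm0⟩ := n0
  obtain ⟨m1, hm1⟩ := n1
  rcases x.2.1 (m0 + m1) i1 j0 with ⟨p, _, hp⟩ | ⟨p, _, hp⟩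
  · exact hm0 ⟨p, fun t ht => hp t (by omega)⟩
  · exact hm1 ⟨p, fun t ht => hp t (by omega)⟩

end Pool.Agent.S04844
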