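import Pool.Statements.S04875
import Pool.Agent.H6.TauD

set_option autoImplicit false
open Pool Pool.MP_64ccd3_an

namespace Pool.Agent.S04875


/-- Suppose a power series has radius 1, its partial sums are uniformly bounded on its singular set E, and E has positive measure on the circle. Then at every circle point outside E the series converges to the value of the local analytic continuation. -/
theorem result :
  ∀ (a : ℕ → ℂ) (E : Set ℂ),
    (FormalMultilinearSeries.ofScalars ℂ a).radius = 1 →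
    E = {ξ : ℂ | ‖ξ‖ = 1 ∧ ¬ ∃ r : ℝ, 0 < r ∧ ∃ g : ℂ → ℂ,
          DifferentiableOn ℂ g (Metric.ball ξ r) ∧
          ∀ w ∈ Metric.ball ξ r, ‖w‖ < 1 → g w = ∑' n, a n * w ^ n} →
    (∃ M : ℝ, ∀ ξ ∈ E, ∀ N : ℕ, ‖∑ n ∈ Finset.range (N + 1), a n * ξ ^ n‖ ≤ M) →
    0 < MeasureTheory.volume
          {θ : ℝ | θ ∈ Set.Ioc 0 (2 * Real.pi) ∧ Complex.exp ((θ : ℂ) * Complex.I) ∈ E} →
    ∀ z : ℂ, ‖z‖ = 1 → z ∉ E →
      ∃ L : ℂ, Filter.Tendsto (fun N : ℕ => ∑ n ∈ Finset.range N, a n * z ^ n)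
            Filter.atTop (nhds L) ∧
        ∃ r : ℝ, 0 < r ∧ ∃ g : ℂ → ℂ, DifferentiableOn ℂ g (Metric.ball z r) ∧
          (∀ w ∈ Metric.ball z r, ‖w‖ < 1 → g w = ∑' n, a n * w ^ n) ∧ g z = L := by
  rintro a E - hE ⟨M, hM⟩ hpos z hz hzE
  obtain ⟨c, -, hc⟩ := MeasureTheory.nonempty_of_measure_ne_zero hpos.ne'
  subst hE
  have ha := Pool.Agent.H6.Tau.coeff_zero (a := a) (M := M) (c := c) hc.2
    (fun ξ h1 h2 => hM ξ ⟨h1, h2⟩)
  have hreg : Pool.Agent.H6.Tau.Reg a z := by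
    by_contra h
    exact hzE ⟨hz, h⟩
  obtain ⟨r, hr, g, hg, hgf⟩ := hreg
  exact ⟨g z, Pool.Agent.H6.Tau.fatou_riesz ha hz hr hg hgf, r, hr, g, hg, hgf, rfl⟩

end Pool.Agent.S04875
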