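import Pool.Statements.S04889

set_option autoImplicit false
open Pool Pool.MP_65dae3_an

namespace Pool.Agent.S04889

noncomputable def push (π : ℕ → ℕ) (f : ℕ → ℝ) (n : ℕ) : ℝ := ∑' b : π ⁻¹' {n}, f b

lemma push_sum (π : ℕ → ℕ) (f δ : ℕ → ℝ) (a : ℝ) (h : HasSum (fun l => δ (π l) * f l) a) :
    HasSum (fun n => δ n * push π f n) a := by
  have h1 := h.tsum_fiberwise π
  have h2 : (fun n => δ n * push π f n) =
      fun n => ∑' b : π ⁻¹' {n}, δ (π b) * f b := by
    funext n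
    rw [push, ← tsum_mul_left]
    refine tsum_congr fun b => ?_
    have : π b = n := b.2
    rw [this]
  rw [h2]
  exact h1

def P (l : ℕ) : ℕ := (Nat.unpair l).1
def Q (l : ℕ) : ℕ := (Nat.unpair l).2
def A (l : ℕ) : ℤ := if (P l).sqrt = (Q l).sqrt then 0 else 1
def B (l : ℕ) : ℤ := if (P l).sqrt = (Q l).sqrt then 0 else if P l < Q l then 1 else -1

lemma A_le (l : ℕ) : |A l| ≤ 1 := by
  unfold A
  split_ifs <;> simp

lemma B_le (l : ℕ) : |B l| ≤ 1 := by
  unfold B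
  split_ifs <;> simp

noncomputable def x (n : ℕ) : ℝ :=
  push (fun l => 2 * l + 1) (fun l => (1 / 8) ^ l) n -
    push (fun l => 2 * P l) (fun l => A l * (1 / 8) ^ l) n -
    push (fun l => 2 * Q l) (fun l => B l * (1 / 8) ^ l) n

lemma summ (c : ℕ → ℤ) (m : ℤ) (hc : ∀ l, |c l| ≤ m) :
    Summable fun l => (c l : ℝ) * (1 / 8) ^ l := by
  refine Summable.of_norm_bounded
    ((summable_geometric_of_lt_one (r := 1 / 8) (by norm_num) (by norm_num)).mul_left (m : ℝ))
    fun l => ?_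
  rw [norm_mul, Real.norm_of_nonneg (by positivity : (0 : ℝ) ≤ (1 / 8) ^ l)]
  gcongr
  rw [Real.norm_eq_abs]
  exact_mod_cast hc l

def coef (d : ℕ → ℤ) (l : ℕ) : ℤ := d (2 * l + 1) - d (2 * P l) * A l - d (2 * Q l) * B l

lemma mul_le {a b : ℤ} (ha : |a| ≤ 1) (hb : |b| ≤ 1) : |a * b| ≤ 1 := by
  rw [abs_mul]
  exact mul_le_one₀ ha (abs_nonneg _) hb

lemma coef_le (d : ℕ → ℤ) (hd : ∀ n, |d n| ≤ 1) (l : ℕ) : |coef d l| ≤ 3 := by
  have h1 := abs_le.1 (hd (2 * l + 1))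
  have h2 := abs_le.1 (mul_le (hd (2 * P l)) (A_le l))
  have h3 := abs_le.1 (mul_le (hd (2 * Q l)) (B_le l))
  unfold coef
  rw [abs_le]
  constructor <;> omega

lemma hs (d : ℕ → ℤ) (hd : ∀ n, |d n| ≤ 1) :
    HasSum (fun n => (d n : ℝ) * x n) (∑' l, (coef d l : ℝ) * (1 / 8) ^ l) := by
  have s0 := summ (fun l => d (2 * l + 1)) 1 fun l => hd _
  have s1 := summ (fun l => d (2 * P l) * A l) 1 fun l => mul_le (hd _) (A_le l)
  have s2 := summ (fun l => d (2 * Q l) * B l) 1 fun l => mul_le (hd _) (B_le l)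
  have h0 := push_sum (fun l => 2 * l + 1) (fun l => (1 / 8) ^ l) (fun n => d n) _ s0.hasSum
  have h1 := push_sum (fun l => 2 * P l) (fun l => A l * (1 / 8) ^ l) (fun n => d n) _
    (by simpa only [Int.cast_mul, mul_assoc] using s1.hasSum)
  have h2 := push_sum (fun l => 2 * Q l) (fun l => B l * (1 / 8) ^ l) (fun n => d n) _
    (by simpa only [Int.cast_mul, mul_assoc] using s2.hasSum)
  have h3 := (h0.sub h1).sub h2
  have h4 := ((s0.hasSum.sub s1.hasSum).sub s2.hasSum).tsum_eq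
  rw [tsum_congr (g := fun l => (coef d l : ℝ) * (1 / 8) ^ l) (fun l => by
    simp only [coef]
    push_cast
    ring)] at h4
  rw [h4]
  simp only [Int.cast_mul, mul_assoc] at h3 ⊢
  simpa only [x, mul_sub] using h3

lemma digit0 (c : ℕ → ℤ) (hc : ∀ l, |c l| ≤ 3) (h : ∑' l, (c l : ℝ) * (1 / 8) ^ l = 0) :
    c 0 = 0 ∧ ∑' l, (c (l + 1) : ℝ) * (1 / 8) ^ l = 0 := by
  rw [(summ c 3 hc).tsum_eq_zero_add] at h
  have h1 : ∑' l, (c (l + 1) : ℝ) * (1 / 8) ^ (l + 1) =
      1 / 8 * ∑' l, (c (l + 1) : ℝ) * (1 / 8) ^ l := by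
    rw [← tsum_mul_left]
    exact tsum_congr fun l => by ring
  have h2 : ‖∑' l, (c (l + 1) : ℝ) * (1 / 8) ^ l‖ ≤ 3 * (1 - 1 / 8)⁻¹ := by
    refine tsum_of_norm_bounded
      ((hasSum_geometric_of_lt_one (r := 1 / 8) (by norm_num) (by norm_num)).mul_left 3) fun l => ?_
    rw [norm_mul, Real.norm_of_nonneg (by positivity : (0 : ℝ) ≤ (1 / 8) ^ l)]
    gcongr
    rw [Real.norm_eq_abs]
    exact_mod_cast hc (l + 1)
  rw [h1, pow_zero, mul_one] at h
  rw [Real.norm_eq_abs, abs_le] at h2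
  have h3 : (c 0 : ℝ) < 1 := by linarith [h2.1]
  have h4 : (-1 : ℝ) < c 0 := by linarith [h2.2]
  have h5 : c 0 < 1 := by exact_mod_cast h3
  have h6 : -1 < c 0 := by exact_mod_cast h4
  have h7 : c 0 = 0 := by omega
  refine ⟨h7, ?_⟩
  rw [h7] at h
  simpa using h

lemma digits (n : ℕ) : ∀ (c : ℕ → ℤ), (∀ l, |c l| ≤ 3) → ∑' l, (c l : ℝ) * (1 / 8) ^ l = 0 →
    c n = 0 := by
  induction n with
  | zero => exact fun c hc h => (digit0 c hc h).1
  | succ n ih => exact fun c hc h => ih (fun l => c (l + 1)) (fun l => hc _) (digit0 c hc h).2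

def bit (b : Bool) : ℤ := if b = true then 1 else 0

noncomputable def S (ε : ℕ → Bool) : ℝ := ∑' n, (if ε n = true then x n else 0)

lemma S_eq (ε : ℕ → Bool) : S ε = ∑' l, (coef (fun n => bit (ε n)) l : ℝ) * (1 / 8) ^ l := by
  rw [← (hs _ (fun n => by unfold bit; split_ifs <;> simp)).tsum_eq]
  refine tsum_congr fun n => ?_
  unfold bit
  split_ifs <;> simp

def dif (ε ε' : ℕ → Bool) (n : ℕ) : ℤ := bit (ε n) - bit (ε' n)

lemma dif_le (ε ε' : ℕ → Bool) (n : ℕ) : |dif ε ε' n| ≤ 1 := by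
  unfold dif bit
  split_ifs <;> simp

lemma rel (ε ε' : ℕ → Bool) : S ε = S ε' ↔ ∀ l, coef (dif ε ε') l = 0 := by
  have hb : ∀ (ε : ℕ → Bool) n, |bit (ε n)| ≤ 1 := fun ε n => by unfold bit; split_ifs <;> simp
  have h : S ε - S ε' = ∑' l, (coef (dif ε ε') l : ℝ) * (1 / 8) ^ l := by
    rw [S_eq, S_eq, ← (summ _ 3 (coef_le _ (hb ε))).tsum_sub (summ _ 3 (coef_le _ (hb ε')))]
    refine tsum_congr fun l => ?_
    simp only [coef, dif]
    push_cast
    ring
  rw [← sub_eq_zero, h]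
  exact ⟨fun h0 l => digits l _ (coef_le _ (dif_le ε ε')) h0, fun h0 => by simp [h0]⟩

lemma dif_zero (ε ε' : ℕ → Bool) (n : ℕ) : dif ε ε' n = 0 ↔ ε n = ε' n := by
  unfold dif bit
  cases ε n <;> cases ε' n <;> simp

lemma conflict {ε ε' : ℕ → Bool} (h : S ε = S ε') {p q : ℕ} (hp : ε (2 * p) ≠ ε' (2 * p))
    (hq : ε (2 * q) ≠ ε' (2 * q)) : p.sqrt = q.sqrt := by
  by_contra hne
  rw [rel] at h
  have h1 := h (Nat.pair p q)
  have h2 := h (Nat.pair q p)
  have b1 := abs_le.1 (dif_le ε ε' (2 * Nat.pair p q + 1))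
  have b2 := abs_le.1 (dif_le ε ε' (2 * Nat.pair q p + 1))
  have b3 := abs_le.1 (dif_le ε ε' (2 * p))
  have b4 := abs_le.1 (dif_le ε ε' (2 * q))
  rw [Ne, ← dif_zero] at hp hq
  have hpq : p ≠ q := fun e => hne (by rw [e])
  simp only [coef, A, B, P, Q, Nat.unpair_pair, if_neg hne, if_neg (Ne.symm hne)] at h1 h2
  split_ifs at h1 h2 <;> omega

lemma det {ε ε' : ℕ → Bool} (h : S ε = S ε') (he : ∀ c, ε (2 * c) = ε' (2 * c)) : ε = ε' := by
  rw [rel] at h
  funext n
  obtain ⟨l, rfl | rfl⟩ := Nat.even_or_odd' n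
  · exact he l
  · have h1 := h l
    simp only [coef, (dif_zero _ _ _).2 (he _)] at h1
    exact (dif_zero _ _ _).1 (by simpa using h1)

lemma fin (t : ℝ) : Finite {ε : ℕ → Bool // S ε = t} := by
  rcases isEmpty_or_nonempty {ε : ℕ → Bool // S ε = t} with h | ⟨⟨ε0, h0⟩⟩
  · infer_instance
  obtain ⟨j, hj⟩ : ∃ j : ℕ, ∀ ε, S ε = t → ∀ c : ℕ, c.sqrt ≠ j → ε (2 * c) = ε0 (2 * c) := by
    by_cases h : ∃ ε1 c1, S ε1 = t ∧ ε1 (2 * c1) ≠ ε0 (2 * c1)
    · obtain ⟨ε1, c1, h1, hc1⟩ := h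
      refine ⟨c1.sqrt, fun ε hε c hc => ?_⟩
      by_contra hne
      have e1 : ε (2 * c1) = ε0 (2 * c1) := by
        by_contra e
        exact hc (conflict (hε.trans h0.symm) hne e)
      have e2 : ε1 (2 * c) = ε0 (2 * c) := by
        by_contra e
        exact hc (conflict (h1.trans h0.symm) e hc1)
      exact hc (conflict (hε.trans h1.symm) (by rw [e2]; exact hne) (by rw [e1]; exact hc1.symm))
    · push Not at h
      exact ⟨0, fun ε hε c _ => h ε c hε⟩
  refine Finite.of_injective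
    (fun ε : {ε : ℕ → Bool // S ε = t} => fun c : Fin ((j + 1) ^ 2) => ε.1 (2 * c)) ?_
  intro ε ε' h
  refine Subtype.ext (det (ε.2.trans ε'.2.symm) fun c => ?_)
  by_cases hc : c.sqrt = j
  · exact congrFun h ⟨c, hc ▸ Nat.lt_succ_sqrt' c⟩
  · rw [hj _ ε.2 c hc, hj _ ε'.2 c hc]

def od (j c l : ℕ) : Bool :=
  if (P l).sqrt = (Q l).sqrt then false else
    if (P l).sqrt = j then decide (P l = c) else
      if (Q l).sqrt = j then (if P l < Q l then decide (Q l = c) else !decide (Q l = c)) else false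

def pt (j c : ℕ) (n : ℕ) : Bool := if n % 2 = 0 then decide (n / 2 = c) else od j c (n / 2)

lemma pt_even (j c n : ℕ) : pt j c (2 * n) = decide (n = c) := by simp [pt]

lemma pt_odd (j c n : ℕ) : pt j c (2 * n + 1) = od j c n := by
  have h1 : (2 * n + 1) % 2 = 1 := by omega
  have h2 : (2 * n + 1) / 2 = n := by omega
  simp [pt, h1, h2]

lemma pt_eq (j c c' : ℕ) (hc : c.sqrt = j) (hc' : c'.sqrt = j) : S (pt j c) = S (pt j c') := by
  rw [rel]
  intro l
  simp only [coef, dif, pt_even, pt_odd, od, A, B]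
  generalize P l = p
  generalize Q l = q
  by_cases h1 : p.sqrt = q.sqrt
  · simp [h1]
  by_cases h2 : p.sqrt = j
  · have e1 : q ≠ c := fun e => h1 (by rw [h2, e, hc])
    have e2 : q ≠ c' := fun e => h1 (by rw [h2, e, hc'])
    simp [if_neg h1, if_pos h2, e1, e2]
  have e1 : p ≠ c := fun e => h2 (by rw [e, hc])
  have e2 : p ≠ c' := fun e => h2 (by rw [e, hc'])
  by_cases h3 : q.sqrt = j
  · simp only [if_neg h1, if_neg h2, if_pos h3, e1, e2]
    by_cases h4 : p < q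
    · simp [if_pos h4]
    · simp only [if_neg h4]
      cases decide (q = c) <;> cases decide (q = c') <;> simp [bit]
  · have e3 : q ≠ c := fun e => h3 (by rw [e, hc])
    have e4 : q ≠ c' := fun e => h3 (by rw [e, hc'])
    simp [if_neg h1, if_neg h3, e1, e2, e3, e4]

/-- There is an absolutely convergent real series such that, counting 0-1 sequences whose subsum equals t, some t gives arbitrarily large finite counts, and no t gives countably infinitely many or continuum many. -/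
theorem result :
    ∃ x : ℕ → ℝ, Summable (fun n => |x n|) ∧
      (∀ N : ℕ, ∃ t : ℝ, ∃ k : ℕ, N ≤ k ∧
        Cardinal.mk {ε : ℕ → Bool // ∑' n, (if ε n = true then x n else 0) = t} = (k : Cardinal)) ∧
      (∀ t : ℝ,
        Cardinal.mk {ε : ℕ → Bool // ∑' n, (if ε n = true then x n else 0) = t} ≠ Cardinal.aleph0 ∧
        Cardinal.mk {ε : ℕ → Bool // ∑' n, (if ε n = true then x n else 0) = t} ≠ Cardinal.continuum) := by
  refine ⟨x, ?_, fun N => ?_, fun t => ?_⟩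
  · rw [summable_abs_iff]
    simpa using (hs (fun _ => 1) (fun _ => by simp)).summable
  · have hsq : ∀ i : Fin (N + 1), (N * N + i).sqrt = N := fun i =>
      Nat.sqrt_add_eq N (by have := i.2; omega)
    have := fin (S (pt N (N * N + (0 : Fin (N + 1)))))
    refine ⟨S (pt N (N * N + (0 : Fin (N + 1)))),
      Nat.card {ε : ℕ → Bool // S ε = S (pt N (N * N + (0 : Fin (N + 1))))}, ?_,
      (Nat.cast_card (α := {ε : ℕ → Bool // S ε = S (pt N (N * N + (0 : Fin (N + 1))))})).symm⟩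
    have h := Nat.card_le_card_of_injective
      (fun i : Fin (N + 1) => (⟨pt N (N * N + i), pt_eq _ _ _ (hsq i) (hsq 0)⟩ :
        {ε : ℕ → Bool // S ε = S (pt N (N * N + (0 : Fin (N + 1))))})) (by
      intro i i' h
      have h1 := congrFun (congrArg Subtype.val h) (2 * (N * N + i))
      simp only [pt_even] at h1
      exact Fin.ext (by simpa using h1))
    rw [Nat.card_fin] at h
    omega
  · have := fin t
    have h : Cardinal.mk {ε : ℕ → Bool // S ε = t} < Cardinal.aleph0 := Cardinal.mk_lt_aleph0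
    exact ⟨h.ne, (h.trans Cardinal.aleph0_lt_continuum).ne⟩

end Pool.Agent.S04889
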