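import Pool.Statements.S04908
-- import your own Pool.Agent.* helpers here

set_option autoImplicit false
open Pool Pool.MP_68b5a7_an

namespace Pool.Agent.S04908

noncomputable def th : ℝ := Real.sqrt 2 / 4

lemma th_bounds : 1 / 4 < th ∧ th < 1 / 2 := by
  have h1 : (1 : ℝ) < Real.sqrt 2 := Real.lt_sqrt_of_sq_lt (by norm_num)
  have h2 : Real.sqrt 2 < 2 := (Real.sqrt_lt' (by norm_num)).2 (by norm_num)
  unfold th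
  constructor <;> linarith

lemma th_irr (n : ℕ) (hn : 1 ≤ n) (j : ℤ) : (n : ℝ) * th ≠ j / 2 := by
  intro h
  have hn0 : (n : ℝ) ≠ 0 := by positivity
  refine irrational_sqrt_two ⟨(2 * j : ℚ) / n, ?_⟩
  unfold th at h
  push_cast
  field_simp
  linarith

noncomputable def ph (p : ℝ × ℝ) : ℝ × ℝ :=
  if p.1 < 1 / 2 ∧ p.2 < 1 / 2 then
    (if p.1 < 1 / 2 - th then p.1 + th else p.1 + (th - 1 / 2),
      if p.2 < th then p.2 + (1 / 2 - th) else p.2 + -th)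
  else (p.1 + 0, p.2 + 0)

lemma orbit (N : ℕ) : (ph^[N + 1] (0, 0)).1 + (ph^[N + 1] (0, 0)).2 = 1 / 2 ∧
    0 < (ph^[N + 1] (0, 0)).1 ∧ (ph^[N + 1] (0, 0)).1 < 1 / 2 ∧
    ∃ j : ℤ, (ph^[N + 1] (0, 0)).1 = (N + 1 : ℕ) * th - j / 2 := by
  obtain ⟨t1, t2⟩ := th_bounds
  induction N with
  | zero =>
    have : ph (0, 0) = (th, 1 / 2 - th) := by
      unfold ph
      rw [if_pos (by norm_num), if_pos (by simp only []; linarith), if_pos (by simp only []; linarith)]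
      simp
    simp only [zero_add, Function.iterate_one, this]
    exact ⟨by ring, by linarith, t2, 0, by simp⟩
  | succ N ih =>
    rw [Function.iterate_succ_apply']
    obtain ⟨h1, h2, h3, j, hj⟩ := ih
    set p := ph^[N + 1] (0, 0)
    have hne : p.1 ≠ 1 / 2 - th := fun h => th_irr (N + 2) (by omega) (j + 1) (by
      push_cast at hj ⊢; linarith)
    unfold ph
    rw [if_pos ⟨h3, by linarith⟩]
    rcases lt_or_gt_of_ne hne with h | h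
    · rw [if_pos h, if_neg (by linarith)]
      exact ⟨by simp only []; linarith, by simp only []; linarith, by simp only []; linarith, j,
        by simp only []; push_cast at hj ⊢; linarith⟩
    · rw [if_neg (by linarith), if_pos (by linarith)]
      exact ⟨by simp only []; linarith, by simp only []; linarith, by simp only []; linarith, j + 1,
        by simp only []; push_cast at hj ⊢; linarith⟩

noncomputable def A1 : Fin 6 → ℝ := ![0, 0, 1 / 2 - th, 1 / 2 - th, 1 / 2, 0]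
noncomputable def B1 : Fin 6 → ℝ := ![1 / 2 - th, 1 / 2 - th, 1 / 2, 1 / 2, 1, 1]
noncomputable def A2 : Fin 6 → ℝ := ![0, th, 0, th, 0, 1 / 2]
noncomputable def B2 : Fin 6 → ℝ := ![th, 1 / 2, th, 1 / 2, 1 / 2, 1]
noncomputable def V1 : Fin 6 → ℝ := ![th, th, th - 1 / 2, th - 1 / 2, 0, 0]
noncomputable def V2 : Fin 6 → ℝ := ![1 / 2 - th, -th, 1 / 2 - th, -th, 0, 0]

lemma src (r : Fin 6) (x y : ℝ) (h : (x, y) ∈ Set.Ico (A1 r) (B1 r) ×ˢ Set.Ico (A2 r) (B2 r)) :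
    (r = 0 ∧ 0 ≤ x ∧ x < 1 / 2 - th ∧ 0 ≤ y ∧ y < th) ∨
    (r = 1 ∧ 0 ≤ x ∧ x < 1 / 2 - th ∧ th ≤ y ∧ y < 1 / 2) ∨
    (r = 2 ∧ 1 / 2 - th ≤ x ∧ x < 1 / 2 ∧ 0 ≤ y ∧ y < th) ∨
    (r = 3 ∧ 1 / 2 - th ≤ x ∧ x < 1 / 2 ∧ th ≤ y ∧ y < 1 / 2) ∨
    (r = 4 ∧ 1 / 2 ≤ x ∧ x < 1 ∧ 0 ≤ y ∧ y < 1 / 2) ∨
    (r = 5 ∧ 0 ≤ x ∧ x < 1 ∧ 1 / 2 ≤ y ∧ y < 1) := by
  obtain ⟨⟨a1, a2⟩, a3, a4⟩ := h
  fin_cases r
  · exact Or.inl ⟨rfl, a1, a2, a3, a4⟩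
  · exact Or.inr (Or.inl ⟨rfl, a1, a2, a3, a4⟩)
  · exact Or.inr (Or.inr (Or.inl ⟨rfl, a1, a2, a3, a4⟩))
  · exact Or.inr (Or.inr (Or.inr (Or.inl ⟨rfl, a1, a2, a3, a4⟩)))
  · exact Or.inr (Or.inr (Or.inr (Or.inr (Or.inl ⟨rfl, a1, a2, a3, a4⟩))))
  · exact Or.inr (Or.inr (Or.inr (Or.inr (Or.inr ⟨rfl, a1, a2, a3, a4⟩))))

lemma tgt (r : Fin 6) (x y : ℝ) (h : (x, y) ∈ Set.Ico (A1 r + V1 r) (B1 r + V1 r) ×ˢ
      Set.Ico (A2 r + V2 r) (B2 r + V2 r)) :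
    (r = 0 ∧ 0 + th ≤ x ∧ x < 1 / 2 - th + th ∧ 0 + (1 / 2 - th) ≤ y ∧ y < th + (1 / 2 - th)) ∨
    (r = 1 ∧ 0 + th ≤ x ∧ x < 1 / 2 - th + th ∧ th + -th ≤ y ∧ y < 1 / 2 + -th) ∨
    (r = 2 ∧ 1 / 2 - th + (th - 1 / 2) ≤ x ∧ x < 1 / 2 + (th - 1 / 2) ∧ 0 + (1 / 2 - th) ≤ y ∧
      y < th + (1 / 2 - th)) ∨
    (r = 3 ∧ 1 / 2 - th + (th - 1 / 2) ≤ x ∧ x < 1 / 2 + (th - 1 / 2) ∧ th + -th ≤ y ∧
      y < 1 / 2 + -th) ∨
    (r = 4 ∧ 1 / 2 + 0 ≤ x ∧ x < 1 + 0 ∧ 0 + 0 ≤ y ∧ y < 1 / 2 + 0) ∨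
    (r = 5 ∧ 0 + 0 ≤ x ∧ x < 1 + 0 ∧ 1 / 2 + 0 ≤ y ∧ y < 1 + 0) := by
  obtain ⟨⟨a1, a2⟩, a3, a4⟩ := h
  fin_cases r
  · exact Or.inl ⟨rfl, a1, a2, a3, a4⟩
  · exact Or.inr (Or.inl ⟨rfl, a1, a2, a3, a4⟩)
  · exact Or.inr (Or.inr (Or.inl ⟨rfl, a1, a2, a3, a4⟩))
  · exact Or.inr (Or.inr (Or.inr (Or.inl ⟨rfl, a1, a2, a3, a4⟩)))
  · exact Or.inr (Or.inr (Or.inr (Or.inr (Or.inl ⟨rfl, a1, a2, a3, a4⟩))))
  · exact Or.inr (Or.inr (Or.inr (Or.inr (Or.inr ⟨rfl, a1, a2, a3, a4⟩))))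

lemma d1 : Pairwise (fun r s : Fin 6 =>
    Disjoint (Set.Ico (A1 r) (B1 r) ×ˢ Set.Ico (A2 r) (B2 r))
      (Set.Ico (A1 s) (B1 s) ×ˢ Set.Ico (A2 s) (B2 s))) := by
  intro r s hrs
  rw [Set.disjoint_left]
  rintro ⟨x, y⟩ h1 h2
  rcases src r x y h1 with ⟨e, a1, a2, a3, a4⟩ | ⟨e, a1, a2, a3, a4⟩ | ⟨e, a1, a2, a3, a4⟩ |
    ⟨e, a1, a2, a3, a4⟩ | ⟨e, a1, a2, a3, a4⟩ | ⟨e, a1, a2, a3, a4⟩ <;>
  rcases src s x y h2 with ⟨e', b1, b2, b3, b4⟩ | ⟨e', b1, b2, b3, b4⟩ | ⟨e', b1, b2, b3, b4⟩ |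
    ⟨e', b1, b2, b3, b4⟩ | ⟨e', b1, b2, b3, b4⟩ | ⟨e', b1, b2, b3, b4⟩ <;>
  first | exact hrs (e.trans e'.symm) | linarith [th_bounds.1, th_bounds.2]

lemma d2 : Pairwise (fun r s : Fin 6 =>
    Disjoint (Set.Ico (A1 r + V1 r) (B1 r + V1 r) ×ˢ Set.Ico (A2 r + V2 r) (B2 r + V2 r))
      (Set.Ico (A1 s + V1 s) (B1 s + V1 s) ×ˢ Set.Ico (A2 s + V2 s) (B2 s + V2 s))) := by
  intro r s hrs
  rw [Set.disjoint_left]
  rintro ⟨x, y⟩ h1 h2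
  rcases tgt r x y h1 with ⟨e, a1, a2, a3, a4⟩ | ⟨e, a1, a2, a3, a4⟩ | ⟨e, a1, a2, a3, a4⟩ |
    ⟨e, a1, a2, a3, a4⟩ | ⟨e, a1, a2, a3, a4⟩ | ⟨e, a1, a2, a3, a4⟩ <;>
  rcases tgt s x y h2 with ⟨e', b1, b2, b3, b4⟩ | ⟨e', b1, b2, b3, b4⟩ | ⟨e', b1, b2, b3, b4⟩ |
    ⟨e', b1, b2, b3, b4⟩ | ⟨e', b1, b2, b3, b4⟩ | ⟨e', b1, b2, b3, b4⟩ <;>
  first | exact hrs (e.trans e'.symm) | linarith [th_bounds.1, th_bounds.2]

lemma u1 : (⋃ r : Fin 6, Set.Ico (A1 r) (B1 r) ×ˢ Set.Ico (A2 r) (B2 r))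
    = Set.Ico (0:ℝ) 1 ×ˢ Set.Ico (0:ℝ) 1 := by
  obtain ⟨t1, t2⟩ := th_bounds
  ext ⟨x, y⟩
  rw [Set.mem_iUnion]
  constructor
  · rintro ⟨r, h⟩
    rcases src r x y h with ⟨-, a1, a2, a3, a4⟩ | ⟨-, a1, a2, a3, a4⟩ | ⟨-, a1, a2, a3, a4⟩ |
      ⟨-, a1, a2, a3, a4⟩ | ⟨-, a1, a2, a3, a4⟩ | ⟨-, a1, a2, a3, a4⟩ <;>
    exact ⟨⟨by simp only []; linarith, by simp only []; linarith⟩, by simp only []; linarith,
      by simp only []; linarith⟩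
  · rintro ⟨⟨a1, a2⟩, a3, a4⟩
    by_cases hy : y < 1 / 2
    · by_cases hx : x < 1 / 2
      · by_cases hx' : x < 1 / 2 - th <;> by_cases hy' : y < th
        · exact ⟨0, ⟨a1, hx'⟩, a3, hy'⟩
        · exact ⟨1, ⟨a1, hx'⟩, not_lt.1 hy', hy⟩
        · exact ⟨2, ⟨not_lt.1 hx', hx⟩, a3, hy'⟩
        · exact ⟨3, ⟨not_lt.1 hx', hx⟩, not_lt.1 hy', hy⟩
      · exact ⟨4, ⟨not_lt.1 hx, a2⟩, a3, hy⟩
    · exact ⟨5, ⟨a1, a2⟩, not_lt.1 hy, a4⟩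

lemma u2 : (⋃ r : Fin 6,
    Set.Ico (A1 r + V1 r) (B1 r + V1 r) ×ˢ Set.Ico (A2 r + V2 r) (B2 r + V2 r))
    = Set.Ico (0:ℝ) 1 ×ˢ Set.Ico (0:ℝ) 1 := by
  obtain ⟨t1, t2⟩ := th_bounds
  ext ⟨x, y⟩
  rw [Set.mem_iUnion]
  constructor
  · rintro ⟨r, h⟩
    rcases tgt r x y h with ⟨-, a1, a2, a3, a4⟩ | ⟨-, a1, a2, a3, a4⟩ | ⟨-, a1, a2, a3, a4⟩ |
      ⟨-, a1, a2, a3, a4⟩ | ⟨-, a1, a2, a3, a4⟩ | ⟨-, a1, a2, a3, a4⟩ <;>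
    exact ⟨⟨by simp only []; linarith, by simp only []; linarith⟩, by simp only []; linarith,
      by simp only []; linarith⟩
  · rintro ⟨⟨a1, a2⟩, a3, a4⟩
    change 0 ≤ x at a1; change x < 1 at a2; change 0 ≤ y at a3; change y < 1 at a4
    by_cases hy : y < 1 / 2
    · by_cases hx : x < 1 / 2
      · by_cases hx' : x < th <;> by_cases hy' : y < 1 / 2 - th
        · exact ⟨3, ⟨show 1 / 2 - th + (th - 1 / 2) ≤ x by linarith, show x < 1 / 2 + (th - 1 / 2) by linarith⟩,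
            show th + -th ≤ y by linarith, show y < 1 / 2 + -th by linarith⟩
        · exact ⟨2, ⟨show 1 / 2 - th + (th - 1 / 2) ≤ x by linarith, show x < 1 / 2 + (th - 1 / 2) by linarith⟩,
            show 0 + (1 / 2 - th) ≤ y by linarith, show y < th + (1 / 2 - th) by linarith⟩
        · exact ⟨1, ⟨show 0 + th ≤ x by linarith, show x < 1 / 2 - th + th by linarith⟩,
            show th + -th ≤ y by linarith, show y < 1 / 2 + -th by linarith⟩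
        · exact ⟨0, ⟨show 0 + th ≤ x by linarith, show x < 1 / 2 - th + th by linarith⟩,
            show 0 + (1 / 2 - th) ≤ y by linarith, show y < th + (1 / 2 - th) by linarith⟩
      · exact ⟨4, ⟨show 1 / 2 + 0 ≤ x by linarith, show x < 1 + 0 by linarith⟩,
            show 0 + 0 ≤ y by linarith, show y < 1 / 2 + 0 by linarith⟩
    · exact ⟨5, ⟨show 0 + 0 ≤ x by linarith, show x < 1 + 0 by linarith⟩,
            show 1 / 2 + 0 ≤ y by linarith, show y < 1 + 0 by linarith⟩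

lemma act (r : Fin 6) : ∀ x ∈ Set.Ico (A1 r) (B1 r) ×ˢ Set.Ico (A2 r) (B2 r),
    ph x = (x.1 + V1 r, x.2 + V2 r) := by
  obtain ⟨t1, t2⟩ := th_bounds
  rintro ⟨x, y⟩ h
  unfold ph
  rcases src r x y h with ⟨rfl, a1, a2, a3, a4⟩ | ⟨rfl, a1, a2, a3, a4⟩ | ⟨rfl, a1, a2, a3, a4⟩ |
      ⟨rfl, a1, a2, a3, a4⟩ | ⟨rfl, a1, a2, a3, a4⟩ | ⟨rfl, a1, a2, a3, a4⟩
  · rw [if_pos ⟨by simp only []; linarith, by simp only []; linarith⟩, if_pos a2, if_pos a4]; rfl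
  · rw [if_pos ⟨by simp only []; linarith, a4⟩, if_pos a2, if_neg (not_lt.2 a3)]; rfl
  · rw [if_pos ⟨a2, by simp only []; linarith⟩, if_neg (not_lt.2 a1), if_pos a4]; rfl
  · rw [if_pos ⟨a2, a4⟩, if_neg (not_lt.2 a1), if_neg (not_lt.2 a3)]; rfl
  · rw [if_neg (fun h => absurd h.1 (not_lt.2 a1))]; rfl
  · rw [if_neg (fun h => absurd h.2 (not_lt.2 a3))]; rfl

/-- The negation of the preceding statement: For every partition of [0,1)² into finitely many half-open rectangles whose translates also partition it, the piecewise-translation map returns every point to within ε of itself, in Euclidean torus distance, at some time N ≥ 1. -/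
theorem result :
    ¬ (∀ (m : ℕ) (a1 b1 a2 b2 v1 v2 : Fin m → ℝ) (φ : ℝ × ℝ → ℝ × ℝ),
      Pairwise (fun r s : Fin m =>
        Disjoint (Set.Ico (a1 r) (b1 r) ×ˢ Set.Ico (a2 r) (b2 r))
          (Set.Ico (a1 s) (b1 s) ×ˢ Set.Ico (a2 s) (b2 s))) →
      (⋃ r : Fin m, Set.Ico (a1 r) (b1 r) ×ˢ Set.Ico (a2 r) (b2 r))
          = Set.Ico (0:ℝ) 1 ×ˢ Set.Ico (0:ℝ) 1 →
      Pairwise (fun r s : Fin m =>
        Disjoint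
          (Set.Ico (a1 r + v1 r) (b1 r + v1 r) ×ˢ Set.Ico (a2 r + v2 r) (b2 r + v2 r))
          (Set.Ico (a1 s + v1 s) (b1 s + v1 s) ×ˢ Set.Ico (a2 s + v2 s) (b2 s + v2 s))) →
      (⋃ r : Fin m,
          Set.Ico (a1 r + v1 r) (b1 r + v1 r) ×ˢ Set.Ico (a2 r + v2 r) (b2 r + v2 r))
          = Set.Ico (0:ℝ) 1 ×ˢ Set.Ico (0:ℝ) 1 →
      (∀ r : Fin m, ∀ x ∈ Set.Ico (a1 r) (b1 r) ×ˢ Set.Ico (a2 r) (b2 r),
          φ x = (x.1 + v1 r, x.2 + v2 r)) →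
      ∀ x ∈ Set.Ico (0:ℝ) 1 ×ˢ Set.Ico (0:ℝ) 1, ∀ ε : ℝ, 0 < ε →
        ∃ N : ℕ, 1 ≤ N ∧ ∃ k1 k2 : ℤ,
          ((φ^[N] x).1 - x.1 + (k1 : ℝ)) ^ 2 + ((φ^[N] x).2 - x.2 + (k2 : ℝ)) ^ 2 ≤ ε ^ 2) := by
  intro H
  have key := H 6 A1 B1 A2 B2 V1 V2 ph d1 u1 d2 u2 act
    (0, 0) ⟨⟨le_rfl, zero_lt_one⟩, le_rfl, zero_lt_one⟩ (1 / 4) (by norm_num)
  clear H
  obtain ⟨N, hN, k1, k2, hk⟩ := key
  obtain ⟨N, rfl⟩ := Nat.exists_eq_add_of_le' hN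
  obtain ⟨h1, h2, h3, -⟩ := orbit N
  set x := (ph^[N + 1] (0, 0)).1
  set y := (ph^[N + 1] (0, 0)).2
  simp only [sub_zero] at hk
  have e1 : k1 = 0 := by
    by_contra h
    rcases lt_or_gt_of_ne h with h | h
    · have : (k1 : ℝ) ≤ -1 := by exact_mod_cast (show k1 ≤ -1 by omega)
      nlinarith [sq_nonneg (y + k2)]
    · have : (1 : ℝ) ≤ k1 := by exact_mod_cast (show 1 ≤ k1 by omega)
      nlinarith [sq_nonneg (y + k2)]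
  have e2 : k2 = 0 := by
    by_contra h
    rcases lt_or_gt_of_ne h with h | h
    · have : (k2 : ℝ) ≤ -1 := by exact_mod_cast (show k2 ≤ -1 by omega)
      nlinarith [sq_nonneg (x + k1)]
    · have : (1 : ℝ) ≤ k2 := by exact_mod_cast (show 1 ≤ k2 by omega)
      nlinarith [sq_nonneg (x + k1)]
  rw [e1, e2] at hk
  push_cast at hk
  nlinarith [sq_nonneg (x - y)]

end Pool.Agent.S04908
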