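import Pool.Statements.S04942
import Pool.Agent.H2.DGA3

set_option autoImplicit false
open Pool Pool.MP_6afacc_an

namespace Pool.Agent.S04942

open Pool.Agent.H2.DGA
open scoped RealInnerProductSpace

/-- the ambient Hilbert space -/
abbrev HH : Type := lp (fun _ : Option (ℕ ⊕ ℕ) => ℝ) 2

/-- its standard basis -/
noncomputable def bb (i : Option (ℕ ⊕ ℕ)) : HH := lp.single 2 i (1 : ℝ)

lemma bb_on : Orthonormal ℝ bb := by
  rw [orthonormal_iff_ite]
  intro i j
  simp only [bb, lp.inner_single_left, lp.single_apply, Pi.single_apply]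
  by_cases h : i = j
  · subst h; simp
  · simp [h]

lemma bb_dense (W : Submodule ℝ HH) (hW : ∀ i, bb i ∈ W) : Dense (W : Set HH) := by
  intro x
  have h := lp.hasSum_single (p := 2) (by norm_num) x
  refine mem_closure_of_tendsto h (Filter.Eventually.of_forall fun s => ?_)
  refine W.sum_mem fun i _ => ?_
  have : lp.single 2 i (x i) = (x i) • bb i := by
    rw [bb, ← lp.single_smul]; simp
  rw [this]
  exact W.smul_mem _ (hW i)

/-- The negation of the preceding statement: In every real Banach space with modulus of smoothness at most γu^q (1<q≤2) and every symmetric unit-norm dictionary with dense span, every run of the Dual Greedy Algorithm, from any start, has residuals tending to 0. -/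
theorem result :
    ¬ (∀ (X : Type) [NormedAddCommGroup X] [NormedSpace ℝ X] [CompleteSpace X],
    ∀ (q γ : ℝ), 1 < q → q ≤ 2 →
    (∀ x y : X, ‖x‖ = 1 → ‖y‖ = 1 → ∀ u : ℝ, 0 < u →
        (‖x + u • y‖ + ‖x - u • y‖) / 2 - 1 ≤ γ * u ^ q) →
    ∀ D : Set X, (∀ g ∈ D, ‖g‖ = 1) → (∀ g ∈ D, -g ∈ D) →
    Dense ((Submodule.span ℝ D : Submodule ℝ X) : Set X) →
    ∀ (f : ℕ → X) (F : ℕ → X →L[ℝ] ℝ) (φ : ℕ → X) (a : ℕ → ℝ),
    (∀ m, ‖F m‖ = 1 ∧ F m (f m) = ‖f m‖) →
    (∀ m, φ m ∈ D ∧ ∀ g ∈ D, F m g ≤ F m (φ m)) →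
    (∀ m, ∀ b : ℝ, ‖f m - a m • φ m‖ ≤ ‖f m - b • φ m‖) →
    (∀ m, f (m + 1) = f m - a m • φ m) →
    Filter.Tendsto f Filter.atTop (nhds 0)) := by
  obtain ⟨c, hc⟩ : ∃ c : ℕ, 10 ^ 12 ≤ c := ⟨_, le_rfl⟩
  have hb := bb_on
  have hg := good hb
  set g : ℕ → ℕ → ℝ := fun n k => ⟪GG bb n, GG bb k⟫ with hgdef
  have hn : ∀ m, 10 ^ 12 ≤ m + c := fun m => by omega
  have hn1 : ∀ m, 1 ≤ m + c := fun m => by omega
  have hx : ∀ m, (10 : ℝ) ^ 12 ≤ ((m + c : ℕ) : ℝ) := fun m => hsmall (hn m)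
  have hr := rho_bd hc hg
  let f : ℕ → HH := fun m => rho c g m • VV bb (m + c)
  have hf : ∀ m, f m = rho c g m • VV bb (m + c) := fun m => rfl
  have hf' : ∀ m, f (m + 1) = rho c g (m + 1) • VV bb (m + c + 1) := fun m => by
    rw [hf, Nat.add_right_comm]
  have hQ : ∀ m l, ⟪xi bb (m + c), f l - f (l + 1)⟫
      = rho c g l * PP g (m + c) (l + c) - rho c g (l + 1) * PP g (m + c) (l + c + 1) := by
    intro m l
    rw [hf', hf, inner_sub_right, real_inner_smul_right, real_inner_smul_right,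
      xi_VV hb (hn1 m) (hn1 l), xi_VV hb (hn1 m) (by omega)]
  have hup : ∀ m, ‖f m - f (m + 1)‖ ≤ 24 := by
    intro m
    have h1 : ∀ l, ‖f l‖ ≤ 12 := fun l => by
      rw [hf, norm_smul, Real.norm_eq_abs, abs_of_pos (by linarith [(hr l).1])]
      have := VV_norm hb (hn l)
      nlinarith [hr l, norm_nonneg (VV bb (l + c))]
    linarith [norm_sub_le (f m) (f (m + 1)), h1 m, h1 (m + 1)]
  have hlow : ∀ m, 1 / 4 ≤ ‖f m - f (m + 1)‖ := by
    intro m
    have h1 := real_inner_le_norm (bb (some (.inr (m + c)))) (f m - f (m + 1))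
    rw [hb.1, one_mul] at h1
    refine le_trans ?_ h1
    rw [hf', hf, inner_sub_right, real_inner_smul_right, real_inner_smul_right,
      e_VV hb (hn1 m), e_VV' hb (hn1 m)]
    have a1 : (0 : ℝ) ≤ 10 ^ 6 / ((m + c : ℕ) : ℝ) := by positivity
    have a2 : (10 : ℝ) ^ 6 / ((m + c + 1 : ℕ) : ℝ) ≤ 1 / 8 := by
      have := hx m
      rw [Nat.cast_add_one, div_le_iff₀ (by linarith)]; linarith
    have a3 : (0 : ℝ) ≤ 10 ^ 6 / ((m + c + 1 : ℕ) : ℝ) := by positivity
    nlinarith [hr m, hr (m + 1)]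
  have hP : ∀ m, 0 < PP g (m + c) (m + c) := fun m => by linarith [PP_diag_ge hg (m + c)]
  have hQ0 : ∀ m, 400000 / ((m + c : ℕ) : ℝ) ≤ ⟪xi bb (m + c), f m - f (m + 1)⟫ := fun m => by
    rw [hQ]; exact (QQ hc hg m m).2 rfl
  refine abstract (ww bb) (fun k => by rw [ww_norm hb]; norm_num) (fun m => xi bb (m + c)) f
    (fun m => √(PP g (m + c) (m + c))) (fun m => Real.sqrt_pos.mpr (hP m)) ?_ ?_ ?_
    ({v | ∃ m, v = f m - f (m + 1)} ∪ {v | ∃ i, v = bb none + del i • bb i}) ?_ ?_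
    (fun m => Or.inl ⟨m, rfl⟩) ?_ ?_ (1 / 2) (by norm_num) ?_
  · intro m k
    rw [Real.sq_sqrt (hP m).le, PP_diag hg, xi_norm hb (hn1 m), ww_xi hb]
    have h1 := abs_le.mp (hg.g1 k (m + c))
    have a1 : (0 : ℝ) ≤ 10 ^ 6 / ((m + c : ℕ) : ℝ) := by positivity
    simp only [hgdef] at h1
    have : (⟪GG bb k, GG bb (m + c)⟫ + if 0 < k ∧ k ≤ m + c then (10 : ℝ) ^ 6 / ((m + c : ℕ) : ℝ)
        else 0) ^ 2 ≤ (1 + 10 ^ 6 / ((m + c : ℕ) : ℝ)) ^ 2 := by
      apply sq_le_sq'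
      · split_ifs <;> linarith
      · split_ifs <;> linarith
    linarith
  · intro m ζ hζ
    rw [hf, real_inner_smul_right, real_inner_smul_right, xi_VV hb (hn1 m) (hn1 m)]
    have h1 : ⟪ζ, VV bb (m + c)⟫ ≤ √(PP g (m + c) (m + c)) := by
      apply Real.le_sqrt_of_sq_le
      rw [PP_diag hg, ← xi_norm hb (hn1 m), VV, inner_add_right, real_inner_smul_right]
      have h2 := hζ (m + c)
      have h3 := abs_real_inner_le_norm ζ (xi bb (m + c))
      have h4 : ⟪ζ, xi bb (m + c)⟫ ^ 2 ≤ (‖ζ‖ * ‖xi bb (m + c)‖) ^ 2 := by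
        rw [← sq_abs]; exact pow_le_pow_left₀ (abs_nonneg _) h3 2
      rw [real_inner_comm] at h2
      set p := ⟪ζ, xi bb (m + c)⟫
      set r := ⟪ζ, ww bb (m + c)⟫
      set t := 1 + (10 : ℝ) ^ 6 / ((m + c : ℕ) : ℝ)
      set A := ‖xi bb (m + c)‖
      set Z := ‖ζ‖
      have hA : 0 ≤ A := norm_nonneg _
      have hZ : 0 ≤ Z := norm_nonneg _
      have h5 : (p + t * r) ^ 2 ≤ (Z * A + |t * r|) ^ 2 := by
        apply sq_le_sq'
        · linarith [neg_abs_le p, neg_abs_le (t * r)]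
        · linarith [le_abs_self p, le_abs_self (t * r)]
      have h6 : (Z * A + |t * r|) ^ 2 ≤ (A ^ 2 + t ^ 2) * (Z ^ 2 + r ^ 2) := by
        rw [abs_mul, ← sq_abs t, ← sq_abs r]
        nlinarith [sq_nonneg (A * |r| - |t| * Z)]
      have h7 : (A ^ 2 + t ^ 2) * (Z ^ 2 + r ^ 2) ≤ (A ^ 2 + t ^ 2) * 1 := by gcongr
      linarith
    have h2 := Real.mul_self_sqrt (hP m).le
    have h3 := Real.sqrt_nonneg (PP g (m + c) (m + c))
    have h4 : √(PP g (m + c) (m + c)) * ⟪ζ, VV bb (m + c)⟫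
        ≤ √(PP g (m + c) (m + c)) * √(PP g (m + c) (m + c)) := by gcongr
    have h5 := (hr m).1
    nlinarith
  · intro m
    rw [hQ, Nat.add_right_comm m 1 c, rho_succ hg m, sub_self]
  · rintro v (⟨m, rfl⟩ | ⟨i, rfl⟩) h
    · have := hlow m
      rw [h, norm_zero] at this; linarith
    · have := d_norm hb i
      rw [h, norm_zero] at this; linarith
  · apply bb_dense
    have h0 : ∀ i, bb none + del i • bb i ∈ Submodule.span ℝ
        ({v | ∃ m, v = f m - f (m + 1)} ∪ {v | ∃ i, v = bb none + del i • bb i}) :=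
      fun i => Submodule.subset_span (Or.inr ⟨i, rfl⟩)
    have h1 : bb none ∈ Submodule.span ℝ
        ({v | ∃ m, v = f m - f (m + 1)} ∪ {v | ∃ i, v = bb none + del i • bb i}) := by
      have := Submodule.smul_mem _ (1 / 2 : ℝ) (h0 none)
      have e : (1 / 2 : ℝ) • (bb none + del none • bb none) = bb none := by
        rw [del]; module
      rwa [e] at this
    intro i
    have := Submodule.smul_mem _ (del i)⁻¹ (Submodule.sub_mem _ (h0 i) h1)
    rwa [add_sub_cancel_left, smul_smul, inv_mul_cancel₀ (del_pos i).ne', one_smul] at this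
  · intro m
    refine le_trans ?_ (hQ0 m)
    positivity
  · intro m v hv
    have key : ∀ v : HH, 1 / 4 ≤ ‖v‖ → |⟪xi bb (m + c), v⟫| ≤ 400 / ((m + c : ℕ) : ℝ) →
        2 * |⟪xi bb (m + c), v⟫| * ‖f m - f (m + 1)‖
          ≤ ⟪xi bb (m + c), f m - f (m + 1)⟫ * ‖v‖ := by
      intro v h1 h2
      have h3 := hQ0 m
      have h4 := hup m
      have h5 : (0 : ℝ) < 1 / ((m + c : ℕ) : ℝ) := by have := hx m; positivity
      have e1 : (400 : ℝ) / ((m + c : ℕ) : ℝ) = 400 * (1 / ((m + c : ℕ) : ℝ)) := by ring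
      have e2 : (400000 : ℝ) / ((m + c : ℕ) : ℝ) = 400000 * (1 / ((m + c : ℕ) : ℝ)) := by ring
      rw [e1] at h2; rw [e2] at h3
      calc _ ≤ 2 * (400 * (1 / ((m + c : ℕ) : ℝ))) * 24 := by gcongr
        _ ≤ 400000 * (1 / ((m + c : ℕ) : ℝ)) * (1 / 4) := by linarith
        _ ≤ _ := by gcongr; linarith
    rcases hv with ⟨l, rfl⟩ | ⟨i, rfl⟩
    · by_cases h : l = m
      · left; rw [h]
      · right
        apply key _ (hlow l)
        rw [hQ]; exact (QQ hc hg m l).1 h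
    · right
      apply key _ (by linarith [d_norm hb i])
      refine (xi_d hb (hn1 m) i).trans ?_
      have := hx m
      gcongr; norm_num
  · intro m
    have h1 := real_inner_le_norm (bb (some (.inr (m + c)))) (f m)
    rw [hb.1, one_mul] at h1
    refine le_trans ?_ h1
    rw [hf, real_inner_smul_right, e_VV hb (hn1 m)]
    have a1 : (0 : ℝ) ≤ 10 ^ 6 / ((m + c : ℕ) : ℝ) := by positivity
    nlinarith [hr m]

end Pool.Agent.S04942
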