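import Pool.Statements.S04946
import Pool.Agent.H29.WOTStab

set_option autoImplicit false
open Pool Pool.MP_6b330e_an

namespace Pool.Agent.S04946

open Pool.Agent.H29.WOTStab in
theorem result :
    ¬ (∀ (X : Type) [NormedAddCommGroup X] [NormedSpace ℂ X] [CompleteSpace X]
      [TopologicalSpace.SeparableSpace X],
      ¬ FiniteDimensional ℂ X →
      Function.Surjective (NormedSpace.inclusionInDoubleDual ℂ X) →
      (@IsMeagre {T : X →L[ℂ] X // ‖T‖ ≤ 1}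
          (TopologicalSpace.induced
            (fun (T : {T : X →L[ℂ] X // ‖T‖ ≤ 1}) (p : X × (X →L[ℂ] ℂ)) => p.2 (T.1 p.1))
            (Pi.topologicalSpace : TopologicalSpace (X × (X →L[ℂ] ℂ) → ℂ)))
          {T | ∀ (x : X) (f : X →L[ℂ] ℂ),
              Filter.Tendsto (fun n : ℕ => f ((T.1 ^ n) x)) Filter.atTop (nhds 0)}) ∧
      ({T : {T : X →L[ℂ] X // ‖T‖ ≤ 1} | ∀ x : X, ∃ J : Set ℕ,
          Filter.Tendsto (fun N : ℕ => (Nat.card (J ∩ Set.Iio N : Set ℕ) : ℝ) / (N : ℝ))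
            Filter.atTop (nhds 1) ∧
          ∀ f : X →L[ℂ] ℂ,
            Filter.Tendsto (fun n : ℕ => f ((T.1 ^ n) x))
              (Filter.atTop ⊓ Filter.principal J) (nhds 0)} ∈
        @residual {T : X →L[ℂ] X // ‖T‖ ≤ 1}
          (TopologicalSpace.induced
            (fun (T : {T : X →L[ℂ] X // ‖T‖ ≤ 1}) (p : X × (X →L[ℂ] ℂ)) => p.2 (T.1 p.1))
            (Pi.topologicalSpace : TopologicalSpace (X × (X →L[ℂ] ℂ) → ℂ))))) := by
  intro Hh
  obtain ⟨h1, h2⟩ := Hh X X_inf X_refl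
  have hB := baire X_refl
  let τ : TopologicalSpace {T : X →L[ℂ] X // ‖T‖ ≤ 1} :=
    TopologicalSpace.induced (Phi (X := X)) Pi.topologicalSpace
  have hU : @IsOpen _ τ {T : {T : X →L[ℂ] X // ‖T‖ ≤ 1} | p1 (T.1 (inr (hb 0))) ≠ 0} :=
    ⟨{B | B (inr (hb 0), p1) ≠ 0}, isOpen_ne_fun (continuous_apply _) continuous_const, rfl⟩
  obtain ⟨T0, hT0, hT1⟩ := exists_T
  have hd := @dense_of_mem_residual _ τ hB _ (Filter.inter_mem h1 h2)
  obtain ⟨T, hTU, hn, ha⟩ := @Dense.inter_open_nonempty _ τ _ hd _ hU ⟨⟨T0, hT0⟩, hT1⟩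
  apply hn
  intro x f
  obtain ⟨J, hJ, hw⟩ := ha x
  obtain ⟨q, hq, hk⟩ := key T.1 T.2 (hb 0) hTU
  have := neBot_of_density J hJ
  have hs := stable T.1 T.2 _ _ q hq hk x _ inf_le_left (hw _) (hw _)
  have h3 := (f.continuous.tendsto 0).comp hs
  rw [map_zero] at h3
  exact h3

end Pool.Agent.S04946
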