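import Pool.Statements.S04955
import Pool.Agent.H9.Nbr

set_option autoImplicit false
open Pool Pool.MP_6c2b6a_an

namespace Pool.Agent.S04955

/-- Every nonreflexive real Banach space has a maximally monotone operator (graph in X×X*) that fails type (BR): some (x,x*), α,β>0 with inf over the graph of ⟨a−x,a*−x*⟩ above −αβ, yet no graph point within α of x and β of x*. -/
theorem result :
    ∀ (X : Type) [NormedAddCommGroup X] [NormedSpace ℝ X] [CompleteSpace X],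
      (∃ φ : (X →L[ℝ] ℝ) →L[ℝ] ℝ, ∀ x : X, ∃ f : X →L[ℝ] ℝ, φ f ≠ f x) →
      ∃ A : Set (X × (X →L[ℝ] ℝ)),
        (∀ p ∈ A, ∀ q ∈ A, 0 ≤ (p.2 - q.2) (p.1 - q.1)) ∧
        (∀ z : X × (X →L[ℝ] ℝ), (∀ p ∈ A, 0 ≤ (z.2 - p.2) (z.1 - p.1)) → z ∈ A) ∧
        ∃ (x : X) (xs : X →L[ℝ] ℝ) (α β : ℝ), 0 < α ∧ 0 < β ∧
          (∃ c : ℝ, -(α * β) < c ∧ ∀ p ∈ A, c ≤ (p.2 - xs) (p.1 - x)) ∧
          ∀ p ∈ A, ¬ (‖p.1 - x‖ < α ∧ ‖p.2 - xs‖ < β) := by
  intro X _ _ _ ⟨F, hF⟩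
  open Filter Topology Finset in
  obtain ⟨C, x, g, h0, h1, h2, h3⟩ := H9.Nbr.seq F hF
  set Y := (Submodule.span ℝ (Set.range x)).topologicalClosure
  let A : Submodule ℝ (X × (X →L[ℝ] ℝ)) :=
    { carrier := {p | p.1 ∈ Y ∧ ∀ i, p.2 (x i) = g i p.1 + g (i + 1) p.1}
      add_mem' := fun h h' => ⟨Y.add_mem h.1 h'.1, fun i => by
        simp only [Prod.fst_add, Prod.snd_add, add_apply, map_add, h.2 i, h'.2 i]
        ring⟩
      zero_mem' := ⟨Y.zero_mem, by simp⟩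
      smul_mem' := fun c _ h => ⟨Y.smul_mem c h.1, fun i => by simp [h.2 i, mul_add]⟩ }
  have h4 : ∀ p ∈ A, p.2 p.1 = g 0 p.1 ^ 2 := fun p hp => by
    refine tendsto_nhds_unique ((p.2.continuous.tendsto _).comp (h3 _ hp.1).2) ?_
    have := (((h3 _ hp.1).1.pow 2).const_sub (g 0 p.1 ^ 2))
    rw [zero_pow two_ne_zero, sub_zero] at this
    refine this.congr fun n => ?_
    rw [← Finset.sum_range_sub' (fun i => g i p.1 ^ 2), Function.comp_apply, map_sum]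
    refine Finset.sum_congr rfl fun i _ => ?_
    rw [map_smul, hp.2 i, smul_eq_mul]
    ring
  have h5 : ∀ j, (x j, (2 : ℝ) • g 0 - g j - g (j + 1)) ∈ A := fun j =>
    ⟨subset_closure (Submodule.subset_span ⟨j, rfl⟩), fun i => by
      simp only [sub_apply, smul_apply, h2, smul_eq_mul]
      split_ifs <;> first | omega | norm_num⟩
  have h6 : ∀ i, g 0 (x i) = 1 := fun i => by simp [h2]
  refine ⟨A, fun p hp q hq => (h4 _ (A.sub_mem hp hq)).symm ▸ sq_nonneg _, fun z hz => ?_, 0, g 0,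
    C, C⁻¹, h0, inv_pos.2 h0, ⟨-(1 / 4), by rw [mul_inv_cancel₀ h0.ne']; norm_num, fun p hp => ?_⟩,
    fun p hp h => ?_⟩
  · have e1 : ∀ p ∈ A, ∀ s : ℝ, 0 ≤ z.2 z.1 - s * (z.2 p.1 + p.2 z.1) + s ^ 2 * g 0 p.1 ^ 2 :=
      fun p hp s => by
        have := hz _ (A.smul_mem s hp)
        simp only [Prod.smul_fst, Prod.smul_snd, map_sub, sub_apply, map_smul, smul_apply,
          smul_eq_mul, h4 p hp] at this
        linarith
    have e2 : ∀ p ∈ A, g 0 p.1 = 0 → z.2 p.1 + p.2 z.1 = 0 := fun p hp h => by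
      by_contra e
      have := e1 p hp ((z.2 z.1 + 1) / (z.2 p.1 + p.2 z.1))
      rw [div_mul_cancel₀ _ e, h] at this
      linarith
    have e3 : z.1 ∈ Y := by
      by_contra e
      obtain ⟨η, e4, e5⟩ := H9.Nbr.sep Y isClosed_closure e
      simpa [e4] using e2 (0, η) ⟨Y.zero_mem, fun i => by
        simpa using e5 _ (h5 i).1⟩ (map_zero _)
    obtain ⟨l, hl⟩ : ∃ l, l = z.2 (x 0) - g 0 z.1 - g 1 z.1 := ⟨_, rfl⟩
    have e4 : (z.1, z.2 - l • g 0) ∈ A := ⟨e3, fun i => by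
      have := e2 _ (A.sub_mem (h5 i) (h5 0)) (by simp [h6])
      simp only [Prod.fst_sub, Prod.snd_sub, map_sub, sub_apply, smul_apply, smul_eq_mul, h6,
        zero_add] at this ⊢
      linarith⟩
    have e5 := h4 _ e4
    have e6 := e1 _ (h5 0) (l / 2 + g 0 z.1)
    simp only [sub_apply, smul_apply, smul_eq_mul, h6, zero_add] at e5 e6
    obtain rfl : l = 0 := by
      rw [show z.2 (x 0) = l + g 0 z.1 + g 1 z.1 by linarith] at e6
      nlinarith
    simpa using e4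
  · rw [sub_zero, sub_apply, h4 p hp]
    nlinarith [sq_nonneg (g 0 p.1 - 1 / 2)]
  · have e1 := ((h3 _ hp.1).1.add ((h3 _ hp.1).1.comp (tendsto_add_atTop_nat 1))).sub_const 1
    have e2 := le_of_tendsto' e1.abs fun i => show |g i p.1 + g (i + 1) p.1 - 1| ≤ _ by
      rw [← hp.2 i, ← h6 i]
      exact (p.2 - g 0).le_opNorm_of_le (h1 i)
    rw [← one_div, lt_div_iff₀ h0] at h
    norm_num at e2
    linarith [h.2]

end Pool.Agent.S04955
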