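import Pool.Statements.S04985

set_option autoImplicit false
open Pool Pool.MP_6eb165_an

namespace Pool.Agent.S04985

open Filter Topology

/-- the hyperplane x+y+z=0 in the three dimensional complex sup-norm space -/
noncomputable def XS : Submodule ℂ (Fin 3 → ℂ) where
  carrier := {z | z 0 + z 1 + z 2 = 0}
  add_mem' := by
    intro a b ha hb
    simp only [Set.mem_ofPred_eq, Pi.add_apply] at *
    linear_combination ha + hb
  zero_mem' := by simp
  smul_mem' := by
    intro c a ha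
    simp only [Set.mem_ofPred_eq, Pi.smul_apply, smul_eq_mul] at *
    linear_combination c * ha

abbrev X : Type := XS

theorem memX (z : X) : z.1 0 + z.1 1 + z.1 2 = 0 := z.2

abbrev Pairs : Type := {p : X × (X →L[ℂ] ℂ) // ‖p.1‖ = 1 ∧ ‖p.2‖ = 1 ∧ p.2 p.1 = 1}

noncomputable def rad {k : ℕ} (A : ContinuousMultilinearMap ℂ (fun _ : Fin k => X) X) : ℝ :=
  ⨆ p : Pairs, ‖p.1.2 (A (fun _ => p.1.1))‖

theorem rad_bdd {k : ℕ} (A : ContinuousMultilinearMap ℂ (fun _ : Fin k => X) X) :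
    BddAbove (Set.range fun p : Pairs => ‖p.1.2 (A (fun _ => p.1.1))‖) := by
  refine ⟨‖A‖, ?_⟩
  rintro _ ⟨p, rfl⟩
  have h1 := p.1.2.le_opNorm (A (fun _ => p.1.1))
  have h2 := A.le_opNorm (fun _ => p.1.1)
  simp only [p.2.1, p.2.2.1, Finset.prod_const_one, mul_one, one_mul] at h1 h2
  exact h1.trans h2

theorem rad_nonneg {k : ℕ} (A : ContinuousMultilinearMap ℂ (fun _ : Fin k => X) X) :
    0 ≤ rad A := Real.iSup_nonneg fun _ => norm_nonneg _

theorem le_rad {k : ℕ} (A : ContinuousMultilinearMap ℂ (fun _ : Fin k => X) X) (p : Pairs) :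
    ‖p.1.2 (A (fun _ => p.1.1))‖ ≤ rad A := le_ciSup (rad_bdd A) p

theorem rad_le {k : ℕ} (A : ContinuousMultilinearMap ℂ (fun _ : Fin k => X) X) (c : ℝ)
    (hc : 0 ≤ c) (h : ∀ p : Pairs, ‖p.1.2 (A (fun _ => p.1.1))‖ ≤ c) : rad A ≤ c :=
  Real.iSup_le h hc

theorem coord_le (z : X) (i : Fin 3) : ‖z.1 i‖ ≤ ‖z‖ := norm_le_pi_norm z.1 i

theorem norm_le_of (z : X) (c : ℝ) (hc : 0 ≤ c) (h : ∀ i, ‖z.1 i‖ ≤ c) : ‖z‖ ≤ c :=
  (pi_norm_le_iff_of_nonneg hc).2 h

/-- coordinate functional -/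
noncomputable def co (i : Fin 3) : X →L[ℂ] ℂ := (ContinuousLinearMap.proj i).comp XS.subtypeL

theorem co_apply (i : Fin 3) (z : X) : co i z = z.1 i := rfl

theorem coord_rad {k : ℕ} (A : ContinuousMultilinearMap ℂ (fun _ : Fin k => X) X) (z : X)
    (hz : ‖z‖ ≤ 1) (i : Fin 3) (hi : ‖z.1 i‖ = 1) : ‖(A (fun _ => z)).1 i‖ ≤ rad A := by
  have hz1 : ‖z‖ = 1 := le_antisymm hz (hi ▸ coord_le z i)
  let f : X →L[ℂ] ℂ := (starRingEnd ℂ (z.1 i)) • co i
  have hf : ∀ w : X, ‖f w‖ = ‖w.1 i‖ := by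
    intro w
    simp [f, co_apply, hi]
  have hfz : f z = 1 := by
    simp only [f, ContinuousLinearMap.smul_apply, co_apply, smul_eq_mul]
    rw [Complex.conj_mul', hi]
    simp
  have hfn : ‖f‖ = 1 := by
    apply le_antisymm
    · refine ContinuousLinearMap.opNorm_le_bound _ zero_le_one fun w => ?_
      rw [hf, one_mul]
      exact coord_le w i
    · have := f.le_opNorm z
      rw [hfz, hz1] at this
      simpa using this
  have := le_rad A ⟨(z, f), hz1, hfn, hfz⟩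
  rw [← hf]
  exact this

theorem two_rad {k : ℕ} (A : ContinuousMultilinearMap ℂ (fun _ : Fin k => X) X) (z : X)
    (hz : ‖z‖ ≤ 1) (i j : Fin 3) (hij : i ≠ j) (hi : ‖z.1 i‖ = 1) (hj : ‖z.1 j‖ = 1) :
    ‖A (fun _ => z)‖ ≤ 2 * rad A := by
  have h1 := coord_rad A z hz i hi
  have h2 := coord_rad A z hz j hj
  have h0 := rad_nonneg A
  set w := A (fun _ => z) with hw
  have hm := memX w
  refine norm_le_of _ _ (by linarith) fun l => ?_
  by_cases hl : l = i
  · subst hl; linarith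
  by_cases hl' : l = j
  · subst hl'; linarith
  have : w.1 l = -(w.1 i + w.1 j) := by
    fin_cases i <;> fin_cases j <;> fin_cases l <;> simp at hij hl hl' ⊢ <;>
      linear_combination hm
  rw [this, norm_neg]
  exact (norm_add_le _ _).trans (by linarith)

/-- direction keeping coordinate i fixed -/
noncomputable def dir (i : Fin 3) : X :=
  ⟨fun m => if m = i then 0 else if m = i + 1 then 1 else -1, by
    show _ + _ + _ = (0 : ℂ)
    fin_cases i <;> simp⟩

theorem dir_self (i : Fin 3) : (dir i).1 i = 0 := by simp [dir]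

theorem dir_succ (i : Fin 3) : (dir i).1 (i + 1) = 1 := by
  fin_cases i <;> simp [dir]

theorem one_rad {k : ℕ} (A : ContinuousMultilinearMap ℂ (fun _ : Fin k => X) X) (z : X)
    (hz : ‖z‖ ≤ 1) (i : Fin 3) (hi : ‖z.1 i‖ = 1) :
    ‖A (fun _ => z)‖ ≤ 2 * rad A := by
  by_cases hex : ∃ j, j ≠ i ∧ ‖z.1 j‖ = 1
  · obtain ⟨j, hj, hj1⟩ := hex
    exact two_rad A z hz i j hj.symm hi hj1
  push Not at hex
  let N : ℂ → ℝ := fun t => ‖fun m : Fin 3 => if m = i then (0 : ℂ) else (z + t • dir i).1 m‖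
  have hN : Continuous N := by
    apply Continuous.norm
    refine continuous_pi fun m => ?_
    split_ifs
    · exact continuous_const
    · simp only [Submodule.coe_add, Submodule.coe_smul, Pi.add_apply, Pi.smul_apply]
      fun_prop
  let U : Set ℂ := {t | N t < 1}
  have hne : i + 1 ≠ i := by fin_cases i <;> simp
  have hU : Bornology.IsBounded U := by
    rw [isBounded_iff_forall_norm_le]
    refine ⟨2, fun t ht => ?_⟩
    have h1 : ‖(z + t • dir i).1 (i + 1)‖ ≤ N t := by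
      have := norm_le_pi_norm
        (fun m : Fin 3 => if m = i then (0 : ℂ) else (z + t • dir i).1 m) (i + 1)
      simpa only [hne, if_false] using this
    have h2 : (z + t • dir i).1 (i + 1) = z.1 (i + 1) + t := by
      simp [dir_succ]
    have h3 : ‖z.1 (i + 1)‖ ≤ 1 := (coord_le z _).trans hz
    have h4 : N t < 1 := ht
    rw [h2] at h1
    have h5 : ‖t‖ ≤ ‖z.1 (i + 1) + t‖ + ‖z.1 (i + 1)‖ := by
      have := norm_sub_le (z.1 (i + 1) + t) (z.1 (i + 1))
      simpa using this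
    linarith
  let g : ℂ → X := fun t => A (fun _ => z + t • dir i)
  have hg : Differentiable ℂ g := by
    have h1 : Differentiable ℂ (fun t : ℂ => (fun _ : Fin k => z + t • dir i)) := by
      refine differentiable_pi.2 fun _ => ?_
      fun_prop
    have h2 : Differentiable ℂ A := (A.contDiff (n := 1)).differentiable (by simp)
    exact h2.comp h1
  have h0 : (0 : ℂ) ∈ U := by
    show N 0 < 1
    refine (pi_norm_lt_iff one_pos).2 fun m => ?_
    split_ifs with hm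
    · simp
    · simp only [zero_smul, add_zero]
      exact lt_of_le_of_ne ((coord_le z m).trans hz) (hex m hm)
  have key := Complex.norm_le_of_forall_mem_frontier_norm_le hU hg.diffContOnCl
    (C := 2 * rad A) (z := 0) ?_ (subset_closure h0)
  · simpa [g] using key
  intro t ht
  have ht1 : N t = 1 := frontier_lt_subset_eq hN continuous_const ht
  have hi' : ‖(z + t • dir i).1 i‖ = 1 := by
    simp [dir_self, hi]
  have hle : ∀ m, m ≠ i → ‖(z + t • dir i).1 m‖ ≤ 1 := by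
    intro m hm
    have := norm_le_pi_norm
      (fun m : Fin 3 => if m = i then (0 : ℂ) else (z + t • dir i).1 m) m
    simp only [hm, if_false] at this
    exact this.trans ht1.le
  have hn : ‖z + t • dir i‖ ≤ 1 := by
    refine norm_le_of _ _ zero_le_one fun m => ?_
    by_cases hm : m = i
    · rw [hm, hi']
    · exact hle m hm
  have hex2 : ∃ j, j ≠ i ∧ ‖(z + t • dir i).1 j‖ = 1 := by
    by_contra hcon
    push Not at hcon
    have : N t < 1 := by
      refine (pi_norm_lt_iff one_pos).2 fun m => ?_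
      split_ifs with hm
      · simp
      · exact lt_of_le_of_ne (hle m hm) (hcon m hm)
    linarith
  obtain ⟨j, hj, hj1⟩ := hex2
  exact two_rad A _ hn i j hj.symm hi' hj1

theorem reduce {k : ℕ} (A : ContinuousMultilinearMap ℂ (fun _ : Fin (k + 1) => X) X) (c v : ℝ)
    (hc : 0 ≤ c) (hv : 0 ≤ v) (h : ∀ y : X, ‖y‖ = 1 → c * ‖A (fun _ => y)‖ ≤ v) (y : X)
    (hy : ‖y‖ ≤ 1) : c * ‖A (fun _ => y)‖ ≤ v := by
  by_cases h0 : y = 0
  · subst h0
    have : A (fun _ => (0 : X)) = 0 := A.map_coord_zero 0 rfl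
    rw [this]
    simpa using hv
  have hn : ‖y‖ ≠ 0 := norm_ne_zero_iff.2 h0
  have hn' : ((‖y‖ : ℝ) : ℂ) ≠ 0 := by exact_mod_cast hn
  let y' : X := ((‖y‖ : ℝ) : ℂ)⁻¹ • y
  have hy' : ‖y'‖ = 1 := by
    simp only [y', norm_smul, norm_inv, Complex.norm_real, norm_norm]
    field_simp
  have hyy : y = ((‖y‖ : ℝ) : ℂ) • y' := by
    simp only [y', smul_smul]
    rw [mul_inv_cancel₀ hn', one_smul]
  have h1 : A (fun _ => y) = (∏ _i : Fin (k + 1), ((‖y‖ : ℝ) : ℂ)) • A (fun _ => y') := by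
    rw [← A.map_smul_univ]
    congr 1
    funext _
    exact hyy
  have h2 : ‖A (fun _ => y)‖ ≤ ‖A (fun _ => y')‖ := by
    rw [h1, norm_smul]
    have : ‖(∏ _i : Fin (k + 1), ((‖y‖ : ℝ) : ℂ))‖ ≤ 1 := by
      simp only [Finset.prod_const, norm_pow, Complex.norm_real, norm_norm]
      exact pow_le_one₀ (norm_nonneg _) hy
    exact mul_le_of_le_one_left (norm_nonneg _) this
  exact (mul_le_mul_of_nonneg_left h2 hc).trans (h y' hy')

def S (k : ℕ) : Set ℝ := {c : ℝ | 0 ≤ c ∧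
  ∀ (A : ContinuousMultilinearMap ℂ (fun _ : Fin k => X) X) (y : X), ‖y‖ ≤ 1 →
    c * ‖A (fun _ => y)‖ ≤ rad A}

theorem half_mem (k : ℕ) : (1 / 2 : ℝ) ∈ S (k + 1) := by
  refine ⟨by norm_num, fun A y hy => ?_⟩
  refine reduce A _ _ (by norm_num) (rad_nonneg A) (fun z hz => ?_) y hy
  have : ∃ i, ‖z.1 i‖ = 1 := by
    by_contra hcon
    push Not at hcon
    have : ‖z‖ < 1 := (pi_norm_lt_iff one_pos).2 fun m =>
      lt_of_le_of_ne ((coord_le z m).trans hz.le) (hcon m)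
    linarith
  obtain ⟨i, hi⟩ := this
  have := one_rad A z hz.le i hi
  linarith

theorem S_succ (k : ℕ) : S (k + 2) ⊆ S (k + 1) := by
  rintro c ⟨hc, h⟩
  refine ⟨hc, fun A y hy => ?_⟩
  refine reduce A _ _ hc (rad_nonneg A) (fun z hz => ?_) y hy
  obtain ⟨g, hg1, hg2⟩ := exists_dual_vector'' ℂ z
  let B : ContinuousMultilinearMap ℂ (fun _ : Fin (k + 2) => X) X :=
    ContinuousLinearMap.uncurryLeft (Ei := fun _ : Fin (k + 2) => X) (g.smulRight A)
  have hB : ∀ w : X, B (fun _ => w) = g w • A (fun _ => w) := by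
    intro w
    simp only [B, ContinuousLinearMap.uncurryLeft_apply, ContinuousLinearMap.smulRight_apply,
      ContinuousMultilinearMap.smul_apply]
    rfl
  have h1 := h B z hz.le
  have h2 : rad B ≤ rad A := by
    refine rad_le B _ (rad_nonneg A) fun p => ?_
    rw [hB, map_smul, norm_smul]
    have h3 : ‖g p.1.1‖ ≤ 1 := by
      have := g.le_opNorm p.1.1
      rw [p.2.1, mul_one] at this
      exact this.trans hg1
    exact (mul_le_of_le_one_left (norm_nonneg _) h3).trans (le_rad A p)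
  rw [hB, hg2, hz] at h1
  simp only [RCLike.ofReal_one, one_smul] at h1
  exact h1.trans h2

noncomputable def e0 : X := ⟨![-1 / 2, -1 / 2, 1], by
  show _ + _ + _ = (0 : ℂ)
  simp⟩

noncomputable def y0 : X := ⟨![1, -1, 0], by
  show _ + _ + _ = (0 : ℂ)
  simp⟩

noncomputable def T0 : X →L[ℂ] X := ((1 / 2 : ℂ) • (co 0 - co 1)).smulRight e0

noncomputable def A0 : ContinuousMultilinearMap ℂ (fun _ : Fin 1 => X) X :=
  (continuousMultilinearCurryFin1 ℂ X X).symm T0

theorem A0_apply (w : X) : A0 (fun _ => w) = ((1 / 2 : ℂ) * (w.1 0 - w.1 1)) • e0 := by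
  simp [A0, T0, co_apply]

theorem rad_A0 : rad A0 ≤ 9 / 10 := by
  refine rad_le A0 _ (by norm_num) fun p => ?_
  obtain ⟨⟨x, f⟩, hx, hf, hfx⟩ := p
  simp only at hx hf hfx ⊢
  rw [A0_apply]
  set b : ℂ := (1 / 2 : ℂ) * (x.1 0 - x.1 1) with hb
  obtain ⟨u, hu, hu2⟩ : ∃ u : ℂ, ‖u‖ = 1 ∧ u * f (b • e0) = (‖f (b • e0)‖ : ℝ) := by
    by_cases h0 : f (b • e0) = 0
    · exact ⟨1, by simp, by simp [h0]⟩
    · refine ⟨(‖f (b • e0)‖ : ℝ) / f (b • e0), ?_, ?_⟩
      · rw [norm_div, Complex.norm_real, norm_norm]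
        exact div_self (norm_ne_zero_iff.2 h0)
      · field_simp
  set r := ‖f (b • e0)‖ with hr
  have hr0 : 0 ≤ r := norm_nonneg _
  have h1 : f (x + u • (b • e0)) = ((1 + r : ℝ) : ℂ) := by
    rw [map_add, map_smul, hfx, smul_eq_mul, hu2]
    push_cast
    ring
  have h2 := f.le_opNorm (x + u • (b • e0))
  rw [h1, hf, one_mul, Complex.norm_real, Real.norm_of_nonneg (by linarith)] at h2
  have hx0 : ‖x.1 0‖ ≤ 1 := hx ▸ coord_le x 0
  have hx1 : ‖x.1 1‖ ≤ 1 := hx ▸ coord_le x 1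
  have hx2 : ‖x.1 2‖ ≤ 1 := hx ▸ coord_le x 2
  have hpar := parallelogram_law_with_norm ℂ (x.1 0) (x.1 1)
  have hsum : ‖x.1 0 + x.1 1‖ = ‖x.1 2‖ := by
    have : x.1 0 + x.1 1 = -x.1 2 := by linear_combination memX x
    rw [this, norm_neg]
  have hbn : ‖x.1 0 - x.1 1‖ = 2 * ‖b‖ := by
    rw [hb, norm_mul]
    simp
  rw [hsum, hbn] at hpar
  have hb0 : 0 ≤ ‖b‖ := norm_nonneg _
  have h20 : 0 ≤ ‖x.1 2‖ := norm_nonneg _
  have h00 : 0 ≤ ‖x.1 0‖ := norm_nonneg _
  have h10 : 0 ≤ ‖x.1 1‖ := norm_nonneg _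
  have hq : ‖x.1 2‖ ^ 2 + 4 * ‖b‖ ^ 2 ≤ 4 := by nlinarith
  have hb1 : ‖b‖ ≤ 1 := by nlinarith
  have hab : ‖x.1 2‖ + ‖b‖ ≤ 19 / 10 := by nlinarith
  have h3 : ‖x + u • (b • e0)‖ ≤ 19 / 10 := by
    refine norm_le_of _ _ (by norm_num) fun i => ?_
    have e : (x + u • (b • e0)).1 i = x.1 i + u * (b * e0.1 i) := by simp
    rw [e]
    refine (norm_add_le _ _).trans ?_
    rw [norm_mul, norm_mul, hu, one_mul]
    fin_cases i
    · simp [e0]
      linarith
    · simp [e0]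
      linarith
    · simp [e0]
      linarith
  linarith

theorem S_one : ∀ c ∈ S 1, c ≤ 9 / 10 := by
  rintro c ⟨_, h⟩
  have hy : ‖y0‖ ≤ 1 := by
    refine norm_le_of _ _ zero_le_one fun i => ?_
    fin_cases i <;> simp [y0]
  have h1 := h A0 y0 hy
  have h2 : 1 ≤ ‖A0 (fun _ => y0)‖ := by
    have := coord_le (A0 (fun _ => y0)) 2
    rw [A0_apply] at this ⊢
    refine le_trans ?_ this
    simp [y0, e0]
    norm_num
  have := rad_A0
  nlinarith

theorem S_le (k : ℕ) : ∀ c ∈ S (k + 1), c ≤ 9 / 10 := by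
  induction k with
  | zero => exact S_one
  | succ k ih => exact fun c hc => ih c (S_succ k hc)

theorem main : ∃ L : ℝ, Tendsto (fun k => sSup (S k)) atTop (𝓝 L) ∧ L ≠ 0 ∧ L ≠ 1 := by
  have hb : ∀ k, BddAbove (S (k + 1)) := fun k => ⟨9 / 10, S_le k⟩
  have hanti : Antitone (fun k => sSup (S (k + 1))) := by
    refine antitone_nat_of_succ_le fun k => ?_
    exact csSup_le_csSup (hb k) ⟨_, half_mem (k + 1)⟩ (S_succ k)
  have hlow : ∀ k, (1 / 2 : ℝ) ≤ sSup (S (k + 1)) := fun k => le_csSup (hb k) (half_mem k)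
  have hup : ∀ k, sSup (S (k + 1)) ≤ 9 / 10 := fun k => csSup_le ⟨_, half_mem k⟩ (S_le k)
  have hbb : BddBelow (Set.range fun k => sSup (S (k + 1))) := ⟨1 / 2, by
    rintro _ ⟨k, rfl⟩
    exact hlow k⟩
  have ht := tendsto_atTop_ciInf hanti hbb
  refine ⟨_, (tendsto_add_atTop_iff_nat 1).1 ht, ?_, ?_⟩
  · have := ge_of_tendsto' ht hlow
    intro h
    rw [h] at this
    norm_num at this
  · have := le_of_tendsto' ht hup
    intro h
    rw [h] at this
    norm_num at this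

/-- There is a real or complex Banach space X whose polynomial numerical indices n^(k)(X) (best constant c with c‖P‖ ≤ numerical radius of P, over k-homogeneous polynomials P on X) converge to a limit different from 0 and 1. -/
theorem result :
    ∃ (𝕂 : Type) (_ : RCLike 𝕂) (X : Type) (_ : NormedAddCommGroup X)
      (_ : NormedSpace 𝕂 X) (_ : CompleteSpace X) (L : ℝ),
      Filter.Tendsto
        (fun k : ℕ => sSup {c : ℝ | 0 ≤ c ∧
          ∀ (A : ContinuousMultilinearMap 𝕂 (fun _ : Fin k => X) X) (y : X), ‖y‖ ≤ 1 →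
            c * ‖A (fun _ => y)‖ ≤
              ⨆ p : {p : X × (X →L[𝕂] 𝕂) // ‖p.1‖ = 1 ∧ ‖p.2‖ = 1 ∧ p.2 p.1 = 1},
                ‖p.1.2 (A (fun _ => p.1.1))‖})
        Filter.atTop (nhds L) ∧ L ≠ 0 ∧ L ≠ 1 := by
  obtain ⟨L, hL⟩ := main
  exact ⟨ℂ, inferInstance, X, inferInstance, inferInstance,
    FiniteDimensional.complete ℂ X, L, hL⟩

end Pool.Agent.S04985
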