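import Pool.Statements.S04999
import Pool.Agent.H10.Eber2
-- import your own Pool.Agent.* helpers here

set_option autoImplicit false
open Pool Pool.MP_6fa8f6_an

namespace Pool.Agent.S04999

/-- There is a real Banach space with a convex, weakly compact, non-metrizable subset K, and a compact Hausdorff totally disconnected space L, such that C(K) and C(L) are isomorphic as Banach spaces. -/
theorem result :
    ∃ (E : Type) (_ : NormedAddCommGroup E) (_ : NormedSpace ℝ E) (_ : CompleteSpace E)
      (K : Set (WeakSpace ℝ E)),
      Convex ℝ K ∧ IsCompact K ∧ ¬ TopologicalSpace.MetrizableSpace (↥K) ∧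
      ∃ (L : Type) (_ : TopologicalSpace L) (_ : CompactSpace L) (_ : T2Space L),
        TotallyDisconnectedSpace L ∧ Nonempty (C(↥K, ℝ) ≃L[ℝ] C(L, ℝ)) := by
  exact Pool.Agent.H10.PosIso.final

end Pool.Agent.S04999
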