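import Pool.Statements.S05009
import Pool.Agent.H22.Voi6

set_option autoImplicit false
open scoped InnerProductSpace MeasureTheory
open Pool Pool.MP_707689_an

namespace Pool.Agent.S05009

open Pool.Agent.H22.Voi in
lemma ser {H : Type} [NormedAddCommGroup H] [InnerProductSpace ℂ H] [CompleteSpace H]
    (Y : H →L[ℂ] H) : (∑' n : ℕ, ((n.factorial : ℂ)⁻¹) • Y ^ n) = NormedSpace.exp Y := by
  rw [NormedSpace.exp_eq_tsum ℂ]

open Pool.Agent.H22.Voi in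
lemma x1 {H : Type} [NormedAddCommGroup H] [InnerProductSpace ℂ H] [CompleteSpace H]
    (A B : H →L[ℂ] H) (s : ℝ) :
    NormedSpace.exp ((Complex.I * (s : ℂ)) • A) = X A B (s, 0) := by
  simp [X, mul_comm]

open Pool.Agent.H22.Voi in
lemma x2 {H : Type} [NormedAddCommGroup H] [InnerProductSpace ℂ H] [CompleteSpace H]
    (A B : H →L[ℂ] H) (s : ℝ) :
    NormedSpace.exp ((Complex.I * (s : ℂ)) • B) = X A B (0, s) := by
  simp [X, mul_comm]

open Pool.Agent.H22.Voi in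
lemma x3 {H : Type} [NormedAddCommGroup H] [InnerProductSpace ℂ H] [CompleteSpace H]
    (A B : H →L[ℂ] H) (s : ℝ) :
    NormedSpace.exp ((-(Complex.I * (s : ℂ))) • A) = X A B (-(s, 0)) := by
  simp [X, mul_comm]


/-- For commuting self-adjoint pairs (A1,A2),(B1,B2) with A_j−B_j in the Lorentz ideal (∑ s_k/√(k+1)<∞) and absolutely continuous joint spectral measure of (A1,A2), exp(−itB1)exp(itA1)x converges as t→+∞ for every x. -/
theorem result :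
  ∀ (H : Type) [NormedAddCommGroup H] [InnerProductSpace ℂ H] [CompleteSpace H]
    (A₁ A₂ B₁ B₂ : H →L[ℂ] H),
    IsSelfAdjoint A₁ → IsSelfAdjoint A₂ → IsSelfAdjoint B₁ → IsSelfAdjoint B₂ →
    Commute A₁ A₂ → Commute B₁ B₂ →
    Summable (fun k : ℕ =>
      sInf {r : ℝ | ∃ F : H →L[ℂ] H,
        Module.rank ℂ (LinearMap.range (F : H →ₗ[ℂ] H)) ≤ (k : Cardinal) ∧
        r = ‖(A₁ - B₁) - F‖} / Real.sqrt ((k : ℝ) + 1)) →
    Summable (fun k : ℕ =>
      sInf {r : ℝ | ∃ F : H →L[ℂ] H,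
        Module.rank ℂ (LinearMap.range (F : H →ₗ[ℂ] H)) ≤ (k : Cardinal) ∧
        r = ‖(A₂ - B₂) - F‖} / Real.sqrt ((k : ℝ) + 1)) →
    (∀ x : H, ∃ μ : MeasureTheory.Measure (ℝ × ℝ),
      MeasureTheory.IsFiniteMeasure μ ∧ μ ≪ MeasureTheory.volume ∧
      ∀ s t : ℝ,
        ⟪x, ((∑' n : ℕ, ((n.factorial : ℂ)⁻¹) • (((Complex.I * (s : ℂ)) • A₁) ^ n)) *
              (∑' n : ℕ, ((n.factorial : ℂ)⁻¹) • (((Complex.I * (t : ℂ)) • A₂) ^ n))) x⟫_ℂ =
          ∫ p, Complex.exp (Complex.I * ((s * p.1 + t * p.2 : ℝ) : ℂ)) ∂μ) →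
    ∀ x : H, ∃ y : H,
      Filter.Tendsto
        (fun t : ℝ =>
          (∑' n : ℕ, ((n.factorial : ℂ)⁻¹) • (((-(Complex.I * (t : ℂ))) • B₁) ^ n))
            ((∑' n : ℕ, ((n.factorial : ℂ)⁻¹) • (((Complex.I * (t : ℂ)) • A₁) ^ n)) x))
        Filter.atTop (nhds y) := by
  intro H _ _ _ A₁ A₂ B₁ B₂ a1 a2 b1 b2 hA hB k1 k2 hac x
  have d : Pool.Agent.H22.Voi.Dat A₁ A₂ B₁ B₂ := by
    refine ⟨a1, a2, b1, b2, hA, hB, k1, k2, fun x => ?_⟩
    obtain ⟨μ, hf, hμ, e⟩ := hac x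
    refine ⟨fun p => ((μ.rnDeriv MeasureTheory.volume p).toReal : ℂ),
      MeasureTheory.Measure.integrable_toReal_rnDeriv.ofReal, fun s t => ?_⟩
    have e' := e s t
    rw [ser, ser, x1 A₁ A₂, x2 A₁ A₂, ← Pool.Agent.H22.Voi.X_add hA,
      ← MeasureTheory.integral_rnDeriv_smul hμ] at e'
    simp only [Prod.mk_add_mk, add_zero, zero_add] at e'
    rw [e']
    refine MeasureTheory.integral_congr_ae (Filter.Eventually.of_forall fun p => ?_)
    simp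
  simp only [ser, x1 A₁ A₂, x3 B₁ B₂]
  exact d.wave x

end Pool.Agent.S05009
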