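import Pool.Statements.S05072
import Pool.Agent.H33.Lib

set_option autoImplicit false
open Pool Pool.MP_75b936_an

namespace Pool.Agent.S05072

/-- The negation of the preceding statement: For any continuous f_1..f_n not all zero there are a rational combination R of them, defined on an open interval I, such that no antiderivative of R on I equals on I a rational combination of superpositions of the f_i. -/
theorem result :
    ¬ (∀ n : ℕ, ∀ f : Fin n → ℝ → ℝ, (∀ i, Continuous (f i)) → (∃ i x, f i x ≠ 0) →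
      ∃ (R : ℝ → ℝ) (I : Set ℝ), IsOpen I ∧ I.OrdConnected ∧ I.Nonempty ∧
        (∃ P Q : MvPolynomial (Fin n) ℤ, MvPolynomial.constantCoeff P = 0 ∧
          ((∀ x ∈ I, R x = MvPolynomial.aeval (fun i => f i x) P) ∨
           (MvPolynomial.constantCoeff Q = 0 ∧
             ∀ x ∈ I, MvPolynomial.aeval (fun i => f i x) Q ≠ 0 ∧
               R x = MvPolynomial.aeval (fun i => f i x) P /
                 MvPolynomial.aeval (fun i => f i x) Q))) ∧
        ¬ ∃ F : ℝ → ℝ, (∀ x ∈ I, HasDerivAt F (R x) x) ∧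
          ∃ P Q : MvPolynomial (Fin n × List (Fin n)) ℤ, MvPolynomial.constantCoeff P = 0 ∧
            ((∀ x ∈ I, F x =
                MvPolynomial.aeval
                  (fun v : Fin n × List (Fin n) => f v.1 (v.2.foldr (fun j y => f j y) x)) P) ∨
             (MvPolynomial.constantCoeff Q = 0 ∧
               ∀ x ∈ I,
                 MvPolynomial.aeval
                   (fun v : Fin n × List (Fin n) => f v.1 (v.2.foldr (fun j y => f j y) x)) Q ≠ 0 ∧
                 F x =
                   MvPolynomial.aeval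
                     (fun v : Fin n × List (Fin n) => f v.1 (v.2.foldr (fun j y => f j y) x)) P /
                   MvPolynomial.aeval
                     (fun v : Fin n × List (Fin n) => f v.1 (v.2.foldr (fun j y => f j y) x)) Q))) := by
  intro h
  obtain ⟨g, hc, hg⟩ := H33.Lib.fixpoint H33.Lib.Phi H33.Lib.Phi_cont H33.Lib.Phi_causal
  have hne : ∃ i x, H33.Lib.ff g i x ≠ 0 :=
    ⟨2, _, (H33.Lib.chi_pos false 0 4 (by norm_num) (by norm_num)).ne'⟩
  obtain ⟨R, I, hI, hI2, hI3, ⟨P, Q, -, hPQ⟩, hno⟩ := h 6 (H33.Lib.ff g) (H33.Lib.ff_cont g hc) hne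
  apply hno
  have key : ∃ Q' : MvPolynomial (Fin 6) ℤ, ∀ x ∈ I, H33.Lib.ev g Q' x ≠ 0 ∧
      R x = H33.Lib.ev g P x / H33.Lib.ev g Q' x := by
    rcases hPQ with h1 | ⟨-, h1⟩
    · refine ⟨1, fun x hx => ?_⟩
      simp only [H33.Lib.ev, map_one, div_one]
      exact ⟨one_ne_zero, h1 x hx⟩
    · exact ⟨Q, h1⟩
  obtain ⟨Q', hQ'⟩ := key
  obtain ⟨F, hF, e, e', he⟩ := H33.Lib.main g hc I hI hI2 hI3 P Q' (fun x hx => (hQ' x hx).1)
  refine ⟨F, fun x hx => (hQ' x hx).2 ▸ hF x hx, H33.Lib.PP e, H33.Lib.PP e', H33.Lib.PP_const e,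
    Or.inr ⟨H33.Lib.PP_const e', fun x hx => ?_⟩⟩
  rw [H33.Lib.PP_eval g hg, H33.Lib.PP_eval g hg]
  exact he x hx

end Pool.Agent.S05072
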