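import Pool.Statements.S05086
import Pool.Agent.H30.Poch
-- import your own Pool.Agent.* helpers here

set_option autoImplicit false
open Pool Pool.MP_7697ea_an

namespace Pool.Agent.S05086

/-- The negation of the preceding statement: For all n, real f with f n ≠ 0 whose degree-n polynomial has only real negative complex roots, and all r ≥ 2: if the Pochhammer–Toeplitz polynomial P_n^r is not identically zero, all its complex roots are real and negative. -/
theorem result :
    ¬ (∀ (n : ℕ) (f : ℕ → ℝ), f n ≠ 0 →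
      (∀ z : ℂ, ∑ k ∈ Finset.range (n + 1), (f k : ℂ) * z ^ k = 0 → z.im = 0 ∧ z.re < 0) →
      ∀ r : ℕ, 2 ≤ r →
        (∃ w : ℂ, ∑ k ∈ Finset.Nat.antidiagonalTuple r n,
            (Nat.multinomial Finset.univ k : ℂ) * (∏ i, (f (k i) : ℂ)) *
              Matrix.det (Matrix.of (fun i j : Fin r =>
                (ascPochhammer ℂ (k i)).eval (w + ((j : ℕ) : ℂ) - ((i : ℕ) : ℂ)))) ≠ 0) →
        ∀ z : ℂ, ∑ k ∈ Finset.Nat.antidiagonalTuple r n,
            (Nat.multinomial Finset.univ k : ℂ) * (∏ i, (f (k i) : ℂ)) *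
              Matrix.det (Matrix.of (fun i j : Fin r =>
                (ascPochhammer ℂ (k i)).eval (z + ((j : ℕ) : ℂ) - ((i : ℕ) : ℂ)))) = 0 →
          z.im = 0 ∧ z.re < 0) := by
  intro H
  have h := H 9 Pool.Agent.H30.Poch.ff (by norm_num [Pool.Agent.H30.Poch.ff])
    Pool.Agent.H30.Poch.roots_ff 3 (by norm_num)
    ⟨0, by rw [Pool.Agent.H30.Poch.key]; norm_num⟩
  have h2 := Pool.Agent.H30.Poch.cubic_nonreal 180891835219 921956055501 1556618575418 872547610584 (by norm_num)
    (fun z hz => (h z (by
      rw [Pool.Agent.H30.Poch.key]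
      push_cast at hz
      rw [hz, mul_zero])).1)
  norm_num at h2

end Pool.Agent.S05086
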