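import Pool.Statements.S05124
import Pool.Agent.H4.Lin2
-- import your own Pool.Agent.* helpers here

set_option autoImplicit false
open Topology
open Pool Pool.MP_7b2682_an

namespace Pool.Agent.S05124

/-- The negation of the preceding statement: For every real or complex Banach space X and bounded operator T, if the vectors whose return sets to each neighbourhood have positive lower density are dense, then some dense linear subspace consists entirely of such vectors. -/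
theorem result :
    ¬ (∀ (𝕜 : Type) [RCLike 𝕜] (X : Type) [NormedAddCommGroup X] [NormedSpace 𝕜 X]
      [CompleteSpace X] (T : X →L[𝕜] X),
      Dense {x : X | ∀ U ∈ 𝓝 x, ∃ δ : ℝ, 0 < δ ∧ ∃ N₀ : ℕ, ∀ N : ℕ, N₀ ≤ N →
          δ * (N : ℝ) ≤ (({n : ℕ | 1 ≤ n ∧ n ≤ N ∧ (T ^ n) x ∈ U}.ncard : ℕ) : ℝ)} →
      ∃ M : Submodule 𝕜 X, Dense (M : Set X) ∧
        (M : Set X) ⊆ {x : X | ∀ U ∈ 𝓝 x, ∃ δ : ℝ, 0 < δ ∧ ∃ N₀ : ℕ, ∀ N : ℕ, N₀ ≤ N →
          δ * (N : ℝ) ≤ (({n : ℕ | 1 ≤ n ∧ n ≤ N ∧ (T ^ n) x ∈ U}.ncard : ℕ) : ℝ)}) := by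
  intro h
  obtain ⟨X, _, _, _, T, P, hP, hD, hB⟩ := Pool.Agent.H4.Lin.main ℝ
  obtain ⟨M, hM, hM'⟩ := h ℝ X T (hD.mono fun x hx U hU => by
    obtain ⟨ε, hε, hb⟩ := Metric.mem_nhds_iff.1 hU
    obtain ⟨δ, hδ, N₀, hN⟩ := hx ε hε
    refine ⟨δ, hδ, N₀, fun N hN' => (hN N hN').trans ?_⟩
    rw [Nat.cast_le]
    exact Set.ncard_le_ncard (fun n hn => ⟨hn.1, hn.2.1, hb (mem_ball_iff_norm.2 hn.2.2)⟩)
      ((Set.finite_Iic N).subset fun n hn => hn.2.1))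
  obtain ⟨y, hy, hPy⟩ := Pool.Agent.H4.Lin.hit ℝ P hP M hM
  obtain ⟨δ, hδ, N₀, hN⟩ := hM' hy _ (Metric.ball_mem_nhds y (show (0 : ℝ) < 1 / 2 by norm_num))
  obtain ⟨N₁, hN₁⟩ := hB y hPy δ hδ
  refine absurd ((hN (max N₀ N₁) (le_max_left _ _)).trans ?_)
    (not_le.2 (hN₁ (max N₀ N₁) (le_max_right _ _)))
  rw [Nat.cast_le]
  exact Set.ncard_le_ncard (fun n hn => ⟨hn.2.1, mem_ball_iff_norm.1 hn.2.2⟩)
    ((Set.finite_Iic _).subset fun n hn => hn.1)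

end Pool.Agent.S05124
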