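import Pool.Statements.S05209
import Pool.Agent.H28.MeasExt

set_option autoImplicit false
open MeasureTheory
open Pool Pool.MP_8048c5_an

namespace Pool.Agent.S05209
open MeasureTheory Set Filter Topology BoundedContinuousFunction Pool.Agent.H28.MeasExt
open scoped InnerProductSpace ComplexOrder

noncomputable def ch (x : ℝ) : ℝ →ᵇ ℂ :=
  ofNormedAddCommGroup (fun t : ℝ => Complex.exp (Complex.I * x * t)) (by fun_prop) 1 fun t => by
    rw [mul_assoc, mul_comm, ← Complex.ofReal_mul, Complex.norm_exp_ofReal_mul_I]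

lemma ch_apply (x t : ℝ) : ch x t = Complex.exp (Complex.I * x * t) := rfl

lemma ch_add (a b : ℝ) : ch (a + b) = ch a * ch b := by
  ext t; simp [ch_apply, ← Complex.exp_add, mul_add, add_mul]

lemma ch_zero : ch 0 = 1 := by ext t; simp [ch_apply]

lemma ch_star (a : ℝ) : star (ch a) * ch a = 1 := by
  ext t; simp [ch_apply, ← Complex.exp_conj, ← Complex.exp_add]

noncomputable def ab (a : ℝ →ᵇ ℂ) : ℝ →ᵇ ℂ :=
  ofNormedAddCommGroup (fun t => (‖a t‖ : ℂ)) (by fun_prop) ‖a‖ fun t => by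
    simpa using a.norm_coe_le_norm t

lemma ab_apply (a : ℝ →ᵇ ℂ) (t : ℝ) : ab a t = ‖a t‖ := rfl

lemma state {D : Type} [AddCommGroup D] [Module ℝ D] (P : D →ₗ[ℝ] (ℝ →ᵇ ℂ)) (Φ : D →ₗ[ℝ] ℝ)
    (K : ℝ) (K0 : 0 ≤ K) (h : ∀ d, Φ d ≤ K * ‖P d‖) : ∃ Ω : (ℝ →ᵇ ℂ) →ₗ[ℂ] ℂ,
    (∀ s, 0 ≤ Ω (star s * s)) ∧ ∀ d, Φ d ≤ (Ω (ab (P d))).re := by
  let p : (ℝ →ᵇ ℂ) × D → ℝ := fun x => ⨆ t, ((x.1 t).re + ‖P x.2 t‖)
  have bd : ∀ x : (ℝ →ᵇ ℂ) × D, BddAbove (range fun t => (x.1 t).re + ‖P x.2 t‖) := fun x =>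
    ⟨‖x.1‖ + ‖P x.2‖, by
      rintro _ ⟨t, rfl⟩
      exact add_le_add ((Complex.re_le_norm _).trans (x.1.norm_coe_le_norm t))
        ((P x.2).norm_coe_le_norm t)⟩
  obtain ⟨ω, hω⟩ := sand (fun x => K * p x - Φ x.2) (fun c hc x => by
    have : p (c • x) = c * p x := by
      simp only [p]
      rw [Real.mul_iSup_of_nonneg hc.le]
      exact iSup_congr fun t => by simp [norm_smul, abs_of_pos hc, mul_add]
    rw [this, Prod.smul_snd, map_smul, smul_eq_mul]; ring) (fun x y => by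
    have : p (x + y) ≤ p x + p y := ciSup_le fun t => by
      have h1 := le_ciSup (bd x) t
      have h2 := le_ciSup (bd y) t
      have h3 := norm_add_le (P x.2 t) (P y.2 t)
      simp only [Prod.fst_add, Prod.snd_add, map_add, coe_add, Pi.add_apply, Complex.add_re, p]
      linarith
    have := mul_le_mul_of_nonneg_left this K0
    rw [Prod.snd_add, map_add]; linarith) fun d => by
    have : ‖P d‖ ≤ p (0, d) := (norm_le ((by simp : (0 : ℝ) ≤ _).trans (le_ciSup (bd (0, d)) 0))).2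
      fun t => le_of_eq_of_le (by simp) (le_ciSup (bd (0, d)) t)
    have := mul_le_mul_of_nonneg_left this K0
    linarith [h d]
  have neg : ∀ a d, (∀ t, (a t).re + ‖P d t‖ ≤ 0) → ω a ≤ -Φ d := fun a d ha => by
    have := mul_nonpos_of_nonneg_of_nonpos K0 (show p (a, d) ≤ 0 from ciSup_le ha)
    linarith [hω a d]
  refine ⟨Module.Dual.extendRCLike ω, fun s => ?_, fun d => ?_⟩
  · have h1 := neg (-(star s * s)) 0 fun t => by
      simp; nlinarith [mul_self_nonneg (s t).re, mul_self_nonneg (s t).im]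
    have h2 := neg (Complex.I • (star s * s)) 0 fun t => by simp [mul_comm]
    have h3 := neg (-(Complex.I • (star s * s))) 0 fun t => by simp [mul_comm]
    rw [map_zero, neg_zero] at h1 h2 h3
    rw [map_neg] at h1 h3
    rw [Module.Dual.extendRCLike_apply, RCLike.I_to_complex,
      show ω (Complex.I • (star s * s)) = 0 by linarith]
    simpa using h1
  · have := neg (-ab (P d)) d fun t => by simp [ab_apply]
    rw [map_neg] at this
    simpa [Module.Dual.extendRCLike_apply] using this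

lemma riesz {D H : Type} [AddCommGroup D] [Module ℂ D] [Module ℝ D] [IsScalarTower ℝ ℂ D]
    [NormedAddCommGroup H] [InnerProductSpace ℂ H] [CompleteSpace H] (T : D →ₗ[ℂ] H)
    (Φ : D →ₗ[ℂ] ℂ) (K : ℝ) (K0 : 0 ≤ K) (h : ∀ d, (Φ d).re ≤ K * ‖T d‖) :
    ∃ η : H, ∀ d, ⟪η, T d⟫_ℂ = Φ d := by
  obtain ⟨ω, hω⟩ := sand (fun x : H × D => K * ‖x.1 - T x.2‖ + (Φ x.2).re) (fun c hc x => by
    rw [Prod.smul_fst, Prod.smul_snd, T.map_smul_of_tower, Φ.map_smul_of_tower, ← smul_sub,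
      norm_smul, Real.norm_of_nonneg hc.le]
    simp; ring) (fun x y => by
    have := mul_le_mul_of_nonneg_left (norm_add_le (x.1 - T x.2) (y.1 - T y.2)) K0
    rw [Prod.fst_add, Prod.snd_add, map_add, map_add, add_sub_add_comm, Complex.add_re]
    linarith) fun d => by
    have := h (-d)
    simp at this ⊢; linarith
  have h1 : ∀ d, ω (T d) = (Φ d).re := fun d => le_antisymm (by simpa using hω (T d) d)
    (by simpa using hω (T (-d)) (-d))
  have h2 : ∀ x, |ω x| ≤ K * ‖x‖ := fun x => abs_le.2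
    ⟨by simpa [neg_le] using hω (-x) 0, by simpa using hω x 0⟩
  refine ⟨(InnerProductSpace.toDual ℂ H).symm (LinearMap.mkContinuous
    (Module.Dual.extendRCLike ω) (2 * K) fun x => ?_), fun d => ?_⟩
  · rw [Module.Dual.extendRCLike_apply]
    refine (norm_sub_le _ _).trans ?_
    have := h2 (Complex.I • x)
    simp [norm_smul] at this ⊢
    linarith [h2 x]
  · rw [InnerProductSpace.toDual_symm_apply, LinearMap.mkContinuous_apply,
      Module.Dual.extendRCLike_apply, ← map_smul, h1, h1, map_smul]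
    apply Complex.ext <;> simp


/-- For finite A>0, every measurable f on (-A,A) defining a bounded functional on exponential sums with frequencies in (-A,A) (sup norm on ℝ) extends to a measurable g on ℝ defining a bounded such functional for all real frequencies. -/
theorem result :
    ∀ A : ℝ, 0 < A → ∀ f : ℝ → ℂ,
      AEMeasurable f (volume.restrict (Set.Ioo (-A) A)) →
      (∃ C : ℝ, ∀ s : Finset ℝ, (∀ x ∈ s, x ∈ Set.Ioo (-A) A) →
        ∀ c : ℝ → ℂ, ∀ M : ℝ,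
          (∀ t : ℝ, ‖∑ x ∈ s, c x * Complex.exp (Complex.I * (x : ℂ) * (t : ℂ))‖ ≤ M) →
          ‖∑ x ∈ s, c x * f x‖ ≤ C * M) →
      ∃ g : ℝ → ℂ, (∀ x ∈ Set.Ioo (-A) A, g x = f x) ∧ AEMeasurable g volume ∧
        ∃ C : ℝ, ∀ s : Finset ℝ, ∀ c : ℝ → ℂ, ∀ M : ℝ,
          (∀ t : ℝ, ‖∑ x ∈ s, c x * Complex.exp (Complex.I * (x : ℂ) * (t : ℂ))‖ ≤ M) →
          ‖∑ x ∈ s, c x * g x‖ ≤ C * M := by
  classical
  rintro A - f hf ⟨K, hK⟩
  let P : (Ioo (-A) A →₀ ℂ) →ₗ[ℂ] (ℝ →ᵇ ℂ) := Finsupp.linearCombination ℂ fun x => ch x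
  let Φ : (Ioo (-A) A →₀ ℂ) →ₗ[ℂ] ℂ := Finsupp.linearCombination ℂ fun x => f x
  have hb : ∀ d, ‖Φ d‖ ≤ |K| * ‖P d‖ := fun d => by
    have := hK (d.support.map (Function.Embedding.subtype _)) (by
      simp only [Finset.mem_map]; rintro _ ⟨x, -, rfl⟩; exact x.2)
      (fun x => if h : x ∈ Ioo (-A) A then d ⟨x, h⟩ else 0) ‖P d‖ fun t => by
        refine le_of_eq_of_le ?_ ((P d).norm_coe_le_norm t)
        simp [P, Finsupp.linearCombination_apply, Finsupp.sum, ch_apply]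
        exact congrArg _ (Finset.sum_congr rfl fun x _ => if_pos x.2)
    refine le_of_eq_of_le ?_ (this.trans (by gcongr; exact le_abs_self K))
    simp [Φ, Finsupp.linearCombination_apply, Finsupp.sum]
    exact congrArg _ (Finset.sum_congr rfl fun x _ => (if_pos x.2).symm)
  obtain ⟨Ω, h1, h2⟩ := state (P.restrictScalars ℝ) (Complex.reLm ∘ₗ Φ.restrictScalars ℝ) |K|
    (abs_nonneg K) fun d => (Complex.re_le_norm _).trans (hb d)
  letI := CStarAlgebra.spectralOrder (ℝ →ᵇ ℂ)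
  haveI := CStarAlgebra.spectralOrderedRing (ℝ →ᵇ ℂ)
  let ω : (ℝ →ᵇ ℂ) →ₚ[ℂ] ℂ := PositiveLinearMap.mk₀ Ω fun x hx => by
    rw [StarOrderedRing.nonneg_iff] at hx
    induction hx using AddSubmonoid.closure_induction with
    | mem x hx => obtain ⟨s, rfl⟩ := hx; exact h1 s
    | zero => simp
    | add x y _ _ hx hy => rw [map_add]; exact add_nonneg hx hy
  let π := ω.gnsStarAlgHom
  let ξ : ω.GNS := (ω.toPreGNS 1 : ω.PreGNS)
  have hπ : ∀ a, π a ξ = (ω.toPreGNS a : ω.PreGNS) := fun a => by simp [π, ξ]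
  obtain ⟨η, hη⟩ := riesz (((ContinuousLinearMap.apply ℂ _ ξ).toLinearMap ∘ₗ
    π.toAlgHom.toLinearMap) ∘ₗ P) Φ ‖ω.toPreGNS 1‖ (norm_nonneg _) fun d => by
    refine (h2 d).trans ?_
    have e : ‖ω.toPreGNS (ab (P d))‖ = ‖ω.toPreGNS (P d)‖ := by
      rw [ω.preGNS_norm_def, ω.preGNS_norm_def]
      congr 3
      ext t
      simp [ab_apply, Complex.conj_mul', sq]
    have := (Complex.re_le_norm _).trans (norm_inner_le_norm (𝕜 := ℂ) (ω.toPreGNS 1)
      (ω.toPreGNS (ab (P d))))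
    rw [e, ω.preGNS_inner_def] at this
    change _ ≤ _ * ‖π (P d) ξ‖
    rw [hπ, UniformSpace.Completion.norm_coe]
    simp at this
    exact this
  have hfx : ∀ x ∈ Ioo (-A) A, ⟪η, π (ch x) ξ⟫_ℂ = f x := fun x hx => by
    simpa [P, Φ] using hη (Finsupp.single ⟨x, hx⟩ 1)
  obtain ⟨ζ, m, hζ⟩ := ext (fun t => π (ch t)) (fun v => by simp [ch_zero])
    (fun a b v => by simp only [ch_add, map_mul]; rfl) (fun a v w => by
      rw [← ContinuousLinearMap.adjoint_inner_right, ← ContinuousLinearMap.star_eq_adjoint,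
        ← map_star, ← ContinuousLinearMap.mul_apply, ← map_mul, ch_star, map_one]; rfl)
    ξ η _ isOpen_Ioo (hf.congr ((ae_restrict_iff' measurableSet_Ioo).2
      (Eventually.of_forall fun x hx => (hfx x hx).symm)))
  refine ⟨_, fun x hx => (hζ x hx).trans (hfx x hx), m, ‖η‖ * ‖ζ‖, fun s c M hM => ?_⟩
  have e : ∑ x ∈ s, c x * ⟪η, π (ch x) ζ⟫_ℂ = ⟪η, π (∑ x ∈ s, c x • ch x) ζ⟫_ℂ := by
    simp only [map_sum, map_smul, ContinuousLinearMap.sum_apply, ContinuousLinearMap.smul_apply,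
      inner_sum, inner_smul_right]
  have b : ‖∑ x ∈ s, c x • ch x‖ ≤ M := (norm_le ((norm_nonneg _).trans (hM 0))).2 fun t => by
    simpa [ch_apply] using hM t
  rw [e, mul_right_comm, mul_assoc]
  exact (norm_inner_le_norm _ _).trans (mul_le_mul_of_nonneg_left ((π _).le_of_opNorm_le
    ((NonUnitalStarAlgHom.norm_apply_le π _).trans b) _) (norm_nonneg _))

end Pool.Agent.S05209
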