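import Pool.Statements.S05212
import Pool.Agent.H23.Null3

set_option autoImplicit false
open Real
open Pool Pool.MP_807847_an

namespace Pool.Agent.S05212

/-- The negation of the preceding statement: If a_n → 0, the symmetric partial sums of ∑ a_n e^{int} tend to 0 on a closed set F of the circle, and μ is a finite positive measure carried by F with ∑∣μ̂(n)∣∣a_{-n}∣ finite, then ∑ μ̂(n) a_{-n} = 0. -/
theorem result :
    ¬ (∀ (a : ℤ → ℂ) (F : Set (AddCircle (2 * π))) (μ : MeasureTheory.Measure (AddCircle (2 * π))),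
      Filter.Tendsto a Filter.cofinite (nhds 0) →
      IsClosed F →
      (∀ t ∈ F, Filter.Tendsto
        (fun N : ℕ => ∑ n ∈ Finset.Icc (-(N : ℤ)) (N : ℤ), a n * fourier n t)
        Filter.atTop (nhds 0)) →
      MeasureTheory.IsFiniteMeasure μ →
      μ Fᶜ = 0 →
      Summable (fun n : ℤ => ‖∫ t, fourier (-n) t ∂μ‖ * ‖a (-n)‖) →
      ∑' n : ℤ, (∫ t, fourier (-n) t ∂μ) * a (-n) = 0) := by
  intro H
  obtain ⟨a, F, μ, h1, h2, h3, h4, h5, h6, h7⟩ := H23.Null.counter
  exact h7 (H a F μ h1 h2 h3 h4 h5 h6)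

end Pool.Agent.S05212
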