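import Pool.Statements.S05214

set_option autoImplicit false
open Pool Pool.MP_80a07b_an

namespace Pool.Agent.S05214

open Set Topology

theorem abstr {Γ P ι : Type} [Group Γ] [TopologicalSpace P] [T2Space P] [Countable ι]
    (act : Γ → P → P) (hc : ∀ g, Continuous (act g)) (h1 : ∀ y, act 1 y = y)
    (hm : ∀ g h y, act (g * h) y = act g (act h y)) (K : Set P) (hK : IsCompact K)
    (hne : K.Nonempty) (hinv : ∀ g, MapsTo (act g) K K) (B : ι → Set P)
    (hB : ∀ n, IsClosed (B n)) (hcov : ∀ y ∈ K, ∃ n, y ∈ B n)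
    (hsep : ∀ n, ∀ y ∈ K, ∀ g, y ∈ B n → act g y ∈ B n → g = 1) : Finite Γ := by
  obtain ⟨K0, hK0, hmin⟩ := zorn_superset_nonempty
    {L : Set P | L ⊆ K ∧ IsClosed L ∧ L.Nonempty ∧ ∀ g, MapsTo (act g) L L} (by
      intro c hcS hch hcn
      have : Nonempty c := hcn.to_subtype
      obtain ⟨L, hL⟩ := hcn
      refine ⟨⋂₀ c, ⟨(sInter_subset_of_mem hL).trans (hcS hL).1,
        isClosed_sInter fun L hL => (hcS hL).2.1, ?_,
        fun g y hy L hL => (hcS hL).2.2.2 g (hy L hL)⟩, fun s hs => sInter_subset_of_mem hs⟩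
      exact IsCompact.nonempty_sInter_of_directed_nonempty_isCompact_isClosed
        (fun a ha b hb => (hch.total ha hb).elim (fun h => ⟨a, ha, subset_rfl, h⟩)
          fun h => ⟨b, hb, h, subset_rfl⟩) (fun U hU => (hcS hU).2.2.1)
        (fun U hU => hK.of_isClosed_subset (hcS hU).2.1 (hcS hU).1) (fun U hU => (hcS hU).2.1))
    K ⟨subset_rfl, hK.isClosed, hne, hinv⟩
  obtain ⟨-, hcl, hn0, hi0⟩ := hmin.prop
  have hc0 : IsCompact K0 := hK.of_isClosed_subset hcl hK0
  have : CompactSpace K0 := isCompact_iff_compactSpace.1 hc0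
  have : Nonempty K0 := hn0.to_subtype
  obtain ⟨n, z, hz⟩ := nonempty_interior_of_iUnion_of_closed
    (f := fun n => ((↑) : K0 → P) ⁻¹' B n) (fun n => (hB n).preimage continuous_subtype_val) (by
      refine eq_univ_of_forall fun y => ?_
      obtain ⟨n, hn⟩ := hcov y (hK0 y.2)
      exact mem_iUnion.2 ⟨n, hn⟩)
  obtain ⟨V, hVs, hVo, hzV⟩ := mem_interior.1 hz
  obtain ⟨U, hUo, rfl⟩ := isOpen_induced_iff.1 hVo
  have hcover : K0 ⊆ ⋃ g, act g ⁻¹' U := by
    by_contra hcon
    obtain ⟨y, hy, hy'⟩ := not_subset.1 hcon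
    have h2 := hmin.le_of_le (y := K0 \ ⋃ g, act g ⁻¹' U)
      ⟨sdiff_subset.trans hK0, hcl.sdiff (isOpen_iUnion fun g => hUo.preimage (hc g)), ⟨y, hy, hy'⟩,
        fun g w hw => ⟨hi0 g hw.1, fun h => hw.2 (by
          obtain ⟨k, hk⟩ := mem_iUnion.1 h
          exact mem_iUnion.2 ⟨k * g, by rw [mem_preimage, hm]; exact hk⟩)⟩⟩ sdiff_subset
    exact (h2 z.2).2 (mem_iUnion.2 ⟨1, by rw [mem_preimage, h1]; exact hzV⟩)
  obtain ⟨t, ht⟩ := hc0.elim_finite_subcover _ (fun g => hUo.preimage (hc g)) hcover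
  obtain ⟨y, hy⟩ := hn0
  have h3 : ∀ h : Γ, ∃ g : t, act (g * h) y ∈ B n := by
    intro h
    obtain ⟨g, hg, hgU⟩ := mem_iUnion₂.1 (ht (hi0 h hy))
    refine ⟨⟨g, hg⟩, ?_⟩
    rw [hm]
    exact hVs (a := ⟨_, hi0 g (hi0 h hy)⟩) hgU
  choose φ hφ using h3
  refine Finite.of_injective φ fun h h' e => ?_
  have h4 := hsep n _ (hK0 (hi0 (φ h * h) hy)) (φ h' * h' * (φ h * h)⁻¹) (hφ h) (by
    rw [← hm, inv_mul_cancel_right]
    exact hφ h')
  rw [mul_inv_eq_one, e, mul_right_inj] at h4
  exact h4.symm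

variable {X : Type} [NormedAddCommGroup X] [NormedSpace ℝ X]

lemma wclosed {s : Set X} (hs : Convex ℝ s) (hc : IsClosed s) :
    IsClosed {y : WeakSpace ℝ X | (toWeakSpace ℝ X).symm y ∈ s} := by
  have h := hs.toWeakSpace_closure ℝ
  rw [hc.closure_eq] at h
  have h2 : {y : WeakSpace ℝ X | (toWeakSpace ℝ X).symm y ∈ s} = toWeakSpace ℝ X '' s := by
    ext y
    exact ⟨fun hy => ⟨_, hy, rfl⟩, fun ⟨x, hx, e⟩ => e ▸ hx⟩
  rw [h2, h]
  exact isClosed_closure

lemma wcont (T : X →L[ℝ] X) (s : Finset X) (h : ∀ x, T x ∈ Submodule.span ℝ (s : Set X)) :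
    Continuous fun y : WeakSpace ℝ X => T ((toWeakSpace ℝ X).symm y) := by
  have : FiniteDimensional ℝ (Submodule.span ℝ (s : Set X)) := FiniteDimensional.span_finset ℝ s
  let b := Module.finBasis ℝ (Submodule.span ℝ (s : Set X))
  let f := fun j => (LinearMap.toContinuousLinearMap (b.coord j)).comp (T.codRestrict _ h)
  have h1 : (fun y : WeakSpace ℝ X => T ((toWeakSpace ℝ X).symm y)) =
      fun y => ∑ j, f j ((toWeakSpace ℝ X).symm y) • (b j : X) := by
    funext y
    have := congrArg Subtype.val (b.sum_repr (T.codRestrict _ h ((toWeakSpace ℝ X).symm y)))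
    rw [Submodule.coe_sum] at this
    exact this.symm
  rw [h1]
  refine continuous_finsetSum _ fun j _ => Continuous.smul ?_ continuous_const
  exact WeakBilin.eval_continuous (topDualPairing ℝ X).flip (f j)

/-- The negation of the preceding statement: There is a reflexive real Banach space X and an infinite, norm-bounded group of invertible operators on X, each equal to identity plus a finite-rank operator, which is discrete in the topology of pointwise convergence. -/
theorem result :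
    ¬ (∃ (X : Type) (_ : NormedAddCommGroup X) (_ : NormedSpace ℝ X), CompleteSpace X ∧
      (∀ φ : (X →L[ℝ] ℝ) →L[ℝ] ℝ, ∃ x : X, ∀ f : X →L[ℝ] ℝ, φ f = f x) ∧
      ∃ G : Subgroup (X →L[ℝ] X)ˣ, (G : Set (X →L[ℝ] X)ˣ).Infinite ∧
        (∃ C : ℝ, ∀ g ∈ G, ‖g.val‖ ≤ C) ∧
        (∀ g ∈ G, ∃ s : Finset X, ∀ x : X, g.val x - x ∈ Submodule.span ℝ (s : Set X)) ∧
        (∀ g ∈ G, ∃ s : Finset X, ∃ ε : ℝ, 0 < ε ∧ ∀ h ∈ G,
          (∀ x ∈ s, ‖h.val x - g.val x‖ < ε) → h = g)) := by
  rintro ⟨X, _, _, -, hrefl, G, hinf, ⟨C, hC⟩, hfr, hd⟩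
  obtain ⟨s, ε, hε, hs⟩ := hd 1 G.one_mem
  let e := hinf.natEmbedding
  let H := (FreeGroup.lift fun n => (e n).1).range
  have hHG : H ≤ G := FreeGroup.range_lift_le (by rintro _ ⟨n, rfl⟩; exact (e n).2)
  have hHc : Countable H := (MonoidHom.rangeRestrict_surjective _).countable
  have hHi : Infinite H := Infinite.of_injective
    (fun n => (⟨(e n).1, FreeGroup.of n, by simp⟩ : H)) fun a b h =>
      e.injective (Subtype.ext (congrArg (fun x : H => x.1) h))
  have hC0 : 0 ≤ C := (norm_nonneg _).trans (hC 1 G.one_mem)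
  let w := toWeakSpace ℝ X
  let act : H → (s → WeakSpace ℝ X) → (s → WeakSpace ℝ X) :=
    fun g y i => WeakSpace.map g.1.val (y i)
  have hc : ∀ g, Continuous (act g) := fun g =>
    continuous_pi fun i => (WeakSpace.map g.1.val).continuous.comp (continuous_apply i)
  let O : Set (s → WeakSpace ℝ X) := range fun g : H => act g fun i => w i
  let Oi : s → Set (WeakSpace ℝ X) := fun i => range fun g : H => w (g.1.val i)
  have hKO : closure O ⊆ Set.pi univ fun i => closure (Oi i) := by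
    refine closure_minimal ?_ (isClosed_set_pi fun i _ => isClosed_closure)
    rintro _ ⟨g, rfl⟩ i -
    exact subset_closure ⟨g, rfl⟩
  have hcomp : IsCompact (closure O) := by
    refine (isCompact_univ_pi fun i => ?_).of_isClosed_subset isClosed_closure hKO
    refine NormedSpace.isCompact_closure_of_isBounded ℝ X _ ?_ fun φ _ => ?_
    · refine isBounded_iff_forall_norm_le.2 ⟨C * ‖(i : X)‖, ?_⟩
      rintro x ⟨g, hg⟩
      have : x = g.1.val i := hg.symm
      rw [this]
      exact g.1.val.le_of_opNorm_le (hC _ (hHG g.2)) _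
    · obtain ⟨x, hx⟩ := hrefl φ
      exact ⟨x, DFunLike.ext _ _ fun f => (hx f).symm⟩
  let A : Set X := range fun p : H × s => p.1.1.val p.2
  obtain ⟨D, hDc, hD⟩ := (countable_range (fun p : H × s => p.1.1.val p.2)).isSeparable.span
    (R := ℝ) |>.closure
  have : Countable D := hDc.to_subtype
  set η := ε / (3 * (C + 1)) with hη
  have hη0 : 0 < η := by positivity
  refine not_finite_iff_infinite.2 hHi (abstr act hc (fun _ => rfl) (fun _ _ _ => rfl) (closure O)
    hcomp ⟨_, subset_closure ⟨1, rfl⟩⟩ (fun g => MapsTo.closure ?_ (hc g))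
    (fun d : s → D => {y | ∀ i, w.symm (y i) ∈ Metric.closedBall (d i : X) η}) (fun d => ?_)
    (fun y hy => ?_) fun d y hy g h1 h2 => ?_)
  · rintro _ ⟨h, rfl⟩
    exact ⟨g * h, rfl⟩
  · rw [ofPred_forall]
    exact isClosed_iInter fun i =>
      (wclosed (convex_closedBall _ _) Metric.isClosed_closedBall).preimage (continuous_apply i)
  · have h1 : ∀ i, ∃ d : D, w.symm (y i) ∈ Metric.closedBall (d : X) η := by
      intro i
      have h2 : w.symm (y i) ∈ closure (Submodule.span ℝ A : Set X) := by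
        have h3 : IsClosed {y : WeakSpace ℝ X | (toWeakSpace ℝ X).symm y ∈
            closure (Submodule.span ℝ A : Set X)} :=
          wclosed (Submodule.span ℝ A).convex.closure isClosed_closure
        have h4 : Oi i ⊆ {y : WeakSpace ℝ X | (toWeakSpace ℝ X).symm y ∈
            closure (Submodule.span ℝ A : Set X)} := by
          rintro _ ⟨g, rfl⟩
          have h5 : g.1.val i ∈ closure (Submodule.span ℝ A : Set X) :=
            subset_closure (Submodule.subset_span ⟨(g, i), rfl⟩)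
          exact h5
        have h6 := closure_minimal h4 h3
        exact h6 (hKO hy i trivial)
      obtain ⟨d, hd1, hd2⟩ := Metric.mem_closure_iff.1 (hD h2) η hη0
      exact ⟨⟨d, hd1⟩, hd2.le⟩
    choose d hd using h1
    exact ⟨d, hd⟩
  · obtain ⟨t, ht⟩ := hfr g.1 (hHG g.2)
    have h3 := wcont (g.1.val - ContinuousLinearMap.id ℝ X) t ht
    have h4 : IsOpen {z : s → WeakSpace ℝ X | ∀ i,
        ‖(g.1.val - ContinuousLinearMap.id ℝ X) (w.symm (z i))‖ < 3 * η} := by
      rw [ofPred_forall]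
      exact isOpen_iInter_of_finite fun i =>
        isOpen_lt (h3.comp (continuous_apply i)).norm continuous_const
    obtain ⟨_, h5, h, rfl⟩ := mem_closure_iff.1 hy _ h4 fun i => by
      have a1 := Metric.mem_closedBall.1 (h1 i)
      have a2 := Metric.mem_closedBall.1 (h2 i)
      have a3 := dist_triangle_right (w.symm (act g y i)) (w.symm (y i)) (d i)
      rw [dist_eq_norm] at a3
      exact lt_of_le_of_lt a3 (by linarith)
    have h6 := hs (h⁻¹ * g * h : H).1 (hHG (h⁻¹ * g * h).2) fun x hx => by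
      have a1 : ‖g.1.val (h.1.val x) - h.1.val x‖ < 3 * η := h5 ⟨x, hx⟩
      have a2 : (h⁻¹ * g * h : H).1.val x - (1 : (X →L[ℝ] X)ˣ).val x =
          (h⁻¹ : H).1.val (g.1.val (h.1.val x) - h.1.val x) := by
        rw [map_sub]
        congr 1
        exact (congrArg (fun u : H => u.1.val x) (inv_mul_cancel h)).symm
      rw [a2]
      refine lt_of_le_of_lt ((h⁻¹ : H).1.val.le_of_opNorm_le (hC _ (hHG (h⁻¹).2)) _) ?_
      calc C * _ ≤ C * (3 * η) := mul_le_mul_of_nonneg_left a1.le hC0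
        _ < (C + 1) * (3 * η) := by nlinarith
        _ = ε := by rw [hη]; field_simp
    have h7 : h⁻¹ * g * h = 1 := Subtype.ext h6
    rwa [mul_assoc, inv_mul_eq_one, right_eq_mul] at h7

end Pool.Agent.S05214
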