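import Pool.Statements.S05247
import Pool.Agent.H31.Mono

set_option autoImplicit false
open Classical
open Pool Pool.MP_832ffe_an
open Pool.Agent.H31

namespace Pool.Agent.S05247

/-- There exist uniformly locally finite metric spaces X, Y with an injective, compact-preserving ⋆-homomorphism from the uniform Roe algebra of X into that of Y, but no bornologous map X→Y whose fibres are uniformly bounded in size. -/
theorem result :
  ∃ (X Y : Type) (_ : MetricSpace X) (_ : MetricSpace Y),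
    (∀ r : ℝ, ∃ N : ℕ, ∀ x : X,
        (Metric.closedBall x r).Finite ∧ (Metric.closedBall x r).ncard ≤ N) ∧
    (∀ r : ℝ, ∃ N : ℕ, ∀ y : Y,
        (Metric.closedBall y r).Finite ∧ (Metric.closedBall y r).ncard ≤ N) ∧
    (∃ Φ : (lp (fun _ : X => ℂ) 2 →L[ℂ] lp (fun _ : X => ℂ) 2) →
        (lp (fun _ : Y => ℂ) 2 →L[ℂ] lp (fun _ : Y => ℂ) 2),
      (∀ a ∈ closure {T : lp (fun _ : X => ℂ) 2 →L[ℂ] lp (fun _ : X => ℂ) 2 |
              ∃ r : ℝ, ∀ x x' : X, r < dist x x' → (T (lp.single 2 x (1 : ℂ))) x' = 0},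
        ∀ b ∈ closure {T : lp (fun _ : X => ℂ) 2 →L[ℂ] lp (fun _ : X => ℂ) 2 |
              ∃ r : ℝ, ∀ x x' : X, r < dist x x' → (T (lp.single 2 x (1 : ℂ))) x' = 0},
        ∀ c : ℂ,
          Φ (a + b) = Φ a + Φ b ∧ Φ (c • a) = c • Φ a ∧
          Φ (a * b) = Φ a * Φ b ∧ Φ (star a) = star (Φ a)) ∧
      Set.InjOn Φ (closure {T : lp (fun _ : X => ℂ) 2 →L[ℂ] lp (fun _ : X => ℂ) 2 |
              ∃ r : ℝ, ∀ x x' : X, r < dist x x' → (T (lp.single 2 x (1 : ℂ))) x' = 0}) ∧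
      (∀ a ∈ closure {T : lp (fun _ : X => ℂ) 2 →L[ℂ] lp (fun _ : X => ℂ) 2 |
              ∃ r : ℝ, ∀ x x' : X, r < dist x x' → (T (lp.single 2 x (1 : ℂ))) x' = 0},
        Φ a ∈ closure {S : lp (fun _ : Y => ℂ) 2 →L[ℂ] lp (fun _ : Y => ℂ) 2 |
              ∃ r : ℝ, ∀ y y' : Y, r < dist y y' → (S (lp.single 2 y (1 : ℂ))) y' = 0}) ∧
      (∀ a ∈ closure {T : lp (fun _ : X => ℂ) 2 →L[ℂ] lp (fun _ : X => ℂ) 2 |
              ∃ r : ℝ, ∀ x x' : X, r < dist x x' → (T (lp.single 2 x (1 : ℂ))) x' = 0},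
        IsCompactOperator a → IsCompactOperator (Φ a))) ∧
    ¬ ∃ f : X → Y,
        (∀ r : ℝ, ∃ s : ℝ, ∀ x x' : X, dist x x' ≤ r → dist (f x) (f x') ≤ s) ∧
        (∃ N : ℕ, ∀ y : Y, (f ⁻¹' {y}).Finite ∧ (f ⁻¹' {y}).ncard ≤ N) := by
  obtain ⟨Φ, h1, h2, h3, h4⟩ := Schur.exists_phi Mono.dX Mono.dY Mono.θ Mono.θ_norm Mono.θ_f
    Mono.dX_comm Mono.ulfP Mono.slow
  have cv : ∀ {α : Type} {s : Set α} {N : ℕ}, s.encard ≤ N → s.Finite ∧ s.ncard ≤ N := by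
    intro α s N h
    have hf := Set.finite_of_encard_le_coe h
    refine ⟨hf, ?_⟩
    rw [← hf.cast_ncard_eq] at h
    exact_mod_cast h
  refine ⟨Mono.XX, Mono.XX × Bool, Mono.mX, Mono.mY, fun r => ?_, fun r => ?_,
    ⟨Φ, fun a _ b _ c => ⟨map_add Φ a b, map_smul Φ c a, map_mul Φ a b, map_star Φ a⟩,
      h1.injOn, fun a ha => ?_, fun a _ => h3 a⟩, ?_⟩
  · obtain ⟨N, hN⟩ := Mono.ulfX r
    exact ⟨N, fun x => cv (hN x)⟩
  · obtain ⟨N, hN⟩ := Mono.ulfY r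
    exact ⟨N, fun x => cv (hN x)⟩
  · exact closure_minimal (s := {T | Schur.FP Mono.dX T})
      (t := Φ ⁻¹' closure {b | Schur.FP Mono.dY b}) h4 (isClosed_closure.preimage h2) ha
  · rintro ⟨f, hf, N, hN⟩
    obtain ⟨s, hs⟩ := hf 1
    obtain ⟨k, hk⟩ := exists_nat_ge s
    refine Mono.noreg f k (fun x x' h => (hs x x' h).trans hk) N fun y => ?_
    rw [← (hN y).1.cast_ncard_eq]
    exact_mod_cast (hN y).2

end Pool.Agent.S05247
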