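import Pool.Statements.S05295
import Pool.Agent.H19.OsB

set_option autoImplicit false
open Pool Pool.MP_88e1ca_an

namespace Pool.Agent.S05295

/-- There is a one-sided subshift over a finite alphabet and an automorphism (shift-commuting bijective block map) whose iterates fⁿ have radii that are unbounded yet eventually at most εn for every ε>0. -/
theorem result :
    ∃ (k : ℕ) (X : Set (ℕ → Fin k)) (f : (ℕ → Fin k) → (ℕ → Fin k)),
      (∀ x : ℕ → Fin k, (∀ m : ℕ, ∃ y ∈ X, ∀ i < m, y i = x i) → x ∈ X) ∧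
      (∀ x ∈ X, (fun i => x (i + 1)) ∈ X) ∧
      Set.MapsTo f X X ∧ Set.InjOn f X ∧ Set.SurjOn f X X ∧
      (∀ x ∈ X, f (fun i => x (i + 1)) = fun i => f x (i + 1)) ∧
      (∃ r : ℕ, ∀ x ∈ X, ∀ y ∈ X, (∀ i ≤ r, x i = y i) → f x 0 = f y 0) ∧
      (∀ R : ℕ, ∃ n : ℕ, ∃ x ∈ X, ∃ y ∈ X,
        (∀ i ≤ R, x i = y i) ∧ f^[n] x 0 ≠ f^[n] y 0) ∧
      (∀ ε : ℝ, 0 < ε → ∃ N : ℕ, ∀ n ≥ N, ∃ r : ℕ, (r : ℝ) ≤ ε * n ∧
        ∀ x ∈ X, ∀ y ∈ X, (∀ i ≤ r, x i = y i) → f^[n] x 0 = f^[n] y 0) := by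
  let e := Fintype.equivFin H19.Os.A
  let F : (ℕ → Fin (Fintype.card H19.Os.A)) → (ℕ → Fin (Fintype.card H19.Os.A)) :=
    fun x i => e (H19.Os.f (fun i => e.symm (x i)) i)
  have hF : ∀ x, (fun i => e.symm (F x i)) = H19.Os.f fun i => e.symm (x i) := by
    intro x
    funext i
    exact e.symm_apply_apply _
  have hn : ∀ (n : ℕ) x, (fun i => e.symm (F^[n] x i)) = H19.Os.f^[n] fun i => e.symm (x i) := by
    intro n
    induction n with
    | zero => exact fun x => rfl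
    | succ n ih =>
      intro x
      rw [Function.iterate_succ_apply, Function.iterate_succ_apply, ih, hF]
  have hb : ∀ y : ℕ → H19.Os.A, (fun i => e.symm (e (y i))) = y := fun y =>
    funext fun i => e.symm_apply_apply _
  refine ⟨Fintype.card H19.Os.A, {x | (fun i => e.symm (x i)) ∈ H19.Os.X}, F, ?_, ?_, ?_, ?_, ?_,
    ?_, ?_, ?_, ?_⟩
  · intro x h
    refine H19.Os.X_lim fun m => ?_
    obtain ⟨y, hy, h⟩ := h m
    exact ⟨_, hy, fun i hi => by rw [h i hi]⟩
  · exact fun x hx => H19.Os.X_sh hx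
  · intro x hx
    show (fun i => e.symm (F x i)) ∈ H19.Os.X
    rw [hF]
    exact H19.Os.X_f hx
  · intro x hx y hy h
    have h1 := hF x
    rw [h, hF] at h1
    have h2 := H19.Os.f_inj (H19.Os.X_Om hy) (H19.Os.X_Om hx) h1
    funext i
    exact e.symm.injective (congrFun h2 i).symm
  · intro x hx
    refine ⟨fun i => e (H19.Os.g (fun i => e.symm (x i)) i), ?_, ?_⟩
    · show (fun i => e.symm (e (H19.Os.g (fun i => e.symm (x i)) i))) ∈ H19.Os.X
      rw [hb]
      exact H19.Os.X_g hx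
    · funext i
      show e (H19.Os.f (fun i => e.symm (e (H19.Os.g (fun i => e.symm (x i)) i))) i) = x i
      rw [hb, H19.Os.f_g (H19.Os.X_Om hx)]
      exact e.apply_symm_apply _
  · exact fun x _ => rfl
  · refine ⟨1, fun x _ y _ h => ?_⟩
    show e (H19.Os.phi (e.symm (x 0)) (e.symm (x 1))) = e (H19.Os.phi (e.symm (y 0)) (e.symm (y 1)))
    rw [h 0 (by norm_num), h 1 le_rfl]
  · intro R
    obtain ⟨n, x, hx, y, hy, h, hne⟩ := H19.Os.unb R
    refine ⟨n, fun i => e (x i), ?_, fun i => e (y i), ?_, fun i hi => congrArg e (h i hi),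
      fun he => hne ?_⟩
    · show (fun i => e.symm (e (x i))) ∈ H19.Os.X
      rw [hb]
      exact hx
    · show (fun i => e.symm (e (y i))) ∈ H19.Os.X
      rw [hb]
      exact hy
    · have h1 := congrFun (hn n fun i => e (x i)) 0
      have h2 := congrFun (hn n fun i => e (y i)) 0
      rw [hb] at h1 h2
      rw [← h1, ← h2, he]
  · intro ε hε
    obtain ⟨N, hN⟩ := H19.Os.sublin ε hε
    refine ⟨N, fun n hn' => ?_⟩
    obtain ⟨r, hr, h⟩ := hN n hn'
    refine ⟨r, hr, fun x hx y hy hxy => e.symm.injective ?_⟩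
    have h1 := congrFun (hn n x) 0
    have h2 := congrFun (hn n y) 0
    rw [h1, h2]
    exact h _ hx _ hy fun i hi => congrArg e.symm (hxy i hi)

end Pool.Agent.S05295
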