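import Pool.Statements.S05316
import Pool.Agent.H21.Zw2

set_option autoImplicit false
open Pool Pool.MP_8a8b2f_an

namespace Pool.Agent.S05316

open Pool.Agent.H21.Zw

/-- The negation of the preceding statement: Take a strongly continuous contraction semigroup on a complex Hilbert space with generator A, and some m>0 with ‖(μ−A)x‖ ≥ m∣Re μ∣‖x‖ for all x in D(A) and Re μ<0. Then some m₁>0 gives ‖T(t)x‖ ≥ m₁‖x‖ for all t≥0 and all x. -/
theorem result :
    ¬ (∀ (H : Type) [NormedAddCommGroup H] [InnerProductSpace ℂ H] [CompleteSpace H]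
      (T : ℝ → H →L[ℂ] H),
      T 0 = ContinuousLinearMap.id ℂ H →
      (∀ s t : ℝ, 0 ≤ s → 0 ≤ t → T (s + t) = (T s).comp (T t)) →
      (∀ x : H, ContinuousOn (fun t : ℝ => T t x) (Set.Ici 0)) →
      (∀ t : ℝ, 0 ≤ t → ‖T t‖ ≤ 1) →
      ∀ m : ℝ, 0 < m →
      (∀ x y : H,
        Filter.Tendsto (fun h : ℝ => ((h : ℂ)⁻¹) • (T h x - x))
          (nhdsWithin 0 (Set.Ioi 0)) (nhds y) →
        ∀ μ : ℂ, μ.re < 0 → m * |μ.re| * ‖x‖ ≤ ‖μ • x - y‖) →
      ∃ m₁ : ℝ, 0 < m₁ ∧ ∀ t : ℝ, 0 ≤ t → ∀ x : H, m₁ * ‖x‖ ≤ ‖T t x‖) := by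
  intro h
  have h0 : T 0 = ContinuousLinearMap.id ℂ W := by
    ext1 g; exact Subtype.ext (S_zero g)
  have hs : ∀ s t : ℝ, 0 ≤ s → 0 ≤ t → T (s + t) = (T s).comp (T t) := by
    intro s t hs ht
    ext1 g; exact Subtype.ext (S_add hs ht g)
  have hc : ∀ x : W, ContinuousOn (fun t : ℝ => T t x) (Set.Ici 0) := by
    intro x
    exact (Continuous.subtype_mk (S_cont x) _).continuousOn
  have hn : ∀ t : ℝ, 0 ≤ t → ‖T t‖ ≤ 1 := by
    intro t _
    apply ContinuousLinearMap.opNorm_le_bound _ zero_le_one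
    intro g
    rw [one_mul]
    exact S_norm t g
  have hE : 0 < Real.exp 3 + 4 := by positivity
  obtain ⟨m, hm, hb⟩ := h W T h0 hs hc hn (1 / (3 * (Real.exp 3 + 4))) (by positivity) (by
    intro x y hxy μ hμ
    have ha : 0 < -μ.re := by linarith
    have ht : 0 ≤ 3 / (-μ.re) := by positivity
    have h1 := orbit_bound T h0 hs hc hn x y hxy μ hμ _ ht
    have hz : ‖Complex.exp (μ * ((3 / (-μ.re) : ℝ) : ℂ))‖ = Real.exp (-3) := by
      rw [Complex.norm_exp]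
      congr 1
      simp only [Complex.mul_re, Complex.ofReal_re, Complex.ofReal_im, mul_zero, sub_zero]
      field_simp [hμ.ne]
    have h4 : Real.exp (-3) ≤ 1 / 4 := by
      rw [Real.exp_neg, ← one_div]
      apply one_div_le_one_div_of_le (by norm_num)
      have := Real.add_one_le_exp 3
      linarith
    have h2 := lower ht x.2 _ (Complex.exp_ne_zero (μ * ((3 / (-μ.re) : ℝ) : ℂ))) (hz ▸ h4)
    rw [hz, ← Real.exp_neg, neg_neg] at h2
    have h3 : ‖x‖ ≤ (Real.exp 3 + 4) * (3 / (-μ.re) * ‖μ • x - y‖) :=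
      h2.trans (mul_le_mul_of_nonneg_left h1 hE.le)
    rw [abs_of_neg hμ]
    calc 1 / (3 * (Real.exp 3 + 4)) * -μ.re * ‖x‖
        ≤ 1 / (3 * (Real.exp 3 + 4)) * -μ.re *
          ((Real.exp 3 + 4) * (3 / (-μ.re) * ‖μ • x - y‖)) :=
          mul_le_mul_of_nonneg_left h3 (by positivity)
      _ = ‖μ • x - y‖ := by field_simp [hμ.ne])
  have ht : 0 ≤ 2 / m := by positivity
  have h1 := hb (2 / m) ht ⟨g0, g0_mem⟩
  have h2 : m * ‖g0‖ ≤ ‖S (2 / m) g0‖ := h1
  have h3 := g0_decay ht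
  rw [g0_norm, mul_one] at h2
  have h4 := h2.trans h3
  rw [le_div_iff₀ (by positivity), mul_add, mul_div_cancel₀ _ hm.ne'] at h4
  linarith

end Pool.Agent.S05316
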