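import Pool.Statements.S05322
import Pool.Agent.H32.UncB

set_option autoImplicit false
open Pool Pool.MP_8b3f09_an

namespace Pool.Agent.S05322

/-- The negation of the preceding statement: There is a real Banach space with an unconditional basis such that no point x of its closed unit ball has a sequence of slices of the ball with x in the closed convex hull of every selection of points from those slices. -/
theorem result :
    ¬ (∃ (X : Type) (_ : NormedAddCommGroup X) (_ : NormedSpace ℝ X) (_ : CompleteSpace X)
      (e : ℕ → X),
      (∀ x : X, ∃! a : ℕ → ℝ, HasSum (fun n => a n • e n) x) ∧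
      ∀ x ∈ Metric.closedBall (0 : X) 1,
        ¬ ∃ (f : ℕ → (X →L[ℝ] ℝ)) (α : ℕ → ℝ),
            (∀ n, f n ≠ 0 ∧ 0 < α n) ∧
            ∀ y : ℕ → X,
              (∀ n, y n ∈ Metric.closedBall (0 : X) 1 ∧ ‖f n‖ - α n < f n (y n)) →
              x ∈ closure (convexHull ℝ (Set.range y))) := by
  rintro ⟨X, _, _, _, e, he, h⟩
  exact h 0 (Metric.mem_closedBall_self zero_le_one) (Pool.Agent.H32.UncB.zero_scd e he)

end Pool.Agent.S05322
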