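import Pool.Statements.S05328
import Pool.Agent.H15.DiffEq

set_option autoImplicit false
open Filter Topology
open Pool Pool.MP_8ba4a6_an

namespace Pool.Agent.S05328

theorem result :
    ¬ (∀ (f : ℝ → ℝ → ℝ) (xbar : ℝ),
      ContinuousOn (fun p : ℝ × ℝ => f p.1 p.2) (Set.Ioi (0:ℝ) ×ˢ Set.Ioi (0:ℝ)) →
      (∀ x y : ℝ, 0 < x → 0 < y → 0 < f x y) →
      (∀ x₁ x₂ y : ℝ, 0 < x₁ → x₁ ≤ x₂ → 0 < y → f x₂ y ≤ f x₁ y) →
      (∀ x y₁ y₂ : ℝ, 0 < x → 0 < y₁ → y₁ < y₂ → f x y₂ < f x y₁) →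
      (∀ x₁ x₂ : ℝ, 0 < x₁ → x₁ < x₂ → x₂ * f x₂ x₂ < x₁ * f x₁ x₁) →
      0 < xbar →
      f xbar xbar = 1 →
      (∀ y : ℝ, 0 < y → f y y = 1 → y = xbar) →
      (∀ ε : ℝ, 0 < ε → ∃ δ : ℝ, 0 < δ ∧
        ∀ x : ℕ → ℝ, 0 < x 0 → 0 < x 1 →
          (∀ n : ℕ, x (n + 2) = x (n + 1) * f (x (n + 1)) (x n)) →
          |x 0 - xbar| + |x 1 - xbar| < δ →
          ∀ n : ℕ, |x n - xbar| < ε) →
      (∃ γ : ℝ, 0 < γ ∧
        ∀ x : ℕ → ℝ, 0 < x 0 → 0 < x 1 →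
          (∀ n : ℕ, x (n + 2) = x (n + 1) * f (x (n + 1)) (x n)) →
          |x 0 - xbar| + |x 1 - xbar| < γ →
          Tendsto x atTop (𝓝 xbar)) →
      ∀ x : ℕ → ℝ, 0 < x 0 → 0 < x 1 →
        (∀ n : ℕ, x (n + 2) = x (n + 1) * f (x (n + 1)) (x n)) →
        Tendsto x atTop (𝓝 xbar)) := by
  intro H
  refine Pool.Agent.H15.DiffEq.not_tends (H (fun x y => Pool.Agent.H15.DiffEq.h y / x) 1
    ?_ ?_ ?_ ?_ ?_ one_pos ?_ ?_ ?_ ?_ Pool.Agent.H15.DiffEq.sol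
    (Pool.Agent.H15.DiffEq.sol_pos 0) (Pool.Agent.H15.DiffEq.sol_pos 1) ?_)
  · refine ContinuousOn.div (Pool.Agent.H15.DiffEq.h_cont.comp continuousOn_snd fun p hp => hp.2)
      continuousOn_fst fun p hp => ne_of_gt hp.1
  · intro x y hx hy
    exact div_pos (Pool.Agent.H15.DiffEq.h_pos y hy) hx
  · intro a b y ha hab hy
    exact div_le_div_of_nonneg_left (Pool.Agent.H15.DiffEq.h_pos y hy).le ha hab
  · intro x a b hx ha hab
    exact div_lt_div_of_pos_right (Pool.Agent.H15.DiffEq.h_anti a b ha hab) hx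
  · intro a b ha hab
    rw [mul_div_cancel₀ _ ha.ne', mul_div_cancel₀ _ (ha.trans hab).ne']
    exact Pool.Agent.H15.DiffEq.h_anti a b ha hab
  · simp [Pool.Agent.H15.DiffEq.h_one]
  · intro y hy e
    rw [div_eq_one_iff_eq hy.ne'] at e
    rcases lt_trichotomy y 1 with c | c | c
    · have := Pool.Agent.H15.DiffEq.h_anti y 1 hy c
      rw [Pool.Agent.H15.DiffEq.h_one] at this; linarith
    · exact c
    · have := Pool.Agent.H15.DiffEq.h_anti 1 y one_pos c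
      rw [Pool.Agent.H15.DiffEq.h_one] at this; linarith
  · intro e he
    refine ⟨min (e / 2) (3 / 20), lt_min (by linarith) (by norm_num), fun x h0 h1 hr hx n => ?_⟩
    have hb := (Pool.Agent.H15.DiffEq.bound x h0 h1 hr _ (min_le_right _ _) hx.le n).1
    have p1 : (3 / 4 : ℝ) ^ n ≤ 1 := pow_le_one₀ (by norm_num) (by norm_num)
    have p2 : min (e / 2) (3 / 20) ≤ e / 2 := min_le_left _ _
    have p3 : 0 < min (e / 2) (3 / 20) := lt_min (by linarith) (by norm_num)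
    nlinarith
  · refine ⟨3 / 20, by norm_num, fun x h0 h1 hr hx => ?_⟩
    have hb := fun n => (Pool.Agent.H15.DiffEq.bound x h0 h1 hr _ le_rfl hx.le n).1
    rw [tendsto_iff_norm_sub_tendsto_zero]
    refine squeeze_zero (fun n => norm_nonneg _) hb ?_
    have := (tendsto_pow_atTop_nhds_zero_of_lt_one (r := (3 / 4 : ℝ)) (by norm_num)
      (by norm_num)).const_mul (4 / 3 * (3 / 20))
    simpa using this
  · intro n
    rw [mul_div_cancel₀ _ (Pool.Agent.H15.DiffEq.sol_pos _).ne', Pool.Agent.H15.DiffEq.sol_rec]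

end Pool.Agent.S05328
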