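import Pool.Statements.S05340
import Pool.Agent.H10.Strong

set_option autoImplicit false
open Pool Pool.MP_8cad90_an

namespace Pool.Agent.S05340

/-- The negation of the preceding statement: Every infinite-dimensional real or complex Banach space E has a subspace G of dimension at least 2 and a nonzero x in E with ‖g + αx‖ ≥ ‖g‖ for all g in G and all scalars α. -/
theorem result :
    ¬ (∀ (𝕜 : Type) [RCLike 𝕜] (E : Type) [NormedAddCommGroup E] [NormedSpace 𝕜 E]
      [CompleteSpace E], ¬ FiniteDimensional 𝕜 E →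
      ∃ G : Submodule 𝕜 E, 2 ≤ Module.rank 𝕜 G ∧
        ∃ x : E, x ≠ 0 ∧ ∀ g ∈ G, ∀ α : 𝕜, ‖g‖ ≤ ‖g + α • x‖) := by
  intro h
  exact Pool.Agent.H10.Strong.main (h ℝ Pool.Agent.H10.Strong.E Pool.Agent.H10.Strong.not_fd)

end Pool.Agent.S05340
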