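import Pool.Statements.S05355
import Pool.Agent.H8.UZ2

set_option autoImplicit false
open Pool Pool.MP_8d66ab_an

namespace Pool.Agent.S05355


/-- For every everywhere-differentiable g from the reals to the reals there is a twice everywhere-differentiable f such that the set of points where f equals g is uncountable. -/
theorem result :
    ∀ g : ℝ → ℝ, Differentiable ℝ g →
      ∃ f : ℝ → ℝ, Differentiable ℝ f ∧ Differentiable ℝ (deriv f) ∧
        ¬ Set.Countable {x : ℝ | f x = g x} := by
  exact Pool.Agent.H8.UZ.final

end Pool.Agent.S05355
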