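import Pool.Statements.S05388
import Pool.Agent.H9.Hyper

set_option autoImplicit false
open Pool Pool.MP_90e313_an

namespace Pool.Agent.S05388

/-- The negation of the preceding statement: Every real or complex Banach space with a Schauder basis has a Schauder basis whose basis constant equals the infimum of the basis constants over all its Schauder bases. -/
theorem result :
    ¬ (∀ (𝕜 : Type) [RCLike 𝕜] (E : Type) [NormedAddCommGroup E] [NormedSpace 𝕜 E] [CompleteSpace E],
      (∃ e : ℕ → E, ∀ x : E, ∃! a : ℕ → 𝕜,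
          Filter.Tendsto (fun n : ℕ => ∑ i ∈ Finset.range n, a i • e i) Filter.atTop (nhds x)) →
      ∃ e : ℕ → E,
        (∀ x : E, ∃! a : ℕ → 𝕜,
          Filter.Tendsto (fun n : ℕ => ∑ i ∈ Finset.range n, a i • e i) Filter.atTop (nhds x)) ∧
        ∀ (a : ℕ → 𝕜) (m n : ℕ), m ≤ n →
          ‖∑ i ∈ Finset.range m, a i • e i‖ ≤
            sInf {K : ℝ | ∃ f : ℕ → E,
                (∀ x : E, ∃! b : ℕ → 𝕜,
                  Filter.Tendsto (fun k : ℕ => ∑ i ∈ Finset.range k, b i • f i) Filter.atTop (nhds x)) ∧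
                ∀ (b : ℕ → 𝕜) (p q : ℕ), p ≤ q →
                  ‖∑ i ∈ Finset.range p, b i • f i‖ ≤ K * ‖∑ i ∈ Finset.range q, b i • f i‖} *
              ‖∑ i ∈ Finset.range n, a i • e i‖) := by
  intro h
  obtain ⟨e, h1, h2⟩ := h ℝ H9.Hyper.H ⟨_, H9.Hyper.basis 0⟩
  generalize hK : (sInf _ : ℝ) = K at h2
  have h3 : K ≤ 1 := by
    rw [← hK]
    refine (em _).elim (fun hb => ge_of_tendsto' (x := Filter.atTop) (f := fun n => 1 + 3 * H9.Hyper.w n)
      (by simpa using (H9.Hyper.w_zero.const_mul 3).const_add 1) fun n => csInf_le hb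
        ⟨_, H9.Hyper.basis n, H9.Hyper.mono n⟩) fun hb => ?_
    rw [Real.sInf_of_not_bddBelow hb]
    exact zero_le_one
  choose a h4 h5 using h1
  have h6 : ∀ x y, a (x + y) = a x + a y := fun x y => (h5 _ _ (by
    simpa only [Pi.add_apply, add_smul, Finset.sum_add_distrib] using (h4 x).add (h4 y))).symm
  have h7 : ∀ (c : ℝ) x, a (c • x) = c • a x := fun c x => (h5 _ _ (by
    simpa only [Pi.smul_apply, smul_assoc, Finset.smul_sum] using (h4 x).const_smul c)).symm
  obtain ⟨m, h8, h9⟩ := ((Metric.tendsto_nhds.1 (h4 H9.Hyper.x0) (1 / 40) (by norm_num)).and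
    (Metric.tendsto_nhds.1 (h4 H9.Hyper.x1) (1 / 40) (by norm_num))).exists
  let u : H9.Hyper.H →ₗ[ℝ] H9.Hyper.H :=
    { toFun := fun x => ∑ i ∈ Finset.range m, a x i • e i
      map_add' := fun x y => by simp only [h6, Pi.add_apply, add_smul, Finset.sum_add_distrib]
      map_smul' := fun c x => by
        simp only [h7, Pi.smul_apply, smul_assoc, Finset.smul_sum, RingHom.id_apply] }
  have : FiniteDimensional ℝ (Submodule.span ℝ (e '' Finset.range m)) :=
    FiniteDimensional.span_of_finite _ ((Finset.finite_toSet _).image _)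
  have : FiniteDimensional ℝ u.range := Submodule.finiteDimensional_of_le
    (S₂ := Submodule.span ℝ (e '' Finset.range m)) (by
      rintro _ ⟨x, rfl⟩
      exact Submodule.sum_mem _ fun i hi => Submodule.smul_mem _ _ 
        (Submodule.subset_span (Set.mem_image_of_mem _ hi)))
  refine H9.Hyper.no_proj u (fun x => ?_) (fun x => ?_) ((dist_eq_norm _ _).symm.trans_le h8.le)
    ((dist_eq_norm _ _).symm.trans_le h9.le)
  · have := h5 (u x) (fun i => if i < m then a x i else 0) (tendsto_const_nhds.congr'
      ((Filter.eventually_ge_atTop m).mono fun n hn => by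
        refine ((Finset.sum_subset (Finset.range_mono hn) fun i _ hi => ?_).symm.trans
          (Finset.sum_congr rfl fun i hi => ?_)).symm
        · simp only [if_neg (Finset.mem_range.not.1 hi), zero_smul]
        · simp only [if_pos (Finset.mem_range.1 hi)]))
    show ∑ i ∈ Finset.range m, a (u x) i • e i = ∑ i ∈ Finset.range m, a x i • e i
    refine Finset.sum_congr rfl fun i hi => ?_
    rw [← this]
    exact congrArg (· • e i) (if_pos (by simpa using hi))
  · exact ge_of_tendsto (h4 x).norm ((Filter.eventually_ge_atTop m).mono fun n hn =>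
      (h2 _ m n hn).trans (mul_le_of_le_one_left (norm_nonneg _) h3))

end Pool.Agent.S05388
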