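import Pool.Statements.S05460
import Pool.Agent.H32.Lamp

set_option autoImplicit false
open Pool Pool.MP_95bae3_an

namespace Pool.Agent.S05460

theorem aux {G : Type} [Group G] {X : Type} [NormedAddCommGroup X] [NormedSpace ℝ X]
    (ρ : G →* (X ≃ₗᵢ[ℝ] X)) (x : X) (g k : G) (k1 : ρ k x = (1 / 2 : ℝ) • (x + ρ g x))
    (k2 : x ≠ ρ g x) : ¬ ∃ N : X → ℝ,
        (∀ x y : X, N (x + y) ≤ N x + N y) ∧
        (∀ (c : ℝ) (x : X), N (c • x) = |c| * N x) ∧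
        (∃ a b : ℝ, 0 < a ∧ 0 < b ∧ ∀ x : X, a * ‖x‖ ≤ N x ∧ N x ≤ b * ‖x‖) ∧
        (∀ (g : G) (x : X), N (ρ g x) = N x) ∧
        (∀ x y : X, N x = 1 → N y = 1 → x ≠ y → N ((1 / 2 : ℝ) • (x + y)) < 1) := by
  rintro ⟨N, -, h2, ⟨a, b, ha, -, h3⟩, h4, h5⟩
  set y := ρ g x with hy
  have hx0 : x ≠ 0 := by
    intro h0
    apply k2
    rw [hy, h0, map_zero]
  have hpos : 0 < N x := lt_of_lt_of_le (mul_pos ha (norm_pos_iff.mpr hx0)) (h3 x).1
  have hc : |(N x)⁻¹| = (N x)⁻¹ := abs_of_pos (inv_pos.mpr hpos)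
  have e1 : N ((N x)⁻¹ • x) = 1 := by rw [h2, hc, inv_mul_cancel₀ hpos.ne']
  have e2 : N ((N x)⁻¹ • y) = 1 := by rw [h2, hc, hy, h4, inv_mul_cancel₀ hpos.ne']
  have e3 : (N x)⁻¹ • x ≠ (N x)⁻¹ • y := by
    intro h0
    exact k2 (smul_right_injective _ (inv_pos.mpr hpos).ne' h0)
  have e4 := h5 _ _ e1 e2 e3
  rw [← smul_add, smul_comm, ← k1, h2, hc, h4, inv_mul_cancel₀ hpos.ne'] at e4
  exact lt_irrefl _ e4

/-- The negation of the preceding statement: Every countable group satisfying the Følner condition, acting by linear isometries on a separable real Banach space, admits an equivalent norm that is invariant under the action and strictly convex. -/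
theorem result :
    ¬ (∀ (G : Type) [Group G] [Countable G],
      (∀ (F : Finset G) (ε : ℝ), 0 < ε → ∃ A : Set G, A.Finite ∧ A.Nonempty ∧
          ∀ g ∈ F, ((symmDiff ((fun x => g * x) '' A) A).ncard : ℝ) < ε * (A.ncard : ℝ)) →
      ∀ (X : Type) [NormedAddCommGroup X] [NormedSpace ℝ X] [CompleteSpace X]
        [TopologicalSpace.SeparableSpace X] (ρ : G →* (X ≃ₗᵢ[ℝ] X)),
      ∃ N : X → ℝ,
        (∀ x y : X, N (x + y) ≤ N x + N y) ∧
        (∀ (c : ℝ) (x : X), N (c • x) = |c| * N x) ∧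
        (∃ a b : ℝ, 0 < a ∧ 0 < b ∧ ∀ x : X, a * ‖x‖ ≤ N x ∧ N x ≤ b * ‖x‖) ∧
        (∀ (g : G) (x : X), N (ρ g x) = N x) ∧
        (∀ x y : X, N x = 1 → N y = 1 → x ≠ y → N ((1 / 2 : ℝ) • (x + y)) < 1)) := by
  intro h
  exact aux _ _ _ _ Pool.Agent.H32.Lamp.key1 Pool.Agent.H32.Lamp.key2
    (h Pool.Agent.H32.Lamp.G Pool.Agent.H32.Lamp.folner Pool.Agent.H32.Lamp.X
      Pool.Agent.H32.Lamp.rho)

end Pool.Agent.S05460
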