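import Pool.Statements.S05488
import Pool.Agent.H29.QIdeal2

set_option autoImplicit false
open Pool Pool.MP_97b573_an

namespace Pool.Agent.S05488

open Pool.Agent.H29.QIdeal in
theorem result :
    ¬ (∀ ω : ℚ → ℝ,
    (∀ q : ℚ, 0 ≤ q → 0 < ω q) →
    (∀ s t : ℚ, 0 ≤ s → 0 ≤ t → ω (s + t) ≤ ω s * ω t) →
    (∀ t : ℚ, 0 < t →
      Filter.Tendsto (fun n : ℕ => ω ((n : ℚ) * t) ^ ((1 : ℝ) / (n : ℝ)))
        Filter.atTop (nhds 0)) →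
    ∀ I : Set (ℚ → ℂ),
      (∀ f ∈ I, (∀ q : ℚ, q < 0 → f q = 0) ∧ Summable (fun q : ℚ => ‖f q‖ * ω q)) →
      (0 : ℚ → ℂ) ∈ I →
      (∀ f ∈ I, ∀ g ∈ I, f + g ∈ I) →
      (∀ c : ℂ, ∀ f ∈ I, c • f ∈ I) →
      (∀ a : ℚ → ℂ, (∀ q : ℚ, q < 0 → a q = 0) →
         Summable (fun q : ℚ => ‖a q‖ * ω q) →
         ∀ f ∈ I, (fun t : ℚ => ∑' s : ℚ, a s * f (t - s)) ∈ I) →
      (∀ f : ℚ → ℂ, (∀ q : ℚ, q < 0 → f q = 0) →
         Summable (fun q : ℚ => ‖f q‖ * ω q) →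
         (∀ ε : ℝ, 0 < ε → ∃ g ∈ I, ∑' q : ℚ, ‖f q - g q‖ * ω q < ε) → f ∈ I) →
      (I = {(0 : ℚ → ℂ)} ∨ ∃ α : ℝ, 0 ≤ α ∧
        (I = {f : ℚ → ℂ | (∀ q : ℚ, q < 0 → f q = 0) ∧
                Summable (fun q : ℚ => ‖f q‖ * ω q) ∧
                ∀ q : ℚ, (q : ℝ) < α → f q = 0} ∨
         I = {f : ℚ → ℂ | (∀ q : ℚ, q < 0 → f q = 0) ∧
                Summable (fun q : ℚ => ‖f q‖ * ω q) ∧
                ∀ q : ℚ, (q : ℝ) ≤ α → f q = 0}))) := by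
  intro H
  have hq : (0:ℝ) < ((qq 0 : ℚ) : ℝ) := by rw [qq_eq]; simp [N]
  rcases H ω (fun r _ => ω_pos r) ω_add ω_rad I (fun f hf => hf.1)
    ⟨⟨fun _ _ => rfl, by simpa using summable_zero⟩, fun t _ => by simp⟩
    (fun f hf g hg => I_add hf hg) (fun a f hf => I_smul a hf)
    (fun a h1 h2 f hf => I_conv ⟨h1, h2⟩ hf) (fun f h1 h2 h => I_closed ⟨h1, h2⟩ h) with
    h | ⟨α, h0, h | h⟩
  · have h1 := f0_mem
    rw [h] at h1
    have h2 := f0_q 0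
    rw [h1] at h2
    simp [c] at h2
  · have h1 := f0_mem
    rw [h] at h1
    have h2 := alpha_zero h0 h1.2.2
    apply single_not_mem
    rw [h]
    refine ⟨single_L.1, single_L.2, fun r hr => Pi.single_eq_of_ne (fun e => ?_) _⟩
    rw [e, h2] at hr
    linarith
  · have h1 := f0_mem
    rw [h] at h1
    have h2 := alpha_zero h0 fun r hr => h1.2.2 r hr.le
    apply single_not_mem
    rw [h]
    refine ⟨single_L.1, single_L.2, fun r hr => Pi.single_eq_of_ne (fun e => ?_) _⟩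
    rw [e, h2] at hr
    linarith

end Pool.Agent.S05488
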