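import Pool.Statements.S05499
-- import your own Pool.Agent.* helpers here

set_option autoImplicit false
open MeasureTheory
open Pool Pool.MP_98de44_an

namespace Pool.Agent.S05499

lemma lemA {α : Type} [MeasurableSpace α] (μ : Measure α) [SigmaFinite μ] [NeZero μ] (T : α → α)
    (hE : Ergodic (Prod.map T T) (μ.prod μ)) (h : α → ℂ) (hm : Measurable h) (s : ℂ) (hs : s ≠ 0)
    (h0 : ∀ᵐ y ∂μ, h y ≠ 0) (he : ∀ᵐ y ∂μ, h (T y) = s * h y) : ∃ a, ∀ᵐ y ∂μ, h y = a := by
  obtain ⟨k, hk⟩ := hE.ae_eq_const_of_ae_eq_comp_ae (g := fun p : α × α => h p.2 / h p.1)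
    (Measurable.aestronglyMeasurable (by fun_prop)) (by
      filter_upwards [Measure.quasiMeasurePreserving_fst.ae he,
        Measure.quasiMeasurePreserving_snd.ae he] with p h1 h2
      simp only [Function.comp, Prod.map, h1, h2]
      exact mul_div_mul_left _ _ hs)
  obtain ⟨y, hy0, hy⟩ := (h0.and (Measure.ae_ae_of_ae_prod hk)).exists
  refine ⟨k * h y, ?_⟩
  filter_upwards [hy] with z hz
  simp only [Function.const] at hz
  rw [← hz, div_mul_cancel₀ _ hy0]

lemma lemB {α : Type} [MeasurableSpace α] (μ : Measure α) [SigmaFinite μ] [NeZero μ] (T : α → α)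
    (hT : MeasurePreserving T μ μ)
    (hE : Ergodic (Prod.map T T) (μ.prod μ)) (f : α × α → ℂ) (hm : Measurable f) (c : ℂ)
    (hc : c ≠ 0) (h0 : ∀ᵐ p ∂(μ.prod μ), f p ≠ 0)
    (he : ∀ᵐ p ∂(μ.prod μ), f (Prod.map T T p) = c * f p) :
    ∀ᵐ x ∂μ, ∃ a, ∀ᵐ y ∂μ, f (x, y) = a := by
  have hR : MeasurePreserving (Prod.map id T) (μ.prod μ) (μ.prod μ) :=
    (MeasurePreserving.id μ).prod hT
  have hTm := hT.measurable
  obtain ⟨s, hs⟩ := hE.ae_eq_const_of_ae_eq_comp_ae
    (g := fun p : α × α => f (Prod.map id T p) / f p)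
    (Measurable.aestronglyMeasurable (by fun_prop)) (by
      filter_upwards [he, hR.quasiMeasurePreserving.ae he] with p h1 h2
      have : Prod.map id T (Prod.map T T p) = Prod.map T T (Prod.map id T p) := rfl
      simp only [Function.comp, this, h1, h2]
      exact mul_div_mul_left _ _ hc)
  have h1 : ∀ᵐ p ∂(μ.prod μ), f (Prod.map id T p) = s * f p := by
    filter_upwards [hs, h0] with p h1 h2
    simp only [Function.const] at h1
    rw [← h1, div_mul_cancel₀ _ h2]
  have hs0 : s ≠ 0 := by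
    obtain ⟨x, hx⟩ := (Measure.ae_ae_of_ae_prod
      (h1.and (hR.quasiMeasurePreserving.ae h0))).exists
    obtain ⟨y, h2, h3⟩ := hx.exists
    rintro rfl
    exact h3 (by simpa using h2)
  filter_upwards [Measure.ae_ae_of_ae_prod h0, Measure.ae_ae_of_ae_prod h1] with x h2 h3
  exact lemA μ T hE (fun y => f (x, y)) (by fun_prop) s hs0 h2 h3


/-- Take an invertible, conservative, measure-preserving map T on an infinite σ-finite standard space with T×T ergodic. Then T×T has no nonconstant eigenfunctions: any measurable f with f∘(T×T) = c·f a.e. is a.e. constant. -/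
theorem result :
    ∀ (α : Type) [MeasurableSpace α] [StandardBorelSpace α]
      (μ : MeasureTheory.Measure α) [MeasureTheory.SigmaFinite μ] (T : α ≃ᵐ α),
      μ Set.univ = ⊤ →
      MeasureTheory.MeasurePreserving (⇑T) μ μ →
      MeasureTheory.Conservative (⇑T) μ →
      Ergodic (Prod.map ⇑T ⇑T) (μ.prod μ) →
      ∀ (f : α × α → ℂ), Measurable f → ∀ c : ℂ,
        (f ∘ Prod.map ⇑T ⇑T =ᵐ[μ.prod μ] fun x => c * f x) →
        ∃ a : ℂ, f =ᵐ[μ.prod μ] fun _ => a := by
  intro α _ _ μ _ T hμ hT _ hE f hm c he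
  haveI : NeZero μ := ⟨by rintro rfl; simp at hμ⟩
  have he' : ∀ᵐ p ∂(μ.prod μ), f (Prod.map T T p) = c * f p := he
  by_cases hc : c = 0
  · have hS : MeasurePreserving (Prod.map T.symm T.symm) (μ.prod μ) (μ.prod μ) :=
      (hT.symm T).prod (hT.symm T)
    refine ⟨0, ?_⟩
    filter_upwards [hS.quasiMeasurePreserving.ae he'] with p hp
    simpa [hc, Prod.map] using hp
  rcases hE.quasiErgodic.ae_mem_or_ae_notMem₀ (s := {p | f p = 0})
    (hm (measurableSet_singleton 0)).nullMeasurableSet (by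
      filter_upwards [he'] with p hp
      apply propext
      change f (Prod.map T T p) = 0 ↔ f p = 0
      simp [hp, hc]) with h0 | h0
  · exact ⟨0, h0⟩
  have hB1 := lemB μ T hT hE f hm c hc h0 he'
  have hB2 := lemB μ T hT hE (fun p => f p.swap) (by fun_prop) c hc
    (Measure.measurePreserving_swap.quasiMeasurePreserving.ae h0)
    (Measure.measurePreserving_swap.quasiMeasurePreserving.ae he')
  have h1 : ∀ᵐ x ∂μ, ∀ᵐ q ∂(μ.prod μ), f (x, q.2) = f (x, q.1) := by
    filter_upwards [hB1] with x ⟨a, ha⟩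
    filter_upwards [Measure.quasiMeasurePreserving_fst.ae ha,
      Measure.quasiMeasurePreserving_snd.ae ha] with q h1 h2
    rw [h1, h2]
  rw [Measure.ae_ae_comm (p := fun (x : α) (q : α × α) => f (x, q.2) = f (x, q.1))
    (measurableSet_eq_fun (by fun_prop) (by fun_prop))] at h1
  obtain ⟨y, ⟨b, hb⟩, hy⟩ := (hB2.and (Measure.ae_ae_of_ae_prod h1)).exists
  refine ⟨b, ?_⟩
  have hmb : MeasurableSet {p : α × α | f p = b} := hm (measurableSet_singleton b)
  refine (Measure.ae_prod_iff_ae_ae hmb).2 ?_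
  rw [Measure.ae_ae_comm (p := fun x y => f (x, y) = b) hmb]
  filter_upwards [hy] with z hz
  filter_upwards [hz, hb] with x h1 h2
  exact h1.trans h2

end Pool.Agent.S05499
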