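import Pool.Statements.S05524

set_option autoImplicit false
open Pool Pool.MP_9b0ce4_an

namespace Pool.Agent.S05524

open Filter Topology

section ext

variable {X : Type} [NormedAddCommGroup X] [NormedSpace ℝ X]

theorem small (F : ℝ → ℝ) (hF : Continuous F) (ε : ℝ) (hε : 0 < ε) :
    ∀ᶠ η in 𝓝[>] (0 : ℝ), F η < F 0 + ε :=
  ((hF.tendsto 0).eventually (gt_mem_nhds (by linarith))).filter_mono nhdsWithin_le_nhds

/-- A Choquet-Deny type extremality lemma. -/
theorem extreme (x y : X) (a b : ℝ) (ha : 0 < a) (hb : 0 ≤ b) (hab : a + b = 1)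
    (H : ∀ ε : ℝ, 0 < ε → ∃ A B : X →L[ℝ] X, Commute A B ∧ ‖A‖ ≤ a + ε ∧ ‖B‖ ≤ b + ε ∧
      ‖A (x + y) - x‖ ≤ ε ∧ ‖B (x + y) - y‖ ≤ ε) : x = a • (x + y) := by
  set f := x + y with hf
  set g := x - a • f with hg
  set M := ‖g‖ with hM
  have hM0 : 0 ≤ M := norm_nonneg _
  obtain ⟨φ, hφ1, hφ2⟩ := exists_dual_vector'' ℝ g
  have hφ2' : φ g = M := by simpa using hφ2
  have hφ : ∀ z, |φ z| ≤ ‖z‖ := fun z => by
    have := φ.le_opNorm z
    rw [Real.norm_eq_abs] at this
    nlinarith [norm_nonneg z]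
  let Λ : ℝ → ℝ → ℝ → Prop := fun s t w => ∀ ε : ℝ, 0 < ε → ∃ R : X →L[ℝ] X,
    ‖R‖ ≤ s + ε ∧ t - ε ≤ φ (R g) ∧ w - ε ≤ φ (R f)
  have step : ∀ s t w, 0 ≤ s → Λ s t w → Λ (s * a) (t - s * b * M) (a * w + t) := by
    intro s t w hs hΛ ε hε
    have e1 := small (fun η => (s + η) * (a + η)) (by fun_prop) ε hε
    have e2 := small (fun η => η + (s + η) * (10 * η) + (s + η) * ((b + η) * M)) (by fun_prop) ε hε
    have e3 := small (fun η => (s + η) * η + a * η + η) (by fun_prop) ε hε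
    have e4 : ∀ᶠ η in 𝓝[>] (0 : ℝ), η < 1 := by
      simpa using small (fun η => η) (by fun_prop) 1 one_pos
    have e5 : ∀ᶠ η in 𝓝[>] (0 : ℝ), 0 < η := self_mem_nhdsWithin
    obtain ⟨η, h1, h2, h3, h4, h5⟩ := (e1.and (e2.and (e3.and (e4.and e5)))).exists
    simp only [add_zero, mul_zero, zero_add] at h1 h2 h3
    obtain ⟨R, hR1, hR2, hR3⟩ := hΛ η h5
    obtain ⟨A, B, hc, hA, hB, hAf, hBf⟩ := H η h5
    have hRz : ∀ z, |φ (R z)| ≤ (s + η) * ‖z‖ := fun z =>
      (hφ _).trans ((R.le_opNorm z).trans (mul_le_mul_of_nonneg_right hR1 (norm_nonneg _)))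
    have hsη : 0 ≤ s + η := by linarith
    refine ⟨R * A, ?_, ?_, ?_⟩
    · refine (norm_mul_le _ _).trans (le_trans ?_ h1.le)
      exact mul_le_mul hR1 hA (norm_nonneg _) hsη
    · -- the estimate on `g`
      have hE : ∀ z, ‖A z + B z - z‖ ≤ 4 * ‖z‖ := fun z => by
        have t1 := A.le_opNorm z
        have t2 := B.le_opNorm z
        have t3 := norm_sub_le (A z + B z) z
        have t4 := norm_add_le (A z) (B z)
        nlinarith [norm_nonneg z]
      have hG : ∀ z, ‖A z - a • z‖ ≤ 3 * ‖z‖ := fun z => by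
        have t1 := A.le_opNorm z
        have t3 := norm_sub_le (A z) (a • z)
        rw [norm_smul, Real.norm_eq_abs, abs_of_pos ha] at t3
        nlinarith [norm_nonneg z]
      have hEf : ‖A f + B f - f‖ ≤ 2 * η := by
        have : A f + B f - f = (A f - x) + (B f - y) := by rw [hf]; abel
        rw [this]
        linarith [norm_add_le (A f - x) (B f - y)]
      have hcf : A (B f) = B (A f) := by
        have := congrArg (fun L : X →L[ℝ] X => L f) hc.eq
        simpa using this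
      have hEg : ‖A g + B g - g‖ ≤ 10 * η := by
        have : A g + B g - g = (A (x - A f) + B (x - A f) - (x - A f)) +
            (A (A f + B f - f) - a • (A f + B f - f)) := by
          simp only [hg, map_sub, map_add, map_smul, hcf, smul_sub, smul_add]
          abel
        rw [this]
        have t1 := hE (x - A f)
        have t2 := hG (A f + B f - f)
        rw [norm_sub_rev x] at t1
        linarith [norm_add_le (A (x - A f) + B (x - A f) - (x - A f))
          (A (A f + B f - f) - a • (A f + B f - f))]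
      have hBg : ‖B g‖ ≤ (b + η) * M :=
        (B.le_opNorm g).trans (mul_le_mul_of_nonneg_right hB hM0)
      have id1 : φ ((R * A) g) = φ (R g) + φ (R (A g + B g - g)) - φ (R (B g)) := by
        simp only [ContinuousLinearMap.mul_apply, map_sub, map_add]
        ring
      have t1 := (abs_le.1 ((hRz (A g + B g - g)).trans (mul_le_mul_of_nonneg_left hEg hsη))).1
      have t2 := (abs_le.1 ((hRz (B g)).trans (mul_le_mul_of_nonneg_left hBg hsη))).2
      rw [id1]
      nlinarith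
    · have id1 : φ ((R * A) f) = φ (R (A f - x)) + a * φ (R f) + φ (R g) := by
        simp only [hg, ContinuousLinearMap.mul_apply, map_sub, map_smul, smul_eq_mul]
        ring
      have t1 := (abs_le.1 ((hRz (A f - x)).trans (mul_le_mul_of_nonneg_left hAf hsη))).1
      rw [id1]
      nlinarith
  have iter : ∀ n : ℕ, Λ (a ^ (n + 1)) (a ^ (n + 1) * M) (a ^ (n + 1) * φ f + n * a ^ n * M) := by
    intro n
    induction n with
    | zero =>
      intro ε hε
      refine ⟨a • 1, ?_, ?_, ?_⟩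
      · rw [norm_smul, Real.norm_eq_abs, abs_of_pos ha]
        have : ‖(1 : X →L[ℝ] X)‖ ≤ 1 := ContinuousLinearMap.norm_id_le
        rw [zero_add, pow_one]
        nlinarith
      · simp [hφ2', hε.le]
      · simp [hε.le]
    | succ n ih =>
      have := step _ _ _ (by positivity) ih
      have hb' : b = 1 - a := by linarith
      convert this using 1
      · ring
      · rw [hb']; ring
      · push_cast; ring
  have bound : ∀ n : ℕ, (n : ℝ) * M ≤ 2 * a * ‖f‖ := by
    intro n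
    have h1 : a ^ (n + 1) * φ f + n * a ^ n * M ≤ a ^ (n + 1) * ‖f‖ := by
      apply le_of_forall_pos_le_add
      intro ε hε
      have e1 := small (fun η => η * ‖f‖ + η) (by fun_prop) ε hε
      have e5 : ∀ᶠ η in 𝓝[>] (0 : ℝ), 0 < η := self_mem_nhdsWithin
      obtain ⟨η, h1, h5⟩ := (e1.and e5).exists
      simp only [add_zero, zero_mul, zero_add] at h1
      obtain ⟨R, hR1, _, hR3⟩ := iter n η h5
      have t1 := (abs_le.1 ((hφ _).trans ((R.le_opNorm f).trans
        (mul_le_mul_of_nonneg_right hR1 (norm_nonneg _))))).2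
      nlinarith
    have h2 := (abs_le.1 (hφ f)).1
    have h3 : 0 < a ^ n := by positivity
    have h4 : a ^ n * (n * M) ≤ a ^ n * (2 * a * ‖f‖) := by
      rw [pow_succ] at h1
      nlinarith [mul_pos h3 ha]
    exact le_of_mul_le_mul_left h4 h3
  have hM' : M = 0 := by
    by_contra hne
    have hpos : 0 < M := lt_of_le_of_ne hM0 (Ne.symm hne)
    obtain ⟨n, hn⟩ := exists_nat_gt (2 * a * ‖f‖ / M)
    rw [div_lt_iff₀ hpos] at hn
    linarith [bound n]
  have : g = 0 := norm_eq_zero.1 hM'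
  exact sub_eq_zero.1 this

/-- The bicommutant of an operator. -/
def Bic (T : X →L[ℝ] X) : Type := {R : X →L[ℝ] X // ∀ S : X →L[ℝ] X, Commute S T → Commute S R}

instance (T : X →L[ℝ] X) : Nonempty (Bic T) := ⟨⟨0, fun S _ => Commute.zero_right S⟩⟩

/-- The infimal convolution seminorm. -/
noncomputable def q (T : X →L[ℝ] X) (u : X) (δ : ℝ) (x : X) : ℝ :=
  ⨅ R : Bic T, (δ * ‖R.1‖ + ‖x - R.1 u‖)

variable (T : X →L[ℝ] X) (u : X) {δ : ℝ}

theorem q_le (hδ : 0 ≤ δ) (x : X) (R : Bic T) : q T u δ x ≤ δ * ‖R.1‖ + ‖x - R.1 u‖ :=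
  ciInf_le ⟨0, by rintro _ ⟨R, rfl⟩; positivity⟩ R

theorem q_nonneg (hδ : 0 ≤ δ) (x : X) : 0 ≤ q T u δ x :=
  le_ciInf (fun R => by positivity)

theorem q_le_norm (hδ : 0 ≤ δ) (x : X) : q T u δ x ≤ ‖x‖ := by
  simpa using q_le T u hδ x ⟨0, fun S _ => Commute.zero_right S⟩

theorem q_add (hδ : 0 ≤ δ) (x y : X) : q T u δ (x + y) ≤ q T u δ x + q T u δ y := by
  apply le_ciInf_add_ciInf
  intro R R'
  refine (q_le T u hδ (x + y) ⟨R.1 + R'.1, fun S hS => (R.2 S hS).add_right (R'.2 S hS)⟩).trans ?_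
  have h1 := norm_add_le R.1 R'.1
  have h2 := norm_add_le (x - R.1 u) (y - R'.1 u)
  have h3 : x + y - (R.1 + R'.1) u = (x - R.1 u) + (y - R'.1 u) := by
    simp only [ContinuousLinearMap.add_apply]
    abel
  simp only [h3]
  nlinarith

theorem q_smul_le (hδ : 0 ≤ δ) (r : ℝ) (x : X) : q T u δ (r • x) ≤ |r| * q T u δ x := by
  unfold q
  rw [Real.mul_iInf_of_nonneg (abs_nonneg r)]
  apply le_ciInf
  intro R
  refine (q_le T u hδ (r • x) ⟨r • R.1, fun S hS => (R.2 S hS).smul_right r⟩).trans ?_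
  have h3 : r • x - (r • R.1) u = r • (x - R.1 u) := by
    simp only [ContinuousLinearMap.smul_apply, smul_sub]
  simp only [h3, norm_smul, Real.norm_eq_abs]
  apply le_of_eq
  ring

theorem q_smul (hδ : 0 ≤ δ) (r : ℝ) (x : X) : q T u δ (r • x) = |r| * q T u δ x := by
  refine le_antisymm (q_smul_le T u hδ r x) ?_
  by_cases hr : r = 0
  · simp [hr, q_nonneg T u hδ]
  · have h := q_smul_le T u hδ r⁻¹ (r • x)
    rw [smul_smul, inv_mul_cancel₀ hr, one_smul, abs_inv] at h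
    have h0 : 0 < |r| := abs_pos.2 hr
    calc |r| * q T u δ x ≤ |r| * (|r|⁻¹ * q T u δ (r • x)) := mul_le_mul_of_nonneg_left h h0.le
      _ = q T u δ (r • x) := by field_simp

theorem q_contr (hδ : 0 ≤ δ) (S : Bic T) (hS : ‖S.1‖ ≤ 1) (x : X) :
    q T u δ (S.1 x) ≤ q T u δ x := by
  apply le_ciInf
  intro R
  refine (q_le T u hδ (S.1 x) ⟨S.1 * R.1, fun W hW => (S.2 W hW).mul_right (R.2 W hW)⟩).trans ?_
  have h1 : ‖S.1 * R.1‖ ≤ ‖R.1‖ := (norm_mul_le _ _).trans (by nlinarith [norm_nonneg R.1])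
  have h2 : ‖S.1 x - (S.1 * R.1) u‖ ≤ ‖x - R.1 u‖ := by
    rw [ContinuousLinearMap.mul_apply, ← map_sub]
    exact (S.1.le_opNorm _).trans (by nlinarith [norm_nonneg (x - R.1 u)])
  simp only
  nlinarith

theorem approx (x y : X) (hx : x ≠ 0) (hn : ‖x + y‖ = ‖x‖ + ‖y‖)
    (H : ∀ η : ℝ, 0 < η → ∃ (u : X) (δ : ℝ), 0 < δ ∧ δ ≤ η ∧ ‖x + y - u‖ ≤ η * δ ∧
      q T u δ x + q T u δ y ≤ q T u δ (x + y)) :
    x = (‖x‖ / ‖x + y‖) • (x + y) := by
  have hx0 : 0 < ‖x‖ := norm_pos_iff.2 hx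
  have hf0 : 0 < ‖x + y‖ := by rw [hn]; linarith [norm_nonneg y]
  refine extreme x y _ (‖y‖ / ‖x + y‖) (by positivity) (by positivity)
    (by rw [← add_div, ← hn, div_self hf0.ne']) ?_
  intro ε hε
  have e1 := small (fun η => 8 * η) (by fun_prop) ε hε
  have e2 := small (fun η => 3 * η + 8 * η / ‖x + y‖) (by fun_prop) ε hε
  have e4 : ∀ᶠ η in 𝓝[>] (0 : ℝ), η < 1 := by
    simpa using small (fun η => η) (by fun_prop) 1 one_pos
  have e5 : ∀ᶠ η in 𝓝[>] (0 : ℝ), 0 < η := self_mem_nhdsWithin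
  obtain ⟨η, h1, h2, h4, h5⟩ := (e1.and (e2.and (e4.and e5))).exists
  simp only [add_zero, mul_zero, zero_add, zero_div] at h1 h2
  obtain ⟨u, δ, hδ, hδη, hu, hq⟩ := H η h5
  have hf : q T u δ (x + y) ≤ δ + η * δ := by
    refine (q_le T u hδ.le (x + y) ⟨1, fun S _ => Commute.one_right S⟩).trans ?_
    have : ‖(1 : X →L[ℝ] X)‖ ≤ 1 := ContinuousLinearMap.norm_id_le
    simp only [ContinuousLinearMap.one_apply]
    nlinarith
  have hηδ : 0 < η * δ := mul_pos h5 hδ
  obtain ⟨A, hA⟩ := exists_lt_of_ciInf_lt (show q T u δ x < q T u δ x + η * δ by linarith)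
  obtain ⟨B, hB⟩ := exists_lt_of_ciInf_lt (show q T u δ y < q T u δ y + η * δ by linarith)
  have hsum : δ * ‖A.1‖ + ‖x - A.1 u‖ + (δ * ‖B.1‖ + ‖y - B.1 u‖) ≤ δ * (1 + 3 * η) := by
    nlinarith
  have n1 := norm_nonneg A.1
  have n2 := norm_nonneg B.1
  have n3 := norm_nonneg (x - A.1 u)
  have n4 := norm_nonneg (y - B.1 u)
  have hAB : ‖A.1‖ + ‖B.1‖ ≤ 1 + 3 * η := by
    have : δ * (‖A.1‖ + ‖B.1‖) ≤ δ * (1 + 3 * η) := by nlinarith
    exact le_of_mul_le_mul_left this hδ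
  have key : ∀ (C : X →L[ℝ] X) (z : X), ‖C‖ ≤ 1 + 3 * η → ‖z - C u‖ ≤ δ * (1 + 3 * η) →
      ‖C (x + y) - z‖ ≤ 8 * η := by
    intro C z hC hz
    have e : C (x + y) - z = C (x + y - u) - (z - C u) := by
      simp only [map_sub]
      abel
    rw [e]
    have t1 := norm_sub_le (C (x + y - u)) (z - C u)
    have t2 : ‖C (x + y - u)‖ ≤ (1 + 3 * η) * (η * δ) :=
      (C.le_opNorm _).trans (mul_le_mul hC hu (norm_nonneg _) (by linarith))
    have t3 : η * δ ≤ η := by nlinarith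
    have t4 : (1 + 3 * η) * (η * δ) ≤ 4 * η := by nlinarith
    have t5 : δ * (1 + 3 * η) ≤ 4 * η := by nlinarith
    linarith
  have kA := key A.1 x (by linarith) (by nlinarith [mul_nonneg hδ.le n1, mul_nonneg hδ.le n2])
  have kB := key B.1 y (by linarith) (by nlinarith [mul_nonneg hδ.le n1, mul_nonneg hδ.le n2])
  have low : ∀ (C : X →L[ℝ] X) (z : X), ‖C (x + y) - z‖ ≤ 8 * η →
      ‖z‖ / ‖x + y‖ ≤ ‖C‖ + 8 * η / ‖x + y‖ := by
    intro C z h
    rw [div_le_iff₀ hf0, add_mul, div_mul_cancel₀ _ hf0.ne']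
    have t1 := C.le_opNorm (x + y)
    have t2 := norm_sub_le (C (x + y)) (C (x + y) - z)
    rw [sub_sub_cancel] at t2
    linarith
  have lA := low _ _ kA
  have lB := low _ _ kB
  have hab : ‖x‖ / ‖x + y‖ + ‖y‖ / ‖x + y‖ = 1 := by rw [← add_div, ← hn, div_self hf0.ne']
  refine ⟨A.1, B.1, B.2 _ (A.2 T (Commute.refl T)).symm, by linarith, by linarith, by linarith,
    by linarith⟩

end ext

/-- The negation of the preceding statement: There is a separable real Banach space with a surjective linear isometry T such that no equivalent norm on the space is both T-invariant and strictly convex. -/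
theorem result :
    ¬ (∃ (X : Type) (_ : NormedAddCommGroup X) (_ : NormedSpace ℝ X),
      CompleteSpace X ∧ TopologicalSpace.SeparableSpace X ∧
      ∃ T : X ≃ₗᵢ[ℝ] X,
        ¬ ∃ N : X → ℝ,
          (∀ x y : X, N (x + y) ≤ N x + N y) ∧
          (∀ (r : ℝ) (x : X), N (r • x) = |r| * N x) ∧
          (∃ c C : ℝ, 0 < c ∧ 0 < C ∧ ∀ x : X, c * ‖x‖ ≤ N x ∧ N x ≤ C * ‖x‖) ∧
          (∀ x : X, N (T x) = N x) ∧
          (∀ x y : X, N x = 1 → N y = 1 → x ≠ y → N (x + y) < 2)) := by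
  rintro ⟨X, _, _, _, hsep, T, hT⟩
  apply hT
  have : Nonempty X := ⟨0⟩
  let T1 : X →L[ℝ] X := T.toContinuousLinearEquiv
  let T2 : X →L[ℝ] X := T.symm.toContinuousLinearEquiv
  let u : ℕ → X := fun i => TopologicalSpace.denseSeq X (Nat.unpair i).1
  let δ : ℕ → ℝ := fun i => 1 / (((Nat.unpair i).2 : ℝ) + 1)
  have hδ : ∀ i, 0 < δ i := fun i => by positivity
  let p : ℕ → X → ℝ := fun i x => (1 / 2 : ℝ) ^ i * q T1 (u i) (δ i) x
  have hp0 : ∀ i x, 0 ≤ p i x := fun i x =>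
    mul_nonneg (by positivity) (q_nonneg _ _ (hδ i).le x)
  have hp1 : ∀ i x, p i x ≤ (1 / 2 : ℝ) ^ i * ‖x‖ := fun i x =>
    mul_le_mul_of_nonneg_left (q_le_norm _ _ (hδ i).le x) (by positivity)
  have hg : ∀ x : X, HasSum (fun i : ℕ => (1 / 2 : ℝ) ^ i * ‖x‖) (2 * ‖x‖) := fun x =>
    hasSum_geometric_two.mul_right _
  have hs : ∀ x, Summable (fun i => p i x) := fun x =>
    Summable.of_nonneg_of_le (fun i => hp0 i x) (fun i => hp1 i x) (hg x).summable
  have hpadd : ∀ i x y, p i (x + y) ≤ p i x + p i y := fun i x y => by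
    simp only [p, ← mul_add]
    exact mul_le_mul_of_nonneg_left (q_add _ _ (hδ i).le x y) (by positivity)
  have hsadd : ∀ x y, ∑' i, p i (x + y) ≤ ∑' i, p i x + ∑' i, p i y := fun x y => by
    rw [← (hs x).tsum_add (hs y)]
    exact (hs _).tsum_le_tsum (fun i => hpadd i x y) ((hs x).add (hs y))
  have hhom : ∀ (r : ℝ) (x : X), ‖r • x‖ + ∑' i, p i (r • x) = |r| * (‖x‖ + ∑' i, p i x) := by
    intro r x
    rw [norm_smul, Real.norm_eq_abs, mul_add, ← tsum_mul_left]
    congr 2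
    funext i
    simp only [p, q_smul _ _ (hδ i).le]
    ring
  refine ⟨fun x => ‖x‖ + ∑' i, p i x, ?_, hhom, ⟨1, 3, one_pos, by norm_num, fun x => ⟨?_, ?_⟩⟩,
    ?_, ?_⟩
  · intro x y
    linarith [norm_add_le x y, hsadd x y]
  · have : 0 ≤ ∑' i, p i x := tsum_nonneg (fun i => hp0 i x)
    linarith
  · have : ∑' i, p i x ≤ 2 * ‖x‖ := hasSum_le (fun i => hp1 i x) (hs x).hasSum (hg x)
    linarith
  · intro x
    show ‖T x‖ + ∑' i, p i (T x) = ‖x‖ + ∑' i, p i x
    rw [T.norm_map]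
    congr 2
    funext i
    simp only [p]
    congr 1
    have n1 : ‖T1‖ ≤ 1 := ContinuousLinearMap.opNorm_le_bound _ zero_le_one (fun z => by simp [T1])
    have n2 : ‖T2‖ ≤ 1 := ContinuousLinearMap.opNorm_le_bound _ zero_le_one (fun z => by simp [T2])
    have c2 : ∀ S : X →L[ℝ] X, Commute S T1 → Commute S T2 := by
      intro S hS
      ext z
      apply T.injective
      have := congrArg (fun L : X →L[ℝ] X => L (T.symm z)) hS.eq
      simpa [T1, T2] using this.symm
    refine le_antisymm (q_contr T1 (u i) (hδ i).le ⟨T1, fun _ h => h⟩ n1 x) ?_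
    have := q_contr T1 (u i) (hδ i).le ⟨T2, c2⟩ n2 (T x)
    simpa [T2] using this
  · intro x y hx hy hxy
    by_contra hc
    push Not at hc
    simp only at hx hy hc
    have hn : ‖x + y‖ = ‖x‖ + ‖y‖ := by linarith [norm_add_le x y, hsadd x y]
    have hsum : ∑' i, p i x + ∑' i, p i y ≤ ∑' i, p i (x + y) := by linarith
    have hpe : ∀ i, p i x + p i y ≤ p i (x + y) := by
      intro i
      by_contra hlt
      push Not at hlt
      have := Summable.tsum_lt_tsum (fun i => hpadd i x y) hlt (hs _) ((hs x).add (hs y))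
      rw [(hs x).tsum_add (hs y)] at this
      linarith
    have hne : ∀ z : X, ‖z‖ + ∑' i, p i z = 1 → z ≠ 0 := by
      intro z hz h0
      have := hhom 0 z
      rw [zero_smul, ← h0, hz] at this
      simp at this
    have H : ∀ η : ℝ, 0 < η → ∃ (u : X) (δ : ℝ), 0 < δ ∧ δ ≤ η ∧ ‖x + y - u‖ ≤ η * δ ∧
        q T1 u δ x + q T1 u δ y ≤ q T1 u δ (x + y) := by
      intro η hη
      obtain ⟨j, hj⟩ := exists_nat_one_div_lt hη
      obtain ⟨k, hk⟩ := (TopologicalSpace.denseRange_denseSeq X).exists_dist_lt (x + y)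
        (show 0 < η * (1 / ((j : ℝ) + 1)) by positivity)
      refine ⟨u (Nat.pair k j), δ (Nat.pair k j), hδ _, ?_, ?_, ?_⟩
      · simpa [δ] using hj.le
      · rw [dist_eq_norm] at hk
        simpa [u, δ] using hk.le
      · have := hpe (Nat.pair k j)
        simp only [p, ← mul_add] at this
        exact le_of_mul_le_mul_left this (by positivity)
    have ex := approx T1 x y (hne x hx) hn H
    have ey := approx T1 y x (hne y hy) (by rw [add_comm y, hn, add_comm]) (by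
      intro η hη
      obtain ⟨u, δ, h1, h2, h3, h4⟩ := H η hη
      exact ⟨u, δ, h1, h2, by rwa [add_comm y], by rw [add_comm y, add_comm]; exact h4⟩)
    rw [add_comm y x] at ey
    have h1 := hhom (‖x‖ / ‖x + y‖) (x + y)
    have h2 := hhom (‖y‖ / ‖x + y‖) (x + y)
    rw [← ex, hx, abs_of_nonneg (by positivity)] at h1
    rw [← ey, hy, abs_of_nonneg (by positivity)] at h2
    have h3 : ‖x‖ / ‖x + y‖ = ‖y‖ / ‖x + y‖ :=
      mul_right_cancel₀ (show ‖x + y‖ + ∑' i, p i (x + y) ≠ 0 from (by linarith : (0 : ℝ) < _).ne')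
        (h1.symm.trans h2)
    apply hxy
    rw [ex, h3, ← ey]

end Pool.Agent.S05524
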