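import Pool.Statements.S05534
import Pool.Agent.H9.Ghost7

set_option autoImplicit false
open Pool Pool.MP_9c3653_an

namespace Pool.Agent.S05534

/-- The negation of the preceding statement: In every real Banach space, each maximally monotone operator with convex domain is of type (FPV). That is, for any open convex U meeting its domain, any pair (x,f) with x in U that is monotonically related to the graph over U already lies in the graph. -/
theorem result :
    ¬ (∀ (X : Type) [NormedAddCommGroup X] [NormedSpace ℝ X] [CompleteSpace X]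
      (A : X → Set (X →L[ℝ] ℝ)),
      (∀ x y : X, ∀ f ∈ A x, ∀ g ∈ A y, 0 ≤ (f - g) (x - y)) →
      (∀ (x : X) (f : X →L[ℝ] ℝ),
          (∀ y : X, ∀ g ∈ A y, 0 ≤ (f - g) (x - y)) → f ∈ A x) →
      Convex ℝ {x : X | (A x).Nonempty} →
      ∀ U : Set X, IsOpen U → Convex ℝ U →
        (U ∩ {x : X | (A x).Nonempty}).Nonempty →
        ∀ x ∈ U, ∀ f : X →L[ℝ] ℝ,
          (∀ y ∈ U, ∀ g ∈ A y, 0 ≤ (f - g) (x - y)) → f ∈ A x) := by
  intro h
  obtain ⟨A, l, h1, h2, h3, -, ⟨p, hp, h4⟩, x, f, h5, h6, h7⟩ :=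
    H9.Ghost.cvx (default : HilbertBasis ℕ ℝ H9.Ghost.L2).orthonormal
  exact h6 ⟨(x, f), h _ (fun x => {f | (x, f) ∈ A}) (fun x y f hf g hg => h1 _ hf _ hg)
    (fun x f hf => h2 x f fun p hp => hf _ _ hp) (by
      rw [show {x | {f | (x, f) ∈ A}.Nonempty} = Prod.fst '' A from Set.ext fun x =>
        ⟨fun ⟨f, hf⟩ => ⟨(x, f), hf, rfl⟩, fun ⟨p, hp, e⟩ => ⟨p.2, by
          subst e
          exact hp⟩⟩]
      exact h3)
    (l ⁻¹' Set.Ioi 0) (isOpen_Ioi.preimage l.continuous) ((convex_Ioi 0).linear_preimage l.1)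
    ⟨p.1, h4, p.2, hp⟩ x h5 f fun y hy g hg => h7 _ hg hy, rfl⟩

end Pool.Agent.S05534
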