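import Pool.Statements.S05550
import Pool.Agent.H9.RL1

set_option autoImplicit false
open Pool Pool.MP_9d0e4c_an

namespace Pool.Agent.S05550

/-- The negation of the preceding statement: For every real or complex Banach space X in which every Lipschitz map from the reals is differentiable almost everywhere (RNP), the numerical index of X equals the numerical index of its dual X*. -/
theorem result :
    ¬ (∀ (𝕜 : Type) [RCLike 𝕜] (X : Type) [NormedAddCommGroup X] [NormedSpace ℝ X]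
      [NormedSpace 𝕜 X] [IsScalarTower ℝ 𝕜 X] [CompleteSpace X],
      (∀ (f : ℝ → X) (K : NNReal), LipschitzWith K f →
        ∀ᵐ t ∂(MeasureTheory.volume : MeasureTheory.Measure ℝ), DifferentiableAt ℝ f t) →
      (⨅ T : {T : X →L[𝕜] X // ‖T‖ = 1},
          ⨆ p : {p : X × (X →L[𝕜] 𝕜) // ‖p.1‖ = 1 ∧ ‖p.2‖ = 1 ∧ p.2 p.1 = 1},
            ‖p.1.2 (T.1 p.1.1)‖)
        =
      (⨅ T : {T : (X →L[𝕜] 𝕜) →L[𝕜] (X →L[𝕜] 𝕜) // ‖T‖ = 1},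
          ⨆ p : {p : (X →L[𝕜] 𝕜) × ((X →L[𝕜] 𝕜) →L[𝕜] 𝕜) //
                  ‖p.1‖ = 1 ∧ ‖p.2‖ = 1 ∧ p.2 p.1 = 1},
            ‖p.1.2 (T.1 p.1.1)‖)) := by
  intro h
  have h1 := h ℝ H9.RL.X (H9.RL.rnp H9.RL.E)
  obtain ⟨T, a, b⟩ := H9.RL.small
  have : Nonempty {T : H9.RL.X →L[ℝ] H9.RL.X // ‖T‖ = 1} := ⟨⟨_, ContinuousLinearMap.norm_id⟩⟩
  have h2 := h1.trans_le ((ciInf_le ⟨0, Set.forall_mem_range.2 fun _ =>
    Real.iSup_nonneg fun _ => norm_nonneg _⟩ ⟨T, a⟩).trans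
    (Real.iSup_le (fun p => b _ _ p.2.1 p.2.2.1 p.2.2.2) (by norm_num)))
  refine absurd (le_trans (le_ciInf (c := 1 / 74) fun S => ?_) h2) (by norm_num)
  have := H9.RL.big (S := S.1) (V := ⨆ p : {p : H9.RL.X × (H9.RL.X →L[ℝ] ℝ) //
    ‖p.1‖ = 1 ∧ ‖p.2‖ = 1 ∧ p.2 p.1 = 1}, ‖p.1.2 (S.1 p.1.1)‖) fun x f a1 a2 a3 =>
    le_ciSup (f := fun p : {p : H9.RL.X × (H9.RL.X →L[ℝ] ℝ) //
      ‖p.1‖ = 1 ∧ ‖p.2‖ = 1 ∧ p.2 p.1 = 1} => ‖p.1.2 (S.1 p.1.1)‖) ⟨1, Set.forall_mem_range.2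
      fun p => (p.1.2.unit_le_opNorm _ ((S.1.unit_le_opNorm _ p.2.1.le).trans S.2.le)).trans
        p.2.2.1.le⟩ ⟨(x, f), a1, a2, a3⟩
  linarith [S.2]

end Pool.Agent.S05550
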