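import Pool.Statements.S05597
import Pool.Agent.H21.Cliff5

set_option autoImplicit false
open Pool Pool.MP_9fb148_an

namespace Pool.Agent.S05597

open Pool.Agent.H21.Cliff
open scoped Kronecker

/-- For Hermitian n×n matrices A_1..A_d (n ≥ 1) and any nonzero Hermitian Clifford representation γ_1..γ_d, some real point x makes the spectral localizer Σ (A_j − x_j I) ⊗ γ_j singular. -/
theorem result :
    ∀ (n d m : ℕ), 0 < n → 0 < m →
      ∀ (A : Fin d → Matrix (Fin n) (Fin n) ℂ) (γ : Fin d → Matrix (Fin m) (Fin m) ℂ),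
        (∀ j, (A j).IsHermitian) →
        (∀ j, (γ j).IsHermitian) →
        (∀ j, γ j * γ j = 1) →
        (∀ j k, j ≠ k → γ j * γ k = -(γ k * γ j)) →
        ∃ x : Fin d → ℝ,
          (∑ j : Fin d,
            Matrix.kronecker (A j - ((x j : ℂ)) • (1 : Matrix (Fin n) (Fin n) ℂ)) (γ j)).det = 0 := by
  intro n d m hn hm A γ hA hγ h1 h2
  haveI : Nonempty (Fin n) := ⟨⟨0, hn⟩⟩
  haveI : Nonempty (Fin m) := ⟨⟨0, hm⟩⟩
  have e : ∀ x : Fin d → ℝ, (∑ j : Fin d,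
      Matrix.kronecker (A j - ((x j : ℂ)) • (1 : Matrix (Fin n) (Fin n) ℂ)) (γ j)) =
      ∑ j, (A j ⊗ₖ (1 : Matrix (Fin m) (Fin m) ℂ)) * ((1 : Matrix (Fin n) (Fin n) ℂ) ⊗ₖ γ j) -
        ∑ j, x j • ((1 : Matrix (Fin n) (Fin n) ℂ) ⊗ₖ γ j) := by
    intro x
    rw [← Finset.sum_sub_distrib]
    refine Finset.sum_congr rfl fun j _ => ?_
    rw [← Matrix.mul_kronecker_mul, Matrix.mul_one, Matrix.one_mul]
    ext a b
    simp [Matrix.kronecker, sub_mul, mul_assoc]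
  have g1 : ∀ j, ((1 : Matrix (Fin n) (Fin n) ℂ) ⊗ₖ γ j) * ((1 : Matrix (Fin n) (Fin n) ℂ) ⊗ₖ γ j)
      = 1 := fun j => by rw [← Matrix.mul_kronecker_mul, h1]; simp
  have g2 : ∀ j k, j ≠ k →
      ((1 : Matrix (Fin n) (Fin n) ℂ) ⊗ₖ γ j) * ((1 : Matrix (Fin n) (Fin n) ℂ) ⊗ₖ γ k) =
      -(((1 : Matrix (Fin n) (Fin n) ℂ) ⊗ₖ γ k) * ((1 : Matrix (Fin n) (Fin n) ℂ) ⊗ₖ γ j)) :=
    fun j k h => by
      rw [← Matrix.mul_kronecker_mul, ← Matrix.mul_kronecker_mul, h2 j k h, kron_neg_right]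
  have g3 : ∀ j k,
      (A j ⊗ₖ (1 : Matrix (Fin m) (Fin m) ℂ)) * ((1 : Matrix (Fin n) (Fin n) ℂ) ⊗ₖ γ k) =
      ((1 : Matrix (Fin n) (Fin n) ℂ) ⊗ₖ γ k) * (A j ⊗ₖ (1 : Matrix (Fin m) (Fin m) ℂ)) :=
    fun j k => by rw [← Matrix.mul_kronecker_mul, ← Matrix.mul_kronecker_mul]; simp
  rcases Nat.even_or_odd' d with ⟨k, hk | hk⟩
  · rcases k with _ | k
    · subst hk
      exact ⟨fun _ => 0, by simp⟩
    · obtain ⟨x, hx⟩ := even_case _ _ g1 g2 g3 k (by rw [Fintype.card_fin, hk]; ring)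
      exact ⟨x, by rw [e, hx]⟩
  · obtain ⟨x, hx⟩ := odd_case _ _ g1 g2 g3 (by
      intro x
      rw [← e]
      unfold Matrix.IsHermitian
      rw [Matrix.conjTranspose_sum]
      refine Finset.sum_congr rfl fun j _ => ?_
      have h3 : (A j - ((x j : ℂ)) • (1 : Matrix (Fin n) (Fin n) ℂ)).conjTranspose =
          A j - ((x j : ℂ)) • (1 : Matrix (Fin n) (Fin n) ℂ) := by
        rw [Matrix.conjTranspose_sub, (hA j).eq, Matrix.conjTranspose_smul]; simp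
      show ((A j - ((x j : ℂ)) • (1 : Matrix (Fin n) (Fin n) ℂ)) ⊗ₖ γ j).conjTranspose =
        (A j - ((x j : ℂ)) • (1 : Matrix (Fin n) (Fin n) ℂ)) ⊗ₖ γ j
      rw [Matrix.conjTranspose_kronecker, h3, (hγ j).eq]) k (by rw [Fintype.card_fin, hk])
    exact ⟨x, by rw [e, hx]⟩

end Pool.Agent.S05597
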