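import Pool.Statements.S05601
import Pool.Agent.H12.Mod3

set_option autoImplicit false
open Pool Pool.MP_9fe0db_an

namespace Pool.Agent.S05601


/-- For a real Banach space and 1<p≤2≤q: if it has an equivalent norm with convexity modulus at least Kε^q and one with smoothness modulus at most Kt^p, then some single equivalent norm has both bounds. -/
theorem result :
    ∀ (X : Type) [NormedAddCommGroup X] [NormedSpace ℝ X] [CompleteSpace X],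
    ∀ p q : ℝ, 1 < p → p ≤ 2 → 2 ≤ q →
    (∃ N : X → ℝ,
        ((∀ x y : X, N (x + y) ≤ N x + N y) ∧
          (∀ (c : ℝ) (x : X), N (c • x) = |c| * N x) ∧
          ∃ a b : ℝ, 0 < a ∧ 0 < b ∧ ∀ x : X, a * ‖x‖ ≤ N x ∧ N x ≤ b * ‖x‖) ∧
        ∃ K : ℝ, 0 < K ∧ ∀ ε : ℝ, 0 < ε → ε ≤ 2 → ∀ x y : X, N x = 1 → N y = 1 →
          ε ≤ N (x - y) → K * ε ^ q ≤ 1 - N ((1 / 2 : ℝ) • (x + y))) →
    (∃ N : X → ℝ,
        ((∀ x y : X, N (x + y) ≤ N x + N y) ∧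
          (∀ (c : ℝ) (x : X), N (c • x) = |c| * N x) ∧
          ∃ a b : ℝ, 0 < a ∧ 0 < b ∧ ∀ x : X, a * ‖x‖ ≤ N x ∧ N x ≤ b * ‖x‖) ∧
        ∃ K : ℝ, 0 < K ∧ ∀ t : ℝ, 0 < t → t ≤ 1 → ∀ x y : X, N x = 1 → N y = 1 →
          (N (x + t • y) + N (x - t • y)) / 2 - 1 ≤ K * t ^ p) →
    ∃ N : X → ℝ,
        ((∀ x y : X, N (x + y) ≤ N x + N y) ∧
          (∀ (c : ℝ) (x : X), N (c • x) = |c| * N x) ∧
          ∃ a b : ℝ, 0 < a ∧ 0 < b ∧ ∀ x : X, a * ‖x‖ ≤ N x ∧ N x ≤ b * ‖x‖) ∧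
        (∃ K : ℝ, 0 < K ∧ ∀ ε : ℝ, 0 < ε → ε ≤ 2 → ∀ x y : X, N x = 1 → N y = 1 →
          ε ≤ N (x - y) → K * ε ^ q ≤ 1 - N ((1 / 2 : ℝ) • (x + y))) ∧
        ∃ K : ℝ, 0 < K ∧ ∀ t : ℝ, 0 < t → t ≤ 1 → ∀ x y : X, N x = 1 → N y = 1 →
          (N (x + t • y) + N (x - t • y)) / 2 - 1 ≤ K * t ^ p := by
  intro X _ _ _ p q hp1 hp2 hq ⟨n, ⟨n1, n2, a, b, ha, hb, h1⟩, K, hK, h3⟩
    ⟨N, ⟨N1, N2, a', b', ha', hb', h2⟩, K', hK', h4⟩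
  obtain ⟨M, hM, ⟨c, d, hc, hd, h5⟩, h6, h7⟩ :=
    Pool.Agent.H12.Mod.main ⟨n1, n2⟩ ⟨N1, N2⟩ hp1 hp2 hq ha hb ha' hb' hK hK' h1 h2 h3 h4
  refine ⟨M, ⟨hM.tri, hM.hom, c * a, d * b, mul_pos hc ha, mul_pos hd hb, fun x => ⟨?_, ?_⟩⟩,
    h6, h7⟩
  · rw [mul_assoc]
    exact le_trans (mul_le_mul_of_nonneg_left (h1 x).1 hc.le) (h5 x).1
  · rw [mul_assoc]
    exact le_trans (h5 x).2 (mul_le_mul_of_nonneg_left (h1 x).2 hd.le)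

end Pool.Agent.S05601
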