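import Pool.Statements.S05624
import Pool.Agent.H22.Mat2

set_option autoImplicit false
open Finset
open Pool Pool.MP_a13136_an

namespace Pool.Agent.S05624

open Polynomial in
noncomputable def P (a c d : ℝ) : Polynomial ℂ :=
  C (a : ℂ) + X + C (c : ℂ) * X ^ 2 + C (d : ℂ) * X ^ 3

def ext (y : ℕ → ℂ) (i : ℤ) : ℂ := if 0 ≤ i then y i.toNat else 0

lemma conv (a c d : ℝ) (y : ℕ → ℂ) (n : ℕ) :
    ∑ k ∈ Finset.range (n + 1), (P a c d).coeff k * y (n - k) =
      ext y (n + -1) + (a * ext y (n + -1 + 1) + c * ext y (n + -1 + -1) +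
        d * ext y (n + -1 + -2)) := by
  have c4 : ∀ k, (P a c d).coeff (k + 1 + 1 + 1 + 1) = 0 := fun k => by
    simp [P, Polynomial.coeff_X]
  have c0 : (P a c d).coeff 0 = a := by simp [P]
  have c1 : (P a c d).coeff 1 = 1 := by simp [P, Polynomial.coeff_X_pow]
  have c2 : (P a c d).coeff 2 = c := by
    simp [P, Polynomial.coeff_X, Polynomial.coeff_X_pow]
  have c3 : (P a c d).coeff 3 = d := by
    simp [P, Polynomial.coeff_X, Polynomial.coeff_X_pow]
  have e : ∀ (m : ℕ) (i : ℤ), i = m → ext y i = y m := by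
    rintro m i rfl; simp [ext]
  have z : ∀ i : ℤ, i < 0 → ext y i = 0 := fun i h => by simp [ext, h]
  rcases n with _ | _ | _ | n
  · rw [z _ (by simp), e 0 _ (by simp), z _ (by simp), z _ (by simp)]
    simp [c0]
  · rw [e 0 _ (by simp), e 1 _ (by simp), z _ (by simp), z _ (by simp)]
    simp [Finset.sum_range_succ, c0, c1]; ring
  · rw [e 1 _ (by simp), e 2 _ (by simp), e 0 _ (by simp), z _ (by simp)]
    simp [Finset.sum_range_succ, c0, c1, c2]; ring
  · rw [e (n + 2) _ (by omega), e (n + 3) _ (by omega), e (n + 1) _ (by omega), e n _ (by omega)]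
    simp only [Finset.sum_range_succ', c4, zero_mul, Finset.sum_const_zero, zero_add,
      show 1 + 1 + 1 = 3 from rfl, show 1 + 1 = 2 from rfl, c0, c1, c2, c3]
    simp only [show n + 1 + 1 + 1 - 3 = n by omega, show n + 1 + 1 + 1 - 2 = n + 1 by omega,
      show n + 1 + 1 + 1 - 1 = n + 2 by omega, show n + 1 + 1 + 1 - 0 = n + 3 by omega]
    ring

lemma tang {p ρ : ℝ} (hp : 1 ≤ p) (h : 0 < ρ) (u : ℝ) :
    ρ ^ p * (1 + p * (u / ρ - 1)) ≤ ‖(u : ℂ)‖ ^ p := by
  have h1 := one_add_mul_self_le_rpow_one_add (s := |u| / ρ - 1)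
    (by have : 0 ≤ |u| / ρ := by positivity
        linarith) hp
  rw [add_sub_cancel, Real.div_rpow (abs_nonneg u) h.le, le_div_iff₀ (by positivity)] at h1
  rw [Complex.norm_real, Real.norm_eq_abs, mul_comm]
  refine le_trans ?_ h1
  gcongr
  exact le_abs_self u

lemma mat (a c d ρ : ℝ) :
    Matrix.mulVec (Polynomial.aeval ((ρ : ℂ) • !![(1:ℂ), -1; 1, 1]) (P a c d)) ![1, 0] =
      ![((a + ρ - 2 * d * ρ ^ 3 : ℝ) : ℂ), ((ρ + 2 * c * ρ ^ 2 + 2 * d * ρ ^ 3 : ℝ) : ℂ)] := by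
  ext i
  fin_cases i <;>
    simp [P, Matrix.mulVec, pow_succ, Algebra.algebraMap_eq_smul_one,
      Matrix.one_apply, Matrix.vecHead] <;> ring


/-- The negation of the preceding statement: For every 1<p<2 and every complex polynomial P, the norm of P(T) on 2-dimensional complex l^p, with T = 2^(-1/p)[[1,-1],[1,1]], is at most the norm of P(S) on l^p, where S is the shift (tested on finitely supported sequences). -/
theorem result :
    ¬ (∀ p : ℝ, 1 < p → p < 2 → ∀ P : Polynomial ℂ, ∀ r : ℝ, 0 ≤ r → ∀ x : Fin 2 → ℂ,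
    r ^ p * (‖x 0‖ ^ p + ‖x 1‖ ^ p) <
      ‖(Matrix.mulVec (Polynomial.aeval ((((2:ℝ) ^ (-1 / p) : ℝ) : ℂ) • !![(1:ℂ), -1; 1, 1]) P) x) 0‖ ^ p
      + ‖(Matrix.mulVec (Polynomial.aeval ((((2:ℝ) ^ (-1 / p) : ℝ) : ℂ) • !![(1:ℂ), -1; 1, 1]) P) x) 1‖ ^ p →
    ∃ N : ℕ, ∃ y : ℕ → ℂ, (∀ j : ℕ, N ≤ j → y j = 0) ∧
      r ^ p * (∑ j ∈ Finset.range N, ‖y j‖ ^ p) <
        ∑ n ∈ Finset.range (N + P.natDegree + 1),
          ‖∑ k ∈ Finset.range (n + 1), P.coeff k * y (n - k)‖ ^ p) := by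
  intro H
  obtain ⟨s, Λ, σ, K, s0, s1, Λ0, σ0, K0, hσ, h⟩ := Pool.Agent.H22.Mat.shift
  set p := 2 / (1 + s) with hp
  have ps : p * (1 + s) = 2 := by rw [hp]; field_simp
  have p0 : 0 < p := by positivity
  have p1 : 1 < p := by nlinarith
  have p2 : p < 2 := by nlinarith
  set g := 2 * Λ + √2 * Real.log 2 / 4 - σ with hg
  have g0 : 0 < g := by linarith
  set ε := (g / K) ^ (1 / (p - 1)) with hε
  have ε0 : 0 < ε := by positivity
  have ε1 : ε ^ p * K = ε * g := by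
    have : ε ^ (p - 1) = g / K := by
      rw [hε, ← Real.rpow_mul (by positivity), one_div_mul_cancel (by linarith), Real.rpow_one]
    rw [show p = 1 + (p - 1) by ring, Real.rpow_add ε0, this, Real.rpow_one]; field_simp
  set v := 1 + p * ε * σ + ε ^ p * K with hv
  have v0 : 0 ≤ v := by positivity
  have hr : (v ^ (1 / p)) ^ p = v := by
    rw [← Real.rpow_mul v0, one_div_mul_cancel p0.ne', Real.rpow_one]
  obtain ⟨N, y, hy, hlt⟩ := H p p1 p2 (P (ε * (Λ * √2 + 1 / (2 * s)))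
    (ε * (Λ * √2 - 1 / (2 * s))) (ε * -Λ)) (v ^ (1 / p)) (by positivity) ![1, 0] (by
      rw [mat, hr]
      set ρ := (2 : ℝ) ^ (-1 / p) with hρ
      have ρ0 : 0 < ρ := by positivity
      have ρp : ρ ^ p = 1 / 2 := by
        rw [hρ, ← Real.rpow_mul (by norm_num), div_mul_cancel₀ _ p0.ne']; norm_num
      set t := s * Real.log 2 / 2 with ht
      have r0 : (0 : ℝ) < √2 := by positivity
      have r2 : √2 * √2 = (2 : ℝ) := Real.mul_self_sqrt (by norm_num)
      have eρ : ρ = Real.exp (-t) / √2 := by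
        rw [hρ, Real.sqrt_eq_rpow, Real.rpow_def_of_pos (by norm_num),
          Real.rpow_def_of_pos (by norm_num), ← Real.exp_sub]
        congr 1
        rw [hp, ht]; field_simp; ring
      have t0 : 0 ≤ t := by have := Real.log_nonneg (by norm_num : (1 : ℝ) ≤ 2); positivity
      have sh := Real.self_le_sinh_iff.mpr t0
      have ch := Real.one_le_cosh t
      rw [Real.sinh_eq] at sh
      rw [Real.cosh_eq] at ch
      have a1 := tang p1.le ρ0 (ε * (Λ * √2 + 1 / (2 * s)) + ρ - 2 * (ε * -Λ) * ρ ^ 3)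
      have a2 := tang p1.le ρ0 (ρ + 2 * (ε * (Λ * √2 - 1 / (2 * s))) * ρ ^ 2 + 2 * (ε * -Λ) * ρ ^ 3)
      simp only [Matrix.cons_val_zero, Matrix.cons_val_one, norm_one, Real.one_rpow, norm_zero,
        Real.zero_rpow p0.ne', add_zero, mul_one]
      refine lt_of_lt_of_le ?_ (add_le_add a1 a2)
      have e : ρ ^ p * (1 + p * ((ε * (Λ * √2 + 1 / (2 * s)) + ρ - 2 * (ε * -Λ) * ρ ^ 3) / ρ - 1)) +
          ρ ^ p * (1 + p * ((ρ + 2 * (ε * (Λ * √2 - 1 / (2 * s))) * ρ ^ 2 +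
            2 * (ε * -Λ) * ρ ^ 3) / ρ - 1)) = 1 + p * ε * (Λ * (Real.exp t + Real.exp (-t)) +
            √2 / (2 * s) * ((Real.exp t - Real.exp (-t)) / 2)) := by
        have e1 : 1 / ρ = √2 * Real.exp t := by rw [eρ, Real.exp_neg]; field_simp
        have e2 : 2 * ρ = √2 * Real.exp (-t) := by rw [eρ]; field_simp; linarith
        have : ∀ A B D : ℝ, ρ ^ p * (1 + p * ((A + ρ - D) / ρ - 1)) +
            ρ ^ p * (1 + p * ((ρ + 2 * B * ρ ^ 2 + D) / ρ - 1)) =
            1 + p * (A * (1 / ρ) + B * (2 * ρ)) / 2 := fun A B D => by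
          rw [ρp]; field_simp; ring
        rw [this, e1, e2]
        linear_combination p * ε * Λ * (Real.exp t + Real.exp (-t)) / 2 * r2
      rw [e, hv, ε1]
      have b1 : √2 * Real.log 2 / 4 ≤ √2 / (2 * s) * ((Real.exp t - Real.exp (-t)) / 2) :=
        le_trans (le_of_eq (by rw [ht]; field_simp; ring))
          (mul_le_mul_of_nonneg_left sh (by positivity))
      have b2 : σ + g ≤ Λ * (Real.exp t + Real.exp (-t)) +
          √2 / (2 * s) * ((Real.exp t - Real.exp (-t)) / 2) := by nlinarith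
      nlinarith [mul_le_mul_of_nonneg_left b2 (mul_pos p0 ε0).le, mul_pos ε0 g0])
  have z : ∀ i ∉ (Finset.range N).map Nat.castEmbedding, ext y i = 0 := by
    intro i hi
    unfold ext
    split_ifs with h0
    · refine hy _ (not_lt.mp fun l => hi (Finset.mem_map.mpr ⟨i.toNat, Finset.mem_range.mpr l, ?_⟩))
      simpa using h0
    · rfl
  have := h p ps ε ε0 (ext y) ⟨_, z⟩ _ (hasSum_sum_of_ne_finset_zero
    (s := (Finset.range N).map Nat.castEmbedding) fun i hi => by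
      rw [z i hi, norm_zero, Real.zero_rpow p0.ne'])
    ((Finset.range (N + (P (ε * (Λ * √2 + 1 / (2 * s)))
      (ε * (Λ * √2 - 1 / (2 * s))) (ε * -Λ)).natDegree + 1)).map Nat.castEmbedding)
  rw [Finset.sum_map, Finset.sum_map] at this
  simp only [conv, hr] at hlt
  refine hlt.not_ge (this.trans (le_of_eq ?_))
  simp [ext, hv]

end Pool.Agent.S05624
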