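import Pool.Statements.S05625
import Pool.Agent.H24.Nor3

set_option autoImplicit false
open Pool Pool.MP_a16150_an

namespace Pool.Agent.S05625

/-- For every base r ≥ 2 there is a real x, normal in base r, whose reciprocal 1/x is deterministic in base r: the entropy of its empirical n-digit-block distributions, per digit, can be made eventually below any ε > 0. -/
theorem result :
    ∀ r : ℕ, 2 ≤ r → ∃ x : ℝ,
      (∀ k : ℕ, 1 ≤ k → ∀ w : Fin k → Fin r,
        Filter.Tendsto
          (fun N : ℕ =>
            ((((Finset.range N).filter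
                (fun i => ∀ j : Fin k,
                  ⌊x * (r : ℝ) ^ (i + (j : ℕ) + 1)⌋ % (r : ℤ) = ((w j : ℕ) : ℤ))).card : ℝ)
              / (N : ℝ)))
          Filter.atTop (nhds (1 / (r : ℝ) ^ k))) ∧
      (∀ ε : ℝ, 0 < ε → ∃ n : ℕ, 1 ≤ n ∧ ∃ N0 : ℕ, ∀ N : ℕ, N0 ≤ N →
        ∑ w : Fin n → Fin r,
          Real.negMulLog
            ((((Finset.range N).filter
                (fun i => ∀ j : Fin n,
                  ⌊x⁻¹ * (r : ℝ) ^ (i + (j : ℕ) + 1)⌋ % (r : ℤ) = ((w j : ℕ) : ℤ))).card : ℝ)
              / (N : ℝ)) < ε * n) := by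
  open H24.Nor H4.Det Finset Filter Topology in
  intro r hr
  refine ⟨(x r)⁻¹, fun k _ w => ?_, fun ε hε => ?_⟩
  · simp only [dig_eq hr]
    exact normal hr (weyl hr) k w
  simp only [dig_eq hr, inv_inv]
  have : Tendsto (fun N : ℕ => ∑ w : Fin 1 → Fin r, Real.negMulLog ((((range N).filter fun n : ℕ =>
      ∀ i : Fin 1, dig r (x r) (n + i) = (w i : ℕ)).card : ℝ) / N)) atTop (𝓝 (∑ _w : Fin 1 → Fin r, 0)) := by
    refine tendsto_finsetSum _ fun w _ => ?_
    simp only [Fin.forall_fin_one, Fin.val_zero, add_zero]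
    by_cases c : ((w 0 : ℕ) : ℤ) = r - 1
    · rw [← Real.negMulLog_one, ← sub_zero (1 : ℝ)]
      refine (Real.continuous_negMulLog.tendsto _).comp ((tendsto_const_nhds.sub (sparse hr)).congr' ?_)
      filter_upwards [eventually_gt_atTop 0] with N hN
      have := card_filter_add_card_filter_not (s := range N) fun i => dig r (x r) i = r - 1
      rw [card_range] at this
      have h2 : (0 : ℝ) < N := by exact_mod_cast hN
      rw [c, eq_div_iff h2.ne', sub_mul, div_mul_cancel₀ _ h2.ne', one_mul, sub_eq_iff_eq_add]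
      exact_mod_cast this.symm
    · rw [← Real.negMulLog_zero]
      refine (Real.continuous_negMulLog.tendsto _).comp (squeeze_zero (fun _ => by positivity)
        (fun N => ?_) (sparse hr))
      gcongr with i
      intro a
      rwa [a]
  rw [sum_const_zero] at this
  obtain ⟨N0, h⟩ := eventually_atTop.1 (this.eventually (gt_mem_nhds hε))
  exact ⟨1, le_rfl, N0, fun N hN => by simpa using h N hN⟩

end Pool.Agent.S05625
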