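import Pool.Statements.S05632
import Pool.Agent.H23.Vdc

set_option autoImplicit false
open Pool Pool.MP_a1ab50_an

namespace Pool.Agent.S05632

open Pool.Agent.H23.Vdc

noncomputable def ix (k n : ℕ) : Fin 2 →₀ ℕ := Finsupp.single 0 n + Finsupp.single 1 k

lemma ix0 (k n : ℕ) : ix k n 0 = n := by simp [ix]

lemma ix1 (k n : ℕ) : ix k n 1 = k := by simp [ix]

lemma ix_ext {u v : Fin 2 →₀ ℕ} (h0 : u 0 = v 0) (h1 : u 1 = v 1) : u = v := by
  ext i
  fin_cases i
  · exact h0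
  · exact h1

def Row (φ : MvPowerSeries (Fin 2) ℝ) (k : ℕ) (z v : ℂ) : Prop :=
  HasSum (fun n => ((MvPowerSeries.coeff (ix k n) φ : ℝ) : ℂ) * z ^ n) v

def Good (z : ℂ) (A : MvPowerSeries (Fin 2) ℝ) (a : ℂ) : Prop :=
  ∀ φ k v, Row φ k z v → Row (A * φ) k z (a * v)

lemma row_sub {φ ψ : MvPowerSeries (Fin 2) ℝ} {k : ℕ} {z v w : ℂ} (h1 : Row φ k z v)
    (h2 : Row ψ k z w) : Row (φ - ψ) k z (v - w) := by
  simpa only [Row, map_sub, Complex.ofReal_sub, sub_mul] using HasSum.sub h1 h2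

lemma good_X (z : ℂ) : Good z (MvPowerSeries.X 0) z := by
  intro φ k v h
  refine (hasSum_nat_add_iff' 1).mp ?_
  have h0 : MvPowerSeries.coeff (ix k 0) (MvPowerSeries.X 0 * φ) = 0 := by
    rw [MvPowerSeries.X_def, MvPowerSeries.coeff_monomial_mul, if_neg]
    simp [Finsupp.single_le_iff, ix0]
  have h1 : ∀ n, MvPowerSeries.coeff (ix k (n + 1)) (MvPowerSeries.X 0 * φ) =
      MvPowerSeries.coeff (ix k n) φ := fun n => by
    rw [MvPowerSeries.X_def, MvPowerSeries.coeff_monomial_mul,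
      if_pos (by simp [Finsupp.single_le_iff, ix0]), one_mul,
      ix_ext (u := ix k (n + 1) - Finsupp.single 0 1) (v := ix k n) (by simp [ix0])
        (by simp [ix1])]
  simp only [Finset.range_one, Finset.sum_singleton, h0, h1, Complex.ofReal_zero, zero_mul,
    sub_zero]
  refine (congrArg (fun f => HasSum f _) ?_).mp (HasSum.mul_left z h)
  funext n
  ring

lemma row_Y0 (φ : MvPowerSeries (Fin 2) ℝ) (z : ℂ) : Row (MvPowerSeries.X 1 * φ) 0 z 0 := by
  have h0 : ∀ n, MvPowerSeries.coeff (ix 0 n) (MvPowerSeries.X 1 * φ) = 0 := fun n => by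
    rw [MvPowerSeries.X_def, MvPowerSeries.coeff_monomial_mul, if_neg]
    simp [Finsupp.single_le_iff, ix1]
  simp only [Row, h0, Complex.ofReal_zero, zero_mul]
  exact hasSum_zero

lemma row_Y1 {φ : MvPowerSeries (Fin 2) ℝ} {k : ℕ} {z v : ℂ} (h : Row φ k z v) :
    Row (MvPowerSeries.X 1 * φ) (k + 1) z v := by
  have h1 : ∀ n, MvPowerSeries.coeff (ix (k + 1) n) (MvPowerSeries.X 1 * φ) =
      MvPowerSeries.coeff (ix k n) φ := fun n => by
    rw [MvPowerSeries.X_def, MvPowerSeries.coeff_monomial_mul,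
      if_pos (by simp [Finsupp.single_le_iff, ix1]), one_mul,
      ix_ext (u := ix (k + 1) n - Finsupp.single 1 1) (v := ix k n) (by simp [ix0])
        (by simp [ix1])]
  simpa only [Row, h1] using h

lemma row_one (k : ℕ) (z : ℂ) : Row 1 k z (if k = 0 then 1 else 0) := by
  have h : ∀ n, ix k n = 0 ↔ n = 0 ∧ k = 0 := fun n =>
    ⟨fun e => ⟨by rw [← ix0 k n, e]; rfl, by rw [← ix1 k n, e]; rfl⟩,
      fun e => by simp [ix, e.1, e.2]⟩
  have := hasSum_single (f := fun n => ((MvPowerSeries.coeff (ix k n)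
    (1 : MvPowerSeries (Fin 2) ℝ) : ℝ) : ℂ) * z ^ n) 0 fun n hn => by
      simp [MvPowerSeries.coeff_one, h, hn]
  refine (congrArg (fun v => HasSum _ v) ?_).mp this
  simp only [MvPowerSeries.coeff_one, h, true_and]
  split_ifs <;> simp

lemma good_C (z : ℂ) (c : ℝ) : Good z (MvPowerSeries.C c) c := fun φ k v h => by
  simpa only [Row, MvPowerSeries.coeff_C_mul, Complex.ofReal_mul, mul_assoc] using
    HasSum.mul_left (c : ℂ) h

lemma good_one (z : ℂ) : Good z 1 1 := fun φ k v h => by simpa using h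

lemma Good.mul {z a b : ℂ} {A B : MvPowerSeries (Fin 2) ℝ} (h1 : Good z A a) (h2 : Good z B b) :
    Good z (A * B) (a * b) := fun φ k v h => by
  rw [mul_assoc, mul_assoc]
  exact h1 _ _ _ (h2 _ _ _ h)

lemma Good.sub {z a b : ℂ} {A B : MvPowerSeries (Fin 2) ℝ} (h1 : Good z A a) (h2 : Good z B b) :
    Good z (A - B) (a - b) := fun φ k v h => by
  rw [sub_mul, sub_mul]
  exact row_sub (h1 _ _ _ h) (h2 _ _ _ h)

lemma Good.pow {z a : ℂ} {A : MvPowerSeries (Fin 2) ℝ} (h : Good z A a) (n : ℕ) :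
    Good z (A ^ n) (a ^ n) := by
  induction n with
  | zero => simpa using good_one z
  | succ n ih => rw [pow_succ, pow_succ]; exact ih.mul h

open MvPolynomial in
noncomputable def PP : MvPolynomial (Fin 2) ℝ := (1 - X 0) ^ 10

open MvPolynomial in
noncomputable def QQ : MvPolynomial (Fin 2) ℝ :=
  C 256 * (C 2 - X 0) - X 1 * ((C 2 * X 0 - 1) * (C 256 * X 0 ^ 4 - (1 - X 0) ^ 8))

lemma evP (z : Fin 2 → ℂ) : MvPolynomial.aeval z PP = (1 - z 0) ^ 10 := by simp [PP]

lemma evQ (z : Fin 2 → ℂ) : MvPolynomial.aeval z QQ =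
    256 * (2 - z 0) - z 1 * ((2 * z 0 - 1) * (256 * z 0 ^ 4 - (1 - z 0) ^ 8)) := by simp [QQ]

lemma coe_sub' (A B : MvPolynomial (Fin 2) ℝ) :
    ((A - B : MvPolynomial (Fin 2) ℝ) : MvPowerSeries (Fin 2) ℝ) = A - B :=
  map_sub (MvPolynomial.coeToMvPowerSeries.ringHom (σ := Fin 2) (R := ℝ)) A B

lemma Q0 : MvPolynomial.constantCoeff QQ ≠ 0 := by simp [QQ]

lemma relprime : IsRelPrime PP QQ := by
  have hp : Prime (MvPolynomial.X 0 - 1 : MvPolynomial (Fin 2) ℝ) := by
    rw [← MulEquiv.prime_iff (MvPolynomial.finSuccEquiv ℝ 1)]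
    rw [map_sub, MvPolynomial.finSuccEquiv_X_zero, map_one, ← Polynomial.C_1]
    exact Polynomial.prime_X_sub_C _
  have hp' : Prime (1 - MvPolynomial.X 0 : MvPolynomial (Fin 2) ℝ) := by
    rw [← neg_sub]; exact hp.neg
  refine IsRelPrime.pow_left (hp'.irreducible.isRelPrime_iff_not_dvd.mpr ?_)
  rintro ⟨c, hc⟩
  have := congrArg (MvPolynomial.aeval (![1, 0] : Fin 2 → ℂ)) hc
  rw [evQ] at this
  simp at this
  norm_num at this

lemma not_summable : ¬ Summable (fun k : Fin 2 →₀ ℕ => |MvPowerSeries.coeff k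
    ((PP : MvPowerSeries (Fin 2) ℝ) * (QQ : MvPowerSeries (Fin 2) ℝ)⁻¹)|) := by
  intro h
  have hQ : (QQ : MvPowerSeries (Fin 2) ℝ) * (PP * (QQ : MvPowerSeries (Fin 2) ℝ)⁻¹) = PP * 1 := by
    rw [mul_left_comm, MvPowerSeries.mul_inv_cancel _ (by
      rw [← MvPowerSeries.coeff_zero_eq_constantCoeff_apply, MvPolynomial.coeff_coe]
      exact Q0)]
  generalize (PP : MvPowerSeries (Fin 2) ℝ) * (QQ : MvPowerSeries (Fin 2) ℝ)⁻¹ = φ at h hQ
  have h2 : Summable fun e : ℕ × ℕ => |MvPowerSeries.coeff (ix e.1 e.2) φ| :=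
    h.comp_injective (i := fun e : ℕ × ℕ => ix e.1 e.2) fun e e' he => Prod.ext
      (by rw [← ix1 e.1 e.2, ← ix1 e'.1 e'.2]; exact congrArg (· 1) he)
      (by rw [← ix0 e.1 e.2, ← ix0 e'.1 e'.2]; exact congrArg (· 0) he)
  have h3 : ∀ k, Summable fun n => |MvPowerSeries.coeff (ix k n) φ| := h2.prod_factor
  have h4 : Summable fun k => ∑' n, |MvPowerSeries.coeff (ix k n) φ| := h2.prod
  simp only [PP, QQ, coe_sub', MvPolynomial.coe_mul, MvPolynomial.coe_pow, MvPolynomial.coe_C,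
    MvPolynomial.coe_X, MvPolynomial.coe_one] at hQ
  rw [sub_mul, mul_assoc (MvPowerSeries.X 1)] at hQ
  have h5 : ∀ s k, Row φ k (ez s) ((1 - ez s) ^ 10 / (256 * (2 - ez s)) *
      ((2 * ez s - 1) * (256 * ez s ^ 4 - (1 - ez s) ^ 8) / (256 * (2 - ez s))) ^ k) := by
    intro s
    have r : ∀ k, ∃ v, Row φ k (ez s) v := fun k => ⟨_, (Summable.of_norm (by
      simpa [ez_norm] using h3 k)).hasSum⟩
    have g0 := (good_C (ez s) 256).mul ((good_C (ez s) 2).sub (good_X _))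
    have g1 := (((good_C (ez s) 2).mul (good_X _)).sub (good_one _)).mul
      (((good_C (ez s) 256).mul ((good_X _).pow 4)).sub (((good_one _).sub (good_X _)).pow 8))
    have gP := ((good_one (ez s)).sub (good_X _)).pow 10
    simp only [Complex.ofReal_ofNat] at g0 g1
    have d : 256 * (2 - ez s) ≠ 0 := mul_ne_zero (by norm_num) (den2 s)
    intro k
    induction k with
    | zero =>
      obtain ⟨v, hv⟩ := r 0
      have e1 := row_sub (g0 _ _ _ hv) (row_Y0 (((MvPowerSeries.C 2 * MvPowerSeries.X 0 - 1) *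
        (MvPowerSeries.C 256 * MvPowerSeries.X 0 ^ 4 - (1 - MvPowerSeries.X 0) ^ 8)) * φ) _)
      rw [hQ] at e1
      have e2 := HasSum.unique e1 (gP _ _ _ (row_one 0 _))
      rw [pow_zero, mul_one, ← (eq_div_iff d).mpr (show v * _ = _ by
        rw [if_pos rfl] at e2; linear_combination e2)]
      exact hv
    | succ k ih =>
      obtain ⟨v, hv⟩ := r (k + 1)
      have e1 := row_sub (g0 _ _ _ hv) (row_Y1 (g1 _ _ _ ih))
      rw [hQ] at e1
      have e2 := HasSum.unique e1 (gP _ _ _ (row_one (k + 1) _))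
      rw [if_neg (by omega), mul_zero, sub_eq_zero] at e2
      rw [pow_succ _ k, ← mul_assoc, ← mul_div_assoc, ← (eq_div_iff d).mpr (show v * _ = _ by
        linear_combination e2)]
      exact hv
  have h6 : Summable fun k : ℕ => 1 / (10 ^ 9 * ((k + 128 : ℕ) : ℝ)) :=
    Summable.of_nonneg_of_le (fun k => by positivity)
      (fun k => row_lower (k + 128) (by omega) _ (h3 _) fun s => h5 s _)
      ((summable_nat_add_iff 128).mpr h4)
  have h7 := ((summable_nat_add_iff (f := fun k : ℕ => 1 / (10 ^ 9 * (k : ℝ))) 128).mp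
    h6).mul_left (10 ^ 9)
  refine Real.not_summable_one_div_natCast (h7.congr fun k => ?_)
  rw [mul_one_div, ← div_div, div_self (by norm_num)]

lemma cont : ContinuousOn (fun z : Fin 2 → ℂ => MvPolynomial.aeval z PP / MvPolynomial.aeval z QQ)
    {z : Fin 2 → ℂ | ∀ i, ‖z i‖ ≤ 1} := by
  simp only [evP, evQ]
  intro z hz
  by_cases h : 256 * (2 - z 0) - z 1 * ((2 * z 0 - 1) * (256 * z 0 ^ 4 - (1 - z 0) ^ 8)) = 0
  · have h1 := Q_lower _ _ (hz 0) (hz 1)
    rw [h, norm_zero] at h1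
    have h2 : ‖1 - z 0‖ = 0 := pow_eq_zero_iff (by norm_num : 8 ≠ 0) |>.mp
      (le_antisymm h1 (by positivity))
    rw [ContinuousWithinAt, h, div_zero]
    refine squeeze_zero_norm' (a := fun y => ‖1 - y 0‖ ^ 2)
      (eventually_nhdsWithin_of_forall fun y hy => ?_) ?_
    · have h3 := Q_lower _ _ (hy 0) (hy 1)
      rw [norm_div, norm_pow]
      refine div_le_of_le_mul₀ (norm_nonneg _) (by positivity) ?_
      calc ‖1 - y 0‖ ^ 10 = ‖1 - y 0‖ ^ 2 * ‖1 - y 0‖ ^ 8 := by ring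
        _ ≤ _ := mul_le_mul_of_nonneg_left h3 (by positivity)
    · have : Continuous fun y : Fin 2 → ℂ => ‖1 - y 0‖ ^ 2 := by fun_prop
      have h3 := this.tendsto z
      rw [h2, zero_pow two_ne_zero] at h3
      exact h3.mono_left nhdsWithin_le_nhds
  · exact (ContinuousAt.div (f := fun z : Fin 2 → ℂ => (1 - z 0) ^ 10)
      (g := fun z : Fin 2 → ℂ =>
        256 * (2 - z 0) - z 1 * ((2 * z 0 - 1) * (256 * z 0 ^ 4 - (1 - z 0) ^ 8)))
      (Continuous.continuousAt (by fun_prop)) (Continuous.continuousAt (by fun_prop))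
      h).continuousWithinAt

/-- The negation of the preceding statement: For real coprime polynomials P, Q in n variables with Q(0)≠0 and finitely many common zeros on the unit torus, the Taylor coefficients of P/Q at 0 are absolutely summable iff P/Q on the open unit polydisk extends continuously to the closed polydisk. -/
theorem result :
    ¬ (∀ (n : ℕ) (P Q : MvPolynomial (Fin n) ℝ),
      IsRelPrime P Q →
      MvPolynomial.constantCoeff Q ≠ 0 →
      {z : Fin n → ℂ | (∀ i, ‖z i‖ = 1) ∧ MvPolynomial.aeval z P = 0 ∧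
          MvPolynomial.aeval z Q = 0}.Finite →
      (Summable (fun k : Fin n →₀ ℕ =>
          |MvPowerSeries.coeff k
            ((P : MvPowerSeries (Fin n) ℝ) * (Q : MvPowerSeries (Fin n) ℝ)⁻¹)|) ↔
        ∃ F : (Fin n → ℂ) → ℂ,
          ContinuousOn F {z : Fin n → ℂ | ∀ i, ‖z i‖ ≤ 1} ∧
          ∀ z : Fin n → ℂ, (∀ i, ‖z i‖ < 1) → MvPolynomial.aeval z Q ≠ 0 →
            F z = MvPolynomial.aeval z P / MvPolynomial.aeval z Q)) := by
  intro h
  refine not_summable ((h 2 PP QQ relprime Q0 ?_).mpr ⟨_, cont, fun z _ _ => rfl⟩)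
  refine (Set.finite_singleton fun _ => (1 : ℂ)).subset ?_
  rintro z ⟨-, h1, h2⟩
  rw [evP] at h1
  rw [evQ] at h2
  have h3 : z 0 = 1 := (sub_eq_zero.mp (pow_eq_zero_iff (by norm_num) |>.mp h1)).symm
  rw [h3] at h2
  have h4 : z 1 = 1 := by linear_combination (-1 / 256 : ℂ) * h2
  funext i
  fin_cases i
  · exact h3
  · exact h4

end Pool.Agent.S05632
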