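import Pool.Statements.S05635

set_option autoImplicit false
open scoped ContDiff
open Pool Pool.MP_a1b43b_an

namespace Pool.Agent.S05635

open Real

lemma hurw {a b c : ℝ} (ha : 0 < a) (hc : 0 < c) (h : c < a * b) {z : ℂ}
    (e : z ^ 3 + a * z ^ 2 + b * z + c = 0) : z.re < 0 := not_le.1 fun hp => by
  have hb : 0 < b := (pos_iff_pos_of_mul_pos (hc.trans h)).1 ha
  have e1 := congrArg Complex.re e
  have e2 := congrArg Complex.im e
  simp [pow_succ] at e1 e2
  set p := z.re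
  set q := z.im
  have : q * (3 * p ^ 2 - q ^ 2 + 2 * a * p + b) = 0 := by linarith
  rcases mul_eq_zero.1 this with h0 | h0
  · rw [h0] at e1
    have : 0 < p ^ 3 + a * p ^ 2 + b * p + c := by positivity
    linarith
  · have : 0 ≤ 8 * p ^ 3 + 8 * a * p ^ 2 + 2 * (a ^ 2 + b) * p := by positivity
    have : 8 * p ^ 3 + 8 * a * p ^ 2 + 2 * (a ^ 2 + b) * p + (a * b - c) = 0 := by
      linear_combination (3 * p + a) * h0 - e1
    linarith

/-- radial rate -/
noncomputable def al (p : Fin 3 → ℝ) : ℝ :=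
  -1 / 10 + (p 0 ^ 2 + p 1 ^ 2) * ((1 + (p 0 ^ 2 + p 1 ^ 2))⁻¹) ^ 2 * (1 + p 2 ^ 2)⁻¹ / 2

/-- the field -/
noncomputable def F (p : Fin 3 → ℝ) : Fin 3 → ℝ :=
  ![al p * p 0 - exp (arctan (p 2) + 5) * p 1, exp (arctan (p 2) + 5) * p 0 + al p * p 1,
    -p 2 - (p 0 ^ 2 + p 1 ^ 2) * (1 + (p 0 ^ 2 + p 1 ^ 2))⁻¹]

lemma jac (p : Fin 3 → ℝ) (x y z m l w a : ℝ) (hx : x = p 0) (hy : y = p 1) (hz : z = p 2)
    (hm : m = (1 + (x ^ 2 + y ^ 2))⁻¹) (hl : l = (1 + z ^ 2)⁻¹) (hw : w = exp (arctan z + 5))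
    (ha : a = al p) : LinearMap.toMatrix' (fderiv ℝ F p).toLinearMap =
    !![a + x ^ 2 * (l * m ^ 2 * (2 * m - 1)), x * y * (l * m ^ 2 * (2 * m - 1)) - w,
      -x * ((1 - m) * m * z * l ^ 2) - w * l * y;
      w + x * y * (l * m ^ 2 * (2 * m - 1)), a + y ^ 2 * (l * m ^ 2 * (2 * m - 1)),
      w * l * x - y * ((1 - m) * m * z * l ^ 2);
      -2 * x * m ^ 2, -2 * y * m ^ 2, -1] := by
  have X := fun i => hasFDerivAt_apply (𝕜 := ℝ) i p
  have S := ((X 0).pow 2).add ((X 1).pow 2)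
  have n1 : 1 + (p 0 ^ 2 + p 1 ^ 2) ≠ 0 := by positivity
  have n2 : 1 + p 2 ^ 2 ≠ 0 := by positivity
  have M := (hasDerivAt_inv n1).comp_hasFDerivAt p (S.const_add 1)
  have L := (hasDerivAt_inv n2).comp_hasFDerivAt p (((X 2).pow 2).const_add 1)
  have W := (((hasDerivAt_arctan (p 2)).comp_hasFDerivAt p (X 2)).add_const 5).exp
  have A : HasFDerivAt al _ p := (((S.mul (M.pow 2)).mul L).mul_const 2⁻¹).const_add (-1 / 10)
  have B0 : HasFDerivAt (fun p => F p 0) _ p := (A.mul (X 0)).sub (W.mul (X 1))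
  have B1 : HasFDerivAt (fun p => F p 1) _ p := (W.mul (X 0)).add (A.mul (X 1))
  have B2 : HasFDerivAt (fun p => F p 2) _ p := (X 2).neg.sub (S.mul M)
  have D : DifferentiableAt ℝ F p := differentiableAt_pi.2 fun i => by
    fin_cases i
    exacts [B0.differentiableAt, B1.differentiableAt, B2.differentiableAt]
  have E : ∀ i v, fderiv ℝ F p v i = fderiv ℝ (fun p => F p i) p v := fun i v => by
    rw [fderiv_apply D]; rfl
  subst hx hy hz hm hl hw ha
  ext i j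
  rw [LinearMap.toMatrix'_apply, ContinuousLinearMap.coe_coe, E]
  fin_cases i <;> fin_cases j <;> simp [B0.fderiv, B1.fderiv, B2.fderiv] <;> field_simp <;> ring

/-- There is a C^∞ vector field F on R^3 with F(0)=0, all complex eigenvalues of its Jacobian at every point having negative real part, and a non-constant periodic solution of x' = F(x). -/
theorem result :
    ∃ F : (Fin 3 → ℝ) → (Fin 3 → ℝ),
      ContDiff ℝ ∞ F ∧ F 0 = 0 ∧
      (∀ (x : Fin 3 → ℝ) (z : ℂ),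
        Polynomial.aeval z
            (LinearMap.toMatrix' (fderiv ℝ F x).toLinearMap).charpoly = 0 →
          z.re < 0) ∧
      ∃ γ : ℝ → (Fin 3 → ℝ), ∃ T : ℝ, 0 < T ∧
        (∀ t : ℝ, HasDerivAt γ (F (γ t)) t) ∧
        (∀ t : ℝ, γ (t + T) = γ t) ∧
        ∃ t : ℝ, γ t ≠ γ 0 := by
  refine ⟨F, contDiff_pi.2 fun i => ?_, ?_, fun p z h => ?_, fun t => ![cos (exp (arctan (-1 / 2) + 5) * t),
    sin (exp (arctan (-1 / 2) + 5) * t), -1 / 2], 2 * π / exp (arctan (-1 / 2) + 5), by positivity,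
    fun t => hasDerivAt_pi.2 fun i => ?_, fun t => ?_, π / exp (arctan (-1 / 2) + 5), fun h => ?_⟩
  · have : ContDiff ℝ ∞ arctan := contDiff_arctan
    have : ContDiff ℝ ∞ al := by unfold al; fun_prop (disch := intro; positivity)
    fin_cases i <;> simp [F] <;> fun_prop (disch := intro; positivity)
  · ext i; fin_cases i <;> simp [F]
  · obtain ⟨m, hm⟩ : ∃ m, m = (1 + (p 0 ^ 2 + p 1 ^ 2))⁻¹ := ⟨_, rfl⟩
    obtain ⟨l, hl⟩ : ∃ l, l = (1 + p 2 ^ 2)⁻¹ := ⟨_, rfl⟩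
    obtain ⟨w, hw⟩ : ∃ w, w = exp (arctan (p 2) + 5) := ⟨_, rfl⟩
    rw [jac p _ _ _ m l w _ rfl rfl rfl hm hl hw rfl] at h
    have m0 : 0 < m := by rw [hm]; positivity
    have l0 : 0 < l := by rw [hl]; positivity
    have e1 : (p 0 ^ 2 + p 1 ^ 2) * m = 1 - m := by rw [hm]; field_simp; ring
    have e2 : p 2 ^ 2 * l = 1 - l := by rw [hl]; field_simp; ring
    have m1 : 0 ≤ 1 - m := by rw [← e1]; positivity
    have l1 : 0 ≤ 1 - l := by rw [← e2]; positivity
    have w4 : 4 ≤ w := by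
      linarith [add_one_le_exp (arctan (p 2) + 5), neg_pi_div_two_lt_arctan (p 2), pi_le_four]
    obtain ⟨r, hr⟩ : ∃ r, r = (1 - m) * m * l := ⟨_, rfl⟩
    obtain ⟨g, hg⟩ : ∃ g, g = 2 * r ^ 2 * p 2 := ⟨_, rfl⟩
    have ha : al p = -1 / 10 + r / 2 := by rw [hr, al, ← hm, ← hl, ← e1]; ring
    have r0 : 0 ≤ r := by rw [hr]; positivity
    have r1 : r ≤ l / 4 := by rw [hr]; nlinarith [sq_nonneg (2 * m - 1)]
    have g1 : |g| ≤ 1 / 4 := by
      have : |p 2| * l ≤ 1 := by nlinarith [sq_abs (p 2), sq_nonneg (|p 2| - 1)]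
      have : r * |p 2| ≤ 1 / 4 := by nlinarith [abs_nonneg (p 2)]
      rw [hg, abs_mul, abs_of_nonneg (by positivity)]; nlinarith
    obtain ⟨g1, g2⟩ := abs_le.1 g1
    obtain ⟨b, hb⟩ : ∃ b, b = r * (2 * m - 1) := ⟨_, rfl⟩
    have b1 : b ≤ r := by nlinarith
    have b2 : -r ≤ b := by nlinarith
    have w2 : 16 ≤ w ^ 2 := by nlinarith
    rw [ha] at h
    set a := -1 / 10 + r / 2 with ha
    have a1 : -1 / 10 ≤ a := by linarith
    have a2 : a ≤ 1 / 10 := by linarith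
    have c1 : |a * (a + b + g)| ≤ 1 / 10 * 1 := by
      rw [abs_mul]; gcongr <;> rw [abs_le] <;> constructor <;> linarith
    have c2 : |(a + b) * a - (a + b) - g - a| ≤ 1 := by rw [abs_le]; constructor <;> nlinarith
    obtain ⟨c1, c3⟩ := abs_le.1 c1
    obtain ⟨c2, c4⟩ := abs_le.1 c2
    refine hurw (a := 1 - 2 * a - b) (b := w ^ 2 + ((a + b) * a - (a + b) - g - a))
      (c := w ^ 2 * (1 - 2 * r) + a * (a + b + g)) (by linarith) (by nlinarith) (by nlinarith) ?_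
    rw [← h, Matrix.charpoly, Matrix.det_fin_three]
    simp
    have e1' := congrArg Complex.ofReal e1
    rw [hb, hg, hr]
    push_cast at e1' ⊢
    linear_combination (z ^ 2 * (l * m * (2 * m - 1)) - z * ((a - 1) * (l * m * (2 * m - 1)) -
      2 * m * ((1 - m) * m * p 2 * l ^ 2)) - a * (l * m * (2 * m - 1) +
      2 * m * ((1 - m) * m * p 2 * l ^ 2)) + 2 * w ^ 2 * m * l) * e1'
  · have c := (hasDerivAt_id t).const_mul (exp (arctan (-1 / 2) + 5))
    fin_cases i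
    · exact c.cos.congr_deriv (by simp [F, al]; ring)
    · exact c.sin.congr_deriv (by simp [F, al]; ring)
    · exact (hasDerivAt_const t (-1 / 2 : ℝ)).congr_deriv (by simp [F]; norm_num)
  · simp only [mul_add, mul_div_cancel₀ _ (exp_ne_zero _), cos_add_two_pi, sin_add_two_pi]
  · have := congrFun h 0
    simp [mul_div_cancel₀] at this
    norm_num at this

end Pool.Agent.S05635
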