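import Pool.Statements.S05651
import Pool.Agent.H21.Wid3

set_option autoImplicit false
open MeasureTheory Filter
open Pool Pool.MP_a2ac39_an

namespace Pool.Agent.S05651

open Pool.Agent.H21.Wid

/-- There is an atomless compactly supported probability measure on ℂ, mutually singular with the equilibrium measure of its support, whose L² monic-polynomial Widom factors ‖P_n‖/cap^n stay eventually above a positive constant. -/
theorem result :
  ∃ (μ : Measure ℂ) (K : Set ℂ) (ν : Measure ℂ),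
    IsProbabilityMeasure μ ∧ NoAtoms μ ∧
    IsCompact K ∧ μ Kᶜ = 0 ∧
    (∀ U : Set ℂ, IsOpen U → (U ∩ K).Nonempty → 0 < μ U) ∧
    IsProbabilityMeasure ν ∧ ν Kᶜ = 0 ∧ NoAtoms ν ∧
    Integrable (fun p : ℂ × ℂ => Real.log ‖p.1 - p.2‖) (ν.prod ν) ∧
    (∀ ρ : Measure ℂ, IsProbabilityMeasure ρ → ρ Kᶜ = 0 → NoAtoms ρ →
      Integrable (fun p : ℂ × ℂ => Real.log ‖p.1 - p.2‖) (ρ.prod ρ) →
      ∫ p, Real.log ‖p.1 - p.2‖ ∂(ρ.prod ρ) ≤ ∫ p, Real.log ‖p.1 - p.2‖ ∂(ν.prod ν)) ∧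
    μ.MutuallySingular ν ∧
    ∃ c : ℝ, 0 < c ∧ ∀ᶠ n : ℕ in atTop,
      c ≤ (⨅ P : {P : Polynomial ℂ // P.Monic ∧ P.natDegree = n},
            Real.sqrt (∫ z, ‖P.1.eval z‖ ^ 2 ∂μ)) /
          Real.exp (∫ p, Real.log ‖p.1 - p.2‖ ∂(ν.prod ν)) ^ n := by
  refine ⟨mu, mu.support, arc, inferInstance, (inferInstance : NullSingletonClass mu),
    supp_compact, Measure.measure_compl_support, ?_, inferInstance, arc_supp,
    (inferInstance : NullSingletonClass arc), arc_prod_int, ?_, sing, 1, one_pos, ?_⟩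
  · rintro U hU ⟨x, hxU, hx⟩
    exact (Measure.mem_support_iff_forall x).1 hx U (hU.mem_nhds hxU)
  · intro ρ h1 hK h2 hi
    have h3 : NullSingletonClass ρ := h2
    rw [arc_energy]
    exact energy_le ρ (on_circle ρ hK hi) hi
  · filter_upwards [eventually_ge_atTop 9] with n hn
    rw [arc_energy, Real.exp_zero, one_pow, div_one]
    have : Nonempty {P : Polynomial ℂ // P.Monic ∧ P.natDegree = n} :=
      ⟨⟨Polynomial.X ^ n, Polynomial.monic_X_pow n, by simp⟩⟩
    refine le_ciInf fun P => ?_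
    exact Real.one_le_sqrt.2 (mu_low P.1 P.2.1 (by rw [P.2.2]; exact hn))

end Pool.Agent.S05651
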