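import Pool.Statements.S05690
import Pool.Agent.H9.Hyper

set_option autoImplicit false
open Pool Pool.MP_a56edf_an

namespace Pool.Agent.S05690

/-- The negation of the preceding statement: Let E be a separable real or complex Banach space and λ ≥ 1. Suppose for every δ > 0, compact Q and ε > 0, some finite-rank projection of norm ≤ λ+δ is within ε of the identity on Q. Then the same holds with norm ≤ λ. -/
theorem result :
    ¬ (∀ (𝕜 : Type) [RCLike 𝕜] (E : Type) [NormedAddCommGroup E] [NormedSpace 𝕜 E]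
      [CompleteSpace E] [TopologicalSpace.SeparableSpace E] (lam : ℝ), 1 ≤ lam →
      (∀ δ : ℝ, 0 < δ → ∀ Q : Set E, IsCompact Q → ∀ ε : ℝ, 0 < ε →
        ∃ u : E →L[𝕜] E, FiniteDimensional 𝕜 (LinearMap.range (u : E →ₗ[𝕜] E)) ∧
          u.comp u = u ∧ ‖u‖ ≤ lam + δ ∧ ∀ x ∈ Q, ‖u x - x‖ ≤ ε) →
      (∀ Q : Set E, IsCompact Q → ∀ ε : ℝ, 0 < ε →
        ∃ u : E →L[𝕜] E, FiniteDimensional 𝕜 (LinearMap.range (u : E →ₗ[𝕜] E)) ∧
          u.comp u = u ∧ ‖u‖ ≤ lam ∧ ∀ x ∈ Q, ‖u x - x‖ ≤ ε)) := by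
  intro h
  have : TopologicalSpace.SeparableSpace H9.Hyper.H := TopologicalSpace.isSeparable_univ_iff.1
    (((Set.countable_range (H9.Hyper.b 0)).isSeparable.span (R := ℝ)).closure.mono fun x _ => by
      obtain ⟨a, ha, -⟩ := H9.Hyper.basis 0 x
      exact mem_closure_of_tendsto ha (.of_forall fun n => Submodule.sum_mem _ fun i _ =>
        Submodule.smul_mem _ _ (Submodule.subset_span ⟨i, rfl⟩)))
  obtain ⟨u, h1, h2, h3, h4⟩ := h ℝ H9.Hyper.H 1 le_rfl (fun δ hδ Q hQ ε hε => by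
    let P : ℕ → H9.Hyper.H →ₗ[ℝ] H9.Hyper.H := fun k =>
      { toFun := fun x => ∑ j ∈ Finset.range k, x.1 (j + 1) • H9.Hyper.b 0 j
        map_add' := fun x y => (Finset.sum_congr rfl fun j _ => add_smul (x.1 (j + 1)) (y.1 (j + 1)) _).trans
          Finset.sum_add_distrib
        map_smul' := fun c x => (Finset.sum_congr rfl fun j _ => mul_smul _ _ _).trans
          Finset.smul_sum.symm }
    have e1 : ∀ k x, H9.Hyper.Form 0 k (P k x) := fun k x => H9.Hyper.form 0 _ k
    have e2 : ∀ k x i, 0 < i → i ≤ k → (P k x).1 i = x.1 i := fun k x i h0 hi => by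
      obtain ⟨i, rfl⟩ := Nat.exists_eq_add_one_of_ne_zero h0.ne'
      refine (H9.Hyper.stab 0 _ hi _ h0 le_rfl).symm.trans ?_
      rw [H9.Hyper.succ_apply, H9.Hyper.b_apply, H9.Hyper.form 0 _ i _ i.lt_succ_self]
      simp
    have e3 : ∀ k x, ‖P k x‖ ≤ (1 + 3 * H9.Hyper.w (k + 1)) * ‖x‖ := fun k x =>
      H9.Hyper.key (fun i hi => by
        rw [e1 k x i hi, if_neg (by omega), if_neg (by omega)]) (e2 k x)
    obtain ⟨t, -, e4, e5⟩ := finite_cover_balls_of_compact hQ
      (show 0 < ε / 2 / (2 + δ) by positivity)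
    obtain ⟨k, e6, e7⟩ := ((((H9.Hyper.w_zero.comp (Filter.tendsto_add_atTop_nat 1)).const_mul 3
      ).eventually_lt_const (show _ < δ by simpa using hδ)).and ((Filter.eventually_all_finite e4).2
        fun y _ => Metric.tendsto_nhds.1 (H9.Hyper.conv (fun k => e1 k y) fun k => e2 k y) _
          (half_pos hε))).exists
    have e8 : ∀ x, ‖P k x‖ ≤ (1 + δ) * ‖x‖ := fun x => (e3 k x).trans
      (mul_le_mul_of_nonneg_right (add_le_add_right e6.le _) (norm_nonneg _))
    have : FiniteDimensional ℝ (Submodule.span ℝ (H9.Hyper.b 0 '' Finset.range k)) :=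
      FiniteDimensional.span_of_finite _ ((Finset.finite_toSet _).image _)
    refine ⟨(P k).mkContinuous _ e8, Submodule.finiteDimensional_of_le
      (S₂ := Submodule.span ℝ (H9.Hyper.b 0 '' Finset.range k)) ?_, ?_,
      LinearMap.mkContinuous_norm_le _ (by positivity) _, fun x hx => ?_⟩
    · rintro _ ⟨x, rfl⟩
      exact Submodule.sum_mem _ fun i hi =>
        Submodule.smul_mem _ _ (Submodule.subset_span (Set.mem_image_of_mem _ hi))
    · ext1 x
      exact Finset.sum_congr rfl fun j hj => congrArg (· • H9.Hyper.b 0 j)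
        (e2 k x _ j.succ_pos (Finset.mem_range.1 hj))
    · obtain ⟨y, e9, e10⟩ := Set.mem_iUnion₂.1 (e5 hx)
      have e11 := (lt_div_iff₀ (by positivity)).1 (mem_ball_iff_norm.1 e10)
      have e12 := e8 (x - y)
      have e13 := (dist_eq_norm _ _).symm.trans_lt (e7 y e9)
      have e14 := norm_add₃_le (a := P k (x - y)) (b := P k y - y) (c := -(x - y))
      rw [norm_neg, show P k (x - y) + (P k y - y) + -(x - y) = P k x - x by
        rw [map_sub]; abel] at e14
      show ‖P k x - x‖ ≤ ε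
      linarith) {H9.Hyper.x0, H9.Hyper.x1} (Set.toFinite _).isCompact (1 / 40) (by norm_num)
  exact H9.Hyper.no_proj u (DFunLike.congr_fun h2) (fun x => (u.le_opNorm x).trans
    (mul_le_of_le_one_left (norm_nonneg _) h3)) (h4 _ (Or.inl rfl)) (h4 _ (Or.inr rfl))

end Pool.Agent.S05690
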