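import Pool.Statements.S05730
import Pool.Agent.H7.Erg2

set_option autoImplicit false
open MeasureTheory
open Pool Pool.MP_a7cd30_an

namespace Pool.Agent.S05730

open Pool.Agent.H7.Erg Set Filter Topology in
lemma top_eq : (⨅ (A : Set ℝ) (_ : MeasurableSet A) (B : Set ℝ) (_ : MeasurableSet B),
    TopologicalSpace.induced (fun T : G => (mu ((⇑T.1) ⁻¹' A ∩ B)).toReal)
      (inferInstance : TopologicalSpace ℝ)) = TopologicalSpace.induced emb inferInstance := by
  apply le_antisymm
  · let τ : TopologicalSpace G := ⨅ (A : Set ℝ) (_ : MeasurableSet A) (B : Set ℝ)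
      (_ : MeasurableSet B), TopologicalSpace.induced
        (fun T : G => (mu ((⇑T.1) ⁻¹' A ∩ B)).toReal) (inferInstance : TopologicalSpace ℝ)
    have hc : ∀ A B, MeasurableSet A → MeasurableSet B →
        Continuous fun T : G => mu.real ((⇑T.1) ⁻¹' A ∩ B) := fun A B hA hB =>
      continuous_iff_le_induced.2 (iInf₂_le_of_le A hA (iInf₂_le B hB))
    change τ ≤ _
    rw [← continuous_iff_le_induced, continuous_iff_continuousAt]
    intro S
    refine Tendsto.prodMk_nhds ?_ ?_ <;> rw [tendsto_iff_dist_tendsto_zero]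
    · refine Tendsto.congr (fun T => (dist_eq _ _ (emb1 T) (emb1 S)).symm) ?_
      exact D_of_weak (fun T : G => T.mp) S.mp fun A hA =>
        (hc A _ hA (S.mp.measurable hA)).tendsto S
    · refine Tendsto.congr (fun T => (dist_eq _ _ (emb2 T) (emb2 S)).symm) ?_
      refine D_of_weak (fun T : G => T.mps) S.mps fun A hA => ?_
      have e : ∀ T : G, mu.real (T.1.symm ⁻¹' A ∩ S.1.symm ⁻¹' A)
          = mu.real (T.1 ⁻¹' (S.1.symm ⁻¹' A) ∩ A) := fun T => by
        rw [← T.mp.measureReal_preimage
          ((T.mps.measurable hA).inter (S.mps.measurable hA)).nullMeasurableSet]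
        congr 1
        ext x
        simp [and_comm]
      simp only [e]
      exact (hc _ A (S.mps.measurable hA) hA).tendsto S
  · refine le_iInf₂ fun A hA => le_iInf₂ fun B hB => ?_
    let : PseudoMetricSpace G := PseudoMetricSpace.induced emb inferInstance
    refine continuous_iff_le_induced.1 (Metric.continuous_iff.2 fun S ε hε => ?_)
    obtain ⟨C, hC, H⟩ := weak_of_D hA hB (half_pos hε)
    refine ⟨ε / 2 / (C + 1), by positivity, fun T hT => ?_⟩
    have a : D T.1 S.1 ≤ dist T S := by
      rw [← dist_eq _ _ (emb1 T) (emb1 S)]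
      exact le_max_left _ _
    have b := H T.1 S.1 T.mp S.mp
    rw [lt_div_iff₀ (by positivity)] at hT
    have c := D_nonneg T.1 S.1
    refine lt_of_le_of_lt b ?_
    nlinarith [mul_le_mul_of_nonneg_left a hC, dist_nonneg (x := T) (y := S)]

/-- The negation of the preceding statement: Give measure-preserving automorphisms of [0,1] the weak topology. Then for every compact set K of them, the set of all automorphisms a.e. equal to some conjugate R⁻¹SR with S in K is meagre. -/
theorem result :
    ¬ (∀ τ : TopologicalSpace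
        {e : ℝ ≃ᵐ ℝ // MeasurePreserving (⇑e) (volume.restrict (Set.Icc (0:ℝ) 1))
          (volume.restrict (Set.Icc (0:ℝ) 1))},
      τ = (⨅ (A : Set ℝ) (_ : MeasurableSet A) (B : Set ℝ) (_ : MeasurableSet B),
            TopologicalSpace.induced
              (fun T : {e : ℝ ≃ᵐ ℝ // MeasurePreserving (⇑e) (volume.restrict (Set.Icc (0:ℝ) 1))
                  (volume.restrict (Set.Icc (0:ℝ) 1))} =>
                ((volume.restrict (Set.Icc (0:ℝ) 1)) ((⇑T.1) ⁻¹' A ∩ B)).toReal)
              (inferInstance : TopologicalSpace ℝ)) →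
      ∀ K : Set {e : ℝ ≃ᵐ ℝ // MeasurePreserving (⇑e) (volume.restrict (Set.Icc (0:ℝ) 1))
          (volume.restrict (Set.Icc (0:ℝ) 1))},
        @IsCompact _ τ K →
        @IsMeagre _ τ
          {T : {e : ℝ ≃ᵐ ℝ // MeasurePreserving (⇑e) (volume.restrict (Set.Icc (0:ℝ) 1))
              (volume.restrict (Set.Icc (0:ℝ) 1))} |
            ∃ R S : {e : ℝ ≃ᵐ ℝ // MeasurePreserving (⇑e) (volume.restrict (Set.Icc (0:ℝ) 1))
                (volume.restrict (Set.Icc (0:ℝ) 1))},
              S ∈ K ∧
              Filter.EventuallyEq (ae (volume.restrict (Set.Icc (0:ℝ) 1)))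
                (⇑T.1) (fun x => R.1.symm (S.1 (R.1 x)))}) := by
  intro H
  let : PseudoMetricSpace H7.Erg.G := PseudoMetricSpace.induced H7.Erg.emb inferInstance
  have ui : IsUniformInducing H7.Erg.emb := ⟨rfl⟩
  have : CompleteSpace H7.Erg.G := ui.completeSpace H7.Erg.closed_range.isComplete
  have h := H _ top_eq.symm (H7.Erg.emb ⁻¹' (H7.Erg.SS ×ˢ H7.Erg.SS))
    (ui.isInducing.isCompact_preimage H7.Erg.closed_range (H7.Erg.cpt_SS.prod H7.Erg.cpt_SS))
  obtain ⟨T, hT⟩ := @Dense.nonempty H7.Erg.G _ _ ⟨⟨MeasurableEquiv.refl ℝ, MeasurePreserving.id _⟩⟩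
    (dense_of_mem_residual h)
  obtain ⟨R, S, h1, h2⟩ := H7.Erg.conj T
  exact hT ⟨R, S, h1, Filter.Eventually.of_forall h2⟩

end Pool.Agent.S05730
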