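import Pool.Statements.S05779
import Pool.Agent.H4.Sum1

set_option autoImplicit false
open Pool Pool.MP_abc713_an

namespace Pool.Agent.S05779

/-- There is a bounded operator T on a nonzero separable real or complex Banach space such that every vector is a sum of two vectors whose orbits visit each nonempty open set with positive lower density. -/
theorem result :
    ∃ (𝕜 : Type) (_ : RCLike 𝕜) (X : Type) (_ : NormedAddCommGroup X)
      (_ : NormedSpace 𝕜 X) (_ : CompleteSpace X)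
      (_ : TopologicalSpace.SeparableSpace X) (_ : Nontrivial X)
      (T : X →L[𝕜] X),
      ∀ x : X, ∃ y z : X, x = y + z ∧
        (∀ U : Set X, IsOpen U → U.Nonempty →
          ∃ δ : ℝ, 0 < δ ∧ ∀ᶠ N : ℕ in Filter.atTop,
            δ * (N : ℝ) ≤ (({n : ℕ | n < N ∧ (T ^ n) y ∈ U}.ncard : ℕ) : ℝ)) ∧
        (∀ U : Set X, IsOpen U → U.Nonempty →
          ∃ δ : ℝ, 0 < δ ∧ ∀ᶠ N : ℕ in Filter.atTop,
            δ * (N : ℝ) ≤ (({n : ℕ | n < N ∧ (T ^ n) z ∈ U}.ncard : ℕ) : ℝ)) := by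
  obtain ⟨σ, hσ⟩ := exists_surjective_nat (H4.Dust.Tg × ℕ × Bool)
  refine ⟨ℂ, inferInstance, H4.Sum.X, inferInstance, inferInstance, inferInstance, H4.Sum.sepX,
    H4.Sum.ntX, H4.Sum.T, fun x => ?_⟩
  obtain ⟨y, z, h, hy, hz⟩ := H4.Sum.split σ x
  exact ⟨y, z, h, H4.Sum.fhc σ hσ y true hy, H4.Sum.fhc σ hσ z false hz⟩

end Pool.Agent.S05779
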