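import Pool.Statements.S05788
import Pool.Agent.H19.LinDim3
-- import your own Pool.Agent.* helpers here

set_option autoImplicit false
open Pool Pool.MP_aca27d_an

namespace Pool.Agent.S05788

open Filter Topology Pool.Agent.H19.LinDim

noncomputable def PE : ℕ → ℝ →L[ℝ] ℝ := fun _ => ContinuousLinearMap.id ℝ ℝ

noncomputable def u (j : ℕ) : Circle := TopologicalSpace.denseSeq Circle (Nat.unpair (j / 2)).1

noncomputable def PF : ℕ → ℂ →L[ℝ] ℂ := fun j =>
  if Even j then ContinuousLinearMap.id ℝ ℂ else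
    Complex.ofRealCLM.comp (Complex.reCLM.comp (ContinuousLinearMap.mul ℝ ℂ (u j)))

lemma PF_even {j : ℕ} (h : Even j) (z : ℂ) : PF j z = z := by simp [PF, h]

lemma PF_odd {j : ℕ} (h : ¬ Even j) (z : ℂ) : ‖PF j z‖ = |((u j : ℂ) * z).re| := by
  simp only [PF, if_neg h, ContinuousLinearMap.comp_apply, Complex.ofRealCLM_apply,
    Complex.norm_real, Complex.reCLM_apply, ContinuousLinearMap.mul_apply', Real.norm_eq_abs]

lemma hPE (j : ℕ) (v : ℝ) : ‖PE j v‖ ≤ ‖v‖ := le_rfl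

lemma hPF (j : ℕ) (z : ℂ) : ‖PF j z‖ ≤ ‖z‖ := by
  by_cases h : Even j
  · rw [PF_even h]
  · rw [PF_odd h]
    simpa using Complex.abs_re_le_norm ((u j : ℂ) * z)

lemma freq_even : ∃ᶠ j : ℕ in atTop, Even j :=
  frequently_atTop.2 fun n => ⟨2 * n, by omega, by simp⟩

lemma PF_low (j : ℕ) (z : ℂ) : ‖z‖ ≤ ‖PF j z‖ + ‖PF j (Complex.I * z)‖ := by
  by_cases h : Even j
  · rw [PF_even h]; linarith [norm_nonneg (PF j (Complex.I * z))]
  · rw [PF_odd h, PF_odd h]
    have h1 := Complex.norm_le_abs_re_add_abs_im ((u j : ℂ) * z)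
    have h2 : ((u j : ℂ) * (Complex.I * z)).re = -((u j : ℂ) * z).im := by simp; ring
    rw [h2, abs_neg]
    simpa using h1

lemma freq_small (a : ℂ) (ε : ℝ) (hε : 0 < ε) : ∃ᶠ j in atTop, ‖PF j a‖ ≤ ε := by
  obtain ⟨z, hz⟩ : ∃ z : Circle, ((z : ℂ) * a).re = 0 := by
    refine ⟨Circle.exp (Real.pi / 2 - a.arg), ?_⟩
    have h : ((Circle.exp (Real.pi / 2 - a.arg) : Circle) : ℂ) * a = ‖a‖ * Complex.I := by
      conv_lhs => rw [Circle.coe_exp]; arg 2; rw [← Complex.norm_mul_exp_arg_mul_I a]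
      rw [mul_left_comm, ← Complex.exp_add]
      congr 1
      refine Eq.trans ?_ Complex.exp_pi_div_two_mul_I
      congr 1; push_cast; ring
    rw [h]; simp
  obtain ⟨k, hk⟩ := Metric.denseRange_iff.1 (TopologicalSpace.denseRange_denseSeq Circle) z
    (ε / (‖a‖ + 1)) (by positivity)
  refine frequently_atTop.2 fun n => ⟨2 * Nat.pair k n + 1, by have := Nat.right_le_pair k n; omega, ?_⟩
  rw [PF_odd (by simp [parity_simps])]
  have e : u (2 * Nat.pair k n + 1) = TopologicalSpace.denseSeq Circle k := by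
    rw [u, show (2 * Nat.pair k n + 1) / 2 = Nat.pair k n by omega, Nat.unpair_pair]
  rw [e]
  set y := TopologicalSpace.denseSeq Circle k
  have h1 : ((y : ℂ) * a).re = (((y : ℂ) - z) * a).re := by rw [sub_mul, Complex.sub_re, hz, sub_zero]
  have h2 : ‖(y : ℂ) - z‖ < ε / (‖a‖ + 1) := by
    rw [← dist_eq_norm, dist_comm]; exact hk
  rw [h1]
  refine (Complex.abs_re_le_norm _).trans ?_
  rw [norm_mul]
  rw [lt_div_iff₀ (by positivity)] at h2
  nlinarith [norm_nonneg ((y : ℂ) - z)]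

noncomputable def zf (p : X PE × X PE) (γ : I) : ℂ := (ev γ p.1 : ℝ) + Complex.I * (ev γ p.2 : ℝ)

lemma alt_zf (c : ℂ) (p : X PE × X PE) (M : ℕ) (γ : ℕ → I) :
    alt M (fun n => c * zf p (γ n)) = c * ((alt M (fun n => ev (γ n) p.1) : ℝ) +
      Complex.I * (alt M (fun n => ev (γ n) p.2) : ℝ)) := by
  simp only [alt, zf, Complex.ofReal_sum, Finset.mul_sum, ← Finset.sum_add_distrib]
  exact Finset.sum_congr rfl fun i _ => by push_cast; ring

lemma norm_ri (a b : ℝ) : ‖(a : ℂ) + Complex.I * b‖ ≤ |a| + |b| :=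
  (norm_add_le _ _).trans (by simp)

lemma zf1 (c : ℂ) (hc : ‖c‖ = 1) (p : X PE × X PE) (γ : I) : ‖c * zf p γ‖ ≤ 2 * ‖p‖ := by
  rw [norm_mul, hc, one_mul]
  have h1 := (norm_ev_le γ p.1).trans (norm_fst_le p)
  have h2 := (norm_ev_le γ p.2).trans (norm_snd_le p)
  rw [Real.norm_eq_abs] at h1 h2
  exact (norm_ri _ _).trans (by linarith)

lemma zf2 (c : ℂ) (hc : ‖c‖ = 1) (p : X PE × X PE) (j : ℕ) (γ : ℕ → I) (hγ : Monotone γ) :
    ‖PF j (alt (m j) fun n => c * zf p (γ n))‖ ≤ w j * (2 * ‖p‖) := by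
  refine (hPF _ _).trans ?_
  rw [alt_zf, norm_mul, hc, one_mul]
  have h1 := norm_alt_ev p.1 j hγ
  have h2 := norm_alt_ev p.2 j hγ
  have h3 := mul_le_mul_of_nonneg_left (norm_fst_le p) (w_pos j).le
  have h4 := mul_le_mul_of_nonneg_left (norm_snd_le p) (w_pos j).le
  simp only [PE, ContinuousLinearMap.id_apply, Real.norm_eq_abs] at h1 h2
  exact (norm_ri _ _).trans (by linarith)

lemma ev_Z (c : ℂ) (hc : ‖c‖ = 1) (p : X PE × X PE) (γ : I) :
    ev γ (el PF fun γ => c * zf p γ) = c * zf p γ := by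
  refine ev_el (exists_X (C := 2 * ‖p‖) ?_ (zf1 c hc p) (zf2 c hc p)) γ
  filter_upwards [ev0 p.1, ev0 p.2] with γ h1 h2
  simp [zf, h1, h2]

noncomputable def Z (c : ℂ) (hc : ‖c‖ = 1) : (X PE × X PE) →L[ℝ] X PF :=
  LinearMap.mkContinuous
    { toFun := fun p => el PF fun γ => c * zf p γ
      map_add' := fun p q => X_ext fun γ => by
        rw [map_add, ev_Z c hc, ev_Z c hc, ev_Z c hc]; simp [zf]; ring
      map_smul' := fun r p => X_ext fun γ => by
        rw [map_smul, ev_Z c hc, ev_Z c hc]; simp [zf]; ring } 2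
    (fun p => norm_X_le _ (fun γ => by
        show ‖ev γ (el PF fun γ => c * zf p γ)‖ ≤ _
        rw [ev_Z c hc]; exact zf1 c hc p γ) (fun j γ hγ => by
        show ‖PF j (alt (m j) fun n => ev (γ n) (el PF fun γ => c * zf p γ))‖ ≤ _
        simp only [ev_Z c hc]; exact zf2 c hc p j γ hγ))

lemma ev_Z' (c : ℂ) (hc : ‖c‖ = 1) (p : X PE × X PE) (γ : I) : ev γ (Z c hc p) = c * zf p γ :=
  ev_Z c hc p γ

lemma low (p : X PE × X PE) :
    ‖p‖ ≤ 2 * ‖((Z 1 (by simp)).prod (Z Complex.I (by simp))) p‖ := by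
  set q := ((Z 1 (by simp)).prod (Z Complex.I (by simp))) p with hq
  have hq1 : ‖Z 1 (by simp) p‖ ≤ ‖q‖ := norm_fst_le q
  have hq2 : ‖Z Complex.I (by simp) p‖ ≤ ‖q‖ := norm_snd_le q
  have k1 : ∀ γ, ‖zf p γ‖ ≤ 2 * ‖q‖ := fun γ => by
    have := norm_ev_le γ (Z 1 (by simp) p)
    rw [ev_Z', one_mul] at this
    linarith [norm_nonneg q]
  have k2 : ∀ j (γ : ℕ → I), Monotone γ → ‖((alt (m j) (fun n => ev (γ n) p.1) : ℝ) : ℂ) +
      Complex.I * (alt (m j) (fun n => ev (γ n) p.2) : ℝ)‖ ≤ w j * (2 * ‖q‖) := by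
    intro j γ hγ
    have h1 := norm_alt_ev (Z 1 (by simp) p) j hγ
    have h2 := norm_alt_ev (Z Complex.I (by simp) p) j hγ
    simp only [ev_Z', alt_zf] at h1 h2
    rw [one_mul] at h1
    have h3 := mul_le_mul_of_nonneg_left hq1 (w_pos j).le
    have h4 := mul_le_mul_of_nonneg_left hq2 (w_pos j).le
    exact (PF_low j _).trans (by linarith)
  have re1 : ∀ a b : ℝ, |a| ≤ ‖(a : ℂ) + Complex.I * b‖ := fun a b => by
    simpa using Complex.abs_re_le_norm ((a : ℂ) + Complex.I * b)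
  have im1 : ∀ a b : ℝ, |b| ≤ ‖(a : ℂ) + Complex.I * b‖ := fun a b => by
    simpa using Complex.abs_im_le_norm ((a : ℂ) + Complex.I * b)
  rw [Prod.norm_def]
  exact max_le (norm_X_le _ (fun γ => (re1 _ _).trans (k1 γ)) fun j γ hγ => (re1 _ _).trans (k2 j γ hγ))
    (norm_X_le _ (fun γ => (im1 _ _).trans (k1 γ)) fun j γ hγ => (im1 _ _).trans (k2 j γ hγ))

/-- The negation of the preceding statement: For real Banach spaces E, F: if neither is isomorphic to a closed subspace of the other, then neither E×E nor F×F is isomorphic to a closed subspace of the other. -/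
theorem result :
    ¬ (∀ (E F : Type) [NormedAddCommGroup E] [NormedSpace ℝ E] [CompleteSpace E]
      [NormedAddCommGroup F] [NormedSpace ℝ F] [CompleteSpace F],
      ((¬ ∃ (T : E →L[ℝ] F) (C : ℝ), ∀ x : E, ‖x‖ ≤ C * ‖T x‖) ∧
       (¬ ∃ (T : F →L[ℝ] E) (C : ℝ), ∀ y : F, ‖y‖ ≤ C * ‖T y‖)) →
      ((¬ ∃ (T : (E × E) →L[ℝ] (F × F)) (C : ℝ), ∀ x : E × E, ‖x‖ ≤ C * ‖T x‖) ∧
       (¬ ∃ (T : (F × F) →L[ℝ] (E × E)) (C : ℝ), ∀ y : F × F, ‖y‖ ≤ C * ‖T y‖))) := by
  intro h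
  refine (h (X PE) (X PF) ⟨?_, ?_⟩).1 ⟨_, 2, low⟩
  · rintro ⟨T, C, hT⟩
    obtain ⟨A, hA⟩ := main hPE hPF (freq_even.mono fun j hj v => PF_even hj v) T C hT
    obtain ⟨j, h1, h2⟩ := ((freq_small (A 1) (1 / (4 * (|C| + 1))) (by positivity)).and_eventually
      (hA 1 (1 / 2) (by norm_num))).exists
    have h3 : |C| * ‖PF j (A 1)‖ ≤ |C| * (1 / (4 * (|C| + 1))) := by gcongr
    have h4 : |C| * (1 / (4 * (|C| + 1))) ≤ 1 / 4 := by
      rw [mul_one_div, div_le_iff₀ (by positivity)]; linarith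
    simp only [PE, ContinuousLinearMap.id_apply, NormOneClass.norm_one] at h2
    linarith
  · rintro ⟨T, C, hT⟩
    obtain ⟨A, hA⟩ := main hPF hPE (Frequently.of_forall fun j v => rfl) T C hT
    obtain ⟨v, hv, hv0⟩ : ∃ v : ℂ, A v = 0 ∧ v ≠ 0 := by
      by_contra hc
      push Not at hc
      have := LinearMap.finrank_le_finrank_of_injective (f := A)
        (LinearMap.ker_eq_bot.1 (LinearMap.ker_eq_bot'.2 hc))
      simp at this
    obtain ⟨j, h1, h2⟩ := (freq_even.and_eventually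
      (hA v (‖v‖ / 2) (by positivity))).exists
    rw [PF_even h1, hv] at h2
    have := norm_pos_iff.2 hv0
    simp at h2
    linarith

end Pool.Agent.S05788
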