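import Pool.Statements.S05808
import Pool.Agent.H23.Annul

set_option autoImplicit false
open Pool Pool.MP_ae5379_an

namespace Pool.Agent.S05808

open Pool.Agent.H23.Annul in
lemma gen {K : Type} [TopologicalSpace K] [CompactSpace K] [Nonempty K]
    (Y : Submodule ℂ C(K, ℂ)) (hc : IsClosed (Y : Set C(K, ℂ))) (hP : ∀ s, ∃ p, Peak Y s p)
    (s : K) (x : Y) (h1 : ‖x‖ ≤ 1) (h2 : ∀ y : Y, ‖x + y‖ ≤ 1 → ‖x - y‖ ≤ 1 → y = 0)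
    (h : ∀ (𝕜 : Type) [RCLike 𝕜] (X : Type) [NormedAddCommGroup X] [NormedSpace 𝕜 X] [CompleteSpace X],
    (∀ T : X →L[𝕜] X, ∀ ε : ℝ, 0 < ε →
      ∃ (x : X) (f : X →L[𝕜] 𝕜), ‖x‖ = 1 ∧ ‖f‖ = 1 ∧ f x = 1 ∧ ‖T‖ - ε < ‖f (T x)‖) →
    ∀ (f : X →L[𝕜] 𝕜) (x : X),
      (‖f‖ ≤ 1 ∧ ∀ g : X →L[𝕜] 𝕜, ‖f + g‖ ≤ 1 → ‖f - g‖ ≤ 1 → g = 0) →
      (‖x‖ ≤ 1 ∧ ∀ y : X, ‖x + y‖ ≤ 1 → ‖x - y‖ ≤ 1 → y = 0) →
      ‖f x‖ = 1) : ‖x.1 s‖ = 1 := by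
  have hc' : CompleteSpace Y := hc.completeSpace_coe
  obtain ⟨p, hp⟩ := hP s
  exact h ℂ Y (index_one hP) (dl Y s) x ⟨dl_le _, dl_ext hp⟩ ⟨h1, h2⟩

/-- The negation of the preceding statement: For every real or complex Banach space with numerical index 1 (every operator's numerical radius equals its norm), every extreme point f of the dual unit ball and every extreme point x of the unit ball satisfy ∣f(x)∣ = 1. -/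
theorem result :
    ¬ (∀ (𝕜 : Type) [RCLike 𝕜] (X : Type) [NormedAddCommGroup X] [NormedSpace 𝕜 X] [CompleteSpace X],
    (∀ T : X →L[𝕜] X, ∀ ε : ℝ, 0 < ε →
      ∃ (x : X) (f : X →L[𝕜] 𝕜), ‖x‖ = 1 ∧ ‖f‖ = 1 ∧ f x = 1 ∧ ‖T‖ - ε < ‖f (T x)‖) →
    ∀ (f : X →L[𝕜] 𝕜) (x : X),
      (‖f‖ ≤ 1 ∧ ∀ g : X →L[𝕜] 𝕜, ‖f + g‖ ≤ 1 → ‖f - g‖ ≤ 1 → g = 0) →
      (‖x‖ ≤ 1 ∧ ∀ y : X, ‖x + y‖ ≤ 1 → ‖x - y‖ ≤ 1 → y = 0) →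
      ‖f x‖ = 1) := by
  intro h
  have := gen Pool.Agent.H23.Annul.XX Pool.Agent.H23.Annul.XX_closed Pool.Agent.H23.Annul.peak
    (0, true) _ Pool.Agent.H23.Annul.ee_le Pool.Agent.H23.Annul.ee_ext h
  have e := Pool.Agent.H23.Annul.norm_ee 1 (0, true)
  rw [this] at e
  norm_num [Pool.Agent.H23.Annul.rho] at e

end Pool.Agent.S05808
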