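import Pool.Statements.S05816
import Pool.Agent.H23.Cog2

set_option autoImplicit false
open Filter Topology
open Pool Pool.MP_ae9c87_an

namespace Pool.Agent.S05816

open Pool.Agent.H23.Cog Pool.Agent.H23.Vdc MeasureTheory Complex

noncomputable def ex (t : ℝ) : C(XX, ℂ) :=
  ⟨fun x => ez (t * x.1), ez_cont.comp (continuous_const.mul continuous_subtype_val)⟩

lemma ex_cont : Continuous ex := by
  apply ContinuousMap.continuous_of_continuous_uncurry
  exact ez_cont.comp (continuous_fst.mul (continuous_subtype_val.comp continuous_snd))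

lemma ex_zero : ex 0 = 1 := by ext x; simp [ex, ez]

lemma ex_add (s t : ℝ) : ex (s + t) = ex s * ex t := by
  ext x; simp [ex, ez, add_mul, exp_add]

lemma ex_norm (t : ℝ) : ‖ex t‖ ≤ 1 :=
  (ContinuousMap.norm_le _ zero_le_one).2 fun _ => (ez_norm _).le

noncomputable def BX : C(XX, ℂ) := ⟨fun x => BB x.1, BB_cont.comp continuous_subtype_val⟩

lemma BX_inj : Function.Injective BX := by
  intro x y h
  have h1 : BB x.1 = BB y.1 := h
  rw [BB, BB, div_eq_div_iff (den_ne _) (den_ne _)] at h1
  have h2 : I * (x.1 : ℝ) = I * (y.1 : ℝ) := by linear_combination (-1 / 2 : ℂ) * h1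
  exact Subtype.ext (ofReal_injective (mul_left_cancel₀ I_ne_zero h2))

lemma integrable_ex :
    IntegrableOn (fun t : ℝ => ((Real.exp (-t) : ℝ) : ℂ) • ex t) (Set.Ioi 0) := by
  refine Integrable.mono' (exp_neg_integrableOn_Ioi 0 one_pos) ?_ (.of_forall fun t => ?_)
  · exact (Continuous.smul (show Continuous fun t : ℝ => ((Real.exp (-t) : ℝ) : ℂ) by fun_prop)
      ex_cont).aestronglyMeasurable
  · rw [norm_smul, norm_real, Real.norm_of_nonneg (Real.exp_pos _).le, neg_mul, one_mul]
    exact mul_le_of_le_one_right (Real.exp_pos _).le (ex_norm t)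

lemma cayley : 1 - (2 : ℂ) • ∫ t in Set.Ioi (0 : ℝ), ((Real.exp (-t) : ℝ) : ℂ) • ex t = BX := by
  ext x
  have h1 := (ContinuousMap.evalCLM ℂ x).integral_comp_comm integrable_ex
  have h2 := integral_exp_mul_complex_Ioi (a := I * x.1 - 1) (by simp) 0
  have h3 : (fun t : ℝ => (ContinuousMap.evalCLM ℂ x) (((Real.exp (-t) : ℝ) : ℂ) • ex t)) =
      fun t : ℝ => exp ((I * x.1 - 1) * t) := by
    funext t
    simp only [ContinuousMap.evalCLM_apply, ContinuousMap.smul_apply, ex, ez,
      ContinuousMap.coe_mk, smul_eq_mul]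
    push_cast
    rw [← exp_add]; congr 1; ring
  rw [h3, h2] at h1
  simp only [ContinuousMap.evalCLM_apply] at h1
  simp only [ContinuousMap.sub_apply, ContinuousMap.one_apply, ContinuousMap.smul_apply, ← h1,
    BX, ContinuousMap.coe_mk, BB, smul_eq_mul]
  have := den_ne x.1
  field_simp
  simp
  ring

/-- The negation of the preceding statement: For every contractive strongly continuous semigroup T on a complex Hilbert space with cogenerator V = I − 2∫₀^∞ e^{−t}T(t)dt, T(t)x → 0 weakly for all x iff Vⁿx → 0 weakly for all x. -/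
theorem result :
    ¬ (∀ (H : Type) [NormedAddCommGroup H] [InnerProductSpace ℂ H] [CompleteSpace H]
      (T : ℝ → H →L[ℂ] H),
      T 0 = 1 →
      (∀ s t : ℝ, 0 ≤ s → 0 ≤ t → T (s + t) = T s * T t) →
      (∀ x : H, ContinuousOn (fun t : ℝ => T t x) (Set.Ici 0)) →
      (∀ t : ℝ, 0 ≤ t → ‖T t‖ ≤ 1) →
      ((∀ x y : H, Tendsto (fun t : ℝ => inner ℂ (T t x) y) atTop (𝓝 0)) ↔
        (∀ x y : H, Tendsto (fun n : ℕ =>
            inner ℂ ((fun z : H => z - (2 : ℂ) •
              ∫ t in Set.Ioi (0 : ℝ), ((Real.exp (-t) : ℝ) : ℂ) • T t z)^[n] x) y)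
            atTop (𝓝 0)))) := by
  intro h
  obtain ⟨μ, hμ, h1, h2⟩ := exists_mu
  have h3 := (h (Lp ℂ 2 μ) (fun t => MM μ (ex t)) (by simp only [ex_zero, MM_one])
    (fun s t _ _ => by simp only [ex_add, MM_mul])
    (fun x => (((MM μ).continuous.comp ex_cont).clm_apply continuous_const).continuousOn)
    (fun t _ => MM_norm μ _ fun x => ez_norm _)).2 ?_
  · have hN : Tendsto (fun k : ℕ => ((NN k : ℤ) : ℝ)) atTop atTop := by
      have := (tendsto_pow_atTop_atTop_of_one_lt (show (1 : ℝ) < 64 by norm_num)).comp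
        (tendsto_add_atTop_nat 1)
      refine this.congr fun k => ?_
      simp [NN]
    have h4 := (h3 (ContinuousMap.toLp 2 μ ℂ 1) (ContinuousMap.toLp 2 μ ℂ 1)).comp hN
    have h5 : ∀ k, inner ℂ (MM μ (ex (NN k : ℤ)) (ContinuousMap.toLp 2 μ ℂ 1))
        (ContinuousMap.toLp 2 μ ℂ (1 : C(XX, ℂ))) = 1 / 2 := by
      intro k
      rw [MM_inner, ← integral_conj, ← h1 k]
      refine integral_congr_ae ?_
      filter_upwards [ContinuousMap.coeFn_toLp (p := 2) μ (𝕜 := ℂ) (1 : C(XX, ℂ))] with x hx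
      rw [hx]
      simp [ex, ez, EE', ← exp_conj]
    have h6 := tendsto_nhds_unique (h4.congr h5) tendsto_const_nhds
    norm_num at h6
  · intro x y
    have e : ∀ z : Lp ℂ 2 μ, z - (2 : ℂ) •
        ∫ t in Set.Ioi (0 : ℝ), ((Real.exp (-t) : ℝ) : ℂ) • MM μ (ex t) z = MM μ BX z := by
      intro z
      have := ((ContinuousLinearMap.apply ℂ _ z).comp (MM μ)).integral_comp_comm integrable_ex
      simp only [ContinuousLinearMap.comp_apply, ContinuousLinearMap.apply_apply, map_smul] at this
      rw [← cayley, map_sub, map_smul, MM_one, sub_apply, smul_apply, ← this]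
      rfl
    have e2 : ∀ (n : ℕ) (z : Lp ℂ 2 μ), (fun z : Lp ℂ 2 μ => MM μ BX z)^[n] z =
        MM μ (BX ^ n) z := by
      intro n
      induction n with
      | zero => intro z; simp [MM_one]
      | succ n ih => intro z; rw [Function.iterate_succ_apply, ih, pow_succ, MM_mul]; rfl
    erw [funext e]
    simp only [e2, MM_inner]
    have := hered μ BX (fun x => BB_norm _) BX_inj h2 _ (L2.integrable_inner (𝕜 := ℂ) y x)
    have h7 := (continuous_conj.tendsto 0).comp this
    rw [map_zero] at h7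
    exact h7

end Pool.Agent.S05816
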