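import Pool.Statements.S05845

set_option autoImplicit false
open Pool Pool.MP_b07b06_an

namespace Pool.Agent.S05845

open Real Filter Topology

abbrev E2 := EuclideanSpace ℝ (Fin 2)

noncomputable def r (n : ℕ) : ℝ := if Odd (Nat.log 16 n) then 1 / 16 else 0

noncomputable def rr (t : ℝ) : ℝ := r (Nat.log 2 (round t).toNat)

noncomputable def T (t : ℝ) : ℝ := rr t * cos (π * t) ^ 2

lemma rr_bd (t : ℝ) : 0 ≤ rr t ∧ rr t ≤ 1 / 16 := by
  unfold rr r; split_ifs <;> norm_num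

lemma T_bd (t : ℝ) : 0 ≤ T t ∧ T t ≤ 1 / 16 := by
  obtain ⟨a, b⟩ := rr_bd t
  have := cos_sq_le_one (π * t)
  unfold T
  exact ⟨by positivity, by nlinarith [sq_nonneg (cos (π * t))]⟩

lemma cos_der (t : ℝ) :
    HasDerivAt (fun t => cos (π * t) ^ 2) (2 * cos (π * t) * (-sin (π * t) * π)) t := by
  have := (((hasDerivAt_id t).const_mul π).cos).fun_pow 2
  simpa using this

lemma T_der (t : ℝ) : HasDerivAt T (rr t * (2 * cos (π * t) * (-sin (π * t) * π))) t := by
  by_cases h : cos (π * t) = 0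
  · have h1 := cos_der t
    rw [h] at h1 ⊢
    simp only [mul_zero, zero_mul] at h1 ⊢
    rw [hasDerivAt_iff_isLittleO] at h1 ⊢
    refine Asymptotics.IsBigO.trans_isLittleO ?_ h1
    refine Asymptotics.IsBigO.of_bound 1 (Eventually.of_forall fun s => ?_)
    simp only [T, h]
    obtain ⟨a, b⟩ := rr_bd s
    simp
    rw [abs_of_nonneg a]
    nlinarith [sq_nonneg (cos (π * s))]
  · have h2 : t ∈ Set.Ioo ((round t : ℝ) - 1 / 2) (round t + 1 / 2) := by
      have a1 := abs_le.mp (abs_sub_round t)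
      have a2 : t ≠ round t - 1 / 2 := by
        intro e
        apply h
        rw [cos_eq_zero_iff]
        exact ⟨round t - 1, by push_cast; linear_combination π * e⟩
      have a3 : t ≠ round t + 1 / 2 := by
        intro e
        apply h
        rw [cos_eq_zero_iff]
        exact ⟨round t, by linear_combination π * e⟩
      exact ⟨lt_of_le_of_ne (by linarith) a2.symm, lt_of_le_of_ne (by linarith) a3⟩
    refine ((cos_der t).const_mul (rr t)).congr_of_eventuallyEq ?_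
    filter_upwards [Ioo_mem_nhds h2.1 h2.2] with s hs
    have : round s = round t := by
      rw [round_eq, Int.floor_eq_iff]; constructor <;> linarith [hs.1, hs.2]
    simp only [T, rr, this]

lemma T_lip (s t : ℝ) : |T s - T t| ≤ |s - t| := by
  have : LipschitzWith 1 T := by
    refine lipschitzWith_of_nnnorm_deriv_le (fun t => (T_der t).differentiableAt) fun t => ?_
    rw [(T_der t).deriv, ← NNReal.coe_le_coe]
    obtain ⟨a, b⟩ := rr_bd t
    have c1 := abs_cos_le_one (π * t)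
    have c2 := abs_sin_le_one (π * t)
    have c3 : |cos (π * t)| * |sin (π * t)| ≤ 1 := by
      nlinarith [abs_nonneg (cos (π * t)), abs_nonneg (sin (π * t))]
    have c4 := pi_le_four
    have c5 : |cos (π * t)| * |sin (π * t)| * π ≤ 1 * 4 :=
      mul_le_mul c3 c4 pi_pos.le (by norm_num)
    simp only [coe_nnnorm, norm_mul, Real.norm_eq_abs, abs_neg, abs_of_nonneg a,
      abs_of_pos pi_pos, NNReal.coe_one, abs_two]
    nlinarith [mul_nonneg (mul_nonneg (abs_nonneg (cos (π * t))) (abs_nonneg (sin (π * t))))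
      pi_pos.le]
  simpa [Real.dist_eq] using this.dist_le_mul s t

lemma T_pow (n : ℕ) : T (2 ^ n) = r n := by
  have e : (2 : ℝ) ^ n = ((2 ^ n : ℕ) : ℝ) := by push_cast; rfl
  have c : cos (π * 2 ^ n) ^ 2 = 1 := by
    rw [e, mul_comm, cos_nat_mul_pi, ← pow_mul, mul_comm, pow_mul]; norm_num
  unfold T rr
  rw [c, e, round_natCast, Int.toNat_natCast, Nat.log_pow (by norm_num), mul_one]

noncomputable def q (x : ℝ) : ℝ := x ^ 2 / (10 * (1 + x ^ 2))

noncomputable def G (a y : ℝ) : ℝ := a ^ 2 * y / (a ^ 2 + y ^ 2)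

lemma q_nonneg (x : ℝ) : 0 ≤ q x := by unfold q; positivity

lemma q_pos {x : ℝ} (h : x ≠ 0) : 0 < q x := by unfold q; positivity

lemma q_le (x : ℝ) : q x ≤ x ^ 2 / 10 := by
  unfold q
  exact div_le_div_of_nonneg_left (sq_nonneg x) (by norm_num) (by nlinarith [sq_nonneg x])

lemma q_ge {x : ℝ} (h : x ^ 2 ≤ 1) : x ^ 2 / 20 ≤ q x := by
  unfold q
  exact div_le_div_of_nonneg_left (sq_nonneg x) (by positivity) (by nlinarith)

lemma q_half (x : ℝ) : q x ≤ 4 * q (x / 2) := by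
  unfold q
  rw [← mul_div_assoc, div_le_div_iff₀ (by positivity) (by positivity)]
  nlinarith [sq_nonneg x, sq_nonneg (x ^ 2)]

lemma q_lip (x y : ℝ) : |q x - q y| ≤ |x - y| / 10 := by
  have e : q x - q y = (x - y) * ((x + y) / ((1 + x ^ 2) * (1 + y ^ 2))) / 10 := by
    unfold q; field_simp; ring
  have : |(x + y) / ((1 + x ^ 2) * (1 + y ^ 2))| ≤ 1 := by
    rw [abs_div, abs_of_pos (show 0 < (1 + x ^ 2) * (1 + y ^ 2) by positivity),
      div_le_one (by positivity), abs_le]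
    constructor <;>
      nlinarith [sq_nonneg (x + 1), sq_nonneg (y + 1), sq_nonneg (x - 1), sq_nonneg (y - 1),
        sq_nonneg (x * y), sq_nonneg x, sq_nonneg y]
  rw [e, abs_div, abs_mul, abs_of_pos (show (0 : ℝ) < 10 by norm_num)]
  nlinarith [abs_nonneg (x - y)]

lemma G_bd {a : ℝ} (ha : 0 ≤ a) (y : ℝ) : |G a y| ≤ a / 2 := by
  rcases ha.eq_or_lt with h | h
  · simp [G, ← h]
  · unfold G
    rw [abs_div, abs_of_pos (show 0 < a ^ 2 + y ^ 2 by positivity), div_le_iff₀ (by positivity),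
      abs_le]
    constructor <;> nlinarith [mul_nonneg h.le (sq_nonneg (a + y)), mul_nonneg h.le (sq_nonneg (a - y))]

lemma G_sub {a : ℝ} (ha : 0 < a) (y z : ℝ) : G a y - G a z =
    (y - z) * (a ^ 2 * (a ^ 2 - y * z) / ((a ^ 2 + y ^ 2) * (a ^ 2 + z ^ 2))) := by
  unfold G; field_simp; ring

lemma G_lip2 {a : ℝ} (ha : 0 ≤ a) (y z : ℝ) : |G a y - G a z| ≤ |y - z| := by
  rcases ha.eq_or_lt with h | h
  · simp [G, ← h]
  · rw [G_sub h, abs_mul]
    have : |a ^ 2 * (a ^ 2 - y * z) / ((a ^ 2 + y ^ 2) * (a ^ 2 + z ^ 2))| ≤ 1 := by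
      rw [abs_div, abs_of_pos (show 0 < (a ^ 2 + y ^ 2) * (a ^ 2 + z ^ 2) by positivity),
        div_le_one (by positivity), abs_le]
      have h2 : 0 < a ^ 2 := by positivity
      constructor <;> nlinarith [mul_nonneg h2.le (sq_nonneg (y + z)),
        mul_nonneg h2.le (sq_nonneg (y - z)), sq_nonneg (y * z), sq_nonneg (a ^ 2),
        mul_nonneg h2.le (sq_nonneg y), mul_nonneg h2.le (sq_nonneg z)]
    nlinarith [abs_nonneg (y - z)]

lemma G_low {a y z : ℝ} (h : 0 < a) (hy : |y| ≤ 5 / 8 * a) (hz : |z| ≤ 5 / 8 * a) :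
    |y - z| / 4 ≤ |G a y - G a z| := by
  rw [G_sub h, abs_mul]
  have y2 : y ^ 2 ≤ 25 / 64 * a ^ 2 := by nlinarith [sq_abs y, abs_nonneg y]
  have z2 : z ^ 2 ≤ 25 / 64 * a ^ 2 := by nlinarith [sq_abs z, abs_nonneg z]
  have h2 : 0 < a ^ 2 := by positivity
  have : 1 / 4 ≤ a ^ 2 * (a ^ 2 - y * z) / ((a ^ 2 + y ^ 2) * (a ^ 2 + z ^ 2)) := by
    rw [le_div_iff₀ (by positivity)]
    have b1 : (a ^ 2 + y ^ 2) * (a ^ 2 + z ^ 2) ≤ (89 / 64 * a ^ 2) * (89 / 64 * a ^ 2) :=
      mul_le_mul (by linarith) (by linarith) (by positivity) (by positivity)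
    have b2 : y * z ≤ 25 / 64 * a ^ 2 := by nlinarith [sq_nonneg (y - z)]
    nlinarith
  nlinarith [abs_nonneg (y - z), le_abs_self
    (a ^ 2 * (a ^ 2 - y * z) / ((a ^ 2 + y ^ 2) * (a ^ 2 + z ^ 2)))]

lemma G_lip1 (a b y : ℝ) : |G a y - G b y| ≤ |a - b| := by
  by_cases hy : y = 0
  · simp [G, hy]
  have e : G a y - G b y = (a - b) * (y ^ 3 * (a + b) / ((a ^ 2 + y ^ 2) * (b ^ 2 + y ^ 2))) := by
    unfold G; field_simp; ring
  have : |y ^ 3 * (a + b) / ((a ^ 2 + y ^ 2) * (b ^ 2 + y ^ 2))| ≤ 1 := by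
    rw [abs_div, abs_of_pos (show 0 < (a ^ 2 + y ^ 2) * (b ^ 2 + y ^ 2) by positivity),
      div_le_one (by positivity), abs_le]
    have h2 : 0 ≤ y ^ 2 := by positivity
    constructor <;> nlinarith [mul_nonneg h2 (sq_nonneg (y + a)), mul_nonneg h2 (sq_nonneg (y - a)),
      mul_nonneg h2 (sq_nonneg (y + b)), mul_nonneg h2 (sq_nonneg (y - b)), sq_nonneg (a * b),
      mul_nonneg h2 (sq_nonneg a), mul_nonneg h2 (sq_nonneg b)]
  rw [e, abs_mul]
  nlinarith [abs_nonneg (a - b)]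

noncomputable def sg (b : Bool) : ℝ := if b then 1 / 2 else -1 / 2

lemma sg_abs (b : Bool) : |sg b| = 1 / 2 := by
  cases b <;> simp [sg, abs_div]

noncomputable def F (b : Bool) (x y : ℝ) : ℝ := sg b * q (x / 2) + T x⁻¹ * G (q x) y

lemma TG_bd (x y : ℝ) : |T x⁻¹ * G (q x) y| ≤ q (x / 2) / 8 := by
  obtain ⟨a, b⟩ := T_bd x⁻¹
  have := G_bd (q_nonneg x) y
  rw [abs_mul, abs_of_nonneg a]
  nlinarith [q_half x, abs_nonneg (G (q x) y), q_nonneg x]

lemma F_bd (b : Bool) (x y : ℝ) : |F b x y| ≤ 5 / 8 * q (x / 2) := by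
  refine (abs_add_le _ _).trans ?_
  rw [abs_mul, sg_abs, abs_of_nonneg (q_nonneg _)]
  linarith [TG_bd x y]

lemma TG_lip' {x x' : ℝ} (h : |x'| ≤ |x|) (y : ℝ) :
    |T x⁻¹ * G (q x) y - T x'⁻¹ * G (q x') y| ≤ |x - x'| / 10 := by
  have e : T x⁻¹ * G (q x) y - T x'⁻¹ * G (q x') y =
      T x⁻¹ * (G (q x) y - G (q x') y) + (T x⁻¹ - T x'⁻¹) * G (q x') y := by ring
  obtain ⟨a, b⟩ := T_bd x⁻¹
  have a1 := (G_lip1 (q x) (q x') y).trans (q_lip x x')
  have a2 : |T x⁻¹ - T x'⁻¹| * |G (q x') y| ≤ |x - x'| / 20 := by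
    by_cases h0 : x' = 0
    · simp [h0, G, q]; positivity
    have p' : 0 < |x'| := abs_pos.mpr h0
    have p : 0 < |x| := by linarith
    have hx : x ≠ 0 := abs_pos.mp p
    have b1 : |x⁻¹ - x'⁻¹| = |x - x'| / (|x| * |x'|) := by
      rw [← abs_mul, ← abs_div, ← abs_neg]; congr 1; field_simp; ring
    have b2 : |G (q x') y| ≤ |x| * |x'| / 20 := by
      have := G_bd (q_nonneg x') y
      have := q_le x'
      nlinarith [sq_abs x']
    calc _ ≤ |x - x'| / (|x| * |x'|) * (|x| * |x'| / 20) :=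
          mul_le_mul (b1 ▸ T_lip _ _) b2 (abs_nonneg _) (by positivity)
      _ = _ := by field_simp
  rw [e]
  refine (abs_add_le _ _).trans ?_
  rw [abs_mul, abs_mul, abs_of_nonneg a]
  nlinarith [abs_nonneg (G (q x) y - G (q x') y), abs_nonneg (x - x')]

lemma F_lip (b : Bool) (x y x' y' : ℝ) :
    |F b x y - F b x' y'| ≤ |x - x'| / 4 + |y - y'| / 4 := by
  have a1 : |T x⁻¹ * G (q x) y - T x'⁻¹ * G (q x') y| ≤ |x - x'| / 10 := by
    rcases le_total |x'| |x| with h | h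
    · exact TG_lip' h y
    · rw [abs_sub_comm, abs_sub_comm x]; exact TG_lip' h y
  have a2 := q_lip (x / 2) (x' / 2)
  rw [← sub_div, abs_div, abs_two] at a2
  have a3 := G_lip2 (q_nonneg x') y y'
  obtain ⟨a, c⟩ := T_bd x'⁻¹
  have e : F b x y - F b x' y' = sg b * (q (x / 2) - q (x' / 2)) +
      (T x⁻¹ * G (q x) y - T x'⁻¹ * G (q x') y) + T x'⁻¹ * (G (q x') y - G (q x') y') := by
    unfold F; ring
  rw [e]
  refine (abs_add_three _ _ _).trans ?_
  rw [abs_mul, abs_mul, sg_abs, abs_of_nonneg a]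
  nlinarith [abs_nonneg (G (q x') y - G (q x') y'), abs_nonneg (x - x'), abs_nonneg (y - y')]

noncomputable def pt (x y : ℝ) : E2 := !₂[x, y]

noncomputable def ff (b : Bool) (v : E2) : E2 := pt (v 0 / 2) (F b (v 0) (v 1))

@[simp] lemma pt0 (x y : ℝ) : pt x y 0 = x := rfl
@[simp] lemma pt1 (x y : ℝ) : pt x y 1 = y := rfl

lemma dist_sq (v w : E2) : dist v w ^ 2 = (v 0 - w 0) ^ 2 + (v 1 - w 1) ^ 2 := by
  rw [EuclideanSpace.dist_eq, sq_sqrt (by positivity)]
  simp [Fin.sum_univ_two, Real.dist_eq, sq_abs]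

lemma ff_contr (b : Bool) : ContractingWith (3 / 4) (ff b) := by
  refine ⟨by rw [← NNReal.coe_lt_coe]; norm_num, LipschitzWith.of_dist_le_mul fun v w => ?_⟩
  have h := F_lip b (v 0) (v 1) (w 0) (w 1)
  refine abs_le_of_sq_le_sq' ?_ (by positivity) |>.2
  rw [mul_pow, dist_sq, dist_sq]
  simp only [ff, pt0, pt1]
  have h2 : |F b (v 0) (v 1) - F b (w 0) (w 1)| ^ 2 ≤ (|v 0 - w 0| / 4 + |v 1 - w 1| / 4) ^ 2 :=
    pow_le_pow_left₀ (abs_nonneg _) h 2
  rw [sq_abs] at h2
  push_cast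
  nlinarith [sq_abs (v 0 - w 0), sq_abs (v 1 - w 1), sq_nonneg (|v 0 - w 0| - |v 1 - w 1|),
    sq_nonneg (v 0 - w 0), sq_nonneg (v 1 - w 1)]

lemma F_diff (b : Bool) : Differentiable ℝ (fun v : E2 => F b (v 0) (v 1)) := by
  intro v
  have h0 : Differentiable ℝ (fun w : E2 => w 0) :=
    (EuclideanSpace.proj (0 : Fin 2) : E2 →L[ℝ] ℝ).differentiable
  have h1 : Differentiable ℝ (fun w : E2 => w 1) :=
    (EuclideanSpace.proj (1 : Fin 2) : E2 →L[ℝ] ℝ).differentiable
  by_cases h : v 0 = 0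
  · refine HasFDerivAt.differentiableAt (f' := 0) ?_
    rw [hasFDerivAt_iff_isLittleO]
    refine Asymptotics.IsBigO.trans_isLittleO (g := fun w : E2 => ‖w - v‖ ^ 2) ?_
      (Asymptotics.isLittleO_pow_sub_sub v one_lt_two)
    refine Asymptotics.IsBigO.of_bound 1 (Eventually.of_forall fun w => ?_)
    have e : F b (v 0) (v 1) = 0 := by simp [h, F, q, G]
    have a1 := F_bd b (w 0) (w 1)
    have a2 := q_le (w 0 / 2)
    have a3 := dist_sq w v
    rw [dist_eq_norm, h] at a3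
    simp [e]
    nlinarith [sq_nonneg (w 1 - v 1), sq_nonneg (w 0)]
  · have hq : Differentiable ℝ q := by
      unfold q
      exact Differentiable.div (by fun_prop) (by fun_prop) fun x => by positivity
    have hT : Differentiable ℝ T := fun t => (T_der t).differentiableAt
    have hp := q_pos h
    unfold F G
    have d1 : DifferentiableAt ℝ (fun w : E2 => T (w 0)⁻¹) v :=
      (hT _).comp v ((h0 v).inv h)
    have d2 : DifferentiableAt ℝ (fun w : E2 => q (w 0)) v := (hq _).comp v (h0 v)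
    have d3 : DifferentiableAt ℝ (fun w : E2 => q (w 0 / 2)) v :=
      (hq _).comp v (by simp only [div_eq_mul_inv]; exact (h0 v).mul_const _)
    refine (d3.const_mul _).add (d1.mul ?_)
    simp only [div_eq_mul_inv]
    exact ((d2.pow 2).mul (h1 v)).mul (((d2.pow 2).add ((h1 v).pow 2)).inv
      (show q (v 0) ^ 2 + v 1 ^ 2 ≠ 0 by positivity))

lemma ff_diff (b : Bool) : Differentiable ℝ (ff b) := by
  rw [differentiable_euclidean]
  intro i
  fin_cases i
  · have h0 : Differentiable ℝ (fun w : E2 => w 0) :=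
      (EuclideanSpace.proj (0 : Fin 2) : E2 →L[ℝ] ℝ).differentiable
    show Differentiable ℝ (fun w : E2 => w 0 / 2)
    simp only [div_eq_mul_inv]; exact h0.mul_const _
  · exact F_diff b

open Classical in
noncomputable def KK : ℕ → Finset E2
  | 0 => {pt 1 0}
  | n + 1 => (KK n).image (ff true) ∪ (KK n).image (ff false)

lemma mem_succ {n : ℕ} {v : E2} : v ∈ KK (n + 1) ↔ ∃ b, ∃ w ∈ KK n, ff b w = v := by
  simp [KK, or_comm]

lemma KK_card (n : ℕ) : (KK n).card ≤ 2 ^ n := by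
  classical
  induction n with
  | zero => simp [KK]
  | succ n ih =>
    rw [KK]
    refine (Finset.card_union_le _ _).trans ?_
    have a := Finset.card_image_le (s := KK n) (f := ff true)
    have b := Finset.card_image_le (s := KK n) (f := ff false)
    rw [pow_succ]; omega

lemma KK_co {n : ℕ} {v : E2} (h : v ∈ KK n) :
    v 0 = (1 / 2) ^ n ∧ |v 1| ≤ 5 / 8 * q ((1 / 2) ^ n) := by
  induction n generalizing v with
  | zero =>
    simp only [KK, Finset.mem_singleton] at h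
    subst h
    simpa using q_nonneg 1
  | succ n ih =>
    obtain ⟨b, w, hw, rfl⟩ := mem_succ.mp h
    have e : ((1 : ℝ) / 2) ^ (n + 1) = w 0 / 2 := by rw [(ih hw).1]; ring
    rw [e]
    exact ⟨rfl, F_bd _ _ _⟩

lemma KK_norm {n : ℕ} {v : E2} (h : v ∈ KK n) : dist v 0 ≤ 2 * (1 / 2) ^ n := by
  obtain ⟨a, b⟩ := KK_co h
  have c := q_le ((1 / 2 : ℝ) ^ n)
  have d : ((1 : ℝ) / 2) ^ n ≤ 1 := pow_le_one₀ (by norm_num) (by norm_num)
  have d0 : 0 < ((1 : ℝ) / 2) ^ n := by positivity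
  refine abs_le_of_sq_le_sq' ?_ (by positivity) |>.2
  rw [dist_sq, a]
  have e : |v 1| ≤ (1 / 2) ^ n := by nlinarith
  have e2 := pow_le_pow_left₀ (abs_nonneg _) e 2
  rw [sq_abs] at e2
  simp only [PiLp.zero_apply, sub_zero]
  nlinarith

def K : Set E2 := insert 0 (⋃ n, (KK n : Set E2))

lemma K_compact : IsCompact K := by
  classical
  refine isCompact_of_finite_subcover fun {ι} U hU hK => ?_
  obtain ⟨i0, hi0⟩ := Set.mem_iUnion.mp (hK (Set.mem_insert _ _))
  obtain ⟨ε, hε, hb⟩ := Metric.isOpen_iff.mp (hU i0) 0 hi0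
  obtain ⟨N, hN⟩ := exists_pow_lt_of_lt_one (half_pos hε) (show (1 : ℝ) / 2 < 1 by norm_num)
  obtain ⟨t, ht⟩ := (((Finset.range N).biUnion KK).finite_toSet.isCompact).elim_finite_subcover
    U hU (by
      intro v hv
      simp only [Finset.coe_biUnion, Set.mem_iUnion] at hv
      obtain ⟨n, _, hn⟩ := hv
      exact hK (Set.mem_insert_of_mem _ (Set.mem_iUnion.mpr ⟨n, hn⟩)))
  refine ⟨insert i0 t, ?_⟩
  rintro v (rfl | hv)
  · exact Set.mem_biUnion (Finset.mem_insert_self _ _) hi0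
  · obtain ⟨n, hn⟩ := Set.mem_iUnion.mp hv
    by_cases h : n < N
    · have := ht (show v ∈ _ from Finset.mem_coe.mpr
        (Finset.mem_biUnion.mpr ⟨n, Finset.mem_range.mpr h, hn⟩))
      simp only [Set.mem_iUnion] at this ⊢
      obtain ⟨i, hi, hv⟩ := this
      exact ⟨i, Finset.mem_insert_of_mem hi, hv⟩
    · refine Set.mem_biUnion (Finset.mem_insert_self _ _) (hb ?_)
      have := pow_le_pow_of_le_one (show (0 : ℝ) ≤ 1 / 2 by norm_num) (by norm_num) (not_lt.mp h)
      have := KK_norm hn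
      rw [Metric.mem_ball]; linarith

noncomputable def fam : Fin 3 → E2 → E2 := ![ff true, ff false, fun _ => pt 1 0]

lemma ff_zero (b : Bool) : ff b 0 = 0 := by
  ext i; fin_cases i <;> simp [ff, F, q, G]

lemma K_eq : K = ⋃ i, fam i '' K := by
  apply Set.Subset.antisymm
  · rintro v (rfl | hv)
    · exact Set.mem_iUnion.mpr ⟨0, 0, Set.mem_insert _ _, ff_zero true⟩
    · obtain ⟨n, hn⟩ := Set.mem_iUnion.mp hv
      cases n with
      | zero =>
        simp only [KK, Finset.coe_singleton, Set.mem_singleton_iff] at hn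
        exact Set.mem_iUnion.mpr ⟨2, 0, Set.mem_insert _ _, hn.symm⟩
      | succ n =>
        obtain ⟨b, w, hw, rfl⟩ := mem_succ.mp hn
        have hw' : w ∈ K := Set.mem_insert_of_mem _ (Set.mem_iUnion.mpr ⟨n, hw⟩)
        cases b
        · exact Set.mem_iUnion.mpr ⟨1, w, hw', rfl⟩
        · exact Set.mem_iUnion.mpr ⟨0, w, hw', rfl⟩
  · have key : ∀ b, ∀ w ∈ K, ff b w ∈ K := by
      rintro b w (rfl | hw)
      · rw [ff_zero]; exact Set.mem_insert _ _
      · obtain ⟨n, hn⟩ := Set.mem_iUnion.mp hw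
        exact Set.mem_insert_of_mem _ (Set.mem_iUnion.mpr ⟨n + 1, mem_succ.mpr ⟨b, w, hn, rfl⟩⟩)
    intro v hv
    obtain ⟨i, w, hw, rfl⟩ := Set.mem_iUnion.mp hv
    fin_cases i
    · exact key true w hw
    · exact key false w hw
    · exact Set.mem_insert_of_mem _ (Set.mem_iUnion.mpr ⟨0, by simp [KK, fam]⟩)

lemma ff1 {n : ℕ} {w : E2} (hw : w ∈ KK n) (b : Bool) :
    ff b w 1 = sg b * q ((1 / 2) ^ (n + 1)) + r n * G (q ((1 / 2) ^ n)) (w 1) := by
  simp only [ff, pt1, F, (KK_co hw).1]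
  have e1 : (((1 : ℝ) / 2) ^ n)⁻¹ = 2 ^ n := by rw [one_div, inv_pow, inv_inv]
  have e2 : ((1 : ℝ) / 2) ^ n / 2 = (1 / 2) ^ (n + 1) := by ring
  rw [e1, e2, T_pow]

def NS (δ : ℝ) : Set ℕ := {m : ℕ | ∃ s : Finset E2, s.card = m ∧ K ⊆ ⋃ x ∈ s, Metric.closedBall x δ}

lemma upper (a : ℕ) (ha : 5 ≤ a) (hr : ∀ n, a ≤ n → n < 16 * a → r n = 0) :
    sInf (NS ((1 / 4) ^ (16 * a))) ≤ 4 ^ a := by
  classical
  set s : Finset E2 := insert 0 ((Finset.range (a + 1)).biUnion KK ∪
    (Finset.range (32 * a + 1) ×ˢ (Finset.univ : Finset Bool)).image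
      fun p => pt ((1 / 2) ^ p.1) (sg p.2 * q ((1 / 2) ^ p.1))) with hs
  have δ0 : (0 : ℝ) < (1 / 4) ^ (16 * a) := by positivity
  have h1 : s.card ∈ NS ((1 / 4) ^ (16 * a)) := by
    refine ⟨s, rfl, ?_⟩
    rintro v (rfl | hv)
    · exact Set.mem_biUnion (Finset.mem_insert_self _ _) (Metric.mem_closedBall_self δ0.le)
    obtain ⟨n, hn⟩ := Set.mem_iUnion.mp hv
    by_cases c1 : n ≤ a
    · refine Set.mem_biUnion (x := v) ?_ (Metric.mem_closedBall_self δ0.le)
      exact Finset.mem_insert_of_mem (Finset.mem_union_left _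
        (Finset.mem_biUnion.mpr ⟨n, Finset.mem_range.mpr (by omega), hn⟩))
    by_cases c2 : n ≤ 32 * a
    · have hm : ∀ b, pt ((1 / 2) ^ n) (sg b * q ((1 / 2) ^ n)) ∈ s := fun b =>
        Finset.mem_insert_of_mem (Finset.mem_union_right _ (Finset.mem_image.mpr
          ⟨(n, b), by simp; omega, rfl⟩))
      by_cases c3 : n ≤ 16 * a
      · obtain ⟨m, rfl⟩ : ∃ m, n = m + 1 := ⟨n - 1, by omega⟩
        obtain ⟨b, w, hw, rfl⟩ := mem_succ.mp hn
        refine Set.mem_biUnion (hm b) ?_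
        have : ff b w = pt ((1 / 2) ^ (m + 1)) (sg b * q ((1 / 2) ^ (m + 1))) := by
          ext i; fin_cases i
          · exact (KK_co hn).1
          · show ff b w 1 = _
            rw [ff1 hw, hr m (by omega) (by omega)]; simp
        rw [this]; exact Metric.mem_closedBall_self δ0.le
      · refine Set.mem_biUnion (hm true) ?_
        obtain ⟨e0, e1⟩ := KK_co hn
        rw [Metric.mem_closedBall]
        refine abs_le_of_sq_le_sq' ?_ δ0.le |>.2
        rw [dist_sq, e0]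
        simp only [pt0, pt1, sub_self, sg]
        have b1 := q_le ((1 / 2 : ℝ) ^ n)
        have b2 : (((1 : ℝ) / 2) ^ n) ^ 2 = (1 / 4) ^ n := by
          rw [← pow_mul, mul_comm, pow_mul]; norm_num
        have b3 := pow_le_pow_of_le_one (show (0 : ℝ) ≤ 1 / 4 by norm_num) (by norm_num)
          (not_le.mp c3).le
        have b4 := q_nonneg ((1 / 2 : ℝ) ^ n)
        have b5 := abs_le.mp e1
        simp only [if_true]
        have b6 := sq_le_sq' (a := v 1 - 1 / 2 * q ((1 / 2) ^ n)) (b := (1 / 4) ^ (16 * a))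
          (by linarith [b5.1]) (by linarith [b5.2])
        linarith
    · refine Set.mem_biUnion (Finset.mem_insert_self _ _) ?_
      have b1 := KK_norm hn
      have b2 := pow_le_pow_of_le_one (show (0 : ℝ) ≤ 1 / 2 by norm_num) (by norm_num)
        (show 2 * (16 * a) + 1 ≤ n by omega)
      rw [pow_succ, pow_mul] at b2
      rw [Metric.mem_closedBall]
      norm_num at b1 b2 ⊢
      linarith
  refine (Nat.sInf_le h1).trans ((Finset.card_insert_le _ _).trans ?_)
  have c1 : ((Finset.range (a + 1)).biUnion KK).card ≤ 2 ^ (a + 1) := by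
    refine Finset.card_biUnion_le.trans ((Finset.sum_le_sum fun n _ => KK_card n).trans ?_)
    exact (Nat.geomSum_lt le_rfl (fun _ h => Finset.mem_range.mp h)).le
  have c2 := Finset.card_image_le (s := Finset.range (32 * a + 1) ×ˢ (Finset.univ : Finset Bool))
    (f := fun p => pt ((1 / 2) ^ p.1) (sg p.2 * q ((1 / 2) ^ p.1)))
  simp only [Finset.card_product, Finset.card_range, Finset.card_univ, Fintype.card_bool] at c2
  have c3 := Finset.card_union_le ((Finset.range (a + 1)).biUnion KK)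
    ((Finset.range (32 * a + 1) ×ˢ (Finset.univ : Finset Bool)).image
      fun p => pt ((1 / 2) ^ p.1) (sg p.2 * q ((1 / 2) ^ p.1)))
  have c4 : 2 ^ (a + 1) + (32 * a + 1) * 2 + 1 ≤ 4 ^ a := by
    clear c1 c2 c3 h1 hs s δ0 hr
    induction a, ha using Nat.le_induction with
    | base => norm_num
    | succ a ha ih => rw [pow_succ 4, pow_succ 2]; omega
  omega

lemma sep (a : ℕ) (m : ℕ) (hr : ∀ n, a ≤ n → n < a + m → r n = 1 / 16) :
    ∃ S ⊆ KK (a + m), S.card = 2 ^ m ∧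
      ∀ v ∈ S, ∀ w ∈ S, v ≠ w → (1 / 64) ^ (a + m) / 2 ≤ |v 1 - w 1| := by
  classical
  induction m with
  | zero =>
    have : (KK a).Nonempty := by
      induction a with
      | zero => simp [KK]
      | succ a ih =>
        obtain ⟨w, hw⟩ := ih (fun n h1 h2 => by omega)
        exact ⟨_, mem_succ.mpr ⟨true, w, hw, rfl⟩⟩
    obtain ⟨w, hw⟩ := this
    exact ⟨{w}, by simpa using hw, by simp, by simp⟩
  | succ m ih =>
    obtain ⟨S, h1, h2, h3⟩ := ih fun n a b => hr n a (by omega)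
    have hr' := hr (a + m) (by omega) (by omega)
    have p0 : (0 : ℝ) < (1 / 64) ^ (a + (m + 1)) / 2 := by positivity
    have same : ∀ b, ∀ v ∈ S, ∀ w ∈ S, v ≠ w →
        (1 / 64) ^ (a + (m + 1)) / 2 ≤ |ff b v 1 - ff b w 1| := by
      intro b v hv w hw hne
      rw [ff1 (h1 hv), ff1 (h1 hw), hr', add_sub_add_left_eq_sub, ← mul_sub, abs_mul]
      have := G_low (q_pos (by positivity)) (KK_co (h1 hv)).2 (KK_co (h1 hw)).2
      have := h3 v hv w hw hne
      rw [← add_assoc, pow_succ, abs_of_pos (show (0 : ℝ) < 1 / 16 by norm_num)]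
      linarith
    have diff : ∀ v ∈ S, ∀ w ∈ S,
        (1 / 64) ^ (a + (m + 1)) / 2 ≤ ff true v 1 - ff false w 1 := by
      intro v hv w hw
      rw [ff1 (h1 hv), ff1 (h1 hw), hr']
      have b1 := abs_le.mp (G_bd (q_nonneg ((1 / 2) ^ (a + m))) (v 1))
      have b2 := abs_le.mp (G_bd (q_nonneg ((1 / 2) ^ (a + m))) (w 1))
      have b3 := q_half ((1 / 2) ^ (a + m))
      have e : ((1 : ℝ) / 2) ^ (a + m) / 2 = (1 / 2) ^ (a + m + 1) := by ring
      rw [e] at b3
      have b4 := q_ge (x := (1 / 2) ^ (a + m + 1))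
        (pow_le_one₀ (by positivity) (pow_le_one₀ (by norm_num) (by norm_num)))
      have b5 : (((1 : ℝ) / 2) ^ (a + m + 1)) ^ 2 = (1 / 4) ^ (a + m) / 4 := by
        rw [← pow_mul, mul_comm, pow_mul]; norm_num; ring
      have b6 : ((1 : ℝ) / 64) ^ (a + m) ≤ (1 / 4) ^ (a + m) :=
        pow_le_pow_left₀ (by norm_num) (by norm_num) _
      have b7 : (0 : ℝ) < (1 / 64) ^ (a + m) := by positivity
      rw [← add_assoc, pow_succ ((1 : ℝ) / 64)]
      simp only [sg, if_true, Bool.false_eq_true, if_false]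
      linarith [b1.1, b2.2]
    have inj : ∀ b, Set.InjOn (ff b) S := by
      intro b v hv w hw e
      by_contra hne
      have := same b v hv w hw hne
      rw [e, sub_self, abs_zero] at this; linarith
    refine ⟨S.image (ff true) ∪ S.image (ff false), ?_, ?_, ?_⟩
    · intro v hv
      simp only [Finset.mem_union, Finset.mem_image] at hv
      rcases hv with ⟨w, hw, rfl⟩ | ⟨w, hw, rfl⟩ <;> exact mem_succ.mpr ⟨_, w, h1 hw, rfl⟩
    · rw [Finset.card_union_of_disjoint, Finset.card_image_of_injOn (inj _),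
        Finset.card_image_of_injOn (inj _), h2, pow_succ]
      · omega
      · rw [Finset.disjoint_left]
        intro u hu hu'
        obtain ⟨v, hv, rfl⟩ := Finset.mem_image.mp hu
        obtain ⟨w, hw, e⟩ := Finset.mem_image.mp hu'
        have := diff v hv w hw
        rw [e] at this; linarith
    · intro v hv w hw hne
      simp only [Finset.mem_union, Finset.mem_image] at hv hw
      rcases hv with ⟨v, hv, rfl⟩ | ⟨v, hv, rfl⟩ <;> rcases hw with ⟨w, hw, rfl⟩ | ⟨w, hw, rfl⟩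
      · exact same _ v hv w hw fun e => hne (by rw [e])
      · exact (diff v hv w hw).trans (le_abs_self _)
      · rw [abs_sub_comm]; exact (diff w hw v hv).trans (le_abs_self _)
      · exact same _ v hv w hw fun e => hne (by rw [e])

lemma lower (a : ℕ) (hr : ∀ n, a ≤ n → n < 16 * a → r n = 1 / 16) :
    2 ^ (15 * a) ≤ sInf (NS ((1 / 64) ^ (16 * a) / 8)) := by
  classical
  have δ0 : (0 : ℝ) < (1 / 64) ^ (16 * a) / 8 := by positivity
  obtain ⟨S, h1, h2, h3⟩ := sep a (15 * a) fun n a b => hr n a (by omega)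
  rw [show a + 15 * a = 16 * a by ring] at h1 h3
  refine le_csInf ?_ ?_
  · obtain ⟨t, -, ht, hc⟩ := K_compact.finite_cover_balls δ0
    refine ⟨_, ht.toFinset, rfl, hc.trans ?_⟩
    intro v hv
    simp only [Set.mem_iUnion] at hv ⊢
    obtain ⟨x, hx, hv⟩ := hv
    exact ⟨x, by simpa using hx, Metric.ball_subset_closedBall hv⟩
  · rintro m ⟨s, rfl, hs⟩
    have : ∀ v : E2, ∃ x, v ∈ S → x ∈ s ∧ dist v x ≤ (1 / 64) ^ (16 * a) / 8 := by
      intro v
      by_cases hv : v ∈ S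
      · have := hs (Set.mem_insert_of_mem _ (Set.mem_iUnion.mpr ⟨_, h1 hv⟩))
        simp only [Set.mem_iUnion] at this
        obtain ⟨x, hx, hv⟩ := this
        exact ⟨x, fun _ => ⟨hx, hv⟩⟩
      · exact ⟨0, fun h => absurd h hv⟩
    choose c hc using this
    rw [← h2]
    refine Finset.card_le_card_of_injOn c (fun v hv => (hc v hv).1) fun v hv w hw e => ?_
    by_contra hne
    have b1 := h3 v hv w hw hne
    have b2 := dist_triangle_right v w (c w)
    have b3 := (hc v hv).2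
    have b4 := (hc w hw).2
    rw [e] at b3
    have b5 : |v 1 - w 1| ≤ dist v w := by
      refine abs_le_of_sq_le_sq' ?_ dist_nonneg |>.2
      rw [sq_abs, dist_sq]; nlinarith [sq_nonneg (v 0 - w 0)]
    linarith

lemma lg16 {j n : ℕ} (h1 : 16 ^ j ≤ n) (h2 : n < 16 * 16 ^ j) : Nat.log 16 n = j :=
  Nat.log_eq_of_pow_le_of_lt_pow h1 (by rw [pow_succ]; omega)


/-- There exist finitely many differentiable contractions of some R^d whose attractor K (nonempty compact, K = union of images) has log N(δ)/(-log δ) with no limit as δ→0+, N(δ) the least number of δ-balls covering K. -/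
theorem result :
    ∃ (d n : ℕ) (f : Fin n → EuclideanSpace ℝ (Fin d) → EuclideanSpace ℝ (Fin d))
      (K : Set (EuclideanSpace ℝ (Fin d))),
      (∀ i, Differentiable ℝ (f i)) ∧
      (∀ i, ∃ c : NNReal, ContractingWith c (f i)) ∧
      K.Nonempty ∧ IsCompact K ∧ K = ⋃ i, f i '' K ∧
      ¬ ∃ L : ℝ, Filter.Tendsto
        (fun δ : ℝ =>
          Real.log ((sInf {m : ℕ | ∃ s : Finset (EuclideanSpace ℝ (Fin d)),
              s.card = m ∧ K ⊆ ⋃ x ∈ s, Metric.closedBall x δ} : ℕ) : ℝ)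
            / (-Real.log δ))
        (nhdsWithin 0 (Set.Ioi 0)) (nhds L) := by
  refine ⟨2, 3, fam, K, ?_, ?_, ⟨0, Set.mem_insert _ _⟩, K_compact, K_eq, ?_⟩
  · intro i
    fin_cases i
    · exact ff_diff true
    · exact ff_diff false
    · exact differentiable_const _
  · intro i
    fin_cases i
    · exact ⟨_, ff_contr true⟩
    · exact ⟨_, ff_contr false⟩
    · exact ⟨0, one_pos, LipschitzWith.const _⟩
  rintro ⟨L, hL⟩
  have hev := hL.eventually (Ioo_mem_nhds (show L - 1 / 30 < L by linarith)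
    (show L < L + 1 / 30 by linarith))
  obtain ⟨η, hη, hb⟩ := (mem_nhdsGT_iff_exists_Ioo_subset).mp hev
  obtain ⟨j, hj⟩ := exists_pow_lt_of_lt_one hη (show (1 : ℝ) / 4 < 1 by norm_num)
  have l2 : 0 < Real.log 2 := Real.log_pos (by norm_num)
  have l4 : Real.log 4 = 2 * Real.log 2 := by
    rw [show (4 : ℝ) = 2 ^ 2 by norm_num, Real.log_pow]; norm_num
  have l8 : Real.log 8 = 3 * Real.log 2 := by
    rw [show (8 : ℝ) = 2 ^ 3 by norm_num, Real.log_pow]; norm_num
  have l64 : Real.log 64 = 6 * Real.log 2 := by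
    rw [show (64 : ℝ) = 2 ^ 6 by norm_num, Real.log_pow]; norm_num
  have big : ∀ i : ℕ, i < 16 ^ i := fun i => Nat.lt_pow_self (by norm_num)
  have U : L - 1 / 30 < 1 / 16 := by
    obtain ⟨a, ha, ha5, hr⟩ : ∃ a : ℕ, j ≤ a ∧ 5 ≤ a ∧ ∀ n, a ≤ n → n < 16 * a → r n = 0 := by
      refine ⟨16 ^ (2 * j + 6), by have := big (2 * j + 6); omega,
        by have := big (2 * j + 6); omega, fun n h1 h2 => ?_⟩
      rw [r, lg16 h1 h2, if_neg]
      rw [Nat.odd_iff]; omega
    have h1 := upper a ha5 hr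
    have h2 := (hb (show ((1 : ℝ) / 4) ^ (16 * a) ∈ Set.Ioo 0 η from ⟨by positivity,
      lt_of_le_of_lt (pow_le_pow_of_le_one (by norm_num) (by norm_num) (by omega)) hj⟩)).1
    refine h2.trans_le ?_
    have a0 : (0 : ℝ) < a := by exact_mod_cast (by omega : 0 < a)
    have e : -Real.log (((1 : ℝ) / 4) ^ (16 * a)) = 32 * a * Real.log 2 := by
      rw [Real.log_pow, one_div, Real.log_inv, l4]; push_cast; ring
    have h3 : Real.log ((sInf (NS ((1 / 4) ^ (16 * a))) : ℕ) : ℝ) ≤ 2 * a * Real.log 2 := by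
      rcases Nat.eq_zero_or_pos (sInf (NS ((1 / 4) ^ (16 * a)))) with h | h
      · rw [h]; simp; positivity
      · refine (Real.log_le_log (by exact_mod_cast h)
          (show _ ≤ (4 : ℝ) ^ a by exact_mod_cast h1)).trans ?_
        rw [Real.log_pow, l4]; linarith
    show Real.log ((sInf (NS ((1 / 4) ^ (16 * a))) : ℕ) : ℝ) / _ ≤ _
    rw [e, div_le_iff₀ (by positivity)]
    linarith
  have D : 1 / 7 < L + 1 / 30 := by
    obtain ⟨a, ha, ha5, hr⟩ : ∃ a : ℕ, j ≤ a ∧ 1 ≤ a ∧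
        ∀ n, a ≤ n → n < 16 * a → r n = 1 / 16 := by
      refine ⟨16 ^ (2 * j + 1), by have := big (2 * j + 1); omega,
        by have := big (2 * j + 1); omega, fun n h1 h2 => ?_⟩
      rw [r, lg16 h1 h2, if_pos]
      rw [Nat.odd_iff]; omega
    have h1 := lower a hr
    have b1 : ((1 : ℝ) / 64) ^ (16 * a) ≤ (1 / 4) ^ (16 * a) :=
      pow_le_pow_left₀ (by norm_num) (by norm_num) _
    have b2 : ((1 : ℝ) / 4) ^ (16 * a) ≤ (1 / 4) ^ j :=
      pow_le_pow_of_le_one (by norm_num) (by norm_num) (by omega)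
    have b3 : (0 : ℝ) < (1 / 64) ^ (16 * a) := by positivity
    have h2 := (hb (show ((1 : ℝ) / 64) ^ (16 * a) / 8 ∈ Set.Ioo 0 η from ⟨by positivity,
      by linarith⟩)).2
    refine lt_of_le_of_lt ?_ h2
    have a0 : (1 : ℝ) ≤ a := by exact_mod_cast ha5
    have e : -Real.log (((1 : ℝ) / 64) ^ (16 * a) / 8) = (96 * a + 3) * Real.log 2 := by
      rw [Real.log_div b3.ne' (by norm_num), Real.log_pow, one_div, Real.log_inv, l64, l8]
      push_cast; ring
    have h3 : 15 * a * Real.log 2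
        ≤ Real.log ((sInf (NS ((1 / 64) ^ (16 * a) / 8)) : ℕ) : ℝ) := by
      refine le_trans ?_ (Real.log_le_log (show (0 : ℝ) < 2 ^ (15 * a) by positivity)
        (by exact_mod_cast h1))
      rw [Real.log_pow]; push_cast; rfl
    show _ ≤ Real.log ((sInf (NS ((1 / 64) ^ (16 * a) / 8)) : ℕ) : ℝ) / _
    rw [e, le_div_iff₀ (by positivity)]
    nlinarith
  linarith

end Pool.Agent.S05845
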