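import Pool.Statements.S05855
import Pool.Agent.H9.LEmb

set_option autoImplicit false
open Pool Pool.MP_b17c32_an

namespace Pool.Agent.S05855

/-- Over ℝ or ℂ, if a Banach space X is L-embedded (an L-summand in its bidual) and a closed subspace W is an ideal (its annihilator is the kernel of a norm-at-most-one projection on the dual), then W is L-embedded. -/
theorem result :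
    ∀ (𝕜 : Type) [RCLike 𝕜] (X : Type) [NormedAddCommGroup X] [NormedSpace 𝕜 X]
      [CompleteSpace X] (W : Submodule 𝕜 X),
      (∃ Q : ((X →L[𝕜] 𝕜) →L[𝕜] 𝕜) →L[𝕜] ((X →L[𝕜] 𝕜) →L[𝕜] 𝕜),
          Q.comp Q = Q ∧
          (∀ Φ : (X →L[𝕜] 𝕜) →L[𝕜] 𝕜, (∃ x : X, ∀ f : X →L[𝕜] 𝕜, Φ f = f x) ↔ Q Φ = Φ) ∧
          (∀ Φ : (X →L[𝕜] 𝕜) →L[𝕜] 𝕜, ‖Φ‖ = ‖Q Φ‖ + ‖Φ - Q Φ‖)) →
      IsClosed (W : Set X) →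
      (∃ P : (X →L[𝕜] 𝕜) →L[𝕜] (X →L[𝕜] 𝕜),
          P.comp P = P ∧ ‖P‖ ≤ 1 ∧
          (∀ f : X →L[𝕜] 𝕜, P f = 0 ↔ ∀ w ∈ W, f w = 0)) →
      (∃ Q : ((W →L[𝕜] 𝕜) →L[𝕜] 𝕜) →L[𝕜] ((W →L[𝕜] 𝕜) →L[𝕜] 𝕜),
          Q.comp Q = Q ∧
          (∀ Φ : (W →L[𝕜] 𝕜) →L[𝕜] 𝕜, (∃ y : W, ∀ f : W →L[𝕜] 𝕜, Φ f = f y) ↔ Q Φ = Φ) ∧
          (∀ Φ : (W →L[𝕜] 𝕜) →L[𝕜] 𝕜, ‖Φ‖ = ‖Q Φ‖ + ‖Φ - Q Φ‖)) := by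
  rintro 𝕜 _ X _ _ _ W ⟨L, h1, h2, h3⟩ hW ⟨P, h4, h5, h6⟩
  have h7 : ∀ a, L (L a) = L a := fun a => DFunLike.congr_fun h1 a
  exact H9.LEmb.main W L h7 h2 h3
    (H9.LEmb.key W hW L h7 h2 h3 P (fun a => DFunLike.congr_fun h4 a) h5 h6)

end Pool.Agent.S05855
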