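import Pool.Statements.S05866
import Pool.Agent.H18.Alt
-- import your own Pool.Agent.* helpers here

set_option autoImplicit false
open Pool Pool.MP_b372c7_an

namespace Pool.Agent.S05866

open Pool.Agent.H18.Alt RealInnerProductSpace

abbrev HH : Type := lp (fun _ : ℕ => ℝ) 2

noncomputable def ee (i : ℕ) : HH := lp.single 2 i (1 : ℝ)

lemma ee_on : Orthonormal ℝ ee := by
  rw [orthonormal_iff_ite]
  intro i j
  unfold ee
  rw [lp.inner_single_left, lp.single_apply]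
  by_cases h : i = j
  · subst h; simp
  · simp [h]

noncomputable def AA : HH →ₗ[ℝ] HH :=
  LinearMap.id + (LinearMap.toSpanSingleton ℝ HH (ee 0)).comp (innerₛₗ ℝ (ee 0))

lemma AA_apply (x : HH) : AA x = x + ⟪ee 0, x⟫ • ee 0 := by
  simp [AA]

lemma AA_sq (x : HH) : ‖AA x‖ ^ 2 = ‖x‖ ^ 2 + 3 * ⟪ee 0, x⟫ ^ 2 := by
  rw [AA_apply, norm_add_sq_real, inner_smul_right, norm_smul, ee_on.1 0, real_inner_comm,
    Real.norm_eq_abs, mul_one, sq_abs]
  ring

lemma AA_lo (x : HH) : ‖x‖ ≤ ‖AA x‖ := by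
  apply le_of_pow_le_pow_left₀ two_ne_zero (norm_nonneg _)
  rw [AA_sq]; nlinarith [sq_nonneg ⟪ee 0, x⟫]

lemma AA_hi (x : HH) : ‖AA x‖ ≤ 2 * ‖x‖ := by
  apply le_of_pow_le_pow_left₀ two_ne_zero (by positivity)
  rw [AA_sq]
  have h := abs_real_inner_le_norm (ee 0) x
  rw [ee_on.1 0, one_mul] at h
  have h2 : ⟪ee 0, x⟫ ^ 2 ≤ ‖x‖ ^ 2 := by rw [← sq_abs]; gcongr
  nlinarith

noncomputable def uu (x : HH) : HH := ‖x‖⁻¹ • x

lemma uu_smul (x : HH) : ‖x‖ • uu x = x := by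
  by_cases h : x = 0
  · simp [h]
  · rw [uu, smul_smul, mul_inv_cancel₀ (norm_ne_zero_iff.2 h), one_smul]

lemma uu_le (x : HH) : ‖uu x‖ ≤ 1 := by
  rw [uu, norm_smul, norm_inv, norm_norm]
  exact inv_mul_le_one_of_le₀ le_rfl (norm_nonneg _)

lemma uu_inner (x : HH) : ⟪uu x, x⟫ = ‖x‖ := by
  by_cases h : x = 0
  · simp [h]
  · rw [uu, inner_smul_left, real_inner_self_eq_norm_sq]
    have := norm_ne_zero_iff.2 h
    simp only [conj_trivial]
    field_simp

lemma uu_inner_le (x h : HH) : ⟪uu x, h⟫ ≤ ‖h‖ :=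
  (real_inner_le_norm _ _).trans (mul_le_of_le_one_left (norm_nonneg _) (uu_le x))

lemma uu_lip (a b : HH) : ‖b‖ * ‖uu a - uu b‖ ≤ 2 * ‖a - b‖ := by
  have e : ‖b‖ • (uu a - uu b) = (‖b‖ - ‖a‖) • uu a + (a - b) := by
    rw [smul_sub, sub_smul, uu_smul, uu_smul]; abel
  have h1 : ‖b‖ * ‖uu a - uu b‖ = ‖‖b‖ • (uu a - uu b)‖ := by rw [norm_smul, norm_norm]
  rw [h1, e]
  refine (norm_add_le _ _).trans ?_
  rw [norm_smul]
  have h2 : ‖‖b‖ - ‖a‖‖ ≤ ‖a - b‖ := by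
    rw [norm_sub_rev a b]; exact abs_norm_sub_norm_le b a
  have h3 := uu_le a
  nlinarith [norm_nonneg (‖b‖ - ‖a‖), norm_nonneg (uu a)]

lemma su_lip (a b : HH) (s t C : ℝ) (ht : 0 ≤ t) (hC : 0 ≤ C) (h : t ≤ C * ‖b‖) :
    ‖s • uu a - t • uu b‖ ≤ |s - t| + C * (2 * ‖a - b‖) := by
  have e : s • uu a - t • uu b = (s - t) • uu a + t • (uu a - uu b) := by module
  rw [e]
  refine (norm_add_le _ _).trans (add_le_add ?_ ?_)
  · rw [norm_smul]; exact mul_le_of_le_one_right (norm_nonneg _) (uu_le a)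
  · rw [norm_smul, Real.norm_eq_abs, abs_of_nonneg ht]
    calc t * ‖uu a - uu b‖ ≤ C * ‖b‖ * ‖uu a - uu b‖ := by gcongr
      _ = C * (‖b‖ * ‖uu a - uu b‖) := by ring
      _ ≤ _ := mul_le_mul_of_nonneg_left (uu_lip a b) hC

def EE : Type := HH

noncomputable instance : AddCommGroup EE := inferInstanceAs (AddCommGroup HH)
noncomputable instance : Module ℝ EE := inferInstanceAs (Module ℝ HH)

noncomputable def toH : EE ≃ₗ[ℝ] HH := LinearEquiv.refl ℝ HH

noncomputable def TT : EE →ₗ[ℝ] WithLp 2 (HH × WithLp 1 (HH × HH)) :=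
  (WithLp.linearEquiv 2 ℝ _).symm.toLinearMap ∘ₗ
    ((LinearMap.id : HH →ₗ[ℝ] HH).prod
      ((WithLp.linearEquiv 1 ℝ (HH × HH)).symm.toLinearMap ∘ₗ (LinearMap.id.prod AA))) ∘ₗ
    toH.toLinearMap

lemma TT_inj : Function.Injective TT := by
  intro x y h
  apply toH.injective
  exact congrArg (fun z : WithLp 2 (HH × WithLp 1 (HH × HH)) => z.fst) h

noncomputable instance : NormedAddCommGroup EE := NormedAddCommGroup.induced EE _ TT TT_inj
noncomputable instance : NormedSpace ℝ EE := NormedSpace.induced ℝ EE _ TT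

lemma nsq (x : EE) : ‖x‖ ^ 2 = ‖toH x‖ ^ 2 + (‖toH x‖ + ‖AA (toH x)‖) ^ 2 := by
  change ‖TT x‖ ^ 2 = _
  rw [WithLp.prod_norm_sq_eq_of_L2, WithLp.prod_norm_eq_of_L1]
  rfl

lemma n_lo (x : EE) : ‖toH x‖ ≤ ‖x‖ := by
  apply le_of_pow_le_pow_left₀ two_ne_zero (norm_nonneg _)
  rw [nsq]; nlinarith [sq_nonneg (‖toH x‖ + ‖AA (toH x)‖)]

lemma n_hi (x : EE) : ‖x‖ ^ 2 ≤ 10 * ‖toH x‖ ^ 2 := by
  rw [nsq]
  have h := AA_hi (toH x)
  have : (‖toH x‖ + ‖AA (toH x)‖) ^ 2 ≤ (3 * ‖toH x‖) ^ 2 := by gcongr; linarith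
  nlinarith

noncomputable def toHL : EE ≃L[ℝ] HH :=
  toH.toContinuousLinearEquivOfBounds 1 4 (fun x => by simpa using n_lo x) (fun y => by
    apply le_of_pow_le_pow_left₀ two_ne_zero (by positivity)
    have := n_hi (toH.symm y)
    rw [LinearEquiv.apply_symm_apply] at this
    nlinarith [sq_nonneg ‖y‖])

instance : CompleteSpace EE :=
  (completeSpace_congr (e := toHL.toEquiv) toHL.isUniformEmbedding).2 inferInstance

lemma refl_EE : Function.Surjective (NormedSpace.inclusionInDoubleDual ℝ EE) := by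
  intro Φ
  let J : HH →L[ℝ] StrongDual ℝ EE :=
    ((ContinuousLinearMap.compL ℝ EE HH ℝ).flip (toHL : EE →L[ℝ] HH)) ∘L (innerSL ℝ)
  let w : HH := (InnerProductSpace.toDual ℝ HH).symm (Φ ∘L J)
  refine ⟨toHL.symm w, ?_⟩
  ext f
  let v : HH := (InnerProductSpace.toDual ℝ HH).symm (f ∘L (toHL.symm : HH →L[ℝ] EE))
  have hv : J v = f := by
    ext x
    change ⟪v, toHL x⟫ = _
    simp [v, InnerProductSpace.toDual_symm_apply]
  have h1 : ⟪w, v⟫ = Φ (J v) := by simp [w, InnerProductSpace.toDual_symm_apply]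
  have h2 : ⟪v, w⟫ = f (toHL.symm w) := by simp [v, InnerProductSpace.toDual_symm_apply]
  rw [NormedSpace.dual_def, ← h2, real_inner_comm, h1, hv]

lemma inf_EE : ¬ FiniteDimensional ℝ EE := by
  intro h
  have : FiniteDimensional ℝ HH := toH.finiteDimensional
  exact Module.Finite.not_linearIndependent_of_infinite ee ee_on.linearIndependent

noncomputable def MM (x : HH) : ℝ := ‖x‖ + ‖AA x‖

noncomputable def DD (x : EE) : EE →ₗ[ℝ] ℝ :=
  (innerₛₗ ℝ (toH x) + innerₛₗ ℝ (MM (toH x) • uu (toH x)) +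
    (innerₛₗ ℝ (MM (toH x) • uu (AA (toH x)))) ∘ₗ AA) ∘ₗ toH.toLinearMap

lemma DD_apply (x h : EE) : DD x h = ⟪toH x, toH h⟫ + ⟪MM (toH x) • uu (toH x), toH h⟫ +
    ⟪MM (toH x) • uu (AA (toH x)), AA (toH h)⟫ := rfl

lemma good : Good DD (1 / 10) 32 where
  cpos := by norm_num
  Lpos := by norm_num
  self x := by
    rw [DD_apply, nsq, real_inner_smul_left, real_inner_smul_left, uu_inner, uu_inner,
      real_inner_self_eq_norm_sq, MM]
    ring
  conv x h := by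
    have h0 := n_hi h
    rw [DD_apply, nsq x, nsq (x + h), real_inner_smul_left, real_inner_smul_left, map_add, map_add]
    set a := toH x
    set b := toH h
    have h1 := uu_inner_le a (a + b)
    have h2 := uu_inner_le (AA a) (AA a + AA b)
    rw [inner_add_right, uu_inner] at h1 h2
    rw [norm_add_sq_real a b]
    have hM : 0 ≤ MM a := by unfold MM; positivity
    have h3 : MM a * (MM a + ⟪uu a, b⟫ + ⟪uu (AA a), AA b⟫) ≤
        MM a * (‖a + b‖ + ‖AA a + AA b‖) := by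
      apply mul_le_mul_of_nonneg_left _ hM
      unfold MM; linarith
    have e : ‖a‖ + ‖AA a‖ = MM a := rfl
    rw [e]
    nlinarith [sq_nonneg (‖a + b‖ + ‖AA a + AA b‖ - MM a)]
  lip x y h := by
    have h0 := n_lo h
    have h00 := n_lo (x - y)
    rw [map_sub] at h00
    rw [DD_apply, DD_apply]
    set a := toH x
    set b := toH y
    set k := toH h
    have hM : 0 ≤ MM b := by unfold MM; positivity
    have hab := AA_hi (a - b)
    rw [map_sub] at hab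
    have m1 : |MM a - MM b| ≤ 3 * ‖a - b‖ := by
      have q1 := abs_le.1 (abs_norm_sub_norm_le a b)
      have q2 := abs_le.1 (abs_norm_sub_norm_le (AA a) (AA b))
      unfold MM
      rw [abs_le]; constructor <;> linarith [q1.1, q1.2, q2.1, q2.2]
    have s1 := su_lip a b (MM a) (MM b) 3 hM (by norm_num)
      (by unfold MM; linarith [AA_hi b])
    have s2 := su_lip (AA a) (AA b) (MM a) (MM b) 2 hM (by norm_num)
      (by unfold MM; linarith [AA_lo b])
    have t1 := abs_real_inner_le_norm (a - b) k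
    have t2 := abs_real_inner_le_norm (MM a • uu a - MM b • uu b) k
    have t3 := abs_real_inner_le_norm (MM a • uu (AA a) - MM b • uu (AA b)) (AA k)
    rw [inner_sub_left] at t1 t2 t3
    have t2' : ‖MM a • uu a - MM b • uu b‖ * ‖k‖ ≤ (9 * ‖a - b‖) * ‖k‖ := by
      gcongr; linarith
    have t3' : ‖MM a • uu (AA a) - MM b • uu (AA b)‖ * ‖AA k‖ ≤ (11 * ‖a - b‖) * (2 * ‖k‖) := by
      gcongr
      · linarith
      · exact AA_hi k
    have t4 : ‖a - b‖ * ‖k‖ ≤ ‖x - y‖ * ‖h‖ := by gcongr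
    rw [abs_le] at t1 t2 t3 ⊢
    constructor <;> nlinarith [t1.1, t1.2, t2.1, t2.2, t3.1, t3.2]

lemma not_par : ¬ ∀ x y : EE, ‖x + y‖ ^ 2 + ‖x - y‖ ^ 2 = 2 * (‖x‖ ^ 2 + ‖y‖ ^ 2) := by
  intro h
  have h1 := h (toH.symm (ee 0)) (toH.symm (ee 1))
  simp only [nsq, map_add toH, map_sub toH, LinearEquiv.apply_symm_apply] at h1
  have i00 : ⟪ee 0, ee 0⟫ = 1 := by rw [real_inner_self_eq_norm_sq, ee_on.1 0]; norm_num
  have i01 : ⟪ee 0, ee 1⟫ = 0 := ee_on.2 (by norm_num)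
  have n0 := ee_on.1 0
  have n1 := ee_on.1 1
  have a0 : ‖AA (ee 0)‖ = 2 := by
    apply (pow_left_inj₀ (norm_nonneg _) (by norm_num) two_ne_zero).1
    rw [AA_sq, n0, i00]; norm_num
  have a1 : ‖AA (ee 1)‖ = 1 := by
    apply (pow_left_inj₀ (norm_nonneg _) (by norm_num) two_ne_zero).1
    rw [AA_sq, n1, i01]; norm_num
  have p1 : ‖ee 0 + ee 1‖ ^ 2 = 2 := by rw [norm_add_sq_real, n0, n1, i01]; norm_num
  have p2 : ‖ee 0 - ee 1‖ ^ 2 = 2 := by rw [norm_sub_sq_real, n0, n1, i01]; norm_num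
  have q1 : ‖AA (ee 0 + ee 1)‖ ^ 2 = 5 := by
    rw [AA_sq, p1, inner_add_right, i00, i01]; norm_num
  have q2 : ‖AA (ee 0 - ee 1)‖ ^ 2 = 5 := by
    rw [AA_sq, p2, inner_sub_right, i00, i01]; norm_num
  have big : ∀ s t : ℝ, 0 ≤ s → 0 ≤ t → s ^ 2 = 2 → t ^ 2 = 5 → 3 < s * t := by
    intro s t hs ht h2 h5
    apply lt_of_pow_lt_pow_left₀ 2 (by positivity)
    rw [mul_pow, h2, h5]; norm_num
  have b1 := big _ _ (norm_nonneg _) (norm_nonneg _) p1 q1
  have b2 := big _ _ (norm_nonneg _) (norm_nonneg _) p2 q2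
  rw [n0, n1, a0, a1] at h1
  nlinarith

/-- The negation of the preceding statement: Every infinite-dimensional real or complex Banach space that is reflexive, strictly convex and admits the alternating method for metric projections satisfies the parallelogram law, i.e. its norm comes from an inner product. -/
theorem result :
    ¬ (∀ (𝕜 : Type) [RCLike 𝕜] (E : Type) [NormedAddCommGroup E] [NormedSpace 𝕜 E] [CompleteSpace E],
    ¬ FiniteDimensional 𝕜 E →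
    Function.Surjective (NormedSpace.inclusionInDoubleDual 𝕜 E) →
    (∀ x y : E, ‖x‖ = 1 → ‖y‖ = 1 → x ≠ y → ‖x + y‖ < 2) →
    (∀ (G₁ G₂ : Submodule 𝕜 E), IsClosed (G₁ : Set E) → IsClosed (G₂ : Set E) →
      ∀ r : ℕ → E,
        (∀ k : ℕ, r (2 * k) - r (2 * k + 1) ∈ G₁ ∧
            ‖r (2 * k + 1)‖ = Metric.infDist (r (2 * k)) (G₁ : Set E)) →
        (∀ k : ℕ, r (2 * k + 1) - r (2 * k + 2) ∈ G₂ ∧
            ‖r (2 * k + 2)‖ = Metric.infDist (r (2 * k + 1)) (G₂ : Set E)) →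
        ∃ y : E, Filter.Tendsto r Filter.atTop (nhds y) ∧
          r 0 - y ∈ (G₁ ⊔ G₂).topologicalClosure ∧
          ‖y‖ = Metric.infDist (r 0) ((G₁ ⊔ G₂).topologicalClosure : Set E)) →
    ∀ x y : E, ‖x + y‖ ^ 2 + ‖x - y‖ ^ 2 = 2 * (‖x‖ ^ 2 + ‖y‖ ^ 2)) := by
  intro h
  exact not_par (h ℝ EE inf_EE refl_EE good.strict
    (fun G₁ G₂ _ _ r h1 h2 => good.alt G₁ G₂ r h1 h2))

end Pool.Agent.S05866
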