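import Pool.Statements.S05892
import Pool.Agent.H4.Cmn2

set_option autoImplicit false
open scoped NNReal ENNReal
open Pool Pool.MP_b6a3e4_an

namespace Pool.Agent.S05892

/-- The negation of the preceding statement: Let T be a continuous operator on a complex separable Fréchet space and 0≤a<b≤∞. If for each α in (a,b) the spans of eigenvectors with eigenvalues of modulus <α and >α are dense, then some x has a dense zT-orbit for every z with 1/b<∣z∣<1/a. -/
theorem result :
    ¬ (∀ (X : Type) [AddCommGroup X] [Module ℂ X] [UniformSpace X] [IsUniformAddGroup X]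
    [ContinuousSMul ℂ X] [LocallyConvexSpace ℝ X] [TopologicalSpace.MetrizableSpace X]
    [CompleteSpace X] [TopologicalSpace.SeparableSpace X]
    (T : X →L[ℂ] X) (a : ℝ≥0) (b : ℝ≥0∞), (a : ℝ≥0∞) < b →
    (∀ α : ℝ≥0, a < α → (α : ℝ≥0∞) < b →
      Dense ((Submodule.span ℂ {x : X | ∃ z : ℂ, ‖z‖₊ < α ∧ T x = z • x}) : Set X) ∧
      Dense ((Submodule.span ℂ {x : X | ∃ z : ℂ, α < ‖z‖₊ ∧ T x = z • x}) : Set X)) →
    ∃ x : X, ∀ z : ℂ, (a : ℝ≥0∞) * (‖z‖₊ : ℝ≥0∞) < 1 → 1 < b * (‖z‖₊ : ℝ≥0∞) →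
      Dense (Set.range (fun n : ℕ => ((z • T) ^ n) x))) := by
  intro h
  obtain ⟨x, hx⟩ := @h (H4.Com.X × H4.Com.X) _ _ _ _ _
    (@NormedSpace.toLocallyConvexSpace _ _ NormedSpace.complexToReal) _ _ _ H4.Com.T 2 8
    (by norm_num) (fun α h1 h2 => ⟨H4.Com.dense_T 1 (Or.inl rfl) _ fun z hz => by
        have : (2 : ℝ) < α := by exact_mod_cast h1
        rw [← NNReal.coe_lt_coe, coe_nnnorm]
        rcases hz with hz | hz <;> linarith,
      H4.Com.dense_T 8 (Or.inr rfl) _ fun z hz => by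
        have : (α : ℝ) < 8 := by exact_mod_cast h2
        rw [← NNReal.coe_lt_coe, coe_nnnorm]
        rcases hz with hz | hz <;> linarith⟩)
  refine H4.Com.no_common x fun l hl => hx l ?_ ?_
  · have : (2 : ℝ) * ‖(l : ℂ)‖₊ < 1 := by
      rw [coe_nnnorm, Complex.norm_of_nonneg (by linarith [hl.1])]; linarith [hl.2]
    exact_mod_cast this
  · have : (1 : ℝ) < 8 * ‖(l : ℂ)‖₊ := by
      rw [coe_nnnorm, Complex.norm_of_nonneg (by linarith [hl.1])]; linarith [hl.1]
    exact_mod_cast this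

end Pool.Agent.S05892
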