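import Pool.Statements.S05912
-- import your own Pool.Agent.* helpers here

set_option autoImplicit false
open Filter Topology
open Pool Pool.MP_b82e9e_an

namespace Pool.Agent.S05912

abbrev St := ℕ × ℕ × ℕ × ℕ

def bad (N t : ℕ) : Prop := t % N ^ 2 < N ∧ t < N ^ 4

instance (N t : ℕ) : Decidable (bad N t) := by unfold bad; infer_instance

noncomputable def lev (N j : ℕ) : ℝ := max 0 (1 - (j : ℝ) / N)

def FF (z : St) : Set St :=
  {y | y.1 = z.1 ∧ y.2.2.2 = z.2.2.2 + 1 ∧ z.2.1 ≤ y.2.1 ∧ (y.2.2.1 ≠ z.2.2.1 → z.2.1 < y.2.1)}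

noncomputable def rr (z : St) : ℝ :=
  if bad z.1 (z.2.2.2 - 1) ∧ z.2.2.1 ≠ (z.2.2.2 - 1) / z.1 ^ 2 then 0 else lev z.1 z.2.1

theorem lev_nonneg (N j : ℕ) : 0 ≤ lev N j := le_max_left _ _

theorem lev_le_one (N j : ℕ) : lev N j ≤ 1 := by
  unfold lev
  apply max_le zero_le_one
  have : (0 : ℝ) ≤ (j : ℝ) / N := by positivity
  linarith

theorem lev_anti (N : ℕ) {j j' : ℕ} (h : j ≤ j') : lev N j' ≤ lev N j := by
  unfold lev
  apply max_le_max le_rfl
  have : (j : ℝ) / N ≤ (j' : ℝ) / N := by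
    apply div_le_div_of_nonneg_right _ (Nat.cast_nonneg _)
    exact_mod_cast h
  linarith

theorem lev_add (N j d : ℕ) : lev N j - (d : ℝ) / N ≤ lev N (j + d) := by
  unfold lev
  have h0 : (0 : ℝ) ≤ (d : ℝ) / N := by positivity
  have h1 : ((j + d : ℕ) : ℝ) / N = (j : ℝ) / N + (d : ℝ) / N := by push_cast; ring
  rw [h1]
  rcases le_total 0 (1 - (j : ℝ) / N) with h | h
  · rw [max_eq_right h]
    exact le_trans (by linarith) (le_max_right _ _)
  · rw [max_eq_left h]
    exact le_trans (by linarith) (le_max_left _ _)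

theorem rr_nonneg (z : St) : 0 ≤ rr z := by
  unfold rr; split_ifs
  · exact le_rfl
  · exact lev_nonneg _ _

theorem rr_le_lev (z : St) : rr z ≤ lev z.1 z.2.1 := by
  unfold rr; split_ifs
  · exact lev_nonneg _ _
  · exact le_rfl

theorem play_facts (s : ℕ → St) (hs : ∀ t, s (t + 1) ∈ FF (s t)) (u d : ℕ) :
    (s (u + d)).1 = (s u).1 ∧ (s (u + d)).2.2.2 = (s u).2.2.2 + d ∧ (s u).2.1 ≤ (s (u + d)).2.1 ∧
      ((s (u + d)).2.2.1 ≠ (s u).2.2.1 → (s u).2.1 < (s (u + d)).2.1) := by
  induction d with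
  | zero => simp
  | succ d ih =>
    obtain ⟨a, b, c, e⟩ := ih
    obtain ⟨a', b', c', e'⟩ := hs (u + d)
    rw [← add_assoc]
    refine ⟨a'.trans a, by omega, c.trans c', ?_⟩
    intro h
    by_cases h1 : (s (u + d + 1)).2.2.1 = (s (u + d)).2.2.1
    · have := e (by rw [← h1]; exact h)
      omega
    · have := e' h1
      omega

def val (θ : ℕ → ℝ) (z : St) : Set ℝ :=
  {x : ℝ | ∃ s : ℕ → St, s 0 = z ∧ (∀ t, s (t + 1) ∈ FF (s t)) ∧ x = ∑' t, θ t * rr (s (t + 1))}

def lazy (z : St) (i : ℕ) : St := (z.1, z.2.1, z.2.2.1, z.2.2.2 + i)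

theorem lazy_play (z : St) (t : ℕ) : lazy z (t + 1) ∈ FF (lazy z t) := by
  refine ⟨rfl, ?_, le_rfl, fun h => absurd rfl h⟩
  simp [lazy, add_assoc]

theorem val_nonempty (θ : ℕ → ℝ) (z : St) : (val θ z).Nonempty :=
  ⟨_, lazy z, by simp [lazy], lazy_play z, rfl⟩

theorem val_le (θ : ℕ → ℝ) (h0 : ∀ t, 0 ≤ θ t) (h1 : HasSum θ 1) (z : St) :
    ∀ x ∈ val θ z, x ≤ lev z.1 z.2.1 := by
  rintro x ⟨s, hs0, hs, rfl⟩
  have hb : ∀ t, θ t * rr (s (t + 1)) ≤ θ t * lev z.1 z.2.1 := by
    intro t
    apply mul_le_mul_of_nonneg_left _ (h0 t)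
    have := play_facts s hs 0 (t + 1)
    simp only [zero_add, hs0] at this
    refine (rr_le_lev _).trans ?_
    rw [this.1]
    exact lev_anti _ this.2.2.1
  have h2 : HasSum (fun t => θ t * lev z.1 z.2.1) (lev z.1 z.2.1) := by
    simpa using h1.mul_right (lev z.1 z.2.1)
  have h3 : Summable (fun t => θ t * rr (s (t + 1))) :=
    Summable.of_nonneg_of_le (fun t => mul_nonneg (h0 t) (rr_nonneg _)) hb h2.summable
  rw [← h2.tsum_eq]
  exact h3.tsum_le_tsum hb h2.summable

/-- lower bound through a play that earns at least `L` outside a finite set `E` -/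
theorem le_val (θ : ℕ → ℝ) (h0 : ∀ t, 0 ≤ θ t) (h1 : HasSum θ 1) (z : St) (s : ℕ → St)
    (hs0 : s 0 = z) (hs : ∀ t, s (t + 1) ∈ FF (s t)) (E : Finset ℕ) (L c : ℝ) (hL : L ≤ 1)
    (hc : ∀ t, θ t ≤ c) (hE : ∀ t, t ∉ E → θ t = 0 ∨ L ≤ rr (s (t + 1))) :
    L - E.card * c ≤ sSup (val θ z) := by
  classical
  refine le_trans ?_ (le_csSup ⟨_, val_le θ h0 h1 z⟩ ⟨s, hs0, hs, rfl⟩)
  have h2 : HasSum (fun t => θ t * L) L := by simpa using h1.mul_right L
  have h4 : HasSum (fun t => if t ∈ E then c else 0) (E.card * c) := by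
    have := hasSum_sum_of_ne_finset_zero (L := SummationFilter.unconditional ℕ) (f := fun t => if t ∈ E then c else 0) (s := E)
      (fun b hb => if_neg hb)
    convert this using 1
    rw [Finset.sum_congr rfl (fun b hb => if_pos hb)]
    simp
  have h5 := h2.sub h4
  have h3 : Summable (fun t => θ t * rr (s (t + 1))) := by
    refine Summable.of_nonneg_of_le (fun t => mul_nonneg (h0 t) (rr_nonneg _)) (fun t => ?_)
      h1.summable
    have := (rr_le_lev (s (t + 1))).trans (lev_le_one _ _)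
    nlinarith [h0 t]
  rw [← h5.tsum_eq]
  refine h5.summable.tsum_le_tsum (fun t => ?_) h3
  have r0 := rr_nonneg (s (t + 1))
  have := h0 t
  have := hc t
  by_cases ht : t ∈ E
  · rw [if_pos ht]
    nlinarith [mul_nonneg (h0 t) r0]
  · rw [if_neg ht]
    rcases hE t ht with h | h
    · simp [h]
    · nlinarith

noncomputable def ces (n t : ℕ) : ℝ := if t < n + 1 then 1 / ((n : ℝ) + 1) else 0

theorem ces_nonneg (n t : ℕ) : 0 ≤ ces n t := by
  unfold ces; split_ifs <;> positivity

theorem ces_le (n t : ℕ) : ces n t ≤ 1 / ((n : ℝ) + 1) := by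
  unfold ces; split_ifs
  · exact le_rfl
  · positivity

theorem ces_sum (n : ℕ) : HasSum (ces n) 1 := by
  have := hasSum_sum_of_ne_finset_zero (L := SummationFilter.unconditional ℕ) (f := ces n) (s := Finset.range (n + 1))
    (fun b hb => if_neg (by simpa using hb))
  convert this using 1
  unfold ces
  rw [Finset.sum_congr rfl (fun b hb => if_pos (Finset.mem_range.1 hb))]
  simp
  field_simp

theorem lazy_rr (z : St) (t : ℕ) (h : ¬ bad z.1 (z.2.2.2 + t)) :
    rr (lazy z (t + 1)) = lev z.1 z.2.1 := by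
  unfold rr
  rw [if_neg]
  · rfl
  · intro hh
    apply h
    have := hh.1
    simpa [lazy] using this

theorem small_case (θ : ℕ → ℝ) (h0 : ∀ t, 0 ≤ θ t) (h1 : HasSum θ 1) (c : ℝ)
    (hc : ∀ t, θ t ≤ c) (z : St) : lev z.1 z.2.1 - (z.1 : ℝ) ^ 4 * c ≤ sSup (val θ z) := by
  have := le_val θ h0 h1 z (lazy z) (by simp [lazy]) (lazy_play z) (Finset.range (z.1 ^ 4))
    (lev z.1 z.2.1) c (lev_le_one _ _) hc (by
      intro t ht
      right
      rw [lazy_rr]
      intro hb
      apply ht
      have := hb.2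
      simp only [Finset.mem_range]
      omega)
  simpa using this

theorem long_case (n : ℕ) (z : St) (hN : 1 ≤ z.1) (hn : z.1 ^ 2 ≤ n + 1) :
    lev z.1 z.2.1 - 3 / (z.1 : ℝ) ≤ sSup (val (ces n) z) := by
  classical
  obtain ⟨N, j, c, u⟩ := z
  simp only at hN hn ⊢
  set M := N ^ 2 with hM
  have hM0 : 0 < M := by positivity
  set E := (Finset.range (n + 1)).filter (fun t => bad N (u + t)) with hEdef
  have hcard : E.card ≤ ((n + 1) / M + 2) * N := by
    have : E.card ≤ (Finset.range ((n + 1) / M + 2) ×ˢ Finset.range N).card := by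
      apply Finset.card_le_card_of_injOn (fun t => ((u + t) / M - u / M, (u + t) % M))
      · intro t ht
        have ht' := Finset.mem_filter.1 (Finset.mem_coe.1 ht)
        have h1 : t < n + 1 := Finset.mem_range.1 ht'.1
        have h2 := ht'.2.1
        simp only [Finset.coe_product, Finset.coe_range, Set.mem_prod, Set.mem_Iio]
        refine ⟨?_, h2⟩
        have h3 : (u + t) / M ≤ u / M + t / M + 1 := by
          rw [Nat.add_div hM0]; split_ifs <;> omega
        have h4 : t / M ≤ (n + 1) / M := Nat.div_le_div_right h1.le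
        generalize (u + t) / M = x1 at *
        generalize u / M = x2 at *
        generalize t / M = x3 at *
        generalize (n + 1) / M = x4 at *
        omega
      · intro t _ t' _ h
        simp only [Prod.mk.injEq] at h
        have a1 : u / M ≤ (u + t) / M := Nat.div_le_div_right (by omega)
        have a2 : u / M ≤ (u + t') / M := Nat.div_le_div_right (by omega)
        have a3 : (u + t) / M = (u + t') / M := by omega
        have b1 := Nat.div_add_mod (u + t) M
        have b2 := Nat.div_add_mod (u + t') M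
        rw [a3, h.2] at b1
        omega
    simpa using this
  have := le_val (ces n) (ces_nonneg n) (ces_sum n) (N, j, c, u) (lazy (N, j, c, u))
    (by simp [lazy]) (lazy_play _) E (lev N j) _ (lev_le_one _ _) (ces_le n) (by
      intro t ht
      by_cases h : t < n + 1
      · right
        rw [lazy_rr]
        intro hb
        exact ht (Finset.mem_filter.2 ⟨Finset.mem_range.2 h, hb⟩)
      · left; exact if_neg h)
  refine le_trans ?_ this
  have hNr : (0 : ℝ) < N := by exact_mod_cast hN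
  have h5 : ((n + 1) / M + 2) * M ≤ 3 * (n + 1) := by
    have := Nat.div_mul_le_self (n + 1) M
    nlinarith
  have h6 : E.card * N ≤ 3 * (n + 1) := by
    calc E.card * N ≤ ((n + 1) / M + 2) * N * N := Nat.mul_le_mul_right _ hcard
      _ = ((n + 1) / M + 2) * M := by rw [hM]; ring
      _ ≤ _ := h5
  have h7 : (E.card : ℝ) * N ≤ 3 * ((n : ℝ) + 1) := by exact_mod_cast h6
  have h8 : (E.card : ℝ) * (1 / ((n : ℝ) + 1)) ≤ 3 / (N : ℝ) := by
    rw [mul_one_div, div_le_div_iff₀ (by positivity) hNr]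
    exact h7
  linarith

def eager (z : St) : ℕ → St
  | 0 => z
  | (i + 1) => (z.1, z.2.1 + (1 + ((z.2.2.2 + i) / z.1 ^ 2 - z.2.2.2 / z.1 ^ 2)),
      (z.2.2.2 + i) / z.1 ^ 2, z.2.2.2 + (i + 1))

theorem eager_play (z : St) (t : ℕ) : eager z (t + 1) ∈ FF (eager z t) := by
  obtain ⟨N, j, c, u⟩ := z
  cases t with
  | zero => refine ⟨rfl, rfl, ?_, fun _ => ?_⟩ <;> simp [eager]
  | succ t =>
    have a1 : u / N ^ 2 ≤ (u + t) / N ^ 2 := Nat.div_le_div_right (by omega)
    have a2 : (u + t) / N ^ 2 ≤ (u + (t + 1)) / N ^ 2 := Nat.div_le_div_right (by omega)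
    refine ⟨rfl, rfl, ?_, fun h => ?_⟩
    · simp only [eager]; omega
    · simp only [eager] at h ⊢; omega

theorem short_case (n : ℕ) (z : St) (hN : 1 ≤ z.1) (hn : n + 1 ≤ z.1 ^ 2) :
    lev z.1 z.2.1 - 3 / (z.1 : ℝ) ≤ sSup (val (ces n) z) := by
  obtain ⟨N, j, c, u⟩ := z
  simp only at hN hn ⊢
  have hM0 : 0 < N ^ 2 := by positivity
  have hNr : (0 : ℝ) < N := by exact_mod_cast hN
  have := le_val (ces n) (ces_nonneg n) (ces_sum n) (N, j, c, u) (eager (N, j, c, u))
    rfl (eager_play _) ∅ (lev N (j + 2)) _ (lev_le_one _ _) (ces_le n) (by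
      intro t _
      by_cases h : t < n + 1
      · right
        unfold rr
        rw [if_neg]
        · simp only [eager]
          apply lev_anti
          have h3 : (u + t) / N ^ 2 ≤ u / N ^ 2 + t / N ^ 2 + 1 := by
            rw [Nat.add_div hM0]; split_ifs <;> omega
          have h4 : t / N ^ 2 = 0 := Nat.div_eq_of_lt (by omega)
          omega
        · intro hh
          apply hh.2
          simp [eager]
      · left; exact if_neg h)
  have h2 := lev_add N j 2
  have h3 : ((2 : ℕ) : ℝ) / N ≤ 3 / (N : ℝ) := by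
    apply div_le_div_of_nonneg_right _ hNr.le
    norm_num
  simp only [Finset.card_empty, Nat.cast_zero, zero_mul, sub_zero] at this
  linarith

theorem ces_unif : TendstoUniformly (fun (n : ℕ) (z : St) => sSup (val (ces n) z))
    (fun z => lev z.1 z.2.1) atTop := by
  rw [Metric.tendstoUniformly_iff]
  intro ε hε
  obtain ⟨N0, hN0⟩ := exists_nat_gt (3 / ε)
  obtain ⟨n0, hn0⟩ := exists_nat_gt ((N0 : ℝ) ^ 4 / ε)
  filter_upwards [eventually_ge_atTop n0] with n hn z
  have hup : sSup (val (ces n) z) ≤ lev z.1 z.2.1 :=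
    csSup_le (val_nonempty _ _) (val_le _ (ces_nonneg n) (ces_sum n) z)
  rw [Real.dist_eq, abs_of_nonneg (by linarith)]
  have hN0pos : (0 : ℝ) < N0 := lt_trans (by positivity) hN0
  by_cases hz : z.1 ≤ N0
  · have h1 := small_case (ces n) (ces_nonneg n) (ces_sum n) _ (ces_le n) z
    have h2 : (z.1 : ℝ) ^ 4 ≤ (N0 : ℝ) ^ 4 := by
      apply pow_le_pow_left₀ (Nat.cast_nonneg _)
      exact_mod_cast hz
    have h3 : (n0 : ℝ) ≤ n := by exact_mod_cast hn
    rw [div_lt_iff₀ hε] at hn0
    have h4 : (z.1 : ℝ) ^ 4 * (1 / ((n : ℝ) + 1)) < ε := by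
      rw [mul_one_div, div_lt_iff₀ (by positivity)]
      nlinarith
    linarith
  · have hz' : N0 < z.1 := not_le.1 hz
    have h1 : lev z.1 z.2.1 - 3 / (z.1 : ℝ) ≤ sSup (val (ces n) z) := by
      rcases le_total (z.1 ^ 2) (n + 1) with h | h
      · exact long_case n z (by omega) h
      · exact short_case n z (by omega) h
    have h2 : (N0 : ℝ) < z.1 := by exact_mod_cast hz'
    rw [div_lt_iff₀ hε] at hN0
    have h3 : 3 / (z.1 : ℝ) < ε := by
      rw [div_lt_iff₀ (by linarith)]
      nlinarith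
    linarith

noncomputable def th (N t : ℕ) : ℝ := if bad N t then 1 / (N : ℝ) ^ 3 else 0

theorem th_nonneg (N t : ℕ) : 0 ≤ th N t := by
  unfold th; split_ifs <;> positivity

theorem th_le (N t : ℕ) : th N t ≤ 1 / (N : ℝ) ^ 3 := by
  unfold th; split_ifs
  · exact le_rfl
  · positivity

theorem bad_card (N : ℕ) (hN : 1 ≤ N) :
    ((Finset.range (N ^ 4)).filter (fun t => bad N t)).card = N ^ 3 := by
  have hM0 : 0 < N ^ 2 := by positivity
  have hNM : N ≤ N ^ 2 := by nlinarith
  have h4 : N ^ 4 = N ^ 2 * N ^ 2 := by ring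
  have : (Finset.range (N ^ 2) ×ˢ Finset.range N).card =
      ((Finset.range (N ^ 4)).filter (fun t => bad N t)).card := by
    symm
    apply Finset.card_bij (fun t _ => (t / N ^ 2, t % N ^ 2))
    · intro t ht
      have ht' := (Finset.mem_filter.1 ht).2
      simp only [Finset.mem_product, Finset.mem_range]
      refine ⟨?_, ht'.1⟩
      rw [Nat.div_lt_iff_lt_mul hM0, ← h4]
      exact ht'.2
    · intro t _ t' _ h
      simp only [Prod.mk.injEq] at h
      have b1 := Nat.div_add_mod t (N ^ 2)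
      have b2 := Nat.div_add_mod t' (N ^ 2)
      rw [h.1, h.2] at b1
      omega
    · rintro ⟨a, b⟩ hab
      simp only [Finset.mem_product, Finset.mem_range] at hab
      have e1 : (N ^ 2 * a + b) % N ^ 2 = b := by
        rw [Nat.mul_add_mod]; exact Nat.mod_eq_of_lt (by omega)
      have e2 : (N ^ 2 * a + b) / N ^ 2 = a := by
        rw [Nat.mul_add_div hM0, Nat.div_eq_of_lt (by omega)]; rfl
      have e3 : N ^ 2 * a + b < N ^ 4 := by
        have : N ^ 2 * (a + 1) ≤ N ^ 2 * N ^ 2 := Nat.mul_le_mul_left _ hab.1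
        rw [h4]; nlinarith
      refine ⟨N ^ 2 * a + b, Finset.mem_filter.2 ⟨Finset.mem_range.2 e3, ?_, e3⟩, ?_⟩
      · rw [e1]; exact hab.2
      · rw [e1, e2]
  rw [← this]; simp; ring

theorem th_sum (N : ℕ) (hN : 1 ≤ N) : HasSum (th N) 1 := by
  have := hasSum_sum_of_ne_finset_zero (L := SummationFilter.unconditional ℕ) (f := th N)
    (s := (Finset.range (N ^ 4)).filter (fun t => bad N t))
    (fun b hb => if_neg (fun h => hb (Finset.mem_filter.2 ⟨Finset.mem_range.2 h.2, h⟩)))
  convert this using 1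
  unfold th
  rw [Finset.sum_congr rfl (fun b hb => if_pos (Finset.mem_filter.1 hb).2)]
  rw [Finset.sum_const, bad_card N hN]
  have hNr : (0 : ℝ) < N := by exact_mod_cast hN
  simp
  field_simp

theorem tsum_le_card (f : ℕ → ℝ) (E : Finset ℕ) (c : ℝ) (h0 : ∀ t, t ∉ E → f t = 0)
    (hc : ∀ t, f t ≤ c) : ∑' t, f t ≤ E.card * c := by
  rw [tsum_eq_sum h0]
  have := Finset.sum_le_card_nsmul E f c (fun x _ => hc x)
  simpa using this

theorem th_tv (N : ℕ) (hN : 1 ≤ N) : ∑' t, |th N (t + 1) - th N t| ≤ 2 / (N : ℝ) := by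
  classical
  have hM0 : 0 < N ^ 2 := by positivity
  have hNM : N ≤ N ^ 2 := by nlinarith
  have h4 : N ^ 4 = N ^ 2 * N ^ 2 := by ring
  have hNr : (0 : ℝ) < N := by exact_mod_cast hN
  set E := (Finset.range (N ^ 2)).image (fun a => N ^ 2 * a + (N - 1)) ∪
    (Finset.range (N ^ 2)).image (fun a => N ^ 2 * a + (N ^ 2 - 1)) with hE
  have hcard : E.card ≤ 2 * N ^ 2 := by
    refine (Finset.card_union_le _ _).trans ?_
    have a1 := Finset.card_image_le (s := Finset.range (N ^ 2)) (f := fun a => N ^ 2 * a + (N - 1))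
    have a2 := Finset.card_image_le (s := Finset.range (N ^ 2))
      (f := fun a => N ^ 2 * a + (N ^ 2 - 1))
    rw [Finset.card_range] at a1 a2
    omega
  have := tsum_le_card (fun t => |th N (t + 1) - th N t|) E (1 / (N : ℝ) ^ 3) (by
      intro t ht
      have hiff : bad N (t + 1) ↔ bad N t := by
        by_cases hlt : t < N ^ 4
        · have hq : t / N ^ 2 < N ^ 2 := by
            rw [Nat.div_lt_iff_lt_mul hM0, ← h4]; exact hlt
          have b1 := Nat.div_add_mod t (N ^ 2)
          have b2 := Nat.mod_lt t hM0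
          have c1 : t % N ^ 2 ≠ N - 1 := by
            intro h
            apply ht
            apply Finset.mem_union_left
            exact Finset.mem_image.2 ⟨_, Finset.mem_range.2 hq, by rw [← h]; exact b1⟩
          have c2 : t % N ^ 2 ≠ N ^ 2 - 1 := by
            intro h
            apply ht
            apply Finset.mem_union_right
            exact Finset.mem_image.2 ⟨_, Finset.mem_range.2 hq, by rw [← h]; exact b1⟩
          have d1 : (t + 1) % N ^ 2 = t % N ^ 2 + 1 := by
            have : t + 1 = N ^ 2 * (t / N ^ 2) + (t % N ^ 2 + 1) := by omega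
            rw [this, Nat.mul_add_mod]
            exact Nat.mod_eq_of_lt (by omega)
          have d2 : t + 1 < N ^ 4 := by
            have : N ^ 2 * (t / N ^ 2 + 1) ≤ N ^ 2 * N ^ 2 := Nat.mul_le_mul_left _ hq
            rw [Nat.mul_add, Nat.mul_one] at this
            omega
          unfold bad
          rw [d1]
          constructor
          · intro h; exact ⟨by omega, hlt⟩
          · intro h; exact ⟨by omega, d2⟩
        · unfold bad
          constructor
          · intro h; omega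
          · intro h; omega
      simp only [th, hiff, sub_self, abs_zero]) (by
      intro t
      have a1 := th_nonneg N t
      have a2 := th_nonneg N (t + 1)
      have a3 := th_le N t
      have a4 := th_le N (t + 1)
      rw [abs_le]; constructor <;> linarith)
  refine this.trans ?_
  have h7 : (E.card : ℝ) ≤ 2 * (N : ℝ) ^ 2 := by exact_mod_cast hcard
  rw [mul_one_div, div_le_div_iff₀ (by positivity) hNr]
  nlinarith

theorem th_val (N : ℕ) (hN : 1 ≤ N) : sSup (val (th N) (N, 0, 0, 0)) ≤ 1 / (N : ℝ) := by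
  classical
  apply csSup_le (val_nonempty _ _)
  rintro x ⟨s, hs0, hs, rfl⟩
  have hNr : (0 : ℝ) < N := by exact_mod_cast hN
  set E := (Finset.range (N ^ 4)).filter (fun t => bad N t ∧ rr (s (t + 1)) ≠ 0) with hE
  have key : ∀ t ∈ E, (s (t + 1)).2.2.1 = t / N ^ 2 ∧ (s (t + 1)).2.1 < N := by
    intro t ht
    obtain ⟨hb, hr⟩ := (Finset.mem_filter.1 ht).2
    have := play_facts s hs 0 (t + 1)
    simp only [zero_add, hs0] at this
    unfold rr at hr
    rw [this.1, this.2.1, Nat.add_sub_cancel] at hr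
    split_ifs at hr with h
    · exact absurd rfl hr
    · refine ⟨by_contra fun hh => h ⟨hb, hh⟩, ?_⟩
      by_contra hh
      apply hr
      unfold lev
      apply max_eq_left
      have : (N : ℝ) ≤ (s (t + 1)).2.1 := by exact_mod_cast not_lt.1 hh
      have : 1 ≤ ((s (t + 1)).2.1 : ℝ) / N := by rw [le_div_iff₀ hNr]; linarith
      linarith
  have hcard : E.card ≤ N * N := by
    have : E.card ≤ (Finset.range N ×ˢ Finset.range N).card := by
      apply Finset.card_le_card_of_injOn (fun t => ((s (t + 1)).2.1, t % N ^ 2))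
      · intro t ht
        simp only [Finset.coe_product, Finset.coe_range, Set.mem_prod, Set.mem_Iio]
        exact ⟨(key t ht).2, (Finset.mem_filter.1 (Finset.mem_coe.1 ht)).2.1.1⟩
      · have aux : ∀ t ∈ E, ∀ t' ∈ E, t ≤ t' → (s (t + 1)).2.1 = (s (t' + 1)).2.1 →
            t / N ^ 2 = t' / N ^ 2 := by
          intro t ht t' ht' hle h
          obtain ⟨d, rfl⟩ := Nat.exists_eq_add_of_le hle
          have := (play_facts s hs (t + 1) d).2.2.2
          rw [show t + 1 + d = t + d + 1 by ring] at this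
          rw [← (key t ht).1, ← (key _ ht').1]
          by_contra hh
          have := this (fun e => hh e.symm)
          omega
        intro t ht t' ht' h
        simp only [Prod.mk.injEq] at h
        have a3 : t / N ^ 2 = t' / N ^ 2 := by
          rcases le_total t t' with hle | hle
          · exact aux t ht t' ht' hle h.1
          · exact (aux t' ht' t ht hle h.1.symm).symm
        have b1 := Nat.div_add_mod t (N ^ 2)
        have b2 := Nat.div_add_mod t' (N ^ 2)
        rw [a3, h.2] at b1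
        omega
    simpa using this
  have := tsum_le_card (fun t => th N t * rr (s (t + 1))) E (1 / (N : ℝ) ^ 3) (by
      intro t ht
      by_cases hb : bad N t
      · by_cases hr : rr (s (t + 1)) = 0
        · simp [hr]
        · exact absurd (Finset.mem_filter.2 ⟨Finset.mem_range.2 hb.2, hb, hr⟩) ht
      · simp [th, hb]) (by
      intro t
      have a1 := th_nonneg N t
      have a3 := th_le N t
      have a4 := (rr_le_lev (s (t + 1))).trans (lev_le_one _ _)
      nlinarith)
  refine this.trans ?_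
  have h7 : (E.card : ℝ) ≤ (N : ℝ) * N := by exact_mod_cast hcard
  rw [mul_one_div, div_le_div_iff₀ (by positivity) hNr]
  nlinarith


/-- The negation of the preceding statement: For any type Z, nonempty-valued F, r∈[0,1]: if the Cesàro values v_{n+1}(z)=sup over plays of (1/(n+1))Σ_{t≤n} r(s(t+1)) converge uniformly, then for any probability weights θ^k with Σ∣θ^k_{t+1}-θ^k_t∣→0, the values sup over plays of Σ θ^k_t r(s(t+1)) converge uniformly to some w. -/
theorem result :
    ¬ (∀ (Z : Type) (F : Z → Set Z) (r : Z → ℝ),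
      (∀ z, (F z).Nonempty) →
      (∀ z, 0 ≤ r z ∧ r z ≤ 1) →
      (∃ w : Z → ℝ, TendstoUniformly
          (fun (n : ℕ) (z : Z) =>
            sSup {x : ℝ | ∃ s : ℕ → Z, s 0 = z ∧ (∀ t, s (t + 1) ∈ F (s t)) ∧
              x = ∑' t, (if t < n + 1 then 1 / ((n : ℝ) + 1) else 0) * r (s (t + 1))})
          w atTop) →
      ∀ θ : ℕ → ℕ → ℝ,
        (∀ k t, 0 ≤ θ k t) →
        (∀ k, HasSum (θ k) 1) →
        Tendsto (fun k => ∑' t, |θ k (t + 1) - θ k t|) atTop (𝓝 0) →
        ∃ w : Z → ℝ, TendstoUniformly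
          (fun (k : ℕ) (z : Z) =>
            sSup {x : ℝ | ∃ s : ℕ → Z, s 0 = z ∧ (∀ t, s (t + 1) ∈ F (s t)) ∧
              x = ∑' t, θ k t * r (s (t + 1))})
          w atTop) := by
  intro H
  obtain ⟨w, hw⟩ := H St FF rr (fun z => ⟨lazy z 1, by simpa [lazy] using lazy_play z 0⟩)
    (fun z => ⟨rr_nonneg z, (rr_le_lev z).trans (lev_le_one _ _)⟩) ⟨_, ces_unif⟩
    (fun k => th (k + 1)) (fun k t => th_nonneg _ _) (fun k => th_sum _ (by omega)) (by
      have h2 : Tendsto (fun k : ℕ => 2 * (1 / ((k : ℝ) + 1))) atTop (𝓝 (2 * 0)) :=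
        tendsto_one_div_add_atTop_nhds_zero_nat.const_mul 2
      rw [mul_zero] at h2
      refine squeeze_zero (fun k => tsum_nonneg (fun t => abs_nonneg _)) (fun k => ?_) h2
      have := th_tv (k + 1) (by omega)
      push_cast at this
      rw [mul_one_div]
      exact this)
  change TendstoUniformly (fun (k : ℕ) (z : St) => sSup (val (th (k + 1)) z)) w atTop at hw
  rw [Metric.tendstoUniformly_iff] at hw
  obtain ⟨k0, hk0⟩ := eventually_atTop.1 (hw (1 / 4) (by norm_num))
  set N := k0 + 4 with hN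
  have h1 := hk0 (k0 + 3) (by omega) (N, 0, 0, 0)
  have h2 := th_val N (by omega)
  have hN4 : (4 : ℝ) ≤ N := by rw [hN]; push_cast; have := Nat.cast_nonneg (α := ℝ) k0; linarith
  have h3 : 1 / (N : ℝ) ≤ 1 / 4 := one_div_le_one_div_of_le (by norm_num) hN4
  have hK : k0 ≤ 4 * N ^ 4 := by
    have : N ≤ N ^ 4 := Nat.le_self_pow (by norm_num) N
    omega
  have h4 := hk0 (4 * N ^ 4) hK (N, 0, 0, 0)
  have h5 := small_case (th (4 * N ^ 4 + 1)) (th_nonneg _) (th_sum _ (by omega)) _ (th_le _)
    (N, 0, 0, 0)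
  have h6 : lev N 0 = 1 := by simp [lev]
  simp only [h6] at h5
  have h7 : (N : ℝ) ^ 4 * (1 / ((4 * N ^ 4 + 1 : ℕ) : ℝ) ^ 3) ≤ 1 / 4 := by
    push_cast
    have a : (1 : ℝ) ≤ 4 * (N : ℝ) ^ 4 + 1 := by have : (0 : ℝ) ≤ (N : ℝ) ^ 4 := by positivity
                                                 linarith
    have b : 4 * (N : ℝ) ^ 4 + 1 ≤ (4 * (N : ℝ) ^ 4 + 1) ^ 3 := le_self_pow₀ a (by norm_num)
    rw [mul_one_div, div_le_div_iff₀ (by positivity) (by norm_num)]
    linarith
  rw [Real.dist_eq, abs_lt] at h1 h4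
  have e : k0 + 3 + 1 = N := by omega
  rw [e] at h1
  linarith [h1.2, h4.1]

end Pool.Agent.S05912
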