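import Pool.Statements.S05958
import Pool.Agent.H21.Strip

set_option autoImplicit false
open Polynomial Filter
open Pool Pool.MP_bcdbe1_an

namespace Pool.Agent.S05958

open Pool.Agent.H21.Strip

/-- The negation of the preceding statement: For every complex polynomial p, the width of the strip of real parts of zeros of (p(z+l)-p(z-l))/(2l) is non-increasing in l for l greater than the zero-strip width of p', and tends to 0 as l goes to infinity. -/
theorem result :
    ¬ (∀ W : Polynomial ℂ → ℝ,
      (∀ q : Polynomial ℂ,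
        W q = sSup {x : ℝ | ∃ z ∈ q.roots, ∃ w ∈ q.roots, x = z.re - w.re}) →
      ∀ p : Polynomial ℂ,
        AntitoneOn
          (fun l : ℝ =>
            W ((p.comp (X + C (l : ℂ)) - p.comp (X - C (l : ℂ))) * C (1 / (2 * (l : ℂ)))))
          (Set.Ioi (W (derivative p))) ∧
        Tendsto
          (fun l : ℝ =>
            W ((p.comp (X + C (l : ℂ)) - p.comp (X - C (l : ℂ))) * C (1 / (2 * (l : ℂ)))))
          atTop (nhds 0)) := by
  intro h
  have h1 := (h (fun q => sSup {x : ℝ | ∃ z ∈ q.roots, ∃ w ∈ q.roots, x = z.re - w.re})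
    (fun _ => rfl) pp).1
  have a0 := Real.sSup_le (bdd _ _ _ s0) (by norm_num)
  have a1 := Real.sSup_le (bdd _ _ _ s1) (by norm_num)
  have a2 := h1 (a := 128) (b := 137) (lt_of_le_of_lt a0 (by norm_num))
    (lt_of_le_of_lt a0 (by norm_num)) (by norm_num)
  have a3 : (15 : ℝ) ≤ 1521 / 100 - 33 / 100 := low.trans (a2.trans a1)
  norm_num at a3

end Pool.Agent.S05958
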