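import Pool.Statements.S05978
import Pool.Agent.H24.Akop

set_option autoImplicit false
open MeasureTheory
open Pool Pool.MP_be6048_an

namespace Pool.Agent.S05978

/-- The negation of the preceding statement: Let G be a bounded open convex set in ℂ containing [-1,1], and 1 ≤ k ≤ n, 1 ≤ q ≤ ∞. Take any degree-n complex polynomial with no zeros in G that maximizes the L^q norm of its k-th derivative on [-1,1] over its sup norm there. Then all its zeros lie on the boundary of G. -/
theorem result :
    ¬ (∀ G : Set ℂ, IsOpen G → Convex ℝ G → Bornology.IsBounded G →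
      (∀ x : ℝ, x ∈ Set.Icc (-1 : ℝ) 1 → (x : ℂ) ∈ G) →
      ∀ n k : ℕ, 1 ≤ k → k ≤ n →
      ∀ q : ENNReal, 1 ≤ q →
      ∀ P : Polynomial ℂ, P.natDegree = n → (∀ z ∈ G, P.eval z ≠ 0) →
        (∀ Q : Polynomial ℂ, Q.natDegree = n → (∀ z ∈ G, Q.eval z ≠ 0) →
          eLpNorm (fun x : ℝ => ((⇑Polynomial.derivative)^[k] Q).eval (x : ℂ)) q
              (volume.restrict (Set.Icc (-1 : ℝ) 1)) /
            eLpNorm (fun x : ℝ => Q.eval (x : ℂ)) ⊤
              (volume.restrict (Set.Icc (-1 : ℝ) 1))
          ≤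
          eLpNorm (fun x : ℝ => ((⇑Polynomial.derivative)^[k] P).eval (x : ℂ)) q
              (volume.restrict (Set.Icc (-1 : ℝ) 1)) /
            eLpNorm (fun x : ℝ => P.eval (x : ℂ)) ⊤
              (volume.restrict (Set.Icc (-1 : ℝ) 1))) →
        ∀ z : ℂ, P.eval z = 0 → z ∈ frontier G) := by
  intro H
  open Pool.Agent.H24.Akop Polynomial in
  obtain ⟨a, b, ha, hb, hgt, hmax⟩ := exmax
  have hdeg : (C (1 : ℂ) * ((X - C a) * (X - C b))).natDegree = 2 := by
    rw [map_one, one_mul, natDegree_mul (X_sub_C_ne_zero a) (X_sub_C_ne_zero b)]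
    simp
  have hz := H GG GG_open GG_convex GG_bdd
    (fun x hx => by
      refine ⟨?_, ?_⟩
      · rw [Complex.ofReal_re, abs_lt]; constructor <;> linarith [hx.1, hx.2]
      · rw [Complex.ofReal_im]; norm_num)
    2 1 le_rfl (by norm_num) 1 le_rfl (C (1 : ℂ) * ((X - C a) * (X - C b))) hdeg
    (fun z hz h => by
      simp only [map_one, one_mul, eval_mul, eval_sub, eval_X, eval_C, mul_eq_zero,
        sub_eq_zero] at h
      rcases h with h | h
      · exact ha (h ▸ hz)
      · exact hb (h ▸ hz))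
    (fun Q hQ hQ0 => by
      obtain ⟨c, u, v, hc, rfl⟩ := split2 Q hQ
      rw [ratio c u v hc, ratio 1 a b one_ne_zero]
      apply ENNReal.ofReal_le_ofReal
      apply hmax
      · intro hu; exact hQ0 u hu (by simp)
      · intro hv; exact hQ0 v hv (by simp))
  have fa := GG_front a (hz a (by simp))
  have fb := GG_front b (hz b (by simp))
  have := thin a b (1 / 40000) (by norm_num) fa.1 fb.1 fa.2 fb.2
  linarith

end Pool.Agent.S05978
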