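import Pool.Statements.S05985
import Pool.Agent.H9.Supp2

set_option autoImplicit false
open Pool Pool.MP_bec4cd_an

namespace Pool.Agent.S05985

/-- Every separable real Banach space with nonseparable dual contains a Cantor-set-homeomorphic subset K of its unit sphere and ε>0 such that norm-one functionals attaining 1 at distinct points of K are always at least ε apart in norm. -/
theorem result :
    ∀ (X : Type) [NormedAddCommGroup X] [NormedSpace ℝ X] [CompleteSpace X],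
      TopologicalSpace.SeparableSpace X →
      ¬ TopologicalSpace.SeparableSpace (X →L[ℝ] ℝ) →
      ∃ K : Set X, K ⊆ Metric.sphere (0 : X) 1 ∧ Nonempty (K ≃ₜ (ℕ → Bool)) ∧
        ∃ ε : ℝ, 0 < ε ∧
          ∀ x ∈ K, ∀ y ∈ K, x ≠ y →
            ∀ f g : X →L[ℝ] ℝ, ‖f‖ = 1 → f x = 1 → ‖g‖ = 1 → g y = 1 →
              ε ≤ ‖f - g‖ := by
  intro X _ _ _ h1 h2
  obtain ⟨e, f, he, h3, h4, h5⟩ := H9.Supp2.main h2
  have h6 : Function.Injective f := fun a b hab => by
    by_contra hn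
    obtain ⟨g, hg⟩ := H9.Supp2.J_ne (f a)
    exact h5 a b hn ⟨g, hg, g, hab ▸ hg, by simpa using he.le⟩
  refine ⟨Set.range f, h3, ⟨(h4.isClosedEmbedding h6).isEmbedding.toHomeomorph.symm⟩, e, he, ?_⟩
  rintro _ ⟨a, rfl⟩ _ ⟨b, rfl⟩ hab g g' e1 e2 e3 e4
  by_contra hn
  exact h5 a b (fun h => hab (congrArg f h))
    ⟨g, ⟨e1.le, e2.trans (mem_sphere_zero_iff_norm.1 (h3 ⟨a, rfl⟩)).symm⟩,
      g', ⟨e3.le, e4.trans (mem_sphere_zero_iff_norm.1 (h3 ⟨b, rfl⟩)).symm⟩, (not_le.1 hn).le⟩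

end Pool.Agent.S05985
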