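import Pool.Statements.S05991
-- import your own Pool.Agent.* helpers here

set_option autoImplicit false
open Pool Pool.MP_bf1b21_an

namespace Pool.Agent.S05991

open Cardinal Filter Topology

abbrev K : Type := ℝ → Bool
abbrev E : Type := C(K, ℝ)

noncomputable def sg (γ : ℝ) : E :=
  ⟨fun t => if t γ then 1 else -1,
    (continuous_of_discreteTopology (f := fun b : Bool => if b then (1 : ℝ) else -1)).comp
      (continuous_apply γ)⟩

lemma card_E : #E ≤ #ℝ := by
  let A : Subalgebra ℝ E := Algebra.adjoin ℝ (Set.range sg)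
  have hA : #A ≤ #ℝ := by
    refine (Algebra.cardinalMk_adjoin_le ℝ _).trans ?_
    refine max_le (max_le le_rfl mk_range_le) ?_
    rw [mk_real]; exact aleph0_le_continuum
  have hsep : A.SeparatesPoints := by
    intro s t hst
    obtain ⟨γ, hγ⟩ := Function.ne_iff.1 hst
    refine ⟨_, ⟨sg γ, Algebra.subset_adjoin ⟨γ, rfl⟩, rfl⟩, ?_⟩
    show (if s γ then (1 : ℝ) else -1) ≠ if t γ then 1 else -1
    cases h1 : s γ <;> cases h2 : t γ <;> simp_all <;> norm_num
  have hd := ContinuousMap.subalgebra_topologicalClosure_eq_top_of_separatesPoints A hsep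
  have : ∀ f : E, ∃ u : ℕ → A, Tendsto (fun n => (u n : E)) atTop (𝓝 f) := by
    intro f
    have hf : f ∈ closure (A : Set E) := by
      have : f ∈ A.topologicalClosure := by rw [hd]; trivial
      exact this
    obtain ⟨u, hu, hl⟩ := mem_closure_iff_seq_limit.1 hf
    exact ⟨fun n => ⟨u n, hu n⟩, hl⟩
  choose u hu using this
  have hinj : Function.Injective u := fun f g h => tendsto_nhds_unique (hu f) (h ▸ hu g)
  refine (mk_le_of_injective hinj).trans ?_
  rw [← power_def, mk_nat]
  refine (power_le_power_right hA).trans ?_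
  rw [mk_real, continuum_power_aleph0]

lemma fin_bad (x c : E) (h : 1 < dist x c) :
    {γ : ℝ | ¬ 2 < dist (x + sg γ) c}.Finite := by
  classical
  obtain ⟨t, ht⟩ : ∃ t, 1 < dist (x t) (c t) := by
    by_contra hc
    push Not at hc
    exact absurd ((ContinuousMap.dist_le zero_le_one).2 hc) (not_le.2 h)
  have ho : IsOpen {s : K | 1 < dist (x s) (c s)} :=
    isOpen_lt continuous_const (x.continuous.dist c.continuous)
  have hs : ∃ b : Bool, IsOpen {s : K | 1 < (if b then (1 : ℝ) else -1) * (x s - c s)} ∧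
      t ∈ {s : K | 1 < (if b then (1 : ℝ) else -1) * (x s - c s)} := by
    rw [Real.dist_eq, lt_abs] at ht
    rcases ht with ht | ht
    · exact ⟨true, isOpen_lt continuous_const (by fun_prop), by simpa using ht⟩
    · exact ⟨false, isOpen_lt continuous_const (by fun_prop), by simpa using ht⟩
  obtain ⟨b, hb, htb⟩ := hs
  obtain ⟨F, u, hu, hsub⟩ := isOpen_pi_iff.1 hb t htb
  refine F.finite_toSet.subset fun γ hγ => ?_
  by_contra hF
  apply hγ
  have hm : Function.update t γ b ∈ (F : Set ℝ).pi u := by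
    intro i hi
    rw [Function.update_of_ne (by rintro rfl; exact hF hi)]
    exact (hu i hi).2
  have h1 := hsub hm
  refine lt_of_lt_of_le ?_ (ContinuousMap.dist_apply_le_dist (Function.update t γ b))
  have h2 : sg γ (Function.update t γ b) = if b then 1 else -1 := by simp [sg]
  rw [ContinuousMap.add_apply, h2, Real.dist_eq, lt_abs]
  simp only [Set.mem_setOf_eq] at h1
  cases b
  · right; simp at h1 ⊢; linarith
  · left; simp at h1 ⊢; linarith

lemma step (x : E) {ι : Type} (hι : #ι < #ℝ) (f : ι → E) (h : ∀ i, 1 < dist x (f i)) :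
    ∃ b, dist x b ≤ 1 ∧ ∀ i, 2 < dist b (f i) := by
  have h1 : #(⋃ i, {γ : ℝ | ¬ 2 < dist (x + sg γ) (f i)}) < #ℝ := by
    refine (mk_iUnion_le_sum_mk.trans (sum_le_sum _ (fun _ => ℵ₀) fun i =>
      (fin_bad x (f i) (h i)).countable.le_aleph0)).trans_lt ?_
    rw [sum_const', mk_real] at *
    exact mul_lt_of_lt aleph0_le_continuum hι aleph0_lt_continuum
  obtain ⟨γ, hγ⟩ : ∃ γ, γ ∉ ⋃ i, {γ : ℝ | ¬ 2 < dist (x + sg γ) (f i)} := by
    by_contra hc
    rw [Set.eq_univ_of_forall (fun γ => not_not.1 (not_exists.1 hc γ)), mk_univ] at h1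
    exact lt_irrefl _ h1
  refine ⟨x + sg γ, ?_, fun i => ?_⟩
  · rw [dist_self_add_right]
    refine (ContinuousMap.norm_le _ zero_le_one).2 fun t => ?_
    show ‖(if t γ then (1 : ℝ) else -1)‖ ≤ 1
    split_ifs <;> simp
  · simpa using fun h => hγ (Set.mem_iUnion.2 ⟨i, h⟩)

lemma tiling : ∃ c : ℝ → E, (∀ x, ∃ a, dist x (c a) ≤ 1) ∧
    ∀ a b, c a = c b ∨ 2 < dist (c a) (c b) := by
  obtain ⟨r, wo, hr⟩ := exists_ord_eq ℝ
  obtain ⟨j⟩ := card_E
  let e : ℝ → E := Function.invFun j
  have he : Function.Surjective e := Function.invFun_surjective j.injective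
  have key : ∀ (a : ℝ) (f : ∀ y, r y a → E), ∃ b : E, dist (e a) b ≤ 1 ∧
      ((∀ y hy z hz, f y hy = f z hz ∨ 2 < dist (f y hy) (f z hz)) →
        ∀ y hy, b = f y hy ∨ 2 < dist b (f y hy)) := by
    intro a f
    by_cases h : ∃ y hy, dist (e a) (f y hy) ≤ 1
    · obtain ⟨y, hy, h⟩ := h
      exact ⟨f y hy, h, fun hp z hz => hp y hy z hz⟩
    · push Not at h
      obtain ⟨b, hb, hb'⟩ := step (e a) (ι := {y // r y a}) (card_typein_lt a hr)
        (fun y => f y.1 y.2) fun y => h y.1 y.2
      exact ⟨b, hb, fun _ y hy => Or.inr (hb' ⟨y, hy⟩)⟩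
  choose G hG1 hG2 using key
  let c : ℝ → E := wo.wf.fix G
  have hc : ∀ a, c a = G a fun y _ => c y := fun a => wo.wf.fix_eq G a
  have sym : ∀ a b, (c a = c b ∨ 2 < dist (c a) (c b)) → (c b = c a ∨ 2 < dist (c b) (c a)) := by
    rintro a b (h | h)
    · exact Or.inl h.symm
    · exact Or.inr (by rwa [dist_comm])
  have main : ∀ a y, r y a → c a = c y ∨ 2 < dist (c a) (c y) := by
    intro a
    induction a using wo.wf.induction with
    | _ a ih =>
      intro y hy
      rw [hc a]
      refine hG2 a (fun y _ => c y) (fun y hy z hz => ?_) y hy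
      rcases trichotomous_of r y z with h | h | h
      · exact sym _ _ (ih z hz y h)
      · exact Or.inl (by rw [h])
      · exact ih y hy z h
  refine ⟨c, fun x => ?_, fun a b => ?_⟩
  · obtain ⟨a, rfl⟩ := he x
    exact ⟨a, by rw [hc a]; exact hG1 _ _⟩
  · rcases trichotomous_of r a b with h | h | h
    · exact sym _ _ (main b a h)
    · exact Or.inl (by rw [h])
    · exact main a b h

/-- There is an infinite compact Hausdorff space K such that C(K) with the sup norm is covered by closed balls of positive radius, each of which meets only finitely many balls of the cover. -/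
theorem result :
    ∃ (K : Type) (_ : TopologicalSpace K) (_ : CompactSpace K) (_ : T2Space K),
      Infinite K ∧
      ∃ 𝓑 : Set (Set C(K, ℝ)),
        (∀ B ∈ 𝓑, ∃ (x : C(K, ℝ)) (r : ℝ), 0 < r ∧ B = Metric.closedBall x r) ∧
        ⋃₀ 𝓑 = Set.univ ∧
        ∀ B ∈ 𝓑, {B' : Set C(K, ℝ) | B' ∈ 𝓑 ∧ (B ∩ B').Nonempty}.Finite := by
  obtain ⟨c, h1, h2⟩ := tiling
  refine ⟨K, inferInstance, inferInstance, inferInstance, inferInstance,
    Set.range fun a => Metric.closedBall (c a) 1, ?_, ?_, ?_⟩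
  · rintro _ ⟨a, rfl⟩
    exact ⟨c a, 1, one_pos, rfl⟩
  · refine Set.eq_univ_of_forall fun x => ?_
    obtain ⟨a, ha⟩ := h1 x
    exact ⟨_, ⟨a, rfl⟩, ha⟩
  · rintro _ ⟨a, rfl⟩
    refine (Set.finite_singleton (Metric.closedBall (c a) 1)).subset ?_
    rintro _ ⟨⟨b, rfl⟩, x, hx1, hx2⟩
    rcases h2 a b with h | h
    · simp [h]
    · have := dist_triangle_left (c a) (c b) x
      rw [Metric.mem_closedBall] at hx1 hx2
      linarith

end Pool.Agent.S05991
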