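import Pool.Statements.S05997
import Pool.Agent.H13.Bis1

set_option autoImplicit false
open Pool Pool.MP_bfe0f8_an

namespace Pool.Agent.S05997

open Set Function Filter Topology Pool.Agent.H13.Bis

theorem dense_of {C : Set ℝ} (hC : IsClosed C) (h0 : (0 : ℝ) ∈ C) (h1 : (1 : ℝ) ∈ C)
    (h : ∀ u ∈ C, ∀ v ∈ C, u < v → ∃ w ∈ C, u < w ∧ w < v) : Icc (0 : ℝ) 1 ⊆ C := by
  intro t ht
  by_contra htC
  obtain ⟨u, ⟨hu1, hu2⟩, hu⟩ := (isCompact_Icc.inter_left hC : IsCompact (C ∩ Icc 0 t)).exists_isMaxOn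
    ⟨0, h0, le_rfl, ht.1⟩ continuousOn_id
  obtain ⟨v, ⟨hv1, hv2⟩, hv⟩ := (isCompact_Icc.inter_left hC : IsCompact (C ∩ Icc t 1)).exists_isMinOn
    ⟨1, h1, ht.2, le_rfl⟩ continuousOn_id
  have hut : u < t := lt_of_le_of_ne hu2.2 fun e => htC (e ▸ hu1)
  have htv : t < v := lt_of_le_of_ne hv2.1 fun e => htC (e ▸ hv1)
  obtain ⟨w, hw, h2, h3⟩ := h u hu1 v hv1 (hut.trans htv)
  rcases le_total w t with h4 | h4
  · have : w ≤ u := hu ⟨hw, hu2.1.trans h2.le, h4⟩
    linarith
  · have : v ≤ w := hv ⟨hw, h4, h3.le.trans hv2.2⟩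
    linarith

theorem cont_F {J : Type} [LinearOrder J] [TopologicalSpace J] [OrderTopology J] [DenselyOrdered J]
    [PreconnectedSpace J] [CompactSpace J] [TopologicalSpace.SeparableSpace J]
    (h : Hyp J) (b : J) (hb : h.a < b) (top : ∀ x, x ≤ b) : Continuous (uncurry h.F) := by
  obtain ⟨φ, p, hm, ha, hb1, hF⟩ := h.exists_phi b hb top
  have lc : ∀ G : J → J → J, (∀ x, G x x = x) → (∀ y, StrictMono fun x => G x y) →
      (∀ x y, φ (G x y) = φ y) → False := by
    intro G g1 g2 g3
    have : IsLocallyConstant φ := by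
      rw [IsLocallyConstant.iff_eventually_eq]
      intro y
      have l1 : ∀ᶠ z in 𝓝 y, G h.a y ≤ z := by
        rcases (h.bot y).eq_or_lt with e | e
        · refine Eventually.of_forall fun z => ?_
          rw [← e, g1]; exact h.bot z
        · have := g2 y e
          simp only [g1] at this
          exact (lt_mem_nhds this).mono fun z hz => hz.le
      have l2 : ∀ᶠ z in 𝓝 y, z ≤ G b y := by
        rcases (top y).eq_or_lt with e | e
        · refine Eventually.of_forall fun z => ?_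
          rw [e, g1]; exact top z
        · have := g2 y e
          simp only [g1] at this
          exact (gt_mem_nhds this).mono fun z hz => hz.le
      filter_upwards [l1, l2] with z z1 z2
      have a1 := hm z1
      have a2 := hm z2
      rw [g3] at a1 a2
      exact le_antisymm a2 a1
    have := this.apply_eq_of_preconnectedSpace h.a b
    rw [ha, hb1] at this
    norm_num at this
  have hr : ∀ x, φ x ∈ Icc (0 : ℝ) 1 := fun x => ⟨ha ▸ hm (h.bot x), hb1 ▸ hm (top x)⟩
  have hp : p ∈ Icc (0 : ℝ) 1 := by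
    have := hr (h.F b h.a)
    rw [hF, ha, hb1] at this
    simpa using this
  have hp0 : 0 < p := lt_of_le_of_ne hp.1 fun e => lc h.F h.refl h.m2 fun x y => by
    rw [hF, ← e]; simp
  have hp1 : p < 1 := lt_of_le_of_ne hp.2 fun e => lc (fun x y => h.F y x) h.refl h.m1 fun x y => by
    rw [hF, e]; simp
  have hd : Icc (0 : ℝ) 1 ⊆ closure (range φ) := by
    refine dense_of isClosed_closure (subset_closure ⟨_, ha⟩) (subset_closure ⟨_, hb1⟩) ?_
    intro u hu v hv huv
    refine ⟨p * u + (1 - p) * v, ?_, by nlinarith, by nlinarith⟩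
    refine map_mem_closure₂ (f := fun u v : ℝ => p * u + (1 - p) * v) (by fun_prop) hu hv ?_
    rintro _ ⟨x, rfl⟩ _ ⟨y, rfl⟩
    exact ⟨_, hF x y⟩
  have hc : Continuous φ := by
    let ψ : J → Icc (0 : ℝ) 1 := fun x => ⟨φ x, hr x⟩
    have : Continuous ψ := by
      refine Monotone.continuous_of_denseRange (fun x y hxy => hm hxy) ?_
      rw [DenseRange, Subtype.dense_iff, ← range_comp]
      exact hd
    exact continuous_subtype_val.comp this
  have hsurj : ∀ t ∈ Icc (0 : ℝ) 1, ∃ z, φ z = t := fun t ht => by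
    have := hd ht
    rwa [(isCompact_range hc).isClosed.closure_eq] at this
  have hinj : Injective φ := by
    have key : ∀ x y, x < y → φ x ≠ φ y := by
      intro x y hxy e
      haveI : Nonempty J := ⟨b⟩
      choose! z hz using hsurj
      have hval : ∀ t ∈ Icc (0 : ℝ) 1, ∀ w ∈ Ioo (h.F x (z t)) (h.F y (z t)),
          φ w = p * φ x + (1 - p) * t := by
        intro t ht w hw
        have a1 := hm hw.1.le
        have a2 := hm hw.2.le
        rw [hF, hz t ht] at a1 a2
        rw [← e] at a2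
        exact le_antisymm a2 a1
      have hpd : (Icc (0 : ℝ) 1).PairwiseDisjoint fun t => Ioo (h.F x (z t)) (h.F y (z t)) := by
        intro s hs t ht hst
        refine disjoint_left.2 fun w w1 w2 => hst ?_
        have a1 := hval s hs w w1
        have a2 := hval t ht w w2
        have : (1 - p) * (s - t) = 0 := by linarith
        rcases mul_eq_zero.1 this with h' | h' <;> linarith
      have := hpd.countable_of_isOpen (fun _ _ => isOpen_Ioo)
        (fun t _ => nonempty_Ioo.2 (h.m2 (z t) hxy))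
      rw [Cardinal.Real.Icc_countable_iff] at this
      norm_num at this
    intro x y e
    rcases lt_trichotomy x y with h' | h' | h'
    exacts [absurd e (key x y h'), h', absurd e.symm (key y x h')]
  rw [(hc.isClosedEmbedding hinj).isInducing.continuous_iff]
  have : φ ∘ uncurry h.F = fun q : J × J => p * φ q.1 + (1 - p) * φ q.2 := by
    ext q; exact hF _ _
  rw [this]
  fun_prop

theorem nbhd {I : Set ℝ} {x : ℝ} (hx : x ∈ I) :
    (∃ a ∈ I, Ici a ∈ 𝓝[I] x) ∧ ∃ b ∈ I, Iic b ∈ 𝓝[I] x := by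
  constructor
  · by_cases h : ∃ a ∈ I, a < x
    · obtain ⟨a, ha, hax⟩ := h
      exact ⟨a, ha, mem_nhdsWithin_of_mem_nhds (Ici_mem_nhds hax)⟩
    · push Not at h
      exact ⟨x, hx, mem_of_superset self_mem_nhdsWithin h⟩
  · by_cases h : ∃ a ∈ I, x < a
    · obtain ⟨a, ha, hax⟩ := h
      exact ⟨a, ha, mem_nhdsWithin_of_mem_nhds (Iic_mem_nhds hax)⟩
    · push Not at h
      exact ⟨x, hx, mem_of_superset self_mem_nhdsWithin h⟩

/-- For every real interval I, any binary operation on I that is reflexive, bisymmetric, and strictly increasing in each variable is continuous on I×I. -/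
theorem result :
    ∀ (I : Set ℝ), I.OrdConnected → ∀ F : ℝ → ℝ → ℝ,
      (∀ x ∈ I, ∀ y ∈ I, F x y ∈ I) →
      (∀ x ∈ I, F x x = x) →
      (∀ x ∈ I, ∀ y ∈ I, ∀ u ∈ I, ∀ v ∈ I,
        F (F x y) (F u v) = F (F x u) (F y v)) →
      (∀ x ∈ I, StrictMonoOn (F x) I) →
      (∀ y ∈ I, StrictMonoOn (fun x => F x y) I) →
      ContinuousOn (Function.uncurry F) (I ×ˢ I) := by
  intro I hI F h1 h2 h3 h4 h5
  have main : ∀ a ∈ I, ∀ b ∈ I, ContinuousOn (uncurry F) (Icc a b ×ˢ Icc a b) := by
    intro a ha b hb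
    rcases le_or_gt b a with hab | hab
    · exact Set.Subsingleton.continuousOn ((subsingleton_Icc_of_ge hab).prod (subsingleton_Icc_of_ge hab)) _
    have hs : Icc a b ⊆ I := hI.out ha hb
    have hmem : ∀ x ∈ Icc a b, ∀ y ∈ Icc a b, F x y ∈ Icc a b := by
      intro x hx y hy
      constructor
      · calc a = F a a := (h2 a ha).symm
          _ ≤ F a y := (h4 a ha).monotoneOn ha (hs hy) hy.1
          _ ≤ F x y := (h5 y (hs hy)).monotoneOn ha (hs hx) hx.1
      · calc F x y ≤ F x b := (h4 x (hs hx)).monotoneOn (hs hy) hb hy.2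
          _ ≤ F b b := (h5 b hb).monotoneOn (hs hx) hb hx.2
          _ = b := h2 b hb
    let h : Hyp (Icc a b) :=
      { F := fun x y => ⟨F x y, hmem _ x.2 _ y.2⟩
        a := ⟨a, left_mem_Icc.2 hab.le⟩
        refl := fun x => Subtype.ext (h2 _ (hs x.2))
        med := fun x y u v => Subtype.ext (h3 _ (hs x.2) _ (hs y.2) _ (hs u.2) _ (hs v.2))
        m1 := fun x y z hyz => h4 _ (hs x.2) (hs y.2) (hs z.2) hyz
        m2 := fun x y z hyz => h5 _ (hs x.2) (hs y.2) (hs z.2) hyz
        bot := fun x => x.2.1 }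
    haveI : PreconnectedSpace (Icc a b) := Subtype.preconnectedSpace isPreconnected_Icc
    have hc := cont_F h ⟨b, right_mem_Icc.2 hab.le⟩ hab (fun x => x.2.2)
    rw [continuousOn_iff_continuous_restrict]
    have e : (Icc a b ×ˢ Icc a b).domRestrict (uncurry F) = fun q =>
        ((uncurry h.F (⟨q.1.1, q.2.1⟩, ⟨q.1.2, q.2.2⟩) : Icc a b) : ℝ) := rfl
    rw [e]
    exact continuous_subtype_val.comp (hc.comp (by fun_prop))
  rintro ⟨x, y⟩ ⟨hx, hy⟩
  obtain ⟨⟨a, ha, a1⟩, b, hb, b1⟩ := nbhd hx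
  obtain ⟨⟨c, hc, c1⟩, d, hd, d1⟩ := nbhd hy
  have hmin : min a c ∈ I := by rcases min_choice a c with e | e <;> rw [e] <;> assumption
  have hmax : max b d ∈ I := by rcases max_choice b d with e | e <;> rw [e] <;> assumption
  have X : Icc (min a c) (max b d) ∈ 𝓝[I] x := by
    filter_upwards [a1, b1] with z z1 z2
    exact ⟨(min_le_left _ _).trans z1, le_trans z2 (le_max_left _ _)⟩
  have Y : Icc (min a c) (max b d) ∈ 𝓝[I] y := by
    filter_upwards [c1, d1] with z z1 z2
    exact ⟨(min_le_right _ _).trans z1, le_trans z2 (le_max_right _ _)⟩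
  refine (main _ hmin _ hmax (x, y) ⟨mem_of_mem_nhdsWithin hx X, mem_of_mem_nhdsWithin hy Y⟩).mono_of_mem_nhdsWithin ?_
  rw [nhdsWithin_prod_eq]
  exact prod_mem_prod X Y

end Pool.Agent.S05997
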