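import Pool.Statements.S06000
import Pool.Agent.H8.VecRange

set_option autoImplicit false
open Pool Pool.MP_c0175c_an

namespace Pool.Agent.S06000

open Set Filter Topology

abbrev X := ZeroAtInftyContinuousMap ℕ ℝ

/-- a finitely supported sequence as an element of c_0 -/
noncomputable def fs (F : Finset ℕ) (c : ℕ → ℝ) : X :=
  ⟨⟨fun i => if i ∈ F then c i else 0, continuous_of_discreteTopology⟩, by
    rw [cocompact_eq_cofinite]
    refine tendsto_const_nhds.congr' ?_
    filter_upwards [F.eventually_cofinite_notMem] with i hi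
    simp [hi]⟩

theorem fs_apply (F : Finset ℕ) (c : ℕ → ℝ) (i : ℕ) : fs F c i = if i ∈ F then c i else 0 := rfl

theorem fs_eq_sum (F : Finset ℕ) (c : ℕ → ℝ) : fs F c = ∑ j ∈ F, c j • fs {j} 1 := by
  induction F using Finset.induction_on with
  | empty => ext i; simp [fs_apply]
  | insert a F ha ih =>
    rw [Finset.sum_insert ha, ← ih]
    ext i
    simp only [fs_apply, ZeroAtInftyContinuousMap.add_apply, ZeroAtInftyContinuousMap.smul_apply,
      Finset.mem_insert, Finset.mem_singleton, Pi.one_apply, smul_eq_mul]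
    by_cases h : i = a
    · subst h; simp [ha]
    · simp [h]

theorem abs_le_norm (x : X) (j : ℕ) : |x j| ≤ ‖x‖ := by
  rw [← ZeroAtInftyContinuousMap.norm_toBCF_eq_norm]
  exact x.toBCF.norm_coe_le_norm j

theorem fs_norm (F : Finset ℕ) (c : ℕ → ℝ) (h : ∀ i, |c i| ≤ 1) : ‖fs F c‖ ≤ 1 := by
  rw [← ZeroAtInftyContinuousMap.norm_toBCF_eq_norm]
  refine (BoundedContinuousFunction.norm_le zero_le_one).2 fun i => ?_
  show ‖fs F c i‖ ≤ 1
  rw [fs_apply]
  split_ifs
  · exact h i
  · simp

noncomputable def ev (j : ℕ) : X →L[ℝ] ℝ :=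
  LinearMap.mkContinuous ⟨⟨fun x => x j, fun _ _ => rfl⟩, fun _ _ => rfl⟩ 1 fun x => by
    simpa using abs_le_norm x j

theorem summable_dual (φ : X →L[ℝ] ℝ) : Summable fun j => |φ (fs {j} 1)| := by
  refine summable_of_sum_le (c := ‖φ‖) (fun j => abs_nonneg _) fun F => ?_
  have h1 : φ (fs F fun j => SignType.sign (φ (fs {j} 1))) = ∑ j ∈ F, |φ (fs {j} 1)| := by
    rw [fs_eq_sum, map_sum]
    refine Finset.sum_congr rfl fun j _ => ?_
    rw [map_smul, smul_eq_mul, sign_mul_self]
  rw [← h1]
  refine (le_abs_self _).trans ((φ.le_opNorm _).trans ?_)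
  have := fs_norm F (fun j => SignType.sign (φ (fs {j} 1))) fun i => by
    rcases lt_trichotomy (φ (fs {i} 1)) 0 with h | h | h <;> simp [h]
  nlinarith [norm_nonneg φ]

/-- the family of characteristic functions of the intervals from n to n + k, k < n -/
noncomputable def xx (p : (n : ℕ) × Fin n) : X := fs (Finset.Icc p.1 (p.1 + p.2)) 1

theorem tendsto_fst : Tendsto (fun p : (n : ℕ) × Fin n => p.1) cofinite atTop := by
  rw [← Nat.cofinite_eq_atTop]
  refine Tendsto.cofinite_of_finite_preimage_singleton fun b => ?_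
  have : (fun p : (n : ℕ) × Fin n => p.1) ⁻¹' {b} ⊆ range (fun k : Fin b => (⟨b, k⟩ : (n : ℕ) × Fin n)) := by
    rintro ⟨n, k⟩ h
    obtain rfl : n = b := h
    exact ⟨k, rfl⟩
  exact (finite_range _).subset this

theorem weak_null (φ : X →L[ℝ] ℝ) : Tendsto (fun p => φ (xx p)) cofinite (𝓝 0) := by
  have h1 := (tendsto_sum_nat_add fun j => |φ (fs {j} 1)|).comp tendsto_fst
  refine squeeze_zero_norm (fun p => ?_) h1
  rw [xx, fs_eq_sum, map_sum]
  refine (norm_sum_le _ _).trans ?_
  simp only [Pi.one_apply, one_smul, Real.norm_eq_abs, Function.comp]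
  have hs : Summable fun k => |φ (fs {k + p.1} 1)| :=
    (summable_nat_add_iff (f := fun j => |φ (fs {j} 1)|) p.1).2 (summable_dual φ)
  have he : ∑ j ∈ Finset.Icc p.1 (p.1 + p.2), |φ (fs {j} 1)|
      = ∑ k ∈ Finset.Icc 0 (p.2 : ℕ), |φ (fs {k + p.1} 1)| := by
    refine (Finset.sum_bij (fun k _ => k + p.1) ?_ ?_ ?_ ?_).symm
    · intro a ha; simp only [Finset.mem_Icc] at ha ⊢; omega
    · intro a _ b _ hab; omega
    · intro b hb; simp only [Finset.mem_Icc] at hb
      exact ⟨b - p.1, by simp only [Finset.mem_Icc]; omega, by omega⟩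
    · intro a _; rfl
  rw [he]
  exact hs.sum_le_tsum _ fun i _ => abs_nonneg _

/-- The negation of the preceding statement: Every weakly compact subset of the real sequence space c_0 is contained in the range of some countably additive c_0-valued vector measure on some measurable space. -/
theorem result :
    ¬ (∀ K : Set (ZeroAtInftyContinuousMap ℕ ℝ),
      IsCompact ((toWeakSpace ℝ (ZeroAtInftyContinuousMap ℕ ℝ)) '' K) →
      ∃ (α : Type) (_ : MeasurableSpace α)
        (μ : MeasureTheory.VectorMeasure α (ZeroAtInftyContinuousMap ℕ ℝ)),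
        K ⊆ Set.range (fun s : Set α => μ s)) := by
  intro h
  have hK : IsCompact ((toWeakSpace ℝ X) '' (insert 0 (range xx))) := by
    have ht : Tendsto (fun p => toWeakSpace ℝ X (xx p)) cofinite (𝓝 (toWeakSpace ℝ X 0)) := by
      refine (WeakBilin.tendsto_iff_forall_eval_tendsto (B := (topDualPairing ℝ X).flip) ?_).2 ?_
      · intro x y hxy
        refine (SeparatingDual.eq_iff_forall_dual_eq (R := ℝ)).2 fun g => ?_
        exact LinearMap.congr_fun hxy g
      · intro φ
        have := weak_null φ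
        rw [← map_zero φ] at this
        exact this
    have := ht.isCompact_insert_range_of_cofinite
    rwa [image_insert_eq, ← range_comp]
  obtain ⟨α, _, ν, hν⟩ := h _ hK
  refine Pool.Agent.H8.VecRange.no_pattern ν ev (fun j x => abs_le_norm x j)
    (fun x hx => by ext j; exact hx j) fun n => ?_
  have hex : ∀ k : ℕ, ∃ E : Set α, MeasurableSet E ∧ ∀ hk : k < n, ν E = xx ⟨n, ⟨k, hk⟩⟩ := by
    intro k
    by_cases hk : k < n
    · obtain ⟨E, hE⟩ := hν (mem_insert_of_mem _ (mem_range_self (⟨n, ⟨k, hk⟩⟩ : (n : ℕ) × Fin n)))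
      by_cases hm : MeasurableSet E
      · exact ⟨E, hm, fun _ => hE⟩
      · refine ⟨∅, MeasurableSet.empty, fun _ => ?_⟩
        rw [← hE]
        simp [ν.not_measurable hm]
    · exact ⟨∅, MeasurableSet.empty, fun h => absurd h hk⟩
  choose E hEm hE using hex
  refine ⟨E, hEm, fun m => n + m, fun m k hk => ?_⟩
  rw [hE k hk]
  show fs _ _ (n + m) = _
  rw [fs_apply]
  simp

end Pool.Agent.S06000
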