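import Pool.Statements.S06006


set_option autoImplicit false
open MeasureTheory
open Pool Pool.MP_c09e54_an

namespace Pool.Agent.S06006

/-- The negation of the preceding statement: Any two bounded Lebesgue measurable subsets of the reals of equal measure become, after deleting null sets, equidecomposable: finitely many disjoint measurable pieces of one, moved by isometries of the line, exactly tile the other. -/
theorem result :
    ¬ (∀ A B : Set ℝ, NullMeasurableSet A volume → NullMeasurableSet B volume →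
      Bornology.IsBounded A → Bornology.IsBounded B → volume A = volume B →
      ∃ E₁ E₂ : Set ℝ, volume E₁ = 0 ∧ volume E₂ = 0 ∧
        ∃ (n : ℕ) (P : Fin n → Set ℝ) (f : Fin n → ℝ → ℝ),
          (∀ i, NullMeasurableSet (P i) volume) ∧
          (∀ i, Isometry (f i)) ∧
          Pairwise (fun i j => Disjoint (P i) (P j)) ∧
          Pairwise (fun i j => Disjoint (f i '' P i) (f j '' P j)) ∧
          (⋃ i, P i) = A \ E₁ ∧
          (⋃ i, f i '' P i) = B \ E₂) := by
  intro H
  obtain ⟨U, hU1, hU, hU2⟩ := Set.exists_isOpen_lt_of_lt (μ := volume)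
    (Set.range ((↑) : ℚ → ℝ)) 1
    (by rw [(Set.countable_range _).measure_zero]; exact zero_lt_one)
  set A : Set ℝ := Set.Icc 0 2 \ U with hA
  have hAc : IsCompact A := isCompact_Icc.diff hU
  have hAfin : volume A ≠ ⊤ := hAc.measure_lt_top.ne
  have hApos : volume A ≠ 0 := by
    intro h0
    have h1 : volume (Set.Icc (0 : ℝ) 2) ≤ volume A + volume U :=
      (measure_mono (Set.subset_diff_union _ _)).trans (measure_union_le _ _)
    rw [h0, zero_add, Real.volume_Icc] at h1
    have := h1.trans_lt hU2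
    norm_num at this
  set a : ℝ := (volume A).toReal with ha
  have ha0 : 0 < a := ENNReal.toReal_pos hApos hAfin
  obtain ⟨E₁, E₂, -, hE₂, n, P, f, -, hf, -, -, hP, hQ⟩ := H A (Set.Icc 0 a)
    hAc.measurableSet.nullMeasurableSet measurableSet_Icc.nullMeasurableSet hAc.isBounded
    (Metric.isBounded_Icc 0 a) (by rw [Real.volume_Icc, sub_zero, ha, ENNReal.ofReal_toReal hAfin])
  have hopen : ∀ i, IsOpen (f i '' A)ᶜ := fun i =>
    (hAc.image (hf i).continuous).isClosed.isOpen_compl
  have hdense : ∀ i, Dense (f i '' A)ᶜ := by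
    intro i
    rw [Metric.dense_iff]
    intro y r hr
    by_contra hcon
    rw [Set.not_nonempty_iff_eq_empty] at hcon
    have hsub : ∀ z ∈ Metric.ball y r, z ∈ f i '' A := by
      intro z hz
      by_contra hz'
      exact (Set.eq_empty_iff_forall_notMem.1 hcon z) ⟨hz, hz'⟩
    obtain ⟨x, -, hx⟩ := hsub y (Metric.mem_ball_self hr)
    obtain ⟨q, hq⟩ := exists_rat_near x hr
    obtain ⟨x', hx', he⟩ := hsub (f i q) (by
      rw [Metric.mem_ball, ← hx, (hf i).dist_eq, Real.dist_eq, abs_sub_comm]; exact hq)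
    rw [(hf i).injective he] at hx'
    exact hx'.2 (hU1 ⟨q, rfl⟩)
  have hD : Dense (⋂ i, (f i '' A)ᶜ) := dense_iInter_of_isOpen hopen hdense
  have hO : IsOpen (Set.Ioo 0 a ∩ ⋂ i, (f i '' A)ᶜ) :=
    isOpen_Ioo.inter (isOpen_iInter_of_finite hopen)
  have hne : (Set.Ioo 0 a ∩ ⋂ i, (f i '' A)ᶜ).Nonempty :=
    hD.inter_open_nonempty _ isOpen_Ioo (Set.nonempty_Ioo.2 ha0)
  refine (hO.measure_pos volume hne).ne' (measure_mono_null ?_ hE₂)
  rintro z ⟨hz1, hz2⟩
  by_contra hz3
  have hz4 : z ∈ ⋃ i, f i '' P i := by rw [hQ]; exact ⟨Set.Ioo_subset_Icc_self hz1, hz3⟩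
  obtain ⟨i, x, hx, rfl⟩ := Set.mem_iUnion.1 hz4
  have hx' : x ∈ A \ E₁ := by rw [← hP]; exact Set.mem_iUnion.2 ⟨i, hx⟩
  exact (Set.mem_iInter.1 hz2 i) ⟨x, hx'.1, rfl⟩

end Pool.Agent.S06006
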