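import Pool.Statements.S06057
import Pool.Agent.H24.Subsum

set_option autoImplicit false
open Pool Pool.MP_c42e77_an

namespace Pool.Agent.S06057

open Pool.Agent.H24

/-- For every summable sequence of positive reals, the set of reals t that arise as a subsum in continuum-many ways is either empty or contains a subset homeomorphic to the Cantor space. -/
theorem result :
    ∀ x : ℕ → ℝ, (∀ n, 0 < x n) → Summable x →
      ({t : ℝ | Cardinal.mk (↥{ε : ℕ → Bool | (∑' n, if ε n then x n else 0) = t})
            = Cardinal.continuum} = ∅ ∨
        ∃ C : Set ℝ,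
          C ⊆ {t : ℝ | Cardinal.mk (↥{ε : ℕ → Bool | (∑' n, if ε n then x n else 0) = t})
                = Cardinal.continuum} ∧
          Nonempty (C ≃ₜ (ℕ → Bool))) := by
  intro x hx hs
  classical
  rw [or_iff_not_imp_left]
  intro hne
  obtain ⟨t0, ht0⟩ := Set.nonempty_iff_ne_empty.mpr hne
  simp only [Set.mem_ofPred_eq] at ht0
  have hK : ¬ {ε : ℕ → Bool | (∑' n, if ε n then x n else 0) = t0}.Countable := by
    rw [← Cardinal.le_aleph0_iff_set_countable, ht0, not_le]
    exact Cardinal.aleph0_lt_continuum
  obtain ⟨c, j, g, jm, j3, gi, hg⟩ := agree_set x hx hs _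
    (isClosed_eq (cont_subsum x hx hs) continuous_const) hK
  have ys : Summable (fun k => x (j k)) := hs.comp_injective jm.injective
  set σ : ℝ := if c then -1 else 1 with hσ
  have σ0 : σ ≠ 0 := by rw [hσ]; split_ifs <;> norm_num
  set φ : (ℕ → Bool) → ℝ := fun δ => t0 + σ * ∑' k, if δ k then x (j k) else 0 with hφ
  have φc : Continuous φ :=
    continuous_const.add (continuous_const.mul (cont_subsum _ (fun k => hx _) ys))
  have φi : Function.Injective φ := by
    intro δ δ' e
    exact inj_subsum _ (fun k => hx _) ys j3 (mul_left_cancel₀ σ0 (add_left_cancel e))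
  refine ⟨Set.range φ, ?_, ⟨(φc.isClosedEmbedding φi).isEmbedding.toHomeomorph.symm⟩⟩
  rintro _ ⟨δ, rfl⟩
  simp only [Set.mem_ofPred_eq]
  apply le_antisymm
  · refine (Cardinal.mk_set_le _).trans ?_
    simp
  · let fl : (ℕ → Bool) → (ℕ → Bool) := fun a i => if ∃ k, j k = i ∧ δ k = true then !c else g a i
    have hfl : ∀ a, (∑' n, if fl a n then x n else 0) = φ δ := by
      intro a
      have e1 : ∀ n, (if fl a n then x n else 0) = (if g a n then x n else 0) +
          σ * (if ∃ k, j k = n ∧ δ k = true then x n else 0) := by
        intro n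
        by_cases h : ∃ k, j k = n ∧ δ k = true
        · have h' := h
          obtain ⟨k, rfl, -⟩ := h'
          simp only [fl, h, if_true, (hg a).2 k, hσ]
          cases c <;> simp
        · simp only [fl, h, if_false, mul_zero, add_zero]
      have e2 : (∑' n, if ∃ k, j k = n ∧ δ k = true then x n else 0) =
          ∑' k, if δ k then x (j k) else 0 := by
        rw [← jm.injective.tsum_eq]
        · congr 1
          funext k
          simp [jm.injective.eq_iff]
        · intro n hn
          by_contra h
          apply hn
          refine if_neg ?_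
          rintro ⟨k, hk, -⟩
          exact h ⟨k, hk⟩
      simp_rw [e1]
      rw [Summable.tsum_add (summable_ite x hx hs _) ((summable_ite x hx hs _).mul_left _),
        tsum_mul_left, e2, (hg a).1]
    have hinj : Function.Injective
        (fun a => (⟨fl a, hfl a⟩ : {ε : ℕ → Bool | (∑' n, if ε n then x n else 0) = φ δ})) := by
      intro a b e
      apply gi
      funext i
      have e' : fl a i = fl b i := congrFun (congrArg Subtype.val e) i
      by_cases h : ∃ k, j k = i ∧ δ k = true
      · obtain ⟨k, rfl, -⟩ := h
        rw [(hg a).2, (hg b).2]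
      · simpa only [fl, h, if_false] using e'
    refine le_trans ?_ (Cardinal.mk_le_of_injective hinj)
    simp

end Pool.Agent.S06057
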