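import Pool.Statements.S06062
-- import your own Pool.Agent.* helpers here

set_option autoImplicit false
open Pool Pool.MP_c46510_an

namespace Pool.Agent.S06062

open MeasureTheory Complex Finset

noncomputable def D (j : ℤ) (b : ℝ) (f : ℝ → ℂ) (x : ℝ) : ℂ :=
  ((Real.sqrt 2 ^ j : ℝ) : ℂ) * f ((2 : ℝ) ^ j * x - b)

noncomputable def ip (f g : ℝ → ℂ) : ℂ := ∫ x : ℝ, f x * (starRingEnd ℂ) (g x)

theorem D_D (j m : ℤ) (b l : ℝ) (f : ℝ → ℂ) : D j b (D m l f) = D (j + m) (l + 2 ^ m * b) f := by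
  funext x
  simp only [D, zpow_add₀ (show (2 : ℝ) ≠ 0 by norm_num),
    zpow_add₀ (show Real.sqrt 2 ≠ 0 by positivity), ofReal_mul, mul_assoc]
  congr 3
  ring

theorem D_zero (f : ℝ → ℂ) : D 0 0 f = f := by
  funext x
  simp [D]

theorem sq_zpow (j : ℤ) : Real.sqrt 2 ^ j * Real.sqrt 2 ^ j = 2 ^ j := by
  rw [← mul_zpow, Real.mul_self_sqrt (by norm_num)]

theorem ip_D (j : ℤ) (b : ℝ) (f g : ℝ → ℂ) : ip (D j b f) (D j b g) = ip f g := by
  have h2 : (0 : ℝ) < 2 ^ j := by positivity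
  have h := Measure.integral_comp_mul_left
    (fun y => f (y - b) * (starRingEnd ℂ) (g (y - b))) ((2 : ℝ) ^ j)
  rw [integral_sub_right_eq_self (fun y => f y * (starRingEnd ℂ) (g y)) b, abs_of_pos (inv_pos.2 h2),
    ← inv_smul_eq_iff₀ (inv_pos.2 h2).ne', inv_inv, ← integral_smul] at h
  rw [ip, ip, ← h]
  refine integral_congr_ae (.of_forall fun x => ?_)
  simp only [D, map_mul, conj_ofReal, real_smul]
  rw [← sq_zpow j, ofReal_mul]
  ring

theorem ip_symm (f g : ℝ → ℂ) : ip f g = (starRingEnd ℂ) (ip g f) := by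
  rw [ip, ip, ← integral_conj]
  simp [mul_comm]

theorem ip_self (f : ℝ → ℂ) : ip f f = ((∫ x, ‖f x‖ ^ 2 : ℝ) : ℂ) := by
  rw [ip, ← integral_complex_ofReal]
  simp [mul_conj']

noncomputable def h : ℝ → ℂ := fun x =>
  (Set.Ico (0 : ℝ) (1 / 2)).indicator 1 x - (Set.Ico (1 / 2 : ℝ) 1).indicator 1 x

def G (z : ℤ) : ℂ := if z = 0 then 1 else if z = 1 then -1 else 0

theorem h_eq (x : ℝ) : h x = G ⌊2 * x⌋ := by
  have e0 : ⌊2 * x⌋ = 0 ↔ x ∈ Set.Ico (0 : ℝ) (1 / 2) := by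
    rw [Int.floor_eq_iff, Set.mem_Ico]
    push_cast
    constructor <;> rintro ⟨a, b⟩ <;> constructor <;> linarith
  have e1 : ⌊2 * x⌋ = 1 ↔ x ∈ Set.Ico (1 / 2 : ℝ) 1 := by
    rw [Int.floor_eq_iff, Set.mem_Ico]
    push_cast
    constructor <;> rintro ⟨a, b⟩ <;> constructor <;> linarith
  simp only [h, G, Set.indicator_apply, ← e0, ← e1, Pi.one_apply]
  split_ifs with a b <;> first | omega | simp

theorem h_off {x : ℝ} (hx : ⌊x⌋ ≠ 0) : h x = 0 := by
  have := Int.floor_div_natCast (2 * x) 2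
  rw [Nat.cast_ofNat, mul_div_cancel_left₀ _ two_ne_zero] at this
  rw [h_eq, G, if_neg (by omega), if_neg (by omega)]

theorem int_ind (a b : ℝ) : Integrable ((Set.Ico a b).indicator (1 : ℝ → ℂ)) :=
  (integrable_indicator_iff measurableSet_Ico).2 (integrableOn_const (by simp))

theorem h_int : ∫ x, h x = 0 := by
  unfold h
  rw [integral_sub (int_ind _ _) (int_ind _ _), integral_indicator measurableSet_Ico,
    integral_indicator measurableSet_Ico]
  simp only [Pi.one_def]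
  norm_num

theorem h_sq (x : ℝ) : ‖h x‖ ^ 2 = (Set.Ico (0 : ℝ) 1).indicator 1 x := by
  have e : ⌊x⌋ = 0 ↔ x ∈ Set.Ico (0 : ℝ) 1 := Int.floor_eq_zero_iff
  have := Int.floor_div_natCast (2 * x) 2
  rw [Nat.cast_ofNat, mul_div_cancel_left₀ _ two_ne_zero] at this
  simp only [h_eq, G, Set.indicator_apply, ← e, Pi.one_apply]
  split_ifs <;> first | omega | simp

theorem h_meas : Measurable h :=
  (measurable_one.indicator measurableSet_Ico).sub (measurable_one.indicator measurableSet_Ico)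

theorem memLp_H (j : ℤ) (b : ℝ) : MemLp (D j b h) 2 volume := by
  have : Measurable (D j b h) := measurable_const.mul (h_meas.comp (by fun_prop))
  rw [memLp_two_iff_integrable_sq_norm this.aestronglyMeasurable]
  simp only [D, norm_mul, mul_pow, h_sq]
  refine Integrable.const_mul (Integrable.comp_mul_left'
    (g := fun y => (Set.Ico (0 : ℝ) 1).indicator (1 : ℝ → ℝ) (y - b)) (Integrable.comp_sub_right
    ((integrable_indicator_iff measurableSet_Ico).2 (integrableOn_const (by simp))) b)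
    (by positivity)) _

theorem ip_h : ip h h = 1 := by
  rw [ip_self]
  simp only [h_sq]
  rw [integral_indicator measurableSet_Ico]
  simp

theorem ip_h_D (n : ℕ) (l : ℤ) (hne : ¬(n = 0 ∧ l = 0)) : ip h (D n l h) = 0 := by
  have e : h = D n l (D (-n) (-(2 ^ (-n : ℤ) * l)) h) := by
    rw [D_D, add_neg_cancel, neg_add_cancel, D_zero]
  have key : ∃ c : ℂ, ∀ y, ⌊y⌋ = 0 → D (-n) (-(2 ^ (-n : ℤ) * l)) h y = c := by
    cases n with
    | zero =>
      refine ⟨0, fun y hy => ?_⟩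
      simp only [D, Nat.cast_zero, neg_zero, zpow_zero, one_mul, sub_neg_eq_add]
      rw [h_off, mul_zero]
      rw [Int.floor_add_intCast, hy, zero_add]
      tauto
    | succ n =>
      refine ⟨((√2 ^ (-(n + 1 : ℕ) : ℤ) : ℝ) : ℂ) * G (l / (2 ^ n : ℕ)), fun y hy => ?_⟩
      have e : l = ⌊y + l⌋ := by rw [Int.floor_add_intCast, hy, zero_add]
      nth_rewrite 2 [e]
      rw [D, h_eq, ← Int.floor_div_natCast]
      congr 3
      push_cast
      rw [zpow_neg, zpow_add_one₀ two_ne_zero, zpow_natCast]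
      field_simp
      ring
  obtain ⟨c, hc⟩ := key
  nth_rewrite 1 [e]
  rw [ip_D, ip_symm, ip, ← map_zero (starRingEnd ℂ), ← zero_mul ((starRingEnd ℂ) c), ← h_int,
    ← integral_mul_const]
  congr 2
  funext y
  by_cases hy : ⌊y⌋ = 0
  · rw [hc y hy]
  · simp [h_off hy]

theorem ortho (p q : ℤ × ℤ) : ip (D p.1 p.2 h) (D q.1 q.2 h) = if p = q then 1 else 0 := by
  split_ifs with hpq
  · rw [hpq, ip_D, ip_h]
  wlog hle : p.1 ≤ q.1 generalizing p q
  · rw [ip_symm, this q p (Ne.symm hpq) (le_of_not_ge hle), map_zero]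
  obtain ⟨m, l⟩ := p
  obtain ⟨m', l'⟩ := q
  obtain ⟨n, rfl⟩ := Int.le.dest hle
  have := ip_h_D n (l' - 2 ^ n * l) (by
    rintro ⟨rfl, h2⟩
    simp at h2 hpq
    omega)
  rw [← ip_D m l, D_D] at this
  simpa using this

theorem bessel {ι : Type} {F : ι → ℤ × ℤ} {S : Finset ι} (hF : Set.InjOn F S) {f : ℝ → ℂ}
    (hf : MemLp f 2 volume) :
    ∑ i ∈ S, ‖ip f (D (F i).1 (F i).2 h)‖ ^ 2 ≤ ∫ x, ‖f x‖ ^ 2 := by
  have e : ∀ {u v : ℝ → ℂ} (hu : MemLp u 2 volume) (hv : MemLp v 2 volume),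
      inner ℂ (hu.toLp u) (hv.toLp v) = ip v u := fun hu hv => by
    rw [L2.inner_def, ip]
    refine integral_congr_ae ?_
    filter_upwards [hu.coeFn_toLp, hv.coeFn_toLp] with x a b
    rw [a, b, RCLike.inner_apply]
  have ho : Orthonormal ℂ fun p : ℤ × ℤ => (memLp_H p.1 p.2).toLp _ :=
    orthonormal_iff_ite.2 fun p q => by rw [e, ortho, if_congr eq_comm rfl rfl]
  have h1 := ho.sum_inner_products_le (s := S.image F) (hf.toLp f)
  have h2 := e hf hf
  rw [inner_self_eq_norm_sq_to_K, ip_self] at h2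
  rw [sum_image hF] at h1
  simp only [e] at h1
  exact h1.trans_eq (ofReal_injective (by rw [← h2, ofReal_pow]; rfl))

noncomputable def psi : ℝ → ℂ := fun x => 3 / 4 * D 2 0 h x

theorem ip_psi (f : ℝ → ℂ) (j k : ℤ) : ‖ip f (D j k psi)‖ ^ 2 =
    9 / 16 * ‖ip f (D (j + 2 : ℤ) (4 * k : ℤ) h)‖ ^ 2 := by
  have : ip f (D j k psi) = 3 / 4 * ip f (D j k (D 2 0 h)) := by
    rw [ip, ip, ← integral_const_mul]
    refine integral_congr_ae (.of_forall fun x => ?_)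
    simp only [D, psi, map_mul, map_div₀, map_ofNat]
    ring
  rw [this, D_D, norm_mul, mul_pow]
  norm_num

/-- The shift of the translation index induced by translation by one half. -/
def sh (j : ℤ) : ℤ := if 1 ≤ j then 2 ^ (j - 1).toNat else 0

theorem ip_shift (f g : ℝ → ℂ) {j : ℤ} (hj : 1 ≤ j) (k : ℤ) :
    ip (D 0 (1 / 2) f) (D j k g) = ip f (D j (k - sh j : ℤ) g) := by
  obtain ⟨n, rfl⟩ := Int.le.dest hj
  rw [← ip_D 0 (1 / 2) f, D_D, sh, if_pos hj]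
  congr 2
  · ring
  · simp [zpow_add₀]
    ring

theorem ip_coarse (g : ℝ → ℂ) (n m : ℕ) (k l : ℤ) : ‖ip (D m l h) (D (-n) k g)‖ =
    ‖ip g (D (m + n : ℤ) (l - 2 ^ (m + n) * k : ℤ) h)‖ := by
  rw [ip_symm g, RCLike.norm_conj, ← ip_D (-n) k _ g, D_D]
  congr 3
  · ring
  · rw [← Nat.cast_add, zpow_natCast]
    push_cast
    ring

/-- The negation of the preceding statement: For every square-integrable ψ whose dyadic wavelet system is Bessel with bound below 1, there is a square-integrable ψ' such that the wavelet systems of ψ and ψ' together form a Parseval frame of L²(ℝ). -/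
theorem result :
    ¬ (∀ ψ : ℝ → ℂ, MeasureTheory.MemLp ψ 2 MeasureTheory.volume →
    (∃ B : ℝ, B < 1 ∧ ∀ f : ℝ → ℂ, MeasureTheory.MemLp f 2 MeasureTheory.volume →
      ∀ S : Finset (ℤ × ℤ),
        ∑ p ∈ S, ‖∫ x : ℝ, f x * (starRingEnd ℂ)
            (((Real.sqrt 2 ^ p.1 : ℝ) : ℂ) * ψ ((2 : ℝ) ^ p.1 * x - (p.2 : ℝ)))‖ ^ 2
          ≤ B * ∫ x : ℝ, ‖f x‖ ^ 2) →
    ∃ ψ' : ℝ → ℂ, MeasureTheory.MemLp ψ' 2 MeasureTheory.volume ∧
      ∀ f : ℝ → ℂ, MeasureTheory.MemLp f 2 MeasureTheory.volume →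
        HasSum (fun p : ℤ × ℤ =>
            ‖∫ x : ℝ, f x * (starRingEnd ℂ)
              (((Real.sqrt 2 ^ p.1 : ℝ) : ℂ) * ψ ((2 : ℝ) ^ p.1 * x - (p.2 : ℝ)))‖ ^ 2
            + ‖∫ x : ℝ, f x * (starRingEnd ℂ)
              (((Real.sqrt 2 ^ p.1 : ℝ) : ℂ) * ψ' ((2 : ℝ) ^ p.1 * x - (p.2 : ℝ)))‖ ^ 2)
          (∫ x : ℝ, ‖f x‖ ^ 2)) := by
  intro H
  obtain ⟨φ, hφ, hs⟩ := H psi ((memLp_H 2 0).const_mul _) ⟨9 / 16, by norm_num, fun f hf S => by
    refine (sum_congr rfl fun p _ => ip_psi f p.1 p.2).trans_le ?_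
    rw [← mul_sum]
    exact mul_le_mul_of_nonneg_left (bessel (S := S) (F := fun p : ℤ × ℤ => (p.1 + 2, 4 * p.2))
       (fun p _ q _ e => by
      simp only [Prod.mk.injEq] at e
      exact Prod.ext (by omega) (by omega)) hf) (by norm_num)⟩
  clear H
  change ∀ f, _ → HasSum (fun p : ℤ × ℤ => ‖ip f (D p.1 p.2 psi)‖ ^ 2 + ‖ip f (D p.1 p.2 φ)‖ ^ 2) _
    at hs
  have h1 : ∫ x, ‖φ x‖ ^ 2 ≤ 1 := by
    have := le_hasSum (hs φ hφ) (0, 0) fun _ _ => by positivity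
    simp only [Int.cast_zero, D_zero, ip_self, norm_real, Real.norm_eq_abs, sq_abs] at this
    nlinarith [sq_nonneg ‖ip φ psi‖]
  have h2 : ∀ j b, ∫ x, ‖D j b h x‖ ^ 2 = 1 := fun j b => by
    have := ip_D j b h h
    rw [ip_self, ip_h] at this
    exact_mod_cast this
  have h3 : ∀ m : ℕ, m = 1 ∨ m = 2 → ∃ d : ℤ × ℤ → ℝ, HasSum d (9 / 16) ∧ ∀ p, d p ≤
      if p.1 ≤ 0 then ‖ip φ (D (m - p.1 : ℤ) (m - 2 ^ (m - p.1).toNat * p.2 : ℤ) h)‖ ^ 2 else 0 :=
    fun m hm => by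
    have e : D 0 (1 / 2) (D m (0 : ℤ) h) = D m (m : ℤ) h := by
      rw [D_D]
      rcases hm with rfl | rfl <;> norm_num
    have a := hs _ (memLp_H m (m : ℤ))
    have b := hs _ (memLp_H m (0 : ℤ))
    rw [h2] at a b
    rw [← Equiv.hasSum_iff (Equiv.prodCongrRight fun j => Equiv.subRight (sh j))] at b
    have c := (a.sub b).add (hasSum_ite_eq ((m : ℤ) - 2, (0 : ℤ)) (9 / 16 : ℝ))
    rw [sub_self, zero_add] at c
    refine ⟨_, c, fun ⟨j, k⟩ => ?_⟩
    simp only [Function.comp, Equiv.prodCongrRight_apply, Equiv.subRight_apply, Prod.mk.injEq]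
    by_cases hj : j ≤ 0
    · obtain ⟨n, rfl⟩ : ∃ n : ℕ, j = -n := ⟨j.natAbs, by omega⟩
      rw [if_pos hj, sh, if_neg (by omega), sub_zero, ip_coarse φ n m k m, sub_neg_eq_add,
        ← Nat.cast_add, Int.toNat_natCast, ip_psi, ip_psi, ortho (m, m) (-n + 2, 4 * k),
        ortho (m, 0) (-n + 2, 4 * k), if_neg (by simp only [Prod.mk.injEq]; omega)]
      simp only [Prod.mk.injEq]
      split_ifs <;> first | omega | (simp only [norm_zero, norm_one]; ring_nf; simp)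
    · rw [if_neg hj, if_neg (by omega), ← e, ip_shift _ _ (by omega), ip_shift _ _ (by omega)]
      simp
  obtain ⟨d₁, a₁, b₁⟩ := h3 1 (Or.inl rfl)
  obtain ⟨d₂, a₂, b₂⟩ := h3 2 (Or.inr rfl)
  have := hasSum_le_of_sum_le (a₁.add a₂) (c := 1) fun S => by
    refine (sum_le_sum fun p _ => add_le_add (b₁ p) (b₂ p)).trans (le_trans (le_of_eq ?_)
      ((bessel (S := S.filter (·.1 ≤ 0) ×ˢ ({1, 2} : Finset ℕ)) (F := fun x =>
        (x.2 - x.1.1, x.2 - 2 ^ (x.2 - x.1.1).toNat * x.1.2)) ?_ hφ).trans h1))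
    · rw [sum_product, sum_filter]
      refine sum_congr rfl fun p _ => ?_
      rw [sum_pair (by norm_num)]
      split_ifs <;> simp
    · rintro ⟨⟨j, k⟩, m⟩ hx ⟨⟨j', k'⟩, m'⟩ hy e
      simp only [coe_product, coe_filter, Set.mem_prod, Set.mem_ofPred_eq, coe_insert,
        coe_singleton, Set.mem_insert_iff, Set.mem_singleton_iff, Prod.mk.injEq] at hx hy e ⊢
      obtain ⟨e1, e2⟩ := e
      obtain ⟨n, hn⟩ : ∃ n, ((m : ℤ) - j).toNat = n + 1 := ⟨((m : ℤ) - j).toNat - 1, by omega⟩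
      rw [← e1, hn, pow_succ', mul_assoc, mul_assoc] at e2
      have e3 : m = m' := by omega
      subst e3
      exact ⟨⟨by omega, mul_left_cancel₀ (a := 2 ^ n) (by positivity) (by omega)⟩, rfl⟩
  norm_num at this

end Pool.Agent.S06062
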