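import Pool.Statements.S06070
import Pool.Agent.H9.Ghost3

set_option autoImplicit false
open Pool Pool.MP_c4dd1f_an

namespace Pool.Agent.S06070

/-- The negation of the preceding statement: For every real Banach space X and every maximally monotone set-valued map A from X to its continuous dual, the closure of the domain of A (points where A is nonempty) is a convex set. -/
theorem result :
    ¬ (∀ (X : Type) [NormedAddCommGroup X] [NormedSpace ℝ X] [CompleteSpace X]
      (A : X → Set (X →L[ℝ] ℝ)),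
      (∀ (x y : X) (xs ys : X →L[ℝ] ℝ), xs ∈ A x → ys ∈ A y → 0 ≤ (xs - ys) (x - y)) →
      (∀ (x : X) (xs : X →L[ℝ] ℝ),
          (∀ (y : X) (ys : X →L[ℝ] ℝ), ys ∈ A y → 0 ≤ (xs - ys) (x - y)) → xs ∈ A x) →
      Convex ℝ (closure {x : X | (A x).Nonempty})) := by
  intro h
  obtain ⟨L, B, -, h1, h2, ⟨p, hp, e1⟩, ⟨q, hq, e2⟩, h3⟩ := H9.Ghost.op
  have h4 := h _ (fun x => {f | (x, f) ∈ B}) (fun x y f g hf hg => h1 _ hf _ hg)
    (fun x f hf => h2 (x, f) fun p hp => hf _ _ hp)
  have h5 := closure_minimal (t := {x | 1 ≤ |x.1|})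
    (fun x hx => hx.elim fun f hf => (h3 (x, f) hf).1.le) (isClosed_le continuous_const continuous_fst.abs) (h4 (subset_closure ⟨p.2, hp⟩)
      (subset_closure ⟨q.2, hq⟩) (a := -q.1.1 / (p.1.1 - q.1.1)) (b := p.1.1 / (p.1.1 - q.1.1))
      (div_nonneg (by linarith) (by linarith)) (div_nonneg (by linarith) (by linarith)) (by
        rw [← add_div, neg_add_eq_sub, div_self (by linarith)]))
  change 1 ≤ |_ * p.1.1 + _ * q.1.1| at h5
  rw [show -q.1.1 / (p.1.1 - q.1.1) * p.1.1 + p.1.1 / (p.1.1 - q.1.1) * q.1.1 = 0 by ring] at h5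
  norm_num at h5

end Pool.Agent.S06070
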