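import Pool.Statements.S06071

set_option autoImplicit false
open Pool Pool.MP_c4f5bb_an

namespace Pool.Agent.S06071

section aux
variable {X : Type} [NormedAddCommGroup X] [NormedSpace ℝ X]

def P (A : Finset X) (t : ℝ) (a b : X) : Prop :=
  ∀ C : Set X, a ∈ C → b ∉ C → ∃ p ∈ A, ∃ q ∈ A, p ∈ C ∧ q ∉ C ∧ dist p q ≤ t

noncomputable def v (A : Finset X) (d : ℝ) (a b : X) : ℝ := sInf {t | d ≤ t ∧ P A t a b}

noncomputable def w (A : Finset X) (d : ℝ) (a b : X) : ℝ := max 0 (2 * d - v A d a b)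

noncomputable def y (A : Finset X) (d : ℝ) (a : X) : X :=
  (∑ b ∈ A, w A d a b)⁻¹ • ∑ b ∈ A, w A d a b • b

omit [NormedSpace ℝ X] in
lemma P_mono {A : Finset X} {t t' : ℝ} {a b : X} (h : P A t a b) (ht : t ≤ t') : P A t' a b := by
  intro C ha hb
  obtain ⟨p, hp, q, hq, h1, h2, h3⟩ := h C ha hb
  exact ⟨p, hp, q, hq, h1, h2, h3.trans ht⟩

omit [NormedSpace ℝ X] in
lemma set_ne {A : Finset X} (d : ℝ) {a b : X} (ha : a ∈ A) (hb : b ∈ A) :
    ({t | d ≤ t ∧ P A t a b} : Set ℝ).Nonempty :=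
  ⟨max d (dist a b), le_max_left _ _, fun _ h1 h2 => ⟨a, ha, b, hb, h1, h2, le_max_right _ _⟩⟩

omit [NormedSpace ℝ X] in
lemma set_bdd (A : Finset X) (d : ℝ) (a b : X) :
    BddBelow ({t | d ≤ t ∧ P A t a b} : Set ℝ) := ⟨d, fun _ h => h.1⟩

omit [NormedSpace ℝ X] in
lemma le_v {A : Finset X} (d : ℝ) {a b : X} (ha : a ∈ A) (hb : b ∈ A) : d ≤ v A d a b :=
  le_csInf (set_ne d ha hb) (fun _ h => h.1)

omit [NormedSpace ℝ X] in
lemma v_self {A : Finset X} (d : ℝ) {a : X} (ha : a ∈ A) : v A d a a = d :=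
  le_antisymm (csInf_le (set_bdd _ _ _ _) ⟨le_rfl, fun _ h1 h2 => absurd h1 h2⟩) (le_v d ha ha)

omit [NormedSpace ℝ X] in
lemma v_close {A : Finset X} {d : ℝ} {a a' : X} (ha : a ∈ A) (ha' : a' ∈ A) (h : dist a a' ≤ d)
    (b : X) : v A d a b = v A d a' b := by
  have key : ∀ {a a' : X}, a ∈ A → a' ∈ A → dist a a' ≤ d → ∀ t, d ≤ t → P A t a' b → P A t a b := by
    intro a a' ha ha' h t ht hP C h1 h2
    by_cases h3 : a' ∈ C
    · exact hP C h3 h2
    · exact ⟨a, ha, a', ha', h1, h3, h.trans ht⟩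
  unfold v
  congr 1
  ext t
  constructor
  · rintro ⟨h1, h2⟩
    exact ⟨h1, key ha' ha (by rwa [dist_comm]) t h1 h2⟩
  · rintro ⟨h1, h2⟩
    exact ⟨h1, key ha ha' h t h1 h2⟩

omit [NormedSpace ℝ X] in
lemma v_lip {A B : Finset X} {d d' e : ℝ} (g : X → X) (hg : ∀ p ∈ B, g p ∈ A ∧ dist p (g p) ≤ e)
    (hd : d ≤ d' + 2 * e) {a b : X} (ha : a ∈ B) (hb : b ∈ B) :
    v A d (g a) (g b) ≤ v B d' a b + 2 * e := by
  rw [← sub_le_iff_le_add]
  refine le_csInf (set_ne d' ha hb) ?_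
  rintro t ⟨h1, h2⟩
  rw [sub_le_iff_le_add]
  refine csInf_le (set_bdd _ _ _ _) ⟨by linarith, ?_⟩
  intro C h3 h4
  obtain ⟨p, hp, q, hq, h5, h6, h7⟩ := h2 (g ⁻¹' C) h3 h4
  refine ⟨g p, (hg p hp).1, g q, (hg q hq).1, h5, h6, ?_⟩
  have := dist_triangle4 (g p) p q (g q)
  have h8 := (hg p hp).2
  have h9 := (hg q hq).2
  rw [dist_comm] at h8
  linarith

omit [NormedSpace ℝ X] in
lemma P_dist {A : Finset X} {t : ℝ} (ht : 0 < t) {a b : X} (h : P A t a b) :
    dist a b ≤ A.card * t := by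
  classical
  by_contra hc
  push Not at hc
  have : ∀ k : Fin (A.card + 1), ∃ q ∈ A, (k : ℝ) * t < dist a q ∧ dist a q ≤ ((k : ℝ) + 1) * t := by
    intro k
    have hk : ((k : ℕ) : ℝ) ≤ A.card := by exact_mod_cast Nat.lt_succ_iff.1 k.2
    obtain ⟨p, hp, q, hq, h1, h2, h3⟩ := h {p | dist a p ≤ (k : ℝ) * t}
      (by simp only [Set.mem_ofPred_eq, dist_self]; positivity)
      (by simp only [Set.mem_ofPred_eq, not_le]; nlinarith)
    simp only [Set.mem_ofPred_eq, not_le] at h1 h2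
    refine ⟨q, hq, h2, ?_⟩
    have := dist_triangle a p q
    linarith
  choose q hq h1 h2 using this
  have hinj : Function.Injective (fun k => (⟨q k, hq k⟩ : A)) := by
    intro k l hkl
    have e : q k = q l := congrArg Subtype.val hkl
    have a1 := h1 k
    have a2 := h2 k
    have a3 := h1 l
    have a4 := h2 l
    rw [e] at a1 a2
    have b1 : ((k : ℕ) : ℝ) < (l : ℕ) + 1 := by
      by_contra hh; push Not at hh; nlinarith
    have b2 : ((l : ℕ) : ℝ) < (k : ℕ) + 1 := by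
      by_contra hh; push Not at hh; nlinarith
    have c1 : (k : ℕ) < l + 1 := by exact_mod_cast b1
    have c2 : (l : ℕ) < k + 1 := by exact_mod_cast b2
    exact Fin.ext (by omega)
  have := Fintype.card_le_of_injective _ hinj
  simp at this

omit [NormedSpace ℝ X] in
lemma w_dist {A : Finset X} {d : ℝ} (hd : 0 < d) {a b : X} (ha : a ∈ A) (hb : b ∈ A)
    (h : w A d a b ≠ 0) : dist a b ≤ A.card * (2 * d) := by
  have h1 : v A d a b < 2 * d := by
    by_contra hc
    push Not at hc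
    exact h (max_eq_left (by linarith))
  obtain ⟨t, ⟨_, h3⟩, h4⟩ := exists_lt_of_csInf_lt (set_ne d ha hb) h1
  exact P_dist (by linarith) (P_mono h3 h4.le)

omit [NormedSpace ℝ X] in
lemma w_nonneg (A : Finset X) (d : ℝ) (a b : X) : 0 ≤ w A d a b := le_max_left _ _

omit [NormedSpace ℝ X] in
lemma W_ge {A : Finset X} (d : ℝ) {a : X} (ha : a ∈ A) : d ≤ ∑ b ∈ A, w A d a b := by
  have h1 : d ≤ w A d a a := by
    unfold w; rw [v_self d ha]; exact le_max_of_le_right (by linarith)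
  exact h1.trans (Finset.single_le_sum (f := fun b => w A d a b) (fun b _ => w_nonneg A d a b) ha)

lemma avg_near {ι : Type} (A : Finset ι) (u : ι → ℝ) (z z' : ι → X) (D : ℝ)
    (hu : ∀ b, 0 ≤ u b) (hW : 0 < ∑ b ∈ A, u b) (hz : ∀ b ∈ A, u b ≠ 0 → dist (z b) (z' b) ≤ D) :
    dist ((∑ b ∈ A, u b)⁻¹ • ∑ b ∈ A, u b • z b) ((∑ b ∈ A, u b)⁻¹ • ∑ b ∈ A, u b • z' b) ≤ D := by
  rw [dist_eq_norm, ← smul_sub, ← Finset.sum_sub_distrib, norm_smul, Real.norm_eq_abs,
    abs_of_pos (inv_pos.2 hW), inv_mul_le_iff₀ hW, Finset.sum_mul]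
  refine (norm_sum_le _ _).trans (Finset.sum_le_sum fun b hb => ?_)
  rw [← smul_sub, norm_smul, Real.norm_eq_abs, abs_of_nonneg (hu b)]
  by_cases h : u b = 0
  · simp [h]
  · exact mul_le_mul_of_nonneg_left (by rw [← dist_eq_norm]; exact hz b hb h) (hu b)

lemma y_near {A : Finset X} {d : ℝ} (hd : 0 < d) {a : X} (ha : a ∈ A) :
    dist a (y A d a) ≤ A.card * (2 * d) := by
  have hW : 0 < ∑ b ∈ A, w A d a b := hd.trans_le (W_ge d ha)
  have := avg_near A (w A d a) (fun _ => a) (fun b => b) (A.card * (2 * d)) (w_nonneg A d a) hW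
    (fun b hb h => w_dist hd ha hb h)
  rw [← Finset.sum_smul, smul_smul, inv_mul_cancel₀ hW.ne', one_smul] at this
  exact this

lemma avg_weights {ι : Type} (A : Finset ι) (u u' : ι → ℝ) (z : ι → X) (c : X) (d η D : ℝ)
    (hd : 0 < d) (hD : 0 ≤ D) (hu' : ∀ b, 0 ≤ u' b) (hW : d ≤ ∑ b ∈ A, u b)
    (hW' : 0 < ∑ b ∈ A, u' b) (hη : ∀ b ∈ A, |u b - u' b| ≤ η)
    (hz : ∀ b ∈ A, (u b ≠ 0 ∨ u' b ≠ 0) → dist (z b) c ≤ D) :
    dist ((∑ b ∈ A, u b)⁻¹ • ∑ b ∈ A, u b • z b) ((∑ b ∈ A, u' b)⁻¹ • ∑ b ∈ A, u' b • z b)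
      ≤ 2 * A.card * η / d * D := by
  set W := ∑ b ∈ A, u b with hWd
  set W' := ∑ b ∈ A, u' b with hW'd
  have hW0 : 0 < W := hd.trans_le hW
  have e1 : W⁻¹ • ∑ b ∈ A, u b • z b - W'⁻¹ • ∑ b ∈ A, u' b • z b
      = ∑ b ∈ A, (W⁻¹ * u b - W'⁻¹ * u' b) • (z b - c) := by
    have e0 : ∑ b ∈ A, (W⁻¹ * u b - W'⁻¹ * u' b) = 0 := by
      rw [Finset.sum_sub_distrib, ← Finset.mul_sum, ← Finset.mul_sum, ← hWd, ← hW'd,
        inv_mul_cancel₀ hW0.ne', inv_mul_cancel₀ hW'.ne', sub_self]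
    simp only [smul_sub]
    rw [Finset.sum_sub_distrib, ← Finset.sum_smul, e0, zero_smul, sub_zero, Finset.smul_sum,
      Finset.smul_sum, ← Finset.sum_sub_distrib]
    refine Finset.sum_congr rfl fun b _ => ?_
    rw [sub_smul, smul_smul, smul_smul]
  have hWW : |W - W'| ≤ A.card * η := by
    rw [hWd, hW'd, ← Finset.sum_sub_distrib]
    refine (Finset.abs_sum_le_sum_abs _ _).trans ?_
    have := Finset.sum_le_card_nsmul A (fun b => |u b - u' b|) η hη
    simpa using this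
  have hcoef : ∀ b ∈ A, |W⁻¹ * u b - W'⁻¹ * u' b| ≤ η / d + (W'⁻¹ * u' b) * (A.card * η / d) := by
    intro b hb
    have hη0 : 0 ≤ η := (abs_nonneg _).trans (hη b hb)
    have e2 : W⁻¹ * u b - W'⁻¹ * u' b = (u b - u' b) / W + (W'⁻¹ * u' b) * ((W' - W) / W) := by
      field_simp
      ring
    rw [e2]
    refine (abs_add_le _ _).trans (add_le_add ?_ ?_)
    · rw [abs_div, abs_of_pos hW0]
      exact div_le_div₀ hη0 (hη b hb) hd hW
    · have h0 : 0 ≤ W'⁻¹ * u' b := mul_nonneg (inv_pos.2 hW').le (hu' b)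
      rw [abs_mul, abs_of_nonneg h0, abs_div, abs_of_pos hW0, abs_sub_comm]
      exact mul_le_mul_of_nonneg_left (div_le_div₀ (by positivity) hWW hd hW) h0
  rw [dist_eq_norm, e1]
  refine (norm_sum_le _ _).trans ?_
  have h3 : ∀ b ∈ A, ‖(W⁻¹ * u b - W'⁻¹ * u' b) • (z b - c)‖
      ≤ (η / d + (W'⁻¹ * u' b) * (A.card * η / d)) * D := by
    intro b hb
    rw [norm_smul, Real.norm_eq_abs]
    by_cases h : u b ≠ 0 ∨ u' b ≠ 0
    · have h4 := hz b hb h
      rw [dist_eq_norm] at h4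
      exact mul_le_mul (hcoef b hb) h4 (norm_nonneg _) ((abs_nonneg _).trans (hcoef b hb))
    · push Not at h
      have := (abs_nonneg _).trans (hcoef b hb)
      rw [h.1, h.2] at *
      simp only [mul_zero, sub_self, abs_zero, zero_mul, add_zero] at *
      exact mul_nonneg this hD
  refine (Finset.sum_le_sum h3).trans (le_of_eq ?_)
  rw [← Finset.sum_mul, Finset.sum_add_distrib, ← Finset.sum_mul, ← Finset.mul_sum, ← hW'd,
    inv_mul_cancel₀ hW'.ne']
  simp only [Finset.sum_const, nsmul_eq_mul]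
  ring

lemma y_lip {A B : Finset X} {d d' e : ℝ} (f g : X → X) (he : 0 ≤ e) (hd : 2 * e < d)
    (hf : ∀ p ∈ A, f p ∈ B ∧ dist p (f p) ≤ e) (hg : ∀ p ∈ B, g p ∈ A ∧ dist p (g p) ≤ e)
    (hgf : ∀ p ∈ A, g (f p) = p) (hfg : ∀ p ∈ B, f (g p) = p)
    (h1 : d ≤ d' + 2 * e) (h2 : d' ≤ d + 2 * e) {a : X} (ha : a ∈ A) :
    dist (y A d a) (y B d' (f a)) ≤ (1 + 48 * (A.card : ℝ) ^ 2) * e := by
  have hd0 : 0 < d := by linarith
  have hd0' : 0 < d' := by linarith
  have hcard : A.card = B.card :=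
    Finset.card_nbij' f g (fun p hp => (hf p hp).1) (fun p hp => (hg p hp).1) hgf hfg
  have s1 : ∑ b ∈ B, w B d' (f a) b = ∑ b ∈ A, w B d' (f a) (f b) :=
    (Finset.sum_nbij' f g (fun p hp => (hf p hp).1) (fun p hp => (hg p hp).1) hgf hfg
      (fun _ _ => rfl)).symm
  have s2 : ∑ b ∈ B, w B d' (f a) b • b = ∑ b ∈ A, w B d' (f a) (f b) • f b :=
    (Finset.sum_nbij' f g (fun p hp => (hf p hp).1) (fun p hp => (hg p hp).1) hgf hfg
      (fun _ _ => rfl)).symm
  have hW : d ≤ ∑ b ∈ A, w A d a b := W_ge d ha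
  have hW' : 0 < ∑ b ∈ A, w B d' (f a) (f b) := by
    rw [← s1]; exact hd0'.trans_le (W_ge d' (hf a ha).1)
  have hn : (1 : ℝ) ≤ A.card := by exact_mod_cast Finset.card_pos.2 ⟨a, ha⟩
  have t1 := avg_near A (w A d a) (fun b => b) f e (w_nonneg A d a) (hd0.trans_le hW)
    (fun b hb _ => (hf b hb).2)
  have t2 := avg_weights A (w A d a) (fun b => w B d' (f a) (f b)) f (f a) d (6 * e)
    (A.card * (4 * d)) hd0 (by positivity) (fun b => w_nonneg _ _ _ _) hW hW'
    (by
      intro b hb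
      have a1 := v_lip (A := B) (B := A) f hf h2 ha hb
      have a2 := v_lip (A := A) (B := B) g hg h1 (hf a ha).1 (hf b hb).1
      rw [hgf a ha, hgf b hb] at a2
      unfold w
      rw [max_comm 0, max_comm 0]
      refine (abs_max_sub_max_le_abs _ _ _).trans (abs_le.2 ⟨by linarith, by linarith⟩))
    (by
      intro b hb h
      rcases h with h | h
      · have a1 := w_dist hd0 ha hb h
        have a2 := dist_triangle4 (f b) b a (f a)
        have a3 := (hf a ha).2
        have a4 := (hf b hb).2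
        rw [dist_comm] at a4 a1
        nlinarith
      · have a1 := w_dist hd0' (hf a ha).1 (hf b hb).1 h
        rw [dist_comm, ← hcard] at a1
        nlinarith)
  unfold y
  rw [s1, s2]
  refine (dist_triangle _ _ _).trans ((add_le_add t1 t2).trans (le_of_eq ?_))
  field_simp
  ring

open Classical in
noncomputable def r (n : ℕ) (S : Set X) : Set X :=
  if h : S.Finite ∧ S.ncard = n then y h.1.toFinset S.infsep '' S else S

open Classical in
noncomputable def dl (n : ℕ) (S : Set X) : ℝ := if S.ncard = n then S.infsep else 0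

def Cl (S T : Set X) (c : ℝ) : Prop :=
  (∀ a ∈ S, ∃ b ∈ T, dist a b ≤ c) ∧ (∀ b ∈ T, ∃ a ∈ S, dist b a ≤ c)

omit [NormedSpace ℝ X] in
lemma Cl.symm {S T : Set X} {c : ℝ} (h : Cl S T c) : Cl T S c := ⟨h.2, h.1⟩

omit [NormedSpace ℝ X] in
lemma Cl.trans {S T U : Set X} {c c' : ℝ} (h : Cl S T c) (h' : Cl T U c') : Cl S U (c + c') := by
  constructor
  · intro a ha
    obtain ⟨b, hb, h1⟩ := h.1 a ha
    obtain ⟨z, hz, h2⟩ := h'.1 b hb
    exact ⟨z, hz, (dist_triangle a b z).trans (add_le_add h1 h2)⟩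
  · intro a ha
    obtain ⟨b, hb, h1⟩ := h'.2 a ha
    obtain ⟨z, hz, h2⟩ := h.2 b hb
    exact ⟨z, hz, (dist_triangle a b z).trans (by linarith)⟩

omit [NormedSpace ℝ X] in
lemma cl_haus {S T : Set X} (hS : S.Nonempty) (hS' : S.Finite) (hT : T.Nonempty) (hT' : T.Finite) :
    Cl S T (Metric.hausdorffDist S T) := by
  have key : ∀ {S T : Set X}, S.Nonempty → S.Finite → T.Nonempty → T.Finite →
      ∀ a ∈ S, ∃ b ∈ T, dist a b ≤ Metric.hausdorffDist S T := by
    intro S T hS hS' hT hT' a ha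
    obtain ⟨b, hb, h⟩ := hT'.isCompact.exists_infDist_eq_dist hT a
    refine ⟨b, hb, ?_⟩
    rw [← h]
    exact Metric.infDist_le_hausdorffDist_of_mem ha
      (Metric.hausdorffEDist_ne_top_of_nonempty_of_bounded hS hT hS'.isBounded hT'.isBounded)
  refine ⟨key hS hS' hT hT', ?_⟩
  rw [Metric.hausdorffDist_comm]
  exact key hT hT' hS hS'

omit [NormedSpace ℝ X] in
lemma dl_nonneg (n : ℕ) (S : Set X) : 0 ≤ dl n S := by
  unfold dl; split_ifs
  · exact Set.infsep_nonneg
  · exact le_rfl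

lemma cl_r {n : ℕ} (hn : 2 ≤ n) {S : Set X} (hS' : S.Finite) :
    Cl S (r n S) (n * (2 * dl n S)) := by
  unfold r dl
  by_cases h : S.ncard = n
  · rw [dif_pos ⟨hS', h⟩, if_pos h]
    have hnt : S.Nontrivial := (Set.one_lt_ncard_iff_nontrivial_and_finite.1 (by omega)).1
    have hd : 0 < S.infsep := hS'.infsep_pos_iff_nontrivial.2 hnt
    have hc : hS'.toFinset.card = n := by rw [← h, Set.ncard_eq_toFinset_card S hS']
    have key : ∀ a ∈ S, dist a (y hS'.toFinset S.infsep a) ≤ n * (2 * S.infsep) := by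
      intro a ha
      have := y_near (A := hS'.toFinset) hd (a := a) (by simpa using ha)
      rwa [hc] at this
    constructor
    · intro a ha
      exact ⟨_, ⟨a, ha, rfl⟩, key a ha⟩
    · rintro _ ⟨a, ha, rfl⟩
      exact ⟨a, ha, by rw [dist_comm]; exact key a ha⟩
  · rw [dif_neg (fun hh => h hh.2), if_neg h]
    exact ⟨fun a ha => ⟨a, ha, by simp⟩, fun a ha => ⟨a, ha, by simp⟩⟩

omit [NormedSpace ℝ X] in
lemma matching {n : ℕ} {S T : Set X} {e : ℝ} (he : 0 ≤ e) (hT' : T.Finite) (hT : T.ncard ≤ n)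
    (h : Cl S T e) (hd : 2 * e < dl n S) :
    S.ncard = n ∧ T.ncard = n ∧ ∃ f g : X → X, (∀ p ∈ S, f p ∈ T ∧ dist p (f p) ≤ e) ∧
      (∀ p ∈ T, g p ∈ S ∧ dist p (g p) ≤ e) ∧ (∀ p ∈ S, g (f p) = p) ∧ (∀ p ∈ T, f (g p) = p) := by
  have hS : S.ncard = n := by
    by_contra hc
    unfold dl at hd
    rw [if_neg hc] at hd
    linarith
  have hd' : 2 * e < S.infsep := by unfold dl at hd; rwa [if_pos hS] at hd
  have h1 : ∀ p, ∃ q, p ∈ S → q ∈ T ∧ dist p q ≤ e := by
    intro p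
    by_cases hp : p ∈ S
    · obtain ⟨q, hq, h2⟩ := h.1 p hp
      exact ⟨q, fun _ => ⟨hq, h2⟩⟩
    · exact ⟨p, fun hh => absurd hh hp⟩
  choose f hf using h1
  have hinj : Set.InjOn f S := by
    intro a ha b hb hab
    by_contra hne
    have a1 := Set.infsep_le_dist_of_mem ha hb hne
    have a2 := dist_triangle_right a b (f a)
    have a3 := (hf a ha).2
    have a4 := (hf b hb).2
    rw [← hab] at a4
    linarith
  have hsub : f '' S ⊆ T := by rintro _ ⟨a, ha, rfl⟩; exact (hf a ha).1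
  have hc : (f '' S).ncard = n := by rw [hinj.ncard_image, hS]
  have heq : f '' S = T := Set.eq_of_subset_of_ncard_le hsub (by omega) hT'
  have h2 : ∀ p, ∃ q, p ∈ T → q ∈ S ∧ f q = p := by
    intro p
    by_cases hp : p ∈ T
    · rw [← heq] at hp
      obtain ⟨q, hq, h2⟩ := hp
      exact ⟨q, fun _ => ⟨hq, h2⟩⟩
    · exact ⟨p, fun hh => absurd hh hp⟩
  choose g hg using h2
  refine ⟨hS, by rw [← heq, hc], f, g, hf, ?_, ?_, fun p hp => (hg p hp).2⟩
  · intro p hp
    refine ⟨(hg p hp).1, ?_⟩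
    have := (hf _ (hg p hp).1).2
    rwa [(hg p hp).2, dist_comm] at this
  · intro p hp
    have := hg (f p) (hf p hp).1
    exact hinj this.1 hp this.2

omit [NormedSpace ℝ X] in
lemma dl_lip {n : ℕ} (hn : 2 ≤ n) {S T : Set X} {e : ℝ} (he : 0 ≤ e) (hT' : T.Finite)
    (hT : T.ncard ≤ n) (h : Cl S T e) : dl n S ≤ dl n T + 2 * e := by
  by_cases hd : 2 * e < dl n S
  · obtain ⟨h1, h2, f, g, hf, hg, hgf, hfg⟩ := matching he hT' hT h hd
    unfold dl
    rw [if_pos h1, if_pos h2]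
    have hnt : T.Nontrivial := (Set.one_lt_ncard_iff_nontrivial_and_finite.1 (by omega)).1
    obtain ⟨p, hp, q, hq, hne, hpq⟩ := hT'.infsep_exists_of_nontrivial hnt
    have hne' : g p ≠ g q := fun hh => hne (by rw [← hfg p hp, hh, hfg q hq])
    have a1 := Set.infsep_le_dist_of_mem (hg p hp).1 (hg q hq).1 hne'
    have a2 := dist_triangle4 (g p) p q (g q)
    have a3 := (hg p hp).2
    have a4 := (hg q hq).2
    rw [dist_comm] at a3
    linarith
  · have := dl_nonneg n T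
    linarith

end aux


/-- For every real Banach space X and n ≥ 2, some map sends nonempty sets of at most n points to nonempty sets of at most n−1 points, fixes the latter, and is Lipschitz for the Hausdorff distance. -/
theorem result :
    ∀ (X : Type) [NormedAddCommGroup X] [NormedSpace ℝ X] [CompleteSpace X] (n : ℕ), 2 ≤ n →
      ∃ (r : Set X → Set X) (L : ℝ),
        (∀ S : Set X, S.Nonempty → S.Finite → S.ncard ≤ n →
          (r S).Nonempty ∧ (r S).Finite ∧ (r S).ncard ≤ n - 1) ∧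
        (∀ S : Set X, S.Nonempty → S.Finite → S.ncard ≤ n - 1 → r S = S) ∧
        (∀ S T : Set X, S.Nonempty → S.Finite → S.ncard ≤ n →
          T.Nonempty → T.Finite → T.ncard ≤ n →
          Metric.hausdorffDist (r S) (r T) ≤ L * Metric.hausdorffDist S T) := by
  intro X _ _ _ n hn
  refine ⟨r n, 1 + 48 * (n : ℝ) ^ 2, ?_, ?_, ?_⟩
  · intro S hS hS' hc
    unfold r
    by_cases h : S.ncard = n
    · rw [dif_pos ⟨hS', h⟩]
      refine ⟨hS.image _, hS'.image _, ?_⟩
      have hnt : S.Nontrivial := (Set.one_lt_ncard_iff_nontrivial_and_finite.1 (by omega)).1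
      obtain ⟨p, hp, q, hq, hne, hpq⟩ := hS'.infsep_exists_of_nontrivial hnt
      have hy : y hS'.toFinset S.infsep p = y hS'.toFinset S.infsep q := by
        have : ∀ b, w hS'.toFinset S.infsep p b = w hS'.toFinset S.infsep q b := by
          intro b
          unfold w
          rw [v_close (a := p) (a' := q) (by simpa using hp) (by simpa using hq) hpq.ge]
        unfold y
        simp only [this]
      have h1 := Set.ncard_image_le (f := y hS'.toFinset S.infsep) hS'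
      have h2 : (y hS'.toFinset S.infsep '' S).ncard ≠ S.ncard := by
        intro hh
        exact hne (Set.injOn_of_ncard_image_eq hh hS' hp hq hy)
      omega
    · rw [dif_neg (fun hh => h hh.2)]
      exact ⟨hS, hS', by omega⟩
  · intro S _ _ hc
    unfold r
    rw [dif_neg (fun hh => by omega)]
  · intro S T hS hS' hSc hT hT' hTc
    have hcl := cl_haus hS hS' hT hT'
    have he : 0 ≤ Metric.hausdorffDist S T := Metric.hausdorffDist_nonneg
    set e := Metric.hausdorffDist S T with hedef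
    have h1 := dl_lip hn he hT' hTc hcl
    have h2 := dl_lip hn he hS' hSc hcl.symm
    have hn' : (2 : ℝ) ≤ n := by exact_mod_cast hn
    by_cases hd : 2 * e < dl n S
    · obtain ⟨c1, c2, f, g, hf, hg, hgf, hfg⟩ := matching he hT' hTc hcl hd
      unfold dl at h1 h2 hd
      rw [if_pos c1] at h1 h2 hd
      rw [if_pos c2] at h1 h2
      have hc : hS'.toFinset.card = n := by rw [← c1, Set.ncard_eq_toFinset_card S hS']
      have key : ∀ a ∈ S, dist (y hS'.toFinset S.infsep a) (y hT'.toFinset T.infsep (f a))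
          ≤ (1 + 48 * (n : ℝ) ^ 2) * e := by
        intro a ha
        have := y_lip (A := hS'.toFinset) (B := hT'.toFinset) f g he hd (by simpa using hf)
          (by simpa using hg) (by simpa using hgf) (by simpa using hfg) h1 h2 (a := a)
          (by simpa using ha)
        rwa [hc] at this
      unfold r
      rw [dif_pos ⟨hS', c1⟩, dif_pos ⟨hT', c2⟩]
      refine Metric.hausdorffDist_le_of_mem_dist (by positivity) ?_ ?_
      · rintro _ ⟨a, ha, rfl⟩
        exact ⟨_, ⟨f a, (hf a ha).1, rfl⟩, key a ha⟩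
      · rintro _ ⟨b, hb, rfl⟩
        refine ⟨_, ⟨g b, (hg b hb).1, rfl⟩, ?_⟩
        have := key (g b) (hg b hb).1
        rwa [hfg b hb, dist_comm] at this
    · push Not at hd
      have hh := ((cl_r hn hS').symm.trans hcl).trans (cl_r hn hT')
      have b0 := dl_nonneg n S
      have b1 := dl_nonneg n T
      have hb : n * (2 * dl n S) + e + n * (2 * dl n T) ≤ (1 + 48 * (n : ℝ) ^ 2) * e := by
        have c1 : n * (2 * dl n S) ≤ n * (4 * e) :=
          mul_le_mul_of_nonneg_left (by linarith) (by positivity)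
        have c2 : n * (2 * dl n T) ≤ n * (8 * e) :=
          mul_le_mul_of_nonneg_left (by linarith) (by positivity)
        have c3 : (12 * n : ℝ) * e ≤ 48 * (n : ℝ) ^ 2 * e :=
          mul_le_mul_of_nonneg_right (by nlinarith) he
        nlinarith
      exact (Metric.hausdorffDist_le_of_mem_dist (by positivity) hh.1 hh.2).trans hb

end Pool.Agent.S06071
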