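import Pool.Statements.S06082
-- import your own Pool.Agent.* helpers here

set_option autoImplicit false
open scoped ENNReal
open Pool Pool.MP_c5b4b2_an

namespace Pool.Agent.S06082

instance : Fact ((1 : ℝ≥0∞) ≤ 4) := ⟨by norm_num⟩

abbrev X := PiLp 4 (fun _ : Fin 2 => ℂ)

lemma n4 (x : X) : ‖x‖ ^ 4 = ‖x 0‖ ^ 4 + ‖x 1‖ ^ 4 := by
  rw [PiLp.norm_eq_sum (by norm_num), Fin.sum_univ_two]
  have : (4 : ℝ≥0∞).toReal = (4 : ℕ) := by norm_num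
  rw [this, Real.rpow_natCast, Real.rpow_natCast, one_div,
    Real.rpow_inv_natCast_pow (by positivity) (by norm_num)]

lemma re_eq {x : X} {f : X →L[ℂ] ℂ} (hx : ‖x‖ = 1) (hf : ‖f‖ = 1) (h : f x = 1) (y : X) :
    (f y).re = ‖x 0‖ ^ 2 * ((starRingEnd ℂ) (x 0) * y 0).re +
      ‖x 1‖ ^ 2 * ((starRingEnd ℂ) (x 1) * y 1).re := by
  have e := n4 x
  rw [hx] at e
  set a0 := ‖x 0‖ ^ 2
  set a1 := ‖x 1‖ ^ 2
  set b0 := ((starRingEnd ℂ) (x 0) * y 0).re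
  set b1 := ((starRingEnd ℂ) (x 1) * y 1).re
  set c0 := ‖y 0‖ ^ 2
  set c1 := ‖y 1‖ ^ 2
  set r := (f y).re
  let K : ℝ → ℝ := fun t => (2 * b0 + c0 * t) * (2 * a0 + 2 * b0 * t + c0 * t ^ 2) +
    (2 * b1 + c1 * t) * (2 * a1 + 2 * b1 * t + c1 * t ^ 2) - r * (2 + r * t) * (1 + (1 + r * t) ^ 2)
  have sq : ∀ (u v : ℂ) (t : ℝ), ‖u + (t : ℂ) * v‖ ^ 2 =
      ‖u‖ ^ 2 + 2 * ((starRingEnd ℂ) u * v).re * t + ‖v‖ ^ 2 * t ^ 2 := by
    intro u v t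
    simp only [Complex.sq_norm, Complex.normSq_apply]
    simp
    ring
  have pos : ∀ t : ℝ, 0 ≤ t * K t := by
    intro t
    have h1 := f.le_opNorm (x + (t : ℂ) • y)
    rw [hf, one_mul] at h1
    have h2 : |1 + r * t| ≤ ‖x + (t : ℂ) • y‖ := by
      refine le_trans ?_ ((Complex.abs_re_le_norm _).trans h1)
      simp [h, r, mul_comm]
    have h3 := pow_le_pow_left₀ (abs_nonneg _) h2 4
    rw [n4, Even.pow_abs (by decide)] at h3
    have k0 : ‖(x + (t : ℂ) • y) 0‖ ^ 4 = (a0 + 2 * b0 * t + c0 * t ^ 2) ^ 2 := by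
      rw [← sq, ← pow_mul]; rfl
    have k1 : ‖(x + (t : ℂ) • y) 1‖ ^ 4 = (a1 + 2 * b1 * t + c1 * t ^ 2) ^ 2 := by
      rw [← sq, ← pow_mul]; rfl
    have e' : a0 ^ 2 + a1 ^ 2 = 1 := by simp only [a0, a1]; nlinarith
    rw [k0, k1] at h3
    simp only [K]
    nlinarith
  have hd : HasDerivAt (fun t => t * K t) (1 * K 0 + 0 * deriv K 0) 0 :=
    (hasDerivAt_id (0 : ℝ)).mul (by simp only [K]; fun_prop : DifferentiableAt ℝ K 0).hasDerivAt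
  have := IsLocalMin.hasDerivAt_eq_zero (Filter.Eventually.of_forall fun t => by simpa using pos t) hd
  simp only [K] at this
  nlinarith

lemma f_eq {x : X} {f : X →L[ℂ] ℂ} (hx : ‖x‖ = 1) (hf : ‖f‖ = 1) (h : f x = 1) (y : X) :
    f y = (‖x 0‖ ^ 2 : ℝ) * ((starRingEnd ℂ) (x 0) * y 0) +
      (‖x 1‖ ^ 2 : ℝ) * ((starRingEnd ℂ) (x 1) * y 1) := by
  have h1 := re_eq hx hf h y
  have h2 := re_eq hx hf h (Complex.I • y)
  apply Complex.ext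
  · rw [h1, Complex.add_re, Complex.re_ofReal_mul, Complex.re_ofReal_mul]
  · rw [Complex.add_im, Complex.im_ofReal_mul, Complex.im_ofReal_mul]
    simp at h2 ⊢
    linarith

noncomputable def T0 : X →L[ℂ] X := LinearMap.toContinuousLinearMap
  { toFun := fun x => WithLp.toLp 4 ![3 * x 0, 25 * x 0 - x 1]
    map_add' := fun x y => by
      ext i; fin_cases i <;> simp <;> ring
    map_smul' := fun c x => by
      ext i; fin_cases i <;> simp <;> ring }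

lemma bound {x : X} {f : X →L[ℂ] ℂ} (hx : ‖x‖ = 1) (hf : ‖f‖ = 1) (h : f x = 1) :
    ‖f (T0 x)‖ ≤ 115 / 8 := by
  have e := n4 x
  rw [hx] at e
  have k : f (T0 x) = ((3 * ‖x 0‖ ^ 4 - ‖x 1‖ ^ 4 : ℝ) : ℂ) +
      (25 * ‖x 1‖ ^ 2 : ℝ) * ((starRingEnd ℂ) (x 1) * x 0) := by
    rw [f_eq hx hf h]
    have a0 := Complex.conj_mul' (x 0)
    have a1 := Complex.conj_mul' (x 1)
    simp only [T0, LinearMap.coe_toContinuousLinearMap', LinearMap.coe_mk, AddHom.coe_mk,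
      Matrix.cons_val_zero, Matrix.cons_val_one]
    push_cast
    linear_combination (3 * (‖x 0‖ : ℂ) ^ 2) * a0 - (‖x 1‖ : ℂ) ^ 2 * a1
  rw [k]
  refine (norm_add_le _ _).trans ?_
  rw [norm_mul, norm_mul, Complex.norm_real, Complex.norm_real, Complex.norm_conj,
    Real.norm_of_nonneg (by positivity : (0 : ℝ) ≤ 25 * ‖x 1‖ ^ 2), Real.norm_eq_abs]
  generalize ‖x 0‖ = r at *
  generalize ‖x 1‖ = s at *
  rcases abs_cases (3 * r ^ 4 - s ^ 4) with ⟨a, -⟩ | ⟨a, -⟩ <;> rw [a]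
  · nlinarith [sq_nonneg (r ^ 2 - 2 / 3 * s ^ 2), sq_nonneg (r * s - 75 / 91 * s ^ 2), sq_nonneg (s ^ 2)]
  · nlinarith [sq_nonneg (r ^ 2 - 1 / 2 * s ^ 2), sq_nonneg (r * s - 100 / 139 * s ^ 2), sq_nonneg (s ^ 2)]

lemma big : 33368737 ≤ ‖T0‖ ^ 4 * 82 := by
  have h := pow_le_pow_left₀ (norm_nonneg _) (T0.le_opNorm (WithLp.toLp 4 ![3, -1])) 4
  rw [mul_pow, n4, n4] at h
  generalize ‖T0‖ = N at h ⊢
  simp [T0] at h
  norm_num at h
  exact h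

/-- The negation of the preceding statement: For every 1<p<∞, the numerical index of complex 2-dimensional l_p (inf over norm-one operators T of the sup of ∣f(Tx)∣ with ‖x‖=‖f‖=f(x)=1) equals 1/(p^(1/p) q^(1/q)), where q=p/(p-1). -/
theorem result :
    ¬ (∀ (p : ℝ≥0∞) [Fact (1 ≤ p)], 1 < p → p ≠ ⊤ →
      sInf {c : ℝ | ∃ T : PiLp p (fun _ : Fin 2 => ℂ) →L[ℂ] PiLp p (fun _ : Fin 2 => ℂ),
          ‖T‖ = 1 ∧
          c = sSup {s : ℝ | ∃ (x : PiLp p (fun _ : Fin 2 => ℂ))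
                (f : PiLp p (fun _ : Fin 2 => ℂ) →L[ℂ] ℂ),
                ‖x‖ = 1 ∧ ‖f‖ = 1 ∧ f x = 1 ∧ s = ‖f (T x)‖}}
        = 1 / (p.toReal ^ (1 / p.toReal) *
            (p.toReal / (p.toReal - 1)) ^ ((p.toReal - 1) / p.toReal))) := by
  intro h
  have h1 := h 4 (by norm_num) (by norm_num)
  have hb := big
  have p0 : 0 < ‖T0‖ := by
    by_contra hc
    rw [le_antisymm (not_lt.1 hc) (norm_nonneg _)] at hb
    norm_num at hb
  have h2 := h1 ▸ csInf_le (s := {c : ℝ | ∃ T : X →L[ℂ] X, ‖T‖ = 1 ∧ c = sSup {s : ℝ | ∃ (x : X)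
      (f : X →L[ℂ] ℂ), ‖x‖ = 1 ∧ ‖f‖ = 1 ∧ f x = 1 ∧ s = ‖f (T x)‖}})
    ⟨0, by
      rintro _ ⟨T, -, rfl⟩
      exact Real.sSup_nonneg (by rintro _ ⟨x, f, -, -, -, rfl⟩; exact norm_nonneg _)⟩
    ⟨((‖T0‖⁻¹ : ℝ) : ℂ) • T0, by
      rw [norm_smul, Complex.norm_real, norm_inv, norm_norm, inv_mul_cancel₀ p0.ne'], rfl⟩
  have h3 := h2.trans (Real.sSup_le (a := ‖T0‖⁻¹ * (115 / 8)) (by
    rintro _ ⟨x, f, hx, hf, hfx, rfl⟩
    rw [ContinuousLinearMap.smul_apply, map_smul, norm_smul, Complex.norm_real, norm_inv, norm_norm]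
    exact mul_le_mul_of_nonneg_left (bound hx hf hfx) (by positivity)) (by positivity))
  have t4 : (4 : ℝ≥0∞).toReal = 4 := by norm_num
  rw [t4] at h3
  have h4 := pow_le_pow_left₀ (by norm_num; positivity) h3 4
  rw [div_pow, mul_pow, mul_pow, ← Real.rpow_natCast (_ ^ (_ : ℝ)), ← Real.rpow_natCast (_ ^ (_ : ℝ)),
    ← Real.rpow_mul (by norm_num), ← Real.rpow_mul (by norm_num), inv_pow,
    inv_mul_eq_div, le_div_iff₀ (by positivity)] at h4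
  norm_num at h4
  linarith

end Pool.Agent.S06082
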