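import Pool.Statements.S06089
import Pool.Agent.H16.Pop2

set_option autoImplicit false
open Pool Pool.MP_c64be7_an

namespace Pool.Agent.S06089

open Real Filter Topology Pool.Agent.H16.Pop

lemma sadd (x t : ℝ) : sigmoid x * exp t / (1 - sigmoid x + sigmoid x * exp t) = sigmoid (x + t) := by
  simp only [sigmoid, neg_add, exp_add, exp_neg]
  have := exp_pos x
  have := exp_pos t
  rw [div_eq_iff (by
    have : 0 < 1 - (1 + (exp x)⁻¹)⁻¹ := sub_pos.2 (inv_lt_one_of_one_lt₀ (by simp [*]))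
    positivity)]
  field_simp; ring

/-- For integer delay k≥2 and β>0, the equilibrium 1/2 of y' = y e^{β(1−2y_{delayed})}/(1−y+y e^{β(1−2y_{delayed})}) with initial values in (0,1) is globally asymptotically stable iff β ≤ 4cos(kπ/(2k+1)). -/
theorem result :
    ∀ k : ℕ, 2 ≤ k → ∀ β : ℝ, 0 < β →
      (((∀ ε : ℝ, 0 < ε → ∃ δ : ℝ, 0 < δ ∧
          ∀ y : ℕ → ℝ, (∀ i, i ≤ k → 0 < y i ∧ y i < 1) →
            (∀ n : ℕ, y (n + k + 1) =
                y (n + k) * Real.exp (β * (1 - 2 * y n)) /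
                  (1 - y (n + k) + y (n + k) * Real.exp (β * (1 - 2 * y n)))) →
            (∀ i, i ≤ k → |y i - 1 / 2| < δ) →
            ∀ n : ℕ, |y n - 1 / 2| < ε) ∧
        (∀ y : ℕ → ℝ, (∀ i, i ≤ k → 0 < y i ∧ y i < 1) →
            (∀ n : ℕ, y (n + k + 1) =
                y (n + k) * Real.exp (β * (1 - 2 * y n)) /
                  (1 - y (n + k) + y (n + k) * Real.exp (β * (1 - 2 * y n)))) →
            Filter.Tendsto y Filter.atTop (nhds (1 / 2))))
        ↔ β ≤ 4 * Real.cos ((k : ℝ) * Real.pi / (2 * (k : ℝ) + 1))) := by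
  intro k hk β b0
  set s := sin (π / (2 * (2 * k + 1))) with hs
  have e0 : cos (k * π / (2 * k + 1)) = s := by
    rw [hs, ← sin_pi_div_two_sub]; congr 1; field_simp; ring
  have s0 : 0 < s := sin_pos_of_pos_of_lt_pi (by positivity)
    (div_lt_self pi_pos (by linarith [(Nat.cast_nonneg k : (0 : ℝ) ≤ k)]))
  rw [e0]
  let f : ℝ → ℝ := fun x => β * (2 * sigmoid x - 1)
  let f' : ℝ → ℝ := fun x => β * (2 * (sigmoid x * (1 - sigmoid x)))
  have hf : ∀ x, HasDerivAt f (f' x) x := fun x =>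
    (((hasDerivAt_sigmoid x).const_mul 2).sub_const 1).const_mul β
  have fo : ∀ x, f (-x) = -f x := fun x => by simp only [f, sigmoid_neg]; ring
  have f0 : f 0 = 0 := by simp [f]
  have h0 : ∀ x, 0 < f' x := fun x => by
    have := sigmoid_pos x
    have := sub_pos.2 (sigmoid_lt_one x)
    positivity
  have g0 : sigmoid 0 = 1 / 2 := by simp
  have hr : ∀ x w, sigmoid x * exp (β * (1 - 2 * sigmoid w)) /
      (1 - sigmoid x + sigmoid x * exp (β * (1 - 2 * sigmoid w))) = sigmoid (x - f w) :=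
    fun x w => by rw [sadd]; congr 1; simp only [f]; ring
  refine ⟨fun ⟨_, H⟩ => not_lt.1 fun h => ?_, fun h => ?_⟩
  · obtain ⟨z, z0, z1, z2⟩ := peri hs hf fo (fun x => (h0 x).le) (by fun_prop)
      (by simp only [f', g0]; linarith) (B := β) fun x => by
        simp only [f]; nlinarith [sigmoid_lt_one x]
    have A := H (fun n => sigmoid (z n)) (fun i _ => ⟨sigmoid_pos _, sigmoid_lt_one _⟩)
      fun n => by rw [hr, z0]
    have B : ∀ t, z (k + t * (2 * (2 * k + 1))) = z k := fun t => by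
      induction t with
      | zero => simp
      | succ t ih =>
        rw [show k + (t + 1) * (2 * (2 * k + 1)) = k + t * (2 * (2 * k + 1)) + (2 * k + 1) +
          (2 * k + 1) by ring, z2, z2, ih, neg_neg]
    have C := A.comp (tendsto_atTop_mono (f := id) (g := fun t => k + t * (2 * (2 * k + 1)))
      (fun t => by simp only [id]; nlinarith) tendsto_id)
    simp only [Function.comp_def, B, tendsto_const_nhds_iff, ← g0, sigmoid_inj] at C
    linarith
  have h1 : ∀ x ≠ 0, f' x < 2 * s := fun x hx => by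
    have : sigmoid x - 1 / 2 ≠ 0 := by rwa [sub_ne_zero, ← g0, Ne, sigmoid_inj]
    simp only [f']; nlinarith [mul_pos b0 (sq_pos_of_ne_zero this)]
  have h2 : ∀ x, f' x ≤ 2 * s := fun x => by
    simp only [f']; nlinarith [mul_nonneg b0.le (sq_nonneg (sigmoid x - 1 / 2))]
  have ep : ∀ x ≠ 0, 0 < f x * (x - f x / (2 * s)) := fun x hx => by
    obtain ⟨c, hc, e⟩ := mvt hf hx.symm
    rw [f0, sub_zero, sub_zero] at e
    have : 0 < 1 - f' c / (2 * s) := by
      rw [sub_pos, div_lt_one (by positivity)]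
      exact h1 c (by rintro rfl; simp at hc)
    have := mul_pos (mul_pos (h0 c) this) (sq_pos_of_ne_zero hx)
    rw [e]; exact this.trans_eq (by ring)
  have en : ∀ x, 0 ≤ f x * (x - f x / (2 * s)) := fun x => by
    rcases eq_or_ne x 0 with rfl | hx
    · simp [f0]
    · exact (ep x hx).le
  obtain ⟨K, K0, hK⟩ : ∃ K > 0, ∀ z : ℕ → ℝ, (∀ n, z (n + k + 1) = z (n + k) - f (z n)) → ∀ D,
      (∀ i ≤ k, |z i| ≤ D) → (∀ n, |z n| ≤ K * D) ∧
      ∀ T, ∑ n ∈ Finset.range T, f (z n) * (z n - f (z n) / (2 * s)) ≤ K * D ^ 2 := by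
    set q := 1 / (4 * k * s ^ 2) with hq
    have q0 : 0 ≤ q := by positivity
    obtain ⟨L, hL⟩ : ∃ L, L = 1 / 2 + (k + 1) * (2 * (1 + q) * (2 * s)) := ⟨_, rfl⟩
    have L0 : 0 ≤ L := by rw [hL]; positivity
    refine ⟨L + 1, by positivity, fun z hz D hD => ?_⟩
    have A := lyap (by positivity) q0 (Qnn hk hs hq) hf f0 (fun x => (h0 x).le) h2 hz hD
    rw [← hL] at A
    have D0 : 0 ≤ D := (abs_nonneg _).trans (hD 0 (by omega))
    refine ⟨fun n => ?_, fun T => by nlinarith [A T, sq_nonneg (z (T + k)), sq_nonneg D]⟩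
    rcases le_total n k with h | h
    · nlinarith [hD n h]
    · obtain ⟨T, rfl⟩ := Nat.exists_eq_add_of_le' h
      have := Finset.sum_nonneg fun n (_ : n ∈ Finset.range T) => en (z n)
      exact abs_le_of_sq_le_sq (by nlinarith [A T, sq_nonneg (L * D), sq_nonneg D]) (by positivity)
  have lift : ∀ y : ℕ → ℝ, (∀ i, i ≤ k → 0 < y i ∧ y i < 1) → (∀ n : ℕ, y (n + k + 1) =
      y (n + k) * exp (β * (1 - 2 * y n)) / (1 - y (n + k) + y (n + k) * exp (β * (1 - 2 * y n)))) →
      ∃ z : ℕ → ℝ, (∀ n, z (n + k + 1) = z (n + k) - f (z n)) ∧ y = fun n => sigmoid (z n) := by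
    intro y a b
    have : ∀ n, ∃ z, sigmoid z = y n := fun n => by
      induction n using Nat.strong_induction_on with
      | _ n ih =>
      rcases le_or_gt n k with h | h
      · exact range_sigmoid.ge (a n h)
      · obtain ⟨m, rfl⟩ := Nat.exists_eq_add_of_lt h
        obtain ⟨x, hx⟩ := ih (m + k) (by omega)
        obtain ⟨w, hw⟩ := ih m (by omega)
        rw [add_comm k m, b, ← hx, ← hw, hr]; exact ⟨_, rfl⟩
    choose z hz using this
    exact ⟨z, fun n => sigmoid_injective (by rw [← hr, hz, hz, hz, b]), (funext hz).symm⟩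
  refine ⟨fun ε e0 => ?_, fun y a b => ?_⟩
  · obtain ⟨η, η0, hη⟩ := Metric.continuousAt_iff.1 (continuous_sigmoid.continuousAt (x := 0)) ε e0
    refine ⟨sigmoid (η / 2 / K) - 1 / 2, by rw [sub_pos, ← g0, sigmoid_lt_iff]; positivity,
      fun y a b c n => ?_⟩
    obtain ⟨z, hz, rfl⟩ := lift y a b
    have := (hK z hz (η / 2 / K) fun i hi => by
      have := abs_lt.1 (c i hi)
      refine abs_le.2 ⟨sigmoid_le_iff.1 ?_, sigmoid_le_iff.1 ?_⟩
      · rw [sigmoid_neg]; linarith [this.1]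
      · linarith [this.2]).1 n
    rw [mul_div_cancel₀ _ K0.ne'] at this
    rw [← g0]
    exact hη (by rw [Real.dist_eq, sub_zero]; linarith)
  · obtain ⟨z, hz, rfl⟩ := lift y a b
    obtain ⟨A, B⟩ := hK z hz (∑ i ∈ Finset.range (k + 1), |z i|) fun i hi =>
      Finset.single_le_sum (f := fun i => |z i|) (fun _ _ => abs_nonneg _) (by simpa [Nat.lt_succ_iff])
    have C := (summable_of_sum_range_le (fun n => en (z n)) B).tendsto_atTop_zero
    rw [← g0]
    refine (continuous_sigmoid.tendsto 0).comp (isCompact_Icc.tendsto_nhds_of_unique_mapClusterPt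
      (.of_forall fun n => abs_le.1 (A n)) fun x _ hx => by_contra fun h => (ep x h).ne' ?_)
    have : Continuous fun x => f x * (x - f x / (2 * s)) := by fun_prop
    exact eq_of_nhds_neBot ((hx.continuousAt_comp this.continuousAt).clusterPt.mono C)

end Pool.Agent.S06089
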