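import Pool.Statements.S06121
-- import your own Pool.Agent.* helpers here

set_option autoImplicit false
open Pool Pool.MP_c8dc36_an

namespace Pool.Agent.S06121

open Filter Topology

lemma dle {F : ℝ → ℝ} {F' ε : ℝ} (h : HasDerivAt F F' 0) (h0 : F 0 = 0) (e : 0 < ε)
    (h1 : ∀ t, 0 < t → t < ε → F t ≤ 0) : F' ≤ 0 := by
  refine le_of_tendsto h.tendsto_slope_zero_right ?_
  filter_upwards [Ioo_mem_nhdsGT e] with t ht
  simp only [zero_add, h0, sub_zero, smul_eq_mul]
  exact mul_nonpos_of_nonneg_of_nonpos (inv_nonneg.2 ht.1.le) (h1 t ht.1 ht.2)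

lemma core {E : Type} [NormedAddCommGroup E] [NormedSpace ℝ E] (C : Set E)
    (ca : ∀ x ∈ C, ∀ y ∈ C, x + y ∈ C) (cs : ∀ t : ℝ, 0 ≤ t → ∀ x ∈ C, t • x ∈ C)
    (a b x d : E) (ha : a ∈ C) (hb : b ∈ C) (hx : x ∈ C) (hd : d ∈ C)
    (H1 : ∀ c ∈ C, 2 * ‖c + x‖ ≤ ‖c + a‖ + ‖c + b‖)
    (H2 : ∀ c ∈ C, c - x ∈ C → 2 * ‖c - x‖ ≤ ‖c - a‖ + ‖c - b‖) :
    ‖x + d‖ = ‖(1 / 2 : ℝ) • (a + b) + d‖ := by
  let M : (ℝ × ℝ × ℝ) →L[ℝ] E := (ContinuousLinearMap.fst ℝ _ _).smulRight a +
    ((ContinuousLinearMap.fst ℝ _ _).comp (ContinuousLinearMap.snd ℝ _ _)).smulRight b +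
    ((ContinuousLinearMap.snd ℝ _ _).comp (ContinuousLinearMap.snd ℝ _ _)).smulRight x
  have hM : ∀ u, M u = u.1 • a + u.2.1 • b + u.2.2 • x := fun u => rfl
  let p : ℝ × ℝ × ℝ → ℝ := fun u => ‖d + M u‖
  have hp : LipschitzWith (1 * (1 * ‖M‖₊)) p :=
    lipschitzWith_one_norm.comp ((isometry_add_left d).lipschitz.comp M.lipschitz)
  have hc := hp.continuous
  have key : ∀ s : ℝ, ∀ u : ℝ × ℝ × ℝ, 0 < u.1 → 0 < u.2.1 → 0 < u.2.2 → DifferentiableAt ℝ p u →
      p u ≤ p (u + s • (-1 / 2, -1 / 2, 1)) := by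
    intro s u u1 u2 u3 hu
    have hD : ∀ v, HasDerivAt (fun t : ℝ => ‖d + M u + t • M v‖) (fderiv ℝ p u v) 0 := fun v => by
      have := hu.hasFDerivAt.hasLineDerivAt v
      simpa [HasLineDerivAt, p, add_assoc] using this
    have m0 : ∀ r : ℝ, 0 ≤ r → d + (u.1 • a + u.2.1 • b + r • x) ∈ C := fun r hr =>
      ca _ hd _ (ca _ (ca _ (cs _ u1.le _ ha) _ (cs _ u2.le _ hb)) _ (cs _ hr _ hx))
    have m1 : d + M u ∈ C := m0 _ u3.le
    set c := d + M u with hc
    have sc : ∀ t : ℝ, 0 < t → ∀ z : E, ‖c + t • z‖ = t * ‖t⁻¹ • c + z‖ := fun t ht z => by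
      rw [← norm_smul_of_nonneg ht.le, smul_add, smul_inv_smul₀ ht.ne']
    have a1 := dle ((((hD (0, 0, 1)).const_mul 2).sub (hD (1, 0, 0))).sub (hD (0, 1, 0)))
      (by simp; ring) one_pos fun t ht _ => by
        have := H1 _ (cs _ (inv_nonneg.2 ht.le) _ m1)
        simp only [Pi.sub_apply, hM, sc t ht, zero_smul, one_smul, zero_add, add_zero]
        nlinarith
    have a2 := dle ((((hD (-(0, 0, 1))).const_mul 2).sub (hD (-(1, 0, 0)))).sub (hD (-(0, 1, 0))))
      (by simp; ring) u3 fun t ht h2 => by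
        have := H2 _ (cs _ (inv_nonneg.2 ht.le) _ m1) (by
          convert cs _ (inv_nonneg.2 ht.le) _ (m0 (u.2.2 - t) (by linarith)) using 1
          rw [hc, hM]; match_scalars <;> field_simp)
        simp only [Pi.sub_apply, map_neg]
        simp only [hM, sc t ht, zero_smul, one_smul, zero_add, add_zero, ← sub_eq_add_neg]
        nlinarith
    have a3 : fderiv ℝ p u (s • (-1 / 2, -1 / 2, 1)) = 0 := by
      simp only [map_neg] at a2
      rw [show ((-1 / 2, -1 / 2, 1) : ℝ × ℝ × ℝ) = (0, 0, 1) - (1 / 2 : ℝ) • (1, 0, 0) -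
        (1 / 2 : ℝ) • (0, 1, 0) by ext <;> norm_num]
      simp only [map_smul, map_sub, smul_eq_mul]
      rw [mul_eq_zero]; right; linarith
    set w : ℝ × ℝ × ℝ := s • (-1 / 2, -1 / 2, 1)
    have a4 := dle (((hD w).sub_const ‖c‖).sub ((hasDerivAt_id (0 : ℝ)).mul_const (‖c + M w‖ - ‖c‖)))
      (by simp) one_pos fun t t0 t1 => by
        have := norm_add_le ((1 - t) • c) (t • (c + M w))
        rw [norm_smul_of_nonneg (by linarith), norm_smul_of_nonneg t0.le,
          show (1 - t) • c + t • (c + M w) = c + t • M w by module] at this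
        simp only [Pi.sub_apply, id]; linarith
    simp only [p, map_add, ← add_assoc, ← hc]
    linarith
  have key2 : ∀ s : ℝ, ∀ u : ℝ × ℝ × ℝ, 0 ≤ u.1 → 0 ≤ u.2.1 → 0 ≤ u.2.2 →
      p u ≤ p (u + s • (-1 / 2, -1 / 2, 1)) := by
    intro s u u1 u2 u3
    have hd := MeasureTheory.Measure.dense_of_ae (hp.ae_differentiableAt (μ := MeasureTheory.Measure.addHaar))
    have o : IsOpen ((Set.Ioi (0 : ℝ)) ×ˢ (Set.Ioi (0 : ℝ)) ×ˢ (Set.Ioi (0 : ℝ))) :=
      isOpen_Ioi.prod (isOpen_Ioi.prod isOpen_Ioi)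
    have h1 := closure_minimal (hd.open_subset_closure_inter o) isClosed_closure
      (show u ∈ closure (Set.Ioi 0 ×ˢ Set.Ioi 0 ×ˢ Set.Ioi 0) by
        rw [closure_prod_eq, closure_prod_eq, closure_Ioi]; exact ⟨u1, u2, u3⟩)
    exact closure_minimal (fun v hv => key s v hv.1.1 hv.1.2.1 hv.1.2.2 hv.2)
      (isClosed_le hc (hc.comp (continuous_add_const _))) h1
  have k1 := key2 (-1) (0, 0, 1) le_rfl le_rfl zero_le_one
  have k2 := key2 1 (1 / 2, 1 / 2, 0) (by norm_num) (by norm_num) le_rfl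
  simp only [p, hM] at k1 k2
  norm_num at k1 k2
  rw [add_comm x, add_comm _ d, smul_add]
  exact le_antisymm k1 k2

variable {A : Type} [NonUnitalCStarAlgebra A] [PartialOrder A] [StarOrderedRing A]

lemma low (r : A) (hr : 0 ≤ r) (l : ℝ) : ‖r‖ ^ 3 + l * ‖r‖ ^ 2 ≤ ‖r * r * r + l • (r * r)‖ := by
  have h := Unitization.inr_nonneg_iff.2 hr
  have := norm_apply_le_norm_cfc (fun t : ℝ => t ^ 3 + l * t ^ 2) (r : Unitization ℂ A)
    (CStarAlgebra.norm_mem_spectrum_of_nonneg h)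
  rw [cfc_add _ _ _, cfc_const_mul _ _ _, cfc_pow_id _ _, cfc_pow_id _ _, Unitization.norm_inr] at this
  rw [← Unitization.norm_inr (𝕜 := ℂ) (_ + _)]
  refine (le_abs_self _).trans (this.trans (le_of_eq ?_))
  simp [pow_succ]

lemma bstar (x y : A) (hx : 0 ≤ x) (hy : 0 ≤ y) (s : ℝ) (hs : 0 ≤ s)
    (h : ∀ d, 0 ≤ d → ‖x + d‖ ≤ ‖y + d‖ + s) : ‖(x - y)⁺‖ ≤ s := by
  have U := CStarAlgebra.increasingApproximateUnit A
  have := U.neBot
  set r := (x - y)⁺ with hr
  have r0 : 0 ≤ r := CFC.posPart_nonneg _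
  have e1 : r * (x - y) = r * r := by
    nth_rw 1 [← CFC.posPart_sub_negPart (x - y) (hx.isSelfAdjoint.sub hy.isSelfAdjoint)]
    rw [mul_sub, CFC.posPart_mul_negPart, sub_zero]
  have t1 : Tendsto (fun e => ‖r * x * r + ‖y‖ • (r * e * (e * r)) - r * e * y * (e * r)‖)
      (CStarAlgebra.approximateUnit A) (𝓝 ‖r * x * r + ‖y‖ • (r * r) - r * y * r‖) :=
    ((tendsto_const_nhds.add (((U.tendsto_mul_left r).mul (U.tendsto_mul_right r)).const_smul _)).sub
      (((U.tendsto_mul_left r).mul_const y).mul (U.tendsto_mul_right r))).norm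
  have t2 : Tendsto (fun e => ‖r‖ * (‖y - y * e‖ + ‖y - e * y‖ + ‖y‖ + s) * ‖r‖)
      (CStarAlgebra.approximateUnit A) (𝓝 (‖r‖ * (‖y - y‖ + ‖y - y‖ + ‖y‖ + s) * ‖r‖)) :=
    ((((((U.tendsto_mul_left y).const_sub y).norm.add ((U.tendsto_mul_right y).const_sub y).norm).add_const
      _).add_const _).const_mul _).mul_const _
  have t3 := le_of_tendsto_of_tendsto t1 t2 (by
    filter_upwards [U.eventually_nonneg, U.eventually_norm] with e e0 e1
    have d0 := CStarAlgebra.star_left_conjugate_le_norm_smul (a := e) hy.isSelfAdjoint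
    rw [e0.isSelfAdjoint.star_eq] at d0
    have d1 := h _ (sub_nonneg.2 d0)
    have d2 : ‖y + (‖y‖ • (e * e) - e * y * e)‖ ≤ ‖y - y * e‖ + ‖y - e * y‖ + ‖y‖ := by
      rw [show y + (‖y‖ • (e * e) - e * y * e) = (y - y * e) + (y - e * y) * e + ‖y‖ • (e * e) by
        noncomm_ring]
      refine norm_add₃_le.trans (add_le_add_three le_rfl ((norm_mul_le _ _).trans
        (mul_le_of_le_one_right (norm_nonneg _) e1)) ?_)
      rw [norm_smul, norm_norm]
      exact mul_le_of_le_one_right (norm_nonneg _) ((norm_mul_le _ _).trans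
        (mul_le_one₀ e1 (norm_nonneg _) e1))
    rw [show r * x * r + ‖y‖ • (r * e * (e * r)) - r * e * y * (e * r) =
      r * (x + (‖y‖ • (e * e) - e * y * e)) * r by
        simp only [mul_add, add_mul, mul_sub, sub_mul, mul_smul_comm, smul_mul_assoc, mul_assoc]; abel]
    refine (norm_mul_le _ _).trans ?_
    gcongr
    refine (norm_mul_le _ _).trans ?_
    gcongr
    linarith)
  rw [show r * x * r + ‖y‖ • (r * r) - r * y * r = r * r * r + ‖y‖ • (r * r) by
    rw [show r * r * r = r * (x - y) * r by rw [e1], mul_sub, sub_mul]; abel] at t3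
  have := (low r r0 ‖y‖).trans t3
  rcases (norm_nonneg r).eq_or_lt with e | e
  · rwa [← e]
  · simp only [sub_self, norm_zero, zero_add] at this
    by_contra hh
    nlinarith [mul_pos (mul_pos e e) (sub_pos.2 (not_le.1 hh))]

lemma ble (x y : A) (hx : 0 ≤ x) (hy : 0 ≤ y) (h : ∀ d, 0 ≤ d → ‖x + d‖ ≤ ‖y + d‖) : x ≤ y :=
  sub_nonpos.1 ((CFC.posPart_eq_zero_iff _ (hx.isSelfAdjoint.sub hy.isSelfAdjoint)).1
    (norm_le_zero_iff.1 (bstar x y hx hy 0 le_rfl (by simpa using h))))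


/-- For any two C*-algebras, a map from the positive cone of the first onto the positive cone of the second with ‖T f + T g‖ = ‖T(f+g)‖ for all positive f, g must satisfy T(f+g) = T f + T g on positive elements. -/
theorem result :
    ∀ (A₁ A₂ : Type) [NonUnitalCStarAlgebra A₁] [PartialOrder A₁] [StarOrderedRing A₁]
      [NonUnitalCStarAlgebra A₂] [PartialOrder A₂] [StarOrderedRing A₂] (T : A₁ → A₂),
      (∀ a : A₁, 0 ≤ a → 0 ≤ T a) →
      (∀ b : A₂, 0 ≤ b → ∃ a : A₁, 0 ≤ a ∧ T a = b) →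
      (∀ f g : A₁, 0 ≤ f → 0 ≤ g → ‖T f + T g‖ = ‖T (f + g)‖) →
      ∀ f g : A₁, 0 ≤ f → 0 ≤ g → T (f + g) = T f + T g := by
  intro A B _ _ _ _ _ _ T T0 Ts Tn
  have n2 : ∀ f, 0 ≤ f → ‖T (f + f)‖ = 2 * ‖T f‖ := fun f hf => by
    rw [← Tn f f hf hf, ← two_smul ℝ, norm_smul]; simp
  have z : T 0 = 0 := by
    have := n2 0 le_rfl
    rw [add_zero] at this
    exact norm_eq_zero.1 (by linarith)
  have mid : ∀ f g m, 0 ≤ f → 0 ≤ g → 0 ≤ m → f + g = m + m → T m = (1 / 2 : ℝ) • (T f + T g) := by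
    intro f g m hf hg hm e
    have hy : 0 ≤ (1 / 2 : ℝ) • (T f + T g) := smul_nonneg (by norm_num) (add_nonneg (T0 f hf) (T0 g hg))
    have : ∀ d, 0 ≤ d → ‖T m + d‖ = ‖(1 / 2 : ℝ) • (T f + T g) + d‖ := fun d hd =>
      core {x | 0 ≤ x} (fun _ a _ b => add_nonneg a b) (fun _ a _ b => smul_nonneg a b) _ _ _ d
        (T0 f hf) (T0 g hg) (T0 m hm) hd (fun c hc => by
          obtain ⟨h, hh, rfl⟩ := Ts c hc
          rw [Tn h m hh hm, Tn h f hh hf, Tn h g hh hg, ← n2 _ (add_nonneg hh hm),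
            show h + m + (h + m) = h + f + (h + g) by
              rw [add_add_add_comm, ← e]; abel, ← Tn _ _ (add_nonneg hh hf) (add_nonneg hh hg)]
          exact norm_add_le _ _) fun c hc hcx => by
          obtain ⟨h, hh, rfl⟩ := Ts c hc
          have := bstar (T h) (T m) hc (T0 m hm) ((‖T h - T f‖ + ‖T h - T g‖) / 2) (by positivity)
            fun d hd => by
              obtain ⟨k, hk, rfl⟩ := Ts d hd
              have s : ∀ f k, 0 ≤ f → 0 ≤ k → ‖T (h + k)‖ ≤ ‖T (f + k)‖ + ‖T h - T f‖ :=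
                fun f k hf hk => by
                  rw [← Tn h k hh hk, ← Tn f k hf hk,
                    show T h + T k = T f + T k + (T h - T f) by abel]
                  exact norm_add_le _ _
              have s1 := s f (h + (k + k)) hf (by positivity)
              have s2 := s g (f + (k + k)) hg (by positivity)
              rw [show h + (h + (k + k)) = h + k + (h + k) by abel, n2 _ (by positivity),
                show f + (h + (k + k)) = h + (f + (k + k)) by abel] at s1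
              rw [show g + (f + (k + k)) = m + k + (m + k) by
                rw [add_add_add_comm m, ← e]; abel, n2 _ (by positivity)] at s2
              rw [Tn h k hh hk, Tn m k hm hk]; linarith
          rw [(CFC.posPart_eq_self _).2 hcx] at this
          linarith
    exact le_antisymm (ble _ _ (T0 m hm) hy fun d hd => (this d hd).le)
      (ble _ _ hy (T0 m hm) fun d hd => (this d hd).ge)
  intro f g hf hg
  have hm : 0 ≤ (1 / 2 : ℝ) • (f + g) := smul_nonneg (by norm_num) (add_nonneg hf hg)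
  have e : f + g = (1 / 2 : ℝ) • (f + g) + (1 / 2 : ℝ) • (f + g) := by module
  have h1 := mid f g _ hf hg hm e
  have h2 := mid (f + g) 0 _ (add_nonneg hf hg) le_rfl hm (by rw [add_zero]; exact e)
  rw [h1, z, add_zero] at h2
  exact (smul_right_injective B (by norm_num) h2).symm

end Pool.Agent.S06121
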