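import Pool.Statements.S06128

set_option autoImplicit false
open Pool Pool.MP_c979e5_an

namespace Pool.Agent.S06128

noncomputable def aa : ℂ := ⟨179 / 200, 1 / 60⟩

noncomputable def F (z w : ℂ) : ℂ := 1 + aa * (z + w) + 7 / 25 * (z ^ 2 + z * w + w ^ 2)

lemma quartic (u : ℝ) (h1 : -7 / 25 ≤ u) (h2 : u ≤ 21 / 25) :
    (u * 25 / 7 + 1) * ((179 / 200) ^ 2 * (1 - u) ^ 2 + (1 / 60) ^ 2 * (1 + u) ^ 2)
      < (1 - u ^ 2) ^ 2 := by
  have h3 : 0 ≤ (u + 7 / 25) * (21 / 25 - u) := mul_nonneg (by linarith) (by linarith)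
  nlinarith [sq_nonneg (u - 445 / 1000), sq_nonneg ((u - 445 / 1000) * (u - 1)),
    mul_nonneg h3 (sq_nonneg (u - 445 / 1000)), mul_nonneg h3 (sq_nonneg (u - 1)),
    mul_nonneg (sub_nonneg.2 h2) (sq_nonneg (u - 445 / 1000)), sq_nonneg (u - 21 / 25),
    mul_nonneg (sub_nonneg.2 h2) (sq_nonneg (u - 1))]

lemma core (x y c d : ℝ) (o : x * c + y * d = 0) (n3 : x ^ 2 + y ^ 2 + (c ^ 2 + d ^ 2) ≤ 1)
    (r1 : 1 + 2 * (179 / 200 * x - 1 / 60 * y) +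
      7 / 25 * (3 * (x ^ 2 - y ^ 2) + (c ^ 2 - d ^ 2)) = 0)
    (r2 : 2 * (179 / 200 * y + 1 / 60 * x) + 7 / 25 * (6 * x * y + 2 * c * d) = 0) : False := by
  obtain ⟨ρ, hρ⟩ : ∃ ρ, ρ = x ^ 2 + y ^ 2 := ⟨_, rfl⟩
  obtain ⟨σ, hσ⟩ : ∃ σ, σ = c ^ 2 + d ^ 2 := ⟨_, rfl⟩
  obtain ⟨u, hu⟩ : ∃ u, u = 7 / 25 * (3 * ρ - σ) := ⟨_, rfl⟩
  have n4 : ρ + σ ≤ 1 := by rw [hρ, hσ]; exact n3
  have s1 : x * (1 + u) = -2 * (179 / 200) * ρ := by
    rw [hu, hρ, hσ]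
    linear_combination x * r1 + y * r2 - 7 / 25 * 2 * c * o
  have s2 : y * (1 - u) = 2 * (1 / 60) * ρ := by
    rw [hu, hρ, hσ]
    linear_combination y * r1 - x * r2 + 7 / 25 * 2 * d * o
  have hρ0 : 0 ≤ ρ := by rw [hρ]; positivity
  have hσ0 : 0 ≤ σ := by rw [hσ]; positivity
  rcases hρ0.eq_or_lt with h0 | h0
  · have hx0 : x = 0 := by
      have : x ^ 2 = 0 := by linarith [sq_nonneg x, sq_nonneg y]
      exact pow_eq_zero_iff two_ne_zero |>.1 this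
    have hy0 : y = 0 := by
      have : y ^ 2 = 0 := by linarith [sq_nonneg x, sq_nonneg y]
      exact pow_eq_zero_iff two_ne_zero |>.1 this
    rw [hx0, hy0] at r1 n3
    linarith [sq_nonneg c, sq_nonneg d]
  · have q := quartic u (by rw [hu]; linarith) (by rw [hu]; linarith)
    have t : ρ * (1 - u ^ 2) ^ 2 =
        ρ * (4 * ρ * ((179 / 200) ^ 2 * (1 - u) ^ 2 + (1 / 60) ^ 2 * (1 + u) ^ 2)) := by
      have a1 : (x * (1 + u)) ^ 2 = (-2 * (179 / 200) * ρ) ^ 2 := by rw [s1]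
      have a2 : (y * (1 - u)) ^ 2 = (2 * (1 / 60) * ρ) ^ 2 := by rw [s2]
      have a3 : ρ * (1 - u ^ 2) ^ 2 = (x ^ 2 + y ^ 2) * (1 - u ^ 2) ^ 2 := by rw [hρ]
      rw [a3]
      linear_combination (1 - u) ^ 2 * a1 + (1 + u) ^ 2 * a2
    have t2 := mul_left_cancel₀ h0.ne' t
    have t3 : 4 * ρ ≤ u * 25 / 7 + 1 := by rw [hu]; linarith
    have t4 : 0 ≤ (179 / 200 : ℝ) ^ 2 * (1 - u) ^ 2 + (1 / 60) ^ 2 * (1 + u) ^ 2 := by positivity
    linarith [mul_le_mul_of_nonneg_right t3 t4]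

lemma eq_case (z w : ℂ) (hz : ‖z‖ ≤ 1) (hzw : ‖z‖ = ‖w‖) : F z w ≠ 0 := by
  intro h
  have hre := congrArg Complex.re h
  have him := congrArg Complex.im h
  have n1 : z.re ^ 2 + z.im ^ 2 ≤ 1 := by
    have : ‖z‖ ^ 2 ≤ 1 := by nlinarith [norm_nonneg z]
    rw [Complex.sq_norm, Complex.normSq_apply] at this
    nlinarith
  have n2 : z.re ^ 2 + z.im ^ 2 = w.re ^ 2 + w.im ^ 2 := by
    have : ‖z‖ ^ 2 = ‖w‖ ^ 2 := by rw [hzw]
    rw [Complex.sq_norm, Complex.sq_norm, Complex.normSq_apply, Complex.normSq_apply] at this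
    nlinarith
  simp [F, aa, pow_two] at hre him
  obtain ⟨x, hx⟩ : ∃ x, x = (z.re + w.re) / 2 := ⟨_, rfl⟩
  obtain ⟨y, hy⟩ : ∃ y, y = (z.im + w.im) / 2 := ⟨_, rfl⟩
  obtain ⟨c, hc⟩ : ∃ c, c = (z.re - w.re) / 2 := ⟨_, rfl⟩
  obtain ⟨d, hd⟩ : ∃ d, d = (z.im - w.im) / 2 := ⟨_, rfl⟩
  have e1 : z.re = x + c := by linarith
  have e2 : w.re = x - c := by linarith
  have e3 : z.im = y + d := by linarith
  have e4 : w.im = y - d := by linarith
  rw [e1, e2, e3, e4] at hre him n2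
  rw [e1, e3] at n1
  have o : x * c + y * d = 0 := by nlinarith
  have n3 : x ^ 2 + y ^ 2 + (c ^ 2 + d ^ 2) ≤ 1 := by nlinarith
  have r1 : 1 + 2 * (179 / 200 * x - 1 / 60 * y) + 7 / 25 * (3 * (x ^ 2 - y ^ 2) + (c ^ 2 - d ^ 2)) = 0 := by
    nlinarith
  have r2 : 2 * (179 / 200 * y + 1 / 60 * x) + 7 / 25 * (6 * x * y + 2 * c * d) = 0 := by
    nlinarith
  exact core x y c d o n3 r1 r2

lemma F_symm (z w : ℂ) : F z w = F w z := by unfold F; ring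

lemma F_cont : Continuous fun p : ℂ × ℂ => F p.1 p.2 := by unfold F; fun_prop

lemma near_root (z w : ℂ) : ∃ w', F z w' = 0 ∧ 7 / 25 * ‖w - w'‖ ^ 2 ≤ ‖F z w‖ := by
  obtain ⟨s, hs⟩ := IsAlgClosed.exists_pow_nat_eq
    ((aa * 25 / 7 + z) ^ 2 - 4 * (25 / 7 * (1 + aa * z) + z ^ 2)) (by norm_num : 0 < 2)
  have key : ∀ v, F z v = 7 / 25 * ((v - (-(aa * 25 / 7 + z) + s) / 2) *
      (v - (-(aa * 25 / 7 + z) - s) / 2)) := by
    intro v
    unfold F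
    linear_combination (7 / 100 : ℂ) * hs
  have hn : ‖(7 / 25 : ℂ)‖ = 7 / 25 := by simp
  rcases le_total ‖w - (-(aa * 25 / 7 + z) + s) / 2‖ ‖w - (-(aa * 25 / 7 + z) - s) / 2‖ with h | h
  · refine ⟨(-(aa * 25 / 7 + z) + s) / 2, by rw [key]; simp, ?_⟩
    rw [key, norm_mul, norm_mul, hn, pow_two]
    gcongr
  · refine ⟨(-(aa * 25 / 7 + z) - s) / 2, by rw [key]; simp, ?_⟩
    rw [key, norm_mul, norm_mul, hn, pow_two]
    gcongr

lemma lt_case (z w : ℂ) (h : F z w = 0) (hlt : ‖w‖ < ‖z‖) :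
    ∃ z' w', F z' w' = 0 ∧ ‖z'‖ < ‖z‖ ∧ ‖w'‖ < ‖z‖ := by
  have hc : ContinuousAt (fun t : ℝ => ‖F ((t : ℂ) * z) w‖) 1 := by
    unfold F; fun_prop
  have hpos : 0 < 7 / 25 * (‖z‖ - ‖w‖) ^ 2 := by
    have : 0 < ‖z‖ - ‖w‖ := by linarith
    positivity
  have h1 : ∀ᶠ t : ℝ in nhds 1, ‖F ((t : ℂ) * z) w‖ < 7 / 25 * (‖z‖ - ‖w‖) ^ 2 := by
    apply hc.eventually_lt continuousAt_const
    simpa [h] using hpos
  have h2 : ∀ᶠ t : ℝ in nhds 1, 0 < t := lt_mem_nhds one_pos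
  obtain ⟨t, ⟨ht1, ht2⟩, ht3⟩ :=
    (((h1.and h2).filter_mono nhdsWithin_le_nhds).and
      (self_mem_nhdsWithin : Set.Iio (1 : ℝ) ∈ nhdsWithin 1 (Set.Iio 1))).exists
  obtain ⟨w', hw1, hw2⟩ := near_root (t * z) w
  have hz : 0 < ‖z‖ := lt_of_le_of_lt (norm_nonneg _) hlt
  refine ⟨_, w', hw1, ?_, ?_⟩
  · rw [norm_mul, Complex.norm_real, Real.norm_of_nonneg ht2.le]
    have : t < 1 := ht3
    nlinarith
  · have h3 : ‖w - w'‖ ^ 2 < (‖z‖ - ‖w‖) ^ 2 := by linarith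
    have h4 := lt_of_pow_lt_pow_left₀ 2 (by linarith) h3
    have h5 : ‖w'‖ ≤ ‖w‖ + ‖w - w'‖ := by
      have := norm_sub_le w (w - w')
      simpa using this
    linarith

lemma F_ne (z w : ℂ) (hz : ‖z‖ ≤ 1) (hw : ‖w‖ ≤ 1) : F z w ≠ 0 := by
  intro h
  have hK : IsCompact (Metric.closedBall (0 : ℂ × ℂ) 1 ∩ {p | F p.1 p.2 = 0}) :=
    (isCompact_closedBall _ _).inter_right (isClosed_eq F_cont continuous_const)
  obtain ⟨⟨z0, w0⟩, ⟨hp1, hp2⟩, hmin⟩ := hK.exists_isMinOn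
    ⟨(z, w), by simp [Prod.norm_def, hz, hw], h⟩ continuous_norm.continuousOn
  have hp1' : max ‖z0‖ ‖w0‖ ≤ 1 := by simpa [Prod.norm_def] using hp1
  have hp2' : F z0 w0 = 0 := hp2
  have fin : ∀ z' w', F z' w' = 0 → ‖z'‖ < max ‖z0‖ ‖w0‖ → ‖w'‖ < max ‖z0‖ ‖w0‖ → False := by
    intro z' w' h1 h2 h3
    have h4 : max ‖z'‖ ‖w'‖ < max ‖z0‖ ‖w0‖ := max_lt h2 h3
    have := hmin (a := (z', w')) ⟨by
      simp only [mem_closedBall_zero_iff, Prod.norm_def]; linarith, h1⟩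
    simp only [Set.mem_ofPred_eq, Prod.norm_def] at this
    linarith
  rcases lt_trichotomy ‖w0‖ ‖z0‖ with h1 | h1 | h1
  · obtain ⟨z', w', a1, a2, a3⟩ := lt_case z0 w0 hp2' h1
    exact fin z' w' a1 (a2.trans_le (le_max_left _ _)) (a3.trans_le (le_max_left _ _))
  · exact eq_case z0 w0 ((le_max_left _ _).trans hp1') h1.symm hp2'
  · obtain ⟨z', w', a1, a2, a3⟩ := lt_case w0 z0 (by rw [F_symm]; exact hp2') h1
    exact fin z' w' a1 (a2.trans_le (le_max_right _ _)) (a3.trans_le (le_max_right _ _))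

noncomputable def pp : Polynomial ℂ :=
  Polynomial.C (7 / 25) * Polynomial.X ^ 3 + Polynomial.C aa * Polynomial.X ^ 2 +
    Polynomial.C 1 * Polynomial.X + Polynomial.C 0

lemma pp_sub (z w : ℂ) : pp.eval z - pp.eval w = (z - w) * F z w := by
  simp [pp, F]; ring

lemma pp_inj (z w : ℂ) (hz : ‖z‖ ≤ 1) (hw : ‖w‖ ≤ 1) (h : pp.eval z = pp.eval w) : z = w := by
  have := pp_sub z w
  rw [h, sub_self] at this
  rcases mul_eq_zero.1 this.symm with h1 | h1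
  · exact sub_eq_zero.1 h1
  · exact absurd h1 (F_ne z w hz hw)

/-- The negation of the preceding statement: For each N ≥ 1, every degree-N complex polynomial z+… univalent on the unit disk covers the disk of radius 1/(4cos²(π/(N+2))). Such a polynomial covers no larger disk exactly when it is a rotation of the stated Chebyshev-coefficient polynomial F. -/
theorem result :
    ¬ (∀ N : ℕ, 1 ≤ N →
    (∀ p : Polynomial ℂ, p.natDegree = N → p.coeff 0 = 0 → p.coeff 1 = 1 →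
        Set.InjOn (fun z => p.eval z) (Metric.ball (0 : ℂ) 1) →
        Metric.ball (0 : ℂ) (1 / (4 * Real.cos (Real.pi / ((N : ℝ) + 2)) ^ 2)) ⊆
          (fun z => p.eval z) '' Metric.ball (0 : ℂ) 1) ∧
    (∀ p : Polynomial ℂ,
      (p.natDegree = N ∧ p.coeff 0 = 0 ∧ p.coeff 1 = 1 ∧
        Set.InjOn (fun z => p.eval z) (Metric.ball (0 : ℂ) 1) ∧
        Metric.ball (0 : ℂ) (1 / (4 * Real.cos (Real.pi / ((N : ℝ) + 2)) ^ 2)) ⊆
          (fun z => p.eval z) '' Metric.ball (0 : ℂ) 1 ∧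
        ∀ r : ℝ, 1 / (4 * Real.cos (Real.pi / ((N : ℝ) + 2)) ^ 2) < r →
          ¬ (Metric.ball (0 : ℂ) r ⊆ (fun z => p.eval z) '' Metric.ball (0 : ℂ) 1))
      ↔
      ∃ α : ℝ, ∀ z : ℂ, p.eval z =
        Complex.exp (-((α : ℂ) * Complex.I)) *
          ∑ j ∈ Finset.Icc 1 N,
            (((Polynomial.derivative (Polynomial.Chebyshev.U ℝ ((N : ℤ) - (j : ℤ) + 1))).eval
                  (Real.cos (Real.pi / ((N : ℝ) + 2))) *
                (Polynomial.Chebyshev.U ℝ ((j : ℤ) - 1)).eval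
                  (Real.cos (Real.pi / ((N : ℝ) + 2))) /
                (Polynomial.derivative (Polynomial.Chebyshev.U ℝ (N : ℤ))).eval
                  (Real.cos (Real.pi / ((N : ℝ) + 2))) : ℝ) : ℂ) *
              (z * Complex.exp ((α : ℂ) * Complex.I)) ^ j)) := by
  intro H
  have h1 := (H 3 (by norm_num)).1 pp
    (Polynomial.natDegree_cubic (by norm_num)) (by simp [pp]) (by simp [pp, Polynomial.coeff_X])
    (fun z hz w hw h => pp_inj z w (le_of_lt (by simpa using hz)) (le_of_lt (by simpa using hw)) h)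
  set ζ : ℂ := ⟨-99 / 101, 20 / 101⟩ with hζ
  have hζn : ‖ζ‖ = 1 := by
    have : ‖ζ‖ ^ 2 = 1 ^ 2 := by
      rw [Complex.sq_norm, Complex.normSq_apply]; simp [hζ]; norm_num
    exact (pow_left_inj₀ (norm_nonneg _) zero_le_one two_ne_zero).1 this
  have hw : ‖pp.eval ζ‖ < 3815 / 10000 := by
    have : ‖pp.eval ζ‖ ^ 2 < (3815 / 10000) ^ 2 := by
      rw [Complex.sq_norm, Complex.normSq_apply]
      simp [pp, aa, hζ, pow_succ]
      norm_num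
    exact lt_of_pow_lt_pow_left₀ 2 (by norm_num) this
  have hc : (3815 / 10000 : ℝ) < 1 / (4 * Real.cos (Real.pi / (((3 : ℕ) : ℝ) + 2)) ^ 2) := by
    have e : (((3 : ℕ) : ℝ) + 2) = 5 := by norm_num
    rw [e, Real.cos_pi_div_five]
    have s1 : Real.sqrt 5 ^ 2 = 5 := Real.sq_sqrt (by norm_num)
    have s2 : Real.sqrt 5 < 2237 / 1000 := by
      rw [Real.sqrt_lt' (by norm_num)]; norm_num
    have s3 : 0 ≤ Real.sqrt 5 := Real.sqrt_nonneg _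
    rw [lt_div_iff₀ (by positivity)]
    nlinarith
  obtain ⟨z, hz, hz2⟩ := h1 (show pp.eval ζ ∈ Metric.ball (0 : ℂ) _ by
    rw [mem_ball_zero_iff]; exact hw.trans hc)
  have hz' : ‖z‖ < 1 := by simpa using hz
  have := pp_inj z ζ hz'.le hζn.le hz2
  rw [this, hζn] at hz'
  exact lt_irrefl _ hz'

end Pool.Agent.S06128
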