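import Pool.Statements.S06130
import Pool.Agent.H29.Pisot

set_option autoImplicit false
open Pool Pool.MP_c98abc_an

namespace Pool.Agent.S06130

open Pool.Agent.H29.Pisot in
theorem result :
    ¬ (∀ (d : ℕ) (σ : Fin d → List (Fin d)),
    Irreducible (Matrix.of (fun i j : Fin d => (((σ j).count i : ℕ) : ℚ))).charpoly →
    (∃ r : ℝ, 1 < r ∧
      (r : ℂ) ∈ ((Matrix.of (fun i j : Fin d => (((σ j).count i : ℕ) : ℚ))).charpoly.map
        (algebraMap ℚ ℂ)).roots ∧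
      ∀ z ∈ ((Matrix.of (fun i j : Fin d => (((σ j).count i : ℕ) : ℚ))).charpoly.map
        (algebraMap ℚ ℂ)).roots, z ≠ (r : ℂ) → ‖z‖ < 1) →
    |(Matrix.of (fun i j : Fin d => (((σ j).count i : ℕ) : ℚ))).det| = 1 →
    ∀ f : (ℤ → Fin d) → ℝ, Continuous f →
      ¬ ∃ (n : ℕ → ℤ) (a b : ℝ), a < b ∧
        ∀ P Q : Finset ℕ, Disjoint P Q →
          ∃ x : ℤ → Fin d,
            (∀ m : ℤ, ∀ k : ℕ, ∃ N : ℕ, ∃ c : Fin d,
              List.IsInfix (List.ofFn (fun i : Fin k => x (m + ((i : ℕ) : ℤ))))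
                ((fun w : List (Fin d) => w.flatMap σ)^[N] [c])) ∧
            (∀ j ∈ P, f (fun t => x (t + n j)) < a) ∧
            (∀ j ∈ Q, b < f (fun t => x (t + n j)))) := by
  intro H
  refine H 2 sg (cp ▸ irr) (cp ▸ pisot) det (fun x => ((x 0 : ℕ) : ℝ))
    ((continuous_of_discreteTopology (f := fun c : Fin 2 => ((c : ℕ) : ℝ))).comp (continuous_apply 0))
    ⟨fun i => (A i).length, 1 / 3, 2 / 3, by norm_num, fun P Q hPQ => ?_⟩
  obtain ⟨J, hJ⟩ := (P ∪ Q).bddAbove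
  refine ⟨fun t => z (t + o (fun i => decide (i ∈ Q)) (J + 1)), fun m k => ?_, fun j hj => ?_,
    fun j hj => ?_⟩
  · obtain ⟨N, hN⟩ := z_lang (m + o (fun i => decide (i ∈ Q)) (J + 1)) k
    refine ⟨N, 0, ?_⟩
    simp only [add_right_comm m (o (fun i => decide (i ∈ Q)) (J + 1) : ℤ)] at hN
    exact hN
  · have h1 : j ≤ J := hJ (by simp [hj])
    have h2 : j ∉ Q := Finset.disjoint_left.1 hPQ hj
    simp only [zero_add]
    rw [z_pat _ j (J + 1) (by omega)]
    simp [h2]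
  · have h1 : j ≤ J := hJ (by simp [hj])
    simp only [zero_add]
    rw [z_pat _ j (J + 1) (by omega)]
    simp [hj]; norm_num

end Pool.Agent.S06130
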