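import Pool.Statements.S06153

set_option autoImplicit false
open Pool Pool.MP_cb17ae_an

namespace Pool.Agent.S06153
open Set Filter Topology

lemma hadamard (f : ℝ → ℂ) (hf : ContDiff ℝ (⊤ : ℕ∞) f) (l : ℝ) : ∃ g : ℝ → ℂ,
    ContDiff ℝ (⊤ : ℕ∞) g ∧ (∀ x, f x = f l + ((x : ℂ) - l) * g x) ∧
      ∀ k x, iteratedDeriv k g x =
        ∫ t in (0 : ℝ)..1, t ^ k • iteratedDeriv (k + 1) f (l + t * (x - l)) := by
  have hc : ∀ k, Continuous (iteratedDeriv k f) := fun k =>
    hf.continuous_iteratedDeriv k (by exact_mod_cast le_top)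
  have hd : ∀ k x, HasDerivAt (iteratedDeriv k f) (iteratedDeriv (k + 1) f x) x := fun k x => by
    rw [iteratedDeriv_succ]
    exact (hf.differentiable_iteratedDeriv k (by exact_mod_cast ENat.coe_lt_top k) x).hasDerivAt
  let F : ℕ → ℝ → ℝ → ℂ := fun k x t => t ^ k • iteratedDeriv (k + 1) f (l + t * (x - l))
  have hF : ∀ k, Continuous fun p : ℝ × ℝ => F k p.1 p.2 := fun k => by
    have := hc (k + 1)
    simp only [F]
    fun_prop
  have hF' : ∀ k x, Continuous (F k x) := fun k x => (hF k).comp (Continuous.prodMk_right x)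
  let G : ℕ → ℝ → ℂ := fun k x => ∫ t in (0 : ℝ)..1, F k x t
  have hG : ∀ k x, HasDerivAt (G k) (G (k + 1) x) x := fun k x => by
    obtain ⟨M, hM⟩ := ((isCompact_closedBall x 1).prod (isCompact_Icc (a := (0 : ℝ)) (b := 1))).exists_bound_of_continuousOn (hF (k + 1)).continuousOn
    refine (intervalIntegral.hasDerivAt_integral_of_dominated_loc_of_deriv_le (bound := fun _ => M)
      (Metric.closedBall_mem_nhds x one_pos)
      (Eventually.of_forall fun y => (hF' k y).aestronglyMeasurable)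
      ((hF' k x).intervalIntegrable _ _) (hF' (k + 1) x).aestronglyMeasurable
      (Eventually.of_forall fun t ht y hy => hM (y, t) ⟨hy, ?_⟩) intervalIntegrable_const
      (Eventually.of_forall fun t _ y _ => ?_)).2
    · rw [uIoc_of_le zero_le_one] at ht
      exact ⟨ht.1.le, ht.2⟩
    · have h1 : HasDerivAt (fun y : ℝ => l + t * (y - l)) t y := by
        simpa using (((hasDerivAt_id y).sub_const l).const_mul t).const_add l
      have := ((hd (k + 1) _).scomp y h1).const_smul (t ^ k)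
      simp only [F]
      rw [pow_succ, mul_smul]
      exact this
  have hit : ∀ k, iteratedDeriv k (G 0) = G k := fun k => by
    induction k with
    | zero => simp
    | succ k ih => rw [iteratedDeriv_succ, ih]; exact funext fun x => (hG k x).deriv
  refine ⟨G 0, contDiff_of_differentiable_iteratedDeriv fun m _ x => ?_, fun x => ?_,
    fun k x => by rw [hit]⟩
  · rw [hit]; exact (hG m x).differentiableAt
  · have h := intervalIntegral.integral_eq_sub_of_hasDerivAt (a := 0) (b := 1)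
      (f := fun t : ℝ => f (l + t * (x - l))) (f' := fun t => ((x : ℂ) - l) * F 0 x t)
      (fun t _ => by
        have h1 : HasDerivAt (fun t : ℝ => l + t * (x - l)) (x - l) t := by
          simpa using ((hasDerivAt_id t).mul_const (x - l)).const_add l
        have := (hd 0 _).scomp t h1
        simp only [F, pow_zero, one_smul]
        rw [iteratedDeriv_zero, Complex.real_smul, Complex.ofReal_sub] at this
        exact this)
      ((continuous_const.mul (hF' 0 x)).intervalIntegrable _ _)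
    rw [intervalIntegral.integral_const_mul] at h
    simp only [one_mul, zero_mul, add_zero, add_sub_cancel] at h
    simp only [G]
    linear_combination -h

lemma stab {B : Type} [NormedCommRing B] [NormedAlgebra ℂ B] [CompleteSpace B] (β : B)
    (h1 : ∀ a : B, ∃ (s : ℂ) (c : B), a = algebraMap ℂ B s + β * c)
    (h2 : ∀ ε : ℝ, 0 < ε → ∃ r, (β - algebraMap ℂ B (ε * Complex.I)) * r = 1) :
    ∃ (n : ℕ) (c : B), β ^ n = β ^ (n + 1) * c := by
  by_contra hne
  push Not at hne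
  let T : ℂ × B →L[ℂ] B :=
    (ContinuousLinearMap.toSpanSingleton ℂ (1 : B)).coprod (ContinuousLinearMap.mul ℂ B β)
  have hT : ∀ p : ℂ × B, T p = algebraMap ℂ B p.1 + β * p.2 := fun p => by
    simp [T, Algebra.algebraMap_eq_smul_one]
  obtain ⟨C, hC, h⟩ := T.exists_preimage_norm_le fun a => by
    obtain ⟨s, c, e⟩ := h1 a
    exact ⟨(s, c), by rw [hT, e]⟩
  choose p hp1 hp2 using h
  obtain ⟨r, hr⟩ := h2 (1 / (2 * C)) (by positivity)
  set μ : ℂ := (1 / (2 * C) : ℝ) * Complex.I with hμ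
  have hμn : ‖μ‖ = 1 / (2 * C) := by
    rw [hμ, norm_mul, Complex.norm_I, mul_one, Complex.norm_real, Real.norm_of_nonneg (by positivity)]
  let R : ℕ → B := fun k => (fun a => (p a).2)^[k] r
  have hR : ∀ k, R (k + 1) = (p (R k)).2 := fun k => Function.iterate_succ_apply' _ _ _
  have hRn : ∀ k, ‖R k‖ ≤ C ^ k * ‖r‖ := fun k => by
    induction k with
    | zero => simp [R]
    | succ k ih =>
      rw [hR, pow_succ', mul_assoc]
      exact ((norm_snd_le _).trans (hp2 _)).trans (by gcongr)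
  have hstep : ∀ k, β ^ k * (algebraMap ℂ B μ ^ k * R k - r) = 0 →
      μ ^ (k + 1) * (p (R k)).1 = -1 ∧
        β ^ (k + 1) * (algebraMap ℂ B μ ^ (k + 1) * R (k + 1) - r) = 0 := fun k hk => by
    have e1 := hp1 (R k)
    rw [hT, ← hR] at e1
    have e2 : algebraMap ℂ B (μ ^ (k + 1) * (p (R k)).1 + 1) * β ^ k =
        β ^ (k + 1) * (r - algebraMap ℂ B μ ^ (k + 1) * R (k + 1)) := by
      rw [map_add, map_mul, map_pow, map_one]
      linear_combination (algebraMap ℂ B μ ^ (k + 1) * β ^ k) * e1 + algebraMap ℂ B μ * hk -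
        β ^ k * hr
    have e3 : μ ^ (k + 1) * (p (R k)).1 + 1 = 0 := by
      by_contra h0
      refine hne k (algebraMap ℂ B (μ ^ (k + 1) * (p (R k)).1 + 1)⁻¹ *
        (r - algebraMap ℂ B μ ^ (k + 1) * R (k + 1))) ?_
      rw [mul_left_comm, ← e2, ← mul_assoc, ← map_mul, inv_mul_cancel₀ h0, map_one, one_mul]
    rw [e3, map_zero, zero_mul] at e2
    exact ⟨by linear_combination e3, by linear_combination e2⟩
  have hall : ∀ k, β ^ k * (algebraMap ℂ B μ ^ k * R k - r) = 0 := fun k => by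
    induction k with
    | zero => simp [R]
    | succ k ih => exact (hstep k ih).2
  have hb : ∀ k : ℕ, 1 ≤ (1 / 2 : ℝ) ^ (k + 1) * ‖r‖ := fun k => by
    have e := congrArg norm (hstep k (hall k)).1
    rw [norm_mul, norm_pow, hμn, norm_neg, norm_one] at e
    have e2 : ‖(p (R k)).1‖ ≤ C * (C ^ k * ‖r‖) :=
      ((norm_fst_le _).trans (hp2 _)).trans (by gcongr; exact hRn k)
    calc (1 : ℝ) = _ := e.symm
      _ ≤ (1 / (2 * C)) ^ (k + 1) * (C * (C ^ k * ‖r‖)) := by gcongr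
      _ = (1 / (2 * C) * C) ^ (k + 1) * ‖r‖ := by rw [mul_pow]; ring
      _ = _ := by congr 2; field_simp
  have ht : Tendsto (fun k : ℕ => (1 / 2 : ℝ) ^ (k + 1) * ‖r‖) atTop (𝓝 (0 * ‖r‖)) :=
    ((tendsto_pow_atTop_nhds_zero_of_lt_one (by norm_num) (by norm_num)).comp
      (tendsto_add_atTop_nat 1)).mul_const _
  have := ge_of_tendsto' ht hb
  norm_num at this

def Sm : Subalgebra ℂ (ℝ → ℂ) where
  carrier := {f | ContDiff ℝ (⊤ : ℕ∞) f}
  mul_mem' := fun {f g} (h1 : ContDiff ℝ (⊤ : ℕ∞) f) (h2 : ContDiff ℝ (⊤ : ℕ∞) g) => h1.mul h2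
  add_mem' := fun {f g} (h1 : ContDiff ℝ (⊤ : ℕ∞) f) (h2 : ContDiff ℝ (⊤ : ℕ∞) g) => h1.add h2
  algebraMap_mem' := fun c => (contDiff_const : ContDiff ℝ (⊤ : ℕ∞) fun _ : ℝ => c)

lemma cd (f : Sm) : ContDiff ℝ (⊤ : ℕ∞) f.1 := f.2

lemma mm {f : ℝ → ℂ} (h : ContDiff ℝ (⊤ : ℕ∞) f) : f ∈ Sm := h

def xx : Sm := ⟨fun x => (x : ℂ), mm Complex.ofRealCLM.contDiff⟩

noncomputable def SS (k : ℕ) (f : ℝ → ℂ) : ℝ :=
  sSup ((fun x : ℝ => ‖iteratedDeriv k f x‖) '' Icc (0 : ℝ) 1)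

lemma le_SS (k : ℕ) (f : Sm) {x : ℝ} (hx : x ∈ Icc (0 : ℝ) 1) : ‖iteratedDeriv k f.1 x‖ ≤ SS k f :=
  le_csSup (isCompact_Icc.bddAbove_image (ContDiff.continuous_iteratedDeriv k (cd f)
    (by exact_mod_cast le_top)).norm.continuousOn) (mem_image_of_mem _ hx)

lemma had (f : Sm) (l : ℝ) : ∃ g : Sm, f = algebraMap ℂ Sm (f.1 l) + (xx - algebraMap ℂ Sm l) * g ∧
    (l ∈ Icc (0 : ℝ) 1 → ∀ k, SS k g ≤ SS (k + 1) f) := by
  obtain ⟨g, h1, h2, h3⟩ := hadamard f.1 f.2 l
  refine ⟨⟨g, h1⟩, Subtype.ext (funext h2), fun hl k => csSup_le (by simp) ?_⟩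
  rintro _ ⟨x, hx, rfl⟩
  simp only
  rw [h3]
  refine (intervalIntegral.norm_integral_le_of_norm_le_const (C := SS (k + 1) f)
    fun t ht => ?_).trans (by simp)
  rw [uIoc_of_le zero_le_one] at ht
  have h0 := le_SS (k + 1) f (x := l + t * (x - l))
    ⟨by nlinarith [ht.1, ht.2, hl.1, hx.1], by nlinarith [ht.1, ht.2, hl.2, hx.2]⟩
  rw [norm_smul, norm_pow, Real.norm_of_nonneg ht.1.le]
  exact (mul_le_of_le_one_left (norm_nonneg _) (pow_le_one₀ ht.1.le ht.2)).trans h0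

lemma main {B : Type} [NormedCommRing B] [NormedAlgebra ℂ B] [CompleteSpace B] (Φ : Sm →ₐ[ℂ] B)
    (hs : Function.Surjective Φ) (h0 : ∀ f : Sm, (∀ x ∈ Icc (0 : ℝ) 1, f.1 x = 0) → Φ f = 0) :
    ∃ (n : ℕ) (C : ℝ), ∀ f : Sm, ‖Φ f‖ ≤ C * ∑ k ∈ Finset.range (n + 1), SS k f := by
  classical
  have hinv : ∀ f : Sm, (∀ x, f.1 x ≠ 0) → ∃ r, Φ f * r = 1 := fun f hf =>
    ⟨Φ ⟨fun x => (f.1 x)⁻¹, mm (ContDiff.inv (cd f) hf)⟩, by
      rw [← map_mul, ← map_one Φ]
      congr 1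
      exact Subtype.ext (funext fun x => mul_inv_cancel₀ (hf x))⟩
  let β : ℝ → B := fun l => Φ (xx - algebraMap ℂ Sm l)
  have h1 : ∀ l : ℝ, ∃ (n : ℕ) (u : Sm), u.1 l ≠ 0 ∧ β l ^ n * Φ u = 0 := fun l => by
    obtain ⟨n, c, h⟩ := stab (β l) (fun a => by
      obtain ⟨f, rfl⟩ := hs a
      obtain ⟨g, hg, -⟩ := had f l
      exact ⟨f.1 l, Φ g, by conv_lhs => rw [hg, map_add, map_mul, AlgHom.commutes]⟩) (fun ε hε => by
      obtain ⟨r, hr⟩ := hinv (xx - algebraMap ℂ Sm l - algebraMap ℂ Sm (ε * Complex.I)) (fun x h => by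
        have := congrArg Complex.im h
        simp [xx] at this
        exact hε.ne' this)
      exact ⟨r, by rwa [map_sub, AlgHom.commutes] at hr⟩)
    obtain ⟨g, rfl⟩ := hs c
    refine ⟨n, 1 - (xx - algebraMap ℂ Sm l) * g, by simp [xx], ?_⟩
    rw [map_sub, map_one, map_mul]
    linear_combination h
  choose n u hu1 hu2 using h1
  obtain ⟨t, ht1, ht2⟩ := isCompact_Icc.elim_nhds_subcover (s := Icc (0 : ℝ) 1)
    (fun l => {x | (u l).1 x ≠ 0}) fun l _ =>
      (isOpen_ne_fun (ContDiff.continuous (cd (u l))) continuous_const).mem_nhds (hu1 l)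
  let cj : Sm → Sm := fun f => ⟨fun x => starRingEnd ℂ (f.1 x), 
    mm (Complex.conjCLE.contDiff.comp (cd f))⟩
  let w : Sm := ⟨fun x => ((expNegInvGlue (-x) + expNegInvGlue (x - 1) : ℝ) : ℂ),
    mm (Complex.ofRealCLM.contDiff.comp ((expNegInvGlue.contDiff.comp contDiff_neg).add
      (expNegInvGlue.contDiff.comp (contDiff_id.sub contDiff_const))))⟩
  have hw : Φ w = 0 := h0 w fun x hx => by
    simp only [w]
    rw [expNegInvGlue.zero_of_nonpos (by linarith [hx.1]),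
      expNegInvGlue.zero_of_nonpos (by linarith [hx.2])]
    simp
  obtain ⟨r, hr⟩ := hinv (∑ l ∈ t, u l * cj (u l) + w) fun x h => by
    have e : (∑ l ∈ t, u l * cj (u l) + w).1 x = ((∑ l ∈ t, Complex.normSq ((u l).1 x) +
        (expNegInvGlue (-x) + expNegInvGlue (x - 1)) : ℝ) : ℂ) := by
      simp [w, cj, Complex.mul_conj]
    rw [e, Complex.ofReal_eq_zero] at h
    have a1 := Finset.sum_nonneg fun l (_ : l ∈ t) => Complex.normSq_nonneg ((u l).1 x)
    have a2 := expNegInvGlue.nonneg (-x)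
    have a3 := expNegInvGlue.nonneg (x - 1)
    have b2 := expNegInvGlue.zero_iff_nonpos.1 (show expNegInvGlue (-x) = 0 by linarith)
    have b3 := expNegInvGlue.zero_iff_nonpos.1 (show expNegInvGlue (x - 1) = 0 by linarith)
    obtain ⟨l, hl, hx⟩ := mem_iUnion₂.1 (ht2 (show x ∈ Icc (0 : ℝ) 1 from ⟨by linarith, by linarith⟩))
    exact hx (Complex.normSq_eq_zero.1 ((Finset.sum_eq_zero_iff_of_nonneg
      fun l _ => Complex.normSq_nonneg ((u l).1 x)).1 (by linarith) l hl))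
  have hP : ∏ l ∈ t, β l ^ n l = 0 := by
    rw [map_add, hw, add_zero, map_sum] at hr
    rw [← mul_one (∏ l ∈ t, β l ^ n l), ← hr, ← mul_assoc, Finset.mul_sum, Finset.sum_eq_zero,
      zero_mul]
    intro l hl
    rw [← Finset.mul_prod_erase t _ hl, map_mul]
    linear_combination (∏ x ∈ t.erase l, β x ^ n x) * Φ (cj (u l)) * hu2 l
  let Good : B → Prop := fun y => ∃ (n : ℕ) (C : ℝ), 0 ≤ C ∧
    ∀ f : Sm, ‖y * Φ f‖ ≤ C * ∑ k ∈ Finset.range (n + 1), SS k f
  have hS : ∀ k (f : Sm), 0 ≤ SS k f := fun k f =>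
    (norm_nonneg _).trans (le_SS k f (x := 0) (by simp))
  have g1 : ∀ l ∈ Icc (0 : ℝ) 1, ∀ y, Good (y * β l) → Good y := by
    rintro l hl y ⟨n, C, hC, h⟩
    refine ⟨n + 1, ‖y‖ + C, by positivity, fun f => ?_⟩
    obtain ⟨g, hg, hb⟩ := had f l
    have e : y * Φ f = f.1 l • y + y * β l * Φ g := by
      conv_lhs => rw [hg, map_add, map_mul, AlgHom.commutes]
      rw [Algebra.smul_def]
      ring
    have a1 : ‖f.1 l‖ ≤ SS 0 f := by simpa using le_SS 0 f hl
    have a2 : ∑ k ∈ Finset.range (n + 1), SS k g ≤ ∑ k ∈ Finset.range (n + 1), SS (k + 1) f :=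
      Finset.sum_le_sum fun k _ => hb hl k
    have a3 : 0 ≤ ∑ k ∈ Finset.range (n + 1), SS (k + 1) f := Finset.sum_nonneg fun k _ => hS _ _
    rw [e, Finset.sum_range_succ' (fun k => SS k f)]
    refine (norm_add_le _ _).trans ?_
    rw [norm_smul]
    have a4 := (h g).trans (mul_le_mul_of_nonneg_left a2 hC)
    nlinarith [norm_nonneg y, hS 0 f, mul_le_mul_of_nonneg_right a1 (norm_nonneg y)]
  have g2 : ∀ l ∈ Icc (0 : ℝ) 1, ∀ (m : ℕ) y, Good (y * β l ^ m) → Good y := by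
    intro l hl m
    induction m with
    | zero => simp
    | succ m ih => intro y h; rw [pow_succ, ← mul_assoc] at h; exact ih y (g1 l hl _ h)
  have g3 : ∀ s : Finset ℝ, (∀ l ∈ s, l ∈ Icc (0 : ℝ) 1) →
      ∀ y, Good (y * ∏ l ∈ s, β l ^ n l) → Good y := by
    intro s
    induction s using Finset.induction_on with
    | empty => simp
    | insert a s ha ih =>
      intro hs y h
      rw [Finset.prod_insert ha, ← mul_assoc] at h
      exact g2 a (hs a (by simp)) _ y (ih (fun l hl => hs l (by simp [hl])) _ h)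
  obtain ⟨N, C, -, h⟩ := g3 t ht1 1 ⟨0, 0, le_rfl, fun f => by simp [hP]⟩
  exact ⟨N, C, fun f => by simpa using h f⟩


/-- Every surjective algebra homomorphism from smooth complex functions on [0,1] onto a complex Banach algebra is continuous: its norm is bounded by a constant times the sum of sup-norms of the first n derivatives on [0,1]. -/
theorem result :
    ∀ (B : Type) [NormedRing B] [NormedAlgebra ℂ B] [CompleteSpace B] (φ : (ℝ → ℂ) → B),
      (∀ f g : ℝ → ℂ, ContDiff ℝ (⊤ : ℕ∞) f → ContDiff ℝ (⊤ : ℕ∞) g →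
          φ (f + g) = φ f + φ g) →
      (∀ f g : ℝ → ℂ, ContDiff ℝ (⊤ : ℕ∞) f → ContDiff ℝ (⊤ : ℕ∞) g →
          φ (f * g) = φ f * φ g) →
      (∀ (c : ℂ) (f : ℝ → ℂ), ContDiff ℝ (⊤ : ℕ∞) f → φ (c • f) = c • φ f) →
      (∀ f g : ℝ → ℂ, ContDiff ℝ (⊤ : ℕ∞) f → ContDiff ℝ (⊤ : ℕ∞) g →
          Set.EqOn f g (Set.Icc (0 : ℝ) 1) → φ f = φ g) →
      (∀ b : B, ∃ f : ℝ → ℂ, ContDiff ℝ (⊤ : ℕ∞) f ∧ φ f = b) →
      ∃ n : ℕ, ∃ C : ℝ, ∀ f : ℝ → ℂ, ContDiff ℝ (⊤ : ℕ∞) f →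
        ‖φ f‖ ≤ C * ∑ k ∈ Finset.range (n + 1),
          sSup ((fun x : ℝ => ‖iteratedDeriv k f x‖) '' Set.Icc (0 : ℝ) 1) := by
  intro B _ _ _ φ hadd hmul hsmul heq hsurj
  have h1 : φ 1 = 1 := by
    obtain ⟨f, hf, e⟩ := hsurj 1
    have := hmul 1 f contDiff_const hf
    rwa [one_mul, e, mul_one, eq_comm] at this
  have h0 : φ 0 = 0 := by simpa using hsmul 0 0 contDiff_const
  letI : NormedCommRing B := { (inferInstance : NormedRing B) with
    mul_comm := fun a b => by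
      obtain ⟨f, hf, rfl⟩ := hsurj a
      obtain ⟨g, hg, rfl⟩ := hsurj b
      rw [← hmul f g hf hg, ← hmul g f hg hf, mul_comm] }
  let Φ : Sm →ₐ[ℂ] B :=
    { toFun := fun f => φ f.1
      map_one' := h1
      map_mul' := fun f g => hmul _ _ f.2 g.2
      map_zero' := h0
      map_add' := fun f g => hadd _ _ f.2 g.2
      commutes' := fun c => by
        rw [Algebra.algebraMap_eq_smul_one, Algebra.algebraMap_eq_smul_one, ← h1]
        exact hsmul c 1 contDiff_const }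
  obtain ⟨n, C, h⟩ := main Φ (fun b => by
    obtain ⟨f, hf, e⟩ := hsurj b
    exact ⟨⟨f, hf⟩, e⟩) fun f hf => (heq f.1 0 f.2 contDiff_const hf).trans h0
  exact ⟨n, C, fun f hf => h ⟨f, hf⟩⟩

end Pool.Agent.S06153
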