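import Pool.Statements.S06172
import Pool.Agent.H27.AlmostAdd

set_option autoImplicit false
open Pool Pool.MP_cc91a5_an

namespace Pool.Agent.S06172

/-- The negation of the preceding statement: For every continuous self-map T of a compact metric space and every almost additive sequence of continuous functions with bounded variations in the Bowen metric, some continuous g has Birkhoff sums uniformly within bounded distance of f_n. -/
theorem result :
    ¬ (∀ (X : Type) [MetricSpace X] [CompactSpace X] (T : X → X), Continuous T →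
      ∀ f : ℕ → X → ℝ, (∀ n, Continuous (f n)) →
        (∃ C : ℝ, ∀ n m : ℕ, 1 ≤ n → 1 ≤ m → ∀ x : X,
            |f (n + m) x - f n x - f m (T^[n] x)| ≤ C) →
        (∃ ε : ℝ, 0 < ε ∧ ∃ K : ℝ, ∀ n : ℕ, 1 ≤ n → ∀ x y : X,
            (∀ k : ℕ, k < n → dist (T^[k] x) (T^[k] y) < ε) →
              |f n x - f n y| ≤ K) →
        ∃ g : X → ℝ, Continuous g ∧ ∃ B : ℝ, ∀ n : ℕ, 1 ≤ n → ∀ x : X,
            |f n x - ∑ k ∈ Finset.range n, g (T^[k] x)| ≤ B) := by
  intro h
  open Pool.Agent.H27.AlmostAdd in
  letI : MetricSpace XX := PiNat.metricSpace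
  haveI : CompactSpace XX := Pi.compactSpace
  obtain ⟨g, hg, B, hB⟩ := h XX sh cont_sh ff cont_ff
    ⟨2, fun n m _ _ x => by
      rcases almost n m x with h | h
      · rw [h]; simp
      · exact h.2⟩
    ⟨1, one_pos, 0, fun n _ x y hxy => by
      rw [ff_congr x y n, sub_self, abs_zero]
      intro i hi
      have h1 := hxy i hi
      have h2 : (sh^[i] x) 0 = (sh^[i] y) 0 :=
        PiNat.apply_eq_of_dist_lt (E := fun _ => Bool) (n := 0) (by simpa using h1) le_rfl
      simpa [sh_iter] using h2⟩
  exact no_approx g hg B hB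

end Pool.Agent.S06172
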