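import Pool.Statements.S06207
-- import your own Pool.Agent.* helpers here

set_option autoImplicit false
open Pool Pool.MP_ced77a_an

namespace Pool.Agent.S06207

open Set Filter Topology

section cone
variable {X : Type} [NormedAddCommGroup X] [NormedSpace ℝ X]

theorem cone_false (G : Set X) (T : X →L[ℝ] X) (hadd : ∀ a ∈ G, ∀ b ∈ G, a + b ∈ G)
    (hsm : ∀ t : ℝ, 0 ≤ t → ∀ a ∈ G, t • a ∈ G) (hcl : IsClosed G) (hT : ∀ a ∈ G, T a ∈ G)
    (hne : (interior G).Nonempty) (h0 : (0 : X) ∉ interior G)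
    (hd : ∀ μ : ℝ, DenseRange (fun y => μ • y - T y)) : False := by
  have iadd : ∀ a ∈ interior G, ∀ b ∈ G, a + b ∈ interior G := by
    intro a ha b hb
    rw [mem_interior_iff_mem_nhds] at ha ⊢
    have hc : Tendsto (fun w => w - b) (𝓝 (a + b)) (𝓝 a) := by
      have : Continuous (fun w : X => w - b) := by fun_prop
      simpa using this.tendsto (a + b)
    filter_upwards [hc ha] with w hw
    simpa using hadd _ hw b hb
  have ism : ∀ t : ℝ, 0 < t → ∀ a ∈ interior G, t • a ∈ interior G := by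
    intro t ht a ha
    rw [mem_interior_iff_mem_nhds] at ha ⊢
    have hc : Tendsto (fun w => t⁻¹ • w) (𝓝 (t • a)) (𝓝 a) := by
      have : Continuous (fun w : X => t⁻¹ • w) := by fun_prop
      simpa [smul_smul, inv_mul_cancel₀ ht.ne'] using this.tendsto (t • a)
    filter_upwards [hc ha] with w hw
    simpa [smul_smul, mul_inv_cancel₀ ht.ne'] using hsm t ht.le _ hw
  have pert : ∀ a ∈ interior G, ∀ v : X, ∃ ε : ℝ, 0 < ε ∧ ∀ s : ℝ, |s| < ε →
      a + s • v ∈ interior G := by
    intro a ha v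
    have hc : Tendsto (fun s : ℝ => a + s • v) (𝓝 0) (𝓝 a) := by
      have : Continuous (fun s : ℝ => a + s • v) := by fun_prop
      simpa using this.tendsto 0
    have := hc (isOpen_interior.mem_nhds ha)
    rw [mem_map, Metric.mem_nhds_iff] at this
    obtain ⟨ε, hε, h⟩ := this
    exact ⟨ε, hε, fun s hs => h (by simpa using hs)⟩
  set U : Set ℝ := {l | ∃ z ∈ interior G, l • z - T z ∈ interior G} with hU
  have Upos : ∀ l : ℝ, ∀ z ∈ G, l • z - T z ∈ interior G → 0 < l := by
    intro l z hz h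
    by_contra hl
    apply h0
    have h1 := iadd _ h _ (hT z hz)
    have h2 := iadd _ h1 _ (hsm (-l) (by linarith) z hz)
    simpa using h2
  have Une : U.Nonempty := by
    obtain ⟨u, hu⟩ := hne
    obtain ⟨ε, hε, h⟩ := pert u hu (T u)
    refine ⟨2 / ε, u, hu, ?_⟩
    have h1 := ism (2 / ε) (by positivity) _ (h (-(ε / 2)) (by
      rw [abs_neg, abs_of_pos (by positivity)]; linarith))
    convert h1 using 1
    rw [smul_add, smul_smul]
    have : 2 / ε * -(ε / 2) = -1 := by field_simp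
    rw [this]; simp [sub_eq_add_neg]
  have Ubd : BddBelow U := ⟨0, fun l ⟨z, hz, h⟩ => (Upos l z (interior_subset hz) h).le⟩
  have inv : ∀ l ∈ U, ∀ v : X, l • v - T v ∈ G → v ∈ G := by
    rintro l ⟨z, hz, h⟩ v hv
    have hl := Upos l z (interior_subset hz) h
    obtain ⟨ε, hε, h1⟩ := pert _ h z
    set η := min (ε / 2) (l / 2) with hη
    have η0 : 0 < η := lt_min (by positivity) (by positivity)
    have η1 : η ≤ ε / 2 := min_le_left _ _
    have η2 : η ≤ l / 2 := min_le_right _ _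
    have h2 := interior_subset (h1 (-η) (by rw [abs_neg, abs_of_pos η0]; linarith))
    obtain ⟨δ, hδ, h3⟩ := pert _ hz v
    have h4 := interior_subset (h3 (δ / 2) (by rw [abs_of_pos (by positivity)]; linarith))
    set θ := (l - η) / l with hθ
    have θ0 : 0 ≤ θ := div_nonneg (by linarith) hl.le
    have θ1 : θ < 1 := by rw [hθ, div_lt_one hl]; linarith
    have step : ∀ c : ℝ, 0 ≤ c → c • z + v ∈ G → (θ * c) • z + v ∈ G := by
      intro c hc hcv
      have h5 := hsm l⁻¹ (by positivity) _ (hadd _ (hadd _ hv _ (hT _ hcv)) _ (hsm c hc _ h2))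
      convert h5 using 1
      simp only [map_add, map_smul]
      have e1 : θ * c = l⁻¹ * (c * (l - η)) := by rw [hθ]; field_simp
      have e2 : v = (l⁻¹ * l) • v := by rw [inv_mul_cancel₀ hl.ne', one_smul]
      rw [e1]
      conv_lhs => rw [e2]
      module
    have iter : ∀ n : ℕ, (θ ^ n * (2 / δ)) • z + v ∈ G := by
      intro n
      induction n with
      | zero =>
        have := hsm (2 / δ) (by positivity) _ h4
        convert this using 1
        rw [smul_add, smul_smul]
        have : 2 / δ * (δ / 2) = 1 := by field_simp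
        rw [this]; simp
      | succ n ih =>
        have := step _ (by positivity) ih
        convert this using 2
        ring_nf
    have hlim : Tendsto (fun n : ℕ => (θ ^ n * (2 / δ)) • z + v) atTop (𝓝 v) := by
      have := (((tendsto_pow_atTop_nhds_zero_of_lt_one θ0 θ1).mul_const (2 / δ)).smul_const
        z).add_const v
      simpa using this
    exact hcl.mem_of_tendsto hlim (Eventually.of_forall iter)
  obtain ⟨y, hy⟩ := (hd (sInf U)).exists_mem_open isOpen_interior hne
  obtain ⟨ε, hε, h1⟩ := pert _ hy y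
  obtain ⟨l, hlU, hl⟩ := exists_lt_of_csInf_lt Une (show sInf U < sInf U + ε by linarith)
  have hl2 : sInf U ≤ l := csInf_le Ubd hlU
  have hyG : y ∈ G := by
    apply inv l hlU
    have := interior_subset (h1 (l - sInf U) (by rw [abs_of_nonneg (by linarith)]; linarith))
    convert this using 1
    module
  have hμ := Upos _ y hyG hy
  have hyI : y ∈ interior G := by
    have := ism (sInf U)⁻¹ (by positivity) _ (iadd _ hy _ (hT y hyG))
    simpa [smul_smul, inv_mul_cancel₀ hμ.ne'] using this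
  have : sInf U - ε / 2 ∈ U := by
    refine ⟨y, hyI, ?_⟩
    have := h1 (-(ε / 2)) (by rw [abs_neg, abs_of_pos (by positivity)]; linarith)
    convert this using 1
    module
  have := csInf_le Ubd this
  linarith

end cone

section main
variable {X : Type} [NormedAddCommGroup X] [NormedSpace ℂ X]

theorem dense_range (T : X →L[ℂ] X)
    (hT : ∀ (c : ℂ) (φ : X →L[ℂ] ℂ), φ.comp T = c • φ → φ = 0) (μ : ℂ) :
    DenseRange (fun y => μ • y - T y) := by
  by_contra h
  set R : Submodule ℂ X := LinearMap.range ((μ • ContinuousLinearMap.id ℂ X - T : X →L[ℂ] X) :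
    X →ₗ[ℂ] X) with hR
  have hR' : (R : Set X) = range (fun y => μ • y - T y) := by
    ext w; simp [hR]
  unfold DenseRange Dense at h
  push Not at h
  obtain ⟨y, hy⟩ := h
  rw [← hR'] at hy
  have hconv : Convex ℝ (R : Set X) := (R.restrictScalars ℝ).convex
  obtain ⟨f, u, h1, h2⟩ := RCLike.geometric_hahn_banach_closed_point (𝕜 := ℂ) hconv.closure
    isClosed_closure hy
  have hz : ∀ w ∈ R, f w = 0 := by
    intro w hw
    by_contra hne
    have := h1 (((u : ℂ) / f w) • w) (subset_closure (R.smul_mem _ hw))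
    rw [map_smul, smul_eq_mul, div_mul_cancel₀ _ hne] at this
    simp at this
  have hf : f = 0 := by
    apply hT μ
    ext w
    have := hz (μ • w - T w) (by rw [← SetLike.mem_coe, hR']; exact ⟨w, rfl⟩)
    rw [map_sub, map_smul, sub_eq_zero] at this
    simp [← this]
  have h3 := h1 0 (subset_closure R.zero_mem)
  rw [hf] at h2 h3
  simp at h2 h3
  linarith

theorem re_le (T : X →L[ℂ] X) (x : X) (g : X →L[ℂ] ℂ) (u : ℝ)
    (h : ∀ m : ℕ, (g ((T ^ m) x)).re ≤ u) :
    ∀ c ∈ closure (convexHull ℝ (range (fun n : ℕ => (T ^ n) x))), (g c).re ≤ u := by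
  have hc : IsClosed {c : X | (g c).re ≤ u} := isClosed_le (by fun_prop) continuous_const
  have hv : Convex ℝ {c : X | (g c).re ≤ u} := by
    intro a ha b hb s t hs ht hst
    simp only [mem_ofPred_eq] at ha hb ⊢
    rw [map_add, g.map_smul_of_tower, g.map_smul_of_tower]
    simp only [Complex.add_re, Complex.smul_re, smul_eq_mul]
    have : u = s * u + t * u := by rw [← add_mul, hst, one_mul]
    nlinarith [mul_le_mul_of_nonneg_left ha hs, mul_le_mul_of_nonneg_left hb ht]
  apply closure_minimal _ hc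
  apply convexHull_min _ hv
  rintro _ ⟨m, rfl⟩
  exact h m

theorem norm_le_of_re (g : X →L[ℂ] ℂ) (u r : ℝ) (hr : 0 < r)
    (h : ∀ c ∈ Metric.closedBall (0 : X) r, (g c).re ≤ u) (v : X) : ‖g v‖ ≤ u / r * ‖v‖ := by
  have hu : 0 ≤ u := by simpa using h 0 (Metric.mem_closedBall_self hr.le)
  by_cases hg : g v = 0
  · rw [hg, norm_zero]; positivity
  have hv : v ≠ 0 := fun e => hg (by rw [e, map_zero])
  have hv' : 0 < ‖v‖ := norm_pos_iff.2 hv
  have hg' : 0 < ‖g v‖ := norm_pos_iff.2 hg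
  have := h ((((r / ‖v‖ * ‖g v‖ : ℝ) : ℂ) / g v) • v) (by
    rw [mem_closedBall_zero_iff, norm_smul, norm_div, Complex.norm_real, Real.norm_eq_abs,
      abs_of_pos (by positivity)]
    apply le_of_eq
    field_simp)
  rw [map_smul, smul_eq_mul, div_mul_cancel₀ _ hg, Complex.ofReal_re] at this
  rw [div_mul_eq_mul_div, div_le_iff₀ hv'] at this
  rw [div_mul_eq_mul_div, le_div_iff₀ hr]
  linarith

open BoundedContinuousFunction in
def GG (T : X →L[ℂ] X) (x : X) : Submodule ℂ ((ℕ →ᵇ ℂ) × (X →L[ℂ] ℂ)) where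
  carrier := {g | ∀ n : ℕ, g.1 n = g.2 ((T ^ n) x)}
  add_mem' := by
    intro a b ha hb n
    simp [ha n, hb n]
  zero_mem' := by intro n; simp
  smul_mem' := by
    intro c a ha n
    simp [ha n]

open BoundedContinuousFunction in
theorem GG_closed (T : X →L[ℂ] X) (x : X) :
    IsClosed (GG T x : Set ((ℕ →ᵇ ℂ) × (X →L[ℂ] ℂ))) := by
  have : (GG T x : Set ((ℕ →ᵇ ℂ) × (X →L[ℂ] ℂ))) = ⋂ n : ℕ, {g | g.1 n = g.2 ((T ^ n) x)} := by
    ext g; simp only [mem_iInter]; rfl
  rw [this]
  exact isClosed_iInter (fun n => isClosed_eq (by fun_prop) (by fun_prop))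

open BoundedContinuousFunction in
noncomputable def SS0 (T : X →L[ℂ] X) :
    ((ℕ →ᵇ ℂ) × (X →L[ℂ] ℂ)) →L[ℂ] ((ℕ →ᵇ ℂ) × (X →L[ℂ] ℂ)) :=
  (BoundedContinuousFunction.compContinuousCLM ℂ ℂ ⟨fun n : ℕ => n + 1, continuous_of_discreteTopology⟩).prodMap
    ((ContinuousLinearMap.compL ℂ X X ℂ).flip T)

noncomputable def SS (T : X →L[ℂ] X) (x : X) : GG T x →L[ℂ] GG T x :=
  ((SS0 T).comp (GG T x).subtypeL).codRestrict (GG T x) (by
    intro g n
    have := g.2 (n + 1)
    rw [pow_succ'] at this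
    exact this)

theorem SS_fst (T : X →L[ℂ] X) (x : X) (g : GG T x) (n : ℕ) :
    (SS T x g).1.1 n = g.1.1 (n + 1) := rfl

section abs
variable {Y : Type} [NormedAddCommGroup Y] [NormedSpace ℂ Y]

theorem exists_op (T : X →L[ℂ] X) (x : X) (S : Y →L[ℂ] Y) (b : ℕ → Y →ₗ[ℂ] ℂ)
    (ψ : Y → X →L[ℂ] ℂ) (hb : ∀ g n, b n g = ψ g ((T ^ n) x))
    (hS : ∀ g n, b n (S g) = b (n + 1) g) (y : X)
    (hy : y ∈ Submodule.span ℂ (range (fun n : ℕ => (T ^ n) x))) :
    ∃ P : Y →L[ℂ] Y, Commute P S ∧ ∀ (g : Y) (n : ℕ), b n (P g) = ψ g ((T ^ n) y) := by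
  have hpow : ∀ (m : ℕ) (g : Y) (n : ℕ), b n ((S ^ m) g) = b (n + m) g := by
    intro m g
    induction m with
    | zero => intro n; rfl
    | succ m ih =>
      intro n
      rw [pow_succ']
      change b n (S ((S ^ m) g)) = _
      rw [hS, ih]
      congr 2; ring
  induction hy using Submodule.span_induction with
  | mem y hy =>
    obtain ⟨m, rfl⟩ := hy
    refine ⟨S ^ m, Commute.pow_left rfl m, fun g n => ?_⟩
    rw [hpow, hb, pow_add]; rfl
  | zero => exact ⟨0, Commute.zero_left _, fun g n => by simp⟩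
  | add a b _ _ ha hb =>
    obtain ⟨P, h1, h2⟩ := ha
    obtain ⟨Q, h3, h4⟩ := hb
    refine ⟨P + Q, h1.add_left h3, fun g n => ?_⟩
    rw [map_add, map_add, ← h2, ← h4, ← map_add]; rfl
  | smul c a _ ha =>
    obtain ⟨P, h1, h2⟩ := ha
    refine ⟨c • P, h1.smul_left c, fun g n => ?_⟩
    rw [map_smul, map_smul, ← h2, ← map_smul]; rfl

theorem abs_false [CompleteSpace Y] [Nontrivial Y] (T : X →L[ℂ] X)
    (hT : ∀ (c : ℂ) (φ : X →L[ℂ] ℂ), φ.comp T = c • φ → φ = 0) (x : X)
    (S : Y →L[ℂ] Y) (b : ℕ → Y →ₗ[ℂ] ℂ)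
    (ψ : Y → X →L[ℂ] ℂ) (hb : ∀ g n, b n g = ψ g ((T ^ n) x))
    (hS : ∀ g n, b n (S g) = b (n + 1) g) (K : ℝ) (hK : 0 < K)
    (hup : ∀ g n v, ‖ψ g ((T ^ n) v)‖ ≤ K * ‖g‖ * ‖v‖)
    (hdown : ∀ g (c : ℝ), 0 ≤ c → (∀ n, ‖b n g‖ ≤ c) → ‖g‖ ≤ K * c)
    (hspan : Dense (Submodule.span ℂ (range (fun n : ℕ => (T ^ n) x)) : Set X)) : False := by
  obtain ⟨l, hl⟩ := spectrum.nonempty S
  apply hl
  have hd : Dense ((fun y => l • y - T y) ''
      (Submodule.span ℂ (range (fun n : ℕ => (T ^ n) x)) : Set X)) :=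
    (dense_range T hT l).dense_image (by fun_prop) hspan
  obtain ⟨_, ⟨y, hy, rfl⟩, hyd⟩ := hd.exists_dist_lt x (show 0 < 1 / (2 * K ^ 2) by positivity)
  rw [dist_eq_norm] at hyd
  obtain ⟨P, hP, hP2⟩ := exists_op T x S b ψ hb hS y hy
  set A := algebraMap ℂ (Y →L[ℂ] Y) l - S with hA
  have hAP : Commute A P := by
    rw [hA]
    exact (Algebra.commute_algebraMap_left l P).sub_left hP.symm
  have hE : ‖1 - A * P‖ < 1 := by
    refine lt_of_le_of_lt (b := 1 / 2) ?_ (by norm_num)
    apply ContinuousLinearMap.opNorm_le_bound _ (by norm_num)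
    intro g
    have e1 : ∀ n : ℕ, b n ((1 - A * P) g) = ψ g ((T ^ n) (x - (l • y - T y))) := by
      intro n
      have e2 : (1 - A * P) g = g - (l • P g - S (P g)) := rfl
      rw [e2, map_sub, map_sub, map_smul, hS, hP2, hP2, hb, pow_succ]
      simp only [map_sub, map_smul]
      rfl
    have := hdown ((1 - A * P) g) (K * ‖g‖ * (1 / (2 * K ^ 2))) (by positivity) (by
      intro n
      rw [e1]
      exact (hup g n _).trans (mul_le_mul_of_nonneg_left hyd.le (by positivity)))
    refine this.trans (le_of_eq ?_)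
    field_simp
  have hu : IsUnit (A * P) := by
    have := (Units.oneSub _ hE).isUnit
    simpa using this
  exact (hAP.isUnit_mul_iff.1 hu).1

end abs

noncomputable def bb (T : X →L[ℂ] X) (x : X) (n : ℕ) : GG T x →ₗ[ℂ] ℂ where
  toFun g := g.1.1 n
  map_add' _ _ := rfl
  map_smul' _ _ := rfl

theorem ball_case [CompleteSpace X] (T : X →L[ℂ] X)
    (hT : ∀ (c : ℂ) (φ : X →L[ℂ] ℂ), φ.comp T = c • φ → φ = 0) (x : X)
    (h0 : (0 : X) ∈ interior (closure (convexHull ℝ (range (fun n : ℕ => (T ^ n) x))))) :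
    closure (convexHull ℝ (range (fun n : ℕ => (T ^ n) x))) = univ := by
  by_contra hne
  set C := closure (convexHull ℝ (range (fun n : ℕ => (T ^ n) x))) with hC
  obtain ⟨y0, hy0⟩ := (ne_univ_iff_exists_notMem C).1 hne
  obtain ⟨f, u, h1, h2⟩ := RCLike.geometric_hahn_banach_closed_point (𝕜 := ℂ)
    (convex_convexHull ℝ _).closure isClosed_closure hy0
  rw [mem_interior_iff_mem_nhds, Metric.nhds_basis_closedBall.mem_iff] at h0
  obtain ⟨r, hr, hball⟩ := h0
  have orb : ∀ m : ℕ, (T ^ m) x ∈ C := fun m => subset_closure (subset_convexHull ℝ _ ⟨m, rfl⟩)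
  have key : ∀ (g : X →L[ℂ] ℂ) (u : ℝ), (∀ m : ℕ, (g ((T ^ m) x)).re ≤ u) →
      ∀ (n : ℕ) (v : X), ‖g ((T ^ n) v)‖ ≤ u / r * ‖v‖ := by
    intro g u hg n v
    apply norm_le_of_re (g.comp (T ^ n)) u r hr
    intro c hc
    apply re_le T x (g.comp (T ^ n)) u _ c (hball hc)
    intro m
    have := hg (n + m)
    rw [pow_add] at this
    exact this
  have key2 : ∀ (g : GG T x) (n : ℕ) (v : X), ‖g.1.2 ((T ^ n) v)‖ ≤ ‖g.1.1‖ / r * ‖v‖ := by
    intro g
    apply key
    intro m
    rw [← g.2 m]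
    exact (Complex.re_le_norm _).trans (g.1.1.norm_coe_le_norm m)
  have hf0 : f ≠ 0 := by
    intro e
    have h3 := h1 _ (orb 0)
    rw [e] at h2 h3
    simp at h2 h3
    linarith
  let g0 : GG T x := ⟨(BoundedContinuousFunction.ofNormedAddCommGroupDiscrete
    (fun n : ℕ => f ((T ^ n) x)) (u / r * ‖x‖)
    (fun n => key f u (fun m => (h1 _ (orb m)).le) n x), f), fun n => rfl⟩
  have : Nontrivial (GG T x) := ⟨⟨g0, 0, fun e => hf0 (congrArg (fun g : GG T x => g.1.2) e)⟩⟩
  have : CompleteSpace (GG T x) := (GG_closed T x).completeSpace_coe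
  have hspan : Dense (Submodule.span ℂ (range (fun n : ℕ => (T ^ n) x)) : Set X) := by
    rw [Submodule.dense_iff_topologicalClosure_eq_top]
    apply Submodule.eq_top_of_nonempty_interior'
    refine ⟨0, mem_interior_iff_mem_nhds.2 (mem_of_superset (Metric.closedBall_mem_nhds 0 hr) ?_)⟩
    refine hball.trans (closure_mono (convexHull_min Submodule.subset_span ?_))
    exact ((Submodule.span ℂ _).restrictScalars ℝ).convex
  have k1 : 1 ≤ max 1 r⁻¹ := le_max_left _ _
  have k2 : r⁻¹ ≤ max 1 r⁻¹ := le_max_right _ _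
  refine abs_false (Y := GG T x) T hT x (SS T x) (bb T x) (fun g => g.1.2) (fun g n => g.2 n)
    (fun g n => rfl) (max 1 r⁻¹) (by linarith) ?_ ?_ hspan
  · intro g n v
    refine (key2 g n v).trans (mul_le_mul_of_nonneg_right ?_ (norm_nonneg _))
    have hg1 : ‖g.1.1‖ ≤ ‖g‖ := norm_fst_le g.1
    rw [div_eq_inv_mul]
    exact mul_le_mul k2 hg1 (norm_nonneg _) (by linarith)
  · intro g c hc h
    have b1 : ‖g.1.1‖ ≤ c := (BoundedContinuousFunction.norm_le hc).2 h
    have b2 : ‖g.1.2‖ ≤ ‖g.1.1‖ / r := by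
      apply ContinuousLinearMap.opNorm_le_bound _ (by positivity)
      intro v
      simpa using key2 g 0 v
    change max ‖g.1.1‖ ‖g.1.2‖ ≤ _
    apply max_le
    · nlinarith
    · refine b2.trans ?_
      rw [div_eq_inv_mul]
      exact mul_le_mul k2 b1 (norm_nonneg _) (by linarith)

end main


/-- For every complex Banach space X and bounded operator T whose adjoint has no eigenvalues, and every x, if the closed convex hull of the orbit of x has nonempty interior then it is all of X. -/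
theorem result :
    ∀ (X : Type) [NormedAddCommGroup X] [NormedSpace ℂ X] [CompleteSpace X]
      (T : X →L[ℂ] X),
      (∀ (c : ℂ) (φ : X →L[ℂ] ℂ), φ.comp T = c • φ → φ = 0) →
      ∀ x : X,
        (interior (closure (convexHull ℝ (Set.range (fun n : ℕ => (T ^ n) x))))).Nonempty →
        closure (convexHull ℝ (Set.range (fun n : ℕ => (T ^ n) x))) = Set.univ := by
  intro X _ _ _ T hT x hne
  by_cases h0 : (0 : X) ∈ interior (closure (convexHull ℝ (range (fun n : ℕ => (T ^ n) x))))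
  · exact ball_case T hT x h0
  exfalso
  set C := closure (convexHull ℝ (range (fun n : ℕ => (T ^ n) x))) with hC
  have hCc : Convex ℝ C := (convex_convexHull ℝ _).closure
  obtain ⟨f, hf⟩ := RCLike.geometric_hahn_banach_open_point (𝕜 := ℂ) hCc.interior
    isOpen_interior h0
  simp only [map_zero] at hf
  have orb : ∀ m : ℕ, (T ^ m) x ∈ C := fun m => subset_closure (subset_convexHull ℝ _ ⟨m, rfl⟩)
  have hf2 : ∀ c ∈ C, (f c).re ≤ 0 := by
    have h1 : closure (interior C) ⊆ {c | (f c).re ≤ 0} :=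
      closure_minimal (fun c hc => (hf c hc).le) (isClosed_le (by fun_prop) continuous_const)
    rw [hCc.closure_interior_eq_closure_of_nonempty_interior hne] at h1
    exact fun c hc => h1 (subset_closure hc)
  set G : Set X := {y | ∀ g : X →L[ℂ] ℂ, (∀ m : ℕ, (g ((T ^ m) x)).re ≤ 0) → (g y).re ≤ 0} with hG
  have hCG : C ⊆ G := fun c hc g hg => re_le T x g 0 hg c hc
  refine cone_false G (T.restrictScalars ℝ) ?_ ?_ ?_ ?_ (hne.mono (interior_mono hCG)) ?_ ?_
  · intro a ha b hb g hg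
    rw [map_add, Complex.add_re]
    linarith [ha g hg, hb g hg]
  · intro t ht a ha g hg
    rw [g.map_smul_of_tower, Complex.smul_re, smul_eq_mul]
    exact mul_nonpos_of_nonneg_of_nonpos ht (ha g hg)
  · have : G = ⋂ g : X →L[ℂ] ℂ, ⋂ _ : (∀ m : ℕ, (g ((T ^ m) x)).re ≤ 0), {y | (g y).re ≤ 0} := by
      ext y; simp only [mem_iInter]; rfl
    rw [this]
    exact isClosed_iInter (fun g => isClosed_iInter
      (fun _ => isClosed_le (by fun_prop) continuous_const))
  · intro a ha g hg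
    apply ha (g.comp T)
    intro m
    have := hg (m + 1)
    rw [pow_succ'] at this
    exact this
  · intro h
    rw [mem_interior_iff_mem_nhds, Metric.nhds_basis_closedBall.mem_iff] at h
    obtain ⟨r, hr, hball⟩ := h
    obtain ⟨c, hc⟩ := hne
    have h1 := norm_le_of_re f 0 r hr (fun v hv => hball hv f (fun m => hf2 _ (orb m))) c
    have h2 : f c = 0 := by simpa using h1
    have h3 := hf c hc
    rw [h2] at h3
    simp at h3
  · intro μ
    have := dense_range T hT (μ : ℂ)
    simpa using this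

end Pool.Agent.S06207
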