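import Pool.Statements.S06219

set_option autoImplicit false
open scoped InnerProductSpace
open Pool Pool.MP_cfa8a6_an

namespace Pool.Agent.S06219

open Filter Topology NormedSpace Complex

abbrev H : Type := lp (fun _ : ℕ => ℂ) 2

lemma hs (f : H) : HasSum (fun i => ‖f i‖ ^ 2) (‖f‖ ^ 2) := by
  simpa using lp.hasSum_norm (by norm_num) f

lemma bd (σ : ℕ ≃ ℕ) {a : ℕ → ℂ} {C : ℝ} (h : ∀ i, ‖a i‖ ≤ C) (x : H) (s : Finset ℕ) :
    ∑ i ∈ s, ‖a i * x (σ i)‖ ^ (2 : ENNReal).toReal ≤ (C * ‖x‖) ^ (2 : ENNReal).toReal := by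
  simp only [ENNReal.toReal_ofNat, Real.rpow_ofNat, mul_pow, norm_mul]
  refine le_trans (Finset.sum_le_sum fun i _ => ?_) (sum_le_hasSum s
    (fun i _ => mul_nonneg (sq_nonneg _) (sq_nonneg _))
    ((σ.hasSum_iff.mpr (hs x)).mul_left (C ^ 2)))
  have := h i
  simp only; gcongr

noncomputable def W (σ : ℕ ≃ ℕ) (a : ℕ → ℂ) (C : ℝ) (h : ∀ i, ‖a i‖ ≤ C) : H →L[ℂ] H :=
  LinearMap.mkContinuous
    { toFun := fun x => ⟨fun i => a i * x (σ i), memℓp_gen' (bd σ h x)⟩
      map_add' := fun x y => lp.ext (funext fun i => by simp [mul_add])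
      map_smul' := fun c x => lp.ext (funext fun i => by simp [mul_left_comm]) } C
    fun x => lp.norm_le_of_forall_sum_le (by norm_num)
      (mul_nonneg ((norm_nonneg _).trans (h 0)) (norm_nonneg x)) (bd σ h x)

lemma W_apply (σ : ℕ ≃ ℕ) (a : ℕ → ℂ) (C : ℝ) (h : ∀ i, ‖a i‖ ≤ C) (x : H) (i : ℕ) :
    W σ a C h x i = a i * x (σ i) := rfl

lemma W_norm (σ : ℕ ≃ ℕ) (a : ℕ → ℂ) (C : ℝ) (h : ∀ i, ‖a i‖ ≤ C) : ‖W σ a C h‖ ≤ C :=
  LinearMap.mkContinuous_norm_le _ ((norm_nonneg _).trans (h 0)) _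

def fl (k : ℕ) : ℕ ≃ ℕ := Function.Involutive.toPerm (fun i => i ^^^ 2 ^ k) fun i => by
  simp

lemma fl_apply (k i : ℕ) : fl k i = i ^^^ 2 ^ k := rfl

def a (q : ℂ) (k i : ℕ) : ℂ := if i.testBit k then 1 - q else q

lemma a_le (q : ℂ) (k i : ℕ) : ‖a q k i‖ ≤ 1 + ‖q‖ := by
  unfold a; split_ifs
  · simpa using norm_sub_le 1 q
  · linarith

noncomputable def Q (q : ℂ) (k : ℕ) : H →L[ℂ] H :=
  W (Equiv.refl ℕ) (a q k) _ (a_le q k) + W (fl k) (fun i => a q k (fl k i)) _ fun _ => a_le q k _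

lemma Q_apply (q : ℂ) (k : ℕ) (x : H) (i : ℕ) :
    Q q k x i = a q k i * x i + a q k (i ^^^ 2 ^ k) * x (i ^^^ 2 ^ k) := rfl

lemma Q_norm (q : ℂ) (k : ℕ) : ‖Q q k‖ ≤ 2 * (1 + ‖q‖) :=
  (norm_add_le _ _).trans ((add_le_add (W_norm _ _ _ _) (W_norm _ _ _ _)).trans (by linarith))

lemma Q_idem (q : ℂ) (k : ℕ) : Q q k * Q q k = Q q k := by
  ext x i
  simp only [mul_apply_eq_comp, Q_apply, Nat.xor_assoc, Nat.xor_self, Nat.xor_zero, a,
    Nat.testBit_xor, Nat.testBit_two_pow_self]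
  cases i.testBit k <;> simp <;> ring

lemma Q_comm (p q : ℂ) {j k : ℕ} (h : j ≠ k) : Commute (Q p j) (Q q k) := by
  ext x i
  simp only [mul_apply_eq_comp, Q_apply, a, Nat.testBit_xor,
    Nat.testBit_two_pow_of_ne h, Nat.testBit_two_pow_of_ne h.symm, Bool.xor_false, Bool.false_xor,
    Nat.xor_assoc, Nat.xor_comm (2 ^ j) (2 ^ k)]
  ring

noncomputable def E (k : ℕ) : H →L[ℂ] H :=
  W (Equiv.refl ℕ) (fun i => if i.testBit k then 1 else 0) 1 fun i => by split_ifs <;> simp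

lemma E_apply (k : ℕ) (x : H) (i : ℕ) : E k x i = (if i.testBit k then 1 else 0) * x i := rfl

lemma E_lim (x : H) : Tendsto (fun k => E k x) atTop (𝓝 0) := by
  have := tendsto_tsum_of_dominated_convergence (𝓕 := atTop) (f := fun k i => ‖E k x i‖ ^ 2)
    (g := fun _ => (0 : ℝ)) (hs x).summable (fun i => by
      refine tendsto_const_nhds.congr' (eventually_atTop.mpr ⟨i, fun k hk => ?_⟩)
      simp [E_apply, Nat.testBit_lt_two_pow (Nat.lt_two_pow_self.trans_le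
        (Nat.pow_le_pow_right two_pos hk))]) (Eventually.of_forall fun k i => by
      rw [E_apply]; split_ifs <;> simp)
  simp only [(hs _).tsum_eq, tsum_zero] at this
  rw [tendsto_zero_iff_norm_tendsto_zero]
  simpa using this.sqrt

lemma Q_lim (q : ℂ) (x : H) : Tendsto (fun k => ⟪x, Q q k x⟫_ℂ) atTop (𝓝 (q * ⟪x, x⟫_ℂ)) := by
  have e : ∀ k, ⟪x, Q q k x⟫_ℂ = q * ⟪x - E k x, x - E k x⟫_ℂ +
      (⟪x - E k x, Q q k (E k x)⟫_ℂ + ⟪E k x, Q q k x⟫_ℂ) := by
    intro k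
    have : ⟪x - E k x, Q q k (x - E k x)⟫_ℂ = q * ⟪x - E k x, x - E k x⟫_ℂ := by
      rw [← inner_smul_right, lp.inner_eq_tsum, lp.inner_eq_tsum]
      refine tsum_congr fun i => ?_
      simp only [Q_apply, lp.coeFn_sub, lp.coeFn_smul, Pi.sub_apply, Pi.smul_apply, E_apply, a,
        Nat.testBit_xor, Nat.testBit_two_pow_self]
      cases i.testBit k <;> simp
    rw [← this, map_sub, inner_sub_right, inner_sub_left]; ring
  have h0 : Tendsto (fun k => x - E k x) atTop (𝓝 x) := by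
    simpa using (tendsto_const_nhds (x := x)).sub (E_lim x)
  have hQ : ∀ k (y : H), ‖Q q k y‖ ≤ 2 * (1 + ‖q‖) * ‖y‖ := fun k y =>
    (Q q k).le_of_opNorm_le (Q_norm q k) y
  have hn := (E_lim x).norm
  have h1 : Tendsto (fun k => ⟪x - E k x, Q q k (E k x)⟫_ℂ) atTop (𝓝 0) :=
    squeeze_zero_norm (fun k => (norm_inner_le_norm _ _).trans
      (mul_le_mul_of_nonneg_left (hQ k _) (norm_nonneg _)))
      (by simpa using h0.norm.mul (hn.const_mul (2 * (1 + ‖q‖))))
  have h2 : Tendsto (fun k => ⟪E k x, Q q k x⟫_ℂ) atTop (𝓝 0) :=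
    squeeze_zero_norm (fun k => (norm_inner_le_norm _ _).trans
      (mul_le_mul_of_nonneg_left (hQ k _) (norm_nonneg _)))
      (by simpa using hn.mul_const (2 * (1 + ‖q‖) * ‖x‖))
  simp only [e]
  simpa using ((h0.inner h0).const_mul q).add (h1.add h2)

lemma exp_idem {P : H →L[ℂ] H} (h : P * P = P) (z : ℂ) :
    exp (z • P) = 1 + (cexp z - 1) • P := by
  have h1 := (NormedSpace.expSeries_div_hasSum_exp z).smul_const P
  have h2 := (hasSum_ite_eq 0 (1 - P)).add h1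
  rw [exp_eq_tsum ℂ, Complex.exp_eq_exp_ℂ, sub_smul, one_smul, add_sub, add_sub_right_comm]
  refine Eq.trans (tsum_congr fun n => ?_) (h2.tsum_eq.trans (by abel))
  rcases n with _ | n
  · simp
  · rw [smul_pow, IsIdempotentElem.pow_succ_eq n h, smul_smul, if_neg n.succ_ne_zero, zero_add,
      div_eq_inv_mul]

noncomputable def qq (k : ℕ) : ℂ := (1 - TopologicalSpace.denseSeq ℂ k.unpair.1) / 2

noncomputable def m (k : ℕ) : ℕ := ∏ i ∈ Finset.range (k + 1), 2 * (2 ^ i * ⌈2 * (1 + ‖qq i‖)⌉₊)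

lemma c_pos (i : ℕ) : 0 < ⌈2 * (1 + ‖qq i‖)⌉₊ := Nat.ceil_pos.mpr (by positivity)

lemma m_pos (k : ℕ) : 0 < m k := Finset.prod_pos fun i _ => by have := c_pos i; positivity

lemma m_dvd {j k : ℕ} (h : j < k) : m j * (2 * (2 ^ k * ⌈2 * (1 + ‖qq k‖)⌉₊)) ∣ m k := by
  rw [m, m, Finset.prod_range_succ _ k]
  exact mul_dvd_mul_right (Finset.prod_dvd_prod_of_subset _ _ _
    (Finset.range_subset_range.mpr h)) _

noncomputable def A (j : ℕ) : H →L[ℂ] H := (Real.pi * I / m j : ℂ) • Q (qq j) j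

lemma A_le (n j : ℕ) (h : n * (2 ^ j * ⌈2 * (1 + ‖qq j‖)⌉₊) ≤ m j) :
    ‖n • A j‖ ≤ Real.pi * (1 / 2) ^ j := by
  have h1 : (n : ℝ) * (2 ^ j * ⌈2 * (1 + ‖qq j‖)⌉₊) ≤ m j := by exact_mod_cast h
  have h2 := (Q_norm (qq j) j).trans (Nat.le_ceil _)
  have h3 : (0 : ℝ) < m j := by exact_mod_cast m_pos j
  rw [← Nat.cast_smul_eq_nsmul ℂ, A, norm_smul, norm_smul, norm_div, norm_mul, norm_I, norm_real,
    norm_natCast, norm_natCast, Real.norm_of_nonneg Real.pi_pos.le, mul_one, one_div, inv_pow,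
    ← div_eq_mul_inv, le_div_iff₀ (by positivity)]
  calc _ = Real.pi / m j * (n * (2 ^ j * ‖Q (qq j) j‖)) := by ring
    _ ≤ Real.pi / m j * m j := by
      have := Real.pi_pos
      gcongr; exact le_trans (by gcongr) h1
    _ = _ := by field_simp

lemma A_sum : Summable A := by
  refine Summable.of_norm_bounded (summable_geometric_two.mul_left Real.pi) fun j => ?_
  simpa using A_le 1 j (Nat.le_of_dvd (m_pos j) (by
    rw [m, Finset.prod_range_succ, one_mul]; exact (dvd_mul_left _ _).mul_left _))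

lemma A_comm (j k : ℕ) : Commute (A j) (A k) := by
  rcases eq_or_ne j k with rfl | h
  · exact Commute.refl _
  · exact ((Q_comm _ _ h).smul_left _).smul_right _

noncomputable def R (k : ℕ) : H →L[ℂ] H := ∑' j, m k • A (j + (k + 1))

lemma R_lim : Tendsto R atTop (𝓝 0) := by
  refine squeeze_zero_norm (fun k => tsum_of_norm_bounded
    ((hasSum_geometric_two.mul_right ((1 / 2) ^ (k + 1))).mul_left Real.pi) fun j => ?_) ?_
  · rw [← pow_add]
    refine A_le _ _ (le_trans ?_ (Nat.le_of_dvd (m_pos _) (m_dvd (j := k) (by omega))))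
    exact Nat.mul_le_mul_left _ (Nat.le_mul_of_pos_left _ two_pos)
  · have := ((tendsto_pow_atTop_nhds_zero_of_lt_one (r := (1 / 2 : ℝ)) (by norm_num)
      (by norm_num)).comp (tendsto_add_atTop_nat 1)).const_mul 2 |>.const_mul Real.pi
    simpa using this

lemma pow_eq (k : ℕ) : exp (∑' j, A j) ^ m k = (1 - (2 : ℂ) • Q (qq k) k) * exp (R k) := by
  let +nondep : NormedAlgebra ℚ (H →L[ℂ] H) := .restrictScalars ℚ ℂ _
  have m0 : ∀ j, (m j : ℂ) ≠ 0 := fun j => by exact_mod_cast (m_pos j).ne'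
  have h1 : ∀ n ≤ k, ∀ B : H →L[ℂ] H, (∀ j, Commute (A j) B) →
      exp (m k • ∑ j ∈ Finset.range n, A j + B) = exp B := by
    intro n hn
    induction n with
    | zero => simp
    | succ n ih =>
      intro B hB
      rw [Finset.sum_range_succ, smul_add, add_assoc, ih (by omega) _ fun j =>
        ((A_comm j n).smul_right _).add_right (hB j), exp_add_of_commute ((hB n).smul_left _)]
      obtain ⟨c, hc⟩ := (mul_dvd_mul_left _ (dvd_mul_right 2 _)).trans (m_dvd (j := n) hn)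
      have : (m k : ℂ) * (Real.pi * I / m n) = (c : ℕ) * (2 * Real.pi * I) := by
        rw [hc]; have := m0 n; push_cast; field_simp
      rw [← Nat.cast_smul_eq_nsmul ℂ, A, smul_smul, exp_idem (Q_idem _ _), this,
        exp_nat_mul_two_pi_mul_I]
      simp
  have hR : ∀ j, Commute (A j) (R k) := fun j =>
    Commute.tsum_right _ fun i => (A_comm _ _).smul_right _
  have hS := (summable_nat_add_iff (k + 1)).mpr A_sum
  rw [← NormedSpace.exp_nsmul, ← A_sum.sum_add_tsum_nat_add (k + 1), Finset.sum_range_succ, smul_add, smul_add,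
    ← hS.tsum_const_smul, add_assoc, ← R, h1 k le_rfl _ fun j =>
      ((A_comm j k).smul_right _).add_right (hR j), exp_add_of_commute ((hR k).smul_left _),
    ← Nat.cast_smul_eq_nsmul ℂ, A, smul_smul, exp_idem (Q_idem _ _), mul_div_cancel₀ _ (m0 k),
    exp_pi_mul_I, sub_eq_add_neg (1 : H →L[ℂ] H), ← neg_smul]
  norm_num


/-- There is a bounded linear operator T on complex ℓ²(ℕ) such that, for every unit vector x, the set of numbers ⟨Tⁿx, x⟩ over n in ℕ is dense in ℂ. -/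
theorem result :
    ∃ T : lp (fun _ : ℕ => ℂ) 2 →L[ℂ] lp (fun _ : ℕ => ℂ) 2,
      ∀ x : lp (fun _ : ℕ => ℂ) 2, ‖x‖ = 1 →
        Dense (Set.range (fun n : ℕ => ⟪x, (T ^ n) x⟫_ℂ)) := by
  let +nondep : NormedAlgebra ℚ (H →L[ℂ] H) := .restrictScalars ℚ ℂ _
  refine ⟨exp (∑' j, A j), fun x hx c => ?_⟩
  refine (TopologicalSpace.denseRange_denseSeq ℂ).induction_on c isClosed_closure fun j => ?_
  have hk : Tendsto (fun l => Nat.pair j l) atTop atTop :=
    tendsto_atTop_mono (fun l => Nat.right_le_pair j l) tendsto_id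
  refine mem_closure_of_tendsto (f := fun l => ⟪x, (exp (∑' j, A j) ^ m (Nat.pair j l)) x⟫_ℂ)
    (b := atTop) ?_ (Eventually.of_forall fun l => ⟨_, rfl⟩)
  set q := (1 - TopologicalSpace.denseSeq ℂ j) / 2 with hq
  have e : ∀ l, qq (Nat.pair j l) = q := fun l => by simp [qq, hq]
  have h0 : Tendsto (fun k => exp (R k) x - x) atTop (𝓝 0) := by
    have := ((ContinuousLinearMap.apply ℂ H x).continuous.tendsto _).comp
      ((exp_continuous.tendsto _).comp R_lim)
    simpa using this.sub_const x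
  have h1 : Tendsto (fun k => ⟪x, Q q k (exp (R k) x - x)⟫_ℂ) atTop (𝓝 0) :=
    squeeze_zero_norm (fun k => (norm_inner_le_norm _ _).trans
      (mul_le_mul_of_nonneg_left ((Q q k).le_of_opNorm_le (Q_norm q k) _) (norm_nonneg _)))
      (by simpa using (h0.norm.const_mul (2 * (1 + ‖q‖))).const_mul ‖x‖)
  have h2 := ((((tendsto_const_nhds (x := x)).inner (𝕜 := ℂ) h0).add_const ⟪x, x⟫_ℂ).sub
    ((h1.add (Q_lim q x)).const_mul 2)).comp hk
  have xx : ⟪x, x⟫_ℂ = 1 := by rw [inner_self_eq_norm_sq_to_K, hx]; simp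
  convert h2 using 2 with l
  · simp [pow_eq, e, inner_sub_right]
  · rw [xx, hq]; simp; ring

end Pool.Agent.S06219
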