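import Pool.Statements.S06250
import Pool.Agent.H22.Smale3

set_option autoImplicit false
open Pool Pool.MP_d219ff_an

namespace Pool.Agent.S06250
open Pool.Agent.H22.Smale

/-- The negation of the preceding statement: Every surjunctive Smale system is conjugate to the disjoint union of a non-wandering Smale system and a countable subshift of finite type whose Cantor-Bendixson rank is at most 2 (second derived set equals third). -/
theorem result :
    ¬ (∀ (X : Type) [TopologicalSpace X] [CompactSpace X] (f : X ≃ₜ X),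
      (∃ (d : X → X → ℝ) (ε lam : ℝ) (br : X → X → X),
        (∀ x y, d x y = d y x) ∧ (∀ x y, d x y = 0 ↔ x = y) ∧
        (∀ x y z, d x z ≤ d x y + d y z) ∧
        (∀ U : Set X, IsOpen U ↔ ∀ x ∈ U, ∃ r > 0, ∀ y, d x y < r → y ∈ U) ∧
        0 < ε ∧ 0 < lam ∧ lam < 1 ∧
        ContinuousOn (fun p : X × X => br p.1 p.2) {p | d p.1 p.2 ≤ ε} ∧
        (∀ x, br x x = x) ∧
        (∀ x y z, d y z ≤ ε → d x (br y z) ≤ ε → d x z ≤ ε → br x (br y z) = br x z) ∧
        (∀ x y z, d x y ≤ ε → d (br x y) z ≤ ε → d x z ≤ ε → br (br x y) z = br x z) ∧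
        (∀ x y, d x y ≤ ε → d (f x) (f y) ≤ ε → f (br x y) = br (f x) (f y)) ∧
        (∀ x y z, d x y ≤ ε → br y x = x → d x z ≤ ε → br z x = x →
          d (f y) (f z) ≤ lam * d y z) ∧
        (∀ x y z, d x y ≤ ε → br x y = x → d x z ≤ ε → br x z = x →
          d (f.symm y) (f.symm z) ≤ lam * d y z)) →
      (∀ τ : X → X, Continuous τ → (∀ x, τ (f x) = f (τ x)) →
        Function.Injective τ → Function.Surjective τ) →
      ∃ (Y : Type) (_ : TopologicalSpace Y) (_ : CompactSpace Y) (g : Y ≃ₜ Y),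
        (∃ (d : Y → Y → ℝ) (ε lam : ℝ) (br : Y → Y → Y),
          (∀ x y, d x y = d y x) ∧ (∀ x y, d x y = 0 ↔ x = y) ∧
          (∀ x y z, d x z ≤ d x y + d y z) ∧
          (∀ U : Set Y, IsOpen U ↔ ∀ x ∈ U, ∃ r > 0, ∀ y, d x y < r → y ∈ U) ∧
          0 < ε ∧ 0 < lam ∧ lam < 1 ∧
          ContinuousOn (fun p : Y × Y => br p.1 p.2) {p | d p.1 p.2 ≤ ε} ∧
          (∀ x, br x x = x) ∧
          (∀ x y z, d y z ≤ ε → d x (br y z) ≤ ε → d x z ≤ ε → br x (br y z) = br x z) ∧
          (∀ x y z, d x y ≤ ε → d (br x y) z ≤ ε → d x z ≤ ε → br (br x y) z = br x z) ∧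
          (∀ x y, d x y ≤ ε → d (g x) (g y) ≤ ε → g (br x y) = br (g x) (g y)) ∧
          (∀ x y z, d x y ≤ ε → br y x = x → d x z ≤ ε → br z x = x →
            d (g y) (g z) ≤ lam * d y z) ∧
          (∀ x y z, d x y ≤ ε → br x y = x → d x z ≤ ε → br x z = x →
            d (g.symm y) (g.symm z) ≤ lam * d y z)) ∧
        (∀ U : Set Y, IsOpen U → U.Nonempty →
          ∃ n : ℕ, 1 ≤ n ∧ ((⇑g)^[n] '' U ∩ U).Nonempty) ∧
        ∃ (A : Type) (_ : Fintype A) (_ : TopologicalSpace A) (_ : DiscreteTopology A)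
          (F : Finset (List A)) (Z : Set (ℤ → A)),
          Z = {x : ℤ → A | ∀ w ∈ F, ∀ i : ℤ, ∃ j : Fin w.length, x (i + (j : ℤ)) ≠ w.get j} ∧
          Z.Countable ∧
          derivedSet (derivedSet Z) = derivedSet (derivedSet (derivedSet Z)) ∧
          ∃ σZ : Z → Z, (∀ z : Z, ((σZ z : Z) : ℤ → A) = fun i => (z : ℤ → A) (i + 1)) ∧
            ∃ h : X ≃ₜ (Y ⊕ Z), ∀ x : X, h (f x) = Sum.map (⇑g) σZ (h x)) := by
  intro H
  obtain ⟨Y, _, _, g, -, hnw, A, _, _, _, F, W, -, hW, -, σ, -, h, hh⟩ := H (Z × T) f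
    ⟨dist, 1 / 16, 8 / 9, fun p q => (bz p.1 q.1, bt p.2 q.2), dist_comm, fun _ _ => dist_eq_zero,
      dist_triangle, fun U => by
        simp only [Metric.isOpen_iff, Set.subset_def, Metric.mem_ball', gt_iff_lt],
      by norm_num, by norm_num, by norm_num,
      (bz_cont.comp (f := fun p : (Z × T) × (Z × T) => (p.1.1, p.2.1)) (by fun_prop)).continuousOn.prodMk
        (bt_cont.comp (f := fun p : (Z × T) × (Z × T) => (p.1.2, p.2.2)) (by fun_prop)
          fun p hp => le_trans (le_max_right (dist p.1.1 p.2.1) (dist p.1.2 p.2.2)) hp),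
      fun x => Prod.ext (bz_self _) (bt_self _),
      fun x y z h1 _ h3 => Prod.ext (bz_r _ _ _ (max_le_iff.1 h1).1 (max_le_iff.1 h3).1)
        (bt_r _ _ _ (max_le_iff.1 h1).2 (max_le_iff.1 h3).2),
      fun x y z h1 _ h3 => Prod.ext (bz_l _ _ _ (max_le_iff.1 h1).1)
        (bt_l _ _ _ (max_le_iff.1 h1).2 (max_le_iff.1 h3).2),
      fun x y h1 h2 => Prod.ext (bz_s _ _ (max_le_iff.1 h1).1 (max_le_iff.1 h2).1)
        (bt_a _ _ (max_le_iff.1 h1).2),
      fun x y z h1 e1 h2 e2 => max_le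
        ((bz_st _ _ _ (max_le_iff.1 h1).1 (congrArg Prod.fst e1) (max_le_iff.1 h2).1
          (congrArg Prod.fst e2)).trans (mul_le_mul_of_nonneg_left (le_max_left _ _) (by norm_num)))
        ((bt_s _ _ _ (max_le_iff.1 h1).2 (congrArg Prod.snd e1) (max_le_iff.1 h2).2
          (congrArg Prod.snd e2)).trans (mul_le_mul_of_nonneg_left (le_max_right _ _) (by norm_num))),
      fun x y z h1 e1 h2 e2 => max_le
        ((bz_un _ _ _ (max_le_iff.1 h1).1 (congrArg Prod.fst e1) (max_le_iff.1 h2).1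
          (congrArg Prod.fst e2)).trans (mul_le_mul_of_nonneg_left (le_max_left _ _) (by norm_num)))
        ((bt_u _ _ _ (max_le_iff.1 h1).2 (congrArg Prod.snd e1) (max_le_iff.1 h2).2
          (congrArg Prod.snd e2)).trans (mul_le_mul_of_nonneg_left (le_max_right _ _) (by norm_num)))⟩
    surjunctive
  have hW' := hW.to_subtype
  obtain ⟨y, p, hp⟩ : ∃ y p, h (.orb 0, y) = .inl p := by
    by_contra hn
    have : ∀ y, ∃ w, h (.orb 0, y) = .inr w := fun y => by
      rcases h' : h (.orb 0, y) with p | w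
      · exact absurd ⟨y, p, h'⟩ hn
      · exact ⟨w, rfl⟩
    choose w hw using this
    refine unc (Function.Injective.countable (f := w) fun y y' e => ?_)
    exact congrArg Prod.snd (h.injective ((hw y).trans (e ▸ (hw y').symm)))
  have hs : Function.Semiconj h f (Sum.map g σ) := hh
  have hl : Function.Semiconj Sum.inl g (Sum.map g σ) := fun _ => rfl
  obtain ⟨n, hn, _, ⟨q, hq, rfl⟩, hq'⟩ := hnw ((fun q => h.symm (.inl q)) ⁻¹' {p | p.1 = .orb 0})
    (open0.preimage (h.symm.continuous.comp continuous_inl))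
    ⟨p, by show (h.symm (.inl p)).1 = _; rw [← hp, h.symm_apply_apply]⟩
  have e1 : h.symm (.inl (g^[n] q)) = f^[n] (h.symm (.inl q)) := by
    apply h.injective
    rw [h.apply_symm_apply, hs.iterate_right, h.apply_symm_apply, hl.iterate_right]
  have e2 : (h.symm (.inl (g^[n] q))).1 = .orb 0 := hq'
  have e3 : h.symm (.inl q) = (.orb 0, (h.symm (.inl q)).2) := Prod.ext hq rfl
  rw [e1, e3, f_iter] at e2
  simp at e2
  omega

end Pool.Agent.S06250
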