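import Pool.Statements.S06274
import Pool.Agent.H9.Wcr

set_option autoImplicit false
open Filter Topology
open Pool Pool.MP_d4a912_an

namespace Pool.Agent.S06274

/-- The negation of the preceding statement: For every real Banach space X: unit-sphere sequences with norm of x_n+x_m tending to 2 are always weakly Cauchy in X iff the same holds in the bidual X** with w*-Cauchy (tested on X*) in place of weakly Cauchy. -/
theorem result :
    ¬ (∀ (X : Type) [NormedAddCommGroup X] [NormedSpace ℝ X] [CompleteSpace X],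
      (∀ x : ℕ → X, (∀ n, ‖x n‖ = 1) →
        Tendsto (fun p : ℕ × ℕ => ‖x p.1 + x p.2‖) atTop (𝓝 2) →
        ∀ f : X →L[ℝ] ℝ, CauchySeq (fun n => f (x n))) ↔
      (∀ F : ℕ → ((X →L[ℝ] ℝ) →L[ℝ] ℝ), (∀ n, ‖F n‖ = 1) →
        Tendsto (fun p : ℕ × ℕ => ‖F p.1 + F p.2‖) atTop (𝓝 2) →
        ∀ f : X →L[ℝ] ℝ, CauchySeq (fun n => F n f))) := by
  intro h
  open Pool.Agent.H9.Wcr in
  let t : ℕ → ℝ := fun n => if Even n then 0 else 1 / 2
  choose G h1 h2 using fun n => bidual n (t n) (by simp only [t]; split_ifs <;> norm_num)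
    (by simp only [t]; split_ifs <;> norm_num)
  let φ := fun b (hb : |b| ≤ 1) k => (fn 1 b k).mkContinuous 1 (fn_le b hb k)
  have h3 : ∀ b hb k, ‖φ b hb k‖ ≤ 1 := fun b hb k => LinearMap.mkContinuous_norm_le _ zero_le_one _
  have h4 : ∀ n k, n ≤ k → G n (φ 1 (by simp) k) = 1 := fun n k hk =>
    (h2 n _ 1 1 k hk fun _ => rfl).trans (by ring)
  have h5 : ∀ n, 1 ≤ ‖G n‖ := fun n => by
    have := (G n).unit_le_opNorm _ (h3 1 (by simp) n)
    rwa [h4 n n le_rfl, norm_one] at this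
  have h6 : Tendsto (fun n => ‖G n‖⁻¹) atTop (𝓝 1) := by
    simpa using (tendsto_of_tendsto_of_tendsto_of_le_of_le tendsto_const_nhds (by
      simpa using ((tendsto_pow_atTop_nhds_zero_of_lt_one (r := (1 / 2 : ℝ)) (by norm_num)
        (by norm_num)).const_mul 2).const_add 1) h5 h1).inv₀ one_ne_zero
  have h7 : ∀ n, ‖‖G n‖⁻¹ • G n‖ = 1 := fun n => unit (Y := E →L[ℝ] ℝ) (h5 n)
  have h8 := (h E).1 wcr (fun n => ‖G n‖⁻¹ • G n) h7
    (tendsto_of_tendsto_of_tendsto_of_le_of_le (g := fun p : ℕ × ℕ => ‖G p.1‖⁻¹ + ‖G p.2‖⁻¹) (by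
      rw [← prod_atTop_atTop_eq, ← one_add_one_eq_two]
      exact (h6.comp tendsto_fst).add (h6.comp tendsto_snd)) tendsto_const_nhds (fun p => by
        have := (‖G p.1‖⁻¹ • G p.1 + ‖G p.2‖⁻¹ • G p.2).unit_le_opNorm _
          (h3 1 (by simp) (max p.1 p.2))
        refine le_trans ?_ ((le_abs_self _).trans this)
        show _ ≤ _ * G p.1 _ + _ * G p.2 _
        rw [h4 _ _ (le_max_left _ _), h4 _ _ (le_max_right _ _), mul_one, mul_one])
      fun p => (norm_add_le (‖G p.1‖⁻¹ • G p.1) (‖G p.2‖⁻¹ • G p.2)).trans_eq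
        (by rw [h7, h7, one_add_one_eq_two])) (φ 0 (by simp) 0)
  obtain ⟨N, hN⟩ := Metric.cauchySeq_iff.1 h8 (1 / 6) (by norm_num)
  have h9 : ∀ n, G n (φ 0 (by simp) 0) = t n := fun n =>
    (h2 n _ 1 0 n le_rfl fun u => show 1 * u.1 + 0 * _ = _ by simp).trans (by ring)
  have e1 := hN (2 * N + 1) (by omega) (2 * N) (by omega)
  have e2 : 3⁻¹ ≤ ‖G (2 * N + 1)‖⁻¹ := inv_anti₀ (by linarith [h5 (2 * N + 1)]) (by
    linarith [h1 (2 * N + 1), pow_le_one₀ (n := 2 * N + 1) (show (0 : ℝ) ≤ 1 / 2 by norm_num)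
      (by norm_num)])
  change |_ * G _ _ - _ * G _ _| < _ at e1
  rw [h9, h9, show t (2 * N) = 0 by simp [t], show t (2 * N + 1) = 1 / 2 by simp [t]] at e1
  linarith [(abs_lt.1 e1).2]

end Pool.Agent.S06274
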