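import Pool.Statements.S06280
import Pool.Agent.H5.Mono

set_option autoImplicit false
open Pool Pool.MP_d4c9a2_an

namespace Pool.Agent.S06280

/-- exponent matrix of `(x z, x^3, x^2 y^2 z)` -/
def A : Matrix (Fin 3) (Fin 3) ℕ := !![1, 0, 1; 3, 0, 0; 2, 2, 1]

/-- row sums -/
def r (k : ℕ) (i : Fin 3) : ℕ := ∑ j, (A ^ k) i j

theorem r_succ (k : ℕ) (i : Fin 3) : r (k + 1) i = ∑ l, A i l * r k l := by
  simp only [r, pow_succ', Matrix.mul_apply, Finset.mul_sum]
  rw [Finset.sum_comm]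

theorem r0 (i : Fin 3) : r 0 i = 1 := by
  simp [r, Matrix.one_apply]

theorem rx (k : ℕ) : r (k + 1) 0 = r k 0 + r k 2 := by
  rw [r_succ]; simp [A, Fin.sum_univ_three]

theorem ry (k : ℕ) : r (k + 1) 1 = 3 * r k 0 := by
  rw [r_succ]; simp [A, Fin.sum_univ_three]

theorem rz (k : ℕ) : r (k + 1) 2 = 2 * r k 0 + 2 * r k 1 + r k 2 := by
  rw [r_succ]; simp [A, Fin.sum_univ_three]

theorem z_odd (k : ℕ) : r k 2 % 2 = 1 := by
  induction k with
  | zero => rw [r0]
  | succ k ih => rw [rz]; omega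

/-- the complex eigenvalue -/
noncomputable def mu : ℂ := ⟨-1 / 2, Real.sqrt 7 / 2⟩

theorem mu_sq : mu ^ 2 = -mu - 2 := by
  have h : Real.sqrt 7 * Real.sqrt 7 = 7 := Real.mul_self_sqrt (by norm_num)
  apply Complex.ext
  · simp [mu, pow_two]; nlinarith
  · simp [mu, pow_two]; ring

theorem im_pow (k : ℕ) :
    (mu ^ k).im = -(Real.sqrt 7 / 2) * ((r k 0 : ℝ) - r k 1) ∧
    (mu ^ (k + 1)).im = -(Real.sqrt 7 / 2) * ((r k 2 : ℝ) - 2 * r k 0) := by
  induction k with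
  | zero => simp [r0, mu]; ring
  | succ k ih =>
    obtain ⟨h1, h2⟩ := ih
    refine ⟨?_, ?_⟩
    · rw [h2, rx, ry]; push_cast; ring
    · have : mu ^ (k + 1 + 1) = -mu ^ (k + 1) - 2 * mu ^ k := by
        rw [add_assoc, pow_add, one_add_one_eq_two, mu_sq]; ring
      rw [this, Complex.sub_im, Complex.neg_im, h2, rx, rz]
      have h3 : (2 * mu ^ k).im = 2 * (mu ^ k).im := by simp
      rw [h3, h1]; push_cast; ring

theorem im_ne (n : ℕ) (hn : 0 < n) : (mu ^ n).im ≠ 0 := by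
  obtain ⟨k, rfl⟩ := Nat.exists_eq_succ_of_ne_zero hn.ne'
  rw [(im_pow k).2]
  have h7 : 0 < Real.sqrt 7 := Real.sqrt_pos.2 (by norm_num)
  refine mul_ne_zero (neg_ne_zero.2 (by positivity)) ?_
  intro h
  have h1 : (r k 2 : ℝ) = 2 * r k 0 := by linarith
  have h2 : r k 2 = 2 * r k 0 := by exact_mod_cast h1
  have := z_odd k
  omega

open Pool.Agent.H5.Mono in
theorem order_eq (k : ℕ) (hk : 1 ≤ k) :
    sInf {m : ℕ | iteratedFDeriv ℂ m ((mono A)^[k]) 0 ≠ 0} = min (r k 0) (r k 1) := by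
  obtain ⟨k, rfl⟩ := Nat.exists_eq_add_of_le' hk
  rw [mono_iter]
  simp only [order_mem]
  apply IsLeast.csInf_eq
  constructor
  · rcases min_choice (r (k + 1) 0) (r (k + 1) 1) with h | h
    · exact ⟨0, h.symm⟩
    · exact ⟨1, h.symm⟩
  · rintro m ⟨i, hi⟩
    have hi' : r (k + 1) i = m := hi
    rw [← hi']
    fin_cases i
    · exact min_le_left _ _
    · exact min_le_right _ _
    · refine (min_le_left _ _).trans ?_
      change r (k + 1) 0 ≤ r (k + 1) 2
      rw [rx, rz]; omega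

open Pool.Agent.H5.Mono in
theorem W_eq (k : ℕ) : W mu (mu ^ k) = Real.sqrt 7 *
    (((min (r (k + 1) 0) (r (k + 1) 1) : ℕ) : ℝ) - 3 * ((min (r k 0) (r k 1) : ℕ) : ℝ)) := by
  have h7 : 0 < Real.sqrt 7 / 2 := by
    have := Real.sqrt_pos.2 (show (0 : ℝ) < 7 by norm_num)
    positivity
  unfold W
  rw [← pow_succ', (im_pow k).1, (im_pow (k + 1)).1, abs_mul, abs_mul, abs_neg, abs_of_pos h7]
  have hm : ∀ a b : ℕ, ((min a b : ℕ) : ℝ) = ((a : ℝ) + b - |(a : ℝ) - b|) / 2 := by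
    intro a b
    rcases le_total a b with h | h
    · have h' : (a : ℝ) ≤ b := by exact_mod_cast h
      rw [min_eq_left h, abs_of_nonpos (by linarith)]; ring
    · have h' : (b : ℝ) ≤ a := by exact_mod_cast h
      rw [min_eq_right h, abs_of_nonneg (by linarith)]; ring
  rw [hm, hm]
  have h1 : (r (k + 1) 1 : ℝ) = 3 * r k 0 := by rw [ry]; push_cast; ring
  generalize |(r (k + 1) 0 : ℝ) - r (k + 1) 1| = p
  generalize |(r k 0 : ℝ) - r k 1| = q
  rw [h1]; ring

open Pool.Agent.H5.Mono in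
theorem dominant (t : ℂ) (ht : t ≠ 0) : (fderiv ℂ (mono A) (fun _ => t)).det ≠ 0 := by
  let z : Fin 3 → ℂ := fun _ => t
  have h0 := hasFDerivAt_apply (𝕜 := ℂ) (F' := fun _ : Fin 3 => ℂ) 0 z
  have h1 := hasFDerivAt_apply (𝕜 := ℂ) (F' := fun _ : Fin 3 => ℂ) 1 z
  have h2 := hasFDerivAt_apply (𝕜 := ℂ) (F' := fun _ : Fin 3 => ℂ) 2 z
  have hd : HasFDerivAt (mono A) (fderiv ℂ (mono A) z) z :=
    ((mono_contDiff A 1).differentiable one_ne_zero z).hasFDerivAt
  rw [hasFDerivAt_pi'] at hd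
  have e0 : (fun x => mono A x 0) = fun x => x 0 * x 2 := by
    funext x; simp [mono, A, Fin.prod_univ_three]
  have e1 : (fun x => mono A x 1) = fun x => x 0 ^ 3 := by
    funext x; simp [mono, A, Fin.prod_univ_three]
  have e2 : (fun x => mono A x 2) = fun x => x 0 ^ 2 * x 1 ^ 2 * x 2 := by
    funext x; simp [mono, A, Fin.prod_univ_three]
  have d0 := hd 0
  have d1 := hd 1
  have d2 := hd 2
  rw [e0] at d0
  rw [e1] at d1
  rw [e2] at d2
  have u0 := d0.unique (h0.fun_mul h2)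
  have u1 := d1.unique (h0.pow 3)
  have u2 := d2.unique (((h0.pow 2).fun_mul (h1.pow 2)).fun_mul h2)
  intro hdet
  have hk := LinearMap.det_eq_zero_iff_ker_ne_bot.1 hdet
  apply hk
  rw [LinearMap.ker_eq_bot']
  intro v hv
  have hv' : fderiv ℂ (mono A) z v = 0 := hv
  have v0 := congrArg (fun T => T v) u0
  have v1 := congrArg (fun T => T v) u1
  have v2 := congrArg (fun T => T v) u2
  simp [hv', z, ht] at v0 v1 v2
  have w2 : v 2 = 0 := by
    rw [v1] at v0
    simpa [ht] using v0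
  have w1 : v 1 = 0 := by
    rw [v1, w2] at v2
    simpa [ht] using v2
  funext i
  fin_cases i
  · exact v1
  · exact w1
  · exact w2

/-- The negation of the preceding statement: For every holomorphic germ f of ℂⁿ fixing 0 that is non-invertible and dominant, the orders of vanishing c(f^k) of its iterates at 0 eventually satisfy a linear recursion with integer coefficients. -/
theorem result :
    ¬ (∀ (n : ℕ) (f : (Fin n → ℂ) → (Fin n → ℂ)),
      AnalyticAt ℂ f 0 → f 0 = 0 →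
      (fderiv ℂ f 0).det = 0 →
      (∀ ε : ℝ, 0 < ε → ∃ z : Fin n → ℂ, ‖z‖ < ε ∧ (fderiv ℂ f z).det ≠ 0) →
      ∃ (d : ℕ) (a : Fin d → ℤ) (K : ℕ), ∀ k : ℕ, K ≤ k →
        ((sInf {m : ℕ | iteratedFDeriv ℂ m (f^[k + d]) 0 ≠ 0} : ℕ) : ℤ) =
          ∑ i : Fin d, a i *
            ((sInf {m : ℕ | iteratedFDeriv ℂ m (f^[k + (i : ℕ)]) 0 ≠ 0} : ℕ) : ℤ)) := by
  intro h
  have hz : H5.Mono.mono A 0 = 0 := by
    funext i
    fin_cases i <;> simp [H5.Mono.mono, A, Fin.prod_univ_three]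
  have hf0 : fderiv ℂ (H5.Mono.mono A) 0 = 0 := by
    have h1 : iteratedFDeriv ℂ 1 (H5.Mono.mono A) 0 = 0 := by
      by_contra hne
      obtain ⟨i, hi⟩ := (H5.Mono.order_mem A 1).1 hne
      fin_cases i <;> simp [A, Fin.sum_univ_three] at hi
    ext1 v
    have h2 := iteratedFDeriv_one_apply (𝕜 := ℂ) (f := H5.Mono.mono A) (x := 0) (fun _ => v)
    rw [h1] at h2
    exact h2.symm
  obtain ⟨d, a, K, hK⟩ := h 3 (H5.Mono.mono A)
    ((H5.Mono.mono_contDiff A ⊤).contDiffAt.analyticAt) hz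
    (by
      rw [hf0]
      exact LinearMap.det_zero' (Pi.basisFun ℂ (Fin 3)))
    (by
      intro ε hε
      refine ⟨fun _ => ((ε / 2 : ℝ) : ℂ), ?_, dominant _ ?_⟩
      · rw [pi_norm_const, Complex.norm_real, Real.norm_eq_abs, abs_of_pos (half_pos hε)]
        linarith
      · exact_mod_cast (half_pos hε).ne')
  apply H5.Mono.no_rec mu im_ne d (K + 1) (fun i => (a i : ℝ))
  intro k hk
  have hu : ∀ k, K + 1 ≤ k → ((min (r (k + d) 0) (r (k + d) 1) : ℕ) : ℝ) =
      ∑ i : Fin d, (a i : ℝ) * ((min (r (k + i) 0) (r (k + i) 1) : ℕ) : ℝ) := by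
    intro k hk
    have h1 := hK k (by omega)
    rw [order_eq _ (by omega)] at h1
    have h2 : ∀ i : Fin d, sInf {m : ℕ | iteratedFDeriv ℂ m ((H5.Mono.mono A)^[k + (i : ℕ)]) 0 ≠ 0}
        = min (r (k + i) 0) (r (k + i) 1) := fun i => order_eq _ (by omega)
    simp only [h2] at h1
    exact_mod_cast h1
  have h1 := hu k hk
  have h2 := hu (k + 1) (by omega)
  simp only [W_eq]
  rw [show k + d + 1 = k + 1 + d by ring, h1, h2, Finset.mul_sum, ← Finset.sum_sub_distrib,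
    Finset.mul_sum]
  refine Finset.sum_congr rfl fun i _ => ?_
  rw [show k + (i : ℕ) + 1 = k + 1 + i by ring]
  ring

end Pool.Agent.S06280
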