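import Pool.Statements.S06281
import Pool.Agent.H14.PurInf

set_option autoImplicit false
open Pool Pool.MP_d4e048_an

namespace Pool.Agent.S06281

open Pool.Agent.H14.PurInf in
theorem result :
  ∀ (A : Type) [NormedRing A] [NormedAlgebra ℂ A] [CompleteSpace A],
    (∃ x : A, x ≠ 0 ∧ ¬ IsUnit x) →
    (∀ x : A, x ≠ 0 → ∃ a b : A, a * x * b = 1) →
    ((∀ (m : ℕ) (a : Aˣ) (U : (Matrix (Fin (m+1)) (Fin (m+1)) A)ˣ),
        (U : Matrix (Fin (m+1)) (Fin (m+1)) A) =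
          Matrix.diagonal (fun i : Fin (m+1) => if i = 0 then (a : A) else 1) →
        U ∈ connectedComponent (1 : (Matrix (Fin (m+1)) (Fin (m+1)) A)ˣ) →
        a ∈ connectedComponent (1 : Aˣ)) ∧
    (∀ (n : ℕ) (U : (Matrix (Fin (n+1)) (Fin (n+1)) A)ˣ),
      ∃ (k : ℕ) (a : Aˣ)
        (V W : (Matrix (Fin (n+1) ⊕ Fin k) (Fin (n+1) ⊕ Fin k) A)ˣ),
        (V : Matrix (Fin (n+1) ⊕ Fin k) (Fin (n+1) ⊕ Fin k) A) =
          Matrix.fromBlocks (U : Matrix (Fin (n+1)) (Fin (n+1)) A) 0 0 1 ∧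
        (W : Matrix (Fin (n+1) ⊕ Fin k) (Fin (n+1) ⊕ Fin k) A) =
          Matrix.diagonal (fun i : Fin (n+1) ⊕ Fin k =>
            if i = Sum.inl 0 then (a : A) else 1) ∧
        W ∈ connectedComponent V)) := by
  intro A _ _ _ h1 h2
  refine ⟨inj h1 h2, fun n U => ?_⟩
  let V : (Matrix (Fin (n+1) ⊕ Fin 0) (Fin (n+1) ⊕ Fin 0) A)ˣ :=
    ⟨Matrix.fromBlocks U.1 0 0 1, Matrix.fromBlocks (U⁻¹).1 0 0 1,
      by simp [Matrix.fromBlocks_multiply], by simp [Matrix.fromBlocks_multiply]⟩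
  obtain ⟨a, W, h3, h4⟩ := surj h1 h2 (Sum.inl 0) V
  exact ⟨0, a, V, W, rfl, by convert h3, h4⟩

end Pool.Agent.S06281
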