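import Pool.Statements.S06311
import Pool.Agent.H17.CW2

set_option autoImplicit false
open Pool Pool.MP_d691669a_an

namespace Pool.Agent.S06311

/-- For every uncountable compact metrizable space K without Haver's property C, continuous real functions on K with the pointwise topology and with the weak (sup-norm Banach) topology are not homeomorphic. -/
theorem result :
  ∀ (K : Type) [TopologicalSpace K] [CompactSpace K] [TopologicalSpace.MetrizableSpace K],
    Uncountable K →
    ¬ (∀ U : ℕ → Set (Set K), (∀ n, (∀ s ∈ U n, IsOpen s) ∧ ⋃₀ U n = Set.univ) →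
        ∃ V : ℕ → Set (Set K),
          (∀ n, (∀ v ∈ V n, IsOpen v ∧ ∃ u ∈ U n, v ⊆ u) ∧ (V n).PairwiseDisjoint id) ∧
          ⋃ n, ⋃₀ V n = Set.univ) →
    ¬ ∃ e : C(K, ℝ) ≃ C(K, ℝ),
      @Continuous C(K, ℝ) C(K, ℝ)
        (⨅ x : K, TopologicalSpace.induced (fun f : C(K, ℝ) => f x) (inferInstance : TopologicalSpace ℝ))
        (⨅ φ : C(K, ℝ) →L[ℝ] ℝ, TopologicalSpace.induced (fun f : C(K, ℝ) => φ f) (inferInstance : TopologicalSpace ℝ))
        e ∧
      @Continuous C(K, ℝ) C(K, ℝ)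
        (⨅ φ : C(K, ℝ) →L[ℝ] ℝ, TopologicalSpace.induced (fun f : C(K, ℝ) => φ f) (inferInstance : TopologicalSpace ℝ))
        (⨅ x : K, TopologicalSpace.induced (fun f : C(K, ℝ) => f x) (inferInstance : TopologicalSpace ℝ))
        e.symm := by
  rintro K _ _ _ hu - ⟨e, h1, h2⟩
  let a : {f : K → ℝ // Continuous f} → C(K, ℝ) := fun f => ⟨f.1, f.2⟩
  let b : C(K, ℝ) → {f : K → ℝ // Continuous f} := fun f => ⟨f, f.continuous⟩
  have ha : @Continuous _ _ _ (⨅ x : K, TopologicalSpace.induced (fun f : C(K, ℝ) => f x)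
      (inferInstance : TopologicalSpace ℝ)) a :=
    continuous_iInf_rng.2 fun x => continuous_induced_rng.2 (Pool.Agent.H17.TE.ev x)
  have hb : @Continuous _ _ (⨅ x : K, TopologicalSpace.induced (fun f : C(K, ℝ) => f x)
      (inferInstance : TopologicalSpace ℝ)) _ b :=
    continuous_induced_rng.2 (@continuous_pi _ _ _ (_) _ _ fun x =>
      continuous_iInf_dom (i := x) continuous_induced_dom)
  refine @Pool.Agent.H17.CW.CK K K C(K, ℝ) _ _ _ _ _
    (⨅ φ : C(K, ℝ) →L[ℝ] ℝ, TopologicalSpace.induced (fun f : C(K, ℝ) => φ f)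
      (inferInstance : TopologicalSpace ℝ)) (Equiv.refl _) ?_ (fun f => e (a f))
    (fun v => b (e.symm v)) (@Continuous.comp _ _ _ _ (_) (_) _ _ h1 ha)
    (@Continuous.comp _ _ _ (_) (_) _ _ _ hb h2) fun v => e.apply_symm_apply v
  exact @Topology.IsInducing.mk _ _ (_) _ _ (induced_to_pi _).symm

end Pool.Agent.S06311
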