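import Pool.Statements.S06320
import Pool.Agent.H31.HW2

set_option autoImplicit false
open Matrix
open Pool Pool.MP_d71970_an

namespace Pool.Agent.S06320

/-- The negation of the preceding statement: For real p ≥ 1, suppose every pair of normal complex matrices of any size has a matching of their eigenvalues whose l^p distance is at most the Schatten p-norm of their difference. Then p equals 2. -/
theorem result :
    ¬ (∀ p : ℝ, 1 ≤ p →
      (∀ n : ℕ, ∀ α β : Fin n → ℂ,
        ∀ U ∈ Matrix.unitaryGroup (Fin n) ℂ, ∀ V ∈ Matrix.unitaryGroup (Fin n) ℂ,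
          ∃ σ : Equiv.Perm (Fin n),
            (∑ i, ‖α i - β (σ i)‖ ^ p) ^ (1 / p) ≤
              (∑ i, Real.sqrt ((Matrix.isHermitian_conjTranspose_mul_self
                  (U * Matrix.diagonal α * star U - V * Matrix.diagonal β * star V)).eigenvalues i) ^ p)
                ^ (1 / p)) →
      p = 2) := by
  intro h
  have h4 := h 4 (by norm_num) ?_
  · norm_num at h4
  · intro n α β U hU V hV
    obtain ⟨σ, hσ⟩ := Pool.Agent.H31.HW.main4 α β hU hV
    refine ⟨σ, ?_⟩
    have e : ∀ x : ℝ, x ^ (4 : ℝ) = x ^ (4 : ℕ) := fun x => by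
      rw [← Real.rpow_natCast]; norm_num
    simp only [e]
    rw [Pool.Agent.H31.HW.eig_sum]
    apply Real.rpow_le_rpow (by positivity) _ (by norm_num)
    simpa only [star_eq_conjTranspose] using hσ

end Pool.Agent.S06320
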