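import Pool.Statements.S06321
import Pool.Agent.H12.Dent

set_option autoImplicit false
open Pool Pool.MP_d71b46_an

namespace Pool.Agent.S06321


/-- There is a real Banach space with a nonempty closed bounded convex set K that is not dentable (some ε works for every point), while the set of continuous linear functionals attaining their maximum on K is not meagre in the dual. -/
theorem result :
    ∃ (X : Type) (_ : NormedAddCommGroup X) (_ : NormedSpace ℝ X) (_ : CompleteSpace X)
      (K : Set X),
      IsClosed K ∧ Bornology.IsBounded K ∧ Convex ℝ K ∧ K.Nonempty ∧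
      (∃ ε > 0, ∀ x ∈ K, x ∈ closure (convexHull ℝ (K \ Metric.ball x ε))) ∧
      ¬ IsMeagre {f : X →L[ℝ] ℝ | ∃ x ∈ K, ∀ y ∈ K, f y ≤ f x} := by
  obtain ⟨I, _, _, _, hI⟩ := Pool.Agent.H12.Dent.exists_index
  refine ⟨Pool.Agent.H12.Dent.XX I, inferInstance, inferInstance, inferInstance,
    Pool.Agent.H12.Dent.KK I, isClosed_closure, ?_, (convex_convexHull _ _).closure,
    ⟨_, Pool.Agent.H12.Dent.chi_mem (Classical.arbitrary I, 0)⟩,
    ⟨1 / 2, by norm_num, fun x hx => Pool.Agent.H12.Dent.not_dent x hx⟩,
    Pool.Agent.H12.Dent.not_meagre hI⟩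
  refine (Metric.isBounded_closedBall (x := 0) (r := 1)).subset
    (Pool.Agent.H12.Dent.KK_sub Metric.isClosed_closedBall (convex_closedBall _ _) fun u => ?_)
  simpa using Pool.Agent.H12.Dent.norm_chi u

end Pool.Agent.S06321
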