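import Pool.Statements.S06331
import Pool.Agent.H33.Vel4

set_option autoImplicit false
open Filter Topology
open Pool Pool.MP_d75d7a_an

namespace Pool.Agent.S06331

/-- There is a divergent real series, convergent under some rearrangement, such that some real number is a sum of it under a λ-permutation and some real number is not. -/
theorem result :
    ∃ a : ℕ → ℝ,
      (¬ ∃ L : ℝ, Tendsto (fun n => ∑ i ∈ Finset.range n, a i) atTop (𝓝 L)) ∧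
      (∃ τ : Equiv.Perm ℕ, ∃ L : ℝ,
        Tendsto (fun n => ∑ i ∈ Finset.range n, a (τ i)) atTop (𝓝 L)) ∧
      (∃ L : ℝ, ∃ σ : Equiv.Perm ℕ,
        ((∀ b : ℕ → ℝ,
            (∃ M : ℝ, Tendsto (fun n => ∑ i ∈ Finset.range n, b i) atTop (𝓝 M)) →
            ∃ M : ℝ, Tendsto (fun n => ∑ i ∈ Finset.range n, b (σ i)) atTop (𝓝 M)) ∧
          (∃ b : ℕ → ℝ,
            (¬ ∃ M : ℝ, Tendsto (fun n => ∑ i ∈ Finset.range n, b i) atTop (𝓝 M)) ∧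
            ∃ M : ℝ, Tendsto (fun n => ∑ i ∈ Finset.range n, b (σ i)) atTop (𝓝 M))) ∧
        Tendsto (fun n => ∑ i ∈ Finset.range n, a (σ i)) atTop (𝓝 L)) ∧
      (∃ L : ℝ, ¬ ∃ σ : Equiv.Perm ℕ,
        ((∀ b : ℕ → ℝ,
            (∃ M : ℝ, Tendsto (fun n => ∑ i ∈ Finset.range n, b i) atTop (𝓝 M)) →
            ∃ M : ℝ, Tendsto (fun n => ∑ i ∈ Finset.range n, b (σ i)) atTop (𝓝 M)) ∧
          (∃ b : ℕ → ℝ,
            (¬ ∃ M : ℝ, Tendsto (fun n => ∑ i ∈ Finset.range n, b i) atTop (𝓝 M)) ∧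
            ∃ M : ℝ, Tendsto (fun n => ∑ i ∈ Finset.range n, b (σ i)) atTop (𝓝 M))) ∧
        Tendsto (fun n => ∑ i ∈ Finset.range n, a (σ i)) atTop (𝓝 L)) := by
  refine ⟨H33.Vel.BB, H33.Vel.BB_div, ⟨H33.Vel.tau, 0, H33.Vel.BB_tau⟩,
    ⟨0, H33.Vel.tau, ⟨fun b ⟨M, hM⟩ => ⟨M, H33.Vel.tau_pres b M hM⟩,
      H33.Vel.BB, H33.Vel.BB_div, 0, H33.Vel.BB_tau⟩, H33.Vel.BB_tau⟩, 1, ?_⟩
  rintro ⟨σ, ⟨h1, -⟩, h2⟩
  exact one_ne_zero (H33.Vel.only_zero σ h1 1 h2)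

end Pool.Agent.S06331
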