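import Pool.Statements.S06344
import Pool.Agent.H23.Ext2

set_option autoImplicit false
open Pool Pool.MP_d85bbb_an

namespace Pool.Agent.S06344

/-- The negation of the preceding statement: In a real reflexive Banach space with Gâteaux differentiable norm, if every operator from a closed subspace E into any C(K) extends to X with norm at most (1+ε) times its own for every ε>0, then each extends with equal norm. -/
theorem result :
    ¬ (∀ (X : Type) [NormedAddCommGroup X] [NormedSpace ℝ X] [CompleteSpace X],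
      Function.Surjective (NormedSpace.inclusionInDoubleDual ℝ X) →
      (∀ x : X, x ≠ 0 → ∃ f : X →L[ℝ] ℝ,
          ∀ v : X, HasLineDerivAt ℝ (fun y : X => ‖y‖) (f v) x v) →
      ∀ E : Subspace ℝ X, IsClosed (E : Set X) →
        (∀ ε : ℝ, 0 < ε →
          ∀ (K : Type) [TopologicalSpace K] [CompactSpace K] [T2Space K]
            (T : ↥E →L[ℝ] C(K, ℝ)),
            ∃ S : X →L[ℝ] C(K, ℝ), (∀ e : ↥E, S (e : X) = T e) ∧ ‖S‖ ≤ (1 + ε) * ‖T‖) →
        ∀ (K : Type) [TopologicalSpace K] [CompactSpace K] [T2Space K]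
          (T : ↥E →L[ℝ] C(K, ℝ)),
          ∃ S : X →L[ℝ] C(K, ℝ), (∀ e : ↥E, S (e : X) = T e) ∧ ‖S‖ ≤ ‖T‖) := by
  intro h
  obtain ⟨X, i1, i2, i3, h1, h2, E, h3, h4, T, hT⟩ := H23.Ext.counter
  exact hT (h X h1 h2 E h3 h4 (OnePoint ℕ) T)

end Pool.Agent.S06344
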