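import Pool.Statements.S06346

set_option autoImplicit false
open Pool Pool.MP_d890fe_an

namespace Pool.Agent.S06346

theorem result :
    ¬ (∀ (S : Type) [Semigroup S] [Nonempty S],
    (∀ (E : Type) [NormedAddCommGroup E] [NormedSpace ℝ E] [CompleteSpace E]
       (C : Set (WeakDual ℝ E)) (T : S → WeakDual ℝ E → WeakDual ℝ E),
       C.Nonempty → Convex ℝ C → IsCompact C →
       (∃ D : Set (WeakDual ℝ E), D.Countable ∧ D ⊆ C ∧
          ∀ x ∈ C, ∀ ε : ℝ, 0 < ε → ∃ d ∈ D, ∀ e : E, |x e - d e| ≤ ε * ‖e‖) →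
       (∀ s : S, Set.MapsTo (T s) C C) →
       (∀ s t : S, ∀ x ∈ C, T (s * t) x = T s (T t x)) →
       (∀ s : S, ∀ x ∈ C, ∀ y ∈ C, ∀ r : ℝ,
          (∀ e : E, |x e - y e| ≤ r * ‖e‖) →
          ∀ e : E, |T s x e - T s y e| ≤ r * ‖e‖) →
       (∀ s : S, ContinuousOn (T s) C) →
       ∃ x ∈ C, ∀ s : S, T s x = x) →
    ∃ m : lp (fun _ : S => ℝ) ⊤ →L[ℝ] ℝ,
      m 1 = 1 ∧
      (∀ g : lp (fun _ : S => ℝ) ⊤, (∀ t : S, 0 ≤ g t) → 0 ≤ m g) ∧
      ∀ f : lp (fun _ : S => ℝ) ⊤,
        (∃ K : Set (WeakSpace ℝ (lp (fun _ : S => ℝ) ⊤)), IsCompact K ∧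
          ∀ g : lp (fun _ : S => ℝ) ⊤, (∃ s : S, ∀ t : S, g t = f (s * t)) →
            toWeakSpace ℝ (lp (fun _ : S => ℝ) ⊤) g ∈ K) →
        ∀ s : S, ∀ g : lp (fun _ : S => ℝ) ⊤, (∀ t : S, g t = f (s * t)) → m g = m f) := by
  intro h
  classical
  let S : Submonoid (Function.End ℝ) :=
    { carrier := {s | (∃ c, ∀ x, s x = c) ∨ Function.Injective s}
      one_mem' := Or.inr fun _ _ e => e
      mul_mem' := by
        rintro s t (⟨c, hs⟩ | hs) ht
        · exact Or.inl ⟨c, fun x => hs _⟩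
        · rcases ht with ⟨c, ht⟩ | ht
          · exact Or.inl ⟨s c, fun x => congrArg s (ht x)⟩
          · exact Or.inr (hs.comp ht) }
  let c : ℝ → S := fun a => ⟨fun _ => a, Or.inl ⟨a, fun _ => rfl⟩⟩
  obtain ⟨m, m1, -, hm⟩ := h S (by
    rintro E _ _ _ C T ⟨z, hz⟩ - - ⟨D, D1, -, D2⟩ h1 h2 h3 -
    have e : ∀ (s : S) a, T s (T (c a) z) = T (c (s.1 a)) z := fun s a => (h2 s (c a) z hz).symm
    have k : ∀ a b, a ≠ b → T (c a) z = T (c b) z := fun a b hab => by
      refine DFunLike.ext _ _ fun x => sub_eq_zero.1 (abs_nonpos_iff.1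
        (le_of_forall_pos_le_add fun ε hε => ?_))
      have hδ : 0 < ε / (2 * (‖x‖ + 1)) := by positivity
      choose d d1 d2 using fun a => D2 _ (h1 (c a) hz) _ hδ
      haveI := D1.to_subtype
      obtain ⟨u, v, e1, huv⟩ := Function.not_injective_iff.1
        (not_injective_uncountable_countable fun a : ℝ => (⟨d a, d1 a⟩ : D))
      replace e1 : d u = d v := congrArg Subtype.val e1
      have huv' := sub_ne_zero.2 huv
      let s : S := ⟨fun y => b + (y - v) * ((a - b) / (u - v)), Or.inr fun y y' e => by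
        simpa [sub_ne_zero.2 hab, huv'] using e⟩
      have := h3 s _ (h1 (c u) hz) _ (h1 (c v) hz) (2 * (ε / (2 * (‖x‖ + 1)))) (fun y => by
        have a1 := abs_le.1 (d2 u y)
        have a2 := abs_le.1 (d2 v y)
        rw [e1] at a1
        exact abs_le.2 ⟨by linarith [a1.1, a2.2], by linarith [a1.2, a2.1]⟩) x
      rw [e, e, show s.1 u = a by simp only [s]; field_simp; ring, show s.1 v = b by simp [s]] at this
      refine this.trans ?_
      rw [zero_add, mul_div_assoc', mul_div_mul_left _ _ (by norm_num), div_mul_eq_mul_div,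
        div_le_iff₀ (by positivity)]
      nlinarith
    refine ⟨T (c 0) z, h1 _ hz, fun s => (e s 0).trans ?_⟩
    by_cases h0 : s.1 0 = 0
    · rw [h0]
    · exact k _ _ h0)
  let e : S → lp (fun _ : S => ℝ) ⊤ := fun t => lp.single ⊤ t 1
  have w : Filter.Tendsto (fun t => toWeakSpace ℝ _ (e t)) Filter.cofinite (nhds (toWeakSpace ℝ _ 0)) := by
    refine (WeakBilin.tendsto_iff_forall_eval_tendsto (B := (topDualPairing ℝ _).flip)
      (separatingDual_iff_injective.1 inferInstance)).2 fun φ => ?_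
    change Filter.Tendsto (fun t => φ (e t)) Filter.cofinite (nhds (φ 0))
    rw [map_zero, tendsto_zero_iff_abs_tendsto_zero]
    refine Summable.tendsto_cofinite_zero (summable_of_sum_le (c := ‖φ‖) (fun _ => abs_nonneg _)
      fun F => ?_)
    have a : ∑ t ∈ F, (abs ∘ fun t => φ (e t)) t =
        φ (∑ t ∈ F, (SignType.sign (φ (e t)) : ℝ) • e t) := by
      simp [sign_mul_self]
    rw [a]
    refine (le_abs_self _).trans ((φ.le_opNorm _).trans (mul_le_of_le_one_right (norm_nonneg _)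
      (lp.norm_le_of_forall_le (by norm_num) fun u => ?_)))
    simp only [e, lp.coeFn_sum, Finset.sum_apply, lp.coeFn_smul, Pi.smul_apply, lp.single_apply,
      Pi.single_apply, smul_eq_mul, mul_ite, mul_one, mul_zero, Finset.sum_ite_eq]
    split_ifs
    · generalize SignType.sign (_ : ℝ) = σ
      cases σ <;> simp
    · simp
  have ev : ∀ t u, e t u = if u = t then 1 else 0 := fun t u => by
    simp [e, lp.single_apply, Pi.single_apply]
  have c01 : c 1 ≠ c 0 := fun h => one_ne_zero (congrFun (congrArg Subtype.val h) 0)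
  have key := hm (e (c 0)) ⟨_, (w.isCompact_insert_range_of_cofinite).insert (toWeakSpace ℝ _ 1), by
    rintro g ⟨s, hs⟩
    rcases s.2 with ⟨a, ha⟩ | hi
    · have : ∀ t, s * t = c a := fun t => Subtype.ext (funext fun x => ha _)
      by_cases h0 : c a = c 0
      · exact Or.inl (congrArg _ (lp.ext (funext fun t => by rw [hs, this, ev, if_pos h0]; rfl)))
      · exact Or.inr (Or.inl (congrArg _ (lp.ext (funext fun t => by
          rw [hs, this, ev, if_neg h0]; rfl))))
    · by_cases h0 : ∃ t, s * t = c 0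
      · obtain ⟨t, ht⟩ := h0
        refine Or.inr (Or.inr ⟨t, congrArg _ (lp.ext (funext fun u => ?_))⟩)
        rw [hs, ev, ev, ← ht]
        refine if_congr ⟨fun h => h ▸ rfl, fun h => Subtype.ext (funext fun x => hi ?_)⟩ rfl rfl
        exact congrFun (congrArg Subtype.val h) x
      · exact Or.inr (Or.inl (congrArg _ (lp.ext (funext fun t => by
          rw [hs, ev, if_neg fun h => h0 ⟨t, h⟩]; rfl))))⟩
  have a1 := key (c 0) 1 fun t => by rw [ev]; exact (if_pos rfl).symm
  have a2 := key (c 1) 0 fun t => by rw [ev]; exact (if_neg c01).symm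
  rw [map_zero, ← a1, m1] at a2
  exact zero_ne_one a2

end Pool.Agent.S06346
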