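import Pool.Statements.S06389
import Pool.Agent.H28.SqrtK

set_option autoImplicit false
open Pool Pool.MP_dd1f31_an

namespace Pool.Agent.S06389

/-- There is a sequence of real polynomials, each with all complex roots real and non-positive, converging uniformly on compact subsets of ℂ to the sum over k of sqrt(k)/(k!)^2 times z^k. -/
theorem result :
    ∃ p : ℕ → Polynomial ℝ,
      (∀ n, ∀ z : ℂ, Polynomial.aeval z (p n) = 0 → z.im = 0 ∧ z.re ≤ 0) ∧
      TendstoLocallyUniformly (fun n (z : ℂ) => Polynomial.aeval z (p n))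
        (fun z : ℂ => ∑' k : ℕ,
          ((Real.sqrt (k : ℝ) / ((Nat.factorial k : ℝ) ^ 2) : ℝ) : ℂ) * z ^ k)
        Filter.atTop := by
  obtain ⟨p, B, h1, h2, h3⟩ := Pool.Agent.H28.SqrtK.approx
  refine ⟨p, h1, Pool.Agent.H28.SqrtK.locunif p _ _ h2 h3 fun R _ => ?_⟩
  refine ((Real.summable_pow_div_factorial (4 * R)).mul_left B).congr fun k => ?_
  rw [mul_pow]; ring

end Pool.Agent.S06389
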