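import Pool.Statements.S06401
import Pool.Agent.H9.Distal

set_option autoImplicit false
open Pool Pool.MP_ddde1e_an

namespace Pool.Agent.S06401

/-- For every increasing sequence of naturals whose gaps tend to infinity, every bounded real sequence on it equals f(Tⁿx) along it, for some distal homeomorphism T of a compact metric space, some point x and some continuous f. -/
theorem result :
    ∀ n : ℕ → ℕ, StrictMono n →
      Filter.Tendsto (fun k : ℕ => n (k + 1) - n k) Filter.atTop Filter.atTop →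
      ∀ φ : ℕ → ℝ, (∃ C : ℝ, ∀ k : ℕ, |φ k| ≤ C) →
        ∃ (X : Type) (_ : MetricSpace X) (_ : CompactSpace X) (T : X ≃ₜ X),
          (∀ x y : X, x ≠ y → ∃ ε : ℝ, 0 < ε ∧ ∀ m : ℕ,
              ε ≤ dist ((⇑T)^[m] x) ((⇑T)^[m] y) ∧
              ε ≤ dist ((⇑T.symm)^[m] x) ((⇑T.symm)^[m] y)) ∧
          ∃ (x₀ : X) (f : X → ℝ), Continuous f ∧
            ∀ k : ℕ, f ((⇑T)^[n k] x₀) = φ k := by
  classical
  rintro n hn hg φ ⟨C, hC⟩
  have h0 : 0 ≤ C := (abs_nonneg _).trans (hC 0)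
  let θ : ℕ → ℝ := fun k => (φ k + C) / (4 * (C + 1))
  obtain ⟨c, hc⟩ := H9.Distal.cocycle hn hg fun k => θ (k + 1) - θ k
  refine ⟨ℤ_[2] × UnitAddCircle, inferInstance, inferInstance, H9.Distal.T c, fun x y hxy =>
    ⟨if x.1 = y.1 then dist x.2 y.2 else dist x.1 y.1, ?_, fun m =>
      ⟨H9.Distal.skew 1 (fun a => (c a : ℝ)) x y m,
        H9.Distal.skew (-1) (fun a => -((c (a + -1) : ℝ) : UnitAddCircle)) x y m⟩⟩,
    (0, ((θ 0 - ∑ m ∈ Finset.range (n 0), c m : ℝ) : UnitAddCircle)),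
    fun p => 4 * (C + 1) * ‖p.2‖ - C, by fun_prop, fun k => ?_⟩
  · split_ifs with h
    · exact dist_pos.2 fun h' => hxy (Prod.ext h h')
    · exact dist_pos.2 h
  · have h1 : ((θ 0 - ∑ m ∈ Finset.range (n 0), c m : ℝ) : UnitAddCircle) +
        (∑ m ∈ Finset.range (n k), c m : ℝ) = (θ k : ℝ) := by
      induction k with
      | zero => rw [← AddCircle.coe_add, sub_add_cancel]
      | succ k ih =>
        rw [← Finset.sum_range_add_sum_Ico _ (hn k.lt_succ_self).le, AddCircle.coe_add,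
          ← add_assoc, ih, hc k, ← AddCircle.coe_add, add_sub_cancel]
    have h2 := abs_le.1 (hC k)
    have h3 : 0 ≤ θ k := div_nonneg (by linarith) (by positivity)
    have h4 : θ k ≤ 1 / 2 := (div_le_iff₀ (by positivity)).2 (by linarith)
    rw [H9.Distal.T_iter, h1]
    show 4 * (C + 1) * ‖((θ k : ℝ) : UnitAddCircle)‖ - C = φ k
    rw [(AddCircle.norm_coe_eq_abs_iff (1 : ℝ) one_ne_zero).2 (by
      rw [abs_of_nonneg h3, abs_one]; exact h4), abs_of_nonneg h3,
      mul_div_cancel₀ _ (by positivity), add_sub_cancel_right]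

end Pool.Agent.S06401
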