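import Pool.Statements.S06418
-- import your own Pool.Agent.* helpers here

set_option autoImplicit false
open Pool Pool.MP_def338_an

namespace Pool.Agent.S06418

def w (i : ℕ) : ℕ := [887, 448, 221, 107, 54, 26, 15, 5].getD i 0
def tl (i : ℕ) : ℕ := [1763, 876, 428, 207, 100, 46, 20, 5].getD i 0
def val (p : ℕ) : ℕ := ∑ i ∈ Finset.range 8, if p.testBit i then w i else 0
def tab : List ℕ := [16512, 8256, 2160, 4192, 1272, 16384, 41024, 34928, 36960, 1144, 49152, 8320, 2224, 4256,
  33912, 636, 8192, 2096, 4128, 1208, 33404, 40960, 34864, 36896, 4288, 700, 24704, 18608,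
  20640, 4160, 1240, 24576, 18480, 20512, 36928, 1112, 57344, 51248, 53280, 4224, 33880, 604,
  414, 2064, 4096, 1176, 33372, 286, 34832, 36864, 12480, 2272, 33054, 18576, 20608, 12352,
  2144, 16798, 18448, 20480, 45120, 34912, 8924, 51216, 53248, 12416, 2208, 8796, 33896, 10256,
  12288, 2080, 41564, 1192, 43024, 45056, 34848, 2240, 1064, 26768, 28800, 18592, 2112, 33832,
  26640, 28672, 18464, 34880, 17576, 59408, 61440, 51232, 2176, 17448, 33864, 588, 58392, 2048,
  50216, 1160, 33356, 270, 34816, 10432, 1032, 6368, 33038, 18560, 10304, 33800, 6240, 1264,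
  18432, 43072, 17544, 39008, 1136, 51200, 10368, 17416, 6304, 33904, 37992, 10240, 50184, 6176,
  1200, 5288, 43008, 4398, 38944, 6336, 5160, 26752, 37166, 22688, 6208, 37928, 26624, 20910,
  22560, 38976, 21672, 59392, 4812, 55328, 6272, 21544, 37960, 4684, 58376, 6144, 54312, 5256,
  37452, 4366, 38912, 14528, 5128, 4748, 37134, 22656, 14400, 37896, 13512, 1248, 22528, 47168,
  21640, 13384, 1120, 55296, 14464, 21512, 46152, 33888, 612, 14336, 54280, 13448, 1184, 33380,
  47104, 9232, 13320, 1056, 676, 30848, 42000, 46088, 33824, 1216, 30720, 25744, 29832, 17568,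
  1088, 63488, 25616, 29704, 17440, 33856, 580, 58384, 62472, 50208, 1152, 33348, 262, 57876,
  61964, 1024, 644, 33030, 8646, 2550, 33792, 9408, 3312, 5344, 2422, 17536, 9280, 3184,
  5216, 4836, 17408, 42048, 35952, 37984, 4708, 50176, 9344, 3248, 5280, 37476, 632, 9216,
  3120, 5152, 4772, 33400, 41984, 35888, 37920, 5312, 696, 25728, 19632, 21664, 5184, 4804,
  25600, 19504, 21536, 37952, 4676, 58368, 52272, 54304, 5248, 37444, 600, 57860, 3088, 5120,
  4740, 33368, 12742, 35856, 37888, 13504, 3296, 12614, 19600, 21632, 13376, 3168, 2788, 19472,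
  21504, 46144, 35936, 2660, 52240, 54272, 13440, 3232, 35428, 2342, 11280, 13312, 3104, 2724,
  35110, 44048, 46080, 35872, 3264, 18854, 27792, 29824, 19616, 3136, 2756, 27664, 29696, 19488,
  35904, 2628, 60432, 62464, 52256, 3200, 35396, 17064, 59924, 61956, 3072, 2692, 16936, 33352,
  266, 35840, 11456, 49704, 7392, 33034, 19584, 11328, 10948, 7264, 6884, 19456, 44096, 10820,
  40032, 6756, 52224, 11392, 43588, 7328, 39524, 624, 11264, 10884, 7200, 6820, 33392, 44032,
  10756, 39968, 7360, 688, 27776, 43524, 23712, 7232, 6852, 27648, 27268, 23584, 40000, 6724,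
  60416, 27140, 56352, 7296, 39492, 21160, 59908, 4490, 7168, 6788, 21032, 37448, 4362, 39936,
  15552, 53800, 4744, 37130, 23680, 15424, 15044, 4616, 20874, 23552, 48192, 14916, 37384, 13000,
  56320, 15488, 47684, 21128, 12872, 608, 15360, 14980, 21000, 45640, 33376, 48128, 14852, 53768,
  12936, 672, 31872, 47620, 8720, 12808, 544, 31744, 31364, 41488, 45576, 33312, 64512, 31236,
  25232, 29320, 17056, 576, 64004, 25104, 29192, 16928, 33344, 258, 57872, 61960, 49696, 640,
  33026, 8642, 2546, 4578, 512, 16770, 8514, 2418, 4450, 33280, 8896, 2800, 4832, 37218,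
  17024, 8768, 2672, 4704, 1784, 16896, 41536, 35440, 37472, 1656, 49664, 8832, 2736, 4768,
  34424, 4546, 8704, 2608, 4640, 1720, 4418, 41472, 35376, 37408, 4800, 37186, 25216, 19120,
  21152, 4672, 1752, 25088, 18992, 21024, 37440, 1624, 57856, 51760, 53792, 4736, 34392, 12738,
  2530, 2576, 4608, 1688, 12610, 2402, 35344, 37376, 12992, 2784, 35170, 19088, 21120, 12864,
  2656, 2466, 18960, 20992, 45632, 35424, 2338, 51728, 53760, 12928, 2720, 35106, 34408, 10768,
  12800, 2592, 18850, 1704, 43536, 45568, 35360, 2752, 1576, 27280, 29312, 19104, 2624, 34344,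
  27152, 29184, 18976, 35392, 18088, 59920, 61952, 51744, 2688, 17960, 34376, 1290, 58904, 2560,
  50728, 1672, 34058, 6498, 35328, 10944, 1544, 6880, 39266, 19072, 10816, 34312, 6752, 1776,
  18944, 43584, 18056, 39520, 1648, 51712, 10880, 17928, 6816, 34416, 38504, 10752, 50696, 6688,
  1712, 5800, 43520, 26882, 39456, 6848, 5672, 27264, 59650, 23200, 6720, 38440, 27136, 38218,
  23072, 39488, 22184, 59904, 5514, 55840, 6784, 22056, 38472, 5386, 58888, 6656, 54824, 5768,
  38154, 13770, 39424, 15040, 5640, 21898, 13642, 23168, 14912, 38408, 14024, 1760, 23040, 47680,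
  22152, 13896, 1632, 55808, 14976, 22024, 46664, 34400, 1314, 14848, 54792, 13960, 1696, 34082,
  47616, 9744, 13832, 1568, 17826, 31360, 42512, 46600, 34336, 1728, 31232, 26256, 30344, 18080,
  1600, 64000, 26128, 30216, 17952, 34368, 1282, 58896, 62984, 50720, 1664, 34050, 9666, 3570,
  5602, 1536, 17794, 9538, 3442, 5474, 34304, 9920, 3824, 5856, 38242, 18048, 9792, 3696,
  5728, 5538, 17920, 42560, 36464, 38496, 5410, 50688, 9856, 3760, 5792, 38178, 5570, 9728,
  3632, 5664, 21922, 5442, 42496, 36400, 38432, 5824, 38210, 26240, 20144, 22176, 5696, 5506,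
  26112, 20016, 22048, 38464, 5378, 58880, 52784, 54816, 5760, 38146, 13762, 3554, 3600, 5632,
  21890, 13634, 3426, 36368, 38400, 14016, 3808, 36194, 20112, 22144, 13888, 3680, 3490, 19984,
  22016, 46656, 36448, 3362, 52752, 54784, 13952, 3744, 36130, 3522, 11792, 13824, 3616, 19874,
  3394, 44560, 46592, 36384, 3776, 36162, 28304, 30336, 20128, 3648, 3458, 28176, 30208, 20000,
  36416, 3330, 60944, 62976, 52768, 3712, 36098, 11714, 49448, 7650, 3584, 19842, 11586, 10692,
  7522, 36352, 11968, 44354, 7904, 40290, 20096, 11840, 11650, 7776, 7586, 19968, 44608, 11522,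
  40544, 7458, 52736, 11904, 44290, 7840, 40226, 7618, 11776, 28034, 7712, 23970, 7490, 44544,
  27906, 40480]

theorem tab_ok : ∀ s < 800, val (tab.getD s 0 / 256) = val (tab.getD s 0 % 256) + s + 10 := by
  decide +kernel

noncomputable def r (n : ℕ) : ℝ := ((tl (n % 8) : ℝ) * 799 + 1763) / (1763 * 800 * 800 ^ (n / 8))
noncomputable def x (n : ℕ) : ℝ := (w (n % 8) : ℝ) * 799 / (1763 * 800 * 800 ^ (n / 8))

theorem r_pos (n : ℕ) : 0 < r n := by unfold r; positivity
theorem x_nn (n : ℕ) : 0 ≤ x n := by unfold x; positivity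

theorem r_step (n : ℕ) : r n = x n + r (n + 1) := by
  obtain ⟨m, i, hi, rfl⟩ : ∃ m i, i < 8 ∧ n = 8 * m + i := ⟨n / 8, n % 8, by omega, by omega⟩
  have e1 : (8 * m + i) % 8 = i := by omega
  have e2 : (8 * m + i) / 8 = m := by omega
  have e3 : (8 * m + i + 1) % 8 = (i + 1) % 8 := by omega
  have e4 : (8 * m + i + 1) / 8 = m + (i + 1) / 8 := by omega
  rw [r, r, x, e1, e2, e3, e4]
  interval_cases i <;> norm_num [w, tl, pow_succ] <;> field_simp <;> norm_num

theorem gap (n : ℕ) : r (n + 1) + 2232 / (1763 * 800 * 800 ^ (n / 8)) ≤ x n := by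
  obtain ⟨m, i, hi, rfl⟩ : ∃ m i, i < 8 ∧ n = 8 * m + i := ⟨n / 8, n % 8, by omega, by omega⟩
  have e1 : (8 * m + i) % 8 = i := by omega
  have e2 : (8 * m + i) / 8 = m := by omega
  have e3 : (8 * m + i + 1) % 8 = (i + 1) % 8 := by omega
  have e4 : (8 * m + i + 1) / 8 = m + (i + 1) / 8 := by omega
  rw [r, x, e1, e2, e3, e4]
  interval_cases i <;> norm_num [w, tl, pow_succ] <;> field_simp <;> norm_num

theorem r0 : r 0 = 1 := by norm_num [r, tl]

noncomputable def a (n : ℕ) : ℝ := 1 - 2 * (r (n + 1) / r n)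

theorem prod_a (n : ℕ) : ∏ i ∈ Finset.range n, (1 - a i) / 2 = r n := by
  induction n with
  | zero => simp [r0]
  | succ k ih =>
    rw [Finset.prod_range_succ, ih, a]
    have := (r_pos k).ne'
    field_simp
    ring

theorem term_a (n : ℕ) : (∏ i ∈ Finset.range n, (1 - a i) / 2) * (1 - (1 - a n) / 2) = x n := by
  rw [prod_a, a]
  have := (r_pos n).ne'
  have h := r_step n
  field_simp
  linarith

theorem sum_x (n k : ℕ) : ∑ i ∈ Finset.range k, x (i + n) = r n - r (k + n) := by
  induction k with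
  | zero => simp
  | succ k ih => rw [Finset.sum_range_succ, ih, r_step (k + n), Nat.add_right_comm]; ring

theorem tail (δ : ℕ → ℝ) (h : ∀ n, |δ n| ≤ x n) (n : ℕ) :
    Summable (fun i => δ (i + n)) ∧ |∑' i, δ (i + n)| ≤ r n := by
  have hb : ∀ k, ∑ i ∈ Finset.range k, x (i + n) ≤ r n := fun k => by
    rw [sum_x]; linarith [r_pos (k + n)]
  have hs : Summable fun i => x (i + n) := summable_of_sum_range_le (fun _ => x_nn _) hb
  exact ⟨hs.of_norm_bounded fun i => h _,
    (tsum_of_norm_bounded (f := fun i => δ (i + n)) hs.hasSum fun i => h _).trans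
      (Real.tsum_le_of_sum_range_le (fun _ => x_nn _) hb)⟩

noncomputable def f (ε : ℕ → Bool) (n : ℕ) : ℝ := if ε n = true then x n else 0

theorem f_le (ε : ℕ → Bool) (n : ℕ) : |f ε n| ≤ x n := by
  unfold f; split_ifs <;> simp [abs_of_nonneg, x_nn]

theorem fd_le (ε η : ℕ → Bool) (n : ℕ) : |f ε n - f η n| ≤ x n := by
  unfold f; split_ifs <;> simp [abs_of_nonneg, x_nn]

theorem dsum (ε η : ℕ → Bool) (n : ℕ) : ∑' i, f ε i - ∑' i, f η i =
    ∑ i ∈ Finset.range n, (f ε i - f η i) + ∑' i, (f ε (i + n) - f η (i + n)) := by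
  have h1 := (tail _ (f_le ε) 0).1
  have h2 := (tail _ (f_le η) 0).1
  simp only [add_zero] at h1 h2
  rw [← h1.tsum_sub h2, (h1.sub h2).sum_add_tsum_nat_add]

theorem avoid (ε η : ℕ → Bool) (m : ℕ) :
    ∑' i, f ε i - ∑' i, f η i ≠ 2000 / (1763 * 800 * 800 ^ m) := by
  classical
  intro h
  by_cases hc : ∃ n, n < 8 * (m + 1) ∧ ε n ≠ η n
  · obtain ⟨hn, hne⟩ := Nat.find_spec hc
    set n := Nat.find hc
    rw [dsum ε η (n + 1), Finset.sum_range_succ, Finset.sum_eq_zero] at h
    · have h1 := (tail _ (fd_le ε η) (n + 1)).2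
      have h2 := gap n
      have h3 : (2232 : ℝ) / (1763 * 800 * 800 ^ m) ≤ 2232 / (1763 * 800 * 800 ^ (n / 8)) := by
        gcongr
        · norm_num
        · omega
      have h4 : (2000 : ℝ) / (1763 * 800 * 800 ^ m) < 2232 / (1763 * 800 * 800 ^ m) := by
        gcongr; norm_num
      have h5 : (0 : ℝ) < 2000 / (1763 * 800 * 800 ^ m) := by positivity
      rw [abs_le] at h1
      unfold f at h h1
      cases e1 : ε n <;> cases e2 : η n <;> simp only [e1, e2] at hne h
      · exact hne rfl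
      · simp only [Bool.false_eq_true, if_false, if_true] at h; linarith [h1.2]
      · simp only [Bool.false_eq_true, if_false, if_true] at h; linarith [h1.1]
      · exact hne rfl
    · intro i hi
      have := Nat.find_min hc (Finset.mem_range.1 hi)
      have hi' := Finset.mem_range.1 hi
      have e : ε i = η i := by
        by_contra h'
        exact this ⟨by omega, h'⟩
      simp [f, e]
  · rw [dsum ε η (8 * (m + 1)), Finset.sum_eq_zero] at h
    · have h1 := (abs_le.1 (tail _ (fd_le ε η) (8 * (m + 1))).2).2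
      rw [zero_add] at h
      rw [h, r, show 8 * (m + 1) % 8 = 0 by omega, show 8 * (m + 1) / 8 = m + 1 by omega] at h1
      norm_num [tl, pow_succ] at h1
      field_simp at h1
      norm_num at h1
    · intro i hi
      have e : ε i = η i := by
        by_contra h'
        exact hc ⟨i, Finset.mem_range.1 hi, h'⟩
      simp [f, e]

theorem cover (u : ℝ) (h0 : 0 ≤ u) (h1 : u < 800) : ∃ ε η : ℕ → Bool,
    ∑' i, f ε i - ∑' i, f η i = (799 * u + 8000) / (1763 * 800) := by
  let z : ℕ → ℝ := fun m => (fun t => 800 * Int.fract t)^[m] u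
  have zs : ∀ m, z (m + 1) = 800 * Int.fract (z m) := fun m => Function.iterate_succ_apply' ..
  have hz : ∀ m, 0 ≤ z m ∧ z m < 800 := by
    rintro (_ | m)
    · exact ⟨h0, h1⟩
    · rw [zs]
      exact ⟨by linarith [Int.fract_nonneg (z m)], by linarith [Int.fract_lt_one (z m)]⟩
  let ε : ℕ → Bool := fun n => (tab.getD ⌊z (n / 8)⌋₊ 0 / 256).testBit (n % 8)
  let η : ℕ → Bool := fun n => (tab.getD ⌊z (n / 8)⌋₊ 0 % 256).testBit (n % 8)
  have blk : ∀ (p : ℕ → ℕ) (m : ℕ), ∑ i ∈ Finset.range 8,
      f (fun n => (p (n / 8)).testBit (n % 8)) (8 * m + i) =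
        (val (p m) : ℝ) * 799 / (1763 * 800 * 800 ^ m) := by
    intro p m
    rw [val, Nat.cast_sum, Finset.sum_mul, Finset.sum_div]
    refine Finset.sum_congr rfl fun i hi => ?_
    have hi' := Finset.mem_range.1 hi
    have e1 : (8 * m + i) % 8 = i := by omega
    have e2 : (8 * m + i) / 8 = m := by omega
    simp only [f, x, e1, e2]
    split_ifs <;> simp
  have key : ∀ m, ∑ i ∈ Finset.range (8 * m), (f ε i - f η i) =
      (799 * u + 8000) / (1763 * 800) - (799 * z m + 8000) / (1763 * 800 * 800 ^ m) := by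
    intro m
    induction m with
    | zero => simp [z]
    | succ k ih =>
      rw [show 8 * (k + 1) = 8 * k + 8 by ring, Finset.sum_range_add, ih, Finset.sum_sub_distrib,
        blk (fun m => tab.getD ⌊z m⌋₊ 0 / 256), blk (fun m => tab.getD ⌊z m⌋₊ 0 % 256),
        tab_ok _ ((Nat.floor_lt (hz k).1).2 (by exact_mod_cast (hz k).2)), zs,
        Int.fract, ← natCast_floor_eq_intCast_floor (hz k).1]
      push_cast
      field_simp
      ring
  refine ⟨ε, η, ?_⟩
  have hs := (tail _ (fd_le ε η) 0).1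
  simp only [add_zero] at hs
  rw [dsum ε η 0]
  simp only [Finset.range_zero, Finset.sum_empty, add_zero, zero_add]
  have t1 := hs.hasSum.tendsto_sum_nat.comp
    (Filter.tendsto_id.const_mul_atTop' (r := (8 : ℕ)) (by norm_num))
  refine tendsto_nhds_unique t1 ?_
  have t2 : Filter.Tendsto (fun m : ℕ => (799 * z m + 8000) / (1763 * 800 * 800 ^ m))
      Filter.atTop (nhds 0) := by
    refine squeeze_zero (fun m => by have := (hz m).1; positivity) (fun m => ?_)
      (tendsto_pow_atTop_nhds_zero_of_lt_one (r := (1 / 800 : ℝ)) (by norm_num) (by norm_num))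
    rw [one_div, inv_pow, div_le_iff₀ (by positivity)]
    field_simp
    linarith [(hz m).2]
  have := t2.const_sub ((799 * u + 8000) / (1763 * 800))
  rw [sub_zero] at this
  exact this.congr fun m => (key m).symm

/-- The negation of the preceding statement: For every sequence a with 0<a_n<1, if the difference set C−C of the central Cantor set C(a) (the set of sums of subseries of x_n = λ_0⋯λ_{n−1}(1−λ_n), with λ_n=(1−a_n)/2) has nonempty interior, then 0 lies in that interior. -/
theorem result :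
    ¬ (∀ a : ℕ → ℝ, (∀ n, 0 < a n ∧ a n < 1) →
      ∀ C : Set ℝ,
        C = Set.range (fun ε : ℕ → Bool =>
          ∑' n, if ε n = true then
            (∏ i ∈ Finset.range n, (1 - a i) / 2) * (1 - (1 - a n) / 2) else 0) →
        (interior {z : ℝ | ∃ u ∈ C, ∃ v ∈ C, z = u - v}).Nonempty →
        (0 : ℝ) ∈ interior {z : ℝ | ∃ u ∈ C, ∃ v ∈ C, z = u - v}) := by
  intro h
  have h1 := h a (fun n => by
    have h1 := r_pos n
    have h2 := r_pos (n + 1)
    have h3 := r_step n
    have h4 := gap n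
    have h5 : (0 : ℝ) < 2232 / (1763 * 800 * 800 ^ (n / 8)) := by positivity
    have h6 : r (n + 1) / r n < 1 / 2 := by rw [div_lt_iff₀ h1]; linarith
    have h7 := div_pos h2 h1
    unfold a
    constructor <;> linarith) _ rfl
  simp only [term_a] at h1
  have h2 := h1 ⟨1 / 10, mem_interior.2 ⟨Set.Ioo (1 / 100) (2 / 5), fun y hy => by
    obtain ⟨ε, η, e⟩ := cover ((1763 * 800 * y - 8000) / 799) (by linarith [hy.1])
      (by linarith [hy.2])
    exact ⟨_, ⟨ε, rfl⟩, _, ⟨η, rfl⟩, Eq.trans (by ring) e.symm⟩, isOpen_Ioo, by norm_num⟩⟩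
  have t2 : Filter.Tendsto (fun m : ℕ => (2000 : ℝ) / (1763 * 800 * 800 ^ m))
      Filter.atTop (nhds 0) :=
    Filter.Tendsto.const_div_atTop ((tendsto_pow_atTop_atTop_of_one_lt
      (by norm_num)).const_mul_atTop (by norm_num)) _
  obtain ⟨m, _, ⟨ε, rfl⟩, _, ⟨η, rfl⟩, e⟩ := (t2.eventually (mem_interior_iff_mem_nhds.1 h2)).exists
  exact avoid ε η m e.symm

end Pool.Agent.S06418
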