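import Pool.Statements.S06442
-- import your own Pool.Agent.* helpers here

set_option autoImplicit false
open Pool Pool.MP_e07177_an

namespace Pool.Agent.S06442

open Filter Topology

lemma claim {E : Type} [NormedAddCommGroup E] [NormedSpace ℝ E] [CompleteSpace E]
    (x : ℕ → E) (f : ℕ → (E →L[ℝ] ℝ))
    (hf : ∀ i j : ℕ, f i (x j) = if i = j then (1 : ℝ) else 0) (β : ℕ → ℕ)
    (h1 : ∀ m, 1 ≤ ‖x m‖) (h2 : ∀ m m', β m = β m' → ‖x m - x m'‖ ≤ 2 / (β m + 1))
    (c : ℕ → ℕ) (hc : StrictMono c) (p : ℕ → ℕ) (hp : StrictMono p)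
    (h : ∀ v ∈ (Submodule.span ℝ (Set.range (fun i => x (c i)))).topologicalClosure,
      ∃! t : ℕ → ℝ, Tendsto (fun k => ∑ i ∈ Finset.range (p k), t i • x (c i)) atTop (nhds v)) :
    ∃ N : ℕ, ∀ n, N ≤ n → {i | β (c i) = n}.Finite := by
  set F := (Submodule.span ℝ (Set.range (fun i => x (c i)))).topologicalClosure with hF
  have : CompleteSpace F := (Submodule.isClosed_topologicalClosure _).completeSpace_coe
  let S : ℕ → (F →L[ℝ] E) := fun k =>
    ∑ i ∈ Finset.range (p k), ((f (c i)).comp F.subtypeL).smulRight (x (c i))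
  have hS : ∀ k (v : F), S k v = ∑ i ∈ Finset.range (p k), f (c i) v • x (c i) := by
    intro k v
    simp [S]
  have hfc : ∀ i j, f (c i) (x (c j)) = if i = j then (1 : ℝ) else 0 := by
    intro i j
    rw [hf]
    simp [hc.injective.eq_iff]
  have hb : ∀ v : F, ∃ C, ∀ k, ‖S k v‖ ≤ C := by
    intro v
    obtain ⟨t, ht, -⟩ := h v v.2
    have htv : ∀ i, t i = f (c i) v := by
      intro i
      have h3 := ((f (c i)).continuous.tendsto _).comp ht
      have h4 : ∀ᶠ k in atTop, t i
          = (f (c i) ∘ fun k => ∑ i ∈ Finset.range (p k), t i • x (c i)) k := by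
        filter_upwards [eventually_gt_atTop i] with k hk
        have hi : i ∈ Finset.range (p k) := Finset.mem_range.2 (lt_of_lt_of_le hk (hp.le_apply))
        simp [map_sum, hfc, hi]
      exact tendsto_nhds_unique tendsto_const_nhds (h3.congr' (EventuallyEq.symm h4))
    obtain ⟨C, hC⟩ := ht.norm.bddAbove_range
    refine ⟨C, fun k => hC ⟨k, ?_⟩⟩
    simp only [hS, htv]
  obtain ⟨C, hC⟩ := banach_steinhaus hb
  obtain ⟨N, hN⟩ := exists_nat_gt (2 * C)
  refine ⟨N, fun n hn => ?_⟩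
  by_contra hinf
  have hinf' : {i | β (c i) = n}.Infinite := hinf
  obtain ⟨i, hi⟩ := hinf'.nonempty
  obtain ⟨j, hj, hij⟩ := hinf'.exists_gt (p (i + 1))
  have hi' : β (c i) = n := hi
  have hj' : β (c j) = n := hj
  have hmem : ∀ l, x (c l) ∈ F := fun l =>
    Submodule.le_topologicalClosure _ (Submodule.subset_span ⟨l, rfl⟩)
  let v : F := ⟨x (c i) - x (c j), F.sub_mem (hmem i) (hmem j)⟩
  have hi2 : i ∈ Finset.range (p (i + 1)) :=
    Finset.mem_range.2 (lt_of_lt_of_le (Nat.lt_succ_self i) hp.le_apply)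
  have hSv : S (i + 1) v = x (c i) := by
    rw [hS, Finset.sum_eq_single i]
    · have : i ≠ j := by
        have := Finset.mem_range.1 hi2
        omega
      simp [v, hfc, this]
    · intro l hl hli
      have : l ≠ j := by
        have := Finset.mem_range.1 hl
        omega
      simp [v, hfc, this, hli]
    · intro h; exact absurd hi2 h
  have h5 := (S (i + 1)).le_opNorm v
  rw [hSv] at h5
  have h6 : ‖v‖ ≤ 2 / ((n : ℝ) + 1) := by
    have := h2 (c i) (c j) (hi'.trans hj'.symm)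
    rw [hi'] at this
    exact this
  have hC0 : 0 ≤ C := (norm_nonneg _).trans (hC 0)
  have h7 : (1 : ℝ) ≤ C * (2 / ((n : ℝ) + 1)) :=
    (h1 _).trans (h5.trans (mul_le_mul (hC _) h6 (norm_nonneg _) hC0))
  have hn' : (N : ℝ) ≤ n := by exact_mod_cast hn
  rw [← mul_div_assoc, le_div_iff₀ (by positivity)] at h7
  linarith

abbrev L1 : Type := lp (fun _ : ℕ => ℝ) 1

abbrev V : Type := lp (fun _ : ℕ => L1 × ℝ) 1

noncomputable def eps (n : ℕ) : ℝ := 1 / ((n : ℝ) + 1)

lemma eps_pos (n : ℕ) : 0 < eps n := by unfold eps; positivity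

noncomputable def y (m : ℕ) : V :=
  lp.single 1 m.unpair.1 ((lp.single 1 m.unpair.2 (eps m.unpair.1) : L1), (1 : ℝ))

noncomputable def ev (n : ℕ) : V →L[ℝ] L1 × ℝ := lp.evalCLM ℝ (fun _ : ℕ => L1 × ℝ) 1 n

noncomputable def ev1 (k : ℕ) : L1 →L[ℝ] ℝ := lp.evalCLM ℝ (fun _ : ℕ => ℝ) 1 k

lemma ev_apply (n : ℕ) (v : V) : ev n v = v n := rfl

lemma ev1_apply (n : ℕ) (v : L1) : ev1 n v = v n := rfl

noncomputable def g (m : ℕ) : V →L[ℝ] ℝ :=
  (eps m.unpair.1)⁻¹ • ((ev1 m.unpair.2).comp ((ContinuousLinearMap.fst ℝ L1 ℝ).comp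
    (ev m.unpair.1)))

lemma g_apply (m : ℕ) (v : V) :
    g m v = (eps m.unpair.1)⁻¹ * (v m.unpair.1).1 m.unpair.2 := rfl

noncomputable def ph (n : ℕ) : V →L[ℝ] ℝ :=
  eps n • ((ContinuousLinearMap.snd ℝ L1 ℝ).comp (ev n))
    - (lp.tsumCLM ℝ ℕ ℝ).comp ((ContinuousLinearMap.fst ℝ L1 ℝ).comp (ev n))

lemma ph_apply (n : ℕ) (v : V) : ph n v = eps n * (v n).2 - ∑' k, (v n).1 k := rfl

lemma g_y (i j : ℕ) : g i (y j) = if i = j then (1 : ℝ) else 0 := by
  rw [g_apply]
  by_cases h : i = j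
  · subst h
    simp [y, (eps_pos _).ne']
  · rw [if_neg h]
    by_cases h1 : i.unpair.1 = j.unpair.1
    · have h2 : i.unpair.2 ≠ j.unpair.2 := by
        intro h2
        apply h
        rw [← Nat.pair_unpair i, ← Nat.pair_unpair j, h1, h2]
      rw [h1]
      simp [y, Pi.single_eq_of_ne h2]
    · simp [y, Pi.single_eq_of_ne h1]

lemma ph_y (n j : ℕ) : ph n (y j) = 0 := by
  rw [ph_apply]
  by_cases h1 : n = j.unpair.1
  · rw [h1]
    simp only [y, lp.single_apply_self]
    rw [tsum_eq_single j.unpair.2 (fun k hk => lp.single_apply_ne _ _ _ hk),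
      lp.single_apply_self]
    ring
  · simp [y, Pi.single_eq_of_ne h1]

lemma y_norm (m : ℕ) : 1 ≤ ‖y m‖ := by
  rw [y, lp.norm_single (by norm_num), Prod.norm_def]
  exact le_max_of_le_right (by simp)

lemma y_sub (m m' : ℕ) (h : m.unpair.1 = m'.unpair.1) :
    ‖y m - y m'‖ ≤ 2 / ((m.unpair.1 : ℝ) + 1) := by
  unfold y
  rw [← h, ← lp.single_sub, lp.norm_single (by norm_num), Prod.mk_sub_mk, Prod.norm_def]
  refine max_le ?_ (by simp; positivity)
  refine (norm_sub_le _ _).trans ?_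
  rw [lp.norm_single (by norm_num), lp.norm_single (by norm_num), Real.norm_eq_abs,
    abs_of_pos (eps_pos _), eps]
  apply le_of_eq
  ring

noncomputable def W : Submodule ℝ V := (Submodule.span ℝ (Set.range y)).topologicalClosure

instance : CompleteSpace W := (Submodule.isClosed_topologicalClosure _).completeSpace_coe

noncomputable def z (m : ℕ) : W :=
  ⟨y m, Submodule.le_topologicalClosure _ (Submodule.subset_span ⟨m, rfl⟩)⟩

lemma ph_W (n : ℕ) (v : V) (hv : v ∈ W) : ph n v = 0 := by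
  have : W ≤ (ph n).ker := by
    apply Submodule.topologicalClosure_minimal _ _ (ph n).isClosed_ker
    rw [Submodule.span_le]
    rintro _ ⟨j, rfl⟩
    exact ph_y n j
  exact this hv

lemma total (v : W) (h : ∀ m, g m v = 0) : v = 0 := by
  apply Subtype.ext
  apply lp.ext
  funext n
  have h1 : ((v : V) n).1 = 0 := by
    apply lp.ext
    funext k
    have := h (Nat.pair n k)
    rw [g_apply, Nat.unpair_pair] at this
    simpa [(eps_pos n).ne'] using this
  have h2 := ph_W n v v.2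
  rw [ph_apply, h1] at h2
  have h3 : ((v : V) n).2 = 0 := by simpa [(eps_pos n).ne'] using h2
  exact Prod.ext h1 h3

lemma dense_z : Dense ((Submodule.span ℝ (Set.range z) : Submodule ℝ W) : Set W) := by
  rw [Subtype.dense_iff]
  have : (Subtype.val : W → V) '' (Submodule.span ℝ (Set.range z) : Submodule ℝ W)
      = (Submodule.span ℝ (Set.range y) : Submodule ℝ V) := by
    have h := Submodule.map_span W.subtype (Set.range z)
    have h2 : W.subtype '' Set.range z = Set.range y := by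
      rw [← Set.range_comp]; rfl
    rw [h2] at h
    rw [← h]
    rfl
  intro v hv
  have h3 : v ∈ closure ((Submodule.span ℝ (Set.range y) : Submodule ℝ V) : Set V) := hv
  rw [← this] at h3
  exact h3


/-- The negation of the preceding statement: For every real or complex Banach space and every M-basis (x_n) of it, ℕ splits into two infinite complementary increasing index sequences so that each subsequence is a basis with parentheses of its closed linear span. -/
theorem result :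
    ¬ (∀ (𝕜 : Type) [RCLike 𝕜] (E : Type) [NormedAddCommGroup E] [NormedSpace 𝕜 E]
      [CompleteSpace E] (x : ℕ → E),
      ((∃ f : ℕ → (E →L[𝕜] 𝕜),
          (∀ i j : ℕ, f i (x j) = if i = j then (1 : 𝕜) else 0) ∧
          (∀ v : E, (∀ n : ℕ, f n v = 0) → v = 0)) ∧
        Dense ((Submodule.span 𝕜 (Set.range x) : Submodule 𝕜 E) : Set E)) →
      ∃ a b : ℕ → ℕ, StrictMono a ∧ StrictMono b ∧
        (∀ n : ℕ, (∃ k, a k = n) ↔ ¬ ∃ k, b k = n) ∧
        ∀ c : ℕ → ℕ, (c = a ∨ c = b) →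
          ∃ p : ℕ → ℕ, StrictMono p ∧
            ∀ v ∈ (Submodule.span 𝕜 (Set.range (fun i => x (c i)))).topologicalClosure,
              ∃! t : ℕ → 𝕜,
                Filter.Tendsto
                  (fun k => ∑ i ∈ Finset.range (p k), t i • x (c i))
                  Filter.atTop (nhds v)) := by
  intro H
  have hf : ∀ i j : ℕ, ((g i).comp W.subtypeL) (z j) = if i = j then (1 : ℝ) else 0 :=
    fun i j => g_y i j
  obtain ⟨a, b, ha, hb, hab, hc⟩ := H ℝ W z
    ⟨⟨fun m => (g m).comp W.subtypeL, hf, fun v hv => total v hv⟩, dense_z⟩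
  obtain ⟨pa, hpa, ha2⟩ := hc a (Or.inl rfl)
  obtain ⟨pb, hpb, hb2⟩ := hc b (Or.inr rfl)
  obtain ⟨Na, hNa⟩ := claim z (fun m => (g m).comp W.subtypeL) hf (fun m => m.unpair.1)
    (fun m => y_norm m) (fun m m' h => y_sub m m' h) a ha pa hpa ha2
  obtain ⟨Nb, hNb⟩ := claim z (fun m => (g m).comp W.subtypeL) hf (fun m => m.unpair.1)
    (fun m => y_norm m) (fun m m' h => y_sub m m' h) b hb pb hpb hb2
  have h1 := (hNa (max Na Nb) (le_max_left _ _)).image a
  have h2 := (hNb (max Na Nb) (le_max_right _ _)).image b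
  refine Set.infinite_range_of_injective (f := fun k => Nat.pair (max Na Nb) k)
    (fun k k' h => (Nat.pair_eq_pair.1 h).2) ((h1.union h2).subset ?_)
  rintro _ ⟨k, rfl⟩
  by_cases hk : ∃ l, b l = Nat.pair (max Na Nb) k
  · obtain ⟨l, hl⟩ := hk
    exact Or.inr ⟨l, by simp [hl], hl⟩
  · obtain ⟨l, hl⟩ := (hab _).2 hk
    exact Or.inl ⟨l, by simp [hl], hl⟩

end Pool.Agent.S06442
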