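import Pool.Statements.S06444
import Pool.Agent.H31.CoarseX

set_option autoImplicit false
open MeasureTheory
open scoped ENNReal
open Pool Pool.MP_e081a1_an
open Pool.Agent.H31.CoarseX

namespace Pool.Agent.S06444

/-- The negation of the preceding statement: For every p in [1,∞) other than 2, every bounded geometry metric space with the p-operator norm localization property (ℓ^p-valued L^p, all nonzero locally finite Borel measures) has Yu's property A. -/
theorem result :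
    ¬ (∀ (p : ℝ≥0∞) [Fact (1 ≤ p)], p ≠ ⊤ → p ≠ 2 →
    ∀ (X : Type) [MetricSpace X] [MeasurableSpace X] [BorelSpace X],
      (∀ R : ℝ, 0 < R → ∃ N : ℕ, ∀ x : X,
          (Metric.ball x R).Finite ∧ (Metric.ball x R).ncard ≤ N) →
      (∃ c : ℝ, 0 < c ∧ c ≤ 1 ∧ ∃ f : ℕ → ℕ, Monotone f ∧
        ∀ (ν : Measure X) [IsLocallyFiniteMeasure ν], ν ≠ 0 → ∀ r : ℕ,
          ∀ T : Lp (lp (fun _ : ℕ => ℝ) p) p ν →L[ℝ] Lp (lp (fun _ : ℕ => ℝ) p) p ν,
            (∀ x y : X, (r : ℝ) < dist x y →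
              ∃ U V : Set X, IsOpen U ∧ IsOpen V ∧ x ∈ U ∧ y ∈ V ∧
                ∀ g : Lp (lp (fun _ : ℕ => ℝ) p) p ν,
                  (∀ᵐ z ∂ν, z ∉ U → ⇑g z = 0) → ∀ᵐ z ∂ν, z ∈ V → ⇑(T g) z = 0) →
            ∃ ξ : Lp (lp (fun _ : ℕ => ℝ) p) p ν, ξ ≠ 0 ∧
              (∃ S : Set X, (∀ a ∈ S, ∀ b ∈ S, dist a b ≤ (f r : ℝ)) ∧
                ∀ᵐ z ∂ν, z ∉ S → ⇑ξ z = 0) ∧
              c * ‖T‖ * ‖ξ‖ ≤ ‖T ξ‖) →
      (∀ R : ℝ, 0 < R → ∀ ε : ℝ, 0 < ε →
        ∃ S : ℝ, ∃ A : X → Set (X × ℕ),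
          (∀ x, (A x).Finite) ∧ (∀ x, (x, 0) ∈ A x) ∧
          (∀ x, ∀ w ∈ A x, dist w.1 x ≤ S) ∧
          ∀ x y, dist x y < R →
            ((symmDiff (A x) (A y)).ncard : ℝ) < ε * ((A x ∩ A y).ncard : ℝ))) := by
  intro H
  letI : MeasurableSpace XX := borel XX
  haveI : BorelSpace XX := ⟨rfl⟩
  refine notA (@H 1 fact_one_le_one_ennreal (by simp) (by norm_num) XX _ _ _ (fun R _ => ?_)
    ⟨1 / 2, by norm_num, by norm_num, id, monotone_id, fun ν _ hν r T _ => ?_⟩ 2 two_pos _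
    (by norm_num))
  · obtain ⟨N, hN⟩ := ulfX R
    refine ⟨N, fun x => ?_⟩
    have h := (Set.encard_le_encard Metric.ball_subset_closedBall).trans (hN x)
    have hf := Set.finite_of_encard_le_coe h
    refine ⟨hf, ?_⟩
    rw [← hf.cast_ncard_eq] at h
    exact_mod_cast h
  · by_contra hc
    have key : ∀ x : XX, ∀ ξ : Lp (lp (fun _ : ℕ => ℝ) 1) 1 ν,
        (∀ᵐ z ∂ν, z ∉ ({x} : Set XX) → ξ z = 0) → ξ ≠ 0 → ‖T ξ‖ < 1 / 2 * ‖T‖ * ‖ξ‖ := by
      intro x ξ h1 h2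
      by_contra h3
      refine hc ⟨ξ, h2, ⟨{x}, ?_, h1⟩, not_lt.1 h3⟩
      rintro a rfl b rfl
      simp
    have hT : ‖T‖ ≤ 1 / 2 * ‖T‖ := by
      refine T.opNorm_le_bound (by positivity) (onl ν (fun n => {x | L x ≤ n}) fin_level
        (fun a b hab x hx => le_trans hx hab) (fun x => ⟨L x, le_refl (L x)⟩) T _ (by positivity)
        fun x ξ h1 => ?_)
      by_cases h2 : ξ = 0
      · simp [h2]
      · exact (key x ξ h1 h2).le
    obtain ⟨x, hx⟩ : ∃ x : XX, ν {x} ≠ 0 := by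
      by_contra h
      push Not at h
      refine hν (Measure.measure_univ_eq_zero.1 ?_)
      have : (Set.univ : Set XX) = ⋃ n, {x | L x ≤ n} := by
        ext x; simpa using ⟨L x, le_refl (L x)⟩
      rw [this]
      refine measure_iUnion_null fun n => ?_
      rw [← Set.biUnion_of_singleton {x | L x ≤ n}]
      exact (measure_biUnion_null_iff (fin_level n).countable).2 fun x _ => h x
    have hx' : ν {x} ≠ ⊤ := (isCompact_singleton.measure_lt_top).ne
    let c : lp (fun _ : ℕ => ℝ) 1 := lp.single 1 0 1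
    have hc1 : ‖c‖ = 1 := by rw [lp.norm_single (by norm_num)]; simp
    let ξ : Lp (lp (fun _ : ℕ => ℝ) 1) 1 ν := indicatorConstLp 1 (measurableSet_singleton x) hx' c
    have hξ : 0 < ‖ξ‖ := by
      rw [norm_indicatorConstLp one_ne_zero ENNReal.one_ne_top, hc1]
      have : 0 < ν.real {x} := ENNReal.toReal_pos hx hx'
      positivity
    have h1 := key x ξ (indicatorConstLp_coeFn_notMem) (norm_pos_iff.1 hξ)
    have h2 : ‖T‖ = 0 := by linarith [norm_nonneg T]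
    rw [h2] at h1
    linarith [norm_nonneg (T ξ)]

end Pool.Agent.S06444
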