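import Pool.Statements.S06452
-- import your own Pool.Agent.* helpers here

set_option autoImplicit false
open Pool Pool.MP_e12d7b_an

namespace Pool.Agent.S06452

open Polynomial Finset

def P (k : ℕ) : ℕ := [9, 94, 435, 1164, 1969, 2178, 1683, 1320, 1683, 2178, 1969, 1164, 435, 94, 9].getD k 0

def Q (k : ℕ) : ℕ := [10000000000000000000000000000000000000000000000000000000000000000000000, 10010010010010019919910010010010010000000000000000000000000000000000000000000000000000, 10010020020039949859859869869989670969859859849839920020010010000000000000000000000000000000000000, 10010020039959879809729769500520440360170269259140320400470430709679759839920010010000000000000000000000000, 10010029949879809769410490040920580558990049760691462651690959880419440790911370310679749829910010000000000000000, 10019939859909560530110910520149560190611913693253081980950992113513694362951320910310730961410460839819910000000000, 19929959690650420229620469711102153752693371482102235295638206085873193052354403814773422230421050290560630919900000, 10039650889739420120641171541921320311512484855787466114913863985256488517116123922941572242922421941290649839611000, 19929959690650420229620469711102153752693371482102235295638206085873193052354403814773422230421050290560630919900,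 10019939859909560530110910520149560190611913693253081980950992113513694362951320910310730961410460839819910000, 10010029949879809769410490040920580558990049760691462651690959880419440790911370310679749829910010000000, 10010020039959879809729769500520440360170269259140320400470430709679759839920010010000000000000, 10010020020039949859859869869989670969859859849839920020010010000000000000000000000, 10010010010010019919910010010010010000000000000000000000000000000000, 10000000000000000000000000000000000000000000000000].getD k 0

def H (k : ℕ) : ℕ := [1000000000000000000000000000000000000000000000000000000000000, 1001001001001000000001001001001001000000000000000000000000000000000000000000, 1001002002002001002002003004005004003002002001002002002001001000000000000000000000000000, 1001002002002002003004006008008008007006006007008008008006004003002002002002001001000000000000000, 1001001001002002004006008008009008009010013014016014013010009008009008008006004002002001001001001000000, 1000000001002003004005005005007009012014016015014013013014015016014012009007005005005004003002001000000001, 1001001001002002004006008008009008009010013014016014013010009008009008008006004002002001001001001000, 1001002002002002003004006008008008007006006007008008008006004003002002002002001001000000000,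 1001002002002001002002003004005004003002002001002002002001001000000000000000000, 1001001001001000000001001001001001000000000000000000000000000000, 1000000000000000000000000000000000000000000000].getD k 0

noncomputable def mk (a : ℕ → ℕ) (n : ℕ) : ℝ[X] := ∑ k ∈ range n, monomial k (a k : ℝ)

lemma coeff_mk (a : ℕ → ℕ) (n k : ℕ) : (mk a n).coeff k = if k < n then (a k : ℝ) else 0 := by
  simp [mk, coeff_monomial]

lemma deg_mk (a : ℕ → ℕ) (n : ℕ) (h : a n ≠ 0) : (mk a (n + 1)).natDegree = n := by
  refine natDegree_eq_of_le_of_coeff_ne_zero (natDegree_le_iff_coeff_eq_zero.2 fun k hk => ?_) ?_
  · rw [coeff_mk, if_neg (by omega)]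
  · rw [coeff_mk, if_pos (by omega)]; exact_mod_cast h

noncomputable def γ (k : ℕ) : ℝ :=
  if k < 14 then Q k / P k else 10 ^ 49 / 9 * (1 / 10 ^ 19) ^ ((k - 14) ^ 2)

lemma hp : mk P 15 = (X - C (-1)) ^ 12 * (C 9 * X ^ 2 - C 14 * X + C 9) := by
  apply Polynomial.funext; intro x
  simp [mk, eval_finset_sum, sum_range_succ, P]; ring

lemma hq : mk Q 15 = mk H 11 * ((C 100 * X ^ 2 + C 199 * X + C 100) *
    (C 100 * X ^ 2 + C 199000 * X + C 100000000)) := by
  apply Polynomial.funext; intro x
  simp [mk, eval_finset_sum, sum_range_succ, Q, H]; ring

/-- The negation of the preceding statement: For every positive real sequence with γ_{k+1}² > 4γ_kγ_{k+2} for all k, multiplying the coefficients of any real polynomial termwise by γ_k never increases the number of nonreal zeros, counted with multiplicity. -/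
theorem result :
    ¬ (∀ γ : ℕ → ℝ, (∀ k, 0 < γ k) →
      (∀ k, 4 * γ k * γ (k + 2) < γ (k + 1) ^ 2) →
      ∀ p q : Polynomial ℝ, (∀ k, q.coeff k = γ k * p.coeff k) →
        q.natDegree - q.roots.card ≤ p.natDegree - p.roots.card) := by
  intro h
  have := h γ (fun k => by
      unfold γ; split_ifs with hk
      · interval_cases k <;> simp [P, Q]
      · positivity)
    (fun k => by
      rcases lt_or_ge k 14 with hk | hk
      · interval_cases k <;> simp [γ, P, Q] <;> norm_num
      · obtain ⟨j, rfl⟩ := Nat.exists_eq_add_of_le hk
        unfold γ
        rw [if_neg (by omega), if_neg (by omega), if_neg (by omega),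
          show 14 + j - 14 = j by omega, show 14 + j + 2 - 14 = j + 2 by omega,
          show 14 + j + 1 - 14 = j + 1 by omega, show (j + 2) ^ 2 = j ^ 2 + 4 * j + 4 by ring,
          show (j + 1) ^ 2 = j ^ 2 + 2 * j + 1 by ring]
        simp only [pow_add, pow_mul']
        have h1 : (0 : ℝ) < (1 / 10 ^ 19) ^ j ^ 2 := by positivity
        have h2 : (0 : ℝ) < (1 / 10 ^ 19) ^ j := by positivity
        generalize ((1 : ℝ) / 10 ^ 19) ^ j ^ 2 = a at *
        generalize ((1 : ℝ) / 10 ^ 19) ^ j = b at *
        have : 0 < a ^ 2 * b ^ 4 := by positivity
        nlinarith)
    (mk P 15) (mk Q 15) (fun k => by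
      rw [coeff_mk, coeff_mk]; split_ifs with hk
      · interval_cases k <;> simp [γ, P, Q] <;> norm_num
      · simp)
  rw [deg_mk P 14 (by decide), deg_mk Q 14 (by decide)] at this
  have n1 : mk P 15 ≠ 0 := fun h => by simpa [h] using deg_mk P 14 (by decide)
  have n2 : mk Q 15 ≠ 0 := fun h => by simpa [h] using deg_mk Q 14 (by decide)
  have r1 : 12 ≤ (mk P 15).roots.card := by
    rw [hp] at n1 ⊢
    rw [roots_mul n1, roots_pow, roots_X_sub_C]; simp
  have r2 : (mk Q 15).roots.card ≤ 10 := by
    rw [hq] at n2 ⊢
    have e : ((C 100 * X ^ 2 + C 199 * X + C 100) *
        (C 100 * X ^ 2 + C 199000 * X + C 100000000) : ℝ[X]).roots = 0 := by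
      refine Multiset.eq_zero_of_forall_notMem fun x hx => ?_
      have := (isRoot_of_mem_roots hx).eq_zero
      simp only [eval_mul, eval_add, eval_C, eval_pow, eval_X, mul_eq_zero] at this
      rcases this with h | h
      · nlinarith [sq_nonneg (x + 199 / 200)]
      · nlinarith [sq_nonneg (x + 995)]
    rw [roots_mul n2, e, add_zero, ← deg_mk H 10 (by decide)]
    exact card_roots' _
  omega

end Pool.Agent.S06452
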