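import Pool.Statements.S06470
-- import your own Pool.Agent.* helpers here

set_option autoImplicit false
open Pool Pool.MP_e29dfb_an

namespace Pool.Agent.S06470

open Set Filter Topology

theorem hole_convex (K : Set ℝ) (hK : IsClosed K)
    (h : ∀ α : ℝ, 0 ≤ α → α ≤ 1 → ∀ x ∈ K, x + α ∈ K ∨ x - α ∈ K)
    {u v w : ℝ} (hu : u ∉ K) (hv : v ∉ K) (huv : v - u ≤ 2) (h1 : u ≤ w) (h2 : w ≤ v) :
    w ∉ K := by
  intro hw
  have hc : IsCompact (Icc u v ∩ K) := isCompact_Icc.inter_right hK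
  obtain ⟨a, ⟨⟨ha1, ha2⟩, haK⟩, hmin⟩ := hc.exists_isLeast ⟨w, ⟨h1, h2⟩, hw⟩
  have hua : u < a := lt_of_le_of_ne ha1 (fun e => hu (e ▸ haK))
  have hleft : ∀ y, u ≤ y → y < a → y ∉ K := by
    intro y hy1 hy2 hy
    have := hmin ⟨⟨hy1, by linarith⟩, hy⟩
    linarith
  set S : Set ℝ := {y | a ≤ y ∧ y ≤ v ∧ y ∉ K} with hS
  have hSne : S.Nonempty := ⟨v, ha2, le_rfl, hv⟩
  have hSb : BddBelow S := ⟨a, fun y hy => hy.1⟩
  have hac : a ≤ sInf S := le_csInf hSne (fun y hy => hy.1)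
  obtain ⟨v', ⟨hv1, hv2, hv3⟩, hv4⟩ :=
    exists_lt_of_csInf_lt hSne (show sInf S < sInf S + (a - u) by linarith)
  have hav : a < v' := lt_of_le_of_ne hv1 (fun e => hv3 (e ▸ haK))
  by_cases hcase : v' - a ≤ a - u
  · rcases h (v' - a) (by linarith) (by linarith) a haK with h3 | h3
    · apply hv3; convert h3 using 1; ring
    · exact hleft _ (by linarith) (by linarith) h3
  · have hx : (u + v') / 2 ∈ K := by
      by_contra hx
      have : sInf S ≤ (u + v') / 2 := csInf_le hSb ⟨by linarith, by linarith, hx⟩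
      linarith
    rcases h ((v' - u) / 2) (by linarith) (by linarith) _ hx with h3 | h3
    · apply hv3; convert h3 using 1; ring
    · apply hu; convert h3 using 1; ring

noncomputable def pt (n : ℕ) : ℝ := 2 + 1 / ((n : ℝ) + 1)

noncomputable def al (n : ℕ) : ℝ := 2 + 1 / ((n : ℝ) + 3 / 2)

def CC : Set ℝ := Icc 0 1 ∪ insert 2 (range pt)

theorem CC_compact : IsCompact CC := by
  apply isCompact_Icc.union
  apply Tendsto.isCompact_insert_range
  have := (tendsto_one_div_add_atTop_nhds_zero_nat (𝕜 := ℝ)).const_add 2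
  rw [add_zero] at this
  exact this

theorem al_bounds (n : ℕ) : 2 < al n ∧ al n < 3 := by
  unfold al
  have h0 : (0 : ℝ) ≤ n := Nat.cast_nonneg n
  have h1 : 0 < 1 / ((n : ℝ) + 3 / 2) := by positivity
  have h2 : 1 / ((n : ℝ) + 3 / 2) < 1 := by
    rw [div_lt_one (by positivity)]; linarith
  constructor <;> linarith

theorem al_not_mem (n : ℕ) : al n ∉ CC := by
  have hb := al_bounds n
  rintro (h | h | ⟨k, h⟩)
  · linarith [h.2]
  · linarith
  · unfold pt al at h
    have h1 : 1 / ((k : ℝ) + 1) = 1 / ((n : ℝ) + 3 / 2) := by linarith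
    rw [div_eq_div_iff (by positivity) (by positivity)] at h1
    have h2 : (2 * k : ℝ) = 2 * n + 1 := by linarith
    have h3 : 2 * k = 2 * n + 1 := by exact_mod_cast h2
    omega

theorem al_sep {m n : ℕ} (h : m < n) : al n < pt n ∧ pt n < al m := by
  unfold al pt
  have h0 : (0 : ℝ) ≤ m := Nat.cast_nonneg m
  have h1 : (m : ℝ) + 1 ≤ n := by exact_mod_cast h
  have a := one_div_lt_one_div_of_lt (show (0 : ℝ) < (n : ℝ) + 1 by linarith)
    (show (n : ℝ) + 1 < (n : ℝ) + 3 / 2 by linarith)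
  have b := one_div_lt_one_div_of_lt (show (0 : ℝ) < (m : ℝ) + 3 / 2 by linarith)
    (show (m : ℝ) + 3 / 2 < (n : ℝ) + 1 by linarith)
  constructor <;> linarith

theorem seg_mem {p q t : ℝ} (h0 : 0 ≤ t) (h1 : t ≤ 1) :
    min p q ≤ (1 - t) * p + t * q ∧ (1 - t) * p + t * q ≤ max p q := by
  have a1 := min_le_left p q
  have a2 := min_le_right p q
  have a3 := le_max_left p q
  have a4 := le_max_right p q
  constructor <;> nlinarith


/-- The negation of the preceding statement: For every compact set C of nonnegative reals containing 0, there is a compact K ⊆ ℝ whose center of distances (the α ≥ 0 such that every x in K has some y in K with ∣x−y∣ = α) is exactly C. -/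
theorem result :
    ¬ (∀ C : Set ℝ, IsCompact C → (0 : ℝ) ∈ C → C ⊆ Set.Ici (0 : ℝ) →
      ∃ K : Set ℝ, IsCompact K ∧
        {α : ℝ | 0 ≤ α ∧ ∀ x ∈ K, ∃ y ∈ K, |x - y| = α} = C) := by
  intro H
  classical
  obtain ⟨K, hK, hC⟩ := H CC CC_compact (Or.inl ⟨le_rfl, zero_le_one⟩) (by
    rintro x (h | h | ⟨k, h⟩)
    · exact h.1
    · rw [h]; norm_num
    · rw [← h]; unfold pt; simp only [mem_Ici]; positivity)
  have hin : ∀ α ∈ CC, ∀ x ∈ K, x + α ∈ K ∨ x - α ∈ K := by
    intro α hα x hx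
    rw [← hC] at hα
    obtain ⟨y, hy, e⟩ := hα.2 x hx
    rcases (abs_eq hα.1).1 e with e | e
    · right; convert hy using 1; linarith
    · left; convert hy using 1; linarith
  have hout : ∀ n, ∃ x ∈ K, x + al n ∉ K ∧ x - al n ∉ K := by
    intro n
    have h1 := al_not_mem n
    rw [← hC] at h1
    have h0 : 0 ≤ al n := by linarith [(al_bounds n).1]
    by_contra hh
    apply h1
    refine ⟨h0, fun x hx => ?_⟩
    by_cases h2 : x + al n ∈ K
    · exact ⟨_, h2, by rw [abs_sub_comm]; simp [abs_of_nonneg h0]⟩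
    · by_cases h3 : x - al n ∈ K
      · exact ⟨_, h3, by simp [abs_of_nonneg h0]⟩
      · exact absurd ⟨x, hx, h2, h3⟩ hh
  choose x hxK hx1 hx2 using hout
  have conv : ∀ {u v w : ℝ}, u ∉ K → v ∉ K → v - u ≤ 2 → u ≤ w → w ≤ v → w ∉ K :=
    fun hu hv huv h1 h2 => hole_convex K hK.isClosed
      (fun α h0 h1 => hin α (Or.inl ⟨h0, h1⟩)) hu hv huv h1 h2
  have conv2 : ∀ {p q w : ℝ}, p ∉ K → q ∉ K → |p - q| ≤ 2 → min p q ≤ w → w ≤ max p q →
      w ∉ K := by
    intro p q w hp hq hpq h1 h2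
    rw [abs_le] at hpq
    rcases le_total p q with h | h
    · rw [min_eq_left h] at h1; rw [max_eq_right h] at h2
      exact conv hp hq (by linarith) h1 h2
    · rw [min_eq_right h] at h1; rw [max_eq_left h] at h2
      exact conv hq hp (by linarith) h1 h2
  obtain ⟨R, hR⟩ := hK.isBounded.subset_closedBall 0
  let f : ℕ → ℤ × Prop := fun n => (⌊x n⌋, ∃ u, u ∉ K ∧ u < x n ∧ ⌊u⌋ = ⌊x n⌋)
  have hfin : ((Icc (⌊-R⌋) (⌊R⌋)) ×ˢ (univ : Set Prop)).Finite :=
    (finite_Icc _ _).prod finite_univ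
  have key : ∀ m n, f m = f n → x m ≤ x n → ∀ w, x m ≤ w → w ≤ x n → w ∈ K := by
    intro m n hmn _ w h1 h2
    by_contra hw
    have e1 : ⌊x m⌋ = ⌊x n⌋ := congrArg Prod.fst hmn
    have e2 : (∃ u, u ∉ K ∧ u < x m ∧ ⌊u⌋ = ⌊x m⌋) = (∃ u, u ∉ K ∧ u < x n ∧ ⌊u⌋ = ⌊x n⌋) :=
      congrArg Prod.snd hmn
    have e3 : ⌊w⌋ = ⌊x n⌋ := le_antisymm (Int.floor_le_floor h2) (e1 ▸ Int.floor_le_floor h1)
    have h3 : w < x n := lt_of_le_of_ne h2 (fun e => hw (e ▸ hxK n))
    obtain ⟨u, hu, hu1, hu2⟩ := e2.symm ▸ (⟨w, hw, h3, e3⟩ : ∃ u, u ∉ K ∧ u < x n ∧ ⌊u⌋ = ⌊x n⌋)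
    have b1 := Int.floor_le u
    have b2 := Int.lt_floor_add_one w
    rw [hu2, e1] at b1
    rw [e3] at b2
    exact conv hu hw (by linarith) hu1.le h1 (hxK m)
  have main : ∀ m n, m < n → f m = f n → False := by
    intro m n hlt hmn
    obtain ⟨s1, s2⟩ := al_sep hlt
    have e1 : ⌊x m⌋ = ⌊x n⌋ := congrArg Prod.fst hmn
    have b1 := Int.floor_le (x m)
    have b2 := Int.lt_floor_add_one (x m)
    have b3 := Int.floor_le (x n)
    have b4 := Int.lt_floor_add_one (x n)
    rw [e1] at b1 b2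
    obtain ⟨c1, c2⟩ := al_bounds m
    obtain ⟨c3, c4⟩ := al_bounds n
    set t := (pt n - al n) / (al m - al n) with ht
    have hd : 0 < al m - al n := by linarith
    have t0 : 0 ≤ t := div_nonneg (by linarith) hd.le
    have t1 : t ≤ 1 := by rw [ht, div_le_one hd]; linarith
    have t2 : (1 - t) * al n + t * al m = pt n := by
      rw [ht]; field_simp; ring
    have hy : (1 - t) * x n + t * x m ∈ K := by
      obtain ⟨d1, d2⟩ := seg_mem (p := x n) (q := x m) t0 t1
      rcases le_total (x m) (x n) with h | h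
      · rw [min_eq_right h] at d1; rw [max_eq_left h] at d2
        exact key m n hmn h _ d1 d2
      · rw [min_eq_left h] at d1; rw [max_eq_right h] at d2
        exact key n m hmn.symm h _ d1 d2
    rcases hin (pt n) (Or.inr (Or.inr ⟨n, rfl⟩)) _ hy with h | h
    · obtain ⟨d1, d2⟩ := seg_mem (p := x n + al n) (q := x m + al m) t0 t1
      refine conv2 (hx1 n) (hx1 m) (by rw [abs_le]; constructor <;> linarith) d1 d2 ?_
      convert h using 1
      rw [← t2]; ring
    · obtain ⟨d1, d2⟩ := seg_mem (p := x n - al n) (q := x m - al m) t0 t1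
      refine conv2 (hx2 n) (hx2 m) (by rw [abs_le]; constructor <;> linarith) d1 d2 ?_
      convert h using 1
      rw [← t2]; ring
  obtain ⟨m, -, n, -, hne, hmn⟩ := Set.infinite_univ.exists_ne_map_eq_of_mapsTo (f := f)
    (fun n _ => by
      have := hR (hxK n)
      rw [Metric.mem_closedBall, Real.dist_eq, sub_zero, abs_le] at this
      exact ⟨⟨Int.floor_le_floor this.1, Int.floor_le_floor this.2⟩, mem_univ _⟩) hfin
  rcases lt_or_gt_of_ne hne with h | h
  · exact main m n h hmn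
  · exact main n m h hmn.symm

end Pool.Agent.S06470
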