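import Pool.Statements.S06483
import Pool.Agent.H15.Rob

set_option autoImplicit false
open Pool Pool.MP_e3b298_an

namespace Pool.Agent.S06483

theorem result :
    ∀ n : ℕ, 1 ≤ n → ∀ β : ℝ, 1 ≤ β → ∀ x : ℂ, ‖x‖ = 1 → ∀ z : ℂ, ‖z‖ < 1 →
      (∑ k ∈ Finset.range (n + 1),
          (((n.descFactorial k : ℝ) / (ascPochhammer ℝ k).eval (β + (n : ℝ)) : ℝ) : ℂ) *
          ((((ascPochhammer ℝ k).eval β / (k.factorial : ℝ)) : ℝ) : ℂ) * z ^ k)
      + x * (∑ k ∈ Finset.range n,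
          (((n.descFactorial (k + 1) : ℝ) / (ascPochhammer ℝ (k + 1)).eval (β + (n : ℝ)) : ℝ) : ℂ) *
          ((((ascPochhammer ℝ k).eval β / (k.factorial : ℝ)) : ℝ) : ℂ) * z ^ (k + 1)) ≠ 0 := by
  intro n _ β h x hx z hz
  simpa only [H15.Rob.F, H15.Rob.G, H15.Rob.t, H15.Rob.A, mul_assoc] using
    H15.Rob.fin n β (by linarith) x hx z hz

end Pool.Agent.S06483
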