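import Pool.Statements.S06546
-- import your own Pool.Agent.* helpers here

set_option autoImplicit false
open Pool Pool.MP_e9d911_an

namespace Pool.Agent.S06546

open Polynomial in
theorem mm : ((X - C (-1)) ^ 3 * (X - C 3) : ℂ[X]).logMahlerMeasure = Real.log 3 := by
  rw [logMahlerMeasure_eq_log_MahlerMeasure, mahlerMeasure_mul, pow_three, mahlerMeasure_mul,
    mahlerMeasure_mul, mahlerMeasure_X_sub_C, mahlerMeasure_X_sub_C]
  norm_num

def co (j : ℕ) : ℂ := if j = 0 then -3 else if j = 1 then -8 else if j = 2 then -6 else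
  if j = 4 then 1 else 0

theorem co_zero (j : ℕ) (h : j ∉ Finset.range 5) : co j = 0 := by
  have : ¬ j < 5 := by simpa using h
  unfold co
  split_ifs <;> first | omega | rfl

theorem nrm : ∑' j, ‖co j‖ = 18 := by
  rw [tsum_eq_sum (s := Finset.range 5) fun j h => by simp [co_zero j h]]
  norm_num [Finset.sum_range_succ, co]

theorem ev (z : ℂ) : ∑' j, co j * z ^ j = (z + 1) ^ 3 * (z - 3) := by
  rw [tsum_eq_sum (s := Finset.range 5) fun j h => by simp [co_zero j h]]
  norm_num [Finset.sum_range_succ, co]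
  ring

/-- The negation of the preceding statement: For 0<d<1, k≥0 and the n with ∑_{j≤k}C(n,j)/2^n ≤ d < ∑_{j≤k}C(n-1,j)/2^{n-1}, the infimum of J(f) over nonzero f with ∑_{j≤k}∣a_j∣ ≥ d∑∣a_j∣ equals log(ρ/((ρ+1)2^{n-1})), with ρ as defined. -/
theorem result :
    ¬ (∀ (d : ℝ) (k n : ℕ), 0 < d → d < 1 → 0 < n →
    (∑ j ∈ Finset.range (k+1), (n.choose j : ℝ)) / 2 ^ n ≤ d →
    d < (∑ j ∈ Finset.range (k+1), ((n-1).choose j : ℝ)) / 2 ^ (n-1) →
    IsGLB {x : ℝ | ∃ a : ℕ → ℂ, Summable (fun j => ‖a j‖) ∧ a ≠ 0 ∧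
        d * (∑' j, ‖a j‖) ≤ ∑ j ∈ Finset.range (k+1), ‖a j‖ ∧
        x = (1 / (2 * Real.pi)) *
              (∫ θ in (0:ℝ)..(2 * Real.pi),
                Real.log ‖∑' j, a j * Complex.exp ((θ : ℂ) * Complex.I) ^ j‖)
            - Real.log (∑' j, ‖a j‖)}
      (Real.log
        ((((n-1).choose k : ℝ) /
            ((∑ j ∈ Finset.range (k+1), ((n-1).choose j : ℝ)) - d * 2 ^ (n-1)) - 1) /
          (((((n-1).choose k : ℝ) /
            ((∑ j ∈ Finset.range (k+1), ((n-1).choose j : ℝ)) - d * 2 ^ (n-1)) - 1) + 1)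
            * 2 ^ (n-1))))) := by
  intro h
  have h1 := (h (11 / 18) 1 3 (by norm_num) (by norm_num) (by norm_num)
    (by norm_num [Finset.sum_range_succ]) (by norm_num [Finset.sum_range_succ])).1
    ⟨co, summable_of_ne_finset_zero (s := Finset.range 5) fun j h => by simp [co_zero j h],
      fun h => by simpa [co] using congrFun h 4,
      by rw [nrm]; norm_num [Finset.sum_range_succ, co], rfl⟩
  have h2 := mm
  rw [Polynomial.logMahlerMeasure_def, Real.circleAverage_def] at h2
  simp only [circleMap, Polynomial.eval_mul, Polynomial.eval_pow, Polynomial.eval_sub,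
    Polynomial.eval_X, Polynomial.eval_C, sub_neg_eq_add, Complex.ofReal_one, one_mul, zero_add,
    smul_eq_mul] at h2
  simp only [ev, nrm] at h1
  rw [one_div, h2, ← Real.log_div (by norm_num) (by norm_num)] at h1
  norm_num [Finset.sum_range_succ] at h1
  rw [Real.log_le_log_iff (by norm_num) (by norm_num)] at h1
  norm_num at h1

end Pool.Agent.S06546
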