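import Pool.Statements.S06568
import Pool.Agent.H4.Lin2
-- import your own Pool.Agent.* helpers here

set_option autoImplicit false
open Pool Pool.MP_eb85b6_an

namespace Pool.Agent.S06568

/-- The negation of the preceding statement: For every real or complex Banach space X and bounded operator T: if the vectors whose return sets to each neighbourhood have positive upper density are dense, then some dense linear subspace consists entirely of such vectors. -/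
theorem result :
    ¬ (∀ (𝕂 : Type) [RCLike 𝕂] (X : Type) [NormedAddCommGroup X] [NormedSpace 𝕂 X]
      [CompleteSpace X] (T : X →L[𝕂] X),
      Dense {x : X | ∀ U ∈ nhds x, ∃ ε : ℝ, 0 < ε ∧ ∀ N₀ : ℕ, ∃ N : ℕ, N₀ < N ∧
          ε * (N : ℝ) ≤ (({n : ℕ | 1 ≤ n ∧ n ≤ N ∧ (⇑T)^[n] x ∈ U}.ncard : ℕ) : ℝ)} →
      ∃ M : Submodule 𝕂 X, Dense (M : Set X) ∧
        ∀ x ∈ M, ∀ U ∈ nhds x, ∃ ε : ℝ, 0 < ε ∧ ∀ N₀ : ℕ, ∃ N : ℕ, N₀ < N ∧
          ε * (N : ℝ) ≤ (({n : ℕ | 1 ≤ n ∧ n ≤ N ∧ (⇑T)^[n] x ∈ U}.ncard : ℕ) : ℝ)) := by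
  intro h
  obtain ⟨X, _, _, _, T, P, hP, hD, hB⟩ := Pool.Agent.H4.Lin.main ℝ
  have hT : ∀ (n : ℕ) (x : X), (⇑T)^[n] x = (T ^ n) x := fun n x => by
    rw [ContinuousLinearMap.coe_pow']
  obtain ⟨M, hM, hM'⟩ := h ℝ X T (hD.mono fun x hx U hU => by
    obtain ⟨ε, hε, hb⟩ := Metric.mem_nhds_iff.1 hU
    obtain ⟨δ, hδ, N₀, hN⟩ := hx ε hε
    refine ⟨δ, hδ, fun N₁ => ⟨max N₀ (N₁ + 1), by omega, (hN _ (le_max_left _ _)).trans ?_⟩⟩
    rw [Nat.cast_le]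
    exact Set.ncard_le_ncard
      (fun n hn => ⟨hn.1, hn.2.1, hT n x ▸ hb (mem_ball_iff_norm.2 hn.2.2)⟩)
      ((Set.finite_Iic _).subset fun n hn => hn.2.1))
  obtain ⟨y, hy, hPy⟩ := Pool.Agent.H4.Lin.hit ℝ P hP M hM
  obtain ⟨δ, hδ, hN⟩ := hM' y hy _ (Metric.ball_mem_nhds y (show (0 : ℝ) < 1 / 2 by norm_num))
  obtain ⟨N₁, hN₁⟩ := hB y hPy δ hδ
  obtain ⟨N, h1, h2⟩ := hN N₁
  refine absurd (h2.trans ?_) (not_le.2 (hN₁ N h1.le))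
  rw [Nat.cast_le]
  exact Set.ncard_le_ncard (fun n hn => ⟨hn.2.1, mem_ball_iff_norm.1 (hT n y ▸ hn.2.2)⟩)
    ((Set.finite_Iic _).subset fun n hn => hn.1)

end Pool.Agent.S06568
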