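import Pool.Statements.S06585
import Pool.Agent.H28.HermC

set_option autoImplicit false
open Pool Pool.MP_ecafe5_an

namespace Pool.Agent.S06585
open Polynomial Filter Topology Finset Pool.Agent.H28.Schur Pool.Agent.H28.HermA
  Pool.Agent.H28.HermB Pool.Agent.H28.MS Pool.Agent.H28.HermC

lemma Q_eq (T : ℝ[X] →ₗ[ℝ] ℝ[X]) (γ : ℕ → ℝ) (Q : ℕ → ℝ[X]) (hT : ∀ n, T (P n) = γ n • P n)
    (hQ : ∀ p : ℝ[X], T p = ∑ k ∈ range (p.natDegree + 1), Q k * derivative^[k] p) (k : ℕ)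
    (z : ℂ) : f (fun n => (γ n : ℂ)) k z = k.factorial * aeval z (Q k) := by
  have e : C (k.factorial : ℝ) * Q k = ∑ p ∈ antidiagonal k,
      (k.choose p.1 : ℝ[X]) * (H (-X) (C (1 / 4)) p.1 * (C (γ p.2) * P p.2)) := by
    refine Polynomial.funext fun x => ?_
    have h1 := congrArg (eval x) (hQ ((X - C x) ^ k))
    rw [natDegree_pow, natDegree_X_sub_C, mul_one, sum_range_succ, eval_add, eval_finset_sum,
      sum_eq_zero fun j hj => by
        simp [iterate_derivative_X_sub_pow, Nat.sub_ne_zero_of_lt (mem_range.1 hj)],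
      iterate_derivative_X_sub_pow, expand x (1 / 4) k, map_sum, eval_finset_sum] at h1
    rw [eval_finset_sum]
    refine Eq.trans (by simp [Nat.descFactorial_self, mul_comm]) (h1.symm.trans
      (sum_congr rfl fun p _ => ?_))
    have := H_map (evalRingHom x) (-X) (C (1 / 4)) p.1
    simp only [coe_evalRingHom, eval_neg, eval_X, eval_C] at this
    rw [map_smul, ← P, hT]
    simp only [eval_mul, this, eval_smul, eval_C, eval_natCast, smul_eq_mul, mul_assoc]
  have e2 := congrArg (aeval z) e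
  rw [map_mul, aeval_C, map_sum] at e2
  refine Eq.trans ?_ (e2.symm.trans (by simp))
  rw [f, show C z * (X - 1) = C (-z) + X * C z by rw [C_neg]; ring,
    show C (1 / 4 : ℂ) * (1 - X ^ 2) = C (1 / 4) + X ^ 2 * C (-(1 / 4)) by rw [C_neg]; ring,
    H_add, map_sum]
  refine sum_congr rfl fun p _ => ?_
  rw [H_hom, ← H_map C, ← H_map C, mul_comm (X ^ _), ← C_eq_natCast, Lam_C, Lam_C, Lam_C, Lam_pow]
  simp only [map_mul, P, H_map (aeval z : ℝ[X] →ₐ[ℝ] ℂ)]
  simp [mul_comm, mul_left_comm]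

lemma signs {γ : ℕ → ℝ} (h : MS γ) (h0 : ∃ m, γ m ≠ 0) : ∃ ε η : ℝ, ε * ε = 1 ∧ η * η = 1 ∧
    (∃ m, 0 < ε * η ^ m * γ m) ∧ (∀ n, 0 ≤ ε * η ^ n * γ n) ∧
    ∃ ρ, 0 ≤ ρ ∧ ∃ K, ∀ n, ε * η ^ n * γ n ≤ K * ρ ^ n := by
  classical
  set m := Nat.find h0
  have s : ∀ x : ℝ, ∃ ε : ℝ, ε * ε = 1 ∧ 0 ≤ ε * x := fun x =>
    (le_total 0 x).elim (fun h => ⟨1, by simp, by simpa⟩) fun h => ⟨-1, by simp, by simpa⟩
  obtain ⟨η, h1, h2⟩ := s (γ m * γ (m + 1))
  obtain ⟨ε, h3, h4⟩ := s (η ^ m * γ m)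
  have η0 : η ≠ 0 := by rintro rfl; simp at h1
  have ε0 : ε ≠ 0 := by rintro rfl; simp at h3
  have h5 : 0 < ε * η ^ m * γ m := by
    rw [mul_assoc]
    exact h4.lt_of_ne' (mul_ne_zero ε0 (mul_ne_zero (pow_ne_zero _ η0) (Nat.find_spec h0)))
  refine ⟨ε, η, h3, h1, ⟨m, h5⟩, struct ((MS_geo ε η η0).mul h) m
    (fun d hd => by simp [not_not.1 (Nat.find_min h0 hd)]) h5 (nonneg_of_mul_nonneg_right
      (le_of_le_of_eq h2 ?_) h5 |> fun h => h)⟩
  have : η ^ m * η ^ m = 1 := by rw [← mul_pow, h1, one_pow]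
  linear_combination -(η * γ m * γ (m + 1)) * (η ^ m * η ^ m * h3 + this)


/-- If a linear operator T on real polynomials has the Hermite polynomials as eigenvectors, with eigenvalues forming a classical multiplier sequence, and every coefficient Q_k in T = sum Q_k D^k has only real zeros, then T maps real-rooted polynomials to real-rooted ones. -/
theorem result :
    ∀ (T : Polynomial ℝ →ₗ[ℝ] Polynomial ℝ) (γ : ℕ → ℝ) (Q : ℕ → Polynomial ℝ),
      (∀ n : ℕ,
        T (((Polynomial.hermite n).map (Int.castRingHom ℝ)).comp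
            (Polynomial.C (Real.sqrt 2) * Polynomial.X)) =
          γ n • (((Polynomial.hermite n).map (Int.castRingHom ℝ)).comp
            (Polynomial.C (Real.sqrt 2) * Polynomial.X))) →
      (∀ p : Polynomial ℝ,
        (p = 0 ∨ ∀ z : ℂ, Polynomial.aeval z p = 0 → z.im = 0) →
        ((∑ n ∈ Finset.range (p.natDegree + 1),
            Polynomial.C (γ n * p.coeff n) * Polynomial.X ^ n) = 0 ∨
          ∀ z : ℂ, Polynomial.aeval z
            (∑ n ∈ Finset.range (p.natDegree + 1),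
              Polynomial.C (γ n * p.coeff n) * Polynomial.X ^ n) = 0 → z.im = 0)) →
      (∀ p : Polynomial ℝ,
        T p = ∑ k ∈ Finset.range (p.natDegree + 1),
          Q k * (⇑Polynomial.derivative)^[k] p) →
      (∀ k : ℕ, Q k = 0 ∨ ∀ z : ℂ, Polynomial.aeval z (Q k) = 0 → z.im = 0) →
      ∀ p : Polynomial ℝ,
        (p = 0 ∨ ∀ z : ℂ, Polynomial.aeval z p = 0 → z.im = 0) →
        (T p = 0 ∨ ∀ z : ℂ, Polynomial.aeval z (T p) = 0 → z.im = 0) := by
  intro T γ Q hT hγ hQ hR p hp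
  have hP : ∀ n, T (P n) = γ n • P n := fun n => by
    have := hT n
    rw [herm, map_smul, smul_comm] at this
    exact smul_right_injective _ (by positivity : (√2 : ℝ) ^ n ≠ 0) this
  have ms : MS γ := fun f g hf hg => by
    convert hγ f hf using 1
    have : g = ∑ n ∈ range (f.natDegree + 1), C (γ n * f.coeff n) * X ^ n := by
      ext k; simp only [C_mul_X_pow_eq_monomial]; rw [hg]; exact (coeff_sc γ f k).symm
    rw [← this]; rfl
  by_cases h0 : ∃ m, γ m ≠ 0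
  swap
  · left
    exact ext_P T 0 _ (fun n _ => by simp [hP, not_not.1 (not_exists.1 h0 n)]) p le_rfl
  obtain ⟨ε, η, h1, h2, ⟨m, hm⟩, h3, h4⟩ := signs ms h0
  have η0 : η ≠ 0 := by rintro rfl; simp at h2
  have ε0 : ε ≠ 0 := by rintro rfl; simp at h1
  have hη : ∀ n, η ^ n * η ^ n = 1 := fun n => by rw [← mul_pow, h2, one_pow]
  set δ : ℕ → ℝ := fun n => ε * η ^ n * γ n with hδ
  have md : MS δ := (MS_geo ε η η0).mul ms
  have hJ : ∀ N, RR (J δ N) := fun N => md (E 1 N) _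
    (Or.inr fun z hz => (E_root 1 one_pos.le N z hz).1) fun k => by rw [J_coeff, E_coeff, mul_comm]
  set S : Set ℝ := {ρ | 0 ≤ ρ ∧ ∃ K, ∀ n, δ n ≤ K * ρ ^ n}
  have bS : BddBelow S := ⟨0, fun ρ h => h.1⟩
  have σ0 : 0 ≤ sInf S := le_csInf h4 fun ρ h => h.1
  rcases le_or_gt 1 (sInf S) with hσ | hσ
  · let c : ℝ[X] →ₗ[ℝ] ℝ[X] := (aeval (C η * X)).toLinearMap
    have hc : ∀ n, c (P n) = η ^ n • P n := fun n => by
      have := H_hom (C η) X (C (-(1 / 4))) n
      rw [sq, ← C_mul, h2, C_1, one_mul, ← C_pow, ← P] at this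
      rw [smul_eq_C_mul, ← this, P]
      exact (H_map (aeval (C η * X) : ℝ[X] →ₐ[ℝ] ℝ[X]) _ _ n).trans (by simp)
    have := pres δ md m hm (shift δ h3 hJ 1 zero_le_one fun ρ r0 r1 h =>
      (csInf_le bS ⟨r0, h⟩).not_gt (r1.trans_le hσ)) (ε • T ∘ₗ c)
      (fun n => by simp [hc, hP, smul_smul, hδ, mul_assoc]) (c p)
      (MS_geo 1 η η0 p _ hp fun k => by
        simp only [one_mul]
        rw [mul_comm, ← comp_C_mul_X_coeff, comp_eq_aeval]; rfl)
    have e : c (c p) = p := ext_P (c ∘ₗ c) LinearMap.id _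
      (fun n _ => by simp [hc, smul_smul, hη]) p le_rfl
    rw [LinearMap.smul_apply, LinearMap.comp_apply, e] at this
    exact this.imp (fun h => by simpa [ε0] using h) fun h z hz => h z (by simp [hz])
  have he := shift δ h3 hJ _ σ0 fun ρ r0 r1 h => (csInf_le bS ⟨r0, h⟩).not_gt r1
  have a1 : |η * sInf S| < 1 := by
    rw [abs_mul, abs_of_nonneg σ0, show |η| = 1 by
      rw [← sq_eq_sq₀ (abs_nonneg _) zero_le_one, sq_abs, sq, h2, one_pow], one_mul]
    exact hσ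
  have := stepA (fun n => (γ n : ℂ)) (η * sInf S) (abs_lt.1 a1).1 (abs_lt.1 a1).2
    (fun e e0 => ?_) (fun k => (hR k).imp (fun h z => by simp [Q_eq T γ Q hP hQ, h])
      fun h z hz => h z (by simpa [Q_eq T γ Q hP hQ, Nat.factorial_ne_zero] using hz)) m
  · simp only [Complex.ofReal_eq_zero] at this
    simp [this] at hm
  obtain ⟨K, hK⟩ := type_zero δ _ σ0 he (fun t t0 => by
    obtain ⟨ρ, ⟨r0, K, hK⟩, r1⟩ := exists_lt_of_csInf_lt h4 (lt_add_of_pos_right _ t0)
    have K0 : 0 ≤ K := by simpa using (h3 0).trans (hK 0)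
    exact ⟨K, fun n => (hK n).trans (by gcongr; exact r1.le)⟩) e e0
  refine ⟨K, fun i => le_of_eq_of_le ?_ (hK i)⟩
  have e1 := Lam_cast γ ((X - C (η * sInf S)) ^ i)
  have e2 : Lam δ ((X - C (sInf S)) ^ i) = ε * η ^ i * Lam γ ((X - C (η * sInf S)) ^ i) := by
    have b1 := Lam_bin δ X 1 (-sInf S) i
    have b2 := Lam_bin γ X 1 (-(η * sInf S)) i
    rw [C_1, one_mul, C_neg, ← sub_eq_add_neg] at b1 b2
    rw [b1, b2, mul_sum]
    refine sum_congr rfl fun x hx => ?_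
    rw [Lam_pow, Lam_pow, ← mem_antidiagonal.1 hx, pow_add, ← mul_neg, mul_pow]
    simp only [hδ]
    linear_combination -((x.1 + x.2).choose x.1 * 1 ^ x.1 * (-sInf S) ^ x.2 * ε * η ^ x.1 *
      γ x.1) * hη x.2
  simp only [Polynomial.map_pow, Polynomial.map_sub, map_X, map_C, Complex.coe_algebraMap] at e1
  rw [e1, Complex.norm_real, ← abs_of_nonneg (he i), e2, abs_mul,
    show |ε * η ^ i| = 1 by
      rw [← sq_eq_sq₀ (abs_nonneg _) zero_le_one, sq_abs]
      linear_combination η ^ i * η ^ i * h1 + hη i, one_mul, Real.norm_eq_abs]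

end Pool.Agent.S06585
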