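import Pool.Statements.S06623
import Pool.Agent.H18.Rec1
-- import your own Pool.Agent.* helpers here

set_option autoImplicit false
open Pool Pool.MP_ef2f7d_an

namespace Pool.Agent.S06623

open Pool.Agent.H18.Rec Classical

structure Lv where
  B : Type
  fin : Finite B
  ne : Nonempty B
  r : B → B → Prop
  p : Equiv.Perm B
  rp : ∀ b, r b (p b)
  conn : ∀ a b, Relation.ReflTransGen (fun x y => r x (p y)) a b

namespace Lv

variable (L : Lv)

instance : Finite L.B := L.fin
noncomputable instance : Fintype L.B := Fintype.ofFinite _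
instance : Nonempty L.B := L.ne

lemma exTau (a c : L.B) : ∃ τ : Equiv.Perm L.B, τ a = c ∧ ∀ b, b ≠ a → L.r b (τ b) := by
  let t : {b // b ≠ a} → Finset L.B := fun b => Finset.univ.filter fun y => y ≠ c ∧ L.r b y
  obtain ⟨f, hf, hft⟩ := (Finset.all_card_le_biUnion_card_iff_exists_injective t).1 (by
    intro s
    rcases s.eq_empty_or_nonempty with rfl | ⟨b0, hb0⟩
    · simp
    let S : Finset L.B := s.map (Function.Embedding.subtype _)
    let O : Finset L.B := Finset.univ.filter fun y => ∃ b ∈ S, L.r b (L.p y)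
    have h1 : S ⊂ O := by
      refine ⟨fun b hb => ?_, fun h => ?_⟩
      · exact Finset.mem_filter.2 ⟨Finset.mem_univ _, b, hb, L.rp b⟩
      · have : ∀ y, Relation.ReflTransGen (fun x y => L.r x (L.p y)) b0.1 y → y ∈ S := by
          intro y hy
          induction hy with
          | refl => exact Finset.mem_map_of_mem _ hb0
          | tail _ h2 ih => exact h (Finset.mem_filter.2 ⟨Finset.mem_univ _, _, ih, h2⟩)
        obtain ⟨z, -, hz⟩ := Finset.mem_map.1 (this a (L.conn _ _))
        exact z.2 hz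
    have h2 := Finset.card_lt_card h1
    have h3 : (O.map L.p.toEmbedding).erase c ⊆ s.biUnion t := by
      intro y hy
      obtain ⟨hy1, hy2⟩ := Finset.mem_erase.1 hy
      obtain ⟨z, hz, rfl⟩ := Finset.mem_map.1 hy2
      obtain ⟨b, hb, hr⟩ := (Finset.mem_filter.1 hz).2
      obtain ⟨b', hb', rfl⟩ := Finset.mem_map.1 hb
      exact Finset.mem_biUnion.2 ⟨b', hb', Finset.mem_filter.2 ⟨Finset.mem_univ _, hy1, hr⟩⟩
    have h4 := Finset.card_le_card h3
    have h5 := Finset.pred_card_le_card_erase (s := O.map L.p.toEmbedding) (a := c)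
    rw [Finset.card_map] at h5 h2
    omega)
  let g : L.B → L.B := fun b => if h : b = a then c else f ⟨b, h⟩
  have hg : Function.Injective g := by
    intro x y hxy
    by_cases hx : x = a <;> by_cases hy : y = a
    · rw [hx, hy]
    · simp only [g, dif_pos hx, dif_neg hy] at hxy
      exact absurd hxy.symm (Finset.mem_filter.1 (hft ⟨y, hy⟩)).2.1
    · simp only [g, dif_neg hx, dif_pos hy] at hxy
      exact absurd hxy (Finset.mem_filter.1 (hft ⟨x, hx⟩)).2.1
    · simp only [g, dif_neg hx, dif_neg hy] at hxy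
      exact congrArg Subtype.val (hf hxy)
  refine ⟨Equiv.ofBijective g (Finite.injective_iff_bijective.1 hg), by simp [g], fun b hb => ?_⟩
  simp only [Equiv.ofBijective_apply, g, dif_neg hb]
  exact (Finset.mem_filter.1 (hft ⟨b, hb⟩)).2.2

noncomputable def M : ℕ := 6 * Fintype.card L.B

lemma hM : 3 ≤ L.M := by
  have : 0 < Fintype.card L.B := Fintype.card_pos
  unfold M; omega

def N : Type := {u : Fin L.M → L.B // ∀ b, ∃ i : Fin L.M, i.1 % 2 = 0 ∧ u i = b}

def pN (p : Equiv.Perm L.B) (u : L.N) : L.N :=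
  ⟨fun i => p (u.1 i), fun b => by
    obtain ⟨i, h1, h2⟩ := u.2 (p.symm b)
    exact ⟨i, h1, by simp [h2]⟩⟩

def PN : Equiv.Perm L.N where
  toFun := L.pN L.p
  invFun := L.pN L.p.symm
  left_inv u := Subtype.ext (funext fun i => by simp [pN])
  right_inv u := Subtype.ext (funext fun i => by simp [pN])

def rN (u v : L.N) : Prop := ∀ i, L.r (u.1 i) (v.1 i)

lemma share (u v : L.N) (s : L.B → Fin L.M) (hs : ∀ b, (s b).1 % 2 = 0) (hu : ∀ b, u.1 (s b) = b)
    (hv : ∀ b, v.1 (s b) = b) : Relation.ReflTransGen (fun x y => L.rN x (L.PN y)) u v := by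
  let w : Finset (Fin L.M) → L.N := fun F =>
    ⟨fun i => if i ∈ F then v.1 i else u.1 i, fun b => ⟨s b, hs b, by simp [hu, hv]⟩⟩
  have key : ∀ F, Relation.ReflTransGen (fun x y => L.rN x (L.PN y)) u (w F) := by
    intro F
    induction F using Finset.induction_on with
    | empty =>
      have : w ∅ = u := Subtype.ext (funext fun i => by simp [w])
      rw [this]
    | insert i F hi ih =>
      refine ih.trans ?_
      by_cases h : ∃ b, s b = i
      · obtain ⟨b, rfl⟩ := h
        have : w (insert (s b) F) = w F := Subtype.ext (funext fun i => by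
          by_cases h : i = s b
          · simp [w, h, hu, hv]
          · simp [w, h])
        rw [this]
      · let f : L.B → L.N := fun y => ⟨Function.update (w F).1 i y, fun b => ⟨s b, hs b, by
          rw [Function.update_of_ne (fun h' => h ⟨b, h'⟩)]; simp [w, hu, hv]⟩⟩
        have e1 : f (u.1 i) = w F := Subtype.ext (funext fun l => by
          by_cases h : l = i
          · simp [f, w, h, hi]
          · simp [f, w, h])
        have e2 : f (v.1 i) = w (insert i F) := Subtype.ext (funext fun l => by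
          by_cases h : l = i
          · simp [f, w, h]
          · simp [f, w, h])
        rw [← e1, ← e2]
        have hc := L.conn (u.1 i) (v.1 i)
        generalize v.1 i = y at hc
        induction hc with
        | refl => rfl
        | @tail x y _ hxy ih =>
          refine ih.tail fun l => ?_
          change L.r (Function.update (w F).1 i x l) (L.p (Function.update (w F).1 i y l))
          by_cases h : l = i
          · simpa [h] using hxy
          · simpa [h] using L.rp _
  have : w Finset.univ = v := Subtype.ext (funext fun i => by simp [w])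
  rw [← this]; exact key _

lemma third (s t : L.B → Fin L.M) : ∃ f : L.B → Fin L.M, Function.Injective f ∧
    (∀ b, (f b).1 % 2 = 0) ∧ (∀ b b', f b ≠ s b') ∧ ∀ b b', f b ≠ t b' := by
  let A : Finset (Fin L.M) := Finset.univ.filter fun i => i.1 % 2 = 0
  have hA : 3 * Fintype.card L.B ≤ A.card := by
    have := Finset.card_le_card_of_injOn (s := (Finset.univ : Finset (Fin (3 * Fintype.card L.B))))
      (t := A) (fun i => ⟨2 * i.1, by have := i.2; unfold M; omega⟩)
      (fun i _ => by simp [A]) (fun i _ j _ h => by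
        have := congrArg Fin.val h
        simp only at this
        exact Fin.ext (by omega))
    simpa using this
  let D : Finset (Fin L.M) := Finset.univ.image s ∪ Finset.univ.image t
  have hD : D.card ≤ 2 * Fintype.card L.B := by
    have h1 := Finset.card_union_le (Finset.univ.image s) (Finset.univ.image t)
    have h2 := Finset.card_image_le (s := Finset.univ) (f := s)
    have h3 := Finset.card_image_le (s := Finset.univ) (f := t)
    rw [Finset.card_univ] at h2 h3
    simp only [D]; omega
  have h := Finset.le_card_sdiff D A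
  obtain ⟨f⟩ := Function.Embedding.nonempty_of_card_le (α := L.B) (β := (A \ D : Finset _))
    (by rw [Fintype.card_coe]; omega)
  have hf := fun b => Finset.mem_sdiff.1 (f b).2
  refine ⟨fun b => f b, fun a b h => f.injective (Subtype.ext h),
    fun b => (Finset.mem_filter.1 (hf b).1).2, fun b b' h => (hf b).2 ?_, fun b b' h => (hf b).2 ?_⟩
  · simp only at h; rw [h]; simp [D]
  · simp only at h; rw [h]; simp [D]

noncomputable def put (f : L.B → Fin L.M) (hf : Function.Injective f) (h2 : ∀ b, (f b).1 % 2 = 0)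
    (u : Fin L.M → L.B) : L.N :=
  ⟨Function.extend f id u, fun b => ⟨f b, h2 b, hf.extend_apply _ _ _⟩⟩

lemma connN (u v : L.N) : Relation.ReflTransGen (fun x y => L.rN x (L.PN y)) u v := by
  choose s hs hu using u.2
  choose t ht hv using v.2
  obtain ⟨f, hf, h2, h3, h4⟩ := L.third s t
  refine (L.share u (L.put f hf h2 u.1) s hs hu fun b => ?_).trans
    ((L.share _ (L.put f hf h2 v.1) f h2 (fun b => hf.extend_apply _ _ _)
      (fun b => hf.extend_apply _ _ _)).trans (L.share _ v t ht (fun b => ?_) hv))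
  · exact (Function.extend_apply' _ _ _ fun ⟨a, ha⟩ => h3 _ _ ha).trans (hu b)
  · exact (Function.extend_apply' _ _ _ fun ⟨a, ha⟩ => h4 _ _ ha).trans (hv b)

lemma triN (t : ℤ → L.B) :
    ∃ u : L.N, ∀ m : ℤ, m.natAbs ≤ 1 → u.1 (fm L.hM (m + 1)) = t m := by
  have h3 := L.hM
  obtain ⟨f, hf, h2, h3, h4⟩ := L.third (fun _ => ⟨0, by omega⟩) (fun _ => ⟨2, by omega⟩)
  refine ⟨L.put f hf h2 (fun i => t (i.1 - 1)), fun m hm => ?_⟩
  have h8 := (fm_eq L.hM (m + 1) 0 ⟨(m + 1).toNat, by omega⟩ (by simp only; omega)).1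
  rw [h8]
  refine (Function.extend_apply' (f := f) id (fun i : Fin L.M => t (i.1 - 1)) _ ?_).trans ?_
  · rintro ⟨a, ha⟩
    have a1 := h2 a
    have a2 : (f a).1 ≠ 0 := fun h => h3 a a (Fin.ext h)
    have a3 : (f a).1 ≠ 2 := fun h => h4 a a (Fin.ext h)
    rw [ha] at a1 a2 a3
    simp only at a1 a2 a3
    omega
  · simp only; congr 1; omega

noncomputable def next : Lv where
  B := L.N
  fin := inferInstanceAs (Finite {u : Fin L.M → L.B // _})
  ne := ⟨(L.triN fun _ => L.ne.some).choose⟩
  r := L.rN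
  p := L.PN
  rp _ _ := L.rp _
  conn := L.connN

def Fr (j : Fin L.M) (u : L.N) : Prop := ∀ b, ∃ i : Fin L.M, i ≠ j ∧ i.1 % 2 = 0 ∧ u.1 i = b

lemma even_of {j : Fin L.M} {u : L.N} (h : ¬ L.Fr j u) : j.1 % 2 = 0 := by
  by_contra hj
  refine h fun b => ?_
  obtain ⟨i, h1, h2⟩ := u.2 b
  exact ⟨i, fun e => hj (e ▸ h1), h1, h2⟩

noncomputable def psi (p : Equiv.Perm L.B) (τ : L.B → L.B → Equiv.Perm L.B) (j : Fin L.M)
    (c : L.B) (u : L.N) : L.N :=
  if h : L.Fr j u then ⟨Function.update (fun i => p (u.1 i)) j c, fun b => by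
    obtain ⟨i, h0, h1, h2⟩ := h (p.symm b)
    exact ⟨i, h1, by simp [h0, h2]⟩⟩
  else ⟨fun i => if i.1 % 2 = 0 then τ (u.1 j) c (u.1 i) else p (u.1 i), fun b => by
    obtain ⟨i, h1, h2⟩ := u.2 ((τ (u.1 j) c).symm b)
    exact ⟨i, h1, by simp [h1, h2]⟩⟩

variable (p q : Equiv.Perm L.B) (τ τ' : L.B → L.B → Equiv.Perm L.B)

lemma psi0 (hτ : ∀ a c, τ a c a = c) (j : Fin L.M) (c : L.B) (u : L.N) :
    (L.psi p τ j c u).1 j = c := by
  unfold psi
  split_ifs with h
  · simp
  · simp [L.even_of h, hτ]

lemma psi1 (j : Fin L.M) (c : L.B) (u : L.N) (i : Fin L.M)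
    (hi : ((i : ℤ) - (j : ℕ)).natAbs = 1) : (L.psi p τ j c u).1 i = p (u.1 i) := by
  unfold psi
  split_ifs with h
  · have : i ≠ j := by rintro rfl; simp at hi
    simp [this]
  · have := L.even_of h
    have : ¬ i.1 % 2 = 0 := by omega
    simp [this]

lemma psi2 (hτ : ∀ a c b, b ≠ a → L.r b (τ a c b)) (j : Fin L.M) (c : L.B) (u : L.N)
    (i : Fin L.M) (hi : i ≠ j) : L.r (u.1 i) ((L.psi L.p τ j c u).1 i) := by
  unfold psi
  split_ifs with h
  · simpa [hi] using L.rp _
  · simp only
    split_ifs with h2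
    · refine hτ _ _ _ fun e => h fun b => ?_
      obtain ⟨l, h3, h4⟩ := u.2 b
      by_cases hl : l = j
      · exact ⟨i, hi, h2, by rw [e, ← hl, h4]⟩
      · exact ⟨l, hl, h3, h4⟩
    · exact L.rp _

lemma psi3 (hq : ∀ b, q (p b) = b) (hτ : ∀ a c, τ a c a = c)
    (hτ' : ∀ a c b, τ' c a (τ a c b) = b) (j : Fin L.M) (c : L.B) (u : L.N) :
    L.psi q τ' j (u.1 j) (L.psi p τ j c u) = u := by
  have h0 := L.psi0 p τ hτ j c u
  by_cases h : L.Fr j u
  · have e : ∀ i, i ≠ j → (L.psi p τ j c u).1 i = p (u.1 i) := by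
      intro i hi; unfold psi; simp [dif_pos h, hi]
    have h' : L.Fr j (L.psi p τ j c u) := fun b => by
      obtain ⟨i, h0, h1, h2⟩ := h (p.symm b)
      exact ⟨i, h0, h1, by simp [e i h0, h2]⟩
    generalize L.psi p τ j c u = v at *
    refine Subtype.ext (funext fun i => ?_)
    unfold psi
    by_cases hi : i = j
    · simp [dif_pos h', hi]
    · simp [dif_pos h', hi, e i hi, hq]
  · have e : ∀ i, (L.psi p τ j c u).1 i =
        if i.1 % 2 = 0 then τ (u.1 j) c (u.1 i) else p (u.1 i) := by
      intro i; unfold psi; simp [dif_neg h]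
    have h' : ¬ L.Fr j (L.psi p τ j c u) := fun h' => h fun b => by
      obtain ⟨i, h0, h1, h2⟩ := h' (τ (u.1 j) c b)
      rw [e, if_pos h1] at h2
      exact ⟨i, h0, h1, (τ _ _).injective h2⟩
    generalize L.psi p τ j c u = v at *
    refine Subtype.ext (funext fun i => ?_)
    unfold psi
    simp only [dif_neg h', h0, e i]
    split_ifs
    · exact hτ' _ _ _
    · exact hq _

end Lv

def L0 : Lv where
  B := Fin 3
  fin := inferInstance
  ne := inferInstance
  r a b := a ≠ b
  p := Equiv.addRight 1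
  rp := by decide
  conn a b := by
    have h : ∀ x : Fin 3, Relation.ReflTransGen
        (fun x y : Fin 3 => x ≠ Equiv.addRight 1 y) x (x + 1) :=
      fun x => Relation.ReflTransGen.single (by revert x; decide)
    have : b = a ∨ b = a + 1 ∨ b = a + 1 + 1 := by revert a b; decide
    rcases this with rfl | rfl | rfl
    · rfl
    · exact h _
    · exact (h _).trans (h _)

noncomputable def lv : ℕ → Lv
  | 0 => L0
  | k + 1 => (lv k).next

noncomputable def TT : Tw where
  B k := (lv k).B
  fin k := (lv k).fin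
  ne := (lv 0).ne
  M k := (lv k).M
  hM k := (lv k).hM
  sub _ u := u.1
  surj _ u b := (u.2 b).imp fun _ h => h.2
  tri k := (lv k).triN

/-- There is a nonempty compact metric space with two minimal homeomorphisms T, S (all forward orbits dense) such that for no point x does (T^n x, S^n x) come arbitrarily close to (x,x) for some n ≥ 1. -/
theorem result :
    ∃ (X : Type) (_ : MetricSpace X) (_ : CompactSpace X) (_ : Nonempty X) (T S : X ≃ₜ X),
      (∀ x : X, Dense (Set.range (fun n : ℕ => (⇑T)^[n] x))) ∧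
      (∀ x : X, Dense (Set.range (fun n : ℕ => (⇑S)^[n] x))) ∧
      ∀ x : X, ¬ (∀ ε : ℝ, 0 < ε →
        ∃ n : ℕ, 0 < n ∧ dist ((⇑T)^[n] x) x < ε ∧ dist ((⇑S)^[n] x) x < ε) := by
  choose τ h1 h2 using fun k => (lv k).exTau
  have h1' : ∀ k a c, (τ k c a).symm a = c := fun k a c => by
    rw [Equiv.symm_apply_eq, h1]
  exact Tw.main (T := TT)
    ⟨fun k => (lv k).p, fun k => (lv k).psi (lv k).p (τ k), fun _ _ _ => rfl,
      fun k => (lv k).psi0 _ _ (h1 k), fun k => (lv k).psi1 _ _⟩
    ⟨fun k => (lv k).p.symm, fun k => (lv k).psi (lv k).p.symm (fun c a => (τ k a c).symm),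
      fun _ _ _ => rfl, fun k => (lv k).psi0 _ _ (h1' k), fun k => (lv k).psi1 _ _⟩
    (fun k b => (lv k).p.symm_apply_apply b) (fun k b => (lv k).p.apply_symm_apply b)
    (fun k => (lv k).psi3 _ _ _ _ (lv k).p.symm_apply_apply (h1 k)
      (fun a c b => (τ k a c).symm_apply_apply b))
    (fun k => (lv k).psi3 _ _ _ _ (lv k).p.apply_symm_apply (h1' k)
      (fun a c b => (τ k c a).apply_symm_apply b))
    (fun k => (lv k).r) (fun b h => h rfl) (fun k => (lv k).rp) (fun k u v i h => h i)
    (fun k => (lv k).psi2 _ (h2 k))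

end Pool.Agent.S06623
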