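import Pool.Statements.S06628
import Pool.Agent.H32.Sat4

set_option autoImplicit false
open Pool Pool.MP_efa496_an

namespace Pool.Agent.S06628

/-- The negation of the preceding statement: For G a complex domain and P a Hausdorff locally convex uniformly stable ℂ[z]-module of holomorphic ℂ^q-valued functions with condition (3), every divisorial submodule of local rank k is saturated w.r.t. every f in P. -/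
theorem result :
    ¬ (∀ (G : Set ℂ), IsOpen G → IsConnected G →
 ∀ (q : ℕ), 1 ≤ q →
 ∀ (P : Submodule ℂ (ℂ → Fin q → ℂ)),
 (∀ f ∈ P, DifferentiableOn ℂ f G ∧ ∀ w ∉ G, f w = 0) →
 (∀ (p : Polynomial ℂ), ∀ f ∈ P, (fun w => p.eval w • f w) ∈ P) →
 ∀ (τ : TopologicalSpace ↥P),
 @T2Space ↥P τ → @IsTopologicalAddGroup ↥P τ _ → @ContinuousSMul ℂ ↥P _ _ τ →
 (∀ V ∈ @nhds ↥P τ 0, ∃ U ∈ @nhds ↥P τ 0, U ⊆ V ∧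
   ∀ x ∈ U, ∀ y ∈ U, ∀ t : ℝ, 0 ≤ t → t ≤ 1 → (t : ℂ) • x + ((1 - t : ℝ) : ℂ) • y ∈ U) →
 (∀ (p : Polynomial ℂ) (g : ↥P → ↥P),
   (∀ x : ↥P, ((g x : ↥P) : ℂ → Fin q → ℂ) = fun w => p.eval w • (x : ℂ → Fin q → ℂ) w) →
   @Continuous ↥P ↥P τ τ g) →
 (∀ V ∈ @nhds ↥P τ 0, ∃ U ∈ @nhds ↥P τ 0, ∀ (c : ℂ), ∀ x ∈ U, ∀ g : ℂ → Fin q → ℂ,
   DifferentiableOn ℂ g G → (∀ w ∉ G, g w = 0) →
   (∀ w ∈ G, (x : ℂ → Fin q → ℂ) w = (w - c) • g w) →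
   ∃ y ∈ V, (y : ℂ → Fin q → ℂ) = g) →
 (∀ (n : ℕ) (F : Fin n → ↥P),
   (∀ g : ℂ → Fin q → ℂ, DifferentiableOn ℂ g G → (∀ w ∉ G, g w = 0) →
     (∀ w ∈ G, ∀ i, ‖g w i‖ ≤ ∑ m, ‖(F m : ℂ → Fin q → ℂ) w i‖) → g ∈ P) ∧
   (∀ V ∈ @nhds ↥P τ 0, ∃ r : ℝ, 0 < r ∧ ∀ a : ℂ, r ≤ ‖a‖ → ∀ x : ↥P,
     (∀ w ∈ G, ∀ i, ‖(x : ℂ → Fin q → ℂ) w i‖ ≤ ∑ m, ‖(F m : ℂ → Fin q → ℂ) w i‖) →
     ∃ y ∈ V, x = a • y)) →
 ∀ (I : Submodule ℂ (ℂ → Fin q → ℂ)), I ≤ P →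
 (∀ (p : Polynomial ℂ), ∀ f ∈ I, (fun w => p.eval w • f w) ∈ I) →
 (∀ f ∈ P, (∀ c ∈ G, ∃ (n : ℕ) (u : Fin n → ℂ → Fin q → ℂ) (h : Fin n → ℂ → ℂ),
     (∀ m, u m ∈ I) ∧ (∀ m, AnalyticAt ℂ (h m) c) ∧
     ∀ᶠ w in nhds c, f w = ∑ m, h m w • u m w) → f ∈ I) →
 ∀ (k : ℕ),
 (∃ c ∈ G, ∃ (u : Fin k → ℂ → Fin q → ℂ) (J : Fin k → Fin q), (∀ s, u s ∈ I) ∧ StrictMono J ∧
   ¬ (∀ᶠ w in nhds c, (Matrix.of fun r s => u s w (J r)).det = 0)) →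
 (∀ c ∈ G, ∀ (r : ℕ) (u : Fin r → ℂ → Fin q → ℂ) (J : Fin r → Fin q), (∀ s, u s ∈ I) →
   StrictMono J → ¬ (∀ᶠ w in nhds c, (Matrix.of fun a s => u s w (J a)).det = 0) → r ≤ k) →
 ∀ f ∈ P, ∀ V ∈ @nhds ↥P τ 0, ∀ Φ : ℂ → ℂ, DifferentiableOn ℂ Φ G →
 (∀ z ∈ G, ∀ (u : Fin k → ↥P) (J : Fin k → Fin q), (∀ s, u s ∈ V) →
   (∀ s, (u s : ℂ → Fin q → ℂ) ∈ I) → StrictMono J →
   (Matrix.of fun r s => (u s : ℂ → Fin q → ℂ) z (J r)).det ≠ 0 →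
   ‖Φ z‖ ≤ 1 + ∑ s, ‖((Matrix.of fun r s' => (u s' : ℂ → Fin q → ℂ) z (J r)).updateCol s
       (fun r => f z (J r))).det / (Matrix.of fun r s' => (u s' : ℂ → Fin q → ℂ) z (J r)).det‖) →
 ∃ C : ℝ, ∀ z ∈ G, ‖Φ z‖ ≤ C) := by
  intro h
  obtain ⟨C, hC⟩ := h Set.univ isOpen_univ isConnected_univ 4 (by norm_num) H32.Sat4.P
    (fun f hf => ⟨hf.1.differentiableOn, fun w hw => absurd trivial hw⟩) H32.Sat4.poly_mem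
    H32.Sat4.tau H32.Sat4.t2 H32.Sat4.FB.toAddGroupFilterBasis.isTopologicalAddGroup
    H32.Sat4.FB.continuousSMul H32.Sat4.lconv H32.Sat4.poly_cont H32.Sat4.stable H32.Sat4.cond3
    H32.Sat4.II (fun x hx => hx.1)
    (fun p f hf => ⟨H32.Sat4.poly_mem p f hf.1, fun z => by simp [hf.2 z]⟩)
    (fun f hf hl => ⟨hf, fun z => by
      obtain ⟨n, u, g, h1, -, h3⟩ := hl z trivial
      rw [h3.self_of_nhds]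
      simp only [Finset.sum_apply, Pi.smul_apply]
      exact ⟨Finset.sum_congr rfl fun m _ => by rw [((h1 m).2 z).1],
        Finset.sum_congr rfl fun m _ => by rw [((h1 m).2 z).2]⟩⟩)
    2 H32.Sat4.rank_ge (fun c _ r u J hu _ hn => H32.Sat4.rank_le c r u J hu hn)
    H32.Sat4.ff H32.Sat4.ff_mem (H32.Sat4.B (1 / 32)) (H32.Sat4.B_mem (by norm_num)) (fun z => z)
    differentiableOn_id (fun z _ u J hV hI hJ hd => H32.Sat4.main z u J hV hI hJ hd)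
  have := hC ((|C| + 1 : ℝ) : ℂ) trivial
  rw [Complex.norm_real, Real.norm_of_nonneg (by positivity)] at this
  linarith [le_abs_self C]

end Pool.Agent.S06628
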