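import Pool.Statements.S06629

set_option autoImplicit false
open Pool Pool.MP_efaf6a_an

namespace Pool.Agent.S06629

theorem exists_inverse_memory (M : Type) [CommMonoid M] (A : Type) [Finite A] (S : Finset M)
    (μ : (↥S → A) → A)
    (hinj : Function.Injective (fun (x : M → A) (m : M) => μ (fun s : S => x (m * s.1)))) :
    ∃ T : Finset M, ∀ x y : M → A,
      (∀ t ∈ T, μ (fun s => x (t * s.1)) = μ (fun s => y (t * s.1))) → x 1 = y 1 := by
  classical
  letI : TopologicalSpace A := ⊥
  haveI : DiscreteTopology A := ⟨rfl⟩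
  have hμ : Continuous μ := continuous_of_discreteTopology
  have hK : IsCompact {p : (M → A) × (M → A) | p.1 1 ≠ p.2 1} := by
    apply IsClosed.isCompact
    have hc : Continuous (fun p : (M → A) × (M → A) => (p.1 1, p.2 1)) := by fun_prop
    exact (isClosed_discrete {q : A × A | q.1 ≠ q.2}).preimage hc
  have hU : ∀ t : M, IsOpen {p : (M → A) × (M → A) |
      μ (fun s => p.1 (t * s.1)) ≠ μ (fun s => p.2 (t * s.1))} := by
    intro t
    have hc : Continuous (fun p : (M → A) × (M → A) =>
        (μ (fun s => p.1 (t * s.1)), μ (fun s => p.2 (t * s.1)))) := by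
      refine Continuous.prodMk (hμ.comp ?_) (hμ.comp ?_) <;> fun_prop
    exact (isOpen_discrete {q : A × A | q.1 ≠ q.2}).preimage hc
  obtain ⟨T, hT⟩ := hK.elim_finite_subcover _ hU (by
    intro p hp
    by_contra h
    simp only [Set.mem_iUnion, Set.mem_setOf_eq, not_exists, not_not] at h
    have : p.1 = p.2 := hinj (funext h)
    exact hp (by rw [this]))
  refine ⟨T, fun x y hxy => ?_⟩
  by_contra hne
  have := hT (show (x, y) ∈ {p : (M → A) × (M → A) | p.1 1 ≠ p.2 1} from hne)
  simp only [Set.mem_iUnion, Set.mem_setOf_eq] at this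
  obtain ⟨t, ht, h⟩ := this
  exact h (hxy t ht)

theorem ring_sep (R : Type) [CommRing R] [Algebra (ZMod 2) R] [Algebra.FiniteType (ZMod 2) R]
    (d : R) (hd : d ≠ 0) : ∃ I : Ideal R, Finite (R ⧸ I) ∧ d ∉ I := by
  haveI : IsNoetherianRing R := Algebra.FiniteType.isNoetherianRing (ZMod 2) R
  have hne : (Ideal.torsionOf R R d) ≠ ⊤ := by
    intro h
    have : (1 : R) ∈ Ideal.torsionOf R R d := by rw [h]; trivial
    rw [Ideal.mem_torsionOf_iff] at this
    exact hd (by simpa using this)
  obtain ⟨m, hm, hle⟩ := Ideal.exists_le_maximal _ hne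
  haveI : Finite (R ⧸ m) := by
    letI := Ideal.Quotient.field m
    haveI : Module.Finite (ZMod 2) (R ⧸ m) := finite_of_finite_type_of_isJacobsonRing _ _
    exact Module.finite_of_finite (ZMod 2)
  by_contra hcon
  push Not at hcon
  have hall : d ∈ (⨅ i : ℕ, m ^ i • ⊤ : Submodule R R) := by
    rw [Submodule.mem_iInf]
    intro i
    have := hcon (m ^ i) (Ideal.finite_quotient_pow (IsNoetherian.noetherian m) i)
    simpa using this
  obtain ⟨r, hr⟩ := (Ideal.mem_iInf_smul_pow_eq_bot_iff m d).mp hall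
  have h1 : (1 - (r : R)) ∈ Ideal.torsionOf R R d := by
    rw [Ideal.mem_torsionOf_iff, sub_smul, one_smul, hr, sub_self]
  have h2 : (1 : R) ∈ m := by
    have := m.add_mem (hle h1) r.2
    simpa using this
  exact hm.ne_top ((Ideal.eq_top_iff_one m).mpr h2)

theorem mon_sep (N : Type) [CommMonoid N] [Monoid.FG N] (F : Set N) (hF : F.Finite) :
    ∃ (Q : Type) (_ : CommMonoid Q) (_ : Finite Q) (φ : N →* Q), Set.InjOn φ F := by
  classical
  have key : ∀ p : {p : F × F // p.1 ≠ p.2}, ∃ I : Ideal (MonoidAlgebra (ZMod 2) N),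
      Finite (MonoidAlgebra (ZMod 2) N ⧸ I) ∧
      MonoidAlgebra.of (ZMod 2) N p.1.1 - MonoidAlgebra.of (ZMod 2) N p.1.2 ∉ I := by
    intro p
    apply ring_sep
    intro h
    have := MonoidAlgebra.of_injective (sub_eq_zero.mp h)
    exact p.2 (Subtype.ext this)
  choose I hI hnot using key
  haveI : Finite F := hF.to_subtype
  refine ⟨(p : {p : F × F // p.1 ≠ p.2}) → MonoidAlgebra (ZMod 2) N ⧸ I p, inferInstance,
    inferInstance, MonoidHom.pi (fun p =>
      (Ideal.Quotient.mk (I p) : MonoidAlgebra (ZMod 2) N →* _).comp (MonoidAlgebra.of (ZMod 2) N)),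
      ?_⟩
  intro a ha b hb hab
  by_contra hne
  have hne' : (⟨a, ha⟩ : F) ≠ ⟨b, hb⟩ := fun h => hne (congrArg Subtype.val h)
  have := congrFun hab ⟨(⟨a, ha⟩, ⟨b, hb⟩), hne'⟩
  apply hnot ⟨(⟨a, ha⟩, ⟨b, hb⟩), hne'⟩
  exact Ideal.Quotient.eq.mp this

theorem swap_inv (M : Type) [CommMonoid M] (A : Type) [Finite A] (S T : Finset M)
    (μ : (↥S → A) → A) (ν : (↥T → A) → A)
    (hν : ∀ x : M → A, ν (fun t => μ (fun s => x (t.1 * s.1))) = x 1) (y : M → A) :
    μ (fun s => ν (fun t => y (s.1 * t.1))) = y 1 := by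
  classical
  let N : Submonoid M := Submonoid.closure ((S ∪ T : Finset M) : Set M)
  have hSN : ∀ s ∈ S, s ∈ N := fun s hs => Submonoid.subset_closure (by simp [hs])
  have hTN : ∀ s ∈ T, s ∈ N := fun s hs => Submonoid.subset_closure (by simp [hs])
  haveI : Monoid.FG N := (Monoid.fg_iff_submonoid_fg N).mpr ⟨S ∪ T, rfl⟩
  let a : S → N := fun s => ⟨s.1, hSN _ s.2⟩
  let b : T → N := fun t => ⟨t.1, hTN _ t.2⟩
  let F : Set N := insert 1 (Set.range (fun p : S × T => a p.1 * b p.2))
  have hF : F.Finite := (Set.finite_range _).insert 1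
  obtain ⟨Q, _, _, φ, hφ⟩ := mon_sep N F hF
  let τ : (Q → A) → (Q → A) := fun x q => μ (fun s => x (q * φ (a s)))
  let σ : (Q → A) → (Q → A) := fun x q => ν (fun t => x (q * φ (b t)))
  have hl : Function.LeftInverse σ τ := by
    intro x
    funext q
    let x' : M → A := fun m => if h : m ∈ N then x (q * φ ⟨m, h⟩) else x q
    have h1 := hν x'
    have e1 : x' 1 = x q := by
      simp only [x', dif_pos N.one_mem]
      have e : (⟨1, N.one_mem⟩ : N) = 1 := rfl
      rw [e, map_one, mul_one]
    rw [e1] at h1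
    rw [← h1]
    show ν _ = ν _
    congr 1
    funext t
    show μ _ = μ _
    congr 1
    funext s
    have hm : t.1 * s.1 ∈ N := N.mul_mem (hTN _ t.2) (hSN _ s.2)
    simp only [x', dif_pos hm]
    rw [mul_assoc, ← map_mul]
    rfl
  have hr : Function.RightInverse σ τ :=
    hl.rightInverse_of_surjective (Finite.injective_iff_surjective.mp hl.injective)
  let y' : Q → A := fun q => y (Function.invFunOn φ F q).1
  have hy' : ∀ f ∈ F, y' (φ f) = y f.1 := by
    intro f hf
    simp only [y']
    rw [hφ.leftInvOn_invFunOn hf]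
  have h2 := congrFun (hr y') 1
  have e2 : y' 1 = y 1 := by
    have := hy' 1 (Set.mem_insert _ _)
    rwa [map_one] at this
  rw [e2] at h2
  rw [← h2]
  show μ _ = μ _
  congr 1
  funext s
  show ν _ = ν _
  congr 1
  funext t
  rw [one_mul, ← map_mul, hy' _ (Set.mem_insert_of_mem _ ⟨(s, t), rfl⟩)]
  rfl


/-- For every commutative monoid M and finite alphabet A, every cellular automaton on A^M (finite memory set S, local rule μ, x ↦ (m ↦ μ(s ↦ x(m·s)))) that is injective is also surjective. -/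
theorem result :
    ∀ (M : Type) [CommMonoid M] (A : Type) [Finite A] (S : Finset M) (μ : (S → A) → A),
      Function.Injective (fun (x : M → A) (m : M) => μ (fun s : S => x (m * s.1))) →
      Function.Surjective (fun (x : M → A) (m : M) => μ (fun s : S => x (m * s.1))) := by
  intro M _ A _ S μ hinj y
  classical
  obtain ⟨T, hT⟩ := exists_inverse_memory M A S μ hinj
  let ν : (↥T → A) → A := fun c =>
    if h : ∃ x : M → A, ∀ t : T, μ (fun s => x (t.1 * s.1)) = c t then h.choose 1 else y 1
  have hν : ∀ x : M → A, ν (fun t => μ (fun s => x (t.1 * s.1))) = x 1 := by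
    intro x
    have h : ∃ x' : M → A, ∀ t : T, μ (fun s => x' (t.1 * s.1)) =
        (fun t : T => μ (fun s => x (t.1 * s.1))) t := ⟨x, fun t => rfl⟩
    simp only [ν]
    rw [dif_pos h]
    exact hT _ _ (fun t ht => h.choose_spec ⟨t, ht⟩)
  refine ⟨fun m => ν (fun t => y (m * t.1)), ?_⟩
  funext m
  have := swap_inv M A S T μ ν hν (fun n => y (m * n))
  simp only [mul_one] at this
  rw [← this]
  simp only [mul_assoc]

end Pool.Agent.S06629
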