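import Pool.Statements.S06658
import Pool.Agent.H9.Ghost3

set_option autoImplicit false
open Pool Pool.MP_f1354d_an

namespace Pool.Agent.S06658

/-- The negation of the preceding statement: For every real Banach space X and maximally monotone A from X to subsets of X*, and every open convex U meeting dom A: any (x,x*) with x in U monotonically related to all graph points over U lies in the graph (type FPV). -/
theorem result :
    ¬ (∀ (X : Type) [NormedAddCommGroup X] [NormedSpace ℝ X] [CompleteSpace X]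
      (A : X → Set (X →L[ℝ] ℝ)),
      ((∀ x y : X, ∀ xs ∈ A x, ∀ ys ∈ A y, 0 ≤ (xs - ys) (x - y)) ∧
        (∀ (x : X) (xs : X →L[ℝ] ℝ),
          (∀ y : X, ∀ ys ∈ A y, 0 ≤ (xs - ys) (x - y)) → xs ∈ A x)) →
      ∀ U : Set X, IsOpen U → Convex ℝ U → (∃ y ∈ U, (A y).Nonempty) →
        ∀ x ∈ U, ∀ xs : X →L[ℝ] ℝ,
          (∀ y ∈ U, ∀ ys ∈ A y, 0 ≤ (xs - ys) (x - y)) → xs ∈ A x) := by
  intro h
  obtain ⟨L, B, -, h1, h2, -, ⟨q, hq, e2⟩, h3⟩ := H9.Ghost.op
  have h4 := h _ (fun x => {f | (x, f) ∈ B}) ⟨fun x y f hf g hg => h1 _ hf _ hg,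
    fun x f hf => h2 (x, f) fun p hp => hf _ _ hp⟩ {x | x.1 < 1}
    (isOpen_lt continuous_fst continuous_const)
    (convex_halfSpace_lt (LinearMap.fst ℝ ℝ H9.Hyper.V).isLinear 1)
    ⟨q.1, show q.1.1 < 1 by linarith, q.2, hq⟩ 0 (zero_lt_one' ℝ)
    (L • ContinuousLinearMap.fst ℝ ℝ _)
    fun y hy g hg => by
      obtain ⟨e3, e4⟩ := h3 _ hg
      have e5 : y.1 < 0 := by
        by_contra! e
        rw [abs_of_nonneg e] at e3
        exact e3.not_gt hy
      rw [abs_of_neg e5] at e4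
      rw [zero_sub, map_neg]
      show 0 ≤ -(L * y.1 - g y)
      linarith
  simpa using (h3 _ h4).1.not_ge

end Pool.Agent.S06658
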