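import Pool.Statements.S06672
-- import your own Pool.Agent.* helpers here

set_option autoImplicit false
open Pool Pool.MP_f23f32_an

namespace Pool.Agent.S06672

open Filter Topology InnerProductSpace

attribute [local instance] Ultrafilter.add Ultrafilter.addSemigroup

lemma exU : ∃ U : Ultrafilter ℤ,
    (∀ p : ℤ → Prop, (∀ᶠ m in (U : Filter ℤ), p m) →
      ∀ᶠ m in (U : Filter ℤ), ∀ᶠ m' in (U : Filter ℤ), p (m + m')) ∧
    ∀ q : ℕ, q ≠ 0 → ∀ᶠ n in (U : Filter ℤ), (q : ℤ) ∣ n ∧ n ≠ 0 := by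
  obtain ⟨V, hV⟩ := exists_idempotent_of_compact_t2_of_continuous_add_left
    (@Ultrafilter.continuous_add_left ℕ+ _)
  have hid : ∀ p : ℕ+ → Prop, (∀ᶠ m in (V : Filter ℕ+), p m) →
      ∀ᶠ m in (V : Filter ℕ+), ∀ᶠ m' in (V : Filter ℕ+), p (m + m') := by
    intro p hp
    rw [← hV] at hp
    exact (Ultrafilter.eventually_add V V p).1 hp
  refine ⟨V.map (fun n : ℕ+ => ((n : ℕ) : ℤ)), ?_, ?_⟩
  · intro p hp
    simp only [Ultrafilter.coe_map, eventually_map] at hp ⊢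
    simpa only [PNat.add_coe, Nat.cast_add] using hid _ hp
  · intro q hq
    haveI : NeZero q := ⟨hq⟩
    simp only [Ultrafilter.coe_map, eventually_map]
    obtain ⟨r, hr⟩ := Ultrafilter.eq_pure_of_finite (V.map (fun n : ℕ+ => ((n : ℕ) : ZMod q)))
    have h1 : ∀ᶠ n : ℕ+ in (V : Filter ℕ+), ((n : ℕ) : ZMod q) = r := by
      have : ∀ᶠ z in ((V.map (fun n : ℕ+ => ((n : ℕ) : ZMod q)) : Ultrafilter _) : Filter _),
          z = r := by rw [hr]; simp
      simpa only [Ultrafilter.coe_map, eventually_map] using this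
    obtain ⟨a, ha, ha'⟩ := (h1.and (hid _ h1)).exists
    obtain ⟨b, hb, hb'⟩ := (h1.and ha').exists
    have hr0 : r = 0 := by
      rw [PNat.add_coe, Nat.cast_add, ha, hb] at hb'
      simpa using hb'
    filter_upwards [h1] with n hn
    rw [hr0, ZMod.natCast_eq_zero_iff] at hn
    exact ⟨Int.natCast_dvd_natCast.2 hn, by simp⟩

abbrev HH : Type := lp (fun _ : ℤ => ℂ) 2

noncomputable def ee (i : ℤ) : HH := lp.single 2 i (1 : ℂ)

lemma inner_ee (i : ℤ) (f : HH) : ⟪ee i, f⟫_ℂ = f i := by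
  rw [ee, lp.inner_single_left]; simp

lemma ee_apply (i j : ℤ) : ee i j = if j = i then 1 else 0 := by
  rw [ee, lp.single_apply, Pi.single_apply]

lemma mem_comp (σ : Equiv.Perm ℤ) (f : HH) : Memℓp (fun i => f (σ i)) 2 := by
  have h := lp.memℓp f
  rw [memℓp_gen_iff (by norm_num)] at h ⊢
  exact (σ.summable_iff (f := fun i => ‖f i‖ ^ (2 : ENNReal).toReal)).2 h

noncomputable def RL (σ : Equiv.Perm ℤ) : HH →ₗ[ℂ] HH where
  toFun f := ⟨fun i => f (σ i), mem_comp σ f⟩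
  map_add' f g := by ext i; rfl
  map_smul' c f := by ext i; rfl

lemma inner_RL (σ : Equiv.Perm ℤ) (f g : HH) : ⟪RL σ f, RL σ g⟫_ℂ = ⟪f, g⟫_ℂ := by
  rw [lp.inner_eq_tsum, lp.inner_eq_tsum]
  exact σ.tsum_eq (fun i => ⟪f i, g i⟫_ℂ)

lemma norm_RL (σ : Equiv.Perm ℤ) (f : HH) : ‖RL σ f‖ = ‖f‖ := by
  rw [@norm_eq_sqrt_re_inner ℂ, inner_RL, ← @norm_eq_sqrt_re_inner ℂ]

noncomputable def RR (σ : Equiv.Perm ℤ) : HH →L[ℂ] HH :=
  (RL σ).mkContinuous 1 (fun f => by rw [norm_RL, one_mul])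

lemma RR_apply (σ : Equiv.Perm ℤ) (f : HH) (i : ℤ) : RR σ f i = f (σ i) := rfl

noncomputable def uu (n : ℤ) : HH →L[ℂ] HH := RR (Equiv.addRight n)

lemma uu_apply (n : ℤ) (f : HH) (i : ℤ) : uu n f i = f (i + n) := rfl

lemma uu_uu (n m : ℤ) (f : HH) : uu n (uu m f) = uu (n + m) f := by
  ext i; simp [uu_apply, add_assoc]

lemma uu_zero (f : HH) : uu 0 f = f := by ext i; simp [uu_apply]

lemma norm_uu (n : ℤ) (f : HH) : ‖uu n f‖ = ‖f‖ := norm_RL _ f

lemma inner_uu (n : ℤ) (f g : HH) : ⟪f, uu n g⟫_ℂ = ⟪uu (-n) f, g⟫_ℂ := by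
  have := inner_RL (Equiv.addRight n) (uu (-n) f) g
  change ⟪uu n (uu (-n) f), uu n g⟫_ℂ = _ at this
  rwa [uu_uu, add_neg_cancel, uu_zero] at this

lemma star_uu (n : ℤ) : star (uu n) = uu (-n) := by
  rw [ContinuousLinearMap.star_eq_adjoint]
  symm
  rw [ContinuousLinearMap.eq_adjoint_iff]
  intro x y
  rw [inner_uu]

lemma uu_ee (n j : ℤ) : uu (-n) (ee j) = ee (j + n) := by
  ext i
  rw [uu_apply, ee_apply, ee_apply]
  have : (i + -n = j) ↔ (i = j + n) := by constructor <;> intro h <;> omega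
  simp only [this]

def Lim (U : Ultrafilter ℤ) (x y : HH →L[ℂ] HH) : Prop :=
  ∀ f g : HH, Tendsto (fun n => ⟪f, uu n (x (uu (-n) g))⟫_ℂ) U (𝓝 ⟪f, y g⟫_ℂ)

lemma bd (x : HH →L[ℂ] HH) (f g : HH) (n : ℤ) :
    ‖⟪f, uu n (x (uu (-n) g))⟫_ℂ‖ ≤ ‖x‖ * ‖f‖ * ‖g‖ := by
  refine (norm_inner_le_norm _ _).trans ?_
  rw [norm_uu]
  have := x.le_opNorm (uu (-n) g)
  rw [norm_uu] at this
  calc ‖f‖ * ‖x (uu (-n) g)‖ ≤ ‖f‖ * (‖x‖ * ‖g‖) := by gcongr
    _ = _ := by ring

lemma Lim.unique {U : Ultrafilter ℤ} {x y z : HH →L[ℂ] HH} (h : Lim U x y) (h' : Lim U x z) :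
    y = z := by
  ext1 g
  exact ext_inner_left ℂ fun f => tendsto_nhds_unique (h f g) (h' f g)

lemma exLim (U : Ultrafilter ℤ) (x : HH →L[ℂ] HH) : ∃ y, Lim U x y := by
  have h1 : ∀ f g : HH, ∃ c : ℂ, Tendsto (fun n => ⟪uu n (x (uu (-n) g)), f⟫_ℂ) U (𝓝 c) := by
    intro f g
    obtain ⟨c, -, hc⟩ := (isCompact_closedBall (0 : ℂ) (‖x‖ * ‖f‖ * ‖g‖)).ultrafilter_le_nhds
      (U.map fun n => ⟪uu n (x (uu (-n) g)), f⟫_ℂ) (by
        rw [Ultrafilter.coe_map, le_principal_iff, mem_map]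
        refine Eventually.of_forall fun n => ?_
        exact mem_closedBall_zero_iff.2 (by rw [norm_inner_symm]; exact bd x f g n))
    exact ⟨c, hc⟩
  choose c hc using h1
  have hb : ∀ f g, ‖c f g‖ ≤ ‖x‖ * ‖g‖ * ‖f‖ := fun f g =>
    le_of_tendsto (hc f g).norm (Eventually.of_forall fun n => by
      rw [norm_inner_symm, mul_right_comm]; exact bd x f g n)
  let B : HH →ₛₗ[starRingEnd ℂ] HH →ₗ[ℂ] ℂ := LinearMap.mk₂'ₛₗ _ _ (fun g f => c f g)
    (fun g g' f => tendsto_nhds_unique (hc f (g + g')) (by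
      simpa only [map_add, inner_add_left] using (hc f g).add (hc f g')))
    (fun a g f => tendsto_nhds_unique (hc f (a • g)) (by
      simpa only [map_smul, inner_smul_left, smul_eq_mul] using (hc f g).const_mul _))
    (fun g f f' => tendsto_nhds_unique (hc (f + f') g) (by
      simpa only [inner_add_right] using (hc f g).add (hc f' g)))
    (fun a g f => tendsto_nhds_unique (hc (a • f) g) (by
      simpa only [inner_smul_right, smul_eq_mul, RingHom.id_apply] using (hc f g).const_mul _))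
  let B' : HH →L⋆[ℂ] HH →L[ℂ] ℂ := B.mkContinuous₂ ‖x‖ (fun g f => hb f g)
  refine ⟨continuousLinearMapOfBilin B', fun f g => ?_⟩
  have h2 : ⟪continuousLinearMapOfBilin B' g, f⟫_ℂ = c f g := continuousLinearMapOfBilin_apply _ _ _
  have h3 := (Complex.continuous_conj.tendsto _).comp (hc f g)
  rw [← h2, inner_conj_symm] at h3
  refine h3.congr fun n => ?_
  simp only [Function.comp, inner_conj_symm]

noncomputable def psi (U : Ultrafilter ℤ) : (HH →L[ℂ] HH) →ₗ[ℂ] (HH →L[ℂ] HH) where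
  toFun x := (exLim U x).choose
  map_add' x y := (exLim U (x + y)).choose_spec.unique (fun f g => by
    simpa only [ContinuousLinearMap.add_apply, map_add, inner_add_right] using
      ((exLim U x).choose_spec f g).add ((exLim U y).choose_spec f g))
  map_smul' a x := (exLim U (a • x)).choose_spec.unique (fun f g => by
    simpa only [ContinuousLinearMap.smul_apply, map_smul, inner_smul_right, RingHom.id_apply] using
      ((exLim U x).choose_spec f g).const_mul a)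

lemma psi_lim (U : Ultrafilter ℤ) (x : HH →L[ℂ] HH) : Lim U x (psi U x) := (exLim U x).choose_spec

lemma psi_norm (U : Ultrafilter ℤ) (x : HH →L[ℂ] HH) : ‖psi U x‖ ≤ ‖x‖ := by
  refine ContinuousLinearMap.opNorm_le_bound _ (norm_nonneg _) fun g => ?_
  have h := le_of_tendsto (psi_lim U x (psi U x g) g).norm
    (Eventually.of_forall fun n => bd x _ g n)
  rw [inner_self_eq_norm_sq_to_K] at h
  simp only [norm_pow, RCLike.norm_ofReal, abs_norm] at h
  rcases (norm_nonneg (psi U x g)).eq_or_lt with h0 | h0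
  · rw [← h0]; positivity
  · nlinarith

lemma psi_idem (U : Ultrafilter ℤ) (hU : ∀ p : ℤ → Prop, (∀ᶠ m in (U : Filter ℤ), p m) →
      ∀ᶠ m in (U : Filter ℤ), ∀ᶠ m' in (U : Filter ℤ), p (m + m')) (x : HH →L[ℂ] HH) :
    psi U (psi U x) = psi U x := by
  refine (psi_lim U _).unique fun f g => ?_
  rw [Metric.tendsto_nhds]
  intro ε hε
  have h1 := hU _ (Metric.tendsto_nhds.1 (psi_lim U x f g) (ε / 2) (by positivity))
  filter_upwards [h1] with n hn
  have h2 := (psi_lim U x (uu (-n) f) (uu (-n) g)).dist (tendsto_const_nhds (x := ⟪f, psi U x g⟫_ℂ))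
  have h3 := le_of_tendsto h2 (b := ε / 2) (by
    filter_upwards [hn] with m hm
    rw [← inner_uu, uu_uu, uu_uu]
    rw [neg_add, add_comm (-n)] at hm
    exact hm.le)
  rw [inner_uu]
  linarith

lemma psi_left (U : Ultrafilter ℤ) (a x : HH →L[ℂ] HH) (ha : ∀ n, uu n * a = a * uu n) :
    a * psi U x = psi U (a * x) := by
  refine Lim.unique (fun f g => ?_) (psi_lim U _)
  have h := psi_lim U x (ContinuousLinearMap.adjoint a f) g
  simp only [ContinuousLinearMap.adjoint_inner_left] at h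
  refine h.congr fun n => ?_
  have := congrArg (fun T : HH →L[ℂ] HH => T (x (uu (-n) g))) (ha n)
  simp only [ContinuousLinearMap.mul_apply] at this ⊢
  rw [this]

lemma psi_right (U : Ultrafilter ℤ) (a x : HH →L[ℂ] HH) (ha : ∀ n, uu n * a = a * uu n) :
    psi U x * a = psi U (x * a) := by
  refine Lim.unique (fun f g => ?_) (psi_lim U _)
  refine (psi_lim U x f (a g)).congr fun n => ?_
  have := congrArg (fun T : HH →L[ℂ] HH => T g) (ha (-n))
  simp only [ContinuousLinearMap.mul_apply] at this ⊢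
  rw [this]

lemma psi_one (U : Ultrafilter ℤ) : psi U 1 = 1 := by
  refine (psi_lim U _).unique fun f g => ?_
  simp [uu_uu, uu_zero]

lemma psi_entry (U : Ultrafilter ℤ) (x : HH →L[ℂ] HH) (i j : ℤ) :
    Tendsto (fun n => x (ee (j + n)) (i + n)) U (𝓝 (psi U x (ee j) i)) := by
  have := psi_lim U x (ee i) (ee j)
  simpa only [inner_ee, uu_apply, uu_ee] using this

def EE (k : ℕ) (j : ℤ) : Prop := (2 : ℤ) ^ k ∣ j ∧ ¬ (2 : ℤ) ^ (k + 1) ∣ j

lemma EE_iff (k : ℕ) (j : ℤ) : EE k j ↔ j ≠ 0 ∧ padicValInt 2 j = k := by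
  have h1 := padicValInt_dvd_iff (p := 2) k j
  have h2 := padicValInt_dvd_iff (p := 2) (k + 1) j
  simp only [Nat.cast_ofNat] at h1 h2
  rw [EE, h1, h2]
  by_cases h : j = 0
  · simp [h]
  · simp only [h, false_or, ne_eq, not_false_eq_true, true_and]; omega

lemma EE_add (k : ℕ) (j n : ℤ) (h : (2 : ℤ) ^ (k + 1) ∣ n) : EE k (j + n) ↔ EE k j := by
  rw [EE, EE, dvd_add_left h, dvd_add_left ((pow_dvd_pow _ (Nat.le_succ k)).trans h)]

noncomputable def sg (c : ℤ) (j : ℤ) : ℤ :=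
  if j = 0 then 0 else j + c * 2 ^ (padicValInt 2 j + 1)

lemma sg_of (c : ℤ) {k : ℕ} {j : ℤ} (h : EE k j) : sg c j = j + c * 2 ^ (k + 1) := by
  rw [EE_iff] at h
  rw [sg, if_neg h.1, h.2]

lemma sg_EE (c : ℤ) {k : ℕ} {j : ℤ} (h : EE k j) : EE k (sg c j) := by
  rw [sg_of c h, EE_add _ _ _ (Dvd.intro_left _ rfl)]; exact h

lemma exE {j : ℤ} (h : j ≠ 0) : ∃ k, EE k j := ⟨_, (EE_iff _ _).2 ⟨h, rfl⟩⟩

lemma sg_sg (c j : ℤ) : sg (-c) (sg c j) = j := by
  by_cases h : j = 0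
  · simp [h, sg]
  · obtain ⟨k, hk⟩ := exE h
    rw [sg_of _ (sg_EE c hk), sg_of c hk]; ring

noncomputable def sp (c : ℤ) : Equiv.Perm ℤ where
  toFun := sg c
  invFun := sg (-c)
  left_inv := sg_sg c
  right_inv j := by simpa using sg_sg (-c) j

lemma sg_ne (c : ℤ) {j : ℤ} (h : j ≠ 0) : sg c j ≠ 0 := by
  obtain ⟨k, hk⟩ := exE h
  exact ((EE_iff _ _).1 (sg_EE c hk)).1

lemma sg_rec (U : Ultrafilter ℤ)
    (hU : ∀ q : ℕ, q ≠ 0 → ∀ᶠ n in (U : Filter ℤ), (q : ℤ) ∣ n ∧ n ≠ 0) (c : ℤ) (hc : |c| = 1)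
    (i j : ℤ) : ∀ᶠ n in (U : Filter ℤ), (sg c (i + n) = j + n ↔ j ≠ 0 ∧ i = sg (-c) j) := by
  by_cases hi : i = 0
  · subst hi
    filter_upwards [hU (2 ^ j.natAbs) (by positivity)] with n hn
    rw [zero_add]
    constructor
    · intro h
      exfalso
      obtain ⟨k, hk⟩ := exE hn.2
      rw [sg_of c hk] at h
      have h1 : j = c * 2 ^ (k + 1) := by linarith
      have h2 : j.natAbs = 2 ^ (k + 1) := by
        have : c.natAbs = 1 := by
          have := Int.natCast_natAbs c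
          rw [hc] at this; exact_mod_cast this
        rw [h1, Int.natAbs_mul, this, one_mul, Int.natAbs_pow]; rfl
      apply hk.2
      refine (pow_dvd_pow _ ?_).trans (by simpa using hn.1)
      rw [h2]; exact Nat.lt_two_pow_self.le
    · rintro ⟨h1, h2⟩
      exact absurd h2.symm (sg_ne _ h1)
  · obtain ⟨k, hk⟩ := exE hi
    filter_upwards [hU (2 ^ (k + 1)) (by positivity)] with n hn
    have hk' := (EE_add k i n (by simpa using hn.1)).2 hk
    rw [sg_of c hk']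
    constructor
    · intro h
      have h1 : j = sg c i := by rw [sg_of c hk]; linarith
      rw [h1]
      exact ⟨sg_ne c hi, (sg_sg c i).symm⟩
    · rintro ⟨-, h2⟩
      have h1 : sg c i = j := by rw [h2]; simpa using sg_sg (-c) j
      rw [← h1, sg_of c hk]; ring

lemma psi_sp (U : Ultrafilter ℤ)
    (hU : ∀ q : ℕ, q ≠ 0 → ∀ᶠ n in (U : Filter ℤ), (q : ℤ) ∣ n ∧ n ≠ 0) (c : ℤ) (hc : |c| = 1)
    (j : ℤ) : psi U (RR (sp c)) (ee j) = if j = 0 then 0 else ee (sg (-c) j) := by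
  ext i
  refine tendsto_nhds_unique (psi_entry U _ i j) (tendsto_const_nhds.congr' ?_)
  filter_upwards [sg_rec U hU c hc i j] with n hn
  rw [RR_apply, ee_apply]
  change _ = if sg c (i + n) = j + n then 1 else 0
  simp only [hn]
  by_cases hj : j = 0
  · simp [hj]
  · simp [hj, ee_apply]

noncomputable def MM : VonNeumannAlgebra HH where
  toStarSubalgebra := StarSubalgebra.centralizer ℂ (∅ : Set (HH →L[ℂ] HH))
  centralizer_centralizer' := by simp

lemma mem_MM (x : HH →L[ℂ] HH) : x ∈ MM := by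
  change x ∈ StarSubalgebra.centralizer ℂ (∅ : Set (HH →L[ℂ] HH))
  simp [StarSubalgebra.mem_centralizer_iff]

noncomputable def AA : VonNeumannAlgebra HH where
  toStarSubalgebra := StarSubalgebra.centralizer ℂ (Set.range uu)
  centralizer_centralizer' := by simp

lemma mem_AA (x : HH →L[ℂ] HH) : x ∈ AA ↔ ∀ n, uu n * x = x * uu n := by
  change x ∈ StarSubalgebra.centralizer ℂ (Set.range uu) ↔ _
  rw [StarSubalgebra.mem_centralizer_iff]
  constructor
  · intro h n; exact (h _ ⟨n, rfl⟩).1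
  · rintro h _ ⟨n, rfl⟩
    exact ⟨h n, by rw [star_uu]; exact h _⟩

lemma main : ∃ ψ : (HH →L[ℂ] HH) →ₗ[ℂ] (HH →L[ℂ] HH), (∀ x, ‖ψ x‖ ≤ ‖x‖) ∧ (∀ x, ψ (ψ x) = ψ x) ∧
    (∀ a ∈ AA, ∀ x, a * ψ x = ψ (a * x) ∧ ψ x * a = ψ (x * a)) ∧
    ∃ x y z, ∀ t, ψ t ≠ (1 / 2 : ℂ) • (ψ x * star (ψ y) * ψ z + ψ z * star (ψ y) * ψ x) := by
  obtain ⟨U, hU, hU'⟩ := exU
  refine ⟨psi U, psi_norm U, psi_idem U hU, fun a ha x =>
    ⟨psi_left U a x ((mem_AA a).1 ha), psi_right U a x ((mem_AA a).1 ha)⟩,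
    RR (sp 1), 1, RR (sp (-1)), fun t ht => ?_⟩
  have h1 := psi_sp U hU' 1 (by norm_num)
  have h2 := psi_sp U hU' (-1) (by norm_num)
  have hZ : ∀ j, psi U t (ee j) = if j = 0 then 0 else ee j := by
    intro j
    rw [ht, psi_one, star_one, mul_one, mul_one]
    simp only [ContinuousLinearMap.smul_apply, ContinuousLinearMap.add_apply,
      ContinuousLinearMap.mul_apply, h1, h2]
    by_cases hj : j = 0
    · simp [hj]
    · have e1 := sg_sg (-1) j
      simp only [if_neg hj, h1, h2, if_neg (sg_ne _ hj), neg_neg, sg_sg] at e1 ⊢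
      rw [e1]; module
  have h3 := psi_entry U (psi U t) 0 0
  rw [psi_idem U hU, hZ, if_pos rfl] at h3
  have h4 : Tendsto (fun n => psi U t (ee (0 + n)) (0 + n)) U (𝓝 1) := by
    refine tendsto_const_nhds.congr' ?_
    filter_upwards [hU' 1 one_ne_zero] with n hn
    rw [zero_add, hZ, if_neg hn.2, ee_apply, if_pos rfl]
  simpa using tendsto_nhds_unique h3 h4

/-- The negation of the preceding statement: For von Neumann algebras A ⊆ M on a Hilbert space with M ∩ A′ ⊆ A, suppose ψ is a contractive linear idempotent on M whose range is an A-bimodule. Then the range is closed under ½(ab*c + cb*a). -/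
theorem result :
    ¬ (∀ (H : Type) [NormedAddCommGroup H] [InnerProductSpace ℂ H] [CompleteSpace H]
      (M A : VonNeumannAlgebra H), A ≤ M →
      (∀ x ∈ M, (∀ a ∈ A, a * x = x * a) → x ∈ A) →
      ∀ ψ : (H →L[ℂ] H) →ₗ[ℂ] (H →L[ℂ] H),
        (∀ x ∈ M, ψ x ∈ M) →
        (∀ x ∈ M, ‖ψ x‖ ≤ ‖x‖) →
        (∀ x ∈ M, ψ (ψ x) = ψ x) →
        (∀ a ∈ A, ∀ x ∈ M,
          a * ψ x ∈ ψ '' (M : Set (H →L[ℂ] H)) ∧ ψ x * a ∈ ψ '' (M : Set (H →L[ℂ] H))) →
        ∀ x ∈ M, ∀ y ∈ M, ∀ z ∈ M,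
          (1 / 2 : ℂ) • (ψ x * star (ψ y) * ψ z + ψ z * star (ψ y) * ψ x)
            ∈ ψ '' (M : Set (H →L[ℂ] H))) := by
  intro h
  obtain ⟨ψ, h1, h2, h3, x, y, z, h4⟩ := main
  obtain ⟨t, -, ht⟩ := h HH MM AA (fun x _ => mem_MM x)
    (fun x _ hx => (mem_AA x).2 fun n => hx _ ((mem_AA _).2 fun m => by
      ext1 f; simp [uu_uu, add_comm]))
    ψ (fun x _ => mem_MM _) (fun x _ => h1 x) (fun x _ => h2 x)
    (fun a ha x _ => ⟨⟨_, mem_MM _, (h3 a ha x).1.symm⟩, ⟨_, mem_MM _, (h3 a ha x).2.symm⟩⟩)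
    x (mem_MM _) y (mem_MM _) z (mem_MM _)
  exact h4 t ht

end Pool.Agent.S06672
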