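import Pool.Statements.S06696
import Pool.Agent.H22.Sch3

set_option autoImplicit false
open scoped NNReal ENNReal
open Pool Pool.MP_f41f1b_an

namespace Pool.Agent.S06696

open Pool.Agent.H22.Sch

/-- The negation of the preceding statement: For 1<p<∞, every map on S_p that is contractive in both the trace norm and the operator norm has an isometric dilation: an isometric embedding J, a contractive projection P onto J(S_p), and a linear isometry U of S_p with P Uⁿ J = J Tⁿ for all n. -/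
theorem result :
    ¬ (∀ (H : Type) [NormedAddCommGroup H] [InnerProductSpace ℂ H] [CompleteSpace H]
      (b : HilbertBasis ℕ ℂ H) (Q : ℝ → (H →L[ℂ] H) → ℝ≥0∞),
      (∀ (r : ℝ) (x : H →L[ℂ] H),
        Q r x = ∑' n : ℕ, ENNReal.ofReal
          (inner ℂ (b n) ((cfc (fun t : ℝ => t ^ (r / 2)) (star x * x)) (b n))).re) →
      ∀ p : ℝ, 1 < p →
      ∀ T : (H →L[ℂ] H) →ₗ[ℂ] (H →L[ℂ] H),
        (∀ x, Q p x < ⊤ → Q p (T x) < ⊤) →
        (∃ C : ℝ≥0, ∀ x, Q p x < ⊤ → Q p (T x) ≤ (C : ℝ≥0∞) * Q p x) →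
        (∀ x, Q p x < ⊤ → Q 1 x < ⊤ → Q 1 (T x) ≤ Q 1 x) →
        (∀ x, Q p x < ⊤ → ‖T x‖ ≤ ‖x‖) →
        ∃ J P U : (H →L[ℂ] H) →ₗ[ℂ] (H →L[ℂ] H),
          (∀ x, Q p x < ⊤ → Q p (J x) = Q p x) ∧
          (∀ y, Q p y < ⊤ → ∃ x, Q p x < ⊤ ∧ P y = J x) ∧
          (∀ x, Q p x < ⊤ → P (J x) = J x) ∧
          (∀ y, Q p y < ⊤ → Q p (P y) ≤ Q p y) ∧
          (∀ x, Q p x < ⊤ → Q p (U x) = Q p x) ∧
          (∀ n : ℕ, ∀ x, Q p x < ⊤ → P ((U ^ n) (J x)) = J ((T ^ n) x))) := by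
  intro hh
  obtain ⟨H, _, _, _, ⟨b⟩⟩ : ∃ (H : Type) (_ : NormedAddCommGroup H) (_ : InnerProductSpace ℂ H)
      (_ : CompleteSpace H), Nonempty (HilbertBasis ℕ ℂ H) :=
    ⟨lp (fun _ : ℕ => ℂ) 2, inferInstance, inferInstance, inferInstance,
      ⟨HilbertBasis.ofRepr (LinearIsometryEquiv.refl _ _)⟩⟩
  obtain ⟨Q, hQ⟩ : ∃ Q : ℝ → (H →L[ℂ] H) → ℝ≥0∞,
      ∀ r x, Q r x = ∑' n : ℕ, ENNReal.ofReal
        (inner ℂ (b n) ((cfc (fun t : ℝ => t ^ (r / 2)) (star x * x)) (b n))).re :=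
    ⟨_, fun _ _ => rfl⟩
  have q4 : ∀ x, Q 4 x = ∑' n, ENNReal.ofReal (‖(star x * x) (b n)‖ ^ 2) := fun x => by
    have sa : IsSelfAdjoint (star x * x) := .star_mul_self x
    have : cfc (fun t : ℝ => t ^ ((4 : ℝ) / 2)) (star x * x) = star (star x * x) * (star x * x) := by
      rw [sa.star_eq, ← pow_two, ← cfc_pow_id (R := ℝ) (star x * x) 2]
      congr 1; ext t
      rw [show (4 : ℝ) / 2 = 2 by norm_num, Real.rpow_two]
    simp only [hQ, this, sq_eq]
  have q1 : ∀ x, Q 1 x = ∑' n, ENNReal.ofReal (inner ℂ (b n) (ab x (b n))).re := fun x => by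
    simp only [hQ, ab, Real.sqrt_eq_rpow]
  have qN : ∀ x, S b x → Q 4 x = ENNReal.ofReal (N b x) := fun x hx => by
    rw [q4, N, ← (hsum hx).tsum_eq,
      ENNReal.ofReal_tsum_of_nonneg (fun _ => sq_nonneg _) (hsum hx).summable]
  have qS : ∀ x, Q 4 x < ⊤ ↔ S b x := fun x => by
    refine ⟨fun h => mem_iff.mpr ?_, fun h => by rw [qN x h]; exact ENNReal.ofReal_lt_top⟩
    rw [q4] at h
    simpa only [ENNReal.toReal_ofReal (sq_nonneg _)] using ENNReal.summable_toReal h.ne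
  have Nn : ∀ x, 0 ≤ N b x := fun x => sq_nonneg _
  obtain ⟨J, P, U, j1, j2, j3, j4, j5, j6⟩ := hh _ b Q hQ 4 (by norm_num) (T b)
    (fun x _ => by rw [qS, T_eq]; exact e_S _ _) ⟨2, fun x hx => by
      rw [qS] at hx
      rw [T_eq, qN _ (e_S _ _), qN _ hx, e_N, ENNReal.coe_ofNat, ← ENNReal.ofReal_ofNat,
        ← ENNReal.ofReal_mul (by norm_num)]
      refine ENNReal.ofReal_le_ofReal ?_
      have h1 := pow_le_pow_left₀ (norm_nonneg _) (av_le (b := b) x) 4
      have h2 := add_pow_le (norm_nonneg (inner ℂ (b 0) (x (b 0))))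
        (norm_nonneg (inner ℂ (b 1) (x (b 1)))) 4
      rw [div_pow] at h1
      have := diag_le hx 0
      have := diag_le hx 1
      norm_num at h1 h2 ⊢
      linarith⟩
    (fun x _ h1 => by
      have nn : ∀ n, 0 ≤ (inner ℂ (b n) (ab x (b n))).re := fun n => by
        simpa [ab] using re_mono (cfc_nonneg (a := star x * x) fun t _ => Real.sqrt_nonneg t) (b n)
      have hs : Summable fun n => (inner ℂ (b n) (ab x (b n))).re := by
        rw [q1] at h1
        simpa only [ENNReal.toReal_ofReal (nn _)] using ENNReal.summable_toReal h1.ne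
      have h2 := e_sum (b := b) (av b x) (av b x) 1 one_ne_zero
      simp only [pow_one] at h2
      rw [q1, q1, ← ENNReal.ofReal_tsum_of_nonneg nn hs, T_eq]
      refine (ENNReal.tsum_le_tsum fun n => ENNReal.ofReal_le_ofReal
        (ab_le _ _ (b.orthonormal.1 n))).trans ?_
      rw [← ENNReal.ofReal_tsum_of_nonneg (fun _ => norm_nonneg _) h2.summable, h2.tsum_eq]
      refine ENNReal.ofReal_le_ofReal ?_
      have h3 := tr_le x hs {0, 1}
      rw [Finset.sum_pair (by norm_num)] at h3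
      linarith [av_le (b := b) x])
    (fun x _ => by
      have h1 : ∀ m, ‖inner ℂ (b m) (x (b m))‖ ≤ ‖x‖ := fun m => by
        refine (norm_inner_le_norm _ _).trans ?_
        simpa [b.orthonormal.1 m] using x.le_opNorm (b m)
      change ‖av b x • e b 1 1‖ ≤ _
      rw [norm_smul]
      refine (mul_le_of_le_one_right (norm_nonneg _) e_norm).trans ((av_le x).trans ?_)
      linarith [h1 0, h1 1])
  simp only [qS] at j1 j2 j3 j4 j5 j6
  have iso : ∀ V : _ →ₗ[ℂ] _, (∀ x, S b x → Q 4 (V x) = Q 4 x) →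
      ∀ x, S b x → S b (V x) ∧ N b (V x) = N b x := fun V hV x hx => by
    have h1 : S b (V x) := by rw [← qS, hV x hx, qS]; exact hx
    have := hV x hx
    rw [qN _ h1, qN _ hx, ENNReal.ofReal_eq_ofReal_iff (Nn _) (Nn _)] at this
    exact ⟨h1, this⟩
  have ee : ∀ α β : ℂ, α • e b 1 0 + β • e b 0 1 = e b α β := fun α β => by simp [e]
  have e2 : J (e b 1 0) + J (e b 0 1) = J (e b 1 1) := by rw [← map_add, ← ee 1 1]; simp
  refine core U P (fun x hx => (iso U j5 x hx).1) (fun x hx => (iso U j5 x hx).2)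
    (fun x hx => ?_) (J (e b 1 0)) (J (e b 0 1)) (iso J j1 _ (e_S _ _)).1 (iso J j1 _ (e_S _ _)).1
    (fun α β => ?_) (j3 _ (e_S _ _)) (j3 _ (e_S _ _)) ?_ fun n => ?_
  · have h1 : S b (P x) := by rw [← qS]; exact (j4 x hx).trans_lt ((qS x).mpr hx)
    have := j4 x hx
    rwa [qN _ h1, qN _ hx, ENNReal.ofReal_le_ofReal_iff (Nn _)] at this
  · rw [← map_smul, ← map_smul, ← map_add, ee, (iso J j1 _ (e_S _ _)).2, e_N]
  · have := j6 1 _ (e_S 1 1)
    rw [pow_one, pow_one, T_eq, av_e] at this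
    rw [e2, this]; norm_num
  · rw [j6 _ _ (e_S _ _), e2, ← map_smul]
    congr 1
    induction n with
    | zero => rw [zero_add, pow_one, T_eq, av_e]; simp [e]
    | succ n ih => rw [pow_succ', Module.End.mul_apply, ih, map_smul, T_eq, av_e]; norm_num

end Pool.Agent.S06696
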