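import Pool.Statements.S06702
import Pool.Agent.H4.Det3

set_option autoImplicit false
open Pool Pool.MP_f44585_an

namespace Pool.Agent.S06702

/-- The negation of the preceding statement: For every base r≥2 there is an irrational b such that whenever the base-r digits of y have zero entropy along every limiting block-frequency distribution (deterministic), so do the digits of b·y. -/
theorem result :
    ¬ (∀ D : ℕ → ℝ → Prop,
    (∀ (r : ℕ) (y : ℝ), D r y ↔
      ∀ ε : ℝ, 0 < ε → ∃ k : ℕ, 1 ≤ k ∧ ∃ N₀ : ℕ, ∀ N : ℕ, N₀ ≤ N →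
        ∑ w : Fin k → Fin r,
          Real.negMulLog
            ((((Finset.range N).filter (fun n => ∀ i : Fin k,
                ⌊y * (r : ℝ) ^ (n + (i : ℕ) + 1)⌋ - (r : ℤ) * ⌊y * (r : ℝ) ^ (n + (i : ℕ))⌋
                  = ((w i : ℕ) : ℤ))).card : ℝ) / (N : ℝ))
          ≤ ε * (k : ℝ)) →
    ∀ r : ℕ, 2 ≤ r → ∃ b : ℝ, Irrational b ∧ ∀ y : ℝ, D r y → D r (b * y)) := by
  intro h
  obtain ⟨b, hb, hy⟩ := h H4.Det.IsDet (fun _ _ => Iff.rfl) 2 le_rfl
  obtain ⟨y, h1, h2⟩ := H4.Det.main 2 le_rfl b hb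
  exact h2 (hy y h1)

end Pool.Agent.S06702
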