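import Pool.Statements.S06714

set_option autoImplicit false
open Pool Pool.MP_f4a1d1_an

namespace Pool.Agent.S06714

open Filter Topology Set

abbrev Γ : Type := (Cardinal.continuum.{0}).ord.ToType

abbrev X := lp (fun _ : Γ => ℝ) 1

abbrev Code := (ℕ → ((Γ →₀ ℝ) →₀ ℝ)) × ℝ

lemma card_Γ : Cardinal.mk Γ = Cardinal.continuum := Cardinal.mk_ord_toType _

instance : Infinite Γ := by
  rw [Cardinal.infinite_iff, card_Γ]; exact Cardinal.aleph0_le_continuum

lemma exists_code : ∃ cd : Γ → Code, ∀ (c : Code) (D : Set Γ), D.Countable →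
    ∃ β, cd β = c ∧ ∀ d ∈ D, d < β := by
  have h1 : Cardinal.mk Γ = Cardinal.mk (Code × Γ) := by
    simp [Cardinal.mk_real]
  obtain ⟨e⟩ := Cardinal.eq.mp h1
  refine ⟨fun β => (e β).1, fun c D hD => ?_⟩
  obtain ⟨d, hd⟩ := countable_iff_exists_subset_range.mp hD
  by_contra hcon
  push Not at hcon
  have h2 : range (fun g => e.symm (c, g)) ⊆ ⋃ n, Iic (d n) := by
    rintro _ ⟨g, rfl⟩
    obtain ⟨x, hx, hle⟩ := hcon (e.symm (c, g)) (by simp)
    obtain ⟨n, rfl⟩ := hd hx
    exact mem_iUnion.mpr ⟨n, hle⟩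
  have h3 := Cardinal.mk_le_mk_of_subset h2
  rw [Cardinal.mk_range_eq _ (fun a b h => by simpa using h), card_Γ] at h3
  have h4 := Cardinal.sum_lt_prod (fun n => Cardinal.mk (Iic (d n))) (fun _ => Cardinal.continuum)
    (fun n => by
      rw [← Iio_insert]
      exact lt_of_le_of_lt Cardinal.mk_insert_le (Cardinal.add_lt_of_lt
        Cardinal.aleph0_le_continuum (Cardinal.mk_Iio_toType_ord_lt _)
        (Cardinal.one_lt_aleph0.trans_le Cardinal.aleph0_le_continuum)))
  have h5 := (h3.trans Cardinal.mk_iUnion_le_sum_mk).trans_lt h4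
  simp at h5

lemma fixpt {α : Type} [Inhabited α] (T : (Γ → α) → Γ → α)
    (hT : ∀ c c' β, (∀ b < β, c b = c' b) → T c β = T c' β) : ∃ c, ∀ β, c β = T c β := by
  classical
  refine ⟨(wellFounded_lt (α := Γ)).fix
    (fun β ih => T (fun b => if h : b < β then ih b h else default) β), fun β => ?_⟩
  rw [WellFounded.fix_eq]
  exact hT _ _ _ fun b hb => by simp [hb]

noncomputable def cd : Γ → Code := exists_code.choose

noncomputable def M (β : Γ) : ℝ := |(cd β).2|

lemma M_nonneg (β : Γ) : 0 ≤ M β := abs_nonneg _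

lemma hs (x : X) : HasSum (fun b => |x b|) ‖x‖ := by
  simpa using lp.hasSum_norm (p := 1) (by simp) x

noncomputable def emb (u : Γ →₀ ℝ) : X :=
  ⟨fun b => u b, (memℓp_zero u.hasFiniteSupport).of_exponent_ge (by simp)⟩

@[simp] lemma emb_apply (u : Γ →₀ ℝ) (b : Γ) : emb u b = u b := rfl

noncomputable def tr (J : Set Γ) (x : X) : X :=
  ⟨J.indicator x, (lp.memℓp x).mono' fun _ => norm_indicator_le_norm_self _ _⟩

@[simp] lemma tr_apply (J : Set Γ) (x : X) (b : Γ) : tr J x b = J.indicator x b := rfl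

def Supp (J : Set Γ) (x : X) : Prop := ∀ b, b ∉ J → x b = 0

lemma tr_supp (J : Set Γ) (x : X) : Supp J (tr J x) := fun b hb => by simp [hb]

lemma tr_eq {J : Set Γ} {x : X} (h : Supp J x) : tr J x = x := by
  ext b
  by_cases hb : b ∈ J
  · simp [hb]
  · simp [hb, h b hb]

noncomputable def p (β : Γ) : X := lp.single 1 β (M β + 4)

noncomputable def Φ (β : Γ) (f : X → ℝ) : ℝ :=
  limUnder atTop fun k => ((cd β).1 k).sum fun u r => r * f (tr (Iio β) (emb u))

lemma Φ_congr {β : Γ} {f g : X → ℝ} (h : ∀ x, Supp (Iio β) x → f x = g x) : Φ β f = Φ β g := by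
  simp only [Φ, h _ (tr_supp _ _)]

lemma Φ_zero {β : Γ} {f : X → ℝ} (h : ∀ x, Supp (Iio β) x → f x = 0) : Φ β f = 0 := by
  rw [Φ_congr (g := fun _ => 0) h]
  simp only [Φ, mul_zero, Finsupp.sum_fun_zero]
  exact tendsto_const_nhds.limUnder_eq

def Adm (A : Γ → Prop) (J : Set Γ) (f : X → ℝ) : Prop :=
  LipschitzWith 1 f ∧ f 0 = 0 ∧ ∀ β ∈ J, A β → f (p β) = Φ β f

def TA (A : Γ → Prop) (β : Γ) : Prop :=
  (∀ f, Adm A (Iio β) f → |Φ β f| ≤ M β) ∧
    ∀ x : X, Supp (Iio β) x → ∃ f, Adm A (Iio β) f ∧ Φ β f ≠ f x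

lemma exists_act : ∃ A : Γ → Prop, ∀ β, A β = TA A β := by
  refine fixpt TA fun A A' β h => ?_
  have : Adm A (Iio β) = Adm A' (Iio β) := by
    funext f
    unfold Adm
    congr 2
    refine propext (forall_congr' fun b => forall_congr' fun hb => ?_)
    rw [h b hb]
  unfold TA
  rw [this]

def act : Γ → Prop := exists_act.choose

lemma act_iff (β : Γ) : act β ↔ TA act β := by rw [act, ← exists_act.choose_spec β]

lemma Adm.mono {J J' : Set Γ} {f : X → ℝ} (h : Adm act J f) (hJ : J' ⊆ J) : Adm act J' f :=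
  ⟨h.1, h.2.1, fun β hβ => h.2.2 β (hJ hβ)⟩

lemma zfam (s s' σ m : ℝ) (h1 : |s - s'| ≤ 2) (h2 : |σ| ≤ 1) (hm : 0 ≤ m) :
    ∃ Z : ℝ → ℝ → ℝ, (∀ c t t', Z c t - Z c t' ≤ |t - t'|) ∧ (∀ c, Z c 0 = 0) ∧
      (∀ c, |c| ≤ m → Z c (m + 4) = c) ∧ ∀ c, Z c s - Z c s' = σ * (s - s') := by
  set lo := min s s'
  set hi := max s s'
  have lh : lo ≤ hi := min_le_max
  have lh2 : hi - lo ≤ 2 := by rw [max_sub_min_eq_abs']; exact h1
  set P : ℝ → ℝ := fun t => max lo (min hi t) with hP
  have P1 : ∀ t, lo ≤ P t ∧ P t ≤ hi := fun t =>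
    ⟨le_max_left _ _, max_le lh (min_le_left _ _)⟩
  have P2 : ∀ t t', t' ≤ t → 0 ≤ P t - P t' ∧ P t - P t' ≤ t - t' := by
    intro t t' h
    simp only [hP, max_def, min_def]
    split_ifs <;> constructor <;> linarith
  have Ps : P s = s := by
    simp only [hP]
    rw [min_eq_right (le_max_left _ _), max_eq_right (min_le_left _ _)]
  have Ps' : P s' = s' := by
    simp only [hP]
    rw [min_eq_right (le_max_right _ _), max_eq_right (min_le_right _ _)]
  set K := m + 4 - (P (m + 4) - P 0) with hK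
  have K1 : m + 2 ≤ K := by linarith [(P1 (m + 4)).2, (P1 0).1]
  set lam : ℝ → ℝ := fun c => if |c| ≤ m then (c - σ * (P (m + 4) - P 0)) / K else 0 with hlam
  have l1 : ∀ c, |lam c| ≤ 1 := by
    intro c
    simp only [hlam]
    split_ifs with h
    · rw [abs_div, abs_of_pos (show 0 < K by linarith), div_le_one (by linarith)]
      refine (abs_sub _ _).trans ?_
      rw [abs_mul, abs_of_nonneg (P2 (m + 4) 0 (by linarith)).1]
      nlinarith [(P1 (m + 4)).2, (P1 0).1, (P2 (m + 4) 0 (by linarith)).1, abs_nonneg σ]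
    · simp
  refine ⟨fun c t => σ * (P t - P 0) + lam c * (t - (P t - P 0)), fun c t t' => ?_,
    fun c => by simp, fun c hc => ?_, fun c => by simp only [Ps, Ps']; ring⟩
  · have a1 := abs_le.mp h2
    have a2 := abs_le.mp (l1 c)
    rcases le_total t' t with h | h
    · obtain ⟨b1, b2⟩ := P2 t t' h
      rw [abs_of_nonneg (by linarith)]
      nlinarith
    · obtain ⟨b1, b2⟩ := P2 t' t h
      rw [abs_of_nonpos (by linarith)]
      nlinarith
  · simp only [hlam, if_pos hc, ← hK]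
    field_simp [show K ≠ 0 by linarith]
    ring

open Classical in
lemma extend (J : Set Γ) (hJ : IsLowerSet J) (f0 : X → ℝ) (h0 : Adm act J f0) (a a' : X)
    (σ : Γ → ℝ) (hσ : ∀ b, |σ b| ≤ 1) (ha : ∀ b, b ∉ J → |a b - a' b| ≤ 2) :
    ∃ f, Adm act univ f ∧ (∀ x, Supp J x → f x = f0 x) ∧
      f a - f a' = f0 (tr J a) - f0 (tr J a')
        + ∑' b, if b ∈ J then 0 else σ b * (a b - a' b) := by
  have hW : ∀ b, ∃ W : ℝ → ℝ → ℝ,
      (∀ c t t', W c t - W c t' ≤ if b ∈ J then 0 else |t - t'|) ∧ (∀ c, W c 0 = 0) ∧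
      (∀ c, b ∉ J → |c| ≤ M b → W c (M b + 4) = c) ∧ (∀ c t, b ∈ J → W c t = 0) ∧
      ∀ c, W c (a b) - W c (a' b) = if b ∈ J then 0 else σ b * (a b - a' b) := by
    intro b
    by_cases hb : b ∈ J
    · exact ⟨fun _ _ => 0, by simp [hb], by simp, by simp [hb], by simp, by simp [hb]⟩
    · obtain ⟨Z, z1, z2, z3, z4⟩ := zfam (a b) (a' b) (σ b) (M b) (ha b hb) (hσ b) (M_nonneg b)
      exact ⟨Z, by simpa [hb] using z1, z2, fun c _ => z3 c, by simp [hb], by simpa [hb] using z4⟩
  choose W w1 w2 w3 w4 w5 using hW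
  have hsum : ∀ (c : Γ → ℝ) (x : X), Summable fun b => W b (c b) (x b) := by
    intro c x
    refine Summable.of_norm_bounded (hs x).summable fun b => ?_
    have e1 := w1 b (c b) (x b) 0
    have e2 := w1 b (c b) 0 (x b)
    rw [w2] at e1 e2
    rw [Real.norm_eq_abs, abs_le]
    have := abs_nonneg (x b)
    split_ifs at e1 e2 <;> simp at e1 e2 <;> constructor <;> linarith
  set fc : (Γ → ℝ) → X → ℝ := fun c x => f0 (tr J x) + ∑' b, W b (c b) (x b) with hfc
  obtain ⟨c, hc⟩ := fixpt (fun c β => Φ β (fc c)) fun c c' β h => by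
    refine Φ_congr fun x hx => ?_
    simp only [hfc]
    congr 1
    refine tsum_congr fun b => ?_
    by_cases hb : b < β
    · rw [h b hb]
    · rw [hx b hb, w2, w2]
  have lip : LipschitzWith 1 (fc c) := by
    refine LipschitzWith.of_le_add fun x y => ?_
    have e1 := hasSum_le (fun b => ?_) ((hs (tr J x - tr J y)).add
      ((hsum c x).hasSum.sub (hsum c y).hasSum)) (hs (x - y))
    · have e2 := h0.1.le_add_mul (tr J x) (tr J y)
      simp only [hfc, dist_eq_norm, NNReal.coe_one, one_mul] at e2 ⊢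
      linarith
    · have := w1 b (c b) (x b) (y b)
      by_cases hb : b ∈ J <;> simp [hb] at this ⊢ <;> linarith
  have agree : ∀ x, Supp J x → fc c x = f0 x := by
    intro x hx
    have : ∀ b, W b (c b) (x b) = 0 := by
      intro b
      by_cases hb : b ∈ J
      · exact w4 _ _ _ hb
      · rw [hx b hb, w2]
    simp [hfc, tr_eq hx, this]
  have z0 : fc c 0 = 0 := by rw [agree 0 fun _ _ => rfl, h0.2.1]
  refine ⟨fc c, ⟨lip, z0, ?_⟩, agree, ?_⟩
  · intro β hβ
    clear hβ
    induction β using WellFoundedLT.induction with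
    | ind β ih =>
    intro hact
    by_cases hb : β ∈ J
    · rw [agree (p β) fun b hb' => lp.single_apply_ne _ _ _ (by rintro rfl; exact hb' hb),
        h0.2.2 β hb hact]
      exact Φ_congr fun x hx => (agree x fun b hb' => hx b fun h => hb' (hJ (le_of_lt h) hb)).symm
    · have e1 := ((act_iff β).mp hact).1 (fc c) ⟨lip, z0, fun b hb => ih b hb⟩
      have e2 : tr J (p β) = 0 := by
        ext b
        by_cases hb' : b ∈ J
        · simp only [tr_apply, indicator_of_mem hb']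
          exact lp.single_apply_ne _ _ _ (by rintro rfl; exact hb hb')
        · simp [hb']
      rw [← hc β] at e1 ⊢
      simp only [hfc]
      rw [e2, h0.2.1, zero_add, tsum_eq_single β]
      · rw [p, lp.single_apply_self]; exact w3 β _ hb e1
      · intro b hb'
        rw [p, lp.single_apply_ne _ _ _ hb', w2]
  · simp only [hfc]
    rw [← tsum_congr fun b => w5 b (c b), (hsum c a).tsum_sub (hsum c a')]
    ring

lemma extend0 (J : Set Γ) (hJ : IsLowerSet J) (f0 : X → ℝ) (h0 : Adm act J f0) :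
    ∃ f, Adm act univ f ∧ ∀ x, Supp J x → f x = f0 x := by
  obtain ⟨f, h1, h2, -⟩ := extend J hJ f0 h0 0 0 0 (by simp) (by simp)
  exact ⟨f, h1, h2⟩

def Sep (a a' : X) : Prop := ∃ f, Adm act univ f ∧ f a ≠ f a'

lemma Sep.symm {a a' : X} (h : Sep a a') : Sep a' a := by
  obtain ⟨f, h1, h2⟩ := h; exact ⟨f, h1, h2.symm⟩

lemma reduce {a a' : X} (h : a ≠ a') : ∃ γ, a γ ≠ a' γ ∧
    (Sep (tr (Iic γ) a) (tr (Iic γ) a') → Sep a a') := by
  classical
  obtain ⟨b0, hb0⟩ : ∃ b, a b ≠ a' b := by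
    by_contra hc
    push Not at hc
    exact h (lp.ext (funext hc))
  have hfin : {b | 2 < |a b - a' b|}.Finite := by
    have := (hs (a - a')).summable.tendsto_cofinite_zero.eventually
      (ge_mem_nhds (show (0 : ℝ) < 2 by norm_num))
    simpa [eventually_cofinite] using this
  obtain ⟨γ, hγ, hmax⟩ := (insert b0 hfin.toFinset).exists_max_image id ⟨b0, by simp⟩
  refine ⟨γ, ?_, ?_⟩
  · simp only [Finset.mem_insert, Finite.mem_toFinset, mem_ofPred_eq] at hγ
    rcases hγ with rfl | hγ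
    · exact hb0
    · intro e; rw [e] at hγ; norm_num at hγ
  · rintro ⟨f0, h1, h2⟩
    obtain ⟨f, g1, -, g3⟩ := extend (Iic γ) (isLowerSet_Iic γ) f0 (h1.mono (subset_univ _)) a a' 0
      (by simp) (by
        intro b hb
        by_contra hc
        exact hb (hmax b (by simp [not_le.mp hc])))
    refine ⟨f, g1, fun e => h2 ?_⟩
    simp [e] at g3
    linarith

lemma coord_lip (γ : Γ) : LipschitzWith 1 fun x : X => |x γ| :=
  by simpa [Function.comp_def] using
    lipschitzWith_one_norm.comp (lp.lipschitzWith_one_eval 1 γ (E := fun _ : Γ => ℝ))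

lemma adm_of_zero {γ : Γ} {f : X → ℝ} (h1 : LipschitzWith 1 f) (h2 : ∀ x : X, x γ = 0 → f x = 0)
    (h3 : act γ → f (p γ) = 0) : Adm act (Iic γ) f := by
  refine ⟨h1, h2 0 rfl, fun β hβ hact => ?_⟩
  rw [Φ_zero fun x hx => h2 x (hx γ (notMem_Iio.mpr hβ))]
  rcases eq_or_lt_of_le (show β ≤ γ from hβ) with rfl | h
  · exact h3 hact
  · exact h2 _ (lp.single_apply_ne _ _ _ h.ne')

lemma sep1 {γ : Γ} {b b' : X} (hb : Supp (Iic γ) b) (hb' : Supp (Iic γ) b') (hne : b ≠ b')
    (h1 : b γ ≠ 0) (h2 : b ≠ p γ) : Sep b b' := by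
  have l1 : LipschitzWith 1 fun x : X => min (min |x γ| (dist x (p γ))) (dist x b') := by
    simpa using ((coord_lip γ).min (LipschitzWith.dist_left (p γ))).min (LipschitzWith.dist_left b')
  obtain ⟨f, g1, g2⟩ := extend0 _ (isLowerSet_Iic γ) _ (adm_of_zero l1
    (fun x hx => by simp [hx]) (fun _ => by simp))
  refine ⟨f, g1, ?_⟩
  rw [g2 b hb, g2 b' hb']
  have : 0 < min (min |b γ| (dist b (p γ))) (dist b b') :=
    lt_min (lt_min (abs_pos.mpr h1) (dist_pos.mpr h2)) (dist_pos.mpr hne)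
  simpa using this.ne'

lemma p_supp (γ : Γ) : Supp (Iic γ) (p γ) := fun b hb =>
  lp.single_apply_ne _ _ _ (by rintro rfl; exact hb (le_refl b))

lemma sep2 {γ : Γ} {b' : X} (hb' : Supp (Iic γ) b') (h : b' γ = 0) : Sep (p γ) b' := by
  have hs' : Supp (Iio γ) b' := fun b hb => by
    rcases eq_or_lt_of_le (notMem_Iio.mp hb) with rfl | h'
    · exact h
    · exact hb' b (notMem_Iic.mpr h')
  by_cases hact : act γ
  · obtain ⟨f1, g1, g2⟩ := ((act_iff γ).mp hact).2 b' hs'
    obtain ⟨f, k1, k2⟩ := extend0 _ (isLowerSet_Iio γ) f1 g1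
    refine ⟨f, k1, ?_⟩
    rwa [k1.2.2 γ trivial hact, Φ_congr k2, k2 b' hs']
  · obtain ⟨f, g1, g2⟩ := extend0 _ (isLowerSet_Iic γ) _ (adm_of_zero (coord_lip γ)
      (fun x hx => by simp [hx]) (fun h => absurd h hact))
    refine ⟨f, g1, ?_⟩
    rw [g2 _ (p_supp γ), g2 b' hb', h, p, lp.single_apply_self]
    have := M_nonneg γ
    simp; linarith

lemma sep_all (γ : Γ) : ∀ b b' : X, Supp (Iic γ) b → Supp (Iic γ) b' → b ≠ b' → Sep b b' := by
  induction γ using WellFoundedLT.induction with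
  | ind γ ih =>
  intro b b' hb hb' hne
  by_cases c1 : b γ ≠ 0 ∧ b ≠ p γ
  · exact sep1 hb hb' hne c1.1 c1.2
  by_cases c2 : b' γ ≠ 0 ∧ b' ≠ p γ
  · exact (sep1 hb' hb hne.symm c2.1 c2.2).symm
  simp only [not_and_or, not_not] at c1 c2
  rcases c1 with c1 | c1 <;> rcases c2 with c2 | c2
  · obtain ⟨g, h1, h2⟩ := reduce hne
    have hg : g < γ := by
      rcases lt_trichotomy g γ with h | rfl | h
      · exact h
      · exact absurd (c1.trans c2.symm) h1
      · exact absurd ((hb g (notMem_Iic.mpr h)).trans (hb' g (notMem_Iic.mpr h)).symm) h1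
    refine h2 (ih g hg _ _ (tr_supp _ _) (tr_supp _ _) fun e => h1 ?_)
    simpa using congrArg (fun x : X => x g) e
  · rw [c2]; exact (sep2 hb c1).symm
  · rw [c1]; exact sep2 hb' c2
  · exact absurd (c1.trans c2.symm) hne

lemma sep_ne {a a' : X} (h : a ≠ a') : Sep a a' := by
  obtain ⟨g, h1, h2⟩ := reduce h
  refine h2 (sep_all g _ _ (tr_supp _ _) (tr_supp _ _) fun e => h1 ?_)
  simpa using congrArg (fun x : X => x g) e

abbrev Λ := {f : X → ℝ // Adm act univ f}

abbrev B := lp (fun _ : Λ => ℝ) ⊤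

lemma adm_le (f : Λ) (x y : X) : ‖f.1 x - f.1 y‖ ≤ ‖x - y‖ := by
  simpa [dist_eq_norm] using f.2.1.dist_le_mul x y

noncomputable def ev (x : X) : B := ⟨fun f => f.1 x, memℓp_infty ⟨‖x‖, by
  rintro _ ⟨f, rfl⟩
  simpa [f.2.2.1] using adm_le f x 0⟩⟩

@[simp] lemma ev_apply (x : X) (f : Λ) : ev x f = f.1 x := rfl

lemma ev_le (x y : X) : dist (ev x) (ev y) ≤ dist x y := by
  rw [dist_eq_norm, dist_eq_norm]
  exact lp.norm_le_of_forall_le (norm_nonneg _) fun f => adm_le f x y

lemma ev_loc {x y : X} (h : dist x y ≤ 2) : dist (ev x) (ev y) = dist x y := by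
  refine le_antisymm (ev_le x y) ?_
  rw [dist_eq_norm] at h
  obtain ⟨f, g1, -, g3⟩ := extend ∅ isLowerSet_empty (fun _ => 0)
    ⟨(LipschitzWith.const _).weaken zero_le_one, rfl, by simp⟩ x y
    (fun b => SignType.sign (x b - y b))
    (fun b => by rcases SignType.trichotomy (SignType.sign (x b - y b)) with h | h | h <;> simp [h])
    (fun b _ => (lp.norm_apply_le_norm (by simp) (x - y) b).trans h)
  have e := lp.norm_apply_le_norm (by simp) (ev x - ev y) ⟨f, g1⟩
  have e2 := (hs (x - y)).tsum_eq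
  simp [sign_mul_self] at g3
  simp [g3] at e e2
  rw [dist_eq_norm, dist_eq_norm, ← e2]
  exact (le_abs_self _).trans e

noncomputable abbrev Y := (Submodule.span ℝ (range fun u => ev (emb u))).topologicalClosure

lemma ev_mem (x : X) : ev x ∈ Y := by
  classical
  have hc : Continuous ev := (LipschitzWith.mk_one ev_le).continuous
  refine mem_closure_of_tendsto ((hc.tendsto x).comp (lp.hasSum_single (by simp) x))
    (Eventually.of_forall fun s => Submodule.subset_span ⟨∑ i ∈ s, Finsupp.single i (x i), ?_⟩)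
  simp only [Function.comp]
  congr 1
  ext b
  rw [lp.coeFn_sum]
  simp [Finsupp.single_apply, lp.single_apply, Pi.single_apply, eq_comm]

noncomputable def U (x : X) : Y := ⟨ev x, ev_mem x⟩

lemma U_surj : Function.Surjective U := by
  rintro ⟨y, hy⟩
  obtain ⟨v, hv, hlim⟩ := mem_closure_iff_seq_limit.mp hy
  choose m hm using fun k => Finsupp.mem_span_range_iff_exists_finsupp.mp (hv k)
  obtain ⟨β, h1, h2⟩ := exists_code.choose_spec (m, ‖y‖)
    (⋃ k, ⋃ u ∈ (m k).support, (u.support : Set Γ))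
    (countable_iUnion fun k => (Finset.countable_toSet _).biUnion fun u _ =>
      Finset.countable_toSet _)
  change cd β = _ at h1
  have key : ∀ f : Λ, Φ β f.1 = y f := by
    intro f
    have t1 := ((lp.lipschitzWith_one_eval ⊤ f (E := fun _ : Λ => ℝ)).continuous.tendsto y).comp hlim
    refine Tendsto.limUnder_eq (t1.congr fun k => ?_)
    rw [h1]
    simp only [Function.comp, ← hm k, Finsupp.sum]
    rw [lp.coeFn_sum, Finset.sum_apply]
    refine Finset.sum_congr rfl fun u hu => ?_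
    rw [tr_eq]
    · simp
    · intro b hb
      by_contra hc
      exact hb (h2 b (mem_iUnion.mpr ⟨k, mem_biUnion hu (Finsupp.mem_support_iff.mpr hc)⟩))
  by_cases hact : act β
  · refine ⟨p β, Subtype.ext (lp.ext (funext fun f => ?_))⟩
    exact (f.2.2.2 β trivial hact).trans (key f)
  · rw [act_iff, TA, not_and] at hact
    have h3 := hact fun f0 hf0 => by
      obtain ⟨f, g1, g2⟩ := extend0 _ (isLowerSet_Iio β) f0 hf0
      rw [← Φ_congr g2, key ⟨f, g1⟩, M, h1, abs_of_nonneg (norm_nonneg y)]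
      exact lp.norm_apply_le_norm (by simp) y ⟨f, g1⟩
    push Not at h3
    obtain ⟨x, -, hx⟩ := h3
    refine ⟨x, Subtype.ext (lp.ext (funext fun f => ?_))⟩
    exact (hx f.1 (f.2.mono (subset_univ _))).symm.trans (key f)


/-- The negation of the preceding statement: For all real Banach spaces X, Y and every bijection U from X to Y that preserves distances on some ball around each point, U preserves all distances (is an isometry). -/
theorem result :
    ¬ (∀ (X Y : Type) [NormedAddCommGroup X] [NormedSpace ℝ X] [CompleteSpace X]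
      [NormedAddCommGroup Y] [NormedSpace ℝ Y] [CompleteSpace Y] (U : X → Y),
      Function.Bijective U →
      (∀ x₀ : X, ∃ r : ℝ, 0 < r ∧ ∀ x ∈ Metric.ball x₀ r, ∀ y ∈ Metric.ball x₀ r,
        dist (U x) (U y) = dist x y) →
      Isometry U) := by
  intro H
  have hb : Function.Bijective U := by
    refine ⟨fun a a' e => ?_, U_surj⟩
    by_contra hne
    obtain ⟨f, h1, h2⟩ := sep_ne hne
    exact h2 (congrArg (fun y : Y => (y : B) ⟨f, h1⟩) e)
  have hi := H X Y U hb fun x0 => ⟨1, one_pos, fun x hx y hy => ev_loc (by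
    rw [Metric.mem_ball] at hx hy
    linarith [dist_triangle_right x y x0])⟩
  obtain ⟨γ⟩ : Nonempty Γ := inferInstance
  set e : X := lp.single 1 γ 1 with he
  have hm := IsometryEquiv.map_midpoint (⟨Equiv.ofBijective U hb, hi⟩ : X ≃ᵢ Y) e (-e)
  have l1 : LipschitzWith 1 fun x : X => min |x γ| (dist x (p γ)) := by
    simpa using (coord_lip γ).min (LipschitzWith.dist_left (p γ))
  obtain ⟨f, g1, g2⟩ := extend0 _ (isLowerSet_Iic γ) _ (adm_of_zero l1
    (fun x hx => by simp [hx]) (fun _ => by simp))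
  have s1 : Supp (Set.Iic γ) e := fun b hb =>
    lp.single_apply_ne _ _ _ (by rintro rfl; exact hb (le_refl b))
  have s2 : Supp (Set.Iic γ) (-e) := fun b hb => by simp [s1 b hb]
  have eγ : e γ = 1 := lp.single_apply_self _ _ _
  have pγ : p γ γ = M γ + 4 := lp.single_apply_self _ _ _
  have n1 : e ≠ p γ := fun h => by
    have := congrArg (fun x : X => x γ) h
    simp only [eγ, pγ] at this
    linarith [M_nonneg γ]
  have p1 : 0 < f e := by
    rw [g2 e s1]; exact lt_min (by simp [eγ]) (dist_pos.mpr n1)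
  have p2 : 0 ≤ f (-e) := by
    rw [g2 _ s2]; exact le_min (abs_nonneg _) dist_nonneg
  have h3 := congrArg (fun y : Y => (y : B) ⟨f, g1⟩) hm
  simp [midpoint_eq_smul_add, U, g1.2.1] at h3
  linarith

end Pool.Agent.S06714
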