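import Pool.Statements.S06742
-- import your own Pool.Agent.* helpers here

set_option autoImplicit false
open Pool Pool.MP_f70052_an

namespace Pool.Agent.S06742

open Matrix

section Aux

variable {ι : Type} [Fintype ι] [DecidableEq ι]

/-- entrywise smoothness -/
def Sm {E : Type} [NormedAddCommGroup E] [NormedSpace ℝ E] (A : E → Matrix ι ι ℂ) : Prop :=
  ∀ i j, ContDiff ℝ 1 (fun x => A x i j)

variable {E : Type} [NormedAddCommGroup E] [NormedSpace ℝ E]

lemma Sm.mul {A B : E → Matrix ι ι ℂ} (hA : Sm A) (hB : Sm B) : Sm (fun x => A x * B x) := by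
  intro i j
  simp only [Matrix.mul_apply]
  exact ContDiff.sum fun k _ => (hA i k).mul (hB k j)

lemma Sm.add {A B : E → Matrix ι ι ℂ} (hA : Sm A) (hB : Sm B) : Sm (fun x => A x + B x) :=
  fun i j => (hA i j).add (hB i j)

lemma Sm.sub {A B : E → Matrix ι ι ℂ} (hA : Sm A) (hB : Sm B) : Sm (fun x => A x - B x) :=
  fun i j => (hA i j).sub (hB i j)

lemma Sm.smul {c : E → ℂ} {A : E → Matrix ι ι ℂ} (hc : ContDiff ℝ 1 c) (hA : Sm A) :
    Sm (fun x => c x • A x) :=
  fun i j => hc.mul (hA i j)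

lemma Sm.const (A : Matrix ι ι ℂ) : Sm (fun _ : E => A) := fun _ _ => contDiff_const

lemma Sm.star {A : E → Matrix ι ι ℂ} (hA : Sm A) : Sm (fun x => (A x)ᴴ) :=
  fun i j => Complex.conjCLE.contDiff.comp (hA j i)

lemma Sm.det {A : E → Matrix ι ι ℂ} (hA : Sm A) : ContDiff ℝ 1 (fun x => (A x).det) := by
  simp only [Matrix.det_apply']
  exact ContDiff.sum fun σ _ => contDiff_const.mul (contDiff_prod fun i _ => hA _ _)

lemma Sm.adj {A : E → Matrix ι ι ℂ} (hA : Sm A) : Sm (fun x => (A x).adjugate) := by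
  intro i j
  simp only [Matrix.adjugate_apply]
  apply Sm.det
  intro a b
  simp only [Matrix.updateRow_apply]
  split_ifs
  · exact contDiff_const
  · exact hA a b

lemma Sm.aeval {A : E → Matrix ι ι ℂ} (hA : Sm A) (p : Polynomial ℂ) :
    Sm (fun x => Polynomial.aeval (A x) p) := by
  induction p using Polynomial.induction_on with
  | C a => simp only [Polynomial.aeval_C]; exact Sm.const _
  | add p q hp hq => simp only [map_add]; exact hp.add hq
  | monomial k a h =>
    simp only [pow_succ, ← mul_assoc, map_mul _ _ Polynomial.X, Polynomial.aeval_X]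
    exact h.mul hA

lemma Sm.trace {A : E → Matrix ι ι ℂ} (hA : Sm A) : ContDiff ℝ 1 (fun x => (A x).trace) := by
  simp only [Matrix.trace, Matrix.diag]
  exact ContDiff.sum fun i _ => hA i i

lemma aeval_conj {κ : Type} [Fintype κ] [DecidableEq κ] {W : Matrix κ ι ℂ} {X : Matrix ι ι ℂ}
    {H : Matrix κ κ ℂ} (h : W * X = H * W) (p : Polynomial ℂ) :
    W * Polynomial.aeval X p = Polynomial.aeval H p * W := by
  induction p using Polynomial.induction_on with
  | C a => simp [Polynomial.aeval_C, Algebra.algebraMap_eq_smul_one]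
  | add p q hp hq => simp only [map_add, Matrix.mul_add, Matrix.add_mul, hp, hq]
  | monomial k a ih =>
    simp only [pow_succ, ← mul_assoc, map_mul _ _ Polynomial.X, Polynomial.aeval_X]
    rw [← Matrix.mul_assoc, ih, Matrix.mul_assoc, h, Matrix.mul_assoc]

lemma aeval_diag (d : ι → ℂ) (p : Polynomial ℂ) :
    Polynomial.aeval (Matrix.diagonal d) p = Matrix.diagonal (fun i => p.eval (d i)) := by
  induction p using Polynomial.induction_on with
  | C a => simp [Matrix.algebraMap_eq_diagonal]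
  | add p q hp hq => simp only [map_add, hp, hq, Matrix.diagonal_add, Polynomial.eval_add]
  | monomial k a ih =>
    simp only [pow_succ, ← mul_assoc, map_mul _ _ Polynomial.X, Polynomial.aeval_X]
    rw [ih, Matrix.diagonal_mul_diagonal]
    simp

variable {n : ℕ}

def toep (r c : Fin n → ℂ) : Matrix (Fin n) (Fin n) ℂ := fun i j =>
  if i ≤ j then r ⟨j - i, by omega⟩ else c ⟨i - j, by omega⟩

lemma toep_of (F : ℕ → ℕ → ℂ) (h : ∀ i j, i + 1 < n → j + 1 < n → F (i + 1) (j + 1) = F i j) :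
    (Matrix.of fun i j : Fin n => F i j) = toep (fun j => F 0 j) (fun i => F i 0) := by
  have h1 : ∀ i m, i + m < n → F i (i + m) = F 0 m := by
    intro i m
    induction i with
    | zero => simp
    | succ i ih => intro hi; rw [show i + 1 + m = (i + m) + 1 by ring, h _ _ (by omega) (by omega), ih (by omega)]
  have h2 : ∀ i m, i + m < n → F (i + m) i = F m 0 := by
    intro i m
    induction i with
    | zero => simp
    | succ i ih => intro hi; rw [show i + 1 + m = (i + m) + 1 by ring, h _ _ (by omega) (by omega), ih (by omega)]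
  ext i j
  simp only [toep, Matrix.of_apply]
  split_ifs with hij
  · have : (i : ℕ) ≤ j := hij
    rw [← h1 i (j - i) (by omega)]; congr 1; omega
  · have : ¬ (i : ℕ) ≤ j := hij
    rw [← h2 j (i - j) (by omega)]; congr 1; omega

noncomputable def lag (i : Fin n) : Polynomial ℂ :=
  Lagrange.basis Finset.univ (fun l : Fin n => ((l : ℕ) : ℂ)) i

abbrev Pairs (n : ℕ) := {p : Fin n × Fin n // p.1 < p.2}

variable {r : ℕ} {m : Fin r → ℕ}

abbrev JJ (m : Fin r → ℕ) := Σ i : Fin r, Fin (m i)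

abbrev Par (m : Fin r → ℕ) := Option (Fin 4 × JJ m) → ℂ

def btoep (a c : JJ m → ℂ) : Matrix (JJ m) (JJ m) ℂ :=
  Matrix.blockDiagonal' fun i => toep (fun j => a ⟨i, j⟩) (fun j => c ⟨i, j⟩)

noncomputable def gi (x : Par m) : Matrix (JJ m) (JJ m) ℂ :=
  x none • (btoep (fun j => x (some (0, j))) (fun j => x (some (1, j)))).adjugate

noncomputable def nn (x : Par m) : Matrix (JJ m) (JJ m) ℂ :=
  btoep (fun j => x (some (2, j))) (fun j => x (some (3, j)))

noncomputable def hh (x : Par m) : Matrix (JJ m) (JJ m) ℂ :=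
  gi x * ((1 / 2 : ℂ) • (nn x + (nn x)ᴴ))
noncomputable def kk (x : Par m) : Matrix (JJ m) (JJ m) ℂ :=
  gi x * ((1 / (2 * Complex.I) : ℂ) • (nn x - (nn x)ᴴ))

noncomputable def Psi (n : ℕ) (m : Fin r → ℕ) (x : Par m) : Pairs n → ℝ := fun p =>
  ((1 / 2 : ℂ) * (Polynomial.aeval (hh x) (lag p.1.1) * kk x * Polynomial.aeval (hh x) (lag p.1.2)
    * kk x).trace).re

lemma sm_toep (a b : Fin 4) :
    Sm (fun x : Par m => btoep (fun j => x (some (a, j))) (fun j => x (some (b, j)))) := by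
  rintro ⟨i, j⟩ ⟨i', j'⟩
  by_cases h : i = i'
  · subst h
    simp only [btoep, Matrix.blockDiagonal'_apply_eq, toep]
    split_ifs <;> exact contDiff_apply ℝ ℂ _
  · simp only [btoep, Matrix.blockDiagonal'_apply_ne _ _ _ h]
    exact contDiff_const

lemma Psi_smooth : ContDiff ℝ 1 (Psi n m) := by
  have hg : Sm (gi (m := m)) := Sm.smul (contDiff_apply ℝ ℂ _) (sm_toep 0 1).adj
  have hn : Sm (nn (m := m)) := sm_toep 2 3
  have hh' : Sm (hh (m := m)) := hg.mul (Sm.smul contDiff_const (hn.add hn.star))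
  have hk' : Sm (kk (m := m)) := hg.mul (Sm.smul contDiff_const (hn.sub hn.star))
  refine contDiff_pi.2 fun p => ?_
  exact Complex.reCLM.contDiff.comp
    (contDiff_const.mul ((((hh'.aeval _).mul hk').mul (hh'.aeval _)).mul hk').trace)

noncomputable def KK (t : Pairs n → ℝ) : Matrix (Fin n) (Fin n) ℂ := fun i j =>
  if h : i < j then (Real.sqrt (t ⟨(i, j), h⟩) : ℂ) else if h' : j < i then (Real.sqrt (t ⟨(j, i), h'⟩) : ℂ) else 1

noncomputable def HH (n : ℕ) : Matrix (Fin n) (Fin n) ℂ := Matrix.diagonal fun l : Fin n => ((l : ℕ) : ℂ)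

lemma KK_symm (t : Pairs n → ℝ) (i j : Fin n) : KK t j i = KK t i j := by
  unfold KK
  rcases lt_trichotomy i j with h | h | h
  · simp [h, not_lt.2 h.le]
  · subst h; rfl
  · simp [h, not_lt.2 h.le]

lemma KK_herm (t : Pairs n → ℝ) : (KK t)ᴴ = KK t := by
  ext i j
  rw [Matrix.conjTranspose_apply, KK_symm]
  unfold KK
  split_ifs <;> simp

lemma HH_herm : (HH n)ᴴ = HH n := by
  unfold HH
  rw [Matrix.diagonal_conjTranspose]
  congr 1; funext l; simp

noncomputable def MM (t : Pairs n → ℝ) : Matrix (Fin n) (Fin n) ℂ := HH n + Complex.I • KK t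

noncomputable def H2 (n : ℕ) : Matrix (Fin n ⊕ Fin n) (Fin n ⊕ Fin n) ℂ :=
  Matrix.fromBlocks (HH n) 0 0 (HH n)

noncomputable def K2 (t : Pairs n → ℝ) : Matrix (Fin n ⊕ Fin n) (Fin n ⊕ Fin n) ℂ :=
  Matrix.fromBlocks (KK t) 0 0 (KK t)

lemma MM_tr (t : Pairs n → ℝ) : (MM t)ᵀ = MM t := by
  ext i j
  simp only [MM, HH, Matrix.transpose_apply, Matrix.add_apply, Matrix.smul_apply, KK_symm t i j]
  congr 1
  by_cases hij : i = j
  · subst hij; rfl
  · simp [Matrix.diagonal_apply_ne _ hij, Matrix.diagonal_apply_ne _ (Ne.symm hij)]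

lemma M2_eq (t : Pairs n → ℝ) :
    Matrix.fromBlocks (MM t) 0 0 (MM t)ᵀ = H2 n + Complex.I • K2 t := by
  rw [MM_tr, H2, K2, Matrix.fromBlocks_smul, Matrix.fromBlocks_add, MM]
  simp

lemma M2_star (t : Pairs n → ℝ) : (H2 n + Complex.I • K2 t)ᴴ = H2 n - Complex.I • K2 t := by
  rw [Matrix.conjTranspose_add, Matrix.conjTranspose_smul, H2, K2,
    Matrix.fromBlocks_conjTranspose, Matrix.fromBlocks_conjTranspose, HH_herm, KK_herm]
  simp [sub_eq_add_neg]

lemma aeval_lag (i : Fin n) : Polynomial.aeval (H2 n) (lag i) =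
    Matrix.fromBlocks (Matrix.diagonal (Pi.single i 1)) 0 0 (Matrix.diagonal (Pi.single i 1)) := by
  unfold H2 HH lag
  rw [Matrix.fromBlocks_diagonal, Matrix.fromBlocks_diagonal, aeval_diag]
  congr 1
  have hinj : Set.InjOn (fun l : Fin n => ((l : ℕ) : ℂ)) (Finset.univ : Finset (Fin n)) := by
    intro a _ b _ h
    exact Fin.ext (Nat.cast_injective (R := ℂ) h)
  have key : ∀ l : Fin n, Polynomial.eval ((l : ℕ) : ℂ)
      (Lagrange.basis Finset.univ (fun l : Fin n => ((l : ℕ) : ℂ)) i)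
      = (Pi.single i 1 : Fin n → ℂ) l := by
    intro l
    by_cases h : l = i
    · subst h; rw [Lagrange.eval_basis_self hinj (Finset.mem_univ _), Pi.single_eq_same]
    · rw [Pi.single_eq_of_ne h]
      exact Lagrange.eval_basis_of_ne (v := fun l : Fin n => ((l : ℕ) : ℂ)) (Ne.symm h)
        (Finset.mem_univ _)
  funext l
  rcases l with l | l <;> exact key l

lemma mem_range (t : Pairs n → ℝ) (ht : ∀ p, 0 < t p) {W : Matrix (Fin n ⊕ Fin n) (JJ m) ℂ}
    (hcard : Fintype.card (JJ m) = Fintype.card (Fin n ⊕ Fin n)) (hW : IsUnit (Wᴴ * W).det)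
    {a c a' c' : JJ m → ℂ} (h1 : Wᴴ * W = btoep a c)
    (h2 : Wᴴ * (H2 n + Complex.I • K2 t) * W = btoep a' c') :
    t ∈ Set.range (Psi n m) := by
  let x : Par m := fun o => match o with
    | none => Ring.inverse (Wᴴ * W).det
    | some (b, j) => (![a, c, a', c'] b) j
  have hg : gi x = (Wᴴ * W)⁻¹ := by
    rw [Matrix.inv_def]; unfold gi; congr 2; rw [h1]; rfl
  have hL : (gi x * Wᴴ) * W = 1 := by
    rw [hg, Matrix.mul_assoc, Matrix.nonsing_inv_mul _ hW]
  have hR : W * (gi x * Wᴴ) = 1 :=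
    (Matrix.mul_eq_one_comm_of_equiv (Fintype.equivOfCardEq hcard)).1 hL
  have hn : nn x = Wᴴ * (H2 n + Complex.I • K2 t) * W := by rw [h2]; rfl
  have hn' : (nn x)ᴴ = Wᴴ * (H2 n - Complex.I • K2 t) * W := by
    rw [hn, ← M2_star]; simp only [Matrix.conjTranspose_mul, Matrix.conjTranspose_conjTranspose,
      Matrix.mul_assoc]
  have key : ∀ A : Matrix (Fin n ⊕ Fin n) (Fin n ⊕ Fin n) ℂ,
      W * (gi x * (Wᴴ * A * W)) = A * W := by
    intro A
    rw [Matrix.mul_assoc Wᴴ, ← Matrix.mul_assoc (gi x), ← Matrix.mul_assoc W, hR, Matrix.one_mul]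
  have hH : W * hh x = H2 n * W := by
    rw [← key]; unfold hh; congr 2
    rw [hn', hn, ← Matrix.add_mul, ← Matrix.mul_add, ← Matrix.smul_mul, ← Matrix.mul_smul]
    congr 2
    ext i j; simp; ring
  have hK : W * kk x = K2 t * W := by
    rw [← key]; unfold kk; congr 2
    rw [hn', hn, ← Matrix.sub_mul, ← Matrix.mul_sub, ← Matrix.smul_mul, ← Matrix.mul_smul]
    congr 2
    ext i j; simp; field_simp; ring_nf; rw [Complex.I_sq]; ring
  refine ⟨x, funext fun p => ?_⟩
  unfold Psi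
  have e1 : W * (Polynomial.aeval (hh x) (lag p.1.1) * kk x * Polynomial.aeval (hh x) (lag p.1.2)
      * kk x) = (Polynomial.aeval (H2 n) (lag p.1.1) * K2 t * Polynomial.aeval (H2 n) (lag p.1.2)
      * K2 t) * W := by
    simp only [← Matrix.mul_assoc]
    rw [aeval_conj hH, Matrix.mul_assoc _ W, hK, ← Matrix.mul_assoc, Matrix.mul_assoc _ W,
      aeval_conj hH, ← Matrix.mul_assoc, Matrix.mul_assoc _ W, hK, ← Matrix.mul_assoc]
  have e2 : ∀ (A : Matrix (JJ m) (JJ m) ℂ) (B : Matrix (Fin n ⊕ Fin n) (Fin n ⊕ Fin n) ℂ),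
      W * A = B * W → A.trace = B.trace := by
    intro A B h
    have : A = (gi x * Wᴴ) * (B * W) := by rw [← h, ← Matrix.mul_assoc, hL, Matrix.one_mul]
    rw [this, Matrix.trace_mul_comm, Matrix.mul_assoc, hR, Matrix.mul_one]
  rw [e2 _ _ e1, aeval_lag, aeval_lag]
  have e3 : ((Matrix.diagonal (Pi.single p.1.1 1) : Matrix (Fin n) (Fin n) ℂ) * KK t *
      Matrix.diagonal (Pi.single p.1.2 1) * KK t).trace = KK t p.1.1 p.1.2 * KK t p.1.2 p.1.1 := by
    simp [Matrix.trace, Matrix.mul_apply, Matrix.diagonal_apply, Pi.single_apply]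
  have e4 : ∀ A : Matrix (Fin n) (Fin n) ℂ, (Matrix.fromBlocks A 0 0 A).trace = 2 * A.trace := by
    intro A
    simp [Matrix.trace, two_mul]
  simp only [K2, Matrix.fromBlocks_multiply, Matrix.mul_zero, Matrix.zero_mul, add_zero, zero_add]
  rw [e4, e3, KK_symm t p.1.1 p.1.2, ← mul_assoc, show (1 / 2 : ℂ) * 2 = 1 by norm_num, one_mul]
  unfold KK
  rw [dif_pos p.2, ← Complex.ofReal_mul, Complex.ofReal_re, Real.mul_self_sqrt (ht _).le]

lemma gram_inj {d : ℕ} (w : ℝ → ℝ) (hw : Continuous w) (hw0 : ∀ t, 0 < w t) (x : Fin d → ℂ)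
    (hx : (Matrix.of fun j k : Fin d => ∫ t in (0:ℝ)..(2 * Real.pi),
      Complex.exp ((((k : ℕ) : ℂ) - ((j : ℕ) : ℂ)) * (t : ℂ) * Complex.I) / (w t : ℂ)) *ᵥ x = 0) :
    x = 0 := by
  let P : ℝ → ℂ := fun t => ∑ k, x k * Complex.exp (t * Complex.I) ^ (k : ℕ)
  have hP : Continuous P := by
    unfold P
    fun_prop
  have hne : ∀ t, (w t : ℂ) ≠ 0 := fun t => by exact_mod_cast (hw0 t).ne'
  have hc : ∀ j k : Fin d, Continuous fun t : ℝ => star (x j) * (Complex.exp
      ((((k : ℕ) : ℂ) - ((j : ℕ) : ℂ)) * (t : ℂ) * Complex.I) / (w t : ℂ) * x k) := by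
    intro j k
    refine continuous_const.mul (Continuous.mul (Continuous.div (by fun_prop) (by fun_prop) hne)
      continuous_const)
  have h1 : ((∫ t in (0:ℝ)..(2 * Real.pi), Complex.normSq (P t) / w t : ℝ) : ℂ) = 0 := by
    have h2 : star x ⬝ᵥ (0 : Fin d → ℂ) = 0 := dotProduct_zero _
    rw [← hx] at h2
    rw [← h2, ← intervalIntegral.integral_ofReal]
    simp only [dotProduct, Matrix.mulVec, Matrix.of_apply, Finset.mul_sum, Pi.star_apply,
      ← intervalIntegral.integral_mul_const, ← intervalIntegral.integral_const_mul]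
    rw [Finset.sum_congr rfl fun j _ => (intervalIntegral.integral_finset_sum
      fun k _ => (hc j k).intervalIntegrable _ _).symm, ← intervalIntegral.integral_finset_sum
      fun j _ => (continuous_finset_sum _ fun k _ => hc j k).intervalIntegrable _ _]
    congr 1
    funext t
    rw [Complex.ofReal_div, Complex.normSq_eq_conj_mul_self]
    unfold P
    rw [map_sum, Finset.sum_mul_sum, Finset.sum_div]
    refine Finset.sum_congr rfl fun j _ => ?_
    rw [Finset.sum_div]
    refine Finset.sum_congr rfl fun k _ => ?_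
    rw [map_mul, map_pow, ← Complex.exp_conj, ← Complex.exp_nat_mul, ← Complex.exp_nat_mul,
      show (((k : ℕ) : ℂ) - ((j : ℕ) : ℂ)) * (t : ℂ) * Complex.I = (j : ℕ) * (starRingEnd ℂ)
        (t * Complex.I) + (k : ℕ) * (t * Complex.I) by simp; ring, Complex.exp_add]
    simp only [RCLike.star_def]
    ring
  have h3 : ∀ c ∈ Set.Icc (0 : ℝ) (2 * Real.pi), P c = 0 := by
    intro c hc
    by_contra hPc
    have := intervalIntegral.integral_pos (f := fun t => Complex.normSq (P t) / w t)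
      (show (0 : ℝ) < 2 * Real.pi by positivity)
      (Continuous.div (Complex.continuous_normSq.comp hP) hw fun t => (hw0 t).ne').continuousOn
      (fun t _ => div_nonneg (Complex.normSq_nonneg _) (hw0 t).le)
      ⟨c, hc, div_pos (Complex.normSq_pos.2 hPc) (hw0 c)⟩
    exact this.ne' (by exact_mod_cast h1)
  have hpi := Real.pi_gt_three
  have hb : ∀ j : ℕ, (0 : ℝ) < 1 / (j + 1) ∧ (1 : ℝ) / (j + 1) ≤ 1 := fun j =>
    ⟨by positivity, by
      rw [div_le_one (by positivity)]
      have : (0 : ℝ) ≤ j := by positivity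
      linarith⟩
  refine Matrix.eq_zero_of_forall_index_sum_mul_pow_eq_zero
    (f := fun j : Fin d => Complex.exp (((1 / ((j : ℕ) + 1) : ℝ) : ℂ) * Complex.I))
    (fun i j h => ?_) fun j => h3 _ ⟨(hb j).1.le, by linarith [(hb j).2]⟩
  have := Complex.exp_inj_of_neg_pi_lt_of_le_pi (by
    rw [Complex.mul_I_im, Complex.ofReal_re]; linarith [(hb i).1]) (by
    rw [Complex.mul_I_im, Complex.ofReal_re]; linarith [(hb i).2]) (by
    rw [Complex.mul_I_im, Complex.ofReal_re]; linarith [(hb j).1]) (by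
    rw [Complex.mul_I_im, Complex.ofReal_re]; linarith [(hb j).2]) h
  have h4 := Complex.ofReal_injective (mul_right_cancel₀ Complex.I_ne_zero this)
  rw [div_eq_div_iff (by positivity) (by positivity)] at h4
  apply Fin.ext
  exact_mod_cast (by linarith : ((i : ℕ) : ℝ) = (j : ℕ))

lemma block_unit (G : (i : Fin r) → Matrix (Fin (m i)) (Fin (m i)) ℂ)
    (hG : ∀ i x, G i *ᵥ x = 0 → x = 0) : IsUnit (Matrix.blockDiagonal' G).det := by
  have h1 : ∀ i, G i * (G i)⁻¹ = 1 := fun i => Matrix.mul_nonsing_inv _ (by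
    rw [isUnit_iff_ne_zero]
    intro h
    obtain ⟨v, hv, hv'⟩ := Matrix.exists_mulVec_eq_zero_iff.2 h
    exact hv (hG i v hv'))
  have h2 : Matrix.blockDiagonal' G * Matrix.blockDiagonal' (fun i => (G i)⁻¹) = 1 := by
    rw [← Matrix.blockDiagonal'_mul]
    simp only [h1]
    exact Matrix.blockDiagonal'_one
  exact Matrix.isUnit_det_of_right_inverse h2

lemma block_toep (F : Fin r → ℂ → ℂ) :
    Matrix.blockDiagonal' (fun i => Matrix.of fun j k : Fin (m i) =>
      F i (((k : ℕ) : ℂ) - ((j : ℕ) : ℂ))) = btoep (fun q => F q.1 (((q.2 : ℕ) : ℂ) - (0 : ℕ)))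
        (fun q => F q.1 (((0 : ℕ) : ℂ) - ((q.2 : ℕ) : ℂ))) := by
  unfold btoep
  congr 1
  funext i
  exact toep_of (fun j k => F i ((k : ℂ) - (j : ℂ))) fun j k _ _ => by
    push_cast
    congr 1
    ring

end Aux


/-- The negation of the preceding statement: For every complex n×n matrix A, A ⊕ Aᵀ is unitarily equivalent to a direct sum of truncated Toeplitz operators with continuous symbols on model spaces of finite Blaschke products, written in the basis z^j/∏(1−conj(a)z). -/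
theorem result :
    ¬ (∀ (n : ℕ) (A : Matrix (Fin n) (Fin n) ℂ),
    ∃ (r : ℕ) (m : Fin r → ℕ) (a : (i : Fin r) → Fin (m i) → ℂ) (φ : Fin r → ℝ → ℂ)
      (S : Matrix (Fin n ⊕ Fin n) (Σ i : Fin r, Fin (m i)) ℂ),
      ∑ i, m i = 2 * n ∧
      (∀ i j, ‖a i j‖ < 1) ∧
      (∀ i, Continuous (φ i)) ∧
      Matrix.conjTranspose S * S = Matrix.blockDiagonal' (fun i => Matrix.of (fun (j k : Fin (m i)) =>
          ∫ t in (0:ℝ)..(2 * Real.pi),
            Complex.exp ((((k : ℕ) : ℂ) - ((j : ℕ) : ℂ)) * (t : ℂ) * Complex.I) /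
              ((Complex.normSq (∏ l : Fin (m i),
                  (1 - starRingEnd ℂ (a i l) * Complex.exp ((t : ℂ) * Complex.I))) : ℝ) : ℂ))) ∧
      Matrix.conjTranspose S * Matrix.fromBlocks A 0 0 (Matrix.transpose A) * S =
        Matrix.blockDiagonal' (fun i => Matrix.of (fun (j k : Fin (m i)) =>
          ∫ t in (0:ℝ)..(2 * Real.pi),
            φ i t * Complex.exp ((((k : ℕ) : ℂ) - ((j : ℕ) : ℂ)) * (t : ℂ) * Complex.I) /
              ((Complex.normSq (∏ l : Fin (m i),
                  (1 - starRingEnd ℂ (a i l) * Complex.exp ((t : ℂ) * Complex.I))) : ℝ) : ℂ)))) := by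
  intro h
  have hd : Dense (⋃ s : {s : Σ r : ℕ, Fin r → ℕ // ∑ i, s.2 i = 2 * 34},
      Set.range (Psi 34 s.1.2))ᶜ := by
    apply dense_compl_of_dimH_lt_finrank
    have h1 : Fintype.card (Pairs 34) = 561 := by
      rw [Fintype.card_subtype]; decide +kernel
    rw [dimH_iUnion, Module.finrank_fintype_fun_eq_card, h1]
    refine lt_of_le_of_lt (b := ((546 : ℕ) : ENNReal))
      (iSup_le fun s => (Psi_smooth.dimH_range_le.trans (Nat.cast_le.2 ?_)))
      (by exact_mod_cast (by norm_num : 546 < 561))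
    rw [Module.finrank_pi_fintype]
    simp [s.2]
  have hU : IsOpen {t : Pairs 34 → ℝ | ∀ p, 0 < t p} := by
    rw [Set.setOf_forall]
    exact isOpen_iInter_of_finite fun p => isOpen_lt continuous_const (continuous_apply p)
  obtain ⟨t, ht1, ht3⟩ := hd.inter_open_nonempty _ hU ⟨fun _ => 1, fun _ => one_pos⟩
  obtain ⟨r, m, a, φ, S, hm, ha, -, e1, e2⟩ := h 34 (MM t)
  refine ht3 (Set.mem_iUnion.2 ⟨⟨⟨r, m⟩, hm⟩, ?_⟩)
  have hu : IsUnit (Sᴴ * S).det := by
    rw [e1]
    refine block_unit _ fun i x hx => gram_inj (fun t => Complex.normSq (∏ l : Fin (m i),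
      (1 - starRingEnd ℂ (a i l) * Complex.exp ((t : ℂ) * Complex.I)))) ?_ (fun t => ?_) x hx
    · exact Complex.continuous_normSq.comp (by fun_prop)
    · rw [Complex.normSq_pos, Finset.prod_ne_zero_iff]
      intro l _ h0
      have h1 := congrArg norm (sub_eq_zero.1 h0)
      rw [norm_mul, Complex.norm_exp_ofReal_mul_I, Complex.norm_conj] at h1
      have := ha i l
      simp at h1
      linarith
  rw [M2_eq] at e2
  exact mem_range t ht1 (by simp [hm]) hu
    (e1.trans (block_toep fun i z => ∫ t in (0:ℝ)..(2 * Real.pi),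
      Complex.exp (z * (t : ℂ) * Complex.I) / ((Complex.normSq (∏ l : Fin (m i),
        (1 - starRingEnd ℂ (a i l) * Complex.exp ((t : ℂ) * Complex.I))) : ℝ) : ℂ)))
    (e2.trans (block_toep fun i z => ∫ t in (0:ℝ)..(2 * Real.pi),
      φ i t * Complex.exp (z * (t : ℂ) * Complex.I) / ((Complex.normSq (∏ l : Fin (m i),
        (1 - starRingEnd ℂ (a i l) * Complex.exp ((t : ℂ) * Complex.I))) : ℝ) : ℂ)))

end Pool.Agent.S06742
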