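import Pool.Statements.S06808
import Pool.Agent.H22.Dau2

set_option autoImplicit false
open Pool Pool.MP_fc26cf_an

namespace Pool.Agent.S06808

open Pool.Agent.H22.Dau Complex Metric MvPolynomial Filter Topology

noncomputable def A : MvPolynomial (Fin 2) ℂ := (1 - X 0) ^ 7

noncomputable def B : MvPolynomial (Fin 2) ℂ := C 64 * (C 2 - C I * X 0) ^ 2 -
  X 1 * (C 64 * X 0 ^ 2 * (C 2 * X 0 + C I) * (C 2 - C I * X 0) + (1 - X 0) ^ 6)

lemma eA (z : Fin 2 → ℂ) : eval z A = (1 - z 0) ^ 7 := by simp [A]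

lemma eB (z : Fin 2 → ℂ) : eval z B = Q (z 0) - z 1 * P (z 0) := by simp [B, P, Q]

lemma lowB {z : Fin 2 → ℂ} (hz : ∀ i, ‖z i‖ ≤ 1) : ‖1 - z 0‖ ^ 6 ≤ ‖eval z B‖ := by
  have h1 := gap (hz 0)
  have h2 := norm_sub_norm_le (Q (z 0)) (z 1 * P (z 0))
  rw [norm_mul] at h2
  rw [eB]
  nlinarith [hz 1, norm_nonneg (P (z 0))]

lemma rel : IsRelPrime A B := by
  have h : Irreducible (1 - X 0 : MvPolynomial (Fin 2) ℂ) := by
    refine irreducible_of_totalDegree_eq_one ?_ fun x hx => ?_
    · rw [sub_eq_add_neg, totalDegree_add_eq_right_of_totalDegree_lt] <;> simp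
    · have := hx 0
      rw [coeff_sub, coeff_zero_one, coeff_zero_X, sub_zero] at this
      exact isUnit_of_dvd_one this
  refine IsRelPrime.pow_left (h.isRelPrime_iff_not_dvd.mpr fun hd => ?_)
  have := map_dvd (eval ![1, 0]) hd
  rw [eB] at this
  simp [Q_ne] at this

noncomputable def co (k n : ℕ) : ℂ := (k.factorial : ℂ)⁻¹ * iteratedDeriv k (g n) 0

lemma gd (n : ℕ) : DifferentiableOn ℂ (g n) (ball 0 2) := fun w hw => by
  have h := Q_ne (mem_ball_zero_iff.mp hw)
  have hQ : DifferentiableAt ℂ Q w := by unfold Q; fun_prop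
  have hP : DifferentiableAt ℂ P w := by unfold P; fun_prop
  exact (((by fun_prop : DifferentiableAt ℂ (fun z : ℂ => (1 - z) ^ 7) w).div hQ h).mul
    ((hP.div hQ h).pow n)).differentiableWithinAt

lemma cs (n : ℕ) {z : ℂ} (hz : ‖z‖ < 2) : HasSum (fun k => co k n * z ^ k) (g n z) := by
  refine (funext fun k => ?_ : (fun k => _) = fun k => _) ▸
    hasSum_taylorSeries_on_ball (gd n) (mem_ball_zero_iff.mpr hz)
  simp [co]; ring

lemma PQ {z : ℂ} (hz : ‖z‖ ≤ 1) : ‖P z / Q z‖ ≤ 1 := by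
  rw [norm_div]
  exact div_le_one_of_le₀ (by linarith [gap hz, pow_nonneg (norm_nonneg (1 - z)) 6]) (norm_nonneg _)

lemma cb (k n : ℕ) : ‖co k n‖ ≤ 2 := by
  have := norm_iteratedDeriv_le_of_forall_mem_sphere_norm_le (c := 0) (f := g n) (C := 2) k one_pos
    (DifferentiableOn.diffContOnCl ((gd n).mono (by
      rw [closure_ball _ one_ne_zero]; exact closedBall_subset_ball (by norm_num)))) fun z hz => by
    rw [mem_sphere_zero_iff_norm] at hz
    have h1 : ‖1 - z‖ ≤ 2 := (norm_sub_le _ _).trans (by rw [hz]; norm_num)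
    rw [g, norm_mul, norm_pow, norm_div, norm_pow]
    refine (mul_le_of_le_one_right (by positivity) (pow_le_one₀ (norm_nonneg _) (PQ hz.le))).trans ?_
    refine div_le_of_le_mul₀ (norm_nonneg _) (by norm_num) ?_
    have h2 := gap hz.le
    rw [pow_succ, mul_comm]
    exact mul_le_mul h1 (by linarith [norm_nonneg (P z)]) (by positivity) (by norm_num)
  rw [co, norm_mul, norm_inv, norm_natCast, inv_mul_le_iff₀ (by positivity)]
  simpa using this

lemma hs (z : Fin 2 → ℂ) (hz : ∀ i, ‖z i‖ < 1) :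
    HasSum (fun p : ℕ × ℕ => co p.1 p.2 * z 0 ^ p.1 * z 1 ^ p.2) (eval z A / eval z B) := by
  have h1 : Summable fun p : ℕ × ℕ => co p.1 p.2 * z 0 ^ p.1 * z 1 ^ p.2 := by
    refine .of_norm_bounded (((summable_geometric_of_lt_one (norm_nonneg _) (hz 0)).mul_of_nonneg
      (summable_geometric_of_lt_one (norm_nonneg _) (hz 1)) (fun _ => by positivity)
      fun _ => by positivity).mul_left 2) fun p => ?_
    rw [norm_mul, norm_mul, norm_pow, norm_pow, mul_assoc]
    gcongr; exact cb _ _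
  have h2 := ((Equiv.prodComm ℕ ℕ).hasSum_iff.mpr h1.hasSum).prod_fiberwise fun n =>
    (cs n (by linarith [hz 0] : ‖z 0‖ < 2)).mul_right (z 1 ^ n)
  have h3 : ‖P (z 0) / Q (z 0) * z 1‖ < 1 := by
    rw [norm_mul]
    exact mul_lt_one_of_nonneg_of_lt_one_right (PQ (hz 0).le) (norm_nonneg _) (hz 1)
  have h4 := (hasSum_geometric_of_norm_lt_one h3).mul_left ((1 - z 0) ^ 7 / Q (z 0))
  simp only [mul_pow, ← mul_assoc] at h4
  convert h1.hasSum
  rw [h2.unique h4, eA, eB]
  have := Q_ne (by linarith [hz 0] : ‖z 0‖ < 2)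
  field_simp


/-- The negation of the preceding statement: For coprime A,B in two variables whose B-zeros in the closed bidisc lie on the torus and are zeros of A, the Taylor coefficients of A/B are absolutely summable iff A/B extends continuously from the open to the closed bidisc. -/
theorem result :
    ¬ (∀ A B : MvPolynomial (Fin 2) ℂ,
      IsRelPrime A B →
      (∀ z : Fin 2 → ℂ, (∀ i, ‖z i‖ ≤ 1) → MvPolynomial.eval z B = 0 →
        (∀ i, ‖z i‖ = 1) ∧ MvPolynomial.eval z A = 0) →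
      ∀ h : ℕ → ℕ → ℂ,
        (∀ z : Fin 2 → ℂ, (∀ i, ‖z i‖ < 1) →
          HasSum (fun p : ℕ × ℕ => h p.1 p.2 * z 0 ^ p.1 * z 1 ^ p.2)
            (MvPolynomial.eval z A / MvPolynomial.eval z B)) →
        (Summable (fun p : ℕ × ℕ => ‖h p.1 p.2‖) ↔
          ∃ F : (Fin 2 → ℂ) → ℂ,
            ContinuousOn F {z : Fin 2 → ℂ | ∀ i, ‖z i‖ ≤ 1} ∧
            ∀ z : Fin 2 → ℂ, (∀ i, ‖z i‖ < 1) →
              F z = MvPolynomial.eval z A / MvPolynomial.eval z B)) := by
  intro H
  have z1 : ∀ z : Fin 2 → ℂ, (∀ i, ‖z i‖ ≤ 1) → eval z B = 0 → z 0 = 1 := fun z hz h => by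
    have := lowB hz
    rw [h, norm_zero] at this
    exact (sub_eq_zero.mp (norm_eq_zero.mp (pow_eq_zero_iff (by norm_num) |>.mp
      (le_antisymm this (by positivity))))).symm
  have S := (H A B rel (fun z hz h => ?_) co hs).mpr
    ⟨fun z => eval z A / eval z B, fun z hz => ?_, fun _ _ => rfl⟩
  · have S2 := ((Equiv.prodComm ℕ ℕ).summable_iff.mpr S)
    refine Real.not_summable_one_div_natCast ((summable_nat_add_iff (100 ^ 6 + 1)).mp ?_)
    refine (summable_mul_left_iff (a := 1 / (4 ^ 7 * 64 * 9 * 400)) (by norm_num)).mp ?_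
    refine .of_nonneg_of_le (fun n => by positivity) (fun n => ?_)
      ((summable_nat_add_iff (100 ^ 6)).mpr S2.prod)
    rw [← add_assoc, Nat.cast_add_one]
    exact lower _ (Nat.le_add_left _ _) _ (S2.prod_factor _) fun t => cs _ (by simp [E_norm])
  · have h1 := z1 z hz h
    refine ⟨Fin.forall_fin_two.mpr ⟨by simp [h1], ?_⟩, by simp [eA, h1]⟩
    rw [eB, h1, sub_eq_zero] at h
    have h2 : P 1 = 320 := by simp only [P]; linear_combination (-64) * I_sq
    have h3 : ‖Q 1‖ = 320 := by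
      rw [Q, norm_mul, norm_pow, Complex.sq_norm]; simp [normSq_apply]; norm_num
    rw [h, norm_mul, h2] at h3
    simpa using h3
  · by_cases h : eval z B = 0
    · rw [ContinuousWithinAt, h, div_zero]
      refine squeeze_zero_norm' (a := fun w => ‖1 - w 0‖) (eventually_nhdsWithin_of_forall
        fun w hw => ?_) (tendsto_nhdsWithin_of_tendsto_nhds ?_)
      · rw [norm_div, eA, norm_pow, pow_succ']
        exact div_le_of_le_mul₀ (norm_nonneg _) (norm_nonneg _) (by gcongr; exact lowB hw)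
      · exact Continuous.tendsto' (by fun_prop) _ _ (by simp [z1 z hz h])
    · exact ((continuous_eval A).continuousAt.div (continuous_eval B).continuousAt
        h).continuousWithinAt

end Pool.Agent.S06808
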