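import Pool.Statements.S06826
import Pool.Agent.H9.Ghost5

set_option autoImplicit false
open scoped Pointwise
open Pool Pool.MP_fd6009_an

namespace Pool.Agent.S06826

/-- The negation of the preceding statement: In every real Banach space, if A and B are maximally monotone, A is of type (FPV), and dom A meets the interior of dom B, then the pointwise sum A+B is maximally monotone. -/
theorem result :
    ¬ (∀ (X : Type) [NormedAddCommGroup X] [NormedSpace ℝ X] [CompleteSpace X]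
    (A B : X → Set (X →L[ℝ] ℝ)),
    (∀ (x y : X) (a b : X →L[ℝ] ℝ), a ∈ A x → b ∈ A y → 0 ≤ (a - b) (x - y)) →
    (∀ (x : X) (a : X →L[ℝ] ℝ),
        (∀ (y : X) (b : X →L[ℝ] ℝ), b ∈ A y → 0 ≤ (a - b) (x - y)) → a ∈ A x) →
    (∀ (x y : X) (a b : X →L[ℝ] ℝ), a ∈ B x → b ∈ B y → 0 ≤ (a - b) (x - y)) →
    (∀ (x : X) (a : X →L[ℝ] ℝ),
        (∀ (y : X) (b : X →L[ℝ] ℝ), b ∈ B y → 0 ≤ (a - b) (x - y)) → a ∈ B x) →
    ({x : X | (A x).Nonempty} ∩ interior {x : X | (B x).Nonempty}).Nonempty →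
    (∀ U : Set X, IsOpen U → Convex ℝ U → (U ∩ {x : X | (A x).Nonempty}).Nonempty →
      ∀ x ∈ U, ∀ a : X →L[ℝ] ℝ,
        (∀ y ∈ U, ∀ b ∈ A y, 0 ≤ (a - b) (x - y)) → a ∈ A x) →
    ((∀ (x y : X) (a b : X →L[ℝ] ℝ), a ∈ A x + B x → b ∈ A y + B y →
        0 ≤ (a - b) (x - y)) ∧
     (∀ (x : X) (a : X →L[ℝ] ℝ),
        (∀ (y : X) (b : X →L[ℝ] ℝ), b ∈ A y + B y → 0 ≤ (a - b) (x - y)) →
          a ∈ A x + B x))) := by
  intro h
  obtain ⟨p, hp, e1⟩ := H9.Ghost.Op_ex (s := -1) (by simp)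
  obtain ⟨q, hq, e2⟩ := H9.Ghost.Op_ex one_ne_zero
  obtain ⟨-, -, n, hn, -⟩ := (h _ (fun x => {f | (x, f) ∈ H9.Ghost.Op})
    (fun x => {f | x.1 ≤ 0 ∧ ∀ c : ℝ × H9.Hyper.V, c.1 ≤ 0 → f (c - x) ≤ 0})
    (fun x y f g hf hg => H9.Ghost.Op_mono _ hf _ hg)
    (fun x f hf => H9.Ghost.Op_fpv _ isOpen_univ p hp trivial x trivial f fun a ha _ => hf _ _ ha)
    (fun x y f g hf hg => by
      have := hf.2 y hg.1
      rw [← neg_sub, map_neg] at this
      exact sub_nonneg.2 ((hg.2 x hf.1).trans (neg_nonpos.1 this)))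
    (fun x f hf => ⟨le_of_not_gt fun e => by
      have := hf 0 (((|f x| + 1) / x.1) • ContinuousLinearMap.fst ℝ ℝ _) ⟨le_rfl, fun c hc =>
        (sub_zero c).symm ▸ mul_nonpos_of_nonneg_of_nonpos (by positivity) hc⟩
      rw [sub_zero] at this
      linarith [le_abs_self (f x), show _ - (|f x| + 1) / x.1 * x.1 = _ from
        congrArg (f x - ·) (div_mul_cancel₀ _ e.ne'), show 0 ≤ f x - (|f x| + 1) / x.1 * x.1 from this],
      fun c hc => by
        have := hf c 0 ⟨hc, fun _ _ => le_rfl⟩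
        rw [sub_zero, ← neg_sub, map_neg] at this
        linarith⟩)
    ⟨p.1, ⟨p.2, hp⟩, interior_maximal (t := Prod.fst ⁻¹' Set.Iio 0) (fun x hx => by
      exact ⟨0, le_of_lt hx, fun _ _ => le_rfl⟩) (isOpen_Iio.preimage continuous_fst)
      (show p.1.1 < 0 by linarith)⟩
    fun U hU _ ⟨a, h1, f, hf⟩ x hx g hg => H9.Ghost.Op_fpv U hU (a, f) hf h1 x hx g
      fun b hb hb' => hg _ hb' _ hb).2 q.1 q.2 (by
        rintro y _ ⟨a, ha, n, hn, rfl⟩
        have e3 := H9.Ghost.Op_mono q hq _ ha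
        have e4 := lt_of_le_of_ne hn.1 (H9.Ghost.Op_ne _ ha)
        have e5 := hn.2 (y + (-y.1 / (1 - y.1)) • (q.1 - y)) (le_of_eq (by
          show y.1 + _ * (q.1.1 - y.1) = 0
          rw [e2, div_mul_cancel₀ _ (by linarith), add_neg_cancel]))
        rw [add_sub_cancel_left, map_smul, smul_eq_mul] at e5
        have e6 := nonpos_of_mul_nonpos_right e5 (div_pos (by linarith) (by linarith))
        simp only [sub_apply, add_apply] at e3 ⊢
        linarith)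
  linarith [hn.1]

end Pool.Agent.S06826
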