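import Pool.Statements.S06830
import Pool.Agent.H30.Wilm
-- import your own Pool.Agent.* helpers here

set_option autoImplicit false
open Pool Pool.MP_fda7e3_an

namespace Pool.Agent.S06830

/-- The negation of the preceding statement: For every complex polynomial T and every connected component D of the set where ∣T'∣ < 1, each value w is taken by conj(z) + T(z) at most r+1 times in D, where r is the number of zeros of T'' in D counted with multiplicity. -/
theorem result :
    ¬ (∀ (T : Polynomial ℂ) (x : ℂ), ‖(Polynomial.derivative T).eval x‖ < 1 →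
      ∀ w : ℂ,
        {z : ℂ | z ∈ connectedComponentIn {u : ℂ | ‖(Polynomial.derivative T).eval u‖ < 1} x ∧
            starRingEnd ℂ z + T.eval z = w}.encard
          ≤ (((∑ᶠ z ∈ connectedComponentIn {u : ℂ | ‖(Polynomial.derivative T).eval u‖ < 1} x,
                (Polynomial.derivative (Polynomial.derivative T)).rootMultiplicity z) + 1 : ℕ) : ℕ∞)) := by
  intro H
  have h := H Pool.Agent.H30.Wilm.T (-1)
    (by simpa using Pool.Agent.H30.Wilm.seg_mem 1 (by norm_num) 0 le_rfl zero_le_one)
    (starRingEnd ℂ (5 * (1 : ℝ) * Complex.I) +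
      Pool.Agent.H30.Wilm.T.eval (5 * (1 : ℝ) * Complex.I))
  rw [finsum_mem_eq_zero_of_forall_eq_zero
    (s := connectedComponentIn
      {u : ℂ | ‖(Polynomial.derivative Pool.Agent.H30.Wilm.T).eval u‖ < 1} (-1))
    (fun z hz => Polynomial.rootMultiplicity_eq_zero
      (Pool.Agent.H30.Wilm.crit z (connectedComponentIn_subset
        {u : ℂ | ‖(Polynomial.derivative Pool.Agent.H30.Wilm.T).eval u‖ < 1} (-1) hz)))] at h
  have hne : (5 * (1 : ℝ) * Complex.I : ℂ) ≠ 5 * (-1 : ℝ) * Complex.I := by
    intro e
    have := congrArg Complex.im e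
    simp at this
    norm_num at this
  have h2 := le_trans (Set.encard_le_encard (s := {(5 * (1 : ℝ) * Complex.I : ℂ),
    5 * (-1 : ℝ) * Complex.I}) (by
      rintro z (rfl | rfl)
      · exact ⟨Pool.Agent.H30.Wilm.mem_comp 1 (by norm_num), rfl⟩
      · exact ⟨Pool.Agent.H30.Wilm.mem_comp (-1) (by norm_num),
          Pool.Agent.H30.Wilm.val_eq.symm⟩)) h
  rw [Set.encard_pair hne] at h2
  norm_num at h2

end Pool.Agent.S06830
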