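import Pool.Statements.S06877
import Pool.Agent.H11.HamB

set_option autoImplicit false
open Pool Pool.MP_012ca0_co

namespace Pool.Agent.S06877

/-- For every odd n ≥ 3 there is a tournament on n vertices in which every vertex has out-degree (n−1)/2 and which has at least (n−1)!/2^n directed Hamilton cycles. -/
theorem result :
    ∀ n : ℕ, Odd n → 3 ≤ n →
      ∃ adj : Fin n → Fin n → Prop,
        (∀ v, ¬ adj v v) ∧
        (∀ v w, v ≠ w → (adj v w ↔ ¬ adj w v)) ∧
        (∀ v, {w : Fin n | adj v w}.ncard = (n - 1) / 2) ∧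
        ((Nat.factorial (n - 1) : ℝ) / (2 : ℝ) ^ n ≤
          (({c : Equiv.Perm (Fin n) |
              c.IsCycle ∧ c.support = Finset.univ ∧ ∀ v, adj v (c v)}.ncard : ℕ) : ℝ)) := by
  intro n hn h3
  obtain ⟨m, rfl⟩ : ∃ m, n = m + 1 := ⟨n - 1, by omega⟩
  letI : CommRing (Fin (m + 1)) := inferInstanceAs (CommRing (ZMod (m + 1)))
  have h2 : ∀ x : Fin (m + 1), 2 * x = 0 → x = 0 := by
    intro x hx
    obtain ⟨k, hk⟩ := hn
    have h0 : ((m + 1 : ℕ) : ZMod (m + 1)) = 0 := ZMod.natCast_self _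
    have h1 : ((2 * k + 1 : ℕ) : ZMod (m + 1)) = 0 := by rw [← hk]; exact h0
    push_cast at h1
    have key : ∀ y : ZMod (m + 1), 2 * y = 0 → y = 0 := fun y hy => by
      linear_combination y * h1 - k * hy
    exact key x hx
  have hc : Fintype.card (Fin (m + 1)) = m + 1 := Fintype.card_fin _
  obtain ⟨σ, hσ⟩ := H11.Ham.exists_good h2 (by omega)
  refine ⟨H11.Ham.adj σ, fun v h => h.1 rfl, H11.Ham.antisym σ, fun v => ?_, ?_⟩
  · rw [H11.Ham.degree h2, hc]
  · classical
    have e : {c : Equiv.Perm (Fin (m + 1)) |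
        c.IsCycle ∧ c.support = Finset.univ ∧ ∀ v, H11.Ham.adj σ v (c v)} =
        (((H11.Ham.CC (Fin (m + 1))).filter fun c => ∀ v, H11.Ham.adj σ v (c v) :
          Finset (Equiv.Perm (Fin (m + 1)))) : Set (Equiv.Perm (Fin (m + 1)))) := by
      ext c
      simp [H11.Ham.CC, and_assoc]
    rw [e, Set.ncard_coe_finset, div_le_iff₀ (by positivity), mul_comm]
    rw [hc] at hσ
    convert (Int.cast_le (R := ℝ)).2 hσ using 1
    · simp
    · push_cast
      congr

end Pool.Agent.S06877
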