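import Pool.Statements.S06890
import Pool.Agent.H9.Visib

set_option autoImplicit false
open Classical
open Pool Pool.MP_019aa5_co

namespace Pool.Agent.S06890

open Pool.Agent.H9.Visib MvPolynomial

noncomputable def th : Fin 3 → MvPolynomial (Fin 6) ℚ :=
  ![MvPolynomial.X 0 - MvPolynomial.X 4 - MvPolynomial.X 5,
    MvPolynomial.X 1 - MvPolynomial.X 3 - MvPolynomial.X 5,
    MvPolynomial.X 2 - MvPolynomial.X 3 - MvPolynomial.X 4]

noncomputable def JJ : Ideal (MvPolynomial (Fin 6) ℚ) :=
  Ideal.span ((fun S : Finset (Fin 6) => ∏ i ∈ S, (MvPolynomial.X i : MvPolynomial (Fin 6) ℚ)) ''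
    {S : Finset (Fin 6) | S ∉ Δ}) ⊔ Ideal.span (Set.range th)

noncomputable def y (i : Fin 6) : MvPolynomial (Fin 6) ℚ ⧸ JJ :=
  Ideal.Quotient.mk JJ (MvPolynomial.X i)

lemma nonface (S : Finset (Fin 6)) (hS : S ∉ Δ) : ∏ i ∈ S, y i = 0 := by
  simp only [y]
  rw [← map_prod, Ideal.Quotient.eq_zero_iff_mem]
  exact Ideal.mem_sup_left (Ideal.subset_span ⟨S, hS, rfl⟩)

lemma lin (i : Fin 3) : Ideal.Quotient.mk JJ (th i) = 0 := by
  rw [Ideal.Quotient.eq_zero_iff_mem]
  exact Ideal.mem_sup_right (Ideal.subset_span ⟨i, rfl⟩)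

lemma l0 : y 0 = y 4 + y 5 := by
  have := lin 0
  simp only [th, Matrix.cons_val_zero, map_sub] at this
  simp only [y]; linear_combination this

lemma l1 : y 1 = y 3 + y 5 := by
  have := lin 1
  simp only [th, Matrix.cons_val_one, Matrix.cons_val_zero, map_sub] at this
  simp only [y]; linear_combination this

lemma l2 : y 2 = y 3 + y 4 := by
  have := lin 2
  simp only [th, Matrix.cons_val, map_sub] at this
  simp only [y]; linear_combination this

lemma r1 : (y 4 + y 5) * y 5 = 0 := by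
  have := nonface {0, 5} (by decide +kernel)
  rwa [Finset.prod_pair (by decide), l0] at this

lemma r2 : (y 3 + y 5) * y 3 = 0 := by
  have := nonface {1, 3} (by decide +kernel)
  rwa [Finset.prod_pair (by decide), l1] at this

lemma r3 : (y 3 + y 4) * y 4 = 0 := by
  have := nonface {2, 4} (by decide +kernel)
  rwa [Finset.prod_pair (by decide), l2] at this

lemma r4 : (y 4 + y 5) * ((y 3 + y 5) * (y 3 + y 4)) = 0 := by
  have := nonface {0, 1, 2} (by decide +kernel)
  rwa [Finset.prod_insert (by decide), Finset.prod_pair (by decide), l0, l1, l2] at this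

lemma r5 : y 3 * y 4 * y 5 = 0 := by
  have h2 : 2 * (y 3 * y 4 * y 5) = 0 := by
    linear_combination r4 - y 5 * r2 - y 3 * r3 - y 4 * r1
  have hu : IsUnit (2 : MvPolynomial (Fin 6) ℚ ⧸ JJ) := by
    have := (IsUnit.mk0 (2 : ℚ) two_ne_zero).map (algebraMap ℚ (MvPolynomial (Fin 6) ℚ ⧸ JJ))
    rwa [map_ofNat] at this
  exact hu.mul_right_eq_zero.1 h2

lemma int_y (i : Fin 6) : IsIntegral ℚ (y i) := by
  have nil : ∀ z : MvPolynomial (Fin 6) ℚ ⧸ JJ, z ^ 3 = 0 → IsIntegral ℚ z := fun z hz =>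
    IsIntegral.of_pow (n := 3) (by norm_num) (hz ▸ isIntegral_zero)
  have h3 : IsIntegral ℚ (y 3) := nil _ (by
    linear_combination y 3 * r2 - y 5 * r2 + y 3 * r1 - r5)
  have h4 : IsIntegral ℚ (y 4) := nil _ (by
    linear_combination y 4 * r3 - y 3 * r3 + y 4 * r2 - r5)
  have h5 : IsIntegral ℚ (y 5) := nil _ (by
    linear_combination y 5 * r1 - y 4 * r1 + y 5 * r3 - r5)
  fin_cases i
  · exact (l0 ▸ h4.add h5 :)
  · exact (l1 ▸ h3.add h5 :)
  · exact (l2 ▸ h3.add h4 :)
  · exact h3
  · exact h4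
  · exact h5

lemma fin_quot : Module.Finite ℚ (MvPolynomial (Fin 6) ℚ ⧸ JJ) := by
  haveI : Algebra.IsIntegral ℚ (MvPolynomial (Fin 6) ℚ ⧸ JJ) := ⟨fun z => by
    obtain ⟨q, rfl⟩ := Ideal.Quotient.mk_surjective z
    induction q using MvPolynomial.induction_on with
    | C a => exact isIntegral_algebraMap
    | add p q hp hq => rw [map_add]; exact hp.add hq
    | mul_X p i hp => rw [map_mul]; exact hp.mul (int_y i)⟩
  exact Algebra.IsIntegral.finite

lemma filt (F : Finset (Fin 6)) (a b c : Fin 6) (hF : F = {a, b, c}) (P : Fin 6 → Prop)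
    [DecidablePred P] (ha : P a) (hb : P b) (hc : ¬ P c) : F.filter P = {a, b} := by
  subst hF
  ext v
  simp only [Finset.mem_filter, Finset.mem_insert, Finset.mem_singleton]
  constructor
  · rintro ⟨rfl | rfl | rfl, h⟩
    · exact Or.inl rfl
    · exact Or.inr rfl
    · exact absurd h hc
  · rintro (rfl | rfl)
    · exact ⟨Or.inl rfl, ha⟩
    · exact ⟨Or.inr (Or.inl rfl), hb⟩

/-- The negation of the preceding statement: For any field, any convexly realized (d−1)-dim complex in R^(d−1), any generic point x, and any linear system of parameters, the monomials of the visible-vertex sets G_F of the facets form a k-basis of the face ring modulo the parameters. -/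
theorem result :
    ¬ (∀ (k : Type) [Field k] (n d : ℕ) (Δ : Finset (Finset (Fin n)))
      (p : Fin n → EuclideanSpace ℝ (Fin (d - 1))) (x : EuclideanSpace ℝ (Fin (d - 1)))
      (θ : Fin d → MvPolynomial (Fin n) k) (J : Ideal (MvPolynomial (Fin n) k))
      (f : {F : Finset (Fin n) // F ∈ Δ ∧ F.card = d} → MvPolynomial (Fin n) k ⧸ J),
      1 ≤ d →
      (∀ S ∈ Δ, ∀ T : Finset (Fin n), T ⊆ S → T ∈ Δ) →
      (∀ i : Fin n, ({i} : Finset (Fin n)) ∈ Δ) →
      (∀ S ∈ Δ, S.card ≤ d) →
      (∃ S ∈ Δ, S.card = d) →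
      (∀ S ∈ Δ, AffineIndependent ℝ (fun i : (S : Set (Fin n)) => p i)) →
      (∀ S ∈ Δ, ∀ T ∈ Δ,
        convexHull ℝ (p '' (S : Set (Fin n))) ∩ convexHull ℝ (p '' (T : Set (Fin n))) =
          convexHull ℝ (p '' ((S ∩ T : Finset (Fin n)) : Set (Fin n)))) →
      Convex ℝ (⋃ S ∈ Δ, convexHull ℝ (p '' (S : Set (Fin n)))) →
      x ∈ (⋃ S ∈ Δ, convexHull ℝ (p '' (S : Set (Fin n)))) →
      (∀ H ∈ Δ, H.card + 1 = d → x ∉ affineSpan ℝ (p '' (H : Set (Fin n)))) →
      (∀ i, (θ i).IsHomogeneous 1) →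
      J = Ideal.span ((fun S : Finset (Fin n) => ∏ i ∈ S, (MvPolynomial.X i : MvPolynomial (Fin n) k)) ''
              {S : Finset (Fin n) | S ∉ Δ}) ⊔ Ideal.span (Set.range θ) →
      Module.Finite k (MvPolynomial (Fin n) k ⧸ J) →
      (∀ F, f F = Ideal.Quotient.mk J
          (∏ v ∈ F.1.filter (fun v =>
              (affineSpan ℝ (p '' ((F.1.erase v : Finset (Fin n)) : Set (Fin n)))).SOppSide x (p v)),
            (MvPolynomial.X v : MvPolynomial (Fin n) k))) →
      LinearIndependent k f ∧ Submodule.span k (Set.range f) = ⊤) := by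
  intro h
  let f : {F : Finset (Fin 6) // F ∈ Δ ∧ F.card = 3} → MvPolynomial (Fin 6) ℚ ⧸ JJ := fun F =>
    Ideal.Quotient.mk JJ (∏ v ∈ F.1.filter (fun v =>
      (affineSpan ℝ (p '' ((F.1.erase v : Finset (Fin 6)) : Set (Fin 6)))).SOppSide x0 (p v)),
        (MvPolynomial.X v : MvPolynomial (Fin 6) ℚ))
  have key := (h ℚ 6 3 Δ p x0 th JJ f (by norm_num) (by decide +kernel) (by decide +kernel)
    (by decide +kernel) ⟨{3, 4, 5}, by decide +kernel, by decide⟩ indep inter union_convex x_mem
    generic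
    (fun i => by
      fin_cases i <;>
        exact ((isHomogeneous_X ℚ _).sub (isHomogeneous_X ℚ _)).sub (isHomogeneous_X ℚ _))
    rfl fin_quot (fun F => rfl)).1
  let F1 : {F : Finset (Fin 6) // F ∈ Δ ∧ F.card = 3} := ⟨{0, 3, 4}, by decide +kernel⟩
  let F2 : {F : Finset (Fin 6) // F ∈ Δ ∧ F.card = 3} := ⟨{1, 4, 5}, by decide +kernel⟩
  let F3 : {F : Finset (Fin 6) // F ∈ Δ ∧ F.card = 3} := ⟨{2, 3, 5}, by decide +kernel⟩
  have f1 : f F1 = y 0 * y 4 := by
    simp only [f]
    rw [filt F1.1 0 4 3 (by decide) _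
      (opp _ 0 3 4 (by decide) (by decide) (-1, 4, -3) (by decide) (by decide) (by decide)
        (7 / 10) (-1 / 10) (by norm_num) (by norm_num) (by simp [H9.Visib.X]; norm_num)
        (by simp [Y]; norm_num))
      (opp _ 4 0 3 (by decide) (by decide) (-1, 1, 0) (by decide) (by decide) (by decide)
        (1 / 4) (11 / 4) (by norm_num) (by norm_num) (by simp [H9.Visib.X]; norm_num)
        (by simp [Y]; norm_num))
      (not_opp _ 3 (-2, 5, 0) (by decide) (by decide) (by decide)),
      Finset.prod_pair (by decide), map_mul]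
    rfl
  have f2 : f F2 = y 1 * y 5 := by
    simp only [f]
    rw [filt F2.1 1 5 4 (by decide) _
      (opp _ 1 4 5 (by decide) (by decide) (-3, -4, 23) (by decide) (by decide) (by decide)
        (5 / 6) (-1 / 2) (by norm_num) (by norm_num) (by simp [H9.Visib.X]; norm_num)
        (by simp [Y]; norm_num))
      (opp _ 5 1 4 (by decide) (by decide) (-2, -3, 16) (by decide) (by decide) (by decide)
        (3 / 4) (9 / 4) (by norm_num) (by norm_num) (by simp [H9.Visib.X]; norm_num)
        (by simp [Y]; norm_num))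
      (not_opp _ 4 (-5, -7, 40) (by decide) (by decide) (by decide)),
      Finset.prod_pair (by decide), map_mul]
    rfl
  have f3 : f F3 = y 2 * y 3 := by
    simp only [f]
    rw [filt F3.1 2 3 5 (by decide) _
      (opp _ 2 3 5 (by decide) (by decide) (-1, 0, 1) (by decide) (by decide) (by decide)
        (1 / 2) (9 / 8) (by norm_num) (by norm_num) (by simp [H9.Visib.X]; norm_num)
        (by simp [Y]; norm_num))
      (opp _ 3 2 5 (by decide) (by decide) (3, 1, -8) (by decide) (by decide) (by decide)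
        (1 / 5) (9 / 5) (by norm_num) (by norm_num) (by simp [H9.Visib.X]; norm_num)
        (by simp [Y]; norm_num))
      (not_opp _ 5 (7, 1, -8) (by decide) (by decide) (by decide)),
      Finset.prod_pair (by decide), map_mul]
    rfl
  have h12 : F1 ≠ F2 := by decide
  have h13 : F1 ≠ F3 := by decide
  have h23 : F2 ≠ F3 := by decide
  have := linearIndependent_iff'.1 key {F1, F2, F3} (fun _ => 1) (by
    rw [Finset.sum_insert (by simp [h12, h13]), Finset.sum_pair h23, one_smul, one_smul, one_smul,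
      f1, f2, f3, l0, l1, l2]
    linear_combination r1 + r2 + r3) F1 (by simp)
  exact one_ne_zero this

end Pool.Agent.S06890
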