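import Pool.Statements.S06936

set_option autoImplicit false
open Pool Pool.MP_038631_co

namespace Pool.Agent.S06936

/-- Two disjoint copies of `K₁₃`. -/
def Gr : SimpleGraph (Bool × Fin 13) where
  Adj u v := u.1 = v.1 ∧ u.2 ≠ v.2
  symm := ⟨fun _ _ h => ⟨h.1.symm, h.2.symm⟩⟩
  loopless := ⟨fun _ h => h.2 rfl⟩

instance : DecidableRel Gr.Adj := fun u v => inferInstanceAs (Decidable (u.1 = v.1 ∧ u.2 ≠ v.2))

theorem deg : ∀ v, Gr.degree v = 12 := by decide +kernel

theorem side {u v : Bool × Fin 13} (w : Gr.Walk u v) : ∀ x ∈ w.support, x.1 = u.1 := by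
  induction w with
  | nil => intro x hx; simp at hx; rw [hx]
  | cons h _ ih =>
    intro x hx
    rw [SimpleGraph.Walk.support_cons, List.mem_cons] at hx
    rcases hx with rfl | hx
    · rfl
    · rw [ih x hx]; exact h.1.symm

theorem cardside : ∀ b : Bool, (Finset.univ.filter (fun x : Bool × Fin 13 => x.1 = b)).card = 13 := by
  decide +kernel

theorem two {u v : Bool × Fin 13} (c : Gr.Walk u u) (d : Gr.Walk v v) (huv : u.1 = v.1)
    (hc : c.IsCycle) (hd : d.IsCycle) (lc : 7 ≤ c.length) (ld : 7 ≤ d.length)
    (hdis : List.Disjoint c.support d.support) : False := by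
  have h1 : c.support.tail.toFinset.card = c.length := by
    rw [List.toFinset_card_of_nodup hc.support_nodup, List.length_tail,
      SimpleGraph.Walk.length_support]
    simp
  have h2 : d.support.tail.toFinset.card = d.length := by
    rw [List.toFinset_card_of_nodup hd.support_nodup, List.length_tail,
      SimpleGraph.Walk.length_support]
    simp
  have h3 : Disjoint c.support.tail.toFinset d.support.tail.toFinset := by
    rw [Finset.disjoint_left]
    intro x hx hy
    exact hdis (List.mem_of_mem_tail (List.mem_toFinset.1 hx))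
      (List.mem_of_mem_tail (List.mem_toFinset.1 hy))
  have h4 : c.support.tail.toFinset ∪ d.support.tail.toFinset ⊆
      Finset.univ.filter (fun x : Bool × Fin 13 => x.1 = u.1) := by
    intro x hx
    rw [Finset.mem_filter]
    refine ⟨Finset.mem_univ _, ?_⟩
    rcases Finset.mem_union.1 hx with h | h
    · exact side c x (List.mem_of_mem_tail (List.mem_toFinset.1 h))
    · rw [huv]; exact side d x (List.mem_of_mem_tail (List.mem_toFinset.1 h))
  have h5 := Finset.card_le_card h4
  rw [Finset.card_union_of_disjoint h3, h1, h2, cardside] at h5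
  omega

/-- The negation of the preceding statement: For all k ≥ 2 and odd r ≥ 3, every finite simple graph with at least rk vertices and minimum degree at least (r+1)k/2 contains k pairwise vertex-disjoint cycles, each of length at least r. -/
theorem result :
    ¬ (∀ k r : ℕ, 2 ≤ k → 3 ≤ r → Odd r →
      ∀ (V : Type) [Fintype V] (G : SimpleGraph V) [DecidableRel G.Adj],
        r * k ≤ Fintype.card V →
        (∀ v : V, (r + 1) * k ≤ 2 * G.degree v) →
        ∃ (u : Fin k → V) (c : ∀ i : Fin k, G.Walk (u i) (u i)),
          (∀ i : Fin k, (c i).IsCycle ∧ r ≤ (c i).length) ∧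
          ∀ i j : Fin k, i ≠ j → List.Disjoint (c i).support (c j).support) := by
  intro hall
  obtain ⟨u, c, hc, hd⟩ := hall 3 7 (by norm_num) (by norm_num) (by decide) (Bool × Fin 13) Gr
    (by simp) (fun v => by rw [deg])
  have key : ∀ i j : Fin 3, i ≠ j → (u i).1 ≠ (u j).1 := fun i j hij h =>
    two (c i) (c j) h (hc i).1 (hc j).1 (hc i).2 (hc j).2 (hd i j hij)
  have a := key 0 1 (by decide)
  have b := key 0 2 (by decide)
  have e := key 1 2 (by decide)
  revert a b e
  cases (u 0).1 <;> cases (u 1).1 <;> cases (u 2).1 <;> simp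

end Pool.Agent.S06936
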