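import Pool.Statements.S07017
import Pool.Agent.H27.LinFormsB

set_option autoImplicit false
open Pool Pool.MP_07add5_co

namespace Pool.Agent.S07017

/-- For every m ≥ 3 and all nonzero integer coefficient vectors u, v, each with gcd 1, where v is not ± a permutation of u, some finite integer set A makes the image of A^m under u·x strictly larger than under v·x. -/
theorem result :
    ∀ m : ℕ, 3 ≤ m → ∀ u v : Fin m → ℤ,
      (∀ i, u i ≠ 0) → (∀ i, v i ≠ 0) →
      Finset.univ.gcd u = 1 → Finset.univ.gcd v = 1 →
      (¬ ∃ σ : Equiv.Perm (Fin m),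
          (∀ i, v i = u (σ i)) ∨ (∀ i, v i = -u (σ i))) →
      ∃ A : Finset ℤ,
        ((Fintype.piFinset fun _ : Fin m => A).image
            (fun a : Fin m → ℤ => ∑ i, v i * a i)).card <
        ((Fintype.piFinset fun _ : Fin m => A).image
            (fun a : Fin m → ℤ => ∑ i, u i * a i)).card := by
  exact Pool.Agent.H27.LinForms.main

end Pool.Agent.S07017
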