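import Pool.Statements.S07056

set_option autoImplicit false
open Pool Pool.MP_0959cd_co

namespace Pool.Agent.S07056

/- Counterexample on 26 vertices, weights are multiples of 1/20. The part D on 0..12 is a rooted
tree of depth two (root 0, children 1 and 2, five leaves under each child) with arcs from each leaf
back to its two ancestors; the part on 13..25 is the converse of D; each leaf of the converse sends
one arc to the matching leaf of D. Every directed cycle has weight 19/20. -/

def wD (u v : ℕ) : ℕ :=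
  if u = 0 then (if v = 1 ∨ v = 2 then 10 else 0)
  else if u = 1 then (if 3 ≤ v ∧ v ≤ 7 then 4 else 0)
  else if u = 2 then (if 8 ≤ v ∧ v ≤ 12 then 4 else 0)
  else if v = 0 then 5
  else if (u ≤ 7 ∧ v = 1) ∨ (8 ≤ u ∧ v = 2) then 15 else 0

def wN (u v : ℕ) : ℕ :=
  if u < 13 then (if v < 13 then wD u v else 0)
  else if 13 ≤ v then wD (v - 13) (u - 13)
  else if u = v + 13 ∧ 3 ≤ v then 16 else 0

def w (u v : Fin 26) : ℕ := wN u.val v.val

def ok : ℕ → Fin 26 → Fin 26 → List (Fin 26) → ℕ → Bool
  | 0, _, _, _, _ => false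
  | f + 1, s, u, vis, acc => (List.finRange 26).all fun v =>
      w u v == 0 || (if v = s then decide (acc + w u v ≤ 19)
        else if v ∈ vis then true else ok f s v (v :: vis) (acc + w u v))

theorem ok_all : ∀ s : Fin 26, ok 27 s s [s] 0 = true := by decide +kernel

theorem ok_sound (g : ℕ → Fin 26) (n : ℕ) (hinj : ∀ i < n, ∀ j < n, g i = g j → i = j)
    (hn : g n = g 0) (hadj : ∀ i < n, w (g i) (g (i + 1)) ≠ 0) :
    ∀ (m j fuel : ℕ) (vis : List (Fin 26)) (acc : ℕ), j + m + 1 = n →
      (∀ x ∈ vis, ∃ i ≤ j, g i = x) → ok fuel (g 0) (g j) vis acc = true →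
      acc + ∑ i ∈ Finset.range (m + 1), w (g (j + i)) (g (j + i + 1)) ≤ 19 := by
  intro m
  induction m with
  | zero =>
    intro j fuel vis acc hj _ hok
    cases fuel with
    | zero => simp [ok] at hok
    | succ f =>
      simp only [ok, List.all_eq_true] at hok
      have h := hok (g (j + 1)) (List.mem_finRange _)
      have h0 := hadj j (by omega)
      have e : g (j + 1) = g 0 := by rw [← hn]; congr 1
      rw [if_pos e] at h
      simpa [h0] using h
  | succ m ih =>
    intro j fuel vis acc hj hvis hok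
    cases fuel with
    | zero => simp [ok] at hok
    | succ f =>
      simp only [ok, List.all_eq_true] at hok
      have h := hok (g (j + 1)) (List.mem_finRange _)
      have h0 := hadj j (by omega)
      have e : ¬ g (j + 1) = g 0 := fun e => by
        have := hinj (j + 1) (by omega) 0 (by omega) e
        omega
      have e2 : g (j + 1) ∉ vis := fun hm => by
        obtain ⟨i, hi, hgi⟩ := hvis _ hm
        have := hinj i (by omega) (j + 1) (by omega) hgi
        omega
      rw [if_neg e, if_neg e2] at h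
      have h' : ok f (g 0) (g (j + 1)) (g (j + 1) :: vis) (acc + w (g j) (g (j + 1))) = true := by
        simpa [h0] using h
      have := ih (j + 1) f _ _ (by omega) (by
        intro x hx
        rcases List.mem_cons.1 hx with rfl | hx
        · exact ⟨j + 1, le_rfl, rfl⟩
        · obtain ⟨i, hi, hgi⟩ := hvis x hx
          exact ⟨i, by omega, hgi⟩) h'
      rw [Finset.sum_range_succ']
      have e3 : ∑ i ∈ Finset.range (m + 1), w (g (j + (i + 1))) (g (j + (i + 1) + 1)) =
          ∑ i ∈ Finset.range (m + 1), w (g (j + 1 + i)) (g (j + 1 + i + 1)) :=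
        Finset.sum_congr rfl fun i _ => by rw [show j + (i + 1) = j + 1 + i by omega]
      have e4 : w (g (j + 0)) (g (j + 0 + 1)) = w (g j) (g (j + 1)) := rfl
      rw [e3, e4]
      omega

theorem cycle_le (k : ℕ) (c : Fin (k + 2) → Fin 26) (hc : Function.Injective c)
    (hadj : ∀ i, w (c i) (c (i + 1)) ≠ 0) : ∑ i, w (c i) (c (i + 1)) ≤ 19 := by
  let g : ℕ → Fin 26 := fun n => c (Fin.ofNat (k + 2) n)
  have hstep : ∀ n, Fin.ofNat (k + 2) (n + 1) = Fin.ofNat (k + 2) n + 1 := by
    intro n
    apply Fin.ext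
    simp [Fin.ofNat, Fin.add_def]
  have h := ok_sound g (k + 2) (by
      intro i hi j hj e
      have := congrArg Fin.val (hc e)
      simpa [Fin.ofNat, Nat.mod_eq_of_lt hi, Nat.mod_eq_of_lt hj] using this)
    (by
      simp only [g]
      congr 1
      apply Fin.ext
      simp [Fin.ofNat])
    (by
      intro i _
      simp only [g, hstep]
      exact hadj _)
    (k + 1) 0 27 [g 0] 0 (by omega) (by
      intro x hx
      exact ⟨0, le_rfl, (List.mem_singleton.1 hx).symm⟩) (ok_all _)
  rw [Finset.sum_range] at h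
  simp only [Nat.zero_add, g, hstep] at h
  have e : ∀ i : Fin (k + 1 + 1), Fin.ofNat (k + 2) (i : ℕ) = i := by
    intro i
    apply Fin.ext
    simp [Fin.ofNat, Nat.mod_eq_of_lt i.isLt]
  simp only [e] at h
  exact h

theorem w_loop : ∀ v, w v v = 0 := by decide +kernel

theorem w_le : ∀ u v, w u v ≤ 20 := by decide +kernel

theorem w_out : ∀ u, 20 ≤ ∑ v, w u v := by decide +kernel

theorem w_in : ∀ u, 20 ≤ ∑ v, w v u := by decide +kernel

/-- The negation of the preceding statement. -/
theorem result :
    ¬ (∀ (V : Type) [Fintype V] [Nonempty V] (G : Digraph V) (p : V → V → ℝ),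
      (∀ v, ¬ G.Adj v v) →
      (∀ u v, 0 ≤ p u v ∧ p u v ≤ 1) →
      (∀ u v, ¬ G.Adj u v → p u v = 0) →
      (∀ u, 1 ≤ ∑ v, p u v) →
      (∀ u, 1 ≤ ∑ v, p v u) →
      ∃ (k : ℕ) (c : Fin (k + 2) → V),
        Function.Injective c ∧
        (∀ i, G.Adj (c i) (c (i + 1))) ∧
        1 ≤ ∑ i, p (c i) (c (i + 1))) := by
  intro h
  obtain ⟨k, c, hc, hadj, hsum⟩ := h (Fin 26) ⟨fun u v => w u v ≠ 0⟩
    (fun u v => (w u v : ℝ) / 20)
    (fun v hv => hv (w_loop v))
    (fun u v => ⟨by positivity, by
      have : (w u v : ℝ) ≤ 20 := by exact_mod_cast w_le u v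
      linarith⟩)
    (fun u v huv => by
      have : w u v = 0 := by simpa using huv
      simp [this])
    (fun u => by
      rw [← Finset.sum_div]
      have : (20 : ℝ) ≤ ∑ v, (w u v : ℝ) := by exact_mod_cast w_out u
      linarith)
    (fun u => by
      rw [← Finset.sum_div]
      have : (20 : ℝ) ≤ ∑ v, (w v u : ℝ) := by exact_mod_cast w_in u
      linarith)
  rw [← Finset.sum_div] at hsum
  have : ∑ i, (w (c i) (c (i + 1)) : ℝ) ≤ 19 := by exact_mod_cast cycle_le k c hc hadj
  linarith

end Pool.Agent.S07056
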