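import Pool.Statements.S07065
import Pool.Agent.H1.H4

set_option autoImplicit false
open Classical
open Pool Pool.MP_098c03_co

namespace Pool.Agent.S07065

open Pool.Agent.H1.H4

abbrev E := EuclideanSpace ℝ (Fin 2)

noncomputable def pt (i : ℕ) : E := !₂[((X i).1 : ℝ) / (X i).2.2, ((X i).2.1 : ℝ) / (X i).2.2]

noncomputable def mkl (a b c : ℝ) : AffineSubspace ℝ E :=
  AffineSubspace.mk' !₂[-a * c / (a ^ 2 + b ^ 2), -b * c / (a ^ 2 + b ^ 2)] (ℝ ∙ (!₂[-b, a] : E))

theorem mem_mkl (a b c : ℝ) (h : a ≠ 0 ∨ b ≠ 0) (x : E) :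
    x ∈ mkl a b c ↔ a * x 0 + b * x 1 + c = 0 := by
  have hp : a ^ 2 + b ^ 2 ≠ 0 := by rcases h with h | h <;> positivity
  rw [mkl, AffineSubspace.mem_mk', Submodule.mem_span_singleton]
  constructor
  · rintro ⟨t, ht⟩
    have h0 := congrArg (fun z : E => z 0) ht
    have h1 := congrArg (fun z : E => z 1) ht
    simp at h0 h1
    field_simp at h0 h1
    apply mul_left_cancel₀ hp
    linear_combination -a * h0 - b * h1
  · intro e
    refine ⟨(a * x 1 - b * x 0) / (a ^ 2 + b ^ 2), ?_⟩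
    ext i; fin_cases i <;> simp <;> field_simp
    · linear_combination -a * e
    · linear_combination -b * e

theorem rank_mkl (a b c : ℝ) (h : a ≠ 0 ∨ b ≠ 0) : Module.finrank ℝ (mkl a b c).direction = 1 := by
  rw [mkl, AffineSubspace.direction_mk']
  apply finrank_span_singleton
  intro e
  have h0 := congrArg (fun z : E => z 0) e
  have h1 := congrArg (fun z : E => z 1) e
  simp at h0 h1
  tauto

noncomputable def ln (j : ℕ) : AffineSubspace ℝ E := mkl (Y j).1 (Y j).2.1 (Y j).2.2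

theorem yz' (j : ℕ) (h : j < 492) : ((Y j).1 : ℝ) ≠ 0 ∨ ((Y j).2.1 : ℝ) ≠ 0 := by
  exact_mod_cast yz j h

theorem mem (i j : ℕ) (hi : i < 246) (hj : 246 ≤ j) (hj' : j < 492) :
    pt i ∈ ln j ↔ A i j = true := by
  rw [ln, mem_mkl _ _ _ (yz' j hj'), ← inc i j hi hj hj', dz]
  have : ((X i).2.2 : ℝ) ≠ 0 := by exact_mod_cast xz i hi
  simp only [pt]
  simp
  field_simp
  constructor
  · intro h
    have h2 : (((X i).1 * (Y j).1 + (X i).2.1 * (Y j).2.1 + (X i).2.2 * (Y j).2.2 : ℤ) : ℝ) = 0 := by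
      push_cast; linear_combination h
    exact_mod_cast h2
  · intro h
    have h2 : (((X i).1 * (Y j).1 + (X i).2.1 * (Y j).2.1 + (X i).2.2 * (Y j).2.2 : ℤ) : ℝ) = 0 := by
      exact_mod_cast h
    push_cast at h2; linear_combination h2

theorem ptI (i k : ℕ) (hi : i < 246) (hk : k < 246) (e : pt i = pt k) : i = k := by
  refine inj i k (by omega) (by omega) fun j h => ?_
  obtain ⟨a, -, b⟩ := Ap i j (by omega) h
  rw [← mem _ _ hk (b.1 hi) a, ← e, mem _ _ hi (b.1 hi) a]; exact h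

theorem lnI (i k : ℕ) (hi : 246 ≤ i) (hi' : i < 492) (hk : 246 ≤ k) (hk' : k < 492)
    (e : ln i = ln k) : i = k := by
  refine inj i k hi' hk' fun j h => ?_
  obtain ⟨a, b, c⟩ := Ap i j hi' h
  have hj : j < 246 := by omega
  rw [← mem _ _ hj hi hi', e, mem _ _ hj hk hk'] at b
  exact (Ap _ _ a b).2.1

noncomputable def PP : Finset E := (Finset.range 246).image pt
noncomputable def LL : Finset (AffineSubspace ℝ E) := (Finset.Ico 246 492).image ln

abbrev W := {p // p ∈ PP} ⊕ {l // l ∈ LL}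

noncomputable def e (n : ℕ) : W :=
  if h : n < 246 then Sum.inl ⟨pt n, Finset.mem_image_of_mem _ (Finset.mem_range.2 h)⟩
  else if h' : n < 492 then Sum.inr ⟨ln n, Finset.mem_image_of_mem _ (Finset.mem_Ico.2 ⟨by omega, h'⟩)⟩
  else Sum.inl ⟨pt 0, Finset.mem_image_of_mem _ (Finset.mem_range.2 (by norm_num))⟩

theorem eS (z : W) : ∃ n < 492, e n = z := by
  rcases z with ⟨p, hp⟩ | ⟨l, hl⟩
  · obtain ⟨n, hn, rfl⟩ := Finset.mem_image.1 hp
    rw [Finset.mem_range] at hn
    exact ⟨n, by omega, by simp [e, hn]⟩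
  · obtain ⟨n, hn, rfl⟩ := Finset.mem_image.1 hl
    rw [Finset.mem_Ico] at hn
    exact ⟨n, hn.2, by simp [e, hn.2, show ¬ n < 246 by omega]⟩

theorem eI (a b : ℕ) (ha : a < 492) (hb : b < 492) (h : e a = e b) : a = b := by
  by_cases h1 : a < 246 <;> by_cases h2 : b < 246 <;> simp [e, h1, h2, ha, hb] at h
  · exact ptI a b h1 h2 h
  · exact lnI a b (by omega) ha (by omega) hb h

noncomputable def G : SimpleGraph W := SimpleGraph.fromRel
  (fun a b : W => ∃ p l, a = Sum.inl p ∧ b = Sum.inr l ∧ (p : E) ∈ (l : AffineSubspace ℝ E))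

theorem adj (a b : ℕ) (ha : a < 492) (hb : b < 492) : G.Adj (e a) (e b) ↔ A a b = true := by
  have s : A a b = true ↔ A b a = true := ⟨fun h => (Ap _ _ ha h).2.1, fun h => (Ap _ _ hb h).2.1⟩
  have n : A a b = true → (a < 246 ↔ 246 ≤ b) := fun h => (Ap _ _ ha h).2.2
  by_cases h1 : a < 246 <;> by_cases h2 : b < 246 <;>
    simp only [G, SimpleGraph.fromRel_adj, e, h1, h2, ha, hb, dite_true, dite_false]
  · simp; by_contra h; simp at h; have := n h; omega
  · simp; exact mem a b h1 (by omega) hb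
  · simp; rw [s]; exact mem b a h2 (by omega) ha
  · simp; by_contra h; simp at h; have := n h; omega

theorem walk (f : W → Bool) : ∀ {u v : W} (q : G.Walk u v),
    (∀ x y, q.toSubgraph.Adj x y → f x = f y) → ∀ z ∈ q.support, f z = f u := by
  intro u v q
  induction q with
  | nil => intro _ z hz; simp at hz; rw [hz]
  | cons h q ih =>
    intro hf z hz
    simp only [SimpleGraph.Walk.toSubgraph, SimpleGraph.Subgraph.sup_adj] at hf
    rw [SimpleGraph.Walk.support_cons, List.mem_cons] at hz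
    rcases hz with rfl | hz
    · rfl
    · rw [ih (fun x y h => hf x y (Or.inr h)) z hz]
      exact (hf _ _ (Or.inl (by simp))).symm

theorem notHam (hc : Fintype.card W ≠ 1) : ¬ G.IsHamiltonian := by
  intro h
  obtain ⟨a, p, hp⟩ := h hc
  choose c hc1 hc2 using eS
  refine nonham (fun x y => x < 492 ∧ y < 492 ∧ p.toSubgraph.Adj (e x) (e y))
    (fun x y h => ⟨h.2.1, h.1, h.2.2.symm⟩)
    (fun x y h => ⟨h.1, h.2.1, (adj x y h.1 h.2.1).1 h.2.2.adj_sub⟩) (fun x hx => ?_)
    (fun f hf x hx y hy => ?_)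
  · rw [← hp.isCycle.ncard_neighborSet_toSubgraph_eq_two (hp.mem_support (e x))]
    apply Set.ncard_congr (fun y _ => e y)
    · intro y h; exact h.2.2
    · intro y z h1 h2 h; exact eI y z h1.2.1 h2.2.1 h
    · intro z hz
      exact ⟨c z, ⟨hx, hc1 z, by rw [hc2]; exact hz⟩, hc2 z⟩
  · have := walk (fun z => f (c z)) p (fun u v h => hf _ _ ⟨hc1 u, hc1 v, by rw [hc2, hc2]; exact h⟩)
    have a1 := this (e x) (hp.mem_support _)
    have a2 := this (e y) (hp.mem_support _)
    simp only [eI _ _ (hc1 _) hx (hc2 _), eI _ _ (hc1 _) hy (hc2 _)] at a1 a2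
    rw [a1, a2]

theorem con3 (S : Finset W) (hS : S.card < 3) : (G.induce ((↑S : Set W)ᶜ)).Connected := by
  obtain ⟨r, hr, hrB, h⟩ := conn {n | e n ∈ S} (by
    intro a ha b hb c hc h1 h2 h3
    by_contra hn
    push Not at hn
    have : 2 < S.card := Finset.two_lt_card_iff.2 ⟨e a, e b, e c, h1, h2, h3, fun h => hn.1 (eI _ _ ha hb h),
      fun h => hn.2.1 (eI _ _ ha hc h), fun h => hn.2.2 (eI _ _ hb hc h)⟩
    omega)
  have key : ∀ v, Relation.ReflTransGen (St {n | e n ∈ S}) v r → ∀ hv : e v ∈ (↑S : Set W)ᶜ,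
      (G.induce ((↑S : Set W)ᶜ)).Reachable ⟨e v, hv⟩ ⟨e r, hrB⟩ := by
    intro v hv
    induction hv using Relation.ReflTransGen.head_induction_on with
    | refl => intro _; rfl
    | head h _ ih =>
      intro hv
      obtain ⟨a, b, c, d, f⟩ := h
      exact (SimpleGraph.Adj.reachable (v := ⟨_, d⟩) ((adj _ _ a b).2 f)).trans (ih d)
  have : Nonempty ((↑S : Set W)ᶜ : Set W) := ⟨⟨e r, hrB⟩⟩
  refine SimpleGraph.Connected.mk fun u v => ?_
  obtain ⟨u, hu⟩ := u
  obtain ⟨v, hv⟩ := v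
  obtain ⟨a, ha, rfl⟩ := eS u
  obtain ⟨b, hb, rfl⟩ := eS v
  exact (key a (h a ha hu) hu).trans (key b (h b hb hv) hv).symm

theorem big : 3 < Fintype.card W := by
  have := Fintype.card_le_of_injective (fun i : Fin 4 => e i) (fun i j h =>
    Fin.ext (eI _ _ (by omega) (by omega) h))
  simp only [Fintype.card_fin] at this
  omega

/-- There is a nonempty finite set of plane points and lines, each point on exactly 4 of the lines and each line through exactly 4 of the points, whose point-line incidence graph is 3-connected but has no Hamiltonian cycle. -/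
theorem result :
    ∃ (P : Finset (EuclideanSpace ℝ (Fin 2)))
      (L : Finset (AffineSubspace ℝ (EuclideanSpace ℝ (Fin 2)))),
      P.Nonempty ∧
      (∀ l ∈ L, Module.finrank ℝ l.direction = 1) ∧
      (∀ p ∈ P, (L.filter (fun l => p ∈ l)).card = 4) ∧
      (∀ l ∈ L, (P.filter (fun p => p ∈ l)).card = 4) ∧
      ∃ G : SimpleGraph ({p // p ∈ P} ⊕ {l // l ∈ L}),
        G = SimpleGraph.fromRel
          (fun a b : {p // p ∈ P} ⊕ {l // l ∈ L} =>
            ∃ p l, a = Sum.inl p ∧ b = Sum.inr l ∧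
              (p : EuclideanSpace ℝ (Fin 2)) ∈
                (l : AffineSubspace ℝ (EuclideanSpace ℝ (Fin 2)))) ∧
        3 < Fintype.card ({p // p ∈ P} ⊕ {l // l ∈ L}) ∧
        (∀ S : Finset ({p // p ∈ P} ⊕ {l // l ∈ L}), S.card < 3 →
          (G.induce ((↑S : Set ({p // p ∈ P} ⊕ {l // l ∈ L}))ᶜ)).Connected) ∧
        ¬ G.IsHamiltonian := by
  refine ⟨PP, LL, ⟨pt 0, Finset.mem_image_of_mem _ (by simp)⟩, fun l hl => ?_, fun p hp => ?_,
    fun l hl => ?_, G, rfl, by convert big, fun S hS => con3 S hS, ?_⟩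
  · obtain ⟨n, hn, rfl⟩ := Finset.mem_image.1 hl
    exact rank_mkl _ _ _ (yz' n (Finset.mem_Ico.1 hn).2)
  · obtain ⟨i, hi, rfl⟩ := Finset.mem_image.1 hp
    rw [Finset.mem_range] at hi
    rw [LL, Finset.filter_image, Finset.card_image_of_injOn]
    · refine deg i (by omega) _ fun y => ?_
      simp only [Finset.mem_filter, Finset.mem_Ico]
      constructor
      · rintro ⟨⟨a, b⟩, h⟩; exact (mem i y hi a b).1 h
      · intro h
        obtain ⟨a, -, b⟩ := Ap i y (by omega) h
        exact ⟨⟨b.1 hi, a⟩, (mem i y hi (b.1 hi) a).2 h⟩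
    · intro a ha b hb h
      simp only [Finset.coe_filter, Finset.mem_Ico, Set.mem_setOf_eq] at ha hb
      exact lnI a b ha.1.1 ha.1.2 hb.1.1 hb.1.2 h
  · obtain ⟨j, hj, rfl⟩ := Finset.mem_image.1 hl
    rw [Finset.mem_Ico] at hj
    rw [PP, Finset.filter_image, Finset.card_image_of_injOn]
    · refine deg j hj.2 _ fun y => ?_
      simp only [Finset.mem_filter, Finset.mem_range]
      constructor
      · rintro ⟨a, h⟩; exact (Ap y j (by omega) ((mem y j a hj.1 hj.2).1 h)).2.1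
      · intro h
        obtain ⟨a, c, b⟩ := Ap j y hj.2 h
        exact ⟨by omega, (mem y j (by omega) hj.1 hj.2).2 c⟩
    · intro a ha b hb h
      simp only [Finset.coe_filter, Finset.mem_range, Set.mem_setOf_eq] at ha hb
      exact ptI a b ha.1 hb.1 h
  · convert notHam (by have := big; omega)

end Pool.Agent.S07065
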