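import Pool.Statements.S07094
import Pool.Agent.H24.HamSpan

set_option autoImplicit false
open Pool Pool.MP_0a7691_co

namespace Pool.Agent.S07094

open Pool.Agent.H24

/-- The negation of the preceding statement: There exist k and f such that every k-connected Hamiltonian graph on an odd number n of vertices with n at least f(independence number) has its Hamilton cycles spanning its whole cycle space over GF(2). -/
theorem result :
    ¬ (∃ k : ℕ, ∃ f : ℕ → ℕ,
      ∀ (V : Type) [Fintype V] [DecidableEq V] (G : SimpleGraph V),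
        Odd (Fintype.card V) →
        (k < Fintype.card V ∧
          ∀ S : Finset V, S.card < k → (G.induce ((↑S : Set V)ᶜ)).Connected) →
        G.IsHamiltonian →
        f G.indepNum ≤ Fintype.card V →
        Submodule.span (ZMod 2)
            {x : Sym2 V → ZMod 2 | ∃ (u : V) (p : G.Walk u u),
              p.IsHamiltonianCycle ∧
                x = Set.indicator {e : Sym2 V | e ∈ p.edges} (fun _ => (1 : ZMod 2))} =
          Submodule.span (ZMod 2)
            {x : Sym2 V → ZMod 2 | ∃ (u : V) (p : G.Walk u u),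
              p.IsCycle ∧
                x = Set.indicator {e : Sym2 V | e ∈ p.edges} (fun _ => (1 : ZMod 2))}) := by
  rintro ⟨k, f, h⟩
  obtain ⟨K, hK⟩ : ∃ K, K = k + 2 := ⟨_, rfl⟩
  obtain ⟨M, hM⟩ : ∃ M, M = ∑ a ∈ Finset.range (2 * K + 2), f a := ⟨_, rfl⟩
  obtain ⟨m, hm⟩ : ∃ m, m = 2 * (M + K) := ⟨_, rfl⟩
  have key := h (Fin (m + 3)) (spanG K (m + 3))
    (by rw [Fintype.card_fin]; exact ⟨M + K + 1, by omega⟩)
    ⟨by rw [Fintype.card_fin]; omega, spanG_conn K (m + 3) k (by omega) (by omega)⟩
    (spanG_ham K m (by omega))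
    (by
      rw [Fintype.card_fin]
      have := spanG_indep K (m + 3)
      have h2 := Finset.single_le_sum (f := f) (s := Finset.range (2 * K + 2))
        (fun a _ => Nat.zero_le _) (a := (spanG K (m + 3)).indepNum)
        (Finset.mem_range.mpr (by omega))
      omega)
  let v0 : Fin (m + 3) := ⟨0, by omega⟩
  let v1 : Fin (m + 3) := ⟨1, by omega⟩
  let v2 : Fin (m + 3) := ⟨2, by omega⟩
  have n01 : v0 ≠ v1 := by simp [v0, v1]
  have n02 : v0 ≠ v2 := by simp [v0, v2, Fin.ext_iff]
  have n21 : v2 ≠ v1 := by simp [v1, v2, Fin.ext_iff]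
  have a02 : (spanG K (m + 3)).Adj v0 v2 := ⟨n02, Or.inl ⟨rfl, by simp only [v0]; omega⟩⟩
  have a21 : (spanG K (m + 3)).Adj v2 v1 := ⟨n21, Or.inl ⟨by simp only [v2], by simp only [v2]; omega⟩⟩
  have a10 : (spanG K (m + 3)).Adj v1 v0 :=
    ⟨n01.symm, Or.inr (Or.inl ⟨rfl, by simp only [v0]; omega⟩)⟩
  let c : (spanG K (m + 3)).Walk v0 v0 := .cons a02 (.cons a21 (.cons a10 .nil))
  have hc : c.IsCycle := by
    simp [c, SimpleGraph.Walk.isCycle_def, SimpleGraph.Walk.isTrail_def, n01, n02, n21,
      n01.symm, n02.symm, n21.symm]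
  have mem := key.ge (Submodule.subset_span ⟨v0, c, hc, rfl⟩)
  have le : Submodule.span (ZMod 2)
      {x : Sym2 (Fin (m + 3)) → ZMod 2 | ∃ (u : Fin (m + 3)) (p : (spanG K (m + 3)).Walk u u),
        p.IsHamiltonianCycle ∧
          x = Set.indicator {e : Sym2 (Fin (m + 3)) | e ∈ p.edges} (fun _ => (1 : ZMod 2))} ≤
      LinearMap.ker (LinearMap.proj (R := ZMod 2) (φ := fun _ => ZMod 2) s(v0, v2)) := by
    rw [Submodule.span_le]
    rintro x ⟨u, p, hp, rfl⟩
    have := ham_no_inner_edge (spanG K (m + 3))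
      (Finset.univ.filter (fun i => i.val % 2 = 0 ∧ i.val < 2 * K))
      (Finset.univ.filter (fun i => i.val % 2 = 1 ∧ i.val < 2 * (K - 1)))
      (by intro v hv; simp only [Finset.mem_filter, Finset.mem_univ, true_and] at hv ⊢; omega)
      (by rw [card_evens K _ 0 (by omega) (by omega),
        card_evens (K - 1) _ 1 (by omega) (by omega)]; omega)
      (by
        intro t ht v hv
        simp only [Finset.mem_filter, Finset.mem_univ, true_and] at ht ⊢
        have := hv.2
        omega)
      ⟨2 * K, by omega⟩ (by simp) (by simp) p hp v0 v2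
      (by simp only [Finset.mem_filter, Finset.mem_univ, true_and, v0]; omega)
      (by simp only [Finset.mem_filter, Finset.mem_univ, true_and, v2]; omega)
    simp [this]
  have := le mem
  simp [c] at this

end Pool.Agent.S07094
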