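import Pool.Statements.S07114
-- import your own Pool.Agent.* helpers here

set_option autoImplicit false
open Filter Topology
open Pool Pool.MP_0b90e2_co

namespace Pool.Agent.S07114


noncomputable def G (m : ℕ) (g : Fin m × Fin m → Fin 50) (a b : Fin (2*m)) : Fin 50 :=
  if h : a.1 < m ∧ m ≤ b.1 then g (⟨a.1, h.1⟩, ⟨b.1 - m, by have := b.2; omega⟩) else 0

noncomputable def col (m : ℕ) (g : Fin m × Fin m → Fin 50)
    (e : {e : Sym2 (Fin (2*m)) // ¬ e.IsDiag}) : Fin 50 :=
  G m g e.1.inf e.1.sup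

lemma col_inj (m : ℕ) : Function.Injective (col m) := by
  intro g g' h
  funext ⟨a, b⟩
  have ha := a.2
  have hb := b.2
  let u : Fin (2*m) := ⟨a.1, by omega⟩
  let v : Fin (2*m) := ⟨b.1 + m, by omega⟩
  have huv : u < v := by
    show a.1 < b.1 + m
    omega
  have hne : ¬ (s(u, v) : Sym2 (Fin (2*m))).IsDiag := by
    rw [Sym2.mk_isDiag_iff]; exact huv.ne
  have := congrFun h ⟨s(u, v), hne⟩
  simp only [col, Sym2.inf_mk, Sym2.sup_mk, inf_of_le_left huv.le, sup_of_le_right huv.le, G] at this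
  have hc : u.1 < m ∧ m ≤ v.1 := ⟨ha, by show m ≤ b.1 + m; omega⟩
  rw [dif_pos hc, dif_pos hc] at this
  simpa [u, v] using this

lemma col_ok (m : ℕ) (g : Fin m × Fin m → Fin 50) (S : Finset (Fin (2*m))) (hS : S.card = 4) :
    ((Finset.univ.filter
      (fun e : {e : Sym2 (Fin (2*m)) // ¬ e.IsDiag} => e.1 ∈ S.sym2)).image (col m g)).card < 6 := by
  classical
  set A := S.filter (fun a => a.1 < m) with hA
  set B := S.filter (fun a => ¬ a.1 < m) with hB
  have hAB : A.card + B.card = 4 := by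
    rw [← hS]; exact Finset.card_filter_add_card_filter_not _
  have hsub : ((Finset.univ.filter
      (fun e : {e : Sym2 (Fin (2*m)) // ¬ e.IsDiag} => e.1 ∈ S.sym2)).image (col m g)) ⊆
      insert 0 ((A ×ˢ B).image (fun p => G m g p.1 p.2)) := by
    intro x hx
    simp only [Finset.mem_image, Finset.mem_filter, Finset.mem_univ, true_and] at hx
    obtain ⟨⟨e, he⟩, heS, rfl⟩ := hx
    have hi : e.inf ∈ S ∧ e.sup ∈ S := by
      induction e using Sym2.ind with
      | _ u v =>
        simp only [Finset.mk_mem_sym2_iff] at heS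
        simp only [Sym2.inf_mk, Sym2.sup_mk]
        rcases le_total u v with h | h
        · simp [inf_of_le_left h, sup_of_le_right h, heS.1, heS.2]
        · simp [inf_of_le_right h, sup_of_le_left h, heS.1, heS.2]
    by_cases hc : e.inf.1 < m ∧ m ≤ e.sup.1
    · apply Finset.mem_insert_of_mem
      refine Finset.mem_image.2 ⟨(e.inf, e.sup), ?_, rfl⟩
      simp only [Finset.mem_product, hA, hB, Finset.mem_filter]
      exact ⟨⟨hi.1, hc.1⟩, hi.2, by omega⟩
    · have : col m g ⟨e, he⟩ = 0 := by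
        simp only [col, G]; rw [dif_neg hc]
      rw [this]; exact Finset.mem_insert_self _ _
  have h1 := Finset.card_le_card hsub
  have h2 := Finset.card_insert_le (0 : Fin 50) ((A ×ˢ B).image (fun p => G m g p.1 p.2))
  have h3 : ((A ×ˢ B).image (fun p => G m g p.1 p.2)).card ≤ A.card * B.card := by
    rw [← Finset.card_product]; exact Finset.card_image_le
  have h4 : A.card * B.card ≤ 4 := by
    have hA4 : A.card ≤ 4 := by omega
    have hBe : B.card = 4 - A.card := by omega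
    rw [hBe]
    interval_cases A.card <;> simp
  omega

lemma count_ge (m : ℕ) : 50 ^ (m * m) ≤
    Nat.card {c : {e : Sym2 (Fin (2*m)) // ¬ e.IsDiag} → Fin 50 //
              ∀ S : Finset (Fin (2*m)), S.card = 4 →
                ((Finset.univ.filter
                    (fun e : {e : Sym2 (Fin (2*m)) // ¬ e.IsDiag} => e.1 ∈ S.sym2)).image c).card < 6} := by
  have : Nat.card (Fin m × Fin m → Fin 50) = 50 ^ (m * m) := by simp
  rw [← this]
  apply Nat.card_le_card_of_injective (fun g => ⟨col m g, col_ok m g⟩)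
  intro g g' h
  exact col_inj m (congrArg Subtype.val h)

/-- The negation of the preceding statement: For all k≥3, 3≤s≤C(k,2), r≥s: the number of r-colorings of the edges of K_n in which every k-vertex set spans fewer than s colors, divided by C(r,s-1)·(s-1)^{C(n,2)}, tends to 1 as n→∞. -/
theorem result :
    ¬ (∀ k s r : ℕ, 3 ≤ k → 3 ≤ s → s ≤ k.choose 2 → s ≤ r →
      Tendsto
        (fun n : ℕ =>
          (Nat.card {c : {e : Sym2 (Fin n) // ¬ e.IsDiag} → Fin r //
              ∀ S : Finset (Fin n), S.card = k →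
                ((Finset.univ.filter
                    (fun e : {e : Sym2 (Fin n) // ¬ e.IsDiag} => e.1 ∈ S.sym2)).image c).card < s} : ℝ)
            / ((r.choose (s - 1) : ℝ) * ((s : ℝ) - 1) ^ (n.choose 2)))
        atTop (𝓝 1)) := by
  intro h
  have h1 := h 4 6 50 (by norm_num) (by norm_num) (by decide) (by norm_num)
  have h2 := h1.eventually (gt_mem_nhds (show (1:ℝ) < 2 by norm_num))
  rw [eventually_atTop] at h2
  obtain ⟨N, hN⟩ := h2
  obtain ⟨m, hmN, hm⟩ : ∃ m : ℕ, N ≤ 2 * m ∧ 30 ≤ m := ⟨N + 30, by omega, by omega⟩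
  have h3 := hN (2 * m) hmN
  have h4 := count_ge m
  have hc : (2 * m).choose 2 ≤ 2 * (m * m) := by
    rw [Nat.choose_two_right]
    apply Nat.div_le_of_le_mul
    have : 2 * m - 1 ≤ 2 * m := Nat.sub_le _ _
    nlinarith
  have hch : Nat.choose 50 (6 - 1) = 2118760 := by decide +kernel
  rw [hch, div_lt_iff₀ (by positivity)] at h3
  have h5' := (Nat.cast_le (α := ℝ)).2 h4
  generalize (Nat.card _ : ℕ) = X at h3 h5'
  have h5 : ((50:ℝ)) ^ (m * m) ≤ (X:ℝ) := by exact_mod_cast h5'
  have h6 : (((6:ℕ):ℝ) - 1) ^ ((2 * m).choose 2) ≤ (25:ℝ) ^ (m * m) := by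
    calc (((6:ℕ):ℝ) - 1) ^ ((2 * m).choose 2) = (5:ℝ) ^ ((2 * m).choose 2) := by norm_num
      _ ≤ (5:ℝ) ^ (2 * (m * m)) := pow_le_pow_right₀ (by norm_num) hc
      _ = (25:ℝ) ^ (m * m) := by rw [pow_mul]; norm_num
  have h7 : (2:ℝ) ^ 30 ≤ (2:ℝ) ^ (m * m) := pow_le_pow_right₀ (by norm_num) (by nlinarith)
  have h8 : (50:ℝ) ^ (m * m) = (2:ℝ) ^ (m * m) * (25:ℝ) ^ (m * m) := by
    rw [← mul_pow]; norm_num
  have h9 : (0:ℝ) < (25:ℝ) ^ (m * m) := by positivity
  have h10 := lt_of_le_of_lt h5 h3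
  rw [h8] at h10
  have h11 : (2:ℝ) ^ 30 * (25:ℝ) ^ (m * m) ≤ (2:ℝ) ^ (m * m) * (25:ℝ) ^ (m * m) :=
    mul_le_mul_of_nonneg_right h7 h9.le
  push_cast at h10 h6
  norm_num at h11 h10 h6
  nlinarith

end Pool.Agent.S07114
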