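import Pool.Statements.S07199
import Pool.Agent.H23.Cliff

set_option autoImplicit false
open Pool Pool.MP_0f290c_co

namespace Pool.Agent.S07199

open Pool.Agent.H23.Cliff Cardinal

lemma main {J : Type} [LinearOrder J] (c : Cardinal) (hc : ℵ₀ ≤ c) (hJ : c < #J)
    {V : Type} (X : SimpleGraph V) (ρ : GG J ≃* SimpleGraph.Iso X X) (R : Set V) (hR : #R ≤ c)
    (hE : ∀ x y, X.Adj x y → ∃ a ∈ R, ∃ b ∈ R, ∃ g, x = ρ g a ∧ y = ρ g b) : False := by
  classical
  have hmul : ∀ (g h : GG J) (v : V), ρ (g * h) v = ρ g (ρ h v) := fun g h v => by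
    rw [map_mul]; rfl
  have hone : ∀ v : V, ρ 1 v = v := fun v => by rw [map_one]; rfl
  have hz : ∀ (g : GG J) (v : V), ρ zz (ρ g v) = ρ g (ρ zz v) := fun g v => by
    rw [← hmul, ← hmul, zz_comm]
  have hzz : ∀ v : V, ρ zz (ρ zz v) = v := fun v => by rw [← hmul, zz_sq, hone]
  obtain ⟨v0, hv0⟩ : ∃ v0, ρ zz v0 ≠ v0 := by
    by_contra hn
    apply zz_ne (J := J)
    apply ρ.injective
    rw [map_one]
    ext v
    by_contra hv
    exact hn ⟨v, hv⟩
  let R' : Set V := insert v0 R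
  have hR' : #R' ≤ c := mk_insert_le.trans (add_le_of_le hc hR (one_le_aleph0.trans hc))
  let T : R' ⊕ (R' × R') → Set (VV J) := fun i => match i with
    | Sum.inl r => {w | ρ zz r ≠ r ∧ ∃ g : GG J, g.v = w ∧ ρ g r = r}
    | Sum.inr p => {w | ∃ h : ∃ g : GG J, ρ g p.1 = p.2, w = h.choose.v}
  obtain ⟨U, hU, g1, g2, h1, h2, h3⟩ := three c hc (by
      simp only [mk_sum, mk_prod, lift_id]
      refine add_le_of_le hc hR' ?_
      calc #R' * #R' ≤ c * c := by gcongr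
        _ = c := mul_eq_self hc) hJ T (by
      rintro (r | p) x hx y hy
      · obtain ⟨hr, g, rfl, hg⟩ := hx
        obtain ⟨-, g', rfl, hg'⟩ := hy
        rcases comm_cases g g' with h | h
        · exact h.1
        · exfalso
          have := congrArg (fun k => ρ k r) h.2
          simp only [hmul, hg, hg', ← hz] at this
          exact hr this.symm
      · obtain ⟨h, rfl⟩ := hx
        obtain ⟨h', rfl⟩ := hy
        exact BB_self _)
  have key : ∀ r ∈ R', ∀ a ∈ R', ρ zz r ≠ r → ∀ g : GG J, ρ g r = a → g.v ∈ U := by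
    intro r hr a ha hzr g hg
    have hex : ∃ g : GG J, ρ g r = a := ⟨g, hg⟩
    have e1 : hex.choose.v ∈ U := hU (Sum.inr (⟨r, hr⟩, ⟨a, ha⟩)) ⟨hex, rfl⟩
    have e2 : (hex.choose⁻¹ * g).v ∈ U := hU (Sum.inl ⟨r, hr⟩) ⟨hzr, _, rfl, by
      change ρ _ r = r
      apply (ρ hex.choose).injective
      change ρ hex.choose _ = ρ hex.choose r
      rw [← hmul, mul_inv_cancel_left, hg, hex.choose_spec]⟩
    have := U.add_mem e1 e2
    simpa using this
  let C : Set V := {x | ∃ r ∈ R', ρ zz r ≠ r ∧ ∃ k : GG J, k.v ∈ U ∧ x = ρ k r}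
  have key2 : ∀ a ∈ R', ∀ g : GG J, ρ g a ∈ C → g.v ∈ U := by
    rintro a ha g ⟨r, hr, hzr, k, hk, e⟩
    have := key r hr a ha hzr (g⁻¹ * k) (by rw [hmul, ← e, ← hmul, inv_mul_cancel, hone])
    have := U.sub_mem hk this
    simpa using this
  have hCz : ∀ x ∈ C, ρ zz x ∈ C := by
    rintro x ⟨r, hr, hzr, k, hk, rfl⟩
    exact ⟨r, hr, hzr, zz * k, by simpa [zz] using hk, (hmul _ _ _).symm⟩
  let f : V → V := fun x => if x ∈ C then ρ zz x else x
  have hf : Function.Involutive f := by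
    intro x
    by_cases hx : x ∈ C
    · simp only [f, if_pos hx, if_pos (hCz x hx), hzz]
    · simp only [f, if_neg hx]
  have hmix : ∀ x y, X.Adj x y → x ∈ C → y ∉ C → ρ zz y = y := by
    intro x y hxy hx hy
    obtain ⟨a, ha, b, hb, g, rfl, rfl⟩ := hE x y hxy
    by_contra hne
    refine hy ⟨b, Or.inr hb, fun e => hne (by rw [hz, e]), g, key2 a (Or.inr ha) g hx, rfl⟩
  have hadj : ∀ x y, X.Adj x y → X.Adj (f x) (f y) := by
    intro x y hxy
    have hzadj : X.Adj (ρ zz x) (ρ zz y) := (ρ zz).map_adj_iff.2 hxy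
    by_cases hx : x ∈ C <;> by_cases hy : y ∈ C <;> simp only [f, hx, hy, if_true, if_false]
    · exact hzadj
    · rwa [hmix x y hxy hx hy] at hzadj
    · rwa [hmix y x hxy.symm hy hx] at hzadj
    · exact hxy
  let φ : SimpleGraph.Iso X X := ⟨hf.toPerm f, fun {x y} => ⟨fun h => by
    have := hadj _ _ h
    simp only [Function.Involutive.coe_toPerm] at this
    rwa [hf x, hf y] at this, hadj x y⟩⟩
  obtain ⟨t, ht⟩ := ρ.surjective φ
  have ht' : ∀ x, ρ t x = f x := fun x => by rw [ht]; rfl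
  have hv0C : v0 ∈ C := ⟨v0, Or.inl rfl, hv0, 1, by simp, (hone _).symm⟩
  have htv : ρ t v0 = ρ zz v0 := by rw [ht']; simp only [f, if_pos hv0C]
  have fin : ∀ w, w ∉ U → BB t.v w = 1 := by
    intro w hw
    let g : GG J := ⟨w, 0⟩
    have hg : ρ g v0 ∉ C := fun h => hw (key2 v0 (Or.inl rfl) g h)
    have e : ρ t (ρ g v0) = ρ g v0 := by rw [ht']; simp only [f, if_neg hg]
    rcases comm_cases t g with h | h
    · exfalso
      rw [← hmul, h.2, hmul, htv] at e
      exact hv0 ((ρ g).injective e)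
    · exact h.1
  have := fin _ h3
  rw [BB_add_right, fin _ h1, fin _ h2] at this
  revert this; decide

/-- For every cardinal κ there is a group G such that every graph whose automorphism group is isomorphic to G has more than κ orbits of automorphisms acting on its edges. -/
theorem result :
    ∀ κ : Cardinal.{0}, ∃ (G : Type) (_ : Group G),
      ∀ (V : Type) (X : SimpleGraph V),
        Nonempty (G ≃* SimpleGraph.Iso X X) →
        ∀ S : Set (Sym2 V), S ⊆ X.edgeSet →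
          (∀ e ∈ X.edgeSet, ∃ s ∈ S, ∃ φ : SimpleGraph.Iso X X, Sym2.map (⇑φ) s = e) →
          κ < Cardinal.mk S := by
  intro κ
  refine ⟨GG (Order.succ (max κ ℵ₀)).ord.ToType, inferInstance, ?_⟩
  rintro V X ⟨ρ⟩ S hS hE
  by_contra hlt
  have hc : ℵ₀ ≤ max κ ℵ₀ := le_max_right _ _
  have hS' : #S ≤ max κ ℵ₀ := (not_lt.1 hlt).trans (le_max_left _ _)
  refine main (max κ ℵ₀) hc (by rw [mk_ord_toType]; exact Order.lt_succ _) X ρ
    (Set.range (fun s : S => s.1.out.1) ∪ Set.range (fun s : S => s.1.out.2))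
    ((mk_union_le _ _).trans (add_le_of_le hc (mk_range_le.trans hS') (mk_range_le.trans hS'))) ?_
  intro x y hxy
  obtain ⟨s, hs, φ, e⟩ := hE s(x, y) hxy
  obtain ⟨g, rfl⟩ := ρ.surjective φ
  have e1 : s = s(s.out.1, s.out.2) := (Quot.out_eq s).symm
  rw [e1, Sym2.map_mk, Sym2.eq_iff] at e
  rcases e with ⟨e2, e3⟩ | ⟨e2, e3⟩
  · exact ⟨_, Or.inl ⟨⟨s, hs⟩, rfl⟩, _, Or.inr ⟨⟨s, hs⟩, rfl⟩, g, e2.symm, e3.symm⟩
  · exact ⟨_, Or.inr ⟨⟨s, hs⟩, rfl⟩, _, Or.inl ⟨⟨s, hs⟩, rfl⟩, g, e3.symm, e2.symm⟩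

end Pool.Agent.S07199
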