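import Pool.Statements.S07220
-- import your own Pool.Agent.* helpers here

set_option autoImplicit false
open Pool Pool.MP_0fb6b1_co

namespace Pool.Agent.S07220

def A (i : Fin 3) : Finset ℕ := ![{0, 1, 2}, {0, 3, 4}, {1, 5, 6}] i

def f (n : ℕ) (q : Fin 3 × ℕ) : Finset ℕ := A q.1 ∪ Finset.Ico 7 (7 + n) ∪ {7 + n + q.2}

lemma A_lt (i : Fin 3) : ∀ x ∈ A i, x < 7 := by
  fin_cases i <;> simp [A]

lemma A_card (i : Fin 3) : (A i).card = 3 := by
  fin_cases i <;> simp [A]

lemma mem_f_small (n : ℕ) (q : Fin 3 × ℕ) (x : ℕ) (hx : x < 7) : x ∈ f n q ↔ x ∈ A q.1 := by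
  simp only [f, Finset.mem_union, Finset.mem_Ico, Finset.mem_singleton]
  constructor
  · rintro ((h | h) | h)
    · exact h
    · omega
    · omega
  · intro h
    exact Or.inl (Or.inl h)

lemma mem_f_big (n : ℕ) (q : Fin 3 × ℕ) (j : ℕ) : 7 + n + j ∈ f n q ↔ j = q.2 := by
  simp only [f, Finset.mem_union, Finset.mem_Ico, Finset.mem_singleton]
  constructor
  · rintro ((h | h) | h)
    · have := A_lt _ _ h
      omega
    · omega
    · omega
  · intro h
    right
    rw [h]

lemma f_card (n : ℕ) (q : Fin 3 × ℕ) : (f n q).card = n + 4 := by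
  unfold f
  rw [Finset.card_union_of_disjoint, Finset.card_union_of_disjoint]
  · simp [A_card]
    omega
  · rw [Finset.disjoint_left]
    intro x hx hx'
    have := A_lt _ _ hx
    simp at hx'
    omega
  · rw [Finset.disjoint_left]
    intro x hx hx'
    simp only [Finset.mem_union, Finset.mem_Ico, Finset.mem_singleton] at hx hx'
    rcases hx with h | h
    · have := A_lt _ _ h
      omega
    · omega

lemma f_inj (n : ℕ) : Function.Injective (f n) := by
  rintro ⟨i, j⟩ ⟨i', j'⟩ h
  have h1 : j = j' := by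
    have := (mem_f_big n (i, j) j).2 rfl
    rw [h] at this
    exact (mem_f_big n (i', j') j).1 this
  have h2 : ∀ x < 7, x ∈ A i ↔ x ∈ A i' := by
    intro x hx
    have e1 := mem_f_small n (i, j) x hx
    have e2 := mem_f_small n (i', j') x hx
    rw [h] at e1
    exact e1.symm.trans e2
  have h3 : i = i' := by
    have a := h2 2 (by norm_num)
    have b := h2 3 (by norm_num)
    have c := h2 5 (by norm_num)
    fin_cases i <;> fin_cases i' <;> simp [A] at a b c ⊢
  rw [h1, h3]

lemma bad (n j k l : ℕ) (q : Fin 3 × ℕ) :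
    f n q ∩ f n (0, j) ≠ (f n (1, k) ∩ f n (0, j)) ∪ (f n (2, l) ∩ f n (0, j)) := by
  intro h
  have key : ∀ x < 7, (x ∈ A q.1 ∧ x ∈ A 0) ↔ ((x ∈ A 1 ∧ x ∈ A 0) ∨ (x ∈ A 2 ∧ x ∈ A 0)) := by
    intro x hx
    have := Finset.ext_iff.1 h x
    simp only [Finset.mem_inter, Finset.mem_union, mem_f_small _ _ _ hx] at this
    exact this
  have a := key 0 (by norm_num)
  have b := key 1 (by norm_num)
  have c := key 2 (by norm_num)
  obtain ⟨i, m⟩ := q
  fin_cases i <;> simp [A] at a b c


/-- The negation of the preceding statement: There is a constant K such that, for every family F of w-element sets with at least K^w members, the fraction of triples (S,S1,S2) from F for which some T in F has T∩S=(S1∩S)∪(S2∩S) tends to 1 as w grows, uniformly in F. -/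
theorem result :
    ¬ (∃ K : ℝ, ∀ ε : ℝ, 0 < ε → ∃ W : ℕ, ∀ w : ℕ, W ≤ w →
      ∀ F : Finset (Finset ℕ), (∀ A ∈ F, A.card = w) → K ^ w ≤ (F.card : ℝ) →
        (1 - ε) * (F.card : ℝ) ^ 3 ≤
          (((F ×ˢ F ×ˢ F).filter
            (fun p : Finset ℕ × Finset ℕ × Finset ℕ =>
              ∃ T ∈ F, T ∩ p.1 = (p.2.1 ∩ p.1) ∪ (p.2.2 ∩ p.1))).card : ℝ)) := by
  rintro ⟨K, hK⟩
  obtain ⟨W, hW⟩ := hK (1 / 54) (by norm_num)
  obtain ⟨M0, hM0⟩ := exists_nat_ge (K ^ (W + 4))
  set M := M0 + 1 with hM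
  set F : Finset (Finset ℕ) := ((Finset.univ : Finset (Fin 3)) ×ˢ Finset.range M).image (f W)
    with hF
  have hcard : F.card = 3 * M := by
    rw [hF, Finset.card_image_of_injective _ (f_inj W)]
    simp
  have h1 := hW (W + 4) (by omega) F
    (by
      intro B hB
      rw [hF, Finset.mem_image] at hB
      obtain ⟨q, -, rfl⟩ := hB
      exact f_card W q)
    (by
      rw [hcard]
      push_cast
      have : (0 : ℝ) ≤ M0 := Nat.cast_nonneg _
      rw [hM]
      push_cast
      linarith)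
  set P := (F ×ˢ F ×ˢ F).filter
            (fun p : Finset ℕ × Finset ℕ × Finset ℕ =>
              ∃ T ∈ F, T ∩ p.1 = (p.2.1 ∩ p.1) ∪ (p.2.2 ∩ p.1)) with hP
  set g : ℕ × ℕ × ℕ → Finset ℕ × Finset ℕ × Finset ℕ :=
    fun t => (f W (0, t.1), f W (1, t.2.1), f W (2, t.2.2)) with hg
  have ginj : Function.Injective g := by
    rintro ⟨a, b, c⟩ ⟨a', b', c'⟩ h
    simp only [hg, Prod.mk.injEq] at h
    obtain ⟨h1, h2, h3⟩ := h
    have e1 := f_inj W h1
    have e2 := f_inj W h2
    have e3 := f_inj W h3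
    simp only [Prod.mk.injEq, true_and] at e1 e2 e3
    rw [e1, e2, e3]
  set Q := (Finset.range M ×ˢ Finset.range M ×ˢ Finset.range M).image g with hQ
  have hQc : Q.card = M ^ 3 := by
    rw [hQ, Finset.card_image_of_injective _ ginj]
    simp
    ring
  have memF : ∀ (i : Fin 3) (j : ℕ), j < M → f W (i, j) ∈ F := by
    intro i j hj
    rw [hF, Finset.mem_image]
    exact ⟨(i, j), by simp [hj], rfl⟩
  have hdisj : Disjoint P Q := by
    rw [Finset.disjoint_left]
    intro p hp hq
    rw [hQ, Finset.mem_image] at hq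
    obtain ⟨⟨a, b, c⟩, -, rfl⟩ := hq
    rw [hP, Finset.mem_filter] at hp
    obtain ⟨-, T, hT, hT'⟩ := hp
    rw [hF, Finset.mem_image] at hT
    obtain ⟨q, -, rfl⟩ := hT
    exact bad W a b c q hT'
  have hsub : P ∪ Q ⊆ F ×ˢ F ×ˢ F := by
    apply Finset.union_subset
    · exact Finset.filter_subset _ _
    · intro p hq
      rw [hQ, Finset.mem_image] at hq
      obtain ⟨⟨a, b, c⟩, ht, rfl⟩ := hq
      simp only [Finset.mem_product, Finset.mem_range] at ht
      simp only [hg, Finset.mem_product]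
      exact ⟨memF _ _ ht.1, memF _ _ ht.2.1, memF _ _ ht.2.2⟩
  have h2 := Finset.card_le_card hsub
  rw [Finset.card_union_of_disjoint hdisj, hQc, Finset.card_product, Finset.card_product,
    hcard] at h2
  have h3 : (P.card : ℝ) + (M : ℝ) ^ 3 ≤ 3 * M * (3 * M * (3 * M)) := by exact_mod_cast h2
  rw [hcard] at h1
  push_cast at h1
  have hMpos : (0 : ℝ) < M := by
    rw [hM]
    positivity
  have : (0 : ℝ) < (M : ℝ) ^ 3 := by positivity
  nlinarith

end Pool.Agent.S07220
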