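import Pool.Statements.S07275
import Pool.Agent.H21.PST

set_option autoImplicit false
open Pool Pool.MP_12e063_co

namespace Pool.Agent.S07275

/-- There are constants C,k such that arbitrarily large connected simple graphs exist with at most C·diam^k vertices, each having perfect state transfer: for some distinct u,v and time t, the (u,v) entry of exp(-itA) has modulus 1. -/
theorem result :
    ∃ C k : ℕ, ∀ N : ℕ, ∃ (n : ℕ) (G : SimpleGraph (Fin n)) (_ : DecidableRel G.Adj),
      N < n ∧ G.Connected ∧ n ≤ C * G.diam ^ k ∧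
      ∃ (u v : Fin n) (t : ℝ), u ≠ v ∧
        ‖∑' m : ℕ, ((-(t : ℂ) * Complex.I) ^ m / (m.factorial : ℂ)) *
            ((G.adjMatrix ℂ) ^ m) u v‖ = 1 := by
  classical
  refine ⟨20, 2, fun m => ?_⟩
  let G := H21.PST.G m
  let e := G.overFinIso rfl
  have hc : (G.overFin rfl).Connected := e.connected_iff.mp (H21.PST.conn m)
  refine ⟨_, G.overFin rfl, inferInstance, H21.PST.card_gt m, hc, ?_, e (H21.PST.b m),
    e (H21.PST.a m), -(Real.pi / √2), fun h => H21.PST.a_ne_b m (e.injective h).symm, ?_⟩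
  · obtain ⟨x, y, hx, hy⟩ := H21.PST.ends m
    have h2 := H21.PST.diam_ge _ hc (fun x => H21.PST.lev m (e.symm x).1)
      (fun u v h => H21.PST.lev_adj m _ _ (e.symm.map_adj_iff.mpr h)) (e x) (e y)
    simp only [RelIso.symm_apply_apply, hx, hy] at h2
    exact (H21.PST.card_le m).trans
      (Nat.mul_le_mul_left _ (Nat.pow_le_pow_left (by omega) _))
  · set A := (Complex.I * (Real.pi / √2 : ℝ)) • G.adjMatrix ℂ with hA
    have h1 : HasSum (fun n : ℕ => ((n.factorial : ℂ)⁻¹) • A ^ n) (NormedSpace.exp A) := by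
      letI : NormedRing (Matrix _ _ ℂ) := Matrix.linftyOpNormedRing (n := H21.PST.V m)
      letI : NormedAlgebra ℂ (Matrix _ _ ℂ) := Matrix.linftyOpNormedAlgebra (n := H21.PST.V m)
      exact NormedSpace.exp_series_hasSum_exp' (𝕂 := ℂ) A
    have h2 := Pi.hasSum.mp (Pi.hasSum.mp h1 (H21.PST.b m)) (H21.PST.a m)
    have h3 := congrFun (H21.PST.pst m) (H21.PST.b m)
    rw [Matrix.mulVec_single_one, Pi.single_eq_same] at h3
    have h4 : ∀ n, ((G.overFin rfl).adjMatrix ℂ ^ n) (e (H21.PST.b m)) (e (H21.PST.a m)) =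
        (G.adjMatrix ℂ ^ n) (H21.PST.b m) (H21.PST.a m) := fun n => by
      rw [← e.reindex_adjMatrix ℂ, ← Matrix.reindexAlgEquiv_apply ℂ ℂ, ← map_pow]; simp
    rw [HasSum.tsum_eq (a := 1), norm_one]
    convert h2 using 1
    · ext n
      rw [h4, hA, smul_pow]
      simp [mul_comm, div_eq_mul_inv, mul_left_comm, mul_assoc]
    · exact h3.symm

end Pool.Agent.S07275
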