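import Pool.Statements.S07321
-- import your own Pool.Agent.* helpers here

set_option autoImplicit false
open Pool Pool.MP_155e99_co

namespace Pool.Agent.S07321

open Matrix in
theorem skew (t : ℕ) : ∀ w : ℕ, w < 2 ^ t → ∃ (ι : Type) (_ : Fintype ι) (_ : DecidableEq ι),
    Fintype.card ι = 2 ^ t ∧ ∃ S : Matrix ι ι ℤ, Sᵀ = -S ∧ S * S = -((w:ℤ) • 1) ∧
      ∀ i j, S i j = 0 ∨ S i j = 1 ∨ S i j = -1 := by
  induction t with
  | zero =>
    intro w hw
    obtain rfl : w = 0 := by omega
    exact ⟨Unit, inferInstance, inferInstance, by simp, 0, by simp, by simp, by simp⟩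
  | succ t ih =>
    intro w hw
    obtain ⟨ι, _, _, hc, S, h1, h2, h3⟩ := ih (w / 2) (by omega)
    have hd : ∀ i, S i i = 0 := fun i => by
      have := congrFun (congrFun h1 i) i
      simp only [transpose_apply, Matrix.neg_apply] at this
      omega
    refine ⟨ι ⊕ ι, inferInstance, inferInstance, by simp [hc, pow_succ, mul_two], ?_⟩
    rcases Nat.even_or_odd' w with ⟨v, rfl | rfl⟩
    · have e : 2 * v / 2 = v := by omega
      rw [e] at h2
      refine ⟨fromBlocks S S S (-S), ?_, ?_, ?_⟩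
      · simp [fromBlocks_transpose, h1, fromBlocks_neg]
      · rw [fromBlocks_multiply, ← fromBlocks_one, fromBlocks_smul, fromBlocks_neg]
        simp only [Matrix.mul_neg, Matrix.neg_mul, h2]
        congr 1 <;> push_cast <;> module
      · rintro (i | i) (j | j) <;> rcases h3 i j with h | h | h <;> simp [h]
    · have e : (2 * v + 1) / 2 = v := by omega
      rw [e] at h2
      refine ⟨fromBlocks S (S + 1) (S - 1) (-S), ?_, ?_, ?_⟩
      · simp only [fromBlocks_transpose, h1, fromBlocks_neg, transpose_add, transpose_sub,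
          transpose_one, transpose_neg]
        congr 1 <;> module
      · rw [fromBlocks_multiply, ← fromBlocks_one, fromBlocks_smul, fromBlocks_neg]
        simp only [Matrix.mul_neg, Matrix.neg_mul, Matrix.mul_add, Matrix.add_mul, Matrix.mul_sub,
          Matrix.sub_mul, h2, Matrix.mul_one, Matrix.one_mul, fromBlocks_one]
        congr 1 <;> push_cast <;> module
      · rintro (i | i) (j | j)
        · simpa using h3 i j
        · by_cases h : i = j
          · simp [h, hd]
          · simpa [one_apply_ne h] using h3 i j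
        · by_cases h : i = j
          · simp [h, hd]
          · simpa [one_apply_ne h] using h3 i j
        · rcases h3 i j with h | h | h <;> simp [h]

open Matrix in
theorem stepU (k q c t : ℕ) (hk : k < 2 ^ t) (hq : 2 ^ t + q * c = 2 * k)
    (B : Matrix (Fin q) (Fin q) ℤ) (hB : B * Bᵀ = (k:ℤ) • 1) :
    ∃ (ι : Type) (_ : Fintype ι) (_ : DecidableEq ι), Fintype.card ι = 2 * k ∧
      ∃ U : Matrix ι ι ℤ, U * Uᵀ = (k:ℤ) • 1 ∧ ∃ r, ∀ j, U r j = 0 ∨ U r j = 1 ∨ U r j = -1 := by
  obtain ⟨ι, _, _, hc, S, h1, h2, h3⟩ := skew t k hk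
  have : Nonempty ι := Fintype.card_pos_iff.1 (by rw [hc]; positivity)
  refine ⟨ι ⊕ (Fin q × Fin c), inferInstance, inferInstance, by simp [hc, hq],
    fromBlocks S 0 0 (blockDiagonal fun _ => B), ?_, Sum.inl (Classical.arbitrary ι), ?_⟩
  · rw [fromBlocks_transpose, fromBlocks_multiply, ← fromBlocks_one, fromBlocks_smul,
      blockDiagonal_transpose, ← blockDiagonal_mul]
    simp only [h1, Matrix.mul_neg, h2, hB, fromBlocks_one]
    have : (blockDiagonal fun _ : Fin c => ((k:ℤ) • (1 : Matrix (Fin q) (Fin q) ℤ))) = (k:ℤ) • 1 := by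
      rw [← blockDiagonal_one, ← blockDiagonal_smul]
      rfl
    rw [this]
    simp
  · rintro (j | j)
    · simpa using h3 _ j
    · simp

open Matrix in
theorem stepW {ι : Type} [Fintype ι] [DecidableEq ι] (k : ℕ) (hc : Fintype.card ι = 2 * k)
    (U : Matrix ι ι ℤ) (hU : U * Uᵀ = (k:ℤ) • 1) (r : ι)
    (hr : ∀ j, U r j = 0 ∨ U r j = 1 ∨ U r j = -1) :
    ∃ W : Matrix ι ι ℤ, W * Wᵀ = ((2 * k : ℕ) : ℤ) • 1 ∧ ∀ j, W r j = 1 := by
  have h1 : Fintype.card {j // U r j ≠ 0} = k := by
    have := congrFun (congrFun hU r) r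
    simp only [mul_apply, transpose_apply, Matrix.smul_apply, one_apply_eq, smul_eq_mul, mul_one] at this
    rw [Fintype.card_subtype, Finset.card_filter]
    zify
    rw [← this]
    refine Finset.sum_congr rfl fun j _ => ?_
    rcases hr j with h | h | h <;> simp [h]
  have h2 : Fintype.card {j // ¬ U r j ≠ 0} = k := by
    rw [Fintype.card_subtype_compl, h1, hc]
    omega
  let e := Fintype.equivOfCardEq (h1.trans h2.symm)
  let φ : {j // U r j ≠ 0} ⊕ {j // U r j ≠ 0} ≃ ι :=
    (Equiv.sumCongr (Equiv.refl _) e).trans (Equiv.sumCompl _)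
  let V : ι → {j // U r j ≠ 0} ⊕ {j // U r j ≠ 0} → ℤ := fun i =>
    Sum.elim (fun a => (U i a + U i (e a)) * U r a) (fun a => (U i a - U i (e a)) * U r a)
  have sq : ∀ a : {j // U r j ≠ 0}, U r a * U r a = 1 := fun a => by
    rcases hr a with h | h | h
    · exact absurd h a.2
    · simp [h]
    · simp [h]
  refine ⟨of fun i j => V i (φ.symm j), ?_, fun j => ?_⟩
  · ext i i'
    have := congrFun (congrFun hU i) i'
    simp only [mul_apply, transpose_apply, Matrix.smul_apply, smul_eq_mul, of_apply] at this ⊢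
    rw [← φ.sum_comp] at this ⊢
    simp only [Equiv.symm_apply_apply, Fintype.sum_sum_type, V, Sum.elim_inl, Sum.elim_inr]
    simp only [Fintype.sum_sum_type, φ, Equiv.trans_apply, Equiv.sumCongr_apply, Sum.map_inl,
      Sum.map_inr, Equiv.refl_apply, Equiv.sumCompl_apply_inl, Equiv.sumCompl_apply_inr] at this
    push_cast
    rw [mul_assoc, ← this, ← Finset.sum_add_distrib, ← Finset.sum_add_distrib, Finset.mul_sum]
    refine Finset.sum_congr rfl fun a _ => ?_
    linear_combination (2 * (U i a * U i' a + U i (e a) * U i' (e a))) * sq a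
  · simp only [of_apply]
    rcases φ.symm j with a | a
    · have : U r (e a) = 0 := not_not.1 (e a).2
      simp [V, this, sq]
    · have : U r (e a) = 0 := not_not.1 (e a).2
      simp [V, this, sq]

open Matrix in
theorem flip' {ι : Type} [Fintype ι] [DecidableEq ι] (n : ℤ) (hn : n ≠ 0) (W : Matrix ι ι ℤ)
    (h : W * Wᵀ = n • 1) : Wᵀ * W = n • 1 := by
  have hd : W.det ≠ 0 := by
    intro h0
    have := congrArg det h
    rw [det_mul, h0, det_smul, det_one] at this
    exact pow_ne_zero _ hn (by linarith)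
  have h1 : W * (Wᵀ * W - n • 1) = 0 := by
    rw [Matrix.mul_sub, ← Matrix.mul_assoc, h, Matrix.smul_mul, Matrix.mul_smul, Matrix.one_mul,
      Matrix.mul_one, sub_self]
  have h2 : W.det • (Wᵀ * W - n • 1) = 0 := by
    rw [← Matrix.one_mul (Wᵀ * W - n • 1), ← Matrix.smul_mul, ← adjugate_mul, Matrix.mul_assoc, h1,
      Matrix.mul_zero]
  exact sub_eq_zero.1 ((smul_eq_zero.1 h2).resolve_left hd)

open Matrix in
theorem exW (k : ℕ) (hk : 1 ≤ k) (h : Even k ∨ ∃ a b : ℕ, k = a ^ 2 + b ^ 2) :
    ∃ (ι : Type) (_ : Fintype ι) (_ : DecidableEq ι), Fintype.card ι = 2 * k ∧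
      ∃ (W : Matrix ι ι ℤ) (r : ι), W * Wᵀ = ((2 * k : ℕ) : ℤ) • 1 ∧ ∀ j, W r j = 1 := by
  have l1 := Nat.pow_log_le_self 2 (x := k) (by omega)
  have l2 := Nat.lt_pow_succ_log_self (b := 2) (by norm_num) k
  have main : ∃ (ι : Type) (_ : Fintype ι) (_ : DecidableEq ι), Fintype.card ι = 2 * k ∧
      ∃ U : Matrix ι ι ℤ, U * Uᵀ = (k:ℤ) • 1 ∧ ∃ r, ∀ j, U r j = 0 ∨ U r j = 1 ∨ U r j = -1 := by
    rcases h with ⟨m, hm⟩ | ⟨a, b, hab⟩
    · obtain ⟨a, b, c, d, h4⟩ := Nat.sum_four_squares k
      have h5 : (k:ℤ) = a ^ 2 + b ^ 2 + c ^ 2 + d ^ 2 := by exact_mod_cast h4.symm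
      obtain ⟨s, hs⟩ : ∃ s, Nat.log 2 k = s + 1 := by
        refine ⟨Nat.log 2 k - 1, ?_⟩
        have := Nat.log_pos (b := 2) (n := k) (by norm_num) (by omega)
        omega
      refine stepU k 4 (m - 2 ^ s) (Nat.log 2 k + 1) l2 ?_
        !![(a:ℤ), b, c, d; -b, a, -d, c; -c, d, a, -b; -d, -c, b, a] ?_
      · rw [hs, pow_succ] at l1
        rw [hs, pow_succ, pow_succ]
        omega
      · ext i j
        fin_cases i <;> fin_cases j <;> simp [mul_apply, Fin.sum_univ_four, h5] <;> ring
    · have h5 : (k:ℤ) = a ^ 2 + b ^ 2 := by exact_mod_cast hab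
      refine stepU k 2 (k - 2 ^ Nat.log 2 k) (Nat.log 2 k + 1) l2 ?_ !![(a:ℤ), b; -b, a] ?_
      · rw [pow_succ]
        omega
      · ext i j
        fin_cases i <;> fin_cases j <;> simp [mul_apply, Fin.sum_univ_two, h5] <;> ring
  obtain ⟨ι, _, _, hc, U, hU, r, hr⟩ := main
  obtain ⟨W, h1, h2⟩ := stepW k hc U hU r hr
  exact ⟨ι, inferInstance, inferInstance, hc, W, r, h1, h2⟩

theorem brc (k : ℕ) (hk : 1 ≤ k) (x y z : ℤ) (h0 : ¬ (x = 0 ∧ y = 0 ∧ z = 0))
    (h : x ^ 2 = ((2 * k : ℕ) : ℤ) * y ^ 2 + (-1 : ℤ) ^ (((2 * k) ^ 2 + 2 * k) / 2) * z ^ 2) :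
    Even k ∨ ∃ a b : ℕ, k = a ^ 2 + b ^ 2 := by
  rcases Nat.even_or_odd k with hk2 | hk2
  · exact Or.inl hk2
  right
  have e : ((2 * k) ^ 2 + 2 * k) / 2 = 2 * k ^ 2 + k := by
    have : (2 * k) ^ 2 + 2 * k = 2 * (2 * k ^ 2 + k) := by ring
    omega
  rw [e, Odd.neg_one_pow ((even_two_mul _).add_odd hk2)] at h
  have hy : y ≠ 0 := by
    rintro rfl
    exact h0 ⟨by nlinarith, rfl, by nlinarith⟩
  have hy' : y.natAbs ≠ 0 := Int.natAbs_ne_zero.2 hy
  have h1 : 2 * k * y.natAbs ^ 2 = x.natAbs ^ 2 + z.natAbs ^ 2 := by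
    zify
    simp only [sq_abs]
    push_cast at h
    linarith
  have h2 := Nat.eq_sq_add_sq_iff.1 ⟨_, _, h1⟩
  refine Nat.eq_sq_add_sq_iff.2 fun q hq h3 => ?_
  have hp := Nat.prime_of_mem_primeFactors hq
  haveI := Fact.mk hp
  have h4 := h2 q (Nat.mem_primeFactors.2 ⟨hp, ((Nat.dvd_of_mem_primeFactors hq).mul_left 2).mul_right _,
    by positivity⟩) h3
  rw [padicValNat.mul (by positivity) (by positivity), padicValNat.mul (by norm_num) (by omega),
    padicValNat.pow, padicValNat.eq_zero_of_not_dvd (fun hd => by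
      have := Nat.le_of_dvd (by norm_num) hd
      omega), zero_add] at h4
  exact (Nat.even_add.1 h4).2 (even_two_mul _)

def mA {ι : Type} [DecidableEq ι] (n : ℕ) (W : Matrix ι ι ℤ) (r : ι) :
    Option (Fin (n + 1) × ι) → Option (Fin (n + 1) × ι) → ℤ
  | none, none => 0
  | none, some y => if y.2 = r then 1 else 0
  | some _, none => 1
  | some x, some y => if x.1 = y.1 then W y.2 x.2 else 0

/-- For every even n ≥ 2 with x² = n·y² + (−1)^((n²+n)/2)·z² nontrivially solvable, some integer (n²+n+1)-square matrix A has A·Aᵀ = nI+J, nonnegative column sums, one 0/1 column with a single zero, n+1 columns with n+1 ones and rest zeros, and all other columns summing to 0. -/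
theorem result :
    ∀ n : ℕ, Even n → 2 ≤ n →
      (∃ x y z : ℤ, ¬ (x = 0 ∧ y = 0 ∧ z = 0) ∧
        x ^ 2 = (n : ℤ) * y ^ 2 + (-1 : ℤ) ^ ((n ^ 2 + n) / 2) * z ^ 2) →
      ∃ A : Matrix (Fin (n ^ 2 + n + 1)) (Fin (n ^ 2 + n + 1)) ℤ,
        (∀ j, 0 ≤ ∑ i, A i j) ∧
        A * A.transpose =
          (n : ℤ) • (1 : Matrix (Fin (n ^ 2 + n + 1)) (Fin (n ^ 2 + n + 1)) ℤ)
            + Matrix.of (fun (_ : Fin (n ^ 2 + n + 1)) (_ : Fin (n ^ 2 + n + 1)) => (1 : ℤ)) ∧
        ∃ j₀ : Fin (n ^ 2 + n + 1), ∃ S : Finset (Fin (n ^ 2 + n + 1)),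
          j₀ ∉ S ∧ S.card = n + 1 ∧
          (∀ i, A i j₀ = 0 ∨ A i j₀ = 1) ∧
          (Finset.univ.filter (fun i => A i j₀ = 0)).card = 1 ∧
          (∀ j ∈ S, (∀ i, A i j = 0 ∨ A i j = 1) ∧
            (Finset.univ.filter (fun i => A i j = 1)).card = n + 1) ∧
          (∀ j, j ≠ j₀ → j ∉ S → ∑ i, A i j = 0) := by
  rintro n ⟨k, hk⟩ hn ⟨x, y, z, h0, h⟩
  obtain rfl : n = 2 * k := by omega
  obtain ⟨ι, _, _, hc, W, r, hW, hr⟩ := exW k (by omega) (brc k (by omega) x y z h0 h)
  generalize 2 * k = n at *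
  have hW' := flip' (n:ℤ) (by positivity) W hW
  have w1 : ∀ c c', ∑ i, W i c * W i c' = if c = c' then (n:ℤ) else 0 := fun c c' => by
    have := congrFun (congrFun hW' c) c'
    simpa [Matrix.mul_apply, Matrix.one_apply] using this
  have w2 : ∀ i, ∑ c, W i c = if i = r then (n:ℤ) else 0 := fun i => by
    have := congrFun (congrFun hW i) r
    simpa [Matrix.mul_apply, Matrix.one_apply, hr] using this
  let e : Fin (n ^ 2 + n + 1) ≃ Option (Fin (n + 1) × ι) := Fintype.equivOfCardEq (by
    simp only [Fintype.card_fin, Fintype.card_option, Fintype.card_prod, hc]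
    ring)
  have cs : ∀ j, ∑ i, mA n W r (e i) j = match j with
      | none => ((n + 1) * n : ℤ)
      | some y => if y.2 = r then (n + 1 : ℤ) else 0 := by
    intro j
    rw [e.sum_comp (fun i => mA n W r i j), Fintype.sum_option]
    rcases j with _ | ⟨g, i⟩
    · simp [mA, hc]
    · simp only [mA, Fintype.sum_prod_type]
      rw [Finset.sum_comm]
      simp only [Finset.sum_ite_eq', Finset.mem_univ, if_true, w2]
      split_ifs <;> ring
  have cnt : ∀ p : Option (Fin (n + 1) × ι) → Prop, ∀ [DecidablePred p],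
      (Finset.univ.filter fun i => p (e i)).card = (Finset.univ.filter p).card := by
    intro p _
    exact Finset.card_equiv e (by simp)
  refine ⟨Matrix.of fun i j => mA n W r (e i) (e j), fun j => ?_, ?_, e.symm none,
    Finset.univ.filter fun j => ∃ g, e j = some (g, r), by simp, ?_, fun i => ?_, ?_, ?_, ?_⟩
  · simp only [Matrix.of_apply, cs]
    rcases e j with _ | ⟨g, i⟩
    · positivity
    · simp only
      split_ifs <;> positivity
  · ext i j
    simp only [Matrix.mul_apply, Matrix.transpose_apply, Matrix.of_apply, Matrix.add_apply,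
      Matrix.smul_apply, Matrix.one_apply, smul_eq_mul, ← e.injective.eq_iff]
    rw [e.sum_comp (fun l => mA n W r (e i) l * mA n W r (e j) l), Fintype.sum_option]
    rcases e i with _ | ⟨g, c⟩ <;> rcases e j with _ | ⟨g', c'⟩
    · simp [mA, Fintype.sum_prod_type]
    · simp [mA, Fintype.sum_prod_type, hr]
    · simp [mA, Fintype.sum_prod_type, hr]
    · simp only [mA, Fintype.sum_prod_type, Option.some.injEq, Prod.mk.injEq]
      rw [Finset.sum_eq_single g (fun b _ hb => by simp [hb.symm]) (by simp)]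
      by_cases hg : g = g'
      · subst hg
        simp only [if_true, w1, true_and]
        split_ifs <;> ring
      · simp [hg, Ne.symm hg]
  · rw [cnt (fun j => ∃ g, j = some (g, r))]
    have : (Finset.univ.filter fun j : Option (Fin (n + 1) × ι) => ∃ g, j = some (g, r)) =
        Finset.univ.image fun g => some (g, r) := by
      ext j
      simp [eq_comm]
    rw [this, Finset.card_image_of_injective _ (fun a b hab => by simpa using hab)]
    simp
  · simp only [Matrix.of_apply, Equiv.apply_symm_apply]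
    rcases e i with _ | x <;> simp [mA]
  · simp only [Matrix.of_apply, Equiv.apply_symm_apply]
    rw [cnt (fun i => mA n W r i none = 0), Finset.card_eq_one]
    refine ⟨none, ?_⟩
    ext i
    rcases i with _ | x <;> simp [mA]
  · intro j hj
    obtain ⟨g, hg⟩ := (Finset.mem_filter.1 hj).2
    simp only [Matrix.of_apply, hg]
    refine ⟨fun i => ?_, ?_⟩
    · rcases e i with _ | x
      · simp [mA]
      · simp only [mA, hr]
        split_ifs <;> simp
    · rw [cnt (fun i => mA n W r i (some (g, r)) = 1)]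
      have : (Finset.univ.filter fun i : Option (Fin (n + 1) × ι) => mA n W r i (some (g, r)) = 1) =
          Finset.univ.image (Option.map fun c : ι => (g, c)) := by
        ext i
        rcases i with _ | ⟨g', c⟩
        · simp [mA]
        · simp only [mA, hr, Finset.mem_filter, Finset.mem_univ, true_and, Finset.mem_image,
            Option.map_eq_some_iff, Prod.mk.injEq]
          constructor
          · intro h
            split_ifs at h with h1
            · exact ⟨some c, c, rfl, h1.symm, rfl⟩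
            · simp at h
          · rintro ⟨_, c', -, h1, -⟩
            simp [h1]
      rw [this, Finset.card_image_of_injective _
        (Option.map_injective (fun a b hab => by simpa using hab))]
      simp [hc]
  · intro j h1 h2
    simp only [Matrix.of_apply, cs]
    have h3 : e j ≠ none := fun h => h1 (by rw [← h, Equiv.symm_apply_apply])
    simp only [Finset.mem_filter, Finset.mem_univ, true_and, not_exists] at h2
    revert h2 h3
    rcases e j with _ | ⟨g, i⟩
    · simp
    · intro _ h2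
      have : i ≠ r := fun h => h2 g (by rw [h])
      simp [this]

end Pool.Agent.S07321
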