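import Pool.Statements.S07324

set_option autoImplicit false
set_option maxSynthPendingDepth 3
open Pool Pool.MP_15691b_co

namespace Pool.Agent.S07324

def Lv : Fin 4 → Fin 8 := ![2, 3, 4, 6]
def Rv : Fin 4 → Fin 8 := ![2, 3, 5, 7]

def E (u v : Fin 8) : Prop := ∃ g, (u = 0 ∧ v = Lv g) ∨ (u = 1 ∧ v = Rv g) ∨ (u = Lv g ∧ v = Rv g)

instance (u v : Fin 8) : Decidable (E u v) := by unfold E; infer_instance

abbrev W := Option ((Fin 6 × Fin 6) × Fin 8)

def rel : W → W → Prop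
  | none, some p => 2 ≤ p.2
  | some p, some q => p.1 = q.1 ∧ E p.2 q.2
  | _, _ => False

def h0 (u : Fin 8) (i : Fin 6) (v : Fin 8) (j : Fin 6) : Bool :=
  Nat.testBit 92248744872713105399245645184493560153886448897912246966388479076133857224766921277333995795977896549031516423878391381123542912564868883634682335806067944445495150112626487415052938187432805973146782556920167216549363385780899795171932513354271809922550056728902290991607993401002257740824462017640281282617990784688604642038345523674554336346176099984951665171043512646107011333847736573077513394081463312134373730149884175139591531900266827462113515007862641787786769721016123247480367797495081950510276967256606246825980849990808877021866246274579193427556008134435539533024174832094305266942725145278914529762780901456795330922391121568446025670738137321472 (((u.1 * 6 + i.1) * 8 + v.1) * 6 + j.1)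

def A (k : Fin 6 × Fin 6) (v : Fin 8) (i j : Fin 6) : Prop :=
  2 ≤ v ∧ ((i = k.1 ∧ j = 4) ∨ (i = k.2 ∧ k.1 ≠ k.2 ∧ j = 5))

lemma h0_1 : ∀ u i v j, h0 u i v j = true → h0 v j u i = true ∧ u ≠ v ∧ (E u v ∨ E v u) ∧
    ∀ k, h0 u i v k = true → j = k := by decide +kernel

def gd (g : Fin 4) (a b c d x y : Fin 6) : Prop :=
  h0 0 a (Lv g) x = false ∧ h0 0 b (Lv g) x = false ∧ h0 1 c (Rv g) y = false ∧
    h0 1 d (Rv g) y = false ∧ h0 (Lv g) x (Rv g) y = false

instance (g : Fin 4) (a b c d x y : Fin 6) : Decidable (gd g a b c d x y) := by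
  unfold gd; infer_instance

def cd (g : Fin 4) (p q r s : Fin 6) : Prop := p < 4 ∧ q < 4 ∧ r < 4 ∧ s < 4 ∧
  p < q ∧ r < s ∧ (Lv g = Rv g → p = r ∧ q = s)

instance (g : Fin 4) (p q r s : Fin 6) : Decidable (cd g p q r s) := by unfold cd; infer_instance

def ok (g : Fin 4) (a b c d : Fin 6) : Prop := ∃ p q r s : Fin 6, cd g p q r s ∧
  ∀ x ∈ [p, q], ∀ y ∈ [r, s], gd g a b c d x y

instance (g : Fin 4) (a b c d : Fin 6) : Decidable (ok g a b c d) := by unfold ok; infer_instance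

lemma h0_2 : ∀ a b c d, a < b → c < d → ∃ g, ¬ ok g a b c d := by decide +kernel

def H6 : SimpleGraph (W × Fin 6) where
  Adj
    | (none, i), (some p, j) => A p.1 p.2 i j
    | (some p, j), (none, i) => A p.1 p.2 i j
    | (some p, i), (some q, j) => p.1 = q.1 ∧ h0 p.2 i q.2 j = true
    | _, _ => False
  symm := ⟨by
    rintro ⟨_ | p, i⟩ ⟨_ | q, j⟩ h
    exacts [h, h, h, ⟨h.1.symm, (h0_1 _ _ _ _ h.2).1⟩]⟩
  loopless := ⟨by
    rintro ⟨_ | p, i⟩ h
    exacts [h, (h0_1 _ _ _ _ h.2).2.1 rfl]⟩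

lemma two {P : Fin 3 → Prop} (h : ∀ j k, P j → P k → j = k) :
    ∃ p : Bool → Fin 3, Function.Injective p ∧ ∀ o, ¬ P (p o) := by
  by_cases h0 : P 0
  · exact ⟨fun o => if o then 1 else 2, by decide, fun o ho => by
      cases o <;> exact absurd (h _ _ h0 ho) (by decide)⟩
  by_cases h1 : P 1
  · exact ⟨fun o => if o then 0 else 2, by decide, fun o ho => by
      cases o <;> exact absurd (h _ _ h1 ho) (by decide)⟩
  · exact ⟨fun o => if o then 0 else 1, by decide, fun o => by cases o <;> assumption⟩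

lemma three (H : SimpleGraph (W × Fin 3))
    (h2 : ∀ x v j k, H.Adj x (v, j) → H.Adj x (v, k) → j = k) (k : Fin 6 × Fin 6) :
    ∃ col : Fin 8 → Fin 3, (∀ v, 2 ≤ v → ¬ H.Adj (none, 0) (some (k, v), col v)) ∧
      ∀ u v, E u v → ¬ H.Adj (some (k, u), col u) (some (k, v), col v) := by
  have h3 : ∀ g, ∃ pl pr : Bool → Fin 3, Function.Injective pl ∧ Function.Injective pr ∧
      (Lv g = Rv g → pl = pr) ∧ ∀ o, ¬ H.Adj (none, 0) (some (k, Lv g), pl o) ∧
        ¬ H.Adj (none, 0) (some (k, Rv g), pr o) ∧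
        ¬ H.Adj (some (k, Lv g), pl o) (some (k, Rv g), pr o) := by
    intro g
    obtain ⟨p, p1, p2⟩ := two (h2 (none, 0) (some (k, Lv g)))
    obtain ⟨q, q1, q2⟩ := two (h2 (none, 0) (some (k, Rv g)))
    by_cases h : Lv g = Rv g
    · exact ⟨p, p, p1, p1, fun _ => rfl, fun o => ⟨p2 o, h ▸ p2 o, h ▸ H.irrefl⟩⟩
    by_cases h' : ∀ o, ¬ H.Adj (some (k, Lv g), p o) (some (k, Rv g), q o)
    · exact ⟨p, q, p1, q1, fun e => absurd e h, fun o => ⟨p2 o, q2 o, h' o⟩⟩
    · obtain ⟨o, ho⟩ := not_forall.1 h'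
      refine ⟨p, fun o => q (!o), p1, q1.comp Bool.not_injective, fun e => absurd e h,
        fun o' => ⟨p2 _, q2 _, fun h4 => ho fun h5 => ?_⟩⟩
      by_cases e : o' = o
      · exact absurd (q1 (h2 _ _ _ _ (e ▸ h4) h5)) (by simp)
      · simp only at h4
        rw [show (!o') = o from (Bool.eq_not_of_ne (Ne.symm e)).symm] at h4
        exact e (p1 (h2 _ _ _ _ h4.symm h5.symm))
  choose pl pr l1 r1 lr h3 using h3
  obtain ⟨c, d, h4⟩ : ∃ c d, ∀ g, ∃ o, ¬ H.Adj (some (k, 0), c) (some (k, Lv g), pl g o) ∧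
      ¬ H.Adj (some (k, 1), d) (some (k, Rv g), pr g o) := by
    by_contra! hc
    have h5 : ∀ z : Fin 3 × Fin 3, ∃ y : Fin 4 × Bool,
        H.Adj (some (k, 0), z.1) (some (k, Lv y.1), pl y.1 y.2) ∧
        H.Adj (some (k, 1), z.2) (some (k, Rv y.1), pr y.1 (!y.2)) := by
      intro z
      obtain ⟨g, hg⟩ := hc z.1 z.2
      by_cases h : H.Adj (some (k, 0), z.1) (some (k, Lv g), pl g true)
      · exact ⟨(g, true), h, hg false fun h' => absurd (l1 g (h2 _ _ _ _ h h')) (by simp)⟩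
      · refine ⟨(g, false), not_not.1 fun h' => ?_, hg true h⟩
        exact absurd (r1 g (h2 _ _ _ _ (hg true h) (hg false h'))) (by simp)
    choose F F1 F2 using h5
    have := Fintype.card_le_of_injective F fun z z' e => Prod.ext
      (h2 _ _ _ _ (F1 z).symm (e ▸ F1 z').symm) (h2 _ _ _ _ (F2 z).symm (e ▸ F2 z').symm)
    simp at this
  choose o h4 h5 using h4
  let col : Fin 8 → Fin 3 := ![c, d, pl 0 (o 0), pl 1 (o 1), pl 2 (o 2), pr 2 (o 2), pl 3 (o 3),
    pr 3 (o 3)]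
  have hL : ∀ g, col (Lv g) = pl g (o g) := fun g => by fin_cases g <;> rfl
  have hR : ∀ g, col (Rv g) = pr g (o g) := fun g => by
    fin_cases g
    exacts [congrFun (lr 0 rfl) _, congrFun (lr 1 rfl) _, rfl, rfl]
  refine ⟨col, fun v hv => ?_, ?_⟩
  · obtain ⟨g, rfl | rfl⟩ := (by decide : ∀ v : Fin 8, 2 ≤ v → ∃ g, v = Lv g ∨ v = Rv g) v hv
    exacts [hL g ▸ (h3 g _).1, hR g ▸ (h3 g _).2.1]
  · rintro _ _ ⟨g, ⟨rfl, rfl⟩ | ⟨rfl, rfl⟩ | ⟨rfl, rfl⟩⟩
    exacts [hL g ▸ h4 g, hR g ▸ h5 g, hL g ▸ hR g ▸ (h3 g _).2.2]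

/-- The negation of the preceding statement: For every finite graph G and all a, b and t ≥ 1: if every a-fold DP cover of G has an independent transversal picking b vertices per fibre, then every at-fold DP cover has one picking bt vertices per fibre. -/
theorem result :
    ¬ (∀ (V : Type) [Fintype V] (G : SimpleGraph V) (a b t : ℕ), 1 ≤ t →
      (∀ H : SimpleGraph (V × Fin a),
          (∀ x y : V × Fin a, H.Adj x y → G.Adj x.1 y.1) →
          (∀ (x : V × Fin a) (v : V) (j k : Fin a), H.Adj x (v, j) → H.Adj x (v, k) → j = k) →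
          ∃ f : V → Finset (Fin a), (∀ v, (f v).card = b) ∧
            ∀ (u v : V), ∀ i ∈ f u, ∀ j ∈ f v, ¬ H.Adj (u, i) (v, j)) →
      (∀ H : SimpleGraph (V × Fin (a * t)),
          (∀ x y : V × Fin (a * t), H.Adj x y → G.Adj x.1 y.1) →
          (∀ (x : V × Fin (a * t)) (v : V) (j k : Fin (a * t)), H.Adj x (v, j) → H.Adj x (v, k) → j = k) →
          ∃ f : V → Finset (Fin (a * t)), (∀ v, (f v).card = b * t) ∧
            ∀ (u v : V), ∀ i ∈ f u, ∀ j ∈ f v, ¬ H.Adj (u, i) (v, j))) := by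
  intro HH
  obtain ⟨f, f1, f2⟩ := HH W (SimpleGraph.fromRel rel) 3 1 2 one_le_two (fun H h1 h2 => by
    choose col c1 c2 using three H h2
    refine ⟨fun v => {v.elim 0 fun p => col p.1 p.2}, by simp, ?_⟩
    simp only [Finset.mem_singleton]
    have key : ∀ u v, rel u v → ¬ H.Adj (u, u.elim 0 fun p => col p.1 p.2)
        (v, v.elim 0 fun p => col p.1 p.2) := by
      rintro (_ | ⟨k, u⟩) (_ | ⟨k', v⟩) h
      exacts [h.elim, c1 _ _ h, h.elim, (show k = k' from h.1) ▸ c2 _ _ _ h.2]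
    rintro u v _ rfl _ rfl h
    exact (h1 _ _ h).2.elim (key _ _ · h) (key _ _ · h.symm)) H6 (by
      rintro ⟨_ | p, i⟩ ⟨_ | q, j⟩ h
      exacts [h.elim, ⟨by simp, Or.inl h.1⟩, ⟨by simp, Or.inr h.1⟩,
        ⟨fun e => (h0_1 _ _ _ _ h.2).2.1 (congrArg Prod.snd (Option.some.inj e)),
          (h0_1 _ _ _ _ h.2).2.2.1.imp (⟨h.1, ·⟩) (⟨h.1.symm, ·⟩)⟩]) (by
      rintro ⟨_ | p, i⟩ (_ | q) j k h h'
      exacts [h.elim, by simp only [H6, A] at h h'; grind, by simp only [H6, A] at h h'; grind,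
        (h0_1 _ _ _ _ h.2).2.2.2 k h'.2])
  have h1 : ∀ v, ∃ a b : Fin 6, a < b ∧ a ∈ f v ∧ b ∈ f v := fun v => by
    obtain ⟨a, b, h, e⟩ := Finset.card_eq_two.1 (f1 v)
    rcases lt_or_gt_of_ne h with h | h
    exacts [⟨a, b, h, by simp [e], by simp [e]⟩, ⟨b, a, h, by simp [e], by simp [e]⟩]
  choose a b h1 h2 h3 using h1
  let k := (a none, b none)
  have h4 : ∀ v, 2 ≤ v → ∀ j ∈ f (some (k, v)), j < (4 : Fin 6) := fun v hv j hj => by
    have h5 : j ≠ (4 : Fin 6) := fun e => f2 _ _ _ (h2 none) _ hj ⟨hv, Or.inl ⟨rfl, e⟩⟩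
    have h6 : j ≠ (5 : Fin 6) := fun e => f2 _ _ _ (h3 none) _ hj ⟨hv, Or.inr ⟨rfl, (h1 _).ne, e⟩⟩
    revert h5 h6
    exact (by decide : ∀ j : Fin 6, j ≠ 4 → j ≠ 5 → j < 4) j
  have h5 : ∀ u v, ∀ i ∈ f (some (k, u)), ∀ j ∈ f (some (k, v)), h0 u i v j = false :=
    fun u v i hi j hj => Bool.eq_false_iff.2 fun h => f2 _ _ _ hi _ hj ⟨rfl, h⟩
  obtain ⟨g, hg⟩ := h0_2 _ _ _ _ (h1 (some (k, 0))) (h1 (some (k, 1)))
  have h6 := (by decide : ∀ g, 2 ≤ Lv g ∧ 2 ≤ Rv g) g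
  refine hg ⟨_, _, _, _, ⟨h4 _ h6.1 _ (h2 _), h4 _ h6.1 _ (h3 _), h4 _ h6.2 _ (h2 _),
    h4 _ h6.2 _ (h3 _), h1 _, h1 _, fun e => by simp [e]⟩, fun x hx y hy => ?_⟩
  have hx' : x ∈ f (some (k, Lv g)) := by
    simp only [List.mem_cons, List.not_mem_nil, or_false] at hx
    rcases hx with rfl | rfl
    exacts [h2 _, h3 _]
  have hy' : y ∈ f (some (k, Rv g)) := by
    simp only [List.mem_cons, List.not_mem_nil, or_false] at hy
    rcases hy with rfl | rfl
    exacts [h2 _, h3 _]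
  exact ⟨h5 _ _ _ (h2 _) _ hx', h5 _ _ _ (h3 _) _ hx', h5 _ _ _ (h2 _) _ hy', h5 _ _ _ (h3 _) _ hy',
    h5 _ _ _ hx' _ hy'⟩

end Pool.Agent.S07324
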