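import Pool.Statements.S07344

set_option autoImplicit false
open Pool Pool.MP_166f70_co

namespace Pool.Agent.S07344

/- Counterexample with r = 3: the point-line sign pattern of a real configuration of 10 points and
12 lines, each line through exactly 3 of the points, whose only realisations need the golden ratio.
Rows are points, columns are lines; an entry a + b t with t * t + t = 1 is stored as two integers. -/

def U0 : Fin 10 → Fin 3 → ℤ :=
  ![![1, 0, 0], ![1, -1, 0], ![1, 0, 1], ![1, 1, 0], ![0, 1, 0], ![1, 1, 1], ![1, 0, 0],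
    ![1, 0, 1], ![0, 1, 1], ![0, 0, 1]]

def U1 : Fin 10 → Fin 3 → ℤ :=
  ![![0, 0, 0], ![0, 0, 1], ![0, -1, 0], ![0, 0, 0], ![0, 0, 0], ![0, 0, 0], ![0, 0, 1],
    ![0, -1, -1], ![0, 0, 0], ![0, 0, 0]]

def V0 : Fin 12 → Fin 3 → ℤ :=
  ![![0, 0, 1], ![0, 0, 1], ![0, 1, -1], ![0, 1, 0], ![1, 1, -1], ![0, 0, -1], ![1, -1, -1],
    ![1, 0, -1], ![0, 1, 0], ![1, -1, 0], ![1, 0, 0], ![0, -1, 1]]

def V1 : Fin 12 → Fin 3 → ℤ :=
  ![![0, 1, 0], ![0, 0, 0], ![0, 0, 0], ![0, 0, 0], ![1, 0, 0], ![1, 0, 0], ![0, 0, -1],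
    ![0, 0, 0], ![1, 0, 0], ![0, 0, 0], ![0, 0, 0], ![-1, 1, 0]]

def P (i : Fin 10) (j : Fin 12) : ℤ :=
  (U0 i 0 * V0 j 0 + U1 i 0 * V1 j 0) + (U0 i 1 * V0 j 1 + U1 i 1 * V1 j 1) +
    (U0 i 2 * V0 j 2 + U1 i 2 * V1 j 2)

def Q (i : Fin 10) (j : Fin 12) : ℤ :=
  (U0 i 0 * V1 j 0 + U1 i 0 * V0 j 0 - U1 i 0 * V1 j 0) +
    (U0 i 1 * V1 j 1 + U1 i 1 * V0 j 1 - U1 i 1 * V1 j 1) +
    (U0 i 2 * V1 j 2 + U1 i 2 * V0 j 2 - U1 i 2 * V1 j 2)

def A : Matrix (Fin 10) (Fin 12) SignType := fun i j =>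
  if 1000 * P i j + 618 * Q i j = 0 then 0 else if 0 < 1000 * P i j + 618 * Q i j then 1 else -1

theorem PQ_cases : ∀ i j, (P i j = 0 ∧ Q i j = 0) ∨
    (0 < 1000 * P i j + 618 * Q i j ∧ 0 < 1000 * P i j + 619 * Q i j) ∨
    (1000 * P i j + 618 * Q i j < 0 ∧ 1000 * P i j + 619 * Q i j < 0) := by
  decide +kernel

theorem A_cases (i : Fin 10) (j : Fin 12) : (A i j = 0 ∧ P i j = 0 ∧ Q i j = 0) ∨
    (A i j = 1 ∧ 0 < 1000 * P i j + 618 * Q i j ∧ 0 < 1000 * P i j + 619 * Q i j) ∨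
    (A i j = -1 ∧ 1000 * P i j + 618 * Q i j < 0 ∧ 1000 * P i j + 619 * Q i j < 0) := by
  rcases PQ_cases i j with ⟨p, q⟩ | ⟨p, q⟩ | ⟨p, q⟩
  · exact Or.inl ⟨by simp [A, p, q], p, q⟩
  · exact Or.inr (Or.inl ⟨by simp only [A]; rw [if_neg p.ne', if_pos p], p, q⟩)
  · exact Or.inr (Or.inr ⟨by simp only [A]; rw [if_neg p.ne, if_neg p.le.not_gt], p, q⟩)

theorem A_col : ∀ j : Fin 12, (Finset.univ.filter (fun i : Fin 10 => A i j = 0)).card ≤ 3 := by
  decide +kernel

theorem exists_tau : ∃ t : ℝ, t * t + t = 1 ∧ 618 < 1000 * t ∧ 1000 * t < 619 := by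
  have h5 : Real.sqrt 5 * Real.sqrt 5 = 5 := Real.mul_self_sqrt (by norm_num)
  have h0 : 0 ≤ Real.sqrt 5 := Real.sqrt_nonneg 5
  refine ⟨(Real.sqrt 5 - 1) / 2, by nlinarith, by nlinarith, by nlinarith⟩

section
variable {K : Type} [Field K]

theorem li (C : Matrix (Fin 10) (Fin 12) K) (hz : ∀ i j, C i j = 0 ↔ A i j = 0) :
    LinearIndependent K ![C 0, C 4, C 9] := by
  rw [Fintype.linearIndependent_iff]
  intro g hg
  have e (j : Fin 12) : g 0 * C 0 j + g 1 * C 4 j + g 2 * C 9 j = 0 := by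
    have := congrFun hg j
    simpa [Fin.sum_univ_three] using this
  have e10 := e 10
  have e3 := e 3
  have e1 := e 1
  rw [(hz 4 10).2 (by decide +kernel), (hz 9 10).2 (by decide +kernel)] at e10
  rw [(hz 0 3).2 (by decide +kernel), (hz 9 3).2 (by decide +kernel)] at e3
  rw [(hz 0 1).2 (by decide +kernel), (hz 4 1).2 (by decide +kernel)] at e1
  have n10 : C 0 10 ≠ 0 := fun h => absurd ((hz 0 10).1 h) (by decide +kernel)
  have n3 : C 4 3 ≠ 0 := fun h => absurd ((hz 4 3).1 h) (by decide +kernel)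
  have n1 : C 9 1 ≠ 0 := fun h => absurd ((hz 9 1).1 h) (by decide +kernel)
  intro i
  fin_cases i
  · simpa [n10] using e10
  · simpa [n3] using e3
  · simpa [n1] using e1

theorem span_le (C : Matrix (Fin 10) (Fin 12) K) :
    Submodule.span K (Set.range ![C 0, C 4, C 9]) ≤ Submodule.span K (Set.range C.row) := by
  apply Submodule.span_mono
  rintro _ ⟨k, rfl⟩
  fin_cases k
  · exact ⟨0, rfl⟩
  · exact ⟨4, rfl⟩
  · exact ⟨9, rfl⟩

theorem finrank_three (C : Matrix (Fin 10) (Fin 12) K) (hz : ∀ i j, C i j = 0 ↔ A i j = 0) :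
    Module.finrank K (Submodule.span K (Set.range ![C 0, C 4, C 9])) = 3 := by
  rw [finrank_span_eq_card (li C hz)]
  simp

theorem three_le (C : Matrix (Fin 10) (Fin 12) K) (hz : ∀ i j, C i j = 0 ↔ A i j = 0) :
    3 ≤ C.rank := by
  rw [Matrix.rank_eq_finrank_span_row, ← finrank_three C hz]
  exact Submodule.finrank_mono (span_le C)

theorem coeffs (C : Matrix (Fin 10) (Fin 12) K) (hz : ∀ i j, C i j = 0 ↔ A i j = 0)
    (hr : C.rank = 3) (i : Fin 10) :
    ∃ a b c : K, ∀ j, C i j = a * C 0 j + b * C 4 j + c * C 9 j := by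
  have heq : Submodule.span K (Set.range ![C 0, C 4, C 9]) = Submodule.span K (Set.range C.row) := by
    apply Submodule.eq_of_le_of_finrank_eq (span_le C)
    rw [finrank_three C hz, ← Matrix.rank_eq_finrank_span_row, hr]
  have hm : C i ∈ Submodule.span K (Set.range ![C 0, C 4, C 9]) := by
    rw [heq]
    exact Submodule.subset_span ⟨i, rfl⟩
  obtain ⟨g, hg⟩ := (Submodule.mem_span_range_iff_exists_fun K).1 hm
  refine ⟨g 0, g 1, g 2, fun j => ?_⟩
  have := congrFun hg j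
  simp only [Fin.sum_univ_three, Pi.add_apply, Pi.smul_apply, smul_eq_mul] at this
  simpa using this.symm

theorem det2 {a b c d p q : K} (hp : p ≠ 0) (h1 : a * p + b * q = 0) (h2 : c * p + d * q = 0) :
    a * d = b * c := by
  apply mul_left_cancel₀ hp
  linear_combination d * h1 - b * h2

theorem det3 {a1 b1 c1 a2 b2 c2 a3 b3 c3 p q r : K} (hp : p ≠ 0)
    (h1 : a1 * p + b1 * q + c1 * r = 0) (h2 : a2 * p + b2 * q + c2 * r = 0)
    (h3 : a3 * p + b3 * q + c3 * r = 0) :
    a1 * (b2 * c3 - b3 * c2) - a2 * (b1 * c3 - b3 * c1) + a3 * (b1 * c2 - b2 * c1) = 0 := by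
  apply mul_left_cancel₀ hp
  linear_combination (b2 * c3 - b3 * c2) * h1 - (b1 * c3 - b3 * c1) * h2 + (b1 * c2 - b2 * c1) * h3

theorem golden (C : Matrix (Fin 10) (Fin 12) K) (hz : ∀ i j, C i j = 0 ↔ A i j = 0)
    (hr : C.rank = 3) : ∃ t : K, t * t + t = 1 := by
  obtain ⟨a1, b1, c1, h1⟩ := coeffs C hz hr 1
  obtain ⟨a2, b2, c2, h2⟩ := coeffs C hz hr 2
  obtain ⟨a3, b3, c3, h3⟩ := coeffs C hz hr 3
  obtain ⟨a5, b5, c5, h5⟩ := coeffs C hz hr 5
  obtain ⟨a6, b6, c6, h6⟩ := coeffs C hz hr 6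
  obtain ⟨a7, b7, c7, h7⟩ := coeffs C hz hr 7
  obtain ⟨a8, b8, c8, h8⟩ := coeffs C hz hr 8
  have z (i : Fin 10) (j : Fin 12) (h : A i j = 0) : C i j = 0 := (hz i j).2 h
  have nz (i : Fin 10) (j : Fin 12) (h : ¬ A i j = 0) : C i j ≠ 0 := fun e => h ((hz i j).1 e)
  -- the three sides of the triangle of reference
  have cA {i : Fin 10} {a b c : K} (h : ∀ j, C i j = a * C 0 j + b * C 4 j + c * C 9 j) :
      C i 10 = a * C 0 10 := by
    rw [h 10, z 4 10 (by decide +kernel), z 9 10 (by decide +kernel)]; ring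
  have cB {i : Fin 10} {a b c : K} (h : ∀ j, C i j = a * C 0 j + b * C 4 j + c * C 9 j) :
      C i 3 = b * C 4 3 := by
    rw [h 3, z 0 3 (by decide +kernel), z 9 3 (by decide +kernel)]; ring
  have cC {i : Fin 10} {a b c : K} (h : ∀ j, C i j = a * C 0 j + b * C 4 j + c * C 9 j) :
      C i 1 = c * C 9 1 := by
    rw [h 1, z 0 1 (by decide +kernel), z 4 1 (by decide +kernel)]; ring
  have hc3 : c3 = 0 := by
    have := (cC h3).symm.trans (z 3 1 (by decide +kernel))
    exact (mul_eq_zero.1 this).resolve_right (nz 9 1 (by decide +kernel))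
  have hb6 : b6 = 0 := by
    have := (cB h6).symm.trans (z 6 3 (by decide +kernel))
    exact (mul_eq_zero.1 this).resolve_right (nz 4 3 (by decide +kernel))
  have ha8 : a8 = 0 := by
    have := (cA h8).symm.trans (z 8 10 (by decide +kernel))
    exact (mul_eq_zero.1 this).resolve_right (nz 0 10 (by decide +kernel))
  have na1 : a1 ≠ 0 := left_ne_zero_of_mul (cA h1 ▸ nz 1 10 (by decide +kernel))
  have na2 : a2 ≠ 0 := left_ne_zero_of_mul (cA h2 ▸ nz 2 10 (by decide +kernel))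
  have na3 : a3 ≠ 0 := left_ne_zero_of_mul (cA h3 ▸ nz 3 10 (by decide +kernel))
  have na5 : a5 ≠ 0 := left_ne_zero_of_mul (cA h5 ▸ nz 5 10 (by decide +kernel))
  have na6 : a6 ≠ 0 := left_ne_zero_of_mul (cA h6 ▸ nz 6 10 (by decide +kernel))
  have na7 : a7 ≠ 0 := left_ne_zero_of_mul (cA h7 ▸ nz 7 10 (by decide +kernel))
  have nb2 : b2 ≠ 0 := left_ne_zero_of_mul (cB h2 ▸ nz 2 3 (by decide +kernel))
  have nb5 : b5 ≠ 0 := left_ne_zero_of_mul (cB h5 ▸ nz 5 3 (by decide +kernel))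
  have nb8 : b8 ≠ 0 := left_ne_zero_of_mul (cB h8 ▸ nz 8 3 (by decide +kernel))
  have nc5 : c5 ≠ 0 := left_ne_zero_of_mul (cC h5 ▸ nz 5 1 (by decide +kernel))
  -- the six lines through one vertex of the triangle
  have e0 : b1 * c7 = c1 * b7 := det2 (nz 4 0 (by decide +kernel)) (q := C 9 0)
    (by linear_combination z 1 0 (by decide +kernel) - h1 0 - a1 * z 0 0 (by decide +kernel))
    (by linear_combination z 7 0 (by decide +kernel) - h7 0 - a7 * z 0 0 (by decide +kernel))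
  have e2 : b5 * c8 = c5 * b8 := det2 (nz 4 2 (by decide +kernel)) (q := C 9 2)
    (by linear_combination z 5 2 (by decide +kernel) - h5 2 - a5 * z 0 2 (by decide +kernel))
    (by linear_combination z 8 2 (by decide +kernel) - h8 2 - a8 * z 0 2 (by decide +kernel))
  have e5 : a1 * c6 = c1 * a6 := det2 (nz 0 5 (by decide +kernel)) (q := C 9 5)
    (by linear_combination z 1 5 (by decide +kernel) - h1 5 - b1 * z 4 5 (by decide +kernel))
    (by linear_combination z 6 5 (by decide +kernel) - h6 5 - b6 * z 4 5 (by decide +kernel))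
  have e7 : a2 * c5 = c2 * a5 := det2 (nz 0 7 (by decide +kernel)) (q := C 9 7)
    (by linear_combination z 2 7 (by decide +kernel) - h2 7 - b2 * z 4 7 (by decide +kernel))
    (by linear_combination z 5 7 (by decide +kernel) - h5 7 - b5 * z 4 7 (by decide +kernel))
  have e8 : a2 * b7 = b2 * a7 := det2 (nz 0 8 (by decide +kernel)) (q := C 4 8)
    (by linear_combination z 2 8 (by decide +kernel) - h2 8 - c2 * z 9 8 (by decide +kernel))
    (by linear_combination z 7 8 (by decide +kernel) - h7 8 - c7 * z 9 8 (by decide +kernel))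
  have e9 : a3 * b5 = b3 * a5 := det2 (nz 0 9 (by decide +kernel)) (q := C 4 9)
    (by linear_combination z 3 9 (by decide +kernel) - h3 9 - c3 * z 9 9 (by decide +kernel))
    (by linear_combination z 5 9 (by decide +kernel) - h5 9 - c5 * z 9 9 (by decide +kernel))
  -- the three remaining lines
  have e4 := det3 (nz 0 4 (by decide +kernel)) ((h1 4).symm.trans (z 1 4 (by decide +kernel)))
    ((h2 4).symm.trans (z 2 4 (by decide +kernel))) ((h8 4).symm.trans (z 8 4 (by decide +kernel)))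
  have e6 := det3 (nz 0 6 (by decide +kernel)) ((h2 6).symm.trans (z 2 6 (by decide +kernel)))
    ((h3 6).symm.trans (z 3 6 (by decide +kernel))) ((h6 6).symm.trans (z 6 6 (by decide +kernel)))
  have e11 := det3 (nz 0 11 (by decide +kernel)) ((h5 11).symm.trans (z 5 11 (by decide +kernel)))
    ((h6 11).symm.trans (z 6 11 (by decide +kernel)))
    ((h7 11).symm.trans (z 7 11 (by decide +kernel)))
  clear cA cB cC z nz h1 h2 h3 h5 h6 h7 h8 hz hr
  subst hc3 hb6 ha8
  obtain ⟨t, rfl⟩ : ∃ t, c6 = a6 / a5 * t * c5 := ⟨c6 * a5 / (a6 * c5), by field_simp⟩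
  obtain ⟨m, rfl⟩ : ∃ m, b2 = a2 / a5 * m * b5 := ⟨b2 * a5 / (a2 * b5), by field_simp⟩
  obtain ⟨y, rfl⟩ : ∃ y, b1 = a1 / a5 * y * b5 := ⟨b1 * a5 / (a1 * b5), by field_simp⟩
  obtain ⟨w, rfl⟩ : ∃ w, c7 = a7 / a5 * w * c5 := ⟨c7 * a5 / (a7 * c5), by field_simp⟩
  obtain rfl : c8 = c5 * b8 / b5 := by field_simp; linear_combination e2
  obtain rfl : c1 = a1 / a5 * t * c5 := by
    apply mul_right_cancel₀ na6
    rw [← e5]; ring
  obtain rfl : c2 = a2 * c5 / a5 := by field_simp; linear_combination -e7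
  obtain rfl : b7 = a7 / a5 * m * b5 := by
    apply mul_left_cancel₀ na2
    rw [e8]; ring
  obtain rfl : b3 = a3 * b5 / a5 := by field_simp; linear_combination -e9
  have nm : m ≠ 0 := by
    rintro rfl
    simp at nb2
  have f0 : y * w = t * m := by
    field_simp at e0
    linear_combination e0
  have f4 : m - 1 - y + t = 0 := by
    have hn : a1 * a2 * c5 * b8 / a5 ≠ 0 := by simp [*]
    apply mul_left_cancel₀ hn
    rw [mul_zero, ← e4]
    field_simp
    ring
  have f6 : t - m * t - 1 = 0 := by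
    have hn : a2 * a3 * b5 * a6 * c5 / a5 ^ 2 ≠ 0 := by simp [*]
    apply mul_left_cancel₀ hn
    rw [mul_zero, ← e6]
    field_simp
    ring
  have f11 : -(t * m) - w + t + m = 0 := by
    have hn : a7 * c5 * b5 * a6 / a5 ≠ 0 := by simp [*]
    apply mul_left_cancel₀ hn
    rw [mul_zero, ← e11]
    field_simp
    ring
  have hw : w = m + 1 := by linear_combination f6 - f11
  have hy : y = m - 1 + t := by linear_combination -f4
  subst hw hy
  have hm : m * (m + t) = 0 := by linear_combination f0 - f6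
  have hmt : m = -t := by linear_combination (mul_eq_zero.1 hm).resolve_left nm
  subst hmt
  exact ⟨t, by linear_combination f6⟩

end

theorem no_rat (t : ℚ) : t * t + t ≠ 1 := by
  intro h
  have h5 : IsSquare (5 : ℚ) := ⟨2 * t + 1, by linear_combination (-4) * h⟩
  have : IsSquare (5 : ℕ) := by exact_mod_cast h5
  revert this
  decide +kernel

/-- The negation of the preceding statement. -/
theorem result :
    ¬ (∀ (m n r : ℕ) (A : Matrix (Fin m) (Fin n) SignType),
      3 ≤ r →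
      (∃ B : Matrix (Fin m) (Fin n) ℝ,
          (∀ i j, SignType.sign (B i j) = A i j) ∧ B.rank = r) →
      (∀ B : Matrix (Fin m) (Fin n) ℝ,
          (∀ i j, SignType.sign (B i j) = A i j) → r ≤ B.rank) →
      (∀ j : Fin n, (Finset.univ.filter (fun i : Fin m => A i j = 0)).card ≤ r) →
      ∃ C : Matrix (Fin m) (Fin n) ℚ,
        (∀ i j, SignType.sign (C i j) = A i j) ∧ C.rank = r) := by
  intro h
  have hlow : ∀ B : Matrix (Fin 10) (Fin 12) ℝ,
      (∀ i j, SignType.sign (B i j) = A i j) → 3 ≤ B.rank := fun B hB =>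
    three_le B fun i j => by rw [← hB i j, sign_eq_zero_iff]
  obtain ⟨C, hC, hr⟩ := h 10 12 3 A le_rfl (by
    obtain ⟨t, ht, ht1, ht2⟩ := exists_tau
    let U : Matrix (Fin 10) (Fin 3) ℝ := fun i k => (U0 i k : ℝ) + U1 i k * t
    let V : Matrix (Fin 3) (Fin 12) ℝ := fun k j => (V0 j k : ℝ) + V1 j k * t
    have hs : ∀ i j, SignType.sign ((U * V) i j) = A i j := by
      intro i j
      have e : (U * V) i j = (P i j : ℝ) + Q i j * t := by
        rw [Matrix.mul_apply, Fin.sum_univ_three]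
        simp only [U, V, P, Q]
        push_cast
        linear_combination ((U1 i 0 : ℝ) * V1 j 0 + U1 i 1 * V1 j 1 + U1 i 2 * V1 j 2) * ht
      rw [e]
      rcases A_cases i j with ⟨a, p, q⟩ | ⟨a, p, q⟩ | ⟨a, p, q⟩
      · rw [a, p, q]; simp
      · rw [a, sign_eq_one_iff]
        have p' : (0 : ℝ) < 1000 * P i j + 618 * Q i j := by exact_mod_cast p
        have q' : (0 : ℝ) < 1000 * P i j + 619 * Q i j := by exact_mod_cast q
        rcases le_total 0 (Q i j : ℝ) with hq | hq <;> nlinarith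
      · rw [a, sign_eq_neg_one_iff]
        have p' : (1000 * P i j + 618 * Q i j : ℝ) < 0 := by exact_mod_cast p
        have q' : (1000 * P i j + 619 * Q i j : ℝ) < 0 := by exact_mod_cast q
        rcases le_total 0 (Q i j : ℝ) with hq | hq <;> nlinarith
    refine ⟨U * V, hs, le_antisymm ?_ (hlow _ hs)⟩
    exact (Matrix.rank_mul_le_left U V).trans (by simpa using Matrix.rank_le_width U)) hlow A_col
  obtain ⟨t, ht⟩ := golden C (fun i j => by rw [← hC i j, sign_eq_zero_iff]) hr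
  exact no_rat t ht

end Pool.Agent.S07344
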