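import Pool.Statements.S07369
import Pool.Agent.H18.Tmr.Main

set_option autoImplicit false
open Pool Pool.MP_172ed5_co

namespace Pool.Agent.S07369

open Matrix Finset Pool.Agent.H18.Tmr

abbrev Mat (n : ℕ) := Matrix (Fin n) (Fin n) F

lemma two (z : F) : z + z = 0 := by revert z; decide
lemma sq (z : F) : z * z = z := by revert z; decide

lemma quad {n : ℕ} {M : Mat n} (hM : M.IsSymm) (c : Fin n → F) :
    c ⬝ᵥ M *ᵥ c = c ⬝ᵥ fun i => M i i := by
  simp only [dotProduct, mulVec, Finset.mul_sum]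
  rw [← Finset.sum_product', ← Finset.diag_union_offDiag, Finset.sum_union (disjoint_diag_offDiag _),
    Finset.sum_diag, Finset.sum_involution (s := univ.offDiag) (fun p _ => p.swap), add_zero]
  · exact Finset.sum_congr rfl fun i _ => by rw [mul_left_comm, sq, mul_comm]
  · intro p _
    rw [Prod.fst_swap, Prod.snd_swap, hM.apply p.1 p.2,
      show c p.2 * (M p.1 p.2 * c p.1) = c p.1 * (M p.1 p.2 * c p.2) by ring, two]
  · intro p hp _ h
    exact (mem_offDiag.1 hp).2.2 (congrArg Prod.snd h)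
  · intro p hp
    simp only [mem_offDiag, mem_univ, true_and] at hp ⊢
    exact fun h => hp h.symm
  · intro p _; rfl

/-- A non-alternating symmetric matrix of rank at most `r` is a sum of `r` squares. -/
lemma factor {n : ℕ} (r : ℕ) : ∀ M : Mat n, M.IsSymm → (∃ i, M i i = 1) → M.rank ≤ r →
    ∃ x : Fin n → Fin r → F, ∀ u v, M u v = ∑ k, x u k * x v k := by
  induction r with
  | zero =>
    rintro M - ⟨i, hi⟩ hr
    have h0 : LinearMap.range M.mulVecLin = ⊥ := Submodule.finrank_eq_zero.1 (Nat.le_zero.1 hr)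
    have : M *ᵥ Pi.single i 1 = 0 := by
      have : M *ᵥ Pi.single i 1 ∈ LinearMap.range M.mulVecLin := ⟨_, rfl⟩
      rwa [h0, Submodule.mem_bot] at this
    have := congrFun this i
    simp [hi] at this
  | succ r ih =>
    rintro M hM ⟨i, hi⟩ hr
    set d : Fin n → F := fun i => M i i with hd
    by_cases h : ∀ c, c ⬝ᵥ d = 1 → M *ᵥ c = d
    · refine ⟨fun u => Fin.cons (d u) 0, fun u v => ?_⟩
      simp only [Fin.sum_univ_succ, Fin.cons_zero, Fin.cons_succ, Pi.zero_apply, mul_zero,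
        Finset.sum_const_zero, add_zero]
      rcases F_cases (d v) with e | e
      · have h1 := congrFun (h (Pi.single i 1) (by simp [hd, hi])) u
        have h2 := congrFun (h (Pi.single i 1 + Pi.single v 1)
          (by rw [add_dotProduct, single_dotProduct, single_dotProduct, e]; simp [hd, hi])) u
        rw [mulVec_add, Pi.add_apply, h1] at h2
        rw [e, mul_zero]
        simpa using h2
      · have h1 := congrFun (h (Pi.single v 1) (by rw [single_dotProduct, e, one_mul])) u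
        rw [e, mul_one, ← h1]
        simp
    · push Not at h
      obtain ⟨c, hc, hne⟩ := h
      set y := M *ᵥ c with hy
      have hcy : c ⬝ᵥ y = 1 := by rw [hy, quad hM, hc]
      have hs : (M + vecMulVec y y).IsSymm := by
        rw [IsSymm, transpose_add, transpose_vecMulVec, hM.eq]
      have hlt : (M + vecMulVec y y).rank < M.rank := by
        refine Submodule.finrank_lt_finrank_of_lt (lt_of_le_of_ne ?_ fun e => ?_)
        · rintro _ ⟨v, rfl⟩
          refine ⟨v + (y ⬝ᵥ v) • c, ?_⟩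
          simp only [mulVecLin_apply, mulVec_add, add_mulVec, mulVec_smul, vecMulVec_mulVec, ← hy]
          simp
        · have : y ∈ LinearMap.range (M + vecMulVec y y).mulVecLin := by rw [e]; exact ⟨c, rfl⟩
          obtain ⟨v, hv⟩ := this
          have h1 : c ⬝ᵥ (M + vecMulVec y y) *ᵥ v = 0 := by
            rw [dotProduct_mulVec, ← mulVec_transpose, hs.eq, add_mulVec, vecMulVec_mulVec, ← hy,
              dotProduct_comm y c, hcy]
            have : y + MulOpposite.op (1 : F) • y = 0 := by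
              funext k; simp [two]
            rw [this, zero_dotProduct]
          rw [mulVecLin_apply] at hv
          rw [hv, hcy] at h1
          exact one_ne_zero h1
      obtain ⟨j, hj⟩ := Function.ne_iff.1 hne
      obtain ⟨x, hx⟩ := ih _ hs ⟨j, by
        rw [Matrix.add_apply, vecMulVec_apply, sq]
        change d j + y j = 1
        revert hj
        generalize d j = a
        generalize y j = b
        revert a b
        decide⟩ (by omega)
      refine ⟨fun u => Fin.cons (y u) (x u), fun u v => ?_⟩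
      simp only [Fin.sum_univ_succ, Fin.cons_zero, Fin.cons_succ]
      rw [← hx, Matrix.add_apply, vecMulVec_apply, add_left_comm, two, add_zero]

lemma rank_add {n : ℕ} (M : Mat n) (w : Fin n → F) : (M + vecMulVec w w).rank ≤ M.rank + 1 := by
  have h : LinearMap.range (M + vecMulVec w w).mulVecLin ≤
      LinearMap.range M.mulVecLin ⊔ LinearMap.range (vecMulVec w w).mulVecLin := by
    rw [mulVecLin_add]; exact LinearMap.range_add_le _ _
  exact (Submodule.finrank_mono h).trans ((Submodule.finrank_add_le_finrank_add_finrank _ _).trans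
    (Nat.add_le_add_left (rank_vecMulVec_le w w) _))

/-- `M` records the arcs of the tournament of `A` that are backward for `f`. -/
def Rep {n : ℕ} (A : Mat n) (f : Fin n → ℕ) (M : Mat n) : Prop :=
  ∀ u v, u ≠ v → M u v = A u v + if (u < v ↔ f u < f v) then 0 else 1

lemma rep_iff {n : ℕ} {A : Mat n} (hA : A.IsSymm) {f : Fin n → ℕ} (hf : Function.Injective f)
    (M : Mat n) : Rep A f M ↔
      ∀ u v, u ≠ v → (M u v = 1 ↔ ((Tn A u v ∧ f v < f u) ∨ (Tn A v u ∧ f u < f v))) := by
  refine forall_congr' fun u => forall_congr' fun v => forall_congr' fun h => ?_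
  unfold Tn
  rw [hA.apply u v]
  rcases lt_or_gt_of_ne h with h1 | h1 <;> rcases lt_or_gt_of_ne (hf.ne h) with h2 | h2 <;>
    rcases F_cases (A u v) with h3 | h3 <;> rcases F_cases (M u v) with h4 | h4 <;>
    simp [h1, h2, h3, h4, h1.not_gt, h2.not_gt, two]

noncomputable def tm {n : ℕ} (A : Mat n) : ℕ :=
  sInf {r : ℕ | ∃ f : Fin n → ℕ, Function.Injective f ∧
    ∃ M : Matrix (Fin n) (Fin n) (ZMod 2), M.IsSymm ∧
      (∀ u v, u ≠ v → (M u v = 1 ↔ ((Tn A u v ∧ f v < f u) ∨ (Tn A v u ∧ f u < f v)))) ∧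
      M.rank = r}

def IS {V : Type} [DecidableEq V] (D : V → V → Prop) : Set ℕ :=
  {k : ℕ | ∃ X : Fin k → Finset V, ∃ f : V → ℕ, ∀ u v,
    ((D u v ∧ Even (Finset.univ.filter (fun i => u ∈ X i ∧ v ∈ X i)).card) ∨
     (D v u ∧ Odd (Finset.univ.filter (fun i => u ∈ X i ∧ v ∈ X i)).card)) → f u < f v}

lemma card_cast {V : Type} [DecidableEq V] {m : ℕ} (X : Fin m → Finset V) (x : V → Fin m → F)
    (h : ∀ u j, u ∈ X j ↔ x u j = 1) (u v : V) :
    (((univ.filter (fun i => u ∈ X i ∧ v ∈ X i)).card : ℕ) : F) = ∑ j, x u j * x v j := by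
  rw [Finset.card_filter]
  push_cast
  refine Finset.sum_congr rfl fun j _ => ?_
  simp only [h]
  rcases F_cases (x u j) with a | a <;> rcases F_cases (x v j) with b | b <;> simp [a, b]

lemma mem_IS {V : Type} [Fintype V] [DecidableEq V] (D : V → V → Prop) (m : ℕ) :
    m ∈ IS D ↔ ∃ x : V → Fin m → F, ∃ f : V → ℕ, ∀ u v,
      (D u v ∧ ∑ j, x u j * x v j = 0) ∨ (D v u ∧ ∑ j, x u j * x v j = 1) → f u < f v := by
  constructor
  · rintro ⟨X, f, h⟩
    let x : V → Fin m → F := fun u j => if u ∈ X j then 1 else 0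
    have hx : ∀ u j, u ∈ X j ↔ x u j = 1 := fun u j => by
      by_cases hh : u ∈ X j <;> simp [x, hh]
    refine ⟨x, f, fun u v huv => h u v ?_⟩
    rw [← ZMod.natCast_eq_zero_iff_even, ← ZMod.natCast_eq_one_iff_odd, card_cast X x hx]
    exact huv
  · rintro ⟨x, f, h⟩
    refine ⟨fun j => univ.filter fun u => x u j = 1, f, fun u v huv => h u v ?_⟩
    rw [← ZMod.natCast_eq_zero_iff_even, ← ZMod.natCast_eq_one_iff_odd,
      card_cast (fun j => univ.filter fun u => x u j = 1) x (fun _ _ => by simp)] at huv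
    exact huv

lemma tm_le {n : ℕ} {A M : Mat n} (hA : A.IsSymm) {f : Fin n → ℕ} (hf : Function.Injective f)
    (hM : M.IsSymm) (h : Rep A f M) : tm A ≤ M.rank :=
  Nat.sInf_le ⟨f, hf, M, hM, (rep_iff hA hf M).1 h, rfl⟩

lemma tm_spec {n : ℕ} {A : Mat n} (hA : A.IsSymm) : ∃ f : Fin n → ℕ, Function.Injective f ∧
    ∃ M : Mat n, M.IsSymm ∧ Rep A f M ∧ M.rank = tm A := by
  obtain ⟨f, hf, M, h1, h2, h3⟩ := Nat.sInf_mem (s := {r : ℕ | ∃ f : Fin n → ℕ,
    Function.Injective f ∧ ∃ M : Matrix (Fin n) (Fin n) (ZMod 2), M.IsSymm ∧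
      (∀ u v, u ≠ v → (M u v = 1 ↔ ((Tn A u v ∧ f v < f u) ∨ (Tn A v u ∧ f u < f v)))) ∧
      M.rank = r}) ⟨_, Fin.val, Fin.val_injective, A, hA,
        (rep_iff hA Fin.val_injective A).1 (fun u v _ => by simp), rfl⟩
  exact ⟨f, hf, M, h1, (rep_iff hA hf M).2 h2, h3⟩

lemma inv_eq {n : ℕ} {A M : Mat n} (hA : A.IsSymm) {f : Fin n → ℕ} (hf : Function.Injective f)
    (hM : M.IsSymm) (h : Rep A f M) (hr : M.rank ≤ tm A) (hd : ∃ i, M i i = 1) :
    sInf (IS (Tn A)) = tm A := by
  obtain ⟨x, hx⟩ := factor _ M hM hd hr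
  have h1 : tm A ∈ IS (Tn A) := by
    refine (mem_IS _ _).2 ⟨x, f, fun u v huv => ?_⟩
    have hne : u ≠ v := by
      rintro rfl
      rcases huv with e | e <;> exact Tn_irrefl A u e.1
    have h2 := (rep_iff hA hf M).1 h u v hne
    have h3 := Tn_tour hA u v hne
    rw [← hx] at huv
    rcases lt_or_gt_of_ne (hf.ne hne) with e | e
    · exact e
    · rcases huv with ⟨a, b⟩ | ⟨a, b⟩
      · exact absurd (h2.2 (Or.inl ⟨a, e⟩)) (by rw [b]; decide)
      · rcases h2.1 b with c | c
        · exact absurd a (h3.1 c.1)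
        · exact c.2
  refine le_antisymm (Nat.sInf_le h1) (le_csInf ⟨_, h1⟩ fun k hk => ?_)
  obtain ⟨y, g, hg⟩ := (mem_IS _ _).1 hk
  let Y : Matrix (Fin n) (Fin k) F := Matrix.of y
  have e : ∀ u v, (Y * Yᵀ) u v = ∑ j, y u j * y v j := fun u v => by simp [Y, mul_apply]
  have hs : (Y * Yᵀ).IsSymm := by rw [IsSymm, transpose_mul, transpose_transpose]
  have key : ∀ u v, u ≠ v → (Tn A u v ↔ (Y * Yᵀ) u v = 0) → g u < g v := fun u v hne hh => by
    refine hg u v ?_
    rw [← e]
    rcases F_cases ((Y * Yᵀ) u v) with a | a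
    · exact Or.inl ⟨hh.2 a, a⟩
    · refine Or.inr ⟨(Tn_tour hA v u hne.symm).2 fun c => ?_, a⟩
      rw [hh.1 c] at a
      exact zero_ne_one a
  have key2 : ∀ u v, u ≠ v → ¬ (Tn A u v ↔ (Y * Yᵀ) u v = 0) → g v < g u := fun u v hne hh => by
    refine key v u hne.symm ?_
    rw [hs.apply u v, Tn_tour hA v u hne.symm]
    tauto
  have hgi : Function.Injective g := fun u v huv => by
    by_contra hne
    by_cases hh : (Tn A u v ↔ (Y * Yᵀ) u v = 0)
    · exact (key u v hne hh).ne huv
    · exact (key2 u v hne hh).ne huv.symm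
  refine (tm_le hA hgi hs ((rep_iff hA hgi _).2 fun u v hne => ?_)).trans
    ((rank_mul_le_left _ _).trans ((rank_le_card_width _).trans (by simp)))
  have h3 := Tn_tour hA v u hne.symm
  have h4 := key u v hne
  have h5 := key2 u v hne
  rw [h3]
  rcases F_cases ((Y * Yᵀ) u v) with a | a <;> by_cases b : Tn A u v <;>
    simp only [a, b] at h4 h5 ⊢ <;> simp at h4 h5 ⊢ <;> omega

lemma step {n s : ℕ} {A B : Mat n} (hA : A.IsSymm) (hB : B.IsSymm) (w : Fin n → F)
    (h : ∀ u v, u ≠ v → B u v = A u v + w u * w v) (h1 : tm A ≤ s) (h2 : s < tm B) :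
    (sInf (IS (Tn A)) = tm A ∧ s ≤ tm A) ∨ (sInf (IS (Tn B)) = tm B ∧ s ≤ tm B) := by
  obtain ⟨f, hf, M, hM, hr, e⟩ := tm_spec hA
  have hs : (M + vecMulVec w w).IsSymm := by
    rw [IsSymm, transpose_add, transpose_vecMulVec, hM.eq]
  have hr' : Rep B f (M + vecMulVec w w) := fun u v hne => by
    rw [Matrix.add_apply, vecMulVec_apply, hr u v hne, h u v hne]; ring
  have h3 := tm_le hB hf hs hr'
  have h4 := rank_add M w
  by_cases hd : ∃ i, M i i = 1
  · exact Or.inl ⟨inv_eq hA hf hM hr e.le hd, by omega⟩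
  · refine Or.inr ⟨inv_eq hB hf hs hr' (by omega) ?_, h2.le⟩
    by_contra hc
    have : w = 0 := funext fun i => by
      have a : M i i = 0 := (F_cases _).resolve_right fun a => hd ⟨i, a⟩
      have b : (M + vecMulVec w w) i i = 0 := (F_cases _).resolve_right fun a => hc ⟨i, a⟩
      rwa [Matrix.add_apply, vecMulVec_apply, sq, a, zero_add] at b
    rw [this, vecMulVec_zero, add_zero] at h3
    omega

/-- The matrix `A` cut down to the vertices with `ρ < j`, plus a square. -/
def cut {n : ℕ} (A : Mat n) (ρ : Fin n → ℕ) (j : ℕ) (w : Fin n → F) : Mat n :=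
  fun u v => (if ρ u < j ∧ ρ v < j then A u v else 0) + w u * w v

lemma cut_symm {n : ℕ} {A : Mat n} (hA : A.IsSymm) (ρ : Fin n → ℕ) (j : ℕ) (w : Fin n → F) :
    (cut A ρ j w).IsSymm := by
  ext u v
  simp only [transpose_apply, cut, hA.apply u v, and_comm, mul_comm]

lemma walk {n s : ℕ} {A : Mat n} (hA : A.IsSymm) (hb : ¬ Bad s A) (ρ : Fin n → ℕ)
    (hρ : Function.Injective ρ) (hn : ∀ u, ρ u < n) :
    ∃ j w, sInf (IS (Tn (cut A ρ j w))) = tm (cut A ρ j w) ∧ s ≤ tm (cut A ρ j w) := by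
  have h0 : tm (cut A ρ 0 0) ≤ s := by
    refine (tm_le (M := 0) (cut_symm hA _ _ _) Fin.val_injective isSymm_zero
      fun u v _ => by simp [cut]).trans (by simp)
  have h1 : s < tm (cut A ρ n 0) := by
    have e : cut A ρ n 0 = A := by ext u v; simp [cut, hn]
    rw [e]
    by_contra hc
    obtain ⟨f, hf, M, hM, hr, e⟩ := tm_spec hA
    refine hb ⟨M, hM, by omega, f, fun u v hne hh => ?_⟩
    have h2 := (rep_iff hA hf M).1 hr u v hne
    have h3 := Tn_tour hA v u hne.symm
    rcases lt_or_gt_of_ne (hf.ne hne) with a | a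
    · exact a
    · rcases F_cases (M u v) with b | b
      · exact absurd (h2.2 (Or.inl ⟨hh.2 b, a⟩)) (by rw [b]; decide)
      · rcases h2.1 b with c | c
        · exact absurd (hh.1 c.1) (by rw [b]; decide)
        · exact c.2
  obtain ⟨j, hj1, hj2⟩ : ∃ j, tm (cut A ρ j 0) ≤ s ∧ s < tm (cut A ρ (j + 1) 0) := by
    by_contra hc
    push Not at hc
    have : ∀ j, tm (cut A ρ j 0) ≤ s := fun j => by
      induction j with
      | zero => exact h0
      | succ j ih => exact hc j ih
    exact absurd (this n) (not_le.2 h1)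
  by_cases hv : ∃ z, ρ z = j
  · obtain ⟨z, hz⟩ := hv
    let a : Fin n → F := fun u => if ρ u < j then A z u else 0
    let b : Fin n → F := fun u => if u = z then 1 else a u
    by_cases hc : tm (cut A ρ j a) ≤ s
    · rcases step (cut_symm hA ρ j a) (cut_symm hA ρ (j + 1) 0) b (fun u v hne => by
        have e1 : ∀ u, u ≠ z → (ρ u < j + 1 ↔ ρ u < j) := fun u hu => by
          have : ρ u ≠ j := fun e => hu (hρ (e.trans hz.symm))
          omega
        by_cases hu : u = z
        · subst hu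
          have := e1 v hne.symm
          by_cases hv : ρ v < j <;> simp [cut, a, b, hz, hne.symm, this, hv]
        · by_cases hv : v = z
          · subst hv
            have := e1 u hu
            by_cases hv : ρ u < j <;> simp [cut, a, b, hz, hu, this, hv, hA.apply u v]
          · simp only [cut, b, if_neg hu, if_neg hv, e1 u hu, e1 v hv, add_assoc, two]
            simp) hc hj2 with h | h
      exacts [⟨_, _, h⟩, ⟨_, _, h⟩]
    · rcases step (cut_symm hA ρ j 0) (cut_symm hA ρ j a) a (fun u v _ => by simp [cut]) hj1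
        (not_le.1 hc) with h | h
      exacts [⟨_, _, h⟩, ⟨_, _, h⟩]
  · have : cut A ρ (j + 1) 0 = cut A ρ j 0 := by
      have e1 : ∀ u, (ρ u < j + 1 ↔ ρ u < j) := fun u => by
        have : ρ u ≠ j := fun e => hv ⟨u, e⟩
        omega
      ext u v
      simp only [cut, e1]
    rw [this] at hj2
    omega

lemma Tn_lt {n : ℕ} {A : Mat n} (hA : A.IsSymm) {u v : Fin n}
    (h : (Tn A u v ∧ A u v = 0) ∨ (Tn A v u ∧ A u v = 1)) : u.1 < v.1 := by
  unfold Tn at h
  rw [hA.apply u v] at h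
  rcases h with ⟨h | h, e⟩ | ⟨h | h, e⟩
  · exact h.1
  · rw [e] at h; exact absurd h.2 zero_ne_one
  · rw [e] at h; exact absurd h.2 one_ne_zero
  · exact h.1

def Jn {n : ℕ} (D₁ D₂ : Fin n → Fin n → Prop) (x y : Fin n ⊕ Fin n) : Prop :=
  (∃ a b, x = Sum.inl a ∧ y = Sum.inl b ∧ D₁ a b) ∨
    (∃ a b, x = Sum.inr a ∧ y = Sum.inr b ∧ D₂ a b) ∨ (∃ a b, x = Sum.inl a ∧ y = Sum.inr b)

lemma join {n : ℕ} (P R : Mat n) (hPR : P * R = St n) (j k : ℕ) (w z : Fin n → F) :
    n + 1 + 1 ∈ IS (Jn (Tn (cut (P * Pᵀ) (fun u => n - 1 - u) j w))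
      (Tn (cut (Rᵀ * R) (fun u => u) k z))) := by
  have hst : ∀ u v, ∑ i, P u i * R i v = if v ≤ u then 1 else 0 := fun u v => by
    have := congrFun (congrFun hPR u) v
    rwa [Matrix.mul_apply] at this
  have s1 := cut_symm (isSymm_mul_transpose_self P) (fun u => n - 1 - u) j w
  have s2 := cut_symm (isSymm_transpose_mul_self R) (fun u => u) k z
  refine (mem_IS _ _).2 ⟨Sum.elim
    (fun u => Fin.cons (w u) (Fin.cons 0 fun i => if n - 1 - u < j then P u i else 0))
    (fun u => Fin.cons 0 (Fin.cons (z u) fun i => if u < k then R i u else 0)),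
    Sum.elim (fun u => if n - 1 - u < j then n + 2 * u + 1 else u)
      (fun u => if u < k then n + 2 * u else 3 * n + 1 + u), ?_⟩
  have mix : ∀ u v : Fin n, ∑ i, (if n - 1 - u < j then P u i else 0) *
      (if v < k then R i v else 0) = if n - 1 - u < j ∧ v < k ∧ v.1 ≤ u.1 then 1 else 0 := by
    intro u v
    by_cases a : n - 1 - u < j <;> by_cases b : v < k <;> simp [a, b, hst]
  rintro (u | u) (v | v) h <;>
    simp only [Jn, Sum.elim_inl, Sum.elim_inr, Fin.sum_univ_succ, Fin.cons_zero, Fin.cons_succ,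
      Sum.inl.injEq, Sum.inr.injEq, reduceCtorEq, false_and, and_false, exists_false, or_false,
      false_or, exists_and_left, exists_eq_left', mul_zero, zero_mul, zero_add, exists_eq',
      true_and, and_self] at h ⊢
  · have e : w u * w v + ∑ i, (if n - 1 - u < j then P u i else 0) *
        (if n - 1 - v < j then P v i else 0) = cut (P * Pᵀ) (fun u => n - 1 - u) j w u v := by
      rw [add_comm, cut]
      by_cases a : n - 1 - u < j <;> by_cases b : n - 1 - v < j <;> simp [a, b, mul_apply]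
    rw [e] at h
    have := Tn_lt s1 h
    have := u.2
    have := v.2
    split_ifs <;> omega
  · rw [mix] at h
    have := u.2
    have := v.2
    have h' : ¬ (n - 1 - u < j ∧ v < k ∧ v.1 ≤ u.1) := fun c => by
      rw [if_pos c] at h; exact one_ne_zero h
    split_ifs <;> omega
  · simp only [mul_comm (if u < k then R _ u else 0)] at h
    rw [mix] at h
    have h' : n - 1 - v < j ∧ u < k ∧ u.1 ≤ v.1 := by
      by_contra c
      rw [if_neg c] at h; exact zero_ne_one h
    rw [if_pos h'.1, if_pos h'.2.1]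
    omega
  · have e : z u * z v + ∑ i, (if u < k then R i u else 0) * (if v < k then R i v else 0) =
        cut (Rᵀ * R) (fun u => u) k z u v := by
      rw [add_comm, cut]
      by_cases a : u < k <;> by_cases b : v < k <;> simp [a, b, mul_apply]
    rw [e] at h
    have := Tn_lt s2 h
    have := u.2
    have := v.2
    split_ifs <;> omega

/-- There are tournaments D1, D2, each with inversion number equal to its tournament minimum rank (min over vertex orders of GF(2) minimum rank of the backward-arc graph), such that the dijoin D1→D2 has inversion number below inv(D1)+inv(D2). -/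
theorem result :
  ∃ (n m : ℕ) (D₁ : Fin n → Fin n → Prop) (D₂ : Fin m → Fin m → Prop),
    ((∀ u, ¬ D₁ u u) ∧ ∀ u v, u ≠ v → (D₁ u v ↔ ¬ D₁ v u)) ∧
    ((∀ u, ¬ D₂ u u) ∧ ∀ u v, u ≠ v → (D₂ u v ↔ ¬ D₂ v u)) ∧
    sInf {k : ℕ | ∃ X : Fin k → Finset (Fin n), ∃ f : Fin n → ℕ, ∀ u v,
        ((D₁ u v ∧ Even (Finset.univ.filter (fun i => u ∈ X i ∧ v ∈ X i)).card) ∨
         (D₁ v u ∧ Odd (Finset.univ.filter (fun i => u ∈ X i ∧ v ∈ X i)).card)) → f u < f v}
      = sInf {r : ℕ | ∃ f : Fin n → ℕ, Function.Injective f ∧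
          ∃ M : Matrix (Fin n) (Fin n) (ZMod 2), M.IsSymm ∧
            (∀ u v, u ≠ v → (M u v = 1 ↔ ((D₁ u v ∧ f v < f u) ∨ (D₁ v u ∧ f u < f v)))) ∧
            M.rank = r} ∧
    sInf {k : ℕ | ∃ X : Fin k → Finset (Fin m), ∃ f : Fin m → ℕ, ∀ u v,
        ((D₂ u v ∧ Even (Finset.univ.filter (fun i => u ∈ X i ∧ v ∈ X i)).card) ∨
         (D₂ v u ∧ Odd (Finset.univ.filter (fun i => u ∈ X i ∧ v ∈ X i)).card)) → f u < f v}
      = sInf {r : ℕ | ∃ f : Fin m → ℕ, Function.Injective f ∧
          ∃ M : Matrix (Fin m) (Fin m) (ZMod 2), M.IsSymm ∧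
            (∀ u v, u ≠ v → (M u v = 1 ↔ ((D₂ u v ∧ f v < f u) ∨ (D₂ v u ∧ f u < f v)))) ∧
            M.rank = r} ∧
    ∃ J : Fin n ⊕ Fin m → Fin n ⊕ Fin m → Prop,
      (∀ x y, J x y ↔
        ((∃ a b, x = Sum.inl a ∧ y = Sum.inl b ∧ D₁ a b) ∨
         (∃ a b, x = Sum.inr a ∧ y = Sum.inr b ∧ D₂ a b) ∨
         (∃ a b, x = Sum.inl a ∧ y = Sum.inr b))) ∧
      sInf {k : ℕ | ∃ X : Fin k → Finset (Fin n ⊕ Fin m), ∃ f : Fin n ⊕ Fin m → ℕ, ∀ u v,
          ((J u v ∧ Even (Finset.univ.filter (fun i => u ∈ X i ∧ v ∈ X i)).card) ∨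
           (J v u ∧ Odd (Finset.univ.filter (fun i => u ∈ X i ∧ v ∈ X i)).card)) → f u < f v}
        <
      sInf {k : ℕ | ∃ X : Fin k → Finset (Fin n), ∃ f : Fin n → ℕ, ∀ u v,
          ((D₁ u v ∧ Even (Finset.univ.filter (fun i => u ∈ X i ∧ v ∈ X i)).card) ∨
           (D₁ v u ∧ Odd (Finset.univ.filter (fun i => u ∈ X i ∧ v ∈ X i)).card)) → f u < f v}
      + sInf {k : ℕ | ∃ X : Fin k → Finset (Fin m), ∃ f : Fin m → ℕ, ∀ u v,
          ((D₂ u v ∧ Even (Finset.univ.filter (fun i => u ∈ X i ∧ v ∈ X i)).card) ∨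
           (D₂ v u ∧ Odd (Finset.univ.filter (fun i => u ∈ X i ∧ v ∈ X i)).card)) → f u < f v} := by
  obtain ⟨P, R, hPR, h1, h2⟩ := exists_pair (n := 100) (t := 52) (by
    rw [Nat.choose_two_right, Nat.choose_two_right]
    decide +kernel)
  have s1 := isSymm_mul_transpose_self P
  have s2 := isSymm_transpose_mul_self R
  obtain ⟨j, w, a1, a2⟩ := walk s1 h1 (fun u => 100 - 1 - u)
    (fun u v h => Fin.ext (by have := u.2; have := v.2; simp only at h; omega)) (fun u => by omega)
  obtain ⟨k, z, b1, b2⟩ := walk s2 h2 (fun u => u) Fin.val_injective (fun u => u.2)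
  refine ⟨100, 100, _, _, ⟨Tn_irrefl _, Tn_tour (cut_symm s1 _ j w)⟩,
    ⟨Tn_irrefl _, Tn_tour (cut_symm s2 _ k z)⟩, a1, b1, Jn _ _, fun _ _ => Iff.rfl, ?_⟩
  have := Nat.sInf_le (join P R hPR j k w z)
  change sInf (IS _) < sInf (IS _) + sInf (IS _)
  omega

end Pool.Agent.S07369
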