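import Pool.Statements.S07453
import Pool.Agent.H32.UDec

set_option autoImplicit false
open Pool Pool.MP_1bb742_co

namespace Pool.Agent.S07453

/-- For every ε,δ>0 and all large n, any two n-vertex graphs with equal edge counts above εn² can have their edge sets split into at most δn parts each, the i-th parts being isomorphic via a vertex permutation. -/
theorem result :
    ∀ ε : ℝ, 0 < ε → ∀ δ : ℝ, 0 < δ → ∃ N : ℕ, ∀ n : ℕ, N ≤ n →
      ∀ G G' : SimpleGraph (Fin n),
        G.edgeSet.ncard = G'.edgeSet.ncard →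
        ε * (n : ℝ) ^ 2 < (G.edgeSet.ncard : ℝ) →
        ∃ r : ℕ, (r : ℝ) ≤ δ * (n : ℝ) ∧
          ∃ c c' : Sym2 (Fin n) → Fin r,
            ∀ i : Fin r, ∃ σ : Equiv.Perm (Fin n),
              Sym2.map σ '' {e | e ∈ G.edgeSet ∧ c e = i} =
                {e | e ∈ G'.edgeSet ∧ c' e = i} := by
  classical
  intro ε hε δ hδ
  obtain ⟨D, hD⟩ := exists_nat_ge (32 / ε)
  obtain ⟨k, hk⟩ := exists_nat_ge (12 / δ + 4)
  obtain ⟨N, hN⟩ := exists_nat_ge ((6 + 4 * (k : ℝ) ^ 6 * D) * 2 / δ)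
  have hδ' : 0 < 12 / δ := by positivity
  have hk4 : 4 ≤ k := by
    have : (4 : ℝ) ≤ k := by linarith
    exact_mod_cast this
  have hD' : 32 ≤ ε * D := by rw [div_le_iff₀ hε] at hD; linarith
  have hD1 : 1 ≤ D := by
    rcases Nat.eq_zero_or_pos D with rfl | h
    · simp at hD'; linarith
    · exact h
  refine ⟨max N (D * k ^ 3), fun n hn G G' hc hm => ?_⟩
  have hIn : ∀ H : SimpleGraph (Fin n), Pool.Agent.H32.UDec.In Finset.univ H.edgeSet.toFinset := by
    intro H e he
    exact ⟨H.not_isDiag_of_mem_edgeSet (by simpa using he), fun _ _ => Finset.mem_univ _⟩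
  rw [Set.ncard_eq_toFinset_card', Set.ncard_eq_toFinset_card'] at hc
  rw [Set.ncard_eq_toFinset_card'] at hm
  obtain ⟨r, hr, hdec⟩ := Pool.Agent.H32.UDec.main_nat k D n hk4 hD1 (le_of_max_le_right hn)
    (hIn G) (hIn G') hc (by
      have h1 : (32 : ℝ) * (n : ℝ) ^ 2 ≤ D * (G.edgeSet.toFinset.card : ℝ) := by
        have h2 : (0 : ℝ) ≤ D := Nat.cast_nonneg _
        have h3 := mul_le_mul_of_nonneg_left hm.le h2
        nlinarith [sq_nonneg (n : ℝ)]
      exact_mod_cast h1)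
  obtain ⟨c, c', h1, h2, h3⟩ := hdec.coloring
  refine ⟨r + 1, ?_, fun e => if h : c e < r + 1 then ⟨c e, h⟩ else 0,
    fun e => if h : c' e < r + 1 then ⟨c' e, h⟩ else 0, fun i => ?_⟩
  · have hr' : (k : ℝ) * r ≤ 6 * n + (5 * k + 4 * (k : ℝ) ^ 7 * D) := by exact_mod_cast hr
    have hk0 : (0 : ℝ) < k := by linarith
    have hNn : (N : ℝ) ≤ n := by exact_mod_cast le_of_max_le_left hn
    have a1 : (6 + 4 * (k : ℝ) ^ 6 * D) * 2 ≤ n * δ := by
      rw [div_le_iff₀ hδ] at hN
      nlinarith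
    have a2 : 12 ≤ k * δ := by
      have : 12 / δ ≤ k := by linarith
      rwa [div_le_iff₀ hδ] at this
    have a3 : (k : ℝ) * (r + 1) ≤ k * (δ * n) := by
      have b1 := mul_le_mul_of_nonneg_left a1 hk0.le
      have b2 := mul_le_mul_of_nonneg_right a2 (Nat.cast_nonneg (α := ℝ) n)
      nlinarith
    push_cast
    exact le_of_mul_le_mul_left a3 hk0
  · obtain ⟨σ, hσ⟩ := h3 i.val
    refine ⟨σ, ?_⟩
    have key : ∀ (H : SimpleGraph (Fin n)) (c : Sym2 (Fin n) → ℕ),
        (∀ e ∈ H.edgeSet.toFinset, c e < r) →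
        {e | e ∈ H.edgeSet ∧ (if h : c e < r + 1 then (⟨c e, h⟩ : Fin (r + 1)) else 0) = i}
          = {e | e ∈ H.edgeSet.toFinset ∧ c e = i.val} := by
      intro H c hc
      ext e
      simp only [Set.mem_ofPred_eq, Set.mem_toFinset]
      refine and_congr_right fun he => ?_
      have := hc e (by simpa using he)
      rw [dif_pos (by omega), Fin.ext_iff]
    rw [key G c h1, key G' c' h2]
    exact hσ

end Pool.Agent.S07453
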