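import Pool.Statements.S07499

set_option autoImplicit false
open Pool Pool.MP_1d4c69_co

namespace Pool.Agent.S07499

/-- The Moebius ladder on 18 vertices. -/
def G : SimpleGraph (Fin 18) := SimpleGraph.fromRel (fun a b => b = a + 1 ∨ b = a + 9)

instance : DecidableRel G.Adj := fun a b => by
  unfold G
  rw [SimpleGraph.fromRel_adj]
  infer_instance

def D (a b : Fin 18) : ℕ :=
  let k := (b - a).val
  min (min k (18 - k)) (1 + ((k - 9) + (9 - k)))

theorem D_zero : ∀ u v : Fin 18, D u v = 0 → u = v := by decide +kernel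
theorem D_self : ∀ u : Fin 18, D u u = 0 := by decide +kernel
theorem D_step : ∀ u v : Fin 18, D u v ≠ 0 → ∃ w, G.Adj u w ∧ D w v + 1 = D u v := by
  decide +kernel
theorem D_lip : ∀ u w v : Fin 18, G.Adj u w → D u v ≤ D w v + 1 := by decide +kernel

theorem exists_walk (n : ℕ) : ∀ u v : Fin 18, D u v = n → ∃ p : G.Walk u v, p.length = n := by
  induction n with
  | zero =>
    intro u v h
    obtain rfl := D_zero u v h
    exact ⟨SimpleGraph.Walk.nil, rfl⟩
  | succ n ih =>
    intro u v h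
    obtain ⟨w, hw, hd⟩ := D_step u v (by omega)
    obtain ⟨p, hp⟩ := ih w v (by omega)
    exact ⟨SimpleGraph.Walk.cons hw p, by simp [hp]⟩

theorem D_le_length {u v : Fin 18} (p : G.Walk u v) : D u v ≤ p.length := by
  induction p with
  | nil => simp [D_self]
  | cons h p ih =>
    simp only [SimpleGraph.Walk.length_cons]
    exact le_trans (D_lip _ _ _ h) (by omega)

theorem reach (u v : Fin 18) : G.Reachable u v := by
  obtain ⟨p, _⟩ := exists_walk _ u v rfl
  exact ⟨p⟩

theorem dist_eq (u v : Fin 18) : G.dist u v = D u v := by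
  apply le_antisymm
  · obtain ⟨p, hp⟩ := exists_walk _ u v rfl
    rw [← hp]
    exact SimpleGraph.dist_le p
  · obtain ⟨p, hp⟩ := (reach u v).exists_walk_length_eq_dist
    rw [← hp]
    exact D_le_length p

theorem four' : ∀ a b c d : Fin 18, a < b → b < c → c < d →
    (D a b ≤ 2 ∨ D a c ≤ 2 ∨ D a d ≤ 2 ∨ D b c ≤ 2 ∨ D b d ≤ 2 ∨ D c d ≤ 2) ∨
    (∃ v : Fin 18, D v a ≤ 3 ∧ D v b ≤ 3 ∧ D v c ≤ 3 ∧ D v d ≤ 3) ∨
    (∃ v : Fin 18, D v a ≤ 2 ∧ D v b ≤ 2 ∧ D v c ≤ 2) ∨
    (∃ v : Fin 18, D v a ≤ 2 ∧ D v b ≤ 2 ∧ D v d ≤ 2) ∨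
    (∃ v : Fin 18, D v a ≤ 2 ∧ D v c ≤ 2 ∧ D v d ≤ 2) ∨
    (∃ v : Fin 18, D v b ≤ 2 ∧ D v c ≤ 2 ∧ D v d ≤ 2) := by
  decide +kernel

theorem two' : ∀ a b : Fin 18, D a b ≤ 2 → ∃ v : Fin 18, D v a ≤ 1 ∧ D v b ≤ 1 := by
  decide +kernel

theorem pair_bad (M : Finset (Fin 18))
    (hM : ∀ v : Fin 18, ∀ r : ℕ, 1 ≤ r → (M.filter (fun u => D v u ≤ r)).card ≤ r)
    {a b : Fin 18} (ha : a ∈ M) (hb : b ∈ M) (hab : a < b) : ¬ D a b ≤ 2 := by
  intro h
  obtain ⟨v, h1, h2⟩ := two' a b h
  have h3 := hM v 1 le_rfl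
  have h4 : ({a, b} : Finset (Fin 18)) ⊆ M.filter (fun u => D v u ≤ 1) := by
    intro x hx
    simp only [Finset.mem_insert, Finset.mem_singleton] at hx
    rcases hx with rfl | rfl <;> simp [*]
  have h5 := Finset.card_le_card h4
  rw [Finset.card_pair hab.ne] at h5
  omega

theorem triple_bad (M : Finset (Fin 18))
    (hM : ∀ v : Fin 18, ∀ r : ℕ, 1 ≤ r → (M.filter (fun u => D v u ≤ r)).card ≤ r)
    {a b c : Fin 18} (ha : a ∈ M) (hb : b ∈ M) (hc : c ∈ M) (hab : a < b) (hbc : b < c) :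
    ¬ ∃ v : Fin 18, D v a ≤ 2 ∧ D v b ≤ 2 ∧ D v c ≤ 2 := by
  rintro ⟨v, h1, h2, h3⟩
  have h3' := hM v 2 (by norm_num)
  have h4 : ({a, b, c} : Finset (Fin 18)) ⊆ M.filter (fun u => D v u ≤ 2) := by
    intro x hx
    simp only [Finset.mem_insert, Finset.mem_singleton] at hx
    rcases hx with rfl | rfl | rfl <;> simp [*]
  have h5 := Finset.card_le_card h4
  rw [Finset.card_eq_three.mpr ⟨a, b, c, hab.ne, (hab.trans hbc).ne, hbc.ne, rfl⟩] at h5
  omega

theorem three : ∀ v : Fin 18, ∀ r : Fin 3, 1 ≤ r.val →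
    ((({0, 3, 6} : Finset (Fin 18))).filter (fun u => D v u ≤ r.val)).card ≤ r.val := by
  decide +kernel

theorem ball : ∀ v : Fin 18, ∀ r : Fin 5, 1 ≤ r.val →
    ((Finset.univ : Finset (Fin 18)).filter (fun u => D u v ≤ r.val)).card ≤ 4 * r.val := by
  decide +kernel

theorem result :
    ∃ (V : Type) (_ : Fintype V) (G : SimpleGraph V),
      G.Connected ∧
      (∃ M : Finset V, M.card = 3 ∧
        ∀ v : V, ∀ r : ℕ, 1 ≤ r → (M.filter (fun u => G.dist v u ≤ r)).card ≤ r) ∧
      (∀ M : Finset V,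
        (∀ v : V, ∀ r : ℕ, 1 ≤ r → (M.filter (fun u => G.dist v u ≤ r)).card ≤ r) →
        M.card ≤ 3) ∧
      (∀ f : V → ℕ, (∀ u : V, ∃ v : V, 1 ≤ f v ∧ G.dist u v ≤ f v) →
        5 ≤ ∑ v, f v) := by
  refine ⟨Fin 18, inferInstance, G, ⟨reach⟩, ⟨{0, 3, 6}, by decide, ?_⟩, ?_, ?_⟩
  · intro v r hr
    simp only [dist_eq]
    by_cases h : r < 3
    · exact three v ⟨r, h⟩ hr
    · refine le_trans (Finset.card_filter_le _ _) ?_
      have : (({0, 3, 6} : Finset (Fin 18))).card = 3 := by decide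
      omega
  · intro M hM
    simp only [dist_eq] at hM
    by_contra hc
    have h4 : 4 ≤ M.card := by omega
    let e := M.orderEmbOfCardLe h4
    have hm : ∀ i, e i ∈ M := fun i => M.orderEmbOfCardLe_mem h4 i
    have h01 : e 0 < e 1 := e.strictMono (by decide)
    have h12 : e 1 < e 2 := e.strictMono (by decide)
    have h23 : e 2 < e 3 := e.strictMono (by decide)
    rcases four' (e 0) (e 1) (e 2) (e 3) h01 h12 h23 with
      (h | h | h | h | h | h) | ⟨v, hv⟩ | h | h | h | h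
    · exact pair_bad M hM (hm _) (hm _) h01 h
    · exact pair_bad M hM (hm _) (hm _) (h01.trans h12) h
    · exact pair_bad M hM (hm _) (hm _) (h01.trans (h12.trans h23)) h
    · exact pair_bad M hM (hm _) (hm _) h12 h
    · exact pair_bad M hM (hm _) (hm _) (h12.trans h23) h
    · exact pair_bad M hM (hm _) (hm _) h23 h
    · have h3 := hM v 3 (by norm_num)
      have hs : Finset.univ.map e.toEmbedding ⊆ M.filter (fun u => D v u ≤ 3) := by
        intro x hx
        simp only [Finset.mem_map, Finset.mem_univ, true_and] at hx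
        obtain ⟨i, rfl⟩ := hx
        refine Finset.mem_filter.mpr ⟨hm i, ?_⟩
        obtain ⟨h0, h1, h2, h3⟩ := hv
        fin_cases i
        · exact h0
        · exact h1
        · exact h2
        · exact h3
      have h5 := Finset.card_le_card hs
      simp only [Finset.card_map, Finset.card_univ, Fintype.card_fin] at h5
      omega
    · exact triple_bad M hM (hm _) (hm _) (hm _) h01 h12 h
    · exact triple_bad M hM (hm _) (hm _) (hm _) h01 (h12.trans h23) h
    · exact triple_bad M hM (hm _) (hm _) (hm _) (h01.trans h12) h23 h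
    · exact triple_bad M hM (hm _) (hm _) (hm _) h12 h23 h
  · intro f hf
    simp only [dist_eq] at hf
    have hsub : (Finset.univ : Finset (Fin 18)) ⊆
        Finset.univ.biUnion (fun v => Finset.univ.filter (fun u => 1 ≤ f v ∧ D u v ≤ f v)) := by
      intro u _
      obtain ⟨v, hv⟩ := hf u
      simp only [Finset.mem_biUnion, Finset.mem_univ, Finset.mem_filter, true_and]
      exact ⟨v, hv⟩
    have h1 := (Finset.card_le_card hsub).trans Finset.card_biUnion_le
    have h2 : ∀ v : Fin 18,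
        (Finset.univ.filter (fun u => 1 ≤ f v ∧ D u v ≤ f v)).card ≤ 4 * f v := by
      intro v
      by_cases h0 : 1 ≤ f v
      · simp only [h0, true_and]
        by_cases h5 : f v < 5
        · exact ball v ⟨f v, h5⟩ h0
        · refine le_trans (Finset.card_filter_le _ _) ?_
          simp only [Finset.card_univ, Fintype.card_fin]
          omega
      · simp [h0]
    have h3 := h1.trans (Finset.sum_le_sum (fun v _ => h2 v))
    rw [← Finset.mul_sum] at h3
    simp only [Finset.card_univ, Fintype.card_fin] at h3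
    omega

end Pool.Agent.S07499
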