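import Pool.Statements.S07506
-- import your own Pool.Agent.* helpers here

set_option autoImplicit false
open Pool Pool.MP_1d7c98_co

namespace Pool.Agent.S07506

open Finset

theorem pairs_ge {α β : Type} [Fintype α] [Fintype β] [DecidableEq β] (d : α → β) :
    3 * Fintype.card α ≤ (univ.filter (fun p : α × α => d p.1 = d p.2)).card
      + 2 * Fintype.card β := by
  classical
  have h1 : (univ.filter (fun p : α × α => d p.1 = d p.2)).card
      = ∑ s : β, (univ.filter (fun a => d a = s)).card * (univ.filter (fun a => d a = s)).card := by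
    rw [card_eq_sum_card_fiberwise (f := fun p : α × α => d p.1) (t := univ) (by simp)]
    refine sum_congr rfl (fun s _ => ?_)
    rw [← card_product]
    congr 1
    ext p
    simp only [mem_filter, mem_univ, true_and, mem_product]
    constructor
    · rintro ⟨h, h'⟩; exact ⟨h', h ▸ h'⟩
    · rintro ⟨h, h'⟩; exact ⟨h.trans h'.symm, h⟩
  have h2 : Fintype.card α = ∑ s : β, (univ.filter (fun a => d a = s)).card := by
    rw [← card_univ, card_eq_sum_card_fiberwise (f := d) (t := univ) (by simp)]
  have h3 : 2 * Fintype.card β = ∑ _s : β, 2 := by simp [mul_comm]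
  rw [h1, h2, h3, mul_sum, ← sum_add_distrib]
  refine sum_le_sum (fun s _ => ?_)
  generalize (univ.filter (fun a => d a = s)).card = x
  rcases x with _ | _ | x
  · simp
  · simp
  · nlinarith

/-- N copies of K12; the first seven vertices of every copy are matched to those of copy z. -/
def G0 (N : ℕ) (z : Fin N) : SimpleGraph (Fin N × Fin 12) where
  Adj u v := u ≠ v ∧ (u.1 = v.1 ∨ (u.2 = v.2 ∧ u.2.val < 7 ∧ (u.1 = z ∨ v.1 = z)))
  symm := ⟨by
    rintro u v ⟨h, h' | ⟨h1, h2, h3⟩⟩
    · exact ⟨h.symm, Or.inl h'.symm⟩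
    · exact ⟨h.symm, Or.inr ⟨h1.symm, h1 ▸ h2, h3.symm⟩⟩⟩
  loopless := ⟨fun u h => h.1 rfl⟩

theorem result :
    ¬ (∀ k : ℕ, 2 ≤ k → ∃ C : ℝ, ∀ n : ℕ, ∀ G : SimpleGraph (Fin n),
      (∀ S : Finset (Fin n), S.card + 1 < k →
          (G.induce ((S : Set (Fin n))ᶜ)).Connected) →
      ∃ c : Fin n → Fin k,
        ((k : ℝ) - 1) / k * (G.edgeSet.ncard : ℝ) + ((k : ℝ) - 1) / (2 * k) * (n : ℝ) - C
          ≤ ({p : Fin n × Fin n | G.Adj p.1 p.2 ∧ c p.1 ≠ c p.2}.ncard : ℝ) / 2) := by
  intro H
  classical
  obtain ⟨C, hC⟩ := H 8 (by norm_num)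
  obtain ⟨M, hM⟩ := exists_nat_gt (8 * C)
  set N := M + 1 with hN
  let z : Fin N := ⟨0, by omega⟩
  let e : Fin (N * 12) ≃ Fin N × Fin 12 := finProdFinEquiv.symm
  let G : SimpleGraph (Fin (N * 12)) := (G0 N z).comap e
  have hadj : ∀ u v, G.Adj u v ↔ (u ≠ v ∧ ((e u).1 = (e v).1 ∨ ((e u).2 = (e v).2 ∧
      (e u).2.val < 7 ∧ ((e u).1 = z ∨ (e v).1 = z)))) := by
    intro u v
    simp only [G, SimpleGraph.comap_adj, G0, ne_eq, e.injective.eq_iff]
  obtain ⟨c, hc⟩ := hC (N * 12) G (by
    intro S hS
    have hj : ∃ j : Fin 12, j.val < 7 ∧ j ∉ S.image (fun v => (e v).2) := by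
      by_contra hcon
      push Not at hcon
      have hsub : (univ.filter (fun j : Fin 12 => j.val < 7)) ⊆ S.image (fun v => (e v).2) := by
        intro j hj
        exact hcon j (by simpa using hj)
      have h7 : (univ.filter (fun j : Fin 12 => j.val < 7)).card = 7 := by decide
      have := card_le_card hsub
      have h2 : (S.image (fun v => (e v).2)).card ≤ S.card := card_image_le
      omega
    obtain ⟨j, hj7, hjS⟩ := hj
    have hmem : ∀ i : Fin N, e.symm (i, j) ∈ ((S : Set (Fin (N * 12)))ᶜ) := by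
      intro i hi
      apply hjS
      exact mem_image.2 ⟨_, hi, by simp⟩
    rw [SimpleGraph.connected_iff_exists_forall_reachable]
    refine ⟨⟨e.symm (z, j), hmem z⟩, ?_⟩
    rintro ⟨v, hv⟩
    have r1 : (G.induce ((S : Set (Fin (N * 12)))ᶜ)).Reachable ⟨e.symm (z, j), hmem z⟩
        ⟨e.symm ((e v).1, j), hmem _⟩ := by
      by_cases h : e.symm (z, j) = e.symm ((e v).1, j)
      · have : (⟨e.symm (z, j), hmem z⟩ : ((S : Set (Fin (N * 12)))ᶜ : Set _))
          = ⟨e.symm ((e v).1, j), hmem _⟩ := Subtype.ext h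
        rw [this]
      · apply SimpleGraph.Adj.reachable
        show G.Adj _ _
        rw [hadj]
        exact ⟨h, Or.inr (by simp [hj7])⟩
    have r2 : (G.induce ((S : Set (Fin (N * 12)))ᶜ)).Reachable
        ⟨e.symm ((e v).1, j), hmem _⟩ ⟨v, hv⟩ := by
      by_cases h : e.symm ((e v).1, j) = v
      · have : (⟨e.symm ((e v).1, j), hmem _⟩ : ((S : Set (Fin (N * 12)))ᶜ : Set _))
          = ⟨v, hv⟩ := Subtype.ext h
        rw [this]
      · apply SimpleGraph.Adj.reachable
        show G.Adj _ _
        rw [hadj]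
        exact ⟨h, Or.inl (by simp)⟩
    exact r1.trans r2)
  set A := univ.filter (fun p : Fin (N * 12) × Fin (N * 12) => G.Adj p.1 p.2) with hA
  set Cut := univ.filter (fun p : Fin (N * 12) × Fin (N * 12) => G.Adj p.1 p.2 ∧ c p.1 ≠ c p.2)
    with hCut
  set Unc := univ.filter (fun p : Fin (N * 12) × Fin (N * 12) => G.Adj p.1 p.2 ∧ c p.1 = c p.2)
    with hUnc
  have e1 : {p : Fin (N * 12) × Fin (N * 12) | G.Adj p.1 p.2 ∧ c p.1 ≠ c p.2}.ncard = Cut.card := by
    rw [← Set.ncard_coe_finset]; congr 1; ext p; simp [hCut]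
  have e2 : 2 * G.edgeSet.ncard = A.card := by
    rw [← SimpleGraph.coe_edgeFinset, Set.ncard_coe_finset, SimpleGraph.two_mul_card_edgeFinset]
  have e3 : A.card = Cut.card + Unc.card := by
    rw [← card_union_of_disjoint]
    · congr 1; ext p; simp only [hA, hCut, hUnc, mem_filter, mem_union, mem_univ, true_and]; tauto
    · rw [disjoint_filter]; intro p _ h1 h2; exact h1.2 h2.2
  have e4 : 8 * N ≤ Unc.card := by
    have h1 := pairs_ge (fun v : Fin (N * 12) => ((e v).1, c v))
    have h2 : (univ.filter (fun p : Fin (N * 12) × Fin (N * 12) =>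
        ((e p.1).1, c p.1) = ((e p.2).1, c p.2))) ⊆
        Unc ∪ univ.image (fun v : Fin (N * 12) => (v, v)) := by
      intro p hp
      simp only [mem_filter, mem_univ, true_and, Prod.mk.injEq] at hp
      by_cases h : p.1 = p.2
      · exact mem_union_right _ (mem_image.2 ⟨p.1, mem_univ _, Prod.ext rfl h⟩)
      · refine mem_union_left _ ?_
        simp only [hUnc, mem_filter, mem_univ, true_and, hadj]
        exact ⟨⟨h, Or.inl hp.1⟩, hp.2⟩
    have h3 := (card_le_card h2).trans (card_union_le _ _)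
    have h4 : (univ.image (fun v : Fin (N * 12) => (v, v))).card ≤ N * 12 := by
      refine card_image_le.trans (by simp)
    simp only [Fintype.card_fin, Fintype.card_prod] at h1
    omega
  have e5 : A.card ≤ 146 * N := by
    let J := univ.filter (fun j : Fin 12 => j.val < 7)
    have hJ : J.card = 7 := by decide
    have hO : (univ : Finset (Fin 12)).offDiag.card = 132 := by simp
    have h2 : A ⊆ ((univ : Finset (Fin N)) ×ˢ (univ : Finset (Fin 12)).offDiag).image
          (fun q => (e.symm (q.1, q.2.1), e.symm (q.1, q.2.2))) ∪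
        ((univ : Finset (Fin N)) ×ˢ J).image (fun q => (e.symm (z, q.2), e.symm (q.1, q.2))) ∪
        ((univ : Finset (Fin N)) ×ˢ J).image (fun q => (e.symm (q.1, q.2), e.symm (z, q.2))) := by
      rintro ⟨u, v⟩ hp
      simp only [hA, mem_filter, mem_univ, true_and, hadj] at hp
      obtain ⟨h, h' | ⟨h1, h2, h3 | h3⟩⟩ := hp
      · refine mem_union_left _ (mem_union_left _ (mem_image.2
          ⟨((e u).1, ((e u).2, (e v).2)), ?_, ?_⟩))
        · simp only [mem_product, mem_univ, mem_offDiag, true_and]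
          intro h2
          exact h (e.injective (Prod.ext h' h2))
        · refine Prod.ext (by simp) ?_
          simp only [h']
          simp
      · refine mem_union_left _ (mem_union_right _ (mem_image.2
          ⟨((e v).1, (e u).2), by simp [J, h2], ?_⟩))
        refine Prod.ext ?_ ?_
        · simp only [← h3]; simp
        · simp only [h1]; simp
      · refine mem_union_right _ (mem_image.2 ⟨((e u).1, (e u).2), by simp [J, h2], ?_⟩)
        refine Prod.ext (by simp) ?_
        simp only [← h3, h1]; simp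
    have h3 := (card_le_card h2).trans ((card_union_le _ _).trans
      (add_le_add ((card_union_le _ _).trans (add_le_add card_image_le card_image_le))
        card_image_le))
    simp only [card_product, card_univ, Fintype.card_fin, hJ, hO] at h3
    omega
  rw [e1] at hc
  have f2 : (2 : ℝ) * G.edgeSet.ncard = Cut.card + Unc.card := by exact_mod_cast e2.trans e3
  have f4 : (8 : ℝ) * N ≤ Unc.card := by exact_mod_cast e4
  have f5 : (2 : ℝ) * G.edgeSet.ncard ≤ 146 * N := by exact_mod_cast e2 ▸ e5
  have f6 : (N : ℝ) = M + 1 := by rw [hN]; push_cast; ring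
  push_cast at hc
  linarith

end Pool.Agent.S07506
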