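import Pool.Statements.S07516

set_option autoImplicit false
open Matrix
open Pool Pool.MP_1debbc_co

namespace Pool.Agent.S07516

noncomputable def f {n : ℕ} (G : SimpleGraph (Fin n)) [DecidableRel G.Adj] : ℝ :=
  sSup {r : ℝ | ∃ x : Fin n → ℝ, x ⬝ᵥ x = 1 ∧ r = x ⬝ᵥ (G.adjMatrix ℝ *ᵥ x)}

lemma ub {n : ℕ} (G : SimpleGraph (Fin n)) [DecidableRel G.Adj] (y : Fin n → ℝ) (μ : ℝ)
    (hy : ∀ i, 0 < y i) (h : ∀ i, ∑ j ∈ G.neighborFinset i, y j ≤ μ * y i)
    (x : Fin n → ℝ) (hx : x ⬝ᵥ x = 1) : x ⬝ᵥ (G.adjMatrix ℝ *ᵥ x) ≤ μ := by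
  have e1 : x ⬝ᵥ (G.adjMatrix ℝ *ᵥ x) = ∑ i, ∑ j, if G.Adj i j then x i * x j else 0 := by
    simp only [dotProduct, mulVec, SimpleGraph.adjMatrix_apply, Finset.mul_sum]
    refine Finset.sum_congr rfl fun i _ => Finset.sum_congr rfl fun j _ => ?_
    split_ifs <;> simp
  let g : Fin n → Fin n → ℝ := fun i j => if G.Adj i j then x i ^ 2 * y j / y i else 0
  have e2 : ∀ i j, (if G.Adj i j then x i * x j else 0) ≤ (g i j + g j i) / 2 := by
    intro i j
    by_cases hij : G.Adj i j
    · simp only [g, if_pos hij, if_pos hij.symm]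
      have h1 := hy i
      have h2 := hy j
      have : x i ^ 2 * y j / y i + x j ^ 2 * y i / y j - 2 * (x i * x j) =
          (x i * y j - x j * y i) ^ 2 / (y i * y j) := by field_simp; ring
      have h3 : 0 ≤ (x i * y j - x j * y i) ^ 2 / (y i * y j) := by positivity
      linarith
    · simp only [g, if_neg hij, if_neg (fun h : G.Adj j i => hij h.symm)]; simp
  have e3 : ∑ i, ∑ j, (g i j + g j i) / 2 = ∑ i, ∑ j, g i j := by
    simp only [add_div, Finset.sum_add_distrib]
    rw [Finset.sum_comm (f := fun i j => g j i / 2)]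
    simp only [← Finset.sum_add_distrib, add_halves]
  have e4 : ∀ i, ∑ j, g i j ≤ μ * (x i * x i) := by
    intro i
    have h1 := hy i
    have : ∑ j, g i j = x i ^ 2 / y i * ∑ j ∈ G.neighborFinset i, y j := by
      rw [Finset.mul_sum, SimpleGraph.neighborFinset_eq_filter, Finset.sum_filter]
      refine Finset.sum_congr rfl fun j _ => ?_
      simp only [g]; split_ifs
      · ring
      · rfl
    rw [this]
    calc x i ^ 2 / y i * ∑ j ∈ G.neighborFinset i, y j ≤ x i ^ 2 / y i * (μ * y i) :=
          mul_le_mul_of_nonneg_left (h i) (by positivity)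
      _ = μ * (x i * x i) := by field_simp
  rw [e1]
  calc _ ≤ ∑ i, ∑ j, (g i j + g j i) / 2 :=
        Finset.sum_le_sum fun i _ => Finset.sum_le_sum fun j _ => e2 i j
    _ = ∑ i, ∑ j, g i j := e3
    _ ≤ ∑ i, μ * (x i * x i) := Finset.sum_le_sum fun i _ => e4 i
    _ = μ := by rw [← Finset.mul_sum]; simp only [dotProduct] at hx; rw [hx, mul_one]

def adjH (i j : Fin 8) : Bool :=
  (![![false, false, false, true, true, true, true, true],
     ![false, false, true, true, true, true, true, false],
     ![false, true, false, true, true, true, true, false],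
     ![true, true, true, false, false, true, true, false],
     ![true, true, true, false, false, true, true, false],
     ![true, true, true, true, true, false, false, false],
     ![true, true, true, true, true, false, false, false],
     ![true, false, false, false, false, false, false, false]] : Fin 8 → Fin 8 → Bool) i j

def H : SimpleGraph (Fin 8) where
  Adj i j := adjH i j = true
  symm := ⟨by decide⟩
  loopless := ⟨by decide⟩

instance : DecidableRel H.Adj := fun i j => inferInstanceAs (Decidable (adjH i j = true))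

lemma H_conn : H.Connected := by
  have h3 : ∀ i, H.Reachable 3 i := by
    have h0 : H.Reachable 3 0 := (show H.Adj 3 0 by decide).reachable
    intro i
    fin_cases i
    · exact h0
    · exact (show H.Adj 3 1 by decide).reachable
    · exact (show H.Adj 3 2 by decide).reachable
    · exact SimpleGraph.Reachable.refl _
    · exact h0.trans (show H.Adj 0 4 by decide).reachable
    · exact (show H.Adj 3 5 by decide).reachable
    · exact (show H.Adj 3 6 by decide).reachable
    · exact h0.trans (show H.Adj 0 7 by decide).reachable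
  exact ⟨fun a b => (h3 a).symm.trans (h3 b)⟩

lemma H_max : H.maxDegree = 5 := by
  apply le_antisymm
  · exact H.maxDegree_le_of_forall_degree_le 5 (by decide)
  · have := H.degree_le_maxDegree 0
    have h : H.degree 0 = 5 := by decide
    omega

lemma H_nr : ∀ d : ℕ, ¬ H.IsRegularOfDegree d := by
  intro d h
  have h0 := h 0
  have h7 := h 7
  have a : H.degree 0 = 5 := by decide
  have b : H.degree 7 = 1 := by decide
  omega

lemma H_lb : (4.885 : ℝ) ≤ f H := by
  have hb : BddAbove {r : ℝ | ∃ x : Fin 8 → ℝ, x ⬝ᵥ x = 1 ∧ r = x ⬝ᵥ (H.adjMatrix ℝ *ᵥ x)} := by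
    refine ⟨5, ?_⟩
    rintro r ⟨x, hx, rfl⟩
    refine ub H (fun _ => 1) 5 (fun _ => one_pos) (fun i => ?_) x hx
    have : H.degree i ≤ 5 := H_max ▸ H.degree_le_maxDegree i
    simp only [Finset.sum_const, SimpleGraph.card_neighborFinset_eq_degree, nsmul_eq_mul, mul_one]
    exact_mod_cast this
  refine le_trans ?_ (le_csSup hb ⟨![6/19, 8/19, 8/19, 7/19, 7/19, 7/19, 7/19, 1/19], ?_, rfl⟩)
  · simp only [dotProduct, mulVec, SimpleGraph.adjMatrix_apply, Fin.sum_univ_eight, H, adjH]
    simp
    norm_num
  · simp only [dotProduct, Fin.sum_univ_eight]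
    simp
    norm_num

lemma G_ub (G : SimpleGraph (Fin 8)) [DecidableRel G.Adj] (v : Fin 8) (hv : G.degree v = 3)
    (hw : ∀ w, w ≠ v → G.degree w = 5) : f G ≤ 4.88 := by
  refine Real.sSup_le ?_ (by norm_num)
  rintro r ⟨x, hx, rfl⟩
  let y : Fin 8 → ℝ := fun i => if i = v then 0.58 else if G.Adj v i then 0.94 else 1
  have y1 : ∀ i, y i ≤ 1 := by intro i; simp only [y]; split_ifs <;> norm_num
  refine ub G y 4.88 (fun i => by simp only [y]; split_ifs <;> norm_num) (fun i => ?_) x hx
  by_cases hi : i = v
  · subst hi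
    have : ∀ j ∈ G.neighborFinset i, y j = 0.94 := by
      intro j hj
      rw [SimpleGraph.mem_neighborFinset] at hj
      simp only [y, if_neg hj.ne', if_pos hj]
    rw [Finset.sum_congr rfl this]
    simp only [Finset.sum_const, SimpleGraph.card_neighborFinset_eq_degree, hv, y, if_true]
    norm_num
  · by_cases ha : G.Adj v i
    · have hm : v ∈ G.neighborFinset i := by simpa using ha.symm
      rw [← Finset.add_sum_erase _ _ hm]
      have : ∑ j ∈ (G.neighborFinset i).erase v, y j ≤ 4 := by
        refine (Finset.sum_le_card_nsmul _ _ 1 fun j _ => y1 j).trans ?_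
        rw [Finset.card_erase_of_mem hm, SimpleGraph.card_neighborFinset_eq_degree, hw i hi]
        norm_num
      have e1 : y v = 0.58 := by simp [y]
      have e2 : y i = 0.94 := by simp only [y, if_neg hi, if_pos ha]
      rw [e1, e2]; linarith
    · have e2 : y i = 1 := by simp only [y, if_neg hi, if_neg ha]
      have hc : ((G.neighborFinset i).filter fun j => ¬ G.Adj v j).card ≤ 3 := by
        have hs : ((G.neighborFinset i).filter fun j => ¬ G.Adj v j) ⊆
            ((Finset.univ \ G.neighborFinset v).erase v).erase i := by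
          intro j hj
          simp only [Finset.mem_filter, SimpleGraph.mem_neighborFinset] at hj
          simp only [Finset.mem_erase, Finset.mem_sdiff, Finset.mem_univ, true_and,
            SimpleGraph.mem_neighborFinset]
          refine ⟨hj.1.ne', ?_, hj.2⟩
          rintro rfl
          exact ha hj.1.symm
        refine (Finset.card_le_card hs).trans ?_
        rw [Finset.card_erase_of_mem (by simp [hi, ha]), Finset.card_erase_of_mem (by simp),
          Finset.card_sdiff_of_subset (Finset.subset_univ _),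
          SimpleGraph.card_neighborFinset_eq_degree, hv]
        simp
      have hle : ∀ j ∈ G.neighborFinset i, y j ≤ 0.94 + if ¬ G.Adj v j then 0.06 else 0 := by
        intro j _
        simp only [y]; split_ifs <;> norm_num
      refine (Finset.sum_le_sum hle).trans ?_
      rw [Finset.sum_add_distrib, ← Finset.sum_filter, e2]
      simp only [Finset.sum_const, SimpleGraph.card_neighborFinset_eq_degree, hw i hi, nsmul_eq_mul]
      have : (((G.neighborFinset i).filter fun j => ¬ G.Adj v j).card : ℝ) ≤ 3 := by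
        exact_mod_cast hc
      generalize (((G.neighborFinset i).filter fun j => ¬ G.Adj v j).card : ℝ) = c at this ⊢
      norm_num
      linarith

def Good (G : SimpleGraph (Fin 8)) [DecidableRel G.Adj] : Prop :=
  G.Connected ∧ G.maxDegree = 5 ∧ ∀ d : ℕ, ¬ G.IsRegularOfDegree d

lemma Good_congr (G : SimpleGraph (Fin 8)) (i1 i2 : DecidableRel G.Adj) (h : @Good G i1) :
    @Good G i2 := by
  obtain rfl : i1 = i2 := Subsingleton.elim _ _
  exact h

lemma exmax : ∃ G : SimpleGraph (Fin 8), @Good G (Classical.decRel _) ∧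
    ∀ K : SimpleGraph (Fin 8), @Good K (Classical.decRel _) →
      @f 8 K (Classical.decRel _) ≤ @f 8 G (Classical.decRel _) := by
  have hH : @Good H (Classical.decRel _) := by
    exact Good_congr H _ _ ⟨H_conn, H_max, H_nr⟩
  obtain ⟨G, hG, hm⟩ := Set.exists_max_image
    {G : SimpleGraph (Fin 8) | @Good G (Classical.decRel _)}
    (fun G => @f 8 G (Classical.decRel _)) (Set.toFinite _) ⟨H, hH⟩
  exact ⟨G, hG, hm⟩

/-- The negation of the preceding statement: For 3 ≤ Δ ≤ n−2, every connected nonregular n-vertex graph of max degree Δ with the largest adjacency spectral radius among such graphs has one vertex of degree δ and all others of degree Δ. Here δ = Δ−1 if nΔ is odd, else Δ−2. -/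
theorem result :
    ¬ (∀ (n Δ : ℕ), 3 ≤ Δ → Δ ≤ n - 2 →
      ∀ (G : SimpleGraph (Fin n)) [DecidableRel G.Adj],
        G.Connected → G.maxDegree = Δ → (∀ d : ℕ, ¬ G.IsRegularOfDegree d) →
        (∀ (H : SimpleGraph (Fin n)) [DecidableRel H.Adj],
            H.Connected → H.maxDegree = Δ → (∀ d : ℕ, ¬ H.IsRegularOfDegree d) →
            sSup {r : ℝ | ∃ x : Fin n → ℝ, x ⬝ᵥ x = 1 ∧ r = x ⬝ᵥ (H.adjMatrix ℝ *ᵥ x)} ≤
              sSup {r : ℝ | ∃ x : Fin n → ℝ, x ⬝ᵥ x = 1 ∧ r = x ⬝ᵥ (G.adjMatrix ℝ *ᵥ x)}) →
        ∃ v : Fin n, G.degree v = (if Odd (n * Δ) then Δ - 1 else Δ - 2) ∧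
          ∀ w : Fin n, w ≠ v → G.degree w = Δ) := by
  intro h
  obtain ⟨G, hG, hmax⟩ := exmax
  have key : ∀ (K : SimpleGraph (Fin 8)) [DecidableRel K.Adj], K.Connected → K.maxDegree = 5 →
      (∀ d : ℕ, ¬ K.IsRegularOfDegree d) → f K ≤ @f 8 G (Classical.decRel _) := by
    intro K inst h1 h2 h3
    obtain rfl : inst = Classical.decRel _ := Subsingleton.elim _ _
    exact hmax K ⟨h1, h2, h3⟩
  obtain ⟨v, hv, hw⟩ := @h 8 5 (by norm_num) (by norm_num) G (Classical.decRel _) hG.1 hG.2.1
    hG.2.2 key
  have a := @G_ub G (Classical.decRel _) v (by rw [if_neg (by decide)] at hv; exact hv) hw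
  have b := key H H_conn H_max H_nr
  have c := H_lb
  linarith

end Pool.Agent.S07516
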