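import Pool.Statements.S07574
-- import your own Pool.Agent.* helpers here

set_option autoImplicit false
open Pool Pool.MP_1f8616_co

namespace Pool.Agent.S07574

/-- The negation of the preceding statement: Every countable poset with no saturated chain (or its reverse) that is an ω-indexed linear sum of infinite co-wellfounded chains has, for each k≥2, k disjoint chains and a partition into antichains where each antichain A meets at least min(∣A∣,k) chains. -/
theorem result :
    ¬ (∀ (α : Type) [PartialOrder α] [Countable α],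
    (¬ ∃ C : Set α, IsChain (· ≤ ·) C ∧
        (∀ x, x ∉ C → ∀ y ∈ C, ∀ z ∈ C, y < x → x < z → ¬ IsChain (· ≤ ·) (insert x C)) ∧
        ∃ f : α → ℕ,
          ((∀ x ∈ C, ∀ y ∈ C, x ≤ y → f x ≤ f y) ∧
            ∀ i : ℕ, Set.Infinite {x | x ∈ C ∧ f x = i} ∧
              ¬ ∃ s : ℕ → α, StrictMono s ∧ ∀ n, s n ∈ C ∧ f (s n) = i) ∨
          ((∀ x ∈ C, ∀ y ∈ C, x ≤ y → f y ≤ f x) ∧
            ∀ i : ℕ, Set.Infinite {x | x ∈ C ∧ f x = i} ∧
              ¬ ∃ s : ℕ → α, StrictAnti s ∧ ∀ n, s n ∈ C ∧ f (s n) = i)) →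
    ∀ k : ℕ, 2 ≤ k →
      ∃ C : Fin k → Set α, (∀ j, IsChain (· ≤ ·) (C j)) ∧
        Pairwise (fun i j => Disjoint (C i) (C j)) ∧
        ∃ g : α → ℕ, ∀ i : ℕ, IsAntichain (· ≤ ·) {x | g x = i} ∧
          min (Set.encard {x | g x = i}) (k : ℕ∞) ≤
            Set.encard {j : Fin k | (C j ∩ {x | g x = i}).Nonempty}) := by
  intro H
  have fst_eq : ∀ x y : (Σ n : ℕ, Fin n), x ≤ y → x.1 = y.1 := by
    intro x y h
    exact (Sigma.le_def.1 h).1
  have chain_fin : ∀ C : Set (Σ n : ℕ, Fin n), IsChain (· ≤ ·) C → C.Finite := by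
    intro C hC
    rcases C.eq_empty_or_nonempty with rfl | ⟨x, hx⟩
    · exact Set.finite_empty
    · refine (Set.finite_range (fun t : Fin x.1 => (⟨x.1, t⟩ : Σ n : ℕ, Fin n))).subset ?_
      intro y hy
      have : y.1 = x.1 := by
        rcases hC.total hx hy with h | h
        · exact (fst_eq _ _ h).symm
        · exact fst_eq _ _ h
      obtain ⟨n, t⟩ := y
      obtain ⟨m, s⟩ := x
      simp only at this
      subst this
      exact ⟨t, rfl⟩
  obtain ⟨C, hC, -, g, hg⟩ := H (Σ n : ℕ, Fin n) (by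
    rintro ⟨C, hC, -, f, h | h⟩
    · exact (h.2 0).1 ((chain_fin C hC).subset fun x hx => hx.1)
    · exact (h.2 0).1 ((chain_fin C hC).subset fun x hx => hx.1)) 2 le_rfl
  have hT : (g '' (⋃ j, C j)).Finite :=
    (Set.finite_iUnion fun j => chain_fin _ (hC j)).image g
  have hmem : ∀ x, g x ∈ g '' (⋃ j, C j) := by
    intro x
    have h1 := (hg (g x)).2
    have h2 : (1 : ℕ∞) ≤ min (Set.encard {y | g y = g x}) ((2 : ℕ) : ℕ∞) := by
      refine le_min ?_ (by norm_num)
      exact Set.one_le_encard_iff_nonempty.2 ⟨x, rfl⟩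
    obtain ⟨j, y, hy1, hy2⟩ := Set.one_le_encard_iff_nonempty.1 (h2.trans h1)
    exact ⟨y, Set.mem_iUnion.2 ⟨j, hy1⟩, hy2⟩
  let n := hT.toFinset.card + 1
  have hinj : Function.Injective (fun t : Fin n => g ⟨n, t⟩) := by
    intro s t hst
    by_contra hne
    have hA := (hg (g ⟨n, t⟩)).1
    rcases le_total s t with h | h
    · exact hA (x := ⟨n, s⟩) hst (y := ⟨n, t⟩) rfl (by simpa using hne) (Sigma.mk_le_mk_iff.2 h)
    · exact hA (x := ⟨n, t⟩) rfl (y := ⟨n, s⟩) hst (by simpa using fun e => hne e.symm)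
        (Sigma.mk_le_mk_iff.2 h)
  have hcard := Finset.card_le_card_of_injOn (s := (Finset.univ : Finset (Fin n)))
    (t := hT.toFinset) (fun t : Fin n => g ⟨n, t⟩) (fun t _ => by simpa using hmem ⟨n, t⟩)
    hinj.injOn
  simp [n] at hcard

end Pool.Agent.S07574
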