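import Pool.Statements.S07614

set_option autoImplicit false
open Pool Pool.MP_2117ab_co

namespace Pool.Agent.S07614

def col (u v : Fin 6) : Fin 3 :=
  !![0, 0, 0, 0, 1, 2; 0, 0, 1, 1, 0, 2; 0, 1, 0, 2, 2, 0; 0, 1, 2, 0, 1, 2; 1, 0, 2, 1, 0, 1;
    2, 2, 0, 2, 1, 0] u v

def T (i : Fin 3) : SimpleGraph (Fin 6) where
  Adj u v := u ≠ v ∧ col u v = i
  symm := ⟨by revert i; decide⟩
  loopless := ⟨fun u h => h.1 rfl⟩

instance (i : Fin 3) : DecidableRel (T i).Adj := fun u v =>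
  inferInstanceAs (Decidable (u ≠ v ∧ col u v = i))

theorem tree (i : Fin 3) : (T i).IsTree := by
  rw [SimpleGraph.isTree_iff_connected_and_card, Nat.card_eq_fintype_card,
    Nat.card_eq_fintype_card]
  revert i
  decide +kernel

theorem sgn {a b c a' b' c' : ℝ} (h1 : |a' - b'| < |a - b|) (h2 : |b' - c'| < |b - c|)
    (h3 : |a - c| < |a' - c'|) : b < a ↔ b < c := by
  have h4 := abs_sub_le a' b' c'
  constructor <;> intro h <;> by_contra h' <;> push Not at h'
  · rw [abs_of_nonneg (by linarith : 0 ≤ a - b)] at h1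
    rw [abs_of_nonneg (by linarith : 0 ≤ b - c)] at h2
    rw [abs_of_nonneg (by linarith : 0 ≤ a - c)] at h3
    linarith
  · rw [abs_of_nonpos (by linarith : a - b ≤ 0)] at h1
    rw [abs_of_nonpos (by linarith : b - c ≤ 0)] at h2
    rw [abs_of_nonpos (by linarith : a - c ≤ 0)] at h3
    linarith

theorem sgn' {a b c a' b' c' : ℝ} (h1 : |a' - b'| < |a - b|) (h2 : |b' - c'| < |b - c|)
    (h3 : |a - c| < |a' - c'|) : a < b ↔ c < b := by
  have := sgn (a := -a) (b := -b) (c := -c) (a' := a') (b' := b') (c' := c')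
    (by rwa [neg_sub_neg, abs_sub_comm b]) (by rwa [neg_sub_neg, abs_sub_comm c])
    (by rwa [neg_sub_neg, abs_sub_comm c])
  simpa using this


/-- The negation of the preceding statement: For d ≥ 3, if a finite graph is the edge-disjoint union of d spanning trees, there is a placement in R^d where each edge of tree i has coordinate i as its unique largest coordinate difference (ℓ^∞ colour i). -/
theorem result :
    ¬ (∀ (d : ℕ), 3 ≤ d →
    ∀ (V : Type) [Fintype V] (G : SimpleGraph V) (T : Fin d → SimpleGraph V),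
      (∀ i, (T i).IsTree) →
      (∀ i j, i ≠ j → Disjoint (T i) (T j)) →
      G = ⨆ i, T i →
      ∃ p : V → Fin d → ℝ, ∀ i : Fin d, ∀ u v : V, G.Adj u v →
        ((T i).Adj u v ↔ ∀ j : Fin d, j ≠ i → |p u j - p v j| < |p u i - p v i|)) := by
  intro h
  obtain ⟨p, hp⟩ := h 3 le_rfl (Fin 6) (⨆ i, T i) T tree (by
    intro i j hij
    rw [disjoint_iff_inf_le]
    intro u v h
    exact hij (h.1.2.symm.trans h.2.2)) rfl
  have H : ∀ (u v : Fin 6) (i j : Fin 3), u ≠ v → col u v = i → j ≠ i →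
      |p u j - p v j| < |p u i - p v i| := fun u v i j h1 h2 h3 =>
    (hp i u v (SimpleGraph.iSup_adj.mpr ⟨i, h1, h2⟩)).mp ⟨h1, h2⟩ j h3
  have S : ∀ (u v w : Fin 6) (i j : Fin 3), u ≠ v → v ≠ w → u ≠ w → col u v = i → col v w = i →
      col u w = j → j ≠ i → (p v i < p u i ↔ p v i < p w i) ∧ (p u i < p v i ↔ p w i < p v i) :=
    fun u v w i j a b c d e f g =>
      ⟨sgn (H u v i j a d g) (H v w i j b e g) (H u w j i c f g.symm),
       sgn' (H u v i j a d g) (H v w i j b e g) (H u w j i c f g.symm)⟩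
  have s1 := S 2 1 3 1 2 (by decide) (by decide) (by decide) rfl rfl rfl (by decide)
  have s2 := S 1 3 4 1 0 (by decide) (by decide) (by decide) rfl rfl rfl (by decide)
  have s3 := S 3 4 5 1 2 (by decide) (by decide) (by decide) rfl rfl rfl (by decide)
  have t1 := S 1 5 3 2 1 (by decide) (by decide) (by decide) rfl rfl rfl (by decide)
  have t2 := S 5 3 2 2 0 (by decide) (by decide) (by decide) rfl rfl rfl (by decide)
  have t3 := S 3 2 4 2 1 (by decide) (by decide) (by decide) rfl rfl rfl (by decide)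
  have A : p 1 1 < p 2 1 ↔ p 4 1 < p 5 1 := s1.1.trans (s2.2.trans s3.1)
  have A' : p 2 1 < p 1 1 ↔ p 5 1 < p 4 1 := s1.2.trans (s2.1.trans s3.2)
  have B : p 5 2 < p 1 2 ↔ p 2 2 < p 4 2 := t1.1.trans (t2.2.trans t3.1)
  have B' : p 1 2 < p 5 2 ↔ p 4 2 < p 2 2 := t1.2.trans (t2.1.trans t3.2)
  have e1 := H 1 2 1 2 (by decide) rfl (by decide)
  have e2 := H 4 5 1 2 (by decide) rfl (by decide)
  have e3 := H 5 1 2 1 (by decide) rfl (by decide)
  have e4 := H 2 4 2 1 (by decide) rfl (by decide)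
  have n1 : p 1 1 - p 2 1 ≠ 0 := abs_pos.mp ((abs_nonneg _).trans_lt e1)
  have n3 : p 5 2 - p 1 2 ≠ 0 := abs_pos.mp ((abs_nonneg _).trans_lt e3)
  rw [abs_lt] at e1 e2 e3 e4
  rcases lt_or_gt_of_ne (sub_ne_zero.mp n1) with a | a <;>
    rcases lt_or_gt_of_ne (sub_ne_zero.mp n3) with b | b
  · have a' := A.mp a
    have b' := B.mp b
    rw [abs_of_neg (by linarith)] at e1 e2 e3 e4
    linarith [e1.1, e1.2, e2.1, e2.2, e3.1, e3.2, e4.1, e4.2]
  · have a' := A.mp a
    have b' := B'.mp b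
    rw [abs_of_neg (by linarith)] at e1 e2
    rw [abs_of_pos (by linarith)] at e3 e4
    linarith [e1.1, e1.2, e2.1, e2.2, e3.1, e3.2, e4.1, e4.2]
  · have a' := A'.mp a
    have b' := B.mp b
    rw [abs_of_pos (by linarith)] at e1 e2
    rw [abs_of_neg (by linarith)] at e3 e4
    linarith [e1.1, e1.2, e2.1, e2.2, e3.1, e3.2, e4.1, e4.2]
  · have a' := A'.mp a
    have b' := B'.mp b
    rw [abs_of_pos (by linarith)] at e1 e2 e3 e4
    linarith [e1.1, e1.2, e2.1, e2.2, e3.1, e3.2, e4.1, e4.2]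

end Pool.Agent.S07614
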