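import Pool.Statements.S07641

set_option autoImplicit false
open Pool Pool.MP_229fa6_co

namespace Pool.Agent.S07641

/-- rank form of the deleted isomorphism sends rank `i` to rank `j` for the deleted point with
ranks `a`, `b` -/
def S (a b i j : ℕ) : Prop :=
  (a < i ∧ b < j ∧ i = j) ∨ (i < a ∧ j < b ∧ i = j) ∨ (a < i ∧ j < b ∧ i = j + 1) ∨
    (i < a ∧ b < j ∧ i + 1 = j)

section abs
variable {α : Type} (A B : α → ℕ)

/-- one step -/
def E (x y u v : α) : Prop := ∃ z, S (A z) (B z) (A x) (B u) ∧ S (A z) (B z) (A y) (B v)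

/-- alternating walks of odd length -/
inductive LR : α → α → α → α → Prop
  | base {x y u v : α} : E A B x y u v → LR x y u v
  | step {x y u v x' y' u' v' : α} :
      E A B x y u' v' → E A B x' y' u' v' → LR x' y' u v → LR x y u v

variable {A B}

lemma LR.app {x y u v x' y' u' v' : α} (h : LR A B x y u v) (h1 : E A B x' y' u v)
    (h2 : E A B x' y' u' v') : LR A B x y u' v' := by
  induction h with
  | base h => exact .step h h1 (.base h2)
  | step a b _ ih => exact .step a b (ih h1)

lemma LR.swap {x y u v : α} (h : LR A B x y u v) : LR A B y x v u := by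
  induction h with
  | base h => obtain ⟨z, a, b⟩ := h; exact .base ⟨z, b, a⟩
  | step a b _ ih =>
    obtain ⟨z, a, a'⟩ := a
    obtain ⟨w, b, b'⟩ := b
    exact .step ⟨z, a', a⟩ ⟨w, b', b⟩ ih

/-- reversing a walk between two more steps -/
lemma LR.wrap {x y u v x' y' u' v' : α} (h : LR A B x' y' u' v') (h1 : E A B x y u' v')
    (h2 : E A B x' y' u v) : LR A B x y u v := by
  induction h generalizing x y u v with
  | base h => exact .step h1 h (.base h2)
  | step a b _ ih => exact (ih h1 b).app a h2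

lemma pigeon {n : ℕ} (hA : ∀ i < n, ∃ x, A x = i) (hB : Function.Injective B)
    (U W : Finset ℕ) (hU : ∀ i ∈ U, i < n) (hc : W.card < U.card) :
    ∃ z, A z ∈ U ∧ B z ∉ W := by
  by_contra hno
  push Not at hno
  choose f hf using hA
  have := Finset.card_le_card_of_injOn (s := U) (t := W)
    (fun i => if h : i < n then B (f i h) else 0)
    (fun i hi => by
      have h := hU i hi
      simp only [dif_pos h]
      exact hno _ (by rw [hf]; exact hi))
    (fun i hi j hj h => by
      simp only [dif_pos (hU i hi), dif_pos (hU j hj)] at h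
      rw [← hf i (hU i hi), ← hf j (hU j hj), hB h])
  omega

variable (A B) in
/-- the pair of ranks `(i, k)` on the left is joined to the same pair on the right -/
def Good (i k : ℕ) : Prop :=
  ∀ x y u v, A x = i → A y = k → B u = i → B v = k → LR A B x y u v

variable {n : ℕ} (hA : ∀ i < n, ∃ x, A x = i) (hB : ∀ i < n, ∃ x, B x = i)
  (iA : Function.Injective A) (iB : Function.Injective B) (bA : ∀ x, A x < n) (bB : ∀ x, B x < n)

lemma neutral {i k : ℕ} (z : α) (h : S (A z) (B z) i i ∧ S (A z) (B z) k k) : Good A B i k := by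
  rintro x y u v rfl rfl hu hv
  exact .base ⟨z, by rw [hu]; exact h.1, by rw [hv]; exact h.2⟩

include hA hB in
lemma bimove {i k i' k' : ℕ} (hi : i' < n) (hk : k' < n) (z w : α)
    (hz : S (A z) (B z) i i' ∧ S (A z) (B z) k k') (hw : S (A w) (B w) i' i ∧ S (A w) (B w) k' k)
    (h : Good A B i' k') : Good A B i k := by
  rintro x y u v rfl rfl hu hv
  obtain ⟨x', hx'⟩ := hA i' hi
  obtain ⟨y', hy'⟩ := hA k' hk
  obtain ⟨u', hu'⟩ := hB i' hi
  obtain ⟨v', hv'⟩ := hB k' hk
  exact (h x' y' u' v' hx' hy' hu' hv').wrap ⟨z, by rw [hu']; exact hz.1, by rw [hv']; exact hz.2⟩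
    ⟨w, by rw [hx', hu]; exact hw.1, by rw [hy', hv]; exact hw.2⟩

include hA hB in
lemma dimove {i k i₁ k₁ i₂ k₂ i' k' : ℕ} (hi : i' < n) (hk : k' < n) (hi₁ : i₁ < n)
    (hk₁ : k₁ < n) (hi₂ : i₂ < n) (hk₂ : k₂ < n) (z w : α)
    (h1 : S (A z) (B z) i i₁ ∧ S (A z) (B z) k k₁)
    (h2 : S (A w) (B w) i' i₁ ∧ S (A w) (B w) k' k₁)
    (h3 : S (A z) (B z) i₂ i' ∧ S (A z) (B z) k₂ k')
    (h4 : S (A w) (B w) i₂ i ∧ S (A w) (B w) k₂ k)
    (h : Good A B i' k') : Good A B i k := by
  rintro x y u v rfl rfl hu hv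
  obtain ⟨x', hx'⟩ := hA i' hi
  obtain ⟨y', hy'⟩ := hA k' hk
  obtain ⟨u', hu'⟩ := hB i' hi
  obtain ⟨v', hv'⟩ := hB k' hk
  obtain ⟨u₁, hu₁⟩ := hB i₁ hi₁
  obtain ⟨v₁, hv₁⟩ := hB k₁ hk₁
  obtain ⟨x₂, hx₂⟩ := hA i₂ hi₂
  obtain ⟨y₂, hy₂⟩ := hA k₂ hk₂
  refine .step (u' := u₁) (v' := v₁) (x' := x') (y' := y')
    ⟨z, by rw [hu₁]; exact h1.1, by rw [hv₁]; exact h1.2⟩
    ⟨w, by rw [hx', hu₁]; exact h2.1, by rw [hy', hv₁]; exact h2.2⟩ ?_
  exact (h x' y' u' v' hx' hy' hu' hv').app (x' := x₂) (y' := y₂)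
    ⟨z, by rw [hx₂, hu']; exact h3.1, by rw [hy₂, hv']; exact h3.2⟩
    ⟨w, by rw [hx₂, hu]; exact h4.1, by rw [hy₂, hv]; exact h4.2⟩

include hA hB iA iB bA bB in
lemma wide (m : ℕ) : ∀ i k, k < n → i + 4 ≤ k → n + i ≤ k + m → Good A B i k := by
  induction m with
  | zero => intro i k h1 h2 h3; omega
  | succ m ih =>
    intro i k hk hik hm
    obtain ⟨w, hw, hw'⟩ := pigeon hA iB (Finset.Ioo i k) {i, k}
      (fun j hj => by have := Finset.mem_Ioo.1 hj; omega)
      (lt_of_le_of_lt Finset.card_le_two (by simp; omega))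
    obtain ⟨z, hz, hz'⟩ := pigeon hB iA (Finset.Ioo i k) {i, k}
      (fun j hj => by have := Finset.mem_Ioo.1 hj; omega)
      (lt_of_le_of_lt Finset.card_le_two (by simp; omega))
    simp only [Finset.mem_Ioo, Finset.mem_insert, Finset.mem_singleton, not_or] at hw hw' hz hz'
    have b1 := bA z
    have b2 := bB w
    by_cases c1 : i < B w ∧ B w < k
    · exact neutral w (by unfold S; omega)
    by_cases c2 : i < A z ∧ A z < k
    · exact neutral z (by unfold S; omega)
    by_cases c3 : A z < i <;> by_cases c4 : B w < i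
    · exact bimove hA hB (i' := i - 1) (k' := k) (by omega) hk z w (by unfold S; omega)
        (by unfold S; omega) (ih _ _ hk (by omega) (by omega))
    · exact dimove hA hB (i' := i - 1) (k' := k + 1) (i₁ := i - 1) (k₁ := k) (i₂ := i)
        (k₂ := k + 1) (by omega) (by omega) (by omega) (by omega) (by omega) (by omega) z w
        (by unfold S; omega) (by unfold S; omega) (by unfold S; omega) (by unfold S; omega)
        (ih _ _ (by omega) (by omega) (by omega))
    · exact dimove hA hB (i' := i - 1) (k' := k + 1) (i₁ := i) (k₁ := k + 1) (i₂ := i - 1)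
        (k₂ := k) (by omega) (by omega) (by omega) (by omega) (by omega) (by omega) z w
        (by unfold S; omega) (by unfold S; omega) (by unfold S; omega) (by unfold S; omega)
        (ih _ _ (by omega) (by omega) (by omega))
    · exact bimove hA hB (i' := i) (k' := k + 1) (by omega) (by omega) z w (by unfold S; omega)
        (by unfold S; omega) (ih _ _ (by omega) (by omega) (by omega))

include hA hB iA iB in
lemma narrow (hn : 15 ≤ n) (i : ℕ) : ∀ k, k < n → i < k → k ≤ i + 3 → Good A B i k := by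
  induction i using Nat.strong_induction_on with
  | _ i ih =>
    intro k hk hik hki
    by_cases c : i ≤ 3
    · obtain ⟨z, hz, hz'⟩ := pigeon hA iB (Finset.Ioo k n) (Finset.range (k + 1))
        (fun j hj => (Finset.mem_Ioo.1 hj).2) (by simp; omega)
      simp only [Finset.mem_Ioo, Finset.mem_range] at hz hz'
      exact neutral z (by unfold S; omega)
    obtain ⟨z, hz, hz'⟩ := pigeon hA iB (Finset.range i) (Finset.Ico i k)
      (fun j hj => by have := Finset.mem_range.1 hj; omega) (by simp; omega)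
    obtain ⟨w, hw, hw'⟩ := pigeon hB iA (Finset.range i) (Finset.Ico i k)
      (fun j hj => by have := Finset.mem_range.1 hj; omega) (by simp; omega)
    simp only [Finset.mem_Ico, Finset.mem_range] at hw hw' hz hz'
    by_cases c1 : B z < i
    · exact neutral z (by unfold S; omega)
    by_cases c2 : A w < i
    · exact neutral w (by unfold S; omega)
    exact bimove hA hB (i' := i - 1) (k' := k - 1) (by omega) (by omega) z w
      (by unfold S; omega) (by unfold S; omega) (ih _ (by omega) _ (by omega) (by omega) (by omega))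

include hA hB iA iB bA bB in
lemma good (hn : 15 ≤ n) {i k : ℕ} (hk : k < n) (hik : i < k) : Good A B i k := by
  by_cases c : k ≤ i + 3
  · exact narrow hA hB iA iB hn i k hk hik c
  · exact wide hA hB iA iB bA bB n i k hk (by omega) (by omega)

lemma LR.seq {x y u v : α} (h : LR A B x y u v) :
    ∃ k : ℕ, ∃ s p q : ℕ → α, p 0 = x ∧ q 0 = y ∧ p (2 * k + 1) = u ∧ q (2 * k + 1) = v ∧
      ∀ i < 2 * k + 1,
        (i % 2 = 0 → S (A (s i)) (B (s i)) (A (p i)) (B (p (i + 1))) ∧
          S (A (s i)) (B (s i)) (A (q i)) (B (q (i + 1)))) ∧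
        (i % 2 = 1 → S (A (s i)) (B (s i)) (A (p (i + 1))) (B (p i)) ∧
          S (A (s i)) (B (s i)) (A (q (i + 1))) (B (q i))) := by
  induction h with
  | @base x y u v h =>
    obtain ⟨z, a, b⟩ := h
    refine ⟨0, fun _ => z, fun i => if i = 0 then x else u, fun i => if i = 0 then y else v,
      rfl, rfl, rfl, rfl, fun i hi => ?_⟩
    obtain rfl : i = 0 := by omega
    exact ⟨fun _ => ⟨a, b⟩, fun h => by omega⟩
  | @step x y u v x' y' u' v' a b _ ih =>
    obtain ⟨z, a, a'⟩ := a
    obtain ⟨w, b, b'⟩ := b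
    obtain ⟨k, s, p, q, rfl, rfl, h3, h4, h5⟩ := ih
    refine ⟨k + 1, fun i => match i with | 0 => z | 1 => w | i + 2 => s i,
      fun i => match i with | 0 => x | 1 => u' | i + 2 => p i,
      fun i => match i with | 0 => y | 1 => v' | i + 2 => q i, rfl, rfl, h3, h4, fun i hi => ?_⟩
    match i with
    | 0 => exact ⟨fun _ => ⟨a, a'⟩, fun h => by omega⟩
    | 1 => exact ⟨fun h => by omega, fun _ => ⟨b, b'⟩⟩
    | i + 2 =>
      have := h5 i (by omega)
      exact ⟨fun h => this.1 (by omega), fun h => this.2 (by omega)⟩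

end abs

lemma card_lt {n : ℕ} (σ : Equiv.Perm (Fin n)) (z a : Fin n) :
    (Finset.univ.filter (fun e : Fin n => e ≠ z ∧ σ e < σ a)).card =
      if (σ z).val < (σ a).val then (σ a).val - 1 else (σ a).val := by
  have h1 : (Finset.univ.filter (fun e : Fin n => σ e < σ a)).card = (σ a).val := by
    rw [← Fin.card_Iio (σ a)]
    refine Finset.card_bij (fun e _ => σ e) (fun e he => by simpa using he)
      (fun e _ f _ h => σ.injective h) (fun c hc => ⟨σ.symm c, by simpa using hc, by simp⟩)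
  have h2 : Finset.univ.filter (fun e : Fin n => e ≠ z ∧ σ e < σ a) =
      (Finset.univ.filter (fun e : Fin n => σ e < σ a)).erase z := by
    ext e; simp
  rw [h2, Finset.card_erase_eq_ite, h1]
  simp

/-- For all large n, any two linear orders on an n-set, and any two distinct points x,y: some alternating composite φ_{z1}, φ_{z2}⁻¹, φ_{z3}, … (odd length) of the point-deleted order isomorphisms is defined at x and y and agrees there with the full isomorphism. -/
theorem result :
  ∃ N : ℕ, ∀ n : ℕ, N ≤ n → ∀ σ τ : Equiv.Perm (Fin n),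
    ∀ R : Fin n → Fin n → Fin n → Prop,
    (∀ z a b : Fin n, R z a b ↔
      (a ≠ z ∧ b ≠ z ∧
        (Finset.univ.filter (fun e : Fin n => e ≠ z ∧ σ e < σ a)).card =
        (Finset.univ.filter (fun e : Fin n => e ≠ z ∧ τ e < τ b)).card)) →
    ∀ x y : Fin n, x ≠ y →
    ∃ k : ℕ, ∃ s : Fin (2 * k + 1) → Fin n, ∃ p q : Fin (2 * k + 1 + 1) → Fin n,
      p 0 = x ∧ q 0 = y ∧
      p (Fin.last (2 * k + 1)) = τ.symm (σ x) ∧
      q (Fin.last (2 * k + 1)) = τ.symm (σ y) ∧
      ∀ i : Fin (2 * k + 1),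
        (Even i.val →
          R (s i) (p i.castSucc) (p i.succ) ∧ R (s i) (q i.castSucc) (q i.succ)) ∧
        (Odd i.val →
          R (s i) (p i.succ) (p i.castSucc) ∧ R (s i) (q i.succ) (q i.castSucc)) := by
  refine ⟨15, fun n hn σ τ R hR x y hxy => ?_⟩
  have key : ∀ z a b : Fin n, S (σ z).val (τ z).val (σ a).val (τ b).val → R z a b := by
    intro z a b h
    rw [hR, card_lt, card_lt]
    unfold S at h
    refine ⟨?_, ?_, ?_⟩
    · rintro rfl; omega
    · rintro rfl; omega
    · split_ifs <;> omega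
  have g : ∀ i k, k < n → i < k → Good (fun e => (σ e).val) (fun e => (τ e).val) i k :=
    fun i k hk hik => good (fun i hi => ⟨σ.symm ⟨i, hi⟩, by simp⟩)
      (fun i hi => ⟨τ.symm ⟨i, hi⟩, by simp⟩)
      (fun a b h => σ.injective (Fin.ext h)) (fun a b h => τ.injective (Fin.ext h))
      (fun a => (σ a).2) (fun a => (τ a).2) hn hk hik
  have hl : LR (fun e => (σ e).val) (fun e => (τ e).val) x y (τ.symm (σ x)) (τ.symm (σ y)) := by
    have hne : (σ x).val ≠ (σ y).val := fun h => hxy (σ.injective (Fin.ext h))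
    rcases lt_or_gt_of_ne hne with h | h
    · exact g _ _ (σ y).2 h _ _ _ _ rfl rfl (by simp) (by simp)
    · exact (g _ _ (σ x).2 h _ _ _ _ rfl rfl (by simp) (by simp)).swap
  obtain ⟨k, s, p, q, h1, h2, h3, h4, h5⟩ := hl.seq
  refine ⟨k, fun i => s i, fun i => p i, fun i => q i, h1, h2, h3, h4, fun i => ?_⟩
  have := h5 i i.2
  exact ⟨fun h => ⟨key _ _ _ (this.1 (Nat.even_iff.1 h)).1, key _ _ _ (this.1 (Nat.even_iff.1 h)).2⟩,
    fun h => ⟨key _ _ _ (this.2 (Nat.odd_iff.1 h)).1, key _ _ _ (this.2 (Nat.odd_iff.1 h)).2⟩⟩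

end Pool.Agent.S07641
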