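import Pool.Statements.S07661

set_option autoImplicit false
open Pool Pool.MP_238aad_co

namespace Pool.Agent.S07661

set_option maxSynthPendingDepth 3

lemma union_small (U : Ultrafilter ℕ) {A B : Set ℕ} (hA : A ∉ U) (hB : B ∉ U) : A ∪ B ∉ U := by
  intro h
  rcases Ultrafilter.union_mem_iff.1 h with h | h
  · exact hA h
  · exact hB h

lemma sub_small (U : Ultrafilter ℕ) {A B : Set ℕ} (hAB : A ⊆ B) (hB : B ∉ U) : A ∉ U :=
  fun h => hB (Filter.mem_of_superset h hAB)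

/-- pairwise disjoint small sets, chosen recursively -/
lemma rec_disj (U : Ultrafilter ℕ) (P : ℕ → Set ℕ → Prop)
    (H : ∀ n, ∀ A : Set ℕ, A ∉ U → ∃ T : Set ℕ, T ∉ U ∧ Disjoint T A ∧ P n T) :
    ∃ T : ℕ → Set ℕ, (∀ n, T n ∉ U ∧ P n (T n)) ∧ ∀ m n, m ≠ n → Disjoint (T m) (T n) := by
  choose τ hτ using H
  let A : ℕ → {A : Set ℕ // A ∉ U} := fun n => Nat.rec ⟨∅, Ultrafilter.empty_notMem⟩
    (fun k a => ⟨a.1 ∪ τ k a.1 a.2, union_small U a.2 (hτ k a.1 a.2).1⟩) n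
  have hA : ∀ n, (A (n + 1)).1 = (A n).1 ∪ τ n (A n).1 (A n).2 := fun n => rfl
  have hsub : ∀ m n, m < n → τ m (A m).1 (A m).2 ⊆ (A n).1 := by
    intro m n h
    induction h with
    | refl => rw [hA]; exact Set.subset_union_right
    | step _ ih => rw [hA]; exact ih.trans Set.subset_union_left
  refine ⟨fun n => τ n (A n).1 (A n).2, fun n => ⟨(hτ n _ _).1, (hτ n _ _).2.2⟩, ?_⟩
  intro m n hmn
  rcases lt_or_gt_of_ne hmn with h | h
  · exact ((hτ n _ (A n).2).2.1.mono_right (hsub m n h)).symm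
  · exact (hτ m _ (A m).2).2.1.mono_right (hsub n m h)

/-- a two-colouring for a regressive family -/
lemma two_col (T : ℕ → Set ℕ) (hd : ∀ m n, m ≠ n → Disjoint (T m) (T n))
    (hr : ∀ e, ∀ x ∈ T e, e < x) : ∃ c : ℕ → Bool, ∀ e, ∀ x ∈ T e, c x = !c e := by
  classical
  let c : ℕ → Bool := fun x => Nat.strongRec (motive := fun _ => Bool)
    (fun x ih => if h : ∃ e, x ∈ T e then !(ih h.choose (hr _ _ h.choose_spec)) else false) x
  refine ⟨c, fun e x hx => ?_⟩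
  have h : ∃ e, x ∈ T e := ⟨e, hx⟩
  have he : h.choose = e := by
    by_contra hne
    exact Set.disjoint_left.1 (hd _ _ hne) h.choose_spec hx
  have : c x = !c h.choose := by
    simp only [c]
    rw [Nat.strongRec_eq, dif_pos h]
  rw [this, he]

lemma key (U : Ultrafilter ℕ) (hfin : ∀ n : ℕ, Set.Iic n ∉ U) (ψ : Set ℕ → Set ℕ)
    (hmono : ∀ S T : Set ℕ, T ∉ U → S ⊆ T → ψ S ⊆ ψ T)
    (hinf : ∀ T : Set ℕ, T ∉ U → T ⊆ ψ T) (hsm : ∀ T : Set ℕ, T ∉ U → ψ T ∉ U)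
    (F : Set ℕ) (hF : F ∉ U) :
    ∃ C : Set ℕ, C ∉ U ∧ Disjoint C F ∧ ∃ e ∈ C, ∀ T : Set ℕ, T ∉ U → Disjoint T C → e ∉ ψ T := by
  by_contra hcon
  push Not at hcon
  have H : ∀ e, ∀ A : Set ℕ, A ∉ U → ∃ T : Set ℕ, T ∉ U ∧ Disjoint T A ∧
      ((∀ x ∈ T, e < x) ∧ e ∈ ψ (T ∪ F)) := by
    intro e A hA
    by_cases he : e ∈ F
    · refine ⟨∅, Ultrafilter.empty_notMem, by simp, by simp, ?_⟩
      rw [Set.empty_union]
      exact hinf F hF he
    · obtain ⟨T, hT, hdis, hT2⟩ := hcon ((Set.Iic e ∪ A) \ F)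
        (sub_small U Set.diff_subset (union_small U (hfin e) hA)) Set.disjoint_sdiff_left e
        ⟨Or.inl (le_refl e), he⟩
      refine ⟨T \ F, sub_small U Set.diff_subset hT, ?_, ?_, ?_⟩
      · rw [Set.disjoint_left]
        intro x hx hxA
        exact Set.disjoint_left.1 hdis hx.1 ⟨Or.inr hxA, hx.2⟩
      · intro x hx
        by_contra hle
        exact Set.disjoint_left.1 hdis hx.1 ⟨Or.inl (not_lt.1 hle), hx.2⟩
      · refine hmono T _ (union_small U (sub_small U Set.diff_subset hT) hF) ?_ hT2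
        intro x hx
        by_cases hxF : x ∈ F
        · exact Or.inr hxF
        · exact Or.inl ⟨hx, hxF⟩
  obtain ⟨T, hT, hd⟩ := rec_disj U _ H
  obtain ⟨c, hc⟩ := two_col T hd (fun e => (hT e).2.1)
  obtain ⟨b, hb⟩ : ∃ b : Bool, {x | c x = b} ∈ U := by
    by_cases h : {x | c x = true} ∈ U
    · exact ⟨true, h⟩
    · refine ⟨false, ?_⟩
      have := Ultrafilter.compl_mem_iff_notMem.2 h
      refine Filter.mem_of_superset this ?_
      intro x hx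
      simpa using hx
  have hW : {x | c x = b}ᶜ ∉ U := Ultrafilter.compl_notMem_iff.2 hb
  refine hsm _ (union_small U hW hF) (Filter.mem_of_superset hb ?_)
  intro e he
  refine hmono _ _ (union_small U hW hF) (Set.union_subset_union_left _ ?_) (hT e).2.2
  intro x hx
  have h1 := hc e x hx
  have h2 : c e = b := he
  simp only [Set.mem_compl_iff, Set.mem_ofPred_eq]
  rw [h1, h2]
  cases b <;> simp

lemma code (U : Ultrafilter ℕ) (hfin : ∀ n : ℕ, Set.Iic n ∉ U) (ψ : Set ℕ → Set ℕ)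
    (hmono : ∀ S T : Set ℕ, T ∉ U → S ⊆ T → ψ S ⊆ ψ T)
    (hinf : ∀ T : Set ℕ, T ∉ U → T ⊆ ψ T) (hsm : ∀ T : Set ℕ, T ∉ U → ψ T ∉ U) :
    ∃ (e : ℕ → ℕ) (C : Set ℕ), C ∉ U ∧ (∀ n, e n ∈ C) ∧
      ∀ S : Set ℕ, S ∉ U → ∀ n, n ∉ S → e n ∉ ψ (e '' S ∪ (S \ C)) := by
  obtain ⟨D, hD, hd⟩ := rec_disj U
    (fun _ C => ∃ e ∈ C, ∀ T : Set ℕ, T ∉ U → Disjoint T C → e ∉ ψ T)
    (fun _ F hF => key U hfin ψ hmono hinf hsm F hF)
  choose e he1 he2 using fun n => (hD n).2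
  obtain ⟨i, hi⟩ : ∃ i : ℕ, (⋃ n, D (2 * n + i)) ∉ U := by
    by_cases h : (⋃ n, D (2 * n + 0)) ∈ U
    · refine ⟨1, sub_small U ?_ (Ultrafilter.compl_notMem_iff.2 h)⟩
      intro x hx hx'
      obtain ⟨m, hm⟩ := Set.mem_iUnion.1 hx
      obtain ⟨n, hn⟩ := Set.mem_iUnion.1 hx'
      exact Set.disjoint_left.1 (hd _ _ (by omega)) hm hn
    · exact ⟨0, h⟩
  have hC : ∀ n, e (2 * n + i) ∈ ⋃ n, D (2 * n + i) := fun n => Set.mem_iUnion.2 ⟨n, he1 _⟩
  refine ⟨fun n => e (2 * n + i), _, hi, hC, fun S hS n hn => he2 _ _ ?_ ?_⟩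
  · refine union_small U (sub_small U ?_ hi) (sub_small U Set.diff_subset hS)
    rintro x ⟨m, -, rfl⟩
    exact hC m
  · rw [Set.disjoint_left]
    rintro x (⟨m, hm, rfl⟩ | hx) hx'
    · have : m ≠ n := fun h => hn (h ▸ hm)
      exact Set.disjoint_left.1 (hd _ _ (by omega)) (he1 _) hx'
    · exact hx.2 (Set.mem_iUnion.2 ⟨n, hx'⟩)

/-- For every nonprincipal ultrafilter U on ℕ (ordered by inclusion) and monotone f:U→U whose images of coatoms have no common lower bound in f(U), U is a retract of f(U) via monotone maps g, h with g∘h = id. -/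
theorem result :
    ∀ U : Ultrafilter ℕ, (∀ n : ℕ, U ≠ pure n) →
      ∀ f : {s : Set ℕ // s ∈ U} → {s : Set ℕ // s ∈ U}, Monotone f →
        (¬ ∃ y : {s : Set ℕ // s ∈ U}, y ∈ Set.range f ∧
            ∀ c : {s : Set ℕ // s ∈ U},
              (c.1 ≠ Set.univ ∧ ∀ t : {s : Set ℕ // s ∈ U}, c.1 ⊆ t.1 → t.1 = c.1 ∨ t.1 = Set.univ) →
              y ≤ f c) →
        ∃ g : ↥(Set.range f) → {s : Set ℕ // s ∈ U},
          ∃ h : {s : Set ℕ // s ∈ U} → ↥(Set.range f),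
            Monotone g ∧ Monotone h ∧ ∀ x, g (h x) = x := by
  intro U hU f hf hlb
  have hfin : ∀ n : ℕ, Set.Iic n ∉ U := by
    intro n h
    obtain ⟨x, -, hx⟩ := Ultrafilter.eq_pure_of_finite_mem (Set.finite_Iic n) h
    exact hU x hx
  have hco : ∀ n : ℕ, ({n}ᶜ : Set ℕ) ∈ U := fun n =>
    Ultrafilter.compl_mem_iff_notMem.2 (sub_small U (by simp) (hfin n))
  let co : ℕ → {s : Set ℕ // s ∈ U} := fun n => ⟨{n}ᶜ, hco n⟩
  have hb : ∀ (A : {s : Set ℕ // s ∈ U}) (n : ℕ), n ∉ A.1 → f A ≤ f (co n) := by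
    intro A n hn
    apply hf
    intro x hx hxn
    exact hn (hxn ▸ hx)
  have hc : ∀ A : {s : Set ℕ // s ∈ U}, {n | f A ≤ f (co n)} ∉ U := by
    intro A hA
    apply hlb
    refine ⟨f ⟨A.1 ∩ {n | f A ≤ f (co n)}, Filter.inter_mem A.2 hA⟩, ⟨_, rfl⟩, ?_⟩
    rintro c ⟨hc1, hc2⟩
    obtain ⟨n, hn⟩ := (Set.ne_univ_iff_exists_notMem _).1 hc1
    have hcn : c = co n := by
      rcases hc2 (co n) (fun x hx hxn => hn (hxn ▸ hx)) with h | h
      · exact Subtype.ext h.symm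
      · have : n ∈ (co n).1 := h ▸ Set.mem_univ n
        exact absurd rfl this
    rw [hcn]
    by_cases h : f A ≤ f (co n)
    · exact le_trans (hf (fun x hx => hx.1)) h
    · exact hb _ n (fun hx => h hx.2)
  obtain ⟨e, C, hC, heC, hcode⟩ := code U hfin
    (fun T => {n | ∃ h : Tᶜ ∈ U, f ⟨Tᶜ, h⟩ ≤ f (co n)})
    (by
      rintro S T hT hST n ⟨h1, h2⟩
      exact ⟨Ultrafilter.compl_mem_iff_notMem.2 hT,
        le_trans (hf (Set.compl_subset_compl.2 hST)) h2⟩)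
    (fun T hT n hn => ⟨Ultrafilter.compl_mem_iff_notMem.2 hT, hb _ n (fun h => h hn)⟩)
    (fun T hT => sub_small U (fun n hn => hn.2)
      (hc ⟨Tᶜ, Ultrafilter.compl_mem_iff_notMem.2 hT⟩))
  have hα : ∀ A : {s : Set ℕ // s ∈ U}, (e '' A.1ᶜ ∪ (A.1ᶜ \ C))ᶜ ∈ U := by
    intro A
    refine Ultrafilter.compl_mem_iff_notMem.2 (union_small U (sub_small U ?_ hC)
      (sub_small U Set.diff_subset (Ultrafilter.compl_notMem_iff.2 A.2)))
    rintro x ⟨m, -, rfl⟩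
    exact heC m
  have hβ : ∀ q : ↥(Set.range f),
      {n | q.1 ≤ f (co (e n)) ∧ (q.1 ≤ f (co n) ∨ n ∈ C)}ᶜ ∈ U := by
    rintro ⟨q, A, rfl⟩
    exact Ultrafilter.compl_mem_iff_notMem.2
      (sub_small U (fun n hn => hn.2) (union_small U (hc A) hC))
  refine ⟨fun q => ⟨_, hβ q⟩, fun A => ⟨f ⟨_, hα A⟩, ⟨_, rfl⟩⟩, ?_, ?_, ?_⟩
  · intro q q' h
    have h' : q.1 ≤ q'.1 := h
    refine Set.compl_subset_compl.2 ?_
    rintro n ⟨h1, h2⟩
    exact ⟨h'.trans h1, h2.imp (fun h3 => h'.trans h3) id⟩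
  · intro A A' h
    have h' : A'.1ᶜ ⊆ A.1ᶜ := Set.compl_subset_compl.2 h
    exact hf (Set.compl_subset_compl.2 (Set.union_subset_union (Set.image_mono h')
      (Set.diff_subset_diff_left h')))
  · intro A
    apply Subtype.ext
    ext n
    constructor
    · intro hn
      by_contra hnA
      apply hn
      refine ⟨hb _ _ (fun h => h (Or.inl ⟨n, hnA, rfl⟩)), ?_⟩
      by_cases h : n ∈ C
      · exact Or.inr h
      · exact Or.inl (hb _ _ (fun h' => h' (Or.inr ⟨hnA, h⟩)))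
    · intro hn h
      exact hcode A.1ᶜ (Ultrafilter.compl_notMem_iff.2 A.2) n (fun h' => h' hn) ⟨hα A, h.1⟩

end Pool.Agent.S07661
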