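import Pool.Statements.S07755
import Pool.Agent.H33.Car

set_option autoImplicit false
open Matrix
open Pool Pool.MP_284e51_co

namespace Pool.Agent.S07755

/-- For every finite simplicial complex and every k ≥ 1, any constant bounding the squared stretch of the boundary map ∂_k also bounds that of ∂_{k+1}; that is, the largest singular value of ∂_{k+1} is at most that of ∂_k. -/
theorem result :
    ∀ (n : ℕ) (K : Finset (Finset (Fin n))),
      (∀ s ∈ K, ∀ t : Finset (Fin n), t ⊆ s → t.Nonempty → t ∈ K) →
      ∀ D : ℕ → Matrix (Finset (Fin n)) (Finset (Fin n)) ℝ,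
        (∀ (m : ℕ) (t s : Finset (Fin n)),
          D m t s =
            if s ∈ K ∧ s.card = m then
              ∑ v ∈ s, (if t = s.erase v then
                (-1 : ℝ) ^ (Finset.filter (fun w => w < v) s).card else 0)
            else 0) →
        ∀ k : ℕ, 1 ≤ k →
          ∀ c : ℝ,
            (∀ y : Finset (Fin n) → ℝ,
              (D (k + 1) *ᵥ y) ⬝ᵥ (D (k + 1) *ᵥ y) ≤ c * (y ⬝ᵥ y)) →
            ∀ x : Finset (Fin n) → ℝ,
              (D (k + 2) *ᵥ x) ⬝ᵥ (D (k + 2) *ᵥ x) ≤ c * (x ⬝ᵥ x) := by
  intro n K hK D hD k hk c hc x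
  have e : ∀ m (y : H33.Car.W n), D m *ᵥ y =
      H33.Car.d fun s => if s ∈ K ∧ s.card = m then y s else 0 := fun m y => funext fun t => by
    have : ∀ v (z : H33.Car.W n), H33.Car.a v z t =
        ∑ s, if v ∈ s then (if t = s.erase v then H33.Car.sg v s else 0) * z s else 0 := by
      intro v z
      rw [Finset.sum_eq_single (insert v t)]
      · by_cases hv : v ∈ t
        · have : t ≠ t.erase v := fun e => Finset.notMem_erase v t (e ▸ hv)
          simp [H33.Car.a, hv, this]
        · simp [H33.Car.a, hv, H33.Car.sg_ins v]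
      · intro s _ hs
        by_cases hv : v ∈ s
        · rw [if_pos hv, if_neg, zero_mul]
          rintro rfl
          exact hs (Finset.insert_erase hv).symm
        · exact if_neg hv
      · simp
    simp only [H33.Car.d, this, mulVec, dotProduct, hD]
    rw [Finset.sum_comm]
    refine Finset.sum_congr rfl fun s _ => ?_
    split_ifs
    · simp [Finset.sum_mul, H33.Car.sg]
    · simp
  have h0 : 0 ≤ c := by
    have h1 := (Finset.sum_nonneg fun t _ => mul_self_nonneg _).trans (hc 1)
    refine nonneg_of_mul_nonneg_left h1 ?_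
    simpa [dotProduct] using Fintype.card_pos
  have := H33.Car.main (fun s => s ∈ K ∧ s.card = k + 1) (fun s => s ∈ K ∧ s.card = k + 2) k
    (fun _ h => h.2) (fun s h => ⟨h.2, fun v hv => by
      have : (s.erase v).card = k + 1 := by rw [Finset.card_erase_of_mem hv, h.2]; rfl
      exact ⟨hK s h.1 _ (Finset.erase_subset v s) (Finset.card_pos.1 (by omega)), this⟩⟩) h0
    (fun y hy => by
      have := hc y
      rw [e, show (fun s => if s ∈ K ∧ s.card = k + 1 then y s else 0) = y from
        funext fun s => ite_eq_left_iff.2 fun h => (hy s h).symm] at this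
      simpa only [dotProduct, sq] using this)
    (fun s => if s ∈ K ∧ s.card = k + 2 then x s else 0) fun t ht => if_neg ht
  rw [e]
  simp only [dotProduct, ← sq]
  refine this.trans (mul_le_mul_of_nonneg_left (Finset.sum_le_sum fun s _ => ?_) h0)
  split_ifs
  · rfl
  · simpa using sq_nonneg (x s)

end Pool.Agent.S07755
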