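import Pool.Statements.S07792
-- import your own Pool.Agent.* helpers here

set_option autoImplicit false
open Pool Pool.MP_29e5d4_co

namespace Pool.Agent.S07792

open Finset

/-- bit table -/
def tb (L : List ℕ) (u v : Fin 12) : Bool := (L.getD u.val 0).testBit v.val

/-- the counterexample: 12 vertices, 20 edges -/
def GG : SimpleGraph (Fin 12) where
  Adj u v := tb [2314, 1089, 3600, 129, 1188, 528, 3330, 2072, 1089, 36, 342, 197] u v = true
  symm := ⟨by decide +kernel⟩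
  loopless := ⟨by decide +kernel⟩

instance : DecidableRel GG.Adj := fun u v => by unfold GG; infer_instance

theorem lb (H : SimpleGraph (Fin 12)) (cl : Fin 12 → Fin 12 → Bool)
    (h : ∀ u w, u = w ∨ H.Adj u w → cl u w = true) (k : ℕ)
    (hk : ∀ f : Fin k → Fin 12, ∃ w, ∀ i, cl (f i) w = false) :
    k < sInf {n : ℕ | ∃ D : Finset (Fin 12), (↑D : Set (Fin 12)) ⊆ Set.univ ∧ D.card = n ∧
      ∀ w ∈ (Set.univ : Set (Fin 12)), w ∈ D ∨ ∃ u ∈ D, H.Adj u w} := by
  classical
  have hne : {n : ℕ | ∃ D : Finset (Fin 12), (↑D : Set (Fin 12)) ⊆ Set.univ ∧ D.card = n ∧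
      ∀ w ∈ (Set.univ : Set (Fin 12)), w ∈ D ∨ ∃ u ∈ D, H.Adj u w}.Nonempty :=
    ⟨_, univ, by simp, rfl, by simp⟩
  obtain ⟨D, -, h1, h2⟩ := Nat.sInf_mem hne
  by_contra hc
  obtain ⟨e⟩ : Nonempty (D ↪ Fin k) := Function.Embedding.nonempty_of_card_le (by
    simp only [Fintype.card_coe, Fintype.card_fin]
    omega)
  obtain ⟨w, hw⟩ := hk (Function.extend e Subtype.val (fun _ => 0))
  have h3 : ∀ u ∈ D, cl u w = false := by
    intro u hu
    have := hw (e ⟨u, hu⟩)
    rwa [e.injective.extend_apply] at this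
  rcases h2 w (Set.mem_univ w) with h4 | ⟨u, hu, h4⟩
  · have := h w w (Or.inl rfl)
    rw [h3 w h4] at this
    exact absurd this (by simp)
  · have := h u w (Or.inr h4)
    rw [h3 u hu] at this
    exact absurd this (by simp)

theorem c3 : ∀ a b c : Fin 12, ∃ w : Fin 12, tb [2315, 1091, 3604, 137, 1204, 560, 3394, 2200, 1345, 548, 1366, 2245] a w = false ∧
    tb [2315, 1091, 3604, 137, 1204, 560, 3394, 2200, 1345, 548, 1366, 2245] b w = false ∧ tb [2315, 1091, 3604, 137, 1204, 560, 3394, 2200, 1345, 548, 1366, 2245] c w = false := by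
  decide +kernel

theorem c4 : ∀ a b c d : Fin 12, ∃ w : Fin 12, tb [2307, 1091, 3604, 136, 1204, 48, 3394, 2200, 1345, 516, 1366, 2245] a w = false ∧
    tb [2307, 1091, 3604, 136, 1204, 48, 3394, 2200, 1345, 516, 1366, 2245] b w = false ∧ tb [2307, 1091, 3604, 136, 1204, 48, 3394, 2200, 1345, 516, 1366, 2245] c w = false ∧
    tb [2307, 1091, 3604, 136, 1204, 48, 3394, 2200, 1345, 516, 1366, 2245] d w = false := by
  decide +kernel

/-- dominating sets of the vertex-deleted graphs -/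
def WW : Fin 12 → Finset (Fin 12) := ![{5, 7, 10}, {7, 8, 9}, {3, 5, 6}, {5, 6, 11}, {3, 6, 9}, {0, 2, 11}, {0, 2, 4}, {0, 5, 10}, {1, 7, 9}, {0, 1, 4}, {0, 5, 11}, {3, 5, 10}]

theorem cW : ∀ v : Fin 12, v ∉ WW v ∧ (WW v).card = 3 ∧
    ∀ w, w ≠ v → w ∈ WW v ∨ ∃ u ∈ WW v, GG.Adj u w := by
  decide +kernel

/-- The negation of the preceding statement: For every finite graph G in which deleting any single vertex lowers the domination number, deleting any set of at most δ(G) edges never raises the domination number; that is, the bondage number is at least δ(G)+1. -/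
theorem result :
    ¬ (∀ (V : Type) [Fintype V] [DecidableEq V] (G : SimpleGraph V) [DecidableRel G.Adj]
      (γ : SimpleGraph V → Set V → ℕ),
      (∀ (H : SimpleGraph V) (S : Set V),
        γ H S = sInf {n : ℕ | ∃ D : Finset V, (↑D : Set V) ⊆ S ∧ D.card = n ∧
          ∀ w ∈ S, w ∈ D ∨ ∃ u ∈ D, H.Adj u w}) →
      (∀ v : V, γ G {w | w ≠ v} < γ G Set.univ) →
      ∀ E' : Finset (Sym2 V), (↑E' : Set (Sym2 V)) ⊆ G.edgeSet →
        E'.card ≤ G.minDegree →
        γ (G.deleteEdges (↑E' : Set (Sym2 V))) Set.univ ≤ γ G Set.univ) := by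
  intro h
  have h3 := lb GG (tb [2315, 1091, 3604, 137, 1204, 560, 3394, 2200, 1345, 548, 1366, 2245]) (by decide +kernel) 3 (fun f => by
    obtain ⟨w, h0, h1, h2⟩ := c3 (f 0) (f 1) (f 2)
    exact ⟨w, fun i => by fin_cases i <;> assumption⟩)
  have h4 := lb (GG.deleteEdges (↑({s(0, 3), s(5, 9)} : Finset (Sym2 (Fin 12))) : Set (Sym2 (Fin 12))))
    (tb [2307, 1091, 3604, 136, 1204, 48, 3394, 2200, 1345, 516, 1366, 2245]) (by
      simp only [SimpleGraph.deleteEdges_adj, mem_coe]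
      decide +kernel) 4 (fun f => by
    obtain ⟨w, h0, h1, h2, h3⟩ := c4 (f 0) (f 1) (f 2) (f 3)
    exact ⟨w, fun i => by fin_cases i <;> assumption⟩)
  have h5 : sInf {n : ℕ | ∃ D : Finset (Fin 12), (↑D : Set (Fin 12)) ⊆ Set.univ ∧ D.card = n ∧
      ∀ w ∈ (Set.univ : Set (Fin 12)), w ∈ D ∨ ∃ u ∈ D, GG.Adj u w} ≤ 4 :=
    Nat.sInf_le ⟨{0, 1, 2, 4}, by simp, by decide, fun w _ => by revert w; decide +kernel⟩
  have h6 := h (Fin 12) GG (fun H S => sInf {n : ℕ | ∃ D : Finset (Fin 12), (↑D : Set (Fin 12)) ⊆ S ∧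
      D.card = n ∧ ∀ w ∈ S, w ∈ D ∨ ∃ u ∈ D, H.Adj u w}) (fun _ _ => rfl) (fun v => by
      obtain ⟨h0, h1, h2⟩ := cW v
      refine lt_of_le_of_lt (Nat.sInf_le ⟨WW v, ?_, h1, h2⟩) h3
      intro x hx e
      exact h0 (e ▸ hx)) {s(0, 3), s(5, 9)} (by
      intro e he
      simp only [coe_insert, coe_singleton, Set.mem_insert_iff, Set.mem_singleton_iff] at he
      rcases he with rfl | rfl <;> (rw [SimpleGraph.mem_edgeSet]; decide)) (by
      refine le_trans card_le_two (SimpleGraph.le_minDegree_of_forall_le_degree _ _ ?_)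
      decide +kernel)
  exact absurd (lt_of_lt_of_le h4 (h6.trans h5)) (lt_irrefl 4)

end Pool.Agent.S07792
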