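import Pool.Statements.S07874

set_option autoImplicit false
open Pool Pool.MP_2d87f2_co

namespace Pool.Agent.S07874

abbrev T : Type := ℤ × ℕ
abbrev V : Type := T × Fin 200

/-- parent map of the 3-regular tree with a fixed end -/
def par (u : T) : T := (u.1 - 1, u.2 / 2)

/-- the tree with every vertex blown up to a clique on 200 vertices -/
def G : SimpleGraph V where
  Adj a b := a ≠ b ∧ (a.1 = b.1 ∨ par a.1 = b.1 ∨ par b.1 = a.1)
  symm := ⟨fun a b h => ⟨h.1.symm, by rcases h.2 with h | h | h <;> simp [h]⟩⟩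
  loopless := ⟨fun a h => h.1 rfl⟩

theorem adj_iff (a b : V) : G.Adj a b ↔ a ≠ b ∧ (a.1 = b.1 ∨ par a.1 = b.1 ∨ par b.1 = a.1) :=
  Iff.rfl

theorem adj_par (u : T) (i j : Fin 200) : G.Adj (u, i) (par u, j) := by
  refine ⟨?_, Or.inr (Or.inl rfl)⟩
  intro h
  have := congrArg (fun a : V => a.1.1) h
  simp [par] at this
  omega

theorem reach_up (n : ℤ) (x : ℕ) (i : Fin 200) (k : ℕ) :
    G.Reachable ((n, x), i) ((n - (k + 1 : ℕ), x / 2 ^ (k + 1)), 0) := by
  induction k with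
  | zero => simpa [par] using (adj_par (n, x) i 0).reachable
  | succ k ih =>
    refine ih.trans ?_
    have := (adj_par (n - (k + 1 : ℕ), x / 2 ^ (k + 1)) 0 0).reachable
    convert this using 2
    simp only [par, Prod.mk.injEq]
    refine ⟨by push_cast; ring, ?_⟩
    rw [Nat.div_div_eq_div_mul, ← pow_succ]

theorem conn : G.Connected := by
  refine SimpleGraph.Connected.mk ?_
  rintro ⟨⟨n, x⟩, i⟩ ⟨⟨n', x'⟩, i'⟩
  have h1 := reach_up n x i (x + x' + (n - n').toNat)
  have h2 := reach_up n' x' i' (x + x' + (n' - n).toNat)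
  have z : ∀ y k : ℕ, y ≤ k → y / 2 ^ (k + 1) = 0 := by
    intro y k hk
    apply Nat.div_eq_of_lt
    calc y < 2 ^ y := Nat.lt_two_pow_self
      _ ≤ _ := Nat.pow_le_pow_right (by norm_num) (by omega)
  rw [z _ _ (by omega)] at h1 h2
  refine h1.trans ?_
  convert h2.symm using 3
  push_cast; omega

theorem nbr_fin (v : V) : (G.neighborSet v).Finite := by
  apply Set.Finite.subset (s := ({v.1, par v.1, (v.1.1 + 1, 2 * v.1.2), (v.1.1 + 1, 2 * v.1.2 + 1)} :
    Set T) ×ˢ (Set.univ : Set (Fin 200)))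
  · exact (Set.toFinite _).prod (Set.toFinite _)
  · rintro ⟨⟨n, x⟩, j⟩ ⟨-, h | h | h⟩
    · simp [h]
    · simp [h]
    · obtain ⟨⟨n', x'⟩, j'⟩ := v
      simp only [par, Prod.mk.injEq] at h
      simp only [Set.mem_prod, Set.mem_insert_iff, Set.mem_singleton_iff, Prod.mk.injEq,
        Set.mem_univ, and_true]
      omega

/-- a coherent sequence of shifts -/
def sh (n0 : ℤ) (x0 : ℕ) (n : ℤ) : ℕ := x0 * 2 ^ (n - n0).toNat / 2 ^ (n0 - n).toNat

theorem sh_div (n0 : ℤ) (x0 : ℕ) (n : ℤ) : sh n0 x0 n / 2 = sh n0 x0 (n - 1) := by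
  unfold sh
  by_cases h : n0 < n
  · have e1 : (n0 - n).toNat = 0 := by omega
    have e2 : (n0 - (n - 1)).toNat = 0 := by omega
    have e3 : (n - n0).toNat = (n - 1 - n0).toNat + 1 := by omega
    rw [e1, e2, e3, pow_succ, ← mul_assoc]; simp
  · have e1 : (n - n0).toNat = 0 := by omega
    have e2 : (n - 1 - n0).toNat = 0 := by omega
    have e3 : (n0 - (n - 1)).toNat = (n0 - n).toNat + 1 := by omega
    rw [e1, e2, e3, pow_succ, Nat.div_div_eq_div_mul]

/-- automorphisms of the tree -/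
def sig (c n0 : ℤ) (x0 : ℕ) : T ≃ T where
  toFun u := (u.1 + c, u.2 ^^^ sh n0 x0 u.1)
  invFun u := (u.1 - c, u.2 ^^^ sh n0 x0 (u.1 - c))
  left_inv u := by simp
  right_inv u := by simp

theorem sig_par (c n0 : ℤ) (x0 : ℕ) (u : T) : par (sig c n0 x0 u) = sig c n0 x0 (par u) := by
  simp only [par, sig, Equiv.coe_fn_mk, Prod.mk.injEq]
  exact ⟨by ring, by rw [Nat.xor_div_two, sh_div]⟩

theorem trans (u v : V) : ∃ φ : G ≃g G, φ u = v := by
  obtain ⟨⟨n, x⟩, i⟩ := u
  obtain ⟨⟨n', x'⟩, i'⟩ := v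
  refine ⟨⟨Equiv.prodCongr (sig (n' - n) n (x ^^^ x')) (Equiv.swap i i'), ?_⟩, ?_⟩
  · intro a b
    rw [adj_iff, adj_iff, (Equiv.injective _).ne_iff]
    simp only [Equiv.prodCongr_apply, Prod.map_fst, sig_par, ne_eq, EmbeddingLike.apply_eq_iff_eq]
  · show (sig (n' - n) n (x ^^^ x') (n, x), Equiv.swap i i' i) = _
    simp [sig, sh]

theorem walk_bound {a b : V} (w : G.Walk a b) :
    |b.1.1 - a.1.1| ≤ w.length ∧ b.1.2 + 1 ≤ (a.1.2 + 1) * 2 ^ w.length := by
  induction w with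
  | nil => simp
  | @cons a c b h w ih =>
    obtain ⟨ih1, ih2⟩ := ih
    have hc : |c.1.1 - a.1.1| ≤ 1 ∧ c.1.2 + 1 ≤ (a.1.2 + 1) * 2 := by
      obtain ⟨⟨n, x⟩, i⟩ := a
      obtain ⟨⟨n', x'⟩, i'⟩ := c
      obtain ⟨-, h | h | h⟩ := h <;> simp only [par, Prod.mk.injEq] at h <;>
        simp only [abs_le] <;> omega
    rw [SimpleGraph.Walk.length_cons]
    constructor
    · rw [abs_le] at *
      push_cast; omega
    · calc _ ≤ _ := ih2
        _ ≤ (a.1.2 + 1) * 2 * 2 ^ w.length := Nat.mul_le_mul_right _ hc.2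
        _ = _ := by ring

theorem cheeger (A : Finset V) :
    200 * A.card ≤ Set.ncard {p : V × V | p.1 ∈ A ∧ p.2 ∉ A ∧ G.Adj p.1 p.2} := by
  classical
  let f : V × Fin 2 × Fin 200 → V × V :=
    fun t => (t.1, ((t.1.1.1 + 1, 2 * t.1.1.2 + t.2.1), t.2.2))
  have hf : Function.Injective f := by
    rintro ⟨p, b, j⟩ ⟨p', b', j'⟩ h
    simp only [f, Prod.mk.injEq] at h
    obtain ⟨rfl, ⟨-, h2⟩, rfl⟩ := h
    have : b = b' := Fin.ext (by omega)
    rw [this]
  let D : Finset (V × V) := (A ×ˢ (Finset.univ : Finset (Fin 2 × Fin 200))).image f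
  have hD : D.card = 400 * A.card := by
    rw [Finset.card_image_of_injective _ hf, Finset.card_product]
    simp; ring
  have hpar : ∀ p ∈ D, p.1 ∈ A ∧ par p.2.1 = p.1.1 := by
    intro p hp
    obtain ⟨⟨q, b, j⟩, hq, rfl⟩ := Finset.mem_image.1 hp
    refine ⟨(Finset.mem_product.1 hq).1, ?_⟩
    simp only [f, par]
    ext
    · simp
    · have := b.2; simp only; omega
  have hin : (D.filter (fun p => p.2 ∈ A)).card ≤ 200 * A.card := by
    have : (D.filter (fun p => p.2 ∈ A)).card ≤ (A ×ˢ (Finset.univ : Finset (Fin 200))).card := by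
      apply Finset.card_le_card_of_injOn (fun p => (p.2, p.1.2))
      · intro p hp
        simp only [Finset.coe_filter, Set.mem_ofPred_eq] at hp
        simp [hp.2]
      · intro p hp q hq h
        simp only [Finset.coe_filter, Set.mem_ofPred_eq] at hp hq
        simp only [Prod.mk.injEq] at h
        have h1 := (hpar p hp.1).2
        have h2 := (hpar q hq.1).2
        refine Prod.ext (Prod.ext ?_ h.2) h.1
        rw [← h1, ← h2, h.1]
    rw [Finset.card_product] at this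
    simpa [mul_comm] using this
  have hsum := Finset.card_filter_add_card_filter_not (s := D) (fun p => p.2 ∈ A)
  have hfin : {p : V × V | p.1 ∈ A ∧ p.2 ∉ A ∧ G.Adj p.1 p.2}.Finite := by
    apply Set.Finite.subset (s := ⋃ a ∈ (A : Set V), (fun b => (a, b)) '' G.neighborSet a)
    · exact A.finite_toSet.biUnion fun a _ => (nbr_fin a).image _
    · rintro ⟨a, b⟩ ⟨h1, -, h3⟩
      simp only [Set.mem_iUnion]
      exact ⟨a, h1, b, h3, rfl⟩
  have hsub : ((D.filter (fun p => ¬ p.2 ∈ A) : Finset (V × V)) : Set (V × V)) ⊆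
      {p : V × V | p.1 ∈ A ∧ p.2 ∉ A ∧ G.Adj p.1 p.2} := by
    intro p hp
    simp only [Finset.coe_filter, Set.mem_ofPred_eq] at hp
    obtain ⟨h1, h2⟩ := hpar p hp.1
    refine ⟨h1, hp.2, ?_, Or.inr (Or.inr h2)⟩
    intro h
    exact hp.2 (h ▸ h1)
  have := Set.ncard_le_ncard hsub hfin
  rw [Set.ncard_coe_finset] at this
  omega

/-- The negation of the preceding statement: For every infinite connected locally finite vertex-transitive graph G, every k ≥ 1 and every maximal k-separated vertex set S, the Cheeger constant of the graph on S joining points at distance ≤ 2k is at least the Cheeger constant of G. -/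
theorem result :
    ¬ (∀ (V : Type) (G : SimpleGraph V), Infinite V → G.Connected →
      (∀ v : V, (G.neighborSet v).Finite) →
      (∀ u v : V, ∃ φ : G ≃g G, φ u = v) →
      ∀ k : ℕ, 1 ≤ k →
      ∀ S : Set V,
        (∀ u ∈ S, ∀ v ∈ S, u ≠ v → k ≤ G.dist u v) →
        (∀ w : V, w ∉ S → ∃ u ∈ S, G.dist w u < k) →
        sInf {r : ℝ | ∃ A : Finset V, A.Nonempty ∧
            r = (Set.ncard {p : V × V | p.1 ∈ A ∧ p.2 ∉ A ∧ G.Adj p.1 p.2} : ℝ)
              / (A.card : ℝ)}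
          ≤
        sInf {r : ℝ | ∃ A : Finset V, A.Nonempty ∧ (↑A : Set V) ⊆ S ∧
            r = (Set.ncard {p : V × V | p.1 ∈ A ∧ p.2 ∈ S ∧ p.2 ∉ A ∧
                  G.dist p.1 p.2 ≤ 2 * k} : ℝ)
              / (A.card : ℝ)}) := by
  intro H
  have h := H V G inferInstance conn nbr_fin trans 2 (by norm_num)
    {v : V | Even v.1.1 ∧ v.2 = 0}
    (by
      rintro ⟨⟨n, x⟩, i⟩ ⟨hu, hi⟩ ⟨⟨n', x'⟩, i'⟩ ⟨hv, hi'⟩ huv
      have h0 := conn.pos_dist_of_ne huv
      have h1 : G.dist ((n, x), i) ((n', x'), i') ≠ 1 := by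
        rw [Ne, SimpleGraph.dist_eq_one_iff_adj]
        obtain ⟨a, ha⟩ := hu
        obtain ⟨b, hb⟩ := hv
        simp only at ha hb hi hi'
        rintro ⟨-, h | h | h⟩
        · exact huv (Prod.ext h (hi.trans hi'.symm))
        · simp only [par, Prod.mk.injEq] at h; omega
        · simp only [par, Prod.mk.injEq] at h; omega
      omega)
    (by
      rintro ⟨⟨n, x⟩, i⟩ hw
      by_cases hn : Even n
      · refine ⟨((n, x), 0), ⟨hn, rfl⟩, ?_⟩
        have : G.Adj ((n, x), i) ((n, x), 0) :=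
          ⟨fun h => hw ⟨hn, congrArg Prod.snd h⟩, Or.inl rfl⟩
        rw [SimpleGraph.dist_eq_one_iff_adj.2 this]; norm_num
      · refine ⟨(par (n, x), 0), ⟨?_, rfl⟩, ?_⟩
        · show Even (n - 1)
          rw [Int.even_sub_one]; exact hn
        · rw [SimpleGraph.dist_eq_one_iff_adj.2 (adj_par _ _ _)]; norm_num)
  have hL : (200 : ℝ) ≤ sInf {r : ℝ | ∃ A : Finset V, A.Nonempty ∧
      r = (Set.ncard {p : V × V | p.1 ∈ A ∧ p.2 ∉ A ∧ G.Adj p.1 p.2} : ℝ) / (A.card : ℝ)} := by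
    apply le_csInf
    · exact ⟨_, {((0, 0), 0)}, Finset.singleton_nonempty _, rfl⟩
    · rintro r ⟨A, hA, rfl⟩
      have hp : (0 : ℝ) < A.card := by exact_mod_cast hA.card_pos
      rw [le_div_iff₀ hp]
      exact_mod_cast cheeger A
  have hR := h.trans (csInf_le ⟨0, by
      rintro r ⟨A, -, -, rfl⟩
      positivity⟩ ⟨{((0, 0), 0)}, Finset.singleton_nonempty _, by simp, rfl⟩)
  have hsub : {p : V × V | p.1 ∈ ({((0, 0), 0)} : Finset V) ∧
      p.2 ∈ {v : V | Even v.1.1 ∧ v.2 = 0} ∧ p.2 ∉ ({((0, 0), 0)} : Finset V) ∧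
      G.dist p.1 p.2 ≤ 2 * 2} ⊆
      (fun u : T => ((((0, 0), 0) : V), ((u, 0) : V))) ''
        ((Finset.Icc (-4 : ℤ) 4 ×ˢ Finset.range 16 : Finset T) : Set T) := by
    rintro ⟨a, ⟨⟨n, x⟩, i⟩⟩ ⟨h1, ⟨-, h2⟩, -, h4⟩
    rw [Finset.mem_singleton] at h1
    simp only at h1 h2 h4
    subst h1 h2
    obtain ⟨w, hw⟩ := conn.exists_walk_length_eq_dist ((0, 0), 0) ((n, x), 0)
    obtain ⟨b1, b2⟩ := walk_bound w
    refine ⟨(n, x), ?_, rfl⟩
    have b3 : 2 ^ w.length ≤ 2 ^ 4 := Nat.pow_le_pow_right (by norm_num) (by omega)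
    simp only [abs_le] at b1 b2
    simp only [Finset.coe_product, Finset.coe_Icc, Finset.coe_range, Set.mem_prod, Set.mem_Icc,
      Set.mem_Iio]
    omega
  have hle := (Set.ncard_le_ncard hsub ((Finset.finite_toSet _).image _)).trans
    (Set.ncard_image_le (Finset.finite_toSet _))
  rw [Set.ncard_coe_finset, Finset.card_product] at hle
  have hle' : ((Finset.Icc (-4 : ℤ) 4).card * (Finset.range 16).card) = 144 := by simp
  rw [hle'] at hle
  rw [Finset.card_singleton, Nat.cast_one, div_one] at hR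
  have h200 := hL.trans hR
  have : (200 : ℝ) ≤ 144 := h200.trans (by exact_mod_cast hle)
  norm_num at this

end Pool.Agent.S07874
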