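import Pool.Statements.S07886

set_option autoImplicit false
open Pool Pool.MP_2dea4c_co

namespace Pool.Agent.S07886

/-- `k` disjoint rooted spanning trees give `k`-partition-connectivity. -/
theorem cross_count {V A : Type} [Fintype V] [DecidableEq V] [Fintype A] (tail head : A → V)
    (k : ℕ) (r : V) (rk : Fin k → V → ℕ) (e : Fin k → V → A) (par : Fin k → V → V)
    (h1 : ∀ i v, v ≠ r → rk i (par i v) < rk i v)
    (h2 : ∀ i v, v ≠ r → (tail (e i v) = v ∧ head (e i v) = par i v) ∨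
      (tail (e i v) = par i v ∧ head (e i v) = v))
    (h3 : ∀ i j v w, v ≠ r → w ≠ r → e i v = e j w → i = j ∧ v = w) (p : V → ℕ) :
    k * ((Finset.univ.image p).card - 1) ≤ Fintype.card {a : A // p (tail a) ≠ p (head a)} := by
  classical
  set S : Finset ℕ := (Finset.univ.image p).erase (p r) with hS
  have hcard : S.card = (Finset.univ.image p).card - 1 := by
    rw [hS, Finset.card_erase_of_mem]
    exact Finset.mem_image_of_mem p (Finset.mem_univ r)
  have key : ∀ (i : Fin k) (c : S), ∃ v : V, p v = c.1 ∧ v ≠ r ∧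
      p (tail (e i v)) ≠ p (head (e i v)) := by
    intro i c
    have hc : c.1 ∈ (Finset.univ.image p).erase (p r) := c.2
    rw [Finset.mem_erase, Finset.mem_image] at hc
    obtain ⟨hcr, v0, -, hv0⟩ := hc
    have hne : (Finset.univ.filter (fun v => p v = c.1)).Nonempty :=
      ⟨v0, by simp [hv0]⟩
    obtain ⟨v, hv, hmin⟩ := Finset.exists_min_image _ (rk i) hne
    have hpv : p v = c.1 := by simpa using hv
    have hvr : v ≠ r := by
      intro h
      exact hcr (by rw [← hpv, h])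
    have hpar : p (par i v) ≠ c.1 := by
      intro h
      have h4 := hmin (par i v) (by simp [h])
      have h5 := h1 i v hvr
      omega
    refine ⟨v, hpv, hvr, ?_⟩
    rcases h2 i v hvr with ⟨ha, hb⟩ | ⟨ha, hb⟩
    · rw [ha, hb, hpv]; exact hpar.symm
    · rw [ha, hb, hpv]; exact hpar
  choose w hw1 hw2 hw3 using key
  have hinj : Function.Injective (fun x : Fin k × S =>
      (⟨e x.1 (w x.1 x.2), hw3 x.1 x.2⟩ : {a : A // p (tail a) ≠ p (head a)})) := by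
    rintro ⟨i, c⟩ ⟨j, d⟩ h
    have h' : e i (w i c) = e j (w j d) := congrArg Subtype.val h
    obtain ⟨hij, hcd⟩ := h3 i j _ _ (hw2 i c) (hw2 j d) h'
    subst hij
    have : c = d := by
      apply Subtype.ext
      rw [← hw1 i c, ← hw1 i d, hcd]
    rw [this]
  have := Fintype.card_le_of_injective _ hinj
  rw [Fintype.card_prod, Fintype.card_fin, Fintype.card_coe, hcard] at this
  exact this

/-- A connected spanning part has an arc across every proper cut. -/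
theorem cut_lemma {V A : Type} (tail head : A → V) (P : A → Prop)
    (hc : (SimpleGraph.fromRel (fun u v : V => ∃ a : A, P a ∧ tail a = u ∧ head a = v)).Connected)
    (X : V → Bool) (hX : ∀ a, P a → X (tail a) = X (head a)) (u v : V) : X u = X v := by
  obtain ⟨w⟩ := hc.preconnected u v
  induction w with
  | nil => rfl
  | cons h _ ih =>
    rw [← ih]
    rw [SimpleGraph.fromRel_adj] at h
    rcases h.2 with ⟨a, ha, h1, h2⟩ | ⟨a, ha, h1, h2⟩
    · rw [← h1, ← h2]; exact hX a ha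
    · rw [← h1, ← h2]; exact (hX a ha).symm

def T : Fin 18 → Fin 9 := ![3, 5, 1, 5, 2, 4, 2, 0, 4, 1, 0, 0, 3, 3, 5, 5, 8, 8]
def H : Fin 18 → Fin 9 := ![4, 4, 0, 0, 1, 1, 3, 3, 6, 7, 6, 6, 7, 7, 8, 8, 5, 5]
def rk : Fin 2 → Fin 9 → ℕ := ![![2, 1, 0, 3, 2, 3, 3, 4, 4], ![2, 3, 0, 1, 4, 3, 3, 2, 4]]
def ed : Fin 2 → Fin 9 → Fin 18 := ![![2, 4, 0, 0, 5, 1, 10, 12, 14], ![7, 9, 0, 6, 8, 3, 11, 13, 15]]
def par : Fin 2 → Fin 9 → Fin 9 := ![![1, 2, 2, 4, 1, 4, 0, 3, 5], ![3, 7, 2, 2, 6, 0, 0, 3, 5]]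

def good (x0 x1 x2 x3 x4 x5 x6 x7 x8 x9 i : Fin 2) (b0 b1 b3 b4 b5 : Bool) : Bool :=
  (b0 || b1 || b3 || b4 || b5) && (x0 != i || b3 == b4) && (x1 != i || b5 == b4) &&
    (x2 != i || b1 == b0) && (x3 != i || b5 == b0) && (x4 != i || false == b1) &&
    (x5 != i || b4 == b1) && (x6 != i || false == b3) && (x7 != i || b0 == b3) &&
    (x8 != i || b4 == b0) && (x9 != i || b1 == b3)

theorem core0 : ∀ x0 x1 x2 x3 x4 x5 x6 x7 x8 x9 : Fin 2,
    (x0 != x1 && x2 != x3 && x4 != x5 && x6 != x7) = true →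
    ∃ i : Fin 2, ∃ b0 b1 b3 b4 b5 : Bool,
      good x0 x1 x2 x3 x4 x5 x6 x7 x8 x9 i b0 b1 b3 b4 b5 = true := by
  decide +kernel

theorem core (x0 x1 x2 x3 x4 x5 x6 x7 x8 x9 : Fin 2) (h0 : x0 ≠ x1) (h1 : x2 ≠ x3) (h2 : x4 ≠ x5)
    (h3 : x6 ≠ x7) :
    ∃ i : Fin 2, ∃ b0 b1 b3 b4 b5 : Bool, (b0 || b1 || b3 || b4 || b5) = true ∧
      (x0 = i → b3 = b4) ∧ (x1 = i → b5 = b4) ∧ (x2 = i → b1 = b0) ∧ (x3 = i → b5 = b0) ∧
      (x4 = i → false = b1) ∧ (x5 = i → b4 = b1) ∧ (x6 = i → false = b3) ∧ (x7 = i → b0 = b3) ∧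
      (x8 = i → b4 = b0) ∧ (x9 = i → b1 = b3) := by
  obtain ⟨i, b0, b1, b3, b4, b5, h⟩ := core0 x0 x1 x2 x3 x4 x5 x6 x7 x8 x9 (by simp [h0, h1, h2, h3])
  refine ⟨i, b0, b1, b3, b4, b5, ?_⟩
  simp only [good, Bool.and_eq_true, Bool.or_eq_true, bne_iff_ne, beq_iff_eq] at h
  obtain ⟨⟨⟨⟨⟨⟨⟨⟨⟨⟨hb, c0⟩, c1⟩, c2⟩, c3⟩, c4⟩, c5⟩, c6⟩, c7⟩, c8⟩, c9⟩ := h
  refine ⟨by simpa only [Bool.or_eq_true] using hb, fun h => c0.resolve_left (fun g => g h),
    fun h => c1.resolve_left (fun g => g h), fun h => c2.resolve_left (fun g => g h),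
    fun h => c3.resolve_left (fun g => g h), fun h => c4.resolve_left (fun g => g h),
    fun h => c5.resolve_left (fun g => g h), fun h => c6.resolve_left (fun g => g h),
    fun h => c7.resolve_left (fun g => g h), fun h => c8.resolve_left (fun g => g h),
    fun h => c9.resolve_left (fun g => g h)⟩

theorem two_ne (f : Fin 18 → Fin 2) (a b : Fin 18) (v : Fin 9)
    (hab : ∀ c, H c = v → c = a ∨ c = b)
    (h : ∀ i : Fin 2, ∃ c, f c = i ∧ H c = v) : f a ≠ f b := by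
  intro hf
  obtain ⟨c, hc, hc'⟩ := h 0
  obtain ⟨d, hd, hd'⟩ := h 1
  have h1 : f c = f a := by
    rcases hab c hc' with h | h
    · rw [h]
    · rw [h, hf]
  have h2 : f d = f a := by
    rcases hab d hd' with h | h
    · rw [h]
    · rw [h, hf]
  rw [hc] at h1
  rw [hd, ← h1] at h2
  exact absurd h2 (by decide)

theorem t1 : ∀ a, T a ≠ H a := by decide
theorem t2 : ∀ i v, v ≠ 2 → rk i (par i v) < rk i v := by decide
theorem t3 : ∀ i v, v ≠ 2 → (T (ed i v) = v ∧ H (ed i v) = par i v) ∨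
      (T (ed i v) = par i v ∧ H (ed i v) = v) := by decide
theorem t4 : ∀ i j v w, v ≠ 2 → w ≠ 2 → ed i v = ed j w → i = j ∧ v = w := by decide +kernel
theorem t5 : ∀ a, H a ≠ 2 := by decide
theorem t6 : ∀ v, v ≠ 2 → ∃ a b, H a = v ∧ H b = v ∧ a ≠ b := by decide +kernel
theorem t7 (v : Fin 9) (hv : v ≠ 2) : 2 ≤ Fintype.card {a : Fin 18 // H a = v} := by
  obtain ⟨a, b, ha, hb, hab⟩ := t6 v hv
  have : 1 < Fintype.card {a : Fin 18 // H a = v} :=
    Fintype.one_lt_card_iff.2 ⟨⟨a, ha⟩, ⟨b, hb⟩, fun h => hab (congrArg Subtype.val h)⟩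
  omega

def Xf (b0 b1 b3 b4 b5 : Bool) (v : Fin 9) : Bool :=
  if v = 0 ∨ v = 6 then b0 else if v = 1 then b1 else if v = 3 ∨ v = 7 then b3 else
    if v = 4 then b4 else if v = 5 ∨ v = 8 then b5 else false

theorem t8 : ∀ b0 b1 b3 b4 b5 : Bool, ∀ a : Fin 18,
    ((a != 0 || b3 == b4) && (a != 1 || b5 == b4) &&
    (a != 2 || b1 == b0) && (a != 3 || b5 == b0) && (a != 4 || false == b1) &&
    (a != 5 || b4 == b1) && (a != 6 || false == b3) && (a != 7 || b0 == b3) &&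
    (a != 8 || b4 == b0) && (a != 9 || b1 == b3)) = true →
    Xf b0 b1 b3 b4 b5 (T a) = Xf b0 b1 b3 b4 b5 (H a) := by decide +kernel

theorem t9 : ∀ b0 b1 b3 b4 b5 : Bool, (b0 || b1 || b3 || b4 || b5) = true →
    ∃ v : Fin 9, Xf b0 b1 b3 b4 b5 v ≠ Xf b0 b1 b3 b4 b5 2 := by decide +kernel

theorem aux (f : Fin 18 → Fin 2) (i : Fin 2) (a c : Fin 18) (ha : f a = i) (x y : Bool)
    (h : f c = i → x = y) : a ≠ c ∨ x = y := by
  by_cases hc : a = c
  · right; exact h (hc ▸ ha)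
  · left; exact hc

/-- The negation of the preceding statement: For any k ≥ 1 and any loopless finite directed multigraph that is k-partition-connected when undirected, with a root of in-degree 0 and all other in-degrees at least k, the arcs split into k weakly connected spanning parts, each entering every non-root vertex. -/
theorem result :
    ¬ (∀ (V : Type) [Fintype V] [DecidableEq V] (A : Type) [Fintype A]
      (tail head : A → V) (k : ℕ) (r₀ : V),
      0 < k →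
      (∀ a : A, tail a ≠ head a) →
      (∀ p : V → ℕ,
        k * ((Finset.univ.image p).card - 1) ≤
          Fintype.card {a : A // p (tail a) ≠ p (head a)}) →
      (∀ a : A, head a ≠ r₀) →
      (∀ v : V, v ≠ r₀ → k ≤ Fintype.card {a : A // head a = v}) →
      ∃ f : A → Fin k,
        (∀ i : Fin k,
          (SimpleGraph.fromRel
            (fun u v : V => ∃ a : A, f a = i ∧ tail a = u ∧ head a = v)).Connected) ∧
        (∀ i : Fin k, ∀ v : V, v ≠ r₀ → ∃ a : A, f a = i ∧ head a = v)) := by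
  intro hall
  obtain ⟨f, hconn, hin⟩ := hall (Fin 9) (Fin 18) T H 2 2 (by decide) t1
    (cross_count T H 2 2 rk ed par t2 t3 t4) t5 t7
  have n01 : f 0 ≠ f 1 := two_ne f 0 1 4 (by decide) (fun i => hin i 4 (by decide))
  have n23 : f 2 ≠ f 3 := two_ne f 2 3 0 (by decide) (fun i => hin i 0 (by decide))
  have n45 : f 4 ≠ f 5 := two_ne f 4 5 1 (by decide) (fun i => hin i 1 (by decide))
  have n67 : f 6 ≠ f 7 := two_ne f 6 7 3 (by decide) (fun i => hin i 3 (by decide))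
  obtain ⟨i, b0, b1, b3, b4, b5, hb, c0, c1, c2, c3, c4, c5, c6, c7, c8, c9⟩ :=
    core (f 0) (f 1) (f 2) (f 3) (f 4) (f 5) (f 6) (f 7) (f 8) (f 9) n01 n23 n45 n67
  have hX : ∀ a, f a = i → Xf b0 b1 b3 b4 b5 (T a) = Xf b0 b1 b3 b4 b5 (H a) := by
    intro a ha
    apply t8
    simp only [Bool.and_eq_true, Bool.or_eq_true, bne_iff_ne, beq_iff_eq]
    exact ⟨⟨⟨⟨⟨⟨⟨⟨⟨aux f i a 0 ha _ _ c0, aux f i a 1 ha _ _ c1⟩, aux f i a 2 ha _ _ c2⟩,
      aux f i a 3 ha _ _ c3⟩, aux f i a 4 ha _ _ c4⟩, aux f i a 5 ha _ _ c5⟩,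
      aux f i a 6 ha _ _ c6⟩, aux f i a 7 ha _ _ c7⟩, aux f i a 8 ha _ _ c8⟩,
      aux f i a 9 ha _ _ c9⟩
  obtain ⟨v, hv⟩ := t9 b0 b1 b3 b4 b5 hb
  exact hv (cut_lemma T H (fun a => f a = i) (hconn i) (Xf b0 b1 b3 b4 b5) hX v 2)

end Pool.Agent.S07886
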