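import Pool.Statements.S07905
import Pool.Agent.H27.Energy3

set_option autoImplicit false
open Pool Pool.MP_2eecae_co

namespace Pool.Agent.S07905

/-- For every finite simple graph whose real adjacency matrix has nonzero determinant, the sum of absolute values of the adjacency eigenvalues is at least the maximum degree plus the minimum degree. -/
theorem result :
    ∀ (V : Type) [Fintype V] [DecidableEq V] (G : SimpleGraph V) [DecidableRel G.Adj]
      (hA : (G.adjMatrix ℝ).IsHermitian),
      (G.adjMatrix ℝ).det ≠ 0 →
        ((G.maxDegree + G.minDegree : ℕ) : ℝ) ≤ ∑ i, |hA.eigenvalues i| := by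
  exact Pool.Agent.H27.Energy.main

end Pool.Agent.S07905
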