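import Pool.Statements.S07942

set_option autoImplicit false
open Pool Pool.MP_30ed83_co

namespace Pool.Agent.S07942

/-- closed walk of length l as a sequence -/
def CW {V : Type} (G : SimpleGraph V) (l : ℕ) (f : ℕ → V) : Prop :=
  f l = f 0 ∧ ∀ i, i < l → G.Adj (f i) (f (i + 1))

theorem chordless {V : Type} (G : SimpleGraph V) (l : ℕ) (f : ℕ → V) (hf : CW G l f)
    (hl : l % 2 = 1) (hmin : ∀ k g, k % 2 = 1 → CW G k g → l ≤ k) (i j : ℕ) (hij : i < j)
    (hj : j < l) (h : G.Adj (f i) (f j)) : j = i + 1 ∨ (i = 0 ∧ j + 1 = l) := by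
  by_cases hp : (j - i + 1) % 2 = 1
  · have := hmin (j - i + 1) (fun t => if t ≤ j - i then f (i + t) else f i) hp ⟨by simp, ?_⟩
    · omega
    intro t ht
    by_cases h1 : t + 1 ≤ j - i
    · have h2 : t ≤ j - i := by omega
      simp only [h1, h2, if_true]
      exact hf.2 (i + t) (by omega)
    · have h2 : t ≤ j - i := by omega
      have h3 : i + t = j := by omega
      simp only [h1, h2, if_true, if_false, h3]
      exact h.symm
  · have := hmin (l - (j - i) + 1) (fun t => if t ≤ i then f t else f (t + (j - i) - 1))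
      (by omega) ⟨?_, ?_⟩
    · omega
    · have h1 : ¬ l - (j - i) + 1 ≤ i := by omega
      have h2 : l - (j - i) + 1 + (j - i) - 1 = l := by omega
      simp only [h1, h2, if_false, Nat.zero_le, if_true]
      exact hf.1
    intro t ht
    by_cases h1 : t + 1 ≤ i
    · have h2 : t ≤ i := by omega
      simp only [h1, h2, if_true]
      exact hf.2 t (by omega)
    · by_cases h2 : t ≤ i
      · have h3 : t = i := by omega
        have h4 : i + 1 + (j - i) - 1 = j := by omega
        subst h3
        simp only [h1, h2, if_true, if_false, h4]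
        exact h
      · have h4 : t + 1 + (j - i) - 1 = t + (j - i) - 1 + 1 := by omega
        simp only [h1, h2, if_false, h4]
        exact hf.2 _ (by omega)

/-- the claw -/
def claw : SimpleGraph (Fin 4) where
  Adj a b := (a = 0 ∧ b ≠ 0) ∨ (b = 0 ∧ a ≠ 0)
  symm := ⟨fun _ _ h => h.symm⟩
  loopless := ⟨fun a h => by tauto⟩

theorem claw_col : claw.Colorable 2 :=
  ⟨SimpleGraph.Coloring.mk (fun a => if a = 0 then 0 else 1) (by
    rintro a b (⟨h1, h2⟩ | ⟨h1, h2⟩) <;> simp [h1, h2])⟩

/-- The negation of the preceding statement: For every finite graph F with an edge and every r, some finite graph G has chromatic number above r and clique number equal to F's, and every induced subgraph of G with no induced copy of F has chromatic number at most that of F. -/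
theorem result :
    ¬ (∀ (n : ℕ) (F : SimpleGraph (Fin n)), F ≠ ⊥ →
      ∀ r : ℕ, ∃ (m : ℕ) (G : SimpleGraph (Fin m)),
        (r : ℕ∞) < G.chromaticNumber ∧
        G.cliqueNum = F.cliqueNum ∧
        ∀ s : Set (Fin m), ¬ F.IsIndContained (G.induce s) →
          (G.induce s).chromaticNumber ≤ F.chromaticNumber) := by
  classical
  intro H
  obtain ⟨m, G, h1, _, h3⟩ := H 4 claw (by
    intro h
    have : claw.Adj 0 1 := Or.inl ⟨rfl, by decide⟩
    rw [h] at this
    exact this) 2
  have hn : ¬ G.Colorable 2 := fun h => absurd h.chromaticNumber_le (not_le.2 h1)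
  rw [SimpleGraph.two_colorable_iff_forall_loop_even] at hn
  push Not at hn
  obtain ⟨u, w, hw⟩ := hn
  have hex : ∃ l, l % 2 = 1 ∧ ∃ f, CW G l f :=
    ⟨w.length, Nat.odd_iff.1 (Nat.not_even_iff_odd.1 hw), w.getVert, by simp,
      fun i hi => w.adj_getVert_succ hi⟩
  obtain ⟨hl, f, hf⟩ := Nat.find_spec hex
  set l := Nat.find hex with hl'
  have hmin : ∀ k g, k % 2 = 1 → CW G k g → l ≤ k := fun k g a b => Nat.find_min' hex ⟨a, g, b⟩
  have hc := chordless G l f hf hl hmin
  have h4 := h3 (f '' Set.Iio l) (by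
    rintro ⟨e⟩
    choose t ht1 ht2 using fun a : Fin 4 => (e a).2
    have hadj : ∀ a : Fin 4, a ≠ 0 → t a = (t 0 + 1) % l ∨ t 0 = (t a + 1) % l := by
      intro a ha
      have h5 : (G.induce _).Adj (e 0) (e a) := e.map_rel_iff.2 (Or.inl ⟨rfl, ha⟩)
      have h6 : G.Adj (f (t 0)) (f (t a)) := by
        rw [ht2, ht2]
        exact h5
      have a0 : t 0 < l := ht1 0
      have a1 : t a < l := ht1 a
      rcases lt_trichotomy (t 0) (t a) with h | h | h
      · rcases hc _ _ h a1 h6 with h7 | ⟨h7, h8⟩
        · left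
          rw [Nat.mod_eq_of_lt (by omega), h7]
        · right
          rw [h7, h8, Nat.mod_self]
      · rw [h] at h6
        exact absurd h6 (G.loopless.1 _)
      · rcases hc _ _ h a0 h6.symm with h7 | ⟨h7, h8⟩
        · right
          rw [Nat.mod_eq_of_lt (by omega), h7]
        · left
          rw [h7, h8, Nat.mod_self]
    have hinj : Function.Injective t := by
      intro a b h
      apply e.injective
      apply Subtype.ext
      rw [← ht2, ← ht2, h]
    have hs : ∀ a b, a < l → b < l → (a + 1) % l = (b + 1) % l → a = b := by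
      intro a b ha hb h
      rcases Nat.lt_or_ge (a + 1) l with h1 | h1 <;> rcases Nat.lt_or_ge (b + 1) l with h2 | h2
      · rw [Nat.mod_eq_of_lt h1, Nat.mod_eq_of_lt h2] at h
        omega
      · rw [Nat.mod_eq_of_lt h1, show b + 1 = l by omega, Nat.mod_self] at h
        omega
      · rw [Nat.mod_eq_of_lt h2, show a + 1 = l by omega, Nat.mod_self] at h
        omega
      · omega
    have n12 : t 1 ≠ t 2 := fun h => absurd (hinj h) (by decide)
    have n13 : t 1 ≠ t 3 := fun h => absurd (hinj h) (by decide)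
    have n23 : t 2 ≠ t 3 := fun h => absurd (hinj h) (by decide)
    have s12 := hs (t 1) (t 2) (ht1 1) (ht1 2)
    have s13 := hs (t 1) (t 3) (ht1 1) (ht1 3)
    have s23 := hs (t 2) (t 3) (ht1 2) (ht1 3)
    have b1 := hadj 1 (by decide)
    have b2 := hadj 2 (by decide)
    have b3 := hadj 3 (by decide)
    omega)
  obtain ⟨c⟩ := SimpleGraph.chromaticNumber_le_iff_colorable.1
    (h4.trans claw_col.chromaticNumber_le)
  have hl0 : 0 < l := by omega
  have hmem : ∀ i, i ≤ l → f i ∈ f '' Set.Iio l := by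
    intro i hi
    rcases hi.lt_or_eq with h | h
    · exact ⟨i, h, rfl⟩
    · exact ⟨0, hl0, by rw [h, hf.1]⟩
  have hpar : ∀ i (hi : i ≤ l), ((c ⟨f i, hmem i hi⟩).val + i) % 2 =
      (c ⟨f 0, hmem 0 hl0.le⟩).val := by
    intro i
    induction i with
    | zero =>
      intro _
      have := (c ⟨f 0, hmem 0 hl0.le⟩).2
      simp only [Nat.add_zero]
      omega
    | succ i ih =>
      intro hi
      have a1 := ih (by omega)
      have a2 : c ⟨f i, hmem i (by omega)⟩ ≠ c ⟨f (i + 1), hmem _ hi⟩ :=
        c.valid (hf.2 i (by omega))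
      have a3 := (c ⟨f i, hmem i (by omega)⟩).2
      have a4 := (c ⟨f (i + 1), hmem _ hi⟩).2
      have a5 := Fin.val_ne_of_ne a2
      omega
  have a1 := hpar l le_rfl
  have a2 : (⟨f l, hmem l le_rfl⟩ : f '' Set.Iio l) = ⟨f 0, hmem 0 hl0.le⟩ := Subtype.ext hf.1
  rw [a2] at a1
  have a3 := (c ⟨f 0, hmem 0 hl0.le⟩).2
  omega

end Pool.Agent.S07942
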