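import Pool.Statements.S07947

set_option autoImplicit false
open Classical
open Pool Pool.MP_31464c_co

namespace Pool.Agent.S07947

/-- Bit mask of the pairs of consecutive entries of a list. -/
def em : List ℕ → ℕ
  | a :: b :: t => 2 ^ (7 * a + b) ||| 2 ^ (7 * b + a) ||| em (b :: t)
  | _ => 0

/-- Bit mask of the disjoint union of a complete graph on four vertices and a triangle. -/
def gm : ℕ := 213880796268174

def G : SimpleGraph (Fin 7) where
  Adj x y := gm.testBit (7 * x.val + y.val) = true
  symm := ⟨by decide⟩
  loopless := ⟨by decide⟩

/-- Degrees of the first four vertices are at most two and the last three form no triangle. -/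
def good (m : ℕ) : Bool :=
  Nat.testBit 79229376586725831460974434175 (m % 128) &&
  Nat.testBit 79229376586725831460974434175 ((m >>> 7) % 128) &&
  Nat.testBit 79229376586725831460974434175 ((m >>> 14) % 128) &&
  Nat.testBit 79229376586725831460974434175 ((m >>> 21) % 128) &&
    !(m.testBit 33 && m.testBit 41 && m.testBit 34)

def test (l : List ℕ) : Bool := good (em l) && !good (em l ^^^ gm)

def mem (a : ℕ) : List ℕ → Bool
  | [] => false
  | b :: t => Nat.beq a b || mem a t

theorem mem_iff (a : ℕ) (l : List ℕ) : mem a l = true ↔ a ∈ l := by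
  induction l with
  | nil => simp [mem]
  | cons b t ih => simp [mem, ih]

def dfs : ℕ → List ℕ → Bool
  | 0, l => test l
  | n + 1, l => test l && [0, 1, 2, 3, 4, 5, 6].all fun a => mem a l || dfs n (a :: l)

theorem dfs_spec : ∀ (n : ℕ) (l : List ℕ), dfs n l = true → ∀ t : List ℕ,
    t.length ≤ n → (∀ a ∈ t, a < 7) → (t.reverse ++ l).Nodup → test (t.reverse ++ l) = true := by
  intro n
  induction n with
  | zero =>
    intro l h t ht _ _
    obtain rfl : t = [] := List.length_eq_zero_iff.1 (by omega)
    simpa [dfs] using h
  | succ n ih =>
    intro l h t ht h7 hn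
    simp only [dfs, Bool.and_eq_true, List.all_eq_true, Bool.or_eq_true] at h
    cases t with
    | nil => simpa using h.1
    | cons a t =>
      rw [List.reverse_cons, List.append_assoc, List.singleton_append] at hn ⊢
      have ha : a ∉ l := (List.nodup_cons.1 (List.Nodup.of_append_right hn)).1
      have ha7 : a < 7 := h7 a (by simp)
      rcases h.2 a (by interval_cases a <;> simp) with h1 | h1
      · exact absurd ((mem_iff a l).1 h1) ha
      · exact ih _ h1 t (by simpa using ht) (fun b hb => h7 b (by simp [hb])) hn

theorem chk : dfs 7 [] = true := by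
  decide +kernel

theorem all_test (l : List (Fin 7)) (hl : l.Nodup) : test (l.map Fin.val) = true := by
  have := dfs_spec 7 [] chk (l.map Fin.val).reverse (by simpa using hl.length_le_card)
    (by simp) (by simpa using hl.map Fin.val_injective)
  simpa using this

theorem edges_iff {u w : Fin 7} (p : (⊤ : SimpleGraph (Fin 7)).Walk u w) (x y : Fin 7) :
    s(x, y) ∈ p.edges ↔ (em (p.support.map Fin.val)).testBit (7 * x.val + y.val) = true := by
  induction p with
  | nil => simp [em]
  | @cons a b c h q ih =>
    rw [SimpleGraph.Walk.edges_cons, SimpleGraph.Walk.support_cons, List.mem_cons, ih,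
      ← q.cons_tail_support]
    simp only [List.map_cons, em, Nat.testBit_or, Nat.testBit_two_pow, Bool.or_eq_true,
      decide_eq_true_eq, Sym2.eq_iff, Fin.ext_iff]
    refine or_congr ?_ Iff.rfl
    omega

theorem bit_big (l : List (Fin 7)) (i : ℕ) (hi : 49 ≤ i) :
    (em (l.map Fin.val)).testBit i = false := by
  induction l with
  | nil => simp [em]
  | cons a t ih =>
    cases t with
    | nil => simp [em]
    | cons b t =>
      simp only [List.map_cons, em, Nat.testBit_or, Nat.testBit_two_pow, Bool.or_eq_false_iff,
        decide_eq_false_iff_not] at ih ⊢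
      exact ⟨⟨by omega, by omega⟩, ih⟩

theorem key (l m : List (Fin 7)) (hl : l.Nodup) (hm : m.Nodup)
    (h : ∀ x y : Fin 7, xor ((em (l.map Fin.val)).testBit (7 * x.val + y.val))
      ((em (m.map Fin.val)).testBit (7 * x.val + y.val)) = gm.testBit (7 * x.val + y.val)) :
    False := by
  have a1 := all_test l hl
  have a2 := all_test m hm
  simp only [test, Bool.and_eq_true] at a1 a2
  have e : em (l.map Fin.val) ^^^ gm = em (m.map Fin.val) := by
    refine Nat.eq_of_testBit_eq fun i => ?_
    rw [Nat.testBit_xor]
    by_cases hi : i < 49
    · have := h ⟨i / 7, by omega⟩ ⟨i % 7, by omega⟩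
      simp only [Nat.div_add_mod] at this
      rw [← this]
      cases (em (l.map Fin.val)).testBit i <;> cases (em (m.map Fin.val)).testBit i <;> rfl
    · rw [bit_big l i (by omega), bit_big m i (by omega), Nat.testBit_lt_two_pow]
      · rfl
      · exact lt_of_lt_of_le (by decide : gm < 2 ^ 49) (Nat.pow_le_pow_right (by omega) (by omega))
  rw [e, a2.1] at a1
  exact absurd a1.2 (by decide)

theorem deg_G (x : Fin 7) : G.degree x = if x.val < 4 then 3 else 2 := by
  have h1 : G.degree x =
      (Finset.univ.filter fun y : Fin 7 => gm.testBit (7 * x.val + y.val) = true).card := by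
    rw [← SimpleGraph.card_neighborFinset_eq_degree]
    congr 1
    ext y
    simp [G]
  have h2 : ∀ x : Fin 7,
      (Finset.univ.filter fun y : Fin 7 => gm.testBit (7 * x.val + y.val) = true).card =
        if x.val < 4 then 3 else 2 := by decide
  rw [h1, h2]

/-- There is a finite simple graph G such that no family of k paths in the complete graph on its vertices, with k at most max(number of odd-degree vertices / 2, ceil((max degree + 1)/2)), has symmetric difference of edge sets equal to E(G). -/
theorem result :
    ∃ (n : ℕ) (G : SimpleGraph (Fin n)),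
      ∀ k : ℕ,
        k ≤ max ((Finset.univ.filter (fun x : Fin n => Odd (G.degree x))).card / 2)
                ((G.maxDegree + 2) / 2) →
        ¬ ∃ (u w : Fin k → Fin n)
            (P : ∀ i : Fin k, (⊤ : SimpleGraph (Fin n)).Walk (u i) (w i)),
            (∀ i, (P i).IsPath) ∧
            ∀ e : Sym2 (Fin n),
              (Odd ((Finset.univ.filter (fun i : Fin k => e ∈ (P i).edges)).card)
                ↔ e ∈ G.edgeSet) := by
  refine ⟨7, G, fun k hk => ?_⟩
  have h1 : (Finset.univ.filter (fun x : Fin 7 => Odd (G.degree x))).card = 4 := by
    simp only [deg_G]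
    decide
  have h2 : G.maxDegree ≤ 3 := by
    apply SimpleGraph.maxDegree_le_of_forall_degree_le
    intro v
    have := deg_G v
    split_ifs at this <;> omega
  have hk2 : k ≤ 2 := by
    rw [h1] at hk
    omega
  rintro ⟨u, w, P, hP, h⟩
  have hG : ∀ x y : Fin 7, s(x, y) ∈ G.edgeSet ↔ gm.testBit (7 * x.val + y.val) = true :=
    fun x y => Iff.rfl
  interval_cases k
  · have := h s(0, 1)
    rw [hG] at this
    simpa using this.2 (by decide)
  · refine key (P 0).support [] (hP 0).support_nodup List.nodup_nil fun x y => ?_
    have := h s(x, y)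
    rw [hG, Finset.card_filter, Fin.sum_univ_one] at this
    simp only [edges_iff] at this
    revert this
    cases (em ((P 0).support.map Fin.val)).testBit (7 * x.val + y.val) <;>
      cases gm.testBit (7 * x.val + y.val) <;> simp [em]
  · refine key (P 0).support (P 1).support (hP 0).support_nodup (hP 1).support_nodup
      fun x y => ?_
    have := h s(x, y)
    rw [hG, Finset.card_filter, Fin.sum_univ_two] at this
    simp only [edges_iff] at this
    revert this
    cases (em ((P 0).support.map Fin.val)).testBit (7 * x.val + y.val) <;>
      cases (em ((P 1).support.map Fin.val)).testBit (7 * x.val + y.val) <;>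
      cases gm.testBit (7 * x.val + y.val) <;> simp [Nat.odd_iff]

end Pool.Agent.S07947
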