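import Pool.Statements.S07958

set_option autoImplicit false
open Pool Pool.MP_31b721_co

namespace Pool.Agent.S07958

/-- The empty set, the 21 vertices and the 20 edges of the tree whose root has five children with
three leaves each, as bit masks. -/
def ms : List ℕ := [0, 1, 2, 4, 8, 16, 32, 64, 128, 256, 512, 1024, 2048, 4096, 8192, 16384, 32768, 65536, 131072, 262144, 524288, 1048576, 3, 5, 9, 17, 33, 66, 130, 258, 516, 1028, 2052, 4104, 8200, 16392, 32784, 65552, 131088, 262176, 524320, 1048608]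

def f (v : Fin 42) : Fin 21 → Bool := fun t => (ms.getD v.val 0).testBit t.val

def pc : ℕ → ℕ → ℕ
  | 0, _ => 0
  | k + 1, x => x % 2 + pc k (x / 2)

def D (u v : Fin 42) : ℕ := pc 21 (ms.getD u.val 0 ^^^ ms.getD v.val 0)

theorem hD : ∀ u v : Fin 42, hammingDist (f u) (f v) = D u v := by decide +kernel

theorem D_symm : ∀ u v : Fin 42, D u v = D v u := by decide +kernel
theorem D_zero : ∀ u v : Fin 42, D u v = 0 ↔ u = v := by decide +kernel
theorem D_step : ∀ u v : Fin 42, u ≠ v → ∃ w, D u w = 1 ∧ D w v + 1 = D u v := by decide +kernel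

def Gr : SimpleGraph (Fin 42) where
  Adj u v := D u v = 1
  symm := ⟨fun u v h => by rw [D_symm]; exact h⟩
  loopless := ⟨fun u h => by rw [(D_zero u u).2 rfl] at h; exact absurd h (by decide)⟩

theorem le_walk {u v : Fin 42} (w : Gr.Walk u v) : D u v ≤ w.length := by
  induction w with
  | nil => rw [(D_zero _ _).2 rfl]; exact Nat.zero_le _
  | @cons a b c h _ ih =>
    have h1 : D a b = 1 := h
    have h2 := hammingDist_triangle (f a) (f b) (f c)
    rw [hD, hD, hD] at h2
    rw [SimpleGraph.Walk.length_cons]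
    omega

theorem ex_walk : ∀ (n : ℕ) (u v : Fin 42), D u v = n → ∃ w : Gr.Walk u v, w.length = n := by
  intro n
  induction n with
  | zero =>
    intro u v h
    obtain rfl := (D_zero u v).1 h
    exact ⟨SimpleGraph.Walk.nil, rfl⟩
  | succ n ih =>
    intro u v h
    have hne : u ≠ v := by
      intro e
      rw [(D_zero u v).2 e] at h
      omega
    obtain ⟨x, hx, hx2⟩ := D_step u v hne
    obtain ⟨w, hw⟩ := ih x v (by omega)
    exact ⟨SimpleGraph.Walk.cons (show Gr.Adj u x from hx) w, by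
      rw [SimpleGraph.Walk.length_cons, hw]⟩

theorem dist_eq (u v : Fin 42) : Gr.dist u v = D u v := by
  obtain ⟨w, hw⟩ := ex_walk _ u v rfl
  apply le_antisymm
  · rw [← hw]; exact SimpleGraph.dist_le w
  · obtain ⟨p, hp⟩ := w.reachable.exists_walk_length_eq_dist
    rw [← hp]; exact le_walk p

def nb (u : Fin 42) : Finset (Fin 42) := Finset.univ.filter (fun x => D u x = 1)

theorem nb0 : (nb 0).card = 21 := by decide +kernel
theorem nb1 : (nb 1).card = 6 := by decide +kernel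

theorem shape : ∀ a : Fin 42, D 0 a = 1 → a = 1 ∨
    (∃ e, D a e = 1 ∧ D e 1 = 1 ∧ (nb a).card = 5 ∧ (nb e).card = 2) ∨
    ((nb a).card = 2 ∧ ∃ e, D a e = 1 ∧ (nb e).card = 2 ∧ ∃ y, D e y = 1 ∧ (nb y).card = 5 ∧
      ∃ g, D y g = 1 ∧ D g 1 = 1 ∧ (nb g).card = 2) := by decide +kernel

theorem near (c : Sym2 (Fin 42) → ℕ)
    (h : ∀ (u v w : Fin 42) (k : ℕ), Gr.Adj u v → Gr.Adj u w →
      c s(u, v) ≤ k → k ≤ c s(u, w) → ∃ x : Fin 42, Gr.Adj u x ∧ c s(u, x) = k)
    (u v w : Fin 42) (hv : D u v = 1) (hw : D u w = 1) :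
    c s(u, w) + 1 ≤ c s(u, v) + (nb u).card := by
  have h1 : Finset.Icc (c s(u, v)) (c s(u, w)) ⊆ (nb u).image (fun x => c s(u, x)) := by
    intro k hk
    rw [Finset.mem_Icc] at hk
    obtain ⟨x, hx, hx2⟩ := h u v w k hv hw hk.1 hk.2
    exact Finset.mem_image.2 ⟨x, Finset.mem_filter.2 ⟨Finset.mem_univ _, hx⟩, hx2⟩
  have h2 := (Finset.card_le_card h1).trans Finset.card_image_le
  rw [Nat.card_Icc] at h2
  omega

theorem anchor (c : Sym2 (Fin 42) → ℕ)
    (h : ∀ (u v w : Fin 42) (k : ℕ), Gr.Adj u v → Gr.Adj u w →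
      c s(u, v) ≤ k → k ≤ c s(u, w) → ∃ x : Fin 42, Gr.Adj u x ∧ c s(u, x) = k)
    (a : Fin 42) (ha : D 0 a = 1) :
    ∃ z, D 1 z = 1 ∧ c s(0, a) ≤ c s(1, z) + 7 ∧ c s(1, z) ≤ c s(0, a) + 7 := by
  have ha' : D a 0 = 1 := by rw [D_symm]; exact ha
  rcases shape a ha with rfl | ⟨e, h1, h2, h3, h4⟩ | ⟨h0, e, h1, h2, y, h3, h4, g, h5, h6, h7⟩
  · refine ⟨0, ha', ?_, ?_⟩ <;> rw [Sym2.eq_swap] <;> omega
  · have h1' : D e a = 1 := by rw [D_symm]; exact h1
    have a1 := near c h a 0 e ha' h1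
    have a2 := near c h a e 0 h1 ha'
    have a3 := near c h e a 1 h1' h2
    have a4 := near c h e 1 a h2 h1'
    refine ⟨e, by rw [D_symm]; exact h2, ?_⟩
    rw [Sym2.eq_swap (a := 0) (b := a), Sym2.eq_swap (a := 1) (b := e)]
    rw [Sym2.eq_swap (a := e) (b := a)] at a3 a4
    omega
  · have h1' : D e a = 1 := by rw [D_symm]; exact h1
    have h3' : D y e = 1 := by rw [D_symm]; exact h3
    have h5' : D g y = 1 := by rw [D_symm]; exact h5
    have a1 := near c h a 0 e ha' h1
    have a2 := near c h a e 0 h1 ha'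
    have a3 := near c h e a y h1' h3
    have a4 := near c h e y a h3 h1'
    have a5 := near c h y e g h3' h5
    have a6 := near c h y g e h5 h3'
    have a7 := near c h g y 1 h5' h6
    have a8 := near c h g 1 y h6 h5'
    refine ⟨g, by rw [D_symm]; exact h6, ?_⟩
    rw [Sym2.eq_swap (a := 0) (b := a), Sym2.eq_swap (a := 1) (b := g)]
    rw [Sym2.eq_swap (a := e) (b := a)] at a3 a4
    rw [Sym2.eq_swap (a := y) (b := e)] at a5 a6
    rw [Sym2.eq_swap (a := g) (b := y)] at a7 a8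
    omega

/-- The negation of the preceding statement: Every finite graph with an edge that embeds isometrically into a hypercube has a proper edge-coloring using exactly colors 1..t for some t ≥ 1, with each vertex's incident edge colors forming a consecutive integer interval. -/
theorem result :
    ¬ (∀ (V : Type) [Fintype V] (G : SimpleGraph V),
      (∃ u v : V, G.Adj u v) →
      (∃ (n : ℕ) (f : V → (Fin n → Bool)),
          Function.Injective f ∧ ∀ u v : V, hammingDist (f u) (f v) = G.dist u v) →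
      ∃ (t : ℕ) (c : Sym2 V → ℕ),
        1 ≤ t ∧
        (∀ u v : V, G.Adj u v → 1 ≤ c s(u, v) ∧ c s(u, v) ≤ t) ∧
        (∀ k : ℕ, 1 ≤ k → k ≤ t → ∃ u v : V, G.Adj u v ∧ c s(u, v) = k) ∧
        (∀ u v w : V, G.Adj u v → G.Adj u w → v ≠ w → c s(u, v) ≠ c s(u, w)) ∧
        (∀ (u v w : V) (k : ℕ), G.Adj u v → G.Adj u w →
            c s(u, v) ≤ k → k ≤ c s(u, w) → ∃ x : V, G.Adj u x ∧ c s(u, x) = k)) := by
  intro hall
  have h01 : D 0 1 = 1 := by decide +kernel
  obtain ⟨t, c, -, -, -, hp, hi⟩ := hall (Fin 42) Gr ⟨0, 1, h01⟩ ⟨21, f, by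
    intro u v huv
    rw [← D_zero, ← hD, huv, hammingDist_self], fun u v => by rw [hD, dist_eq]⟩
  have hne : (nb 0).Nonempty := ⟨1, Finset.mem_filter.2 ⟨Finset.mem_univ _, h01⟩⟩
  obtain ⟨b, hb, hmin⟩ := Finset.exists_min_image (nb 0) (fun x => c s(0, x)) hne
  have hb' : D 0 b = 1 := (Finset.mem_filter.1 hb).2
  have hle : (nb 0).card ≤ (Finset.Icc (c s(0, b)) (c s(0, b) + 19)).card := by
    apply Finset.card_le_card_of_injOn (fun x => c s(0, x))
    · intro a ha
      have ha' : D 0 a = 1 := (Finset.mem_filter.1 (Finset.mem_coe.1 ha)).2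
      obtain ⟨z, hz, z1, z2⟩ := anchor c hi a ha'
      obtain ⟨y, hy, y1, y2⟩ := anchor c hi b hb'
      have h5 := near c hi 1 y z hy hz
      rw [nb1] at h5
      have h6 := hmin a (Finset.mem_coe.1 ha)
      simp only [Finset.coe_Icc, Set.mem_Icc]
      omega
    · intro a ha a' ha' hc
      by_contra hn
      exact hp 0 a a' (Finset.mem_filter.1 (Finset.mem_coe.1 ha)).2
        (Finset.mem_filter.1 (Finset.mem_coe.1 ha')).2 hn hc
  rw [nb0, Nat.card_Icc] at hle
  omega

end Pool.Agent.S07958
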