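import Pool.Statements.S07963
import Pool.Agent.H23.ChromRatio

set_option autoImplicit false
open Pool Pool.MP_31cced_co

namespace Pool.Agent.S07963

set_option maxSynthPendingDepth 3
open Pool.Agent.H23.ChromRatio

lemma bridge {V C α : Type} [Fintype V] [LinearOrder V] [Fintype C] [DecidableEq C] [Fintype α]
    (G : SimpleGraph V) (e : C) (T : Finset C) (h : Fintype.card α = T.card) :
    Nat.card (G.Coloring α) = (Col e G.Adj Finset.univ T).card := by
  classical
  have q : α ≃ T := Fintype.equivOfCardEq (by simpa using h)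
  rw [← Fintype.card_coe, ← Nat.card_eq_fintype_card]
  refine Nat.card_congr
    { toFun := fun f => ⟨fun v => (q (f v) : C), mem_Col.2 ⟨fun v _ => (q (f v)).2,
        fun v hv => absurd (Finset.mem_univ v) hv, fun a _ b _ hab hh =>
          f.valid hab (q.injective (Subtype.ext hh))⟩⟩
      invFun := fun φ => SimpleGraph.Coloring.mk
        (fun v => q.symm ⟨φ.1 v, (mem_Col.1 φ.2).1 v (Finset.mem_univ v)⟩)
        (fun {a b} hab hh => (mem_Col.1 φ.2).2.2 a (Finset.mem_univ _) b (Finset.mem_univ _) hab
          (congrArg Subtype.val (q.symm.injective hh)))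
      left_inv := ?_
      right_inv := ?_ }
  · intro f
    ext v
    exact q.symm_apply_apply (f v)
  · intro φ
    apply Subtype.ext
    funext v
    exact congrArg Subtype.val (q.apply_symm_apply _)

/-- For every finite simple graph G on n vertices with clique number ω and every integer λ ≥ n, the number of proper (λ−1)-colourings divided by the number of proper λ-colourings is at most (1−ω/λ)(1−1/λ)^(n−ω). -/
theorem result :
    ∀ (V : Type) [Fintype V] (G : SimpleGraph V) (lam : ℕ),
      Fintype.card V ≤ lam →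
      (Nat.card (G.Coloring (Fin (lam - 1))) : ℝ) / (Nat.card (G.Coloring (Fin lam)) : ℝ)
        ≤ (1 - ((sSup {k : ℕ | ∃ s : Finset V, G.IsNClique k s} : ℕ) : ℝ) / (lam : ℝ))
          * (1 - 1 / (lam : ℝ)) ^ (Fintype.card V - sSup {k : ℕ | ∃ s : Finset V, G.IsNClique k s}) := by
  intro V _ G lam hlam
  classical
  obtain ⟨K, hK⟩ := G.exists_isNClique_cliqueNum
  have hw : sSup {k : ℕ | ∃ s : Finset V, G.IsNClique k s} = K.card := hK.card_eq.symm
  rw [hw]
  have hKn : K.card ≤ Fintype.card V := Finset.card_le_univ K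
  rcases isEmpty_or_nonempty V with hV | hV
  · have h0 : Fintype.card V = 0 := Fintype.card_eq_zero
    have h1 : K.card = 0 := by omega
    have h2 : ∀ α : Type, Nat.card (G.Coloring α) = 1 := by
      intro α
      rw [Nat.card_eq_one_iff_unique]
      exact ⟨⟨fun f g => DFunLike.ext _ _ (fun v => hV.elim v)⟩,
        ⟨SimpleGraph.Coloring.mk (fun v => hV.elim v) (fun {a} => hV.elim a)⟩⟩
    simp [h0, h1, h2]
  have hpos : 0 < Fintype.card V := Fintype.card_pos
  by_cases h2 : 2 ≤ lam
  · letI : LinearOrder V := LinearOrder.lift' (Fintype.equivFin V) (Fintype.equivFin V).injective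
    have c0 : Fin lam := ⟨0, by omega⟩
    rw [bridge G c0 (Finset.univ.erase c0) (by simp), bridge G c0 Finset.univ (by simp)]
    have hm := Pool.Agent.H23.ChromRatio.main (V := V) c0 c0 (by simpa using h2) (Fintype.card V)
      G.Adj Finset.univ K Finset.card_univ (by simpa using hlam) (Finset.subset_univ _)
      (fun a ha b hb hab => Or.inl (hK.isClique ha hb hab))
    rw [Fintype.card_fin] at hm
    have hl2 : (2 : ℝ) ≤ lam := by exact_mod_cast h2
    have hx : 0 < 1 - 1 / (lam : ℝ) := by
      rw [sub_pos, div_lt_one (by linarith)]; linarith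
    have hc : 0 ≤ (1 - (K.card : ℝ) / lam) * (1 - 1 / (lam : ℝ)) ^ (Fintype.card V - K.card) := by
      apply mul_nonneg _ (pow_nonneg hx.le _)
      rw [sub_nonneg, div_le_one (by linarith)]
      exact_mod_cast hKn.trans hlam
    apply div_le_of_le_mul₀ (Nat.cast_nonneg _) hc
    apply le_of_mul_le_mul_right _ (pow_pos hx K.card)
    refine hm.trans (le_of_eq ?_)
    obtain ⟨j, hj⟩ := Nat.exists_eq_add_of_le hKn
    rw [hj, Nat.add_sub_cancel_left, pow_add]
    ring
  · have h1 : lam = 1 := by omega
    subst h1
    have h3 : IsEmpty (G.Coloring (Fin (1 - 1))) := ⟨fun f => (f hV.some).elim0⟩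
    rw [Nat.card_of_isEmpty (α := G.Coloring (Fin (1 - 1)))]
    simp only [Nat.cast_zero, zero_div]
    apply mul_nonneg _ (pow_nonneg (by norm_num) _)
    have : (K.card : ℝ) ≤ 1 := by exact_mod_cast hKn.trans hlam
    simpa using this

end Pool.Agent.S07963
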