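import Pool.Statements.S07966
-- import your own Pool.Agent.* helpers here

set_option autoImplicit false
open Pool Pool.MP_31d2fb_co

namespace Pool.Agent.S07966

def s : Fin 45 → Fin 30 := ![0, 4, 7, 10, 13, 2, 5, 8, 11, 14, 16, 19, 23, 26, 29, 0, 1, 0, 3, 4, 3, 6, 7, 6, 9, 10, 9, 12, 13, 12, 15, 16, 15, 18, 19, 18, 21, 22, 21, 24, 25, 24, 27, 28, 27]

def t : Fin 45 → Fin 30 := ![3, 6, 9, 12, 1, 15, 18, 21, 24, 27, 22, 25, 28, 17, 20, 1, 2, 2, 4, 5, 5, 7, 8, 8, 10, 11, 11, 13, 14, 14, 16, 17, 17, 19, 20, 20, 22, 23, 23, 25, 26, 26, 28, 29, 29]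

def f : Fin 45 → (Fin 3 → ZMod 2) := ![![1, 0, 0], ![0, 1, 0], ![1, 0, 0], ![0, 1, 0], ![0, 0, 1], ![1, 0, 1], ![1, 1, 0], ![1, 1, 0], ![1, 1, 0], ![0, 1, 1], ![1, 0, 0], ![1, 1, 1], ![0, 1, 0], ![0, 0, 1], ![0, 0, 1], ![1, 0, 1], ![1, 0, 0], ![0, 0, 1], ![1, 1, 0], ![1, 0, 0], ![0, 1, 0], ![1, 1, 0], ![0, 1, 0], ![1, 0, 0], ![1, 1, 0], ![1, 0, 0], ![0, 1, 0], ![0, 1, 1], ![0, 1, 0], ![0, 0, 1], ![0, 0, 1], ![1, 0, 1], ![1, 0, 0], ![0, 0, 1], ![1, 1, 0], ![1, 1, 1], ![0, 1, 0], ![1, 1, 0], ![1, 0, 0], ![0, 0, 1], ![1, 1, 0], ![1, 1, 1], ![0, 0, 1], ![0, 1, 1], ![0, 1, 0]]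

def i0 : Fin 30 → Fin 45 := ![0, 4, 5, 0, 1, 6, 1, 2, 7, 2, 3, 8, 3, 4, 9, 5, 10, 13, 6, 11, 14, 7, 10, 12, 8, 11, 13, 9, 12, 14]

def i1 : Fin 30 → Fin 45 := ![15, 15, 16, 18, 18, 19, 21, 21, 22, 24, 24, 25, 27, 27, 28, 30, 30, 31, 33, 33, 34, 36, 36, 37, 39, 39, 40, 42, 42, 43]

def i2 : Fin 30 → Fin 45 := ![17, 16, 17, 20, 19, 20, 23, 22, 23, 26, 25, 26, 29, 28, 29, 32, 31, 32, 35, 34, 35, 38, 37, 38, 41, 40, 41, 44, 43, 44]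

theorem inc_eq : ∀ v : Fin 30,
    Finset.univ.filter (fun e : Fin 45 => s e = v ∨ t e = v) = {i0 v, i1 v, i2 v} := by
  decide +kernel

theorem inc_ne : ∀ v : Fin 30, i0 v ≠ i1 v ∧ i0 v ≠ i2 v ∧ i1 v ≠ i2 v := by
  decide +kernel

theorem sum_inc {M : Type} [AddCommMonoid M] (g : Fin 45 → M) (v : Fin 30) :
    ∑ e ∈ Finset.univ.filter (fun e : Fin 45 => s e = v ∨ t e = v), g e
      = g (i0 v) + g (i1 v) + g (i2 v) := by
  obtain ⟨h1, h2, h3⟩ := inc_ne v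
  rw [inc_eq v, Finset.sum_insert (by simp [h1, h2]), Finset.sum_insert (by simp [h3]),
    Finset.sum_singleton, add_assoc]

theorem par (C : Finset (Fin 45)) (v : Fin 30)
    (h : Even (C.filter (fun e : Fin 45 => s e = v ∨ t e = v)).card) :
    (if i0 v ∈ C then (1 : ZMod 2) else 0) + (if i1 v ∈ C then (1 : ZMod 2) else 0)
      + (if i2 v ∈ C then (1 : ZMod 2) else 0) = 0 := by
  rw [← sum_inc (fun e => if e ∈ C then (1 : ZMod 2) else 0) v]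
  have h2 : ((C.filter (fun e : Fin 45 => s e = v ∨ t e = v)).card : ZMod 2) = 0 :=
    (ZMod.natCast_eq_zero_iff_even).2 h
  rw [Finset.sum_ite, Finset.sum_const_zero, add_zero, Finset.sum_const, nsmul_eq_mul,
    mul_one, ← h2]
  congr 2
  ext e
  simp [and_comm]

theorem tri : ∀ a b c x y z : ZMod 2 × ZMod 2,
    a + x + z = 0 → b + x + y = 0 → c + y + z = 0 → a + b + c = 0 := by
  decide +kernel

set_option synthInstance.maxSize 100000 in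
set_option maxRecDepth 100000 in
theorem pet : ∀ a0 : ZMod 2 × ZMod 2, a0 ≠ 0 → ∀ a4 : ZMod 2 × ZMod 2, a4 ≠ 0 →
    ∀ a5 : ZMod 2 × ZMod 2, a5 ≠ 0 → a0 + a4 + a5 = 0 →
    ∀ a1 : ZMod 2 × ZMod 2, a1 ≠ 0 → ∀ a6 : ZMod 2 × ZMod 2, a6 ≠ 0 → a0 + a1 + a6 = 0 →
    ∀ a2 : ZMod 2 × ZMod 2, a2 ≠ 0 → ∀ a7 : ZMod 2 × ZMod 2, a7 ≠ 0 → a1 + a2 + a7 = 0 →
    ∀ a3 : ZMod 2 × ZMod 2, a3 ≠ 0 → ∀ a8 : ZMod 2 × ZMod 2, a8 ≠ 0 → a2 + a3 + a8 = 0 →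
    ∀ a9 : ZMod 2 × ZMod 2, a9 ≠ 0 → a3 + a4 + a9 = 0 →
    ∀ a10 : ZMod 2 × ZMod 2, a10 ≠ 0 → ∀ a13 : ZMod 2 × ZMod 2, a13 ≠ 0 → a5 + a10 + a13 = 0 →
    ∀ a12 : ZMod 2 × ZMod 2, a12 ≠ 0 → a7 + a10 + a12 = 0 →
    ∀ a11 : ZMod 2 × ZMod 2, a11 ≠ 0 → a8 + a11 + a13 = 0 →
    ∀ a14 : ZMod 2 × ZMod 2, a14 ≠ 0 → a6 + a11 + a14 = 0 → a9 + a12 + a14 = 0 → False := by
  decide +kernel

theorem result :
    ¬ (∀ (n m : ℕ) (s t : Fin m → Fin n), (∀ e, s e ≠ t e) →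
      (∀ v : Fin n, (Finset.univ.filter (fun e : Fin m => s e = v ∨ t e = v)).card = 3) →
      (∃ f : Fin m → (Fin 3 → ZMod 2), (∀ e, f e ≠ 0) ∧
        (∀ v : Fin n, ∑ e ∈ Finset.univ.filter (fun e : Fin m => s e = v ∨ t e = v), f e = 0) ∧
        ((Finset.univ : Finset (Fin n)).image
          (fun v : Fin n => (Finset.univ.filter (fun e : Fin m => s e = v ∨ t e = v)).image f)).card ≤ 5) →
      ∀ C0 : Finset (Fin m),
        (∀ v : Fin n, (C0.filter (fun e : Fin m => s e = v ∨ t e = v)).card = 2) →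
        ∃ C1 C2 : Finset (Fin m),
          (∀ v : Fin n, (C1.filter (fun e : Fin m => s e = v ∨ t e = v)).card = 2) ∧
          (∀ v : Fin n, Even (C2.filter (fun e : Fin m => s e = v ∨ t e = v)).card) ∧
          C0 ∪ C1 ∪ C2 = Finset.univ) := by
  intro H
  obtain ⟨C1, C2, h1, h2, h3⟩ := H 30 45 s t (by decide +kernel) (by decide +kernel)
    ⟨f, by decide +kernel, fun v => by rw [sum_inc]; revert v; decide +kernel,
      by simp only [inc_eq]; decide +kernel⟩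
    (Finset.univ.filter (fun e : Fin 45 => 15 ≤ e.val)) (by decide +kernel)
  let w : Fin 45 → ZMod 2 × ZMod 2 := fun e =>
    (if e ∈ C1 then 1 else 0, if e ∈ C2 then 1 else 0)
  have hw : ∀ v : Fin 30, w (i0 v) + w (i1 v) + w (i2 v) = 0 := by
    intro v
    have a1 := par C1 v (by rw [h1 v]; decide)
    have a2 := par C2 v (h2 v)
    exact Prod.ext a1 a2
  have hn : ∀ e : Fin 45, e.val < 15 → w e ≠ 0 := by
    intro e he h0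
    have hm : e ∈ (Finset.univ.filter (fun e : Fin 45 => 15 ≤ e.val)) ∪ C1 ∪ C2 := by
      rw [h3]; exact Finset.mem_univ e
    have b1 : (if e ∈ C1 then (1 : ZMod 2) else 0) = 0 := congrArg Prod.fst h0
    have b2 : (if e ∈ C2 then (1 : ZMod 2) else 0) = 0 := congrArg Prod.snd h0
    simp only [Finset.mem_union, Finset.mem_filter, Finset.mem_univ, true_and] at hm
    rcases hm with (hm | hm) | hm
    · omega
    · simp [hm] at b1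
    · simp [hm] at b2
  have p0 : w 0 + w 4 + w 5 = 0 := tri _ _ _ (w 15) (w 16) (w 17) (hw 0) (hw 1) (hw 2)
  have p1 : w 0 + w 1 + w 6 = 0 := tri _ _ _ (w 18) (w 19) (w 20) (hw 3) (hw 4) (hw 5)
  have p2 : w 1 + w 2 + w 7 = 0 := tri _ _ _ (w 21) (w 22) (w 23) (hw 6) (hw 7) (hw 8)
  have p3 : w 2 + w 3 + w 8 = 0 := tri _ _ _ (w 24) (w 25) (w 26) (hw 9) (hw 10) (hw 11)
  have p4 : w 3 + w 4 + w 9 = 0 := tri _ _ _ (w 27) (w 28) (w 29) (hw 12) (hw 13) (hw 14)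
  have p5 : w 5 + w 10 + w 13 = 0 := tri _ _ _ (w 30) (w 31) (w 32) (hw 15) (hw 16) (hw 17)
  have p6 : w 6 + w 11 + w 14 = 0 := tri _ _ _ (w 33) (w 34) (w 35) (hw 18) (hw 19) (hw 20)
  have p7 : w 7 + w 10 + w 12 = 0 := tri _ _ _ (w 36) (w 37) (w 38) (hw 21) (hw 22) (hw 23)
  have p8 : w 8 + w 11 + w 13 = 0 := tri _ _ _ (w 39) (w 40) (w 41) (hw 24) (hw 25) (hw 26)
  have p9 : w 9 + w 12 + w 14 = 0 := tri _ _ _ (w 42) (w 43) (w 44) (hw 27) (hw 28) (hw 29)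
  exact pet (w 0) (hn 0 (by decide)) (w 4) (hn 4 (by decide)) (w 5) (hn 5 (by decide)) p0 (w 1) (hn 1 (by decide)) (w 6) (hn 6 (by decide)) p1
    (w 2) (hn 2 (by decide)) (w 7) (hn 7 (by decide)) p2 (w 3) (hn 3 (by decide)) (w 8) (hn 8 (by decide)) p3
    (w 9) (hn 9 (by decide)) p4 (w 10) (hn 10 (by decide)) (w 13) (hn 13 (by decide)) p5
    (w 12) (hn 12 (by decide)) p7 (w 11) (hn 11 (by decide)) p8 (w 14) (hn 14 (by decide)) p6 p9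

end Pool.Agent.S07966
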