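import Pool.Statements.S08046
import Pool.Agent.H11.Elv

set_option autoImplicit false
open Classical
open Pool Pool.MP_34e2ea_co

namespace Pool.Agent.S08046

/-- The negation of the preceding statement: For all d, k there is N such that any set S of at least N points in convex position in R^d has its k-largest-distances graph colorable with m colors, for every m such that every compact diameter-1 set splits into m parts of diameter < 1. -/
theorem result :
    ¬ (∀ d k : ℕ, ∃ N : ℕ, ∀ S : Finset (EuclideanSpace ℝ (Fin d)),
      N ≤ S.card →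
      (∀ x ∈ S, x ∉ convexHull ℝ ((↑S : Set (EuclideanSpace ℝ (Fin d))) \ {x})) →
      ∀ m : ℕ,
        (∀ K : Set (EuclideanSpace ℝ (Fin d)), IsCompact K → Metric.diam K = 1 →
          ∃ f : EuclideanSpace ℝ (Fin d) → Fin m,
            ∀ i : Fin m, Metric.diam (K ∩ f ⁻¹' {i}) < 1) →
        (SimpleGraph.fromRel (fun x y : S =>
          ((S.offDiag.image (fun p => dist p.1 p.2)).filter
            (fun r => dist (x : EuclideanSpace ℝ (Fin d)) (y : EuclideanSpace ℝ (Fin d)) < r)).card
              < k)).Colorable m) := by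
  intro h
  obtain ⟨N, hN⟩ := h 3 100
  let S : Finset H11.Elv.E := Finset.univ.image H11.Elv.q ∪
    (Finset.range N).image (fun j : ℕ => H11.Elv.c ((j : ℝ) / N))
  have hS : ∀ y ∈ S, (∃ i, y = H11.Elv.q i) ∨ H11.Elv.Circ y := by
    intro y hy
    rcases Finset.mem_union.1 hy with h1 | h1
    · obtain ⟨i, _, rfl⟩ := Finset.mem_image.1 h1
      exact Or.inl ⟨i, rfl⟩
    · obtain ⟨j, hj, rfl⟩ := Finset.mem_image.1 h1
      have hj' : j < N := Finset.mem_range.1 hj
      have hN0 : (0 : ℝ) < N := by exact_mod_cast (by omega : 0 < N)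
      refine Or.inr (H11.Elv.c_circ _ (by positivity) ?_)
      rw [div_le_one hN0]
      exact_mod_cast hj'.le
  have hcard : N ≤ S.card := by
    refine le_trans ?_ (Finset.card_le_card Finset.subset_union_right)
    rw [Finset.card_image_of_injOn, Finset.card_range]
    intro j hj l _ hjl
    have hj' : j < N := Finset.mem_range.1 (Finset.mem_coe.1 hj)
    have hN0 : (0 : ℝ) < N := by exact_mod_cast (by omega : 0 < N)
    have h1 : 3 * ((j : ℝ) / N) = 3 * ((l : ℝ) / N) := congrArg (fun x : H11.Elv.E => x 0) hjl
    have h2 : (j : ℝ) = l := by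
      field_simp at h1
      linarith
    exact_mod_cast h2
  obtain ⟨C⟩ := hN S hcard (H11.Elv.conv _ hS) 8 H11.Elv.part8
  have hq : ∀ i, H11.Elv.q i ∈ S := fun i =>
    Finset.mem_union_left _ (Finset.mem_image_of_mem _ (Finset.mem_univ i))
  have hinj : Function.Injective (fun i : Fin 9 => C ⟨H11.Elv.q i, hq i⟩) := by
    intro i j hij
    by_contra hne
    have hfar := H11.Elv.q_far i j hne
    refine C.valid ?_ hij
    rw [SimpleGraph.fromRel_adj]
    refine ⟨fun he => ?_, Or.inl ?_⟩
    · have : H11.Elv.q i = H11.Elv.q j := congrArg Subtype.val he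
      rw [this, dist_self] at hfar
      norm_num at hfar
    · refine lt_of_le_of_lt (Finset.card_le_card (t := insert (Real.sqrt 132505)
        ((Finset.univ : Finset (Fin 9 × Fin 9)).image
          (fun p => dist (H11.Elv.q p.1) (H11.Elv.q p.2)))) ?_) ?_
      · intro r hr
        obtain ⟨hr1, hr2⟩ := Finset.mem_filter.1 hr
        obtain ⟨⟨x, y⟩, hxy, rfl⟩ := Finset.mem_image.1 hr1
        obtain ⟨hx, hy, _⟩ := Finset.mem_offDiag.1 hxy
        have h200 : 200 < dist x y := lt_of_le_of_lt hfar hr2
        rcases hS x hx with ⟨a, rfl⟩ | hx' <;> rcases hS y hy with ⟨b, rfl⟩ | hy'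
        · exact Finset.mem_insert_of_mem (Finset.mem_image.2 ⟨(a, b), Finset.mem_univ _, rfl⟩)
        · rcases H11.Elv.cq y hy' a with h1 | h1
          · rw [dist_comm] at h1; linarith
          · rw [dist_comm] at h1
            exact Finset.mem_insert.2 (Or.inl h1)
        · rcases H11.Elv.cq x hx' b with h1 | h1
          · linarith
          · exact Finset.mem_insert.2 (Or.inl h1)
        · linarith [H11.Elv.cc x y hx' hy']
      · refine lt_of_le_of_lt (Finset.card_insert_le _ _) ?_
        have := Finset.card_image_le (s := (Finset.univ : Finset (Fin 9 × Fin 9)))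
          (f := fun p => dist (H11.Elv.q p.1) (H11.Elv.q p.2))
        simp only [Finset.card_univ, Fintype.card_prod, Fintype.card_fin] at this
        omega
  have := Fintype.card_le_of_injective _ hinj
  simp at this

end Pool.Agent.S08046
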