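import Pool.Statements.S08064

set_option autoImplicit false
open Pool Pool.MP_3562eb_co

namespace Pool.Agent.S08064

/-- The negation of the preceding statement: For each β>0 there are c,n0 so that for any prime p, any A in Z_p with n0 ≤ ∣A∣ = n < (1−β)p/2, and any forbidden set F ⊆ A×A of max degree ≤ d, some B ⊆ A with ∣B∣ ≤ c has at least 2n−2d−1 sums a+b, a∈A, b∈B, (a,b)∉F. -/
theorem result :
    ¬ (∀ β : ℝ, 0 < β → ∃ c n₀ : ℕ, ∀ p : ℕ, p.Prime →
      ∀ (A : Finset (ZMod p)) (F : Finset (ZMod p × ZMod p)) (d : ℕ),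
        n₀ ≤ A.card →
        (A.card : ℝ) < (1 - β) * (p : ℝ) / 2 →
        F ⊆ A ×ˢ A →
        (∀ x : ZMod p, (F.filter (fun q => q.1 = x)).card ≤ d) →
        (∀ x : ZMod p, (F.filter (fun q => q.2 = x)).card ≤ d) →
        ∃ B : Finset (ZMod p), B ⊆ A ∧ B.card ≤ c ∧
          (2 * (A.card : ℤ) - 2 * (d : ℤ) - 1) ≤
            ((((A ×ˢ B) \ F).image (fun q => q.1 + q.2)).card : ℤ)) := by
  intro h
  classical
  obtain ⟨c, n₀, h⟩ := h (1 / 10) (by norm_num)
  obtain ⟨p, hpge, hp⟩ := Nat.exists_infinite_primes (5 * n₀ + 1000)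
  have : NeZero p := ⟨hp.ne_zero⟩
  obtain ⟨b, hb⟩ : ∃ b, b = p / 5 - 2 := ⟨_, rfl⟩
  have inj : ∀ u v : ℕ, u < p → v < p → (u : ZMod p) = v → u = v := by
    intro u v hu hv e
    have := congrArg ZMod.val e
    rwa [ZMod.val_cast_of_lt hu, ZMod.val_cast_of_lt hv] at this
  set A0 := (Finset.range p).filter (fun m => ¬ (m < 5 * b ∧ m % 5 < 3)) with hA0
  set A : Finset (ZMod p) := A0.image (fun m : ℕ => (m : ZMod p)) with hA
  have cardA : A.card = A0.card := by
    apply Finset.card_image_of_injOn
    intro u hu v hv e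
    simp only [hA0, Finset.coe_filter, Finset.mem_range, Set.mem_ofPred_eq] at hu hv
    exact inj u v hu.1 hv.1 e
  have low : b ≤ A0.card := by
    have : ((Finset.range b).image (fun j => 5 * j + 3)).card = b := by
      rw [Finset.card_image_of_injective _ (fun u v e => by simpa using e), Finset.card_range]
    rw [← this]
    apply Finset.card_le_card
    intro m hm
    simp only [Finset.mem_image, Finset.mem_range] at hm
    obtain ⟨j, hj, rfl⟩ := hm
    simp only [hA0, Finset.mem_filter, Finset.mem_range]
    omega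
  have up : A0.card + 3 * b ≤ p := by
    have e1 := Finset.card_filter_add_card_filter_not (s := Finset.range p)
      (fun m => m < 5 * b ∧ m % 5 < 3)
    rw [Finset.card_range, ← hA0] at e1
    have e2 : ((Finset.range (3 * b)).image (fun j => 5 * (j / 3) + j % 3)).card = 3 * b := by
      rw [Finset.card_image_of_injective _ (fun u v e => by
        have e' : 5 * (u / 3) + u % 3 = 5 * (v / 3) + v % 3 := e
        omega), Finset.card_range]
    have e3 : 3 * b ≤ ((Finset.range p).filter (fun m => m < 5 * b ∧ m % 5 < 3)).card := by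
      rw [← e2]
      apply Finset.card_le_card
      intro m hm
      simp only [Finset.mem_image, Finset.mem_range] at hm
      obtain ⟨j, hj, rfl⟩ := hm
      simp only [Finset.mem_filter, Finset.mem_range]
      omega
    omega
  set S : Finset ℕ := {0, 1, p - 1, 5, p - 5} with hS
  have cardS : S.card = 5 := by
    rw [hS, Finset.card_insert_of_notMem, Finset.card_insert_of_notMem,
      Finset.card_insert_of_notMem, Finset.card_pair] <;>
      (try simp only [Finset.mem_insert, Finset.mem_singleton]) <;> omega
  set T : Finset (ZMod p) := S.image (fun s : ℕ => ((5 * (b - 1) + 2 + s : ℕ) : ZMod p)) with hT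
  have cardT : T.card ≤ 5 := cardS ▸ Finset.card_image_le
  have main : ∀ x ∈ A, 4 ≤ (A.filter (fun y => x + y ∈ T)).card := by
    intro x hx
    simp only [hA, hA0, Finset.mem_image, Finset.mem_filter, Finset.mem_range] at hx
    obtain ⟨m, ⟨hm1, hm2⟩, rfl⟩ := hx
    obtain ⟨m', h1, h2, h3⟩ : ∃ m' : ℕ, m' < p ∧ ¬ (m' < 5 * b ∧ m' % 5 < 3) ∧
        ((m : ZMod p) + m' = ((5 * (b - 1) + 2 : ℕ) : ZMod p)) := by
      by_cases hc : m ≤ 5 * (b - 1) + 2
      · refine ⟨5 * (b - 1) + 2 - m, by omega, by omega, ?_⟩
        rw [← Nat.cast_add]; congr 1; omega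
      · refine ⟨5 * (b - 1) + 2 + p - m, by omega, by omega, ?_⟩
        rw [← Nat.cast_add, show m + (5 * (b - 1) + 2 + p - m) = 5 * (b - 1) + 2 + p by omega,
          Nat.cast_add _ p, ZMod.natCast_self, add_zero]
    let w : ℕ → ℕ := fun s => if m' + s < p then m' + s else m' + s - p
    have hw : ∀ s, ((w s : ℕ) : ZMod p) = m' + s := by
      intro s
      by_cases hc : m' + s < p
      · simp [w, hc]
      · simp only [w, hc, if_false]
        rw [Nat.cast_sub (by omega), ZMod.natCast_self, sub_zero, Nat.cast_add]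
    have hSlt : ∀ s ∈ S, s < p := by
      intro s hs
      simp only [hS, Finset.mem_insert, Finset.mem_singleton] at hs
      omega
    have e1 := Finset.card_filter_add_card_filter_not (s := S)
      (fun s => w s < 5 * b ∧ w s % 5 < 3)
    have e2 : (S.filter (fun s => w s < 5 * b ∧ w s % 5 < 3)).card ≤ 1 := by
      rw [Finset.card_le_one]
      intro s hs s' hs'
      simp only [hS, Finset.mem_filter, Finset.mem_insert, Finset.mem_singleton, w] at hs hs'
      obtain ⟨hs1, hs2⟩ := hs
      obtain ⟨hs1', hs2'⟩ := hs'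
      split_ifs at hs2 hs2' <;> omega
    have e3 : (S.filter (fun s => ¬ (w s < 5 * b ∧ w s % 5 < 3))).card ≤
        (A.filter (fun y => (m : ZMod p) + y ∈ T)).card := by
      apply Finset.card_le_card_of_injOn (fun s => ((w s : ℕ) : ZMod p))
      · intro s hs
        simp only [Finset.coe_filter, Set.mem_ofPred_eq] at hs ⊢
        refine ⟨?_, ?_⟩
        · rw [hA, Finset.mem_image]
          refine ⟨w s, ?_, rfl⟩
          rw [hA0, Finset.mem_filter, Finset.mem_range]
          refine ⟨?_, hs.2⟩
          have := hSlt s hs.1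
          simp only [w]
          split_ifs <;> omega
        · rw [hT, Finset.mem_image]
          refine ⟨s, hs.1, ?_⟩
          rw [hw, ← add_assoc, h3, Nat.cast_add _ s]
      · intro s hs s' hs' e
        simp only [Finset.coe_filter, Set.mem_ofPred_eq] at hs hs'
        simp only [hw] at e
        exact inj s s' (hSlt s hs.1) (hSlt s' hs'.1) (add_left_cancel e)
    omega
  have deg : ∀ x ∈ A, (A.filter (fun y => ¬ (x + y ∈ T))).card ≤ A.card - 4 := by
    intro x hx
    have := main x hx
    have e1 := Finset.card_filter_add_card_filter_not (s := A) (fun y => x + y ∈ T)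
    omega
  obtain ⟨B, hBA, -, hB⟩ := h p hp A ((A ×ˢ A).filter (fun q => ¬ (q.1 + q.2 ∈ T))) (A.card - 4)
    (by omega)
    (by
      have e1 : 20 * A.card < 9 * p := by omega
      have e2 : (20 * A.card : ℝ) < 9 * p := by exact_mod_cast e1
      linarith)
    (Finset.filter_subset _ _)
    (by
      intro x
      by_cases hx : x ∈ A
      · refine le_trans ?_ (deg x hx)
        apply Finset.card_le_card_of_injOn (fun q => q.2)
        · intro q hq
          simp only [Finset.coe_filter, Finset.mem_filter, Finset.mem_product,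
            Set.mem_ofPred_eq] at hq ⊢
          exact ⟨hq.1.1.2, hq.2 ▸ hq.1.2⟩
        · intro q hq q' hq' e
          simp only [Finset.coe_filter, Set.mem_ofPred_eq] at hq hq'
          exact Prod.ext (hq.2.trans hq'.2.symm) e
      · rw [Finset.filter_eq_empty_iff.mpr, Finset.card_empty]
        · exact Nat.zero_le _
        · intro q hq e
          simp only [Finset.mem_filter, Finset.mem_product] at hq
          exact hx (e ▸ hq.1.1))
    (by
      intro x
      by_cases hx : x ∈ A
      · refine le_trans ?_ (deg x hx)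
        apply Finset.card_le_card_of_injOn (fun q => q.1)
        · intro q hq
          simp only [Finset.coe_filter, Finset.mem_filter, Finset.mem_product,
            Set.mem_ofPred_eq] at hq ⊢
          refine ⟨hq.1.1.1, ?_⟩
          rw [← hq.2, add_comm]
          exact hq.1.2
        · intro q hq q' hq' e
          simp only [Finset.coe_filter, Set.mem_ofPred_eq] at hq hq'
          exact Prod.ext e (hq.2.trans hq'.2.symm)
      · rw [Finset.filter_eq_empty_iff.mpr, Finset.card_empty]
        · exact Nat.zero_le _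
        · intro q hq e
          simp only [Finset.mem_filter, Finset.mem_product] at hq
          exact hx (e ▸ hq.1.2))
  have sub : (((A ×ˢ B) \ ((A ×ˢ A).filter (fun q => ¬ (q.1 + q.2 ∈ T)))).image
      (fun q => q.1 + q.2)) ⊆ T := by
    intro z hz
    simp only [Finset.mem_image, Finset.mem_sdiff, Finset.mem_filter, Finset.mem_product] at hz
    obtain ⟨q, ⟨⟨h1, h2⟩, h3⟩, rfl⟩ := hz
    by_contra hc
    exact h3 ⟨⟨h1, hBA h2⟩, hc⟩
  have := Finset.card_le_card sub
  omega

end Pool.Agent.S08064
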