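import Pool.Statements.S08110

set_option autoImplicit false
universe u
open Pool Pool.MP_375da3_co

namespace Pool.Agent.S08110

theorem result :
    ¬ (∀ (T : Type u) [DistribLattice T] (ι : Type u) (C : ι → Type u)
      [∀ i, LinearOrder (C i)],
      Nonempty (T ↪o ((i : ι) → C i)) →
        ∃ (D : ι → Type u) (_ : ∀ i, LinearOrder (D i)),
          ∃ f : LatticeHom T ((i : ι) → D i), Function.Injective f) := by
  intro h
  classical
  -- T = finite subsets of the reals, indexed by pairs of rationals (open intervals)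
  let F : ULift.{u} (Finset ℝ) → (ULift.{u} (ℚ × ℚ)) → ULift.{u} Prop :=
    fun A q => ULift.up (∃ x ∈ A.down, (q.down.1 : ℝ) < x ∧ x < (q.down.2 : ℝ))
  have hF : ∀ A B : ULift.{u} (Finset ℝ), F A ≤ F B ↔ A ≤ B := by
    intro A B
    constructor
    · intro hle
      show A.down ≤ B.down
      intro x hx
      by_contra hxB
      have hopen : IsOpen ((B.down : Set ℝ)ᶜ) := (B.down.finite_toSet.isClosed).isOpen_compl
      have hmem : ((B.down : Set ℝ)ᶜ) ∈ nhds x := hopen.mem_nhds (by simpa using hxB)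
      obtain ⟨l, r, hlr, hsub⟩ := mem_nhds_iff_exists_Ioo_subset.mp hmem
      obtain ⟨p, hp1, hp2⟩ := exists_rat_btwn hlr.1
      obtain ⟨q, hq1, hq2⟩ := exists_rat_btwn hlr.2
      have h1 : (F A ⟨(p, q)⟩).down := ⟨x, hx, hp2, hq1⟩
      have h2 : (F A ⟨(p, q)⟩).down ≤ (F B ⟨(p, q)⟩).down := hle ⟨(p, q)⟩
      obtain ⟨y, hy, hy1, hy2⟩ := h2 h1
      have : y ∈ ((B.down : Set ℝ)ᶜ) := hsub ⟨lt_trans hp1 hy1, lt_trans hy2 hq2⟩
      exact this (by simpa using hy)
    · intro hle q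
      show (F A q).down ≤ (F B q).down
      rintro ⟨x, hx, h1, h2⟩
      exact ⟨x, hle hx, h1, h2⟩
  obtain ⟨D, instD, f, hf⟩ := h (ULift.{u} (Finset ℝ)) (ULift.{u} (ℚ × ℚ))
    (fun _ => ULift.{u} Prop) ⟨OrderEmbedding.ofMapLEIff F hF⟩
  -- every real x has a coordinate separating the singleton from the empty set
  have hsep : ∀ x : ℝ, ∃ i, f ⟨{x}⟩ i ≠ f ⟨∅⟩ i := by
    intro x
    by_contra hcon
    push Not at hcon
    have : (⟨{x}⟩ : ULift.{u} (Finset ℝ)) = ⟨∅⟩ := hf (funext hcon)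
    have h2 : ({x} : Finset ℝ) = ∅ := congrArg ULift.down this
    exact absurd h2 (Finset.singleton_ne_empty x)
  choose g hg using hsep
  have hinj : Function.Injective g := by
    intro x y hxy
    by_contra hne
    have hinf : (⟨{x}⟩ : ULift.{u} (Finset ℝ)) ⊓ ⟨{y}⟩ = ⟨∅⟩ := by
      apply ULift.down_injective
      show ({x} : Finset ℝ) ⊓ {y} = ∅
      ext z
      simp only [Finset.inf_eq_inter, Finset.mem_inter, Finset.mem_singleton,
        Finset.notMem_empty, iff_false, not_and]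
      intro h1 h2
      exact hne (h1.symm.trans h2)
    have h1 : f ⟨{x}⟩ (g x) ⊓ f ⟨{y}⟩ (g x) = f ⟨∅⟩ (g x) := by
      have : f ((⟨{x}⟩ : ULift.{u} (Finset ℝ)) ⊓ ⟨{y}⟩) = f ⟨{x}⟩ ⊓ f ⟨{y}⟩ := f.map_inf' _ _
      rw [hinf] at this
      rw [this]
      rfl
    rcases le_total (f ⟨{x}⟩ (g x)) (f ⟨{y}⟩ (g x)) with hle | hle
    · rw [inf_eq_left.mpr hle] at h1
      exact hg x h1
    · rw [inf_eq_right.mpr hle] at h1
      have := hg y
      rw [← hxy] at this
      exact this h1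
  have : Countable ℝ := hinj.countable
  exact not_countable (α := ℝ) this

end Pool.Agent.S08110
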