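import Pool.Statements.S08141
import Pool.Agent.H17.QMat

set_option autoImplicit false
open Pool Pool.MP_389e9c_co

namespace Pool.Agent.S08141

open Pool.Agent.H17

def px0 : Fin 8 → ℕ := ![1, 2, 0, 0, 0, 0, 0, 0]
def py0 : Fin 8 → ℕ := ![0, 0, 1, 2, 0, 0, 0, 0]

def px1 : Fin 8 → ℕ := ![1, 2, 0, 0, 5, 0, 0, 0]
def py1 : Fin 8 → ℕ := ![0, 0, 1, 2, 14, 0, 0, 0]

def px2 : Fin 8 → ℕ := ![1, 2, 0, 0, 5, 114, 0, 0]
def py2 : Fin 8 → ℕ := ![0, 0, 1, 2, 14, 143, 0, 0]

def px3 : Fin 8 → ℕ := ![361, 722, 0, 0, 1229, 25378, 29822, 0]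
def py3 : Fin 8 → ℕ := ![0, 0, 361, 722, 3134, 47575, 32883, 0]

def px4 : Fin 8 → ℕ := ![4984923, 9969846, 0, 0, 24924471, 517945510, 443634626, 794752243]
def py4 : Fin 8 → ℕ := ![0, 0, 4984923, 9969846, 63496962, 629989081, 678058933, 2079686984]

theorem ok0 : stepOK 4 px0 py0 px1 py1 4 13 2 9 1 1 := by
  decide +kernel

theorem ok1 : stepOK 5 px1 py1 px2 py2 28 16 19 29 1 1 := by
  decide +kernel

theorem ok2 : stepOK 6 px2 py2 px3 py3 24 50 46 57 361 1 := by
  decide +kernel

theorem ok3 : stepOK 7 px3 py3 px4 py4 61 39 118 72 13906157 955 := by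
  decide +kernel

def gxa : Fin 8 → ℕ := ![1, 2, 0, 0, 5, 114, 14035, 9384]
def gya : Fin 8 → ℕ := ![0, 0, 1, 2, 14, 143, 5962, 7752]
def Ta : ℕ := 22263252678892846271829364395816476816797541912465221626966658164148557282248256069411576418896292419278739890496532279243067020846018076485372782851929504823438198050970174658855934451774965135005640847633292786729511118464213936761979901486308700339077254902452259975411323467090637435151393941564543505367491262179848728126137865546147503340624710449130473718874578199722314701171612818852289072838824242851245278738388192300208185570591950537300229870331656101568426860599917304789709930164399122729035036182594003532353945791564147714439255885487857251934662177037669808637426650278480575980287830537028560389831182546746414756835625709037476173361601832488237326843318813010095605598951887849714087898690785323454232282873765847808375467377862595517081173226028546304505040246104650673590611621803572961504563575828025699633377872987961824552496626010094857659074625797701325142859688954456581740211668214787363143007743520482569990393620625853431672182278275455069061983456696681399267073507642796841027279831520313431294301764782573340171207879654757286518273980393240791605701269624347664760185007271711068755691592709533044027793365275754058794690707135892895617295891958928656151824241614011044693803751400803277912145920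

def Ia : ℕ := 451726674938568705369500023459205895713392658472960698206687330304

def gxb : Fin 8 → ℕ := ![1, 2, 0, 0, 5, 114, 31514, 8812]
def gyb : Fin 8 → ℕ := ![0, 0, 1, 2, 14, 143, 16268, 19670]
def Tb : ℕ := 285625528804468815592712774716007122356406868240134711565045685456076859418527013369794772131188330611271980161292843886734298716831517795823119501355916013537618112517586443938233879804672914338795678579509798543190044079069028673430821994011300796724071606599797393337677398902805877350306282308295464929693493465669442380778557545967871378283180799558980104638813557184924439432847805734560815016157051350771892638441643677483044252498976978410772161876655973981238601800219852224568295978214568180076910706498164352925430626656680770348691928175821287429950293733914733075863848014497151386521344065394353699856322187002297595800893928790015930099773836198065788660907090169530567431403426715034673678479847570310744107940746770362980572338179081934766944433306232100031766089197845554749931968699735209679865000359739043475259792602613809807084172919982272497570796142199971478295920481820082530786033475363338114349444514816728341473336661096237306652585670487968402065957085007029669951545575385454141617404820488174110244785294295097808261314048979387660488250983217264251512420302357208718452925060478345261929164492421685103054145276039514207875150754258084390445117135130586888405637531187183246259910497810532999989559296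

def Ib : ℕ := 244043761134636704338759582778092056648973690195797345006542864423845888

theorem chka : ∀ u, u < 256 → u ≠ 0 → chk 21881 14 Ta gxa gya u := by decide +kernel

theorem chkb : ∀ u, u < 256 → u ≠ 0 → chk 47009 15 Tb gxb gyb u := by decide +kernel

theorem same : ∀ u, u < 256 → ∀ v, v < 256 → (sl Ta u = sl Ta v ↔ sl Tb u = sl Tb v) ∨
    u = 0 ∨ v = 0 := by decide +kernel

theorem fielda : ∃ (K : Type) (_ : Field K) (_ : Algebra (ZMod 2) K) (α : K),
    Module.finrank (ZMod 2) K = 14 ∧ ev α 21881 = 0 ∧ ∀ x, x ≠ 0 → x < 2 ^ 14 → ev α x ≠ 0 :=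
  exists_field 21881 14 (sl Ia) (by decide +kernel) (by norm_num) (by norm_num)
    (by decide +kernel) (by decide +kernel)

theorem fieldb : ∃ (K : Type) (_ : Field K) (_ : Algebra (ZMod 2) K) (α : K),
    Module.finrank (ZMod 2) K = 15 ∧ ev α 47009 = 0 ∧ ∀ x, x ≠ 0 → x < 2 ^ 15 → ev α x ≠ 0 :=
  exists_field 47009 15 (sl Ib) (by decide +kernel) (by norm_num) (by norm_num)
    (by decide +kernel) (by decide +kernel)

theorem unimod {K : Type} [Field K] (a b : K) (h : a ≠ 0 ∨ b ≠ 0) : ∃ p q, p * a + q * b = 1 := by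
  rcases h with h | h
  · exact ⟨a⁻¹, 0, by simp [h]⟩
  · exact ⟨0, b⁻¹, by simp [h]⟩

theorem partA : ∃ C : Submodule F2 (Fin 8 → Fin 29 → F2), Module.finrank F2 C = 58 ∧
    (∀ W, 29 ∣ Module.finrank F2 ↥(C ⊓ cols 29 W)) ∧
    (∀ (V : Submodule F2 (Fin 8 → F2)) u v, u < 256 → u ≠ 0 → v < 256 → v ≠ 0 → bv u ∈ V →
      bv v ∈ V → sl Ta u ≠ sl Ta v → Module.finrank F2 ↥(C ⊓ cols 29 (perp V)) = 0) ∧
    (∀ u v, u < 256 → u ≠ 0 → v < 256 → v ≠ 0 → sl Ta u = sl Ta v →
      Module.finrank F2 ↥(C ⊓ cols 29 (perp (Submodule.span F2 {bv u, bv v}))) = 29) := by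
  obtain ⟨Ka, _, _, α, ra, fa, na⟩ := fielda
  obtain ⟨Kb, _, _, γ, rb, fb, nb⟩ := fieldb
  have : Module.Finite F2 Ka := Module.finite_of_finrank_pos (by rw [ra]; norm_num)
  have : Module.Finite F2 Kb := Module.finite_of_finrank_pos (by rw [rb]; norm_num)
  have hR : Module.finrank F2 (Ka × Kb) = 29 := by rw [Module.finrank_prod, ra, rb]
  let β : (Ka × Kb) ≃ₗ[F2] (Fin 29 → F2) := LinearEquiv.ofFinrankEq _ _ (by rw [hR]; simp)
  obtain ⟨ua, da⟩ := field_facts α 21881 14 Ta gxa gya fa na chka
  obtain ⟨ub, db⟩ := field_facts γ 47009 15 Tb gxb gyb fb nb chkb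
  let x : Fin 8 → Ka × Kb := fun i => (ev α (gxa i), ev γ (gxb i))
  let y : Fin 8 → Ka × Kb := fun i => (ev α (gya i), ev γ (gyb i))
  have x1 : ∀ v, (cx x v).1 = cx (fun i => ev α (gxa i)) v := fun v => by
    simp [cx, x, Prod.fst_sum]
  have x2 : ∀ v, (cx x v).2 = cx (fun i => ev γ (gxb i)) v := fun v => by
    simp [cx, x, Prod.snd_sum]
  have y1 : ∀ v, (cx y v).1 = cx (fun i => ev α (gya i)) v := fun v => by
    simp [cx, y, Prod.fst_sum]
  have y2 : ∀ v, (cx y v).2 = cx (fun i => ev γ (gyb i)) v := fun v => by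
    simp [cx, y, Prod.snd_sum]
  have d1 : ∀ u v, (dt x y u v).1 = dt (fun i => ev α (gxa i)) (fun i => ev α (gya i)) u v :=
    fun u v => by simp [dt, x1, y1]
  have d2 : ∀ u v, (dt x y u v).2 = dt (fun i => ev γ (gxb i)) (fun i => ev γ (gyb i)) u v :=
    fun u v => by simp [dt, x2, y2]
  have hun : ∀ u, u < 256 → u ≠ 0 → ∃ p q, p * cx x (bv u) + q * cx y (bv u) = 1 := by
    intro u hu h0
    obtain ⟨p, q, h⟩ := unimod _ _ (ua u hu h0)
    obtain ⟨p', q', h'⟩ := unimod _ _ (ub u hu h0)
    exact ⟨(p, p'), (q, q'), Prod.ext (by simpa [x1, y1] using h) (by simpa [x2, y2] using h')⟩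
  have hz : ∀ u v, u < 256 → u ≠ 0 → v < 256 → v ≠ 0 → sl Ta u = sl Ta v →
      dt x y (bv u) (bv v) = 0 := by
    intro u v hu hu0 hv hv0 h
    have h' := ((same u hu v hv).resolve_right (by tauto)).1 h
    exact Prod.ext ((d1 _ _).trans ((da u v hu hu0 hv hv0).2 h))
      ((d2 _ _).trans ((db u v hu hu0 hv hv0).2 h'))
  have hnz : ∀ u v, u < 256 → u ≠ 0 → v < 256 → v ≠ 0 → sl Ta u ≠ sl Ta v →
      IsUnit (dt x y (bv u) (bv v)) := by
    intro u v hu hu0 hv hv0 h
    have h' := mt ((same u hu v hv).resolve_right (by tauto)).2 h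
    rw [Prod.isUnit_iff, d1, d2, isUnit_iff_ne_zero, isUnit_iff_ne_zero]
    exact ⟨mt (da u v hu hu0 hv hv0).1 h, mt (db u v hu hu0 hv hv0).1 h'⟩
  have hinj : Function.Injective (psi β x y) := by
    rw [injective_iff_map_eq_zero]
    intro c hc
    have h0 : β (c.1 * x 0 + c.2 * y 0) = 0 := congrFun hc 0
    have h2 : β (c.1 * x 2 + c.2 * y 2) = 0 := congrFun hc 2
    rw [β.map_eq_zero_iff] at h0 h2
    have a1 : x 0 = 1 := Prod.ext (ev_one α) (ev_one γ)
    have a2 : y 0 = 0 := Prod.ext (ev_zero α) (ev_zero γ)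
    have a3 : x 2 = 0 := Prod.ext (ev_zero α) (ev_zero γ)
    have a4 : y 2 = 1 := Prod.ext (ev_one α) (ev_one γ)
    rw [a1, a2] at h0
    rw [a3, a4] at h2
    exact Prod.ext (by simpa using h0) (by simpa using h2)
  have hfr : ∀ V, Module.finrank F2 ↥(LinearMap.range (psi β x y) ⊓ cols 29 (perp V)) =
      Module.finrank F2 (ann x y V) := by
    intro V
    rw [code_eq]
    exact (LinearEquiv.finrank_eq (Submodule.equivMapOfInjective _ hinj _)).symm
  refine ⟨LinearMap.range (psi β x y), ?_, fun W => ?_, ?_, ?_⟩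
  · rw [LinearMap.finrank_range_of_inj hinj, Module.finrank_prod, hR]
  · rw [← perp_perp W, hfr]
    by_cases h0 : ∀ v ∈ perp W, v = 0
    · rw [ann_zero x y _ h0, finrank_top, Module.finrank_prod, hR]
      norm_num
    push Not at h0
    obtain ⟨w, hw, hw0⟩ := h0
    obtain ⟨u, hu, rfl⟩ := bv_surj w
    have hu0 : u ≠ 0 := fun h => hw0 (h ▸ bv_zero)
    by_cases h1 : ∀ v ∈ perp W, dt x y (bv u) v = 0
    · obtain ⟨p, q, hpq⟩ := hun u hu hu0
      rw [ann_one x y _ _ hw p q hpq h1, hR]
    push Not at h1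
    obtain ⟨w', hw', h1⟩ := h1
    obtain ⟨v, hv, rfl⟩ := bv_surj w'
    have hv0 : v ≠ 0 := fun h => h1 (by rw [h, bv_zero]; simp [dt, cx])
    rw [ann_two x y _ _ _ hw hw' (hnz u v hu hu0 hv hv0 fun h => h1 (hz u v hu hu0 hv hv0 h))]
    simp
  · intro V u v hu hu0 hv hv0 h1 h2 h
    rw [hfr, ann_two x y _ _ _ h1 h2 (hnz u v hu hu0 hv hv0 h)]
    simp
  · intro u v hu hu0 hv hv0 h
    obtain ⟨p, q, hpq⟩ := hun u hu hu0
    rw [hfr, ann_one x y _ (bv u) (Submodule.subset_span (by simp)) p q hpq, hR]
    intro w hw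
    obtain ⟨a, b, rfl⟩ := Submodule.mem_span_pair.1 hw
    have h1 := hz u v hu hu0 hv hv0 h
    have e : ∀ z : Fin 8 → Ka × Kb, cx z (a • bv u + b • bv v) =
        algebraMap F2 _ a * cx z (bv u) + algebraMap F2 _ b * cx z (bv v) := by
      intro z
      simp only [cx, Finset.mul_sum, ← Finset.sum_add_distrib]
      refine Finset.sum_congr rfl fun i _ => ?_
      simp only [Pi.add_apply, Pi.smul_apply, smul_eq_mul]
      simp only [Algebra.smul_def, map_add, map_mul]
      ring
    rw [dt] at h1 ⊢
    rw [e, e]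
    linear_combination algebraMap F2 _ b * h1

theorem fin_ok : pmul 64 (xs 197 px4) (xs 42 py4) ^^^ pmul 64 (xs 42 px4) (xs 197 py4) =
    pmul 64 (pmul 64 (pmul 64 (pmul 64 2 361) 20707) 21881) 47009 ∧
    xs 42 py4 < 2 ^ 64 ∧ xs 197 py4 < 2 ^ 64 := by decide +kernel

theorem partB {K : Type} [Field K] [Algebra F2 K] (hK : Module.finrank F2 K = 29)
    (x y : Fin 8 → K) (x0 : x 0 = 1) (y0 : y 0 = 0) (x2 : x 2 = 0) (y2 : y 2 = 1)
    (hd : ∀ u v, u < 256 → u ≠ 0 → v < 256 → v ≠ 0 → sl Ta u = sl Ta v →
      dt x y (bv u) (bv v) = 0)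
    (hn : ∀ u, u < 256 → u ≠ 0 → cx x (bv u) ≠ 0 ∨ cx y (bv u) ≠ 0) : False := by
  have t2 : (2 : K) = 0 := two_eq
  have l1 := hd 1 2 (by norm_num) (by norm_num) (by norm_num) (by norm_num) (by decide +kernel)
  have l2 := hd 4 8 (by norm_num) (by norm_num) (by norm_num) (by norm_num) (by decide +kernel)
  have l3 := hd 5 10 (by norm_num) (by norm_num) (by norm_num) (by norm_num) (by decide +kernel)
  have l4 := hd 20 13 (by norm_num) (by norm_num) (by norm_num) (by norm_num) (by decide +kernel)
  have l5 := hd 18 9 (by norm_num) (by norm_num) (by norm_num) (by norm_num) (by decide +kernel)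
  have l6 := hd 60 16 (by norm_num) (by norm_num) (by norm_num) (by norm_num) (by decide +kernel)
  have l7 := hd 51 29 (by norm_num) (by norm_num) (by norm_num) (by norm_num) (by decide +kernel)
  have l8 := hd 88 50 (by norm_num) (by norm_num) (by norm_num) (by norm_num) (by decide +kernel)
  have l9 := hd 110 57 (by norm_num) (by norm_num) (by norm_num) (by norm_num) (by decide +kernel)
  have l10 := hd 189 39 (by norm_num) (by norm_num) (by norm_num) (by norm_num)
    (by decide +kernel)
  have l11 := hd 246 72 (by norm_num) (by norm_num) (by norm_num) (by norm_num)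
    (by decide +kernel)
  have l12 := hd 197 42 (by norm_num) (by norm_num) (by norm_num) (by norm_num)
    (by decide +kernel)
  have sp : ∀ (z : Fin 8 → K) (j : Fin 8) (u w : ℕ), bv u = Pi.single j 1 + bv w →
      cx z (bv u) = z j + cx z (bv w) := by
    intro z j u w h
    rw [h]
    simp [cx, add_smul, Finset.sum_add_distrib, Pi.single_apply]
  have s0 : ∀ z : Fin 8 → K, cx z (bv 0) = 0 := fun z => by simp [cx, bv_zero]
  have s1 : ∀ z : Fin 8 → K, cx z (bv 1) = z 0 := fun z => by
    rw [sp z 0 1 0 (by decide +kernel), s0, add_zero]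
  have s2 : ∀ z : Fin 8 → K, cx z (bv 2) = z 1 := fun z => by
    rw [sp z 1 2 0 (by decide +kernel), s0, add_zero]
  have s3 : ∀ z : Fin 8 → K, cx z (bv 3) = z 1 + z 0 := fun z => by
    rw [sp z 1 3 1 (by decide +kernel), s1]
  have s4 : ∀ z : Fin 8 → K, cx z (bv 4) = z 2 := fun z => by
    rw [sp z 2 4 0 (by decide +kernel), s0, add_zero]
  have s8 : ∀ z : Fin 8 → K, cx z (bv 8) = z 3 := fun z => by
    rw [sp z 3 8 0 (by decide +kernel), s0, add_zero]
  have s5 : ∀ z : Fin 8 → K, cx z (bv 5) = z 2 + z 0 := fun z => by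
    rw [sp z 2 5 1 (by decide +kernel), s1]
  have s10 : ∀ z : Fin 8 → K, cx z (bv 10) = z 3 + z 1 := fun z => by
    rw [sp z 3 10 2 (by decide +kernel), s2]
  rw [dt, s1, s1, s2, s2, x0, y0] at l1
  rw [dt, s4, s4, s8, s8, x2, y2] at l2
  rw [dt, s5, s5, s10, s10, x0, y0, x2, y2] at l3
  have y1 : y 1 = 0 := by linear_combination l1
  have x3 : x 3 = 0 := by linear_combination -l2
  have y3 : y 3 = x 1 := by linear_combination l3 - y1 + x3
  have n0 : x 1 ≠ 0 := by
    have := hn 2 (by norm_num) (by norm_num)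
    rw [s2, s2, y1] at this
    simpa using this
  have n1 : x 1 ≠ 1 := by
    have := hn 3 (by norm_num) (by norm_num)
    rw [s3, s3, y1, y0, x0] at this
    intro h
    rw [h, one_add_one_eq_two, t2] at this
    simp at this
  have hne := ev_ne_prime 29 (by norm_num) hK (x 1) n0 n1
  rw [dt, sp x 4 20 4 (by decide +kernel), sp y 4 20 4 (by decide +kernel)] at l4
  rw [dt, sp x 4 18 2 (by decide +kernel), sp y 4 18 2 (by decide +kernel)] at l5
  rw [dt, sp x 5 60 28 (by decide +kernel), sp y 5 60 28 (by decide +kernel)] at l6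
  rw [dt, sp x 5 51 19 (by decide +kernel), sp y 5 51 19 (by decide +kernel)] at l7
  rw [dt, sp x 6 88 24 (by decide +kernel), sp y 6 88 24 (by decide +kernel)] at l8
  rw [dt, sp x 6 110 46 (by decide +kernel), sp y 6 110 46 (by decide +kernel)] at l9
  rw [dt, sp x 7 189 61 (by decide +kernel), sp y 7 189 61 (by decide +kernel)] at l10
  rw [dt, sp x 7 246 118 (by decide +kernel), sp y 7 246 118 (by decide +kernel)] at l11
  have st0 : ∃ l : K, l ≠ 0 ∧ ∀ i : Fin 8, i < 4 →
      l * x i = ev (x 1) (px0 i) ∧ l * y i = ev (x 1) (py0 i) := by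
    refine ⟨1, one_ne_zero, fun i hi => ?_⟩
    fin_cases i
    · simp [px0, py0, x0, y0, ev_one, ev_zero]
    · simp [px0, py0, y1, ev_two, ev_zero]
    · simp [px0, py0, x2, y2, ev_one, ev_zero]
    · simp [px0, py0, x3, y3, ev_two, ev_zero]
    all_goals exact absurd hi (by decide)
  obtain ⟨m1, h1, st1⟩ := step (x 1) hne x y 4 _ _ _ _ _ _ _ _ _ _ ok0 l4 l5 st0
  obtain ⟨m2, h2, st2⟩ := step (x 1) hne x y 5 _ _ _ _ _ _ _ _ _ _ ok1 l6 l7
    ⟨m1, h1, fun i hi => st1 i (by omega)⟩
  obtain ⟨m3, h3, st3⟩ := step (x 1) hne x y 6 _ _ _ _ _ _ _ _ _ _ ok2 l8 l9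
    ⟨m2, h2, fun i hi => st2 i (by omega)⟩
  obtain ⟨m4, h4, st4⟩ := step (x 1) hne x y 7 _ _ _ _ _ _ _ _ _ _ ok3 l10 l11
    ⟨m3, h3, fun i hi => st3 i (by omega)⟩
  have a1 := cx_ev (x 1) m4 x px4 197 fun i _ => (st4 i (by omega)).1
  have a2 := cx_ev (x 1) m4 y py4 197 fun i _ => (st4 i (by omega)).2
  have a3 := cx_ev (x 1) m4 x px4 42 fun i _ => (st4 i (by omega)).1
  have a4 := cx_ev (x 1) m4 y py4 42 fun i _ => (st4 i (by omega)).2
  obtain ⟨f1, f2, f3⟩ := fin_ok
  have f4 := congrArg (ev (x 1)) f1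
  rw [ev_xor _ t2, ev_pmul _ t2 64 _ _ f2, ev_pmul _ t2 64 _ _ f3, ← a1, ← a2, ← a3, ← a4,
    ev_pmul _ t2 64 _ _ (by norm_num), ev_pmul _ t2 64 _ _ (by norm_num),
    ev_pmul _ t2 64 _ _ (by norm_num), ev_pmul _ t2 64 _ _ (by norm_num)] at f4
  refine mul_ne_zero (mul_ne_zero (mul_ne_zero (mul_ne_zero (hne 2 (by norm_num) (by norm_num))
    (hne 361 (by norm_num) (by norm_num))) (hne 20707 (by norm_num) (by norm_num)))
    (hne 21881 (by norm_num) (by norm_num))) (hne 47009 (by norm_num) (by norm_num)) ?_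
  rw [← f4]
  rw [dt] at l12
  linear_combination m4 ^ 2 * l12 + (m4 ^ 2 * cx x (bv 42) * cx y (bv 197)) * t2

theorem partC {K : Type} [Field K] [Algebra F2 K] (hK : Module.finrank F2 K = 29) (k : ℕ)
    (G : Matrix (Fin k) (Fin 8) K) (S : Submodule F2 (Fin 8 → F2) → Submodule K (Fin k → K))
    (hS : ∀ V, S V = Submodule.span K
      ((fun v : Fin 8 → F2 => Matrix.mulVec G (fun i => algebraMap F2 K (v i))) ''
        (V : Set (Fin 8 → F2))))
    (h2 : ∀ (V : Submodule F2 (Fin 8 → F2)), bv 1 ∈ V → bv 4 ∈ V → Module.finrank K (S V) = 2)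
    (h1 : ∀ u v, u < 256 → u ≠ 0 → v < 256 → v ≠ 0 → sl Ta u = sl Ta v →
      Module.finrank K (S (Submodule.span F2 {bv u, bv v})) = 1) : False := by
  let ψ : (Fin 8 → F2) →ₗ[F2] (Fin k → K) :=
    { toFun := fun v => Matrix.mulVec G (fun i => algebraMap F2 K (v i))
      map_add' := fun a b => by
        rw [← Matrix.mulVec_add]
        congr 1
        funext i
        simp
      map_smul' := fun a b => by
        funext r
        simp [Matrix.mulVec, dotProduct, Finset.mul_sum, Algebra.smul_def, mul_left_comm] }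
  have hmem : ∀ (V : Submodule F2 (Fin 8 → F2)) v, v ∈ V → ψ v ∈ S V := by
    intro V v hv
    rw [hS]
    exact Submodule.subset_span ⟨v, hv, rfl⟩
  have hle : ∀ u v, S (Submodule.span F2 {u, v}) ≤ Submodule.span K {ψ u, ψ v} := by
    intro u v
    rw [hS, Submodule.span_le]
    rintro _ ⟨w, hw, rfl⟩
    obtain ⟨a, b, rfl⟩ := Submodule.mem_span_pair.1 hw
    show ψ (a • u + b • v) ∈ Submodule.span K {ψ u, ψ v}
    rw [map_add, map_smul, map_smul]
    exact add_mem (Submodule.smul_of_tower_mem _ _ (Submodule.subset_span (by simp)))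
      (Submodule.smul_of_tower_mem _ _ (Submodule.subset_span (by simp)))
  have hT : Submodule.span K {ψ (bv 1), ψ (bv 4)} = S ⊤ := by
    apply Submodule.eq_of_le_of_finrank_le
    · rw [Submodule.span_le]
      rintro _ (rfl | rfl)
      · exact hmem _ _ trivial
      · exact hmem _ _ trivial
    · have a1 := h2 (Submodule.span F2 {bv 1, bv 4})
        (Submodule.subset_span (by simp)) (Submodule.subset_span (by simp))
      have a2 := Submodule.finrank_mono (hle (bv 1) (bv 4))
      have a3 := h2 ⊤ trivial trivial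
      omega
  have hco : ∀ i : Fin 8, ∃ a b : K, a • ψ (bv 1) + b • ψ (bv 4) = ψ (Pi.single i 1) ∧
      (i = 0 → a = 1 ∧ b = 0) ∧ (i = 2 → a = 0 ∧ b = 1) := by
    intro i
    by_cases i0 : i = 0
    · subst i0
      refine ⟨1, 0, ?_, by simp, by simp⟩
      rw [show bv 1 = Pi.single 0 1 by decide +kernel]
      simp
    by_cases i2 : i = 2
    · subst i2
      refine ⟨0, 1, ?_, by simp, by simp⟩
      rw [show bv 4 = Pi.single 2 1 by decide +kernel]
      simp
    obtain ⟨a, b, h⟩ := Submodule.mem_span_pair.1 (hT ▸ hmem ⊤ (Pi.single i 1) trivial)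
    exact ⟨a, b, h, fun h => absurd h i0, fun h => absurd h i2⟩
  choose x y hxy c0 c2 using hco
  have hv : ∀ v, ψ v = cx x v • ψ (bv 1) + cx y v • ψ (bv 4) := by
    intro v
    have e : v = ∑ i, v i • (Pi.single i 1 : Fin 8 → F2) := by
      funext j
      simp [Finset.sum_apply, Pi.single_apply]
    conv_lhs => rw [e, map_sum]
    simp only [cx, Finset.sum_smul, ← Finset.sum_add_distrib]
    refine Finset.sum_congr rfl fun i _ => ?_
    rw [map_smul, ← hxy i, smul_add, smul_assoc, smul_assoc]
  refine partB hK x y (c0 0 rfl).1 (c0 0 rfl).2 (c2 2 rfl).1 (c2 2 rfl).2 ?_ ?_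
  · intro u v hu hu0 hv' hv0 h
    by_contra hd
    have a1 := hmem (Submodule.span F2 {bv u, bv v}) (bv u) (Submodule.subset_span (by simp))
    have a2 := hmem (Submodule.span F2 {bv u, bv v}) (bv v) (Submodule.subset_span (by simp))
    have hle' : S ⊤ ≤ S (Submodule.span F2 {bv u, bv v}) := by
      rw [← hT, Submodule.span_le]
      rintro _ (rfl | rfl)
      · have : ψ (bv 1) = (dt x y (bv u) (bv v))⁻¹ •
            (cx y (bv v) • ψ (bv u) - cx y (bv u) • ψ (bv v)) := by
          rw [eq_inv_smul_iff₀ hd, hv (bv u), hv (bv v), dt]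
          module
        rw [this]
        exact Submodule.smul_mem _ _ (sub_mem (Submodule.smul_mem _ _ a1)
          (Submodule.smul_mem _ _ a2))
      · have : ψ (bv 4) = (dt x y (bv u) (bv v))⁻¹ •
            (cx x (bv u) • ψ (bv v) - cx x (bv v) • ψ (bv u)) := by
          rw [eq_inv_smul_iff₀ hd, hv (bv u), hv (bv v), dt]
          module
        rw [this]
        exact Submodule.smul_mem _ _ (sub_mem (Submodule.smul_mem _ _ a2)
          (Submodule.smul_mem _ _ a1))
    have := Submodule.finrank_mono hle'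
    rw [h2 ⊤ trivial trivial, h1 u v hu hu0 hv' hv0 h] at this
    omega
  · intro u hu hu0
    by_contra hc
    push Not at hc
    have a1 : ψ (bv u) = 0 := by rw [hv, hc.1, hc.2]; simp
    have a2 := Submodule.finrank_mono (hle (bv u) (bv u))
    rw [h1 u u hu hu0 hu hu0 rfl, a1] at a2
    simp at a2

/-- There is a finite field F, an extension K of degree m>1, and an F-linear code of n×m matrices whose shortened-code dimensions are all divisible by m, such that no matrix over K represents the q-matroid with rank (dim C − dim C(V^⊥))/m. -/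
theorem result :
    ∃ (F K : Type) (_ : Field F) (_ : Fintype F) (_ : Field K) (_ : Algebra F K) (m n : ℕ),
      1 < m ∧ Module.finrank F K = m ∧
      ∃ C : Submodule F (Fin n → Fin m → F),
        (∀ W : Submodule F (Fin n → F),
          m ∣ Module.finrank F ↥(C ⊓ ⨅ j : Fin m, Submodule.comap
            (LinearMap.pi (fun i : Fin n =>
              LinearMap.comp (LinearMap.proj j : (Fin m → F) →ₗ[F] F)
                (LinearMap.proj i : (Fin n → Fin m → F) →ₗ[F] (Fin m → F)))) W)) ∧
        ¬ ∃ (k : ℕ) (G : Matrix (Fin k) (Fin n) K),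
          ∀ V : Submodule F (Fin n → F),
            m * Module.finrank K (Submodule.span K
              ((fun v : Fin n → F => Matrix.mulVec G (fun i => algebraMap F K (v i))) ''
                (V : Set (Fin n → F))))
            = Module.finrank F C - Module.finrank F ↥(C ⊓ ⨅ j : Fin m, Submodule.comap
              (LinearMap.pi (fun i : Fin n =>
                LinearMap.comp (LinearMap.proj j : (Fin m → F) →ₗ[F] F)
                  (LinearMap.proj i : (Fin n → Fin m → F) →ₗ[F] (Fin m → F))))
              (⨅ (v : Fin n → F) (_ : v ∈ V), LinearMap.ker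
                (∑ i : Fin n, v i • (LinearMap.proj i : (Fin n → F) →ₗ[F] F)))) := by
  obtain ⟨C, c1, c2, c3, c4⟩ := partA
  have hK : Module.finrank F2 (GaloisField 2 29) = 29 := GaloisField.finrank 2 (by norm_num)
  refine ⟨F2, GaloisField 2 29, inferInstance, inferInstance, inferInstance, inferInstance, 29, 8,
    by norm_num, hK, C, c2, ?_⟩
  rintro ⟨k, G, h⟩
  refine partC hK k G _ (fun _ => rfl) (fun V h1 h4 => ?_) (fun u v hu hu0 hv hv0 e => ?_)
  · have a1 := h V
    have a2 := c3 V 1 4 (by norm_num) (by norm_num) (by norm_num) (by norm_num) h1 h4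
      (by decide +kernel)
    rw [c1] at a1
    erw [a2] at a1
    omega
  · have a1 := h (Submodule.span F2 {bv u, bv v})
    have a2 := c4 u v hu hu0 hv hv0 e
    rw [c1] at a1
    erw [a2] at a1
    omega

end Pool.Agent.S08141
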