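import Pool.Statements.S08206
-- import your own Pool.Agent.* helpers here

set_option autoImplicit false
open Pool Pool.MP_3b2b47_co

namespace Pool.Agent.S08206

open MeasureTheory WithLp

set_option maxRecDepth 100000

abbrev V := Fin 3 → ℝ
abbrev E := EuclideanSpace ℝ (Fin 3)

def n1 (x : E) : ℝ := |x 0| + |x 1| + |x 2|

lemma n1_add (x y : E) : n1 (x + y) ≤ n1 x + n1 y := by
  simp only [n1, PiLp.add_apply]
  linarith [abs_add_le (x 0) (y 0), abs_add_le (x 1) (y 1), abs_add_le (x 2) (y 2)]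

lemma n1_smul (r : ℝ) (x : E) : n1 (r • x) = |r| * n1 x := by
  simp only [n1, PiLp.smul_apply, smul_eq_mul, abs_mul]; ring

lemma n1_nonneg (x : E) : 0 ≤ n1 x := by unfold n1; positivity

lemma n1_cont : Continuous n1 := by unfold n1; fun_prop

def B (r : ℝ) : Set E := {x | n1 x ≤ r}

lemma B_convex (r : ℝ) : Convex ℝ (B r) := by
  intro x hx y hy a b ha hb hab
  have := n1_add (a • x) (b • y)
  rw [n1_smul, n1_smul, abs_of_nonneg ha, abs_of_nonneg hb] at this
  have h1 : a * n1 x ≤ a * r := mul_le_mul_of_nonneg_left hx ha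
  have h2 : b * n1 y ≤ b * r := mul_le_mul_of_nonneg_left hy hb
  show n1 _ ≤ r
  have : a * r + b * r = r := by rw [← add_mul, hab, one_mul]
  linarith

lemma B_closed (r : ℝ) : IsClosed (B r) := isClosed_le n1_cont continuous_const

lemma B_compact : IsCompact (B 1) := by
  refine Metric.isCompact_of_isClosed_isBounded (B_closed 1)
    ((Metric.isBounded_closedBall (x := 0) (r := 1)).subset fun x hx => ?_)
  have h : |x 0| + |x 1| + |x 2| ≤ 1 := hx
  rw [mem_closedBall_zero_iff, EuclideanSpace.norm_eq, Real.sqrt_le_one, Fin.sum_univ_three]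
  simp only [Real.norm_eq_abs]
  nlinarith [abs_nonneg (x 0), abs_nonneg (x 1), abs_nonneg (x 2), mul_nonneg (abs_nonneg (x 0))
    (abs_nonneg (x 1)), mul_nonneg (abs_nonneg (x 0)) (abs_nonneg (x 2)),
    mul_nonneg (abs_nonneg (x 1)) (abs_nonneg (x 2))]

lemma volB : volume (B 4) = ENNReal.ofReal (256 / 3) := by
  rw [← (PiLp.volume_preserving_toLp (Fin 3)).measure_preimage
    (B_closed 4).measurableSet.nullMeasurableSet]
  have := volume_sum_rpow_le (Fin 3) (p := 1) le_rfl 4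
  simp only [Real.rpow_one, div_one, Fin.sum_univ_three, Fintype.card_fin] at this
  refine Eq.trans ?_ (this.trans ?_)
  · rfl
  · rw [← ENNReal.ofReal_pow (by norm_num), ← ENNReal.ofReal_mul (by norm_num)]
    have h1 : Real.Gamma (1 + 1) = 1 := by simpa using Real.Gamma_nat_eq_factorial 1
    have h2 : Real.Gamma ((3 : ℕ) + 1) = 6 := by
      rw [Real.Gamma_nat_eq_factorial 3]; norm_num [Nat.factorial]
    rw [h1, h2]; norm_num

def T : Set V := {x | 0 < x 0 ∧ 0 < x 1 ∧ x 0 + x 1 ≤ 1 ∧ 0 ≤ x 2 ∧ x 2 ≤ 1}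

lemma T_convex : Convex ℝ T := by
  rintro x ⟨x1, x2, x3, x4, x5⟩ y ⟨y1, y2, y3, y4, y5⟩ a b ha hb hab
  obtain rfl : b = 1 - a := by linarith
  simp only [T, Set.mem_ofPred_eq, Pi.add_apply, Pi.smul_apply, smul_eq_mul]
  rcases ha.eq_or_lt with rfl | ha
  · simp; exact ⟨y1, y2, y3, y4, y5⟩
  · refine ⟨by positivity, by positivity, by nlinarith, by positivity, by nlinarith⟩

lemma volT : ENNReal.ofReal (1 / 2) ≤ volume T := by
  have h1 : Set.pi Set.univ (fun _ : Fin 3 => Set.Ioo (0 : ℝ) 1) ⊆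
      T ∪ (fun x => (1 : V) - x) ⁻¹' T := by
    intro x hx
    have a := hx 0 trivial
    have b := hx 1 trivial
    have c := hx 2 trivial
    by_cases h : x 0 + x 1 ≤ 1
    · exact Or.inl ⟨a.1, b.1, h, c.1.le, c.2.le⟩
    · right
      simp only [T, Set.mem_preimage, Set.mem_ofPred_eq, Pi.sub_apply, Pi.one_apply]
      refine ⟨by linarith [a.2], by linarith [b.2], by linarith, by linarith [c.2], by linarith [c.1]⟩
  have h2 := (measure_mono (μ := volume) h1).trans (measure_union_le _ _)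
  have h3 : volume ((fun x => (1 : V) - x) ⁻¹' T) ≤ volume T :=
    (Measure.measurePreserving_sub_left volume (1 : V)).measure_preimage_le T
  rw [Real.volume_pi_Ioo] at h2
  simp only [sub_zero, ENNReal.ofReal_one, Finset.prod_const_one] at h2
  have h4 : 1 ≤ volume T * 2 := by rw [mul_two]; exact h2.trans (by gcongr)
  rw [ENNReal.ofReal_div_of_pos (by norm_num)]
  simpa using ENNReal.div_le_of_le_mul h4

noncomputable def sg (t : ℝ) : ℝ := if 0 ≤ t then 1 else -1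

lemma sg1 (t : ℝ) : sg t * sg t = 1 := by unfold sg; split_ifs <;> norm_num
lemma sg2 (t : ℝ) : sg t * t = |t| := by
  unfold sg; split_ifs with h
  · rw [abs_of_nonneg h, one_mul]
  · rw [abs_of_neg (not_le.1 h)]; ring
lemma sg3 (t : ℝ) : |sg t| = 1 := by unfold sg; split_ifs <;> norm_num

def p0 : Fin 6 → Fin 3 := ![0, 0, 1, 1, 2, 2]
def p1 : Fin 6 → Fin 3 := ![1, 2, 0, 2, 0, 1]
def p2 : Fin 6 → Fin 3 := ![2, 1, 2, 0, 1, 0]

noncomputable def M (w : V) (k : Fin 6) : Matrix (Fin 3) (Fin 3) ℝ := Matrix.of fun r =>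
  ![if r = p0 k then sg (w r) else 0, if r = p1 k then -sg (w r) else 0, w r]

lemma M_det (w : V) (k : Fin 6) : |(M w k).det| = |w (p2 k)| := by
  fin_cases k <;> simp [M, p0, p1, p2, Matrix.det_fin_three, abs_mul, sg3]

lemma M_app (w : V) (k : Fin 6) (x : V) (r : Fin 3) : Matrix.toLin' (M w k) x r =
    sg (w r) * ((if r = p0 k then x 0 else 0) - if r = p1 k then x 1 else 0) + x 2 * w r := by
  simp only [M, Matrix.toLin'_apply, Matrix.mulVec, dotProduct, Fin.sum_univ_three, Matrix.of_apply]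
  split_ifs <;> simp <;> ring

lemma lower (w : V) (S : Set V) (hS : ∀ v : V, |v 0| + |v 1| + |v 2| ≤ 1 → ∀ t : ℝ, 0 ≤ t → t ≤ 1 →
    v + t • w ∈ S) : ENNReal.ofReal (|w 0| + |w 1| + |w 2|) ≤ volume S := by
  have h1 : (⋃ k, Matrix.toLin' (M w k) '' T) ⊆ S := by
    rintro _ ⟨_, ⟨k, rfl⟩, x, ⟨x1, x2, x3, x4, x5⟩, rfl⟩
    have := hS (fun r => sg (w r) * ((if r = p0 k then x 0 else 0) - if r = p1 k then x 1 else 0))
      (by fin_cases k <;> simp [p0, p1, abs_mul, sg3, abs_of_pos x1, abs_of_pos x2] <;> linarith)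
      (x 2) x4 x5
    convert this using 1
    funext r; rw [M_app]; rfl
  refine le_trans ?_ (measure_mono h1)
  rw [measure_iUnion₀ ?_ fun k => (T_convex.linear_image _).nullMeasurableSet _, tsum_fintype]
  · have : ∀ k, ENNReal.ofReal (|w (p2 k)| * (1 / 2)) ≤ volume (Matrix.toLin' (M w k) '' T) := by
      intro k
      rw [Measure.addHaar_image_linearMap, LinearMap.det_toLin', M_det, ENNReal.ofReal_mul (abs_nonneg _)]
      gcongr; exact volT
    refine le_trans ?_ (Finset.sum_le_sum fun k _ => this k)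
    rw [← ENNReal.ofReal_sum_of_nonneg fun k _ => by positivity]
    refine ENNReal.ofReal_le_ofReal (le_of_eq ?_)
    simp [Fin.sum_univ_six, p2]; ring
  · intro k l hkl
    refine Disjoint.aedisjoint (Set.disjoint_left.2 ?_)
    rintro _ ⟨x, ⟨x1, x2, -⟩, rfl⟩ ⟨y, ⟨y1, y2, -⟩, e⟩
    have key : ∀ r, ((if r = p0 l then y 0 else 0) - if r = p1 l then y 1 else 0) + y 2 * |w r| =
        ((if r = p0 k then x 0 else 0) - if r = p1 k then x 1 else 0) + x 2 * |w r| := by
      intro r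
      have := congrFun e r
      rw [M_app, M_app] at this
      rw [← sg2]
      linear_combination sg (w r) * this - (((if r = p0 l then y 0 else 0) - if r = p1 l then y 1 else 0)
        - ((if r = p0 k then x 0 else 0) - if r = p1 k then x 1 else 0)) * sg1 (w r)
    have k0 := key 0
    have k1 := key 1
    have k2 := key 2
    have : ∀ r, (0 ≤ x 2 - y 2 → 0 ≤ x 2 * |w r| - y 2 * |w r|) ∧
        (x 2 - y 2 ≤ 0 → x 2 * |w r| - y 2 * |w r| ≤ 0) := fun r =>
      ⟨fun h => by nlinarith [abs_nonneg (w r)], fun h => by nlinarith [abs_nonneg (w r)]⟩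
    rcases le_total 0 (x 2 - y 2) with h | h
    · have a0 := (this 0).1 h
      have a1 := (this 1).1 h
      have a2 := (this 2).1 h
      fin_cases k <;> fin_cases l <;> simp [p0, p1] at hkl k0 k1 k2 <;> linarith
    · have a0 := (this 0).2 h
      have a1 := (this 1).2 h
      have a2 := (this 2).2 h
      fin_cases k <;> fin_cases l <;> simp [p0, p1] at hkl k0 k1 k2 <;> linarith

lemma far (a b : E) (f : E →L[ℝ] ℝ) (c : ℝ) (hf : f ≠ 0) (h1 : ∀ v ∈ B 1, f (a + v) ≤ c)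
    (h2 : ∀ v ∈ B 1, c ≤ f (b + v)) : 2 ≤ n1 (b - a) := by
  by_contra h
  obtain ⟨u, hu⟩ : ∃ u, f u ≠ 0 := by
    by_contra hh; push Not at hh; exact hf (ContinuousLinearMap.ext hh)
  have p := n1_nonneg u
  set ε := (1 - n1 (b - a) / 2) / (n1 u + 1) with hε
  have e0 : 0 < ε := div_pos (by linarith) (by linarith)
  have e1 : ε * (n1 u + 1) = 1 - n1 (b - a) / 2 := by rw [hε]; field_simp
  have m : n1 ((1 / 2 : ℝ) • (b - a) + (ε * sg (f u)) • u) ≤ 1 := by
    refine (n1_add _ _).trans ?_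
    rw [n1_smul, n1_smul, abs_mul, sg3, abs_of_pos e0, abs_of_pos (by norm_num)]
    nlinarith
  have a1 := h1 _ m
  have a2 := h2 ((-1 : ℝ) • _) (by show n1 _ ≤ 1; rw [n1_smul]; simpa using m)
  simp only [map_add, map_smul, map_sub, smul_eq_mul] at a1 a2
  have := mul_pos e0 (abs_pos.2 hu)
  rw [← sg2] at this
  nlinarith

def z : Fin 44 → Fin 3 → ℤ := ![![-3, 0, 0], ![-2, -1, 0], ![-2, 0, -1], ![-2, 0, 1], ![-2, 1, 0], ![-1, -2, 0], ![-1, -1, -1], ![-1, -1, 1], ![-1, 0, -2], ![-1, 0, 0], ![-1, 0, 2], ![-1, 1, -1], ![-1, 1, 1], ![-1, 2, 0], ![0, -3, 0], ![0, -2, -1], ![0, -2, 1], ![0, -1, -2], ![0, -1, 0], ![0, -1, 2], ![0, 0, -3], ![0, 0, -1], ![0, 0, 1], ![0, 0, 3], ![0, 1, -2], ![0, 1, 0], ![0, 1, 2], ![0, 2, -1], ![0, 2, 1], ![0, 3, 0], ![1, -2, 0], ![1, -1, -1], ![1, -1, 1], ![1, 0, -2], ![1, 0, 0], ![1, 0, 2], ![1, 1, -1], ![1, 1, 1], ![1, 2, 0], ![2, -1, 0], ![2, 0, -1], ![2, 0, 1], ![2, 1, 0], ![3, 0, 0]]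

lemma z1 : ∀ i, |z i 0| + |z i 1| + |z i 2| ≤ 3 := by decide +kernel

lemma z3 : ∀ i, (z i 0 + z i 1 + z i 2) % 2 = 1 := by decide +kernel

lemma z4 : ∀ i j, z i 0 = z j 0 → z i 1 = z j 1 → z i 2 = z j 2 → i = j := by decide +kernel

lemma z2 (i j : Fin 44) (h : i ≠ j) : ∃ s : Fin 3 → ℤ, (∀ r, s r = 1 ∨ s r = -1) ∧
    ∑ r, s r * z i r + 2 ≤ ∑ r, s r * z j r ∧
    ∀ k, ∑ r, s r * z k r ≤ ∑ r, s r * z i r ∨ ∑ r, s r * z i r + 2 ≤ ∑ r, s r * z k r := by
  refine ⟨fun r => if z i r ≤ z j r then 1 else -1, fun r => by beta_reduce; split_ifs <;> simp, ?_, fun k => ?_⟩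
  · have := z3 i
    have := z3 j
    have : ¬(z i 0 = z j 0 ∧ z i 1 = z j 1 ∧ z i 2 = z j 2) := fun ⟨a, b, c⟩ => h (z4 i j a b c)
    simp only [Fin.sum_univ_three]
    split_ifs <;> omega
  · have := z3 i
    have := z3 k
    simp only [Fin.sum_univ_three]
    split_ifs <;> omega

noncomputable def X (i : Fin 44) : E := toLp 2 fun r => (z i r : ℝ)


/-- The negation of the preceding statement: For d≥3, any o-symmetric convex body C in R^d and n>1, some totally separable packing of n translates of C with collinear centers has convex hull volume no larger than that of any totally separable packing of n translates of C. -/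
theorem result :
    ¬ (∀ d : ℕ, 3 ≤ d → ∀ C : Set (EuclideanSpace ℝ (Fin d)),
    Convex ℝ C → IsCompact C → (interior C).Nonempty → (∀ v ∈ C, -v ∈ C) →
    ∀ n : ℕ, 1 < n →
    ∃ y : Fin n → EuclideanSpace ℝ (Fin d),
      Collinear ℝ (Set.range y) ∧
      (∀ i j : Fin n, i ≠ j → ∃ f : EuclideanSpace ℝ (Fin d) →L[ℝ] ℝ, ∃ c : ℝ, f ≠ 0 ∧
         (∀ v ∈ C, f (y i + v) ≤ c) ∧ (∀ v ∈ C, c ≤ f (y j + v)) ∧
         ∀ k : Fin n, (∀ v ∈ C, f (y k + v) ≤ c) ∨ (∀ v ∈ C, c ≤ f (y k + v))) ∧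
      ∀ x : Fin n → EuclideanSpace ℝ (Fin d),
        (∀ i j : Fin n, i ≠ j → ∃ f : EuclideanSpace ℝ (Fin d) →L[ℝ] ℝ, ∃ c : ℝ, f ≠ 0 ∧
           (∀ v ∈ C, f (x i + v) ≤ c) ∧ (∀ v ∈ C, c ≤ f (x j + v)) ∧
           ∀ k : Fin n, (∀ v ∈ C, f (x k + v) ≤ c) ∨ (∀ v ∈ C, c ≤ f (x k + v))) →
        MeasureTheory.volume (convexHull ℝ (⋃ i, (fun v => y i + v) '' C)) ≤
          MeasureTheory.volume (convexHull ℝ (⋃ i, (fun v => x i + v) '' C))) := by
  intro H
  obtain ⟨y, hc, hs, hv⟩ := H 3 le_rfl (B 1) (B_convex 1) B_compact ⟨0, mem_interior.2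
    ⟨{x | n1 x < 1}, fun x (hx : n1 x < 1) => hx.le, isOpen_lt n1_cont continuous_const, by simp [n1]⟩⟩
    (fun v hv => by simpa [B, n1] using hv) 44 (by norm_num)
  have h1 := hv X fun i j hij => by
    obtain ⟨s, s0, s1, s2⟩ := z2 i j hij
    have s3 : ∀ r, (s r : ℝ) = 1 ∨ (s r : ℝ) = -1 := fun r => by
      rcases s0 r with e | e <;> simp [e]
    let f : E →L[ℝ] ℝ := ∑ r, (s r : ℝ) • EuclideanSpace.proj r
    have f1 : ∀ v, f v = ∑ r, s r * v r := fun v => by simp [f]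
    have f2 : ∀ k, f (X k) = ((∑ r, s r * z k r : ℤ) : ℝ) := fun k => by simp [f1, X]
    have f3 : ∀ v ∈ B 1, -1 ≤ f v ∧ f v ≤ 1 := fun v (hv : _ + _ + _ ≤ (1 : ℝ)) => by
      rw [f1, Fin.sum_univ_three]
      have := fun r => abs_le.1 (show |s r * v r| ≤ |v r| by rcases s3 r with e | e <;> simp [e])
      constructor <;> linarith [this 0, this 1, this 2]
    have g1 : ∀ k, ∑ r, s r * z k r ≤ ∑ r, s r * z i r → ∀ v ∈ B 1, f (X k + v) ≤ f (X i) + 1 :=
      fun k hk v hv => by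
        rw [map_add, f2, f2]; linarith [(f3 v hv).2, (Int.cast_le (R := ℝ)).2 hk]
    have g2 : ∀ k, ∑ r, s r * z i r + 2 ≤ ∑ r, s r * z k r → ∀ v ∈ B 1, f (X i) + 1 ≤ f (X k + v) :=
      fun k hk v hv => by
        have := (Int.cast_le (R := ℝ)).2 hk
        rw [Int.cast_add, Int.cast_ofNat] at this
        rw [map_add, f2, f2]; linarith [(f3 v hv).1]
    refine ⟨f, f (X i) + 1, fun e => ?_, g1 i le_rfl, g2 j s1, fun k => (s2 k).imp (g1 k) (g2 k)⟩
    have := g2 j s1 0 (by simp [B, n1])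
    rw [e] at this; norm_num at this
  have h2 : convexHull ℝ (⋃ i, (fun v => X i + v) '' B 1) ⊆ B 4 := by
    refine convexHull_min ?_ (B_convex 4)
    rintro _ ⟨_, ⟨i, rfl⟩, v, hv, rfl⟩
    have a := n1_add (X i) v
    have b : n1 (X i) ≤ 3 := by
      have := (Int.cast_le (R := ℝ)).2 (z1 i)
      simpa [n1, X] using this
    have c : n1 v ≤ 1 := hv
    show n1 _ ≤ 4
    linarith
  have h3 := (h1.trans (measure_mono h2)).trans volB.le
  obtain ⟨p, u, hp⟩ := (collinear_iff_exists_forall_eq_smul_vadd _).1 hc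
  choose t ht using fun i => hp (y i) ⟨i, rfl⟩
  have d : ∀ i j, n1 (y j - y i) = |t j * n1 u - t i * n1 u| := fun i j => by
    rw [ht, ht, vadd_eq_add, vadd_eq_add, add_sub_add_right_eq_sub, ← sub_smul, n1_smul, ← sub_mul,
      abs_mul, abs_of_nonneg (n1_nonneg u)]
  obtain ⟨a, ha⟩ := Finite.exists_min fun i => t i * n1 u
  obtain ⟨b, hb⟩ := Finite.exists_max fun i => t i * n1 u
  have h4 : 86 ≤ n1 (y b - y a) := by
    by_contra h
    rw [d, abs_of_nonneg (sub_nonneg.2 (ha b))] at h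
    obtain ⟨i, j, hij, e⟩ := Fintype.exists_ne_map_eq_of_card_lt (fun i => (⟨⌊(t i * n1 u - t a * n1 u) / 2⌋₊,
      (Nat.floor_lt (by linarith [ha i])).2 (by push_cast; linarith [hb i])⟩ : Fin 43)) (by simp)
    obtain ⟨f, c, f0, f1, f2, -⟩ := hs i j hij
    have := far _ _ f c f0 f1 f2
    rw [d] at this
    have e : ⌊(t i * n1 u - t a * n1 u) / 2⌋₊ = ⌊(t j * n1 u - t a * n1 u) / 2⌋₊ := congrArg Fin.val e
    have b1 := Nat.floor_le (show 0 ≤ (t i * n1 u - t a * n1 u) / 2 by linarith [ha i])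
    have b2 := Nat.floor_le (show 0 ≤ (t j * n1 u - t a * n1 u) / 2 by linarith [ha j])
    have b3 := Nat.lt_floor_add_one ((t i * n1 u - t a * n1 u) / 2)
    have b4 := Nat.lt_floor_add_one ((t j * n1 u - t a * n1 u) / 2)
    rw [e] at b1 b3
    rcases le_abs.1 this with h | h <;> linarith
  set K := convexHull ℝ (⋃ i, (fun v => y i + v) '' B 1)
  have h5 := lower (ofLp (y b - y a)) (toLp 2 ⁻¹' ((fun v => y a + v) ⁻¹' K)) fun v hv s s0 s1 => by
    have m : ∀ i, y i + toLp 2 v ∈ K := fun i =>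
      subset_convexHull _ _ (Set.mem_iUnion.2 ⟨i, _, hv, rfl⟩)
    have := convex_convexHull ℝ _ (m a) (m b) (sub_nonneg.2 s1) s0 (by ring)
    show y a + (toLp 2 v + s • (y b - y a)) ∈ K
    convert this using 1
    module
  have h6 := h5.trans ((PiLp.volume_preserving_toLp (Fin 3)).measure_preimage_le _)
  rw [measure_preimage_add] at h6
  have h7 := (ENNReal.ofReal_le_ofReal_iff (by norm_num)).1 (h6.trans h3)
  have : n1 (y b - y a) ≤ 256 / 3 := h7
  linarith

end Pool.Agent.S08206
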