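import Pool.Statements.S08224
import Mathlib

set_option autoImplicit false
open Pool Pool.MP_3c1ca0_co

namespace Pool.Agent.S08224

def L : List (ℕ × ℕ × ℕ) :=
  [(2,0,0), (4,0,0), (6,0,0), (8,0,0), (9,0,0), (11,0,0), (13,0,0), (14,0,0), (16,0,0), (17,0,0),
   (19,0,0), (21,0,0), (22,0,0), (24,0,0), (26,0,0), (28,0,0),
   (7,0,0), (7,1,0), (10,0,0), (25,1,0), (3,0,0), (18,0,0), (20,0,0), (5,0,0),
   (0,0,1), (3,0,1), (6,0,1), (8,0,1), (10,0,1), (12,0,1), (14,0,1), (16,0,1), (18,0,1), (21,0,1),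
   (23,0,1), (26,0,1), (28,0,1)]

def vec (t : ℕ × ℕ × ℕ) : Fin 3 → ℤ := ![t.1, t.2.1, t.2.2]

def D : Finset (Fin 3 → ℤ) := (L.map vec).toFinset

lemma L_pos : ∀ t ∈ L, 0 < t.1 + t.2.1 + t.2.2 := by decide

/-- the game on triples -/
def Rec (Q : ℕ → ℕ → ℕ → Prop) (x y z : ℕ) : Prop :=
  Q x y z ↔ ∀ t ∈ L, t.1 ≤ x → t.2.1 ≤ y → t.2.2 ≤ z → ¬ Q (x - t.1) (y - t.2.1) (z - t.2.2)

lemma uniq (Q R : ℕ → ℕ → ℕ → Prop) (hQ : ∀ x y z, z ≤ 1 → Rec Q x y z)
    (hR : ∀ x y z, z ≤ 1 → Rec R x y z) : ∀ x y z, z ≤ 1 → (Q x y z ↔ R x y z) := by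
  have : ∀ n x y z, x + y + z = n → z ≤ 1 → (Q x y z ↔ R x y z) := by
    intro n
    induction n using Nat.strong_induction_on with
    | _ n ih =>
      intro x y z hn hz
      rw [show Q x y z ↔ _ from hQ x y z hz, show R x y z ↔ _ from hR x y z hz]
      refine forall_congr' fun t => forall_congr' fun ht => forall_congr' fun h1 =>
        forall_congr' fun h2 => forall_congr' fun h3 => not_congr ?_
      have := L_pos t ht
      exact ih _ (by omega) _ _ _ rfl (by omega)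
  exact fun x y z => this _ x y z rfl

def e (p q : ℕ) : Prop := p.choose (q + 1) % 2 = 0
def ea (p q : ℕ) : Prop := 1 ≤ p ∧ e (p - 1) q
def eb (p q : ℕ) : Prop := 1 ≤ p ∧ 1 ≤ q ∧ e (p - 1) (q - 1)

lemma e_iff (p q : ℕ) : e p q ↔ (ea p q ↔ eb p q) := by
  unfold ea eb e
  rcases p with _ | p
  · simp
  · rcases q with _ | q
    · simp; omega
    · simp only [Nat.add_sub_cancel, Nat.choose_succ_succ' p (q + 1), Nat.le_add_left, true_and]
      omega

def R (x y z : ℕ) : Prop :=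
  (z = 0 ∧ x % 30 ≤ 1) ∨ (z = 1 ∧
    ((x % 30 = 2 ∧ ¬ ea (x / 30) y ∧ ¬ eb (x / 30) y) ∨
     (x % 30 = 5 ∧ ¬ ea (x / 30) y ∧ eb (x / 30) y) ∨
     (x % 30 = 20 ∧ ea (x / 30) y ∧ ¬ eb (x / 30) y) ∨
     (x % 30 = 25 ∧ e (x / 30) y)))

lemma R0 (x y : ℕ) : R x y 0 ↔ x % 30 ≤ 1 := by simp [R]

lemma R1_no {x y : ℕ} (h : x % 30 ≠ 2 ∧ x % 30 ≠ 5 ∧ x % 30 ≠ 20 ∧ x % 30 ≠ 25) : ¬ R x y 1 := by
  simp [R, h]

lemma R1_2 (p y : ℕ) : R (30 * p + 2) y 1 ↔ ¬ ea p y ∧ ¬ eb p y := by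
  have h1 : (30 * p + 2) % 30 = 2 := by omega
  have h2 : (30 * p + 2) / 30 = p := by omega
  simp [R, h1, h2]

lemma R1_5 (p y : ℕ) : R (30 * p + 5) y 1 ↔ ¬ ea p y ∧ eb p y := by
  have h1 : (30 * p + 5) % 30 = 5 := by omega
  have h2 : (30 * p + 5) / 30 = p := by omega
  simp [R, h1, h2]

lemma R1_20 (p y : ℕ) : R (30 * p + 20) y 1 ↔ ea p y ∧ ¬ eb p y := by
  have h1 : (30 * p + 20) % 30 = 20 := by omega
  have h2 : (30 * p + 20) / 30 = p := by omega
  simp [R, h1, h2]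

lemma R1_25 (p y : ℕ) : R (30 * p + 25) y 1 ↔ e p y := by
  have h1 : (30 * p + 25) % 30 = 25 := by omega
  have h2 : (30 * p + 25) / 30 = p := by omega
  simp [R, h1, h2]

lemma rec0 (x y : ℕ) : Rec R x y 0 := by
  unfold Rec
  rw [R0]
  constructor
  · intro h t ht h1 h2 h3
    have k : ∀ t ∈ L, t.2.2 ≤ 0 → 2 ≤ t.1 ∧ t.1 ≤ 28 := by decide
    have := k t ht h3
    rw [Nat.zero_sub, R0]
    omega
  · intro h
    by_contra hx
    have k : ∀ r ∈ List.range 30, 2 ≤ r → ∃ t ∈ L, t.1 ≤ r ∧ r ≤ t.1 + 1 ∧ t.2.1 = 0 ∧ t.2.2 = 0 := by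
      decide
    obtain ⟨⟨a, b, c⟩, h3, h1, h2, rfl, rfl⟩ := k (x % 30) (List.mem_range.2 (by omega)) (by omega)
    simp only at h1 h2
    refine h _ h3 (by simp only; omega) (by simp) (by simp) ?_
    simp only [Nat.sub_zero, R0]
    omega

/-- for a gate residue only the listed wires matter -/
lemma gate (p y r : ℕ) (hr : r = 2 ∨ r = 5 ∨ r = 20 ∨ r = 25) (W : List (ℕ × ℕ × ℕ))
    (hW : ∀ t ∈ W, t ∈ L)
    (h : ∀ t ∈ L, t ∈ W ∨ (t.2.2 = 1 ∧ t.1 < 30 ∧ 1 < (r + 30 - t.1) % 30) ∨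
      (t.2.2 = 0 ∧ t.1 < 30 ∧ (r + 30 - t.1) % 30 ≠ 2 ∧ (r + 30 - t.1) % 30 ≠ 5 ∧
        (r + 30 - t.1) % 30 ≠ 20 ∧ (r + 30 - t.1) % 30 ≠ 25)) :
    (∀ t ∈ L, t.1 ≤ 30 * p + r → t.2.1 ≤ y → t.2.2 ≤ 1 →
      ¬ R (30 * p + r - t.1) (y - t.2.1) (1 - t.2.2)) ↔
    (∀ t ∈ W, t.1 ≤ 30 * p + r → t.2.1 ≤ y → t.2.2 ≤ 1 →
      ¬ R (30 * p + r - t.1) (y - t.2.1) (1 - t.2.2)) := by
  refine ⟨fun H t ht => H t (hW t ht), fun H t ht h1 h2 h3 => ?_⟩
  rcases h t ht with h | h | h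
  · exact H t h h1 h2 h3
  · rw [h.1, Nat.sub_self, R0]; omega
  · rw [h.1, Nat.sub_zero]; apply R1_no; omega

lemma inE (p y a r : ℕ) (h : a + 25 = r + 30) (hr : r < a) :
    (a ≤ 30 * p + r → ¬ R (30 * p + r - a) y 1) ↔ ¬ (1 ≤ p ∧ e (p - 1) y) := by
  rcases p with _ | p
  · simp; omega
  · have : 30 * (p + 1) + r - a = 30 * p + 25 := by omega
    rw [this, R1_25]
    simp; omega

lemma rec1 (x y : ℕ) : Rec R x y 1 := by
  unfold Rec
  by_cases hx : x % 30 ≠ 2 ∧ x % 30 ≠ 5 ∧ x % 30 ≠ 20 ∧ x % 30 ≠ 25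
  · refine iff_of_false (R1_no hx) fun h => ?_
    have k : ∀ r ∈ List.range 30, (r ≠ 2 ∧ r ≠ 5 ∧ r ≠ 20 ∧ r ≠ 25) →
        ∃ t ∈ L, t.1 ≤ r ∧ r ≤ t.1 + 1 ∧ t.2.1 = 0 ∧ t.2.2 = 1 := by decide
    obtain ⟨⟨a, b, c⟩, h3, h1, h2, rfl, rfl⟩ := k (x % 30) (List.mem_range.2 (by omega)) hx
    simp only at h1 h2
    refine h _ h3 (by simp only; omega) (by simp) (by simp) ?_
    simp only [Nat.sub_zero, Nat.sub_self, R0]
    omega
  · obtain ⟨p, r, rfl, hr⟩ : ∃ p r, x = 30 * p + r ∧ (r = 2 ∨ r = 5 ∨ r = 20 ∨ r = 25) :=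
      ⟨x / 30, x % 30, by omega, by omega⟩
    rcases hr with rfl | rfl | rfl | rfl
    · rw [gate p y 2 (by simp) [(7, 0, 0), (7, 1, 0)] (by decide) (by decide), R1_2]
      have a1 := inE p y 7 2 rfl (by norm_num)
      have a2 := inE p (y - 1) 7 2 rfl (by norm_num)
      simp only [List.forall_mem_cons, List.not_mem_nil, Nat.sub_zero, Nat.zero_le, true_imp_iff,
        IsEmpty.forall_iff, implies_true, and_true, ea, eb]
      tauto
    · rw [gate p y 5 (by simp) [(10, 0, 0), (3, 0, 0)] (by decide) (by decide), R1_5]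
      have a1 := inE p y 10 5 rfl (by norm_num)
      have a2 : 30 * p + 5 - 3 = 30 * p + 2 := by omega
      have a3 : 3 ≤ 30 * p + 5 := by omega
      simp only [List.forall_mem_cons, List.not_mem_nil, Nat.sub_zero, Nat.zero_le, true_imp_iff,
        IsEmpty.forall_iff, implies_true, and_true, a2, R1_2, a3]
      unfold ea at *
      tauto
    · rw [gate p y 20 (by simp) [(25, 1, 0), (18, 0, 0)] (by decide) (by decide), R1_20]
      have a1 := inE p (y - 1) 25 20 rfl (by norm_num)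
      have a2 : 30 * p + 20 - 18 = 30 * p + 2 := by omega
      have a3 : 18 ≤ 30 * p + 20 := by omega
      simp only [List.forall_mem_cons, List.not_mem_nil, Nat.sub_zero, Nat.zero_le, true_imp_iff,
        IsEmpty.forall_iff, implies_true, and_true, a2, R1_2, a3]
      unfold eb at *
      tauto
    · rw [gate p y 25 (by simp) [(20, 0, 0), (5, 0, 0)] (by decide) (by decide), R1_25]
      have a1 : 30 * p + 25 - 20 = 30 * p + 5 := by omega
      have a2 : 30 * p + 25 - 5 = 30 * p + 20 := by omega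
      have a3 : 20 ≤ 30 * p + 25 := by omega
      have a4 : 5 ≤ 30 * p + 25 := by omega
      simp only [List.forall_mem_cons, List.not_mem_nil, Nat.sub_zero, Nat.zero_le, true_imp_iff,
        IsEmpty.forall_iff, implies_true, and_true, a1, a2, R1_5, R1_20, a3, a4, e_iff p y]
      tauto

lemma recR (x y z : ℕ) (hz : z ≤ 1) : Rec R x y z := by
  interval_cases z
  exacts [rec0 x y, rec1 x y]

/-! parity of binomial coefficients -/

lemma lucas (n k : ℕ) : n.choose k % 2 = ((n % 2).choose (k % 2) * (n / 2).choose (k / 2)) % 2 :=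
  haveI : Fact (Nat.Prime 2) := ⟨Nat.prime_two⟩
  Choose.choose_modEq_choose_mod_mul_choose_div_nat (p := 2)

def g (n : ℕ) : Prop := (2 * n + 1).choose n % 2 = 1

lemma cb (k : ℕ) (hk : 1 ≤ k) : (2 * k).choose k % 2 = 0 := by
  have := Nat.two_dvd_centralBinom_of_one_le hk
  rw [Nat.centralBinom_eq_two_mul_choose] at this
  omega

lemma g_odd (k : ℕ) : g (2 * k + 1) ↔ g k := by
  unfold g
  rw [lucas (2 * (2 * k + 1) + 1)]
  have h1 : (2 * (2 * k + 1) + 1) % 2 = 1 := by omega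
  have h2 : (2 * k + 1) % 2 = 1 := by omega
  have h3 : (2 * (2 * k + 1) + 1) / 2 = 2 * k + 1 := by omega
  have h4 : (2 * k + 1) / 2 = k := by omega
  rw [h1, h2, h3, h4]; simp

lemma g_even (k : ℕ) (hk : 1 ≤ k) : ¬ g (2 * k) := by
  unfold g
  rw [lucas (2 * (2 * k) + 1)]
  have h1 : (2 * (2 * k) + 1) % 2 = 1 := by omega
  have h2 : (2 * k) % 2 = 0 := by omega
  have h3 : (2 * (2 * k) + 1) / 2 = 2 * k := by omega
  have h4 : (2 * k) / 2 = k := by omega
  rw [h1, h2, h3, h4]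
  have := cb k hk
  simp; omega

lemma g_pow (k : ℕ) : g (2 ^ k - 1) := by
  induction k with
  | zero => simp [g]
  | succ k ih =>
    have : 2 ^ (k + 1) - 1 = 2 * (2 ^ k - 1) + 1 := by
      have := Nat.one_le_two_pow (n := k); rw [pow_succ]; omega
    rw [this, g_odd]; exact ih

lemma g_noAP : ∀ d : ℕ, 0 < d → ∀ a, ¬ ∀ t, g (a + t * d) := by
  intro d
  induction d using Nat.strong_induction_on with
  | _ d ih =>
    intro hd a h
    have odd : ∀ n, 1 ≤ n → g n → n % 2 = 1 := by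
      intro n hn hg
      by_contra h2
      have : n = 2 * (n / 2) := by omega
      rw [this] at hg
      exact g_even _ (by omega) hg
    have h1 := odd _ (by omega) (h 1)
    have h2 := odd _ (by omega) (h 2)
    refine ih (d / 2) (by omega) (by omega) (a / 2) fun t => ?_
    have := h t
    have e : a + t * d = 2 * (a / 2 + t * (d / 2)) + 1 := by
      have e1 : d = 2 * (d / 2) := by omega
      have e2 : t * d = 2 * (t * (d / 2)) := by
        conv_lhs => rw [e1]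
        ring
      omega
    rwa [e, g_odd] at this

/-- on the chosen line the gate reads `g` -/
lemma line (n : ℕ) (hn : 1 ≤ n) : R (30 * (2 * n + 3) + 20) n 1 ↔ g (n + 1) := by
  rw [R1_20]
  unfold ea eb e g
  have h1 := cb (n + 1) (by omega)
  have h2 : (2 * (n + 1) + 1).choose (n + 1) =
      (2 * (n + 1)).choose n + (2 * (n + 1)).choose (n + 1) := Nat.choose_succ_succ' _ _
  have h3 : 2 * n + 3 - 1 = 2 * (n + 1) := by omega
  have h4 : n - 1 + 1 = n := by omega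
  rw [h3, h4, h2]
  omega

def Pw (x : Fin 3 → ℕ) : Prop :=
  ∀ y : Fin 3 → ℕ, ∑ i, y i < ∑ i, x i → (fun i => (x i : ℤ) - (y i : ℤ)) ∈ D → ¬ Pw y
termination_by ∑ i, x i

lemma mem_D {v : Fin 3 → ℤ} : v ∈ D ↔ ∃ t ∈ L, vec t = v := by simp [D]

lemma Pw_iff (x : Fin 3 → ℕ) :
    Pw x ↔ ∀ y : Fin 3 → ℕ, (fun i => (x i : ℤ) - (y i : ℤ)) ∈ D → ¬ Pw y := by
  rw [Pw]
  refine forall_congr' fun y => ⟨fun h hy => h ?_ hy, fun h _ hy => h hy⟩
  obtain ⟨t, ht, hv⟩ := mem_D.1 hy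
  have := L_pos t ht
  have h0 : (t.1 : ℤ) = x 0 - y 0 := congrFun hv 0
  have h1 : (t.2.1 : ℤ) = x 1 - y 1 := congrFun hv 1
  have h2 : (t.2.2 : ℤ) = x 2 - y 2 := congrFun hv 2
  simp only [Fin.sum_univ_three]
  omega

lemma recP (x y z : ℕ) : Rec (fun x y z => Pw ![x, y, z]) x y z := by
  unfold Rec
  beta_reduce
  rw [Pw_iff]
  constructor
  · intro h t ht h1 h2 h3
    refine h _ (mem_D.2 ⟨t, ht, ?_⟩)
    ext i
    fin_cases i <;> simp [vec] <;> omega
  · intro h w hw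
    obtain ⟨t, ht, hv⟩ := mem_D.1 hw
    have h0 : (t.1 : ℤ) = x - w 0 := congrFun hv 0
    have h1 : (t.2.1 : ℤ) = y - w 1 := congrFun hv 1
    have h2 : (t.2.2 : ℤ) = z - w 2 := congrFun hv 2
    have := h t ht (by omega) (by omega) (by omega)
    have e : w = ![x - t.1, y - t.2.1, z - t.2.2] := by
      ext i
      fin_cases i <;> simp <;> omega
    rwa [e]

lemma Pw_line (n : ℕ) (hn : 1 ≤ n) : Pw ![30 * (2 * n + 3) + 20, n, 1] ↔ g (n + 1) :=
  (uniq _ R (fun x y z _ => recP x y z) recR _ _ _ le_rfl).trans (line n hn)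

/-- The negation of the preceding statement: For every finite set D of integer vectors with positive sums and nonnegative entries, the normal-play losing positions of the subtraction game on ℕ^d with moves x→y, x−y∈D, form a finite union of sets b+ℕp₁+…+ℕpₘ. -/
theorem result :
    ¬ (∀ (d : ℕ) (D : Finset (Fin d → ℤ)),
      (∀ a ∈ D, 0 < ∑ i, a i) →
      (∀ a ∈ D, ∀ i, 0 ≤ a i) →
      ∀ P : Set (Fin d → ℕ),
        (∀ x : Fin d → ℕ, x ∈ P ↔
          ∀ y : Fin d → ℕ, (fun i => (x i : ℤ) - (y i : ℤ)) ∈ D → y ∉ P) →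
        ∃ (k : ℕ) (b : Fin k → Fin d → ℕ) (m : Fin k → ℕ)
          (p : ∀ i : Fin k, Fin (m i) → Fin d → ℕ),
          P = {x | ∃ i : Fin k, ∃ c : Fin (m i) → ℕ, x = b i + ∑ j, c j • p i j}) := by
  intro H
  obtain ⟨k, b, m, p, hP⟩ := H 3 D (by
      intro a ha
      obtain ⟨t, ht, rfl⟩ := mem_D.1 ha
      have := L_pos t ht
      simp only [Fin.sum_univ_three, vec]
      simp; omega)
    (by
      intro a ha i
      obtain ⟨t, ht, rfl⟩ := mem_D.1 ha
      fin_cases i <;> simp [vec])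
    {x | Pw x} Pw_iff
  have mem : ∀ x, Pw x ↔ ∃ i : Fin k, ∃ c : Fin (m i) → ℕ, x = b i + ∑ j, c j • p i j :=
    fun x => Set.ext_iff.1 hP x
  let N : ℕ → ℕ := fun s => 2 ^ (s + 2) - 2
  have hN : ∀ s, 1 ≤ N s ∧ N s + 1 = 2 ^ (s + 2) - 1 := fun s => by
    have := Nat.one_le_two_pow (n := s)
    simp only [N, pow_succ]; omega
  have hin : ∀ s, Pw ![30 * (2 * N s + 3) + 20, N s, 1] := fun s =>
    (Pw_line _ (hN s).1).2 ((hN s).2 ▸ g_pow _)
  choose ι c hc using fun s => (mem _).1 (hin s)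
  obtain ⟨i, hi⟩ := Finite.exists_infinite_fiber ι
  let em : ℕ ↪ ι ⁻¹' {i} := Infinite.natEmbedding _
  have hc' : ∀ s : ℕ, ∃ c : Fin (m i) → ℕ,
      ![30 * (2 * N (em s) + 3) + 20, N (em s), 1] = b i + ∑ j, c j • p i j := by
    intro s
    have h1 : ι (em s) = i := (em s).2
    have : ∃ c : Fin (m (ι (em s))) → ℕ, ![30 * (2 * N (em s) + 3) + 20, N (em s), 1] =
      b (ι (em s)) + ∑ j, c j • p (ι (em s)) j := ⟨c (em s), hc (em s)⟩
    rwa [h1] at this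
  choose c' hc' using hc'
  obtain ⟨s, u, hsu, hle⟩ := wellQuasiOrdered_le (α := Fin (m i) → ℕ) c'
  have hne : N (em s) ≠ N (em u) := by
    intro h
    have h1 := (hN (em s)).2
    have h2 := (hN (em u)).2
    have a1 := Nat.one_le_two_pow (n := (em s : ℕ) + 2)
    have a2 := Nat.one_le_two_pow (n := (em u : ℕ) + 2)
    have : 2 ^ ((em s : ℕ) + 2) = 2 ^ ((em u : ℕ) + 2) := by omega
    have := Nat.pow_right_injective (le_refl 2) this
    exact absurd (em.injective (Subtype.ext (by omega))) hsu.ne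
  obtain ⟨δ, hδ⟩ := exists_add_of_le hle
  set w : Fin 3 → ℕ := ∑ j, δ j • p i j with hw
  have key : ∀ t : ℕ, b i + ∑ j, (c' s + t • δ) j • p i j =
      ![30 * (2 * N (em s) + 3) + 20, N (em s), 1] + t • w := by
    intro t
    rw [hc' s, hw, add_assoc, Finset.smul_sum, ← Finset.sum_add_distrib]
    congr 1
    refine Finset.sum_congr rfl fun j _ => ?_
    simp [add_smul, smul_smul, mul_assoc]
  have k1 := key 1
  rw [one_smul, one_smul, ← hδ, ← hc' u] at k1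
  have e0 : 30 * (2 * N (em u) + 3) + 20 = 30 * (2 * N (em s) + 3) + 20 + w 0 := congrFun k1 0
  have e1 : N (em u) = N (em s) + w 1 := congrFun k1 1
  have e2 : 1 = 1 + w 2 := congrFun k1 2
  refine g_noAP (w 1) (by omega) (N (em s) + 1) fun t => ?_
  have h1 := (mem _).2 ⟨i, _, (key t).symm⟩
  have e : (![30 * (2 * N (em s) + 3) + 20, N (em s), 1] + t • w : Fin 3 → ℕ) =
      ![30 * (2 * (N (em s) + t * w 1) + 3) + 20, N (em s) + t * w 1, 1] := by
    have f0 : w 0 = 60 * w 1 := by omega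
    have f2 : w 2 = 0 := by omega
    ext j
    fin_cases j
    · simp [f0]; ring
    · simp
    · simp [f2]
  rw [e, Pw_line _ (by have := (hN (em s)).1; omega)] at h1
  rwa [show N (em s) + 1 + t * w 1 = N (em s) + t * w 1 + 1 by ring]

end Pool.Agent.S08224
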