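import Pool.Statements.S08250

set_option autoImplicit false
open Pool Pool.MP_3d2668_co

namespace Pool.Agent.S08250

/-- case-analysis trees -/
inductive T where
  | p (a b c d e : Nat) : T
  | x (v : Nat) : T
  | s (j : Nat) (t0 t1 : T) : T
  | w (v cv i : Nat) (t0 t1 t2 : T) : T

/-- bit test -/
def tb (m k : Nat) : Bool := Nat.beq (Nat.land (Nat.shiftRight m k) 1) 1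

lemma tb_eq (m k : Nat) : tb m k = true ↔ m.testBit k = true := by
  unfold tb Nat.testBit
  rw [Nat.beq_eq, Nat.land_eq, Nat.shiftRight_eq, Nat.and_one_is_mod, Nat.one_and_eq_mod_two]
  simp

/-- symmetric lookup of a pair -/
def q (X i j : Nat) : Bool :=
  tb X (Nat.add (Nat.mul 16 i) j) || tb X (Nat.add (Nat.mul 16 j) i)

/-- add one bit -/
def ad (X k : Nat) : Nat := Nat.lor X (Nat.shiftLeft 1 k)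

/-- the members of class `t`, placed in row `n` -/
def row (K t n : Nat) : Nat :=
  Nat.shiftLeft (Nat.mod (Nat.shiftRight K (Nat.mul 16 t)) 65536) (Nat.mul 16 n)

/-- the checker; `n` is the index of the newest vertex -/
noncomputable def chk (t : T) : Nat → Nat → Nat → Nat → Bool :=
  T.rec (motive := fun _ => Nat → Nat → Nat → Nat → Bool)
    (fun a b c d e _ E N _ => Nat.ble (Nat.lor (Nat.lor (Nat.lor a b) (Nat.lor c d)) e) 15 &&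
      q E a b && q E b c && q E c d && q E d e &&
      q N a c && q N a d && q N a e && q N b d && q N b e && q N c e)
    (fun v n E N _ => Nat.ble v 15 && q E n v && q N n v)
    (fun j _ _ f0 f1 n E N K => Nat.ble j n &&
      f0 n E (ad N (Nat.add (Nat.mul 16 n) j)) K && f1 n (ad E (Nat.add (Nat.mul 16 n) j)) N K)
    (fun v cv i _ _ _ f0 f1 f2 n E N K => Nat.ble n 14 && Nat.ble v n && Nat.ble cv 3 &&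
      Nat.ble i 3 && !(Nat.beq cv i) && tb K (Nat.add (Nat.mul 16 cv) v) &&
      f0 (n + 1) (ad E (Nat.add (Nat.mul 16 (n + 1)) v))
        (Nat.lor (Nat.lor N (row K i (n + 1))) (row K 4 (n + 1)))
        (ad (ad K (Nat.add (Nat.mul 16 i) (n + 1))) (Nat.add (Nat.mul 16 4) (n + 1))) &&
      f1 (n + 1) (ad E (Nat.add (Nat.mul 16 (n + 1)) v))
        (Nat.lor (Nat.lor N (row K i (n + 1))) (row K 5 (n + 1)))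
        (ad (ad K (Nat.add (Nat.mul 16 i) (n + 1))) (Nat.add (Nat.mul 16 5) (n + 1))) &&
      f2 (n + 1) (ad E (Nat.add (Nat.mul 16 (n + 1)) v))
        (Nat.lor (Nat.lor N (row K i (n + 1))) (row K 6 (n + 1)))
        (ad (ad K (Nat.add (Nat.mul 16 i) (n + 1))) (Nat.add (Nat.mul 16 6) (n + 1)))) t

section sound
variable {V : Type} {A : V → V → Prop} {c : V → Fin 4} {d : V → Fin 3}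

/-- every bit of `X` records a true fact about a pair of named vertices -/
def IP (R : V → V → Prop) (f : Nat → V) (n X : Nat) : Prop :=
  ∀ k, X.testBit k = true → k / 16 ≤ n ∧ k % 16 ≤ n ∧ R (f (k / 16)) (f (k % 16))

/-- membership in one of the seven colour classes -/
def cls (c : V → Fin 4) (d : V → Fin 3) (t : Nat) (v : V) : Prop :=
  (c v).val = t ∨ (d v).val + 4 = t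

/-- every bit of `K` records a true colour -/
def IK (c : V → Fin 4) (d : V → Fin 3) (f : Nat → V) (n K : Nat) : Prop :=
  ∀ k, K.testBit k = true → k % 16 ≤ n ∧ cls c d (k / 16) (f (k % 16))

lemma q_sound {R : V → V → Prop} (hs : ∀ u v, R u v → R v u) {f : Nat → V} {n X i j : Nat}
    (h : IP R f n X) (hi : i ≤ 15) (hj : j ≤ 15) (hq : q X i j = true) : R (f i) (f j) := by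
  unfold q at hq
  rcases Bool.or_eq_true_iff.1 hq with h1 | h1
  · have := (h _ ((tb_eq _ _).1 h1)).2.2
    simp only [Nat.add_eq, Nat.mul_eq] at this
    rwa [show (16 * i + j) / 16 = i by omega, show (16 * i + j) % 16 = j by omega] at this
  · have := (h _ ((tb_eq _ _).1 h1)).2.2
    simp only [Nat.add_eq, Nat.mul_eq] at this
    rw [show (16 * j + i) / 16 = j by omega, show (16 * j + i) % 16 = i by omega] at this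
    exact hs _ _ this

lemma ad_bit {X m k : Nat} (h : (ad X m).testBit k = true) : X.testBit k = true ∨ k = m := by
  unfold ad at h
  rw [Nat.lor_eq, Nat.testBit_or, Nat.shiftLeft_eq', Nat.one_shiftLeft, Nat.testBit_two_pow] at h
  rcases Bool.or_eq_true_iff.1 h with h | h
  · exact Or.inl h
  · exact Or.inr (of_decide_eq_true h).symm

lemma IP_ad {R : V → V → Prop} {f : Nat → V} {n X j : Nat} (h : IP R f n X) (hn : n ≤ 15)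
    (hj : j ≤ n) (hr : R (f n) (f j)) : IP R f n (ad X (Nat.add (Nat.mul 16 n) j)) := by
  intro k hk
  rcases ad_bit hk with h1 | rfl
  · exact h k h1
  · simp only [Nat.add_eq, Nat.mul_eq]
    rw [show (16 * n + j) / 16 = n by omega, show (16 * n + j) % 16 = j by omega]
    exact ⟨le_rfl, hj, hr⟩

lemma IK_ad {f : Nat → V} {n K t : Nat} (h : IK c d f n K) (hn : n ≤ 15)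
    (hr : cls c d t (f n)) : IK c d f n (ad K (Nat.add (Nat.mul 16 t) n)) := by
  intro k hk
  rcases ad_bit hk with h1 | rfl
  · exact h k h1
  · simp only [Nat.add_eq, Nat.mul_eq]
    rw [show (16 * t + n) / 16 = t by omega, show (16 * t + n) % 16 = n by omega]
    exact ⟨le_rfl, hr⟩

lemma IP_up {R : V → V → Prop} {f : Nat → V} {n X : Nat} (h : IP R f n X) (w : V) :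
    IP R (Function.update f (n + 1) w) (n + 1) X := by
  intro k hk
  obtain ⟨h1, h2, h3⟩ := h k hk
  rw [Function.update_of_ne (by omega), Function.update_of_ne (by omega)]
  exact ⟨by omega, by omega, h3⟩

lemma IK_up {f : Nat → V} {n K : Nat} (h : IK c d f n K) (w : V) :
    IK c d (Function.update f (n + 1) w) (n + 1) K := by
  intro k hk
  obtain ⟨h1, h2⟩ := h k hk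
  rw [Function.update_of_ne (by omega)]
  exact ⟨by omega, h2⟩

lemma IP_row (hc : ∀ u v, A u v → c u ≠ c v) (hd : ∀ u v, A u v → d u ≠ d v)
    {f : Nat → V} {n X K t : Nat} (h : IP (fun u v => ¬ A u v) f n X) (hK : IK c d f n K)
    (hr : cls c d t (f n)) : IP (fun u v => ¬ A u v) f n (Nat.lor X (row K t n)) := by
  intro k hk
  rw [Nat.lor_eq, Nat.testBit_or, Bool.or_eq_true_iff] at hk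
  rcases hk with h1 | h1
  · exact h k h1
  change (((K >>> (16 * t)) % 2 ^ 16) <<< (16 * n)).testBit k = true at h1
  rw [Nat.testBit_shiftLeft, Nat.testBit_mod_two_pow, Nat.testBit_shiftRight] at h1
  simp only [Bool.and_eq_true, decide_eq_true_eq] at h1
  obtain ⟨h2, h3, h4⟩ := h1
  obtain ⟨h5, h6⟩ := hK _ h4
  rw [show (16 * t + (k - 16 * n)) / 16 = t by omega,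
    show (16 * t + (k - 16 * n)) % 16 = k % 16 by omega] at *
  rw [show k / 16 = n by omega]
  refine ⟨le_rfl, h5, fun ha => ?_⟩
  have b1 := (c (f n)).2
  have b2 := (c (f (k % 16))).2
  rcases hr with a | a <;> rcases h6 with b | b
  · exact hc _ _ ha (Fin.ext (by omega))
  · omega
  · omega
  · exact hd _ _ ha (Fin.ext (by omega))

lemma chk_sound (hs : ∀ u v, A u v → A v u)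
    (hc : ∀ u v, A u v → c u ≠ c v) (hd : ∀ u v, A u v → d u ≠ d v)
    (hf : ∀ v i, i ≠ c v → ∃ w, A v w ∧ c w = i)
    (hp : ∀ a b c d e, A a b → A b c → A c d → A d e → ¬ A a c → ¬ A a d → ¬ A a e → ¬ A b d →
      ¬ A b e → ¬ A c e → False) (t : T) :
    ∀ (f : Nat → V) (n E N K : Nat), n ≤ 15 → IP A f n E → IP (fun u v => ¬ A u v) f n N →
      IK c d f n K → chk t n E N K = true → False := by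
  have hs' : ∀ u v, ¬ A u v → ¬ A v u := fun u v h h' => h (hs _ _ h')
  induction t with
  | p a b c d e =>
    intro f n E N K _ hE hN _ h
    simp only [chk, Bool.and_eq_true, Nat.ble_eq, Nat.lor_eq] at h
    obtain ⟨⟨⟨⟨⟨⟨⟨⟨⟨⟨h0, h1⟩, h2⟩, h3⟩, h4⟩, h5⟩, h6⟩, h7⟩, h8⟩, h9⟩, h10⟩ := h
    have he : e ≤ 15 := Nat.right_le_or.trans h0
    have h0' := Nat.left_le_or.trans h0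
    have ha : a ≤ 15 := Nat.left_le_or.trans (Nat.left_le_or.trans h0')
    have hb : b ≤ 15 := Nat.right_le_or.trans (Nat.left_le_or.trans h0')
    have hc : c ≤ 15 := Nat.left_le_or.trans (Nat.right_le_or.trans h0')
    have hd : d ≤ 15 := Nat.right_le_or.trans (Nat.right_le_or.trans h0')
    exact hp _ _ _ _ _ (q_sound hs hE ha hb h1) (q_sound hs hE hb hc h2) (q_sound hs hE hc hd h3)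
      (q_sound hs hE hd he h4) (q_sound hs' hN ha hc h5) (q_sound hs' hN ha hd h6)
      (q_sound hs' hN ha he h7) (q_sound hs' hN hb hd h8) (q_sound hs' hN hb he h9)
      (q_sound hs' hN hc he h10)
  | x v =>
    intro f n E N K hn hE hN _ h
    simp only [chk, Bool.and_eq_true, Nat.ble_eq] at h
    exact q_sound hs' hN hn h.1.1 h.2 (q_sound hs hE hn h.1.1 h.1.2)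
  | s j t0 t1 ih0 ih1 =>
    intro f n E N K hn hE hN hK h
    change (Nat.ble j n && chk t0 n E _ K && chk t1 n _ N K) = true at h
    simp only [Bool.and_eq_true, Nat.ble_eq] at h
    by_cases ha : A (f n) (f j)
    · exact ih1 f n _ N K hn (IP_ad hE hn h.1.1 ha) hN hK h.2
    · exact ih0 f n E _ K hn hE (IP_ad hN hn h.1.1 ha) hK h.1.2
  | w v cv i t0 t1 t2 ih0 ih1 ih2 =>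
    intro f n E N K hn hE hN hK h
    change (Nat.ble n 14 && Nat.ble v n && Nat.ble cv 3 &&
      Nat.ble i 3 && !(Nat.beq cv i) && tb K (Nat.add (Nat.mul 16 cv) v) &&
      chk t0 _ _ _ _ && chk t1 _ _ _ _ && chk t2 _ _ _ _) = true at h
    simp only [Bool.and_eq_true, Nat.ble_eq, Bool.not_eq_true', tb_eq] at h
    obtain ⟨⟨⟨⟨⟨⟨⟨⟨h0, h1⟩, h2⟩, h3⟩, h4⟩, h5⟩, h6⟩, h7⟩, h8⟩ := h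
    have h4' : cv ≠ i := Nat.ne_of_beq_eq_false h4
    have h9 := (hK _ h5).2
    simp only [Nat.add_eq, Nat.mul_eq] at h9
    rw [show (16 * cv + v) / 16 = cv by omega, show (16 * cv + v) % 16 = v by omega] at h9
    have h10 : (c (f v)).val = cv := by rcases h9 with a | a <;> omega
    obtain ⟨w, hw, hw'⟩ := hf (f v) ⟨i, by omega⟩ (fun e => h4' (by rw [← h10, ← e]))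
    have g1 : Function.update f (n + 1) w (n + 1) = w := Function.update_self _ _ _
    have g2 : Function.update f (n + 1) w v = f v := Function.update_of_ne (by omega) _ _
    have gE := IP_ad (j := v) (IP_up hE w) (by omega) (by omega) (by rw [g1, g2]; exact hs _ _ hw)
    have gc : cls c d i (Function.update f (n + 1) w (n + 1)) := by
      rw [g1]; left; rw [hw']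
    have gN := IP_row hc hd (IP_up hN w) (IK_up hK w) gc
    have gK := IK_ad (IK_up hK w) (by omega) gc
    have b := (d w).2
    have gd : cls c d ((d w).val + 4) (Function.update f (n + 1) w (n + 1)) := by
      rw [g1]; right; rfl
    have e : (d w).val = 0 ∨ (d w).val = 1 ∨ (d w).val = 2 := by omega
    rcases e with e | e | e <;> rw [e] at gd
    · exact ih0 _ _ _ _ _ (by omega) gE (IP_row hc hd gN (IK_up hK w) gd)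
        (IK_ad gK (by omega) gd) h6
    · exact ih1 _ _ _ _ _ (by omega) gE (IP_row hc hd gN (IK_up hK w) gd)
        (IK_ad gK (by omega) gd) h7
    · exact ih2 _ _ _ _ _ (by omega) gE (IP_row hc hd gN (IK_up hK w) gd)
        (IK_ad gK (by omega) gd) h8

end sound

set_option maxRecDepth 100000 in
open T in
/-- the case analysis -/
def cert : T := 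
  w 1 1 2 (w 2 2 1 (p 3 1 0 2 4) (x 2) (s 0 (s 3 (p 3 1 0 2 4) (w 3 2 0 (x 3) (p 2 0 1 3 5) (s 2
  (p 0 2 4 3 5) (s 1 (w 4 1 0 (s 1 (p 0 1 3 4 6) (s 2 (p 5 2 0 1 6) (w 5 0 1 (p 0 1 3 5 7) (s 0 (p
  1 0 2 5 7) (s 3 (p 4 3 1 0 7) (s 6 (p 4 6 1 0 7) (w 4 1 3 (s 1 (p 0 1 3 4 8) (s 7 (p 4 8 1 0 7)
  (s 2 (s 5 (p 5 2 0 1 8) (w 8 3 2 (x 8) (s 0 (p 2 0 1 8 9) (s 4 (p 4 3 1 0 9) (s 5 (p 5 3 1 0 9)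
  (s 6 (p 5 9 0 1 6) (w 3 2 3 (x 3) (p 9 8 1 3 10) (s 0 (s 2 (p 0 2 4 3 10) (s 9 (p 3 10 2 0 9) (s
  1 (p 8 1 0 2 10) (s 7 (p 5 7 0 1 10) (s 6 (w 6 0 3 (x 6) (s 5 (p 5 8 1 6 11) (p 1 10 2 5 11)) (p
  5 8 4 6 11)) (p 6 10 3 5 8)))))) (p 0 10 3 4 8))))))) (s 0 (p 0 2 4 8 9) (p 3 4 2 0 9)))) (s 5
  (w 0 0 3 (x 0) (s 5 (s 3 (p 5 3 1 0 9) (p 3 9 0 2 8)) (p 5 9 0 1 8)) (s 3 (s 1 (p 4 3 1 0 9) (s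
  2 (p 3 4 2 0 9) (s 7 (p 4 3 7 0 9) (s 6 (w 5 0 3 (s 1 (p 0 1 3 5 10) (s 4 (p 4 6 1 10 5) (s 7 (p
  4 10 1 0 7) (s 2 (w 6 0 3 (x 6) (s 5 (p 5 10 1 6 11) (p 1 8 2 5 11)) (p 5 10 4 6 11)) (w 6 0 3
  (x 6) (s 5 (p 5 10 1 6 11) (p 1 8 2 5 11)) (p 5 10 4 6 11)))))) (p 1 8 2 5 10) (x 5)) (p 0 9 6 4
  3))))) (p 0 9 3 4 8))) (w 6 0 3 (x 6) (s 3 (s 5 (p 5 3 1 6 9) (s 0 (p 1 0 2 5 9) (s 4 (p 4 3 1 0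
  9) (w 3 2 3 (x 3) (p 2 8 1 3 10) (s 0 (p 0 9 4 3 10) (p 0 10 3 4 8)))))) (p 2 8 1 3 9)) (p 5 8 4
  6 9)))))) (s 0 (p 1 0 2 4 8) (s 5 (p 4 8 0 7 5) (s 6 (p 5 8 0 1 6) (s 3 (w 8 3 2 (s 1 (p 3 1 0 8
  9) (s 4 (p 4 2 0 1 9) (s 7 (p 4 9 1 0 7) (s 5 (p 5 2 0 1 9) (w 2 2 3 (p 9 8 0 2 10) (x 2) (s 1
  (s 3 (p 1 3 4 2 10) (s 9 (p 2 10 3 1 9) (s 0 (p 8 0 1 3 10) (s 6 (p 4 6 1 0 10) (s 7 (w 7 1 3 (s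
  4 (p 4 8 0 7 11) (p 0 10 3 4 11)) (x 7) (p 4 8 5 7 11)) (p 7 10 2 4 8)))))) (p 1 10 2 4 8)))))))
  (x 8) (s 1 (p 1 3 4 8 9) (p 2 4 3 1 9))) (w 7 1 3 (s 2 (s 4 (p 4 2 0 7 9) (s 1 (p 1 0 2 4 9) (s
  5 (p 5 2 0 1 9) (w 2 2 3 (p 3 8 0 2 10) (x 2) (s 1 (p 1 9 4 2 10) (p 1 10 2 4 8)))))) (p 3 8 0 2
  9)) (x 7) (p 4 8 5 7 9)))))) (x 4))))) (x 5)))) (p 1 0 2 4 6) (x 4)) (w 4 1 0 (s 1 (p 0 1 3 4 6)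
  (s 2 (w 6 0 2 (x 6) (s 0 (p 2 0 1 6 7) (s 4 (p 4 3 1 0 7) (s 5 (p 4 7 0 1 5) (w 5 0 3 (s 4 (p 6
  4 3 5 8) (s 1 (p 0 1 3 4 8) (s 2 (s 7 (w 8 3 2 (x 8) (s 0 (p 2 0 1 8 9) (s 4 (p 4 3 1 0 9) (s 5
  (p 4 9 0 1 5) (s 6 (p 6 7 0 9 8) (w 6 0 3 (x 6) (s 0 (p 2 0 1 6 10) (s 5 (p 5 2 0 10 6) (s 4 (p
  4 8 1 0 10) (s 3 (w 2 2 3 (p 6 10 0 2 11) (x 2) (s 1 (p 1 8 4 2 11) (p 1 11 2 4 10))) (p 3 10 0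
  9 8))))) (p 5 8 4 6 10)))))) (s 0 (p 0 2 4 8 9) (p 3 4 2 0 9))) (w 6 0 3 (x 6) (s 0 (p 2 0 1 6
  9) (s 5 (p 5 2 0 9 6) (s 4 (p 4 8 1 0 9) (s 3 (w 2 2 3 (p 6 9 0 2 10) (x 2) (s 1 (p 1 8 4 2 10)
  (p 1 10 2 4 9))) (p 3 9 0 7 8))))) (p 5 8 4 6 9))) (s 7 (p 6 7 0 2 8) (w 6 0 3 (x 6) (p 2 8 1 6
  9) (p 5 8 4 6 9)))))) (s 0 (s 4 (s 6 (p 4 6 1 5 8) (p 2 0 1 6 8)) (p 1 0 2 4 8)) (s 4 (s 3 (p 4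
  3 1 0 8) (s 6 (p 4 6 1 0 8) (w 8 3 1 (s 2 (p 4 2 0 8 9) (p 3 1 0 2 9)) (x 8) (s 2 (p 4 2 5 8 9)
  (s 6 (p 1 6 4 2 9) (s 3 (p 1 3 4 2 9) (s 7 (p 7 4 2 9 8) (s 0 (w 1 1 3 (s 2 (s 4 (p 4 2 0 1 10)
  (p 4 10 1 0 8)) (p 3 8 0 2 10)) (x 1) (p 9 8 5 1 10)) (w 1 1 3 (s 4 (s 2 (p 4 2 0 1 10) (p 3 8 0
  2 10)) (p 4 10 1 0 8)) (x 1) (p 9 8 5 1 10)))))))))) (s 3 (s 6 (w 8 3 2 (p 6 7 0 8 9) (x 8) (s 6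
  (p 6 7 5 8 9) (p 5 2 4 6 9))) (w 8 3 2 (s 1 (p 3 1 0 8 9) (s 4 (p 4 2 0 1 9) (s 5 (w 9 2 0 (x 9)
  (p 2 0 1 9 10) (s 2 (p 0 2 4 9 10) (s 7 (p 6 7 0 2 10) (s 1 (p 6 1 0 2 10) (s 8 (p 4 8 0 1 10)
  (s 3 (p 3 5 2 10 9) (w 2 2 3 (p 6 8 0 2 11) (x 2) (s 6 (p 6 8 5 2 11) (s 3 (p 3 5 2 11 6) (s 9
  (p 9 8 5 2 11) (s 7 (p 7 5 2 11 9) (s 0 (p 3 11 2 0 8) (s 1 (w 1 1 3 (s 2 (p 2 11 3 1 12) (p 6 8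
  0 2 12)) (x 1) (p 4 8 5 1 12)) (p 1 11 2 4 8)))))))))))))) (w 7 2 3 (p 9 8 0 7 10) (x 7) (s 1 (s
  3 (p 1 3 4 7 10) (s 0 (p 8 0 1 3 10) (s 6 (p 4 6 1 0 10) (s 9 (p 4 9 1 0 10) (s 2 (p 5 2 0 10 6)
  (w 1 1 3 (s 2 (p 2 10 3 1 11) (p 6 8 0 2 11)) (x 1) (p 4 8 5 1 11))))))) (p 4 8 5 1 10)))))) (x
  8) (s 1 (p 1 3 4 8 9) (p 2 4 3 1 9)))) (s 6 (p 3 8 0 7 6) (w 1 1 3 (s 2 (s 4 (p 4 2 0 1 9) (s 7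
  (s 5 (w 9 3 2 (x 9) (p 8 3 1 9 10) (p 5 2 4 9 10)) (w 2 2 3 (p 3 8 0 2 10) (x 2) (s 1 (p 1 9 4 2
  10) (p 1 10 2 4 8)))) (p 3 8 0 7 9))) (p 3 8 0 2 9)) (x 1) (p 4 8 5 1 9)))))) (x 5))))) (p 5 2 4
  6 7)) (w 4 1 3 (s 1 (p 0 1 3 4 7) (s 2 (s 5 (w 7 3 2 (x 7) (s 0 (p 2 0 1 7 8) (s 4 (p 4 3 1 0 8)
  (s 5 (p 4 8 0 1 5) (s 6 (p 6 2 0 8 7) (w 7 3 0 (x 7) (p 2 0 1 7 9) (s 2 (p 0 2 4 7 9) (s 3 (p 3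
  5 2 9 7) (s 8 (p 3 9 2 0 8) (s 1 (w 3 2 3 (x 3) (p 8 7 1 3 10) (s 0 (s 2 (p 0 2 4 3 10) (s 8 (p
  3 10 2 0 8) (s 1 (p 7 1 0 2 10) (s 6 (w 6 0 3 (x 6) (s 9 (p 9 7 1 6 11) (p 1 10 2 9 11)) (p 9 7
  4 6 11)) (p 6 10 3 9 7))))) (p 0 10 3 4 7))) (w 3 2 3 (x 3) (p 8 7 1 3 10) (s 0 (s 2 (p 0 2 4 3
  10) (s 8 (p 3 10 2 0 8) (s 1 (p 7 1 0 2 10) (s 6 (w 6 0 3 (x 6) (s 3 (p 3 10 2 6 11) (p 8 7 1 3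
  11)) (p 9 7 4 6 11)) (p 6 10 3 9 7))))) (p 0 10 3 4 7)))))))))))) (p 5 2 4 7 8)) (w 7 3 2 (x 7)
  (s 0 (p 2 0 1 7 8) (s 4 (p 4 3 1 0 8) (s 5 (p 4 8 0 1 5) (s 6 (p 6 2 0 8 7) (w 3 2 3 (x 3) (p 8
  7 1 3 9) (s 0 (s 2 (p 0 2 4 3 9) (s 8 (p 3 9 2 0 8) (s 1 (p 7 1 0 2 9) (s 6 (w 6 0 3 (x 6) (s 3
  (p 3 9 2 6 10) (p 8 7 1 3 10)) (p 5 7 4 6 10)) (p 6 9 3 5 7))))) (p 0 9 3 4 7))))))) (s 0 (p 0 2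
  4 7 8) (p 3 4 2 0 8)))) (s 5 (w 7 3 0 (x 7) (s 3 (p 3 5 2 7 8) (p 2 0 1 3 8)) (s 3 (p 5 3 4 7 8)
  (s 2 (p 0 2 4 3 8) (s 1 (w 6 0 3 (x 6) (s 3 (s 8 (p 8 3 1 6 9) (s 5 (p 1 5 2 8 9) (s 0 (p 1 0 2
  8 9) (s 4 (p 4 3 1 0 9) (w 3 2 3 (x 3) (p 2 7 1 3 10) (s 0 (p 0 9 4 3 10) (p 0 10 3 4 7)))))))
  (p 2 7 1 3 9)) (p 8 7 4 6 9)) (w 6 0 3 (x 6) (s 3 (s 4 (s 5 (p 3 5 2 6 9) (p 4 7 1 5 9)) (s 5 (p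
  1 5 2 4 9) (s 8 (p 1 8 2 4 9) (s 0 (p 1 0 2 4 9) (w 3 2 3 (x 3) (p 2 7 1 3 10) (s 0 (p 0 9 4 3
  10) (p 0 10 3 4 7))))))) (p 2 7 1 3 9)) (p 8 7 4 6 9)))))) (w 3 2 3 (x 3) (p 2 7 1 3 8) (s 0 (s
  2 (p 0 2 4 3 8) (s 6 (s 1 (w 8 3 0 (p 7 5 3 8 9) (p 1 0 2 8 9) (x 8)) (w 6 0 3 (x 6) (s 3 (p 3 8
  2 6 9) (p 2 7 1 3 9)) (p 5 7 4 6 9))) (p 6 8 3 5 7))) (p 0 8 3 4 7)))))) (s 0 (p 1 0 2 4 7) (s 5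
  (p 4 7 0 1 5) (s 3 (s 6 (w 7 3 2 (p 6 2 0 7 8) (x 7) (s 1 (p 1 3 4 7 8) (p 2 4 3 1 8))) (w 7 3 2
  (s 1 (p 3 1 0 7 8) (s 4 (p 4 2 0 1 8) (s 5 (w 2 2 3 (p 8 7 0 2 9) (x 2) (s 3 (s 1 (p 1 3 4 2 9)
  (p 1 9 2 4 7)) (s 0 (p 3 9 2 0 7) (s 8 (p 0 9 3 4 8) (s 6 (p 0 9 3 4 6) (s 1 (w 1 1 3 (s 4 (p 4
  7 0 1 10) (p 4 10 1 0 9)) (x 1) (p 4 7 5 1 10)) (p 1 9 2 4 7))))))) (w 2 2 3 (p 8 7 0 2 9) (x 2)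
  (s 3 (s 1 (p 1 3 4 2 9) (p 1 9 2 4 7)) (s 0 (p 3 9 2 0 7) (s 6 (p 0 9 3 4 6) (s 8 (p 0 9 3 4 8)
  (s 1 (w 1 1 3 (s 4 (p 4 7 0 1 10) (p 4 10 1 0 9)) (x 1) (p 4 7 5 1 10)) (p 1 9 2 4 7))))))))))
  (x 7) (s 1 (p 1 3 4 7 8) (p 2 4 3 1 8)))) (s 6 (p 3 7 0 2 6) (w 1 1 3 (s 2 (s 4 (p 4 2 0 1 8) (s
  5 (w 8 3 2 (x 8) (p 7 3 1 8 9) (p 5 2 4 8 9)) (w 2 2 3 (p 3 7 0 2 9) (x 2) (s 1 (p 1 8 4 2 9) (p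
  1 9 2 4 7))))) (p 3 7 0 2 8)) (x 1) (p 4 7 5 1 8)))))) (x 4)))) (p 1 0 2 4 6) (x 4)))))) (s 3 (w
  3 2 0 (x 3) (p 2 0 1 3 5) (s 1 (p 4 0 1 3 5) (s 2 (w 2 2 3 (s 1 (p 3 1 0 2 6) (s 4 (p 3 1 6 2 4)
  (s 5 (w 3 2 3 (x 3) (p 2 6 1 3 7) (s 2 (s 0 (s 1 (p 2 0 1 3 7) (w 5 0 3 (s 2 (s 4 (s 1 (p 2 0 1
  5 8) (w 7 3 0 (p 8 5 3 7 9) (p 2 0 1 7 9) (x 7))) (p 0 4 8 5 3)) (p 0 2 8 5 3)) (p 2 6 1 5 8) (x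
  5))) (p 2 0 7 3 5)) (p 4 2 7 3 5))) (p 0 2 6 5 3)))) (x 2) (s 3 (s 1 (s 0 (p 3 1 0 2 6) (w 6 3 1
  (p 3 1 0 6 7) (s 3 (s 5 (s 0 (p 3 1 0 6 7) (w 4 1 3 (s 5 (s 1 (p 3 1 0 4 8) (s 2 (p 2 4 8 1 3)
  (p 3 1 8 2 6))) (p 0 4 8 5 3)) (p 7 6 2 4 8) (x 4))) (p 1 5 7 6 2)) (p 1 3 7 6 2)) (x 6))) (p 3
  1 6 2 4)) (p 4 2 6 3 5))) (w 3 2 3 (x 3) (s 4 (s 0 (p 2 0 1 3 6) (s 5 (p 4 0 6 3 5) (w 6 3 1 (s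
  2 (s 5 (p 4 2 5 6 7) (p 4 0 1 5 7)) (p 3 1 0 2 7)) (x 6) (s 2 (p 4 2 5 6 7) (s 3 (p 1 3 6 7 2)
  (p 1 3 7 2 4)))))) (p 1 3 6 4 2)) (s 2 (p 4 2 5 3 6) (s 0 (s 1 (p 4 0 1 3 6) (w 6 3 0 (s 4 (s 1
  (p 4 0 1 6 7) (s 2 (p 4 2 5 1 7) (p 3 1 7 2 4))) (p 0 4 7 6 3)) (s 4 (p 4 0 1 6 7) (p 5 1 0 4
  7)) (x 6))) (p 4 0 6 3 5))))))) (w 3 2 0 (x 3) (p 2 0 1 3 5) (s 1 (s 2 (p 2 0 1 3 5) (w 5 0 1 (p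
  0 1 3 5 6) (s 0 (p 1 0 2 5 6) (s 3 (w 6 1 2 (s 1 (p 3 1 0 6 7) (s 4 (p 3 4 0 6 7) (s 5 (p 5 2 0
  1 7) (w 4 1 3 (s 1 (s 5 (s 6 (p 5 6 0 4 8) (p 3 1 0 6 8)) (p 0 1 3 5 8)) (s 5 (s 2 (p 5 2 0 1 8)
  (s 6 (p 5 6 0 1 8) (w 8 3 0 (x 8) (s 3 (p 5 3 1 8 9) (p 2 0 1 3 9)) (s 3 (p 5 3 4 8 9) (s 6 (p 6
  0 4 3 9) (s 2 (p 0 2 5 3 9) (s 7 (p 7 5 3 9 8) (s 1 (w 0 0 3 (x 0) (s 3 (s 5 (p 5 3 1 0 10) (p 5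
  10 0 1 8)) (p 3 10 0 2 8)) (p 9 8 4 0 10)) (w 0 0 3 (x 0) (s 5 (s 3 (p 5 3 1 0 10) (p 3 10 0 2
  8)) (p 5 10 0 1 8)) (p 9 8 4 0 10)))))))))) (s 2 (s 6 (w 8 3 2 (x 8) (p 6 7 1 8 9) (s 6 (p 6 7 4
  8 9) (p 4 2 5 6 9))) (w 8 3 2 (x 8) (s 0 (p 2 0 1 8 9) (s 5 (p 5 3 1 0 9) (s 4 (w 9 2 1 (p 3 1 0
  9 10) (x 9) (s 3 (p 1 3 5 9 10) (s 7 (p 6 7 1 3 10) (s 0 (p 6 0 1 3 10) (s 8 (p 5 8 1 0 10) (s 2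
  (p 2 4 3 10 9) (w 3 2 3 (x 3) (p 6 8 1 3 11) (s 6 (p 6 8 4 3 11) (s 2 (p 2 4 3 11 6) (s 9 (p 9 8
  4 2 11) (s 7 (p 7 4 2 11 9) (s 1 (p 2 11 3 1 8) (s 0 (w 0 0 3 (x 0) (s 3 (p 3 11 2 0 12) (p 3 12
  0 6 8)) (p 5 8 4 0 12)) (p 0 11 3 5 8)))))))))))))) (w 7 2 3 (x 7) (p 9 8 1 7 10) (s 0 (s 2 (p 0
  2 5 7 10) (s 1 (p 8 1 0 2 10) (s 6 (p 5 6 0 1 10) (s 9 (p 5 9 0 1 10) (s 3 (p 3 4 0 6 10) (w 0 0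
  3 (x 0) (s 3 (p 3 10 2 0 11) (p 3 11 0 6 8)) (p 5 8 4 0 11))))))) (p 5 8 4 0 10)))))) (s 0 (p 0
  2 5 8 9) (p 3 5 2 0 9)))) (s 6 (p 7 6 0 2 8) (w 0 0 3 (x 0) (s 3 (s 5 (p 5 3 1 0 9) (s 7 (s 4 (w
  9 3 2 (p 8 2 0 9 10) (x 9) (p 4 2 5 9 10)) (w 3 2 3 (x 3) (p 2 8 1 3 10) (s 0 (p 0 9 5 3 10) (p
  0 10 3 5 8)))) (p 7 9 0 2 8))) (p 3 9 0 2 8)) (p 5 8 4 0 9)))))) (s 5 (p 6 5 2 4 8) (s 0 (p 1 0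
  2 5 8) (s 3 (s 7 (w 8 3 2 (s 1 (p 3 1 0 8 9) (s 5 (p 5 2 0 1 9) (s 4 (p 4 0 1 9 5) (s 6 (p 7 6 0
  8 9) (w 6 1 3 (s 1 (p 3 1 0 6 10) (s 4 (p 3 4 0 6 10) (s 5 (p 5 8 0 1 10) (s 2 (w 2 2 3 (p 9 8 0
  2 11) (x 2) (s 1 (p 1 10 4 2 11) (p 1 11 2 4 8))) (p 9 8 0 2 10))))) (x 6) (p 4 8 5 6 10))))))
  (x 8) (s 1 (p 1 3 4 8 9) (p 2 4 3 1 9))) (w 6 1 3 (s 1 (p 3 1 0 6 9) (s 4 (p 3 4 0 6 9) (s 5 (p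
  5 8 0 1 9) (s 2 (w 2 2 3 (p 7 8 0 2 10) (x 2) (s 1 (p 1 9 4 2 10) (p 1 10 2 4 8))) (p 7 8 0 2
  9))))) (x 6) (p 4 8 5 6 9))) (s 7 (p 3 8 0 6 7) (w 6 1 3 (p 3 8 0 6 9) (x 6) (p 4 8 5 6 9))))))
  (x 4))))) (x 6) (p 4 2 5 6 7)) (w 5 0 3 (s 1 (p 0 1 3 5 7) (s 4 (p 4 0 1 7 5) (s 2 (s 6 (w 7 3 2
  (x 7) (p 6 3 1 7 8) (s 0 (p 0 2 5 7 8) (p 3 5 2 0 8))) (w 7 3 2 (x 7) (s 0 (p 2 0 1 7 8) (s 5 (p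
  5 3 1 0 8) (s 4 (w 3 2 3 (x 3) (p 8 7 1 3 9) (s 2 (s 0 (p 0 2 5 3 9) (p 7 5 2 0 9)) (s 1 (p 2 9
  3 1 7) (s 8 (p 1 9 2 5 8) (s 6 (p 1 9 2 5 6) (s 0 (w 0 0 3 (x 0) (s 5 (p 5 7 1 0 10) (p 5 10 0 1
  9)) (p 5 7 4 0 10)) (p 0 9 3 5 7))))))) (w 3 2 3 (x 3) (p 8 7 1 3 9) (s 2 (s 0 (p 0 2 5 3 9) (p
  7 5 2 0 9)) (s 1 (p 2 9 3 1 7) (s 6 (p 1 9 2 5 6) (s 8 (p 1 9 2 4 8) (s 0 (w 0 0 3 (x 0) (s 5 (p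
  5 7 1 0 10) (p 5 10 0 1 9)) (p 5 7 4 0 10)) (p 0 9 3 5 7)))))))))) (s 0 (p 0 2 5 7 8) (p 3 5 2 0
  8)))) (s 6 (p 3 6 0 2 7) (w 0 0 3 (x 0) (s 3 (s 5 (p 5 3 1 0 8) (s 4 (w 8 3 2 (p 7 2 0 8 9) (x
  8) (p 4 2 5 8 9)) (w 3 2 3 (x 3) (p 2 7 1 3 9) (s 0 (p 0 8 5 3 9) (p 0 9 3 5 7))))) (p 3 8 0 2
  7)) (p 5 7 4 0 8)))))) (s 0 (p 1 0 2 5 7) (s 3 (s 4 (w 7 3 2 (s 1 (p 3 1 0 7 8) (s 4 (p 3 4 0 7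
  8) (s 5 (p 5 2 0 1 8) (s 6 (p 3 6 0 7 8) (w 7 3 1 (p 3 1 0 7 9) (x 7) (s 3 (p 1 3 5 7 9) (s 2 (p
  2 4 3 9 7) (s 8 (p 2 9 3 1 8) (s 0 (w 2 2 3 (p 8 7 0 2 10) (x 2) (s 1 (s 3 (p 1 3 4 2 10) (s 8
  (p 2 10 3 1 8) (s 0 (p 7 0 1 3 10) (s 6 (w 6 1 3 (s 9 (p 9 7 0 6 11) (p 0 10 3 9 11)) (x 6) (p 9
  7 5 6 11)) (p 6 10 2 9 7))))) (p 1 10 2 5 7))) (w 2 2 3 (p 8 7 0 2 10) (x 2) (s 1 (s 3 (p 1 3 4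
  2 10) (s 8 (p 2 10 3 1 8) (s 0 (p 7 0 1 3 10) (s 6 (w 6 1 3 (s 2 (p 2 10 3 6 11) (p 8 7 0 2 11))
  (x 6) (p 9 7 5 6 11)) (p 6 10 2 9 7))))) (p 1 10 2 5 7)))))))))))) (x 7) (p 4 2 5 7 8)) (w 7 3 2
  (s 1 (p 3 1 0 7 8) (s 5 (p 5 2 0 1 8) (s 4 (p 4 0 1 8 5) (s 6 (p 3 6 0 7 8) (w 2 2 3 (p 8 7 0 2
  9) (x 2) (s 1 (s 3 (p 1 3 4 2 9) (s 8 (p 2 9 3 1 8) (s 0 (p 7 0 1 3 9) (s 6 (w 6 1 3 (s 2 (p 2 9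
  3 6 10) (p 8 7 0 2 10)) (x 6) (p 4 7 5 6 10)) (p 6 9 2 4 7))))) (p 1 9 2 4 7))))))) (x 7) (s 1
  (p 1 3 4 7 8) (p 2 4 3 1 8)))) (s 4 (w 7 3 1 (s 2 (p 2 4 3 7 8) (p 3 1 0 2 8)) (x 7) (s 2 (p 4 2
  5 7 8) (s 3 (p 1 3 4 2 8) (s 0 (w 6 1 3 (s 2 (s 8 (p 8 2 0 6 9) (s 4 (p 0 4 3 8 9) (s 1 (p 1 0 2
  8 9) (s 5 (p 5 2 0 1 9) (w 2 2 3 (p 3 7 0 2 10) (x 2) (s 1 (p 1 9 4 2 10) (p 1 10 2 5 7)))))))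
  (p 3 7 0 2 9)) (x 6) (p 8 7 5 6 9)) (w 6 1 3 (s 2 (s 5 (s 4 (p 2 4 3 6 9) (p 5 7 0 4 9)) (s 4 (p
  0 4 3 5 9) (s 8 (p 0 8 3 5 9) (s 1 (p 1 0 2 5 9) (w 2 2 3 (p 3 7 0 2 10) (x 2) (s 1 (p 1 9 4 2
  10) (p 1 10 2 5 7))))))) (p 3 7 0 2 9)) (x 6) (p 8 7 5 6 9)))))) (w 2 2 3 (p 3 7 0 2 8) (x 2) (s
  1 (s 3 (p 1 3 4 2 8) (s 6 (s 0 (w 8 3 1 (p 0 1 3 8 9) (p 7 4 2 8 9) (x 8)) (w 6 1 3 (s 2 (p 2 8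
  3 6 9) (p 3 7 0 2 9)) (x 6) (p 4 7 5 6 9))) (p 6 8 2 4 7))) (p 1 8 2 4 7)))))) (x 5)))) (x 5)))
  (s 2 (w 2 2 3 (s 5 (s 1 (p 3 1 0 2 6) (s 4 (p 4 2 6 1 5) (w 6 3 0 (x 6) (s 3 (s 4 (p 5 3 4 6 7)
  (p 5 1 0 4 7)) (p 2 0 1 3 7)) (s 3 (p 5 3 4 6 7) (s 2 (p 0 2 6 7 3) (p 0 2 7 3 5)))))) (p 0 2 6
  5 3)) (x 2) (s 3 (p 5 3 4 2 6) (s 0 (p 0 2 6 3 5) (s 1 (w 6 3 1 (s 5 (p 5 1 0 6 7) (p 4 0 1 5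
  7)) (s 5 (s 0 (p 5 1 0 6 7) (s 3 (p 5 3 4 0 7) (p 2 0 7 3 5))) (p 1 5 7 6 2)) (x 6)) (p 4 2 6 1
  5))))) (w 0 0 3 (x 0) (s 5 (s 3 (p 3 5 2 0 6) (s 4 (w 6 3 1 (s 2 (p 2 4 3 6 7) (p 3 1 0 2 7)) (x
  6) (s 2 (s 0 (p 5 1 0 6 7) (s 3 (p 3 5 2 0 7) (w 1 1 3 (s 2 (s 5 (s 7 (s 4 (p 2 4 3 1 8) (w 8 3
  0 (x 8) (p 2 0 1 8 9) (p 7 0 4 8 9))) (p 5 2 0 7 8)) (p 6 0 2 5 8)) (p 3 6 0 2 8)) (x 1) (s 2 (p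
  4 2 5 1 8) (s 3 (p 2 8 1 3 6) (s 0 (w 4 1 3 (s 2 (s 7 (s 5 (s 1 (p 5 1 0 4 9) (w 9 3 0 (x 9) (p
  2 0 1 9 10) (p 7 0 4 9 10))) (p 6 0 2 5 9)) (p 8 2 0 7 9)) (p 3 6 0 2 9)) (p 1 8 2 4 9) (x 4))
  (w 4 1 3 (s 5 (s 2 (s 7 (s 1 (p 5 1 0 4 9) (w 9 3 0 (x 9) (p 2 0 1 9 10) (p 7 0 4 9 10))) (p 5 2
  0 7 9)) (p 3 6 0 2 9)) (p 0 6 3 5 9)) (p 1 8 2 4 9) (x 4)))))))) (p 1 5 2 7 6))) (p 1 5 2 4 6)))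
  (s 3 (s 4 (w 6 3 1 (p 3 1 0 6 7) (x 6) (s 3 (p 4 3 5 6 7) (s 2 (p 2 4 3 7 6) (s 0 (w 1 1 3 (s 7
  (p 7 6 0 1 8) (s 4 (p 4 0 1 8 7) (s 5 (p 5 6 0 4 8) (s 2 (w 2 2 3 (s 1 (p 3 1 0 2 9) (s 7 (p 7 6
  0 1 9) (s 4 (p 4 0 1 9 7) (s 5 (p 5 6 0 4 9) (w 6 3 2 (p 9 2 0 6 10) (x 6) (p 4 2 5 6 10))))))
  (x 2) (s 0 (s 1 (p 8 1 0 2 9) (p 7 6 0 1 9)) (p 5 8 4 0 9))) (w 6 3 2 (p 8 2 0 6 9) (x 6) (p 4 2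
  5 6 9)))))) (x 1) (p 7 6 5 1 8)) (w 6 3 2 (s 4 (p 3 4 0 6 8) (s 1 (p 3 1 0 6 8) (s 7 (p 2 7 3 1
  8) (s 5 (w 1 1 3 (s 2 (s 4 (p 2 4 3 1 9) (s 7 (p 2 7 3 1 9) (s 5 (p 5 6 0 4 9) (w 2 2 3 (p 8 6 0
  2 10) (x 2) (s 8 (p 6 8 4 2 10) (p 8 10 2 5 9)))))) (p 8 6 0 2 9)) (x 1) (p 7 6 5 1 9)) (w 1 1 3
  (s 2 (s 4 (p 2 4 3 1 9) (s 7 (p 2 7 3 1 9) (s 5 (p 5 6 0 4 9) (w 2 2 3 (p 8 6 0 2 10) (x 2) (s 1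
  (p 1 9 4 2 10) (p 1 10 2 7 6)))))) (p 8 6 0 2 9)) (x 1) (p 7 6 5 1 9)))))) (x 6) (p 4 2 5 6
  8)))))) (w 6 3 2 (s 1 (p 3 1 0 6 7) (s 4 (p 2 4 3 1 7) (s 5 (w 2 2 3 (p 7 6 0 2 8) (x 2) (s 1 (s
  7 (p 1 7 4 2 8) (s 3 (p 1 3 4 2 8) (s 0 (p 6 0 1 3 8) (w 1 1 3 (s 2 (p 2 8 3 1 9) (p 7 6 0 2 9))
  (x 1) (p 4 6 5 1 9))))) (p 1 8 2 4 6))) (w 2 2 3 (p 7 6 0 2 8) (x 2) (s 1 (s 3 (p 1 3 4 2 8) (s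
  0 (p 6 0 1 3 8) (s 7 (p 0 8 3 5 7) (w 1 1 3 (s 2 (p 2 8 3 1 9) (p 7 6 0 2 9)) (x 1) (p 4 6 5 1
  9))))) (p 1 8 2 4 6)))))) (x 6) (s 1 (p 1 3 4 6 7) (p 2 4 3 1 7)))) (s 4 (w 6 3 1 (s 2 (p 2 4 3
  6 7) (p 3 1 0 2 7)) (x 6) (s 2 (p 4 2 5 6 7) (s 3 (p 1 3 4 2 7) (s 0 (w 1 1 3 (s 2 (s 7 (p 7 2 0
  1 8) (s 4 (p 4 0 1 8 7) (s 5 (p 5 6 0 4 8) (w 2 2 3 (p 3 6 0 2 9) (x 2) (s 1 (p 1 8 4 2 9) (p 1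
  9 2 7 6)))))) (p 3 6 0 2 8)) (x 1) (p 7 6 5 1 8)) (w 1 1 3 (s 2 (s 4 (p 2 4 3 1 8) (s 5 (p 5 6 0
  4 8) (s 7 (p 0 7 3 5 8) (w 2 2 3 (p 3 6 0 2 9) (x 2) (s 1 (p 1 8 4 2 9) (p 1 9 2 7 6)))))) (p 3
  6 0 2 8)) (x 1) (p 7 6 5 1 8)))))) (w 1 1 3 (s 2 (s 4 (p 2 4 3 1 7) (s 5 (w 7 3 2 (x 7) (p 6 3 1
  7 8) (p 5 2 4 7 8)) (w 2 2 3 (p 3 6 0 2 8) (x 2) (s 1 (p 1 7 4 2 8) (p 1 8 2 4 6))))) (p 3 6 0 2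
  7)) (x 1) (p 4 6 5 1 7))))) (s 3 (p 5 3 4 0 6) (s 1 (s 2 (w 6 3 1 (s 2 (p 2 4 3 6 7) (p 3 1 0 2
  7)) (s 5 (s 0 (p 5 1 0 6 7) (s 3 (p 3 5 2 0 7) (w 4 1 3 (s 5 (s 2 (s 7 (s 1 (p 5 1 0 4 8) (w 8 3
  0 (x 8) (p 2 0 1 8 9) (p 6 0 4 8 9))) (p 5 2 0 7 8)) (p 3 6 0 2 8)) (p 0 6 3 5 8)) (s 5 (p 1 5 2
  4 8) (s 0 (p 6 0 1 5 8) (s 3 (w 1 1 3 (s 5 (s 7 (s 2 (s 4 (p 2 4 3 1 9) (w 9 3 0 (x 9) (p 2 0 1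
  9 10) (p 6 0 4 9 10))) (p 3 6 0 2 9)) (p 5 8 0 7 9)) (p 0 6 3 5 9)) (x 1) (p 4 8 5 1 9)) (w 1 1
  3 (s 2 (s 5 (s 7 (s 4 (p 2 4 3 1 9) (w 9 3 0 (x 9) (p 2 0 1 9 10) (p 6 0 4 9 10))) (p 5 2 0 7
  9)) (p 6 0 2 5 9)) (p 3 6 0 2 9)) (x 1) (p 4 8 5 1 9))))) (x 4)))) (p 4 2 5 7 6)) (x 6)) (w 6 3
  1 (s 5 (p 5 1 0 6 7) (p 4 0 1 5 7)) (s 5 (p 1 5 2 6 7) (s 0 (p 4 0 1 5 7) (s 3 (w 4 1 3 (s 5 (s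
  7 (p 5 7 0 4 8) (s 1 (p 3 1 0 7 8) (s 2 (p 2 6 3 1 8) (w 5 0 3 (p 0 6 3 5 9) (s 4 (p 4 8 1 5 9)
  (p 7 6 2 4 9)) (x 5))))) (p 0 6 3 5 8)) (p 7 6 2 4 8) (x 4)) (w 4 1 3 (s 5 (s 1 (p 5 1 0 4 8) (s
  2 (p 2 6 3 1 8) (s 7 (p 3 7 0 2 8) (w 5 0 3 (p 0 6 3 5 9) (s 4 (p 4 8 1 5 9) (p 7 6 2 4 9)) (x
  5))))) (p 0 6 3 5 8)) (p 7 6 2 4 8) (x 4))))) (x 6))) (s 2 (p 4 2 5 1 6) (w 4 1 3 (s 5 (s 1 (p 5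
  1 0 4 7) (s 2 (w 7 3 0 (x 7) (p 2 0 1 7 8) (p 6 0 4 7 8)) (w 5 0 3 (p 0 6 3 5 8) (s 4 (p 4 7 1 5
  8) (p 1 6 2 4 8)) (x 5)))) (p 0 6 3 5 7)) (p 1 6 2 4 7) (x 4)))))))))))) (x 1) (s 0 (w 2 2 1 (s
  3 (p 3 1 0 2 4) (w 3 2 0 (s 2 (p 0 2 4 3 5) (s 1 (w 4 1 0 (x 4) (p 1 0 2 4 6) (s 1 (p 0 1 3 4 6)
  (s 2 (p 5 2 0 1 6) (w 5 0 1 (x 5) (s 0 (p 1 0 2 5 7) (s 3 (p 4 3 1 0 7) (s 6 (p 4 6 1 0 7) (w 6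
  0 3 (s 3 (p 5 3 4 6 8) (s 2 (p 0 2 4 3 8) (s 1 (s 7 (w 8 3 1 (x 8) (s 0 (p 1 0 2 8 9) (s 3 (p 4
  3 1 0 9) (s 6 (p 4 6 1 0 9) (s 5 (p 5 7 0 9 8) (w 5 0 3 (x 5) (s 0 (p 1 0 2 5 10) (s 6 (p 5 10 0
  1 6) (s 3 (p 8 3 1 0 10) (s 4 (w 1 1 3 (p 5 10 0 1 11) (x 1) (s 2 (p 2 8 3 1 11) (p 2 11 1 3
  10))) (p 4 10 0 9 8))))) (p 6 8 3 5 10)))))) (s 0 (p 0 1 3 8 9) (p 4 3 1 0 9))) (w 5 0 3 (x 5)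
  (s 0 (p 1 0 2 5 9) (s 6 (p 5 9 0 1 6) (s 3 (p 8 3 1 0 9) (s 4 (w 1 1 3 (p 5 9 0 1 10) (x 1) (s 2
  (p 2 8 3 1 10) (p 2 10 1 3 9))) (p 4 9 0 7 8))))) (p 6 8 3 5 9))) (s 7 (p 5 7 0 1 8) (w 5 0 3 (x
  5) (p 1 8 2 5 9) (p 6 8 3 5 9)))))) (s 0 (s 3 (s 5 (p 5 3 1 6 8) (p 1 0 2 5 8)) (p 2 0 1 3 8))
  (s 3 (s 4 (p 4 3 1 0 8) (s 5 (p 5 3 1 0 8) (w 8 3 2 (s 1 (p 3 1 0 8 9) (p 4 2 0 1 9)) (x 8) (s 1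
  (p 3 1 6 8 9) (s 5 (p 2 5 3 1 9) (s 4 (p 2 4 3 1 9) (s 7 (p 7 3 1 9 8) (s 0 (w 2 2 3 (s 1 (s 3
  (p 3 1 0 2 10) (p 8 0 1 3 10)) (p 4 8 0 1 10)) (x 2) (p 9 8 6 2 10)) (w 2 2 3 (s 3 (s 1 (p 3 1 0
  2 10) (p 4 8 0 1 10)) (p 3 10 2 0 8)) (x 2) (p 9 8 6 2 10)))))))))) (s 4 (s 5 (w 8 3 1 (p 5 7 0
  8 9) (x 8) (s 5 (p 5 7 6 8 9) (p 6 1 3 5 9))) (w 8 3 1 (s 2 (p 4 2 0 8 9) (s 3 (p 3 1 0 2 9) (s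
  6 (w 9 1 0 (x 9) (p 1 0 2 9 10) (s 1 (p 0 1 3 9 10) (s 7 (p 5 7 0 1 10) (s 2 (p 5 2 0 1 10) (s 8
  (p 5 8 0 1 10) (s 4 (p 4 6 1 10 9) (w 1 1 3 (p 5 8 0 1 11) (x 1) (s 5 (p 5 8 6 1 11) (s 4 (p 4 6
  1 11 5) (s 9 (p 1 11 5 8 9) (s 7 (p 7 6 1 11 9) (s 0 (p 4 11 1 0 8) (s 2 (w 2 2 3 (s 1 (p 1 11 4
  2 12) (p 5 8 0 1 12)) (x 2) (p 3 8 6 2 12)) (p 2 11 1 3 8)))))))))))))) (w 7 1 3 (p 9 8 0 7 10)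
  (x 7) (s 2 (s 4 (p 2 4 3 7 10) (s 0 (p 8 0 2 4 10) (s 5 (p 3 5 2 0 10) (s 9 (p 3 9 2 0 10) (s 1
  (p 5 10 0 1 6) (w 2 2 3 (s 1 (p 1 10 4 2 11) (p 5 8 0 1 11)) (x 2) (p 3 8 6 2 11))))))) (p 3 8 6
  2 10)))))) (x 8) (s 2 (p 2 4 3 8 9) (p 1 3 4 2 9)))) (s 5 (p 4 8 0 7 5) (w 2 2 3 (s 1 (s 3 (p 3
  1 0 2 9) (s 7 (s 6 (w 9 3 1 (x 9) (p 8 4 2 9 10) (p 6 1 3 9 10)) (w 1 1 3 (p 4 8 0 1 10) (x 1)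
  (s 2 (p 2 9 3 1 10) (p 2 10 1 3 8)))) (p 4 8 0 7 9))) (p 4 8 0 1 9)) (x 2) (p 3 8 6 2 9)))))) (x
  6))))) (p 6 1 3 5 7))))) (w 4 1 0 (x 4) (p 1 0 2 4 6) (s 1 (p 0 1 3 4 6) (s 2 (w 6 0 2 (p 0 2 4
  6 7) (s 0 (p 2 0 1 6 7) (s 4 (p 4 3 1 0 7) (s 5 (p 4 7 0 1 5) (w 3 2 3 (s 2 (p 0 2 4 3 8) (s 7
  (p 3 8 2 0 7) (s 1 (s 6 (p 6 1 0 2 8) (w 8 3 1 (x 8) (s 0 (p 1 0 2 8 9) (s 3 (p 4 3 1 0 9) (s 6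
  (p 4 6 1 0 9) (s 5 (p 5 1 0 9 8) (w 4 1 3 (x 4) (p 9 8 2 4 10) (s 0 (s 1 (p 0 1 3 4 10) (s 9 (p
  4 10 1 0 9) (s 2 (p 8 2 0 1 10) (s 7 (p 8 7 0 1 10) (s 5 (w 5 0 3 (x 5) (s 6 (p 8 6 1 5 11) (p 2
  10 1 6 11)) (p 6 8 3 5 11)) (p 6 8 3 5 10)))))) (p 0 10 4 3 8))))))) (s 0 (p 0 1 3 8 9) (p 4 3 1
  0 9)))) (s 6 (w 0 0 3 (x 0) (s 6 (s 4 (p 4 6 1 0 9) (p 4 9 0 1 8)) (p 6 9 0 2 8)) (s 4 (s 2 (p 3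
  4 2 0 9) (s 1 (p 4 3 1 0 9) (s 7 (p 3 4 7 0 9) (s 5 (w 6 0 3 (s 2 (p 0 2 4 6 10) (s 3 (p 3 5 2
  10 6) (s 7 (p 3 10 2 0 7) (s 1 (w 5 0 3 (x 5) (s 6 (p 10 6 1 5 11) (p 2 8 1 6 11)) (p 6 10 3 5
  11)) (w 5 0 3 (x 5) (s 6 (p 6 10 2 5 11) (p 2 8 1 6 11)) (p 6 10 3 5 11)))))) (p 2 8 1 6 10) (x
  6)) (p 0 9 5 3 4))))) (p 0 9 4 3 8))) (w 5 0 3 (x 5) (s 4 (s 6 (p 4 6 1 5 9) (s 0 (p 2 0 1 6 9)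
  (s 3 (p 4 3 1 0 9) (w 4 1 3 (x 4) (p 1 8 2 4 10) (s 0 (p 0 9 3 4 10) (p 0 10 4 3 8)))))) (p 1 8
  2 4 9)) (p 6 8 3 5 9)))))) (s 0 (p 2 0 1 3 8) (s 6 (p 3 8 0 7 6) (s 5 (p 5 2 0 8 6) (s 4 (w 8 3
  1 (s 2 (p 4 2 0 8 9) (s 3 (p 3 1 0 2 9) (s 7 (p 7 0 1 3 9) (s 6 (p 6 1 0 2 9) (w 1 1 3 (p 9 8 0
  1 10) (x 1) (s 2 (s 4 (p 2 4 3 1 10) (s 9 (p 2 9 3 1 10) (s 0 (p 4 10 1 0 8) (s 5 (p 3 5 2 0 10)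
  (s 7 (w 7 2 3 (s 3 (p 3 8 0 7 11) (p 0 10 4 3 11)) (x 7) (p 3 8 6 7 11)) (p 7 10 1 3 8)))))) (p
  2 10 1 3 8))))))) (x 8) (s 2 (p 2 4 3 8 9) (p 1 3 4 2 9))) (w 7 2 3 (s 1 (s 3 (p 3 1 0 7 9) (s 2
  (p 2 0 1 3 9) (s 6 (p 6 1 0 2 9) (w 1 1 3 (p 4 8 0 1 10) (x 1) (s 2 (p 2 9 3 1 10) (p 2 10 1 3
  8)))))) (p 4 8 0 1 9)) (x 7) (p 3 8 6 7 9)))))) (x 3))))) (x 6)) (w 3 2 3 (s 2 (p 0 2 4 3 7) (s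
  1 (s 6 (w 7 3 1 (x 7) (s 0 (p 1 0 2 7 8) (s 3 (p 4 3 1 0 8) (s 6 (p 4 6 1 0 8) (s 5 (p 5 1 0 8
  7) (w 7 3 0 (x 7) (p 1 0 2 7 9) (s 1 (p 0 1 3 7 9) (s 4 (p 4 6 1 9 7) (s 8 (p 4 9 1 0 8) (s 2 (w
  4 1 3 (x 4) (p 8 7 2 4 10) (s 0 (s 1 (p 0 1 3 4 10) (s 8 (p 4 10 1 0 8) (s 2 (p 7 2 0 1 10) (s 5
  (w 5 0 3 (x 5) (s 9 (p 7 9 1 5 11) (p 2 10 1 9 11)) (p 9 7 3 5 11)) (p 9 7 3 5 10))))) (p 0 10 4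
  3 7))) (w 4 1 3 (x 4) (p 8 7 2 4 10) (s 0 (s 1 (p 0 1 3 4 10) (s 8 (p 4 10 1 0 8) (s 2 (p 7 2 0
  1 10) (s 5 (w 5 0 3 (x 5) (s 4 (p 4 10 1 5 11) (p 8 7 2 4 11)) (p 9 7 3 5 11)) (p 9 7 3 5
  10))))) (p 0 10 4 3 7)))))))))))) (p 6 1 3 7 8)) (w 7 3 1 (x 7) (s 0 (p 1 0 2 7 8) (s 3 (p 4 3 1
  0 8) (s 6 (p 4 6 1 0 8) (s 5 (p 5 1 0 8 7) (w 4 1 3 (x 4) (p 8 7 2 4 9) (s 0 (s 1 (p 0 1 3 4 9)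
  (s 8 (p 4 9 1 0 8) (s 2 (p 7 2 0 1 9) (s 5 (w 5 0 3 (x 5) (s 4 (p 4 9 1 5 10) (p 8 7 2 4 10)) (p
  6 7 3 5 10)) (p 6 7 3 5 9))))) (p 0 9 4 3 7))))))) (s 0 (p 0 1 3 7 8) (p 4 3 1 0 8)))) (s 6 (w 7
  3 0 (x 7) (s 4 (p 4 6 1 7 8) (p 1 0 2 4 8)) (s 4 (p 6 4 3 7 8) (s 1 (p 0 1 3 4 8) (s 2 (w 5 0 3
  (x 5) (s 4 (s 8 (p 4 8 1 5 9) (s 6 (p 2 6 1 8 9) (s 0 (p 2 0 1 8 9) (s 3 (p 4 3 1 0 9) (w 4 1 3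
  (x 4) (p 1 7 2 4 10) (s 0 (p 0 9 3 4 10) (p 0 10 4 3 7))))))) (p 1 7 2 4 9)) (p 8 7 3 5 9)) (w 5
  0 3 (x 5) (s 4 (s 3 (s 6 (p 4 6 1 5 9) (p 3 7 2 6 9)) (s 6 (p 2 6 1 3 9) (s 8 (p 2 8 1 3 9) (s 0
  (p 2 0 1 3 9) (w 4 1 3 (x 4) (p 1 7 2 4 10) (s 0 (p 0 9 3 4 10) (p 0 10 4 3 7))))))) (p 1 7 2 4
  9)) (p 8 7 3 5 9)))))) (w 4 1 3 (x 4) (p 1 7 2 4 8) (s 0 (s 1 (p 0 1 3 4 8) (s 5 (s 2 (w 8 3 0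
  (p 7 6 4 8 9) (p 2 0 1 8 9) (x 8)) (w 5 0 3 (x 5) (s 4 (p 4 8 1 5 9) (p 1 7 2 4 9)) (p 6 7 3 5
  9))) (p 6 7 3 5 8))) (p 0 8 4 3 7)))))) (s 0 (p 2 0 1 3 7) (s 6 (p 3 7 0 2 6) (s 4 (s 5 (w 7 3 1
  (p 5 1 0 7 8) (x 7) (s 2 (p 2 4 3 7 8) (p 1 3 4 2 8))) (w 7 3 1 (s 2 (p 4 2 0 7 8) (s 3 (p 3 1 0
  2 8) (s 6 (w 1 1 3 (p 8 7 0 1 9) (x 1) (s 4 (s 2 (p 2 4 3 1 9) (p 2 9 1 3 7)) (s 0 (p 4 9 1 0 7)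
  (s 8 (p 0 9 4 3 8) (s 5 (p 0 9 4 3 5) (s 2 (w 2 2 3 (s 3 (p 3 7 0 2 10) (p 3 10 2 0 9)) (x 2) (p
  3 7 6 2 10)) (p 2 9 1 3 7))))))) (w 1 1 3 (p 8 7 0 1 9) (x 1) (s 4 (s 2 (p 2 4 3 1 9) (p 2 9 1 3
  7)) (s 0 (p 4 9 1 0 7) (s 5 (p 0 9 4 3 5) (s 8 (p 0 9 4 3 8) (s 2 (w 2 2 3 (s 3 (p 3 7 0 2 10)
  (p 3 10 2 0 9)) (x 2) (p 3 7 6 2 10)) (p 2 9 1 3 7)))))))))) (x 7) (s 2 (p 2 4 3 7 8) (p 1 3 4 2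
  8)))) (s 5 (p 4 7 0 1 5) (w 2 2 3 (s 1 (s 3 (p 3 1 0 2 8) (s 6 (w 8 3 1 (x 8) (p 7 4 2 8 9) (p 6
  1 3 8 9)) (w 1 1 3 (p 4 7 0 1 9) (x 1) (s 2 (p 2 8 3 1 9) (p 2 9 1 3 7))))) (p 4 7 0 1 8)) (x 2)
  (p 3 7 6 2 8)))))) (x 3))))))) (p 2 0 1 3 5) (x 3))) (x 2) (s 0 (p 3 1 0 2 4) (w 3 2 0 (s 1 (s 2
  (p 2 0 1 3 5) (s 4 (p 4 0 1 3 5) (w 1 1 3 (s 2 (p 5 2 0 1 6) (s 4 (p 5 4 0 1 6) (s 3 (w 6 3 0 (x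
  6) (s 3 (p 5 3 1 6 7) (p 2 0 1 3 7)) (p 3 5 4 6 7)) (w 0 0 3 (x 0) (s 5 (s 3 (p 5 3 1 0 7) (s 4
  (w 5 0 3 (x 5) (p 1 6 2 5 8) (s 0 (p 0 7 3 5 8) (p 3 6 4 0 8))) (p 1 3 7 4 2))) (p 5 7 0 1 6))
  (p 3 6 4 0 7))))) (x 1) (s 5 (p 4 5 3 1 6) (s 2 (s 0 (w 6 3 2 (p 0 2 5 6 7) (s 0 (p 2 0 1 6 7)
  (s 5 (p 5 3 1 0 7) (s 4 (w 7 2 1 (s 3 (p 3 1 0 7 8) (p 4 0 1 3 8)) (x 7) (p 3 1 6 7 8)) (p 1 6 7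
  4 2)))) (x 6)) (w 3 2 3 (p 0 6 5 3 7) (s 4 (s 0 (p 2 0 1 3 7) (s 5 (w 7 3 1 (p 5 4 0 7 8) (x 7)
  (p 6 1 3 7 8)) (w 6 3 2 (s 1 (s 4 (s 7 (p 3 7 0 6 8) (w 8 2 0 (x 8) (p 1 0 7 8 9) (p 4 0 6 8
  9))) (p 3 1 0 4 8)) (p 5 2 0 1 8)) (p 7 3 1 6 8) (x 6)))) (p 1 3 7 4 2)) (x 3))) (p 3 1 6 2
  4)))))) (s 2 (s 4 (w 2 2 3 (s 1 (p 5 1 0 2 6) (s 3 (s 4 (p 3 1 6 2 4) (w 3 2 3 (s 2 (s 4 (s 1 (p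
  2 0 1 3 7) (w 5 0 3 (x 5) (p 2 6 1 5 8) (s 2 (s 0 (s 1 (p 2 0 1 5 8) (w 7 3 0 (x 7) (p 2 0 1 7
  9) (p 8 5 3 7 9))) (p 2 0 8 5 3)) (p 3 5 8 2 4)))) (p 0 4 7 3 5)) (p 0 2 7 3 5)) (p 2 6 1 3 7)
  (x 3))) (p 0 2 6 3 5))) (x 2) (s 5 (s 1 (s 0 (p 3 1 0 2 6) (w 6 3 1 (p 5 1 0 6 7) (s 3 (s 5 (s 0
  (p 3 1 0 6 7) (w 7 1 2 (s 1 (p 3 1 0 7 8) (s 6 (p 1 8 7 6 2) (p 2 6 8 1 3))) (x 7) (p 4 2 6 7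
  8))) (p 1 5 7 6 2)) (p 1 3 7 6 2)) (x 6))) (p 3 1 6 2 4)) (p 3 5 6 2 4))) (w 2 2 3 (s 3 (s 1 (p
  3 1 0 2 6) (s 4 (p 3 1 6 2 4) (w 6 3 0 (x 6) (s 3 (s 4 (p 3 5 4 6 7) (p 3 1 0 4 7)) (p 2 0 1 3
  7)) (p 3 5 4 6 7)))) (p 0 2 6 3 5)) (x 2) (s 5 (p 3 5 4 2 6) (s 0 (p 0 2 6 5 3) (s 1 (w 6 3 1 (s
  3 (p 3 1 0 6 7) (p 4 0 1 3 7)) (s 3 (s 0 (p 3 1 0 6 7) (s 5 (p 3 5 4 0 7) (p 2 0 7 5 3))) (p 1 3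
  7 6 2)) (x 6)) (p 3 1 6 2 4)))))) (s 4 (w 3 2 3 (s 4 (s 2 (p 0 2 5 3 6) (s 1 (p 4 0 1 3 6) (w 6
  3 0 (x 6) (s 4 (p 4 0 1 6 7) (p 5 1 0 4 7)) (s 1 (p 4 0 1 6 7) (s 2 (p 4 2 5 1 7) (p 3 1 7 2
  4)))))) (p 0 4 6 3 5)) (s 4 (s 0 (p 2 0 1 3 6) (s 5 (p 4 0 6 3 5) (w 6 3 1 (s 2 (p 4 2 5 6 7) (s
  3 (p 3 1 0 2 7) (p 4 0 1 3 7))) (x 6) (s 2 (s 5 (p 4 2 5 6 7) (s 0 (p 4 0 1 5 7) (p 3 5 7 0 4)))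
  (p 1 3 6 7 2))))) (p 1 3 6 4 2)) (x 3)) (w 3 2 3 (s 2 (p 0 2 5 3 6) (s 4 (p 0 4 5 3 6) (s 1 (w 6
  3 0 (x 6) (p 1 0 2 6 7) (s 1 (p 0 1 3 6 7) (s 2 (w 0 0 3 (x 0) (s 7 (p 6 7 1 0 8) (s 3 (p 6 3 1
  0 8) (s 5 (p 5 2 0 8 7) (s 4 (w 1 1 3 (s 2 (p 6 2 0 1 9) (s 7 (p 7 8 0 2 9) (s 4 (p 6 4 0 1 9)
  (s 3 (p 3 8 0 2 9) (w 7 0 2 (p 0 2 6 7 10) (s 0 (p 2 0 1 7 10) (s 5 (p 3 5 2 0 10) (s 6 (p 6 3 1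
  0 10) (s 9 (p 6 10 0 1 9) (s 4 (w 10 2 1 (s 8 (s 3 (p 3 1 0 10 11) (p 4 0 1 3 11)) (p 9 1 0 8
  11)) (x 10) (p 3 1 7 10 11)) (p 1 7 10 4 2)))))) (x 7)))))) (x 1) (p 4 6 3 1 9)) (p 1 3 8 4
  2))))) (p 3 6 4 0 8)) (p 3 1 7 2 4)))) (w 0 0 3 (x 0) (s 3 (p 3 6 2 0 7) (s 4 (s 5 (w 6 3 0 (x
  6) (p 7 0 1 6 8) (s 7 (p 0 7 3 6 8) (p 5 4 0 7 8))) (w 6 3 0 (x 6) (p 7 0 1 6 8) (s 7 (p 0 7 3 6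
  8) (s 2 (s 1 (w 8 0 2 (p 0 2 6 8 9) (p 1 3 7 8 9) (x 8)) (w 8 0 2 (p 0 2 6 8 9) (s 4 (s 0 (p 2 0
  1 8 9) (s 5 (p 3 5 2 0 9) (s 6 (p 3 6 2 0 9) (w 9 2 1 (s 7 (s 3 (p 3 1 0 9 10) (p 4 0 1 3 10))
  (p 6 1 0 7 10)) (x 9) (p 3 1 8 9 10))))) (p 1 8 9 4 2)) (x 8))) (p 3 7 8 2 4))))) (p 1 3 7 4
  2))) (p 3 6 4 0 7))))) (s 0 (p 2 0 1 3 6) (s 4 (s 5 (w 6 3 1 (p 5 1 0 6 7) (x 6) (s 2 (s 5 (p 2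
  5 3 6 7) (s 0 (w 7 1 2 (p 0 2 5 7 8) (p 1 3 6 7 8) (x 7)) (w 7 1 2 (s 6 (s 4 (s 1 (p 3 1 0 7 8)
  (w 8 2 0 (x 8) (p 2 0 1 8 9) (p 4 0 7 8 9))) (p 3 6 0 4 8)) (p 5 2 0 6 8)) (p 1 3 6 7 8) (x
  7)))) (p 1 3 6 7 2))) (w 2 2 3 (s 3 (p 3 6 0 2 7) (s 4 (p 0 4 5 3 7) (s 1 (w 1 1 3 (s 2 (p 7 2 0
  1 8) (s 3 (p 3 6 0 2 8) (s 4 (p 7 4 0 1 8) (w 7 3 0 (x 7) (p 1 0 2 7 9) (s 6 (p 0 6 3 7 9) (s 1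
  (p 0 1 3 7 9) (s 8 (p 8 4 0 6 9) (s 2 (w 6 3 1 (p 8 1 0 6 10) (x 6) (s 7 (p 4 7 3 6 10) (s 8 (p
  1 8 4 7 10) (s 0 (p 0 1 3 7 10) (s 5 (p 5 1 0 10 7) (s 2 (w 10 1 2 (s 9 (s 1 (p 3 1 0 10 11) (p
  7 2 0 1 11)) (p 0 2 7 9 11)) (p 1 3 6 10 11) (x 10)) (p 1 3 6 10 2))))))) (p 3 1 9 2 4)))))))))
  (x 1) (p 4 7 3 1 8)) (w 7 3 0 (x 7) (p 6 0 1 7 8) (s 6 (p 0 6 3 7 8) (s 2 (s 1 (w 8 0 2 (p 0 2 7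
  8 9) (p 1 3 6 8 9) (x 8)) (w 8 0 2 (p 0 2 7 8 9) (s 4 (s 0 (p 2 0 1 8 9) (s 5 (p 3 5 2 0 9) (s 7
  (p 3 7 2 0 9) (w 9 2 1 (s 6 (s 3 (p 3 1 0 9 10) (p 4 0 1 3 10)) (p 7 1 0 6 10)) (x 9) (p 3 1 8 9
  10))))) (p 1 8 9 4 2)) (x 8))) (p 3 6 8 2 4))))))) (x 2) (s 1 (s 0 (p 3 1 0 2 7) (s 5 (p 3 5 4 0
  7) (w 4 1 3 (s 3 (p 3 6 0 4 8) (p 3 8 4 0 7)) (s 3 (s 0 (p 3 1 0 4 8) (s 5 (p 3 5 2 0 8) (w 7 3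
  1 (s 3 (p 3 1 0 7 9) (p 4 0 1 3 9)) (p 8 4 2 7 9) (x 7)))) (p 1 3 8 4 2)) (x 4)))) (p 3 1 7 2
  4)))) (p 1 3 6 4 2))) (x 3))))) (p 2 0 1 3 5) (x 3)))) (w 2 2 1 (s 3 (w 4 1 0 (x 4) (p 1 0 2 4
  5) (s 2 (p 3 0 2 4 5) (s 1 (w 1 1 3 (s 2 (p 4 2 0 1 6) (s 3 (p 3 1 6 2 4) (s 5 (w 4 1 3 (x 4) (p
  1 6 2 4 7) (s 1 (s 0 (s 2 (p 1 0 2 4 7) (w 5 0 3 (s 1 (s 3 (s 2 (p 1 0 2 5 8) (w 7 3 0 (p 8 5 4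
  7 9) (p 1 0 2 7 9) (x 7))) (p 0 3 8 5 4)) (p 0 1 8 5 4)) (p 1 6 2 5 8) (x 5))) (p 1 0 7 4 5)) (p
  3 1 7 4 5))) (p 0 1 6 5 4)))) (x 1) (s 4 (s 2 (s 0 (p 4 2 0 1 6) (w 6 3 2 (p 4 2 0 6 7) (s 4 (s
  5 (s 0 (p 4 2 0 6 7) (w 3 2 3 (s 5 (s 2 (p 4 2 0 3 8) (s 1 (p 1 3 8 2 4) (p 4 2 8 1 6))) (p 0 3
  8 5 4)) (p 7 6 1 3 8) (x 3))) (p 1 6 7 5 2)) (p 1 6 7 4 2)) (x 6))) (p 3 1 6 2 4)) (p 3 1 6 4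
  5))) (w 3 2 3 (s 2 (p 4 2 0 3 6) (s 1 (p 1 3 6 2 4) (s 5 (w 6 3 0 (x 6) (s 4 (p 4 5 1 6 7) (p 1
  0 2 4 7)) (s 4 (s 1 (p 4 5 1 6 7) (s 2 (p 4 2 0 1 7) (p 3 1 7 2 4))) (p 0 3 6 7 4))) (p 0 3 6 5
  4)))) (s 4 (s 5 (p 2 5 1 3 6) (s 0 (p 4 2 0 3 6) (w 6 3 1 (s 2 (p 4 2 0 6 7) (s 3 (p 1 3 6 7 2)
  (p 1 3 7 2 4))) (x 6) (s 2 (s 0 (p 4 2 0 6 7) (p 4 5 1 0 7)) (p 3 1 5 2 7))))) (p 1 3 6 4 2)) (x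
  3))))) (w 4 1 0 (x 4) (p 1 0 2 4 5) (s 1 (s 2 (p 1 0 2 4 5) (w 1 1 3 (s 5 (s 2 (p 4 2 0 1 6) (s
  3 (p 3 1 6 2 5) (w 6 3 0 (x 6) (s 4 (s 3 (p 5 4 3 6 7) (p 5 2 0 3 7)) (p 1 0 2 4 7)) (s 4 (p 5 4
  3 6 7) (s 1 (p 0 1 6 7 4) (p 0 1 7 4 5)))))) (p 0 1 6 5 4)) (x 1) (s 4 (p 5 4 3 1 6) (s 0 (p 0 1
  6 4 5) (s 2 (w 6 3 2 (s 5 (p 5 2 0 6 7) (p 3 0 2 5 7)) (s 5 (s 0 (p 5 2 0 6 7) (s 4 (p 5 4 3 0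
  7) (p 1 0 7 4 5))) (p 1 6 7 5 2)) (x 6)) (p 3 1 6 2 5)))))) (s 2 (w 5 0 2 (p 0 2 4 5 6) (s 0 (p
  2 0 1 5 6) (s 4 (w 6 2 1 (s 2 (p 4 2 0 6 7) (s 3 (p 4 3 0 6 7) (s 5 (p 5 1 0 2 7) (w 3 2 3 (s 2
  (s 5 (s 6 (p 5 6 0 3 8) (p 4 2 0 6 8)) (p 2 0 3 8 5)) (s 5 (s 1 (p 5 1 0 2 8) (s 6 (p 7 6 0 1 8)
  (w 8 3 0 (x 8) (s 4 (p 4 5 1 8 9) (p 1 0 2 4 9)) (s 4 (p 5 4 3 8 9) (s 6 (p 6 0 3 4 9) (s 1 (p 0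
  1 5 4 9) (s 7 (p 5 7 3 8 9) (s 2 (w 0 0 3 (x 0) (s 4 (s 5 (p 4 5 1 0 10) (p 5 10 0 2 8)) (p 4 10
  0 1 8)) (p 9 8 3 0 10)) (w 0 0 3 (x 0) (s 5 (s 4 (p 4 5 1 0 10) (p 4 10 0 1 8)) (p 5 10 0 2 8))
  (p 9 8 3 0 10)))))))))) (s 1 (s 6 (w 8 3 1 (x 8) (p 6 7 2 8 9) (s 6 (p 6 7 3 8 9) (p 3 1 5 6
  9))) (w 8 3 1 (x 8) (s 0 (p 1 0 2 8 9) (s 5 (p 4 5 1 0 9) (s 3 (w 9 1 2 (p 4 2 0 9 10) (x 9) (s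
  4 (p 2 4 5 9 10) (s 7 (p 6 7 2 4 10) (s 0 (p 6 0 2 4 10) (s 8 (p 5 8 2 0 10) (s 1 (p 1 3 4 10 9)
  (w 4 1 3 (x 4) (p 6 8 2 4 11) (s 6 (p 6 8 3 4 11) (s 1 (p 1 3 4 11 6) (s 9 (p 9 8 3 1 11) (s 7
  (p 7 3 1 11 9) (s 2 (p 2 8 3 1 11) (s 0 (w 0 0 3 (x 0) (s 4 (p 4 11 1 0 12) (p 4 12 0 6 8)) (p 5
  8 3 0 12)) (p 5 8 3 0 11)))))))))))))) (w 7 1 3 (x 7) (p 9 8 2 7 10) (s 0 (s 1 (p 0 1 5 7 10) (s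
  2 (p 8 2 0 1 10) (s 6 (p 8 6 0 1 10) (s 9 (p 7 10 1 0 9) (s 4 (p 4 3 0 6 10) (w 0 0 3 (x 0) (s 4
  (p 4 10 1 0 11) (p 4 11 0 6 8)) (p 5 8 3 0 11))))))) (p 5 8 3 0 10)))))) (s 0 (p 0 1 5 8 9) (p 4
  5 1 0 9)))) (s 6 (p 7 6 0 1 8) (w 0 0 3 (x 0) (s 4 (s 5 (p 4 5 1 0 9) (s 7 (s 3 (w 9 3 1 (p 8 1
  0 9 10) (x 9) (p 3 1 5 9 10)) (w 4 1 3 (x 4) (p 1 8 2 4 10) (s 0 (p 0 9 5 4 10) (p 5 8 3 0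
  10)))) (p 7 9 0 1 8))) (p 4 9 0 1 8)) (p 5 8 3 0 9)))))) (s 5 (p 6 5 1 3 8) (s 0 (p 2 0 1 5 8)
  (s 4 (s 7 (w 8 3 1 (s 2 (p 4 2 0 8 9) (s 5 (p 5 1 0 2 9) (s 3 (p 3 0 2 9 5) (s 6 (p 7 6 0 8 9)
  (w 6 2 3 (s 2 (p 4 2 0 6 10) (s 3 (p 4 3 0 6 10) (s 5 (p 5 8 0 2 10) (s 1 (w 1 1 3 (p 9 8 0 1
  11) (x 1) (s 2 (p 2 10 3 1 11) (p 2 11 1 3 8))) (p 9 8 0 1 10))))) (x 6) (p 3 8 5 6 10)))))) (x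
  8) (s 2 (p 2 4 3 8 9) (p 1 3 4 2 9))) (w 6 2 3 (s 2 (p 4 2 0 6 9) (s 3 (p 4 3 0 6 9) (s 5 (p 5 8
  0 2 9) (s 1 (w 1 1 3 (p 7 8 0 1 10) (x 1) (s 2 (p 2 9 3 1 10) (p 2 10 1 3 8))) (p 7 8 0 1 9)))))
  (x 6) (p 3 8 5 6 9))) (s 7 (p 4 8 0 6 7) (w 6 2 3 (p 4 8 0 6 9) (x 6) (p 3 8 5 6 9)))))) (x
  3))))) (x 6) (p 3 1 5 6 7)) (w 5 0 3 (s 2 (p 0 2 4 5 7) (s 3 (p 3 0 2 7 5) (s 1 (s 6 (w 7 3 1 (x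
  7) (p 6 4 2 7 8) (s 0 (p 0 1 5 7 8) (p 4 5 1 0 8))) (w 7 3 1 (x 7) (s 0 (p 1 0 2 7 8) (s 5 (p 4
  5 1 0 8) (s 3 (w 4 1 3 (x 4) (p 8 7 2 4 9) (s 1 (s 0 (p 0 1 5 4 9) (p 7 5 1 0 9)) (s 2 (p 2 7 3
  1 9) (s 8 (p 2 9 1 5 8) (s 6 (p 2 9 1 5 6) (s 0 (w 0 0 3 (x 0) (s 5 (p 7 5 1 0 10) (p 5 10 0 2
  9)) (p 5 7 3 0 10)) (p 5 7 3 0 9))))))) (w 4 1 3 (x 4) (p 8 7 2 4 9) (s 1 (s 0 (p 0 1 5 4 9) (p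
  7 5 1 0 9)) (s 2 (p 2 7 3 1 9) (s 6 (p 2 9 1 5 6) (s 8 (p 2 9 1 3 8) (s 0 (w 0 0 3 (x 0) (s 5 (p
  7 5 1 0 10) (p 5 10 0 2 9)) (p 5 7 3 0 10)) (p 5 7 3 0 9)))))))))) (s 0 (p 0 1 5 7 8) (p 4 5 1 0
  8)))) (s 6 (p 4 6 0 1 7) (w 0 0 3 (x 0) (s 4 (s 5 (p 4 5 1 0 8) (s 3 (w 8 3 1 (p 7 1 0 8 9) (x
  8) (p 3 1 5 8 9)) (w 4 1 3 (x 4) (p 1 7 2 4 9) (s 0 (p 0 8 5 4 9) (p 5 7 3 0 9))))) (p 4 8 0 1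
  7)) (p 5 7 3 0 8)))))) (s 0 (p 2 0 1 5 7) (s 3 (s 4 (w 7 3 1 (s 2 (p 4 2 0 7 8) (s 3 (p 4 3 0 7
  8) (s 5 (p 5 1 0 2 8) (s 6 (p 4 6 0 7 8) (w 7 3 2 (p 4 2 0 7 9) (x 7) (s 4 (p 2 4 5 7 9) (s 1 (p
  1 3 4 9 7) (s 8 (p 2 8 3 1 9) (s 0 (w 1 1 3 (p 8 7 0 1 10) (x 1) (s 2 (s 4 (p 2 4 3 1 10) (s 8
  (p 2 8 3 1 10) (s 0 (p 4 10 1 0 7) (s 6 (w 6 2 3 (s 9 (p 9 7 0 6 11) (p 0 10 4 9 11)) (x 6) (p 9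
  7 5 6 11)) (p 6 10 1 9 7))))) (p 2 10 1 5 7))) (w 1 1 3 (p 8 7 0 1 10) (x 1) (s 2 (s 4 (p 2 4 3
  1 10) (s 8 (p 2 8 3 1 10) (s 0 (p 4 10 1 0 7) (s 6 (w 6 2 3 (s 1 (p 1 10 4 6 11) (p 8 7 0 1 11))
  (x 6) (p 9 7 5 6 11)) (p 6 10 1 9 7))))) (p 2 10 1 5 7)))))))))))) (x 7) (p 3 1 5 7 8)) (w 7 3 2
  (s 1 (p 1 3 4 7 8) (p 4 2 0 1 8)) (x 7) (s 1 (p 3 1 5 7 8) (s 4 (p 2 4 3 1 8) (s 0 (w 6 2 3 (s 1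
  (s 8 (p 8 1 0 6 9) (s 3 (p 0 3 4 8 9) (s 2 (p 2 0 1 8 9) (s 5 (p 5 1 0 2 9) (w 1 1 3 (p 4 7 0 1
  10) (x 1) (s 2 (p 2 9 3 1 10) (p 2 10 1 5 7))))))) (p 4 7 0 1 9)) (x 6) (p 8 7 5 6 9)) (w 6 2 3
  (s 1 (s 5 (s 3 (p 1 3 4 6 9) (p 5 7 0 3 9)) (s 3 (p 0 3 4 5 9) (s 8 (p 5 9 3 0 8) (s 2 (p 2 0 1
  5 9) (w 1 1 3 (p 4 7 0 1 10) (x 1) (s 2 (p 2 9 3 1 10) (p 2 10 1 5 7))))))) (p 4 7 0 1 9)) (x 6)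
  (p 8 7 5 6 9))))))) (s 4 (w 7 3 1 (s 2 (p 4 2 0 7 8) (s 5 (p 5 1 0 2 8) (s 3 (p 3 0 2 8 5) (s 6
  (p 4 6 0 7 8) (w 1 1 3 (p 8 7 0 1 9) (x 1) (s 2 (s 4 (p 2 4 3 1 9) (s 8 (p 2 8 3 1 9) (s 0 (p 4
  9 1 0 7) (s 6 (w 6 2 3 (s 1 (p 1 9 4 6 10) (p 8 7 0 1 10)) (x 6) (p 3 7 5 6 10)) (p 6 9 1 3
  7))))) (p 2 9 1 3 7))))))) (x 7) (s 2 (p 2 4 3 7 8) (p 1 3 4 2 8))) (w 1 1 3 (p 4 7 0 1 8) (x 1)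
  (s 2 (s 4 (p 2 4 3 1 8) (s 6 (s 0 (w 8 3 2 (p 0 2 4 8 9) (p 7 3 1 8 9) (x 8)) (w 6 2 3 (s 1 (p 1
  8 4 6 9) (p 4 7 0 1 9)) (x 6) (p 3 7 5 6 9))) (p 6 8 1 3 7))) (p 2 8 1 3 7)))))) (x 5)))) (x 5))
  (w 0 0 3 (x 0) (s 5 (s 3 (s 4 (p 4 5 1 0 6) (w 6 3 2 (s 1 (p 1 3 4 6 7) (p 4 2 0 1 7)) (x 6) (s
  1 (s 0 (p 5 1 0 6 7) (s 4 (p 4 5 1 0 7) (w 2 2 3 (s 1 (s 5 (s 7 (s 3 (p 1 3 4 2 8) (w 8 3 0 (x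
  8) (p 1 0 2 8 9) (p 7 0 3 8 9))) (p 5 1 0 7 8)) (p 6 0 1 5 8)) (p 4 6 0 1 8)) (x 2) (s 1 (p 3 1
  5 2 8) (s 4 (p 1 8 2 4 6) (s 0 (w 3 2 3 (s 1 (s 7 (s 5 (s 2 (p 5 2 0 3 9) (w 9 3 0 (x 9) (p 1 0
  2 9 10) (p 7 0 3 9 10))) (p 6 0 1 5 9)) (p 8 1 0 7 9)) (p 4 6 0 1 9)) (p 2 8 1 3 9) (x 3)) (w 3
  2 3 (s 5 (s 1 (s 7 (s 2 (p 5 2 0 3 9) (w 9 3 0 (x 9) (p 1 0 2 9 10) (p 7 0 3 9 10))) (p 5 1 0 7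
  9)) (p 4 6 0 1 9)) (p 5 9 3 0 6)) (p 2 8 1 3 9) (x 3)))))))) (p 2 5 1 7 6)))) (p 2 5 1 3 6)) (s
  3 (s 4 (w 6 3 1 (s 3 (p 4 3 0 6 7) (s 2 (p 4 2 0 6 7) (s 5 (w 1 1 3 (p 7 6 0 1 8) (x 1) (s 7 (p
  6 7 3 1 8) (s 4 (p 4 5 1 8 7) (s 0 (p 4 8 1 0 6) (s 2 (w 2 2 3 (s 5 (s 1 (p 1 8 4 2 9) (p 7 6 0
  1 9)) (p 0 8 4 5 9)) (x 2) (s 1 (p 3 1 5 2 9) (s 7 (p 1 9 2 7 6) (s 4 (p 4 5 1 9 7) (s 0 (p 4 9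
  1 0 6) (w 6 3 2 (p 4 2 0 6 10) (x 6) (p 9 2 5 6 10))))))) (w 6 3 2 (p 4 2 0 6 9) (x 6) (p 8 2 5
  6 9))))))) (w 6 3 2 (p 4 2 0 6 8) (x 6) (s 4 (p 3 4 5 6 8) (s 1 (p 1 3 4 8 6) (s 7 (p 2 7 3 1 8)
  (s 0 (w 1 1 3 (p 7 6 0 1 9) (x 1) (s 2 (s 4 (p 2 4 3 1 9) (s 7 (p 2 7 3 1 9) (s 0 (p 4 9 1 0 6)
  (w 2 2 3 (s 8 (p 8 6 0 2 10) (p 8 10 2 0 9)) (x 2) (p 8 6 5 2 10))))) (p 2 9 1 8 6))) (w 1 1 3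
  (p 7 6 0 1 9) (x 1) (s 2 (s 4 (p 2 4 3 1 9) (s 7 (p 2 7 3 1 9) (s 0 (p 4 9 1 0 6) (w 2 2 3 (s 1
  (p 1 9 4 2 10) (p 7 6 0 1 10)) (x 2) (p 8 6 5 2 10))))) (p 2 9 1 8 6))))))))))) (x 6) (p 3 1 5 6
  7)) (w 6 3 2 (s 1 (p 1 3 4 6 7) (p 4 2 0 1 7)) (x 6) (s 1 (p 3 1 5 6 7) (s 4 (p 2 4 3 1 7) (s 0
  (w 2 2 3 (s 1 (s 7 (p 7 1 0 2 8) (s 3 (p 3 0 2 8 7) (s 5 (p 5 6 0 3 8) (w 1 1 3 (p 4 6 0 1 9) (x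
  1) (s 2 (p 2 8 3 1 9) (p 2 9 1 7 6)))))) (p 4 6 0 1 8)) (x 2) (p 7 6 5 2 8)) (w 2 2 3 (s 1 (s 3
  (p 1 3 4 2 8) (s 5 (p 5 6 0 3 8) (s 7 (p 5 8 3 0 7) (w 1 1 3 (p 4 6 0 1 9) (x 1) (s 2 (p 2 8 3 1
  9) (p 2 9 1 7 6)))))) (p 4 6 0 1 8)) (x 2) (p 7 6 5 2 8))))))) (s 4 (w 6 3 1 (s 2 (p 4 2 0 6 7)
  (s 3 (p 1 3 4 2 7) (s 5 (w 1 1 3 (p 7 6 0 1 8) (x 1) (s 2 (s 7 (p 2 7 3 1 8) (s 4 (p 2 4 3 1 8)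
  (s 0 (p 4 8 1 0 6) (w 2 2 3 (s 1 (p 1 8 4 2 9) (p 7 6 0 1 9)) (x 2) (p 3 6 5 2 9))))) (p 2 8 1 3
  6))) (w 1 1 3 (p 7 6 0 1 8) (x 1) (s 2 (s 4 (p 2 4 3 1 8) (s 0 (p 4 8 1 0 6) (s 7 (p 5 7 3 0 8)
  (w 2 2 3 (s 1 (p 1 8 4 2 9) (p 7 6 0 1 9)) (x 2) (p 3 6 5 2 9))))) (p 2 8 1 3 6)))))) (x 6) (s 2
  (p 2 4 3 6 7) (p 1 3 4 2 7))) (w 1 1 3 (p 4 6 0 1 7) (x 1) (s 2 (s 4 (p 2 4 3 1 7) (s 0 (w 7 3 2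
  (p 0 2 4 7 8) (p 6 3 1 7 8) (x 7)) (w 2 2 3 (s 1 (p 1 7 4 2 8) (p 4 6 0 1 8)) (x 2) (p 3 6 5 2
  8)))) (p 2 7 1 3 6)))))) (s 4 (p 5 4 3 0 6) (s 1 (s 2 (w 6 3 2 (s 1 (p 1 3 4 6 7) (p 4 2 0 1 7))
  (s 5 (s 0 (p 5 1 0 6 7) (s 4 (p 4 5 1 0 7) (w 3 2 3 (s 5 (s 1 (s 7 (s 2 (p 5 2 0 3 8) (w 8 3 0
  (x 8) (p 1 0 2 8 9) (p 6 0 3 8 9))) (p 5 1 0 7 8)) (p 4 6 0 1 8)) (p 5 8 3 0 6)) (s 5 (p 2 5 1 3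
  8) (s 0 (p 6 0 1 5 8) (s 4 (w 1 1 3 (p 4 6 0 1 9) (x 1) (s 7 (s 4 (p 6 4 3 1 9) (s 0 (p 4 9 1 0
  8) (s 2 (w 9 3 2 (s 5 (p 5 2 0 9 10) (p 3 0 2 5 10)) (p 8 3 1 9 10) (x 9)) (p 2 9 1 3 8)))) (p 3
  1 9 7 6))) (w 2 2 3 (s 1 (s 5 (s 7 (s 3 (p 1 3 4 2 9) (w 9 3 0 (x 9) (p 1 0 2 9 10) (p 6 0 3 9
  10))) (p 5 1 0 7 9)) (p 6 0 1 5 9)) (p 4 6 0 1 9)) (x 2) (p 3 8 5 2 9))))) (x 3)))) (p 3 1 5 7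
  6)) (x 6)) (p 3 1 5 2 6)) (s 2 (w 6 3 2 (s 5 (p 5 2 0 6 7) (p 3 0 2 5 7)) (s 5 (p 2 5 1 6 7) (s
  0 (p 3 0 2 5 7) (s 4 (w 3 2 3 (s 5 (s 7 (p 5 7 0 3 8) (s 2 (p 5 2 0 3 8) (s 1 (p 2 8 3 1 6) (w 5
  0 3 (p 0 6 4 5 9) (s 3 (p 3 8 2 5 9) (p 7 6 1 3 9)) (x 5))))) (p 5 8 3 0 6)) (p 7 6 1 3 8) (x
  3)) (w 3 2 3 (s 5 (s 2 (p 5 2 0 3 8) (s 1 (p 2 8 3 1 6) (s 7 (p 4 7 0 1 8) (w 5 0 3 (p 0 6 4 5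
  9) (s 3 (p 3 8 2 5 9) (p 7 6 1 3 9)) (x 5))))) (p 5 8 3 0 6)) (p 7 6 1 3 8) (x 3))))) (x 6)) (w
  3 2 3 (s 5 (s 2 (p 5 2 0 3 7) (s 1 (w 7 3 0 (x 7) (p 1 0 2 7 8) (p 6 0 3 7 8)) (w 5 0 3 (p 0 6 4
  5 8) (s 3 (p 3 7 2 5 8) (p 2 6 1 3 8)) (x 5)))) (p 5 7 3 0 6)) (p 2 6 1 3 7) (x 3)))))))))) (x
  2) (s 0 (w 4 1 0 (s 2 (s 1 (p 1 0 2 4 5) (s 3 (p 3 0 2 4 5) (w 2 2 3 (s 1 (p 5 1 0 2 6) (s 3 (p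
  5 3 0 2 6) (s 4 (w 6 3 0 (x 6) (s 4 (p 4 5 1 6 7) (p 1 0 2 4 7)) (p 4 5 3 6 7)) (w 0 0 3 (x 0)
  (s 5 (s 4 (p 4 5 1 0 7) (s 3 (w 5 0 3 (x 5) (p 2 6 1 5 8) (s 0 (p 7 0 3 5 8) (p 4 6 3 0 8))) (p
  1 3 7 4 2))) (p 5 7 0 2 6)) (p 4 6 3 0 7))))) (x 2) (s 5 (p 3 5 4 2 6) (s 1 (s 0 (w 6 3 1 (p 0 1
  5 6 7) (s 0 (p 1 0 2 6 7) (s 5 (p 4 5 1 0 7) (s 3 (w 7 1 2 (s 4 (p 4 2 0 7 8) (p 3 0 2 4 8)) (x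
  7) (p 4 2 6 7 8)) (p 1 3 7 6 2)))) (x 6)) (w 4 1 3 (p 0 6 5 4 7) (s 3 (s 0 (p 1 0 2 4 7) (s 5 (w
  7 3 2 (p 5 3 0 7 8) (x 7) (p 6 2 4 7 8)) (w 6 3 1 (s 2 (s 3 (s 7 (p 4 7 0 6 8) (w 8 1 0 (x 8) (p
  1 0 7 8 9) (p 3 0 6 8 9))) (p 4 2 0 3 8)) (p 5 1 0 2 8)) (p 7 4 2 6 8) (x 6)))) (p 1 3 7 4 2))
  (x 4))) (p 3 1 6 2 4)))))) (s 1 (s 3 (w 1 1 3 (s 2 (p 5 2 0 1 6) (s 3 (p 3 1 6 2 5) (s 4 (w 4 1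
  3 (s 1 (s 3 (s 2 (p 1 0 2 4 7) (w 5 0 3 (x 5) (p 1 6 2 5 8) (s 1 (s 0 (s 2 (p 1 0 2 5 8) (w 7 3
  0 (x 7) (p 1 0 2 7 9) (p 8 5 4 7 9))) (p 1 0 8 5 4)) (p 3 1 8 5 4)))) (p 0 3 7 4 5)) (p 0 1 7 4
  5)) (p 1 6 2 4 7) (x 4)) (p 0 1 6 4 5)))) (x 1) (s 5 (s 2 (s 0 (p 4 2 0 1 6) (w 6 3 2 (p 5 2 0 6
  7) (s 4 (s 5 (s 0 (p 4 2 0 6 7) (w 7 2 1 (s 2 (p 4 2 0 7 8) (s 6 (p 1 6 7 8 2) (p 1 6 8 2 4)))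
  (x 7) (p 3 1 6 7 8))) (p 1 6 7 5 2)) (p 1 6 7 4 2)) (x 6))) (p 3 1 6 2 4)) (p 3 1 6 5 4))) (w 1
  1 3 (s 4 (s 2 (p 4 2 0 1 6) (s 3 (p 3 1 6 2 4) (w 6 3 0 (x 6) (s 4 (s 3 (p 4 5 3 6 7) (p 4 2 0 3
  7)) (p 1 0 2 4 7)) (p 4 5 3 6 7)))) (p 0 1 6 4 5)) (x 1) (s 5 (p 4 5 3 1 6) (s 0 (p 0 1 6 5 4)
  (s 2 (w 6 3 2 (s 4 (p 4 2 0 6 7) (p 3 0 2 4 7)) (s 4 (s 0 (p 4 2 0 6 7) (s 5 (p 4 5 3 0 7) (p 1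
  0 7 5 4))) (p 1 6 7 4 2)) (x 6)) (p 3 1 6 2 4)))))) (s 3 (w 3 2 3 (s 4 (s 2 (p 4 2 0 3 6) (s 1
  (p 1 3 6 2 4) (w 6 3 0 (x 6) (s 4 (p 4 5 1 6 7) (p 1 0 2 4 7)) (s 1 (p 4 5 1 6 7) (s 2 (p 4 2 0
  1 7) (p 3 1 7 2 4)))))) (p 0 3 6 4 5)) (s 4 (s 5 (p 2 5 1 3 6) (s 0 (p 4 2 0 3 6) (w 6 3 1 (s 2
  (p 4 2 0 6 7) (s 3 (p 3 1 5 2 7) (p 1 3 7 2 4))) (x 6) (s 2 (s 0 (p 4 2 0 6 7) (s 5 (p 4 5 1 0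
  7) (p 3 0 7 5 4))) (p 1 3 6 7 2))))) (p 1 3 6 4 2)) (x 3)) (w 4 1 3 (s 1 (p 0 1 5 4 6) (s 3 (p 0
  3 5 4 6) (s 2 (w 6 3 0 (x 6) (p 2 0 1 6 7) (s 2 (p 2 0 3 6 7) (s 1 (w 0 0 3 (x 0) (s 7 (p 7 6 1
  0 8) (s 4 (p 4 6 1 0 8) (s 5 (p 5 1 0 8 7) (s 3 (w 2 2 3 (s 1 (p 6 1 0 2 9) (s 7 (p 7 8 0 1 9)
  (s 3 (p 6 3 0 2 9) (s 4 (p 4 8 0 1 9) (w 7 0 1 (p 0 1 6 7 10) (s 0 (p 1 0 2 7 10) (s 5 (p 4 5 1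
  0 10) (s 6 (p 4 6 1 0 10) (s 9 (p 4 9 1 0 10) (s 3 (w 10 1 2 (s 8 (s 4 (p 4 2 0 10 11) (p 3 0 2
  4 11)) (p 9 2 0 8 11)) (x 10) (p 4 2 7 10 11)) (p 1 3 10 7 2)))))) (x 7)))))) (x 2) (p 3 6 4 2
  9)) (p 1 3 8 4 2))))) (p 4 6 3 0 8)) (p 3 1 7 2 4)))) (w 0 0 3 (x 0) (s 4 (p 4 6 1 0 7) (s 3 (s
  5 (w 6 3 0 (x 6) (p 7 0 1 6 8) (s 7 (p 7 0 3 6 8) (p 5 3 0 7 8))) (w 6 3 0 (x 6) (p 7 0 1 6 8)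
  (s 7 (p 7 0 3 6 8) (s 1 (s 2 (w 8 0 1 (p 0 1 6 8 9) (p 2 4 7 8 9) (x 8)) (w 8 0 1 (p 0 1 6 8 9)
  (s 3 (s 0 (p 1 0 2 8 9) (s 5 (p 4 5 1 0 9) (s 6 (p 4 6 1 0 9) (w 9 1 2 (s 7 (s 4 (p 4 2 0 9 10)
  (p 3 0 2 4 10)) (p 6 2 0 7 10)) (x 9) (p 4 2 8 9 10))))) (p 1 3 9 8 2)) (x 8))) (p 3 1 8 7
  4))))) (p 1 3 7 4 2))) (p 4 6 3 0 7))))) (s 0 (p 1 0 2 4 6) (s 3 (s 5 (w 6 3 2 (p 5 2 0 6 7) (x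
  6) (s 1 (s 5 (p 1 5 4 6 7) (s 0 (w 7 2 1 (p 0 1 5 7 8) (p 2 4 6 7 8) (x 7)) (w 7 2 1 (s 6 (s 3
  (s 2 (p 4 2 0 7 8) (w 8 1 0 (x 8) (p 1 0 2 8 9) (p 3 0 7 8 9))) (p 4 6 0 3 8)) (p 5 1 0 6 8)) (p
  2 4 6 7 8) (x 7)))) (p 1 7 6 4 2))) (w 1 1 3 (s 4 (p 4 6 0 1 7) (s 3 (p 0 3 5 4 7) (s 2 (w 2 2 3
  (s 1 (p 7 1 0 2 8) (s 4 (p 4 6 0 1 8) (s 3 (p 7 3 0 2 8) (w 7 3 0 (x 7) (p 2 0 1 7 9) (s 6 (p 6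
  0 3 7 9) (s 2 (p 2 0 3 7 9) (s 8 (p 8 3 0 6 9) (s 1 (w 6 3 2 (p 8 2 0 6 10) (x 6) (s 7 (p 3 7 4
  6 10) (s 8 (p 2 8 3 7 10) (s 0 (p 2 0 3 7 10) (s 5 (p 5 2 0 10 7) (s 1 (w 10 2 1 (s 9 (s 2 (p 4
  2 0 10 11) (p 7 1 0 2 11)) (p 0 1 7 9 11)) (p 2 4 6 10 11) (x 10)) (p 1 10 6 4 2))))))) (p 3 1 9
  2 4))))))))) (x 2) (p 3 7 4 2 8)) (w 7 3 0 (x 7) (p 6 0 1 7 8) (s 6 (p 6 0 3 7 8) (s 1 (s 2 (w 8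
  0 1 (p 0 1 7 8 9) (p 2 4 6 8 9) (x 8)) (w 8 0 1 (p 0 1 7 8 9) (s 3 (s 0 (p 1 0 2 8 9) (s 5 (p 4
  5 1 0 9) (s 7 (p 4 7 1 0 9) (w 9 1 2 (s 6 (s 4 (p 4 2 0 9 10) (p 3 0 2 4 10)) (p 7 2 0 6 10)) (x
  9) (p 4 2 8 9 10))))) (p 1 3 9 8 2)) (x 8))) (p 3 1 8 6 4))))))) (x 1) (s 2 (s 0 (p 4 2 0 1 7)
  (s 5 (p 4 5 3 0 7) (w 3 2 3 (s 4 (p 4 6 0 3 8) (p 4 8 3 0 7)) (s 4 (s 0 (p 4 2 0 3 8) (s 5 (p 4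
  5 1 0 8) (w 7 3 2 (s 4 (p 4 2 0 7 9) (p 3 0 2 4 9)) (p 8 3 1 7 9) (x 7)))) (p 1 3 8 4 2)) (x
  3)))) (p 3 1 7 2 4)))) (p 1 3 6 4 2))) (x 4))))) (p 1 0 2 4 5) (x 4)) (w 0 0 3 (x 0) (s 3 (s 4
  (w 5 3 1 (s 2 (s 3 (w 1 1 3 (p 6 5 0 1 7) (x 1) (s 6 (s 0 (p 6 5 0 1 7) (s 2 (w 2 2 3 (p 6 5 0 2
  8) (x 2) (s 6 (s 1 (s 0 (p 6 5 0 2 8) (w 3 2 3 (p 6 5 0 3 9) (s 6 (s 4 (s 0 (p 6 5 0 3 9) (w 7 3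
  2 (s 5 (p 6 5 0 7 10) (s 1 (p 3 1 7 10 5) (p 3 1 10 5 6))) (p 9 3 1 7 10) (x 7))) (p 1 3 9 4 2))
  (p 1 3 9 6 5)) (x 3))) (p 3 1 8 2 4)) (p 4 2 8 6 5))) (p 3 1 7 2 4))) (p 3 1 7 6 5))) (w 6 1 0
  (x 6) (p 1 0 5 6 7) (p 4 0 3 6 7))) (s 3 (w 1 1 3 (p 6 5 0 1 7) (x 1) (s 6 (s 2 (s 0 (p 6 2 0 1
  7) (w 3 2 3 (p 6 5 0 3 8) (s 6 (s 4 (s 0 (p 6 2 0 3 8) (w 7 3 2 (p 6 2 0 7 9) (p 8 3 1 7 9) (x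
  7))) (p 1 3 8 4 2)) (p 1 3 8 6 2)) (x 3))) (p 3 1 7 2 4)) (p 3 1 7 6 5))) (p 1 3 6 2 4))) (x 5)
  (s 0 (s 2 (w 6 1 2 (s 5 (p 2 0 5 6 7) (s 1 (s 4 (w 1 1 3 (p 7 5 0 1 8) (x 1) (s 7 (s 0 (p 6 5 0
  1 8) (s 2 (w 2 2 3 (p 7 5 0 2 9) (x 2) (s 7 (s 0 (p 6 5 0 2 9) (s 1 (w 7 2 0 (x 7) (p 1 0 5 7
  10) (s 1 (s 2 (s 5 (p 1 0 5 7 10) (w 3 2 3 (p 7 5 0 3 11) (s 0 (s 7 (p 7 5 0 3 11) (p 1 0 5 7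
  11)) (s 7 (s 6 (s 10 (s 4 (w 11 3 1 (s 10 (s 5 (p 6 5 0 11 12) (s 3 (p 1 3 11 12 5) (p 1 3 12 5
  6))) (p 1 0 11 12 10)) (x 11) (p 8 1 3 11 12)) (p 1 3 11 4 2)) (p 1 0 11 10 7)) (p 1 0 11 6 7))
  (p 1 3 11 7 5))) (x 3))) (p 1 0 2 10 7)) (p 4 0 1 10 7))) (p 3 1 9 2 4))) (p 4 2 9 7 5))) (p 3 1
  8 2 4))) (p 3 1 8 7 5))) (p 1 0 4 7 6)) (p 2 0 1 7 6))) (s 0 (p 1 0 5 6 7) (s 4 (w 5 3 2 (s 6 (s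
  1 (s 4 (w 1 1 3 (p 8 5 0 1 9) (x 1) (s 8 (s 7 (s 0 (p 6 5 0 1 9) (s 2 (w 2 2 3 (p 8 5 0 2 10) (x
  2) (s 8 (s 7 (s 0 (p 6 5 0 2 10) (s 1 (w 3 2 3 (p 8 5 0 3 11) (s 6 (s 8 (s 0 (p 6 5 0 3 11) (s 4
  (w 9 3 2 (s 6 (p 6 7 0 9 12) (p 2 0 7 6 12)) (p 11 3 1 9 12) (x 9)) (p 1 3 11 4 2))) (p 1 3 11 8
  5)) (p 1 3 11 6 5)) (x 3)) (p 3 1 10 2 4))) (p 4 2 10 7 6)) (p 4 2 10 8 5))) (p 3 1 9 2 4))) (p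
  3 1 9 7 6)) (p 3 1 9 8 5))) (p 6 7 0 4 8)) (p 6 7 0 1 8)) (p 2 0 7 6 8)) (x 5) (s 1 (s 0 (w 8 2
  1 (s 5 (p 1 0 5 8 9) (s 7 (s 2 (s 3 (w 7 2 3 (p 9 5 0 7 10) (x 7) (p 8 5 6 7 10)) (p 2 0 3 9 8))
  (p 1 0 2 9 8)) (p 1 0 7 9 8))) (p 7 6 5 8 9) (x 8)) (w 8 2 1 (s 5 (s 2 (s 3 (s 7 (p 6 7 0 8 9)
  (w 9 1 0 (x 9) (p 1 0 7 9 10) (p 3 0 8 9 10))) (p 6 5 0 3 9)) (p 6 5 0 2 9)) (s 7 (p 6 7 0 8 9)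
  (s 2 (s 3 (w 9 1 0 (x 9) (p 1 0 5 9 10) (p 3 0 8 9 10)) (p 1 3 9 5 6)) (p 4 2 9 5 6)))) (p 7 6 5
  8 9) (x 8))) (p 3 1 8 5 6))) (p 2 4 7 6 5))) (x 6)) (w 5 3 2 (s 6 (s 1 (s 4 (p 4 2 6 5 7) (w 7 2
  0 (x 7) (p 1 0 5 7 8) (p 3 0 4 7 8))) (p 6 2 0 1 7)) (p 3 0 2 6 7)) (x 5) (p 4 2 6 5 7))) (s 2
  (w 5 3 2 (s 1 (s 4 (s 6 (w 1 1 3 (p 7 5 0 1 8) (x 1) (s 7 (s 0 (p 7 5 0 1 8) (s 2 (w 2 2 3 (p 7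
  5 0 2 9) (x 2) (s 7 (s 1 (s 0 (p 7 5 0 2 9) (w 7 2 0 (x 7) (p 1 0 5 7 10) (s 5 (p 3 0 5 7 10) (s
  1 (s 2 (w 3 2 3 (p 7 5 0 3 11) (s 7 (s 10 (s 6 (s 4 (s 0 (p 7 5 0 3 11) (w 8 3 2 (s 10 (s 5 (p 7
  5 0 8 12) (s 1 (p 3 1 8 12 5) (p 3 1 12 5 7))) (p 2 0 8 12 10)) (p 11 3 1 8 12) (x 8))) (p 1 3
  11 4 2)) (p 1 3 11 6 5)) (p 1 3 11 10 5)) (p 1 3 11 7 5)) (x 3)) (p 1 0 2 10 7)) (p 4 0 1 10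
  7))))) (p 3 1 9 2 4)) (p 4 2 9 7 5))) (p 3 1 8 2 4))) (p 3 1 8 7 5))) (w 7 2 0 (x 7) (p 1 0 5 7
  8) (p 3 0 6 7 8))) (s 6 (p 2 4 7 5 6) (w 7 2 0 (x 7) (p 1 0 5 7 8) (p 3 0 4 7 8)))) (s 4 (s 6 (p
  3 1 7 5 6) (w 7 2 0 (x 7) (p 2 0 1 7 8) (p 3 0 6 7 8))) (p 2 4 7 1 3))) (x 5) (s 1 (s 0 (w 7 2 1
  (s 5 (p 1 0 5 7 8) (s 2 (s 3 (w 1 1 3 (p 8 5 0 1 9) (x 1) (s 8 (s 0 (p 7 5 0 1 9) (s 2 (w 2 2 3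
  (p 8 5 0 2 10) (x 2) (s 8 (s 0 (p 7 5 0 2 10) (s 1 (w 8 1 0 (x 8) (p 1 0 5 8 11) (s 1 (s 2 (s 5
  (p 1 0 5 8 11) (w 3 2 3 (p 8 5 0 3 12) (s 0 (s 8 (p 8 5 0 3 12) (p 1 0 5 8 12)) (s 8 (s 7 (s 11
  (s 6 (s 4 (w 9 3 2 (s 11 (s 5 (p 7 5 0 9 13) (s 1 (p 3 1 9 13 5) (p 3 1 13 5 7))) (p 2 0 9 13
  11)) (p 12 3 1 9 13) (x 9)) (p 1 3 12 4 2)) (p 1 3 12 6 5)) (p 1 0 12 11 8)) (p 1 0 12 7 8)) (p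
  1 3 12 8 5))) (x 3))) (p 1 0 2 11 8)) (p 4 0 1 11 8))) (p 3 1 10 2 4))) (p 4 2 10 8 5))) (p 3 1
  9 2 4))) (p 3 1 9 8 5))) (p 2 0 3 8 7)) (p 1 0 2 8 7))) (s 0 (p 1 0 5 7 8) (s 3 (w 6 1 2 (s 5 (s
  1 (s 4 (s 8 (p 7 8 0 6 9) (w 9 2 0 (x 9) (p 1 0 8 9 10) (p 3 0 6 9 10))) (p 7 5 0 4 9)) (p 7 5 0
  1 9)) (s 8 (p 7 8 0 6 9) (s 1 (s 4 (w 9 2 0 (x 9) (p 1 0 5 9 10) (p 3 0 6 9 10)) (p 2 4 9 5 7))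
  (p 3 1 9 5 7)))) (p 8 7 5 6 9) (x 6)) (p 1 3 8 7 5))) (x 7)) (w 6 1 2 (s 5 (s 1 (s 4 (w 7 2 1 (p
  8 6 0 7 9) (s 8 (p 8 6 5 7 9) (s 0 (p 1 0 6 8 9) (s 3 (w 8 2 0 (x 8) (p 1 0 9 8 10) (p 3 0 6 8
  10)) (p 1 3 9 7 5)))) (x 7)) (p 2 4 8 6 5)) (p 3 1 8 6 5)) (s 1 (s 4 (w 8 2 0 (x 8) (p 1 0 5 8
  9) (p 3 0 6 8 9)) (p 2 4 8 5 7)) (p 3 1 8 5 7))) (s 4 (s 0 (w 7 2 1 (s 8 (p 8 6 0 7 9) (p 1 0 6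
  8 9)) (p 8 6 5 7 9) (x 7)) (w 7 2 1 (s 5 (s 2 (s 3 (s 8 (p 8 6 5 7 9) (w 9 1 0 (x 9) (p 1 0 8 9
  10) (p 3 0 7 9 10))) (p 1 3 9 7 5)) (p 4 2 9 7 5)) (s 2 (s 3 (s 8 (w 8 2 3 (p 9 5 0 8 10) (x 8)
  (p 7 5 6 8 10)) (w 9 1 0 (x 9) (p 1 0 5 9 10) (p 3 0 7 9 10))) (p 1 3 9 5 6)) (p 4 2 9 5 6))) (p
  8 6 5 7 9) (x 7))) (p 2 4 8 6 5)) (x 6))) (p 3 1 7 5 6))) (w 5 3 2 (s 1 (s 4 (s 6 (p 4 2 6 5 7)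
  (w 7 2 0 (x 7) (p 1 0 5 7 8) (p 3 0 6 7 8))) (s 6 (w 7 2 0 (x 7) (p 1 0 5 7 8) (p 3 0 4 7 8)) (w
  7 2 0 (x 7) (p 1 0 5 7 8) (p 3 0 4 7 8)))) (s 6 (p 1 7 5 6 2) (p 2 6 7 1 3))) (x 5) (p 4 2 6 5
  7))))) (w 5 3 2 (s 1 (s 4 (w 1 1 3 (p 6 5 0 1 7) (x 1) (s 6 (s 2 (s 0 (p 6 5 0 1 7) (w 2 2 3 (p
  6 5 0 2 8) (x 2) (s 1 (s 6 (p 6 5 4 2 8) (s 0 (p 1 0 2 8 6) (w 6 2 0 (x 6) (p 1 0 5 6 9) (p 3 0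
  8 6 9)))) (p 3 1 8 2 4)))) (p 3 1 7 2 4)) (p 3 1 7 6 5))) (w 6 2 0 (x 6) (p 1 0 5 6 7) (p 3 0 4
  6 7))) (s 4 (p 1 6 5 4 2) (p 2 4 6 1 3))) (x 5) (s 1 (s 0 (w 6 2 1 (s 3 (s 2 (s 5 (p 1 0 5 6 7)
  (w 2 2 3 (p 7 5 0 2 8) (x 2) (p 6 5 4 2 8))) (p 1 0 2 7 6)) (p 4 0 3 7 6)) (p 2 4 5 6 7) (x 6))
  (w 6 2 1 (s 3 (s 2 (s 5 (p 2 4 5 6 7) (w 2 2 3 (p 7 5 0 2 8) (x 2) (p 6 5 4 2 8))) (s 5 (w 7 1 0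
  (x 7) (p 1 0 2 7 8) (p 3 0 6 7 8)) (w 7 1 0 (x 7) (p 1 0 2 7 8) (p 3 0 6 7 8)))) (s 5 (p 1 3 7 6
  5) (p 1 3 7 5 4))) (p 2 4 5 6 7) (x 6))) (p 1 6 5 4 2)))) (s 4 (w 5 3 1 (s 2 (s 3 (w 1 1 3 (p 6
  5 0 1 7) (x 1) (s 2 (s 6 (p 6 5 3 1 7) (s 0 (p 2 0 1 7 6) (w 6 1 0 (x 6) (p 1 0 5 6 8) (p 3 0 7
  6 8)))) (p 3 1 7 2 4))) (w 6 1 0 (x 6) (p 1 0 5 6 7) (p 4 0 3 6 7))) (s 3 (p 1 3 5 6 2) (p 1 3 6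
  2 4))) (x 5) (s 2 (s 0 (w 6 1 2 (s 4 (s 1 (s 5 (p 1 0 5 6 7) (w 1 1 3 (p 7 5 0 1 8) (x 1) (p 6 5
  3 1 8))) (p 2 0 1 7 6)) (p 3 0 4 7 6)) (p 1 3 5 6 7) (x 6)) (w 6 1 2 (s 4 (s 1 (s 5 (p 1 3 5 6
  7) (w 1 1 3 (p 7 5 0 1 8) (x 1) (p 6 5 3 1 8))) (s 5 (w 7 2 0 (x 7) (p 2 0 1 7 8) (p 3 0 6 7 8))
  (w 7 2 0 (x 7) (p 2 0 1 7 8) (p 3 0 6 7 8)))) (s 5 (p 2 4 7 6 5) (p 2 4 7 5 3))) (p 1 3 5 6 7)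
  (x 6))) (p 1 3 5 6 2))) (p 1 3 5 4 2))) (s 1 (s 2 (w 5 3 1 (s 2 (s 3 (w 1 1 3 (p 6 5 0 1 7) (x
  1) (s 6 (s 0 (p 6 5 0 1 7) (s 2 (w 2 2 3 (p 6 5 0 2 8) (x 2) (s 6 (s 1 (s 0 (p 6 5 0 2 8) (w 3 2
  3 (p 6 5 0 3 9) (s 6 (s 4 (s 0 (p 6 5 0 3 9) (w 7 3 2 (s 5 (p 6 5 0 7 10) (s 1 (p 3 1 7 10 5) (p
  3 1 10 5 6))) (p 9 3 1 7 10) (x 7))) (p 1 3 9 4 2)) (p 1 3 9 6 5)) (x 3))) (p 3 1 8 2 4)) (p 4 2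
  8 6 5))) (p 3 1 7 2 4))) (p 3 1 7 6 5))) (w 1 1 3 (p 6 5 0 1 7) (x 1) (s 6 (p 5 6 3 1 7) (s 0 (p
  4 0 1 7 6) (s 2 (w 2 2 3 (p 6 5 0 2 8) (x 2) (s 6 (s 1 (s 0 (p 6 3 0 2 8) (w 4 1 3 (p 6 5 0 4 9)
  (s 6 (s 3 (s 0 (p 6 3 0 4 9) (w 9 3 2 (p 6 3 0 9 10) (x 9) (p 8 2 4 9 10))) (p 1 3 9 4 2)) (p 1
  7 6 9 4)) (x 4))) (p 3 1 8 2 4)) (p 3 6 8 2 4))) (p 3 1 7 2 4)))))) (s 3 (w 6 1 0 (x 6) (p 1 0 2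
  6 7) (p 3 0 5 6 7)) (p 1 3 6 2 4))) (s 0 (s 3 (w 6 1 2 (s 5 (p 2 0 5 6 7) (s 1 (s 4 (w 3 2 3 (p
  7 5 0 3 8) (s 7 (s 0 (p 6 5 0 3 8) (s 4 (w 4 1 3 (p 7 5 0 4 9) (s 7 (s 0 (p 6 5 0 4 9) (s 3 (w 7
  2 0 (x 7) (s 3 (s 4 (s 5 (p 1 0 5 7 10) (w 1 1 3 (p 7 5 0 1 11) (x 1) (s 0 (s 7 (p 7 5 0 1 11)
  (p 4 0 1 11 7)) (s 7 (s 6 (s 10 (s 2 (w 8 3 1 (s 10 (s 5 (p 6 5 0 8 12) (s 3 (p 1 3 8 12 5) (p 1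
  3 12 5 6))) (p 1 0 8 12 10)) (x 8) (p 11 1 3 8 12)) (p 3 1 11 2 4)) (p 3 0 11 10 7)) (p 3 0 11 6
  7)) (p 3 1 11 7 5))))) (p 1 0 4 10 7)) (p 2 0 3 10 7)) (p 3 0 5 7 10)) (p 1 3 9 4 2))) (p 2 4 9
  7 5)) (x 4)) (p 1 3 8 4 2))) (p 1 3 8 7 5)) (x 3)) (p 1 0 4 7 6)) (p 2 0 1 7 6))) (x 6) (s 0 (p
  2 0 5 6 7) (s 1 (w 5 3 2 (s 6 (s 1 (s 4 (w 1 1 3 (p 8 5 0 1 9) (x 1) (s 6 (s 8 (s 0 (p 6 5 0 1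
  9) (s 2 (w 2 2 3 (p 8 5 0 2 10) (x 2) (s 6 (s 8 (s 0 (p 6 5 0 2 10) (s 1 (w 3 2 3 (p 8 5 0 3 11)
  (s 8 (s 7 (s 0 (p 6 5 0 3 11) (s 4 (w 9 3 2 (s 6 (p 6 7 0 9 12) (p 2 0 7 6 12)) (p 11 3 1 9 12)
  (x 9)) (p 1 3 11 4 2))) (p 1 3 11 7 6)) (p 1 3 11 8 5)) (x 3)) (p 3 1 10 2 4))) (p 4 2 10 8 5))
  (p 4 2 10 6 5))) (p 3 1 9 2 4))) (p 3 1 9 8 5)) (p 3 1 9 6 5))) (p 6 7 0 4 8)) (p 6 7 0 1 8)) (p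
  2 0 7 6 8)) (s 4 (s 0 (w 8 2 1 (s 5 (p 1 0 5 8 9) (s 7 (s 2 (s 3 (w 7 2 3 (p 9 5 0 7 10) (p 8 5
  6 7 10) (x 7)) (p 2 0 3 9 8)) (p 1 0 2 9 8)) (p 1 0 7 9 8))) (x 8) (p 7 6 5 8 9)) (w 8 2 1 (s 5
  (s 2 (s 3 (s 7 (p 6 7 0 8 9) (w 9 1 0 (x 9) (p 1 0 8 9 10) (p 3 0 7 9 10))) (p 6 5 0 3 9)) (p 6
  5 0 2 9)) (s 7 (p 6 7 0 8 9) (s 2 (s 3 (w 9 1 0 (x 9) (p 1 0 8 9 10) (p 3 0 5 9 10)) (p 1 3 9 5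
  6)) (p 4 2 9 5 6)))) (x 8) (p 7 6 5 8 9))) (p 2 4 8 5 6)) (x 5)) (p 3 1 7 6 5)))) (w 5 3 2 (s 6
  (s 4 (s 1 (p 1 3 6 5 7) (w 7 2 0 (x 7) (p 2 0 1 7 8) (p 3 0 5 7 8))) (p 6 3 0 4 7)) (p 2 0 3 6
  7)) (p 1 3 6 5 7) (x 5))) (s 3 (w 5 3 2 (s 1 (s 4 (s 6 (w 3 2 3 (p 7 5 0 3 8) (s 7 (s 0 (p 7 5 0
  3 8) (s 4 (w 4 1 3 (p 7 5 0 4 9) (s 7 (s 3 (s 0 (p 7 5 0 4 9) (w 7 2 0 (x 7) (s 5 (p 1 0 5 7 10)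
  (s 3 (s 4 (w 1 1 3 (p 7 5 0 1 11) (x 1) (s 7 (s 10 (s 6 (s 2 (s 0 (p 7 5 0 1 11) (w 8 3 1 (s 10
  (s 5 (p 7 5 0 8 12) (s 3 (p 1 3 8 12 5) (p 1 3 12 5 6))) (p 1 0 8 12 10)) (x 8) (p 11 1 3 8
  12))) (p 3 1 11 2 4)) (p 3 1 11 6 5)) (p 3 1 11 10 5)) (p 3 1 11 7 5))) (p 1 0 4 10 7)) (p 2 0 3
  10 7))) (p 3 0 5 7 10))) (p 1 3 9 4 2)) (p 2 4 9 7 5)) (x 4)) (p 1 3 8 4 2))) (p 1 3 8 7 5)) (x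
  3)) (w 7 2 0 (x 7) (p 1 0 6 7 8) (p 3 0 5 7 8))) (s 6 (p 2 4 7 5 6) (w 7 2 0 (x 7) (p 1 0 6 7 8)
  (p 3 0 4 7 8)))) (s 4 (s 6 (p 3 1 7 5 6) (w 7 2 0 (x 7) (p 2 0 1 7 8) (p 3 0 5 7 8))) (p 2 4 7 1
  3))) (s 4 (s 0 (w 7 2 1 (s 5 (p 1 0 5 7 8) (s 2 (s 3 (w 3 2 3 (p 8 5 0 3 9) (s 8 (s 0 (p 7 5 0 3
  9) (s 4 (w 4 1 3 (p 8 5 0 4 10) (s 8 (s 0 (p 7 5 0 4 10) (s 3 (w 8 1 0 (x 8) (s 3 (s 4 (s 5 (p 1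
  0 5 8 11) (w 1 1 3 (p 8 5 0 1 12) (x 1) (s 0 (s 8 (p 8 5 0 1 12) (p 4 0 1 12 8)) (s 8 (s 7 (s 11
  (s 6 (s 2 (w 12 3 2 (s 11 (s 5 (p 7 5 0 12 13) (s 1 (p 3 1 12 13 5) (p 3 1 13 5 7))) (p 2 0 12
  13 11)) (p 9 3 1 12 13) (x 12)) (p 3 1 12 2 4)) (p 3 1 12 6 5)) (p 3 0 12 11 8)) (p 3 0 12 7 8))
  (p 3 1 12 8 5))))) (p 1 0 4 11 8)) (p 2 0 3 11 8)) (p 3 0 5 8 11)) (p 1 3 10 4 2))) (p 2 4 10 8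
  5)) (x 4)) (p 1 3 9 4 2))) (p 1 3 9 8 5)) (x 3)) (p 2 0 3 8 7)) (p 1 0 2 8 7))) (x 7) (s 0 (p 1
  0 5 7 8) (s 2 (w 6 1 2 (s 5 (s 1 (s 4 (s 8 (p 7 8 0 6 9) (w 9 2 0 (x 9) (p 1 0 6 9 10) (p 3 0 8
  9 10))) (p 7 5 0 4 9)) (p 7 5 0 1 9)) (s 8 (p 7 8 0 6 9) (s 1 (s 4 (w 9 2 0 (x 9) (p 1 0 6 9 10)
  (p 3 0 5 9 10)) (p 2 4 9 5 7)) (p 3 1 9 5 7)))) (x 6) (p 8 7 5 6 9)) (p 4 2 8 7 5)))) (w 6 1 2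
  (s 5 (s 1 (s 4 (w 7 2 1 (p 8 6 0 7 9) (x 7) (s 8 (p 8 6 5 7 9) (s 0 (p 1 0 6 8 9) (s 2 (w 8 2 0
  (x 8) (p 1 0 6 8 10) (p 3 0 9 8 10)) (p 4 2 9 7 5))))) (p 2 4 8 6 5)) (p 3 1 8 6 5)) (s 1 (s 4
  (w 8 2 0 (x 8) (p 1 0 6 8 9) (p 3 0 5 8 9)) (p 2 4 8 5 7)) (p 3 1 8 5 7))) (x 6) (s 1 (s 0 (w 7
  2 1 (s 8 (p 8 6 0 7 9) (p 1 0 6 8 9)) (x 7) (p 8 6 5 7 9)) (w 7 2 1 (s 5 (s 2 (s 3 (s 8 (p 8 6 5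
  7 9) (w 9 1 0 (x 9) (p 1 0 7 9 10) (p 3 0 8 9 10))) (p 1 3 9 7 5)) (p 4 2 9 7 5)) (s 2 (s 3 (s 8
  (w 8 2 3 (p 9 5 0 8 10) (p 7 5 6 8 10) (x 8)) (w 9 1 0 (x 9) (p 1 0 7 9 10) (p 3 0 5 9 10))) (p
  1 3 9 5 6)) (p 4 2 9 5 6))) (x 7) (p 8 6 5 7 9))) (p 3 1 8 6 5)))) (p 2 4 7 5 6)) (x 5)) (w 5 3
  2 (s 4 (s 1 (s 6 (p 1 3 6 5 7) (w 7 2 0 (x 7) (p 1 0 6 7 8) (p 3 0 5 7 8))) (s 6 (w 7 2 0 (x 7)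
  (p 2 0 1 7 8) (p 3 0 5 7 8)) (w 7 2 0 (x 7) (p 2 0 1 7 8) (p 3 0 5 7 8)))) (s 6 (p 2 4 7 5 6) (p
  2 4 7 6 3))) (p 1 3 6 5 7) (x 5)))) (x 5)) (w 5 3 1 (s 2 (s 3 (w 1 1 3 (p 6 5 0 1 7) (x 1) (s 2
  (s 6 (s 0 (p 6 5 0 1 7) (w 3 2 3 (p 6 5 0 3 8) (s 6 (s 4 (s 0 (p 6 5 0 3 8) (w 7 3 2 (s 5 (p 6 5
  0 7 9) (s 1 (p 1 7 9 5 2) (p 2 5 9 1 3))) (p 8 3 1 7 9) (x 7))) (p 1 3 8 4 2)) (p 1 3 8 6 5)) (x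
  3))) (p 1 7 6 5 2)) (p 3 1 7 2 4))) (p 1 3 6 5 2)) (s 3 (w 6 1 0 (x 6) (p 1 0 2 6 7) (p 3 0 5 6
  7)) (p 1 3 6 2 4))) (s 3 (s 0 (w 6 1 2 (s 1 (s 4 (s 5 (p 1 0 5 6 7) (w 4 1 3 (p 7 5 0 4 8) (p 6
  5 2 4 8) (x 4))) (p 1 0 4 7 6)) (p 2 0 1 7 6)) (x 6) (p 4 2 5 6 7)) (w 6 1 2 (s 1 (s 4 (s 5 (p 4
  2 5 6 7) (w 4 1 3 (p 7 5 0 4 8) (p 6 5 2 4 8) (x 4))) (s 5 (w 7 2 0 (x 7) (p 1 0 6 7 8) (p 3 0 4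
  7 8)) (w 7 2 0 (x 7) (p 1 0 6 7 8) (p 3 0 4 7 8)))) (s 5 (p 1 7 6 5 2) (p 2 5 7 1 3))) (x 6) (p
  4 2 5 6 7))) (p 1 3 6 5 2)) (x 5))) (s 2 (w 5 3 2 (s 1 (s 4 (w 2 2 3 (p 6 5 0 2 7) (x 2) (s 1 (s
  6 (s 0 (p 6 5 0 2 7) (w 3 2 3 (p 6 5 0 3 8) (s 4 (s 6 (p 6 5 1 3 8) (s 0 (p 2 0 3 8 6) (w 6 2 0
  (x 6) (p 1 0 8 6 9) (p 3 0 5 6 9)))) (p 1 3 8 4 2)) (x 3))) (p 1 5 6 7 2)) (p 3 1 7 2 4))) (p 1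
  5 6 4 2)) (s 4 (w 6 2 0 (x 6) (p 2 0 1 6 7) (p 3 0 5 6 7)) (p 2 4 6 1 3))) (s 4 (s 0 (w 6 2 1 (s
  2 (s 3 (s 5 (p 2 0 5 6 7) (w 3 2 3 (p 7 5 0 3 8) (p 6 5 1 3 8) (x 3))) (p 2 0 3 7 6)) (p 1 0 2 7
  6)) (x 6) (p 3 1 5 6 7)) (w 6 2 1 (s 2 (s 3 (s 5 (p 3 1 5 6 7) (w 3 2 3 (p 7 5 0 3 8) (p 6 5 1 3
  8) (x 3))) (s 5 (w 7 1 0 (x 7) (p 1 0 6 7 8) (p 4 0 3 7 8)) (w 7 1 0 (x 7) (p 1 0 6 7 8) (p 4 0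
  3 7 8)))) (s 5 (p 1 5 6 7 2) (p 1 5 7 2 4))) (x 6) (p 3 1 5 6 7))) (p 1 5 6 4 2)) (x 5)) (p 3 1
  5 2 4)))))))

lemma cert_ok : chk cert 2 (ad (ad 0 16) 32) (ad 0 33)
    (ad (ad (ad (ad (ad (ad 0 0) 64) 17) 81) 34) 82) = true := by decide +kernel

lemma core {V : Type} {A : V → V → Prop} {c : V → Fin 4} {d : V → Fin 3}
    (hs : ∀ u v, A u v → A v u)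
    (hc : ∀ u v, A u v → c u ≠ c v) (hd : ∀ u v, A u v → d u ≠ d v)
    (hf : ∀ v i, i ≠ c v → ∃ w, A v w ∧ c w = i)
    (hp : ∀ a b c d e, A a b → A b c → A c d → A d e → ¬ A a c → ¬ A a d → ¬ A a e → ¬ A b d →
      ¬ A b e → ¬ A c e → False) (v0 v1 v2 : V) (a1 : A v0 v1) (a2 : A v0 v2)
    (c0 : c v0 = 0) (c1 : c v1 = 1) (c2 : c v2 = 2) (d0 : d v0 = 0) (d1 : d v1 = 1)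
    (d2 : d v2 = 1) : False := by
  refine chk_sound hs hc hd hf hp cert (fun i => if i = 0 then v0 else if i = 1 then v1 else v2)
    2 _ _ _ (by norm_num) ?_ ?_ ?_ cert_ok
  · intro k hk
    rcases ad_bit hk with hk | rfl
    · rcases ad_bit hk with hk | rfl
      · simp at hk
      · simpa using hs _ _ a1
    · simpa using hs _ _ a2
  · intro k hk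
    rcases ad_bit hk with hk | rfl
    · simp at hk
    · simpa using fun h => hd _ _ h (d2.trans d1.symm)
  · intro k hk
    rcases ad_bit hk with hk | rfl
    rcases ad_bit hk with hk | rfl
    rcases ad_bit hk with hk | rfl
    rcases ad_bit hk with hk | rfl
    rcases ad_bit hk with hk | rfl
    rcases ad_bit hk with hk | rfl
    · simp at hk
    all_goals simp [cls, c0, c1, c2, d0, d1, d2]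

lemma core2 {V : Type} {A : V → V → Prop} {c : V → Fin 4} {d : V → Fin 3}
    (hs : ∀ u v, A u v → A v u)
    (hc : ∀ u v, A u v → c u ≠ c v) (hd : ∀ u v, A u v → d u ≠ d v)
    (hf : ∀ v i, i ≠ c v → ∃ w, A v w ∧ c w = i)
    (hp : ∀ a b c d e, A a b → A b c → A c d → A d e → ¬ A a c → ¬ A a d → ¬ A a e → ¬ A b d →
      ¬ A b e → ¬ A c e → False) (v0 v1 v2 : V) (a1 : A v0 v1) (a2 : A v0 v2)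
    (h12 : c v1 ≠ c v2) (d12 : d v1 = d v2) : False := by
  have e1 : ∀ a b e : Fin 4, a ≠ b → a ≠ e → b ≠ e →
      ∃ σ : Equiv.Perm (Fin 4), σ a = 0 ∧ σ b = 1 ∧ σ e = 2 := by decide +kernel
  have e2 : ∀ a b : Fin 3, a ≠ b → ∃ σ : Equiv.Perm (Fin 3), σ a = 0 ∧ σ b = 1 := by
    decide +kernel
  obtain ⟨σ, s0, s1, s2⟩ := e1 _ _ _ (hc _ _ a1) (hc _ _ a2) h12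
  obtain ⟨τ, t0, t1⟩ := e2 _ _ (hd _ _ a1)
  refine core (c := fun v => σ (c v)) (d := fun v => τ (d v)) hs
    (fun u v h e => hc u v h (σ.injective e)) (fun u v h e => hd u v h (τ.injective e))
    (fun v i hi => ?_) hp v0 v1 v2 a1 a2 s0 s1 s2 t0 t1 (by rw [← d12]; exact t1)
  obtain ⟨w, hw, hw'⟩ := hf v (σ.symm i) (fun e => hi (by rw [← e]; simp))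
  exact ⟨w, hw, by simp [hw']⟩

/-- The negation of the preceding statement: There is a finite nonempty graph that is 3-colourable, has no induced 5-vertex path, and has a proper 4-colouring in which every vertex has neighbours of all three colours other than its own. -/
theorem result :
    ¬ (∃ (V : Type) (_ : Fintype V) (_ : Nonempty V) (G : SimpleGraph V),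
      G.Colorable 3 ∧
      IsEmpty (SimpleGraph.pathGraph 5 ↪g G) ∧
      ∃ c : G.Coloring (Fin 4), ∀ v : V, ∀ i : Fin 4, i ≠ c v →
        ∃ w : V, G.Adj v w ∧ c w = i) := by
  rintro ⟨V, _, ⟨v⟩, G, ⟨d⟩, hP, c, hf⟩
  have hp : ∀ a b c d e, G.Adj a b → G.Adj b c → G.Adj c d → G.Adj d e → ¬ G.Adj a c →
      ¬ G.Adj a d → ¬ G.Adj a e → ¬ G.Adj b d → ¬ G.Adj b e → ¬ G.Adj c e → False := by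
    intro a b c d e h1 h2 h3 h4 h5 h6 h7 h8 h9 h10
    have hadj : ∀ i j : Fin 5, G.Adj (![a, b, c, d, e] i) (![a, b, c, d, e] j) ↔
        (SimpleGraph.pathGraph 5).Adj i j := by
      intro i j
      rw [SimpleGraph.pathGraph_adj]
      fin_cases i <;> fin_cases j <;> simp [*, G.adj_comm]
    refine hP.false ⟨⟨![a, b, c, d, e], fun i j h => ?_⟩, hadj _ _⟩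
    have : ∀ k, (SimpleGraph.pathGraph 5).Adj i k ↔ (SimpleGraph.pathGraph 5).Adj j k :=
      fun k => by rw [← hadj, ← hadj, h]
    simp only [SimpleGraph.pathGraph_adj] at this
    revert i j
    suffices ∀ i j : Fin 5, (∀ k : Fin 5, (i.val + 1 = k.val ∨ k.val + 1 = i.val) ↔
        (j.val + 1 = k.val ∨ k.val + 1 = j.val)) → i = j from fun i j _ h => this i j h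
    decide
  have key := core2 (A := G.Adj) (c := c) (d := d) (fun _ _ h => h.symm)
    (fun _ _ h => c.valid h) (fun _ _ h => d.valid h) hf hp v
  have e : ∀ a : Fin 4, a + 1 ≠ a ∧ a + 2 ≠ a ∧ a + 3 ≠ a ∧ a + 1 ≠ a + 2 ∧ a + 1 ≠ a + 3 ∧
      a + 2 ≠ a + 3 := by decide
  obtain ⟨e1, e2, e3, e4, e5, e6⟩ := e (c v)
  obtain ⟨w1, a1, c1⟩ := hf v _ e1
  obtain ⟨w2, a2, c2⟩ := hf v _ e2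
  obtain ⟨w3, a3, c3⟩ := hf v _ e3
  have e' : ∀ a x y z : Fin 3, a ≠ x → a ≠ y → a ≠ z → x = y ∨ x = z ∨ y = z := by decide
  rcases e' _ _ _ _ (d.valid a1) (d.valid a2) (d.valid a3) with h | h | h
  · exact key w1 w2 a1 a2 (by rw [c1, c2]; exact e4) h
  · exact key w1 w3 a1 a3 (by rw [c1, c3]; exact e5) h
  · exact key w2 w3 a2 a3 (by rw [c2, c3]; exact e6) h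

end Pool.Agent.S08250
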