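import Pool.Statements.S08258

set_option autoImplicit false
open Pool Pool.MP_3d7919_co

namespace Pool.Agent.S08258

def X : Fin 7 → ℤ := ![8, 11, 8, 0, 3, 10, 7]
def Y : Fin 7 → ℤ := ![8, 12, 7, 9, 8, 0, 4]

def cr (a b c : Fin 7) : ℤ := (X b - X a) * (Y c - Y a) - (Y b - Y a) * (X c - X a)

noncomputable def P (i : Fin 7) : EuclideanSpace ℝ (Fin 2) := !₂[(X i : ℝ), (Y i : ℝ)]

theorem P0 (i : Fin 7) : P i 0 = X i := rfl
theorem P1 (i : Fin 7) : P i 1 = Y i := rfl

theorem cr_ne : ∀ a b c : Fin 7, a ≠ b → b ≠ c → a ≠ c → cr a b c ≠ 0 := by decide +kernel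

theorem wit : ∀ s : Finset (Fin 7), ∑ i ∈ s, (i.val + 1) = 14 →
    ∃ a ∈ s, ∃ b ∈ s, ∃ c ∈ s, ∃ q, q ∉ s ∧ 0 < cr q b c ∧ 0 < cr a q c ∧ 0 < cr a b q := by
  decide +kernel

theorem tri {S : Set (EuclideanSpace ℝ (Fin 2))} (hS : Convex ℝ S) {a b c q : Fin 7}
    (ha : P a ∈ S) (hb : P b ∈ S) (hc : P c ∈ S) (h1 : 0 < cr q b c) (h2 : 0 < cr a q c)
    (h3 : 0 < cr a b q) : P q ∈ S := by
  have r1 : (0 : ℝ) < cr q b c := by exact_mod_cast h1
  have r2 : (0 : ℝ) < cr a q c := by exact_mod_cast h2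
  have r3 : (0 : ℝ) < cr a b q := by exact_mod_cast h3
  set D : ℝ := cr q b c + cr a q c + cr a b q with hD
  have hD0 : 0 < D := by positivity
  have := hS.sum_mem (t := Finset.univ) (w := ![cr q b c / D, cr a q c / D, cr a b q / D])
    (z := ![P a, P b, P c]) (by intro i _; fin_cases i <;> simp <;> positivity)
    (by simp only [Fin.sum_univ_three]; simp; field_simp; rfl)
    (by intro i _; fin_cases i <;> simpa)
  convert this using 1
  simp only [Fin.sum_univ_three]
  ext i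
  fin_cases i
  · simp [P0]
    field_simp
    rw [hD]; simp only [cr]; push_cast; ring
  · simp [P1]
    field_simp
    rw [hD]; simp only [cr]; push_cast; ring

/-- The negation of the preceding statement: For every n ≥ 5 and n distinct plane points with no three collinear, labelled 1..n, some subset cut out by a convex set has label sum exactly 2n. -/
theorem result :
    ¬ (∀ n : ℕ, 5 ≤ n →
      ∀ p : Fin n → EuclideanSpace ℝ (Fin 2),
        Function.Injective p →
        (∀ i j k : Fin n, i ≠ j → j ≠ k → i ≠ k →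
          ¬ Collinear ℝ ({p i, p j, p k} : Set (EuclideanSpace ℝ (Fin 2)))) →
        ∃ s : Finset (Fin n),
          (∃ S : Set (EuclideanSpace ℝ (Fin 2)), Convex ℝ S ∧ ∀ i : Fin n, p i ∈ S ↔ i ∈ s) ∧
          ∑ i ∈ s, (i.val + 1) = 2 * n) := by
  intro H
  obtain ⟨s, ⟨S, hS, hs⟩, hw⟩ := H 7 (by norm_num) P
    (fun i j h => by
      have h0 : (X i : ℝ) = X j := by rw [← P0, ← P0, h]
      have h1 : (Y i : ℝ) = Y j := by rw [← P1, ← P1, h]
      have : ∀ i j : Fin 7, X i = X j → Y i = Y j → i = j := by decide +kernel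
      exact this i j (by exact_mod_cast h0) (by exact_mod_cast h1))
    (fun i j k hij hjk hik h => by
      obtain ⟨v, hv⟩ := (collinear_iff_of_mem (p₀ := P i) (by simp)).1 h
      obtain ⟨r, hr⟩ := hv (P j) (by simp)
      obtain ⟨t, ht⟩ := hv (P k) (by simp)
      have a0 : (X j : ℝ) = r * v 0 + X i := by rw [← P0, hr]; simp [P0]
      have a1 : (Y j : ℝ) = r * v 1 + Y i := by rw [← P1, hr]; simp [P1]
      have b0 : (X k : ℝ) = t * v 0 + X i := by rw [← P0, ht]; simp [P0]
      have b1 : (Y k : ℝ) = t * v 1 + Y i := by rw [← P1, ht]; simp [P1]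
      apply cr_ne i j k hij hjk hik
      have : (cr i j k : ℝ) = 0 := by
        simp only [cr]; push_cast
        rw [a0, a1, b0, b1]; ring
      exact_mod_cast this)
  obtain ⟨a, ha, b, hb, c, hc, q, hq, h1, h2, h3⟩ := wit s hw
  exact hq ((hs q).1 (tri hS ((hs a).2 ha) ((hs b).2 hb) ((hs c).2 hc) h1 h2 h3))

end Pool.Agent.S08258
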