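import Pool.Statements.S08274
import Pool.Agent.H21.UM
import Pool.Agent.H21.FREx

set_option autoImplicit false
open Matrix
open Pool Pool.MP_3e2ec7_co

namespace Pool.Agent.S08274

open H21 H21.UM

def G : SimpleGraph (Fin 4 → F) where
  Adj x y := y - x ∈ C
  symm := ⟨fun x y h => by simpa using C_neg _ h⟩
  loopless := ⟨fun x h => C_zero (by simpa using h)⟩

instance : DecidableRel G.Adj := fun x y => inferInstanceAs (Decidable (y - x ∈ C))

noncomputable def ev (y x : Fin 4 → F) : ℂ := χ (∑ j, x j * y j)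
noncomputable def lm (y : Fin 4 → F) : ℂ :=
  5 * (N (y 0) (y 1) (y 2) (y 3) : ℂ) - 18 + (χ (y 0) + χ (- y 0))

theorem eig (y : Fin 4 → F) : G.adjMatrix ℂ *ᵥ ev y = lm y • ev y := by
  ext x
  have h := lam y
  simp only [chi_eq] at h
  rw [Pi.smul_apply, smul_eq_mul, lm, ← h, Finset.sum_mul, SimpleGraph.adjMatrix_mulVec_apply]
  refine Finset.sum_bij' (fun z _ => z - x) (fun c _ => c + x) (fun z hz => ?_) (fun c hc => ?_)
    (by simp) (by simp) fun z _ => ?_
  · exact (G.mem_neighborFinset _ _).mp hz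
  · exact (G.mem_neighborFinset _ _).mpr (by simpa [G] using hc)
  · rw [ev, ev, ← AddChar.map_add_eq_mul, ← Finset.sum_add_distrib]
    simp [sub_mul]

theorem orth (w : Fin 4 → F) : ∑ y : Fin 4 → F, ev y w = if w = 0 then 625 else 0 := by
  have : ∀ y, ev y w = ∏ j, χ (y j * w j) := fun y => by
    simp only [ev, Fin.sum_univ_four, Fin.prod_univ_four, AddChar.map_add_eq_mul, mul_comm]
  simp only [this]
  rw [← Fintype.piFinset_univ, ← Finset.prod_univ_sum (fun _ => Finset.univ)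
    fun j a => χ (a * w j)]
  simp only [chi_sum]
  split_ifs with h
  · subst h; norm_num
  · obtain ⟨j, hj⟩ := Function.ne_iff.mp h
    exact Finset.prod_eq_zero (Finset.mem_univ j) (if_neg hj)

noncomputable def U : Matrix (Fin 4 → F) (Fin 4 → F) ℂ :=
  NormedSpace.exp ((Complex.I * ((-(2 * Real.pi / 25) : ℝ) : ℂ)) • G.adjMatrix ℂ)

theorem U_ev (y : Fin 4 → F) : U *ᵥ ev y =
    Complex.exp (-(Complex.I * ((2 * Real.pi / 25 : ℝ) : ℂ) * lm y)) • ev y := by
  rw [U, FREx.exp_mulVec _ _ _ (by rw [smul_mulVec, eig, smul_smul])]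
  congr 2; push_cast; ring

theorem flat (a b : Fin 4 → F) : ‖U a b‖ = 1 / 25 := by
  have e : (625 : ℂ) • (Pi.single b 1 : (Fin 4 → F) → ℂ) = ∑ y, ev y (-b) • ev y := by
    ext x
    have := orth (x - b)
    simp only [sub_eq_zero] at this
    rw [Finset.sum_apply, Pi.smul_apply, Pi.single_apply, smul_eq_mul, mul_ite, mul_one, mul_zero,
      ← this]
    refine Finset.sum_congr rfl fun y _ => ?_
    rw [Pi.smul_apply, smul_eq_mul, ev, ev, ev, ← AddChar.map_add_eq_mul, ← Finset.sum_add_distrib]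
    congr 2; ext j; simp; ring
  have h := congrFun (congrArg (U *ᵥ ·) e) a
  simp only [mulVec_smul, mulVec_sum, U_ev, mulVec_single_one, Finset.sum_apply, Pi.smul_apply,
    smul_eq_mul, lm, phase, col_apply] at h
  have m := main (a - b)
  rw [Finset.sum_congr rfl fun y _ => ?_, ← h, norm_mul] at m
  · simp at m; linarith
  · rw [mul_left_comm, ev, ev, ← AddChar.map_add_eq_mul, ← Finset.sum_add_distrib]
    congr 3; ext j; simp; ring

/-- The negation of the preceding statement: For every finite simple graph and real time τ, if all entries of exp(iτA) have equal absolute value, then every eigenvalue of exp(iτA) is a root of unity. -/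
theorem result :
    ¬ (∀ (V : Type) [Fintype V] [DecidableEq V] (G : SimpleGraph V) [DecidableRel G.Adj] (τ : ℝ),
      (∀ a b c d : V,
        ‖(NormedSpace.exp ((Complex.I * (τ : ℂ)) • G.adjMatrix ℂ)) a b‖ =
          ‖(NormedSpace.exp ((Complex.I * (τ : ℂ)) • G.adjMatrix ℂ)) c d‖) →
      ∀ μ : ℂ, (∃ v : V → ℂ, v ≠ 0 ∧
          (NormedSpace.exp ((Complex.I * (τ : ℂ)) • G.adjMatrix ℂ)) *ᵥ v = μ • v) →
        ∃ k : ℕ, 0 < k ∧ μ ^ k = 1) := by
  intro h
  obtain ⟨k, hk, h⟩ := h _ G _ (fun a b c d => (flat a b).trans (flat c d).symm) _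
    ⟨ev ![1, 0, 0, 0], fun e => by simpa [ev] using congrFun e 0, U_ev _⟩
  rw [← Complex.exp_nat_mul, Complex.exp_eq_one_iff] at h
  obtain ⟨n, h⟩ := h
  have h4 := chi_four 1
  rw [if_neg (by decide)] at h4
  have e1 : χ (2 * 1) = χ 1 * χ 1 := by rw [← AddChar.map_add_eq_mul]; rfl
  have e2 : χ (3 * 1) = χ (-1) * χ (-1) := by rw [← AddChar.map_add_eq_mul]; rfl
  have e3 : χ (4 * 1) = χ (-1) := rfl
  have e4 : χ 1 * χ (-1) = 1 := by rw [← AddChar.map_add_eq_mul]; simp
  rw [e1, e2, e3] at h4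
  have h5 : (k : ℂ) * (5 * (N 1 0 0 0 : ℂ) - 18 + (χ 1 + χ (-1))) = -25 * n := by
    apply mul_left_cancel₀ Complex.two_pi_I_ne_zero
    change (k : ℂ) * -(_ * (5 * (N 1 0 0 0 : ℂ) - 18 + (χ 1 + χ (-1)))) = _ at h
    push_cast at h
    linear_combination -25 * h
  have h6 : ((2 * (-25 * n - k * (5 * N 1 0 0 0 - 18)) + k : ℤ) : ℂ) ^ 2 = 5 * k ^ 2 := by
    push_cast
    rw [← h5]
    linear_combination 4 * k ^ 2 * (h4 + 2 * e4)
  have h7 : IsSquare (5 : ℚ) := ⟨((2 * (-25 * n - k * (5 * N 1 0 0 0 - 18)) + k : ℤ) : ℚ) / k, by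
    have h8 : ((2 * (-25 * n - k * (5 * N 1 0 0 0 - 18)) + k : ℤ) : ℚ) ^ 2 = 5 * k ^ 2 := by
      exact_mod_cast h6
    have : (k : ℚ) ≠ 0 := by positivity
    rw [div_mul_div_comm, ← sq, h8]; field_simp⟩
  revert h7; norm_num

end Pool.Agent.S08274
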