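import Pool.Statements.S08283
import Pool.Agent.H19.Irred

set_option autoImplicit false
open Pool Pool.MP_3e8e5c_co

namespace Pool.Agent.S08283

/-- There is a finite simple graph with at least one edge such that deleting any single edge strictly lowers the lower irredundance number (the least size of a maximal irredundant vertex set). -/
theorem result :
    ∃ n : ℕ, ∃ G : SimpleGraph (Fin n), G.edgeSet.Nonempty ∧
      ∀ e ∈ G.edgeSet,
        sInf {k : ℕ | ∃ S : Finset (Fin n),
            Maximal (fun T : Finset (Fin n) => ∀ v ∈ T, ∃ w : Fin n,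
                (w = v ∨ (G.deleteEdges {e}).Adj v w) ∧
                ∀ u ∈ T, u ≠ v → ¬ (w = u ∨ (G.deleteEdges {e}).Adj u w)) S ∧
            S.card = k}
          <
        sInf {k : ℕ | ∃ S : Finset (Fin n),
            Maximal (fun T : Finset (Fin n) => ∀ v ∈ T, ∃ w : Fin n,
                (w = v ∨ G.Adj v w) ∧
                ∀ u ∈ T, u ≠ v → ¬ (w = u ∨ G.Adj u w)) S ∧
            S.card = k} := by
  refine ⟨18, H19.Irr.G, ⟨s(0, 8), by
    rw [SimpleGraph.mem_edgeSet]
    decide +kernel⟩, fun e he => ?_⟩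
  obtain ⟨S, h1, h2⟩ := H19.Irr.upper e he
  refine lt_of_le_of_lt (Nat.sInf_le (m := 5) ⟨S, h1, h2⟩) ?_
  have hne : {k : ℕ | ∃ S : Finset (Fin 18), Maximal (H19.Irr.P H19.Irr.G.Adj) S ∧
      S.card = k}.Nonempty := ⟨_, _, H19.Irr.ex0, rfl⟩
  obtain ⟨T, h3, h4⟩ := Nat.sInf_mem hne
  have := H19.Irr.lower T h3
  rw [h4] at this
  exact this

end Pool.Agent.S08283
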