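import Pool.Statements.S08294
import Pool.Agent.H31.Chrom

set_option autoImplicit false
open Pool Pool.MP_3ee535_co

namespace Pool.Agent.S08294

open Pool.Agent.H31.Chrom

/-- triangle with 3, 4, 4 pendant leaves -/
def E1 : List (Fin 14 × Fin 14) :=
  [(0,3),(0,4),(0,5),(1,6),(1,7),(1,8),(1,9),(2,10),(2,11),(2,12),(2,13),(0,1),(1,2),(0,2)]

/-- five-cycle with 1, 1, 1, 2, 2 pendant branches, two of them of length two -/
def E2 : List (Fin 14 × Fin 14) :=
  [(5,12),(6,13),(0,5),(1,6),(2,7),(3,8),(3,9),(4,10),(4,11),(0,1),(1,2),(2,3),(3,4),(0,4)]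

theorem hE1 : ∀ e ∈ E1, e.1 ≠ e.2 := by decide +kernel
theorem hE2 : ∀ e ∈ E2, e.1 ≠ e.2 := by decide +kernel

def norm : List ℤ → List ℤ
  | [] => []
  | a :: p => if a = 0 ∧ norm p = [] then [] else a :: norm p

theorem pEval_norm (t : ℚ) : ∀ p : List ℤ, pEval t (norm p) = pEval t p
  | [] => rfl
  | a :: p => by
      have ih := pEval_norm t p
      simp only [norm]
      split_ifs with h
      · rw [h.2] at ih
        simp only [pEval] at ih ⊢
        rw [← ih, h.1]; simp
      · simp only [pEval, ih]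

theorem polyeq :
    norm (pSum ((List.finRange 14).map (fun v => chrom 29 (twin E1 v)))) =
      norm (pSum ((List.finRange 14).map (fun v => chrom 29 (twin E2 v)))) := by
  decide +kernel

theorem sum_twin (E : List (Fin 14 × Fin 14)) (hl : E.length = 14) {k : ℕ} (hk : 0 < k) :
    ((∑ v : Fin 14, cnt k (twin E v) : ℕ) : ℚ) =
      (k : ℚ) ^ 15 * pEval (1 / (k : ℚ))
        (norm (pSum ((List.finRange 14).map (fun v => chrom 29 (twin E v))))) := by
  rw [pEval_norm, pEval_sum, List.map_map, ← Fin.sum_univ_def, Finset.mul_sum]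
  push_cast
  apply Finset.sum_congr rfl
  intro v _
  rw [chrom_correct hk 29 (twin E v)]
  · simp
  · simp [twin, List.length_flatMap, hl]

theorem pairs_eq (k : ℕ) :
    ∑ v : Fin 14, cnt k (twin E1 v) = ∑ v : Fin 14, cnt k (twin E2 v) := by
  rcases Nat.eq_zero_or_pos k with rfl | hk
  · simp [cnt]
  · have h1 := sum_twin E1 rfl hk
    have h2 := sum_twin E2 rfl hk
    rw [polyeq, ← h2] at h1
    exact_mod_cast h1

theorem c1 : pEval (1 / ((3 : ℕ) : ℚ)) (chrom 14 E1) ≠ pEval (1 / ((3 : ℕ) : ℚ)) (chrom 14 E2) := by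
  decide +kernel


/-- The negation of the preceding statement: For finite graphs G1, G2: if for every k their k-colouring graphs have equally many edges (counted as ordered pairs of proper colourings differing at exactly one vertex), then for every k they have equally many proper k-colourings. -/
theorem result :
    ¬ (∀ (n m : ℕ) (G₁ : SimpleGraph (Fin n)) (G₂ : SimpleGraph (Fin m)),
      (∀ k : ℕ,
        Nat.card {p : G₁.Coloring (Fin k) × G₁.Coloring (Fin k) //
            Nat.card {v : Fin n // p.1 v ≠ p.2 v} = 1} =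
          Nat.card {p : G₂.Coloring (Fin k) × G₂.Coloring (Fin k) //
            Nat.card {v : Fin m // p.1 v ≠ p.2 v} = 1}) →
      ∀ k : ℕ, Nat.card (G₁.Coloring (Fin k)) = Nat.card (G₂.Coloring (Fin k))) := by
  intro h
  have h3 := h 14 14 (gr E1) (gr E2)
    (fun k => by rw [card_pairs k E1 hE1, card_pairs k E2 hE2, pairs_eq]) 3
  rw [card_col 3 E1 hE1, card_col 3 E2 hE2] at h3
  have a1 := chrom_correct (k := 3) (by norm_num) 14 E1 le_rfl
  have a2 := chrom_correct (k := 3) (by norm_num) 14 E2 le_rfl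
  rw [h3, a2] at a1
  exact c1 (mul_left_cancel₀ (by positivity) a1).symm

end Pool.Agent.S08294
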