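import Pool.Statements.S08318

set_option autoImplicit false
open Pool Pool.MP_3fd808_co

namespace Pool.Agent.S08318

def col : Fin 6 → Fin 6 → ℕ :=
  ![![4, 0, 3, 2, 4, 4],
    ![4, 4, 1, 3, 2, 4],
    ![4, 4, 4, 2, 3, 2],
    ![4, 4, 4, 4, 0, 3],
    ![0, 4, 4, 4, 4, 1],
    ![2, 1, 4, 4, 4, 4]]

def RR : Fin 4 → Fin 6 → Fin 6 → ℕ :=
  ![![![0, 1, 0, 0, 0, 0], ![0, 0, 0, 0, 0, 0], ![0, 0, 0, 0, 0, 0], ![1, 1, 0, 0, 1, 0], ![1, 1, 0, 0, 0, 0], ![0, 0, 0, 0, 0, 0]],
    ![![0, 0, 0, 0, 0, 0], ![0, 0, 1, 0, 0, 0], ![0, 0, 0, 0, 0, 0], ![0, 0, 0, 0, 0, 0], ![0, 1, 1, 0, 0, 1], ![0, 1, 1, 0, 0, 0]],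
    ![![0, 0, 0, 1, 0, 0], ![0, 0, 0, 0, 1, 0], ![1, 0, 0, 1, 0, 1], ![0, 0, 0, 0, 0, 0], ![0, 0, 0, 0, 0, 0], ![1, 0, 0, 1, 0, 0]],
    ![![0, 0, 1, 0, 1, 0], ![0, 0, 0, 1, 0, 1], ![0, 0, 0, 0, 1, 0], ![0, 0, 0, 0, 0, 1], ![0, 0, 0, 0, 0, 0], ![0, 0, 0, 0, 0, 0]]]

lemma h3 : ∀ a b c : Fin 6, col a b < 4 → col b c < 4 → col c a < 4 →
    col a b = col b c ∨ col a b = col c a ∨ col b c = col c a := by decide +kernel

lemma h4 : ∀ a b c d : Fin 6, col a b < 4 → col b c < 4 → col c d < 4 → col d a < 4 →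
    col a b = col b c ∨ col a b = col c d ∨ col a b = col d a ∨ col b c = col c d ∨
      col b c = col d a ∨ col c d = col d a := by decide +kernel

lemma r1 : ∀ (a : Fin 4) (x y : Fin 6), col x y = a → RR a x y = 1 := by decide +kernel

lemma r2 : ∀ (a : Fin 4) (x y z : Fin 6), RR a x y = 1 → col y z = a → RR a x z = 1 := by
  decide +kernel

lemma r3 : ∀ (a : Fin 4) (x : Fin 6), RR a x (x - 1) ≠ 1 := by decide +kernel

/-- The negation of the preceding statement: Every nonempty finite tournament with arcs coloured by naturals has a directed cycle whose arcs all have distinct colours, or a vertex from which every other vertex is reachable by a one-colour directed path. -/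
theorem result :
    ¬ (∀ (V : Type) [Fintype V] [Nonempty V] (adj : V → V → Prop) (c : V → V → ℕ),
      (∀ x y : V, adj x y → ¬ adj y x) →
      (∀ x y : V, x ≠ y → adj x y ∨ adj y x) →
      (∃ (k : ℕ) (f : ℕ → V), 3 ≤ k ∧
          (∀ i j : ℕ, i < k → j < k → f i = f j → i = j) ∧
          (∀ i : ℕ, i < k → adj (f i) (f ((i + 1) % k))) ∧
          (∀ i j : ℕ, i < k → j < k →
            c (f i) (f ((i + 1) % k)) = c (f j) (f ((j + 1) % k)) → i = j)) ∨
      (∃ v : V, ∀ w : V, w ≠ v →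
          ∃ a : ℕ, Relation.TransGen (fun x y : V => adj x y ∧ c x y = a) v w)) := by
  intro h
  rcases h (Fin 6) (fun x y => col x y < 4) col (by decide +kernel) (by decide +kernel) with
    ⟨k, f, hk, -, h1, h2⟩ | ⟨v, hv⟩
  · rcases (by omega : k = 3 ∨ k = 4 ∨ 5 ≤ k) with rfl | rfl | hk5
    · have := h3 (f 0) (f 1) (f 2) (h1 0 (by omega)) (h1 1 (by omega)) (h1 2 (by omega))
      rcases this with e | e | e
      · exact absurd (h2 0 1 (by omega) (by omega) e) (by omega)
      · exact absurd (h2 0 2 (by omega) (by omega) e) (by omega)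
      · exact absurd (h2 1 2 (by omega) (by omega) e) (by omega)
    · have := h4 (f 0) (f 1) (f 2) (f 3) (h1 0 (by omega)) (h1 1 (by omega)) (h1 2 (by omega))
        (h1 3 (by omega))
      rcases this with e | e | e | e | e | e
      · exact absurd (h2 0 1 (by omega) (by omega) e) (by omega)
      · exact absurd (h2 0 2 (by omega) (by omega) e) (by omega)
      · exact absurd (h2 0 3 (by omega) (by omega) e) (by omega)
      · exact absurd (h2 1 2 (by omega) (by omega) e) (by omega)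
      · exact absurd (h2 1 3 (by omega) (by omega) e) (by omega)
      · exact absurd (h2 2 3 (by omega) (by omega) e) (by omega)
    · let g : Fin 5 → Fin 4 := fun i => ⟨col (f i) (f ((i + 1) % k)), h1 i (by omega)⟩
      have : Function.Injective g := fun i j e =>
        Fin.ext (h2 i j (by omega) (by omega) (congrArg Fin.val e))
      simpa using Fintype.card_le_of_injective g this
  · obtain ⟨a, ha⟩ := hv (v - 1) ((by decide : ∀ v : Fin 6, v - 1 ≠ v) v)
    have key : ∀ w, Relation.TransGen (fun x y : Fin 6 => col x y < 4 ∧ col x y = a) v w →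
        ∃ b : Fin 4, (b : ℕ) = a ∧ RR b v w = 1 := by
      intro w hw
      induction hw with
      | single h => exact ⟨⟨a, h.2 ▸ h.1⟩, rfl, r1 _ _ _ h.2⟩
      | tail _ h ih =>
        obtain ⟨b, e, hb⟩ := ih
        exact ⟨b, e, r2 _ _ _ _ hb (h.2.trans e.symm)⟩
    obtain ⟨b, -, hb⟩ := key _ ha
    exact r3 b v hb

end Pool.Agent.S08318
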