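import Pool.Statements.S08323
import Pool.Agent.H33.Diag2

set_option autoImplicit false
open Pool Pool.MP_400a6b_co

namespace Pool.Agent.S08323

/-- For every F ∈ ℚ⟦x⟧ with all coefficients ≥ 0 that is algebraic over ℚ[x] (nonzero p ∈ ℚ[x][T] with p(F)=0), there is a bivariate rational power series R = P/Q (Q(0)≠0) with all Taylor coefficients ≥ 0 whose diagonal coefficients [x^n y^n]R equal [x^n]F. -/
theorem result :
    ∀ F : PowerSeries ℚ,
      (∀ n : ℕ, 0 ≤ PowerSeries.coeff n F) →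
      (∃ p : Polynomial (Polynomial ℚ), p ≠ 0 ∧
          Polynomial.eval₂ Polynomial.coeToPowerSeries.ringHom F p = 0) →
      ∃ R : MvPowerSeries (Fin 2) ℚ,
        (∃ P Q : MvPolynomial (Fin 2) ℚ,
            MvPolynomial.constantCoeff Q ≠ 0 ∧
            R * (Q : MvPowerSeries (Fin 2) ℚ) = (P : MvPowerSeries (Fin 2) ℚ)) ∧
        (∀ m : Fin 2 →₀ ℕ, 0 ≤ MvPowerSeries.coeff m R) ∧
        (∀ n : ℕ, MvPowerSeries.coeff (Finsupp.single 0 n + Finsupp.single 1 n) R
            = PowerSeries.coeff n F) := by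
  intro F hF h
  obtain ⟨R, ⟨_, ⟨P, rfl⟩, _, ⟨Q, rfl⟩, h1, h2⟩, h3, h4⟩ := Pool.Agent.H33.Diag.main F hF h
  refine ⟨R, ⟨P, Q, ?_, h2⟩, h3, h4⟩
  simp only [MvPolynomial.coeToMvPowerSeries.ringHom_apply] at h1
  rw [← MvPowerSeries.coeff_zero_eq_constantCoeff_apply, MvPolynomial.coeff_coe] at h1
  exact h1

end Pool.Agent.S08323
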