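import Pool.Statements.S08353
import Pool.Agent.H13.K

set_option autoImplicit false
open Pool Pool.MP_4150d6_co

namespace Pool.Agent.S08353

/-- part of the vertex: parts {0,1}, {2,3}, {4,5,6}. -/
def part (v : Fin 7) : ℕ := if v.val < 2 then 0 else if v.val < 4 then 1 else 2

/-- The complete tripartite graph K(2,2,3). -/
def G : SimpleGraph (Fin 7) where
  Adj a b := part a ≠ part b
  symm := ⟨fun _ _ h => h.symm⟩
  loopless := ⟨fun _ h => h rfl⟩

instance : DecidableRel G.Adj := fun a b => inferInstanceAs (Decidable (part a ≠ part b))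

def lab : Fin 7 → ZMod 16 := ![0, 1, 2, 9, 5, 11, 15]

open Pool.Agent.H13

noncomputable def chk3 (a1 a2 b1 b2 g : ℕ) : Bool :=
  allBelow 16 fun c1 => allBelow 16 fun c2 => allBelow 16 fun c3 =>
    iff' (Nat.beq g (Nat.add (Nat.add (Nat.pow 2 c1) (Nat.pow 2 c2)) (Nat.pow 2 c3)))
      (!(decide ([a1, a2, b1, b2, c1, c2, c3].Nodup))) true

noncomputable def chk : Bool :=
  allBelow 16 fun a1 => allBelow 16 fun a2 => force (2 ^ a1 + 2 ^ a2) fun al =>
  allBelow 16 fun b1 => allBelow 16 fun b2 => force (2 ^ b1 + 2 ^ b2) fun be =>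
  force (Nat.mul al be) fun p => force (Nat.add al be) fun s => allBelow 16 fun m =>
    iff' (Nat.beq (Nat.mod (Nat.sub (Nat.shiftLeft 65535 m) p) s) 0)
      (force (Nat.div (Nat.sub (Nat.shiftLeft 65535 m) p) s) fun g =>
        orr (Nat.beq g 0) (orr (Nat.ble 98305 g) (orr (!(decide ([a1, a2, b1, b2].Nodup)))
          (chk3 a1 a2 b1 b2 g)))) true

theorem chk_true : chk = true := by decide +kernel

theorem no_sol (a1 a2 b1 b2 c1 c2 c3 m : ℕ) (h1 : a1 < 16) (h2 : a2 < 16) (h3 : b1 < 16)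
    (h4 : b2 < 16) (h5 : c1 < 16) (h6 : c2 < 16) (h7 : c3 < 16) (hm : m < 16)
    (hnd : [a1, a2, b1, b2, c1, c2, c3].Nodup)
    (h : (2 ^ a1 + 2 ^ a2) * (2 ^ b1 + 2 ^ b2) +
      ((2 ^ a1 + 2 ^ a2) + (2 ^ b1 + 2 ^ b2)) * (2 ^ c1 + 2 ^ c2 + 2 ^ c3) = 65535 * 2 ^ m) :
    False := by
  have H := chk_true
  simp only [chk, allBelow_iff, force_eq] at H
  have H1 := H a1 h1 a2 h2 b1 h3 b2 h4 m hm
  have e : Nat.sub (Nat.shiftLeft 65535 m) (Nat.mul (2 ^ a1 + 2 ^ a2) (2 ^ b1 + 2 ^ b2)) =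
      ((2 ^ a1 + 2 ^ a2) + (2 ^ b1 + 2 ^ b2)) * (2 ^ c1 + 2 ^ c2 + 2 ^ c3) := by
    show 65535 <<< m - (2 ^ a1 + 2 ^ a2) * (2 ^ b1 + 2 ^ b2) = _
    rw [Nat.shiftLeft_eq]; omega
  have e1 : Nat.mod (((2 ^ a1 + 2 ^ a2) + (2 ^ b1 + 2 ^ b2)) * (2 ^ c1 + 2 ^ c2 + 2 ^ c3))
      (Nat.add (2 ^ a1 + 2 ^ a2) (2 ^ b1 + 2 ^ b2)) = 0 := Nat.mul_mod_right _ _
  have e2 : Nat.div (((2 ^ a1 + 2 ^ a2) + (2 ^ b1 + 2 ^ b2)) * (2 ^ c1 + 2 ^ c2 + 2 ^ c3))
      (Nat.add (2 ^ a1 + 2 ^ a2) (2 ^ b1 + 2 ^ b2)) = 2 ^ c1 + 2 ^ c2 + 2 ^ c3 :=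
    Nat.mul_div_cancel_left _ (show 0 < (2 ^ a1 + 2 ^ a2) + (2 ^ b1 + 2 ^ b2) by positivity)
  rw [e, e1, e2] at H1
  have e3 : Nat.beq (2 ^ c1 + 2 ^ c2 + 2 ^ c3) 0 = false := by
    rw [Bool.eq_false_iff, Ne, Nat.beq_eq]; positivity
  have e4 : Nat.ble 98305 (2 ^ c1 + 2 ^ c2 + 2 ^ c3) = false := by
    rw [Bool.eq_false_iff, Ne, Nat.ble_eq]
    have q1 : 2 ^ c1 ≤ 2 ^ 15 := Nat.pow_le_pow_right (by norm_num) (by omega)
    have q2 : 2 ^ c2 ≤ 2 ^ 15 := Nat.pow_le_pow_right (by norm_num) (by omega)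
    have q3 : 2 ^ c3 ≤ 2 ^ 15 := Nat.pow_le_pow_right (by norm_num) (by omega)
    omega
  have e5 : [a1, a2, b1, b2].Nodup :=
    List.Nodup.of_append_left (l₁ := [a1, a2, b1, b2]) (l₂ := [c1, c2, c3]) hnd
  simp only [Nat.beq_refl, iff'_eq, if_true, orr_eq, e3, e4, e5, decide_true, Bool.not_true,
    Bool.false_or, chk3, allBelow_iff] at H1
  have H2 := H1 c1 h5 c2 h6 c3 h7
  have e6 : Nat.beq (2 ^ c1 + 2 ^ c2 + 2 ^ c3)
      (Nat.add (Nat.add (Nat.pow 2 c1) (Nat.pow 2 c2)) (Nat.pow 2 c3)) = true := Nat.beq_refl _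
  simp only [e6, iff'_eq, if_true, Bool.not_true, hnd, decide_true] at H2
  exact absurd H2 (by decide)

def el : List (Fin 7 × Fin 7) :=
  [(0, 2), (0, 3), (1, 2), (1, 3), (0, 4), (0, 5), (0, 6), (1, 4), (1, 5), (1, 6),
   (2, 4), (2, 5), (2, 6), (3, 4), (3, 5), (3, 6)]

theorem card_edges : Nat.card G.edgeSet = 16 := by
  rw [Nat.card_eq_fintype_card, ← SimpleGraph.edgeFinset_card]
  decide +kernel

/-- Some finite simple graph with q ≥ 1 edges is harmonious (vertex labels in Z_q, injective except one repeat allowed for trees, distinct edge sums mod q) but has no sequential labeling (injective labels in 0..q−1, or 0..q for trees, with edge sums exactly q consecutive integers). -/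
theorem result :
    ∃ (n : ℕ) (G : SimpleGraph (Fin n)) (q : ℕ),
      Nat.card G.edgeSet = q ∧ 1 ≤ q ∧
      (∃ f : Fin n → ZMod q,
        (Function.Injective f ∨ (G.IsTree ∧ Function.Surjective f)) ∧
        ∀ a b c d : Fin n, G.Adj a b → G.Adj c d →
          f a + f b = f c + f d → s(a, b) = s(c, d)) ∧
      ¬ (∃ (f : Fin n → ℕ) (m : ℕ),
          Function.Injective f ∧
          ((∀ v, f v < q) ∨ (G.IsTree ∧ ∀ v, f v ≤ q)) ∧
          (∀ a b : Fin n, G.Adj a b → m ≤ f a + f b ∧ f a + f b < m + q) ∧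
          ∀ a b c d : Fin n, G.Adj a b → G.Adj c d →
            f a + f b = f c + f d → s(a, b) = s(c, d)) := by
  refine ⟨7, G, 16, card_edges, by norm_num, ⟨lab, Or.inl (by decide), by decide +kernel⟩, ?_⟩
  rintro ⟨f, m, hinj, hlt, hwin, hd⟩
  have hlt' : ∀ v, f v < 16 := by
    rcases hlt with h | ⟨hT, -⟩
    · exact h
    · exfalso
      have := hT.card_edgeFinset
      rw [SimpleGraph.edgeFinset_card, ← Nat.card_eq_fintype_card, card_edges] at this
      simp at this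
  let L : List ℕ := el.map fun e => f e.1 + f e.2
  have hadj : ∀ e ∈ el, G.Adj e.1 e.2 := by decide
  have hinj2 : ∀ e ∈ el, ∀ e' ∈ el, s(e.1, e.2) = s(e'.1, e'.2) → e = e' := by decide +kernel
  have hnd : L.Nodup := by
    refine List.Nodup.map_on ?_ (by decide)
    intro e he e' he' h
    exact hinj2 e he e' he' (hd _ _ _ _ (hadj e he) (hadj e' he') h)
  have hsub : L.toFinset ⊆ Finset.Ico m (m + 16) := by
    intro x hx
    rw [List.mem_toFinset] at hx
    obtain ⟨e, he, rfl⟩ := List.mem_map.1 hx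
    exact Finset.mem_Ico.2 (hwin _ _ (hadj e he))
  have heq : L.toFinset = Finset.Ico m (m + 16) := by
    refine Finset.eq_of_subset_of_card_le hsub ?_
    rw [List.toFinset_card_of_nodup hnd]
    simp [L, el]
  have hm : m < 16 := by
    have : m + 15 ∈ L.toFinset := by rw [heq]; simp
    rw [List.mem_toFinset] at this
    obtain ⟨e, he, h⟩ := List.mem_map.1 this
    have := hlt' e.1
    have := hlt' e.2
    omega
  have hsum : (L.map fun x => 2 ^ x).sum = 65535 * 2 ^ m := by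
    rw [← List.sum_toFinset _ hnd, heq, Finset.sum_Ico_eq_sum_range]
    simp only [Nat.add_sub_cancel_left, pow_add, ← Finset.mul_sum]
    rw [mul_comm]
    congr 1
  refine no_sol (f 0) (f 1) (f 2) (f 3) (f 4) (f 5) (f 6) m (hlt' _) (hlt' _) (hlt' _) (hlt' _)
    (hlt' _) (hlt' _) (hlt' _) hm ?_ ?_
  · exact List.Nodup.map hinj (l := [0, 1, 2, 3, 4, 5, 6]) (by decide)
  · rw [← hsum]
    simp only [L, el, List.map_cons, List.map_nil, List.sum_cons, List.sum_nil, pow_add]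
    ring

end Pool.Agent.S08353
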