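import Pool.Statements.S08412

set_option autoImplicit false
open MeasureTheory
open Pool Pool.MP_436c60_co

namespace Pool.Agent.S08412

open Set

/-- Small parts of the island values: three agents, twelve islands. -/
def v (i : Fin 3) (j : Fin 12) : ℕ :=
  ![![1, 16, 23, 26, 4, 10, 12, 19, 9, 0, 0, 0],
    ![1, 16, 22, 26, 4, 9, 13, 20, 9, 0, 0, 0],
    ![1, 15, 23, 25, 4, 10, 13, 20, 9, 0, 0, 0]] i j

/-- The partitions witnessing the maximin shares. -/
def P (i : Fin 3) (p : Fin 3) (l : Fin 4) : Fin 12 :=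
  ![![![0, 1, 2, 9], ![3, 4, 5, 10], ![6, 7, 8, 11]],
    ![![0, 3, 6, 9], ![1, 4, 7, 10], ![2, 5, 8, 11]],
    ![![1, 3, 9, 10], ![2, 4, 6, 11], ![0, 5, 7, 8]]] i p l

theorem v_le : ∀ i j, v i j ≤ 30 := by decide

theorem P_ne : ∀ i p p' l l', p ≠ p' → P i p l ≠ P i p' l' := by decide

theorem P_val : ∀ i p, 160 ≤ ∑ j : Fin 12, if ∃ l, P i p l = j then 30 + v i j else 0 := by
  decide

def s (i : Fin 3) (a : Fin 3) (n : ℕ) : ℕ := if a = i then n else 0

theorem fin_check : ∀ a0 a1 a2 a3 a4 a5 a6 a7 a8 : Fin 3,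
    ¬ (40 ≤ s 0 a0 1 + s 0 a1 16 + s 0 a2 23 + s 0 a3 26 + s 0 a4 4 + s 0 a5 10 + s 0 a6 12
          + s 0 a7 19 + s 0 a8 9 ∧
       40 ≤ s 1 a0 1 + s 1 a1 16 + s 1 a2 22 + s 1 a3 26 + s 1 a4 4 + s 1 a5 9 + s 1 a6 13
          + s 1 a7 20 + s 1 a8 9 ∧
       40 ≤ s 2 a0 1 + s 2 a1 15 + s 2 a2 23 + s 2 a3 25 + s 2 a4 4 + s 2 a5 10 + s 2 a6 13
          + s 2 a7 20 + s 2 a8 9) := by
  decide +kernel

theorem no_alloc (f : Fin 12 → Fin 3) : ¬ ∀ i, 40 ≤ ∑ j, s i (f j) (v i j) := by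
  intro h
  refine fin_check (f 0) (f 1) (f 2) (f 3) (f 4) (f 5) (f 6) (f 7) (f 8) ⟨?_, ?_, ?_⟩
  · have := h 0
    simp only [Fin.sum_univ_succ, Fin.sum_univ_zero] at this
    simp [v, s] at this ⊢
    omega
  · have := h 1
    simp only [Fin.sum_univ_succ, Fin.sum_univ_zero] at this
    simp [v, s] at this ⊢
    omega
  · have := h 2
    simp only [Fin.sum_univ_succ, Fin.sum_univ_zero] at this
    simp [v, s] at this ⊢
    omega

/-- Island number j. -/
def I (j : ℕ) : Set ℝ := Icc (2 * (j : ℝ)) (2 * (j : ℝ) + 1)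

theorem vol_I (j : ℕ) : volume (I j) = 1 := by simp [I]

theorem I_disj {j j' : ℕ} (h : j ≠ j') : Disjoint (I j) (I j') := by
  rw [Set.disjoint_left]
  rintro x ⟨h1, h2⟩ ⟨h3, h4⟩
  rcases lt_or_gt_of_ne h with h | h
  · have : (j : ℝ) + 1 ≤ j' := by exact_mod_cast h
    linarith
  · have : (j' : ℝ) + 1 ≤ j := by exact_mod_cast h
    linarith

/-- The value measure of agent i: uniform on each island. -/
noncomputable def mu (i : Fin 3) : Measure ℝ :=
  ∑ j : Fin 12, ((30 + v i j : ℕ) : ENNReal) • volume.restrict (I j)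

theorem mu_apply (i : Fin 3) {S : Set ℝ} (hS : MeasurableSet S) :
    mu i S = ∑ j : Fin 12, ((30 + v i j : ℕ) : ENNReal) * volume (S ∩ I j) := by
  unfold mu
  rw [Measure.finsetSum_apply]
  refine Finset.sum_congr rfl fun j _ => ?_
  rw [Measure.smul_apply, Measure.restrict_apply hS, smul_eq_mul]

theorem vol_le (S : Set ℝ) (j : ℕ) : volume (S ∩ I j) ≤ 1 :=
  (measure_mono inter_subset_right).trans (vol_I j).le

theorem agent (w : Fin 12 → ℕ) (hw : ∀ j, w j ≤ 30) (y : Fin 12 → ℝ) (hy1 : ∀ j, y j ≤ 1)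
    (J : Fin 4 → Fin 12) (hJ : ∀ j, (∀ l, J l ≠ j) → y j = 0)
    (h : (160 : ℝ) ≤ ∑ j, ((30 + w j : ℕ) : ℝ) * y j) :
    40 ≤ ∑ j, if 1 / 2 < y j then w j else 0 := by
  classical
  set T : Finset (Fin 12) := Finset.univ.image J with hT
  have hcard : T.card ≤ 4 := Finset.card_image_le.trans (by simp)
  have h1 : ∑ j, ((30 + w j : ℕ) : ℝ) * y j = ∑ j ∈ T, ((30 + w j : ℕ) : ℝ) * y j := by
    refine (Finset.sum_subset (Finset.subset_univ _) fun j _ hj => ?_).symm
    rw [hJ j fun l hl => hj (Finset.mem_image.2 ⟨l, Finset.mem_univ _, hl⟩), mul_zero]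
  have h2 : ∑ j ∈ T, ((30 + w j : ℕ) : ℝ) * y j ≤
      ∑ j ∈ T, (30 + ((if 1 / 2 < y j then w j else 0 : ℕ) : ℝ)) := by
    refine Finset.sum_le_sum fun j _ => ?_
    have a1 : (w j : ℝ) ≤ 30 := by exact_mod_cast hw j
    have a2 : (0 : ℝ) ≤ w j := Nat.cast_nonneg _
    have a3 := hy1 j
    split_ifs with hc
    · push_cast; nlinarith
    · push Not at hc; push_cast; nlinarith
  rw [Finset.sum_add_distrib, Finset.sum_const, nsmul_eq_mul] at h2
  have h3 : ∑ j ∈ T, ((if 1 / 2 < y j then w j else 0 : ℕ) : ℝ) ≤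
      ∑ j, ((if 1 / 2 < y j then w j else 0 : ℕ) : ℝ) :=
    Finset.sum_le_sum_of_subset_of_nonneg (Finset.subset_univ _) fun _ _ _ => Nat.cast_nonneg _
  have h4 : (T.card : ℝ) ≤ 4 := by exact_mod_cast hcard
  have h5 : (40 : ℝ) ≤ ∑ j, ((if 1 / 2 < y j then w j else 0 : ℕ) : ℝ) := by linarith
  exact_mod_cast h5

/-- The negation of the preceding statement: For m,n,k ≥ 2 and any n finite measures with densities on a cake of m separated islands, there is an allocation giving each agent at most k intervals, each within one island, worth at least that agent's k-interval maximin share. -/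
theorem result :
    ¬ (∀ m n k : ℕ, 2 ≤ m → 2 ≤ n → 2 ≤ k →
    ∀ μ : Fin n → Measure ℝ, (∀ i, IsFiniteMeasure (μ i)) → (∀ i, μ i ≪ volume) →
    ∃ a b : Fin n → Fin k → ℝ,
      (∀ i l, ∃ j : ℕ, j < m ∧
        Set.Ioo (a i l) (b i l) ⊆ Set.Icc (2 * (j : ℝ)) (2 * (j : ℝ) + 1)) ∧
      (∀ i i', i ≠ i' →
        Disjoint (⋃ l, Set.Ioo (a i l) (b i l)) (⋃ l, Set.Ioo (a i' l) (b i' l))) ∧
      ∀ i, ∀ c d : Fin n → Fin k → ℝ,
        (∀ p l, ∃ j : ℕ, j < m ∧
          Set.Ioo (c p l) (d p l) ⊆ Set.Icc (2 * (j : ℝ)) (2 * (j : ℝ) + 1)) →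
        (∀ p p', p ≠ p' →
          Disjoint (⋃ l, Set.Ioo (c p l) (d p l)) (⋃ l, Set.Ioo (c p' l) (d p' l))) →
        ∃ p, μ i (⋃ l, Set.Ioo (c p l) (d p l)) ≤ μ i (⋃ l, Set.Ioo (a i l) (b i l))) := by
  intro H
  obtain ⟨a, b, hab, hdisj, hfair⟩ := H 12 3 4 (by norm_num) (by norm_num) (by norm_num) mu
    (fun i => ⟨by
      rw [mu_apply i MeasurableSet.univ]
      exact ENNReal.sum_lt_top.2 fun j _ => ENNReal.mul_lt_top (ENNReal.natCast_lt_top _)
        ((vol_le _ _).trans_lt ENNReal.one_lt_top)⟩)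
    (fun i => Measure.AbsolutelyContinuous.mk fun S hS h0 => by
      rw [mu_apply i hS]
      refine Finset.sum_eq_zero fun j _ => ?_
      rw [measure_mono_null inter_subset_left h0, mul_zero])
  choose J hJ hJI using hab
  set X : Fin 3 → Set ℝ := fun i => ⋃ l, Set.Ioo (a i l) (b i l) with hX
  have hXm : ∀ i, MeasurableSet (X i) := fun i =>
    MeasurableSet.iUnion fun l => measurableSet_Ioo
  have hbig : ∀ i, ((160 : ℕ) : ENNReal) ≤ mu i (X i) := by
    intro i
    obtain ⟨p, hp⟩ := hfair i (fun p l => 2 * ((P i p l : ℕ) : ℝ))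
      (fun p l => 2 * ((P i p l : ℕ) : ℝ) + 1)
      (fun p l => ⟨P i p l, (P i p l).2, Ioo_subset_Icc_self⟩)
      (fun p p' hpp => by
        rw [Set.disjoint_iUnion_left]
        intro l
        rw [Set.disjoint_iUnion_right]
        intro l'
        exact (I_disj (fun h => P_ne i p p' l l' hpp (Fin.ext h))).mono
          Ioo_subset_Icc_self Ioo_subset_Icc_self)
    refine le_trans ?_ hp
    rw [mu_apply i (MeasurableSet.iUnion fun l => measurableSet_Ioo)]
    refine le_trans (Nat.cast_le.2 (P_val i p)) ?_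
    rw [Nat.cast_sum]
    refine Finset.sum_le_sum fun j _ => ?_
    split_ifs with hc
    · obtain ⟨l, hl⟩ := hc
      refine le_mul_of_one_le_right' ?_
      have h1 : volume (Ioo (2 * ((j : ℕ) : ℝ)) (2 * ((j : ℕ) : ℝ) + 1)) = 1 := by simp
      rw [← h1]
      refine measure_mono (subset_inter ?_ Ioo_subset_Icc_self)
      rw [← hl]
      exact subset_iUnion (fun l => Ioo (2 * ((P i p l : ℕ) : ℝ)) (2 * ((P i p l : ℕ) : ℝ) + 1)) l
    · simp
  set y : Fin 3 → Fin 12 → ℝ := fun i j => (volume (X i ∩ I j)).toReal with hy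
  have hne : ∀ (S : Set ℝ) (j : ℕ), volume (S ∩ I j) ≠ ⊤ := fun S j =>
    ((vol_le S j).trans_lt ENNReal.one_lt_top).ne
  have hy1 : ∀ i j, y i j ≤ 1 := fun i j => by
    simpa using ENNReal.toReal_mono ENNReal.one_ne_top (vol_le (X i) j)
  have hy2 : ∀ i i' j, i ≠ i' → y i j + y i' j ≤ 1 := fun i i' j hii => by
    have hd : Disjoint (X i ∩ I j) (X i' ∩ I j) :=
      (hdisj i i' hii).mono inter_subset_left inter_subset_left
    have h1 := measure_union (μ := volume) hd ((hXm i').inter measurableSet_Icc)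
    have h2 : volume (X i ∩ I j ∪ X i' ∩ I j) ≤ 1 := by
      rw [← union_inter_distrib_right]; exact vol_le _ _
    rw [h1] at h2
    have h3 := ENNReal.toReal_mono ENNReal.one_ne_top h2
    rw [ENNReal.toReal_add (hne _ _) (hne _ _)] at h3
    simpa using h3
  have hag : ∀ i, 40 ≤ ∑ j, if 1 / 2 < y i j then v i j else 0 := by
    intro i
    refine agent (v i) (v_le i) (y i) (hy1 i) (fun l => ⟨J i l, hJ i l⟩) (fun j hj => ?_) ?_
    · have : X i ∩ I j = ∅ := by
        rw [← Set.disjoint_iff_inter_eq_empty, Set.disjoint_iUnion_left]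
        intro l
        exact (I_disj (fun h => hj l (Fin.ext h))).mono_left (hJI i l)
      simp [hy, this]
    · have h1 := hbig i
      rw [mu_apply i (hXm i)] at h1
      have h2 := ENNReal.toReal_mono (ENNReal.sum_ne_top.2 fun j _ =>
        ENNReal.mul_ne_top (ENNReal.natCast_ne_top _) (hne _ _)) h1
      rw [ENNReal.toReal_sum fun j _ =>
        ENNReal.mul_ne_top (ENNReal.natCast_ne_top _) (hne _ _)] at h2
      simp only [ENNReal.toReal_mul, ENNReal.toReal_natCast] at h2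
      exact_mod_cast h2
  refine no_alloc (fun j => if 1 / 2 < y 0 j then 0 else if 1 / 2 < y 1 j then 1 else 2) fun i => ?_
  refine (hag i).trans (Finset.sum_le_sum fun j _ => ?_)
  split_ifs with h1 h2 h3 h2 h3
  · have : i = 0 := by
      by_contra hc
      linarith [hy2 i 0 j hc]
    simp [s, this]
  · have : i = 1 := by
      by_contra hc
      linarith [hy2 i 1 j hc]
    simp [s, this]
  · have : i = 2 := by
      fin_cases i
      · exact absurd h1 h2
      · exact absurd h1 h3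
      · rfl
    simp [s, this]
  all_goals exact Nat.zero_le _

end Pool.Agent.S08412
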