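import Pool.Statements.S08532

set_option autoImplicit false
open Pool Pool.MP_480816_co

namespace Pool.Agent.S08532

open scoped MatrixOrder

theorem exists_gram {ι : Type} [Fintype ι] [DecidableEq ι] (K : ι → ι → ℝ)
    (hs : ∀ i j, K i j = K j i) (hb : ∀ i j, |K i j| ≤ 1) (ε : ℝ) (h0 : 0 ≤ ε)
    (h1 : ε * Fintype.card ι ≤ 1) :
    ∃ u : ι → EuclideanSpace ℝ (Fin (Fintype.card ι)),
      ∀ i j, inner ℝ (u i) (u j) = (if i = j then 1 else 0) + ε * K i j := by
  let M : Matrix ι ι ℝ := Matrix.of fun i j => (if i = j then 1 else 0) + ε * K i j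
  have hM : M.PosSemidef := by
    apply Matrix.PosSemidef.of_dotProduct_mulVec_nonneg
    · ext i j
      simp [M, Matrix.conjTranspose_apply, hs j i, eq_comm]
    · intro x
      have e : star x ⬝ᵥ M.mulVec x = ∑ i, x i ^ 2 + ε * ∑ i, ∑ j, K i j * (x i * x j) := by
        simp only [dotProduct, Matrix.mulVec, M, Matrix.of_apply, star_trivial, add_mul,
          Finset.sum_add_distrib, ite_mul, one_mul, zero_mul, Finset.sum_ite_eq, Finset.mem_univ,
          if_true, mul_add, Finset.mul_sum]
        congr 1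
        · exact Finset.sum_congr rfl fun i _ => by ring
        · exact Finset.sum_congr rfl fun i _ => Finset.sum_congr rfl fun j _ => by ring
      have h2 : -(Fintype.card ι * ∑ i, x i ^ 2) ≤ ∑ i, ∑ j, K i j * (x i * x j) := by
        have h3 : ∑ i : ι, ∑ j : ι, (-(x i ^ 2 / 2) - x j ^ 2 / 2) =
            -(Fintype.card ι * ∑ i, x i ^ 2) := by
          simp only [Finset.sum_sub_distrib, Finset.sum_const, Finset.card_univ, nsmul_eq_mul,
            ← Finset.mul_sum, Finset.sum_neg_distrib, ← Finset.sum_div]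
          ring
        rw [← h3]
        refine Finset.sum_le_sum fun i _ => Finset.sum_le_sum fun j _ => ?_
        have := abs_le.1 (hb i j)
        nlinarith [sq_nonneg (x i + x j), sq_nonneg (x i - x j)]
      have h4 : 0 ≤ ∑ i, x i ^ 2 := Finset.sum_nonneg fun i _ => sq_nonneg _
      rw [e]
      nlinarith [mul_le_mul_of_nonneg_left h2 h0, mul_le_mul_of_nonneg_right h1 h4]
  obtain ⟨B, hB⟩ := CStarAlgebra.nonneg_iff_eq_star_mul_self.mp hM.nonneg
  refine ⟨fun i => WithLp.toLp 2 fun k => B ((Fintype.equivFin ι).symm k) i, fun i j => ?_⟩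
  have h := congrFun (congrFun hB i) j
  simp only [M, Matrix.of_apply, Matrix.mul_apply, Matrix.star_apply, star_trivial] at h
  rw [h, PiLp.inner_apply]
  simp only [RCLike.inner_apply, conj_trivial]
  rw [← Equiv.sum_comp (Fintype.equivFin ι).symm]
  exact Finset.sum_congr rfl fun k _ => mul_comm _ _

/-- sign pattern: points and lines of the affine plane -/
def K (F : Type) [Field F] [DecidableEq F] : (F × F) ⊕ (F × F) → (F × F) ⊕ (F × F) → ℝ
  | Sum.inl P, Sum.inl Q => if P = Q then 0 else -1
  | Sum.inr P, Sum.inr Q => if P = Q then 0 else -1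
  | Sum.inl P, Sum.inr L => if P.2 = P.1 * L.1 + L.2 then 1 else 0
  | Sum.inr L, Sum.inl P => if P.2 = P.1 * L.1 + L.2 then 1 else 0

theorem code (p : ℕ) [Fact p.Prime] :
    ∃ S : Finset (EuclideanSpace ℝ (Fin (Fintype.card ((ZMod p × ZMod p) ⊕ (ZMod p × ZMod p))))),
      (∀ x ∈ S, ‖x‖ = 1) ∧
      (∀ x ∈ S, ∀ y ∈ S, x ≠ y → (inner ℝ x y < 0 ∨ inner ℝ x y = (1 / 2 : ℝ))) ∧
      S.card = p ^ 3 := by
  classical
  set N := Fintype.card ((ZMod p × ZMod p) ⊕ (ZMod p × ZMod p)) with hN
  have hNpos : (0 : ℝ) < N := by exact_mod_cast Fintype.card_pos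
  set ε : ℝ := 1 / N with hε
  have hε0 : 0 < ε := by positivity
  obtain ⟨u, hu⟩ := exists_gram (K (ZMod p))
    (by rintro (P | P) (Q | Q) <;> simp [K, eq_comm])
    (by rintro (P | P) (Q | Q) <;> simp only [K] <;> split_ifs <;> simp) ε hε0.le
    (by rw [hε, ← hN]; field_simp; rfl)
  set c : ℝ := (Real.sqrt (2 + 2 * ε))⁻¹ with hc
  have hc2 : c * c * (2 + 2 * ε) = 1 := by
    rw [hc, ← mul_inv, Real.mul_self_sqrt (by positivity)]
    field_simp
  have hcpos : 0 < c * c := by positivity
  let x : ZMod p × ZMod p × ZMod p → EuclideanSpace ℝ (Fin N) := fun f =>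
    c • (u (Sum.inl (f.1, f.1 * f.2.1 + f.2.2)) + u (Sum.inr (f.2.1, f.2.2)))
  have hx : ∀ f g, inner ℝ (x f) (x g) = c * c *
      (inner ℝ (u (Sum.inl (f.1, f.1 * f.2.1 + f.2.2))) (u (Sum.inl (g.1, g.1 * g.2.1 + g.2.2))) +
       inner ℝ (u (Sum.inl (f.1, f.1 * f.2.1 + f.2.2))) (u (Sum.inr (g.2.1, g.2.2))) +
       inner ℝ (u (Sum.inr (f.2.1, f.2.2))) (u (Sum.inl (g.1, g.1 * g.2.1 + g.2.2))) +
       inner ℝ (u (Sum.inr (f.2.1, f.2.2))) (u (Sum.inr (g.2.1, g.2.2)))) := by
    intro f g
    simp only [x, inner_smul_left, inner_smul_right, inner_add_left, inner_add_right, conj_trivial]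
    ring
  have hself : ∀ f, inner ℝ (x f) (x f) = 1 := by
    intro f
    rw [hx, hu, hu, hu, hu]
    simp [K]
    linear_combination hc2
  have hne : ∀ f g, f ≠ g → inner ℝ (x f) (x g) < 0 ∨ inner ℝ (x f) (x g) = 1 / 2 := by
    rintro ⟨a, m, d⟩ ⟨a', m', d'⟩ hfg
    rw [hx, hu, hu, hu, hu]
    simp only [K, Sum.inl.injEq, Sum.inr.injEq, reduceCtorEq, if_false]
    by_cases hP : (a, a * m + d) = (a', a' * m' + d')
    · have hL : (m, d) ≠ (m', d') := by
        intro h
        simp only [Prod.mk.injEq] at h hP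
        exact hfg (by rw [hP.1, h.1, h.2])
      have h1 : a * m + d = a * m' + d' := by
        simp only [Prod.mk.injEq] at hP
        rw [hP.2, hP.1]
      have h2 : a' * m' + d' = a' * m + d := by
        simp only [Prod.mk.injEq] at hP
        rw [← hP.2, hP.1]
      right
      rw [if_pos hP, if_pos hP, if_neg hL, if_neg hL, if_pos h1, if_pos h2]
      linear_combination hc2 / 2
    · by_cases hL : (m, d) = (m', d')
      · simp only [Prod.mk.injEq] at hL
        obtain ⟨rfl, rfl⟩ := hL
        right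
        rw [if_neg hP, if_neg hP]
        simp only [if_true]
        linear_combination hc2 / 2
      · left
        rw [if_neg hP, if_neg hP, if_neg hL, if_neg hL]
        have hnot : ¬ (a * m + d = a * m' + d' ∧ a' * m' + d' = a' * m + d) := by
          rintro ⟨h1, h2⟩
          have h3 : (a - a') * (m - m') = 0 := by linear_combination h1 + h2
          rcases mul_eq_zero.1 h3 with h | h
          · have : a = a' := by linear_combination h
            subst this
            exact hP (by rw [h1])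
          · have : m = m' := by linear_combination h
            subst this
            exact hL (by rw [show d = d' by linear_combination h1])
        apply mul_neg_of_pos_of_neg hcpos
        by_cases h1 : a * m + d = a * m' + d'
        · rw [if_pos h1, if_neg (fun h => hnot ⟨h1, h⟩)]; linarith
        · rw [if_neg h1]
          split_ifs <;> linarith
  have hinj : Function.Injective x := by
    intro f g h
    by_contra hfg
    have h1 := hne f g hfg
    rw [← h, hself] at h1
    rcases h1 with h1 | h1 <;> norm_num at h1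
  refine ⟨Finset.univ.image x, ?_, ?_, ?_⟩
  · intro y hy
    obtain ⟨f, -, rfl⟩ := Finset.mem_image.1 hy
    have := hself f
    rw [real_inner_self_eq_norm_sq] at this
    have h0 := norm_nonneg (x f)
    nlinarith
  · intro y hy z hz hyz
    obtain ⟨f, -, rfl⟩ := Finset.mem_image.1 hy
    obtain ⟨g, -, rfl⟩ := Finset.mem_image.1 hz
    exact hne f g fun h => hyz (by rw [h])
  · rw [Finset.card_image_of_injective _ hinj]
    simp [ZMod.card]; ring

/-- The negation of the preceding statement: For every real α there is a constant C such that, in every dimension d, any finite set of unit vectors whose distinct pairs have inner product negative or equal to α has at most C·d elements. -/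
theorem result :
    ¬ (∀ α : ℝ, ∃ C : ℝ, ∀ d : ℕ, ∀ S : Finset (EuclideanSpace ℝ (Fin d)),
      (∀ x ∈ S, ‖x‖ = 1) →
      (∀ x ∈ S, ∀ y ∈ S, x ≠ y → (inner ℝ x y < 0 ∨ inner ℝ x y = α)) →
      (S.card : ℝ) ≤ C * (d : ℝ)) := by
  intro H
  obtain ⟨C, hC⟩ := H (1 / 2)
  obtain ⟨p, hp, hpp⟩ := Nat.exists_infinite_primes (⌈2 * C⌉₊ + 1)
  have : Fact p.Prime := ⟨hpp⟩
  obtain ⟨S, h1, h2, h3⟩ := code p
  have h := hC _ S h1 h2
  rw [h3] at h
  simp only [Fintype.card_sum, Fintype.card_prod, ZMod.card] at h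
  push_cast at h
  have h4 : 2 * C < p := by
    have := Nat.le_ceil (2 * C)
    have h5 : ((⌈2 * C⌉₊ + 1 : ℕ) : ℝ) ≤ p := by exact_mod_cast hp
    push_cast at h5
    linarith
  have h6 : (0 : ℝ) < p := by exact_mod_cast hpp.pos
  nlinarith [mul_pos h6 h6]

end Pool.Agent.S08532
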