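import Pool.Statements.S08556
-- import your own Pool.Agent.* helpers here

set_option autoImplicit false
open scoped Pointwise
open Pool Pool.MP_491dd2_co

namespace Pool.Agent.S08556

open Finset in
theorem card_split (Q : ℕ) (S U V : Finset ℕ) (h : ∀ x ∈ S, x % Q ∈ U ∧ x / Q ∈ V) :
    S.card ≤ U.card * V.card := by
  rw [← card_product]
  refine card_le_card_of_injOn (fun x => (x % Q, x / Q)) (fun x hx => ?_) fun x _ y _ e => ?_
  · simpa using h x hx
  · simp only [Prod.mk.injEq] at e
    rw [← Nat.mod_add_div x Q, ← Nat.mod_add_div y Q, e.1, e.2]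

section
variable (q : ℕ)

def inA : ℕ → ℕ → Prop
  | 0, _ => False
  | r + 1, x => x % (q + 3) = 0 ∨ (x % (q + 3) ≠ 1 ∧ inA r (x / (q + 3)))

def gg : ℕ → ℕ → ℕ
  | 0, x => x
  | r + 1, x => if x % (q + 3) = 0 then x + 1 else x % (q + 3) + (q + 3) * gg r (x / (q + 3))

def noD : ℕ → ℕ → Prop
  | 0, _ => True
  | r + 1, x => 2 ≤ x % (q + 3) ∧ noD r (x / (q + 3))

def bad : ℕ → ℕ → Prop
  | 0, x => x % (q + 3) = 0 ∨ x % (q + 3) = 1 ∨ x % (q + 3) = q + 2
  | i + 1, x => bad i (x / (q + 3))

theorem md (a b : ℕ) (h : a < q + 3) :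
    (a + (q + 3) * b) % (q + 3) = a ∧ (a + (q + 3) * b) / (q + 3) = b := by
  constructor
  · rw [Nat.add_mul_mod_self_left, Nat.mod_eq_of_lt h]
  · rw [Nat.add_mul_div_left _ _ (by omega), Nat.div_eq_of_lt h, zero_add]

theorem split (x : ℕ) : ∃ a b, a < q + 3 ∧ x = a + (q + 3) * b :=
  ⟨x % (q + 3), x / (q + 3), Nat.mod_lt _ (by omega), (Nat.mod_add_div _ _).symm⟩

theorem lt_iff {a b M : ℕ} (h : a < q + 3) : a + (q + 3) * b < M * (q + 3) ↔ b < M := by
  constructor
  · intro h'; by_contra h2; push Not at h2; nlinarith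
  · intro h'; nlinarith

theorem gg_spec (r : ℕ) : ∀ x, inA q r x → (∃ i < r, gg q r x = x + (q + 3) ^ i) ∧
    ¬ inA q r (gg q r x) ∧ ∀ y, inA q r y → gg q r x = gg q r y → x = y := by
  induction r with
  | zero => intro x h; exact h.elim
  | succ r ih =>
    intro x hx
    obtain ⟨a, b, ha, rfl⟩ := split q x
    simp only [inA, gg, md q a b ha] at hx ⊢
    by_cases h0 : a = 0
    · subst h0
      have e : 0 + (q + 3) * b + 1 = 1 + (q + 3) * b := by ring
      simp only [if_true, e, md q 1 b (by omega)]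
      refine ⟨⟨0, by omega, by ring⟩, by simp, fun y hy h => ?_⟩
      obtain ⟨c, d, hc, rfl⟩ := split q y
      simp only [md q c d hc] at hy h
      split_ifs at h with h1
      · omega
      · have := congrArg (· % (q + 3)) h
        simp only [md q 1 b (by omega), md q c _ hc] at this
        omega
    · obtain ⟨h1, h2⟩ := hx.resolve_left h0
      obtain ⟨⟨i, hi, e⟩, h3, h4⟩ := ih b h2
      simp only [if_neg h0, md q a _ ha]
      refine ⟨⟨i + 1, by omega, by rw [e]; ring⟩, by tauto, fun y hy h => ?_⟩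
      obtain ⟨c, d, hc, rfl⟩ := split q y
      simp only [md q c d hc] at hy h
      split_ifs at h with h5
      · subst h5
        have e : 0 + (q + 3) * d + 1 = 1 + (q + 3) * d := by ring
        have := congrArg (· % (q + 3)) h
        simp only [e, md q 1 d (by omega), md q a _ ha] at this
        omega
      · have e1 := congrArg (· % (q + 3)) h
        have e2 := congrArg (· / (q + 3)) h
        simp only [md q c _ hc, md q a _ ha] at e1 e2
        rw [e1, h4 d (hy.resolve_left h5).2 e2]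

theorem tri (r : ℕ) : ∀ x, x < (q + 3) ^ r → inA q r x ∨ noD q r x ∨
    ∃ y, y < (q + 3) ^ r ∧ inA q r y ∧ gg q r y = x := by
  induction r with
  | zero => intro x _; exact Or.inr (Or.inl trivial)
  | succ r ih =>
    intro x hx
    obtain ⟨a, b, ha, rfl⟩ := split q x
    rw [pow_succ, lt_iff q ha] at hx
    by_cases h0 : a = 0
    · left; simp only [inA, md q a b ha]; exact Or.inl h0
    by_cases h1 : a = 1
    · right; right
      refine ⟨0 + (q + 3) * b, by rw [pow_succ, lt_iff q (by omega)]; exact hx, ?_, ?_⟩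
      · simp only [inA, md q 0 b (by omega)]; simp
      · simp only [gg, md q 0 b (by omega)]; simp [h1, add_comm]
    rcases ih b hx with h | h | ⟨y, h2, h3, h4⟩
    · left; simp only [inA, md q a b ha]; exact Or.inr ⟨h1, h⟩
    · right; left; simp only [noD, md q a b ha]; exact ⟨by omega, h⟩
    · right; right
      refine ⟨a + (q + 3) * y, by rw [pow_succ, lt_iff q ha]; exact h2, ?_, ?_⟩
      · simp only [inA, md q a y ha]; exact Or.inr ⟨h1, h3⟩
      · simp only [gg, md q a y ha, if_neg h0, h4]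

theorem shift (i : ℕ) : ∀ r x, i < r → x < (q + 3) ^ r → inA q r x → ¬ bad q i x →
    x + (q + 3) ^ i < (q + 3) ^ r ∧ inA q r (x + (q + 3) ^ i) := by
  induction i with
  | zero =>
    intro r x hr hx hA hb
    obtain ⟨r, rfl⟩ : ∃ s, r = s + 1 := ⟨r - 1, by omega⟩
    obtain ⟨a, b, ha, rfl⟩ := split q x
    simp only [inA, bad, md q a b ha] at hA hb
    have e : a + (q + 3) * b + (q + 3) ^ 0 = (a + 1) + (q + 3) * b := by ring
    have ha' : a + 1 < q + 3 := by omega
    rw [pow_succ, lt_iff q ha] at hx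
    rw [e, pow_succ, lt_iff q ha']
    simp only [inA, md q _ b ha']
    exact ⟨hx, Or.inr ⟨by omega, (hA.resolve_left (by omega)).2⟩⟩
  | succ i ih =>
    intro r x hr hx hA hb
    obtain ⟨r, rfl⟩ : ∃ s, r = s + 1 := ⟨r - 1, by omega⟩
    obtain ⟨a, b, ha, rfl⟩ := split q x
    simp only [inA, bad, md q a b ha] at hA hb
    have e : a + (q + 3) * b + (q + 3) ^ (i + 1) = a + (q + 3) * (b + (q + 3) ^ i) := by ring
    rw [pow_succ, lt_iff q ha] at hx
    rw [e, pow_succ, lt_iff q ha]
    simp only [inA, md q a _ ha]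
    have key : ∀ (s : ℕ) (j y : ℕ), j < s → y < (q + 3) ^ s → ¬ bad q j y →
        y + (q + 3) ^ j < (q + 3) ^ s := by
      intro s j
      induction j generalizing s with
      | zero =>
        intro y hs hy hb
        obtain ⟨s, rfl⟩ : ∃ t, s = t + 1 := ⟨s - 1, by omega⟩
        obtain ⟨c, d, hc, rfl⟩ := split q y
        simp only [bad, md q c d hc] at hb
        have e : c + (q + 3) * d + (q + 3) ^ 0 = (c + 1) + (q + 3) * d := by ring
        rw [pow_succ, lt_iff q hc] at hy
        rwa [e, pow_succ, lt_iff q (by omega)]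
      | succ j ih =>
        intro y hs hy hb
        obtain ⟨s, rfl⟩ : ∃ t, s = t + 1 := ⟨s - 1, by omega⟩
        obtain ⟨c, d, hc, rfl⟩ := split q y
        simp only [bad, md q c d hc] at hb
        have e : c + (q + 3) * d + (q + 3) ^ (j + 1) = c + (q + 3) * (d + (q + 3) ^ j) := by ring
        rw [pow_succ, lt_iff q hc] at hy
        rw [e, pow_succ, lt_iff q hc]
        exact ih s d (by omega) hy hb
    refine ⟨key r i b (by omega) hx hb, ?_⟩
    rcases hA with h | h
    · exact Or.inl h
    · exact Or.inr ⟨h.1, (ih r b (by omega) hx h.2 hb).2⟩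

open Classical Finset in
theorem card_noD (r : ℕ) : ((range ((q + 3) ^ r)).filter (noD q r)).card ≤ (q + 1) ^ r := by
  induction r with
  | zero => simp [noD]
  | succ r ih =>
    refine (card_split (q + 3) _ (Ico 2 (q + 3)) ((range ((q + 3) ^ r)).filter (noD q r))
      fun x hx => ?_).trans ?_
    · simp only [mem_filter, mem_range, noD, mem_Ico] at hx ⊢
      exact ⟨⟨hx.2.1, Nat.mod_lt _ (by omega)⟩,
        Nat.div_lt_of_lt_mul (by rw [← pow_succ']; exact hx.1), hx.2.2⟩
    · rw [Nat.card_Ico, pow_succ']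
      exact Nat.mul_le_mul (by omega) ih

open Classical Finset in
theorem card_bad (i : ℕ) : ∀ r, i < r →
    ((range ((q + 3) ^ r)).filter (bad q i)).card * (q + 3) ≤ 3 * (q + 3) ^ r := by
  induction i with
  | zero =>
    intro r hr
    obtain ⟨r, rfl⟩ : ∃ s, r = s + 1 := ⟨r - 1, by omega⟩
    have := card_split (q + 3) ((range ((q + 3) ^ (r + 1))).filter (bad q 0)) {0, 1, q + 2}
      (range ((q + 3) ^ r)) fun x hx => by
        simp only [mem_filter, mem_range, bad, mem_insert, mem_singleton] at hx ⊢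
        exact ⟨hx.2, Nat.div_lt_of_lt_mul (by rw [← pow_succ']; exact hx.1)⟩
    have h3 : ({0, 1, q + 2} : Finset ℕ).card ≤ 3 := card_le_three
    rw [card_range] at this
    rw [pow_succ, ← mul_assoc]
    exact Nat.mul_le_mul_right _ (this.trans (Nat.mul_le_mul_right _ h3))
  | succ i ih =>
    intro r hr
    obtain ⟨r, rfl⟩ : ∃ s, r = s + 1 := ⟨r - 1, by omega⟩
    have := card_split (q + 3) ((range ((q + 3) ^ (r + 1))).filter (bad q (i + 1))) (range (q + 3))
      ((range ((q + 3) ^ r)).filter (bad q i)) fun x hx => by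
        simp only [mem_filter, mem_range, bad] at hx ⊢
        exact ⟨Nat.mod_lt _ (by omega),
          Nat.div_lt_of_lt_mul (by rw [← pow_succ']; exact hx.1), hx.2⟩
    rw [card_range, mul_comm] at this
    rw [pow_succ, ← mul_assoc]
    exact Nat.mul_le_mul_right _ (this.trans (ih r (by omega)))

theorem bern (r : ℕ) : (q + 1) ^ r * (q + 1 + 2 * r) ≤ (q + 3) ^ r * (q + 1) := by
  induction r with
  | zero => simp
  | succ r ih =>
    rw [pow_succ, pow_succ]
    have := Nat.mul_le_mul_right (q + 3) ih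
    have h2 : (q + 1) * (q + 1 + 2 * (r + 1)) ≤ (q + 1 + 2 * r) * (q + 3) := by nlinarith
    have := Nat.mul_le_mul_left ((q + 1) ^ r) h2
    nlinarith

end

open Classical Finset Pointwise in
theorem nat_version (c : ℕ) : ∃ (N : ℕ) (A B : Finset ℕ), (∀ x ∈ A + B, x < 4 * N) ∧
    (∀ x ∈ A, x < 4 * N) ∧ (∀ x ∈ B, x < 4 * N) ∧ A.card = B.card ∧ N ≤ 3 * A.card ∧
    ∀ A' ⊆ A, ∀ B' ⊆ B, 19 * A.card ≤ 20 * A'.card → B'.card ≤ c →
      20 * (A' + B').card < 19 * (A' + B).card := by
  set q := 20 * c + 1 with hq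
  set r := q + 1 with hr
  set N := (q + 3) ^ r with hN
  set A := (range N).filter (inA q r) with hA
  have hN3 : N ≤ 3 * A.card := by
    have h1 : range N ⊆ A ∪ (range N).filter (noD q r) ∪ A.image (gg q r) := by
      intro x hx
      rcases tri q r x (mem_range.1 hx) with h | h | ⟨y, h1, h2, h3⟩
      · exact mem_union_left _ (mem_union_left _ (mem_filter.2 ⟨hx, h⟩))
      · exact mem_union_left _ (mem_union_right _ (mem_filter.2 ⟨hx, h⟩))
      · exact mem_union_right _ (mem_image.2 ⟨y, mem_filter.2 ⟨mem_range.2 h1, h2⟩, h3⟩)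
    have h2 := (card_le_card h1).trans ((card_union_le _ _).trans
      (add_le_add ((card_union_le _ _).trans (add_le_add le_rfl (card_noD q r))) card_image_le))
    rw [card_range] at h2
    have h3 := bern q r
    have h4 : 3 * (q + 1) ^ r ≤ N := by
      apply Nat.le_of_mul_le_mul_right _ (show 0 < q + 1 by omega)
      rw [hr] at h3 ⊢
      nlinarith
    omega
  have hrN : (q + 3) * (q + 3) ^ q = N := by rw [hN, hr]; exact (pow_succ' _ _).symm
  set B1 := insert 0 ((range r).image fun i => (q + 3) ^ i) with hB1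
  have hN0 : 0 < N := by positivity
  have hB1c : B1.card ≤ A.card := by
    have h1 : B1.card ≤ r + 1 := (card_insert_le _ _).trans (by
      have := card_image_le (s := range r) (f := fun i => (q + 3) ^ i)
      rw [card_range] at this; omega)
    have : q + 3 ≤ (q + 3) ^ q := Nat.le_self_pow (by omega) _
    nlinarith
  have hB1lt : ∀ b ∈ B1, b < N := by
    intro b hb
    simp only [hB1, mem_insert, mem_image, mem_range] at hb
    rcases hb with rfl | ⟨i, hi, rfl⟩
    · exact hN0
    · exact Nat.pow_lt_pow_right (by omega) hi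
  have hAlt : ∀ a ∈ A, a < N := fun a ha => mem_range.1 (mem_filter.1 ha).1
  have hAc : A.card ≤ N := (card_filter_le _ _).trans (card_range N).le
  set B0 := Ico (2 * N) (2 * N + (A.card - B1.card)) with hB0
  have hB0m : ∀ b ∈ B0, 2 * N ≤ b ∧ b < 3 * N := fun b hb => by
    have := mem_Ico.1 hb; omega
  have hBlt : ∀ b ∈ B1 ∪ B0, b < 3 * N := fun b hb => by
    rcases mem_union.1 hb with h | h
    · have := hB1lt b h; omega
    · exact (hB0m b h).2
  refine ⟨N, A, B1 ∪ B0, fun x hx => ?_, fun x hx => by have := hAlt x hx; omega,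
    fun x hx => by have := hBlt x hx; omega, ?_, hN3, fun A' hA' B' hB' h1 h2 => ?_⟩
  · obtain ⟨a, ha, b, hb, rfl⟩ := mem_add.1 hx
    have := hAlt a ha
    have := hBlt b hb
    omega
  · rw [card_union_of_disjoint, hB0, Nat.card_Ico]
    · omega
    · exact disjoint_left.2 fun b h h' => by have := hB1lt b h; have := hB0m b h'; omega
  have hy : (A' + B0).card ≤ 2 * N := by
    have : A' + B0 ⊆ Ico (2 * N) (4 * N) := fun x hx => by
      obtain ⟨a, ha, b, hb, rfl⟩ := mem_add.1 hx
      have := hAlt a (hA' ha)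
      have := hB0m b hb
      rw [mem_Ico]; omega
    have := card_le_card this
    rw [Nat.card_Ico] at this; omega
  have hF : ∀ b ∈ B1, (A.image (· + b) \ A).card * (q + 3) ≤ 3 * N := by
    intro b hb
    simp only [hB1, mem_insert, mem_image, mem_range] at hb
    rcases hb with rfl | ⟨i, hi, rfl⟩
    · simp
    · refine le_trans (Nat.mul_le_mul_right _ ?_) (card_bad q i r hi)
      refine le_trans (card_le_card ?_) (card_image_le (f := (· + (q + 3) ^ i)))
      intro x hx
      obtain ⟨h3, h4⟩ := mem_sdiff.1 hx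
      obtain ⟨a, ha, rfl⟩ := mem_image.1 h3
      refine mem_image.2 ⟨a, mem_filter.2 ⟨(mem_filter.1 ha).1, ?_⟩, rfl⟩
      by_contra hb
      obtain ⟨h5, h6⟩ := shift q i r a hi (hAlt a ha) (mem_filter.1 ha).2 hb
      exact h4 (mem_filter.2 ⟨mem_range.2 h5, h6⟩)
  set F := (B'.filter (· ∈ B1)).biUnion fun b => A.image (· + b) \ A with hF'
  have hFc : F.card * (q + 3) ≤ c * (3 * N) := by
    refine (Nat.mul_le_mul_right _ card_biUnion_le).trans ?_
    rw [sum_mul]
    refine (sum_le_card_nsmul _ _ _ fun b hb => hF b (mem_filter.1 hb).2).trans ?_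
    exact Nat.mul_le_mul_right _ ((card_filter_le _ _).trans h2)
  have hup : (A' + B').card ≤ A.card + F.card + (A' + B0).card := by
    refine le_trans (card_le_card ?_) ((card_union_le _ _).trans
      (add_le_add (card_union_le A F) le_rfl))
    intro x hx
    obtain ⟨a, ha, b, hb, rfl⟩ := mem_add.1 hx
    rcases mem_union.1 (hB' hb) with h | h
    · by_cases h' : a + b ∈ A
      · exact mem_union_left _ (mem_union_left _ h')
      · exact mem_union_left _ (mem_union_right _ (mem_biUnion.2 ⟨b, mem_filter.2 ⟨hb, h⟩,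
          mem_sdiff.2 ⟨mem_image.2 ⟨a, hA' ha, rfl⟩, h'⟩⟩))
    · exact mem_union_right _ (add_mem_add ha h)
  have hg : ∀ a ∈ A', ∃ b ∈ B1, gg q r a = a + b := fun a ha => by
    obtain ⟨i, hi, e⟩ := (gg_spec q r a (mem_filter.1 (hA' ha)).2).1
    exact ⟨_, mem_insert_of_mem (mem_image.2 ⟨i, mem_range.2 hi, rfl⟩), e⟩
  have hlo : A'.card + A'.card + (A' + B0).card ≤ (A' + (B1 ∪ B0)).card := by
    have e1 : (A'.image (gg q r)).card = A'.card := card_image_of_injOn fun x hx y hy e =>
      (gg_spec q r x (mem_filter.1 (hA' hx)).2).2.2 y (mem_filter.1 (hA' hy)).2 e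
    have d1 : Disjoint A' (A'.image (gg q r)) := disjoint_left.2 fun x hx hx' => by
      obtain ⟨a, ha, rfl⟩ := mem_image.1 hx'
      exact (gg_spec q r a (mem_filter.1 (hA' ha)).2).2.1 (mem_filter.1 (hA' hx)).2
    have d2 : Disjoint (A' ∪ A'.image (gg q r)) (A' + B0) := disjoint_left.2 fun x hx hx' => by
      obtain ⟨a, ha, b, hb, rfl⟩ := mem_add.1 hx'
      have := hB0m b hb
      rcases mem_union.1 hx with h | h
      · have := hAlt _ (hA' h); omega
      · obtain ⟨a', ha', e⟩ := mem_image.1 h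
        obtain ⟨b', hb', e'⟩ := hg a' ha'
        have := hAlt _ (hA' ha')
        have := hB1lt _ hb'
        omega
    nth_rewrite 2 [← e1]
    rw [← card_union_of_disjoint d1, ← card_union_of_disjoint d2]
    refine card_le_card fun x hx => ?_
    rcases mem_union.1 hx with h | h
    · rcases mem_union.1 h with h | h
      · exact mem_add.2 ⟨x, h, 0, mem_union_left _ (mem_insert_self _ _), rfl⟩
      · obtain ⟨a, ha, rfl⟩ := mem_image.1 h
        obtain ⟨b, hb, e⟩ := hg a ha
        exact mem_add.2 ⟨a, ha, b, mem_union_left _ hb, e.symm⟩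
    · exact add_subset_add_left subset_union_right h
  have hF2 : 20 * F.card ≤ 3 * N := by
    rcases Nat.eq_zero_or_pos c with h0 | h0
    · subst h0
      have : F.card = 0 := by simpa using hFc
      omega
    · apply Nat.le_of_mul_le_mul_right _ h0
      nlinarith
  omega

/-- The negation of the preceding statement: For all ε, λ > 0 there is a constant c such that for every prime p and all A, B ⊆ Z_p of equal size n with ∣A+B∣ ≤ λn, some A' ⊆ A with ∣A'∣ ≥ (1−ε)n and B' ⊆ B with ∣B'∣ ≤ c satisfy ∣A'+B'∣ ≥ (1−ε)∣A'+B∣. -/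
theorem result :
    ¬ (∀ ε : ℝ, 0 < ε → ∀ lam : ℝ, 0 < lam → ∃ c : ℕ,
      ∀ p : ℕ, p.Prime → ∀ A B : Finset (ZMod p),
        A.card = B.card →
        ((A + B).card : ℝ) ≤ lam * (A.card : ℝ) →
        ∃ A' : Finset (ZMod p), A' ⊆ A ∧
        ∃ B' : Finset (ZMod p), B' ⊆ B ∧
          (1 - ε) * (A.card : ℝ) ≤ (A'.card : ℝ) ∧
          B'.card ≤ c ∧
          (1 - ε) * ((A' + B).card : ℝ) ≤ ((A' + B').card : ℝ)) := by
  intro H
  obtain ⟨c, hc⟩ := H (1 / 20) (by norm_num) 12 (by norm_num)
  obtain ⟨N, A, B, h1, h2, h3, h4, h5, h6⟩ := nat_version c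
  obtain ⟨p, hp1, hp⟩ := Nat.exists_infinite_primes (4 * N)
  have inj : ∀ S : Finset ℕ, (∀ x ∈ S, x < 4 * N) →
      (S.image (Nat.castRingHom (ZMod p))).card = S.card := fun S hS =>
    Finset.card_image_of_injOn fun x hx y hy e => by
      have := (ZMod.natCast_eq_natCast_iff' x y p).1 e
      rwa [Nat.mod_eq_of_lt ((hS x hx).trans_le hp1), Nat.mod_eq_of_lt ((hS y hy).trans_le hp1)]
        at this
  have hAB : (A + B).card ≤ 4 * N := by
    have := Finset.card_le_card (show A + B ⊆ Finset.range (4 * N) from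
      fun x hx => Finset.mem_range.2 (h1 x hx))
    simpa using this
  obtain ⟨A', hA', B', hB', k1, k2, k3⟩ := hc p hp (A.image (Nat.castRingHom (ZMod p)))
    (B.image (Nat.castRingHom (ZMod p))) (by rw [inj A h2, inj B h3, h4]) (by
      rw [← Finset.image_add, inj _ h1, inj A h2]
      have : (A + B).card ≤ 12 * A.card := by omega
      exact_mod_cast this)
  obtain ⟨A1, hA1, rfl⟩ := Finset.subset_image_iff.1 hA'
  obtain ⟨B1, hB1, rfl⟩ := Finset.subset_image_iff.1 hB'
  rw [inj A h2, inj A1 fun x hx => h2 x (hA1 hx)] at k1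
  rw [inj B1 fun x hx => h3 x (hB1 hx)] at k2
  rw [← Finset.image_add, ← Finset.image_add,
    inj _ fun x hx => h1 x (Finset.add_subset_add_right hA1 hx),
    inj _ fun x hx => h1 x (Finset.add_subset_add hA1 hB1 hx)] at k3
  have k4 : 19 * A.card ≤ 20 * A1.card := by
    have : (19 : ℝ) * A.card ≤ 20 * A1.card := by linarith
    exact_mod_cast this
  have k5 : (20 : ℝ) * (A1 + B1).card < 19 * (A1 + B).card := by
    exact_mod_cast h6 A1 hA1 B1 hB1 k4 k2
  linarith

end Pool.Agent.S08556
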