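import Pool.Statements.S08586

set_option autoImplicit false
open Classical
open Pool Pool.MP_4a5947_co

namespace Pool.Agent.S08586

/-- The ten-element poset `u ⊕ (((a₁∥a₁') ⊕ (a₂∥a₂')) ∥ ((b₁∥b₁') ⊕ (b₂∥b₂'))) ⊕ w`:
`0 = u`, `1,2 = a₁,a₁'`, `3,4 = a₂,a₂'`, `5,6 = b₁,b₁'`, `7,8 = b₂,b₂'`, `9 = w`. -/
def P : Type := Fin 10

instance : Fintype P := inferInstanceAs (Fintype (Fin 10))
instance : DecidableEq P := inferInstanceAs (DecidableEq (Fin 10))

def lv (x : Fin 10) : ℕ :=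
  if x.val = 0 then 0 else if x.val = 9 then 3 else if (x.val - 1) % 4 < 2 then 1 else 2

def ltb (x y : Fin 10) : Bool :=
  decide (lv x < lv y) && (x.val == 0 || y.val == 9 || (x.val - 1) / 4 == (y.val - 1) / 4)

def covb (x y : Fin 10) : Bool := ltb x y && decide (lv y = lv x + 1)

instance : PartialOrder P where
  le x y := x = y ∨ ltb x y = true
  lt x y := ltb x y = true
  le_refl x := Or.inl rfl
  le_trans := by
    show ∀ a b c : Fin 10, (a = b ∨ ltb a b = true) → (b = c ∨ ltb b c = true) →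
      (a = c ∨ ltb a c = true)
    decide +kernel
  lt_iff_le_not_ge := by
    show ∀ a b : Fin 10, ltb a b = true ↔ ((a = b ∨ ltb a b = true) ∧ ¬ (b = a ∨ ltb b a = true))
    decide +kernel
  le_antisymm := by
    show ∀ a b : Fin 10, (a = b ∨ ltb a b = true) → (b = a ∨ ltb b a = true) → a = b
    decide +kernel

theorem cov_iff (x y : P) : x ⋖ y ↔ covb x y = true := by
  revert x y
  show ∀ x y : Fin 10, (ltb x y = true ∧ ∀ c : Fin 10, ltb x c = true → ¬ ltb c y = true) ↔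
    covb x y = true
  decide +kernel

def e (i : Fin 10) : P := i

/-- The seven weighted edges; they form an induced 7-cycle of the conflict relation. -/
def S : Finset (P × P) :=
  {(e 0, e 1), (e 1, e 4), (e 2, e 3), (e 3, e 9), (e 7, e 9), (e 5, e 7), (e 0, e 5)}

theorem S_cov : ∀ p ∈ S, covb p.1 p.2 = true := by decide +kernel

theorem S_card : S.card = 7 := by decide +kernel

theorem cut_le : ∀ x y : P,
    (S.filter (fun p => covb p.1 y = true ∧ covb x p.2 = true)).card ≤ 2 := by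
  show ∀ x y : Fin 10, (S.filter (fun p => covb p.1 y = true ∧ covb x p.2 = true)).card ≤ 2
  decide +kernel

theorem fan_le : ∀ v : P, (S.filter (fun p => p.1 = v ∨ p.2 = v)).card ≤ 2 := by
  show ∀ v : Fin 10, (S.filter (fun p => p.1 = e v ∨ p.2 = e v)).card ≤ 2
  decide +kernel

theorem ext_le (f : P → ℕ) (hi : Function.Injective f) (hm : ∀ x y : P, x < y → f x < f y) :
    (∑ p ∈ S, if f p.2 = f p.1 + 1 then 1 else 0) ≤ 3 := by
  have ne : ∀ i j : Fin 10, i ≠ j → f (e i) ≠ f (e j) := fun i j h h' => h (hi h')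
  have lt : ∀ i j : Fin 10, ltb i j = true → f (e i) < f (e j) := fun i j h => hm _ _ h
  have n12 := ne 1 2 (by decide)
  have n34 := ne 3 4 (by decide)
  have n37 := ne 3 7 (by decide)
  have n78 := ne 7 8 (by decide)
  have n56 := ne 5 6 (by decide)
  have n15 := ne 1 5 (by decide)
  have l02 := lt 0 2 (by decide)
  have l24 := lt 2 4 (by decide)
  have l13 := lt 1 3 (by decide)
  have l49 := lt 4 9 (by decide)
  have l58 := lt 5 8 (by decide)
  have l89 := lt 8 9 (by decide)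
  have l06 := lt 0 6 (by decide)
  have l67 := lt 6 7 (by decide)
  unfold S
  rw [Finset.sum_insert (by decide), Finset.sum_insert (by decide), Finset.sum_insert (by decide),
    Finset.sum_insert (by decide), Finset.sum_insert (by decide), Finset.sum_insert (by decide),
    Finset.sum_singleton]
  dsimp only
  split_ifs <;> omega

/-- The negation of the preceding statement: For every nonempty finite N-free poset with 2-colourable covering graph and every edge sharing its series cut with another edge, and every weighting c, some k equals both the max over linear extensions of the weight of consecutive covering pairs and the minimum size of a multiset of series cuts/para -/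
theorem result :
    ¬ (∀ (α : Type) [Fintype α] [PartialOrder α], Nonempty α →
    (¬ ∃ a b c d : α, a < b ∧ c < b ∧ c < d ∧ ¬ a ≤ c ∧ ¬ c ≤ a ∧
        ¬ a ≤ d ∧ ¬ d ≤ a ∧ ¬ b ≤ d ∧ ¬ d ≤ b) →
    (∃ col : α → Bool, ∀ x y : α, x ⋖ y → col x ≠ col y) →
    (∀ x y : α, x ⋖ y → ∃ x' y' : α, x' ⋖ y' ∧ x' ⋖ y ∧ x ⋖ y' ∧ (x' ≠ x ∨ y' ≠ y)) →
    ∀ c : α → α → ℕ,
    ∃ k : ℕ,
      (∃ L : α ≃ Fin (Fintype.card α), (∀ x y : α, x < y → L x < L y) ∧
         (∑ p ∈ Finset.univ.filter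
            (fun p : α × α => p.1 ⋖ p.2 ∧ (L p.2 : ℕ) = (L p.1 : ℕ) + 1), c p.1 p.2) = k) ∧
      (∀ L : α ≃ Fin (Fintype.card α), (∀ x y : α, x < y → L x < L y) →
         (∑ p ∈ Finset.univ.filter
            (fun p : α × α => p.1 ⋖ p.2 ∧ (L p.2 : ℕ) = (L p.1 : ℕ) + 1), c p.1 p.2) ≤ k) ∧
      (∃ F : Fin k → Set (α × α),
         (∀ i : Fin k,
           (∃ x y : α, x ⋖ y ∧ F i = {p : α × α | p.1 ⋖ p.2 ∧ p.1 ⋖ y ∧ x ⋖ p.2}) ∨
           (∃ v u w z : α, u ⋖ v ∧ v ⋖ w ∧ z ≠ v ∧ (u ⋖ z ∨ z ⋖ u) ∧ (w ⋖ z ∨ z ⋖ w) ∧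
              F i = {p : α × α | p.1 ⋖ p.2 ∧ (p.1 = v ∨ p.2 = v)})) ∧
         (∀ x y : α, x ⋖ y →
            c x y ≤ (Finset.univ.filter (fun i : Fin k => (x, y) ∈ F i)).card)) ∧
      (∀ (m : ℕ) (F : Fin m → Set (α × α)),
         (∀ i : Fin m,
           (∃ x y : α, x ⋖ y ∧ F i = {p : α × α | p.1 ⋖ p.2 ∧ p.1 ⋖ y ∧ x ⋖ p.2}) ∨
           (∃ v u w z : α, u ⋖ v ∧ v ⋖ w ∧ z ≠ v ∧ (u ⋖ z ∨ z ⋖ u) ∧ (w ⋖ z ∨ z ⋖ w) ∧
              F i = {p : α × α | p.1 ⋖ p.2 ∧ (p.1 = v ∨ p.2 = v)})) →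
         (∀ x y : α, x ⋖ y →
            c x y ≤ (Finset.univ.filter (fun i : Fin m => (x, y) ∈ F i)).card) →
         k ≤ m)) := by
  intro h
  obtain ⟨k, ⟨L, hL, hk⟩, -, ⟨F, hF, hc⟩, -⟩ := h P ⟨e 0⟩
    (by
      show ¬ ∃ a b c d : Fin 10, ltb a b = true ∧ ltb c b = true ∧ ltb c d = true ∧
        ¬ (a = c ∨ ltb a c = true) ∧ ¬ (c = a ∨ ltb c a = true) ∧
        ¬ (a = d ∨ ltb a d = true) ∧ ¬ (d = a ∨ ltb d a = true) ∧
        ¬ (b = d ∨ ltb b d = true) ∧ ¬ (d = b ∨ ltb d b = true)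
      decide +kernel)
    ⟨fun x => decide (lv x % 2 = 0), by
      simp only [cov_iff]
      show ∀ x y : Fin 10, covb x y = true → decide (lv x % 2 = 0) ≠ decide (lv y % 2 = 0)
      decide +kernel⟩
    (by
      simp only [cov_iff]
      show ∀ x y : Fin 10, covb x y = true → ∃ x' y' : Fin 10, covb x' y' = true ∧
        covb x' y = true ∧ covb x y' = true ∧ (x' ≠ x ∨ y' ≠ y)
      decide +kernel)
    (fun x y => if (x, y) ∈ S then 1 else 0)
  have h3 : k ≤ 3 := by
    rw [← hk]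
    refine le_trans ?_ (ext_le (fun x => (L x : ℕ))
      (fun a b hab => L.injective (Fin.ext hab)) (fun x y hxy => hL x y hxy))
    rw [Finset.sum_filter]
    rw [← Finset.sum_subset (Finset.subset_univ S) (by
      intro p _ hp
      simp [hp])]
    refine Finset.sum_le_sum ?_
    intro p hp
    by_cases hq : (L p.2 : ℕ) = (L p.1 : ℕ) + 1
    · simp only [hq, if_true]
      split_ifs <;> omega
    · simp [hq]
  have h2 : ∀ i : Fin k, (S.filter (fun p => p ∈ F i)).card ≤ 2 := by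
    intro i
    rcases hF i with ⟨x, y, -, hi⟩ | ⟨v, u, w, z, -, -, -, -, -, hi⟩
    · refine le_trans (Finset.card_le_card ?_) (cut_le x y)
      intro p hp
      rw [Finset.mem_filter, hi] at hp
      rw [Finset.mem_filter]
      exact ⟨hp.1, (cov_iff _ _).1 hp.2.2.1, (cov_iff _ _).1 hp.2.2.2⟩
    · refine le_trans (Finset.card_le_card ?_) (fan_le v)
      intro p hp
      rw [Finset.mem_filter, hi] at hp
      rw [Finset.mem_filter]
      exact ⟨hp.1, hp.2.2⟩
  have h7 : 7 ≤ ∑ p ∈ S, (Finset.univ.filter (fun i : Fin k => p ∈ F i)).card := by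
    rw [← S_card, Finset.card_eq_sum_ones]
    refine Finset.sum_le_sum ?_
    intro p hp
    have := hc p.1 p.2 ((cov_iff _ _).2 (S_cov p hp))
    simpa [hp] using this
  have hswap : ∑ p ∈ S, (Finset.univ.filter (fun i : Fin k => p ∈ F i)).card =
      ∑ i : Fin k, (S.filter (fun p => p ∈ F i)).card := by
    simp only [Finset.card_filter]
    exact Finset.sum_comm
  have hle : ∑ i : Fin k, (S.filter (fun p => p ∈ F i)).card ≤ ∑ _i : Fin k, 2 :=
    Finset.sum_le_sum (fun i _ => h2 i)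
  simp only [Finset.sum_const, Finset.card_univ, Fintype.card_fin, smul_eq_mul] at hle
  omega

end Pool.Agent.S08586
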