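import Pool.Statements.S08598

set_option autoImplicit false
open Pool Pool.MP_4a9f27_co

namespace Pool.Agent.S08598

abbrev GG (p : ℕ) : Type := Multiplicative (ℤ × ZMod p)

noncomputable def SA (p : ℕ) [NeZero p] : Finset (GG p) :=
  Finset.univ.map ⟨fun x : ZMod p => Multiplicative.ofAdd ((0 : ℤ), x), fun a b h => by
    simpa using h⟩

noncomputable def SB (p k : ℕ) : Finset (GG p) := by
  classical
  exact (Finset.range k).image (fun j : ℕ => Multiplicative.ofAdd ((1 : ℤ), (j : ZMod p)))

theorem card_SA (p : ℕ) [NeZero p] : (SA p).card = p := by simp [SA, ZMod.card]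

theorem card_SB (p k : ℕ) (h : k ≤ p) : (SB p k).card = k := by
  classical
  unfold SB
  rw [Finset.card_image_of_injOn, Finset.card_range]
  intro a ha b hb hab
  simp only [Finset.coe_range, Set.mem_Iio] at ha hb
  have : (a : ZMod p) = b := by simpa using hab
  rw [ZMod.natCast_eq_natCast_iff'] at this
  rwa [Nat.mod_eq_of_lt (by omega), Nat.mod_eq_of_lt (by omega)] at this

theorem fst_SA (p : ℕ) [NeZero p] (x : GG p) (h : x ∈ SA p) : (Multiplicative.toAdd x).1 = 0 := by
  simp only [SA, Finset.mem_map, Finset.mem_univ, true_and] at h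
  obtain ⟨a, rfl⟩ := h
  rfl

theorem fst_SB (p k : ℕ) (x : GG p) (h : x ∈ SB p k) : (Multiplicative.toAdd x).1 = 1 := by
  classical
  unfold SB at h
  simp only [Finset.mem_image] at h
  obtain ⟨a, -, rfl⟩ := h
  rfl

theorem prod_fst (p : ℕ) (l : List (GG p)) :
    (Multiplicative.toAdd l.prod).1 = (l.map (fun x => (Multiplicative.toAdd x).1)).sum := by
  induction l with
  | nil => rfl
  | cons a l ih => rw [List.prod_cons, toAdd_mul, Prod.fst_add, ih, List.map_cons, List.sum_cons]

open Classical in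
theorem bound (p k : ℕ) [NeZero p] (h : k ≤ p) :
    Set.ncard {g : GG p | ∃ l : List (GG p), l.Nodup ∧ (∀ x ∈ l, x ∈ SA p ∪ SB p k) ∧ l.prod = g}
      ≤ (k + 1) * p := by
  have hsub : {g : GG p | ∃ l : List (GG p), l.Nodup ∧ (∀ x ∈ l, x ∈ SA p ∪ SB p k) ∧ l.prod = g}
      ⊆ (((Finset.Icc (0 : ℤ) k) ×ˢ (Finset.univ : Finset (ZMod p))).map
        Multiplicative.ofAdd.toEmbedding : Finset (GG p)) := by
    rintro g ⟨l, hl, hS, rfl⟩
    simp only [Finset.coe_map, Set.mem_image, Finset.mem_coe, Finset.mem_product, Finset.mem_Icc,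
      Finset.mem_univ, and_true]
    refine ⟨Multiplicative.toAdd l.prod, ?_, rfl⟩
    rw [prod_fst, ← List.sum_toFinset _ hl]
    have hnn : ∀ x ∈ SA p ∪ SB p k, (0 : ℤ) ≤ (Multiplicative.toAdd x).1 := by
      intro x hx
      rcases Finset.mem_union.mp hx with hx | hx
      · rw [fst_SA p x hx]
      · rw [fst_SB p k x hx]; norm_num
    have hsub : l.toFinset ⊆ SA p ∪ SB p k := fun x hx => hS x (List.mem_toFinset.mp hx)
    refine ⟨Finset.sum_nonneg fun x hx => hnn x (hsub hx), ?_⟩
    refine (Finset.sum_le_sum_of_subset_of_nonneg hsub fun x hx _ => hnn x hx).trans ?_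
    have hd : Disjoint (SA p) (SB p k) := by
      rw [Finset.disjoint_left]
      intro x h1 h2
      have := fst_SA p x h1
      rw [fst_SB p k x h2] at this
      exact one_ne_zero this
    rw [Finset.sum_union hd, Finset.sum_congr rfl (fst_SA p), Finset.sum_congr rfl (fst_SB p k)]
    simp [card_SB p k h]
  refine (Set.ncard_le_ncard hsub (Finset.finite_toSet _)).trans ?_
  rw [Set.ncard_coe_finset]
  simp [ZMod.card]

theorem fst_zero (p : ℕ) (H : Subgroup (GG p)) (hH : (H : Set (GG p)).Finite) (x : GG p)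
    (hx : x ∈ H) : (Multiplicative.toAdd x).1 = 0 := by
  have : Finite H := hH
  have h1 : IsOfFinOrder (⟨x, hx⟩ : H) := isOfFinOrder_of_finite _
  obtain ⟨n, hn, h⟩ := isOfFinOrder_iff_pow_eq_one.mp h1
  have h2 : x ^ n = 1 := by simpa using congrArg Subtype.val h
  have h3 := congrArg (fun y : GG p => (Multiplicative.toAdd y).1) h2
  simp only [toAdd_pow, Prod.smul_fst, toAdd_one, Prod.fst_zero] at h3
  rw [nsmul_eq_mul] at h3
  rcases mul_eq_zero.mp h3 with h4 | h4
  · exact absurd (by exact_mod_cast h4) hn.ne'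
  · exact h4

theorem card_dvd (p : ℕ) [NeZero p] (H : Subgroup (GG p)) (hH : (H : Set (GG p)).Finite) :
    Nat.card H ∣ p := by
  let f : H →* Multiplicative (ZMod p) :=
    (AddMonoidHom.toMultiplicative (AddMonoidHom.snd ℤ (ZMod p))).comp H.subtype
  have hf : Function.Injective f := by
    rw [injective_iff_map_eq_one]
    intro a ha
    apply Subtype.ext
    have h1 := fst_zero p H hH a.1 a.2
    have h2 : (Multiplicative.toAdd a.1).2 = 0 := congrArg Multiplicative.toAdd ha
    exact Multiplicative.toAdd.injective (Prod.ext h1 h2)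
  simpa [ZMod.card] using Subgroup.card_dvd_of_injective f hf

/-- The negation of the preceding statement: There is c>0 such that for every group G and finite S in G, some finite subgroup H has #(products of distinct elements of S in any order, including 1) at least ∣H∣ + c·∣H∣·∣S minus H∣². -/
theorem result :
    ¬ (∃ c : ℝ, 0 < c ∧ ∀ (G : Type) [Group G] (S : Finset G),
      ∃ H : Subgroup G, (H : Set G).Finite ∧
        ((Set.ncard {g : G | ∃ l : List G, l.Nodup ∧ (∀ x ∈ l, x ∈ S) ∧ l.prod = g} : ℕ) : ℝ)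
          ≥ (Nat.card H : ℝ) + c * (Nat.card H : ℝ)
              * ((Set.ncard ((S : Set G) \ (H : Set G)) : ℕ) : ℝ) ^ 2) := by
  classical
  rintro ⟨c, hc, h⟩
  obtain ⟨k, hk⟩ := exists_nat_gt (1 / c)
  obtain ⟨N, hN⟩ := exists_nat_gt (((k : ℝ) + 1) / c)
  obtain ⟨p, hp1, hp⟩ := Nat.exists_infinite_primes (N + k)
  have : NeZero p := ⟨hp.ne_zero⟩
  have hkp : k ≤ p := by omega
  have hck : 1 < c * k := by rwa [div_lt_iff₀ hc, mul_comm] at hk
  have hk0 : (0 : ℝ) < k := by
    by_contra h0
    have : c * k ≤ 0 := mul_nonpos_of_nonneg_of_nonpos hc.le (not_lt.mp h0)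
    linarith
  have hk1 : 1 ≤ k := by exact_mod_cast hk0
  have hp0 : (0 : ℝ) < p := by exact_mod_cast hp.pos
  have hcp : (k : ℝ) + 1 < c * p := by
    rw [div_lt_iff₀ hc] at hN
    have : (N : ℝ) ≤ p := by exact_mod_cast (by omega : N ≤ p)
    nlinarith
  obtain ⟨H, hH, hb⟩ := h (GG p) (SA p ∪ SB p k)
  have h1 : ((Set.ncard {g : GG p | ∃ l : List (GG p), l.Nodup ∧ (∀ x ∈ l, x ∈ SA p ∪ SB p k) ∧
      l.prod = g} : ℕ) : ℝ) ≤ (k + 1) * p := by exact_mod_cast bound p k hkp
  have hb' := le_trans hb h1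
  have hfin : (((SA p ∪ SB p k : Finset (GG p)) : Set (GG p)) \ (H : Set (GG p))).Finite :=
    (Finset.finite_toSet _).subset Set.sdiff_subset
  rcases (Nat.dvd_prime hp).mp (card_dvd p H hH) with h2 | h2
  · have hbot : H = ⊥ := by
      have : Finite H := hH
      exact Subgroup.eq_bot_of_card_eq H h2
    have hd : Disjoint (SA p) (SB p k) := by
      rw [Finset.disjoint_left]
      intro x h1 h2
      have := fst_SA p x h1
      rw [fst_SB p k x h2] at this
      exact one_ne_zero this
    have h3 : p ≤ Set.ncard (((SA p ∪ SB p k : Finset (GG p)) : Set (GG p)) \ (H : Set (GG p))) := by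
      have : (((SA p ∪ SB p k).erase 1 : Finset (GG p)) : Set (GG p)) =
          ((SA p ∪ SB p k : Finset (GG p)) : Set (GG p)) \ (H : Set (GG p)) := by
        rw [hbot]; simp
      rw [← this, Set.ncard_coe_finset]
      have := Finset.pred_card_le_card_erase (s := SA p ∪ SB p k) (a := 1)
      rw [Finset.card_union_of_disjoint hd, card_SA, card_SB p k hkp] at this
      omega
    rw [h2] at hb'
    have h4 : (p : ℝ) ≤ (Set.ncard (((SA p ∪ SB p k : Finset (GG p)) : Set (GG p)) \
      (H : Set (GG p))) : ℕ) := by exact_mod_cast h3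
    have h5 := pow_le_pow_left₀ hp0.le h4 2
    have h6 := mul_le_mul_of_nonneg_left h5 hc.le
    rw [Nat.cast_one, mul_one] at hb'
    have h7 := mul_lt_mul_of_pos_right hcp hp0
    nlinarith
  · have h3 : (SB p k).card ≤
        Set.ncard (((SA p ∪ SB p k : Finset (GG p)) : Set (GG p)) \ (H : Set (GG p))) := by
      rw [← Set.ncard_coe_finset]
      refine Set.ncard_le_ncard ?_ hfin
      intro x hx
      refine ⟨Finset.mem_coe.mpr (Finset.mem_union_right _ hx), fun hxH => ?_⟩
      have := fst_zero p H hH x hxH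
      rw [fst_SB p k x hx] at this
      exact one_ne_zero this
    rw [card_SB p k hkp] at h3
    rw [h2] at hb'
    have h4 : (k : ℝ) ≤ (Set.ncard (((SA p ∪ SB p k : Finset (GG p)) : Set (GG p)) \
      (H : Set (GG p))) : ℕ) := by exact_mod_cast h3
    have h5 := pow_le_pow_left₀ hk0.le h4 2
    have h6 := mul_le_mul_of_nonneg_left h5 (mul_pos hc hp0).le
    have h7 : (k : ℝ) * p < c * p * k ^ 2 := by
      have := mul_lt_mul_of_pos_right hck (mul_pos hk0 hp0)
      nlinarith
    nlinarith

end Pool.Agent.S08598
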