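import Pool.Statements.S08639
-- import your own Pool.Agent.* helpers here

set_option autoImplicit false
open Pool Pool.MP_4cf4e3_co

namespace Pool.Agent.S08639

/-- For every colouring of the natural numbers with finitely many colours, there is a strictly increasing sequence a and one colour such that for all n<m, both a_n+a_m and a_m−a_n have that colour. -/
theorem result :
    ∀ (k : ℕ) (c : ℕ → Fin k), ∃ a : ℕ → ℕ, StrictMono a ∧
      ∃ i : Fin k, ∀ n m : ℕ, n < m → c (a n + a m) = i ∧ c (a m - a n) = i := by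
  intro k c
  let _ : Add (Ultrafilter ℕ) := Ultrafilter.add
  obtain ⟨U, hU, hFS⟩ := Hindman.exists_idempotent_ultrafilter_le_FS (M := ℕ) (fun _ => 2)
  have key : ∀ (s : Stream' ℕ) (m : ℕ), m ∈ Hindman.FS s → (∀ j, s.get j = 2) →
      0 < m ∧ 2 ∣ m := by
    intro s m hm
    induction hm using Hindman.FS.rec with
    | head' a => intro h; have := h 0; simp only [Stream'.head] at *; rw [this]; omega
    | tail' a m _ ih => intro h; exact ih (fun j => h (j + 1))
    | cons' a m _ ih =>
      intro h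
      have h0 : a.head = 2 := h 0
      have := ih (fun j => h (j + 1))
      rw [h0]; omega
  have hev : ∀ᶠ m in (U : Filter ℕ), 0 < m ∧ 2 ∣ m :=
    hFS.mono fun m hm => key _ m hm (fun _ => rfl)
  have idem : ∀ p : ℕ → Prop, (∀ᶠ m in (U : Filter ℕ), p m) ↔
      ∀ᶠ x in (U : Filter ℕ), ∀ᶠ y in (U : Filter ℕ), p (x + y) := by
    intro p
    rw [← Ultrafilter.eventually_add, hU]
  have big : ∀ N : ℕ, ∀ᶠ m in (U : Filter ℕ), N < m := by
    intro N
    induction N with
    | zero => exact hev.mono fun m hm => hm.1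
    | succ N ih =>
      rw [idem]
      exact ih.mono fun x hx => hev.mono fun y hy => by omega
  have lim : ∀ f : ℕ → Fin k, ∃ i, ∀ᶠ y in (U : Filter ℕ), f y = i := by
    intro f
    obtain ⟨i, hi⟩ := Ultrafilter.eq_pure_of_finite (U.map f)
    refine ⟨i, ?_⟩
    have : {i} ∈ U.map f := by rw [hi]; simp
    exact this
  choose g hg using fun x : ℕ => lim (fun y => c (y - x))
  obtain ⟨i, hi⟩ := lim g
  have hB : ∀ᶠ x in (U : Filter ℕ), ∀ᶠ y in (U : Filter ℕ), c (y - x) = i :=
    hi.mono fun x hx => hx ▸ hg x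
  obtain ⟨x0, hx0, -, h, rfl⟩ := (hB.and hev).exists
  have hC := (idem _).1 hx0
  obtain ⟨f, hf, hr⟩ := exists_seq_of_forall_finset_exists
    (fun x : ℕ => (∀ᶠ y in (U : Filter ℕ), c (y - x) = i) ∧
      (∀ᶠ y in (U : Filter ℕ), c (x + y - 2 * h) = i) ∧ h < x)
    (fun x y => x < y ∧ c (y - x) = i ∧ c (x + y - 2 * h) = i) (by
      intro s hs
      have h1 : ∀ᶠ y in (U : Filter ℕ), ∀ x ∈ s,
          x < y ∧ c (y - x) = i ∧ c (x + y - 2 * h) = i := by
        rw [Filter.eventually_all_finset]
        intro x hx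
        exact (big x).and ((hs x hx).1.and (hs x hx).2.1)
      obtain ⟨y, hy⟩ := ((hB.and (hC.and (big h))).and h1).exists
      exact ⟨y, hy.1, hy.2⟩)
  refine ⟨fun n => f n - h, ?_, i, ?_⟩
  · intro n m hnm
    have := (hr n m hnm).1
    have := (hf n).2.2
    simp only
    omega
  · intro n m hnm
    obtain ⟨h1, h2, h3⟩ := hr n m hnm
    have := (hf n).2.2
    have e1 : f n - h + (f m - h) = f n + f m - 2 * h := by omega
    have e2 : f m - h - (f n - h) = f m - f n := by omega
    simp only [e1, e2]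
    exact ⟨h3, h2⟩

end Pool.Agent.S08639
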