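import Pool.Statements.S08682

set_option autoImplicit false
open Pool Pool.MP_4e5a55_co

namespace Pool.Agent.S08682

/- Counterexample: d = 5, l = 1. Six lines illuminate the 5-cube (each line sweeps through the
six outer orthants along an antipodal geodesic of the cube graph, and six such geodesics cover
all 32 vertices), whereas every binary code of length 5 and covering radius 1 has at least 7
words. -/

def A : Fin 6 → Fin 5 → ℤ :=
  ![![0, -3, -6, -9, -12], ![-6, 4, 0, -9, -12], ![0, -3, -12, 10, -6], ![-12, 4, 0, 10, -6],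
    ![4, -6, -9, -12, 0], ![7, -9, -12, 0, -3]]

def B : Fin 6 → Fin 5 → ℤ :=
  ![![1, 1, 1, 1, 1], ![1, -1, 1, 1, 1], ![1, 1, 1, -1, 1], ![1, -1, 1, -1, 1],
    ![-1, 1, 1, 1, 1], ![-1, 1, 1, 1, 1]]

theorem cover : ∀ v : Fin 5 → Bool, ∃ i : Fin 6, ∃ k : Fin 6, ∀ j : Fin 5,
    (v j = true → 2 ≤ A i j + (3 * (k : ℤ) - 1) * B i j ∧ A i j + (3 * (k : ℤ) - 1) * B i j ≤ 20) ∧
    (v j = false → -20 ≤ A i j + (3 * (k : ℤ) - 1) * B i j ∧
      A i j + (3 * (k : ℤ) - 1) * B i j ≤ -1) := by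
  decide +kernel

theorem B2 : ∀ i : Fin 6, B i 2 = 1 := by decide

theorem B4 : ∀ i : Fin 6, B i 4 = 1 := by decide

theorem A24 : ∀ i : Fin 6, A i 2 + 2 ≤ A i 4 ∨ A i 4 + 2 ≤ A i 2 := by decide

noncomputable def line (i : Fin 6) : AffineSubspace ℝ (Fin 5 → ℝ) :=
  AffineSubspace.mk' (fun j => (A i j : ℝ)) (Submodule.span ℝ {fun j => (B i j : ℝ)})

theorem mem_line (i : Fin 6) (y : Fin 5 → ℝ) :
    y ∈ line i ↔ ∃ s : ℝ, ∀ j, y j = (A i j : ℝ) + s * (B i j : ℝ) := by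
  unfold line
  rw [AffineSubspace.mem_mk', Submodule.mem_span_singleton]
  constructor
  · rintro ⟨s, hs⟩
    refine ⟨s, fun j => ?_⟩
    have := congrFun hs j
    simp only [Pi.smul_apply, smul_eq_mul, vsub_eq_sub, Pi.sub_apply] at this
    linarith
  · rintro ⟨s, hs⟩
    refine ⟨s, funext fun j => ?_⟩
    simp only [Pi.smul_apply, smul_eq_mul, vsub_eq_sub, Pi.sub_apply]
    linarith [hs j]

theorem finrank_line (i : Fin 6) : Module.finrank ℝ (line i).direction = 1 := by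
  unfold line
  rw [AffineSubspace.direction_mk']
  apply finrank_span_singleton
  intro h
  have h2 := congrFun h 2
  have : B i 2 = 1 := B2 i
  simp [this] at h2

theorem line_misses (i : Fin 6) : ∀ y ∈ line i, ¬ (∀ j, 0 ≤ y j ∧ y j ≤ 1) := by
  intro y hy h
  obtain ⟨s, hs⟩ := (mem_line i y).1 hy
  have h2 := h 2
  have h4 := h 4
  rw [hs 2] at h2
  rw [hs 4] at h4
  have b2 : B i 2 = 1 := B2 i
  have b4 : B i 4 = 1 := B4 i
  have hd : A i 2 + 2 ≤ A i 4 ∨ A i 4 + 2 ≤ A i 2 := A24 i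
  rw [b2] at h2
  rw [b4] at h4
  rcases hd with hd | hd
  · have : (A i 2 : ℝ) + 2 ≤ (A i 4 : ℝ) := by exact_mod_cast hd
    push_cast at h2 h4
    linarith [h2.1, h2.2, h4.1, h4.2]
  · have : (A i 4 : ℝ) + 2 ≤ (A i 2 : ℝ) := by exact_mod_cast hd
    push_cast at h2 h4
    linarith [h2.1, h2.2, h4.1, h4.2]

theorem illum (x : Fin 5 → ℝ) (hx : ∀ j, 0 ≤ x j ∧ x j ≤ 1) :
    ∃ i, ∃ y ∈ line i, ∃ t : ℝ, 0 < t ∧
      ∀ j, 0 < (x + t • (x - y)) j ∧ (x + t • (x - y)) j < 1 := by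
  classical
  obtain ⟨i, k, hk⟩ := cover (fun j => decide (1 / 2 ≤ x j))
  refine ⟨i, fun j => (A i j : ℝ) + (3 * ((k : ℤ) : ℝ) - 1) * (B i j : ℝ),
    (mem_line i _).2 ⟨_, fun j => rfl⟩, 1 / 100, by norm_num, fun j => ?_⟩
  simp only [Pi.add_apply, Pi.smul_apply, Pi.sub_apply, smul_eq_mul]
  obtain ⟨h1, h2⟩ := hk j
  obtain ⟨hx0, hx1⟩ := hx j
  by_cases hj : 1 / 2 ≤ x j
  · obtain ⟨p, q⟩ := h1 (by simpa using hj)
    have p' : (2 : ℝ) ≤ (A i j : ℝ) + (3 * ((k : ℤ) : ℝ) - 1) * (B i j : ℝ) := by exact_mod_cast p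
    have q' : (A i j : ℝ) + (3 * ((k : ℤ) : ℝ) - 1) * (B i j : ℝ) ≤ 20 := by exact_mod_cast q
    constructor <;> linarith
  · obtain ⟨p, q⟩ := h2 (by simpa using hj)
    have p' : (-20 : ℝ) ≤ (A i j : ℝ) + (3 * ((k : ℤ) : ℝ) - 1) * (B i j : ℝ) := by
      exact_mod_cast p
    have q' : (A i j : ℝ) + (3 * ((k : ℤ) : ℝ) - 1) * (B i j : ℝ) ≤ -1 := by exact_mod_cast q
    push Not at hj
    constructor <;> linarith

def near (a b : ℕ) : Bool :=
  let x := a ^^^ b
  x == 0 || x == 1 || x == 2 || x == 4 || x == 8 || x == 16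

def check : ℕ → List ℕ → Bool
  | _, [] => false
  | 0, _ :: _ => true
  | k + 1, v :: U => (List.range 32).all fun c =>
      !(near v c) || check k (U.filter fun w => !(near w c))

theorem check_sound : ∀ (k : ℕ) (U C : List ℕ), C.length ≤ k → (∀ c ∈ C, c < 32) →
    check k U = true → ∃ w ∈ U, ∀ c ∈ C, near w c = false := by
  intro k
  induction k with
  | zero =>
    intro U C hC _ h
    cases U with
    | nil => simp [check] at h
    | cons v U =>
      have : C = [] := List.length_eq_zero_iff.1 (by omega)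
      exact ⟨v, by simp, by simp [this]⟩
  | succ k ih =>
    intro U C hC hlt h
    cases U with
    | nil => simp [check] at h
    | cons v U =>
      by_cases hv : ∀ c ∈ C, near v c = false
      · exact ⟨v, by simp, hv⟩
      · push Not at hv
        obtain ⟨c, hc, hvc⟩ := hv
        have hvc' : near v c = true := by simpa using hvc
        simp only [check, List.all_eq_true, List.mem_range] at h
        have h1 := h c (hlt c hc)
        rw [hvc'] at h1
        simp only [Bool.not_true, Bool.false_or] at h1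
        obtain ⟨w, hw, hw2⟩ := ih _ (C.erase c) (by rw [List.length_erase_of_mem hc]; omega)
          (fun c' hc' => hlt c' (List.mem_of_mem_erase hc')) h1
        rw [List.mem_filter] at hw
        refine ⟨w, List.mem_cons_of_mem _ hw.1, fun c' hc' => ?_⟩
        by_cases e : c' = c
        · subst e
          simpa using hw.2
        · exact hw2 c' ((List.mem_erase_of_ne e).2 hc')

theorem check6 : check 6 (List.range 32) = true := by decide +kernel

def enc (w : Fin 5 → Bool) : ℕ :=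
  (w 0).toNat + 2 * (w 1).toNat + 4 * (w 2).toNat + 8 * (w 3).toNat + 16 * (w 4).toNat

theorem enc_lt : ∀ w, enc w < 32 := by decide +kernel

theorem enc_surj : ∀ a ∈ List.range 32, ∃ w, enc w = a := by decide +kernel

theorem enc_near : ∀ w c : Fin 5 → Bool, hammingDist w c ≤ 1 → near (enc w) (enc c) = true := by
  decide +kernel

theorem seven_le (C : Finset (Fin 5 → Bool)) (h : ∀ w : Fin 5 → Bool, ∃ c ∈ C, hammingDist w c ≤ 1) :
    7 ≤ C.card := by
  by_contra hlt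
  obtain ⟨a, ha, hfar⟩ := check_sound 6 (List.range 32) (C.toList.map enc)
    (by simp; omega) (by
      intro c hc
      obtain ⟨w, _, rfl⟩ := List.mem_map.1 hc
      exact enc_lt w) check6
  obtain ⟨w, rfl⟩ := enc_surj a ha
  obtain ⟨c, hc, hd⟩ := h w
  have h1 := hfar (enc c) (List.mem_map.2 ⟨c, Finset.mem_toList.2 hc, rfl⟩)
  rw [enc_near w c hd] at h1
  exact absurd h1 (by simp)

/-- The negation of the preceding statement. -/
theorem result :
    ¬ (∀ d l : ℕ, l < d →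
      sInf {n : ℕ | ∃ L : Fin n → AffineSubspace ℝ (Fin d → ℝ),
          (∀ i, Module.finrank ℝ (L i).direction = l ∧
              ∀ y ∈ L i, ¬ (∀ j, 0 ≤ y j ∧ y j ≤ 1)) ∧
          ∀ x : Fin d → ℝ, (∀ j, 0 ≤ x j ∧ x j ≤ 1) → ¬ (∀ j, 0 < x j ∧ x j < 1) →
            ∃ i, ∃ y ∈ L i, ∃ t : ℝ, 0 < t ∧
              ∀ j, 0 < (x + t • (x - y)) j ∧ (x + t • (x - y)) j < 1}
        =
      sInf {n : ℕ | ∃ C : Finset (Fin d → Bool), C.card = n ∧
          ∀ w : Fin d → Bool, ∃ c ∈ C, hammingDist w c ≤ l}) := by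
  intro h
  have h51 := h 5 1 (by norm_num)
  have hle : sInf {n : ℕ | ∃ L : Fin n → AffineSubspace ℝ (Fin 5 → ℝ),
          (∀ i, Module.finrank ℝ (L i).direction = 1 ∧
              ∀ y ∈ L i, ¬ (∀ j, 0 ≤ y j ∧ y j ≤ 1)) ∧
          ∀ x : Fin 5 → ℝ, (∀ j, 0 ≤ x j ∧ x j ≤ 1) → ¬ (∀ j, 0 < x j ∧ x j < 1) →
            ∃ i, ∃ y ∈ L i, ∃ t : ℝ, 0 < t ∧
              ∀ j, 0 < (x + t • (x - y)) j ∧ (x + t • (x - y)) j < 1} ≤ 6 :=
    Nat.sInf_le ⟨line, fun i => ⟨finrank_line i, line_misses i⟩, fun x hx _ => illum x hx⟩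
  rw [h51] at hle
  have hne : ({n : ℕ | ∃ C : Finset (Fin 5 → Bool), C.card = n ∧
          ∀ w : Fin 5 → Bool, ∃ c ∈ C, hammingDist w c ≤ 1}).Nonempty :=
    ⟨_, Finset.univ, rfl, fun w => ⟨w, Finset.mem_univ w, by simp⟩⟩
  obtain ⟨C, hC, hcov⟩ := Nat.sInf_mem hne
  have := seven_le C hcov
  omega

end Pool.Agent.S08682
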