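import Pool.Statements.S08686

set_option autoImplicit false
open Pool Pool.MP_4e7ec3_co

namespace Pool.Agent.S08686

/-- The ten points, as multiples of `1/20`. -/
noncomputable def F : Finset ℝ := {0, 2/20, 3/20, 5/20, 6/20, 14/20, 15/20, 17/20, 18/20, 1}

/-- The map: two traps `{2,3,5,6}/20` and `{14,15,17,18}/20`. -/
noncomputable def T (p : ℝ) : ℝ :=
  if p ≤ 3/20 then 5/20 else if p ≤ 1/2 then 3/20 else if p ≤ 15/20 then 17/20 else 15/20

lemma mem_F {p : ℝ} : p ∈ F ↔ p = 0 ∨ p = 2/20 ∨ p = 3/20 ∨ p = 5/20 ∨ p = 6/20 ∨ p = 14/20 ∨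
    p = 15/20 ∨ p = 17/20 ∨ p = 18/20 ∨ p = 1 := by
  simp [F]

lemma T_low {p : ℝ} (h : p ≤ 1/2) : T p = 5/20 ∨ T p = 3/20 := by
  unfold T; split_ifs <;> simp_all

lemma T_high {p : ℝ} (h : 1/2 < p) : T p = 17/20 ∨ T p = 15/20 := by
  unfold T; split_ifs <;> first | (exfalso; linarith) | simp

/-- The negation of the preceding statement: There is a constant k such that for every finite F in [0,1] containing 0 and 1, every ε>0, and every T:F→F moving each point by more than ε, some p₀ in F reaches a point at distance at least 1/3 in at most k/ε steps, each step going to T(p) or a neighbour of T(p) in F. -/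
theorem result :
    ¬ (∃ k : ℝ, ∀ (F : Finset ℝ) (ε : ℝ) (T : ℝ → ℝ),
      (∀ p ∈ F, 0 ≤ p ∧ p ≤ 1) → (0 : ℝ) ∈ F → (1 : ℝ) ∈ F → 0 < ε →
      (∀ p ∈ F, T p ∈ F ∧ ε < |p - T p|) →
      ∃ p₀ ∈ F, ∃ n : ℕ, (n : ℝ) ≤ k / ε ∧
        ∃ x : ℕ → ℝ, x 0 = p₀ ∧
          (∀ i < n,
            x (i + 1) = T (x i) ∨
            (x (i + 1) ∈ F ∧ x (i + 1) < T (x i) ∧
              ∀ r ∈ F, r < T (x i) → r ≤ x (i + 1)) ∨
            (x (i + 1) ∈ F ∧ T (x i) < x (i + 1) ∧
              ∀ r ∈ F, T (x i) < r → x (i + 1) ≤ r)) ∧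
          1 / 3 ≤ |x n - p₀|) := by
  rintro ⟨k, hk⟩
  have h1 : ∀ p ∈ F, 0 ≤ p ∧ p ≤ 1 := by
    intro p hp
    rcases mem_F.mp hp with rfl | rfl | rfl | rfl | rfl | rfl | rfl | rfl | rfl | rfl <;> norm_num
  have h2 : ∀ p ∈ F, T p ∈ F ∧ (1/20 : ℝ) < |p - T p| := by
    intro p hp
    rcases mem_F.mp hp with rfl | rfl | rfl | rfl | rfl | rfl | rfl | rfl | rfl | rfl <;>
      norm_num [T, mem_F, lt_abs]
  obtain ⟨p, hp, n, -, x, hx0, hstep, hfar⟩ :=
    hk F (1/20) T h1 (mem_F.mpr (by norm_num)) (mem_F.mpr (by norm_num)) (by norm_num) h2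
  have m2 : (2/20 : ℝ) ∈ F := mem_F.mpr (by norm_num)
  have m6 : (6/20 : ℝ) ∈ F := mem_F.mpr (by norm_num)
  have m14 : (14/20 : ℝ) ∈ F := mem_F.mpr (by norm_num)
  have m18 : (18/20 : ℝ) ∈ F := mem_F.mpr (by norm_num)
  have low : p ≤ 6/20 → ∀ i ≤ n, 0 ≤ x i ∧ x i ≤ 6/20 := by
    intro hle i
    induction i with
    | zero => intro _; rw [hx0]; exact ⟨(h1 p hp).1, hle⟩
    | succ i ih =>
      intro hi
      have hT := T_low (p := x i) (by linarith [(ih (by omega)).2])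
      rcases hstep i (by omega) with h | ⟨hF, h, -⟩ | ⟨hF, -, h⟩
      · rcases hT with hT | hT <;> rw [h, hT] <;> norm_num
      · refine ⟨(h1 _ hF).1, ?_⟩
        rcases hT with hT | hT <;> linarith
      · refine ⟨(h1 _ hF).1, h _ m6 ?_⟩
        rcases hT with hT | hT <;> linarith
  have high : 14/20 ≤ p → ∀ i ≤ n, 14/20 ≤ x i ∧ x i ≤ 1 := by
    intro hle i
    induction i with
    | zero => intro _; rw [hx0]; exact ⟨hle, (h1 p hp).2⟩
    | succ i ih =>
      intro hi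
      have hT := T_high (p := x i) (by linarith [(ih (by omega)).1])
      rcases hstep i (by omega) with h | ⟨hF, -, h⟩ | ⟨hF, h, -⟩
      · rcases hT with hT | hT <;> rw [h, hT] <;> norm_num
      · refine ⟨h _ m14 ?_, (h1 _ hF).2⟩
        rcases hT with hT | hT <;> linarith
      · refine ⟨?_, (h1 _ hF).2⟩
        rcases hT with hT | hT <;> linarith
  have hcase : p ≤ 6/20 ∨ 14/20 ≤ p := by
    rcases mem_F.mp hp with rfl | rfl | rfl | rfl | rfl | rfl | rfl | rfl | rfl | rfl <;> norm_num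
  have hp01 := h1 p hp
  rcases hcase with h | h
  · have := low h n le_rfl
    rcases le_abs.mp hfar with h' | h' <;> linarith [this.1, this.2, hp01.1]
  · have := high h n le_rfl
    rcases le_abs.mp hfar with h' | h' <;> linarith [this.1, this.2, hp01.2]

end Pool.Agent.S08686
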