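import Pool.Statements.S08725

set_option autoImplicit false
open Classical
open Pool Pool.MP_507ed2_co

namespace Pool.Agent.S08725

open Finset

theorem pred_lemma {V : Type} {G : SimpleGraph V} (hG : G.Connected) {x y : V} {r : ℕ}
    (h : G.dist x y ≤ r + 1) (hne : x ≠ y) : ∃ w, G.Adj y w ∧ G.dist x w ≤ r := by
  obtain ⟨p, hp⟩ := hG.exists_walk_length_eq_dist y x
  cases p with
  | nil => exact absurd rfl hne
  | cons hadj q =>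
    refine ⟨_, hadj, ?_⟩
    have h1 := SimpleGraph.dist_le q
    rw [SimpleGraph.Walk.length_cons, SimpleGraph.dist_comm] at hp
    rw [SimpleGraph.dist_comm]
    omega

theorem dist_adj_le {V : Type} {G : SimpleGraph V} {x y : V} (h : G.Adj x y) : G.dist x y ≤ 1 := by
  rw [SimpleGraph.dist_eq_one_iff_adj.2 h]

theorem ball_lemma {V : Type} {G : SimpleGraph V} (hG : G.Connected)
    (hD : ∃ D : ℕ, ∀ v : V, (G.neighborSet v).encard ≤ (D : ℕ∞)) (r : ℕ) :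
    ∃ K : ℕ, ∀ x : V, ∃ T : Finset V, T.card ≤ K ∧ ∀ y, G.dist x y ≤ r → y ∈ T := by
  obtain ⟨D, hD⟩ := hD
  have hfin : ∀ v, (G.neighborSet v).Finite := fun v => Set.finite_of_encard_le_coe (hD v)
  have hcard : ∀ v, (hfin v).toFinset.card ≤ D := by
    intro v
    have := hD v
    rw [(hfin v).encard_eq_coe_toFinset_card] at this
    exact_mod_cast this
  induction r with
  | zero =>
    refine ⟨1, fun x => ⟨{x}, by simp, fun y hy => ?_⟩⟩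
    have := (hG.dist_eq_zero_iff (u := x) (v := y)).1 (by omega)
    simp [this]
  | succ r ih =>
    obtain ⟨K, hK⟩ := ih
    refine ⟨1 + K * D, fun x => ?_⟩
    obtain ⟨T, hT, hT'⟩ := hK x
    refine ⟨{x} ∪ T.biUnion fun v => (hfin v).toFinset, ?_, fun y hy => ?_⟩
    · refine (card_union_le _ _).trans (Nat.add_le_add (by simp) ?_)
      exact (card_biUnion_le_card_mul _ _ D fun v _ => hcard v).trans
        (Nat.mul_le_mul_right _ hT)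
    · by_cases hxy : x = y
      · simp [hxy]
      · obtain ⟨w, hw, hw'⟩ := pred_lemma hG hy hxy
        exact mem_union_right _ (mem_biUnion.2 ⟨w, hT' w hw', by simpa using hw.symm⟩)

theorem double_count {α β : Type} (A : Finset α) (B : Finset β) (rel : α → β → Prop)
    (g : β → ℝ) (hg : ∀ y, 0 ≤ g y) (K : ℕ)
    (hK : ∀ y, ∃ T : Finset α, T.card ≤ K ∧ ∀ x, rel x y → x ∈ T) :
    ∑ x ∈ A, ∑ y ∈ B, (if rel x y then g y else 0) ≤ K * ∑ y ∈ B, g y := by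
  rw [sum_comm, mul_sum]
  refine sum_le_sum fun y _ => ?_
  obtain ⟨T, hT, hT'⟩ := hK y
  rw [← sum_filter, sum_const, nsmul_eq_mul]
  refine mul_le_mul_of_nonneg_right ?_ (hg y)
  exact_mod_cast (card_le_card fun x hx => hT' x (mem_filter.1 hx).2).trans hT

theorem indep_lemma {V : Type} (G : SimpleGraph V) (A : Finset V) :
    ∃ S ⊆ A, (∀ s ∈ S, ∀ t ∈ S, ¬ G.Adj s t) ∧ ∀ x ∈ A, ∃ s ∈ S, G.dist x s ≤ 1 := by
  obtain ⟨S, hS, hmax⟩ := Set.exists_max_image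
    {S : Finset V | S ⊆ A ∧ ∀ s ∈ S, ∀ t ∈ S, ¬ G.Adj s t} card
    (A.powerset.finite_toSet.subset fun S hS => by simpa using hS.1) ⟨∅, by simp⟩
  refine ⟨S, hS.1, hS.2, fun x hx => ?_⟩
  by_contra hcon
  push Not at hcon
  have hxS : x ∉ S := fun h => by simpa using hcon x h
  have hadj : ∀ s ∈ S, ¬ G.Adj x s := fun s hs h => by
    have := hcon s hs
    have := dist_adj_le h
    omega
  have := hmax (insert x S) (by
    refine ⟨insert_subset hx hS.1, fun s hs t ht => ?_⟩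
    rw [mem_insert] at hs ht
    rcases hs with rfl | hs <;> rcases ht with rfl | ht
    · exact G.irrefl
    · exact hadj t ht
    · exact fun h => hadj s hs h.symm
    · exact hS.2 s hs t ht)
  rw [card_insert_of_notMem hxS] at this
  omega

/-- The transfer construction. -/
theorem transfer {V₁ V₂ : Type} (G₁ : SimpleGraph V₁) (G₂ : SimpleGraph V₂) [Infinite V₁]
    (h₁ : G₁.Connected) (h₂ : G₂.Connected)
    (hD₁ : ∃ D : ℕ, ∀ v : V₁, (G₁.neighborSet v).encard ≤ (D : ℕ∞))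
    (hD₂ : ∃ D : ℕ, ∀ v : V₂, (G₂.neighborSet v).encard ≤ (D : ℕ∞))
    (φ : V₁ → V₂) (ψ : V₂ → V₁) (R : ℕ) (hR : 1 ≤ R)
    (P1 : ∀ z z', G₂.Adj z z' → G₁.dist (ψ z) (ψ z') ≤ R)
    (P2 : ∀ r : ℕ, ∃ r' : ℕ, ∀ z x, G₁.dist (ψ z) x ≤ r → G₂.dist (φ x) z ≤ r')
    (P3 : ∀ x, G₁.dist (ψ (φ x)) x ≤ R) :
    ∃ a₁ a₂ a₃ : ℝ, ∃ K : ℕ, 0 ≤ a₁ ∧ 0 ≤ a₂ ∧ 0 ≤ a₃ ∧ ∀ Ω₂ B₂ : Finset V₂,
      (∀ v : V₂, v ∈ B₂ ↔ v ∉ Ω₂ ∧ ∃ u ∈ Ω₂, G₂.Adj u v) →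
      ∃ Ω₁ B₁ : Finset V₁, (∀ v : V₁, v ∈ B₁ ↔ v ∉ Ω₁ ∧ ∃ u ∈ Ω₁, G₁.Adj u v) ∧
        B₂.card ≤ K * B₁.card ∧ ∀ (u : V₁ → ℝ) (m : ℝ),
          ∑ x ∈ B₁, (u x - m) ^ 2 ≤
            a₁ * ((∑ x ∈ Ω₁, ∑ y ∈ Ω₁, (if G₁.Adj x y then (u x - u y) ^ 2 else 0)) +
              (∑ x ∈ Ω₁, ∑ y ∈ B₁, (if G₁.Adj x y then (u x - u y) ^ 2 else 0))) +
            a₂ * ∑ y ∈ B₂, (u (ψ y) - m) ^ 2 ∧
          (∑ x ∈ Ω₂, ∑ y ∈ Ω₂, (if G₂.Adj x y then (u (ψ x) - u (ψ y)) ^ 2 else 0)) +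
              (∑ x ∈ Ω₂, ∑ y ∈ B₂, (if G₂.Adj x y then (u (ψ x) - u (ψ y)) ^ 2 else 0)) ≤
            a₃ * ((∑ x ∈ Ω₁, ∑ y ∈ Ω₁, (if G₁.Adj x y then (u x - u y) ^ 2 else 0)) +
              (∑ x ∈ Ω₁, ∑ y ∈ B₁, (if G₁.Adj x y then (u x - u y) ^ 2 else 0))) := by
  have P4 : ∀ r : ℕ, ∃ K : ℕ, ∀ x, ∃ T : Finset V₂, T.card ≤ K ∧
      ∀ z, G₁.dist (ψ z) x ≤ r → z ∈ T := by
    intro r
    obtain ⟨r', hr'⟩ := P2 r
    obtain ⟨K, hK⟩ := ball_lemma h₂ hD₂ r'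
    refine ⟨K, fun x => ?_⟩
    obtain ⟨T, hT, hT'⟩ := hK (φ x)
    exact ⟨T, hT, fun z hz => hT' z (hr' z x hz)⟩
  obtain ⟨M, hM⟩ := P2 (R + 1)
  set ρ : ℕ := R + 1 + M * R + R with hρ
  obtain ⟨K1, hK1⟩ := P4 1
  obtain ⟨K2, hK2⟩ := P4 R
  obtain ⟨K3, hK3⟩ := ball_lemma h₁ hD₁ ρ
  obtain ⟨K4, hK4⟩ := ball_lemma h₂ hD₂ 1
  obtain ⟨K5, hK5⟩ := ball_lemma h₁ hD₁ (R + 1)
  refine ⟨2 * (1 + R + M * R) ^ 2 * K3, 2 * K3, 2 * K4 * R ^ 2 * K2, K1, by positivity,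
    by positivity, by positivity, fun Ω₂ B₂ hB₂ => ?_⟩
  choose T5 hT5 hT5' using hK5
  obtain ⟨S, hSsub, hSind, hSdom⟩ := indep_lemma G₁ (B₂.image ψ)
  set U : Finset V₁ := ((Ω₂ ∪ B₂).biUnion fun z => T5 (ψ z)).filter
    fun x => ∃ z ∈ Ω₂ ∪ B₂, G₁.dist (ψ z) x ≤ R with hU
  have hUmem : ∀ x, x ∈ U ↔ ∃ z ∈ Ω₂ ∪ B₂, G₁.dist (ψ z) x ≤ R := by
    intro x
    rw [hU, mem_filter, and_iff_right_iff_imp]
    rintro ⟨z, hz, hd⟩
    exact mem_biUnion.2 ⟨z, hz, hT5' _ _ (by omega)⟩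
  set Ω₁ : Finset V₁ := U \ S with hΩ₁
  set B₁ : Finset V₁ := ((Ω₂ ∪ B₂).biUnion fun z => T5 (ψ z)).filter
    fun v => v ∉ Ω₁ ∧ ∃ u ∈ Ω₁, G₁.Adj u v with hB₁
  have hB₁mem : ∀ v, v ∈ B₁ ↔ v ∉ Ω₁ ∧ ∃ u ∈ Ω₁, G₁.Adj u v := by
    intro v
    rw [hB₁, mem_filter, and_iff_right_iff_imp]
    rintro ⟨-, w, hw, hadj⟩
    obtain ⟨z, hz, hd⟩ := (hUmem w).1 (mem_sdiff.1 hw).1
    refine mem_biUnion.2 ⟨z, hz, hT5' _ _ ?_⟩
    have := h₁.dist_triangle (u := ψ z) (v := w) (w := v)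
    have := dist_adj_le hadj
    omega
  have hSB : S ⊆ B₁ := by
    intro s hs
    rw [hB₁mem]
    refine ⟨fun h => (mem_sdiff.1 h).2 hs, ?_⟩
    obtain ⟨y, hy, rfl⟩ := mem_image.1 (hSsub hs)
    obtain ⟨x, hx⟩ := exists_ne (ψ y)
    obtain ⟨w, hw, -⟩ := pred_lemma h₁ (Nat.le_succ (G₁.dist x (ψ y))) hx
    refine ⟨w, mem_sdiff.2 ⟨(hUmem w).2 ⟨y, mem_union_right _ hy, ?_⟩, fun h => ?_⟩, hw.symm⟩
    · exact (dist_adj_le hw).trans hR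
    · exact hSind _ hs _ h hw
  refine ⟨Ω₁, B₁, hB₁mem, ?_, fun u m => ?_⟩
  · choose T1 hT1 hT1' using hK1
    have : B₂ ⊆ S.biUnion T1 := by
      intro y hy
      obtain ⟨s, hs, hd⟩ := hSdom (ψ y) (mem_image_of_mem _ hy)
      exact mem_biUnion.2 ⟨s, hs, hT1' s y hd⟩
    refine (card_le_card this).trans ((card_biUnion_le_card_mul _ _ K1 fun s _ => hT1 s).trans ?_)
    rw [mul_comm]
    exact Nat.mul_le_mul_left _ (card_le_card hSB)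
  set e : V₁ → ℝ := fun x => ∑ y ∈ Ω₁, (if G₁.Adj x y then (u x - u y) ^ 2 else 0) +
    ∑ y ∈ B₁, (if G₁.Adj x y then (u x - u y) ^ 2 else 0) with he
  have hnn : ∀ (A : Finset V₁) x, 0 ≤ ∑ y ∈ A, (if G₁.Adj x y then (u x - u y) ^ 2 else 0) :=
    fun A x => sum_nonneg fun y _ => by positivity
  have he0 : ∀ x, 0 ≤ e x := fun x => add_nonneg (hnn _ _) (hnn _ _)
  have he1 : ∀ x ∈ Ω₁, ∀ y, G₁.Adj x y → (u x - u y) ^ 2 ≤ e x := by
    intro x hx y hxy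
    have key : ∀ A : Finset V₁, y ∈ A →
        (u x - u y) ^ 2 ≤ ∑ y ∈ A, (if G₁.Adj x y then (u x - u y) ^ 2 else 0) := by
      intro A hA
      have := single_le_sum (f := fun y => if G₁.Adj x y then (u x - u y) ^ 2 else (0 : ℝ))
        (fun y _ => by positivity) hA
      simpa [hxy] using this
    by_cases hy : y ∈ Ω₁
    · exact (key _ hy).trans (le_add_of_nonneg_right (hnn _ _))
    · exact (key _ ((hB₁mem y).2 ⟨hy, x, hx, hxy⟩)).trans (le_add_of_nonneg_left (hnn _ _))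
  have hesum : (∑ x ∈ Ω₁, ∑ y ∈ Ω₁, (if G₁.Adj x y then (u x - u y) ^ 2 else 0)) +
      (∑ x ∈ Ω₁, ∑ y ∈ B₁, (if G₁.Adj x y then (u x - u y) ^ 2 else 0)) = ∑ x ∈ Ω₁, e x := by
    rw [← sum_add_distrib]
  rw [hesum]
  set W : V₁ → ℕ → ℝ := fun x₀ r => ∑ s ∈ Ω₁, (if G₁.dist x₀ s ≤ r then e s else 0) with hW
  have hW0 : ∀ x₀ r, 0 ≤ W x₀ r := fun x₀ r => sum_nonneg fun s _ => by
    split_ifs
    · exact he0 s
    · exact le_rfl
  have hstep : ∀ x₀ r x y, G₁.Adj x y → x ∈ Ω₁ → G₁.dist x₀ x ≤ r →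
      |u x - u y| ≤ √(W x₀ r) := by
    intro x₀ r x y hxy hx hd
    apply Real.abs_le_sqrt
    refine (he1 x hx y hxy).trans ?_
    have := single_le_sum (f := fun s => if G₁.dist x₀ s ≤ r then e s else (0 : ℝ))
      (fun s _ => by
        split_ifs
        · exact he0 s
        · exact le_rfl) hx
    simpa [hd] using this
  have hgeo : ∀ x₀ r, ∀ z ∈ Ω₂ ∪ B₂, G₁.dist x₀ (ψ z) + R ≤ r → ∀ k, k ≤ R → ∀ x,
      G₁.dist (ψ z) x ≤ k → |u (ψ z) - u x| ≤ k * √(W x₀ r) := by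
    intro x₀ r z hz hr k
    induction k with
    | zero =>
      intro _ x hx
      have := (h₁.dist_eq_zero_iff (u := ψ z) (v := x)).1 (by omega)
      simp [this]
    | succ k ih =>
      intro hk x hx
      by_cases hzx : ψ z = x
      · rw [hzx, sub_self, abs_zero]
        positivity
      obtain ⟨w, hw, hd⟩ := pred_lemma h₁ hx hzx
      have h1 := ih (by omega) w hd
      have hxU : x ∈ U := (hUmem x).2 ⟨z, hz, by omega⟩
      have hwU : w ∈ U := (hUmem w).2 ⟨z, hz, by omega⟩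
      have t1 := h₁.dist_triangle (u := x₀) (v := ψ z) (w := x)
      have t2 := h₁.dist_triangle (u := x₀) (v := ψ z) (w := w)
      have h2 : |u w - u x| ≤ √(W x₀ r) := by
        by_cases hxS : x ∈ S
        · exact hstep x₀ r w x hw.symm (mem_sdiff.2 ⟨hwU, fun h => hSind _ hxS _ h hw⟩)
            (by omega)
        · rw [abs_sub_comm]
          exact hstep x₀ r x w hw (mem_sdiff.2 ⟨hxU, hxS⟩) (by omega)
      have h3 := abs_sub_le (u (ψ z)) (u w) (u x)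
      push_cast
      linarith
  have hexit : ∀ x₀ r w, w ∉ Ω₂ → ∀ k : ℕ, ∀ z ∈ Ω₂ ∪ B₂, G₂.dist w z ≤ k →
      G₁.dist x₀ (ψ z) + k * R + R ≤ r → ∃ y ∈ B₂, G₁.dist x₀ (ψ y) ≤ r ∧
        |u (ψ z) - u (ψ y)| ≤ k * R * √(W x₀ r) := by
    intro x₀ r w hw k
    induction k with
    | zero =>
      intro z hz hd hr
      have := (h₂.dist_eq_zero_iff (u := w) (v := z)).1 (by omega)
      subst this
      exact ⟨w, (mem_union.1 hz).resolve_left hw, by omega, by simp⟩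
    | succ k ih =>
      intro z hz hd hr
      by_cases hzB : z ∈ B₂
      · refine ⟨z, hzB, by omega, ?_⟩
        rw [sub_self, abs_zero]
        positivity
      have hzΩ : z ∈ Ω₂ := (mem_union.1 hz).resolve_right hzB
      obtain ⟨z', hz', hd'⟩ := pred_lemma h₂ hd (fun h => hw (h ▸ hzΩ))
      have hz'mem : z' ∈ Ω₂ ∪ B₂ := by
        by_cases h : z' ∈ Ω₂
        · exact mem_union_left _ h
        · exact mem_union_right _ ((hB₂ z').2 ⟨h, z, hzΩ, hz'⟩)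
      have t1 := h₁.dist_triangle (u := x₀) (v := ψ z) (w := ψ z')
      have t2 := P1 z z' hz'
      rw [Nat.succ_mul] at hr
      obtain ⟨y, hy, hyd, hyu⟩ := ih z' hz'mem hd' (by omega)
      refine ⟨y, hy, hyd, ?_⟩
      have h1 := hgeo x₀ r z hz (by omega) R le_rfl (ψ z') t2
      have h3 := abs_sub_le (u (ψ z)) (u (ψ z')) (u (ψ y))
      push_cast
      linarith
  constructor
  · have key : ∀ x ∈ B₁, (u x - m) ^ 2 ≤ 2 * (1 + R + M * R) ^ 2 * W x ρ +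
        2 * ∑ y ∈ B₂, (if G₁.dist (ψ y) x ≤ ρ then (u (ψ y) - m) ^ 2 else 0) := by
      intro x hx
      have h0 : ∃ y ∈ B₂, G₁.dist x (ψ y) ≤ ρ ∧
          |u x - u (ψ y)| ≤ (1 + R + M * R) * √(W x ρ) := by
        by_cases hxS : x ∈ S
        · obtain ⟨y, hy, rfl⟩ := mem_image.1 (hSsub hxS)
          refine ⟨y, hy, by simp, ?_⟩
          rw [sub_self, abs_zero]
          positivity
        obtain ⟨hxΩ, w, hw, hwx⟩ := (hB₁mem x).1 hx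
        have hxU : x ∉ U := fun h => hxΩ (mem_sdiff.2 ⟨h, hxS⟩)
        obtain ⟨z, hz, hd⟩ := (hUmem w).1 (mem_sdiff.1 hw).1
        have hφ : φ x ∉ Ω₂ := fun h => hxU ((hUmem x).2 ⟨φ x, mem_union_left _ h, P3 x⟩)
        have t1 := h₁.dist_triangle (u := ψ z) (v := w) (w := x)
        have t2 := dist_adj_le hwx
        have t3 : G₁.dist x (ψ z) = G₁.dist (ψ z) x := SimpleGraph.dist_comm
        have t4 := dist_adj_le hwx.symm
        obtain ⟨y, hy, hyd, hyu⟩ := hexit x ρ (φ x) hφ M z hz (hM z x (by omega)) (by omega)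
        refine ⟨y, hy, hyd, ?_⟩
        have h1 := hgeo x ρ z hz (by omega) R le_rfl w hd
        have h2 := hstep x ρ w x hwx hw (by omega)
        have h3 := abs_sub_le (u x) (u w) (u (ψ y))
        have h4 := abs_sub_le (u w) (u (ψ z)) (u (ψ y))
        rw [abs_sub_comm] at h1 h2
        linarith
      obtain ⟨y, hy, hyd, hyu⟩ := h0
      have h1 : (u x - u (ψ y)) ^ 2 ≤ (1 + R + M * R) ^ 2 * W x ρ := by
        rw [← sq_abs, ← Real.sq_sqrt (hW0 x ρ), ← mul_pow]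
        exact pow_le_pow_left₀ (abs_nonneg _) hyu 2
      have h2 := single_le_sum
        (f := fun y => if G₁.dist (ψ y) x ≤ ρ then (u (ψ y) - m) ^ 2 else (0 : ℝ))
        (fun y _ => by positivity) hy
      rw [SimpleGraph.dist_comm] at hyd
      simp only [hyd, if_true] at h2
      nlinarith [sq_nonneg ((u x - u (ψ y)) - (u (ψ y) - m))]
    refine (sum_le_sum key).trans ?_
    rw [sum_add_distrib, ← mul_sum, ← mul_sum]
    have d1 := double_count B₁ Ω₁ (fun x s => G₁.dist x s ≤ ρ) e he0 K3 (fun s => by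
      obtain ⟨T, hT, hT'⟩ := hK3 s
      exact ⟨T, hT, fun x hx => hT' x (by rwa [SimpleGraph.dist_comm])⟩)
    have d2 := double_count B₁ B₂ (fun x y => G₁.dist (ψ y) x ≤ ρ)
      (fun y => (u (ψ y) - m) ^ 2) (fun y => by positivity) K3 (fun y => hK3 (ψ y))
    have d3 : ∑ x ∈ B₁, W x ρ ≤ K3 * ∑ x ∈ Ω₁, e x := by convert d1
    have d4 : ∑ x ∈ B₁, ∑ y ∈ B₂, (if G₁.dist (ψ y) x ≤ ρ then (u (ψ y) - m) ^ 2 else 0) ≤
        K3 * ∑ y ∈ B₂, (u (ψ y) - m) ^ 2 := by convert d2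
    have d5 := mul_le_mul_of_nonneg_left d3
      (show (0 : ℝ) ≤ 2 * (1 + R + M * R) ^ 2 by positivity)
    linarith
  · have key : ∀ A : Finset V₂, ∀ z ∈ Ω₂,
        ∑ y ∈ A, (if G₂.Adj z y then (u (ψ z) - u (ψ y)) ^ 2 else 0) ≤
          K4 * R ^ 2 * W (ψ z) R := by
      intro A z hz
      obtain ⟨T, hT, hT'⟩ := hK4 z
      rw [← sum_filter]
      have h1 : ∀ y ∈ A.filter (G₂.Adj z), (u (ψ z) - u (ψ y)) ^ 2 ≤ R ^ 2 * W (ψ z) R := by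
        intro y hy
        have := hgeo (ψ z) R z (mem_union_left _ hz) (by simp) R le_rfl (ψ y)
          (P1 z y (mem_filter.1 hy).2)
        rw [← sq_abs, ← Real.sq_sqrt (hW0 (ψ z) R), ← mul_pow]
        exact pow_le_pow_left₀ (abs_nonneg _) this 2
      refine (sum_le_card_nsmul _ _ _ h1).trans ?_
      rw [nsmul_eq_mul, mul_assoc]
      refine mul_le_mul_of_nonneg_right ?_ (mul_nonneg (by positivity) (hW0 _ _))
      exact_mod_cast (card_le_card fun y hy =>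
        hT' y (dist_adj_le (mem_filter.1 hy).2)).trans hT
    have d1 := double_count Ω₂ Ω₁ (fun z s => G₁.dist (ψ z) s ≤ R) e he0 K2 hK2
    have d3 : ∑ z ∈ Ω₂, W (ψ z) R ≤ K2 * ∑ x ∈ Ω₁, e x := by convert d1
    have d5 := mul_le_mul_of_nonneg_left d3 (show (0 : ℝ) ≤ K4 * R ^ 2 by positivity)
    have s1 := sum_le_sum (key Ω₂)
    have s2 := sum_le_sum (key B₂)
    rw [← mul_sum] at s1 s2
    linarith


/-- For infinite connected bounded-degree graphs G1, G2 roughly quasi-isometric, if every finite vertex set of G1 with boundary B (∣B∣≥2) has first Steklov eigenvalue ≤ C/∣B∣^α, then some constant gives the same bound with the same α for G2. -/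
theorem result :
    ∀ (V₁ V₂ : Type) (G₁ : SimpleGraph V₁) (G₂ : SimpleGraph V₂) (α : ℝ), 0 < α →
      Infinite V₁ → Infinite V₂ → G₁.Connected → G₂.Connected →
      (∃ D : ℕ, ∀ v : V₁, (G₁.neighborSet v).encard ≤ (D : ℕ∞)) →
      (∃ D : ℕ, ∀ v : V₂, (G₂.neighborSet v).encard ≤ (D : ℕ∞)) →
      (∃ φ : V₁ → V₂, ∃ a b c : ℝ, 1 ≤ a ∧ 0 ≤ b ∧ 0 ≤ c ∧
        (∀ x y : V₁, (G₁.dist x y : ℝ) / a - b ≤ (G₂.dist (φ x) (φ y) : ℝ) ∧
          (G₂.dist (φ x) (φ y) : ℝ) ≤ a * (G₁.dist x y : ℝ) + b) ∧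
        ∀ z : V₂, ∃ x : V₁, (G₂.dist (φ x) z : ℝ) ≤ c) →
      (∃ C : ℝ, ∀ Ω B : Finset V₁, (∀ v : V₁, v ∈ B ↔ v ∉ Ω ∧ ∃ u ∈ Ω, G₁.Adj u v) →
        2 ≤ B.card → ∃ f : V₁ → ℝ, ∑ x ∈ B, f x = 0 ∧ 0 < ∑ x ∈ B, f x ^ 2 ∧
          (∑ x ∈ Ω, ∑ y ∈ Ω, (if G₁.Adj x y then (f x - f y) ^ 2 else 0)) / 2 +
            (∑ x ∈ Ω, ∑ y ∈ B, (if G₁.Adj x y then (f x - f y) ^ 2 else 0))
            ≤ C / (B.card : ℝ) ^ α * ∑ x ∈ B, f x ^ 2) →
      (∃ C : ℝ, ∀ Ω B : Finset V₂, (∀ v : V₂, v ∈ B ↔ v ∉ Ω ∧ ∃ u ∈ Ω, G₂.Adj u v) →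
        2 ≤ B.card → ∃ f : V₂ → ℝ, ∑ x ∈ B, f x = 0 ∧ 0 < ∑ x ∈ B, f x ^ 2 ∧
          (∑ x ∈ Ω, ∑ y ∈ Ω, (if G₂.Adj x y then (f x - f y) ^ 2 else 0)) / 2 +
            (∑ x ∈ Ω, ∑ y ∈ B, (if G₂.Adj x y then (f x - f y) ^ 2 else 0))
            ≤ C / (B.card : ℝ) ^ α * ∑ x ∈ B, f x ^ 2) := by
  intro V₁ V₂ G₁ G₂ α hα hI₁ hI₂ h₁ h₂ hD₁ hD₂ ⟨φ, a, b, c, ha, hb, hc, hφ, hsurj⟩ ⟨C, hC⟩
  choose ψ hψ using hsurj
  have ha0 : 0 < a := by linarith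
  have hlow : ∀ x y : V₁, (G₁.dist x y : ℝ) ≤ a * (G₂.dist (φ x) (φ y) + b) := by
    intro x y
    have := (hφ x y).1
    rw [sub_le_iff_le_add, div_le_iff₀ ha0] at this
    linarith
  obtain ⟨R, hR⟩ := exists_nat_ge (a * (2 * c + 1 + b))
  have hR1 : 1 ≤ R := by
    have : (1 : ℝ) ≤ R := by nlinarith
    exact_mod_cast this
  have P1 : ∀ z z', G₂.Adj z z' → G₁.dist (ψ z) (ψ z') ≤ R := by
    intro z z' hz
    have t1 := h₂.dist_triangle (u := φ (ψ z)) (v := z) (w := φ (ψ z'))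
    have t2 := h₂.dist_triangle (u := z) (v := z') (w := φ (ψ z'))
    have t3 := dist_adj_le hz
    have t4 : G₂.dist z' (φ (ψ z')) = G₂.dist (φ (ψ z')) z' := SimpleGraph.dist_comm
    have t5 : G₂.dist (φ (ψ z)) (φ (ψ z')) ≤ G₂.dist (φ (ψ z)) z + 1 + G₂.dist (φ (ψ z')) z' := by
      omega
    have t6 : (G₂.dist (φ (ψ z)) (φ (ψ z')) : ℝ) ≤
        G₂.dist (φ (ψ z)) z + 1 + G₂.dist (φ (ψ z')) z' := by exact_mod_cast t5
    have t7 := hlow (ψ z) (ψ z')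
    have t8 := hψ z
    have t9 := hψ z'
    have : (G₁.dist (ψ z) (ψ z') : ℝ) ≤ R := by nlinarith
    exact_mod_cast this
  have P2 : ∀ r : ℕ, ∃ r' : ℕ, ∀ z x, G₁.dist (ψ z) x ≤ r → G₂.dist (φ x) z ≤ r' := by
    intro r
    obtain ⟨r', hr'⟩ := exists_nat_ge (a * r + b + c)
    refine ⟨r', fun z x hzx => ?_⟩
    have t1 := h₂.dist_triangle (u := φ x) (v := φ (ψ z)) (w := z)
    have t2 : (G₂.dist (φ x) z : ℝ) ≤ G₂.dist (φ x) (φ (ψ z)) + G₂.dist (φ (ψ z)) z := by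
      exact_mod_cast t1
    have t3 := (hφ x (ψ z)).2
    have t4 : (G₁.dist x (ψ z) : ℝ) ≤ r := by
      rw [SimpleGraph.dist_comm]
      exact_mod_cast hzx
    have t5 := hψ z
    have : (G₂.dist (φ x) z : ℝ) ≤ r' := by nlinarith
    exact_mod_cast this
  have P3 : ∀ x, G₁.dist (ψ (φ x)) x ≤ R := by
    intro x
    have t1 := hlow (ψ (φ x)) x
    have t2 := hψ (φ x)
    have : (G₁.dist (ψ (φ x)) x : ℝ) ≤ R := by nlinarith
    exact_mod_cast this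
  obtain ⟨a₁, a₂, a₃, K, ha₁, ha₂, ha₃, hT⟩ :=
    transfer G₁ G₂ h₁ h₂ hD₁ hD₂ φ ψ R hR1 P1 P2 P3
  obtain ⟨D, hD⟩ := ball_lemma h₂ hD₂ 1
  set C₀ : ℝ := |C| with hC₀
  have hC0 : 0 ≤ C₀ := abs_nonneg C
  have hKα : 0 ≤ (K : ℝ) ^ α := by positivity
  set τ : ℝ := 4 * a₁ * C₀ * (K : ℝ) ^ α + (K : ℝ) ^ α with hτ
  have hτ0 : 0 ≤ τ := by positivity
  refine ⟨4 * a₂ * a₃ * C₀ * (K : ℝ) ^ α + D * τ, fun Ω₂ B₂ hB₂ hcard => ?_⟩
  have hn₂ : (0 : ℝ) < (B₂.card : ℝ) := by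
    have : 0 < B₂.card := by omega
    exact_mod_cast this
  have hn₂α : (0 : ℝ) < (B₂.card : ℝ) ^ α := Real.rpow_pos_of_pos hn₂ α
  by_cases hsmall : (B₂.card : ℝ) ^ α ≤ τ
  · obtain ⟨y₁, hy₁, y₂, hy₂, hne⟩ := one_lt_card.1 (show 1 < B₂.card by omega)
    set f : V₂ → ℝ := fun v => (if v = y₁ then 1 else 0) - (if v = y₂ then 1 else 0) with hf
    have hf0 : ∀ x ∈ Ω₂, f x = 0 := by
      intro x hx
      have e1 : x ≠ y₁ := fun h => ((hB₂ y₁).1 hy₁).1 (h ▸ hx)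
      have e2 : x ≠ y₂ := fun h => ((hB₂ y₂).1 hy₂).1 (h ▸ hx)
      simp [hf, e1, e2]
    have hpos : 0 < ∑ x ∈ B₂, f x ^ 2 :=
      sum_pos' (fun x _ => sq_nonneg _) ⟨y₁, hy₁, by simp [hf, hne]⟩
    refine ⟨f, ?_, hpos, ?_⟩
    · simp [hf, sum_sub_distrib, hy₁, hy₂]
    · have e1 : ∑ x ∈ Ω₂, ∑ y ∈ Ω₂, (if G₂.Adj x y then (f x - f y) ^ 2 else 0) = 0 :=
        sum_eq_zero fun x hx => sum_eq_zero fun y hy => by simp [hf0 x hx, hf0 y hy]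
      have e2 : ∑ x ∈ Ω₂, ∑ y ∈ B₂, (if G₂.Adj x y then (f x - f y) ^ 2 else 0) =
          ∑ x ∈ Ω₂, ∑ y ∈ B₂, (if G₂.Adj x y then f y ^ 2 else 0) :=
        sum_congr rfl fun x hx => sum_congr rfl fun y _ => by simp [hf0 x hx]
      have e3 := double_count Ω₂ B₂ (fun x y => G₂.Adj x y) (fun y => f y ^ 2)
        (fun y => sq_nonneg _) D (fun y => by
          obtain ⟨T, hT, hT'⟩ := hD y
          exact ⟨T, hT, fun x hx => hT' x (dist_adj_le hx.symm)⟩)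
      rw [e1, e2, zero_div, zero_add]
      refine le_trans (by convert e3) (mul_le_mul_of_nonneg_right ?_ hpos.le)
      rw [le_div_iff₀ hn₂α]
      have : (D : ℝ) * (B₂.card : ℝ) ^ α ≤ D * τ :=
        mul_le_mul_of_nonneg_left hsmall (by positivity)
      have : 0 ≤ 4 * a₂ * a₃ * C₀ * (K : ℝ) ^ α := by positivity
      linarith
  push Not at hsmall
  obtain ⟨Ω₁, B₁, hB₁, hcmp, hu⟩ := hT Ω₂ B₂ hB₂
  have hcmp' : (B₂.card : ℝ) ^ α ≤ (K : ℝ) ^ α * (B₁.card : ℝ) ^ α := by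
    rw [← Real.mul_rpow (by positivity) (by positivity)]
    exact Real.rpow_le_rpow hn₂.le (by exact_mod_cast hcmp) hα.le
  have hK : K < B₂.card := by
    have h1 : (K : ℝ) ^ α < (B₂.card : ℝ) ^ α := by
      have : 0 ≤ 4 * a₁ * C₀ * (K : ℝ) ^ α := by positivity
      linarith
    have := (Real.rpow_lt_rpow_iff (by positivity) (by positivity) hα).1 h1
    exact_mod_cast this
  have hcard₁ : 2 ≤ B₁.card := by
    by_contra h
    have : K * B₁.card ≤ K * 1 := Nat.mul_le_mul_left _ (by omega)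
    omega
  have hn₁α : (0 : ℝ) < (B₁.card : ℝ) ^ α := by
    apply Real.rpow_pos_of_pos
    have : 0 < B₁.card := by omega
    exact_mod_cast this
  obtain ⟨u, hu0, huQ, huE⟩ := hC Ω₁ B₁ hB₁ hcard₁
  set m : ℝ := (∑ y ∈ B₂, u (ψ y)) / B₂.card with hm
  obtain ⟨h3, h4⟩ := hu u m
  have hQ : ∑ x ∈ B₁, u x ^ 2 ≤ ∑ x ∈ B₁, (u x - m) ^ 2 := by
    have : ∑ x ∈ B₁, (u x - m) ^ 2 =
        ∑ x ∈ B₁, u x ^ 2 - 2 * m * ∑ x ∈ B₁, u x + ∑ x ∈ B₁, m ^ 2 := by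
      rw [mul_sum, ← sum_sub_distrib, ← sum_add_distrib]
      exact sum_congr rfl fun x _ => by ring
    rw [this, hu0]
    have : 0 ≤ ∑ x ∈ B₁, m ^ 2 := sum_nonneg fun _ _ => sq_nonneg _
    linarith
  have n1 : 0 ≤ ∑ x ∈ Ω₁, ∑ y ∈ B₁, (if G₁.Adj x y then (u x - u y) ^ 2 else 0) :=
    sum_nonneg fun x _ => sum_nonneg fun y _ => by positivity
  have n2 : 0 ≤ ∑ x ∈ Ω₂, ∑ y ∈ Ω₂, (if G₂.Adj x y then (u (ψ x) - u (ψ y)) ^ 2 else 0) :=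
    sum_nonneg fun x _ => sum_nonneg fun y _ => by positivity
  set β : ℝ := C₀ / (B₁.card : ℝ) ^ α with hβ
  have hβ0 : 0 ≤ β := by positivity
  have hβ1 : C / (B₁.card : ℝ) ^ α ≤ β := div_le_div_of_nonneg_right (le_abs_self C) hn₁α.le
  have hβ2 : β ≤ C₀ * (K : ℝ) ^ α / (B₂.card : ℝ) ^ α := by
    rw [hβ, div_le_div_iff₀ hn₁α hn₂α]
    nlinarith
  have hβ3 : 4 * a₁ * β ≤ 1 := by
    have : 4 * a₁ * (C₀ * (K : ℝ) ^ α / (B₂.card : ℝ) ^ α) ≤ 1 := by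
      rw [← mul_div_assoc, div_le_one hn₂α]
      linarith
    nlinarith
  simp only [show ∀ x y : V₂, u (ψ x) - u (ψ y) = (u (ψ x) - m) - (u (ψ y) - m) from
    fun x y => by ring] at h4 n2
  refine ⟨fun y => u (ψ y) - m, ?_, ?_⟩
  · rw [sum_sub_distrib, sum_const, nsmul_eq_mul, hm]
    field_simp
    ring
  generalize ∑ x ∈ Ω₂, ∑ y ∈ Ω₂,
    (if G₂.Adj x y then ((u (ψ x) - m) - (u (ψ y) - m)) ^ 2 else 0) = A₂ at *
  generalize ∑ x ∈ Ω₂, ∑ y ∈ B₂,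
    (if G₂.Adj x y then ((u (ψ x) - m) - (u (ψ y) - m)) ^ 2 else 0) = A₂' at *
  generalize ∑ x ∈ Ω₁, ∑ y ∈ Ω₁, (if G₁.Adj x y then (u x - u y) ^ 2 else 0) = A₁ at *
  generalize ∑ x ∈ Ω₁, ∑ y ∈ B₁, (if G₁.Adj x y then (u x - u y) ^ 2 else 0) = A₁' at *
  generalize ∑ y ∈ B₂, (u (ψ y) - m) ^ 2 = F at *
  generalize ∑ x ∈ B₁, (u x - m) ^ 2 = Q' at *
  generalize ∑ x ∈ B₁, u x ^ 2 = Q at *
  have e1 : A₁ + A₁' ≤ 2 * β * Q := by nlinarith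
  have e2 : a₁ * (A₁ + A₁') ≤ Q / 2 := by
    have := mul_le_mul_of_nonneg_left e1 ha₁
    nlinarith
  have e3 : Q ≤ 2 * a₂ * F := by linarith
  have hF : 0 < F := by
    by_contra h
    push Not at h
    nlinarith
  refine ⟨hF, ?_⟩
  have e4 : A₂ + A₂' ≤ 4 * a₂ * a₃ * β * F := by
    have e5 := mul_le_mul_of_nonneg_left e1 ha₃
    have e6 := mul_le_mul_of_nonneg_left e3 (show 0 ≤ a₃ * (2 * β) by positivity)
    nlinarith
  have e7 : 4 * a₂ * a₃ * β ≤ (4 * a₂ * a₃ * C₀ * (K : ℝ) ^ α + D * τ) / (B₂.card : ℝ) ^ α := by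
    have e8 := mul_le_mul_of_nonneg_left hβ2 (show 0 ≤ 4 * a₂ * a₃ by positivity)
    refine e8.trans ?_
    rw [← mul_div_assoc]
    refine div_le_div_of_nonneg_right ?_ hn₂α.le
    have : 0 ≤ (D : ℝ) * τ := by positivity
    linarith
  have e9 := mul_le_mul_of_nonneg_right e7 hF.le
  linarith

end Pool.Agent.S08725
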