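import Pool.Statements.S08761
import Pool.Agent.H12.FibreCount

set_option autoImplicit false
open Pool Pool.MP_52d521_co

namespace Pool.Agent.S08761

open MvPolynomial Pool.Agent.H12.FibreCount

lemma gram {V : Type} (g : V → V → ℂ) (hs : ∀ u v, g u v = g v u)
    (hm : ∀ a b c x y z, g a x * (g b y * g c z - g b z * g c y) -
      g a y * (g b x * g c z - g b z * g c x) + g a z * (g b x * g c y - g b y * g c x) = 0) :
    ∃ x y : V → ℂ, ∀ u v, x u * x v + y u * y v = g u v := by
  by_cases h1 : ∃ a, g a a ≠ 0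
  · obtain ⟨a, ha⟩ := h1
    obtain ⟨s, hs2⟩ := IsAlgClosed.exists_pow_nat_eq (g a a) two_pos
    have hs0 : s ≠ 0 := fun e => ha (by rw [← hs2, e]; ring)
    let g' : V → V → ℂ := fun u v => g u v - g a u / s * (g a v / s)
    have e1 : ∀ u v, g a a * g' u v = g a a * g u v - g a u * g a v := fun u v => by
      simp only [g']; rw [← hs2]; field_simp
    have e2 : ∀ b c y z, g' b y * g' c z = g' b z * g' c y := fun b c y z => by
      apply mul_left_cancel₀ (mul_ne_zero ha ha)
      have := hm a b c a y z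
      rw [hs b a, hs c a] at this
      calc _ = (g a a * g' b y) * (g a a * g' c z) := by ring
        _ = (g a a * g' b z) * (g a a * g' c y) := by
          rw [e1, e1, e1, e1]; linear_combination (g a a) * this
        _ = _ := by ring
    have e3 : ∀ u v, g' u v = g' v u := fun u v => by simp only [g']; rw [hs u v]; ring
    by_cases h2 : ∃ b, g' b b ≠ 0
    · obtain ⟨b, hb⟩ := h2
      obtain ⟨t, ht2⟩ := IsAlgClosed.exists_pow_nat_eq (g' b b) two_pos
      have ht0 : t ≠ 0 := fun e => hb (by rw [← ht2, e]; ring)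
      refine ⟨fun u => g a u / s, fun u => g' b u / t, fun u v => ?_⟩
      have : g' b u / t * (g' b v / t) = g' u v := by
        have := e2 b u b v
        rw [e3 u b, ← ht2] at this
        field_simp
        linear_combination -this
      rw [this]; simp only [g']; ring
    · push Not at h2
      refine ⟨fun u => g a u / s, fun _ => 0, fun u v => ?_⟩
      have : g' u v = 0 := by
        have := e2 u v v u
        rw [e3 v u, h2 u, zero_mul] at this
        exact mul_self_eq_zero.mp this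
      simp only [g'] at this
      linear_combination -this
  · push Not at h1
    by_cases h2 : ∃ a b, g a b ≠ 0
    · obtain ⟨a, b, hab⟩ := h2
      refine ⟨fun u => g a u / 2 + g b u / g a b, fun u => Complex.I * (g a u / 2 - g b u / g a b),
        fun u v => ?_⟩
      have := hm a b u a b v
      rw [h1, h1, hs b a, hs u a, hs u b] at this
      have e : g u v = g a u * (g b v / g a b) + g b u / g a b * g a v := by
        field_simp
        apply mul_left_cancel₀ hab
        linear_combination -this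
      rw [e]
      linear_combination (g a u / 2 - g b u / g a b) * (g a v / 2 - g b v / g a b) *
        Complex.I_mul_I
    · push Not at h2
      exact ⟨0, 0, fun u v => by simp [h2]⟩

variable {V : Type}

noncomputable def D (u v : V) : MvPolynomial (V × Fin 2) ℚ := ∑ k, (X (u, k) - X (v, k)) ^ 2

lemma D_comm (u v : V) : D u v = D v u := by
  simp only [D, Fin.sum_univ_two]; ring

noncomputable abbrev A (V : Type) : Subalgebra ℚ (MvPolynomial (V × Fin 2) ℚ) :=
  Algebra.adjoin ℚ (Set.range fun z : V × V => D z.1 z.2)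

noncomputable def d (u v : V) : A V := ⟨D u v, Algebra.subset_adjoin ⟨(u, v), rfl⟩⟩

noncomputable def de : Sym2 V → A V := Sym2.lift ⟨d, fun u v => Subtype.ext (D_comm u v)⟩

noncomputable def ev (r : V → Fin 2 → ℂ) : A V →+* ℂ :=
  (aeval fun x : V × Fin 2 => r x.1 x.2 : MvPolynomial (V × Fin 2) ℚ →ₐ[ℚ] ℂ).toRingHom.comp
    (A V).val.toRingHom

lemma ev_d (r : V → Fin 2 → ℂ) (u v : V) : ev r (d u v) = ∑ k, (r u k - r v k) ^ 2 := by
  simp [ev, d, D]

lemma hom_ext {ψ ψ' : A V →+* ℂ} (h : ∀ u v, ψ (d u v) = ψ' (d u v)) : ψ = ψ' := by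
  ext ⟨x, hx⟩
  induction hx using Algebra.adjoin_induction with
  | mem x hx => obtain ⟨z, rfl⟩ := hx; exact h z.1 z.2
  | algebraMap c =>
    exact (ψ.toRatAlgHom.commutes c).trans (ψ'.toRatAlgHom.commutes c).symm
  | add x y hx hy h1 h2 =>
    exact (map_add ψ ⟨x, hx⟩ ⟨y, hy⟩).trans
      ((congrArg₂ (· + ·) h1 h2).trans (map_add ψ' ⟨x, hx⟩ ⟨y, hy⟩).symm)
  | mul x y hx hy h1 h2 =>
    exact (map_mul ψ ⟨x, hx⟩ ⟨y, hy⟩).trans
      ((congrArg₂ (· * ·) h1 h2).trans (map_mul ψ' ⟨x, hx⟩ ⟨y, hy⟩).symm)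

lemma realize (a : V) (ψ : A V →+* ℂ) : ∃ r, ev r = ψ := by
  let γ : V → V → A V := fun u v => d a u + d a v - d u v
  have hγ : ∀ u v, (γ u v : MvPolynomial (V × Fin 2) ℚ) =
      2 * ((X (u, 0) - X (a, 0)) * (X (v, 0) - X (a, 0)) +
        (X (u, 1) - X (a, 1)) * (X (v, 1) - X (a, 1))) := fun u v => by
    simp only [γ, d, D, Fin.sum_univ_two, AddMemClass.coe_add, AddSubgroupClass.coe_sub]
    ring
  obtain ⟨x, y, h⟩ := gram (fun u v => ψ (γ u v) / 2)
    (fun u v => by rw [show γ u v = γ v u from Subtype.ext (by rw [hγ, hγ]; ring)])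
    (fun a b c x y z => by
      have : γ a x * (γ b y * γ c z - γ b z * γ c y) - γ a y * (γ b x * γ c z - γ b z * γ c x) +
          γ a z * (γ b x * γ c y - γ b y * γ c x) = 0 := Subtype.ext (by
        simp only [AddMemClass.coe_add, AddSubgroupClass.coe_sub, MulMemClass.coe_mul, hγ,
          ZeroMemClass.coe_zero]
        ring)
      have h2 := congrArg ψ this
      simp only [map_add, map_sub, map_mul, map_zero] at h2
      linear_combination h2 / 8)
  refine ⟨fun u => ![x u, y u], hom_ext fun u v => ?_⟩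
  have e : γ u u + γ v v - 2 * γ u v = 2 * d u v := Subtype.ext (by
    simp only [AddMemClass.coe_add, AddSubgroupClass.coe_sub, MulMemClass.coe_mul, hγ, d, D,
      Fin.sum_univ_two]
    change _ - 2 * _ = 2 * _
    ring)
  have h2 := congrArg ψ e
  simp only [map_add, map_sub, map_mul, map_ofNat] at h2
  rw [ev_d, Fin.sum_univ_two]
  simp only [Matrix.cons_val_zero, Matrix.cons_val_one]
  linear_combination h u u + h v v - 2 * h u v + h2 / 2

noncomputable instance alg (G : SimpleGraph V) : Algebra (MvPolynomial G.edgeSet ℚ) (A V) :=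
  (aeval fun e : G.edgeSet => de e.1 : MvPolynomial G.edgeSet ℚ →ₐ[ℚ] A V).toRingHom.toAlgebra

lemma alg_X (G : SimpleGraph V) (e : G.edgeSet) :
    algebraMap (MvPolynomial G.edgeSet ℚ) (A V) (X e) = de e.1 := aeval_X _ e

noncomputable def φ (G : SimpleGraph V) (q : V → Fin 2 → ℂ) : MvPolynomial G.edgeSet ℚ →+* ℂ :=
  (ev q).comp (algebraMap _ _)

lemma mem_pts (G : SimpleGraph V) (q r : V → Fin 2 → ℂ) : ev r ∈ Pts (A V) (φ G q) ↔
    ∀ u v, G.Adj u v → ∑ k, (r u k - r v k) ^ 2 = ∑ k, (q u k - q v k) ^ 2 := by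
  constructor
  · intro h u v huv
    have := RingHom.congr_fun h (X ⟨s(u, v), huv⟩)
    simp only [φ, RingHom.comp_apply, alg_X] at this
    rw [← ev_d, ← ev_d]
    exact this
  · intro h
    refine MvPolynomial.ringHom_ext (fun c => ?_) fun e => ?_
    · exact RingHom.congr_fun (Subsingleton.elim (((ev r).comp (algebraMap _ _)).comp C)
        ((φ G q).comp (C : ℚ →+* MvPolynomial G.edgeSet ℚ))) c
    · obtain ⟨e, he⟩ := e
      induction e using Sym2.ind with
      | _ u v =>
        simp only [φ, RingHom.comp_apply, alg_X]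
        exact (ev_d r u v).trans ((h u v he).trans (ev_d q u v).symm)

lemma classes (a : V) (G : SimpleGraph V) (q : V → Fin 2 → ℂ) :
    {K : Set (V → Fin 2 → ℂ) | ∃ r : V → Fin 2 → ℂ,
      (∀ u v, G.Adj u v →
        ∑ k : Fin 2, (r u k - r v k) ^ 2 = ∑ k : Fin 2, (q u k - q v k) ^ 2) ∧
      K = {s | ∀ u v, ∑ k : Fin 2, (s u k - s v k) ^ 2 = ∑ k : Fin 2, (r u k - r v k) ^ 2}}.encard =
    (Pts (A V) (φ G q)).encard := by
  let f : (A V →+* ℂ) → Set (V → Fin 2 → ℂ) := fun ψ => {s | ev s = ψ}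
  have hf : Function.Injective f := fun ψ ψ' e => by
    obtain ⟨r, hr⟩ := realize a ψ
    exact hr.symm.trans (e.le hr)
  have hK : ∀ r : V → Fin 2 → ℂ, {s : V → Fin 2 → ℂ | ∀ u v,
      ∑ k : Fin 2, (s u k - s v k) ^ 2 = ∑ k : Fin 2, (r u k - r v k) ^ 2} = f (ev r) := by
    intro r
    ext s
    exact ⟨fun h => hom_ext fun u v => by rw [ev_d, ev_d, h],
      fun h u v => by rw [← ev_d, ← ev_d, show ev s = ev r from h]⟩
  rw [← hf.encard_image]
  congr 1
  ext K
  simp only [hK, ← mem_pts]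
  constructor
  · rintro ⟨r, h, rfl⟩
    exact ⟨_, h, rfl⟩
  · rintro ⟨ψ, h, rfl⟩
    obtain ⟨r, rfl⟩ := realize a ψ
    exact ⟨r, h, rfl⟩

lemma inj [Fintype V] (G : SimpleGraph V) {a b : V} (hab : a ≠ b)
    (hc : G.edgeSet.ncard + 3 = 2 * Fintype.card V) {r : A V} (hr0 : r ≠ 0)
    (hr : IsIntegral (MvPolynomial G.edgeSet ℚ) r)
    (h : ∀ x, ∃ m, IsIntegral (MvPolynomial G.edgeSet ℚ) (r ^ m * x)) :
    Function.Injective (algebraMap (MvPolynomial G.edgeSet ℚ) (A V)) := by
  classical
  let S := MvPolynomial (V × Fin 2) ℚ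
  let x : G.edgeSet ⊕ Fin 3 → S :=
    Sum.elim (fun e => (de e.1 : S)) ![X (a, 0), X (a, 1), X (b, 0)]
  let B := Algebra.adjoin ℚ (Set.range x)
  have hx : ∀ i, IsAlgebraic B (x i) := fun i =>
    isAlgebraic_algebraMap (⟨x i, Algebra.subset_adjoin ⟨i, rfl⟩⟩ : B)
  let f : MvPolynomial G.edgeSet ℚ →ₐ[ℚ] B :=
    aeval fun e => ⟨x (.inl e), Algebra.subset_adjoin ⟨_, rfl⟩⟩
  have hf : ∀ y : A V, IsIntegral (MvPolynomial G.edgeSet ℚ) y → IsAlgebraic B (y : S) :=
    fun y hy => (IsIntegral.map_of_comp_eq f.toRingHom (A V).val.toRingHom (by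
      refine MvPolynomial.ringHom_ext (fun c => ?_) fun e => ?_
      · exact RingHom.congr_fun (Subsingleton.elim (((algebraMap B S).comp f.toRingHom).comp C)
          (((A V).val.toRingHom.comp (algebraMap _ _)).comp
            (C : ℚ →+* MvPolynomial G.edgeSet ℚ))) c
      · simp [f, alg_X, x]
        rfl) hy).isAlgebraic
  have hD : ∀ u v, IsAlgebraic B (D u v) := fun u v => by
    obtain ⟨m, hm⟩ := h (d u v)
    exact IsAlgebraic.of_mul (mem_nonZeroDivisors_of_ne_zero (pow_ne_zero m
      fun e => hr0 (Subtype.ext e))) ((hf r hr).pow m) (hf _ hm)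
  have a0 : IsAlgebraic B (X (a, 0) : S) := hx (.inr 0)
  have a1 : IsAlgebraic B (X (a, 1) : S) := hx (.inr 1)
  have b0 : IsAlgebraic B (X (b, 0) : S) := hx (.inr 2)
  have hα := b0.sub a0
  have hβ : IsAlgebraic B (X (b, 1) - X (a, 1) : S) := IsAlgebraic.of_pow two_pos (by
    have := (hD a b).sub (hα.pow 2)
    rwa [show D a b - (X (b, 0) - X (a, 0)) ^ 2 = (X (b, 1) - X (a, 1) : S) ^ 2 by
      simp only [D, Fin.sum_univ_two]; ring] at this)
  have hne : (2 * D a b : S) ≠ 0 := fun e => by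
    have := congrArg (eval fun z : V × Fin 2 => if z = (a, 0) then (1 : ℚ) else 0) e
    simp [D, hab.symm] at this
  have two : IsAlgebraic B (2 : S) := isAlgebraic_natCast 2
  have hX : ∀ v k, IsAlgebraic B (X (v, k) : S) := fun v k => by
    have hg := ((hD a v).add (hD a b)).sub (hD b v)
    have hh : IsAlgebraic B (2 * ((X (b, 0) - X (a, 0)) * (X (v, 1) - X (a, 1)) -
        (X (b, 1) - X (a, 1)) * (X (v, 0) - X (a, 0))) : S) := IsAlgebraic.of_pow two_pos (by
      have := (((two.mul two).mul (hD a b)).mul (hD a v)).sub (hg.pow 2)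
      refine (congrArg (IsAlgebraic B) ?_).mp this
      simp only [D, Fin.sum_univ_two]; ring)
    have h0 : IsAlgebraic B (X (v, 0) - X (a, 0) : S) :=
      IsAlgebraic.of_mul (mem_nonZeroDivisors_of_ne_zero hne) (two.mul (hD a b)) (by
        refine (congrArg (IsAlgebraic B) ?_).mp ((hα.mul hg).sub (hβ.mul hh))
        simp only [D, Fin.sum_univ_two]; ring)
    have h1 : IsAlgebraic B (X (v, 1) - X (a, 1) : S) :=
      IsAlgebraic.of_mul (mem_nonZeroDivisors_of_ne_zero hne) (two.mul (hD a b)) (by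
        refine (congrArg (IsAlgebraic B) ?_).mp ((hβ.mul hg).add (hα.mul hh))
        simp only [D, Fin.sum_univ_two]; ring)
    fin_cases k
    · simpa using h0.add a0
    · simpa using h1.add a1
  have halg : Algebra.IsAlgebraic B S := ⟨fun y => by
    induction y using MvPolynomial.induction_on with
    | C c => exact isAlgebraic_algebraMap (algebraMap ℚ B c)
    | add p q h1 h2 => exact h1.add h2
    | mul_X p z h1 => exact h1.mul (hX z.1 z.2)⟩
  have hb := Algebra.IsAlgebraic.isTranscendenceBasis_of_le_trdeg_of_finite ℚ x (by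
    rw [MvPolynomial.trdeg_of_isDomain]
    have : Fintype G.edgeSet := Fintype.ofFinite _
    simp only [Cardinal.mk_fintype, Cardinal.lift_natCast, Fintype.card_sum, Fintype.card_prod,
      Fintype.card_fin, Nat.cast_le]
    rw [← Nat.card_eq_fintype_card, Nat.card_coe_set_eq]
    omega)
  have h2 := hb.1.comp Sum.inl Sum.inl_injective
  have h3 : AlgebraicIndependent ℚ fun e : G.edgeSet => de e.1 :=
    AlgebraicIndependent.of_comp (A V).val h2
  exact h3

/-- For a Laman (isostatic) graph in the complex plane, any realisation q with finitely many equivalent realisations up to congruence has at most as many such classes as a generic realisation. -/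
theorem result :
    ∀ (V : Type) [Fintype V] (G : SimpleGraph V),
      (G.edgeSet.ncard + 3 = 2 * Fintype.card V ∧
        ∀ S : Finset V, 2 ≤ S.card →
          {e ∈ G.edgeSet | ∀ v ∈ e, v ∈ S}.ncard + 3 ≤ 2 * S.card) →
      ∀ p q : V → Fin 2 → ℂ,
        AlgebraicIndependent ℚ (fun x : V × Fin 2 => p x.1 x.2) →
        {K : Set (V → Fin 2 → ℂ) | ∃ r : V → Fin 2 → ℂ,
            (∀ u v, G.Adj u v →
              ∑ k : Fin 2, (r u k - r v k) ^ 2 = ∑ k : Fin 2, (q u k - q v k) ^ 2) ∧
            K = {s | ∀ u v,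
              ∑ k : Fin 2, (s u k - s v k) ^ 2 = ∑ k : Fin 2, (r u k - r v k) ^ 2}}.Finite →
        {K : Set (V → Fin 2 → ℂ) | ∃ r : V → Fin 2 → ℂ,
            (∀ u v, G.Adj u v →
              ∑ k : Fin 2, (r u k - r v k) ^ 2 = ∑ k : Fin 2, (q u k - q v k) ^ 2) ∧
            K = {s | ∀ u v,
              ∑ k : Fin 2, (s u k - s v k) ^ 2 = ∑ k : Fin 2, (r u k - r v k) ^ 2}}.encard ≤
        {K : Set (V → Fin 2 → ℂ) | ∃ r : V → Fin 2 → ℂ,
            (∀ u v, G.Adj u v →
              ∑ k : Fin 2, (r u k - r v k) ^ 2 = ∑ k : Fin 2, (p u k - p v k) ^ 2) ∧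
            K = {s | ∀ u v,
              ∑ k : Fin 2, (s u k - s v k) ^ 2 = ∑ k : Fin 2, (r u k - r v k) ^ 2}}.encard := by
  intro V _ G hG p q hp hq
  obtain ⟨a, b, hab⟩ := Fintype.exists_pair_of_one_lt_card (show 1 < Fintype.card V by omega)
  rw [← Set.encard_lt_top_iff, classes a, Set.encard_lt_top_iff] at hq
  rw [classes a, classes a]
  have : Algebra.FiniteType ℚ (A V) := Algebra.FiniteType.adjoin_of_finite (Set.finite_range _)
  have : Algebra.FiniteType (MvPolynomial G.edgeSet ℚ) (A V) :=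
    Algebra.FiniteType.of_restrictScalars_finiteType ℚ _ _
  obtain ⟨r, h1, h2, h3⟩ := zm hq (ψ := ev q) rfl
  have hi := inj G hab hG.1 (fun e => h1 (by rw [e, map_zero])) h2 h3
  exact count hi hq ((Function.Injective.comp hp Subtype.val_injective).comp hi)

end Pool.Agent.S08761
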