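import Pool.Statements.S08763
import Pool.Agent.H20.Cross2

set_option autoImplicit false
open Pool Pool.MP_52dd64_co

namespace Pool.Agent.S08763

open Finset Pool.Agent.H20.Cross in
lemma count_le {n : ℕ} (A : Finset (Finset (Fin n))) (hA : ∀ a ∈ A, a.card = 3)
    (r : Fin n → Fin n → ℝ) (h0 : ∀ x y, 0 ≤ r x y)
    (h1 : ∀ a ∈ A, ∀ x ∈ a, ∀ y ∈ a, x ≠ y → r x y = 1) :
    6 * (A.card : ℝ) ≤ t r univ := by
  have e1 : ∀ a ∈ A, (6 : ℝ) = ∑ x, ∑ y, ∑ z,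
      if x ∈ a ∧ y ∈ a ∧ z ∈ a ∧ x ≠ y ∧ y ≠ z ∧ x ≠ z then (1 : ℝ) else 0 := by
    intro a ha
    obtain ⟨p, q, s, hpq, hps, hqs, rfl⟩ := card_eq_three.1 (hA a ha)
    have e2 : ∀ x y z : Fin n, (if x ∈ ({p, q, s} : Finset (Fin n)) ∧ y ∈ ({p, q, s} : Finset (Fin n)) ∧
        z ∈ ({p, q, s} : Finset (Fin n)) ∧ x ≠ y ∧ y ≠ z ∧ x ≠ z then (1 : ℝ) else 0) =
        if x ∈ ({p, q, s} : Finset (Fin n)) then if y ∈ ({p, q, s} : Finset (Fin n)) then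
          if z ∈ ({p, q, s} : Finset (Fin n)) then
            (if x ≠ y ∧ y ≠ z ∧ x ≠ z then (1 : ℝ) else 0) else 0 else 0 else 0 := by
      intro x y z
      by_cases a1 : x ∈ ({p, q, s} : Finset (Fin n)) <;>
        by_cases a2 : y ∈ ({p, q, s} : Finset (Fin n)) <;>
        by_cases a3 : z ∈ ({p, q, s} : Finset (Fin n)) <;> simp only [a1, a2, a3] <;> simp
    simp only [e2, sum_ite_irrel, sum_const_zero, sum_ite_mem, univ_inter]
    have m1 : p ∉ ({q, s} : Finset (Fin n)) := by simp [hpq, hps]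
    have m2 : q ∉ ({s} : Finset (Fin n)) := by simp [hqs]
    simp only [sum_insert m1, sum_insert m2, sum_singleton]
    simp [hpq, hps, hqs, hpq.symm, hps.symm, hqs.symm]
    norm_num
  have e3 : 6 * (A.card : ℝ) = ∑ a ∈ A, ∑ x, ∑ y, ∑ z,
      if x ∈ a ∧ y ∈ a ∧ z ∈ a ∧ x ≠ y ∧ y ≠ z ∧ x ≠ z then (1 : ℝ) else 0 := by
    rw [← sum_congr rfl e1]; simp [mul_comm]
  rw [e3, sum_comm]
  refine sum_le_sum fun x _ => ?_
  rw [sum_comm]
  refine sum_le_sum fun y _ => ?_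
  rw [sum_comm]
  refine sum_le_sum fun z _ => ?_
  by_cases hex : ∃ a ∈ A, x ∈ a ∧ y ∈ a ∧ z ∈ a ∧ x ≠ y ∧ y ≠ z ∧ x ≠ z
  · obtain ⟨a, ha, hx, hy, hz, hxy, hyz, hxz⟩ := hex
    have key : ∀ c ∈ A, x ∈ c → y ∈ c → z ∈ c → c = {x, y, z} := by
      intro c hc cx cy cz
      refine (eq_of_subset_of_card_le ?_ ?_).symm
      · intro w hw
        simp only [mem_insert, mem_singleton] at hw
        rcases hw with rfl | rfl | rfl <;> assumption
      · rw [hA c hc, card_eq_three.2 ⟨x, y, z, hxy, hxz, hyz, rfl⟩]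
    rw [h1 a ha x hx y hy hxy, h1 a ha y hy z hz hyz, h1 a ha x hx z hz hxz,
      sum_eq_single_of_mem a ha]
    · split_ifs <;> norm_num
    · intro c hc hca
      rw [if_neg]
      rintro ⟨cx, cy, cz, -⟩
      exact hca ((key c hc cx cy cz).trans (key a ha hx hy hz).symm)
  · rw [sum_eq_zero fun a ha => if_neg fun h => hex ⟨a, ha, h⟩]
    exact mul_nonneg (mul_nonneg (h0 _ _) (h0 _ _)) (h0 _ _)

/-- For all large n, if A and B are families of 3-subsets of an n-set with every A-member meeting every B-member in at most one point, then ∣A∣∣B∣ ≤ γ·C(n,3)², where γ is the max over α in [0,1] of α³(1−α)³+3α⁴(1−α)². -/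
theorem result :
    ∃ N : ℕ, ∀ n : ℕ, N ≤ n → ∀ A B : Finset (Finset (Fin n)),
      (∀ a ∈ A, a.card = 3) → (∀ b ∈ B, b.card = 3) →
      (∀ a ∈ A, ∀ b ∈ B, (a ∩ b).card ≤ 1) →
      ((A.card * B.card : ℕ) : ℝ) ≤
        sSup ((fun α : ℝ => α ^ 3 * (1 - α) ^ 3 + 3 * α ^ 4 * (1 - α) ^ 2) '' Set.Icc (0 : ℝ) 1)
          * ((n.choose 3 : ℕ) : ℝ) ^ 2 := by
  classical
  refine ⟨4, fun n hn A B hA hB hAB => ?_⟩
  let r : Fin n → Fin n → ℝ := fun x y => if x ≠ y ∧ ∃ a ∈ A, x ∈ a ∧ y ∈ a then 1 else 0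
  let b : Fin n → Fin n → ℝ := fun x y => if x ≠ y ∧ ¬ ∃ a ∈ A, x ∈ a ∧ y ∈ a then 1 else 0
  have hsym : ∀ x y : Fin n, (∃ a ∈ A, x ∈ a ∧ y ∈ a) ↔ (∃ a ∈ A, y ∈ a ∧ x ∈ a) := fun x y =>
    ⟨fun ⟨a, h1, h2, h3⟩ => ⟨a, h1, h3, h2⟩, fun ⟨a, h1, h2, h3⟩ => ⟨a, h1, h3, h2⟩⟩
  have G : Pool.Agent.H20.Cross.Good r b := by
    refine ⟨fun x y => ?_, fun x y => ?_, fun x => by simp [r], fun x => by simp [b],
      fun x y h => ?_⟩
    · simp only [r, hsym x y, ne_comm (a := x)]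
    · simp only [b, hsym x y, ne_comm (a := x)]
    · by_cases h1 : ∃ a ∈ A, x ∈ a ∧ y ∈ a
      · left; simp only [r, b]; rw [if_pos ⟨h, h1⟩, if_neg fun h2 => h2.2 h1]; simp
      · right; simp only [r, b]; rw [if_neg fun h2 => h1 h2.2, if_pos ⟨h, h1⟩]; simp
  have h1 := count_le A hA r G.r0 (fun a ha x hx y hy hxy => if_pos ⟨hxy, a, ha, hx, hy⟩)
  have h2 := count_le B hB b G.swap.r0 (fun c hc x hx y hy hxy => if_pos ⟨hxy, by
    rintro ⟨a, ha, ax, ay⟩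
    have h3 := hAB a ha c hc
    exact hxy (Finset.card_le_one.1 h3 x (Finset.mem_inter.2 ⟨ax, hx⟩) y
      (Finset.mem_inter.2 ⟨ay, hy⟩))⟩)
  obtain ⟨m, rfl⟩ : ∃ m, n = m + 1 := ⟨n - 1, by omega⟩
  have h3 := Pool.Agent.H20.Cross.product_bound (m := m) (by omega)
    (S := (Finset.univ : Finset (Fin (m + 1)))) (by simp) G
  have h4 : (6 : ℝ) * (((m + 1).choose 3 : ℕ) : ℝ) = m * (m ^ 2 - 1) := by
    obtain ⟨k, rfl⟩ : ∃ k, m = k + 1 := ⟨m - 1, by omega⟩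
    have h5 := Nat.descFactorial_eq_factorial_mul_choose (k + 1 + 1) 3
    have h6 : (k + 1 + 1).descFactorial 3 = k * ((k + 1) * (k + 2)) := by
      simp [Nat.descFactorial_succ]
    rw [h6] at h5
    have h7 : ((k * ((k + 1) * (k + 2)) : ℕ) : ℝ) = ((Nat.factorial 3 * (k + 1 + 1).choose 3 : ℕ) : ℝ) := by
      rw [h5]
    norm_num [Nat.factorial] at h7
    push_cast
    linarith
  rw [← h4] at h3
  have h5 : (6 * (A.card : ℝ)) * (6 * (B.card : ℝ)) ≤ _ :=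
    (mul_le_mul h1 h2 (by positivity) (le_trans (by positivity) h1)).trans h3
  change _ ≤ Pool.Agent.H20.Cross.gam * _
  push_cast
  nlinarith

end Pool.Agent.S08763
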