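import Pool.Statements.S08767
import Pool.Agent.H13.Cube

set_option autoImplicit false
open Pool Pool.MP_52f1b6_co

namespace Pool.Agent.S08767

open Finset Pool.Agent.H13.Rams Pool.Agent.H13.Cube

theorem spl {κ α : Type} [DecidableEq α] (e : κ → α) (b : ℕ → α) {A : Finset κ} {L : Finset ℕ}
    {K : Finset α} (h : K ⊆ A.image e ∪ L.image b) :
    ∃ A' ⊆ A, ∃ B ⊆ L, K = A'.image e ∪ B.image b :=
  ⟨A.filter (e · ∈ K), filter_subset _ _, L.filter (b · ∈ K), filter_subset _ _, by
    rw [← filter_image (p := (· ∈ K)), ← filter_image (p := (· ∈ K)), ← filter_union,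
      filter_mem_eq_inter, inter_eq_right.2 h]⟩

theorem cardE {κ α : Type} [DecidableEq α] {e : κ → α} {b : ℕ → α} {R : Finset ℕ}
    (he : Function.Injective e) (hb : Set.InjOn b R) (hd : ∀ i, ∀ x ∈ R, e i ≠ b x) (A : Finset κ)
    {B : Finset ℕ} (hB : B ⊆ R) : (A.image e ∪ B.image b).card = A.card + B.card := by
  rw [card_union_of_disjoint (disjoint_left.2 fun a h h' => ?_), card_image_of_injective _ he,
    card_image_of_injOn (hb.mono (coe_subset.2 hB))]
  obtain ⟨i, -, rfl⟩ := mem_image.1 h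
  obtain ⟨x, hx, e⟩ := mem_image.1 h'
  exact hd i x (hB hx) e.symm

theorem dec {κ α : Type} [DecidableEq α] {e : κ → α} {b : ℕ → α} {R : Finset ℕ}
    (he : Function.Injective e) (hb : Set.InjOn b R) (hd : ∀ i, ∀ x ∈ R, e i ≠ b x) {A : Finset κ}
    {L : Finset ℕ} (hL : L ⊆ R) {k : ℕ} (hA : A.card ≤ k) (G : Finset α → ℚ) :
    ∑ A' ∈ A.powerset, ∑ B ∈ powersetCard (k - A'.card) L, G (A'.image e ∪ B.image b) =
      ∑ K ∈ powersetCard k (A.image e ∪ L.image b), G K := by
  rw [sum_sigma']
  refine sum_bij (fun p _ => p.1.image e ∪ p.2.image b) (fun p hp => ?_) ?_ (fun K hK => ?_)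
    fun _ _ => rfl
  · simp only [mem_sigma, mem_powerset, mem_powersetCard] at *
    have := card_le_card hp.1
    exact ⟨union_subset_union (image_subset_image hp.1) (image_subset_image hp.2.1), by
      rw [cardE he hb hd _ (hp.2.1.trans hL)]; omega⟩
  · have key : ∀ A B A' B', B ⊆ R → B' ⊆ R → image e A ∪ image b B ⊆ image e A' ∪ image b B' →
        A ⊆ A' ∧ B ⊆ B' := by
      intro A B A' B' h1 h2 h
      refine ⟨fun i hi => ?_, fun x hx => ?_⟩
      · rcases mem_union.1 (h (mem_union_left _ (mem_image_of_mem _ hi))) with h | h <;>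
          obtain ⟨j, hj, e⟩ := mem_image.1 h
        · exact he e ▸ hj
        · exact (hd i j (h2 hj) e.symm).elim
      · rcases mem_union.1 (h (mem_union_right _ (mem_image_of_mem _ hx))) with h | h <;>
          obtain ⟨j, hj, e⟩ := mem_image.1 h
        · exact (hd j x (h1 hx) e).elim
        · exact hb (h2 hj) (h1 hx) e ▸ hj
    rintro ⟨A1, B1⟩ h1 ⟨A2, B2⟩ h2 h
    simp only [mem_sigma, mem_powerset, mem_powersetCard] at h1 h2
    have k1 := key _ _ _ _ (h1.2.1.trans hL) (h2.2.1.trans hL) h.le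
    have k2 := key _ _ _ _ (h2.2.1.trans hL) (h1.2.1.trans hL) h.ge
    obtain rfl : A1 = A2 := subset_antisymm k1.1 k2.1
    rw [subset_antisymm k1.2 k2.2]
  · rw [mem_powersetCard] at hK
    obtain ⟨A', h1, B, h2, rfl⟩ := spl e b hK.1
    rw [cardE he hb hd _ (h2.trans hL)] at hK
    exact ⟨⟨A', B⟩, by simp [h1, h2]; omega, rfl⟩

def sch {n r : ℕ} (k : ℕ) (c : Finset (Fin n) → Fin r) (L : Finset (Fin n)) : Fin r → ℕ :=
  fun i => ((L.powersetCard k).filter (fun K => c K = i)).card

theorem spos {n r k : ℕ} (c : Finset (Fin n) → Fin r) {L K : Finset (Fin n)} (h : K ⊆ L)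
    (hK : K.card = k) : 0 < sch k c L (c K) :=
  card_pos.2 ⟨K, mem_filter.2 ⟨mem_powersetCard.2 ⟨h, hK⟩, rfl⟩⟩

theorem lin {n r k l : ℕ} (hkl : k ≤ l) (hn : k + l ≤ n) (c : Finset (Fin n) → Fin r)
    (hc : ∀ i, ∃ K : Finset (Fin n), K.card = k ∧ c K = i)
    (hs : ((univ.filter fun L : Finset (Fin n) => L.card = l).image (sch k c)).card = r)
    (L₀ : Finset (Fin n)) : ∃ g : Fin r → ℚ, ∀ L : Finset (Fin n), L.card = l →
      ∑ K ∈ powersetCard k L, g (c K) = if sch k c L = sch k c L₀ then 1 else 0 := by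
  set S := (univ.filter fun L : Finset (Fin n) => L.card = l).image (sch k c)
  let Φ := Matrix.mulVecLin (Matrix.of fun (σ : S) (i : Fin r) => (σ.1 i : ℚ))
  have hm : ∀ L : Finset (Fin n), L.card = l → sch k c L ∈ S := fun L h =>
    mem_image_of_mem _ (by simp [h])
  have h1 : ∀ g L h, ∑ K ∈ powersetCard k L, g (c K) = Φ g ⟨_, hm L h⟩ := fun g L h => by
    rw [← sum_fiberwise' _ c g]
    simp [Φ, Matrix.mulVec, dotProduct, sch]
  have h2 : Function.Injective Φ := (injective_iff_map_eq_zero _).2 fun g hg => funext fun i => by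
    obtain ⟨K, hK, rfl⟩ := hc i
    exact gott k l univ (fun K => g (c K)) hkl (by simpa) (fun L _ h => by rw [h1 g L h, hg]; rfl)
      K (subset_univ _) hK
  obtain ⟨g, hg⟩ := (LinearMap.injective_iff_surjective_of_finrank_eq_finrank (by simp [hs])).1 h2
    fun σ => if σ.1 = sch k c L₀ then 1 else 0
  exact ⟨g, fun L h => by rw [h1 g L h, hg]⟩

theorem step {k l : ℕ} (hkl : k < l) : ∃ N, ∀ n r, N ≤ n → ∀ c : Finset (Fin n) → Fin r,
    (∀ i, ∃ K : Finset (Fin n), K.card = k ∧ c K = i) →
    ((univ.filter fun L : Finset (Fin n) => L.card = l).image (sch k c)).card = r →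
    ∀ S : Finset (Fin r), S ≠ univ → ∃ i ∉ S, ∃ L : Finset (Fin n), L.card = l ∧
      sch k c L i ≠ 0 ∧ ∀ j ∉ insert i S, sch k c L j = 0 := by
  obtain ⟨N, hN⟩ := hom (Finset (Fin k)) (4 * l)
  refine ⟨N + k + l, fun n r hn c hc hs S hS => ?_⟩
  obtain ⟨i, hi⟩ : ∃ i, i ∉ S := by simpa [eq_univ_iff_forall] using hS
  obtain ⟨K, hK, rfl⟩ := hc i
  have hK' : Kᶜ.card = n - k := by simp [card_compl, hK]
  let e := K.orderEmbOfFin hK
  let b0 : ℕ → Fin n := fun x => if h : x < n - k then Kᶜ.orderEmbOfFin hK' ⟨x, h⟩ else ⟨0, by omega⟩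
  obtain ⟨a, ha, hm, hh⟩ := hN _ fun A B => c (A.image e ∪ B.image b0)
  have hx : ∀ x ∈ range (4 * l), a x < n - k := fun x hx => by
    have := ha (mem_range.1 hx)
    omega
  have he := e.injective
  have hb : Set.InjOn (b0 ∘ a) (range (4 * l)) := fun x h y h' e => by
    simp only [Function.comp, b0, dif_pos (hx x h), dif_pos (hx y h')] at e
    exact ha.injective (by simpa using e)
  have hd : ∀ i, ∀ x ∈ range (4 * l), e i ≠ (b0 ∘ a) x := fun i x h e' => by
    simp only [Function.comp, b0, dif_pos (hx x h)] at e'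
    exact mem_compl.1 (orderEmbOfFin_mem Kᶜ hK' _) (e' ▸ orderEmbOfFin_mem K hK i)
  simp only [show ∀ B : Finset ℕ, (B.image a).image b0 = B.image (b0 ∘ a) from
    fun _ => image_image] at hh
  generalize b0 ∘ a = b at *
  have h := core hkl le_rfl (fun A B => c (A.image e ∪ B.image b)) hh fun A hA L₀ h₀ e₀ => by
    obtain ⟨g, hg⟩ := lin hkl.le (by omega) c hc hs (A.image e ∪ L₀.image b)
    refine ⟨g, ?_, fun L hL eL h B hB eB => ?_⟩
    · rw [dec he hb hd h₀ hA fun K => g (c K), hg _ (by rw [cardE he hb hd _ h₀, e₀]), if_pos rfl]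
    · rw [dec he hb hd hL hA fun K => g (c K), hg _ (by rw [cardE he hb hd _ hL, eL])] at h
      have h1 := congrFun (of_not_not fun h' => h (if_neg h')) (c (A.image e ∪ B.image b))
      obtain ⟨K', hK'⟩ := card_pos.1 ((spos c (union_subset_union subset_rfl (image_subset_image hB))
        (by rw [cardE he hb hd _ (hB.trans hL), eB])).trans_eq h1)
      rw [mem_filter, mem_powersetCard] at hK'
      obtain ⟨A', -, B', h2, rfl⟩ := spl e b hK'.1.1
      exact ⟨A', B', h2, hK'.2.symm⟩
  obtain ⟨A, hA, hmin⟩ := wellFounded_lt.has_min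
    {A : Finset (Fin k) | c (A.image e ∪ (range (k - A.card)).image b) ∉ S} ⟨univ, by
      simpa [e, image_orderEmbOfFin_univ] using hi⟩
  have hAk : A.card ≤ k := by simpa using card_le_univ A
  have hR : range (l - A.card) ⊆ range (4 * l) := range_subset_range.2 (by omega)
  have hR' : range (k - A.card) ⊆ range (l - A.card) := range_subset_range.2 (by omega)
  refine ⟨_, hA, A.image e ∪ (range (l - A.card)).image b, by
    rw [cardE he hb hd _ hR, card_range]; omega, (spos c (union_subset_union subset_rfl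
      (image_subset_image hR')) (by
        rw [cardE he hb hd _ (hR'.trans hR), card_range]; omega)).ne', fun j hj => ?_⟩
  refine card_eq_zero.2 (filter_eq_empty_iff.2 fun K' hK' e' => hj ?_)
  rw [mem_powersetCard] at hK'
  obtain ⟨A', h1, B', h2, rfl⟩ := spl e b hK'.1
  rw [cardE he hb hd _ (h2.trans hR)] at hK'
  rw [← e', h A' B' (h2.trans hR) hK'.2]
  rcases h1.eq_or_ssubset with rfl | h3
  · exact mem_insert_self _ _
  · exact mem_insert_of_mem (of_not_not fun h4 => hmin A' h4 h3)

/-- There is g(k,l) so that for k<l, n≥g(k,l), any colouring of k-subsets of an n-set using all r colours with exactly r distinct count-vectors on l-sets admits orderings making the colour-by-scheme count matrix upper triangular with nonzero diagonal. -/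
theorem result :
    ∃ g : ℕ → ℕ → ℕ, ∀ k l : ℕ, k < l → ∀ n r : ℕ, g k l ≤ n →
      ∀ c : Finset (Fin n) → Fin r,
        (∀ i : Fin r, ∃ K : Finset (Fin n), K.card = k ∧ c K = i) →
        (((Finset.univ : Finset (Finset (Fin n))).filter (fun L => L.card = l)).image
            (fun L => fun i : Fin r => ((L.powersetCard k).filter (fun K => c K = i)).card)).card = r →
        ∃ e : Fin r ≃ Fin r, ∃ σ : Fin r → Finset (Fin n),
          (∀ j, (σ j).card = l) ∧
          Function.Injective
            (fun j => fun i : Fin r => (((σ j).powersetCard k).filter (fun K => c K = i)).card) ∧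
          (∀ i j : Fin r, j < i →
            (((σ j).powersetCard k).filter (fun K => c K = e i)).card = 0) ∧
          (∀ j : Fin r,
            (((σ j).powersetCard k).filter (fun K => c K = e j)).card ≠ 0) := by
  choose! g hg using fun k l => step (k := k) (l := l)
  refine ⟨g, fun k l hkl n r hn c hc hs => ?_⟩
  have h1 := hg k l hkl n r hn c hc hs
  rcases Nat.eq_zero_or_pos r with rfl | hr
  · exact ⟨Equiv.refl _, Fin.elim0, fun j => j.elim0, fun j => j.elim0, fun j => j.elim0,
      fun j => j.elim0⟩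
  have : Nonempty (Fin r) := ⟨⟨0, hr⟩⟩
  choose! nx h2 L h3 h4 h5 using h1
  let T : ℕ → Finset (Fin r) := fun j => Nat.rec ∅ (fun _ T => insert (nx T) T) j
  have hT : Monotone T := monotone_nat_of_le_succ fun n => subset_insert _ _
  have hcard : ∀ j, (T j).card ≤ j := fun j => by
    induction j with
    | zero => rfl
    | succ j ih => exact (card_insert_le _ _).trans (Nat.succ_le_succ ih)
  have hu : ∀ j : Fin r, T j ≠ univ := fun j h => by
    have := hcard j
    rw [h, card_univ, Fintype.card_fin] at this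
    omega
  have hz : ∀ i j : Fin r, j < i → nx (T i) ∉ insert (nx (T j)) (T j) := fun i j h h' =>
    h2 _ (hu i) (hT (show j.1 + 1 ≤ i.1 from h) h')
  have inj : Function.Injective fun j : Fin r => nx (T j) := fun i j e => by
    rcases lt_trichotomy i j with h | h | h
    · exact (hz j i h (mem_insert.2 (.inl e.symm))).elim
    · exact h
    · exact (hz i j h (mem_insert.2 (.inl e))).elim
  refine ⟨Equiv.ofBijective _ (Finite.injective_iff_bijective.1 inj), fun j => L (T j),
    fun j => h3 _ (hu j), fun i j e => ?_, fun i j h => h5 _ (hu j) _ (hz i j h),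
    fun j => h4 _ (hu j)⟩
  rcases lt_trichotomy i j with h | h | h
  · exact (h4 _ (hu j) ((congrFun e _).symm.trans (h5 _ (hu i) _ (hz j i h)))).elim
  · exact h
  · exact (h4 _ (hu i) ((congrFun e _).trans (h5 _ (hu j) _ (hz i j h)))).elim

end Pool.Agent.S08767
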