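import Pool.Statements.S08825
import Pool.Agent.H33.Hub

set_option autoImplicit false
open Pool Pool.MP_5651c1_co

namespace Pool.Agent.S08825

open Finset Pool.Agent.H33.Hub

lemma pairs {V : Type} [Fintype V] [DecidableEq V] [Nonempty V] (bad : V → Finset V) (k : ℕ)
    (h : ∀ u, 2 * k + (bad u).card ≤ Fintype.card V) :
    ∃ s r : Fin k → V, Function.Injective (Sum.elim s r) ∧ ∀ i, r i ∉ bad (s i) := by
  induction k with
  | zero => exact ⟨Fin.elim0, Fin.elim0, fun a => by rcases a with a | a <;> exact a.elim0,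
      fun i => i.elim0⟩
  | succ k ih =>
    obtain ⟨s, r, h1, h2⟩ := ih fun u => by have := h u; omega
    have c : (univ.image (Sum.elim s r)).card ≤ 2 * k := card_image_le.trans (by simp; omega)
    obtain ⟨u, -, hu⟩ := exists_mem_notMem_of_card_lt_card (s := univ.image (Sum.elim s r)) (t := univ)
      (by have := h (Classical.arbitrary V); rw [card_univ]; omega)
    obtain ⟨v, -, hv⟩ := exists_mem_notMem_of_card_lt_card
      (s := insert u (univ.image (Sum.elim s r)) ∪ bad u) (t := univ) (by
        have := h u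
        have := card_union_le (insert u (univ.image (Sum.elim s r))) (bad u)
        have := card_insert_le u (univ.image (Sum.elim s r))
        rw [card_univ]; omega)
    simp only [mem_union, mem_insert, mem_image, mem_univ, true_and, not_or, not_exists] at hu hv
    refine ⟨Fin.cons u s, Fin.cons v r, ?_, fun i => Fin.cases hv.2 h2 i⟩
    have a1 : ∀ i, s i ≠ u := fun i => hu (.inl i)
    have a2 : ∀ i, r i ≠ u := fun i => hu (.inr i)
    have a3 : ∀ i, s i ≠ v := fun i => hv.1.2 (.inl i)
    have a4 : ∀ i, r i ≠ v := fun i => hv.1.2 (.inr i)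
    have a5 : ∀ i j, s i = s j → i = j := fun i j e => Sum.inl.inj (h1 (a₁ := .inl i) (a₂ := .inl j) e)
    have a6 : ∀ i j, r i = r j → i = j := fun i j e => Sum.inr.inj (h1 (a₁ := .inr i) (a₂ := .inr j) e)
    have a7 : ∀ i j, s i ≠ r j := fun i j e => by simpa using h1 (a₁ := .inl i) (a₂ := .inr j) e
    have a8 := hv.1.1
    rintro (i | i) (j | j) <;> induction i using Fin.cases <;> induction j using Fin.cases <;>
      simp only [Sum.elim_inl, Sum.elim_inr, Fin.cons_zero, Fin.cons_succ] <;> grind

/-- For every t there is c>0 such that every finite path-pairable graph on n≥2 vertices with no K_t minor has a vertex of degree at least c·n. -/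
theorem result :
    ∀ t : ℕ, ∃ c : ℝ, 0 < c ∧
      ∀ (V : Type) [Fintype V] (G : SimpleGraph V) [DecidableRel G.Adj],
        2 ≤ Fintype.card V →
        (∀ (k : ℕ) (s r : Fin k → V), Function.Injective (Sum.elim s r) →
          ∃ p : (i : Fin k) → G.Walk (s i) (r i),
            (∀ i, (p i).IsPath) ∧
            ∀ i j, i ≠ j → ∀ e ∈ (p i).edges, e ∉ (p j).edges) →
        (¬ ∃ f : Fin t → Set V,
            (∀ i, (G.induce (f i)).Connected) ∧
            (∀ i j, i ≠ j → Disjoint (f i) (f j)) ∧
            (∀ i j, i ≠ j → ∃ u ∈ f i, ∃ v ∈ f j, G.Adj u v)) →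
        ∃ v : V, c * (Fintype.card V : ℝ) ≤ (G.degree v : ℝ) := by
  classical
  intro t
  obtain ⟨A, hA⟩ := hub t 1
  obtain ⟨B, hB⟩ := hub t (8 * A)
  refine ⟨1 / (32 * (B + 1) ^ 2), by positivity, fun V _ G _ hn hp hm => ?_⟩
  have ne : Nonempty V := Fintype.card_pos_iff.1 (by omega)
  have hc : Conn G Set.univ := ⟨Set.univ_nonempty, fun x _ y _ => by
    by_cases e : x = y
    · exact ⟨0, e ▸ .refl 0 trivial⟩
    obtain ⟨p, -⟩ := hp 1 (fun _ => x) (fun _ => y) (by
      rintro (i | i) (j | j) <;> simp [e, Ne.symm e, Subsingleton.elim i j])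
    exact ⟨_, in_walk (p 0) (fun _ _ => trivial) (p 0).end_mem_support⟩⟩
  obtain ⟨K, K1, K2⟩ := hA V G hc hm
  obtain ⟨L, L1, L2⟩ := hB V G hc hm
  have hE : G.edgeFinset.card ≤ Fintype.card V * A := by
    refine le_trans (card_le_card (t := univ.biUnion fun u => (K u).image fun w => s(u, w)) ?_)
      (card_biUnion_le_card_mul _ _ _ fun u _ => card_image_le.trans (K1 u))
    intro e he
    induction e using Sym2.ind with
    | _ u v =>
      have h : G.Adj u v := by simpa using he
      obtain ⟨w, h1, h2, h3⟩ := K2 u v h.toWalk (by simp)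
      have : w = u ∨ w = v := by simpa using h1
      rcases this with rfl | rfl
      · exact mem_biUnion.2 ⟨v, mem_univ _, mem_image.2 ⟨w, h3, Sym2.eq_swap⟩⟩
      · exact mem_biUnion.2 ⟨u, mem_univ _, mem_image.2 ⟨w, h2, rfl⟩⟩
  let R : V → Finset V := fun w => univ.filter fun u => w ∈ L u
  let W : Finset V := univ.filter fun w => Fintype.card V ≤ 4 * (B + 1) * (R w).card
  have hW : W.card ≤ 4 * (B + 1) * B := by
    have h1 : ∑ w ∈ W, (R w).card ≤ Fintype.card V * B := by
      simp only [R, card_filter]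
      rw [sum_comm]
      refine sum_le_card_nsmul _ _ _ fun u _ => ?_
      rw [← card_filter]
      exact (card_le_card fun x hx => (mem_filter.1 hx).2).trans (L1 u)
    have h2 : W.card * Fintype.card V ≤ 4 * (B + 1) * ∑ w ∈ W, (R w).card := by
      rw [mul_sum]
      exact card_nsmul_le_sum _ _ _ fun w hw => (mem_filter.1 hw).2
    refine Nat.le_of_mul_le_mul_right (c := Fintype.card V) ?_ (by omega)
    nlinarith [Nat.mul_le_mul_left (4 * (B + 1)) h1]
  obtain ⟨s, r, h1, h2⟩ := pairs (fun u => (L u \ W).biUnion R) ((Fintype.card V + 3) / 4) fun u => by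
    have a1 : 4 * (B + 1) * ((L u \ W).biUnion R).card ≤ (L u \ W).card * Fintype.card V := by
      refine (Nat.mul_le_mul_left _ card_biUnion_le).trans ?_
      rw [mul_sum]
      exact sum_le_card_nsmul _ _ _ fun w hw =>
        (not_le.1 fun h => (mem_sdiff.1 hw).2 (mem_filter.2 ⟨mem_univ _, h⟩)).le
    have a2 : (L u \ W).card ≤ B + 1 := ((card_le_card sdiff_subset).trans (L1 u)).trans (by omega)
    have a3 : 4 * ((L u \ W).biUnion R).card ≤ Fintype.card V := by
      refine Nat.le_of_mul_le_mul_left (c := B + 1) ?_ (by omega)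
      nlinarith [Nat.mul_le_mul_right (Fintype.card V) a2]
    omega
  obtain ⟨p, p1, p2⟩ := hp _ s r h1
  have dis : ∀ i j, i ≠ j → Disjoint (p i).edges.toFinset (p j).edges.toFinset := fun i j h =>
    disjoint_left.2 fun e a b => p2 i j h e (List.mem_toFinset.1 a) (List.mem_toFinset.1 b)
  have len : ∑ i, (p i).length ≤ Fintype.card V * A := by
    refine le_trans ?_ ((card_le_card (s := univ.biUnion fun i => (p i).edges.toFinset) ?_).trans hE)
    · rw [card_biUnion fun i _ j _ h => dis i j h]
      refine (sum_congr rfl fun i _ => ?_).le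
      rw [List.toFinset_card_of_nodup (p1 i).isTrail.edges_nodup, SimpleGraph.Walk.length_edges]
    · intro e he
      obtain ⟨i, -, h⟩ := mem_biUnion.1 he
      exact SimpleGraph.mem_edgeFinset.2 ((p i).edges_subset_edgeSet (List.mem_toFinset.1 h))
  have long : 8 * (univ.filter fun i => ¬ (p i).length ≤ 8 * A).card ≤ Fintype.card V := by
    have a1 : (univ.filter fun i => ¬ (p i).length ≤ 8 * A).card * (8 * A + 1) ≤ ∑ i, (p i).length :=
      le_trans (card_nsmul_le_sum _ (fun i => (p i).length) (8 * A + 1)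
        fun i hi => not_le.1 (mem_filter.1 hi).2) (sum_le_sum_of_subset (filter_subset _ _))
    by_contra hn
    nlinarith
  obtain ⟨v, -, hv⟩ := exists_max_image univ (fun v => G.degree v) univ_nonempty
  have short : (univ.filter fun i => (p i).length ≤ 8 * A).card ≤ W.card * G.degree v := by
    have : ∀ i, ∃ e, (p i).length ≤ 8 * A → e ∈ (p i).edges ∧ ∃ w ∈ W, w ∈ e := fun i => by
      by_cases h : (p i).length ≤ 8 * A
      swap
      · exact ⟨s(v, v), fun h' => absurd h' h⟩
      obtain ⟨w, a1, a2, a3⟩ := L2 _ _ (p i) h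
      obtain ⟨e, a4, a5⟩ := (SimpleGraph.Walk.mem_support_iff_exists_mem_edges_of_not_nil
        (SimpleGraph.Walk.not_nil_of_ne fun e =>
          by simpa using h1 (a₁ := .inl i) (a₂ := .inr i) e)).1 a1
      refine ⟨e, fun _ => ⟨a4, w, ?_, a5⟩⟩
      by_contra hw
      exact h2 i (mem_biUnion.2 ⟨w, mem_sdiff.2 ⟨a2, hw⟩, mem_filter.2 ⟨mem_univ _, a3⟩⟩)
    choose f hf using this
    refine le_trans (card_le_card_of_injOn (t := W.biUnion fun w => G.incidenceFinset w) f ?_ ?_)
      (card_biUnion_le_card_mul _ _ _ fun w _ => ?_)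
    · intro i hi
      obtain ⟨a1, w, a2, a3⟩ := hf i (mem_filter.1 (mem_coe.1 hi)).2
      exact mem_coe.2 (mem_biUnion.2 ⟨w, a2, (G.mem_incidenceFinset _ _).2
        ⟨(p i).edges_subset_edgeSet a1, a3⟩⟩)
    · intro i hi j hj e
      by_contra h
      exact p2 i j h _ (hf i (mem_filter.1 (mem_coe.1 hi)).2).1
        (e ▸ (hf j (mem_filter.1 (mem_coe.1 hj)).2).1)
    · rw [SimpleGraph.card_incidenceFinset_eq_degree]
      exact hv w (mem_univ _)
  have tot := card_filter_add_card_filter_not (s := univ) fun i => (p i).length ≤ 8 * A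
  rw [card_univ, Fintype.card_fin] at tot
  have fin : Fintype.card V ≤ 32 * (B + 1) ^ 2 * G.degree v := by
    have a1 : Fintype.card V ≤ 8 * (W.card * G.degree v) := by omega
    nlinarith [Nat.mul_le_mul_right (G.degree v) hW, Nat.zero_le ((B + 1) * G.degree v)]
  refine ⟨v, ?_⟩
  rw [one_div, inv_mul_le_iff₀ (by positivity)]
  exact_mod_cast fin

end Pool.Agent.S08825
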