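import Pool.Statements.S08874

set_option autoImplicit false
open Pool Pool.MP_5833ce_co

namespace Pool.Agent.S08874

def vec : Fin 14 → Fin 7 → ZMod 3 :=
  ![![0, 0, 0, 0, 0, 1, 0],
    ![0, 0, 0, 2, 2, 0, 2],
    ![0, 1, 2, 0, 2, 1, 0],
    ![0, 1, 2, 2, 0, 1, 0],
    ![1, 0, 0, 1, 1, 1, 0],
    ![1, 0, 2, 2, 2, 1, 2],
    ![1, 1, 1, 0, 2, 0, 0],
    ![1, 1, 1, 2, 0, 0, 0],
    ![1, 2, 0, 2, 2, 1, 2],
    ![2, 1, 2, 1, 1, 0, 2],
    ![2, 2, 1, 1, 1, 0, 2],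
    ![2, 2, 2, 0, 0, 1, 0],
    ![2, 2, 2, 2, 2, 0, 1],
    ![2, 2, 2, 2, 2, 0, 2]]

def ip (u x : Fin 7 → ZMod 3) : ZMod 3 :=
  u 0 * x 0 + u 1 * x 1 + u 2 * x 2 + u 3 * x 3 + u 4 * x 4 + u 5 * x 5 + 2 * u 6 * x 6

def GG : SimpleGraph (Fin 14) where
  Adj u v := u ≠ v ∧ ip (vec u) (vec v) = 1
  symm := ⟨by decide +kernel⟩
  loopless := ⟨fun _ h => h.1 rfl⟩

instance : DecidableRel GG.Adj := fun u v => inferInstanceAs (Decidable (u ≠ v ∧ ip (vec u) (vec v) = 1))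

lemma gram : ∀ u v : Fin 14, ip (vec u) (vec v) = (if v = u then 1 else 0) + if GG.Adj u v then 1 else 0 := by
  decide +kernel

lemma cover : ∀ a b c d e f g : ZMod 3, ∃ v : Fin 14, ip (vec v) ![a, b, c, d, e, f, g] = 0 := by
  decide +kernel

lemma ip_sum (u : Fin 7 → ZMod 3) (f : Fin 14 → ZMod 3) :
    ip u (fun i => ∑ w, vec w i * f w) = ∑ w, ip u (vec w) * f w := by
  simp only [ip, Finset.mul_sum, ← Finset.sum_add_distrib]
  exact Finset.sum_congr rfl fun w _ => by ring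

/-- The negation of the preceding statement: For every k ≥ 2 and every finite simple graph, some labeling of the vertices by integers mod k makes the sum of labels over each vertex's closed neighbourhood nonzero mod k. -/
theorem result :
    ¬ (∀ k : ℕ, 2 ≤ k →
      ∀ (V : Type) [Fintype V] (G : SimpleGraph V) [DecidableRel G.Adj],
        ∃ f : V → ZMod k, ∀ v : V, f v + ∑ w ∈ G.neighborFinset v, f w ≠ 0) := by
  intro h
  obtain ⟨f, hf⟩ := h 3 (by norm_num) (Fin 14) GG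
  let x : Fin 7 → ZMod 3 := fun i => ∑ w, vec w i * f w
  obtain ⟨v, hv⟩ := cover (x 0) (x 1) (x 2) (x 3) (x 4) (x 5) (x 6)
  have e : ip (vec v) x = 0 := hv
  apply hf v
  rw [← e, ip_sum, SimpleGraph.neighborFinset_eq_filter, Finset.sum_filter]
  simp only [gram, add_mul, Finset.sum_add_distrib, ite_mul, one_mul, zero_mul, Finset.sum_ite_eq',
    Finset.mem_univ, if_true]

end Pool.Agent.S08874
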