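import Pool.Statements.S08910
import Mathlib

set_option autoImplicit false
open Pool Pool.MP_598d99_co

namespace Pool.Agent.S08910

/-- part of a vertex -/
def pt (x : Fin 36) : Fin 3 := ⟨x.val % 3, Nat.mod_lt _ (by norm_num)⟩

/-- colour 0 for sets inside one part, colour 1 otherwise -/
def col (S : Finset (Fin 36)) : Fin 2 :=
  if ∃ j : Fin 3, ∀ x ∈ S, pt x = j then 0 else 1

def cnt (T : Finset (Fin 36)) (j : Fin 3) : ℕ := (T.filter (fun x => pt x = j)).card

lemma cnt_sum (T : Finset (Fin 36)) : cnt T 0 + cnt T 1 + cnt T 2 = T.card := by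
  have h := Finset.card_eq_sum_card_fiberwise (s := T) (t := (Finset.univ : Finset (Fin 3)))
    (f := pt) (fun x _ => Finset.mem_coe.2 (Finset.mem_univ _))
  rw [h, Fin.sum_univ_three]
  rfl

lemma mono_card (T : Finset (Fin 36)) :
    ((T.powersetCard 2).filter (fun S => col S = 0)).card
      = (cnt T 0).choose 2 + (cnt T 1).choose 2 + (cnt T 2).choose 2 := by
  have h : (T.powersetCard 2).filter (fun S => col S = 0)
      = (Finset.univ : Finset (Fin 3)).biUnion
          (fun j => (T.filter (fun x => pt x = j)).powersetCard 2) := by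
    ext S
    simp only [Finset.mem_filter, Finset.mem_powersetCard, Finset.mem_biUnion, Finset.mem_univ,
      true_and]
    constructor
    · rintro ⟨⟨h1, h2⟩, h3⟩
      have h4 : ∃ j : Fin 3, ∀ x ∈ S, pt x = j := by
        by_contra hh
        rw [col, if_neg hh] at h3
        exact absurd h3 (by decide)
      obtain ⟨j, hj⟩ := h4
      exact ⟨j, fun x hx => Finset.mem_filter.2 ⟨h1 hx, hj x hx⟩, h2⟩
    · rintro ⟨j, h1, h2⟩
      refine ⟨⟨fun x hx => (Finset.mem_filter.1 (h1 hx)).1, h2⟩, ?_⟩
      rw [col, if_pos ⟨j, fun x hx => (Finset.mem_filter.1 (h1 hx)).2⟩]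
  rw [h, Finset.card_biUnion]
  · rw [Fin.sum_univ_three]
    simp only [Finset.card_powersetCard, cnt]
  · intro i _ j _ hij
    rw [Function.onFun, Finset.disjoint_left]
    intro S h1 h2
    rw [Finset.mem_powersetCard] at h1 h2
    obtain ⟨x, hx⟩ : S.Nonempty := Finset.card_pos.1 (by omega)
    have a1 := (Finset.mem_filter.1 (h1.1 hx)).2
    have a2 := (Finset.mem_filter.1 (h2.1 hx)).2
    exact hij (a1.symm.trans a2)

lemma other_card (T : Finset (Fin 36)) :
    ((T.powersetCard 2).filter (fun S => col S = 0)).card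
      + ((T.powersetCard 2).filter (fun S => col S = 1)).card = T.card.choose 2 := by
  have h : (T.powersetCard 2).filter (fun S => col S = 1)
      = (T.powersetCard 2).filter (fun S => ¬ col S = 0) := by
    apply Finset.filter_congr
    intro S _
    generalize col S = c
    revert c
    decide
  rw [h, Finset.card_filter_add_card_filter_not, Finset.card_powersetCard]

/-- the set with a, b, c points in the three parts -/
def mk3 (a b c : ℕ) : Finset (Fin 36) :=
  Finset.univ.filter (fun x : Fin 36 =>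
    (x.val % 3 = 0 ∧ x.val / 3 < a) ∨ (x.val % 3 = 1 ∧ x.val / 3 < b) ∨ (x.val % 3 = 2 ∧ x.val / 3 < c))

def L11 : List (ℕ × ℕ × ℕ) :=
  [(4,4,3),(5,3,3),(5,4,2),(6,3,2),(6,4,1),(7,2,2),(7,3,1),(6,5,0),(7,4,0),(8,2,1),(8,3,0),
   (9,1,1),(9,2,0),(10,1,0),(11,0,0),(5,5,1)]

def V11 : Finset ℕ := {15, 16, 17, 19, 20, 21, 23, 24, 25, 27, 29, 31, 36, 37, 45, 55}

def V12 : Finset ℕ := {18, 19, 21, 22, 25, 27, 30, 31, 34, 37, 39, 45, 46, 55, 66}

lemma key11 : ∀ v ∈ V11, ∃ p ∈ L11, cnt (mk3 p.1 p.2.1 p.2.2) 0 + cnt (mk3 p.1 p.2.1 p.2.2) 1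
    + cnt (mk3 p.1 p.2.1 p.2.2) 2 = 11 ∧
    (cnt (mk3 p.1 p.2.1 p.2.2) 0).choose 2 + (cnt (mk3 p.1 p.2.1 p.2.2) 1).choose 2
    + (cnt (mk3 p.1 p.2.1 p.2.2) 2).choose 2 = v := by
  decide +kernel

lemma key12 : ∀ a < 13, ∀ b < 13, ∀ c < 13, a + b + c = 12 →
    a.choose 2 + b.choose 2 + c.choose 2 ∈ V12 := by
  decide +kernel

/-- Counterexample: three disjoint cliques of size 12, s = 2, t = 11. -/
theorem result :
    ¬ (∀ (N s m : ℕ) (c : Finset (Fin N) → Fin m) (t : ℕ),
      s ≤ t → 2 * (t + 1) ≤ N →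
        (((Finset.univ : Finset (Fin N)).powersetCard t).image
            (fun T : Finset (Fin N) => fun i : Fin m =>
              ((T.powersetCard s).filter (fun S => c S = i)).card)).card
        ≤
        (((Finset.univ : Finset (Fin N)).powersetCard (t + 1)).image
            (fun T : Finset (Fin N) => fun i : Fin m =>
              ((T.powersetCard s).filter (fun S => c S = i)).card)).card) := by
  intro h
  have h1 := h 36 2 2 col 11 (by norm_num) (by norm_num)
  have lower : 16 ≤ (((Finset.univ : Finset (Fin 36)).powersetCard 11).image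
            (fun T : Finset (Fin 36) => fun i : Fin 2 =>
              ((T.powersetCard 2).filter (fun S => col S = i)).card)).card := by
    have e : V11.card = 16 := by decide
    rw [← e]
    refine le_trans (Finset.card_le_card ?_) (Finset.card_image_le (f := fun g : Fin 2 → ℕ => g 0))
    intro v hv
    obtain ⟨p, _, h2, h3⟩ := key11 v hv
    refine Finset.mem_image.2 ⟨_, Finset.mem_image.2 ⟨mk3 p.1 p.2.1 p.2.2, ?_, rfl⟩, ?_⟩
    · rw [Finset.mem_powersetCard]
      exact ⟨Finset.subset_univ _, by rw [← cnt_sum, h2]⟩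
    · show _ = v
      rw [← h3, ← mono_card]
  have upper : (((Finset.univ : Finset (Fin 36)).powersetCard (11 + 1)).image
            (fun T : Finset (Fin 36) => fun i : Fin 2 =>
              ((T.powersetCard 2).filter (fun S => col S = i)).card)).card ≤ 15 := by
    have e : V12.card = 15 := by decide
    rw [← e]
    refine le_trans (Finset.card_le_card ?_)
      (Finset.card_image_le (f := fun v : ℕ => (![v, 66 - v] : Fin 2 → ℕ)))
    intro g hg
    obtain ⟨T, hT, rfl⟩ := Finset.mem_image.1 hg
    rw [Finset.mem_powersetCard] at hT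
    have hs := cnt_sum T
    have hc : T.card = 12 := hT.2
    have hm := mono_card T
    have ho := other_card T
    rw [hc] at ho hs
    refine Finset.mem_image.2 ⟨_, key12 (cnt T 0) (by omega) (cnt T 1) (by omega) (cnt T 2)
      (by omega) hs, ?_⟩
    have e66 : Nat.choose 12 2 = 66 := by decide
    funext i
    fin_cases i
    · simp only [Fin.zero_eta, Matrix.cons_val_zero]
      exact hm.symm
    · simp only [Fin.mk_one, Matrix.cons_val_one, Matrix.cons_val_zero]
      omega
  omega

end Pool.Agent.S08910
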