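import Pool.Statements.S08925
import Pool.Agent.H14.DetCount

set_option autoImplicit false
open Pool Pool.MP_5a23e6_co

namespace Pool.Agent.S08925

theorem result :
    ∃ c : ℝ, 0 < c ∧ ∀ n : ℕ, 1 ≤ n →
      c * (2 : ℝ) ^ n ≤
        ((Set.ncard {d : ℤ | ∃ M : Matrix (Fin n) (Fin n) ℤ,
            (∀ i j, M i j = 1 ∨ M i j = -1) ∧ M.det = 2 ^ (n - 1) * d}) : ℝ) := by
  refine ⟨1 / 2 ^ 12, by positivity, ?_⟩
  intro n hn
  rcases Nat.lt_or_ge n 2 with h2 | h2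
  · obtain rfl : n = 1 := by omega
    have hpos : 0 < Set.ncard {d : ℤ | ∃ M : Matrix (Fin 1) (Fin 1) ℤ,
        (∀ i j, M i j = 1 ∨ M i j = -1) ∧ M.det = 2 ^ (1 - 1) * d} := by
      rw [Set.ncard_pos (Pool.Agent.H14.DetCount.finite_dets 1)]
      refine ⟨1, 1, ?_, by simp⟩
      intro i j
      left
      rw [Subsingleton.elim i j]
      simp
    have : (1 : ℝ) ≤ ((Set.ncard {d : ℤ | ∃ M : Matrix (Fin 1) (Fin 1) ℤ,
        (∀ i j, M i j = 1 ∨ M i j = -1) ∧ M.det = 2 ^ (1 - 1) * d}) : ℝ) := by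
      exact_mod_cast hpos
    refine le_trans ?_ this
    norm_num
  · obtain ⟨p, rfl⟩ : ∃ p, n = p + 2 := ⟨n - 2, by omega⟩
    have h := Pool.Agent.H14.DetCount.count_ge p
    have h' : ((2048 : ℝ)) ^ (p / 11) ≤ ((Set.ncard {d : ℤ | ∃ M : Matrix (Fin (p + 2)) (Fin (p + 2)) ℤ,
        (∀ i j, M i j = 1 ∨ M i j = -1) ∧ M.det = 2 ^ (p + 2 - 1) * d}) : ℝ) := by
      exact_mod_cast h
    refine le_trans ?_ h'
    rw [show (2048 : ℝ) = 2 ^ 11 by norm_num, ← pow_mul]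
    have h3 : (2 : ℝ) ^ (p + 2) ≤ 2 ^ (11 * (p / 11) + 12) :=
      pow_le_pow_right₀ (by norm_num) (by omega)
    rw [pow_add (2 : ℝ) (11 * (p / 11)) 12] at h3
    rw [div_mul_eq_mul_div, one_mul, div_le_iff₀ (by positivity)]
    exact h3

end Pool.Agent.S08925
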