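import Pool.Statements.S08929

set_option autoImplicit false
open Pool Pool.MP_5a7c5b_co

namespace Pool.Agent.S08929

open Classical FreeGroup

abbrev S := Fin 2 × Bool

def iv (a : S) : S := (a.1, !a.2)

lemma iv_iv (a : S) : iv (iv a) = a := by simp [iv]

/-- greedy markers -/
def Mk (D : ℕ) (τ : ℤ → ℕ) (i : ℤ) : Prop := ¬ ∃ j, ∃ _ : τ j < τ i, |j - i| ≤ D ∧ Mk D τ j
termination_by τ i

lemma Mk_tr (D : ℕ) (τ τ' : ℤ → ℕ) (s : ℤ) : ∀ (t : ℕ) (i : ℤ), τ' i < t →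
    (∀ j, |j - i| ≤ t * D → τ' j = τ (s - j)) → (Mk D τ' i ↔ Mk D τ (s - i)) := by
  intro t
  induction t with
  | zero => simp
  | succ t ih =>
    intro i hi h
    have h0 : τ' i = τ (s - i) := h i (by simp only [sub_self, abs_zero]; positivity)
    have key : ∀ j, |j - i| ≤ D → τ' j = τ (s - j) ∧ (τ' j < τ' i → (Mk D τ' j ↔ Mk D τ (s - j))) :=
      fun j hj => ⟨h j (hj.trans (by push_cast; nlinarith [Int.natCast_nonneg (t * D)])),
        fun h' => ih j (by omega) fun k hk => h k (by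
          have := abs_sub_le k j i
          push_cast; linarith)⟩
    rw [Mk, Mk, not_iff_not]
    constructor
    · rintro ⟨j, a, b, c⟩
      obtain ⟨x, y⟩ := key j b
      exact ⟨s - j, by omega, by rwa [sub_sub_sub_cancel_left, abs_sub_comm], (y a).1 c⟩
    · rintro ⟨j, a, b, c⟩
      have b' : |s - j - i| ≤ D := by rw [abs_sub_comm]; convert b using 2; ring
      obtain ⟨x, y⟩ := key _ b'
      rw [sub_sub_cancel] at x y
      exact ⟨s - j, by omega, b', (y (by omega)).2 c⟩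

lemma Mk_eq {D : ℕ} {τ : ℤ → ℕ} {i j : ℤ} (hi : Mk D τ i) (hj : Mk D τ j) (h : |j - i| ≤ D) :
    τ i = τ j := by
  have a := hi; have b := hj
  rw [Mk] at a b
  exact le_antisymm (not_lt.1 fun h' => a ⟨j, h', h, hj⟩)
    (not_lt.1 fun h' => b ⟨i, h', by rwa [abs_sub_comm], hi⟩)

lemma Mk_ex (D : ℕ) (τ : ℤ → ℕ) (i : ℤ) : ∃ j, |j - i| ≤ D ∧ Mk D τ j := by
  by_cases h : Mk D τ i
  · exact ⟨i, by simp, h⟩
  · rw [Mk, not_not] at h
    obtain ⟨j, -, a, b⟩ := h
    exact ⟨j, a, b⟩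

lemma main (R : ℕ) : ∃ (ρ : ℕ) (col : (ℤ → S) → Prop × Prop), ∀ ω ω' (s : ℤ), |s| ≤ R →
    (∀ i : ℤ, |i| ≤ ρ → ω (i + 1) ≠ iv (ω i)) → (∀ i : ℤ, |i| ≤ ρ → ω' i = iv (ω (s - i))) →
    col ω ≠ col ω' := by
  obtain ⟨T, code, hT, hc⟩ : ∃ (T : ℕ) (code : (ℤ → S) → ℕ), (∀ u, code u < T) ∧
      ∀ u v, code u = code v ↔ ∀ t : ℤ, |t| ≤ 3 * R → u t = v t := by
    obtain ⟨T, ⟨e⟩⟩ := Finite.exists_equiv_fin (Set.Icc (-(3 * R : ℤ)) (3 * R) → S)
    refine ⟨T, fun u => e fun t => u t, fun u => Fin.is_lt _, fun u v => ?_⟩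
    simp [Fin.val_inj, funext_iff, abs_le]
  obtain ⟨e, he⟩ := exists_injective_nat S
  let α : (ℤ → S) → ℤ → ℕ := fun ω i => code fun t => ω (i + t)
  let β : (ℤ → S) → ℤ → ℕ := fun ω i => code fun t => iv (ω (i - t))
  let M : (ℤ → S) → ℤ → Prop := fun ω => Mk (3 * R) fun i => min (α ω i) (β ω i)
  let G : (ℤ → S) → ℤ → ℤ → Prop := fun ω p q =>
    p < 0 ∧ 0 < q ∧ M ω p ∧ M ω q ∧ ∀ i, p < i → i < q → ¬ M ω i
  have hG : ∀ ω p q p' q', G ω p q → G ω p' q' → p = p' ∧ q = q' :=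
    fun ω p q p' q' ⟨a, b, c, d, e⟩ ⟨a', b', c', d', e'⟩ =>
      ⟨le_antisymm (not_lt.1 fun h => e' p h (by omega) c) (not_lt.1 fun h => e p' h (by omega) c'),
        le_antisymm (not_lt.1 fun h => e q' (by omega) h d') (not_lt.1 fun h => e' q (by omega) h d)⟩
  refine ⟨T * (3 * R) + 20 * R + 5, fun ω => (∃ i : ℤ, |i| ≤ R ∧ M ω i,
    if ∃ i : ℤ, |i| ≤ R ∧ M ω i then ∃ i : ℤ, |i| ≤ R ∧ M ω i ∧ α ω i < β ω i else
      ∃ p q, G ω p q ∧ e (ω ((p + q) / 2)) < e (iv (ω (p + q - (p + q) / 2)))),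
    fun ω ω' s hs hr hω h => ?_⟩
  have hTR : (0 : ℤ) ≤ T * (3 * R) := by positivity
  push_cast at hr hω
  rw [abs_le] at hs
  have nr : ∀ m : ℤ, |m| ≤ 30 * R + 4 → ω (m / 2) ≠ iv (ω (m - m / 2)) := fun m hm h => by
    rw [abs_le] at hm
    rcases (by omega : m - m / 2 = m / 2 ∨ m - m / 2 = m / 2 + 1) with h' | h' <;> rw [h'] at h
    · simp [iv, Prod.ext_iff] at h
    · exact hr (m / 2) (by rw [abs_le]; omega) (by rw [h, iv_iv])
  have ab : ∀ i j : ℤ, |i| ≤ 10 * R → |j - i| ≤ 3 * R → α ω i ≠ β ω j := fun i j hi hj h => by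
    rw [abs_le] at hi hj
    have := (hc _ _).1 h ((j - i) / 2) (by rw [abs_le]; omega)
    refine nr (i + j) (by rw [abs_le]; omega) ?_
    rwa [show (i + j) / 2 = i + (j - i) / 2 by omega,
      show i + j - (i + (j - i) / 2) = j - (j - i) / 2 by omega]
  have tr : ∀ i : ℤ, |i| ≤ T * (3 * R) + 10 * R + 2 → α ω' i = β ω (s - i) ∧ β ω' i = α ω (s - i) :=
    fun i hi => by
      rw [abs_le] at hi
      refine ⟨(hc _ _).2 fun t ht => ?_, (hc _ _).2 fun t ht => ?_⟩ <;> rw [abs_le] at ht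
      · rw [hω _ (by rw [abs_le]; omega), sub_sub]
      · rw [hω _ (by rw [abs_le]; omega), iv_iv]; congr 1; ring
  have trM : ∀ i : ℤ, |i| ≤ 10 * R + 2 → (M ω' i ↔ M ω (s - i)) := fun i hi =>
    Mk_tr _ _ _ s T i ((min_le_left _ _).trans_lt (hT _)) fun j hj => by
      have := tr j (by rw [abs_le] at *; push_cast at hj; omega)
      simp only [this, min_comm]
  have sg : ∀ i j : ℤ, |i| ≤ 2 * R → |j| ≤ 2 * R → |j - i| ≤ 3 * R → M ω i → M ω j →
      α ω i < β ω i → ¬ β ω j < α ω j := fun i j hi hj hij a b c d => by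
    have := Mk_eq a b (by exact_mod_cast hij)
    simp only [min_eq_left c.le, min_eq_right d.le] at this
    exact ab i j (by omega) hij this
  have h1 := congrArg Prod.fst h
  have h2 := congrArg Prod.snd h
  simp only at h1 h2
  by_cases h0 : ∃ i : ℤ, |i| ≤ R ∧ M ω i
  · rw [if_pos h0, if_pos (h1 ▸ h0)] at h2
    obtain ⟨j, hj, hj'⟩ := h1 ▸ h0
    obtain ⟨i, hi, hi'⟩ := h0
    by_cases h3 : ∃ i : ℤ, |i| ≤ R ∧ M ω i ∧ α ω i < β ω i
    · obtain ⟨j, a, b, c⟩ := h2 ▸ h3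
      obtain ⟨i, a', b', c'⟩ := h3
      rw [(tr j (by omega)).1, (tr j (by omega)).2] at c
      rw [trM j (by omega)] at b
      rw [abs_le] at a a'
      exact sg i (s - j) (by rw [abs_le]; omega) (by rw [abs_le]; omega) (by rw [abs_le]; omega)
        b' b c' c
    · have c : ¬ α ω i < β ω i := fun h => h3 ⟨i, hi, hi', h⟩
      have d : ¬ α ω' j < β ω' j := fun h => h3 (h2 ▸ ⟨j, hj, hj', h⟩)
      rw [(tr j (by omega)).1, (tr j (by omega)).2] at d
      rw [trM j (by omega)] at hj'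
      rw [abs_le] at hi hj
      refine sg (s - j) i (by rw [abs_le]; omega) (by rw [abs_le]; omega) (by rw [abs_le]; omega)
        hj' hi' (lt_of_le_of_ne (not_lt.1 d) (ab _ _ (by rw [abs_le]; omega) (by simp)))
        (lt_of_le_of_ne (not_lt.1 c) (ab _ _ (by rw [abs_le]; omega) (by simp)).symm)
  · rw [if_neg h0, if_neg (h1 ▸ h0)] at h2
    obtain ⟨q₀, a, a'⟩ := Mk_ex (3 * R) (fun i => min (α ω i) (β ω i)) (3 * R + 1)
    obtain ⟨p₀, b, b'⟩ := Mk_ex (3 * R) (fun i => min (α ω i) (β ω i)) (-(3 * R + 1))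
    rw [abs_le] at a b
    push_cast at a b
    obtain ⟨q, ⟨q1, q2⟩, q3⟩ := Int.exists_least_of_bdd (P := fun q => 0 < q ∧ M ω q)
      ⟨0, fun _ h => h.1.le⟩ ⟨q₀, by omega, a'⟩
    obtain ⟨p, ⟨p1, p2⟩, p3⟩ := Int.exists_greatest_of_bdd (P := fun p => p < 0 ∧ M ω p)
      ⟨0, fun _ h => h.1.le⟩ ⟨p₀, by omega, b'⟩
    have q4 := q3 q₀ ⟨by omega, a'⟩
    have p4 := p3 p₀ ⟨by omega, b'⟩
    have q5 : R < q := not_le.1 fun h => h0 ⟨q, by rw [abs_le]; omega, q2⟩
    have p5 : p < -R := not_le.1 fun h => h0 ⟨p, by rw [abs_le]; omega, p2⟩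
    have g0 : ∀ i, p < i → i < q → ¬ M ω i := fun i x y h => by
      rcases lt_trichotomy i 0 with h' | rfl | h'
      · exact x.not_ge (p3 i ⟨h', h⟩)
      · exact h0 ⟨0, by simp, h⟩
      · exact y.not_ge (q3 i ⟨h', h⟩)
    have g1 : G ω p q := ⟨p1, q1, p2, q2, g0⟩
    have g2 : G ω' (s - q) (s - p) := ⟨by omega, by omega,
      (trM _ (by rw [abs_le]; omega)).2 (by simpa), (trM _ (by rw [abs_le]; omega)).2 (by simpa),
      fun i x y h => g0 (s - i) (by omega) (by omega) ((trM _ (by rw [abs_le]; omega)).1 h)⟩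
    have e1 : ∀ ω p q, G ω p q → ((∃ p q, G ω p q ∧
        e (ω ((p + q) / 2)) < e (iv (ω (p + q - (p + q) / 2)))) ↔
        e (ω ((p + q) / 2)) < e (iv (ω (p + q - (p + q) / 2)))) := fun ω p q h =>
      ⟨fun ⟨p', q', h', x⟩ => by obtain ⟨rfl, rfl⟩ := hG _ _ _ _ _ h h'; exact x,
        fun x => ⟨p, q, h, x⟩⟩
    rw [eq_iff_iff, e1 _ _ _ g1, e1 _ _ _ g2, hω _ (by rw [abs_le]; omega),
      hω _ (by rw [abs_le]; omega), iv_iv,
      show s - (s - q + (s - p)) / 2 = p + q - (p + q) / 2 by omega,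
      show s - (s - q + (s - p) - (s - q + (s - p)) / 2) = (p + q) / 2 by omega] at h2
    have := he.ne (nr (p + q) (by rw [abs_le]; omega))
    omega

abbrev F := FreeGroup (Fin 2)

/-- letters -/
def lt (x : F) (i : ℤ) : S := x.toWord.getD i.toNat (0, true)

lemma near (x : F) (L : List S) : ∃ d : ℤ, |d| ≤ L.length ∧
    ((mk L * x).norm : ℤ) = x.norm + d ∧ ∀ i : ℤ, L.length ≤ i → lt (mk L * x) i = lt x (i - d) := by
  induction L with
  | nil => exact ⟨0, by simp, by simp [← one_eq_mk], by simp [← one_eq_mk]⟩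
  | cons a L ih =>
    obtain ⟨d, h1, h2, h3⟩ := ih
    have e : (mk (a :: L) * x).toWord = reduce (a :: (mk L * x).toWord) := by
      rw [← toWord_mk, ← List.singleton_append (l := toWord _), ← mul_mk, mk_toWord, ← mul_assoc,
        mul_mk]; rfl
    rw [reduce.cons, reduce_toWord] at e
    rw [abs_le] at h1
    have A : (mk (a :: L) * x).toWord = a :: (mk L * x).toWord ∨
        ∃ b, (mk L * x).toWord = b :: (mk (a :: L) * x).toWord := by
      rcases hw : (mk L * x).toWord with _ | ⟨b, w⟩ <;> simp only [hw] at e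
      · exact .inl e
      · split_ifs at e
        · exact .inr ⟨b, by rw [e]⟩
        · exact .inl e
    simp only [FreeGroup.norm, List.length_cons] at h2 ⊢
    rcases A with A | ⟨b, A⟩
    · refine ⟨d + 1, by rw [abs_le]; push_cast; omega, by rw [A]; simp; omega, fun i hi => ?_⟩
      rw [show i - (d + 1) = i - 1 - d by ring, ← h3 _ (by push_cast at hi; omega), lt, lt, A,
        show i.toNat = (i - 1).toNat + 1 by push_cast at hi; omega, List.getD_cons_succ]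
    · refine ⟨d - 1, by rw [abs_le]; push_cast; omega, by rw [A] at h2; simp at h2; omega,
        fun i hi => ?_⟩
      rw [show i - (d - 1) = i + 1 - d by ring, ← h3 _ (by push_cast at hi; omega), lt, lt, A,
        show (i + 1).toNat = i.toNat + 1 by push_cast at hi; omega, List.getD_cons_succ]

lemma near' (x g : F) : ∃ d : ℤ, |d| ≤ g.norm ∧
    ((g * x).norm : ℤ) = x.norm + d ∧ ∀ i : ℤ, g.norm ≤ i → lt (g * x) i = lt x (i - d) := by
  simpa only [mk_toWord, FreeGroup.norm] using near x g.toWord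

lemma lt_inv (x : F) (i : ℤ) (h : 0 ≤ i) (h' : i < x.norm) :
    lt x⁻¹ i = iv (lt x (x.norm - 1 - i)) := by
  unfold FreeGroup.norm at *
  rw [lt, lt, toWord_inv, List.getD_eq_getElem _ _ (by simp; omega),
    List.getD_eq_getElem _ _ (by omega)]
  simp only [invRev, List.getElem_reverse, List.getElem_map, List.length_map, iv]
  have : (toWord x).length - 1 - i.toNat = ((toWord x).length - 1 - i : ℤ).toNat := by omega
  simp only [this]

lemma lt_red (x : F) (i : ℤ) (h : 0 ≤ i) (h' : i + 1 < x.norm) : lt x (i + 1) ≠ iv (lt x i) := by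
  unfold FreeGroup.norm at *
  have := List.isChain_iff_getElem.1 (isReduced_toWord (x := x)) i.toNat (by omega)
  rw [lt, lt, List.getD_eq_getElem _ _ (by omega), List.getD_eq_getElem _ _ (by omega)]
  simp only [show (i + 1).toNat = i.toNat + 1 by omega]
  intro e
  simp [e, iv] at this

/-- The free group on two generators can be colored with finitely many colors so that no infinite set A with A = g A⁻¹ g (for some g) is monochromatic. -/
theorem result :
    ∃ k : ℕ, ∃ c : FreeGroup (Fin 2) → Fin k,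
      ∀ A : Set (FreeGroup (Fin 2)), A.Infinite →
        (∃ g : FreeGroup (Fin 2), A = (fun a => g * a⁻¹ * g) '' A) →
          ¬ ∃ i : Fin k, ∀ a ∈ A, c a = i := by
  choose ρ col hc using main
  let n : ℕ → ℕ := fun k => ∑ j ∈ Finset.range k, (2 * ρ (3 * (j + 1) + 3) + 10 * j + 30)
  have hn : ∀ k, n (k + 1) = n k + (2 * ρ (3 * (k + 1) + 3) + 10 * k + 30) := fun k =>
    Finset.sum_range_succ _ _
  have hm : StrictMono n := strictMono_nat_of_lt_succ fun k => by rw [hn]; omega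
  have ex : ∀ m, ∃ k, n k ≤ m ∧ m < n (k + 1) := fun m =>
    ⟨Nat.findGreatest (n · ≤ m) m, Nat.findGreatest_spec (P := (n · ≤ m)) (Nat.zero_le m)
      (by simp [n]), not_le.1 fun h => Nat.findGreatest_is_greatest (Nat.lt_succ_self _)
        ((hm.le_apply).trans h) h⟩
  choose b b1 b2 using ex
  obtain ⟨k, ⟨e⟩⟩ := Finite.exists_equiv_fin (Fin 2 × Prop × Prop)
  refine ⟨k, fun x => e (Fin.ofNat 2 (b x.norm), col (3 * b x.norm + 3)
    fun i => lt x (x.norm / 2 + i)), ?_⟩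
  rintro A hA ⟨g, hg⟩ ⟨c, hcol⟩
  have : {x : F | x.norm ≤ n (g.norm + 1) + 2 * g.norm}.Finite :=
    (List.finite_length_le S _).preimage toWord_injective.injOn
  obtain ⟨x, hx, hx'⟩ := hA.exists_notMem_finite this
  have hy : g * x⁻¹ * g ∈ A := by
    have : g * x⁻¹ * g ∈ (fun a => g * a⁻¹ * g) '' A := ⟨x, hx, rfl⟩
    rwa [← hg] at this
  have h := e.injective ((hcol x hx).trans (hcol _ hy).symm)
  obtain ⟨d, d1, d2, d3⟩ := near' x g⁻¹
  obtain ⟨d', d1', d2', d3'⟩ := near' (g⁻¹ * x)⁻¹ g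
  rw [norm_inv_eq] at d1 d3 d2'
  rw [show g * (g⁻¹ * x)⁻¹ = g * x⁻¹ * g by group] at d2' d3'
  set y := g * x⁻¹ * g
  simp only [Set.mem_ofPred_eq, not_le] at hx'
  rw [abs_le] at d1 d1'
  have l1 : ∀ m, n (g.norm + 1) ≤ m → g.norm + 1 ≤ b m := fun m h =>
    Nat.lt_succ_iff.1 (hm.lt_iff_lt.1 (h.trans_lt (b2 m)))
  have l2 : ∀ m m', g.norm + 1 ≤ b m → m' ≤ m + 2 * g.norm → b m' < b m + 2 := fun m m' h h' =>
    hm.lt_iff_lt.1 ((b1 m').trans_lt (by have := b2 m; rw [hn (b m + 1)]; omega))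
  have a1 := l1 x.norm (by omega)
  have a2 := l1 y.norm (by omega)
  have a3 := l2 x.norm y.norm a1 (by omega)
  have a4 := l2 y.norm x.norm a2 (by omega)
  simp only [Prod.mk.injEq, Fin.ext_iff, Fin.ofNat] at h
  have a5 : b y.norm = b x.norm := by omega
  rw [a5] at h
  obtain ⟨K, hK⟩ : ∃ K, b x.norm = K + 1 := ⟨b x.norm - 1, by omega⟩
  have a6 := b1 x.norm
  rw [hK, hn] at a6
  rw [hK] at h
  refine hc _ _ _ (x.norm - 1 + d' - y.norm / 2 - x.norm / 2) (by rw [abs_le]; omega)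
    (fun i hi => ?_) (fun i hi => ?_) h.2 <;> rw [abs_le] at hi
  · rw [← add_assoc]
    exact lt_red x _ (by omega) (by omega)
  · rw [d3' _ (by omega), lt_inv _ _ (by omega) (by omega), d3 _ (by omega)]
    congr 2
    omega

end Pool.Agent.S08929
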