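import Pool.Statements.S09026
import Pool.Agent.Lead.Godd

set_option autoImplicit false
open scoped Classical
open Pool Pool.MP_5dc923_co

namespace Pool.Agent.S09026

open Pool.Agent.Lead.Godd

theorem result :
    ¬ (∀ (V : Type) [Fintype V] (G : SimpleGraph V) (w : Sym2 V → ℕ),
    (∀ a b : V, G.Adj a b → (G \ SimpleGraph.fromEdgeSet {s(a, b)}).Reachable a b) →
    (∀ a b : V, G.Adj a b → 2 ≤ w s(a, b)) →
    (∀ v : V, Even (∑ u : V, if G.Adj v u then w s(v, u) else 0)) →
    (∀ S : Finset V, ∀ a b : V, a ∈ S → b ∉ S → G.Adj a b →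
      2 * w s(a, b) ≤
        ∑ u : V, ∑ v : V, if (u ∈ S ∧ v ∉ S ∧ G.Adj u v) then w s(u, v) else 0) →
    ∃ (n : ℕ) (x : Fin n → V) (p : ∀ i, G.Walk (x i) (x i)),
      (∀ i, (p i).IsCycle) ∧
      ∀ a b : V, G.Adj a b →
        (∑ i : Fin n, if s(a, b) ∈ (p i).edges then 1 else 0) = w s(a, b)) := by
  intro H
  obtain ⟨n, x, p, hp, hw⟩ := H (Fin 10) P w (by
      intro a b hab
      obtain ⟨c, d, e, h1, h2, h3, h4, n1, n2, n3, n4, n5, n6⟩ := detour a b hab
      have A : ∀ y z : Fin 10, adjB y z = true → s(y, z) ≠ s(a, b) →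
          (P \ SimpleGraph.fromEdgeSet {s(a, b)}).Reachable y z := fun y z h hne =>
        SimpleGraph.Adj.reachable (by
          rw [SimpleGraph.sdiff_adj]
          exact ⟨h, by simp [SimpleGraph.fromEdgeSet_adj, hne]⟩)
      have hab' : a ≠ b := P.ne_of_adj hab
      exact (((A a c h1 (by simp [n1, hab'])).trans (A c d h2 (by simp [n1, n2]))).trans
        (A d e h3 (by simp [n3, n4]))).trans (A e b h4 (by simp [n5, n6])))
    (by intro a b _; rw [w_mk]; unfold wf; split_ifs <;> omega)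
    (by
      intro v
      convert ev v <;> rfl)
    (by
      intro S a b ha hb _
      rcases cut S with h | h | h
      · simp [h] at ha
      · simp [h] at hb
      · have : 2 * w s(a, b) ≤ 12 := by rw [w_mk]; unfold wf; split_ifs <;> omega
        refine this.trans ?_
        convert h <;> rfl)
  let J : Fin n → Fin 10 → Fin 10 → Bool := fun i a b => decide (s(a, b) ∈ (p i).edges)
  have hJ : ∀ i a b, (if s(a, b) ∈ (p i).edges then 1 else 0) = (J i a b).toNat := by
    intro i a b
    by_cases h : s(a, b) ∈ (p i).edges <;> simp [J, h]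
  have main : ∀ i, (J i 0 5).toNat + (J i 1 6).toNat + (J i 2 7).toNat + (J i 3 8).toNat + (J i 4 9).toNat ≤ ((J i 0 1).toNat + (J i 1 2).toNat + (J i 2 3).toNat + (J i 3 4).toNat + (J i 4 0).toNat) + ((J i 5 7).toNat + (J i 6 8).toNat + (J i 7 9).toNat + (J i 8 5).toNat + (J i 9 6).toNat) ∧
      ((J i 0 5).toNat + (J i 1 6).toNat + (J i 2 7).toNat + (J i 3 8).toNat + (J i 4 9).toNat = ((J i 0 1).toNat + (J i 1 2).toNat + (J i 2 3).toNat + (J i 3 4).toNat + (J i 4 0).toNat) + ((J i 5 7).toNat + (J i 6 8).toNat + (J i 7 9).toNat + (J i 8 5).toNat + (J i 9 6).toNat) → ((J i 0 1).toNat + (J i 1 2).toNat + (J i 2 3).toNat + (J i 3 4).toNat + (J i 4 0).toNat) % 2 = 0) := by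
    intro i
    have hd : ∀ v, (∑ u : Fin 10, (J i v u).toNat) % 2 = 0 := fun v => by
      have := even_deg (p i) (hp i).isTrail v
      simp only [hJ] at this
      exact Nat.even_iff.mp this
    have hz : ∀ a b, adjB a b = false → (J i a b).toNat = 0 := fun a b h => by
      have : s(a, b) ∉ (p i).edges := fun hh => by
        have : adjB a b = true := (p i).adj_of_mem_edges hh
        simp [h] at this
      simp [J, this]
    have hs : ∀ a b, J i a b = J i b a := fun a b => by simp only [J, Sym2.eq_swap]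
    exact key (J i 0 1) (J i 1 2) (J i 2 3) (J i 3 4) (J i 4 0) (J i 0 5) (J i 1 6) (J i 2 7) (J i 3 8) (J i 4 9) (J i 5 7) (J i 6 8) (J i 7 9) (J i 8 5) (J i 9 6)
      (by have := hd 0; simp only [Fin.sum_univ_succ, Fin.sum_univ_zero, Fin.succ_zero_eq_one, Fin.reduceSucc, hz 0 0 (by decide), hz 0 2 (by decide), hz 0 3 (by decide), hz 0 6 (by decide), hz 0 7 (by decide), hz 0 8 (by decide), hz 0 9 (by decide), hs 0 4] at this; omega)
      (by have := hd 1; simp only [Fin.sum_univ_succ, Fin.sum_univ_zero, Fin.succ_zero_eq_one, Fin.reduceSucc, hz 1 1 (by decide), hz 1 3 (by decide), hz 1 4 (by decide), hz 1 5 (by decide), hz 1 7 (by decide), hz 1 8 (by decide), hz 1 9 (by decide), hs 1 0] at this; omega)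
      (by have := hd 2; simp only [Fin.sum_univ_succ, Fin.sum_univ_zero, Fin.succ_zero_eq_one, Fin.reduceSucc, hz 2 0 (by decide), hz 2 2 (by decide), hz 2 4 (by decide), hz 2 5 (by decide), hz 2 6 (by decide), hz 2 8 (by decide), hz 2 9 (by decide), hs 2 1] at this; omega)
      (by have := hd 3; simp only [Fin.sum_univ_succ, Fin.sum_univ_zero, Fin.succ_zero_eq_one, Fin.reduceSucc, hz 3 0 (by decide), hz 3 1 (by decide), hz 3 3 (by decide), hz 3 5 (by decide), hz 3 6 (by decide), hz 3 7 (by decide), hz 3 9 (by decide), hs 3 2] at this; omega)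
      (by have := hd 4; simp only [Fin.sum_univ_succ, Fin.sum_univ_zero, Fin.succ_zero_eq_one, Fin.reduceSucc, hz 4 1 (by decide), hz 4 2 (by decide), hz 4 4 (by decide), hz 4 5 (by decide), hz 4 6 (by decide), hz 4 7 (by decide), hz 4 8 (by decide), hs 4 3] at this; omega)
      (by have := hd 5; simp only [Fin.sum_univ_succ, Fin.sum_univ_zero, Fin.succ_zero_eq_one, Fin.reduceSucc, hz 5 1 (by decide), hz 5 2 (by decide), hz 5 3 (by decide), hz 5 4 (by decide), hz 5 5 (by decide), hz 5 6 (by decide), hz 5 9 (by decide), hs 5 0, hs 5 8] at this; omega)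
      (by have := hd 6; simp only [Fin.sum_univ_succ, Fin.sum_univ_zero, Fin.succ_zero_eq_one, Fin.reduceSucc, hz 6 0 (by decide), hz 6 2 (by decide), hz 6 3 (by decide), hz 6 4 (by decide), hz 6 5 (by decide), hz 6 6 (by decide), hz 6 7 (by decide), hs 6 1, hs 6 9] at this; omega)
      (by have := hd 7; simp only [Fin.sum_univ_succ, Fin.sum_univ_zero, Fin.succ_zero_eq_one, Fin.reduceSucc, hz 7 0 (by decide), hz 7 1 (by decide), hz 7 3 (by decide), hz 7 4 (by decide), hz 7 6 (by decide), hz 7 7 (by decide), hz 7 8 (by decide), hs 7 2, hs 7 5] at this; omega)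
      (by have := hd 8; simp only [Fin.sum_univ_succ, Fin.sum_univ_zero, Fin.succ_zero_eq_one, Fin.reduceSucc, hz 8 0 (by decide), hz 8 1 (by decide), hz 8 2 (by decide), hz 8 4 (by decide), hz 8 7 (by decide), hz 8 8 (by decide), hz 8 9 (by decide), hs 8 3, hs 8 6] at this; omega)
      (by have := hd 9; simp only [Fin.sum_univ_succ, Fin.sum_univ_zero, Fin.succ_zero_eq_one, Fin.reduceSucc, hz 9 0 (by decide), hz 9 1 (by decide), hz 9 2 (by decide), hz 9 3 (by decide), hz 9 5 (by decide), hz 9 8 (by decide), hz 9 9 (by decide), hs 9 4, hs 9 7] at this; omega)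
  have hsum : ∀ a b : Fin 10, adjB a b = true → ∑ i, (J i a b).toNat = wf a b := fun a b h => by
    rw [← w_mk, ← hw a b h]
    exact Finset.sum_congr rfl fun i _ => by convert (hJ i a b).symm
  have hO : ∑ i, ((J i 0 1).toNat + (J i 1 2).toNat + (J i 2 3).toNat + (J i 3 4).toNat + (J i 4 0).toNat) = 15 := by
    simp only [Finset.sum_add_distrib]
    rw [hsum 0 1 (by decide), hsum 1 2 (by decide), hsum 2 3 (by decide), hsum 3 4 (by decide), hsum 4 0 (by decide)]; rfl
  have hI : ∑ i, ((J i 5 7).toNat + (J i 6 8).toNat + (J i 7 9).toNat + (J i 8 5).toNat + (J i 9 6).toNat) = 15 := by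
    simp only [Finset.sum_add_distrib]
    rw [hsum 5 7 (by decide), hsum 6 8 (by decide), hsum 7 9 (by decide), hsum 8 5 (by decide), hsum 9 6 (by decide)]; rfl
  have hS : ∑ i, ((J i 0 5).toNat + (J i 1 6).toNat + (J i 2 7).toNat + (J i 3 8).toNat + (J i 4 9).toNat) = 30 := by
    simp only [Finset.sum_add_distrib]
    rw [hsum 0 5 (by decide), hsum 1 6 (by decide), hsum 2 7 (by decide), hsum 3 8 (by decide), hsum 4 9 (by decide)]; rfl
  have heq := (Finset.sum_eq_sum_iff_of_le (s := Finset.univ) (fun i _ => (main i).1)).mp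
    (by rw [hS, Finset.sum_add_distrib, hO, hI])
  have : 2 ∣ ∑ i, ((J i 0 1).toNat + (J i 1 2).toNat + (J i 2 3).toNat + (J i 3 4).toNat + (J i 4 0).toNat) :=
    Finset.dvd_sum fun i hi => Nat.dvd_of_mod_eq_zero ((main i).2 (heq i hi))
  rw [hO] at this
  omega

end Pool.Agent.S09026
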