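import Pool.Statements.S09056

set_option autoImplicit false
open Pool Pool.MP_5f100a_co

namespace Pool.Agent.S09056

open Finset

/-- pairwise intersecting family of bitmasks -/
def good (F : Finset ℕ) : Prop := ∀ X ∈ F, ∀ Y ∈ F, X ≠ Y → X &&& Y ≠ 0

instance (F : Finset ℕ) : Decidable (good F) := by unfold good; infer_instance

def II (S : Finset ℕ) (s : ℕ) : ℕ := ((S.powersetCard s).filter good).card

def JJ (S : Finset ℕ) : ℕ := (S.powerset.filter good).card

theorem good_mono {F G : Finset ℕ} (h : F ⊆ G) (hG : good G) : good F :=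
  fun X hX Y hY => hG X (h hX) Y (h hY)

theorem good_insert {a : ℕ} {T : Finset ℕ} (ha : a ∉ T) :
    good (insert a T) ↔ good T ∧ ∀ y ∈ T, a &&& y ≠ 0 := by
  constructor
  · intro h
    refine ⟨good_mono (subset_insert _ _) h, fun y hy => ?_⟩
    exact h a (mem_insert_self _ _) y (mem_insert_of_mem hy) (fun e => ha (e ▸ hy))
  · rintro ⟨h1, h2⟩ X hX Y hY hne
    rcases mem_insert.1 hX with rfl | hX'
    · rcases mem_insert.1 hY with rfl | hY'
      · exact absurd rfl hne
      · exact h2 Y hY'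
    · rcases mem_insert.1 hY with rfl | hY'
      · rw [Nat.land_comm]; exact h2 X hX'
      · exact h1 X hX' Y hY' hne

theorem JJ_insert {a : ℕ} {s : Finset ℕ} (ha : a ∉ s) :
    JJ (insert a s) = JJ s + JJ (s.filter (fun y => a &&& y ≠ 0)) := by
  unfold JJ
  rw [card_filter, sum_powerset_insert ha, ← card_filter]
  congr 1
  rw [← card_filter]
  congr 1
  ext T
  simp only [mem_filter, mem_powerset]
  constructor
  · rintro ⟨h1, h2⟩
    have haT : a ∉ T := fun h => ha (h1 h)
    rw [good_insert haT] at h2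
    exact ⟨fun y hy => mem_filter.2 ⟨h1 hy, h2.2 y hy⟩, h2.1⟩
  · rintro ⟨h1, h2⟩
    have h1' : T ⊆ s := fun y hy => (mem_filter.1 (h1 hy)).1
    have haT : a ∉ T := fun h => ha (h1' h)
    exact ⟨h1', (good_insert haT).2 ⟨h2, fun y hy => (mem_filter.1 (h1 hy)).2⟩⟩

def ff : ℕ → List ℕ → ℕ
  | 0, _ => 1
  | _ + 1, [] => 1
  | k + 1, a :: l =>
    if l.all (fun y => a &&& y != 0) then 2 * ff k l
    else ff k l + ff k (l.filter (fun y => a &&& y != 0))

theorem JJ_empty : JJ ∅ = 1 := by decide

theorem toFinset_filt (a : ℕ) (l : List ℕ) :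
    (l.filter (fun y => a &&& y != 0)).toFinset = l.toFinset.filter (fun y => a &&& y ≠ 0) := by
  ext y; simp

theorem ff_eq : ∀ (k : ℕ) (L : List ℕ), L.length ≤ k → L.Nodup → ff k L = JJ L.toFinset
  | 0, L, h, _ => by
    have : L = [] := List.eq_nil_of_length_eq_zero (by omega)
    subst this; simp [ff, JJ_empty]
  | k + 1, [], _, _ => by simp [ff, JJ_empty]
  | k + 1, a :: l, h, hn => by
    have hl : l.length ≤ k := by simpa using h
    have hn' := List.nodup_cons.1 hn
    have ha : a ∉ l.toFinset := by simpa using hn'.1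
    rw [List.toFinset_cons, JJ_insert ha, ← toFinset_filt, ← ff_eq k l hl hn'.2,
      ← ff_eq k _ (le_trans (List.length_filter_le _ _) hl) (hn'.2.filter _)]
    simp only [ff]
    split_ifs with hall
    · have : l.filter (fun y => a &&& y != 0) = l := List.filter_eq_self.2 (List.all_eq_true.1 hall)
      rw [this]; omega
    · rfl

def TR : List ℕ := [7, 11, 13, 14, 19, 21, 22, 25, 26, 28, 35, 37, 38, 41, 42, 44, 49, 50, 52, 56, 67, 69, 70, 73, 74, 76, 81, 82, 84, 88, 97, 98, 100, 104, 112]
def LG : List ℕ := [15, 23, 27, 29, 30, 31, 39, 43, 45, 46, 47, 51, 53, 54, 55, 57, 58, 59, 60, 61, 62, 63, 71, 75, 77, 78, 79, 83, 85, 86, 87, 89, 90, 91, 92, 93, 94, 95, 99, 101, 102, 103, 105, 106, 107, 108, 109, 110, 111, 113, 114, 115, 116, 117, 118, 119, 120, 121, 122, 123, 124, 125, 126, 127]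
def SM : List ℕ := [0, 1, 2, 3, 4, 5, 6, 8, 9, 10, 12, 16, 17, 18, 20, 24, 32, 33, 34, 36, 40, 48, 64, 65, 66, 68, 72, 80, 96]
def EL : List (ℕ × ℕ) := [(0, 63), (0, 95), (0, 111), (0, 119), (0, 123), (0, 125), (0, 126), (0, 127), (1, 62), (1, 94), (1, 110), (1, 118), (1, 122), (1, 124), (1, 126), (2, 61), (2, 93), (2, 109), (2, 117), (2, 121), (2, 124), (2, 125), (3, 60), (3, 92), (3, 108), (3, 116), (3, 120), (3, 124), (4, 59), (4, 91), (4, 107), (4, 115), (4, 121), (4, 122), (4, 123), (5, 58), (5, 90), (5, 106), (5, 114), (5, 120), (5, 122), (6, 57), (6, 89), (6, 105), (6, 113), (6, 120), (6, 121), (7, 56), (7, 88), (7, 104), (7, 112), (7, 120), (8, 55), (8, 87), (8, 103), (8, 115), (8, 117), (8, 118), (8, 119), (9, 54), (9, 86), (9, 102), (9, 114), (9, 116), (9, 118), (10, 53), (10, 85), (10, 101), (10, 113), (10, 116), (10, 117), (11, 52), (11, 84), (11, 100), (11, 112), (11, 116), (12, 51), (12, 83), (12, 99), (12, 113), (12, 114), (12, 115), (13, 50), (13, 82), (13, 98), (13, 112),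 (13, 114), (14, 49), (14, 81), (14, 97), (14, 112), (14, 113), (15, 48), (15, 80), (15, 96), (15, 112), (16, 47), (16, 79), (16, 103), (16, 107), (16, 109), (16, 110), (16, 111), (17, 46), (17, 78), (17, 102), (17, 106), (17, 108), (17, 110), (18, 45), (18, 77), (18, 101), (18, 105), (18, 108), (18, 109), (19, 44), (19, 76), (19, 100), (19, 104), (19, 108), (20, 43), (20, 75), (20, 99), (20, 105), (20, 106), (20, 107), (21, 42), (21, 74), (21, 98), (21, 104), (21, 106), (22, 41), (22, 73), (22, 97), (22, 104), (22, 105), (23, 40), (23, 72), (23, 96), (23, 104), (24, 39), (24, 71), (24, 99), (24, 101), (24, 102), (24, 103), (25, 38), (25, 70), (25, 98), (25, 100), (25, 102), (26, 37), (26, 69), (26, 97), (26, 100), (26, 101), (27, 36), (27, 68), (27, 96), (27, 100), (28, 35), (28, 67), (28, 97), (28, 98), (28, 99), (29, 34), (29, 66), (29, 96), (29, 98), (30, 33), (30, 65), (30, 96), (30, 97), (31, 32), (31, 64), (31, 96), (32, 79), (32, 87), (32, 91), (32, 93), (32, 94), (32, 95), (33,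 78), (33, 86), (33, 90), (33, 92), (33, 94), (34, 77), (34, 85), (34, 89), (34, 92), (34, 93), (35, 76), (35, 84), (35, 88), (35, 92), (36, 75), (36, 83), (36, 89), (36, 90), (36, 91), (37, 74), (37, 82), (37, 88), (37, 90), (38, 73), (38, 81), (38, 88), (38, 89), (39, 72), (39, 80), (39, 88), (40, 71), (40, 83), (40, 85), (40, 86), (40, 87), (41, 70), (41, 82), (41, 84), (41, 86), (42, 69), (42, 81), (42, 84), (42, 85), (43, 68), (43, 80), (43, 84), (44, 67), (44, 81), (44, 82), (44, 83), (45, 66), (45, 80), (45, 82), (46, 65), (46, 80), (46, 81), (47, 64), (47, 80), (48, 71), (48, 75), (48, 77), (48, 78), (48, 79), (49, 70), (49, 74), (49, 76), (49, 78), (50, 69), (50, 73), (50, 76), (50, 77), (51, 68), (51, 72), (51, 76), (52, 67), (52, 73), (52, 74), (52, 75), (53, 66), (53, 72), (53, 74), (54, 65), (54, 72), (54, 73), (55, 64), (55, 72), (56, 67), (56, 69), (56, 70), (56, 71), (57, 66), (57, 68), (57, 70), (58, 65), (58, 68), (58, 69), (59, 64), (59, 68), (60, 65), (60, 66), (60,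 67), (61, 64), (61, 66), (62, 64), (62, 65), (63, 64)]
def D1 : List ℕ := [7, 11, 13, 14, 19, 21, 22, 25, 26, 28, 35, 37, 38, 41, 42, 44, 49, 50, 52, 56]
def D2 : List ℕ := [44, 49, 50, 52, 56, 67, 69, 70, 73, 74, 76, 81, 82, 84, 88, 97, 98, 100, 104, 112]

def leaf (acc : List ℕ) : Bool := decide (ff 35 (TR.filter (fun t => !acc.contains t)) ≤ 59049)

def gg : ℕ → List ℕ → ℕ → List ℕ → Bool
  | _, _, 0, acc => leaf acc
  | 0, _, _ + 1, _ => true
  | _ + 1, [], _ + 1, _ => true
  | k + 1, a :: l, n + 1, acc =>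
    if l.length < n then true
    else gg k l (n + 1) acc && gg k (l.filter (fun y => a &&& y != 0)) n (a :: acc)

theorem gg_sound : ∀ (k : ℕ) (L : List ℕ) (n : ℕ) (acc : List ℕ), L.length ≤ k → L.Nodup →
    gg k L n acc = true → ∀ R : Finset ℕ, R ⊆ L.toFinset → good R → R.card = n →
      ∃ acc' : List ℕ, leaf acc' = true ∧ acc'.toFinset = acc.toFinset ∪ R
  | k, L, 0, acc, _, _, h, R, _, _, hc => by
    have : R = ∅ := card_eq_zero.1 hc
    subst this
    refine ⟨acc, ?_, by simp⟩
    cases k <;> cases L <;> simpa [gg] using h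
  | 0, L, n + 1, acc, hk, _, _, R, hR, _, hc => by
    have : L = [] := List.eq_nil_of_length_eq_zero (by omega)
    subst this
    have := card_le_card hR
    simp at this
    subst this
    simp at hc
  | k + 1, [], n + 1, acc, _, _, _, R, hR, _, hc => by
    have := card_le_card hR
    simp at this
    subst this
    simp at hc
  | k + 1, a :: l, n + 1, acc, hk, hn, h, R, hR, hg, hc => by
    have hl : l.length ≤ k := by simpa using hk
    have hn' := List.nodup_cons.1 hn
    simp only [gg] at h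
    split_ifs at h with hlt
    · have h1 := card_le_card hR
      have h2 := List.toFinset_card_le (a :: l)
      simp only [List.length_cons] at h2
      omega
    · rw [Bool.and_eq_true] at h
      by_cases haR : a ∈ R
      · have hR' : R.erase a ⊆ (l.filter (fun y => a &&& y != 0)).toFinset := by
          intro y hy
          rw [toFinset_filt, mem_filter]
          have hy' := mem_erase.1 hy
          have h3 := hR hy'.2
          rw [List.toFinset_cons, mem_insert] at h3
          refine ⟨h3.resolve_left hy'.1, hg a haR y hy'.2 (Ne.symm hy'.1)⟩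
        obtain ⟨acc', h1, h2⟩ := gg_sound k _ n (a :: acc)
          (le_trans (List.length_filter_le _ _) hl) (hn'.2.filter _) h.2 (R.erase a) hR'
          (good_mono (erase_subset _ _) hg) (by rw [card_erase_of_mem haR, hc]; rfl)
        refine ⟨acc', h1, ?_⟩
        rw [h2, List.toFinset_cons, insert_union, ← union_insert, insert_erase haR]
      · have hR' : R ⊆ l.toFinset := by
          intro y hy
          have h3 := hR hy
          rw [List.toFinset_cons, mem_insert] at h3
          exact h3.resolve_left (fun e => haR (e ▸ hy))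
        exact gg_sound k l (n + 1) acc hl hn'.2 h.1 R hR' hg hc

theorem gg_run : gg 35 TR 15 [] = true := by decide +kernel

theorem ff_run : ff 35 D2 = 67072 := by decide +kernel

theorem TR_nd : TR.Nodup := by decide +kernel
theorem LG_nd : LG.Nodup := by decide +kernel
theorem D1_nd : D1.Nodup := by decide +kernel
theorem D2_nd : D2.Nodup := by decide +kernel
theorem EL_nd : EL.Nodup := by decide +kernel

def E : Finset (ℕ × ℕ) := ⟨(EL : Multiset (ℕ × ℕ)), EL_nd⟩
def T3 : Finset ℕ := ⟨(TR : Multiset ℕ), TR_nd⟩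
def L4 : Finset ℕ := ⟨(LG : Multiset ℕ), LG_nd⟩
def F1 : Finset ℕ := ⟨((LG ++ D1 : List ℕ) : Multiset ℕ), by decide +kernel⟩
def F2 : Finset ℕ := ⟨((LG ++ D2 : List ℕ) : Multiset ℕ), by decide +kernel⟩

def dg (u : ℕ) : ℕ := (E.filter (fun p => p.1 = u)).card + (E.filter (fun p => p.2 = u)).card

theorem E_card : E.card = 288 := by decide +kernel
theorem E_prop : ∀ p ∈ E, p.1 < p.2 ∧ p.2 < 128 ∧ p.1 &&& p.2 = 0 := by decide +kernel
theorem dg_prop : ∀ u ∈ range 128, (u ∈ T3 ∧ dg u = 5) ∨ (u ∈ L4 ∧ dg u < 5) ∨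
    (u ∉ T3 ∧ u ∉ L4 ∧ 5 < dg u) := by decide +kernel
theorem dg_sum : ∑ u ∈ range 128, (5 - dg u) = 102 := by decide +kernel
theorem T3_E : ∀ a ∈ T3, ∀ b ∈ T3, a &&& b = 0 → (a, b) ∈ E ∨ (b, a) ∈ E := by decide +kernel
theorem F1_E : ∀ a ∈ F1, ∀ b ∈ F1, a &&& b = 0 → (a, b) ∈ E ∨ (b, a) ∈ E := by decide +kernel
theorem F1_cnt : (E.filter (fun p => p.1 ∈ F1 ∧ p.2 ∈ F1)).card = 30 := by decide +kernel
theorem F1_card : F1.card = 84 := by decide +kernel
theorem F2_card : F2.card = 84 := by decide +kernel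
theorem F1_sub : ∀ m ∈ F1, m < 128 := by decide +kernel
theorem F2_sub : ∀ m ∈ F2, m < 128 := by decide +kernel
theorem T3_card : T3.card = 35 := by decide +kernel
theorem L4_card : L4.card = 64 := by decide +kernel
theorem T3_L4 : ∀ t ∈ T3, t ∉ L4 ∧ 127 - t ∈ L4 ∧ t < 128 := by decide +kernel
theorem L4_sub : ∀ m ∈ L4, m < 128 ∧ 127 - m ∉ L4 := by decide +kernel
theorem TL_meet : ∀ t ∈ T3, ∀ m ∈ L4, t &&& m = 0 → 127 - m = t := by decide +kernel
theorem LL_meet : ∀ t ∈ L4, ∀ m ∈ L4, t &&& m ≠ 0 := by decide +kernel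
theorem compl_dis : ∀ m ∈ range 128, m &&& (127 - m) = 0 := by decide +kernel
theorem D2_sub : ∀ t ∈ D2, t ∈ T3 ∧ t ∈ F2 := by decide +kernel
theorem L4_F2 : ∀ t ∈ L4, t ∈ F2 := by decide +kernel

def bad (S : Finset ℕ) : ℕ := ((S.powersetCard 2).filter (fun F => ¬ good F)).card

theorem II_bad (S : Finset ℕ) : II S 2 + bad S = S.card.choose 2 := by
  unfold II bad
  rw [card_filter_add_card_filter_not, card_powersetCard]

theorem bad_F1 : bad F1 ≤ 30 := by
  rw [← F1_cnt]
  refine le_trans (card_le_card (t := (E.filter (fun p => p.1 ∈ F1 ∧ p.2 ∈ F1)).image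
    (fun p => ({p.1, p.2} : Finset ℕ))) ?_) card_image_le
  intro F hF
  rw [mem_filter, mem_powersetCard] at hF
  obtain ⟨⟨h1, h2⟩, h3⟩ := hF
  unfold good at h3
  push Not at h3
  obtain ⟨X, hX, Y, hY, hne, hd⟩ := h3
  have hF : ({X, Y} : Finset ℕ) = F := by
    apply eq_of_subset_of_card_le
    · intro z hz
      rcases mem_insert.1 hz with rfl | hz
      · exact hX
      · rw [mem_singleton.1 hz]; exact hY
    · rw [card_pair hne, h2]
  rcases F1_E X (h1 hX) Y (h1 hY) hd with h | h
  · exact mem_image.2 ⟨(X, Y), mem_filter.2 ⟨h, h1 hX, h1 hY⟩, hF⟩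
  · exact mem_image.2 ⟨(Y, X), mem_filter.2 ⟨h, h1 hY, h1 hX⟩, by rw [← hF, pair_comm]⟩

theorem cnt_le_bad (S : Finset ℕ) :
    (E.filter (fun p => p.1 ∈ S ∧ p.2 ∈ S)).card ≤ bad S := by
  unfold bad
  apply card_le_card_of_injOn (fun p => ({p.1, p.2} : Finset ℕ))
  · intro p hp
    rw [mem_coe, mem_filter] at hp
    obtain ⟨h1, h2, h3⟩ := E_prop p hp.1
    rw [mem_coe, mem_filter, mem_powersetCard]
    refine ⟨⟨?_, card_pair (ne_of_lt h1)⟩, fun hg => ?_⟩
    · intro z hz
      rcases mem_insert.1 hz with rfl | hz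
      · exact hp.2.1
      · rw [mem_singleton.1 hz]; exact hp.2.2
    · exact hg p.1 (by simp) p.2 (by simp) (ne_of_lt h1) h3
  · intro p hp q hq hpq
    rw [mem_coe, mem_filter] at hp hq
    have h1 := (E_prop p hp.1).1
    have h2 := (E_prop q hq.1).1
    have a1 : p.1 ∈ ({q.1, q.2} : Finset ℕ) := by
      have : ({p.1, p.2} : Finset ℕ) = {q.1, q.2} := hpq
      rw [← this]; simp
    have a2 : p.2 ∈ ({q.1, q.2} : Finset ℕ) := by
      have : ({p.1, p.2} : Finset ℕ) = {q.1, q.2} := hpq
      rw [← this]; simp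
    have a3 : q.1 ∈ ({p.1, p.2} : Finset ℕ) := by
      have : ({p.1, p.2} : Finset ℕ) = {q.1, q.2} := hpq
      rw [this]; simp
    simp only [mem_insert, mem_singleton] at a1 a2 a3
    apply Prod.ext <;> omega

theorem lp (S : Finset ℕ) (hS : S ⊆ range 128) (hc : S.card = 84)
    (hb : (E.filter (fun p => p.1 ∈ S ∧ p.2 ∈ S)).card ≤ 30) :
    (∀ p ∈ E, p.1 ∈ S ∨ p.2 ∈ S) ∧ (∀ u ∈ range 128, (dg u < 5 → u ∈ S) ∧ (5 < dg u → u ∉ S)) := by
  set x : ℕ → ℤ := fun u => if u ∈ S then 1 else 0 with hx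
  have hcnt : ((E.filter (fun p => p.1 ∈ S ∧ p.2 ∈ S)).card : ℤ) = ∑ p ∈ E, x p.1 * x p.2 := by
    rw [card_filter]; push_cast
    refine sum_congr rfl fun p _ => ?_
    by_cases h1 : p.1 ∈ S <;> by_cases h2 : p.2 ∈ S <;> simp [hx, h1, h2]
  have hsum : ∑ u ∈ range 128, x u = 84 := by
    have : ∑ u ∈ range 128, x u = (((range 128).filter (fun u => u ∈ S)).card : ℤ) := by
      rw [card_filter]; push_cast; rfl
    rw [this, filter_mem_eq_inter, inter_eq_right.2 hS, hc]; rfl
  have e1 : ∑ p ∈ E, x p.1 = ∑ u ∈ range 128, ((E.filter (fun p => p.1 = u)).card : ℤ) * x u := by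
    rw [← sum_fiberwise_of_maps_to' (t := range 128) (g := fun p : ℕ × ℕ => p.1)
      (fun p hp => mem_range.2 (by have := E_prop p hp; omega))]
    refine sum_congr rfl fun u _ => ?_
    rw [sum_const, nsmul_eq_mul]
  have e2 : ∑ p ∈ E, x p.2 = ∑ u ∈ range 128, ((E.filter (fun p => p.2 = u)).card : ℤ) * x u := by
    rw [← sum_fiberwise_of_maps_to' (t := range 128) (g := fun p : ℕ × ℕ => p.2)
      (fun p hp => mem_range.2 (by have := E_prop p hp; omega))]
    refine sum_congr rfl fun u _ => ?_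
    rw [sum_const, nsmul_eq_mul]
  set q : ℕ × ℕ → ℤ := fun p => (1 - x p.1) * (1 - x p.2) with hq
  set pen : ℕ → ℤ := fun u => if dg u < 5 then (5 - dg u : ℤ) * (1 - x u) else (dg u - 5 : ℤ) * x u
    with hpen
  have hq0 : ∀ p ∈ E, 0 ≤ q p := by
    intro p _
    by_cases h1 : p.1 ∈ S <;> by_cases h2 : p.2 ∈ S <;> simp [hq, hx, h1, h2]
  have hp0 : ∀ u ∈ range 128, 0 ≤ pen u := by
    intro u _
    simp only [hpen, hx]
    split_ifs <;> simp <;> omega
  have e3 : ∑ p ∈ E, x p.1 * x p.2 = ∑ p ∈ E, q p + ∑ p ∈ E, x p.1 + ∑ p ∈ E, x p.2 - 288 := by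
    have : (288 : ℤ) = ∑ _p ∈ E, (1 : ℤ) := by rw [sum_const, E_card]; rfl
    rw [this, ← sum_add_distrib, ← sum_add_distrib, ← sum_sub_distrib]
    refine sum_congr rfl fun p _ => ?_
    simp only [hq]; ring
  have e4 : ∑ p ∈ E, x p.1 + ∑ p ∈ E, x p.2 =
      ∑ u ∈ range 128, pen u + 5 * ∑ u ∈ range 128, x u - 102 := by
    have : (102 : ℤ) = ∑ u ∈ range 128, ((5 - dg u : ℕ) : ℤ) := by
      rw [← Nat.cast_sum, dg_sum]; rfl
    rw [this, e1, e2, mul_sum, ← sum_add_distrib, ← sum_add_distrib, ← sum_sub_distrib]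
    refine sum_congr rfl fun u _ => ?_
    have hd : ((E.filter (fun p => p.1 = u)).card : ℤ) + ((E.filter (fun p => p.2 = u)).card : ℤ)
        = dg u := by unfold dg; push_cast; rfl
    rw [← add_mul, hd]
    simp only [hpen]
    split_ifs with h
    · rw [Nat.cast_sub h.le]; push_cast; ring
    · rw [Nat.sub_eq_zero_of_le (by omega)]; push_cast; ring
  have hb' : ((E.filter (fun p => p.1 ∈ S ∧ p.2 ∈ S)).card : ℤ) ≤ 30 := by exact_mod_cast hb
  have s1 := sum_nonneg hq0
  have s2 := sum_nonneg hp0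
  have z1 : ∑ p ∈ E, q p = 0 := by linarith
  have z2 : ∑ u ∈ range 128, pen u = 0 := by linarith
  rw [sum_eq_zero_iff_of_nonneg hq0] at z1
  rw [sum_eq_zero_iff_of_nonneg hp0] at z2
  refine ⟨fun p hp => ?_, fun u hu => ⟨fun h => ?_, fun h => ?_⟩⟩
  · have := z1 p hp
    by_contra hcon
    push Not at hcon
    simp [hq, hx, hcon.1, hcon.2] at this
  · have := z2 u hu
    by_contra hcon
    simp only [hpen, hx, if_pos h, if_neg hcon] at this
    omega
  · have := z2 u hu
    intro hcon
    simp only [hpen, hx, if_neg (show ¬ dg u < 5 by omega), if_pos hcon] at this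
    omega

theorem one_of_pair (F : Finset ℕ) (hF : F ⊆ range 128) (hg : good F) (hc : F.card = 64) :
    ∀ m < 128, m ∈ F ∨ 127 - m ∈ F := by
  set φ : ℕ → ℕ := fun m => if m < 64 then m else 127 - m with hφ
  have hinj : Set.InjOn φ F := by
    intro a ha b hb hab
    have ha' := mem_range.1 (hF ha)
    have hb' := mem_range.1 (hF hb)
    by_contra hne
    have : b = 127 - a := by
      simp only [hφ] at hab
      split_ifs at hab <;> omega
    exact hg a ha b hb hne (by rw [this]; exact compl_dis a (hF ha))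
  have himg : F.image φ = range 64 := by
    apply eq_of_subset_of_card_le
    · intro y hy
      obtain ⟨a, ha, rfl⟩ := mem_image.1 hy
      have ha' := mem_range.1 (hF ha)
      simp only [hφ, mem_range]
      split_ifs <;> omega
    · rw [card_image_of_injOn hinj, hc, card_range]
  intro m hm
  have : φ m ∈ F.image φ := by
    rw [himg, mem_range]
    simp only [hφ]
    split_ifs <;> omega
  obtain ⟨a, ha, hab⟩ := mem_image.1 this
  have ha' := mem_range.1 (hF ha)
  have : a = m ∨ a = 127 - m := by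
    simp only [hφ] at hab
    split_ifs at hab <;> omega
  rcases this with rfl | rfl
  · exact Or.inl ha
  · exact Or.inr ha

theorem upper (S : Finset ℕ) (hS : S ⊆ range 128) (hS' : ∀ m ∈ S, m ∈ T3 ∨ m ∈ L4) :
    II S 64 ≤ JJ (S ∩ T3) := by
  unfold II JJ
  apply card_le_card_of_injOn (fun F => F ∩ T3)
  · intro F hF
    rw [mem_coe, mem_filter, mem_powersetCard] at hF
    rw [mem_coe, mem_filter, mem_powerset]
    exact ⟨inter_subset_inter_right hF.1.1, good_mono inter_subset_left hF.2⟩
  · have key : ∀ F G : Finset ℕ, F ⊆ S → good F → F.card = 64 → G ⊆ S → good G → G.card = 64 →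
        F ∩ T3 = G ∩ T3 → F ⊆ G := by
      intro F G hF gF cF hG gG cG h m hm
      rcases hS' m (hF hm) with h3 | h4
      · have : m ∈ G ∩ T3 := h ▸ mem_inter.2 ⟨hm, h3⟩
        exact (mem_inter.1 this).1
      · have hm' := (L4_sub m h4).1
        rcases one_of_pair G (hG.trans hS) gG cG m hm' with h5 | h5
        · exact h5
        · exfalso
          have h6 : 127 - m ∈ T3 := (hS' _ (hG h5)).resolve_right (L4_sub m h4).2
          have h7 : 127 - m ∈ F ∩ T3 := h ▸ mem_inter.2 ⟨h5, h6⟩
          exact gF m hm _ (mem_inter.1 h7).1 (by omega) (compl_dis m (mem_range.2 hm'))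
    intro F hF G hG h
    rw [mem_coe, mem_filter, mem_powersetCard] at hF hG
    exact Subset.antisymm (key F G hF.1.1 hF.2 hF.1.2 hG.1.1 hG.2 hG.1.2 h)
      (key G F hG.1.1 hG.2 hG.1.2 hF.1.1 hF.2 hF.1.2 h.symm)

theorem lower : JJ D2.toFinset ≤ II F2 64 := by
  unfold II JJ
  have hD : ∀ T ∈ D2.toFinset.powerset, T ⊆ T3 ∧ T ⊆ F2 := fun T hT =>
    ⟨fun t ht => (D2_sub t (List.mem_toFinset.1 (mem_powerset.1 hT ht))).1,
     fun t ht => (D2_sub t (List.mem_toFinset.1 (mem_powerset.1 hT ht))).2⟩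
  apply card_le_card_of_injOn (fun T => T ∪ L4.filter (fun m => 127 - m ∉ T))
  · intro T hT
    rw [mem_coe, mem_filter] at hT
    obtain ⟨h1, h2⟩ := hD T hT.1
    rw [mem_coe, mem_filter, mem_powersetCard]
    refine ⟨⟨union_subset h2 fun m hm => L4_F2 m (mem_filter.1 hm).1, ?_⟩, ?_⟩
    · rw [card_union_of_disjoint]
      · have e := card_filter_add_card_filter_not (s := L4) (fun m => 127 - m ∈ T)
        have e2 : (L4.filter (fun m => 127 - m ∈ T)).card = T.card := by
          apply card_bij (fun m _ => 127 - m)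
          · intro m hm; exact (mem_filter.1 hm).2
          · intro a ha b hb hab
            have := (L4_sub a (mem_filter.1 ha).1).1
            have := (L4_sub b (mem_filter.1 hb).1).1
            omega
          · intro t ht
            have h3 := T3_L4 t (h1 ht)
            refine ⟨127 - t, mem_filter.2 ⟨h3.2.1, ?_⟩, by omega⟩
            rw [show 127 - (127 - t) = t by omega]; exact ht
        rw [L4_card] at e
        omega
      · rw [disjoint_left]
        intro t ht ht'
        exact (T3_L4 t (h1 ht)).1 (mem_filter.1 ht').1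
    · intro X hX Y hY hne
      rcases mem_union.1 hX with hX | hX <;> rcases mem_union.1 hY with hY | hY
      · exact hT.2 X hX Y hY hne
      · intro hd
        have := TL_meet X (h1 hX) Y (mem_filter.1 hY).1 hd
        exact (mem_filter.1 hY).2 (this ▸ hX)
      · intro hd
        rw [Nat.land_comm] at hd
        have := TL_meet Y (h1 hY) X (mem_filter.1 hX).1 hd
        exact (mem_filter.1 hX).2 (this ▸ hY)
      · exact LL_meet X (mem_filter.1 hX).1 Y (mem_filter.1 hY).1
  · have key : ∀ T U : Finset ℕ, T ⊆ T3 →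
        T ∪ L4.filter (fun m => 127 - m ∉ T) = U ∪ L4.filter (fun m => 127 - m ∉ U) → T ⊆ U := by
      intro T U hT h t ht
      have : t ∈ U ∪ L4.filter (fun m => 127 - m ∉ U) := h ▸ mem_union_left _ ht
      rcases mem_union.1 this with h1 | h1
      · exact h1
      · exact absurd (mem_filter.1 h1).1 (T3_L4 t (hT ht)).1
    intro T hT U hU h
    rw [mem_coe, mem_filter] at hT hU
    exact Subset.antisymm (key T U (hD T hT.1).1 h) (key U T (hD U hU.1).1 h.symm)

theorem core (S : Finset ℕ) (hS : S ⊆ range 128) (hc : S.card = 84)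
    (h2 : II F1 2 ≤ II S 2) (h64 : II F2 64 ≤ II S 64) : False := by
  have b1 := II_bad S
  have b2 := II_bad F1
  rw [hc] at b1
  rw [F1_card] at b2
  have b3 := bad_F1
  have b4 := cnt_le_bad S
  obtain ⟨l1, l2⟩ := lp S hS hc (by omega)
  have hS' : ∀ m ∈ S, m ∈ T3 ∨ m ∈ L4 := by
    intro m hm
    rcases dg_prop m (hS hm) with h | h | h
    · exact Or.inl h.1
    · exact Or.inr h.1
    · exact absurd hm ((l2 m (hS hm)).2 h.2.2)
  have hL : L4 ⊆ S := by
    intro m hm
    have hm' := mem_range.2 (L4_sub m hm).1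
    rcases dg_prop m hm' with h | h | h
    · exact absurd hm (T3_L4 m h.1).1
    · exact (l2 m hm').1 h.2
    · exact absurd hm h.2.1
  have hcard : (S ∩ T3).card = 20 := by
    have e : S = (S ∩ T3) ∪ L4 := by
      ext m
      simp only [mem_union, mem_inter]
      constructor
      · intro hm
        rcases hS' m hm with h | h
        · exact Or.inl ⟨hm, h⟩
        · exact Or.inr h
      · rintro (h | h)
        · exact h.1
        · exact hL h
    have e2 : ((S ∩ T3) ∪ L4).card = (S ∩ T3).card + L4.card := by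
      apply card_union_of_disjoint
      rw [disjoint_left]
      intro t ht ht'
      exact (T3_L4 t (mem_inter.1 ht).2).1 ht'
    rw [← e, hc, L4_card] at e2
    omega
  have hT3 : TR.toFinset = T3 := by ext t; simp [T3]
  have hR : (T3 \ S).card = 15 := by
    have := card_sdiff_add_card_inter T3 S
    rw [inter_comm, hcard, T3_card] at this
    omega
  have hgR : good (T3 \ S) := by
    intro X hX Y hY _ hd
    rw [mem_sdiff] at hX hY
    rcases T3_E X hX.1 Y hY.1 hd with h | h
    · rcases l1 _ h with h | h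
      · exact hX.2 h
      · exact hY.2 h
    · rcases l1 _ h with h | h
      · exact hY.2 h
      · exact hX.2 h
  obtain ⟨acc, a1, a2⟩ := gg_sound 35 TR 15 [] (by decide) TR_nd gg_run (T3 \ S)
    (by rw [hT3]; exact sdiff_subset) hgR hR
  unfold leaf at a1
  rw [decide_eq_true_iff, ff_eq 35 _ (le_trans (List.length_filter_le _ _) (by decide))
    (TR_nd.filter _)] at a1
  have e : (TR.filter (fun t => !acc.contains t)).toFinset = S ∩ T3 := by
    ext t
    have : t ∈ acc ↔ t ∈ T3 \ S := by
      rw [← List.mem_toFinset, a2]; simp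
    have h3 : t ∈ TR ↔ t ∈ T3 := by rw [← hT3, List.mem_toFinset]
    rw [List.mem_toFinset, List.mem_filter, Bool.not_eq_true', List.contains_eq_mem,
      decide_eq_false_iff_not, this, mem_sdiff, mem_inter, h3]
    exact ⟨fun h => ⟨by_contra fun hq => h.2 ⟨h.1, hq⟩, h.1⟩, fun h => ⟨h.2, fun h' => h'.2 h.1⟩⟩
  rw [e] at a1
  have u := upper S hS hS'
  have l := lower
  rw [← ff_eq 35 D2 (by decide) D2_nd, ff_run] at l
  omega

def code (X : Finset (Fin 7)) : ℕ := ∑ i ∈ X, 2 ^ (i : ℕ)

theorem code_bit : ∀ X : Finset (Fin 7), code X < 128 ∧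
    ∀ i : Fin 7, ((code X).testBit i = true ↔ i ∈ X) := by decide +kernel

theorem code_surj : ∀ m ∈ range 128, code (univ.filter (fun i : Fin 7 => m.testBit i)) = m := by
  decide +kernel

theorem code_inj : Function.Injective code := by
  intro X Y h
  ext i
  rw [← (code_bit X).2, ← (code_bit Y).2, h]

theorem code_dis (X Y : Finset (Fin 7)) : Disjoint X Y ↔ code X &&& code Y = 0 := by
  rw [disjoint_left]
  constructor
  · intro h
    apply Nat.eq_of_testBit_eq
    intro i
    rw [Nat.testBit_and, Nat.zero_testBit]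
    by_cases hi : i < 7
    · by_cases h1 : (⟨i, hi⟩ : Fin 7) ∈ X
      · have h2 := h h1
        rw [← (code_bit Y).2] at h2
        simp only [Bool.not_eq_true] at h2
        rw [h2, Bool.and_false]
      · rw [← (code_bit X).2] at h1
        simp only [Bool.not_eq_true] at h1
        rw [h1, Bool.false_and]
    · have : (code X).testBit i = false := Nat.testBit_lt_two_pow
        (lt_of_lt_of_le (code_bit X).1 (by
          calc 128 = 2 ^ 7 := by norm_num
            _ ≤ 2 ^ i := Nat.pow_le_pow_right (by norm_num) (by omega)))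
      rw [this, Bool.false_and]
  · intro h i h1 h2
    rw [← (code_bit X).2] at h1
    rw [← (code_bit Y).2] at h2
    have := congrArg (fun m => Nat.testBit m i) h
    simp only [Nat.testBit_and, Nat.zero_testBit, h1, h2] at this
    exact absurd this (by decide)

def cE : Finset (Fin 7) ↪ ℕ := ⟨code, code_inj⟩

theorem transfer (A : Finset (Finset (Fin 7))) (s : ℕ) :
    ((A.powersetCard s).filter
      (fun F => ∀ X ∈ F, ∀ Y ∈ F, X ≠ Y → ¬ Disjoint X Y)).card = II (A.map cE) s := by
  unfold II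
  rw [powersetCard_map, filter_map, card_map]
  congr 1
  apply filter_congr
  intro F _
  simp only [Function.comp, good, RelEmbedding.coe_toEmbedding, mapEmbedding_apply,
    mem_map, forall_exists_index, and_imp, forall_apply_eq_imp_iff₂, code_dis]
  refine forall₂_congr fun X _ => forall₂_congr fun Y _ => ?_
  have : cE X ≠ cE Y ↔ X ≠ Y := cE.injective.ne_iff
  rw [this]
  rfl

theorem pull (S : Finset ℕ) (hS : ∀ m ∈ S, m < 128) :
    (univ.filter (fun X : Finset (Fin 7) => code X ∈ S)).map cE = S := by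
  ext m
  simp only [mem_map, mem_filter, mem_univ, true_and]
  constructor
  · rintro ⟨X, h, rfl⟩; exact h
  · intro h
    have := code_surj m (mem_range.2 (hS m h))
    exact ⟨_, by rw [this]; exact h, this⟩

/-- The negation of the preceding statement: For all n and N with 2^(n-1) < N ≤ 2^n, some family of N subsets of an n-set has, for every s, at least as many s-element pairwise-intersecting subfamilies as any other family of N subsets. -/
theorem result :
    ¬ (∀ n N : ℕ, 2 ^ (n - 1) < N → N ≤ 2 ^ n →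
      ∃ A : Finset (Finset (Fin n)), A.card = N ∧
        ∀ s : ℕ, ∀ B : Finset (Finset (Fin n)), B.card = N →
          ((B.powersetCard s).filter
              (fun F => ∀ X ∈ F, ∀ Y ∈ F, X ≠ Y → ¬ Disjoint X Y)).card ≤
          ((A.powersetCard s).filter
              (fun F => ∀ X ∈ F, ∀ Y ∈ F, X ≠ Y → ¬ Disjoint X Y)).card) := by
  intro h
  obtain ⟨A, hA, hB⟩ := h 7 84 (by norm_num) (by norm_num)
  have h1 := hB 2 (univ.filter (fun X : Finset (Fin 7) => code X ∈ F1))
    (by rw [← card_map cE, pull F1 F1_sub, F1_card])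
  have h2 := hB 64 (univ.filter (fun X : Finset (Fin 7) => code X ∈ F2))
    (by rw [← card_map cE, pull F2 F2_sub, F2_card])
  rw [transfer, transfer, pull F1 F1_sub] at h1
  rw [transfer, transfer, pull F2 F2_sub] at h2
  refine core (A.map cE) ?_ (by rw [card_map, hA]) h1 h2
  intro m hm
  obtain ⟨X, _, rfl⟩ := mem_map.1 hm
  exact mem_range.2 (code_bit X).1

end Pool.Agent.S09056
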