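import Pool.Statements.S09078
import Pool.Agent.H28.TanBlock
import Pool.Agent.H22.CrapoRota

set_option autoImplicit false
open scoped Classical
open Pool Pool.MP_5f9c07_co

namespace Pool.Agent.S09078
open Pool.Agent.H28.TanBlock Pool.Agent.H22 Module
open scoped Classical

section
variable {β W : Type} [Fintype β] [AddCommGroup W] [Module K W]

lemma span_basis (N : Matroid β) (w : β → W)
    (h : ∀ I ⊆ N.E, (N.Indep I ↔ LinearIndepOn K w I)) {I X : Set β} (hI : N.IsBasis I X) :
    Submodule.span K (w '' I) = Submodule.span K (w '' X) := by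
  refine le_antisymm (Submodule.span_mono (Set.image_mono hI.subset)) (Submodule.span_le.2 ?_)
  rintro _ ⟨x, hx, rfl⟩
  by_cases hxI : x ∈ I
  · exact Submodule.subset_span ⟨x, hxI, rfl⟩
  · have hd := hI.insert_dep ⟨hx, hxI⟩
    by_contra hn
    exact hd.not_indep ((h _ hd.subset_ground).2
      ((linearIndepOn_insert hxI).2 ⟨(h _ hI.indep.subset_ground).1 hI.indep, hn⟩))

lemma eRk_eq (N : Matroid β) (w : β → W)
    (h : ∀ I ⊆ N.E, (N.Indep I ↔ LinearIndepOn K w I)) (X : Set β) (hX : X ⊆ N.E) :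
    N.eRk X = (finrank K (Submodule.span K (w '' X)) : ℕ) := by
  obtain ⟨I, hI⟩ := N.exists_isBasis X hX
  rw [← hI.encard_eq_eRk, ← span_basis N w h hI]
  have h2 := finrank_span_eq_card (R := K) (b := fun x : I => w x)
    ((h _ hI.indep.subset_ground).1 hI.indep)
  rw [← Set.image_eq_range] at h2
  rw [h2, ← Nat.card_eq_fintype_card, Nat.card_coe_set_eq, (Set.toFinite I).cast_ncard_eq]

lemma mem_closure (N : Matroid β) (w : β → W)
    (h : ∀ I ⊆ N.E, (N.Indep I ↔ LinearIndepOn K w I)) (X : Set β) (hX : X ⊆ N.E) (e : β) :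
    e ∈ N.closure X ↔ e ∈ N.E ∧ w e ∈ Submodule.span K (w '' X) := by
  obtain ⟨I, hI⟩ := N.exists_isBasis X hX
  rw [← hI.closure_eq_closure, hI.indep.mem_closure_iff', ← span_basis N w h hI]
  refine and_congr_right fun he => ?_
  have hl := (h _ hI.indep.subset_ground).1 hI.indep
  rw [h _ (Set.insert_subset he hI.indep.subset_ground), linearIndepOn_insert_iff]
  constructor
  · intro h1
    by_contra hn
    exact hn (Submodule.subset_span ⟨e, h1 ⟨hl, fun h2 => absurd h2 hn⟩, rfl⟩)
  · intro h1 h2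
    exact h2.2 h1

lemma flat_iff (N : Matroid β) (w : β → W)
    (h : ∀ I ⊆ N.E, (N.Indep I ↔ LinearIndepOn K w I)) (X : Set β) :
    N.IsFlat X ↔ X ⊆ N.E ∧ ∀ e ∈ N.E, w e ∈ Submodule.span K (w '' X) → e ∈ X := by
  constructor
  · intro hX
    refine ⟨hX.subset_ground, fun e he h1 => ?_⟩
    rw [← hX.closure]
    exact (mem_closure N w h X hX.subset_ground e).2 ⟨he, h1⟩
  · rintro ⟨hX, h1⟩
    rw [Matroid.isFlat_iff_closure_eq]
    refine Set.Subset.antisymm (fun e he => ?_) (N.subset_closure X hX)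
    have := (mem_closure N w h X hX e).1 he
    exact h1 e this.1 this.2

lemma sum_eq [FiniteDimensional K W] (N : Matroid β) (w : β → W)
    (h : ∀ I ⊆ N.E, (N.Indep I ↔ LinearIndepOn K w I)) :
    ∃ c : ℕ, (c = 0 ↔ ¬ ∃ φ : W →ₗ[K] K, ∀ e ∈ N.E, φ (w e) ≠ 0) ∧ ∃ a b : ℕ,
      ((∑ X ∈ Finset.univ.filter (fun X : Finset β => (↑X : Set β) ⊆ N.E),
        (-1 : ℤ) ^ X.card * ((Fintype.card K : ℤ) ^ 1) ^
          ((N.eRk N.E).toNat - (N.eRk (↑X : Set β)).toNat) : ℤ) : ℚ) * 5 ^ a = c * 5 ^ b := by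
  have : Finite (Dual K W) := Module.finite_of_finite K
  have := Fintype.ofFinite (Dual K W)
  have h1 := card_nonvanish (F := K) w N.E.toFinset
  refine ⟨(Finset.univ.filter fun φ : Dual K W => ∀ e ∈ N.E.toFinset, φ (w e) ≠ 0).card, ?_,
    finrank K W, finrank K (Submodule.span K (w '' N.E)), ?_⟩
  · rw [Finset.card_eq_zero, Finset.filter_eq_empty_iff]
    simp
  · have e1 : Finset.univ.filter (fun X : Finset β => (↑X : Set β) ⊆ N.E) =
        N.E.toFinset.powerset := by
      ext X
      simp [Set.subset_toFinset]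
    have hc : Fintype.card K = 5 := ZMod.card 5
    rw [h1, e1, hc]
    push_cast
    rw [Finset.sum_mul, Finset.mul_sum, Finset.sum_mul]
    refine Finset.sum_congr rfl fun X hX => ?_
    have hX' : (↑X : Set β) ⊆ N.E := Set.subset_toFinset.1 (Finset.mem_powerset.1 hX)
    rw [eRk_eq N w h _ subset_rfl, eRk_eq N w h _ hX', ENat.toNat_coe, ENat.toNat_coe]
    have hle : finrank K (Submodule.span K (w '' (↑X : Set β))) ≤
        finrank K (Submodule.span K (w '' N.E)) :=
      Submodule.finrank_mono (Submodule.span_mono (Set.image_mono hX'))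
    rw [pow_sub₀ _ (by norm_num) hle]
    field_simp

end

noncomputable def M : Matroid (Fin 10) := vecMatroid K v

lemma hM : ∀ I ⊆ M.E, (M.Indep I ↔ LinearIndepOn K v I) := fun _ _ => Iff.rfl

def ee (a : Fin 6) : Fin 6 → K := fun j => if a = j then 1 else 0

def dk (a b : Fin 6) : Fin 6 → K := if a < b then ee a - ee b else ee b - ee a

lemma dk_symm : ∀ a b, dk a b = dk b a := by decide +kernel

lemma dk1 : ∀ a b : Fin 6, ∃ c : K, c ≠ 0 ∧ c • dk a b = ee a - ee b ∧
    c • (ee a - ee b) = dk a b := by decide +kernel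

def inc (e : Sym2 (Fin 6)) : Fin 6 → K := Sym2.lift ⟨dk, dk_symm⟩ e

def w' (e : Sym2 (Fin 6)) : Fin 3 → K := Sym2.lift ⟨d, d_symm⟩ e

def L : (Fin 6 → K) →ₗ[K] (Fin 3 → K) := ∑ a : Fin 6, (LinearMap.proj a).smulRight (u a)

lemma L_inc (e : Sym2 (Fin 6)) : L (inc e) = w' e := by
  have key : ∀ a b : Fin 6, ∑ i : Fin 6, dk a b i • u i = d a b := by decide +kernel
  induction e using Sym2.ind with
  | h a b =>
    rw [L, LinearMap.sum_apply]
    exact key a b

lemma walk_span (G : SimpleGraph (Fin 6)) (X : Set (Sym2 (Fin 6)))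
    (hG : ∀ a b, G.Adj a b → s(a, b) ∈ X) (a b : Fin 6) (h : G.Reachable a b) :
    ee a - ee b ∈ Submodule.span K (inc '' X) := by
  obtain ⟨p⟩ := h
  induction p with
  | nil => simp
  | @cons x y z h p ih =>
    have h1 : dk x y ∈ Submodule.span K (inc '' X) :=
      Submodule.subset_span ⟨_, hG x y h, rfl⟩
    obtain ⟨c, -, hc, -⟩ := dk1 x y
    have h2 : ee x - ee z = c • dk x y + (ee y - ee z) := by rw [hc]; abel
    rw [h2]
    exact Submodule.add_mem _ (Submodule.smul_mem _ _ h1) ih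

lemma acyc (I : Set (Sym2 (Fin 6))) (hI : I ⊆ {e | ¬ e.IsDiag}) :
    LinearIndepOn K inc I ↔ (SimpleGraph.fromEdgeSet I).IsAcyclic := by
  rw [linearIndepOn_iff_notMem_span, SimpleGraph.isAcyclic_iff_forall_adj_isBridge]
  constructor
  · intro h a b hab
    rw [SimpleGraph.isBridge_iff]
    intro hr
    apply h s(a, b) ((SimpleGraph.fromEdgeSet_adj _).1 hab).1
    have := walk_span _ (I \ {s(a, b)}) (fun x y hxy => by
      rw [SimpleGraph.deleteEdges_adj] at hxy
      exact ⟨((SimpleGraph.fromEdgeSet_adj _).1 hxy.1).1, hxy.2⟩) a b hr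
    obtain ⟨c, -, -, hc⟩ := dk1 a b
    show dk a b ∈ _
    rw [← hc]
    exact Submodule.smul_mem _ _ this
  · intro h e he
    induction e using Sym2.ind with
    | h a b =>
      have hab : a ≠ b := fun h' => hI he (Sym2.mk_isDiag_iff.2 h')
      have hb := SimpleGraph.isBridge_iff.1 (h ((SimpleGraph.fromEdgeSet_adj _).2 ⟨he, hab⟩))
      set G := (SimpleGraph.fromEdgeSet I).deleteEdges {s(a, b)} with hG
      let φ : (Fin 6 → K) →ₗ[K] K :=
        ∑ i : Fin 6, (if G.Reachable a i then (1 : K) else 0) • LinearMap.proj i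
      have hφ : ∀ x, φ (ee x) = if G.Reachable a x then (1 : K) else 0 := by
        intro x
        simp only [φ, LinearMap.sum_apply, LinearMap.smul_apply, LinearMap.proj_apply, ee,
          smul_eq_mul, mul_ite, mul_one, mul_zero, Finset.sum_ite_eq, Finset.mem_univ, if_true]
      intro hm
      have hk : Submodule.span K (inc '' (I \ {s(a, b)})) ≤ LinearMap.ker φ := by
        rw [Submodule.span_le]
        rintro _ ⟨f, hf, rfl⟩
        induction f using Sym2.ind with
        | h x y =>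
          have hxy : x ≠ y := fun h' => hI hf.1 (Sym2.mk_isDiag_iff.2 h')
          have hadj : G.Adj x y := by
            rw [hG, SimpleGraph.deleteEdges_adj]
            exact ⟨(SimpleGraph.fromEdgeSet_adj _).2 ⟨hf.1, hxy⟩, hf.2⟩
          obtain ⟨c, -, -, hc⟩ := dk1 x y
          show φ (dk x y) = 0
          have hiff : G.Reachable a x ↔ G.Reachable a y :=
            ⟨fun h => h.trans hadj.reachable, fun h => h.trans hadj.symm.reachable⟩
          rw [← hc, map_smul, map_sub, hφ, hφ]
          simp [hiff]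
      have h0 : φ (dk a b) = 0 := hk hm
      obtain ⟨c, hc0, -, hc⟩ := dk1 a b
      rw [← hc, map_smul, map_sub, hφ, hφ, if_pos (SimpleGraph.Reachable.refl a), if_neg hb] at h0
      simp at h0
      exact hc0 h0

def g' (i : Fin 10) : Sym2 (Fin 6) := (g i).1

lemma g'_inj : Function.Injective g' := fun _ _ h => g_inj (Subtype.ext h)

lemma pair_indep (e f : Fin 10) : LinearIndepOn K v {e, f} := by
  by_cases h : e = f
  · subst h
    rw [Set.pair_eq_singleton]
    exact LinearIndepOn.singleton (simple.1 e)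
  · exact (LinearIndepOn.pair_iff v h).2 (pair e f h)

lemma wg' : w' ∘ g' = v := wg

lemma img (I : Set (Fin 10)) : LinearIndepOn K v I ↔ LinearIndepOn K w' (g' '' I) := by
  rw [← wg']
  exact ⟨fun h => LinearIndepOn.image_of_comp g' w' h,
    fun h => LinearIndepOn.comp_of_image h g'_inj.injOn⟩

lemma par' : ∀ a b : Fin 6, a ≠ b → ∃ i, ∃ c : K, c • v i = d a b := par

/-- The negation of the preceding statement: For every finite field of order q and k ≥ 1, every simple GF(q)-representable tangential k-block isomorphic to the simplification of a quotient of the cycle matroid of K_{q^k+1} has a modular hyperplane. -/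
theorem result :
    ¬ (∀ (F : Type) [Field F] [Fintype F] (k : ℕ), 1 ≤ k →
  ∀ (α : Type) [Fintype α] (M : Matroid α),
    (∃ (n : ℕ) (v : α → Fin n → F),
      ∀ I ⊆ M.E, (M.Indep I ↔ LinearIndependent F (fun x : I => v x))) →
    (∀ e ∈ M.E, ∀ f ∈ M.E, M.Indep {e, f}) →
    (∀ j ≤ k,
      (∑ X ∈ Finset.univ.filter (fun X : Finset α => (↑X : Set α) ⊆ M.E),
        (-1 : ℤ) ^ X.card * ((Fintype.card F : ℤ) ^ j) ^
          ((M.eRk M.E).toNat - (M.eRk (↑X : Set α)).toNat)) ≤ 0) →
    (∀ N : Matroid α,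
      (∃ C D : Set α, C ⊆ M.E ∧ D ⊆ M.E ∧ Disjoint C D ∧ (C ∪ D).Nonempty ∧
        N = (M.contract C).delete D) →
      (∀ e ∈ N.E, ∀ f ∈ N.E, N.Indep {e, f}) →
      ∃ j ≤ k, 0 <
        (∑ X ∈ Finset.univ.filter (fun X : Finset α => (↑X : Set α) ⊆ N.E),
          (-1 : ℤ) ^ X.card * ((Fintype.card F : ℤ) ^ j) ^
            ((N.eRk N.E).toNat - (N.eRk (↑X : Set α)).toNat))) →
    (∃ K Q : Matroid (Sym2 (Fin (Fintype.card F ^ k + 1))),
      K.E = {e | ¬ e.IsDiag} ∧
      (∀ I ⊆ K.E, (K.Indep I ↔ (SimpleGraph.fromEdgeSet I).IsAcyclic)) ∧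
      Q.E = K.E ∧ (∀ X, Q.IsFlat X → K.IsFlat X) ∧
      ∃ S ⊆ Q.E, (∀ e ∈ S, ∀ f ∈ S, Q.Indep {e, f}) ∧
        (∀ e ∈ Q.E, Q.Indep {e} → ∃ f ∈ S, e = f ∨ ¬ Q.Indep {e, f}) ∧
        ∃ g : α → Sym2 (Fin (Fintype.card F ^ k + 1)),
          Set.InjOn g M.E ∧ g '' M.E = S ∧
          ∀ I ⊆ M.E, (M.Indep I ↔ Q.Indep (g '' I))) →
    ∃ H : Set α, M.IsFlat H ∧ M.eRk H + 1 = M.eRk M.E ∧
      ∀ X : Set α, M.IsFlat X →
        M.eRk H + M.eRk X = M.eRk (H ∪ X) + M.eRk (H ∩ X)) := by
  intro h
  obtain ⟨H, hH, hr, hm⟩ := h K 1 le_rfl (Fin 10) M ⟨3, v, hM⟩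
    (fun e _ f _ => pair_indep e f)
    (by
      intro j hj
      interval_cases j
      · apply le_of_eq
        have e1 : Finset.univ.filter (fun X : Finset (Fin 10) => (↑X : Set (Fin 10)) ⊆ M.E) =
            (Finset.univ : Finset (Fin 10)).powerset := by
          ext X
          simp [M, vecMatroid_E]
        rw [e1]
        simp only [pow_zero, one_pow, mul_one]
        exact Finset.sum_powerset_neg_one_pow_card_of_nonempty Finset.univ_nonempty
      · obtain ⟨c, hc, a, b, hab⟩ := sum_eq M v hM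
        have h0 : c = 0 := hc.2 (by
          rintro ⟨φ, hφ⟩
          exact tangential.2.1 ⟨fun _ => φ, fun _ _ he => absurd he (Set.notMem_empty _),
            fun e _ _ => ⟨0, hφ e trivial⟩⟩)
        rw [h0, Nat.cast_zero, zero_mul] at hab
        have h1 := (mul_eq_zero.1 hab).resolve_right (by positivity)
        apply le_of_eq
        convert (Int.cast_eq_zero.1 h1))
    (by
      rintro N ⟨C, D, -, -, hCD, hne, rfl⟩ hs
      obtain ⟨B, hB⟩ := M.exists_isBasis C (Set.subset_univ _)
      have hsp := span_basis M v hM hB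
      have hE : ∀ e, e ∈ ((M.contract C).delete D).E ↔ e ∉ C ∧ e ∉ D := by
        intro e
        simp [M, vecMatroid_E]
      have hN : ∀ I ⊆ ((M.contract C).delete D).E, (((M.contract C).delete D).Indep I ↔
          LinearIndepOn K ((Submodule.span K (v '' C)).mkQ ∘ v) I) := by
        intro I hI
        have h1 : Disjoint C I := Set.disjoint_left.2 fun e he hi => ((hE e).1 (hI hi)).1 he
        have h2 : Disjoint I D := Set.disjoint_left.2 fun e he hi => ((hE e).1 (hI he)).2 hi
        rw [Matroid.delete_indep_iff, hB.isBasis'.contract_indep_iff, and_iff_left h2,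
          and_iff_left h1, hM _ (Set.subset_univ _), Set.union_comm,
          linearIndepOn_union_iff_quotient (h1.mono_left hB.subset), hsp,
          and_iff_right ((hM _ (Set.subset_univ _)).1 hB.indep)]
      have hl : Loopless v C D := by
        intro e h1 h2 h3
        have he := (hE e).2 ⟨h1, h2⟩
        have h4 := hs e he e he
        rw [Set.pair_eq_singleton, hN _ (Set.singleton_subset_iff.2 he)] at h4
        exact h4.ne_zero (Set.mem_singleton e) ((Submodule.Quotient.mk_eq_zero _).2 h3)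
      obtain ⟨φ, h1, h2⟩ := tangential.2.2 C D hCD hne hl
      obtain ⟨c, hc, a, b, hab⟩ := sum_eq _ _ hN
      have hc0 : c ≠ 0 := fun h0 => hc.1 h0 ⟨(Submodule.span K (v '' C)).liftQ (φ 0) (by
          rw [Submodule.span_le]
          rintro _ ⟨e, he, rfl⟩
          exact h1 0 e he), fun e he => by
        obtain ⟨i, hi⟩ := h2 e ((hE e).1 he).1 ((hE e).1 he).2
        rw [Subsingleton.elim i 0] at hi
        exact hi⟩
      refine ⟨1, le_rfl, ?_⟩
      have hpos : (0 : ℚ) < c * 5 ^ b := by positivity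
      rw [← hab] at hpos
      have h3 := (mul_pos_iff_of_pos_right (by positivity)).1 hpos
      convert (Int.cast_pos.1 h3))
    (by
      have hc : Fintype.card K ^ 1 + 1 = 6 := by
        rw [ZMod.card 5]
        norm_num
      rw [hc]
      have hK : ∀ I ⊆ ((vecMatroid K inc).restrict {e | ¬ e.IsDiag}).E,
          (((vecMatroid K inc).restrict {e | ¬ e.IsDiag}).Indep I ↔ LinearIndepOn K inc I) :=
        fun I hI => ⟨fun h => h.1, fun h => ⟨h, hI⟩⟩
      have hQ : ∀ I ⊆ ((vecMatroid K w').restrict {e | ¬ e.IsDiag}).E,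
          (((vecMatroid K w').restrict {e | ¬ e.IsDiag}).Indep I ↔ LinearIndepOn K w' I) :=
        fun I hI => ⟨fun h => h.1, fun h => ⟨h, hI⟩⟩
      have hsub : ∀ I : Set (Fin 10), g' '' I ⊆ {e | ¬ e.IsDiag} := by
        rintro I _ ⟨i, -, rfl⟩
        exact (g i).2
      refine ⟨(vecMatroid K inc).restrict {e | ¬ e.IsDiag},
        (vecMatroid K w').restrict {e | ¬ e.IsDiag}, rfl,
        fun I hI => (hK I hI).trans (acyc I hI), rfl, ?_, g' '' Set.univ, hsub _, ?_, ?_,
        g', g'_inj.injOn, rfl, fun I _ => (img I).trans (hQ _ (hsub I)).symm⟩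
      · intro X hX
        rw [flat_iff _ _ hQ] at hX
        rw [flat_iff _ _ hK]
        refine ⟨hX.1, fun e he h1 => hX.2 e he ?_⟩
        have h2 := Submodule.mem_map_of_mem (f := L) h1
        rw [Submodule.map_span, ← Set.image_comp, L_inc] at h2
        have h3 : L ∘ inc = w' := funext L_inc
        rwa [h3] at h2
      · rintro _ ⟨e, -, rfl⟩ _ ⟨f, -, rfl⟩
        rw [← Set.image_pair]
        exact (hQ _ (hsub _)).2 ((img _).1 (pair_indep e f))
      · intro e he _
        induction e using Sym2.ind with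
        | h a b =>
          obtain ⟨i, c, hc⟩ := par' a b (fun h => he (Sym2.mk_isDiag_iff.2 h))
          refine ⟨g' i, ⟨i, trivial, rfl⟩, ?_⟩
          by_cases h1 : s(a, b) = g' i
          · exact Or.inl h1
          · right
            intro h2
            have h3 := (LinearIndepOn.pair_iff w' h1).1 h2.1 (-1) c (by
              show (-1 : K) • d a b + c • v i = 0
              rw [hc]
              simp)
            exact absurd h3.1 (by decide))
  apply no_mod
  have hrk : ∀ X, M.eRk X = (rk v X : ℕ) := fun X => eRk_eq M v hM X (Set.subset_univ _)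
  have hfl : ∀ X, M.IsFlat X ↔ IsFlat v X := fun X => (flat_iff M v hM X).trans
    ⟨fun h e he => h.2 e trivial he, fun h => ⟨Set.subset_univ _, fun e _ he => h e he⟩⟩
  refine ⟨H, ⟨(hfl H).1 hH, fun X hX => ?_⟩, ?_⟩
  · have := hm X ((hfl X).2 hX)
    rw [hrk, hrk, hrk, hrk] at this
    exact_mod_cast this
  · rw [hrk, hrk] at hr
    exact_mod_cast hr

end Pool.Agent.S09078
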