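import Pool.Statements.S09309
import Pool.Agent.Lead.Par3

set_option autoImplicit false
open Pool Pool.MP_6adf2c_co

namespace Pool.Agent.S09309

open Pool.Agent.Lead.Par in
theorem tr (n m : ℕ) (A : Fin m → ℝ) (J : Finset (Fin n × Fin m)) :
    Module.finrank ℝ (Submodule.span ℝ ((fun p : Fin n × Fin m =>
          (Sum.elim (fun j : Fin m => if j = p.2 then (1:ℝ) else 0)
            (Sum.elim (fun i : Fin n => if i = p.1 then A p.2 else 0)
              (fun i : Fin n => if i = p.1 then (1:ℝ) else 0)) :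
            Fin m ⊕ (Fin n ⊕ Fin n) → ℝ)) ''
          (↑J : Set (Fin n × Fin m)))) = rk (nrm (k := 1) (fun p : Fin m × Fin 1 => A p.1)) J := by
  let e : Fin m ⊕ (Fin n ⊕ Fin n) ≃ Fin m ⊕ (Fin n × Fin 2) :=
    Equiv.sumCongr (Equiv.refl _)
      { toFun := Sum.elim (fun i => (i, 0)) (fun i => (i, 1))
        invFun := fun q => if q.2 = 0 then Sum.inl q.1 else Sum.inr q.1
        left_inv := by rintro (i | i) <;> simp
        right_inv := by rintro ⟨i, c⟩; fin_cases c <;> simp }
  unfold rk
  rw [span_mrow, ← LinearEquiv.finrank_map_eq (LinearEquiv.funCongrLeft ℝ ℝ e),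
    Submodule.map_span, Set.image_image]
  suffices h : (fun p : Fin n × Fin m =>
          (Sum.elim (fun j : Fin m => if j = p.2 then (1:ℝ) else 0)
            (Sum.elim (fun i : Fin n => if i = p.1 then A p.2 else 0)
              (fun i : Fin n => if i = p.1 then (1:ℝ) else 0)) :
            Fin m ⊕ (Fin n ⊕ Fin n) → ℝ)) = fun x => (LinearEquiv.funCongrLeft ℝ ℝ e).toLinearMap
              (row (nrm (k := 1) (fun p : Fin m × Fin 1 => A p.1)) x) by
    rw [h]
  funext p q
  rcases q with j | i | i
  · rfl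
  · simp [e, row, nrm, LinearMap.funLeft]
  · simp [e, row, nrm, LinearMap.funLeft]
/-- If the bipartite vertex-face graph of an incidence set I is 4-connected, then every vertex-face pair lies in the closure of I in the generic 2-parallel matroid (generic rank = max rank over normals), i.e. I is 2-tight. -/
theorem result :
  ∀ (n m : ℕ) (I : Finset (Fin n × Fin m)),
    4 < n + m →
    (∀ X : Finset (Fin n ⊕ Fin m), X.card < 4 →
      ((SimpleGraph.fromRel (fun a b : Fin n ⊕ Fin m =>
          ∃ p ∈ I, a = Sum.inl p.1 ∧ b = Sum.inr p.2)).induce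
        ((↑X : Set (Fin n ⊕ Fin m))ᶜ)).Connected) →
    ∀ (r : Fin n × Fin m) (A : Fin m → ℝ), ∃ B : Fin m → ℝ,
      Module.finrank ℝ (Submodule.span ℝ ((fun p : Fin n × Fin m =>
          (Sum.elim (fun j : Fin m => if j = p.2 then (1:ℝ) else 0)
            (Sum.elim (fun i : Fin n => if i = p.1 then A p.2 else 0)
              (fun i : Fin n => if i = p.1 then (1:ℝ) else 0)) :
            Fin m ⊕ (Fin n ⊕ Fin n) → ℝ)) ''
          (↑(insert r I) : Set (Fin n × Fin m))))
      ≤ Module.finrank ℝ (Submodule.span ℝ ((fun p : Fin n × Fin m =>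
          (Sum.elim (fun j : Fin m => if j = p.2 then (1:ℝ) else 0)
            (Sum.elim (fun i : Fin n => if i = p.1 then B p.2 else 0)
              (fun i : Fin n => if i = p.1 then (1:ℝ) else 0)) :
            Fin m ⊕ (Fin n ⊕ Fin n) → ℝ)) ''
          (↑I : Set (Fin n × Fin m)))) := by
  intro n m I _ hc r A
  obtain ⟨a, ha⟩ := Pool.Agent.Lead.Par.exists_gen (V := Fin n) (F := Fin m) 1
  refine ⟨fun j => a (j, 0), ?_⟩
  rw [tr n m A, tr n m (fun j => a (j, 0))]
  have ea : (fun p : Fin m × Fin 1 => a (p.1, 0)) = a := by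
    funext p; congr 1; ext
    · rfl
    · simp
  rw [ea, Pool.Agent.Lead.Par.main (Pool.Agent.Lead.Par.gen_of a ha) I hc]
  refine (ha _ _).trans ?_
  unfold Pool.Agent.Lead.Par.rk
  rw [Pool.Agent.Lead.Par.span_mrow, Pool.Agent.Lead.Par.span_mrow]
  exact Submodule.finrank_mono (Submodule.span_mono (Set.image_mono (by simp)))

end Pool.Agent.S09309
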