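import Pool.Statements.S09318

set_option autoImplicit false
open Pool Pool.MP_6b5009_co

namespace Pool.Agent.S09318

/-- The complement graph `H`: three 5-cycles on `0..4`, `5..9`, `10..14`, and the vertex `15`
joined to `0, 5, 10`. -/
def hb (u v : Fin 16) : Bool :=
  (u.val < 15 && v.val < 15 && u.val / 5 == v.val / 5 &&
      ((u.val + 1) % 5 == v.val % 5 || (v.val + 1) % 5 == u.val % 5)) ||
  (u.val == 15 && v.val % 5 == 0 && v.val < 15) || (v.val == 15 && u.val % 5 == 0 && u.val < 15)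

def G : SimpleGraph (Fin 16) where
  Adj u v := u ≠ v ∧ hb u v = false
  symm := ⟨by decide⟩
  loopless := ⟨fun _ h => h.1 rfl⟩

instance : DecidableRel G.Adj := fun u v => inferInstanceAs (Decidable (u ≠ v ∧ hb u v = false))

lemma no_tri : ∀ a b c : Fin 16, a ≠ b → a ≠ c → b ≠ c → G.Adj a b ∨ G.Adj a c ∨ G.Adj b c := by
  decide +kernel

lemma indep_le (s : Finset (Fin 16)) (hs : ∀ a ∈ s, ∀ b ∈ s, ¬ G.Adj a b) : s.card ≤ 2 := by
  by_contra h
  push Not at h
  obtain ⟨a, b, c, ha, hb', hc, hab, hac, hbc⟩ := Finset.two_lt_card_iff.mp h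
  rcases no_tri a b c hab hac hbc with h | h | h
  · exact hs a ha b hb' h
  · exact hs a ha c hc h
  · exact hs b hb' c hc h

lemma indepNum_eq : G.indepNum = 2 := by
  apply le_antisymm
  · obtain ⟨s, hs⟩ := G.exists_isNIndepSet_indepNum
    rw [← hs.card_eq]
    apply indep_le
    intro a ha b hb' hab
    exact hs.isIndepSet ha hb' hab.ne hab
  · have h : G.IsIndepSet (({0, 1} : Finset (Fin 16)) : Set (Fin 16)) := by
      intro a ha b hb' hab
      simp only [Finset.coe_insert, Finset.coe_singleton, Set.mem_insert_iff,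
        Set.mem_singleton_iff] at ha hb'
      rcases ha with rfl | rfl <;> rcases hb' with rfl | rfl <;> first | exact absurd rfl hab | decide
    have := h.card_le_indepNum
    simpa using this

lemma class_le {m : ℕ} (g : Fin 16 → Finset (Fin m))
    (hg : ∀ u v, G.Adj u v → Disjoint (g u) (g v)) (c : Fin m) :
    (Finset.univ.filter (fun v => c ∈ g v)).card ≤ 2 := by
  apply indep_le
  intro a ha b hb' hab
  simp only [Finset.mem_filter, Finset.mem_univ, true_and] at ha hb'
  exact Finset.disjoint_left.mp (hg a b hab) ha hb'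

lemma sum_eq {m k : ℕ} (g : Fin 16 → Finset (Fin m)) (hk : ∀ v, (g v).card = k) :
    ∑ c : Fin m, (Finset.univ.filter (fun v => c ∈ g v)).card = 16 * k := by
  have : ∀ c : Fin m, (Finset.univ.filter (fun v => c ∈ g v)).card
      = ∑ v : Fin 16, if c ∈ g v then 1 else 0 := by
    intro c
    rw [Finset.card_filter]
  simp_rw [this]
  rw [Finset.sum_comm]
  have h2 : ∀ v : Fin 16, (∑ c : Fin m, if c ∈ g v then 1 else 0) = k := by
    intro v
    rw [← Finset.card_filter]
    simp [hk v]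
  simp_rw [h2]
  simp

def g2 : Fin 16 → Finset (Fin 16) :=
  ![{0, 1}, {2, 3}, {2, 3}, {4, 5}, {4, 5},
    {6, 10}, {6, 7}, {7, 8}, {8, 9}, {9, 10},
    {11, 15}, {11, 12}, {12, 13}, {13, 14}, {14, 15}, {0, 1}]

def g3 : Fin 16 → Finset (Fin 24) :=
  ![{0, 1, 2}, {1, 3, 4}, {3, 4, 7}, {5, 6, 7}, {2, 5, 6},
    {8, 9, 10}, {9, 11, 12}, {11, 12, 15}, {13, 14, 15}, {10, 13, 14},
    {16, 17, 18}, {17, 19, 20}, {19, 20, 23}, {21, 22, 23}, {18, 21, 22}, {0, 8, 16}]

lemma g2_ok : (∀ v, (g2 v).card = 2) ∧ ∀ u v, G.Adj u v → Disjoint (g2 u) (g2 v) := by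
  decide +kernel

lemma g3_ok : (∀ v, (g3 v).card = 2 + 1) ∧ ∀ u v, G.Adj u v → Disjoint (g3 u) (g3 v) := by
  decide +kernel

lemma chi2 : sInf {m : ℕ | ∃ g : Fin 16 → Finset (Fin m),
    (∀ v, (g v).card = 2) ∧ ∀ u v, G.Adj u v → Disjoint (g u) (g v)} = 16 := by
  apply le_antisymm
  · exact Nat.sInf_le ⟨g2, g2_ok⟩
  · refine le_csInf ⟨16, ?_⟩ ?_
    · exact ⟨g2, g2_ok⟩
    rintro m ⟨g, h1, h2⟩
    have h3 := sum_eq g h1
    have h4 : ∑ c : Fin m, (Finset.univ.filter (fun v => c ∈ g v)).card ≤ ∑ _c : Fin m, 2 :=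
      Finset.sum_le_sum (fun c _ => class_le g h2 c)
    simp at h4
    omega

lemma chi3 : sInf {m : ℕ | ∃ g : Fin 16 → Finset (Fin m),
    (∀ v, (g v).card = 2 + 1) ∧ ∀ u v, G.Adj u v → Disjoint (g u) (g v)} ≤ 24 :=
  Nat.sInf_le ⟨g3, g3_ok⟩

lemma cross : ∀ a b : Fin 16, a.val < 15 → b.val < 15 → a.val / 5 ≠ b.val / 5 → G.Adj a b := by
  decide +kernel

lemma not_col : ¬ G.Colorable 8 := by
  rintro ⟨C⟩
  let B : ℕ → Finset (Fin 16) := fun i => Finset.univ.filter (fun v => v.val < 15 ∧ v.val / 5 = i)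
  have hB : ∀ i, i < 3 → (B i).card = 5 := by
    intro i hi
    interval_cases i <;> decide
  have h3 : ∀ i, i < 3 → 3 ≤ ((B i).image C).card := by
    intro i hi
    have h := Finset.card_le_mul_card_image (f := C) (B i) 2 (by
      intro c _
      apply indep_le
      intro a ha b hb' hab
      simp only [Finset.mem_filter] at ha hb'
      exact C.valid hab (ha.2.trans hb'.2.symm))
    rw [hB i hi] at h
    omega
  have hd : ∀ i j, i ≠ j → Disjoint ((B i).image C) ((B j).image C) := by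
    intro i j hij
    rw [Finset.disjoint_left]
    intro c hc hc'
    simp only [Finset.mem_image, B, Finset.mem_filter, Finset.mem_univ, true_and] at hc hc'
    obtain ⟨a, ⟨ha1, ha2⟩, ha3⟩ := hc
    obtain ⟨b, ⟨hb1, hb2⟩, hb3⟩ := hc'
    exact C.valid (cross a b ha1 hb1 (by omega)) (ha3.trans hb3.symm)
  have hu : (((B 0).image C ∪ (B 1).image C) ∪ (B 2).image C).card ≤ 8 := by
    simpa using Finset.card_le_univ (((B 0).image C ∪ (B 1).image C) ∪ (B 2).image C)
  rw [Finset.card_union_of_disjoint, Finset.card_union_of_disjoint (hd 0 1 (by decide))] at hu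
  · have := h3 0 (by decide)
    have := h3 1 (by decide)
    have := h3 2 (by decide)
    omega
  · rw [Finset.disjoint_union_left]
    exact ⟨hd 0 2 (by decide), hd 1 2 (by decide)⟩

/-- The negation of the preceding statement: For every finite graph G and k ≥ 1: if every k-fold coloring of G using the minimum number of colors uses each color on exactly α(G) vertices, then the (k+1)-fold chromatic number equals the k-fold chromatic number plus the chromatic number. -/
theorem result :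
    ¬ (∀ (n : ℕ) (G : SimpleGraph (Fin n)) (k : ℕ), 1 ≤ k →
      (∀ f : Fin n → Finset (Fin (sInf {m : ℕ | ∃ g : Fin n → Finset (Fin m),
            (∀ v, (g v).card = k) ∧ ∀ u v, G.Adj u v → Disjoint (g u) (g v)})),
          (∀ v, (f v).card = k) →
          (∀ u v, G.Adj u v → Disjoint (f u) (f v)) →
          ∀ c, (Finset.univ.filter (fun v => c ∈ f v)).card = G.indepNum) →
      ((sInf {m : ℕ | ∃ g : Fin n → Finset (Fin m),
            (∀ v, (g v).card = k + 1) ∧ ∀ u v, G.Adj u v → Disjoint (g u) (g v)} : ℕ) : ℕ∞)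
        = ((sInf {m : ℕ | ∃ g : Fin n → Finset (Fin m),
            (∀ v, (g v).card = k) ∧ ∀ u v, G.Adj u v → Disjoint (g u) (g v)} : ℕ) : ℕ∞)
          + G.chromaticNumber) := by
  intro h
  have h1 := h 16 G 2 (by norm_num) (by
    rw [chi2, indepNum_eq]
    intro f hf1 hf2 c
    have h3 := sum_eq f hf1
    by_contra hne
    have hlt : ∑ c : Fin 16, (Finset.univ.filter (fun v => c ∈ f v)).card < ∑ _c : Fin 16, 2 := by
      apply Finset.sum_lt_sum (fun c _ => class_le f hf2 c)
      exact ⟨c, Finset.mem_univ _, lt_of_le_of_ne (class_le f hf2 c) hne⟩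
    simp at hlt
    omega)
  rw [chi2] at h1
  have h2 : (8 : ℕ∞) < G.chromaticNumber := by
    by_contra hle
    push Not at hle
    exact not_col (SimpleGraph.chromaticNumber_le_iff_colorable.mp (by exact_mod_cast hle))
  have h3 : ((sInf {m : ℕ | ∃ g : Fin 16 → Finset (Fin m),
      (∀ v, (g v).card = 2 + 1) ∧ ∀ u v, G.Adj u v → Disjoint (g u) (g v)} : ℕ) : ℕ∞) ≤ 24 := by
    exact_mod_cast chi3
  rw [h1] at h3
  have h4 : ((16 : ℕ) : ℕ∞) + 8 < ((16 : ℕ) : ℕ∞) + G.chromaticNumber :=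
    ENat.add_lt_add_iff_left (by simp) |>.mpr h2
  have h5 : ((16 : ℕ) : ℕ∞) + 8 = 24 := by norm_num
  rw [h5] at h4
  exact absurd h3 (not_le.mpr h4)

end Pool.Agent.S09318
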