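import Pool.Statements.S09469
import Pool.Agent.H20.Sts2

set_option autoImplicit false
open Pool Pool.MP_72c5f4_co

namespace Pool.Agent.S09469

open Finset Pool.Agent.H20.Sts

lemma small_dvd {n z : ℤ} (hn : 0 < n) (h : n ∣ z) (h1 : -(2 * n) < z) (h2 : z < 2 * n) :
    z = -n ∨ z = 0 ∨ z = n := by
  obtain ⟨c, rfl⟩ := h
  have a1 : -2 < c := by nlinarith
  have a2 : c < 2 := by nlinarith
  have : c = -1 ∨ c = 0 ∨ c = 1 := by omega
  rcases this with rfl | rfl | rfl <;> simp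

/-- integer offsets of the base blocks -/
def off (k : ℕ) (p : ℤ → ℤ) (i : Fin k) : Fin 3 → ℤ :=
  ![0, (i : ℤ) + 1, k + p ((i : ℤ) + 1) + ((i : ℤ) + 1)]

lemma off_inj {k : ℕ} {n : ℤ} {p : ℤ → ℤ} (hn : n = 6 * k + 1 ∨ n = 6 * k + 3) (h : SeqOK k n p)
    (hk : 12 ≤ k) (i j : Fin k) (a b c d : Fin 3) (hab : a ≠ b) (hcd : c ≠ d)
    (hd : n ∣ (off k p j d - off k p j c) - (off k p i b - off k p i a)) :
    i = j ∧ a = c ∧ b = d := by
  have hi := i.2
  have hj := j.2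
  obtain ⟨a1, a2, a3, a4, a5, a6, a7, a8, -, -⟩ :=
    h ((i : ℤ) + 1) ((j : ℤ) + 1) (by omega) (by omega) (by omega) (by omega)
  obtain ⟨b1, b2, b3, -, -, -, b7, b8, -, -⟩ :=
    h ((j : ℤ) + 1) ((i : ℤ) + 1) (by omega) (by omega) (by omega) (by omega)
  have hb : ∀ (i : Fin k) (a : Fin 3), 0 ≤ off k p i a ∧ off k p i a < n := by
    intro i a
    have hi := i.2
    obtain ⟨a1, a2, -⟩ :=
      h ((i : ℤ) + 1) ((i : ℤ) + 1) (by omega) (by omega) (by omega) (by omega)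
    fin_cases a <;> simp [off] <;> omega
  have h3 := small_dvd (by omega) hd
    (by have := hb j d; have := hb j c; have := hb i a; have := hb i b; omega)
    (by have := hb j d; have := hb j c; have := hb i a; have := hb i b; omega)
  clear hb hd h
  rw [Fin.ext_iff]
  fin_cases a <;> fin_cases b <;> fin_cases c <;> fin_cases d <;>
    simp [off] at hab hcd h3 ⊢ <;> omega

lemma off_three {k : ℕ} {n : ℤ} {p : ℤ → ℤ} (hn : n = 6 * k + 1 ∨ n = 6 * k + 3) (h : SeqOK k n p)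
    (hk : 12 ≤ k) (i : Fin k) (a b : Fin 3) (hab : a ≠ b) :
    ¬ n ∣ 3 * (off k p i b - off k p i a) := by
  intro hd
  have hi := i.2
  obtain ⟨a1, a2, -, -, -, -, -, -, a3, a4⟩ :=
    h ((i : ℤ) + 1) ((i : ℤ) + 1) (by omega) (by omega) (by omega) (by omega)
  have h3 := small_dvd (by omega) hd
    (by fin_cases a <;> fin_cases b <;> simp [off] <;> omega)
    (by fin_cases a <;> fin_cases b <;> simp [off] <;> omega)
  fin_cases a <;> fin_cases b <;> simp [off] at hab h3 <;> omega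

lemma exists_df {k n : ℕ} [NeZero n] (hn : n = 6 * k + 1 ∨ n = 6 * k + 3) (hk : 12 ≤ k) :
    ∃ (o : Fin k → Fin 3 → ZMod n) (w : ZMod n), DF o w := by
  have hn' : (n : ℤ) = 6 * k + 1 ∨ (n : ℤ) = 6 * k + 3 := by omega
  obtain ⟨p, hp⟩ : ∃ p, SeqOK k n p := by
    obtain ⟨h1, h2⟩ := exists_seq k (by omega)
    rcases hn' with h | h <;> rw [h] <;> assumption
  let o : Fin k → Fin 3 → ZMod n := fun i a => (off k p i a : ZMod n)
  have inj : ∀ i j a b c d, a ≠ b → c ≠ d → o i b - o i a = o j d - o j c →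
      i = j ∧ a = c ∧ b = d := by
    intro i j a b c d hab hcd h
    refine off_inj hn' hp hk i j a b c d hab hcd ?_
    rw [← ZMod.intCast_eq_intCast_iff_dvd_sub]
    simpa [o] using h
  have three : ∀ i a b, a ≠ b → 3 * (o i b - o i a) ≠ 0 := by
    intro i a b hab h
    refine off_three hn' hp hk i a b hab ?_
    rw [← ZMod.intCast_zmod_eq_zero_iff_dvd]
    simpa [o] using h
  obtain ⟨w, hw3, hcard⟩ : ∃ w : ZMod n, w + w + w = 0 ∧
      n ≤ 6 * k + ({0, w, -w} : Finset (ZMod n)).card := by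
    rcases hn with h | h
    · exact ⟨0, by simp, by simp [h]⟩
    · have e : ((2 * k + 1 : ℕ) : ZMod n) + ((2 * k + 1 : ℕ) : ZMod n) + ((2 * k + 1 : ℕ) : ZMod n)
          = 0 := by
        rw [← Nat.cast_add, ← Nat.cast_add, ZMod.natCast_eq_zero_iff]
        exact ⟨1, by omega⟩
      have e0 : ((2 * k + 1 : ℕ) : ZMod n) ≠ 0 := by
        rw [Ne, ZMod.natCast_eq_zero_iff]
        intro hd
        have := Nat.le_of_dvd (by omega) hd
        omega
      refine ⟨_, e, ?_⟩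
      generalize ((2 * k + 1 : ℕ) : ZMod n) = w at e e0
      rw [card_eq_three.2 ⟨0, w, -w, e0.symm, by simpa using e0, fun h1 => e0 (by
        rw [← e]; nth_rewrite 2 [h1]; abel), rfl⟩]
      omega
  have nw : ∀ i a b, a ≠ b → o i b - o i a ≠ w := by
    intro i a b hab h
    refine three i a b hab ?_
    rw [h, ← hw3]; ring
  have nz : ∀ i a b, a ≠ b → o i b - o i a ≠ 0 := by
    intro i a b hab h
    refine three i a b hab ?_
    rw [h, mul_zero]
  refine ⟨o, w, inj, nz, nw, ?_, hw3⟩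
  let P : Finset (Fin k × Fin 3 × Fin 3) := univ ×ˢ (univ : Finset (Fin 3)).offDiag
  let g : Fin k × Fin 3 × Fin 3 → ZMod n := fun x => o x.1 x.2.2 - o x.1 x.2.1
  have hP : ∀ x ∈ P, x.2.1 ≠ x.2.2 := fun x hx => (mem_offDiag.1 (mem_product.1 hx).2).2.2
  have c1 : (P.image g).card = 6 * k := by
    rw [card_image_of_injOn]
    · simp [P, mul_comm]
    · intro x hx y hy h
      obtain ⟨e1, e2, e3⟩ := inj _ _ _ _ _ _ (hP x hx) (hP y hy) h
      exact Prod.ext e1 (Prod.ext e2 e3)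
  have c2 : P.image g = univ \ {0, w, -w} := by
    apply eq_of_subset_of_card_le
    · intro d hd
      obtain ⟨x, hx, rfl⟩ := mem_image.1 hd
      simp only [mem_sdiff, mem_univ, true_and, mem_insert, mem_singleton, not_or]
      refine ⟨nz _ _ _ (hP x hx), nw _ _ _ (hP x hx), fun h => nw x.1 _ _ (hP x hx).symm ?_⟩
      rw [← neg_sub]
      exact neg_eq_iff_eq_neg.2 h
    · rw [card_univ_sdiff, ZMod.card, c1]
      omega
  intro d hd
  by_cases h1 : d = w
  · exact Or.inl h1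
  by_cases h2 : d = -w
  · exact Or.inr (Or.inl h2)
  have : d ∈ P.image g := by
    rw [c2]; simp [hd, h1, h2]
  obtain ⟨x, hx, rfl⟩ := mem_image.1 this
  exact Or.inr (Or.inr ⟨x.1, x.2.1, x.2.2, hP x hx, rfl⟩)

lemma sq_le_two_pow (k : ℕ) (hk : 4 ≤ k) : k * k ≤ 2 ^ k := by
  induction k, hk using Nat.le_induction with
  | base => norm_num
  | succ k hk ih => rw [pow_succ]; nlinarith

/-- For every M, all sufficiently large n with n ≡ 1 or 3 mod 6 admit at least M pairwise non-isomorphic cyclic Steiner triple systems on Z/nZ, i.e. the number of cyclic STS(n) up to isomorphism tends to infinity. -/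
theorem result :
    ∀ M : ℕ, ∃ N : ℕ, ∀ n : ℕ, N ≤ n → (n % 6 = 1 ∨ n % 6 = 3) →
      ∃ B : Fin M → Finset (Finset (ZMod n)),
        (∀ i, (∀ b ∈ B i, b.card = 3) ∧
          (∀ x y : ZMod n, x ≠ y → ∃! b : Finset (ZMod n), b ∈ B i ∧ x ∈ b ∧ y ∈ b) ∧
          (∀ b ∈ B i, b.image (fun x => x + 1) ∈ B i)) ∧
        (∀ i j, i ≠ j → ¬ ∃ σ : Equiv.Perm (ZMod n),
          ∀ b : Finset (ZMod n), b ∈ B i ↔ b.map σ.toEmbedding ∈ B j) := by
  intro M
  refine ⟨6 * (9 * M + 12), fun n hn hmod => ?_⟩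
  have : NeZero n := ⟨by omega⟩
  obtain ⟨k, hk⟩ : ∃ k, n = 6 * k + 1 ∨ n = 6 * k + 3 := ⟨n / 6, by omega⟩
  have hk1 : 9 * M + 12 ≤ k := by omega
  obtain ⟨o, w, D⟩ := exists_df hk (by omega)
  refine many D (le_trans ?_ (sq_le_two_pow k (by omega)))
  have h1 : n ≤ 9 * k := by omega
  calc M * n ≤ M * (9 * k) := Nat.mul_le_mul_left _ h1
    _ = (9 * M) * k := by ring
    _ ≤ k * k := Nat.mul_le_mul_right _ (by omega)

end Pool.Agent.S09469
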