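import Pool.Statements.S09503

set_option autoImplicit false
open Pool Pool.MP_741a63_co

namespace Pool.Agent.S09503

open Finset

/-- the arithmetic core: doubling of the partial sums of the class sizes -/
theorem core (n : ℕ → ℝ) (m : ℝ) (hm : 1 ≤ m) (J : Finset ℕ) :
    (∀ i ∈ J, m ≤ n i) →
    (∀ I ⊆ J, (∑ i ∈ I, n i) ^ 2 ≤ 3 * ∑ i ∈ I, n i ^ 2 + m * ∑ i ∈ I, n i) →
    ∃ T : ℝ, 0 ≤ 4 * (∑ i ∈ J, n i) - 2 * T + m * J.card ∧
      (∀ N, (∀ i ∈ J, n i ≤ N) → 3 * ∑ i ∈ J, n i ^ 2 + m * ∑ i ∈ J, n i - (∑ i ∈ J, n i) ^ 2 ≤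
        N * (4 * (∑ i ∈ J, n i) - 2 * T + m * J.card)) ∧
      m * J.card ≤ ∑ i ∈ J, n i ∧ m * (J.card * (J.card + 1) / 2) ≤ T ∧
      (2 ≤ J.card → 2 ^ J.card * m / 4 ≤ T - m * (J.card / 2 + 1)) := by
  induction J using Finset.induction_on_max_value n with
  | empty => intro _ _; exact ⟨0, by simp⟩
  | insert a J ha hmax ih =>
    intro h1 h2
    obtain ⟨T, hD, hN, hs, hT, hd⟩ := ih (fun i hi => h1 i (mem_insert_of_mem hi))
      (fun I hI => h2 I (hI.trans (subset_insert _ _)))
    have hA := h2 _ subset_rfl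
    have hna : m ≤ n a := h1 a (mem_insert_self _ _)
    have hN' := hN (n a) hmax
    rw [sum_insert ha, sum_insert ha] at hA
    simp only [sum_insert ha, card_insert_of_notMem ha]
    push_cast
    set s := ∑ i ∈ J, n i
    set p := ∑ i ∈ J, n i ^ 2
    set j : ℝ := (J.card : ℝ) with hj
    have key : 3 * (n a ^ 2 + p) + m * (n a + s) - (n a + s) ^ 2 ≤
        n a * (4 * (n a + s) - 2 * (T + (n a + s)) + m * (j + 1)) := by nlinarith
    have hD' : 0 ≤ 4 * (n a + s) - 2 * (T + (n a + s)) + m * (j + 1) := by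
      by_contra hneg
      push Not at hneg
      have : n a * (4 * (n a + s) - 2 * (T + (n a + s)) + m * (j + 1)) < 0 :=
        mul_neg_of_pos_of_neg (by linarith) hneg
      linarith
    refine ⟨T + (n a + s), hD', ?_, by linarith, by nlinarith, ?_⟩
    · intro N hN2
      have := hN2 a (mem_insert_self _ _)
      nlinarith
    · intro hj2
      rcases Nat.lt_or_ge J.card 2 with h | h
      · have h1' : J.card = 1 := by omega
        have hj1 : j = 1 := by rw [hj, h1']; simp
        rw [h1']
        rw [hj1] at hs hT ⊢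
        norm_num at hT ⊢
        linarith
      · have := hd h
        rw [pow_succ]
        linarith

theorem count {α : Type} [Fintype α] [DecidableEq α] (B : Finset (Finset α))
    (h4 : ∀ b ∈ B, b.card = 4) (h3 : ∀ T : Finset α, T.card = 3 → ∃! b, b ∈ B ∧ T ⊆ b)
    (c : α → ℕ) (hc : ∀ b ∈ B, ∃ x ∈ b, ∃ y ∈ b, x ≠ y ∧ c x = c y) (x : α) (I : Finset ℕ)
    (hx : c x ∉ I) :
    (∑ i ∈ I, (univ.filter fun y => c y = i).card) ^ 2 ≤
      3 * ∑ i ∈ I, (univ.filter fun y => c y = i).card ^ 2 +
      (univ.filter fun y => c y = c x).card * ∑ i ∈ I, (univ.filter fun y => c y = i).card := by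
  classical
  let R : α → α → α → Prop := fun y z w =>
    ({x, y, z, w} : Finset α) ∈ B ∧ x ≠ y ∧ x ≠ z ∧ x ≠ w ∧ y ≠ z ∧ y ≠ w ∧ z ≠ w
  have c3 : ∀ y z : α, x ≠ y → x ≠ z → y ≠ z → ({x, y, z} : Finset α).card = 3 := by
    intro y z h1 h2 h3
    exact card_eq_three.2 ⟨x, y, z, h1, h2, h3, rfl⟩
  have ex : ∀ y z : α, ∃ w, x ≠ y → x ≠ z → y ≠ z → R y z w := by
    intro y z
    by_cases h : x ≠ y ∧ x ≠ z ∧ y ≠ z
    · obtain ⟨h1, h2, h3'⟩ := h
      obtain ⟨b, ⟨hb, hT⟩, -⟩ := h3 _ (c3 y z h1 h2 h3')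
      have : (b \ {x, y, z}).card = 1 := by
        rw [card_sdiff_of_subset hT, h4 b hb, c3 y z h1 h2 h3']
      obtain ⟨w, hw⟩ := card_eq_one.1 this
      have hw' : w ∈ b \ {x, y, z} := by rw [hw]; simp
      simp only [mem_sdiff, mem_insert, mem_singleton, not_or] at hw'
      have hbe : b = {x, y, z, w} := by
        rw [← union_sdiff_of_subset hT, hw]; ext t; simp [or_assoc]
      refine ⟨w, fun _ _ _ => ⟨hbe ▸ hb, h1, h2, fun e => hw'.2.1 e.symm, h3',
        fun e => hw'.2.2.1 e.symm, fun e => hw'.2.2.2 e.symm⟩⟩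
    · exact ⟨x, fun h1 h2 h3 => absurd ⟨h1, h2, h3⟩ h⟩
  have un : ∀ y z z' w : α, R y z w → R y z' w → z = z' := by
    intro y z z' w h h'
    obtain ⟨hb, a1, a2, a3, a4, a5, a6⟩ := h
    obtain ⟨hb', b1, b2, b3, b4, b5, b6⟩ := h'
    have := (h3 _ (c3 y w a1 a3 a5)).unique (y₁ := {x, y, z, w}) (y₂ := {x, y, z', w})
      ⟨hb, by intro t; simp only [mem_insert, mem_singleton]; tauto⟩
      ⟨hb', by intro t; simp only [mem_insert, mem_singleton]; tauto⟩
    have hz : z ∈ ({x, y, z', w} : Finset α) := by rw [← this]; simp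
    simp only [mem_insert, mem_singleton] at hz
    rcases hz with h | h | h | h
    · exact absurd h.symm a2
    · exact absurd h.symm a4
    · exact h
    · exact absurd h a6
  have sw : ∀ y z w : α, R y z w → R z y w := by
    intro y z w h
    obtain ⟨hb, a1, a2, a3, a4, a5, a6⟩ := h
    refine ⟨?_, a2, a1, a3, a4.symm, a6, a5⟩
    have : ({x, z, y, w} : Finset α) = {x, y, z, w} := by
      ext t; simp only [mem_insert, mem_singleton]; tauto
    rw [this]; exact hb
  choose f hf using ex
  set S : Finset α := univ.filter fun y => c y ∈ I with hS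
  have hScard : S.card = ∑ i ∈ I, (univ.filter fun y => c y = i).card := by
    rw [card_eq_sum_card_fiberwise (f := c) (t := I) (by intro y hy; simpa [hS] using hy)]
    refine sum_congr rfl fun i hi => ?_
    congr 1; ext y; simp only [hS, mem_filter, mem_univ, true_and]
    constructor
    · exact fun h => h.2
    · exact fun h => ⟨h ▸ hi, h⟩
  set Q : Finset (α × α) := (S ×ˢ S).filter fun q => c q.1 = c q.2 with hQ
  set P : Finset (α × α) := (S ×ˢ S).filter fun q => ¬ c q.1 = c q.2 with hP
  have hQcard : Q.card ≤ ∑ i ∈ I, (univ.filter fun y => c y = i).card ^ 2 := by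
    have : Q ⊆ I.biUnion fun i => (univ.filter fun y => c y = i) ×ˢ (univ.filter fun y => c y = i) := by
      intro q hq
      simp only [hQ, hS, mem_filter, mem_product, mem_univ, true_and] at hq
      simp only [mem_biUnion, mem_product, mem_filter, mem_univ, true_and]
      exact ⟨c q.1, hq.1.1, rfl, hq.2.symm⟩
    refine (card_le_card this).trans (card_biUnion_le.trans (le_of_eq ?_))
    refine sum_congr rfl fun i _ => ?_
    rw [card_product, sq]
  have hPQ : Q.card + P.card = S.card ^ 2 := by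
    rw [hQ, hP, card_filter_add_card_filter_not, card_product, sq]
  have hR : ∀ q ∈ P, R q.1 q.2 (f q.1 q.2) ∧ c q.1 ∈ I ∧ c q.2 ∈ I ∧ c q.1 ≠ c q.2 := by
    intro q hq
    simp only [hP, hS, mem_filter, mem_product, mem_univ, true_and] at hq
    refine ⟨hf _ _ ?_ ?_ ?_, hq.1.1, hq.1.2, hq.2⟩
    · intro e; apply hx; rw [e]; exact hq.1.1
    · intro e; apply hx; rw [e]; exact hq.1.2
    · intro e; apply hq.2; rw [e]
  have hcases : ∀ q ∈ P, c (f q.1 q.2) = c x ∨ c (f q.1 q.2) = c q.1 ∨ c (f q.1 q.2) = c q.2 := by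
    intro q hq
    obtain ⟨⟨hb, -⟩, h1, h2, h12⟩ := hR q hq
    obtain ⟨u, hu, v, hv, huv, e⟩ := hc _ hb
    have hx1 : c x ≠ c q.1 := fun e => hx (e ▸ h1)
    have hx2 : c x ≠ c q.2 := fun e => hx (e ▸ h2)
    simp only [mem_insert, mem_singleton] at hu hv
    rcases hu with rfl | rfl | rfl | rfl <;> rcases hv with rfl | rfl | rfl | hv <;>
      first
        | exact absurd rfl huv
        | exact absurd e hx1
        | exact absurd e hx2
        | exact absurd e.symm hx1
        | exact absurd e.symm hx2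
        | exact absurd e h12
        | exact absurd e.symm h12
        | exact absurd hv.symm huv
        | (subst hv; simp [e])
        | simp [e]
  have hsub : P ⊆ (P.filter fun q => c (f q.1 q.2) = c x) ∪
      ((P.filter fun q => c (f q.1 q.2) = c q.1) ∪ (P.filter fun q => c (f q.1 q.2) = c q.2)) := by
    intro q hq
    simp only [mem_union, mem_filter]
    have := hcases q hq
    tauto
  have h0 : (P.filter fun q => c (f q.1 q.2) = c x).card ≤
      ((univ.filter fun y => c y = c x) ×ˢ S).card := by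
    refine card_le_card_of_injOn (fun q => (f q.1 q.2, q.1)) ?_ ?_
    · intro q hq
      simp only [coe_filter, Set.mem_ofPred_eq] at hq
      have := hR q hq.1
      simp [hS, hq.2, this.2.1]
    · intro q hq q' hq' e
      simp only [coe_filter, Set.mem_ofPred_eq] at hq hq'
      simp only [Prod.mk.injEq] at e
      have r := (hR q hq.1).1
      have r' := (hR q' hq'.1).1
      rw [← e.1, ← e.2] at r'
      exact Prod.ext e.2 (un _ _ _ _ r r')
  have h1 : (P.filter fun q => c (f q.1 q.2) = c q.1).card ≤ Q.card := by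
    refine card_le_card_of_injOn (fun q => (f q.1 q.2, q.1)) ?_ ?_
    · intro q hq
      simp only [coe_filter, Set.mem_ofPred_eq] at hq
      have := hR q hq.1
      simp [hQ, hS, hq.2, this.2.1]
    · intro q hq q' hq' e
      simp only [coe_filter, Set.mem_ofPred_eq] at hq hq'
      simp only [Prod.mk.injEq] at e
      have r := (hR q hq.1).1
      have r' := (hR q' hq'.1).1
      rw [← e.1, ← e.2] at r'
      exact Prod.ext e.2 (un _ _ _ _ r r')
  have h2 : (P.filter fun q => c (f q.1 q.2) = c q.2).card ≤ Q.card := by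
    refine card_le_card_of_injOn (fun q => (f q.1 q.2, q.2)) ?_ ?_
    · intro q hq
      simp only [coe_filter, Set.mem_ofPred_eq] at hq
      have := hR q hq.1
      simp [hQ, hS, hq.2, this.2.2.1]
    · intro q hq q' hq' e
      simp only [coe_filter, Set.mem_ofPred_eq] at hq hq'
      simp only [Prod.mk.injEq] at e
      have r := sw _ _ _ (hR q hq.1).1
      have r' := sw _ _ _ (hR q' hq'.1).1
      rw [← e.1, ← e.2] at r'
      exact Prod.ext (un _ _ _ _ r r') e.2
  have hP1 := (card_le_card hsub).trans ((card_union_le _ _).trans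
    (Nat.add_le_add_left (card_union_le _ _) _))
  rw [card_product] at h0
  rw [← hScard]
  omega

theorem upper {α : Type} [Fintype α] [DecidableEq α] [Nonempty α] (B : Finset (Finset α))
    (h4 : ∀ b ∈ B, b.card = 4) (h3 : ∀ T : Finset α, T.card = 3 → ∃! b, b ∈ B ∧ T ⊆ b)
    (c : α → ℕ) (hc : ∀ b ∈ B, ∃ x ∈ b, ∃ y ∈ b, x ≠ y ∧ c x = c y) :
    (2 : ℝ) ^ (univ.image c).card ≤ 16 * Fintype.card α := by
  classical
  obtain ⟨x, -, hx⟩ := exists_min_image (univ : Finset α)
    (fun y => (univ.filter fun z => c z = c y).card) univ_nonempty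
  set J := (univ.image c).erase (c x) with hJ
  have hcx : c x ∈ univ.image c := mem_image_of_mem _ (mem_univ _)
  have hk : (univ.image c).card = J.card + 1 := by
    rw [hJ, card_erase_add_one hcx]
  have hm1 : 1 ≤ (univ.filter fun z => c z = c x).card := card_pos.2 ⟨x, by simp⟩
  have hv : 1 ≤ Fintype.card α := Fintype.card_pos
  have hvR : (1 : ℝ) ≤ Fintype.card α := by exact_mod_cast hv
  obtain ⟨T, hD, -, -, -, hd⟩ := core (fun i => ((univ.filter fun z => c z = i).card : ℝ))
    ((univ.filter fun z => c z = c x).card : ℝ) (by exact_mod_cast hm1) J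
    (by
      intro i hi
      obtain ⟨y, -, rfl⟩ := mem_image.1 (mem_of_mem_erase hi)
      exact_mod_cast hx y (mem_univ _))
    (by
      intro I hI
      have := count B h4 h3 c hc x I (fun h => by simpa [hJ] using hI h)
      exact_mod_cast this)
  have hsum : ∑ i ∈ J, ((univ.filter fun z => c z = i).card : ℝ) ≤ Fintype.card α := by
    have : ∑ i ∈ J, (univ.filter fun z => c z = i).card ≤ Fintype.card α := by
      rw [← card_univ, card_eq_sum_card_image c univ]
      exact sum_le_sum_of_subset (erase_subset _ _)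
    exact_mod_cast this
  rw [hk]
  rcases Nat.lt_or_ge J.card 2 with h | h
  · have : (2 : ℝ) ^ (J.card + 1) ≤ 2 ^ 2 := pow_le_pow_right₀ (by norm_num) (by omega)
    linarith
  · have h5 := hd h
    have hmR : (1 : ℝ) ≤ (univ.filter fun z => c z = c x).card := by exact_mod_cast hm1
    have h6 : (0 : ℝ) < 2 ^ J.card := by positivity
    rw [pow_succ]
    nlinarith

theorem lower (k : ℕ) : ∃ B : Finset (Finset (Fin (2 ^ k))),
      (∀ b ∈ B, b.card = 4) ∧
      (∀ T : Finset (Fin (2 ^ k)), T.card = 3 → ∃! b, b ∈ B ∧ T ⊆ b) ∧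
      ∃ c : Fin (2 ^ k) → ℕ, (∀ b ∈ B, ∃ x ∈ b, ∃ y ∈ b, x ≠ y ∧ c x = c y) ∧
      k ≤ (Finset.univ.image c).card := by
  classical
  have e : Fin (2 ^ k) ≃ (Fin k → ZMod 2) := Fintype.equivOfCardEq (by simp)
  have two : ∀ u : Fin k → ZMod 2, u + u = 0 := by
    intro u; ext i; simp only [Pi.add_apply, Pi.zero_apply]
    generalize u i = t; revert t; decide
  have canc : ∀ u w : Fin k → ZMod 2, u + w = 0 → u = w := by
    intro u w h
    have : u + (w + w) = w := by rw [← add_assoc, h, zero_add]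
    rw [two, add_zero] at this; exact this
  refine ⟨univ.filter fun b => b.card = 4 ∧ ∑ x ∈ b, e x = 0, fun b hb => (mem_filter.1 hb).2.1, ?_,
    fun x => (univ.filter fun i => e x i ≠ 0).sup (fun i => i.val + 1), ?_, ?_⟩
  · intro T hT
    set d := e.symm (∑ x ∈ T, e x) with hd
    have hdT : d ∉ T := by
      intro h
      have h2 : (T.erase d).card = 2 := by rw [card_erase_of_mem h, hT]
      obtain ⟨y, z, hyz, hE⟩ := card_eq_two.1 h2
      have h3 := add_sum_erase T (fun x => e x) h
      rw [hE, sum_pair hyz] at h3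
      have h4 : e d = ∑ x ∈ T, e x := by simp [hd]
      rw [← h4] at h3
      exact hyz (e.injective (canc _ _ (by simpa using h3)))
    refine ⟨insert d T, ⟨?_, subset_insert _ _⟩, ?_⟩
    · simp only [mem_filter, mem_univ, true_and]
      refine ⟨by rw [card_insert_of_notMem hdT, hT], ?_⟩
      rw [sum_insert hdT, hd, Equiv.apply_symm_apply, two]
    · rintro b ⟨hb, hTb⟩
      simp only [mem_filter, mem_univ, true_and] at hb
      have : (b \ T).card = 1 := by rw [card_sdiff_of_subset hTb, hb.1, hT]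
      obtain ⟨w, hw⟩ := card_eq_one.1 this
      have hw' : w ∈ b \ T := by rw [hw]; simp
      have hbe : b = insert w T := by
        rw [← union_sdiff_of_subset hTb, hw]; ext t; simp [or_comm]
      have h5 := hb.2
      rw [hbe, sum_insert (mem_sdiff.1 hw').2] at h5
      have : w = d := by rw [hd, ← canc _ _ h5]; simp
      rw [hbe, this]
  · intro b hb
    simp only [mem_filter, mem_univ, true_and] at hb
    by_contra hne
    push Not at hne
    have hbne : b.Nonempty := card_pos.1 (by omega)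
    obtain ⟨x, hx, hmax⟩ := exists_max_image b
      (fun x => (univ.filter fun i => e x i ≠ 0).sup (fun i : Fin k => i.val + 1)) hbne
    have hlt : ∀ y ∈ b, y ≠ x → (univ.filter fun i => e y i ≠ 0).sup (fun i : Fin k => i.val + 1) <
        (univ.filter fun i => e x i ≠ 0).sup (fun i : Fin k => i.val + 1) :=
      fun y hy hyx => lt_of_le_of_ne (hmax y hy) (hne y hy x hx hyx)
    obtain ⟨y, hy, hyx⟩ := exists_mem_ne (s := b) (by omega) x
    have hne0 : (univ.filter fun i => e x i ≠ 0).Nonempty := by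
      by_contra h0
      have := hlt y hy hyx
      rw [not_nonempty_iff_eq_empty.1 h0] at this
      simp at this
    obtain ⟨i, hi, hsup⟩ := exists_mem_eq_sup _ hne0 (fun i : Fin k => i.val + 1)
    have h0 := congrFun hb.2 i
    rw [Finset.sum_apply, sum_eq_single x] at h0
    · exact (mem_filter.1 hi).2 h0
    · intro z hz hzx
      by_contra h
      have h1 := hlt z hz hzx
      have h2 : i.val + 1 ≤ (univ.filter fun i => e z i ≠ 0).sup (fun i : Fin k => i.val + 1) :=
        le_sup (f := fun i : Fin k => i.val + 1) (by simpa using h)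
      omega
    · intro h; exact absurd hx h
  · have : (univ : Finset (Fin k)).card ≤ (univ.image fun x =>
        (univ.filter fun i => e x i ≠ 0).sup (fun i : Fin k => i.val + 1)).card := by
      refine card_le_card_of_injOn (fun i => i.val + 1) ?_ ?_
      · intro i _
        simp only [coe_image, coe_univ, Set.image_univ, Set.mem_range]
        refine ⟨e.symm (Pi.single i 1), ?_⟩
        have : (univ.filter fun j => e (e.symm (Pi.single i 1)) j ≠ 0) = {i} := by
          ext j
          by_cases h : j = i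
          · subst h; simp
          · simp [h]
        rw [this]; simp
      · intro i _ j _ h
        exact Fin.ext (by simpa using h)
    simpa using this

/-- The limsup, as v grows, of the largest number of colours in a colouring of a Steiner quadruple system on v points where every block has two same-coloured points, divided by log₂ v, equals 1. -/
theorem result :
    (∀ ε : ℝ, 0 < ε → ∃ N : ℕ, ∀ v : ℕ, N ≤ v → ∀ B : Finset (Finset (Fin v)),
      (∀ b ∈ B, b.card = 4) →
      (∀ T : Finset (Fin v), T.card = 3 → ∃! b, b ∈ B ∧ T ⊆ b) →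
      ∀ c : Fin v → ℕ, (∀ b ∈ B, ∃ x ∈ b, ∃ y ∈ b, x ≠ y ∧ c x = c y) →
      ((Finset.univ.image c).card : ℝ) ≤ (1 + ε) * Real.logb 2 (v : ℝ)) ∧
    (∀ ε : ℝ, 0 < ε → ∀ N : ℕ, ∃ v : ℕ, N ≤ v ∧ ∃ B : Finset (Finset (Fin v)),
      (∀ b ∈ B, b.card = 4) ∧
      (∀ T : Finset (Fin v), T.card = 3 → ∃! b, b ∈ B ∧ T ⊆ b) ∧
      ∃ c : Fin v → ℕ, (∀ b ∈ B, ∃ x ∈ b, ∃ y ∈ b, x ≠ y ∧ c x = c y) ∧
      (1 - ε) * Real.logb 2 (v : ℝ) ≤ ((Finset.univ.image c).card : ℝ)) := by
  constructor
  · intro ε hε
    obtain ⟨K, hK⟩ := exists_nat_ge (4 / ε)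
    refine ⟨2 ^ K, fun v hv B h4 h3 c hc => ?_⟩
    have hv0 : 0 < v := lt_of_lt_of_le (by positivity) hv
    haveI : Nonempty (Fin v) := ⟨⟨0, hv0⟩⟩
    have hu := upper B h4 h3 c hc
    rw [Fintype.card_fin] at hu
    have hvR : (0 : ℝ) < v := by exact_mod_cast hv0
    have h1 : ((univ.image c).card : ℝ) ≤ Real.logb 2 (16 * v) := by
      rw [Real.le_logb_iff_rpow_le (by norm_num) (by positivity), Real.rpow_natCast]
      exact hu
    have h2 : Real.logb 2 (16 * v) = 4 + Real.logb 2 v := by
      rw [Real.logb_mul (by norm_num) hvR.ne']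
      congr 1
      rw [show (16 : ℝ) = 2 ^ 4 by norm_num, Real.logb_pow]; simp
    have h3' : (K : ℝ) ≤ Real.logb 2 v := by
      rw [Real.le_logb_iff_rpow_le (by norm_num) hvR, Real.rpow_natCast]
      exact_mod_cast hv
    have h5 : 4 ≤ ε * K := by
      rw [div_le_iff₀ hε] at hK; linarith
    nlinarith
  · intro ε hε N
    obtain ⟨B, h4, h3, c, hc, hk⟩ := lower N
    refine ⟨2 ^ N, Nat.lt_two_pow_self.le, B, h4, h3, c, hc, ?_⟩
    have h1 : Real.logb 2 ((2 ^ N : ℕ) : ℝ) = N := by
      push_cast; rw [Real.logb_pow]; simp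
    rw [h1]
    have h2 : (N : ℝ) ≤ (univ.image c).card := by exact_mod_cast hk
    have h3 : (0 : ℝ) ≤ N := by positivity
    nlinarith

end Pool.Agent.S09503
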