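import Pool.Statements.S09512

set_option autoImplicit false
open Pool Pool.MP_743ef6_co

namespace Pool.Agent.S09512

open Finset

def W {k : ℕ} (σ δ : ℤ) (x y : Fin k) : ℤ := if x = y then σ else δ

def I {k : ℕ} (x y : Fin k) : ℤ := if x = y then 1 else 0

theorem W_eq {k : ℕ} (σ δ : ℤ) (x y : Fin k) : W σ δ x y = δ + (σ - δ) * I x y := by
  unfold W I; split_ifs <;> ring

theorem I0 (k : ℕ) (c : ℤ) : ∑ _t : Fin k, c = k * c := by simp

theorem I1 {k : ℕ} (x : Fin k) (c : ℤ) : ∑ t : Fin k, c * I x t = c := by simp [I]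

theorem I2 {k : ℕ} (x y : Fin k) (c : ℤ) : ∑ t : Fin k, c * (I x t * I y t) = c * I x y := by
  by_cases h : x = y
  · subst h; simp [I]
  · simp [I, h]

theorem I3 {k : ℕ} (x y z : Fin k) (c : ℤ) :
    ∑ t : Fin k, c * (I x t * I y t * I z t) = c * (I x y * I x z) := by
  by_cases h : x = z
  · subst h
    by_cases h : x = y
    · subst h; simp [I]
    · simp [I, h, Ne.symm h]
  · by_cases h' : y = z
    · subst h'; simp [I, h]
    · simp [I, h, h']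

def T1 (q : ℤ) (F : ℤ → ℤ) : ℤ := q * F 0 + (F 1 - F 0)

def T2 (q : ℤ) (F : ℤ → ℤ → ℤ) (u : ℤ) : ℤ :=
  q * F 0 0 + (F 1 0 - F 0 0) + (F 0 1 - F 0 0) + (F 1 1 - F 1 0 - F 0 1 + F 0 0) * u

def T3 (q : ℤ) (F : ℤ → ℤ → ℤ → ℤ) (u v w : ℤ) : ℤ :=
  q * F 0 0 0 + (F 1 0 0 - F 0 0 0) + (F 0 1 0 - F 0 0 0) + (F 0 0 1 - F 0 0 0)
    + (F 1 1 0 - F 1 0 0 - F 0 1 0 + F 0 0 0) * u + (F 1 0 1 - F 1 0 0 - F 0 0 1 + F 0 0 0) * v
    + (F 0 1 1 - F 0 1 0 - F 0 0 1 + F 0 0 0) * w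
    + (F 1 1 1 - F 1 1 0 - F 1 0 1 - F 0 1 1 + F 1 0 0 + F 0 1 0 + F 0 0 1 - F 0 0 0) * (u * v)

theorem S1 {k : ℕ} (F : ℤ → ℤ) (s : Fin k) : ∑ t : Fin k, F (I s t) = T1 k F := by
  have : ∀ t, F (I s t) = F 0 + (F 1 - F 0) * I s t := by
    intro t; unfold I; split_ifs <;> ring
  simp only [this, sum_add_distrib, I0, I1, T1]

theorem S2 {k : ℕ} (F : ℤ → ℤ → ℤ) (s a : Fin k) :
    ∑ t : Fin k, F (I s t) (I a t) = T2 k F (I s a) := by
  have : ∀ t, F (I s t) (I a t) = F 0 0 + (F 1 0 - F 0 0) * I s t + (F 0 1 - F 0 0) * I a t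
      + (F 1 1 - F 1 0 - F 0 1 + F 0 0) * (I s t * I a t) := by
    intro t; unfold I; split_ifs <;> ring
  simp only [this, sum_add_distrib, I0, I1, I2, T2]

theorem S3 {k : ℕ} (F : ℤ → ℤ → ℤ → ℤ) (s a b : Fin k) :
    ∑ t : Fin k, F (I s t) (I a t) (I b t) = T3 k F (I s a) (I s b) (I a b) := by
  have : ∀ t, F (I s t) (I a t) (I b t) = F 0 0 0 + (F 1 0 0 - F 0 0 0) * I s t
      + (F 0 1 0 - F 0 0 0) * I a t + (F 0 0 1 - F 0 0 0) * I b t
      + (F 1 1 0 - F 1 0 0 - F 0 1 0 + F 0 0 0) * (I s t * I a t)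
      + (F 1 0 1 - F 1 0 0 - F 0 0 1 + F 0 0 0) * (I s t * I b t)
      + (F 0 1 1 - F 0 1 0 - F 0 0 1 + F 0 0 0) * (I a t * I b t)
      + (F 1 1 1 - F 1 1 0 - F 1 0 1 - F 0 1 1 + F 1 0 0 + F 0 1 0 + F 0 0 1 - F 0 0 0)
        * (I s t * I a t * I b t) := by
    intro t; unfold I; split_ifs <;> ring
  simp only [this, sum_add_distrib, I0, I1, I2, I3, T3]

/-- The weighted colouring sum of the reduced graph on four vertices. -/
def Z {R : Type} [CommRing R] (q s3 d3 s4 d4 : R) : R :=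
  q * (q - 1) * (s3 * d3 * d4 * (s3 * s4) * (d3 * d4) + d3 * s3 * s4 * (d3 * d4) * (d3 * d4)
      + s3 * d3 * s4 * (d3 * d4) * (s3 * s4) + d3 * s3 * d4 * (s3 * s4) * (s3 * s4))
    + q * (q - 1) * (q - 2) * (s3 * d3 * d4 * (d3 * d4) * (d3 * d4)
      + d3 * s3 * d4 * (d3 * d4) * (d3 * d4) + d3 * d3 * s4 * (d3 * d4) * (d3 * d4)
      + d3 * d3 * d4 * (s3 * s4) * (d3 * d4) + d3 * d3 * d4 * (d3 * d4) * (s3 * s4))
    + q * (q - 1) * (q - 2) * (q - 3) * (d3 * d3 * d4 * (d3 * d4) * (d3 * d4))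

theorem K4 (k : ℕ) (s3 d3 s4 d4 : ℤ) :
    ∑ s : Fin k, ∑ a : Fin k, ∑ b : Fin k, ∑ t : Fin k,
      W 0 1 a b * (W s3 d3 s a * (W s3 d3 s b * (W s4 d4 a t * (W s3 d3 b t * (W s4 d4 b t *
        (W s3 d3 s t * (W s4 d4 s t * 1))))))) = Z (k : ℤ) s3 d3 s4 d4 := by
  let F : ℤ → ℤ → ℤ → ℤ → ℤ → ℤ → ℤ := fun u v w x y z =>
    (1 + (0 - 1) * w) * ((d3 + (s3 - d3) * u) * ((d3 + (s3 - d3) * v) * ((d4 + (s4 - d4) * y) *
      ((d3 + (s3 - d3) * z) * ((d4 + (s4 - d4) * z) * ((d3 + (s3 - d3) * x) *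
        ((d4 + (s4 - d4) * x) * 1)))))))
  have h3 : ∀ s a b : Fin k, ∑ t : Fin k,
      W 0 1 a b * (W s3 d3 s a * (W s3 d3 s b * (W s4 d4 a t * (W s3 d3 b t * (W s4 d4 b t *
        (W s3 d3 s t * (W s4 d4 s t * 1)))))))
      = T3 k (F (I s a) (I s b) (I a b)) (I s a) (I s b) (I a b) := by
    intro s a b
    rw [← S3]
    simp only [W_eq, F]
  have h2 : ∀ s a : Fin k, ∑ b : Fin k, T3 k (F (I s a) (I s b) (I a b)) (I s a) (I s b) (I a b)
      = T2 k (fun v w => T3 k (F (I s a) v w) (I s a) v w) (I s a) :=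
    fun s a => S2 (fun v w => T3 k (F (I s a) v w) (I s a) v w) s a
  have h1 : ∀ s : Fin k, ∑ a : Fin k, T2 k (fun v w => T3 k (F (I s a) v w) (I s a) v w) (I s a)
      = T1 k (fun u => T2 k (fun v w => T3 k (F u v w) u v w) u) :=
    fun s => S1 (fun u => T2 k (fun v w => T3 k (F u v w) u v w) u) s
  simp only [h3, h2, h1, I0]
  simp only [T1, T2, T3, F, Z]
  ring

theorem step {k : ℕ} (σ δ R : ℤ) (x y : Fin k) :
    ∑ u : Fin k, W 0 1 x u * (W σ δ u y * R) = W ((k - 1) * δ) (σ + (k - 2) * δ) x y * R := by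
  have : ∀ u, W 0 1 x u * (W σ δ u y * R) = δ * R + (σ - δ) * R * I y u + (-δ * R) * I x u
      + (-(σ - δ) * R) * (I x u * I y u) := by
    intro u
    have : I u y = I y u := by unfold I; simp only [eq_comm]
    rw [W_eq, W_eq, this]; ring
  simp only [this, sum_add_distrib, I0, I1, I2]
  rw [W_eq]
  unfold I; split_ifs <;> ring

def s2 {R : Type} [CommRing R] (q : R) : R := (q - 1) * 1
def d2 {R : Type} [CommRing R] (q : R) : R := 0 + (q - 2) * 1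
def s3 {R : Type} [CommRing R] (q : R) : R := (q - 1) * d2 q
def d3 {R : Type} [CommRing R] (q : R) : R := s2 q + (q - 2) * d2 q
def s4 {R : Type} [CommRing R] (q : R) : R := (q - 1) * d3 q
def d4 {R : Type} [CommRing R] (q : R) : R := s3 q + (q - 2) * d3 q
def P {R : Type} [CommRing R] (q : R) : R := Z q (s3 q) (d3 q) (s4 q) (d4 q)

theorem inner (k : ℕ) (x0 x1 x2 x3 : Fin k) :
    ∑ x4 : Fin k, ∑ x5 : Fin k, ∑ x6 : Fin k, ∑ x7 : Fin k, ∑ x8 : Fin k, ∑ x9 : Fin k, ∑ x10 : Fin k, ∑ x11 : Fin k, ∑ x12 : Fin k, ∑ x13 : Fin k, ∑ x14 : Fin k, ∑ x15 : Fin k, ∑ x16 : Fin k, ∑ x17 : Fin k, ∑ x18 : Fin k, ∑ x19 : Fin k, ∑ x20 : Fin k,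
      W 0 1 x1 x2 * (W 0 1 x0 x4 * (W 0 1 x4 x5 * (W 0 1 x5 x1 * (W 0 1 x0 x6 * (W 0 1 x6 x7 * (W 0 1 x7 x2 * (W 0 1 x1 x8 * (W 0 1 x8 x9 * (W 0 1 x9 x10 * (W 0 1 x10 x3 * (W 0 1 x2 x11 * (W 0 1 x11 x12 * (W 0 1 x12 x3 * (W 0 1 x2 x13 * (W 0 1 x13 x14 * (W 0 1 x14 x15 * (W 0 1 x15 x3 * (W 0 1 x0 x16 * (W 0 1 x16 x17 * (W 0 1 x17 x3 * (W 0 1 x0 x18 * (W 0 1 x18 x19 * (W 0 1 x19 x20 * (W 0 1 x20 x3 * 1))))))))))))))))))))))))
    = W 0 1 x1 x2 * (W (s3 (k : ℤ)) (d3 (k : ℤ)) x0 x1 * (W (s3 (k : ℤ)) (d3 (k : ℤ)) x0 x2 *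
      (W (s4 (k : ℤ)) (d4 (k : ℤ)) x1 x3 * (W (s3 (k : ℤ)) (d3 (k : ℤ)) x2 x3 *
      (W (s4 (k : ℤ)) (d4 (k : ℤ)) x2 x3 * (W (s3 (k : ℤ)) (d3 (k : ℤ)) x0 x3 *
      (W (s4 (k : ℤ)) (d4 (k : ℤ)) x0 x3 * 1))))))) := by
  simp only [← mul_sum]
  simp only [step]
  rfl

def EL : List (Fin 21 × Fin 21) := [(1, 2), (0, 4), (4, 5), (5, 1), (0, 6), (6, 7), (7, 2), (1, 8), (8, 9), (9, 10), (10, 3), (2, 11), (11, 12), (12, 3), (2, 13), (13, 14), (14, 15), (15, 3), (0, 16), (16, 17), (17, 3), (0, 18), (18, 19), (19, 20), (20, 3)]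

def G : SimpleGraph (Fin 21) := SimpleGraph.fromRel (fun u v => (u, v) ∈ EL)

theorem EL_ne : ∀ e ∈ EL, e.1 ≠ e.2 := by decide +kernel

theorem sum_cons {α : Type} [Fintype α] {n : ℕ} (F : (Fin (n + 1) → α) → ℤ) :
    ∑ f, F f = ∑ a : α, ∑ g : Fin n → α, F (Fin.cons a g) := by
  rw [← (Fin.consEquiv (fun _ => α)).sum_comp, Fintype.sum_prod_type]
  rfl

theorem ite_list {k : ℕ} (f : Fin 21 → Fin k) (L : List (Fin 21 × Fin 21)) :
    (if ∀ e ∈ L, f e.1 ≠ f e.2 then (1 : ℤ) else 0) =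
      (L.map (fun e => W 0 1 (f e.1) (f e.2))).prod := by
  induction L with
  | nil => simp
  | cons e L ih =>
    rw [List.map_cons, List.prod_cons, ← ih]
    simp only [List.forall_mem_cons, W]
    by_cases h : f e.1 = f e.2 <;> simp [h]

def F {k : ℕ} (f : Fin 21 → Fin k) : ℤ := (EL.map (fun e => W 0 1 (f e.1) (f e.2))).prod

theorem card_eq (k : ℕ) : (Nat.card (G.Coloring (Fin k)) : ℤ) = ∑ f : Fin 21 → Fin k, F f := by
  have e : G.Coloring (Fin k) ≃ {f : Fin 21 → Fin k // ∀ e ∈ EL, f e.1 ≠ f e.2} :=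
    { toFun := fun c => ⟨c, fun e he => c.valid (by
        rw [G, SimpleGraph.fromRel_adj]; exact ⟨EL_ne e he, Or.inl he⟩)⟩
      invFun := fun f => SimpleGraph.Coloring.mk f.1 (by
        intro u v h
        rw [G, SimpleGraph.fromRel_adj] at h
        rcases h.2 with h | h
        · exact f.2 _ h
        · exact (f.2 _ h).symm)
      left_inv := fun c => rfl
      right_inv := fun f => rfl }
  rw [Nat.card_congr e, Nat.card_eq_fintype_card, Fintype.card_subtype, card_filter]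
  push_cast
  exact sum_congr rfl fun f _ => ite_list f EL

theorem total (k : ℕ) : ∑ f : Fin 21 → Fin k, F f = P (k : ℤ) := by
  have h : ∑ f : Fin 21 → Fin k, F f = ∑ x0 : Fin k, ∑ x1 : Fin k, ∑ x2 : Fin k, ∑ x3 : Fin k, ∑ x4 : Fin k, ∑ x5 : Fin k, ∑ x6 : Fin k, ∑ x7 : Fin k, ∑ x8 : Fin k, ∑ x9 : Fin k, ∑ x10 : Fin k, ∑ x11 : Fin k, ∑ x12 : Fin k, ∑ x13 : Fin k, ∑ x14 : Fin k, ∑ x15 : Fin k, ∑ x16 : Fin k, ∑ x17 : Fin k, ∑ x18 : Fin k, ∑ x19 : Fin k, ∑ x20 : Fin k,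
      W 0 1 x1 x2 * (W 0 1 x0 x4 * (W 0 1 x4 x5 * (W 0 1 x5 x1 * (W 0 1 x0 x6 * (W 0 1 x6 x7 * (W 0 1 x7 x2 * (W 0 1 x1 x8 * (W 0 1 x8 x9 * (W 0 1 x9 x10 * (W 0 1 x10 x3 * (W 0 1 x2 x11 * (W 0 1 x11 x12 * (W 0 1 x12 x3 * (W 0 1 x2 x13 * (W 0 1 x13 x14 * (W 0 1 x14 x15 * (W 0 1 x15 x3 * (W 0 1 x0 x16 * (W 0 1 x16 x17 * (W 0 1 x17 x3 * (W 0 1 x0 x18 * (W 0 1 x18 x19 * (W 0 1 x19 x20 * (W 0 1 x20 x3 * 1)))))))))))))))))))))))) := by
    rw [sum_cons]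
    refine sum_congr rfl fun x0 _ => ?_
    rw [sum_cons]
    refine sum_congr rfl fun x1 _ => ?_
    rw [sum_cons]
    refine sum_congr rfl fun x2 _ => ?_
    rw [sum_cons]
    refine sum_congr rfl fun x3 _ => ?_
    rw [sum_cons]
    refine sum_congr rfl fun x4 _ => ?_
    rw [sum_cons]
    refine sum_congr rfl fun x5 _ => ?_
    rw [sum_cons]
    refine sum_congr rfl fun x6 _ => ?_
    rw [sum_cons]
    refine sum_congr rfl fun x7 _ => ?_
    rw [sum_cons]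
    refine sum_congr rfl fun x8 _ => ?_
    rw [sum_cons]
    refine sum_congr rfl fun x9 _ => ?_
    rw [sum_cons]
    refine sum_congr rfl fun x10 _ => ?_
    rw [sum_cons]
    refine sum_congr rfl fun x11 _ => ?_
    rw [sum_cons]
    refine sum_congr rfl fun x12 _ => ?_
    rw [sum_cons]
    refine sum_congr rfl fun x13 _ => ?_
    rw [sum_cons]
    refine sum_congr rfl fun x14 _ => ?_
    rw [sum_cons]
    refine sum_congr rfl fun x15 _ => ?_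
    rw [sum_cons]
    refine sum_congr rfl fun x16 _ => ?_
    rw [sum_cons]
    refine sum_congr rfl fun x17 _ => ?_
    rw [sum_cons]
    refine sum_congr rfl fun x18 _ => ?_
    rw [sum_cons]
    refine sum_congr rfl fun x19 _ => ?_
    rw [sum_cons]
    refine sum_congr rfl fun x20 _ => ?_
    rw [Fintype.sum_unique]
    rfl
  rw [h]
  exact (sum_congr rfl fun x0 _ => sum_congr rfl fun x1 _ => sum_congr rfl fun x2 _ =>
    sum_congr rfl fun x3 _ => inner k x0 x1 x2 x3).trans (K4 k _ _ _ _)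

theorem P_I : P Complex.I = 0 := by
  have h3 : s3 Complex.I = 1 - 3 * Complex.I := by
    simp only [s3, d2]; linear_combination Complex.I_sq
  have h3' : d3 Complex.I = 2 - 3 * Complex.I := by
    simp only [d3, s2, d2]; linear_combination Complex.I_sq
  have h4 : s4 Complex.I = 1 + 5 * Complex.I := by
    simp only [s4, h3']; linear_combination (-3) * Complex.I_sq
  have h4' : d4 Complex.I = 5 * Complex.I := by
    simp only [d4, h3, h3']; linear_combination (-3) * Complex.I_sq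
  simp only [P, h3, h3', h4, h4', Z]
  apply Complex.ext <;> norm_num

/-- The negation of the preceding statement: For every finite simple graph, its chromatic polynomial (the integer polynomial counting proper n-colourings at each natural n) has no root z with real part 0 and nonzero imaginary part. -/
theorem result :
    ¬ (∀ (V : Type) [Fintype V] (G : SimpleGraph V) (p : Polynomial ℤ),
      (∀ n : ℕ, p.eval (n : ℤ) = (Nat.card (G.Coloring (Fin n)) : ℤ)) →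
      ∀ z : ℂ, z.re = 0 → z.im ≠ 0 → Polynomial.aeval z p ≠ 0) := by
  intro h
  refine h (Fin 21) G (P Polynomial.X) (fun n => ?_) Complex.I Complex.I_re (by simp) ?_
  · rw [card_eq, total]
    simp only [P, Z, s2, d2, s3, d3, s4, d4, Polynomial.eval_add, Polynomial.eval_mul,
      Polynomial.eval_sub, Polynomial.eval_X, Polynomial.eval_one, Polynomial.eval_zero,
      Polynomial.eval_ofNat]
  · rw [← P_I]
    simp only [P, Z, s2, d2, s3, d3, s4, d4, map_add, map_mul, map_sub, Polynomial.aeval_X,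
      map_one, map_zero, map_ofNat]

end Pool.Agent.S09512
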