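import Pool.Statements.S09513
import Pool.Agent.H31.SimData

set_option autoImplicit false
open Pool Pool.MP_743f82_co

namespace Pool.Agent.S09513

open Pool.Agent.H31.SimData

abbrev V := Fin 6
def vs : List V := List.finRange 6

theorem mem_vs (v : V) : v ∈ vs := List.mem_finRange v

def bit (m : ℕ) (u v : V) : Bool := m.testBit (6 * u.val + v.val)

def bit2 (m : ℕ) (i j u v : V) : Bool :=
  bit m u v || (decide (u = i) && decide (v = j)) || (decide (u = j) && decide (v = i))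

def toV (n : ℕ) : V := ⟨n % 6, Nat.mod_lt _ (by norm_num)⟩

def tau (t : ℕ) (u : V) : V := toV (t / 6 ^ u.val)

def injB (f : V → V) : Bool := vs.all fun u => vs.all fun v => decide (u = v) || !decide (f u = f v)

def hasLine (p : V → V → Bool) (f : V → V) : Bool :=
  mins.any fun g => g.all fun e => p (f e.1) (f e.2)

def okAns (a b : ℕ) (i j : V) (c : Ans) : Bool :=
  injB (tau c.t) &&
  (if c.isLine then hasLine (bit2 b i j) (tau c.t) else
    (!decide (toV c.k = toV c.l) && !bit a (toV c.k) (toV c.l) && !bit2 b i j (toV c.k) (toV c.l) &&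
    (nodes.any fun r => r.a == c.a && r.b == c.b) &&
    vs.all fun u => vs.all fun v => decide (u = v) ||
      ((bit c.a u v == bit2 a (toV c.k) (toV c.l) (tau c.t u) (tau c.t v)) &&
       (bit c.b u v == bit2 b i j (tau c.t u) (tau c.t v)))))

def okNode (r : Node) : Bool :=
  (As.any fun a => a == r.a) &&
  (vs.any fun i => vs.any fun j => !decide (i = j) && !bit r.a i j && !bit r.b i j) &&
  vs.all fun i => vs.all fun j => !decide (i < j) || bit r.a i j || bit r.b i j ||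
    r.ans.any fun c => c.i == i.val && c.j == j.val && okAns r.a r.b i j c

def mk6 (x0 x1 x2 x3 x4 x5 : V) (u : V) : V :=
  if u = 0 then x0 else if u = 1 then x1 else if u = 2 then x2 else if u = 3 then x3 else
    if u = 4 then x4 else x5

def noLine (a : ℕ) : Bool :=
  vs.all fun x0 => vs.all fun x1 => decide (x1 = x0) ||
  vs.all fun x2 => decide (x2 = x0) || decide (x2 = x1) ||
  vs.all fun x3 => decide (x3 = x0) || decide (x3 = x1) || decide (x3 = x2) ||
  vs.all fun x4 => decide (x4 = x0) || decide (x4 = x1) || decide (x4 = x2) || decide (x4 = x3) ||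
  vs.all fun x5 => decide (x5 = x0) || decide (x5 = x1) || decide (x5 = x2) || decide (x5 = x3) ||
    decide (x5 = x4) || !hasLine (bit a) (mk6 x0 x1 x2 x3 x4 x5)

theorem nodes_ok : nodes.all okNode = true := by decide +kernel
theorem As_ok : As.all noLine = true := by decide +kernel
theorem mins_ne : ∀ g ∈ mins, ∀ e ∈ g, e.1 ≠ e.2 := by decide +kernel
theorem start_mem : (nodes.any fun r => r.a == 66 && r.b == 0) = true := by decide +kernel
theorem start_bit : ∀ u v : V, bit 66 u v = bit2 0 0 1 u v := by decide +kernel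

theorem noLine_spec (a : ℕ) (h : noLine a = true) (ρ : Equiv.Perm V) :
    hasLine (bit a) ρ = false := by
  have hm : mk6 (ρ 0) (ρ 1) (ρ 2) (ρ 3) (ρ 4) (ρ 5) = ρ := by
    funext u
    fin_cases u <;> rfl
  simp only [noLine, List.all_eq_true, Bool.or_eq_true, decide_eq_true_eq] at h
  have h1 := (h (ρ 0) (mem_vs _) (ρ 1) (mem_vs _)).resolve_left (by simp)
  have h2 := (h1 (ρ 2) (mem_vs _)).resolve_left (by simp)
  have h3 := (h2 (ρ 3) (mem_vs _)).resolve_left (by simp)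
  have h4 := (h3 (ρ 4) (mem_vs _)).resolve_left (by simp)
  have h5 := (h4 (ρ 5) (mem_vs _)).resolve_left (by simp)
  rw [hm] at h5
  simpa using h5

noncomputable def toPerm (f : V → V) (h : injB f = true) : Equiv.Perm V :=
  Equiv.ofBijective f (Finite.injective_iff_bijective.1 (by
    intro u v huv
    simp only [injB, List.all_eq_true, Bool.or_eq_true, decide_eq_true_eq] at h
    rcases h u (mem_vs _) v (mem_vs _) with h | h
    · exact h
    · simp [huv] at h))

def Rel (σ : Equiv.Perm V) (p : V → V → Bool) (s : Finset (Sym2 V)) : Prop :=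
  ∀ u v, u ≠ v → (s(σ u, σ v) ∈ s ↔ p u v = true)

theorem Rel.ins {σ : Equiv.Perm V} {m : ℕ} {s : Finset (Sym2 V)} (h : Rel σ (bit m) s) (i j : V) :
    Rel σ (bit2 m i j) (insert s(σ i, σ j) s) := by
  intro u v huv
  rw [Finset.mem_insert, h u v huv, Sym2.eq_iff]
  simp only [bit2, Bool.or_eq_true, Bool.and_eq_true, decide_eq_true_eq,
    EmbeddingLike.apply_eq_iff_eq]
  tauto

def L : Set (Finset (Sym2 V)) :=
  {ℓ | (ℓ.Nonempty ∧ ∀ x ∈ ℓ, ¬ x.IsDiag) ∧
    ∃ τ : Equiv.Perm V, ∃ g ∈ mins, ∀ e ∈ g, s(τ e.1, τ e.2) ∈ ℓ}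

def S (p : Finset (Sym2 V) × Finset (Sym2 V)) : Prop :=
  ∃ σ : Equiv.Perm V, ∃ r ∈ nodes, Rel σ (bit r.a) p.1 ∧ Rel σ (bit r.b) p.2

theorem S_noLine {p : Finset (Sym2 V) × Finset (Sym2 V)} (h : S p) : ∀ ℓ ∈ L, ¬ ℓ ⊆ p.1 := by
  obtain ⟨σ, r, hr, h1, -⟩ := h
  rintro ℓ ⟨-, τ, g, hg, hl⟩ hsub
  have hok := List.all_eq_true.1 nodes_ok r hr
  simp only [okNode, Bool.and_eq_true, List.any_eq_true, beq_iff_eq] at hok
  obtain ⟨⟨⟨a, ha, rfl⟩, -⟩, -⟩ := hok
  have hn := noLine_spec _ (List.all_eq_true.1 As_ok _ ha) (τ.trans σ.symm)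
  have : hasLine (bit r.a) (τ.trans σ.symm) = true := by
    simp only [hasLine, List.any_eq_true, List.all_eq_true]
    refine ⟨g, hg, fun e he => ?_⟩
    apply (h1 _ _ (by simpa using mins_ne g hg e he)).1
    simpa using hsub (hl e he)
  rw [this] at hn
  exact absurd hn (by simp)

theorem S_free {p : Finset (Sym2 V) × Finset (Sym2 V)} (h : S p) :
    ∃ e : Sym2 V, ¬ e.IsDiag ∧ e ∉ p.1 ∧ e ∉ p.2 := by
  obtain ⟨σ, r, hr, h1, h2⟩ := h
  have hok := List.all_eq_true.1 nodes_ok r hr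
  simp only [okNode, Bool.and_eq_true, List.any_eq_true, beq_iff_eq, Bool.not_eq_true',
    decide_eq_false_iff_not] at hok
  obtain ⟨⟨-, i, -, j, -, ⟨hij, ha⟩, hb⟩, -⟩ := hok
  refine ⟨s(σ i, σ j), by simpa using hij, ?_, ?_⟩
  · rw [h1 i j hij, ha]; simp
  · rw [h2 i j hij, hb]; simp

theorem S_step {p : Finset (Sym2 V) × Finset (Sym2 V)} (h : S p) (e : Sym2 V) (he : ¬ e.IsDiag)
    (he1 : e ∉ p.1) (he2 : e ∉ p.2) :
    (∃ ℓ ∈ L, ℓ ⊆ insert e p.2) ∨ ∃ f : Sym2 V, ¬ f.IsDiag ∧ f ∉ p.1 ∧ f ∉ insert e p.2 ∧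
      S (insert f p.1, insert e p.2) := by
  obtain ⟨σ, r, hr, h1, h2⟩ := h
  obtain ⟨i, j, hij, rfl⟩ : ∃ i j : V, i < j ∧ e = s(σ i, σ j) := by
    induction e using Sym2.ind with
    | h x y =>
      have hxy : σ.symm x ≠ σ.symm y := by simpa using he
      rcases lt_or_gt_of_ne hxy with h | h
      · exact ⟨_, _, h, by simp⟩
      · exact ⟨_, _, h, by simp [Sym2.eq_swap]⟩
  have hok := List.all_eq_true.1 nodes_ok r hr
  simp only [okNode, Bool.and_eq_true, List.all_eq_true, Bool.or_eq_true, List.any_eq_true] at hok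
  have hc := hok.2 i (mem_vs _) j (mem_vs _)
  have ha : ¬ bit r.a i j = true := fun h => he1 ((h1 i j hij.ne).2 h)
  have hb : ¬ bit r.b i j = true := fun h => he2 ((h2 i j hij.ne).2 h)
  obtain ⟨c, -, -, hc⟩ := hc.resolve_left (by simp [hij, ha, hb])
  simp only [okAns, Bool.and_eq_true] at hc
  obtain ⟨hinj, hc⟩ := hc
  have h2' := h2.ins i j
  let τ := toPerm _ hinj
  have hτ : ∀ u, τ u = tau c.t u := fun _ => rfl
  by_cases hl : c.isLine = true
  · rw [if_pos hl] at hc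
    simp only [hasLine, List.any_eq_true, List.all_eq_true] at hc
    obtain ⟨g, hg, hc⟩ := hc
    left
    refine ⟨(insert s(σ i, σ j) p.2).filter (fun x => ¬ x.IsDiag),
      ⟨⟨⟨s(σ i, σ j), by simpa using hij.ne⟩, fun x hx => (Finset.mem_filter.1 hx).2⟩,
        τ.trans σ, g, hg, fun e' he' => ?_⟩, Finset.filter_subset _ _⟩
    have hne := mins_ne g hg e' he'
    rw [Finset.mem_filter]
    refine ⟨?_, by simpa using hne⟩
    exact (h2' (τ e'.1) (τ e'.2) (by simpa using hne)).2 (hc e' he')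
  · rw [if_neg hl] at hc
    simp only [Bool.and_eq_true, Bool.not_eq_true', decide_eq_false_iff_not, List.any_eq_true,
      beq_iff_eq, List.all_eq_true, Bool.or_eq_true, decide_eq_true_eq] at hc
    obtain ⟨⟨⟨⟨hkl, hka⟩, hkb⟩, r', hr', hra, hrb⟩, hc⟩ := hc
    have h1' := h1.ins (toV c.k) (toV c.l)
    right
    refine ⟨s(σ (toV c.k), σ (toV c.l)), by simpa using hkl, ?_, ?_, τ.trans σ, r', hr', ?_, ?_⟩
    · rw [h1 _ _ hkl, hka]; simp
    · rw [h2' _ _ hkl, hkb]; simp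
    · intro u v huv
      rw [hra, ((hc u (mem_vs _) v (mem_vs _)).resolve_left huv).1]
      exact h1' (τ u) (τ v) (by simpa using huv)
    · intro u v huv
      rw [hrb, ((hc u (mem_vs _) v (mem_vs _)).resolve_left huv).2]
      exact h2' (τ u) (τ v) (by simpa using huv)

theorem rel_empty : Rel 1 (bit 0) ∅ := by
  intro u v _
  simp [bit]

theorem S_start : S (insert s((0 : V), (1 : V)) ∅, ∅) := by
  have h := start_mem
  simp only [List.any_eq_true, Bool.and_eq_true, beq_iff_eq] at h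
  obtain ⟨r, hr, ha, hb⟩ := h
  refine ⟨1, r, hr, ?_, ?_⟩
  · rw [ha]
    have : bit 66 = bit2 0 0 1 := by funext u v; exact start_bit u v
    rw [this]
    exact rel_empty.ins 0 1
  · rw [hb]; exact rel_empty


/-- Some n and some isomorphism-closed family of nonempty edge sets of K_n give an avoidance game (alternately claim edges, owning a whole line loses, full board is a draw) in which the first player can force the second player to lose. -/
theorem result :
  ∃ (n : ℕ) (L : Set (Finset (Sym2 (Fin n)))),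
    (∀ ℓ ∈ L, ℓ.Nonempty ∧ ∀ x ∈ ℓ, ¬ x.IsDiag) ∧
    (∀ σ : Equiv.Perm (Fin n), ∀ ℓ ∈ L, ℓ.image (Sym2.map ⇑σ) ∈ L) ∧
    ∃ W : Set (Finset (Sym2 (Fin n)) × Finset (Sym2 (Fin n))),
      ((∅ : Finset (Sym2 (Fin n))), (∅ : Finset (Sym2 (Fin n)))) ∈ W ∧
      ∀ p ∈ W,
        (p.1.card = p.2.card →
          ∃ e : Sym2 (Fin n), ¬ e.IsDiag ∧ e ∉ p.1 ∧ e ∉ p.2 ∧
            (∀ ℓ ∈ L, ¬ ℓ ⊆ insert e p.1) ∧ (insert e p.1, p.2) ∈ W) ∧
        (p.1.card = p.2.card + 1 →
          (∃ e : Sym2 (Fin n), ¬ e.IsDiag ∧ e ∉ p.1 ∧ e ∉ p.2) ∧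
          ∀ e : Sym2 (Fin n), ¬ e.IsDiag → e ∉ p.1 → e ∉ p.2 →
            (∃ ℓ ∈ L, ℓ ⊆ insert e p.2) ∨ (p.1, insert e p.2) ∈ W) := by
  refine ⟨6, L, fun ℓ h => h.1, ?_, {p | (p.1.card = p.2.card + 1 ∧ S p) ∨
    (p.1.card = p.2.card ∧ ∃ f : Sym2 V, ¬ f.IsDiag ∧ f ∉ p.1 ∧ f ∉ p.2 ∧ S (insert f p.1, p.2))},
    Or.inr ⟨rfl, s((0 : V), (1 : V)), by simp, by simp, by simp, S_start⟩, ?_⟩
  · rintro σ ℓ ⟨⟨hne, hd⟩, τ, g, hg, hl⟩
    refine ⟨⟨hne.image _, ?_⟩, τ.trans σ, g, hg, fun e he => ?_⟩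
    · intro x hx
      obtain ⟨y, hy, rfl⟩ := Finset.mem_image.1 hx
      rw [Sym2.isDiag_map σ.injective]
      exact hd y hy
    · exact Finset.mem_image.2 ⟨_, hl e he, by simp⟩
  · rintro p (⟨hc, hS⟩ | ⟨hc, f, hf, hf1, hf2, hS⟩)
    · refine ⟨fun h => by omega, fun _ => ⟨S_free hS, fun e he he1 he2 => ?_⟩⟩
      rcases S_step hS e he he1 he2 with h | h
      · exact Or.inl h
      · refine Or.inr (Or.inr ⟨?_, h⟩)
        simp only [Finset.card_insert_of_notMem he2, hc]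
    · refine ⟨fun _ => ⟨f, hf, hf1, hf2, S_noLine hS, Or.inl ⟨?_, hS⟩⟩, fun h => by omega⟩
      simp only [Finset.card_insert_of_notMem hf1, hc]

end Pool.Agent.S09513
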