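import Pool.Statements.S09534
import Pool.Agent.H19.Spec
import Pool.Agent.H19.Circ

set_option autoImplicit false
open Classical
open Pool Pool.MP_7523ff_co

namespace Pool.Agent.S09534

/-- The negation of the preceding statement: There are α in (0,2), c>0 and n0 such that for n≥n0 and c·n^α ≤ m ≤ C(n,2), every connected n-vertex m-edge graph of least spectral radius is r-colorable, where e(T(n,r−1)) < m ≤ e(T(n,r)). -/
theorem result :
    ¬ (∃ α : ℝ, 0 < α ∧ α < 2 ∧ ∃ c : ℝ, 0 < c ∧ ∃ n₀ : ℕ, ∀ n : ℕ, n₀ ≤ n →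
      ∀ m : ℕ, c * (n : ℝ) ^ α ≤ (m : ℝ) → m ≤ n.choose 2 →
      ∀ G : SimpleGraph (Fin n), G.Connected → G.edgeSet.ncard = m →
        (∀ H : SimpleGraph (Fin n), H.Connected → H.edgeSet.ncard = m →
          sSup (spectrum ℝ (G.adjMatrix ℝ)) ≤ sSup (spectrum ℝ (H.adjMatrix ℝ))) →
        ∀ r : ℕ, 2 ≤ r →
          (SimpleGraph.turanGraph n (r - 1)).edgeSet.ncard < m →
          m ≤ (SimpleGraph.turanGraph n r).edgeSet.ncard →
          G.Colorable r) := by
  rintro ⟨α, hα0, hα2, c, hc, n₀, h⟩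
  -- choose k large
  have hlim : Filter.Tendsto (fun x : ℝ => c * x ^ (-(2 - α))) Filter.atTop (nhds (c * 0)) :=
    (tendsto_rpow_neg_atTop (by linarith)).const_mul c
  rw [mul_zero] at hlim
  have hev : ∀ᶠ x : ℝ in Filter.atTop, c * x ^ (-(2 - α)) < 1 / 10 :=
    hlim.eventually (gt_mem_nhds (by norm_num))
  obtain ⟨X, hX⟩ := Filter.eventually_atTop.1 hev
  obtain ⟨N, hN⟩ := exists_nat_ge X
  set k := N + n₀ + 2 with hk
  have hk2 : 2 ≤ k := by omega
  set G := H19.circ k with hG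
  have hE := H19.circ_edges k
  have hge := H19.circ_deg_ge k
  have hle := H19.circ_deg_le k
  rw [← hG] at hE hge hle
  set m := G.edgeSet.ncard with hm
  set d := G.degree 0 with hd
  have hm1 : (4 * k + 1) * k ≤ 2 * m := by rw [hE]; exact Nat.mul_le_mul_left _ hge
  have hm2 : m ≤ (4 * k + 1) * k := by
    have : 2 * m ≤ (4 * k + 1) * (2 * k) := by rw [hE]; exact Nat.mul_le_mul_left _ hle
    nlinarith
  refine H19.circ_not_col k hk2 (h (4 * k + 1) (by omega) m ?_ ?_ G (H19.circ_conn k hk2) rfl ?_ 2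
    le_rfl ?_ ?_)
  · have hpos : (0 : ℝ) < ((4 * k + 1 : ℕ) : ℝ) := by positivity
    have h1 := hX ((4 * k + 1 : ℕ) : ℝ) (by
      have : (N : ℝ) ≤ ((4 * k + 1 : ℕ) : ℝ) := by exact_mod_cast (by omega)
      linarith)
    have h2 : ((4 * k + 1 : ℕ) : ℝ) ^ α
        = ((4 * k + 1 : ℕ) : ℝ) ^ (-(2 - α)) * ((4 * k + 1 : ℕ) : ℝ) ^ 2 := by
      rw [← Real.rpow_natCast _ 2, ← Real.rpow_add hpos]
      congr 1
      push_cast
      ring
    rw [h2, ← mul_assoc]
    have h3 : ((4 * k + 1 : ℕ) : ℝ) ^ 2 ≤ 10 * m := by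
      have : (4 * k + 1) ^ 2 ≤ 10 * m := by nlinarith
      exact_mod_cast this
    have h4 : (0 : ℝ) < ((4 * k + 1 : ℕ) : ℝ) ^ 2 := by positivity
    nlinarith
  · rw [Nat.choose_two_right]
    have : (4 * k + 1) * (4 * k + 1 - 1) = 2 * ((4 * k + 1) * (2 * k)) := by
      simp only [Nat.add_sub_cancel]; ring
    rw [this, Nat.mul_div_cancel_left _ (by norm_num)]
    nlinarith
  · intro H _ hH
    have h1 := H19.adj_sSup_le G d (fun v => by
      have := H19.circ_deg k v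
      convert this)
    have h2 := H19.adj_sSup_ge H
    rw [hH, Fintype.card_fin] at h2
    have h3 : (2 * m : ℝ) = ((4 * k + 1 : ℕ) : ℝ) * d := by exact_mod_cast hE
    have hpos : (0 : ℝ) < ((4 * k + 1 : ℕ) : ℝ) := by positivity
    rw [h3] at h2
    have h4 : (d : ℝ) ≤ sSup (spectrum ℝ (H.adjMatrix ℝ)) := by
      by_contra hcon
      push Not at hcon
      nlinarith
    exact le_trans (by convert h1) h4
  · have : (SimpleGraph.turanGraph (4 * k + 1) (2 - 1)) = ⊥ := by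
      ext u v
      simp [SimpleGraph.turanGraph, Nat.mod_one]
    rw [this]
    simp only [SimpleGraph.edgeSet_bot, Set.ncard_empty]
    nlinarith
  · rw [← SimpleGraph.coe_edgeFinset, Set.ncard_coe_finset, SimpleGraph.card_edgeFinset_turanGraph]
    have h1 : (4 * k + 1) % 2 = 1 := by omega
    rw [h1]
    have h2 : ((4 * k + 1) ^ 2 - 1 ^ 2) = 4 * (4 * k ^ 2 + 2 * k) := by
      have : (4 * k + 1) ^ 2 = 4 * (4 * k ^ 2 + 2 * k) + 1 ^ 2 := by ring
      rw [this, Nat.add_sub_cancel]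
    rw [h2]
    norm_num
    nlinarith

end Pool.Agent.S09534
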