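import Pool.Statements.S09566
-- import your own Pool.Agent.* helpers here

set_option autoImplicit false
open Pool Pool.MP_766cb7_co

namespace Pool.Agent.S09566

/-- The ground type. -/
abbrev E := ℕ × Fin 3

/-- `A` is carried into `B` by a permutation moving finitely many points. -/
def Le (A B : Set E) : Prop :=
  ∃ σ : Equiv.Perm E, {x | σ x ≠ x}.Finite ∧ Set.MapsTo σ A B

lemma Le.of_subset {A B : Set E} (h : A ⊆ B) : Le A B :=
  ⟨1, by simp, fun _ hx => h hx⟩

lemma Le.trans {A B C : Set E} (h : Le A B) (h' : Le B C) : Le A C := by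
  obtain ⟨σ, hs, hm⟩ := h
  obtain ⟨τ, ht, hn⟩ := h'
  refine ⟨σ.trans τ, (hs.union ht).subset fun x hx => ?_, fun x hx => hn (hm hx)⟩
  by_contra hc
  simp only [Set.mem_union, Set.mem_setOf_eq, not_or, not_not] at hc
  exact hx (by simp [hc.1, hc.2])

lemma fin_symm {σ : Equiv.Perm E} (hs : {x | σ x ≠ x}.Finite) : {x | σ.symm x ≠ x}.Finite :=
  hs.subset fun x hx hc => hx (by rw [Equiv.symm_apply_eq]; exact hc.symm)

lemma le_image {σ : Equiv.Perm E} (hs : {x | σ x ≠ x}.Finite) (A : Set E) : Le A (σ '' A) :=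
  ⟨σ, hs, Set.mapsTo_image _ _⟩

lemma image_le {σ : Equiv.Perm E} (hs : {x | σ x ≠ x}.Finite) (A : Set E) : Le (σ '' A) A :=
  ⟨σ.symm, fin_symm hs, by rintro _ ⟨x, hx, rfl⟩; simpa using hx⟩

lemma Le.finite_diff {A B : Set E} (h : Le A B) : (A \ B).Finite := by
  obtain ⟨σ, hs, hm⟩ := h
  refine hs.subset fun x hx hc => hx.2 ?_
  have := hm hx.1
  rwa [hc] at this

lemma Le.eq_of_subset {U W : Set E} (h : Le U W) (hW : W ⊆ U) : U ⊆ W := by
  obtain ⟨σ, hs, hm⟩ := h
  have hf : ({x | σ x ≠ x} ∩ U).Finite := hs.inter_of_left U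
  have hmap : Set.MapsTo σ ({x | σ x ≠ x} ∩ U) ({x | σ x ≠ x} ∩ U) :=
    fun x hx => ⟨fun e => hx.1 (σ.injective e), hW (hm hx.2)⟩
  have hb := (hf.injOn_iff_bijOn_of_mapsTo hmap).mp σ.injective.injOn
  intro u hu
  by_cases e : σ u = u
  · have := hm hu
    rwa [e] at this
  · obtain ⟨x, hx, rfl⟩ := hb.surjOn ⟨e, hu⟩
    exact hm hx.2

lemma le_swap (X : Set E) (p q : E) (hq : q ∉ X) : Le (insert p X) (insert q X) := by
  by_cases hp : p ∈ X
  · exact Le.of_subset (Set.insert_subset (Or.inr hp) (Set.subset_insert _ _))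
  refine ⟨Equiv.swap p q, ((Set.finite_singleton q).insert p).subset fun x hx => ?_, ?_⟩
  · by_contra hc
    simp only [Set.mem_insert_iff, Set.mem_singleton_iff, not_or] at hc
    exact hx (Equiv.swap_apply_of_ne_of_ne hc.1 hc.2)
  · rintro x (rfl | hx)
    · simp
    · rw [Equiv.swap_apply_of_ne_of_ne (a := p) (b := q) (x := x) (fun e => hp (e ▸ hx))
        (fun e => hq (e ▸ hx))]
      exact Or.inr hx

open Classical in
/-- Swap two letters in the columns indexed by `T`. -/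
noncomputable def sw (T : Set ℕ) (a b : Fin 3) : Equiv.Perm E :=
  Equiv.prodCongrRight fun n => if n ∈ T then Equiv.swap a b else 1

lemma sw_mem {T : Set ℕ} {a b : Fin 3} {n : ℕ} (h : n ∈ T) (c : Fin 3) :
    sw T a b (n, c) = (n, Equiv.swap a b c) := by simp [sw, h]

lemma sw_not {T : Set ℕ} {a b : Fin 3} {n : ℕ} (h : n ∉ T) (c : Fin 3) :
    sw T a b (n, c) = (n, c) := by simp [sw, h]

lemma sw_fin {T : Set ℕ} (hT : T.Finite) (a b : Fin 3) : {x | sw T a b x ≠ x}.Finite := by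
  refine (hT.prod (Set.finite_univ (α := Fin 3))).subset ?_
  rintro ⟨n, c⟩ hx
  refine ⟨?_, trivial⟩
  by_contra h
  exact hx (sw_not h c)

/-- The first prescribed base. -/
def B0 : Set E := {x | x.2 ≠ 1}

/-- The other prescribed bases. -/
def BZ (Z : Set ℕ) : Set E := {x | (x.1 ∉ Z ∧ x.2 = 0) ∨ (x.1 ∈ Z ∧ x.2 = 1)}

/-- Families in which comparable members are equivalent. -/
def Good (F : Set (Set E)) : Prop := ∀ B ∈ F, ∀ C ∈ F, Le B C → Le C B

/-- The prescribed family. -/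
def F0 : Set (Set E) := {B | B = B0 ∨ ∃ Z : Set ℕ, Z.Infinite ∧ B = BZ Z}

lemma good_F0 : Good F0 := by
  rintro B (rfl | ⟨Z, hZ, rfl⟩) C (rfl | ⟨Y, hY, rfl⟩) h
  · exact h
  · exfalso
    have h1 : (Set.range fun n : ℕ => ((n, 2) : E)).Infinite :=
      Set.infinite_range_of_injective fun a b e => congrArg Prod.fst e
    refine h1 (h.finite_diff.subset ?_)
    rintro _ ⟨n, rfl⟩
    simp [B0, BZ]
  · exfalso
    have h1 : ((fun n : ℕ => ((n, 1) : E)) '' Z).Infinite :=
      hZ.image fun a _ b _ e => congrArg Prod.fst e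
    refine h1 (h.finite_diff.subset ?_)
    rintro _ ⟨n, hn, rfl⟩
    simp [B0, BZ, hn]
  · have h1 : (Prod.fst '' (BZ Z \ BZ Y)).Finite := h.finite_diff.image _
    have hm : ∀ n, n ∈ Prod.fst '' (BZ Z \ BZ Y) ↔ ¬ (n ∈ Z ↔ n ∈ Y) := by
      intro n
      constructor
      · rintro ⟨⟨m, c⟩, ⟨h2, h3⟩, rfl⟩ hi
        apply h3
        simp only [BZ, Set.mem_setOf_eq] at h2 ⊢
        rwa [← hi]
      · intro hi
        by_cases hn : n ∈ Z
        · exact ⟨(n, 1), by simp [BZ, hn]; tauto, rfl⟩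
        · exact ⟨(n, 0), by simp [BZ, hn]; tauto, rfl⟩
    refine ⟨sw _ 0 1, sw_fin h1 0 1, ?_⟩
    rintro ⟨n, c⟩ hx
    by_cases hn : n ∈ Prod.fst '' (BZ Z \ BZ Y)
    · rw [sw_mem hn]
      rw [hm] at hn
      rcases hx with ⟨h2, h3⟩ | ⟨h2, h3⟩ <;> simp only at h2 h3 <;> subst h3
      · right; exact ⟨by tauto, by simp⟩
      · left; exact ⟨by tauto, by simp⟩
    · rw [sw_not hn]
      rw [hm, not_not] at hn
      simp only [BZ, Set.mem_setOf_eq] at hx ⊢
      rwa [hn]

lemma exists_max : ∃ F, F0 ⊆ F ∧ Maximal Good F := by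
  refine zorn_subset_nonempty {F | Good F} (fun c hc hch _ => ⟨⋃₀ c, ?_, fun s hs =>
    Set.subset_sUnion_of_mem hs⟩) F0 good_F0
  rintro B ⟨F, hF, hB⟩ C ⟨G, hG, hC⟩
  rcases hch.total hF hG with h | h
  · exact hc hG B (h hB) C hC
  · exact hc hF B hB C (h hC)

/-- Spanning sets. -/
def Sp (F : Set (Set E)) (A : Set E) : Prop := ∃ B ∈ F, Le B A

lemma Sp.mono {F : Set (Set E)} {A C : Set E} (h : Sp F A) (h' : Le A C) : Sp F C := by
  obtain ⟨B, hB, hl⟩ := h
  exact ⟨B, hB, hl.trans h'⟩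

lemma min_sp {F : Set (Set E)} (hF : Good F) {B U W : Set E} (hB : B ∈ F) (hU : Le U B)
    (hW : W ⊆ U) (hs : Sp F W) : U ⊆ W := by
  obtain ⟨C, hC, hl⟩ := hs
  have h1 : Le C B := (hl.trans (Le.of_subset hW)).trans hU
  exact ((hU.trans (hF C hC B hB h1)).trans hl).eq_of_subset hW

/-- The operator. -/
def cl (F : Set (Set E)) (A : Set E) : Set E := {x | Sp F A ∨ x ∈ A}

lemma mem_cl {F : Set (Set E)} {A : Set E} {x : E} : x ∈ cl F A ↔ Sp F A ∨ x ∈ A := Iff.rfl

lemma max_of {F : Set (Set E)} {Y V : Set E} {p : E} (hY : Y ⊆ V) (hV : p ∉ cl F V)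
    (hs : Sp F (insert p V)) :
    Maximal (fun W : Set E => Y ⊆ W ∧ W ⊆ Set.univ ∧ p ∉ cl F W) V ∧
      cl F (insert p V) = Set.univ := by
  refine ⟨⟨⟨hY, Set.subset_univ _, hV⟩, fun W hW hVW q hq => ?_⟩,
    Set.eq_univ_of_forall fun x => Or.inl hs⟩
  by_contra hqV
  exact hW.2.2 (Or.inl ((hs.mono (le_swap V p q hqV)).mono
    (Le.of_subset (Set.insert_subset hq hVW))))

/-- The negation of the preceding statement: Let f on subsets of S be increasing, monotone, idempotent and have the exchange property, and satisfy (C) and (H) with independent and spanning defined via f. Then some matroid (B-matroid) on S has closure equal to f. -/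
theorem result :
    ¬ (∀ (α : Type) (S : Set α) (f : Set α → Set α),
      (∀ X, X ⊆ S → f X ⊆ S) →
      (∀ X, X ⊆ S → X ⊆ f X) →
      (∀ X Y, X ⊆ Y → Y ⊆ S → f X ⊆ f Y) →
      (∀ X, X ⊆ S → f (f X) = f X) →
      (∀ X, X ⊆ S → ∀ p ∈ S, ∀ q, q ∈ f (insert p X) → q ∉ f X → p ∈ f (insert q X)) →
      (∀ Y, Y ⊆ S → ∀ p ∈ f Y, ∃ U : Set α,
          Minimal (fun W : Set α => W ⊆ Y ∧ p ∈ f W) U ∧
          ∀ x ∈ U, x ∉ f (U \ {x})) →
      (∀ Y, Y ⊆ S → ∀ p ∈ S, p ∉ f Y → ∃ V : Set α,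
          Maximal (fun W : Set α => Y ⊆ W ∧ W ⊆ S ∧ p ∉ f W) V ∧
          f (insert p V) = S) →
      ∃ M : Matroid α, M.E = S ∧ ∀ X, X ⊆ S → M.closure X = f X) := by
  intro h
  obtain ⟨F, h0, hmax⟩ := exists_max
  have hF : Good F := hmax.prop
  have hB0 : B0 ∈ F := h0 (Or.inl rfl)
  have hBZ : ∀ Z : Set ℕ, Z.Infinite → BZ Z ∈ F := fun Z hZ => h0 (Or.inr ⟨Z, hZ, rfl⟩)
  have nsp : ∀ W : Set E, W ⊆ B0 → ∀ x ∈ B0, x ∉ W → ¬ Sp F W := fun W hW x hx hxW hs =>
    hxW (min_sp hF hB0 (Le.of_subset subset_rfl) hW hs hx)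
  obtain ⟨M, hE, hM⟩ := h E Set.univ (cl F) (fun _ _ => Set.subset_univ _)
    (fun X _ x hx => Or.inr hx)
    (fun X Y hXY _ x hx => hx.elim (fun hs => Or.inl (hs.mono (Le.of_subset hXY)))
      fun hx => Or.inr (hXY hx))
    (by
      intro X _
      by_cases hs : Sp F X
      · ext x
        exact ⟨fun _ => Or.inl hs, fun hx => Or.inr hx⟩
      · have : cl F X = X := by ext x; simp [mem_cl, hs]
        rw [this, this])
    (by
      intro X _ p _ q hq hq'
      rw [mem_cl, not_or] at hq'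
      rcases hq with hs | rfl | hq
      · exact Or.inl (hs.mono (le_swap X p q hq'.2))
      · exact Or.inr (Or.inl rfl)
      · exact absurd hq hq'.2)
    (by
      intro Y _ p hp
      have hemp : ¬ Sp F ∅ := nsp ∅ (Set.empty_subset _) (0, 0) (by simp [B0]) (by simp)
      by_cases hpY : p ∈ Y
      · refine ⟨{p}, ⟨⟨by simpa using hpY, Or.inr rfl⟩, fun W hW hWp => ?_⟩, ?_⟩
        · rcases hW.2 with hs | hs
          · rcases Set.subset_singleton_iff_eq.mp hWp with rfl | rfl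
            · exact absurd hs hemp
            · exact subset_rfl
          · simpa using hs
        · rintro x rfl
          simp [mem_cl, hemp]
      · obtain ⟨B, hB, σ, hσ, hm⟩ := hp.resolve_right hpY
        have hU : σ '' B ⊆ Y := hm.image_subset
        refine ⟨σ '' B, ⟨⟨hU, Or.inl ⟨B, hB, le_image hσ B⟩⟩, fun W hW hWU => ?_⟩, ?_⟩
        · exact min_sp hF hB (image_le hσ B) hWU (hW.2.resolve_right fun e => hpY (hW.1 e))
        · rintro x hx (hs | hs)
          · exact (min_sp hF hB (image_le hσ B) Set.sdiff_subset hs hx).2 rfl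
          · exact hs.2 rfl)
    (by
      intro Y _ p _ hp
      by_cases hs : Sp F (insert p Y)
      · exact ⟨Y, max_of subset_rfl hp hs⟩
      · have hex : ∃ B ∈ F, Le (insert p Y) B := by
          by_contra hc
          have hg : Good (insert (insert p Y) F) := by
            rintro B (rfl | hB) C (rfl | hC) hl
            · exact hl
            · exact absurd ⟨C, hC, hl⟩ hc
            · exact absurd ⟨B, hB, hl⟩ hs
            · exact hF B hB C hC hl
          exact hs ⟨_, hmax.2 hg (Set.subset_insert _ _) (Or.inl rfl), Le.of_subset subset_rfl⟩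
        obtain ⟨B, hB, σ, hσ, hm⟩ := hex
        have hsub : insert p Y ⊆ σ.symm '' B := fun x hx => ⟨σ x, hm hx, by simp⟩
        have hpB : p ∈ σ.symm '' B := hsub (Or.inl rfl)
        rw [mem_cl, not_or] at hp
        refine ⟨(σ.symm '' B) \ {p}, max_of
          (fun y hy => ⟨hsub (Or.inr hy), fun e => hp.2 (e ▸ hy)⟩) ?_ ?_⟩
        · rintro (h1 | h1)
          · exact (min_sp hF hB (image_le (fin_symm hσ) B) Set.sdiff_subset h1 hpB).2 rfl
          · exact h1.2 rfl
        · refine ⟨B, hB, (le_image (fin_symm hσ) B).trans (Le.of_subset fun x hx => ?_)⟩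
          by_cases e : x = p
          · exact Or.inl e
          · exact Or.inr ⟨hx, e⟩)
  have hcl : ∀ X, M.closure X = cl F X := fun X => hM X (Set.subset_univ _)
  have hI : M.Indep {x : E | x.2 = 0} := by
    rw [Matroid.indep_iff_forall_notMem_closure_sdiff (by simp [hE])]
    rintro e he
    rw [hcl]
    rintro (hs | hs)
    · refine nsp _ (fun x hx => ?_) (0, 2) (by simp [B0]) (by simp) hs
      have : x.2 = 0 := hx.1
      simp [B0, this]
    · exact hs.2 rfl
  obtain ⟨J, hJ, hIJ⟩ := hI.subset_isBasis_of_subset (X := {x : E | x.2 ≠ 2})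
    (fun x hx => by
      have : x.2 = 0 := hx
      simp [this]) (by simp [hE])
  have hJX := hJ.subset
  have hXJ := hJ.subset_closure
  rw [hcl] at hXJ
  have hsJ : Sp F J := by
    by_contra hc
    refine hc ⟨_, hBZ Set.univ Set.infinite_univ, Le.of_subset fun x hx => ?_⟩
    refine (hXJ ?_).resolve_left hc
    rcases hx with hx | hx <;> simp [hx.2]
  by_cases hT : {n : ℕ | ((n, 1) : E) ∈ J}.Finite
  · obtain ⟨n, hn⟩ := hT.exists_notMem
    refine nsp (B0 \ {(n, 2)}) Set.sdiff_subset (n, 2) (by simp [B0]) (by simp)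
      (hsJ.mono ⟨sw _ 1 2, sw_fin hT 1 2, ?_⟩)
    rintro ⟨m, c⟩ hx
    have hc : c ≠ 2 := hJX hx
    by_cases hm : m ∈ {n : ℕ | ((n, 1) : E) ∈ J}
    · rw [sw_mem hm]
      refine ⟨?_, fun e => hn ?_⟩
      · change Equiv.swap (1 : Fin 3) 2 c ≠ 1
        exact (by decide : ∀ d : Fin 3, d ≠ 2 → Equiv.swap (1 : Fin 3) 2 d ≠ 1) c hc
      · have : m = n := congrArg Prod.fst e
        rwa [← this]
    · rw [sw_not hm]
      refine ⟨?_, fun e => hc (congrArg Prod.snd e)⟩
      rintro (rfl : c = 1)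
      exact hm hx
  · have hT' : {n : ℕ | ((n, 1) : E) ∈ J}.Infinite := hT
    obtain ⟨n, hn⟩ := hT'.nonempty
    have hnJ : ((n, 0) : E) ∈ J := hIJ rfl
    have := hJ.indep.notMem_closure_sdiff_of_mem hnJ
    rw [hcl] at this
    refine this (Or.inl ⟨_, hBZ _ hT', Le.of_subset ?_⟩)
    rintro ⟨m, c⟩ (⟨h1, h2⟩ | ⟨h1, h2⟩) <;> simp only at h1 h2 <;> subst h2
    · refine ⟨hIJ rfl, fun e => h1 ?_⟩
      have : m = n := congrArg Prod.fst e
      rwa [this]
    · exact ⟨h1, by simp⟩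

end Pool.Agent.S09566
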