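import Pool.Statements.S09654
import Pool.Agent.H13.Pat2

set_option autoImplicit false
open Pool Pool.MP_7ad145_co

namespace Pool.Agent.S09654

open Pool.Agent.H13.Pat in
/-- The negation of the preceding statement: Fix r,k≥2, a linear k-graph F with ex(n,F)=o(n^k), and a pattern of F with t≥3 classes. For large n, no n-vertex k-graph has more r-edge-colourings avoiding F in that pattern than the complete k-graph, with equality only for it. -/
theorem result :
    ¬ (∀ (r k m t : ℕ), 2 ≤ r → 2 ≤ k → 3 ≤ t →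
  ∀ (F : Finset (Finset (Fin m))),
    (∀ e ∈ F, e.card = k) →
    (∀ e ∈ F, ∀ e' ∈ F, e ≠ e' → (e ∩ e').card ≤ 1) →
    (∀ ε : ℝ, 0 < ε → ∃ N : ℕ, ∀ n : ℕ, N ≤ n → ∀ H : Finset (Finset (Fin n)),
       (∀ e ∈ H, e.card = k) →
       (¬ ∃ φ : Fin m → Fin n, Function.Injective φ ∧ ∀ e ∈ F, e.image φ ∈ H) →
       (H.card : ℝ) ≤ ε * (n : ℝ) ^ k) →
    ∀ (p : Finset (Fin m) → Fin t), (∀ i : Fin t, ∃ e ∈ F, p e = i) →
    ∃ n₀ : ℕ, ∀ n : ℕ, n₀ ≤ n →
      ∀ C : Finset (Finset (Fin n)) → ℕ,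
        (∀ H : Finset (Finset (Fin n)),
          C H = Nat.card {c : Finset (Fin n) → Option (Fin r) //
            (∀ e : Finset (Fin n), c e = none ↔ e ∉ H) ∧
            ¬ ∃ φ : Fin m → Fin n, Function.Injective φ ∧
                (∀ e ∈ F, e.image φ ∈ H) ∧
                (∀ e ∈ F, ∀ e' ∈ F,
                  (c (e.image φ) = c (e'.image φ) ↔ p e = p e'))}) →
        ∀ H : Finset (Finset (Fin n)), (∀ e ∈ H, e.card = k) →
          C H ≤ C (Finset.powersetCard k (Finset.univ : Finset (Fin n))) ∧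
          (C H = C (Finset.powersetCard k (Finset.univ : Finset (Fin n))) ↔
            H = Finset.powersetCard k (Finset.univ : Finset (Fin n)))) := by
  intro h
  obtain ⟨n₀, h⟩ := h 3 2 16 3 (by norm_num) le_rfl le_rfl F (by
    simp only [F, Finset.mem_insert, Finset.mem_singleton, forall_eq_or_imp, forall_eq]
    decide) (by
    simp only [F, Finset.mem_insert, Finset.mem_singleton, forall_eq_or_imp, forall_eq]
    refine ⟨?_, ?_, ?_, ?_, ?_, ?_, ?_, ?_, ?_, ?_, ?_, ?_⟩ <;> decide) (by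
    intro ε hε
    refine ⟨⌈20 / ε⌉₊, fun n hn H hH hc => ?_⟩
    have h1 := exb H hH fun ⟨φ, h1, h2⟩ => hc ⟨φ, h1, h2⟩
    rw [Fintype.card_fin] at h1
    have h2 : 20 / ε ≤ n := Nat.ceil_le.1 hn
    rw [div_le_iff₀ hε] at h2
    have h3 : (H.card : ℝ) ≤ 20 * n := by exact_mod_cast h1
    nlinarith [Nat.cast_nonneg (α := ℝ) n]) p (by
    intro i
    fin_cases i
    exacts [⟨{0, 1}, by decide, by decide⟩, ⟨{0, 12}, by decide, by decide⟩,
      ⟨{2, 5}, by decide, by decide⟩])
  obtain ⟨n, h1, h2, h3⟩ := (asym.and ((Filter.eventually_ge_atTop n₀).and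
    (Filter.eventually_ge_atTop 2))).exists
  obtain ⟨t, ht, hl⟩ := lb (V := Fin n) (u := ⟨0, by omega⟩) (v := ⟨1, by omega⟩) (by simp)
  have hu := ub (V := Fin n)
  have h4 := (h n h2 (fun H => Nat.card (Fr H)) (fun _ => rfl) ((Finset.powersetCard 2
    Finset.univ).erase {(⟨0, by omega⟩ : Fin n), (⟨1, by omega⟩ : Fin n)}) fun e he =>
    (Finset.mem_powersetCard.1 (Finset.mem_erase.1 he).2).2).1
  rw [Fintype.card_fin] at ht hu
  have h5 := h1 (Finset.powersetCard 2 (Finset.univ : Finset (Fin n))).card t (by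
    rw [Finset.card_powersetCard, Finset.card_univ, Fintype.card_fin, Nat.choose_two_right,
      Nat.two_mul_div_two_of_even (Nat.even_mul_pred_self n)]) ht
  exact absurd (hl.trans ((Nat.cast_le.2 h4).trans hu)) h5.not_ge

end Pool.Agent.S09654
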