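import Pool.Statements.S09655
-- import your own Pool.Agent.* helpers here

set_option autoImplicit false
open Pool Pool.MP_7ae277_co

namespace Pool.Agent.S09655

open Filter Finset Polynomial

lemma ex_lim {κ : Type} [Finite κ] (f : ℕ → κ) : ∃ a, ∀ᶠ n in (hyperfilter ℕ : Filter ℕ), f n = a :=
  Ultrafilter.eventually_exists_iff.1 (Eventually.of_forall fun n => ⟨f n, rfl⟩)

noncomputable def ulim {κ : Type} [Finite κ] (f : ℕ → κ) : κ := (ex_lim f).choose

lemma ulim_spec {κ : Type} [Finite κ] (f : ℕ → κ) :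
    ∀ᶠ n in (hyperfilter ℕ : Filter ℕ), f n = ulim f := (ex_lim f).choose_spec

lemma ge_ev (m : ℕ) : ∀ᶠ n in (hyperfilter ℕ : Filter ℕ), m ≤ n :=
  Nat.hyperfilter_le_atTop (eventually_ge_atTop m)

noncomputable def chi {κ : Type} [Finite κ] (c : (ℕ → ℤ) → κ) : List ℤ → (ℕ → ℤ) → κ
  | [], x => c x
  | a :: w, x => ulim fun p => chi c w (x + Pi.single p a)

lemma chi_filter {κ : Type} [Finite κ] (c : (ℕ → ℤ) → κ) (w : List ℤ) :
    chi c (w.filter (· ≠ 0)) = chi c w := by
  induction w with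
  | nil => rfl
  | cons a w ih =>
    funext x
    by_cases h : a = 0
    · subst h
      obtain ⟨p, hp⟩ := (ulim_spec fun p => chi c w (x + Pi.single p 0)).exists
      rw [List.filter_cons_of_neg (by simp), ih, chi, ← hp]; simp
    · rw [List.filter_cons_of_pos (by simpa using h), chi, chi, ih]

def raw (e : ℤ) (A : List (ℤ × ℤ)) : List ℤ := A.map fun p => p.1 + e * p.2
def row (e : ℤ) (A : List (ℤ × ℤ)) : List ℤ := (raw e A).filter (· ≠ 0)
def nrm (A : List (ℤ × ℤ)) : ℕ := (A.map fun p => p.2.natAbs).sum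

lemma cols {κ : Type} [Finite κ] (c : (ℕ → ℤ) → κ) (A : List (ℤ × ℤ)) : ∀ (x v : ℕ → ℤ) (m : ℕ),
    (∀ i, m ≤ i → v i = 0) → ∃ (x' v' : ℕ → ℤ) (m' : ℕ), (∀ i, m' ≤ i → v' i = 0) ∧
    ∑ i ∈ range m', |v' i| = ∑ i ∈ range m, |v i| + nrm A ∧
    ∀ e : SignType, c (x' + (e : ℤ) • v') = chi c (raw e A) (x + (e : ℤ) • v) := by
  induction A with
  | nil => exact fun x v m h => ⟨x, v, m, h, by simp [nrm], fun e => rfl⟩
  | cons q A ih =>
    intro x v m h
    obtain ⟨p, h1, h2⟩ := ((ge_ev m).and (eventually_all.2 fun e : SignType => ulim_spec fun p =>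
      chi c (raw e A) (x + (e : ℤ) • v + Pi.single p (q.1 + e * q.2)))).exists
    obtain ⟨x', v', m', a1, a2, a3⟩ := ih (x + Pi.single p q.1) (v + Pi.single p q.2) (p + 1)
      fun i hi => by simp [h i (by omega), Pi.single_apply]; omega
    refine ⟨x', v', m', a1, ?_, fun e => ?_⟩
    · rw [a2, sum_range_succ, sum_subset (range_mono h1) fun i _ hi => by
        simp [h i (by simpa using hi)]]
      rw [sum_congr rfl (g := fun i => |v i|) fun i hi => by
        simp [(mem_range.1 hi).ne]]
      simp [nrm, h p h1, add_assoc]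
    · rw [a3, raw, raw, List.map_cons, chi, ← raw, ← h2 e]
      congr 1
      funext i
      simp only [Pi.add_apply, Pi.smul_apply, Pi.single_apply, smul_eq_mul]
      split_ifs <;> ring

lemma slots (A1 A2 : List (ℤ × ℤ)) (h : ∀ e : SignType, row e A2 = row e A1)
    (S : List (Option SignType)) : ∀ j ≤ S.count none, ∃ A,
    (∀ e : SignType, row e A = S.flatMap fun o => row (o.getD e) A1) ∧
    nrm A + j * nrm A1 = S.count none * nrm A1 + j * nrm A2 := by
  have ap : ∀ e A B, row e (A ++ B) = row e A ++ row e B := fun e A B => by simp [row, raw]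
  have an : ∀ A B, nrm (A ++ B) = nrm A + nrm B := fun A B => by simp [nrm]
  induction S with
  | nil => intro j hj; exact ⟨[], fun e => rfl, by simp at hj; simp [hj, nrm]⟩
  | cons o S ih =>
    intro j hj
    cases o with
    | some a =>
      obtain ⟨A, a1, a2⟩ := ih j (by simpa using hj)
      refine ⟨(raw a A1).map (fun b => (b, 0)) ++ A, fun e => ?_, ?_⟩
      · rw [ap, a1]; simp [row, raw, Function.comp_def]
      · rw [an]; simpa [nrm, Function.comp_def] using a2
    | none =>
      rw [List.count_cons_self] at hj ⊢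
      cases j with
      | zero =>
        obtain ⟨A, a1, a2⟩ := ih 0 (by simp)
        exact ⟨A1 ++ A, fun e => by rw [ap, a1]; simp, by rw [an]; linarith⟩
      | succ j =>
        obtain ⟨A, a1, a2⟩ := ih j (by omega)
        exact ⟨A2 ++ A, fun e => by rw [ap, a1, h]; simp, by rw [an]; linarith⟩

def nz (P : ℤ[X]) (K : ℕ) : List ℤ := ((List.range K).map P.coeff).filter (· ≠ 0)

lemma nz_add (P : ℤ[X]) (K a : ℕ) (h : P.natDegree < K) : nz P (K + a) = nz P K := by
  induction a with
  | zero => rfl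
  | succ a ih =>
    rw [← ih, ← add_assoc, nz, List.range_succ]
    simp [nz, coeff_eq_zero_of_natDegree_lt (show P.natDegree < K + a by omega)]

lemma nz_X (P : ℤ[X]) (K a : ℕ) : nz (X ^ a * P) (K + a) = nz P K := by
  induction a with
  | zero => simp
  | succ a ih =>
    rw [← ih, ← add_assoc, nz, List.range_succ_eq_map, pow_succ', mul_assoc]
    simp [nz, Function.comp_def, coeff_X_mul]

lemma nz_sh (P : ℤ[X]) (K a b : ℕ) (h : P.natDegree < K) (hab : a ≤ b) :
    nz (X ^ a * P) (K + b) = nz P (K + b) := by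
  obtain ⟨b, rfl⟩ := Nat.exists_eq_add_of_le' hab
  rw [← add_assoc, nz_X, nz_add P (K + b) a (by omega)]

def col (F v : ℤ[X]) (K : ℕ) : List (ℤ × ℤ) := (List.range K).map fun n => (F.coeff n, v.coeff n)

lemma row_col (e : ℤ) (F v : ℤ[X]) (K : ℕ) : row e (col F v K) = nz (F + C e * v) K := by
  simp [row, raw, col, nz, Function.comp_def]; congr 2; funext n; simp

lemma nrm_col (F v : ℤ[X]) (K : ℕ) : (nrm (col F v K) : ℤ) = ∑ n ∈ range K, |v.coeff n| := by
  induction K with
  | zero => simp [nrm, col]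
  | succ K ih => rw [sum_range_succ, ← ih]; simp [nrm, col, List.range_succ]

lemma lev (Q : ℕ → ℤ[X]) (B S s i : ℕ) (hQ : ∀ t < S, (Q t).natDegree < B) (hs : s < S) (hi : i < B) :
    (∑ t ∈ range S, X ^ (B * t) * Q t).coeff (B * s + i) = (Q s).coeff i := by
  rw [finsetSum_coeff, sum_eq_single s]
  · rw [add_comm, coeff_X_pow_mul]
  · intro t ht hts
    rw [coeff_X_pow_mul']
    split_ifs with h
    · refine coeff_eq_zero_of_natDegree_lt ((hQ t (mem_range.1 ht)).trans_le ?_)
      rcases lt_or_gt_of_ne hts with h' | h'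
      · have := Nat.mul_le_mul_left B (show t + 1 ≤ s from h')
        rw [mul_add] at this; omega
      · have := Nat.mul_le_mul_left B (show s + 1 ≤ t from h')
        rw [mul_add] at this; omega
    · rfl
  · intro h; exact absurd (mem_range.2 hs) h

lemma evle (P : ℤ[X]) (B : ℕ) (h : P.natDegree < B) (z : ℂ) (hz : ‖z‖ = 1) :
    ‖aeval z P‖ ≤ ((∑ i ∈ range B, |P.coeff i| : ℤ) : ℝ) := by
  rw [aeval_eq_sum_range' h]
  push_cast
  exact norm_sum_le_of_le _ fun i _ => by simp [hz]

lemma d1 (t : ℕ) : ((1 + X) ^ t : ℤ[X]).natDegree ≤ t := by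
  simpa using natDegree_pow_le_of_le (p := (1 + X : ℤ[X])) (m := 1) t (by compute_degree)

lemma level (n B : ℕ) (h : n + 2 < B) : (2 : ℝ) ^ n / (n + 1) ≤
    ((∑ i ∈ range B, |((1 + X) ^ n * (1 - X) ^ 2 : ℤ[X]).coeff i| : ℤ) : ℝ) := by
  set t : ℝ := 1 / (2 * (n + 1)) with ht
  have n0 : (0 : ℝ) ≤ n := n.cast_nonneg
  have t0 : 0 < t := by positivity
  have t1 : t * (2 * (n + 1)) = 1 := by rw [ht]; field_simp
  have t2 : t ≤ 1 := by nlinarith
  have s := Real.sq_sqrt (show 0 ≤ t * (1 - t) by nlinarith)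
  let z : ℂ := ⟨1 - 2 * t, 2 * √(t * (1 - t))⟩
  refine le_trans ?_ (evle _ B (lt_of_le_of_lt ?_ h) z ?_)
  · have a1 : 2 * (1 - t) ≤ ‖1 + z‖ := le_trans (by simp [z]; linarith) (Complex.re_le_norm _)
    have a2 : ‖1 - z‖ ^ 2 = 4 * t := by
      rw [Complex.sq_norm, Complex.normSq_apply]; simp [z]; nlinarith
    have a3 := one_add_mul_le_pow (a := -t) (by linarith) n
    have a4 := pow_le_pow_left₀ (by linarith) a1 n
    simp only [map_mul, map_pow, map_add, map_sub, map_one, aeval_X, norm_mul, norm_pow, a2]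
    rw [mul_pow] at a4
    rw [← sub_eq_add_neg] at a3
    have a5 : (2 : ℝ) ^ n * (1 / 2) ≤ 2 ^ n * (1 - t) ^ n := by gcongr; nlinarith
    rw [div_le_iff₀ (by positivity), mul_assoc, show 4 * t * (n + 1) = 2 by linarith]
    linarith
  · exact natDegree_mul_le.trans (add_le_add (d1 n) (by compute_degree))
  · rw [← sq_eq_sq₀ (norm_nonneg _) zero_le_one, Complex.sq_norm, Complex.normSq_apply]
    simp [z]; nlinarith

lemma sum_blocks (f : ℕ → ℤ) (B S : ℕ) :
    ∑ n ∈ range (B * S), f n = ∑ s ∈ range S, ∑ i ∈ range B, f (B * s + i) := by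
  induction S with
  | zero => simp
  | succ S ih => rw [mul_add, mul_one, sum_range_add, ih, sum_range_succ]

lemma gadget (N : ℕ) : ∃ A1 A2 : List (ℤ × ℤ), (∀ e : SignType, row e A2 = row e A1) ∧
    0 < nrm A1 ∧ N * nrm A1 ≤ nrm A2 := by
  obtain ⟨T, hT⟩ := (Real.tendsto_sum_range_one_div_nat_succ_atTop.eventually_ge_atTop (8 * N)).exists
  set B := T + 3 with hB
  set u : ℤ[X] := X ^ B * (1 + X) with hu
  set H : ℤ[X] := ∑ t ∈ range (T + 1), u ^ t * 2 ^ (T + 1 - 1 - t) with hH
  set F : ℤ[X] := H * (X ^ (B + 1) - X ^ B)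
  set v1 : ℤ[X] := H * (2 - u)
  set v2 : ℤ[X] := H * (u - 2 * X ^ (2 * B + 1))
  set K := (F - v1).natDegree + (F + v1).natDegree + 1 + B * (T + 2)
  have hv1 : v1 = 2 ^ (T + 1) - u ^ (T + 1) := by
    have := geom_sum₂_mul u 2 (T + 1)
    rw [← hH] at this; linear_combination -this
  refine ⟨col F v1 (K + (B + 1)), col F v2 (K + (B + 1)), fun e => ?_, ?_, ?_⟩
  · rw [row_col, row_col]
    cases e
    · simp
    · rw [show F + C ((SignType.neg : SignType) : ℤ) * v1 = F - v1 by simp [sub_eq_add_neg],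
        ← nz_sh (F - v1) K B _ (by omega) (by omega)]
      congr 1; simp [F, v1, v2, hu]; ring
    · rw [show F + C ((SignType.pos : SignType) : ℤ) * v1 = F + v1 by simp,
        ← nz_sh (F + v1) K (B + 1) _ (by omega) le_rfl]
      congr 1; simp [F, v1, v2, hu]; ring
  · have := nrm_col F v1 (K + (B + 1))
    have h2 := single_le_sum (f := fun n => |v1.coeff n|) (s := range (K + (B + 1)))
      (fun _ _ => abs_nonneg _) (a := 0) (by simp)
    have h3 : v1.coeff 0 = 2 ^ (T + 1) := by simp [hv1, hu, coeff_zero_eq_eval_zero, hB]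
    rw [h3, abs_of_pos (by positivity)] at h2
    have : (0 : ℤ) < nrm (col F v1 (K + (B + 1))) := by rw [this]; exact lt_of_lt_of_le (by positivity) h2
    exact_mod_cast this
  · have e1 : ∀ K, ∑ n ∈ range K, |v1.coeff n| ≤ 2 ^ (T + 2) := fun K => by
      have p : ∀ (P : ℕ[X]), ∑ n ∈ range K, |(P.map (Nat.castRingHom ℤ)).coeff n| ≤ (P.eval 1 : ℕ) := by
        intro P
        simp only [coeff_map, eq_natCast, Nat.abs_cast]
        rw [eval_eq_sum_range' (n := P.natDegree + 1 + K) (by omega)]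
        simp only [one_pow, mul_one]
        exact_mod_cast sum_le_sum_of_subset (range_mono (by omega))
      have p1 := p (2 ^ (T + 1))
      have p2 := p ((X ^ B * (1 + X)) ^ (T + 1))
      simp only [Polynomial.map_pow, Polynomial.map_mul, Polynomial.map_add, Polynomial.map_one, map_X,
        Polynomial.map_ofNat, eval_pow, eval_mul, eval_add, eval_one, eval_X, eval_ofNat] at p1 p2
      rw [hv1]
      simp only [coeff_sub]
      refine (sum_le_sum fun n _ => abs_sub _ _).trans ?_
      rw [sum_add_distrib]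
      refine (add_le_add p1 p2).trans (le_of_eq ?_)
      push_cast; ring
    have e2 : ∀ n < T, ∀ i < B, v2.coeff (B * (n + 2) + i) =
        2 ^ (T - 1 - n) * ((1 + X) ^ n * (1 - X) ^ 2 : ℤ[X]).coeff i := fun n hn i hi => by
      have d2 : ∀ (t : ℕ) (P : ℤ[X]), (2 ^ t * P).natDegree ≤ P.natDegree := fun t P => by
        rw [show (2 : ℤ[X]) ^ t = C (2 ^ t) by simp]; exact natDegree_C_mul_le _ _
      have : v2 = X ^ B * ∑ t ∈ range (T + 1), X ^ (B * t) * (2 ^ (T - t) * (1 + X) ^ (t + 1)) -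
          X ^ (2 * B) * ∑ t ∈ range (T + 1), X ^ (B * t) * (2 ^ (T - t + 1) * (X * (1 + X) ^ t)) := by
        simp only [v2, hH, sum_mul, mul_sum, ← sum_sub_distrib, hu, add_tsub_cancel_right]
        exact sum_congr rfl fun t _ => by rw [mul_pow, ← pow_mul]; ring
      rw [this, coeff_sub]
      nth_rw 1 [show B * (n + 2) + i = B * (n + 1) + i + B by ring]
      rw [show B * (n + 2) + i = B * n + i + 2 * B by ring, coeff_X_pow_mul, coeff_X_pow_mul,
        lev _ _ _ _ _ (fun t ht => ((d2 _ _).trans (d1 _)).trans_lt (by omega)) (by omega) hi,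
        lev _ _ _ _ _ (fun t ht => ((d2 _ _).trans (natDegree_mul_le.trans
          (add_le_add natDegree_X_le (d1 _)))).trans_lt (by omega)) (by omega) hi, ← coeff_sub,
        ← coeff_C_mul]
      obtain ⟨m, rfl⟩ := Nat.exists_eq_add_of_lt hn
      congr 1
      rw [show n + m + 1 - (n + 1) = m by omega, show n + m + 1 - n = m + 1 by omega,
        show n + m + 1 - 1 - n = m by omega]
      simp; ring
    have e3 : ∑ n ∈ range T, ∑ i ∈ range B, |v2.coeff (B * (n + 2) + i)| ≤
        ∑ n ∈ range (K + (B + 1)), |v2.coeff n| := by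
      refine le_trans ?_ (sum_le_sum_of_subset_of_nonneg (range_mono (show B * (T + 2) ≤ _ by omega))
        fun _ _ _ => abs_nonneg _)
      rw [sum_blocks, sum_range_succ', sum_range_succ', add_assoc]
      exact le_add_of_nonneg_right (by positivity)
    have e4 : (2 : ℝ) ^ (T + 2) * N ≤ ((∑ n ∈ range T, ∑ i ∈ range B, |v2.coeff (B * (n + 2) + i)| : ℤ) : ℝ) := by
      rw [Int.cast_sum]
      refine le_trans ?_ (sum_le_sum (f := fun n : ℕ => (2 : ℝ) ^ (T + 2) / 8 * (1 / (n + 1))) fun n hn => ?_)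
      · rw [← mul_sum]; nlinarith [pow_pos (two_pos (α := ℝ)) (T + 2)]
      · have hn := mem_range.1 hn
        rw [sum_congr rfl fun i hi => by rw [e2 n hn i (mem_range.1 hi), abs_mul], ← mul_sum,
          Int.cast_mul]
        refine le_trans (le_of_eq ?_) (mul_le_mul_of_nonneg_left (level n B (by omega)) (by positivity))
        obtain ⟨m, rfl⟩ := Nat.exists_eq_add_of_lt hn
        rw [show n + m + 1 - 1 - n = m by omega]
        simp; field_simp; ring
    have e5 : (2 : ℤ) ^ (T + 2) * N ≤ ∑ n ∈ range T, ∑ i ∈ range B, |v2.coeff (B * (n + 2) + i)| := by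
      exact_mod_cast e4
    have : (N : ℤ) * nrm (col F v1 (K + (B + 1))) ≤ nrm (col F v2 (K + (B + 1))) := by
      rw [nrm_col, nrm_col]
      nlinarith [e1 (K + (B + 1))]
    exact_mod_cast this


/-- For every k there are a positive d and a dimension n such that every k-colouring of Z^n has points x and v, with the sum of absolute values of v's coordinates equal to d, where x−v, x, x+v get the same colour. -/
theorem result :
    ∀ k : ℕ, ∃ d n : ℕ, 0 < d ∧
      ∀ c : (Fin n → ℤ) → Fin k,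
        ∃ x v : Fin n → ℤ, (∑ i, |v i|) = (d : ℤ) ∧
          c (x - v) = c x ∧ c x = c (x + v) := by
  classical
  intro k
  obtain ⟨ι, _, hι⟩ := Combinatorics.Line.exists_mono_in_high_dimension SignType (Fin k)
  set L := (univ : Finset ι).toList
  obtain ⟨A1, A2, g1, g2, g3⟩ := gadget (L.length + 1)
  obtain ⟨M, hM⟩ := Nat.exists_eq_add_of_le (show nrm A1 ≤ nrm A2 by nlinarith)
  by_contra hh
  push Not at hh
  have L0 : 0 < L.length := by
    rcases k with _ | k
    · obtain ⟨c, -⟩ := hh 1 0 one_pos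
      exact (c 0).elim0
    · obtain ⟨l, -⟩ := hι fun _ => 0
      obtain ⟨i, -⟩ := l.proper
      exact List.length_pos_of_mem (a := i) (by simp [L])
  choose cn hcn using fun n => hh (L.length * M * nrm A1) n (by
    have : 0 < M := by nlinarith
    positivity)
  let c : (ℕ → ℤ) → Fin k := fun x => ulim fun n => cn n fun i => x i
  obtain ⟨l, b, hl⟩ := hι fun f => chi c (L.flatMap fun i => (List.replicate M (row (f i) A1)).flatten) 0
  have cnt : ∀ L : List ι, (L.flatMap fun i => List.replicate M (l.idxFun i)).count none =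
      M * (L.map l.idxFun).count none := fun L => by
    induction L with
    | nil => simp
    | cons i L ih => cases h : l.idxFun i <;> simp [ih, h, List.count_replicate]; ring
  have l1 : 1 ≤ (L.map l.idxFun).count none := by
    obtain ⟨i, hi⟩ := l.proper
    exact List.count_pos_iff.2 (List.mem_map.2 ⟨i, by simp [L], hi⟩)
  obtain ⟨r, hr⟩ := Nat.exists_eq_add_of_le
    (show (L.map l.idxFun).count none ≤ L.length by simpa using List.count_le_length (l := L.map l.idxFun))
  obtain ⟨A, a1, a2⟩ := slots A1 A2 g1 (L.flatMap fun i => List.replicate M (l.idxFun i)) (r * nrm A1)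
    (by rw [cnt]; nlinarith)
  obtain ⟨x, v, m, b1, b2, b3⟩ := cols c A 0 0 0 (by simp)
  have b4 : ∀ e : SignType, c (x + (e : ℤ) • v) = b := fun e => by
    rw [b3, ← chi_filter, ← row, a1, ← hl e, List.flatMap_assoc]
    simp [List.flatMap_replicate]
  obtain ⟨n, n1, n2⟩ := ((ge_ev m).and (eventually_all.2 fun e : SignType =>
    ulim_spec fun n => cn n fun i => (x + (e : ℤ) • v) i)).exists
  have b5 : ∀ e : SignType, cn n ((fun i : Fin n => x i) + (e : ℤ) • fun i : Fin n => v i) = b := fun e =>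
    (n2 e).trans (b4 e)
  have c1 := b5 (-1)
  have c2 := b5 0
  have c3 := b5 1
  simp [← sub_eq_add_neg] at c1 c2 c3
  refine hcn n (fun i => x i) (fun i => v i) ?_ (c1.trans c2.symm) (c2.trans c3.symm)
  rw [Fin.sum_univ_eq_sum_range fun i => |v i|, ← sum_subset (range_mono n1) fun i _ hi => by
    simp [b1 i (by simpa using hi)], b2]
  rw [cnt, hM] at a2
  have : nrm A = L.length * M * nrm A1 := by rw [hr]; nlinarith
  simp [this]

end Pool.Agent.S09655
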