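import Pool.Statements.S09671
import Pool.Agent.H31.Lac1

set_option autoImplicit false
open Pool Pool.MP_7c2ef8_co

namespace Pool.Agent.S09671

lemma close_of_floor (N : ℕ) (hN : 0 < N) (x y : ℝ)
    (h : ⌊(N : ℝ) * Int.fract x⌋₊ = ⌊(N : ℝ) * Int.fract y⌋₊) : ∃ r : ℤ, (N : ℝ) * |x - y - r| < 1 := by
  have hN' : (0 : ℝ) < N := by exact_mod_cast hN
  refine ⟨⌊x⌋ - ⌊y⌋, ?_⟩
  have e : x - y - ((⌊x⌋ - ⌊y⌋ : ℤ) : ℝ) = Int.fract x - Int.fract y := by
    unfold Int.fract; push_cast; ring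
  rw [e, ← abs_of_pos hN', ← abs_mul, mul_sub, abs_lt]
  have h1 := Nat.floor_le (show 0 ≤ (N : ℝ) * Int.fract x from mul_nonneg hN'.le (Int.fract_nonneg _))
  have h2 := Nat.lt_floor_add_one ((N : ℝ) * Int.fract x)
  have h3 := Nat.floor_le (show 0 ≤ (N : ℝ) * Int.fract y from mul_nonneg hN'.le (Int.fract_nonneg _))
  have h4 := Nat.lt_floor_add_one ((N : ℝ) * Int.fract y)
  rw [h] at h1 h2
  constructor <;> linarith

lemma col_lt (N : ℕ) (hN : 0 < N) (x : ℝ) : ⌊(N : ℝ) * Int.fract x⌋₊ < N := by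
  have hN' : (0 : ℝ) < N := by exact_mod_cast hN
  rw [Nat.floor_lt (mul_nonneg hN'.le (Int.fract_nonneg _))]
  have := Int.fract_lt_one x
  nlinarith

lemma quad (N : ℝ) (hN : 8 ≤ N) (p : ℕ) (hp : 3 ≤ p) (f : ℕ → ℝ) (γ : ℝ)
    (hf : ∀ i, f (i + 2) - 2 * f (i + 1) + f i = γ)
    (hm : ∀ i, i < p → ∃ r : ℤ, N * |f i - r| < 1) : ∃ M : ℤ, N * ((p : ℝ) ^ 2 * |γ - M|) < 64 := by
  have hm' : ∀ i, ∃ r : ℤ, i < p → N * |f i - r| < 1 := by
    intro i
    by_cases h : i < p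
    · obtain ⟨r, hr⟩ := hm i h
      exact ⟨r, fun _ => hr⟩
    · exact ⟨0, fun h' => absurd h' h⟩
  choose m hm2 using hm'
  have hN0 : 0 < N := by linarith
  let e : ℕ → ℝ := fun i => N * (f i - m i)
  have he : ∀ i, i < p → -1 < e i ∧ e i < 1 := by
    intro i hi
    have := hm2 i hi
    rw [← abs_of_pos hN0, ← abs_mul, abs_lt] at this
    exact this
  refine ⟨m 2 - 2 * m 1 + m 0, ?_⟩
  set g := N * (γ - ((m 2 - 2 * m 1 + m 0 : ℤ) : ℝ)) with hg
  have hg0 : e 2 - 2 * e 1 + e 0 = g := by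
    rw [hg, ← hf 0]; simp only [e]; push_cast; ring
  have hd : ∀ i, i + 2 < p → e (i + 2) - 2 * e (i + 1) + e i = g := by
    intro i hi
    have h1 : e (i + 2) - 2 * e (i + 1) + e i - g
        = N * (((m 2 - 2 * m 1 + m 0) - (m (i + 2) - 2 * m (i + 1) + m i) : ℤ) : ℝ) := by
      rw [hg, ← hf i]; simp only [e]; push_cast; ring
    set z : ℤ := (m 2 - 2 * m 1 + m 0) - (m (i + 2) - 2 * m (i + 1) + m i)
    have a0 := he 0 (by omega)
    have a1 := he 1 (by omega)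
    have a2 := he 2 (by omega)
    have b0 := he i (by omega)
    have b1 := he (i + 1) (by omega)
    have b2 := he (i + 2) (by omega)
    have hz1 : (z : ℝ) < 1 := by nlinarith
    have hz2 : (-1 : ℝ) < z := by nlinarith
    have hz1' : z < 1 := by exact_mod_cast hz1
    have hz2' : -1 < z := by exact_mod_cast hz2
    have hz : z = 0 := by omega
    rw [hz] at h1
    simp at h1
    linarith
  have hform : ∀ i : ℕ, i + 1 < p → e i = e 0 + i * (e 1 - e 0) + i * (i - 1) / 2 * g ∧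
      e (i + 1) = e 0 + (i + 1) * (e 1 - e 0) + (i + 1) * i / 2 * g := by
    intro i
    induction i with
    | zero => intro _; constructor <;> simp
    | succ i ih =>
      intro hi
      obtain ⟨h1, h2⟩ := ih (by omega)
      have h3 := hd i hi
      push_cast
      constructor
      · rw [h2]; ring
      · have : e (i + 1 + 1) = g + 2 * e (i + 1) - e i := by linarith
        rw [this, h1, h2]; ring
  obtain ⟨h, hh1, hh2, hh3⟩ : ∃ h : ℕ, 1 ≤ h ∧ 2 * h < p ∧ p ≤ 4 * h := ⟨(p - 1) / 2, by omega, by omega, by omega⟩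
  have c1 := (hform h (by omega)).1
  have c2 := (hform (2 * h - 1) (by omega)).2
  have e1 : 2 * h - 1 + 1 = 2 * h := by omega
  have e2 : ((2 * h - 1 : ℕ) : ℝ) = 2 * h - 1 := by
    rw [Nat.cast_sub (by omega)]; push_cast; ring
  rw [e1, e2] at c2
  have c3 : e 0 - 2 * e h + e (2 * h) = (h : ℝ) ^ 2 * g := by rw [c1, c2]; ring
  have a0 := he 0 (by omega)
  have a1 := he h (by omega)
  have a2 := he (2 * h) (by omega)
  have c4 : (h : ℝ) ^ 2 * |g| < 4 := by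
    rw [← abs_of_nonneg (sq_nonneg (h : ℝ)), ← abs_mul, ← c3, abs_lt]
    constructor <;> linarith
  have c5 : (p : ℝ) ≤ 4 * h := by exact_mod_cast hh3
  have c6 : (p : ℝ) ^ 2 ≤ 16 * (h : ℝ) ^ 2 := by
    have : (0 : ℝ) ≤ p := by positivity
    nlinarith
  have c7 : |g| = N * |γ - ((m 2 - 2 * m 1 + m 0 : ℤ) : ℝ)| := by
    rw [hg, abs_mul, abs_of_pos hN0]
  have c8 := mul_le_mul_of_nonneg_right c6 (abs_nonneg g)
  calc _ = (p : ℝ) ^ 2 * |g| := by rw [c7]; ring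
    _ < 64 := by linarith


/-- For every set K of positive integers with all ratios b/a (a<b in K) above some fixed 1+δ, some finite number of colors colors ℤ so that no progression with difference in K contains two adjacent identical blocks. -/
theorem result :
    ∀ K : Set ℕ, (∀ k ∈ K, 0 < k) →
      (∃ δ : ℝ, 0 < δ ∧ ∀ a ∈ K, ∀ b ∈ K, a < b → (1 + δ) * (a : ℝ) < (b : ℝ)) →
      ∃ N : ℕ, ∃ c : ℤ → Fin N,
        ∀ k ∈ K, ∀ a : ℤ, ∀ n : ℕ, 0 < n →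
          ∃ i : ℕ, i < n ∧
            c (a + (i : ℤ) * (k : ℤ)) ≠ c (a + ((n : ℤ) + (i : ℤ)) * (k : ℤ)) := by
  rintro K hK ⟨δ, hδ, hD⟩
  obtain ⟨θ, ε, hε, h1⟩ := Pool.Agent.H31.Lac.exists_theta hδ hK hD
  obtain ⟨θ', ε', hε', h2⟩ := Pool.Agent.H31.Lac.exists_theta (D := (fun d => 6 * d ^ 3) '' K) hδ
    (by rintro _ ⟨d, hd, rfl⟩; have := hK d hd; positivity)
    (by
      rintro _ ⟨a, ha, rfl⟩ _ ⟨b, hb, rfl⟩ hab
      have hab' : a < b := by
        by_contra hc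
        push Not at hc
        have := Nat.pow_le_pow_left hc 3
        simp only at hab
        omega
      have h3 := hD a ha b hb hab'
      have ha0 : (0 : ℝ) < a := by exact_mod_cast hK a ha
      have h4 : (a : ℝ) ^ 2 ≤ (b : ℝ) ^ 2 := by exact_mod_cast Nat.pow_le_pow_left hab'.le 2
      have h5 : (0 : ℝ) < (a : ℝ) ^ 2 := by positivity
      have h6 : ((1 + δ) * a) * (a : ℝ) ^ 2 < b * (b : ℝ) ^ 2 :=
        mul_lt_mul h3 h4 h5 (by positivity)
      push_cast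
      nlinarith)
  obtain ⟨N, hN⟩ := exists_nat_ge (8 + 4 / ε + 64 / ε')
  have p1 : 0 < 4 / ε := by positivity
  have p2 : 0 < 64 / ε' := by positivity
  have hN8 : (8 : ℝ) ≤ N := by linarith
  have hN0 : 0 < N := by
    have : (0 : ℝ) < N := by linarith
    exact_mod_cast this
  have hNa : 4 ≤ N * ε := by
    have : 4 / ε ≤ N := by linarith
    rwa [div_le_iff₀ hε] at this
  have hNb : 64 ≤ N * ε' := by
    have : 64 / ε' ≤ N := by linarith
    rwa [div_le_iff₀ hε'] at this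
  refine ⟨N * N, fun x => finProdFinEquiv (⟨_, col_lt N hN0 (θ * x)⟩, ⟨_, col_lt N hN0 (θ' * x ^ 3)⟩), ?_⟩
  intro k hk a n hn
  by_contra hc
  push Not at hc
  have hc' : ∀ i, i < n →
      (∃ r : ℤ, (N : ℝ) * |θ * ((a + ((n : ℤ) + (i : ℤ)) * (k : ℤ) : ℤ) : ℝ) - θ * ((a + (i : ℤ) * (k : ℤ) : ℤ) : ℝ) - r| < 1) ∧
      (∃ r : ℤ, (N : ℝ) * |θ' * ((a + ((n : ℤ) + (i : ℤ)) * (k : ℤ) : ℤ) : ℝ) ^ 3 - θ' * ((a + (i : ℤ) * (k : ℤ) : ℤ) : ℝ) ^ 3 - r| < 1) := by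
    intro i hi
    have h3 := finProdFinEquiv.injective (hc i hi)
    simp only [Prod.mk.injEq, Fin.mk.injEq] at h3
    exact ⟨close_of_floor N hN0 _ _ h3.1.symm, close_of_floor N hN0 _ _ h3.2.symm⟩
  rcases le_or_gt 3 n with h3 | h3
  · obtain ⟨M, hM⟩ := quad N hN8 n h3
      (fun i => θ' * ((a + ((n : ℤ) + (i : ℤ)) * (k : ℤ) : ℤ) : ℝ) ^ 3 - θ' * ((a + (i : ℤ) * (k : ℤ) : ℤ) : ℝ) ^ 3)
      (n * ((6 * k ^ 3 : ℕ) : ℝ) * θ') (by intro i; push_cast; ring) (fun i hi => (hc' i hi).2)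
    have h4 := h2 n hn _ ⟨k, hk, rfl⟩ M
    have h5 := mul_le_mul_of_nonneg_left h4 (show (0 : ℝ) ≤ N by positivity)
    linarith
  · obtain ⟨r, hr⟩ := (hc' 0 hn).1
    have e : θ * ((a + ((n : ℤ) + ((0 : ℕ) : ℤ)) * (k : ℤ) : ℤ) : ℝ) - θ * ((a + ((0 : ℕ) : ℤ) * (k : ℤ) : ℤ) : ℝ)
        = n * k * θ := by push_cast; ring
    rw [e] at hr
    have h4 := h1 n hn k hk r
    have h5 : (n : ℝ) ≤ 2 := by exact_mod_cast (show n ≤ 2 by omega)
    have h6 : (n : ℝ) ^ 2 ≤ 4 := by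
      have : (0 : ℝ) ≤ n := by positivity
      nlinarith
    have h7 := mul_le_mul_of_nonneg_right h6 (abs_nonneg (n * k * θ - r))
    have h8 := mul_le_mul_of_nonneg_left (h4.trans h7) (show (0 : ℝ) ≤ N by positivity)
    linarith

end Pool.Agent.S09671
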