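import Pool.Statements.S09798
-- import your own Pool.Agent.* helpers here

set_option autoImplicit false
open Pool Pool.MP_82152b_co

namespace Pool.Agent.S09798

open Finset

/-- the graph: `K₄` minus the edge `12`, on `1,2,3,4`, with a vertex `0` joined to `1` and `2` -/
def HH : SimpleGraph (Fin 5) where
  Adj u v := (u, v) ∈ ([(0,1),(1,0),(0,2),(2,0),(1,3),(3,1),(1,4),(4,1),(2,3),(3,2),(2,4),(4,2),
    (3,4),(4,3)] : List (Fin 5 × Fin 5))
  symm := ⟨by decide⟩
  loopless := ⟨by decide⟩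

instance : DecidableRel HH.Adj := fun u v => by unfold HH; infer_instance

theorem order_exists {W : Type} (G : SimpleGraph W) (k : ℕ)
    (h : ∀ S : Finset W, S.Nonempty → ∃ v ∈ S, {w : W | w ∈ S ∧ G.Adj v w}.ncard ≤ k)
    (S : Finset W) :
    ∃ ρ : W → ℕ, ∀ v ∈ S, {w : W | w ∈ S ∧ G.Adj v w ∧ ρ v ≤ ρ w}.ncard ≤ k := by
  classical
  induction S using Finset.strongInduction with
  | H S ih =>
    rcases S.eq_empty_or_nonempty with rfl | hS
    · exact ⟨fun _ => 0, by simp⟩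
    obtain ⟨v, hv, hk⟩ := h S hS
    obtain ⟨ρ, hρ⟩ := ih (S.erase v) (erase_ssubset hv)
    refine ⟨fun w => if w = v then 0 else ρ w + 1, ?_⟩
    intro u hu
    by_cases e : u = v
    · subst e
      refine le_trans (Set.ncard_le_ncard ?_ (S.finite_toSet.subset (fun w hw => hw.1))) hk
      intro w hw
      exact ⟨hw.1, hw.2.1⟩
    · refine le_trans (Set.ncard_le_ncard ?_
        ((S.erase v).finite_toSet.subset (fun w hw => hw.1))) (hρ u (mem_erase.2 ⟨e, hu⟩))
      intro w hw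
      obtain ⟨h1, h2, h3⟩ := hw
      by_cases e' : w = v
      · simp [e, e'] at h3
      · simp only [e, e', if_false] at h3
        exact ⟨mem_erase.2 ⟨e', h1⟩, h2, by omega⟩

/-- vertices reachable in at most `i` steps -/
def Rch {n : ℕ} (O : Fin n → Finset (Fin n)) (x : Fin n) : ℕ → Finset (Fin n)
  | 0 => {x}
  | (i+1) => Rch O x i ∪ (Rch O x i).biUnion O

theorem Rch_card {n : ℕ} (O : Fin n → Finset (Fin n)) (hO : ∀ x, (O x).card ≤ 2) (x : Fin n) :
    ∀ i, (Rch O x i).card ≤ 3 ^ i := by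
  intro i
  induction i with
  | zero => simp [Rch]
  | succ i ih =>
    have h1 := card_union_le (Rch O x i) ((Rch O x i).biUnion O)
    have h2 := card_biUnion_le_card_mul (Rch O x i) O 2 (fun y _ => hO y)
    simp only [Rch]
    rw [pow_succ]
    omega

theorem Rch_self {n : ℕ} (O : Fin n → Finset (Fin n)) (x : Fin n) : ∀ i, x ∈ Rch O x i := by
  intro i
  induction i with
  | zero => simp [Rch]
  | succ i ih => exact mem_union_left _ ih

theorem count_le {n : ℕ} (G : SimpleGraph (Fin n))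
    (h : ∀ S : Finset (Fin n), S.Nonempty → ∃ v ∈ S, {w : Fin n | w ∈ S ∧ G.Adj v w}.ncard ≤ 2) :
    {φ : Fin 5 ↪ Fin n | ∀ u v, HH.Adj u v → G.Adj (φ u) (φ v)}.ncard ≤ n * (3 ^ 5) ^ 5 := by
  classical
  obtain ⟨ρ, hρ⟩ := order_exists G 2 h univ
  let O : Fin n → Finset (Fin n) := fun x => univ.filter (fun w => G.Adj x w ∧ ρ x ≤ ρ w)
  have hO : ∀ x, (O x).card ≤ 2 := by
    intro x
    have := hρ x (mem_univ _)
    rw [← Set.ncard_coe_finset]
    convert this using 2
    ext w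
    simp [O]
  have key : ∀ φ : Fin 5 ↪ Fin n, (∀ u v, HH.Adj u v → G.Adj (φ u) (φ v)) →
      ∀ u, φ u ∈ Rch O (φ 0) 5 := by
    intro φ hφ
    have h1 : ∀ u : Fin 5, u ≠ 0 → ∃ w, HH.Adj u w ∧ ρ (φ w) < ρ (φ u) := by
      intro u hu
      by_contra hc
      push Not at hc
      have h2 : (univ.filter (fun w => HH.Adj u w)).card ≤ (O (φ u)).card := by
        refine card_le_card_of_injOn φ ?_ φ.injective.injOn
        intro w hw
        have hw' : HH.Adj u w := by simpa using hw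
        simp only [O, coe_filter, mem_univ, true_and]
        exact ⟨hφ u w hw', hc w hw'⟩
      have h3 : ∀ u : Fin 5, u ≠ 0 → 3 ≤ (univ.filter (fun w => HH.Adj u w)).card := by decide
      have := h3 u hu
      have := hO (φ u)
      omega
    have h4 : ∀ m : ℕ, ∀ u : Fin 5,
        (univ.filter (fun w => ρ (φ w) < ρ (φ u))).card ≤ m → φ u ∈ Rch O (φ 0) m := by
      intro m
      induction m with
      | zero =>
        intro u hu
        by_cases e : u = 0
        · rw [e]; exact Rch_self O _ _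
        · obtain ⟨w, -, hw⟩ := h1 u e
          have : 0 < (univ.filter (fun w => ρ (φ w) < ρ (φ u))).card :=
            card_pos.2 ⟨w, by simpa using hw⟩
          omega
      | succ m ih =>
        intro u hu
        by_cases e : u = 0
        · rw [e]; exact Rch_self O _ _
        · obtain ⟨w, hw1, hw⟩ := h1 u e
          have h5 : (univ.filter (fun z => ρ (φ z) < ρ (φ w))).card
              < (univ.filter (fun z => ρ (φ z) < ρ (φ u))).card := by
            refine card_lt_card ⟨?_, fun hs => ?_⟩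
            · intro z hz
              simp only [mem_filter, mem_univ, true_and] at hz ⊢
              omega
            · have := hs (show w ∈ _ by simpa using hw)
              simp at this
          refine mem_union_right _ (mem_biUnion.2 ⟨φ w, ih w (by omega), ?_⟩)
          simp only [O, mem_filter, mem_univ, true_and]
          exact ⟨hφ w u hw1.symm, hw.le⟩
    intro u
    refine h4 5 u ?_
    simpa using card_le_univ (univ.filter (fun w : Fin 5 => ρ (φ w) < ρ (φ u)))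
  let T : Finset (Fin 5 → Fin n) :=
    univ.biUnion (fun x : Fin n => Fintype.piFinset (fun _ : Fin 5 => Rch O x 5))
  have hT : T.card ≤ n * (3 ^ 5) ^ 5 := by
    have := card_biUnion_le_card_mul (univ : Finset (Fin n))
      (fun x : Fin n => Fintype.piFinset (fun _ : Fin 5 => Rch O x 5)) ((3 ^ 5) ^ 5) (by
        intro x _
        rw [Fintype.card_piFinset, prod_const, card_univ, Fintype.card_fin]
        exact Nat.pow_le_pow_left (Rch_card O hO x 5) 5)
    simpa using this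
  refine le_trans ?_ hT
  rw [← Set.ncard_coe_finset]
  refine Set.ncard_le_ncard_of_injOn (fun φ => (φ : Fin 5 → Fin n)) ?_ ?_ T.finite_toSet
  · intro φ hφ
    simp only [T, mem_coe, mem_biUnion, mem_univ, true_and, Fintype.mem_piFinset]
    exact ⟨φ 0, key φ hφ⟩
  · intro φ _ ψ _ e
    exact DFunLike.coe_injective e

/-- first side -/
def AA : HH.Subgraph := (⊤ : HH.Subgraph).induce {v | v ≤ 2}

/-- second side -/
def BB : HH.Subgraph := (⊤ : HH.Subgraph).induce {v | 1 ≤ v}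

theorem sup_eq : AA ⊔ BB = ⊤ := by
  ext u v
  · simp only [AA, BB, SimpleGraph.Subgraph.verts_sup, SimpleGraph.Subgraph.induce_verts,
      SimpleGraph.Subgraph.verts_top, Set.mem_union, Set.mem_ofPred_eq, Set.mem_univ]
    revert u
    decide
  · simp only [AA, BB, SimpleGraph.Subgraph.sup_adj, SimpleGraph.Subgraph.induce_adj,
      SimpleGraph.Subgraph.top_adj, Set.mem_ofPred_eq]
    revert u v
    decide

theorem adj_dis : ∀ u v, AA.Adj u v → ¬ BB.Adj u v := by
  simp only [AA, BB, SimpleGraph.Subgraph.induce_adj,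
      SimpleGraph.Subgraph.top_adj, Set.mem_ofPred_eq]
  decide

theorem memA (v : Fin 5) : v ∈ AA.verts ↔ v ≤ 2 := Iff.rfl

theorem memB (v : Fin 5) : v ∈ BB.verts ↔ 1 ≤ v := Iff.rfl

theorem inter_card : (AA.verts ∩ BB.verts).ncard ≤ 2 := by
  have : AA.verts ∩ BB.verts = {1, 2} := by
    ext v
    simp only [Set.mem_inter_iff, memA, memB, Set.mem_insert_iff, Set.mem_singleton_iff]
    revert v
    decide
  rw [this]
  exact (Set.ncard_insert_le _ _).trans (by simp)


/-- The negation of the preceding statement: For every k and every nonempty k-degenerate graph H with flap number f (1 if H has no (≤k)-separation, else the max number of pairwise independent ones), the max number of copies of H in an n-vertex k-degenerate graph is Θ(n^f). -/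
theorem result :
    ¬ (∀ (k : ℕ) (V : Type) [Fintype V] [Nonempty V] (H : SimpleGraph V),
    (∀ S : Finset V, S.Nonempty → ∃ v ∈ S, {w : V | w ∈ S ∧ H.Adj v w}.ncard ≤ k) →
    ∀ f : ℕ,
      (((¬ ∃ A B : H.Subgraph, A ⊔ B = ⊤ ∧ (∀ u v, A.Adj u v → ¬ B.Adj u v) ∧
            (∃ v, v ∈ A.verts ∧ v ∉ B.verts) ∧ (∃ v, v ∈ B.verts ∧ v ∉ A.verts) ∧
            (A.verts ∩ B.verts).ncard ≤ k) ∧ f = 1) ∨
       ((∃ A B : H.Subgraph, A ⊔ B = ⊤ ∧ (∀ u v, A.Adj u v → ¬ B.Adj u v) ∧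
            (∃ v, v ∈ A.verts ∧ v ∉ B.verts) ∧ (∃ v, v ∈ B.verts ∧ v ∉ A.verts) ∧
            (A.verts ∩ B.verts).ncard ≤ k) ∧
         IsGreatest {m : ℕ | ∃ A B : Fin m → H.Subgraph,
            (∀ i, A i ⊔ B i = ⊤ ∧ (∀ u v, (A i).Adj u v → ¬ (B i).Adj u v) ∧
              (∃ v, v ∈ (A i).verts ∧ v ∉ (B i).verts) ∧
              (∃ v, v ∈ (B i).verts ∧ v ∉ (A i).verts) ∧
              ((A i).verts ∩ (B i).verts).ncard ≤ k) ∧
            ∀ i j, i ≠ j →
              (∀ u v, (A i).Adj u v → ¬ (A j).Adj u v) ∧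
              ∀ v, v ∈ (A i).verts → v ∉ (B i).verts → ¬ (v ∈ (A j).verts ∧ v ∉ (B j).verts)} f)) →
      ∃ c₁ c₂ : ℝ, 0 < c₁ ∧ 0 < c₂ ∧ ∃ N : ℕ, ∀ n : ℕ, N ≤ n →
        (∃ G : SimpleGraph (Fin n),
            (∀ S : Finset (Fin n), S.Nonempty → ∃ v ∈ S, {w : Fin n | w ∈ S ∧ G.Adj v w}.ncard ≤ k) ∧
            c₁ * (n : ℝ) ^ f ≤
              (({φ : V ↪ Fin n | ∀ u v, H.Adj u v → G.Adj (φ u) (φ v)}.ncard : ℕ) : ℝ)) ∧
        ∀ G : SimpleGraph (Fin n),
            (∀ S : Finset (Fin n), S.Nonempty → ∃ v ∈ S, {w : Fin n | w ∈ S ∧ G.Adj v w}.ncard ≤ k) →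
            (({φ : V ↪ Fin n | ∀ u v, H.Adj u v → G.Adj (φ u) (φ v)}.ncard : ℕ) : ℝ) ≤ c₂ * (n : ℝ) ^ f) := by
  intro h
  have hdeg : ∀ S : Finset (Fin 5), S.Nonempty →
      ∃ v ∈ S, {w : Fin 5 | w ∈ S ∧ HH.Adj v w}.ncard ≤ 2 := by
    have h1 : ∀ S : Finset (Fin 5), S.Nonempty →
        ∃ v ∈ S, (S.filter (fun w => HH.Adj v w)).card ≤ 2 := by decide +kernel
    intro S hS
    obtain ⟨v, hv, h2⟩ := h1 S hS
    refine ⟨v, hv, ?_⟩
    rw [← Set.ncard_coe_finset] at h2
    convert h2 using 2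
    ext w
    simp
  have hA0 : ∃ v, v ∈ AA.verts ∧ v ∉ BB.verts := ⟨0, by simp only [memA, memB]; decide⟩
  have hB0 : ∃ v, v ∈ BB.verts ∧ v ∉ AA.verts := ⟨3, by simp only [memA, memB]; decide⟩
  let M : Set ℕ := {m : ℕ | ∃ A B : Fin m → HH.Subgraph,
            (∀ i, A i ⊔ B i = ⊤ ∧ (∀ u v, (A i).Adj u v → ¬ (B i).Adj u v) ∧
              (∃ v, v ∈ (A i).verts ∧ v ∉ (B i).verts) ∧
              (∃ v, v ∈ (B i).verts ∧ v ∉ (A i).verts) ∧
              ((A i).verts ∩ (B i).verts).ncard ≤ 2) ∧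
            ∀ i j, i ≠ j →
              (∀ u v, (A i).Adj u v → ¬ (A j).Adj u v) ∧
              ∀ v, v ∈ (A i).verts → v ∉ (B i).verts → ¬ (v ∈ (A j).verts ∧ v ∉ (B j).verts)}
  have h2 : 2 ∈ M := by
    refine ⟨![AA, BB], ![BB, AA], ?_, ?_⟩
    · intro i
      fin_cases i
      · exact ⟨sup_eq, adj_dis, hA0, hB0, inter_card⟩
      · refine ⟨by rw [← sup_eq]; exact sup_comm _ _, fun u v h1 h2 => adj_dis u v h2 h1,
          hB0, hA0, ?_⟩
        have := inter_card
        rw [Set.inter_comm] at this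
        exact this
    · intro i j hij
      fin_cases i <;> fin_cases j
      · exact absurd rfl hij
      · exact ⟨adj_dis, fun v _ h2 h3 => h2 h3.1⟩
      · exact ⟨fun u v h1 h2 => adj_dis u v h2 h1, fun v _ h2 h3 => h2 h3.1⟩
      · exact absurd rfl hij
  have hb : BddAbove M := by
    refine ⟨5, ?_⟩
    rintro m ⟨A, B, h1, h3⟩
    choose p hp using fun i => (h1 i).2.2.1
    have : Function.Injective p := by
      intro i j e
      by_contra hij
      exact (h3 i j hij).2 (p i) (hp i).1 (hp i).2 (e ▸ hp j)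
    simpa using Fintype.card_le_of_injective p this
  have hf : IsGreatest M (sSup M) := ⟨Nat.sSup_mem ⟨2, h2⟩ hb, fun m hm => le_csSup hb hm⟩
  obtain ⟨c₁, c₂, hc₁, -, N, hN⟩ := h 2 (Fin 5) HH hdeg (sSup M)
    (Or.inr ⟨⟨AA, BB, sup_eq, adj_dis, hA0, hB0, inter_card⟩, hf⟩)
  obtain ⟨n0, hn0⟩ := exists_nat_gt (((3 ^ 5) ^ 5 : ℕ) / c₁)
  obtain ⟨⟨G, hG, hc⟩, -⟩ := hN (N + n0 + 1) (by omega)
  have h3 := (Nat.cast_le (α := ℝ)).2 (count_le G hG)
  have h4 : (1 : ℝ) ≤ ((N + n0 + 1 : ℕ) : ℝ) := by exact_mod_cast (by omega : 1 ≤ N + n0 + 1)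
  have h5 : ((N + n0 + 1 : ℕ) : ℝ) ^ 2 ≤ ((N + n0 + 1 : ℕ) : ℝ) ^ (sSup M) :=
    pow_le_pow_right₀ h4 (hf.2 h2)
  have h6 : (n0 : ℝ) ≤ ((N + n0 + 1 : ℕ) : ℝ) := by exact_mod_cast (by omega : n0 ≤ N + n0 + 1)
  rw [Nat.cast_mul] at h3
  rw [div_lt_iff₀ hc₁] at hn0
  generalize (((3 ^ 5) ^ 5 : ℕ) : ℝ) = C at *
  generalize ((N + n0 + 1 : ℕ) : ℝ) = x at *
  have h7 : c₁ * x ^ 2 ≤ x * C := (mul_le_mul_of_nonneg_left h5 hc₁.le).trans (hc.trans h3)
  have h8 : C < x * c₁ := hn0.trans_le (mul_le_mul_of_nonneg_right h6 hc₁.le)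
  nlinarith

end Pool.Agent.S09798
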