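import Pool.Statements.S09803
import Pool.Agent.H28.Steiner

set_option autoImplicit false
open Pool Pool.MP_828a2e_co

namespace Pool.Agent.S09803

/-- There is a constant c such that every finite group of order n embeds in the automorphism group of some Steiner triple system on at most n^c points. -/
theorem result :
    ∃ c : ℕ, ∀ (G : Type) [Group G] [Fintype G],
      ∃ (V : Type) (_ : Fintype V) (_ : DecidableEq V) (B : Finset (Finset V)),
        (∀ b ∈ B, b.card = 3) ∧
        (∀ x y : V, x ≠ y → ∃! b, b ∈ B ∧ x ∈ b ∧ y ∈ b) ∧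
        Fintype.card V ≤ (Fintype.card G) ^ c ∧
        ∃ φ : G →* Equiv.Perm V, Function.Injective φ ∧
          ∀ g : G, ∀ b ∈ B, b.image (⇑(φ g)) ∈ B := by
  exact ⟨6, fun G _ _ => Pool.Agent.H28.Steiner.main G⟩

end Pool.Agent.S09803
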