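import Pool.Statements.S09874

set_option autoImplicit false
open Pool Pool.MP_85fffe_co

namespace Pool.Agent.S09874

/-- The negation of the preceding statement: There is a constant C such that for every finite set X of n reals, any family of maximally repeated patterns of X, no two of which are translates of each other, has at most C·n members. -/
theorem result :
    ¬ (∃ C : ℕ, ∀ X : Finset ℝ, ∀ S : Finset (Finset ℝ),
      (∀ A ∈ S,
        A.Nonempty ∧ A ⊆ X ∧
        (∃ t : ℝ, t ≠ 0 ∧ A.image (· + t) ⊆ X) ∧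
        (∀ B : Finset ℝ, A ⊂ B →
          ¬ (∀ t : ℝ, A.image (· + t) ⊆ X → B.image (· + t) ⊆ X))) →
      (∀ A ∈ S, ∀ B ∈ S, ∀ t : ℝ, B = A.image (· + t) → A = B) →
      S.card ≤ C * X.card) := by
  classical
  rintro ⟨C, hC⟩
  obtain ⟨k, hk⟩ : ∃ k : ℕ, k = C + 3 := ⟨_, rfl⟩
  let X : Finset ℝ := ((Finset.range (6 * k + 1)).erase (3 * k)).image Nat.cast
  let A : Finset ℕ → Finset ℝ := fun U =>
    (Finset.range (4 * k + 1) \ insert k (insert (3 * k) U)).image Nat.cast
  have mX : ∀ n : ℕ, (n : ℝ) ∈ X ↔ n ≠ 3 * k ∧ n ≤ 6 * k := by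
    intro n
    simp only [X, Finset.mem_image, Nat.cast_inj, exists_eq_right, Finset.mem_erase,
      Finset.mem_range, Nat.lt_succ_iff]
  have mA : ∀ U (n : ℕ), (n : ℝ) ∈ A U ↔ n ≤ 4 * k ∧ n ≠ k ∧ n ≠ 3 * k ∧ n ∉ U := by
    intro U n
    simp only [A, Finset.mem_image, Nat.cast_inj, exists_eq_right, Finset.mem_sdiff,
      Finset.mem_range, Nat.lt_succ_iff, Finset.mem_insert, not_or]
  have nX : ∀ x ∈ X, ∃ n : ℕ, (n : ℝ) = x := by
    intro x hx
    obtain ⟨n, -, rfl⟩ := Finset.mem_image.1 hx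
    exact ⟨n, rfl⟩
  have nA : ∀ U, ∀ x ∈ A U, ∃ n : ℕ, (n : ℝ) = x := by
    intro U x hx
    obtain ⟨n, -, rfl⟩ := Finset.mem_image.1 hx
    exact ⟨n, rfl⟩
  have sh : ∀ U (t : ℕ), t ≤ 2 * k → ((3 * k - t : ℕ) : ℝ) ∉ A U →
      (A U).image (· + (t : ℝ)) ⊆ X := by
    intro U t ht hn x hx
    obtain ⟨a, ha, rfl⟩ := Finset.mem_image.1 hx
    obtain ⟨n, rfl⟩ := nA U a ha
    have h1 := ((mA U n).1 ha).1
    rw [← Nat.cast_add, mX]
    refine ⟨fun e => hn ?_, by omega⟩
    have : 3 * k - t = n := by omega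
    rw [this]
    exact ha
  have z : ∀ U ∈ (Finset.Ioo k (3 * k)).powerset, ((0 : ℕ) : ℝ) ∈ A U := by
    intro U hU
    rw [mA]
    refine ⟨by omega, by omega, by omega, fun h => ?_⟩
    have := Finset.mem_Ioo.1 (Finset.mem_powerset.1 hU h)
    omega
  have s0 : ∀ U, (A U).image (· + ((0 : ℕ) : ℝ)) ⊆ X := fun U =>
    sh U 0 (by omega) (by rw [mA]; omega)
  have s2 : ∀ U, (A U).image (· + ((2 * k : ℕ) : ℝ)) ⊆ X := fun U =>
    sh U (2 * k) le_rfl (by rw [mA]; omega)
  have key := hC X ((Finset.Ioo k (3 * k)).powerset.image A) ?_ ?_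
  · rw [Finset.card_image_of_injOn, Finset.card_powerset, Nat.card_Ioo] at key
    · have h1 : X.card ≤ 6 * k := by
        refine Finset.card_image_le.trans ?_
        rw [Finset.card_erase_of_mem (Finset.mem_range.2 (by omega)), Finset.card_range]
        omega
      have h2 : 3 * k - k - 1 = C + C + 5 := by omega
      have h3 : C < 2 ^ C := Nat.lt_two_pow_self
      rw [h2, pow_add, pow_add] at key
      have h4 : C * X.card ≤ C * (6 * (C + 3)) := Nat.mul_le_mul_left _ (hk ▸ h1)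
      nlinarith
    · intro U hU V hV e
      ext n
      by_cases hn : n ∈ Finset.Ioo k (3 * k)
      · have h1 := mA U n
        have h2 := mA V n
        rw [e, h2] at h1
        have := Finset.mem_Ioo.1 hn
        have h3 : n ≤ 4 * k := by omega
        have h4 : n ≠ k := by omega
        have h5 : n ≠ 3 * k := by omega
        tauto
      · exact ⟨fun h => absurd (Finset.mem_powerset.1 hU h) hn,
          fun h => absurd (Finset.mem_powerset.1 hV h) hn⟩
  · intro A' hA'
    obtain ⟨U, hU, rfl⟩ := Finset.mem_image.1 hA'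
    refine ⟨⟨_, z U hU⟩, by simpa using s0 U, ⟨_, ?_, s2 U⟩, fun B hB h => ?_⟩
    · have : 2 * k ≠ 0 := by omega
      exact_mod_cast this
    · obtain ⟨b, hb, hbA⟩ := Finset.exists_of_ssubset hB
      have b0 : b ∈ X := by simpa using h _ (s0 U) (Finset.mem_image_of_mem _ hb)
      obtain ⟨n, rfl⟩ := nX b b0
      have b2 := h _ (s2 U) (Finset.mem_image_of_mem _ hb)
      rw [← Nat.cast_add, mX] at b2
      rw [mX] at b0
      have hn : n ∈ U := by
        by_contra hn
        exact hbA ((mA U n).2 ⟨by omega, by omega, by omega, hn⟩)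
      have hn' := Finset.mem_Ioo.1 (Finset.mem_powerset.1 hU hn)
      have e : 3 * k - (3 * k - n) = n := by omega
      have b3 := h _ (sh U (3 * k - n) (by omega) (by rw [e]; exact hbA))
        (Finset.mem_image_of_mem _ hb)
      rw [← Nat.cast_add, mX] at b3
      omega
  · intro A' hA' B' hB' t e
    obtain ⟨U, hU, rfl⟩ := Finset.mem_image.1 hA'
    obtain ⟨V, hV, rfl⟩ := Finset.mem_image.1 hB'
    have h1 : ((0 : ℕ) : ℝ) + t ∈ A V := e ▸ Finset.mem_image_of_mem _ (z U hU)
    obtain ⟨n, hn⟩ := nA V _ h1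
    have h2 := z V hV
    rw [e] at h2
    obtain ⟨a, ha, h3⟩ := Finset.mem_image.1 h2
    obtain ⟨m, rfl⟩ := nA U a ha
    have h4 : (0 : ℝ) ≤ n := Nat.cast_nonneg n
    have h5 : (0 : ℝ) ≤ m := Nat.cast_nonneg m
    have ht : t = 0 := by
      simp only [Nat.cast_zero] at hn h3
      linarith
    subst ht
    simpa using e.symm

end Pool.Agent.S09874
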