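import Pool.Statements.S09896
import Pool.Agent.H19.PsiMain

set_option autoImplicit false
open Pool Pool.MP_86c288_co

namespace Pool.Agent.S09896

/-- The negation of the preceding statement: For all integers 2 ≤ a ≤ b ≤ c ≤ d ≤ e there is a finite graph with clique number a, chromatic number b, Grundy number c, achromatic number d and pseudoachromatic number e. -/
theorem result :
    ¬ (∀ a b c d e : ℕ, 2 ≤ a → a ≤ b → b ≤ c → c ≤ d → d ≤ e →
  ∃ n : ℕ, ∃ G : SimpleGraph (Fin n),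
    ((∃ s : Finset (Fin n), G.IsNClique a s) ∧ ∀ s : Finset (Fin n), ¬ G.IsNClique (a + 1) s) ∧
    G.chromaticNumber = (b : ℕ∞) ∧
    ((∃ f : Fin n → Fin c, Function.Surjective f ∧ (∀ u v, G.Adj u v → f u ≠ f v) ∧
        ∀ v, ∀ j : Fin c, j < f v → ∃ u, G.Adj v u ∧ f u = j) ∧
      ∀ k : ℕ, c < k → ¬ ∃ f : Fin n → Fin k, Function.Surjective f ∧ (∀ u v, G.Adj u v → f u ≠ f v) ∧
        ∀ v, ∀ j : Fin k, j < f v → ∃ u, G.Adj v u ∧ f u = j) ∧
    ((∃ f : Fin n → Fin d, Function.Surjective f ∧ (∀ u v, G.Adj u v → f u ≠ f v) ∧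
        ∀ i j : Fin d, i ≠ j → ∃ u v, G.Adj u v ∧ f u = i ∧ f v = j) ∧
      ∀ k : ℕ, d < k → ¬ ∃ f : Fin n → Fin k, Function.Surjective f ∧ (∀ u v, G.Adj u v → f u ≠ f v) ∧
        ∀ i j : Fin k, i ≠ j → ∃ u v, G.Adj u v ∧ f u = i ∧ f v = j) ∧
    ((∃ f : Fin n → Fin e, Function.Surjective f ∧
        ∀ i j : Fin e, i ≠ j → ∃ u v, G.Adj u v ∧ f u = i ∧ f v = j) ∧
      ∀ k : ℕ, e < k → ¬ ∃ f : Fin n → Fin k, Function.Surjective f ∧
        ∀ i j : Fin k, i ≠ j → ∃ u v, G.Adj u v ∧ f u = i ∧ f v = j)) := by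
  intro h
  obtain ⟨n, G, ⟨-, h1⟩, h2, -, -, -, h5⟩ := h 2 4 4 4 4 le_rfl (by norm_num) le_rfl le_rfl le_rfl
  apply h5 5 (by norm_num)
  apply H19.Psi.complete_five G
  · intro a b w ha hb hab
    apply h1 {a, b, w}
    rw [SimpleGraph.is3Clique_triple_iff]
    exact ⟨hab, ha, hb⟩
  · intro hc
    have := hc.chromaticNumber_le
    rw [h2] at this
    exact absurd this (by decide)

end Pool.Agent.S09896
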