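import Pool.Statements.S09922
import Pool.Agent.H16.Poset7

set_option autoImplicit false
open Classical
open Pool Pool.MP_880652_co

namespace Pool.Agent.S09922

/-- The negation of the preceding statement: For every finite poset with k comparable pairs, let a_i count linear orders of its points agreeing with exactly i comparable pairs; then a_0,…,a_k increases weakly up to some index and decreases weakly after it. -/
theorem result :
    ¬ (∀ (α : Type) [Fintype α] [PartialOrder α] (a : ℕ → ℕ),
      (∀ i : ℕ, a i =
        (Finset.univ.filter (fun σ : α ≃ Fin (Fintype.card α) =>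
          (Finset.univ.filter (fun p : α × α => p.1 < p.2 ∧ σ p.1 < σ p.2)).card = i)).card) →
      ∃ m : ℕ,
        (∀ i j : ℕ, i ≤ j → j ≤ m → a i ≤ a j) ∧
        (∀ i j : ℕ, m ≤ i → i ≤ j →
          j ≤ (Finset.univ.filter (fun p : α × α => p.1 < p.2)).card → a j ≤ a i)) := by
  intro h
  have key : ∀ i : ℕ,
      (Finset.univ.filter (fun σ : H16.Poset7.Pt ≃ Fin (Fintype.card H16.Poset7.Pt) =>
          (Finset.univ.filter (fun p : H16.Poset7.Pt × H16.Poset7.Pt =>
            p.1 < p.2 ∧ σ p.1 < σ p.2)).card = i)).card = H16.Poset7.num i := by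
    intro i
    unfold H16.Poset7.num
    let e : (H16.Poset7.Pt ≃ Fin (Fintype.card H16.Poset7.Pt)) ≃ Equiv.Perm (Fin 7) :=
      Equiv.equivCongr (Equiv.refl (Fin 7)) (finCongr H16.Poset7.card_Pt)
    refine Finset.card_equiv e ?_
    intro σ
    simp only [Finset.mem_filter, Finset.mem_univ, true_and]
    rw [← H16.Poset7.card_eq_cnt]
    have : (Finset.univ.filter (fun p : H16.Poset7.Pt × H16.Poset7.Pt =>
            p.1 < p.2 ∧ σ p.1 < σ p.2)).card =
        (Finset.univ.filter (fun p : Fin 7 × Fin 7 =>
          H16.Poset7.ltb p.1 p.2 = true ∧ (e σ) p.1 < (e σ) p.2)).card := by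
      refine Finset.card_equiv (Equiv.refl (Fin 7 × Fin 7)) ?_
      intro p
      simp only [Finset.mem_filter, Finset.mem_univ, true_and]
      exact Iff.rfl
    rw [this]
  obtain ⟨m, h1, h2⟩ := h H16.Poset7.Pt H16.Poset7.num (fun i => by
    rw [← key i]
    congr!)
  obtain ⟨h4, h5, h6⟩ := H16.Poset7.num_vals
  have hk : (Finset.univ.filter (fun p : H16.Poset7.Pt × H16.Poset7.Pt => p.1 < p.2)).card
      = 10 := by
    have : (Finset.univ.filter (fun p : H16.Poset7.Pt × H16.Poset7.Pt => p.1 < p.2)).card =
        (Finset.univ.filter (fun p : Fin 7 × Fin 7 =>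
          H16.Poset7.ltb p.1 p.2 = true)).card := by
      refine Finset.card_equiv (Equiv.refl (Fin 7 × Fin 7)) ?_
      intro p
      simp only [Finset.mem_filter, Finset.mem_univ, true_and]
      exact Iff.rfl
    rw [this]
    decide
  by_cases hm : 5 ≤ m
  · have := h1 4 5 (by norm_num) hm
    omega
  · have h8 := h2 5 6 (by omega) (by norm_num) (by
      refine le_trans (by norm_num : 6 ≤ 10) (le_of_eq ?_)
      rw [← hk])
    omega

end Pool.Agent.S09922
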