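import Pool.Statements.S09946
-- import your own Pool.Agent.* helpers here

set_option autoImplicit false
open Pool Pool.MP_8888ff_co

namespace Pool.Agent.S09946

open SimpleGraph Finset

def NoC {V : Type} (G : SimpleGraph V) (k : ℕ) : Prop :=
  ∀ v (c : G.Walk v v), c.IsCycle → k < c.length

lemma split {V : Type} (T : SimpleGraph V) (x y : V) {a b : V} (w : (T ⊔ edge x y).Walk a b)
    (h : w.edges.Nodup) (hm : s(x, y) ∈ w.edges) : ∃ x' y', s(x', y') = s(x, y) ∧
    ∃ (p : T.Walk a x') (q : T.Walk y' b), p.length + q.length + 1 = w.length := by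
  induction w with
  | nil => simp at hm
  | @cons a c b hac w ih =>
    rw [Walk.edges_cons, List.nodup_cons] at h
    by_cases e : s(a, c) = s(x, y)
    · refine ⟨a, c, e, Walk.nil, w.transfer T fun f hf => ?_, by simp⟩
      have := w.edges_subset_edgeSet hf
      rw [edgeSet_sup] at this
      exact this.resolve_right fun h' => h.1 (by rw [e, ← edgeSet_edge_subset h']; exact hf)
    · obtain ⟨x', y', e', p, q, hl⟩ := ih h.2 (by simpa [Ne.symm e] using hm)
      exact ⟨x', y', e', Walk.cons (hac.resolve_right fun h' => e ((adj_edge _ _).1 h').1.symm) p, q,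
        by simp; omega⟩

lemma addE {V : Type} (T : SimpleGraph V) (x y : V) (k : ℕ) (h : NoC T k)
    (hxy : ∀ p : T.Walk x y, k < p.length) : NoC (T ⊔ edge x y) k := by
  intro v c hc
  by_cases hm : s(x, y) ∈ c.edges
  · obtain ⟨x', y', e, p, q, hl⟩ := split T x y c hc.edges_nodup hm
    rcases Sym2.eq_iff.1 e with ⟨rfl, rfl⟩ | ⟨rfl, rfl⟩
    · have := hxy (q.append p).reverse; simp at this; omega
    · have := hxy (q.append p); simp at this; omega
  · have : ∀ f ∈ c.edges, f ∈ T.edgeSet := fun f hf => by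
      have := c.edges_subset_edgeSet hf
      rw [edgeSet_sup] at this
      exact this.resolve_right fun h' => hm (by rw [← edgeSet_edge_subset h']; exact hf)
    simpa using h v _ (hc.transfer this)

lemma ball {V : Type} [Finite V] (T : SimpleGraph V) (D : ℕ) (h : ∀ v, (T.neighborSet v).ncard ≤ D)
    (k : ℕ) (u : V) : {v | ∃ p : T.Walk u v, p.length ≤ k}.ncard ≤ (D + 1) ^ k := by
  classical
  have := Fintype.ofFinite V
  induction k generalizing u with
  | zero =>
    refine (Set.ncard_le_ncard (t := {u}) ?_).trans (by simp)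
    rintro v ⟨p, hp⟩
    exact (Walk.eq_of_length_eq_zero (Nat.le_zero.1 hp)).symm
  | succ k ih =>
    have : {v | ∃ p : T.Walk u v, p.length ≤ k + 1} ⊆ ((insert u (T.neighborFinset u)).biUnion
        fun w => {v | ∃ p : T.Walk w v, p.length ≤ k}.toFinset : Finset V) := by
      rintro v ⟨p, hp⟩
      cases p with
      | nil => simp only [coe_biUnion, Set.mem_iUnion]; exact ⟨u, by simp, by simp; exact ⟨.nil, by simp⟩⟩
      | @cons _ z _ h p =>
        simp only [coe_biUnion, Set.mem_iUnion]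
        exact ⟨z, by simp [h], by simp; exact ⟨p, by simpa using hp⟩⟩
    refine (Set.ncard_le_ncard this).trans ?_
    rw [Set.ncard_coe_finset]
    refine (card_biUnion_le_card_mul _ _ ((D + 1) ^ k) fun w _ => ?_).trans ?_
    · rw [← Set.ncard_eq_toFinset_card']; exact ih w
    · rw [pow_succ']
      gcongr
      refine (card_insert_le _ _).trans ?_
      have := h u
      rw [← coe_neighborFinset, Set.ncard_coe_finset] at this
      omega

lemma big (D k n : ℕ) (hk : 1 ≤ k) (hn : 2 * (D + 1) ^ k ≤ n) : ∃ T : SimpleGraph (Fin n),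
    (∀ v, (T.neighborSet v).ncard ≤ D) ∧ NoC T k ∧ D * n ≤ 4 * T.edgeSet.ncard := by
  classical
  obtain ⟨T, ⟨h1, h2⟩, hm⟩ := Set.Finite.exists_maximal (s := {T : SimpleGraph (Fin n) |
    (∀ v, (T.neighborSet v).ncard ≤ D) ∧ NoC T k}) (Set.toFinite _)
    ⟨⊥, by simp, fun v c hc => (isAcyclic_bot c hc).elim⟩
  refine ⟨T, h1, h2, ?_⟩
  have low : {v | (T.neighborSet v).ncard < D}.ncard ≤ (D + 1) ^ k := by
    rcases Set.eq_empty_or_nonempty {v | (T.neighborSet v).ncard < D} with e | ⟨u, hu⟩
    · simp [e]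
    refine (Set.ncard_le_ncard fun v hv => ?_).trans (ball T D h1 k u)
    by_contra hh
    simp only [Set.mem_ofPred_eq, not_exists, not_le] at hh hu hv
    have := hm (y := T ⊔ edge u v) ⟨fun w => ?_, addE T u v k h2 hh⟩ le_sup_left
    · have ne : u ≠ v := by rintro rfl; simpa using hh .nil
      have := hh (Walk.cons (this (Or.inr (by simp [edge_adj, ne]))) .nil)
      simp at this; omega
    · by_cases e : w = u ∨ w = v
      · refine (Set.ncard_le_ncard (t := insert (if w = u then v else u) (T.neighborSet w))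
          fun z hz => ?_).trans ((Set.ncard_insert_le _ _).trans ?_)
        · rcases hz with hz | hz
          · exact Or.inr hz
          · left; rw [edge_adj] at hz; grind
        · rcases e with rfl | rfl <;> omega
      · refine (Set.ncard_le_ncard fun z hz => ?_).trans (h1 w)
        rcases hz with hz | hz
        · exact hz
        · rw [edge_adj] at hz; grind
  have e1 := T.sum_degrees_eq_twice_card_edges
  have e2 : ∀ v, (T.neighborSet v).ncard = T.degree v := fun v => by
    rw [Set.ncard_eq_toFinset_card']; rfl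
  simp only [e2] at low
  rw [← coe_edgeFinset, Set.ncard_coe_finset]
  rw [Set.ncard_eq_toFinset_card', Set.toFinset_ofPred] at low
  have e3 := card_filter_add_card_filter_not (s := univ) (fun v => T.degree v < D)
  have e4 : #{v | ¬T.degree v < D} * D ≤ ∑ v, T.degree v :=
    (card_nsmul_le_sum _ _ D fun v hv => by simpa using hv).trans (sum_le_sum_of_subset (subset_univ _))
  rw [card_univ, Fintype.card_fin] at e3
  have e5 : n ≤ 2 * #{v | ¬T.degree v < D} := by omega
  nlinarith

lemma mind (d : ℕ) : ∀ (n : ℕ) (V : Type) [Fintype V] (G : SimpleGraph V), Fintype.card V = n →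
    d * n < G.edgeSet.ncard → ∃ m, ∃ H : SimpleGraph (Fin (m + 1)), H ⊑ G ∧
    ∀ v, d ≤ (H.neighborSet v).ncard := by
  classical
  intro n
  induction n with
  | zero =>
    intro V _ G h1 h2
    have := Fintype.card_eq_zero_iff.1 h1
    simp [Subsingleton.elim G ⊥] at h2
  | succ n ih =>
    intro V _ G h1 h2
    by_cases h : ∀ v, d ≤ G.degree v
    · let e := (Fintype.equivFinOfCardEq h1).symm
      refine ⟨n, G.comap e, ⟨(Iso.comap e G).toCopy⟩, fun v => ?_⟩
      rw [Set.ncard_congr' ((Iso.comap e G).mapNeighborSet v), ← coe_neighborFinset, Set.ncard_coe_finset]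
      exact h _
    · push Not at h
      obtain ⟨v, hv⟩ := h
      obtain ⟨m, H, a, b⟩ := ih ({v}ᶜ : Set V) (G.induce {v}ᶜ) (by rw [Fintype.card_compl_set, h1]; simp) (by
        rw [← coe_edgeFinset, Set.ncard_coe_finset] at h2 ⊢
        rw [card_edgeFinset_induce_compl_singleton, card_edgeFinset_deleteIncidenceSet]
        rw [mul_add] at h2; omega)
      exact ⟨m, H, a.trans ⟨(Embedding.induce _).toCopy⟩, b⟩

lemma leaf {V : Type} [Finite V] [Nonempty V] (H : SimpleGraph V) (h : H.IsAcyclic) :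
    ∃ v, (H.neighborSet v).ncard ≤ 1 := by
  obtain ⟨u, v, p, hp, hm⟩ := Walk.exists_isPath_forall_isPath_length_le_length H
  refine ⟨u, (Set.ncard_le_ncard (t := {p.snd}) fun w hw => ?_).trans (by simp)⟩
  refine h.eq_snd_of_adj_start hp hw ?_
  by_contra hh
  simpa using hm _ _ (Walk.cons (Adj.symm hw) p) (by simpa [hh] using hp)

def a : ℕ → ℕ
  | 0 => 4
  | i + 1 => 2 * (4 * (2 * (i + 2) ^ a i) + 4 + 1) ^ (4 * (2 * (i + 2) ^ a i) + 4)

def d (i : ℕ) : ℕ := 2 * (i + 2) ^ a i
def D (i : ℕ) : ℕ := 4 * d i + 4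

lemma a_succ (i : ℕ) : a (i + 1) = 2 * (D i + 1) ^ D i := rfl
lemma aD (i : ℕ) : a i < d i := by
  have := Nat.lt_pow_self (n := a i) (a := i + 2) (by omega)
  unfold d; omega
lemma Da (i : ℕ) : D i < a (i + 1) := by
  have := Nat.lt_pow_self (n := D i) (a := D i + 1) (by unfold D; omega)
  rw [a_succ]; omega
lemma amono : Monotone a := monotone_nat_of_le_succ fun i => by
  have := aD i; have := Da i; unfold D at *; omega

def A (l : ℕ) : Prop := l = 4 ∨ ∃ i, D i < l ∧ l ≤ a (i + 1)

lemma A3 (l : ℕ) (h : A l) : 2 < l := by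
  rcases h with rfl | ⟨i, h, -⟩
  · omega
  · unfold D at h; omega

lemma gap (l i : ℕ) (h : A l) : l ≤ a i ∨ D i < l := by
  rcases h with rfl | ⟨j, h1, h2⟩
  · exact Or.inl (amono (Nat.zero_le i))
  · rcases lt_trichotomy j i with h | rfl | h
    · exact Or.inl (h2.trans (amono h))
    · exact Or.inr h1
    · have := amono (show i + 1 ≤ j from h)
      have := Da i; have := aD j
      right; unfold D at *; omega

lemma cyc_le {V : Type} [Fintype V] (G : SimpleGraph V) (v : V) (c : G.Walk v v) (h : c.IsCycle) :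
    c.length ≤ Fintype.card V := by
  obtain ⟨f⟩ := (cycleGraph_isContained_iff (n := c.length) h.three_le_length).2 ⟨v, c, h, rfl⟩
  simpa using Fintype.card_le_of_injective _ f.injective


/-- The negation of the preceding statement: For every graph family whose members all contain a cycle and one is bipartite, some c>0 ensures every graph with min degree δ≥1 and max degree Δ has a spanning F-free subgraph of min degree at least c·ex(K_Δ,F)·δ/Δ². -/
theorem result :
    ¬ (∀ F : Set (Σ k : ℕ, SimpleGraph (Fin k)),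
      (∀ p ∈ F, ¬ p.2.IsAcyclic) →
      (∃ p ∈ F, p.2.Colorable 2) →
      ∃ c : ℝ, 0 < c ∧
        ∀ δ Δ : ℕ, 1 ≤ δ → δ ≤ Δ →
          ∀ n : ℕ, ∀ G : SimpleGraph (Fin n),
            (∀ v, δ ≤ (G.neighborSet v).ncard) →
            (∃ v, (G.neighborSet v).ncard = δ) →
            (∀ v, (G.neighborSet v).ncard ≤ Δ) →
            (∃ v, (G.neighborSet v).ncard = Δ) →
            ∀ T : SimpleGraph (Fin Δ),
              (∀ p ∈ F, ¬ p.2.IsContained T) →
              ∃ H : SimpleGraph (Fin n), H ≤ G ∧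
                (∀ p ∈ F, ¬ p.2.IsContained H) ∧
                ∀ v, c * (T.edgeSet.ncard : ℝ) * (δ : ℝ) / (Δ : ℝ) ^ 2
                  ≤ ((H.neighborSet v).ncard : ℝ)) := by
  intro hF
  obtain ⟨c, c0, hc⟩ := hF {p | ∃ l, A l ∧ p = ⟨l, cycleGraph l⟩} (by
    rintro _ ⟨l, hl, rfl⟩ h
    obtain ⟨v, p, hp, -⟩ := (cycleGraph_isContained_iff (A3 l hl)).1 (IsContained.refl _)
    exact h p hp) ⟨_, ⟨4, Or.inl rfl, rfl⟩, (cycleGraph.bicoloring_of_even 4 (by decide)).colorable⟩
  obtain ⟨i, hi⟩ := exists_nat_gt (32 / c)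
  have a4 : 4 ≤ a i := amono (Nat.zero_le i)
  have ad := aD i
  obtain ⟨G0, g1, g2, g3⟩ := big (D i) (D i) (a (i + 1)) (by unfold D; omega) (a_succ i).ge
  obtain ⟨m, G, ⟨f⟩, hG⟩ := mind (d i) _ _ G0 (Fintype.card_fin _) (by
    have := Da i; unfold D at *; nlinarith)
  obtain ⟨u, hu⟩ := Finite.exists_min fun v => (G.neighborSet v).ncard
  obtain ⟨w, hw⟩ := Finite.exists_max fun v => (G.neighborSet v).ncard
  have hD : (G.neighborSet w).ncard ≤ D i := (Set.ncard_le_ncard_of_injOn f
    (fun z hz => f.toHom.map_adj hz) f.injective.injOn).trans (g1 (f w))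
  have hd := hG u
  obtain ⟨T, -, t2, t3⟩ := big (i + 1) (a i) _ (by omega) (hd.trans (hu w))
  obtain ⟨H, h1, h2, h3⟩ := hc _ _ (by omega) (hu w) _ G hu ⟨u, rfl⟩ hw ⟨w, rfl⟩ T (by
    rintro _ ⟨l, hl, rfl⟩ h
    obtain ⟨v, p, hp, rfl⟩ := (cycleGraph_isContained_iff (A3 l hl)).1 h
    have := t2 v p hp
    have := cyc_le T v p hp
    have := gap _ i hl
    simp only [Fintype.card_fin] at *
    omega)
  obtain ⟨v, hv⟩ := leaf H fun v p hp => by
    have hq := (Walk.isCycle_map_iff_of_injective (f := f.toHom) f.injective).2 (hp.mapLe h1)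
    have b1 := g2 _ _ hq
    have b2 := cyc_le _ _ _ hq
    simp only [Walk.length_map, Fintype.card_fin] at b1 b2
    exact h2 _ ⟨_, Or.inr ⟨i, b1, b2⟩, rfl⟩
      ((cycleGraph_isContained_iff hp.three_le_length).2 ⟨v, p, hp, rfl⟩)
  have h4 := (h3 v).trans (Nat.cast_le.2 hv)
  have h5 := hu w
  generalize T.edgeSet.ncard = e at t3 h4
  clear t2 h3 T
  generalize (G.neighborSet w).ncard = x, (G.neighborSet u).ncard = y at *
  have h6 : x ≤ 8 * y := by unfold D at hD; omega
  have h7 : i * x ^ 2 ≤ 32 * (e * y) := by nlinarith [Nat.mul_le_mul t3 h6, Nat.zero_le (x * x)]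
  have x0 : (0 : ℝ) < x := by exact_mod_cast (by omega : 0 < x)
  rw [div_le_iff₀ (by positivity)] at h4
  rw [div_lt_iff₀ c0] at hi
  have h8 : (i : ℝ) * x ^ 2 ≤ 32 * (e * y) := by exact_mod_cast h7
  push_cast at h4
  nlinarith [mul_le_mul_of_nonneg_left h8 c0.le, mul_lt_mul_of_pos_right hi (pow_pos x0 2)]

end Pool.Agent.S09946
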