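import Pool.Statements.S10106
-- import your own Pool.Agent.* helpers here

set_option autoImplicit false
open Pool Pool.MP_8f9b2f_co

namespace Pool.Agent.S10106

open Finset

lemma ball_card (n r : ℕ) :
    (univ.filter fun x : Fin n → Bool => hammingDist x (fun _ => false) ≤ r).card * 2 ^ (n - r)
      ≤ 3 ^ n := by
  have h1 : ∑ x : Fin n → Bool, ∏ i, (if x i = false then 2 else 1) = 3 ^ n := by
    have := Finset.prod_univ_sum (fun _ : Fin n => (univ : Finset Bool))
      (fun _ (b : Bool) => if b = false then 2 else 1)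
    rw [Fintype.piFinset_univ] at this
    rw [← this]
    simp
  rw [← h1, ← smul_eq_mul, ← sum_const]
  refine le_trans (sum_le_sum fun x hx => ?_) (sum_le_sum_of_subset (filter_subset _ _))
  have hx' := (mem_filter.1 hx).2
  rw [prod_ite, prod_const, prod_const_one, mul_one]
  refine Nat.pow_le_pow_right (by norm_num) ?_
  have h2 := card_filter_add_card_filter_not (s := (univ : Finset (Fin n))) (fun i => x i = false)
  simp only [hammingDist] at hx'
  rw [card_univ, Fintype.card_fin] at h2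
  have h3 : (univ.filter fun i => ¬ x i = false).card ≤ r := hx'
  omega

lemma pow_aux (r : ℕ) (hr : 4 ≤ r) : 4 * 81 ^ r ≤ 128 ^ r := by
  induction r, hr using Nat.le_induction with
  | base => norm_num
  | succ r _ ih => rw [pow_succ, pow_succ]; omega

lemma exists_set (m r : ℕ) (hr : 4 ≤ r) (hm : m + 2 = 4 * r) :
    ∃ S : Finset (Fin (m + 2) → Bool), 2 * S.card = 2 ^ (m + 2) ∧
      (∀ x, hammingDist x (fun _ => false) ≤ r → x ∈ S) ∧
      ∀ x, ∃ y ∈ S, hammingDist x y ≤ 2 := by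
  let Bl := univ.filter fun x : Fin (m + 2) → Bool => hammingDist x (fun _ => false) ≤ r
  let P : Finset (Fin (m + 2) → Bool) :=
    univ.image fun y : Fin m → Bool => Fin.cons true (Fin.cons true y)
  have hP : P.card ≤ 2 ^ m := le_trans card_image_le (by simp)
  have hB : Bl.card ≤ 2 ^ m := by
    have h1 := ball_card (m + 2) r
    have h2 := pow_aux r hr
    have e1 : m + 2 - r = 3 * r := by omega
    have e2 : 3 ^ (m + 2) = 81 ^ r := by rw [hm, pow_mul]; norm_num
    have e3 : 128 ^ r = 4 * (2 ^ m * 2 ^ (3 * r)) := by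
      rw [show (128 : ℕ) = 2 ^ 7 by norm_num, ← pow_mul, show (4 : ℕ) = 2 ^ 2 by norm_num,
        ← pow_add, ← pow_add]
      congr 1; omega
    rw [e1, e2] at h1
    have h3 : Bl.card * 2 ^ (3 * r) ≤ 2 ^ m * 2 ^ (3 * r) := by
      change Bl.card * _ ≤ _ at h1
      omega
    exact Nat.le_of_mul_le_mul_right h3 (by positivity)
  obtain ⟨S, h1, -, h2⟩ := exists_subsuperset_card_eq (subset_univ (Bl ∪ P)) (n := 2 ^ (m + 1))
    (le_trans (card_union_le _ _) (by rw [pow_succ]; omega))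
    (by simp only [card_univ, Fintype.card_fun, Fintype.card_bool, Fintype.card_fin]
        exact Nat.pow_le_pow_right (by norm_num) (by omega))
  refine ⟨S, by rw [h2]; ring, fun x hx => h1 (mem_union_left _ (mem_filter.2 ⟨mem_univ _, hx⟩)),
    fun x => ⟨Fin.cons true (Fin.cons true (Fin.tail (Fin.tail x))),
      h1 (mem_union_right _ (mem_image.2 ⟨_, mem_univ _, rfl⟩)), ?_⟩⟩
  refine le_trans (card_le_card (t := {0, 1}) ?_) card_le_two
  intro i hi
  have hi' := (mem_filter.1 hi).2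
  revert hi'
  refine Fin.cases ?_ (fun i => ?_) i
  · simp
  · refine Fin.cases ?_ (fun i => ?_) i
    · simp
    · simp [Fin.tail]

lemma stretch {n r : ℕ} {S : Finset (Fin n → Bool)}
    (h1 : ∀ x, hammingDist x (fun _ => false) ≤ r → x ∈ S)
    (h2 : ∀ x, ∃ y ∈ S, hammingDist x y ≤ 2) (φ : (Fin n → Bool) ≃ (Fin n → Bool))
    (h3 : ∀ x ∈ S, φ x ∉ S) {C : ℝ} (hC : 0 ≤ C)
    (h4 : ∀ x y, (hammingDist (φ x) (φ y) : ℝ) ≤ C * (hammingDist x y : ℝ)) :
    (r : ℝ) ≤ 2 * C := by
  obtain ⟨y, hy, hd⟩ := h2 (φ.symm fun _ => false)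
  have h5 := h4 (φ.symm fun _ => false) y
  rw [Equiv.apply_symm_apply, hammingDist_comm] at h5
  have h6 : r < hammingDist (φ y) (fun _ => false) := by
    by_contra hc
    exact h3 y hy (h1 _ (not_lt.1 hc))
  have h7 : (r : ℝ) < hammingDist (φ y) (fun _ => false) := by exact_mod_cast h6
  have h8 : (hammingDist (φ.symm fun _ => false) y : ℝ) ≤ 2 := by exact_mod_cast hd
  nlinarith

/-- The negation of the preceding statement: There exist α<2 and K such that for every n≥1 and all balanced f,g on {0,1}^n, some bijection φ with g∘φ=f has Hamming-Lipschitz constants of φ and φ⁻¹ whose product is at most K·n^α. -/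
theorem result :
    ¬ (∃ α : ℝ, α < 2 ∧ ∃ K : ℝ, ∀ n : ℕ, 1 ≤ n → ∀ f g : (Fin n → Bool) → Bool,
      2 * (Finset.univ.filter (fun x => f x = true)).card = 2 ^ n →
      2 * (Finset.univ.filter (fun x => g x = true)).card = 2 ^ n →
      ∃ φ : (Fin n → Bool) ≃ (Fin n → Bool), (∀ x, g (φ x) = f x) ∧
        ∃ C₁ C₂ : ℝ, 0 ≤ C₁ ∧ 0 ≤ C₂ ∧
          (∀ x y, (hammingDist (φ x) (φ y) : ℝ) ≤ C₁ * (hammingDist x y : ℝ)) ∧
          (∀ x y, (hammingDist (φ.symm x) (φ.symm y) : ℝ) ≤ C₂ * (hammingDist x y : ℝ)) ∧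
          C₁ * C₂ ≤ K * (n : ℝ) ^ α) := by
  rintro ⟨α, hα, K, h⟩
  have ht := (tendsto_rpow_atTop (sub_pos.2 hα)).eventually_gt_atTop (64 * K)
  obtain ⟨a, ha⟩ := Filter.eventually_atTop.1 ht
  obtain ⟨r, hr⟩ := exists_nat_ge (max a 4)
  have hr4 : 4 ≤ r := by exact_mod_cast le_trans (le_max_right a 4) hr
  have hra : a ≤ r := le_trans (le_max_left a 4) hr
  obtain ⟨m, hm⟩ : ∃ m, m + 2 = 4 * r := ⟨4 * r - 2, by omega⟩
  obtain ⟨S, hS, h1, h2⟩ := exists_set m r hr4 hm
  obtain ⟨φ, hφ, C₁, C₂, c1, c2, l1, l2, hK⟩ := h (m + 2) (by omega)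
    (fun x => decide (x ∈ S)) (fun x => decide (x ∉ S)) (by simpa using hS) (by
      have := card_filter_add_card_filter_not (s := (univ : Finset (Fin (m + 2) → Bool)))
        (fun x => x ∈ S)
      simp only [decide_eq_true_eq]
      simp only [filter_mem_eq_inter, univ_inter, card_univ, Fintype.card_fun, Fintype.card_bool,
        Fintype.card_fin] at this
      omega)
  have hφ' : ∀ x, φ x ∉ S ↔ x ∈ S := fun x => decide_eq_decide.1 (hφ x)
  have a1 := stretch h1 h2 φ (fun x hx => (hφ' x).2 hx) c1 l1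
  have a2 := stretch h1 h2 φ.symm (fun x hx h3 => by
    have := (hφ' _).2 h3
    rw [Equiv.apply_symm_apply] at this
    exact this hx) c2 l2
  have hn : ((m + 2 : ℕ) : ℝ) = 4 * r := by exact_mod_cast hm
  have hr0 : (0 : ℝ) < r := by exact_mod_cast (by omega : 0 < r)
  rw [hn] at hK
  have h5 := ha (4 * r) (by linarith)
  have h6 : (4 * r : ℝ) ^ (2 - α) * (4 * r : ℝ) ^ α = (4 * r : ℝ) ^ 2 := by
    rw [← Real.rpow_add (by positivity), sub_add_cancel, Real.rpow_two]
  have h7 : 0 < (4 * r : ℝ) ^ α := by positivity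
  have h8 := mul_lt_mul_of_pos_right h5 h7
  have h9 : (r : ℝ) * r ≤ (2 * C₁) * (2 * C₂) := mul_le_mul a1 a2 hr0.le (by positivity)
  nlinarith

end Pool.Agent.S10106
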