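import Pool.Statements.S10122
import Pool.Agent.H7.VecM

set_option autoImplicit false
open Pool Pool.MP_908e85_co

namespace Pool.Agent.S10122

open Pool.Agent.H7

/-- Vectors in `GF(2)^4`: row `i` consists of copies of `e i`, except that for `i ≠ 3` its entry in
position `0` is `e i + (1,1,1,1)`. -/
def vec (x : Fin 4 × Fin 4) : Fin 4 → ZMod 2 :=
  fun s => if x.2 = 0 ∧ x.1 ≠ 3 then (if s = x.1 then 0 else 1) else (if s = x.1 then 1 else 0)

def bs : Fin 4 → Fin 4 → Fin 4 × Fin 4 :=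
  ![![(0, 0), (0, 1), (2, 0), (3, 0)], ![(1, 0), (1, 1), (2, 1), (3, 1)],
    ![(0, 2), (1, 2), (2, 2), (3, 2)], ![(0, 3), (1, 3), (2, 3), (3, 3)]]

theorem bs_inj : ∀ i a b, bs i a = bs i b → a = b := by decide +kernel

theorem bs_ind : ∀ i : Fin 4, ∀ g0 g1 g2 g3 : ZMod 2,
    (∀ s, g0 * vec (bs i 0) s + g1 * vec (bs i 1) s + g2 * vec (bs i 2) s + g3 * vec (bs i 3) s = 0) →
    g0 = 0 ∧ g1 = 0 ∧ g2 = 0 ∧ g3 = 0 := by decide +kernel

theorem col_dep : ∀ t0 t1 t2 t3 : Fin 4,
    ((t0 == 0) ^^ (t1 == 0) ^^ (t2 == 0)) = true → ∃ g0 g1 g2 g3 : ZMod 2,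
    (∀ s, g0 * vec (0, t0) s + g1 * vec (1, t1) s + g2 * vec (2, t2) s + g3 * vec (3, t3) s = 0) ∧
    ¬ (g0 = 0 ∧ g1 = 0 ∧ g2 = 0 ∧ g3 = 0) := by decide +kernel

theorem odd_col : ∀ j0 j1 j2 : Fin 4, ∃ j : Fin 4,
    ((j == j0) ^^ (j == j1) ^^ (j == j2)) = true := by decide +kernel

theorem li_iff (w : Fin 4 → Fin 4 → ZMod 2) : LinearIndependent (ZMod 2) w ↔
    ∀ g0 g1 g2 g3 : ZMod 2, (∀ s, g0 * w 0 s + g1 * w 1 s + g2 * w 2 s + g3 * w 3 s = 0) →
      g0 = 0 ∧ g1 = 0 ∧ g2 = 0 ∧ g3 = 0 := by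
  rw [Fintype.linearIndependent_iff]
  constructor
  · intro h g0 g1 g2 g3 hs
    have := h ![g0, g1, g2, g3] (by
      funext s
      simpa [Fin.sum_univ_four] using hs s)
    exact ⟨this 0, this 1, this 2, this 3⟩
  · intro h g hg i
    have := h (g 0) (g 1) (g 2) (g 3) (fun s => by
      have := congrFun hg s
      simpa [Fin.sum_univ_four] using this)
    fin_cases i
    · exact this.1
    · exact this.2.1
    · exact this.2.2.1
    · exact this.2.2.2

def Fr (i : Fin 4) : Finset (Fin 4 × Fin 4) := Finset.univ.image (fun j => (i, j))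

def Bs (i : Fin 4) : Finset (Fin 4 × Fin 4) := Finset.univ.image (bs i)

theorem card_Fr : ∀ i, (Fr i).card = 4 := by decide +kernel
theorem card_Bs : ∀ i, (Bs i).card = 4 := by decide +kernel
theorem sum_eq : ∑ i, (Fr i).val = ∑ i, (Bs i).val := by decide +kernel

theorem fr4 : Module.finrank (ZMod 2) (Fin 4 → ZMod 2) = 4 := by simp

/-- The negation of the preceding statement: For even k and a rank-k matroid, if k sets of size k have multiset union equal to that of k bases, then each set's elements can be spread over k columns so every column takes one element per set and forms a basis. -/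
theorem result :
    ¬ (∀ (α : Type) (M : Matroid α) (k : ℕ), Even k →
      ∀ (F B : Fin k → Finset α),
        (∀ i, M.IsBase (↑(B i) : Set α)) →
        (∀ i, (B i).card = k) →
        (∀ i, (F i).card = k) →
        (∑ i, (F i).val = ∑ i, (B i).val) →
        ∃ σ : Fin k → Fin k → α,
          (∀ i, Function.Injective (σ i) ∧ ∀ j, σ i j ∈ F i) ∧
          (∀ j, Function.Injective (fun i => σ i j) ∧
            M.IsBase (Set.range (fun i => σ i j)))) := by
  intro hall
  have hB : ∀ i, (vecMatroid (ZMod 2) vec).IsBase (↑(Bs i) : Set (Fin 4 × Fin 4)) := by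
    intro i
    have : (↑(Bs i) : Set (Fin 4 × Fin 4)) = Set.range (bs i) := by
      simp [Bs]
    rw [this, vecMatroid_isBase_range vec (bs i) (fun a b h => bs_inj i a b h) fr4, li_iff]
    exact bs_ind i
  obtain ⟨σ, h1, h2⟩ := hall (Fin 4 × Fin 4) (vecMatroid (ZMod 2) vec) 4 (by decide) Fr Bs hB
    card_Bs card_Fr sum_eq
  have hfst : ∀ i j, σ i j = (i, (σ i j).2) := by
    intro i j
    have := (h1 i).2 j
    simp only [Fr, Finset.mem_image, Finset.mem_univ, true_and] at this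
    obtain ⟨a, ha⟩ := this
    rw [← ha]
  have hinj : ∀ i, Function.Injective (fun j => (σ i j).2) := by
    intro i a b hab
    apply (h1 i).1
    rw [hfst i a, hfst i b]
    exact congrArg (Prod.mk i) hab
  have hex : ∀ i, ∃ j0, ∀ j, ((σ i j).2 == 0) = (j == j0) := by
    intro i
    obtain ⟨j0, hj0⟩ := (Finite.injective_iff_surjective.1 (hinj i)) 0
    refine ⟨j0, fun j => ?_⟩
    rw [Bool.eq_iff_iff, beq_iff_eq, beq_iff_eq]
    constructor
    · intro h
      exact hinj i (h.trans hj0.symm)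
    · intro h
      rw [h]; exact hj0
  choose J hJ using hex
  obtain ⟨j, hj⟩ := odd_col (J 0) (J 1) (J 2)
  rw [← hJ 0 j, ← hJ 1 j, ← hJ 2 j] at hj
  obtain ⟨g0, g1, g2, g3, hg, hng⟩ := col_dep _ _ _ (σ 3 j).2 hj
  have hb := (h2 j).2
  rw [vecMatroid_isBase_range vec (fun i => σ i j) (h2 j).1 fr4, li_iff] at hb
  apply hng
  apply hb
  intro s
  have := hg s
  rw [← hfst 0 j, ← hfst 1 j, ← hfst 2 j, ← hfst 3 j] at this
  exact this

end Pool.Agent.S10122
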