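import Pool.Statements.S10123
import Pool.Agent.H2.Corner

set_option autoImplicit false
open Pool Pool.MP_9095c8_co

namespace Pool.Agent.S10123

/-- There are α, δ > 0 such that for every ε > 0 and arbitrarily large N, some A in (Z/NZ)^2 has density within ε of α, all nontrivial Fourier coefficients at most ε, and at most (α^3 − δ)N^3 corners (x,y,d). -/
theorem result :
    ∃ α δ : ℝ, 0 < α ∧ 0 < δ ∧
      ∀ ε : ℝ, 0 < ε → ∀ M : ℕ, ∃ n : ℕ, M ≤ n + 1 ∧
        ∃ A : Finset (ZMod (n + 1) × ZMod (n + 1)),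
          |(A.card : ℝ) / ((n : ℝ) + 1) ^ 2 - α| ≤ ε ∧
          (∀ r : ZMod (n + 1) × ZMod (n + 1), r ≠ 0 →
            ‖∑ x ∈ A, Complex.exp (2 * (Real.pi : ℂ) * Complex.I *
                (((r.1 * x.1 + r.2 * x.2 : ZMod (n + 1)).val : ℂ)) / ((n : ℂ) + 1))‖
              ≤ ε * ((n : ℝ) + 1) ^ 2) ∧
          (((Finset.univ : Finset (ZMod (n + 1) × ZMod (n + 1) × ZMod (n + 1))).filter
              (fun t : ZMod (n + 1) × ZMod (n + 1) × ZMod (n + 1) =>
                (t.1, t.2.1) ∈ A ∧ (t.1 + t.2.2, t.2.1) ∈ A ∧ (t.1, t.2.1 + t.2.2) ∈ A)).card : ℝ)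
            ≤ (α ^ 3 - δ) * ((n : ℝ) + 1) ^ 3 := by
  refine ⟨3 / 4, 1 / 128, by norm_num, by norm_num, fun ε hε M => ?_⟩
  obtain ⟨η, hη, h1, h2⟩ : ∃ η : ℝ, 0 < η ∧ η ≤ ε ∧ η ≤ 1 / 192 :=
    ⟨min ε (1 / 192), by positivity, min_le_left _ _, min_le_right _ _⟩
  obtain ⟨K, hK⟩ := exists_nat_ge (8 / η ^ 2)
  obtain ⟨p, hp1, hp⟩ := Nat.exists_infinite_primes (M + K + 3)
  obtain ⟨n, rfl⟩ : ∃ n, p = n + 1 := ⟨p - 1, by omega⟩
  have := Fact.mk hp
  have hF : ringChar (ZMod (n + 1)) ≠ 2 := by rw [ZMod.ringChar_zmod_n]; omega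
  have hc : (Fintype.card (ZMod (n + 1)) : ℝ) = (n : ℝ) + 1 := by rw [ZMod.card]; push_cast; rfl
  have hp8 : 8 ≤ η ^ 2 * Fintype.card (ZMod (n + 1)) := by
    rw [hc]
    rw [div_le_iff₀ (by positivity)] at hK
    have : (K : ℝ) ≤ n + 1 := by exact_mod_cast (by omega)
    nlinarith [sq_nonneg η]
  have hN : (0 : ℝ) < ((n : ℝ) + 1) ^ 2 := by positivity
  have hεN := mul_le_mul_of_nonneg_right h1 hN.le
  refine ⟨n, by omega, H2.Corner.A (ZMod (n + 1)), ?_, fun r hr => ?_, ?_⟩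
  · have := H2.Corner.fourier hF η hη hp8 ZMod.stdAddChar 0 0
    rw [hc] at this
    simp only [zero_mul, add_zero, AddChar.map_zero_eq_one, Finset.sum_const, Finset.card_univ,
      nsmul_eq_mul, mul_one, ZMod.card] at this
    have e : ((H2.Corner.A (ZMod (n + 1))).card : ℂ) - 3 / 4 * ((n + 1 : ℕ) * (n + 1 : ℕ)) =
        ((((H2.Corner.A (ZMod (n + 1))).card : ℝ) - 3 / 4 * ((n : ℝ) + 1) ^ 2 : ℝ) : ℂ) := by
      push_cast; ring
    rw [e, Complex.norm_real, Real.norm_eq_abs] at this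
    rw [div_sub' hN.ne', abs_div, abs_of_pos hN, div_le_iff₀ hN, mul_comm _ (3 / 4 : ℝ)]
    linarith
  · have := H2.Corner.fourier hF η hη hp8 ZMod.stdAddChar r.1 r.2
    have z : ∑ x : ZMod (n + 1), ∑ y : ZMod (n + 1),
        ZMod.stdAddChar (r.1 * x + r.2 * y) = 0 := by
      simp_rw [AddChar.map_add_eq_mul, ← Finset.mul_sum, ← Finset.sum_mul, mul_comm r.1,
        mul_comm r.2, AddChar.sum_mulShift _ (ZMod.isPrimitive_stdAddChar _)]
      by_cases a : r.1 = 0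
      · have b : r.2 ≠ 0 := fun b => hr (Prod.ext a b)
        simp [b]
      · simp [a]
    rw [z, mul_zero, sub_zero, hc] at this
    simp only [ZMod.stdAddChar_apply, ZMod.toCircle_apply, Nat.cast_add, Nat.cast_one] at this
    linarith
  · have := H2.Corner.corners hF η hη hp8
    rw [hc] at this
    have e : (((Finset.univ : Finset (ZMod (n + 1) × ZMod (n + 1) × ZMod (n + 1))).filter
        (fun t : ZMod (n + 1) × ZMod (n + 1) × ZMod (n + 1) =>
          (t.1, t.2.1) ∈ H2.Corner.A (ZMod (n + 1)) ∧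
          (t.1 + t.2.2, t.2.1) ∈ H2.Corner.A (ZMod (n + 1)) ∧
          (t.1, t.2.1 + t.2.2) ∈ H2.Corner.A (ZMod (n + 1)))).card : ℝ) =
        ∑ x : ZMod (n + 1), ∑ y : ZMod (n + 1), ∑ d : ZMod (n + 1),
          H2.Corner.f x y * H2.Corner.f (x + d) y * H2.Corner.f x (y + d) := by
      rw [← Finset.sum_boole, Fintype.sum_prod_type]
      refine Finset.sum_congr rfl fun x _ => ?_
      rw [Fintype.sum_prod_type]
      refine Finset.sum_congr rfl fun y _ => Finset.sum_congr rfl fun d _ => ?_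
      simp only [H2.Corner.f_ind]
      split_ifs <;> simp_all
    rw [e]
    refine this.trans (mul_le_mul_of_nonneg_right (by linarith) (by positivity))

end Pool.Agent.S10123
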