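import Pool.Statements.S10141
import Pool.Agent.H27.NB2

set_option autoImplicit false
open Pool Pool.MP_9137bf_co

namespace Pool.Agent.S10141

/-- With ρ the real root of x^3-x-2, for every ε>0 and all large g, every finite connected graph with half its vertices of degree 2, half of degree 3, and girth at least g has at least ρ^((1-ε)g/2) vertices. -/
theorem result :
  ∀ ρ : ℝ, ρ ^ 3 - ρ - 2 = 0 →
  ∀ ε : ℝ, 0 < ε →
  ∃ g₀ : ℕ, ∀ g : ℕ, g₀ ≤ g →
  ∀ (V : Type) [Fintype V] [DecidableEq V] (G : SimpleGraph V) [DecidableRel G.Adj],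
    G.Connected →
    (∀ v, G.degree v = 2 ∨ G.degree v = 3) →
    2 * (Finset.univ.filter (fun v => G.degree v = 2)).card = Fintype.card V →
    (g : ℕ∞) ≤ G.egirth →
    ρ ^ ((1 - ε) * (g : ℝ) / 2) ≤ (Fintype.card V : ℝ) := by
  intro ρ h ε hε
  exact Pool.Agent.H27.NB.moore h ε hε

end Pool.Agent.S10141
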