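import Pool.Statements.S10161
import Pool.Agent.H19.PosetDim

set_option autoImplicit false
open Pool Pool.MP_9219e0_co

namespace Pool.Agent.S10161

/-- For every subgraph-closed class of bipartite graphs whose associated height-2 posets (lower side below adjacent upper vertices) all have dimension at most some d, there is D with every member having at most D times its vertex count edges. -/
theorem result :
    ∀ C : (m : ℕ) → (n : ℕ) → (Fin m → Fin n → Prop) → Prop,
      (∀ (m n : ℕ) (R : Fin m → Fin n → Prop) (m' n' : ℕ) (R' : Fin m' → Fin n' → Prop)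
          (e : Fin m' ↪ Fin m) (g : Fin n' ↪ Fin n),
          C m n R → (∀ a b, R' a b → R (e a) (g b)) → C m' n' R') →
      (∃ d : ℕ, ∀ (m n : ℕ) (R : Fin m → Fin n → Prop), C m n R →
          ∃ f : Fin d → (Fin m ⊕ Fin n) → ℕ,
            (∀ i, Function.Injective (f i)) ∧
            ∀ x y : Fin m ⊕ Fin n, x ≠ y →
              ((∃ a b, x = Sum.inl a ∧ y = Sum.inr b ∧ R a b) ↔ ∀ i, f i x < f i y)) →
      ∃ D : ℕ, ∀ (m n : ℕ) (R : Fin m → Fin n → Prop), C m n R →
        Set.ncard {p : Fin m × Fin n | R p.1 p.2} ≤ D * (m + n) := by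
  classical
  rintro C hC ⟨d, hd⟩
  obtain ⟨D, hD, hnum⟩ := H19.PD.exists_D d
  refine ⟨D, fun m n R hR => ?_⟩
  have hrep : H19.PD.Rep d R := by
    intro R' hR'
    obtain ⟨f, hf1, hf2⟩ := hd m n R'
      (hC m n R m n R' (Function.Embedding.refl _) (Function.Embedding.refl _) hR hR')
    refine ⟨fun i a => (f i (Sum.inl a) : ℤ), fun i b => (f i (Sum.inr b) : ℤ), ?_, ?_, ?_⟩
    · intro i x y hxy
      have : f i (Sum.inl x) = f i (Sum.inl y) := by simpa using hxy
      simpa using hf1 i this
    · intro i x y hxy
      have : f i (Sum.inr x) = f i (Sum.inr y) := by simpa using hxy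
      simpa using hf1 i this
    · intro a b
      have := hf2 (Sum.inl a) (Sum.inr b) (by simp)
      simpa using this
  have h := H19.PD.edge_bound d D hD hnum R hrep (m + n) Finset.univ Finset.univ (by simp)
  refine le_trans (le_of_eq ?_) h
  rw [← Set.ncard_coe_finset]
  congr 1
  ext p
  simp

end Pool.Agent.S10161
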