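import Pool.Statements.S10173
import Pool.Agent.H4.IsoC

set_option autoImplicit false
open Pool Pool.MP_932050_co

namespace Pool.Agent.S10173

/-- For every k ≥ 1 and α in [0,1] there is C such that, for all d ≥ k, any finite set of distinct k-dimensional subspaces of ℝ^d, pairwise equi-isoclinic with angle α, has at most C·d members. -/
theorem result :
    ∀ k : ℕ, 1 ≤ k → ∀ α : ℝ, 0 ≤ α → α ≤ 1 →
      ∃ C : ℝ, ∀ d : ℕ, k ≤ d →
        ∀ S : Finset (Submodule ℝ (EuclideanSpace ℝ (Fin d))),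
          (∀ U ∈ S, Module.finrank ℝ U = k) →
          (∀ U ∈ S, ∀ V ∈ S, U ≠ V →
            ∀ u ∈ U, ‖u‖ = 1 → ‖V.orthogonalProjection u‖ = α) →
          (S.card : ℝ) ≤ C * d := by
  intro k hk α h0 h1
  obtain ⟨C, hC0, hC⟩ := Pool.Agent.H4.Iso.eps_bound k hk α h0 h1 1 one_pos
  refine ⟨3 + C, fun d hd S hS1 hS2 => ?_⟩
  have h := hC d S hS1 hS2
  have hd1 : (1 : ℝ) ≤ d := by exact_mod_cast hk.trans hd
  nlinarith

end Pool.Agent.S10173
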