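import Pool.Statements.S10178
import Pool.Agent.H7.Adam4

set_option autoImplicit false
open Pool Pool.MP_934e1a_co

namespace Pool.Agent.S10178

/-- The negation of the preceding statement: Every loopless digraph without multiple arcs that has a directed cycle has an arc whose reversal strictly lowers the number of directed cycles (cycles counted as arc sets; a reversal may create parallel arcs). -/
theorem result :
    ¬ (∀ (n : ℕ) (E : Finset (Fin n × Fin n)),
    (∀ a ∈ E, a.1 ≠ a.2) →
    (∃ S ⊆ E, S.Nonempty ∧
      ∀ x : Fin n, (S.filter (fun a => a.1 = x)).card = (S.filter (fun a => a.2 = x)).card) →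
    ∃ e ∈ E,
      {S : Finset (Fin n × Fin n) | S ⊆ E ∧ S.Nonempty ∧
        (∀ x : Fin n,
          (S.filter (fun a => (if a = e then a.swap else a).1 = x)).card =
          (S.filter (fun a => (if a = e then a.swap else a).2 = x)).card) ∧
        ∀ T ⊆ S, T.Nonempty →
          (∀ x : Fin n,
            (T.filter (fun a => (if a = e then a.swap else a).1 = x)).card =
            (T.filter (fun a => (if a = e then a.swap else a).2 = x)).card) → T = S}.ncard
      <
      {S : Finset (Fin n × Fin n) | S ⊆ E ∧ S.Nonempty ∧
        (∀ x : Fin n, (S.filter (fun a => a.1 = x)).card = (S.filter (fun a => a.2 = x)).card) ∧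
        ∀ T ⊆ S, T.Nonempty →
          (∀ x : Fin n, (T.filter (fun a => a.1 = x)).card = (T.filter (fun a => a.2 = x)).card) →
          T = S}.ncard) := by
  intro H
  obtain ⟨n, E, h1, h2, h3⟩ := Pool.Agent.H7.Adam.final
  obtain ⟨e, he, hlt⟩ := H n E h1 h2
  exact absurd hlt (not_lt.mpr (h3 e he))

end Pool.Agent.S10178
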