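import Pool.Statements.S10196
-- import your own Pool.Agent.* helpers here

set_option autoImplicit false
open Pool Pool.MP_93ee52_co

namespace Pool.Agent.S10196

def rel (u v : ℕ) : Bool :=
  (u < 8 && v == u + 8) || (u < 8 && (v == 16 || v == 17)) ||
    (8 ≤ u && u < 16 && (v == 18 || v == 19))

def adjB (u v : Fin (10 * 2)) : Bool := rel u.val v.val || rel v.val u.val

def G : SimpleGraph (Fin (10 * 2)) where
  Adj u v := adjB u v = true
  symm := ⟨by
    intro u v h
    simp only [adjB, Bool.or_eq_true] at h ⊢
    exact h.symm⟩
  loopless := ⟨by decide⟩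

instance : DecidableRel G.Adj := fun u v => inferInstanceAs (Decidable (adjB u v = true))

def inS (m : Fin 256) (v : Fin (10 * 2)) : Bool :=
  if v.val < 8 then m.val.testBit v.val
  else if v.val < 16 then !(m.val.testBit (v.val - 8))
  else if v.val < 18 then m.val == 0
  else m.val == 255

def S (m : Fin 256) : Set (Fin (10 * 2)) := {v | inS m v = true}

lemma ind : ∀ m : Fin 256, ∀ u v : Fin (10 * 2), inS m u = true → inS m v = true →
    adjB u v = false := by decide +kernel

lemma dom : ∀ m : Fin 256, ∀ u : Fin (10 * 2), inS m u = true ∨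
    ∃ v : Fin (10 * 2), inS m v = true ∧ adjB u v = true := by decide +kernel

def code (f : Fin (10 * 2) → Bool) : ℕ :=
  (f 0).toNat + 2 * (f 1).toNat + 4 * (f 2).toNat + 8 * (f 3).toNat + 16 * (f 4).toNat +
    32 * (f 5).toNat + 64 * (f 6).toNat + 128 * (f 7).toNat

lemma bits : ∀ m : Fin 256, code (inS m) = m.val := by
  decide +kernel

lemma S_max (m : Fin 256) : Maximal G.IsIndepSet (S m) := by
  constructor
  · intro u hu v hv _ h
    have := ind m u v hu hv
    have h' : adjB u v = true := h
    rw [this] at h'
    exact absurd h' (by simp)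
  · intro T hT hST u hu
    rcases dom m u with h | ⟨v, hv, huv⟩
    · exact h
    · exfalso
      have hadj : G.Adj u v := huv
      exact hT hu (hST hv) hadj.ne hadj

lemma S_inj : Function.Injective S := by
  intro m m' h
  have e : inS m = inS m' := by
    funext u
    have := Set.ext_iff.1 h u
    simp only [S, Set.mem_ofPred_eq] at this
    exact Bool.eq_iff_iff.2 this
  apply Fin.ext
  rw [← bits m, ← bits m', e]

lemma tri : ∀ a b c : Fin (10 * 2), adjB a b = true → adjB a c = true → adjB b c = false := by
  decide +kernel

lemma free : G.CliqueFree 3 := by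
  intro s hs
  rw [SimpleGraph.is3Clique_iff] at hs
  obtain ⟨a, b, c, hab, hac, hbc, -⟩ := hs
  have := tri a b c hab hac
  have h' : adjB b c = true := hbc
  rw [this] at h'
  exact absurd h' (by simp)

lemma deg : ∀ v : Fin (10 * 2), 3 ≤ G.degree v := by decide +kernel


/-- The negation of the preceding statement: For every n, every triangle-free simple graph on 10n vertices in which each vertex has degree at least 3 has at most 15^n maximal independent sets (independent sets maximal under inclusion). -/
theorem result :
    ¬ (∀ (n : ℕ) (G : SimpleGraph (Fin (10 * n))) [DecidableRel G.Adj],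
      G.CliqueFree 3 →
      (∀ v : Fin (10 * n), 3 ≤ G.degree v) →
      {s : Set (Fin (10 * n)) | Maximal G.IsIndepSet s}.ncard ≤ 15 ^ n) := by
  intro h
  have h1 := h 2 G free deg
  have h2 : Set.range S ⊆ {s : Set (Fin (10 * 2)) | Maximal G.IsIndepSet s} := by
    rintro _ ⟨m, rfl⟩
    exact S_max m
  have h3 := Set.ncard_le_ncard h2 (Set.toFinite _)
  rw [Set.ncard_range_of_injective S_inj] at h3
  rw [Nat.card_eq_fintype_card, Fintype.card_fin] at h3
  exact absurd (h3.trans h1) (by norm_num)

end Pool.Agent.S10196
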