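import Pool.Statements.S10267

set_option autoImplicit false
open Pool Pool.MP_96d021_co

namespace Pool.Agent.S10267

open Finset

section
variable {V ι : Type} [Fintype V] [Fintype ι] [DecidableEq V] [DecidableEq ι]

/-- every partial choice of pairs is properly d-colourable -/
def HD (e : ι → Finset V) (d : ℕ) : Prop :=
  ∀ (s : Finset ι) (q : ι → V × V),
    (∀ i ∈ s, (q i).1 ∈ e i ∧ (q i).2 ∈ e i ∧ (q i).1 ≠ (q i).2) →
    ∃ c : V → Fin d, ∀ i ∈ s, c (q i).1 ≠ c (q i).2

theorem two_mul_pow_le (m : ℕ) (hm : 1 ≤ m) : 2 * m ^ m ≤ (m + 1) ^ m := by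
  have hm' : (0 : ℝ) < m := by exact_mod_cast hm
  have h := one_add_mul_le_pow (a := (1 : ℝ) / m) (by
    have : (0 : ℝ) ≤ 1 / m := by positivity
    linarith) m
  have e : (1 : ℝ) + 1 / m = (m + 1) / m := by field_simp
  rw [e, div_pow, mul_one_div_cancel hm'.ne', le_div_iff₀ (by positivity)] at h
  have : ((2 * m ^ m : ℕ) : ℝ) ≤ (((m + 1) ^ m : ℕ) : ℝ) := by push_cast; linarith
  exact_mod_cast this

theorem num_bound (m d n u : ℕ) (hm : 1 ≤ m) (h : (m + 1) ^ n ≤ d ^ u * m ^ n) :
    n ≤ m * (d * u + 1) := by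
  by_contra hc
  obtain ⟨x, rfl⟩ := Nat.exists_eq_add_of_le (not_le.1 hc).le
  have h1 : (2 * m ^ m) ^ (d * u + 1) ≤ ((m + 1) ^ m) ^ (d * u + 1) :=
    Nat.pow_le_pow_left (two_mul_pow_le m hm) _
  have h2 : m ^ x ≤ (m + 1) ^ x := Nat.pow_le_pow_left (by omega) _
  have h3 : 2 ^ (d * u + 1) * m ^ (m * (d * u + 1) + x) ≤ (m + 1) ^ (m * (d * u + 1) + x) := by
    calc _ = (2 * m ^ m) ^ (d * u + 1) * m ^ x := by rw [mul_pow, ← pow_mul, pow_add m]; ring
      _ ≤ ((m + 1) ^ m) ^ (d * u + 1) * (m + 1) ^ x := Nat.mul_le_mul h1 h2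
      _ = _ := by rw [← pow_mul, ← pow_add]
  have h4 : 2 ^ (d * u + 1) ≤ d ^ u := Nat.le_of_mul_le_mul_right (h3.trans h) (by positivity)
  have h5 : d ^ u ≤ (2 ^ d) ^ u := Nat.pow_le_pow_left Nat.lt_two_pow_self.le _
  rw [← pow_mul] at h5
  have h6 : 2 ^ (d * u) < 2 ^ (d * u + 1) := Nat.pow_lt_pow_right (by norm_num) (by omega)
  omega

theorem lemA {e : ι → Finset V} {d : ℕ} (hd : 1 ≤ d) (H : HD e d) (U : Finset V) (s : Finset ι)
    (hs : ∀ i ∈ s, d + 1 ≤ (e i ∩ U).card) : s.card ≤ (d * (d + 1) ^ 2) * U.card := by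
  rcases s.eq_empty_or_nonempty with rfl | ⟨i0, hi0⟩
  · simp
  have hU : 1 ≤ U.card := by
    have := hs i0 hi0
    have := card_le_card (inter_subset_right : e i0 ∩ U ⊆ U)
    omega
  have ht : ∀ i : s, ∃ t : Fin (d + 1) → U, Function.Injective t ∧ ∀ a, (t a : V) ∈ e i := by
    intro i
    have : Nonempty (Fin (d + 1) ↪ (e i ∩ U : Finset V)) :=
      Function.Embedding.nonempty_of_card_le (by
        rw [Fintype.card_fin, Fintype.card_coe]; exact hs i i.2)
    obtain ⟨f⟩ := this
    refine ⟨fun a => ⟨f a, (mem_inter.1 (f a).2).2⟩, ?_, fun a => (mem_inter.1 (f a).2).1⟩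
    intro a b hab
    exact f.injective (Subtype.ext (congrArg (fun x : U => (x : V)) hab))
  choose t ht1 ht2 using ht
  set P : Finset (Fin (d + 1) × Fin (d + 1)) := univ.offDiag with hP
  have hPc : P.card = (d + 1) * d := by
    rw [hP, offDiag_card, card_univ, Fintype.card_fin, ← Nat.mul_sub_one]; simp
  obtain ⟨m, hm⟩ : ∃ m, (d + 1) * d = m + 1 := ⟨(d + 1) * d - 1, by
    have : 1 ≤ (d + 1) * d := by nlinarith
    omega⟩
  have hm1 : 1 ≤ m := by nlinarith
  have hsub : Fintype.piFinset (fun _ : s => P) ⊆ (univ : Finset (U → Fin d)).biUnion fun c =>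
      Fintype.piFinset fun i : s => P.filter fun ab => c (t i ab.1) ≠ c (t i ab.2) := by
    intro σ hσ
    rw [Fintype.mem_piFinset] at hσ
    let v0 : V := t ⟨i0, hi0⟩ 0
    obtain ⟨c, hc⟩ := H s (fun i => if h : i ∈ s then
      (t ⟨i, h⟩ (σ ⟨i, h⟩).1, t ⟨i, h⟩ (σ ⟨i, h⟩).2) else (v0, v0)) (by
        intro i hi
        simp only [dif_pos hi]
        refine ⟨ht2 _ _, ht2 _ _, fun h => ?_⟩
        exact (mem_offDiag.1 (hσ ⟨i, hi⟩)).2.2 (ht1 _ (Subtype.ext h)))
    rw [mem_biUnion]
    refine ⟨fun x => c x, mem_univ _, ?_⟩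
    rw [Fintype.mem_piFinset]
    intro i
    rw [mem_filter]
    refine ⟨hσ i, ?_⟩
    have := hc i i.2
    simpa only [dif_pos i.2] using this
  have hc1 := (card_le_card hsub).trans card_biUnion_le
  have hc2 : ∀ c ∈ (univ : Finset (U → Fin d)),
      (Fintype.piFinset fun i : s => P.filter fun ab => c (t i ab.1) ≠ c (t i ab.2)).card
        ≤ m ^ s.card := by
    intro c _
    rw [Fintype.card_piFinset]
    refine (prod_le_pow_card _ _ m ?_).trans (by simp)
    intro i _
    obtain ⟨a, b, hab, h⟩ := Fintype.exists_ne_map_eq_of_card_lt (fun a => c (t i a)) (by simp)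
    have : (P.filter fun ab => c (t i ab.1) ≠ c (t i ab.2)).card < P.card := by
      apply card_lt_card
      rw [ssubset_iff_of_subset (filter_subset _ _)]
      exact ⟨(a, b), by simp [hP, hab], by simp [h]⟩
    omega
  have hc3 := hc1.trans (sum_le_card_nsmul _ _ _ hc2)
  rw [Fintype.card_piFinset, prod_const, hPc, hm] at hc3
  simp only [card_univ, Fintype.card_coe, Fintype.card_fun, Fintype.card_fin, smul_eq_mul] at hc3
  have h := num_bound m d s.card U.card hm1 hc3
  calc s.card ≤ m * (d * U.card + 1) := h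
    _ ≤ ((d + 1) * d) * (d * U.card + U.card) := Nat.mul_le_mul (by omega) (by omega)
    _ = _ := by ring

theorem lemB {e : ι → Finset V} {a A : ℕ}
    (HA : ∀ (U : Finset V) (s : Finset ι), (∀ i ∈ s, a ≤ (e i ∩ U).card) → s.card ≤ A * U.card)
    (W : Finset V) (hW : W.Nonempty) (b : ℕ) (hb : 0 < b) (s : Finset ι)
    (hs : ∀ i ∈ s, a + b ≤ (e i ∩ W).card) : s.card * b ≤ 4 * a * A * W.card := by
  rcases Nat.eq_zero_or_pos s.card with h0 | hN
  · simp [h0]
  let Φ : Finset V → ℕ := fun U => ∑ i ∈ s, min (e i ∩ U).card a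
  obtain ⟨U, hU, hmax⟩ := exists_max_image W.powerset
    (fun U => (2 * W.card * Φ U : ℤ) - s.card * b * U.card) ⟨∅, by simp⟩
  rw [mem_powerset] at hU
  have h1 : b * U.card ≤ 2 * a * W.card := by
    have h := hmax ∅ (by simp)
    have hΦ : Φ U ≤ s.card * a := by
      have := sum_le_card_nsmul s (fun i => min (e i ∩ U).card a) a (fun i _ => min_le_right _ _)
      simpa using this
    have hΦ0 : Φ ∅ = 0 := by simp [Φ]
    rw [hΦ0] at h
    have h2 : s.card * (b * U.card) ≤ s.card * (2 * a * W.card) := by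
      have hΦ' : (Φ U : ℤ) ≤ s.card * a := by exact_mod_cast hΦ
      have hw : (0 : ℤ) ≤ W.card := by positivity
      simp only [card_empty, Nat.cast_zero, mul_zero, sub_zero] at h
      zify
      nlinarith
    exact Nat.le_of_mul_le_mul_left h2 hN
  set un := s.filter fun i => (e i ∩ U).card < a with hun
  have h2 : ∀ v ∈ W \ U, 2 * W.card * (un.filter fun i => v ∈ e i).card ≤ s.card * b := by
    intro v hv
    rw [mem_sdiff] at hv
    have h := hmax (insert v U) (by rw [mem_powerset]; exact insert_subset hv.1 hU)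
    rw [card_insert_of_notMem hv.2] at h
    have h3 : Φ U + (un.filter fun i => v ∈ e i).card ≤ Φ (insert v U) := by
      rw [hun, filter_filter, card_filter, ← sum_add_distrib]
      refine sum_le_sum fun i _ => ?_
      by_cases hvi : v ∈ e i
      · rw [inter_insert_of_mem hvi, card_insert_of_notMem (by simp [hv.2])]
        split_ifs <;> omega
      · rw [inter_insert_of_notMem hvi]
        simp [hvi]
    have h3' : (Φ U : ℤ) + (un.filter fun i => v ∈ e i).card ≤ Φ (insert v U) := by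
      exact_mod_cast h3
    have hw : (0 : ℤ) ≤ W.card := by positivity
    push_cast at h
    zify
    nlinarith
  have h3 : un.card * b ≤ ∑ v ∈ W \ U, (un.filter fun i => v ∈ e i).card := by
    refine le_trans ?_ (sum_card_bipartiteAbove_eq_sum_card_bipartiteBelow (s := un) (t := W \ U)
      (r := fun i v => v ∈ e i)).le
    rw [← smul_eq_mul]
    apply card_nsmul_le_sum
    intro i hi
    rw [hun, mem_filter] at hi
    have h4 := hs i hi.1
    have h5 : e i ∩ W ⊆ (e i ∩ U) ∪ (W \ U).bipartiteAbove (fun i v => v ∈ e i) i := by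
      intro x hx
      simp only [mem_inter, mem_union, mem_bipartiteAbove, mem_sdiff] at *
      tauto
    have := (card_le_card h5).trans (card_union_le _ _)
    omega
  have h4 : 2 * W.card * (un.card * b) ≤ W.card * (s.card * b) := by
    calc _ ≤ 2 * W.card * ∑ v ∈ W \ U, (un.filter fun i => v ∈ e i).card :=
          Nat.mul_le_mul_left _ h3
      _ = ∑ v ∈ W \ U, 2 * W.card * (un.filter fun i => v ∈ e i).card := by rw [mul_sum]
      _ ≤ (W \ U).card • (s.card * b) := sum_le_card_nsmul _ _ _ h2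
      _ ≤ _ := by
          rw [smul_eq_mul]; exact Nat.mul_le_mul_right _ (card_le_card sdiff_subset)
  have h5 : 2 * un.card ≤ s.card := by
    have hp : 0 < W.card * b := Nat.mul_pos hW.card_pos hb
    apply Nat.le_of_mul_le_mul_left _ hp
    calc _ = 2 * W.card * (un.card * b) := by ring
      _ ≤ _ := h4
      _ = _ := by ring
  have h6 := HA U (s.filter fun i => ¬ (e i ∩ U).card < a) (fun i hi => by
    rw [mem_filter] at hi; omega)
  have h7 := card_filter_add_card_filter_not (s := s) (fun i => (e i ∩ U).card < a)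
  rw [← hun] at h7
  have h8 : s.card ≤ 2 * (A * U.card) := by omega
  calc s.card * b ≤ 2 * (A * U.card) * b := Nat.mul_le_mul_right _ h8
    _ = 2 * A * (b * U.card) := by ring
    _ ≤ 2 * A * (2 * a * W.card) := Nat.mul_le_mul_left _ h1
    _ = _ := by ring

theorem sq_le_sum (r x : ℕ) (hx : x ≤ r) :
    x * x ≤ ∑ t ∈ range r, if t + 1 ≤ x then 2 * (t + 1) else 0 := by
  have key : ∀ y : ℕ, y * y ≤ ∑ t ∈ range y, 2 * (t + 1) := by
    intro y
    induction y with
    | zero => simp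
    | succ y ih => rw [sum_range_succ]; nlinarith
  refine (key x).trans ?_
  rw [← sum_filter]
  apply sum_le_sum_of_subset
  intro t ht
  simp only [mem_range, mem_filter] at *
  omega

theorem lemC {e : ι → Finset V} {a A r : ℕ} (ha : 0 < a) (hr : ∀ i, (e i).card ≤ r)
    (HA : ∀ (U : Finset V) (s : Finset ι), (∀ i ∈ s, a ≤ (e i ∩ U).card) → s.card ≤ A * U.card)
    (W : Finset V) (hW : W.Nonempty) :
    ∃ v ∈ W, ∑ i ∈ (univ.filter fun i => 2 * a ≤ (e i ∩ W).card).filter (fun i => v ∈ e i),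
      (e i ∩ W).card ≤ 16 * a * A * r := by
  set L := univ.filter fun i => 2 * a ≤ (e i ∩ W).card with hL
  have hN : ∀ t : ℕ, (L.filter fun i => t ≤ (e i ∩ W).card).card * t ≤ 8 * a * A * W.card := by
    intro t
    have h := lemB HA W hW (max t (2 * a) - a) (by omega) (L.filter fun i => t ≤ (e i ∩ W).card)
      (fun i hi => by
        simp only [hL, mem_filter] at hi; omega)
    calc _ ≤ (L.filter fun i => t ≤ (e i ∩ W).card).card * (2 * (max t (2 * a) - a)) :=
          Nat.mul_le_mul_left _ (by omega)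
      _ = 2 * ((L.filter fun i => t ≤ (e i ∩ W).card).card * (max t (2 * a) - a)) := by ring
      _ ≤ 2 * (4 * a * A * W.card) := Nat.mul_le_mul_left _ h
      _ = _ := by ring
  apply exists_le_of_sum_le hW
  calc ∑ v ∈ W, ∑ i ∈ L.filter (fun i => v ∈ e i), (e i ∩ W).card
      = ∑ i ∈ L, (e i ∩ W).card * (e i ∩ W).card := by
        simp only [sum_filter]
        rw [sum_comm]
        refine sum_congr rfl fun i _ => ?_
        rw [← sum_filter, sum_const, smul_eq_mul, filter_mem_eq_inter, inter_comm]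
    _ ≤ ∑ i ∈ L, ∑ t ∈ range r, if t + 1 ≤ (e i ∩ W).card then 2 * (t + 1) else 0 :=
        sum_le_sum fun i _ => sq_le_sum r _ ((card_le_card inter_subset_left).trans (hr i))
    _ = ∑ t ∈ range r, 2 * ((L.filter fun i => t + 1 ≤ (e i ∩ W).card).card * (t + 1)) := by
        rw [sum_comm]
        refine sum_congr rfl fun t _ => ?_
        rw [← sum_filter, sum_const, smul_eq_mul]; ring
    _ ≤ ∑ t ∈ range r, 2 * (8 * a * A * W.card) :=
        sum_le_sum fun t _ => Nat.mul_le_mul_left _ (hN _)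
    _ = _ := by simp; ring

theorem lemD {e : ι → Finset V} {K D : ℕ}
    (HC : ∀ W : Finset V, W.Nonempty → ∃ v ∈ W,
      ∑ i ∈ (univ.filter fun i => K ≤ (e i ∩ W).card).filter (fun i => v ∈ e i),
        (e i ∩ W).card ≤ D) (W : Finset V) :
    ∃ (c : V → Fin (D + 1)) (e' : ι → Finset V), (∀ i, e' i ⊆ e i ∧ (e' i).card ≤ K) ∧
      ∀ i, ∀ u ∈ e i ∩ W, ∀ w ∈ e i ∩ W, u ≠ w → c u ≠ c w ∨ (u ∈ e' i ∧ w ∈ e' i) := by
  induction W using Finset.strongInduction with
  | H W ih =>
  rcases W.eq_empty_or_nonempty with rfl | hW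
  · exact ⟨fun _ => 0, fun _ => ∅, by simp, by simp⟩
  obtain ⟨v, hv, hD⟩ := HC W hW
  obtain ⟨c, e', h1, h2⟩ := ih (W.erase v) (erase_ssubset hv)
  set Nb := ((univ.filter fun i => K ≤ (e i ∩ W).card).filter (fun i => v ∈ e i)).biUnion
    fun i => e i ∩ W with hNb
  have hc : (Nb.image c).card < (univ : Finset (Fin (D + 1))).card := by
    have := (card_image_le (s := Nb) (f := c)).trans (card_biUnion_le.trans hD)
    simp; omega
  obtain ⟨col, -, hcol⟩ := exists_mem_notMem_of_card_lt_card hc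
  refine ⟨Function.update c v col,
    fun i => if (e i ∩ W).card < K then e i ∩ W else e' i, ?_, ?_⟩
  · intro i
    dsimp only
    split_ifs with h
    · exact ⟨inter_subset_left, h.le⟩
    · exact h1 i
  · intro i u hu w hw huw
    by_cases h : (e i ∩ W).card < K
    · right; simp only [if_pos h]; exact ⟨hu, hw⟩
    simp only [if_neg h]
    have key : ∀ x ∈ e i ∩ W, v ∈ e i → c x ≠ col := by
      intro x hx hvi hcx
      apply hcol
      rw [mem_image]
      refine ⟨x, ?_, hcx⟩
      rw [hNb, mem_biUnion]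
      exact ⟨i, by simp [hvi, not_lt.1 h], hx⟩
    by_cases huv : u = v
    · subst huv
      left
      rw [Function.update_self, Function.update_of_ne huw.symm]
      exact (key w hw (mem_inter.1 hu).1).symm
    by_cases hwv : w = v
    · subst hwv
      left
      rw [Function.update_self, Function.update_of_ne huw]
      exact key u hu (mem_inter.1 hw).1
    rw [Function.update_of_ne huv, Function.update_of_ne hwv]
    apply h2 i u _ w _ huw
    · simp only [mem_inter, mem_erase] at *; tauto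
    · simp only [mem_inter, mem_erase] at *; tauto

theorem lemE {e : ι → Finset V} {d K : ℕ} (H : HD e d) (v0 : V) (e' : ι → Finset V)
    (h1 : ∀ i, e' i ⊆ e i ∧ (e' i).card ≤ K) :
    ∃ c : V → (Fin K × Fin K → Fin d), ∀ i, ∀ u ∈ e' i, ∀ w ∈ e' i, u ≠ w → c u ≠ c w := by
  classical
  have hh : ∀ i, Nonempty (e' i ↪ Fin K) := fun i =>
    Function.Embedding.nonempty_of_card_le (by simpa using (h1 i).2)
  let h : ∀ i, e' i ↪ Fin K := fun i => (hh i).some
  have key : ∀ j : Fin K × Fin K, ∃ c : V → Fin d, ∀ i, ∀ u w : e' i, u ≠ w →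
      (h i u, h i w) = j → c u ≠ c w := by
    intro j
    let Q : ι → Prop := fun i => ∃ p : e' i × e' i, p.1 ≠ p.2 ∧ (h i p.1, h i p.2) = j
    obtain ⟨c, hc⟩ := H (univ.filter Q) (fun i => if hq : Q i then
      ((hq.choose.1 : V), (hq.choose.2 : V)) else (v0, v0)) (by
        intro i hi
        have hq : Q i := (mem_filter.1 hi).2
        simp only [dif_pos hq]
        exact ⟨(h1 i).1 hq.choose.1.2, (h1 i).1 hq.choose.2.2,
          fun h => hq.choose_spec.1 (Subtype.ext h)⟩)
    refine ⟨c, fun i u w huw hj => ?_⟩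
    have hq : Q i := ⟨(u, w), huw, hj⟩
    have h3 := hc i (mem_filter.2 ⟨mem_univ _, hq⟩)
    simp only [dif_pos hq] at h3
    have h4 := hq.choose_spec.2.trans hj.symm
    simp only [Prod.mk.injEq, EmbeddingLike.apply_eq_iff_eq] at h4
    rwa [h4.1, h4.2] at h3
  choose c hc using key
  refine ⟨fun x j => c j x, fun i u hu w hw huw heq => ?_⟩
  exact hc _ i ⟨u, hu⟩ ⟨w, hw⟩ (fun h => huw (congrArg Subtype.val h)) rfl (congrFun heq _)

end

/-- There is a positive f such that every finite multi-hypergraph of rank at most r (r ≥ 1) whose derived graphs are all d-colourable has a strong colouring with at most f(d)·r colours. -/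
theorem result :
    ∃ f : ℕ → ℝ, (∀ n, 0 < f n) ∧
      ∀ (V ι : Type) [Fintype V] [Fintype ι] (e : ι → Finset V) (d r : ℕ),
        1 ≤ r → (∀ i, (e i).card ≤ r) →
        (∀ p : ι → V × V,
            (∀ i, 2 ≤ (e i).card →
              (p i).1 ∈ e i ∧ (p i).2 ∈ e i ∧ (p i).1 ≠ (p i).2) →
            (SimpleGraph.fromRel
              (fun u v : V => ∃ i, 2 ≤ (e i).card ∧ p i = (u, v))).Colorable d) →
        ∃ k : ℕ, (k : ℝ) ≤ f d * (r : ℝ) ∧
          ∃ c : V → Fin k, ∀ i, Set.InjOn c ((e i : Finset V) : Set V) := by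
  classical
  refine ⟨fun d => ((16 * (d + 1) * (d * (d + 1) ^ 2) + 1) * d ^ ((2 * (d + 1)) * (2 * (d + 1))) + 1 : ℕ),
    fun d => by positivity, ?_⟩
  intro V ι _ _ e d r hr1 hr hcol
  rcases isEmpty_or_nonempty V with hV | ⟨⟨v0⟩⟩
  · exact ⟨0, by rw [Nat.cast_zero]; positivity, fun x => hV.elim x, fun i x => hV.elim x⟩
  have H : HD e d := by
    intro s q hq
    have hex : ∀ i, ∃ p : V × V, (2 ≤ (e i).card → p.1 ∈ e i ∧ p.2 ∈ e i ∧ p.1 ≠ p.2) ∧
        (i ∈ s → p = q i) := by
      intro i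
      by_cases hi : i ∈ s
      · exact ⟨q i, fun _ => hq i hi, fun _ => rfl⟩
      by_cases h2 : 2 ≤ (e i).card
      · obtain ⟨a, ha, b, hb, hab⟩ := one_lt_card.1 h2
        exact ⟨(a, b), fun _ => ⟨ha, hb, hab⟩, fun h => absurd h hi⟩
      · exact ⟨(v0, v0), fun h => absurd h h2, fun h => absurd h hi⟩
    choose p hp1 hp2 using hex
    obtain ⟨c⟩ := hcol p hp1
    refine ⟨c, fun i hi => c.valid ?_⟩
    rw [SimpleGraph.fromRel_adj]
    obtain ⟨a1, a2, a3⟩ := hq i hi
    exact ⟨a3, Or.inl ⟨i, one_lt_card.2 ⟨_, a1, _, a2, a3⟩, hp2 i hi⟩⟩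
  have hd : 1 ≤ d := by
    obtain ⟨c, -⟩ := H ∅ (fun _ => (v0, v0)) (by simp)
    exact (c v0).pos
  obtain ⟨c1, e', h1, h2⟩ := lemD (fun W hW => lemC (Nat.succ_pos d) hr (lemA hd H) W hW) univ
  obtain ⟨c2, h3⟩ := lemE H v0 e' h1
  refine ⟨Fintype.card (Fin (16 * (d + 1) * (d * (d + 1) ^ 2) * r + 1) ×
    (Fin (2 * (d + 1)) × Fin (2 * (d + 1)) → Fin d)), ?_,
    fun x => Fintype.equivFin _ (c1 x, c2 x), ?_⟩
  · simp only [Fintype.card_prod, Fintype.card_fun, Fintype.card_fin]
    rw [← Nat.cast_mul, Nat.cast_le]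
    generalize d ^ ((2 * (d + 1)) * (2 * (d + 1))) = y
    generalize 16 * (d + 1) * (d * (d + 1) ^ 2) = x
    nlinarith
  · intro i u hu w hw h
    by_contra huw
    have h' := (Fintype.equivFin _).injective h
    simp only [Prod.mk.injEq] at h'
    rcases h2 i u (by simpa using hu) w (by simpa using hw) huw with h4 | h4
    · exact h4 h'.1
    · exact h3 i u h4.1 w h4.2 huw h'.2

end Pool.Agent.S10267
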