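import Pool.Statements.S10285
import Pool.Agent.H32.EulC

set_option autoImplicit false
open Pool Pool.MP_977251_co Pool.Agent.H32.Eul

namespace Pool.Agent.S10285

/-- For every n ≥ 2 and each sign s = ±1, every complex root of the sum of t^des(π) over permutations of n letters with sign s is real, i.e. both descent polynomials (alternating group and its complement) are real-rooted. -/
theorem result :
    ∀ n : ℕ, 2 ≤ n → ∀ s : ℤˣ, ∀ z : ℂ,
      Polynomial.aeval z
        (∑ π ∈ (Finset.univ : Finset (Equiv.Perm (Fin n))).filter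
              (fun π => Equiv.Perm.sign π = s),
          (Polynomial.X : Polynomial ℝ) ^
            ((Finset.univ : Finset (Fin n × Fin n)).filter
              (fun p => p.2.val = p.1.val + 1 ∧ π p.2 < π p.1)).card) = 0 →
      z.im = 0 := by
  intro n hn s z hz
  obtain ⟨N, rfl⟩ : ∃ N, n = N + 1 := ⟨n - 1, by omega⟩
  by_contra him
  have hz1 : z - 1 ≠ 0 := by
    intro h
    apply him
    rw [sub_eq_zero.1 h]; simp
  have hσ : -(z / (z - 1)) = z * (1 - z / (z - 1)) := by field_simp; ring
  generalize z / (z - 1) = σ at hσ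
  have hs : ((s : ℤ) : ℝ) = 1 ∨ ((s : ℤ) : ℝ) = -1 := by
    rcases Int.units_eq_one_or s with rfl | rfl <;> simp
  have h1 := main_real (N / 2) (N - N / 2) (by omega) (by omega) _ hs σ (by
    rw [show N / 2 + (N - N / 2) = N by omega, ← sum_w, ← sum_sgw, ← sum_perm, ← sum_perm,
      Finset.mul_sum, ← Finset.sum_add_distrib, map_sum]
    simp only [map_sum, map_pow, Polynomial.aeval_X, des_eq, Finset.sum_filter] at hz
    rw [← mul_zero (2 * (1 - σ) ^ N), ← hz, Finset.mul_sum]
    refine Finset.sum_congr rfl fun π _ => ?_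
    rw [map_add, map_mul, map_mul, sg_perm, aeval_w N π z σ hσ]
    rcases Int.units_eq_one_or s with rfl | rfl <;>
      rcases Int.units_eq_one_or (Equiv.Perm.sign π) with h | h <;> rw [h] <;> simp <;> ring)
  have h2 := congrArg Complex.im hσ
  have h3 := congrArg Complex.re hσ
  simp [h1] at h2 h3
  rcases h2 with h2 | h2
  · exact him h2
  · rw [h2] at h3
    linarith

end Pool.Agent.S10285
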