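import Pool.Statements.S10340
import Mathlib

set_option autoImplicit false
open Pool Pool.MP_9a0e7c_co

namespace Pool.Agent.S10340

open scoped RealInnerProductSpace

abbrev E3 := EuclideanSpace ℝ (Fin 3)
abbrev E5 := EuclideanSpace ℝ (Fin 5)

noncomputable def emb : E3 →ₗᵢ[ℝ] E5 where
  toFun x := !₂[x 0, x 1, x 2, 0, 0]
  map_add' x y := by
    ext i
    fin_cases i <;> simp
  map_smul' c x := by
    ext i
    fin_cases i <;> simp
  norm_map' x := by
    simp [EuclideanSpace.norm_eq, Fin.sum_univ_succ]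

noncomputable def r2 : ℝ := (Real.sqrt 2)⁻¹
noncomputable def r3 : ℝ := (Real.sqrt 3)⁻¹

lemma r2_pos : 0 < r2 := by unfold r2; positivity
lemma r3_pos : 0 < r3 := by unfold r3; positivity
lemma r2_sq : r2 * r2 = 1 / 2 := by
  unfold r2
  rw [← mul_inv, Real.mul_self_sqrt (by norm_num)]
  norm_num
lemma r3_sq : r3 * r3 = 1 / 3 := by
  unfold r3
  rw [← mul_inv, Real.mul_self_sqrt (by norm_num)]
  norm_num

noncomputable def qq (e : ℝ) : Fin 8 → E3 :=
  ![!₂[r2, 0, r2], !₂[0, r2, r2], !₂[-r2, 0, r2], !₂[0, -r2, r2],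
    !₂[e * r3, e * r3, e * r3], !₂[-(e * r3), e * r3, e * r3],
    !₂[-(e * r3), -(e * r3), e * r3], !₂[e * r3, -(e * r3), e * r3]]

lemma inner3 (x y : E3) : ⟪x, y⟫ = x 0 * y 0 + x 1 * y 1 + x 2 * y 2 := by
  simp [PiLp.inner_apply, Fin.sum_univ_three, mul_comm]

/-- the Gram matrix of `qq e` for `e * e = 1` -/
noncomputable def gram (e : ℝ) : Fin 8 → Fin 8 → ℝ :=
  ![![1, 1/2, 0, 1/2, 2*e*r2*r3, 0, 0, 2*e*r2*r3],
    ![1/2, 1, 1/2, 0, 2*e*r2*r3, 2*e*r2*r3, 0, 0],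
    ![0, 1/2, 1, 1/2, 0, 2*e*r2*r3, 2*e*r2*r3, 0],
    ![1/2, 0, 1/2, 1, 0, 0, 2*e*r2*r3, 2*e*r2*r3],
    ![2*e*r2*r3, 2*e*r2*r3, 0, 0, 1, 1/3, -1/3, 1/3],
    ![0, 2*e*r2*r3, 2*e*r2*r3, 0, 1/3, 1, 1/3, -1/3],
    ![0, 0, 2*e*r2*r3, 2*e*r2*r3, -1/3, 1/3, 1, 1/3],
    ![2*e*r2*r3, 0, 0, 2*e*r2*r3, 1/3, -1/3, 1/3, 1]]

lemma inner_qq (e : ℝ) (he : e * e = 1) (i j : Fin 8) : ⟪qq e i, qq e j⟫ = gram e i j := by
  have h2 := r2_sq
  have h3 : (e * r3) * (e * r3) = 1 / 3 := by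
    calc (e * r3) * (e * r3) = (e * e) * (r3 * r3) := by ring
      _ = 1 / 3 := by rw [he, r3_sq]; norm_num
  rw [inner3]
  fin_cases i <;> fin_cases j <;> simp [qq, gram] <;> nlinarith

lemma norm_qq (e : ℝ) (he : e * e = 1) (i : Fin 8) : ‖qq e i‖ = 1 := by
  have h := inner_qq e he i i
  rw [real_inner_self_eq_norm_sq] at h
  have h1 : gram e i i = 1 := by fin_cases i <;> simp [gram]
  rw [h1] at h
  have := norm_nonneg (qq e i)
  nlinarith

lemma inner_of_dist (x y : E5) (hx : ‖x‖ = 1) (hy : ‖y‖ = 1) :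
    ⟪x, y⟫ = 1 - dist x y ^ 2 / 2 := by
  rw [dist_eq_norm, norm_sub_sq_real, hx, hy]
  ring

lemma final (x : Fin 8 → E5) (h : ∀ i j, gram 1 i j = gram (-1) i j → ⟪x i, x j⟫ = gram 1 i j)
    (h0 : ⟪x 0, x 4⟫ = 0) : False := by
  have c : ∀ i j, ⟪x j, x i⟫ = ⟪x i, x j⟫ := fun i j => real_inner_comm _ _
  have a00 := h 0 0 (by simp [gram])
  have a01 := h 0 1 (by simp [gram])
  have a02 := h 0 2 (by simp [gram])
  have a03 := h 0 3 (by simp [gram])
  have a11 := h 1 1 (by simp [gram])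
  have a12 := h 1 2 (by simp [gram])
  have a13 := h 1 3 (by simp [gram])
  have a22 := h 2 2 (by simp [gram])
  have a23 := h 2 3 (by simp [gram])
  have a33 := h 3 3 (by simp [gram])
  have b44 := h 4 4 (by simp [gram])
  have b45 := h 4 5 (by simp [gram])
  have b46 := h 4 6 (by simp [gram])
  have b47 := h 4 7 (by simp [gram])
  have b55 := h 5 5 (by simp [gram])
  have b56 := h 5 6 (by simp [gram])
  have b57 := h 5 7 (by simp [gram])
  have b66 := h 6 6 (by simp [gram])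
  have b67 := h 6 7 (by simp [gram])
  have b77 := h 7 7 (by simp [gram])
  have c05 := h 0 5 (by simp [gram])
  have c06 := h 0 6 (by simp [gram])
  have c16 := h 1 6 (by simp [gram])
  have c17 := h 1 7 (by simp [gram])
  have c24 := h 2 4 (by simp [gram])
  have c27 := h 2 7 (by simp [gram])
  have c34 := h 3 4 (by simp [gram])
  have c35 := h 3 5 (by simp [gram])
  simp [gram] at a00 a01 a02 a03 a11 a12 a13 a22 a23 a33 b44 b45 b46 b47 b55 b56 b57 b66 b67 b77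
  simp [gram] at c05 c06 c16 c17 c24 c27 c34 c35
  have a00' : ⟪x 0, x 0⟫ = 1 := by rw [real_inner_self_eq_norm_sq]; rcases a00 with h | h <;> simp [h]
  have a11' : ⟪x 1, x 1⟫ = 1 := by rw [real_inner_self_eq_norm_sq]; rcases a11 with h | h <;> simp [h]
  have a22' : ⟪x 2, x 2⟫ = 1 := by rw [real_inner_self_eq_norm_sq]; rcases a22 with h | h <;> simp [h]
  have a33' : ⟪x 3, x 3⟫ = 1 := by rw [real_inner_self_eq_norm_sq]; rcases a33 with h | h <;> simp [h]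
  have b44' : ⟪x 4, x 4⟫ = 1 := by rw [real_inner_self_eq_norm_sq]; rcases b44 with h | h <;> simp [h]
  have b55' : ⟪x 5, x 5⟫ = 1 := by rw [real_inner_self_eq_norm_sq]; rcases b55 with h | h <;> simp [h]
  have b66' : ⟪x 6, x 6⟫ = 1 := by rw [real_inner_self_eq_norm_sq]; rcases b66 with h | h <;> simp [h]
  have b77' : ⟪x 7, x 7⟫ = 1 := by rw [real_inner_self_eq_norm_sq]; rcases b77 with h | h <;> simp [h]
  have ra : x 0 + x 2 - x 1 - x 3 = 0 := by
    rw [← inner_self_eq_zero (𝕜 := ℝ)]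
    simp only [inner_sub_left, inner_sub_right, inner_add_left, inner_add_right]
    rw [c 0 1, c 0 2, c 0 3, c 1 2, c 1 3, c 2 3]
    rw [a00', a11', a22', a33', a01, a02, a03, a12, a13, a23]
    norm_num
  have rb : x 4 + x 6 - x 5 - x 7 = 0 := by
    rw [← inner_self_eq_zero (𝕜 := ℝ)]
    simp only [inner_sub_left, inner_sub_right, inner_add_left, inner_add_right]
    rw [c 4 5, c 4 6, c 4 7, c 5 6, c 5 7, c 6 7]
    rw [b44', b55', b66', b77', b45, b46, b47, b56, b57, b67]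
    norm_num
  have row : ∀ i, ⟪x i, x 4⟫ + ⟪x i, x 6⟫ - ⟪x i, x 5⟫ - ⟪x i, x 7⟫ = 0 := by
    intro i
    have : ⟪x i, x 4 + x 6 - x 5 - x 7⟫ = 0 := by rw [rb, inner_zero_right]
    simpa only [inner_sub_right, inner_add_right] using this
  have col : ∀ j, ⟪x 0, x j⟫ + ⟪x 2, x j⟫ - ⟪x 1, x j⟫ - ⟪x 3, x j⟫ = 0 := by
    intro j
    have : ⟪x 0 + x 2 - x 1 - x 3, x j⟫ = 0 := by rw [ra, inner_zero_left]
    simpa only [inner_sub_left, inner_add_left] using this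
  have c07 : ⟪x 0, x 7⟫ = 0 := by linarith [row 0]
  have c14 : ⟪x 1, x 4⟫ = 0 := by linarith [col 4]
  have c15 : ⟪x 1, x 5⟫ = 0 := by linarith [row 1]
  have c25 : ⟪x 2, x 5⟫ = 0 := by linarith [col 5]
  have c26 : ⟪x 2, x 6⟫ = 0 := by linarith [row 2]
  have c36 : ⟪x 3, x 6⟫ = 0 := by linarith [col 6]
  have c37 : ⟪x 3, x 7⟫ = 0 := by linarith [row 3]
  let u : Fin 6 → E5 := ![x 0 - x 2, x 1 - x 3, x 0 + x 2, x 4 - x 5, x 4 - x 7, x 4 + x 6]
  have hu : ∀ i j, ⟪u i, u j⟫ = if i = j then (if i.val < 3 then 2 else 4 / 3) else 0 := by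
    intro i j
    fin_cases i <;> fin_cases j <;>
      simp only [u, Fin.zero_eta, Fin.mk_one, Fin.reduceFinMk, Matrix.cons_val,
        Matrix.cons_val_zero, Matrix.cons_val_one, inner_sub_left, inner_sub_right,
        inner_add_left, inner_add_right, Fin.reduceEq, if_true, if_false, Fin.isValue] <;>
      norm_num [-inner_self_eq_norm_sq_to_K] <;>
      linarith [c 0 1, c 0 2, c 0 3, c 1 2, c 1 3, c 2 3, c 4 5, c 4 6, c 4 7, c 5 6, c 5 7, c 6 7,
        c 0 4, c 0 5, c 0 6, c 0 7, c 1 4, c 1 5, c 1 6, c 1 7, c 2 4, c 2 5, c 2 6, c 2 7,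
        c 3 4, c 3 5, c 3 6, c 3 7]
  have hli : LinearIndependent ℝ u := by
    apply linearIndependent_of_ne_zero_of_inner_eq_zero
    · intro i hi
      have := hu i i
      rw [hi, inner_zero_left, if_pos rfl] at this
      split_ifs at this <;> norm_num at this
    · intro i j hij
      rw [hu i j, if_neg hij]
  have := hli.fintype_card_le_finrank
  simp at this

/-- Counterexample with eight points: the cluster of the last four points is reflected
through the centre, which is a contraction. -/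
theorem result :
    ¬ (∀ (N : ℕ) (p q : Fin N → EuclideanSpace ℝ (Fin 3)),
    (∀ i, ‖p i‖ = 1) → (∀ i, ‖q i‖ = 1) →
    ∀ ι : EuclideanSpace ℝ (Fin 3) →ₗᵢ[ℝ] EuclideanSpace ℝ (Fin 5),
    ∃ m : ℝ → Fin N → EuclideanSpace ℝ (Fin 5),
      m 0 = (fun i => ι (p i)) ∧ m 1 = (fun i => ι (q i)) ∧
      ContinuousOn m (Set.Icc 0 1) ∧
      (∀ t ∈ Set.Icc (0:ℝ) 1, ∀ i, ‖m t i‖ = 1) ∧
      (∃ (K : ℕ) (s : ℕ → ℝ), s 0 = 0 ∧ s K = 1 ∧ (∀ k < K, s k < s (k+1)) ∧
         ∀ k < K, AnalyticOn ℝ m (Set.Icc (s k) (s (k+1)))) ∧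
      ∀ i j, MonotoneOn (fun t => dist (m t i) (m t j)) (Set.Icc 0 1) ∨
             AntitoneOn (fun t => dist (m t i) (m t j)) (Set.Icc 0 1)) := by
  intro H
  obtain ⟨m, h0, h1, hc, hn, -, hm⟩ := H 8 (qq (-1)) (qq 1) (norm_qq _ (by norm_num))
    (norm_qq _ (by norm_num)) emb
  have z0 : (0 : ℝ) ∈ Set.Icc (0 : ℝ) 1 := ⟨le_rfl, zero_le_one⟩
  have z1 : (1 : ℝ) ∈ Set.Icc (0 : ℝ) 1 := ⟨zero_le_one, le_rfl⟩
  have g0 : ∀ i j, ⟪m 0 i, m 0 j⟫ = gram (-1) i j := by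
    intro i j
    rw [h0]
    simp only [LinearIsometry.inner_map_map]
    exact inner_qq _ (by norm_num) i j
  have g1 : ∀ i j, ⟪m 1 i, m 1 j⟫ = gram 1 i j := by
    intro i j
    rw [h1]
    simp only [LinearIsometry.inner_map_map]
    exact inner_qq _ (by norm_num) i j
  have hcont : ContinuousOn (fun t => ⟪m t 0, m t 4⟫) (Set.Icc 0 1) :=
    ContinuousOn.inner (𝕜 := ℝ) (continuousOn_pi.1 hc 0) (continuousOn_pi.1 hc 4)
  have hpos : 0 < r2 * r3 := mul_pos r2_pos r3_pos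
  have hmem : (0 : ℝ) ∈ Set.Icc ⟪m 0 0, m 0 4⟫ ⟪m 1 0, m 1 4⟫ := by
    rw [g0, g1]
    constructor <;> simp [gram] <;> nlinarith
  obtain ⟨t, ht, ht0⟩ := intermediate_value_Icc zero_le_one hcont hmem
  apply final (m t) _ ht0
  intro i j hij
  have d01 : dist (m 0 i) (m 0 j) = dist (m 1 i) (m 1 j) := by
    have e0 := inner_of_dist _ _ (hn 0 z0 i) (hn 0 z0 j)
    have e1 := inner_of_dist _ _ (hn 1 z1 i) (hn 1 z1 j)
    rw [g0] at e0
    rw [g1, hij] at e1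
    have : dist (m 0 i) (m 0 j) ^ 2 = dist (m 1 i) (m 1 j) ^ 2 := by linarith
    exact (pow_left_inj₀ dist_nonneg dist_nonneg (by norm_num)).1 this
  have dt : dist (m t i) (m t j) = dist (m 1 i) (m 1 j) := by
    rcases hm i j with h | h
    · have a := h z0 ht ht.1
      have b := h ht z1 ht.2
      simp only at a b
      linarith
    · have a := h z0 ht ht.1
      have b := h ht z1 ht.2
      simp only at a b
      linarith
  rw [inner_of_dist _ _ (hn t ht i) (hn t ht j), dt, ← g1,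
    inner_of_dist _ _ (hn 1 z1 i) (hn 1 z1 j)]

end Pool.Agent.S10340
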