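import Pool.Statements.S10346

set_option autoImplicit false
open Pool Pool.MP_9a52ae_co

namespace Pool.Agent.S10346

open Finset

def ex {n : ℕ} (g : Fin n → ℕ) (t : ℕ) : ℕ := if h : t < n then g ⟨t, h⟩ else 0

def sh (s : ℕ) (f : ℕ → ℕ) (t : ℕ) : ℕ := f (s + t)

theorem sh_sh (s s' : ℕ) (f : ℕ → ℕ) : sh s (sh s' f) = sh (s' + s) f := by
  funext t; simp [sh, add_assoc]

def Inv (n : ℕ) (Φ : (ℕ → ℕ) → ℤ) : Prop :=
  ∀ f f' : ℕ → ℕ, (∀ a < n, ∀ b < n, f a < f b ↔ f' a < f' b) → Φ f = Φ f'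

def S (n : ℕ) (Φ : (ℕ → ℕ) → ℤ) : ℤ := ∑ π : Equiv.Perm (Fin n), Φ (ex fun t => (π t : ℕ))

theorem std {n : ℕ} {Φ : (ℕ → ℕ) → ℤ} (h : Inv n Φ) (g : Fin n → ℕ) (hg : Function.Injective g) :
    ∑ a : Equiv.Perm (Fin n), Φ (ex fun t => g (a t)) = S n Φ := by
  have hs : StrictMono (g ∘ Tuple.sort g) :=
    (Tuple.monotone_sort g).strictMono_of_injective (hg.comp (Tuple.sort g).injective)
  rw [← Equiv.sum_comp (Equiv.mulLeft (Tuple.sort g))]
  refine sum_congr rfl fun a _ => h _ _ fun s hs' t ht => ?_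
  simp only [ex, hs', ht, dif_pos, Equiv.coe_mulLeft, Equiv.Perm.mul_apply]
  exact hs.lt_iff_lt

theorem conv {j m : ℕ} {Φ Ψ : (ℕ → ℕ) → ℤ} (hΦ : Inv j Φ) (hΨ : Inv m Ψ) :
    (j.factorial : ℤ) * m.factorial * S (j + m) (fun f => Φ f * Ψ (sh j f)) =
      (j + m).factorial * (S j Φ * S m Ψ) := by
  have h1 : ∀ (a : Equiv.Perm (Fin j)) (b : Equiv.Perm (Fin m)),
      S (j + m) (fun f => Φ f * Ψ (sh j f)) = ∑ π : Equiv.Perm (Fin (j + m)),
        Φ (ex fun t => (π (Fin.castAdd m (a t)) : ℕ)) *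
          Ψ (ex fun t => (π (Fin.natAdd j (b t)) : ℕ)) := by
    intro a b
    rw [S, ← Equiv.sum_comp (Equiv.mulRight (finSumFinEquiv.permCongr (a.sumCongr b)))]
    refine sum_congr rfl fun π _ => ?_
    have e1 : ∀ t (ht : t < j), ex (fun t => ((Equiv.mulRight
        (finSumFinEquiv.permCongr (a.sumCongr b)) π) t : ℕ)) t =
        ex (fun t => (π (Fin.castAdd m (a t)) : ℕ)) t := by
      intro t ht
      have : (⟨t, by omega⟩ : Fin (j + m)) = finSumFinEquiv (Sum.inl ⟨t, ht⟩) := rfl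
      simp only [ex, ht, show t < j + m by omega, dif_pos]
      rw [this, Equiv.coe_mulRight]
      simp only [Equiv.Perm.mul_apply, Equiv.permCongr_apply, Equiv.symm_apply_apply]
      rfl
    have e2 : ∀ t (ht : t < m), sh j (ex (fun t => ((Equiv.mulRight
        (finSumFinEquiv.permCongr (a.sumCongr b)) π) t : ℕ))) t =
        ex (fun t => (π (Fin.natAdd j (b t)) : ℕ)) t := by
      intro t ht
      have : (⟨j + t, by omega⟩ : Fin (j + m)) = finSumFinEquiv (Sum.inr ⟨t, ht⟩) := rfl
      simp only [sh, ex, ht, show j + t < j + m by omega, dif_pos]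
      rw [this, Equiv.coe_mulRight]
      simp only [Equiv.Perm.mul_apply, Equiv.permCongr_apply, Equiv.symm_apply_apply]
      rfl
    congr 1
    · exact hΦ _ _ fun s hs t ht => by rw [e1 s hs, e1 t ht]
    · exact hΨ _ _ fun s hs t ht => by rw [e2 s hs, e2 t ht]
  have h2 : ∑ a : Equiv.Perm (Fin j), ∑ b : Equiv.Perm (Fin m),
      S (j + m) (fun f => Φ f * Ψ (sh j f)) =
      ∑ _π : Equiv.Perm (Fin (j + m)), S j Φ * S m Ψ := by
    rw [sum_congr rfl fun a _ => sum_congr rfl fun b _ => h1 a b]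
    rw [sum_congr rfl fun a _ => sum_comm, sum_comm]
    refine sum_congr rfl fun π _ => ?_
    rw [← sum_mul_sum, std hΦ (fun t => (π (Fin.castAdd m t) : ℕ)),
      std hΨ (fun t => (π (Fin.natAdd j t) : ℕ))]
    · exact Fin.val_injective.comp (π.injective.comp (Fin.natAdd_injective _ _))
    · exact Fin.val_injective.comp (π.injective.comp (Fin.castAdd_injective _ _))
  simp only [sum_const, card_univ, Fintype.card_perm, Fintype.card_fin, nsmul_eq_mul] at h2
  rw [← h2]; ring

def occ (f : ℕ → ℕ) : Prop := f 3 < f 0 ∧ f 0 < f 5 ∧ f 5 < f 2 ∧ f 2 < f 1 ∧ f 1 < f 4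

instance (f : ℕ → ℕ) : Decidable (occ f) := by unfold occ; infer_instance

def has (n : ℕ) (f : ℕ → ℕ) : Prop := ∃ i, i + 6 ≤ n ∧ occ (sh i f)

open Classical in
noncomputable def A (n : ℕ) (f : ℕ → ℕ) : ℤ := if ¬ has n f then 1 else 0

def c : ℕ → (ℕ → ℕ) → ℤ
  | n + 6, f => if occ f then (if n = 0 then 1 else 0) + c (n + 3) (sh 3 f) + c (n + 1) (sh 5 f)
      else 0
  | _, _ => 0

theorem c_lt (j : ℕ) (hj : j < 6) (f : ℕ → ℕ) : c j f = 0 := by
  interval_cases j <;> rfl

theorem c_eq (n : ℕ) (f : ℕ → ℕ) : c (n + 6) f =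
    if occ f then (if n = 0 then 1 else 0) + c (n + 3) (sh 3 f) + c (n + 1) (sh 5 f) else 0 := by
  rw [c]

theorem c_not (j : ℕ) (f : ℕ → ℕ) (h : ¬ occ f) : c j f = 0 := by
  rcases Nat.lt_or_ge j 6 with hj | hj
  · exact c_lt j hj f
  · obtain ⟨n, rfl⟩ := Nat.exists_eq_add_of_le' hj
    rw [c_eq, if_neg h]

theorem c_nonneg (j : ℕ) : ∀ f, 0 ≤ c j f := by
  induction j using Nat.strong_induction_on with
  | _ j ih =>
  intro f
  rcases Nat.lt_or_ge j 6 with hj | hj
  · rw [c_lt j hj f]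
  · obtain ⟨n, rfl⟩ := Nat.exists_eq_add_of_le' hj
    rw [c_eq]
    have h1 := ih (n + 3) (by omega) (sh 3 f)
    have h2 := ih (n + 1) (by omega) (sh 5 f)
    split_ifs <;> omega

theorem occ_inv {n : ℕ} {f f' : ℕ → ℕ} (h : ∀ a < n, ∀ b < n, f a < f b ↔ f' a < f' b) (i : ℕ)
    (hi : i + 6 ≤ n) : occ (sh i f) ↔ occ (sh i f') := by
  simp only [occ, sh]
  rw [h _ (by omega) _ (by omega), h (i + 0) (by omega) _ (by omega),
    h (i + 5) (by omega) _ (by omega), h (i + 2) (by omega) _ (by omega),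
    h (i + 1) (by omega) _ (by omega)]

theorem sh_zero (f : ℕ → ℕ) : sh 0 f = f := by funext t; simp [sh]

theorem c_inv (j : ℕ) : Inv j (c j) := by
  induction j using Nat.strong_induction_on with
  | _ j ih =>
  intro f f' h
  rcases Nat.lt_or_ge j 6 with hj | hj
  · rw [c_lt j hj, c_lt j hj]
  · obtain ⟨n, rfl⟩ := Nat.exists_eq_add_of_le' hj
    have h0 := occ_inv h 0 (by omega)
    rw [sh_zero, sh_zero] at h0
    rw [c_eq, c_eq, ih (n + 3) (by omega) (sh 3 f) (sh 3 f')
      (fun a ha b hb => h _ (by omega) _ (by omega)), ih (n + 1) (by omega) (sh 5 f) (sh 5 f')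
      (fun a ha b hb => h _ (by omega) _ (by omega))]
    simp only [h0]

theorem A_inv (n : ℕ) : Inv n (A n) := by
  intro f f' h
  have : has n f ↔ has n f' :=
    exists_congr fun i => and_congr_right fun hi => occ_inv h i hi
  unfold A
  rw [propext this]

noncomputable def D (n : ℕ) (f : ℕ → ℕ) : ℤ := if 6 ≤ n ∧ occ f then A (n - 1) (sh 1 f) else 0

theorem A_succ (n : ℕ) (f : ℕ → ℕ) : A (n + 1) f = A n (sh 1 f) - D (n + 1) f := by
  have : has (n + 1) f ↔ (6 ≤ n + 1 ∧ occ f) ∨ has n (sh 1 f) := by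
    constructor
    · rintro ⟨i, hi, h⟩
      cases i with
      | zero => left; rw [sh_zero] at h; exact ⟨by omega, h⟩
      | succ i => right; exact ⟨i, by omega, by rw [sh_sh, add_comm]; exact h⟩
    · rintro (h | ⟨i, hi, h⟩)
      · exact ⟨0, by omega, by rw [sh_zero]; exact h.2⟩
      · exact ⟨1 + i, by omega, by rw [← sh_sh]; exact h⟩
  have A1 : ∀ n f, has n f → A n f = 0 := fun n f h => if_neg (not_not.2 h)
  have A2 : ∀ n f, ¬ has n f → A n f = 1 := fun n f h => if_pos h
  rw [D, Nat.add_sub_cancel]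
  by_cases h1 : 6 ≤ n + 1 ∧ occ f
  · rw [if_pos h1, A1 _ _ (this.2 (Or.inl h1)), sub_self]
  · rw [if_neg h1, sub_zero]
    by_cases h2 : has n (sh 1 f)
    · rw [A1 _ _ h2, A1 _ _ (this.2 (Or.inr h2))]
    · rw [A2 _ _ h2, A2 _ _ fun h => (this.1 h).elim h1 h2]

theorem D_eq (n : ℕ) : ∀ f, D n f = ∑ j ∈ range (n + 1), (-1) ^ j * c j f * A (n - j) (sh j f) := by
  induction n using Nat.strong_induction_on with
  | _ n ih =>
  intro f
  by_cases h : 6 ≤ n ∧ occ f
  · obtain ⟨hn, ho⟩ := h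
    obtain ⟨m, rfl⟩ := Nat.exists_eq_add_of_le' hn
    have d1 : D (m + 5) (sh 1 f) = 0 := if_neg fun h => by
      simp only [occ, sh] at h ho; norm_num at h; omega
    have d2 : D (m + 4) (sh 2 f) = 0 := if_neg fun h => by
      simp only [occ, sh] at h ho; norm_num at h; omega
    have d4 : D (m + 2) (sh 4 f) = 0 := if_neg fun h => by
      simp only [occ, sh] at h ho; norm_num at h; omega
    have e0 : D (m + 6) f = A (m + 5) (sh 1 f) := if_pos ⟨by omega, ho⟩
    have e1 := A_succ (m + 4) (sh 1 f)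
    have e2 := A_succ (m + 3) (sh 2 f)
    have e3 := A_succ (m + 2) (sh 3 f)
    have e4 := A_succ (m + 1) (sh 4 f)
    have e5 := A_succ m (sh 5 f)
    simp only [sh_sh, add_assoc, Nat.reduceAdd] at e1 e2 e3 e4 e5
    have i3 := ih (m + 3) (by omega) (sh 3 f)
    have i5 := ih (m + 1) (by omega) (sh 5 f)
    rw [show m + 3 + 1 = 3 + (m + 1) by ring, sum_range_add, sum_eq_zero (fun j hj => by
      rw [c_lt j (by have := mem_range.1 hj; omega)]; simp), zero_add] at i3
    rw [show m + 1 + 1 = 1 + (m + 1) by ring, sum_range_add, sum_eq_zero (fun j hj => by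
      rw [c_lt j (by have := mem_range.1 hj; omega)]; simp), zero_add] at i5
    rw [show m + 6 + 1 = 6 + (m + 1) by ring, sum_range_add, sum_eq_zero (fun j hj => by
      rw [c_lt j (mem_range.1 hj)]; simp), zero_add]
    have key : ∀ i, (-1 : ℤ) ^ (6 + i) * c (6 + i) f * A (m + 6 - (6 + i)) (sh (6 + i) f) =
        (if i = 0 then A m (sh 6 f) else 0) -
        (-1) ^ (3 + i) * c (3 + i) (sh 3 f) * A (m + 3 - (3 + i)) (sh (3 + i) (sh 3 f)) -
        (-1) ^ (1 + i) * c (1 + i) (sh 5 f) * A (m + 1 - (1 + i)) (sh (1 + i) (sh 5 f)) := by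
      intro i
      rw [add_comm 6 i, c_eq, if_pos ho, sh_sh, sh_sh, show m + 6 - (i + 6) = m - i by omega,
        show m + 3 - (3 + i) = m - i by omega, show m + 1 - (1 + i) = m - i by omega,
        show 3 + (3 + i) = i + 6 by ring, show 5 + (1 + i) = i + 6 by ring, add_comm 3 i,
        add_comm 1 i]
      split_ifs with hi
      · subst hi; simp; ring
      · ring
    rw [sum_congr rfl fun i _ => key i, sum_sub_distrib, sum_sub_distrib, ← i3, ← i5]
    simp only [sum_ite_eq', mem_range, Nat.succ_pos, if_true]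
    linarith
  · rw [D, if_neg h]
    refine (sum_eq_zero fun j hj => ?_).symm
    have : c j f = 0 := by
      by_cases ho : occ f
      · exact c_lt j (by have := mem_range.1 hj; by_contra hh; exact h ⟨by omega, ho⟩) f
      · exact c_not j f ho
    simp [this]

def w (j : ℕ) (f : ℕ → ℕ) : ℤ := (if j = 0 then 1 else 0) - (if j = 1 then 1 else 0) + (-1) ^ j * c j f

theorem w_inv (j : ℕ) : Inv j (w j) := fun f f' h => by rw [w, w, c_inv j f f' h]

theorem A_zero (f : ℕ → ℕ) : A 0 f = 1 := by simp [A, has]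

theorem wA (n : ℕ) (f : ℕ → ℕ) :
    ∑ j ∈ range (n + 1), w j f * A (n - j) (sh j f) = if n = 0 then 1 else 0 := by
  simp only [w, add_mul, sub_mul, sum_add_distrib, sum_sub_distrib, ← D_eq, ite_mul, one_mul,
    zero_mul, sum_ite_eq', mem_range]
  cases n with
  | zero => simp [A_zero, D]
  | succ n => simp [sh_zero, A_succ]

noncomputable def WW (j : ℕ) : ℂ := (S j (w j) : ℂ) / j.factorial
noncomputable def PP (j : ℕ) : ℂ := (S j (A j) : ℂ) / j.factorial

theorem WP (n : ℕ) : ∑ j ∈ range (n + 1), WW j * PP (n - j) = if n = 0 then 1 else 0 := by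
  have h1 : ∀ j ∈ range (n + 1), WW j * PP (n - j) =
      (S n (fun f => w j f * A (n - j) (sh j f)) : ℂ) / n.factorial := by
    intro j hj
    obtain ⟨m, rfl⟩ := Nat.exists_eq_add_of_le (Nat.lt_succ_iff.1 (mem_range.1 hj))
    have := congrArg (Int.cast : ℤ → ℂ) (conv (w_inv j) (A_inv m))
    push_cast at this
    rw [Nat.add_sub_cancel_left, WW, PP]
    have a1 : (j.factorial : ℂ) ≠ 0 := by exact_mod_cast j.factorial_ne_zero
    have a2 : (m.factorial : ℂ) ≠ 0 := by exact_mod_cast m.factorial_ne_zero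
    have a3 : ((j + m).factorial : ℂ) ≠ 0 := by exact_mod_cast (j + m).factorial_ne_zero
    field_simp
    linear_combination -this
  rw [sum_congr rfl h1, ← sum_div, ← Int.cast_sum]
  simp only [S]
  rw [sum_comm]
  simp only [wA]
  split_ifs with h
  · subst h; simp
  · simp

def lv (t : ℕ) : Fin 8 := ![2, 5, 4, 1, 6, 3, 0, 7] ⟨t % 8, Nat.mod_lt _ (by norm_num)⟩

theorem lv_add (t : ℕ) : lv (8 + t) = lv t := by simp [lv]

theorem good (N : ℕ) : ∀ f : ℕ → ℕ, (∀ a < 8 * N + 6, ∀ b < 8 * N + 6, lv a < lv b → f a < f b) →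
    1 ≤ c (8 * N + 6) f := by
  have h0 : ∀ n, ∀ f : ℕ → ℕ, (∀ a < n + 6, ∀ b < n + 6, lv a < lv b → f a < f b) → occ f :=
    fun n f h => ⟨h _ (by omega) _ (by omega) (by decide), h _ (by omega) _ (by omega) (by decide),
      h _ (by omega) _ (by omega) (by decide), h _ (by omega) _ (by omega) (by decide),
      h _ (by omega) _ (by omega) (by decide)⟩
  induction N with
  | zero =>
    intro f h
    rw [c_eq, if_pos (h0 _ f h), c_lt _ (by norm_num), c_lt _ (by norm_num)]; simp
  | succ N ih =>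
    intro f h
    have h3 : occ (sh 3 f) :=
      ⟨h _ (by omega) _ (by omega) (by decide), h _ (by omega) _ (by omega) (by decide),
      h _ (by omega) _ (by omega) (by decide), h _ (by omega) _ (by omega) (by decide),
      h _ (by omega) _ (by omega) (by decide)⟩
    have h8 := ih (sh 5 (sh 3 f)) fun a ha b hb hab => by
      rw [sh_sh]
      exact h _ (by omega) _ (by omega) (by rw [lv_add, lv_add]; exact hab)
    rw [c_eq, if_pos (h0 _ f h), show 8 * (N + 1) + 3 = (8 * N + 5) + 6 by ring, c_eq, if_pos h3]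
    have a1 := c_nonneg (8 * N + 5 + 3) (sh 3 (sh 3 f))
    have a2 := c_nonneg (8 * (N + 1) + 1) (sh 5 f)
    rw [show 8 * N + 5 + 1 = 8 * N + 6 by ring]
    split_ifs <;> omega

theorem many (N : ℕ) : ((8 * N + 6).factorial : ℤ) ≤ 8 ^ (8 * N + 6) * S (8 * N + 6) (c (8 * N + 6)) := by
  classical
  generalize hn : 8 * N + 6 = n
  let l : Fin n → Fin 8 := fun t => lv t
  let τ := Tuple.sort l
  let Γ := univ.filter fun π : Equiv.Perm (Fin n) => l ∘ π.symm = l ∘ τ
  have h1 : (Γ.card : ℤ) ≤ S n (c n) := by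
    rw [S, card_filter]
    push_cast
    refine sum_le_sum fun π _ => ?_
    split_ifs with h
    · subst hn
      refine good N _ fun a ha b hb hab => ?_
      simp only [ex, ha, hb, dif_pos]
      have e1 := congrFun h (π ⟨a, ha⟩)
      have e2 := congrFun h (π ⟨b, hb⟩)
      simp only [Function.comp_apply, Equiv.symm_apply_apply] at e1 e2
      refine (Tuple.monotone_sort l).reflect_lt ?_
      simp only [Function.comp_apply]
      rw [← e1, ← e2]; exact hab
    · exact c_nonneg _ _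
  have h2 : (univ : Finset (Equiv.Perm (Fin n))).card ≤
      Γ.card * (univ.image fun π : Equiv.Perm (Fin n) => l ∘ π.symm).card := by
    refine card_le_mul_card_image _ _ fun u hu => ?_
    obtain ⟨π0, -, rfl⟩ := mem_image.1 hu
    refine card_le_card_of_injOn (fun π => τ⁻¹ * π0⁻¹ * π) ?_ ?_
    · intro π hπ
      simp only [coe_filter, mem_univ, true_and, Set.mem_ofPred_eq, Γ] at hπ ⊢
      funext t
      have := congrFun hπ (π0 (τ t))
      simp only [Function.comp_apply, Equiv.symm_apply_apply] at this ⊢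
      rw [← this]
      congr 1
    · intro π _ π' _ e
      exact mul_left_cancel e
  have h3 : (univ.image fun π : Equiv.Perm (Fin n) => l ∘ π.symm).card ≤ 8 ^ n := by
    simpa using card_le_univ (univ.image fun π : Equiv.Perm (Fin n) => l ∘ π.symm)
  rw [card_univ, Fintype.card_perm, Fintype.card_fin] at h2
  have h4 : n.factorial ≤ Γ.card * 8 ^ n := h2.trans (Nat.mul_le_mul_left _ h3)
  have h5 : (n.factorial : ℤ) ≤ Γ.card * 8 ^ n := by exact_mod_cast h4
  have h6 : (0 : ℤ) < 8 ^ n := by positivity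
  nlinarith

theorem WW_big (N : ℕ) : 1 ≤ ‖WW (8 * N + 6) * 8 ^ (8 * N + 6)‖ := by
  have e : S (8 * N + 6) (w (8 * N + 6)) = S (8 * N + 6) (c (8 * N + 6)) := by
    refine sum_congr rfl fun π _ => ?_
    rw [w, if_neg (by omega), if_neg (by omega), Even.neg_one_pow ⟨4 * N + 3, by ring⟩]; ring
  have h := many N
  rw [WW, e]
  generalize S (8 * N + 6) (c (8 * N + 6)) = s at h
  generalize 8 * N + 6 = n at h
  have h1 : (n.factorial : ℝ) ≤ 8 ^ n * s := by exact_mod_cast h
  have h2 : (0 : ℝ) < n.factorial := by exact_mod_cast n.factorial_pos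
  rw [norm_mul, norm_div, norm_pow, Complex.norm_intCast, Complex.norm_natCast, div_mul_eq_mul_div,
    le_div_iff₀ h2]
  have h3 : (0 : ℝ) < 8 ^ n := by positivity
  have : ‖(8 : ℂ)‖ = 8 := by simp
  rw [this]
  nlinarith [le_abs_self (s : ℝ)]

theorem PP_le (n : ℕ) : ‖PP n‖ ≤ 1 := by
  have h2 : (0 : ℝ) < n.factorial := by exact_mod_cast n.factorial_pos
  rw [PP, norm_div, Complex.norm_intCast, Complex.norm_natCast, div_le_one h2]
  have : |S n (A n)| ≤ n.factorial := by
    refine (abs_sum_le_sum_abs _ _).trans ?_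
    have : ∑ π : Equiv.Perm (Fin n), |A n (ex fun t => (π t : ℕ))| ≤
        ∑ _π : Equiv.Perm (Fin n), (1 : ℤ) := sum_le_sum fun π _ => by
      unfold A; split_ifs <;> simp
    simpa [Fintype.card_perm] using this
  exact_mod_cast this

theorem main (f : ℂ → ℂ) (hf : Differentiable ℂ f)
    (h : ∀ᶠ z in nhds (0 : ℂ), f z * ∑' n, PP n * z ^ n = 1) : False := by
  have hp := hf.hasFPowerSeriesOnBall 0 (R := 1) one_pos
  set p := cauchyPowerSeries f 0 (1 : NNReal)
  have hs : ∀ z : ℂ, HasSum (fun n => p.coeff n * z ^ n) (f z) := by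
    intro z
    have := hp.hasSum (y := z) (by simp)
    simpa [mul_comm] using this
  have hq : HasFPowerSeriesAt (fun _ : ℂ => (0 : ℂ)) (FormalMultilinearSeries.ofScalars ℂ fun n =>
      (∑ j ∈ range (n + 1), p.coeff j * PP (n - j)) - if n = 0 then 1 else 0) 0 := by
    rw [hasFPowerSeriesAt_iff]
    filter_upwards [h, Metric.ball_mem_nhds (0 : ℂ) one_pos] with z hz hz1
    rw [mem_ball_zero_iff] at hz1
    have s1 : Summable fun n => ‖p.coeff n * z ^ n‖ := (hs z).summable.norm
    have s2 : Summable fun n => ‖PP n * z ^ n‖ := by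
      refine Summable.of_nonneg_of_le (fun _ => norm_nonneg _) (fun n => ?_)
        (summable_geometric_of_lt_one (norm_nonneg z) hz1)
      rw [norm_mul, norm_pow]
      exact mul_le_of_le_one_left (by positivity) (PP_le n)
    have s3 := (summable_norm_sum_mul_range_of_summable_norm s1 s2).of_norm.hasSum
    rw [← tsum_mul_tsum_eq_tsum_sum_range_of_summable_norm s1 s2, (hs z).tsum_eq, hz] at s3
    have s4 : HasSum (fun n : ℕ => if n = 0 then (1 : ℂ) else 0) 1 := hasSum_ite_eq 0 1
    have s5 := s3.sub s4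
    rw [sub_self] at s5
    convert s5 using 1
    funext n
    rw [FormalMultilinearSeries.coeff_ofScalars, smul_eq_mul, mul_sub, mul_sum]
    congr 1
    · refine sum_congr rfl fun j hj => ?_
      have : z ^ n = z ^ j * z ^ (n - j) := by
        rw [← pow_add]; congr 1; have := mem_range.1 hj; omega
      rw [this]; ring
    · split_ifs with h0
      · subst h0; simp
      · simp
  have hz := hq.eq_zero
  have hc : ∀ n, ∑ j ∈ range (n + 1), p.coeff j * PP (n - j) = if n = 0 then 1 else 0 := by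
    intro n
    have := congrArg (fun q => FormalMultilinearSeries.coeff q n) hz
    simp only [FormalMultilinearSeries.coeff_ofScalars] at this
    exact sub_eq_zero.1 this
  have hP0 : PP 0 = 1 := by simp [PP, S, A_zero]
  have heq : ∀ n, p.coeff n = WW n := by
    intro n
    induction n using Nat.strong_induction_on with
    | _ n ih =>
    have a := hc n
    rw [← WP n, sum_range_succ, sum_range_succ, Nat.sub_self, hP0,
      sum_congr rfl fun j hj => by rw [ih j (mem_range.1 hj)]] at a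
    simpa using a
  have ht := (hs 8).summable.tendsto_atTop_zero.norm
  rw [norm_zero] at ht
  obtain ⟨N, hN⟩ := Filter.eventually_atTop.1 (ht.eventually_lt_const one_pos)
  have := hN (8 * N + 6) (by omega)
  rw [heq] at this
  linarith [WW_big N]

def sg : Equiv.Perm (Fin 6) := ⟨![1, 4, 3, 0, 5, 2], ![3, 0, 5, 2, 1, 4], by decide, by decide⟩

theorem occ_iff (f : ℕ → ℕ) : (∀ a b : Fin 6, sg a < sg b ↔ f a < f b) ↔ occ f := by
  constructor
  · intro h
    exact ⟨(h 3 0).1 (by decide), (h 0 5).1 (by decide), (h 5 2).1 (by decide),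
      (h 2 1).1 (by decide), (h 1 4).1 (by decide)⟩
  · intro h a b
    unfold occ at h
    fin_cases a <;> fin_cases b <;> simp [sg] <;> omega

/-- The negation of the preceding statement: For every permutation pattern σ of length at least 2, the reciprocal of the exponential generating function of permutations avoiding σ as a consecutive pattern extends to an entire function on ℂ. -/
theorem result :
    ¬ (∀ k : ℕ, 2 ≤ k → ∀ σ : Equiv.Perm (Fin k),
      ∃ f : ℂ → ℂ, Differentiable ℂ f ∧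
        ∀ᶠ z in nhds (0 : ℂ),
          f z * (∑' n : ℕ,
            ((Nat.card {π : Equiv.Perm (Fin n) //
                ¬ ∃ i : ℕ, i + k ≤ n ∧
                  ∀ a b : Fin k,
                    (σ a < σ b ↔
                      (if h : i + (a : ℕ) < n then ((π ⟨i + (a : ℕ), h⟩ : Fin n) : ℕ) else 0) <
                      (if h : i + (b : ℕ) < n then ((π ⟨i + (b : ℕ), h⟩ : Fin n) : ℕ) else 0))} : ℕ) : ℂ)
              * z ^ n / ((Nat.factorial n : ℕ) : ℂ)) = 1) := by
  classical
  intro H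
  obtain ⟨f, hf, h⟩ := H 6 (by norm_num) sg
  refine main f hf (h.mono fun z hz => ?_)
  rw [← hz]
  congr 2
  funext n
  rw [PP, div_mul_eq_mul_div]
  congr 2
  rw [Nat.card_eq_fintype_card, Fintype.card_subtype, card_filter, S]
  push_cast
  refine sum_congr rfl fun π _ => ?_
  have : ∀ i, occ (sh i (ex fun t => (π t : ℕ))) ↔ ∀ a b : Fin 6, sg a < sg b ↔
      (if h : i + (a : ℕ) < n then ((π ⟨i + (a : ℕ), h⟩ : Fin n) : ℕ) else 0) <
      (if h : i + (b : ℕ) < n then ((π ⟨i + (b : ℕ), h⟩ : Fin n) : ℕ) else 0) :=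
    fun i => (occ_iff _).symm
  have e := exists_congr fun i => and_congr_right fun _ : i + 6 ≤ n => this i
  rw [A]
  by_cases hh : has n (ex fun t => (π t : ℕ))
  · rw [if_neg (not_not.2 hh), if_neg (not_not.2 (e.1 hh))]; simp
  · rw [if_pos hh, if_pos (fun h => hh (e.2 h))]; simp

end Pool.Agent.S10346
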