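import Pool.Statements.S10384
-- import your own Pool.Agent.* helpers here

set_option autoImplicit false
open Pool Pool.MP_9beb5c_co

namespace Pool.Agent.S10384

/-- Colour of the pair `v w` (a value below 21 marks an edge). Vertices `0..55` form fourteen
copies of `K₄`, whose 42 perfect matchings are dealt two to each colour; vertices `56..70` form three
copies of `K₄` with one edge subdivided, whose 21 edges get the 21 colours. -/
def col (v w : ℕ) : ℕ :=
  if v < 56 then
    (if w < 56 then
      (if v / 4 = w / 4 then (if v = w then 99 else (3 * (v / 4) + ((v % 4) ^^^ (w % 4)) - 1) / 2)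
        else 99)
    else 99)
  else if w < 56 then 99
  else if (v - 56) / 5 = (w - 56) / 5 then
    (if 9991099653969421549903299 / 10 ^ (5 * ((v - 56) % 5) + (w - 56) % 5) % 10 < 7 then
      7 * ((v - 56) / 5) + 9991099653969421549903299 / 10 ^ (5 * ((v - 56) % 5) + (w - 56) % 5) % 10
    else 99)
  else 99

def comp (v : ℕ) : ℕ := if v < 56 then v / 4 else 14 + (v - 56) / 5

lemma col_symm : ∀ a b : Fin 71, col a b = col b a := by decide +kernel

lemma col_irr : ∀ a : Fin 71, ¬ col a a < 21 := by decide +kernel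

lemma comp_lt : ∀ a : Fin 71, comp a < 17 := by decide +kernel

lemma deg_le : ∀ v : Fin 71,
    (Finset.univ.filter (fun w : Fin 71 => col v w < 21)).card ≤ 3 := by decide +kernel

lemma cls : ∀ i : Fin 21, 5 ≤ (Finset.univ.filter
    (fun p : Fin 71 × Fin 71 => p.1 < p.2 ∧ col p.1 p.2 = i)).card := by decide +kernel

def dj (a b x y : Fin 71) : Bool := (a != x && a != y) && (b != x && b != y)

lemma dj_of {a b x y : Fin 71} (h1 : a ≠ x) (h2 : a ≠ y) (h3 : b ≠ x) (h4 : b ≠ y) :
    dj a b x y = true := by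
  simp [dj, h1, h2, h3, h4]

lemma factA' : ∀ a b : Fin 71, col a b < 21 → comp a < 14 → ∀ x : Fin 71, comp x = comp a →
    ∀ y : Fin 71, col x y < 21 → dj a b x y = true → col a b = col x y := by
  decide +kernel

lemma factA (a b : Fin 71) (h : col a b < 21) (h0 : comp a < 14) (x : Fin 71)
    (hx : comp x = comp a) (y : Fin 71) (hy : col x y < 21) (h1 : a ≠ x) (h2 : a ≠ y)
    (h3 : b ≠ x) (h4 : b ≠ y) : col a b = col x y :=
  factA' a b h h0 x hx y hy (dj_of h1 h2 h3 h4)

def noThird (a b x y : Fin 71) : Prop :=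
  ∀ z : Fin 71, comp z = comp a → ∀ w : Fin 71, col z w < 21 → dj a b z w = true →
    dj x y z w = false

instance (a b x y : Fin 71) : Decidable (noThird a b x y) := by
  unfold noThird; infer_instance

lemma factB' : ∀ a b : Fin 71, col a b < 21 → 14 ≤ comp a → ∀ x : Fin 71, comp x = comp a →
    ∀ y : Fin 71, col x y < 21 → dj a b x y = true → noThird a b x y := by
  decide +kernel

lemma factB (a b : Fin 71) (h : col a b < 21) (h0 : 14 ≤ comp a) (x : Fin 71)
    (hx : comp x = comp a) (y : Fin 71) (hy : col x y < 21) (h1 : a ≠ x) (h2 : a ≠ y)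
    (h3 : b ≠ x) (h4 : b ≠ y) (z : Fin 71) (hz : comp z = comp a) (g1 : a ≠ z) (g2 : b ≠ z)
    (g3 : x ≠ z) (g4 : y ≠ z) (w : Fin 71) (hw : col z w < 21) (k1 : a ≠ w) (k2 : b ≠ w)
    (k3 : x ≠ w) : y = w := by
  by_contra k4
  have h5 := factB' a b h h0 x hx y hy (dj_of h1 h2 h3 h4) z hz w hw (dj_of g1 k1 g2 k2)
  rw [dj_of g3 k3 g4 k4] at h5
  exact absurd h5 (by decide)

def G : SimpleGraph (Fin 71) where
  Adj a b := col a b < 21
  symm := ⟨fun a b h => by rw [col_symm]; exact h⟩
  loopless := ⟨fun a h => col_irr a h⟩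

instance : DecidableRel G.Adj := fun a b => inferInstanceAs (Decidable (col a b < 21))

def cc : Sym2 (Fin 71) → ℕ := Sym2.lift ⟨fun a b => col a b, fun a b => col_symm a b⟩

lemma maxdeg : G.maxDegree ≤ 3 := by
  apply SimpleGraph.maxDegree_le_of_forall_degree_le
  intro v
  have h := deg_le v
  rw [← SimpleGraph.card_neighborFinset_eq_degree, SimpleGraph.neighborFinset_eq_filter]
  exact h

set_option maxRecDepth 100000 in
lemma cls' (i : Fin 21) : 5 ≤ (G.edgeFinset.filter (fun e => cc e = i)).card := by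
  refine (cls i).trans ?_
  apply Finset.card_le_card_of_injOn (fun p : Fin 71 × Fin 71 => s(p.1, p.2))
  · intro p hp
    simp only [Finset.coe_filter, Finset.mem_univ, true_and, Set.mem_ofPred_eq] at hp
    simp only [Finset.coe_filter, SimpleGraph.mem_edgeFinset, SimpleGraph.mem_edgeSet,
      Set.mem_ofPred_eq]
    refine ⟨?_, ?_⟩
    · show col p.1 p.2 < 21
      rw [hp.2]; exact i.2
    · exact hp.2
  · intro p hp q hq h
    simp only [Finset.coe_filter, Finset.mem_univ, true_and, Set.mem_ofPred_eq] at hp hq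
    have h1 := hp.1
    have h2 := hq.1
    rcases Sym2.eq_iff.1 h with ⟨h3, h4⟩ | ⟨h3, h4⟩
    · exact Prod.ext h3 h4
    · exfalso
      rw [h3, h4] at h1
      exact lt_asymm h1 h2

/-- The negation of the preceding statement: For every finite simple graph and every partition of its edges into classes, some matching contains at least floor(∣class∣/(max degree + 2)) edges from each class. -/
theorem result :
    ¬ (∀ (V : Type) [Fintype V] [DecidableEq V] (G : SimpleGraph V) [DecidableRel G.Adj]
      (c : Sym2 V → ℕ),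
      ∃ M : Finset (Sym2 V), M ⊆ G.edgeFinset ∧
        (∀ v : V, ∀ e ∈ M, ∀ f ∈ M, v ∈ e → v ∈ f → e = f) ∧
        ∀ i : ℕ, (G.edgeFinset.filter (fun e => c e = i)).card / (G.maxDegree + 2)
          ≤ (M.filter (fun e => c e = i)).card) := by
  intro H
  obtain ⟨M, hM, hmat, hc⟩ := H (Fin 71) G cc
  have ex : ∀ i : Fin 21, ∃ a b : Fin 71, s(a, b) ∈ M ∧ col a b = i := by
    intro i
    have h1 := hc i
    have h2 := cls' i
    have h3 := maxdeg
    have h4 : 1 ≤ (G.edgeFinset.filter (fun e => cc e = i)).card / (G.maxDegree + 2) := by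
      rw [Nat.le_div_iff_mul_le (by omega)]
      omega
    obtain ⟨e, he⟩ := Finset.card_pos.1 (lt_of_lt_of_le h4 h1)
    rw [Finset.mem_filter] at he
    induction e using Sym2.ind with
    | _ a b => exact ⟨a, b, he.1, he.2⟩
  choose a b hab hcol using ex
  have hlt : ∀ i, col (a i) (b i) < 21 := fun i => by rw [hcol]; exact i.2
  have hne : ∀ i j : Fin 21, i ≠ j → ∀ v : Fin 71, v ∈ s(a i, b i) → v ∈ s(a j, b j) → False := by
    intro i j hij v h1 h2
    have h := hmat v _ (hab i) _ (hab j) h1 h2
    have h' : cc s(a i, b i) = cc s(a j, b j) := by rw [h]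
    have h'' : col (a i) (b i) = col (a j) (b j) := h'
    rw [hcol, hcol] at h''
    exact hij (Fin.ext h'')
  have haa : ∀ i j : Fin 21, i ≠ j → a i ≠ a j := fun i j hij h =>
    hne i j hij (a i) (Sym2.mem_mk_left _ _) (by rw [h]; exact Sym2.mem_mk_left _ _)
  have hab' : ∀ i j : Fin 21, i ≠ j → a i ≠ b j := fun i j hij h =>
    hne i j hij (a i) (Sym2.mem_mk_left _ _) (by rw [h]; exact Sym2.mem_mk_right _ _)
  have hba : ∀ i j : Fin 21, i ≠ j → b i ≠ a j := fun i j hij h =>
    hne i j hij (b i) (Sym2.mem_mk_right _ _) (by rw [h]; exact Sym2.mem_mk_left _ _)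
  have hbb : ∀ i j : Fin 21, i ≠ j → b i ≠ b j := fun i j hij h =>
    hne i j hij (b i) (Sym2.mem_mk_right _ _) (by rw [h]; exact Sym2.mem_mk_right _ _)
  have hsum : (Finset.univ : Finset (Fin 21)).card = ∑ k ∈ Finset.range 17,
      (Finset.univ.filter (fun i : Fin 21 => comp (a i) = k)).card := by
    apply Finset.card_eq_sum_card_fiberwise
    intro i _
    simpa using comp_lt (a i)
  have hfib : ∀ k ∈ Finset.range 17,
      (Finset.univ.filter (fun i : Fin 21 => comp (a i) = k)).card ≤ if k < 14 then 1 else 2 := by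
    intro k _
    split_ifs with hk
    · rw [Finset.card_le_one]
      intro i hi j hj
      rw [Finset.mem_filter] at hi hj
      by_contra hij
      have h := factA (a i) (b i) (hlt i) (by rw [hi.2]; exact hk) (a j) (by rw [hi.2, hj.2])
        (b j) (hlt j) (haa i j hij) (hab' i j hij) (hba i j hij) (hbb i j hij)
      rw [hcol, hcol] at h
      exact hij (Fin.ext h)
    · by_contra hlt2
      obtain ⟨i, j, l, hi, hj, hl, hij, hil, hjl⟩ := Finset.two_lt_card_iff.1 (not_le.1 hlt2)
      rw [Finset.mem_filter] at hi hj hl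
      have h := factB (a i) (b i) (hlt i) (by rw [hi.2]; omega) (a j) (by rw [hi.2, hj.2])
        (b j) (hlt j) (haa i j hij) (hab' i j hij) (hba i j hij) (hbb i j hij)
        (a l) (by rw [hi.2, hl.2]) (haa i l hil) (hba i l hil) (haa j l hjl) (hba j l hjl)
        (b l) (hlt l) (hab' i l hil) (hbb i l hil) (hab' j l hjl)
      exact hbb j l hjl h
  have hle := Finset.sum_le_sum hfib
  rw [← hsum] at hle
  revert hle
  decide

end Pool.Agent.S10384
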