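import Pool.Statements.S10390
-- import your own Pool.Agent.* helpers here

set_option autoImplicit false
open Pool Pool.MP_9c2e29_co

namespace Pool.Agent.S10390

def ax : Fin 8 → ℤ := ![0, 2, 3, 1, 3, 2, 2, 0]
def ay : Fin 8 → ℤ := ![0, 3, 1, 3, 0, 2, 1, 3]
def dx : Fin 8 → Fin 8 → ℤ := ![![0, 0, -1, 1, -1, 0, 2, 0], ![0, 0, 0, -1, 1, 0, 0, 2], ![1, 0, 0, 0, 0, -1, -1, 1], ![-1, 1, 0, 0, 0, 1, 1, -1], ![1, -1, 0, 0, 0, 0, -1, 1], ![0, 0, 1, -1, 0, 0, 0, 2], ![-2, 0, 1, -1, 1, 0, 0, -2], ![0, -2, -1, 1, -1, -2, 2, 0]]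
def dy : Fin 8 → Fin 8 → ℤ := ![![0, 0, 1, -1, 0, 0, 1, -1], ![0, 0, 0, 0, 1, -1, 2, 0], ![-1, 0, 0, 0, -1, 1, 0, 2], ![1, 0, 0, 0, 0, -1, 2, 0], ![0, -1, 1, 0, 0, 0, 1, -1], ![0, 1, -1, 1, 0, 0, -1, 1], ![-1, -2, 0, -2, -1, 1, 0, 2], ![1, 0, -2, 0, 1, -1, -2, 0]]
def adj (u v : Fin 8) : Bool := dx u v != 0 || dy u v != 0

theorem adj_symm : ∀ u v, adj u v = true → adj v u = true := by decide +kernel
theorem adj_irrefl : ∀ u, ¬ adj u u = true := by decide +kernel

/-- The join of the triangular prism (complement of the six-cycle 0..5) with the edge 6 7. -/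
def G : SimpleGraph (Fin 8) where
  Adj u v := adj u v = true
  symm := ⟨fun u v h => adj_symm u v h⟩
  loopless := ⟨fun u h => adj_irrefl u h⟩

noncomputable def pt (x y : ℝ) : AddCircle (1:ℝ) × AddCircle (1:ℝ) :=
  (((x / 4 : ℝ) : AddCircle (1:ℝ)), ((y / 4 : ℝ) : AddCircle (1:ℝ)))

theorem circ_eq (x x' : ℝ) :
    ((x / 4 : ℝ) : AddCircle (1:ℝ)) = ((x' / 4 : ℝ) : AddCircle (1:ℝ)) ↔
      ∃ k : ℤ, x = x' + 4 * k := by
  rw [QuotientAddGroup.eq, AddSubgroup.mem_zmultiples_iff]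
  constructor
  · rintro ⟨k, hk⟩
    refine ⟨-k, ?_⟩
    simp only [zsmul_eq_mul, mul_one] at hk
    push_cast
    linarith
  · rintro ⟨k, hk⟩
    refine ⟨-k, ?_⟩
    simp only [zsmul_eq_mul, mul_one]
    push_cast
    linarith

theorem pt_eq (x y x' y' : ℝ) :
    pt x y = pt x' y' ↔ (∃ k : ℤ, x = x' + 4 * k) ∧ ∃ l : ℤ, y = y' + 4 * l := by
  unfold pt
  rw [Prod.mk.injEq, circ_eq, circ_eq]

noncomputable def seg (u v : Fin 8) : C(unitInterval, AddCircle (1:ℝ) × AddCircle (1:ℝ)) where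
  toFun t := pt ((ax u : ℝ) + (t : ℝ) * (dx u v : ℝ)) ((ay u : ℝ) + (t : ℝ) * (dy u v : ℝ))
  continuous_toFun := by
    unfold pt
    refine Continuous.prodMk ?_ ?_
    · exact (AddCircle.continuous_mk' (1:ℝ)).comp (by fun_prop)
    · exact (AddCircle.continuous_mk' (1:ℝ)).comp (by fun_prop)

def sep (A B W : ℤ) : Bool :=
  if A = 0 ∧ B = 0 then W != 0
  else (decide (W ≤ min 0 A + min 0 (-B)) || decide (max 0 A + max 0 (-B) ≤ W))

theorem lo_le (A : ℤ) (s : ℝ) (h0 : 0 < s) (h1 : s < 1) :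
    ((min 0 A : ℤ) : ℝ) ≤ s * A ∧ (A ≠ 0 → ((min 0 A : ℤ) : ℝ) < s * A) ∧
    s * A ≤ ((max 0 A : ℤ) : ℝ) ∧ (A ≠ 0 → s * A < ((max 0 A : ℤ) : ℝ)) := by
  rcases lt_trichotomy A 0 with h | h | h
  · have hA : (A : ℝ) < 0 := by exact_mod_cast h
    rw [min_eq_right h.le, max_eq_left h.le]
    push_cast
    refine ⟨by nlinarith, fun _ => by nlinarith, by nlinarith, fun _ => by nlinarith⟩
  · subst h
    simp
  · have hA : (0 : ℝ) < A := by exact_mod_cast h
    rw [min_eq_left h.le, max_eq_right h.le]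
    push_cast
    refine ⟨by nlinarith, fun _ => by nlinarith, by nlinarith, fun _ => by nlinarith⟩

theorem sep_spec (A B W : ℤ) (h : sep A B W = true) (s t : ℝ) (hs0 : 0 < s) (hs1 : s < 1)
    (ht0 : 0 < t) (ht1 : t < 1) : s * A - t * B ≠ W := by
  intro he
  obtain ⟨a1, a2, a3, a4⟩ := lo_le A s hs0 hs1
  obtain ⟨b1, b2, b3, b4⟩ := lo_le (-B) t ht0 ht1
  have hb : t * ((-B : ℤ) : ℝ) = -(t * B) := by push_cast; ring
  rw [hb] at b1 b2 b3 b4
  unfold sep at h
  split_ifs at h with hz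
  · obtain ⟨rfl, rfl⟩ := hz
    have hW : W ≠ 0 := by simpa using h
    apply hW
    have : (W : ℝ) = 0 := by rw [← he]; simp
    exact_mod_cast this
  · have hne : A ≠ 0 ∨ -B ≠ 0 := by
      by_contra hc
      push Not at hc
      exact hz ⟨hc.1, by omega⟩
    rw [Bool.or_eq_true, decide_eq_true_eq, decide_eq_true_eq] at h
    rcases h with h | h
    · have h' : (W : ℝ) ≤ ((min 0 A : ℤ) : ℝ) + ((min 0 (-B) : ℤ) : ℝ) := by exact_mod_cast h
      rcases hne with hne | hne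
      · have := a2 hne; linarith
      · have := b2 hne; linarith
    · have h' : ((max 0 A : ℤ) : ℝ) + ((max 0 (-B) : ℤ) : ℝ) ≤ (W : ℝ) := by exact_mod_cast h
      rcases hne with hne | hne
      · have := a4 hne; linarith
      · have := b4 hne; linarith

def disj (d1 d2 e1 e2 w1 w2 : ℤ) : Bool :=
  sep (d2 * d1 - d1 * d2) (d2 * e1 - d1 * e2) (d2 * w1 - d1 * w2) ||
  sep (e2 * d1 - e1 * d2) (e2 * e1 - e1 * e2) (e2 * w1 - e1 * w2) ||
  sep (d1 * d1 + d2 * d2) (d1 * e1 + d2 * e2) (d1 * w1 + d2 * w2)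

theorem disj_spec (d1 d2 e1 e2 w1 w2 : ℤ) (h : disj d1 d2 e1 e2 w1 w2 = true) (s t : ℝ)
    (hs0 : 0 < s) (hs1 : s < 1) (ht0 : 0 < t) (ht1 : t < 1)
    (h1 : s * d1 - t * e1 = w1) (h2 : s * d2 - t * e2 = w2) : False := by
  unfold disj at h
  rw [Bool.or_eq_true, Bool.or_eq_true] at h
  rcases h with (h | h) | h
  · apply sep_spec _ _ _ h s t hs0 hs1 ht0 ht1
    push_cast
    rw [← h1, ← h2]; ring
  · apply sep_spec _ _ _ h s t hs0 hs1 ht0 ht1
    push_cast
    rw [← h1, ← h2]; ring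
  · apply sep_spec _ _ _ h s t hs0 hs1 ht0 ht1
    push_cast
    rw [← h1, ← h2]; ring

theorem bnd : ∀ u v, 0 ≤ ax u ∧ ax u ≤ 3 ∧ 0 ≤ ay u ∧ ay u ≤ 3 ∧ -2 ≤ dx u v ∧ dx u v ≤ 2 ∧
    -2 ≤ dy u v ∧ dy u v ≤ 2 := by decide +kernel

theorem chkE : ∀ u v u' v' : Fin 8, adj u v = true → adj u' v' = true →
    ¬ ((u = u' ∧ v = v') ∨ (u = v' ∧ v = u')) → ∀ k l : Fin 3,
    disj (dx u v) (dy u v) (dx u' v') (dy u' v') (ax u' + 4 * ((k.val : ℤ) - 1) - ax u)
      (ay u' + 4 * ((l.val : ℤ) - 1) - ay u) = true := by decide +kernel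

theorem chkV : ∀ u v w : Fin 8, adj u v = true → ∀ k l : Fin 3,
    disj (dx u v) (dy u v) 0 0 (ax w + 4 * ((k.val : ℤ) - 1) - ax u)
      (ay w + 4 * ((l.val : ℤ) - 1) - ay u) = true := by decide +kernel

theorem chkEnd : ∀ u v : Fin 8, adj u v = true →
    (ax u + dx u v - ax v) % 4 = 0 ∧ (ay u + dy u v - ay v) % 4 = 0 := by decide +kernel

theorem chkP : ∀ u v : Fin 8, ax u = ax v → ay u = ay v → u = v := by decide +kernel

theorem kb (a a' d d' k : ℤ) (s t : ℝ) (hs0 : 0 ≤ s) (hs1 : s ≤ 1) (ht0 : 0 ≤ t) (ht1 : t ≤ 1)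
    (h1 : 0 ≤ a) (h2 : a ≤ 3) (h3 : 0 ≤ a') (h4 : a' ≤ 3) (h5 : -2 ≤ d) (h6 : d ≤ 2)
    (h7 : -2 ≤ d') (h8 : d' ≤ 2) (h : (a : ℝ) + s * d = a' + t * d' + 4 * k) :
    ∃ j : Fin 3, k = (j.val : ℤ) - 1 := by
  have g1 : (0:ℝ) ≤ a := by exact_mod_cast h1
  have g2 : (a:ℝ) ≤ 3 := by exact_mod_cast h2
  have g3 : (0:ℝ) ≤ a' := by exact_mod_cast h3
  have g4 : (a':ℝ) ≤ 3 := by exact_mod_cast h4
  have g5 : (-2:ℝ) ≤ d := by exact_mod_cast h5
  have g6 : (d:ℝ) ≤ 2 := by exact_mod_cast h6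
  have g7 : (-2:ℝ) ≤ d' := by exact_mod_cast h7
  have g8 : (d':ℝ) ≤ 2 := by exact_mod_cast h8
  have k1 : (k:ℝ) < 2 := by nlinarith
  have k2 : (-2:ℝ) < k := by nlinarith
  have k1' : k < 2 := by exact_mod_cast k1
  have k2' : -2 < k := by exact_mod_cast k2
  refine ⟨⟨(k + 1).toNat, by omega⟩, ?_⟩
  simp only
  omega

def c1 : Fin 8 → Fin 5 := ![0, 0, 1, 1, 2, 2, 3, 4]
def c2 : Fin 8 → Fin 5 := ![0, 1, 1, 2, 2, 0, 3, 4]

theorem c1_ok : ∀ u v, adj u v = true → c1 u ≠ c1 v := by decide +kernel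
theorem c2_ok : ∀ u v, adj u v = true → c2 u ≠ c2 v := by decide +kernel

def inab (a b : Fin 5) (y : Fin 8) : Bool := c1 y == a || c1 y == b

theorem conn : ∀ a b : Fin 5, a ≠ b → ∀ x v : Fin 8, inab a b x = true → inab a b v = true →
    x = v ∨ adj x v = true ∨ (∃ y, inab a b y = true ∧ adj x y = true ∧ adj y v = true) ∨
      ∃ y z, inab a b y = true ∧ inab a b z = true ∧ adj x y = true ∧ adj y z = true ∧
        adj z v = true := by decide +kernel

theorem step (c c' : Fin 8 → Fin 5) (σ : Equiv.Perm (Fin 5)) (hc : ∀ v, c v = σ (c1 v))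
    (a b : Fin 5) (x : Fin 8)
    (h : ∀ v : Fin 8,
      ((SimpleGraph.fromRel (fun y z => G.Adj y z ∧ (c y = a ∨ c y = b) ∧
          (c z = a ∨ c z = b))).Reachable x v → c' v = Equiv.swap a b (c v)) ∧
      (¬ (SimpleGraph.fromRel (fun y z => G.Adj y z ∧ (c y = a ∨ c y = b) ∧
          (c z = a ∨ c z = b))).Reachable x v → c' v = c v)) :
    ∃ τ : Equiv.Perm (Fin 5), ∀ v, c' v = τ (c1 v) := by
  set H := SimpleGraph.fromRel (fun y z => G.Adj y z ∧ (c y = a ∨ c y = b) ∧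
          (c z = a ∨ c z = b)) with hH
  by_cases hab : a = b
  · refine ⟨σ, fun v => ?_⟩
    by_cases hr : H.Reachable x v
    · rw [(h v).1 hr, hab, Equiv.swap_self, ← hc]; rfl
    · rw [(h v).2 hr, hc]
  by_cases hx : c x = a ∨ c x = b
  · refine ⟨σ.trans (Equiv.swap a b), fun v => ?_⟩
    rw [Equiv.trans_apply, ← hc]
    by_cases hv : c v = a ∨ c v = b
    · apply (h v).1
      have hin : ∀ y, inab (σ.symm a) (σ.symm b) y = true ↔ (c y = a ∨ c y = b) := by
        intro y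
        unfold inab
        rw [Bool.or_eq_true, beq_iff_eq, beq_iff_eq, hc, Equiv.eq_symm_apply,
          Equiv.eq_symm_apply]
      have hadj : ∀ y z, inab (σ.symm a) (σ.symm b) y = true →
          inab (σ.symm a) (σ.symm b) z = true → adj y z = true → H.Reachable y z := by
        intro y z hy hz hyz
        apply SimpleGraph.Adj.reachable
        rw [hH, SimpleGraph.fromRel_adj]
        refine ⟨fun e => adj_irrefl z (e ▸ hyz), Or.inl ⟨hyz, (hin y).1 hy, (hin z).1 hz⟩⟩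
      have hx' := (hin x).2 hx
      have hv' := (hin v).2 hv
      rcases conn (σ.symm a) (σ.symm b) (fun e => hab (σ.symm.injective e)) x v hx' hv' with
        e | e | ⟨y, hy, e1, e2⟩ | ⟨y, z, hy, hz, e1, e2, e3⟩
      · rw [e]
      · exact hadj _ _ hx' hv' e
      · exact (hadj _ _ hx' hy e1).trans (hadj _ _ hy hv' e2)
      · exact ((hadj _ _ hx' hy e1).trans (hadj _ _ hy hz e2)).trans (hadj _ _ hz hv' e3)
    · push Not at hv
      rw [Equiv.swap_apply_of_ne_of_ne hv.1 hv.2]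
      by_cases hr : H.Reachable x v
      · rw [(h v).1 hr, Equiv.swap_apply_of_ne_of_ne hv.1 hv.2]
      · exact (h v).2 hr
  · refine ⟨σ, fun v => ?_⟩
    rw [← hc]
    by_cases hr : H.Reachable x v
    · rw [(h v).1 hr]
      have hxv : x = v := by
        obtain ⟨w⟩ := hr
        cases w with
        | nil => rfl
        | cons hadj _ =>
          exfalso
          rw [hH, SimpleGraph.fromRel_adj] at hadj
          rcases hadj.2 with h' | h'
          · exact hx h'.2.1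
          · exact hx h'.2.2
      subst hxv
      push Not at hx
      exact Equiv.swap_apply_of_ne_of_ne hx.1 hx.2
    · exact (h v).2 hr

/-- The negation of the preceding statement: For every finite graph that embeds in the torus, any two proper 5-colorings can be transformed into each other by a finite sequence of Kempe chain swaps (swapping two colors on one connected two-colored component). -/
theorem result :
    ¬ (∀ (V : Type) [Fintype V] (G : SimpleGraph V),
      (∃ (p : V → AddCircle (1:ℝ) × AddCircle (1:ℝ))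
         (γ : V → V → C(unitInterval, AddCircle (1:ℝ) × AddCircle (1:ℝ))),
         Function.Injective p ∧
         (∀ u v, G.Adj u v → γ u v 0 = p u ∧ γ u v 1 = p v ∧ Function.Injective (γ u v)) ∧
         (∀ (u v w : V) (t : unitInterval), G.Adj u v → 0 < (t:ℝ) → (t:ℝ) < 1 →
            γ u v t ≠ p w) ∧
         (∀ (u v u' v' : V) (s t : unitInterval), G.Adj u v → G.Adj u' v' →
            ¬ ((u = u' ∧ v = v') ∨ (u = v' ∧ v = u')) →
            0 < (s:ℝ) → (s:ℝ) < 1 → 0 < (t:ℝ) → (t:ℝ) < 1 → γ u v s ≠ γ u' v' t)) →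
      ∀ c₁ c₂ : G.Coloring (Fin 5),
        Relation.ReflTransGen
          (fun c c' : V → Fin 5 => ∃ (a b : Fin 5) (x : V), ∀ v : V,
            ((SimpleGraph.fromRel (fun y z => G.Adj y z ∧ (c y = a ∨ c y = b) ∧
                (c z = a ∨ c z = b))).Reachable x v → c' v = Equiv.swap a b (c v)) ∧
            (¬ (SimpleGraph.fromRel (fun y z => G.Adj y z ∧ (c y = a ∨ c y = b) ∧
                (c z = a ∨ c z = b))).Reachable x v → c' v = c v))
          (⇑c₁) (⇑c₂)) := by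
  intro hall
  have hmain := hall (Fin 8) G ?_ (SimpleGraph.Coloring.mk c1 (fun {u v} h => c1_ok u v h))
    (SimpleGraph.Coloring.mk c2 (fun {u v} h => c2_ok u v h))
  · have key : ∀ c : Fin 8 → Fin 5, Relation.ReflTransGen
          (fun c c' : Fin 8 → Fin 5 => ∃ (a b : Fin 5) (x : Fin 8), ∀ v : Fin 8,
            ((SimpleGraph.fromRel (fun y z => G.Adj y z ∧ (c y = a ∨ c y = b) ∧
                (c z = a ∨ c z = b))).Reachable x v → c' v = Equiv.swap a b (c v)) ∧
            (¬ (SimpleGraph.fromRel (fun y z => G.Adj y z ∧ (c y = a ∨ c y = b) ∧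
                (c z = a ∨ c z = b))).Reachable x v → c' v = c v)) c1 c →
        ∃ τ : Equiv.Perm (Fin 5), ∀ v, c v = τ (c1 v) := by
      intro c hc
      induction hc with
      | refl => exact ⟨Equiv.refl _, fun v => rfl⟩
      | tail _ hstep ih =>
        obtain ⟨σ, hσ⟩ := ih
        obtain ⟨a, b, x, hx⟩ := hstep
        exact step _ _ σ hσ a b x hx
    obtain ⟨τ, hτ⟩ := key c2 hmain
    have h0 := hτ 0
    have h1 := hτ 1
    have e : c1 0 = c1 1 := by decide
    have e' : c2 0 ≠ c2 1 := by decide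
    exact e' (by rw [h0, h1, e])
  · refine ⟨fun u => pt (ax u) (ay u), seg, ?_, ?_, ?_, ?_⟩
    · intro u v huv
      obtain ⟨⟨k, hk⟩, ⟨l, hl⟩⟩ := (pt_eq _ _ _ _).1 huv
      have hk' : ax u = ax v + 4 * k := by exact_mod_cast hk
      have hl' : ay u = ay v + 4 * l := by exact_mod_cast hl
      have b1 := bnd u v
      have b2 := bnd v u
      exact chkP u v (by omega) (by omega)
    · intro u v huv
      refine ⟨?_, ?_, ?_⟩
      · show pt _ _ = pt _ _
        simp
      · show pt _ _ = pt _ _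
        obtain ⟨e1, e2⟩ := chkEnd u v huv
        rw [pt_eq]
        refine ⟨⟨(ax u + dx u v - ax v) / 4, ?_⟩, ⟨(ay u + dy u v - ay v) / 4, ?_⟩⟩
        · have : ax u + dx u v = ax v + 4 * ((ax u + dx u v - ax v) / 4) := by omega
          simp only [Set.Icc.coe_one, one_mul]
          exact_mod_cast this
        · have : ay u + dy u v = ay v + 4 * ((ay u + dy u v - ay v) / 4) := by omega
          simp only [Set.Icc.coe_one, one_mul]
          exact_mod_cast this
      · intro s t hst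
        obtain ⟨⟨k, hk⟩, ⟨l, hl⟩⟩ := (pt_eq _ _ _ _).1 hst
        obtain ⟨-, -, -, -, b5, b6, b7, b8⟩ := bnd u v
        have g5 : (-2:ℝ) ≤ dx u v := by exact_mod_cast b5
        have g6 : (dx u v : ℝ) ≤ 2 := by exact_mod_cast b6
        have g7 : (-2:ℝ) ≤ dy u v := by exact_mod_cast b7
        have g8 : (dy u v : ℝ) ≤ 2 := by exact_mod_cast b8
        have s0 := s.2.1
        have s1 := s.2.2
        have t0 := t.2.1
        have t1 := t.2.2
        have k1 : (k:ℝ) < 1 := by nlinarith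
        have k2 : (-1:ℝ) < k := by nlinarith
        have l1 : (l:ℝ) < 1 := by nlinarith
        have l2 : (-1:ℝ) < l := by nlinarith
        have k1' : k < 1 := by exact_mod_cast k1
        have k2' : -1 < k := by exact_mod_cast k2
        have l1' : l < 1 := by exact_mod_cast l1
        have l2' : -1 < l := by exact_mod_cast l2
        have k0 : k = 0 := by omega
        have l0 : l = 0 := by omega
        subst k0 l0
        have hne : dx u v ≠ 0 ∨ dy u v ≠ 0 := by
          have : adj u v = true := huv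
          unfold adj at this
          simpa using this
        apply Subtype.ext
        rcases hne with hne | hne
        · have hne' : (dx u v : ℝ) ≠ 0 := by exact_mod_cast hne
          apply mul_right_cancel₀ hne'
          simp only [Int.cast_zero, mul_zero, add_zero] at hk
          linarith
        · have hne' : (dy u v : ℝ) ≠ 0 := by exact_mod_cast hne
          apply mul_right_cancel₀ hne'
          simp only [Int.cast_zero, mul_zero, add_zero] at hl
          linarith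
    · intro u v w t huv t0 t1 he
      obtain ⟨⟨k, hk⟩, ⟨l, hl⟩⟩ := (pt_eq _ _ _ _).1 he
      obtain ⟨b1, b2, b3, b4, b5, b6, b7, b8⟩ := bnd u v
      obtain ⟨d1, d2, d3, d4, -⟩ := bnd w w
      obtain ⟨j, rfl⟩ := kb (ax u) (ax w) (dx u v) 0 k t t t0.le t1.le t0.le t1.le b1 b2 d1 d2 b5 b6
        (by norm_num) (by norm_num) (by rw [hk]; simp)
      obtain ⟨i, rfl⟩ := kb (ay u) (ay w) (dy u v) 0 l t t t0.le t1.le t0.le t1.le b3 b4 d3 d4 b7 b8
        (by norm_num) (by norm_num) (by rw [hl]; simp)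
      refine disj_spec _ _ _ _ _ _ (chkV u v w huv j i) t t t0 t1 t0 t1 ?_ ?_
      · push_cast at hk ⊢; linarith
      · push_cast at hl ⊢; linarith
    · intro u v u' v' s t huv huv' hne s0 s1 t0 t1 he
      obtain ⟨⟨k, hk⟩, ⟨l, hl⟩⟩ := (pt_eq _ _ _ _).1 he
      obtain ⟨b1, b2, b3, b4, b5, b6, b7, b8⟩ := bnd u v
      obtain ⟨d1, d2, d3, d4, d5, d6, d7, d8⟩ := bnd u' v'
      obtain ⟨j, rfl⟩ := kb (ax u) (ax u') (dx u v) (dx u' v') k s t s0.le s1.le t0.le t1.le
        b1 b2 d1 d2 b5 b6 d5 d6 hk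
      obtain ⟨i, rfl⟩ := kb (ay u) (ay u') (dy u v) (dy u' v') l s t s0.le s1.le t0.le t1.le
        b3 b4 d3 d4 b7 b8 d7 d8 hl
      refine disj_spec _ _ _ _ _ _ (chkE u v u' v' huv huv' hne j i) s t s0 s1 t0 t1 ?_ ?_
      · push_cast at hk ⊢; linarith
      · push_cast at hl ⊢; linarith

end Pool.Agent.S10390
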