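import Pool.Statements.S10540
import Pool.Agent.H5.Folner

set_option autoImplicit false
open Pool Pool.MP_a39d1e_co

namespace Pool.Agent.S10540

open Pool.Agent.H5.Folner

abbrev V := ℂ × ℂ

/-- squared Euclidean norm on `ℂ × ℂ` -/
def nq (v : V) : ℝ := v.1.re ^ 2 + v.1.im ^ 2 + v.2.re ^ 2 + v.2.im ^ 2

lemma nq_nonneg (v : V) : 0 ≤ nq v := by unfold nq; positivity

lemma lift (z : V) (D : ℝ) (h : nq z ≤ D) :
    ∃ c : V, ∀ ω : ℂ, ω.re ^ 2 + ω.im ^ 2 = 1 → nq (c + ω • z) = D := by
  by_cases hz : nq z = 0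
  · have hD : 0 ≤ D := hz ▸ h
    refine ⟨((Real.sqrt D : ℂ), 0), fun ω hω => ?_⟩
    have h1 : z.1.re = 0 := by unfold nq at hz; nlinarith [sq_nonneg z.1.re, sq_nonneg z.1.im, sq_nonneg z.2.re, sq_nonneg z.2.im]
    have h2 : z.1.im = 0 := by unfold nq at hz; nlinarith [sq_nonneg z.1.re, sq_nonneg z.1.im, sq_nonneg z.2.re, sq_nonneg z.2.im]
    have h3 : z.2.re = 0 := by unfold nq at hz; nlinarith [sq_nonneg z.1.re, sq_nonneg z.1.im, sq_nonneg z.2.re, sq_nonneg z.2.im]
    have h4 : z.2.im = 0 := by unfold nq at hz; nlinarith [sq_nonneg z.1.re, sq_nonneg z.1.im, sq_nonneg z.2.re, sq_nonneg z.2.im]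
    simp [nq, h1, h2, h3, h4, Real.sq_sqrt hD]
  · have hpos : 0 < nq z := lt_of_le_of_ne (nq_nonneg z) (Ne.symm hz)
    obtain ⟨r, hr⟩ : ∃ r : ℝ, r ^ 2 * nq z = D - nq z :=
      ⟨Real.sqrt ((D - nq z) / nq z), by
        rw [Real.sq_sqrt (div_nonneg (by linarith) hpos.le), div_mul_cancel₀ _ hz]⟩
    refine ⟨(⟨-r * z.2.re, r * z.2.im⟩, ⟨r * z.1.re, -r * z.1.im⟩), fun ω hω => ?_⟩
    unfold nq at hr ⊢
    simp only [Prod.fst_add, Prod.snd_add, Prod.smul_fst, Prod.smul_snd, smul_eq_mul,
      Complex.add_re, Complex.add_im, Complex.mul_re, Complex.mul_im]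
    linear_combination hr + (z.1.re ^ 2 + z.1.im ^ 2 + z.2.re ^ 2 + z.2.im ^ 2) * hω

noncomputable def om (k : ℕ) : ℂ := ⟨1 / ((k : ℝ) + 1), Real.sqrt (1 - (1 / ((k : ℝ) + 1)) ^ 2)⟩

lemma om_unit (k : ℕ) : (om k).re ^ 2 + (om k).im ^ 2 = 1 := by
  have h0 : (0 : ℝ) < (k : ℝ) + 1 := by positivity
  have h1 : 1 / ((k : ℝ) + 1) ≤ 1 := by
    rw [div_le_one h0]
    linarith [Nat.cast_nonneg (α := ℝ) k]
  have h2 : 0 ≤ 1 / ((k : ℝ) + 1) := by positivity
  simp only [om]
  rw [Real.sq_sqrt (by nlinarith)]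
  ring

lemma om_inj {k l : ℕ} (h : om k = om l) : k = l := by
  have h1 := congrArg Complex.re h
  simp only [om] at h1
  have h0 : (0 : ℝ) < (k : ℝ) + 1 := by positivity
  have h0' : (0 : ℝ) < (l : ℝ) + 1 := by positivity
  rw [div_eq_div_iff h0.ne' h0'.ne'] at h1
  have : (k : ℝ) = l := by linarith
  exact_mod_cast this

open Classical in
noncomputable def ind (B : Set V) (x : V) : ℝ := if x ∈ B then 1 else 0

lemma ind_nonneg (B : Set V) (x : V) : 0 ≤ ind B x := by
  unfold ind; split_ifs <;> norm_num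

lemma ind_le (B : Set V) (x : V) : ind B x ≤ 1 := by
  unfold ind; split_ifs <;> norm_num

lemma ind_abs (B : Set V) (x : V) : |ind B x| ≤ 1 := by
  rw [abs_of_nonneg (ind_nonneg B x)]; exact ind_le B x

def Good (j : ℕ) : Prop :=
  ∃ η : ℝ, 0 < η ∧ η ≤ 1 ∧ ∃ d : Fin j → ℝ, (∀ i, 0 < d i) ∧
    ∃ (ι : Type) (_ : Fintype ι) (_ : Nonempty ι) (w : ι → V),
      ∀ (A : Fin j → Set V) (B : Set V),
        (∀ i x y, x ∈ A i → y ∈ A i → nq (x - y) ≠ (d i) ^ 2) →
        (∀ x, x ∈ B ∨ ∃ i, x ∈ A i) → η ≤ av (fun i => ind B (w i))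

lemma good_zero : Good 0 := by
  refine ⟨1, one_pos, le_rfl, Fin.elim0, fun i => i.elim0, Unit, inferInstance, inferInstance,
    fun _ => 0, fun A B _ hB => ?_⟩
  apply le_av
  intro i
  rcases hB 0 with h | ⟨i, _⟩
  · simp [ind, h]
  · exact i.elim0

/-- second-moment bound -/
lemma second_moment {ι ζ lam : Type} [Fintype ι] [Nonempty ι] [Fintype ζ] [Nonempty ζ]
    [Fintype lam] [Nonempty lam] (K : ℕ) [Nonempty (Fin K)] (w : ι → V) (z c : ζ → V) (y : lam → V)
    (κ : ℝ) (α : V → ℝ) (h0 : ∀ x, 0 ≤ α x) (h1 : ∀ x, α x ≤ 1)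
    (hz : ∀ (i : ι) (k l : Fin K), k ≠ l → ∀ f : V → ℝ, (∀ x, |f x| ≤ 1) →
      |av (fun j => f (z j + (om l - om k)⁻¹ • w i)) - av (fun j => f (z j))| ≤ κ)
    (hy : ∀ (j : ζ) (k : Fin K), ∀ f : V → ℝ, (∀ x, |f x| ≤ 1) →
      |av (fun t => f (y t + (c j + om k • z j))) - av (fun t => f (y t))| ≤ κ) :
    av (fun j => av (fun t => (av (fun k : Fin K =>
      av (fun i => α (y t + (c j + om k • z j) + w i)) - α (y t + (c j + om k • z j)))) ^ 2))
      ≤ 1 / K + 2 * κ := by
  classical
  set g : V → ℝ := fun x => av (fun i => α (x + w i)) - α x with hg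
  have hα : ∀ x, |α x| ≤ 1 := fun x => by rw [abs_of_nonneg (h0 x)]; exact h1 x
  have hκ : 0 ≤ κ := by
    have := hy (Classical.arbitrary _) (Classical.arbitrary _) α hα
    exact le_trans (abs_nonneg _) this
  have hg1 : ∀ x, |g x| ≤ 1 := by
    intro x
    have a1 : 0 ≤ av (fun i => α (x + w i)) := le_av (fun i => h0 _)
    have a2 : av (fun i => α (x + w i)) ≤ 1 := av_le (fun i => h1 _)
    rw [abs_le]
    constructor <;> simp only [hg] <;> linarith [h0 x, h1 x]
  have hgg : ∀ x x', |g x * g x'| ≤ 1 := by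
    intro x x'
    rw [abs_mul]
    exact mul_le_one₀ (hg1 x) (abs_nonneg _) (hg1 x')
  have key : ∀ k l : Fin K, av (fun j => av (fun t =>
      g (y t + (c j + om k • z j)) * g (y t + (c j + om l • z j))))
      ≤ (if k = l then (1 : ℝ) else 0) + 2 * κ := by
    intro k l
    by_cases hkl : k = l
    · rw [if_pos hkl]
      have : av (fun j => av (fun t =>
          g (y t + (c j + om k • z j)) * g (y t + (c j + om l • z j)))) ≤ 1 :=
        av_le (fun j => av_le (fun t => (abs_le.1 (hgg _ _)).2))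
      linarith
    · rw [if_neg hkl]
      have hne : om l - om k ≠ 0 := by
        intro h
        exact hkl (Fin.ext (om_inj (sub_eq_zero.1 h)).symm)
      have s1 : ∀ j, av (fun t => g (y t + (c j + om k • z j)) * g (y t + (c j + om l • z j)))
          ≤ av (fun t => g (y t) * g (y t + (om l - om k) • z j)) + κ := by
        intro j
        have := hy j k (fun x => g x * g (x + (om l - om k) • z j)) (fun x => hgg _ _)
        have e : ∀ t, y t + (c j + om k • z j) + (om l - om k) • z j
            = y t + (c j + om l • z j) := by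
          intro t
          rw [sub_smul]
          abel
        simp only [e] at this
        linarith [(abs_le.1 this).2]
      have s2 : ∀ x : V, |av (fun j => g (x + (om l - om k) • z j))| ≤ κ := by
        intro x
        simp only [hg]
        rw [av_sub, av_comm, ← av_const (ι := ι) (av fun j => α (x + (om l - om k) • z j)),
          ← av_sub]
        apply av_abs_le
        intro i
        have := hz i k l hkl (fun u => α (x + (om l - om k) • u)) (fun u => hα _)
        have e : ∀ j, x + (om l - om k) • (z j + (om l - om k)⁻¹ • w i)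
            = x + (om l - om k) • z j + w i := by
          intro j
          rw [smul_add, smul_smul, mul_inv_cancel₀ hne, one_smul, add_assoc]
        simpa only [e] using this
      have s3 : av (fun j => av (fun t => g (y t) * g (y t + (om l - om k) • z j))) ≤ κ := by
        rw [av_comm]
        apply av_le
        intro t
        rw [av_mul]
        have := s2 (y t)
        calc g (y t) * av (fun j => g (y t + (om l - om k) • z j))
            ≤ |g (y t) * av (fun j => g (y t + (om l - om k) • z j))| := le_abs_self _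
          _ = |g (y t)| * |av (fun j => g (y t + (om l - om k) • z j))| := abs_mul _ _
          _ ≤ 1 * κ := mul_le_mul (hg1 _) this (abs_nonneg _) zero_le_one
          _ = κ := one_mul _
      have s4 := av_mono s1
      rw [av_add, av_const] at s4
      linarith
  have e1 : av (fun j => av (fun t => (av (fun k : Fin K => g (y t + (c j + om k • z j)))) ^ 2))
      = av (fun k : Fin K => av (fun l : Fin K => av (fun j => av (fun t =>
        g (y t + (c j + om k • z j)) * g (y t + (c j + om l • z j)))))) := by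
    simp only [av_sq]
    calc _ = av (fun j => av (fun k : Fin K => av (fun l : Fin K => av (fun t =>
            g (y t + (c j + om k • z j)) * g (y t + (c j + om l • z j)))))) := by
          congr 1
          funext j
          rw [av_comm]
          congr 1
          funext k
          rw [av_comm]
      _ = _ := by
          rw [av_comm]
          congr 1
          funext k
          rw [av_comm]
  change av (fun j => av (fun t => (av (fun k : Fin K => g (y t + (c j + om k • z j)))) ^ 2)) ≤ _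
  rw [e1]
  apply av_le
  intro k
  have := av_mono (key k)
  rw [av_diag, Fintype.card_fin] at this
  exact this

lemma good_succ (j : ℕ) (h : Good j) : Good (j + 1) := by
  classical
  obtain ⟨η, hη0, hη1, d, hd, ι, _, _, w, hw⟩ := h
  set τ : ℝ := η ^ 2 / 8 with hτ
  have hτ0 : 0 < τ := by positivity
  set κ : ℝ := τ ^ 2 / 4 with hκ
  have hκ0 : 0 < κ := by positivity
  obtain ⟨K, hK⟩ := exists_nat_gt (2 / τ ^ 2)
  have hK0 : (0 : ℝ) < K := lt_trans (by positivity) hK
  have hK1 : 0 < K := by exact_mod_cast hK0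
  have : Nonempty (Fin K) := ⟨⟨0, hK1⟩⟩
  have hK2 : 1 / (K : ℝ) ≤ τ ^ 2 / 2 := by
    rw [div_lt_iff₀ (by positivity)] at hK
    rw [div_le_iff₀ hK0]
    linarith
  obtain ⟨ζ, _, _, z, hz⟩ := folner
    (Finset.univ.image (fun p : ι × Fin K × Fin K => (om p.2.2 - om p.2.1)⁻¹ • w p.1)) κ hκ0
  set D : ℝ := 1 + ∑ j, nq (z j) with hD
  have hDz : ∀ j, nq (z j) ≤ D := by
    intro j
    have := Finset.single_le_sum (f := fun j => nq (z j)) (fun j _ => nq_nonneg _)
      (Finset.mem_univ j)
    linarith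
  have hD0 : 0 < D := by
    have := Finset.sum_nonneg (s := Finset.univ) (f := fun j => nq (z j)) (fun j _ => nq_nonneg _)
    linarith
  choose c hc using fun j => lift (z j) D (hDz j)
  obtain ⟨lam, _, _, y, hy⟩ := folner
    ((Finset.univ.image (fun p : ζ × Fin K => c p.1 + om p.2 • z p.1)) ∪
      (Finset.univ.image (fun p : ζ × Fin K × ι => c p.1 + om p.2.1 • z p.1 + w p.2.2)) ∪
      (Finset.univ.image w)) κ hκ0
  refine ⟨η ^ 2 / 4, by positivity, by nlinarith, Fin.cons (Real.sqrt D) d, ?_, lam,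
    inferInstance, inferInstance, y, ?_⟩
  · intro i
    refine Fin.cases ?_ (fun i => ?_) i
    · simpa using hD0
    · simpa using hd i
  intro A B hA hB
  set α : V → ℝ := ind (A 0) with hα
  set β : V → ℝ := ind B with hβ
  have hab : ∀ t : V, η ≤ av (fun i => α (t + w i)) + av (fun i => β (t + w i)) := by
    intro t
    have h1 := hw (fun i => {x | t + x ∈ A i.succ}) {x | t + x ∈ A 0 ∪ B} (by
      intro i x x' hx hx'
      have := hA i.succ _ _ hx hx'
      simpa using this) (by
      intro x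
      rcases hB (t + x) with h | ⟨i, h⟩
      · exact Or.inl (Or.inr h)
      · revert h
        refine Fin.cases (fun h => ?_) (fun i h => ?_) i
        · exact Or.inl (Or.inl h)
        · exact Or.inr ⟨i, h⟩)
    rw [← av_add]
    refine h1.trans (av_mono (fun i => ?_))
    simp only [hα, hβ, ind, Set.mem_setOf_eq, Set.mem_union]
    by_cases a1 : t + w i ∈ A 0 <;> by_cases a2 : t + w i ∈ B <;> simp [a1, a2]
  have havoid : ∀ (t : V) (j : ζ) (k : Fin K), α t * α (t + (c j + om k • z j)) = 0 := by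
    intro t j k
    simp only [hα, ind]
    by_cases a1 : t ∈ A 0
    · by_cases a2 : t + (c j + om k • z j) ∈ A 0
      · exfalso
        apply hA 0 _ _ a2 a1
        rw [add_sub_cancel_left, hc j _ (om_unit k)]
        simp [Real.sq_sqrt hD0.le]
      · simp [a2]
    · simp [a1]
  set δ : ℝ := av (fun t => α (y t)) with hδ
  set Bm : ℝ := av (fun t => β (y t)) with hBm
  have hBm0 : 0 ≤ Bm := le_av (fun t => ind_nonneg _ _)
  have est1 : η ≤ δ + Bm + 2 * κ := by
    have a1 : av (fun t => av (fun i => α (y t + w i))) ≤ δ + κ := by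
      rw [av_comm]
      apply av_le
      intro i
      have := hy (w i) (by simp) α (ind_abs _)
      linarith [(abs_le.1 this).2]
    have a2 : av (fun t => av (fun i => β (y t + w i))) ≤ Bm + κ := by
      rw [av_comm]
      apply av_le
      intro i
      have := hy (w i) (by simp) β (ind_abs _)
      linarith [(abs_le.1 this).2]
    have a3 := le_av (fun t => hab (y t))
    rw [av_add] at a3
    linarith
  have sm := second_moment K w z c y κ α (ind_nonneg _) (ind_le _)
    (fun i k l _ => hz _ (Finset.mem_image.2 ⟨(i, k, l), Finset.mem_univ _, rfl⟩))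
    (fun j k => hy _ (Finset.mem_union_left _ (Finset.mem_union_left _
      (Finset.mem_image.2 ⟨(j, k), Finset.mem_univ _, rfl⟩))))
  set G : ζ → lam → ℝ := fun j t => av (fun k : Fin K =>
      av (fun i => α (y t + (c j + om k • z j) + w i)) - α (y t + (c j + om k • z j))) with hG
  set Hb : ζ → lam → ℝ := fun j t => av (fun k : Fin K =>
      av (fun i => β (y t + (c j + om k • z j) + w i))) with hHb
  have pt : ∀ j t, η * α (y t) ≤ τ / 2 + (1 / (2 * τ)) * G j t ^ 2 + Hb j t := by
    intro j t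
    have b0 : 0 ≤ Hb j t := le_av (fun k => le_av (fun i => ind_nonneg _ _))
    have b1 : G j t ≤ τ / 2 + (1 / (2 * τ)) * G j t ^ 2 := by
      have : τ / 2 + (1 / (2 * τ)) * G j t ^ 2 - G j t = (G j t - τ) ^ 2 / (2 * τ) := by
        field_simp
        ring
      have h2 : 0 ≤ (G j t - τ) ^ 2 / (2 * τ) := by positivity
      linarith
    have b2 : 0 ≤ (1 / (2 * τ)) * G j t ^ 2 := by positivity
    by_cases a1 : y t ∈ A 0
    · have a2 : α (y t) = 1 := by simp [hα, ind, a1]
      have a3 : ∀ k : Fin K, α (y t + (c j + om k • z j)) = 0 := by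
        intro k
        have := havoid (y t) j k
        rwa [a2, one_mul] at this
      have a4 : η ≤ G j t + Hb j t := by
        simp only [hG, hHb, a3, sub_zero]
        rw [← av_add]
        exact le_av (fun k => hab _)
      rw [a2]
      linarith
    · have a2 : α (y t) = 0 := by simp [hα, ind, a1]
      rw [a2]
      linarith
  have hbb : av (fun j => av (fun t => Hb j t)) ≤ Bm + κ := by
    apply av_le
    intro j
    simp only [hHb]
    rw [av_comm]
    apply av_le
    intro k
    rw [av_comm]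
    apply av_le
    intro i
    have := hy (c j + om k • z j + w i) (Finset.mem_union_left _ (Finset.mem_union_right _
      (Finset.mem_image.2 ⟨(j, k, i), Finset.mem_univ _, rfl⟩))) β (ind_abs _)
    simp only [← add_assoc] at this ⊢
    linarith [(abs_le.1 this).2]
  have est2 : η * δ ≤ τ / 2 + (1 / (2 * τ)) * (1 / K + 2 * κ) + (Bm + κ) := by
    have a1 := av_mono (fun j => av_mono (fun t => pt j t))
    simp only [av_add, av_mul, av_const] at a1
    have a2 : (1 / (2 * τ)) * av (fun j => av (fun t => G j t ^ 2))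
        ≤ (1 / (2 * τ)) * (1 / K + 2 * κ) := mul_le_mul_of_nonneg_left sm (by positivity)
    linarith
  have est3 : (1 / (2 * τ)) * (1 / K + 2 * κ) ≤ τ / 2 := by
    have : 1 / (K : ℝ) + 2 * κ ≤ τ ^ 2 := by rw [hκ]; linarith
    calc (1 / (2 * τ)) * (1 / K + 2 * κ) ≤ (1 / (2 * τ)) * τ ^ 2 :=
          mul_le_mul_of_nonneg_left this (by positivity)
      _ = τ / 2 := by field_simp
  have hκη : κ ≤ η ^ 2 / 256 := by
    rw [hκ, hτ]
    have : η ^ 2 ≤ 1 := by nlinarith
    nlinarith [sq_nonneg η]
  have e1 : η * η ≤ η * (δ + Bm + 2 * κ) := mul_le_mul_of_nonneg_left est1 hη0.le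
  have e2 : η * Bm ≤ Bm := by nlinarith
  have e3 : η * κ ≤ κ := by nlinarith
  nlinarith

lemma good_all (j : ℕ) : Good j := by
  induction j with
  | zero => exact good_zero
  | succ j ih => exact good_succ j ih

noncomputable def toE (v : V) : EuclideanSpace ℝ (Fin 4) := !₂[v.1.re, v.1.im, v.2.re, v.2.im]

lemma dist_toE (x y : V) : dist (toE x) (toE y) = Real.sqrt (nq (x - y)) := by
  rw [EuclideanSpace.dist_eq]
  congr 1
  simp [toE, nq, Fin.sum_univ_four, Real.dist_eq, sq_abs]

/-- The upper chromatic number of four-dimensional space is infinite. -/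
theorem result :
    ¬ (∀ k n : ℕ, 1 ≤ k → 2 ≤ n →
      ∃ m : ℕ, 1 ≤ m ∧
        ∀ D : Fin k → Fin m → ℝ, (∀ i j, 0 < D i j) →
          ∃ T : EuclideanSpace ℝ (Fin n) → Fin m,
            ∀ (i : Fin k) (j : Fin m) (x y : EuclideanSpace ℝ (Fin n)),
              dist x y = D i j → ¬ (T x = j ∧ T y = j)) := by
  intro H
  obtain ⟨m, -, hm⟩ := H 1 4 le_rfl (by norm_num)
  obtain ⟨η, hη0, -, d, hd, ι, _, _, w, hw⟩ := good_all m
  obtain ⟨T, hT⟩ := hm (fun _ j => d j) (fun _ j => hd j)
  have := hw (fun i => {x | T (toE x) = i}) ∅ (by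
    intro i x y hx hy h
    apply hT 0 i (toE x) (toE y) _ ⟨hx, hy⟩
    rw [dist_toE, h, Real.sqrt_sq (hd i).le]) (fun x => Or.inr ⟨T (toE x), rfl⟩)
  have h2 : av (fun i => ind ∅ (w i)) ≤ 0 := av_le (fun i => by simp [ind])
  linarith

end Pool.Agent.S10540
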