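import Pool.Statements.S10543

set_option autoImplicit false
open Pool Pool.MP_a3e24b_co

namespace Pool.Agent.S10543

open Finset

theorem cover {Ω X : Type} [Fintype Ω] [Fintype X] [DecidableEq Ω] [Nonempty Ω]
    (good : X → Finset Ω) (δ : ℝ) (hδ : ∀ x, δ * Fintype.card Ω ≤ (good x).card) (r : ℕ)
    (hr : Fintype.card X * Real.exp (-(δ * r)) < 1) : ∃ f : Fin r → Ω, ∀ x, ∃ l, f l ∈ good x := by
  classical
  by_contra hc
  push Not at hc
  have hsub : (univ : Finset (Fin r → Ω)) ⊆ (univ : Finset X).biUnion fun x =>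
      Fintype.piFinset fun _ : Fin r => (good x)ᶜ := by
    intro f _
    obtain ⟨x, hx⟩ := hc f
    simp only [mem_biUnion, mem_univ, true_and, Fintype.mem_piFinset, mem_compl]
    exact ⟨x, hx⟩
  have h1 := (card_le_card hsub).trans card_biUnion_le
  have hΩ : (0 : ℝ) < Fintype.card Ω := by exact_mod_cast Fintype.card_pos
  have h2 : ∀ x, ((Fintype.piFinset fun _ : Fin r => (good x)ᶜ).card : ℝ) ≤
      Real.exp (-(δ * r)) * (Fintype.card Ω : ℝ) ^ r := by
    intro x
    rw [Fintype.card_piFinset, prod_const, card_univ, Fintype.card_fin]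
    push_cast
    have e : Real.exp (-(δ * r)) = Real.exp (-δ) ^ r := by
      rw [← Real.exp_nat_mul]; congr 1; ring
    rw [e, ← mul_pow]
    apply pow_le_pow_left₀ (by positivity)
    have h3 : (((good x)ᶜ).card : ℝ) = Fintype.card Ω - (good x).card := by
      rw [card_compl, Nat.cast_sub (card_le_univ _)]
    have h4 := Real.add_one_le_exp (-δ)
    have h5 := hδ x
    rw [h3]
    nlinarith
  have h3 : ((Fintype.card Ω : ℝ)) ^ r ≤
      Fintype.card X * (Real.exp (-(δ * r)) * (Fintype.card Ω : ℝ) ^ r) := by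
    have h4 : (((univ : Finset (Fin r → Ω)).card : ℕ) : ℝ) ≤
        ∑ x : X, ((Fintype.piFinset fun _ : Fin r => (good x)ᶜ).card : ℝ) := by exact_mod_cast h1
    rw [card_univ, Fintype.card_fun, Fintype.card_fin] at h4
    push_cast at h4
    refine h4.trans ?_
    have := sum_le_card_nsmul (univ : Finset X) _ _ (fun x _ => h2 x)
    simpa using this
  have h5 : (0 : ℝ) < (Fintype.card Ω : ℝ) ^ r := by positivity
  nlinarith

theorem carve {G : Type} [AddCommGroup G] [Fintype G] [DecidableEq G] (B1 B2 : Finset G)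
    (h12 : B1 ⊆ B2) (hne : B1.Nonempty) (β : ℝ) (hβ : (B2.card : ℝ) ≤ β * B1.card) (r : ℕ)
    (hr : Fintype.card G * Real.exp (-(1 / (4 * β) * r)) < 1) :
    ∃ (N : ℕ) (f : Fin r → Fin N → G), ∀ x : G, ∃ l i, f l i - x ∈ B1 ∧
      ∀ i', i' ≠ i → f l i' - x ∉ B2 := by
  classical
  set N' := Fintype.card G / (2 * B2.card) with hN'
  have hb1 : (0 : ℝ) < B1.card := by exact_mod_cast hne.card_pos
  have hb2n : 0 < B2.card := (hne.mono h12).card_pos
  have hb2 : (0 : ℝ) < B2.card := by exact_mod_cast hb2n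
  have hβ0 : 0 < β := by nlinarith
  have hG : (0 : ℝ) < Fintype.card G := by exact_mod_cast Fintype.card_pos
  suffices key : ∀ x : G, 1 / (4 * β) * Fintype.card (Fin (N' + 1) → G) ≤
      ((univ.filter fun g : Fin (N' + 1) → G =>
        ∃ i, g i - x ∈ B1 ∧ ∀ i', i' ≠ i → g i' - x ∉ B2).card : ℝ) by
    obtain ⟨f, hf⟩ := cover (Ω := Fin (N' + 1) → G) (X := G)
      (fun x => univ.filter fun g => ∃ i, g i - x ∈ B1 ∧ ∀ i', i' ≠ i → g i' - x ∉ B2)
      (1 / (4 * β)) key r hr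
    refine ⟨N' + 1, f, fun x => ?_⟩
    obtain ⟨l, hl⟩ := hf x
    exact ⟨l, (mem_filter.1 hl).2⟩
  intro x
  have hcard : ∀ B : Finset G, (univ.filter fun g => g - x ∈ B).card = B.card := by
    intro B
    refine card_bij (fun g _ => g - x) (fun g hg => (mem_filter.1 hg).2)
      (fun a _ b _ h => by simpa using h) (fun b hb => ⟨b + x, by simpa using hb, by simp⟩)
  let A : Fin (N' + 1) → Finset (Fin (N' + 1) → G) := fun i => Fintype.piFinset fun i' =>
    if i' = i then univ.filter (fun g => g - x ∈ B1) else (univ.filter (fun g => g - x ∈ B2))ᶜ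
  have hA : ∀ i g, g ∈ A i ↔ g i - x ∈ B1 ∧ ∀ i', i' ≠ i → g i' - x ∉ B2 := by
    intro i g
    simp only [A, Fintype.mem_piFinset]
    constructor
    · intro h
      refine ⟨by simpa using h i, fun i' hi' => by simpa [hi'] using h i'⟩
    · rintro ⟨h1, h2⟩ i'
      by_cases hi : i' = i
      · subst hi; simpa using h1
      · simpa [hi] using h2 i' hi
  have hAc : ∀ i, (A i).card = B1.card * (Fintype.card G - B2.card) ^ N' := by
    intro i
    rw [Fintype.card_piFinset, Fin.prod_univ_succAbove _ i]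
    simp only [if_true, Fin.succAbove_ne, if_false, hcard, card_compl, prod_const, card_univ,
      Fintype.card_fin]
  have hU : (univ.filter fun g : Fin (N' + 1) → G =>
      ∃ i, g i - x ∈ B1 ∧ ∀ i', i' ≠ i → g i' - x ∉ B2) = univ.biUnion A := by
    ext g; simp [hA]
  have hdisj : ((univ : Finset (Fin (N' + 1))) : Set (Fin (N' + 1))).PairwiseDisjoint A := by
    intro i _ j _ hij
    rw [Function.onFun, disjoint_left]
    intro g hi hj
    exact ((hA j g).1 hj).2 i hij (h12 ((hA i g).1 hi).1)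
  rw [hU, card_biUnion hdisj]
  simp only [hAc, sum_const, card_univ, Fintype.card_fin, smul_eq_mul, Fintype.card_fun]
  push_cast [Nat.cast_sub (card_le_univ B2)]
  have h1 : (N' : ℝ) * (2 * B2.card) ≤ Fintype.card G := by
    exact_mod_cast Nat.div_mul_le_self _ _
  have h2 : (Fintype.card G : ℝ) ≤ (N' + 1) * (2 * B2.card) := by
    have := Nat.lt_div_mul_add (a := Fintype.card G) (b := 2 * B2.card) (by omega)
    have h3 : Fintype.card G ≤ (N' + 1) * (2 * B2.card) := by rw [hN']; nlinarith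
    exact_mod_cast h3
  have hle : (B2.card : ℝ) ≤ Fintype.card G := by exact_mod_cast card_le_univ B2
  have h3 := one_add_mul_le_pow (a := -(B2.card / Fintype.card G : ℝ)) (by
    have : (B2.card / Fintype.card G : ℝ) ≤ 1 := by rw [div_le_one hG]; exact hle
    linarith) N'
  have h4 : (1 / 2 : ℝ) ≤ 1 + N' * -(B2.card / Fintype.card G : ℝ) := by
    have : (N' : ℝ) * (B2.card / Fintype.card G) ≤ 1 / 2 := by
      rw [← mul_div_assoc, div_le_iff₀ hG]; linarith
    linarith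
  have h5 : (Fintype.card G - B2.card : ℝ) =
      Fintype.card G * (1 + -(B2.card / Fintype.card G : ℝ)) := by field_simp; ring
  rw [h5, mul_pow, pow_succ]
  have h6 : (0 : ℝ) < (Fintype.card G : ℝ) ^ N' := by positivity
  have h7 : 1 / (4 * β) * Fintype.card G ≤ (N' + 1) * B1.card * (1 / 2) := by
    rw [div_mul_eq_mul_div, div_le_iff₀ (by positivity)]
    have : (0 : ℝ) ≤ N' + 1 := by positivity
    nlinarith
  have h8 : (0 : ℝ) ≤ (N' + 1) * B1.card := by positivity
  calc _ = (Fintype.card G : ℝ) ^ N' * (1 / (4 * β) * Fintype.card G) := by ring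
    _ ≤ (Fintype.card G : ℝ) ^ N' * ((N' + 1) * B1.card *
        (1 + -(B2.card / Fintype.card G : ℝ)) ^ N') :=
        mul_le_mul_of_nonneg_left (h7.trans (mul_le_mul_of_nonneg_left (h4.trans h3) h8)) h6.le
    _ = _ := by ring

theorem geom_Icc (x : ℝ) (h0 : 0 ≤ x) (h1 : x ≤ 1) (R : ℕ) :
    (∑ a ∈ Icc (-(R : ℤ)) R, x ^ a.natAbs) * (1 - x) ≤ 2 - 2 * x ^ (R + 1) := by
  induction R with
  | zero => simp; linarith
  | succ R ih =>
    have e : Icc (-((R + 1 : ℕ) : ℤ)) (R + 1 : ℕ) =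
        insert (-((R + 1 : ℕ) : ℤ)) (insert ((R + 1 : ℕ) : ℤ) (Icc (-(R : ℤ)) R)) := by
      ext a; simp only [mem_Icc, mem_insert]; omega
    rw [e, sum_insert (by simp only [mem_Icc, mem_insert]; omega),
      sum_insert (by simp only [mem_Icc]; omega), Int.natAbs_neg, Int.natAbs_natCast]
    have : x ^ (R + 1 + 1) = x ^ (R + 1) * x := pow_succ _ _
    nlinarith

/-- lattice points of the l1 ball -/
noncomputable def ball (n R : ℕ) : Finset (Fin n → ℤ) :=
  (Fintype.piFinset fun _ => Icc (-(R : ℤ)) R).filter fun v => ∑ t, |v t| ≤ R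

theorem mem_ball {n R : ℕ} {v : Fin n → ℤ} : v ∈ ball n R ↔ ∑ t, |v t| ≤ R := by
  simp only [ball, mem_filter, Fintype.mem_piFinset, mem_Icc, and_iff_right_iff_imp]
  intro h t
  exact abs_le.1 ((single_le_sum (f := fun t => |v t|) (fun _ _ => abs_nonneg _) (mem_univ t)).trans h)

theorem card_ball (n J : ℕ) (hJ : 1 ≤ J) : ((ball n (J * (2 * n))).card : ℝ) ≤ (16 * J) ^ n := by
  have hJ' : (1 : ℝ) ≤ J := by exact_mod_cast hJ
  set x : ℝ := 1 - 1 / (2 * J) with hx
  have hq : (1 : ℝ) / (2 * J) ≤ 1 / 2 := by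
    apply one_div_le_one_div_of_le <;> linarith
  have hq0 : (0 : ℝ) < 1 / (2 * J) := by positivity
  have h0 : 0 ≤ x := by linarith
  have h1 : x ≤ 1 := by linarith
  set R := J * (2 * n) with hR
  have h2 : (∑ a ∈ Icc (-(R : ℤ)) R, x ^ a.natAbs) ≤ 4 * J := by
    have h := geom_Icc x h0 h1 R
    have h' : 0 ≤ x ^ (R + 1) := by positivity
    have e : 1 - x = 1 / (2 * J) := by rw [hx]; ring
    rw [e, mul_one_div, div_le_iff₀ (by positivity)] at h
    nlinarith
  have h3 : (1 / 2 : ℝ) ≤ x ^ J := by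
    have := one_add_mul_le_pow (a := -(1 / (2 * J) : ℝ)) (by linarith) J
    have e : (1 : ℝ) + J * -(1 / (2 * J)) = 1 / 2 := by field_simp; ring
    rw [e] at this
    simpa [hx, sub_eq_add_neg] using this
  have h4 : (1 / 4 : ℝ) ^ n ≤ x ^ R := by
    rw [hR, pow_mul, pow_mul]
    apply pow_le_pow_left₀ (by norm_num)
    nlinarith
  have h5 : ((ball n R).card : ℝ) * x ^ R ≤ (4 * J) ^ n := by
    calc _ = ∑ v ∈ ball n R, x ^ R := by simp
      _ ≤ ∑ v ∈ ball n R, ∏ t, x ^ (v t).natAbs := by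
          refine sum_le_sum fun v hv => ?_
          rw [prod_pow_eq_pow_sum]
          apply pow_le_pow_of_le_one h0 h1
          have := mem_ball.1 hv
          zify
          exact this
      _ ≤ ∑ v ∈ Fintype.piFinset fun _ : Fin n => Icc (-(R : ℤ)) R, ∏ t, x ^ (v t).natAbs :=
          sum_le_sum_of_subset_of_nonneg (filter_subset _ _) fun v _ _ => by positivity
      _ = (∑ a ∈ Icc (-(R : ℤ)) R, x ^ a.natAbs) ^ n := by
          rw [← prod_univ_sum (fun _ : Fin n => Icc (-(R : ℤ)) R) (fun _ a => x ^ a.natAbs)]; simp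
      _ ≤ _ := pow_le_pow_left₀ (by positivity) h2 _
  have h6 : ((ball n R).card : ℝ) * (1 / 4) ^ n ≤ (4 * J) ^ n :=
    (mul_le_mul_of_nonneg_left h4 (by positivity)).trans h5
  calc ((ball n R).card : ℝ) = ((ball n R).card : ℝ) * (1 / 4) ^ n * 4 ^ n := by
        rw [mul_assoc, ← mul_pow]; simp
    _ ≤ (4 * J) ^ n * 4 ^ n := mul_le_mul_of_nonneg_right h6 (by positivity)
    _ = _ := by rw [← mul_pow]; ring

theorem pigeon (b : ℕ → ℝ) (β : ℝ) (hβ : 0 < β) (J : ℕ) (hJ : 1 ≤ J) (h0 : 1 ≤ b 0)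
    (h1 : b J ≤ β ^ J) : ∃ j < J, b (j + 1) ≤ β * b j := by
  by_contra hc
  push Not at hc
  have key : ∀ j, j + 1 ≤ J → β ^ (j + 1) < b (j + 1) := by
    intro j
    induction j with
    | zero => intro h; have := hc 0 (by omega); simp; nlinarith
    | succ j ih =>
      intro h
      have h2 := ih (by omega)
      have h3 := hc (j + 1) (by omega)
      rw [pow_succ]
      nlinarith
  obtain ⟨j, rfl⟩ := Nat.exists_eq_add_of_le' hJ
  exact absurd (key j le_rfl) (not_lt.2 h1)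

/-- reduction modulo T -/
def proj (n T : ℕ) (v : Fin n → ℤ) : Fin n → ZMod T := fun t => (v t : ZMod T)

theorem proj_add (n T : ℕ) (v w : Fin n → ℤ) : proj n T (v + w) = proj n T v + proj n T w := by
  ext t; simp [proj]

theorem proj_sub (n T : ℕ) (v w : Fin n → ℤ) : proj n T (v - w) = proj n T v - proj n T w := by
  ext t; simp [proj]

theorem floor_est {n : ℕ} (y z : Fin n → ℝ) (d : ℕ) (h : ∑ t, |y t - z t| = d) :
    ∑ t, |⌊n * y t⌋ - ⌊n * z t⌋| ≤ (d * n + n : ℤ) ∧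
      (d * n - n : ℤ) ≤ ∑ t, |⌊n * y t⌋ - ⌊n * z t⌋| := by
  have key : ∀ t, |((⌊n * y t⌋ - ⌊n * z t⌋ : ℤ) : ℝ)| ≤ n * |y t - z t| + 1 ∧
      n * |y t - z t| - 1 ≤ |((⌊n * y t⌋ - ⌊n * z t⌋ : ℤ) : ℝ)| := by
    intro t
    have e : (n : ℝ) * |y t - z t| = |n * y t - n * z t| := by
      rw [← mul_sub, abs_mul, abs_of_nonneg (by positivity : (0 : ℝ) ≤ n)]
    rw [e]
    have a1 := Int.floor_le (n * y t)
    have a2 := Int.lt_floor_add_one (n * y t)
    have a3 := Int.floor_le (n * z t)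
    have a4 := Int.lt_floor_add_one (n * z t)
    push_cast
    constructor
    · rw [abs_le]; constructor <;> cases abs_cases (n * y t - n * z t) <;> linarith
    · cases abs_cases (n * y t - n * z t) <;>
        cases abs_cases ((⌊n * y t⌋ : ℝ) - ⌊n * z t⌋) <;> linarith
  have s1 := sum_le_sum (s := univ) fun t _ => (key t).1
  have s2 := sum_le_sum (s := univ) fun t _ => (key t).2
  rw [sum_add_distrib, ← mul_sum, h] at s1
  rw [sum_sub_distrib, ← mul_sum, h] at s2
  simp only [sum_const, card_univ, Fintype.card_fin, nsmul_eq_mul, mul_one] at s1 s2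
  constructor
  · have : ((∑ t, |⌊n * y t⌋ - ⌊n * z t⌋| : ℤ) : ℝ) ≤ ((d * n + n : ℤ) : ℝ) := by
      push_cast at *; linarith
    exact_mod_cast this
  · have : ((d * n - n : ℤ) : ℝ) ≤ ((∑ t, |⌊n * y t⌋ - ⌊n * z t⌋| : ℤ) : ℝ) := by
      push_cast at *; linarith
    exact_mod_cast this

theorem main (n J : ℕ) (hn : 1 ≤ n) (hJ : 1 ≤ J) (γ : ℝ) (hγ : 0 < γ) (hγJ : 16 * (J : ℝ) ≤ γ ^ J)
    (r : ℕ) (hr : 4 * γ ^ n * (n * (((8 * J + 4) * n : ℕ) : ℝ) + 1) ≤ r) :
    ∃ c : (Fin n → ℝ) → Fin r, ∀ f : Fin (4 * J + 2 + 1) → (Fin n → ℝ),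
      (∀ i j : Fin (4 * J + 2 + 1),
        ∑ t : Fin n, |f i t - f j t| = |((i : ℕ) : ℝ) - ((j : ℕ) : ℝ)|) →
      ∃ i j : Fin (4 * J + 2 + 1), c (f i) ≠ c (f j) := by
  classical
  set T := (8 * J + 4) * n with hT
  have hTpos : 0 < T := by positivity
  have : NeZero T := ⟨hTpos.ne'⟩
  let B : ℕ → Finset (Fin n → ZMod T) := fun R => (ball n R).image (proj n T)
  have hB : ∀ R g, g ∈ B R ↔ ∃ v : Fin n → ℤ, ∑ t, |v t| ≤ R ∧ proj n T v = g := by
    intro R g; simp [B, mem_ball]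
  have hB0 : ∀ R, (B R).Nonempty := fun R => ⟨_, (hB R _).2 ⟨0, by simp, rfl⟩⟩
  obtain ⟨j, hj, hbj⟩ := pigeon (fun j => ((B (j * (2 * n))).card : ℝ)) (γ ^ n) (by positivity) J hJ
    (by exact_mod_cast (hB0 _).card_pos) (by
      calc _ ≤ ((ball n (J * (2 * n))).card : ℝ) := by exact_mod_cast card_image_le
        _ ≤ _ := card_ball n J hJ
        _ ≤ (γ ^ J) ^ n := pow_le_pow_left₀ (by positivity) hγJ _
        _ = _ := by rw [← pow_mul, ← pow_mul, mul_comm])
  obtain ⟨N, F, hF⟩ := carve (B (j * (2 * n))) (B ((j + 1) * (2 * n))) (by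
      intro g hg
      obtain ⟨v, hv, rfl⟩ := (hB _ _).1 hg
      exact (hB _ _).2 ⟨v, hv.trans (by push_cast; nlinarith), rfl⟩) (hB0 _) (γ ^ n) hbj r (by
      rw [Fintype.card_fun, ZMod.card, Fintype.card_fin]
      have h1 : (n * (T : ℝ) + 1) ≤ 1 / (4 * γ ^ n) * r := by
        rw [div_mul_eq_mul_div, le_div_iff₀ (by positivity)]; linarith
      have h2 : (T : ℝ) ^ n ≤ Real.exp (n * T) := by
        rw [Real.exp_nat_mul]
        apply pow_le_pow_left₀ (by positivity)
        linarith [Real.add_one_le_exp (T : ℝ)]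
      push_cast
      calc _ ≤ Real.exp (n * T) * Real.exp (-(1 / (4 * γ ^ n) * r)) :=
            mul_le_mul_of_nonneg_right h2 (Real.exp_pos _).le
        _ < 1 := by rw [← Real.exp_add, Real.exp_lt_one_iff]; linarith)
  choose l i hl1 hl2 using hF
  let z : (Fin n → ℝ) → Fin n → ℤ := fun y t => ⌊n * y t⌋
  refine ⟨fun y => l (proj n T (z y)), fun f hf => ?_⟩
  by_contra hc
  push Not at hc
  have hstep : ∀ a : Fin (4 * J + 2), i (proj n T (z (f a.succ))) = i (proj n T (z (f a.castSucc))) := by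
    intro a
    by_contra hne
    apply hl2 _ _ hne
    obtain ⟨v, hv, hv'⟩ := (hB _ _).1 (hl1 (proj n T (z (f a.succ))))
    have h1 := (floor_est (f a.succ) (f a.castSucc) 1 (by rw [hf]; simp)).1
    refine (hB _ _).2 ⟨v + (z (f a.succ) - z (f a.castSucc)), ?_, ?_⟩
    · calc _ ≤ ∑ t, (|v t| + |⌊n * f a.succ t⌋ - ⌊n * f a.castSucc t⌋|) :=
            sum_le_sum fun t _ => abs_add_le _ _
        _ ≤ _ := by rw [sum_add_distrib]; push_cast at *; linarith
    · rw [proj_add, proj_sub, hv', hc a.succ a.castSucc]; abel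
  have hall : ∀ a : Fin (4 * J + 2 + 1), i (proj n T (z (f a))) = i (proj n T (z (f 0))) := by
    intro a
    induction a using Fin.induction with
    | zero => rfl
    | succ a ih => rw [hstep, ih]
  obtain ⟨v, hv, hv'⟩ := (hB _ _).1 (hl1 (proj n T (z (f 0))))
  obtain ⟨w, hw, hw'⟩ := (hB _ _).1 (hl1 (proj n T (z (f (Fin.last _)))))
  rw [hall, hc (Fin.last _) 0] at hw'
  obtain ⟨h1, h2⟩ := floor_est (f (Fin.last _)) (f 0) (4 * J + 2) (by
    rw [hf]; simp only [Fin.val_last, Fin.val_zero, Nat.cast_zero, sub_zero, Nat.abs_cast])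
  have h3 : ∑ t, |v t - w t| ≤ 2 * (j * (2 * n) : ℕ) := by
    calc _ ≤ ∑ t, (|v t| + |w t|) := sum_le_sum fun t _ => abs_sub _ _
      _ ≤ _ := by rw [sum_add_distrib]; linarith
  have h4 : proj n T (v - w) = proj n T (z (f (Fin.last _)) - z (f 0)) := by
    rw [proj_sub, proj_sub, hv', hw']; abel
  have hjJ : (j : ℤ) + 1 ≤ J := by exact_mod_cast hj
  have hn' : (1 : ℤ) ≤ n := by exact_mod_cast hn
  have h5 : ∀ t, v t - w t = ⌊n * f (Fin.last _) t⌋ - ⌊n * f 0 t⌋ := by
    intro t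
    have h6 := congrFun h4 t
    simp only [proj, Pi.sub_apply, z] at h6
    rw [ZMod.intCast_eq_intCast_iff_dvd_sub] at h6
    have h7 := (single_le_sum (f := fun t => |v t - w t|) (fun _ _ => abs_nonneg _)
      (mem_univ t)).trans h3
    have h8 := (single_le_sum (f := fun t => |⌊n * f (Fin.last _) t⌋ - ⌊n * f 0 t⌋|)
      (fun _ _ => abs_nonneg _) (mem_univ t)).trans h1
    have h9 := Int.eq_zero_of_abs_lt_dvd h6 (by
      refine (abs_sub _ _).trans_lt ?_
      rw [hT]; push_cast at *; nlinarith)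
    linarith
  simp only [h5] at h3
  push_cast at *
  nlinarith

/-- For every ε>0 there is k such that, for all η>0 and all large n, R^n can be coloured with at most (1+ε+η)^n colours so that no k+1 points at l1-distances ∣i−j∣ from each other, i.e. a unit baton, are all the same colour. -/
theorem result :
    ∀ ε : ℝ, 0 < ε → ∃ k : ℕ, ∀ η : ℝ, 0 < η → ∃ N : ℕ, ∀ n : ℕ, N ≤ n →
      ∃ m : ℕ, (m : ℝ) ≤ (1 + ε + η) ^ n ∧
        ∃ c : (Fin n → ℝ) → Fin m,
          ∀ f : Fin (k + 1) → (Fin n → ℝ),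
            (∀ i j : Fin (k + 1),
              ∑ t : Fin n, |f i t - f j t| = |((i : ℕ) : ℝ) - ((j : ℕ) : ℝ)|) →
            ∃ i j : Fin (k + 1), c (f i) ≠ c (f j) := by
  intro ε hε
  obtain ⟨J, hJ1, hJ⟩ : ∃ J : ℕ, 1 ≤ J ∧ 16 * (J : ℝ) ≤ (1 + ε) ^ J := by
    have h := tendsto_pow_const_div_const_pow_of_one_lt 1 (show 1 < 1 + ε by linarith)
    have h2 := (h.eventually (gt_mem_nhds (show (0 : ℝ) < 1 / 16 by norm_num))).and
      (Filter.eventually_ge_atTop 1)
    obtain ⟨J, h3, h4⟩ := h2.exists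
    refine ⟨J, h4, ?_⟩
    rw [div_lt_iff₀ (by positivity), pow_one] at h3
    linarith
  refine ⟨4 * J + 2, fun η hη => ?_⟩
  have hq : 1 < (1 + ε + η) / (1 + ε) := by
    rw [one_lt_div (by linarith)]; linarith
  have h := tendsto_pow_const_div_const_pow_of_one_lt 2 hq
  have h2 := (h.eventually (gt_mem_nhds (show (0 : ℝ) < 1 / (32 * J + 21) by positivity))).and
      (Filter.eventually_ge_atTop 1)
  obtain ⟨N, hN⟩ := Filter.eventually_atTop.1 h2
  refine ⟨N, fun n hn => ?_⟩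
  obtain ⟨h3, h4⟩ := hN n hn
  refine ⟨⌈4 * (1 + ε) ^ n * (n * (((8 * J + 4) * n : ℕ) : ℝ) + 1)⌉₊, ?_,
    main n J h4 hJ1 (1 + ε) (by linarith) hJ _ (Nat.le_ceil _)⟩
  refine (Nat.ceil_lt_add_one (by positivity)).le.trans ?_
  rw [div_lt_div_iff₀ (by positivity) (by positivity), div_pow, one_mul,
    lt_div_iff₀ (by positivity)] at h3
  have h5 : (1 : ℝ) ≤ (1 + ε) ^ n := one_le_pow₀ (by linarith)
  have h6 : (1 : ℝ) ≤ n := by exact_mod_cast h4
  have h7 : (1 : ℝ) ≤ (n : ℝ) ^ 2 := one_le_pow₀ h6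
  push_cast
  nlinarith

end Pool.Agent.S10543
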