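import Pool.Statements.S10582
-- import your own Pool.Agent.* helpers here

set_option autoImplicit false
open Pool Pool.MP_a55b46_co

namespace Pool.Agent.S10582

def adjb (a b : Fin 40) : Bool :=
  a != b && ((a.val < 15 && b.val < 15) ||
    (a.val < 15 && (a.val / 3 == (b.val - 15) / 5 || a.val / 3 == ((b.val - 15) / 5 + 1) % 5)) ||
    (b.val < 15 && (b.val / 3 == (a.val - 15) / 5 || b.val / 3 == ((a.val - 15) / 5 + 1) % 5)))

def H : SimpleGraph (Fin 40) where
  Adj a b := adjb a b = true
  symm := ⟨by decide +kernel⟩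
  loopless := ⟨by decide +kernel⟩

def nb (v : Fin 40) : Finset (Fin 40) := Finset.univ.filter (fun x => x = v ∨ adjb v x = true)
def nn (v : Fin 40) : Finset (Fin 40) := Finset.univ.filter (fun x => x = v ∨ adjb v x = false)
def lo : Finset (Fin 40) := Finset.univ.filter (fun x => x.val < 15)
def hi : Finset (Fin 40) := Finset.univ.filter (fun x => ¬ x.val < 15)

lemma f1 : ∀ v : Fin 40, ¬ v.val < 15 → ∀ x y : Fin 40, (x = v ∨ adjb v x = true) →
    (y = v ∨ adjb v y = true) → x ≠ y → adjb x y = true := by decide +kernel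
lemma f2 : ∀ v : Fin 40, v.val < 15 → ∀ x y : Fin 40, (x = v ∨ adjb v x = false) →
    (y = v ∨ adjb v y = false) → adjb x y = false := by decide +kernel
lemma f3 : ∀ x y : Fin 40, x.val < 15 → y.val < 15 → x ≠ y → adjb x y = true := by decide +kernel
lemma f4 : ∀ x y : Fin 40, ¬ x.val < 15 → ¬ y.val < 15 → adjb x y = false := by decide +kernel
lemma c1 : ∀ v : Fin 40, 6 < (nb v).card := by decide +kernel
lemma c2 : ∀ v : Fin 40, v.val < 15 → 15 < (nn v).card := by decide +kernel
lemma c3 : 6 < lo.card ∧ 15 < hi.card := by decide +kernel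

/-- The negation of the preceding statement: For 2 ≤ ℓ < ⌊m/2⌋ and any (α,β) in N_m minimizing the gap between αℓ and β, the least order of a graph whose maximal cliques all exceed ℓ vertices and maximal independent sets all exceed m vertices is ℓ+m+β+αℓ, plus 1 if m≠αβ. -/
theorem result :
    ¬ (∀ ℓ m : ℕ, 2 ≤ ℓ → ℓ < m / 2 →
      ∀ α β : ℕ, (0 < α ∧ α ≤ β ∧ α * β ≤ m ∧ m ≤ α * (β + 1)) →
        (∀ a b : ℕ, 0 < a → a ≤ b → a * b ≤ m → m ≤ a * (b + 1) →
          |((α * ℓ : ℕ) : ℤ) - (β : ℤ)| ≤ |((a * ℓ : ℕ) : ℤ) - (b : ℤ)|) →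
        IsLeast
          {n : ℕ | ∃ G : SimpleGraph (Fin n),
            (∀ s : Finset (Fin n),
              Maximal (fun t : Finset (Fin n) => G.IsClique (t : Set (Fin n))) s → ℓ < s.card) ∧
            (∀ s : Finset (Fin n),
              Maximal (fun t : Finset (Fin n) => G.IsIndepSet (t : Set (Fin n))) s → m < s.card)}
          (ℓ + m + β + α * ℓ + (if m = α * β then 0 else 1))) := by
  intro h
  have h1 := (h 6 15 (by norm_num) (by norm_num) 2 7 (by norm_num) (by
    intro a b ha hab h1 h2
    have : a ≤ 3 := by nlinarith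
    interval_cases a <;> (push_cast; rw [abs_of_nonneg (by norm_num), le_abs]; omega))).2
  have h2 : 40 ∈ {n : ℕ | ∃ G : SimpleGraph (Fin n),
            (∀ s : Finset (Fin n),
              Maximal (fun t : Finset (Fin n) => G.IsClique (t : Set (Fin n))) s → 6 < s.card) ∧
            (∀ s : Finset (Fin n),
              Maximal (fun t : Finset (Fin n) => G.IsIndepSet (t : Set (Fin n))) s →
                15 < s.card)} := by
    refine ⟨H, fun s hs => ?_, fun s hs => ?_⟩
    · by_cases hc : ∃ v ∈ s, ¬ v.val < 15
      · obtain ⟨v, hv, hv2⟩ := hc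
        refine (c1 v).trans_le (Finset.card_le_card (hs.2 (y := nb v) ?_ ?_))
        · intro x hx y hy hxy
          exact f1 v hv2 x y (Finset.mem_filter.1 hx).2 (Finset.mem_filter.1 hy).2 hxy
        · intro x hx
          refine Finset.mem_filter.2 ⟨Finset.mem_univ _, ?_⟩
          by_cases hxv : x = v
          · exact Or.inl hxv
          · exact Or.inr (hs.1 hv hx (Ne.symm hxv))
      · push Not at hc
        refine c3.1.trans_le (Finset.card_le_card (hs.2 (y := lo) ?_ ?_))
        · intro x hx y hy hxy
          exact f3 x y (Finset.mem_filter.1 hx).2 (Finset.mem_filter.1 hy).2 hxy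
        · intro x hx
          exact Finset.mem_filter.2 ⟨Finset.mem_univ _, hc x hx⟩
    · by_cases hc : ∃ v ∈ s, v.val < 15
      · obtain ⟨v, hv, hv2⟩ := hc
        refine (c2 v hv2).trans_le (Finset.card_le_card (hs.2 (y := nn v) ?_ ?_))
        · intro x hx y hy _ hxy
          have := f2 v hv2 x y (Finset.mem_filter.1 hx).2 (Finset.mem_filter.1 hy).2
          rw [show adjb x y = true from hxy] at this
          exact absurd this (by simp)
        · intro x hx
          refine Finset.mem_filter.2 ⟨Finset.mem_univ _, ?_⟩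
          by_cases hxv : x = v
          · exact Or.inl hxv
          · exact Or.inr (by simpa [H] using hs.1 hv hx (Ne.symm hxv))
      · push Not at hc
        refine c3.2.trans_le (Finset.card_le_card (hs.2 (y := hi) ?_ ?_))
        · intro x hx y hy _ hxy
          have := f4 x y (Finset.mem_filter.1 hx).2 (Finset.mem_filter.1 hy).2
          rw [show adjb x y = true from hxy] at this
          exact absurd this (by simp)
        · intro x hx
          exact Finset.mem_filter.2 ⟨Finset.mem_univ _, not_lt.2 (hc x hx)⟩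
  have := h1 h2
  norm_num at this

end Pool.Agent.S10582
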