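import Pool.Statements.S10592
import Pool.Agent.H29.Brauer

set_option autoImplicit false
open Pool Pool.MP_a5a405_co

namespace Pool.Agent.S10592

theorem result :
    ¬ (∀ (k : ℕ) (a b c : Fin k → ℤ) (n : ℕ),
      (∀ i, a i ≠ 0 ∧ b i ≠ 0 ∧ c i ≠ 0) → 1 ≤ n →
      ((∀ (r : ℕ) (χ : ℤ → Fin r), ∃ (x y w z : Fin k → ℤ) (col : Fin r),
          ∀ i, x i ≠ 0 ∧ y i ≠ 0 ∧ w i ≠ 0 ∧ z i ≠ 0 ∧
            a i * x i + b i * y i = c i * w i * z i ^ n ∧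
            χ (x i) = col ∧ χ (y i) = col ∧ χ (w i) = col ∧ χ (z i) = col) ↔
        ∃ q : ℚ, ∀ i, q ^ n = (a i : ℚ) / (c i : ℚ) ∨ q ^ n = (b i : ℚ) / (c i : ℚ) ∨
          q ^ n = ((a i : ℚ) + (b i : ℚ)) / (c i : ℚ))) := by
  intro h
  have h1 := (h 2 ![1, 1] ![-1, 1] ![2, 1] 1 (by
    intro i; fin_cases i <;> simp) le_rfl).1 (by
    intro r χ
    obtain ⟨w, a, d, c, hw, ha, hd, h1, h2, h3, h4, h5, h6⟩ :=
      Pool.Agent.H29.Brauer.config r fun n => χ n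
    refine ⟨![((w * (a + 2 * d) : ℕ) : ℤ), ((w * a : ℕ) : ℤ)],
      ![((w * a : ℕ) : ℤ), ((w * d : ℕ) : ℤ)], ![(w : ℤ), (w : ℤ)],
      ![(d : ℤ), ((a + d : ℕ) : ℤ)], c, ?_⟩
    have e1 : ((w * (a + 2 * d) : ℕ) : ℤ) ≠ 0 := by positivity
    have e2 : ((w * a : ℕ) : ℤ) ≠ 0 := by positivity
    have e3 : ((w * d : ℕ) : ℤ) ≠ 0 := by positivity
    have e4 : (w : ℤ) ≠ 0 := by positivity
    have e5 : (d : ℤ) ≠ 0 := by positivity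
    have e6 : ((a + d : ℕ) : ℤ) ≠ 0 := by positivity
    refine Fin.forall_fin_two.2 ⟨⟨e1, e2, e4, e5, ?_, h6, h4, h1, h2⟩,
      ⟨e2, e3, e4, e6, ?_, h4, h5, h1, h3⟩⟩
    · simp; ring
    · simp; ring)
  obtain ⟨q, hq⟩ := h1
  have h0 := hq 0
  have h1 := hq 1
  simp at h0 h1
  rcases h0 with h0 | h0 | h0 <;> rcases h1 with h1 | h1 <;> rw [h0] at h1 <;> norm_num at h1
end Pool.Agent.S10592
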