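import Pool.Statements.S10606
-- import your own Pool.Agent.* helpers here

set_option autoImplicit false
open Finset
open Pool Pool.MP_a60f11_co

namespace Pool.Agent.S10606

def G (a b c : ZMod 4) : Bool := Nat.testBit 12614348371825470218 (a.val * 16 + b.val * 4 + c.val)

def om {n : ℕ} (x : Fin n → ZMod 4) : Finset (Finset (Fin n)) := by
  classical
  exact Finset.univ.filter (fun S => ∃ h : Fin 3 → Fin n, StrictMono h ∧
    S = Finset.univ.image h ∧ G (x (h 0)) (x (h 1)) (x (h 2)) = true)

lemma mem_om {n : ℕ} (x : Fin n → ZMod 4) (h : Fin 3 → Fin n) (hh : StrictMono h) :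
    Finset.univ.image h ∈ om x ↔ G (x (h 0)) (x (h 1)) (x (h 2)) = true := by
  classical
  unfold om
  simp only [Finset.mem_filter, Finset.mem_univ, true_and]
  constructor
  · rintro ⟨h', hh', e, hG⟩
    have : h = h' := by
      rw [← hh.range_inj hh']
      have := congrArg (fun s : Finset (Fin n) => (s : Set (Fin n))) e
      simpa using this
    subst this
    exact hG
  · intro hG
    exact ⟨h, hh, rfl, hG⟩

def Q : Finset (Fin 4 → ZMod 4) :=
  Finset.univ.filter (fun y => G (y 0) (y 1) (y 2) = true ∧ ¬ G (y 1) (y 2) (y 3) = true)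

lemma Q_card : Q.card = 97 := by decide +kernel

def res {n : ℕ} (g : Fin 4 → Fin n) : (Fin n → ZMod 4) →+ (Fin 4 → ZMod 4) where
  toFun x := fun i => x (g i)
  map_zero' := rfl
  map_add' _ _ := rfl

lemma res_surj {n : ℕ} (g : Fin 4 → Fin n) (hg : Function.Injective g) :
    Function.Surjective (res g) := by
  intro y
  refine ⟨Function.extend g y 0, ?_⟩
  funext i
  exact hg.extend_apply y 0 i

lemma count {n : ℕ} (g : Fin 4 → Fin n) (hg : Function.Injective g) (T : Finset (Fin 4 → ZMod 4)) :
    (Finset.univ.filter (fun x : Fin n → ZMod 4 => res g x ∈ T)).card =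
      T.card * (Finset.univ.filter (fun x : Fin n → ZMod 4 => res g x = 0)).card := by
  classical
  rw [Finset.card_eq_sum_card_fiberwise (f := res g) (t := T)
    (by intro x hx; simpa using hx)]
  rw [Finset.sum_const_nat (m := (Finset.univ.filter (fun x : Fin n → ZMod 4 => res g x = 0)).card)]
  intro y hy
  have h1 := AddMonoidHom.card_fiber_eq_of_mem_range (res g) (x := y) (y := 0)
    (res_surj g hg y) (res_surj g hg 0)
  rw [← h1]
  congr 1
  ext x
  simp only [Finset.mem_filter, Finset.mem_univ, true_and]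
  constructor
  · exact fun h => h.2
  · intro h; exact ⟨h ▸ hy, h⟩

lemma prob {n : ℕ} (g : Fin 4 → Fin n) (hg : Function.Injective g) :
    256 * (Finset.univ.filter (fun x : Fin n → ZMod 4 => res g x ∈ Q)).card =
      97 * Fintype.card (Fin n → ZMod 4) := by
  classical
  have h1 := count g hg Q
  have h2 := count g hg Finset.univ
  rw [Q_card] at h1
  have h3 : (Finset.univ : Finset (Fin 4 → ZMod 4)).card = 256 := by simp
  rw [h3] at h2
  simp only [Finset.mem_univ, Finset.filter_true, Finset.card_univ] at h2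
  rw [h1, h2]; ring

/-- The negation of the preceding statement: f(3)=3/8: for every n≥4 some law of events on 3-subsets of [n] gives each shift pair (A,B) Pr(E_A and not E_B) at least 3/8, and for every ε>0 some n forces a shift pair below 3/8+ε. -/
theorem result :
    ¬ ((∀ n : ℕ, 4 ≤ n →
      ∃ p : Finset (Finset (Fin n)) → ℝ,
        (∀ ω, 0 ≤ p ω) ∧ (∑ ω, p ω) = 1 ∧
        ∀ g : Fin 4 → Fin n, StrictMono g →
          (3 / 8 : ℝ) ≤ ∑ ω ∈ Finset.univ.filter
            (fun ω : Finset (Finset (Fin n)) =>
              (Finset.univ.image (fun i : Fin 3 => g (Fin.castSucc i))) ∈ ω ∧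
              (Finset.univ.image (fun i : Fin 3 => g (Fin.succ i))) ∉ ω), p ω) ∧
    (∀ ε : ℝ, 0 < ε →
      ∃ n : ℕ, 4 ≤ n ∧
        ∀ p : Finset (Finset (Fin n)) → ℝ,
          (∀ ω, 0 ≤ p ω) → (∑ ω, p ω) = 1 →
          ∃ g : Fin 4 → Fin n, StrictMono g ∧
            (∑ ω ∈ Finset.univ.filter
              (fun ω : Finset (Finset (Fin n)) =>
                (Finset.univ.image (fun i : Fin 3 => g (Fin.castSucc i))) ∈ ω ∧
                (Finset.univ.image (fun i : Fin 3 => g (Fin.succ i))) ∉ ω), p ω)
              < 3 / 8 + ε)) := by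
  classical
  rintro ⟨-, h⟩
  obtain ⟨n, hn, h⟩ := h (1 / 256) (by norm_num)
  have hN : (0 : ℝ) < Fintype.card (Fin n → ZMod 4) := by exact_mod_cast Fintype.card_pos
  have key : ∀ P : Finset (Finset (Finset (Fin n))),
      ∑ ω ∈ P, ((Finset.univ.filter (fun x : Fin n → ZMod 4 => om x = ω)).card : ℝ) =
        ((Finset.univ.filter (fun x : Fin n → ZMod 4 => om x ∈ P)).card : ℝ) := by
    intro P
    rw [Finset.card_eq_sum_card_fiberwise (f := om) (t := P)
      (s := Finset.univ.filter (fun x : Fin n → ZMod 4 => om x ∈ P))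
      (by intro x hx; simpa using hx)]
    push_cast
    refine Finset.sum_congr rfl (fun ω hω => ?_)
    congr 2
    ext x
    simp only [Finset.mem_filter, Finset.mem_univ, true_and]
    constructor
    · intro h; exact ⟨h ▸ hω, h⟩
    · exact fun h => h.2
  obtain ⟨g, hg, hlt⟩ := h
    (fun ω => ((Finset.univ.filter (fun x : Fin n → ZMod 4 => om x = ω)).card : ℝ) /
      Fintype.card (Fin n → ZMod 4))
    (fun ω => by positivity)
    (by
      rw [← Finset.sum_div, key]
      simp only [Finset.mem_univ, Finset.filter_true, Finset.card_univ]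
      exact div_self hN.ne')
  rw [← Finset.sum_div, key] at hlt
  have e : (Finset.univ.filter (fun x : Fin n → ZMod 4 => om x ∈ Finset.univ.filter
              (fun ω : Finset (Finset (Fin n)) =>
                (Finset.univ.image (fun i : Fin 3 => g (Fin.castSucc i))) ∈ ω ∧
                (Finset.univ.image (fun i : Fin 3 => g (Fin.succ i))) ∉ ω))) =
      Finset.univ.filter (fun x : Fin n → ZMod 4 => res g x ∈ Q) := by
    ext x
    simp only [Finset.mem_filter, Finset.mem_univ, true_and, Q]
    rw [mem_om x (fun i : Fin 3 => g (Fin.castSucc i)) (hg.comp Fin.strictMono_castSucc),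
      mem_om x (fun i : Fin 3 => g (Fin.succ i)) (hg.comp Fin.strictMono_succ)]
    rfl
  rw [e] at hlt
  have hp := prob g hg.injective
  have hp' : (256 : ℝ) * (Finset.univ.filter (fun x : Fin n → ZMod 4 => res g x ∈ Q)).card =
      97 * Fintype.card (Fin n → ZMod 4) := by exact_mod_cast hp
  rw [div_lt_iff₀ hN] at hlt
  linarith

end Pool.Agent.S10606
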