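import Pool.Statements.S10628
-- import your own Pool.Agent.* helpers here

set_option autoImplicit false
open Pool Pool.MP_a76d3a_co

namespace Pool.Agent.S10628

def M : Fin 3 → Fin 3 → ℕ := ![![22, 25, 0], ![25, 28, 1], ![0, 1, 1]]

lemma M_symm : ∀ i j, M i j = M j i := by decide

def a : Sym2 (Fin 3) → ℕ := Sym2.lift ⟨M, M_symm⟩

def adj (u v : Fin 6) : Bool :=
  (u, v) ∈ [((0 : Fin 6), (1 : Fin 6)), (1, 0), (1, 2), (2, 1), (2, 3), (3, 2), (3, 0), (0, 3), (0, 4),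
    (4, 0), (1, 5), (5, 1)]

def sg (u v : Fin 6) : Bool := (u == 2 && v == 3) || (u == 3 && v == 2)

def G : SimpleGraph (Fin 6) where
  Adj u v := adj u v = true
  symm := ⟨by decide⟩
  loopless := ⟨by decide⟩

instance : DecidableRel G.Adj := fun u v => inferInstanceAs (Decidable (adj u v = true))

def H : SimpleGraph (Fin 6 × Bool) where
  Adj x y := adj x.1 y.1 = true ∧ y.2 = xor x.2 (sg x.1 y.1)
  symm := ⟨by decide⟩
  loopless := ⟨by decide⟩

instance : DecidableRel H.Adj := fun x y =>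
  inferInstanceAs (Decidable (adj x.1 y.1 = true ∧ y.2 = xor x.2 (sg x.1 y.1)))

lemma G_edges : G.edgeFinset = {s(0, 1), s(1, 2), s(2, 3), s(3, 0), s(0, 4), s(1, 5)} := by
  decide +kernel

lemma H_edges : H.edgeFinset = {s((0, false), (1, false)), s((1, false), (2, false)), s((2, false), (3, true)), s((3, true), (0, true)), s((0, true), (1, true)), s((1, true), (2, true)), s((2, true), (3, false)), s((3, false), (0, false)), s((0, false), (4, false)), s((1, false), (5, false)), s((0, true), (4, true)), s((1, true), (5, true))} := by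
  decide +kernel

def eG : (Fin 6 → Fin 3) ≃ (Fin 3 × Fin 3 × Fin 3 × Fin 3 × Fin 3 × Fin 3) where
  toFun f := (f 0, f 1, f 2, f 3, f 4, f 5)
  invFun t := ![t.1, t.2.1, t.2.2.1, t.2.2.2.1, t.2.2.2.2.1, t.2.2.2.2.2]
  left_inv f := by funext v; fin_cases v <;> rfl
  right_inv t := rfl

def eH : (Fin 6 × Bool → Fin 3) ≃ (Fin 3 × Fin 3 × Fin 3 × Fin 3 × Fin 3 × Fin 3 × Fin 3 × Fin 3 × Fin 3 × Fin 3 × Fin 3 × Fin 3) where
  toFun f := (f (0, false), f (1, false), f (2, false), f (3, true), f (0, true), f (1, true), f (2, true), f (3, false), f (4, false), f (5, false), f (4, true), f (5, true))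
  invFun t := fun x => if x.2 then ![t.2.2.2.2.1, t.2.2.2.2.2.1, t.2.2.2.2.2.2.1, t.2.2.2.1, t.2.2.2.2.2.2.2.2.2.2.1, t.2.2.2.2.2.2.2.2.2.2.2] x.1 else ![t.1, t.2.1, t.2.2.1, t.2.2.2.2.2.2.2.1, t.2.2.2.2.2.2.2.2.1, t.2.2.2.2.2.2.2.2.2.1] x.1
  left_inv f := by funext ⟨v, b⟩; cases b <;> fin_cases v <;> rfl
  right_inv t := rfl

lemma sum12 (F : Fin 3 × Fin 3 × Fin 3 × Fin 3 × Fin 3 × Fin 3 × Fin 3 × Fin 3 × Fin 3 × Fin 3 × Fin 3 × Fin 3 → ℕ) : ∑ t, F t = ∑ x0, ∑ x1, ∑ x2, ∑ x3, ∑ x4, ∑ x5, ∑ x6, ∑ x7, ∑ x8, ∑ x9,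
    ∑ x10, ∑ x11, F (x0, x1, x2, x3, x4, x5, x6, x7, x8, x9, x10, x11) := by
  iterate 10
    rw [Fintype.sum_prod_type]
    refine Finset.sum_congr rfl fun _ _ => ?_
  rw [Fintype.sum_prod_type]

def D (i : Fin 3) : ℕ := M i 0 + M i 1 + M i 2

lemma ZG : ∑ φ : Fin 6 → Fin 3, ∏ e ∈ G.edgeFinset, a (Sym2.map φ e) = 16444998284 := by
  have h1 : ∀ φ : Fin 6 → Fin 3, ∏ e ∈ G.edgeFinset, a (Sym2.map φ e) =
      M (φ 0) (φ 1) * (M (φ 1) (φ 2) * (M (φ 2) (φ 3) * (M (φ 3) (φ 0) * (M (φ 0) (φ 4) *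
        M (φ 1) (φ 5))))) := by
    intro φ
    rw [G_edges]
    repeat rw [Finset.prod_insert (by decide)]
    rw [Finset.prod_singleton]
    rfl
  simp only [h1]
  rw [← eG.symm.sum_comp]
  simp only [Fintype.sum_prod_type]
  decide +kernel

lemma ZH : ∑ φ : Fin 6 × Bool → Fin 3, ∏ e ∈ H.edgeFinset, a (Sym2.map φ e) = 270437968638124124768 := by
  have h1 : ∀ φ : Fin 6 × Bool → Fin 3, ∏ e ∈ H.edgeFinset, a (Sym2.map φ e) =
      M (φ (0, false)) (φ (1, false)) * (M (φ (1, false)) (φ (2, false)) * (M (φ (2, false)) (φ (3, true)) * (M (φ (3, true)) (φ (0, true)) * (M (φ (0, true)) (φ (1, true)) * (M (φ (1, true)) (φ (2, true)) * (M (φ (2, true)) (φ (3, false)) * (M (φ (3, false)) (φ (0, false)) * (M (φ (0, false)) (φ (4, false)) * (M (φ (1, false)) (φ (5, false)) * (M (φ (0, true)) (φ (4, true)) * (M (φ (1, true)) (φ (5, true))))))))))))) := by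
    intro φ
    rw [H_edges]
    repeat rw [Finset.prod_insert (by decide)]
    rw [Finset.prod_singleton]
    rfl
  rw [Finset.sum_congr rfl (fun φ _ => h1 φ), ← eH.symm.sum_comp, sum12]
  have h2 : ∑ x0 : Fin 3, ∑ x1 : Fin 3, ∑ x2 : Fin 3, ∑ x3 : Fin 3, ∑ x4 : Fin 3, ∑ x5 : Fin 3,
      ∑ x6 : Fin 3, ∑ x7 : Fin 3, M x0 x1 * M x1 x2 * M x2 x3 * M x3 x4 * M x4 x5 * M x5 x6 *
        M x6 x7 * M x7 x0 * (D x0 * D x1 * D x4 * D x5) = 270437968638124124768 := by decide +kernel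
  rw [← h2]
  refine Finset.sum_congr rfl fun x0 _ => Finset.sum_congr rfl fun x1 _ =>
    Finset.sum_congr rfl fun x2 _ => Finset.sum_congr rfl fun x3 _ =>
    Finset.sum_congr rfl fun x4 _ => Finset.sum_congr rfl fun x5 _ =>
    Finset.sum_congr rfl fun x6 _ => Finset.sum_congr rfl fun x7 _ => ?_
  show ∑ x8 : Fin 3, ∑ x9 : Fin 3, ∑ x10 : Fin 3, ∑ x11 : Fin 3, M x0 x1 * (M x1 x2 * (M x2 x3 * (M x3 x4 * (M x4 x5 * (M x5 x6 * (M x6 x7 * (M x7 x0 * (M x0 x8 * (M x1 x9 * (M x4 x10 * (M x5 x11))))))))))) = _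
  simp only [Fin.sum_univ_three, D]
  ring

/-- The negation of the preceding statement: For every finite bipartite graph G, every 2-lift H of G, and every nonnegative symmetric weight matrix A, the weighted homomorphism count of H into A is at most that of G squared, i.e. that of two disjoint copies of G. -/
theorem result :
    ¬ (∀ (V : Type) [Fintype V] [DecidableEq V] (G : SimpleGraph V) [DecidableRel G.Adj],
      G.Colorable 2 →
      ∀ (H : SimpleGraph (V × Bool)) [DecidableRel H.Adj],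
        (∃ s : V → V → Bool, (∀ u v, s u v = s v u) ∧
          ∀ u v : V, ∀ i j : Bool,
            H.Adj (u, i) (v, j) ↔ (G.Adj u v ∧ j = xor i (s u v))) →
        ∀ (n : ℕ) (A : Sym2 (Fin n) → ℝ), (∀ z, 0 ≤ A z) →
          (∑ φ : V × Bool → Fin n, ∏ e ∈ H.edgeFinset, A (Sym2.map φ e)) ≤
            (∑ φ : V → Fin n, ∏ e ∈ G.edgeFinset, A (Sym2.map φ e)) ^ 2) := by
  intro h
  have hc : G.Colorable 2 :=
    ⟨SimpleGraph.Coloring.mk ![0, 1, 0, 1, 1, 0] (by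
      have : ∀ u v : Fin 6, adj u v = true →
        (![0, 1, 0, 1, 1, 0] : Fin 6 → Fin 2) u ≠ (![0, 1, 0, 1, 1, 0] : Fin 6 → Fin 2) v := by decide
      exact fun {u v} huv => this u v huv)⟩
  have h1 := h (Fin 6) G hc H ⟨sg, by decide, fun u v i j => Iff.rfl⟩ 3 (fun z => (a z : ℝ))
    (fun z => Nat.cast_nonneg _)
  have e1 := congrArg (Nat.cast : ℕ → ℝ) ZG
  have e2 := congrArg (Nat.cast : ℕ → ℝ) ZH
  push_cast at e1 e2
  rw [e1, e2] at h1
  norm_num at h1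


end Pool.Agent.S10628
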