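import Pool.Statements.S10662
import Pool.Agent.H23.V23

set_option autoImplicit false
open Pool Pool.MP_a8e1ec_co

namespace Pool.Agent.S10662

/-- The negation of the preceding statement: Every locally finite graph whose automorphism group has finitely many vertex orbits, with a component containing two edges, has an edge-coloring with two differently colored edges in one component, whose color-preserving automorphisms have finitely many vertex orbits. -/
theorem result :
    ¬ (∀ (V : Type) (G : SimpleGraph V),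
      (∀ v : V, (G.neighborSet v).Finite) →
      (∃ S : Finset V, ∀ v : V, ∃ s ∈ S, ∃ φ : G ≃g G, φ s = v) →
      (∃ u v w x : V, G.Adj u v ∧ G.Adj w x ∧ G.Reachable u w ∧ s(u, v) ≠ s(w, x)) →
      ∃ (C : Type) (c : Sym2 V → C),
        (∃ u v w x : V, G.Adj u v ∧ G.Adj w x ∧ G.Reachable u w ∧ c s(u, v) ≠ c s(w, x)) ∧
        (∃ S : Finset V, ∀ v : V, ∃ s ∈ S, ∃ φ : G ≃g G,
          (∀ a b : V, G.Adj a b → c s(φ a, φ b) = c s(a, b)) ∧ φ s = v)) := by
  intro h
  have H := Pool.Agent.H23.V23.hyp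
  have hc := Pool.Agent.H23.Tutte.cubic H
  obtain ⟨C, c, ⟨u, v, w, z, h1, h2, -, h3⟩, S, hS⟩ := h _ (Pool.Agent.H23.Tutte.gr H) (by
    intro v
    obtain ⟨a, b, c, -, -, -, h⟩ := hc v
    refine (Set.toFinite {a, b, c}).subset fun w hw => ?_
    simpa using (h w).1 hw) ⟨{((1 : Pool.Agent.H23.V23.G) : _ ⧸ _)}, by
    intro v
    induction v using QuotientGroup.induction_on with
    | H g =>
      refine ⟨_, Finset.mem_singleton_self _, Pool.Agent.H23.Tutte.lm H g, ?_⟩
      rw [Pool.Agent.H23.Tutte.lm_apply, Pool.Agent.H23.Tutte.smul_mk H, mul_one]⟩ (by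
    obtain ⟨a, b, c, hab, -, -, h⟩ := hc ((1 : Pool.Agent.H23.V23.G) : _ ⧸ _)
    refine ⟨_, a, _, b, (h a).2 (Or.inl rfl), (h b).2 (Or.inr (Or.inl rfl)),
      SimpleGraph.Reachable.refl _, fun e => hab ?_⟩
    exact Sym2.congr_right.1 e)
  exact h3 ((Pool.Agent.H23.Tutte.const_col H c S hS u v h1).trans
    (Pool.Agent.H23.Tutte.const_col H c S hS w z h2).symm)

end Pool.Agent.S10662
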