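import Pool.Statements.S10670
-- import your own Pool.Agent.* helpers here

set_option autoImplicit false
open Pool Pool.MP_a94970_co

namespace Pool.Agent.S10670

section aux
variable {h : ℕ}

abbrev Leaf (h : ℕ) := Fin h → Bool

def same (i : ℕ) (l x : Leaf h) : Prop := ∀ j : Fin h, i ≤ j.1 → l j = x j

def good (D : Leaf h → Prop) (i : ℕ) (l : Leaf h) : Prop := ∃! x, same i l x ∧ D x

theorem same_mono {i i' : ℕ} (hi : i ≤ i') {l x : Leaf h} (hs : same i l x) : same i' l x :=
  fun j hj => hs j (le_trans hi hj)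

theorem good_between {D : Leaf h → Prop} {i k i' : ℕ} (h1 : i ≤ k) (h2 : k ≤ i') {l : Leaf h}
    (g1 : good D i l) (g2 : good D i' l) : good D k l := by
  obtain ⟨y, ⟨hy1, hy2⟩, -⟩ := g1
  obtain ⟨x, -, hx⟩ := g2
  refine ⟨y, ⟨same_mono h1 hy1, hy2⟩, fun z hz => ?_⟩
  rw [hx z ⟨same_mono h2 hz.1, hz.2⟩, hx y ⟨same_mono (le_trans h1 h2) hy1, hy2⟩]

open Classical in
noncomputable def G (D : Leaf h → Prop) (i : ℕ) : Finset (Leaf h) :=
  Finset.univ.filter (good D i)

open Classical in
theorem half (D : Leaf h → Prop) (i : ℕ) (hi : i < h) :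
    2 * (G D i ∩ G D (i + 1)).card ≤ (G D (i + 1)).card := by
  let fl : Leaf h → Leaf h := fun l => Function.update l ⟨i, hi⟩ (!(l ⟨i, hi⟩))
  have hfl : ∀ l x : Leaf h, same (i + 1) (fl l) x ↔ same (i + 1) l x := by
    intro l x
    refine forall_congr' (fun j => imp_congr_right (fun hj => ?_))
    have : j ≠ ⟨i, hi⟩ := by
      intro e
      rw [e] at hj
      simp at hj
    simp [fl, Function.update_of_ne this]
  have hinj : Function.Injective fl := by
    apply Function.Involutive.injective
    intro l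
    simp [fl]
  set S := G D i ∩ G D (i + 1) with hS
  have hsub : S ∪ S.image fl ⊆ G D (i + 1) := by
    intro l hl
    rcases Finset.mem_union.1 hl with hl | hl
    · exact (Finset.mem_inter.1 hl).2
    · obtain ⟨m, hm, rfl⟩ := Finset.mem_image.1 hl
      have := (Finset.mem_inter.1 hm).2
      simp only [G, Finset.mem_filter, Finset.mem_univ, true_and, good] at this ⊢
      simpa only [hfl] using this
  have hdis : Disjoint S (S.image fl) := by
    rw [Finset.disjoint_left]
    intro l hl hl'
    obtain ⟨m, hm, rfl⟩ := Finset.mem_image.1 hl'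
    simp only [hS, G, Finset.mem_inter, Finset.mem_filter, Finset.mem_univ, true_and] at hl hm
    obtain ⟨⟨x, ⟨hx1, hx2⟩, -⟩, -⟩ := hl
    obtain ⟨⟨y, ⟨hy1, hy2⟩, -⟩, ⟨z, -, hz⟩⟩ := hm
    have e1 : x = z := hz x ⟨(hfl m x).1 (same_mono (Nat.le_succ i) hx1), hx2⟩
    have e2 : y = z := hz y ⟨same_mono (Nat.le_succ i) hy1, hy2⟩
    have a := hx1 ⟨i, hi⟩ le_rfl
    have b := hy1 ⟨i, hi⟩ le_rfl
    rw [e1] at a
    rw [e2] at b
    rw [← b] at a
    simp [fl] at a
  have := Finset.card_le_card hsub
  rw [Finset.card_union_of_disjoint hdis, Finset.card_image_of_injective _ hinj] at this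
  omega

open Classical in
theorem sum_G (D : Leaf h → Prop) :
    ∑ i ∈ Finset.range (h + 1), (G D i).card ≤ 2 * 2 ^ h := by
  let T : ℕ → Finset (Leaf h) := fun i =>
    Finset.univ.filter (fun l => good D i l ∧ (i = h ∨ ¬ good D (i + 1) l))
  have hT : ∑ i ∈ Finset.range (h + 1), (T i).card ≤ 2 ^ h := by
    rw [← Finset.card_biUnion]
    · have := Finset.card_le_univ ((Finset.range (h + 1)).biUnion T)
      simpa using this
    · have key : ∀ i j, i < j → j < h + 1 → Disjoint (T i) (T j) := by
        intro i j hij hj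
        rw [Finset.disjoint_left]
        intro l h1 h2
        simp only [T, Finset.mem_filter, Finset.mem_univ, true_and] at h1 h2
        rcases h1.2 with h3 | h3
        · omega
        · exact h3 (good_between (Nat.le_succ i) hij h1.1 h2.1)
      intro i hi j hj hij
      rcases lt_or_gt_of_ne hij with h1 | h1
      · exact key i j h1 (by simpa using hj)
      · exact (key j i h1 (by simpa using hi)).symm
  have h1 : ∀ i, i < h → 2 * (G D i).card ≤ 2 * (T i).card + (G D (i + 1)).card := by
    intro i hi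
    have hsub : G D i ⊆ T i ∪ (G D i ∩ G D (i + 1)) := by
      intro l hl
      simp only [T, G, Finset.mem_union, Finset.mem_inter, Finset.mem_filter, Finset.mem_univ,
        true_and] at hl ⊢
      tauto
    have a := Finset.card_le_card hsub
    have b := Finset.card_union_le (T i) (G D i ∩ G D (i + 1))
    have c := half D i hi
    omega
  have h2 : (G D h).card ≤ (T h).card := by
    apply Finset.card_le_card
    intro l hl
    simp only [T, G, Finset.mem_filter, Finset.mem_univ, true_and] at hl ⊢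
    tauto
  have h3 : ∑ i ∈ Finset.range h, 2 * (G D i).card ≤
      ∑ i ∈ Finset.range h, (2 * (T i).card + (G D (i + 1)).card) :=
    Finset.sum_le_sum (fun i hi => h1 i (Finset.mem_range.1 hi))
  rw [Finset.sum_add_distrib, ← Finset.mul_sum, ← Finset.mul_sum] at h3
  have h4 := Finset.sum_range_succ' (fun i => (G D i).card) h
  have h5 := Finset.sum_range_succ (fun i => (G D i).card) h
  rw [Finset.sum_range_succ] at hT
  omega

abbrev Vx (h : ℕ) := Leaf h ⊕ (Fin (h + 1) × Leaf h)

def rel : Vx h → Vx h → Prop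
  | Sum.inr b, Sum.inl x => same b.1.1 b.2 x
  | Sum.inl x, Sum.inr b => same b.1.1 b.2 x
  | _, _ => False

def gr (h : ℕ) : SimpleGraph (Vx h) where
  Adj := rel
  symm := ⟨by
    rintro (x | x) (y | y) hxy <;> exact hxy⟩
  loopless := ⟨by
    rintro (x | x) hx <;> exact hx⟩

theorem gr_conn (h : ℕ) : (gr h).Connected := by
  let r : Vx h := Sum.inr (Fin.last h, fun _ => false)
  have h1 : ∀ x : Leaf h, (gr h).Reachable r (Sum.inl x) := by
    intro x
    apply SimpleGraph.Adj.reachable
    intro j hj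
    have := j.2
    simp at hj
    omega
  have h2 : ∀ v, (gr h).Reachable r v := by
    rintro (x | b)
    · exact h1 x
    · refine (h1 b.2).trans (SimpleGraph.Adj.reachable ?_)
      intro j _
      rfl
  have : Nonempty (Vx h) := ⟨r⟩
  exact ⟨fun u v => (h2 u).symm.trans (h2 v)⟩

theorem card_Vx (h : ℕ) : Fintype.card (Vx h) = (h + 2) * 2 ^ h := by
  simp [Vx, Leaf]
  ring

open Classical in
theorem zeros (f : Vx h → ℕ)
    (hf : ∀ v, f v = 0 → ∃! u, (gr h).Adj v u ∧ f u = 2) :
    ∑ v : Vx h, (if f v = 0 then 1 else 0) ≤ 3 * 2 ^ h := by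
  rw [Fintype.sum_sum_type, Fintype.sum_prod_type]
  have h1 : ∑ x : Leaf h, (if f (Sum.inl x) = 0 then 1 else 0) ≤ 2 ^ h := by
    calc _ ≤ ∑ _x : Leaf h, 1 := Finset.sum_le_sum (fun x _ => by split_ifs <;> omega)
      _ = 2 ^ h := by simp [Leaf]
  have h2 : ∀ i : Fin (h + 1), ∑ l : Leaf h, (if f (Sum.inr (i, l)) = 0 then 1 else 0) ≤
      (G (fun x => f (Sum.inl x) = 2) i).card := by
    intro i
    rw [← Finset.card_filter]
    apply Finset.card_le_card
    intro l hl
    simp only [G, Finset.mem_filter, Finset.mem_univ, true_and] at hl ⊢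
    obtain ⟨u, ⟨hu1, hu2⟩, hu⟩ := hf _ hl
    rcases u with x | b
    · refine ⟨x, ⟨hu1, hu2⟩, fun y hy => ?_⟩
      exact Sum.inl_injective (hu (Sum.inl y) ⟨hy.1, hy.2⟩)
    · exact absurd hu1 (fun e => e)
  have h3 := Finset.sum_le_sum (fun i (_ : i ∈ Finset.univ) => h2 i)
  rw [Fin.sum_univ_eq_sum_range (fun i => (G (fun x => f (Sum.inl x) = 2) i).card)] at h3
  have h4 := sum_G (fun x => f (Sum.inl x) = 2)
  omega

end aux

/-- The negation of the preceding statement: Every connected finite simple graph on n ≥ 3 vertices has a 0/1/2 labelling where each 0-vertex has exactly one neighbour labelled 2, with total label sum at most 4n/5. -/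
theorem result :
    ¬ (∀ (V : Type) [Fintype V] (G : SimpleGraph V),
      G.Connected → 3 ≤ Fintype.card V →
      ∃ f : V → ℕ, (∀ v, f v ≤ 2) ∧
        (∀ v, f v = 0 → ∃! u, G.Adj v u ∧ f u = 2) ∧
        5 * (∑ v, f v) ≤ 4 * Fintype.card V) := by
  intro H
  obtain ⟨f, -, hf, hs⟩ := H (Vx 14) (gr 14) (gr_conn 14) (by rw [card_Vx]; norm_num)
  have h1 := zeros f hf
  have h2 : Fintype.card (Vx 14) ≤ ∑ v : Vx 14, (f v + if f v = 0 then 1 else 0) := by
    rw [← Finset.card_univ, Finset.card_eq_sum_ones]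
    exact Finset.sum_le_sum (fun v _ => by split_ifs <;> omega)
  rw [Finset.sum_add_distrib] at h2
  rw [card_Vx] at hs h2
  omega

end Pool.Agent.S10670
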