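import Pool.Statements.S10709
import Pool.Agent.H23.ZS3

set_option autoImplicit false
open Pool Pool.MP_ab035a_co

namespace Pool.Agent.S10709

/-- For every k ≥ 1 there is c such that for every graph G on n vertices with k dividing its edge count, every ℤ_k-colouring of the edges of K_{n+c} contains a copy of G whose edge colours sum to 0 mod k. -/
theorem result :
    ∀ k : ℕ, 0 < k → ∃ c : ℕ, ∀ n : ℕ, ∀ (G : SimpleGraph (Fin n)) [DecidableRel G.Adj],
      k ∣ G.edgeFinset.card →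
      ∀ f : Sym2 (Fin (n + c)) → ZMod k,
        ∃ φ : Fin n ↪ Fin (n + c), ∑ e ∈ G.edgeFinset, f (Sym2.map φ e) = 0 := by
  intro k hk
  haveI : NeZero k := ⟨hk.ne'⟩
  obtain ⟨C, hC⟩ := Pool.Agent.H23.ZS.zero_sum (ZMod k)
  refine ⟨C, fun n G _ hG f => ?_⟩
  obtain ⟨π, h1, h2⟩ := hC n (n + C) G f le_rfl (fun γ => by
    obtain ⟨m, hm⟩ := hG
    rw [hm, nsmul_eq_mul, Nat.cast_mul, ZMod.natCast_self, zero_mul, zero_mul])
  exact ⟨⟨π, h1⟩, h2⟩

end Pool.Agent.S10709
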