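import Pool.Statements.S10752

set_option autoImplicit false
open MeasureTheory
open Pool Pool.MP_ac9a20_co

namespace Pool.Agent.S10752

/-- abstract back and forth argument -/
theorem bnf (C : ℕ × ℕ → ℕ × ℕ → Prop) (hC : ∀ p q, C p q → (p.1 = q.1 ↔ p.2 = q.2))
    (forth : ∀ s : Finset (ℕ × ℕ), (∀ p ∈ s, ∀ q ∈ s, C p q) → ∀ a, ∃ b,
      ∀ p ∈ insert (a, b) s, ∀ q ∈ insert (a, b) s, C p q)
    (back : ∀ s : Finset (ℕ × ℕ), (∀ p ∈ s, ∀ q ∈ s, C p q) → ∀ b, ∃ a,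
      ∀ p ∈ insert (a, b) s, ∀ q ∈ insert (a, b) s, C p q)
    (s0 : Finset (ℕ × ℕ)) (h0 : ∀ p ∈ s0, ∀ q ∈ s0, C p q) :
    ∃ e : ℕ ≃ ℕ, (∀ p ∈ s0, e p.1 = p.2) ∧ ∀ a a', C (a, e a) (a', e a') := by
  have step : ∀ (n : ℕ) (s : {s : Finset (ℕ × ℕ) // ∀ p ∈ s, ∀ q ∈ s, C p q}),
      ∃ t : {s : Finset (ℕ × ℕ) // ∀ p ∈ s, ∀ q ∈ s, C p q},
        s.1 ⊆ t.1 ∧ (∃ b, (n, b) ∈ t.1) ∧ ∃ a, (a, n) ∈ t.1 := by
    intro n s
    obtain ⟨b, hb⟩ := forth s.1 s.2 n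
    obtain ⟨a, ha⟩ := back _ hb n
    refine ⟨⟨_, ha⟩, ?_, ⟨b, by simp⟩, ⟨a, by simp⟩⟩
    intro p hp
    simp [hp]
  choose f hf1 hf2 hf3 using step
  let S : ℕ → {s : Finset (ℕ × ℕ) // ∀ p ∈ s, ∀ q ∈ s, C p q} :=
    fun n => Nat.rec ⟨s0, h0⟩ (fun n s => f n s) n
  have hmono : Monotone fun n => (S n).1 := monotone_nat_of_le_succ fun n => hf1 n (S n)
  have hall : ∀ m n p q, p ∈ (S m).1 → q ∈ (S n).1 → C p q := fun m n p q hp hq =>
    (S (max m n)).2 p (hmono (le_max_left m n) hp) q (hmono (le_max_right m n) hq)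
  choose g hg using fun n => hf2 n (S n)
  have hg' : ∀ n, (n, g n) ∈ (S (n + 1)).1 := hg
  have hbij : Function.Bijective g := by
    constructor
    · intro a a' h
      exact (hC (a, g a) (a', g a') (hall (a + 1) (a' + 1) _ _ (hg' a) (hg' a'))).2 h
    · intro b
      obtain ⟨a, ha⟩ := hf3 b (S b)
      have ha' : (a, b) ∈ (S (b + 1)).1 := ha
      exact ⟨a, (hC (a, g a) (a, b) (hall (a + 1) (b + 1) _ _ (hg' a) ha')).1 rfl⟩
  refine ⟨Equiv.ofBijective g hbij, fun p hp => ?_, 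
    fun a a' => hall (a + 1) (a' + 1) (a, g a) (a', g a') (hg' a) (hg' a')⟩
  have hp' : p ∈ (S 0).1 := hp
  exact (hC (p.1, g p.1) p (hall (p.1 + 1) 0 _ _ (hg' p.1) hp')).1 rfl

/-- coloured extension property -/
def Ext (Γ : SimpleGraph ℕ) (c : ℕ → ℕ) : Prop :=
  (∀ x y, Γ.Adj x y → c x = 0 ∨ c y = 0) ∧
  ∀ (U V : Finset ℕ) (x : ℕ), Disjoint U V → (∀ u ∈ U, c x = 0 ∨ c u = 0) →
    ∃ z, z ∉ U ∧ z ∉ V ∧ c z = c x ∧ (∀ u ∈ U, Γ.Adj z u) ∧ ∀ v ∈ V, ¬ Γ.Adj z v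

def Comp (Γ Δ : SimpleGraph ℕ) (c : ℕ → ℕ) (p q : ℕ × ℕ) : Prop :=
  (p.1 = q.1 ↔ p.2 = q.2) ∧ c p.1 = c p.2 ∧ (Γ.Adj p.1 q.1 ↔ Δ.Adj p.2 q.2)

theorem forth (Γ Δ : SimpleGraph ℕ) (c : ℕ → ℕ) (hΓ : Ext Γ c) (hΔ : Ext Δ c)
    (s : Finset (ℕ × ℕ)) (hs : ∀ p ∈ s, ∀ q ∈ s, Comp Γ Δ c p q) (a : ℕ) :
    ∃ b, ∀ p ∈ insert (a, b) s, ∀ q ∈ insert (a, b) s, Comp Γ Δ c p q := by
  classical
  by_cases ha : ∃ b, (a, b) ∈ s
  · obtain ⟨b, hb⟩ := ha
    exact ⟨b, by rwa [Finset.insert_eq_of_mem hb]⟩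
  push Not at ha
  obtain ⟨z, hz1, hz2, hz3, hz4, hz5⟩ := hΔ.2 ((s.filter fun p => Γ.Adj a p.1).image Prod.snd)
    ((s.filter fun p => ¬ Γ.Adj a p.1).image Prod.snd) a (by
      rw [Finset.disjoint_left]
      intro x h1 h2
      simp only [Finset.mem_image, Finset.mem_filter] at h1 h2
      obtain ⟨p, ⟨hp, hp'⟩, rfl⟩ := h1
      obtain ⟨q, ⟨hq, hq'⟩, e⟩ := h2
      exact hq' (((hs q hq p hp).1.2 e) ▸ hp')) (by
      intro u hu
      simp only [Finset.mem_image, Finset.mem_filter] at hu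
      obtain ⟨p, ⟨hp, hp'⟩, rfl⟩ := hu
      rw [← (hs p hp p hp).2.1]
      exact hΓ.1 _ _ hp')
  have k1 : ∀ p ∈ s, a ≠ p.1 := fun p hp e => ha p.2 (e ▸ hp)
  have k2 : ∀ p ∈ s, z ≠ p.2 := by
    intro p hp e
    by_cases h : Γ.Adj a p.1
    · exact hz1 (Finset.mem_image.2 ⟨p, Finset.mem_filter.2 ⟨hp, h⟩, e.symm⟩)
    · exact hz2 (Finset.mem_image.2 ⟨p, Finset.mem_filter.2 ⟨hp, h⟩, e.symm⟩)
  have k3 : ∀ p ∈ s, (Γ.Adj a p.1 ↔ Δ.Adj z p.2) := by
    intro p hp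
    by_cases h : Γ.Adj a p.1
    · exact iff_of_true h (hz4 _ (Finset.mem_image.2 ⟨p, Finset.mem_filter.2 ⟨hp, h⟩, rfl⟩))
    · exact iff_of_false h (hz5 _ (Finset.mem_image.2 ⟨p, Finset.mem_filter.2 ⟨hp, h⟩, rfl⟩))
  refine ⟨z, fun p hp q hq => ?_⟩
  rw [Finset.mem_insert] at hp hq
  rcases hp with rfl | hp <;> rcases hq with rfl | hq
  · exact ⟨by simp, hz3.symm, by simp⟩
  · exact ⟨iff_of_false (k1 q hq) (k2 q hq), hz3.symm, k3 q hq⟩
  · refine ⟨iff_of_false (k1 p hp).symm (k2 p hp).symm, (hs p hp p hp).2.1, ?_⟩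
    rw [Γ.adj_comm, Δ.adj_comm]
    exact k3 p hp
  · exact hs p hp q hq

theorem comp_swap (Γ Δ : SimpleGraph ℕ) (c : ℕ → ℕ) (p q : ℕ × ℕ) (h : Comp Γ Δ c p q) :
    Comp Δ Γ c p.swap q.swap := ⟨h.1.symm, h.2.1.symm, h.2.2.symm⟩

theorem homog (Γ Δ : SimpleGraph ℕ) (c : ℕ → ℕ) (hΓ : Ext Γ c) (hΔ : Ext Δ c)
    (s : Finset (ℕ × ℕ)) (hs : ∀ p ∈ s, ∀ q ∈ s, Comp Γ Δ c p q) :
    ∃ e : ℕ ≃ ℕ, (∀ p ∈ s, e p.1 = p.2) ∧ (∀ a, c (e a) = c a) ∧
      ∀ a b, Δ.Adj (e a) (e b) ↔ Γ.Adj a b := by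
  obtain ⟨e, he1, he2⟩ := bnf (Comp Γ Δ c) (fun p q h => h.1) (forth Γ Δ c hΓ hΔ) (by
    intro t ht b
    obtain ⟨a, ha⟩ := forth Δ Γ c hΔ hΓ (t.image Prod.swap) (by
      intro p hp q hq
      obtain ⟨p', hp', rfl⟩ := Finset.mem_image.1 hp
      obtain ⟨q', hq', rfl⟩ := Finset.mem_image.1 hq
      exact comp_swap _ _ _ _ _ (ht p' hp' q' hq')) b
    have key : ∀ p ∈ insert (a, b) t, p.swap ∈ insert (b, a) (t.image Prod.swap) := by
      intro p hp
      rw [Finset.mem_insert] at hp ⊢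
      rcases hp with rfl | hp
      · exact Or.inl rfl
      · exact Or.inr (Finset.mem_image_of_mem _ hp)
    exact ⟨a, fun p hp q hq => comp_swap _ _ _ _ _ (ha _ (key p hp) _ (key q hq))⟩) s hs
  exact ⟨e, he1, fun a => (he2 a a).2.1.symm, fun a b => (he2 a b).2.2.symm⟩

theorem bits (U : Finset ℕ) : ∃ m : ℕ, ∀ i, m.testBit i = true ↔ i ∈ U := by
  induction U using Finset.induction_on with
  | empty => exact ⟨0, by simp⟩
  | insert a U _ ih =>
    obtain ⟨m, hm⟩ := ih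
    refine ⟨2 ^ a ||| m, fun i => ?_⟩
    rw [Nat.testBit_or, Nat.testBit_two_pow, Bool.or_eq_true, hm, decide_eq_true_eq,
      Finset.mem_insert, eq_comm]

theorem bits' (U V : Finset ℕ) : ∃ m : ℕ, (∀ i ∈ U, i < m) ∧ (∀ i ∈ V, i < m) ∧
    (∀ i ∈ U, m.testBit i = true) ∧ ∀ i ∈ V, i ∉ U → ¬ m.testBit i = true := by
  obtain ⟨N, hN⟩ := (U ∪ V).exists_le
  obtain ⟨m, hm⟩ := bits (insert (N + 1) U)
  have h1 : 2 ^ (N + 1) ≤ m := Nat.ge_two_pow_of_testBit ((hm _).2 (by simp))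
  have h2 : N + 1 < 2 ^ (N + 1) := Nat.lt_two_pow_self
  have h3 : ∀ i ∈ U, i ≤ N := fun i hi => hN i (by simp [hi])
  have h4 : ∀ i ∈ V, i ≤ N := fun i hi => hN i (by simp [hi])
  refine ⟨m, fun i hi => ?_, fun i hi => ?_, fun i hi => (hm i).2 (by simp [hi]),
    fun i hi hi' h => ?_⟩
  · have := h3 i hi
    omega
  · have := h4 i hi
    omega
  · have := h4 i hi
    rcases Finset.mem_insert.1 ((hm i).1 h) with h | h
    · omega
    · exact hi' h

/-- the Rado graph -/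
abbrev Rado : SimpleGraph ℕ := SimpleGraph.fromRel (fun i j : ℕ => Nat.testBit j i = true)

theorem rado_ext : Ext Rado (fun _ => 0) := by
  refine ⟨fun _ _ _ => Or.inl rfl, fun U V x hUV _ => ?_⟩
  obtain ⟨m, h1, h2, h3, h4⟩ := bits' U V
  refine ⟨m, fun h => lt_irrefl _ (h1 m h), fun h => lt_irrefl _ (h2 m h), rfl, fun u hu => ?_,
    fun v hv => ?_⟩
  · rw [SimpleGraph.fromRel_adj]
    exact ⟨(h1 u hu).ne', Or.inr (h3 u hu)⟩
  · rw [SimpleGraph.fromRel_adj]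
    rintro ⟨_, h | h⟩
    · have := Nat.ge_two_pow_of_testBit h
      have h5 : m < 2 ^ m := Nat.lt_two_pow_self
      have := h2 v hv
      omega
    · exact h4 v hv (Finset.disjoint_right.1 hUV hv) h

/-- colour of a vertex -/
def col (j : ℕ) : ℕ := (Nat.unpair j).2

/-- the coloured graph -/
def Gam : SimpleGraph ℕ := SimpleGraph.fromRel
  (fun i j : ℕ => i < j ∧ (Nat.unpair j).1.testBit i = true ∧ (col i = 0 ∨ col j = 0))

theorem gam_ext' (U V : Finset ℕ) (k : ℕ) (hUV : Disjoint U V)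
    (hk : ∀ u ∈ U, k = 0 ∨ col u = 0) :
    ∃ z, z ∉ U ∧ z ∉ V ∧ col z = k ∧ (∀ u ∈ U, Gam.Adj z u) ∧ ∀ v ∈ V, ¬ Gam.Adj z v := by
  obtain ⟨m, h1, h2, h3, h4⟩ := bits' U V
  have hm : m ≤ Nat.pair m k := Nat.left_le_pair m k
  have hc : col (Nat.pair m k) = k := by simp [col]
  refine ⟨Nat.pair m k, fun h => ?_, fun h => ?_, hc, fun u hu => ?_, fun v hv => ?_⟩
  · have := h1 _ h
    omega
  · have := h2 _ h
    omega
  · have := h1 u hu
    rw [Gam, SimpleGraph.fromRel_adj]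
    refine ⟨by omega, Or.inr ⟨by omega, by simpa using h3 u hu, ?_⟩⟩
    rw [hc]
    exact (hk u hu).symm
  · have := h2 v hv
    rw [Gam, SimpleGraph.fromRel_adj]
    rintro ⟨_, h | h⟩
    · omega
    · exact h4 v hv (Finset.disjoint_right.1 hUV hv) (by simpa using h.2.1)

theorem gam_ext : Ext Gam col := by
  refine ⟨fun x y h => ?_, fun U V x hUV hx => gam_ext' U V (col x) hUV hx⟩
  rw [Gam, SimpleGraph.fromRel_adj] at h
  rcases h.2 with h | h
  · exact h.2.2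
  · exact h.2.2.symm

theorem gam_ext0 : Ext Gam (fun _ => 0) := by
  refine ⟨fun _ _ _ => Or.inl rfl, fun U V x hUV _ => ?_⟩
  obtain ⟨z, h1, h2, _, h4, h5⟩ := gam_ext' U V 0 hUV (fun _ _ => Or.inl rfl)
  exact ⟨z, h1, h2, rfl, h4, h5⟩

/-- the colour preserving automorphism group -/
def G : Subgroup (Equiv.Perm ℕ) where
  carrier := {g | (∀ x, col (g x) = col x) ∧ ∀ x y, Gam.Adj (g x) (g y) ↔ Gam.Adj x y}
  one_mem' := ⟨fun _ => rfl, fun _ _ => Iff.rfl⟩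
  mul_mem' := by
    rintro a b ⟨ha1, ha2⟩ ⟨hb1, hb2⟩
    exact ⟨fun x => (ha1 _).trans (hb1 x), fun x y => (ha2 _ _).trans (hb2 x y)⟩
  inv_mem' := by
    rintro a ⟨ha1, ha2⟩
    refine ⟨fun x => ?_, fun x y => ?_⟩
    · rw [← ha1]
      simp
    · rw [← ha2]
      simp

abbrev O : Type := {S : Set (Sym2 ℕ) // ∃ e : Sym2 ℕ, ¬ e.IsDiag ∧
  S = {e' : Sym2 ℕ | ∃ g ∈ G, Sym2.map (⇑g) e = e'}}

def orb (x y : ℕ) (h : x ≠ y) : O :=
  ⟨{e' : Sym2 ℕ | ∃ g ∈ G, Sym2.map (⇑g) s(x, y) = e'}, s(x, y), by simpa using h, rfl⟩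

theorem mem_orb (x y : ℕ) (h : x ≠ y) : s(x, y) ∈ (orb x y h).1 := ⟨1, one_mem _, by simp⟩

theorem eq_orb (x y : ℕ) (h : x ≠ y) (S : O) (hS : s(x, y) ∈ S.1) : S = orb x y h := by
  obtain ⟨S, e, he, rfl⟩ := S
  obtain ⟨g, hg, hge⟩ := hS
  apply Subtype.ext
  ext e'
  constructor
  · rintro ⟨k, hk, rfl⟩
    refine ⟨k * g⁻¹, mul_mem hk (inv_mem hg), ?_⟩
    rw [← hge, Sym2.map_map]
    congr 1
    funext t
    simp
  · rintro ⟨k, hk, rfl⟩
    refine ⟨k * g, mul_mem hk hg, ?_⟩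
    rw [← hge, Sym2.map_map]
    rfl

theorem orb_eq (x y x' y' : ℕ) (h : x ≠ y) (h' : x' ≠ y') (h1 : col x = col x')
    (h2 : col y = col y') (h3 : Gam.Adj x y ↔ Gam.Adj x' y') : orb x y h = orb x' y' h' := by
  obtain ⟨e, he1, he2, he3⟩ := homog Gam Gam col gam_ext gam_ext {(x, x'), (y, y')} (by
    intro p hp q hq
    simp only [Finset.mem_insert, Finset.mem_singleton] at hp hq
    rcases hp with rfl | rfl <;> rcases hq with rfl | rfl
    · exact ⟨by simp, h1, by simp⟩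
    · exact ⟨iff_of_false h h', h1, h3⟩
    · exact ⟨iff_of_false h.symm h'.symm, h2, by rw [Gam.adj_comm, h3, Gam.adj_comm]⟩
    · exact ⟨by simp, h2, by simp⟩)
  refine eq_orb _ _ _ _ ⟨e, ⟨he2, he3⟩, ?_⟩
  have a1 : e x = x' := he1 (x, x') (by simp)
  have a2 : e y = y' := he1 (y, y') (by simp)
  simp [a1, a2]

/-- the random invariant graph -/
abbrev RG (c : O → Bool) : SimpleGraph ℕ :=
  SimpleGraph.fromRel (fun x y : ℕ => ∃ S : O, s(x, y) ∈ S.1 ∧ c S = true)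

theorem rg_adj (c : O → Bool) (x y : ℕ) (h : x ≠ y) :
    (RG c).Adj x y ↔ c (orb x y h) = true := by
  rw [SimpleGraph.fromRel_adj]
  constructor
  · rintro ⟨_, ⟨S, hS, hc⟩ | ⟨S, hS, hc⟩⟩
    · rwa [← eq_orb x y h S hS]
    · rw [Sym2.eq_swap] at hS
      rwa [← eq_orb x y h S hS]
  · exact fun hc => ⟨h, Or.inl ⟨_, mem_orb x y h, hc⟩⟩

theorem exists_uw (n : ℕ) : ∃ (u : ℕ) (w : Bool → ℕ), col u = n + 1 ∧
    ∀ b, col (w b) = 0 ∧ (Gam.Adj u (w b) ↔ b = true) := by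
  obtain ⟨u, _, _, hu, _⟩ := gam_ext' ∅ ∅ (n + 1) (by simp) (by simp)
  obtain ⟨w1, _, _, h1, h2, _⟩ := gam_ext' {u} ∅ 0 (by simp) (by simp)
  obtain ⟨w0, _, _, h3, _, h4⟩ := gam_ext' ∅ {u} 0 (by simp) (by simp)
  refine ⟨u, fun b => if b then w1 else w0, hu, fun b => ?_⟩
  cases b
  · exact ⟨h3, by simpa [Gam.adj_comm] using h4⟩
  · exact ⟨h1, by simpa [Gam.adj_comm] using h2⟩

theorem exists_j : ∃ j : ℕ × Bool → O, Function.Injective j ∧
    ∀ c : O → Bool, Nonempty (RG c ≃g Rado) → ∀ n, c (j (n, true)) ≠ c (j (n, false)) := by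
  choose u w hu hw using exists_uw
  have hne : ∀ n b, u n ≠ w n b := by
    intro n b e
    have := (hw n b).1
    rw [← e, hu] at this
    omega
  refine ⟨fun p => orb (u p.1) (w p.1 p.2) (hne _ _), ?_, ?_⟩
  · rintro ⟨n, b⟩ ⟨m, d⟩ h
    have h1 := mem_orb (u m) (w m d) (hne _ _)
    simp only at h
    rw [← h] at h1
    obtain ⟨g, hg, he⟩ := h1
    simp only [Sym2.map_mk, Sym2.eq_iff] at he
    rcases he with ⟨e1, e2⟩ | ⟨e1, _⟩
    · have a1 := hg.1 (u n)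
      have a2 := hg.2 (u n) (w n b)
      rw [e1, hu, hu] at a1
      rw [e1, e2, (hw m d).2, (hw n b).2] at a2
      refine Prod.ext (by simp only; omega) ?_
      revert a2
      cases b <;> cases d <;> simp
    · have a1 := hg.1 (u n)
      rw [e1, hu, (hw m d).1] at a1
      omega
  · rintro c ⟨φ⟩ n hc
    simp only at hc
    obtain ⟨v, _, hv1, hv2, _⟩ := gam_ext' ∅ {u n} (n + 1) (by simp) (by simp)
    have huv : v ≠ u n := by simpa using hv1
    have key : ∀ x z (h : x ≠ z), col x = n + 1 → col z = 0 →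
        c (orb x z h) = c (orb (u n) (w n true) (hne _ _)) := by
      intro x z h hx hz
      by_cases ha : Gam.Adj x z
      · rw [orb_eq x z (u n) (w n true) h (hne _ _) (by rw [hx, hu]) (by rw [hz, (hw n true).1])
          (iff_of_true ha ((hw n true).2.2 rfl))]
      · rw [orb_eq x z (u n) (w n false) h (hne _ _) (by rw [hx, hu])
          (by rw [hz, (hw n false).1]) (iff_of_false ha (by rw [(hw n false).2]; simp)), hc]
    have twin : ∀ z, z ≠ u n → z ≠ v → ((RG c).Adj (u n) z ↔ (RG c).Adj v z) := by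
      intro z h1 h2
      rw [rg_adj c _ _ h1.symm, rg_adj c _ _ h2.symm]
      by_cases hz : col z = 0
      · rw [key _ _ _ (hu n) hz, key _ _ _ hv2 hz]
      · rw [orb_eq (u n) z v z h1.symm h2.symm (by rw [hu, hv2]) rfl]
        refine iff_of_false (fun h => ?_) (fun h => ?_)
        · have := gam_ext.1 _ _ h
          rw [hu] at this
          omega
        · have := gam_ext.1 _ _ h
          rw [hv2] at this
          omega
    obtain ⟨z, z1, z2, _, z3, z4⟩ := rado_ext.2 {φ (u n)} {φ v} 0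
      (by simpa using huv.symm) (by simp)
    obtain ⟨y, rfl⟩ := φ.surjective z
    have y1 : y ≠ u n := by simpa using z1
    have y2 : y ≠ v := by simpa using z2
    have y3 : (RG c).Adj y (u n) := φ.map_adj_iff.1 (z3 _ (by simp))
    have y4 : ¬ (RG c).Adj y v := fun h => z4 _ (by simp) (φ.map_adj_iff.2 h)
    exact y4 ((twin y y1 y2).1 y3.symm).symm

theorem cyl {ι κ : Type} [Fintype κ] (j : κ → ι) (hj : Function.Injective j) (τ : κ → Bool) :
    Measure.infinitePi (fun _ : ι => (PMF.uniformOfFintype Bool).toMeasure)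
      {c | ∀ k, c (j k) = τ k} = (2⁻¹ : ENNReal) ^ Fintype.card κ := by
  classical
  have h1 : {c : ι → Bool | ∀ k, c (j k) = τ k} =
      Set.pi (Finset.univ.image j : Finset ι) (fun i => {v | ∀ k, j k = i → v = τ k}) := by
    ext c
    simp only [Set.mem_ofPred_eq, Set.mem_pi, Finset.coe_image, Finset.coe_univ, Set.image_univ,
      Set.mem_range]
    constructor
    · rintro h _ ⟨k, rfl⟩ l hl
      rw [← hl, h]
    · exact fun h k => h _ ⟨k, rfl⟩ k rfl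
  rw [h1, Measure.infinitePi_pi _ (fun _ _ => MeasurableSet.of_discrete),
    Finset.prod_image (fun a _ b _ h => hj h)]
  have h2 : ∀ k, {v | ∀ l, j l = j k → v = τ l} = {τ k} := by
    intro k
    ext v
    simp only [Set.mem_ofPred_eq, Set.mem_singleton_iff]
    exact ⟨fun h => h k rfl, fun h l hl => by rw [hj hl, h]⟩
  simp only [h2, PMF.toMeasure_apply_singleton _ _ (measurableSet_singleton _),
    PMF.uniformOfFintype_apply, Fintype.card_bool, Finset.prod_const, Finset.card_univ]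
  norm_num

theorem null {ι : Type} (j : ℕ × Bool → ι) (hj : Function.Injective j) :
    Measure.infinitePi (fun _ : ι => (PMF.uniformOfFintype Bool).toMeasure)
      {c | ∀ n, c (j (n, true)) ≠ c (j (n, false))} = 0 := by
  have key : ∀ N : ℕ, Measure.infinitePi (fun _ : ι => (PMF.uniformOfFintype Bool).toMeasure)
      {c | ∀ n, c (j (n, true)) ≠ c (j (n, false))} ≤ (2⁻¹ : ENNReal) ^ N := by
    intro N
    have hsub : {c : ι → Bool | ∀ n, c (j (n, true)) ≠ c (j (n, false))} ⊆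
        ⋃ σ : Fin N → Bool, {c | ∀ k : Fin N × Bool, c (j (k.1, k.2)) = (σ k.1 == k.2)} := by
      intro c hc
      refine Set.mem_iUnion.2 ⟨fun n => c (j (n, true)), ?_⟩
      rintro ⟨n, b⟩
      have := hc n
      cases b
      · revert this
        simp only
        cases c (j (n, true)) <;> cases c (j (n, false)) <;> simp
      · simp
    refine (measure_mono hsub).trans ((measure_iUnion_fintype_le _ _).trans ?_)
    have hinj : Function.Injective (fun k : Fin N × Bool => j (k.1, k.2)) := by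
      intro a b h
      have := hj h
      simp only [Prod.mk.injEq] at this
      exact Prod.ext (Fin.ext this.1) this.2
    simp only [cyl _ hinj, Finset.sum_const, Finset.card_univ, Fintype.card_fun,
      Fintype.card_bool, Fintype.card_fin, Fintype.card_prod, nsmul_eq_mul]
    rw [mul_two, pow_add, ← mul_assoc, Nat.cast_pow, ← mul_pow]
    have : ((2 : ℕ) : ENNReal) * 2⁻¹ = 1 := ENNReal.mul_inv_cancel (by norm_num) (by simp)
    rw [this, one_pow, one_mul]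
  refine le_antisymm ?_ zero_le
  exact ge_of_tendsto' (ENNReal.tendsto_pow_atTop_nhds_zero_of_lt_one (by norm_num)) key

/-- The negation of the preceding statement: For every permutation group G on a countable set: some G-invariant graph is isomorphic to the Rado graph iff flipping an independent fair coin per G-orbit on 2-subsets gives a graph isomorphic to the Rado graph with positive probability. -/
theorem result :
    ¬ (∀ (Ω : Type) [Countable Ω] (G : Subgroup (Equiv.Perm Ω)),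
    (∃ Γ : SimpleGraph Ω, (∀ g ∈ G, ∀ x y : Ω, Γ.Adj (g x) (g y) ↔ Γ.Adj x y) ∧
        Nonempty (Γ ≃g SimpleGraph.fromRel (fun i j : ℕ => Nat.testBit j i = true))) ↔
    (Measure.infinitePi
        (fun _ : {S : Set (Sym2 Ω) // ∃ e : Sym2 Ω, ¬ e.IsDiag ∧
            S = {e' : Sym2 Ω | ∃ g ∈ G, Sym2.map (⇑g) e = e'}} =>
          (PMF.uniformOfFintype Bool).toMeasure))
      {c : {S : Set (Sym2 Ω) // ∃ e : Sym2 Ω, ¬ e.IsDiag ∧
            S = {e' : Sym2 Ω | ∃ g ∈ G, Sym2.map (⇑g) e = e'}} → Bool |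
        Nonempty (SimpleGraph.fromRel
            (fun x y : Ω => ∃ S : {S : Set (Sym2 Ω) // ∃ e : Sym2 Ω, ¬ e.IsDiag ∧
                S = {e' : Sym2 Ω | ∃ g ∈ G, Sym2.map (⇑g) e = e'}},
              s(x, y) ∈ S.1 ∧ c S = true)
          ≃g SimpleGraph.fromRel (fun i j : ℕ => Nat.testBit j i = true))} > 0) := by
  intro h
  obtain ⟨e, _, _, he⟩ := homog Gam Rado (fun _ => 0) gam_ext0 rado_ext ∅ (by simp)
  have h1 := (h ℕ G).1 ⟨Gam, fun g hg => hg.2, ⟨⟨e, fun {a b} => he a b⟩⟩⟩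
  obtain ⟨j, hj, hc⟩ := exists_j
  exact h1.ne' (measure_mono_null (fun c hc' => hc c hc') (null j hj))

end Pool.Agent.S10752
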