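import Pool.Statements.S10758
import Pool.Agent.H7.VecM

set_option autoImplicit false
open Pool Pool.MP_acdd82_co

namespace Pool.Agent.S10758

open Pool.Agent.H7

abbrev W := Fin 3 × Fin 4

/-- primed elements: one of type `0`, two of type `1`, two of type `2`. -/
def pr (x : W) : Bool := x.2 == 0 || (x.1 != 0 && x.2 == 1)

/-- Vectors in `GF(2)^3`: `e i` for unprimed and `e i + (1,1,1)` for primed elements of type `i`
(the cycle matroid of `K₄` with parallel edges). -/
def vec (x : W) : Fin 3 → ZMod 2 :=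
  fun s => if pr x = true then (if s = x.1 then 0 else 1) else (if s = x.1 then 1 else 0)

def adj (x y : W) : Bool := x.1 == y.1 && x.1 != 0 && (pr x != pr y)

/-- Two disjoint four-cycles and four isolated vertices. -/
def Gr : SimpleGraph W where
  Adj x y := adj x y = true
  symm := ⟨by decide +kernel⟩
  loopless := ⟨by decide +kernel⟩

instance : DecidableRel Gr.Adj := fun x y => inferInstanceAs (Decidable (adj x y = true))

theorem deg_le : ∀ v, Gr.degree v ≤ 2 := by decide +kernel
theorem deg_eq : Gr.degree (1, 0) = 2 := by decide +kernel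

theorem maxdeg : Gr.maxDegree = 2 := by
  apply le_antisymm
  · exact Gr.maxDegree_le_of_forall_degree_le 2 deg_le
  · rw [← deg_eq]; exact Gr.degree_le_maxDegree _

def bs : Fin 4 → Fin 3 → W :=
  ![![(1, 0), (1, 2), (2, 2)], ![(0, 0), (0, 1), (2, 0)],
    ![(0, 2), (1, 1), (2, 1)], ![(0, 3), (1, 3), (2, 3)]]

theorem bs_inj : ∀ i j a b, bs i a = bs j b → i = j ∧ a = b := by decide +kernel

theorem bs_ind : ∀ i : Fin 4, ∀ g0 g1 g2 : ZMod 2,
    (∀ s, g0 * vec (bs i 0) s + g1 * vec (bs i 1) s + g2 * vec (bs i 2) s = 0) →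
    g0 = 0 ∧ g1 = 0 ∧ g2 = 0 := by decide +kernel

def wt (x : W) : ℕ := if x.1 = 0 then 1 else 0
def pw (x : W) : ℕ := if pr x = true then 1 else 0

def ind3 (x y z : W) : Prop := ∀ g0 g1 g2 : ZMod 2,
    (∀ s, g0 * vec x s + g1 * vec y s + g2 * vec z s = 0) → g0 = 0 ∧ g1 = 0 ∧ g2 = 0

instance (x y z : W) : Decidable (ind3 x y z) := by unfold ind3; infer_instance

def concl (x y z : W) : Prop :=
  1 ≤ wt x + wt y + wt z ∧ (wt x + wt y + wt z = 1 → (pw x + pw y + pw z) % 2 = 0)

instance (x y z : W) : Decidable (concl x y z) := by unfold concl; infer_instance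

theorem key0 : ∀ x y z : W, (adj x y || adj x z || adj y z) = false → ind3 x y z →
    concl x y z := by
  decide +kernel

theorem key (x y z : W) (h1 : adj x y = false) (h2 : adj x z = false) (h3 : adj y z = false)
    (h : ind3 x y z) :
    1 ≤ wt x + wt y + wt z ∧ (wt x + wt y + wt z = 1 → (pw x + pw y + pw z) % 2 = 0) :=
  key0 x y z (by rw [h1, h2, h3]; rfl) h

theorem sum_wt : ∑ x : W, wt x = 4 := by decide +kernel
theorem sum_pw : ∑ x : W, pw x = 5 := by decide +kernel

theorem li_iff (w : Fin 3 → Fin 3 → ZMod 2) : LinearIndependent (ZMod 2) w ↔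
    ∀ g0 g1 g2 : ZMod 2, (∀ s, g0 * w 0 s + g1 * w 1 s + g2 * w 2 s = 0) →
      g0 = 0 ∧ g1 = 0 ∧ g2 = 0 := by
  rw [Fintype.linearIndependent_iff]
  constructor
  · intro h g0 g1 g2 hs
    have := h ![g0, g1, g2] (by
      funext s
      simpa [Fin.sum_univ_three] using hs s)
    exact ⟨this 0, this 1, this 2⟩
  · intro h g hg i
    have := h (g 0) (g 1) (g 2) (fun s => by
      have := congrFun hg s
      simpa [Fin.sum_univ_three] using this)
    fin_cases i
    · exact this.1
    · exact this.2.1
    · exact this.2.2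

theorem fr3 : Module.finrank (ZMod 2) (Fin 3 → ZMod 2) = 3 := by simp

theorem bs_base (i : Fin 4) : (vecMatroid (ZMod 2) vec).IsBase (Set.range (bs i)) := by
  rw [vecMatroid_isBase_range vec (bs i) (fun a b h => (bs_inj i i a b h).2) fr3, li_iff]
  exact bs_ind i

theorem base_facts (B : Set W) (hB : (vecMatroid (ZMod 2) vec).IsBase B) (hI : Gr.IsIndepSet B) :
    ∃ S : Finset W, (↑S : Set W) = B ∧ S.card = 3 ∧ 1 ≤ ∑ x ∈ S, wt x ∧
      (∑ x ∈ S, wt x = 1 → (∑ x ∈ S, pw x) % 2 = 0) := by
  have h3 : B.ncard = 3 := by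
    rw [hB.ncard_eq_ncard_of_isBase (bs_base 0), ← Set.image_univ,
      Set.ncard_image_of_injective _ (fun a b h => (bs_inj 0 0 a b h).2), Set.ncard_univ]
    simp
  obtain ⟨x, y, z, hxy, hxz, hyz, rfl⟩ := Set.ncard_eq_three.1 h3
  have hinj : Function.Injective ![x, y, z] := by
    intro i j hij
    fin_cases i <;> fin_cases j <;> simp_all [eq_comm]
  have hr : ({x, y, z} : Set W) = Set.range ![x, y, z] := by
    ext t
    simp [eq_comm]
    tauto
  have hB' := hB
  rw [hr, vecMatroid_isBase_range vec _ hinj fr3, li_iff] at hB'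
  have a1 : adj x y = false := by
    have := hI (show x ∈ ({x, y, z} : Set W) by simp) (show y ∈ ({x, y, z} : Set W) by simp) hxy
    simpa [Gr] using this
  have a2 : adj x z = false := by
    have := hI (show x ∈ ({x, y, z} : Set W) by simp) (show z ∈ ({x, y, z} : Set W) by simp) hxz
    simpa [Gr] using this
  have a3 : adj y z = false := by
    have := hI (show y ∈ ({x, y, z} : Set W) by simp) (show z ∈ ({x, y, z} : Set W) by simp) hyz
    simpa [Gr] using this
  have hk := key x y z a1 a2 a3 hB'
  have hx : x ∉ ({y, z} : Finset W) := by simp [hxy, hxz]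
  have hy : y ∉ ({z} : Finset W) := by simp [hyz]
  refine ⟨{x, y, z}, by simp, Finset.card_eq_three.2 ⟨x, y, z, hxy, hxz, hyz, rfl⟩, ?_, ?_⟩
  · rw [Finset.sum_insert hx, Finset.sum_insert hy, Finset.sum_singleton, ← add_assoc]
    exact hk.1
  · rw [Finset.sum_insert hx, Finset.sum_insert hy, Finset.sum_singleton, ← add_assoc,
      Finset.sum_insert hx, Finset.sum_insert hy, Finset.sum_singleton, ← add_assoc]
    exact hk.2

/-- The negation of the preceding statement: For a finite graph G of maximum degree Δ ≥ 2 and a matroid on its vertices, if the matroid has k ≥ 2Δ pairwise disjoint bases, then it has k pairwise disjoint bases each of which is an independent set of G. -/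
theorem result :
    ¬ (∀ (V : Type) [Fintype V] [DecidableEq V] (G : SimpleGraph V) [DecidableRel G.Adj]
      (M : Matroid V), M.E = Set.univ → 2 ≤ G.maxDegree →
      ∀ k : ℕ, 2 * G.maxDegree ≤ k →
        (∃ B : Fin k → Set V, (∀ i, M.IsBase (B i)) ∧
            Pairwise (fun i j => Disjoint (B i) (B j))) →
        ∃ B : Fin k → Set V, (∀ i, M.IsBase (B i) ∧ G.IsIndepSet (B i)) ∧
            Pairwise (fun i j => Disjoint (B i) (B j))) := by
  intro hall
  obtain ⟨B, hB, hd⟩ := hall W Gr (vecMatroid (ZMod 2) vec) rfl (by rw [maxdeg]) 4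
    (by rw [maxdeg]) ⟨fun i => Set.range (bs i), bs_base, by
      intro i j hij
      rw [Set.disjoint_left]
      rintro _ ⟨a, rfl⟩ ⟨b, hb⟩
      exact hij (bs_inj j i b a hb).1.symm⟩
  choose S hS hc hw hp using fun i => base_facts (B i) (hB i).1 (hB i).2
  have hdisj : (↑(Finset.univ : Finset (Fin 4)) : Set (Fin 4)).PairwiseDisjoint S := by
    intro i _ j _ hij
    have : Disjoint (B i) (B j) := hd hij
    rw [← hS i, ← hS j] at this
    exact Finset.disjoint_coe.1 this
  have hU : Finset.univ.biUnion S = Finset.univ := by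
    apply Finset.eq_univ_of_card
    rw [Finset.card_biUnion hdisj]
    simp [hc]
  have e1 := Finset.sum_biUnion (f := wt) hdisj
  have e2 := Finset.sum_biUnion (f := pw) hdisj
  rw [hU, sum_wt, Fin.sum_univ_four] at e1
  rw [hU, sum_pw, Fin.sum_univ_four] at e2
  have w0 := hw 0
  have w1 := hw 1
  have w2 := hw 2
  have w3 := hw 3
  have p0 := hp 0 (by omega)
  have p1 := hp 1 (by omega)
  have p2 := hp 2 (by omega)
  have p3 := hp 3 (by omega)
  omega

end Pool.Agent.S10758
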