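import Pool.Statements.S10760

set_option autoImplicit false
open Pool Pool.MP_ace675_co

namespace Pool.Agent.S10760

def el : List (ℕ × ℕ) := [(0,1),(1,2),(2,3),(3,4),(4,0),(5,1),(5,4),(6,0),(6,2),(7,1),(7,3),(8,2),
  (8,4),(9,3),(9,0),(10,5),(10,6),(10,7),(10,8),(10,9),(11,12)]

def ad (a b : ℕ) : Bool := el.contains (a, b) || el.contains (b, a)

def HH : SimpleGraph (Fin 13) where
  Adj u v := ad u v = true
  symm := ⟨by decide⟩
  loopless := ⟨by decide⟩

def em (a : Fin 11) : Fin 13 := Fin.castLE (by norm_num) a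

lemma cas : ∀ u v : Fin 13, ad u v = true → (∃ a b : Fin 11, u = em a ∧ v = em b ∧ ad a b = true) ∨
    (u = 11 ∧ v = 12) ∨ (u = 12 ∧ v = 11) := by decide +kernel

lemma cas1 : ∀ u : Fin 13, (∃ a : Fin 11, u = em a) ∨ u = 11 ∨ u = 12 := by decide

lemma two_nb : ∀ a : Fin 11, ∃ b b' : Fin 11, b ≠ b' ∧ ad a b = true ∧ ad a b' = true := by
  decide +kernel

lemma col3 : ∀ u0 u1 : Fin 3, u0 ≠ u1 → ∀ u2, u1 ≠ u2 → ∀ u3, u2 ≠ u3 → ∀ u4, u3 ≠ u4 → u4 ≠ u0 →
    ∀ z w0, w0 ≠ u1 → w0 ≠ u4 → z ≠ w0 → ∀ w1, w1 ≠ u0 → w1 ≠ u2 → z ≠ w1 →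
    ∀ w2, w2 ≠ u1 → w2 ≠ u3 → z ≠ w2 → ∀ w3, w3 ≠ u2 → w3 ≠ u4 → z ≠ w3 →
    ∀ w4, w4 ≠ u3 → w4 ≠ u0 → z ≠ w4 → False := by decide +kernel

lemma not3 (p : Fin 11 → Fin 3) (h : ∀ a b : Fin 11, ad a b = true → p a ≠ p b) : False :=
  col3 (p 0) (p 1) (h 0 1 rfl) (p 2) (h 1 2 rfl) (p 3) (h 2 3 rfl) (p 4) (h 3 4 rfl) (h 4 0 rfl)
    (p 10) (p 5) (h 5 1 rfl) (h 5 4 rfl) (h 10 5 rfl) (p 6) (h 6 0 rfl) (h 6 2 rfl) (h 10 6 rfl)
    (p 7) (h 7 1 rfl) (h 7 3 rfl) (h 10 7 rfl) (p 8) (h 8 2 rfl) (h 8 4 rfl) (h 10 8 rfl)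
    (p 9) (h 9 3 rfl) (h 9 0 rfl) (h 10 9 rfl)

lemma conn {α : Type} (p : Fin 11 → α) (h : ∀ a b : Fin 11, ad a b = true → p a = p b) (a : Fin 11) :
    p a = p 0 := by
  have h1 := h 1 0 rfl
  have h4 := h 4 0 rfl
  have h6 := h 6 0 rfl
  have h9 := h 9 0 rfl
  have h2 := (h 2 1 rfl).trans h1
  have h3 := (h 3 4 rfl).trans h4
  have h5 := (h 5 1 rfl).trans h1
  have h7 := (h 7 1 rfl).trans h1
  have h8 := (h 8 4 rfl).trans h4
  have h10 := (h 10 6 rfl).trans h6
  fin_cases a <;> first | rfl | assumption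

def Cp {m : ℕ} (G : SimpleGraph (Fin m)) (f : Fin 11 → Fin m) : Prop :=
  Function.Injective f ∧ ∀ a b : Fin 11, ad a b = true → G.Adj (f a) (f b)

def Mono {m : ℕ} (c : Fin m → Fin m → Bool) (b : Bool) (f : Fin 11 → Fin m) : Prop :=
  ∀ a a' : Fin 11, ad a a' = true → c (f a) (f a') = b

lemma extend {m : ℕ} {G : SimpleGraph (Fin m)} {c : Fin m → Fin m → Bool}
    (hc : ∀ x y, c x y = c y x) {b : Bool} {f : Fin 11 → Fin m} (h1 : Cp G f) (h2 : Mono c b f)
    {x y : Fin m} (hx : ∀ a, f a ≠ x) (hy : ∀ a, f a ≠ y) (hxy : G.Adj x y) (hb : c x y = b) :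
    ∃ g : Fin 13 → Fin m, Function.Injective g ∧
      ∀ u v : Fin 13, HH.Adj u v → G.Adj (g u) (g v) ∧ c (g u) (g v) = b := by
  let g : Fin 13 → Fin m := fun i => if h : i.val < 11 then f ⟨i.val, h⟩ else if i = 11 then x else y
  have g1 : ∀ a, g (em a) = f a := fun a => dif_pos a.2
  have g2 : g 11 = x := rfl
  have g3 : g 12 = y := rfl
  refine ⟨g, fun u v e => ?_, fun u v h => ?_⟩
  · rcases cas1 u with ⟨a, rfl⟩ | rfl | rfl <;> rcases cas1 v with ⟨a', rfl⟩ | rfl | rfl <;>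
      simp only [g1, g2, g3] at e
    · rw [h1.1 e]
    · exact absurd e (hx a)
    · exact absurd e (hy a)
    · exact absurd e.symm (hx a')
    · rfl
    · exact absurd e hxy.ne
    · exact absurd e.symm (hy a')
    · exact absurd e.symm hxy.ne
    · rfl
  · rcases cas u v h with ⟨a, a', rfl, rfl, e⟩ | ⟨rfl, rfl⟩ | ⟨rfl, rfl⟩ <;> simp only [g1, g2, g3]
    · exact ⟨h1.2 a a' e, h2 a a' e⟩
    · exact ⟨hxy, hb⟩
    · exact ⟨hxy.symm, (hc _ _).trans hb⟩

lemma part {m : ℕ} {G : SimpleGraph (Fin m)} (p : Fin m → Fin 3)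
    (h : ∀ f, Cp G f → ¬ ∀ a, p (f a) = p (f 0)) :
    ∃ c : Fin m → Fin m → Bool, (∀ x y, c x y = c y x) ∧ ∀ b f, Cp G f → ¬ Mono c b f := by
  refine ⟨fun x y => decide (p x = p y), fun x y => by simp [eq_comm], fun b f hf hm => ?_⟩
  cases b
  · exact not3 (fun a => p (f a)) fun a a' e => by simpa using hm a a' e
  · exact h f hf (conn (fun a => p (f a)) fun a a' e => by simpa using hm a a' e)

lemma small {m : ℕ} {f g : Fin 11 → Fin m} (hf : Function.Injective f)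
    (h : ∀ a, ∃ a', a' ≠ 0 ∧ g a' = f a) : False := by
  choose k h1 h2 using h
  have hk : Function.Injective k := fun a a' e => hf (by rw [← h2, ← h2, e])
  obtain ⟨a, ha⟩ := Finite.surjective_of_injective hk 0
  exact h1 a ha

lemma equiv {m : ℕ} {G : SimpleGraph (Fin m)} {c : Fin m → Fin m → Bool}
    (hc : ∀ x y, c x y = c y x) (h : ∀ b, ∀ g : Fin 13 → Fin m, Function.Injective g →
      ¬ ∀ u v : Fin 13, HH.Adj u v → G.Adj (g u) (g v) ∧ c (g u) (g v) = b) :
    ∃ c : Fin m → Fin m → Bool, (∀ x y, c x y = c y x) ∧ ∀ b f, Cp G f → ¬ Mono c b f := by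
  classical
  by_cases h0 : ∀ b f, Cp G f → ¬ Mono c b f
  · exact ⟨c, hc, h0⟩
  push Not at h0
  obtain ⟨b, f, hf, hm⟩ := h0
  have out : ∀ {b : Bool} {f : Fin 11 → Fin m}, Cp G f → Mono c b f → ∀ x y, (∀ a, f a ≠ x) →
      (∀ a, f a ≠ y) → G.Adj x y → c x y = !b := by
    intro b f hf hm x y hx hy hxy
    rw [Bool.eq_not_iff]
    intro e
    obtain ⟨g, g1, g2⟩ := extend hc hf hm hx hy hxy e
    exact h b g g1 g2
  obtain ⟨f', hf', k⟩ : ∃ f' : Fin 11 → Fin m, True ∧ ∀ g, Cp G g →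
      ¬ ∀ a, (∀ a', a' ≠ 0 → f a' ≠ g a) ∧ ∀ a', a' ≠ 0 → f' a' ≠ g a := by
    by_cases h1 : ∃ f', Cp G f' ∧ ∀ a a', f a ≠ f' a'
    · obtain ⟨f', hf', hd⟩ := h1
      have hm' : Mono c (!b) f' := fun a a' e =>
        out hf hm _ _ (fun _ => hd _ _) (fun _ => hd _ _) (hf'.2 a a' e)
      refine ⟨f', trivial, fun g hg hh => ?_⟩
      refine not3 (fun a => if g a = f 0 then 0 else if g a = f' 0 then 1 else 2) fun a a' e => ?_
      have hadj := hg.2 a a' e
      have hne := hadj.ne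
      have aux : ∀ a, g a ≠ f 0 → ∀ a', f a' ≠ g a := fun a ha a' => by
        by_cases e : a' = 0
        · rw [e]; exact ha.symm
        · exact (hh a).1 a' e
      have aux' : ∀ a, g a ≠ f' 0 → ∀ a', f' a' ≠ g a := fun a ha a' => by
        by_cases e : a' = 0
        · rw [e]; exact ha.symm
        · exact (hh a).2 a' e
      split_ifs with e1 e2 e3 e4 e5 e6 e7 e8 <;> try decide
      · exact absurd (e1.trans e2.symm) hne
      · exact absurd (e4.trans e6.symm) hne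
      · have a1 := out hf hm _ _ (aux a e1) (aux a' e7) hadj
        have a2 := out hf' hm' _ _ (aux' a e4) (aux' a' e8) hadj
        rw [a1] at a2
        simp at a2
    · refine ⟨fun _ => f 0, trivial, fun g hg hh => h1 ⟨g, hg, fun a a' => ?_⟩⟩
      by_cases e : a = 0
      · rw [e]; exact (hh a').2 1 (by decide)
      · exact (hh a').1 a e
  refine part (fun x => if ∃ a, a ≠ 0 ∧ f a = x then 0 else if ∃ a, a ≠ 0 ∧ f' a = x then 1 else 2)
    fun g hg hh => ?_
  by_cases e1 : ∃ a, a ≠ 0 ∧ f a = g 0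
  · refine small (g := f) hg.1 fun a => ?_
    have := hh a
    rw [if_pos e1] at this
    split_ifs at this with a1 a2
    · exact a1
    · exact absurd this (by decide)
    · exact absurd this (by decide)
  by_cases e2 : ∃ a, a ≠ 0 ∧ f' a = g 0
  · refine small (g := f') hg.1 fun a => ?_
    have := hh a
    rw [if_neg e1, if_pos e2] at this
    split_ifs at this with a1 a2
    · exact absurd this (by decide)
    · exact a2
    · exact absurd this (by decide)
  refine k g hg fun a => ?_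
  have := hh a
  rw [if_neg e1, if_neg e2] at this
  split_ifs at this with a1 a2
  · exact absurd this (by decide)
  · exact absurd this (by decide)
  · exact ⟨fun a' h e => a1 ⟨a', h, e⟩, fun a' h e => a2 ⟨a', h, e⟩⟩

lemma notri : ∀ a b c : Fin 13, ad a b = true → ad a c = true → ad b c = true → False := by
  decide +kernel

lemma nb : ∀ a : Fin 13, ∃ b : Fin 13, ad a b = true := by decide +kernel

lemma nb11 : ∀ b : Fin 13, ad (11 : Fin 13) b = true ↔ b = 12 := by decide +kernel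

/-- The negation of the preceding statement: For every finite triangle-free graph H with minimum degree d ≥ 1, the least minimum degree among 2-colour Ramsey-minimal graphs for H is exactly 2d−1: some minimal one attains it and none goes below. -/
theorem result :
    ¬ (∀ (n : ℕ) (H : SimpleGraph (Fin n)) (d : ℕ), H.CliqueFree 3 → 1 ≤ d →
      (∀ v : Fin n, d ≤ (H.neighborSet v).ncard) →
      (∃ v : Fin n, (H.neighborSet v).ncard = d) →
      (∃ (m : ℕ) (G : SimpleGraph (Fin m)),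
          ((∀ c : Fin m → Fin m → Bool, (∀ x y : Fin m, c x y = c y x) →
              ∃ b : Bool, ∃ f : Fin n → Fin m, Function.Injective f ∧
                ∀ u v : Fin n, H.Adj u v → G.Adj (f u) (f v) ∧ c (f u) (f v) = b) ∧
           (∀ v : Fin m, ∃ w : Fin m, G.Adj v w) ∧
           (∀ G' : SimpleGraph (Fin m), G' < G →
              ¬ (∀ c : Fin m → Fin m → Bool, (∀ x y : Fin m, c x y = c y x) →
                  ∃ b : Bool, ∃ f : Fin n → Fin m, Function.Injective f ∧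
                    ∀ u v : Fin n, H.Adj u v → G'.Adj (f u) (f v) ∧ c (f u) (f v) = b))) ∧
          (∀ v : Fin m, 2 * d - 1 ≤ (G.neighborSet v).ncard) ∧
          (∃ v : Fin m, (G.neighborSet v).ncard = 2 * d - 1)) ∧
      (∀ (m : ℕ) (G : SimpleGraph (Fin m)),
          ((∀ c : Fin m → Fin m → Bool, (∀ x y : Fin m, c x y = c y x) →
              ∃ b : Bool, ∃ f : Fin n → Fin m, Function.Injective f ∧
                ∀ u v : Fin n, H.Adj u v → G.Adj (f u) (f v) ∧ c (f u) (f v) = b) ∧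
           (∀ v : Fin m, ∃ w : Fin m, G.Adj v w) ∧
           (∀ G' : SimpleGraph (Fin m), G' < G →
              ¬ (∀ c : Fin m → Fin m → Bool, (∀ x y : Fin m, c x y = c y x) →
                  ∃ b : Bool, ∃ f : Fin n → Fin m, Function.Injective f ∧
                    ∀ u v : Fin n, H.Adj u v → G'.Adj (f u) (f v) ∧ c (f u) (f v) = b))) →
          ∀ v : Fin m, 2 * d - 1 ≤ (G.neighborSet v).ncard)) := by
  intro h
  obtain ⟨⟨m, G, ⟨h1, -, h2⟩, -, v, hv⟩, -⟩ := h 13 HH 1 (by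
    intro s hs
    obtain ⟨a, b, c, h1, h2, h3, -⟩ := SimpleGraph.is3Clique_iff.1 hs
    exact notri a b c h1 h2 h3) le_rfl (fun v => (Set.ncard_pos).2 (nb v))
    ⟨11, Set.ncard_eq_one.2 ⟨12, Set.ext nb11⟩⟩
  obtain ⟨w, hw⟩ := Set.ncard_eq_one.1 hv
  have hw' : ∀ x, G.Adj v x ↔ x = w := fun x => Set.ext_iff.1 hw x
  have h3 := h2 (G.deleteEdges {s(v, w)}) (lt_of_le_of_ne (G.deleteEdges_le _) fun e => by
    have := (hw' w).2 rfl
    rw [← e] at this
    simp at this)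
  push Not at h3
  obtain ⟨c, hc, h3⟩ := h3
  obtain ⟨c', hc', h4⟩ := equiv (G := G.deleteEdges {s(v, w)}) hc fun b g hg hh => by
    obtain ⟨x, y, a1, a2⟩ := h3 b g hg
    exact a2 (hh x y a1).1 (hh x y a1).2
  obtain ⟨b, g, hg, h5⟩ := h1 c' hc'
  have hi : Function.Injective fun a => g (em a) := fun a a' e => Fin.castLE_injective _ (hg e)
  have hne : ∀ a, g (em a) ≠ v := by
    intro a e
    obtain ⟨x, y, hxy, a1, a2⟩ := two_nb a
    have b1 := (h5 (em a) (em x) a1).1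
    have b2 := (h5 (em a) (em y) a2).1
    rw [e, hw'] at b1 b2
    exact hxy (hi (b1.trans b2.symm))
  refine h4 b (fun a => g (em a)) ⟨hi, fun a a' e => ?_⟩ fun a a' e => (h5 (em a) (em a') e).2
  rw [SimpleGraph.deleteEdges_adj]
  refine ⟨(h5 (em a) (em a') e).1, fun e' => ?_⟩
  rcases Sym2.eq_iff.1 (Set.mem_singleton_iff.1 e') with e' | e'
  · exact hne a e'.1
  · exact hne a' e'.2

end Pool.Agent.S10760
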