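import Pool.Statements.S10770
import Pool.Agent.H27.Charbit

set_option autoImplicit false
open Pool Pool.MP_ad5ca6_co

namespace Pool.Agent.S10770

/-- The negation of the preceding statement: For every positive integer k and every n-vertex digraph with 0/1 adjacency matrix and zero diagonal, if some eigenvalue has modulus at least n/k, then the digraph has a directed cycle of length between 2 and k. -/
theorem result :
    ¬ (∀ (n k : ℕ), 0 < k →
      ∀ (A : Matrix (Fin n) (Fin n) ℂ),
        (∀ i j, A i j = 0 ∨ A i j = 1) →
        (∀ i, A i i = 0) →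
        (∃ μ ∈ spectrum ℂ A, (n : ℝ) / (k : ℝ) ≤ ‖μ‖) →
        ∃ m : ℕ, 2 ≤ m ∧ m ≤ k ∧
          ∃ v : Fin m → Fin n, Function.Injective v ∧
            ∀ i : Fin m, A (v i) (v (finRotate m i)) = 1) := by
  exact Pool.Agent.H27.Charbit.main

end Pool.Agent.S10770
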