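import Pool.Statements.S10780

set_option autoImplicit false
open Pool Pool.MP_ae0825_co

namespace Pool.Agent.S10780

open Finset in
lemma edges {V ι : Type} [Fintype V] [Fintype ι] [DecidableEq ι] (f : V → ι) (H : SimpleGraph V)
    (h : ∀ v w, H.Adj v w ↔ f v ≠ f w) :
    2 * Nat.card H.edgeSet + ∑ i, (univ.filter (fun v => f v = i)).card ^ 2
      = (Fintype.card V) ^ 2 := by
  classical
  have h1 := H.sum_degrees_eq_twice_card_edges
  have h2 : Nat.card H.edgeSet = H.edgeFinset.card := by
    rw [SimpleGraph.edgeFinset_card, Nat.card_eq_fintype_card]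
  have h3 : ∀ v, H.degree v + (univ.filter (fun w => f w = f v)).card = Fintype.card V := by
    intro v
    have e : H.neighborFinset v = univ.filter (fun w => ¬ f w = f v) := by
      ext w; simp [h, eq_comm]
    rw [← SimpleGraph.card_neighborFinset_eq_degree, e, add_comm,
      Finset.card_filter_add_card_filter_not, Finset.card_univ]
  have h4 : ∑ v, (univ.filter (fun w => f w = f v)).card
      = ∑ i, (univ.filter (fun v => f v = i)).card ^ 2 := by
    rw [← Finset.sum_fiberwise' univ f (fun i => (univ.filter (fun w => f w = i)).card)]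
    refine Finset.sum_congr rfl (fun i _ => ?_)
    rw [Finset.sum_const, smul_eq_mul, sq]
  rw [h2, ← h1, ← h4, ← Finset.sum_add_distrib]
  simp [h3, sq]

open Finset in
lemma cnt {V ι κ : Type} [Fintype V] [DecidableEq V] [Fintype ι] [DecidableEq ι] [Fintype κ]
    (f : V → ι) (φ : κ → ι) :
    (Fintype.piFinset (fun v => univ.filter (fun k => φ k = f v))).card
      = ∏ i, (univ.filter (fun k => φ k = i)).card ^ (univ.filter (fun v => f v = i)).card := by
  rw [Fintype.card_piFinset,
    ← Finset.prod_fiberwise' univ f (fun i => (univ.filter (fun k => φ k = i)).card)]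
  refine Finset.prod_congr rfl (fun i _ => ?_)
  rw [Finset.prod_const]

open Finset in
lemma lower {V ι κ : Type} [Fintype V] [DecidableEq V] [Fintype ι] [DecidableEq ι] [Fintype κ]
    (f : V → ι) (φ : κ → ι) (H : SimpleGraph V) (h : ∀ v w, H.Adj v w → f v ≠ f w) :
    ∏ i, (univ.filter (fun k => φ k = i)).card ^ (univ.filter (fun v => f v = i)).card
      ≤ Nat.card (H.Coloring κ) := by
  classical
  rw [← cnt, ← Nat.card_eq_finsetCard]
  haveI : Finite (H.Coloring κ) := Finite.of_injective (fun c : H.Coloring κ => (c : V → κ))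
    DFunLike.coe_injective
  refine Nat.card_le_card_of_injective (fun c => SimpleGraph.Coloring.mk c.1 (fun {v w} hvw e => ?_))
    (fun a b hab => ?_)
  · have hc := Fintype.mem_piFinset.mp c.2
    have a1 := (mem_filter.mp (hc v)).2
    have a2 := (mem_filter.mp (hc w)).2
    exact h v w hvw (by rw [← a1, ← a2, e])
  · exact Subtype.ext (funext (fun v => DFunLike.congr_fun hab v))

open Finset in
lemma upper {V ι κ : Type} [Fintype V] [DecidableEq V] [Fintype ι] [DecidableEq ι] [Fintype κ]
    [DecidableEq κ] [Nonempty ι]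
    (f : V → ι) (H : SimpleGraph V) (h : ∀ v w, f v ≠ f w → H.Adj v w) (B : ℕ)
    (hB : ∀ φ : κ → ι, ∏ i, (univ.filter (fun k => φ k = i)).card ^
      (univ.filter (fun v => f v = i)).card ≤ B) :
    Nat.card (H.Coloring κ) ≤ Fintype.card ι ^ Fintype.card κ * B := by
  classical
  have h1 : Nat.card (H.Coloring κ) ≤ ((univ : Finset (κ → ι)).biUnion
      (fun φ => Fintype.piFinset (fun v => univ.filter (fun k => φ k = f v)))).card := by
    rw [← Nat.card_eq_finsetCard]
    refine Nat.card_le_card_of_injective (fun c => ⟨(c : V → κ), ?_⟩) (fun a b hab => ?_)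
    · rw [mem_biUnion]
      refine ⟨fun k => if hk : ∃ v, c v = k then f hk.choose else Classical.arbitrary ι,
        mem_univ _, Fintype.mem_piFinset.mpr (fun v => mem_filter.mpr ⟨mem_univ _, ?_⟩)⟩
      have hk : ∃ w, c w = c v := ⟨v, rfl⟩
      beta_reduce
      rw [dif_pos hk]
      by_contra hne
      exact c.valid (h _ _ hne) hk.choose_spec
    · exact DFunLike.coe_injective (congrArg Subtype.val hab)
  refine h1.trans ((Finset.card_biUnion_le_card_mul _ _ B (fun φ _ => ?_)).trans ?_)
  · rw [cnt]; exact hB φ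
  · rw [card_univ, Fintype.card_fun]

def fG (v : Fin 5058) : Fin 10 :=
  if v.val < 764 then 0 else if v.val < 1527 then 1 else if v.val < 2290 then 2
  else if v.val < 2683 then 3 else if v.val < 3077 then 4 else if v.val < 3474 then 5
  else if v.val < 3871 then 6 else if v.val < 4268 then 7 else if v.val < 4663 then 8 else 9

def fT (v : Fin 5058) : Fin 9 := ⟨v.val % 9, Nat.mod_lt _ (by norm_num)⟩

def sz : Fin 10 → ℕ := ![764, 763, 763, 393, 394, 397, 397, 397, 395, 395]

lemma fG_card : ∀ i, (Finset.univ.filter (fun v => fG v = i)).card = sz i := by decide +kernel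

lemma fT_card : ∀ i, (Finset.univ.filter (fun v => fT v = i)).card = 562 := by decide +kernel

def ph : Fin 13 → Fin 10 := ![0, 0, 1, 1, 2, 2, 3, 4, 5, 6, 7, 8, 9]

lemma low_val : 9 ^ 13 * 16 ^ 562 <
    ∏ i, (Finset.univ.filter (fun k => ph k = i)).card ^ sz i := by decide +kernel

lemma sq_val : ∑ i, sz i ^ 2 = ∑ _i : Fin 9, 562 ^ 2 := by decide +kernel

lemma prod16 (φ : Fin 13 → Fin 9) :
    ∏ i, (Finset.univ.filter (fun k => φ k = i)).card ≤ 16 := by
  have h1 : ∏ i : Fin 9, 2 * (Finset.univ.filter (fun k => φ k = i)).card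
      ≤ ∏ i : Fin 9, 2 ^ (Finset.univ.filter (fun k => φ k = i)).card := by
    refine Finset.prod_le_prod' (fun i _ => ?_)
    generalize (Finset.univ.filter (fun k => φ k = i)).card = c
    rcases c with _ | c
    · simp
    · have := Nat.lt_two_pow_self (n := c)
      rw [pow_succ]; omega
  rw [Finset.prod_pow_eq_pow_sum, Finset.prod_mul_distrib,
    ← Finset.card_eq_sum_card_fiberwise (f := φ) (s := Finset.univ) (t := Finset.univ)
      (fun _ _ => Finset.mem_coe.mpr (Finset.mem_univ _))] at h1
  simp only [Finset.prod_const, Finset.card_univ, Fintype.card_fin] at h1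
  omega

/-- The negation of the preceding statement: For 2 ≤ r ≤ 9, q ≥ r, n ≥ r: any n-vertex graph with as many edges as the Turán graph T_r(n) but not isomorphic to it has strictly fewer proper q-colorings than T_r(n). -/
theorem result :
    ¬ (∀ r q n : ℕ, 2 ≤ r → r ≤ 9 → r ≤ q → r ≤ n →
      ∀ G : SimpleGraph (Fin n),
        Nat.card G.edgeSet = Nat.card (SimpleGraph.turanGraph n r).edgeSet →
        IsEmpty (G ≃g SimpleGraph.turanGraph n r) →
        Nat.card (G.Coloring (Fin q)) <
          Nat.card ((SimpleGraph.turanGraph n r).Coloring (Fin q))) := by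
  intro H
  let G : SimpleGraph (Fin 5058) := SimpleGraph.comap fG ⊤
  have hG : ∀ v w, G.Adj v w ↔ fG v ≠ fG w := fun v w => Iff.rfl
  have hT : ∀ v w, (SimpleGraph.turanGraph 5058 9).Adj v w ↔ fT v ≠ fT w := by
    intro v w
    simp [SimpleGraph.turanGraph, fT, Fin.ext_iff]
  have e1 := edges fG G hG
  have e2 := edges fT _ hT
  simp only [fG_card, fT_card] at e1 e2
  rw [sq_val] at e1
  have hl := lower fG ph G (fun v w => (hG v w).mp)
  simp only [fG_card] at hl
  have hu := upper (κ := Fin 13) fT _ (fun v w => (hT v w).mpr) (16 ^ 562) (fun φ => by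
    simp only [fT_card]
    rw [Finset.prod_pow]
    exact Nat.pow_le_pow_left (prod16 φ) _)
  simp only [Fintype.card_fin] at hu
  have hlt := lt_of_le_of_lt hu (low_val.trans_le hl)
  have := H 9 13 5058 (by norm_num) le_rfl (by norm_num) (by norm_num) G (by omega) ⟨fun e => by
    haveI : Finite ((SimpleGraph.turanGraph 5058 9).Coloring (Fin 13)) :=
      Finite.of_injective (fun c : (SimpleGraph.turanGraph 5058 9).Coloring (Fin 13) =>
        (c : Fin 5058 → Fin 13)) DFunLike.coe_injective
    refine absurd hlt (not_lt.mpr (Nat.card_le_card_of_injective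
      (fun c : G.Coloring (Fin 13) => (c.comp e.symm.toHom :
        (SimpleGraph.turanGraph 5058 9).Coloring (Fin 13))) (fun a b hab => ?_)))
    refine DFunLike.coe_injective (funext (fun v => ?_))
    have := DFunLike.congr_fun hab (e v)
    simpa using this⟩
  exact absurd hlt (not_lt.mpr this.le)

end Pool.Agent.S10780
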