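import Pool.Statements.S10849
import Pool.Agent.H10.Skel

set_option autoImplicit false
open Pool Pool.MP_b0e7a9_co

namespace Pool.Agent.S10849

/-- For a nondegenerate d-simplex with vertices in the closed unit ball, 0 ≤ k < d, and x in the simplex: if the open ball of radius ρ at x misses every k-face, then ρ ≤ sqrt((d-k)/(d(k+1))). -/
theorem result :
    ∀ (d k : ℕ), 0 < d → k < d →
    ∀ (p : Fin (d + 1) → EuclideanSpace ℝ (Fin d)), AffineIndependent ℝ p →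
    (∀ i, ‖p i‖ ≤ 1) →
    ∀ (x : EuclideanSpace ℝ (Fin d)), x ∈ convexHull ℝ (Set.range p) →
    ∀ ρ : ℝ,
      Disjoint (Metric.ball x ρ)
        (⋃ (s : Finset (Fin (d + 1))) (_ : s.card = k + 1), convexHull ℝ (p '' (s : Set (Fin (d + 1))))) →
      ρ ≤ Real.sqrt (((d : ℝ) - (k : ℝ)) / ((d : ℝ) * ((k : ℝ) + 1))) := by
  intro d k hd hk p _ hp x hx ρ hdis
  classical
  rw [convexHull_range_eq_exists_affineCombination] at hx
  obtain ⟨s, w, hw0, hw1, hx⟩ := hx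
  rw [Finset.affineCombination_eq_linear_combination s p w hw1] at hx
  let w1 : Fin (d + 1) → ℝ := fun i => if i ∈ s then w i else 0
  have h0 : ∀ i ∈ (Finset.univ : Finset (Fin (d + 1))), 0 ≤ w1 i := by
    intro i _
    by_cases h : i ∈ s
    · simp [w1, h, hw0 i h]
    · simp [w1, h]
  have h1 : ∑ i, w1 i = 1 := by
    simp [w1, hw1]
  have hx1 : ∑ i, w1 i • p i = x := by
    rw [← hx]
    simp [w1, ite_smul]
  obtain ⟨n, hn⟩ : ∃ n, d = k + n := ⟨d - k, by omega⟩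
  obtain ⟨t, -, htc, w', h4, h5, h6⟩ := Pool.Agent.H10.Skel.main k n (fun i => p i - x)
    Finset.univ w1 h0 h1 (by simp; omega)
  have hsub : ∀ (t : Finset (Fin (d + 1))) (w : Fin (d + 1) → ℝ), ∑ i ∈ t, w i = 1 →
      ∑ i ∈ t, w i • (p i - x) = ∑ i ∈ t, w i • p i - x := by
    intro t w h
    simp only [smul_sub, Finset.sum_sub_distrib, ← Finset.sum_smul, h, one_smul]
  have hV : ∑ i, w1 i * ‖p i - x‖ ^ 2 ≤ 1 := by
    rw [Pool.Agent.H10.Skel.sum_norm_sub_sq Finset.univ w1 p x h1, hx1,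
      real_inner_self_eq_norm_sq]
    have : ∑ i, w1 i * ‖p i‖ ^ 2 ≤ ∑ i, w1 i := by
      refine Finset.sum_le_sum fun i hi => ?_
      have h2 : ‖p i‖ ^ 2 ≤ 1 := pow_le_one₀ (norm_nonneg _) (hp i)
      nlinarith [h0 i hi]
    nlinarith [sq_nonneg ‖x‖]
  unfold Pool.Agent.H10.Skel.Phi at h6
  rw [hsub _ _ h5, hsub _ _ h1, hx1, sub_self, norm_zero] at h6
  have hcc : Pool.Agent.H10.Skel.cc k n = ((d : ℝ) - (k : ℝ)) / ((d : ℝ) * ((k : ℝ) + 1)) := by
    unfold Pool.Agent.H10.Skel.cc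
    rw [hn]; push_cast; ring
  have hcc0 : 0 ≤ Pool.Agent.H10.Skel.cc k n := by
    unfold Pool.Agent.H10.Skel.cc
    positivity
  have h7 : ‖∑ i ∈ t, w' i • p i - x‖ ^ 2 ≤ Pool.Agent.H10.Skel.cc k n := by
    nlinarith
  have hmem : ∑ i ∈ t, w' i • p i ∈ convexHull ℝ (p '' (t : Set (Fin (d + 1)))) :=
    (convex_convexHull ℝ _).sum_mem h4 h5
      (fun i hi => subset_convexHull ℝ _ ⟨i, hi, rfl⟩)
  have hnot : ∑ i ∈ t, w' i • p i ∉ Metric.ball x ρ := by
    intro hb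
    refine Set.disjoint_left.mp hdis hb ?_
    simp only [Set.mem_iUnion]
    exact ⟨t, htc, hmem⟩
  rw [Metric.mem_ball, dist_eq_norm, not_lt] at hnot
  rw [← hcc]
  exact hnot.trans (Real.le_sqrt_of_sq_le h7)

end Pool.Agent.S10849
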