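import Pool.Statements.S10917
import Pool.Agent.H11.SumDiff

set_option autoImplicit false
open N3e647761
open scoped Pointwise
open Pool Pool.MP_b3aa1a_co

namespace Pool.Agent.S10917

lemma bdd : BddAbove {Real.log (A - A).card / Real.log (A + A).card | A : Finset ℤ} := by
  refine ⟨2, ?_⟩
  rintro _ ⟨A, rfl⟩
  have h0 : 0 ≤ Real.log (A + A).card := Real.log_natCast_nonneg _
  rcases h0.eq_or_lt with h | h
  · rw [← h]; simp
  rw [div_le_iff₀ h]
  rcases A.eq_empty_or_nonempty with rfl | hA
  · simp
  have h1 : (A - A).card ≤ A.card * A.card := Finset.card_sub_le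
  have h2 : A.card ≤ (A + A).card := Finset.card_le_card_add_right hA
  have h3 : (A - A).card ≤ (A + A).card ^ 2 := by nlinarith
  have h4 : (0 : ℝ) < (A - A).card := by exact_mod_cast (hA.sub hA).card_pos
  calc Real.log (A - A).card ≤ Real.log (((A + A).card : ℝ) ^ 2) :=
        Real.log_le_log h4 (by exact_mod_cast h3)
    _ = 2 * Real.log (A + A).card := by rw [Real.log_pow]; norm_num

lemma big (ρ : ℝ) (hρ : 1 < ρ) : ∃ d : ℕ, ((18 : ℝ) * d + 1) ^ 4 < ρ ^ d := by
  have h := tendsto_pow_const_div_const_pow_of_one_lt 4 hρ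
  have h1 := h.eventually (gt_mem_nhds (show (0 : ℝ) < 1 / 19 ^ 4 by norm_num))
  obtain ⟨d, hd, hd1⟩ := (h1.and (Filter.eventually_ge_atTop 1)).exists
  refine ⟨d, ?_⟩
  have hp : 0 < ρ ^ d := by positivity
  rw [div_lt_div_iff₀ hp (by norm_num)] at hd
  have h2 : (1 : ℝ) ≤ d := by exact_mod_cast hd1
  calc ((18 : ℝ) * d + 1) ^ 4 ≤ (19 * d) ^ 4 := by gcongr; linarith
    _ = (d : ℝ) ^ 4 * 19 ^ 4 := by ring
    _ < ρ ^ d := by linarith

/-- log(1+√2)/log 2 < sSup_{A : Finset ℤ} log∣A−A∣/log∣A+A∣ (degenerate A give value 0, harmless since sup ≥ 1 and the set is bounded by 4/3) -/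
theorem result :
    (Real.log (1 + Real.sqrt 2) / Real.log 2) < C3e := by
  have l2 : 0 < Real.log 2 := Real.log_pos (by norm_num)
  set α := Real.log (1 + Real.sqrt 2) / Real.log 2 with hα
  have hs : 1 + Real.sqrt 2 ≤ 169 / 70 := by
    have : Real.sqrt 2 ≤ 99 / 70 := Real.sqrt_le_iff.2 ⟨by norm_num, by norm_num⟩
    linarith
  have hs0 : (1 : ℝ) ≤ 1 + Real.sqrt 2 := by linarith [Real.sqrt_nonneg 2]
  have a0 : 0 ≤ α := div_nonneg (Real.log_nonneg hs0) l2.le
  have a1 : α * Real.log 2 ≤ Real.log (169 / 70) := by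
    rw [hα, div_mul_cancel₀ _ l2.ne']
    exact Real.log_le_log (by linarith) hs
  have a2 : 81 * Real.log (169 / 70) ≤ 103 * Real.log 2 := by
    have := Real.log_le_log (x := (169 / 70 : ℝ) ^ 81) (y := 2 ^ 103) (by positivity) (by norm_num)
    simpa [Real.log_pow] using this
  have a3 : α ≤ 103 / 81 := by
    by_contra hn
    push Not at hn
    nlinarith
  have a4 : 103 * Real.log (511 / 128) < 81 * Real.log (58149 / 10000) := by
    have := Real.log_lt_log (x := (511 / 128 : ℝ) ^ 103) (y := (58149 / 10000) ^ 81)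
      (by positivity) (by norm_num)
    simpa [Real.log_pow] using this
  have a5 : 0 < Real.log (511 / 128) := Real.log_pos (by norm_num)
  set γ := Real.log (58149 / 10000) - α * Real.log (511 / 128) with hγ
  have g0 : 0 < γ := by nlinarith
  obtain ⟨d, hd⟩ := big (Real.exp (2 * γ)) (Real.one_lt_exp_iff.2 (by linarith))
  obtain ⟨B, K, h1, h2⟩ := Pool.Agent.H11.SumDiff.main d
  have hX : (0 : ℝ) < (B - B).card := by
    by_contra hn
    have h0 : ((B - B).card : ℝ) = 0 := le_antisymm (not_lt.1 hn) (by positivity)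
    rw [h0] at h1
    have : (0 : ℝ) < (58149 / 10000 : ℝ) ^ (2 * d) := by positivity
    simp at h1
    linarith
  have hB : B.Nonempty := by
    rcases B.eq_empty_or_nonempty with rfl | h
    · simp at hX
    · exact h
  have hY : (0 : ℝ) < (B + B).card := by exact_mod_cast (hB.add hB).card_pos
  have e1 := Real.log_le_log (by positivity) h1
  have e2 := Real.log_le_log hY h2
  have e3 := Real.log_lt_log (by positivity) hd
  rw [Real.log_mul (by positivity) (by positivity), Real.log_mul hX.ne' (by positivity),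
    Real.log_pow, Real.log_pow, Real.log_pow] at e1
  rw [Real.log_mul (by positivity) (by positivity), Real.log_pow, Real.log_pow] at e2
  rw [Real.log_pow, Real.log_pow, Real.log_exp] at e3
  have e4 : Real.log (70 / 169) = - Real.log (169 / 70) := by
    rw [← Real.log_inv]; norm_num
  rw [e4] at e1
  push_cast at e1 e2 e3
  have hK : (0 : ℝ) ≤ K := by positivity
  have key : α * Real.log (B + B).card < Real.log (B - B).card := by
    have f1 := mul_le_mul_of_nonneg_left e2 a0
    have f2 := mul_le_mul_of_nonneg_left a1 hK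
    nlinarith
  have hY1 : 0 < Real.log (B + B).card := by
    rcases (Real.log_natCast_nonneg (B + B).card).eq_or_lt with h | h
    · exfalso
      rw [← h, mul_zero] at key
      have hx1 : (1 : ℝ) < (B - B).card := by
        by_contra hn
        have := Real.log_nonpos hX.le (not_lt.1 hn)
        linarith
      have hx2 : 1 < (B - B).card := by exact_mod_cast hx1
      have h3 : (B - B).card ≤ B.card * B.card := Finset.card_sub_le
      have h4 : B.card ≤ (B + B).card := Finset.card_le_card_add_right hB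
      have h5 : 1 < (B + B).card := by nlinarith
      have := Real.log_pos (x := ((B + B).card : ℝ)) (by exact_mod_cast h5)
      linarith
    · exact h
  refine lt_of_lt_of_le ?_ (le_csSup bdd ⟨B, rfl⟩)
  rwa [lt_div_iff₀ hY1]

end Pool.Agent.S10917
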