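import Pool.Statements.S10936
-- import your own Pool.Agent.* helpers here

set_option autoImplicit false
open Pool Pool.MP_b4c394_co

namespace Pool.Agent.S10936

abbrev FS := Finset (Fin 8)

def BM : Finset FS := {{0, 2, 4, 5}, {0, 1, 4, 6}, {0, 3, 5, 6}, {1, 3, 4, 7},
  {1, 2, 5, 7}, {2, 3, 6, 7}, {4, 5, 6, 7}}
def BN : Finset FS := {{0, 2, 4, 5}, {0, 1, 4, 6}, {0, 3, 5, 6}, {1, 2, 3, 7},
  {1, 4, 5, 7}, {3, 4, 6, 7}, {2, 5, 6, 7}}

def Ind (B : Finset FS) (I : FS) : Prop := I.card ≤ 4 ∧ I ∉ B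

def Good (B : Finset FS) : Prop :=
  (∀ X ∈ B, X.card = 4) ∧ ∀ X ∈ B, ∀ Y ∈ B, X ≠ Y → (X ∩ Y).card ≤ 2

theorem goodM : Good BM := by unfold Good; decide +kernel
theorem goodN : Good BN := by unfold Good; decide +kernel

theorem aug (B : Finset FS) (hB : Good B) ⦃I J : FS⦄ (_ : Ind B I) (hJ : Ind B J)
    (h : I.card < J.card) : ∃ e ∈ J, e ∉ I ∧ Ind B (insert e I) := by
  obtain ⟨e, heJ, heI⟩ := Finset.exists_mem_notMem_of_card_lt_card h
  have hJ4 := hJ.1
  by_contra hc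
  have hall : ∀ x ∈ J, x ∉ I → insert x I ∈ B := by
    intro x hx hxI
    by_contra hn
    exact hc ⟨x, hx, hxI, by rw [Finset.card_insert_of_notMem hxI]; omega, hn⟩
  have he := hall e heJ heI
  have hc4 := hB.1 _ he
  have hsub : J ⊆ insert e I := by
    intro x hx
    by_cases hxI : x ∈ I
    · exact Finset.mem_insert_of_mem hxI
    · have hx' := hall x hx hxI
      by_cases hne : insert x I = insert e I
      · rw [← hne]; exact Finset.mem_insert_self _ _
      · have h2 := hB.2 _ hx' _ he hne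
        have h3 : I ⊆ insert x I ∩ insert e I :=
          Finset.subset_inter (Finset.subset_insert _ _) (Finset.subset_insert _ _)
        have h4 := Finset.card_le_card h3
        rw [Finset.card_insert_of_notMem heI] at hc4
        omega
  have hE : J = insert e I := Finset.eq_of_subset_of_card_le hsub (by
    rw [Finset.card_insert_of_notMem heI]; omega)
  exact hJ.2 (hE ▸ he)

theorem sub (B : Finset FS) (hB : Good B) ⦃I J : FS⦄ (hJ : Ind B J) (h : I ⊆ J) : Ind B I := by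
  have h1 := Finset.card_le_card h
  have h2 := hJ.1
  refine ⟨by omega, fun hI => ?_⟩
  have h3 := hB.1 _ hI
  have : I = J := Finset.eq_of_subset_of_card_le h (by omega)
  exact hJ.2 (this ▸ hI)

noncomputable def mat (B : Finset FS) (hB : Good B) : Matroid (Fin 8) :=
  (IndepMatroid.ofFinset Set.univ (Ind B)
    ⟨by simp, fun h => by have := hB.1 _ h; simp at this⟩ (sub B hB) (aug B hB)
    (fun _ _ => Set.subset_univ _)).matroid

theorem mat_E (B : Finset FS) (hB : Good B) : (mat B hB).E = Set.univ := rfl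

theorem mat_ind (B : Finset FS) (hB : Good B) (I : FS) :
    (mat B hB).Indep (I : Set (Fin 8)) ↔ Ind B I := by
  simp [mat]

theorem single (B : Finset FS) (hB : Good B) (e : Fin 8) : (mat B hB).Indep {e} := by
  rw [← Finset.coe_singleton, mat_ind]
  exact ⟨by simp, fun h => by have := hB.1 _ h; simp at this⟩

theorem blk (p r : Fin 8 → Fin 8) (hr : ∀ x, r (p x) = x) (e : Fin 8) (hpe : p e = e) (b : Bool)
    (h1 : ∀ X ∈ BM, decide (e ∈ X) = b → X.image p ∈ BN)
    (h2 : ∀ Y ∈ BN, decide (e ∈ Y) = b → Y.image r ∈ BM) (I : FS) (hI : decide (e ∈ I) = b) :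
    Ind BM I ↔ Ind BN (I.image p) := by
  have hp : Function.Injective p := Function.LeftInverse.injective hr
  have hm : e ∈ I.image p ↔ e ∈ I := by
    conv_lhs => rw [← hpe]
    exact hp.mem_finset_image
  unfold Ind
  rw [Finset.card_image_of_injective _ hp]
  refine and_congr_right fun _ => not_congr ⟨fun h => h1 I h hI, fun h => ?_⟩
  have h3 := h2 _ h (by rw [← hI]; exact decide_eq_decide.2 hm)
  rw [Finset.image_image, show r ∘ p = id from funext hr, Finset.image_id] at h3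
  exact h3

theorem bij (p r : Fin 8 → Fin 8) (hr : ∀ x, r (p x) = x) (e : Fin 8) (hpe : p e = e) :
    Set.BijOn p (Set.univ \ {e}) (Set.univ \ {e}) := by
  have hp : Function.Injective p := Function.LeftInverse.injective hr
  have hs : Function.Surjective p := Finite.surjective_of_injective hp
  refine ⟨fun x hx => ⟨trivial, fun h => hx.2 (hp ((Set.mem_singleton_iff.1 h).trans hpe.symm))⟩,
    hp.injOn, fun y hy => ?_⟩
  obtain ⟨x, rfl⟩ := hs y
  exact ⟨x, ⟨trivial, fun h => hy.2 (by rw [Set.mem_singleton_iff.1 h, hpe]; rfl)⟩, rfl⟩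

def pD : Fin 8 → Fin 8 → Fin 8 := ![![0, 1, 2, 5, 4, 3, 6, 7],
  ![0, 1, 4, 3, 2, 5, 6, 7],
  ![0, 1, 2, 5, 4, 3, 6, 7],
  ![0, 6, 2, 3, 4, 5, 1, 7],
  ![0, 1, 2, 5, 4, 3, 6, 7],
  ![0, 4, 2, 3, 6, 5, 1, 7],
  ![0, 1, 4, 3, 2, 5, 6, 7],
  ![0, 1, 2, 3, 4, 5, 6, 7]]

def rD : Fin 8 → Fin 8 → Fin 8 := ![![0, 1, 2, 5, 4, 3, 6, 7],
  ![0, 1, 4, 3, 2, 5, 6, 7],
  ![0, 1, 2, 5, 4, 3, 6, 7],
  ![0, 6, 2, 3, 4, 5, 1, 7],
  ![0, 1, 2, 5, 4, 3, 6, 7],
  ![0, 6, 2, 3, 1, 5, 4, 7],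
  ![0, 1, 4, 3, 2, 5, 6, 7],
  ![0, 1, 2, 3, 4, 5, 6, 7]]

def pC : Fin 8 → Fin 8 → Fin 8 := ![![0, 1, 2, 3, 4, 5, 6, 7],
  ![0, 1, 2, 5, 4, 3, 6, 7],
  ![0, 6, 2, 1, 4, 5, 3, 7],
  ![0, 1, 4, 3, 2, 5, 6, 7],
  ![0, 6, 2, 3, 4, 5, 1, 7],
  ![0, 1, 4, 3, 2, 5, 6, 7],
  ![0, 1, 2, 5, 4, 3, 6, 7],
  ![0, 1, 2, 5, 4, 3, 6, 7]]

def rC : Fin 8 → Fin 8 → Fin 8 := ![![0, 1, 2, 3, 4, 5, 6, 7],
  ![0, 1, 2, 5, 4, 3, 6, 7],
  ![0, 3, 2, 6, 4, 5, 1, 7],
  ![0, 1, 4, 3, 2, 5, 6, 7],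
  ![0, 6, 2, 3, 4, 5, 1, 7],
  ![0, 1, 4, 3, 2, 5, 6, 7],
  ![0, 1, 2, 5, 4, 3, 6, 7],
  ![0, 1, 2, 5, 4, 3, 6, 7]]

theorem chkD : ∀ e, (∀ x, rD e (pD e x) = x) ∧ pD e e = e ∧
    (∀ X ∈ BM, decide (e ∈ X) = false → X.image (pD e) ∈ BN) ∧
    (∀ Y ∈ BN, decide (e ∈ Y) = false → Y.image (rD e) ∈ BM) := by decide +kernel

theorem chkC : ∀ e, (∀ x, rC e (pC e x) = x) ∧ pC e e = e ∧
    (∀ X ∈ BM, decide (e ∈ X) = true → X.image (pC e) ∈ BN) ∧
    (∀ Y ∈ BN, decide (e ∈ Y) = true → Y.image (rC e) ∈ BM) := by decide +kernel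

set_option synthInstance.maxSize 4000 in
theorem noiso : ∀ a c e f : Fin 8, ({a, c, e, f} : FS) ∈ BN → ∀ b g : Fin 8, ({a, b, e, g} : FS) ∈ BN →
    ∀ d : Fin 8, ({a, d, f, g} : FS) ∈ BN → ∀ h : Fin 8, ({b, d, e, h} : FS) ∈ BN →
    ({b, c, f, h} : FS) ∈ BN → ({c, d, g, h} : FS) ∈ BN → ({e, f, g, h} : FS) ∈ BN → False := by
  decide +kernel

/-- The negation of the preceding statement: Every finite matroid M with at least two elements is minor reconstructible: any matroid N on the same ground set with N\e isomorphic to M\e and N/e isomorphic to M/e for every element e is isomorphic to M. -/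
theorem result :
    ¬ (∀ (α : Type) (M N : Matroid α), M.Finite → N.E = M.E → 2 ≤ M.E.ncard →
      (∀ e ∈ M.E,
        (∃ f : α → α, Set.BijOn f (M.delete {e}).E (N.delete {e}).E ∧
          ∀ I ⊆ (M.delete {e}).E, ((M.delete {e}).Indep I ↔ (N.delete {e}).Indep (f '' I))) ∧
        (∃ f : α → α, Set.BijOn f (M.contract {e}).E (N.contract {e}).E ∧
          ∀ I ⊆ (M.contract {e}).E, ((M.contract {e}).Indep I ↔ (N.contract {e}).Indep (f '' I)))) →
      ∃ f : α → α, Set.BijOn f M.E N.E ∧ ∀ I ⊆ M.E, (M.Indep I ↔ N.Indep (f '' I))) := by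
  intro H
  obtain ⟨f, hf, hI⟩ := H (Fin 8) (mat BM goodM) (mat BN goodN) ⟨Set.toFinite _⟩ rfl
    (by rw [mat_E, Set.ncard_univ]; simp) (by
      intro e _
      constructor
      · obtain ⟨h1, h2, h3, h4⟩ := chkD e
        refine ⟨pD e, bij _ _ h1 e h2, fun I hI => ?_⟩
        lift I to FS using Set.toFinite I
        have he : e ∉ I := fun h => (hI (Finset.mem_coe.2 h)).2 rfl
        have hb := (bij _ _ h1 e h2).1
        rw [Matroid.delete_indep_iff, Matroid.delete_indep_iff, ← Finset.coe_image, mat_ind, mat_ind,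
          blk _ _ h1 e h2 false h3 h4 I (by simpa using he)]
        refine and_congr_right fun _ => iff_of_true (by simpa using he) ?_
        rw [Set.disjoint_singleton_right, Finset.coe_image]
        rintro ⟨x, hx, hxe⟩
        exact (hb (hI hx)).2 hxe
      · obtain ⟨h1, h2, h3, h4⟩ := chkC e
        refine ⟨pC e, bij _ _ h1 e h2, fun I hI => ?_⟩
        lift I to FS using Set.toFinite I
        have he : e ∉ I := fun h => (hI (Finset.mem_coe.2 h)).2 rfl
        have hb := (bij _ _ h1 e h2).1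
        have hk := blk _ _ h1 e h2 true h3 h4 (insert e I) (by simp)
        rw [Finset.image_insert, h2] at hk
        rw [(single _ _ e).contract_indep_iff, (single _ _ e).contract_indep_iff, Set.union_singleton,
          Set.union_singleton, ← Finset.coe_image, ← Finset.coe_insert, ← Finset.coe_insert, mat_ind,
          mat_ind, hk]
        refine and_congr_left fun _ => iff_of_true (by simpa using he) ?_
        rw [Set.disjoint_singleton_right, Finset.coe_image]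
        rintro ⟨x, hx, hxe⟩
        exact (hb (hI hx)).2 hxe)
  have hp : Function.Injective f := Set.injOn_univ.1 hf.2.1
  have key : ∀ X ∈ BM, X.image f ∈ BN := by
    intro X hX
    have h := hI X (Set.subset_univ _)
    rw [← Finset.coe_image, mat_ind, mat_ind] at h
    by_contra hn
    refine (h.2 ⟨?_, hn⟩).2 hX
    rw [Finset.card_image_of_injective _ hp, goodM.1 X hX]
  have k : ∀ a b c d : Fin 8, ({a, b, c, d} : FS) ∈ BM → ({f a, f b, f c, f d} : FS) ∈ BN := by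
    intro a b c d h
    have := key _ h
    rwa [Finset.image_insert, Finset.image_insert, Finset.image_insert, Finset.image_singleton] at this
  exact noiso _ _ _ _ (k 0 2 4 5 (by decide)) _ _ (k 0 1 4 6 (by decide)) _ (k 0 3 5 6 (by decide)) _
    (k 1 3 4 7 (by decide)) (k 1 2 5 7 (by decide)) (k 2 3 6 7 (by decide)) (k 4 5 6 7 (by decide))

end Pool.Agent.S10936
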