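import Pool.Statements.S10980
import Pool.Agent.H29.Corona

set_option autoImplicit false
open Pool Pool.MP_b6d645_co

namespace Pool.Agent.S10980

theorem result :
    ¬ (∀ (n : ℕ) (G : SimpleGraph (Fin n)),
      (∀ v : Fin n, ∃ w : Fin n, G.Adj v w) →
      (∀ s : Finset (Fin n),
        Maximal (fun t : Finset (Fin n) => G.IsIndepSet (t : Set (Fin n))) s →
          2 * s.card = n) →
      ∃ m : ℕ,
        (∀ i : ℕ, i < m →
          {s : Finset (Fin n) | G.IsIndepSet (s : Set (Fin n)) ∧ s.card = i}.ncard ≤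
          {s : Finset (Fin n) | G.IsIndepSet (s : Set (Fin n)) ∧ s.card = i + 1}.ncard) ∧
        (∀ i : ℕ, m ≤ i →
          {s : Finset (Fin n) | G.IsIndepSet (s : Set (Fin n)) ∧ s.card = i + 1}.ncard ≤
          {s : Finset (Fin n) | G.IsIndepSet (s : Set (Fin n)) ∧ s.card = i}.ncard)) := by
  intro h
  classical
  have hd := Pool.Agent.H29.Corona.dip
  set G := Pool.Agent.H29.Corona.cor (Pool.Agent.H29.Corona.jn 707 160 (9 + 1)) with hG
  let e := (Fintype.equivFin ((Fin 707 ⊕ (Fin 160 × Fin (9 + 1))) × Bool)).symm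
  have hind : ∀ s : Finset (Fin (Fintype.card ((Fin 707 ⊕ (Fin 160 × Fin (9 + 1))) × Bool))),
      (G.comap e).IsIndepSet (s : Set _) ↔ G.IsIndepSet ((s.map e.toEmbedding : Finset _) : Set _) := by
    intro s
    constructor
    · intro hs p hp q hq hne hadj
      simp only [Finset.coe_map, Equiv.coe_toEmbedding, Set.mem_image, Finset.mem_coe] at hp hq
      obtain ⟨u, hu, rfl⟩ := hp
      obtain ⟨v, hv, rfl⟩ := hq
      exact hs (Finset.mem_coe.2 hu) (Finset.mem_coe.2 hv) (fun h => hne (by rw [h])) hadj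
    · intro hs p hp q hq hne hadj
      exact hs (Finset.mem_coe.2 (Finset.mem_map_of_mem _ hp))
        (Finset.mem_coe.2 (Finset.mem_map_of_mem _ hq)) (fun h => hne (e.injective h)) hadj
  have hcnt : ∀ i, {s : Finset (Fin (Fintype.card ((Fin 707 ⊕ (Fin 160 × Fin (9 + 1))) × Bool))) |
      (G.comap e).IsIndepSet (s : Set _) ∧ s.card = i}.ncard = Pool.Agent.H29.Corona.cnt G i := by
    intro i
    apply Set.ncard_congr (fun s _ => s.map e.toEmbedding)
    · intro s hs
      exact ⟨(hind s).1 hs.1, by rw [Finset.card_map]; exact hs.2⟩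
    · intro s t _ _ hst
      exact Finset.map_injective _ hst
    · intro t ht
      have h1 : (t.map e.symm.toEmbedding).map e.toEmbedding = t := by
        ext x; simp
      refine ⟨t.map e.symm.toEmbedding, ⟨(hind _).2 (by rw [h1]; exact ht.1), ?_⟩, h1⟩
      rw [Finset.card_map]; exact ht.2
  obtain ⟨m, h1, h2⟩ := h _ (G.comap e)
    (fun v => by
      obtain ⟨w, hw⟩ := Pool.Agent.H29.Corona.cor_noiso _ (e v)
      exact ⟨e.symm w, by simpa using hw⟩)
    (fun s hs => by
      have h3 := Pool.Agent.H29.Corona.cor_max _ (s.map e.toEmbedding) ((hind s).1 hs.1) (by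
        intro v hv hi
        have h4 : (insert (e.symm v) s).map e.toEmbedding = insert v (s.map e.toEmbedding) := by
          simp
        have h5 : (G.comap e).IsIndepSet ((insert (e.symm v) s : Finset _) : Set _) := by
          rw [hind, h4]; simpa using hi
        have h6 := hs.2 h5 (Finset.subset_insert _ _) (Finset.mem_insert_self _ _)
        apply hv
        rw [Finset.mem_map]
        exact ⟨_, h6, by simp⟩)
      rw [Finset.card_map] at h3
      rw [h3]; simp)
  simp only [hcnt] at h1 h2
  by_cases hm : 1247 < m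
  · have := h1 1247 hm
    change Pool.Agent.H29.Corona.cnt G 1247 ≤ Pool.Agent.H29.Corona.cnt G 1248 at this
    omega
  · have := h2 1248 (by omega)
    change Pool.Agent.H29.Corona.cnt G 1249 ≤ Pool.Agent.H29.Corona.cnt G 1248 at this
    omega

end Pool.Agent.S10980
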