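import Pool.Statements.S11006
import Pool.Agent.H11.Birk

set_option autoImplicit false
open scoped Pointwise
open Pool Pool.MP_b7cbb2_co

namespace Pool.Agent.S11006

open Pool.Agent.H11.Birk

def vv : Fin 6 → Fin 5 → ℤ := ![![1, 0, 0, 0, 0], ![0, 1, 0, 0, 0], ![0, 0, 1, 0, 0],
  ![1, 0, 0, 1, 0], ![0, 1, 0, 0, 1], ![0, 0, 1, -1, -1]]

def VV : Finset (Fin 5 → ℤ) := Finset.univ.image vv

def cst (v : Fin 5 → ℤ) : Fin 5 → ℝ := fun j => ((v j : ℤ) : ℝ)

def PP : Set (Fin 5 → ℝ) := convexHull ℝ (cst '' (VV : Set (Fin 5 → ℤ)))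

def HR : Set (Fin 5 → ℝ) := {x | x 0 + x 1 + x 2 = 1 ∧ 0 ≤ x 0 ∧ 0 ≤ x 1 ∧ 0 ≤ x 2 ∧
  0 ≤ x 0 - x 3 ∧ 0 ≤ x 1 - x 4 ∧ 0 ≤ x 2 + x 3 ∧ 0 ≤ x 2 + x 4 ∧ 0 ≤ x 1 - x 4 + x 3 ∧
  0 ≤ x 0 - x 3 + x 4}

theorem vmem (i : Fin 6) : cst (vv i) ∈ PP :=
  subset_convexHull ℝ _ ⟨vv i, by simp [VV], rfl⟩

theorem PP_sub : PP ⊆ HR := by
  apply convexHull_min
  · rintro _ ⟨v, hv, rfl⟩
    simp only [VV, Finset.coe_image, Finset.coe_univ, Set.image_univ, Set.mem_range] at hv
    obtain ⟨i, rfl⟩ := hv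
    fin_cases i <;> simp [HR, cst, vv]
  · rintro x ⟨h0, h1, h2, h3, h4, h5, h6, h7, h8, h9⟩ y ⟨k0, k1, k2, k3, k4, k5, k6, k7, k8, k9⟩
      a b ha hb hab
    simp only [HR, Set.mem_ofPred_eq, Pi.add_apply, Pi.smul_apply, smul_eq_mul]
    refine ⟨by linear_combination a * h0 + b * k0 + hab, ?_, ?_, ?_, ?_, ?_, ?_, ?_, ?_, ?_⟩
    · linarith [mul_nonneg ha h1, mul_nonneg hb k1]
    · linarith [mul_nonneg ha h2, mul_nonneg hb k2]
    · linarith [mul_nonneg ha h3, mul_nonneg hb k3]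
    · linarith [mul_nonneg ha h4, mul_nonneg hb k4]
    · linarith [mul_nonneg ha h5, mul_nonneg hb k5]
    · linarith [mul_nonneg ha h6, mul_nonneg hb k6]
    · linarith [mul_nonneg ha h7, mul_nonneg hb k7]
    · linarith [mul_nonneg ha h8, mul_nonneg hb k8]
    · linarith [mul_nonneg ha h9, mul_nonneg hb k9]

theorem mem_iff (m : ℕ) (x : Fin 5 → ℤ) : cst x ∈ (m : ℝ) • PP ↔ Ineq m x := by
  constructor
  · rintro ⟨p, hp, hx⟩
    obtain ⟨h0, h1, h2, h3, h4, h5, h6, h7, h8, h9⟩ := PP_sub hp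
    have e : ∀ j, (m : ℝ) * p j = (x j : ℝ) := fun j => congrFun hx j
    have hm : (0 : ℝ) ≤ m := Nat.cast_nonneg m
    have e0 := e 0
    have e1 := e 1
    have e2 := e 2
    have e3 := e 3
    have e4 := e 4
    refine ⟨?_, ?_, ?_, ?_, ?_, ?_, ?_, ?_, ?_, ?_⟩
    · have : (x 0 : ℝ) + x 1 + x 2 = m := by linear_combination m * h0 - e0 - e1 - e2
      exact_mod_cast this
    · have : (0 : ℝ) ≤ x 0 := by linarith [mul_nonneg hm h1]
      exact_mod_cast this
    · have : (0 : ℝ) ≤ x 1 := by linarith [mul_nonneg hm h2]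
      exact_mod_cast this
    · have : (0 : ℝ) ≤ x 2 := by linarith [mul_nonneg hm h3]
      exact_mod_cast this
    · have : (0 : ℝ) ≤ x 0 - x 3 := by linarith [mul_nonneg hm h4]
      exact_mod_cast this
    · have : (0 : ℝ) ≤ x 1 - x 4 := by linarith [mul_nonneg hm h5]
      exact_mod_cast this
    · have : (0 : ℝ) ≤ x 2 + x 3 := by linarith [mul_nonneg hm h6]
      exact_mod_cast this
    · have : (0 : ℝ) ≤ x 2 + x 4 := by linarith [mul_nonneg hm h7]
      exact_mod_cast this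
    · have : (0 : ℝ) ≤ x 1 - x 4 + x 3 := by linarith [mul_nonneg hm h8]
      exact_mod_cast this
    · have : (0 : ℝ) ≤ x 0 - x 3 + x 4 := by linarith [mul_nonneg hm h9]
      exact_mod_cast this
  · intro h
    have h' : x ∈ {x | Ineq m x} := h
    rw [S1_eq] at h'
    obtain ⟨f, ⟨hf, -⟩, rfl⟩ := h'
    have hs : ∑ i, (f i : ℝ) = m := by
      have : ∑ i, f i = m := hf
      exact_mod_cast this
    have hx : cst (pr f) = ∑ i, (f i : ℝ) • cst (vv i) := by
      funext j
      fin_cases j <;> simp [cst, pr, vv, Fin.sum_univ_six] <;> ring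
    rcases Nat.eq_zero_or_pos m with rfl | hm
    · have h0 : ∀ i, f i = 0 := by
        have : ∑ i, f i = 0 := hf
        simpa using this
      refine ⟨cst (vv 0), vmem 0, ?_⟩
      rw [hx]
      simp [h0]
    · have hm' : (0 : ℝ) < m := by exact_mod_cast hm
      refine ⟨∑ i, ((f i : ℝ) / m) • cst (vv i), ?_, ?_⟩
      · apply (convex_convexHull ℝ _).sum_mem
        · intro i _; positivity
        · rw [← Finset.sum_div, hs, div_self hm'.ne']
        · intro i _; exact vmem i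
      · rw [hx]
        simp only [Finset.smul_sum, smul_smul]
        refine Finset.sum_congr rfl fun i _ => ?_
        rw [mul_div_cancel₀ _ hm'.ne']

def MR : Matrix (Fin 5) (Fin 5) ℤ :=
  !![1, 0, 0, 0, 0; 0, 1, 0, 0, 0; 0, 0, 1, 0, 0; 1, 0, -1, -1, 0; 0, 1, -1, 0, -1]

theorem MR_sq : MR * MR = 1 := by decide

def RR : Matrix.GeneralLinearGroup (Fin 5) ℤ := ⟨MR, MR, MR_sq, MR_sq⟩

def rho : ℤˣ →* Matrix.GeneralLinearGroup (Fin 5) ℤ where
  toFun u := if u = 1 then 1 else RR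
  map_one' := by simp
  map_mul' u v := by
    have h : RR * RR = 1 := Units.ext MR_sq
    have hn : (-1 : ℤˣ) ≠ 1 := by decide
    rcases Int.units_eq_one_or u with rfl | rfl <;> rcases Int.units_eq_one_or v with rfl | rfl <;>
      simp [hn, h]

theorem rho_one : (rho 1 : Matrix (Fin 5) (Fin 5) ℤ) = 1 := by simp

theorem rho_neg : (rho (-1) : Matrix (Fin 5) (Fin 5) ℤ) = MR := rfl

def io : (Fin 4 → ℤ) →ₗ[ℤ] (Fin 5 → ℤ) where
  toFun y := ![y 0, y 1, -y 0 - y 1, y 2, y 3]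
  map_add' x y := by
    funext j; fin_cases j <;> simp
    ring
  map_smul' c y := by
    funext j; fin_cases j <;> simp
    ring

def MS : Matrix (Fin 4) (Fin 4) ℤ := !![1, 0, 0, 0; 0, 1, 0, 0; 2, 1, -1, 0; 1, 2, 0, -1]

def sg (u : ℤˣ) : Matrix (Fin 4) (Fin 4) ℤ := if u = 1 then 1 else MS

theorem io_span (x : Fin 5 → ℤ) : (∃ y : Fin 4 → ℤ, io y = x) ↔ cst x ∈ vectorSpan ℝ PP := by
  constructor
  · rintro ⟨y, rfl⟩
    have d : ∀ i j, cst (vv i) - cst (vv j) ∈ vectorSpan ℝ PP := fun i j =>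
      vsub_mem_vectorSpan ℝ (vmem i) (vmem j)
    have e : cst (io y) = (y 0 : ℝ) • (cst (vv 0) - cst (vv 2)) + (y 1 : ℝ) • (cst (vv 1) - cst (vv 2))
        + (y 2 : ℝ) • (cst (vv 3) - cst (vv 0)) + (y 3 : ℝ) • (cst (vv 4) - cst (vv 1)) := by
      funext j
      fin_cases j <;> simp [cst, io, vv]
      ring
    rw [e]
    exact add_mem (add_mem (add_mem (Submodule.smul_mem _ _ (d _ _)) (Submodule.smul_mem _ _ (d _ _)))
      (Submodule.smul_mem _ _ (d _ _))) (Submodule.smul_mem _ _ (d _ _))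
  · intro h
    have key : ∀ z ∈ vectorSpan ℝ PP, z 0 + z 1 + z 2 = 0 := by
      intro z hz
      rw [vectorSpan_def] at hz
      induction hz using Submodule.span_induction with
      | mem z hz =>
        obtain ⟨p, hp, q, hq, rfl⟩ := hz
        have h1 := (PP_sub hp).1
        have h2 := (PP_sub hq).1
        simp only [vsub_eq_sub, Pi.sub_apply]
        linarith
      | zero => simp
      | add a b _ _ ha hb => simp only [Pi.add_apply]; linarith
      | smul c a _ ha =>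
        simp only [Pi.smul_apply, smul_eq_mul]
        linear_combination c * ha
    have h1 : (x 0 : ℝ) + x 1 + x 2 = 0 := key _ h
    have h2 : x 0 + x 1 + x 2 = 0 := by exact_mod_cast h1
    refine ⟨![x 0, x 1, x 3, x 4], ?_⟩
    funext j
    fin_cases j <;> simp [io]
    omega

theorem det_one : (Matrix.det (1 - (Polynomial.X : Polynomial ℤ) • (sg 1).map Polynomial.C)) =
    (1 - Polynomial.X) ^ 4 := by
  have : (1 - (Polynomial.X : Polynomial ℤ) • (sg 1).map Polynomial.C) =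
      Matrix.diagonal fun _ : Fin 4 => (1 - Polynomial.X : Polynomial ℤ) := by
    ext i j : 2
    by_cases h : i = j <;> simp [sg, h]
  rw [this, Matrix.det_diagonal]
  simp

theorem det_neg : (Matrix.det (1 - (Polynomial.X : Polynomial ℤ) • (sg (-1)).map Polynomial.C)) =
    (1 - Polynomial.X) ^ 2 * (1 + Polynomial.X) ^ 2 := by
  have h : sg (-1) = MS := rfl
  rw [h, Matrix.det_of_isLowerTriangular]
  · simp [Fin.prod_univ_four, MS]
    ring
  · intro i j hij
    have hij' : i < j := hij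
    fin_cases i <;> fin_cases j <;> simp_all [MS]

noncomputable def Ph (g : ℤˣ) : PowerSeries ℤ :=
  PowerSeries.mk (fun m : ℕ => ((Set.ncard {x : Fin 5 → ℤ | cst x ∈ (m : ℝ) • PP ∧
    Matrix.mulVec (rho g : Matrix (Fin 5) (Fin 5) ℤ) x = x} : ℕ) : ℤ)) * (1 - PowerSeries.X) *
    ((Matrix.det (1 - (Polynomial.X : Polynomial ℤ) • (sg g).map Polynomial.C) : Polynomial ℤ) :
      PowerSeries ℤ)

theorem Ph_one : Ph 1 = 1 + PowerSeries.X + PowerSeries.X ^ 2 := by
  rw [← L_series, Ph, det_one]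
  simp only [mem_iff, rho_one, Matrix.one_mulVec, and_true]
  simp

theorem Ph_neg : Ph (-1) = 1 - PowerSeries.X + PowerSeries.X ^ 2 := by
  rw [← F_series, Ph, det_neg]
  have h : ∀ m : ℕ, {x : Fin 5 → ℤ | cst x ∈ (m : ℝ) • PP ∧
      Matrix.mulVec (rho (-1) : Matrix (Fin 5) (Fin 5) ℤ) x = x} = S2 m := by
    intro m
    ext x
    simp only [S2, Set.mem_ofPred_eq, mem_iff, rho_neg]
    refine and_congr_right fun _ => ⟨fun h => ?_, fun h => ?_⟩
    · have h3 := congrFun h 3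
      have h4 := congrFun h 4
      simp [MR, Matrix.mulVec, dotProduct, Fin.sum_univ_five] at h3 h4
      omega
    · funext j
      fin_cases j <;> simp [MR, Matrix.mulVec, dotProduct, Fin.sum_univ_five] <;> omega
  simp only [h]
  simp
  exact Or.inl (Or.inl rfl)

/-- The negation of the preceding statement: For any finite group acting linearly on Z^n and invariant lattice polytope P whose equivariant h*-series is a polynomial, every coefficient with positive h*_i has nonzero sum over the group, i.e. contains the trivial representation. -/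
theorem result :
    ¬ (∀ (G : Type) [Group G] [Fintype G] (n : ℕ)
      (ρ : G →* Matrix.GeneralLinearGroup (Fin n) ℤ)
      (V : Finset (Fin n → ℤ)) (P : Set (Fin n → ℝ)),
      V.Nonempty →
      (∀ g : G, ∀ v ∈ V,
        Matrix.mulVec (ρ g : Matrix (Fin n) (Fin n) ℤ) v ∈ V) →
      P = convexHull ℝ
        ((fun v : Fin n → ℤ => fun j => ((v j : ℤ) : ℝ)) '' (V : Set (Fin n → ℤ))) →
      ∀ (d : ℕ) (ι : (Fin d → ℤ) →ₗ[ℤ] (Fin n → ℤ))
        (σ : G → Matrix (Fin d) (Fin d) ℤ) (Φ : G → PowerSeries ℤ),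
      Function.Injective ι →
      (∀ x : Fin n → ℤ,
        (∃ y : Fin d → ℤ, ι y = x) ↔
          (fun j => ((x j : ℤ) : ℝ)) ∈ vectorSpan ℝ P) →
      (∀ (g : G) (y : Fin d → ℤ),
        ι (Matrix.mulVec (σ g) y) =
          Matrix.mulVec (ρ g : Matrix (Fin n) (Fin n) ℤ) (ι y)) →
      (∀ g : G, Φ g =
        PowerSeries.mk (fun m : ℕ =>
          ((Set.ncard {x : Fin n → ℤ |
              (fun j => ((x j : ℤ) : ℝ)) ∈ (m : ℝ) • P ∧
              Matrix.mulVec (ρ g : Matrix (Fin n) (Fin n) ℤ) x = x} : ℕ) : ℤ))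
        * (1 - PowerSeries.X)
        * ((Matrix.det (1 - (Polynomial.X : Polynomial ℤ) •
              (σ g).map Polynomial.C) : Polynomial ℤ) : PowerSeries ℤ)) →
      (∃ N : ℕ, ∀ g : G, ∀ i : ℕ, N ≤ i →
        PowerSeries.coeff (R := ℤ) i (Φ g) = 0) →
      ∀ i : ℕ, 0 < PowerSeries.coeff (R := ℤ) i (Φ 1) →
        (∑ g : G, PowerSeries.coeff (R := ℤ) i (Φ g)) ≠ 0) := by
  intro H
  refine H ℤˣ 5 rho VV PP (by decide) ?_ rfl 4 io sg Ph ?_ io_span ?_ (fun _ => rfl) ⟨3, ?_⟩ 1 ?_ ?_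
  · intro g
    rcases Int.units_eq_one_or g with rfl | rfl
    · intro v hv
      rwa [rho_one, Matrix.one_mulVec]
    · rw [rho_neg]
      decide
  · intro x y h
    have h0 : x 0 = y 0 := congrFun h 0
    have h1 : x 1 = y 1 := congrFun h 1
    have h2 : x 2 = y 2 := congrFun h 3
    have h3 : x 3 = y 3 := congrFun h 4
    funext j
    fin_cases j <;> assumption
  · intro g y
    rcases Int.units_eq_one_or g with rfl | rfl
    · simp [sg]
    · have h : sg (-1) = MS := rfl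
      rw [h, rho_neg]
      funext j
      fin_cases j <;>
        simp [io, MS, MR, Matrix.mulVec, dotProduct, Fin.sum_univ_five, Fin.sum_univ_four] <;> ring
  · intro g i hi
    rcases Int.units_eq_one_or g with rfl | rfl
    · rw [Ph_one]
      simp only [map_add, PowerSeries.coeff_one, PowerSeries.coeff_X, PowerSeries.coeff_X_pow]
      rw [if_neg (by omega), if_neg (by omega), if_neg (by omega)]
      rfl
    · rw [Ph_neg]
      simp only [map_add, map_sub, PowerSeries.coeff_one, PowerSeries.coeff_X,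
        PowerSeries.coeff_X_pow]
      rw [if_neg (by omega), if_neg (by omega), if_neg (by omega)]
      rfl
  · rw [Ph_one]
    simp [PowerSeries.coeff_one, PowerSeries.coeff_X, PowerSeries.coeff_X_pow]
  · rw [UnitsInt.univ, Finset.sum_pair (by decide), Ph_one, Ph_neg]
    simp [PowerSeries.coeff_one, PowerSeries.coeff_X, PowerSeries.coeff_X_pow]

end Pool.Agent.S11006
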