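import Pool.Statements.S11046
import Pool.Agent.H11.F64

set_option autoImplicit false
open Pool Pool.MP_b9906a_co

namespace Pool.Agent.S11046

open Pool.Agent.H11.F64

def p1 (x : K) : K := x * x
def p2 (x : K) : K := p1 (p1 x)
def p3 (x : K) : K := p1 (p2 x)
def p4 (x : K) : K := p1 (p3 x)
def p5 (x : K) : K := p1 (p4 x)
def p6 (x : K) : K := p1 (p5 x)

theorem e1 (x : K) : x ^ 2 ^ 1 = p1 x := by unfold p1; ring
theorem e2 (x : K) : x ^ 2 ^ 2 = p2 x := by unfold p2 p1; ring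
theorem e3 (x : K) : x ^ 2 ^ 3 = p3 x := by unfold p3 p2 p1; ring
theorem e4 (x : K) : x ^ 2 ^ 4 = p4 x := by unfold p4 p3 p2 p1; ring
theorem e5 (x : K) : x ^ 2 ^ 5 = p5 x := by unfold p5 p4 p3 p2 p1; ring
theorem e6 (x : K) : x ^ 2 ^ 6 = p6 x := by unfold p6 p5 p4 p3 p2 p1; ring

def co (c : K) : Fin 6 → K := ![0, 0, mk 2, c, 0, mk 2]
def fn (c x : K) : K := mk 2 * p2 x + c * p3 x + mk 2 * p5 x
def fh (c x : K) : K := p4 (mk 2) * p4 x + p3 c * p3 x + p1 (mk 2) * p1 x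

theorem sum_fn (c x : K) : (∑ k : Fin 6, co c k * x ^ (2 ^ (k : ℕ))) = fn c x := by
  rw [Fin.sum_univ_six]
  have : (0 : K) * x ^ 2 ^ 0 + 0 * x ^ 2 ^ 1 + mk 2 * x ^ 2 ^ 2 + c * x ^ 2 ^ 3 + 0 * x ^ 2 ^ 4
      + mk 2 * x ^ 2 ^ 5 = fn c x := by
    rw [e2, e3, e5]; unfold fn; ring
  exact this

theorem sum_fh (c x : K) :
    (∑ k : Fin 6, (co c k) ^ (2 ^ (6 - (k : ℕ))) * x ^ (2 ^ (6 - (k : ℕ)))) = fh c x := by
  rw [Fin.sum_univ_six]
  have : (0 : K) ^ 2 ^ 6 * x ^ 2 ^ 6 + 0 ^ 2 ^ 5 * x ^ 2 ^ 5 + (mk 2) ^ 2 ^ 4 * x ^ 2 ^ 4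
      + c ^ 2 ^ 3 * x ^ 2 ^ 3 + 0 ^ 2 ^ 2 * x ^ 2 ^ 2 + (mk 2) ^ 2 ^ 1 * x ^ 2 ^ 1 = fh c x := by
    rw [e4 (mk 2), e4 x, e3 c, e3 x, e1 (mk 2), e1 x, zero_pow (by norm_num),
      zero_pow (by norm_num), zero_pow (by norm_num)]
    unfold fh; ring
  exact this

theorem img : ∀ x : K, x ≠ 0 → (∃ y : K, y ≠ 0 ∧ fn (mk 4) x * x⁻¹ = fn (mk 24) y * y⁻¹) ∧
    (∃ y : K, y ≠ 0 ∧ fn (mk 24) x * x⁻¹ = fn (mk 4) y * y⁻¹) := by
  decide +kernel

theorem notb : ∀ l : K, l ≠ 0 → (∃ x : K, fn (mk 24) x ≠ fn (mk 4) (l * x) * l⁻¹) ∧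
    (∃ x : K, fn (mk 24) x ≠ fh (mk 4) (l * x) * l⁻¹) := by
  decide +kernel

theorem lin (c : K) (hc : c = mk 4 ∨ c = mk 24) : ∀ t : ℕ, t ∣ 6 → 1 < t →
    ¬ ∀ μ : K, μ ^ (2 ^ t) = μ → ∀ x : K, fn c (μ * x) = μ * fn c x := by
  intro t ht h1 H
  have h6 : t ≤ 6 := Nat.le_of_dvd (by norm_num) ht
  have h3 : t = 2 ∨ t = 3 ∨ t = 6 := by
    interval_cases t <;> simp_all
  rcases h3 with rfl | rfl | rfl
  · have := H (mk 58) (by rw [e2]; decide +kernel) (mk 1)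
    rcases hc with rfl | rfl <;> exact absurd this (by decide +kernel)
  · have := H (mk 14) (by rw [e3]; decide +kernel) (mk 2)
    rcases hc with rfl | rfl <;> exact absurd this (by decide +kernel)
  · have := H (mk 2) (by rw [e6]; decide +kernel) (mk 1)
    rcases hc with rfl | rfl <;> exact absurd this (by decide +kernel)

theorem per (i : ℕ) : (mk 14 : K) ^ 2 ^ i = (mk 14) ^ 2 ^ (i % 6) := by
  have h6 : (mk 14 : K) ^ 2 ^ 6 = mk 14 := by rw [e6]; decide +kernel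
  have hk : ∀ k : ℕ, (mk 14 : K) ^ 2 ^ (6 * k) = mk 14 := by
    intro k
    induction k with
    | zero => simp
    | succ k ih => rw [Nat.mul_succ, pow_add, pow_mul, ih, h6]
  conv_lhs => rw [← Nat.div_add_mod i 6, pow_add, pow_mul, hk]

theorem nofix (i : ℕ) (hi : Nat.Coprime i 6) : (mk 14 : K) ^ 2 ^ i ≠ mk 14 := by
  rw [per]
  have h : Nat.Coprime (i % 6) 6 := by
    rw [Nat.Coprime, ← Nat.gcd_rec, Nat.gcd_comm]; exact hi
  have hl : i % 6 < 6 := Nat.mod_lt _ (by norm_num)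
  have h2 : i % 6 = 1 ∨ i % 6 = 5 := by
    generalize i % 6 = r at h hl
    interval_cases r <;> simp_all [Nat.Coprime]
  rcases h2 with h2 | h2 <;> rw [h2]
  · rw [e1]; decide +kernel
  · rw [e5]; decide +kernel

theorem nota (σ : K ≃+* K) (c₁ c₂ c₃ c₄ α : K) (i : ℕ) (hd : c₁ * c₄ - c₂ * c₃ ≠ 0)
    (hi : Nat.Coprime i 6)
    (H : Set.range (fun x : K => (c₁ * σ x + c₂ * σ (fn (mk 4) x), c₃ * σ x + c₄ * σ (fn (mk 4) x))) =
      Set.range (fun y : K => (y, α * y ^ (2 ^ i)))) : False := by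
  have G : ∀ x : K, c₃ * σ x + c₄ * σ (fn (mk 4) x)
      = α * (c₁ * σ x + c₂ * σ (fn (mk 4) x)) ^ (2 ^ i) := by
    intro x
    have hx : (c₁ * σ x + c₂ * σ (fn (mk 4) x), c₃ * σ x + c₄ * σ (fn (mk 4) x)) ∈
        Set.range (fun y : K => (y, α * y ^ (2 ^ i))) := H ▸ ⟨x, rfl⟩
    obtain ⟨y, hy⟩ := hx
    have h1 := congrArg Prod.fst hy
    have h2 := congrArg Prod.snd hy
    simp only at h1 h2
    rw [← h1, ← h2]
  have f1 : fn (mk 4) 1 = mk 4 := by decide +kernel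
  have f14 : fn (mk 4) (mk 14) = mk 14 * mk 4 := by decide +kernel
  have f2 : fn (mk 4) (mk 2) = mk 2 := by decide +kernel
  have g1 := G 1
  have g14 := G (mk 14)
  have g2 := G (mk 2)
  rw [f1, map_one] at g1
  rw [f14, map_mul] at g14
  rw [f2] at g2
  have s14 : σ (mk 14) ≠ 0 := by
    rw [map_ne_zero_iff σ σ.injective]; decide +kernel
  have s2 : σ (mk 2) ≠ 0 := by
    rw [map_ne_zero_iff σ σ.injective]; decide +kernel
  have s4 : σ (mk 4) ≠ 1 := by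
    intro h
    rw [← map_one σ] at h
    exact absurd (σ.injective h) (by decide +kernel)
  have hp : (2 : ℕ) ^ i ≠ 0 := by positivity
  set u := σ (mk 4) with hu
  set l := σ (mk 14) with hl
  have hlp : l ^ 2 ^ i ≠ l := by
    intro h
    rw [hl, ← map_pow] at h
    exact nofix i hi (σ.injective h)
  have k1 : c₁ * l + c₂ * (l * u) = l * (c₁ * 1 + c₂ * u) := by ring
  have k2 : c₃ * l + c₄ * (l * u) = l * (c₃ * 1 + c₄ * u) := by ring
  rw [k1, k2, g1, mul_pow] at g14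
  have k3 : (α * (c₁ * 1 + c₂ * u) ^ 2 ^ i) * (l ^ 2 ^ i - l) = 0 := by
    linear_combination -g14
  rcases mul_eq_zero.1 k3 with k4 | k4
  · rcases mul_eq_zero.1 k4 with k5 | k5
    · rw [k5, zero_mul] at g1 g2
      have k6 : (c₃ + c₄) * σ (mk 2) = 0 := by linear_combination g2
      have k7 : c₃ + c₄ = 0 := (mul_eq_zero.1 k6).resolve_right s2
      have k8 : c₄ * (u - 1) = 0 := by linear_combination g1 - k7
      have k9 : c₄ = 0 := (mul_eq_zero.1 k8).resolve_right (sub_ne_zero.2 s4)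
      have k10 : c₃ = 0 := by linear_combination k7 - k9
      exact hd (by rw [k9, k10]; ring)
    · have k6 : c₁ * 1 + c₂ * u = 0 := pow_eq_zero_iff hp |>.1 k5
      rw [k4] at g1
      exact hd (by linear_combination c₄ * k6 - c₂ * g1)
  · exact hlp (sub_eq_zero.1 k4)

/-- The negation of the preceding statement: For n>5, if q-polynomials f,g on F_{q^n} with max linearity field F_q have equal images of f(x)/x, then either one ΓL(2,q^n) map sends both graphs to graphs of αx^{q^i}, βx^{q^j} with gcd(i,n)=gcd(j,n)=1 and equal norms, or g(x) equals f(lx)/l or f̂(lx)/l. -/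
theorem result :
    ¬ (∀ (q n : ℕ) (K : Type) [Field K] [Fintype K],
      IsPrimePow q → Fintype.card K = q ^ n → 5 < n →
      ∀ (a b : Fin n → K),
        (∀ t : ℕ, t ∣ n → 1 < t →
          ¬ ∀ μ : K, μ ^ (q ^ t) = μ → ∀ x : K,
            (∑ k : Fin n, a k * (μ * x) ^ (q ^ (k : ℕ))) = μ * ∑ k : Fin n, a k * x ^ (q ^ (k : ℕ))) →
        (∀ t : ℕ, t ∣ n → 1 < t →
          ¬ ∀ μ : K, μ ^ (q ^ t) = μ → ∀ x : K,
            (∑ k : Fin n, b k * (μ * x) ^ (q ^ (k : ℕ))) = μ * ∑ k : Fin n, b k * x ^ (q ^ (k : ℕ))) →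
        {z : K | ∃ x : K, x ≠ 0 ∧ z = (∑ k : Fin n, a k * x ^ (q ^ (k : ℕ))) / x} =
          {z : K | ∃ x : K, x ≠ 0 ∧ z = (∑ k : Fin n, b k * x ^ (q ^ (k : ℕ))) / x} →
        (∃ (σ : K ≃+* K) (c₁ c₂ c₃ c₄ α β : K) (i j : ℕ),
            c₁ * c₄ - c₂ * c₃ ≠ 0 ∧ Nat.Coprime i n ∧ Nat.Coprime j n ∧
            Set.range (fun x : K =>
              (c₁ * σ x + c₂ * σ (∑ k : Fin n, a k * x ^ (q ^ (k : ℕ))),
               c₃ * σ x + c₄ * σ (∑ k : Fin n, a k * x ^ (q ^ (k : ℕ))))) =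
              Set.range (fun y : K => (y, α * y ^ (q ^ i))) ∧
            Set.range (fun x : K =>
              (c₁ * σ x + c₂ * σ (∑ k : Fin n, b k * x ^ (q ^ (k : ℕ))),
               c₃ * σ x + c₄ * σ (∑ k : Fin n, b k * x ^ (q ^ (k : ℕ))))) =
              Set.range (fun y : K => (y, β * y ^ (q ^ j))) ∧
            (∏ k ∈ Finset.range n, α ^ (q ^ k)) = ∏ k ∈ Finset.range n, β ^ (q ^ k)) ∨
        (∃ l : K, l ≠ 0 ∧
            ((∀ x : K, (∑ k : Fin n, b k * x ^ (q ^ (k : ℕ))) =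
                (∑ k : Fin n, a k * (l * x) ^ (q ^ (k : ℕ))) / l) ∨
             (∀ x : K, (∑ k : Fin n, b k * x ^ (q ^ (k : ℕ))) =
                (∑ k : Fin n, (a k) ^ (q ^ (n - (k : ℕ))) * (l * x) ^ (q ^ (n - (k : ℕ)))) / l)))) := by
  intro H
  have := H 2 6 K (Nat.prime_two.isPrimePow) card_K (by norm_num) (co (mk 4)) (co (mk 24))
  simp only [sum_fn, sum_fh] at this
  have him : {z : K | ∃ x : K, x ≠ 0 ∧ z = fn (mk 4) x / x} =
      {z : K | ∃ x : K, x ≠ 0 ∧ z = fn (mk 24) x / x} := by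
    ext z
    simp only [Set.mem_ofPred_eq, div_eq_mul_inv]
    constructor
    · rintro ⟨x, hx, rfl⟩
      exact (img x hx).1
    · rintro ⟨x, hx, rfl⟩
      exact (img x hx).2
  rcases this (lin _ (Or.inl rfl)) (lin _ (Or.inr rfl)) him with h | h
  · obtain ⟨σ, c₁, c₂, c₃, c₄, α, β, i, j, hd, hi, -, h1, -, -⟩ := h
    exact nota σ c₁ c₂ c₃ c₄ α i hd hi h1
  · obtain ⟨l, hl, h | h⟩ := h
    · obtain ⟨x, hx⟩ := (notb l hl).1
      exact hx (by rw [h x, div_eq_mul_inv])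
    · obtain ⟨x, hx⟩ := (notb l hl).2
      exact hx (by rw [h x, div_eq_mul_inv])

end Pool.Agent.S11046
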