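import Pool.Statements.S11061

set_option autoImplicit false
open Pool Pool.MP_ba45ff_co

namespace Pool.Agent.S11061

section aux
variable {V : Type} (G : SimpleGraph V)

/-- reachability inside a vertex set -/
def Rch (X : Set V) (a b : V) : Prop :=
  Relation.ReflTransGen (fun a b => a ∈ X ∧ b ∈ X ∧ G.Adj a b) a b

variable {G}

lemma Rch.symm' {X : Set V} {a b : V} (h : Rch G X a b) : Rch G X b a := by
  induction h with
  | refl => exact Relation.ReflTransGen.refl
  | tail _ h2 ih => exact Relation.ReflTransGen.head ⟨h2.2.1, h2.1, h2.2.2.symm⟩ ih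

lemma Rch.mono' {X Y : Set V} (hXY : X ⊆ Y) {a b : V} (h : Rch G X a b) : Rch G Y a b := by
  induction h with
  | refl => exact Relation.ReflTransGen.refl
  | tail _ h2 ih => exact Relation.ReflTransGen.tail ih ⟨hXY h2.1, hXY h2.2.1, h2.2.2⟩

lemma rch_of_walk {X : Set V} {a b : V} (p : G.Walk a b) (hp : ∀ z ∈ p.support, z ∈ X) :
    Rch G X a b := by
  induction p with
  | nil => exact Relation.ReflTransGen.refl
  | cons h p ih =>
    refine Relation.ReflTransGen.head ⟨hp _ (by simp), hp _ (by simp), h⟩ (ih ?_)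
    intro z hz
    exact hp z (by simp [hz])

lemma walk_of_rch {X : Set V} {a b : V} (ha : a ∈ X) (h : Rch G X a b) :
    ∃ p : G.Walk a b, ∀ z ∈ p.support, z ∈ X := by
  induction h with
  | refl => exact ⟨SimpleGraph.Walk.nil, by simpa using ha⟩
  | tail _ h2 ih =>
    obtain ⟨p, hp⟩ := ih
    refine ⟨p.concat h2.2.2, ?_⟩
    intro z hz
    rw [SimpleGraph.Walk.support_concat] at hz
    simp only [List.concat_eq_append, List.mem_append, List.mem_singleton] at hz
    rcases hz with hz | rfl
    · exact hp z hz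
    · exact h2.2.1

lemma pre_iff (X : Set V) : (G.induce X).Preconnected ↔ ∀ a ∈ X, ∀ b ∈ X, Rch G X a b := by
  constructor
  · intro h a ha b hb
    have key : ∀ x y : X, Relation.ReflTransGen (G.induce X).Adj x y → Rch G X x y := by
      intro x y h1
      induction h1 with
      | refl => exact Relation.ReflTransGen.refl
      | @tail c d _ h2 ih => exact Relation.ReflTransGen.tail ih ⟨c.2, d.2, h2⟩
    exact key _ _ ((SimpleGraph.reachable_iff_reflTransGen _ _).1 (h ⟨a, ha⟩ ⟨b, hb⟩))
  · intro h ⟨a, ha⟩ ⟨b, hb⟩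
    have h1 := h a ha b hb
    induction h1 with
    | refl => exact SimpleGraph.Reachable.refl _
    | tail _ h2 ih =>
      exact (ih h2.1).trans (SimpleGraph.Adj.reachable (G := G.induce X) (u := ⟨_, h2.1⟩)
        (v := ⟨_, hb⟩) h2.2.2)

/-- In a block, a component of the outside attaches to one vertex only. -/
lemma attach_unique [DecidableEq V] {B : Set V} (h1 : (G.induce B).Connected)
    (h2 : ∀ v ∈ B, (G.induce (B \ {v})).Preconnected)
    (h3 : ∀ B' : Set V, B ⊆ B' → (G.induce B').Connected →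
            (∀ v ∈ B', (G.induce (B' \ {v})).Preconnected) → B' = B)
    {s u x w : V} (hs : s ∈ B) (hu : u ∈ B) (hx : x ∉ B) (hsx : G.Adj s x) (hxw : Rch G Bᶜ x w)
    (hwu : G.Adj w u) : u = s := by
  by_contra hne
  obtain ⟨p0, hp0⟩ := walk_of_rch (X := Bᶜ) hx hxw
  let p := p0.bypass
  have hpp : p.IsPath := p0.bypass_isPath
  have hp : ∀ z ∈ p.support, z ∉ B := fun z hz => hp0 z (p0.support_bypass_subset hz)
  let q : G.Walk s u := SimpleGraph.Walk.cons hsx (p.concat hwu)
  have hqs : q.support = s :: (p.support ++ [u]) := by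
    simp [q, SimpleGraph.Walk.support_concat]
  have hq : q.support.Nodup := by
    rw [hqs, List.nodup_cons, List.nodup_append]
    refine ⟨?_, hpp.support_nodup, by simp, ?_⟩
    · simp only [List.mem_append, List.mem_singleton, not_or]
      exact ⟨fun h => hp s h hs, fun h => hne h.symm⟩
    · intro a ha b hb
      simp only [List.mem_singleton] at hb
      subst hb
      rintro rfl
      exact hp _ ha hu
  have hB := (pre_iff B).1 h1.preconnected
  let B' : Set V := B ∪ {z | z ∈ q.support}
  have hBB : B ⊆ B' := Set.subset_union_left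
  have key : B' = B := by
    apply h3 B' hBB
    · have hne' : Nonempty B' := ⟨⟨s, hBB hs⟩⟩
      refine SimpleGraph.Connected.mk ((pre_iff B').2 ?_)
      have : ∀ a ∈ B', Rch G B' s a := by
        intro a ha
        rcases ha with ha | ha
        · exact (hB s hs a ha).mono' hBB
        · exact rch_of_walk (q.takeUntil a ha)
            (fun z hz => Or.inr (q.support_takeUntil_subset ha hz))
      intro a ha b hb
      exact Relation.ReflTransGen.trans (this a ha).symm' (this b hb)
    · intro v _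
      rw [pre_iff]
      have hBv : ∀ a ∈ B \ {v}, ∀ b ∈ B \ {v}, Rch G (B' \ {v}) a b := by
        intro a ha b hb
        by_cases hv : v ∈ B
        · exact ((pre_iff _).1 (h2 v hv) a ha b hb).mono' (Set.diff_subset_diff_left hBB)
        · refine (hB a ha.1 b hb.1).mono' ?_
          intro z hz
          exact ⟨hBB hz, fun h => hv (by rw [Set.mem_singleton_iff] at h; exact h ▸ hz)⟩
      have : ∀ a ∈ B' \ {v}, ∃ b ∈ B \ {v}, Rch G (B' \ {v}) a b := by
        intro a ha
        rcases ha with ⟨ha | ha, hav⟩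
        · exact ⟨a, ⟨ha, hav⟩, Relation.ReflTransGen.refl⟩
        · have hav' : a ≠ v := hav
          have hsp := q.take_spec ha
          have hnd : ((q.takeUntil a ha).support ++ (q.dropUntil a ha).support.tail).Nodup := by
            rw [← SimpleGraph.Walk.support_append, hsp]; exact hq
          by_cases hv : v ∈ (q.takeUntil a ha).support
          · have hv2 : v ∉ (q.dropUntil a ha).support := by
              intro h
              rw [SimpleGraph.Walk.support_eq_cons] at h
              rcases List.mem_cons.1 h with h | h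
              · exact hav' h.symm
              · exact (List.nodup_append.1 hnd).2.2 v hv v h rfl
            refine ⟨u, ⟨hu, ?_⟩, rch_of_walk (q.dropUntil a ha) ?_⟩
            · intro h
              rw [Set.mem_singleton_iff] at h
              exact hv2 (h ▸ SimpleGraph.Walk.end_mem_support _)
            · intro z hz
              refine ⟨Or.inr (q.support_dropUntil_subset ha hz), ?_⟩
              intro h
              rw [Set.mem_singleton_iff] at h
              exact hv2 (h ▸ hz)
          · refine ⟨s, ⟨hs, ?_⟩, (rch_of_walk (q.takeUntil a ha) ?_).symm'⟩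
            · intro h
              rw [Set.mem_singleton_iff] at h
              exact hv (h ▸ SimpleGraph.Walk.start_mem_support _)
            · intro z hz
              refine ⟨Or.inr (q.support_takeUntil_subset ha hz), ?_⟩
              intro h
              rw [Set.mem_singleton_iff] at h
              exact hv (h ▸ hz)
      intro a ha b hb
      obtain ⟨a', ha', h1⟩ := this a ha
      obtain ⟨b', hb', h2⟩ := this b hb
      exact Relation.ReflTransGen.trans h1
        (Relation.ReflTransGen.trans (hBv a' ha' b' hb') h2.symm')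
  have : x ∈ B' := Or.inr (by
    show x ∈ q.support
    rw [hqs]; simp)
  exact hx (key ▸ this)

/-- `D` dominates the vertex `v`. -/
def Dm (G : SimpleGraph V) (D : Finset V) (v : V) : Prop := v ∈ D ∨ ∃ u ∈ D, G.Adj v u

lemma Dm.mono' {D E : Finset V} (h : D ⊆ E) {v : V} (hv : Dm G D v) : Dm G E v := by
  rcases hv with hv | ⟨u, hu, hv⟩
  · exact Or.inl (h hv)
  · exact Or.inr ⟨u, h hu, hv⟩

lemma Dm.filt {D : Finset V} {v : V} (hv : Dm G D v) (P : V → Prop) [DecidablePred P] (h1 : P v)
    (h2 : ∀ u ∈ D, G.Adj v u → P u) : Dm G (D.filter P) v := by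
  rcases hv with hv | ⟨u, hu, hv⟩
  · exact Or.inl (Finset.mem_filter.2 ⟨hv, h1⟩)
  · exact Or.inr ⟨u, Finset.mem_filter.2 ⟨hu, h2 u hu hv⟩, hv⟩

open Classical in
lemma half_cut {k : ℕ} (hk : ∀ D : Finset V, (∀ v, Dm G D v) → k ≤ D.card)
    (P : V → Prop) (s x y : V)
    (hP : ∀ a b, P a → G.Adj a b → P b ∨ b = s) (hs : ¬ P s)
    (hx : G.Adj s x) (hy : G.Adj s y) (hxy : (P x ∧ ¬ P y) ∨ (¬ P x ∧ P y))
    (D0 D : Finset V) (h0 : D0.card < k) (hs0 : s ∉ D0) (hD0 : ∀ v, v ≠ s → Dm G D0 v)
    (h1 : D.card < k) (hs1 : s ∉ D) (hxD : x ∈ D) (hD : ∀ v, v ≠ y → Dm G D v) : False := by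
  have hQ : ∀ a b, ¬ P a → a ≠ s → G.Adj a b → ¬ P b := by
    intro a b ha has hab hb
    rcases hP b a hb hab.symm with h | h
    · exact ha h
    · exact has h
  have fP : ∀ (E : Finset V) (v : V), s ∉ E → P v → Dm G E v → Dm G (E.filter P) v := by
    intro E v hE hv h
    refine h.filt P hv (fun u hu huv => ?_)
    rcases hP v u hv huv with h | h
    · exact h
    · exact absurd (h ▸ hu) hE
  have fQ : ∀ (E : Finset V) (v : V), v ≠ s → ¬ P v → Dm G E v →
      Dm G (E.filter (fun a => ¬ P a)) v := by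
    intro E v hE hv h
    exact h.filt (fun a => ¬ P a) hv (fun u _ huv => hQ v u hv hE huv)
  have c0 := Finset.card_filter_add_card_filter_not (s := D0) P
  have c1 := Finset.card_filter_add_card_filter_not (s := D) P
  have u1 := Finset.card_union_le (D.filter P) (D0.filter (fun a => ¬ P a))
  have u2 := Finset.card_union_le (D0.filter P) (D.filter (fun a => ¬ P a))
  have i1 := Finset.card_insert_le s (D.filter P ∪ D0.filter (fun a => ¬ P a))
  have i2 := Finset.card_insert_le s (D0.filter P ∪ D.filter (fun a => ¬ P a))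
  rcases hxy with ⟨hx', hy'⟩ | ⟨hx', hy'⟩
  · have a1 : k ≤ (D.filter P ∪ D0.filter (fun a => ¬ P a)).card := by
      apply hk
      intro v
      by_cases hvs : v = s
      · exact Or.inr ⟨x, Finset.mem_union_left _ (Finset.mem_filter.2 ⟨hxD, hx'⟩), hvs ▸ hx⟩
      by_cases hv : P v
      · exact (fP D v hs1 hv (hD v (fun h => hy' (h ▸ hv)))).mono' Finset.subset_union_left
      · exact (fQ D0 v hvs hv (hD0 v hvs)).mono' Finset.subset_union_right
    have a2 : k ≤ (insert s (D0.filter P ∪ D.filter (fun a => ¬ P a))).card := by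
      apply hk
      intro v
      by_cases hvs : v = s
      · exact Or.inl (hvs ▸ Finset.mem_insert_self _ _)
      by_cases hvy : v = y
      · exact Or.inr ⟨s, Finset.mem_insert_self _ _, hvy ▸ hy.symm⟩
      by_cases hv : P v
      · exact (fP D0 v hs0 hv (hD0 v hvs)).mono'
          (Finset.subset_union_left.trans (Finset.subset_insert _ _))
      · exact (fQ D v hvs hv (hD v hvy)).mono'
          (Finset.subset_union_right.trans (Finset.subset_insert _ _))
    omega
  · have a1 : k ≤ (D0.filter P ∪ D.filter (fun a => ¬ P a)).card := by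
      apply hk
      intro v
      by_cases hvs : v = s
      · exact Or.inr ⟨x, Finset.mem_union_right _ (Finset.mem_filter.2 ⟨hxD, hx'⟩), hvs ▸ hx⟩
      by_cases hv : P v
      · exact (fP D0 v hs0 hv (hD0 v hvs)).mono' Finset.subset_union_left
      · exact (fQ D v hvs hv (hD v (fun h => hv (h ▸ hy')))).mono' Finset.subset_union_right
    have a2 : k ≤ (insert s (D.filter P ∪ D0.filter (fun a => ¬ P a))).card := by
      apply hk
      intro v
      by_cases hvs : v = s
      · exact Or.inl (hvs ▸ Finset.mem_insert_self _ _)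
      by_cases hvy : v = y
      · exact Or.inr ⟨s, Finset.mem_insert_self _ _, hvy ▸ hy.symm⟩
      by_cases hv : P v
      · exact (fP D v hs1 hv (hD v hvy)).mono'
          (Finset.subset_union_left.trans (Finset.subset_insert _ _))
      · exact (fQ D0 v hvs hv (hD0 v hvs)).mono'
          (Finset.subset_union_right.trans (Finset.subset_insert _ _))
    omega

/-- domination after adding the edge `a b` -/
lemma dm_edge {a b v : V} {D : Finset V} (h : Dm (G ⊔ SimpleGraph.edge a b) D v) :
    Dm G D v ∨ (v = a ∧ b ∈ D) ∨ (v = b ∧ a ∈ D) := by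
  rcases h with h | ⟨u, hu, h⟩
  · exact Or.inl (Or.inl h)
  · rw [SimpleGraph.sup_adj, SimpleGraph.edge_adj] at h
    rcases h with h | ⟨h | h, _⟩
    · exact Or.inl (Or.inr ⟨u, hu, h⟩)
    · exact Or.inr (Or.inl ⟨h.1, h.2 ▸ hu⟩)
    · exact Or.inr (Or.inr ⟨h.1, h.2 ▸ hu⟩)

lemma cut_lemma {k : ℕ} (hk : ∀ D : Finset V, (∀ v, Dm G D v) → k ≤ D.card)
    (hc : ∀ a b, a ≠ b → ¬ G.Adj a b → ∃ D : Finset V, D.card < k ∧
      ∀ v, Dm G D v ∨ (v = a ∧ b ∈ D) ∨ (v = b ∧ a ∈ D))
    (P : V → Prop) (s x y : V)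
    (hP : ∀ a b, P a → G.Adj a b → P b ∨ b = s) (hs : ¬ P s)
    (hx : G.Adj s x) (hy : G.Adj s y) (hx' : P x) (hy' : ¬ P y)
    (D0 : Finset V) (h0 : D0.card < k) (hD0 : ∀ v, v ≠ s → Dm G D0 v) : False := by
  have hs0 : s ∉ D0 := by
    intro h
    have := hk D0 (fun v => by
      by_cases hv : v = s
      · exact Or.inl (hv ▸ h)
      · exact hD0 v hv)
    omega
  have hne : x ≠ y := fun h => hy' (h ▸ hx')
  have hna : ¬ G.Adj x y := by
    intro h
    rcases hP x y hx' h with h | h
    · exact hy' h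
    · exact hy.ne h.symm
  obtain ⟨D, h1, hD⟩ := hc x y hne hna
  have hs1 : s ∉ D := by
    intro h
    have := hk D (fun v => by
      rcases hD v with h' | h' | h'
      · exact h'
      · exact Or.inr ⟨s, h, h'.1 ▸ hx.symm⟩
      · exact Or.inr ⟨s, h, h'.1 ▸ hy.symm⟩)
    omega
  by_cases hxD : x ∈ D
  · refine half_cut hk P s x y hP hs hx hy (Or.inl ⟨hx', hy'⟩) D0 D h0 hs0 hD0 h1 hs1 hxD ?_
    intro v hv
    rcases hD v with h' | h' | h'
    · exact h'
    · exact Or.inl (h'.1 ▸ hxD)
    · exact absurd h'.1 hv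
  · by_cases hyD : y ∈ D
    · refine half_cut hk P s y x hP hs hy hx (Or.inr ⟨hy', hx'⟩) D0 D h0 hs0 hD0 h1 hs1 hyD ?_
      intro v hv
      rcases hD v with h' | h' | h'
      · exact h'
      · exact absurd h'.1 hv
      · exact absurd h'.2 hxD
    · have := hk D (fun v => by
        rcases hD v with h' | h' | h'
        · exact h'
        · exact absurd h'.2 hyD
        · exact absurd h'.2 hxD)
      omega

open Classical in
lemma core [Fintype V] {k g : ℕ} (hconn : G.Connected)
    (hk : ∀ D : Finset V, (∀ v, Dm G D v) → k ≤ D.card)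
    (hc : ∀ a b, a ≠ b → ¬ G.Adj a b → ∃ D : Finset V, D.card < k ∧
      ∀ v, Dm G D v ∨ (v = a ∧ b ∈ D) ∨ (v = b ∧ a ∈ D))
    (B : Set V) (hB : ∀ a ∈ B, ∀ b ∈ B, Rch G B a b)
    (hatt : ∀ s u x w : V, s ∈ B → u ∈ B → x ∉ B → G.Adj s x → Rch G Bᶜ x w → G.Adj w u → u = s)
    (hW0 : ∃ w, w ∉ B)
    (hW : ∀ w, w ∉ B → ∃ D : Finset V, D.card < k ∧ w ∉ D ∧ ∀ v, v ≠ w → Dm G D v)
    (hg : ∀ D : Finset V, (∀ v ∈ D, v ∈ B) → (∀ v ∈ B, Dm G D v) → g ≤ D.card)
    (hcB : ∀ a ∈ B, ∀ b ∈ B, a ≠ b → ¬ G.Adj a b → ∃ D : Finset V, D.card < g ∧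
      ∀ v ∈ B, Dm G D v ∨ (v = a ∧ b ∈ D) ∨ (v = b ∧ a ∈ D)) :
    ∀ u ∈ B, ∀ v ∈ B, u ≠ v → G.Adj u v := by
  intro u0 hu0 v0 hv0 hne0
  by_contra hna0
  -- every vertex of B has a neighbour in B
  have hnb : ∀ s ∈ B, ∃ y ∈ B, G.Adj s y := by
    intro s hs
    have : ∃ z ∈ B, z ≠ s := by
      by_cases h : u0 = s
      · exact ⟨v0, hv0, fun h' => hne0 (h.trans h'.symm)⟩
      · exact ⟨u0, hu0, h⟩
    obtain ⟨z, hz, hzs⟩ := this
    rcases Relation.ReflTransGen.cases_head (hB s hs z hz) with h | ⟨y, hy, _⟩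
    · exact absurd h.symm hzs
    · exact ⟨y, hy.2.1, hy.2.2⟩
  let S : V → Prop := fun s => s ∈ B ∧ ∃ x, x ∉ B ∧ G.Adj s x
  let Rr : V → Prop := fun y => y ∈ B ∧ ¬ S y ∧ ∀ s, S s → ¬ G.Adj y s
  let WS : V → Prop := fun a => a ∉ B ∨ S a
  -- a minimum dominating set of the outside containing S
  have hE : ∃ E : Finset V, (∀ w, w ∉ B → Dm G E w) ∧ (∀ s, S s → s ∈ E) ∧
      ∀ E' : Finset V, (∀ w, w ∉ B → Dm G E' w) → E.card ≤ E'.card := by
    obtain ⟨E1, hE1, hmin1⟩ := Finset.exists_min_image
      (Finset.univ.filter (fun E : Finset V => ∀ w, w ∉ B → Dm G E w)) Finset.card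
      ⟨Finset.univ, by simp [Dm]⟩
    obtain ⟨E, hE, hmin⟩ := Finset.exists_min_image
      (Finset.univ.filter (fun E : Finset V => (∀ w, w ∉ B → Dm G E w) ∧ E.card ≤ E1.card))
      (fun E => (Finset.univ.filter (fun s => S s ∧ s ∉ E)).card)
      ⟨E1, by simpa using hE1⟩
    simp only [Finset.mem_filter, Finset.mem_univ, true_and] at hE1 hmin1 hE hmin
    refine ⟨E, hE.1, ?_, fun E' h => hE.2.trans (hmin1 E' h)⟩
    intro s hs
    by_contra hsE
    obtain ⟨hsB, x, hxB, hsx⟩ := hs
    obtain ⟨y, hyB, hsy⟩ := hnb s hsB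
    let P : V → Prop := fun w => ∃ x, x ∉ B ∧ G.Adj s x ∧ Rch G Bᶜ x w
    have hPB : ∀ w, P w → w ∉ B := by
      rintro w ⟨x, hx, _, h⟩
      rcases Relation.ReflTransGen.cases_tail h with h | ⟨_, _, h⟩
      · exact h ▸ hx
      · exact h.2.1
    have hP : ∀ a b, P a → G.Adj a b → P b ∨ b = s := by
      intro a b ha hab
      have haB := hPB a ha
      obtain ⟨x, hx, hsx, h⟩ := ha
      by_cases hb : b ∈ B
      · exact Or.inr (hatt s b x a hsB hb hx hsx h hab)
      · exact Or.inl ⟨x, hx, hsx, Relation.ReflTransGen.tail h ⟨haB, hb, hab⟩⟩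
    have hQ : ∀ a b, ¬ P a → a ≠ s → G.Adj a b → ¬ P b := by
      intro a b ha has hab hb
      rcases hP b a hb hab.symm with h | h
      · exact ha h
      · exact has h
    have hPx : P x := ⟨x, hxB, hsx, Relation.ReflTransGen.refl⟩
    have hPs : ¬ P s := fun h => hPB s h hsB
    obtain ⟨D, hD1, hD2, hD3⟩ := hW x hxB
    have hsD : s ∉ D := by
      intro h
      have := hk D (fun v => by
        by_cases hv : v = x
        · exact Or.inr ⟨s, h, hv ▸ hsx.symm⟩
        · exact hD3 v hv)
      omega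
    have fP : ∀ (E : Finset V) (v : V), s ∉ E → P v → Dm G E v → Dm G (E.filter P) v := by
      intro E v hE hv h
      refine h.filt P hv (fun u hu huv => ?_)
      rcases hP v u hv huv with h | h
      · exact h
      · exact absurd (h ▸ hu) hE
    have fQ : ∀ (E : Finset V) (v : V), v ≠ s → ¬ P v → Dm G E v →
        Dm G (E.filter (fun a => ¬ P a)) v := by
      intro E v hE hv h
      exact h.filt (fun a => ¬ P a) hv (fun u _ huv => hQ v u hv hE huv)
    have c0 := Finset.card_filter_add_card_filter_not (s := D) P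
    have c1 := Finset.card_filter_add_card_filter_not (s := E) P
    by_cases hle : (E.filter P).card ≤ (D.filter P).card
    · have u1 := Finset.card_union_le (E.filter P) (D.filter (fun a => ¬ P a))
      refine cut_lemma hk hc P s x y hP hPs hsx hsy hPx (fun h => hPB y h hyB)
        (E.filter P ∪ D.filter (fun a => ¬ P a)) (by omega) ?_
      intro v hvs
      by_cases hv : P v
      · exact (fP E v hsE hv (hE.1 v (hPB v hv))).mono' Finset.subset_union_left
      · exact (fQ D v hvs hv (hD3 v (fun h => hv (h ▸ hPx)))).mono' Finset.subset_union_right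
    · have u1 := Finset.card_union_le (D.filter P) (E.filter (fun a => ¬ P a))
      have i1 := Finset.card_insert_le s (D.filter P ∪ E.filter (fun a => ¬ P a))
      have h1 := hmin (insert s (D.filter P ∪ E.filter (fun a => ¬ P a))) ⟨?_, by omega⟩
      · refine absurd h1 (not_le.2 (Finset.card_lt_card ⟨?_, ?_⟩))
        · intro z hz
          simp only [Finset.mem_filter, Finset.mem_univ, true_and, Finset.mem_insert,
            Finset.mem_union, not_or] at hz ⊢
          refine ⟨hz.1, fun h => hz.2.2.2 ⟨h, fun h' => hPB z h' hz.1.1⟩⟩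
        · intro h
          have := h (show s ∈ Finset.univ.filter (fun s => S s ∧ s ∉ E) from
            Finset.mem_filter.2 ⟨Finset.mem_univ _, ⟨hsB, x, hxB, hsx⟩, hsE⟩)
          simp at this
      · intro v hvB
        by_cases hvx : v = x
        · exact Or.inr ⟨s, Finset.mem_insert_self _ _, hvx ▸ hsx.symm⟩
        by_cases hv : P v
        · exact (fP D v hsD hv (hD3 v hvx)).mono'
            (Finset.subset_union_left.trans (Finset.subset_insert _ _))
        · exact (fQ E v (fun h => hvB (h ▸ hsB)) hv (hE.1 v hvB)).mono'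
            (Finset.subset_union_right.trans (Finset.subset_insert _ _))
  obtain ⟨E, hE1, hE2, hE3⟩ := hE
  obtain ⟨F, hF, hFmin⟩ := Finset.exists_min_image
      (Finset.univ.filter (fun F : Finset V => ∀ y, Rr y → Dm G F y)) Finset.card
      ⟨Finset.univ, by simp [Dm]⟩
  simp only [Finset.mem_filter, Finset.mem_univ, true_and] at hF hFmin
  have hkEF : k ≤ E.card + F.card := by
    refine (hk (E ∪ F) ?_).trans (Finset.card_union_le _ _)
    intro v
    by_cases hv : v ∈ B
    · by_cases hS : S v
      · exact Or.inl (Finset.mem_union_left _ (hE2 v hS))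
      · by_cases hR : ∀ s, S s → ¬ G.Adj v s
        · exact (hF v ⟨hv, hS, hR⟩).mono' Finset.subset_union_right
        · push Not at hR
          obtain ⟨s, hs, h⟩ := hR
          exact Or.inr ⟨s, Finset.mem_union_left _ (hE2 s hs), h⟩
    · exact (hE1 v hv).mono' Finset.subset_union_left
  have fW : ∀ (D : Finset V) (w : V), w ∉ B → Dm G D w → Dm G (D.filter WS) w := by
    intro D w hw h
    refine h.filt WS (Or.inl hw) (fun u _ hwu => ?_)
    by_cases hu : u ∈ B
    · exact Or.inr ⟨hu, w, hw, hwu.symm⟩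
    · exact Or.inl hu
  have fR : ∀ (D : Finset V) (y : V), Rr y → Dm G D y → Dm G (D.filter (fun a => ¬ WS a)) y := by
    intro D y hy h
    refine h.filt (fun a => ¬ WS a) ?_ (fun u _ hyu => ?_)
    · rintro (h | h)
      · exact h hy.1
      · exact hy.2.1 h
    · rintro (h | h)
      · exact hy.2.1 ⟨hy.1, u, h, hyu⟩
      · exact hy.2.2 u h hyu
  -- (i) B minus R is a clique
  have hclq : ∀ a ∈ B, ∀ b ∈ B, ¬ Rr a → ¬ Rr b → a ≠ b → G.Adj a b := by
    intro a ha b hb hra hrb hab
    by_contra hna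
    obtain ⟨D, hD1, hD2⟩ := hc a b hab hna
    have c0 := Finset.card_filter_add_card_filter_not (s := D) WS
    have h1 := hE3 (D.filter WS) (fun w hw => by
      rcases hD2 w with h | h | h
      · exact fW D w hw h
      · exact absurd (h.1 ▸ ha) hw
      · exact absurd (h.1 ▸ hb) hw)
    have h2 := hFmin (D.filter (fun a => ¬ WS a)) (fun y hy => by
      rcases hD2 y with h | h | h
      · exact fR D y hy h
      · exact absurd (h.1 ▸ hy) hra
      · exact absurd (h.1 ▸ hy) hrb)
    omega
  -- (ii)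
  obtain ⟨y, hy⟩ : ∃ y, Rr y := by
    by_contra h
    push Not at h
    exact hna0 (hclq u0 hu0 v0 hv0 (h _) (h _) hne0)
  obtain ⟨w, hw⟩ := hW0
  obtain ⟨s, hs⟩ : ∃ s, S s := by
    have h1 := (SimpleGraph.reachable_iff_reflTransGen _ _).1 (hconn.preconnected u0 w)
    by_contra hno
    push Not at hno
    have : ∀ z, Relation.ReflTransGen G.Adj u0 z → z ∈ B := by
      intro z hz
      induction hz with
      | refl => exact hu0
      | @tail c d _ h2 ih =>
        by_contra hd
        exact hno c ⟨ih, d, hd, h2⟩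
    exact hw (this w h1)
  obtain ⟨x, hxB, hxS, hxR⟩ : ∃ x ∈ B, ¬ S x ∧ ¬ Rr x := by
    by_contra hno
    push Not at hno
    have : ∀ z, Rch G B s z → S z := by
      intro z hz
      induction hz with
      | refl => exact hs
      | @tail c d _ h2 ih =>
        by_contra hd
        exact (hno d h2.2.1 hd).2.2 c ih h2.2.2.symm
    exact hy.2.1 (this y (hB s hs.1 y hy.1))
  -- (iii)
  have hgF : g ≤ F.card := by
    have hwx : w ≠ x := fun h => hw (h ▸ hxB)
    obtain ⟨D, hD1, hD2⟩ := hc w x hwx (fun h => hxS ⟨hxB, w, hw, h.symm⟩)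
    have c0 := Finset.card_filter_add_card_filter_not (s := D) WS
    have hR : ∀ y, Rr y → Dm G (D.filter (fun a => ¬ WS a)) y := fun y hy => by
      rcases hD2 y with h | h | h
      · exact fR D y hy h
      · exact absurd (h.1 ▸ hy.1) hw
      · exact absurd (h.1 ▸ hy) hxR
    have h2 := hFmin _ hR
    have hxD : x ∈ D := by
      by_contra hxD
      have h1 := hE3 (D.filter WS) (fun z hz => by
        rcases hD2 z with h | h | h
        · exact fW D z hz h
        · exact absurd h.2 hxD
        · exact absurd (h.1 ▸ hxB) hz)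
      omega
    have h1 := hE3 (insert w (D.filter WS)) (fun z hz => by
        rcases hD2 z with h | h | h
        · exact (fW D z hz h).mono' (Finset.subset_insert _ _)
        · exact Or.inl (h.1 ▸ Finset.mem_insert_self _ _)
        · exact absurd (h.1 ▸ hxB) hz)
    have i1 := Finset.card_insert_le w (D.filter WS)
    have hxF : x ∈ D.filter (fun a => ¬ WS a) := Finset.mem_filter.2 ⟨hxD, by
      rintro (h | h)
      · exact h hxB
      · exact hxS h⟩
    have h3 := hg (D.filter (fun a => ¬ WS a)) (fun v hv => by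
      by_contra h
      exact (Finset.mem_filter.1 hv).2 (Or.inl h)) (fun v hv => by
      by_cases hvR : Rr v
      · exact hR v hvR
      · by_cases hvx : v = x
        · exact Or.inl (hvx ▸ hxF)
        · exact Or.inr ⟨x, hxF, hclq v hv x hxB hvR hxR hvx⟩)
    omega
  -- (iv)
  have hsy : s ≠ y := fun h => hy.2.1 (h ▸ hs)
  obtain ⟨D, hD1, hD2⟩ := hcB s hs.1 y hy.1 hsy (fun h => hy.2.2 s hs h.symm)
  by_cases hsD : s ∈ D
  · have h1 := hFmin (insert y (D.erase s)) (fun z hz => by
      by_cases hzy : z = y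
      · exact Or.inl (hzy ▸ Finset.mem_insert_self _ _)
      have hzs : z ≠ s := fun h => hz.2.1 (h ▸ hs)
      rcases hD2 z hz.1 with (h | ⟨u, hu, h⟩) | h | h
      · exact Or.inl (Finset.mem_insert_of_mem (Finset.mem_erase.2 ⟨hzs, h⟩))
      · exact Or.inr ⟨u, Finset.mem_insert_of_mem (Finset.mem_erase.2
          ⟨fun h' => hz.2.2 s hs (h' ▸ h), hu⟩), h⟩
      · exact absurd h.1 hzs
      · exact absurd h.1 hzy)
    have i1 := Finset.card_insert_le y (D.erase s)
    have i2 := Finset.card_erase_add_one hsD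
    omega
  · have h1 := hFmin D (fun z hz => by
      rcases hD2 z hz.1 with h | h | h
      · exact h
      · exact absurd (h.1 ▸ hs) hz.2.1
      · exact absurd h.2 hsD)
    omega

end aux

/-- Let G be a connected edge-critical graph with a cutvertex, and take the block containing all vertices whose deletion keeps the domination number. If that block is edge-critical as a graph in its own right, then it is complete. -/
theorem result :
    ∀ (V : Type) [Fintype V] [DecidableEq V] (G : SimpleGraph V)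
      (γ : SimpleGraph V → Set V → ℕ),
      (∀ (H : SimpleGraph V) (S : Set V),
        γ H S = sInf {n : ℕ | ∃ D : Finset V, (↑D : Set V) ⊆ S ∧ D.card = n ∧
          ∀ v ∈ S, v ∈ D ∨ ∃ u ∈ D, H.Adj v u}) →
      G.Connected →
      (∀ u v : V, u ≠ v → ¬ G.Adj u v →
        γ (G ⊔ SimpleGraph.edge u v) Set.univ = γ G Set.univ - 1) →
      (∃ c : V, ¬ (G.induce ({c}ᶜ : Set V)).Preconnected) →
      ∀ B : Set V,
        ((G.induce B).Connected ∧
          (∀ v ∈ B, (G.induce (B \ {v})).Preconnected) ∧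
          ∀ B' : Set V, B ⊆ B' → (G.induce B').Connected →
            (∀ v ∈ B', (G.induce (B' \ {v})).Preconnected) → B' = B) →
        {v : V | γ G ({v}ᶜ : Set V) = γ G Set.univ} ⊆ B →
        (∀ u ∈ B, ∀ v ∈ B, u ≠ v → ¬ G.Adj u v →
          γ (G ⊔ SimpleGraph.edge u v) B = γ G B - 1) →
        ∀ u ∈ B, ∀ v ∈ B, u ≠ v → G.Adj u v := by
  classical
  intro V _ _ G γ hγ hconn hcrit ⟨c, hc⟩ B ⟨hB1, hB2, hB3⟩ hnuc hBcrit
  have hle : ∀ (H : SimpleGraph V) (S : Set V) (D : Finset V), (∀ v ∈ D, v ∈ S) →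
      (∀ v ∈ S, Dm H D v) → γ H S ≤ D.card := by
    intro H S D h1 h2
    rw [hγ]
    exact Nat.sInf_le ⟨D, h1, rfl, h2⟩
  have hex : ∀ (H : SimpleGraph V) (S : Set V), ∃ D : Finset V, (∀ v ∈ D, v ∈ S) ∧
      D.card = γ H S ∧ ∀ v ∈ S, Dm H D v := by
    intro H S
    rw [hγ]
    have : ({n : ℕ | ∃ D : Finset V, (↑D : Set V) ⊆ S ∧ D.card = n ∧
          ∀ v ∈ S, v ∈ D ∨ ∃ u ∈ D, H.Adj v u}).Nonempty :=
      ⟨_, S.toFinset, by simp, rfl, fun v hv => Or.inl (by simpa using hv)⟩
    exact Nat.sInf_mem this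
  have hcr : ∀ (S : Set V) (a b : V), a ∈ S → γ (G ⊔ SimpleGraph.edge a b) S = γ G S - 1 →
      ∃ D : Finset V, D.card < γ G S ∧
        ∀ v ∈ S, Dm G D v ∨ (v = a ∧ b ∈ D) ∨ (v = b ∧ a ∈ D) := by
    intro S a b ha h
    obtain ⟨D, _, h2, h3⟩ := hex (G ⊔ SimpleGraph.edge a b) S
    refine ⟨D, ?_, fun v hv => dm_edge (h3 v hv)⟩
    have : 0 < D.card := by
      rcases h3 a ha with h | ⟨u, hu, _⟩
      · exact Finset.card_pos.2 ⟨a, h⟩
      · exact Finset.card_pos.2 ⟨u, hu⟩
    omega
  have hk : ∀ D : Finset V, (∀ v, Dm G D v) → γ G Set.univ ≤ D.card :=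
    fun D h => hle G _ D (fun _ _ => Set.mem_univ _) (fun v _ => h v)
  have hc' : ∀ a b, a ≠ b → ¬ G.Adj a b → ∃ D : Finset V, D.card < γ G Set.univ ∧
      ∀ v, Dm G D v ∨ (v = a ∧ b ∈ D) ∨ (v = b ∧ a ∈ D) := by
    intro a b h1 h2
    obtain ⟨D, h3, h4⟩ := hcr Set.univ a b (Set.mem_univ _) (hcrit a b h1 h2)
    exact ⟨D, h3, fun v => h4 v (Set.mem_univ _)⟩
  refine core (k := γ G Set.univ) (g := γ G B) hconn hk hc' B ((pre_iff B).1 hB1.preconnected)
    (fun s u x w hs hu hx hsx hxw hwu => attach_unique hB1 hB2 hB3 hs hu hx hsx hxw hwu)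
    ?_ ?_ (fun D h1 h2 => hle G B D h1 h2)
    (fun a ha b hb h1 h2 => hcr B a b ha (hBcrit a ha b hb h1 h2))
  · by_contra h
    push Not at h
    have hB : B = Set.univ := Set.eq_univ_of_forall h
    have := hB2 c (h c)
    rw [hB, ← Set.compl_eq_univ_diff] at this
    exact hc this
  · intro w hw
    have hne : γ G ({w}ᶜ : Set V) ≠ γ G Set.univ := fun h => hw (hnuc h)
    have hle' : γ G ({w}ᶜ : Set V) ≤ γ G Set.univ := by
      by_cases hcl : ∃ a b, G.Adj w a ∧ G.Adj w b ∧ a ≠ b ∧ ¬ G.Adj a b
      · obtain ⟨a, b, ha, hb, hab, hn⟩ := hcl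
        obtain ⟨D, h1, h2⟩ := hc' a b hab hn
        have hwD : w ∉ D := by
          intro h
          have := hk D (fun v => by
            rcases h2 v with h' | h' | h'
            · exact h'
            · exact Or.inr ⟨w, h, h'.1 ▸ ha.symm⟩
            · exact Or.inr ⟨w, h, h'.1 ▸ hb.symm⟩)
          omega
        by_cases haD : a ∈ D
        · have := hle G {w}ᶜ (insert b D) (fun v hv => by
            rcases Finset.mem_insert.1 hv with h | h
            · exact h ▸ hb.ne.symm
            · exact fun h' => hwD ((Set.mem_singleton_iff.1 h') ▸ h)) (fun v _ => by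
            rcases h2 v with h' | h' | h'
            · exact h'.mono' (Finset.subset_insert _ _)
            · exact Or.inl (Finset.mem_insert_of_mem (h'.1 ▸ haD))
            · exact Or.inl (h'.1 ▸ Finset.mem_insert_self _ _))
          have i1 := Finset.card_insert_le b D
          omega
        · have := hle G {w}ᶜ (insert a D) (fun v hv => by
            rcases Finset.mem_insert.1 hv with h | h
            · exact h ▸ ha.ne.symm
            · exact fun h' => hwD ((Set.mem_singleton_iff.1 h') ▸ h)) (fun v _ => by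
            rcases h2 v with h' | h' | h'
            · exact h'.mono' (Finset.subset_insert _ _)
            · exact Or.inl (h'.1 ▸ Finset.mem_insert_self _ _)
            · exact absurd h'.2 haD)
          have i1 := Finset.card_insert_le a D
          omega
      · push Not at hcl
        obtain ⟨D, _, h2, h3⟩ := hex G Set.univ
        by_cases hwD : w ∈ D
        · obtain ⟨⟨b0, hb0⟩⟩ := hB1.nonempty
          have hr := (SimpleGraph.reachable_iff_reflTransGen _ _).1 (hconn.preconnected w b0)
          rcases Relation.ReflTransGen.cases_head hr with h | ⟨a, ha, _⟩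
          · exact absurd (h ▸ hb0) hw
          have := hle G {w}ᶜ (insert a (D.erase w)) (fun v hv => by
            rcases Finset.mem_insert.1 hv with h | h
            · exact h ▸ ha.ne.symm
            · exact (Finset.mem_erase.1 h).1) (fun v hv => by
            have hvw : v ≠ w := hv
            rcases h3 v (Set.mem_univ _) with h | ⟨u, hu, h⟩
            · exact Or.inl (Finset.mem_insert_of_mem (Finset.mem_erase.2 ⟨hvw, h⟩))
            · by_cases huw : u = w
              · by_cases hva : v = a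
                · exact Or.inl (hva ▸ Finset.mem_insert_self _ _)
                · exact Or.inr ⟨a, Finset.mem_insert_self _ _, hcl v a (huw ▸ h.symm) ha hva⟩
              · exact Or.inr ⟨u, Finset.mem_insert_of_mem (Finset.mem_erase.2 ⟨huw, hu⟩), h⟩)
          have i1 := Finset.card_insert_le a (D.erase w)
          have i2 := Finset.card_erase_add_one hwD
          omega
        · have := hle G {w}ᶜ D (fun v hv h' => hwD ((Set.mem_singleton_iff.1 h') ▸ hv))
            (fun v _ => h3 v (Set.mem_univ _))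
          omega
    obtain ⟨D, h1, h2, h3⟩ := hex G {w}ᶜ
    exact ⟨D, by omega, fun h => h1 w h rfl, fun v hv => h3 v hv⟩

end Pool.Agent.S11061
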