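import Pool.Statements.S11082
-- import your own Pool.Agent.* helpers here

set_option autoImplicit false
open Pool Pool.MP_bb01b3_co

namespace Pool.Agent.S11082

open Finset SimpleGraph

/-- adjacency table -/
def adjB (u v : Fin 10) : Bool := (([770, 513, 520, 772, 800, 784, 640, 320, 185, 127] : List ℕ).getD u.val 0).testBit v.val

/-- the forbidden graph -/
def HH : SimpleGraph (Fin 10) where
  Adj u v := adjB u v = true
  symm := ⟨by decide⟩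
  loopless := ⟨by decide⟩

instance : DecidableRel HH.Adj := fun u v => by unfold HH; infer_instance

/-- vertices outside `I`, other than `c`, with a neighbour outside `I` other than `c` -/
def zz (I : Fin 10 → Bool) (c : ℕ) : List (Fin 10) :=
  (List.finRange 10).filter (fun v => !I v && v.val != c &&
    (List.finRange 10).any (fun w => !I w && w.val != c && adjB v w))

/-- the finite check -/
def chk (I : Fin 10 → Bool) (c : ℕ) : Bool :=
  (List.finRange 10).any (fun v => I v && (List.finRange 10).any (fun w => I w && adjB v w)) ||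
  decide (4 < (zz I c).length) ||
  (zz I c).any (fun v => (List.finRange 10).any (fun w => !I w && w.val == c && adjB v w))

theorem chk_all : ∀ b0 b1 b2 b3 b4 b5 b6 b7 b8 b9 : Bool, ∀ c : Fin 11,
    chk ![b0, b1, b2, b3, b4, b5, b6, b7, b8, b9] c.val = true := by
  decide +kernel

theorem chk_fun (I : Fin 10 → Bool) (c : ℕ) (hc : c < 11) : chk I c = true := by
  have := chk_all (I 0) (I 1) (I 2) (I 3) (I 4) (I 5) (I 6) (I 7) (I 8) (I 9) ⟨c, hc⟩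
  have e : ![I 0, I 1, I 2, I 3, I 4, I 5, I 6, I 7, I 8, I 9] = I := by
    funext i
    fin_cases i <;> rfl
  rwa [e] at this

theorem keyK {W : Type} (G : SimpleGraph W) (B c : W → Prop) (S : Finset W) (hS : S.card ≤ 4)
    (hB : ∀ x y, G.Adj x y → B x → ¬ B y) (hc : ∀ x y, c x → c y → x = y)
    (hcS : ∀ x, c x → x ∉ S)
    (hE : ∀ x y, G.Adj x y → ¬ B x → ¬ B y → c x ∧ y ∉ S ∨ c y ∧ x ∉ S ∨ x ∈ S ∧ y ∈ S) :
    ¬ HH.IsContained G := by
  classical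
  rintro ⟨φ⟩
  have hφ : ∀ u v, adjB u v = true → G.Adj (φ u) (φ v) := fun u v h => φ.toHom.map_rel' h
  obtain ⟨k, hk, hk2⟩ : ∃ k : ℕ, k < 11 ∧ ∀ v : Fin 10, c (φ v) ↔ v.val = k := by
    by_cases h : ∃ v, c (φ v)
    · obtain ⟨v, hv⟩ := h
      refine ⟨v.val, by omega, fun w => ⟨fun hw => ?_, fun hw => ?_⟩⟩
      · rw [φ.injective (hc _ _ hw hv)]
      · rwa [Fin.ext hw]
    · exact ⟨10, by omega, fun w => ⟨fun hw => absurd ⟨w, hw⟩ h, fun hw => by omega⟩⟩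
  have hz : ∀ v ∈ zz (fun v => decide (B (φ v))) k, φ v ∈ S ∧ ¬ B (φ v) ∧ v.val ≠ k := by
    intro v hv
    simp only [zz, List.mem_filter, List.mem_finRange, true_and, Bool.and_eq_true,
      Bool.not_eq_true', decide_eq_false_iff_not, bne_iff_ne, ne_eq, List.any_eq_true] at hv
    obtain ⟨⟨h1, h2⟩, w, ⟨h3, h4⟩, h5⟩ := hv
    rcases hE _ _ (hφ v w h5) h1 h3 with h | h | h
    · exact absurd ((hk2 v).1 h.1) h2
    · exact absurd ((hk2 w).1 h.1) h4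
    · exact ⟨h.1, h1, h2⟩
  have h1 := chk_fun (fun v => decide (B (φ v))) k hk
  simp only [chk, Bool.or_eq_true, List.any_eq_true, List.mem_finRange, true_and,
    Bool.and_eq_true, decide_eq_true_eq, Bool.not_eq_true', decide_eq_false_iff_not,
    beq_iff_eq] at h1
  rcases h1 with (⟨v, h1, w, h2, h3⟩ | h1) | ⟨v, h1, w, ⟨h2, h3⟩, h4⟩
  · exact hB _ _ (hφ v w h3) h1 h2
  · have h2 : (zz (fun v => decide (B (φ v))) k).Nodup := (List.nodup_finRange 10).filter _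
    rw [← List.toFinset_card_of_nodup h2] at h1
    have h3 := card_le_card_of_injOn (s := (zz (fun v => decide (B (φ v))) k).toFinset) (t := S)
      φ (fun v hv => (hz v (by simpa using hv)).1) φ.injective.injOn
    omega
  · obtain ⟨h5, h6, h7⟩ := hz v h1
    rcases hE _ _ (hφ v w h4) h6 h2 with h | h | h
    · exact h7 ((hk2 v).1 h.1)
    · exact h.2 h5
    · exact hcS _ ((hk2 w).2 h3) h.2

/-- the host graph in the definition of the decomposition family, `p = 2` -/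
abbrev DG (m : ℕ) (M : SimpleGraph (Fin m)) (t : ℕ) : SimpleGraph (Fin m ⊕ (Fin 2 × Fin t)) :=
  SimpleGraph.fromRel (fun x y : Fin m ⊕ (Fin 2 × Fin t) =>
        Sum.elim (fun a => Sum.elim (fun b => M.Adj a b) (fun q => q.1.val ≠ 0) y)
          (fun q => Sum.elim (fun _ => q.1.val ≠ 0) (fun q' => q.1 ≠ q'.1) y) x)

/-- `H` lies in the host graph -/
def Dec (m : ℕ) (M : SimpleGraph (Fin m)) : Prop := ∃ t : ℕ, HH.IsContained (DG m M t)

/-- minimal members -/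
def Mem (m : ℕ) (M : SimpleGraph (Fin m)) : Prop := Dec m M ∧
  ∀ (m' : ℕ) (M' : SimpleGraph (Fin m')), M'.IsContained M → Dec m' M' → M.IsContained M'

theorem notDec (m : ℕ) (M : SimpleGraph (Fin m)) (c : Fin m → Prop) (S : Finset (Fin m))
    (hS : S.card ≤ 4) (hc : ∀ x y, c x → c y → x = y) (hcS : ∀ x, c x → x ∉ S)
    (hE : ∀ x y, M.Adj x y → c x ∧ y ∉ S ∨ c y ∧ x ∉ S ∨ x ∈ S ∧ y ∈ S) : ¬ Dec m M := by
  classical
  rintro ⟨t, ht⟩
  refine keyK (DG m M t) (fun x => Sum.elim (fun _ => False) (fun q => q.1.val ≠ 0) x)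
    (fun x => Sum.elim c (fun _ => False) x) (S.image Sum.inl) (card_image_le.trans hS)
    ?_ ?_ ?_ ?_ ht
  · rintro (x | x) (y | y) h h1 h2 <;> simp at h h1 h2
    have e : x.1 = y.1 := by
      have := x.1.2
      have := y.1.2
      simp only [Fin.ext_iff, Fin.val_zero] at h1 h2 ⊢
      omega
    rcases h.2 with h | h
    · exact h e
    · exact h e.symm
  · rintro (x | x) (y | y) h1 h2 <;> simp at h1 h2 ⊢
    exact hc x y h1 h2
  · rintro (x | x) h1 <;> simp at h1 ⊢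
    exact hcS x h1
  · rintro (x | x) (y | y) h h1 h2 <;> simp at h h1 h2 ⊢
    · rcases h.2 with h | h
      · exact hE x y h
      · exact hE x y h.symm
    · exact (h h2).elim
    · exact (h h1).elim
    · rcases h.2 with h | h <;> exact absurd (by rw [h1, h2]) h

theorem ncard_map {m m' : ℕ} (M : SimpleGraph (Fin m)) (f : Fin m ↪ Fin m') :
    (M.map f).edgeSet.ncard = M.edgeSet.ncard := by
  rw [edgeSet_map]
  exact Set.ncard_image_of_injective _ f.sym2Map.injective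

theorem exists_min (m0 : ℕ) (M0 : SimpleGraph (Fin m0)) (h0 : Dec m0 M0) :
    ∃ (m : ℕ) (M : SimpleGraph (Fin m)), Mem m M ∧ M.IsContained M0 := by
  classical
  have hex : ∃ k, ∃ (m : ℕ) (M : SimpleGraph (Fin m)), Dec m M ∧ M.IsContained M0 ∧
      m + M.edgeSet.ncard = k := ⟨_, m0, M0, h0, IsContained.refl _, rfl⟩
  obtain ⟨m, M, h1, h2, h3⟩ := Nat.find_spec hex
  refine ⟨m, M, ⟨h1, ?_⟩, h2⟩
  rintro m' M' ⟨φ⟩ hd
  have h4 := Nat.find_min' hex ⟨m', M', hd, IsContained.trans ⟨φ⟩ h2, rfl⟩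
  have h5 : m' ≤ m := by simpa using Fintype.card_le_of_injective φ φ.injective
  have h6 : M'.map φ.toEmbedding ≤ M := by
    rintro a b ⟨-, a', b', h, rfl, rfl⟩
    exact φ.toHom.map_rel' h
  have h7 := ncard_map M' φ.toEmbedding
  have h8 := Set.ncard_le_ncard (edgeSet_mono h6)
  have h9 : m' = m := by omega
  subst h9
  have h10 : (M'.map φ.toEmbedding).edgeSet = M.edgeSet :=
    Set.eq_of_subset_of_ncard_le (edgeSet_mono h6) (by omega)
  have h11 : M'.map φ.toEmbedding = M := edgeSet_injective h10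
  let e : Fin m' ≃ Fin m' := Equiv.ofBijective φ (Finite.injective_iff_bijective.1 φ.injective)
  refine ⟨⟨⟨e.symm, ?_⟩, e.symm.injective⟩⟩
  intro a b hab
  rw [← h11] at hab
  obtain ⟨-, a', b', h, rfl, rfl⟩ := hab
  have e1 : ∀ x, e.symm (φ.toEmbedding x) = x := fun x => e.symm_apply_apply x
  rw [e1, e1]
  exact h

theorem edges : ∀ u v, HH.Adj u v → (u = 0 ∧ v = 1) ∨ (u = 0 ∧ v = 8) ∨ (u = 0 ∧ v = 9) ∨ (u = 1 ∧ v = 9) ∨ (u = 2 ∧ v = 3) ∨ (u = 2 ∧ v = 9) ∨ (u = 3 ∧ v = 8) ∨ (u = 3 ∧ v = 9) ∨ (u = 4 ∧ v = 5) ∨ (u = 4 ∧ v = 8) ∨ (u = 4 ∧ v = 9) ∨ (u = 5 ∧ v = 8) ∨ (u = 5 ∧ v = 9) ∨ (u = 6 ∧ v = 7) ∨ (u = 6 ∧ v = 9) ∨ (u = 7 ∧ v = 8) ∨ (u = 1 ∧ v = 0) ∨ (u = 8 ∧ v = 0) ∨ (u = 9 ∧ v = 0) ∨ (u = 9 ∧ v = 1) ∨ (u = 3 ∧ v = 2) ∨ (u = 9 ∧ v = 2) ∨ (u = 8 ∧ v = 3) ∨ (u = 9 ∧ v = 3) ∨ (u = 5 ∧ v = 4) ∨ (u = 8 ∧ v = 4) ∨ (u = 9 ∧ v = 4) ∨ (u = 8 ∧ v = 5) ∨ (u = 9 ∧ v = 5) ∨ (u = 7 ∧ v = 6)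 ∨ (u = 9 ∧ v = 6) ∨ (u = 8 ∧ v = 7) := by
  intro u v huv
  have h4 : ∀ u v, HH.Adj u v → (u, v) ∈ ([(0, 1), (0, 8), (0, 9), (1, 9), (2, 3), (2, 9), (3, 8), (3, 9), (4, 5), (4, 8), (4, 9), (5, 8), (5, 9), (6, 7), (6, 9), (7, 8)] : List (Fin 10 × Fin 10)) ∨
      (v, u) ∈ ([(0, 1), (0, 8), (0, 9), (1, 9), (2, 3), (2, 9), (3, 8), (3, 9), (4, 5), (4, 8), (4, 9), (5, 8), (5, 9), (6, 7), (6, 9), (7, 8)] : List (Fin 10 × Fin 10)) := by decide +kernel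
  have h5 := h4 u v huv
  simp only [List.mem_cons, Prod.mk.injEq, List.not_mem_nil, or_false, or_assoc] at h5
  simpa only [and_comm] using h5

/-- four disjoint edges -/
def M4 : SimpleGraph (Fin 8) where
  Adj u v := u ≠ v ∧ u.val / 2 = v.val / 2
  symm := ⟨fun _ _ h => ⟨h.1.symm, h.2.symm⟩⟩
  loopless := ⟨fun _ h => h.1 rfl⟩

instance : DecidableRel M4.Adj := fun u v => by unfold M4; infer_instance

theorem dec4 : Dec 8 M4 := by
  refine ⟨2, ⟨⟨⟨![Sum.inl 0, Sum.inl 1, Sum.inl 2, Sum.inl 3, Sum.inl 4, Sum.inl 5, Sum.inl 6,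
    Sum.inl 7, Sum.inr (1, 0), Sum.inr (1, 1)], ?_⟩, ?_⟩⟩⟩
  · intro a b hab
    rcases edges a b hab with ⟨rfl, rfl⟩ | ⟨rfl, rfl⟩ | ⟨rfl, rfl⟩ | ⟨rfl, rfl⟩ | ⟨rfl, rfl⟩ | ⟨rfl, rfl⟩ | ⟨rfl, rfl⟩ | ⟨rfl, rfl⟩ | ⟨rfl, rfl⟩ | ⟨rfl, rfl⟩ | ⟨rfl, rfl⟩ | ⟨rfl, rfl⟩ | ⟨rfl, rfl⟩ | ⟨rfl, rfl⟩ | ⟨rfl, rfl⟩ | ⟨rfl, rfl⟩ | ⟨rfl, rfl⟩ | ⟨rfl, rfl⟩ | ⟨rfl, rfl⟩ | ⟨rfl, rfl⟩ | ⟨rfl, rfl⟩ | ⟨rfl, rfl⟩ | ⟨rfl, rfl⟩ | ⟨rfl, rfl⟩ | ⟨rfl, rfl⟩ | ⟨rfl, rfl⟩ | ⟨rfl, rfl⟩ | ⟨rfl, rfl⟩ | ⟨rfl, rfl⟩ | ⟨rfl, rfl⟩ | ⟨rfl, rfl⟩ | ⟨rfl, rfl⟩ <;>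
      simp [M4]
  · show Function.Injective _
    decide +kernel

theorem mem4 : Mem 8 M4 := by
  classical
  refine ⟨dec4, ?_⟩
  rintro m' M' ⟨φ⟩ hd
  have hφ : ∀ a b, M'.Adj a b → M4.Adj (φ a) (φ b) := fun a b h => φ.toHom.map_rel' h
  have h1 : ∀ j : ℕ, j < 4 → ∃ a b, M'.Adj a b ∧ (φ a).val / 2 = j := by
    intro j hj
    by_contra h
    push Not at h
    refine notDec m' M' (fun a => (φ a).val = 2 * ((j + 1) % 4))
      (univ.filter (fun a => (φ a).val / 2 ≠ j ∧ (φ a).val / 2 ≠ (j + 1) % 4)) ?_ ?_ ?_ ?_ hd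
    · have h2 : ∀ j < 4, (univ.filter
          (fun a : Fin 8 => a.val / 2 ≠ j ∧ a.val / 2 ≠ (j + 1) % 4)).card ≤ 4 := by decide
      refine le_trans (card_le_card_of_injOn φ ?_ φ.injective.injOn) (h2 j hj)
      intro a ha
      simpa using ha
    · intro x y h1 h2
      exact φ.injective (Fin.ext (h1.trans h2.symm))
    · intro x h1
      simp only [mem_filter, mem_univ, true_and]
      omega
    · intro x y hxy
      have h3 := h x y hxy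
      obtain ⟨h4, h5⟩ := hφ x y hxy
      have h6 : (φ x).val ≠ (φ y).val := fun e => h4 (Fin.ext e)
      simp only [mem_filter, mem_univ, true_and]
      omega
  have h2 : ∀ u v, M4.Adj u v → ∃ a b, M'.Adj a b ∧ φ a = u ∧ φ b = v := by
    intro u v huv
    obtain ⟨a, b, h3, h4⟩ := h1 (u.val / 2) (by omega)
    obtain ⟨h5, h6⟩ := hφ a b h3
    obtain ⟨h7, h8⟩ := huv
    simp only [ne_eq, Fin.ext_iff] at h5 h7
    by_cases e : (φ a).val = u.val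
    · exact ⟨a, b, h3, Fin.ext e, Fin.ext (by omega)⟩
    · exact ⟨b, a, h3.symm, Fin.ext (by omega), Fin.ext (by omega)⟩
  have h3 : ∀ u : Fin 8, ∃ a, φ a = u := by
    intro u
    have : ∀ u : Fin 8, ∃ v, M4.Adj u v := by decide
    obtain ⟨v, hv⟩ := this u
    obtain ⟨a, -, -, h, -⟩ := h2 u v hv
    exact ⟨a, h⟩
  choose ψ hψ using h3
  refine ⟨⟨⟨ψ, ?_⟩, fun u v e => by rw [← hψ u, ← hψ v]; exact congrArg φ e⟩⟩
  intro u v huv
  obtain ⟨a, b, h, h4, h5⟩ := h2 u v huv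
  rw [φ.injective ((hψ u).trans h4.symm), φ.injective ((hψ v).trans h5.symm)]
  exact h

/-- `H` without the edges at `0, 2, 4, 6` -/
def M0 : SimpleGraph (Fin 10) where
  Adj u v := HH.Adj u v ∧ (u.val % 2 = 1 ∨ u.val = 8) ∧ (v.val % 2 = 1 ∨ v.val = 8)
  symm := ⟨fun _ _ h => ⟨h.1.symm, h.2.2, h.2.1⟩⟩
  loopless := ⟨fun _ h => h.1.ne rfl⟩

instance : DecidableRel M0.Adj := fun u v => by unfold M0; infer_instance

theorem dec0 : Dec 10 M0 := by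
  refine ⟨4, ⟨⟨⟨![Sum.inr (1, 0), Sum.inl 1, Sum.inr (1, 1), Sum.inl 3, Sum.inr (1, 2), Sum.inl 5,
    Sum.inr (1, 3), Sum.inl 7, Sum.inl 8, Sum.inl 9], ?_⟩, ?_⟩⟩⟩
  · intro a b hab
    rcases edges a b hab with ⟨rfl, rfl⟩ | ⟨rfl, rfl⟩ | ⟨rfl, rfl⟩ | ⟨rfl, rfl⟩ | ⟨rfl, rfl⟩ | ⟨rfl, rfl⟩ | ⟨rfl, rfl⟩ | ⟨rfl, rfl⟩ | ⟨rfl, rfl⟩ | ⟨rfl, rfl⟩ | ⟨rfl, rfl⟩ | ⟨rfl, rfl⟩ | ⟨rfl, rfl⟩ | ⟨rfl, rfl⟩ | ⟨rfl, rfl⟩ | ⟨rfl, rfl⟩ | ⟨rfl, rfl⟩ | ⟨rfl, rfl⟩ | ⟨rfl, rfl⟩ | ⟨rfl, rfl⟩ | ⟨rfl, rfl⟩ | ⟨rfl, rfl⟩ | ⟨rfl, rfl⟩ | ⟨rfl, rfl⟩ | ⟨rfl, rfl⟩ | ⟨rfl, rfl⟩ | ⟨rfl, rfl⟩ | ⟨rfl, rfl⟩ | ⟨rfl, rfl⟩ | ⟨rfl, rfl⟩ | ⟨rfl, rfl⟩ | ⟨rfl, rfl⟩ <;>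
      simp [M0] <;> decide
  · show Function.Injective _
    decide +kernel

theorem gam : IsLeast {k : ℕ | ∃ (m : ℕ) (M : SimpleGraph (Fin m)) (S : Finset (Fin m)), Mem m M ∧
      (∀ a b, M.Adj a b → a ∈ S ∨ b ∈ S) ∧ (∀ a ∈ S, ∀ b ∈ S, ¬ M.Adj a b) ∧ S.card = k} 2 := by
  classical
  have lb : ∀ (m : ℕ) (M : SimpleGraph (Fin m)) (S : Finset (Fin m)), Mem m M →
      (∀ a b, M.Adj a b → a ∈ S ∨ b ∈ S) → 2 ≤ S.card := by
    intro m M S hM hS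
    by_contra h
    refine notDec m M (fun a => a ∈ S) ∅ (by simp) ?_ (by simp) ?_ hM.1
    · intro x y hx hy
      exact card_le_one.1 (by omega) x hx y hy
    · intro x y hxy
      simpa using hS x y hxy
  constructor
  · obtain ⟨m, M, hM, ⟨φ⟩⟩ := exists_min 10 M0 dec0
    have hφ : ∀ a b, M.Adj a b → M0.Adj (φ a) (φ b) := fun a b h => φ.toHom.map_rel' h
    have h1 : ∀ u v, M0.Adj u v → (u ∈ ({8, 9} : Finset (Fin 10)) ↔ v ∉ ({8, 9} : Finset (Fin 10))) := by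
      decide +kernel
    have h2 : ∀ a b, M.Adj a b → a ∈ univ.filter (fun a => φ a ∈ ({8, 9} : Finset (Fin 10))) ∨
        b ∈ univ.filter (fun a => φ a ∈ ({8, 9} : Finset (Fin 10))) := by
      intro a b h
      have := h1 _ _ (hφ a b h)
      simp only [mem_filter, mem_univ, true_and]
      tauto
    refine ⟨m, M, univ.filter (fun a => φ a ∈ ({8, 9} : Finset (Fin 10))), hM, h2, ?_, ?_⟩
    · intro a ha b hb h
      have := h1 _ _ (hφ a b h)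
      simp only [mem_filter, mem_univ, true_and] at ha hb
      tauto
    · refine le_antisymm ?_ (lb m M _ hM h2)
      refine le_trans (card_le_card_of_injOn (t := ({8, 9} : Finset (Fin 10))) φ ?_
        φ.injective.injOn) (by decide)
      intro a ha
      simpa using ha
  · rintro k ⟨m, M, S, hM, hS, -, rfl⟩
    exact lb m M S hM hS

/-- the join of a graph on one vertex with `H2` -/
abbrev JJ {r : ℕ} (H1 : SimpleGraph (Fin 1)) (H2 : SimpleGraph (Fin r)) :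
    SimpleGraph (Fin 1 ⊕ Fin r) :=
  SimpleGraph.fromRel (fun x y : Fin 1 ⊕ Fin r =>
        Sum.elim (fun a => Sum.elim (fun b => H1.Adj a b) (fun _ => True) y)
          (fun a => Sum.elim (fun _ => True) (fun b => H2.Adj a b) y) x)

theorem par_card (r L ε : ℕ) (hε : ε < 2) (h : 2 * L ≤ r) :
    L ≤ (univ.filter (fun v : Fin r => v.val % 2 = ε)).card := by
  have := card_le_card_of_injOn (s := (univ : Finset (Fin L)))
    (t := univ.filter (fun v : Fin r => v.val % 2 = ε))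
    (fun i => ⟨2 * i.val + ε, by have := i.2; omega⟩)
    (fun i _ => by simp; omega) (fun i _ j _ e => by
      simp only [Fin.mk.injEq] at e
      exact Fin.ext (by omega))
  simpa using this

theorem le_turan {r C : ℕ} (hr : 4 * C + 20 ≤ r) (H1 : SimpleGraph (Fin 1))
    (H2 : SimpleGraph (Fin r))
    (hC : (symmDiff H2.edgeSet (turanGraph r 2).edgeSet).ncard ≤ C)
    (hf : ¬ HH.IsContained (JJ H1 H2)) : H2 ≤ turanGraph r 2 := by
  classical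
  intro x y hxy
  by_contra hn
  have hp : x.val % 2 = y.val % 2 := by simpa [turanGraph] using hn
  let D : Finset (Sym2 (Fin r)) :=
    (Set.toFinite (symmDiff H2.edgeSet (turanGraph r 2).edgeSet)).toFinset
  have hD : D.card ≤ C := by
    rw [Set.ncard_eq_toFinset_card _ (Set.toFinite _)] at hC
    exact hC
  let bad : Finset (Fin r) := D.biUnion Sym2.toFinset
  have hbad : bad.card ≤ C * 2 := by
    refine le_trans (card_biUnion_le_card_mul D _ 2 (fun e _ => ?_)) (Nat.mul_le_mul_right _ hD)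
    rw [Sym2.card_toFinset]
    split_ifs <;> omega
  have hgood : ∀ u v : Fin r, u ∉ bad → u.val % 2 ≠ v.val % 2 → H2.Adj u v := by
    intro u v hu h
    by_contra h2
    apply hu
    simp only [bad, D, mem_biUnion, Set.Finite.mem_toFinset]
    refine ⟨s(u, v), Or.inr ⟨?_, h2⟩, by simp⟩
    simpa [turanGraph] using h
  obtain ⟨b, hb⟩ := Function.Embedding.exists_of_card_le_finset (α := Fin 4)
    (s := univ.filter (fun v : Fin r => v.val % 2 = 1 - x.val % 2) \ bad) (by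
      have h1 := par_card r (2 * C + 10) (1 - x.val % 2) (by omega) (by omega)
      have h2 := le_card_sdiff bad (univ.filter (fun v : Fin r => v.val % 2 = 1 - x.val % 2))
      simp only [Fintype.card_fin]
      omega)
  obtain ⟨a, ha⟩ := Function.Embedding.exists_of_card_le_finset (α := Fin 3)
    (s := univ.filter (fun v : Fin r => v.val % 2 = x.val % 2) \ {x, y}) (by
      have h1 := par_card r (2 * C + 10) (x.val % 2) (by omega) (by omega)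
      have h2 := le_card_sdiff {x, y} (univ.filter (fun v : Fin r => v.val % 2 = x.val % 2))
      have h3 := card_le_two (a := x) (b := y)
      simp only [Fintype.card_fin]
      omega)
  have hb' : ∀ i, (b i).val % 2 = 1 - x.val % 2 ∧ b i ∉ bad := fun i => by
    simpa using hb (Set.mem_range_self i)
  have ha' : ∀ i, (a i).val % 2 = x.val % 2 ∧ a i ≠ x ∧ a i ≠ y := fun i => by
    simpa using ha (Set.mem_range_self i)
  have h1 : ∀ i j, H2.Adj (b i) (a j) := fun i j =>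
    hgood _ _ (hb' i).2 (by have := (hb' i).1; have := (ha' j).1; omega)
  have h2 : ∀ i, H2.Adj (b i) x := fun i => hgood _ _ (hb' i).2 (by have := (hb' i).1; omega)
  have h3 : ∀ i, H2.Adj (b i) y := fun i => hgood _ _ (hb' i).2 (by have := (hb' i).1; omega)
  have n1 : ∀ i j, b i ≠ a j := fun i j => (h1 i j).ne
  have n2 : ∀ i, b i ≠ x := fun i => (h2 i).ne
  have n3 : ∀ i, b i ≠ y := fun i => (h3 i).ne
  have n4 : ∀ i, a i ≠ x := fun i => (ha' i).2.1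
  have n5 : ∀ i, a i ≠ y := fun i => (ha' i).2.2
  have n6 : x ≠ y := hxy.ne
  have n1' : ∀ i j, a j ≠ b i := fun i j => (n1 i j).symm
  have n2' : ∀ i, x ≠ b i := fun i => (n2 i).symm
  have n3' : ∀ i, y ≠ b i := fun i => (n3 i).symm
  have n4' : ∀ i, x ≠ a i := fun i => (n4 i).symm
  have n5' : ∀ i, y ≠ a i := fun i => (n5 i).symm
  refine hf ⟨⟨⟨![Sum.inr (b 0), Sum.inr (a 0), Sum.inr (a 1), Sum.inr (b 1), Sum.inr (b 2),
    Sum.inr x, Sum.inr (a 2), Sum.inr (b 3), Sum.inr y, Sum.inl 0], ?_⟩, ?_⟩⟩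
  · intro u v huv
    have h4 : ∀ u v, HH.Adj u v → (u, v) ∈ ([(0, 1), (0, 8), (0, 9), (1, 9), (2, 3), (2, 9), (3, 8), (3, 9), (4, 5), (4, 8), (4, 9), (5, 8), (5, 9), (6, 7), (6, 9), (7, 8)] : List (Fin 10 × Fin 10)) ∨
        (v, u) ∈ ([(0, 1), (0, 8), (0, 9), (1, 9), (2, 3), (2, 9), (3, 8), (3, 9), (4, 5), (4, 8), (4, 9), (5, 8), (5, 9), (6, 7), (6, 9), (7, 8)] : List (Fin 10 × Fin 10)) := by decide +kernel
    have h5 := h4 u v huv
    simp only [List.mem_cons, Prod.mk.injEq, List.not_mem_nil, or_false, or_assoc] at h5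
    rcases h5 with ⟨rfl, rfl⟩ | ⟨rfl, rfl⟩ | ⟨rfl, rfl⟩ | ⟨rfl, rfl⟩ | ⟨rfl, rfl⟩ | ⟨rfl, rfl⟩ | ⟨rfl, rfl⟩ | ⟨rfl, rfl⟩ | ⟨rfl, rfl⟩ | ⟨rfl, rfl⟩ | ⟨rfl, rfl⟩ | ⟨rfl, rfl⟩ | ⟨rfl, rfl⟩ | ⟨rfl, rfl⟩ | ⟨rfl, rfl⟩ | ⟨rfl, rfl⟩ | ⟨rfl, rfl⟩ | ⟨rfl, rfl⟩ | ⟨rfl, rfl⟩ | ⟨rfl, rfl⟩ | ⟨rfl, rfl⟩ | ⟨rfl, rfl⟩ | ⟨rfl, rfl⟩ | ⟨rfl, rfl⟩ | ⟨rfl, rfl⟩ | ⟨rfl, rfl⟩ | ⟨rfl, rfl⟩ | ⟨rfl, rfl⟩ | ⟨rfl, rfl⟩ | ⟨rfl, rfl⟩ | ⟨rfl, rfl⟩ | ⟨rfl, rfl⟩ <;>
      simp [h1, h2, h3, hxy, n1, n2, n3, n6, n1', n2', n3', n6.symm]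
  · intro u v e
    fin_cases u <;> fin_cases v <;>
      simp [n1, n2, n3, n4, n5, n6, n1', n2', n3', n4', n5', n6.symm] at e ⊢

/-- the better graph -/
def GS (r : ℕ) : SimpleGraph (Fin 1 ⊕ Fin r) :=
  SimpleGraph.fromRel (fun x y : Fin 1 ⊕ Fin r =>
    Sum.elim (fun _ => Sum.elim (fun _ => False) (fun b => ¬ (b.val % 2 = 0 ∧ b.val ≤ 6)) y)
      (fun a => Sum.elim (fun _ => False)
        (fun b => a.val % 2 ≠ b.val % 2 ∨ (a.val ≤ 6 ∧ b.val ≤ 6 ∧ a.val % 2 = 0)) y) x)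

theorem GS_free (r : ℕ) : ¬ HH.IsContained (GS r) := by
  classical
  refine keyK (GS r) (fun x => Sum.elim (fun _ => False) (fun b => b.val % 2 = 1) x)
    (fun x => Sum.elim (fun _ => True) (fun _ => False) x)
    ((univ.filter (fun b : Fin r => b.val % 2 = 0 ∧ b.val ≤ 6)).image Sum.inr) ?_ ?_ ?_ ?_ ?_
  · refine card_image_le.trans (le_trans (card_le_card_of_injOn (t := ({0, 2, 4, 6} : Finset ℕ))
      (fun b => b.val) ?_ Fin.val_injective.injOn) (by decide))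
    intro b hb
    simp at hb ⊢
    omega
  · rintro (x | x) (y | y) h h1 h2 <;> simp [GS] at h h1 h2
    omega
  · rintro (x | x) (y | y) h1 h2 <;> simp at h1 h2 ⊢
    exact Subsingleton.elim _ _
  · rintro (x | x) h1 <;> simp at h1 ⊢
  · rintro (x | x) (y | y) h h1 h2 <;> simp [GS] at h h1 h2 ⊢ <;> omega

theorem GS_more {r : ℕ} (hr : 7 ≤ r) (H1 : SimpleGraph (Fin 1)) :
    (JJ H1 (turanGraph r 2)).edgeSet.ncard < (GS r).edgeSet.ncard := by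
  let v : Fin 4 → Fin 1 ⊕ Fin r := fun i => Sum.inr ⟨2 * i.val, by have := i.2; omega⟩
  let D : Set (Sym2 (Fin 1 ⊕ Fin r)) := Set.range (fun i => s(Sum.inl 0, v i))
  let F : Set (Sym2 (Fin 1 ⊕ Fin r)) :=
    {s(v 0, v 1), s(v 0, v 2), s(v 0, v 3), s(v 1, v 2), s(v 1, v 3)}
  have hD : D.ncard ≤ 4 := by
    have := Set.ncard_image_le (f := fun i => s(Sum.inl 0, v i)) (s := (Set.univ : Set (Fin 4)))
    rw [Set.image_univ] at this
    simpa [Set.ncard_univ] using this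
  have hF : F.ncard = 5 := by
    simp only [F]
    rw [Set.ncard_insert_of_notMem (by simp [v]), Set.ncard_insert_of_notMem (by simp [v]),
      Set.ncard_insert_of_notMem (by simp [v]), Set.ncard_insert_of_notMem (by simp [v]),
      Set.ncard_singleton]
  have h1 : ((JJ H1 (turanGraph r 2)).edgeSet \ D) ∪ F ⊆ (GS r).edgeSet := by
    rintro e (⟨h1, h2⟩ | h)
    · induction e using Sym2.ind with
      | _ x y =>
        rcases x with x | x <;> rcases y with y | y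
        · exact absurd (congrArg Sum.inl (Subsingleton.elim x y)) ((mem_edgeSet _).1 h1).ne
        · simp only [GS, mem_edgeSet, fromRel_adj]
          refine ⟨by simp, Or.inl (fun h => h2 ⟨⟨y.val / 2, by omega⟩, ?_⟩)⟩
          simp only [v, Sym2.eq_iff, Sum.inl.injEq, Sum.inr.injEq, Fin.ext_iff]
          omega
        · simp only [GS, mem_edgeSet, fromRel_adj]
          refine ⟨by simp, Or.inr (fun h => h2 ⟨⟨x.val / 2, by omega⟩, ?_⟩)⟩
          simp only [v, Sym2.eq_iff, Sum.inl.injEq, Sum.inr.injEq, Fin.ext_iff]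
          omega
        · simp [GS, turanGraph] at h1 ⊢
          omega
    · simp only [F, Set.mem_insert_iff, Set.mem_singleton_iff] at h
      rcases h with rfl | rfl | rfl | rfl | rfl <;> simp [GS, v]
  have h2 : Disjoint ((JJ H1 (turanGraph r 2)).edgeSet \ D) F := by
    rw [Set.disjoint_right]
    intro e h h3
    have h4 := h3.1
    simp only [F, Set.mem_insert_iff, Set.mem_singleton_iff] at h
    rcases h with rfl | rfl | rfl | rfl | rfl <;> simp [turanGraph, v] at h4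
  have h3 := Set.ncard_le_ncard h1
  rw [Set.ncard_union_eq h2, hF] at h3
  have h4 := Set.le_ncard_sdiff D (JJ H1 (turanGraph r 2)).edgeSet
  omega


/-- The negation of the preceding statement: For every graph H with chromatic number p+1, p≥2, whose decomposition family contains a matching: there is C so that for all large n, some H-extremal n-vertex graph is a join of a B(H)-extremal graph on γ−1 vertices with a graph within C edges of T_p(n−γ+1). -/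
theorem result :
    ¬ (∀ (h p : ℕ) (H : SimpleGraph (Fin h)), H.chromaticNumber = ((p + 1 : ℕ) : ℕ∞) → 2 ≤ p →
  ∀ Dec : (m : ℕ) → SimpleGraph (Fin m) → Prop,
    (∀ (m : ℕ) (M : SimpleGraph (Fin m)), Dec m M ↔ ∃ t : ℕ, H.IsContained
      (SimpleGraph.fromRel (fun x y : Fin m ⊕ (Fin p × Fin t) =>
        Sum.elim (fun a => Sum.elim (fun b => M.Adj a b) (fun q => q.1.val ≠ 0) y)
          (fun q => Sum.elim (fun _ => q.1.val ≠ 0) (fun q' => q.1 ≠ q'.1) y) x))) →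
  ∀ Mem : (m : ℕ) → SimpleGraph (Fin m) → Prop,
    (∀ (m : ℕ) (M : SimpleGraph (Fin m)), Mem m M ↔ (Dec m M ∧
      ∀ (m' : ℕ) (M' : SimpleGraph (Fin m')), M'.IsContained M → Dec m' M' → M.IsContained M')) →
  (∃ (m : ℕ) (M : SimpleGraph (Fin m)), Mem m M ∧ ∀ v, ∃! w, M.Adj v w) →
  ∀ γ β : ℕ,
    IsLeast {k : ℕ | ∃ (m : ℕ) (M : SimpleGraph (Fin m)) (S : Finset (Fin m)), Mem m M ∧
      (∀ a b, M.Adj a b → a ∈ S ∨ b ∈ S) ∧ (∀ a ∈ S, ∀ b ∈ S, ¬ M.Adj a b) ∧ S.card = k} γ →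
    IsLeast {k : ℕ | ∃ (m : ℕ) (M : SimpleGraph (Fin m)) (S : Finset (Fin m)), Mem m M ∧
      (∀ a b, M.Adj a b → a ∈ S ∨ b ∈ S) ∧ S.card = k} β →
  ∀ BF : SimpleGraph (Fin (γ - 1)) → Prop,
    (∀ G : SimpleGraph (Fin (γ - 1)), BF G ↔
      ((β = γ → ¬ (⊤ : SimpleGraph (Fin γ)).IsContained G) ∧
       (β ≠ γ → ∀ (m : ℕ) (M : SimpleGraph (Fin m)) (S : Finset (Fin m)), Mem m M →
          (∀ a b, M.Adj a b → a ∈ S ∨ b ∈ S) → S.card < γ →
          ¬ (M.induce (S : Set (Fin m))).IsContained G))) →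
  ∃ C N : ℕ, ∀ n ≥ N, ∃ (H1 : SimpleGraph (Fin (γ - 1))) (H2 : SimpleGraph (Fin (n - γ + 1))),
    BF H1 ∧ (∀ G : SimpleGraph (Fin (γ - 1)), BF G → G.edgeSet.ncard ≤ H1.edgeSet.ncard) ∧
    (symmDiff H2.edgeSet (SimpleGraph.turanGraph (n - γ + 1) p).edgeSet).ncard ≤ C ∧
    ¬ H.IsContained (SimpleGraph.fromRel (fun x y : Fin (γ - 1) ⊕ Fin (n - γ + 1) =>
        Sum.elim (fun a => Sum.elim (fun b => H1.Adj a b) (fun _ => True) y)
          (fun a => Sum.elim (fun _ => True) (fun b => H2.Adj a b) y) x)) ∧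
    ∀ G : SimpleGraph (Fin n), ¬ H.IsContained G → G.edgeSet.ncard ≤
      (SimpleGraph.fromRel (fun x y : Fin (γ - 1) ⊕ Fin (n - γ + 1) =>
        Sum.elim (fun a => Sum.elim (fun b => H1.Adj a b) (fun _ => True) y)
          (fun a => Sum.elim (fun _ => True) (fun b => H2.Adj a b) y) x)).edgeSet.ncard) := by
  intro h
  have hχ : HH.chromaticNumber = ((2 + 1 : ℕ) : ℕ∞) := by
    apply le_antisymm
    · have : HH.Colorable 3 :=
        ⟨Coloring.mk ![0, 1, 0, 1, 0, 1, 0, 1, 2, 2] (by decide +kernel)⟩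
      exact this.chromaticNumber_le
    · have h1 : HH.IsClique (({0, 1, 9} : Finset (Fin 10)) : Set (Fin 10)) := by
        intro a ha b hb hab
        revert a b
        simp only [coe_insert, coe_singleton, Set.mem_insert_iff, Set.mem_singleton_iff]
        decide +kernel
      exact h1.card_le_chromaticNumber
  have hne : {k : ℕ | ∃ (m : ℕ) (M : SimpleGraph (Fin m)) (S : Finset (Fin m)), Mem m M ∧
      (∀ a b, M.Adj a b → a ∈ S ∨ b ∈ S) ∧ S.card = k}.Nonempty :=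
    ⟨_, 8, M4, univ, mem4, by simp, rfl⟩
  obtain ⟨C, N, hN⟩ := h 10 2 HH hχ le_rfl Dec (fun _ _ => Iff.rfl) Mem (fun _ _ => Iff.rfl)
    ⟨8, M4, mem4, by unfold ExistsUnique; decide +kernel⟩ 2 _ gam
    ⟨Nat.sInf_mem hne, fun _ hk => Nat.sInf_le hk⟩ _ (fun _ => Iff.rfl)
  obtain ⟨n, hn1, hn2⟩ : ∃ n, N ≤ n ∧ 4 * C + 30 ≤ n := ⟨N + 4 * C + 30, by omega, by omega⟩
  obtain ⟨H1, H2, -, -, h1, h2, h3⟩ := hN n hn1
  have h4 := le_turan (by omega) H1 H2 h1 h2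
  let e : Fin n ≃ Fin 1 ⊕ Fin (n - 2 + 1) := Fintype.equivOfCardEq (by simp; omega)
  have h5 := h3 ((GS (n - 2 + 1)).comap e) (fun hc =>
    GS_free _ (hc.trans ⟨(Iso.comap e (GS (n - 2 + 1))).toCopy⟩))
  have h6 : ((GS (n - 2 + 1)).comap e).edgeSet.ncard = (GS (n - 2 + 1)).edgeSet.ncard :=
    Set.ncard_congr' (Iso.comap e (GS (n - 2 + 1))).mapEdgeSet
  have h7 := GS_more (r := n - 2 + 1) (by omega) H1
  have h8 : JJ H1 H2 ≤ JJ H1 (turanGraph (n - 2 + 1) 2) := by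
    rintro (x | x) (y | y) hxy
    · exact hxy
    · exact hxy
    · exact hxy
    · exact ⟨hxy.1, hxy.2.imp (fun h => h4 h) (fun h => h4 h)⟩
  have h9 := Set.ncard_le_ncard (edgeSet_mono h8)
  have h10 : ((GS (n - 2 + 1)).comap e).edgeSet.ncard ≤ (JJ H1 H2).edgeSet.ncard := h5
  omega

end Pool.Agent.S11082
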