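import Pool.Statements.S11108

set_option autoImplicit false
open Pool Pool.MP_bc6ab1_co

namespace Pool.Agent.S11108

instance : Fact (Nat.Prime 7) := ⟨by norm_num⟩

/-- The uniform matroid of rank three on six points. -/
def U : Matroid (Fin 6) :=
  (IndepMatroid.ofFinite (E := Set.univ) Set.finite_univ (fun I => I.ncard ≤ 3) (by simp)
    (fun _ _ hJ hIJ => (Set.ncard_le_ncard hIJ).trans hJ)
    (fun I J _ hJ hlt => by
      obtain ⟨e, he, heI⟩ := Set.exists_mem_notMem_of_ncard_lt_ncard hlt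
      exact ⟨e, he, heI, (Set.ncard_insert_le e I).trans (by omega)⟩)
    (fun _ _ => Set.subset_univ _)).matroid

theorem U_indep (I : Set (Fin 6)) : U.Indep I ↔ I.ncard ≤ 3 := Iff.rfl
theorem U_E : U.E = Set.univ := rfl

/-- An incomplete 6-arc in the plane over the field with seven elements. -/
def p1 : Fin 6 → Fin 3 → ZMod 7 :=
  ![![1, 0, 0], ![0, 1, 0], ![0, 0, 1], ![1, 1, 1], ![1, 2, 3], ![1, 3, 2]]

/-- A complete 6-arc in the same plane. -/
def p2 : Fin 6 → Fin 3 → ZMod 7 :=
  ![![1, 0, 0], ![0, 1, 0], ![0, 0, 1], ![1, 1, 1], ![1, 2, 3], ![1, 3, 4]]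

def d3 (p u v : Fin 3 → ZMod 7) : ZMod 7 :=
  p 0 * u 1 * v 2 - p 0 * u 2 * v 1 - p 1 * u 0 * v 2 + p 1 * u 2 * v 0 + p 2 * u 0 * v 1
    - p 2 * u 1 * v 0

theorem rep (φ : Fin 6 → Fin 3 → ZMod 7)
    (h : ∀ a b c : Fin 6, a ≠ b → a ≠ c → b ≠ c → d3 (φ a) (φ b) (φ c) ≠ 0) (I : Set (Fin 6)) :
    U.Indep I ↔ LinearIndepOn (ZMod 7) φ I := by
  rw [U_indep]
  constructor
  · intro hI
    obtain ⟨J, hIJ, -, hJ⟩ := Set.exists_subsuperset_card_eq (Set.subset_univ I) hI
      (by simp [Set.ncard_univ])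
    obtain ⟨a, b, c, hab, hac, hbc, rfl⟩ := Set.ncard_eq_three.1 hJ
    refine LinearIndepOn.mono ?_ hIJ
    have hr : ({a, b, c} : Set (Fin 6)) = Set.range ![a, b, c] := by
      ext t; simp [Matrix.range_cons, Matrix.range_empty]; tauto
    have hinj : Function.Injective ![a, b, c] := by
      intro i j hij
      fin_cases i <;> fin_cases j <;> simp_all [eq_comm]
    rw [hr, linearIndepOn_range_iff hinj]
    have := Matrix.linearIndependent_rows_of_det_ne_zero
      (A := Matrix.of (φ ∘ ![a, b, c])) (by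
        rw [Matrix.det_fin_three]
        exact h a b c hab hac hbc)
    exact this
  · intro hI
    classical
    have := LinearIndependent.fintype_card_le_finrank hI
    rw [← Nat.card_coe_set_eq, Nat.card_eq_fintype_card]
    simpa using this

noncomputable def form (p : Fin 3 → ZMod 7) : (Fin 3 → ZMod 7) [⋀^Fin 2]→ₗ[ZMod 7] ZMod 7 :=
  (Matrix.detRowAlternating (n := Fin 3) (R := ZMod 7)).curryLeft p

theorem form_apply (p : Fin 3 → ZMod 7) (w : Fin 2 → Fin 3 → ZMod 7) :
    form p w = d3 p (w 0) (w 1) := by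
  unfold form
  rw [AlternatingMap.curryLeft_apply_apply]
  exact Matrix.det_fin_three _

theorem exists_form (A : (Fin 3 → ZMod 7) [⋀^Fin 2]→ₗ[ZMod 7] ZMod 7) : ∃ p, A = form p := by
  let e := Pi.basisFun (ZMod 7) (Fin 3)
  refine ⟨![A ![e 1, e 2], -A ![e 0, e 2], A ![e 0, e 1]], ?_⟩
  have sw : ∀ u v, A ![u, v] = -A ![v, u] := fun u v => by
    have := A.map_swap ![v, u] (i := 0) (j := 1) (by decide)
    rw [← this]
    congr 1
    funext i
    fin_cases i <;> rfl
  refine Module.Basis.ext_alternating e fun v hv => ?_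
  have hv' : v 0 ≠ v 1 := fun h => absurd (hv h) (by decide)
  have e1 : (fun i => e (v i)) = ![e (v 0), e (v 1)] := by
    funext i
    fin_cases i <;> rfl
  rw [form_apply, e1]
  generalize v 0 = i at *
  generalize v 1 = j at *
  fin_cases i <;> fin_cases j <;> first
    | exact absurd rfl hv'
    | (simp [d3, e]; done)
    | (rw [sw]; simp [d3, e])

theorem complete : ∀ x y z : ZMod 7, ∃ a b : Fin 6, a ≠ b ∧
    d3 ![x, y, z] (p2 a) (p2 b) = 0 ∧ d3 ![x, y, z] (p2 b) (p2 a) = 0 := by
  decide +kernel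

/-- The negation of the preceding statement: For any loopless matroid with two linear representations over the same finite field and any k ≥ 2, for every c, c alternating k-forms separating all rank-k flats exist for one representation iff they exist for the other. -/
theorem result :
    ¬ (∀ (F : Type) [Field F] [Fintype F] (n : ℕ) (M : Matroid (Fin n)),
      M.E = Set.univ → M.Loopless →
      ∀ (k : ℕ), 2 ≤ k →
      ∀ (d₁ d₂ : ℕ) (φ₁ : Fin n → (Fin d₁ → F)) (φ₂ : Fin n → (Fin d₂ → F)),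
        (∀ I : Set (Fin n), M.Indep I ↔ LinearIndepOn F φ₁ I) →
        (∀ I : Set (Fin n), M.Indep I ↔ LinearIndepOn F φ₂ I) →
        ∀ c : ℕ,
          (∃ L : Fin c → ((Fin d₁ → F) [⋀^Fin k]→ₗ[F] F),
              ∀ X : Set (Fin n), M.IsFlat X → M.eRk X = (k : ℕ∞) →
                ∃ i : Fin c, ∃ e : Fin k → Fin n,
                  Function.Injective e ∧ M.IsBasis (Set.range e) X ∧ L i (φ₁ ∘ e) ≠ 0) ↔
          (∃ L : Fin c → ((Fin d₂ → F) [⋀^Fin k]→ₗ[F] F),
              ∀ X : Set (Fin n), M.IsFlat X → M.eRk X = (k : ℕ∞) →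
                ∃ i : Fin c, ∃ e : Fin k → Fin n,
                  Function.Injective e ∧ M.IsBasis (Set.range e) X ∧ L i (φ₂ ∘ e) ≠ 0)) := by
  intro H
  have key := (H (ZMod 7) 6 U U_E ?_ 2 le_rfl 3 3 p1 p2 (rep p1 (by decide +kernel))
    (rep p2 (by decide +kernel)) 1).1 ?_
  · obtain ⟨L, hL⟩ := key
    obtain ⟨p, hp⟩ := exists_form (L 0)
    obtain ⟨a, b, hab, h1, h2⟩ := complete (p 0) (p 1) (p 2)
    have hp' : ![p 0, p 1, p 2] = p := by
      funext i
      fin_cases i <;> rfl
    rw [hp'] at h1 h2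
    have hI : U.Indep {a, b} := by rw [U_indep, Set.ncard_pair hab]; norm_num
    have hF : U.IsFlat {a, b} := by
      rw [Matroid.isFlat_iff_closure_eq]
      refine Set.Subset.antisymm (fun x hx => ?_) (U.subset_closure _ (Set.subset_univ _))
      rcases hI.mem_closure_iff.1 hx with h | h
      · refine absurd ?_ h.not_indep
        rw [U_indep]
        exact (Set.ncard_insert_le _ _).trans (by rw [Set.ncard_pair hab])
      · exact h
    obtain ⟨i, e, he, hb, hne⟩ := hL {a, b} hF (by rw [hI.eRk_eq_encard, Set.encard_pair hab]; rfl)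
    obtain rfl : i = 0 := Subsingleton.elim _ _
    rw [hp, form_apply] at hne
    have h01 : e 0 ≠ e 1 := fun h => absurd (he h) (by decide)
    have m0 := hb.subset ⟨0, rfl⟩
    have m1 := hb.subset ⟨1, rfl⟩
    simp only [Set.mem_insert_iff, Set.mem_singleton_iff, Function.comp] at m0 m1 hne
    rcases m0 with m0 | m0 <;> rcases m1 with m1 | m1
    · exact h01 (m0.trans m1.symm)
    · rw [m0, m1] at hne; exact hne h1
    · rw [m0, m1] at hne; exact hne h2
    · exact h01 (m0.trans m1.symm)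
  · rw [Matroid.loopless_iff_forall_isNonloop]
    intro e _
    rw [← Matroid.indep_singleton, U_indep]
    simp
  · refine ⟨fun _ => form ![1, 5, 6], fun X _ hX => ?_⟩
    obtain ⟨I, hI⟩ := U.exists_isBasis X (Set.subset_univ _)
    have h2 : I.encard = 2 := by rw [hI.encard_eq_eRk, hX]; rfl
    obtain ⟨a, b, hab, rfl⟩ := Set.encard_eq_two.1 h2
    refine ⟨0, ![a, b], ?_, ?_, ?_⟩
    · intro i j hij
      fin_cases i <;> fin_cases j <;> simp_all [eq_comm]
    · have : Set.range ![a, b] = {a, b} := by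
        ext t; simp [Matrix.range_cons, Matrix.range_empty]; tauto
      rwa [this]
    · rw [form_apply]
      have : ∀ a b : Fin 6, a ≠ b → d3 ![1, 5, 6] (p1 a) (p1 b) ≠ 0 := by decide +kernel
      exact this a b hab

end Pool.Agent.S11108
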