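import Pool.Statements.S11236
import Pool.Agent.H19.ZeroSum

set_option autoImplicit false
open Pool Pool.MP_c19f90_co

namespace Pool.Agent.S11236

/-- The negation of the preceding statement: For all r ≥ 3 and k ≥ 2, the largest subset of (Z_k)^r with no nonempty subset summing to zero has exactly the size given by the stated lower-bound formula (separate cases for r = 3 and r ≥ 4). -/
theorem result :
    ¬ (∀ r k : ℕ, 3 ≤ r → 2 ≤ k → ∀ n : ℕ,
      n = (if r = 3 then
              (if k ≤ 3 then 3 * (k - 1)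
               else 2 * k + ⌊(Real.sqrt (8 * (k : ℝ) - 31) - 1) / 2⌋₊)
           else
              (if k ≤ r + 1 then r * (k - 1)
               else (r - 1) * k + ⌊(Real.sqrt (8 * ((k : ℝ) - (r : ℝ)) + 1) - 1) / 2⌋₊)) →
      (∃ A : Finset (Fin r → ZMod k), A.card = n ∧
          ∀ B : Finset (Fin r → ZMod k), B ⊆ A → B.Nonempty → ∑ x ∈ B, x ≠ 0) ∧
      (∀ A : Finset (Fin r → ZMod k),
          (∀ B : Finset (Fin r → ZMod k), B ⊆ A → B.Nonempty → ∑ x ∈ B, x ≠ 0) →
          A.card ≤ n)) := by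
  intro h
  have h1 := (h 3 18 le_rfl (by norm_num) _ rfl).2 H19.ZS.A H19.ZS.A_free
  rw [H19.ZS.A_card] at h1
  simp only [if_true] at h1
  rw [if_neg (by norm_num)] at h1
  have h2 : 5 ≤ ⌊(Real.sqrt (8 * ((18 : ℕ) : ℝ) - 31) - 1) / 2⌋₊ := by omega
  have h3 : Real.sqrt (8 * ((18 : ℕ) : ℝ) - 31) < 11 := by
    rw [Real.sqrt_lt' (by norm_num)]
    norm_num
  have h4 : ⌊(Real.sqrt (8 * ((18 : ℕ) : ℝ) - 31) - 1) / 2⌋₊ < 5 := by
    rw [Nat.floor_lt' (by norm_num)]
    generalize Real.sqrt (8 * ((18 : ℕ) : ℝ) - 31) = t at h3 ⊢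
    push_cast
    linarith
  omega

end Pool.Agent.S11236
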