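import Pool.Statements.S11238
-- import your own Pool.Agent.* helpers here

set_option autoImplicit false
open Pool Pool.MP_c1e4cd_co

namespace Pool.Agent.S11238

open Finset

lemma card_fix {n : ℕ} (S : Finset (Fin n)) :
    (univ.filter fun σ : Equiv.Perm (Fin n) => ∀ x ∈ S, σ x = x).card = (n - S.card).factorial := by
  have e := Fintype.card_congr (Equiv.Perm.subtypeEquivSubtypePerm (fun x : Fin n => x ∉ S))
  rw [Fintype.card_perm, Fintype.card_subtype_compl, Fintype.card_fin, Fintype.card_coe,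
    Fintype.card_subtype] at e
  rw [e]
  congr 1
  ext σ
  simp

lemma sum_fix {n : ℕ} (S : Finset (Fin n)) :
    ∑ σ : Equiv.Perm (Fin n), (if ∀ x ∈ S, σ x = x then (1 : ℝ) else 0) =
      (n - S.card).factorial := by
  rw [← card_fix, card_filter]; push_cast; rfl

/-- The negation of the preceding statement: Some C₀>0 works for all n≥1: if A⊆S_n, c=∣A∣/(n-1)!, and 1_A is within mean-square εc/n of the span of 1-coset indicators, then 1_A is within C₀εc/n of a union of round(c) distinct 1-cosets, and ∣c−round(c)∣≤C₀ε. -/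
theorem result :
    ¬ (∃ C₀ : ℝ, 0 < C₀ ∧ ∀ n : ℕ, 1 ≤ n → ∀ A : Finset (Equiv.Perm (Fin n)), ∀ ε : ℝ, 0 ≤ ε →
    (∃ a : Fin n → Fin n → ℝ,
      (1 / (n.factorial : ℝ)) * ∑ σ : Equiv.Perm (Fin n),
          ((if σ ∈ A then (1:ℝ) else 0) - ∑ i : Fin n, a i (σ i)) ^ 2
        ≤ ε * ((A.card : ℝ) / ((n - 1).factorial : ℝ)) / n) →
    ∃ S : Finset (Fin n × Fin n),
      (S.card : ℤ) = round ((A.card : ℝ) / ((n - 1).factorial : ℝ)) ∧
      (1 / (n.factorial : ℝ)) * ∑ σ : Equiv.Perm (Fin n),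
          ((if σ ∈ A then (1:ℝ) else 0) - (if ∃ p ∈ S, σ p.1 = p.2 then (1:ℝ) else 0)) ^ 2
        ≤ C₀ * ε * ((A.card : ℝ) / ((n - 1).factorial : ℝ)) / n ∧
      |(A.card : ℝ) / ((n - 1).factorial : ℝ)
          - ((round ((A.card : ℝ) / ((n - 1).factorial : ℝ)) : ℤ) : ℝ)| ≤ C₀ * ε) := by
  rintro ⟨C, -, h⟩
  obtain ⟨k, hk⟩ := exists_nat_gt C
  obtain ⟨m, hm⟩ : ∃ m, m = k + 2 := ⟨_, rfl⟩
  let A : Finset (Equiv.Perm (Fin (m + 2))) := univ.filter fun σ => σ 0 ≠ 0 ∧ σ 1 ≠ 1
  have s0 := sum_fix ({0} : Finset (Fin (m + 2)))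
  have s1 := sum_fix ({1} : Finset (Fin (m + 2)))
  have s2 := sum_fix ({0, 1} : Finset (Fin (m + 2)))
  rw [card_pair (by simp)] at s2
  simp only [mem_singleton, forall_eq, card_singleton, mem_insert, forall_eq_or_imp,
    Nat.add_sub_cancel, show m + 2 - 1 = m + 1 from rfl] at s0 s1 s2
  have f0 : (0 : ℝ) < m.factorial := by positivity
  have f1 : ((m + 1).factorial : ℝ) = (m + 1) * m.factorial := by
    rw [Nat.factorial_succ]; push_cast; ring
  have f2 : ((m + 2).factorial : ℝ) = (m + 2) * ((m + 1) * m.factorial) := by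
    rw [Nat.factorial_succ (m + 1)]; push_cast; rw [f1]; ring
  have hA : (A.card : ℝ) = (m + 2).factorial - (m + 1).factorial - (m + 1).factorial +
      m.factorial := by
    have : ∀ σ : Equiv.Perm (Fin (m + 2)), (if σ 0 ≠ 0 ∧ σ 1 ≠ 1 then (1 : ℝ) else 0) =
        1 - (if σ 0 = 0 then (1 : ℝ) else 0) - (if σ 1 = 1 then (1 : ℝ) else 0) +
          (if σ 0 = 0 ∧ σ 1 = 1 then (1 : ℝ) else 0) := by
      intro σ
      by_cases a : σ 0 = 0 <;> by_cases b : σ 1 = 1 <;> simp [a, b]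
    simp only [A, card_filter]
    push_cast
    simp only [this, sum_add_distrib, sum_sub_distrib, s0, s1, s2]
    simp [Fintype.card_perm]
  have hm0 : (0 : ℝ) < m + 1 := by positivity
  have hc : (A.card : ℝ) / ((m + 2 - 1).factorial : ℝ) = m + 1 / (m + 1) := by
    rw [hA, show m + 2 - 1 = m + 1 from rfl, f2, f1]; field_simp; ring
  have hm2 : (2 : ℝ) ≤ m := by rw [hm]; push_cast; linarith [Nat.cast_nonneg (α := ℝ) k]
  have hp : (0 : ℝ) < 1 / (m + 1) := by positivity
  have hr : round ((m : ℝ) + 1 / (m + 1)) = m := by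
    rw [round_natCast_add, round_eq_zero_iff.2 ⟨by linarith, by
      rw [div_lt_div_iff₀ hm0 (by norm_num)]; linarith⟩, add_zero]
  obtain ⟨S, -, -, h3⟩ := h (m + 2) (by omega) A (1 / ((m + 1) * (m + 1 / (m + 1))))
    (by positivity) ⟨fun i j => if i = 0 then (if j = 0 then 0 else 1) else
      if i = 1 then (if j = 1 then -1 else 0) else 0, by
      have : ∀ σ : Equiv.Perm (Fin (m + 2)), ((if σ ∈ A then (1 : ℝ) else 0) -
          ∑ i : Fin (m + 2), (if i = 0 then (if σ i = 0 then 0 else 1) else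
            if i = 1 then (if σ i = 1 then -1 else 0) else 0)) ^ 2 =
          if σ 0 = 0 ∧ σ 1 = 1 then (1 : ℝ) else 0 := by
        intro σ
        rw [Fin.sum_univ_succ, Fin.sum_univ_succ, sum_eq_zero fun i _ => by
          rw [if_neg (Fin.succ_ne_zero _), if_neg (Fin.succ_succ_ne_one i)]]
        by_cases a : σ 0 = 0 <;> by_cases b : σ 1 = 1 <;> simp [A, a, b]
      simp only [this, s2, hc, f2]
      refine le_of_eq ?_
      push_cast
      field_simp⟩
  rw [hc, hr] at h3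
  push_cast at h3
  rw [add_sub_cancel_left, abs_of_pos hp, mul_one_div, div_le_div_iff₀ hm0 (by positivity)] at h3
  have h4 : (k : ℝ) < m := by rw [hm]; push_cast; linarith
  nlinarith

end Pool.Agent.S11238
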