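import Pool.Statements.S11244

set_option autoImplicit false
open Pointwise
open Pool Pool.MP_c21415_co

namespace Pool.Agent.S11244

abbrev Om (n : ℕ) : Type := Fin 3 ⊕ Fin (n + 1)

def sg (n : ℕ) (i : Fin (n + 1)) : Equiv.Perm (Om n) :=
  Equiv.swap (Sum.inl 0) (Sum.inl 1) * Equiv.swap (Sum.inl 1) (Sum.inl 2) *
    Equiv.swap (Sum.inl 2) (Sum.inr i)

theorem sg0 (n : ℕ) (i : Fin (n + 1)) : sg n i (Sum.inl 0) = Sum.inl 1 := by
  simp [sg, Equiv.swap_apply_def]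

theorem sg1 (n : ℕ) (i : Fin (n + 1)) : sg n i (Sum.inl 1) = Sum.inl 2 := by
  simp [sg, Equiv.swap_apply_def]

theorem sg2 (n : ℕ) (i : Fin (n + 1)) : sg n i (Sum.inl 2) = Sum.inr i := by
  simp [sg, Equiv.swap_apply_def]

def AA (n : ℕ) : Finset (Equiv.Perm (Om n)) := Finset.univ.filter (fun g => g⁻¹ (Sum.inl 0) = Sum.inl 0)

def BB (n : ℕ) : Finset (Equiv.Perm (Om n)) := Finset.univ.image (fun i => (sg n i)⁻¹)

theorem fib (n : ℕ) (S : Finset (Equiv.Perm (Om n))) (u : Equiv.Perm (Om n))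
    (h : ∀ g ∈ S, g⁻¹ (Sum.inl 0) = u⁻¹ (Sum.inl 0)) : S.card ≤ (AA n).card := by
  refine Finset.card_le_card_of_injOn (fun g => g * u⁻¹) ?_ (fun a _ b _ hab => by simpa using hab)
  intro g hg
  simp only [AA, Finset.coe_filter, Finset.mem_univ, true_and, Set.mem_ofPred_eq, mul_inv_rev,
    inv_inv, Equiv.Perm.mul_apply, h g hg]
  simp

/-- The negation of the preceding statement: There is an absolute constant c such that for any group and finite A, B with ∣AB∣ < α∣A∣ and ∣AbB∣ ≤ α∣A∣ for every b in B, each h ≥ 1 admits a nonempty X ⊆ A with ∣XB^h∣ ≤ α^(ch)∣X∣. -/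
theorem result :
    ¬ (∃ c : ℝ, ∀ (G : Type) [Group G] [DecidableEq G] (A B : Finset G) (α : ℝ),
      (((A * B).card : ℝ) < α * (A.card : ℝ)) →
      (∀ b ∈ B, (((A * {b} * B).card : ℝ) ≤ α * (A.card : ℝ))) →
      ∀ h : ℕ, 1 ≤ h →
        ∃ X : Finset G, X ⊆ A ∧ X.Nonempty ∧
          (((X * B ^ h).card : ℝ) ≤ α ^ (c * (h : ℝ)) * (X.card : ℝ))) := by
  rintro ⟨c, h⟩
  obtain ⟨n, hn⟩ := exists_nat_gt ((2 : ℝ) ^ (c * ((3 : ℕ) : ℝ)))
  have hA : ∀ g ∈ AA n, g⁻¹ (Sum.inl 0) = Sum.inl 0 := fun g hg => by simpa [AA] using hg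
  have hB : ∀ b ∈ BB n, ∃ i, b = (sg n i)⁻¹ := fun b hb => by
    simp only [BB, Finset.mem_image, Finset.mem_univ, true_and] at hb
    obtain ⟨i, rfl⟩ := hb
    exact ⟨i, rfl⟩
  have hB' : ∀ i, (sg n i)⁻¹ ∈ BB n := fun i => Finset.mem_image_of_mem _ (Finset.mem_univ i)
  have hpos : (0 : ℝ) < (AA n).card := by
    have : (AA n).Nonempty := ⟨1, Finset.mem_filter.mpr ⟨Finset.mem_univ _, rfl⟩⟩
    exact_mod_cast this.card_pos
  have h1 : (AA n * BB n).card ≤ (AA n).card := by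
    refine fib n _ (sg n 0)⁻¹ ?_
    intro g hg
    obtain ⟨a, ha, b, hb, rfl⟩ := Finset.mem_mul.mp hg
    obtain ⟨i, rfl⟩ := hB b hb
    rw [mul_inv_rev, inv_inv, inv_inv, Equiv.Perm.mul_apply, hA a ha, sg0, sg0]
  have h2 : ∀ b ∈ BB n, (AA n * {b} * BB n).card ≤ (AA n).card := by
    intro b hb
    refine fib n _ ((sg n 0)⁻¹ * (sg n 0)⁻¹) ?_
    intro g hg
    obtain ⟨a', ha', b', hb', rfl⟩ := Finset.mem_mul.mp hg
    obtain ⟨a, ha, b'', hb'', rfl⟩ := Finset.mem_mul.mp ha'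
    rw [Finset.mem_singleton] at hb''
    subst hb''
    obtain ⟨i, rfl⟩ := hB _ hb
    obtain ⟨j, rfl⟩ := hB _ hb'
    simp only [mul_inv_rev, inv_inv, Equiv.Perm.mul_apply, hA a ha, sg0, sg1]
  obtain ⟨X, hX, hne, hb⟩ := h (Equiv.Perm (Om n)) (AA n) (BB n) 2
    (by
      have : ((AA n * BB n).card : ℝ) ≤ (AA n).card := by exact_mod_cast h1
      linarith)
    (fun b hb => by
      have : ((AA n * {b} * BB n).card : ℝ) ≤ (AA n).card := by exact_mod_cast h2 b hb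
      linarith) 3 (by norm_num)
  have h3 : (X ×ˢ (Finset.univ : Finset (Fin (n + 1)))).card ≤ (X * BB n ^ 3).card := by
    refine Finset.card_le_card_of_injOn
      (fun p => p.1 * ((sg n 0)⁻¹ * (sg n 0)⁻¹ * (sg n p.2)⁻¹)) ?_ ?_
    · rintro ⟨x, i⟩ hp
      have hx : x ∈ X := by simpa using hp
      refine Finset.mem_coe.mpr (Finset.mul_mem_mul hx ?_)
      rw [pow_succ, pow_two]
      exact Finset.mul_mem_mul (Finset.mul_mem_mul (hB' 0) (hB' 0)) (hB' i)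
    · rintro ⟨x, i⟩ hp ⟨y, j⟩ hq hpq
      have hx : x ∈ X := by simpa using hp
      have hy : y ∈ X := by simpa using hq
      have e := congrArg (fun g : Equiv.Perm (Om n) => g⁻¹ (Sum.inl 0)) hpq
      simp only [mul_inv_rev, inv_inv, Equiv.Perm.mul_apply, hA x (hX hx), hA y (hX hy), sg0, sg1,
        sg2, Sum.inr.injEq] at e
      subst e
      have : x = y := by simpa using hpq
      rw [this]
  rw [Finset.card_product, Finset.card_univ, Fintype.card_fin] at h3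
  have h4 : (X.card : ℝ) * (n + 1) ≤ (X * BB n ^ 3).card := by exact_mod_cast h3
  have h5 : (0 : ℝ) < X.card := by exact_mod_cast hne.card_pos
  nlinarith

end Pool.Agent.S11244
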