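import Pool.Statements.S11254
import Pool.Agent.H18.Tmr.Inv
-- import your own Pool.Agent.* helpers here

set_option autoImplicit false
open Pool Pool.MP_c24a34_co

namespace Pool.Agent.S11254

/-- The negation of the preceding statement: For finite oriented graphs D_1..D_k each with inversion number 1 or even, the inversion number of their join (disjoint union plus all arcs from D_i to D_j for i<j) equals the sum of their inversion numbers. -/
theorem result :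
    ¬ (∀ (k : ℕ) (n : Fin k → ℕ) (D : (i : Fin k) → Digraph (Fin (n i))),
    (∀ (i : Fin k) (a b : Fin (n i)), (D i).Adj a b → ¬ (D i).Adj b a) →
    (∀ i : Fin k,
      sInf {m : ℕ | ∃ X : Fin m → Set (Fin (n i)), ∃ f : Fin (n i) → ℕ, ∀ u v : Fin (n i),
        ((D i).Adj u v ∧ Even (Nat.card {j : Fin m // u ∈ X j ∧ v ∈ X j})) ∨
        ((D i).Adj v u ∧ Odd (Nat.card {j : Fin m // u ∈ X j ∧ v ∈ X j})) → f u < f v} = 1 ∨
      Even (sInf {m : ℕ | ∃ X : Fin m → Set (Fin (n i)), ∃ f : Fin (n i) → ℕ, ∀ u v : Fin (n i),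
        ((D i).Adj u v ∧ Even (Nat.card {j : Fin m // u ∈ X j ∧ v ∈ X j})) ∨
        ((D i).Adj v u ∧ Odd (Nat.card {j : Fin m // u ∈ X j ∧ v ∈ X j})) → f u < f v})) →
    sInf {m : ℕ | ∃ X : Fin m → Set (Σ i : Fin k, Fin (n i)),
        ∃ f : (Σ i : Fin k, Fin (n i)) → ℕ, ∀ u v : (Σ i : Fin k, Fin (n i)),
        ((u.1 < v.1 ∨ ∃ (i : Fin k) (a b : Fin (n i)),
            u = ⟨i, a⟩ ∧ v = ⟨i, b⟩ ∧ (D i).Adj a b) ∧
          Even (Nat.card {j : Fin m // u ∈ X j ∧ v ∈ X j})) ∨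
        ((v.1 < u.1 ∨ ∃ (i : Fin k) (a b : Fin (n i)),
            v = ⟨i, a⟩ ∧ u = ⟨i, b⟩ ∧ (D i).Adj a b) ∧
          Odd (Nat.card {j : Fin m // u ∈ X j ∧ v ∈ X j})) → f u < f v}
    = ∑ i : Fin k,
      sInf {m : ℕ | ∃ X : Fin m → Set (Fin (n i)), ∃ f : Fin (n i) → ℕ, ∀ u v : Fin (n i),
        ((D i).Adj u v ∧ Even (Nat.card {j : Fin m // u ∈ X j ∧ v ∈ X j})) ∨
        ((D i).Adj v u ∧ Odd (Nat.card {j : Fin m // u ∈ X j ∧ v ∈ X j})) → f u < f v}) := by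
  intro H
  obtain ⟨n, D, h1, h2, h3⟩ := Pool.Agent.H18.Tmr.exists_counter
  have H1 := H 2 (fun _ => n) (fun i => ⟨D i⟩) h1 (fun i => Or.inr (by
    have := h2 i
    unfold H18.Tmr.InvSet at this
    rw [this]; decide))
  have e : ∀ i : Fin 2, sInf {m : ℕ | ∃ X : Fin m → Set (Fin n), ∃ f : Fin n → ℕ, ∀ u v : Fin n,
        (D i u v ∧ Even (Nat.card {j : Fin m // u ∈ X j ∧ v ∈ X j})) ∨
        (D i v u ∧ Odd (Nat.card {j : Fin m // u ∈ X j ∧ v ∈ X j})) → f u < f v} = 42 := h2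
  unfold H18.Tmr.InvSet at h3
  simp only [e] at H1
  rw [H1] at h3
  simp at h3

end Pool.Agent.S11254
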