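import Pool.Statements.S11263
import Pool.Agent.H24.Ppl

set_option autoImplicit false
open Pool Pool.MP_c2a681_co

namespace Pool.Agent.S11263

/-- Take u the period-doubling word (u(2n)=a, u(2n+1)=b iff u(n)=a) and p(n) the least number of palindromes concatenating to its length-n prefix. Then the ℤ-span of the 2-kernel of p is not finitely generated, i.e. p is not 2-regular. -/
theorem result :
    ∀ u : ℕ → Bool,
      (∀ n : ℕ, u (2 * n) = false ∧ u (2 * n + 1) = !(u n)) →
      ∀ p : ℕ → ℕ,
        (∀ n : ℕ, IsLeast {k : ℕ | ∃ L : List (List Bool), L.length = k ∧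
            (∀ w ∈ L, w.reverse = w) ∧
            L.flatten = List.ofFn (fun i : Fin n => u i.val)} (p n)) →
        ¬ (Submodule.span ℤ {f : ℕ → ℤ | ∃ e r : ℕ, r < 2 ^ e ∧
            f = fun n : ℕ => ((p (2 ^ e * n + r) : ℕ) : ℤ)}).FG := by
  exact fun u hu p hp => H24.Ppl.main hu hp

end Pool.Agent.S11263
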