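import Pool.Statements.S11268
-- import your own Pool.Agent.* helpers here

set_option autoImplicit false
open Pool Pool.MP_c32a86_co

namespace Pool.Agent.S11268

section aux
variable {G : Type} [Group G] [Fintype G]

/-- indicator that `u` and `u y y` get the same colour -/
def ind (χ : G → Fin 2) (u y : G) : ℕ := if χ u = χ (u * y * y) then 1 else 0

def tot (χ : G → Fin 2) (y : G) : ℕ := ∑ u : G, ind χ u y

theorem shift (χ : G → Fin 2) (w y : G) : ∑ u : G, ind χ (u * w) y = tot χ y :=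
  Equiv.sum_comp (Equiv.mulRight w) (fun u => ind χ u y)

theorem odd7 (x0 x1 x2 x3 x4 x5 x6 : Fin 2) :
    1 ≤ (if x0 = x1 then 1 else 0) + (if x1 = x2 then 1 else 0) + (if x2 = x3 then 1 else 0)
      + (if x3 = x4 then 1 else 0) + (if x4 = x5 then 1 else 0) + (if x5 = x6 then 1 else 0)
      + (if x6 = x0 then 1 else 0 : ℕ) := by
  revert x0 x1 x2 x3 x4 x5 x6
  decide

theorem walk (χ : G → Fin 2) (y1 y2 y3 y4 y5 y6 y7 : G)
    (h : y1 * y1 * y2 * y2 * y3 * y3 * y4 * y4 * y5 * y5 * y6 * y6 * y7 * y7 = 1) :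
    Fintype.card G ≤ tot χ y1 + tot χ y2 + tot χ y3 + tot χ y4 + tot χ y5 + tot χ y6
      + tot χ y7 := by
  rw [← shift χ 1 y1, ← shift χ (y1 * y1) y2, ← shift χ (y1 * y1 * y2 * y2) y3,
    ← shift χ (y1 * y1 * y2 * y2 * y3 * y3) y4,
    ← shift χ (y1 * y1 * y2 * y2 * y3 * y3 * y4 * y4) y5,
    ← shift χ (y1 * y1 * y2 * y2 * y3 * y3 * y4 * y4 * y5 * y5) y6,
    ← shift χ (y1 * y1 * y2 * y2 * y3 * y3 * y4 * y4 * y5 * y5 * y6 * y6) y7]
  simp only [← Finset.sum_add_distrib]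
  rw [← Finset.card_univ, Finset.card_eq_sum_ones]
  refine Finset.sum_le_sum (fun u _ => ?_)
  have h7 : u * (y1 * y1 * y2 * y2 * y3 * y3 * y4 * y4 * y5 * y5 * y6 * y6) * y7 * y7 = u := by
    rw [mul_assoc, mul_assoc, ← mul_assoc _ y7 y7, h, mul_one]
  have := odd7 (χ u) (χ (u * y1 * y1)) (χ (u * y1 * y1 * y2 * y2))
    (χ (u * y1 * y1 * y2 * y2 * y3 * y3)) (χ (u * y1 * y1 * y2 * y2 * y3 * y3 * y4 * y4))
    (χ (u * y1 * y1 * y2 * y2 * y3 * y3 * y4 * y4 * y5 * y5))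
    (χ (u * y1 * y1 * y2 * y2 * y3 * y3 * y4 * y4 * y5 * y5 * y6 * y6))
  unfold ind
  rw [h7]
  simpa only [mul_one, ← mul_assoc] using this

theorem sum_bij (g : G → ℕ) (p q : G) : ∑ x : G, g (p * x * q) = ∑ x : G, g x :=
  Equiv.sum_comp ((Equiv.mulLeft p).trans (Equiv.mulRight q)) g

theorem sum_bij_inv (g : G → ℕ) (p q : G) : ∑ x : G, g (p * x⁻¹ * q) = ∑ x : G, g x :=
  Equiv.sum_comp ((Equiv.inv G).trans ((Equiv.mulLeft p).trans (Equiv.mulRight q))) g

theorem main_count (χ : G → Fin 2) :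
    Fintype.card G * Fintype.card G ≤ 7 * ∑ y : G, tot χ y := by
  set N := Fintype.card G with hN
  set T := ∑ y : G, tot χ y with hT
  have hw : ∀ a b c : G, N ≤ tot χ (a⁻¹ * b * 1) + tot χ (1 * b⁻¹ * 1) + tot χ (b * a * b⁻¹)
      + tot χ (b * a⁻¹ * c * b⁻¹) + tot χ (b * c⁻¹ * b⁻¹) + tot χ (b * c * 1)
      + tot χ ((b * c)⁻¹ * a * 1) := by
    intro a b c
    apply walk
    group
  have hsum : ∑ _a : G, ∑ _b : G, ∑ _c : G, N ≤
      ∑ a : G, ∑ b : G, ∑ c : G, (tot χ (a⁻¹ * b * 1) + tot χ (1 * b⁻¹ * 1)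
      + tot χ (b * a * b⁻¹)
      + tot χ (b * a⁻¹ * c * b⁻¹) + tot χ (b * c⁻¹ * b⁻¹) + tot χ (b * c * 1)
      + tot χ ((b * c)⁻¹ * a * 1)) :=
    Finset.sum_le_sum fun a _ => Finset.sum_le_sum fun b _ => Finset.sum_le_sum fun c _ =>
      hw a b c
  have e1 : ∑ a : G, ∑ b : G, ∑ _c : G, tot χ (a⁻¹ * b * 1) = N * N * T := by
    simp only [Finset.sum_const, Finset.card_univ, smul_eq_mul, ← Finset.mul_sum, sum_bij,
      ← hN, ← hT]
    ring
  have e2 : ∑ _a : G, ∑ b : G, ∑ _c : G, tot χ (1 * b⁻¹ * 1) = N * N * T := by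
    simp only [Finset.sum_const, Finset.card_univ, smul_eq_mul, ← Finset.mul_sum, sum_bij_inv,
      ← hN, ← hT]
    ring
  have e3 : ∑ a : G, ∑ b : G, ∑ _c : G, tot χ (b * a * b⁻¹) = N * N * T := by
    rw [Finset.sum_comm]
    simp only [Finset.sum_const, Finset.card_univ, smul_eq_mul, ← Finset.mul_sum, sum_bij,
      ← hN, ← hT]
    ring
  have e4 : ∑ a : G, ∑ b : G, ∑ c : G, tot χ (b * a⁻¹ * c * b⁻¹) = N * N * T := by
    simp only [Finset.sum_const, Finset.card_univ, smul_eq_mul, sum_bij, ← hN, ← hT]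
    ring
  have e5 : ∑ _a : G, ∑ b : G, ∑ c : G, tot χ (b * c⁻¹ * b⁻¹) = N * N * T := by
    simp only [Finset.sum_const, Finset.card_univ, smul_eq_mul, sum_bij_inv, ← hN, ← hT]
    ring
  have e6 : ∑ _a : G, ∑ b : G, ∑ c : G, tot χ (b * c * 1) = N * N * T := by
    simp only [Finset.sum_const, Finset.card_univ, smul_eq_mul, sum_bij, ← hN, ← hT]
    ring
  have e7 : ∑ a : G, ∑ b : G, ∑ c : G, tot χ ((b * c)⁻¹ * a * 1) = N * N * T := by
    rw [Finset.sum_comm]
    have : ∀ b : G, ∑ a : G, ∑ c : G, tot χ ((b * c)⁻¹ * a * 1) = N * T := by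
      intro b
      rw [Finset.sum_comm]
      simp only [Finset.sum_const, Finset.card_univ, smul_eq_mul, sum_bij, ← hN, ← hT]
    simp only [this, Finset.sum_const, Finset.card_univ, smul_eq_mul, ← hN]
    ring
  simp only [Finset.sum_add_distrib, e1, e2, e3, e4, e5, e6, e7] at hsum
  simp only [Finset.sum_const, Finset.card_univ, smul_eq_mul, ← hN] at hsum
  have hpos : 0 < N := Fintype.card_pos
  have : N * N * (N * N) ≤ N * N * (7 * T) := by nlinarith
  exact Nat.le_of_mul_le_mul_left this (Nat.mul_pos hpos hpos)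

theorem tot_eq (χ : G → Fin 2) :
    ∑ y : G, tot χ y = ∑ c : G,
      ((Finset.univ.filter (fun x : G => χ x = 0 ∧ χ (c * x⁻¹ * c) = 0)).card +
       (Finset.univ.filter (fun x : G => χ x = 1 ∧ χ (c * x⁻¹ * c) = 1)).card) := by
  unfold tot
  simp only [Finset.card_filter, ← Finset.sum_add_distrib]
  rw [Finset.sum_comm, Finset.sum_comm (γ := G) (s := Finset.univ) (t := Finset.univ)
    (f := fun c x => (if χ x = 0 ∧ χ (c * x⁻¹ * c) = 0 then 1 else 0) +
      (if χ x = 1 ∧ χ (c * x⁻¹ * c) = 1 then 1 else 0 : ℕ))]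
  refine Finset.sum_congr rfl (fun x _ => ?_)
  rw [← Equiv.sum_comp (Equiv.mulLeft x⁻¹) (fun y => ind χ x y)]
  refine Finset.sum_congr rfl (fun c _ => ?_)
  have : x * (x⁻¹ * c) * (x⁻¹ * c) = c * x⁻¹ * c := by group
  simp only [ind, Equiv.coe_mulLeft, this]
  generalize χ x = s
  generalize χ (c * x⁻¹ * c) = t
  revert s t
  decide

end aux

/-- The negation of the preceding statement: For every ε>0 and every r>1 there is a finite group G and an r-coloring of G such that, for every center c and color i, fewer than ε·∣G∣ elements x have both x and c x⁻¹ c of color i. -/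
theorem result :
    ¬ (∀ ε : ℝ, 0 < ε → ∀ r : ℕ, 1 < r →
      ∃ (G : Type) (_ : Group G) (_ : Fintype G), ∃ χ : G → Fin r,
        ∀ c : G, ∀ i : Fin r,
          ((Finset.univ.filter (fun x : G => χ x = i ∧ χ (c * x⁻¹ * c) = i)).card : ℝ)
            < ε * (Fintype.card G : ℝ)) := by
  intro h
  obtain ⟨G, _, _, χ, hχ⟩ := h (1 / 14) (by norm_num) 2 (by norm_num)
  have h1 := main_count χ
  rw [tot_eq] at h1
  have h2 : ((Fintype.card G : ℝ)) * Fintype.card G ≤ 7 * ∑ c : G,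
      (((Finset.univ.filter (fun x : G => χ x = 0 ∧ χ (c * x⁻¹ * c) = 0)).card : ℝ) +
       ((Finset.univ.filter (fun x : G => χ x = 1 ∧ χ (c * x⁻¹ * c) = 1)).card : ℝ)) := by
    exact_mod_cast h1
  have h3 : ∑ c : G,
      (((Finset.univ.filter (fun x : G => χ x = 0 ∧ χ (c * x⁻¹ * c) = 0)).card : ℝ) +
       ((Finset.univ.filter (fun x : G => χ x = 1 ∧ χ (c * x⁻¹ * c) = 1)).card : ℝ)) <
      ∑ _c : G, (1 / 7 * (Fintype.card G : ℝ)) := by
    refine Finset.sum_lt_sum_of_nonempty Finset.univ_nonempty (fun c _ => ?_)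
    have a := hχ c 0
    have b := hχ c 1
    linarith
  simp only [Finset.sum_const, Finset.card_univ, nsmul_eq_mul] at h3
  nlinarith

end Pool.Agent.S11268
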