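import Pool.Statements.S11286
-- import your own Pool.Agent.* helpers here

set_option autoImplicit false
open Pool Pool.MP_c40d78_co

namespace Pool.Agent.S11286

/-- integer coordinates of the six points -/
def Q : Fin 6 → Fin 3 → ℤ :=
  ![![-8,-4,14],![6,13,8],![0,0,0],![67,-51,4],![-188,90,-163],![0,-1,-1]]

/-- squared distances -/
def N (i j : Fin 6) : ℤ :=
  (Q i 0 - Q j 0) ^ 2 + (Q i 1 - Q j 1) ^ 2 + (Q i 2 - Q j 2) ^ 2

/-- upper bounds for 1000 times the distances -/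
def U : Fin 6 → Fin 6 → ℤ :=
  ![![1, 22826, 16614, 89074, 269379, 17263], ![22826, 1, 16402, 88505, 269826, 17692],
    ![16614, 16402, 1, 84298, 264600, 1415], ![89074, 88505, 84298, 1, 335850, 83750],
    ![269379, 269826, 264600, 335850, 1, 264328], ![17263, 17692, 1415, 83750, 264328, 1]]

noncomputable def P (i : Fin 6) : EuclideanSpace ℝ (Fin 3) :=
  WithLp.toLp 2 (fun t => (Q i t : ℝ))

def s : Fin 6 → Fin 6 := ![1, 0, 3, 2, 5, 4]

def sig : Equiv.Perm (Fin 6) := ⟨s, s, by decide, by decide⟩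

lemma UN : ∀ i j, 0 < U i j ∧ 1000000 * N i j ≤ U i j ^ 2 ∧ (U i j - 1) ^ 2 ≤ 1000000 * N i j := by
  decide +kernel

lemma dist_P (i j : Fin 6) : dist (P i) (P j) = Real.sqrt (N i j : ℝ) := by
  rw [EuclideanSpace.dist_eq]
  congr 1
  simp [P, N, Fin.sum_univ_three, Real.dist_eq, sq_abs]

lemma dist_up (i j : Fin 6) : 1000 * dist (P i) (P j) ≤ (U i j : ℝ) := by
  obtain ⟨h1, h2, -⟩ := UN i j
  have h1' : (0 : ℝ) < U i j := by exact_mod_cast h1
  have h2' : (1000000 : ℝ) * N i j ≤ (U i j : ℝ) ^ 2 := by exact_mod_cast h2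
  rw [dist_P]
  have : Real.sqrt (N i j : ℝ) ≤ (U i j : ℝ) / 1000 := by
    apply Real.sqrt_le_iff.2
    constructor
    · positivity
    · nlinarith
  linarith

lemma dist_lo (i j : Fin 6) : (U i j : ℝ) - 1 ≤ 1000 * dist (P i) (P j) := by
  obtain ⟨h1, -, h3⟩ := UN i j
  have h3' : ((U i j : ℝ) - 1) ^ 2 ≤ (1000000 : ℝ) * N i j := by exact_mod_cast h3
  rw [dist_P]
  have : ((U i j : ℝ) - 1) / 1000 ≤ Real.sqrt (N i j : ℝ) := by
    apply Real.le_sqrt_of_sq_le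
    nlinarith
  linarith

def chk (a b c d e f : Fin 6) : Bool :=
  decide ((∀ i : Fin 6, (![a, b, c, d, e, f] : Fin 6 → Fin 6) (![a, b, c, d, e, f] i) = i) →
    (∀ i : Fin 6, (![a, b, c, d, e, f] : Fin 6 → Fin 6) i ≠ i) →
    (a = 1 ∧ b = 0 ∧ c = 3 ∧ d = 2 ∧ e = 5 ∧ f = 4) ∨
    U 0 a + U 1 b + U 2 c + U 3 d + U 4 e + U 5 f + 6 ≤
      U 0 1 + U 1 0 + U 2 3 + U 3 2 + U 4 5 + U 5 4)

lemma comb0 : ∀ a b c d e f : Fin 6, chk a b c d e f = true := by
  decide +kernel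

lemma comb (a b c d e f : Fin 6) :
    (∀ i : Fin 6, (![a, b, c, d, e, f] : Fin 6 → Fin 6) (![a, b, c, d, e, f] i) = i) →
    (∀ i : Fin 6, (![a, b, c, d, e, f] : Fin 6 → Fin 6) i ≠ i) →
    (a = 1 ∧ b = 0 ∧ c = 3 ∧ d = 2 ∧ e = 5 ∧ f = 4) ∨
    U 0 a + U 1 b + U 2 c + U 3 d + U 4 e + U 5 f + 6 ≤
      U 0 1 + U 1 0 + U 2 3 + U 3 2 + U 4 5 + U 5 4 :=
  of_decide_eq_true (comb0 a b c d e f)

lemma Qinj : ∀ i j, (∀ t, Q i t = Q j t) → i = j := by decide +kernel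

lemma Pinj : Function.Injective P := by
  intro i j h
  apply Qinj
  intro t
  have := congrArg (fun v : EuclideanSpace ℝ (Fin 3) => v t) h
  simpa [P] using this

lemma maxsum (τ : Equiv.Perm (Fin 6)) (h1 : ∀ i, τ (τ i) = i) (h2 : ∀ i, τ i ≠ i) :
    ∑ i, dist (P i) (P (τ i)) ≤ ∑ i, dist (P i) (P (sig i)) := by
  have e : (![τ 0, τ 1, τ 2, τ 3, τ 4, τ 5] : Fin 6 → Fin 6) = τ := by
    funext i; fin_cases i <;> rfl
  have := comb (τ 0) (τ 1) (τ 2) (τ 3) (τ 4) (τ 5) (by rw [e]; exact h1) (by rw [e]; exact h2)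
  have s0 : sig 0 = 1 := rfl
  have s1 : sig 1 = 0 := rfl
  have s2 : sig 2 = 3 := rfl
  have s3 : sig 3 = 2 := rfl
  have s4 : sig 4 = 5 := rfl
  have s5 : sig 5 = 4 := rfl
  rw [Fin.sum_univ_six, Fin.sum_univ_six, s0, s1, s2, s3, s4, s5]
  rcases this with ⟨a, b, c, d, e, f⟩ | h
  · rw [a, b, c, d, e, f]
  · have h' : (U 0 (τ 0) : ℝ) + U 1 (τ 1) + U 2 (τ 2) + U 3 (τ 3) + U 4 (τ 4) + U 5 (τ 5) + 6 ≤
      (U 0 1 : ℝ) + U 1 0 + U 2 3 + U 3 2 + U 4 5 + U 5 4 := by exact_mod_cast h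
    have := dist_up 0 (τ 0)
    have := dist_up 1 (τ 1)
    have := dist_up 2 (τ 2)
    have := dist_up 3 (τ 3)
    have := dist_up 4 (τ 4)
    have := dist_up 5 (τ 5)
    have := dist_lo 0 1
    have := dist_lo 1 0
    have := dist_lo 2 3
    have := dist_lo 3 2
    have := dist_lo 4 5
    have := dist_lo 5 4
    linarith

lemma ball (x a b : EuclideanSpace ℝ (Fin 3)) (h : dist x (midpoint ℝ a b) < dist a b / 2) :
    (x 0 - a 0) * (x 0 - b 0) + (x 1 - a 1) * (x 1 - b 1) + (x 2 - a 2) * (x 2 - b 2) < 0 := by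
  have h0 : 0 ≤ dist x (midpoint ℝ a b) := dist_nonneg
  have h2 : dist x (midpoint ℝ a b) ^ 2 < (dist a b / 2) ^ 2 := by nlinarith
  rw [div_pow, EuclideanSpace.dist_sq_eq, EuclideanSpace.dist_sq_eq] at h2
  simp only [Fin.sum_univ_three, Real.dist_eq, sq_abs, midpoint_eq_smul_add, PiLp.smul_apply,
    PiLp.add_apply, smul_eq_mul, invOf_eq_inv] at h2
  nlinarith


/-- The negation of the preceding statement: For any dimension d and any 2n distinct points in R^d, every perfect matching maximizing the total Euclidean length of its edges has a point lying in all open balls whose diameters are the matched edges. -/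
theorem result :
    ¬ (∀ (d n : ℕ) (p : Fin (2 * n) → EuclideanSpace ℝ (Fin d)), Function.Injective p →
      ∀ σ : Equiv.Perm (Fin (2 * n)), (∀ i, σ (σ i) = i) → (∀ i, σ i ≠ i) →
        (∀ τ : Equiv.Perm (Fin (2 * n)), (∀ i, τ (τ i) = i) → (∀ i, τ i ≠ i) →
          ∑ i, dist (p i) (p (τ i)) ≤ ∑ i, dist (p i) (p (σ i))) →
        ∃ x : EuclideanSpace ℝ (Fin d), ∀ i,
          dist x (midpoint ℝ (p i) (p (σ i))) < dist (p i) (p (σ i)) / 2) := by
  intro H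
  obtain ⟨x, hx⟩ := H 3 3 P Pinj sig (by decide) (by decide) maxsum
  have a := ball _ _ _ (hx (0 : Fin 6))
  have b := ball _ _ _ (hx (2 : Fin 6))
  have c := ball _ _ _ (hx (4 : Fin 6))
  have s0 : sig 0 = 1 := rfl
  have s2 : sig 2 = 3 := rfl
  have s4 : sig 4 = 5 := rfl
  erw [s0] at a
  erw [s2] at b
  erw [s4] at c
  simp [P, Q] at a b c
  nlinarith [sq_nonneg (22 * x 0 + 1), sq_nonneg (22 * x 1 + 1), sq_nonneg (22 * x 2 - 2)]

end Pool.Agent.S11286
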