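import Pool.Statements.S11298
import Pool.Agent.H23.Theta4

set_option autoImplicit false
open Pool Pool.MP_c4704f_co

namespace Pool.Agent.S11298

open Pool.Agent.H23.Theta in
lemma lower {W : Type} [Fintype W] {τ T : ℝ} (h0 : 0 ≤ τ) (hT : τ * T < 1) (β : W → W → Bool)
    (hβ : ∀ a a', β a a' = β a' a)
    (hM : ∀ w b, ∃ M : W → W → ℝ, Psd M ∧ (∀ a, M a a ≤ T) ∧
        ∀ a a', β w a = b → β w a' = b → a ≠ a' → β a a' = b → M a a' = -1)
    {n : ℕ} (F : Fin n → Fin n → Prop) (hF : Cert τ F) (G : SimpleGraph (Fin (n + 1)))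
    (h1 : ∀ a : Fin n, G.Adj 0 a.succ) (h2 : ∀ a b, F a b → G.Adj a.succ b.succ)
    (N m : ℕ) (H : SimpleGraph (Fin m)) (hH : H.Colorable N)
    (hcol : ∀ col : Fin m → Fin m → Bool, (∀ a b, col a b = col b a) →
      ∃ (f : Fin (n + 1) → Fin m) (b : Bool), Function.Injective f ∧
        ∀ x y : Fin (n + 1), G.Adj x y → H.Adj (f x) (f y) ∧ col (f x) (f y) = b) :
    Fintype.card W < N := by
  by_contra hc
  push Not at hc
  obtain ⟨κ⟩ := hH
  obtain ⟨ι⟩ : Nonempty (Fin N ↪ W) :=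
    Function.Embedding.nonempty_of_card_le (by simpa using hc)
  obtain ⟨f, b, -, hf⟩ := hcol (fun a a' => β (ι (κ a)) (ι (κ a'))) (fun a a' => hβ _ _)
  obtain ⟨M, m1, m2, m3⟩ := hM (ι (κ (f 0))) b
  refine hF.not_vc h0 hT _ (m1.comp (fun a : Fin n => ι (κ (f a.succ)))) (fun a => m2 _)
    fun a a' h => ?_
  obtain ⟨k1, k2⟩ := hf _ _ (h2 a a' h)
  exact m3 _ _ (hf _ _ (h1 a)).2 (hf _ _ (h1 a')).2 (fun h' => κ.valid k1 (ι.injective h')) k2


/-- The negation of the preceding statement: There is c>0 such that for every finite graph G with an edge and every vertex v, the chromatic Ramsey number of G minus v is at least c times the chromatic Ramsey number of G. -/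
theorem result :
    ¬ (∃ c : ℝ, 0 < c ∧
      ∀ (n : ℕ) (G : SimpleGraph (Fin (n + 1))) (v : Fin (n + 1)),
        G.edgeSet.Nonempty →
          c * ((sInf {N : ℕ | ∃ (m : ℕ) (H : SimpleGraph (Fin m)), H.Colorable N ∧
                ∀ col : Fin m → Fin m → Bool, (∀ a b, col a b = col b a) →
                  ∃ (f : Fin (n + 1) → Fin m) (b : Bool),
                  Function.Injective f ∧
                  ∀ x y : Fin (n + 1), G.Adj x y →
                    H.Adj (f x) (f y) ∧ col (f x) (f y) = b} : ℕ) : ℝ)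
            ≤ ((sInf {N : ℕ | ∃ (m : ℕ) (H : SimpleGraph (Fin m)), H.Colorable N ∧
                ∀ col : Fin m → Fin m → Bool, (∀ a b, col a b = col b a) →
                  ∃ (f : Fin n → Fin m) (b : Bool),
                  Function.Injective f ∧
                  ∀ x y : Fin n, G.Adj (v.succAbove x) (v.succAbove y) →
                    H.Adj (f x) (f y) ∧ col (f x) (f y) = b} : ℕ) : ℝ)) := by
  rintro ⟨c, hc, h⟩
  obtain ⟨k, hk⟩ := exists_nat_gt (39 / c)
  have hk0 : (0 : ℝ) < k := lt_trans (by positivity) hk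
  have hk1 : 1 ≤ k := by exact_mod_cast hk0
  obtain ⟨p, hp, hp1, hp2⟩ := Nat.exists_prime_lt_and_le_two_mul (2 * k ^ 2) (by positivity)
  have : Fact p.Prime := ⟨hp⟩
  set s := p * (2 * k + 1) with hs
  have hp0 : 0 < p := hp.pos
  have hs1 : 1 ≤ s := Nat.mul_pos hp0 (by omega)
  have hs1' : (1 : ℝ) ≤ s := by exact_mod_cast hs1
  obtain ⟨β, hβ, hM⟩ := H23.Theta.good_colouring (K := ZMod p) (2 * k) s (by omega)
    (by rw [ZMod.card]; nlinarith) (by rw [ZMod.card]; omega)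
  obtain ⟨n, F, hn, f1, f2, f3, f4⟩ := H23.Theta.univ_graph (r := 26 * s ^ 2)
    (T := 3 * s + 1) (by linarith) (by push_cast; nlinarith)
  let G : SimpleGraph (Fin (n + 1)) :=
    { Adj := fun x y => x ≠ y ∧ ∀ a b : Fin n, x = a.succ → y = b.succ → F a b
      symm := ⟨fun x y h => ⟨h.1.symm, fun a b h1 h2 => f1 _ _ (h.2 b a h2 h1)⟩⟩
      loopless := ⟨fun x h => h.1 rfl⟩ }
  have g1 : ∀ a : Fin n, G.Adj 0 a.succ := fun a =>
    ⟨(Fin.succ_ne_zero a).symm, fun a' b h1 _ => absurd h1.symm (Fin.succ_ne_zero a')⟩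
  have g2 : ∀ a b, F a b → G.Adj a.succ b.succ := fun a b hab =>
    ⟨fun h' => f2 a b hab (Fin.succ_injective _ h'), fun a' b' h1 h2 => by
      rw [← Fin.succ_injective _ h1, ← Fin.succ_injective _ h2]; exact hab⟩
  have h3 := h n G 0 ⟨s(0, (⟨0, hn⟩ : Fin n).succ), G.mem_edgeSet.mpr (g1 _)⟩
  obtain ⟨m, H, k1, k2⟩ := H23.Theta.upper F f4
  have up := Nat.sInf_le (s := {N : ℕ | ∃ (m : ℕ) (H : SimpleGraph (Fin m)), H.Colorable N ∧
      ∀ col : Fin m → Fin m → Bool, (∀ a b, col a b = col b a) →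
        ∃ (f : Fin n → Fin m) (b : Bool), Function.Injective f ∧
          ∀ x y : Fin n, G.Adj ((0 : Fin (n + 1)).succAbove x) ((0 : Fin (n + 1)).succAbove y) →
            H.Adj (f x) (f y) ∧ col (f x) (f y) = b}) (m := 26 * s ^ 2)
    ⟨m, H, k1, fun col hcol => by
      obtain ⟨f, b, l1, l2⟩ := k2 col hcol
      exact ⟨f, b, l1, fun x y hxy => l2 x y (hxy.2 x y (by simp) (by simp))⟩⟩
  obtain ⟨m', H', l1, l2⟩ := Nat.sInf_mem (s := {N : ℕ | ∃ (m : ℕ) (H : SimpleGraph (Fin m)),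
      H.Colorable N ∧ ∀ col : Fin m → Fin m → Bool, (∀ a b, col a b = col b a) →
        ∃ (f : Fin (n + 1) → Fin m) (b : Bool), Function.Injective f ∧
          ∀ x y : Fin (n + 1), G.Adj x y → H.Adj (f x) (f y) ∧ col (f x) (f y) = b})
    (H23.Theta.ramsey_set (n + 1) G)
  have lo := lower (τ := 1 / (3 * s + 1)) (T := 3 * s) (by positivity)
    (by rw [div_mul_eq_mul_div, div_lt_one (by positivity)]; linarith) β hβ hM F f3 G g1 g2
    _ m' H' l1 l2
  rw [Fintype.card_prod, Fintype.card_prod, ZMod.card, Fintype.card_fin] at lo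
  have up' := (Nat.cast_le (α := ℝ)).mpr up
  have lo' := (Nat.cast_lt (α := ℝ)).mpr lo
  have h4 := lt_of_lt_of_le (mul_lt_mul_of_pos_left lo' hc) (h3.trans up')
  push_cast at h4
  have hs' : (s : ℝ) = p * (2 * k + 1) := by rw [hs]; push_cast; ring
  have hp' : (2 * k ^ 2 : ℝ) < p := by exact_mod_cast hp1
  have hp0' : (0 : ℝ) < p := by exact_mod_cast hp0
  have hk1' : (1 : ℝ) ≤ k := by exact_mod_cast hk1
  have h5 : c * p < 26 * (2 * k + 1) := by
    have h6 : (p * s) * (c * p) < (p * s) * (26 * (2 * k + 1)) := by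
      have : (26 : ℝ) * s ^ 2 = (p * s) * (26 * (2 * k + 1)) := by rw [sq]; nth_rewrite 2 [hs']; ring
      linarith
    exact lt_of_mul_lt_mul_left h6 (by positivity)
  rw [div_lt_iff₀ hc] at hk
  nlinarith [mul_lt_mul_of_pos_left hp' hc, mul_lt_mul_of_pos_left hk hk0]

end Pool.Agent.S11298
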