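import Pool.Statements.S11432
-- import your own Pool.Agent.* helpers here

set_option autoImplicit false
open Pool Pool.MP_ca83f8_co

namespace Pool.Agent.S11432

open Finset SimpleGraph

def F : Finset (Finset (Fin 9)) :=
  {{0, 1}, {0, 2}, {1, 2}, {3, 4}, {3, 5}, {4, 5}, {6, 7}, {6, 8}, {7, 8}}

def Tu (n : ℕ) : Finset (Finset (Fin n)) := (turanGraph n 2).edgeFinset.image Sym2.toFinset

lemma tf_inj {α : Type} [DecidableEq α] : Function.Injective (Sym2.toFinset : Sym2 α → Finset α) :=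
  fun _ _ h => Sym2.ext fun x => by rw [← Sym2.mem_toFinset, h, Sym2.mem_toFinset]

lemma Tu_card (n : ℕ) : #(Tu n) = (n ^ 2 - (n % 2) ^ 2) / 4 := by
  rw [Tu, card_image_of_injective _ tf_inj, card_edgeFinset_turanGraph,
    Nat.choose_eq_zero_of_lt (Nat.mod_lt _ two_pos)]
  simp

lemma Tu_mem {n : ℕ} (x y : Fin n) (h : {x, y} ∈ Tu n) : x.val % 2 ≠ y.val % 2 := by
  obtain ⟨e, he, h⟩ := mem_image.1 h
  rw [← Sym2.toFinset_mk_eq] at h
  rw [tf_inj h] at he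
  simpa [turanGraph_adj] using he

lemma Tu_two {n : ℕ} (e : Finset (Fin n)) (h : e ∈ Tu n) : #e = 2 := by
  obtain ⟨e, he, rfl⟩ := mem_image.1 h
  exact Sym2.card_toFinset_of_not_isDiag _ (not_isDiag_of_mem_edgeFinset he)

lemma tri {n : ℕ} (φ : Fin 9 ↪ Fin n) (a b c : Fin 9) : ∃ e ∈ ({{a, b}, {a, c}, {b, c}} :
    Finset (Finset (Fin 9))), e.map φ ∉ Tu n := by
  by_contra h
  push Not at h
  have h1 := Tu_mem (φ a) (φ b) (by simpa using h {a, b} (by simp))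
  have h2 := Tu_mem (φ a) (φ c) (by simpa using h {a, c} (by simp))
  have h3 := Tu_mem (φ b) (φ c) (by simpa using h {b, c} (by simp))
  omega

lemma upper {n : ℕ} (G : Finset (Finset (Fin n))) (h2 : ∀ e ∈ G, #e = 2)
    (h : ¬ ∃ φ : Fin 9 ↪ Fin n, ∀ e ∈ F, e.map φ ∈ G) : #G ≤ #(Tu n) + 6 * n := by
  classical
  let S : Finset (Fin n) → SimpleGraph (Fin n) := fun U =>
    ⟨fun x y => x ≠ y ∧ {x, y} ∈ G ∧ x ∉ U ∧ y ∉ U,
      ⟨fun x y h => ⟨h.1.symm, pair_comm x y ▸ h.2.1, h.2.2.2, h.2.2.1⟩⟩, ⟨fun x h => h.1 rfl⟩⟩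
  obtain ⟨U, hU, hf⟩ : ∃ U : Finset (Fin n), #U ≤ 6 ∧ (S U).CliqueFree 3 := by
    by_contra hh
    push Not at hh
    have : ∀ U : Finset (Fin n), #U ≤ 6 → ∃ a b c, (S U).Adj a b ∧ (S U).Adj a c ∧ (S U).Adj b c :=
      fun U hU => by
        obtain ⟨s, hs⟩ := not_forall_not.1 (hh U hU)
        obtain ⟨a, b, c, h1, h2, h3, -⟩ := is3Clique_iff.1 hs
        exact ⟨a, b, c, h1, h2, h3⟩
    obtain ⟨a, b, c, h1, h2, h3⟩ := this ∅ (by simp)
    obtain ⟨d, e, f, h4, h5, h6⟩ := this {a, b, c} (card_le_three.trans (by norm_num))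
    obtain ⟨g, i, j, h7, h8, h9⟩ := this ({a, b, c} ∪ {d, e, f})
      ((card_union_le _ _).trans (add_le_add card_le_three card_le_three))
    simp only [S, mem_union, mem_insert, mem_singleton, not_or] at h1 h2 h3 h4 h5 h6 h7 h8 h9
    refine h ⟨⟨![a, b, c, d, e, f, g, i, j], fun x y => ?_⟩, ?_⟩
    · fin_cases x <;> fin_cases y <;> simp <;> grind
    · simp [F, h1, h2, h3, h4, h5, h6, h7, h8, h9]
  have h3 : G ⊆ (S U).edgeFinset.image Sym2.toFinset ∪ (U ×ˢ univ).image fun p => {p.1, p.2} := by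
    intro e he
    obtain ⟨x, y, hxy, rfl⟩ := card_eq_two.1 (h2 e he)
    rw [mem_union]
    by_cases hx : x ∈ U
    · exact Or.inr (mem_image.2 ⟨(x, y), by simp [hx], rfl⟩)
    by_cases hy : y ∈ U
    · exact Or.inr (mem_image.2 ⟨(y, x), by simp [hy], pair_comm _ _⟩)
    exact Or.inl (mem_image.2 ⟨s(x, y), by simpa using ⟨hxy, he, hx, hy⟩, Sym2.toFinset_mk_eq⟩)
  refine (card_le_card h3).trans ((card_union_le _ _).trans (add_le_add (card_image_le.trans ?_)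
    (card_image_le.trans (by simp; gcongr))))
  have := CliqueFree.card_edgeFinset_le (r := 2) hf
  simp only at this
  rw [Nat.choose_eq_zero_of_lt (Nat.mod_lt _ two_pos)] at this
  simpa [Tu_card] using this


def T (n r : ℕ) (x : {x // x ∈ powersetCard 2 (univ : Finset (Fin n))}) : Finset (Fin (r + 2)) :=
  if x.1 ∈ Tu n then univ else {0, 1}

lemma good (n r : ℕ) (c : {x // x ∈ powersetCard 2 (univ : Finset (Fin n))} → Fin (r + 2))
    (hc : c ∈ Fintype.piFinset (T n r)) : ¬ ∃ φ : Fin 9 ↪ Fin n,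
    (∀ e ∈ F, e.map φ ∈ powersetCard 2 univ) ∧ ∀ e ∈ F, ∀ f ∈ F,
      ∀ x y : {x // x ∈ powersetCard 2 (univ : Finset (Fin n))},
      x.1 = e.map φ → y.1 = f.map φ → e ≠ f → c x ≠ c y := by
  rintro ⟨φ, h1, h2⟩
  obtain ⟨e1, a1, b1⟩ := tri φ 0 1 2
  obtain ⟨e2, a2, b2⟩ := tri φ 3 4 5
  obtain ⟨e3, a3, b3⟩ := tri φ 6 7 8
  obtain ⟨f1, f2, f3, n1, n2, n3⟩ : e1 ∈ F ∧ e2 ∈ F ∧ e3 ∈ F ∧ e1 ≠ e2 ∧ e1 ≠ e3 ∧ e2 ≠ e3 := by
    clear b1 b2 b3
    revert e1 e2 e3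
    decide +kernel
  have c1 := Fintype.mem_piFinset.1 hc ⟨_, h1 e1 f1⟩
  have c2 := Fintype.mem_piFinset.1 hc ⟨_, h1 e2 f2⟩
  have c3 := Fintype.mem_piFinset.1 hc ⟨_, h1 e3 f3⟩
  have d1 := h2 e1 f1 e2 f2 ⟨_, h1 e1 f1⟩ ⟨_, h1 e2 f2⟩ rfl rfl n1
  have d2 := h2 e1 f1 e3 f3 ⟨_, h1 e1 f1⟩ ⟨_, h1 e3 f3⟩ rfl rfl n2
  have d3 := h2 e2 f2 e3 f3 ⟨_, h1 e2 f2⟩ ⟨_, h1 e3 f3⟩ rfl rfl n3
  simp only [T, b1, b2, b3, if_false, mem_insert, mem_singleton] at c1 c2 c3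
  grind

lemma cnt (a r : ℕ) (h : 12 * (r + 2) + 2 ≤ a) :
    ¬Nat.card (Fintype.piFinset (T (2 * a) r)) ≤ (r + 2) ^ (#(Tu (2 * a)) + 6 * (2 * a)) := by
  intro h3
  have t1 : #(Tu (2 * a)) = a * a := by rw [Tu_card, mul_pow]; simp [sq]
  have t2 : filter (· ∈ Tu (2 * a)) (powersetCard 2 univ) = Tu (2 * a) := by
    ext e; simpa using Tu_two e
  have t3 := card_filter_add_card_filter_not (s := powersetCard 2 (univ : Finset (Fin (2 * a))))
    (· ∈ Tu (2 * a))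
  rw [t2, t1, card_powersetCard, card_univ, Fintype.card_fin, Nat.choose_two_right, mul_assoc,
    Nat.mul_div_cancel_left _ two_pos] at t3
  rw [Nat.card_eq_fintype_card, Fintype.card_coe, Fintype.card_piFinset,
    prod_congr rfl (g := fun x => if x.1 ∈ Tu (2 * a) then r + 2 else 2) fun x _ => by
      simp only [T]; split_ifs <;> simp,
    prod_coe_sort _ fun x => if x ∈ Tu (2 * a) then r + 2 else 2, prod_ite, prod_const, prod_const,
    t2, t1, pow_add] at h3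
  generalize #(filter (fun x => ¬x ∈ Tu (2 * a)) (powersetCard 2 univ)) = m at *
  have h4 := Nat.le_of_mul_le_mul_left h3 (by positivity)
  have h5 := h4.trans (Nat.pow_le_pow_left (Nat.lt_two_pow_self (n := r + 2)).le _)
  rw [← pow_mul, Nat.pow_le_pow_iff_right (by norm_num)] at h5
  obtain ⟨b, hb, hb2⟩ : ∃ b, 2 * a - 1 = b ∧ 2 * a = b + 1 := ⟨_, rfl, by omega⟩
  rw [hb] at t3
  clear h3 h4 t1 t2
  nlinarith

/-- The negation of the preceding statement: For k≥2 and a linear k-uniform F with Turán number at least c·n^k, for all large r and large n every n-vertex k-graph has at most r^ex(n,F) r-colourings without a rainbow copy of F, with equality iff it is F-extremal. -/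
theorem result :
    ¬ (∀ (k m : ℕ) (F : Finset (Finset (Fin m))) (ex : ℕ → ℕ), 2 ≤ k →
      (∀ e ∈ F, e.card = k) →
      (∀ e ∈ F, ∀ f ∈ F, e ≠ f → (e ∩ f).card ≤ 1) →
      (∀ n : ℕ, ex n = sSup {t : ℕ | ∃ G : Finset (Finset (Fin n)),
          (∀ e ∈ G, e.card = k) ∧
          (¬ ∃ φ : Fin m ↪ Fin n, ∀ e ∈ F, e.map φ ∈ G) ∧ G.card = t}) →
      (∃ c : ℝ, 0 < c ∧ ∃ N : ℕ, ∀ n ≥ N, c * (n : ℝ) ^ k ≤ (ex n : ℝ)) →
      ∃ r0 : ℕ, ∀ r ≥ r0, ∃ n0 : ℕ, ∀ n ≥ n0, ∀ H : Finset (Finset (Fin n)),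
        (∀ e ∈ H, e.card = k) →
        (Nat.card {c : {x // x ∈ H} → Fin r //
            ¬ ∃ φ : Fin m ↪ Fin n, (∀ e ∈ F, e.map φ ∈ H) ∧
              ∀ e ∈ F, ∀ f ∈ F, ∀ x y : {x // x ∈ H},
                x.1 = e.map φ → y.1 = f.map φ → e ≠ f → c x ≠ c y} ≤ r ^ ex n ∧
        (Nat.card {c : {x // x ∈ H} → Fin r //
            ¬ ∃ φ : Fin m ↪ Fin n, (∀ e ∈ F, e.map φ ∈ H) ∧
              ∀ e ∈ F, ∀ f ∈ F, ∀ x y : {x // x ∈ H},
                x.1 = e.map φ → y.1 = f.map φ → e ≠ f → c x ≠ c y} = r ^ ex n ↔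
          ((¬ ∃ φ : Fin m ↪ Fin n, ∀ e ∈ F, e.map φ ∈ H) ∧ H.card = ex n)))) := by
  classical
  intro h
  have bd : ∀ n, ∀ t ∈ {t : ℕ | ∃ G : Finset (Finset (Fin n)), (∀ e ∈ G, e.card = 2) ∧
      (¬ ∃ φ : Fin 9 ↪ Fin n, ∀ e ∈ F, e.map φ ∈ G) ∧ G.card = t}, t ≤ #(Tu n) + 6 * n := by
    rintro n _ ⟨G, h1, h2, rfl⟩
    exact upper G h1 h2
  obtain ⟨r0, hr⟩ := h 2 9 F _ le_rfl (by decide +kernel) (by decide +kernel) (fun _ => rfl) ⟨1 / 8, by norm_num, 2,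
    fun n hn => by
      have := le_csSup ⟨_, bd n⟩ ⟨Tu n, Tu_two, fun ⟨φ, hφ⟩ => by
        obtain ⟨e, he, h⟩ := tri φ 0 1 2
        exact h (hφ e (by
          simp only [mem_insert, mem_singleton] at he
          rcases he with rfl | rfl | rfl <;> decide)), rfl⟩
      refine le_trans ?_ (Nat.cast_le.2 this)
      have : n ^ 2 ≤ 8 * #(Tu n) := by
        rw [Tu_card]
        have : 4 ≤ n ^ 2 := by nlinarith
        rcases Nat.mod_two_eq_zero_or_one n with e | e <;> rw [e]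
        · obtain ⟨a, rfl⟩ := Nat.dvd_of_mod_eq_zero e
          rw [mul_pow]; omega
        · have : 9 ≤ n ^ 2 := by have : 3 ≤ n := by omega
                                 nlinarith
          omega
      have : (n : ℝ) ^ 2 ≤ 8 * #(Tu n) := by exact_mod_cast this
      linarith⟩
  obtain ⟨n0, hn⟩ := hr (r0 + 2) (by omega)
  obtain ⟨a, ha⟩ : ∃ a, a = n0 + 12 * (r0 + 2) + 2 := ⟨_, rfl⟩
  have h1 := (hn (2 * a) (by omega) (powersetCard 2 univ) fun e he => (mem_powersetCard.1 he).2).1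
  have h2 := h1.trans (Nat.pow_le_pow_right (by omega) (csSup_le' (bd _)))
  exact cnt a r0 (by omega) ((Nat.card_le_card_of_injective (α := Fintype.piFinset (T (2 * a) r0))
    (fun c => ⟨c.1, good _ _ c.1 c.2⟩) fun c d e => Subtype.ext (by simpa only [Subtype.mk.injEq] using e)).trans h2)

end Pool.Agent.S11432
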