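import Pool.Statements.S11450
-- import your own Pool.Agent.* helpers here

set_option autoImplicit false
open Pool Pool.MP_cb399b_co

namespace Pool.Agent.S11450

/-- bases, as bit masks, of the binary matroid of the vectors 1,1,2,4,6,8,10,13,15 of GF(2)^4 -/
def L : List ℕ := [45, 77, 141, 269, 53, 85, 149, 277, 165, 293, 197, 325, 57, 89, 153, 281, 105, 297, 201, 393, 113, 177, 337, 401, 225, 353, 417, 449, 46, 78, 142, 270, 54, 86, 150, 278, 166, 294, 198, 326, 58, 90, 154, 282, 106, 298, 202, 394, 114, 178, 338, 402, 226, 354, 418, 450, 172, 300, 204, 332, 180, 308, 212, 340, 184, 312, 216, 344, 232, 360, 424, 456, 240, 368, 432, 464]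

def T : ℕ := 47824534392337359322340387654400225936183356584190997663053880954447804482351628276866345970109346213524369205008250912119925679244703694848

def Lx : List ℕ := [46, 78, 142, 270, 54, 86, 150, 278, 166, 294, 198, 326, 298, 202, 178, 338, 172, 332, 308, 212, 184, 312, 216, 344, 232, 360, 424, 456, 240, 368, 432, 464]

def Ly : List ℕ := [57, 89, 153, 281, 105, 393, 113, 401, 225, 353, 417, 449, 58, 90, 154, 282, 106, 394, 114, 402, 226, 354, 418, 450]

def tb (m : ℕ) (i : Fin 9) : Bool := m.testBit i.val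

def S (m : ℕ) : Set (Fin 9) := {i | tb m i = true}

def sw (m : ℕ) (a b : Fin 9) : ℕ := m - 2 ^ a.val + 2 ^ b.val

lemma exch : ∀ m ∈ L, ∀ m' ∈ L, ∀ a : Fin 9, tb m a = true → tb m' a = false →
    ∃ b : Fin 9, tb m' b = true ∧ tb m b = false ∧ T.testBit (sw m a b) = true := by
  decide +kernel

lemma sw_spec : ∀ m ∈ L, ∀ a b : Fin 9, tb m a = true → tb m b = false →
    T.testBit (sw m a b) = true →
    sw m a b ∈ L ∧ ∀ i : Fin 9, tb (sw m a b) i = true ↔ (i = b ∨ (tb m i = true ∧ i ≠ a)) := by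
  decide +kernel

lemma hx : ∀ m ∈ L, ∀ m' ∈ L, m ||| m' = 510 → m ∈ Lx := by decide +kernel

lemma hy : ∀ m ∈ L, ∀ m' ∈ L, m ||| m' = 507 → m ∈ Ly := by decide +kernel

lemma hxy : ∀ m ∈ Lx, m ∉ Ly := by decide +kernel

lemma lt512 : ∀ m ∈ L, m < 2 ^ 9 := by decide +kernel

def M : Matroid (Fin 9) :=
  Matroid.ofIsBaseOfFinite (E := Set.univ) (Set.toFinite _) (fun B => ∃ m ∈ L, B = S m)
    ⟨S 46, 46, by decide, rfl⟩
    (by
      rintro X Y ⟨m, hm, rfl⟩ ⟨m', hm', rfl⟩ a ⟨ha, ha'⟩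
      have ha2 : tb m' a = false := by simpa [S] using ha'
      obtain ⟨b, hb, hb', hT⟩ := exch m hm m' hm' a ha ha2
      obtain ⟨h1, h2⟩ := sw_spec m hm a b ha hb' hT
      refine ⟨b, ⟨hb, by simp [S, hb']⟩, sw m a b, h1, ?_⟩
      ext i
      simp only [S, Set.mem_insert_iff, Set.mem_diff, Set.mem_ofPred_eq, Set.mem_singleton_iff]
      exact (h2 i).symm)
    (fun _ _ => Set.subset_univ _)

lemma M_base (B : Set (Fin 9)) : M.IsBase B ↔ ∃ m ∈ L, B = S m := Iff.rfl

lemma M_E : M.E = Set.univ := rfl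

lemma union_mask (m m' k : ℕ) (hm : m ∈ L) (hm' : m' ∈ L) (hk : k < 2 ^ 9)
    (h : S m ∪ S m' = S k) : m ||| m' = k := by
  apply Nat.eq_of_testBit_eq
  intro i
  by_cases hi : i < 9
  · have := Set.ext_iff.1 h ⟨i, hi⟩
    simp only [S, tb, Set.mem_union, Set.mem_ofPred_eq] at this
    rw [Nat.testBit_or, Bool.eq_iff_iff, Bool.or_eq_true]
    exact this
  · have e : ∀ n : ℕ, n < 2 ^ 9 → n.testBit i = false := fun n hn =>
      Nat.testBit_lt_two_pow (lt_of_lt_of_le hn (Nat.pow_le_pow_right (by norm_num) (by omega)))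
    rw [Nat.testBit_or, e m (lt512 m hm), e m' (lt512 m' hm'), e k hk]
    rfl

lemma S510 : (Set.univ : Set (Fin 9)) \ {0} = S 510 := by
  ext i
  fin_cases i <;> simp [S, tb] <;> decide

lemma S507 : (Set.univ : Set (Fin 9)) \ {2} = S 507 := by
  ext i
  fin_cases i <;> simp [S, tb] <;> decide

lemma part (a b k : ℕ) (ha : a ∈ L) (hb : b ∈ L)
    (hd : ∀ i : Fin 9, ¬ (tb a i = true ∧ tb b i = true))
    (hu : ∀ i : Fin 9, (tb a i = true ∨ tb b i = true) ↔ tb k i = true) :
    ∃ B : Fin 2 → Set (Fin 9), (∀ i, M.IsBase (B i)) ∧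
      (∀ i j, i ≠ j → Disjoint (B i) (B j)) ∧ (⋃ i, B i) = S k := by
  have hdis : Disjoint (S a) (S b) := Set.disjoint_left.2 (fun i h1 h2 => hd i ⟨h1, h2⟩)
  refine ⟨![S a, S b], ?_, ?_, ?_⟩
  · intro i
    fin_cases i
    · exact ⟨a, ha, rfl⟩
    · exact ⟨b, hb, rfl⟩
  · intro i j hij
    fin_cases i <;> fin_cases j
    · exact absurd rfl hij
    · exact hdis
    · exact hdis.symm
    · exact absurd rfl hij
  · ext i
    simp only [Set.mem_iUnion, Fin.exists_fin_two]
    exact hu i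

lemma other (P : Fin 2 → Set (Fin 9)) (i : Fin 2) : ∃ j, (⋃ i, P i) = P i ∪ P j := by
  fin_cases i
  · refine ⟨1, ?_⟩
    ext x
    simp [Fin.exists_fin_two]
  · refine ⟨0, ?_⟩
    ext x
    simp [Fin.exists_fin_two, or_comm]

lemma S_inj (m m' : ℕ) (hm : m ∈ L) (hm' : m' ∈ L) (h : S m = S m') : m = m' := by
  have h1 := union_mask m m m' hm hm (lt512 m' hm') (by rw [Set.union_self, h])
  rwa [Nat.or_self] at h1


/-- The negation of the preceding statement: For a finite matroid of rank r on E with ∣E∣ = kr+1, k ≥ 2, if E minus x and E minus y each split into k disjoint bases, then there are such splittings of both that have a basis in common. -/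
theorem result :
    ¬ (∀ (α : Type) (M : Matroid α) (k : ℕ), 2 ≤ k → M.E.Finite →
      M.E.encard = (k : ℕ∞) * M.eRank + 1 →
      ∀ x y : α, x ∈ M.E → y ∈ M.E →
      (∃ B : Fin k → Set α, (∀ i, M.IsBase (B i)) ∧
          (∀ i j, i ≠ j → Disjoint (B i) (B j)) ∧
          (⋃ i, B i) = M.E \ {x}) →
      (∃ B : Fin k → Set α, (∀ i, M.IsBase (B i)) ∧
          (∀ i j, i ≠ j → Disjoint (B i) (B j)) ∧
          (⋃ i, B i) = M.E \ {y}) →
      ∃ P Q : Fin k → Set α,
        (∀ i, M.IsBase (P i)) ∧ (∀ i j, i ≠ j → Disjoint (P i) (P j)) ∧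
          (⋃ i, P i) = M.E \ {x} ∧
        (∀ i, M.IsBase (Q i)) ∧ (∀ i j, i ≠ j → Disjoint (Q i) (Q j)) ∧
          (⋃ i, Q i) = M.E \ {y} ∧
        ∃ i j, P i = Q j) := by
  intro h
  have hr : M.eRank = 4 := by
    have hb : M.IsBase (S 46) := ⟨46, by decide, rfl⟩
    rw [← hb.encard_eq_eRank]
    have : S 46 = (({1, 2, 3, 5} : Finset (Fin 9)) : Set (Fin 9)) := by
      ext i
      fin_cases i <;> simp [S, tb] <;> decide
    rw [this, Set.encard_coe_eq_coe_finsetCard]
    rfl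
  obtain ⟨P, Q, hP, -, hPu, hQ, -, hQu, i, j, hij⟩ := h (Fin 9) M 2 le_rfl (Set.toFinite _)
    (by
      rw [hr, M_E, Set.encard_univ]
      simp
      rfl) 0 2 trivial trivial
    (by
      rw [M_E, S510]
      exact part 46 464 510 (by decide) (by decide) (by decide) (by decide))
    (by
      rw [M_E, S507]
      exact part 57 450 507 (by decide) (by decide) (by decide) (by decide))
  obtain ⟨i', hi'⟩ := other P i
  obtain ⟨j', hj'⟩ := other Q j
  obtain ⟨a, ha, ea⟩ := hP i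
  obtain ⟨a', ha', ea'⟩ := hP i'
  obtain ⟨b, hb, eb⟩ := hQ j
  obtain ⟨b', hb', eb'⟩ := hQ j'
  rw [hi', M_E, S510, ea, ea'] at hPu
  rw [hj', M_E, S507, eb, eb'] at hQu
  have hab : a = b := S_inj a b ha hb (by rw [← ea, ← eb, hij])
  have h1 := hx a ha a' ha' (union_mask a a' 510 ha ha' (by norm_num) hPu)
  have h2 := hy b hb b' hb' (union_mask b b' 507 hb hb' (by norm_num) hQu)
  exact hxy a h1 (hab ▸ h2)

end Pool.Agent.S11450
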