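import Pool.Statements.S11473
import Pool.Agent.H27.LocDim

set_option autoImplicit false
open Pool Pool.MP_cc29fe_co

namespace Pool.Agent.S11473

/-- Every finite connected graph with n vertices and clique number ω, where n ≥ ω+1 ≥ 4, has a set of at most (ω−2)/(ω−1)·n vertices distinguishing every adjacent pair by distance, i.e. local metric dimension ≤ (ω−2)n/(ω−1). -/
theorem result :
    ∀ (V : Type) [Fintype V] (G : SimpleGraph V), G.Connected →
      ∀ ω : ℕ, (∃ s : Finset V, G.IsNClique ω s) → G.CliqueFree (ω + 1) →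
        4 ≤ ω + 1 → ω + 1 ≤ Fintype.card V →
        ∃ W : Finset V,
          (∀ u v : V, G.Adj u v → ∃ w ∈ W, G.dist u w ≠ G.dist v w) ∧
          (W.card : ℝ) ≤ ((ω : ℝ) - 2) / ((ω : ℝ) - 1) * (Fintype.card V : ℝ) := by
  intro V _ G hc k _ hf h4 hn
  classical
  obtain ⟨W, h1, h2⟩ := H27.LocDim.main hc k (by omega) hn fun s hs => by
    by_contra h
    obtain ⟨t, ht, ht'⟩ := Finset.exists_subset_card_eq (show k + 1 ≤ s.card by omega)
    exact hf t ⟨hs.subset (by exact_mod_cast ht), ht'⟩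
  refine ⟨W, h1, ?_⟩
  obtain ⟨j, rfl⟩ : ∃ j, k = j + 2 := ⟨k - 2, by omega⟩
  have e : W.card + Wᶜ.card = Fintype.card V := by
    convert Finset.card_add_card_compl W
  have h3 : (W.card : ℝ) ≤ j * Wᶜ.card := by
    rw [Nat.add_sub_cancel] at h2
    exact_mod_cast h2
  rw [← e, div_mul_eq_mul_div, le_div_iff₀ (by push_cast; linarith [Nat.cast_nonneg (α := ℝ) j])]
  push_cast
  nlinarith

end Pool.Agent.S11473
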