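import Pool.Statements.S11510
-- import your own Pool.Agent.* helpers here

set_option autoImplicit false
open Pool Pool.MP_cde6cd_co

namespace Pool.Agent.S11510

open Complex

def T1 : Fin 8 → Fin 8 → ℕ := ![![1, 0, 0, 2, 0, 1, 3, 1], ![0, 0, 2, 2, 1, 1, 1, 1],
  ![0, 0, 2, 1, 1, 1, 3, 0], ![0, 0, 1, 1, 1, 1, 0, 0], ![0, 1, 3, 3, 1, 0, 0, 0],
  ![1, 1, 3, 3, 0, 0, 0, 0], ![1, 1, 1, 0, 0, 0, 0, 1], ![1, 1, 0, 0, 0, 0, 1, 1]]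

def T2 : Fin 8 → Fin 8 → ℕ := ![![2, 3, 0, 1, 0, 1, 2, 1], ![3, 3, 3, 3, 1, 1, 3, 3],
  ![3, 3, 1, 1, 1, 1, 1, 3], ![3, 3, 1, 1, 1, 1, 3, 3], ![1, 0, 3, 0, 1, 0, 3, 2],
  ![0, 0, 2, 2, 0, 0, 0, 0], ![0, 0, 2, 0, 0, 0, 0, 0], ![0, 0, 0, 0, 0, 0, 0, 0]]

def T3 : Fin 8 → Fin 8 → ℕ := ![![1, 2, 3, 2, 3, 0, 3, 0], ![0, 0, 2, 2, 2, 2, 0, 0],
  ![0, 2, 2, 2, 0, 0, 0, 0], ![2, 2, 2, 2, 0, 0, 0, 0], ![3, 2, 3, 0, 3, 2, 1, 0],
  ![0, 0, 0, 0, 0, 0, 0, 0], ![2, 0, 0, 0, 0, 0, 0, 0], ![0, 0, 0, 0, 0, 0, 0, 0]]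

def U1 (a b : ZMod 8) : ℕ := T1 a b
def U2 (a b : ZMod 8) : ℕ := T2 a b
def U3 (a b : ZMod 8) : ℕ := T3 a b

lemma key0 : ∀ x y : ZMod 8, (U1 y (0 - x - y) + U2 x (0 - x - y) + U3 x y) % 4 = 0 := by
  decide +kernel
lemma key1 : ∀ x y : ZMod 8, (U1 y (1 - x - y) + U2 x (1 - x - y) + U3 x y) % 4 = 0 := by
  decide +kernel
lemma key4 : ∀ x y : ZMod 8, (U1 y (4 - x - y) + U2 x (4 - x - y) + U3 x y) % 4 = 1 := by
  decide +kernel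

lemma Ipow (n : ℕ) : I ^ n = I ^ (n % 4) := by
  conv_lhs => rw [← Nat.div_add_mod n 4, pow_add, pow_mul, I_pow_four, one_pow, one_mul]

lemma avg_const (c : ℂ) :
    ((Fintype.card (ZMod 8) : ℂ) ^ 2)⁻¹ * ∑ _x : ZMod 8, ∑ _y : ZMod 8, c = c := by
  simp [ZMod.card]
  ring

lemma avg_re (u : ZMod 8 → ZMod 8 → ℂ) :
    (((Fintype.card (ZMod 8) : ℂ) ^ 2)⁻¹ * ∑ x, ∑ y, u x y).re
      = (64 : ℝ)⁻¹ * ∑ x, ∑ y, (u x y).re := by
  have h : ((Fintype.card (ZMod 8) : ℂ) ^ 2)⁻¹ = ((64 : ℝ)⁻¹ : ℝ) := by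
    simp [ZMod.card]; norm_num
  rw [h, re_ofReal_mul]
  simp [re_sum]

lemma avg_le (u : ZMod 8 → ZMod 8 → ℂ) (hu : ∀ x y, ‖u x y‖ ≤ 1) :
    (((Fintype.card (ZMod 8) : ℂ) ^ 2)⁻¹ * ∑ x, ∑ y, u x y).re ≤ 1 := by
  rw [avg_re]
  have : ∑ x, ∑ y, (u x y).re ≤ ∑ _x : ZMod 8, ∑ _y : ZMod 8, (1 : ℝ) :=
    Finset.sum_le_sum fun x _ => Finset.sum_le_sum fun y _ => (re_le_norm _).trans (hu x y)
  simp [ZMod.card] at this
  linarith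

lemma avg_eq (u : ZMod 8 → ZMod 8 → ℂ) (hu : ∀ x y, ‖u x y‖ ≤ 1)
    (h1 : 1 ≤ (((Fintype.card (ZMod 8) : ℂ) ^ 2)⁻¹ * ∑ x, ∑ y, u x y).re) :
    ∀ x y, u x y = 1 := by
  intro x y
  rw [avg_re] at h1
  have hre : (u x y).re = 1 := by
    by_contra hne
    have hlt : (u x y).re < 1 := lt_of_le_of_ne ((re_le_norm _).trans (hu x y)) hne
    have : ∑ x, ∑ y, (u x y).re < ∑ _x : ZMod 8, ∑ _y : ZMod 8, (1 : ℝ) := by
      apply Finset.sum_lt_sum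
      · intro a _
        exact Finset.sum_le_sum fun b _ => (re_le_norm _).trans (hu a b)
      · refine ⟨x, Finset.mem_univ _, ?_⟩
        apply Finset.sum_lt_sum
        · intro b _
          exact (re_le_norm _).trans (hu x b)
        · exact ⟨y, Finset.mem_univ _, hlt⟩
    simp [ZMod.card] at this
    linarith
  have hn := hu x y
  have h2 : normSq (u x y) ≤ 1 := by
    rw [normSq_eq_norm_sq]
    nlinarith [norm_nonneg (u x y)]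
  rw [normSq_apply, hre] at h2
  have him : (u x y).im = 0 := by nlinarith [mul_self_nonneg (u x y).im]
  exact Complex.ext (by simpa using hre) (by simpa using him)

lemma contra (f₁ f₂ : ZMod 8 → ZMod 8 → ℂ) (h : ZMod 8 → ℂ)
    (e0 : ∀ x y, f₁ y (0 - x - y) * f₂ x (0 - x - y) * h (x + y) = 1)
    (e1 : ∀ x y, f₁ y (1 - x - y) * f₂ x (1 - x - y) * h (x + y) = 1)
    (e4 : ∀ x y, f₁ y (4 - x - y) * f₂ x (4 - x - y) * h (x + y) = I) : False := by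
  have a0 : ∀ x y z s, 0 - x - y = z → x + y = s → f₁ y z * f₂ x z * h s = 1 := by
    intro x y z s h1 h2; rw [← h1, ← h2]; exact e0 x y
  have a1 : ∀ x y z s, 1 - x - y = z → x + y = s → f₁ y z * f₂ x z * h s = 1 := by
    intro x y z s h1 h2; rw [← h1, ← h2]; exact e1 x y
  have a4 : ∀ x y z s, 4 - x - y = z → x + y = s → f₁ y z * f₂ x z * h s = I := by
    intro x y z s h1 h2; rw [← h1, ← h2]; exact e4 x y
  have D : ∀ s, h (s + 4) ^ 2 = - h s ^ 2 := by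
    intro s
    have b1 := a0 0 s (-s) s (by ring) (by ring)
    have z1 : ∀ t : ZMod 8, 0 - 4 - (t + 4) = -t := by decide
    have z2 : ∀ t : ZMod 8, 4 + (t + 4) = t := by decide
    have b2 := a4 0 (s + 4) (-s) (s + 4) (by ring) (by ring)
    have b3 := a0 4 (s + 4) (-s) s (z1 s) (z2 s)
    have b4 := a4 4 s (-s) (s + 4) (by ring) (by ring)
    have c1 : (f₁ s (-s) * f₂ 0 (-s) * f₁ (s + 4) (-s) * f₂ 4 (-s)) * h s ^ 2 = 1 := by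
      linear_combination (f₁ (s + 4) (-s) * f₂ 4 (-s) * h s) * b1 + b3
    have c2 : (f₁ s (-s) * f₂ 0 (-s) * f₁ (s + 4) (-s) * f₂ 4 (-s)) * h (s + 4) ^ 2 = -1 := by
      have : (f₁ s (-s) * f₂ 0 (-s) * f₁ (s + 4) (-s) * f₂ 4 (-s)) * h (s + 4) ^ 2 = I * I := by
        linear_combination (f₁ s (-s) * f₂ 4 (-s) * h (s + 4)) * b2 + I * b4
      rw [this, I_mul_I]
    linear_combination (h s ^ 2) * c2 - (h (s + 4) ^ 2) * c1
  have Q : ∀ s, h s ^ 3 * h (s + 4) = I * h (s + 1) ^ 4 := by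
    intro s
    have m1 := a0 0 s (-s) s (by ring) (by ring)
    have p1 := a1 0 (s + 1) (-s) (s + 1) (by ring) (by ring)
    have m2 := a0 (-1) (s + 1) (-s) s (by ring) (by ring)
    have p2 := a1 (-1) (s + 2) (-s) (s + 1) (by ring) (by ring)
    have m3 := a0 (-2) (s + 2) (-s) s (by ring) (by ring)
    have p3 := a1 (-2) (s + 3) (-s) (s + 1) (by ring) (by ring)
    have m4 := a4 1 (s + 3) (-s) (s + 4) (by ring) (by ring)
    have p4 := a1 1 s (-s) (s + 1) (by ring) (by ring)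
    have c1 : (f₁ s (-s) * f₂ 0 (-s) * h s) * (f₁ (s + 1) (-s) * f₂ (-1) (-s) * h s) *
        (f₁ (s + 2) (-s) * f₂ (-2) (-s) * h s) * (f₁ (s + 3) (-s) * f₂ 1 (-s) * h (s + 4)) = I := by
      rw [m1, m2, m3, m4]; ring
    have c2 : (f₁ (s + 1) (-s) * f₂ 0 (-s) * h (s + 1)) *
        (f₁ (s + 2) (-s) * f₂ (-1) (-s) * h (s + 1)) *
        (f₁ (s + 3) (-s) * f₂ (-2) (-s) * h (s + 1)) * (f₁ s (-s) * f₂ 1 (-s) * h (s + 1)) = 1 := by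
      rw [p1, p2, p3, p4]; ring
    linear_combination (h (s + 1) ^ 4) * c1 - (h s ^ 3 * h (s + 4)) * c2
  have hne : ∀ s, h s ≠ 0 := by
    intro s hs
    have m1 := a0 0 s (-s) s (by ring) (by ring)
    rw [hs] at m1
    simp at m1
  have D0 := D 0
  have D1 := D 1
  have Q0 := Q 0
  have Q4 := Q 4
  have r1 : (0 : ZMod 8) + 4 = 4 := by decide
  have r2 : (0 : ZMod 8) + 1 = 1 := by decide
  have r3 : (4 : ZMod 8) + 4 = 0 := by decide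
  have r4 : (4 : ZMod 8) + 1 = 1 + 4 := by decide
  rw [r1] at D0 Q0
  rw [r2] at Q0
  rw [r3, r4] at Q4
  have k1 : h (1 + 4) ^ 4 = h 1 ^ 4 := by
    have : h (1 + 4) ^ 4 = (h (1 + 4) ^ 2) ^ 2 := by ring
    rw [this, D1]; ring
  rw [k1] at Q4
  have k2 : 2 * (h 0 ^ 3 * h 4) = 0 := by
    linear_combination Q0 - Q4 + (h 0 * h 4) * D0
  have k3 : h 0 ^ 3 * h 4 ≠ 0 := mul_ne_zero (pow_ne_zero _ (hne 0)) (hne 4)
  exact k3 (by linear_combination k2 / 2)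

/-- The negation of the preceding statement: For every finite abelian group G, the convex hull of the averages E over x1+x2+x3=g of f1(x2,x3)f2(x1,x3)f3(x1,x2), with complex f_i bounded by 1, equals the convex hull obtained when f3(x1,x2) is replaced by h(x1+x2). -/
theorem result :
    ¬ (∀ (G : Type) [AddCommGroup G] [Fintype G],
      convexHull ℝ {φ : G → ℂ | ∃ f₁ f₂ f₃ : G → G → ℂ,
          (∀ a b, ‖f₁ a b‖ ≤ 1) ∧ (∀ a b, ‖f₂ a b‖ ≤ 1) ∧ (∀ a b, ‖f₃ a b‖ ≤ 1) ∧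
          φ = fun g => ((Fintype.card G : ℂ) ^ 2)⁻¹ *
            ∑ x₁ : G, ∑ x₂ : G, f₁ x₂ (g - x₁ - x₂) * f₂ x₁ (g - x₁ - x₂) * f₃ x₁ x₂}
      = convexHull ℝ {φ : G → ℂ | ∃ f₁ f₂ : G → G → ℂ, ∃ h : G → ℂ,
          (∀ a b, ‖f₁ a b‖ ≤ 1) ∧ (∀ a b, ‖f₂ a b‖ ≤ 1) ∧ (∀ a, ‖h a‖ ≤ 1) ∧
          φ = fun g => ((Fintype.card G : ℂ) ^ 2)⁻¹ *
            ∑ x₁ : G, ∑ x₂ : G, f₁ x₂ (g - x₁ - x₂) * f₂ x₁ (g - x₁ - x₂) * h (x₁ + x₂)}) := by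
  intro H
  have H8 := H (ZMod 8)
  set φ : ZMod 8 → ℂ := fun g => ((Fintype.card (ZMod 8) : ℂ) ^ 2)⁻¹ *
    ∑ x₁ : ZMod 8, ∑ x₂ : ZMod 8,
      I ^ U1 x₂ (g - x₁ - x₂) * I ^ U2 x₁ (g - x₁ - x₂) * I ^ U3 x₁ x₂ with hφ
  have v0 : φ 0 = 1 := by
    rw [← avg_const 1, hφ]
    refine congrArg _ (Finset.sum_congr rfl fun x _ => Finset.sum_congr rfl fun y _ => ?_)
    rw [← pow_add, ← pow_add, Ipow, key0, pow_zero]
  have v1 : φ 1 = 1 := by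
    rw [← avg_const 1, hφ]
    refine congrArg _ (Finset.sum_congr rfl fun x _ => Finset.sum_congr rfl fun y _ => ?_)
    rw [← pow_add, ← pow_add, Ipow, key1, pow_zero]
  have v4 : φ 4 = I := by
    rw [← avg_const I, hφ]
    refine congrArg _ (Finset.sum_congr rfl fun x _ => Finset.sum_congr rfl fun y _ => ?_)
    rw [← pow_add, ← pow_add, Ipow, key4, pow_one]
  have hmem := subset_convexHull ℝ {φ : ZMod 8 → ℂ | ∃ f₁ f₂ f₃ : ZMod 8 → ZMod 8 → ℂ,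
          (∀ a b, ‖f₁ a b‖ ≤ 1) ∧ (∀ a b, ‖f₂ a b‖ ≤ 1) ∧ (∀ a b, ‖f₃ a b‖ ≤ 1) ∧
          φ = fun g => ((Fintype.card (ZMod 8) : ℂ) ^ 2)⁻¹ *
            ∑ x₁ : ZMod 8, ∑ x₂ : ZMod 8,
              f₁ x₂ (g - x₁ - x₂) * f₂ x₁ (g - x₁ - x₂) * f₃ x₁ x₂} (a := φ)
    ⟨fun a b => I ^ U1 a b, fun a b => I ^ U2 a b, fun a b => I ^ U3 a b,
      fun a b => by simp, fun a b => by simp, fun a b => by simp, rfl⟩
  rw [H8] at hmem
  have hconv : Convex ℝ {ψ : ZMod 8 → ℂ | (ψ 0).re + (ψ 1).re + (ψ 4).im < 3} := by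
    apply convex_halfSpace_lt (f := fun ψ : ZMod 8 → ℂ => (ψ 0).re + (ψ 1).re + (ψ 4).im)
    constructor
    · intro a b; simp; ring
    · intro c a; simp; ring
  have hsub := convexHull_min (s := {φ : ZMod 8 → ℂ | ∃ f₁ f₂ : ZMod 8 → ZMod 8 → ℂ,
          ∃ h : ZMod 8 → ℂ,
          (∀ a b, ‖f₁ a b‖ ≤ 1) ∧ (∀ a b, ‖f₂ a b‖ ≤ 1) ∧ (∀ a, ‖h a‖ ≤ 1) ∧
          φ = fun g => ((Fintype.card (ZMod 8) : ℂ) ^ 2)⁻¹ *
            ∑ x₁ : ZMod 8, ∑ x₂ : ZMod 8,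
              f₁ x₂ (g - x₁ - x₂) * f₂ x₁ (g - x₁ - x₂) * h (x₁ + x₂)}) ?_ hconv
  · have := hsub hmem
    rw [Set.mem_ofPred_eq, v0, v1, v4] at this
    simp at this
    norm_num at this
  · rintro ψ ⟨f₁, f₂, h, h1, h2, h3, rfl⟩
    rw [Set.mem_ofPred_eq]
    by_contra hge
    have hb : ∀ g x y : ZMod 8, ‖f₁ y (g - x - y) * f₂ x (g - x - y) * h (x + y)‖ ≤ 1 := by
      intro g x y
      rw [norm_mul, norm_mul]
      exact mul_le_one₀ (mul_le_one₀ (h1 _ _) (norm_nonneg _) (h2 _ _)) (norm_nonneg _) (h3 _)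
    have hb4 : ∀ x y : ZMod 8,
        ‖(-I) * (f₁ y (4 - x - y) * f₂ x (4 - x - y) * h (x + y))‖ ≤ 1 := by
      intro x y
      rw [norm_mul]
      simpa using hb 4 x y
    have e4 : (((Fintype.card (ZMod 8) : ℂ) ^ 2)⁻¹ * ∑ x : ZMod 8, ∑ y : ZMod 8,
          f₁ y (4 - x - y) * f₂ x (4 - x - y) * h (x + y)).im
        = (((Fintype.card (ZMod 8) : ℂ) ^ 2)⁻¹ * ∑ x : ZMod 8, ∑ y : ZMod 8,
          (-I) * (f₁ y (4 - x - y) * f₂ x (4 - x - y) * h (x + y))).re := by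
      simp only [← Finset.mul_sum]
      rw [mul_left_comm]
      generalize (((Fintype.card (ZMod 8) : ℂ) ^ 2)⁻¹ * ∑ x : ZMod 8, ∑ y : ZMod 8,
          f₁ y (4 - x - y) * f₂ x (4 - x - y) * h (x + y)) = w
      simp
    have l0 := avg_le _ (hb 0)
    have l1 := avg_le _ (hb 1)
    have l4 := avg_le _ hb4
    beta_reduce at hge
    rw [e4] at hge
    push Not at hge
    refine contra f₁ f₂ h (avg_eq _ (hb 0) (by linarith)) (avg_eq _ (hb 1) (by linarith)) ?_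
    intro x y
    have := avg_eq _ hb4 (by linarith) x y
    linear_combination I * this + (f₁ y (4 - x - y) * f₂ x (4 - x - y) * h (x + y)) * I_mul_I

end Pool.Agent.S11510
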