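import Pool.Statements.S11520

set_option autoImplicit false
open MeasureTheory
open Pool Pool.MP_ced1be_co

namespace Pool.Agent.S11520

abbrev E := EuclideanSpace ℝ (Fin 2)

open Metric Set

lemma vball (x : E) {r : ℝ} (hr : 0 ≤ r) : volume.real (ball x r) = r ^ 2 * Real.pi := by
  rw [Measure.real, EuclideanSpace.volume_ball_fin_two, ENNReal.toReal_mul, ENNReal.toReal_pow,
    ENNReal.toReal_ofReal hr, ENNReal.toReal_ofReal Real.pi_pos.le]

lemma fin_of_sub {X : Set E} {r : ℝ} (h : X ⊆ ball 0 r) : volume X ≠ ⊤ :=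
  ((measure_mono h).trans_lt measure_ball_lt_top).ne

lemma vneg (X : Set E) : volume.real (-X) = volume.real X := by
  rw [Measure.real, Measure.real, Measure.measure_neg]

lemma perp (u : E) (hu : ‖u‖ = 1) : ∃ w : E, ∀ (x : E) (t : ℝ),
    ‖x - t • w‖ ^ 2 = (inner ℝ u x) ^ 2 + (inner ℝ w x - t) ^ 2 := by
  refine ⟨WithLp.toLp 2 ![-u 1, u 0], fun x t => ?_⟩
  have h : u 0 ^ 2 + u 1 ^ 2 = 1 := by
    have := EuclideanSpace.real_norm_sq_eq u
    rw [hu, Fin.sum_univ_two] at this
    linarith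
  rw [EuclideanSpace.real_norm_sq_eq, Fin.sum_univ_two]
  simp only [PiLp.inner_apply, Fin.sum_univ_two, RCLike.inner_apply, conj_trivial, PiLp.sub_apply,
    PiLp.smul_apply, smul_eq_mul, Matrix.cons_val_zero, Matrix.cons_val_one]
  linear_combination (t ^ 2 - x 0 ^ 2 - x 1 ^ 2) * h

lemma mem_ball_sq {x y : E} {r : ℝ} (hr : 0 < r) : x ∈ ball y r ↔ ‖x - y‖ ^ 2 < r ^ 2 := by
  rw [mem_ball, dist_eq_norm, sq_lt_sq₀ (norm_nonneg _) hr.le]

def A1 : Set E := ball 0 1001 ∪ (ball 0 501002 \ ball 0 501000)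
def A2 : Set E := ball 0 24000

lemma A1_sub : A1 ⊆ ball 0 501002 := by
  rintro x (h | h)
  · exact ball_subset_ball (by norm_num) h
  · exact h.1

lemma A1_meas : MeasurableSet A1 :=
  measurableSet_ball.union (measurableSet_ball.diff measurableSet_ball)

lemma vA1 : volume.real A1 = 3006005 * Real.pi := by
  have hd : Disjoint (ball (0 : E) 1001) (ball 0 501002 \ ball 0 501000) :=
    disjoint_left.2 fun x h1 h2 => h2.2 (ball_subset_ball (by norm_num) h1)
  rw [A1, measureReal_union hd (measurableSet_ball.diff measurableSet_ball)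
    measure_ball_lt_top.ne (fin_of_sub diff_subset),
    measureReal_diff (ball_subset_ball (by norm_num)) measurableSet_ball measure_ball_lt_top.ne,
    vball _ (by norm_num), vball _ (by norm_num), vball _ (by norm_num)]
  ring

/-- A set far from the centre on one side gets less than a third of `A1`. -/
lemma caseI {S : Set E} (hS : MeasurableSet S) {u : E} (hu : ‖u‖ = 1)
    (h : ∀ x ∈ S, 1001 ≤ inner ℝ u x) : volume.real (A1 ∩ S) ≤ 1002001.5 * Real.pi := by
  obtain ⟨w, hw⟩ := perp u hu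
  set X := A1 ∩ S with hX
  have hXm : MeasurableSet X := A1_meas.inter hS
  have hn : ∀ x : E, inner ℝ u x ≤ ‖x‖ := fun x => by
    simpa [hu] using real_inner_le_norm u x
  have hXa : ∀ x ∈ X, x ∈ ball (0 : E) 501002 \ ball 0 501000 := by
    rintro x ⟨h1 | h1, h2⟩
    · have := h x h2
      have := hn x
      rw [mem_ball_zero_iff] at h1
      linarith
    · exact h1
  have hXa' : ∀ x ∈ -X, x ∈ ball (0 : E) 501002 \ ball 0 501000 := by
    intro x hx
    have := hXa (-x) hx
    simpa using this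
  have hB : ∀ x ∈ ball ((501001 : ℝ) • w) 1, x ∈ ball (0 : E) 501002 \ ball 0 501000 ∧
      inner ℝ u x < 1 ∧ -1 < inner ℝ u x := by
    intro x hx
    rw [mem_ball_sq one_pos, hw] at hx
    have h0 := hw x 0
    simp only [zero_smul, sub_zero] at h0
    refine ⟨⟨?_, ?_⟩, ?_, ?_⟩
    · rw [mem_ball_sq (by norm_num), sub_zero, h0]
      nlinarith [sq_nonneg (inner ℝ u x), sq_nonneg (inner ℝ w x - 501001 - 1)]
    · rw [mem_ball_sq (by norm_num), sub_zero, h0, not_lt]
      have : 501000 < inner ℝ w x := by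
        nlinarith [sq_nonneg (inner ℝ u x), sq_nonneg (inner ℝ w x - 501001 + 1)]
      nlinarith [sq_nonneg (inner ℝ u x)]
    · nlinarith [sq_nonneg (inner ℝ w x - 501001), sq_nonneg (inner ℝ u x - 1)]
    · nlinarith [sq_nonneg (inner ℝ w x - 501001), sq_nonneg (inner ℝ u x + 1)]
  have hneg : ∀ x ∈ -X, inner ℝ u x ≤ -1001 := by
    intro x hx
    have := h (-x) hx.2
    rw [inner_neg_right] at this
    linarith
  have d1 : Disjoint X (-X) := disjoint_left.2 fun x h1 h2 => by
    have := h x h1.2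
    have := hneg x h2
    linarith
  have d2 : Disjoint (X ∪ -X) (ball ((501001 : ℝ) • w) 1) := disjoint_left.2 fun x h1 h2 => by
    obtain ⟨-, h3, h4⟩ := hB x h2
    rcases h1 with h1 | h1
    · have := h x h1.2
      linarith
    · have := hneg x h1
      linarith
  have s1 : X ⊆ ball 0 501002 := fun x hx => (hXa x hx).1
  have s2 : -X ⊆ ball 0 501002 := fun x hx => (hXa' x hx).1
  have hsub : (X ∪ -X) ∪ ball ((501001 : ℝ) • w) 1 ⊆ ball (0 : E) 501002 \ ball 0 501000 := by
    rintro x ((hx | hx) | hx)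
    exacts [hXa x hx, hXa' x hx, (hB x hx).1]
  have := measureReal_mono (μ := volume) hsub (fin_of_sub diff_subset)
  rw [measureReal_union d2 measurableSet_ball (fin_of_sub (union_subset s1 s2))
    measure_ball_lt_top.ne, measureReal_union d1 hXm.neg (fin_of_sub s1) (fin_of_sub s2), vneg,
    measureReal_diff (ball_subset_ball (by norm_num)) measurableSet_ball measure_ball_lt_top.ne,
    vball _ (by norm_num), vball _ (by norm_num), vball _ (by norm_num)] at this
  linarith

/-- A set containing nearly half of `A2` gets more than a third of it. -/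
lemma caseII {S : Set E} {u : E} (hu : ‖u‖ = 1)
    (h : ∀ x ∈ A2, 3000 < inner ℝ u x → x ∈ S) :
    194428800 * Real.pi ≤ volume.real (A2 ∩ S) := by
  obtain ⟨w, hw⟩ := perp u hu
  set X := A2 ∩ S with hX
  have hsub : A2 ⊆ (X ∪ -X) ∪ ((ball ((18000 : ℝ) • w) 6840 ∪ ball ((6000 : ℝ) • w) 6840) ∪
      (ball ((-6000 : ℝ) • w) 6840 ∪ ball ((-18000 : ℝ) • w) 6840)) := by
    intro x hx
    by_cases h1 : 3000 < inner ℝ u x
    · exact Or.inl (Or.inl ⟨hx, h x hx h1⟩)
    by_cases h2 : 3000 < inner ℝ u (-x)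
    · have hx' : -x ∈ A2 := by simpa [A2] using hx
      exact Or.inl (Or.inr ⟨hx', h _ hx' h2⟩)
    rw [inner_neg_right] at h2
    have h0 := hw x 0
    simp only [zero_smul, sub_zero] at h0
    rw [A2, mem_ball_sq (by norm_num), sub_zero, h0] at hx
    have hu2 : inner ℝ u x ^ 2 ≤ 3000 ^ 2 := by nlinarith
    have hw1 : inner ℝ w x < 24000 := by
      nlinarith [sq_nonneg (inner ℝ u x), sq_nonneg (inner ℝ w x - 24000)]
    have hw2 : -24000 < inner ℝ w x := by
      nlinarith [sq_nonneg (inner ℝ u x), sq_nonneg (inner ℝ w x + 24000)]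
    right
    simp only [mem_union]
    rw [mem_ball_sq (by norm_num), mem_ball_sq (by norm_num), mem_ball_sq (by norm_num),
      mem_ball_sq (by norm_num), hw, hw, hw, hw]
    rcases le_total 12000 (inner ℝ w x) with c1 | c1
    · left; left; nlinarith
    rcases le_total 0 (inner ℝ w x) with c2 | c2
    · left; right; nlinarith
    rcases le_total (-12000) (inner ℝ w x) with c3 | c3
    · right; left; nlinarith
    · right; right; nlinarith
  have s1 : X ⊆ ball 0 24000 := fun x hx => hx.1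
  have s2 : -X ⊆ ball 0 24000 := fun x hx => by simpa [A2] using hx.1
  have hfin : volume ((X ∪ -X) ∪ ((ball ((18000 : ℝ) • w) 6840 ∪ ball ((6000 : ℝ) • w) 6840) ∪
      (ball ((-6000 : ℝ) • w) 6840 ∪ ball ((-18000 : ℝ) • w) 6840))) ≠ ⊤ := by
    refine measure_union_ne_top (fin_of_sub (union_subset s1 s2)) (measure_union_ne_top
      (measure_union_ne_top ?_ ?_) (measure_union_ne_top ?_ ?_)) <;> exact measure_ball_lt_top.ne
  have k := measureReal_mono (μ := volume) hsub hfin
  have k1 := measureReal_union_le (μ := volume) (X ∪ -X)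
    ((ball ((18000 : ℝ) • w) 6840 ∪ ball ((6000 : ℝ) • w) 6840) ∪
      (ball ((-6000 : ℝ) • w) 6840 ∪ ball ((-18000 : ℝ) • w) 6840))
  have k2 := measureReal_union_le (μ := volume) X (-X)
  have k3 := measureReal_union_le (μ := volume)
    (ball ((18000 : ℝ) • w) 6840 ∪ ball ((6000 : ℝ) • w) 6840)
      (ball ((-6000 : ℝ) • w) 6840 ∪ ball ((-18000 : ℝ) • w) 6840)
  have k4 := measureReal_union_le (μ := volume)
    (ball ((18000 : ℝ) • w) 6840) (ball ((6000 : ℝ) • w) 6840)
  have k5 := measureReal_union_le (μ := volume)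
    (ball ((-6000 : ℝ) • w) 6840) (ball ((-18000 : ℝ) • w) 6840)
  rw [vball _ (by norm_num), vball _ (by norm_num)] at k4 k5
  rw [A2, vball _ (by norm_num)] at k
  rw [vneg] at k2
  linarith

lemma unit (p : E) : ∃ u : E, ‖u‖ = 1 ∧ p = ‖p‖ • u := by
  by_cases hp : p = 0
  · exact ⟨EuclideanSpace.single 0 1, by simp, by simp [hp]⟩
  · have : ‖p‖ ≠ 0 := norm_ne_zero_iff.2 hp
    exact ⟨‖p‖⁻¹ • p, by simp [norm_smul, this], by simp [smul_smul, this]⟩

lemma geom {S : Set E}
    (hS : (∃ (p : E) (r : ℝ), 0 < r ∧ S = ball p r) ∨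
      (∃ (v : E) (c : ℝ), v ≠ 0 ∧ S = {x : E | inner ℝ v x < c})) :
    (∃ u : E, ‖u‖ = 1 ∧ ∀ x ∈ S, 1001 ≤ inner ℝ u x) ∨
    (∃ u : E, ‖u‖ = 1 ∧ ∀ x ∈ A2, 3000 < inner ℝ u x → x ∈ S) ∨ S ⊆ ball 0 501000 := by
  rcases hS with ⟨p, r, hr, rfl⟩ | ⟨v, c, hv, rfl⟩
  · obtain ⟨u, hu, hp⟩ := unit p
    have hup : inner ℝ u p = ‖p‖ := by
      conv_lhs => rw [hp]
      rw [inner_smul_right, real_inner_self_eq_norm_sq, hu]; ring
    by_cases h1 : r + 1001 ≤ ‖p‖
    · refine Or.inl ⟨u, hu, fun x hx => ?_⟩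
      have := real_inner_le_norm u (p - x)
      rw [mem_ball', dist_eq_norm] at hx
      rw [inner_sub_right, hu, hup] at this
      linarith
    by_cases h2 : ‖p‖ + r ≤ 501000
    · refine Or.inr (Or.inr fun x hx => ?_)
      rw [mem_ball, dist_eq_norm] at hx
      rw [mem_ball_zero_iff]
      have := norm_add_le (x - p) p
      rw [sub_add_cancel] at this
      linarith
    refine Or.inr (Or.inl ⟨u, hu, fun x hx hx' => ?_⟩)
    rw [A2, mem_ball_sq (by norm_num), sub_zero] at hx
    have hpx : inner ℝ x p = ‖p‖ * inner ℝ u x := by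
      conv_lhs => rw [hp]
      rw [inner_smul_right, real_inner_comm]
    rw [mem_ball_sq hr, norm_sub_sq_real, hpx]
    have hs := norm_nonneg p
    rw [not_le] at h1 h2
    have hr' : 249999 < r := by linarith
    generalize ‖p‖ = s at *
    have e1 : s * 3000 ≤ s * inner ℝ u x := mul_le_mul_of_nonneg_left hx'.le hs
    rcases le_total s 6000 with c1 | c1
    · nlinarith
    · have : (s - 3000) ^ 2 ≤ (r - 1999) ^ 2 := by
        apply pow_le_pow_left₀ <;> linarith
      nlinarith
  · obtain ⟨u, hu, hp⟩ := unit (-v)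
    have hn : 0 < ‖-v‖ := by simpa using hv
    have hvx : ∀ x : E, inner ℝ v x = -(‖-v‖ * inner ℝ u x) := fun x => by
      rw [← real_inner_smul_left, ← hp, inner_neg_left, neg_neg]
    by_cases h1 : ‖-v‖ * 1001 ≤ -c
    · refine Or.inl ⟨u, hu, fun x hx => ?_⟩
      rw [mem_setOf_eq, hvx] at hx
      exact le_of_mul_le_mul_left (by linarith) hn
    · refine Or.inr (Or.inl ⟨u, hu, fun x _ hx' => ?_⟩)
      rw [mem_setOf_eq, hvx]
      have := mul_lt_mul_of_pos_left hx' hn
      linarith


/-- The negation of the preceding statement: For any two measurable planar sets of finite area, some open disk or open half-plane contains exactly one third of the area of each set. -/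
theorem result :
    ¬ (∀ A₁ A₂ : Set (EuclideanSpace ℝ (Fin 2)),
      MeasurableSet A₁ → MeasurableSet A₂ →
      volume A₁ < ⊤ → volume A₂ < ⊤ →
      ∃ S : Set (EuclideanSpace ℝ (Fin 2)),
        ((∃ (p : EuclideanSpace ℝ (Fin 2)) (r : ℝ), 0 < r ∧ S = Metric.ball p r) ∨
         (∃ (v : EuclideanSpace ℝ (Fin 2)) (c : ℝ), v ≠ 0 ∧
            S = {x : EuclideanSpace ℝ (Fin 2) | inner ℝ v x < c})) ∧
        volume (A₁ ∩ S) = volume A₁ / 3 ∧
        volume (A₂ ∩ S) = volume A₂ / 3) := by
  intro h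
  obtain ⟨S, hS, h1, h2⟩ := h A1 A2 A1_meas measurableSet_ball (fin_of_sub A1_sub).lt_top
    measure_ball_lt_top
  have hm : MeasurableSet S := by
    rcases hS with ⟨p, r, -, rfl⟩ | ⟨v, c, -, rfl⟩
    · exact measurableSet_ball
    · exact (isOpen_lt (continuous_const.inner continuous_id) continuous_const).measurableSet
  have e1 : volume.real (A1 ∩ S) = volume.real A1 / 3 := by
    rw [Measure.real, h1, ENNReal.toReal_div]; rfl
  have e2 : volume.real (A2 ∩ S) = volume.real A2 / 3 := by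
    rw [Measure.real, h2, ENNReal.toReal_div]; rfl
  have v2 : volume.real A2 = 24000 ^ 2 * Real.pi := vball _ (by norm_num)
  rw [vA1] at e1
  rw [v2] at e2
  have hpi := Real.pi_pos
  rcases geom hS with ⟨u, hu, h3⟩ | ⟨u, hu, h3⟩ | h3
  · have := caseI hm hu h3
    linarith
  · have := caseII hu h3
    linarith
  · have hsub : A1 ∩ S ⊆ Metric.ball 0 1001 := by
      rintro x ⟨hx | hx, hx'⟩
      · exact hx
      · exact absurd (h3 hx') hx.2
    have := measureReal_mono (μ := volume) hsub measure_ball_lt_top.ne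
    rw [vball _ (by norm_num)] at this
    linarith

end Pool.Agent.S11520
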