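import Pool.Statements.S11547
import Pool.Agent.H6.SidE

set_option autoImplicit false
open Pool Pool.MP_cfb0df_co

namespace Pool.Agent.S11547


/-- There exist k ≥ 2, r > k and a k-uniform hypergraph H that fails the Sidorenko density inequality for some finite k-graph, while its r-expansion (each edge padded with r−k new degree-one vertices) satisfies the Sidorenko inequality against every finite r-graph. -/
theorem result :
    ∃ (k r a m : ℕ) (e : Fin m → Finset (Fin a)),
      2 ≤ k ∧ k < r ∧ Function.Injective e ∧ (∀ i, (e i).card = k) ∧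
      (¬ ∀ n : ℕ, 0 < n → ∀ G : Finset (Finset (Fin n)), (∀ g ∈ G, g.card = k) →
        (((k.factorial * G.card : ℕ) : ℝ) / (n : ℝ) ^ k) ^ m ≤
          ((Finset.univ.filter
              (fun f : Fin a → Fin n => ∀ i : Fin m, (e i).image f ∈ G)).card : ℝ)
            / (n : ℝ) ^ a) ∧
      (∀ n : ℕ, 0 < n → ∀ G : Finset (Finset (Fin n)), (∀ g ∈ G, g.card = r) →
        (((r.factorial * G.card : ℕ) : ℝ) / (n : ℝ) ^ r) ^ m ≤
          ((Finset.univ.filter
              (fun f : Fin a ⊕ (Fin m × Fin (r - k)) → Fin n =>
                ∀ i : Fin m,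
                  ((e i).image (Sum.inl : Fin a → Fin a ⊕ (Fin m × Fin (r - k))) ∪
                    (Finset.univ : Finset (Fin (r - k))).image
                      (fun j : Fin (r - k) =>
                        (Sum.inr (i, j) : Fin a ⊕ (Fin m × Fin (r - k))))).image f ∈ G)).card : ℝ)
            / (n : ℝ) ^ (a + m * (r - k))) := by
  refine ⟨2, 3, 11, 12, fun i => {Pool.Agent.H6.SidE.ea i, Pool.Agent.H6.SidE.eb i}, le_rfl,
    by norm_num, by decide, by decide, ?_, fun n hn G hG => Pool.Agent.H6.SidE.hyper n hn G hG⟩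
  intro h
  have h1 := h 2 (by norm_num) {{0, 1}} (by decide)
  have h2 : (Finset.univ.filter (fun f : Fin 11 → Fin 2 => ∀ i : Fin 12,
      ({Pool.Agent.H6.SidE.ea i, Pool.Agent.H6.SidE.eb i} : Finset (Fin 11)).image f ∈
        ({{0, 1}} : Finset (Finset (Fin 2))))) = ∅ := by
    rw [Finset.filter_eq_empty_iff]
    intro f _ hf
    have key : ∀ i, (f (Pool.Agent.H6.SidE.ea i)).val ≠ (f (Pool.Agent.H6.SidE.eb i)).val := by
      intro i e
      have h3 := hf i
      rw [Finset.mem_singleton, Finset.image_insert, Finset.image_singleton, Fin.ext e] at h3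
      have h4 := congrArg Finset.card h3
      simp at h4
    have k0 : (f 5).val ≠ (f 6).val := key 0
    have k1 : (f 0).val ≠ (f 10).val := key 1
    have k2 : (f 10).val ≠ (f 9).val := key 2
    have k3 : (f 9).val ≠ (f 5).val := key 3
    have k4 : (f 0).val ≠ (f 8).val := key 4
    have k5 : (f 8).val ≠ (f 7).val := key 5
    have k6 : (f 7).val ≠ (f 6).val := key 6
    have := (f 0).2
    have := (f 5).2
    have := (f 6).2
    have := (f 7).2
    have := (f 8).2
    have := (f 9).2
    have := (f 10).2
    omega
  rw [h2] at h1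
  norm_num at h1

end Pool.Agent.S11547
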