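import Pool.Statements.S11695
import Pool.Agent.H5.Insc1
import Pool.Agent.H5.Insc2
import Pool.Agent.H5.Insc3

set_option autoImplicit false
open Pool Pool.MP_d56329_co

namespace Pool.Agent.S11695

open Pool.Agent.H5.Insc Finset
open scoped InnerProductSpace

variable {E : Type} [NormedAddCommGroup E] [InnerProductSpace ℝ E]

theorem main [FiniteDimensional ℝ E] [Nontrivial E] (P : Set E) (hPc : IsCompact P) (p : E)
    (X : Finset E) (hX : X.card ≤ Module.finrank ℝ E + 3)
    (hP : ∀ x, x ∈ P ↔ ∀ a ∈ X, ⟪a, x - p⟫_ℝ ≤ 1) :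
    ∃ (Φ : (E × ℝ) ≃ₗ[ℝ] (E × ℝ)) (c : E) (r : ℝ), (∀ x ∈ P, 0 < (Φ (x, 1)).2) ∧
      ∀ x ∈ P.extremePoints ℝ, pm Φ x ∈ Metric.sphere c r := by
  classical
  have hrec : ∀ v : E, (∀ a ∈ X, ⟪a, v⟫_ℝ ≤ 0) → v = 0 := by
    intro v hv
    by_contra h0
    obtain ⟨R, hR⟩ := hPc.isBounded.subset_closedBall p
    have hn : 0 < ‖v‖ := norm_pos_iff.2 h0
    have := hR ((hP (p + ((|R| + 1) / ‖v‖) • v)).2 fun a ha => by
      rw [add_sub_cancel_left, real_inner_smul_right]
      have : (|R| + 1) / ‖v‖ * ⟪a, v⟫_ℝ ≤ 0 :=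
        mul_nonpos_of_nonneg_of_nonpos (by positivity) (hv a ha)
      linarith)
    rw [mem_closedBall_iff_norm, add_sub_cancel_left, norm_smul, Real.norm_of_nonneg (by positivity),
      div_mul_cancel₀ _ hn.ne'] at this
    linarith [le_abs_self R]
  have hXne : X.Nonempty := by
    by_contra h
    obtain ⟨v, hv⟩ := exists_ne (0 : E)
    exact hv (hrec v fun a ha => absurd ⟨a, ha⟩ h)
  let L : (E × ℝ) →ₗ[ℝ] (X → ℝ) :=
    { toFun := fun w i => w.2 - ⟪(i : E), w.1⟫_ℝ
      map_add' := by intro w w'; funext i; simp [inner_add_right]; ring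
      map_smul' := by intro t w; funext i; simp [real_inner_smul_right]; ring }
  have hLa : ∀ u t i, L (u, t) i = t - ⟪(i : E), u⟫_ℝ := fun _ _ _ => rfl
  have hL : Function.Injective L := by
    rw [← LinearMap.ker_eq_bot, LinearMap.ker_eq_bot']
    rintro ⟨v, t⟩ h
    have h1 : ∀ a ∈ X, ⟪a, v⟫_ℝ = t := fun a ha => by
      have := congrFun h ⟨a, ha⟩
      rw [hLa] at this
      simp only [Pi.zero_apply] at this
      linarith
    have hv : v = 0 := by
      rcases le_total t 0 with ht | ht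
      · exact hrec v fun a ha => by rw [h1 a ha]; exact ht
      · exact neg_eq_zero.1 (hrec (-v) fun a ha => by rw [inner_neg_right, h1 a ha]; linarith)
    obtain ⟨a, ha⟩ := hXne
    have := h1 a ha
    rw [hv, inner_zero_right] at this
    rw [hv, ← this]; rfl
  obtain ⟨f, hf⟩ : ∃ f : ((X → ℝ) ⧸ LinearMap.range L) →ₗ[ℝ] (ℝ × ℝ), Function.Injective f := by
    rw [← finrank_le_iff_exists_linearMap]
    have h1 := (LinearMap.range L).finrank_quotient_add_finrank
    rw [LinearMap.finrank_range_of_inj hL] at h1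
    simp at h1 ⊢
    omega
  let G : (X → ℝ) →ₗ[ℝ] (ℝ × ℝ) := f ∘ₗ (LinearMap.range L).mkQ
  have hG0 : ∀ y, G y = 0 ↔ ∃ w, L w = y := by
    intro y
    simp only [G, LinearMap.comp_apply, map_eq_zero_iff f hf, Submodule.mkQ_apply,
      Submodule.Quotient.mk_eq_zero, LinearMap.mem_range]
  let α : X → ℝ := fun i => (G fun j => if i = j then 1 else 0).1
  let β : X → ℝ := fun i => (G fun j => if i = j then 1 else 0).2
  have hG1 : ∀ y, G y = (∑ i, y i * α i, ∑ i, y i * β i) := by
    intro y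
    rw [LinearMap.pi_apply_eq_sum_univ G y]
    ext
    · simp [Prod.fst_sum, α]
    · simp [Prod.snd_sum, β]
  obtain ⟨θ, hθ⟩ := Infinite.exists_notMem_finset (univ.image fun i => -α i / β i)
  have hG : ∀ y : X → ℝ, (∑ i, y i * (α i + θ * β i) = 0 ∧ ∑ i, y i * β i = 0) ↔ ∃ w, L w = y := by
    intro y
    have e : ∑ i, y i * (α i + θ * β i) = ∑ i, y i * α i + θ * ∑ i, y i * β i := by
      rw [mul_sum, ← sum_add_distrib]; exact sum_congr rfl fun i _ => by ring
    rw [← hG0, hG1, e, Prod.mk_eq_zero]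
    constructor
    · rintro ⟨h1, h2⟩; rw [h2] at h1; exact ⟨by linarith, h2⟩
    · rintro ⟨h1, h2⟩; rw [h1, h2]; simp
  obtain ⟨w, K, hw, hpd, hvx⟩ := core (fun i => α i + θ * β i) β (fun i hi => by
    by_contra hb
    exact hθ (mem_image.2 ⟨i, mem_univ _, by field_simp; linarith⟩))
  set l0 := ∑ i, w i with hl0
  have hl0pos : 0 < l0 := by
    obtain ⟨a, ha⟩ := hXne
    exact sum_pos (fun i _ => hw i) ⟨⟨a, ha⟩, mem_univ _⟩
  set c : E := ∑ i, w i • (i : E) with hc
  have hLw : ∀ u t, ∑ i, L (u, t) i * w i = t * l0 - ⟪c, u⟫_ℝ := by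
    intro u t
    simp only [hLa, hc, hl0, sum_inner, real_inner_smul_left, mul_sum, ← sum_sub_distrib]
    exact sum_congr rfl fun i _ => by ring
  let N : E →ₗ[ℝ] (X → ℝ) := L ∘ₗ LinearMap.prod LinearMap.id (l0⁻¹ • innerₗ E c)
  have hN : ∀ u, N u = L (u, l0⁻¹ * ⟪c, u⟫_ℝ) := fun u => rfl
  let BK : LinearMap.BilinForm ℝ (X → ℝ) := LinearMap.mk₂ ℝ
    (fun y y' => ∑ i, ∑ j, (K i j + K j i) / 2 * y i * y' j)
    (by
      intro y y' z
      simp only [← sum_add_distrib, Pi.add_apply]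
      exact sum_congr rfl fun i _ => sum_congr rfl fun j _ => by ring)
    (by
      intro t y z
      simp only [mul_sum, Pi.smul_apply, smul_eq_mul]
      exact sum_congr rfl fun i _ => sum_congr rfl fun j _ => by ring)
    (by
      intro y y' z
      simp only [← sum_add_distrib, Pi.add_apply]
      exact sum_congr rfl fun i _ => sum_congr rfl fun j _ => by ring)
    (by
      intro t y z
      simp only [mul_sum, Pi.smul_apply, smul_eq_mul]
      exact sum_congr rfl fun i _ => sum_congr rfl fun j _ => by ring)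
  have hBKs : ∀ y y', BK y y' = BK y' y := by
    intro y y'
    simp only [BK, LinearMap.mk₂_apply]
    rw [sum_comm]
    exact sum_congr rfl fun i _ => sum_congr rfl fun j _ => by ring
  have hBKq : ∀ y, BK y y = qf K y := by
    intro y
    simp only [BK, LinearMap.mk₂_apply, qf]
    have e1 : ∑ i, ∑ j, K j i * y i * y j = ∑ i, ∑ j, K i j * y i * y j := by
      rw [sum_comm]
      exact sum_congr rfl fun i _ => sum_congr rfl fun j _ => by ring
    have e2 : ∑ i, ∑ j, (K i j + K j i) / 2 * y i * y j =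
        (∑ i, ∑ j, K i j * y i * y j + ∑ i, ∑ j, K j i * y i * y j) / 2 := by
      simp only [← sum_add_distrib, sum_div]
      exact sum_congr rfl fun i _ => sum_congr rfl fun j _ => by ring
    rw [e2, e1]; ring
  set k := L (0, l0⁻¹) with hk
  obtain ⟨M, c0, r, hM⟩ := to_sphere (BK.compl₁₂ N N) (fun x y => hBKs _ _) (fun u hu => by
    rw [LinearMap.compl₁₂_apply, hBKq]
    refine hpd _ (fun h => hu ?_) ((hG _).2 ⟨_, (hN u).symm⟩).1 ?_
    · rw [hN, map_eq_zero_iff L hL] at h
      exact congrArg Prod.fst h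
    · rw [hN, hLw]; field_simp; ring) (BK k ∘ₗ N) (BK k k)
  let Φ0 : (E × ℝ) →ₗ[ℝ] (E × ℝ) :=
    { toFun := fun z => (M (z.1 - z.2 • p), z.2 * l0 - ⟪c, z.1 - z.2 • p⟫_ℝ)
      map_add' := by
        intro z z'
        have e : (z + z').1 - (z + z').2 • p = (z.1 - z.2 • p) + (z'.1 - z'.2 • p) := by
          simp only [Prod.fst_add, Prod.snd_add]; module
        rw [e, map_add, inner_add_right]
        ext
        · rfl
        · simp only [Prod.snd_add]; ring
      map_smul' := by
        intro t z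
        have e : (t • z).1 - (t • z).2 • p = t • (z.1 - z.2 • p) := by
          simp only [Prod.smul_fst, Prod.smul_snd, smul_eq_mul]; module
        rw [e, map_smul, real_inner_smul_right]
        ext
        · rfl
        · simp only [Prod.smul_snd, smul_eq_mul, RingHom.id_apply]; ring }
  have hΦ0 : Function.Injective Φ0 := by
    rw [← LinearMap.ker_eq_bot, LinearMap.ker_eq_bot']
    rintro ⟨v, t⟩ h
    have h1 : M (v - t • p) = 0 := congrArg Prod.fst h
    have h2 : t * l0 - ⟪c, v - t • p⟫_ℝ = 0 := congrArg Prod.snd h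
    rw [map_eq_zero_iff M M.injective] at h1
    rw [h1, inner_zero_right, sub_zero] at h2
    have ht : t = 0 := (mul_eq_zero.1 h2).resolve_right hl0pos.ne'
    rw [ht, zero_smul, sub_zero] at h1
    rw [h1, ht]; rfl
  have hΦ : ∀ x, LinearEquiv.ofInjectiveEndo Φ0 hΦ0 (x, 1) =
      (M (x - p), l0 - ⟪c, x - p⟫_ℝ) := by
    intro x
    change (M (x - (1 : ℝ) • p), 1 * l0 - ⟪c, x - (1 : ℝ) • p⟫_ℝ) = _
    rw [one_smul, one_mul]
  have hnn : ∀ x ∈ P, ∀ i, 0 ≤ L (x - p, 1) i := fun x hx i => by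
    rw [hLa]; linarith [(hP x).1 hx i i.2]
  have hpos : ∀ x ∈ P, 0 < l0 - ⟪c, x - p⟫_ℝ := by
    intro x hx
    have e := hLw (x - p) 1
    rw [one_mul] at e
    rw [← e]
    have h0 : L (x - p, 1) ≠ 0 := fun h => by
      rw [map_eq_zero_iff L hL] at h
      exact one_ne_zero (congrArg Prod.snd h)
    obtain ⟨i, hi⟩ := Function.ne_iff.1 h0
    exact sum_pos' (fun i _ => mul_nonneg (hnn x hx i) (hw i).le)
      ⟨i, mem_univ _, mul_pos (lt_of_le_of_ne (hnn x hx i) hi.symm) (hw i)⟩
  refine ⟨LinearEquiv.ofInjectiveEndo Φ0 hΦ0, c0, r, fun x hx => by rw [hΦ]; exact hpos x hx,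
    fun x hx => ?_⟩
  have hext : ∀ v : E, (∀ a ∈ X, ⟪a, x - p⟫_ℝ = 1 → ⟪a, v⟫_ℝ = 0) → v = 0 := by
    intro v hv
    have hev : ∀ᶠ t : ℝ in nhds 0, x + t • v ∈ P := by
      simp only [hP, Filter.eventually_all_finset]
      intro a ha
      by_cases h : ⟪a, x - p⟫_ℝ = 1
      · refine Filter.Eventually.of_forall fun t => ?_
        rw [add_sub_right_comm, inner_add_right, real_inner_smul_right, hv a ha h, h]; simp
      · have hlt : ⟪a, x - p⟫_ℝ < 1 := lt_of_le_of_ne ((hP x).1 hx.1 a ha) h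
        have hc : ContinuousAt (fun t : ℝ => ⟪a, x + t • v - p⟫_ℝ) 0 := by fun_prop
        exact (hc.eventually_lt continuousAt_const (by simpa using hlt)).mono fun t ht => ht.le
    obtain ⟨ε, hε, hball⟩ := Metric.eventually_nhds_iff.1 hev
    have h1 := hball (y := ε / 2) (by
      rw [Real.dist_eq, sub_zero, abs_of_pos (by positivity)]; linarith)
    have h2 := hball (y := -(ε / 2)) (by
      rw [Real.dist_eq, sub_zero, abs_neg, abs_of_pos (by positivity)]; linarith)
    have h3 := (mem_extremePoints.1 hx).2 _ h1 _ h2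
      ⟨1 / 2, 1 / 2, by norm_num, by norm_num, by norm_num, by module⟩
    have h4 : (ε / 2) • v = 0 := by simpa using h3.1
    exact (smul_eq_zero.1 h4).resolve_left (by positivity)
  have hq : qf K (L (x - p, 1)) = 0 := by
    have h1 := (hG _).2 ⟨(x - p, 1), rfl⟩
    refine hvx _ (hnn x hx.1) h1.1 h1.2 fun c' hc' h2 h3 => ?_
    obtain ⟨⟨v, t⟩, rfl⟩ := (hG _).1 ⟨h2, h3⟩
    have : v - t • (x - p) = 0 := by
      refine hext _ fun a ha h => ?_
      have := hc' ⟨a, ha⟩ (by rw [hLa]; simp [h])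
      rw [hLa] at this
      rw [inner_sub_right, real_inner_smul_right, h]
      simp only at this
      linarith
    refine ⟨t, ?_⟩
    rw [← map_smul, sub_eq_zero.1 this]; simp
  have hl := hpos x hx.1
  set l := l0 - ⟪c, x - p⟫_ℝ with hldef
  have e1 : pm (LinearEquiv.ofInjectiveEndo Φ0 hΦ0) x = M (l⁻¹ • (x - p)) := by
    rw [pm, hΦ, map_smul]
  rw [e1]
  refine hM _ ?_
  have e2 : N (l⁻¹ • (x - p)) + k = l⁻¹ • L (x - p, 1) := by
    rw [hN, hk, ← map_add, ← map_smul]
    congr 1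
    ext
    · simp
    · simp only [Prod.snd_add, Prod.smul_snd, smul_eq_mul, real_inner_smul_right]
      have : ⟪c, x - p⟫_ℝ = l0 - l := by rw [hldef]; ring
      rw [this]; field_simp; ring
  have e3 := hBKq (N (l⁻¹ • (x - p)) + k)
  rw [e2, qf_smul, hq, mul_zero, ← e2] at e3
  simp only [map_add, LinearMap.add_apply] at e3
  rw [hBKs (N _) k] at e3
  simp only [LinearMap.compl₁₂_apply, LinearMap.comp_apply]
  linarith

/-- For every full-dimensional polytope in R^d with at most d+3 facets, there is a polytope whose generating points all lie on one sphere and whose vertices correspond bijectively to the first's, with vertex sets of faces matching exactly. -/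
theorem result :
    ∀ d : ℕ, ∀ S : Finset (EuclideanSpace ℝ (Fin d)),
      (interior (convexHull ℝ (S : Set (EuclideanSpace ℝ (Fin d))))).Nonempty →
      {F : Set (EuclideanSpace ℝ (Fin d)) |
          IsExposed ℝ (convexHull ℝ (S : Set (EuclideanSpace ℝ (Fin d)))) F ∧ F.Nonempty ∧
            Module.finrank ℝ (vectorSpan ℝ F) + 1 = d}.ncard ≤ d + 3 →
      ∃ T : Finset (EuclideanSpace ℝ (Fin d)), ∃ c : EuclideanSpace ℝ (Fin d), ∃ r : ℝ,
        (T : Set (EuclideanSpace ℝ (Fin d))) ⊆ Metric.sphere c r ∧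
        ∃ e : EuclideanSpace ℝ (Fin d) → EuclideanSpace ℝ (Fin d),
          Set.BijOn e
            ((convexHull ℝ (S : Set (EuclideanSpace ℝ (Fin d)))).extremePoints ℝ)
            ((convexHull ℝ (T : Set (EuclideanSpace ℝ (Fin d)))).extremePoints ℝ) ∧
          ∀ A ⊆ (convexHull ℝ (S : Set (EuclideanSpace ℝ (Fin d)))).extremePoints ℝ,
            (IsExposed ℝ (convexHull ℝ (S : Set (EuclideanSpace ℝ (Fin d)))) (convexHull ℝ A) ↔
              IsExposed ℝ (convexHull ℝ (T : Set (EuclideanSpace ℝ (Fin d))))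
                (convexHull ℝ (e '' A))) := by
  classical
  intro d S ⟨p, hp⟩ hn
  rcases subsingleton_or_nontrivial (EuclideanSpace ℝ (Fin d)) with hs | hs
  · refine ⟨S, 0, 0, fun x _ => by simp [Subsingleton.elim x 0], id, Set.bijOn_id _,
      fun A _ => by simp⟩
  obtain ⟨X, hX, hP⟩ := hrep S p hp (d + 3) d (by simp) hn
  set P := convexHull ℝ (S : Set (EuclideanSpace ℝ (Fin d))) with hPdef
  have hPc : IsCompact P := S.finite_toSet.isCompact_convexHull ℝ
  have hPv : Convex ℝ P := convex_convexHull _ _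
  obtain ⟨Φ, c, r, hpos, hsph⟩ := main P hPc p X (by simpa using hX) hP
  have hf : (P.extremePoints ℝ).Finite := S.finite_toSet.subset extremePoints_convexHull_subset
  have hT : convexHull ℝ ((hf.toFinset.image (pm Φ) : Finset _) : Set (EuclideanSpace ℝ (Fin d))) =
      pm Φ '' P := by
    rw [coe_image, hf.coe_toFinset, ← pm_hull Φ fun x hx => hpos x hx.1, hull_ext hPc hPv hf]
  refine ⟨hf.toFinset.image (pm Φ), c, r, ?_, pm Φ, ?_, fun A hA => ?_⟩
  · rw [coe_image, hf.coe_toFinset]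
    rintro _ ⟨x, hx, rfl⟩
    exact hsph x hx
  · rw [hT]; exact pm_extreme Φ hPv hpos
  · have hAP : A ⊆ P := hA.trans extremePoints_subset
    rw [hT, ← pm_hull Φ fun x hx => hpos x (hAP hx)]
    exact pm_exposed_iff Φ hpos (convexHull_min hAP hPv)

end Pool.Agent.S11695
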