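import Pool.Statements.S11707
import Pool.Agent.H23.Eppa3

set_option autoImplicit false
open Classical
open Pool Pool.MP_d61016_co

namespace Pool.Agent.S11707
open Pool.Agent.H23.Eppa3

/-- Every finite three-graph A embeds as an induced substructure in some finite three-graph B such that every partial automorphism of A extends to an automorphism of B. -/
theorem result :
    ∀ (n : ℕ) (rA : Fin n → Fin n → Prop) (HA : Finset (Finset (Fin n))),
      (Equivalence rA ∧ (∀ a b c, rA a b ∨ rA b c ∨ rA a c) ∧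
        (∀ e ∈ HA, e.card = 4 ∧ ∀ v ∈ e, (e.filter (fun w => rA v w)).card = 2) ∧
        (∀ S : Finset (Fin n), S.card = 5 →
          (∀ v ∈ S, (S.filter (fun w => rA v w)).card ≤ 3) →
          Even (HA.filter (fun e => e ⊆ S)).card)) →
      ∃ (m : ℕ) (rB : Fin m → Fin m → Prop) (HB : Finset (Finset (Fin m))),
        (Equivalence rB ∧ (∀ a b c, rB a b ∨ rB b c ∨ rB a c) ∧
          (∀ e ∈ HB, e.card = 4 ∧ ∀ v ∈ e, (e.filter (fun w => rB v w)).card = 2) ∧
          (∀ S : Finset (Fin m), S.card = 5 →
            (∀ v ∈ S, (S.filter (fun w => rB v w)).card ≤ 3) →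
            Even (HB.filter (fun e => e ⊆ S)).card)) ∧
        ∃ f : Fin n ↪ Fin m,
          (∀ x y, rA x y ↔ rB (f x) (f y)) ∧
          (∀ e : Finset (Fin n), e ∈ HA ↔ e.map f ∈ HB) ∧
          ∀ (S : Finset (Fin n)) (p : Fin n → Fin n),
            Set.InjOn p (S : Set (Fin n)) →
            (∀ x ∈ S, ∀ y ∈ S, rA x y ↔ rA (p x) (p y)) →
            (∀ e ⊆ S, e ∈ HA ↔ e.image p ∈ HA) →
            ∃ σ : Fin m ≃ Fin m,
              (∀ x y, rB x y ↔ rB (σ x) (σ y)) ∧
              (∀ e : Finset (Fin m), e ∈ HB ↔ e.map σ.toEmbedding ∈ HB) ∧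
              ∀ x ∈ S, σ (f x) = f (p x) := by
  rintro n rA HA ⟨h1, h2, h3, h4⟩
  obtain ⟨t, ht⟩ := exists_cl rA h1 h2
  obtain ⟨E, hE⟩ := exists_ed t HA (fun e he => (sh_iff ht e).mp (h3 e he))
    (fun S hS h => h4 S hS fun v hv => by rw [filt ht]; exact h v hv)
  let χ : Fin n → Fin n → ZMod 2 := fun x y => if t x = true then E x y else 0
  let ed : Fin n → Fin n → ZMod 2 := fun x y => χ x y + χ y x
  have eds : ∀ x y, ed x y = ed y x := fun x y => add_comm _ _
  have hA : ∀ e, e ∈ HA ↔ Sh t e ∧ par t ed e = 1 := fun e => by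
    rw [hE]
    have : par t E e = par t ed e := Finset.sum_congr rfl fun u hu => Finset.sum_congr rfl
      fun v hv => by simp [ed, χ, (Finset.mem_filter.mp hu).2, (Finset.mem_filter.mp hv).2]
    rw [this]
  let g := Fintype.equivFin (VB n)
  let t' : Fin (Fintype.card (VB n)) → Bool := fun u => (g.symm u).1
  let ed' : Fin (Fintype.card (VB n)) → Fin (Fintype.card (VB n)) → ZMod 2 :=
    fun u v => edB (g.symm u) (g.symm v)
  have eds' : ∀ x y, ed' x y = ed' y x := fun x y => add_comm _ _
  have hr : ∀ x y, (fun x y => t' x = t' y) x y ↔ t' x = t' y := fun _ _ => Iff.rfl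
  refine ⟨_, fun x y => t' x = t' y, Finset.univ.filter fun e => Sh t' e ∧ par t' ed' e = 1,
    ⟨⟨fun _ => rfl, Eq.symm, Eq.trans⟩, fun a b c => ?_, fun e he => ?_, fun S hS h => ?_⟩,
    ⟨fun x => g (t x, x, χ x), fun x y e => congrArg (fun u : VB n => u.2.1) (g.injective e)⟩,
    fun x y => ?_, fun e => ?_, fun S p p1 p2 p3 => ?_⟩
  · beta_reduce
    cases t' a <;> cases t' b <;> cases t' c <;> simp
  · convert (sh_iff hr e).mpr (Finset.mem_filter.mp he).2.1
  · refine even_five t' ed' eds' _ (by simp) S hS fun v hv => ?_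
    rw [← filt hr]
    convert h v hv
  · simp [t', ht]
  · rw [hA, Finset.map_eq_image, Finset.mem_filter,
      transfer t ed t' ed' eds e (fun x => g (t x, x, χ x))
        (fun x _ y _ e => congrArg (fun u : VB n => u.2.1) (g.injective e)) false 0
        (fun u _ => by simp [t']) (fun u _ v _ _ => by simp [ed', edB, ed])]
    simp
  · obtain ⟨ε, hε⟩ : ∃ ε, ∀ x ∈ S, t (p x) = xor (t x) ε := by
      rcases S.eq_empty_or_nonempty with h | ⟨x0, h0⟩
      · exact ⟨false, by simp [h]⟩
      · refine ⟨xor (t x0) (t (p x0)), fun x hx => ?_⟩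
        have := p2 x hx x0 h0
        rw [ht, ht] at this
        revert this
        cases t x <;> cases t x0 <;> cases t (p x) <;> cases t (p x0) <;> simp
    obtain ⟨s, hs⟩ := exists_s t S (fun x y => ed x y + ed (p x) (p y))
      (fun u v => by simp only [eds u, eds (p u)]) (by
        intro a ha a' ha' b hb b' hb' ta ta' tb tb' n1 n2
        have sub : ({a, a', b, b'} : Finset (Fin n)) ⊆ S := by
          intro x hx
          simp only [Finset.mem_insert, Finset.mem_singleton] at hx
          rcases hx with rfl | rfl | rfl | rfl <;> assumption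
        have k := p3 _ sub
        have q1 := par4 t ed a a' b b' ta ta' tb tb' n1 n2
        have q2 := par4 t (fun x y => ed (p x) (p y)) a a' b b' ta ta' tb tb' n1 n2
        rw [hA, hA, ← transfer t (fun x y => ed (p x) (p y)) t ed (fun u v => eds _ _) _ p
          (p1.mono sub) ε 0 (fun u hu => hε u (sub hu)) (fun u _ v _ _ => by simp), q1.2, q2.2]
          at k
        simp only [q1.1, true_and] at k
        have : ∀ x y : ZMod 2, (x = 1 ↔ y = 1) → x + y = 0 := by decide
        linear_combination this _ _ k)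
    obtain ⟨σ, s', s1, s2, s3⟩ := extend t χ S p p1 ε hε s hs
    refine ⟨g.symm.trans (σ.trans g), fun x y => ?_, fun e => ?_, fun x hx => ?_⟩
    · simp [t', s1]
    · rw [Finset.map_eq_image, Finset.mem_filter, Finset.mem_filter,
        transfer t' ed' t' ed' eds' e (g.symm.trans (σ.trans g))
          (Equiv.injective _).injOn ε (fun u => s' (g.symm u))
          (fun u _ => by simp [t', s1]) (fun u _ v _ h => by simpa [ed'] using s2 _ _ h)]
      simp
    · simp [s3 x hx]

end Pool.Agent.S11707
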