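import Pool.Statements.S11724
import Pool.Agent.H23.Pat3
import Pool.Agent.H23.PInv

set_option autoImplicit false
open Pool Pool.MP_d6bcd1_co

namespace Pool.Agent.S11724
set_option maxRecDepth 100000
section

open Pool.Agent.H23 Pool.Agent.H23.Pat Finset Matrix

noncomputable def ev (M : Matrix (Fin 14) (Fin 35) ℕ) : Multiset ℝ :=
  (Matrix.charpoly (((5 : ℕ) : ℝ) • (1 : Matrix (Fin 14) (Fin 14) ℝ)
    - (1 / ((2 : ℕ) : ℝ)) • (M.map (fun x : ℕ => (x : ℝ)) *
      (M.map (fun x : ℕ => (x : ℝ))).transpose))).roots.erase 0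

def Lm (M : Matrix (Fin 14) (Fin 35) ℕ) : Matrix (Fin 14) (Fin 14) ℤ :=
  M.map (fun x : ℕ => (x : ℤ)) * (M.map (fun x : ℕ => (x : ℤ))).transpose
    - ((5 : ℕ) : ℤ) • (1 : Matrix (Fin 14) (Fin 14) ℤ)

lemma Lm_apply (M : Matrix (Fin 14) (Fin 35) ℕ) (u v : Fin 14) :
    Lm M u v = ∑ e, (M u e : ℤ) * M v e - if u = v then 5 else 0 := by
  simp only [Lm, Matrix.sub_apply, Matrix.smul_apply, Matrix.mul_apply, Matrix.map_apply,
    Matrix.transpose_apply, Matrix.one_apply, smul_eq_mul]
  split_ifs <;> simp

lemma aval (M : Matrix (Fin 14) (Fin 35) ℕ) (A Z : Matrix (Fin 14) (Fin 14) ℤ) (d : ℤ) (hd : d ≠ 0)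
    (hM : ∀ u v, ∑ e, (M u e : ℤ) * M v e = A u v + if u = v then 5 else 0)
    (h1 : ∀ u v, 7 * ∑ t, ((if u = t then 5 else 0) - A u t) * Z t v =
      d * ((if u = v then 14 else 0) - 1))
    (h2 : ∀ u, ∑ t, A u t = 5) (h3 : ∀ u, ∑ t, Z u t = 0) :
    (0 : ℝ) ∉ ev M ∧ ((ev M).map fun x => x⁻¹).sum = (Z.trace : ℝ) / d := by
  have hd' : (d : ℝ) ≠ 0 := by exact_mod_cast hd
  set C : Matrix (Fin 14) (Fin 14) ℝ := ((5 : ℕ) : ℝ) • (1 : Matrix (Fin 14) (Fin 14) ℝ)
    - (1 / ((2 : ℕ) : ℝ)) • (M.map (fun x : ℕ => (x : ℝ)) *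
      (M.map (fun x : ℕ => (x : ℝ))).transpose) with hC
  have cA : ∀ u v, C u v = ((if u = v then 5 else 0) - (A u v : ℝ)) / 2 := by
    intro u v
    have := congrArg (fun z : ℤ => (z : ℝ)) (hM u v)
    push_cast at this
    simp only [hC, Matrix.sub_apply, Matrix.smul_apply, Matrix.mul_apply, Matrix.map_apply,
      Matrix.transpose_apply, Matrix.one_apply, this, smul_eq_mul]
    split_ifs <;> push_cast <;> ring
  have sA : ∀ u v, A u v = A v u := by
    intro u v
    have a := hM u v
    have b := hM v u
    simp only [mul_comm (M v _ : ℤ), eq_comm (a := v)] at b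
    linarith
  have := PInv.pinv C (fun u v => (Z u v : ℝ) / d) (fun _ _ => 1 / 14) ?_ ?_ ?_ ?_ ?_ ?_
  · refine ⟨this.1, this.2.trans ?_⟩
    simp [Matrix.trace, Finset.sum_div]
  · ext u v
    simp only [conjTranspose_apply, star_trivial, cA, sA u v, eq_comm (a := v)]
  · ext u v
    simp
  · ext u v
    have := congrArg (fun z : ℤ => (z : ℝ)) (h1 u v)
    push_cast at this
    have e : ∑ t, C u t * ((Z t v : ℝ) / d) =
        (∑ t, ((if u = t then 5 else 0) - (A u t : ℝ)) * Z t v) / (2 * d) := by
      rw [Finset.sum_div]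
      refine Finset.sum_congr rfl fun t _ => ?_
      rw [cA]; field_simp
    rw [Matrix.mul_apply, e, Matrix.sub_apply, Matrix.one_apply, div_eq_iff (by simpa using hd')]
    split_ifs at this ⊢ <;> linarith
  · ext u v
    have := congrArg (fun z : ℤ => (z : ℝ)) (h2 u)
    push_cast at this
    simp only [Matrix.mul_apply, cA, ← Finset.sum_mul, ← Finset.sum_div, Finset.sum_sub_distrib,
      this]
    simp
  · ext u v
    have := congrArg (fun z : ℤ => (z : ℝ)) (h3 u)
    push_cast at this
    simp only [Matrix.mul_apply, ← Finset.sum_mul, ← Finset.sum_div, this]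
    simp
  · simp [Matrix.trace]

def MX : Matrix (Fin 14) (Fin 35) ℕ :=
  fun i e => if (1997992244882655886293728879719542820545257371433144573057364378422788504439489304298667548130545014366065172151382112551376244059023366876871868419 : ℕ).testBit (14 * e + i) then 1 else 0
def ZX : Matrix (Fin 14) (Fin 14) ℤ :=
  fun u v => (((90055960528809908457312767440236454842643609124711973250501972693319882096970129683165601216416797240619943020968209784011037675814943851383703740438222623095066208373920815537015724890526690630630904460366945045542293771209927429873628247025615517683449292931033096288603601255623534084703973412147542136305239781616555649767708132432067226599982452075466714769117220923023209425482860686569296819430373983107469497817211606825619401073652497602820124686022917736697935570854862913998483430132361882076440691233448723084919842858844197383468035464430222957836227435755896207972083368994873877084498245506618311228934986223147509623358348983515529684351657268182576145906278943985221137728649542926231804767047125789286385966985851434173388459185531931326755019750435624331560777627913365207463396753069135154174508453297254842403216631375446679248087187655807598833503280783241040978332389073849201318437658052940047303502487468918289576054969730450408102351456197690931359576744210503248889724749587348426268585958449066804089721676656744854922438308524744247628956722087620161446323718557186344268014400668463086346953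 : ℕ) >>> (19 * (14 * u.1 + v.1))) % 524288 : ℕ) - 71915

lemma aX : (0 : ℝ) ∉ ev MX ∧ ((ev MX).map fun x => x⁻¹).sum = (5065872 : ℝ) / 949620 := by
  have := aval MX (Rm 0) ZX 949620 (by norm_num) (by decide +kernel) (by decide +kernel)
    (by decide +kernel) (by decide +kernel)
  have e : ZX.trace = 5065872 := by decide +kernel
  rw [e] at this
  refine ⟨this.1, this.2.trans ?_⟩
  norm_num

lemma dX : (∀ j, ∑ i, MX i j = 2) ∧ (∀ i, ∑ j, MX i j = 5) := by decide +kernel

def MY : Matrix (Fin 14) (Fin 35) ℕ :=
  fun i e => if (2397576059323012042615375762512118143258796359815080692360511467438283834432850932460667151554821084552732268302378159545387207591480995913217949699 : ℕ).testBit (14 * e + i) then 1 else 0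
def ZY : Matrix (Fin 14) (Fin 14) ℤ :=
  fun u v => (((72978529420310382592036125779583765464674635594110646593487904499929863467591998718463830618601255119667083306997112180978066709191629403041555046499208926112012390535629489903411446945201930222511151512811760748276955880964812031581624567810095568086403828370686866298160705735449523803607200417823552879231843057740089248557351670049330436027000978629510424042667946420407835496003254984204611498475466562285105274536165811133798853773218405255571032015090734464876937593497900475839352666063104143321308734201340468609231990048046336913637361827593031216393658487256754938782468908594818291405222202017002926562210436244730801161935530702735399830035007170542563242061067244890138612193793995069470484398624233671143597409402522307559061932407327601890078087913069420567460292755876758401814352523007760393250871054385837425441459393356694346830725933358248969172352507546767659415898565456029063625748057682967462808022614757832895867039316 : ℕ) >>> (16 * (14 * u.1 + v.1))) % 65536 : ℕ)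 - 6971

lemma aY : (0 : ℝ) ∉ ev MY ∧ ((ev MY).map fun x => x⁻¹).sum = (527198 : ℝ) / 98826 := by
  have := aval MY (Rm 1) ZY 98826 (by norm_num) (by decide +kernel) (by decide +kernel)
    (by decide +kernel) (by decide +kernel)
  have e : ZY.trace = 527198 := by decide +kernel
  rw [e] at this
  refine ⟨this.1, this.2.trans ?_⟩
  norm_num

lemma dY : (∀ j, ∑ i, MY i j = 2) ∧ (∀ i, ∑ j, MY i j = 5) := by decide +kernel

lemma LX : Lm MX = Rm 0 := by
  have : ∀ u v, (∑ e, (MX u e : ℤ) * MX v e - if u = v then 5 else 0) = Rm 0 u v := by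
    decide +kernel
  ext u v
  rw [Lm_apply, this]

lemma bX : ∀ i j, MX i j ≤ 1 := by decide +kernel

lemma cX : (SimpleGraph.fromRel (fun i j : Fin 14 => 0 < (MX * MX.transpose) i j)).Connected := by
  have h : ∀ v : Fin 14, v = 0 ∨ ∃ u : Fin 14, u < v ∧ 0 < (MX * MX.transpose) u v := by
    decide +kernel
  have h0 : ∀ v : Fin 14,
      (SimpleGraph.fromRel (fun i j : Fin 14 => 0 < (MX * MX.transpose) i j)).Reachable 0 v := by
    intro v
    induction v using WellFoundedLT.induction with
    | ind v ih =>
      rcases h v with rfl | ⟨u, h1, h2⟩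
      · rfl
      · exact (ih u h1).trans (SimpleGraph.Adj.reachable
          ((SimpleGraph.fromRel_adj _ _ _).2 ⟨h1.ne, Or.inl h2⟩))
  exact ⟨fun a b => (h0 a).symm.trans (h0 b)⟩

lemma lexmin (M : Matrix (Fin 14) (Fin 35) ℕ) (hc : ∀ j, ∑ i, M i j = 2) (hr : ∀ i, ∑ j, M i j = 5)
    (hb : ∀ i j, M i j ≤ 1) (t : ℕ) (ht : 2 ≤ t)
    (h : ∀ s : ℕ, 2 ≤ s → s < t → (Lm M ^ s).trace = (Lm MX ^ s).trace) :
    (Lm MX ^ t).trace ≤ (Lm M ^ t).trace := by
  rw [LX] at h ⊢
  obtain ⟨x2, x3, x4, x5⟩ := trX
  rw [← p5] at x5
  rw [← p4] at x4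
  rw [← p3] at x3
  rw [← p2] at x2
  have sy : ∀ u v, Lm M u v = Lm M v u := by
    intro u v
    simp only [Lm_apply, mul_comm (M v _ : ℤ), eq_comm (a := v)]
  have dg : ∀ u, Lm M u u = 0 := by
    intro u
    have : ∀ e, (M u e : ℤ) * M u e = M u e := by
      intro e
      have := hb u e
      interval_cases M u e <;> simp
    have h5 : ∑ e, (M u e : ℤ) = 5 := by exact_mod_cast hr u
    simp only [Lm_apply, this, h5]
    simp
  have nn : ∀ u v, 0 ≤ Lm M u v := by
    intro u v
    by_cases huv : u = v
    · rw [huv, dg]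
    · rw [Lm_apply, if_neg huv, sub_zero]
      exact Finset.sum_nonneg fun e _ => mul_nonneg (Nat.cast_nonneg _) (Nat.cast_nonneg _)
  have rs : ∀ u, ∑ v, Lm M u v = 5 := by
    intro u
    have h5 : ∑ e, (M u e : ℤ) = 5 := by exact_mod_cast hr u
    have h2 : ∀ e, ∑ v, (M v e : ℤ) = 2 := fun e => by exact_mod_cast hc e
    simp only [Lm_apply, Finset.sum_sub_distrib]
    rw [Finset.sum_comm]
    simp only [← Finset.mul_sum, h2, ← Finset.sum_mul, h5]
    simp
  generalize Lm M = L at h sy dg nn rs ⊢
  have sq : ∀ u v, 0 ≤ L u v * L v u - L u v := by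
    intro u v
    rw [sy v u]
    have := nn u v
    rcases this.eq_or_lt with h | h
    · rw [← h]; simp
    · nlinarith
  have t2 : (L ^ 2).trace - 70 = ∑ u, ∑ v, (L u v * L v u - L u v) := by
    simp only [Finset.sum_sub_distrib, rs, pow_two, Matrix.trace, diag_apply, Matrix.mul_apply]
    simp
  have t3 : (L ^ 3).trace = ∑ u, ∑ w, ∑ v, L u v * L v w * L w u := by
    simp only [pow_three', Matrix.trace, diag_apply, Matrix.mul_apply, Finset.sum_mul]
  have n3 : ∀ u w v, 0 ≤ L u v * L v w * L w u := fun u w v =>
    mul_nonneg (mul_nonneg (nn _ _) (nn _ _)) (nn _ _)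
  rcases ht.eq_or_lt with rfl | ht
  · have : 0 ≤ ∑ u, ∑ v, (L u v * L v u - L u v) :=
      Finset.sum_nonneg fun u _ => Finset.sum_nonneg fun v _ => sq u v
    omega
  rcases (show 3 ≤ t from ht).eq_or_lt with rfl | ht
  · rw [x3, t3]
    exact Finset.sum_nonneg fun u _ => Finset.sum_nonneg fun w _ =>
      Finset.sum_nonneg fun v _ => n3 u w v
  have b01 : ∀ u v, L u v = 0 ∨ L u v = 1 := by
    intro u v
    rw [h 2 le_rfl (by omega), x2, sub_self] at t2
    have a := (Finset.sum_eq_zero_iff_of_nonneg fun u _ =>
      Finset.sum_nonneg fun v _ => sq u v).1 t2.symm u (mem_univ _)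
    have b := (Finset.sum_eq_zero_iff_of_nonneg fun v _ => sq u v).1 a v (mem_univ _)
    rw [sy v u] at b
    have : L u v * (L u v - 1) = 0 := by linarith
    rcases mul_eq_zero.1 this with c | c
    · exact Or.inl c
    · exact Or.inr (by linarith)
  have z3 : ∀ u w v, L u v * L v w * L w u = 0 := by
    intro u w v
    rw [h 3 (by omega) ht, x3] at t3
    have a := (Finset.sum_eq_zero_iff_of_nonneg fun u _ => Finset.sum_nonneg fun w _ =>
      Finset.sum_nonneg fun v _ => n3 u w v).1 t3.symm u (mem_univ _)
    have b := (Finset.sum_eq_zero_iff_of_nonneg fun w _ =>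
      Finset.sum_nonneg fun v _ => n3 u w v).1 a w (mem_univ _)
    exact (Finset.sum_eq_zero_iff_of_nonneg fun v _ => n3 u w v).1 b v (mem_univ _)
  obtain ⟨k, σ, hk⟩ := classify (fun u v => decide (L u v = 1)) (fun u v => by rw [sy])
    (fun u => by simp [dg]) (fun u => by
      have := rs u
      rw [Finset.sum_congr rfl (g := fun v => if L u v = 1 then 1 else 0) fun v _ => by
        rcases b01 u v with c | c <;> simp [c]] at this
      simp only [Finset.sum_boole] at this
      simp only [decide_eq_true_eq]
      exact_mod_cast this) (fun u v w a b c => by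
      have := z3 u w v
      simp only [decide_eq_true_eq] at a b c
      rw [a, c, sy, b] at this
      simp at this)
  have e : L = Matrix.reindexAlgEquiv ℤ ℤ σ.symm (Rm k) := by
    ext u v
    simp only [Matrix.coe_reindexAlgEquiv, reindex_apply, Equiv.symm_symm, submatrix_apply, Rm,
      ← hk u v, decide_eq_true_eq]
    rcases b01 u v with c | c <;> simp [c]
  have tr : ∀ s, (L ^ s).trace = (Rm k ^ s).trace := by
    intro s
    rw [e, ← map_pow]
    simp only [Matrix.coe_reindexAlgEquiv, reindex_apply, Equiv.symm_symm, Matrix.trace,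
      diag_apply, submatrix_apply]
    exact Equiv.sum_comp σ fun i => (Rm k ^ s) i i
  simp only [tr] at h ⊢
  have q := tr45 k
  rw [← p5, ← p4] at q
  rcases q with rfl | q
  · exact le_rfl
  rcases (show 4 ≤ t from ht).eq_or_lt with rfl | ht
  · omega
  have h4 := h 4 (by omega) ht
  rcases (show 5 ≤ t from ht).eq_or_lt with rfl | ht
  · omega
  have h5 := h 5 (by omega) ht
  omega

end

/-- The negation of the preceding statement: For all positive v,b,k,r with vr=bk and every connected binary design D, D minimizes the sum of reciprocal nontrivial eigenvalues of C over all designs iff its closed-walk counts (Γ₂,Γ₃,…) are lexicographically minimal among connected binary designs. -/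
theorem result :
    ¬ (∀ (v b k r : ℕ), 0 < v → 0 < b → 0 < k → 0 < r → v * r = b * k →
  ∀ (IsDesign : Matrix (Fin v) (Fin b) ℕ → Prop),
    (∀ M, IsDesign M ↔ ((∀ j, ∑ i, M i j = k) ∧ (∀ i, ∑ j, M i j = r))) →
  ∀ (InB : Matrix (Fin v) (Fin b) ℕ → Prop),
    (∀ M, InB M ↔ (IsDesign M ∧ (∀ i j, M i j ≤ 1) ∧
      (SimpleGraph.fromRel (fun i j : Fin v => 0 < (M * M.transpose) i j)).Connected)) →
  ∀ (Γ : Matrix (Fin v) (Fin b) ℕ → ℕ → ℤ),
    (∀ M h, Γ M h = Matrix.trace
      ((M.map (fun x : ℕ => (x : ℤ)) * (M.map (fun x : ℕ => (x : ℤ))).transpose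
        - (r : ℤ) • (1 : Matrix (Fin v) (Fin v) ℤ)) ^ h)) →
  ∀ (ev : Matrix (Fin v) (Fin b) ℕ → Multiset ℝ),
    (∀ M, ev M = (Matrix.charpoly ((r : ℝ) • (1 : Matrix (Fin v) (Fin v) ℝ)
        - (1 / (k : ℝ)) • (M.map (fun x : ℕ => (x : ℝ)) * (M.map (fun x : ℕ => (x : ℝ))).transpose))).roots.erase 0) →
  ∀ D, InB D →
    ((∀ D', IsDesign D' → (0 : ℝ) ∉ ev D' →
        ((0 : ℝ) ∉ ev D ∧ ((ev D).map (fun x => x⁻¹)).sum ≤ ((ev D').map (fun x => x⁻¹)).sum)) ↔
     (∀ D', InB D' → ∀ t : ℕ, 2 ≤ t →
        (∀ h : ℕ, 2 ≤ h → h < t → Γ D' h = Γ D h) → Γ D t ≤ Γ D' t))) := by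
  intro h
  have := (h 14 35 2 5 (by norm_num) (by norm_num) (by norm_num) (by norm_num) (by norm_num)
    _ (fun _ => Iff.rfl) _ (fun _ => Iff.rfl) (fun M s => (Lm M ^ s).trace) (fun _ _ => rfl)
    ev (fun _ => rfl) MX ⟨dX, bX, cX⟩).2
    (fun D hD t ht hs => lexmin D hD.1.1 hD.1.2 hD.2.1 t ht hs) MY dY aY.1
  have h2 := this.2
  rw [aX.2, aY.2] at h2
  norm_num at h2

end Pool.Agent.S11724
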