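import Pool.Statements.S11734
import Pool.Agent.H7.Markov

set_option autoImplicit false
open Pool Pool.MP_d7b467_co

namespace Pool.Agent.S11734

open Pool.Agent.H7.Markov

def x1 (i j k : Fin 6) : ℕ :=
  if 100 * i.val + 10 * j.val + k.val ∈ [5, 13, 31, 40, 104, 112, 120, 151, 200, 222, 233, 254, 310, 345, 353, 401, 455, 511, 532] then 1 else 0

def x2 (i j k : Fin 6) : ℕ :=
  if 100 * i.val + 10 * j.val + k.val ∈ [0, 11, 33, 45, 101, 110, 122, 154, 204, 220, 232, 253, 313, 340, 355, 405, 451, 512, 531] then 1 else 0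

def x3 (i j k : Fin 6) : ℕ :=
  if 100 * i.val + 10 * j.val + k.val ∈ [1, 10, 33, 45, 100, 111, 122, 154, 204, 220, 232, 253, 313, 340, 355, 405, 451, 512, 531] then 1 else 0

/-- The lattice of moves. -/
def L : AddSubgroup (Fin 6 → Fin 6 → Fin 6 → ℤ) where
  carrier := {m | (∀ i j, ∑ k, m i j k = 0) ∧ (∀ i k, ∑ j, m i j k = 0) ∧ (∀ j k, ∑ i, m i j k = 0)}
  add_mem' := by
    rintro a b ⟨a1, a2, a3⟩ ⟨b1, b2, b3⟩
    refine ⟨?_, ?_, ?_⟩ <;> intro p q <;> simp [Finset.sum_add_distrib, *]
  zero_mem' := by
    refine ⟨?_, ?_, ?_⟩ <;> intro p q <;> simp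
  neg_mem' := by
    rintro a ⟨a1, a2, a3⟩
    refine ⟨?_, ?_, ?_⟩ <;> intro p q <;> simp [Finset.sum_neg_distrib, *]

lemma mem_L (u v : Fin 6 → Fin 6 → Fin 6 → ℕ) : cz v - cz u ∈ L ↔
    (∀ i j, ∑ k, u i j k = ∑ k, v i j k) ∧ (∀ i k, ∑ j, u i j k = ∑ j, v i j k) ∧
      (∀ j k, ∑ i, u i j k = ∑ i, v i j k) := by
  have key : ∀ f g : Fin 6 → ℕ, (∑ k, ((g k : ℤ) - (f k : ℤ)) = 0) ↔ ∑ k, f k = ∑ k, g k := by
    intro f g
    rw [Finset.sum_sub_distrib, ← Nat.cast_sum, ← Nat.cast_sum]
    omega
  change ((∀ i j, ∑ k, ((v i j k : ℤ) - (u i j k : ℤ)) = 0) ∧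
    (∀ i k, ∑ j, ((v i j k : ℤ) - (u i j k : ℤ)) = 0) ∧
    (∀ j k, ∑ i, ((v i j k : ℤ) - (u i j k : ℤ)) = 0)) ↔ _
  simp only [key]

lemma core (v000 v001 v005 v010 v011 v013 v031 v033 v040 v045 v100 v101 v104 v110 v111 v112 v120 v122 v151 v154 v200 v204 v220 v222 v232 v233 v253 v254 v310 v313 v340 v345 v353 v355 v401 v405 v451 v455 v511 v512 v531 v532 : ℕ)
    (e0 : v000 + v001 + v005 = 1)
    (e1 : v010 + v011 + v013 = 1)
    (e2 : v031 + v033 = 1)
    (e3 : v040 + v045 = 1)
    (e4 : v100 + v101 + v104 = 1)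
    (e5 : v110 + v111 + v112 = 1)
    (e6 : v120 + v122 = 1)
    (e7 : v151 + v154 = 1)
    (e8 : v200 + v204 = 1)
    (e9 : v220 + v222 = 1)
    (e10 : v232 + v233 = 1)
    (e11 : v253 + v254 = 1)
    (e12 : v310 + v313 = 1)
    (e13 : v340 + v345 = 1)
    (e14 : v353 + v355 = 1)
    (e15 : v401 + v405 = 1)
    (e16 : v451 + v455 = 1)
    (e17 : v511 + v512 = 1)
    (e18 : v531 + v532 = 1)
    (e19 : v000 + v010 + v040 = 1)
    (e20 : v001 + v011 + v031 = 1)
    (e21 : v013 + v033 = 1)
    (e22 : v005 + v045 = 1)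
    (e23 : v100 + v110 + v120 = 1)
    (e24 : v101 + v111 + v151 = 1)
    (e25 : v112 + v122 = 1)
    (e26 : v104 + v154 = 1)
    (e27 : v200 + v220 = 1)
    (e28 : v222 + v232 = 1)
    (e29 : v233 + v253 = 1)
    (e30 : v204 + v254 = 1)
    (e31 : v310 + v340 = 1)
    (e32 : v313 + v353 = 1)
    (e33 : v345 + v355 = 1)
    (e34 : v401 + v451 = 1)
    (e35 : v405 + v455 = 1)
    (e36 : v511 + v531 = 1)
    (e37 : v512 + v532 = 1)
    (e38 : v000 + v100 + v200 = 1)
    (e39 : v001 + v101 + v401 = 1)
    (e40 : v104 + v204 = 1)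
    (e41 : v005 + v405 = 1)
    (e42 : v010 + v110 + v310 = 1)
    (e43 : v011 + v111 + v511 = 1)
    (e44 : v112 + v512 = 1)
    (e45 : v013 + v313 = 1)
    (e46 : v120 + v220 = 1)
    (e47 : v122 + v222 = 1)
    (e48 : v031 + v531 = 1)
    (e49 : v232 + v532 = 1)
    (e50 : v033 + v233 = 1)
    (e51 : v040 + v340 = 1)
    (e52 : v045 + v345 = 1)
    (e53 : v151 + v451 = 1)
    (e54 : v253 + v353 = 1)
    (e55 : v154 + v254 = 1)
    (e56 : v355 + v455 = 1)
    : (v005 = 1 ∧ v013 = 1 ∧ v031 = 1 ∧ v040 = 1 ∧ v104 = 1 ∧ v112 = 1 ∧ v120 = 1 ∧ v151 = 1 ∧ v200 = 1 ∧ v222 = 1 ∧ v233 = 1 ∧ v254 = 1 ∧ v310 = 1 ∧ v345 = 1 ∧ v353 = 1 ∧ v401 = 1 ∧ v455 = 1 ∧ v511 = 1 ∧ v532 = 1) ∨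
      (v005 = 0 ∧ v013 = 0 ∧ v031 = 0 ∧ v040 = 0 ∧ v104 = 0 ∧ v112 = 0 ∧ v120 = 0 ∧ v151 = 0 ∧ v200 = 0 ∧ v222 = 0 ∧ v233 = 0 ∧ v254 = 0 ∧ v310 = 0 ∧ v345 = 0 ∧ v353 = 0 ∧ v401 = 0 ∧ v455 = 0 ∧ v511 = 0 ∧ v532 = 0) := by
  obtain rfl | rfl : v000 = 0 ∨ v000 = 1 := by clear * - e0; omega
  · obtain rfl | rfl : v001 = 0 ∨ v001 = 1 := by clear * - e0; omega
    · obtain rfl : v005 = 1 := by clear * - e0; omega
      obtain rfl : v045 = 0 := by clear * - e22; omega
      obtain rfl : v405 = 0 := by clear * - e41; omega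
      obtain rfl : v345 = 1 := by clear * - e52; omega
      obtain rfl : v040 = 1 := by clear * - e3; omega
      obtain rfl : v340 = 0 := by clear * - e13; omega
      obtain rfl : v401 = 1 := by clear * - e15; omega
      obtain rfl : v010 = 0 := by clear * - e19; omega
      obtain rfl : v310 = 1 := by clear * - e31; omega
      obtain rfl : v355 = 0 := by clear * - e33; omega
      obtain rfl : v451 = 0 := by clear * - e34; omega
      obtain rfl : v455 = 1 := by clear * - e35; omega
      obtain rfl : v101 = 0 := by clear * - e39; omega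
      obtain rfl : v110 = 0 := by clear * - e42; omega
      obtain rfl : v151 = 1 := by clear * - e53; omega
      obtain rfl : v154 = 0 := by clear * - e7; omega
      obtain rfl : v313 = 0 := by clear * - e12; omega
      obtain rfl : v353 = 1 := by clear * - e14; omega
      obtain rfl : v111 = 0 := by clear * - e24; omega
      obtain rfl : v104 = 1 := by clear * - e26; omega
      obtain rfl : v204 = 0 := by clear * - e40; omega
      obtain rfl : v013 = 1 := by clear * - e45; omega
      obtain rfl : v253 = 0 := by clear * - e54; omega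
      obtain rfl : v254 = 1 := by clear * - e55; omega
      obtain rfl : v011 = 0 := by clear * - e1; omega
      obtain rfl : v100 = 0 := by clear * - e4; omega
      obtain rfl : v112 = 1 := by clear * - e5; omega
      obtain rfl : v200 = 1 := by clear * - e8; omega
      obtain rfl : v031 = 1 := by clear * - e20; omega
      obtain rfl : v033 = 0 := by clear * - e21; omega
      obtain rfl : v120 = 1 := by clear * - e23; omega
      obtain rfl : v122 = 0 := by clear * - e25; omega
      obtain rfl : v220 = 0 := by clear * - e27; omega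
      obtain rfl : v233 = 1 := by clear * - e29; omega
      obtain rfl : v511 = 1 := by clear * - e43; omega
      obtain rfl : v512 = 0 := by clear * - e44; omega
      obtain rfl : v222 = 1 := by clear * - e47; omega
      obtain rfl : v531 = 0 := by clear * - e48; omega
      obtain rfl : v232 = 0 := by clear * - e10; omega
      obtain rfl : v532 = 1 := by clear * - e18; omega
      exact Or.inl (by decide)
    · obtain rfl : v005 = 0 := by clear * - e0; omega
      obtain rfl : v011 = 0 := by clear * - e20; omega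
      obtain rfl : v031 = 0 := by clear * - e20; omega
      obtain rfl : v045 = 1 := by clear * - e22; omega
      obtain rfl : v101 = 0 := by clear * - e39; omega
      obtain rfl : v401 = 0 := by clear * - e39; omega
      obtain rfl : v405 = 1 := by clear * - e41; omega
      obtain rfl : v531 = 1 := by clear * - e48; omega
      obtain rfl : v345 = 0 := by clear * - e52; omega
      obtain rfl : v033 = 1 := by clear * - e2; omega
      obtain rfl : v040 = 0 := by clear * - e3; omega
      obtain rfl : v340 = 1 := by clear * - e13; omega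
      obtain rfl : v532 = 0 := by clear * - e18; omega
      obtain rfl : v010 = 1 := by clear * - e19; omega
      obtain rfl : v013 = 0 := by clear * - e21; omega
      obtain rfl : v310 = 0 := by clear * - e31; omega
      obtain rfl : v355 = 1 := by clear * - e33; omega
      obtain rfl : v451 = 1 := by clear * - e34; omega
      obtain rfl : v455 = 0 := by clear * - e35; omega
      obtain rfl : v511 = 0 := by clear * - e36; omega
      obtain rfl : v512 = 1 := by clear * - e37; omega
      obtain rfl : v110 = 0 := by clear * - e42; omega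
      obtain rfl : v111 = 1 := by clear * - e43; omega
      obtain rfl : v112 = 0 := by clear * - e44; omega
      obtain rfl : v313 = 1 := by clear * - e45; omega
      obtain rfl : v232 = 1 := by clear * - e49; omega
      obtain rfl : v233 = 0 := by clear * - e50; omega
      obtain rfl : v151 = 0 := by clear * - e53; omega
      obtain rfl : v154 = 1 := by clear * - e7; omega
      obtain rfl : v353 = 0 := by clear * - e14; omega
      obtain rfl : v122 = 1 := by clear * - e25; omega
      obtain rfl : v104 = 0 := by clear * - e26; omega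
      obtain rfl : v222 = 0 := by clear * - e28; omega
      obtain rfl : v253 = 1 := by clear * - e29; omega
      obtain rfl : v204 = 1 := by clear * - e40; omega
      obtain rfl : v254 = 0 := by clear * - e55; omega
      obtain rfl : v100 = 1 := by clear * - e4; omega
      obtain rfl : v120 = 0 := by clear * - e6; omega
      obtain rfl : v200 = 0 := by clear * - e8; omega
      obtain rfl : v220 = 1 := by clear * - e9; omega
      exact Or.inr (by decide)
  · obtain rfl : v001 = 0 := by clear * - e0; omega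
    obtain rfl : v005 = 0 := by clear * - e0; omega
    obtain rfl : v010 = 0 := by clear * - e19; omega
    obtain rfl : v040 = 0 := by clear * - e19; omega
    obtain rfl : v045 = 1 := by clear * - e22; omega
    obtain rfl : v100 = 0 := by clear * - e38; omega
    obtain rfl : v200 = 0 := by clear * - e38; omega
    obtain rfl : v405 = 1 := by clear * - e41; omega
    obtain rfl : v340 = 1 := by clear * - e51; omega
    obtain rfl : v345 = 0 := by clear * - e52; omega
    obtain rfl : v204 = 1 := by clear * - e8; omega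
    obtain rfl : v401 = 0 := by clear * - e15; omega
    obtain rfl : v220 = 1 := by clear * - e27; omega
    obtain rfl : v254 = 0 := by clear * - e30; omega
    obtain rfl : v310 = 0 := by clear * - e31; omega
    obtain rfl : v355 = 1 := by clear * - e33; omega
    obtain rfl : v451 = 1 := by clear * - e34; omega
    obtain rfl : v455 = 0 := by clear * - e35; omega
    obtain rfl : v101 = 1 := by clear * - e39; omega
    obtain rfl : v104 = 0 := by clear * - e40; omega
    obtain rfl : v110 = 1 := by clear * - e42; omega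
    obtain rfl : v120 = 0 := by clear * - e46; omega
    obtain rfl : v151 = 0 := by clear * - e53; omega
    obtain rfl : v154 = 1 := by clear * - e55; omega
    obtain rfl : v111 = 0 := by clear * - e5; omega
    obtain rfl : v112 = 0 := by clear * - e5; omega
    obtain rfl : v122 = 1 := by clear * - e6; omega
    obtain rfl : v222 = 0 := by clear * - e9; omega
    obtain rfl : v253 = 1 := by clear * - e11; omega
    obtain rfl : v313 = 1 := by clear * - e12; omega
    obtain rfl : v353 = 0 := by clear * - e14; omega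
    obtain rfl : v232 = 1 := by clear * - e28; omega
    obtain rfl : v233 = 0 := by clear * - e29; omega
    obtain rfl : v512 = 1 := by clear * - e44; omega
    obtain rfl : v013 = 0 := by clear * - e45; omega
    obtain rfl : v532 = 0 := by clear * - e49; omega
    obtain rfl : v033 = 1 := by clear * - e50; omega
    obtain rfl : v011 = 1 := by clear * - e1; omega
    obtain rfl : v031 = 0 := by clear * - e2; omega
    obtain rfl : v511 = 0 := by clear * - e17; omega
    obtain rfl : v531 = 1 := by clear * - e18; omega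
    exact Or.inr (by decide)

lemma iso (y : Fin 6 → Fin 6 → Fin 6 → ℕ) (hy : cz y - cz x1 ∈ L) :
    y = x1 ∨ ∀ i j k, x1 i j k = 0 ∨ y i j k = 0 := by
  obtain ⟨h1, h2, h3⟩ := (mem_L x1 y).mp hy
  have hz : ∀ i j k, (∑ t, x1 i j t = 0 ∨ ∑ t, x1 i t k = 0 ∨ ∑ t, x1 t j k = 0) → y i j k = 0 := by
    intro i j k h
    rcases h with h | h | h
    · rw [h1, Finset.sum_eq_zero_iff] at h
      exact h k (Finset.mem_univ _)
    · rw [h2, Finset.sum_eq_zero_iff] at h
      exact h j (Finset.mem_univ _)
    · rw [h3, Finset.sum_eq_zero_iff] at h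
      exact h i (Finset.mem_univ _)
  have H1 : ∀ i j, y i j 0 + y i j 1 + y i j 2 + y i j 3 + y i j 4 + y i j 5 = ∑ t, x1 i j t :=
    fun i j => by rw [h1, Fin.sum_univ_six]
  have H2 : ∀ i k, y i 0 k + y i 1 k + y i 2 k + y i 3 k + y i 4 k + y i 5 k = ∑ t, x1 i t k :=
    fun i j => by rw [h2, Fin.sum_univ_six]
  have H3 : ∀ j k, y 0 j k + y 1 j k + y 2 j k + y 3 j k + y 4 j k + y 5 j k = ∑ t, x1 t j k :=
    fun i j => by rw [h3, Fin.sum_univ_six]
  have hc := core (y 0 0 0) (y 0 0 1) (y 0 0 5) (y 0 1 0) (y 0 1 1) (y 0 1 3) (y 0 3 1) (y 0 3 3) (y 0 4 0) (y 0 4 5) (y 1 0 0) (y 1 0 1) (y 1 0 4) (y 1 1 0) (y 1 1 1) (y 1 1 2) (y 1 2 0) (y 1 2 2) (y 1 5 1) (y 1 5 4) (y 2 0 0) (y 2 0 4) (y 2 2 0) (y 2 2 2) (y 2 3 2) (y 2 3 3) (y 2 5 3) (y 2 5 4) (y 3 1 0) (y 3 1 3) (y 3 4 0) (y 3 4 5) (y 3 5 3) (y 3 5 5) (y 4 0 1) (y 4 0 5) (y 4 5 1) (y 4 5 5) (y 5 1 1) (y 5 1 2) (y 5 3 1) (y 5 3 2)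
    (by have := (H1 0 0).trans (show _ = 1 by decide); have := hz 0 0 2 (by decide); have := hz 0 0 3 (by decide); have := hz 0 0 4 (by decide); omega)
    (by have := (H1 0 1).trans (show _ = 1 by decide); have := hz 0 1 2 (by decide); have := hz 0 1 4 (by decide); have := hz 0 1 5 (by decide); omega)
    (by have := (H1 0 3).trans (show _ = 1 by decide); have := hz 0 3 0 (by decide); have := hz 0 3 2 (by decide); have := hz 0 3 4 (by decide); have := hz 0 3 5 (by decide); omega)
    (by have := (H1 0 4).trans (show _ = 1 by decide); have := hz 0 4 1 (by decide); have := hz 0 4 2 (by decide); have := hz 0 4 3 (by decide); have := hz 0 4 4 (by decide); omega)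
    (by have := (H1 1 0).trans (show _ = 1 by decide); have := hz 1 0 2 (by decide); have := hz 1 0 3 (by decide); have := hz 1 0 5 (by decide); omega)
    (by have := (H1 1 1).trans (show _ = 1 by decide); have := hz 1 1 3 (by decide); have := hz 1 1 4 (by decide); have := hz 1 1 5 (by decide); omega)
    (by have := (H1 1 2).trans (show _ = 1 by decide); have := hz 1 2 1 (by decide); have := hz 1 2 3 (by decide); have := hz 1 2 4 (by decide); have := hz 1 2 5 (by decide); omega)
    (by have := (H1 1 5).trans (show _ = 1 by decide); have := hz 1 5 0 (by decide); have := hz 1 5 2 (by decide); have := hz 1 5 3 (by decide); have := hz 1 5 5 (by decide); omega)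
    (by have := (H1 2 0).trans (show _ = 1 by decide); have := hz 2 0 1 (by decide); have := hz 2 0 2 (by decide); have := hz 2 0 3 (by decide); have := hz 2 0 5 (by decide); omega)
    (by have := (H1 2 2).trans (show _ = 1 by decide); have := hz 2 2 1 (by decide); have := hz 2 2 3 (by decide); have := hz 2 2 4 (by decide); have := hz 2 2 5 (by decide); omega)
    (by have := (H1 2 3).trans (show _ = 1 by decide); have := hz 2 3 0 (by decide); have := hz 2 3 1 (by decide); have := hz 2 3 4 (by decide); have := hz 2 3 5 (by decide); omega)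
    (by have := (H1 2 5).trans (show _ = 1 by decide); have := hz 2 5 0 (by decide); have := hz 2 5 1 (by decide); have := hz 2 5 2 (by decide); have := hz 2 5 5 (by decide); omega)
    (by have := (H1 3 1).trans (show _ = 1 by decide); have := hz 3 1 1 (by decide); have := hz 3 1 2 (by decide); have := hz 3 1 4 (by decide); have := hz 3 1 5 (by decide); omega)
    (by have := (H1 3 4).trans (show _ = 1 by decide); have := hz 3 4 1 (by decide); have := hz 3 4 2 (by decide); have := hz 3 4 3 (by decide); have := hz 3 4 4 (by decide); omega)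
    (by have := (H1 3 5).trans (show _ = 1 by decide); have := hz 3 5 0 (by decide); have := hz 3 5 1 (by decide); have := hz 3 5 2 (by decide); have := hz 3 5 4 (by decide); omega)
    (by have := (H1 4 0).trans (show _ = 1 by decide); have := hz 4 0 0 (by decide); have := hz 4 0 2 (by decide); have := hz 4 0 3 (by decide); have := hz 4 0 4 (by decide); omega)
    (by have := (H1 4 5).trans (show _ = 1 by decide); have := hz 4 5 0 (by decide); have := hz 4 5 2 (by decide); have := hz 4 5 3 (by decide); have := hz 4 5 4 (by decide); omega)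
    (by have := (H1 5 1).trans (show _ = 1 by decide); have := hz 5 1 0 (by decide); have := hz 5 1 3 (by decide); have := hz 5 1 4 (by decide); have := hz 5 1 5 (by decide); omega)
    (by have := (H1 5 3).trans (show _ = 1 by decide); have := hz 5 3 0 (by decide); have := hz 5 3 3 (by decide); have := hz 5 3 4 (by decide); have := hz 5 3 5 (by decide); omega)
    (by have := (H2 0 0).trans (show _ = 1 by decide); have := hz 0 2 0 (by decide); have := hz 0 3 0 (by decide); have := hz 0 5 0 (by decide); omega)
    (by have := (H2 0 1).trans (show _ = 1 by decide); have := hz 0 2 1 (by decide); have := hz 0 4 1 (by decide); have := hz 0 5 1 (by decide); omega)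
    (by have := (H2 0 3).trans (show _ = 1 by decide); have := hz 0 0 3 (by decide); have := hz 0 2 3 (by decide); have := hz 0 4 3 (by decide); have := hz 0 5 3 (by decide); omega)
    (by have := (H2 0 5).trans (show _ = 1 by decide); have := hz 0 1 5 (by decide); have := hz 0 2 5 (by decide); have := hz 0 3 5 (by decide); have := hz 0 5 5 (by decide); omega)
    (by have := (H2 1 0).trans (show _ = 1 by decide); have := hz 1 3 0 (by decide); have := hz 1 4 0 (by decide); have := hz 1 5 0 (by decide); omega)
    (by have := (H2 1 1).trans (show _ = 1 by decide); have := hz 1 2 1 (by decide); have := hz 1 3 1 (by decide); have := hz 1 4 1 (by decide); omega)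
    (by have := (H2 1 2).trans (show _ = 1 by decide); have := hz 1 0 2 (by decide); have := hz 1 3 2 (by decide); have := hz 1 4 2 (by decide); have := hz 1 5 2 (by decide); omega)
    (by have := (H2 1 4).trans (show _ = 1 by decide); have := hz 1 1 4 (by decide); have := hz 1 2 4 (by decide); have := hz 1 3 4 (by decide); have := hz 1 4 4 (by decide); omega)
    (by have := (H2 2 0).trans (show _ = 1 by decide); have := hz 2 1 0 (by decide); have := hz 2 3 0 (by decide); have := hz 2 4 0 (by decide); have := hz 2 5 0 (by decide); omega)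
    (by have := (H2 2 2).trans (show _ = 1 by decide); have := hz 2 0 2 (by decide); have := hz 2 1 2 (by decide); have := hz 2 4 2 (by decide); have := hz 2 5 2 (by decide); omega)
    (by have := (H2 2 3).trans (show _ = 1 by decide); have := hz 2 0 3 (by decide); have := hz 2 1 3 (by decide); have := hz 2 2 3 (by decide); have := hz 2 4 3 (by decide); omega)
    (by have := (H2 2 4).trans (show _ = 1 by decide); have := hz 2 1 4 (by decide); have := hz 2 2 4 (by decide); have := hz 2 3 4 (by decide); have := hz 2 4 4 (by decide); omega)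
    (by have := (H2 3 0).trans (show _ = 1 by decide); have := hz 3 0 0 (by decide); have := hz 3 2 0 (by decide); have := hz 3 3 0 (by decide); have := hz 3 5 0 (by decide); omega)
    (by have := (H2 3 3).trans (show _ = 1 by decide); have := hz 3 0 3 (by decide); have := hz 3 2 3 (by decide); have := hz 3 3 3 (by decide); have := hz 3 4 3 (by decide); omega)
    (by have := (H2 3 5).trans (show _ = 1 by decide); have := hz 3 0 5 (by decide); have := hz 3 1 5 (by decide); have := hz 3 2 5 (by decide); have := hz 3 3 5 (by decide); omega)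
    (by have := (H2 4 1).trans (show _ = 1 by decide); have := hz 4 1 1 (by decide); have := hz 4 2 1 (by decide); have := hz 4 3 1 (by decide); have := hz 4 4 1 (by decide); omega)
    (by have := (H2 4 5).trans (show _ = 1 by decide); have := hz 4 1 5 (by decide); have := hz 4 2 5 (by decide); have := hz 4 3 5 (by decide); have := hz 4 4 5 (by decide); omega)
    (by have := (H2 5 1).trans (show _ = 1 by decide); have := hz 5 0 1 (by decide); have := hz 5 2 1 (by decide); have := hz 5 4 1 (by decide); have := hz 5 5 1 (by decide); omega)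
    (by have := (H2 5 2).trans (show _ = 1 by decide); have := hz 5 0 2 (by decide); have := hz 5 2 2 (by decide); have := hz 5 4 2 (by decide); have := hz 5 5 2 (by decide); omega)
    (by have := (H3 0 0).trans (show _ = 1 by decide); have := hz 3 0 0 (by decide); have := hz 4 0 0 (by decide); have := hz 5 0 0 (by decide); omega)
    (by have := (H3 0 1).trans (show _ = 1 by decide); have := hz 2 0 1 (by decide); have := hz 3 0 1 (by decide); have := hz 5 0 1 (by decide); omega)
    (by have := (H3 0 4).trans (show _ = 1 by decide); have := hz 0 0 4 (by decide); have := hz 3 0 4 (by decide); have := hz 4 0 4 (by decide); have := hz 5 0 4 (by decide); omega)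
    (by have := (H3 0 5).trans (show _ = 1 by decide); have := hz 1 0 5 (by decide); have := hz 2 0 5 (by decide); have := hz 3 0 5 (by decide); have := hz 5 0 5 (by decide); omega)
    (by have := (H3 1 0).trans (show _ = 1 by decide); have := hz 2 1 0 (by decide); have := hz 4 1 0 (by decide); have := hz 5 1 0 (by decide); omega)
    (by have := (H3 1 1).trans (show _ = 1 by decide); have := hz 2 1 1 (by decide); have := hz 3 1 1 (by decide); have := hz 4 1 1 (by decide); omega)
    (by have := (H3 1 2).trans (show _ = 1 by decide); have := hz 0 1 2 (by decide); have := hz 2 1 2 (by decide); have := hz 3 1 2 (by decide); have := hz 4 1 2 (by decide); omega)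
    (by have := (H3 1 3).trans (show _ = 1 by decide); have := hz 1 1 3 (by decide); have := hz 2 1 3 (by decide); have := hz 4 1 3 (by decide); have := hz 5 1 3 (by decide); omega)
    (by have := (H3 2 0).trans (show _ = 1 by decide); have := hz 0 2 0 (by decide); have := hz 3 2 0 (by decide); have := hz 4 2 0 (by decide); have := hz 5 2 0 (by decide); omega)
    (by have := (H3 2 2).trans (show _ = 1 by decide); have := hz 0 2 2 (by decide); have := hz 3 2 2 (by decide); have := hz 4 2 2 (by decide); have := hz 5 2 2 (by decide); omega)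
    (by have := (H3 3 1).trans (show _ = 1 by decide); have := hz 1 3 1 (by decide); have := hz 2 3 1 (by decide); have := hz 3 3 1 (by decide); have := hz 4 3 1 (by decide); omega)
    (by have := (H3 3 2).trans (show _ = 1 by decide); have := hz 0 3 2 (by decide); have := hz 1 3 2 (by decide); have := hz 3 3 2 (by decide); have := hz 4 3 2 (by decide); omega)
    (by have := (H3 3 3).trans (show _ = 1 by decide); have := hz 1 3 3 (by decide); have := hz 3 3 3 (by decide); have := hz 4 3 3 (by decide); have := hz 5 3 3 (by decide); omega)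
    (by have := (H3 4 0).trans (show _ = 1 by decide); have := hz 1 4 0 (by decide); have := hz 2 4 0 (by decide); have := hz 4 4 0 (by decide); have := hz 5 4 0 (by decide); omega)
    (by have := (H3 4 5).trans (show _ = 1 by decide); have := hz 1 4 5 (by decide); have := hz 2 4 5 (by decide); have := hz 4 4 5 (by decide); have := hz 5 4 5 (by decide); omega)
    (by have := (H3 5 1).trans (show _ = 1 by decide); have := hz 0 5 1 (by decide); have := hz 2 5 1 (by decide); have := hz 3 5 1 (by decide); have := hz 5 5 1 (by decide); omega)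
    (by have := (H3 5 3).trans (show _ = 1 by decide); have := hz 0 5 3 (by decide); have := hz 1 5 3 (by decide); have := hz 4 5 3 (by decide); have := hz 5 5 3 (by decide); omega)
    (by have := (H3 5 4).trans (show _ = 1 by decide); have := hz 0 5 4 (by decide); have := hz 3 5 4 (by decide); have := hz 4 5 4 (by decide); have := hz 5 5 4 (by decide); omega)
    (by have := (H3 5 5).trans (show _ = 1 by decide); have := hz 0 5 5 (by decide); have := hz 1 5 5 (by decide); have := hz 2 5 5 (by decide); have := hz 5 5 5 (by decide); omega)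
  have hs : ∀ i j k, x1 i j k = 0 ∨ (x1 i j k = 1 ∧ (i, j, k) ∈ ([(0, 0, 5), (0, 1, 3), (0, 3, 1), (0, 4, 0), (1, 0, 4), (1, 1, 2), (1, 2, 0), (1, 5, 1), (2, 0, 0), (2, 2, 2), (2, 3, 3), (2, 5, 4), (3, 1, 0), (3, 4, 5), (3, 5, 3), (4, 0, 1), (4, 5, 5), (5, 1, 1), (5, 3, 2)] : List (Fin 6 × Fin 6 × Fin 6))) := by
    decide +kernel
  have hall : ∀ c : ℕ, (y 0 0 5 = c ∧ y 0 1 3 = c ∧ y 0 3 1 = c ∧ y 0 4 0 = c ∧ y 1 0 4 = c ∧ y 1 1 2 = c ∧ y 1 2 0 = c ∧ y 1 5 1 = c ∧ y 2 0 0 = c ∧ y 2 2 2 = c ∧ y 2 3 3 = c ∧ y 2 5 4 = c ∧ y 3 1 0 = c ∧ y 3 4 5 = c ∧ y 3 5 3 = c ∧ y 4 0 1 = c ∧ y 4 5 5 = c ∧ y 5 1 1 = c ∧ y 5 3 2 = c) → ∀ i j k, x1 i j k = 0 ∨ (x1 i j k = 1 ∧ y i j k = c) := by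
    intro c hc i j k
    rcases hs i j k with h | ⟨h, h'⟩
    · exact Or.inl h
    · refine Or.inr ⟨h, ?_⟩
      simp only [List.mem_cons, Prod.mk.injEq, List.not_mem_nil, or_false] at h'
      obtain ⟨c0, c1, c2, c3, c4, c5, c6, c7, c8, c9, c10, c11, c12, c13, c14, c15, c16, c17, c18⟩ := hc
      rcases h' with ⟨rfl, rfl, rfl⟩ | ⟨rfl, rfl, rfl⟩ | ⟨rfl, rfl, rfl⟩ | ⟨rfl, rfl, rfl⟩ | ⟨rfl, rfl, rfl⟩ | ⟨rfl, rfl, rfl⟩ | ⟨rfl, rfl, rfl⟩ | ⟨rfl, rfl, rfl⟩ | ⟨rfl, rfl, rfl⟩ | ⟨rfl, rfl, rfl⟩ | ⟨rfl, rfl, rfl⟩ | ⟨rfl, rfl, rfl⟩ | ⟨rfl, rfl, rfl⟩ | ⟨rfl, rfl, rfl⟩ | ⟨rfl, rfl, rfl⟩ | ⟨rfl, rfl, rfl⟩ | ⟨rfl, rfl, rfl⟩ | ⟨rfl, rfl, rfl⟩ | ⟨rfl, rfl, rfl⟩ <;> assumption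
  rcases hc with hc | hc
  · left
    have hle : ∀ i j k, x1 i j k ≤ y i j k := by
      intro i j k
      have := hall 1 hc i j k
      omega
    funext i j k
    exact ((Finset.sum_eq_sum_iff_of_le (fun t _ => hle i j t)).mp (h1 i j) k
      (Finset.mem_univ _)).symm
  · right
    intro i j k
    have := hall 0 hc i j k
    omega

/-- The negation of the preceding statement: For all sizes I,J,K, any two minimal finite Markov bases of the no-3-way interaction model (moves with zero two-way margins connecting every fiber of nonnegative tables) coincide up to the signs of the moves. -/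
theorem result :
    ¬ (∀ I J K : ℕ,
    ∀ IsMB : Finset (Fin I → Fin J → Fin K → ℤ) → Prop,
      (∀ B : Finset (Fin I → Fin J → Fin K → ℤ), IsMB B ↔
        ((∀ m ∈ B, (∀ i j, ∑ k, m i j k = 0) ∧ (∀ i k, ∑ j, m i j k = 0) ∧
            (∀ j k, ∑ i, m i j k = 0)) ∧
          ∀ u v : Fin I → Fin J → Fin K → ℕ,
            (∀ i j, ∑ k, u i j k = ∑ k, v i j k) →
            (∀ i k, ∑ j, u i j k = ∑ j, v i j k) →
            (∀ j k, ∑ i, u i j k = ∑ i, v i j k) →
            Relation.ReflTransGen
              (fun w w' : Fin I → Fin J → Fin K → ℕ =>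
                ∃ m ∈ B, (∀ i j k, (w' i j k : ℤ) = (w i j k : ℤ) + m i j k) ∨
                  (∀ i j k, (w' i j k : ℤ) = (w i j k : ℤ) - m i j k))
              u v)) →
    ∀ B B' : Finset (Fin I → Fin J → Fin K → ℤ),
      (IsMB B ∧ ∀ C, C ⊂ B → ¬ IsMB C) →
      (IsMB B' ∧ ∀ C, C ⊂ B' → ¬ IsMB C) →
      ∀ m : Fin I → Fin J → Fin K → ℤ, (m ∈ B ∨ -m ∈ B) ↔ (m ∈ B' ∨ -m ∈ B')) := by
  intro h
  have h2 : cz x2 - cz x1 ∈ L := (mem_L x1 x2).mpr (by decide +kernel)
  have h3 : cz x3 - cz x1 ∈ L := (mem_L x1 x3).mpr (by decide +kernel)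
  have n21 : x2 ≠ x1 := fun e => absurd (congrFun (congrFun (congrFun e 0) 0) 0) (by decide)
  have n31 : x3 ≠ x1 := fun e => absurd (congrFun (congrFun (congrFun e 0) 0) 1) (by decide)
  have n23 : x2 ≠ x3 := fun e => absurd (congrFun (congrFun (congrFun e 0) 0) 0) (by decide)
  obtain ⟨B, hB, -, hB2⟩ := exists_min L x1 x2 x3 h2 h3 n21 n31 n23 0 0 5 (by decide) iso
  obtain ⟨B', hB', hB3, -⟩ := exists_min L x1 x3 x2 h3 h2 n31 n21 n23.symm 0 0 5 (by decide) iso
  have := h 6 6 6 (MB L) (fun C => by
    unfold MB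
    simp only [mem_L, and_imp]
    rfl) B B' hB hB' (cz x3 - cz x1)
  exact hB2 (this.mpr (Or.inl hB3))

end Pool.Agent.S11734
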