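import Pool.Statements.S11735
import Pool.Agent.H6.DoiB

set_option autoImplicit false
open Pool Pool.MP_d7b81d_co

namespace Pool.Agent.S11735

open Submodule Module Finset Filter Topology Pool.Agent.H6.DoiB

theorem geom {E : Type} [DecidableEq E] [AddCommGroup E] [Module ℝ E] [FiniteDimensional ℝ E]
    (S : Finset E) (h : Good (fun x : E => ((x, 1) : E × ℝ)) S) :
    ∃ N : Finset E, N ⊆ S ∧ N.Nonempty ∧ (S \ N).Nonempty ∧
      (convexHull ℝ (N : Set E) ∩ convexHull ℝ ((S \ N : Finset E) : Set E)).Nonempty ∧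
      vectorSpan ℝ (convexHull ℝ (N : Set E)) ≤
        vectorSpan ℝ (convexHull ℝ (N : Set E) ∩ convexHull ℝ ((S \ N : Finset E) : Set E)) := by
  obtain ⟨Y, β, l, hY, hβ, hne, hpos, hsum, hspan⟩ := h
  set A := Y.filter fun y => 0 < l y with hA
  set N := Y.filter fun y => l y < 0 with hN
  have hβA : β ⊆ A := fun y hy => mem_filter.2 ⟨hβ hy, hpos y hy⟩
  have hAS : A ⊆ S \ N := fun y hy => by
    have := mem_filter.1 hy
    exact mem_sdiff.2 ⟨hY this.1, fun h => by linarith [(mem_filter.1 h).2, this.2]⟩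
  have hsplit : ∑ y ∈ A, l y • ((y, 1) : E × ℝ) + ∑ y ∈ N, l y • ((y, 1) : E × ℝ) = 0 := by
    rw [← hsum, hA, hN, sum_filter, sum_filter, ← sum_add_distrib]
    refine sum_congr rfl fun y _ => ?_
    rcases lt_trichotomy (l y) 0 with h | h | h
    · simp [h, not_lt.2 h.le]
    · simp [h]
    · simp [h, not_lt.2 h.le]
  have h1 : ∑ y ∈ A, l y • y + ∑ y ∈ N, l y • y = 0 := by
    simpa [Prod.fst_sum] using congrArg Prod.fst hsplit
  have h2 : ∑ y ∈ A, l y + ∑ y ∈ N, l y = 0 := by
    simpa [Prod.snd_sum] using congrArg Prod.snd hsplit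
  set s := ∑ y ∈ A, l y with hs
  have hs0 : 0 < s := sum_pos (fun y hy => (mem_filter.1 hy).2) (hne.mono hβA)
  have hNne : N.Nonempty := by
    rw [nonempty_iff_ne_empty]
    intro h
    rw [h, sum_empty] at h2
    linarith
  set z : E := ∑ y ∈ A, (l y / s) • y with hz
  have hzN : z ∈ convexHull ℝ (N : Set E) := by
    have e : z = ∑ y ∈ N, (-l y / s) • y := by
      have : ∑ y ∈ A, l y • y = -∑ y ∈ N, l y • y := eq_neg_of_add_eq_zero_left h1
      simp only [hz, div_eq_inv_mul, mul_smul, ← smul_sum, this, neg_smul, sum_neg_distrib]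
    rw [e]
    refine (convex_convexHull ℝ _).sum_mem (fun y hy => div_nonneg
      (by linarith [(mem_filter.1 hy).2]) hs0.le) ?_ fun y hy => subset_convexHull ℝ _ hy
    rw [← sum_div, sum_neg_distrib, div_eq_one_iff_eq hs0.ne']
    linarith
  have hmemA : ∀ w : E → ℝ, (∀ y ∈ A, 0 ≤ w y) → ∑ y ∈ A, w y = 1 →
      ∑ y ∈ A, w y • y ∈ convexHull ℝ ((S \ N : Finset E) : Set E) := fun w h0 h1 =>
    (convex_convexHull ℝ _).sum_mem h0 h1 fun y hy => subset_convexHull ℝ _ (hAS hy)
  have hls : ∑ y ∈ A, l y / s = 1 := by rw [← sum_div, div_self hs0.ne']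
  have hzA : z ∈ convexHull ℝ ((S \ N : Finset E) : Set E) :=
    hmemA _ (fun y hy => div_nonneg (mem_filter.1 hy).2.le hs0.le) hls
  refine ⟨N, (filter_subset _ _).trans hY, hNne, (hne.mono hβA).mono hAS, ⟨z, hzN, hzA⟩, ?_⟩
  have key : ∀ n ∈ N, n - z ∈ vectorSpan ℝ
      (convexHull ℝ (N : Set E) ∩ convexHull ℝ ((S \ N : Finset E) : Set E)) := by
    intro n hn
    have hm : ((n, 1) : E × ℝ) ∈ span ℝ ((fun x : E => ((x, 1) : E × ℝ)) '' A) :=
      span_mono (Set.image_mono (coe_subset.2 hβA)) (hspan n (mem_filter.1 hn).1)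
    obtain ⟨γ, hγ⟩ := (Submodule.mem_span_image_finset_iff_exists_fun' ℝ).1 hm
    have g1 : ∑ y ∈ A, γ y • y = n := by simpa [Prod.fst_sum] using congrArg Prod.fst hγ
    have g2 : ∑ y ∈ A, γ y = 1 := by simpa [Prod.snd_sum] using congrArg Prod.snd hγ
    have ev : ∀ᶠ t in 𝓝 (0 : ℝ), ∀ y ∈ A, 0 < (1 - t) * (l y / s) + t * γ y := by
      rw [eventually_all_finset]
      intro y hy
      have hc : ContinuousAt (fun t : ℝ => (1 - t) * (l y / s) + t * γ y) 0 := by fun_prop
      exact hc.eventually (lt_mem_nhds (by simpa using div_pos (mem_filter.1 hy).2 hs0))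
    obtain ⟨t, ht, ht'⟩ := ((ev.filter_mono nhdsWithin_le_nhds).and
      (Ioo_mem_nhdsGT (show (0 : ℝ) < 1 by norm_num))).exists
    have m1 : (1 - t) • z + t • n ∈ convexHull ℝ (N : Set E) :=
      convex_convexHull ℝ _ hzN (subset_convexHull ℝ _ hn) (by linarith [ht'.2]) ht'.1.le
        (by ring)
    have m2 : (1 - t) • z + t • n ∈ convexHull ℝ ((S \ N : Finset E) : Set E) := by
      have := hmemA (fun y => (1 - t) * (l y / s) + t * γ y) (fun y hy => (ht y hy).le) (by
        rw [sum_add_distrib, ← mul_sum, ← mul_sum, hls, g2]; ring)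
      simpa only [add_smul, mul_smul, sum_add_distrib, ← smul_sum, g1] using this
    have m3 := vsub_mem_vectorSpan ℝ (Set.mem_inter m1 m2) (Set.mem_inter hzN hzA)
    have e : n - z = t⁻¹ • ((1 - t) • z + t • n -ᵥ z) := by
      rw [vsub_eq_sub, show (1 - t) • z + t • n - z = t • (n - z) by module, smul_smul,
        inv_mul_cancel₀ ht'.1.ne', one_smul]
    rw [e]
    exact smul_mem _ _ m3
  rw [← direction_affineSpan, affineSpan_convexHull, direction_affineSpan, vectorSpan_def, span_le]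
  rintro _ ⟨a, ha, b, hb, rfl⟩
  have : a -ᵥ b = (a - z) - (b - z) := by simp
  show a -ᵥ b ∈ _
  rw [this]
  exact sub_mem (key a ha) (key b hb)


/-- For every d ≥ 1, any 2d+1 distinct points in R^d split into two nonempty parts whose convex hulls meet, with the intersection's affine dimension at least the smaller of the two hulls' dimensions. -/
theorem result :
    ∀ d : ℕ, 1 ≤ d →
      ∀ S : Finset (EuclideanSpace ℝ (Fin d)), S.card = 2 * d + 1 →
        ∃ S₁ S₂ : Finset (EuclideanSpace ℝ (Fin d)),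
          S₁ ∪ S₂ = S ∧ Disjoint S₁ S₂ ∧ S₁.Nonempty ∧ S₂.Nonempty ∧
          (convexHull ℝ (S₁ : Set (EuclideanSpace ℝ (Fin d))) ∩
            convexHull ℝ (S₂ : Set (EuclideanSpace ℝ (Fin d)))).Nonempty ∧
          min (Module.finrank ℝ
                (vectorSpan ℝ (convexHull ℝ (S₁ : Set (EuclideanSpace ℝ (Fin d))))))
              (Module.finrank ℝ
                (vectorSpan ℝ (convexHull ℝ (S₂ : Set (EuclideanSpace ℝ (Fin d))))))
            ≤ Module.finrank ℝ
                (vectorSpan ℝ (convexHull ℝ (S₁ : Set (EuclideanSpace ℝ (Fin d))) ∩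
                  convexHull ℝ (S₂ : Set (EuclideanSpace ℝ (Fin d))))) := by
  intro d hd S hS
  classical
  have hG : Good (fun x : EuclideanSpace ℝ (Fin d) => ((x, 1) : EuclideanSpace ℝ (Fin d) × ℝ)) S := by
    refine Pool.Agent.H6.DoiB.main _ S (fun x h => by simpa using congrArg Prod.snd h) ?_
      (by omega) ?_
    · intro x y hxy
      rw [coe_pair, linearIndepOn_pair_iff _ hxy (fun h => by simpa using congrArg Prod.snd h)]
      intro c hc
      have h1 : c = 1 := by simpa using congrArg Prod.snd hc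
      have h2 : x = y := by simpa [h1] using congrArg Prod.fst hc
      exact hxy h2
    · have := Submodule.finrank_le (span ℝ ((fun x : EuclideanSpace ℝ (Fin d) =>
        ((x, 1) : EuclideanSpace ℝ (Fin d) × ℝ)) '' S))
      rw [finrank_prod, finrank_euclideanSpace_fin, finrank_self] at this
      omega
  obtain ⟨N, h1, h2, h3, h4, h5⟩ := geom S hG
  refine ⟨N, S \ N, ?_, disjoint_sdiff, h2, h3, h4,
    (min_le_left _ _).trans (Submodule.finrank_mono h5)⟩
  convert union_sdiff_of_subset h1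

end Pool.Agent.S11735
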