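import Pool.Statements.S11804
-- import your own Pool.Agent.* helpers here

set_option autoImplicit false
open Pool Pool.MP_da9eaf_co

namespace Pool.Agent.S11804

lemma parab {ι : Type} (P : ι → Fin 2 → ℝ) (h : ℝ) (hP : ∀ i, P i 1 = (P i 0 - h) ^ 2)
    (hinj : ∀ i j, P i 0 = P j 0 → i = j) : ConvexIndependent ℝ P := by
  intro s x hx
  by_contra hxs
  have hconv : Convex ℝ {q : Fin 2 → ℝ | 0 < q 1 - 2 * (P x 0 - h) * (q 0 - h) + (P x 0 - h) ^ 2} := by
    intro u hu v hv a b ha hb hab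
    simp only [Set.mem_setOf_eq, Pi.add_apply, Pi.smul_apply, smul_eq_mul] at hu hv ⊢
    have e : a * u 1 + b * v 1 - 2 * (P x 0 - h) * (a * u 0 + b * v 0 - h) + (P x 0 - h) ^ 2 =
        a * (u 1 - 2 * (P x 0 - h) * (u 0 - h) + (P x 0 - h) ^ 2) +
        b * (v 1 - 2 * (P x 0 - h) * (v 0 - h) + (P x 0 - h) ^ 2) := by
      have : b = 1 - a := by linarith
      subst this; ring
    rw [e]
    rcases ha.eq_or_lt with rfl | ha'
    · have : b = 1 := by linarith
      subst this; simpa using hv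
    · have := mul_pos ha' hu
      have := mul_nonneg hb hv.le
      linarith
  have hsub : P '' s ⊆ {q : Fin 2 → ℝ | 0 < q 1 - 2 * (P x 0 - h) * (q 0 - h) + (P x 0 - h) ^ 2} := by
    rintro _ ⟨y, hy, rfl⟩
    have hne : P y 0 - P x 0 ≠ 0 := fun e => hxs (hinj y x (by linarith) ▸ hy)
    have := sq_pos_of_ne_zero hne
    simp only [Set.mem_setOf_eq, hP y]
    nlinarith
  have := convexHull_min hsub hconv hx
  simp only [Set.mem_setOf_eq, hP x] at this
  nlinarith

/-- The three families of points. -/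
noncomputable def pt (m v : ℕ) : Fin 2 → ℝ :=
  if v < m then ![(v : ℝ), (v : ℝ) ^ 2 - m * (v : ℝ) ^ 2]
  else if v < 2 * m then ![m * ((v : ℝ) - m + 1), (m ^ 2 - m) * ((v : ℝ) - m) ^ 2]
  else ![-1, m * ((v : ℝ) - 2 * m) ^ 2]

lemma pt_inj (m : ℕ) (hm : 0 < m) : Function.Injective (pt m) := by
  intro v w h
  have h0 := congrFun h 0
  have h1 := congrFun h 1
  have hm' : (0 : ℝ) < m := by exact_mod_cast hm
  have hv0 : (0 : ℝ) ≤ v := Nat.cast_nonneg v
  have hw0 : (0 : ℝ) ≤ w := Nat.cast_nonneg w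
  unfold pt at h0 h1
  split_ifs at h0 h1 with a b c d e f g i <;> simp only [Matrix.cons_val_zero, Matrix.cons_val_one] at h0 h1
  · exact_mod_cast h0
  · have : (v : ℝ) < m := by exact_mod_cast a
    have : (m : ℝ) ≤ w := by exact_mod_cast not_lt.1 b
    nlinarith
  · linarith
  · have : (w : ℝ) < m := by exact_mod_cast e
    have : (m : ℝ) ≤ v := by exact_mod_cast not_lt.1 a
    nlinarith
  · have := mul_left_cancel₀ hm'.ne' h0
    have : (v : ℝ) = w := by linarith
    exact_mod_cast this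
  · have : (m : ℝ) ≤ v := by exact_mod_cast not_lt.1 a
    nlinarith
  · linarith
  · have : (m : ℝ) ≤ w := by exact_mod_cast not_lt.1 g
    nlinarith
  · have h2 := mul_left_cancel₀ hm'.ne' h1
    have h3 : (2 * m : ℝ) ≤ v := by exact_mod_cast not_lt.1 d
    have h4 : (2 * m : ℝ) ≤ w := by exact_mod_cast not_lt.1 i
    have := (pow_left_inj₀ (by linarith) (by linarith) two_ne_zero).1 h2
    have : (v : ℝ) = w := by linarith
    exact_mod_cast this

def edge (m : ℕ) (p : Fin m × Fin m) : Finset (Fin (4 * m)) :=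
  {⟨p.1, by omega⟩, ⟨m + p.2, by omega⟩, ⟨2 * m + p.1 + p.2, by omega⟩}

lemma edge_ne (m : ℕ) (p : Fin m × Fin m) :
    (⟨p.1, by omega⟩ : Fin (4 * m)) ∉ ({⟨m + p.2, by omega⟩, ⟨2 * m + p.1 + p.2, by omega⟩} :
      Finset (Fin (4 * m))) ∧
    (⟨m + p.2, by omega⟩ : Fin (4 * m)) ≠ ⟨2 * m + p.1 + p.2, by omega⟩ := by
  simp only [Finset.mem_insert, Finset.mem_singleton, Fin.mk.injEq, ne_eq]
  omega

lemma edge_card (m : ℕ) (p : Fin m × Fin m) : (edge m p).card = 3 := by
  rw [edge, Finset.card_insert_of_notMem (edge_ne m p).1, Finset.card_pair (edge_ne m p).2]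

lemma edge_sum (m : ℕ) (p : Fin m × Fin m) : ∑ v ∈ edge m p, pt m v =
    ![(p.1 : ℝ) + m * p.2 + (m - 1), ((p.1 : ℝ) + m * p.2) ^ 2] := by
  rw [edge, Finset.sum_insert (edge_ne m p).1, Finset.sum_pair (edge_ne m p).2]
  have a1 : (p.1 : ℕ) < m := p.1.2
  have a2 : ¬ (m + p.2 < m) := by omega
  have a3 : m + p.2 < 2 * m := by omega
  have a4 : ¬ (2 * m + p.1 + p.2 < m) := by omega
  have a5 : ¬ (2 * m + p.1 + p.2 < 2 * m) := by omega
  simp only [pt, a1, a2, a3, a4, a5, if_true, if_false]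
  ext i
  fin_cases i <;> simp <;> ring

lemma coord_inj (m : ℕ) (p q : Fin m × Fin m)
    (h : (p.1 : ℝ) + m * p.2 + (m - 1) = (q.1 : ℝ) + m * q.2 + (m - 1)) : p = q := by
  have h1 : (p.1 : ℕ) + m * p.2 = q.1 + m * q.2 := by
    have : (p.1 : ℝ) + m * p.2 = (q.1 : ℝ) + m * q.2 := by linarith
    exact_mod_cast this
  have h2 := congrArg (· % m) h1
  simp only [Nat.add_mul_mod_self_left, Nat.mod_eq_of_lt p.1.2, Nat.mod_eq_of_lt q.1.2] at h2
  have hm : 0 < m := p.1.pos
  have h3 : (p.2 : ℕ) = q.2 := Nat.eq_of_mul_eq_mul_left hm (by omega)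
  exact Prod.ext (Fin.ext h2) (Fin.ext h3)

lemma edge_inj (m : ℕ) : Function.Injective (edge m) := by
  intro p q h
  have h1 := edge_sum m p
  rw [h, edge_sum] at h1
  exact (coord_inj m _ _ (congrFun h1 0)).symm


/-- The negation of the preceding statement: For 2≤d≤k there is a rational α with d-1<α<d such that the maximum number of edges of a k-uniform hypergraph on n vertices with an injective embedding into R^d whose edge barycenters are in convex position is Θ(n^α). -/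
theorem result :
    ¬ (∀ d k : ℕ, 2 ≤ d → d ≤ k →
      ∃ α : ℚ, ((d : ℝ) - 1 < (α : ℝ)) ∧ ((α : ℝ) < (d : ℝ)) ∧
        ∃ c C : ℝ, 0 < c ∧ 0 < C ∧ ∃ N : ℕ, ∀ n : ℕ, N ≤ n →
          (∀ E : Finset (Finset (Fin n)), (∀ e ∈ E, e.card = k) →
              (∃ f : Fin n → (Fin d → ℝ), Function.Injective f ∧
                  ConvexIndependent ℝ (fun e : ↥E => ∑ v ∈ e.1, f v)) →
              (E.card : ℝ) ≤ C * (n : ℝ) ^ (α : ℝ)) ∧
          (∃ E : Finset (Finset (Fin n)), (∀ e ∈ E, e.card = k) ∧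
              (∃ f : Fin n → (Fin d → ℝ), Function.Injective f ∧
                  ConvexIndependent ℝ (fun e : ↥E => ∑ v ∈ e.1, f v)) ∧
              c * (n : ℝ) ^ (α : ℝ) ≤ (E.card : ℝ))) := by
  intro h
  obtain ⟨α, -, hα, c, C, -, hC, N, hN⟩ := h 2 3 le_rfl (by norm_num)
  have hα' : (0 : ℝ) < 2 - α := by push_cast at hα; linarith
  have ht : Filter.Tendsto (fun m : ℕ => (m : ℝ) ^ (2 - (α : ℝ))) Filter.atTop Filter.atTop :=
    (tendsto_rpow_atTop hα').comp tendsto_natCast_atTop_atTop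
  obtain ⟨m, hm1, hm2⟩ := ((ht.eventually_gt_atTop (C * 4 ^ (α : ℝ))).and
    (Filter.eventually_ge_atTop (N + 1))).exists
  have hm : 0 < m := by omega
  have hm' : (0 : ℝ) < m := by exact_mod_cast hm
  have key := (hN (4 * m) (by omega)).1 (Finset.univ.image (edge m)) (by
    intro e he
    obtain ⟨p, -, rfl⟩ := Finset.mem_image.1 he
    exact edge_card m p) ⟨fun v => pt m v, fun v w e => Fin.ext (pt_inj m hm e), by
      refine parab _ (m - 1) ?_ ?_
      · rintro ⟨e, he⟩
        obtain ⟨p, -, rfl⟩ := Finset.mem_image.1 he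
        simp only [edge_sum]
        simp
      · rintro ⟨e, he⟩ ⟨e', he'⟩ h
        obtain ⟨p, -, rfl⟩ := Finset.mem_image.1 he
        obtain ⟨q, -, rfl⟩ := Finset.mem_image.1 he'
        simp only [edge_sum] at h
        have := coord_inj m p q h
        subst this
        rfl⟩
  rw [Finset.card_image_of_injective _ (edge_inj m)] at key
  simp only [Finset.card_univ, Fintype.card_prod, Fintype.card_fin] at key
  push_cast at key
  rw [Real.mul_rpow (by norm_num) hm'.le] at key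
  have e : (m : ℝ) * m = (m : ℝ) ^ (2 - (α : ℝ)) * (m : ℝ) ^ (α : ℝ) := by
    rw [← Real.rpow_add hm']; simp [sq]
  have hp : (0 : ℝ) < (m : ℝ) ^ (α : ℝ) := Real.rpow_pos_of_pos hm' _
  nlinarith

end Pool.Agent.S11804
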