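import Pool.Statements.S11816
-- import your own Pool.Agent.* helpers here

set_option autoImplicit false
open Pool Pool.MP_daf6f7_co

namespace Pool.Agent.S11816

/-- end points of the 20 edges of the Grotzsch graph -/
def en : Fin 20 → Fin 11 × Fin 11 :=
  ![(0, 1), (5, 1), (5, 4), (10, 5), (1, 2), (6, 2), (6, 0), (10, 6), (2, 3), (7, 3), (7, 1),
    (10, 7), (3, 4), (8, 4), (8, 2), (10, 8), (4, 0), (9, 0), (9, 3), (10, 9)]

def e (i : Fin 11) : Finset (Fin 20) :=
  Finset.univ.filter (fun v => (en v).1 = i ∨ (en v).2 = i)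

def I : Fin 6 → Finset (Fin 11) :=
  ![{0, 2, 5, 7}, {0, 3, 5, 8}, {1, 4, 6, 9}, {5, 6, 7, 8, 9}, {1, 3, 10}, {2, 4, 10}]

lemma e_ne : ∀ i, (e i).Nonempty := by decide +kernel

lemma I_ind : ∀ t, ∀ i ∈ I t, ∀ j ∈ I t, i ≠ j → Disjoint (e i) (e j) := by decide +kernel

lemma I_cov : ∀ i, 2 ≤ (Finset.univ.filter (fun t => i ∈ I t)).card := by decide +kernel

lemma deg_le : ∀ v : Fin 20, (Finset.univ.filter (fun i : Fin 11 => v ∈ e i)).card ≤ 2 := by
  decide +kernel

lemma en_ne : ∀ v : Fin 20, (en v).1 ≠ (en v).2 := by decide +kernel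

lemma en_mem (v : Fin 20) : v ∈ e (en v).1 ∧ v ∈ e (en v).2 := by
  simp [e]

lemma no3 (c : Fin 11 → Fin 3) (h : ∀ v : Fin 20, c (en v).1 ≠ c (en v).2) : False := by
  have h0 : c 0 ≠ c 1 := h 0
  have h1 : c 5 ≠ c 1 := h 1
  have h2 : c 5 ≠ c 4 := h 2
  have h3 : c 10 ≠ c 5 := h 3
  have h4 : c 1 ≠ c 2 := h 4
  have h5 : c 6 ≠ c 2 := h 5
  have h6 : c 6 ≠ c 0 := h 6
  have h7 : c 10 ≠ c 6 := h 7
  have h8 : c 2 ≠ c 3 := h 8
  have h9 : c 7 ≠ c 3 := h 9
  have h10 : c 7 ≠ c 1 := h 10
  have h11 : c 10 ≠ c 7 := h 11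
  have h12 : c 3 ≠ c 4 := h 12
  have h13 : c 8 ≠ c 4 := h 13
  have h14 : c 8 ≠ c 2 := h 14
  have h15 : c 10 ≠ c 8 := h 15
  have h16 : c 4 ≠ c 0 := h 16
  have h17 : c 9 ≠ c 0 := h 17
  have h18 : c 9 ≠ c 3 := h 18
  have h19 : c 10 ≠ c 9 := h 19
  simp only [ne_eq, Fin.ext_iff] at *
  have b0 := (c 0).isLt
  have b1 := (c 1).isLt
  have b2 := (c 2).isLt
  have b3 := (c 3).isLt
  have b4 := (c 4).isLt
  have b5 := (c 5).isLt
  have b6 := (c 6).isLt
  have b7 := (c 7).isLt
  have b8 := (c 8).isLt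
  have b9 := (c 9).isLt
  have b10 := (c 10).isLt
  generalize (c 0).val = x0 at *
  generalize (c 1).val = x1 at *
  generalize (c 2).val = x2 at *
  generalize (c 3).val = x3 at *
  generalize (c 4).val = x4 at *
  generalize (c 5).val = x5 at *
  generalize (c 6).val = x6 at *
  generalize (c 7).val = x7 at *
  generalize (c 8).val = x8 at *
  generalize (c 9).val = x9 at *
  generalize (c 10).val = x10 at *
  interval_cases x10 <;> interval_cases x0 <;> interval_cases x1 <;> interval_cases x2 <;>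
    interval_cases x3 <;> interval_cases x4 <;> omega

lemma third (S : Finset (Fin 11)) : ∃ t, S.card ≤ (S ∩ I t).card * 3 := by
  by_contra h
  push Not at h
  have h1 : ∑ t, (S ∩ I t).card = ∑ i ∈ S, (Finset.univ.filter (fun t => i ∈ I t)).card := by
    simp only [Finset.card_eq_sum_ones, Finset.sum_filter, ← Finset.filter_mem_eq_inter]
    rw [Finset.sum_comm]
  have h2 : ∑ i ∈ S, 2 ≤ ∑ i ∈ S, (Finset.univ.filter (fun t => i ∈ I t)).card :=
    Finset.sum_le_sum (fun i _ => I_cov i)
  rw [← h1, Fin.sum_univ_six] at h2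
  simp only [Finset.sum_const, smul_eq_mul] at h2
  have a0 := h 0
  have a1 := h 1
  have a2 := h 2
  have a3 := h 3
  have a4 := h 4
  have a5 := h 5
  omega


/-- The negation of the preceding statement: For any finite hypergraph (edges may repeat) in which every subfamily of edges has a matching of size at least its edge count divided by its max degree plus one, the edges can be colored with max degree plus one colors so same-colored edges are disjoint. -/
theorem result :
    ¬ (∀ (V : Type) [Fintype V] [DecidableEq V] (m : ℕ) (e : Fin m → Finset V),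
    (∀ i, (e i).Nonempty) →
    (∀ S : Finset (Fin m), ∃ M ⊆ S,
        (∀ i ∈ M, ∀ j ∈ M, i ≠ j → Disjoint (e i) (e j)) ∧
        S.card ≤ M.card *
          (Finset.univ.sup (fun v : V => (S.filter (fun i => v ∈ e i)).card) + 1)) →
    ∃ c : Fin m → Fin (Finset.univ.sup
        (fun v : V => (Finset.univ.filter (fun i : Fin m => v ∈ e i)).card) + 1),
      ∀ i j, i ≠ j → c i = c j → Disjoint (e i) (e j)) := by
  intro h
  obtain ⟨c, hc⟩ := h (Fin 20) 11 e e_ne (by
    intro S
    by_cases hS : ∀ i ∈ S, ∀ j ∈ S, i ≠ j → Disjoint (e i) (e j)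
    · exact ⟨S, Finset.Subset.refl _, hS, Nat.le_mul_of_pos_right _ (Nat.succ_pos _)⟩
    · push Not at hS
      obtain ⟨i, hi, j, hj, hij, hd⟩ := hS
      rw [Finset.not_disjoint_iff] at hd
      obtain ⟨v, hvi, hvj⟩ := hd
      have h2 : 2 ≤ Finset.univ.sup (fun v : Fin 20 => (S.filter (fun i => v ∈ e i)).card) := by
        refine le_trans ?_ (Finset.le_sup (f := fun v : Fin 20 =>
          (S.filter (fun i => v ∈ e i)).card) (Finset.mem_univ v))
        have : ({i, j} : Finset (Fin 11)) ⊆ S.filter (fun i => v ∈ e i) := by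
          intro x hx
          simp only [Finset.mem_insert, Finset.mem_singleton] at hx
          rcases hx with rfl | rfl <;> simp [*]
        have h3 := Finset.card_le_card this
        rwa [Finset.card_pair hij] at h3
      obtain ⟨t, ht⟩ := third S
      refine ⟨S ∩ I t, Finset.inter_subset_left, ?_, ?_⟩
      · intro a ha b hb hab
        exact I_ind t a (Finset.mem_inter.1 ha).2 b (Finset.mem_inter.1 hb).2 hab
      · exact le_trans ht (Nat.mul_le_mul_left _ (by omega)))
  have hs : Finset.univ.sup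
      (fun v : Fin 20 => (Finset.univ.filter (fun i : Fin 11 => v ∈ e i)).card) ≤ 2 :=
    Finset.sup_le (fun v _ => deg_le v)
  refine no3 (fun i => ⟨(c i).val, by have := (c i).isLt; omega⟩) ?_
  intro v hv
  have hv' : c (en v).1 = c (en v).2 := Fin.ext (Fin.mk.inj hv)
  have := hc _ _ (en_ne v) hv'
  exact Finset.disjoint_left.1 this (en_mem v).1 (en_mem v).2

end Pool.Agent.S11816
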