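import Pool.Statements.S11842
-- import your own Pool.Agent.* helpers here

set_option autoImplicit false
open Pool Pool.MP_dc0d0a_co

namespace Pool.Agent.S11842

/-- edge relation -/
def R (i j : Fin 7) : Prop :=
  (i, j) ∈ ({(0, 2), (0, 3), (1, 2), (1, 3), (0, 4), (1, 4), (2, 4), (3, 4), (0, 5), (1, 5),
    (2, 6), (3, 6)} : Finset (Fin 7 × Fin 7))

instance : DecidableRel R := fun i j => by unfold R; infer_instance

/-- the prescribed values -/
def xv : Fin 7 → Fin 7 → ℚ :=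
  ![![1, 0, 57/64, 15/16, 3/4, 1/4, 0],
    ![0, 1, 57/64, 15/16, 3/4, 1/2, 0],
    ![57/64, 57/64, 1, 0, 9/16, 0, 1/4],
    ![15/16, 15/16, 0, 1, 3/4, 0, -1/2],
    ![3/4, 3/4, 9/16, 3/4, 1, 0, 0],
    ![1/4, 1/2, 0, 0, 0, 1, 0],
    ![0, 0, 1/4, -1/2, 0, 0, 1]]

/-- coordinates -/
noncomputable def Bm (w : ℝ) : Matrix (Fin 4) (Fin 7) ℝ :=
  !![3/4, 3/4, 9/16, 3/4, 1, ((5 + w)/2) * (3/4) - (w + 1) * (3/4),
       (w - 1) * (9/16) - ((5 - w)/2) * (3/4);
     1/2, 1/2, w/4, w/5, 0, ((5 + w)/2) * (1/2) - (w + 1) * (1/2),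
       (w - 1) * (w/4) - ((5 - w)/2) * (w/5);
     1, -1, 0, 0, 0, ((5 + w)/2) * (-1) - (w + 1), 0;
     0, 0, 5, -4, 0, 0, (w - 1) * 5 - ((5 - w)/2) * (-4)]

/-- squared lengths -/
noncomputable def dv (w : ℝ) : Fin 4 → ℝ := ![1, 3*w/4, 7/16 - 3*w/16, 7/256 - 3*w/320]

lemma adj_iff (i j : Fin 7) : (SimpleGraph.fromRel R).Adj i j ↔ (R i j ∨ R j i) := by
  rw [SimpleGraph.fromRel_adj]
  revert i j
  decide

lemma entry (w : ℝ) (i j : Fin 7) :
    (Matrix.conjTranspose (Bm w) * Matrix.diagonal (dv w) * Bm w) i j =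
      Bm w 0 i * dv w 0 * Bm w 0 j + Bm w 1 i * dv w 1 * Bm w 1 j +
      Bm w 2 i * dv w 2 * Bm w 2 j + Bm w 3 i * dv w 3 * Bm w 3 j := by
  rw [Matrix.mul_apply]
  simp [Fin.sum_univ_four]

lemma real_completion : ∃ X : Matrix (Fin 7) (Fin 7) ℝ, X.PosSemidef ∧ (∀ i, X i i = 1) ∧
    ∀ i j, (SimpleGraph.fromRel R).Adj i j → X i j = (xv i j : ℝ) := by
  set w := Real.sqrt 5 with hw
  have h0 : 0 ≤ w := Real.sqrt_nonneg 5
  have h2 : w ^ 2 = 5 := Real.sq_sqrt (by norm_num)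
  have h3 : w ^ 3 = 5 * w := by rw [pow_succ, h2]
  have h4 : w ^ 4 = 25 := by rw [show w ^ 4 = (w ^ 2) ^ 2 by ring, h2]; norm_num
  have h5 : w ^ 5 = 25 * w := by rw [pow_succ, h4]
  have hub : w ≤ 7 / 3 := by nlinarith
  refine ⟨Matrix.conjTranspose (Bm w) * Matrix.diagonal (dv w) * Bm w, ?_, ?_, ?_⟩
  · apply Matrix.PosSemidef.conjTranspose_mul_mul_same
    apply Matrix.PosSemidef.diagonal
    intro i
    fin_cases i <;> simp [dv] <;> linarith
  · intro i
    rw [entry]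
    fin_cases i <;> simp [Bm, dv] <;> linarith
  · have key : ∀ i j, R i j →
        (Matrix.conjTranspose (Bm w) * Matrix.diagonal (dv w) * Bm w) i j = (xv i j : ℝ) ∧
        (Matrix.conjTranspose (Bm w) * Matrix.diagonal (dv w) * Bm w) j i = (xv j i : ℝ) := by
      intro i j h
      rw [entry, entry]
      simp only [R, Finset.mem_insert, Finset.mem_singleton, Prod.mk.injEq] at h
      rcases h with ⟨rfl, rfl⟩ | ⟨rfl, rfl⟩ | ⟨rfl, rfl⟩ | ⟨rfl, rfl⟩ | ⟨rfl, rfl⟩ | ⟨rfl, rfl⟩ |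
        ⟨rfl, rfl⟩ | ⟨rfl, rfl⟩ | ⟨rfl, rfl⟩ | ⟨rfl, rfl⟩ | ⟨rfl, rfl⟩ | ⟨rfl, rfl⟩ <;>
      constructor <;> simp [Bm, dv, xv] <;> linarith
    intro i j h
    rcases (adj_iff i j).1 h with h | h
    · exact (key i j h).1
    · exact (key j i h).2

/-- The negation of the preceding statement: For every finite graph and rational edge values, if some real positive semidefinite matrix with ones on the diagonal matches the values on edges, then some rational such positive semidefinite matrix also matches them. -/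
theorem result :
    ¬ (∀ (n : ℕ) (G : SimpleGraph (Fin n)) (x : Fin n → Fin n → ℚ),
      (∃ X : Matrix (Fin n) (Fin n) ℝ, X.PosSemidef ∧ (∀ i, X i i = 1) ∧
          ∀ i j, G.Adj i j → X i j = (x i j : ℝ)) →
      ∃ Y : Matrix (Fin n) (Fin n) ℚ,
        (Y.map (fun q : ℚ => (q : ℝ))).PosSemidef ∧ (∀ i, Y i i = 1) ∧
          ∀ i j, G.Adj i j → Y i j = x i j) := by
  intro H
  obtain ⟨Y, hY, hd, he⟩ := H 7 (SimpleGraph.fromRel R) xv real_completion
  set w := Real.sqrt 5 with hw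
  have h0 : 0 ≤ w := Real.sqrt_nonneg 5
  have h2 : w ^ 2 = 5 := Real.sq_sqrt (by norm_num)
  have hpos : 0 < w := Real.sqrt_pos.2 (by norm_num)
  have e : ∀ i j, (R i j ∨ R j i) → Y i j = xv i j := fun i j h => he i j ((adj_iff i j).2 h)
  have s10 : ((Y 1 0 : ℚ) : ℝ) = Y 0 1 := by
    have := hY.isHermitian.apply 0 1
    simpa using this
  have s32 : ((Y 3 2 : ℚ) : ℝ) = Y 2 3 := by
    have := hY.isHermitian.apply 2 3
    simpa using this
  have q1 := hY.dotProduct_mulVec_nonneg ![4, -2 * w, 0, 0, 0, w - 1, 0]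
  have q2 := hY.dotProduct_mulVec_nonneg ![0, 0, 4, -2 * w, 0, 0, -(1 + w)]
  have q3 := hY.dotProduct_mulVec_nonneg ![2 * w, 2 * w, -4, -5, -3 * w + 6, 0, 0]
  simp only [dotProduct, Matrix.mulVec, Fin.sum_univ_seven, Matrix.map_apply, star_trivial,
    hd, s10, s32,
    e 0 2 (by decide), e 2 0 (by decide), e 0 3 (by decide), e 3 0 (by decide),
    e 1 2 (by decide), e 2 1 (by decide), e 1 3 (by decide), e 3 1 (by decide),
    e 0 4 (by decide), e 4 0 (by decide), e 1 4 (by decide), e 4 1 (by decide),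
    e 2 4 (by decide), e 4 2 (by decide), e 3 4 (by decide), e 4 3 (by decide),
    e 0 5 (by decide), e 5 0 (by decide), e 1 5 (by decide), e 5 1 (by decide),
    e 2 6 (by decide), e 6 2 (by decide), e 3 6 (by decide), e 6 3 (by decide)] at q1 q2 q3
  simp [xv] at q1 q2 q3
  set a : ℝ := (Y 0 1 : ℝ) with ha
  set b : ℝ := (Y 2 3 : ℝ) with hb
  have r1 : 0 ≤ w * (1 / 8 + 3 * w / 8 - a) := by nlinarith
  have r2 : 0 ≤ w * (-1 / 8 + 3 * w / 8 - b) := by nlinarith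
  have r1' : 0 ≤ 1 / 8 + 3 * w / 8 - a := nonneg_of_mul_nonneg_right r1 hpos |> fun h => by
    exact le_of_mul_le_mul_left (by simpa using r1) hpos
  have r2' : 0 ≤ -1 / 8 + 3 * w / 8 - b := le_of_mul_le_mul_left (by simpa using r2) hpos
  have r3 : 0 ≤ a + b - 3 * w / 4 := by
    have : w ^ 2 * a = 5 * a := by rw [h2]
    nlinarith
  have : w = ((8 * Y 0 1 - 1) / 3 : ℚ) := by
    push_cast
    linarith
  have hirr : Irrational w := by
    have := (Nat.Prime.irrational_sqrt (p := 5) (by norm_num))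
    simpa [hw] using this
  exact hirr ⟨_, this.symm⟩

end Pool.Agent.S11842
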