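import Pool.Statements.S11846
import Pool.Agent.H23.ZSum

set_option autoImplicit false
open scoped Classical
open Pool Pool.MP_dc28e4_co

namespace Pool.Agent.S11846

open Finset Pool.Agent.H23.ZSum

/-- star with `a` leaves together with `t` disjoint edges -/
def GG (a t : ℕ) : SimpleGraph (Fin (a + 2 * t + 1)) where
  Adj u v := (Ch a t v ∧ (u : ℕ) = par a t v) ∨ (Ch a t u ∧ (v : ℕ) = par a t u)
  symm := ⟨fun _ _ h => h.symm⟩
  loopless := ⟨fun v h => by
    simp only [Ch, par] at h
    split_ifs at h <;> omega⟩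

/-- the parent vertex -/
def pp (a t : ℕ) (v : Fin (a + 2 * t + 1)) : Fin (a + 2 * t + 1) :=
  ⟨par a t v, by have := v.2; simp only [par]; split_ifs <;> omega⟩

/-- the children -/
noncomputable def CC (a t : ℕ) : Finset (Fin (a + 2 * t + 1)) :=
  univ.filter (fun v => Ch a t v)

theorem mem_CC (a t : ℕ) (v : Fin (a + 2 * t + 1)) : v ∈ CC a t ↔ Ch a t v := by simp [CC]

theorem lt_adj (a t : ℕ) (u v : Fin (a + 2 * t + 1)) :
    (u < v ∧ (GG a t).Adj u v) ↔ (Ch a t v ∧ u = pp a t v) := by
  simp only [GG, pp, Fin.ext_iff, Fin.lt_def, Ch, par]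
  split_ifs <;> omega

theorem adj_child (a t : ℕ) (u v : Fin (a + 2 * t + 1)) (hv : Ch a t v)
    (h : (GG a t).Adj v u) : u = pp a t v := by
  simp only [GG, pp, Fin.ext_iff, Ch, par] at hv h ⊢
  split_ifs at h ⊢ <;> omega

theorem acyc (a t : ℕ) : (GG a t).IsAcyclic := by
  intro v p hp
  have key : ∀ x ∈ p.support, ¬ Ch a t x := by
    intro x hx hc
    have h1 := hp.ncard_neighborSet_toSubgraph_eq_two hx
    have h2 : p.toSubgraph.neighborSet x ⊆ {pp a t x} := by
      intro y hy
      exact adj_child a t y x hc (p.toSubgraph.adj_sub hy)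
    have h3 := Set.ncard_le_ncard h2
    rw [h1, Set.ncard_singleton] at h3
    omega
  cases p with
  | nil => exact hp.ne_nil rfl
  | cons h q =>
    rcases h with h | h
    · exact key _ (by simp) h.1
    · exact key _ (by simp) h.1

theorem card_filter_Icc (k lo hi : ℕ) (h : hi ≤ k) :
    (univ.filter (fun v : Fin k => lo ≤ (v : ℕ) ∧ (v : ℕ) < hi)).card = hi - lo := by
  rw [← Nat.card_Ico]
  refine card_bij (fun v _ => (v : ℕ)) ?_ ?_ ?_
  · intro v hv
    simpa using hv
  · intro v _ w _ e
    exact Fin.ext e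
  · intro n hn
    rw [mem_Ico] at hn
    exact ⟨⟨n, by omega⟩, by simpa using hn, rfl⟩

theorem card_CC (a t : ℕ) : (CC a t).card = a + t := by
  have h1 := card_filter_Icc (a + 2 * t + 1) 1 (a + 1) (by omega)
  have h2 := card_filter_Icc (a + 2 * t + 1) (a + t + 1) (a + 2 * t + 1) (by omega)
  have h3 : CC a t = univ.filter (fun v : Fin (a + 2 * t + 1) => 1 ≤ (v : ℕ) ∧ (v : ℕ) < a + 1) ∪
      univ.filter (fun v : Fin (a + 2 * t + 1) => a + t + 1 ≤ (v : ℕ) ∧ (v : ℕ) < a + 2 * t + 1) := by
    ext v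
    simp only [mem_CC, Ch, mem_union, mem_filter, mem_univ, true_and]
    omega
  rw [h3, card_union_of_disjoint, h1, h2]
  · omega
  · rw [disjoint_left]
    intro v h4 h5
    simp only [mem_filter, mem_univ, true_and] at h4 h5
    omega

theorem edge_card (a t : ℕ) : (GG a t).edgeSet.ncard = a + t := by
  have h1 : (GG a t).edgeSet = (fun v => s(pp a t v, v)) '' (CC a t : Set _) := by
    ext e
    induction e using Sym2.ind with
    | _ u v =>
      simp only [SimpleGraph.mem_edgeSet, Set.mem_image, mem_coe, mem_CC]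
      constructor
      · rintro (h | h)
        · exact ⟨v, h.1, by rw [show pp a t v = u from Fin.ext h.2.symm]⟩
        · exact ⟨u, h.1, by rw [show pp a t u = v from Fin.ext h.2.symm, Sym2.eq_swap]⟩
      · rintro ⟨x, hx, e⟩
        rcases Sym2.eq_iff.1 e with ⟨rfl, rfl⟩ | ⟨rfl, rfl⟩
        · exact Or.inl ⟨hx, rfl⟩
        · exact Or.inr ⟨hx, rfl⟩
  rw [h1, Set.InjOn.ncard_image, Set.ncard_coe_finset, card_CC]
  intro u hu v hv e
  simp only [mem_coe, mem_CC] at hu hv
  rcases Sym2.eq_iff.1 e with ⟨_, h⟩ | ⟨h, h'⟩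
  · exact h
  · simp only [pp, Fin.ext_iff, Ch, par] at hu hv h h' ⊢
    split_ifs at h h' <;> omega

theorem sum_eq {M : Type} [AddCommMonoid M] (a t : ℕ)
    (g : Fin (a + 2 * t + 1) → Fin (a + 2 * t + 1) → M) :
    (∑ u, ∑ v, (if u < v ∧ (GG a t).Adj u v then g u v else 0))
      = ∑ v ∈ CC a t, g (pp a t v) v := by
  rw [sum_comm, CC, sum_filter]
  refine sum_congr rfl (fun v _ => ?_)
  simp only [lt_adj]
  by_cases h : Ch a t v
  · simp [h]
  · simp [h]

/-- the integer colouring -/
def gz (σ i j : ℕ) : ℤ :=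
  if i < σ ∨ j < σ then (if (σ ≤ i ∧ i < 2 * σ) ∨ (σ ≤ j ∧ j < 2 * σ) then 0 else -1) else 1

theorem gz_symm (σ i j : ℕ) : gz σ i j = gz σ j i := by
  simp only [gz, or_comm]

theorem cover (a t : ℕ) (ha : 1 ≤ a) (P : Fin (a + 2 * t + 1) → Prop)
    (h : ∀ v : Fin (a + 2 * t + 1), Ch a t v → P (pp a t v) ∧ P v) (u : Fin (a + 2 * t + 1)) : P u := by
  by_cases h1 : Ch a t u
  · exact (h u h1).2
  have hu := u.2
  by_cases h2 : (u : ℕ) = 0
  · have := (h ⟨1, by omega⟩ (by simp only [Ch]; omega)).1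
    convert this
    simp only [pp, par, Fin.ext_iff]
    rw [if_pos ha, h2]
  · simp only [Ch] at h1
    have := (h ⟨u + t, by omega⟩ (by simp only [Ch]; omega)).1
    convert this
    simp only [pp, par, Fin.ext_iff]
    rw [if_neg (by omega)]
    omega

theorem card_inj {k : ℕ} (F : Fin k → ℕ) (hF : Function.Injective F) (A : Finset (Fin k))
    (B : Finset ℕ) (h : ∀ v ∈ A, F v ∈ B) : A.card ≤ B.card :=
  card_le_card_of_injOn F h (hF.injOn)

theorem nozero (a t σ : ℕ) (h1 : σ + t < a) (h2 : 2 * σ < a + t)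
    (F : Fin (a + 2 * t + 1) → ℕ) (hF : Function.Injective F)
    (hb : ∀ v, F v < a + 2 * t + σ) :
    ¬ (((a + t : ℕ) : ℤ) ∣ ∑ v ∈ CC a t, gz σ (F (pp a t v)) (F v)) := by
  intro hd
  have hcard := card_CC a t
  have up : ∑ v ∈ CC a t, gz σ (F (pp a t v)) (F v) < ((a + t : ℕ) : ℤ) := by
    have h3 : ∃ v ∈ CC a t, gz σ (F (pp a t v)) (F v) < 1 := by
      by_contra h
      push Not at h
      have h4 := cover a t (by omega) (fun u => σ ≤ F u) (by
        intro v hv
        have := h v ((mem_CC a t v).2 hv)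
        simp only [gz] at this
        split_ifs at this <;> omega)
      have h5 := card_inj F hF univ (Ico σ (a + 2 * t + σ))
        (fun v _ => mem_Ico.2 ⟨h4 v, hb v⟩)
      simp only [card_univ, Fintype.card_fin, Nat.card_Ico] at h5
      omega
    have h4 := sum_lt_sum (s := CC a t) (f := fun v => gz σ (F (pp a t v)) (F v))
      (g := fun _ => (1 : ℤ)) (by
        intro v _
        simp only [gz]
        split_ifs <;> omega) h3
    rw [sum_const, hcard] at h4
    simpa using h4
  have lo : -((a + t : ℕ) : ℤ) < ∑ v ∈ CC a t, gz σ (F (pp a t v)) (F v) := by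
    have h3 : ∃ v ∈ CC a t, -1 < gz σ (F (pp a t v)) (F v) := by
      by_contra h
      push Not at h
      have h4 := cover a t (by omega) (fun u => F u < σ ∨ 2 * σ ≤ F u) (by
        intro v hv
        have := h v ((mem_CC a t v).2 hv)
        simp only [gz] at this
        split_ifs at this <;> omega)
      have h5 := card_inj F hF univ (range σ ∪ Ico (2 * σ) (a + 2 * t + σ))
        (fun v _ => by
          have := h4 v
          have := hb v
          simp only [mem_union, mem_range, mem_Ico]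
          omega)
      have h6 := card_union_le (range σ) (Ico (2 * σ) (a + 2 * t + σ))
      simp only [card_univ, Fintype.card_fin, card_range, Nat.card_Ico] at h5 h6
      omega
    have h4 := sum_lt_sum (s := CC a t) (g := fun v => gz σ (F (pp a t v)) (F v))
      (f := fun _ => (-1 : ℤ)) (by
        intro v _
        simp only [gz]
        split_ifs <;> omega) h3
    rw [sum_const, hcard] at h4
    simpa using h4
  have h0 : ∑ v ∈ CC a t, gz σ (F (pp a t v)) (F v) = 0 :=
    Int.eq_zero_of_abs_lt_dvd hd (abs_lt.2 ⟨lo, up⟩)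
  by_cases hc : F 0 < σ
  · have h3 : ∑ v ∈ CC a t, gz σ (F (pp a t v)) (F v) ≤
        ∑ v ∈ CC a t, (-1 + (if σ ≤ F v ∧ F v < 2 * σ then (1 : ℤ) else 0)
          + 2 * (if a + t + 1 ≤ (v : ℕ) ∧ (v : ℕ) < a + 2 * t + 1 then (1 : ℤ) else 0)) := by
      refine sum_le_sum (fun v hv => ?_)
      rw [mem_CC] at hv
      by_cases h : (v : ℕ) ≤ a
      · have : pp a t v = 0 := by simp [pp, par, h]
        rw [this]
        simp only [gz]
        split_ifs <;> omega
      · simp only [Ch] at hv
        simp only [gz]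
        split_ifs <;> omega
    rw [sum_add_distrib, sum_add_distrib, ← mul_sum, sum_boole, sum_boole, sum_const, hcard,
      h0] at h3
    have h4 := card_inj F hF ((CC a t).filter (fun v => σ ≤ F v ∧ F v < 2 * σ)) (Ico σ (2 * σ))
      (fun v hv => mem_Ico.2 (mem_filter.1 hv).2)
    have h5 : ((CC a t).filter
        (fun v : Fin (a + 2 * t + 1) => a + t + 1 ≤ (v : ℕ) ∧ (v : ℕ) < a + 2 * t + 1)).card
        ≤ t := by
      have h6 := card_filter_Icc (a + 2 * t + 1) (a + t + 1) (a + 2 * t + 1) (by omega)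
      have h7 := card_le_card (filter_subset_filter
        (fun v : Fin (a + 2 * t + 1) => a + t + 1 ≤ (v : ℕ) ∧ (v : ℕ) < a + 2 * t + 1)
        (subset_univ (CC a t)))
      omega
    simp only [Nat.card_Ico, nsmul_eq_mul] at h3 h4
    push_cast at h3
    omega
  · have h3 : ∑ v ∈ CC a t, (1 - 2 * (if F v < σ ∨ F (pp a t v) < σ then (1 : ℤ) else 0)) ≤
        ∑ v ∈ CC a t, gz σ (F (pp a t v)) (F v) := by
      refine sum_le_sum (fun v _ => ?_)
      simp only [gz]
      split_ifs <;> omega
    rw [sum_sub_distrib, ← mul_sum, sum_boole, sum_const, hcard, h0] at h3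
    have h4 : ((CC a t).filter (fun v => F v < σ ∨ F (pp a t v) < σ)).card ≤ (range σ).card := by
      refine card_le_card_of_injOn (fun v => if F v < σ then F v else F (pp a t v)) ?_ ?_
      · intro v hv
        simp only [coe_filter, Set.mem_ofPred_eq] at hv
        simp only [coe_range, Set.mem_Iio]
        split_ifs <;> omega
      · intro u hu v hv e
        simp only [coe_filter, Set.mem_ofPred_eq, mem_CC] at hu hv
        have key : ∀ x, F (pp a t x) < σ → a < (x : ℕ) := by
          intro x hx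
          by_contra h
          have : pp a t x = 0 := by simp [pp, par, not_lt.1 h]
          rw [this] at hx
          exact hc hx
        simp only at e
        split_ifs at e with e1 e2 e2
        · exact hF e
        · have h5 := hF e
          have h6 := key v (by omega)
          have h7 := hu.1
          have h8 := hv.1
          simp only [pp, Fin.ext_iff, Ch, par] at h5 h7 h8 ⊢
          split_ifs at h5 <;> omega
        · have h5 := hF e
          have h6 := key u (by omega)
          have h7 := hu.1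
          have h8 := hv.1
          simp only [pp, Fin.ext_iff, Ch, par] at h5 h7 h8 ⊢
          split_ifs at h5 <;> omega
        · have h5 := hF e
          have h6 := key u (by omega)
          have h6' := key v (by omega)
          have h7 := hu.1
          have h8 := hv.1
          simp only [pp, Fin.ext_iff, Ch, par] at h5 h7 h8 ⊢
          split_ifs at h5 <;> omega
    simp only [card_range, nsmul_eq_mul] at h3 h4
    push_cast at h3
    omega

theorem copy_of_has {N : ℕ} (r : Fin N → Fin N → Prop) (a t : ℕ) (h : Has r a t) :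
    ∃ f : Fin (a + 2 * t + 1) → Fin N, Function.Injective f ∧
      ∀ v : Fin (a + 2 * t + 1), Ch a t v → r (f (pp a t v)) (f v) := by
  obtain ⟨f, h1, h2⟩ := Has_embed r a t h
  refine ⟨fun v => f v, ?_, fun v hv => h2 v hv⟩
  intro u v e
  have hu := u.2
  have hv := v.2
  exact Fin.ext (h1 u (by omega) v (by omega) e)


/-- The negation of the preceding statement: For every ε>0, for all large m and every forest G with m edges, the zero-sum Ramsey number R(G,Z_m) is at most (1+ε) times the 2-colour Ramsey number R(G,2); since R(G,Z_m) ≥ R(G,2) always, this is the limit-equals-1 conjecture. -/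
theorem result :
    ¬ (∀ ε : ℝ, 0 < ε → ∃ M : ℕ, ∀ m : ℕ, M ≤ m → ∀ k : ℕ, ∀ G : SimpleGraph (Fin k),
    G.IsAcyclic → G.edgeSet.ncard = m →
    ((sInf {N : ℕ | ∀ c : Sym2 (Fin N) → ZMod m, ∃ f : Fin k → Fin N,
        Function.Injective f ∧
        (∑ u : Fin k, ∑ v : Fin k,
          (if u < v ∧ G.Adj u v then c s(f u, f v) else (0 : ZMod m))) = 0} : ℕ) : ℝ) ≤
    (1 + ε) * ((sInf {N : ℕ | ∀ c : Sym2 (Fin N) → Bool, ∃ f : Fin k → Fin N,
        Function.Injective f ∧ ∃ b : Bool, ∀ u v : Fin k, G.Adj u v →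
          c s(f u, f v) = b} : ℕ) : ℝ)) := by
  intro h
  obtain ⟨M, hM⟩ := h (1 / 200) (by norm_num)
  obtain ⟨s, hs1, hsM⟩ : ∃ s : ℕ, 1 ≤ s ∧ M ≤ s := ⟨M + 1, by omega, by omega⟩
  have h1 := hM (62 * s + 20 * s) (by omega) _ (GG (62 * s) (20 * s)) (acyc _ _) (edge_card _ _)
  have : NeZero (62 * s + 20 * s) := ⟨by omega⟩
  have hA : sInf {N : ℕ | ∀ c : Sym2 (Fin N) → Bool, ∃ f : Fin (62 * s + 2 * (20 * s) + 1) → Fin N,
        Function.Injective f ∧ ∃ b : Bool, ∀ u v : Fin (62 * s + 2 * (20 * s) + 1),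
          (GG (62 * s) (20 * s)).Adj u v → c s(f u, f v) = b} ≤ 142 * s := by
    apply Nat.sInf_le
    intro c
    obtain ⟨b, hb⟩ := two_col (V := Fin (142 * s)) (fun x y => c s(x, y))
      (fun x y => by rw [Sym2.eq_swap]) s hs1 (by simp)
    obtain ⟨f, hf, hf2⟩ := copy_of_has _ _ _ hb
    refine ⟨f, hf, b, ?_⟩
    rintro u v (h | h)
    · rw [show u = pp _ _ v from Fin.ext h.2]
      exact hf2 v h.1
    · rw [show v = pp _ _ u from Fin.ext h.2, Sym2.eq_swap]
      exact hf2 u h.1
  have hB : 143 * s ≤ sInf {N : ℕ | ∀ c : Sym2 (Fin N) → ZMod (62 * s + 20 * s),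
      ∃ f : Fin (62 * s + 2 * (20 * s) + 1) → Fin N, Function.Injective f ∧
        (∑ u : Fin (62 * s + 2 * (20 * s) + 1), ∑ v : Fin (62 * s + 2 * (20 * s) + 1),
          (if u < v ∧ (GG (62 * s) (20 * s)).Adj u v then c s(f u, f v)
            else (0 : ZMod (62 * s + 20 * s)))) = 0} := by
    refine le_csInf ⟨Fintype.card (ZMod (62 * s + 20 * s)) * (62 * s + 3 * (20 * s) + 1) + 1, ?_⟩ ?_
    · intro c
      obtain ⟨χ, hχ⟩ := Has_many (fun x y => c s(x, y)) (62 * s) (20 * s) (by simp)
      obtain ⟨f, hf, hf2⟩ := copy_of_has _ _ _ hχ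
      refine ⟨f, hf, ?_⟩
      refine (sum_eq (62 * s) (20 * s) (fun u v => c s(f u, f v))).trans ?_
      rw [sum_congr rfl (fun v hv => hf2 v ((mem_CC _ _ v).1 hv)), sum_const, card_CC,
        nsmul_eq_mul, ZMod.natCast_self, zero_mul]
    · intro N hN
      by_contra hlt
      obtain ⟨f, hf, hf2⟩ := hN (Sym2.lift ⟨fun x y => ((gz (41 * s - 1) x y : ℤ) : ZMod _),
        fun x y => by simp only [gz_symm (41 * s - 1) x y]⟩)
      have h3 := (sum_eq (62 * s) (20 * s) (fun u v =>
        ((gz (41 * s - 1) (f u) (f v) : ℤ) : ZMod (62 * s + 20 * s)))).symm.trans hf2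
      rw [← Int.cast_sum, ZMod.intCast_zmod_eq_zero_iff_dvd] at h3
      refine nozero (62 * s) (20 * s) (41 * s - 1) (by omega) (by omega) (fun v => f v)
        (fun u v e => hf (Fin.ext e)) (fun v => ?_) h3
      have := (f v).2
      omega
  have hA' := (Nat.cast_le (α := ℝ)).2 hA
  have hB' := (Nat.cast_le (α := ℝ)).2 hB
  have hs' := (Nat.cast_le (α := ℝ)).2 hs1
  push_cast at hA' hB' hs'
  have h4 := hB'.trans (h1.trans (mul_le_mul_of_nonneg_left hA' (by norm_num)))
  linarith

end Pool.Agent.S11846
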