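import Pool.Statements.S11866

set_option autoImplicit false
open Classical
open Pool Pool.MP_dcf9ac_co

namespace Pool.Agent.S11866

/-- Edge list of a triangle-free graph on 12 vertices with 20 edges: four paths `x - c - y`,
where the two ends of each path together dominate the next path (cyclically). -/
def edges : List (Nat × Nat) :=
  [(0, 1), (1, 2), (2, 3), (0, 4), (2, 5), (3, 4), (4, 5), (5, 6), (3, 7), (5, 8), (6, 7), (7, 8),
   (8, 9), (6, 10), (8, 11), (9, 10), (10, 11), (11, 0), (9, 1), (11, 2)]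

def adjB (a b : Fin 12) : Bool := edges.contains (a.val, b.val) || edges.contains (b.val, a.val)

def G : SimpleGraph (Fin 12) where
  Adj a b := adjB a b = true
  symm := ⟨by
    intro a b h
    revert a b
    decide⟩
  loopless := ⟨by
    intro a
    revert a
    decide⟩

def cnt (x0 x1 x2 x3 x4 x5 x6 x7 x8 x9 x10 x11 : Bool) : Nat :=
  x0.toNat + x1.toNat + x2.toNat + x3.toNat + x4.toNat + x5.toNat + x6.toNat + x7.toNat + x8.toNat
    + x9.toNat + x10.toNat + x11.toNat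

def ecnt (x0 x1 x2 x3 x4 x5 x6 x7 x8 x9 x10 x11 : Bool) : Nat :=
  (x0 && x1).toNat + (x1 && x2).toNat + (x2 && x3).toNat + (x0 && x4).toNat + (x2 && x5).toNat
  + (x3 && x4).toNat + (x4 && x5).toNat + (x5 && x6).toNat + (x3 && x7).toNat + (x5 && x8).toNat
  + (x6 && x7).toNat + (x7 && x8).toNat + (x8 && x9).toNat + (x6 && x10).toNat + (x8 && x11).toNat
  + (x9 && x10).toNat + (x10 && x11).toNat + (x11 && x0).toNat + (x9 && x1).toNat
  + (x11 && x2).toNat

theorem key : ∀ x0 x1 x2 x3 x4 x5 x6 x7 x8 x9 x10 x11 : Bool,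
    (3 ≤ cnt x0 x1 x2 x3 x4 x5 x6 x7 x8 x9 x10 x11 →
      ecnt x0 x1 x2 x3 x4 x5 x6 x7 x8 x9 x10 x11 + 4 ≤
        2 * cnt x0 x1 x2 x3 x4 x5 x6 x7 x8 x9 x10 x11) ∧
    (cnt x0 x1 x2 x3 x4 x5 x6 x7 x8 x9 x10 x11 = 5 →
      1 ≤ ecnt x0 x1 x2 x3 x4 x5 x6 x7 x8 x9 x10 x11) := by
  decide +kernel

theorem card_eq (S : Finset (Fin 12)) :
    S.card = cnt (decide (0 ∈ S)) (decide (1 ∈ S)) (decide (2 ∈ S)) (decide (3 ∈ S))
      (decide (4 ∈ S)) (decide (5 ∈ S)) (decide (6 ∈ S)) (decide (7 ∈ S)) (decide (8 ∈ S))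
      (decide (9 ∈ S)) (decide (10 ∈ S)) (decide (11 ∈ S)) := by
  have h : S.card = ∑ i : Fin 12, (decide (i ∈ S)).toNat := by
    rw [Finset.card_eq_sum_ones, ← Finset.sum_filter_add_sum_filter_not Finset.univ (· ∈ S)]
    simp only [Finset.filter_mem_eq_inter, Finset.univ_inter]
    rw [Finset.sum_eq_zero (s := Finset.filter (fun x => x ∉ S) Finset.univ) (by
      intro x hx
      simp only [Finset.mem_filter] at hx
      simp [hx.2]), add_zero]
    apply Finset.sum_congr rfl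
    intro x hx
    simp [hx]
  rw [h]
  simp only [Fin.sum_univ_succ, Fin.sum_univ_zero, cnt]
  simp only [add_assoc, add_zero]
  rfl

theorem pairs_eq (S : Finset (Fin 12)) :
    (Finset.univ.filter (fun p : Fin 12 × Fin 12 => p.1 ∈ S ∧ p.2 ∈ S ∧ G.Adj p.1 p.2)).card
      = 2 * ecnt (decide (0 ∈ S)) (decide (1 ∈ S)) (decide (2 ∈ S)) (decide (3 ∈ S))
      (decide (4 ∈ S)) (decide (5 ∈ S)) (decide (6 ∈ S)) (decide (7 ∈ S)) (decide (8 ∈ S))
      (decide (9 ∈ S)) (decide (10 ∈ S)) (decide (11 ∈ S)) := by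
  have h : (Finset.univ.filter (fun p : Fin 12 × Fin 12 =>
      p.1 ∈ S ∧ p.2 ∈ S ∧ G.Adj p.1 p.2)).card
      = ∑ i : Fin 12, ∑ j : Fin 12, (decide (i ∈ S) && decide (j ∈ S) && adjB i j).toNat := by
    rw [Finset.card_filter, Fintype.sum_prod_type]
    apply Finset.sum_congr rfl
    intro i _
    apply Finset.sum_congr rfl
    intro j _
    by_cases h1 : i ∈ S <;> by_cases h2 : j ∈ S <;> by_cases h3 : adjB i j = true <;>
      simp [G, h1, h2, h3]
  rw [h]
  have key2 : ∀ x : Fin 12 → Bool, ∑ i : Fin 12, ∑ j : Fin 12, (x i && x j && adjB i j).toNat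
      = 2 * ecnt (x 0) (x 1) (x 2) (x 3) (x 4) (x 5) (x 6) (x 7) (x 8) (x 9) (x 10) (x 11) := by
    intro x
    simp only [Fin.sum_univ_succ, Fin.sum_univ_zero, ecnt]
    simp [adjB, edges, Bool.and_comm]
    rw [Bool.and_comm (x 0) (x 1), Bool.and_comm (x 1) (x 2)]
    ring
  exact key2 (fun i => decide (i ∈ S))

/-- The negation of the preceding statement: For r ≥ 2 and k ≥ 3, the least 2-density among graphs on k(r-1) vertices with no independent set of size r is exactly (k+1)/2: every such graph has 2-density at least this, and some such graph attains it. -/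
theorem result :
    ¬ (∀ r k : ℕ, 2 ≤ r → 3 ≤ k →
      (∀ G : SimpleGraph (Fin (k * (r - 1))), Gᶜ.CliqueFree r →
        ∃ S : Finset (Fin (k * (r - 1))), 3 ≤ S.card ∧
          ((k : ℝ) + 1) / 2 ≤
            ((((Finset.univ.filter (fun p : Fin (k * (r - 1)) × Fin (k * (r - 1)) =>
                p.1 ∈ S ∧ p.2 ∈ S ∧ G.Adj p.1 p.2)).card : ℝ) / 2 - 1) /
              ((S.card : ℝ) - 2))) ∧
      (∃ G : SimpleGraph (Fin (k * (r - 1))), Gᶜ.CliqueFree r ∧
        ∀ S : Finset (Fin (k * (r - 1))), 3 ≤ S.card →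
          ((((Finset.univ.filter (fun p : Fin (k * (r - 1)) × Fin (k * (r - 1)) =>
                p.1 ∈ S ∧ p.2 ∈ S ∧ G.Adj p.1 p.2)).card : ℝ) / 2 - 1) /
              ((S.card : ℝ) - 2)) ≤ ((k : ℝ) + 1) / 2)) := by
  intro h
  have hfree : Gᶜ.CliqueFree 5 := by
    intro S hS
    have h1 := (key _ _ _ _ _ _ _ _ _ _ _ _).2 ((card_eq S).symm.trans hS.card_eq)
    have h2 := pairs_eq S
    have h3 : 0 < (Finset.univ.filter (fun p : Fin 12 × Fin 12 =>
      p.1 ∈ S ∧ p.2 ∈ S ∧ G.Adj p.1 p.2)).card := by omega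
    obtain ⟨p, hp⟩ := Finset.card_pos.mp h3
    simp only [Finset.mem_filter, Finset.mem_univ, true_and] at hp
    have := hS.isClique hp.1 hp.2.1 hp.2.2.ne
    exact this.2 hp.2.2
  obtain ⟨S, hS, hle⟩ := (h 5 3 (by norm_num) (by norm_num)).1 G hfree
  have h1 := (key _ _ _ _ _ _ _ _ _ _ _ _).1 ((card_eq S) ▸ hS)
  have h2 := pairs_eq S
  rw [← card_eq S] at h1
  have h3 : (Finset.univ.filter (fun p : Fin 12 × Fin 12 =>
      p.1 ∈ S ∧ p.2 ∈ S ∧ G.Adj p.1 p.2)).card + 8 ≤ 4 * S.card := by omega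
  have h4 : (((Finset.univ.filter (fun p : Fin 12 × Fin 12 =>
      p.1 ∈ S ∧ p.2 ∈ S ∧ G.Adj p.1 p.2)).card : ℕ) : ℝ) + 8 ≤ 4 * (S.card : ℝ) := by
    exact_mod_cast h3
  have h5 : (3 : ℝ) ≤ (S.card : ℝ) := by exact_mod_cast hS
  rw [le_div_iff₀ (by linarith)] at hle
  have h6 : ((Finset.univ.filter (fun p : Fin (3 * (5 - 1)) × Fin (3 * (5 - 1)) =>
      p.1 ∈ S ∧ p.2 ∈ S ∧ G.Adj p.1 p.2)).card : ℝ)
      = (((Finset.univ.filter (fun p : Fin 12 × Fin 12 =>
      p.1 ∈ S ∧ p.2 ∈ S ∧ G.Adj p.1 p.2)).card : ℕ) : ℝ) := by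
    congr
  push_cast at hle
  linarith

end Pool.Agent.S11866
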