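import Pool.Statements.S11888

set_option autoImplicit false
open Pool Pool.MP_dd77b8_co

namespace Pool.Agent.S11888

/-- The negation of the preceding statement: For all large n, any way of writing the unit-norm vectors f_g of U_{4,n} in R^{C(n,4)} as a union of m sets, each of diameter below that of the whole set, needs m ≥ exp(C(n,4)^{4/5}). -/
theorem result :
    ¬ (∃ N : ℕ, ∀ n : ℕ, N ≤ n →
      ∀ X : Set (EuclideanSpace ℝ {T : Finset (Fin n) // T.card = 4}),
        X = {f | ∃ g : Finset (Fin n) → ℝ,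
              f = WithLp.toLp 2 (fun T : {T : Finset (Fin n) // T.card = 4} =>
                    ∏ S ∈ T.1.powersetCard 3, g S) ∧ ‖f‖ = 1} →
        ∀ m : ℕ, ∀ A : Fin m → Set (EuclideanSpace ℝ {T : Finset (Fin n) // T.card = 4}),
          (⋃ i, A i) = X →
          (∀ i, Metric.diam (A i) < Metric.diam X) →
          Real.exp (((n.choose 4 : ℕ) : ℝ) ^ ((4 : ℝ) / 5)) ≤ (m : ℝ)) := by
  rintro ⟨N, h⟩
  classical
  obtain ⟨n, hn⟩ : ∃ n, n = N + 7 := ⟨_, rfl⟩
  have hcard : Fintype.card {T : Finset (Fin n) // T.card = 4} = n.choose 4 := by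
    simp [Fintype.card_finset_len]
  have hd : 35 ≤ n.choose 4 := le_trans (by decide : 35 ≤ Nat.choose 7 4)
    (Nat.choose_le_choose 4 (by omega))
  obtain ⟨d, hdd⟩ : ∃ d, d = n.choose 4 := ⟨_, rfl⟩
  rw [← hdd] at hcard hd
  have hdR : (35 : ℝ) ≤ d := by exact_mod_cast hd
  set X : Set (EuclideanSpace ℝ {T : Finset (Fin n) // T.card = 4}) :=
    {f | ∃ g : Finset (Fin n) → ℝ,
      f = WithLp.toLp 2 (fun T : {T : Finset (Fin n) // T.card = 4} =>
        ∏ S ∈ T.1.powersetCard 3, g S) ∧ ‖f‖ = 1} with hX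
  have Xn : ∀ f ∈ X, ‖f‖ = 1 := fun f hf => hf.choose_spec.2
  have Xb : Bornology.IsBounded X :=
    (Metric.isBounded_closedBall (x := 0) (r := 1)).subset
      (fun f hf => by simp [Xn f hf])
  obtain ⟨T0⟩ : Nonempty {T : Finset (Fin n) // T.card = 4} :=
    Fintype.card_pos_iff.mp (by omega)
  obtain ⟨S0, hS0⟩ : (T0.1.powersetCard 3).Nonempty :=
    Finset.powersetCard_nonempty.mpr (by rw [T0.2]; norm_num)
  have mem : ∀ c : ℝ, |c| = 1 → EuclideanSpace.single T0 c ∈ X := by
    intro c hc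
    refine ⟨fun S => (if S ⊆ T0.1 then 1 else 0) * (if S = S0 then c else 1), ?_, by simp [hc]⟩
    ext T
    simp only [Finset.prod_mul_distrib, Finset.prod_ite_eq']
    by_cases e : T = T0
    · subst e
      rw [Finset.prod_eq_one (fun S hS => if_pos (Finset.mem_powersetCard.mp hS).1)]
      simp [hS0]
    · have : ¬ T.1 ⊆ T0.1 := fun hs =>
        e (Subtype.ext (Finset.eq_of_subset_of_card_le hs (by rw [T.2, T0.2])))
      obtain ⟨x, hx, hx0⟩ := Finset.not_subset.mp this
      obtain ⟨S, h1, h2, h3⟩ := Finset.exists_subsuperset_card_eq (s := {x}) (t := T.1) (n := 3)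
        (by simpa using hx) (by simp) (by rw [T.2]; norm_num)
      rw [Finset.prod_eq_zero (i := S) (Finset.mem_powersetCard.mpr ⟨h2, h3⟩)
        (if_neg fun hs => hx0 (hs (h1 (Finset.mem_singleton_self x))))]
      simp [e]
  have diamX : 2 ≤ Metric.diam X := by
    have := Metric.dist_le_diam_of_mem Xb (mem 1 (by simp)) (mem (-1) (by simp))
    rw [PiLp.dist_single_same] at this
    rw [Real.dist_eq] at this
    norm_num at this
    exact this
  let e : Fin (2 * d) ≃ Bool × {T : Finset (Fin n) // T.card = 4} :=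
    (Fintype.equivFinOfCardEq (by simp [hcard])).symm
  let A : Fin (2 * d) → Set (EuclideanSpace ℝ {T : Finset (Fin n) // T.card = 4}) :=
    fun i => {f ∈ X | 1 / (d : ℝ) ≤ (if (e i).1 then 1 else -1) * f (e i).2}
  have hd0 : (0 : ℝ) < 1 / d := by positivity
  have key := h n (by omega) X rfl (2 * d) A ?_ ?_
  · rw [← hdd] at key
    have h1 := Real.pow_div_factorial_le_exp ((d : ℝ) ^ ((4 : ℝ) / 5)) (by positivity) 5
    rw [← Real.rpow_natCast, ← Real.rpow_mul (by positivity)] at h1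
    norm_num [Nat.factorial] at h1
    push_cast at key
    have h2 : (d : ℝ) ^ 4 / 120 ≤ 2 * d := h1.trans key
    nlinarith [mul_le_mul hdR hdR (by norm_num) (by positivity), pow_pos (show (0 : ℝ) < d by linarith) 2]
  · apply Set.Subset.antisymm (Set.iUnion_subset fun i f hf => hf.1)
    intro f hf
    have : ∃ T, 1 / (d : ℝ) ≤ |f T| := by
      by_contra hc
      push Not at hc
      have h1 := EuclideanSpace.real_norm_sq_eq f
      rw [Xn f hf] at h1
      have h2 : ∑ T, f T ^ 2 ≤ ∑ _T : {T : Finset (Fin n) // T.card = 4}, (1 / (d : ℝ)) ^ 2 := by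
        refine Finset.sum_le_sum fun T _ => ?_
        rw [← sq_abs]
        exact pow_le_pow_left₀ (abs_nonneg _) (hc T).le 2
      rw [Finset.sum_const, Finset.card_univ, hcard, nsmul_eq_mul, ← h1] at h2
      have h3 : (d : ℝ) * (1 / d) ^ 2 = 1 / d := by field_simp
      rw [h3, le_div_iff₀ (by linarith)] at h2
      linarith
    obtain ⟨T, hT⟩ := this
    rcases le_abs.mp hT with h1 | h1
    · exact Set.mem_iUnion.mpr ⟨e.symm (true, T), hf, by simpa using h1⟩
    · exact Set.mem_iUnion.mpr ⟨e.symm (false, T), hf, by simpa using h1⟩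
  · intro i
    refine lt_of_lt_of_le ?_ diamX
    have h1 : 1 / (d : ℝ) ≤ 1 := by rw [div_le_one (by linarith)]; linarith
    refine lt_of_le_of_lt (Metric.diam_le_of_forall_dist_le (C := 2 - (1 / d) ^ 2)
      (by nlinarith) ?_) (by nlinarith)
    rintro f ⟨hf, hf2⟩ g ⟨hg, hg2⟩
    have p1 := parallelogram_law_with_norm ℝ f g
    rw [Xn f hf, Xn g hg] at p1
    have p2 : |(f + g) (e i).2| ≤ ‖f + g‖ := PiLp.norm_apply_le (f + g) (e i).2
    have p3 : 2 * (1 / (d : ℝ)) ≤ |(f + g) (e i).2| := by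
      rw [PiLp.add_apply, le_abs]
      split_ifs at hf2 hg2
      · left; linarith
      · right; linarith
    rw [dist_eq_norm]
    have p4 : 2 * (1 / (d : ℝ)) ≤ ‖f + g‖ := p3.trans p2
    refine abs_le_of_sq_le_sq' ?_ ?_ |>.2 <;> nlinarith [norm_nonneg (f - g), sq_nonneg ((1 / (d : ℝ)) ^ 2)]

end Pool.Agent.S11888
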