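import Pool.Statements.S11898
-- import your own Pool.Agent.* helpers here

set_option autoImplicit false
open Pool Pool.MP_ddc6c3_co

namespace Pool.Agent.S11898

abbrev E := EuclideanSpace ℝ (Fin 4)

def ell (β : Fin 6) (x : E) : ℝ :=
  ![x 0, x 1, 1 - x 0 - x 1, x 2, x 3, 1 - x 2 - x 3] β

theorem ell_cont (β : Fin 6) : Continuous (ell β) := by
  unfold ell
  fin_cases β <;> simp <;> fun_prop

theorem ell_aff (β : Fin 6) (x y : E) (a b : ℝ) (h : a + b = 1) :
    ell β (a • x + b • y) = a * ell β x + b * ell β y := by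
  have hb : b = 1 - a := by linarith
  subst hb
  fin_cases β <;> simp [ell] <;> ring

def K (α : Fin 6) : Set E := {x | ∀ β, β ≠ α → 0 ≤ ell β x}

noncomputable def p (α : Fin 6) : E :=
  ![!₂[-3, 2, 1/3, 1/3], !₂[2, -3, 1/3, 1/3], !₂[2, 2, 1/3, 1/3],
    !₂[1/3, 1/3, -3, 2], !₂[1/3, 1/3, 2, -3], !₂[1/3, 1/3, 2, 2]] α

theorem ell_p_self (α : Fin 6) : ell α (p α) = -3 := by
  fin_cases α <;> simp [ell, p] <;> norm_num

theorem ell_p_ne (α β : Fin 6) (h : β ≠ α) : 0 ≤ ell β (p α) ∧ ell β (p α) ≤ 2 := by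
  fin_cases α <;> fin_cases β <;> simp [ell, p] at h ⊢ <;> norm_num

theorem K_closed (α : Fin 6) : IsClosed (K α) := by
  have : K α = ⋂ β, ⋂ (_ : β ≠ α), {x | 0 ≤ ell β x} := by
    ext x; simp [K]
  rw [this]
  exact isClosed_iInter fun β => isClosed_iInter fun _ =>
    isClosed_le continuous_const (ell_cont β)

theorem K_convex (α : Fin 6) : Convex ℝ (K α) := by
  intro x hx y hy a b ha hb hab β hβ
  rw [ell_aff β x y a b hab]
  have := hx β hβ
  have := hy β hβ
  positivity

theorem mem_two {a b : Fin 6} (h : a ≠ b) (x : E) (ha : x ∈ K a) (hb : x ∈ K b) (β : Fin 6) :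
    0 ≤ ell β x := by
  by_cases hβ : β = a
  · exact hb β (hβ ▸ h)
  · exact ha β hβ

theorem mem_all (x : E) : x ∈ ⋂ β, K β ↔ ∀ β, 0 ≤ ell β x := by
  rw [Set.mem_iInter]
  exact ⟨fun h => mem_two (a := 0) (b := 1) (by decide) x (h 0) (h 1), fun h _ β _ => h β⟩

theorem p_mem (α : Fin 6) : p α ∈ K α := fun β h => (ell_p_ne α β h).1

theorem p_not (α : Fin 6) : p α ∉ ⋂ β, K β := by
  rw [mem_all]
  intro h
  have := h α
  rw [ell_p_self] at this
  linarith

theorem K_compact : IsCompact (⋂ β, K β) := by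
  apply Metric.isCompact_of_isClosed_isBounded (isClosed_iInter K_closed)
  apply (Metric.isBounded_closedBall (x := (0 : E)) (r := 2)).subset
  intro x hx
  rw [mem_all] at hx
  have h0 := hx 0
  have h1 := hx 1
  have h2 := hx 2
  have h3 := hx 3
  have h4 := hx 4
  have h5 := hx 5
  simp [ell] at h0 h1 h2 h3 h4 h5
  rw [mem_closedBall_zero_iff, EuclideanSpace.norm_eq, Fin.sum_univ_four]
  apply Real.sqrt_le_iff.2
  simp only [Real.norm_eq_abs, sq_abs]
  constructor
  · norm_num
  · nlinarith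

theorem K_int : (interior (⋂ β, K β)).Nonempty := by
  have ho : IsOpen (⋂ β, {x : E | 0 < ell β x}) :=
    isOpen_iInter_of_finite fun β => isOpen_lt continuous_const (ell_cont β)
  refine ⟨!₂[1/3, 1/3, 1/3, 1/3], interior_maximal (fun x hx => ?_) ho ?_⟩
  · rw [mem_all]
    intro β
    exact le_of_lt (Set.mem_iInter.1 hx β)
  · rw [Set.mem_iInter]
    intro β
    fin_cases β <;> simp [ell] <;> norm_num


/-- The negation of the preceding statement: Consider closed convex sets in R^d whose common intersection is a convex body strictly inside each one, and let n ≥ 2 be least such that any n of them intersect in that body. Then their union is a union of at most (d+1)(n-1) closed convex sets. -/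
theorem result :
    ¬ (∀ (d n : ℕ) (I : Type) (K : I → Set (EuclideanSpace ℝ (Fin d))),
      (∀ α, IsClosed (K α) ∧ Convex ℝ (K α)) →
      IsCompact (⋂ β, K β) →
      Convex ℝ (⋂ β, K β) →
      (interior (⋂ β, K β)).Nonempty →
      (∀ α, (⋂ β, K β) ⊂ K α) →
      2 ≤ n →
      (∀ S : Finset I, S.card = n → (⋂ α ∈ S, K α) = ⋂ β, K β) →
      (∀ m : ℕ, (∀ S : Finset I, S.card = m → (⋂ α ∈ S, K α) = ⋂ β, K β) → n ≤ m) →
      ∃ C : Fin ((d + 1) * (n - 1)) → Set (EuclideanSpace ℝ (Fin d)),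
        (∀ i, IsClosed (C i) ∧ Convex ℝ (C i)) ∧ (⋃ i, C i) = ⋃ α, K α) := by
  intro h
  obtain ⟨C, hC, hU⟩ := h 4 2 (Fin 6) K (fun α => ⟨K_closed α, K_convex α⟩) K_compact
    (convex_iInter K_convex) K_int
    (fun α => ⟨Set.iInter_subset K α, fun hh => p_not α (hh (p_mem α))⟩) le_rfl
    (by
      intro S hS
      obtain ⟨a, b, hab, rfl⟩ := Finset.card_eq_two.1 hS
      ext x
      rw [mem_all]
      simp only [Finset.mem_insert, Finset.mem_singleton, Set.mem_iInter]
      exact ⟨fun hx => mem_two hab x (hx a (Or.inl rfl)) (hx b (Or.inr rfl)),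
        fun hx α _ β _ => hx β⟩)
    (by
      intro m hm
      by_contra hlt
      have : m = 0 ∨ m = 1 := by omega
      rcases this with rfl | rfl
      · have := hm ∅ rfl
        apply p_not 0
        rw [← this]
        simp
      · have := hm {0} rfl
        apply p_not 0
        rw [← this]
        simpa using p_mem 0)
  have hp : ∀ α, ∃ i, p α ∈ C i := by
    intro α
    have : p α ∈ ⋃ i, C i := by
      rw [hU]; exact Set.mem_iUnion.2 ⟨α, p_mem α⟩
    exact Set.mem_iUnion.1 this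
  choose f hf using hp
  obtain ⟨a, b, hab, hfab⟩ := Fintype.exists_ne_map_eq_of_card_lt f (by simp)
  have hm : (1 / 2 : ℝ) • p a + (1 / 2 : ℝ) • p b ∈ C (f a) :=
    (hC (f a)).2 (hf a) (hfab ▸ hf b) (by norm_num) (by norm_num) (by norm_num)
  have hm2 : (1 / 2 : ℝ) • p a + (1 / 2 : ℝ) • p b ∈ ⋃ α, K α := by
    rw [← hU]; exact Set.mem_iUnion.2 ⟨_, hm⟩
  obtain ⟨γ, hγ⟩ := Set.mem_iUnion.1 hm2
  by_cases hγa : a = γ
  · have h1 := hγ b (hγa ▸ hab.symm)
    rw [ell_aff _ _ _ _ _ (by norm_num), ell_p_self] at h1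
    have := (ell_p_ne a b hab.symm).2
    linarith
  · have h1 := hγ a hγa
    rw [ell_aff _ _ _ _ _ (by norm_num), ell_p_self] at h1
    have := (ell_p_ne b a hab).2
    linarith

end Pool.Agent.S11898
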