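import Pool.Statements.S11932
import Pool.Agent.H23.Kerd

set_option autoImplicit false
open Pool Pool.MP_dec67b_co

namespace Pool.Agent.S11932

open Finset in
lemma small {I J : Type} [Fintype J] (w : I → J → ℤ) (N β : ℤ) (T : Finset I)
    (h1 : ∀ p, ∑ k, w p k * w p k = N + β) (h2 : ∀ p ∈ T, ∀ p' ∈ T, p ≠ p' → ∑ k, w p k * w p' k = -β)
    (hT : 0 < T.card) : (T.card : ℤ) * β ≤ N + 2 * β := by
  classical
  have a : 0 ≤ ∑ k, (∑ p ∈ T, w p k) * ∑ p ∈ T, w p k := sum_nonneg fun k _ => mul_self_nonneg _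
  have b : ∑ k, (∑ p ∈ T, w p k) * ∑ p ∈ T, w p k = ∑ p ∈ T, ∑ p' ∈ T, ∑ k, w p k * w p' k := by
    simp only [sum_mul_sum]
    rw [sum_comm]
    exact sum_congr rfl fun p _ => sum_comm
  have c : ∀ p ∈ T, ∑ p' ∈ T, ∑ k, w p k * w p' k = N + 2 * β - T.card * β := by
    intro p hp
    have : ∀ p' ∈ T, ∑ k, w p k * w p' k = (if p = p' then N + 2 * β else 0) - β := by
      intro p' hp'
      split_ifs with e
      · rw [← e, h1]; ring
      · rw [h2 p hp p' hp' e]; ring
    rw [sum_congr rfl this, sum_sub_distrib, sum_ite_eq, if_pos hp, sum_const, nsmul_eq_mul]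
  rw [b, sum_congr rfl c, sum_const, nsmul_eq_mul] at a
  have d : (0 : ℤ) < T.card := by exact_mod_cast hT
  have := (mul_nonneg_iff_of_pos_left d).1 a
  linarith

/-- The negation of the preceding statement: There is c>0 such that for every d≥1, every finite set of points in Euclidean d-space with pairwise distances at least 1 contains a subset of size at least c·(number of points)/d whose pairwise distances all exceed 1. -/
theorem result :
    ¬ (∃ c : ℝ, 0 < c ∧ ∀ d : ℕ, 1 ≤ d →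
      ∀ S : Finset (EuclideanSpace ℝ (Fin d)),
        (∀ x ∈ S, ∀ y ∈ S, x ≠ y → 1 ≤ dist x y) →
        ∃ T ⊆ S, c * (S.card : ℝ) / (d : ℝ) ≤ (T.card : ℝ) ∧
          ∀ x ∈ T, ∀ y ∈ T, x ≠ y → 1 < dist x y) := by
  classical
  rintro ⟨c, hc, h⟩
  obtain ⟨r, hr⟩ := pow_unbounded_of_one_lt (6 / c) (by norm_num : (1 : ℝ) < 4)
  obtain ⟨I, J, _, _, w, hI, hJ, h1, h2⟩ := Pool.Agent.H23.Kerd.kerd r
  let e := Fintype.equivFin J
  let v : I → EuclideanSpace ℝ (Fin (Fintype.card J)) := fun p =>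
    WithLp.toLp 2 fun i => (w p (e.symm i) : ℝ) / 2 ^ (2 * r + 1)
  have hB : (0 : ℝ) < 2 ^ (2 * r) := by positivity
  have hd : ∀ p p', dist (v p) (v p') ^ 2 * (4 * 2 ^ (2 * r) * 2 ^ (2 * r)) =
      4 * 2 ^ (2 * r) * 2 ^ (2 * r) + 2 * 2 ^ (2 * r) - 2 * ((∑ k, w p k * w p' k : ℤ) : ℝ) := by
    intro p p'
    rw [EuclideanSpace.dist_sq_eq]
    simp only [v, Real.dist_eq, sq_abs]
    rw [Equiv.sum_comp e.symm fun k => ((w p k : ℝ) / 2 ^ (2 * r + 1) - (w p' k : ℝ) / 2 ^ (2 * r + 1)) ^ 2,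
      Finset.sum_mul]
    have a : ∀ k, ((w p k : ℝ) / 2 ^ (2 * r + 1) - (w p' k : ℝ) / 2 ^ (2 * r + 1)) ^ 2 *
        (4 * 2 ^ (2 * r) * 2 ^ (2 * r)) =
        (w p k : ℝ) * w p k + (w p' k : ℝ) * w p' k - 2 * ((w p k : ℝ) * w p' k) := by
      intro k
      field_simp
      ring
    have b := congrArg (fun z : ℤ => (z : ℝ)) (h1 p)
    have b' := congrArg (fun z : ℤ => (z : ℝ)) (h1 p')
    push_cast at b b' ⊢
    simp only [a, Finset.sum_sub_distrib, Finset.sum_add_distrib, ← Finset.mul_sum, b, b']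
    ring
  have hge : ∀ p p', p ≠ p' → 1 ≤ dist (v p) (v p') := by
    intro p p' hp
    have a := hd p p'
    refine (one_le_sq_iff₀ dist_nonneg).1 (le_of_mul_le_mul_right ?_
      (show (0 : ℝ) < 4 * 2 ^ (2 * r) * 2 ^ (2 * r) by positivity))
    rcases h2 p p' hp with e | e <;> rw [e] at a <;> push_cast at a <;> linarith
  have hinj : Function.Injective v := by
    intro p p' hp
    by_contra hn
    have := hge p p' hn
    rw [hp, dist_self] at this
    linarith
  obtain ⟨T, hT, hcard, hsep⟩ := h (Fintype.card J) (by rw [hJ]; exact Nat.succ_le_of_lt (by positivity))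
    (Finset.univ.image v) (by
      intro x hx y hy hxy
      obtain ⟨p, -, rfl⟩ := Finset.mem_image.1 hx
      obtain ⟨p', -, rfl⟩ := Finset.mem_image.1 hy
      exact hge p p' fun e => hxy (by rw [e]))
  obtain ⟨T', -, rfl⟩ := Finset.subset_image_iff.1 hT
  rw [Finset.card_image_of_injective _ hinj, Finset.card_image_of_injective _ hinj,
    Finset.card_univ, hI, hJ] at hcard
  have hN : (2 : ℝ) ^ (4 * r + 1) = 2 * 2 ^ (2 * r) * 2 ^ (2 * r) := by ring
  have h4 : (4 : ℝ) ^ r = 2 ^ (2 * r) := by rw [pow_mul]; norm_num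
  push_cast at hcard
  rw [hN, div_le_iff₀ (by positivity)] at hcard
  rw [h4, div_lt_iff₀ hc] at hr
  have hB1 : (1 : ℝ) ≤ 2 ^ (2 * r) := one_le_pow₀ (by norm_num)
  have key : (T'.card : ℝ) * 2 ^ (2 * r) ≤ 2 * 2 ^ (2 * r) * 2 ^ (2 * r) + 2 * 2 ^ (2 * r) := by
    rcases Nat.eq_zero_or_pos T'.card with e | e
    · rw [e, Nat.cast_zero, zero_mul]; positivity
    have := small w _ _ T' h1 (fun p hp p' hp' hne => (h2 p p' hne).resolve_left fun e => by
      have a := hd p p'
      have b := hsep _ (Finset.mem_image_of_mem v hp) _ (Finset.mem_image_of_mem v hp')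
        fun e => hne (hinj e)
      rw [e] at a
      push_cast at a
      have c : 1 < dist (v p) (v p') ^ 2 := one_lt_pow₀ b (by norm_num)
      have d := mul_lt_mul_of_pos_right c
        (show (0 : ℝ) < 4 * 2 ^ (2 * r) * 2 ^ (2 * r) by positivity)
      linarith) e
    rw [← hN]
    exact_mod_cast this
  generalize (2 : ℝ) ^ (2 * r) = B at *
  have k2 : (T'.card : ℝ) ≤ 4 * B := by nlinarith
  have k3 : c * (2 * B * B) ≤ T'.card * 3 := by
    refine le_of_mul_le_mul_right ?_ (show 0 < 2 * B * B by positivity)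
    linarith
  nlinarith

end Pool.Agent.S11932
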