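import Pool.Statements.S11942
import Pool.Agent.H20.Mni3

set_option autoImplicit false
open Pool Pool.MP_df4dc5_co

namespace Pool.Agent.S11942

/-- The negation of the preceding statement: There is a clutter that is minimally non-ideal (non-ideal, every proper deletion/contraction minor ideal) whose minimum-size members form the lines of a non-degenerate projective plane on all its elements, with lines of size at least 4 (order above two). -/
theorem result :
    ¬ (∃ (n : ℕ) (C : Finset (Finset (Fin n))),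
      IsAntichain (· ⊆ ·) (C : Set (Finset (Fin n))) ∧
      (∃ x ∈ Set.extremePoints ℝ
          {x : Fin n → ℝ | (∀ i, 0 ≤ x i) ∧ ∀ S ∈ C, (1 : ℝ) ≤ ∑ i ∈ S, x i},
        ∃ i : Fin n, ∀ z : ℤ, x i ≠ (z : ℝ)) ∧
      (∀ I J : Finset (Fin n), Disjoint I J → (I ∪ J).Nonempty →
        ∀ x ∈ Set.extremePoints ℝ
            {x : Fin n → ℝ | (∀ i, 0 ≤ x i) ∧ (∀ i ∈ I ∪ J, x i = 0) ∧
              ∀ S ∈ C, Disjoint S I → (1 : ℝ) ≤ ∑ i ∈ S, x i},
          ∀ i : Fin n, ∃ z : ℤ, x i = (z : ℝ)) ∧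
      ∃ r : ℕ, 4 ≤ r ∧ (∀ S ∈ C, r ≤ S.card) ∧
        (∀ p q : Fin n, p ≠ q →
          ∃! ℓ : Finset (Fin n), ℓ ∈ C ∧ ℓ.card = r ∧ p ∈ ℓ ∧ q ∈ ℓ) ∧
        (∀ ℓ ∈ C, ∀ m ∈ C, ℓ.card = r → m.card = r → ℓ ≠ m →
          ∃! p : Fin n, p ∈ ℓ ∧ p ∈ m) ∧
        (∃ F : Finset (Fin n), F.card = 4 ∧
          ∀ ℓ ∈ C, ℓ.card = r → (F ∩ ℓ).card ≤ 2)) := by
  classical
  rintro ⟨n, C, -, -, hint, r, hr, hbig, hex, hmeet, F, hF, hF2⟩
  have hln : ∀ p q : Fin n, ∃ L : Finset (Fin n), p ≠ q → (L ∈ C ∧ L.card = r ∧ p ∈ L ∧ q ∈ L) := by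
    intro p q
    by_cases hpq : p ≠ q
    · obtain ⟨L, hL, -⟩ := hex p q hpq
      exact ⟨L, fun _ => hL⟩
    · exact ⟨∅, fun e => absurd e hpq⟩
  choose ln hln using hln
  have h : Pool.Agent.H20.Mni.Pl C r ln :=
    { four := hr
      big := hbig
      lnL := fun p q e => ⟨(hln p q e).1, (hln p q e).2.1⟩
      ln1 := fun p q e => (hln p q e).2.2.1
      ln2 := fun p q e => (hln p q e).2.2.2
      uniq := fun {l m p q} hl hm e h1 h2 h3 h4 =>
        (hex p q e).unique ⟨hl.1, hl.2, h1, h2⟩ ⟨hm.1, hm.2, h3, h4⟩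
      meet := fun l m hl hm => by
        by_cases e : l = m
        · obtain ⟨p, hp⟩ := Finset.card_pos.1 (show 0 < l.card by have := hl.2; omega)
          exact ⟨p, hp, e ▸ hp⟩
        · exact (hmeet l hl.1 m hm.1 hl.2 hm.2 e).exists
      off := fun l hl => by
        by_contra hcon
        push Not at hcon
        have h1 := hF2 l hl.1 hl.2
        rw [Finset.inter_eq_left.2 fun i _ => hcon i] at h1
        omega
      int := hint }
  obtain ⟨p, -, q, -, hpq⟩ := Finset.one_lt_card.1 (show 1 < F.card by omega)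
  exact h.false (h.lnL p q hpq)

end Pool.Agent.S11942
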