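import Pool.Statements.S11952
import Pool.Agent.H23.KleinT

set_option autoImplicit false
open Pool Pool.MP_dfb409_co

namespace Pool.Agent.S11952

open Pool.Agent.H23.Klein

/-- the Klein bottle grid -/
def G : SimpleGraph (Fin 42) := SimpleGraph.fromRel fun u v => arc u v = true

lemma adj_iff (u v : Fin 42) : G.Adj u v ↔ u ≠ v ∧ (arc u v = true ∨ arc v u = true) :=
  SimpleGraph.fromRel_adj (fun u v : Fin 42 => arc u v = true) u v

instance : DecidableRel G.Adj := fun u v => decidable_of_iff _ (adj_iff u v).symm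

/-- height step -/
def d (a b : Fin 3) : ℤ := if b = a + 1 then 1 else -1

lemma face : ∀ a b c e : Fin 3, a ≠ b → b ≠ c → a ≠ e → e ≠ c → d a b + d b c = d a e + d e c := by
  decide

lemma dneg : ∀ a b : Fin 3, a ≠ b → d a b = -d b a := by decide

lemma dval (a b : Fin 3) : d a b = 1 ∨ d a b = -1 := by unfold d; split_ifs <;> simp

/-- winding of a row -/
def W (r : Fin 7 → Fin 3) : ℤ := ∑ i, d (r i) (r (i + 1))

lemma row (r s : Fin 7 → Fin 3) (hr : ∀ i, r i ≠ r (i + 1)) (hs : ∀ i, s i ≠ s (i + 1))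
    (h : ∀ i, r i ≠ s i) : W r = W s := by
  have h1 := Finset.sum_congr rfl fun i (_ : i ∈ Finset.univ) =>
    face (r i) (r (i + 1)) (s (i + 1)) (s i) (hr i) (h _) (h i) (hs i)
  have h2 : ∑ i, d (r (i + 1)) (s (i + 1)) = ∑ i, d (r i) (s i) :=
    Equiv.sum_comp (Equiv.addRight (1 : Fin 7)) fun i => d (r i) (s i)
  rw [Finset.sum_add_distrib, Finset.sum_add_distrib, h2] at h1
  unfold W
  omega

lemma refl (s : Fin 7 → Fin 3) (hs : ∀ i, s i ≠ s (i + 1)) : W (fun i => s (-i)) ≠ W s := by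
  have h0 : d (s 0) (s 1) = -d (s 1) (s 0) := dneg _ _ (hs 0)
  have h1 : d (s 1) (s 2) = -d (s 2) (s 1) := dneg _ _ (hs 1)
  have h2 : d (s 2) (s 3) = -d (s 3) (s 2) := dneg _ _ (hs 2)
  have h3 : d (s 3) (s 4) = -d (s 4) (s 3) := dneg _ _ (hs 3)
  have h4 : d (s 4) (s 5) = -d (s 5) (s 4) := dneg _ _ (hs 4)
  have h5 : d (s 5) (s 6) = -d (s 6) (s 5) := dneg _ _ (hs 5)
  have h6 : d (s 6) (s 0) = -d (s 0) (s 6) := dneg _ _ (hs 6)
  have g0 := dval (s 0) (s 1); have g1 := dval (s 1) (s 2); have g2 := dval (s 2) (s 3)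
  have g3 := dval (s 3) (s 4); have g4 := dval (s 4) (s 5); have g5 := dval (s 5) (s 6)
  have g6 := dval (s 6) (s 0)
  simp only [W, Fin.sum_univ_seven]
  show d (s 0) (s 6) + d (s 6) (s 5) + d (s 5) (s 4) + d (s 4) (s 3) + d (s 3) (s 2) +
    d (s 2) (s 1) + d (s 1) (s 0) ≠ d (s 0) (s 1) + d (s 1) (s 2) + d (s 2) (s 3) +
    d (s 3) (s 4) + d (s 4) (s 5) + d (s 5) (s 6) + d (s 6) (s 0)
  omega

/-- the vertex in row `j` and column `i` -/
def vx (j : Fin 6) (i : Fin 7) : Fin 42 := ⟨7 * j + i, by omega⟩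

lemma nocol (c : Fin 42 → Fin 3) (hc : ∀ u v, G.Adj u v → c u ≠ c v) : False := by
  have a1 : ∀ j i, G.Adj (vx j i) (vx j (i + 1)) := by decide +kernel
  have a2 : ∀ j i, j ≠ 5 → G.Adj (vx j i) (vx (j + 1) i) := by decide +kernel
  have a3 : ∀ i, G.Adj (vx 5 i) (vx 0 (-i)) := by decide +kernel
  have a4 : ∀ i, G.Adj (vx 0 (-i)) (vx 0 (-(i + 1))) := by decide +kernel
  have b := fun j (hj : j ≠ 5) => row (fun i => c (vx j i)) (fun i => c (vx (j + 1) i))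
    (fun i => hc _ _ (a1 _ i)) (fun i => hc _ _ (a1 _ i)) (fun i => hc _ _ (a2 j i hj))
  have b5 := row (fun i => c (vx 5 i)) (fun i => c (vx 0 (-i)))
    (fun i => hc _ _ (a1 _ i)) (fun i => hc _ _ (a4 i)) (fun i => hc _ _ (a3 i))
  refine refl (fun i => c (vx 0 i)) (fun i => hc _ _ (a1 _ i)) ?_
  rw [← b5]
  exact ((b 0 (by decide)).trans ((b 1 (by decide)).trans ((b 2 (by decide)).trans
    ((b 3 (by decide)).trans (b 4 (by decide)))))).symm

lemma edge {u v : Fin 42} (h : arc u v = true) : ∃ z ∈ T, z.1 = u ∧ z.2.1 = v := by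
  have := List.all_eq_true.mp (List.all_eq_true.mp c1 u (List.mem_range.mpr u.2)) v
    (List.mem_range.mpr v.2)
  simpa [h] using this

lemma miss (H : G.Subgraph) (hH : H.coe.Colorable 3) :
    ∃ u v : Fin 42, arc u v = true ∧ ¬ H.Adj u v := by
  by_contra hn
  push Not at hn
  have h1 : ∀ u v, G.Adj u v → H.Adj u v := fun u v h => by
    rcases ((adj_iff u v).mp h).2 with h | h
    exacts [hn u v h, (hn v u h).symm]
  have h2 : ∀ u : Fin 42, ∃ v, G.Adj u v := by decide +kernel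
  have h3 : ∀ u, u ∈ H.verts := fun u => by
    obtain ⟨v, hv⟩ := h2 u
    exact H.edge_vert (h1 u v hv)
  obtain ⟨c⟩ := hH
  exact nocol (fun u => c ⟨u, h3 u⟩) fun u v h => c.valid (h1 u v h)

lemma colr (H : G.Subgraph) {u v : Fin 42} (hn : ¬ H.Adj u v) {z : ℕ × ℕ × List ℕ} (hz : z ∈ T)
    (hu : z.1 = u) (hv : z.2.1 = v) {t : ℕ} (ht : t ∈ z.2.2) :
    col t u = col t v ∧ ∃ c : H.coe.Coloring (Fin 3), ∀ w, (c w : ℕ) = col t w.1 := by
  have h := List.all_eq_true.mp (List.all_eq_true.mp c2 z hz) t ht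
  simp only [Bool.and_eq_true, beq_iff_eq, List.all_eq_true, List.mem_range, decide_eq_true_eq,
    Bool.or_eq_true, bne_iff_ne, hu, hv] at h
  obtain ⟨⟨h1, h2⟩, h3⟩ := h
  have h4 : ∀ a b : Fin 42, arc a b = true → H.Adj a b → col t a ≠ col t b := by
    intro a b hab hH
    obtain ⟨z', hz', e1, e2⟩ := edge hab
    rcases h3 z' hz' with h | h
    · rw [e1, e2] at h
      rw [Fin.ext h.1, Fin.ext h.2] at hH
      exact absurd hH hn
    · rwa [e1, e2] at h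
  refine ⟨h1, SimpleGraph.Coloring.mk (fun w => ⟨col t w.1, h2 _ w.1.2⟩) ?_, fun w => rfl⟩
  intro a b hab e
  have e' : col t a.1 = col t b.1 := congrArg Fin.val e
  rcases ((adj_iff a.1 b.1).mp (H.adj_sub hab)).2 with h | h
  exacts [h4 _ _ h hab e', h4 _ _ h (H.adj_symm hab) e'.symm]

lemma key (x y : Fin 42) (hxy : x < y) (G₁ G₂ : G.Subgraph) (hx₁ : x ∈ G₁.verts)
    (hy₁ : y ∈ G₁.verts) (hx₂ : x ∈ G₂.verts) (hy₂ : y ∈ G₂.verts) (n1 : ¬ G₁.Adj x y)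
    (k1 : G₁.coe.Colorable 3) (k2 : G₂.coe.Colorable 3)
    (f1 : ∀ c : G₁.coe.Coloring (Fin 3), c ⟨x, hx₁⟩ ≠ c ⟨y, hy₁⟩)
    (f2 : ∀ c : G₂.coe.Coloring (Fin 3), c ⟨x, hx₂⟩ = c ⟨y, hy₂⟩) : False := by
  have adjc : ∀ u v : Fin 42, arc u v = true → ¬ G₁.Adj u v →
      ∃ c : G₁.coe.Coloring (Fin 3), ∃ t, col t u = col t v ∧ ∀ w, (c w : ℕ) = col t w.1 := by
    intro u v h hn
    obtain ⟨z, hz, e1, e2⟩ := edge h
    have := List.all_eq_true.mp c4 z hz
    obtain ⟨t, ht⟩ := List.exists_mem_of_ne_nil z.2.2 (by simpa using this)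
    obtain ⟨h1, c, hc⟩ := colr G₁ hn hz e1 e2 ht
    exact ⟨c, t, h1, hc⟩
  by_cases a1 : arc x y = true
  · obtain ⟨c, t, h, hc⟩ := adjc x y a1 n1
    exact f1 c (Fin.ext (by rw [hc, hc, h]))
  by_cases a2 : arc y x = true
  · obtain ⟨c, t, h, hc⟩ := adjc y x a2 fun h => n1 h.symm
    exact f1 c (Fin.ext (by rw [hc, hc, h]))
  have h : ∀ H : G.Subgraph, H.coe.Colorable 3 → ∃ c : H.coe.Coloring (Fin 3), ∃ t,
      (col t x == col t y) = EQ.testBit (42 * x + y) ∧ ∀ w, (c w : ℕ) = col t w.1 := by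
    intro H hH
    obtain ⟨u, v, huv, hn⟩ := miss H hH
    obtain ⟨z, hz, e1, e2⟩ := edge huv
    have := List.all_eq_true.mp (List.all_eq_true.mp (List.all_eq_true.mp c3 z hz) y
      (List.mem_range.mpr y.2)) x (List.mem_range.mpr hxy)
    simp only [a1, a2, Bool.false_or, List.any_eq_true, beq_iff_eq] at this
    obtain ⟨t, ht, e⟩ := this
    obtain ⟨-, c, hc⟩ := colr H hn hz e1 e2 ht
    exact ⟨c, t, e, hc⟩
  obtain ⟨c, t, e, hc⟩ := h G₁ k1
  obtain ⟨c', t', e', hc'⟩ := h G₂ k2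
  have g2 : col t' x = col t' y := by
    have := congrArg Fin.val (f2 c')
    rwa [hc', hc'] at this
  rw [← e', beq_iff_eq.mpr g2, beq_iff_eq] at e
  exact f1 c (Fin.ext (by rw [hc, hc, e]))


/-- The negation of the preceding statement: Every finite K4-free graph that is not 3-colorable has distinct vertices x,y and two 3-colorable subgraphs containing x,y but not edge xy, one where every 3-coloring separates x,y and one where every 3-coloring equates them. -/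
theorem result :
    ¬ (∀ (V : Type) [Fintype V] (G : SimpleGraph V),
      G.CliqueFree 4 → ¬ G.Colorable 3 →
      ∃ x y : V, x ≠ y ∧
        ∃ G₁ G₂ : G.Subgraph,
        ∃ hx₁ : x ∈ G₁.verts, ∃ hy₁ : y ∈ G₁.verts,
        ∃ hx₂ : x ∈ G₂.verts, ∃ hy₂ : y ∈ G₂.verts,
          ¬ G₁.Adj x y ∧ ¬ G₂.Adj x y ∧
          G₁.coe.Colorable 3 ∧ G₂.coe.Colorable 3 ∧
          (∀ c : G₁.coe.Coloring (Fin 3), c ⟨x, hx₁⟩ ≠ c ⟨y, hy₁⟩) ∧
          (∀ c : G₂.coe.Coloring (Fin 3), c ⟨x, hx₂⟩ = c ⟨y, hy₂⟩)) := by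
  intro h
  have h3 : G.CliqueFree 3 := by
    have : ∀ a b, G.Adj a b → ∀ c, G.Adj a c → ¬ G.Adj b c := by decide +kernel
    intro s hs
    obtain ⟨a, b, c, h1, h2, h3, -⟩ := SimpleGraph.is3Clique_iff.mp hs
    exact this a b h1 c h2 h3
  obtain ⟨x, y, hxy, G₁, G₂, hx₁, hy₁, hx₂, hy₂, n1, -, k1, k2, f1, f2⟩ :=
    h (Fin 42) G (h3.mono (by norm_num)) fun ⟨c⟩ => nocol c fun u v h => c.valid h
  rcases lt_or_gt_of_ne hxy with l | l
  · exact key x y l G₁ G₂ hx₁ hy₁ hx₂ hy₂ n1 k1 k2 f1 f2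
  · exact key y x l G₁ G₂ hy₁ hx₁ hy₂ hx₂ (fun h => n1 h.symm) k1 k2 (fun c => (f1 c).symm)
      fun c => (f2 c).symm

end Pool.Agent.S11952
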