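import Pool.Statements.S11957
import Pool.Agent.H18.Dir.Main
-- import your own Pool.Agent.* helpers here

set_option autoImplicit false
open Pool Pool.MP_dfdf13_co

namespace Pool.Agent.S11957

/-- For every k ≥ 4 there is p₀ such that for all primes p > p₀, no point set S in the plane over 𝔽_p with p dividing ∣S∣ has exactly k directions in which some line meets S in other than ∣S∣/p points. -/
theorem result :
    ∀ k : ℕ, 4 ≤ k → ∃ p₀ : ℕ, ∀ p : ℕ, p.Prime → p₀ < p →
      ∀ S : Finset (ZMod p × ZMod p), p ∣ S.card →
        {d : Option (ZMod p) | ∃ b : ZMod p,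
            (S.filter (fun q => d.elim q.1 (fun m => q.2 - m * q.1) = b)).card * p
              ≠ S.card}.ncard ≠ k := by
  intro k hk
  obtain ⟨p₀, h⟩ := Pool.Agent.H18.Dir.main k hk
  refine ⟨p₀, fun p hp hlt S hS => ?_⟩
  haveI : Fact p.Prime := ⟨hp⟩
  have := h p hlt S hS
  rw [← Set.ncard_coe_finset, Finset.coe_filter_univ] at this
  exact this

end Pool.Agent.S11957
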