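import Pool.Statements.S11974
-- import your own Pool.Agent.* helpers here

set_option autoImplicit false
open Pool Pool.MP_e09a39_co

namespace Pool.Agent.S11974

/-- points -/
def X : Matrix (Fin 10) (Fin 3) (ℤ√2) :=
  Matrix.of ![![⟨1, 0⟩, ⟨0, 0⟩, ⟨0, 0⟩],
    ![⟨0, 0⟩, ⟨1, 0⟩, ⟨0, 0⟩],
    ![⟨1, 0⟩, ⟨1, 0⟩, ⟨1, 0⟩],
    ![⟨2, 0⟩, ⟨6, -4⟩, ⟨2, -1⟩],
    ![⟨0, 0⟩, ⟨0, 0⟩, ⟨1, 0⟩],
    ![⟨0, 0⟩, ⟨2, 0⟩, ⟨1, 0⟩],
    ![⟨2, 0⟩, ⟨0, 0⟩, ⟨1, 0⟩],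
    ![⟨1, 1⟩, ⟨1, 0⟩, ⟨0, 0⟩],
    ![⟨2, 0⟩, ⟨2, 0⟩, ⟨2, -1⟩],
    ![⟨1, 1⟩, ⟨1, 0⟩, ⟨1, 0⟩]]

/-- lines -/
def Y : Matrix (Fin 3) (Fin 12) (ℤ√2) :=
  Matrix.of ![![⟨1, 0⟩, ⟨0, 0⟩, ⟨0, 0⟩, ⟨-1, 0⟩, ⟨6, -4⟩, ⟨2, -1⟩, ⟨1, 0⟩, ⟨-1, 0⟩, ⟨0, 0⟩, ⟨2, -2⟩, ⟨-1, 0⟩, ⟨-2, 0⟩],
    ![⟨0, 0⟩, ⟨-1, 0⟩, ⟨0, 0⟩, ⟨-1, 0⟩, ⟨2, -2⟩, ⟨0, 0⟩, ⟨-1, 0⟩, ⟨1, 1⟩, ⟨-1, 0⟩, ⟨-2, 0⟩, ⟨1, 1⟩, ⟨-2, 2⟩],
    ![⟨0, 0⟩, ⟨0, 0⟩, ⟨1, 0⟩, ⟨2, 0⟩, ⟨-12, 8⟩, ⟨-2, 0⟩, ⟨0, 0⟩, ⟨-2, -2⟩, ⟨1, 0⟩, ⟨4, 0⟩, ⟨0, 0⟩, ⟨4, 0⟩]]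

/-- incidences -/
def inc : Fin 12 → Finset (Fin 10) := ![{1, 4, 5}, {0, 4, 6}, {0, 1, 7}, {2, 5, 6}, {3, 6, 7}, {1, 3, 8}, {2, 4, 8}, {5, 7, 8}, {0, 2, 9}, {3, 5, 9}, {4, 7, 9}, {6, 8, 9}]

theorem zero_iff : ∀ i j, (X * Y) i j = 0 ↔ i ∈ inc j := by
  intro i j
  rw [Matrix.mul_apply, Fin.sum_univ_three]
  revert i j
  decide +kernel

theorem minor_zero {m n : ℕ} (Q : Matrix (Fin m) (Fin n) ℚ) (hQ : Q.rank = 3) (r : Fin 4 → Fin m)
    (c : Fin 4 → Fin n) : (Q.submatrix r c).det = 0 := by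
  by_contra h
  have h1 : (Q.submatrix r c).rank = 4 := by
    rw [Matrix.rank_of_isUnit _ ((Matrix.isUnit_iff_isUnit_det _).2 (Ne.isUnit h))]; simp
  have h2 := Matrix.rank_submatrix_le Q r c
  omega

theorem det3 {m n : ℕ} (Q : Matrix (Fin m) (Fin n) ℚ) (hQ : Q.rank = 3) (a b c d : Fin m)
    (u v w j : Fin n) (ha : Q a j = 0) (hb : Q b j = 0) (hc : Q c j = 0) (hd : Q d j ≠ 0) :
    Q a u * Q b v * Q c w - Q a u * Q b w * Q c v - Q a v * Q b u * Q c w + Q a v * Q b w * Q c u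
      + Q a w * Q b u * Q c v - Q a w * Q b v * Q c u = 0 := by
  have h := minor_zero Q hQ ![d, a, b, c] ![j, u, v, w]
  have e : Q.submatrix ![d, a, b, c] ![j, u, v, w] =
      !![Q d j, Q d u, Q d v, Q d w; 0, Q a u, Q a v, Q a w; 0, Q b u, Q b v, Q b w;
        0, Q c u, Q c v, Q c w] := by
    ext x y
    fin_cases x <;> fin_cases y <;> simp [ha, hb, hc]
  rw [e] at h
  simp [Matrix.det_succ_row_zero, Fin.sum_univ_succ, Fin.succAbove] at h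
  apply mul_left_cancel₀ hd
  rcases h with h | h
  · exact absurd h hd
  · linear_combination (Q d j) * h

theorem alg (x0 y1 z4 x2 y2 z2 x3 y3 z3 y5 z5 x6 z6 x7 y7 x8 y8 z8 x9 y9 z9 : ℚ)
    (hx0 : x0 ≠ 0) (hy1 : y1 ≠ 0) (hz4 : z4 ≠ 0) (hx2 : x2 ≠ 0) (hy2 : y2 ≠ 0) (hz2 : z2 ≠ 0)
    (hx3 : x3 ≠ 0) (hy5 : y5 ≠ 0) (hx6 : x6 ≠ 0) (hy7 : y7 ≠ 0) (hx8 : x8 ≠ 0) (hy9 : y9 ≠ 0)
    (e029 : x0 * (y2 * z9 - z2 * y9) = 0) (e138 : y1 * (x3 * z8 - z3 * x8) = 0)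
    (e248 : z4 * (x2 * y8 - y2 * x8) = 0) (e479 : z4 * (x7 * y9 - y7 * x9) = 0)
    (e256 : x2 * y5 * z6 + y2 * z5 * x6 - z2 * y5 * x6 = 0)
    (e578 : - y5 * x7 * z8 + z5 * x7 * y8 - z5 * y7 * x8 = 0)
    (e689 : x6 * y8 * z9 - x6 * z8 * y9 + z6 * x8 * y9 - z6 * y8 * x9 = 0)
    (e367 : - x3 * z6 * y7 + y3 * z6 * x7 + z3 * x6 * y7 = 0)
    (e359 : x3 * y5 * z9 - x3 * z5 * y9 + y3 * z5 * x9 - z3 * y5 * x9 = 0) : False := by
  obtain ⟨p9, rfl⟩ : ∃ p, y9 = p * y2 := ⟨y9 / y2, by field_simp⟩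
  obtain ⟨p8, rfl⟩ : ∃ p, x8 = p * x2 := ⟨x8 / x2, by field_simp⟩
  obtain ⟨p3, rfl⟩ : ∃ p, x3 = p * x2 := ⟨x3 / x2, by field_simp⟩
  obtain ⟨p7, rfl⟩ : ∃ p, y7 = p * y2 := ⟨y7 / y2, by field_simp⟩
  obtain ⟨p5, rfl⟩ : ∃ p, y5 = p * y2 := ⟨y5 / y2, by field_simp⟩
  obtain ⟨p6, rfl⟩ : ∃ p, x6 = p * x2 := ⟨x6 / x2, by field_simp⟩
  have h9 : p9 ≠ 0 := left_ne_zero_of_mul hy9
  have h8 : p8 ≠ 0 := left_ne_zero_of_mul hx8
  have h3 : p3 ≠ 0 := left_ne_zero_of_mul hx3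
  have h7 : p7 ≠ 0 := left_ne_zero_of_mul hy7
  have h5 : p5 ≠ 0 := left_ne_zero_of_mul hy5
  have h6 : p6 ≠ 0 := left_ne_zero_of_mul hx6
  obtain ⟨a, rfl⟩ : ∃ a, x9 = a * p9 * x2 := ⟨x9 / (p9 * x2), by field_simp⟩
  obtain ⟨b, rfl⟩ : ∃ b, z8 = b * p8 * z2 := ⟨z8 / (p8 * z2), by field_simp⟩
  obtain ⟨c, rfl⟩ : ∃ c, y3 = c * p3 * y2 := ⟨y3 / (p3 * y2), by field_simp⟩
  obtain ⟨e, rfl⟩ : ∃ e, z5 = e * p5 * z2 := ⟨z5 / (p5 * z2), by field_simp⟩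
  obtain ⟨f, rfl⟩ : ∃ f, z6 = f * p6 * z2 := ⟨z6 / (p6 * z2), by field_simp⟩
  obtain rfl : z9 = p9 * z2 := by
    apply mul_left_cancel₀ (mul_ne_zero hx0 hy2); linear_combination e029
  obtain rfl : z3 = b * p3 * z2 := by
    apply mul_left_cancel₀ (mul_ne_zero hy1 hx8); linear_combination -e138
  obtain rfl : y8 = p8 * y2 := by
    apply mul_left_cancel₀ (mul_ne_zero hz4 hx2); linear_combination e248
  obtain rfl : x7 = a * p7 * x2 := by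
    apply mul_left_cancel₀ (mul_ne_zero hz4 hy9); linear_combination e479
  have hw : x2 * y2 * z2 ≠ 0 := mul_ne_zero (mul_ne_zero hx2 hy2) hz2
  have k1 : f + e - 1 = 0 := by
    apply mul_left_cancel₀ (mul_ne_zero hw (mul_ne_zero h5 h6)); linear_combination e256
  have k2 : e * (a - 1) - a * b = 0 := by
    apply mul_left_cancel₀ (mul_ne_zero hw (mul_ne_zero h5 (mul_ne_zero h7 h8)))
    linear_combination e578
  have k3 : 1 - b + f * (1 - a) = 0 := by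
    apply mul_left_cancel₀ (mul_ne_zero hw (mul_ne_zero h6 (mul_ne_zero h8 h9)))
    linear_combination e689
  have k4 : - f + a * c * f + b = 0 := by
    apply mul_left_cancel₀ (mul_ne_zero hw (mul_ne_zero h3 (mul_ne_zero h6 h7)))
    linear_combination e367
  have k5 : 1 - e + a * c * e - a * b = 0 := by
    apply mul_left_cancel₀ (mul_ne_zero hw (mul_ne_zero h3 (mul_ne_zero h5 h9)))
    linear_combination e359
  obtain ⟨u, rfl⟩ : ∃ u, a = u + 1 := ⟨a - 1, by ring⟩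
  have hb : b * u = u - 1 := by linear_combination u * k1 - k2 + k3
  have hu : u ≠ 0 := by rintro rfl; norm_num at hb
  obtain rfl : b = (u - 1) / u := by field_simp; exact hb
  obtain rfl : f = 1 / u ^ 2 := by field_simp at k3 ⊢; linear_combination -k3
  obtain rfl : e = 1 - 1 / u ^ 2 := by linear_combination k1
  have hc : (u + 1) * c = 1 - u * (u - 1) := by field_simp at k4; linear_combination k4
  rw [hc] at k5
  have h2 : u ^ 2 = 2 := by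
    apply mul_left_cancel₀ (pow_ne_zero 2 hu)
    field_simp at k5
    linear_combination -k5
  have hirr : Irrational (Real.sqrt 2) := irrational_sqrt_two
  apply hirr
  refine ⟨|u|, ?_⟩
  have : ((u : ℝ)) ^ 2 = 2 := by exact_mod_cast h2
  rw [← this, Real.sqrt_sq_eq_abs]
  simp

/-- The negation of the preceding statement: For every sign pattern whose real minimum rank is 3 and whose columns each have at most 3 zero entries, there is a rational matrix with exactly that sign pattern and rank 3, i.e. the rational minimum rank is also 3. -/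
theorem result :
    ¬ (∀ (m n : ℕ) (A : Matrix (Fin m) (Fin n) SignType),
      (∀ j : Fin n, (Finset.univ.filter (fun i : Fin m => A i j = 0)).card ≤ 3) →
      (∃ B : Matrix (Fin m) (Fin n) ℝ,
          (∀ i j, SignType.sign (B i j) = A i j) ∧ B.rank = 3) →
      (∀ B : Matrix (Fin m) (Fin n) ℝ,
          (∀ i j, SignType.sign (B i j) = A i j) → 3 ≤ B.rank) →
      ∃ Q : Matrix (Fin m) (Fin n) ℚ,
        (∀ i j, SignType.sign (Q i j) = A i j) ∧ Q.rank = 3) := by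
  intro h
  let φ : ℤ√2 →+* ℝ := Zsqrtd.toReal (by norm_num)
  have hφ : Function.Injective φ := Zsqrtd.toReal_injective _ (by
    intro n hn
    have h1 : n ≤ 1 := by nlinarith
    have h2 : -1 ≤ n := by nlinarith
    interval_cases n <;> norm_num at hn)
  let B : Matrix (Fin 10) (Fin 12) ℝ := (X * Y).map φ
  have hB : ∀ i j, SignType.sign (B i j) = 0 ↔ i ∈ inc j := by
    intro i j
    rw [sign_eq_zero_iff, ← zero_iff]
    exact map_eq_zero_iff φ hφ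
  have hge : ∀ B' : Matrix (Fin 10) (Fin 12) ℝ,
      (∀ i j, SignType.sign (B' i j) = SignType.sign (B i j)) → 3 ≤ B'.rank := by
    intro B' hB'
    have hz : ∀ i j, B' i j = 0 ↔ i ∈ inc j := fun i j => by
      rw [← hB, ← hB', sign_eq_zero_iff]
    have hd : (B'.submatrix ![0, 1, 4] ![0, 1, 2]).det ≠ 0 := by
      rw [Matrix.det_fin_three]
      simp [(hz 0 1).2 (by decide), (hz 0 2).2 (by decide), (hz 1 0).2 (by decide),
        (hz 1 2).2 (by decide), (hz 4 0).2 (by decide), (hz 4 1).2 (by decide),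
        mt (hz 0 0).1 (by decide), mt (hz 1 1).1 (by decide), mt (hz 4 2).1 (by decide)]
    have h1 : (B'.submatrix ![0, 1, 4] ![0, 1, 2]).rank = 3 := by
      rw [Matrix.rank_of_isUnit _ ((Matrix.isUnit_iff_isUnit_det _).2 (Ne.isUnit hd))]; simp
    exact h1 ▸ Matrix.rank_submatrix_le B' _ _
  obtain ⟨Q, hQ, hr⟩ := h 10 12 (Matrix.of fun i j => SignType.sign (B i j)) (by
      intro j
      simp only [Matrix.of_apply, hB]
      revert j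
      decide) ⟨B, fun _ _ => rfl, le_antisymm (by
        have : B = X.map φ * Y.map φ := Matrix.map_mul
        rw [this]
        exact (Matrix.rank_mul_le_left _ _).trans (Matrix.rank_le_width _)) (hge B fun _ _ => rfl)⟩
    hge
  have hz : ∀ i j, Q i j = 0 ↔ i ∈ inc j := fun i j => by
    rw [← hB, ← sign_eq_zero_iff, hQ]; rfl
  have z : ∀ i j, i ∈ inc j → Q i j = 0 := fun i j => (hz i j).2
  have nz : ∀ i j, i ∉ inc j → Q i j ≠ 0 := fun i j => mt (hz i j).1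
  have D : ∀ a b c d j, a ∈ inc j → b ∈ inc j → c ∈ inc j → d ∉ inc j → _ :=
    fun a b c d j ha hb hc hd => det3 Q hr a b c d 0 1 2 j (z _ _ ha) (z _ _ hb) (z _ _ hc) (nz _ _ hd)
  have e029 := D 0 2 9 1 8 (by decide) (by decide) (by decide) (by decide)
  have e138 := D 1 3 8 0 5 (by decide) (by decide) (by decide) (by decide)
  have e248 := D 2 4 8 0 6 (by decide) (by decide) (by decide) (by decide)
  have e479 := D 4 7 9 0 10 (by decide) (by decide) (by decide) (by decide)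
  have e256 := D 2 5 6 0 3 (by decide) (by decide) (by decide) (by decide)
  have e578 := D 5 7 8 0 7 (by decide) (by decide) (by decide) (by decide)
  have e689 := D 6 8 9 0 11 (by decide) (by decide) (by decide) (by decide)
  have e367 := D 3 6 7 0 4 (by decide) (by decide) (by decide) (by decide)
  have e359 := D 3 5 9 0 9 (by decide) (by decide) (by decide) (by decide)
  rw [z 0 1 (by decide), z 0 2 (by decide)] at e029
  rw [z 1 0 (by decide), z 1 2 (by decide)] at e138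
  rw [z 4 0 (by decide), z 4 1 (by decide)] at e248
  rw [z 4 0 (by decide), z 4 1 (by decide), z 7 2 (by decide)] at e479
  rw [z 5 0 (by decide), z 6 1 (by decide)] at e256
  rw [z 5 0 (by decide), z 7 2 (by decide)] at e578
  rw [z 6 1 (by decide)] at e689
  rw [z 6 1 (by decide), z 7 2 (by decide)] at e367
  rw [z 5 0 (by decide)] at e359
  exact alg (Q 0 0) (Q 1 1) (Q 4 2) (Q 2 0) (Q 2 1) (Q 2 2) (Q 3 0) (Q 3 1) (Q 3 2) (Q 5 1) (Q 5 2)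
    (Q 6 0) (Q 6 2) (Q 7 0) (Q 7 1) (Q 8 0) (Q 8 1) (Q 8 2) (Q 9 0) (Q 9 1) (Q 9 2)
    (nz _ _ (by decide)) (nz _ _ (by decide)) (nz _ _ (by decide)) (nz _ _ (by decide))
    (nz _ _ (by decide)) (nz _ _ (by decide)) (nz _ _ (by decide)) (nz _ _ (by decide))
    (nz _ _ (by decide)) (nz _ _ (by decide)) (nz _ _ (by decide)) (nz _ _ (by decide))
    (by linear_combination e029) (by linear_combination -e138) (by linear_combination -e248)
    (by linear_combination e479) (by linear_combination e256) (by linear_combination e578)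
    (by linear_combination e689) (by linear_combination e367) (by linear_combination e359)

end Pool.Agent.S11974
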