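import Pool.Statements.S11998
-- import your own Pool.Agent.* helpers here

set_option autoImplicit false
open Pool Pool.MP_e1ba52_co

namespace Pool.Agent.S11998

/-- symbol `s` in cell `c` clashes with the filled cells `K` -/
def clash (K : List ((Fin 6 × Fin 6) × Fin 6)) (c : Fin 6 × Fin 6) (s : Fin 6) : Bool :=
  K.any (fun p => p.2 == s && ((p.1.1 == c.1 && p.1.2 != c.2) || (p.1.2 == c.2 && p.1.1 != c.1)))

/-- backtracking: every completion agrees with the cyclic square -/
def chk : List (Fin 6 × Fin 6) → List ((Fin 6 × Fin 6) × Fin 6) → Bool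
  | [], K => K.all (fun p => p.2 == p.1.1 + p.1.2)
  | c :: cs, K => (List.finRange 6).all (fun s => clash K c s || chk cs ((c, s) :: K))

theorem chk_sound (M : Fin 6 → Fin 6 → Fin 6) (h1 : ∀ i, Function.Injective (M i))
    (h2 : ∀ j, Function.Injective (fun i => M i j)) :
    ∀ (cs : List (Fin 6 × Fin 6)) (K : List ((Fin 6 × Fin 6) × Fin 6)),
      (∀ p ∈ K, M p.1.1 p.1.2 = p.2) → chk cs K = true →
      (∀ p ∈ K, p.2 = p.1.1 + p.1.2) ∧ ∀ c ∈ cs, M c.1 c.2 = c.1 + c.2 := by
  intro cs
  induction cs with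
  | nil =>
    intro K _ h
    simp only [chk, List.all_eq_true, beq_iff_eq] at h
    exact ⟨h, by simp⟩
  | cons c cs ih =>
    intro K hK h
    simp only [chk, List.all_eq_true, Bool.or_eq_true] at h
    rcases h (M c.1 c.2) (List.mem_finRange _) with h | h
    · exfalso
      simp only [clash, List.any_eq_true, Bool.and_eq_true, Bool.or_eq_true, beq_iff_eq,
        bne_iff_ne, ne_eq] at h
      obtain ⟨p, hp, h3, ⟨h4, h5⟩ | ⟨h4, h5⟩⟩ := h
      · have h6 := hK p hp
        rw [h3, h4] at h6
        exact h5 (h1 _ h6)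
      · have h6 := hK p hp
        rw [h3, h4] at h6
        exact h5 (h2 _ h6)
    · obtain ⟨h3, h4⟩ := ih ((c, M c.1 c.2) :: K) (by
        intro p hp
        rcases List.mem_cons.1 hp with rfl | hp
        · rfl
        · exact hK p hp) h
      refine ⟨fun p hp => h3 p (List.mem_cons_of_mem _ hp), fun d hd => ?_⟩
      rcases List.mem_cons.1 hd with rfl | hd
      · exact h3 _ List.mem_cons_self
      · exact h4 d hd

/-- the critical set, 17 cells -/
def SS : Finset (Fin 6 × Fin 6) := {(0, 0), (0, 2), (0, 3), (0, 4), (0, 5), (1, 2), (1, 3), (1, 5), (2, 2), (2, 3), (2, 4), (4, 0), (4, 4), (4, 5), (5, 0), (5, 3), (5, 5)}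

/-- the filled cells -/
def KK : List ((Fin 6 × Fin 6) × Fin 6) := [((0, 0), 0), ((0, 2), 2), ((0, 3), 3), ((0, 4), 4), ((0, 5), 5), ((1, 2), 3), ((1, 3), 4), ((1, 5), 0), ((2, 2), 4), ((2, 3), 5), ((2, 4), 0), ((4, 0), 4), ((4, 4), 2), ((4, 5), 3), ((5, 0), 5), ((5, 3), 2), ((5, 5), 4)]

/-- the empty cells -/
def EE : List (Fin 6 × Fin 6) := [(0, 1), (1, 0), (1, 4), (1, 1), (2, 1), (2, 0), (2, 5), (3, 0), (3, 4), (3, 3), (3, 2), (3, 1), (3, 5), (4, 3), (4, 2), (4, 1), (5, 1), (5, 2), (5, 4)]

theorem chk_true : chk EE KK = true := by decide +kernel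

/-- second completions, in base 6 -/
def alt (c : Fin 6 × Fin 6) (i j : Fin 6) : Fin 6 :=
  ⟨([7263506784972677816095866865, 0, 7833879060958940899277063640, 7840510284338490555289207890, 7840510568460594142841327640, 7263508350971368580501910990, 0, 0, 7283404290634349325511379190, 7263506785036152788984233590, 0, 7263506783393420490627265590, 0, 0, 7263508347824025327437319990, 7263511759461634085114785590, 6984954498748327439610068790, 0, 0, 0, 0, 0, 0, 0, 7840510355370032048962700790, 0, 0, 0, 7840504171782893349980324790, 7840436649848856104960550390, 7298878612110222171827003190, 0, 0, 7747660232304416474096780790, 0, 2680645994632962117874009590] : List ℕ).getD (6 * c.1.val + c.2.val) 0 / 6 ^ (6 * i.val + j.val) % 6, Nat.mod_lt _ (by norm_num)⟩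

theorem alt_ok : ∀ c ∈ SS, (∀ i a b, alt c i a = alt c i b → a = b) ∧
    (∀ j a b, alt c a j = alt c b j → a = b) ∧
    (∀ d ∈ SS.erase c, alt c d.1 d.2 = d.1 + d.2) ∧ alt c c.1 c.2 ≠ c.1 + c.2 := by
  decide +kernel

/-- The negation of the preceding statement: For every n ≥ 1, the largest size of a critical set of the cyclic latin square (i,j) ↦ i+j mod n is exactly n(n-1)/2. A critical set is a set of cells forcing a unique completion, where removing any one cell destroys uniqueness. -/
theorem result :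
    ¬ (∀ n : ℕ, 1 ≤ n →
      IsGreatest
        {k : ℕ | ∃ S : Finset (Fin n × Fin n),
          (∀ M : Fin n → Fin n → Fin n,
              (∀ i, Function.Injective (M i)) →
              (∀ j, Function.Injective (fun i => M i j)) →
              (∀ c ∈ S, M c.1 c.2 = c.1 + c.2) →
              M = fun i j => i + j) ∧
          (∀ c ∈ S, ∃ M : Fin n → Fin n → Fin n,
              (∀ i, Function.Injective (M i)) ∧
              (∀ j, Function.Injective (fun i => M i j)) ∧
              (∀ d ∈ S.erase c, M d.1 d.2 = d.1 + d.2) ∧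
              M ≠ fun i j => i + j) ∧
          S.card = k}
        (n * (n - 1) / 2)) := by
  intro h
  have h0 : SS.card = 17 := by decide +kernel
  refine absurd (show SS.card ≤ 6 * (6 - 1) / 2 from
    (h 6 (by norm_num)).2 ⟨SS, ?_, ?_, rfl⟩) (by omega)
  · intro M h1 h2 h3
    have h4 : ∀ p ∈ KK, p.1 ∈ SS ∧ p.2 = p.1.1 + p.1.2 := by decide +kernel
    have h5 := (chk_sound M h1 h2 EE KK (fun p hp => by
      rw [h3 _ (h4 p hp).1, (h4 p hp).2]) chk_true).2
    have h6 : ∀ i j : Fin 6, (i, j) ∈ SS ∨ (i, j) ∈ EE := by decide +kernel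
    funext i j
    rcases h6 i j with h7 | h7
    · exact h3 _ h7
    · exact h5 _ h7
  · intro c hc
    obtain ⟨h1, h2, h3, h4⟩ := alt_ok c hc
    exact ⟨alt c, fun i a b => h1 i a b, fun j a b => h2 j a b, h3, fun e => h4 (congrFun (congrFun e c.1) c.2)⟩

end Pool.Agent.S11998
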