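import Pool.Statements.S12030
import Pool.Agent.H23.SnIso

set_option autoImplicit false
open Pool Pool.MP_e2957e_co

namespace Pool.Agent.S12030

/-- The negation of the preceding statement: There is an absolute C₁>0 such that any A⊂S_n of size c(n−1)! whose transposition-graph edge boundary is at most ∣A∣(n!−∣A∣)/(n−1)!+δn∣A∣ lies within symmetric difference C₁cδ(n−1)! of a union of c distinct 1-cosets {σ: σ(i)=j}. -/
theorem result :
    ¬ (∃ C₁ : ℝ, 0 < C₁ ∧
      ∀ (n : ℕ), 1 ≤ n →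
      ∀ (c : ℕ) (δ : ℝ), 0 ≤ δ →
      ∀ A : Finset (Equiv.Perm (Fin n)),
        A.card = c * Nat.factorial (n - 1) →
        ((((A ×ˢ (Finset.univ.filter (fun p : Fin n × Fin n => p.1 < p.2))).filter
            (fun x => x.1 * Equiv.swap x.2.1 x.2.2 ∉ A)).card : ℕ) : ℝ)
          ≤ (A.card : ℝ) * ((Nat.factorial n : ℝ) - (A.card : ℝ)) / (Nat.factorial (n - 1) : ℝ)
            + δ * (n : ℝ) * (A.card : ℝ) →
        ∃ P : Finset (Fin n × Fin n), P.card = c ∧
          ((symmDiff A (Finset.univ.filter (fun σ : Equiv.Perm (Fin n) => ∃ p ∈ P, σ p.1 = p.2))).card : ℝ)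
            ≤ C₁ * (c : ℝ) * δ * (Nat.factorial (n - 1) : ℝ)) := by
  rintro ⟨C, hC, H⟩
  obtain ⟨K, hK⟩ := exists_nat_gt (6 * C)
  let a : Fin (2 * K + 4) := ⟨0, by omega⟩
  let b : Fin (2 * K + 4) := ⟨1, by omega⟩
  have hab : a < b := Fin.mk_lt_mk.mpr (by omega)
  have f1 : (2 * K + 4 - 2).factorial = (2 * K + 2) * (2 * K + 1).factorial :=
    Nat.factorial_succ (2 * K + 1)
  have f2 : (2 * K + 4 - 1).factorial = (2 * K + 3) * ((2 * K + 2) * (2 * K + 1).factorial) := by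
    rw [← f1]; exact Nat.factorial_succ (2 * K + 2)
  have f3 : (2 * K + 4).factorial =
      (2 * K + 4) * ((2 * K + 3) * ((2 * K + 2) * (2 * K + 1).factorial)) := by
    rw [← f2]; exact Nat.factorial_succ (2 * K + 3)
  have f0 : (2 * K + 4 - 3).factorial = (2 * K + 1).factorial := rfl
  have cA : (Pool.Agent.H23.SnIso.D a b)ᶜ.card = (2 * K + 2) * (2 * K + 4 - 1).factorial := by
    rw [Finset.card_compl, Pool.Agent.H23.SnIso.card_D a b hab.ne, Fintype.card_perm,
      Fintype.card_fin, f3, f2]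
    apply Nat.sub_eq_of_eq_add
    ring
  have bd := Pool.Agent.H23.SnIso.bdry a b hab
  have Fp : (0 : ℝ) < (2 * K + 1).factorial := by exact_mod_cast Nat.factorial_pos _
  have K0 : (0 : ℝ) ≤ K := Nat.cast_nonneg K
  obtain ⟨P, hP, h⟩ := H (2 * K + 4) (by omega) (2 * K + 2) (3 / ((2 * K + 4) * (2 * K + 2)))
    (by positivity) _ cA (by
      have bd' := (Nat.cast_le (α := ℝ)).mpr (Nat.le_of_add_le_add_right bd)
      refine bd'.trans ?_
      rw [cA, f3, f2, f1, (by omega : 2 * K + 4 - 1 = 2 * K + 3)]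
      push_cast
      field_simp
      nlinarith)
  have h2 := (Nat.cast_le (α := ℝ)).mpr (Pool.Agent.H23.SnIso.far2 a b hab.ne K P hP.ge)
  rw [Nat.cast_add, f1, f0] at h2
  rw [f2] at h
  have h3 := h2.trans (add_le_add_left h _)
  push_cast at h3
  have e : C * (2 * K + 2) * (3 / ((2 * K + 4) * (2 * K + 2))) *
      ((2 * K + 3) * ((2 * K + 2) * ((2 * K + 1).factorial : ℝ))) ≤
      3 * C * (2 * K + 2) * (2 * K + 1).factorial := by
    field_simp
    linarith
  have h4 : (K * (2 * K + 2) - K ^ 2 - 3 * C * (2 * K + 2)) * ((2 * K + 1).factorial : ℝ) ≤ 0 := by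
    nlinarith
  have h5 : 0 < (K * (2 * K + 2) - K ^ 2 - 3 * C * (2 * K + 2) : ℝ) := by nlinarith
  nlinarith [mul_pos h5 Fp]

end Pool.Agent.S12030
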