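import Pool.Statements.S12060
import Pool.Agent.H24.FourBar2

set_option autoImplicit false
open Pool Pool.MP_e3c312_co

namespace Pool.Agent.S12060

open Pool.Agent.H24.FourBar

/-- The negation of the preceding statement: For any Γ-symmetric framework in ℝ^d, every expansive motion tracing one half-branch of a neighbourhood of [p] homeomorphic to an interval in the configuration space mod isometries can be moved by continuous isometries so it stays Γ-symmetric. -/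
theorem result :
    ¬ (∀ (d : ℕ) (V : Type) [Fintype V] (G : SimpleGraph V) (p : V → EuclideanSpace ℝ (Fin d))
    (Γ : Subgroup (EuclideanSpace ℝ (Fin d) ≃ᵢ EuclideanSpace ℝ (Fin d))) [Finite Γ]
    (θ : Γ →* Equiv.Perm V),
    (∀ γ : Γ, ∀ u v : V, G.Adj u v ↔ G.Adj (θ γ u) (θ γ v)) →
    (∀ γ : Γ, ∀ i : V,
      (γ : EuclideanSpace ℝ (Fin d) ≃ᵢ EuclideanSpace ℝ (Fin d)) (p i) = p (θ γ i)) →
    ∀ m : ℝ → V → EuclideanSpace ℝ (Fin d),
      ContinuousOn m (Set.Icc 0 1) → m 0 = p →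
      (∀ t ∈ Set.Icc (0:ℝ) 1, ∀ i j : V, G.Adj i j → dist (m t i) (m t j) = dist (p i) (p j)) →
      (∀ i j : V, MonotoneOn (fun t => dist (m t i) (m t j)) (Set.Icc (0:ℝ) 1)) →
      (∃ t ∈ Set.Icc (0:ℝ) 1, ∃ i j : V, dist (m t i) (m t j) ≠ dist (p i) (p j)) →
      Set.InjOn (fun t => Quot.mk (fun q q' : V → EuclideanSpace ℝ (Fin d) =>
          ∃ T : EuclideanSpace ℝ (Fin d) ≃ᵢ EuclideanSpace ℝ (Fin d), ∀ i, T (q i) = q' i) (m t))
        (Set.Icc (0:ℝ) 1) →
      (∃ O : Set (Quot (fun q q' : V → EuclideanSpace ℝ (Fin d) =>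
          ∃ T : EuclideanSpace ℝ (Fin d) ≃ᵢ EuclideanSpace ℝ (Fin d), ∀ i, T (q i) = q' i)),
        IsOpen O ∧
        ∃ h : ↥(O ∩ {x : Quot (fun q q' : V → EuclideanSpace ℝ (Fin d) =>
              ∃ T : EuclideanSpace ℝ (Fin d) ≃ᵢ EuclideanSpace ℝ (Fin d), ∀ i, T (q i) = q' i) |
              ∃ q : V → EuclideanSpace ℝ (Fin d),
                Quot.mk (fun q q' : V → EuclideanSpace ℝ (Fin d) =>
                  ∃ T : EuclideanSpace ℝ (Fin d) ≃ᵢ EuclideanSpace ℝ (Fin d), ∀ i, T (q i) = q' i) q = x ∧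
                ∀ i j : V, G.Adj i j → dist (q i) (q j) = dist (p i) (p j)}) ≃ₜ ↥(Set.Ioo (0:ℝ) 1),
        ∃ a : Set.Ioo (0:ℝ) 1,
          (h.symm a).1 = Quot.mk (fun q q' : V → EuclideanSpace ℝ (Fin d) =>
            ∃ T : EuclideanSpace ℝ (Fin d) ≃ᵢ EuclideanSpace ℝ (Fin d), ∀ i, T (q i) = q' i) p ∧
          ((∀ t ∈ Set.Ioc (0:ℝ) 1, ∃ b : Set.Ioo (0:ℝ) 1,
              (h.symm b).1 = Quot.mk (fun q q' : V → EuclideanSpace ℝ (Fin d) =>
                ∃ T : EuclideanSpace ℝ (Fin d) ≃ᵢ EuclideanSpace ℝ (Fin d), ∀ i, T (q i) = q' i) (m t) ∧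
              (a : ℝ) < (b : ℝ)) ∨
           (∀ t ∈ Set.Ioc (0:ℝ) 1, ∃ b : Set.Ioo (0:ℝ) 1,
              (h.symm b).1 = Quot.mk (fun q q' : V → EuclideanSpace ℝ (Fin d) =>
                ∃ T : EuclideanSpace ℝ (Fin d) ≃ᵢ EuclideanSpace ℝ (Fin d), ∀ i, T (q i) = q' i) (m t) ∧
              (b : ℝ) < (a : ℝ)))) →
      ∃ T : ℝ → (EuclideanSpace ℝ (Fin d) ≃ᵢ EuclideanSpace ℝ (Fin d)),
        (∀ x, T 0 x = x) ∧
        (∀ x, ContinuousOn (fun t => T t x) (Set.Icc (0:ℝ) 1)) ∧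
        ∀ t ∈ Set.Icc (0:ℝ) 1, ∀ γ : Γ, ∀ i : V,
          (γ : EuclideanSpace ℝ (Fin d) ≃ᵢ EuclideanSpace ℝ (Fin d)) (T t (m t i))
            = T t (m t (θ γ i))) := by
  intro h
  have ne1 : pa (1 / 4) ≠ pb (1 / 4) := by
    intro e
    have h1 := pa_sub (1 / 4)
    have h2 := ww_half |(1 / 4 : ℝ)|
    linarith
  have one : (1 : ℝ) ∈ Set.Icc (0 : ℝ) 1 := ⟨zero_le_one, le_rfl⟩
  have cs : ∀ g : Gam, (g.1 = 1 ∧ th g = 1) ∨ (g.1 = MM ∧ th g = sg) := by
    rintro ⟨g, hg⟩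
    have hg' : g = 1 ∨ g = MM := hg
    rcases hg' with rfl | rfl
    · exact Or.inl ⟨rfl, th_one hg⟩
    · exact Or.inr ⟨rfl, th_MM hg⟩
  have hM : MM ∈ Gam := Or.inr rfl
  obtain ⟨T, -, -, hT⟩ := h 2 (Fin 4) G4 (conf 0 0) Gam th
    (by
      intro g
      rcases cs g with ⟨-, e⟩ | ⟨-, e⟩
      · rw [e]; simp
      · rw [e]; decide)
    (by
      intro g i
      rcases cs g with ⟨e1, e⟩ | ⟨e1, e⟩
      · rw [e, e1]; simp
      · rw [e, e1]
        ext k
        fin_cases i <;> fin_cases k <;>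
          simp [sg, MM, rig_apply, conf, Equiv.swap_apply_def] <;> norm_num)
    (fun t => conf (pa (t / 4)) (pb (t / 4)))
    (conf_cont.comp (continuous_id.div_const 4)).continuousOn
    (by simp [pa_zero, pb_zero])
    (fun t ht => edge_conf (rel_q ht))
    (by
      intro i j s hs t ht hst
      have := par_mono (s := s / 4) (t := t / 4) (by linarith [hs.1]) (by linarith)
        (by linarith [ht.2])
      refine (pow_le_pow_iff_left₀ dist_nonneg dist_nonneg two_ne_zero).mp ?_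
      rw [conf_dist (rel_q hs), conf_dist (rel_q ht)]
      exact DM_mono this.1 this.2 i j)
    (by
      by_contra hc
      push Not at hc
      have e1 : al (conf (pa (1 / 4)) (pb (1 / 4))) = al (conf 0 0) := by
        simp only [al, hc 1 one 1 3]
      have e2 : be (conf (pa (1 / 4)) (pb (1 / 4))) = be (conf 0 0) := by
        simp only [be, hc 1 one 0 2]
      rw [al_conf (rel_q one), al_conf rel_zero] at e1
      rw [be_conf (rel_q one), be_conf rel_zero] at e2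
      exact ne1 (e1.trans e2.symm))
    (by
      intro s hs t ht e
      have e1 : al (conf (pa (s / 4)) (pb (s / 4))) + be (conf (pa (s / 4)) (pb (s / 4))) =
          al (conf (pa (t / 4)) (pb (t / 4))) + be (conf (pa (t / 4)) (pb (t / 4))) :=
        congrArg (fun x => alq x + beq x) e
      rw [al_conf (rel_q hs), be_conf (rel_q hs), al_conf (rel_q ht), be_conf (rel_q ht),
        pa_add, pa_add, abs_of_nonneg (by linarith [hs.1]),
        abs_of_nonneg (by linarith [ht.1])] at e1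
      linarith)
    ⟨OO, OO_open, hom, ⟨1 / 2, by norm_num, by norm_num⟩,
      by rw [hom_symm]; simp [pa_zero, pb_zero],
      Or.inl fun t ht => ⟨⟨t / 4 + 1 / 2, by linarith [ht.1], by linarith [ht.2]⟩,
        by rw [hom_symm]; simp, by simp only; linarith [ht.1]⟩⟩
  have k0 := hT 1 one ⟨MM, hM⟩ 0
  have k2 := hT 1 one ⟨MM, hM⟩ 2
  rw [th_MM] at k0 k2
  have s0 : sg 0 = 1 := by decide
  have s2 : sg 2 = 3 := by decide
  rw [s0] at k0
  rw [s2] at k2
  have : al (conf (pa (1 / 4)) (pb (1 / 4))) = be (conf (pa (1 / 4)) (pb (1 / 4))) := by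
    rw [al, be, ← (T 1).dist_eq, ← k0, ← k2, IsometryEquiv.dist_eq, IsometryEquiv.dist_eq]
  rw [al_conf (rel_q one), be_conf (rel_q one)] at this
  exact ne1 this

end Pool.Agent.S12060
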