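import Pool.Statements.S12088
import Pool.Agent.H29.Corona

set_option autoImplicit false
open Pool Pool.MP_e4c5f9_co

namespace Pool.Agent.S12088

theorem result :
    ¬ (∀ (V : Type) [Fintype V] (G : SimpleGraph V),
      (∀ v : V, ∃ w : V, G.Adj v w) →
      (∀ s t : Finset V,
        (G.IsIndepSet (s : Set V) ∧ ∀ v : V, v ∉ s → ¬ G.IsIndepSet (insert v (s : Set V))) →
        (G.IsIndepSet (t : Set V) ∧ ∀ v : V, v ∉ t → ¬ G.IsIndepSet (insert v (t : Set V))) →
        s.card = t.card) →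
      (∃ s : Finset V, G.IsIndepSet (s : Set V) ∧
        (∀ v : V, v ∉ s → ¬ G.IsIndepSet (insert v (s : Set V))) ∧
        2 * s.card = Fintype.card V) →
      ∀ k : ℕ, 1 ≤ k →
        {s : Finset V | G.IsIndepSet (s : Set V) ∧ s.card = k - 1}.ncard *
          {s : Finset V | G.IsIndepSet (s : Set V) ∧ s.card = k + 1}.ncard ≤
          {s : Finset V | G.IsIndepSet (s : Set V) ∧ s.card = k}.ncard ^ 2) := by
  intro h
  have hd := Pool.Agent.H29.Corona.dip
  obtain ⟨s, hs⟩ := (Pool.Agent.H29.Corona.cor (Pool.Agent.H29.Corona.jn 707 160 (9 + 1))).exists_isNIndepSet_indepNum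
  have hmax : ∀ v, v ∉ s → ¬ (Pool.Agent.H29.Corona.cor (Pool.Agent.H29.Corona.jn 707 160 (9 + 1))).IsIndepSet
      (insert v (s : Set _)) := by
    classical
    intro v hv hi
    have h1 : (Pool.Agent.H29.Corona.cor (Pool.Agent.H29.Corona.jn 707 160 (9 + 1))).IsIndepSet
      ((insert v s : Finset _) : Set _) := by simpa using hi
    have h2 := h1.card_le_indepNum
    rw [Finset.card_insert_of_notMem hv, hs.card_eq] at h2
    omega
  have := h _ (Pool.Agent.H29.Corona.cor (Pool.Agent.H29.Corona.jn 707 160 (9 + 1)))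
    (Pool.Agent.H29.Corona.cor_noiso _)
    (fun s t hs ht => by
      rw [Pool.Agent.H29.Corona.cor_max _ s hs.1 hs.2, Pool.Agent.H29.Corona.cor_max _ t ht.1 ht.2])
    ⟨s, hs.isIndepSet, hmax, by
      rw [Pool.Agent.H29.Corona.cor_max _ s hs.isIndepSet hmax]; simp⟩ 1248 (by norm_num)
  change Pool.Agent.H29.Corona.cnt _ 1247 * Pool.Agent.H29.Corona.cnt _ 1249 ≤
    Pool.Agent.H29.Corona.cnt _ 1248 ^ 2 at this
  have h3 := Nat.mul_lt_mul'' hd.1 hd.2
  rw [← sq] at h3
  omega

end Pool.Agent.S12088
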