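import Pool.Statements.S12093
-- import your own Pool.Agent.* helpers here

set_option autoImplicit false
open Pool Pool.MP_e5126b_co

namespace Pool.Agent.S12093

theorem conj_bij {G : Type} [Group G] [Fintype G] (h : Odd (Fintype.card G)) (x : G) :
    Function.Bijective (fun g : G => g * x⁻¹ * g) := by
  have hc : (Nat.card G).Coprime 2 := by
    rw [Nat.card_eq_fintype_card]; exact Nat.coprime_two_right.2 h
  rw [← Finite.injective_iff_bijective]
  intro a b hab
  have h1 : (a * x⁻¹) ^ 2 = (b * x⁻¹) ^ 2 := by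
    have : a * x⁻¹ * a = b * x⁻¹ * b := hab
    rw [sq, sq, ← mul_assoc, ← mul_assoc, this]
  have h2 : a * x⁻¹ = b * x⁻¹ := (powCoprime hc).injective h1
  exact mul_right_cancel h2

theorem even_erase {G : Type} [Group G] [Fintype G] [DecidableEq G] (h : Odd (Fintype.card G))
    (A : Finset G) (g : G) (hA : ∀ x ∈ A, g * x⁻¹ * g ∈ A) : Even (A.erase g).card := by
  have hfix : ∀ x : G, g * x⁻¹ * g = x → x = g := by
    intro x hx
    apply (conj_bij h x).1
    simp [hx]
  have : ∑ _x ∈ A.erase g, (1 : ZMod 2) = 0 := by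
    refine Finset.sum_involution (fun x _ => g * x⁻¹ * g) (fun _ _ => by decide) ?_ ?_ ?_
    · intro x hx _ hh
      exact (Finset.mem_erase.1 hx).1 (hfix x hh)
    · intro x hx
      rw [Finset.mem_erase] at hx ⊢
      refine ⟨fun hh => hx.1 ?_, hA x hx.2⟩
      have : g * x⁻¹ = 1 := by simpa using hh
      exact (mul_inv_eq_one.1 this).symm
    · intro x _
      group
  rw [Finset.sum_const, nsmul_eq_mul, mul_one] at this
  exact (ZMod.natCast_eq_zero_iff_even).1 this


/-- For every finite group of odd order, every r > 1 and every r-coloring, some one-colored set A with A = gA⁻¹g for some g has more than ∣G∣/r² elements. -/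
theorem result :
    ∀ (G : Type) [Group G] [Fintype G], Odd (Fintype.card G) →
      ∀ r : ℕ, 1 < r → ∀ χ : G → Fin r,
        ∃ (A : Finset G) (g : G) (c : Fin r),
          (∀ a ∈ A, χ a = c) ∧
          (∀ x : G, x ∈ A ↔ g * x⁻¹ * g ∈ A) ∧
          (1 : ℝ) / ((r : ℝ) ^ 2) < (A.card : ℝ) / (Fintype.card G : ℝ) := by
  intro G _ _ hodd r hr χ
  classical
  by_contra hcon
  push Not at hcon
  set n := Fintype.card G with hn
  have hn0 : 0 < n := Fintype.card_pos
  let A : G → Fin r → Finset G := fun g c =>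
    Finset.univ.filter (fun x => χ x = c ∧ χ (g * x⁻¹ * g) = c)
  let C : Fin r → Finset G := fun c => Finset.univ.filter (fun x => χ x = c)
  have hsym : ∀ g c x, x ∈ A g c ↔ g * x⁻¹ * g ∈ A g c := by
    intro g c x
    have : g * (g * x⁻¹ * g)⁻¹ * g = x := by group
    simp only [A, Finset.mem_filter, Finset.mem_univ, true_and, this]
    exact and_comm
  have hle : ∀ g c, r ^ 2 * (A g c).card ≤ n := by
    intro g c
    have h1 := hcon (A g c) g c (fun a ha => (Finset.mem_filter.1 ha).2.1) (hsym g c)
    have hr' : (0 : ℝ) < (r : ℝ) ^ 2 := by positivity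
    have hn' : (0 : ℝ) < n := by exact_mod_cast hn0
    rw [div_le_div_iff₀ hn' hr'] at h1
    have : ((r ^ 2 * (A g c).card : ℕ) : ℝ) ≤ n := by push_cast; linarith
    exact_mod_cast this
  have hsum : ∀ c, ∑ g, (A g c).card = (C c).card ^ 2 := by
    intro c
    simp only [A, Finset.card_filter]
    rw [Finset.sum_comm]
    have : ∀ x : G, (∑ g : G, if χ x = c ∧ χ (g * x⁻¹ * g) = c then 1 else 0) =
        if χ x = c then (C c).card else 0 := by
      intro x
      split_ifs with hx
      · simp only [hx, true_and, C, Finset.card_filter]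
        exact (conj_bij hodd x).sum_comp (fun y => if χ y = c then 1 else 0)
      · simp [hx]
    simp only [this]
    rw [← Finset.sum_filter, Finset.sum_const, smul_eq_mul, sq]
  have htot : ∑ c, (C c).card = n := by
    rw [hn, ← Finset.card_univ]
    exact (Finset.card_eq_sum_card_fiberwise (fun x _ => Finset.mem_univ (χ x))).symm
  obtain ⟨c, hc⟩ : ∃ c, n ≤ r * (C c).card := by
    by_contra hh
    push Not at hh
    have : Nonempty (Fin r) := ⟨⟨0, by omega⟩⟩
    have h1 : ∑ c, r * (C c).card < ∑ _c : Fin r, n :=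
      Finset.sum_lt_sum_of_nonempty Finset.univ_nonempty (fun c _ => hh c)
    rw [← Finset.mul_sum, htot] at h1
    simp at h1
  have h1 : ∑ g, r ^ 2 * (A g c).card = (r * (C c).card) ^ 2 := by
    rw [← Finset.mul_sum, hsum, mul_pow]
  have h2 : ∑ _g : G, n = n ^ 2 := by simp [sq, hn]
  have h3 : ∑ g, r ^ 2 * (A g c).card ≤ ∑ _g : G, n := Finset.sum_le_sum (fun g _ => hle g c)
  have h4 : n ^ 2 ≤ (r * (C c).card) ^ 2 := Nat.pow_le_pow_left hc 2
  have h5 : ∑ g, r ^ 2 * (A g c).card = ∑ _g : G, n := by omega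
  have h6 := (Finset.sum_eq_sum_iff_of_le (fun g _ => hle g c)).1 h5
  have h7 : r * (C c).card = n := by
    have : (r * (C c).card) ^ 2 = n ^ 2 := by omega
    exact Nat.pow_left_injective (by norm_num) this
  have hpos : 0 < (C c).card := by
    rcases Nat.eq_zero_or_pos (C c).card with h | h
    · rw [h] at h7; omega
    · exact h
  obtain ⟨g, hg⟩ := Finset.card_pos.1 hpos
  obtain ⟨g', hg'⟩ : ∃ g', g' ∉ C c := by
    by_contra hh
    push Not at hh
    have : (C c).card = n := by rw [Finset.eq_univ_of_forall hh]; rfl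
    rw [this] at h7
    nlinarith
  have e1 := even_erase hodd (A g c) g (fun x hx => (hsym g c x).1 hx)
  have e2 := even_erase hodd (A g' c) g' (fun x hx => (hsym g' c x).1 hx)
  have m1 : g ∈ A g c := by
    have := (Finset.mem_filter.1 hg).2
    simp [A, this]
  have m2 : g' ∉ A g' c := fun h => hg' (by
    simp only [C, Finset.mem_filter, Finset.mem_univ, true_and]
    exact (Finset.mem_filter.1 h).2.1)
  rw [Finset.erase_eq_of_notMem m2] at e2
  have e3 := Finset.card_erase_add_one m1
  have e4 : (A g c).card = (A g' c).card := by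
    have := (h6 g (Finset.mem_univ _)).trans (h6 g' (Finset.mem_univ _)).symm
    exact Nat.eq_of_mul_eq_mul_left (by positivity) this
  obtain ⟨a, ha⟩ := e1
  obtain ⟨b, hb⟩ := e2
  omega

end Pool.Agent.S12093
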