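import Pool.Statements.S12106
-- import your own Pool.Agent.* helpers here

set_option autoImplicit false
open Pool Pool.MP_e67bad_co

namespace Pool.Agent.S12106

def A : Fin 4 → ℤ := ![8, 15, 24, 21]

lemma cast_iff (x : Fin 4 → ℤ) :
    (∑ i, ((A i : ℤ) : ℝ) * (x i : ℝ) = 0) ↔ (∑ i, A i * x i = 0) := by
  have : (∑ i, ((A i : ℤ) : ℝ) * (x i : ℝ)) = ((∑ i, A i * x i : ℤ) : ℝ) := by push_cast; rfl
  rw [this]; exact Int.cast_eq_zero

lemma small : ∀ a ∈ Finset.Icc (-2 : ℤ) 2, ∀ b ∈ Finset.Icc (-2 : ℤ) 2, ∀ c ∈ Finset.Icc (-2 : ℤ) 2,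
    ∀ d ∈ Finset.Icc (-2 : ℤ) 2, 8 * a + 15 * b + 24 * c + 21 * d = 0 →
      a = 0 ∧ b = 0 ∧ c = 0 ∧ d = 0 := by decide +kernel

lemma big : ((Fintype.piFinset fun _ : Fin 4 => Finset.Icc (-3 : ℤ) 3).filter
    (fun x => ∑ i, A i * x i = 0)).card = 19 := by decide +kernel

/-- The negation of the preceding statement: For k≥2 and n≥1, over nonzero real a where no nonzero integer vector with entries in [-k,k] satisfies a·x=0, the max number of integer x with entries in [-(k+1),k+1] and a·x=0 is ((1+√2)^n+(1-√2)^n)/2. -/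
theorem result :
    ¬ (∀ k : ℕ, 2 ≤ k → ∀ n : ℕ, 1 ≤ n →
      (∃ a : Fin n → ℝ, a ≠ 0 ∧
          (∀ x : Fin n → ℤ, (∀ i, |x i| ≤ (k : ℤ)) →
              ∑ i, a i * (x i : ℝ) = 0 → x = 0) ∧
          (((Fintype.piFinset fun _ : Fin n => Finset.Icc (-((k : ℤ) + 1)) ((k : ℤ) + 1)).filter
              (fun x => ∑ i, a i * (x i : ℝ) = 0)).card : ℝ)
            = ((1 + Real.sqrt 2) ^ n + (1 - Real.sqrt 2) ^ n) / 2) ∧
      (∀ a : Fin n → ℝ, a ≠ 0 →
          (∀ x : Fin n → ℤ, (∀ i, |x i| ≤ (k : ℤ)) →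
              ∑ i, a i * (x i : ℝ) = 0 → x = 0) →
          (((Fintype.piFinset fun _ : Fin n => Finset.Icc (-((k : ℤ) + 1)) ((k : ℤ) + 1)).filter
              (fun x => ∑ i, a i * (x i : ℝ) = 0)).card : ℝ)
            ≤ ((1 + Real.sqrt 2) ^ n + (1 - Real.sqrt 2) ^ n) / 2)) := by
  intro h
  have h1 := (h 2 le_rfl 4 (by norm_num)).2 (fun i => ((A i : ℤ) : ℝ))
    (by
      intro h0
      have := congrFun h0 0
      simp [A] at this)
    (by
      intro x hx hs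
      rw [cast_iff] at hs
      have m : ∀ i, x i ∈ Finset.Icc (-2 : ℤ) 2 := fun i => by
        have := abs_le.1 (hx i)
        simpa using this
      obtain ⟨h0, h1, h2, h3⟩ := small _ (m 0) _ (m 1) _ (m 2) _ (m 3)
        (by simpa [Fin.sum_univ_four, A] using hs)
      funext i
      fin_cases i <;> simp [h0, h1, h2, h3])
  have e : ((Fintype.piFinset fun _ : Fin 4 => Finset.Icc (-(((2 : ℕ) : ℤ) + 1)) (((2 : ℕ) : ℤ) + 1)).filter
      (fun x => ∑ i, ((A i : ℤ) : ℝ) * (x i : ℝ) = 0)).card = 19 := by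
    rw [← big]
    congr 1
    ext x
    simp only [Finset.mem_filter, cast_iff]
    norm_num
  have hs : Real.sqrt 2 ^ 2 = 2 := Real.sq_sqrt (by norm_num)
  have e2 : ((1 + Real.sqrt 2) ^ 4 + (1 - Real.sqrt 2) ^ 4) / 2 = 17 := by
    have : ((1 + Real.sqrt 2) ^ 4 + (1 - Real.sqrt 2) ^ 4) / 2 =
      1 + 6 * Real.sqrt 2 ^ 2 + (Real.sqrt 2 ^ 2) ^ 2 := by ring
    rw [this, hs]; norm_num
  rw [e2] at h1
  have h2 : ((19 : ℕ) : ℝ) ≤ 17 := by
    rw [← e]
    convert h1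
  norm_num at h2

end Pool.Agent.S12106
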