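import Pool.Statements.S12180
import Pool.Agent.H28.BSData

set_option autoImplicit false
open Pool Pool.MP_e962e1_co

namespace Pool.Agent.S12180
open Pool.Agent.H28.BSData

def vec (x : ℕ) : Fin 6 → ZMod 2 := fun i => if x.testBit i then 1 else 0

lemma vec_xor (x y : ℕ) : vec (x ^^^ y) = vec x + vec y := by
  funext i
  simp only [vec, Nat.testBit_xor, Pi.add_apply]
  cases x.testBit i <;> cases y.testBit i <;> decide

lemma vec_zero' : ∀ x : Fin 64, vec x = 0 → x.val = 0 := by decide +kernel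

lemma zmod_cases : ∀ c : ZMod 2, c = 0 ∨ c = 1 := by decide

lemma add_self' (v : Fin 6 → ZMod 2) : v + v = 0 := by
  funext i
  simp only [Pi.add_apply, Pi.zero_apply]
  rcases zmod_cases (v i) with h | h <;> rw [h] <;> decide

lemma xor_lt {x y : ℕ} (hx : x < 64) (hy : y < 64) : x ^^^ y < 64 :=
  Nat.xor_lt_two_pow (n := 6) hx hy

lemma vec_inj {x y : ℕ} (hx : x < 64) (hy : y < 64) (h : vec x = vec y) : x = y := by
  have h1 : vec (x ^^^ y) = 0 := by rw [vec_xor, h, add_self']
  have h2 := vec_zero' ⟨x ^^^ y, xor_lt hx hy⟩ h1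
  exact Nat.eq_of_xor_eq_zero h2

noncomputable def F (T : Finset (Fin 6 → ZMod 2)) (U : Submodule (ZMod 2) (Fin 6 → ZMod 2)) :
    Polynomial ℤ :=
  ∑ X ∈ T.powerset, (-1 : Polynomial ℤ) ^ X.card *
    Polynomial.X ^ (6 - Module.finrank (ZMod 2)
      ↥(U ⊔ Submodule.span (ZMod 2) (X : Set (Fin 6 → ZMod 2))))

lemma F_insert (T : Finset (Fin 6 → ZMod 2)) (U : Submodule (ZMod 2) (Fin 6 → ZMod 2))
    (a : Fin 6 → ZMod 2) (ha : a ∉ T) :
    F (insert a T) U = F T U - F T (U ⊔ Submodule.span (ZMod 2) {a}) := by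
  unfold F
  rw [Finset.sum_powerset_insert ha, sub_eq_add_neg, ← Finset.sum_neg_distrib]
  congr 1
  refine Finset.sum_congr rfl fun X hX => ?_
  have hX' : a ∉ X := fun h => ha (Finset.mem_powerset.1 hX h)
  rw [Finset.card_insert_of_notMem hX', Finset.coe_insert, Submodule.span_insert, ← sup_assoc,
    pow_succ]
  ring

lemma rank_sup (U : Submodule (ZMod 2) (Fin 6 → ZMod 2)) (a : Fin 6 → ZMod 2) (ha : a ∉ U) :
    Module.finrank (ZMod 2) ↥(U ⊔ Submodule.span (ZMod 2) {a}) =
      Module.finrank (ZMod 2) ↥U + 1 := by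
  have h0 : a ≠ 0 := fun h => ha (h ▸ U.zero_mem)
  have h1 := Submodule.finrank_sup_add_finrank_inf_eq U (Submodule.span (ZMod 2) {a})
  have h2 : U ⊓ Submodule.span (ZMod 2) {a} = ⊥ := by
    rw [eq_bot_iff]
    intro x hx
    obtain ⟨c, rfl⟩ := Submodule.mem_span_singleton.1 hx.2
    rcases zmod_cases c with h | h
    · simp [h]
    · exfalso
      apply ha
      simpa [h] using hx.1
  rw [h2, finrank_bot, finrank_span_singleton h0] at h1
  omega

lemma rank_le (U : Submodule (ZMod 2) (Fin 6 → ZMod 2)) : Module.finrank (ZMod 2) ↥U ≤ 6 := by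
  have := Submodule.finrank_le U
  simpa using this

lemma main (L : List ℕ) : ∀ (l : List ℕ) (U : Submodule (ZMod 2) (Fin 6 → ZMod 2)) (r : ℕ),
    L.Nodup → (∀ a ∈ L, a < 64) → (∀ a ∈ l, a < 64) →
    (∀ x, x ∈ U ↔ ∃ a ∈ l, vec a = x) → Module.finrank (ZMod 2) ↥U = r →
    F (L.map vec).toFinset U =
      ∑ k ∈ Finset.range 7, Polynomial.C (g k L l r) * Polynomial.X ^ (6 - k) := by
  induction L with
  | nil =>
    intro l U r _ _ _ _ hr
    have h6 := rank_le U
    have e : F (([] : List ℕ).map vec).toFinset U = Polynomial.X ^ (6 - r) := by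
      unfold F
      simp only [List.map_nil, List.toFinset_nil, Finset.powerset_empty, Finset.sum_singleton,
        Finset.card_empty, pow_zero, one_mul]
      rw [Finset.coe_empty, Submodule.span_empty, sup_bot_eq, hr]
    rw [e, Finset.sum_eq_single r]
    · simp [g]
    · intro b _ hb
      simp [g, Ne.symm hb]
    · intro h
      exact absurd (Finset.mem_range.2 (by omega)) h
  | cons v L ih =>
    intro l U r hn hL hl hU hr
    have hv : v < 64 := hL v (by simp)
    have hL' : ∀ a ∈ L, a < 64 := fun a h => hL a (by simp [h])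
    have hn' := List.nodup_cons.1 hn
    have hnot : vec v ∉ (L.map vec).toFinset := by
      intro h
      obtain ⟨a, ha, e⟩ := List.mem_map.1 (List.mem_toFinset.1 h)
      exact hn'.1 (vec_inj (hL' a ha) hv e ▸ ha)
    rw [List.map_cons, List.toFinset_cons, F_insert _ _ _ hnot]
    by_cases hm : v ∈ l
    · have hvU : vec v ∈ U := (hU _).2 ⟨v, hm, rfl⟩
      have : U ⊔ Submodule.span (ZMod 2) {vec v} = U :=
        sup_eq_left.2 ((Submodule.span_singleton_le_iff_mem _ _).2 hvU)
      rw [this, sub_self]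
      simp [g, hm]
    · have hvU : vec v ∉ U := by
        intro h
        obtain ⟨a, ha, e⟩ := (hU _).1 h
        exact hm (vec_inj (hl a ha) hv e ▸ ha)
      rw [ih l U r hn'.2 hL' hl hU hr,
        ih (l ++ l.map (fun a => a ^^^ v)) _ (r + 1) hn'.2 hL' ?_ ?_ (by rw [rank_sup U _ hvU, hr]),
        ← Finset.sum_sub_distrib]
      · refine Finset.sum_congr rfl fun k _ => ?_
        have : g k (v :: L) l r = g k L l r - g k L (l ++ l.map (fun a => a ^^^ v)) (r + 1) := by
          simp [g, hm]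
        rw [this, map_sub, sub_mul]
      · intro a ha
        rcases List.mem_append.1 ha with h | h
        · exact hl a h
        · obtain ⟨b, hb, rfl⟩ := List.mem_map.1 h
          exact xor_lt (hl b hb) hv
      · intro x
        constructor
        · intro hx
          obtain ⟨u, hu, w, hw, rfl⟩ := Submodule.mem_sup.1 hx
          obtain ⟨c, rfl⟩ := Submodule.mem_span_singleton.1 hw
          obtain ⟨a, ha, rfl⟩ := (hU u).1 hu
          rcases zmod_cases c with h | h
          · exact ⟨a, List.mem_append_left _ ha, by simp [h]⟩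
          · exact ⟨a ^^^ v, List.mem_append_right _ (List.mem_map.2 ⟨a, ha, rfl⟩),
              by simp [h, vec_xor]⟩
        · rintro ⟨a, ha, rfl⟩
          rcases List.mem_append.1 ha with h | h
          · exact Submodule.mem_sup_left ((hU _).2 ⟨a, h, rfl⟩)
          · obtain ⟨b, hb, rfl⟩ := List.mem_map.1 h
            rw [vec_xor]
            exact Submodule.add_mem _ (Submodule.mem_sup_left ((hU _).2 ⟨b, hb, rfl⟩))
              (Submodule.mem_sup_right (Submodule.mem_span_singleton_self _))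

lemma L0_lt : ∀ a ∈ L0, a < 64 := by decide

lemma vec0 : vec 0 = 0 := by decide

def dot (p : ℕ) (c0 c1 c2 c3 c4 c5 : ZMod 2) : ZMod 2 :=
  vec p 0 * c0 + vec p 1 * c1 + vec p 2 * c2 + vec p 3 * c3 + vec p 4 * c4 + vec p 5 * c5

def chk (c0 c1 c2 c3 c4 c5 : ZMod 2) : Bool :=
  (decide (c0 = 0) && decide (c1 = 0) && decide (c2 = 0) && decide (c3 = 0) &&
    decide (c4 = 0) && decide (c5 = 0)) ||
  L0.any fun p => !decide (dot p c0 c1 c2 c3 c4 c5 = 0) &&
    L0.any fun q => !decide (p = q) && !(L0.elem (p ^^^ q)) &&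
      !decide (dot q c0 c1 c2 c3 c4 c5 = 0)

lemma chk_all : ∀ c0 c1 c2 c3 c4 c5 : ZMod 2, chk c0 c1 c2 c3 c4 c5 = true := by
  decide +kernel

lemma key (c0 c1 c2 c3 c4 c5 : ZMod 2) :
    (c0 = 0 ∧ c1 = 0 ∧ c2 = 0 ∧ c3 = 0 ∧ c4 = 0 ∧ c5 = 0) ∨
    ∃ p ∈ L0, vec p 0 * c0 + vec p 1 * c1 + vec p 2 * c2 + vec p 3 * c3 + vec p 4 * c4 +
        vec p 5 * c5 ≠ 0 ∧
      ∃ q ∈ L0, vec q 0 * c0 + vec q 1 * c1 + vec q 2 * c2 + vec q 3 * c3 + vec q 4 * c4 +
        vec q 5 * c5 ≠ 0 ∧ p ≠ q ∧ (p ^^^ q) ∉ L0 := by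
  have h := chk_all c0 c1 c2 c3 c4 c5
  unfold chk at h
  rw [Bool.or_eq_true] at h
  rcases h with h | h
  · left
    simp only [Bool.and_eq_true, decide_eq_true_eq] at h
    tauto
  · right
    obtain ⟨p, hp, h⟩ := List.any_eq_true.1 h
    rw [Bool.and_eq_true] at h
    obtain ⟨q, hq, h2⟩ := List.any_eq_true.1 h.2
    have h1 := h.1
    simp only [Bool.and_eq_true, Bool.not_eq_true', decide_eq_false_iff_not] at h1 h2
    refine ⟨p, hp, h1, q, hq, h2.2, h2.1.1, fun hm => ?_⟩
    have h3 := h2.1.2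
    rw [List.elem_eq_true_of_mem hm] at h3
    exact absurd h3 (by decide)

lemma span_top : Submodule.span (ZMod 2)
    (((L0.map vec).toFinset : Finset (Fin 6 → ZMod 2)) : Set (Fin 6 → ZMod 2)) = ⊤ := by
  rw [eq_top_iff, ← (Pi.basisFun (ZMod 2) (Fin 6)).span_eq]
  apply Submodule.span_mono
  rintro _ ⟨i, rfl⟩
  rw [Pi.basisFun_apply, Finset.mem_coe, List.mem_toFinset]
  revert i
  decide +kernel

lemma zero_not : (0 : Fin 6 → ZMod 2) ∉ (L0.map vec).toFinset := by
  rw [List.mem_toFinset]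
  decide +kernel

/-- The negation of the preceding statement: For any finite set S of nonzero vectors over GF(2), if its matroid's characteristic polynomial equals (x−1)(x−2)⋯(x−n), then there is a maximal chain of flats of ranks 0,1,…,n, each modular, ending at span S; that is, the matroid is supersolvable. -/
theorem result :
    ¬ (∀ (m : ℕ) (S : Finset (Fin m → ZMod 2)), (0 : Fin m → ZMod 2) ∉ S →
    ∀ n : ℕ,
      (∑ X ∈ S.powerset, (-1 : Polynomial ℤ) ^ X.card *
          Polynomial.X ^ (Module.finrank (ZMod 2)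
              ↥(Submodule.span (ZMod 2) (S : Set (Fin m → ZMod 2))) -
            Module.finrank (ZMod 2)
              ↥(Submodule.span (ZMod 2) (X : Set (Fin m → ZMod 2)))))
        = ∏ i ∈ Finset.range n, (Polynomial.X - Polynomial.C ((i : ℤ) + 1)) →
      ∃ W : ℕ → Submodule (ZMod 2) (Fin m → ZMod 2),
        (∀ i, i ≤ n → Module.finrank (ZMod 2) ↥(W i) = i) ∧
        (∀ i, i < n → W i ≤ W (i + 1)) ∧
        W n = Submodule.span (ZMod 2) (S : Set (Fin m → ZMod 2)) ∧
        (∀ i, i ≤ n →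
          Submodule.span (ZMod 2)
            ((S : Set (Fin m → ZMod 2)) ∩ (W i : Set (Fin m → ZMod 2))) = W i) ∧
        (∀ i, i ≤ n → ∀ U : Submodule (ZMod 2) (Fin m → ZMod 2),
          Submodule.span (ZMod 2)
            ((S : Set (Fin m → ZMod 2)) ∩ (U : Set (Fin m → ZMod 2))) = U →
          Module.finrank (ZMod 2) ↥(W i) + Module.finrank (ZMod 2) ↥U =
            Module.finrank (ZMod 2) ↥(W i ⊔ U) +
            Module.finrank (ZMod 2)
              ↥(Submodule.span (ZMod 2)
                ((S : Set (Fin m → ZMod 2)) ∩ (W i : Set (Fin m → ZMod 2)) ∩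
                  (U : Set (Fin m → ZMod 2)))))) := by
  intro h
  obtain ⟨W, h1, -, -, -, h5⟩ := h 6 (L0.map vec).toFinset zero_not 6 (by
    have e := main L0 [0] ⊥ 0 (by decide) L0_lt (by decide)
      (by intro x; simp [vec0, eq_comm]) (finrank_bot _ _)
    unfold F at e
    rw [span_top, finrank_top, Module.finrank_fin_fun]
    refine Eq.trans (Finset.sum_congr rfl fun X _ => ?_) (e.trans ?_)
    · rw [bot_sup_eq]
    simp only [Finset.sum_range_succ, Finset.prod_range_succ, Finset.range_zero,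
      Finset.sum_empty, Finset.prod_empty, g0, g1, g2, g3, g4, g5, g6, map_add, map_neg,
      map_natCast, map_one, map_ofNat]
    push_cast
    ring)
  have hW := h1 5 (by norm_num)
  have hlt : W 5 < ⊤ := by
    rw [lt_top_iff_ne_top]
    intro e
    rw [e, finrank_top, Module.finrank_fin_fun] at hW
    omega
  obtain ⟨f, hf0, hf⟩ := Submodule.exists_le_ker_of_lt_top _ hlt
  have hfx : ∀ x, f x = x 0 * f (fun j => if 0 = j then 1 else 0) +
      x 1 * f (fun j => if 1 = j then 1 else 0) + x 2 * f (fun j => if 2 = j then 1 else 0) +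
      x 3 * f (fun j => if 3 = j then 1 else 0) + x 4 * f (fun j => if 4 = j then 1 else 0) +
      x 5 * f (fun j => if 5 = j then 1 else 0) := by
    intro x
    rw [LinearMap.pi_apply_eq_sum_univ f x, Fin.sum_univ_six]
    rfl
  rcases key (f (fun j => if 0 = j then 1 else 0)) (f (fun j => if 1 = j then 1 else 0))
    (f (fun j => if 2 = j then 1 else 0)) (f (fun j => if 3 = j then 1 else 0))
    (f (fun j => if 4 = j then 1 else 0)) (f (fun j => if 5 = j then 1 else 0)) with
    ⟨a0, a1, a2, a3, a4, a5⟩ | ⟨p, hp, hp', q, hq, hq', hpq, hx⟩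
  · apply hf0
    apply LinearMap.ext
    intro x
    rw [hfx x, a0, a1, a2, a3, a4, a5]
    simp
  rw [← hfx] at hp' hq'
  have hpS : vec p ∈ (L0.map vec).toFinset := List.mem_toFinset.2 (List.mem_map_of_mem hp)
  have hqS : vec q ∈ (L0.map vec).toFinset := List.mem_toFinset.2 (List.mem_map_of_mem hq)
  have hp0 : vec p ≠ 0 := fun e => zero_not (e ▸ hpS)
  have hq0 : vec q ≠ 0 := fun e => zero_not (e ▸ hqS)
  have hqp : vec q ∉ Submodule.span (ZMod 2) {vec p} := by
    intro hh
    obtain ⟨c, hc⟩ := Submodule.mem_span_singleton.1 hh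
    rcases zmod_cases c with e | e
    · apply hq0
      rw [← hc, e, zero_smul]
    · apply hpq
      apply vec_inj (L0_lt p hp) (L0_lt q hq)
      rw [← hc, e, one_smul]
  have hr := rank_sup _ _ hqp
  rw [finrank_span_singleton hp0] at hr
  have h6 := h5 5 (by norm_num)
    (Submodule.span (ZMod 2) {vec p} ⊔ Submodule.span (ZMod 2) {vec q}) (by
      apply le_antisymm
      · exact Submodule.span_le.2 Set.inter_subset_right
      · apply sup_le <;> rw [Submodule.span_singleton_le_iff_mem] <;> apply Submodule.subset_span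
        · exact ⟨hpS, Submodule.mem_sup_left (Submodule.mem_span_singleton_self _)⟩
        · exact ⟨hqS, Submodule.mem_sup_right (Submodule.mem_span_singleton_self _)⟩)
  have hemp : ((((L0.map vec).toFinset : Finset (Fin 6 → ZMod 2)) : Set (Fin 6 → ZMod 2)) ∩
      (W 5 : Set (Fin 6 → ZMod 2)) ∩
      ((Submodule.span (ZMod 2) {vec p} ⊔ Submodule.span (ZMod 2) {vec q} :
        Submodule (ZMod 2) (Fin 6 → ZMod 2)) : Set (Fin 6 → ZMod 2))) = ∅ := by
    apply Set.eq_empty_of_forall_notMem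
    rintro x ⟨⟨hS, hWx⟩, hU⟩
    have hk : f x = 0 := hf hWx
    obtain ⟨u, hu, w, hw, rfl⟩ := Submodule.mem_sup.1 hU
    obtain ⟨c, rfl⟩ := Submodule.mem_span_singleton.1 hu
    obtain ⟨d, rfl⟩ := Submodule.mem_span_singleton.1 hw
    rcases zmod_cases c with e | e <;> rcases zmod_cases d with e' | e' <;>
      rw [e, e'] at hS hk
    · rw [zero_smul, zero_smul, add_zero] at hS
      exact zero_not hS
    · rw [zero_smul, one_smul, zero_add] at hk
      exact hq' hk
    · rw [zero_smul, one_smul, add_zero] at hk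
      exact hp' hk
    · rw [one_smul, one_smul, ← vec_xor] at hS
      obtain ⟨a, ha, e2⟩ := List.mem_map.1 (List.mem_toFinset.1 hS)
      exact hx (vec_inj (L0_lt a ha) (xor_lt (L0_lt p hp) (L0_lt q hq)) e2 ▸ ha)
  rw [hemp, Submodule.span_empty, finrank_bot, hW, hr] at h6
  have := rank_le (W 5 ⊔ (Submodule.span (ZMod 2) {vec p} ⊔ Submodule.span (ZMod 2) {vec q}))
  omega

end Pool.Agent.S12180
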