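import Pool.Statements.S12216

set_option autoImplicit false
open Pool Pool.MP_eaf560_co

namespace Pool.Agent.S12216

open Polynomial

/-- class of a vertex along the path 0-1-2-3-4-5, class sizes 1,6,7,7,6,1 -/
def cls (x : Fin 28) : ℕ :=
  if x.val < 1 then 0 else if x.val < 7 then 1 else if x.val < 14 then 2
  else if x.val < 21 then 3 else if x.val < 27 then 4 else 5

def G0 : SimpleGraph (Fin 28) where
  Adj x y := cls x + 1 = cls y ∨ cls y + 1 = cls x
  symm := ⟨fun _ _ h => h.symm⟩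
  loopless := ⟨fun _ h => by omega⟩

def hf (x : Fin 28) : ℕ := if cls x < 3 then cls x else 5 - cls x
def sg (x : Fin 28) : ℚ := if cls x < 3 then 1 else -1
def qs (a b : ℕ) : ℚ := if a + 1 = b ∨ b + 1 = a then 1 else 0
def qo (t : ℚ) (a b : ℕ) : ℚ := if a = 2 ∧ b = 2 then 1 else if a = 0 ∧ b = 0 then t else 0

def SS : Matrix (Fin 28) (Fin 3 ⊕ Fin 3) ℚ := fun x c =>
  match c with
  | Sum.inl c => if hf x = c.val then 1 else 0
  | Sum.inr c => if hf x = c.val then sg x else 0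

def TT (t : ℚ) : Matrix (Fin 3 ⊕ Fin 3) (Fin 28) ℚ := fun c y =>
  match c with
  | Sum.inl c => (qs c.val (hf y) + qo t c.val (hf y)) / 2
  | Sum.inr c => sg y * (qs c.val (hf y) - qo t c.val (hf y)) / 2

def A0 : Matrix (Fin 28) (Fin 28) ℚ := fun x y =>
  if cls x + 1 = cls y ∨ cls y + 1 = cls x then 1 else 0

def A1 : Matrix (Fin 28) (Fin 28) ℚ := fun x y =>
  if (cls x + 1 = cls y ∨ cls y + 1 = cls x) ∨ ((x = 0 ∧ y = 27) ∨ (x = 27 ∧ y = 0)) then 1 else 0

def MP (t : ℚ) : Matrix (Fin 3) (Fin 3) ℚ := !![t, 6, 0; 1, 0, 7; 0, 6, 7]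
def MN (t : ℚ) : Matrix (Fin 3) (Fin 3) ℚ := !![-t, 6, 0; 1, 0, 7; 0, 6, -7]

lemma A0_eq : A0 = SS * TT 0 := by
  decide +kernel

lemma A1_eq : A1 = SS * TT 1 := by
  decide +kernel

lemma B0_eq : TT 0 * SS = Matrix.fromBlocks (MP 0) 0 0 (MN 0) := by
  decide +kernel

lemma B1_eq : TT 1 * SS = Matrix.fromBlocks (MP 1) 0 0 (MN 1) := by
  decide +kernel

lemma cp_MP (t : ℚ) : (MP t).charpoly =
    (X - C t) * (X * (X - 7) - 42) - 6 * (X - 7) := by
  rw [Matrix.charpoly, Matrix.det_fin_three]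
  simp [MP, Matrix.charmatrix_apply, map_ofNat]
  ring

lemma cp_MN (t : ℚ) : (MN t).charpoly =
    (X + C t) * (X * (X + 7) - 42) - 6 * (X + 7) := by
  rw [Matrix.charpoly, Matrix.det_fin_three]
  simp [MN, Matrix.charmatrix_apply, map_ofNat]
  ring

lemma cp_A (t : ℚ) (h : TT t * SS = Matrix.fromBlocks (MP t) 0 0 (MN t)) :
    (SS * TT t).charpoly = X ^ 22 * (((X - C t) * (X * (X - 7) - 42) - 6 * (X - 7)) *
      ((X + C t) * (X * (X + 7) - 42) - 6 * (X + 7))) := by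
  rw [Matrix.charpoly_mul_comm_of_le _ _ (by simp), h, Matrix.charpoly_fromBlocks_zero₁₂,
    cp_MP, cp_MN]
  simp

lemma key (P : ℝ[X]) (a b c : ℝ) (ha : 0 < a) (hb : 0 < b) (hc : 0 < c)
    (hP : P = X ^ 22 * (((X - C a) * (X - C b) * (X + C c)) * ((X + C a) * (X + C b) * (X - C c)))) :
    ((P.roots.filter (fun x => 0 < x)).map (fun x => x ^ (3 : ℝ))).sum = a ^ 3 + b ^ 3 + c ^ 3 := by
  have h1 : P = (Multiset.map (fun r => X - C r)
      (Multiset.replicate 22 (0 : ℝ) + {a, b, -c, -a, -b, c})).prod := by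
    rw [hP, Multiset.map_add, Multiset.prod_add, Multiset.map_replicate, Multiset.prod_replicate]
    simp only [Multiset.insert_eq_cons, Multiset.map_cons, Multiset.prod_cons,
      Multiset.map_singleton, Multiset.prod_singleton, map_neg, map_zero, sub_zero]
    ring
  rw [h1, roots_multiset_prod_X_sub_C, Multiset.filter_add]
  have h2 : Multiset.filter (fun x : ℝ => 0 < x) (Multiset.replicate 22 (0 : ℝ)) = 0 := by
    rw [Multiset.filter_eq_nil]
    intro x hx
    rw [Multiset.eq_of_mem_replicate hx]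
    exact lt_irrefl _
  have na : ¬ (0 < -a) := by linarith
  have nb : ¬ (0 < -b) := by linarith
  have nc : ¬ (0 < -c) := by linarith
  rw [h2]
  simp only [Multiset.insert_eq_cons, zero_add]
  rw [Multiset.filter_cons_of_pos _ ha, Multiset.filter_cons_of_pos _ hb,
    Multiset.filter_cons_of_neg _ nc, Multiset.filter_cons_of_neg _ na,
    Multiset.filter_cons_of_neg _ nb, Multiset.filter_singleton, if_pos hc]
  simp only [Multiset.map_cons, Multiset.sum_cons, Multiset.map_singleton, Multiset.sum_singleton]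
  have e : ∀ x : ℝ, x ^ (3 : ℝ) = x ^ 3 := fun x => by
    have := Real.rpow_natCast x 3
    simpa using this
  rw [e, e, e]; ring

/-- factor a cubic with a known negative root -/
lemma fac (t c : ℝ) (ht : t = 0 ∨ t = 1) (hc4 : 4 < c) (hc5 : c < 5)
    (hr : (-c - t) * (-c * (-c - 7) - 42) - 6 * (-c - 7) = 0) :
    ∃ a b : ℝ, 0 < a ∧ 0 < b ∧ a + b = 7 + t + c ∧ a * b * c = 42 * (t + 1) ∧
      a * b - c * (a + b) = 7 * t - 48 := by
  set s := 7 + t + c with hs
  set q := 7 * t - 48 + c * s with hq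
  have hqc : q * c = 42 * (t + 1) := by rw [hq, hs]; linarith
  have hq0 : 0 < q := by
    by_contra h
    have : q * c ≤ 0 := mul_nonpos_of_nonpos_of_nonneg (not_lt.mp h) (by linarith)
    rcases ht with h | h <;> rw [h] at hqc <;> linarith
  have hq1 : q < 21 := by
    by_contra h
    have : 21 * 4 < q * c := by nlinarith
    rcases ht with h | h <;> rw [h] at hqc <;> linarith
  have hs0 : 11 < s := by rcases ht with h | h <;> rw [hs, h] <;> linarith
  have hd : 0 ≤ s ^ 2 - 4 * q := by nlinarith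
  have hsq := Real.sq_sqrt hd
  have hsn := Real.sqrt_nonneg (s ^ 2 - 4 * q)
  have hlt : Real.sqrt (s ^ 2 - 4 * q) < s := by
    rw [Real.sqrt_lt' (by linarith)]; linarith
  have hab : (s + Real.sqrt (s ^ 2 - 4 * q)) / 2 * ((s - Real.sqrt (s ^ 2 - 4 * q)) / 2) = q := by
    nlinarith
  refine ⟨(s + Real.sqrt (s ^ 2 - 4 * q)) / 2, (s - Real.sqrt (s ^ 2 - 4 * q)) / 2,
    by linarith, by linarith, by ring, by rw [hab, hqc], ?_⟩
  rw [hab, hq]; ring

lemma val (t : ℚ) (h : TT t * SS = Matrix.fromBlocks (MP t) 0 0 (MN t)) (ht : t = 0 ∨ t = 1)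
    (c : ℝ) (hc4 : 4 < c) (hc5 : c < 5)
    (hr : (-c - t) * (-c * (-c - 7) - 42) - 6 * (-c - 7) = 0) :
    (((((SS * TT t).map (algebraMap ℚ ℝ)).charpoly.roots.filter (fun x => 0 < x)).map
      (fun x => x ^ (3 : ℝ))).sum =
      (7 + t) ^ 3 - 3 * (7 + t) * (7 * t - 48) - 126 * (t + 1) + 2 * c ^ 3) := by
  obtain ⟨a, b, ha, hb, h1, h2, h3⟩ := fac (t : ℝ) c
    (by rcases ht with h | h <;> simp [h]) hc4 hc5 hr
  rw [key _ a b c ha hb (by linarith)]
  · have e1 : (7 + (t : ℝ)) = a + b - c := by linarith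
    rw [← h3, e1]
    have e2 : 126 * ((t : ℝ) + 1) = 3 * (a * b * c) := by linarith
    rw [e2]; ring
  · rw [Matrix.charpoly_map, cp_A t h]
    have c1 : C a + C b = 7 + C (t : ℝ) + C c := by
      rw [← map_add, h1]; simp [map_ofNat]
    have c2 : C a * C b * C c = 42 * (C (t : ℝ) + 1) := by
      rw [← map_mul, ← map_mul, h2]; simp [map_ofNat]
    have c3 : C a * C b - C c * (C a + C b) = 7 * C (t : ℝ) - 48 := by
      rw [← map_add, ← map_mul, ← map_mul, ← map_sub, h3]; simp [map_ofNat]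
    simp only [Polynomial.map_mul, Polynomial.map_sub, Polynomial.map_add, Polynomial.map_pow,
      map_X, map_C, Polynomial.map_ofNat, eq_ratCast]
    congr 1
    congr 1
    · linear_combination (X ^ 2 : ℝ[X]) * c1 - X * c3 - c2
    · linear_combination (-X ^ 2 : ℝ[X]) * c1 - X * c3 + c2

lemma adj0 [DecidableRel G0.Adj] : G0.adjMatrix ℝ = A0.map (algebraMap ℚ ℝ) := by
  ext x y
  have e : G0.Adj x y ↔ (cls x + 1 = cls y ∨ cls y + 1 = cls x) := Iff.rfl
  simp only [SimpleGraph.adjMatrix_apply, Matrix.map_apply, A0, e]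
  split_ifs <;> simp

lemma adj1 [DecidableRel (G0 ⊔ SimpleGraph.edge 0 27).Adj] : (G0 ⊔ SimpleGraph.edge 0 27).adjMatrix ℝ = A1.map (algebraMap ℚ ℝ) := by
  ext x y
  have e : (G0 ⊔ SimpleGraph.edge 0 27).Adj x y ↔
      ((cls x + 1 = cls y ∨ cls y + 1 = cls x) ∨ ((x = 0 ∧ y = 27) ∨ (x = 27 ∧ y = 0))) := by
    rw [SimpleGraph.sup_adj, SimpleGraph.edge_adj]
    constructor
    · rintro (h | h)
      · exact Or.inl h
      · exact Or.inr h.1
    · rintro (h | h)
      · exact Or.inl h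
      · refine Or.inr ⟨h, ?_⟩
        rcases h with ⟨h1, h2⟩ | ⟨h1, h2⟩ <;> rw [h1, h2] <;> decide
  simp only [SimpleGraph.adjMatrix_apply, Matrix.map_apply, A1, e]
  split_ifs <;> simp

open Classical

theorem result :
    ¬ (∀ p : ℝ, 3 ≤ p → ∀ (n : ℕ) (G : SimpleGraph (Fin n)) (u v : Fin n), u ≠ v → ¬ G.Adj u v →
      ((((G ⊔ SimpleGraph.edge u v).adjMatrix ℝ).charpoly.roots.filter (fun x => 0 < x)).map
          (fun x => x ^ p)).sum ≥
        (((G.adjMatrix ℝ).charpoly.roots.filter (fun x => 0 < x)).map (fun x => x ^ p)).sum) := by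
  intro H
  have H1 := H 3 le_rfl 28 G0 0 27 (by decide) (by simp only [G0]; decide)
  obtain ⟨c0, hc0, hr0⟩ : ∃ c ∈ Set.Icc (4.805 : ℝ) 4.9,
      (-c - ((0 : ℚ) : ℝ)) * (-c * (-c - 7) - 42) - 6 * (-c - 7) = 0 := by
    apply intermediate_value_Icc' (by norm_num) (f := fun c : ℝ =>
      (-c - ((0 : ℚ) : ℝ)) * (-c * (-c - 7) - 42) - 6 * (-c - 7)) (by fun_prop)
    constructor <;> norm_num
  obtain ⟨c1, hc1, hr1⟩ : ∃ c ∈ Set.Icc (4.5 : ℝ) 4.662,
      (-c - ((1 : ℚ) : ℝ)) * (-c * (-c - 7) - 42) - 6 * (-c - 7) = 0 := by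
    apply intermediate_value_Icc' (by norm_num) (f := fun c : ℝ =>
      (-c - ((1 : ℚ) : ℝ)) * (-c * (-c - 7) - 42) - 6 * (-c - 7)) (by fun_prop)
    constructor <;> norm_num
  have v0 := val 0 B0_eq (Or.inl rfl) c0 (by linarith [hc0.1]) (by linarith [hc0.2]) hr0
  have v1 := val 1 B1_eq (Or.inr rfl) c1 (by linarith [hc1.1]) (by linarith [hc1.2]) hr1
  rw [adj0, adj1, A0_eq, A1_eq, v0, v1] at H1
  have b0 : (4.805 : ℝ) ^ 3 ≤ c0 ^ 3 := pow_le_pow_left₀ (by norm_num) hc0.1 3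
  have b1 : c1 ^ 3 ≤ (4.662 : ℝ) ^ 3 := pow_le_pow_left₀ (by linarith [hc1.1]) hc1.2 3
  norm_num at H1 b0 b1
  linarith

end Pool.Agent.S12216
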