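import Pool.Statements.S12226
import Pool.Agent.H7.Cone

set_option autoImplicit false
open Classical
open Pool Pool.MP_eb5675_co

namespace Pool.Agent.S12226

open Pool.Agent.H7.Cone

/-- The negation of the preceding statement: For every finite graph G and real edge vector x: x is a nonnegative combination of triangle edge-indicator vectors iff the sum of v_H(e)·x(e) is at least 0 for every triangle-free subgraph H, with v_H equal to -1 on H-edges, 2 inside V', 1/2 on edges with exactly one end in V', 0 otherwise. -/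
theorem result :
    ¬ (∀ (V : Type) [Fintype V] (G : SimpleGraph V) (x : Sym2 V → ℝ),
      (∃ c : Finset V → ℝ, (∀ t, 0 ≤ c t) ∧
          ∀ e ∈ G.edgeFinset,
            x e = ∑ t ∈ G.cliqueFinset 3, (if (∀ v ∈ e, v ∈ t) then c t else 0)) ↔
      (∀ (V' : Finset V) (H : SimpleGraph V), H ≤ G →
          (∀ u v, H.Adj u v → u ∈ V' ∧ v ∈ V') → H.CliqueFree 3 →
          0 ≤ ∑ e ∈ G.edgeFinset,
            (if e ∈ H.edgeSet then (-1 : ℝ)
              else if (∀ v ∈ e, v ∈ V') then 2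
              else if (∃ v ∈ e, v ∈ V') then 1 / 2
              else 0) * x e)) := by
  intro hall
  have hP := (hall (Fin 6) ⊤ xx).mpr ?_
  · obtain ⟨c, hc, hx⟩ := hP
    have e0 := hx s(0, 5) (by simp)
    have e1 := hx s(1, 5) (by simp)
    have e2 := hx s(2, 5) (by simp)
    have e3 := hx s(3, 5) (by simp)
    have e4 := hx s(4, 5) (by simp)
    have hle : xx s(0, 5) ≤ xx s(1, 5) + xx s(2, 5) + xx s(3, 5) + xx s(4, 5) := by
      rw [e0, e1, e2, e3, e4, ← Finset.sum_add_distrib, ← Finset.sum_add_distrib,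
        ← Finset.sum_add_distrib]
      apply Finset.sum_le_sum
      intro t ht
      have h3 := tri_mem t ((@SimpleGraph.mem_cliqueFinset_iff _ _ _ (_) (_) _ _).mp ht).card_eq
      have h0 := hc t
      simp only [Sym2.ball]
      by_cases a0 : (0 : Fin 6) ∈ t <;> by_cases a1 : (1 : Fin 6) ∈ t <;>
        by_cases a2 : (2 : Fin 6) ∈ t <;> by_cases a3 : (3 : Fin 6) ∈ t <;>
        by_cases a4 : (4 : Fin 6) ∈ t <;> by_cases a5 : (5 : Fin 6) ∈ t <;>
        simp [a0, a1, a2, a3, a4, a5] at h3 ⊢ <;> linarith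
    simp only [xx_mk] at hle
    rw [w05, w15, w25, w35, w45] at hle
    norm_num at hle
  · intro V' H _ hV hT
    have h1 : ∀ i j : Fin 6, (!decide (H.Adj i j) || (decide (i ∈ V') && decide (j ∈ V'))) = true := by
      intro i j
      by_cases h : H.Adj i j
      · simp [h, (hV i j h).1, (hV i j h).2]
      · simp [h]
    have h2 : ∀ k i j : Fin 6,
        (decide (H.Adj k i) && decide (H.Adj k j) && decide (H.Adj i j)) = false := by
      intro k i j
      by_contra hc
      simp only [Bool.not_eq_false, Bool.and_eq_true, decide_eq_true_eq] at hc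
      exact hT {k, i, j} (SimpleGraph.is3Clique_triple_iff.mpr ⟨hc.1.1, hc.1.2, hc.2⟩)
    have hk := key (decide (0 ∈ V')) (decide (1 ∈ V')) (decide (2 ∈ V')) (decide (3 ∈ V')) (decide (4 ∈ V')) (decide (5 ∈ V'))
      (decide (H.Adj 0 1)) (h1 0 1)
      (decide (H.Adj 0 2)) (h1 0 2)
      (decide (H.Adj 1 2)) (h1 1 2) (h2 0 1 2)
      (decide (H.Adj 0 3)) (h1 0 3)
      (decide (H.Adj 1 3)) (h1 1 3) (h2 0 1 3)
      (decide (H.Adj 2 3)) (h1 2 3) (h2 0 2 3) (h2 1 2 3)
      (decide (H.Adj 0 4)) (h1 0 4)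
      (decide (H.Adj 1 4)) (h1 1 4) (h2 0 1 4)
      (decide (H.Adj 2 4)) (h1 2 4) (h2 0 2 4) (h2 1 2 4)
      (decide (H.Adj 3 4)) (h1 3 4) (h2 0 3 4) (h2 1 3 4) (h2 2 3 4)
      (decide (H.Adj 0 5)) (h1 0 5)
      (decide (H.Adj 1 5)) (h1 1 5) (h2 0 1 5)
      (decide (H.Adj 2 5)) (h1 2 5) (h2 0 2 5) (h2 1 2 5)
      (decide (H.Adj 3 5)) (h1 3 5) (h2 0 3 5) (h2 1 3 5) (h2 2 3 5)
      (decide (H.Adj 4 5)) (h1 4 5) (h2 0 4 5) (h2 1 4 5) (h2 2 4 5) (h2 3 4 5)
    rw [sum_edges _ (by intro i j; simp)]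
    simp only [coef, xx_mk]
    rw [w01, w02, w12, w03, w13, w23, w04, w14, w24, w34, w05, w15, w25, w35, w45]
    have hk' := (Int.cast_le (R := ℝ)).mpr hk
    push_cast at hk' ⊢
    linarith

end Pool.Agent.S12226
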