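import Pool.Statements.S12266

set_option autoImplicit false
open Pool Pool.MP_ed2cb0_co

namespace Pool.Agent.S12266

/-- adjacency masks of the 9-vertex graph -/
def nb : Fin 9 → ℕ := ![212, 472, 225, 418, 355, 412, 279, 47, 122]

def G9 : SimpleGraph (Fin 9) where
  Adj a b := (nb a).testBit b = true
  symm := ⟨by decide⟩
  loopless := ⟨by decide⟩

instance : DecidableRel G9.Adj := fun a b => inferInstanceAs (Decidable ((nb a).testBit b = true))

def P8 : SimpleGraph (Fin 8) where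
  Adj a b := a.val + 1 = b.val ∨ b.val + 1 = a.val
  symm := ⟨by decide⟩
  loopless := ⟨by decide⟩

instance : DecidableRel P8.Adj :=
  fun a b => inferInstanceAs (Decidable (a.val + 1 = b.val ∨ b.val + 1 = a.val))

def L : Fin 8 → Finset (Fin 9) :=
  ![{1, 6, 8}, {1, 4, 6}, {0, 1, 4}, {0, 1, 5}, {0, 5, 7}, {2, 5, 7}, {2, 3, 5}, {2, 3, 4}]

abbrev Irr (D : Finset (Fin 9)) : Prop :=
  ∀ v ∈ D, ∃ w : Fin 9, (w = v ∨ G9.Adj v w) ∧ ∀ u ∈ D, u ≠ v → ¬ (w = u ∨ G9.Adj u w)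

lemma key : ∀ D : Finset (Fin 9), Irr D → D.card ≤ 2 ∨ ∃ i, L i = D := by
  decide +kernel

lemma Lirr : ∀ i, Irr (L i) ∧ (L i).card = 3 := by decide +kernel

lemma Linj : Function.Injective L := by decide +kernel

lemma Ladj : ∀ i j, P8.Adj i j ↔ (i ≠ j ∧
    ((∃ u v : Fin 9, L i \ L j = {u} ∧ L j \ L i = {v} ∧ G9.Adj u v) ∨
     (∃ u v : Fin 9, L j \ L i = {u} ∧ L i \ L j = {v} ∧ G9.Adj u v))) := by
  decide +kernel

lemma mx (i : Fin 8) (F : Finset (Fin 9)) (hF : Irr F) : F.card ≤ (L i).card := by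
  rcases key F hF with h | ⟨j, rfl⟩
  · rw [(Lirr i).2]; omega
  · rw [(Lirr i).2, (Lirr j).2]


/-- The negation of the preceding statement: Every finite connected claw-free graph isomorphic to the slide IR-graph of some finite graph G is isomorphic to a complete graph or to K_m □ K_k with m, k ≥ 2. -/
theorem result :
    ¬ (∀ (n : ℕ) (H : SimpleGraph (Fin n)), H.Connected →
    (∀ a b c d : Fin n, H.Adj a b → H.Adj a c → H.Adj a d → b ≠ c → b ≠ d → c ≠ d →
        H.Adj b c ∨ H.Adj b d ∨ H.Adj c d) →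
    (∃ (p : ℕ) (G : SimpleGraph (Fin p)),
      Nonempty (H ≃g SimpleGraph.fromRel
        (fun (D E : {D : Finset (Fin p) //
            (∀ v ∈ D, ∃ w : Fin p, (w = v ∨ G.Adj v w) ∧
                ∀ u ∈ D, u ≠ v → ¬ (w = u ∨ G.Adj u w)) ∧
            ∀ F : Finset (Fin p),
              (∀ v ∈ F, ∃ w : Fin p, (w = v ∨ G.Adj v w) ∧
                  ∀ u ∈ F, u ≠ v → ¬ (w = u ∨ G.Adj u w)) →
              F.card ≤ D.card}) =>
          ∃ u v : Fin p, D.1 \ E.1 = {u} ∧ E.1 \ D.1 = {v} ∧ G.Adj u v))) →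
    (∃ k : ℕ, Nonempty (H ≃g (⊤ : SimpleGraph (Fin k)))) ∨
    (∃ m k : ℕ, 2 ≤ m ∧ 2 ≤ k ∧
      Nonempty (H ≃g SimpleGraph.boxProd (⊤ : SimpleGraph (Fin m)) (⊤ : SimpleGraph (Fin k))))) := by
  intro h
  have conn : P8.Connected := by
    have : P8 = SimpleGraph.pathGraph 8 := by
      ext a b
      rw [SimpleGraph.pathGraph_adj]
      rfl
    rw [this]
    exact SimpleGraph.pathGraph_connected 7
  have key2 := h 8 P8 conn (by
      intro a b c d h1 h2 h3 h4 h5 h6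
      simp only [P8, ne_eq, Fin.ext_iff] at *
      omega) ⟨9, G9, ⟨⟨Equiv.ofBijective
      (fun i => ⟨L i, (Lirr i).1, mx i⟩) ⟨fun i j e => Linj (congrArg Subtype.val e), ?_⟩, ?_⟩⟩⟩
  rotate_left
  · rintro ⟨D, h1, h2⟩
    rcases key D h1 with h3 | ⟨i, rfl⟩
    · have := h2 (L 0) (Lirr 0).1
      rw [(Lirr 0).2] at this
      omega
    · exact ⟨i, rfl⟩
  · intro i j
    rw [Ladj, SimpleGraph.fromRel_adj]
    exact and_congr (not_congr (Equiv.apply_eq_iff_eq _)) Iff.rfl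
  rcases key2 with ⟨k, ⟨e⟩⟩ | ⟨m, k, hm, hk, ⟨e⟩⟩
  · have := e.map_adj_iff (v := 0) (w := 2)
    simp only [SimpleGraph.top_adj, ne_eq, EmbeddingLike.apply_eq_iff_eq] at this
    revert this
    decide
  · have : Nontrivial (Fin m) := Fin.nontrivial_iff_two_le.mpr hm
    have : Nontrivial (Fin k) := Fin.nontrivial_iff_two_le.mpr hk
    obtain ⟨x, hx⟩ := exists_ne (e 0).1
    obtain ⟨y, hy⟩ := exists_ne (e 0).2
    have u : ∀ a b, P8.Adj 0 a → P8.Adj 0 b → a = b := by decide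
    have a1 : P8.Adj 0 (e.symm (x, (e 0).2)) := by
      rw [← e.map_adj_iff]; simp [hx.symm]
    have a2 : P8.Adj 0 (e.symm ((e 0).1, y)) := by
      rw [← e.map_adj_iff]; simp [hy.symm]
    have := e.symm.injective (u _ _ a1 a2)
    exact hx (congrArg Prod.fst this)

end Pool.Agent.S12266
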