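import Pool.Statements.S12278
import Pool.Agent.H11.Part

set_option autoImplicit false
open Pool Pool.MP_ee26cf_co

namespace Pool.Agent.S12278

open Finset Pool.Agent.H11

/-- Neighbourhoods in the complement graph, as bit masks. -/
def adjM : List ℕ := [36950, 16909, 132355, 136498, 33321, 8344, 50049, 8544, 132300, 40018, 2828, 83456, 57865, 20640, 79938, 201297, 182272, 98572]

/-- The graph: the complement of the graph given by `adjM`. -/
def G : SimpleGraph (Fin 18) where
  Adj a b := a ≠ b ∧ (adjM.getD a 0).testBit b = false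
  symm := ⟨by decide +kernel⟩
  loopless := ⟨fun _ h => h.1 rfl⟩

instance : DecidableRel G.Adj := fun a b =>
  inferInstanceAs (Decidable (a ≠ b ∧ (adjM.getD a 0).testBit b = false))

/-- Independent sets with given largest vertex: (mask, size). -/
def clL : List (List (ℕ × ℕ)) := [[(1, 1)],
  [(2, 1), (3, 2)],
  [(4, 1), (5, 2), (6, 2), (7, 3)],
  [(8, 1), (10, 2)],
  [(16, 1), (17, 2), (24, 2)],
  [(32, 1), (40, 2), (48, 2), (56, 3)],
  [(64, 1), (65, 2)],
  [(128, 1), (160, 2), (192, 2)],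
  [(256, 1), (260, 2), (264, 2), (320, 2), (384, 2), (448, 3)],
  [(512, 1), (514, 2), (528, 2), (576, 2)],
  [(1024, 1), (1028, 2), (1032, 2), (1280, 2), (1284, 3), (1288, 3), (1536, 2)],
  [(2048, 1), (2560, 2), (3072, 2), (3584, 3)],
  [(4096, 1), (4097, 2), (4104, 2), (4608, 2)],
  [(8192, 1), (8224, 2), (8320, 2), (8352, 3), (12288, 2)],
  [(16384, 1), (16386, 2), (16448, 2), (18432, 2), (20480, 2), (24576, 2), (28672, 3)],
  [(32768, 1), (32769, 2), (32784, 2), (32785, 3), (32832, 2), (32833, 3), (33280, 2), (33296, 3), (33344, 3), (36864, 2), (36865, 3), (37376, 3)],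
  [(65536, 1), (67584, 2), (81920, 2), (83968, 3), (98304, 2)],
  [(131072, 1), (131076, 2), (131080, 2), (131328, 2), (131332, 3), (131336, 3), (163840, 2), (196608, 2), (229376, 3)]]

def cl (v : ℕ) : List (ℕ × ℕ) := clL.getD v []

def toSet (m : ℕ) : Finset (Fin 18) := univ.filter fun i => m.testBit i

lemma mem_toSet (m : ℕ) (i : Fin 18) : i ∈ toSet m ↔ m.testBit i = true := by simp [toSet]

noncomputable def force (x : ℕ) (f : ℕ → ℕ) : ℕ :=
  Nat.rec (motive := fun _ => ℕ) (f 0) (fun i _ => f (Nat.succ i)) x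

lemma force_eq (x : ℕ) (f : ℕ → ℕ) : force x f = f x := by cases x <;> rfl

noncomputable def inner (ih : ℕ → ℕ → ℕ → ℕ) (S k c : ℕ) (l : List (ℕ × ℕ)) : ℕ :=
  List.rec (motive := fun _ => ℕ) 0 (fun p _ acc => Nat.add
    (Bool.rec (motive := fun _ => ℕ) 0
      (force (Nat.xor S p.1) fun S' => force (Nat.sub c p.2) fun c' => ih S' k c')
      (Nat.beq (Nat.land p.1 S) p.1)) acc) l

lemma inner_eq (ih : ℕ → ℕ → ℕ → ℕ) (S k c : ℕ) (l : List (ℕ × ℕ)) :
    inner ih S k c l =
      (l.map fun p => if p.1 &&& S = p.1 then ih (S ^^^ p.1) k (c - p.2) else 0).sum := by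
  induction l with
  | nil => rfl
  | cons p l h =>
    rw [List.map_cons, List.sum_cons, ← h]
    have : inner ih S k c (p :: l) = Nat.add (Bool.rec (motive := fun _ => ℕ) 0
      (force (Nat.xor S p.1) fun S' => force (Nat.sub c p.2) fun c' => ih S' k c')
      (Nat.beq (Nat.land p.1 S) p.1)) (inner ih S k c l) := rfl
    rw [this, force_eq, force_eq]
    by_cases e : p.1 &&& S = p.1
    · have : Nat.beq (Nat.land p.1 S) p.1 = true := Nat.beq_eq ▸ e
      rw [this, if_pos e]; rfl
    · have : Nat.beq (Nat.land p.1 S) p.1 = false := by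
        rw [Bool.eq_false_iff]; intro h; exact e (Nat.eq_of_beq_eq_true h)
      rw [this, if_neg e]; rfl

noncomputable def g (r : ℕ) : ℕ → ℕ → ℕ → ℕ :=
  Nat.rec (motive := fun _ => ℕ → ℕ → ℕ → ℕ)
    (fun _ k _ => Bool.rec (motive := fun _ => ℕ) 0 1 (Nat.beq k 0))
    (fun r ih S k c => Bool.rec (motive := fun _ => ℕ) (ih S k c)
      (Bool.rec (motive := fun _ => ℕ) 0
        (force (Nat.sub k 1) fun k' => inner ih S k' c (cl r)) (Nat.ble c (Nat.mul 3 k)))
      (Nat.beq (Nat.land (Nat.shiftRight S r) 1) 1)) r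

lemma g_zero (S k c : ℕ) : g 0 S k c = if k = 0 then 1 else 0 := by
  cases k <;> rfl

lemma g_succ (r S k c : ℕ) : g (r + 1) S k c = if S.testBit r then
    (if c ≤ 3 * k then inner (g r) S (k - 1) c (cl r) else 0) else g r S k c := by
  have : g (r + 1) S k c = Bool.rec (motive := fun _ => ℕ) (g r S k c)
      (Bool.rec (motive := fun _ => ℕ) 0
        (force (Nat.sub k 1) fun k' => inner (g r) S k' c (cl r)) (Nat.ble c (Nat.mul 3 k)))
      (Nat.beq (Nat.land (Nat.shiftRight S r) 1) 1) := rfl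
  rw [this, force_eq]
  have h1 : Nat.beq (Nat.land (Nat.shiftRight S r) 1) 1 = S.testBit r := by
    have h2 : Nat.land (Nat.shiftRight S r) 1 = (S >>> r) % 2 := Nat.and_one_is_mod _
    rw [h2, Nat.testBit, Nat.one_and_eq_mod_two]
    rcases Nat.mod_two_eq_zero_or_one (S >>> r) with h | h <;> rw [h] <;> rfl
  rw [h1]
  cases S.testBit r
  · rfl
  · by_cases e : c ≤ 3 * k
    · have : Nat.ble c (Nat.mul 3 k) = true := Nat.ble_eq ▸ e
      rw [this, if_pos rfl, if_pos e]; rfl
    · have : Nat.ble c (Nat.mul 3 k) = false := by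
        rw [Bool.eq_false_iff]; intro h; exact e (Nat.le_of_ble_eq_true h)
      rw [this, if_pos rfl, if_neg e]

set_option synthInstance.maxSize 2000 in
lemma no4 : ∀ a b : Fin 18, a ≠ b → ¬ G.Adj a b → ∀ c : Fin 18, a ≠ c → b ≠ c → ¬ G.Adj a c →
    ¬ G.Adj b c → ∀ d : Fin 18, a ≠ d → b ≠ d → c ≠ d → ¬ G.Adj a d → ¬ G.Adj b d → G.Adj c d := by
  decide +kernel

lemma indep3 (s : Finset (Fin 18)) (hs : G.IsIndepSet (s : Set (Fin 18))) : s.card ≤ 3 := by
  by_contra h
  obtain ⟨a, ha, b, hb, c, hc, d, hd, h1, h2, h3, h4, h5, h6⟩ := three_lt_card.1 (not_le.1 h)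
  exact hs hc hd h6 (no4 a b h1 (hs ha hb h1) c h2 h4 (hs ha hc h2) (hs hb hc h4) d h3 h5 h6
    (hs ha hd h3) (hs hb hd h5))

lemma cl_sound : ∀ v : Fin 18, ∀ p ∈ cl v, p.1 < 2 ^ 18 ∧ p.1.testBit v = true ∧
    (toSet p.1).card = p.2 ∧
    ∀ a : Fin 18, p.1.testBit a = true → ∀ b : Fin 18, p.1.testBit b = true → ¬ G.Adj a b := by
  decide +kernel

lemma cl_nodup : ∀ v : Fin 18, ((cl v).map Prod.fst).Nodup := by
  decide +kernel

lemma cl_complete : ∀ v a : Fin 18, a ≤ v → ¬ G.Adj v a → ∀ b : Fin 18, b ≤ v → ¬ G.Adj v b →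
    ¬ G.Adj a b → ∃ p ∈ cl v, ∀ i : Fin 18, p.1.testBit i = true ↔ (i = v ∨ i = a ∨ i = b) := by
  decide +kernel

lemma toSet_inj {m m' : ℕ} (h : m < 2 ^ 18) (h' : m' < 2 ^ 18) (e : toSet m = toSet m') :
    m = m' := by
  apply Nat.eq_of_testBit_eq
  intro i
  by_cases hi : i < 18
  · have := congrArg (fun s => (⟨i, hi⟩ : Fin 18) ∈ s) e
    simp only [mem_toSet, eq_iff_iff] at this
    exact Bool.eq_iff_iff.2 this
  · rw [Nat.testBit_lt_two_pow (h.trans_le (Nat.pow_le_pow_right (by norm_num) (by omega))),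
      Nat.testBit_lt_two_pow (h'.trans_le (Nat.pow_le_pow_right (by norm_num) (by omega)))]

lemma sub_iff {m S : ℕ} (h : m < 2 ^ 18) : m &&& S = m ↔ toSet m ⊆ toSet S := by
  constructor
  · intro e i hi
    rw [mem_toSet] at hi ⊢
    rw [← e, Nat.testBit_and, Bool.and_eq_true] at hi
    exact hi.2
  · intro e
    refine toSet_inj (Nat.and_le_left.trans_lt h) h ?_
    ext i
    have := @e i
    simp only [mem_toSet, Nat.testBit_and, Bool.and_eq_true] at this ⊢
    tauto

lemma xor_eq {m S : ℕ} (e : toSet m ⊆ toSet S) : toSet (S ^^^ m) = toSet S \ toSet m := by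
  ext i
  have := @e i
  simp only [mem_toSet, Nat.testBit_xor, mem_sdiff] at this ⊢
  revert this
  cases S.testBit i <;> cases m.testBit i <;> simp

lemma g_eq (r : ℕ) (hr : r ≤ 18) : ∀ S k c : ℕ, (∀ i ∈ toSet S, (i : ℕ) < r) →
    c = (toSet S).card → g r S k c = (Parts G (toSet S) k).card := by
  induction r with
  | zero =>
    intro S k c hS _
    have : toSet S = ∅ := eq_empty_of_forall_notMem fun i hi => absurd (hS i hi) (by omega)
    rw [this, Parts_empty, g_zero]
  | succ r ih =>
    intro S k c hS hc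
    let v : Fin 18 := ⟨r, by omega⟩
    rw [g_succ]
    split_ifs with h1 h2
    · have hv : v ∈ toSet S := (mem_toSet S v).2 h1
      have hpos : 0 < c := hc ▸ card_pos.2 ⟨v, hv⟩
      obtain ⟨k, rfl⟩ : ∃ j, k = j + 1 := ⟨k - 1, by omega⟩
      rw [Parts_rec G _ k v hv, inner_eq, Nat.add_sub_cancel]
      have hnd : (cl r).Nodup := (cl_nodup v).of_map _
      rw [← List.sum_toFinset _ hnd, ← sum_filter]
      refine sum_bij (fun p _ => toSet p.1) ?_ ?_ ?_ ?_
      · intro p hp
        simp only [mem_filter, List.mem_toFinset, mem_univ, true_and] at hp ⊢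
        obtain ⟨a1, a2, -, a4⟩ := cl_sound v p hp.1
        exact ⟨(mem_toSet _ _).2 a2, (sub_iff a1).1 hp.2, fun a ha b hb _ =>
          a4 a ((mem_toSet _ _).1 ha) b ((mem_toSet _ _).1 hb)⟩
      · intro p hp q hq e
        simp only [mem_filter, List.mem_toFinset] at hp hq
        have := toSet_inj (cl_sound v p hp.1).1 (cl_sound v q hq.1).1 e
        exact List.inj_on_of_nodup_map (cl_nodup v) hp.1 hq.1 this
      · intro C hC
        simp only [mem_filter, mem_univ, true_and] at hC
        obtain ⟨c1, c2, c3⟩ := hC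
        have hle : ∀ x ∈ C, x ≤ v := fun x hx => by
          have := hS x (c2 hx)
          exact Fin.le_def.2 (by simp only [v]; omega)
        have hna : ∀ x ∈ C, ∀ y ∈ C, ¬ G.Adj x y := fun x hx y hy h => c3 hx hy h.ne h
        obtain ⟨a, ha, b, hb, hab⟩ : ∃ a ∈ C, ∃ b ∈ C, ∀ i, i ∈ C ↔ (i = v ∨ i = a ∨ i = b) := by
          have h3 : (C.erase v).card ≤ 2 := by
            have := indep3 C c3
            rw [card_erase_of_mem c1]; omega
          have h4 : ∀ i, i ∈ C ↔ i = v ∨ i ∈ C.erase v := fun i => by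
            by_cases e : i = v <;> simp [e, c1]
          have h5 : (C.erase v).card = 0 ∨ (C.erase v).card = 1 ∨ (C.erase v).card = 2 := by omega
          rcases h5 with h | h | h
          · exact ⟨v, c1, v, c1, fun i => by rw [h4, card_eq_zero.1 h]; simp⟩
          · obtain ⟨a, e⟩ := card_eq_one.1 h
            have ha : a ∈ C := mem_of_mem_erase (e ▸ mem_singleton_self a)
            exact ⟨a, ha, a, ha, fun i => by rw [h4, e]; simp⟩
          · obtain ⟨a, b, -, e⟩ := card_eq_two.1 h
            have ha : a ∈ C.erase v := by rw [e]; simp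
            have hb : b ∈ C.erase v := by rw [e]; simp
            exact ⟨a, mem_of_mem_erase ha, b, mem_of_mem_erase hb,
              fun i => by rw [h4, e]; simp⟩
        obtain ⟨p, hp, hp2⟩ := cl_complete v a (hle a ha) (hna v c1 a ha) b (hle b hb)
          (hna v c1 b hb) (hna a ha b hb)
        have e : toSet p.1 = C := by
          ext i; rw [mem_toSet, hp2, hab]
        refine ⟨p, ?_, e⟩
        simp only [mem_filter, List.mem_toFinset]
        exact ⟨hp, (sub_iff (cl_sound v p hp).1).2 (e ▸ c2)⟩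
      · intro p hp
        simp only [mem_filter, List.mem_toFinset] at hp
        obtain ⟨a1, a2, a3, -⟩ := cl_sound v p hp.1
        have hs := (sub_iff a1).1 hp.2
        rw [← xor_eq hs]
        refine ih (by omega) _ _ _ ?_ ?_
        · intro i hi
          rw [xor_eq hs, mem_sdiff] at hi
          have h6 := hS i hi.1
          have h7 : i ≠ v := fun e => hi.2 (e ▸ (mem_toSet _ _).2 a2)
          have h8 : (i : ℕ) ≠ r := fun e => h7 (Fin.ext e)
          omega
        · rw [xor_eq hs, card_sdiff_of_subset hs, hc, a3]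
    · exact (Parts_big G 3 indep3 _ k (by omega)).symm
    · refine ih (by omega) S k c (fun i hi => ?_) hc
      have h6 := hS i hi
      have h8 : (i : ℕ) ≠ r := fun e => h1 (e ▸ (mem_toSet _ _).1 hi)
      omega

lemma full : toSet 262143 = univ := by decide +kernel

lemma cnt (k : ℕ) : (Parts G univ k).card = g 18 262143 k 18 := by
  rw [g_eq 18 le_rfl 262143 k 18 (fun i _ => i.2) (by rw [full]; simp), full]

lemma v6 : g 18 262143 6 18 = 1 := by decide +kernel
lemma v7 : g 18 262143 7 18 = 60 := by decide +kernel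
lemma v8 : g 18 262143 8 18 = 5521 := by decide +kernel


/-- The negation of the preceding statement: For every finite graph, let b_j count partitions of the vertex set into j nonempty independent sets (its coefficients in the complete-graph basis); then b_j·b_{j+2} < b_{j+1}^2 whenever b_{j+1} > 0. -/
theorem result :
    ¬ (∀ (V : Type) [Fintype V] [DecidableEq V] (G : SimpleGraph V) (b : ℕ → ℕ),
      (∀ j : ℕ, b j =
        {P : Finpartition (Finset.univ : Finset V) |
          P.parts.card = j ∧ ∀ s ∈ P.parts, G.IsIndepSet (↑s : Set V)}.ncard) →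
      ∀ j : ℕ, 0 < b (j + 1) → b j * b (j + 2) < b (j + 1) ^ 2) := by
  intro h
  have e6 := (cnt 6).trans v6
  have e7 := (cnt 7).trans v7
  have e8 := (cnt 8).trans v8
  obtain ⟨b, hb⟩ : ∃ b : ℕ → ℕ, ∀ j, b j = (Parts G univ j).card := ⟨_, fun _ => rfl⟩
  rw [← hb] at e6 e7 e8
  have := h (Fin 18) G b (fun j => (hb j).trans (ncard_eq G j).symm) 6
  norm_num [e6, e7, e8] at this

end Pool.Agent.S12278
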