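import Pool.Statements.S12318
import Pool.Agent.H11.FairCut

set_option autoImplicit false
open MeasureTheory
open Pool Pool.MP_f0067e_co

namespace Pool.Agent.S12318

/-- The negation of the preceding statement: For d ≥ 1 and even r > 0, any d finite absolutely continuous measures on ℝ^d admit a partition into r parts by iterated hyperplane cuts in which all parts have equal measure in each measure. -/
theorem result :
    ¬ (∀ d : ℕ, 1 ≤ d → ∀ r : ℕ, Even r → 0 < r →
      ∀ μ : Fin d → Measure (EuclideanSpace ℝ (Fin d)),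
        (∀ k, IsFiniteMeasure (μ k)) →
        (∀ k, μ k ≪ (volume : Measure (EuclideanSpace ℝ (Fin d)))) →
        ∃ L : List (Set (EuclideanSpace ℝ (Fin d))),
          L.length = r ∧
          (∀ S : Set (EuclideanSpace ℝ (Fin d)) → List (Set (EuclideanSpace ℝ (Fin d))) → Prop,
              (∀ A, S A [A]) →
              (∀ (A : Set (EuclideanSpace ℝ (Fin d))) (l₁ l₂ : List (Set (EuclideanSpace ℝ (Fin d))))
                  (v : EuclideanSpace ℝ (Fin d)) (c : ℝ), v ≠ 0 →
                  S (A ∩ {x | inner ℝ v x ≤ c}) l₁ →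
                  S (A ∩ {x | c < inner ℝ v x}) l₂ →
                  S A (l₁ ++ l₂)) →
              S Set.univ L) ∧
          ∀ k, ∀ P ∈ L, ∀ Q ∈ L, μ k P = μ k Q) := by
  intro h
  obtain ⟨L, hL, hS, he⟩ := h 3 (by norm_num) 6 (by decide) (by norm_num)
    ![Pool.Agent.H11.FairCut.μ0, Pool.Agent.H11.FairCut.μ1, Pool.Agent.H11.FairCut.μ2]
    (by
      intro k
      fin_cases k
      · exact inferInstanceAs (IsFiniteMeasure Pool.Agent.H11.FairCut.μ0)
      · exact inferInstanceAs (IsFiniteMeasure Pool.Agent.H11.FairCut.μ1)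
      · exact inferInstanceAs (IsFiniteMeasure Pool.Agent.H11.FairCut.μ2))
    (by
      intro k
      fin_cases k
      · exact Pool.Agent.H11.FairCut.ac0
      · exact Pool.Agent.H11.FairCut.ac1
      · exact Pool.Agent.H11.FairCut.ac2)
  exact Pool.Agent.H11.FairCut.main
    (hS Pool.Agent.H11.FairCut.IP Pool.Agent.H11.FairCut.IP.one Pool.Agent.H11.FairCut.IP.cut)
    hL (he 0) (he 1) (he 2)

end Pool.Agent.S12318
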