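import Pool.Statements.S12348
-- import your own Pool.Agent.* helpers here

set_option autoImplicit false
open Pool Pool.MP_f13a95_co

namespace Pool.Agent.S12348

def M : ℕ → ℤ
  | 0 => 1
  | q + 1 => 2 * (M q + q + 1) ^ 2

theorem M_ge (q : ℕ) : (q : ℤ) + 1 ≤ M q := by
  induction q with
  | zero => simp [M]
  | succ q ih => simp only [M]; push_cast; nlinarith [Int.natCast_nonneg q]

theorem M_mono {p q : ℕ} (h : p ≤ q) : M p ≤ M q := by
  induction h with
  | refl => exact le_rfl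
  | @step q _ ih =>
    have := M_ge q
    simp only [M]; nlinarith [Int.natCast_nonneg q]

def I (p : ℕ) (u : ℤ) : Prop := M p ≤ u ∧ u ≤ M p + p

def U (n : ℤ) : Prop := |(n : ℝ) * √2 - (round ((n : ℝ) * √2) : ℝ)| < 1 / 10

def R (u v : ℤ) : Prop := ∃ p q, p < q ∧ I p u ∧ I q v ∧ U v

theorem bounds {p q : ℕ} {u v : ℤ} (h : p < q) (hu : I p u) (hv : I q v) :
    1 ≤ u ∧ 2 * (u * q) ≤ M q ∧ u * v ≤ 4 * M q ^ 2 ∧ 2 * (u * v) ≤ M (q + 1) := by
  obtain ⟨r, rfl⟩ : ∃ r, q = r + 1 := ⟨q - 1, by omega⟩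
  have h1 := M_mono (show p ≤ r by omega)
  have h2 : (p : ℤ) ≤ r := by omega
  have h3 := M_ge p
  have h4 := M_ge r
  have h5 := M_ge (r + 1)
  have h6 := M_mono (show r ≤ r + 1 by omega)
  obtain ⟨u1, u2⟩ := hu
  obtain ⟨v1, v2⟩ := hv
  have r0 := Int.natCast_nonneg r
  have p0 := Int.natCast_nonneg p
  push_cast at *
  have a1 : u * v ≤ (M (r + 1) + (r + 1)) * (M (r + 1) + (r + 1)) :=
    mul_le_mul (by omega) v2 (by omega) (by omega)
  refine ⟨by omega, ?_, by nlinarith, ?_⟩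
  · have : u * (r + 1) ≤ (M r + r + 1) * (M r + r + 1) :=
      mul_le_mul (by omega) (by omega) (by omega) (by omega)
    rw [M]; nlinarith
  · rw [M]; push_cast; nlinarith

theorem same {u v u' v' m : ℤ} (hm : 0 < m) (h : R u v) (h' : R u' v') (e : u' * v' = u * v + m)
    (hx : 16 * m ^ 2 < u * v) : u = u' := by
  obtain ⟨p, q, hpq, hu, hv, -⟩ := h
  obtain ⟨p', q', hpq', hu', hv', -⟩ := h'
  obtain ⟨a1, a2, a3, a4⟩ := bounds hpq hu hv
  obtain ⟨b1, b2, b3, b4⟩ := bounds hpq' hu' hv'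
  have g := M_ge q
  have g' := M_ge q'
  have q0 := Int.natCast_nonneg q
  have q0' := Int.natCast_nonneg q'
  have c1 : M q ≤ u * v := by nlinarith [hv.1]
  have c2 : M q' ≤ u' * v' := by nlinarith [hv'.1]
  rcases lt_trichotomy q q' with h | h | h
  · have := M_mono (show q + 1 ≤ q' from h)
    nlinarith
  · subst h
    obtain ⟨v1, v2⟩ := hv
    obtain ⟨w1, w2⟩ := hv'
    have d : 2 * m < M q := by nlinarith
    rcases lt_trichotomy u u' with h | h | h
    · have f1 : u * v ≤ u * (M q + q) := mul_le_mul_of_nonneg_left v2 (by omega)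
      have f2 : (u + 1) * M q ≤ u' * v' := mul_le_mul (by omega) w1 (by omega) (by omega)
      nlinarith
    · exact h
    · have f1 : u' * v' ≤ u' * (M q + q) := mul_le_mul_of_nonneg_left w2 (by omega)
      have f2 : (u' + 1) * M q ≤ u * v := mul_le_mul (by omega) v1 (by omega) (by omega)
      nlinarith
  · have := M_mono (show q' + 1 ≤ q from h)
    nlinarith

theorem noAP (ρ : ℤ) (hρ : ρ ≠ 0) : ∀ᶠ S : ℕ in Filter.atTop, ∀ v : ℕ → ℤ,
    (∀ s, s < S → v (s + 1) = v s + ρ) → ¬ ∀ s, s ≤ S → U (v s) := by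
  set θ : ℝ := ρ * √2 - round (ρ * √2) with hθ
  have h0 : θ ≠ 0 := fun h => by
    have : Irrational ((ρ : ℝ) * √2) := irrational_sqrt_two.intCast_mul hρ
    exact this.ne_int _ (sub_eq_zero.1 h)
  have h1 : |θ| ≤ 1 / 2 := abs_sub_round _
  have h2 : 0 < |θ| := abs_pos.2 h0
  obtain ⟨N, hN⟩ := exists_nat_gt (1 / |θ|)
  filter_upwards [Filter.eventually_ge_atTop N] with S hS v hv hU
  have key : ∀ s, s ≤ S → (v s : ℝ) * √2 - round ((v s : ℝ) * √2) =
      (v 0 : ℝ) * √2 - round ((v 0 : ℝ) * √2) + s * θ := fun s hs => by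
    induction s with
    | zero => simp
    | succ s ih =>
      have a := hU s (by omega)
      have b := hU (s + 1) hs
      have c : (v (s + 1) : ℝ) = v s + ρ := by rw [hv s (by omega)]; push_cast; ring
      have d : |((round ((v s : ℝ) * √2) + round (ρ * √2) -
          round ((v (s + 1) : ℝ) * √2) : ℤ) : ℝ)| < 1 := by
        unfold U at a b
        rw [abs_lt] at a b ⊢
        rw [abs_le] at h1
        push_cast
        rw [c] at b ⊢
        constructor <;> linarith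
      have d' : round ((v s : ℝ) * √2) + round (ρ * √2) - round ((v (s + 1) : ℝ) * √2) = 0 :=
        Int.abs_lt_one_iff.1 (by exact_mod_cast d)
      have d'' : (round ((v s : ℝ) * √2) : ℝ) + round (ρ * √2) -
          round ((v (s + 1) : ℝ) * √2) = 0 := by exact_mod_cast d'
      have := ih (by omega)
      push_cast
      rw [c] at d'' ⊢
      linarith
  have a := hU S le_rfl
  have b := hU 0 (by omega)
  unfold U at a b
  rw [key S le_rfl] at a
  rw [div_lt_iff₀ h2] at hN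
  have c : (N : ℝ) ≤ S := by exact_mod_cast hS
  have d : |S * θ| < 1 := by
    rw [abs_lt] at a b ⊢
    constructor <;> linarith
  rw [abs_mul, Nat.abs_cast] at d
  nlinarith

theorem pw (c : ℕ) : ∃ (d : ℕ) (α : Fin d → ℝ) (ε : ℝ) (n₀ : ℤ) (T : Set ℤ), 0 < ε ∧
    (∀ L : ℕ, ∃ a : ℤ, ∀ k : ℕ, k < L → a + (k : ℤ) ∈ T) ∧
    ∀ n ∈ T, (∀ i : Fin d,
      |((n - n₀ : ℤ) : ℝ) * α i - (round (((n - n₀ : ℤ) : ℝ) * α i) : ℝ)| < ε) →
      n ∈ {n | (∃ p, I (2 * p + c) n) ∧ U n} :=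
  ⟨1, fun _ => √2, 1 / 10, 0, {n | ∃ p, I (2 * p + c) n}, by norm_num,
    fun L => ⟨M (2 * L + c), fun k hk => ⟨L, by omega, by push_cast; omega⟩⟩,
    fun n hn h => ⟨hn, by simpa [U] using h 0⟩⟩

/-- The negation of the preceding statement: Suppose each of B and D contains the intersection of a translated Bohr neighbourhood with a set containing arbitrarily long intervals. Then the product set B·D contains (r + mℤ) ∩ T for some m ≥ 1, some r, and some T containing arbitrarily long intervals. -/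
theorem result :
    ¬ (∀ B D : Set ℤ,
      (∃ (d : ℕ) (α : Fin d → ℝ) (ε : ℝ) (n₀ : ℤ) (T : Set ℤ), 0 < ε ∧
        (∀ L : ℕ, ∃ a : ℤ, ∀ k : ℕ, k < L → a + (k : ℤ) ∈ T) ∧
        ∀ n ∈ T, (∀ i : Fin d,
          |((n - n₀ : ℤ) : ℝ) * α i - (round (((n - n₀ : ℤ) : ℝ) * α i) : ℝ)| < ε) → n ∈ B) →
      (∃ (d : ℕ) (α : Fin d → ℝ) (ε : ℝ) (n₀ : ℤ) (T : Set ℤ), 0 < ε ∧
        (∀ L : ℕ, ∃ a : ℤ, ∀ k : ℕ, k < L → a + (k : ℤ) ∈ T) ∧
        ∀ n ∈ T, (∀ i : Fin d,
          |((n - n₀ : ℤ) : ℝ) * α i - (round (((n - n₀ : ℤ) : ℝ) * α i) : ℝ)| < ε) → n ∈ D) →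
      ∃ (m r : ℤ) (T : Set ℤ), 0 < m ∧
        (∀ L : ℕ, ∃ a : ℤ, ∀ k : ℕ, k < L → a + (k : ℤ) ∈ T) ∧
        ∀ n ∈ T, n ≡ r [ZMOD m] → ∃ b ∈ B, ∃ c ∈ D, n = b * c) := by
  intro h
  obtain ⟨m, r, T, hm, hT, hx⟩ := h _ _ (pw 0) (pw 1)
  obtain ⟨S, hS⟩ := (((Finset.Icc 1 m).eventually_all).2 fun ρ hρ =>
    noAP ρ (by have := (Finset.mem_Icc.1 hρ).1; omega)).exists
  obtain ⟨m', rfl⟩ := Int.eq_ofNat_of_zero_le hm.le
  obtain ⟨a, ha⟩ := hT (m' + m' * (16 * m' + S + 1))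
  have hr0 := Int.emod_nonneg (r - a) hm.ne'
  have hr1 := Int.emod_lt_of_pos (r - a) hm
  have key : ∀ s : ℕ, s ≤ 16 * m' + S + 1 → ∃ u v, R u v ∧ 1 ≤ u ∧ 1 ≤ v ∧
      u * v = a + (r - a) % m' + m' * s := fun s hs => by
    obtain ⟨k, hk⟩ := Int.eq_ofNat_of_zero_le hr0
    have h1 := ha (k + m' * s) (by
      have := Nat.mul_le_mul_left m' hs
      omega)
    obtain ⟨b, ⟨⟨p, hp⟩, hb⟩, c, ⟨⟨q, hq⟩, hc⟩, e⟩ := hx _ h1 (by
      push_cast
      rw [← hk]
      exact (Int.modEq_iff_dvd.2 ⟨(r - a) / m' - s, by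
        have := Int.emod_add_mul_ediv (r - a) m'
        linear_combination -this⟩))
    push_cast at e
    have b1 : 1 ≤ b := by have := M_ge (2 * p + 0); have := hp.1; omega
    have c1 : 1 ≤ c := by have := M_ge (2 * q + 1); have := hq.1; omega
    rcases lt_or_gt_of_ne (show 2 * p + 0 ≠ 2 * q + 1 by omega) with h | h
    · exact ⟨b, c, ⟨_, _, h, hp, hq, hc⟩, b1, c1, by rw [hk]; linarith⟩
    · exact ⟨c, b, ⟨_, _, h, hq, hp, hb⟩, c1, b1, by rw [hk]; linarith⟩
  choose! u v hR hu hv he using key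
  have h0 : 1 ≤ a + (r - a) % m' := by
    have := he 0 (by omega)
    have := hu 0 (by omega)
    have := hv 0 (by omega)
    push_cast at *
    nlinarith
  have step : ∀ s : ℕ, s < S + 1 → u (16 * m' + s + 1) * v (16 * m' + s + 1) =
      u (16 * m' + s) * v (16 * m' + s) + m' := fun s hs => by
    rw [he _ (by omega), he _ (by omega)]; push_cast; ring
  have hs : ∀ s : ℕ, s < S + 1 → u (16 * m' + s) = u (16 * m' + s + 1) := fun s hs =>
    same hm (hR _ (by omega)) (hR _ (by omega)) (step s hs) (by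
      rw [he _ (by omega)]; push_cast; nlinarith [Int.natCast_nonneg s])
  have hc : ∀ s : ℕ, s ≤ S + 1 → u (16 * m' + s) = u (16 * m') := fun s h => by
    induction s with
    | zero => rfl
    | succ s ih => rw [← ih (by omega), hs s (by omega)]; rfl
  have hd : ∀ s : ℕ, s < S + 1 →
      u (16 * m') * (v (16 * m' + s + 1) - v (16 * m' + s)) = m' := fun s h => by
    have := step s h
    rw [← hs s h, hc s h.le] at this
    linarith
  have u1 := hu (16 * m') (by omega)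
  have d0 := hd 0 (by omega)
  refine hS (v (16 * m' + 0 + 1) - v (16 * m' + 0)) (Finset.mem_Icc.2 ⟨?_, ?_⟩)
    (fun s => v (16 * m' + s)) (fun s h => ?_) (fun s h => ?_)
  · by_contra hh
    nlinarith
  · by_contra hh
    nlinarith
  · have := mul_left_cancel₀ (by omega : u (16 * m') ≠ 0) ((hd s (by omega)).trans d0.symm)
    show v (16 * m' + s + 1) = _
    linarith
  · obtain ⟨_, _, -, -, -, h⟩ := hR (16 * m' + s) (by omega)
    exact h

end Pool.Agent.S12348
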