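import Pool.Statements.S12369
import Pool.Agent.H23.GS

set_option autoImplicit false
open Pool Pool.MP_f210e3_co

namespace Pool.Agent.S12369

/-- For every d ≥ 1, tree T and k, there is c such that any finite family of distinct d-spheres in R^(d+1) whose orthogonality graph has no induced T and no K_k has that graph c-colourable. -/
theorem result :
    ∀ d : ℕ, 1 ≤ d →
      ∀ m : ℕ, ∀ T : SimpleGraph (Fin m), T.IsTree →
        ∀ k : ℕ, ∃ c : ℕ,
          ∀ n : ℕ, ∀ S : Fin n → EuclideanSpace ℝ (Fin (d + 1)) × ℝ,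
            Function.Injective S →
            (∀ i, 0 < (S i).2) →
            ¬ Nonempty (T ↪g SimpleGraph.fromRel
                (fun i j : Fin n => dist (S i).1 (S j).1 ^ 2 = (S i).2 ^ 2 + (S j).2 ^ 2)) →
            (SimpleGraph.fromRel
                (fun i j : Fin n => dist (S i).1 (S j).1 ^ 2 = (S i).2 ^ 2 + (S j).2 ^ 2)).CliqueFree k →
            (SimpleGraph.fromRel
                (fun i j : Fin n => dist (S i).1 (S j).1 ^ 2 = (S i).2 ^ 2 + (S j).2 ^ 2)).Colorable c := by
  intro d _ m T hT k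
  let E := EuclideanSpace ℝ (Fin (d + 1)) × ℝ × ℝ
  let B : E →ₗ[ℝ] E →ₗ[ℝ] ℝ := LinearMap.mk₂ ℝ
    (fun u v => 2 * inner ℝ u.1 v.1 - u.2.1 * v.2.2 - v.2.1 * u.2.2)
    (fun u u' v => by simp only [E, Prod.fst_add, Prod.snd_add, inner_add_left]; ring)
    (fun c u v => by
      simp only [E, Prod.smul_fst, Prod.smul_snd, real_inner_smul_left, smul_eq_mul]; ring)
    (fun u v v' => by simp only [E, Prod.fst_add, Prod.snd_add, inner_add_right]; ring)
    (fun c u v => by
      simp only [E, Prod.smul_fst, Prod.smul_snd, real_inner_smul_right, smul_eq_mul]; ring)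
  obtain ⟨c, hc⟩ := Pool.Agent.H23.GS.colour B hT (Module.finrank ℝ E) 1
  refine ⟨c, fun n S hS hr hT' _ => ?_⟩
  let vec : Fin n → E := fun i => ((S i).1, 1, ‖(S i).1‖ ^ 2 - (S i).2 ^ 2)
  have hB : ∀ i j, B (vec i) (vec j) = (S i).2 ^ 2 + (S j).2 ^ 2 - dist (S i).1 (S j).1 ^ 2 := by
    intro i j
    rw [dist_eq_norm, norm_sub_sq_real]
    simp only [B, vec, LinearMap.mk₂_apply]
    ring
  have an : ∀ x, B (vec x) (vec x) ≠ 0 := fun x => by
    rw [hB, dist_self]
    have := pow_pos (hr x) 2
    intro h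
    linarith
  obtain ⟨col, hcol⟩ := hc n _ vec Finset.univ
    ⟨fun u v => by simp only [B, LinearMap.mk₂_apply, real_inner_comm u.1 v.1]; ring, an,
      fun x y h => by
        obtain ⟨t, ht⟩ := Submodule.mem_span_singleton.mp h
        have h1 : t = 1 := by simpa [vec, E] using congrArg (fun z : E => z.2.1) ht
        rw [h1, one_smul] at ht
        have h2 : (S y).1 = (S x).1 := congrArg (fun z : E => z.1) ht
        have h3 : ‖(S y).1‖ ^ 2 - (S y).2 ^ 2 = ‖(S x).1‖ ^ 2 - (S x).2 ^ 2 :=
          congrArg (fun z : E => z.2.2) ht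
        rw [h2] at h3
        refine hS (Prod.ext h2.symm ?_)
        exact (pow_left_inj₀ (hr x).le (hr y).le two_ne_zero).mp (by linarith),
      fun x y => by
        rw [SimpleGraph.fromRel_adj, hB]
        constructor
        · rintro ⟨-, h | h⟩
          · linarith
          · rw [dist_comm]; linarith
        · intro h
          refine ⟨fun e => an x ?_, Or.inl (by linarith)⟩
          rw [hB]; rwa [← e] at h⟩ hT'
    (fun u _ => ⟨{⊤}, ⟨by simp, by simp⟩, fun w _ _ => ⟨⊤, by simp, trivial⟩⟩)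
  exact ⟨SimpleGraph.Coloring.mk col fun h => hcol _ (Finset.mem_univ _) _ (Finset.mem_univ _) h⟩

end Pool.Agent.S12369
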