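import Pool.Statements.S12383
-- import your own Pool.Agent.* helpers here

set_option autoImplicit false
open Pool Pool.MP_f2f693_co Finset Filter Topology

namespace Pool.Agent.S12383

def ch (t : ZMod 2) : ℤ := (-1) ^ t.val

lemma ch_add : ∀ a b : ZMod 2, ch (a + b) = ch a * ch b := by decide

lemma ch_one : ∀ a : ZMod 2, ch (a + 1) = - ch a := by decide

lemma ch_sum {ι : Type} (s : Finset ι) (f : ι → ZMod 2) : ch (∑ i ∈ s, f i) = ∏ i ∈ s, ch (f i) := by
  classical
  induction s using Finset.induction_on with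
  | empty => rfl
  | insert a s h ih => rw [sum_insert h, prod_insert h, ch_add, ih]

def Wt {m : ℕ} (f : (Fin m → ZMod 2) → ZMod 2) (y : Fin m → ZMod 2) : ℤ :=
  ∑ x : Fin m → ZMod 2, ch (f x + ∑ i, x i * y i)

lemma two : ∀ a b : ZMod 2, |∑ v : Fin 2 → ZMod 2, ch (v 0 * v 1 + (v 0 * a + v 1 * b))| = 2 := by
  decide

lemma exb (k : ℕ) : ∃ f : (Fin (2 * k) → ZMod 2) → ZMod 2, ∀ y, |Wt f y| = 2 ^ k := by
  let e : Fin k × Fin 2 ≃ Fin (2 * k) := finProdFinEquiv.trans (finCongr (mul_comm k 2))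
  refine ⟨fun x => ∑ i, x (e (i, 0)) * x (e (i, 1)), fun y => ?_⟩
  have : Wt (fun x => ∑ i, x (e (i, 0)) * x (e (i, 1))) y = ∏ i : Fin k, ∑ v : Fin 2 → ZMod 2,
      ch (v 0 * v 1 + (v 0 * y (e (i, 0)) + v 1 * y (e (i, 1)))) := by
    rw [prod_univ_sum, Fintype.piFinset_univ]
    refine Fintype.sum_equiv ((e.symm.arrowCongr (Equiv.refl _)).trans (Equiv.curry _ _ _)) _ _
      fun x => ?_
    rw [← ch_sum, ← e.sum_comp, Fintype.sum_prod_type, ← sum_add_distrib]
    simp [Fin.sum_univ_two]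
  rw [this, abs_prod]
  simp [two]

lemma lim {b u v : ℕ → ℝ} (hb : Tendsto b atTop atTop) (hb0 : ∀ k, 0 < b k)
    (hu : ∀ k, b k ^ 2 ≤ u k ∧ u k ≤ b k ^ 4) (hv : ∀ k, b k ^ 2 ≤ v k ∧ v k ≤ b k ^ 4) :
    Tendsto (fun k => Real.logb 2 (Real.logb 2 (u k)) / Real.logb 2 (Real.logb 2 (v k)))
      atTop (𝓝 1) := by
  have h1 := (Real.tendsto_logb_atTop one_lt_two).comp hb
  have h2 := (Real.tendsto_logb_atTop one_lt_two).comp h1
  have key : ∀ w : ℕ → ℝ, (∀ k, b k ^ 2 ≤ w k ∧ w k ≤ b k ^ 4) →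
      Tendsto (fun k => Real.logb 2 (Real.logb 2 (w k)) / Real.logb 2 (Real.logb 2 (b k)))
        atTop (𝓝 1) := by
    intro w hw
    have h3 : Tendsto (fun k => 1 + 2 / Real.logb 2 (Real.logb 2 (b k))) atTop (𝓝 1) := by
      simpa using (h2.const_div_atTop 2).const_add 1
    have aux : ∀ k, 0 < Real.logb 2 (b k) → 2 * Real.logb 2 (b k) ≤ Real.logb 2 (w k) ∧
        Real.logb 2 (w k) ≤ 4 * Real.logb 2 (b k) := fun k _ => by
      have p := hb0 k
      have a1 := Real.logb_le_logb_of_le one_lt_two (by positivity) (hw k).1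
      have a2 := Real.logb_le_logb_of_le one_lt_two ((pow_pos p 2).trans_le (hw k).1) (hw k).2
      rw [Real.logb_pow] at a1 a2
      exact ⟨by exact_mod_cast a1, by exact_mod_cast a2⟩
    refine tendsto_of_tendsto_of_tendsto_of_le_of_le' tendsto_const_nhds h3 ?_ ?_
    · filter_upwards [h1.eventually_gt_atTop 0, h2.eventually_gt_atTop 0] with k p q
      simp only [Function.comp] at p q
      rw [le_div_iff₀ q, one_mul]
      exact Real.logb_le_logb_of_le one_lt_two p (by linarith [(aux k p).1])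
    · filter_upwards [h1.eventually_gt_atTop 0, h2.eventually_gt_atTop 0] with k p q
      simp only [Function.comp] at p q
      rw [div_le_iff₀ q, add_mul, one_mul, div_mul_cancel₀ _ q.ne']
      have := Real.logb_le_logb_of_le one_lt_two (by linarith [(aux k p).1]) (aux k p).2
      rw [Real.logb_mul (by norm_num) p.ne', show (4 : ℝ) = 2 ^ 2 by norm_num, Real.logb_pow,
        Real.logb_self_eq_one one_lt_two] at this
      push_cast at this
      linarith
  have := (key u hu).div (key v hv) one_ne_zero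
  rw [div_one] at this
  refine this.congr' ?_
  filter_upwards [h2.eventually_gt_atTop 0] with k q
  exact div_div_div_cancel_right₀ (ne_of_gt q) _ _

/-- For m=2k: eventually ∣B_m∣^4/∣X_m∣>1, and loglog(∣B_m∣^4/∣X_m∣)/loglog(#bent-iterative functions on m+2 variables) tends to 1 as k grows, logs base 2, counted via 4-tuples of bent functions with duals summing to 1. -/
theorem result :
  ∀ (W : (m : ℕ) → ((Fin m → ZMod 2) → ZMod 2) → (Fin m → ZMod 2) → ℤ),
    (∀ m f y, W m f y = ∑ x : Fin m → ZMod 2, (-1 : ℤ) ^ (f x + ∑ i, x i * y i).val) →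
  ∀ (B : (m : ℕ) → Set ((Fin m → ZMod 2) → ZMod 2)),
    (∀ m, B m = {f | ∀ y, |W m f y| = 2 ^ (m / 2)}) →
  ∀ (L : ℕ → ℝ),
    (∀ m, L m = ((B m).ncard : ℝ) ^ 4 /
      (({g | ∃ f ∈ B m, ∃ h ∈ B m, g = f + h} : Set ((Fin m → ZMod 2) → ZMod 2)).ncard : ℝ)) →
  ∀ (BI : ℕ → ℝ),
    (∀ m, BI m = (({t : Fin 4 → ((Fin m → ZMod 2) → ZMod 2) |
        (∀ i, t i ∈ B m) ∧ ∀ y, ∏ i, W m (t i) y = -(2 ^ (m / 2)) ^ 4}).ncard : ℝ)) →
  (∃ K : ℕ, ∀ k ≥ K, 1 < L (2 * k)) ∧
  Filter.Tendsto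
    (fun k : ℕ => Real.logb 2 (Real.logb 2 (L (2 * k))) / Real.logb 2 (Real.logb 2 (BI (2 * k))))
    Filter.atTop (nhds 1) := by
  intro W hW B hB L hL BI hBI
  have hW' : ∀ m f y, W m f y = Wt f y := hW
  have big : ∀ k, 2 ^ (2 * k) ≤ (B (2 * k)).ncard := by
    intro k
    obtain ⟨f, hf⟩ := exb k
    have := Set.ncard_le_ncard_of_injOn (s := Set.univ) (t := B (2 * k))
      (fun (a : Fin (2 * k) → ZMod 2) x => f x + ∑ i, x i * a i) (fun a _ => by
        rw [hB]
        intro y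
        rw [hW', Nat.mul_div_cancel_left k two_pos, ← hf (a + y)]
        simp only [Wt, Pi.add_apply, mul_add, sum_add_distrib, add_assoc])
      (fun a _ c _ e => funext fun i => by
        simpa [Pi.single_apply] using congrFun e (Pi.single i 1))
    simpa [Set.ncard_univ] using this
  have pos : ∀ k, (0 : ℝ) < (B (2 * k)).ncard := fun k => by
    exact_mod_cast (pow_pos two_pos _).trans_le (big k)
  have hb : Tendsto (fun k => ((B (2 * k)).ncard : ℝ)) atTop atTop :=
    tendsto_natCast_atTop_atTop.comp (tendsto_atTop_mono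
      (fun k => le_trans (by have := @Nat.lt_two_pow_self (2 * k); simp only [id]; omega) (big k)) tendsto_id)
  have hu : ∀ k, ((B (2 * k)).ncard : ℝ) ^ 2 ≤ L (2 * k) ∧ L (2 * k) ≤ ((B (2 * k)).ncard : ℝ) ^ 4 := by
    intro k
    rw [hL]
    set X : Set ((Fin (2 * k) → ZMod 2) → ZMod 2) := {g | ∃ f ∈ B (2 * k), ∃ h ∈ B (2 * k), g = f + h}
    obtain ⟨f, hf⟩ := Set.nonempty_of_ncard_ne_zero (s := B (2 * k)) (by exact_mod_cast (pos k).ne')
    have x1 : 0 < X.ncard := (Set.ncard_pos (Set.toFinite _)).2 ⟨_, f, hf, f, hf, rfl⟩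
    have x2 : X.ncard ≤ (B (2 * k)).ncard ^ 2 := by
      rw [sq, ← Set.ncard_prod]
      refine le_trans (Set.ncard_le_ncard ?_ (Set.toFinite _))
        (Set.ncard_image_le (f := fun p => p.1 + p.2) (Set.toFinite _))
      rintro _ ⟨f, hf, h, hh, rfl⟩
      exact ⟨(f, h), ⟨hf, hh⟩, rfl⟩
    have y1 : (1 : ℝ) ≤ X.ncard := by exact_mod_cast x1
    have y2 : (X.ncard : ℝ) ≤ ((B (2 * k)).ncard : ℝ) ^ 2 := by exact_mod_cast x2
    have := pos k
    refine ⟨?_, div_le_self (by positivity) y1⟩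
    rw [le_div_iff₀ (by linarith)]
    calc _ ≤ ((B (2 * k)).ncard : ℝ) ^ 2 * ((B (2 * k)).ncard : ℝ) ^ 2 := by gcongr
      _ = _ := by ring
  have hv : ∀ k, ((B (2 * k)).ncard : ℝ) ^ 2 ≤ BI (2 * k) ∧ BI (2 * k) ≤ ((B (2 * k)).ncard : ℝ) ^ 4 := by
    intro k
    rw [hBI]
    norm_cast
    constructor
    · rw [sq, ← Set.ncard_prod]
      refine Set.ncard_le_ncard_of_injOn (fun p => ![p.1, p.1, p.2, p.2 + 1]) ?_ ?_ (Set.toFinite _)
      · rintro ⟨f, g⟩ ⟨hf, hg⟩
        have e : ∀ y, W _ (g + 1) y = - W _ g y := fun y => by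
          simp only [hW', Wt, Pi.add_apply, Pi.one_apply, add_right_comm _ (1 : ZMod 2), ch_one,
            sum_neg_distrib]
        rw [hB] at hf hg
        refine ⟨fun i => ?_, fun y => ?_⟩
        · rw [hB]
          fin_cases i
          exacts [hf, hf, hg, fun y => (congrArg abs (e y)).trans ((abs_neg _).trans (hg y))]
        · have a1 := congrArg (· ^ 2) (hf y)
          have a2 := congrArg (· ^ 2) (hg y)
          simp only [sq_abs] at a1 a2
          simp only [Fin.prod_univ_four, Matrix.cons_val, e]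
          push_cast
          linear_combination (-(W _ g y) ^ 2) * a1 - (2 ^ (2 * k / 2)) ^ 2 * a2
      · intro p _ q _ e
        exact Prod.ext (congrFun e 0) (congrFun e 2)
    · have := Set.ncard_le_ncard (s := {t : Fin 4 → ((Fin (2 * k) → ZMod 2) → ZMod 2) |
          (∀ i, t i ∈ B (2 * k)) ∧ ∀ y, ∏ i, W _ (t i) y = -(2 ^ (2 * k / 2)) ^ 4})
        (t := Set.univ.pi fun _ => B (2 * k)) (fun t ht i _ => ht.1 i) (Set.toFinite _)
      rw [Set.ncard_def (Set.pi _ _), Set.encard_pi_eq_prod_encard, prod_const,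
        ← (Set.toFinite _).cast_ncard_eq, card_univ, Fintype.card_fin, ← Nat.cast_pow,
        ENat.toNat_coe] at this
      exact this
  refine ⟨?_, lim hb pos hu hv⟩
  obtain ⟨K, hK⟩ := eventually_atTop.1 (hb.eventually_gt_atTop 1)
  exact ⟨K, fun k hk => by nlinarith [hK k hk, (hu k).1]⟩

end Pool.Agent.S12383
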