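import Pool.Statements.S12385
import Pool.Agent.H11.EvenTree

set_option autoImplicit false
open Pool Pool.MP_f2fe2b_co

namespace Pool.Agent.S12385

/-- For all 1 ≤ k ≤ n, the even binary tree with n leaves (child leaf-counts differ by at most 1 at every vertex) has at least as many leaf subsets inducing the even tree with k leaves as any rooted binary tree with n leaves. -/
theorem result :
    ∀ k n : ℕ, 1 ≤ k → k ≤ n →
    ∀ (F : Finset (Finset (Fin k))) (E T : Finset (Finset (Fin n))),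
      ((∀ A ∈ F, A.Nonempty) ∧ (Finset.univ ∈ F) ∧ (∀ i : Fin k, ({i} : Finset (Fin k)) ∈ F) ∧
        (∀ A ∈ F, ∀ B ∈ F, A ⊆ B ∨ B ⊆ A ∨ Disjoint A B) ∧
        (∀ A ∈ F, 2 ≤ A.card → ∃ B ∈ F, ∃ D ∈ F, Disjoint B D ∧ B ∪ D = A) ∧
        (∀ A ∈ F, ∀ B ∈ F, B ⊂ A → (∀ D ∈ F, B ⊆ D → D ⊆ A → D = B ∨ D = A) →
          A.card ≤ 2 * B.card + 1 ∧ 2 * B.card ≤ A.card + 1)) →
      ((∀ A ∈ E, A.Nonempty) ∧ (Finset.univ ∈ E) ∧ (∀ i : Fin n, ({i} : Finset (Fin n)) ∈ E) ∧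
        (∀ A ∈ E, ∀ B ∈ E, A ⊆ B ∨ B ⊆ A ∨ Disjoint A B) ∧
        (∀ A ∈ E, 2 ≤ A.card → ∃ B ∈ E, ∃ D ∈ E, Disjoint B D ∧ B ∪ D = A) ∧
        (∀ A ∈ E, ∀ B ∈ E, B ⊂ A → (∀ D ∈ E, B ⊆ D → D ⊆ A → D = B ∨ D = A) →
          A.card ≤ 2 * B.card + 1 ∧ 2 * B.card ≤ A.card + 1)) →
      ((∀ A ∈ T, A.Nonempty) ∧ (Finset.univ ∈ T) ∧ (∀ i : Fin n, ({i} : Finset (Fin n)) ∈ T) ∧
        (∀ A ∈ T, ∀ B ∈ T, A ⊆ B ∨ B ⊆ A ∨ Disjoint A B) ∧
        (∀ A ∈ T, 2 ≤ A.card → ∃ B ∈ T, ∃ D ∈ T, Disjoint B D ∧ B ∪ D = A)) →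
      {L : Finset (Fin n) | ∃ f : Fin k → Fin n, Function.Injective f ∧
          Finset.univ.image f = L ∧
          ∀ B : Finset (Fin k), B ∈ F ↔ (B.Nonempty ∧ ∃ A ∈ T, B.image f = A ∩ L)}.ncard
        ≤
      {L : Finset (Fin n) | ∃ f : Fin k → Fin n, Function.Injective f ∧
          Finset.univ.image f = L ∧
          ∀ B : Finset (Fin k), B ∈ F ↔ (B.Nonempty ∧ ∃ A ∈ E, B.image f = A ∩ L)}.ncard := by
  open Pool.Agent.H11.EvenTree Pool.Agent.H11.EvenIneq in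
  intro k n hk hkn F E T hF hE hT
  obtain ⟨p, wp, lp, rfl⟩ := tree_of F hF.1 hF.2.1 hF.2.2.2.1 hF.2.2.2.2.1
  obtain ⟨e, we, le, rfl⟩ := tree_of E hE.1 hE.2.1 hE.2.2.2.1 hE.2.2.2.2.1
  obtain ⟨t, wt, lt, rfl⟩ := tree_of T hT.1 hT.2.1 hT.2.2.2.1 hT.2.2.2.2
  have bp := bal_of_fam p wp hF.2.2.2.2.2
  have be := bal_of_fam e we hE.2.2.2.2.2
  have h1 : (S t k).card ≤ (S e k).card := by
    have a1 := N_le t wt k
    have a2 := congrFun (N_eq e we be) k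
    rw [lt] at a1
    rw [le] at a2
    rw [← a2] at a1
    unfold N at a1
    exact_mod_cast a1
  refine le_trans (Set.ncard_le_ncard (t := (S t k : Set (Finset (Fin n)))) ?_ (Set.toFinite _))
    (le_trans ?_ (Set.ncard_le_ncard (s := (S e k : Set (Finset (Fin n)))) ?_ (Set.toFinite _)))
  · rintro L ⟨f, hf, hL, hB⟩
    have hc : L.card = k := by
      rw [← hL, Finset.card_image_of_injective _ hf]; simp
    refine Finset.mem_coe.2 (mem_S.2 ⟨by rw [lt]; exact Finset.subset_univ _, hc,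
      Finset.card_pos.1 (by omega), ?_⟩)
    exact ev_of_fam L t wt (fam_of_map _ hF.2.2.2.2.2 t L f hf hL hB)
  · rw [Set.ncard_coe_finset, Set.ncard_coe_finset]; exact h1
  · intro L hL
    obtain ⟨-, h2, -, h4⟩ := mem_S.1 (Finset.mem_coe.1 hL)
    obtain ⟨f, f1, f2, f3⟩ := exists_iso L e we h4 p wp bp (by rw [le, lp]; simp [h2])
    rw [lp] at f1 f2
    rw [le, Finset.univ_inter] at f2
    have hf : Function.Injective f := by simpa using f1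
    refine ⟨f, hf, f2, fun B => ?_⟩
    have := f3 (B.image f)
    rw [tr, Finset.image_nonempty] at this
    rw [this]
    constructor
    · intro hB; exact ⟨B, hB, rfl⟩
    · rintro ⟨B', hB', h⟩
      rwa [← Finset.image_injective hf h]


end Pool.Agent.S12385
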