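import Pool.Statements.S12466
-- import your own Pool.Agent.* helpers here

set_option autoImplicit false
open Pool Pool.MP_f7a12b_co

namespace Pool.Agent.S12466

/-- common atom: many points that no member of a small family separates -/
theorem atom (f : ℕ) (A : Finset (Finset (Fin (f * 2 ^ f + 1)))) (hA : A.card ≤ f) :
    ∃ F : Finset (Fin (f * 2 ^ f + 1)), f ≤ F.card ∧ ∀ S ∈ A, F ⊆ S ∨ Disjoint F S := by
  classical
  obtain ⟨B, -, hB⟩ := Finset.exists_le_card_fiber_of_mul_le_card_of_maps_to
    (s := (Finset.univ : Finset (Fin (f * 2 ^ f + 1)))) (t := A.powerset)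
    (f := fun c => A.filter fun S => c ∈ S) (n := f)
    (fun c _ => Finset.mem_powerset.2 (Finset.filter_subset _ _)) ⟨∅, by simp⟩ (by
      rw [Finset.card_powerset, Finset.card_univ, Fintype.card_fin]
      have : 2 ^ A.card ≤ 2 ^ f := Nat.pow_le_pow_right (by norm_num) hA
      nlinarith)
  refine ⟨_, hB, fun S hS => ?_⟩
  by_cases h : S ∈ B
  · left
    intro c hc
    have := (Finset.mem_filter.1 hc).2
    rw [← this] at h
    exact (Finset.mem_filter.1 h).2
  · right
    rw [Finset.disjoint_left]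
    intro c hc hcS
    have := (Finset.mem_filter.1 hc).2
    exact h (this ▸ Finset.mem_filter.2 ⟨hS, hcS⟩)

/-- The negation of the preceding statement: There is f such that for every k ≥ 1, every finite nonempty loopless digraph with minimum out-degree ≥ f(k) has a proper vertex subset X, with every vertex outside X having an out-neighbour in X, such that the digraph with X deleted has minimum out-degree ≥ k. -/
theorem result :
    ¬ (∃ f : ℕ → ℕ, ∀ k : ℕ, 1 ≤ k →
      ∀ (V : Type) [Fintype V] [Nonempty V] (D : Digraph V),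
        (∀ v, ¬ D.Adj v v) →
        (∀ v, f k ≤ {w : V | D.Adj v w}.ncard) →
        ∃ X : Set V, X ≠ Set.univ ∧
          (∀ y, y ∉ X → ∃ x ∈ X, D.Adj y x) ∧
          (∀ v, v ∉ X → k ≤ {w : V | w ∉ X ∧ D.Adj v w}.ncard)) := by
  classical
  rintro ⟨g, hg⟩
  set f := g 2 with hf
  choose F hF1 hF2 using atom f
  let C := Fin (f * 2 ^ f + 1)
  let adj : C ⊕ Finset (Finset C) → C ⊕ Finset (Finset C) → Prop := fun v w =>
    match v, w with
    | Sum.inl _, Sum.inl _ => False
    | Sum.inl _, Sum.inr B => ∃ S, B = Finset.univ.erase S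
    | Sum.inr A, Sum.inl c => ∃ h : A.card ≤ f, c ∈ F A h
    | Sum.inr A, Sum.inr B => f < A.card ∧ ∃ S ∈ A, B = A.erase S
  have herase : ∀ A : Finset (Finset C), ∀ W : Set (C ⊕ Finset (Finset C)),
      (∀ S ∈ A, Sum.inr (A.erase S) ∈ W) → A.card ≤ W.ncard := by
    intro A W h
    rw [← Set.ncard_coe_finset]
    refine Set.ncard_le_ncard_of_injOn (fun S => Sum.inr (A.erase S)) (fun S hS => h S hS) ?_
      (Set.toFinite _)
    intro S hS T hT hST
    exact (Finset.erase_inj A hS).1 (Sum.inr_injective hST)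
  obtain ⟨X, hX, h1, h2⟩ := hg 2 (by norm_num) (C ⊕ Finset (Finset C)) ⟨adj⟩ (by
      rintro (c | A) h
      · exact h
      · obtain ⟨-, S, hS, h⟩ := h
        have := Finset.card_erase_lt_of_mem hS
        rw [← h] at this
        exact lt_irrefl _ this) (by
      rintro (c | A)
      · refine le_trans ?_ (herase Finset.univ _ fun S _ => ⟨S, rfl⟩)
        rw [Finset.card_univ, Fintype.card_finset, Fintype.card_fin]
        have h1 : f * 2 ^ f + 1 < 2 ^ (f * 2 ^ f + 1) := Nat.lt_two_pow_self
        have h2 : 1 ≤ 2 ^ f := Nat.one_le_two_pow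
        nlinarith
      · by_cases hA : A.card ≤ f
        · refine le_trans (hF1 A hA) ?_
          rw [← Set.ncard_coe_finset]
          exact Set.ncard_le_ncard_of_injOn Sum.inl (fun c hc => ⟨hA, hc⟩)
            (fun _ _ _ _ h => Sum.inl_injective h) (Set.toFinite _)
        · exact le_trans (by omega) (herase A _ fun S hS => ⟨by omega, S, hS, rfl⟩))
  have two : ∀ v, v ∉ X → ∃ a b, a ≠ b ∧ (a ∉ X ∧ adj v a) ∧ (b ∉ X ∧ adj v b) := by
    intro v hv
    obtain ⟨a, ha, b, hb, hab⟩ := (Set.one_lt_ncard (Set.toFinite _)).1 (h2 v hv)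
    exact ⟨a, b, hab, ha, hb⟩
  let S0 : Finset C := Finset.univ.filter fun c => Sum.inl c ∉ X
  have keep : ∀ (A : Finset (Finset C)) (a b : C ⊕ Finset (Finset C)), S0 ∈ A → a ≠ b → a ∉ X →
      b ∉ X → (∃ S, a = Sum.inr (A.erase S)) → (∃ S, b = Sum.inr (A.erase S)) →
      ∃ S, Sum.inr (A.erase S) ∉ X ∧ S0 ∈ A.erase S ∧
        (a = Sum.inr (A.erase S) ∨ b = Sum.inr (A.erase S)) := by
    rintro A _ _ hA hab ha hb ⟨S, rfl⟩ ⟨T, rfl⟩
    by_cases h : S0 = S
    · refine ⟨T, hb, Finset.mem_erase.2 ⟨fun h' => hab (by rw [← h, ← h']), hA⟩, Or.inr rfl⟩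
    · exact ⟨S, ha, Finset.mem_erase.2 ⟨h, hA⟩, Or.inl rfl⟩
  have key : ∀ (n : ℕ) (A : Finset (Finset C)), A.card = n → Sum.inr A ∉ X → S0 ∈ A → False := by
    intro n
    induction n using Nat.strong_induction_on with
    | _ n ih =>
      intro A hn hA hS
      obtain ⟨a, b, hab, ha, hb⟩ := two _ hA
      by_cases hc : A.card ≤ f
      · rcases hF2 A hc S0 hS with h | h
        · obtain ⟨x, hx, hadj⟩ := h1 _ hA
          rcases x with c | B
          · obtain ⟨h', hc'⟩ := hadj
            exact (Finset.mem_filter.1 (h hc')).2 hx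
          · exact absurd hadj.1 (by omega)
        · rcases a with c | B
          · obtain ⟨h', hc'⟩ := ha.2
            exact Finset.disjoint_left.1 h hc' (Finset.mem_filter.2 ⟨Finset.mem_univ _, ha.1⟩)
          · exact absurd ha.2.1 (by omega)
      · have form : ∀ w, adj (Sum.inr A) w → ∃ S, S ∈ A ∧ w = Sum.inr (A.erase S) := by
          rintro (c | B) hw
          · exact absurd hw.1 hc
          · obtain ⟨-, S, h3, h4⟩ := hw
            exact ⟨S, h3, by rw [h4]⟩
        obtain ⟨S, hS1, hS2⟩ := form a ha.2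
        obtain ⟨T, hT1, hT2⟩ := form b hb.2
        obtain ⟨R, h3, h4, h5⟩ := keep A a b hS hab ha.1 hb.1 ⟨S, hS2⟩ ⟨T, hT2⟩
        refine ih _ ?_ (A.erase R) rfl h3 h4
        rcases h5 with h5 | h5
        · rw [← Sum.inr_injective (hS2.symm.trans h5), ← hn]
          exact Finset.card_erase_lt_of_mem hS1
        · rw [← Sum.inr_injective (hT2.symm.trans h5), ← hn]
          exact Finset.card_erase_lt_of_mem hT1
  have noC : ∀ c : C, Sum.inl c ∉ X → False := by
    intro c hc
    obtain ⟨a, b, hab, ha, hb⟩ := two _ hc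
    have form : ∀ w, adj (Sum.inl c) w → ∃ S, w = Sum.inr (Finset.univ.erase S) := by
      rintro (c | B) hw
      · exact absurd hw id
      · obtain ⟨S, h4⟩ := hw
        exact ⟨S, by rw [h4]⟩
    obtain ⟨R, h3, h4, -⟩ := keep Finset.univ a b (Finset.mem_univ _) hab ha.1 hb.1
      (form a ha.2) (form b hb.2)
    exact key _ _ rfl h3 h4
  have noA : ∀ (n : ℕ) (A : Finset (Finset C)), A.card = n → Sum.inr A ∉ X → False := by
    intro n
    induction n using Nat.strong_induction_on with
    | _ n ih =>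
      intro A hn hA
      obtain ⟨a, b, -, ha, -⟩ := two _ hA
      rcases a with c | B
      · exact noC c ha.1
      · obtain ⟨-, S, h3, h4⟩ := ha.2
        refine ih _ ?_ B rfl ha.1
        rw [h4, ← hn]
        exact Finset.card_erase_lt_of_mem h3
  apply hX
  rw [Set.eq_univ_iff_forall]
  rintro (c | A)
  · by_contra h; exact noC c h
  · by_contra h; exact noA _ A rfl h

end Pool.Agent.S12466
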