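import Pool.Statements.S12504
-- import your own Pool.Agent.* helpers here

set_option autoImplicit false
open Pool Pool.MP_f90e5e_co

namespace Pool.Agent.S12504

def pm : Fin 3 → Fin 16 → Fin 16 := ![![2, 3, 0, 1, 6, 7, 4, 5, 10, 11, 8, 9, 14, 15, 12, 13],
  ![4, 6, 5, 7, 0, 2, 1, 3, 12, 14, 13, 15, 8, 10, 9, 11],
  ![6, 4, 7, 5, 1, 3, 0, 2, 14, 12, 15, 13, 9, 11, 8, 10]]

def rep : Fin 3 → Fin 8 → Fin 16 := ![![0, 1, 4, 5, 8, 9, 12, 13], ![0, 2, 1, 3, 8, 10, 9, 11],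
  ![1, 3, 0, 2, 9, 11, 8, 10]]

def ix : Fin 3 → Fin 16 → Fin 8 := ![![0, 1, 0, 1, 2, 3, 2, 3, 4, 5, 4, 5, 6, 7, 6, 7],
  ![0, 2, 1, 3, 0, 1, 2, 3, 4, 6, 5, 7, 4, 5, 6, 7],
  ![2, 0, 3, 1, 0, 1, 2, 3, 6, 4, 7, 5, 4, 5, 6, 7]]

theorem pm_inv : ∀ c v, pm c (pm c v) = v := by decide
theorem pm_ne : ∀ c v, pm c v ≠ v := by decide
theorem pm_inj : ∀ c d v, pm c v = pm d v → c = d := by decide
theorem ix_spec : ∀ c v, rep c (ix c v) = v ∨ rep c (ix c v) = pm c v := by decide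
theorem rep_inj : ∀ c i j, (rep c i = rep c j ∨ rep c i = pm c (rep c j)) → i = j := by decide

def MM (c : Fin 3) : (⊤ : SimpleGraph (Fin 16)).Subgraph where
  verts := Set.univ
  Adj u v := pm c u = v
  adj_sub := fun {u v} h => by
    rw [SimpleGraph.top_adj, ← h]; exact (pm_ne c u).symm
  edge_vert := fun _ => Set.mem_univ _
  symm := ⟨fun u v h => by rw [← h, pm_inv]⟩

def GG : SimpleGraph (Fin 16) where
  Adj u v := pm 0 u = v ∨ pm 1 u = v ∨ pm 2 u = v
  symm := ⟨fun u v h => by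
    rcases h with h | h | h
    · left; rw [← h, pm_inv]
    · right; left; rw [← h, pm_inv]
    · right; right; rw [← h, pm_inv]⟩
  loopless := ⟨fun u h => by
    rcases h with h | h | h <;> exact pm_ne _ _ h⟩

theorem perf (c : Fin 3) : (MM c).IsPerfectMatching :=
  ⟨fun v _ => ⟨pm c v, rfl, fun _ h => Eq.symm h⟩, fun _ => Set.mem_univ _⟩

theorem disj (c d : Fin 3) (h : c ≠ d) : Disjoint (MM c).edgeSet (MM d).edgeSet := by
  rw [Set.disjoint_left]
  intro e
  induction e using Sym2.ind with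
  | _ u v =>
    intro h1 h2
    have h3 : pm c u = v := h1
    have h4 : pm d u = v := h2
    exact h (pm_inj c d u (h3.trans h4.symm))

open Classical in
noncomputable def yy (M : GG.Subgraph) (c : Fin 3) (i : Fin 8) : ℕ :=
  if M.Adj (rep c i) (pm c (rep c i)) then 1 else 0

theorem cnt (M : GG.Subgraph) (c : Fin 3) :
    (M.edgeSet ∩ (MM c).edgeSet).ncard = ∑ i, yy M c i := by
  classical
  have h1 : M.edgeSet ∩ (MM c).edgeSet = (fun i => s(rep c i, pm c (rep c i))) ''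
      ((Finset.univ.filter fun i => M.Adj (rep c i) (pm c (rep c i)) : Finset (Fin 8)) : Set (Fin 8)) := by
    ext e
    induction e using Sym2.ind with
    | _ u v =>
      constructor
      · rintro ⟨h1, h2⟩
        have h3 : pm c u = v := h2
        have h4 : M.Adj u v := h1
        subst h3
        refine ⟨ix c u, ?_, ?_⟩
        · simp only [Finset.coe_filter, Finset.mem_univ, true_and, Set.mem_ofPred_eq]
          rcases ix_spec c u with h | h
          · rw [h]; exact h4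
          · rw [h, pm_inv]; exact h4.symm
        · rcases ix_spec c u with h | h
          · simp only [h]
          · simp only [h, pm_inv]; exact Sym2.eq_swap
      · rintro ⟨i, hi, he⟩
        simp only [Finset.coe_filter, Finset.mem_univ, true_and, Set.mem_ofPred_eq] at hi
        rw [← he]
        exact ⟨hi, rfl⟩
  rw [h1, Set.ncard_image_of_injective, Set.ncard_coe_finset, Finset.card_filter]
  · rfl
  · intro i j hij
    apply rep_inj c i j
    rcases Sym2.eq_iff.1 hij with h | h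
    · exact Or.inl h.1
    · exact Or.inr h.1

theorem adj_of (M : GG.Subgraph) (c : Fin 3) (v : Fin 16) (h : yy M c (ix c v) ≠ 0) :
    M.Adj v (pm c v) := by
  unfold yy at h
  split_ifs at h with h1
  · rcases ix_spec c v with h2 | h2
    · rwa [h2] at h1
    · rw [h2, pm_inv] at h1; exact h1.symm
  · exact absurd rfl h

theorem yy_le (M : GG.Subgraph) (c : Fin 3) (i : Fin 8) : yy M c i ≤ 1 := by
  unfold yy; split_ifs <;> omega

theorem vert (M : GG.Subgraph) (hM : M.IsMatching) (v : Fin 16) :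
    yy M 0 (ix 0 v) + yy M 1 (ix 1 v) + yy M 2 (ix 2 v) ≤ 1 := by
  have key : ∀ c d, yy M c (ix c v) ≠ 0 → yy M d (ix d v) ≠ 0 → c = d := by
    intro c d hc hd
    have h1 := adj_of M c v hc
    have h2 := adj_of M d v hd
    exact pm_inj c d v ((hM (M.edge_vert h1)).unique h1 h2)
  have k01 := key 0 1
  have k02 := key 0 2
  have k12 := key 1 2
  have l0 := yy_le M 0 (ix 0 v)
  have l1 := yy_le M 1 (ix 1 v)
  have l2 := yy_le M 2 (ix 2 v)
  have n01 : (0 : Fin 3) ≠ 1 := by decide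
  have n02 : (0 : Fin 3) ≠ 2 := by decide
  have n12 : (1 : Fin 3) ≠ 2 := by decide
  by_cases a0 : yy M 0 (ix 0 v) = 0 <;> by_cases a1 : yy M 1 (ix 1 v) = 0 <;>
    by_cases a2 : yy M 2 (ix 2 v) = 0 <;> omega

theorem comp (a0 a1 a2 a3 b0 b1 b2 b3 c0 c1 c2 c3 : ℕ)
    (h0 : a0 + b0 + c2 ≤ 1)
    (h1 : a1 + b2 + c0 ≤ 1)
    (h2 : a0 + b1 + c3 ≤ 1)
    (h3 : a1 + b3 + c1 ≤ 1)
    (h4 : a2 + b0 + c0 ≤ 1)
    (h5 : a3 + b1 + c1 ≤ 1)
    (h6 : a2 + b2 + c2 ≤ 1)
    (h7 : a3 + b3 + c3 ≤ 1)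
    : a0 + a1 + a2 + a3 + (b0 + b1 + b2 + b3) + (c0 + c1 + c2 + c3) ≤ 3 ∨
      (a0 + a1 + a2 + a3 + (b0 + b1 + b2 + b3) + (c0 + c1 + c2 + c3) = 4 ∧
        (a0 + a1 + a2 + a3 = 4 ∨ b0 + b1 + b2 + b3 = 4 ∨ 2 ≤ c0 + c1 + c2 + c3)) := by
  omega

/-- The negation of the preceding statement: If a graph on 2n vertices is the union of three edge-disjoint perfect matchings and has a component not isomorphic to K4, then for all a1+a2+a3=n-1 it has a matching using exactly ai edges from the i-th matching. -/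
theorem result :
    ¬ (∀ (V : Type) [Fintype V] (n : ℕ), Fintype.card V = 2 * n →
    ∀ (M₁ M₂ M₃ : (⊤ : SimpleGraph V).Subgraph),
      M₁.IsPerfectMatching → M₂.IsPerfectMatching → M₃.IsPerfectMatching →
      Disjoint M₁.edgeSet M₂.edgeSet → Disjoint M₁.edgeSet M₃.edgeSet →
      Disjoint M₂.edgeSet M₃.edgeSet →
      ∀ G : SimpleGraph V, G.edgeSet = M₁.edgeSet ∪ M₂.edgeSet ∪ M₃.edgeSet →
      (∃ c : G.ConnectedComponent,
        IsEmpty (G.induce c.supp ≃g (⊤ : SimpleGraph (Fin 4)))) →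
      ∀ a₁ a₂ a₃ : ℕ, a₁ + a₂ + a₃ + 1 = n →
      ∃ M : G.Subgraph, M.IsMatching ∧
        (M.edgeSet ∩ M₁.edgeSet).ncard = a₁ ∧
        (M.edgeSet ∩ M₂.edgeSet).ncard = a₂ ∧
        (M.edgeSet ∩ M₃.edgeSet).ncard = a₃) := by
  intro H
  have hE : GG.edgeSet = (MM 0).edgeSet ∪ (MM 1).edgeSet ∪ (MM 2).edgeSet := by
    ext e
    induction e using Sym2.ind with
    | _ u v => exact or_assoc.symm
  have hc : ∃ c : GG.ConnectedComponent,
      IsEmpty (GG.induce c.supp ≃g (⊤ : SimpleGraph (Fin 4))) := by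
    refine ⟨GG.connectedComponentMk 0, ⟨fun φ => ?_⟩⟩
    have a04 : GG.Adj 0 4 := Or.inr (Or.inl (by decide))
    have a14 : GG.Adj 1 4 := Or.inr (Or.inr (by decide))
    have m0 : (0 : Fin 16) ∈ (GG.connectedComponentMk 0).supp := rfl
    have m1 : (1 : Fin 16) ∈ (GG.connectedComponentMk 0).supp :=
      SimpleGraph.ConnectedComponent.sound (a14.reachable.trans a04.symm.reachable)
    have hne : φ ⟨0, m0⟩ ≠ φ ⟨1, m1⟩ := fun h => by
      have : (0 : Fin 16) = 1 := congrArg Subtype.val (φ.injective h)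
      exact absurd this (by decide)
    have h01 : GG.Adj 0 1 := φ.map_adj_iff.1 ((SimpleGraph.top_adj _ _).2 hne)
    rcases h01 with h | h | h <;> exact absurd h (by decide)
  obtain ⟨M, hM, h1, h2, h3⟩ := H (Fin 16) 8 (by simp) (MM 0) (MM 1) (MM 2) (perf 0) (perf 1)
    (perf 2) (disj 0 1 (by decide)) (disj 0 2 (by decide)) (disj 1 2 (by decide)) GG hE hc 3 3 1 rfl
  rw [cnt, Fin.sum_univ_eight] at h1 h2 h3
  have k0 := comp (yy M 0 0) (yy M 0 1) (yy M 0 2) (yy M 0 3) (yy M 1 0) (yy M 1 1) (yy M 1 2) (yy M 1 3) (yy M 2 0) (yy M 2 1) (yy M 2 2) (yy M 2 3)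
    (vert M hM 0) (vert M hM 1) (vert M hM 2) (vert M hM 3) (vert M hM 4) (vert M hM 5) (vert M hM 6) (vert M hM 7)
  have k1 := comp (yy M 0 4) (yy M 0 5) (yy M 0 6) (yy M 0 7) (yy M 1 4) (yy M 1 5) (yy M 1 6) (yy M 1 7) (yy M 2 4) (yy M 2 5) (yy M 2 6) (yy M 2 7)
    (vert M hM 8) (vert M hM 9) (vert M hM 10) (vert M hM 11) (vert M hM 12) (vert M hM 13) (vert M hM 14) (vert M hM 15)
  omega

end Pool.Agent.S12504
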