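import Pool.Statements.S12514
import Pool.Agent.H21.PST

set_option autoImplicit false
open Pool Pool.MP_f96bdb_co

namespace Pool.Agent.S12514

/-- The negation of the preceding statement: There are k > 3 and c > 0 such that every finite connected graph with perfect state transfer between two distinct vertices (exp(itA)e_u = γe_v, ∣γ∣=1) has edge count at least c·D^k, D its diameter. -/
theorem result :
    ¬ (∃ k : ℝ, 3 < k ∧ ∃ c : ℝ, 0 < c ∧
      ∀ (V : Type) [Fintype V] [DecidableEq V] (G : SimpleGraph V) [DecidableRel G.Adj],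
        G.Connected →
        (∃ u v : V, u ≠ v ∧ ∃ t : ℝ, ∃ γ : ℂ, ‖γ‖ = 1 ∧
          (NormedSpace.exp ((Complex.I * (t : ℂ)) • G.adjMatrix ℂ)).mulVec (Pi.single u 1)
            = Pi.single v γ) →
        c * (G.diam : ℝ) ^ k ≤ (G.edgeFinset.card : ℝ)) := by
  rintro ⟨k, hk, c, hc, h⟩
  have t := (tendsto_rpow_atTop (sub_pos.mpr hk)).comp
    (Filter.tendsto_atTop_add_const_right _ 1 tendsto_natCast_atTop_atTop)
  obtain ⟨m, hm⟩ := (t.eventually_gt_atTop (160 / c)).exists
  have h1 := h _ (H21.PST.G m) (H21.PST.conn m) ⟨_, _, H21.PST.a_ne_b m, _, 1, norm_one,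
    H21.PST.pst m⟩
  obtain ⟨x, y, hx, hy⟩ := H21.PST.ends m
  have h2 := H21.PST.diam_ge _ (H21.PST.conn m) (fun x => H21.PST.lev m x.1)
    (H21.PST.lev_adj m) x y
  have h3 : (m + 1 : ℝ) ≤ (H21.PST.G m).diam := by
    exact_mod_cast (by simp only [hx, hy] at h2; omega : m + 1 ≤ (H21.PST.G m).diam)
  have h4 : ((H21.PST.G m).edgeFinset.card : ℝ) ≤ 160 * (m + 1) ^ 3 := by
    exact_mod_cast H21.PST.edges_le m
  have p : (0 : ℝ) < m + 1 := by positivity
  have h5 := Real.rpow_le_rpow p.le h3 (by linarith : 0 ≤ k)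
  have h6 : (m + 1 : ℝ) ^ k = (m + 1) ^ (k - 3) * (m + 1) ^ 3 := by
    rw [← Real.rpow_natCast, ← Real.rpow_add p]; norm_num
  simp only [Function.comp_apply] at hm
  rw [div_lt_iff₀' hc] at hm
  have h7 := mul_lt_mul_of_pos_right hm (pow_pos p 3)
  nlinarith [mul_le_mul_of_nonneg_left h5 hc.le]

end Pool.Agent.S12514
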