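import Pool.Statements.S12526
-- import your own Pool.Agent.* helpers here

set_option autoImplicit false
open Pool Pool.MP_fa3e6d_co

namespace Pool.Agent.S12526

def el : List (ℕ × ℕ) := [(0,2),(0,4),(0,5),(0,6),(0,7),(1,3),(1,4),(1,5),(1,6),(1,8),(2,4),(2,6),
  (2,7),(2,8),(3,5),(3,6),(3,7),(3,8),(4,7),(4,8),(5,7),(6,8)]

def adjB (a b : Fin 9) : Bool := el.contains (a.val, b.val) || el.contains (b.val, a.val)

def G : SimpleGraph (Fin 9) where
  Adj a b := adjB a b = true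
  symm := ⟨by decide⟩
  loopless := ⟨by decide⟩

instance : DecidableRel G.Adj := fun a b => inferInstanceAs (Decidable (adjB a b = true))

def Irr (S : Finset (Fin 9)) : Prop :=
  ∀ v ∈ S, ∃ w, (w = v ∨ G.Adj v w) ∧ ∀ u ∈ S, u ≠ v → ¬ (w = u ∨ G.Adj u w)

instance (S : Finset (Fin 9)) : Decidable (Irr S) := by unfold Irr; infer_instance

def f : Fin 7 → Finset (Fin 9) :=
  ![{2,4,7}, {0,4,7}, {0,4,5}, {4,5,6}, {1,5,6}, {1,3,6}, {3,6,8}]

theorem key : ∀ S : Finset (Fin 9), Irr S → S.card ≤ 2 ∨ ∃ i, f i = S := by decide +kernel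

theorem f_irr : ∀ i, Irr (f i) ∧ (f i).card = 3 := by decide +kernel

theorem f_inj : Function.Injective f := by decide +kernel

theorem f_adj : ∀ i j : Fin 7, (f i ≠ f j ∧
    ((∃ v ∈ f i, ∃ v' ∈ f j, G.Adj v v' ∧ f j = insert v' ((f i).erase v)) ∨
     (∃ v ∈ f j, ∃ v' ∈ f i, G.Adj v v' ∧ f i = insert v' ((f j).erase v)))) ↔
    (i.val + 1 = j.val ∨ j.val + 1 = i.val) := by decide +kernel

theorem le3 (T : Finset (Fin 9)) (h : Irr T) : T.card ≤ 3 := by
  rcases key T h with h | ⟨i, rfl⟩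
  · omega
  · exact (f_irr i).2.le

def F (i : Fin 7) : {S : Finset (Fin 9) // Irr S ∧ ∀ T : Finset (Fin 9), Irr T → T.card ≤ S.card} :=
  ⟨f i, (f_irr i).1, fun T hT => (f_irr i).2 ▸ le3 T hT⟩

theorem F_bij : Function.Bijective F := by
  refine ⟨fun i j h => f_inj (congrArg Subtype.val h), ?_⟩
  rintro ⟨S, h1, h2⟩
  rcases key S h1 with h | ⟨i, rfl⟩
  · have := h2 _ (f_irr 0).1
    rw [(f_irr 0).2] at this
    omega
  · exact ⟨i, rfl⟩

/-- The negation of the preceding statement: For every finite graph G, its slide IR-graph (maximum irredundant sets, adjacent when one is obtained from the other by sliding a vertex along an edge) is not isomorphic to any path on n≥3 vertices nor any cycle on n≥5 vertices. -/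
theorem result :
    ¬ (∀ (m : ℕ) (G : SimpleGraph (Fin m)),
      (∀ n : ℕ, 3 ≤ n →
        IsEmpty (SimpleGraph.pathGraph n ≃g
          SimpleGraph.fromRel
            (fun D D' : {S : Finset (Fin m) //
                (∀ v ∈ S, ∃ w, (w = v ∨ G.Adj v w) ∧ ∀ u ∈ S, u ≠ v → ¬ (w = u ∨ G.Adj u w)) ∧
                ∀ T : Finset (Fin m),
                  (∀ v ∈ T, ∃ w, (w = v ∨ G.Adj v w) ∧ ∀ u ∈ T, u ≠ v → ¬ (w = u ∨ G.Adj u w)) →
                  T.card ≤ S.card} =>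
              ∃ v ∈ D.1, ∃ v' ∈ D'.1, G.Adj v v' ∧ D'.1 = insert v' (D.1.erase v)))) ∧
      (∀ n : ℕ, 5 ≤ n →
        IsEmpty (SimpleGraph.cycleGraph n ≃g
          SimpleGraph.fromRel
            (fun D D' : {S : Finset (Fin m) //
                (∀ v ∈ S, ∃ w, (w = v ∨ G.Adj v w) ∧ ∀ u ∈ S, u ≠ v → ¬ (w = u ∨ G.Adj u w)) ∧
                ∀ T : Finset (Fin m),
                  (∀ v ∈ T, ∃ w, (w = v ∨ G.Adj v w) ∧ ∀ u ∈ T, u ≠ v → ¬ (w = u ∨ G.Adj u w)) →
                  T.card ≤ S.card} =>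
              ∃ v ∈ D.1, ∃ v' ∈ D'.1, G.Adj v v' ∧ D'.1 = insert v' (D.1.erase v))))) := by
  intro h
  refine ((h 9 G).1 7 (by norm_num)).false ⟨Equiv.ofBijective F F_bij, ?_⟩
  intro i j
  rw [SimpleGraph.pathGraph_adj, SimpleGraph.fromRel_adj, ← f_adj, Ne, Subtype.ext_iff]
  rfl

end Pool.Agent.S12526
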