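import Pool.Statements.S12603
import Pool.Agent.H6.RSC

set_option autoImplicit false
open Pool Pool.MP_fd2cdc_co

namespace Pool.Agent.S12603

open Cardinal Set Pool.Agent.H6.RS

lemma no_chain {P : Type} [PartialOrder P] (n : ℕ)
    (hn : ∀ s : Set P, IsChain (· ≤ ·) s → s.encard ≤ (n : ℕ∞)) (f : ℕ → P)
    (hf : Function.Injective f) (hc : IsChain (· ≤ ·) (range f)) : False := by
  have h := hn _ hc
  rw [(infinite_range_of_injective hf).encard_eq] at h
  exact absurd h (by simp)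

lemma wf_lt {P : Type} [PartialOrder P] (n : ℕ)
    (hn : ∀ s : Set P, IsChain (· ≤ ·) s → s.encard ≤ (n : ℕ∞)) :
    WellFounded (fun a b : P => a < b) := by
  rw [wellFounded_iff_isEmpty_descending_chain]
  refine ⟨fun ⟨f, hf⟩ => ?_⟩
  have h : StrictAnti f := strictAnti_nat_of_succ_lt hf
  exact no_chain n hn f h.injective h.antitone.isChain_range

lemma wf_gt {P : Type} [PartialOrder P] (n : ℕ)
    (hn : ∀ s : Set P, IsChain (· ≤ ·) s → s.encard ≤ (n : ℕ∞)) :
    WellFounded (fun a b : P => b < a) := by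
  rw [wellFounded_iff_isEmpty_descending_chain]
  refine ⟨fun ⟨f, hf⟩ => ?_⟩
  have h : StrictMono f := strictMono_nat_of_lt_succ hf
  exact no_chain n hn f h.injective h.monotone.isChain_range

lemma exists_sys {P : Type} [PartialOrder P] (h1 : WellFounded (fun a b : P => a < b))
    (h2 : WellFounded (fun a b : P => b < a)) :
    ∃ T : Sys P, T.R = fun x y => x ≤ y ∨ y ≤ x := by
  obtain ⟨X, hX⟩ := exists_kernel h1 h2 (fun _ _ _ => lt_trans) (fun _ _ _ h h' => lt_trans h' h)
  refine ⟨⟨fun x y => x ≤ y ∨ y ≤ x, fun _ _ h => h.symm, fun _ => Or.inl le_rfl, X, ?_⟩, rfl⟩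
  intro l x
  rw [hX]
  constructor
  · rintro ⟨a1, a2⟩ m hm hr
    have b1 : #{z | z ∈ X m ∧ z < x} < m := by
      by_contra hc
      exact a1 ⟨m, hm, hr, not_lt.1 hc⟩
    have b2 : #{z | z ∈ X m ∧ x < z} < m := by
      by_contra hc
      exact a2 ⟨m, hm, hr, not_lt.1 hc⟩
    have b3 : #({x} : Set P) < m := by
      rw [mk_singleton]
      exact one_lt_aleph0.trans_le hr.aleph0_le
    refine lt_of_le_of_lt (mk_le_mk_of_subset ?_)
      (mk_union_lt hr.aleph0_le (mk_union_lt hr.aleph0_le b1 b2) b3)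
    rintro z ⟨hz, h | h⟩
    · rcases h.lt_or_eq with h | h
      · exact Or.inl (Or.inr ⟨hz, h⟩)
      · exact Or.inr h.symm
    · rcases h.lt_or_eq with h | h
      · exact Or.inl (Or.inl ⟨hz, h⟩)
      · exact Or.inr h
  · intro h
    constructor
    · rintro ⟨m, hm, hr, hc⟩
      refine absurd (hc.trans (mk_le_mk_of_subset ?_)) (not_le.2 (h m hm hr))
      exact fun z hz => ⟨hz.1, Or.inr hz.2.le⟩
    · rintro ⟨m, hm, hr, hc⟩
      refine absurd (hc.trans (mk_le_mk_of_subset ?_)) (not_le.2 (h m hm hr))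
      exact fun z hz => ⟨hz.1, Or.inl hz.2.le⟩

/-- Every infinite poset with a uniform bound on chain sizes has an infinite antichain H such that each element is comparable to no element of H, exactly one element of H, or infinitely many elements of H. -/
theorem result :
    ∀ (P : Type) [PartialOrder P], Infinite P →
      (∃ n : ℕ, ∀ s : Set P, IsChain (· ≤ ·) s → s.encard ≤ (n : ℕ∞)) →
      ∃ H : Set P, H.Infinite ∧ IsAntichain (· ≤ ·) H ∧
        ∀ x : P,
          ({h | h ∈ H ∧ (x ≤ h ∨ h ≤ x)}.encard = 0 ∨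
           {h | h ∈ H ∧ (x ≤ h ∨ h ≤ x)}.encard = 1 ∨
           {h | h ∈ H ∧ (x ≤ h ∨ h ≤ x)}.Infinite) := by
  rintro P _ hP ⟨n, hn⟩
  obtain ⟨T, hT⟩ := exists_sys (wf_lt n hn) (wf_gt n hn)
  obtain ⟨H, h1, h2, h3⟩ := good T
  rw [hT] at h2 h3
  refine ⟨H, h1, fun a ha b hb hab hle => hab (h2 a ha b hb (Or.inl hle)), fun x => ?_⟩
  rcases h3 x with h | h
  · rcases h.eq_empty_or_singleton with h | ⟨y, h⟩
    · left
      rw [show {h | h ∈ H ∧ (x ≤ h ∨ h ≤ x)} = ∅ from h]
      simp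
    · right; left
      rw [show {h | h ∈ H ∧ (x ≤ h ∨ h ≤ x)} = {y} from h]
      simp
  · exact Or.inr (Or.inr h)

end Pool.Agent.S12603
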