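import Pool.Statements.S12606
-- import your own Pool.Agent.* helpers here

set_option autoImplicit false
open Pool Pool.MP_fd346d_co

namespace Pool.Agent.S12606

/-- two element antichain -/
def AC : Type := Bool

instance : DecidableEq AC := inferInstanceAs (DecidableEq Bool)
instance : Fintype AC := inferInstanceAs (Fintype Bool)

instance : PartialOrder AC where
  le x y := x = y
  le_refl _ := rfl
  le_trans _ _ _ h1 h2 := h1.trans h2
  le_antisymm _ _ h _ := h

instance : DecidableLE AC := fun x y => inferInstanceAs (Decidable (x = y))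

def toB (x : AC) : Bool := x
def ofB (x : Bool) : AC := x

lemma real_of_rank {P : Type} [PartialOrder P] {d : ℕ} (f : Fin d → P → ℕ)
    (hf : ∀ i x y, f i x = f i y → x = y) (h : ∀ x y, x ≤ y ↔ ∀ i, f i x ≤ f i y) :
    ∃ r : Fin d → P → P → Prop,
        (∀ i, (∀ x, r i x x) ∧ (∀ x y z, r i x y → r i y z → r i x z) ∧
          (∀ x y, r i x y → r i y x → x = y) ∧ (∀ x y, r i x y ∨ r i y x)) ∧
        ∀ x y, x ≤ y ↔ ∀ i, r i x y :=
  ⟨fun i x y => f i x ≤ f i y, fun i => ⟨fun _ => le_rfl, fun _ _ _ => le_trans,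
    fun x y h1 h2 => hf i x y (le_antisymm h1 h2), fun _ _ => le_total _ _⟩, h⟩

lemma two_le {P : Type} [PartialOrder P] {d : ℕ} (u v : P) (h1 : ¬ u ≤ v) (h2 : ¬ v ≤ u)
    (r : Fin d → P → P → Prop) (ht : ∀ i x y, r i x y ∨ r i y x)
    (h : ∀ x y, x ≤ y ↔ ∀ i, r i x y) : 2 ≤ d := by
  rw [h] at h1 h2
  obtain ⟨i, hi⟩ := not_forall.1 h1
  obtain ⟨j, hj⟩ := not_forall.1 h2
  have hne : i ≠ j := by
    rintro rfl
    exact (ht i u v).elim hi hj
  have := i.isLt
  have := j.isLt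
  have : i.val ≠ j.val := fun e => hne (Fin.ext e)
  omega

def fP : Fin 2 → Bool × Bool → ℕ := fun i x =>
  if i = 0 then 2 * x.1.toNat + x.2.toNat else x.1.toNat + 2 * x.2.toNat

def fQ : Fin 2 → AC → ℕ := fun i x =>
  if i = 0 then (toB x).toNat else 1 - (toB x).toNat

def fR : Fin 2 → (Bool × Bool) × AC → ℕ := fun i x => fP i x.1 + 4 * fQ i x.2

lemma eP : ∃ r : Fin 2 → (Bool × Bool) → (Bool × Bool) → Prop,
        (∀ i, (∀ x, r i x x) ∧ (∀ x y z, r i x y → r i y z → r i x z) ∧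
          (∀ x y, r i x y → r i y x → x = y) ∧ (∀ x y, r i x y ∨ r i y x)) ∧
        ∀ x y, x ≤ y ↔ ∀ i, r i x y := real_of_rank fP (by decide) (by decide)

lemma eQ : ∃ r : Fin 2 → AC → AC → Prop,
        (∀ i, (∀ x, r i x x) ∧ (∀ x y z, r i x y → r i y z → r i x z) ∧
          (∀ x y, r i x y → r i y x → x = y) ∧ (∀ x y, r i x y ∨ r i y x)) ∧
        ∀ x y, x ≤ y ↔ ∀ i, r i x y := real_of_rank fQ (by decide) (by decide)

lemma eR : ∃ r : Fin 2 → (Bool × Bool) × AC → (Bool × Bool) × AC → Prop,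
        (∀ i, (∀ x, r i x x) ∧ (∀ x y z, r i x y → r i y z → r i x z) ∧
          (∀ x y, r i x y → r i y x → x = y) ∧ (∀ x y, r i x y ∨ r i y x)) ∧
        ∀ x y, x ≤ y ↔ ∀ i, r i x y := real_of_rank fR (by decide) (by decide)

lemma n1 : ¬ ((true, false) : Bool × Bool) ≤ (false, true) := by decide
lemma n2 : ¬ ((false, true) : Bool × Bool) ≤ (true, false) := by decide
lemma n3 : ¬ ofB true ≤ ofB false := by decide
lemma n4 : ¬ ofB false ≤ ofB true := by decide

open scoped Classical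

/-- The negation of the preceding statement: For all posets P, Q with at least two elements and finite dimension, dim P + dim Q ≤ dim(P×Q) + b, where b counts the factors lacking a least or greatest element; dimension means the least number of linear orders whose intersection is the order. -/
theorem result :
    ¬ (∀ (P Q : Type) [PartialOrder P] [PartialOrder Q], Nontrivial P → Nontrivial Q →
      (∃ d : ℕ, ∃ r : Fin d → P → P → Prop,
        (∀ i, (∀ x, r i x x) ∧ (∀ x y z, r i x y → r i y z → r i x z) ∧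
          (∀ x y, r i x y → r i y x → x = y) ∧ (∀ x y, r i x y ∨ r i y x)) ∧
        ∀ x y, x ≤ y ↔ ∀ i, r i x y) →
      (∃ d : ℕ, ∃ r : Fin d → Q → Q → Prop,
        (∀ i, (∀ x, r i x x) ∧ (∀ x y z, r i x y → r i y z → r i x z) ∧
          (∀ x y, r i x y → r i y x → x = y) ∧ (∀ x y, r i x y ∨ r i y x)) ∧
        ∀ x y, x ≤ y ↔ ∀ i, r i x y) →
      ∀ n : ℕ,
        (∃ r : Fin n → P × Q → P × Q → Prop,
          (∀ i, (∀ x, r i x x) ∧ (∀ x y z, r i x y → r i y z → r i x z) ∧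
            (∀ x y, r i x y → r i y x → x = y) ∧ (∀ x y, r i x y ∨ r i y x)) ∧
          ∀ x y, x ≤ y ↔ ∀ i, r i x y) →
        ∃ a c : ℕ,
          a + c ≤ n + ((if (∃ x : P, ∀ y, x ≤ y) ∧ (∃ x : P, ∀ y, y ≤ x) then 0 else 1) +
                       (if (∃ x : Q, ∀ y, x ≤ y) ∧ (∃ x : Q, ∀ y, y ≤ x) then 0 else 1)) ∧
          (∃ r : Fin a → P → P → Prop,
            (∀ i, (∀ x, r i x x) ∧ (∀ x y z, r i x y → r i y z → r i x z) ∧
              (∀ x y, r i x y → r i y x → x = y) ∧ (∀ x y, r i x y ∨ r i y x)) ∧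
            ∀ x y, x ≤ y ↔ ∀ i, r i x y) ∧
          (∃ r : Fin c → Q → Q → Prop,
            (∀ i, (∀ x, r i x x) ∧ (∀ x y z, r i x y → r i y z → r i x z) ∧
              (∀ x y, r i x y → r i y x → x = y) ∧ (∀ x y, r i x y ∨ r i y x)) ∧
            ∀ x y, x ≤ y ↔ ∀ i, r i x y)) := by
  intro H
  obtain ⟨a, c, hle, ⟨r, hr, hr'⟩, ⟨s, hs, hs'⟩⟩ := H (Bool × Bool) AC inferInstance
    (inferInstanceAs (Nontrivial Bool))
    ⟨2, eP⟩ ⟨2, eQ⟩ 2 eR
  have h1 := two_le (P := Bool × Bool) (true, false) (false, true) n1 n2 r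
    (fun i => (hr i).2.2.2) hr'
  have h2 := two_le (P := AC) (ofB true) (ofB false) n3 n4 s
    (fun i => (hs i).2.2.2) hs'
  rw [if_pos ⟨⟨⊥, fun _ => bot_le⟩, ⟨⊤, fun _ => le_top⟩⟩] at hle
  split_ifs at hle <;> omega

end Pool.Agent.S12606
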