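import Pool.Statements.S12636

set_option autoImplicit false
open Filter Topology
open Pool Pool.MP_fef54c_co

namespace Pool.Agent.S12636

section
open Finset

def a : Fin 3 → ℤ := ![0, 1, 3]
def M : Matrix (Fin 3) (Fin 2) ℤ := fun i t => a i * (t.1 : ℤ)
def e (v : Fin 4) : ℤ := 2 * (v.1 : ℤ) - 3

lemma sm (n : ℕ) (c : Fin n → ℤ) :
    ∑ x : Fin n → Fin 4, (∑ l, e (x l) * c l) ^ 2 = 5 * 4 ^ n * ∑ l, c l ^ 2 := by
  induction n with
  | zero => simp
  | succ n ih =>
    rw [← (Fin.consEquiv fun _ => Fin 4).sum_comp, Fintype.sum_prod_type_right]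
    simp only [Fin.consEquiv_apply, Fin.sum_univ_succ (n := n), Fin.cons_zero, Fin.cons_succ]
    have : ∀ Y : ℤ, ∑ v : Fin 4, (e v * c 0 + Y) ^ 2 = 20 * c 0 ^ 2 + 4 * Y ^ 2 := by
      intro Y
      simp only [Fin.sum_univ_four, e]
      simp
      ring
    simp only [this, sum_add_distrib, ← mul_sum, ih]
    simp
    ring

lemma gs (n : ℕ) (hn : 1 ≤ n) (R : ℕ) :
    ∑ k ∈ range (R + 1), Real.exp (-((k : ℝ) ^ 2 / n)) ≤ 3 * √n := by
  have hn' : (1 : ℝ) ≤ n := by exact_mod_cast hn
  have hK : 1 ≤ √(n : ℝ) := Real.one_le_sqrt.2 hn'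
  have hK2 : √(n : ℝ) ^ 2 = n := Real.sq_sqrt (by linarith)
  generalize √(n : ℝ) = K at hK hK2
  rw [← hK2]
  have key : ∑ k ∈ range (R + 1), Real.exp (-((k : ℝ) ^ 2 / K ^ 2)) ≤
      1 + 2 * K ^ 2 * (1 / K - 1 / (K + R)) := by
    induction R with
    | zero => simp
    | succ R ih =>
      rw [sum_range_succ]
      push_cast
      have h0 : (0 : ℝ) ≤ R := Nat.cast_nonneg R
      have h1 : Real.exp (-(((R : ℝ) + 1) ^ 2 / K ^ 2)) ≤ 1 / (1 + ((R : ℝ) + 1) ^ 2 / K ^ 2) := by
        rw [Real.exp_neg, one_div]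
        apply inv_anti₀ (by positivity)
        linarith [Real.add_one_le_exp (((R : ℝ) + 1) ^ 2 / K ^ 2)]
      have h2 : 1 / (1 + ((R : ℝ) + 1) ^ 2 / K ^ 2) ≤
          2 * K ^ 2 * (1 / (K + R) - 1 / (K + (R + 1))) := by
        have e1 : 1 / (1 + ((R : ℝ) + 1) ^ 2 / K ^ 2) = K ^ 2 / (K ^ 2 + (R + 1) ^ 2) := by
          field_simp
        have e2 : 2 * K ^ 2 * (1 / (K + R) - 1 / (K + (R + 1))) =
            K ^ 2 / ((K + R) * (K + (R + 1)) / 2) := by
          field_simp; ring
        rw [e1, e2]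
        apply div_le_div_of_nonneg_left (by positivity) (by positivity)
        nlinarith [sq_nonneg (K - (R + 1))]
      linarith
  have h3 : 2 * K ^ 2 * (1 / K - 1 / (K + R)) ≤ 2 * K := by
    have : 0 ≤ 1 / (K + R) := by positivity
    have e : 2 * K ^ 2 * (1 / K) = 2 * K := by field_simp
    nlinarith [sq_nonneg K]
  linarith

lemma main (n : ℕ) (hn : 1 ≤ n) (S : Finset (Fin n → Fin 2))
    (h : Function.Injective (fun (x : Fin n → Fin 3) (s : S) =>
      ∑ l : Fin n, M (x l) ((s : Fin n → Fin 2) l))) :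
    n * Real.log 4 ≤ S.card * (5 + Real.log 6 + Real.log n / 2) := by
  have hn' : (1 : ℝ) ≤ n := by exact_mod_cast hn
  let Y : (Fin n → Fin 4) → S → ℤ := fun x s => ∑ l, e (x l) * ((s.1 l).1 : ℤ)
  have hY : Function.Injective Y := by
    have hD : ∀ v w : Fin 4, ∃ p : Fin 3 × Fin 3, 2 * (a p.1 - a p.2) = e v - e w ∧
        (p.1 = p.2 → v = w) := by decide
    choose D hD1 hD2 using hD
    intro x y hxy
    have : (fun l => (D (x l) (y l)).1) = fun l => (D (x l) (y l)).2 := by
      apply h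
      funext s
      have h1 := congrFun hxy s
      simp only [Y] at h1
      have h2 : 2 * (∑ l, M (D (x l) (y l)).1 (s.1 l) - ∑ l, M (D (x l) (y l)).2 (s.1 l)) = 0 := by
        rw [← sub_eq_zero.2 h1, ← sum_sub_distrib, ← sum_sub_distrib, mul_sum]
        refine sum_congr rfl fun l _ => ?_
        rw [← sub_mul, ← hD1]
        simp only [M]; ring
      show ∑ l, M (D (x l) (y l)).1 (s.1 l) = ∑ l, M (D (x l) (y l)).2 (s.1 l)
      omega
    funext l
    exact hD2 _ _ (congrFun this l)
  have hb : ∀ x s, (Y x s).natAbs < 3 * n + 1 := by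
    intro x s
    have : |Y x s| ≤ 3 * n := by
      refine (abs_sum_le_sum_abs _ _).trans ?_
      have : ∀ (v : Fin 4) (t : Fin 2), |e v * (t.1 : ℤ)| ≤ 3 := by decide
      refine (sum_le_card_nsmul _ _ 3 fun l _ => this _ _).trans ?_
      simp [mul_comm]
    rw [Int.abs_eq_natAbs] at this
    omega
  let W : Bool × ℕ → ℝ := fun p => Real.exp (-((p.2 : ℝ) ^ 2 / n))
  let H : (Fin n → Fin 4) → S → Bool × ℕ := fun x s => (decide (0 ≤ Y x s), (Y x s).natAbs)
  have hH : Function.Injective H := by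
    intro x y hxy
    apply hY
    funext s
    have := congrFun hxy s
    simp only [H, Prod.mk.injEq, decide_eq_decide] at this
    omega
  have up : ∑ x, ∏ s, W (H x s) ≤ (6 * √n) ^ S.card := by
    rw [← sum_image (f := fun y : S → Bool × ℕ => ∏ s, W (y s)) (fun x _ y _ h => hH h)]
    have hs : image H univ ⊆ Fintype.piFinset fun _ => univ ×ˢ range (3 * n + 1) := by
      intro y hy
      obtain ⟨x, -, rfl⟩ := mem_image.1 hy
      exact Fintype.mem_piFinset.2 fun s => mem_product.2 ⟨mem_univ _, mem_range.2 (hb x s)⟩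
    refine (sum_le_sum_of_subset_of_nonneg hs fun _ _ _ =>
      prod_nonneg fun _ _ => (Real.exp_pos _).le).trans ?_
    rw [← prod_univ_sum (fun _ : S => univ ×ˢ range (3 * n + 1)) (fun _ p => Real.exp (-((p.2 : ℝ) ^ 2 / n))), prod_const, card_univ, Fintype.card_coe]
    apply pow_le_pow_left₀ (sum_nonneg fun _ _ => (Real.exp_pos _).le)
    rw [sum_product]
    simp only [W, sum_const, card_univ, Fintype.card_bool, nsmul_eq_mul]
    have := gs n hn (3 * n)
    push_cast
    linarith
  let Z : (Fin n → Fin 4) → ℝ := fun x => ∑ s, ((Y x s : ℝ)) ^ 2 / n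
  have hZ : ∀ x, ∏ s, W (H x s) = Real.exp (-Z x) := by
    intro x
    simp only [W, H, Z, ← Real.exp_sum, sum_neg_distrib, Nat.cast_natAbs, Int.cast_abs, sq_abs]
  have hZs : ∑ x, Z x ≤ 4 ^ n * (5 * S.card) := by
    simp only [Z]
    rw [sum_comm]
    have : ∀ s : S, ∑ x, ((Y x s : ℝ)) ^ 2 / n ≤ 4 ^ n * 5 := by
      intro s
      rw [← sum_div, div_le_iff₀ (by linarith)]
      have h1 := sm n fun l => ((s.1 l).1 : ℤ)
      have h2 : ∑ l, ((s.1 l).1 : ℤ) ^ 2 ≤ n := by
        have : ∀ t : Fin 2, (t.1 : ℤ) ^ 2 ≤ 1 := by decide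
        refine (sum_le_card_nsmul _ _ 1 fun l _ => this _).trans ?_
        simp
      have h3 : ∑ x, Y x s ^ 2 ≤ 4 ^ n * 5 * n := by
        simp only [Y]
        rw [h1]
        nlinarith [pow_pos (by norm_num : (0 : ℤ) < 4) n]
      exact_mod_cast h3
    refine (sum_le_card_nsmul _ _ _ fun s _ => this s).trans ?_
    simp only [card_univ, Fintype.card_coe, nsmul_eq_mul]
    apply le_of_eq; ring
  have lo : Real.exp (-(5 * S.card)) * 4 ^ n ≤ ∑ x, Real.exp (-Z x) := by
    have : ∀ x, Real.exp (-(5 * S.card)) * (1 + 5 * S.card - Z x) ≤ Real.exp (-Z x) := by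
      intro x
      have h1 := Real.add_one_le_exp (5 * S.card - Z x)
      have h2 : Real.exp (-Z x) = Real.exp (-(5 * S.card)) * Real.exp (5 * S.card - Z x) := by
        rw [← Real.exp_add]; congr 1; ring
      rw [h2]
      exact mul_le_mul_of_nonneg_left (by linarith) (Real.exp_pos _).le
    refine le_trans ?_ (sum_le_sum fun x _ => this x)
    rw [← mul_sum]
    apply mul_le_mul_of_nonneg_left _ (Real.exp_pos _).le
    rw [sum_sub_distrib]
    simp only [sum_const, card_univ, Fintype.card_fun, Fintype.card_fin, nsmul_eq_mul]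
    push_cast
    linarith
  simp only [hZ] at up
  have := Real.log_le_log (by positivity) (lo.trans up)
  rw [Real.log_mul (by positivity) (by positivity), Real.log_exp, Real.log_pow, Real.log_pow,
    Real.log_mul (by norm_num) (by positivity), Real.log_sqrt (by linarith)] at this
  linarith

lemma ne (n : ℕ) : Function.Injective (fun (x : Fin n → Fin 3)
    (s : (univ : Finset (Fin n → Fin 2))) => ∑ l : Fin n, M (x l) ((s : Fin n → Fin 2) l)) := by
  intro x y h
  funext l
  have := congrFun h ⟨Pi.single l 1, mem_univ _⟩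
  have k : ∀ x : Fin n → Fin 3, ∑ j, M (x j) ((Pi.single l 1 : Fin n → Fin 2) j) = a (x l) := by
    intro x
    rw [sum_eq_single l]
    · simp [M]
    · intro j _ hj; simp [M, Pi.single_eq_of_ne hj]
    · simp
  simp only [k] at this
  have ha : ∀ u v, a u = a v → u = v := by decide
  exact ha _ _ this

end

/-- The negation of the preceding statement: For every p×q integer matrix with p ≥ 2 whose distinct rows never differ by a constant vector, the least size of S ⊆ [q]^n making the row-sum map on [p]^n injective, times log base p of n, divided by n, tends to 2. -/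
theorem result :
    ¬ (∀ (p q : ℕ) (M : Matrix (Fin p) (Fin q) ℤ),
      2 ≤ p →
      (∀ i j : Fin p, i ≠ j → ∃ s t : Fin q, M i s - M j s ≠ M i t - M j t) →
      Tendsto
        (fun n : ℕ =>
          ((sInf {k : ℕ | ∃ S : Finset (Fin n → Fin q), S.card = k ∧
              Function.Injective
                (fun (x : Fin n → Fin p) (s : S) =>
                  ∑ l : Fin n, M (x l) ((s : Fin n → Fin q) l))} : ℕ) : ℝ)
            * Real.logb (p : ℝ) (n : ℝ) / (n : ℝ))
        atTop (𝓝 2)) := by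
  intro h
  have h1 := h 3 2 M (by norm_num) (by decide)
  set m : ℕ → ℕ := fun n => sInf {k : ℕ | ∃ S : Finset (Fin n → Fin 2), S.card = k ∧
    Function.Injective (fun (x : Fin n → Fin 3) (s : S) =>
      ∑ l : Fin n, M (x l) ((s : Fin n → Fin 2) l))} with hm
  have hb : ∀ n : ℕ, 1 ≤ n → n * Real.log 4 ≤ m n * (5 + Real.log 6 + Real.log n / 2) := by
    intro n hn
    obtain ⟨S, hS, hI⟩ := Nat.sInf_mem (s := {k : ℕ | ∃ S : Finset (Fin n → Fin 2), S.card = k ∧
      Function.Injective (fun (x : Fin n → Fin 3) (s : S) =>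
        ∑ l : Fin n, M (x l) ((s : Fin n → Fin 2) l))}) ⟨_, _, rfl, ne n⟩
    have := main n hn S hI
    rwa [hS] at this
  have hl : Tendsto (fun n : ℕ => Real.log n) atTop atTop :=
    Real.tendsto_log_atTop.comp tendsto_natCast_atTop_atTop
  have h2 := (h1.mul_const (Real.log 3)).mul
    ((hl.const_div_atTop (5 + Real.log 6)).add_const (1 / 2))
  have h3 : Real.log 4 ≤ 2 * Real.log 3 * (0 + 1 / 2) := by
    refine ge_of_tendsto h2 ?_
    filter_upwards [eventually_ge_atTop 2] with n hn
    have hn' : (2 : ℝ) ≤ n := by exact_mod_cast hn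
    have l3 : 0 < Real.log 3 := Real.log_pos (by norm_num)
    have ln : 0 < Real.log n := Real.log_pos (by linarith)
    have := hb n (by omega)
    have e : (m n : ℝ) * Real.logb ((3 : ℕ) : ℝ) n / n * Real.log 3 *
        ((5 + Real.log 6) / Real.log n + 1 / 2) = m n * (5 + Real.log 6 + Real.log n / 2) / n := by
      rw [Real.logb, Nat.cast_ofNat]; field_simp
    rw [e, le_div_iff₀ (by linarith)]
    linarith
  have := Real.log_lt_log (by norm_num : (0 : ℝ) < 3) (by norm_num : (3 : ℝ) < 4)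
  linarith

end Pool.Agent.S12636
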