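import Pool.Statements.S12713
-- import your own Pool.Agent.* helpers here

set_option autoImplicit false
open Pool Pool.MP_08e409_gt

namespace Pool.Agent.S12713

open Set Filter Topology Cardinal in
lemma transversal {ι α : Type} (S : ι → Set α) (h : ∀ i, #ι ≤ #(S i)) :
    ∃ g : ι → α, Function.Injective g ∧ ∀ i, g i ∈ S i := by
  obtain ⟨r, wo, hr⟩ := Cardinal.ord_eq ι
  have : ∀ i (g : ∀ j, r j i → α), ∃ x ∈ S i, ∀ j h, g j h ≠ x := fun i g => by
    by_contra hn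
    push Not at hn
    refine ((mk_le_mk_of_subset (t := range fun j : {j // r j i} => g j j.2) fun x hx => ?_).trans
      mk_range_le).not_gt ((card_typein_lt i hr).trans_le (h i))
    obtain ⟨j, h, e⟩ := hn x hx
    exact ⟨⟨j, h⟩, e⟩
  choose c h1 h2 using this
  obtain ⟨g, hg⟩ : ∃ g : ι → α, ∀ i, g i = c i fun j _ => g j :=
    ⟨wo.wf.fix c, fun i => by rw [WellFounded.fix_eq]⟩
  refine ⟨g, fun i j e => ?_, fun i => hg i ▸ h1 _ _⟩
  rcases trichotomous_of r i j with h | h | h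
  exacts [absurd (e.trans (hg j)) (h2 j (fun j _ => g j) i h), h,
    absurd (e.symm.trans (hg i)) (h2 i (fun j _ => g j) j h)]

open Set Filter Topology Cardinal in
lemma bern : ∃ T : Set ℝ, ¬ T.Countable ∧ (∀ q : ℚ, (q : ℝ) ∉ T) ∧
    ∀ P ⊆ T, IsClosed P → P.Countable := by
  classical
  let C : Set (ℚ × ℚ) → Set ℝ := fun c => (⋃ q ∈ c, Ioo (q.1 : ℝ) q.2)ᶜ
  obtain ⟨g, h1, h2⟩ := transversal (ι := Set (ℚ × ℚ) ⊕ ℝ) (Sum.elim
    (fun c => if (C c).Countable then univ else C c) fun _ => univ) fun i => by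
      have : #(Set (ℚ × ℚ) ⊕ ℝ) = 𝔠 := by simp [mk_real]
      rw [this]
      rcases i with c | c
      · simp only [Sum.elim_inl]
        split_ifs with h
        · simp [mk_real]
        · obtain ⟨f, h1, -, h2⟩ := IsClosed.exists_nat_bool_injection_of_not_countable
            (isOpen_biUnion fun _ _ => isOpen_Ioo).isClosed_compl h
          simpa using mk_le_of_injective (f := fun x => (⟨f x, h1 ⟨x, rfl⟩⟩ : C c))
            fun _ _ e => h2 (congrArg Subtype.val e)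
      · simp [mk_real]
  refine ⟨range (g ∘ Sum.inr) \ range Rat.cast, fun h => not_countable_univ
    ((((h.union (countable_range _)).mono (subset_diff_union _ _)).preimage
      (h1.comp Sum.inr_injective)).mono fun x _ => mem_range_self (f := g ∘ Sum.inr) x), fun q h => h.2 ⟨q, rfl⟩,
    fun P hP hc => by_contra fun hn => ?_⟩
  have : C {q | Ioo (q.1 : ℝ) q.2 ⊆ Pᶜ} = P := compl_injective (by
    simp only [C, compl_compl]
    refine Subset.antisymm (iUnion₂_subset fun _ h => h) fun x hx => ?_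
    obtain ⟨a, b, h, h'⟩ := mem_nhds_iff_exists_Ioo_subset.1 (hc.isOpen_compl.mem_nhds hx)
    obtain ⟨p, p1, p2⟩ := exists_rat_btwn h.1
    obtain ⟨q, q1, q2⟩ := exists_rat_btwn h.2
    exact mem_biUnion (x := (p, q)) ((Ioo_subset_Ioo p1.le q2.le).trans h') ⟨p2, q1⟩)
  have h := h2 (Sum.inl {q | Ioo (q.1 : ℝ) q.2 ⊆ Pᶜ})
  simp only [Sum.elim_inl, this, if_neg hn] at h
  obtain ⟨x, hx⟩ := (hP h).1
  exact Sum.inr_ne_inl (h1 hx)

open Set Filter Topology in
lemma para {X : Type} [TopologicalSpace X] [RegularSpace X] [LindelofSpace X] [Nonempty X] :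
    ParacompactSpace X := ⟨fun α s ho hc => by
  classical
  choose a ha using fun x => mem_iUnion.1 (hc.symm.subset (mem_univ x))
  choose V h1 h2 h3 using fun x => exists_mem_nhds_isClosed_subset ((ho _).mem_nhds (ha x))
  obtain ⟨t, ht, hu⟩ := LindelofSpace.elim_nhds_subcover (fun x => interior (V x))
    fun x => interior_mem_nhds.2 (h1 x)
  obtain ⟨x, hx⟩ := (ht.insert (Classical.arbitrary X)).exists_eq_range (insert_nonempty _ _)
  have hx' : ∀ p, ∃ k, p ∈ interior (V (x k)) := fun p => by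
    obtain ⟨y, hy, h⟩ := mem_iUnion₂.1 (hu.symm.subset (mem_univ p))
    obtain ⟨k, rfl⟩ := hx.subset (Or.inr hy)
    exact ⟨k, h⟩
  refine ⟨ℕ, fun n => s (a (x n)) \ ⋃ k < n, V (x k), fun n => (ho _).sdiff
    ((finite_lt_nat n).isClosed_biUnion fun _ _ => h2 _), eq_univ_of_forall fun p => ?_,
    fun p => ?_, fun n => ⟨_, diff_subset⟩⟩
  · have : ∃ n, p ∈ s (a (x n)) := (hx' p).imp fun k h => h3 _ (interior_subset h)
    exact mem_iUnion.2 ⟨_, Nat.find_spec this, fun h =>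
      let ⟨k, h1, h2⟩ := mem_iUnion₂.1 h; Nat.find_min this h1 (h3 _ h2)⟩
  · obtain ⟨k, hk⟩ := hx' p
    exact ⟨_, mem_interior_iff_mem_nhds.1 hk, (finite_le_nat k).subset fun n ⟨z, h1, h2⟩ =>
      not_lt.1 fun h => h1.2 (mem_iUnion₂.2 ⟨k, h, h2⟩)⟩⟩

def D : Type := ℝ

instance : TopologicalSpace D := ⊥

instance : DiscreteTopology D := ⟨rfl⟩

def o (a : ℝ) : OnePoint D := OnePoint.some a

lemma clopen (a : ℝ) : IsClopen {o a} :=
  ⟨isClosed_singleton, Set.image_singleton (f := (OnePoint.some : D → _)) (a := a) ▸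
    OnePoint.isOpenEmbedding_coe.isOpenMap _ (isOpen_discrete ({a} : Set D))⟩

/-- There is a Hausdorff paracompact space in which every point lies in a compact set with a countable neighbourhood base, yet no continuous closed surjection with compact fibres maps it onto a first countable space. -/
theorem result :
    ∃ (X : Type) (_ : TopologicalSpace X),
      T2Space X ∧ ParacompactSpace X ∧
      (∀ x : X, ∃ K : Set X, IsCompact K ∧ x ∈ K ∧ (nhdsSet K).IsCountablyGenerated) ∧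
      ¬ ∃ (Y : Type) (_ : TopologicalSpace Y), FirstCountableTopology Y ∧
          ∃ f : X → Y, Continuous f ∧ IsClosedMap f ∧ Function.Surjective f ∧
            ∀ y : Y, IsCompact (f ⁻¹' {y}) := by
  classical
  obtain ⟨T, hT, hq, hP⟩ := bern
  let S : Set (ℝ × OnePoint D) := {p | ¬ (p.1 ∈ T ∧ p.2 = o p.1)}
  have hi : ∀ b, (b, OnePoint.infty) ∈ S := fun b h => OnePoint.infty_ne_coe _ h.2
  let A : ℝ → Set (OnePoint D) := fun b => {a | ¬ (b ∈ T ∧ a = o b)}
  have hA : ∀ b, IsClopen (A b) := fun b => by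
    by_cases h : b ∈ T
    · simp only [A, h, true_and]
      exact (clopen b).compl
    · simpa [A, h] using isClopen_univ
  let K : ℝ → Set S := fun b => {p | p.1.1 = b}
  have hK : ∀ b, Subtype.val '' K b = {b} ×ˢ A b := fun b => Set.ext fun p =>
    ⟨by rintro ⟨p, rfl, rfl⟩; exact ⟨rfl, p.2⟩, fun ⟨h1, h2⟩ => ⟨⟨p, fun h => h2 (h1 ▸ h)⟩, h1, rfl⟩⟩
  have hK1 : ∀ b, IsCompact (K b) := fun b => Subtype.isCompact_iff.2
    (hK b ▸ isCompact_singleton.prod (hA b).1.isCompact)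
  have hK2 : ∀ b, nhdsSet (K b) = Filter.comap Subtype.val (nhds b ×ˢ Filter.principal (A b)) :=
    fun b => by
      rw [Topology.IsInducing.subtypeVal.nhdsSet_eq_comap, hK, isCompact_singleton.nhdsSet_prod_eq
        (hA b).1.isCompact, nhdsSet_singleton, (hA b).2.nhdsSet_eq]
  haveI : LindelofSpace S := ⟨isLindelof_of_countable_subcover fun {ι} U hU hc => by
    choose s hs using fun b => (hK1 b).elim_finite_subcover U hU ((Set.subset_univ _).trans hc)
    have : ∀ b, ∃ N, IsOpen N ∧ b ∈ N ∧ (b ∉ T → ∀ p : S, p.1.1 ∈ N → p ∈ ⋃ i ∈ s b, U i) := fun b => by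
      have := (isOpen_biUnion fun i _ => hU i).mem_nhdsSet.2 (hs b)
      rw [hK2] at this
      obtain ⟨W, h1, h2⟩ := this
      obtain ⟨N, h3, h4⟩ := mem_nhds_iff.1 (Filter.mem_prod_principal.1 h1)
      exact ⟨N, h4.1, h4.2, fun hb p hp => h2 (h3 hp _ fun h => hb h.1)⟩
    choose N h1 h2 h3 using this
    obtain ⟨t, t1, t2, t3⟩ := TopologicalSpace.countable_cover_nhdsWithin (s := Tᶜ) (f := N)
      fun b _ => mem_nhdsWithin_of_mem_nhds ((h1 b).mem_nhds (h2 b))
    have := hP _ (Set.compl_subset_comm.1 t3) (isOpen_biUnion fun b _ => h1 b).isClosed_compl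
    refine ⟨_, (t2.union this).biUnion fun b _ => (s b).countable_toSet, fun p _ => ?_⟩
    by_cases h : p.1.1 ∈ ⋃ b ∈ t, N b
    · obtain ⟨b, hb, h⟩ := Set.mem_iUnion₂.1 h
      obtain ⟨i, hi, h⟩ := Set.mem_iUnion₂.1 (h3 b (t1 hb) p h)
      exact Set.mem_biUnion (Set.mem_biUnion (Or.inl hb) hi) h
    · obtain ⟨i, hi, h'⟩ := Set.mem_iUnion₂.1 (hs p.1.1 (rfl : p ∈ K p.1.1))
      exact Set.mem_biUnion (Set.mem_biUnion (Or.inr h) hi) h'⟩
  haveI : Nonempty S := ⟨⟨_, hi 0⟩⟩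
  refine ⟨S, inferInstance, inferInstance, para, fun x => ⟨_, hK1 _, rfl, hK2 _ ▸ inferInstance⟩, ?_⟩
  rintro ⟨Y, _, _, f, hf, hc, hs, hk⟩
  have : ∀ a, ∃ d : ℚ, a ∈ T → f ⟨_, hi d⟩ ≠ f ⟨(d, o a), fun h => hq d h.1⟩ := fun a => by
    by_cases ha : a ∈ T
    swap
    · exact ⟨0, fun h => absurd h ha⟩
    have h1 := ((hk (f ⟨_, hi a⟩)).image continuous_subtype_val).isClosed.isOpen_compl.mem_nhds
      (x := (a, o a)) fun ⟨p, _, h⟩ => p.2 (h ▸ ⟨ha, rfl⟩)
    obtain ⟨N, h2, h3, h4⟩ := exists_mem_nhds_isClosed_subset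
      ((Continuous.prodMk_left (o a)).continuousAt.preimage_mem_nhds h1)
    have h5 := (hc _ ((h3.prod (clopen a).1).preimage
      (continuous_subtype_val (p := (· ∈ S))))).isOpen_compl.preimage
        (hf.comp ((Continuous.prodMk_left OnePoint.infty).subtype_mk hi))
    obtain ⟨d, h6, h7⟩ := Rat.denseRange_cast.mem_nhds (Filter.inter_mem h2 (h5.mem_nhds (x := a)
      fun ⟨⟨p, hp⟩, h, e⟩ => h4 h.1 ⟨⟨p, hp⟩, e, Prod.ext rfl h.2⟩))
    exact ⟨d, fun _ e => h7 ⟨⟨(d, o a), fun h => hq d h.1⟩, ⟨h6, rfl⟩, e.symm⟩⟩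
  choose d hd using this
  refine hT ((Set.countable_iUnion fun q : ℚ => (?_ : {a | f ⟨_, hi q⟩ ≠
    f ⟨(q, o a), fun h => hq q h.1⟩}.Countable)).mono fun a ha => Set.mem_iUnion.2 ⟨_, hd a ha⟩)
  have h1 : Filter.Tendsto (fun a : D => f ⟨(q, o a), fun h => hq q h.1⟩) Filter.cofinite
      (nhds (f ⟨_, hi q⟩)) := (hf.tendsto _).comp (tendsto_subtype_rng.2
    (tendsto_const_nhds.prodMk_nhds (by
      have := OnePoint.tendsto_coe_infty (X := D)
      rwa [Filter.coclosedCompact_eq_cocompact, Filter.cocompact_eq_cofinite] at this)))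
  obtain ⟨V, hV⟩ := (nhds (f ⟨_, hi q⟩)).exists_antitone_basis
  refine (Set.countable_iUnion fun n => Set.Finite.countable (h1 (hV.mem n))).mono fun a ha => ?_
  obtain ⟨n, hn⟩ := hV.mem_iff.1 ((hc _ isClosed_singleton).isOpen_compl.mem_nhds
    fun ⟨p, h, e⟩ => ha (e.symm.trans (congrArg f h)))
  exact Set.mem_iUnion.2 ⟨n, fun h => hn h ⟨_, rfl, rfl⟩⟩


end Pool.Agent.S12713
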