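import Pool.Statements.S12732
import Pool.Agent.H17.SubML

set_option autoImplicit false
open Pool Pool.MP_0b3857_gt

namespace Pool.Agent.S12732

/-- The negation of the preceding statement: For every compact Hausdorff X, the space of continuous real functions on X with the pointwise topology is submetalindelöf. Every open cover has a sequence of open refining covers such that each point lies in only countably many members of at least one of them. -/
theorem result :
    ¬ (∀ (X : Type) [TopologicalSpace X] [CompactSpace X] [T2Space X],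
      ∀ 𝒰 : Set (Set {g : X → ℝ // Continuous g}),
        (∀ U ∈ 𝒰, IsOpen U) → ⋃₀ 𝒰 = Set.univ →
        ∃ 𝒱 : ℕ → Set (Set {g : X → ℝ // Continuous g}),
          (∀ n, ∀ V ∈ 𝒱 n, IsOpen V ∧ ∃ U ∈ 𝒰, V ⊆ U) ∧
          (∀ n, ⋃₀ 𝒱 n = Set.univ) ∧
          ∀ x : {g : X → ℝ // Continuous g}, ∃ n, {V ∈ 𝒱 n | x ∈ V}.Countable) := by
  intro H
  classical
  let Z := {g : Ultrafilter H17.W1.W → ℝ // Continuous g}
  let χ : Set H17.W1.W → Z := fun A => ⟨Set.indicator {u | A ∈ u} fun _ => 1,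
    IsClopen.continuous_indicator ⟨ultrafilter_isClosed_basic A, ultrafilter_isOpen_basic A⟩
      continuous_const⟩
  let u0 : Ultrafilter H17.W1.W := Ultrafilter.of Filter.atTop
  have hu0 : ∀ a, Set.Iio a ∉ u0 := fun a => by
    rw [← Ultrafilter.compl_mem_iff_notMem, Set.compl_Iio]
    exact Ultrafilter.of_le _ (Filter.Ici_mem_atTop a)
  have ev : ∀ u, Continuous fun g : Z => g.1 u := fun u =>
    (continuous_apply u).comp continuous_subtype_val
  obtain ⟨𝒱, h1, h2, h3⟩ := H (Ultrafilter H17.W1.W)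
    (insert {g | g.1 u0 ≠ 0} (Set.range fun d => {g | g.1 (pure d) ≠ 1})) (by
      rintro U (rfl | ⟨d, rfl⟩)
      · exact isOpen_ne.preimage (ev u0)
      · exact isOpen_ne.preimage (ev _)) (by
      refine Set.eq_univ_of_forall fun g => ?_
      by_cases hg : ∀ d, g.1 (pure d) = 1
      · refine ⟨_, Or.inl rfl, ?_⟩
        have : g.1 = fun _ => 1 := Continuous.ext_on denseRange_pure g.2 continuous_const (by
          rintro _ ⟨d, rfl⟩
          exact hg d)
        simp [this]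
      · push Not at hg
        obtain ⟨d, hd⟩ := hg
        exact ⟨_, Or.inr ⟨d, rfl⟩, hd⟩)
  have h4 : ∀ n a, ∃ V ∈ 𝒱 n, χ (Set.Iio a) ∈ V ∧ ∃ F : Set (Ultrafilter H17.W1.W), F.Finite ∧
      ∀ g : Z, (∀ u ∈ F, g.1 u = (χ (Set.Iio a)).1 u) → g ∈ V := by
    intro n a
    have : χ (Set.Iio a) ∈ ⋃₀ 𝒱 n := (h2 n).symm ▸ Set.mem_univ _
    obtain ⟨V, hV, hx⟩ := this
    refine ⟨V, hV, hx, ?_⟩
    obtain ⟨O, hO, rfl⟩ := isOpen_induced_iff.1 (h1 n V hV).1
    obtain ⟨I, t, ht, hs⟩ := isOpen_pi_iff.1 hO _ hx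
    exact ⟨I, I.finite_toSet, fun g hg => hs fun u hu => (hg u hu).symm ▸ (ht u hu).2⟩
  choose V VV xV F Ff FV using h4
  obtain ⟨B, hB⟩ := H17.SubML.core F Ff
  obtain ⟨n, hn⟩ := h3 (χ B)
  have h5 : ∀ U : Set Z, ∃ d, U ∈ 𝒱 n → ∀ a, χ (Set.Iio a) ∈ U → a ≤ d := by
    intro U
    by_cases hU : U ∈ 𝒱 n
    · obtain ⟨U', hU', hs⟩ := (h1 n U hU).2
      rcases hU' with rfl | ⟨d, rfl⟩
      · refine ⟨Classical.arbitrary _, fun _ a ha => absurd ?_ (hs ha)⟩
        simp [χ, hu0 a]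
      · refine ⟨d, fun _ a ha => ?_⟩
        by_contra hlt
        refine hs ha ?_
        simp [χ, not_le.1 hlt]
    · exact ⟨Classical.arbitrary _, fun h => absurd h hU⟩
  choose d hd using h5
  obtain ⟨k, hk⟩ := H17.W1.bound (hn.image d)
  obtain ⟨a, ha, hF⟩ := hB n k
  have : χ B ∈ V n a := by
    refine FV n a _ fun u hu => ?_
    have := hF u hu
    simp only [χ, Set.indicator, Set.mem_ofPred_eq, this]
  exact absurd ((hk _ ⟨V n a, ⟨VV n a, this⟩, rfl⟩).trans (ha.trans_le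
    (hd _ (VV n a) a (xV n a)))) (lt_irrefl _)

end Pool.Agent.S12732
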