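import Pool.Statements.S12748

set_option autoImplicit false
open Function
open Pool Pool.MP_0eaf94_gt

namespace Pool.Agent.S12748

open Set

/-- The domain: two strips merging into a square, followed by a whisker. -/
def K : Set (ℝ × ℝ) :=
  {p | (-1 ≤ p.1 ∧ p.1 ≤ 2 ∧ -1 ≤ p.2 ∧ p.2 ≤ 1) ∧ ((p.1 ≤ 1 ∧ -p.1 ≤ |p.2|) ∨ p.2 = -1)}

theorem isCompact_K : IsCompact K := by
  have hc : IsClosed K := by
    unfold K
    refine IsClosed.and (IsClosed.and ?_ (IsClosed.and ?_ (IsClosed.and ?_ ?_)))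
      (IsClosed.union (IsClosed.and ?_ ?_) ?_)
    all_goals first
      | exact isClosed_le (by fun_prop) (by fun_prop)
      | exact isClosed_eq (by fun_prop) (by fun_prop)
  refine (isCompact_Icc (a := ((-1, -1) : ℝ × ℝ)) (b := (2, 1))).of_isClosed_subset hc ?_
  rintro p ⟨⟨h1, h2, h3, h4⟩, _⟩
  exact ⟨⟨h1, h3⟩, ⟨h2, h4⟩⟩

instance : CompactSpace K := isCompact_iff_compactSpace.1 isCompact_K

abbrev Y : Type := Set.Icc (-1 : ℝ) 2

def f (p : K) : Y := ⟨p.1.1, p.2.1.1, p.2.1.2.1⟩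

def E (t : Y) : K := ⟨(t.1, -1), ⟨t.2.1, t.2.2, le_refl _, by norm_num⟩, Or.inr rfl⟩

theorem continuous_f : Continuous f := by
  unfold f
  fun_prop

theorem continuous_E : Continuous E := by
  unfold E
  fun_prop

theorem lift (p : K) (hp : p.1.1 ≤ 1) (s : ℝ) (h1 : -1 ≤ s) (h2 : s ≤ 1) :
    ∃ x : ℝ, (s, x) ∈ K ∧ |x - p.1.2| ≤ |s - p.1.1| := by
  obtain ⟨⟨t, x⟩, ⟨a1, a2, a3, a4⟩, h⟩ := p
  simp only at *
  rcases h with ⟨_, h⟩ | h
  · by_cases hs : -s ≤ |x|
    · exact ⟨x, ⟨⟨h1, by linarith, a3, a4⟩, Or.inl ⟨h2, hs⟩⟩, by simp⟩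
    · push Not at hs
      have hs0 : 0 < -s := lt_of_le_of_lt (abs_nonneg _) hs
      rcases le_total 0 x with hx | hx
      · rw [abs_of_nonneg hx] at h hs
        refine ⟨-s, ⟨⟨h1, by linarith, by linarith, by linarith⟩, Or.inl ⟨h2, le_abs_self _⟩⟩, ?_⟩
        rw [abs_of_nonneg (by linarith), abs_of_nonpos (by linarith)]
        linarith
      · rw [abs_of_nonpos hx] at h hs
        refine ⟨s, ⟨⟨h1, by linarith, by linarith, by linarith⟩, Or.inl ⟨h2, neg_le_abs _⟩⟩, ?_⟩
        rw [abs_of_nonpos (by linarith), abs_of_nonpos (by linarith)]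
        linarith
  · exact ⟨x, ⟨⟨h1, by linarith, a3, a4⟩, Or.inr h⟩, by simp⟩

theorem not_MO : ¬ ∃ (Z : Type) (_ : MetricSpace Z) (_ : CompactSpace Z)
    (h : K → Z) (g : Z → Y),
    Continuous h ∧ IsOpenMap h ∧ Surjective h ∧
    Continuous g ∧ Surjective g ∧ (∀ y, IsConnected (g ⁻¹' {y})) ∧
    ∀ x : K, g (h x) = f x := by
  rintro ⟨Z, _, _, h, g, hc, ho, hs, _, _, hconn, hgf⟩
  have hR : ∀ p q : K, h p = h q → p.1.1 = q.1.1 := fun p q e => by
    have : f p = f q := by rw [← hgf, ← hgf, e]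
    exact congrArg Subtype.val this
  have key : ∀ (t : Y) (a : ℝ), -1 < a →
      (∀ p : K, f p = t → p.1.2 = a → ∃ q : K, q.1.2 < a ∧ h q = h p) →
      ∀ p : K, f p = t → ∃ q : K, q.1.2 ≤ a ∧ h q = h p := by
    intro t a ha H p hp
    by_contra hcon
    have hC : IsCompact {q : K | f q = t ∧ q.1.2 ≤ a} :=
      ((isClosed_eq continuous_f continuous_const).and
        (isClosed_le (by fun_prop) continuous_const)).isCompact
    have hu : IsOpen (h '' {q : K | q.1.2 < a}) := ho _ (isOpen_lt (by fun_prop) continuous_const)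
    have hv : IsOpen (h '' {q : K | f q = t ∧ q.1.2 ≤ a})ᶜ := (hC.image hc).isClosed.isOpen_compl
    obtain ⟨w, hw, ⟨q, hq, rfl⟩, hw2⟩ := (hconn t).isPreconnected _ _ hu hv (by
        intro w _
        by_cases hw : w ∈ h '' {q : K | f q = t ∧ q.1.2 ≤ a}
        · left
          obtain ⟨q, ⟨h1, h2⟩, rfl⟩ := hw
          rcases h2.lt_or_eq with h2 | h2
          · exact ⟨q, h2, rfl⟩
          · obtain ⟨q', h3, h4⟩ := H q h1 h2
            exact ⟨q', h3, h4⟩
        · exact Or.inr hw)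
      ⟨h (E t), hgf _, E t, ha, rfl⟩
      ⟨h p, (hgf p).trans hp, by
        rintro ⟨q, ⟨_, h2⟩, h3⟩
        exact hcon ⟨q, h2, h3⟩⟩
    exact hw2 ⟨q, ⟨(hgf q).symm.trans hw, le_of_lt hq⟩, rfl⟩
  let B : Set Y := E ⁻¹' (h ⁻¹' (h '' {q : K | -1 < q.1.2}))
  have hBo : IsOpen B :=
    ((ho _ (isOpen_lt continuous_const (by fun_prop))).preimage hc).preimage continuous_E
  have hBle : ∀ t ∈ B, t.1 ≤ 1 := by
    rintro t ⟨q, hq, e⟩
    have h1 : q.1.1 = t.1 := hR _ _ e
    rcases q.2.2 with h2 | h2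
    · exact h1 ▸ h2.1
    · exact absurd h2 (ne_of_gt hq)
  let D : Set (K × K × K) :=
    {z | z.1.1.2 = 1 ∧ h z.1 = h z.2.2 ∧ h (E (f z.1)) = h z.2.1 ∧ z.2.2.1.2 ≤ z.2.1.1.2}
  have hD : IsCompact D := by
    apply IsClosed.isCompact
    have := continuous_E
    have := continuous_f
    refine (isClosed_eq (by fun_prop) (by fun_prop)).and
      ((isClosed_eq (by fun_prop) (by fun_prop)).and
        ((isClosed_eq (by fun_prop) (by fun_prop)).and (isClosed_le (by fun_prop) (by fun_prop))))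
  have hBD : B = (fun z : K × K × K => f z.1) '' D := by
    ext t
    constructor
    · intro ht
      have hle := hBle t ht
      obtain ⟨q, hq, e⟩ := ht
      have h1 : q.1.1 = t.1 := hR _ _ e
      let T : K := ⟨(t.1, 1), ⟨t.2.1, t.2.2, by norm_num, le_refl _⟩,
        Or.inl ⟨hle, by rw [abs_one]; linarith [t.2.1]⟩⟩
      obtain ⟨r, hr, er⟩ := key t q.1.2 hq (by
        intro p hp1 hp2
        have : p = q := Subtype.ext (Prod.ext ((congrArg Subtype.val hp1).trans h1.symm) hp2)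
        exact ⟨E t, hq, this ▸ e.symm⟩) T rfl
      exact ⟨(T, q, r), ⟨rfl, er.symm, e.symm, hr⟩, rfl⟩
    · rintro ⟨⟨T, q, r⟩, ⟨h1, h2, h3, h4⟩, rfl⟩
      simp only at h1 h2 h3 h4
      by_cases hq : -1 < q.1.2
      · exact ⟨q, hq, h3.symm⟩
      · have hr : r.1.2 = -1 := le_antisymm (by linarith) r.2.1.2.2.1
        have : r = E (f T) := Subtype.ext (Prod.ext (hR _ _ h2).symm hr)
        refine ⟨T, ?_, this ▸ h2⟩
        show -1 < T.1.2
        rw [h1]
        norm_num
  have hBc : IsClosed B := by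
    rw [hBD]
    exact (hD.image (continuous_f.comp continuous_fst)).isClosed
  have hne : B.Nonempty := by
    let t : Y := ⟨-1, le_refl _, by norm_num⟩
    let T : K := ⟨(-1, 1), ⟨le_refl _, by norm_num, by norm_num, le_refl _⟩,
      Or.inl ⟨by norm_num, by norm_num⟩⟩
    obtain ⟨r, hr, er⟩ := key t 0 (by norm_num) (by
      intro p hp1 hp2
      have h1 : p.1.1 = -1 := congrArg Subtype.val hp1
      rcases p.2.2 with h2 | h2
      · rw [h1, hp2] at h2
        norm_num at h2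
      · rw [hp2] at h2
        norm_num at h2) T rfl
    have h1 : r.1.1 = -1 := hR _ _ er
    have h2 : r.1.2 = -1 := by
      rcases r.2.2 with h2 | h2
      · rw [h1, abs_of_nonpos hr] at h2
        linarith [r.2.1.2.2.1, h2.2]
      · exact h2
    have : r = E t := Subtype.ext (Prod.ext h1 h2)
    exact ⟨t, T, by show (-1 : ℝ) < 1; norm_num, this ▸ er.symm⟩
  have : PreconnectedSpace Y := Subtype.preconnectedSpace isPreconnected_Icc
  have huniv : B = univ := IsClopen.eq_univ ⟨hBc, hBo⟩ hne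
  have := hBle ⟨2, by norm_num, le_refl _⟩ (huniv ▸ mem_univ _)
  norm_num at this

/-- The negation of the preceding statement: For a continuous surjection f between compact metric spaces and open G₁, G₂ covering Y: if each restriction of f over closure(Gᵢ) is an open map followed by a monotone map, then f itself is an open map followed by a monotone map. -/
theorem result :
    ¬ (∀ (X Y : Type) [MetricSpace X] [CompactSpace X] [MetricSpace Y] [CompactSpace Y]
      (f : X → Y), Continuous f → Surjective f →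
      ∀ G₁ G₂ : Set Y, IsOpen G₁ → IsOpen G₂ → G₁ ∪ G₂ = Set.univ →
      (∃ (Z : Type) (_ : MetricSpace Z) (_ : CompactSpace Z)
          (h : ↥(f ⁻¹' closure G₁) → Z) (g : Z → ↥(closure G₁)),
          Continuous h ∧ IsOpenMap h ∧ Surjective h ∧
          Continuous g ∧ Surjective g ∧ (∀ y, IsConnected (g ⁻¹' {y})) ∧
          ∀ x : ↥(f ⁻¹' closure G₁), ((g (h x) : ↥(closure G₁)) : Y) = f x) →
      (∃ (Z : Type) (_ : MetricSpace Z) (_ : CompactSpace Z)
          (h : ↥(f ⁻¹' closure G₂) → Z) (g : Z → ↥(closure G₂)),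
          Continuous h ∧ IsOpenMap h ∧ Surjective h ∧
          Continuous g ∧ Surjective g ∧ (∀ y, IsConnected (g ⁻¹' {y})) ∧
          ∀ x : ↥(f ⁻¹' closure G₂), ((g (h x) : ↥(closure G₂)) : Y) = f x) →
      ∃ (Z : Type) (_ : MetricSpace Z) (_ : CompactSpace Z)
          (h : X → Z) (g : Z → Y),
          Continuous h ∧ IsOpenMap h ∧ Surjective h ∧
          Continuous g ∧ Surjective g ∧ (∀ y, IsConnected (g ⁻¹' {y})) ∧
          ∀ x : X, g (h x) = f x) := by
  intro H
  apply not_MO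
  have hf := continuous_f
  refine H K Y f hf (fun t => ⟨E t, rfl⟩) {y | y.1 < 1} {y | 0 < y.1}
    (isOpen_lt (by fun_prop) continuous_const) (isOpen_lt continuous_const (by fun_prop)) ?_ ?_ ?_
  · ext y
    simp only [mem_union, mem_setOf_eq, mem_univ, iff_true]
    by_contra hc
    push Not at hc
    linarith [hc.1, hc.2]
  · have hcl : ∀ y ∈ closure {y : Y | y.1 < 1}, y.1 ≤ 1 :=
      closure_minimal (t := {y : Y | y.1 ≤ 1}) (fun y (hy : y.1 < 1) => hy.le)
        (isClosed_le (by fun_prop) continuous_const)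
    refine ⟨closure {y : Y | y.1 < 1}, inferInstance,
      isCompact_iff_compactSpace.1 isClosed_closure.isCompact,
      fun p => ⟨f p.1, p.2⟩, id, by fun_prop, ?_, fun y => ⟨⟨E y.1, y.2⟩, rfl⟩, continuous_id,
      surjective_id, fun y => isConnected_singleton, fun _ => rfl⟩
    intro U hU
    rw [Metric.isOpen_iff] at hU ⊢
    rintro _ ⟨p, hp, rfl⟩
    obtain ⟨ε, hε, hb⟩ := hU p hp
    refine ⟨ε, hε, fun y hy => ?_⟩
    obtain ⟨x, hx, hd⟩ := lift p.1 (hcl _ p.2) y.1.1 y.1.2.1 (hcl _ y.2)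
    have hy' : |y.1.1 - p.1.1.1| < ε := hy
    refine ⟨⟨⟨(y.1.1, x), hx⟩, y.2⟩, hb ?_, rfl⟩
    show max |y.1.1 - p.1.1.1| |x - p.1.1.2| < ε
    exact max_lt hy' (hd.trans_lt hy')
  · have hcl : ∀ y ∈ closure {y : Y | 0 < y.1}, 0 ≤ y.1 :=
      closure_minimal (t := {y : Y | 0 ≤ y.1}) (fun y (hy : 0 < y.1) => hy.le)
        (isClosed_le continuous_const (by fun_prop))
    refine ⟨f ⁻¹' closure {y : Y | 0 < y.1}, inferInstance,
      isCompact_iff_compactSpace.1 (isClosed_closure.preimage hf).isCompact,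
      id, fun p => ⟨f p.1, p.2⟩, continuous_id, IsOpenMap.id, surjective_id, by fun_prop,
      fun y => ⟨⟨E y.1, y.2⟩, rfl⟩, ?_, fun _ => rfl⟩
    intro y
    by_cases hy : y.1.1 ≤ 1
    · have : ConnectedSpace (Icc (-1 : ℝ) 1) :=
        Subtype.connectedSpace (isConnected_Icc (by norm_num))
      let γ : Icc (-1 : ℝ) 1 → f ⁻¹' closure {y : Y | 0 < y.1} := fun x =>
        ⟨⟨(y.1.1, x.1), ⟨y.1.2.1, y.1.2.2, x.2.1, x.2.2⟩,
          Or.inl ⟨hy, by linarith [hcl _ y.2, abs_nonneg x.1]⟩⟩, y.2⟩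
      have hγ : Continuous γ := by
        unfold γ
        fun_prop
      refine (congrArg IsConnected ?_).mpr (isConnected_range hγ)
      ext p
      constructor
      · intro hp
        have h1 : p.1.1.1 = y.1.1 := congrArg (fun z => z.1.1) hp
        exact ⟨⟨p.1.1.2, p.1.2.1.2.2⟩, Subtype.ext (Subtype.ext (Prod.ext h1.symm rfl))⟩
      · rintro ⟨x, rfl⟩
        rfl
    · refine (congrArg IsConnected ?_).mpr
        (isConnected_singleton (x := (⟨E y.1, y.2⟩ : f ⁻¹' closure {y : Y | 0 < y.1})))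
      ext p
      constructor
      · intro hp
        have h1 : p.1.1.1 = y.1.1 := congrArg (fun z => z.1.1) hp
        rcases p.1.2.2 with h2 | h2
        · exact absurd (h1 ▸ h2.1) hy
        · exact Subtype.ext (Subtype.ext (Prod.ext h1 h2))
      · rintro rfl
        rfl

end Pool.Agent.S12748
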