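import Pool.Statements.S12750

set_option autoImplicit false
open TopologicalSpace
open Pool Pool.MP_0eb590_gt

namespace Pool.Agent.S12750

open Filter Topology

lemma sepRR : SeparableSpace (ℝ → ℝ) := by
  have hd : DenseRange (fun f : C(ℝ, ℝ) => (f : ℝ → ℝ)) := by
    intro f0
    rw [mem_closure_iff_nhds]
    intro s hs
    rw [nhds_pi, Filter.mem_pi] at hs
    obtain ⟨I, hI, t, ht, hsub⟩ := hs
    classical
    let P := Lagrange.interpolate hI.toFinset id f0
    refine ⟨fun x => P.eval x, hsub ?_, ⟨⟨fun x => P.eval x, P.continuous⟩, rfl⟩⟩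
    intro i hi
    have : P.eval i = f0 i :=
      Lagrange.eval_interpolate_at_node (s := hI.toFinset) (v := id) f0 (Set.injOn_id _)
        (by simpa using hi)
    show P.eval i ∈ t i
    rw [this]
    exact mem_of_mem_nhds (ht i)
  exact hd.separableSpace (continuous_pi fun x => continuous_eval_const x)

noncomputable def u : ℕ → ℝ × (ℝ → ℝ) :=
  haveI := sepRR
  denseSeq (ℝ × (ℝ → ℝ))

lemma u_dense : DenseRange u :=
  haveI := sepRR
  denseRange_denseSeq (ℝ × (ℝ → ℝ))

noncomputable def q (m : ℕ) : ℝ :=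
  if |(u (Nat.unpair m).1).1| ≤ (m : ℝ) - 1 then (u (Nat.unpair m).1).1 else 0

noncomputable def d (m : ℕ) : ℝ → ℝ := (u (Nat.unpair m).1).2

noncomputable def ψ (x : ℝ) : ℝ := max 0 (min 1 (2 - 4 * |x - 1 / 2|))

lemma ψ_cont : Continuous ψ := by unfold ψ; fun_prop

lemma ψ_nonneg (x : ℝ) : 0 ≤ ψ x := le_max_left _ _

lemma ψ_le (x : ℝ) : ψ x ≤ 1 := max_le zero_le_one (min_le_left _ _)

lemma ψ_zero {x : ℝ} (h : x ≤ 0 ∨ 1 ≤ x) : ψ x = 0 := by
  refine max_eq_left (min_le_of_right_le ?_)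
  rcases h with h | h
  · rw [abs_of_nonpos (by linarith)]; linarith
  · rw [abs_of_nonneg (by linarith)]; linarith

lemma ψ_one {x : ℝ} (h : |x - 1 / 2| ≤ 1 / 4) : ψ x = 1 := by
  unfold ψ
  rw [min_eq_left (by linarith), max_eq_right zero_le_one]

noncomputable def S (c : ℕ → ℝ) (x : ℝ) : ℝ := c ⌊x⌋₊ * ψ (x - ⌊x⌋₊)

lemma S_cont (c : ℕ → ℝ) : Continuous (S c) := by
  rw [continuous_iff_continuousAt]
  intro x0
  have hc : Continuous fun x : ℝ => ∑ m ∈ Finset.range (⌊x0⌋₊ + 1), c m * ψ (x - m) :=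
    continuous_finsetSum _ fun m _ => continuous_const.mul (ψ_cont.comp (by fun_prop))
  refine hc.continuousAt.congr ?_
  have : Set.Iio ((⌊x0⌋₊ : ℝ) + 1) ∈ 𝓝 x0 := Iio_mem_nhds (Nat.lt_floor_add_one x0)
  filter_upwards [this] with x hx
  have hx' : ⌊x⌋₊ < ⌊x0⌋₊ + 1 := by
    rw [Nat.floor_lt' (by omega)]
    exact_mod_cast hx
  unfold S
  refine Finset.sum_eq_single_of_mem ⌊x⌋₊ (Finset.mem_range.2 hx') ?_
  intro m _ hm
  rw [ψ_zero, mul_zero]
  rcases lt_or_gt_of_ne hm with h | h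
  · right
    have h1 : ((m + 1 : ℕ) : ℝ) ≤ x := (Nat.le_floor_iff' (by omega)).1 h
    push_cast at h1
    linarith
  · left
    have h1 := Nat.lt_floor_add_one x
    have h2 : ((⌊x⌋₊ + 1 : ℕ) : ℝ) ≤ m := by exact_mod_cast h
    push_cast at h2
    linarith

lemma S_zero (c : ℕ → ℝ) : S c 0 = 0 := by
  unfold S; rw [ψ_zero (by simp), mul_zero]

lemma S_abs (c : ℕ → ℝ) (x : ℝ) : |S c x| ≤ |c ⌊x⌋₊| := by
  unfold S
  rw [abs_mul, abs_of_nonneg (ψ_nonneg _)]
  exact mul_le_of_le_one_right (abs_nonneg _) (ψ_le _)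

lemma S_plateau (c : ℕ → ℝ) (m : ℕ) {x : ℝ} (h : |x - (m + 1 / 2)| < 1 / 4) : S c x = c m := by
  have h1 := abs_lt.1 h
  have h0 : (0 : ℝ) ≤ m := Nat.cast_nonneg m
  have : ⌊x⌋₊ = m := by
    rw [Nat.floor_eq_iff (by linarith)]
    constructor <;> linarith
  unfold S
  rw [this, ψ_one, mul_one]
  rw [abs_le]; constructor <;> linarith

noncomputable def ρ : ℝ → ℝ := S q

lemma ρ_abs (x : ℝ) : |ρ x| ≤ max 0 (|x| - 1) := by
  refine (S_abs q x).trans ?_
  unfold q
  split_ifs with h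
  · refine le_max_of_le_right (h.trans ?_)
    have : (⌊x⌋₊ : ℝ) ≤ |x| := by
      rcases le_total 0 x with hx | hx
      · exact (Nat.floor_le hx).trans (le_abs_self x)
      · rw [Nat.floor_of_nonpos hx]; simp
    linarith
  · simp

lemma ρ_abs' {x : ℝ} (h : ρ x ≠ 0) : |ρ x| + 1 ≤ |x| := by
  have h1 := ρ_abs x
  have h2 := abs_pos.2 h
  rcases le_max_iff.1 h1 with h3 | h3 <;> linarith

lemma ρ_iter (k : ℕ) (x : ℝ) : |ρ^[k] x| ≤ max 0 (|x| - k) := by
  induction k with
  | zero => simp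
  | succ k ih =>
    rw [Function.iterate_succ_apply']
    refine (ρ_abs _).trans (max_le (le_max_left _ _) ?_)
    rcases le_max_iff.1 ih with h | h
    · exact le_max_of_le_left (by linarith)
    · exact le_max_of_le_right (by push_cast; linarith)

noncomputable def T (p : ℝ → ℝ) (t : ℝ) : ℝ := ∑ k ∈ Finset.range ⌈|t|⌉₊, p (ρ^[k] t)

lemma T_eq {p : ℝ → ℝ} (hp : p 0 = 0) {t : ℝ} {K : ℕ} (hK : |t| ≤ K) :
    T p t = ∑ k ∈ Finset.range K, p (ρ^[k] t) := by
  unfold T
  refine Finset.sum_subset (Finset.range_subset_range.2 (Nat.ceil_le.2 hK)) ?_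
  intro k _ hk
  have h1 : |t| ≤ k := Nat.ceil_le.1 (by simpa using hk)
  have h2 := ρ_iter k t
  rw [max_eq_left (by linarith)] at h2
  rw [abs_nonpos_iff.1 h2, hp]

lemma T_cont {p : ℝ → ℝ} (hp : p 0 = 0) (hc : Continuous p) : Continuous (T p) := by
  rw [continuous_iff_continuousAt]
  intro x0
  have h1 : Continuous fun x : ℝ => ∑ k ∈ Finset.range (⌊|x0|⌋₊ + 1), p (ρ^[k] x) :=
    continuous_finsetSum _ fun k _ => hc.comp ((S_cont q).iterate k)
  refine h1.continuousAt.congr ?_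
  have : ∀ᶠ x in 𝓝 x0, |x| < (⌊|x0|⌋₊ : ℝ) + 1 :=
    continuous_abs.continuousAt.eventually_lt continuousAt_const (Nat.lt_floor_add_one _)
  filter_upwards [this] with x hx
  exact (T_eq hp (by push_cast; exact hx.le)).symm

lemma T_rec {p : ℝ → ℝ} (hp : p 0 = 0) (t : ℝ) : T p t = p t + T p (ρ t) := by
  have h0 : |t| ≤ ⌈|t|⌉₊ := Nat.le_ceil _
  rw [T_eq hp (K := ⌈|t|⌉₊ + 1) (by push_cast; linarith),
    T_eq hp (t := ρ t) (K := ⌈|t|⌉₊)
      ((ρ_abs t).trans (max_le (Nat.cast_nonneg _) (by linarith))),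
    Finset.sum_range_succ', add_comm]
  simp only [Function.iterate_succ_apply, Function.iterate_zero, id]

lemma descent {p E : ℝ → ℝ} (hp : p 0 = 0) {M : ℝ} (hM : 0 < M)
    (h : ∀ x, ρ x ≠ 0 → M ≤ |x| → |p x| ≤ E (ρ x) - E x) (k : ℕ) :
    ∀ t, M ≤ |ρ^[k] t| → |T p t - T p (ρ^[k] t)| ≤ E (ρ^[k] t) - E t ∧ |ρ^[k] t| ≤ |t| := by
  induction k with
  | zero => intro t _; simp
  | succ k ih =>
    intro t ht
    rw [Function.iterate_succ_apply] at ht ⊢
    obtain ⟨h1, h2⟩ := ih (ρ t) ht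
    have h3 : ρ t ≠ 0 := abs_pos.1 (by linarith)
    have h4 := ρ_abs' h3
    have h5 := h t h3 (by linarith)
    refine ⟨?_, by linarith⟩
    rw [T_rec hp t, add_sub_assoc]
    exact (abs_add_le _ _).trans (by linarith)

noncomputable def bump (c r t : ℝ) : ℝ := max 0 (min r |c| - |t - c|)

lemma bump_zero (c r : ℝ) : bump c r 0 = 0 := by
  refine max_eq_left ?_
  have := min_le_right r |c|
  simp only [zero_sub, abs_neg]
  linarith

lemma bump_cont (c r : ℝ) : Continuous (bump c r) := by unfold bump; fun_prop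

lemma bump_far {c r t : ℝ} (h : 2 * |c| ≤ |t|) : bump c r t = 0 := by
  refine max_eq_left ?_
  have := min_le_right r |c|
  have := abs_sub_abs_le_abs_sub t c
  linarith

noncomputable def ε (t : ℝ) : ℝ := Real.exp (-|t|)

lemma ε_pos (t : ℝ) : 0 < ε t := Real.exp_pos _

lemma ε_anti {s t : ℝ} (h : |s| ≤ |t|) : ε t ≤ ε s := Real.exp_le_exp.2 (by linarith)

noncomputable def σ (x : ℝ) : ℝ := Real.arctan x / 2

lemma σ_abs (x : ℝ) : |σ x| ≤ 1 := by
  have h1 := Real.arctan_lt_pi_div_two x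
  have h2 := Real.neg_pi_div_two_lt_arctan x
  have h3 := Real.pi_le_four
  unfold σ
  rw [abs_le]; constructor <;> linarith

noncomputable def p (β : ℝ) : ℝ → ℝ := S fun m => ε (q m) * σ (d m β)

lemma p_abs (β x : ℝ) (h : ρ x ≠ 0) : |p β x| ≤ 2 * ε (ρ x) - 2 * ε x := by
  have h1 : |p β x| ≤ ε (ρ x) := by
    refine (S_abs _ x).trans ?_
    rw [abs_mul, abs_of_pos (ε_pos _)]
    exact (mul_le_of_le_one_right (ε_pos _).le (σ_abs _)).trans (ε_anti (S_abs q x))
  have h2 : 2 * ε x ≤ ε (ρ x) := by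
    have h3 := ρ_abs' h
    have h4 : (2 : ℝ) ≤ Real.exp 1 := by have := Real.add_one_le_exp (1 : ℝ); linarith
    calc 2 * ε x ≤ Real.exp 1 * ε x := mul_le_mul_of_nonneg_right h4 (ε_pos _).le
      _ = Real.exp (1 + -|x|) := by rw [Real.exp_add]; rfl
      _ ≤ ε (ρ x) := Real.exp_le_exp.2 (by linarith)
  linarith

noncomputable def Ψ (z : ℝ × (ℝ → ℝ)) : (ℝ × ℝ) ⊕ ℝ → ℝ :=
  Sum.elim (fun cr => T (bump cr.1 cr.2) z.1) (fun β => T (p β) z.1 + ε z.1 * σ (z.2 β))

lemma Ψ_cont : Continuous Ψ := by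
  refine continuous_pi fun i => ?_
  rcases i with cr | β
  · exact (T_cont (bump_zero _ _) (bump_cont _ _)).comp continuous_fst
  · refine ((T_cont (S_zero _) (S_cont _)).comp continuous_fst).add (Continuous.mul ?_ ?_)
    · unfold ε; fun_prop
    · unfold σ
      exact (Real.continuous_arctan.comp ((continuous_apply β).comp continuous_snd)).div_const 2

lemma T_bump_top {c r t : ℝ} (hr : r ≤ 1) (h : |t| ≤ |c|) : T (bump c r) t = bump c r t := by
  rw [T_rec (bump_zero _ _), add_eq_left]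
  unfold T
  refine Finset.sum_eq_zero fun k _ => ?_
  rw [← Function.iterate_succ_apply]
  have h1 := ρ_iter (k + 1) t
  rcases le_max_iff.1 h1 with h2 | h2
  · rw [abs_nonpos_iff.1 h2, bump_zero]
  · refine max_eq_left ?_
    have h3 := min_le_left r |c|
    have h4 := abs_sub_abs_le_abs_sub c (ρ^[k + 1] t)
    have h5 : (0 : ℝ) ≤ k := Nat.cast_nonneg k
    rw [abs_sub_comm] at h4
    push_cast at h2
    linarith

lemma Ψ_inj : Function.Injective Ψ := by
  have key : ∀ z z', Ψ z = Ψ z' → |z'.1| ≤ |z.1| → z.1 = z'.1 := by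
    intro z z' h hle
    by_contra hne
    have h0 : z.1 ≠ 0 := by
      intro h0
      rw [h0, abs_zero, abs_nonpos_iff] at hle
      exact hne (h0.trans hle.symm)
    have h1 := congrFun h (Sum.inl (z.1, min 1 |z'.1 - z.1|))
    simp only [Ψ, Sum.elim_inl] at h1
    rw [T_bump_top (min_le_left _ _) le_rfl, T_bump_top (min_le_left _ _) hle] at h1
    have h2 : bump z.1 (min 1 |z'.1 - z.1|) z'.1 = 0 := by
      refine max_eq_left ?_
      have := min_le_left (min 1 |z'.1 - z.1|) |z.1|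
      have := min_le_right 1 |z'.1 - z.1|
      linarith
    have h3 : 0 < bump z.1 (min 1 |z'.1 - z.1|) z.1 := by
      refine lt_max_of_lt_right ?_
      have : 0 < min (min 1 |z'.1 - z.1|) |z.1| :=
        lt_min (lt_min one_pos (abs_pos.2 (sub_ne_zero.2 (Ne.symm hne)))) (abs_pos.2 h0)
      simpa using this
    linarith
  intro z z' h
  have h1 : z.1 = z'.1 := by
    rcases le_total |z'.1| |z.1| with hle | hle
    · exact key z z' h hle
    · exact (key z' z h.symm hle).symm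
  refine Prod.ext h1 (funext fun β => ?_)
  have h2 := congrFun h (Sum.inr β)
  simp only [Ψ, Sum.elim_inr, h1, add_right_inj] at h2
  have h3 := mul_left_cancel₀ (ε_pos _).ne' h2
  unfold σ at h3
  exact Real.arctan_injective (by linarith)

lemma main (N : Set ((ℝ × ℝ) ⊕ ℝ → ℝ)) (hN : IsOpen N) (z0 : ℝ × (ℝ → ℝ)) (h0 : Ψ z0 ∈ N) :
    ∃ m : ℕ, ∀ z, 0 < Ψ z (Sum.inl ((m : ℝ) + 1 / 2, 1 / 4)) → Ψ z ∈ N := by
  obtain ⟨i, hi⟩ := u_dense.exists_mem_open (hN.preimage Ψ_cont) ⟨z0, h0⟩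
  by_contra hc
  push Not at hc
  choose z hz1 hz2 using fun n => hc (Nat.pair i n)
  have hk : ∀ n, ∃ k, |ρ^[k] (z n).1 - ((Nat.pair i n : ℕ) + 1 / 2)| < 1 / 4 := by
    intro n
    have h1 := hz1 n
    simp only [Ψ, Sum.elim_inl, T] at h1
    obtain ⟨k, _, hk⟩ := Finset.exists_ne_zero_of_sum_ne_zero h1.ne'
    refine ⟨k, ?_⟩
    by_contra hh
    push Not at hh
    refine hk (max_eq_left ?_)
    have := min_le_left (1 / 4 : ℝ) |((Nat.pair i n : ℕ) : ℝ) + 1 / 2|
    linarith
  choose k hk using hk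
  have hge : ∀ n : ℕ, (n : ℝ) + 1 / 4 ≤ |ρ^[k n] (z n).1| := by
    intro n
    have h1 := abs_lt.1 (hk n)
    have h2 : (n : ℝ) ≤ (Nat.pair i n : ℕ) := by exact_mod_cast Nat.right_le_pair i n
    exact le_trans (by linarith) (le_abs_self _)
  have hq : ∀ n : ℕ, |(u i).1| + 1 ≤ n → q (Nat.pair i n) = (u i).1 := by
    intro n hn
    have h2 : (n : ℝ) ≤ (Nat.pair i n : ℕ) := by exact_mod_cast Nat.right_le_pair i n
    unfold q
    rw [Nat.unpair_pair, if_pos (by simp only; linarith)]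
  have hev : ∀ a : ℝ, ∀ᶠ n : ℕ in atTop, a ≤ n := fun a =>
    tendsto_natCast_atTop_atTop.eventually_ge_atTop a
  have hlim : Tendsto (fun n => Ψ (z n)) atTop (𝓝 (Ψ (u i))) := by
    rw [tendsto_pi_nhds]
    intro j
    rcases j with ⟨c, r⟩ | β
    · refine tendsto_const_nhds.congr' ?_
      filter_upwards [hev (|(u i).1| + 1), hev (2 * |c|)] with n h1 h2
      have h3 := (descent (p := bump c r) (E := fun _ => 0) (bump_zero c r)
        (M := (n : ℝ) + 1 / 4) (by positivity)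
        (fun x _ hx => by rw [bump_far (by linarith)]; simp) (k n) (z n).1 (hge n)).1
      simp only [sub_self, abs_nonpos_iff, sub_eq_zero] at h3
      simp only [Ψ, Sum.elim_inl]
      rw [h3, T_rec (bump_zero c r) (ρ^[k n] (z n).1), bump_far (by linarith [hge n]), zero_add]
      congr 1
      rw [← hq n h1]
      exact (S_plateau q _ (hk n)).symm
    · rw [tendsto_iff_dist_tendsto_zero]
      have hl : Tendsto (fun n : ℕ => 3 * Real.exp (-(n : ℝ))) atTop (𝓝 (3 * 0)) :=
        (Real.tendsto_exp_neg_atTop_nhds_zero.comp tendsto_natCast_atTop_atTop).const_mul 3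
      rw [mul_zero] at hl
      refine squeeze_zero' (Eventually.of_forall fun _ => dist_nonneg) ?_ hl
      filter_upwards [hev (|(u i).1| + 1)] with n h1
      obtain ⟨h3, h4⟩ := descent (p := p β) (E := fun x => 2 * ε x) (S_zero _)
        (M := (n : ℝ) + 1 / 4) (by positivity)
        (fun x hx _ => p_abs β x hx) (k n) (z n).1 (hge n)
      have h5 : T (p β) (ρ^[k n] (z n).1) = T (p β) (u i).1 + ε (u i).1 * σ ((u i).2 β) := by
        rw [T_rec (p := p β) (S_zero _) (ρ^[k n] (z n).1), add_comm]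
        have a1 : ρ (ρ^[k n] (z n).1) = (u i).1 := by
          rw [← hq n h1]; exact S_plateau q _ (hk n)
        have a2 : p β (ρ^[k n] (z n).1) = ε (u i).1 * σ ((u i).2 β) := by
          unfold p
          rw [S_plateau _ _ (hk n), hq n h1]
          unfold d
          rw [Nat.unpair_pair]
        rw [a1]
        exact congrArg _ a2
      simp only [Ψ, Sum.elim_inr]
      rw [← h5, Real.dist_eq]
      have h6 : ε (ρ^[k n] (z n).1) ≤ Real.exp (-(n : ℝ)) :=
        Real.exp_le_exp.2 (by linarith [hge n])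
      have h7 : |ε (z n).1 * σ ((z n).2 β)| ≤ ε (z n).1 := by
        rw [abs_mul, abs_of_pos (ε_pos _)]
        exact mul_le_of_le_one_right (ε_pos _).le (σ_abs _)
      have h8 := ε_pos (z n).1
      have h9 := Real.exp_pos (-(n : ℝ))
      rw [abs_le] at h3 h7 ⊢
      constructor <;> linarith [h3.1, h3.2, h7.1, h7.2]
  obtain ⟨n, hn⟩ := (hlim.eventually (hN.mem_nhds hi)).exists
  exact hz2 n hn

def K : Type := ℝ

instance : TopologicalSpace K := ⊥

instance : DiscreteTopology K := ⟨rfl⟩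

noncomputable def Φ (f : C(K, ℝ)) : (ℝ × ℝ) ⊕ ℝ → ℝ := Ψ (f (0 : ℝ), fun x : ℝ => f x)


/-- The negation of the preceding statement: For every Tychonoff space X: if C_p(X) (continuous reals on X, pointwise topology) admits a continuous bijection onto a Tychonoff space with a countable π-base, then X is separable. -/
theorem result :
    ¬ (∀ (X : Type) [TopologicalSpace X] [T35Space X],
      (∃ (Y : Type) (τ : TopologicalSpace Y), T35Space Y ∧
        ∃ g : C(X, ℝ) → Y, Function.Bijective g ∧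
          @Continuous C(X, ℝ) Y
            (TopologicalSpace.induced (fun f : C(X, ℝ) => (⇑f : X → ℝ)) Pi.topologicalSpace)
            τ g ∧
          ∃ B : Set (Set Y), B.Countable ∧
            (∀ P ∈ B, IsOpen P ∧ P.Nonempty) ∧
            ∀ U : Set Y, IsOpen U → U.Nonempty → ∃ P ∈ B, P ⊆ U) →
      SeparableSpace X) := by
  intro h
  have hsep : SeparableSpace K := by
    refine h K ⟨Set.range Φ, inferInstance, inferInstance, Set.rangeFactorization Φ, ⟨?_, ?_⟩, ?_, ?_⟩
    · intro f g hfg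
      have h1 : Φ f = Φ g := congrArg Subtype.val hfg
      have h2 := congrArg Prod.snd (Ψ_inj h1)
      ext x
      exact congrFun h2 x
    · exact Set.rangeFactorization_surjective
    · let _ : TopologicalSpace C(K, ℝ) :=
        TopologicalSpace.induced (fun f : C(K, ℝ) => (⇑f : K → ℝ)) Pi.topologicalSpace
      have hc : Continuous (fun f : C(K, ℝ) => (⇑f : K → ℝ)) := continuous_induced_dom
      refine Continuous.subtype_mk (Ψ_cont.comp (Continuous.prodMk ?_ ?_)) _
      · exact (continuous_apply _).comp hc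
      · exact hc
    · refine ⟨Set.range fun m : ℕ =>
        {y : Set.range Φ | 0 < y.1 (Sum.inl ((m : ℝ) + 1 / 2, 1 / 4))}, Set.countable_range _, ?_, ?_⟩
      · rintro _ ⟨m, rfl⟩
        refine ⟨isOpen_lt continuous_const ((continuous_apply _).comp continuous_subtype_val), ?_⟩
        refine ⟨⟨Φ (ContinuousMap.const K ((m : ℝ) + 1 / 2)), _, rfl⟩, ?_⟩
        simp only [Set.mem_ofPred_eq, Φ, Ψ, Sum.elim_inl, ContinuousMap.const_apply]
        rw [T_bump_top (by norm_num) le_rfl]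
        refine lt_max_of_lt_right ?_
        have : 0 < min (1 / 4 : ℝ) |(m : ℝ) + 1 / 2| := lt_min (by norm_num) (abs_pos.2 (by positivity))
        simpa using this
      · rintro U ⟨N, hN, rfl⟩ ⟨⟨_, f0, rfl⟩, h0⟩
        obtain ⟨m, hm⟩ := main N hN _ h0
        refine ⟨_, ⟨m, rfl⟩, ?_⟩
        rintro ⟨_, f, rfl⟩ hf
        exact hm _ hf
  obtain ⟨s, hs, hd⟩ := hsep.exists_countable_dense
  have : s = Set.univ := by
    have := hd.closure_eq
    rwa [(isClosed_discrete s).closure_eq] at this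
  rw [this] at hs
  exact Cardinal.not_countable_real hs

end Pool.Agent.S12750
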