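import Pool.Statements.S12771
-- import your own Pool.Agent.* helpers here

set_option autoImplicit false
open Pool Pool.MP_1144d4_gt

namespace Pool.Agent.S12771

open Set Filter Topology

abbrev I := Set.Icc (0:ℝ) 1
abbrev X := {f : C(I, I) // Function.Surjective ⇑f}

/-- odd collapsing profile -/
noncomputable def cc (r u : ℝ) : ℝ := max (-(max 0 (r - |u|))) (min u (max 0 (r - |u|)))
/-- bump profile -/
noncomputable def bb (r u : ℝ) : ℝ := max 0 (min 1 (2 - 4 * |u| / r))
/-- reparametrisation -/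
noncomputable def psi (x r l y : ℝ) : ℝ := y - min 1 (2 * l) * cc r (y - x)
/-- weight -/
noncomputable def ww (x r l y : ℝ) : ℝ := max 0 (2 * l - 1) * bb r (y - x)

lemma cc_far {r u : ℝ} (h : r ≤ |u|) : cc r u = 0 := by
  unfold cc
  rw [max_eq_left (show r - |u| ≤ 0 by linarith)]
  simp

lemma cc_near {r u : ℝ} (h : |u| ≤ r / 2) : cc r u = u := by
  unfold cc
  have h0 := abs_nonneg u
  have h1 := le_abs_self u
  have h2 := neg_abs_le u
  rw [max_eq_right (show 0 ≤ r - |u| by linarith), min_eq_left (by linarith),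
    max_eq_right (by linarith)]

lemma cc_bound (r u t : ℝ) (h0 : 0 ≤ t) (h1 : t ≤ 1) : |u - t * cc r u| ≤ |u| ∧ |t * cc r u| ≤ |u| := by
  have hh : 0 ≤ max 0 (r - |u|) := le_max_left _ _
  rcases le_total 0 u with h | h
  · have a1 : 0 ≤ cc r u := le_max_of_le_right (le_min h hh)
    have a2 : cc r u ≤ u := max_le (by linarith) (min_le_left _ _)
    rw [abs_of_nonneg h, abs_le, abs_le]
    refine ⟨⟨?_, ?_⟩, ?_, ?_⟩ <;> nlinarith
  · have a1 : cc r u ≤ 0 := max_le (by linarith) ((min_le_left _ _).trans h)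
    have a2 : u ≤ cc r u := le_max_of_le_right (le_min le_rfl (by linarith))
    rw [abs_of_nonpos h, abs_le, abs_le]
    refine ⟨⟨?_, ?_⟩, ?_, ?_⟩ <;> nlinarith

lemma bb_far {r u : ℝ} (hr : 0 < r) (h : r / 2 ≤ |u|) : bb r u = 0 := by
  unfold bb
  apply max_eq_left
  refine (min_le_right _ _).trans ?_
  have : 2 ≤ 4 * |u| / r := by rw [le_div_iff₀ hr]; linarith
  linarith

lemma bb_near {r u : ℝ} (hr : 0 < r) (h : |u| ≤ r / 4) : bb r u = 1 := by
  unfold bb
  have : 4 * |u| / r ≤ 1 := by rw [div_le_iff₀ hr]; linarith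
  rw [min_eq_left (by linarith), max_eq_right (by norm_num)]

lemma ww_mem (x r l y : ℝ) (hl : l ≤ 1) : 0 ≤ ww x r l y ∧ ww x r l y ≤ 1 := by
  unfold ww
  have a1 : 0 ≤ max 0 (2 * l - 1) := le_max_left _ _
  have a2 : max 0 (2 * l - 1) ≤ 1 := max_le (by norm_num) (by linarith)
  have a3 : 0 ≤ bb r (y - x) := le_max_left _ _
  have a4 : bb r (y - x) ≤ 1 := max_le (by norm_num) (min_le_left _ _)
  constructor <;> nlinarith

lemma psi_bound (x r l y : ℝ) (hl : 0 ≤ l) : |psi x r l y - x| ≤ |y - x| ∧ |psi x r l y - y| ≤ |y - x| := by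
  have h := cc_bound r (y - x) (min 1 (2 * l)) (le_min (by norm_num) (by linarith)) (min_le_left _ _)
  unfold psi
  constructor
  · convert h.1 using 2; ring
  · rw [← abs_neg]; convert h.2 using 2; ring

/-- the base map as a real function -/
noncomputable def g0 (f : X) (y : ℝ) : ℝ := (f.1 (projIcc 0 1 zero_le_one y) : ℝ)

lemma g0_cont : Continuous fun p : X × ℝ => g0 p.1 p.2 := by
  unfold g0
  have : Continuous fun y : ℝ => projIcc (0 : ℝ) 1 zero_le_one y := continuous_projIcc
  fun_prop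

lemma g0_coe (f : X) (y : I) : g0 f y = f.1 y := by
  unfold g0; rw [projIcc_val]

/-- successive modifications -/
noncomputable def G (x r : ℕ → ℝ) (l : ℕ → X → ℝ) : ℕ → X → ℝ → ℝ
  | 0 => g0
  | n + 1 => fun f y => (1 - ww (x n) (r n) (l n f) y) * G x r l n f (psi (x n) (r n) (l n f) y)
      + ww (x n) (r n) (l n f) y * x n

variable {x r : ℕ → ℝ} {l : ℕ → X → ℝ}

lemma G_succ (n : ℕ) (f : X) (y : ℝ) : G x r l (n + 1) f y =
    (1 - ww (x n) (r n) (l n f) y) * G x r l n f (psi (x n) (r n) (l n f) y)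
      + ww (x n) (r n) (l n f) y * x n := rfl

lemma G_cont (hl : ∀ n, Continuous (l n)) (n : ℕ) : Continuous fun p : X × ℝ => G x r l n p.1 p.2 := by
  induction n with
  | zero => exact g0_cont
  | succ n ih =>
    have h0 := hl n
    have h1 : Continuous fun p : X × ℝ => ww (x n) (r n) (l n p.1) p.2 := by
      unfold ww bb; fun_prop
    have h2 : Continuous fun p : X × ℝ => psi (x n) (r n) (l n p.1) p.2 := by
      unfold psi cc; fun_prop
    have h3 := ih.comp (continuous_fst.prodMk h2)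
    simp only [G_succ]
    exact ((continuous_const.sub h1).mul h3).add (h1.mul continuous_const)

lemma G_zero (n : ℕ) (f : X) (h : l n f = 0) (y : ℝ) : G x r l (n + 1) f y = G x r l n f y := by
  rw [G_succ]
  simp [ww, psi, h]

lemma G_far (n : ℕ) (f : X) (hr : 0 < r n) (y : ℝ) (h : r n ≤ |y - x n|) :
    G x r l (n + 1) f y = G x r l n f y := by
  rw [G_succ]
  simp [ww, psi, cc_far h, bb_far hr (show r n / 2 ≤ |y - x n| by linarith)]

lemma G_mem (f : X) (hr : ∀ n, 0 < r n) (hl1 : ∀ n, l n f ≤ 1)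
    (hJ : ∀ n, l n f ≠ 0 → r n ≤ x n ∧ x n + r n ≤ 1) (n : ℕ) (y : ℝ) :
    G x r l n f y ∈ Icc (0 : ℝ) 1 := by
  induction n generalizing y with
  | zero => exact (f.1 _).2
  | succ n ih =>
    by_cases h : l n f = 0
    · rw [G_zero n f h]; exact ih y
    · rw [G_succ]
      obtain ⟨a1, a2⟩ := ww_mem (x n) (r n) (l n f) y (hl1 n)
      obtain ⟨b1, b2⟩ := ih (psi (x n) (r n) (l n f) y)
      obtain ⟨c1, c2⟩ := hJ n h
      have := hr n
      constructor <;> nlinarith

lemma G_surj (f : X) (hr : ∀ n, 0 < r n)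
    (hJ : ∀ n, l n f ≠ 0 → r n ≤ x n ∧ x n + r n ≤ 1) (n : ℕ) (v : I) :
    ∃ y ∈ Icc (0 : ℝ) 1, G x r l n f y = v := by
  induction n with
  | zero =>
    obtain ⟨y, hy⟩ := f.2 v
    exact ⟨y, y.2, by rw [← hy]; exact g0_coe f y⟩
  | succ n ih =>
    obtain ⟨y0, hy0, h0⟩ := ih
    by_cases h : l n f = 0
    · exact ⟨y0, hy0, by rw [G_zero n f h, h0]⟩
    obtain ⟨c1, c2⟩ := hJ n h
    have hrn := hr n
    have hc : Continuous fun y => psi (x n) (r n) (l n f) y := by unfold psi cc; fun_prop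
    have p0 : psi (x n) (r n) (l n f) 0 = 0 := by
      have : r n ≤ |0 - x n| := by rw [abs_of_nonpos (by linarith)]; linarith
      unfold psi; rw [cc_far this]; ring
    have p1 : psi (x n) (r n) (l n f) 1 = 1 := by
      have : r n ≤ |1 - x n| := by rw [abs_of_nonneg (by linarith)]; linarith
      unfold psi; rw [cc_far this]; ring
    have hiv := intermediate_value_Icc zero_le_one hc.continuousOn
    simp only [p0, p1] at hiv
    obtain ⟨y1, hy1, h1⟩ := hiv hy0
    simp only at h1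
    by_cases hw : ww (x n) (r n) (l n f) y1 = 0
    · exact ⟨y1, hy1, by rw [G_succ, hw, h1, h0]; ring⟩
    · unfold ww at hw
      have w1 : 1 ≤ 2 * l n f := by
        by_contra hc
        apply hw
        rw [max_eq_left (by linarith), zero_mul]
      have w2 : |y1 - x n| ≤ r n / 2 := by
        by_contra hc
        apply hw
        rw [bb_far hrn (by linarith), mul_zero]
      have e1 : y0 = x n := by
        rw [← h1]; unfold psi; rw [min_eq_left w1, cc_near w2]; ring
      have w3 : |x n + r n / 2 - x n| = r n / 2 := by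
        rw [add_sub_cancel_left, abs_of_nonneg (by linarith)]
      refine ⟨x n + r n / 2, ⟨by linarith, by linarith⟩, ?_⟩
      have e2 : psi (x n) (r n) (l n f) (x n + r n / 2) = x n := by
        unfold psi; rw [min_eq_left w1, cc_near w3.le]; ring
      have e3 : ww (x n) (r n) (l n f) (x n + r n / 2) = 0 := by
        unfold ww; rw [bb_far hrn w3.ge, mul_zero]
      rw [G_succ, e2, e3, ← e1, h0]; ring

lemma G_disp (f : X) (e : ℝ) (he : 0 < e) (hr : ∀ n, 0 < r n) (hl0 : ∀ n, 0 ≤ l n f)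
    (hl1 : ∀ n, l n f ≤ 1)
    (hJ : ∀ n, l n f ≠ 0 → r n * 2 ^ (n + 1) < e ∧ ∀ y, |y - x n| ≤ r n → |g0 f y - y| < e)
    (n : ℕ) (y : ℝ) : (|g0 f y - y| < e → |G x r l n f y - y| ≤ e + e * (1 - 1 / 2 ^ n)) ∧
      (¬ |g0 f y - y| < e → G x r l n f y = g0 f y) := by
  induction n generalizing y with
  | zero => exact ⟨fun h => by simpa [G] using h.le, fun _ => rfl⟩
  | succ n ih =>
    have hp : (0 : ℝ) < 1 / 2 ^ (n + 1) := by positivity
    have hq : (1 : ℝ) / 2 ^ n = 2 * (1 / 2 ^ (n + 1)) := by rw [pow_succ]; field_simp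
    have hsame : G x r l (n + 1) f y = G x r l n f y →
        (|g0 f y - y| < e → |G x r l (n + 1) f y - y| ≤ e + e * (1 - 1 / 2 ^ (n + 1))) ∧
        (¬ |g0 f y - y| < e → G x r l (n + 1) f y = g0 f y) := by
      intro h
      rw [h]
      refine ⟨fun h1 => ((ih y).1 h1).trans ?_, (ih y).2⟩
      rw [hq]; nlinarith
    by_cases h : l n f = 0
    · exact hsame (G_zero n f h y)
    rcases le_total (r n) |y - x n| with h1 | h1
    · exact hsame (G_far n f (hr n) y h1)
    obtain ⟨c1, c2⟩ := hJ n h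
    refine ⟨fun _ => ?_, fun h2 => absurd (c2 y h1) h2⟩
    obtain ⟨p1, p2⟩ := psi_bound (x n) (r n) (l n f) y (hl0 n)
    have h3 := (ih _).1 (c2 _ (p1.trans h1))
    obtain ⟨a1, a2⟩ := ww_mem (x n) (r n) (l n f) y (hl1 n)
    have h4 : r n ≤ e * (1 / 2 ^ (n + 1)) := by
      rw [mul_one_div, le_div_iff₀ (by positivity)]; exact c1.le
    have h5 : (1 : ℝ) / 2 ^ n ≤ 1 := by
      rw [div_le_one (by positivity)]; exact one_le_pow₀ (by norm_num)
    rw [G_succ]
    set w := ww (x n) (r n) (l n f) y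
    set z := psi (x n) (r n) (l n f) y
    set g := G x r l n f z
    set B := e + e * (1 - 1 / 2 ^ (n + 1)) with hB
    have b1 : |g - y| ≤ B := by
      have := abs_sub_le g z y
      rw [hq] at h3
      linarith
    have b2 : |x n - y| ≤ B := by
      rw [abs_sub_comm]
      rw [hq] at h5
      nlinarith
    have e1 : (1 - w) * g + w * x n - y = (1 - w) * (g - y) + w * (x n - y) := by ring
    rw [e1]
    refine (abs_add_le _ _).trans ?_
    rw [abs_mul, abs_mul, abs_of_nonneg (by linarith : 0 ≤ 1 - w), abs_of_nonneg a1]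
    nlinarith

lemma G_trap (f : X) (hr : ∀ n, 0 < r n) (hsep : ∀ i n, i < n → 2 * r n ≤ |x n - x i|)
    (i : ℕ) (hi : l i f = 1) (n : ℕ) (hn : i + 1 ≤ n) :
    ∃ s, 0 < s ∧ s < r i ∧ ∀ y, |y - x i| ≤ s → G x r l n f y = x i := by
  induction n, hn using Nat.le_induction with
  | base =>
    have := hr i
    refine ⟨r i / 4, by linarith, by linarith, fun y hy => ?_⟩
    have e : ww (x i) (r i) (l i f) y = 1 := by
      unfold ww; rw [bb_near this hy, hi]; norm_num
    rw [G_succ, e]; ring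
  | succ n hn ih =>
    obtain ⟨s, s0, s1, hs⟩ := ih
    refine ⟨min s (r n), lt_min s0 (hr n), (min_le_left _ _).trans_lt s1, fun y hy => ?_⟩
    have h1 := hsep i n (by omega)
    have h2 := abs_sub_le (x n) y (x i)
    have h3 := hy.trans (min_le_right _ _)
    rw [G_far n f (hr n) y (by rw [abs_sub_comm]; linarith)]
    exact hs y (hy.trans (min_le_left _ _))

lemma exists_seq : ∃ x r : ℕ → ℝ, (∀ n, 0 < r n) ∧ (∀ n, r n ≤ 1 / 4 ^ n) ∧
    (∀ i n, i < n → 2 * r n ≤ |x n - x i|) ∧
    ∀ a b : ℝ, a < b → ∀ N : ℕ, ∃ n, N < n ∧ a < x n ∧ x n < b := by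
  let e : ℕ ≃ ℚ := (Denumerable.eqv ℚ).symm
  let x : ℕ → ℝ := fun n => (e n : ℝ)
  have hx : Function.Injective x := fun a b h => e.injective (by simpa [x] using h)
  have h1 : ∀ n, ∃ r : ℝ, 0 < r ∧ r ≤ 1 / 4 ^ n ∧ ∀ i, i < n → 2 * r ≤ |x n - x i| := by
    intro n
    have h2 : ∀ m, m ≤ n → ∃ r : ℝ, 0 < r ∧ r ≤ 1 / 4 ^ n ∧ ∀ i, i < m → 2 * r ≤ |x n - x i| := by
      intro m
      induction m with
      | zero => intro _; exact ⟨1 / 4 ^ n, by positivity, le_rfl, fun i hi => by omega⟩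
      | succ m ih =>
        intro hm
        obtain ⟨r, r0, r1, r2⟩ := ih (by omega)
        have h3 : 0 < |x n - x m| := abs_pos.2 (sub_ne_zero.2 fun h => by have := hx h; omega)
        refine ⟨min r (|x n - x m| / 2), lt_min r0 (by linarith), (min_le_left _ _).trans r1,
          fun i hi => ?_⟩
        rcases Nat.lt_succ_iff_lt_or_eq.1 hi with h | h
        · have := min_le_left r (|x n - x m| / 2)
          have := r2 i h
          linarith
        · have := min_le_right r (|x n - x m| / 2)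
          rw [h]
          linarith
    exact h2 n le_rfl
  choose r r0 r1 r2 using h1
  refine ⟨x, r, r0, r1, fun i n h => r2 n i h, fun a b hab N => ?_⟩
  obtain ⟨p, hp1, hp2⟩ := exists_rat_btwn hab
  obtain ⟨q, hq1, hq2⟩ := exists_rat_btwn hp2
  have hpq : p < q := by exact_mod_cast hq1
  have hinf : (e ⁻¹' Ioo p q).Infinite :=
    (Set.Ioo_infinite hpq).preimage (by rw [e.surjective.range_eq]; exact subset_univ _)
  obtain ⟨n, hn, hN⟩ := hinf.exists_gt N
  have a1 : (p : ℝ) < e n := by exact_mod_cast hn.1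
  have a2 : (e n : ℝ) < q := by exact_mod_cast hn.2
  exact ⟨n, hN, hp1.trans a1, a2.trans hq2⟩


/-- In the space of continuous surjections of [0,1] (sup metric), for every continuous positive ε there is a continuous self-map moving each point less than ε into the complement of the closure of the transitive maps, i.e. that closure is a Z-set. -/
theorem result :
    ∀ ε : {f : C(Set.Icc (0:ℝ) 1, Set.Icc (0:ℝ) 1) // Function.Surjective ⇑f} → ℝ,
      Continuous ε → (∀ g, 0 < ε g) →
      ∃ φ : {f : C(Set.Icc (0:ℝ) 1, Set.Icc (0:ℝ) 1) // Function.Surjective ⇑f} →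
          {f : C(Set.Icc (0:ℝ) 1, Set.Icc (0:ℝ) 1) // Function.Surjective ⇑f},
        Continuous φ ∧ ∀ g, dist (φ g) g < ε g ∧
          φ g ∉ closure {h : {f : C(Set.Icc (0:ℝ) 1, Set.Icc (0:ℝ) 1) // Function.Surjective ⇑f} |
            ∀ U V : Set (Set.Icc (0:ℝ) 1), IsOpen U → IsOpen V → U.Nonempty → V.Nonempty →
              ∃ n : ℕ, 0 < n ∧ ((⇑h.1)^[n] '' U ∩ V).Nonempty} := by
  intro ε hε hpos
  obtain ⟨x, r, hr, hr1, hsep, hden⟩ := exists_seq
  let U : ℕ → Set X := fun n => {f | (r n ≤ x n ∧ x n + r n ≤ 1) ∧ r n * 2 ^ (n + 1) < ε f / 4 ∧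
    ∀ y ∈ Metric.closedBall (x n) (r n), |g0 f y - y| < ε f / 4}
  have hUo : ∀ n, IsOpen (U n) := by
    intro n
    rw [isOpen_iff_mem_nhds]
    intro f hf
    have h1 : ∀ᶠ g in 𝓝 f, r n * 2 ^ (n + 1) < ε g / 4 :=
      continuousAt_const.eventually_lt (hε.div_const 4).continuousAt hf.2.1
    have h2 : ∀ᶠ g in 𝓝 f, ∀ y ∈ Metric.closedBall (x n) (r n), |g0 g y - y| < ε g / 4 := by
      apply (isCompact_closedBall _ _).eventually_forall_of_forall_eventually
      intro y hy
      exact ContinuousAt.eventually_lt (f := fun p : X × ℝ => |g0 p.1 p.2 - p.2|)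
        (g := fun p : X × ℝ => ε p.1 / 4) (g0_cont.sub continuous_snd).abs.continuousAt
        ((hε.comp continuous_fst).div_const 4).continuousAt (hf.2.2 y hy)
    filter_upwards [h1, h2] with g a b using ⟨hf.1, a, b⟩
  have hUc : (univ : Set X) ⊆ ⋃ n, U n := by
    intro f _
    have hc : Continuous (g0 f) := g0_cont.comp (Continuous.prodMk_right f)
    obtain ⟨p, hp, hfix⟩ := exists_mem_Icc_isFixedPt_of_mapsTo (a := (0 : ℝ)) (b := 1)
      hc.continuousOn zero_le_one (fun y _ => (f.1 _).2)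
    have hc2 : Continuous fun y => |g0 f y - y| := (hc.sub continuous_id).abs
    have he := hpos f
    have h1 : ∀ᶠ y in 𝓝 p, |g0 f y - y| < ε f / 4 := by
      apply hc2.continuousAt.eventually_lt continuousAt_const
      have : g0 f p = p := hfix
      simp only [this, sub_self, abs_zero]
      linarith
    obtain ⟨δ, hδ, hball⟩ := Metric.eventually_nhds_iff.1 h1
    obtain ⟨a, b, hab, ha, hb, hap, hbp⟩ : ∃ a b : ℝ, a < b ∧ 0 < a ∧ b < 1 ∧ p - δ / 2 ≤ a ∧
        b ≤ p + δ / 2 := by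
      obtain ⟨m, m0, m1, m2⟩ : ∃ m : ℝ, 0 < m ∧ m ≤ 1 / 4 ∧ m ≤ δ / 4 :=
        ⟨min (1 / 4) (δ / 4), lt_min (by norm_num) (by linarith), min_le_left _ _, min_le_right _ _⟩
      rcases le_total p (1 / 2) with h | h
      · exact ⟨p + m / 2, p + m, by linarith, by linarith [hp.1], by linarith, by linarith, by linarith⟩
      · exact ⟨p - m, p - m / 2, by linarith, by linarith, by linarith [hp.2], by linarith, by linarith⟩
    obtain ⟨η, η0, η1, η2, η3, η4⟩ : ∃ η : ℝ, 0 < η ∧ η ≤ a ∧ η ≤ 1 - b ∧ η ≤ δ / 2 ∧ η ≤ ε f / 8 :=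
      ⟨min (min a (1 - b)) (min (δ / 2) (ε f / 8)),
        lt_min (lt_min ha (by linarith)) (lt_min (by linarith) (by linarith)),
        (min_le_left _ _).trans (min_le_left _ _), (min_le_left _ _).trans (min_le_right _ _),
        (min_le_right _ _).trans (min_le_left _ _), (min_le_right _ _).trans (min_le_right _ _)⟩
    obtain ⟨N, hN⟩ := exists_pow_lt_of_lt_one η0 (show (1 / 2 : ℝ) < 1 by norm_num)
    obtain ⟨n, hn, hx1, hx2⟩ := hden a b hab N
    have h2 : (1 / 2 : ℝ) ^ n < η :=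
      (pow_le_pow_of_le_one (by norm_num) (by norm_num) hn.le).trans_lt hN
    have h3 : r n * 2 ^ n ≤ (1 / 2) ^ n := by
      have e : ((1 : ℝ) / 2) ^ n = 1 / 4 ^ n * 2 ^ n := by
        rw [show (4 : ℝ) = 2 * 2 by norm_num, mul_pow, one_div_pow]; field_simp
      rw [e]
      exact mul_le_mul_of_nonneg_right (hr1 n) (by positivity)
    have h4 : r n ≤ r n * 2 ^ n := le_mul_of_one_le_right (hr n).le (one_le_pow₀ (by norm_num))
    refine mem_iUnion.2 ⟨n, ⟨by linarith, by linarith⟩, by rw [pow_succ]; linarith, fun y hy => ?_⟩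
    apply hball
    rw [Metric.mem_closedBall, Real.dist_eq, abs_le] at hy
    rw [Real.dist_eq, abs_lt]
    constructor <;> linarith [hy.1, hy.2]
  obtain ⟨ρ, hρ⟩ := BumpCovering.exists_isSubordinate isClosed_univ U hUo hUc
  let l : ℕ → X → ℝ := fun n f => ρ n f
  have hlc : ∀ n, Continuous (l n) := fun n => (ρ n).continuous
  have hlU : ∀ n f, l n f ≠ 0 → f ∈ U n := fun n f h => hρ n (subset_tsupport _ h)
  have hGc := G_cont (x := x) (r := r) hlc
  have hmem := fun (f : X) => G_mem (x := x) (l := l) f hr (fun n => ρ.le_one n f)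
    (fun n h => (hlU n f h).1)
  let Φ : ℕ → X → X := fun n f =>
    ⟨⟨fun y => ⟨G x r l n f y, hmem f n y⟩,
      ((hGc n).comp ((Continuous.prodMk_right f).comp continuous_subtype_val)).subtype_mk _⟩, by
      intro v
      obtain ⟨y, hy, h⟩ := G_surj (x := x) (l := l) f hr (fun n h => (hlU n f h).1) n v
      exact ⟨⟨y, hy⟩, Subtype.ext h⟩⟩
  have hΦ : ∀ n f (y : I), ((Φ n f).1 y : ℝ) = G x r l n f y := fun _ _ _ => rfl
  have hΦc : ∀ n, Continuous (Φ n) := by
    intro n
    refine Continuous.subtype_mk ?_ _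
    apply ContinuousMap.continuous_of_continuous_uncurry
    exact ((hGc n).comp (continuous_fst.prodMk (continuous_subtype_val.comp continuous_snd))).subtype_mk _
  have hlf : LocallyFinite fun n => {f | Φ (n + 1) f ≠ Φ n f} := by
    refine ρ.locallyFinite.subset fun n f hf => ?_
    intro h0
    apply hf
    apply Subtype.ext
    ext y
    rw [hΦ, hΦ]
    exact G_zero n f h0 y
  obtain ⟨F, hF⟩ := hlf.exists_forall_eventually_atTop_eventuallyEq
  refine ⟨F, ?_, fun g => ?_⟩
  · rw [continuous_iff_continuousAt]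
    intro f
    obtain ⟨n, hn⟩ := (hF f).exists
    exact (hΦc n).continuousAt.congr hn
  obtain ⟨i, hi⟩ := ρ.eventuallyEq_one' g (mem_univ _)
  have hi1 : l i g = 1 := hi.self_of_nhds
  obtain ⟨n, hn1, hn2⟩ := ((hF g).and (eventually_ge_atTop (i + 1))).exists
  have hFg : F g = Φ n g := hn1.self_of_nhds.symm
  have he := hpos g
  rw [hFg]
  constructor
  · have h1 : dist (Φ n g).1 g.1 ≤ 3 * (ε g / 4) := by
      rw [ContinuousMap.dist_le (by linarith)]
      intro y
      rw [Subtype.dist_eq, Real.dist_eq, hΦ, ← g0_coe]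
      have h2 := G_disp (x := x) (r := r) (l := l) g (ε g / 4) (by linarith) hr
        (fun n => ρ.nonneg n g) (fun n => ρ.le_one n g)
        (fun n h => ⟨(hlU n g h).2.1, fun y hy => (hlU n g h).2.2 y hy⟩) n y
      by_cases h3 : |g0 g y - y| < ε g / 4
      · have h4 := h2.1 h3
        have h5 := abs_sub_le (G x r l n g y) y (g0 g y)
        rw [abs_sub_comm (y : ℝ)] at h5
        have h6 : (0 : ℝ) < 1 / 2 ^ n := by positivity
        nlinarith
      · rw [h2.2 h3, sub_self, abs_zero]; linarith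
    rw [Subtype.dist_eq]
    linarith
  · intro hcl
    obtain ⟨s, s0, s1, hs⟩ := G_trap (x := x) (l := l) g hr hsep i hi1 n hn2
    obtain ⟨h, hT, hd⟩ := Metric.mem_closure_iff.1 hcl s s0
    obtain ⟨c1, c2⟩ := (hlU i g (by rw [hi1]; norm_num)).1
    have hri := hr i
    obtain ⟨m, -, z, ⟨y, hy, rfl⟩, hz⟩ := hT {y : I | |(y : ℝ) - x i| < s} {y : I | s < |(y : ℝ) - x i|}
      (isOpen_lt (by fun_prop) continuous_const) (isOpen_lt continuous_const (by fun_prop))
      ⟨⟨x i, by linarith, by linarith⟩, by simpa using s0⟩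
      ⟨⟨0, le_rfl, zero_le_one⟩, by
        show s < |(0 : ℝ) - x i|
        rw [abs_of_nonpos (by linarith)]; linarith⟩
    have hinv : ∀ k, |((⇑h.1)^[k] y : ℝ) - x i| < s := by
      intro k
      induction k with
      | zero => exact hy
      | succ k ih =>
        rw [Function.iterate_succ_apply']
        have h1 := ContinuousMap.dist_apply_le_dist (f := (Φ n g).1) (g := h.1) ((⇑h.1)^[k] y)
        rw [Subtype.dist_eq, Real.dist_eq, hΦ, hs _ ih.le, abs_sub_comm] at h1
        exact h1.trans_lt hd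
    exact lt_asymm (hinv m) hz

end Pool.Agent.S12771
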