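import Pool.Statements.S12793
import Pool.Agent.H5.SelP

set_option autoImplicit false
open Filter Topology
open Pool Pool.MP_14ad8d_gt

namespace Pool.Agent.S12793

/-- There is an abelian Hausdorff topological group in which any choice of points from a sequence of nonempty open sets can be made to have an accumulation point, yet for each free ultrafilter p some sequence of open sets admits no choice with a p-limit. -/
theorem result :
    ∃ (G : Type) (_ : CommGroup G) (_ : TopologicalSpace G),
      IsTopologicalGroup G ∧ T2Space G ∧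
      (∀ U : ℕ → Set G, (∀ n, IsOpen (U n) ∧ (U n).Nonempty) →
        ∃ x : ℕ → G, (∀ n, x n ∈ U n) ∧ ∃ y : G, MapClusterPt y atTop x) ∧
      (∀ p : Ultrafilter ℕ, (p : Filter ℕ) ≤ cofinite →
        ∃ U : ℕ → Set G, (∀ n, IsOpen (U n) ∧ (U n).Nonempty) ∧
          ∀ x : ℕ → G, (∀ n, x n ∈ U n) →
            ∀ y : G, ¬ Tendsto x (p : Filter ℕ) (𝓝 y)) := by
  classical
  open Pool.Agent.H5.SelP Cardinal in
  choose B hB G hG1 hG2 using exists_group
  let H : Type := (p : Ultrafilter ℕ) → G p
  have hadd : (∀ U : ℕ → Set H, (∀ n, IsOpen (U n) ∧ (U n).Nonempty) →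
        ∃ x : ℕ → H, (∀ n, x n ∈ U n) ∧ ∃ y : H, MapClusterPt y atTop x) := by
    intro U hU
    choose u hu using fun n => (hU n).2
    have h1 : ∀ n, ∃ (P : Finset (Ultrafilter ℕ)) (W : ∀ p, Set (G p)),
        (∀ p ∈ P, IsOpen (W p) ∧ u n p ∈ W p) ∧ (P : Set (Ultrafilter ℕ)).pi W ⊆ U n :=
      fun n => isOpen_pi_iff.1 (hU n).1 (u n) (hu n)
    choose P W hW1 hW2 using h1
    have h2 : ∀ n p, ∃ S : Finset H5.SelP.I, p ∈ P n →
        ∀ x : G p, (∀ b ∈ S, x.1 b = (u n p).1 b) → x ∈ W n p := by
      intro n p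
      by_cases hp : p ∈ P n
      · obtain ⟨t, ht, ht2⟩ := isOpen_induced_iff.1 (hW1 n p hp).1
        have hmem : (u n p).1 ∈ t := by
          have := (hW1 n p hp).2
          rw [← ht2] at this
          exact this
        obtain ⟨S, V, hV1, hV2⟩ := isOpen_pi_iff.1 ht _ hmem
        refine ⟨S, fun _ x hx => ?_⟩
        rw [← ht2]
        apply hV2
        intro b hb
        rw [hx b hb]
        exact (hV1 b hb).2
      · exact ⟨∅, fun h => absurd h hp⟩
    choose S hS using h2
    let C : Set (Ultrafilter ℕ) := ⋃ n, (P n : Set (Ultrafilter ℕ))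
    have hC : C.Countable := Set.countable_iUnion fun n => (P n).countable_toSet
    have hBC : Cardinal.mk (⋃ p : C, B p.1 : Set (Ultrafilter ℕ)) ≤ Cardinal.continuum := by
      refine le_trans (Cardinal.mk_iUnion_le _) ?_
      have h3 : Cardinal.mk C ≤ Cardinal.continuum :=
        le_trans (Cardinal.le_aleph0_iff_set_countable.2 hC) Cardinal.aleph0_le_continuum
      have h4 : ⨆ p : C, Cardinal.mk (B p.1) ≤ Cardinal.continuum := ciSup_le' fun p => hB p.1
      calc _ ≤ Cardinal.continuum * Cardinal.continuum := mul_le_mul' h3 h4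
        _ = Cardinal.continuum := by simp
    obtain ⟨q, hq, hqf⟩ := H5.SelP.exists_free _ hBC
    have h3 : ∀ p, ∃ (x : ℕ → G p) (y : G p), (∀ n, p ∈ P n → x n ∈ W n p) ∧
        Tendsto x (q : Filter ℕ) (𝓝 y) := by
      intro p
      by_cases hp : p ∈ C
      · have hqp : q ∉ B p := fun h => hq (Set.mem_iUnion.2 ⟨⟨p, hp⟩, h⟩)
        obtain ⟨x, y, hx, hy, hxy, hlim⟩ := hG1 p q hqp (fun n => S n p) (fun n => (u n p).1)
        refine ⟨fun n => ⟨x n, hx n⟩, ⟨y, hy⟩, fun n hn => hS n p hn _ (hxy n), ?_⟩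
        exact tendsto_subtype_rng.2 hlim
      · refine ⟨fun _ => 0, 0, fun n hn => ?_, tendsto_const_nhds⟩
        exact absurd (Set.mem_iUnion.2 ⟨n, hn⟩) hp
    choose x y hx hlim using h3
    refine ⟨fun n p => x p n, fun n => hW2 n (fun p hp => hx p n hp), y, ?_⟩
    have h4 : Tendsto (fun n => (fun p => x p n : H)) (q : Filter ℕ) (𝓝 y) :=
      tendsto_pi_nhds.2 hlim
    refine MapClusterPt.mono (h4.mapClusterPt) ?_
    rw [← Nat.cofinite_eq_atTop]
    exact hqf
  have hnot : (∀ p : Ultrafilter ℕ, (p : Filter ℕ) ≤ cofinite →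
        ∃ U : ℕ → Set H, (∀ n, IsOpen (U n) ∧ (U n).Nonempty) ∧
          ∀ x : ℕ → H, (∀ n, x n ∈ U n) →
            ∀ y : H, ¬ Tendsto x (p : Filter ℕ) (𝓝 y)) := by
    intro p hp
    let c := H5.SelP.c
    have hcont : ∀ b, Continuous (fun x : H => (x p).1 b) := fun b =>
      (continuous_apply b).comp (continuous_subtype_val.comp (continuous_apply p))
    refine ⟨fun n => {x | (x p).1 (c n) = 1} ∩ ⋂ i ∈ Finset.range n, {x | (x p).1 (c i) = 0},
      fun n => ⟨?_, ?_⟩, ?_⟩
    · refine IsOpen.inter ?_ (isOpen_biInter_finset fun i _ => ?_)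
      · exact (isOpen_discrete ({1} : Set H5.SelP.Z)).preimage (hcont _)
      · exact (isOpen_discrete ({0} : Set H5.SelP.Z)).preimage (hcont _)
    · obtain ⟨q, hq, -⟩ := H5.SelP.exists_free _ (hB p)
      obtain ⟨x, y, hx, -, hxy, -⟩ := hG1 p q hq (fun _ => (Finset.range (n + 1)).image c)
        (fun _ b => if b = c n then 1 else 0)
      refine ⟨Function.update 0 p ⟨x 0, hx 0⟩, ?_, ?_⟩
      · show (Function.update (0 : H) p ⟨x 0, hx 0⟩ p).1 (c n) = 1
        rw [Function.update_self]
        show x 0 (c n) = 1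
        rw [hxy 0 (c n) (Finset.mem_image_of_mem c (by simp))]
        simp
      · simp only [Set.mem_iInter]
        intro i hi
        show (Function.update (0 : H) p ⟨x 0, hx 0⟩ p).1 (c i) = 0
        rw [Function.update_self]
        show x 0 (c i) = 0
        have hi' : i < n := Finset.mem_range.1 hi
        rw [hxy 0 (c i) (Finset.mem_image_of_mem c (by simp; omega))]
        have : c i ≠ c n := fun h => absurd (H5.SelP.c_inj h) (by omega)
        simp [this]
    · intro x hx y hlim
      refine hG2 p hp (fun n => (x n p).1) (y p).1 (fun n => (x n p).2) (y p).2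
        (fun n => (hx n).1) (fun n i hi => ?_) ?_
      · have := (hx n).2
        simp only [Set.mem_iInter] at this
        exact this i (Finset.mem_range.2 hi)
      · exact ((continuous_subtype_val.comp (continuous_apply p)).tendsto y).comp hlim
  exact ⟨Multiplicative H, inferInstance, inferInstance, inferInstance,
    inferInstanceAs (T2Space H), hadd, hnot⟩

end Pool.Agent.S12793
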