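import Pool.Statements.S12798
import Pool.Agent.H6.MonoC

set_option autoImplicit false
open Pool Pool.MP_1501ba_gt

namespace Pool.Agent.S12798

open Set Topology unitInterval Pool.Agent.H6.MonoB


/-- The negation of the preceding statement: Take a compact connected metric space M and a continuous surjection f onto [0,1] with connected fibres, such that no closed proper subset mapped onto [0,1] has f restricted to it with connected fibres. Then some two points of M lie in no proper closed connected subset. -/
theorem result :
    ¬ (∀ (M : Type) [MetricSpace M] [CompactSpace M] [ConnectedSpace M]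
      (f : C(M, unitInterval)),
      Function.Surjective f →
      (∀ t : unitInterval, IsPreconnected (f ⁻¹' {t})) →
      (∀ D : Set M, IsClosed D → D ≠ Set.univ → f '' D = Set.univ →
        ¬ ∀ t : unitInterval, IsPreconnected (D ∩ f ⁻¹' {t})) →
      ∃ p q : M, ∀ K : Set M, IsClosed K → IsConnected K → p ∈ K → q ∈ K →
        K = Set.univ) := by
  intro h
  obtain ⟨T⟩ := dat_nonempty
  obtain ⟨D, hmin⟩ := T.exists_min
  have hD : D ∈ T.Mon := hmin.prop
  haveI : CompactSpace D := isCompact_iff_compactSpace.1 hD.2.1.isCompact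
  haveI : ConnectedSpace D := by
    rw [← isConnected_iff_connectedSpace]
    have h1 := T.strip_conn hD 0 1
    have h2 : uIcc (0 : I) 1 = univ := by
      rw [uIcc_of_le (by norm_num)]
      exact eq_univ_of_forall fun x => ⟨x.2.1, x.2.2⟩
    rw [h2, preimage_univ, inter_univ] at h1
    exact ⟨⟨_, T.kk_mem_mon hD 0⟩, h1⟩
  let f : C(D, I) := ⟨fun d => d.1.1, continuous_fst.comp continuous_subtype_val⟩
  have e : ∀ r : I, Subtype.val '' (f ⁻¹' {r}) = D ∩ Prod.fst ⁻¹' {r} := fun r =>
    Subtype.image_preimage_coe D (Prod.fst ⁻¹' {r})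
  obtain ⟨p, q, hpq⟩ := @h D (TopologicalSpace.metrizableSpaceMetric D) (by infer_instance)
    (by infer_instance) f
    (fun r => by
      have := (hD.2.2 r).1
      rw [← e] at this
      exact this.of_image)
    (fun r => by
      have := (hD.2.2 r).2
      rw [← e] at this
      exact IsInducing.subtypeVal.isPreconnected_image.1 this)
    (fun D' hcl hne hsurj hconn => by
      apply hne
      have hm : Subtype.val '' D' ∈ T.Mon := by
        refine ⟨(Subtype.coe_image_subset D D').trans hD.1,
          hD.2.1.isClosedEmbedding_subtypeVal.isClosedMap _ hcl, fun t => ⟨?_, ?_⟩⟩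
        · obtain ⟨d, hd, hd'⟩ : t ∈ f '' D' := by rw [hsurj]; exact mem_univ t
          exact ⟨d.1, mem_image_of_mem _ hd, hd'⟩
        · have := (hconn t).image _ continuous_subtype_val.continuousOn
          rwa [show f ⁻¹' {t} = Subtype.val ⁻¹' (Prod.fst ⁻¹' {t}) from rfl,
            image_inter_preimage] at this
      have hle := hmin.2 hm (Subtype.coe_image_subset D D')
      refine eq_univ_of_forall fun d => ?_
      obtain ⟨d', hd', hdd⟩ := hle d.2
      rwa [← Subtype.ext hdd])
  obtain ⟨K, hKD, hKc, hKn, hp, hq, hne⟩ := T.not_irred hD p.1 q.1 p.2 q.2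
  have e2 : Subtype.val '' ((Subtype.val : D → _) ⁻¹' K) = K := by
    rw [Subtype.image_preimage_coe, inter_eq_right.2 hKD]
  have := hpq (Subtype.val ⁻¹' K) (hKc.preimage continuous_subtype_val)
    ⟨⟨p, hp⟩, IsInducing.subtypeVal.isPreconnected_image.1 (by rw [e2]; exact hKn.2)⟩ hp hq
  apply hne
  rw [← e2, this, image_univ, Subtype.range_coe]

end Pool.Agent.S12798
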