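import Pool.Statements.S12801
import Pool.Agent.H3.HedgeB

set_option autoImplicit false
open Pool Pool.MP_15cd64_gt

namespace Pool.Agent.S12801

/-- There exist two analytic hedgehogs of R^3 with the same curvature function on the unit sphere such that neither support function is ±(the other composed with an isometry) plus a linear term. Support functions are taken as 1-homogeneous; curvature function = σ₂ of the Hessian. -/
theorem result :
    ∃ H₁ H₂ : EuclideanSpace ℝ (Fin 3) → ℝ,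
      (∀ x : EuclideanSpace ℝ (Fin 3), ∀ c : ℝ, 0 < c → H₁ (c • x) = c * H₁ x) ∧
      (∀ x : EuclideanSpace ℝ (Fin 3), ∀ c : ℝ, 0 < c → H₂ (c • x) = c * H₂ x) ∧
      AnalyticOnNhd ℝ H₁ {x : EuclideanSpace ℝ (Fin 3) | x ≠ 0} ∧
      AnalyticOnNhd ℝ H₂ {x : EuclideanSpace ℝ (Fin 3) | x ≠ 0} ∧
      (∀ u : EuclideanSpace ℝ (Fin 3), ‖u‖ = 1 →
        (∑ i : Fin 3, ∑ j : Fin 3,
          (fderiv ℝ (fderiv ℝ H₁) u (EuclideanSpace.single i 1) (EuclideanSpace.single i 1) *
            fderiv ℝ (fderiv ℝ H₁) u (EuclideanSpace.single j 1) (EuclideanSpace.single j 1) -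
           fderiv ℝ (fderiv ℝ H₁) u (EuclideanSpace.single i 1) (EuclideanSpace.single j 1) *
            fderiv ℝ (fderiv ℝ H₁) u (EuclideanSpace.single j 1) (EuclideanSpace.single i 1)) / 2)
        =
        (∑ i : Fin 3, ∑ j : Fin 3,
          (fderiv ℝ (fderiv ℝ H₂) u (EuclideanSpace.single i 1) (EuclideanSpace.single i 1) *
            fderiv ℝ (fderiv ℝ H₂) u (EuclideanSpace.single j 1) (EuclideanSpace.single j 1) -
           fderiv ℝ (fderiv ℝ H₂) u (EuclideanSpace.single i 1) (EuclideanSpace.single j 1) *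
            fderiv ℝ (fderiv ℝ H₂) u (EuclideanSpace.single j 1) (EuclideanSpace.single i 1)) / 2)) ∧
      ¬ ∃ A : EuclideanSpace ℝ (Fin 3) ≃ₗᵢ[ℝ] EuclideanSpace ℝ (Fin 3),
        ∃ t : EuclideanSpace ℝ (Fin 3), ∃ ε : ℝ, (ε = 1 ∨ ε = -1) ∧
          ∀ x : EuclideanSpace ℝ (Fin 3), H₂ x = ε * H₁ (A x) + inner ℝ x t := by
  refine ⟨H3.Hedge.HH 4, H3.Hedge.HH (-4), ?_, ?_, fun x hx => H3.Hedge.HH_an _ hx,
    fun x hx => H3.Hedge.HH_an _ hx, ?_, ?_⟩
  · intro x c hc
    simpa [H3.Hedge.HH] using H3.Hedge.H_smul 4 (x 0) (x 1) (x 2) c hc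
  · intro x c hc
    simpa [H3.Hedge.HH] using H3.Hedge.H_smul (-4) (x 0) (x 1) (x 2) c hc
  · intro u hu
    have hu0 : u ≠ 0 := by rintro rfl; simp at hu
    have h1 := H3.Hedge.hess 4 hu0
    have h2 := H3.Hedge.hess (-4) hu0
    simp only [Fin.sum_univ_three, h1, h2]
    have hm := H3.Hedge.mixed (u 0) (u 1) (u 2)
    simp
    linear_combination (8 * H3.Hedge.S (u 0) (u 1) (u 2) ^ 2 / (H3.Hedge.D (u 0) (u 1) (u 2) ^ 3 *
      H3.Hedge.Q (u 0) (u 1) (u 2) ^ 3)) * hm
  · rintro ⟨A, t, ε, hε, h⟩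
    set x := A.symm (EuclideanSpace.single 0 1) with hx
    have hn : ‖x‖ = 1 := by rw [hx, A.symm.norm_map]; simp
    have key : ∀ y : EuclideanSpace ℝ (Fin 3), ‖y‖ = 1 → |H3.Hedge.HH (-4) y| < 16 := by
      intro y hy
      have hy0 : y ≠ 0 := by rintro rfl; simp at hy
      refine H3.Hedge.bound (H3.Hedge.D_pos hy0) ?_
      have := EuclideanSpace.real_norm_sq_eq y
      rw [hy, Fin.sum_univ_three] at this
      linarith
    have a1 := abs_lt.1 (key x hn)
    have a2 := abs_lt.1 (key (-x) (by simpa using hn))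
    have b1 := h x
    have b2 := h (-x)
    have e : A x = EuclideanSpace.single 0 1 := by rw [hx]; simp
    rw [map_neg, e, inner_neg_left] at b2
    rw [e] at b1
    have c1 : H3.Hedge.HH 4 (EuclideanSpace.single 0 1) = 16 := by
      simpa [H3.Hedge.HH] using H3.Hedge.H_e 1 (by norm_num)
    have c2 : H3.Hedge.HH 4 (-EuclideanSpace.single 0 1) = 16 := by
      simpa [H3.Hedge.HH] using H3.Hedge.H_e (-1) (by norm_num)
    rw [c1] at b1
    rw [c2] at b2
    rcases hε with rfl | rfl <;> linarith [a1.1, a1.2, a2.1, a2.2]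

end Pool.Agent.S12801
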