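import Pool.Statements.S12822

set_option autoImplicit false
open Pool Pool.MP_182cc9_gt

namespace Pool.Agent.S12822

open Set Filter Topology

abbrev P : Type := unitInterval × ℝ
abbrev X : Type := unitInterval × (P → Bool)

open Classical in
noncomputable def ind (z z' : P) : P → Bool := fun p => decide (p = z ∨ p = z')

noncomputable def ι (z : P) : X := (z.1, ind z z)

lemma ind_comm (z z' : P) : ind z z' = ind z' z := by
  funext p
  simp [ind, or_comm]

lemma nb {O : Set X} (hO : IsOpen O) {z : P} (hz : ι z ∈ O) :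
    ∃ (n : ℕ) (E : Set P), E.Finite ∧
      ∀ t z', dist t z.1 < 1 / ((n : ℝ) + 1) → z' ∉ E → (t, ind z z') ∈ O := by
  obtain ⟨u, hu, v, hv, h⟩ := mem_nhds_prod_iff.mp (hO.mem_nhds hz)
  obtain ⟨ε, hε, hu'⟩ := Metric.mem_nhds_iff.mp hu
  obtain ⟨n, hn⟩ := exists_nat_one_div_lt hε
  have ht : Tendsto (ind z) cofinite (𝓝 (ind z z)) := by
    refine tendsto_pi_nhds.mpr fun p => tendsto_const_nhds.congr' ?_
    filter_upwards [(finite_singleton p).compl_mem_cofinite] with z' hz'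
    have : p ≠ z' := fun h => hz' h.symm
    simp [ind, this]
  exact ⟨n, _, mem_cofinite.mp (ht hv), fun t z' h1 h2 =>
    h ⟨hu' (h1.trans hn), not_not.mp h2⟩⟩

lemma key (U V : Set X) (hU : IsOpen U) (hV : IsOpen V) (hd : Disjoint U V)
    (hc : ∀ z, ι z ∈ U ∪ V) (h0 : ∀ z : P, z.1 = 0 → ι z ∈ U) (h1 : ∀ z : P, z.1 = 1 → ι z ∈ V) :
    False := by
  let W : Bool → Set X := fun b => cond b U V
  have h2 : ∀ z, ∃ (b : Bool) (n : ℕ) (E : Set P), ι z ∈ W b ∧ E.Finite ∧
      ∀ t z', dist t z.1 < 1 / ((n : ℝ) + 1) → z' ∉ E → (t, ind z z') ∈ W b := by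
    intro z
    rcases hc z with h | h
    · obtain ⟨n, E, h3⟩ := nb hU h
      exact ⟨true, n, E, h, h3⟩
    · obtain ⟨n, E, h3⟩ := nb hV h
      exact ⟨false, n, E, h, h3⟩
  choose c n E hc1 hE1 hE2 using h2
  have hW : ∀ b b' x, x ∈ W b → x ∈ W b' → b = b' := by
    rintro (_ | _) (_ | _) x h h'
    · rfl
    · exact (Set.disjoint_left.mp hd h' h).elim
    · exact (Set.disjoint_left.mp hd h h').elim
    · rfl
  have h3 : ∀ t : unitInterval, ∃ q : Bool × ℕ,
      ¬ {r : ℝ | (c (t, r), n (t, r)) = q}.Countable := by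
    intro t
    by_contra h
    push Not at h
    exact Cardinal.not_countable_real ((countable_iUnion h).mono fun r _ =>
      mem_iUnion.mpr ⟨(c (t, r), n (t, r)), rfl⟩)
  choose q hq using h3
  have h4 : ∀ s t : unitInterval, dist s t < 1 / (((q t).2 : ℝ) + 1) → (q s).1 = (q t).1 := by
    intro s t hst
    have hinf : {r : ℝ | (c (t, r), n (t, r)) = q t}.Infinite := fun h => hq t h.countable
    let e := hinf.natEmbedding
    have h5 : (⋃ k : ℕ, (fun r => (s, r)) ⁻¹' E (t, e k)).Countable :=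
      countable_iUnion fun k => (hE1 _).countable.preimage fun _ _ h => (Prod.mk.inj h).2
    obtain ⟨r, hr1, hr2⟩ := not_subset.mp fun h => hq s (h5.mono h)
    have h6 : ¬ ∀ k : ℕ, (t, (e k : ℝ)) ∈ E (s, r) := fun h =>
      Set.infinite_of_injective_forall_mem (f := fun k : ℕ => (t, (e k : ℝ)))
        (fun _ _ h => e.injective (Subtype.ext (Prod.mk.inj h).2)) h (hE1 _)
    obtain ⟨k, hk⟩ := not_forall.mp h6
    have h7 : (c (t, e k), n (t, e k)) = q t := (e k).2
    have h8 : (c (s, r), n (s, r)) = q s := hr1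
    have h9 := hE2 (t, e k) s (s, r) (by rw [← h7] at hst; exact hst)
      fun h => hr2 (mem_iUnion.mpr ⟨k, h⟩)
    have h10 := hE2 (s, r) s (t, e k) (by rw [dist_self]; positivity) hk
    rw [ind_comm] at h10
    rw [← h7, ← h8]
    exact hW _ _ _ h10 h9
  have h5 : IsLocallyConstant fun t => (q t).1 := by
    refine (IsLocallyConstant.iff_eventually_eq _).mpr fun t => ?_
    filter_upwards [Metric.ball_mem_nhds t (show (0 : ℝ) < 1 / (((q t).2 : ℝ) + 1) by positivity)]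
      with s hs using h4 s t hs
  have h6 := h5.apply_eq_of_preconnectedSpace 0 1
  have h7 : ∀ t, ∃ r, c (t, r) = (q t).1 := by
    intro t
    have hinf : {r : ℝ | (c (t, r), n (t, r)) = q t}.Infinite := fun h => hq t h.countable
    obtain ⟨r, hr⟩ := hinf.nonempty
    exact ⟨r, congrArg Prod.fst hr⟩
  obtain ⟨r0, hr0⟩ := h7 0
  obtain ⟨r1, hr1⟩ := h7 1
  have h8 := hW _ true _ (hc1 (0, r0)) (h0 _ rfl)
  have h9 := hW _ false _ (hc1 (1, r1)) (h1 _ rfl)
  rw [← hr0, ← hr1, h8, h9] at h6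
  cases h6

def D : ℕ → Set X → Set X → Prop
  | 0, Y, A => A ∩ Y = ∅
  | k + 1, Y, A => A ∩ Y = ∅ ∨
          ∀ F G : Set X, (∃ C : Set X, IsClosed C ∧ F = Y ∩ C) →
            (∃ C : Set X, IsClosed C ∧ G = Y ∩ C) → Disjoint F G →
            ∃ S U V : Set X, S ⊆ Y ∧ (∃ C : Set X, IsClosed C ∧ S = Y ∩ C) ∧
              (∃ O : Set X, IsOpen O ∧ U = Y ∩ O) ∧
              (∃ O : Set X, IsOpen O ∧ V = Y ∩ O) ∧
              Disjoint U V ∧ Y \ S = U ∪ V ∧ F ⊆ U ∧ G ⊆ V ∧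
              D k S (A ∩ S)

lemma rel_open {F : Set X} (hF : F ⊆ range ι) : ∃ O : Set X, IsOpen O ∧ F = range ι ∩ O := by
  refine ⟨⋃ z ∈ ι ⁻¹' F, {x | x.2 z = true}, isOpen_biUnion fun z _ =>
    (isOpen_discrete {true}).preimage (show Continuous fun x : X => x.2 z by fun_prop), ?_⟩
  apply Subset.antisymm
  · intro x hx
    obtain ⟨z, rfl⟩ := hF hx
    exact ⟨⟨z, rfl⟩, mem_iUnion₂.mpr ⟨z, hx, by simp [ι, ind]⟩⟩
  · rintro _ ⟨⟨z, rfl⟩, hx⟩
    obtain ⟨z', h1, h2⟩ := mem_iUnion₂.mp hx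
    have : z' = z := by simpa [ι, ind] using h2
    exact this ▸ h1

/-- The negation of the preceding statement: In every T1 normal space X, for every subset Z and every n ≥ −1: if the large inductive dimension of Z as a space is at most n, then the relative large inductive dimension of Z in X is at most n. -/
theorem result :
    ¬ (∀ (X : Type) [TopologicalSpace X] [T4Space X] (Z : Set X) (n : ℕ)
      (D : ℕ → Set X → Set X → Prop),
      (∀ Y A : Set X, D 0 Y A ↔ A ∩ Y = ∅) →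
      (∀ (k : ℕ) (Y A : Set X), D (k + 1) Y A ↔
        (A ∩ Y = ∅ ∨
          ∀ F G : Set X, (∃ C : Set X, IsClosed C ∧ F = Y ∩ C) →
            (∃ C : Set X, IsClosed C ∧ G = Y ∩ C) → Disjoint F G →
            ∃ S U V : Set X, S ⊆ Y ∧ (∃ C : Set X, IsClosed C ∧ S = Y ∩ C) ∧
              (∃ O : Set X, IsOpen O ∧ U = Y ∩ O) ∧
              (∃ O : Set X, IsOpen O ∧ V = Y ∩ O) ∧
              Disjoint U V ∧ Y \ S = U ∪ V ∧ F ⊆ U ∧ G ⊆ V ∧
              D k S (A ∩ S))) →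
      D n Z Z → D n Set.univ Z) := by
  intro h
  have h1 := h X (range ι) 1 D (fun _ _ => Iff.rfl) (fun _ _ _ => Iff.rfl) (Or.inr (by
    rintro F G ⟨C, -, hF⟩ ⟨C', -, hG⟩ hd
    have hF' : F ⊆ range ι := hF ▸ inter_subset_left
    have hG' : G ⊆ range ι := hG ▸ inter_subset_left
    exact ⟨∅, F, range ι \ F, empty_subset _, ⟨∅, isClosed_empty, by simp⟩, rel_open hF',
      rel_open sdiff_subset, disjoint_sdiff_right, by rw [sdiff_empty, union_sdiff_cancel hF'],
      Subset.rfl, subset_sdiff.mpr ⟨hG', hd.symm⟩, by simp [D]⟩))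
  rcases h1 with h1 | h1
  · exact (range_nonempty ι).ne_empty (by simpa using h1)
  · obtain ⟨S, U, V, -, -, ⟨O, hO, hU⟩, ⟨O', hO', hV⟩, hd, h2, h3, h4, h5⟩ :=
      h1 {x | x.1 = 0} {x | x.1 = 1}
        ⟨_, isClosed_eq continuous_fst continuous_const, (univ_inter _).symm⟩
        ⟨_, isClosed_eq continuous_fst continuous_const, (univ_inter _).symm⟩
        (Set.disjoint_left.mpr fun x h h' => zero_ne_one (h.symm.trans h'))
    rw [univ_inter] at hU hV
    refine key U V (hU ▸ hO) (hV ▸ hO') hd (fun z => ?_) (fun z hz => h3 hz) fun z hz => h4 hz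
    rw [← h2]
    refine ⟨trivial, fun hz => ?_⟩
    have h6 : range ι ∩ S ∩ S = ∅ := h5
    exact (h6 ▸ (⟨⟨⟨z, rfl⟩, hz⟩, hz⟩ : ι z ∈ range ι ∩ S ∩ S) : ι z ∈ (∅ : Set X))

end Pool.Agent.S12822
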