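import Pool.Statements.S12835
import Pool.Agent.H32.SphLim

set_option autoImplicit false
open Filter Topology
open Pool Pool.MP_1a07a1_gt

namespace Pool.Agent.S12835

/-- For every n ≥ 2 and every nonempty closed set C in the unit sphere of ℝⁿ, some sequence of self-homeomorphisms of the sphere converges pointwise everywhere to points of C, with every point of C attained as a limit. -/
theorem result :
    ∀ n : ℕ, 2 ≤ n →
      ∀ C : Set ↥(Metric.sphere (0 : EuclideanSpace ℝ (Fin n)) (1 : ℝ)),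
        IsClosed C → C.Nonempty →
        ∃ H : ℕ → (↥(Metric.sphere (0 : EuclideanSpace ℝ (Fin n)) (1 : ℝ)) ≃ₜ
                    ↥(Metric.sphere (0 : EuclideanSpace ℝ (Fin n)) (1 : ℝ))),
          (∀ p : ↥(Metric.sphere (0 : EuclideanSpace ℝ (Fin n)) (1 : ℝ)),
              ∃ q ∈ C, Tendsto (fun k : ℕ => H k p) atTop (𝓝 q)) ∧
          (∀ q ∈ C, ∃ p : ↥(Metric.sphere (0 : EuclideanSpace ℝ (Fin n)) (1 : ℝ)),
              Tendsto (fun k : ℕ => H k p) atTop (𝓝 q)) := by
  intro n hn C hC hne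
  obtain ⟨v, hv⟩ := hne
  have hv1 : ‖v.1‖ = 1 := by simpa using v.2
  have hv0 : v.1 ≠ 0 := fun h => by simp [h] at hv1
  obtain ⟨m, rfl⟩ : ∃ m, n = m + 2 := ⟨n - 2, by omega⟩
  haveI : Fact (Module.finrank ℝ (EuclideanSpace ℝ (Fin (m + 2))) = (m + 1) + 1) := ⟨by simp⟩
  have hr : Module.finrank ℝ (ℝ ∙ v.1)ᗮ = m + 1 := Submodule.finrank_orthogonal_span_singleton hv0
  have hG : Pool.Agent.H32.SphLim.G (OnePoint (ℝ ∙ v.1)ᗮ) OnePoint.infty := by
    rcases m with _ | m
    · obtain ⟨e⟩ := FiniteDimensional.nonempty_continuousLinearEquiv_of_finrank_eq (𝕜 := ℝ)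
        (E := ℝ) (F := (ℝ ∙ v.1)ᗮ) (by rw [hr]; simp)
      exact Pool.Agent.H32.SphLim.G_real.transfer e.toHomeomorph.onePointCongr
    · obtain ⟨e⟩ := FiniteDimensional.nonempty_continuousLinearEquiv_of_finrank_eq (𝕜 := ℝ)
        (E := ℝ × (Fin (m + 1) → ℝ)) (F := (ℝ ∙ v.1)ᗮ) (by rw [hr]; simp [add_comm])
      exact (Pool.Agent.H32.SphLim.G_prod (E := Fin (m + 1) → ℝ)).transfer
        e.toHomeomorph.onePointCongr
  haveI : CompactSpace C := isCompact_iff_compactSpace.1 hC.isCompact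
  haveI : Nonempty C := ⟨⟨v, hv⟩⟩
  obtain ⟨f, hf1, hf2⟩ := exists_nat_bool_continuous_surjective_of_compact C
  exact hG.transfer (onePointHyperplaneHomeoUnitSphere hv1) C hC hv
    ⟨Subtype.val ∘ f, continuous_subtype_val.comp hf1, by
      rw [Set.range_comp, hf2.range_eq, Set.image_univ, Subtype.range_coe]⟩

end Pool.Agent.S12835
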