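import Pool.Statements.S12849
import Pool.Agent.H18.Net5
-- import your own Pool.Agent.* helpers here

set_option autoImplicit false
open Pool Pool.MP_1ce9e9_gt

namespace Pool.Agent.S12849

open Pool.Agent.H18.Net

/-- There is a nonempty finite plane set S such that for every N some straight-line planar net with simple unit-weight edges has exactly S as its unbalanced vertices and more than N balanced vertices (degree ≥3, unit edge vectors summing to 0). -/
theorem result :
    ∃ S : Finset ℂ, S.Nonempty ∧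
      ∀ N : ℕ, ∃ V : Finset ℂ, ∃ G : SimpleGraph ℂ,
        (∀ a b : ℂ, G.Adj a b → a ∈ V ∧ b ∈ V) ∧
        (∀ a b c d : ℂ, G.Adj a b → G.Adj c d →
            ¬ ((a = c ∧ b = d) ∨ (a = d ∧ b = c)) →
            ∀ x ∈ segment ℝ a b ∩ segment ℝ c d, (x = a ∨ x = b) ∧ (x = c ∨ x = d)) ∧
        (∀ a b v : ℂ, G.Adj a b → v ∈ V → v ∈ segment ℝ a b → v = a ∨ v = b) ∧
        S ⊆ V ∧
        (∀ v ∈ V, v ∈ S ↔
            ¬ (3 ≤ (G.neighborSet v).ncard ∧
               (∑ᶠ w ∈ G.neighborSet v, (w - v) / ((‖w - v‖ : ℝ) : ℂ)) = 0)) ∧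
        N < Set.ncard {v : ℂ | v ∈ V ∧ 3 ≤ (G.neighborSet v).ncard ∧
               (∑ᶠ w ∈ G.neighborSet v, (w - v) / ((‖w - v‖ : ℝ) : ℂ)) = 0} := by
  classical
  refine ⟨SS, ⟨0, mem_SS.mpr (Or.inr (Or.inl rfl))⟩, fun N => ?_⟩
  obtain ⟨x, y, g⟩ := exists_good (N + 2) (by omega)
  obtain ⟨V, G, h1, h2, h3, h4, h5, h6, h7⟩ := subdiv (JJ (N + 2)) (pP x y) (qQ x y) g.pq g.sub
  have hw : ∀ k, k ≤ N + 2 → ww x y (k + 1) ∈ V := by
    intro k hk
    have := (h4 (k, 0) (mem_JJ.mpr ⟨hk, Or.inl rfl⟩)).2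
    simpa [qQ] using this
  have hbal : ∀ k, k < N + 2 → 3 ≤ (G.neighborSet (ww x y (k + 1))).ncard ∧
      (∑ᶠ w ∈ G.neighborSet (ww x y (k + 1)), (w - ww x y (k + 1)) /
        ((‖w - ww x y (k + 1)‖ : ℝ) : ℂ)) = 0 := by
    intro k hk
    constructor
    · have := h6 _ (hw k hk.le)
      have e := g.filterP hk
      have e2 : ((JJ (N + 2)).filter (fun i => ww x y (k + 1) = pP x y i)).card = 4 := by
        convert congrArg Finset.card e
        simp
      have e3 : 4 ≤ (G.neighborSet (ww x y (k + 1))).ncard := by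
        rw [← e2]; convert this
      omega
    · rw [h5 _ (hw k hk.le)]
      exact g.bal hk
  refine ⟨V, G, h1, h2, h3, ?_, ?_, ?_⟩
  · intro v hv
    rcases mem_SS.mp hv with h | h | ⟨k, j, hk, hj, h⟩
    · have := (h4 (0, 0) (mem_JJ.mpr ⟨by simp, Or.inl rfl⟩)).1
      rw [h, ← g.w0]; exact this
    · rw [h, ← g.wn]; exact hw _ le_rfl
    · have := (h4 (k, j) (mem_JJ.mpr ⟨by simp only; omega, Or.inr (by simp only; omega)⟩)).2
      rw [h]; simpa [qQ, hj] using this
  · intro v hv
    constructor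
    · rintro hS ⟨-, h0⟩
      rw [h5 v hv] at h0
      rcases mem_SS.mp hS with h | h | ⟨k, j, hk, hj, h⟩
      · rw [h, ← g.w0] at h0; exact g.unb0 h0
      · rw [h.trans g.wn.symm] at h0; exact g.unbn h0
      · rw [h] at h0; exact g.unbT (by omega) (by omega) hj h0
    · intro hn
      by_contra hS
      apply hn
      by_cases he : ∃ i ∈ JJ (N + 2), v = pP x y i ∨ v = qQ x y i
      · obtain ⟨⟨m, j⟩, hi, h | h⟩ := he
        · obtain ⟨a1, a2⟩ := mem_JJ.mp hi
          simp only [pP] at h a1 a2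
          rcases m with _ | m
          · exact absurd (mem_SS.mpr (Or.inl (h.trans g.w0))) hS
          · rw [h]; exact hbal m a1
        · obtain ⟨a1, a2⟩ := mem_JJ.mp hi
          simp only [qQ] at h a1 a2
          split_ifs at h with hj
          · rcases a1.lt_or_eq with h8 | h8
            · rw [h]; exact hbal m h8
            · subst h8
              exact absurd (mem_SS.mpr (Or.inr (Or.inl (h.trans g.wn)))) hS
          · exfalso
            apply hS
            apply mem_SS.mpr
            right; right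
            rcases sg_cases m with e | e
            · exact ⟨2, j, Or.inr rfl, hj, by rw [h, e]; simp [sg]⟩
            · exact ⟨1, j, Or.inl rfl, hj, by rw [h, e]; simp [sg]⟩
      · push Not at he
        refine ⟨h7 v hv he, ?_⟩
        rw [h5 v hv]
        unfold II
        apply Finset.sum_eq_zero
        intro i hi
        rw [if_neg (he i hi).1, if_neg (he i hi).2, sub_zero]
  · have hsub : (fun k => ww x y (k + 1)) '' ((Finset.range (N + 2) : Finset ℕ) : Set ℕ) ⊆
        {v : ℂ | v ∈ V ∧ 3 ≤ (G.neighborSet v).ncard ∧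
               (∑ᶠ w ∈ G.neighborSet v, (w - v) / ((‖w - v‖ : ℝ) : ℂ)) = 0} := by
      rintro _ ⟨k, hk, rfl⟩
      have hk' : k < N + 2 := by simpa using hk
      exact ⟨hw k hk'.le, hbal k hk'⟩
    have hfin : ({v : ℂ | v ∈ V ∧ 3 ≤ (G.neighborSet v).ncard ∧
               (∑ᶠ w ∈ G.neighborSet v, (w - v) / ((‖w - v‖ : ℝ) : ℂ)) = 0}).Finite :=
      V.finite_toSet.subset (fun v hv => hv.1)
    have hle := Set.ncard_le_ncard hsub hfin
    rw [Set.InjOn.ncard_image, Set.ncard_coe_finset, Finset.card_range] at hle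
    · omega
    · intro a ha b hb hab
      have ha' : a < N + 2 := by simpa using ha
      have hb' : b < N + 2 := by simpa using hb
      have := g.inj (by omega) (by omega) hab
      omega

end Pool.Agent.S12849
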