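import Pool.Statements.S12862
import Pool.Agent.H29.Jia2

set_option autoImplicit false
open Pool Pool.MP_1e3442_gt

namespace Pool.Agent.S12862

theorem result :
    ¬ (∀ (α : Type) [PartialOrder α] [TopologicalSpace α] [Topology.IsScott α Set.univ],
      (∀ D : Set α, D.Nonempty → DirectedOn (· ≤ ·) D → ∃ s, IsLUB D s) →
      (∀ (x : α) (D : Set α) (s : α), D.Nonempty → DirectedOn (· ≤ ·) D → IsLUB D s →
          x ≤ s → x ∈ closure {y : α | y ≤ x ∧ ∃ d ∈ D, y ≤ d}) →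
      (∀ (x : α) (U : Set α), IsOpen U → x ∈ U →
          ∃ V : Set α, IsOpen V ∧ x ∈ V ∧ V ⊆ U ∧
            ∀ 𝒲 : Set (Set α), (∀ W ∈ 𝒲, IsOpen W) → U ⊆ ⋃₀ 𝒲 →
              ∃ 𝒯 ⊆ 𝒲, 𝒯.Finite ∧ V ⊆ ⋃₀ 𝒯) →
      QuasiSober α ∧ T0Space α) := by
  intro h
  exact H29.Jia.not_sober (h H29.Jia.R
    (fun d h1 h2 => (H29.Jia.exists_lub h1 h2).imp fun _ hs => hs.1) H29.Jia.meetc H29.Jia.core).1

end Pool.Agent.S12862
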