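import Pool.Statements.S12863
import Pool.Agent.H18.Choquet
import Pool.Agent.H18.Wij
-- import your own Pool.Agent.* helpers here

set_option autoImplicit false
open Pool Pool.MP_1e945b_gt

namespace Pool.Agent.S12863

open Set Metric Topology TopologicalSpace Filter Pool.Agent.H18.Choquet Pool.Agent.H18.Wij in
theorem game {X Y K : Type} [MetricSpace X] [MetricSpace Y] [TopologicalSpace K] {j : X → Y}
    (hj : Isometry j) (sing : X → K) (hs : Continuous sing) (mem : K → Set X)
    (hne : ∀ F, (mem F).Nonempty) (hz : ∀ z, z ∈ mem (sing z)) (σ : List (K × Set K) → Set K)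
    (h1 : ∀ h y U, y ∈ U → IsOpen U →
      IsOpen (σ (h ++ [(y, U)])) ∧ y ∈ σ (h ++ [(y, U)]) ∧ σ (h ++ [(y, U)]) ⊆ U)
    (h2 : ∀ p : ℕ → K × Set K, (∀ n, (p n).1 ∈ (p n).2 ∧ IsOpen (p n).2) →
      (∀ n, (p (n + 1)).2 ⊆ σ (List.ofFn (fun i : Fin (n + 1) => p i.val))) →
      (⋂ n, σ (List.ofFn (fun i : Fin (n + 1) => p i.val))).Nonempty)
    (U : Set X) (hU : IsOpen U)
    (hB : ∀ y ∈ U, ∀ B ∈ 𝓝 y, ∃ V, IsOpen V ∧ sing y ∈ V ∧ ∀ F ∈ V, mem F ⊆ B) : IsGδ (j '' U) := by
  classical
  let W : List (K × Set K) → Set K := fun s => if s = [] then univ else interior (σ s)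
  have hW : ∀ s, IsOpen (W s) := fun s => by
    simp only [W]; split_ifs
    exacts [isOpen_univ, isOpen_interior]
  have hW' : ∀ s a, W (s ++ [a]) = interior (σ (s ++ [a])) := fun s a => if_neg (by simp)
  let A : List (K × Set K) → Set X := fun s => U ∩ sing ⁻¹' W s
  have hA : ∀ s, IsOpen (A s) := fun s => hU.inter ((hW s).preimage hs)
  have := choquet hj A (fun s t => ∃ y V, t = s ++ [(y, V)] ∧ y ∈ V ∧ IsOpen V ∧ V ⊆ W s ∧
    ∀ F ∈ V, mem F ⊆ A s) [] hA ?_ ?_
  · simpa [A, W] using this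
  · intro s x hx B hB'
    obtain ⟨V, a1, a2, a3⟩ := hB x hx.1 _ (inter_mem hB' ((hA s).mem_nhds hx))
    obtain ⟨b1, b2, b3⟩ := h1 s (sing x) (V ∩ W s) ⟨a2, hx.2⟩ (a1.inter (hW s))
    refine ⟨_, ⟨sing x, V ∩ W s, rfl, ⟨a2, hx.2⟩, a1.inter (hW s), inter_subset_right,
      fun F hF z hz => (a3 F hF.1 hz).2⟩, ⟨hx.1, ?_⟩, fun z h => ?_⟩
    · rw [mem_preimage, hW', b1.interior_eq]; exact b2
    · have h3 := h.2
      rw [mem_preimage, hW', b1.interior_eq] at h3
      exact (a3 _ (b3 h3).1 (hz z)).1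
  · intro s s0 hR
    choose y V a1 a2 a3 a4 a5 using hR
    have e : ∀ n, List.ofFn (fun i : Fin n => (y i.val, V i.val)) = s n := by
      intro n
      induction n with
      | zero => rw [s0]; rfl
      | succ n ih => rw [a1, ← ih, List.ofFn_succ', List.concat_eq_append]; rfl
    obtain ⟨F, hF⟩ := h2 (fun n => (y n, V n)) (fun n => ⟨a2 n, a3 n⟩) fun n => by
      rw [e]
      refine (a4 (n + 1)).trans ?_
      rw [a1, hW']; exact interior_subset
    obtain ⟨z, hz⟩ := hne F
    refine ⟨z, fun n => a5 n F ?_ hz⟩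
    have := mem_iInter.1 hF n
    rw [e, a1] at this
    exact (h1 _ _ _ (a2 n) (a3 n)).2.2 this

open Set Metric Topology TopologicalSpace Filter Pool.Agent.H18.Choquet Pool.Agent.H18.Wij in
theorem reduce {X : Type} [MetricSpace X]
    (H : ∀ d : X → X → ℝ, Compat inferInstance d → ∀ U : Set X, IsOpen U →
      (∀ y ∈ U, ∀ ε > 0, ∃ c t, t < d c y ∧ ∀ z, t ≤ d c z → dist z y < ε) →
      IsGδ (((↑) : X → UniformSpace.Completion X) '' U)) : IsCompletelyMetrizableSpace X := by
  have hj : Isometry ((↑) : X → UniformSpace.Completion X) := UniformSpace.Completion.coe_isometry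
  set j : X → UniformSpace.Completion X := (↑)
  let M : Set X := ⋃ V ∈ {V : Set X | IsOpen V ∧ IsGδ (j '' V)}, V
  have hM : IsOpen M := isOpen_biUnion fun V h => h.1
  have hG : IsGδ (j '' M) := gd_local hj.isEmbedding.isInducing M fun x hx => by
    obtain ⟨V, h1, h2⟩ := mem_iUnion₂.1 hx
    exact ⟨V, h1.1, h2, subset_biUnion_of_mem (u := fun V => V) h1, h1.2⟩
  refine cm_of_gd hj.isEmbedding ?_
  by_cases hc : IsCompact Mᶜ
  · rw [← image_univ, ← union_compl_self M, image_union]
    exact hG.union (hc.image hj.continuous).isClosed.isGδ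
  · obtain ⟨p, hp, δ, hδ, d, h1, h2⟩ := good_metric Mᶜ hM.isClosed_compl hc
    exact (hp (mem_iUnion₂.2 ⟨ball p δ, ⟨isOpen_ball, H d h1 _ isOpen_ball h2⟩,
      mem_ball_self hδ⟩)).elim

theorem aux {X : Type} [m : MetricSpace X] (c y : X) (t : ℝ) (h : t < dist c y) :
    ∃ O : Set ENNReal, IsOpen O ∧ Metric.infEDist c {y} ∈ O ∧
      ∀ F : Set X, Metric.infEDist c F ∈ O → ∀ z ∈ F, t ≤ dist c z := by
  by_cases ht : t ≤ 0
  · exact ⟨Set.univ, isOpen_univ, trivial, fun _ _ _ _ => ht.trans dist_nonneg⟩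
  · refine ⟨Set.Ioi (ENNReal.ofReal t), isOpen_Ioi, ?_, fun F hF z hz => ?_⟩
    · rw [Metric.infEDist_singleton, edist_dist]
      exact (ENNReal.ofReal_lt_ofReal_iff ((not_le.1 ht).trans h)).2 h
    · have := lt_of_lt_of_le hF (Metric.infEDist_le_edist_of_mem hz)
      rw [edist_dist] at this
      exact ((ENNReal.ofReal_lt_ofReal_iff_of_nonneg (not_le.1 ht).le).1 this).le

theorem aux2 {X : Type} [m : MetricSpace X] (c : X) :
    Continuous fun y : X => Metric.infEDist c ({y} : Set X) := by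
  simp only [Metric.infEDist_singleton]
  exact continuous_const.edist continuous_id


/-- For a metrizable space X: if, for every compatible metric d, player II has a winning strategy in the strong Choquet game on the nonempty closed sets of X with the Wijsman topology of d, then X admits a compatible complete metric. -/
theorem result :
  ∀ (X : Type) [t : TopologicalSpace X], TopologicalSpace.MetrizableSpace X →
    (∀ (m : MetricSpace X), m.toUniformSpace.toTopologicalSpace = t →
      ∀ τ : TopologicalSpace {A : Set X // IsClosed A ∧ A.Nonempty},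
        τ = ⨅ x : X, TopologicalSpace.induced
              (fun A : {A : Set X // IsClosed A ∧ A.Nonempty} =>
                @EMetric.infEdist X m.toPseudoEMetricSpace x A.1)
              (inferInstance : TopologicalSpace ENNReal) →
        ∃ σ : List ({A : Set X // IsClosed A ∧ A.Nonempty} ×
                Set {A : Set X // IsClosed A ∧ A.Nonempty}) →
              Set {A : Set X // IsClosed A ∧ A.Nonempty},
          (∀ (h : List ({A : Set X // IsClosed A ∧ A.Nonempty} ×
                Set {A : Set X // IsClosed A ∧ A.Nonempty}))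
              (y : {A : Set X // IsClosed A ∧ A.Nonempty})
              (U : Set {A : Set X // IsClosed A ∧ A.Nonempty}),
              y ∈ U → @IsOpen _ τ U →
                @IsOpen _ τ (σ (h ++ [(y, U)])) ∧ y ∈ σ (h ++ [(y, U)]) ∧
                  σ (h ++ [(y, U)]) ⊆ U) ∧
          ∀ p : ℕ → ({A : Set X // IsClosed A ∧ A.Nonempty} ×
                Set {A : Set X // IsClosed A ∧ A.Nonempty}),
            (∀ n, (p n).1 ∈ (p n).2 ∧ @IsOpen _ τ (p n).2) →
            (∀ n, (p (n + 1)).2 ⊆ σ (List.ofFn (fun i : Fin (n + 1) => p i.val))) →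
            (⋂ n, σ (List.ofFn (fun i : Fin (n + 1) => p i.val))).Nonempty) →
    ∃ m : MetricSpace X, m.toUniformSpace.toTopologicalSpace = t ∧
      @CompleteSpace X m.toUniformSpace := by
  intro X t hX H
  letI ρ : MetricSpace X := TopologicalSpace.metrizableSpaceMetric X
  refine (reduce (X := X) ?_).complete
  intro d hd U hU hB
  have hH := hd.choose_spec
  generalize hd.choose = m at hH
  obtain ⟨σ, h1, h2⟩ := H m hH.1 _ rfl
  letI τ : TopologicalSpace {A : Set X // @IsClosed X t A ∧ A.Nonempty} :=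
    ⨅ x : X, TopologicalSpace.induced (fun A : {A : Set X // @IsClosed X t A ∧ A.Nonempty} =>
      @EMetric.infEdist X m.toPseudoEMetricSpace x A.1) (inferInstance : TopologicalSpace ENNReal)
  have hc : ∀ c : X, @Continuous _ _ τ _ fun A : {A : Set X // @IsClosed X t A ∧ A.Nonempty} =>
      @EMetric.infEdist X m.toPseudoEMetricSpace c A.1 := fun c =>
    continuous_iInf_dom (i := c) continuous_induced_dom
  refine @game X _ _ ρ (@UniformSpace.Completion.instMetricSpace X ρ.toPseudoMetricSpace) τ _ (@UniformSpace.Completion.coe_isometry X ρ.toPseudoMetricSpace)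
    (fun y => ⟨{y}, @isClosed_singleton X t _ y, Set.singleton_nonempty y⟩) ?_ Subtype.val
    (fun F => F.2.2) (fun z => rfl) σ h1 h2 U hU ?_
  · refine continuous_iInf_rng.2 fun c => continuous_induced_rng.2 ?_
    have := @aux2 X m c
    rw [show m.toPseudoMetricSpace.toUniformSpace.toTopologicalSpace = t from hH.1] at this
    exact this
  · intro y hy B hB'
    obtain ⟨ε, hε, h3⟩ := (@Metric.mem_nhds_iff X ρ.toPseudoMetricSpace _ _).1 hB'
    obtain ⟨c, s, h4, h5⟩ := hB y hy ε hε
    obtain ⟨O, h6, h7, h8⟩ := @aux X m c y s (by rw [← hH.2] at h4; exact h4)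
    refine ⟨_, h6.preimage (hc c), h7, fun F hF z hz => h3 (h5 z ?_)⟩
    rw [← hH.2]
    exact h8 F.1 hF z hz

end Pool.Agent.S12863
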