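import Pool.Statements.S12876
import Pool.Agent.H17.Vald

set_option autoImplicit false
open Pool Pool.MP_206312_gt

namespace Pool.Agent.S12876

/-- The negation of the preceding statement: There is a compact Hausdorff scattered space embedded in a cube [0,1]^Γ so that points with coordinates tending to zero are dense, and which contains a homeomorphic copy of the ordinal interval [0, ω₂]. -/
theorem result :
    ¬ (∃ (X : Type) (_ : TopologicalSpace X), CompactSpace X ∧ T2Space X ∧
      (∀ A : Set X, A.Nonempty → ∃ x ∈ A, ∃ U : Set X, IsOpen U ∧ U ∩ A = {x}) ∧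
      (∃ (Γ : Type) (e : X → (Γ → ℝ)), Topology.IsEmbedding e ∧
        (∀ x γ, e x γ ∈ Set.Icc (0 : ℝ) 1) ∧
        Dense {x : X | ∀ ε : ℝ, 0 < ε → {γ : Γ | ε ≤ |e x γ|}.Finite}) ∧
      ∃ f : Set.Iic (Cardinal.aleph.{0} 2).ord → X, Topology.IsEmbedding f) := by
  classical
  rintro ⟨X, _, _, _, hsc, ⟨Γ, e, he, _, hD⟩, f, hf⟩
  refine H17.Vald.no_copy (e ∘ f) (he.continuous.comp hf.continuous)
    (he.injective.comp hf.injective) fun x => ?_
  refine H17.Vald.supp_small e he.continuous (hD.mono ?_) (fun a b => if a = b then 0 else 1)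
    ?_ ?_ (f x)
  · intro y hy
    refine (Set.countable_iUnion fun n : ℕ =>
      (hy (1 / ((n : ℝ) + 1)) (by positivity)).countable).mono fun γ hγ => ?_
    obtain ⟨N, hN⟩ := exists_nat_one_div_lt (abs_pos.2 hγ)
    exact Set.mem_iUnion.2 ⟨N, hN.le⟩
  · intro A B _ _ h
    refine ⟨1, one_pos, fun a ha b hb => ?_⟩
    rw [if_neg]
    rintro rfl
    exact Set.disjoint_left.1 h ha hb
  · intro L hL ε hε
    obtain ⟨y, _, U, hU, h⟩ := hsc L hL
    refine ⟨U, hU, h ▸ Set.singleton_nonempty y, ?_⟩
    rw [h]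
    rintro a rfl b rfl
    simpa using hε

end Pool.Agent.S12876
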