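import Pool.Statements.S12881
import Pool.Agent.H28.ZpBU

set_option autoImplicit false
open scoped ContDiff
open Pool Pool.MP_21eb72_gt

namespace Pool.Agent.S12881
open Finset ZMod

lemma exists_emb (N m : ℕ) (h : 2 * N ≤ m) : ∃ ι : (Fin N → ℂ) →ₗ[ℝ] (Fin m → ℝ),
    Function.Injective ι ∧ ∀ z i, |ι z i| ≤ ‖z‖ / 2 := by
  let a : (Fin N → ℂ) → Fin m → ℝ := fun z i =>
    if h1 : i.1 < N then (z ⟨i, h1⟩).re / 2
    else if h2 : i.1 - N < N then (z ⟨i.1 - N, h2⟩).im / 2 else 0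
  refine ⟨⟨⟨a, fun z w => funext fun i => ?_⟩, fun c z => funext fun i => ?_⟩, fun z w hzw => ?_,
    fun z i => ?_⟩
  · simp only [a, Pi.add_apply]
    split_ifs <;> simp [add_div]
  · simp only [a, Pi.smul_apply]
    split_ifs <;> simp [mul_div_assoc]
  · funext k
    have h1 : a z ⟨k, by omega⟩ = a w ⟨k, by omega⟩ := congrFun hzw _
    have h2 : a z ⟨k + N, by omega⟩ = a w ⟨k + N, by omega⟩ := congrFun hzw _
    simp [a] at h1 h2
    exact Complex.ext h1 h2
  · change |a z i| ≤ _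
    simp only [a]
    split_ifs
    · rw [abs_div, abs_two]
      gcongr
      exact (Complex.abs_re_le_norm _).trans (norm_le_pi_norm z _)
    · rw [abs_div, abs_two]
      gcongr
      exact (Complex.abs_im_le_norm _).trans (norm_le_pi_norm z _)
    · rw [abs_zero]; positivity

instance : Fact (Nat.Prime 5) := ⟨by norm_num⟩


/-- For all large enough m, every smooth map f from the open cube (-1,1)^m to R^2 has a graph that meets some affine 2-plane in R^(m+2) in at least 5 distinct points. -/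
theorem result :
    ∃ M : ℕ, ∀ m : ℕ, M ≤ m → ∀ f : (Fin m → ℝ) → (Fin 2 → ℝ),
      ContDiffOn ℝ ∞ f {x : Fin m → ℝ | ∀ i, x i ∈ Set.Ioo (-1 : ℝ) 1} →
      ∃ P : AffineSubspace ℝ ((Fin m → ℝ) × (Fin 2 → ℝ)),
        Module.finrank ℝ P.direction = 2 ∧
        ∃ S : Finset (Fin m → ℝ), S.card = 5 ∧
          ∀ x ∈ S, (∀ i, x i ∈ Set.Ioo (-1 : ℝ) 1) ∧ (x, f x) ∈ P := by
  classical
  obtain ⟨N, hN⟩ := Pool.Agent.H28.ZpBU.bu 5 (Fin 2)
  refine ⟨2 * N, fun m hm f hf => ?_⟩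
  obtain ⟨ι, hι, hb⟩ := exists_emb N m hm
  let χ : AddChar (ZMod 5) ℂ := stdAddChar
  have hn : ∀ k : ZMod 5, ‖χ k‖ = 1 := fun k => by
    simp only [χ]; rw [stdAddChar_apply, Circle.norm_coe]
  have hrot : ∀ (k : ZMod 5) (z : Fin N → ℂ), ∑ i, ‖z i‖ = 1 → ∑ i, ‖(χ k • z) i‖ = 1 :=
    fun k z hz => by simpa [hn] using hz
  have hbox : ∀ z : Fin N → ℂ, ∑ i, ‖z i‖ = 1 → ∀ i, ι z i ∈ Set.Ioo (-1 : ℝ) 1 := fun z hz i => by
    have h1 : ‖z‖ ≤ 1 := (pi_norm_le_iff_of_nonneg zero_le_one).2 fun i =>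
      (single_le_sum (f := fun i => ‖z i‖) (fun _ _ => norm_nonneg _) (mem_univ i)).trans_eq hz
    have := abs_le.1 (hb z i)
    constructor <;> linarith [this.1, this.2]
  have hg : ∀ k : ZMod 5, ContinuousOn (fun z : Fin N → ℂ => f (ι (χ k • z)))
      {z | ∑ i, ‖z i‖ = 1} := fun k =>
    hf.continuousOn.comp (ι.continuous_of_finiteDimensional.comp
      (continuous_const_smul _)).continuousOn fun z hz => hbox _ (hrot k z hz)
  let Y : (Fin N → ℂ) → Fin 2 → ℝ := fun z =>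
    f (ι (χ 0 • z)) - ∑ k, (1 / 5 + 2 / 5 * (χ (-k)).re) • f (ι (χ k • z))
  have hY : ∀ (i : ZMod 5) z, Y (χ i • z) =
      f (ι (χ i • z)) - ∑ k, (1 / 5 + 2 / 5 * (χ i * χ (-k)).re) • f (ι (χ k • z)) := by
    intro i z
    simp only [Y, smul_smul, ← AddChar.map_add_eq_mul, zero_add]
    congr 1
    refine Fintype.sum_equiv (Equiv.addRight i) _ _ fun k => ?_
    simp only [Equiv.coe_addRight]
    congr 5
    ring
  have hsum : ∑ k, χ k = 0 := AddChar.sum_eq_zero_of_ne_one (by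
    simpa using isPrimitive_stdAddChar 5 (a := 1) (by decide))
  obtain ⟨z, hz, h0⟩ := hN Y ((hg 0).sub (continuousOn_finset_sum _ fun k _ =>
    (hg k).const_smul (1 / 5 + 2 / 5 * (χ (-k)).re : ℝ))) (fun z _ j => by
      change ∑ k, Y (χ k • z) j = 0
      simp only [hY, Pi.sub_apply, Finset.sum_apply, Pi.smul_apply, smul_eq_mul, sum_sub_distrib]
      rw [sum_comm, sub_eq_zero]
      refine sum_congr rfl fun k _ => ?_
      rw [← sum_mul, sum_add_distrib, ← mul_sum, ← Complex.re_sum, ← sum_mul, hsum]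
      simp)
  change ∀ (k : ZMod 5) j, Y (χ k • z) j = 0 at h0
  have hz0 : z ≠ 0 := by
    rintro rfl
    simp at hz
  let A : Fin 2 → ℝ := ∑ k, (1 / 5 : ℝ) • f (ι (χ k • z))
  let B : Fin 2 → ℝ := ∑ k, (2 / 5 * (χ (-k)).re) • f (ι (χ k • z))
  let C : Fin 2 → ℝ := ∑ k, (-(2 / 5 * (χ (-k)).im)) • f (ι (χ k • z))
  have hf' : ∀ i, f (ι (χ i • z)) = A + (χ i).re • B + (χ i).im • C := fun i => by
    have : Y (χ i • z) = 0 := funext (h0 i)
    rw [hY, sub_eq_zero] at this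
    rw [this]
    simp only [A, B, C, smul_sum, smul_smul, ← sum_add_distrib, ← add_smul, Complex.mul_re]
    refine sum_congr rfl fun k _ => ?_
    congr 1
    ring
  have hdec : ∀ c : ℂ, c • z = c.re • z + c.im • (Complex.I • z) := fun c => by
    funext i
    simp only [Pi.add_apply, Pi.smul_apply, smul_eq_mul, Complex.real_smul]
    conv_lhs => rw [← Complex.re_add_im c]
    ring
  let v : Fin 2 → (Fin m → ℝ) × (Fin 2 → ℝ) := ![(ι z, B), (ι (Complex.I • z), C)]
  have hv : LinearIndependent ℝ v := by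
    refine LinearIndependent.pair_iff.2 fun s t hst => ?_
    have h1 : ι ((⟨s, t⟩ : ℂ) • z) = ι 0 := by
      rw [hdec, map_add, ι.map_smul, ι.map_smul, map_zero]
      exact congrArg Prod.fst hst
    have := (smul_eq_zero.1 (hι h1)).resolve_right hz0
    exact ⟨congrArg Complex.re this, congrArg Complex.im this⟩
  refine ⟨AffineSubspace.mk' (0, A) (Submodule.span ℝ (Set.range v)), ?_,
    univ.image fun k => ι (χ k • z), ?_, fun x hx => ?_⟩
  · rw [AffineSubspace.direction_mk', finrank_span_eq_card hv]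
    simp
  · rw [card_image_of_injective]
    · simp
    · exact fun a b h => injective_stdAddChar (smul_left_injective ℂ hz0 (hι h))
  · obtain ⟨k, -, rfl⟩ := mem_image.1 hx
    refine ⟨hbox _ (hrot k z hz), ?_⟩
    rw [AffineSubspace.mem_mk']
    have : (ι (χ k • z), f (ι (χ k • z))) -ᵥ ((0 : Fin m → ℝ), A) =
        (χ k).re • v 0 + (χ k).im • v 1 := by
      rw [hf', hdec, map_add, ι.map_smul, ι.map_smul]
      ext <;> simp [v] <;> ring
    rw [this]
    exact add_mem (Submodule.smul_mem _ _ (Submodule.subset_span ⟨0, rfl⟩))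
      (Submodule.smul_mem _ _ (Submodule.subset_span ⟨1, rfl⟩))

end Pool.Agent.S12881
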