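import Pool.Statements.S12910
import Pool.Agent.H20.St4

set_option autoImplicit false
open Pool Pool.MP_26fc11_gt

namespace Pool.Agent.S12910

open MeasureTheory Set in
lemma steiner {E : Type} [NormedAddCommGroup E] [InnerProductSpace ℝ E] {K : Set E}
    (hK : ∀ x ∈ K, -x ∈ K) {u p q : E} (hp : ∀ x ∈ K, inner ℝ x p ≤ 1)
    (hq : ∀ x ∈ K, inner ℝ x q ≤ 1) (h : inner ℝ u p = inner ℝ u q) {x : E}
    (h1 : ∃ s : ℝ, x + s • u ∈ K)
    (h2 : ENNReal.ofReal (2 * |inner ℝ x u|) ≤ volume {s : ℝ | x + s • u ∈ K}) :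
    inner ℝ x ((1 / 2 : ℝ) • (p - q) + (inner ℝ u p) • u) ≤ 1 := by
  set t := inner ℝ x u with ht
  set s := inner ℝ u p with hs
  set D := 2 - (inner ℝ x p - inner ℝ x q) with hD
  have key : ∀ a b : ℝ, x + a • u ∈ K → x + b • u ∈ K → s * (a - b) ≤ D :=
    fun a b ha hb => by
      have e1 := hp _ ha
      have e2 := hq _ (hK _ hb)
      simp only [inner_neg_left, inner_add_left, real_inner_smul_left, ← h, ← hs] at e1 e2
      linarith
  obtain ⟨a, ha⟩ := h1
  have D0 : 0 ≤ D := by simpa using key a a ha ha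
  rw [inner_add_right, real_inner_smul_right, real_inner_smul_right, inner_sub_right, ← ht]
  rcases eq_or_ne s 0 with h0 | h0
  · rw [h0]; linarith
  have s0 := abs_pos.2 h0
  have h3 := (h2.trans (Real.volume_le_diam _)).trans
    (Metric.ediam_le_of_forall_dist_le (C := D / |s|) fun a ha b hb => by
      rw [Real.dist_eq, le_div_iff₀ s0, ← abs_mul, abs_le]
      constructor <;> linarith [key a b ha hb, key b a hb ha])
  rw [ENNReal.ofReal_le_ofReal_iff (by positivity), le_div_iff₀ s0, mul_assoc, ← abs_mul] at h3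
  linarith [le_abs_self (t * s)]

/-- Flattening of a square array. -/
def psi (d : ℕ) : H20.St.E d ≃ₗ[ℝ] EuclideanSpace ℝ (Fin (d * d)) where
  toFun w := WithLp.toLp 2 fun k => w (finProdFinEquiv.symm k).1 (finProdFinEquiv.symm k).2
  invFun x i j := x (finProdFinEquiv (i, j))
  map_add' _ _ := rfl
  map_smul' _ _ := rfl
  left_inv w := by ext i j; simp only [Equiv.symm_apply_apply]
  right_inv x := by ext k; simp only [Prod.mk.eta, Equiv.apply_symm_apply]

lemma psi_inner {d : ℕ} (a b : H20.St.E d) : inner ℝ (psi d a) (psi d b) = H20.St.ip a b := by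
  rw [H20.St.ip_eq, ← Equiv.sum_comp finProdFinEquiv.symm, PiLp.inner_apply]
  exact Finset.sum_congr rfl fun k _ => mul_comm _ _

open MeasureTheory Set Matrix H20.St in
/-- The negation of the preceding statement: There is an absolute constant C such that for every n ≥ 1 and every centrally symmetric convex body K in R^n, some unit direction u has vol of the polar of the Steiner symmetral of K along u at most C times vol of the polar of K. -/
theorem result :
    ¬ (∃ C : ℝ, ∀ n : ℕ, 1 ≤ n → ∀ K : Set (EuclideanSpace ℝ (Fin n)),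
      IsCompact K → Convex ℝ K → (interior K).Nonempty → (∀ x ∈ K, -x ∈ K) →
      ∃ u : EuclideanSpace ℝ (Fin n), ‖u‖ = 1 ∧
        MeasureTheory.volume
          {y : EuclideanSpace ℝ (Fin n) |
            ∀ x ∈ {z : EuclideanSpace ℝ (Fin n) |
                (∃ s : ℝ, z + s • u ∈ K) ∧
                ENNReal.ofReal (2 * |inner ℝ z u|) ≤
                  MeasureTheory.volume {s : ℝ | z + s • u ∈ K}},
              inner ℝ x y ≤ (1 : ℝ)}
        ≤ ENNReal.ofReal C *
          MeasureTheory.volume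
            {y : EuclideanSpace ℝ (Fin n) | ∀ x ∈ K, inner ℝ x y ≤ (1 : ℝ)}) := by
  rintro ⟨C, hC⟩
  obtain ⟨k, hk⟩ := exists_nat_gt (9000 * |C| + 2)
  have k2 : (2 : ℝ) < k := by linarith [abs_nonneg C]
  have k2' : 2 < k := by exact_mod_cast k2
  obtain ⟨d, hd⟩ : ∃ d, d = k ^ 2 := ⟨_, rfl⟩
  have d0 : 0 < d := by rw [hd]; positivity
  have cψ := (psi d).toLinearMap.continuous_of_finiteDimensional
  set K : Set (EuclideanSpace ℝ (Fin (d * d))) := {x | ∀ w ∈ L d, inner ℝ x (psi d w) ≤ 1} with hK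
  have neg : ∀ w ∈ L d, -w ∈ L d := fun w hw => by
    simpa using comb hw hw (a := -1) (b := 0) (by simp)
  have Kn : ∀ x ∈ K, -x ∈ K := fun x hx w hw => by
    simpa using hx _ (neg w hw)
  have hs : ∀ x : EuclideanSpace ℝ (Fin (d * d)), ‖x‖ ≤ 1 → (psi d).symm x ∈ L d := fun x hx =>
    hs_mem (by
      rw [← ip_eq, ← psi_inner, LinearEquiv.apply_symm_apply, real_inner_self_eq_norm_sq]
      exact pow_le_one₀ (norm_nonneg _) hx)
  have cK : IsCompact K := (isCompact_closedBall 0 1).of_isClosed_subset (by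
      rw [hK, ofPred_forall]
      refine isClosed_iInter fun w => ?_
      rw [ofPred_forall]
      exact isClosed_iInter fun _ => isClosed_le (by fun_prop) continuous_const) fun x hx => by
    rw [mem_closedBall_zero_iff]
    by_contra h
    have h0 : 0 < ‖x‖ := by linarith [not_le.1 h]
    have := hx _ (hs (‖x‖⁻¹ • x) (by simp [norm_smul, h0.ne']))
    rw [LinearEquiv.apply_symm_apply, real_inner_smul_right, real_inner_self_eq_norm_sq, sq,
      inv_mul_cancel_left₀ h0.ne'] at this
    exact h this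
  obtain ⟨r, r0, hr⟩ := ((L_cpt d).image cψ).isBounded.exists_pos_norm_le
  have hi : (0 : EuclideanSpace ℝ (Fin (d * d))) ∈ interior K :=
    mem_interior_iff_mem_nhds.2 (Filter.mem_of_superset (Metric.closedBall_mem_nhds _
      (inv_pos.2 r0)) fun x hx w hw => (real_inner_le_norm _ _).trans ((mul_le_mul
        (mem_closedBall_zero_iff.1 hx) (hr _ ⟨w, hw, rfl⟩) (norm_nonneg _)
        (inv_pos.2 r0).le).trans_eq (inv_mul_cancel₀ r0.ne')))
  obtain ⟨u, u1, h⟩ := hC (d * d) (Nat.mul_pos d0 d0) K cK (fun x hx y hy a b ha hb hab w hw => by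
    rw [inner_add_left, real_inner_smul_left, real_inner_smul_left]
    nlinarith [hx w hw, hy w hw]) ⟨0, hi⟩ Kn
  obtain ⟨u, rfl⟩ := (psi d).surjective u
  obtain ⟨a, ha⟩ := haar_tr (psi d) volume volume
  have pol : psi d ⁻¹' {y | ∀ x ∈ K, inner ℝ x y ≤ (1 : ℝ)} = L d := by
    refine Subset.antisymm (fun w hw x y => ?_) fun w hw x hx => hx w hw
    have e : ∀ (c : ℝ) (w : E d), ip (fun i j => c * (x i * y j)) w = c * (x ⬝ᵥ of w *ᵥ y) :=
      fun c w => by
        simp only [ip_eq, Fintype.sum_prod_type, dotProduct, mulVec, of_apply, Finset.mul_sum]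
        exact Finset.sum_congr rfl fun i _ => Finset.sum_congr rfl fun j _ => by ring
    rcases (add_nonneg (dsq x) (dsq y)).eq_or_lt with h0 | h0
    · have : x ⬝ᵥ x = 0 := by linarith [dsq x, dsq y]
      rw [dotProduct_self_eq_zero.1 this]; simpa using dsq y
    have := hw (psi d fun i j => 2 / (x ⬝ᵥ x + y ⬝ᵥ y) * (x i * y j)) fun v hv => by
      rw [psi_inner, e, div_mul_eq_mul_div, div_le_one h0]; exact hv x y
    rwa [psi_inner, e, div_mul_eq_mul_div, div_le_one h0] at this
  have v0 : volume {y : EuclideanSpace ℝ (Fin (d * d)) | ∀ x ∈ K, inner ℝ x y ≤ (1 : ℝ)} ≠ 0 :=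
    ((Metric.measure_closedBall_pos volume 0 one_pos).trans_le (measure_mono fun y hy x hx => by
      simpa using hx _ (hs y (mem_closedBall_zero_iff.1 hy)))).ne'
  have v1 : volume {y : EuclideanSpace ℝ (Fin (d * d)) | ∀ x ∈ K, inner ℝ x y ≤ (1 : ℝ)} ≠ ⊤ :=
    measure_ne_top_of_subset (fun y hy => (mem_image _ _ _).2 ⟨(psi d).symm y, by
      rw [← pol]; simpa using hy, (psi d).apply_symm_apply y⟩)
      ((L_cpt d).image cψ).measure_lt_top.ne
  replace h := le_trans ?_ h (a := ENNReal.ofReal (k / 9000) *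
    volume {y : EuclideanSpace ℝ (Fin (d * d)) | ∀ x ∈ K, inner ℝ x y ≤ (1 : ℝ)})
  · rw [ENNReal.mul_le_mul_iff_left v0 v1, ENNReal.ofReal_le_ofReal_iff'] at h
    rcases h with h | h <;> linarith [le_abs_self C]
  rw [ha, ha, pol, mul_left_comm]
  refine mul_le_mul_right (main k2'.le hd (u := u) ?_ fun p hp q hq hpq => ?_) _
  · rw [← psi_inner, real_inner_self_eq_norm_sq, u1, one_pow]
  · intro x hx
    have := steiner Kn (fun x hx => hx p hp) (fun x hx => hx q hq)
      (by rw [psi_inner, psi_inner, hpq]) hx.1 hx.2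
    rwa [psi_inner, ← map_sub, ← map_smul, ← map_smul, ← map_add] at this

end Pool.Agent.S12910
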