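import Pool.Statements.S12920
-- import your own Pool.Agent.* helpers here

set_option autoImplicit false
open Pool Pool.MP_28bdbe_gt

namespace Pool.Agent.S12920

def K : Set (ℝ × ℝ) := {p | 10 ≤ 5 * p.1 + p.2 ∧ 5 * p.1 + p.2 ≤ 62 ∧ -2 ≤ 5 * p.2 - p.1 ∧ 5 * p.2 - p.1 ≤ 50}

theorem K_convex : Convex ℝ K := by
  rintro x ⟨a1, a2, a3, a4⟩ y ⟨b1, b2, b3, b4⟩ s t hs ht hst
  simp only [K, Set.mem_ofPred_eq, Prod.fst_add, Prod.snd_add, Prod.smul_fst, Prod.smul_snd, smul_eq_mul]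
  refine ⟨?_, ?_, ?_, ?_⟩ <;> nlinarith

theorem K_compact : IsCompact K := by
  refine (isCompact_Icc (a := ((0, 0) : ℝ × ℝ)) (b := (12, 12))).of_isClosed_subset ?_ ?_
  · unfold K
    simp only [Set.ofPred_and]
    refine IsClosed.inter ?_ (IsClosed.inter ?_ (IsClosed.inter ?_ ?_)) <;>
      exact isClosed_le (by fun_prop) (by fun_prop)
  · rintro x ⟨a1, a2, a3, a4⟩
    refine ⟨⟨?_, ?_⟩, ⟨?_, ?_⟩⟩ <;> simp only <;> linarith

theorem K_int : (interior K).Nonempty := by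
  refine ⟨(6, 6), mem_interior_iff_mem_nhds.2 (Filter.mem_of_superset
    (prod_mem_nhds (Icc_mem_nhds (a := (5 : ℝ)) (b := 7) (by norm_num) (by norm_num))
      (Icc_mem_nhds (a := (5 : ℝ)) (b := 7) (by norm_num) (by norm_num))) ?_)⟩
  rintro x ⟨⟨a1, a2⟩, a3, a4⟩
  refine ⟨?_, ?_, ?_, ?_⟩ <;> linarith

/-- The negation of the preceding statement: Every compact convex planar set with nonempty interior equals the set where f1+f2+f3+f4 ≥ 0, for some measurable ridge functions f1..f4 in directions (1,0), (0,1), (2,1), (-1,2). -/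
theorem result :
    ¬ (∀ K : Set (ℝ × ℝ), Convex ℝ K → IsCompact K → (interior K).Nonempty →
      ∃ f₁ f₂ f₃ f₄ : ℝ × ℝ → ℝ,
        Measurable f₁ ∧ Measurable f₂ ∧ Measurable f₃ ∧ Measurable f₄ ∧
        (∃ g₁ : ℝ → ℝ, ∀ x : ℝ × ℝ, f₁ x = g₁ x.1) ∧
        (∃ g₂ : ℝ → ℝ, ∀ x : ℝ × ℝ, f₂ x = g₂ x.2) ∧
        (∃ g₃ : ℝ → ℝ, ∀ x : ℝ × ℝ, f₃ x = g₃ (2 * x.1 + x.2)) ∧
        (∃ g₄ : ℝ → ℝ, ∀ x : ℝ × ℝ, f₄ x = g₄ (-x.1 + 2 * x.2)) ∧
        K = {x : ℝ × ℝ | 0 ≤ f₁ x + f₂ x + f₃ x + f₄ x}) := by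
  intro h
  obtain ⟨f₁, f₂, f₃, f₄, -, -, -, -, ⟨g₁, h₁⟩, ⟨g₂, h₂⟩, ⟨g₃, h₃⟩, ⟨g₄, h₄⟩, hK⟩ :=
    h K K_convex K_compact K_int
  have key : ∀ x y : ℝ, (x, y) ∈ K ↔ 0 ≤ g₁ x + g₂ y + g₃ (2 * x + y) + g₄ (-x + 2 * y) := by
    intro x y
    rw [hK, Set.mem_ofPred_eq, h₁, h₂, h₃, h₄]
  have p0 := (key 0 10).1 (by norm_num [K])
  have p1 := (key 1 5).1 (by norm_num [K])
  have p2 := (key 2 0).1 (by norm_num [K])
  have p3 := (key 5 11).1 (by norm_num [K])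
  have p4 := (key 7 1).1 (by norm_num [K])
  have p5 := (key 10 12).1 (by norm_num [K])
  have p6 := (key 11 7).1 (by norm_num [K])
  have p7 := (key 12 2).1 (by norm_num [K])
  have q0 := not_le.1 (mt (key 0 7).2 (by norm_num [K]))
  have q1 := not_le.1 (mt (key 1 2).2 (by norm_num [K]))
  have q2 := not_le.1 (mt (key 2 11).2 (by norm_num [K]))
  have q3 := not_le.1 (mt (key 5 0).2 (by norm_num [K]))
  have q4 := not_le.1 (mt (key 7 12).2 (by norm_num [K]))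
  have q5 := not_le.1 (mt (key 10 1).2 (by norm_num [K]))
  have q6 := not_le.1 (mt (key 11 10).2 (by norm_num [K]))
  have q7 := not_le.1 (mt (key 12 5).2 (by norm_num [K]))
  norm_num at p0 q0 p1 q1 p2 q2 p3 q3 p4 q4 p5 q5 p6 q6 p7 q7
  linarith

end Pool.Agent.S12920
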