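import Pool.Statements.S12922
-- import your own Pool.Agent.* helpers here

set_option autoImplicit false
open Pool Pool.MP_28e94d_gt

namespace Pool.Agent.S12922

def Aff : Type := ℚ_[2] × ℤ

noncomputable instance : TopologicalSpace Aff := inferInstanceAs (TopologicalSpace (ℚ_[2] × ℤ))
instance : T2Space Aff := inferInstanceAs (T2Space (ℚ_[2] × ℤ))

lemma two_ne : (2 : ℚ_[2]) ≠ 0 := two_ne_zero

noncomputable instance : Group Aff where
  mul x y := (x.1 + 2 ^ x.2 * y.1, x.2 + y.2)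
  one := ((0 : ℚ_[2]), (0 : ℤ))
  inv x := (-(2 ^ (-x.2) * x.1), -x.2)
  mul_assoc x y z := by
    refine Prod.ext ?_ (add_assoc _ _ _)
    change x.1 + 2 ^ x.2 * y.1 + 2 ^ (x.2 + y.2) * z.1 = x.1 + 2 ^ x.2 * (y.1 + 2 ^ y.2 * z.1)
    rw [zpow_add₀ two_ne]; ring
  one_mul x := by
    refine Prod.ext ?_ (zero_add _)
    change (0 : ℚ_[2]) + 2 ^ (0 : ℤ) * x.1 = x.1
    simp
  mul_one x := by
    refine Prod.ext ?_ (add_zero _)
    change x.1 + 2 ^ x.2 * (0 : ℚ_[2]) = x.1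
    simp
  inv_mul_cancel x := by
    refine Prod.ext ?_ (neg_add_cancel _)
    change -(2 ^ (-x.2) * x.1) + 2 ^ (-x.2) * x.1 = (0 : ℚ_[2])
    ring

lemma mul_def (x y : Aff) : x * y = (x.1 + 2 ^ x.2 * y.1, x.2 + y.2) := rfl
lemma inv_def (x : Aff) : x⁻¹ = (-(2 ^ (-x.2) * x.1), -x.2) := rfl

lemma cpow : Continuous fun n : ℤ => (2 : ℚ_[2]) ^ n := continuous_of_discreteTopology

instance : IsTopologicalGroup Aff where
  continuous_mul := by
    change Continuous fun p : (ℚ_[2] × ℤ) × (ℚ_[2] × ℤ) =>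
      ((p.1.1 + 2 ^ p.1.2 * p.2.1, p.1.2 + p.2.2) : ℚ_[2] × ℤ)
    have : Continuous fun p : (ℚ_[2] × ℤ) × (ℚ_[2] × ℤ) => (2 : ℚ_[2]) ^ p.1.2 :=
      cpow.comp (continuous_snd.comp continuous_fst)
    fun_prop
  continuous_inv := by
    change Continuous fun p : ℚ_[2] × ℤ => ((-(2 ^ (-p.2) * p.1), -p.2) : ℚ_[2] × ℤ)
    have : Continuous fun p : ℚ_[2] × ℤ => (2 : ℚ_[2]) ^ (-p.2) :=
      cpow.comp continuous_snd.neg
    fun_prop

noncomputable def KK : Subgroup Aff where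
  carrier := {x | ‖x.1‖ ≤ 1 ∧ x.2 = 0}
  mul_mem' := by
    rintro x y ⟨h1, h2⟩ ⟨h3, h4⟩
    refine ⟨?_, ?_⟩
    · simp only [mul_def, h2, zpow_zero, one_mul]
      exact (Padic.nonarchimedean _ _).trans (max_le h1 h3)
    · simp [mul_def, h2, h4]
  one_mem' := ⟨by change ‖(0 : ℚ_[2])‖ ≤ 1; simp, rfl⟩
  inv_mem' := by
    rintro x ⟨h1, h2⟩
    refine ⟨?_, ?_⟩
    · simpa [inv_def, h2] using h1
    · simp [inv_def, h2]

lemma ck : ∃ K : Subgroup Aff, CompactSpace K ∧ TopologicalSpace.SeparableSpace K ∧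
    Countable (Aff ⧸ K) := by
  have hc : IsCompact (KK : Set Aff) := by
    have : IsCompact ((Metric.closedBall (0 : ℚ_[2]) 1) ×ˢ ({0} : Set ℤ)) :=
      (isCompact_closedBall 0 1).prod isCompact_singleton
    have h : (Metric.closedBall (0 : ℚ_[2]) 1) ×ˢ ({0} : Set ℤ) = {x | ‖x.1‖ ≤ 1 ∧ x.2 = 0} := by
      ext x
      simp only [Set.mem_prod, mem_closedBall_zero_iff, Set.mem_singleton_iff]
      rfl
    rw [h] at this
    exact this
  have h2 : SecondCountableTopology Aff := inferInstanceAs (SecondCountableTopology (ℚ_[2] × ℤ))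
  have h3 : SecondCountableTopology KK := TopologicalSpace.Subtype.secondCountableTopology _
  refine ⟨KK, isCompact_iff_compactSpace.1 hc, inferInstance, ?_⟩
  refine Function.Surjective.countable (f := fun p : ℚ × ℤ =>
    (QuotientGroup.mk (((p.1 : ℚ_[2]), p.2) : Aff) : Aff ⧸ KK)) ?_
  intro y
  obtain ⟨x, rfl⟩ := QuotientGroup.mk_surjective y
  obtain ⟨q, hq⟩ := Padic.rat_dense 2 x.1 (ε := ‖(2 : ℚ_[2]) ^ x.2‖)
    (norm_pos_iff.2 (zpow_ne_zero _ two_ne))
  refine ⟨(q, x.2), QuotientGroup.eq.2 ⟨?_, ?_⟩⟩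
  · change ‖-(2 ^ (-x.2) * (q : ℚ_[2])) + 2 ^ (-x.2) * x.1‖ ≤ 1
    have : -(2 ^ (-x.2) * (q : ℚ_[2])) + 2 ^ (-x.2) * x.1 = (x.1 - q) / 2 ^ x.2 := by
      rw [zpow_neg]; ring
    rw [this, norm_div, div_le_one (norm_pos_iff.2 (zpow_ne_zero _ two_ne))]
    exact hq.le
  · change -x.2 + x.2 = 0
    ring

def PP (H : Type) [Group H] [TopologicalSpace H] : Prop :=
  ∃ N : Subgroup H, N.Normal ∧ IsCompact (N : Set H) ∧
    ∃ T : Set H, T.Countable ∧ ∀ g, ∃ t ∈ T, t⁻¹ * g ∈ N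

lemma not_PP : ¬ PP Aff := by
  rintro ⟨N, hN, hc, T, hT, hg⟩
  have hu : Uncountable ℚ_[2] := by
    rw [← Cardinal.aleph0_lt_mk_iff]
    exact Cardinal.aleph0_lt_continuum.trans_le
      (continuum_le_cardinal_of_nontriviallyNormedField ℚ_[2])
  have : Countable T := hT
  choose t ht htN using fun b : ℚ_[2] => hg ((b, (0 : ℤ)) : Aff)
  obtain ⟨b, b', hbb, hne⟩ : ∃ b b', (⟨t b, ht b⟩ : T) = ⟨t b', ht b'⟩ ∧ b ≠ b' := by
    by_contra hcon
    push Not at hcon
    exact not_countable (Function.Injective.countable (f := fun b => (⟨t b, ht b⟩ : T)) hcon)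
  have htt : t b = t b' := congrArg Subtype.val hbb
  have h1 := N.mul_mem (N.inv_mem (htN b)) (htN b')
  rw [htt, mul_inv_rev, inv_inv, mul_assoc, mul_inv_cancel_left] at h1
  obtain ⟨M, hM⟩ := (hc.image (continuous_fst (X := ℚ_[2]) (Y := ℤ))).isBounded.exists_norm_le
  have hc0 : 0 < ‖b' - b‖ := norm_pos_iff.2 (sub_ne_zero.2 hne.symm)
  obtain ⟨k, hk⟩ := pow_unbounded_of_one_lt (M / ‖b' - b‖) (show (1 : ℝ) < 2 by norm_num)
  have h2 := hM _ ⟨_, hN.conj_mem _ h1 (((0 : ℚ_[2]), -(k : ℤ)) : Aff), rfl⟩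
  have h3 : ‖(2 : ℚ_[2])‖ = (2 : ℝ)⁻¹ := by simpa using Padic.norm_p (p := 2)
  simp only [mul_def, inv_def, neg_zero, zpow_zero, one_mul, mul_zero, add_zero, zero_add,
    neg_add_eq_sub, norm_mul, norm_zpow, h3, inv_zpow', neg_neg, zpow_natCast] at h2
  rw [div_lt_iff₀ hc0] at hk
  linarith

/-- The negation of the preceding statement: A Hausdorff topological group lies in the smallest class containing compact separable and countable groups, closed under finite products, closed subgroups and continuous homomorphic images, iff it has a compact separable subgroup with countably many cosets. -/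
theorem result :
    ¬ (∀ (G : Type) [Group G] [TopologicalSpace G] [IsTopologicalGroup G] [T2Space G],
      ((∀ P : (H : Type) → [Group H] → [TopologicalSpace H] → Prop,
          (∀ (H : Type) [Group H] [TopologicalSpace H] [IsTopologicalGroup H] [T2Space H],
              CompactSpace H → TopologicalSpace.SeparableSpace H → P H) →
          (∀ (H : Type) [Group H] [TopologicalSpace H] [IsTopologicalGroup H] [T2Space H],
              Countable H → P H) →
          (∀ (H₁ : Type) [Group H₁] [TopologicalSpace H₁] [IsTopologicalGroup H₁] [T2Space H₁]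
              (H₂ : Type) [Group H₂] [TopologicalSpace H₂] [IsTopologicalGroup H₂] [T2Space H₂],
              P H₁ → P H₂ → P (H₁ × H₂)) →
          (∀ (H : Type) [Group H] [TopologicalSpace H] [IsTopologicalGroup H] [T2Space H]
              (L : Subgroup H), IsClosed (L : Set H) → P H → P L) →
          (∀ (H₁ : Type) [Group H₁] [TopologicalSpace H₁] [IsTopologicalGroup H₁] [T2Space H₁]
              (H₂ : Type) [Group H₂] [TopologicalSpace H₂] [IsTopologicalGroup H₂] [T2Space H₂]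
              (f : H₁ →* H₂), Continuous f → Function.Surjective f → P H₁ → P H₂) →
          P G) ↔
        ∃ K : Subgroup G, CompactSpace K ∧ TopologicalSpace.SeparableSpace K ∧
          Countable (G ⧸ K))) := by
  intro h
  refine not_PP ((h Aff).2 ck PP ?_ ?_ ?_ ?_ ?_)
  · intro H _ _ _ _ hc _
    exact ⟨⊤, inferInstance, isCompact_univ, {1}, Set.countable_singleton _,
      fun g => ⟨1, rfl, trivial⟩⟩
  · intro H _ _ _ _ hc
    exact ⟨⊥, inferInstance, by simp, Set.univ, Set.countable_univ,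
      fun g => ⟨g, trivial, by simp⟩⟩
  · rintro H₁ _ _ _ _ H₂ _ _ _ _ ⟨N₁, n1, c1, T₁, t1, g1⟩ ⟨N₂, n2, c2, T₂, t2, g2⟩
    refine ⟨N₁.prod N₂, inferInstance, c1.prod c2, T₁ ×ˢ T₂, t1.prod t2, fun g => ?_⟩
    obtain ⟨a, ha, ha'⟩ := g1 g.1
    obtain ⟨b, hb, hb'⟩ := g2 g.2
    exact ⟨(a, b), ⟨ha, hb⟩, ha', hb'⟩
  · rintro H _ _ _ _ L hL ⟨N, n1, c1, T, t1, g1⟩
    classical
    refine ⟨N.subgroupOf L, inferInstance, hL.isClosedEmbedding_subtypeVal.isCompact_preimage c1,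
      (fun t : H => if h : ∃ x : L, t⁻¹ * x ∈ N then h.choose else 1) '' T, t1.image _, fun g => ?_⟩
    obtain ⟨t, ht, hg⟩ := g1 g
    have hex : ∃ x : L, t⁻¹ * x ∈ N := ⟨g, hg⟩
    refine ⟨_, ⟨t, ht, rfl⟩, ?_⟩
    simp only [dif_pos hex]
    have := N.mul_mem (N.inv_mem hex.choose_spec) hg
    rw [mul_inv_rev, inv_inv, mul_assoc, mul_inv_cancel_left] at this
    exact this
  · rintro H₁ _ _ _ _ H₂ _ _ _ _ f hf hs ⟨N, n1, c1, T, t1, g1⟩
    refine ⟨N.map f, n1.map f hs, c1.image hf, f '' T, t1.image _, fun g => ?_⟩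
    obtain ⟨x, rfl⟩ := hs g
    obtain ⟨t, ht, hx⟩ := g1 x
    exact ⟨f t, ⟨t, ht, rfl⟩, t⁻¹ * x, hx, by simp⟩

end Pool.Agent.S12922
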