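import Pool.Statements.S12936

set_option autoImplicit false
open Pool Pool.MP_2a9133_gt

namespace Pool.Agent.S12936

open Set Filter Topology

noncomputable def γ (t : ℝ) : ℝ × ℂ := (Real.exp (-t), Complex.exp (t * Complex.I))

lemma γ_cont : Continuous γ := by unfold γ; fun_prop

def XS : Set (ℝ × ℂ) := insert (0, 1) (γ '' Ici 0)

lemma XS_conn : IsConnected XS := by
  refine ((isConnected_Ici (a := (0 : ℝ))).image γ γ_cont.continuousOn).subset_closure
    (subset_insert _ _) (insert_subset ?_ subset_closure)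
  refine mem_closure_of_tendsto (f := fun n : ℕ => γ (n * (2 * Real.pi))) (b := atTop) ?_
    (Eventually.of_forall fun n => ⟨_, mem_Ici.2 (by positivity), rfl⟩)
  refine Tendsto.prodMk_nhds ?_ ?_
  · exact Real.tendsto_exp_neg_atTop_nhds_zero.comp
      (tendsto_natCast_atTop_atTop.atTop_mul_const (by positivity))
  · refine tendsto_const_nhds.congr fun n => ?_
    rw [← Complex.exp_nat_mul_two_pi_mul_I n]; congr 1; push_cast; ring

lemma inj {p q : ℝ × ℂ} (hp : p ∈ XS) (hq : q ∈ XS) (h : p.1 = q.1) : p = q := by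
  rcases hp with rfl | ⟨s, -, rfl⟩ <;> rcases hq with rfl | ⟨t, -, rfl⟩
  · rfl
  · exact absurd h (Real.exp_pos _).ne
  · exact absurd h (Real.exp_pos _).ne'
  · have : s = t := neg_injective (Real.exp_injective h)
    rw [this]

lemma bd {p : ℝ × ℂ} (hp : p ∈ XS) : 0 ≤ p.1 ∧ p.1 ≤ 1 := by
  rcases hp with rfl | ⟨s, hs, rfl⟩
  · simp
  · exact ⟨(Real.exp_pos _).le, Real.exp_le_one_iff.2 (neg_nonpos.2 hs)⟩

noncomputable def g (t : Ici (0 : ℝ)) : XS := ⟨γ t, Or.inr ⟨t, t.2, rfl⟩⟩

lemma g_cont : Continuous g := (γ_cont.comp continuous_subtype_val).subtype_mk _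

noncomputable def sh (t : Ici (0 : ℝ)) : Ici (0 : ℝ) :=
  ⟨t + Real.pi, add_nonneg t.2 Real.pi_pos.le⟩

/-- The negation of the preceding statement: For every connected metric space X, the semi-span of X (sup over connected Z ⊆ X×X with second projection inside first of inf distance) is at most twice its surjective semi-span (same, first projection all of X). -/
theorem result :
    ¬ (∀ (X : Type) [MetricSpace X] [ConnectedSpace X],
      (⨆ (Z : Set (X × X)) (_ : IsConnected Z) (_ : Prod.snd '' Z ⊆ Prod.fst '' Z),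
          ⨅ p ∈ Z, edist p.1 p.2)
        ≤ (2 : ENNReal) *
          (⨆ (Z : Set (X × X)) (_ : IsConnected Z) (_ : Prod.fst '' Z = Set.univ),
            ⨅ p ∈ Z, edist p.1 p.2)) := by
  intro h
  have : ConnectedSpace XS := isConnected_iff_connectedSpace.1 XS_conn
  have h1 := h XS
  have h2 : (⨆ (Z : Set (XS × XS)) (_ : IsConnected Z) (_ : Prod.fst '' Z = Set.univ),
      ⨅ p ∈ Z, edist p.1 p.2) = 0 := by
    simp only [ENNReal.iSup_eq_zero]
    intro Z hZ hu
    obtain ⟨p, hp, hp1⟩ : g ⟨0, mem_Ici.2 le_rfl⟩ ∈ Prod.fst '' Z := hu ▸ mem_univ _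
    obtain ⟨q, hq, hq1⟩ : (⟨(0, 1), Or.inl rfl⟩ : XS) ∈ Prod.fst '' Z := hu ▸ mem_univ _
    obtain ⟨r, hr, hr1⟩ := hZ.isPreconnected.intermediate_value₂ hq hp
      (f := fun z : XS × XS => z.1.1.1) (g := fun z : XS × XS => z.2.1.1) (by fun_prop) (by fun_prop)
      (by simp only [hq1]; exact (bd q.2.2).1)
      (by simp only [hp1, g, γ]; simpa using (bd p.2.2).2)
    refine le_antisymm ((iInf₂_le r hr).trans_eq ?_) zero_le
    rw [edist_eq_zero]; exact Subtype.ext (inj r.1.2 r.2.2 hr1)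
  rw [h2, mul_zero] at h1
  have : ConnectedSpace (Ici (0 : ℝ)) := isConnected_iff_connectedSpace.1 isConnected_Ici
  have hc : Continuous fun t => (g t, g (sh t)) :=
    g_cont.prodMk (g_cont.comp ((continuous_subtype_val.add continuous_const).subtype_mk _))
  have h3 := le_trans (le_iSup_of_le (range fun t => (g t, g (sh t)))
    (le_iSup₂_of_le (isConnected_range hc) (by
      rintro _ ⟨_, ⟨t, rfl⟩, rfl⟩
      exact ⟨_, ⟨sh t, rfl⟩, rfl⟩) le_rfl)) h1
  have h4 : (2 : ENNReal) ≤ ⨅ p ∈ range fun t => (g t, g (sh t)), edist p.1 p.2 := by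
    refine le_iInf₂ ?_
    rintro _ ⟨t, rfl⟩
    refine le_trans ?_ (le_max_right (edist (γ t).1 (γ (t + Real.pi)).1) _)
    show 2 ≤ edist (γ t).2 (γ (t + Real.pi)).2
    rw [edist_dist, dist_eq_norm]
    have : (γ t).2 - (γ (t + Real.pi)).2 = 2 * Complex.exp (t * Complex.I) := by
      simp only [γ]; push_cast
      rw [add_mul, Complex.exp_add, Complex.exp_pi_mul_I]; ring
    rw [this, norm_mul, Complex.norm_exp_ofReal_mul_I]; simp
  exact absurd (h4.trans h3) (by simp)

end Pool.Agent.S12936
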