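import Pool.Statements.S12952
import Pool.Agent.H17.Cons

set_option autoImplicit false
open Pool Pool.MP_2c91bd_gt

namespace Pool.Agent.S12952

open Set Pool.Agent.H17.Cons

abbrev P : Type := {C : Set X // IsClosed C ∧ C.Nonempty}

def dia (U : Set X) : Set P := {C | (C.1 ∩ U).Nonempty}

instance tP : TopologicalSpace P :=
  TopologicalSpace.generateFrom {S | ∃ U : Set X, IsOpen U ∧ S = {C : P | (C.1 ∩ U).Nonempty}}

theorem open_dia {U : Set X} (hU : IsOpen U) : IsOpen (dia U) :=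
  TopologicalSpace.isOpen_generateFrom_of_mem ⟨U, hU, rfl⟩

theorem dia_mono {U V : Set X} (h : U ⊆ V) : dia U ⊆ dia V :=
  fun _ ⟨x, hx, hx'⟩ => ⟨x, hx, h hx'⟩

def p (n k : ℕ) : P := ⟨{x | x = X.s n k ∨ ∃ m j, x = X.r m j}, by
  refine ⟨⟨?_⟩, ⟨_, Or.inl rfl⟩⟩
  have : {x | x = X.s n k ∨ ∃ m j, x = X.r m j}ᶜ = {X.b} ∪ SB n k := by
    ext x
    cases x <;> simp [SB]
  rw [this]
  exact open_b.union (open_SB n k)⟩

def q (n j : ℕ) : P := ⟨{x | x = X.b ∨ x = X.r n j}, by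
  refine ⟨⟨?_⟩, ⟨_, Or.inl rfl⟩⟩
  have : {x | x = X.b ∨ x = X.r n j}ᶜ = {x | x ≠ X.b} ∩ {x | x ≠ X.r n j} := by
    ext x
    simp [not_or]
  rw [this]
  exact open_ne_b.inter (open_ne_r n j)⟩

theorem hp (W : Set P) (hW : IsOpen W) :
    ∀ n k, p n k ∈ W → ∀ n', ∃ f, ∀ k', f ≤ k' → p n' k' ∈ W := by
  induction hW with
  | basic S hS =>
    obtain ⟨U, hU, rfl⟩ := hS
    rintro n k ⟨x, rfl | ⟨m, j, rfl⟩, hx⟩ n'
    · obtain ⟨f, hf⟩ := hU.1 n k hx n'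
      exact ⟨f, fun k' hk => ⟨_, Or.inl rfl, hf k' hk⟩⟩
    · exact ⟨0, fun k' _ => ⟨_, Or.inl rfl, (hU.2 m j hx).2 _ _⟩⟩
  | univ => exact fun _ _ _ _ => ⟨0, fun _ _ => trivial⟩
  | inter S T _ _ h1 h2 =>
    intro n k h n'
    obtain ⟨f, hf⟩ := h1 n k h.1 n'
    obtain ⟨g, hg⟩ := h2 n k h.2 n'
    exact ⟨max f g, fun k' hk => ⟨hf k' (le_of_max_le_left hk), hg k' (le_of_max_le_right hk)⟩⟩
  | sUnion S _ ih =>
    rintro n k ⟨T, hT, h⟩ n'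
    obtain ⟨f, hf⟩ := ih T hT n k h n'
    exact ⟨f, fun k' hk => ⟨T, hT, hf k' hk⟩⟩

theorem hq (W : Set P) (hW : IsOpen W) :
    ∀ n j, q n j ∈ W → ∃ k, ∀ n' j', k ≤ j' → q n' j' ∈ W := by
  induction hW with
  | basic S hS =>
    obtain ⟨U, hU, rfl⟩ := hS
    rintro n j ⟨x, rfl | rfl, hx⟩
    · exact ⟨0, fun _ _ _ => ⟨_, Or.inl rfl, hx⟩⟩
    · obtain ⟨f, hf⟩ := (hU.2 n j hx).1
      exact ⟨f, fun n' k' hk => ⟨_, Or.inr rfl, hf n' k' hk⟩⟩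
  | univ => exact fun _ _ _ => ⟨0, fun _ _ _ => trivial⟩
  | inter S T _ _ h1 h2 =>
    intro n k h
    obtain ⟨f, hf⟩ := h1 n k h.1
    obtain ⟨g, hg⟩ := h2 n k h.2
    exact ⟨max f g, fun n' k' hk =>
      ⟨hf n' k' (le_of_max_le_left hk), hg n' k' (le_of_max_le_right hk)⟩⟩
  | sUnion S _ ih =>
    rintro n k ⟨T, hT, h⟩
    obtain ⟨f, hf⟩ := ih T hT n k h
    exact ⟨f, fun n' k' hk => ⟨T, hT, hf n' k' hk⟩⟩

def W0 : Set P := dia S1 ∪ (dia {X.b} ∩ dia {x | x ≠ X.b})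

theorem W0_mem : W0 ∈ Bad p q :=
  ⟨(open_dia open_S1).union ((open_dia open_b).inter (open_dia open_ne_b)),
    ⟨0, 0, Or.inl ⟨_, Or.inl rfl, 0, 0, rfl⟩⟩,
    ⟨0, 0, Or.inr ⟨⟨_, Or.inl rfl, rfl⟩, ⟨_, Or.inr rfl, fun h => by cases h⟩⟩⟩,
    fun j _ k _ => Or.inl (Or.inl ⟨_, Or.inl rfl, j, k, rfl⟩)⟩

theorem no_compact (K : Set P) (hK : IsCompact K) (hKW : K ⊆ W0)
    (h : ∀ V : Set P, IsOpen V → K ⊆ V → V ∈ Bad p q) : False := by
  have h1 : ∃ N, ∀ m, ∀ C ∈ K, C ∈ dia {X.b} ∨ C ∈ dia (SB N m) := by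
    by_contra hcon
    push Not at hcon
    choose c C hCK hC using hcon
    obtain ⟨i, hi⟩ := cover_seq hK (fun i => dia {X.b} ∪ dia (SA c i))
      (fun i => (open_dia open_b).union (open_dia (open_SA c i)))
      (fun a b hab => union_subset_union_right _ (dia_mono (by
        rintro x ⟨n, k, rfl, hx⟩
        exact ⟨n, k, rfl, fun hn => hx (hab.trans hn)⟩))) (by
        intro D hD
        rcases hKW hD with ⟨x, hx, n, k, rfl⟩ | hb
        · exact mem_iUnion.2 ⟨n + 1, Or.inr ⟨_, hx, n, k, rfl, fun hn => by omega⟩⟩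
        · exact mem_iUnion.2 ⟨0, Or.inl hb.1⟩)
    rcases hi (hCK i) with hb | ⟨x, hx, n, k, rfl, hn⟩
    · exact (hC i).1 hb
    · refine (hC i).2 ⟨_, hx, n, k, rfl, ?_⟩
      rintro ⟨rfl, rfl⟩
      exact hn le_rfl rfl
  obtain ⟨N, hN⟩ := h1
  obtain ⟨m, hm⟩ := cover_seq hK (fun m => dia (RA N m)) (fun m => open_dia (open_RA N m))
    (fun a b hab => dia_mono fun x hx => ⟨hx.1, fun n hn => hx.2 n (hab.trans hn)⟩) (by
      intro D hD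
      have : ∃ x ∈ D.1, x ≠ X.b := by
        rcases hKW hD with ⟨x, hx, n, k, rfl⟩ | ⟨-, x, hx, hb⟩
        · exact ⟨_, hx, fun h => by cases h⟩
        · exact ⟨x, hx, hb⟩
      obtain ⟨x, hx, hb⟩ := this
      cases x with
      | b => exact absurd rfl hb
      | s n k => exact mem_iUnion.2 ⟨0, _, hx, hb, fun _ _ h => by cases h⟩
      | r n k => exact mem_iUnion.2 ⟨n + 1, _, hx, hb, fun _ hn h => by cases h; omega⟩)
  have hV := h (dia (SB N m) ∪ (dia {X.b} ∩ dia (RA N m)))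
    ((open_dia (open_SB N m)).union ((open_dia open_b).inter (open_dia (open_RA N m))))
    (fun C hC => (hN m C hC).elim (fun hb => Or.inr ⟨hb, hm hC⟩) Or.inl)
  rcases hV.2.2.2 N m m le_rfl with (⟨x, hx, n, k, rfl, hn⟩ | ⟨⟨x, hx, rfl⟩, -⟩) |
      (⟨x, hx, n, k, rfl, hn⟩ | ⟨-, x, hx, hb, hr⟩)
  · rcases hx with hx | ⟨_, _, hx⟩
    · cases hx; exact hn ⟨rfl, rfl⟩
    · cases hx
  · rcases hx with hx | ⟨_, _, hx⟩ <;> cases hx
  · rcases hx with hx | hx <;> cases hx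
  · rcases hx with hx | hx
    · exact hb hx
    · exact hr m le_rfl hx


/-- The negation of the preceding statement: For every consonant T0 space X, the space of nonempty closed subsets of X with the lower Vietoris topology is consonant, where consonant means every Scott-open family of opens contains, around each member U, all opens containing some compact K ⊆ U. -/
theorem result :
    ¬ (∀ (X : Type) [TopologicalSpace X] [T0Space X],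
    (∀ 𝓤 : Set (Set X), (∀ U ∈ 𝓤, IsOpen U) →
      (∀ U ∈ 𝓤, ∀ V : Set X, IsOpen V → U ⊆ V → V ∈ 𝓤) →
      (∀ 𝒟 : Set (Set X), 𝒟.Nonempty → DirectedOn (· ⊆ ·) 𝒟 →
          (∀ D ∈ 𝒟, IsOpen D) → ⋃₀ 𝒟 ∈ 𝓤 → ∃ D ∈ 𝒟, D ∈ 𝓤) →
      ∀ U ∈ 𝓤, ∃ K : Set X, IsCompact K ∧ K ⊆ U ∧
        ∀ V : Set X, IsOpen V → K ⊆ V → V ∈ 𝓤) →
    ∀ tH : TopologicalSpace {C : Set X // IsClosed C ∧ C.Nonempty},
      tH = TopologicalSpace.generateFrom
        {S | ∃ U : Set X, IsOpen U ∧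
          S = {C : {C : Set X // IsClosed C ∧ C.Nonempty} | (C.1 ∩ U).Nonempty}} →
      (∀ 𝓤 : Set (Set {C : Set X // IsClosed C ∧ C.Nonempty}),
        (∀ U ∈ 𝓤, @IsOpen _ tH U) →
        (∀ U ∈ 𝓤, ∀ V : Set {C : Set X // IsClosed C ∧ C.Nonempty},
            @IsOpen _ tH V → U ⊆ V → V ∈ 𝓤) →
        (∀ 𝒟 : Set (Set {C : Set X // IsClosed C ∧ C.Nonempty}), 𝒟.Nonempty →
            DirectedOn (· ⊆ ·) 𝒟 →
            (∀ D ∈ 𝒟, @IsOpen _ tH D) → ⋃₀ 𝒟 ∈ 𝓤 → ∃ D ∈ 𝒟, D ∈ 𝓤) →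
        ∀ U ∈ 𝓤, ∃ K : Set {C : Set X // IsClosed C ∧ C.Nonempty},
          @IsCompact _ tH K ∧ K ⊆ U ∧
          ∀ V : Set {C : Set X // IsClosed C ∧ C.Nonempty},
            @IsOpen _ tH V → K ⊆ V → V ∈ 𝓤)) := by
  intro H
  have hS := scott_bad p q hp hq
  obtain ⟨K, hK, hKW, h⟩ := H X (fun F h1 h2 h3 U hU =>
      consonant ⟨h1, fun U V hU hV => h2 U hU V hV, fun D a b c d => h3 D a c b d⟩ hU) tP rfl
    (Bad p q) hS.1 (fun U hU V hV => hS.2.1 U V hU hV) (fun D a b c d => hS.2.2 D a c b d)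
    W0 W0_mem
  exact no_compact K hK hKW h

end Pool.Agent.S12952
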