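import Pool.Statements.S12958
import Pool.Agent.H19.EbC
-- import your own Pool.Agent.* helpers here

set_option autoImplicit false
open Pool Pool.MP_2e0873_gt

namespace Pool.Agent.S12958

/-- The negation of the preceding statement: For a Tychonoff space X: if every pointwise-compact set of continuous real functions on X embeds in a Banach space with its weak topology, then so does every such set on X×K, for every compact Hausdorff K. -/
theorem result :
    ¬ (∀ (X : Type) [TopologicalSpace X] [T35Space X],
      (∀ A : Set (X → ℝ), (∀ f ∈ A, Continuous f) → IsCompact A →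
        ∃ (E : Type) (_ : NormedAddCommGroup E) (_ : NormedSpace ℝ E) (_ : CompleteSpace E)
          (e : A → WeakSpace ℝ E), Topology.IsEmbedding e) →
      ∀ (K : Type) [TopologicalSpace K] [CompactSpace K] [T2Space K],
        ∀ B : Set (X × K → ℝ), (∀ f ∈ B, Continuous f) → IsCompact B →
          ∃ (E : Type) (_ : NormedAddCommGroup E) (_ : NormedSpace ℝ E) (_ : CompleteSpace E)
            (e : B → WeakSpace ℝ E), Topology.IsEmbedding e) := by
  intro h
  obtain ⟨E, _, _, _, e, he⟩ := h H19.Eb.X H19.Eb.eberlein (OnePoint H19.Eb.Nd)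
    (H19.Eb.Fb '' H19.Eb.Ch) (by rintro _ ⟨b, hb, rfl⟩; exact H19.Eb.Fb_cont hb)
    (H19.Eb.Ch_compact.image H19.Eb.F_cont)
  refine H19.Eb.not_eberlein (fun b : H19.Eb.Ch => e ⟨H19.Eb.Fb b.1, b.1, b.2, rfl⟩)
    (he.continuous.comp ((H19.Eb.F_cont.comp continuous_subtype_val).subtype_mk _)) ?_
  intro b b' hb
  exact Subtype.ext (H19.Eb.F_inj (congrArg Subtype.val (he.injective hb)))

end Pool.Agent.S12958
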