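import Pool.Statements.S12972

set_option autoImplicit false
open Pool Pool.MP_2fc951_gt

namespace Pool.Agent.S12972

open Finset

/-- Walks of length `n` from `x0` with at most `D` choices per step: at most `D ^ n` of them. -/
lemma walks {X : Type} (B : X → Finset X) (D : ℕ) (hB : ∀ x, (B x).card ≤ D) (x0 : X) (n : ℕ) :
    ∃ S : Finset (ℕ → X), S.card ≤ D ^ n ∧
      ∀ w : ℕ → X, w 0 = x0 → (∀ k, w (k + 1) ∈ B (w k)) → ∃ u ∈ S, ∀ k ≤ n, u k = w k := by
  classical
  induction n with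
  | zero =>
    refine ⟨{fun _ => x0}, by simp, fun w h0 _ => ⟨fun _ => x0, by simp, ?_⟩⟩
    intro k hk
    obtain rfl : k = 0 := by omega
    exact h0.symm
  | succ n ih =>
    obtain ⟨S, hS, hw⟩ := ih
    refine ⟨S.biUnion fun u => (B (u n)).image fun x => Function.update u (n + 1) x, ?_, ?_⟩
    · calc _ ≤ ∑ u ∈ S, ((B (u n)).image fun x => Function.update u (n + 1) x).card :=
            card_biUnion_le
        _ ≤ ∑ _u ∈ S, D := sum_le_sum fun u _ => card_image_le.trans (hB _)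
        _ = S.card * D := by simp
        _ ≤ D ^ n * D := Nat.mul_le_mul_right _ hS
        _ = D ^ (n + 1) := (pow_succ _ _).symm
    · intro w h0 hs
      obtain ⟨u, hu, huw⟩ := hw w h0 hs
      refine ⟨Function.update u (n + 1) (w (n + 1)), ?_, ?_⟩
      · simp only [mem_biUnion, mem_image]
        refine ⟨u, hu, w (n + 1), ?_, rfl⟩
        rw [huw n le_rfl]; exact hs n
      · intro k hk
        by_cases hkn : k = n + 1
        · subst hkn; simp
        · rw [Function.update_of_ne hkn]; exact huw k (by omega)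

/-- The counting step: some permutation is realised by no walk with small fibres. -/
lemma exists_perm {X : Type} (B : X → Finset X) (D : ℕ) (hB : ∀ x, (B x).card ≤ D) (x0 : X)
    (a K : ℕ) :
    ∃ (m : ℕ) (σ : Equiv.Perm (Fin m)), ∀ w : ℕ → X, w 0 = x0 → (∀ k, w (k + 1) ∈ B (w k)) →
      (∀ (x : X) (s : Finset (Fin m)), (∀ j ∈ s, w (a + j) = x) → s.card ≤ K) →
      ¬ ∀ i : Fin m, w (a + σ i) ∈ B (w (a + i)) := by
  classical
  obtain ⟨m, hm⟩ := (Nat.eventually_mul_pow_lt_factorial_sub (D ^ a) (D * (D * K)) 0).exists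
  obtain ⟨S, hS, hw⟩ := walks B D hB x0 (a + m)
  let T : (ℕ → X) → Fin m → Finset (Fin m) := fun u i =>
    univ.filter fun j => u (a + j) ∈ B (u (a + i))
  let good : (ℕ → X) → Prop := fun u =>
    ∀ (x : X) (s : Finset (Fin m)), (∀ j ∈ s, u (a + j) = x) → s.card ≤ K
  have hT : ∀ u, good u → ∀ i, (T u i).card ≤ D * K := by
    intro u hu i
    have : T u i ⊆ (B (u (a + i))).biUnion fun x => univ.filter fun j : Fin m => u (a + j) = x := by
      intro j hj
      simp only [T, mem_filter, mem_univ, true_and] at hj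
      simp only [mem_biUnion, mem_filter, mem_univ, true_and]
      exact ⟨_, hj, rfl⟩
    calc _ ≤ _ := card_le_card this
      _ ≤ ∑ x ∈ B (u (a + i)), (univ.filter fun j : Fin m => u (a + j) = x).card :=
          card_biUnion_le
      _ ≤ ∑ _x ∈ B (u (a + i)), K :=
          sum_le_sum fun x _ => hu x _ fun j hj => (mem_filter.mp hj).2
      _ = (B (u (a + i))).card * K := by simp
      _ ≤ D * K := Nat.mul_le_mul_right _ (hB _)
  let P : Finset (Fin m → Fin m) := (S.filter good).biUnion fun u => Fintype.piFinset (T u)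
  have hP : P.card ≤ D ^ (a + m) * (D * K) ^ m := by
    calc _ ≤ ∑ u ∈ S.filter good, (Fintype.piFinset (T u)).card := card_biUnion_le
      _ ≤ ∑ _u ∈ S.filter good, (D * K) ^ m := by
          refine sum_le_sum fun u hu => ?_
          rw [Fintype.card_piFinset]
          calc _ ≤ ∏ _i : Fin m, (D * K) :=
                prod_le_prod' fun i _ => hT u (mem_filter.mp hu).2 i
            _ = _ := by simp
      _ = (S.filter good).card * (D * K) ^ m := by simp
      _ ≤ _ := Nat.mul_le_mul_right _ ((card_filter_le _ _).trans hS)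
  by_contra hcon
  push Not at hcon
  have hsub : (univ : Finset (Equiv.Perm (Fin m))).image
      (fun (σ : Equiv.Perm (Fin m)) (i : Fin m) => σ i) ⊆ P := by
    intro f hf
    obtain ⟨σ, -, rfl⟩ := mem_image.mp hf
    obtain ⟨w, h0, hs, hK, hσ⟩ := hcon m σ
    obtain ⟨u, hu, huw⟩ := hw w h0 hs
    have he : ∀ j : Fin m, u (a + j) = w (a + j) := fun j => huw _ (by have := j.2; omega)
    simp only [P, mem_biUnion, mem_filter, Fintype.mem_piFinset]
    refine ⟨u, ⟨hu, ?_⟩, ?_⟩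
    · intro x s hs'
      exact hK x s fun j hj => (he j).symm.trans (hs' j hj)
    · intro i
      simp only [T, mem_filter, mem_univ, true_and, he]
      exact hσ i
  have hc := card_le_card hsub
  rw [card_image_of_injective _ (fun σ τ h => Equiv.ext fun i => congrFun h i), card_univ, Fintype.card_perm,
    Fintype.card_fin] at hc
  have : D ^ a * (D * (D * K)) ^ m = D ^ (a + m) * (D * K) ^ m := by
    rw [mul_pow D (D * K), pow_add]; ring
  simp only [Nat.sub_zero] at hm
  omega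

/-- The test space: a copy of `ℕ × ℕ`. -/
structure Pt where
  fst : ℕ
  snd : ℕ

/-- The grid together with one permutation on each column. -/
def gr (π : ℕ → Equiv.Perm ℕ) : SimpleGraph Pt :=
  SimpleGraph.fromRel fun y z =>
    z = ⟨y.fst + 1, y.snd⟩ ∨ z = ⟨y.fst, y.snd + 1⟩ ∨ z = ⟨y.fst, π y.fst y.snd⟩

lemma gr_conn (π : ℕ → Equiv.Perm ℕ) : (gr π).Connected := by
  have h1 : ∀ i k, (gr π).Reachable ⟨0, k⟩ ⟨i, k⟩ := by
    intro i k
    induction i with
    | zero => rfl
    | succ i ih =>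
      refine ih.trans (SimpleGraph.Adj.reachable ?_)
      simp [gr, SimpleGraph.fromRel_adj]
  have h2 : ∀ k, (gr π).Reachable ⟨0, 0⟩ ⟨0, k⟩ := by
    intro k
    induction k with
    | zero => rfl
    | succ k ih =>
      refine ih.trans (SimpleGraph.Adj.reachable ?_)
      simp [gr, SimpleGraph.fromRel_adj]
  have h3 : ∀ y : Pt, (gr π).Reachable ⟨0, 0⟩ y := fun y => (h2 y.snd).trans (h1 y.fst y.snd)
  have : Nonempty Pt := ⟨⟨0, 0⟩⟩
  exact ⟨fun y z => (h3 y).symm.trans (h3 z)⟩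

/-- The path metric. -/
@[reducible] noncomputable def met (π : ℕ → Equiv.Perm ℕ) : MetricSpace Pt where
  dist y z := ((gr π).dist y z : ℝ)
  dist_self y := by simp
  dist_comm y z := by rw [SimpleGraph.dist_comm]
  dist_triangle x y z := by exact_mod_cast (gr_conn π).dist_triangle
  eq_of_dist_eq_zero := by
    intro x y h
    exact (gr_conn π).dist_eq_zero_iff.mp (by exact_mod_cast h)

lemma gr_ball (π : ℕ → Equiv.Perm ℕ) (n : ℕ) (y : Pt) :
    ∃ s : Finset Pt, s.card ≤ 7 ^ n ∧ ∀ z, (gr π).dist z y ≤ n → z ∈ s := by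
  classical
  induction n with
  | zero =>
    refine ⟨{y}, by simp, fun z hz => ?_⟩
    have : (gr π).dist z y = 0 := by omega
    simpa using (gr_conn π).dist_eq_zero_iff.mp this
  | succ n ih =>
    obtain ⟨s, hs, hz⟩ := ih
    let N : Pt → Finset Pt := fun v =>
      [v, ⟨v.fst + 1, v.snd⟩, ⟨v.fst, v.snd + 1⟩, ⟨v.fst, π v.fst v.snd⟩, ⟨v.fst - 1, v.snd⟩,
        ⟨v.fst, v.snd - 1⟩, ⟨v.fst, (π v.fst).symm v.snd⟩].toFinset
    refine ⟨s.biUnion N, ?_, ?_⟩
    · calc _ ≤ ∑ v ∈ s, (N v).card := card_biUnion_le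
        _ ≤ ∑ _v ∈ s, 7 := sum_le_sum fun v _ => List.toFinset_card_le _
        _ = s.card * 7 := by simp
        _ ≤ 7 ^ n * 7 := Nat.mul_le_mul_right _ hs
        _ = 7 ^ (n + 1) := (pow_succ _ _).symm
    · intro z hzy
      obtain ⟨p, hp⟩ := (gr_conn π).exists_walk_length_eq_dist z y
      cases p with
      | nil =>
        exact mem_biUnion.mpr ⟨y, hz y (by simp), by simp [N]⟩
      | @cons _ v _ h q =>
        have hq : (gr π).dist v y ≤ n := by
          have := (gr π).dist_le q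
          simp only [SimpleGraph.Walk.length_cons] at hp
          omega
        refine mem_biUnion.mpr ⟨v, hz v hq, ?_⟩
        simp only [gr, SimpleGraph.fromRel_adj] at h
        obtain ⟨-, (rfl | rfl | rfl) | (rfl | rfl | rfl)⟩ := h <;> simp [N]

/-- The negation of the preceding statement: There is a metric space X of bounded geometry (closed r-balls have uniformly bounded finite size) such that every bounded-geometry metric space Y admits a coarse embedding into X. -/
theorem result :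
    ¬ (∃ (X : Type) (_ : MetricSpace X),
    (∀ r : ℝ, 0 < r → ∃ N : ℕ, ∀ x : X, ∀ s : Finset X,
        (↑s : Set X) ⊆ Metric.closedBall x r → s.card ≤ N) ∧
    ∀ (Y : Type) [MetricSpace Y],
      (∀ r : ℝ, 0 < r → ∃ N : ℕ, ∀ y : Y, ∀ s : Finset Y,
          (↑s : Set Y) ⊆ Metric.closedBall y r → s.card ≤ N) →
      ∃ f : Y → X, ∃ ρm ρp : ℝ → ℝ,
        MonotoneOn ρm (Set.Ici 0) ∧ MonotoneOn ρp (Set.Ici 0) ∧
        (∀ t : ℝ, 0 ≤ t → 0 ≤ ρm t ∧ 0 ≤ ρp t) ∧
        Filter.Tendsto ρm Filter.atTop Filter.atTop ∧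
        ∀ y y' : Y, ρm (dist y y') ≤ dist (f y) (f y') ∧
          dist (f y) (f y') ≤ ρp (dist y y')) := by
  classical
  rintro ⟨X, _, hX, hU⟩
  -- finite balls
  have hball : ∀ L : ℕ, ∃ (D : ℕ) (B : X → Finset X), (∀ x, (B x).card ≤ D) ∧
      ∀ x z, dist z x ≤ (L : ℝ) + 1 → z ∈ B x := by
    intro L
    obtain ⟨D, hD⟩ := hX ((L : ℝ) + 1) (by positivity)
    have hfin : ∀ x : X, (Metric.closedBall x ((L : ℝ) + 1)).Finite := by
      intro x
      by_contra hinf
      obtain ⟨s, hs, hc⟩ := Set.Infinite.exists_subset_card_eq hinf (D + 1)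
      have := hD x s hs
      omega
    refine ⟨D, fun x => (hfin x).toFinset, fun x => hD x _ (by simp), fun x z hz => ?_⟩
    simpa using hz
  choose D B hB hBz using hball
  have hbg : ∀ π : ℕ → Equiv.Perm ℕ, ∀ r : ℝ, 0 < r → ∃ N : ℕ, ∀ y : Pt, ∀ s : Finset Pt,
      (↑s : Set Pt) ⊆ @Metric.closedBall Pt (met π).toPseudoMetricSpace y r → s.card ≤ N := by
    intro π r _
    refine ⟨7 ^ ⌈r⌉₊, fun y s hs => ?_⟩
    obtain ⟨t, ht, htz⟩ := gr_ball π ⌈r⌉₊ y
    refine le_trans (card_le_card fun z hz => htz z ?_) ht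
    have h1 : (((gr π).dist z y : ℕ) : ℝ) ≤ r := hs hz
    exact_mod_cast h1.trans (Nat.le_ceil r)
  -- X is nonempty and countable
  obtain ⟨f0, -⟩ := @hU Pt (met fun _ => 1) (hbg _)
  have hcount : Countable X := by
    have : (Set.univ : Set X) ⊆ ⋃ L : ℕ, (B L (f0 ⟨0, 0⟩) : Set X) := by
      intro z _
      refine Set.mem_iUnion.mpr ⟨⌈dist z (f0 ⟨0, 0⟩)⌉₊, hBz _ _ _ ?_⟩
      have := Nat.le_ceil (dist z (f0 ⟨0, 0⟩))
      linarith
    exact Set.countable_univ_iff.mp
      ((Set.countable_iUnion fun L => (B L _).countable_toSet).mono this)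
  have : Nonempty X := ⟨f0 ⟨0, 0⟩⟩
  obtain ⟨e, he⟩ := exists_surjective_nat (X × ℕ × ℕ)
  choose m σ hσ using fun a : ℕ =>
    exists_perm (B (e a).2.1) (D (e a).2.1) (hB (e a).2.1) (e a).1 a (e a).2.2
  let π : ℕ → Equiv.Perm ℕ := fun a => (σ a).viaEmbedding Fin.valEmbedding
  have hπ : ∀ a (i : Fin (m a)), π a i = σ a i := fun a i =>
    Equiv.Perm.viaEmbedding_apply (σ a) Fin.valEmbedding i
  obtain ⟨f, ρm, ρp, -, hρp, -, hρm, hf⟩ := @hU Pt (met π) (hbg π)
  have hf' : ∀ y y' : Pt, ρm ((gr π).dist y y') ≤ dist (f y) (f y') ∧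
      dist (f y) (f y') ≤ ρp ((gr π).dist y y') := hf
  -- the Lipschitz constant
  have hadj : ∀ y z : Pt, (z = ⟨y.fst + 1, y.snd⟩ ∨ z = ⟨y.fst, y.snd + 1⟩ ∨
      z = ⟨y.fst, π y.fst y.snd⟩) → f z ∈ B ⌈ρp 1⌉₊ (f y) := by
    intro y z h
    apply hBz
    have h1 : (gr π).dist z y ≤ 1 := by
      by_cases hzy : z = y
      · simp [hzy]
      · exact (SimpleGraph.dist_eq_one_iff_adj.mpr
          ((SimpleGraph.fromRel_adj _ _ _).mpr ⟨hzy, Or.inr h⟩)).le
    have h2 : ρp ((gr π).dist z y) ≤ ρp 1 :=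
      hρp (by simp) (by simp) (by exact_mod_cast h1)
    have := (hf' z y).2
    have := Nat.le_ceil (ρp 1)
    linarith
  -- the fibre bound
  obtain ⟨R, hR⟩ := Filter.eventually_atTop.mp (hρm.eventually_gt_atTop 0)
  have hfib : ∀ (x : X) (s : Finset Pt), (∀ y ∈ s, f y = x) → s.card ≤ 7 ^ ⌈R⌉₊ := by
    intro x s hs
    rcases s.eq_empty_or_nonempty with rfl | ⟨y, hy⟩
    · simp
    obtain ⟨t, ht, htz⟩ := gr_ball π ⌈R⌉₊ y
    refine le_trans (card_le_card fun z hz => htz z ?_) ht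
    by_contra hlt
    have h1 : (R : ℝ) ≤ ((gr π).dist z y : ℕ) := by
      have h2 : ((⌈R⌉₊ : ℕ) : ℝ) ≤ ((gr π).dist z y : ℕ) := by exact_mod_cast (not_le.mp hlt).le
      exact (Nat.le_ceil R).trans h2
    have h3 := hR _ h1
    have h4 := (hf' z y).1
    rw [hs z hz, hs y hy, dist_self] at h4
    linarith
  obtain ⟨a, ha⟩ := he (f ⟨0, 0⟩, ⌈ρp 1⌉₊, 7 ^ ⌈R⌉₊)
  have key := hσ a (fun k => if k ≤ a then f ⟨k, 0⟩ else f ⟨a, k - a⟩)
  have hw : ∀ j : ℕ, (if a + j ≤ a then f ⟨a + j, 0⟩ else f ⟨a, a + j - a⟩) = f ⟨a, j⟩ := by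
    intro j
    rcases Nat.eq_zero_or_pos j with rfl | hj
    · simp
    · rw [if_neg (by omega)]; simp
  simp only [ha, hw] at key
  refine key (by simp) ?_ ?_ ?_
  · intro k
    by_cases hk : k + 1 ≤ a
    · rw [if_pos hk, if_pos (by omega)]
      exact hadj _ _ (Or.inl rfl)
    · obtain ⟨j, rfl⟩ : ∃ j, k = a + j := ⟨k - a, by omega⟩
      rw [hw, add_assoc, hw]
      exact hadj _ _ (Or.inr (Or.inl rfl))
  · intro x s hs
    have := hfib x (s.image fun j : Fin (m a) => (⟨a, j⟩ : Pt)) (by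
      intro y hy
      obtain ⟨j, hj, rfl⟩ := mem_image.mp hy
      exact hs j hj)
    rwa [card_image_of_injective] at this
    intro j j' hjj
    simp only [Pt.mk.injEq, true_and] at hjj
    exact Fin.ext hjj
  · intro i
    exact hadj _ _ (Or.inr (Or.inr (by simp [hπ])))

end Pool.Agent.S12972
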