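import Pool.Statements.S12992

set_option autoImplicit false
open Pool Pool.MP_327467_gt

namespace Pool.Agent.S12992

open TopologicalSpace Set

/-- Nodes of the rationally branching tree; the children of `x` are the lists `q :: x`. -/
def Node : Type := List ℚ

/-- `C` accumulates at the child `q :: x` of `x`. -/
def Acc (C : Set (List ℚ)) (x : List ℚ) (q : ℚ) : Prop :=
  ∀ ε : ℚ, 0 < ε → ∃ q' : ℚ, q' ≠ q ∧ |q' - q| < ε ∧ ∃ y ∈ C, (q' :: x) <:+ y

def Cl (C : Set (List ℚ)) : Prop :=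
  (∀ x q, x ∈ C → q :: x ∈ C) ∧ (∀ x q, Acc C x q → q :: x ∈ C)

theorem Acc.mono {C D : Set (List ℚ)} (h : C ⊆ D) {x : List ℚ} {q : ℚ} (hC : Acc C x q) :
    Acc D x q := by
  intro ε hε
  obtain ⟨q', h1, h2, y, hy, h3⟩ := hC ε hε
  exact ⟨q', h1, h2, y, h hy, h3⟩

theorem cl_empty : Cl ∅ := by
  refine ⟨fun _ _ h => h.elim, fun x q h => ?_⟩
  obtain ⟨_, _, _, y, hy, _⟩ := h 1 one_pos
  exact hy.elim

theorem cl_sInter (A : Set (Set (List ℚ))) (hA : ∀ C ∈ A, Cl C) : Cl (⋂₀ A) := by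
  refine ⟨fun x q h C hC => (hA C hC).1 x q (h C hC), fun x q h C hC => ?_⟩
  exact (hA C hC).2 x q (h.mono (sInter_subset_of_mem hC))

theorem cl_union (C D : Set (List ℚ)) (hC : Cl C) (hD : Cl D) : Cl (C ∪ D) := by
  refine ⟨fun x q h => h.elim (fun h => Or.inl (hC.1 x q h)) (fun h => Or.inr (hD.1 x q h)),
    fun x q h => ?_⟩
  by_cases h1 : Acc C x q
  · exact Or.inl (hC.2 x q h1)
  · refine Or.inr (hD.2 x q ?_)
    unfold Acc at h1
    push Not at h1
    obtain ⟨δ, hδ, h1⟩ := h1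
    intro ε hε
    obtain ⟨q', h2, h3, y, hy, h4⟩ := h (min ε δ) (lt_min hε hδ)
    rcases hy with hy | hy
    · exact (h1 q' h2 (h3.trans_le (min_le_right _ _)) y hy h4).elim
    · exact ⟨q', h2, h3.trans_le (min_le_left _ _), y, hy, h4⟩

instance : TopologicalSpace Node :=
  TopologicalSpace.ofClosed {C : Set Node | Cl C} cl_empty
    (fun A hA => cl_sInter A (fun _ hC => hA hC)) (fun C hC D hD => cl_union C D hC hD)

theorem isOpen_iff (U : Set Node) : IsOpen U ↔ Cl (Uᶜ : Set (List ℚ)) := Iff.rfl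

theorem isOpen_compl_of_cl (C : Set (List ℚ)) (hC : Cl C) :
    @IsOpen Node _ (Cᶜ : Set (List ℚ)) := by
  change Cl (Cᶜᶜ)
  rw [compl_compl]
  exact hC

/-- Nodes all of whose children lie in `C`. -/
def ell (C : Set (List ℚ)) : Set (List ℚ) := {y | ∀ q : ℚ, q :: y ∈ C}

theorem cl_ell {C : Set (List ℚ)} (hC : Cl C) : Cl (ell C) := by
  refine ⟨fun x q h q' => hC.1 _ _ (h q), fun x q h q' => hC.1 _ _ (hC.2 x q ?_)⟩
  intro ε hε
  obtain ⟨q1, h1, h2, y, hy, h3⟩ := h ε hε
  exact ⟨q1, h1, h2, 0 :: y, hy 0, h3.trans (List.suffix_cons _ _)⟩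

theorem ell_ell {C : Set (List ℚ)} (hC : Cl C) : ell (ell C) ⊆ ell C := by
  intro y hy q
  apply hC.2
  intro ε hε
  refine ⟨q + ε / 2, ?_, ?_, 0 :: (q + ε / 2) :: y, hy _ 0, List.suffix_cons _ _⟩
  · intro h
    linarith
  · rw [add_sub_cancel_left, abs_of_pos (by positivity)]
    linarith

/-- Descendants of the children of `x` with label in `W`. -/
def Z (x : List ℚ) (W : Set ℚ) : Set (List ℚ) := {y | ∃ q ∈ W, (q :: x) <:+ y}

theorem cl_Z (x : List ℚ) (W : Set ℚ)
    (hW : ∀ q : ℚ, (∀ ε : ℚ, 0 < ε → ∃ q' ∈ W, |q' - q| < ε) → q ∈ W) : Cl (Z x W) := by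
  refine ⟨fun y q ⟨w, hw, h⟩ => ⟨w, hw, h.trans (List.suffix_cons _ _)⟩, fun x' q h => ?_⟩
  rcases lt_trichotomy x'.length x.length with hl | hl | hl
  · exfalso
    have aux : ∀ q' : ℚ, (∃ y ∈ Z x W, (q' :: x') <:+ y) → (q' :: x') <:+ x := by
      rintro q' ⟨y, ⟨w, _, h1⟩, h2⟩
      exact List.suffix_of_suffix_length_le h2 ((List.suffix_cons _ _).trans h1) (by simpa using hl)
    obtain ⟨q1, h1, _, h3⟩ := h 1 one_pos
    obtain ⟨q2, _, h5, h6⟩ := h |q1 - q| (abs_pos.2 (sub_ne_zero.2 h1))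
    have := (List.suffix_of_suffix_length_le (aux _ h3) (aux _ h6) (by simp)).eq_of_length (by simp)
    have e : q1 = q2 := (List.cons.inj this).1
    rw [e] at h5
    exact lt_irrefl _ h5
  · have aux : ∀ q' : ℚ, (∃ y ∈ Z x W, (q' :: x') <:+ y) → q' ∈ W ∧ x' = x := by
      rintro q' ⟨y, ⟨w, hw, h1⟩, h2⟩
      have := (List.suffix_of_suffix_length_le h2 h1 (by simp [hl])).eq_of_length (by simp [hl])
      obtain ⟨e1, e2⟩ := List.cons.inj this
      exact ⟨e1 ▸ hw, e2⟩
    obtain ⟨q1, _, _, h3⟩ := h 1 one_pos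
    have e : x' = x := (aux _ h3).2
    refine ⟨q, hW q ?_, e ▸ List.suffix_refl _⟩
    intro ε hε
    obtain ⟨q2, _, h5, h6⟩ := h ε hε
    exact ⟨q2, (aux _ h6).1, h5⟩
  · obtain ⟨q1, _, _, y, ⟨w, hw, h1⟩, h2⟩ := h 1 one_pos
    refine ⟨w, hw, List.IsSuffix.trans ?_ (List.suffix_cons _ _)⟩
    exact List.suffix_of_suffix_length_le h1 ((List.suffix_cons _ _).trans h2) (by simpa using hl)

/-- The combinatorial core: there is no prime notion of bigness invariant under `ell`. -/
theorem no_point (big : Set (List ℚ) → Prop) (hmono : ∀ C D, Cl C → Cl D → C ⊆ D → big C → big D)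
    (hne : ¬ big ∅)
    (hunion : ∀ C D, Cl C → Cl D → big (C ∪ D) → big C ∨ big D)
    (hinter : big (⋂₀ {C | Cl C ∧ big C}))
    (hell : ∀ C, Cl C → big (ell C) → big C) : False := by
  set K := ⋂₀ {C | Cl C ∧ big C} with hK
  have hKcl : Cl K := cl_sInter _ (fun C hC => hC.1)
  have hmin : ∀ C, Cl C → big C → K ⊆ C := fun C h1 h2 => sInter_subset_of_mem ⟨h1, h2⟩
  obtain ⟨y, hy⟩ : K.Nonempty := by
    rw [nonempty_iff_ne_empty]
    intro h
    exact hne (h ▸ hinter)
  have step1 : ∀ x : List ℚ, (∀ z ∈ K, x <:+ z) → K ⊆ Z x univ := by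
    intro x hx
    have hc : Cl (Z x univ) := cl_Z x univ (fun _ _ => trivial)
    refine hmin _ hc (hell _ hc (hmono K _ hKcl (cl_ell hc) ?_ hinter))
    intro z hz q
    have := hx z hz
    obtain ⟨t, rfl⟩ := this
    rcases List.eq_nil_or_concat (q :: t) with h | ⟨t', a, h⟩
    · exact absurd h (by simp)
    · refine ⟨a, trivial, t', ?_⟩
      rw [← List.cons_append, h]
      simp
  have cut : ∀ (x : List ℚ) (a b : ℚ), K ⊆ Z x univ → a < b → ∀ z1 ∈ K, ∀ z2 ∈ K,
      (a :: x) <:+ z1 → (b :: x) <:+ z2 → False := by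
    intro x a b hx hab z1 hz1 z2 hz2 h1 h2
    have hA : Cl (Z x (Iic ((a + b) / 2))) := by
      apply cl_Z
      intro q hq
      by_contra hc
      simp only [mem_Iic, not_le] at hc
      obtain ⟨q', h3, h4⟩ := hq (q - (a + b) / 2) (by linarith)
      simp only [mem_Iic] at h3
      have := (abs_lt.1 h4).1
      linarith
    have hB : Cl (Z x (Ici ((a + b) / 2))) := by
      apply cl_Z
      intro q hq
      by_contra hc
      simp only [mem_Ici, not_le] at hc
      obtain ⟨q', h3, h4⟩ := hq ((a + b) / 2 - q) (by linarith)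
      simp only [mem_Ici] at h3
      have := (abs_lt.1 h4).2
      linarith
    have hsub : K ⊆ Z x (Iic ((a + b) / 2)) ∪ Z x (Ici ((a + b) / 2)) := by
      intro z hz
      obtain ⟨w, _, hw⟩ := hx hz
      rcases le_total w ((a + b) / 2) with h | h
      · exact Or.inl ⟨w, h, hw⟩
      · exact Or.inr ⟨w, h, hw⟩
    rcases hunion _ _ hA hB (hmono _ _ hKcl (cl_union _ _ hA hB) hsub hinter) with h | h
    · obtain ⟨w, hw, h3⟩ := hmin _ hA h hz2
      have := (List.suffix_of_suffix_length_le h2 h3 (by simp)).eq_of_length (by simp)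
      have e := (List.cons.inj this).1
      simp only [mem_Iic] at hw
      linarith
    · obtain ⟨w, hw, h3⟩ := hmin _ hB h hz1
      have := (List.suffix_of_suffix_length_le h1 h3 (by simp)).eq_of_length (by simp)
      have e := (List.cons.inj this).1
      simp only [mem_Ici] at hw
      linarith
  have main : ∀ x : List ℚ, x <:+ y → ∀ z ∈ K, x <:+ z := by
    intro x
    induction x with
    | nil => intro _ z _; exact List.nil_suffix
    | cons a x ih =>
      intro h z hz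
      have hx := step1 x (ih ((List.suffix_cons _ _).trans h))
      obtain ⟨w, _, hw⟩ := hx hz
      rcases lt_trichotomy a w with h1 | h1 | h1
      · exact (cut x a w hx h1 y hy z hz h hw).elim
      · exact h1 ▸ hw
      · exact (cut x w a hx h1 z hz y hy hw h).elim
  obtain ⟨w, _, hw⟩ := step1 y (main y (List.suffix_refl _)) hy
  have := hw.length_le
  simp at this

/-- The interior operator on open sets. -/
def kk (U : Opens Node) : Opens Node :=
  ⟨(ell ((U : Set Node)ᶜ : Set (List ℚ)))ᶜ,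
    isOpen_compl_of_cl _ (cl_ell ((isOpen_iff _).1 U.isOpen))⟩

theorem mem_kk (U : Opens Node) (y : List ℚ) :
    (show Node from y) ∈ kk U ↔ ∃ q : ℚ, (show Node from q :: y) ∈ U := by
  change ¬ (∀ q : ℚ, ¬ ((show Node from q :: y) ∈ U)) ↔ _
  simp

theorem kk_le (U : Opens Node) : kk U ≤ U := by
  intro y hy
  obtain ⟨q, hq⟩ := (mem_kk U y).1 hy
  by_contra h
  exact ((isOpen_iff _).1 U.isOpen).1 y q h hq

theorem kk_mono {U V : Opens Node} (h : U ≤ V) : kk U ≤ kk V := by
  intro y hy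
  obtain ⟨q, hq⟩ := (mem_kk U y).1 hy
  exact (mem_kk V y).2 ⟨q, h hq⟩

theorem kk_kk (U : Opens Node) : kk (kk U) = kk U := by
  refine le_antisymm (kk_le _) ?_
  intro y hy
  by_contra h
  apply hy
  apply ell_ell ((isOpen_iff _).1 U.isOpen)
  intro q
  by_contra h2
  exact h ((mem_kk _ y).2 ⟨q, h2⟩)

theorem kk_sSup (S : Set (Opens Node)) : kk (sSup S) = sSup (kk '' S) := by
  refine le_antisymm ?_ (sSup_le (by rintro _ ⟨U, hU, rfl⟩; exact kk_mono (le_sSup hU)))
  intro y hy
  obtain ⟨q, hq⟩ := (mem_kk _ y).1 hy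
  obtain ⟨U, hU, hq⟩ := Opens.mem_sSup.1 hq
  exact Opens.mem_sSup.2 ⟨kk U, ⟨U, hU, rfl⟩, (mem_kk _ y).2 ⟨q, hq⟩⟩

/-- The quotient lattice. -/
def LL : Type := {U : Opens Node // kk U = U}

instance : PartialOrder LL := inferInstanceAs (PartialOrder {U : Opens Node // kk U = U})

def toLL (U : Opens Node) : LL := ⟨kk U, kk_kk U⟩

theorem gc : GaloisConnection (fun a : LL => a.1) toLL := by
  intro a U
  constructor
  · intro h
    change a.1 ≤ kk U
    rw [← a.2]
    exact kk_mono h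
  · intro h
    exact le_trans (show a.1 ≤ kk U from h) (kk_le U)

def gci : GaloisCoinsertion (fun a : LL => a.1) toLL :=
  gc.toGaloisCoinsertion (fun a => by change kk a.1 ≤ a.1; exact kk_le _)

noncomputable instance : CompleteLattice LL := gci.liftCompleteLattice

noncomputable def phi : CompleteLatticeHom (Opens Node) LL where
  toFun := toLL
  map_sInf' S := by
    rw [gc.u_sInf, sInf_image]
  map_sSup' S := by
    refine le_antisymm ?_ (sSup_le (by rintro _ ⟨U, hU, rfl⟩; exact gc.monotone_u (le_sSup hU)))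
    change kk (sSup S) ≤ (sSup (toLL '' S) : LL).1
    rw [kk_sSup]
    refine sSup_le ?_
    rintro _ ⟨U, hU, rfl⟩
    exact (le_sSup (show toLL U ∈ toLL '' S from ⟨U, hU, rfl⟩) : toLL U ≤ sSup (toLL '' S))

/-- The negation of the preceding statement: For every topological space X and every surjective complete lattice homomorphism from the lattice of open sets of X onto a complete lattice L', L' is order-isomorphic to the lattice of open sets of some topological space. -/
theorem result :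
    ¬ (∀ (X : Type) [TopologicalSpace X] (L' : Type) [CompleteLattice L']
      (φ : CompleteLatticeHom (TopologicalSpace.Opens X) L'),
      Function.Surjective φ →
        ∃ (Y : Type) (_ : TopologicalSpace Y),
          Nonempty (L' ≃o TopologicalSpace.Opens Y)) := by
  intro h
  obtain ⟨Y, _, ⟨e⟩⟩ := h Node LL phi (fun a => ⟨a.1, Subtype.ext a.2⟩)
  let op : (C : Set (List ℚ)) → Cl C → Opens Node := fun C hC =>
    ⟨(Cᶜ : Set (List ℚ)), isOpen_compl_of_cl C hC⟩
  have hY : Nonempty Y := by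
    by_contra hY
    have h1 : e (phi ⊤) = e (phi ⊥) := by
      ext y
      exact (hY ⟨y⟩).elim
    have h2 : kk ⊤ = kk ⊥ := congrArg Subtype.val (e.injective h1)
    have h3 : (show Node from []) ∈ kk ⊤ := (mem_kk _ _).2 ⟨0, trivial⟩
    rw [h2] at h3
    exact kk_le _ h3
  obtain ⟨y⟩ := hY
  refine no_point (fun C => ∃ hC : Cl C, y ∉ e (phi (op C hC))) ?_ ?_ ?_ ?_ ?_
  · rintro C D hC hD hCD ⟨_, h1⟩
    refine ⟨hD, fun h2 => h1 ?_⟩
    have : op D hD ≤ op C hC := fun z hz hz' => hz (hCD hz')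
    exact e.monotone (gc.monotone_u this) h2
  · rintro ⟨hC, h1⟩
    apply h1
    have : op ∅ hC = ⊤ := by
      ext z
      exact ⟨fun _ => trivial, fun _ h => h⟩
    rw [this, map_top, map_top]
    trivial
  · rintro C D hC hD ⟨hCD, h1⟩
    by_contra h2
    push Not at h2
    apply h1
    have : op (C ∪ D) hCD = op C hC ⊓ op D hD := by
      ext z
      exact not_or
    rw [this, map_inf, map_inf]
    exact ⟨h2.1 hC, h2.2 hD⟩
  · refine ⟨cl_sInter _ (fun C hC => hC.1), fun h1 => ?_⟩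
    have : op _ (cl_sInter {C | Cl C ∧ ∃ hC : Cl C, y ∉ e (phi (op C hC))} (fun C hC => hC.1)) =
        sSup {U | y ∉ e (phi U)} := by
      ext z
      simp only [SetLike.mem_coe, Opens.mem_sSup]
      constructor
      · intro hz
        have hz' : ¬ ∀ C ∈ {C | Cl C ∧ ∃ hC : Cl C, y ∉ e (phi (op C hC))}, z ∈ C := hz
        push Not at hz'
        obtain ⟨C, ⟨hC, _, h2⟩, h3⟩ := hz'
        exact ⟨op C hC, h2, h3⟩
      · rintro ⟨U, hU, hz⟩ hz'
        have hc := (isOpen_iff _).1 U.isOpen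
        have e1 : op _ hc = U := by
          ext w
          exact not_not
        exact hz' _ ⟨hc, hc, by rw [e1]; exact hU⟩ hz
    rw [this, map_sSup, map_sSup] at h1
    obtain ⟨_, ⟨_, ⟨U, hU, rfl⟩, rfl⟩, h2⟩ := Opens.mem_sSup.1 h1
    exact hU h2
  · rintro C hC ⟨hC', h1⟩
    refine ⟨hC, fun h2 => h1 ?_⟩
    have e1 : op (ell C) hC' = kk (op C hC) := by
      ext z
      change ¬ (∀ q : ℚ, q :: z ∈ C) ↔ ¬ (∀ q : ℚ, ¬ ¬ (q :: z ∈ C))
      simp
    have e2 : phi (op (ell C) hC') = phi (op C hC) := by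
      rw [e1]
      exact Subtype.ext (kk_kk _)
    rw [e2]
    exact h2

end Pool.Agent.S12992
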