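import Pool.Statements.S13000
-- import your own Pool.Agent.* helpers here

set_option autoImplicit false
open Pool Pool.MP_34ba9c_gt

namespace Pool.Agent.S13000

open Filter Topology Set

inductive Y : Type
  | p : Y
  | k : List ℕ → Y
  | d : List ℕ → Y

def br (x : ℕ → ℕ) : ℕ → List ℕ
  | 0 => []
  | n + 1 => x n :: br x n

lemma br_len (x : ℕ → ℕ) (n : ℕ) : (br x n).length = n := by
  induction n with
  | zero => rfl
  | succ n ih => simp [br, ih]

lemma br_eq {x y : ℕ → ℕ} {n : ℕ} (h : br x n = br y n) : ∀ m < n, x m = y m := by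
  induction n with
  | zero => intro m hm; omega
  | succ n ih =>
    simp only [br, List.cons.injEq] at h
    intro m hm
    rcases Nat.lt_succ_iff_lt_or_eq.1 hm with h' | h'
    · exact ih h.2 m h'
    · subst h'; exact h.1

def Good (f : Y → ℝ) : Prop :=
  (∀ t, Tendsto (fun j => f (Y.d (j :: t))) atTop (𝓝 (f (Y.k t)))) ∧
    ∀ x, Tendsto (fun n => f (Y.d (br x n))) atTop (𝓝 (f Y.p))

def ev (y : Y) : {f : Y → ℝ // Good f} → ℝ := fun f => f.1 y

instance : TopologicalSpace Y := TopologicalSpace.induced ev inferInstance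

lemma ev_ind : IsInducing ev := ⟨rfl⟩

lemma good_cont {f : Y → ℝ} (hf : Good f) : Continuous f :=
  (continuous_apply (⟨f, hf⟩ : {f : Y → ℝ // Good f})).comp ev_ind.continuous

lemma tend_k (t : List ℕ) : Tendsto (fun j => Y.d (j :: t)) atTop (𝓝 (Y.k t)) := by
  rw [ev_ind.tendsto_nhds_iff, tendsto_pi_nhds]
  intro f
  exact f.2.1 t

lemma tend_p (x : ℕ → ℕ) : Tendsto (fun n => Y.d (br x n)) atTop (𝓝 Y.p) := by
  rw [ev_ind.tendsto_nhds_iff, tendsto_pi_nhds]
  intro f
  exact f.2.2 x

lemma clopen_of (C : Set Y) (h1 : ∀ t, ∀ᶠ j in atTop, (Y.d (j :: t) ∈ C ↔ Y.k t ∈ C))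
    (h2 : ∀ x, ∀ᶠ n in atTop, Y.d (br x n) ∉ C) (h3 : Y.p ∉ C) : IsClopen C := by
  classical
  have hg : Good (fun y => if y ∈ C then 1 else 0) := by
    constructor
    · intro t
      refine tendsto_const_nhds.congr' ?_
      filter_upwards [h1 t] with j hj
      simp only [hj]
    · intro x
      refine tendsto_const_nhds.congr' ?_
      filter_upwards [h2 x] with j hj
      simp only [hj, h3]
  have hc := good_cont hg
  constructor
  · have : C = (fun y => if y ∈ C then (1 : ℝ) else 0) ⁻¹' {1} := by
      ext y; by_cases hy : y ∈ C <;> simp [hy]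
    rw [this]; exact isClosed_singleton.preimage hc
  · have : C = (fun y => if y ∈ C then (1 : ℝ) else 0) ⁻¹' {0}ᶜ := by
      ext y; by_cases hy : y ∈ C <;> simp [hy]
    rw [this]; exact isClosed_singleton.isOpen_compl.preimage hc

lemma clopen_d (s : List ℕ) : IsClopen ({Y.d s} : Set Y) := by
  apply clopen_of
  · intro t
    filter_upwards [eventually_gt_atTop s.headI] with j hj
    simp only [mem_singleton_iff, Y.d.injEq, reduceCtorEq, iff_false]
    rintro rfl
    simp at hj
  · intro x
    filter_upwards [eventually_gt_atTop s.length] with n hn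
    simp only [mem_singleton_iff, Y.d.injEq]
    rintro rfl
    simp [br_len] at hn
  · simp

/-- star of a set of nodes -/
def star (B : Set (List ℕ)) : Set Y := {y | ∃ t ∈ B, y = Y.k t ∨ ∃ j, y = Y.d (j :: t)}

lemma clopen_star (B : Set (List ℕ)) (hB : ∀ x, ∀ᶠ n in atTop, br x n ∉ B) :
    IsClopen (star B) := by
  apply clopen_of
  · intro t
    refine Eventually.of_forall fun j => ?_
    simp [star]
  · intro x
    obtain ⟨N, hN⟩ := eventually_atTop.1 (hB x)
    filter_upwards [eventually_gt_atTop N] with n hn
    obtain ⟨m, rfl⟩ : ∃ m, n = m + 1 := ⟨n - 1, by omega⟩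
    simp only [star, br, mem_setOf_eq, reduceCtorEq, Y.d.injEq, List.cons.injEq, false_or]
    rintro ⟨t, ht, j, -, rfl⟩
    exact hN m (by omega) ht
  · simp [star]

lemma clopen_star1 (t : List ℕ) : IsClopen (star {t}) := by
  apply clopen_star
  intro x
  filter_upwards [eventually_gt_atTop t.length] with n hn
  simp only [mem_singleton_iff]
  rintro rfl
  simp [br_len] at hn

/-- punctured star of a branch -/
def bstar (x : ℕ → ℕ) : Set Y :=
  {y | ∃ n, y = Y.k (br x n) ∨ ∃ j, j ≠ x n ∧ y = Y.d (j :: br x n)}

lemma br_inj {x y : ℕ → ℕ} {n m : ℕ} (h : br x n = br y m) : n = m := by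
  have := congrArg List.length h
  simpa [br_len] using this

lemma clopen_bstar (x : ℕ → ℕ) : IsClopen (bstar x) := by
  apply clopen_of
  · intro t
    filter_upwards [eventually_gt_atTop (x t.length)] with j hj
    simp only [bstar, mem_setOf_eq, reduceCtorEq, Y.d.injEq, List.cons.injEq, false_or,
      Y.k.injEq, and_false, exists_false, or_false]
    constructor
    · rintro ⟨n, j', -, -, h⟩; exact ⟨n, h⟩
    · rintro ⟨n, rfl⟩
      refine ⟨n, j, ?_, rfl, rfl⟩
      rw [br_len] at hj; omega
  · intro y
    by_cases hxy : ∀ n, x n = y n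
    · refine Eventually.of_forall fun n => ?_
      simp only [bstar, mem_setOf_eq, reduceCtorEq, Y.d.injEq, false_or]
      rintro ⟨m, j, hj, h⟩
      cases n with
      | zero => simp [br] at h
      | succ n =>
        simp only [br, List.cons.injEq] at h
        have := br_inj h.2
        subst this
        exact hj (h.1.symm.trans (hxy n).symm)
    · push Not at hxy
      obtain ⟨N, hN⟩ := hxy
      filter_upwards [eventually_gt_atTop (N + 1)] with n hn
      simp only [bstar, mem_setOf_eq, reduceCtorEq, Y.d.injEq, false_or]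
      rintro ⟨m, j, hj, h⟩
      cases n with
      | zero => simp [br] at h
      | succ n =>
        simp only [br, List.cons.injEq] at h
        have := br_inj h.2
        subst this
        exact hN (br_eq h.2 N (by omega)).symm
  · simp [bstar]

lemma sep_of {a b : Y} {C : Set Y} (hC : IsClopen C) (ha : a ∈ C) (hb : b ∉ C) :
    ¬ Inseparable a b := fun h => hb ((h.mem_open_iff hC.isOpen).1 ha)

instance : T0Space Y := by
  refine ⟨fun a b h => ?_⟩
  by_contra hab
  cases a with
  | d s => exact sep_of (clopen_d s) rfl (fun h' => hab h'.symm) h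
  | k t =>
    cases b with
    | d s => exact sep_of (clopen_d s) rfl (fun h' => hab h') h.symm
    | k s =>
      refine sep_of (clopen_star1 t) ⟨t, rfl, Or.inl rfl⟩ ?_ h
      simp only [star, mem_singleton_iff, mem_setOf_eq, Y.k.injEq, reduceCtorEq, exists_false,
        or_false, exists_eq_left]
      rintro rfl; exact hab rfl
    | p => exact sep_of (clopen_star1 t) ⟨t, rfl, Or.inl rfl⟩ (by simp [star]) h
  | p =>
    cases b with
    | d s => exact sep_of (clopen_d s) rfl (fun h' => hab h') h.symm
    | k t => exact sep_of (clopen_star1 t) ⟨t, rfl, Or.inl rfl⟩ (by simp [star]) h.symm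
    | p => exact hab rfl

instance : CompletelyRegularSpace Y := ev_ind.completelyRegularSpace

instance : T35Space Y where

lemma seqClosed_K : IsSeqClosed (range Y.k) := by
  intro u y hu hy
  choose t ht using hu
  cases y with
  | k s => exact ⟨s, rfl⟩
  | d s =>
    have := hy.eventually ((clopen_d s).isOpen.mem_nhds rfl)
    obtain ⟨n, hn⟩ := this.exists
    have hn' : u n = Y.d s := hn
    rw [← ht n] at hn'
    simp at hn'
  | p =>
    exfalso
    by_cases hB : ∀ x, ∀ᶠ n in atTop, br x n ∉ range t
    · have h1 : (star (range t))ᶜ ∈ 𝓝 Y.p :=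
        (clopen_star _ hB).isClosed.isOpen_compl.mem_nhds (by simp [star])
      obtain ⟨n, hn⟩ := (hy.eventually h1).exists
      exact hn ⟨t n, ⟨n, rfl⟩, Or.inl (ht n).symm⟩
    · push Not at hB
      obtain ⟨x, hx⟩ := hB
      have h1 : (bstar x)ᶜ ∈ 𝓝 Y.p :=
        (clopen_bstar x).isClosed.isOpen_compl.mem_nhds (by simp [bstar])
      obtain ⟨N, hN⟩ := eventually_atTop.1 (hy.eventually h1)
      obtain ⟨M, hM⟩ : ∃ M, ∀ n < N, (t n).length < M :=
        ⟨(Finset.range N).sup (fun n => (t n).length) + 1, fun n hn =>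
          Nat.lt_succ_of_le (Finset.le_sup (f := fun n => (t n).length) (Finset.mem_range.2 hn))⟩
      obtain ⟨m, ⟨n, hn⟩, hm⟩ := (hx.and_eventually (eventually_ge_atTop M)).exists
      have hnN : N ≤ n := by
        by_contra hlt
        have := hM n (by omega)
        rw [hn, br_len] at this
        omega
      exact hN n hnN ⟨m, Or.inl (by rw [← ht n, hn])⟩

lemma p_mem_closure : Y.p ∈ closure (range Y.k) := by
  by_contra hp
  have h1 : (closure (range Y.k))ᶜ ∈ 𝓝 Y.p := isClosed_closure.isOpen_compl.mem_nhds hp
  obtain ⟨C, hC, hCc, hCs⟩ := exists_mem_nhds_isClosed_subset h1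
  have h2 : ∀ t, ∃ j, Y.d (j :: t) ∉ C := by
    intro t
    have : Cᶜ ∈ 𝓝 (Y.k t) :=
      hCc.isOpen_compl.mem_nhds fun h => hCs h (subset_closure ⟨t, rfl⟩)
    exact ((tend_k t).eventually this).exists
  choose φ hφ using h2
  let s : ℕ → List ℕ := fun n => Nat.rec [] (fun _ l => φ l :: l) n
  let x : ℕ → ℕ := fun n => φ (s n)
  have hs : ∀ n, br x n = s n := by
    intro n
    induction n with
    | zero => rfl
    | succ n ih => simp only [br, ih]; rfl
  obtain ⟨N, hN⟩ := eventually_atTop.1 ((tend_p x).eventually hC)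
  have := hN (N + 1) (by omega)
  simp only [br, hs] at this
  exact hφ _ this

lemma not_seq : ¬ SequentialSpace Y := by
  intro h
  have := seqClosed_K.isClosed
  have h2 := p_mem_closure
  rw [this.closure_eq] at h2
  simp at h2

lemma cont_of_seq {Z : Type} [TopologicalSpace Z] [CompletelyRegularSpace Z] (f : Y → Z)
    (hf : SeqContinuous f) : Continuous f := by
  rw [continuous_iff_continuousAt]
  intro y U hU
  obtain ⟨V, hVU, hVo, hyV⟩ := mem_nhds_iff.1 hU
  obtain ⟨g, hg, hg0, hg1⟩ := CompletelyRegularSpace.completely_regular (f y) Vᶜ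
    hVo.isClosed_compl (fun h => h hyV)
  have hgc : Continuous (fun z => (g z : ℝ)) := continuous_subtype_val.comp hg
  have hgood : Good (fun w => (g (f w) : ℝ)) :=
    ⟨fun t => (hgc.tendsto _).comp (hf (tend_k t)), fun x => (hgc.tendsto _).comp (hf (tend_p x))⟩
  have h1 : (fun w => (g (f w) : ℝ)) ⁻¹' (Iio 1) ∈ 𝓝 y :=
    (isOpen_Iio.preimage (good_cont hgood)).mem_nhds (by simp [hg0])
  refine mem_map.2 (mem_of_superset h1 fun w hw => hVU ?_)
  by_contra hn
  have := hg1 (show f w ∈ Vᶜ from hn)
  simp only [mem_preimage, mem_Iio] at hw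
  rw [this] at hw
  simp at hw

lemma key {G : Type} [Group G] (i : Y → G) :
    (GroupTopology.coinduced i) = sInf {t : GroupTopology G |
      ∀ u ∈ {u : ℕ → G | Tendsto u atTop (@nhds _ (GroupTopology.coinduced i).toTopologicalSpace 1)},
        Tendsto u atTop (@nhds _ t.toTopologicalSpace 1)} := by
  apply le_antisymm
  · apply le_sInf
    intro t ht
    apply sInf_le
    have hs : @SeqContinuous Y G _ t.toTopologicalSpace i := by
      intro u y hu
      have h1 : Tendsto (fun n => i (u n) * (i y)⁻¹) atTop
          (@nhds _ (GroupTopology.coinduced i).toTopologicalSpace 1) := by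
        letI := (GroupTopology.coinduced i).toTopologicalSpace
        haveI := (GroupTopology.coinduced i).toIsTopologicalGroup
        have := (((GroupTopology.coinduced_continuous i).tendsto y).comp hu).mul_const (i y)⁻¹
        simpa using this
      have h2 := ht _ h1
      letI := t.toTopologicalSpace
      haveI := t.toIsTopologicalGroup
      have := h2.mul_const (i y)
      simpa [Function.comp_def] using this
    letI := t.toTopologicalSpace
    haveI := t.toIsTopologicalGroup
    letI : UniformSpace G := IsTopologicalGroup.rightUniformSpace G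
    exact continuous_iff_coinduced_le.1 (cont_of_seq i hs)
  · exact sInf_le fun u hu => hu

/-- The negation of the preceding statement: For every Tychonoff space X with base point x₀, if the Graev free topological group F(X) is an s-group (its topology is the finest group topology making some set of its null sequences converge to 1), then X is sequential. -/
theorem result :
    ¬ (∀ (X : Type) [TopologicalSpace X] [T35Space X] (x₀ : X)
    (τ : TopologicalSpace
      (FreeGroup X ⧸ Subgroup.normalClosure ({FreeGroup.of x₀} : Set (FreeGroup X)))),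
    τ = (GroupTopology.coinduced
          (fun x : X => (QuotientGroup.mk (FreeGroup.of x) :
            FreeGroup X ⧸ Subgroup.normalClosure ({FreeGroup.of x₀} : Set (FreeGroup X))))).toTopologicalSpace →
    (∃ S : Set (ℕ → FreeGroup X ⧸ Subgroup.normalClosure ({FreeGroup.of x₀} : Set (FreeGroup X))),
      (∀ u ∈ S, Filter.Tendsto u Filter.atTop (@nhds _ τ 1)) ∧
      τ = (sInf {t : GroupTopology
              (FreeGroup X ⧸ Subgroup.normalClosure ({FreeGroup.of x₀} : Set (FreeGroup X))) |
              ∀ u ∈ S, Filter.Tendsto u Filter.atTop (@nhds _ t.toTopologicalSpace 1)}).toTopologicalSpace) →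
    SequentialSpace X) := by
  intro h
  refine not_seq (h Y Y.p _ rfl ⟨_, fun u hu => hu, ?_⟩)
  exact congrArg GroupTopology.toTopologicalSpace (key _)

end Pool.Agent.S13000
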