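import Pool.Statements.S13032
import Pool.Agent.H28.ADup
import Pool.Agent.H28.FreeAct

set_option autoImplicit false
open Pool Pool.MP_3a0f08_gt

namespace Pool.Agent.S13032
open Set Topology Pool.Agent.H28 Pool.Agent.H28.GenSL in
lemma exists_psi {Y K : Type} [TopologicalSpace Y] [CompactSpace Y] [T2Space Y] [Group K]
    [TopologicalSpace K] [CompactSpace K] [T2Space K] [IsTopologicalGroup K]
    (y0 : Y) (V : ℕ → Set Y) (hV0 : V 0 = univ) (hVa : Antitone V) (hVc : ∀ n, IsClopen (V n))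
    (hV : ∀ x, (∀ k, x ∈ V k) ↔ x = y0) (N : ℕ → Subgroup K) (hN0 : N 0 = ⊤) (hNa : Antitone N)
    (hNc : ∀ n, IsClopen (N n : Set K)) (hN : ∀ a, (∀ n, a ∈ N n) → a = 1)
    (m : ℕ → K) (hm : ∀ n, m n ∈ N (n + 1)) :
    ∃ ψ : (Y × K) ≃ₜ (Y × K), ψ (y0, 1) = (y0, 1) ∧
      ∀ x, x ≠ (y0, 1) → ∃ n, (ψ x).2 = m n * x.2 := by
  classical
  let W : ℕ → Set (Y × K) := fun n => V n ×ˢ (N n : Set K)
  have hWa : Antitone W := fun a b h x hx => ⟨hVa h hx.1, hNa h hx.2⟩
  have hWc : ∀ n, IsClopen (W n) := fun n => (hVc n).prod (hNc n)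
  have hW : ∀ x, (∀ n, x ∈ W n) ↔ x = (y0, 1) := fun x =>
    ⟨fun h => Prod.ext ((hV _).1 fun n => (h n).1) (hN _ fun n => (h n).2), fun h n => by
      rw [h]; exact ⟨(hV _).2 rfl n, one_mem _⟩⟩
  have hex : ∀ x, x ≠ (y0, 1) → ∃ n, x ∈ W n \ W (n + 1) := fun x hx => by
    have h : ∃ n, x ∉ W (n + 1) := by
      by_contra hne
      push Not at hne
      exact hx ((hW x).1 fun n => hWa (Nat.le_succ n) (hne n))
    refine ⟨Nat.find h, ?_, Nat.find_spec h⟩
    rcases e : Nat.find h with _ | k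
    · exact ⟨by rw [hV0]; trivial, by rw [hN0]; trivial⟩
    · by_contra hne
      exact Nat.find_min h (show k < Nat.find h by omega) hne
  have huniq : ∀ x n n', x ∈ W n \ W (n + 1) → x ∈ W n' \ W (n' + 1) → n = n' := by
    intro x n n' h h'
    rcases lt_trichotomy n n' with hl | hl | hl
    · exact absurd (hWa hl h'.1) h.2
    · exact hl
    · exact absurd (hWa hl h.1) h'.2
  let f : (ℕ → K) → Y × K → Y × K := fun u x =>
    (x.1, (if h : ∃ n, x ∈ W n \ W (n + 1) then u h.choose else 1) * x.2)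
  have hf0 : ∀ u, f u (y0, 1) = (y0, 1) := fun u => by
    have : ¬ ∃ n, ((y0, 1) : Y × K) ∈ W n \ W (n + 1) := fun ⟨n, h⟩ => h.2 ((hW _).2 rfl _)
    simp only [f, dif_neg this, mul_one]
  have hf1 : ∀ u x n, x ∈ W n \ W (n + 1) → f u x = (x.1, u n * x.2) := fun u x n h => by
    have h' : ∃ n, x ∈ W n \ W (n + 1) := ⟨n, h⟩
    simp only [f, dif_pos h', huniq x _ _ h'.choose_spec h]
  have hf2 : ∀ u : ℕ → K, (∀ n, u n ∈ N (n + 1)) → ∀ x n, x ∈ W n \ W (n + 1) →
      f u x ∈ W n \ W (n + 1) := fun u hu x n h => by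
    rw [hf1 u x n h]
    refine ⟨⟨h.1.1, mul_mem (hNa (Nat.le_succ n) (hu n)) h.1.2⟩, fun h' => h.2 ⟨h'.1, ?_⟩⟩
    exact (Subgroup.mul_mem_cancel_left _ (hu n)).1 h'.2
  have hinv : ∀ u v : ℕ → K, (∀ n, u n ∈ N (n + 1)) → (∀ n, v n * u n = 1) → ∀ x,
      f v (f u x) = x := fun u v hu huv x => by
    by_cases hx : x = (y0, 1)
    · rw [hx, hf0, hf0]
    · obtain ⟨n, hn⟩ := hex x hx
      rw [hf1 v _ n (hf2 u hu x n hn), hf1 u x n hn]
      simp only [← mul_assoc, huv, one_mul]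
  have hcont : ∀ u : ℕ → K, (∀ n, u n ∈ N (n + 1)) → Continuous (f u) := fun u hu => by
    refine continuous_iff_continuousAt.2 fun x => ?_
    by_cases hx : x = (y0, 1)
    · rw [hx, ContinuousAt, hf0]
      intro O hO
      obtain ⟨n, hn⟩ := exists_subset_nhds_of_compactSpace (V := W) (U := O)
        (hWa.directed_ge) (fun n => (hWc n).isClosed) (fun z hz => by
          rw [(hW z).1 (mem_iInter.1 hz)]; exact hO)
      refine Filter.mem_map.2 <| Filter.mem_of_superset ((hWc n).isOpen.mem_nhds ((hW _).2 rfl n)) fun z hz => hn ?_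
      by_cases hz0 : z = (y0, 1)
      · rw [hz0, hf0]; exact (hW _).2 rfl n
      · obtain ⟨k, hk⟩ := hex z hz0
        have : n ≤ k := by
          by_contra hlt
          exact hk.2 (hWa (by omega) hz)
        exact hWa this (hf2 u hu z k hk).1
    · obtain ⟨n, hn⟩ := hex x hx
      have hc : Continuous fun z : Y × K => (z.1, u n * z.2) := by fun_prop
      refine hc.continuousAt.congr ?_
      filter_upwards [((hWc n).diff (hWc (n + 1))).isOpen.mem_nhds hn] with z hz
      exact (hf1 u z n hz).symm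
  have hm' : ∀ n, (m n)⁻¹ ∈ N (n + 1) := fun n => inv_mem (hm n)
  refine ⟨⟨⟨f m, f fun n => (m n)⁻¹, hinv _ _ hm fun n => inv_mul_cancel _,
    hinv _ _ hm' fun n => mul_inv_cancel _⟩, hcont _ hm, hcont _ hm'⟩, hf0 m, fun x hx => ?_⟩
  obtain ⟨n, hn⟩ := hex x hx
  exact ⟨n, congrArg Prod.snd (hf1 m x n hn)⟩

open Set Topology Pool.Agent.H28 Pool.Agent.H28.GenSL Pool.Agent.H28.ADup Cardinal in
open scoped PowerSeries.WithPiTopology in
lemma exists_group : ∃ G : Subgroup (((ℕ → ZZ) × KK) ≃ₜ ((ℕ → ZZ) × KK)), ∃ p0,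
    (∀ a ∈ G, ∀ x, a x = x → a = 1) ∧ ∀ p, ∃ a ∈ G, a p0 = p := by
  let y0 : ℕ → ZZ := fun _ => non fun _ => true
  obtain ⟨V, hV0, hVa, hVc, hV⟩ := exists_V filt y0
  obtain ⟨G, h⟩ := FreeAct.exists_regular (X := (ℕ → ZZ) × KK) Prod.snd (by
      rw [mk_prod, lift_id, lift_id]
      exact (mul_le_mul' card_Y card_KK).trans continuum_mul_self.le) (y0, 1) rfl
    (fun m => ∀ n, m n ∈ NN (n + 1)) gen_KK (fun m hm p => by
      obtain ⟨ψ, h0, h1⟩ := exists_psi y0 V hV0 hVa hVc hV NN NN_zero NN_anti NN_clopen NN_inter m hm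
      obtain ⟨h, hh⟩ := homog filt y0 p.1
      refine ⟨ψ.trans (h.prodCongr (Homeomorph.mulLeft p.2)), ?_, fun x hx => ?_⟩
      · rw [Homeomorph.trans_apply, h0]
        exact Prod.ext hh (mul_one _)
      · obtain ⟨n, hn⟩ := h1 x hx
        refine ⟨n, ?_⟩
        change p.2 * (ψ x).2 = _
        rw [hn, mul_assoc])
  exact ⟨G, _, h⟩

lemma of_regular {X : Type} [TopologicalSpace X] (G : Subgroup (X ≃ₜ X)) (p0 : X)
    (h1 : ∀ a ∈ G, ∀ x, a x = x → a = 1) (h2 : ∀ p, ∃ a ∈ G, a p0 = p) :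
    ∃ _ : Group X, ∀ g : X, Continuous fun x : X => g * x := by
  have hb : Function.Bijective fun a : G => a.1 p0 := by
    refine ⟨fun a b h => ?_, fun p => ?_⟩
    · have := h1 _ (mul_mem (inv_mem b.2) a.2) p0 (by
        rw [Homeomorph.mul_apply, show a.1 p0 = b.1 p0 from h]; simp)
      exact Subtype.ext (inv_mul_eq_one.1 this).symm
    · obtain ⟨a, ha, h⟩ := h2 p
      exact ⟨⟨a, ha⟩, h⟩
  let e : G ≃ X := Equiv.ofBijective _ hb
  refine ⟨e.symm.group, fun g => ?_⟩
  have : ∀ x, e (e.symm g * e.symm x) = (e.symm g).1 x := fun x => by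
    change (e.symm g).1 (e (e.symm x)) = _
    rw [Equiv.apply_symm_apply]
  exact (e.symm g).1.continuous.congr fun x => (this x).symm

open Pool.Agent.H28.GenSL Pool.Agent.H28.ADup in
open scoped PowerSeries.WithPiTopology in
lemma final : ∃ (X : Type) (_ : Group X) (_ : TopologicalSpace X) (_ : CompactSpace X)
    (_ : T2Space X), (∀ g : X, Continuous fun x : X => g * x) ∧ ∃ U : (ℕ → Bool) → Set X,
      (∀ c, IsOpen (U c) ∧ (U c).Nonempty) ∧ Pairwise (Function.onFun Disjoint U) := by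
  obtain ⟨G, p0, h1, h2⟩ := exists_group
  obtain ⟨inst, h⟩ := of_regular G p0 h1 h2
  refine ⟨(ℕ → ZZ) × KK, inst, inferInstance, inferInstance, inferInstance, h,
    fun c => (fun x => x.1 0) ⁻¹' {iso ⟨c, 0⟩}, fun c => ⟨?_, ⟨(fun _ => iso ⟨c, 0⟩, p0.2), rfl⟩⟩,
    fun c c' hne => Set.disjoint_left.2 fun x hx hx' => hne ?_⟩
  · exact (isOpen_iso _).preimage ((continuous_apply 0).comp continuous_fst)
  · exact congrArg D.c (iso_inj (hx.symm.trans hx'))


/-- The negation of the preceding statement: Every compact Hausdorff group whose left translations are continuous carries a Borel probability measure giving positive measure to every nonempty open set. -/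
theorem result :
    ¬ (∀ (G : Type) [Group G] [TopologicalSpace G] [CompactSpace G] [T2Space G]
      [MeasurableSpace G] [BorelSpace G],
      (∀ g : G, Continuous (fun x : G => g * x)) →
      ∃ μ : MeasureTheory.Measure G, MeasureTheory.IsProbabilityMeasure μ ∧
        ∀ U : Set G, IsOpen U → U.Nonempty → 0 < μ U) := by
  intro H
  obtain ⟨X, _, _, _, _, h, U, hU, hd⟩ := final
  letI : MeasurableSpace X := borel X
  haveI : BorelSpace X := ⟨rfl⟩
  obtain ⟨μ, hμ, hpos⟩ := H X h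
  have := MeasureTheory.Measure.countable_meas_pos_of_disjoint_iUnion (μ := μ)
    (fun c => (hU c).1.measurableSet) hd
  have h2 : {c | 0 < μ (U c)} = Set.univ :=
    Set.eq_univ_of_forall fun c => hpos _ (hU c).1 (hU c).2
  rw [h2, Set.countable_univ_iff, ← Cardinal.mk_le_aleph0_iff] at this
  have h3 : Cardinal.mk (ℕ → Bool) = Cardinal.continuum := by simp
  rw [h3] at this
  exact Cardinal.aleph0_lt_continuum.not_ge this

end Pool.Agent.S13032
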