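import Pool.Statements.S13052
-- import your own Pool.Agent.* helpers here

set_option autoImplicit false
open Pool Pool.MP_3dcd8c_gt

namespace Pool.Agent.S13052

open Set Cardinal Topology PiNat

abbrev F := Set ℝ × (ℕ → ℝ)

def nd (f : F) (k : ℕ) : Set ℝ × List ℝ := (f.1, res f.2 k)

theorem nd_len (f : F) (k : ℕ) : (nd f k).2.length = k := res_length _ _

theorem nd_mono {f g : F} {k m : ℕ} (h : nd g k = nd f k) (hm : m ≤ k) : nd g m = nd f m := by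
  simp only [nd, Prod.mk.injEq, res_eq_res] at h ⊢
  exact ⟨h.1, fun i hi => h.2 (hi.trans_le hm)⟩

theorem nd_val {f g : F} {k : ℕ} (h : nd g (k + 1) = nd f (k + 1)) : g.2 k = f.2 k := by
  simp only [nd, Prod.mk.injEq, res_eq_res] at h
  exact h.2 k.lt_succ_self

theorem lev (Q : Set ℝ × List ℝ → Prop) (h : ∀ f, ∃ k, Q (nd f k)) : ∃ n : F → ℕ,
    (∀ f, Q (nd f (n f))) ∧ ∀ f g, nd g (n f + 1) = nd f (n f + 1) → n g = n f := by
  classical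
  refine ⟨fun f => Nat.find (h f), fun f => Nat.find_spec (h f), fun f g e => ?_⟩
  rw [Nat.find_eq_iff, nd_mono e (Nat.le_succ _)]
  exact ⟨Nat.find_spec (h f), fun m hm => nd_mono e (hm.le.trans (Nat.le_succ _)) ▸
    Nat.find_min (h f) hm⟩

def Small (A : Set F) : Prop := ∃ C : Set ℝ × List ℝ → Set ℝ, (∀ l, (C l).Countable) ∧
  ∀ f ∈ A, ∃ k, f.2 k ∈ C (nd f k)

theorem avoid {ι : Type} {s : Set ι} (hs : s.Countable) (A : ι → Set F) (hA : ∀ i, Small (A i))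
    (α : Set ℝ) : ∃ x, ∀ i ∈ s, (α, x) ∉ A i := by
  choose C hC hC' using hA
  have : ∀ l, ∃ ξ, ξ ∉ ⋃ i ∈ s, C i (α, l) := fun l => by
    by_contra h
    push Not at h
    exact not_countable_real ((hs.biUnion fun i _ => hC i (α, l)).mono fun ξ _ => h ξ)
  choose ξ hξ using this
  let l : ℕ → List ℝ := fun k => Nat.rec [] (fun _ l => ξ l :: l) k
  have hl : ∀ k, res (fun k => ξ (l k)) k = l k := fun k => by
    induction k with
    | zero => rfl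
    | succ k ih => rw [res_succ, ih]
  refine ⟨fun k => ξ (l k), fun i hi h => ?_⟩
  obtain ⟨k, hk⟩ := hC' i _ h
  simp only [nd, hl] at hk
  exact hξ (l k) (mem_biUnion hi hk)

def P := {φ : F → Set F // (∀ f, ∃ k, ∀ g, nd g k = nd f k → φ g = φ f) ∧ Small {f | φ f ≠ ∅}}

def chi (f : F) (k : ℕ) (s : Set F) : P :=
  ⟨fun g => {t | nd g (k + 1) = nd f (k + 1) ∧ t ∈ s}, fun g => ⟨k + 1, fun h e => by simp only [e]⟩,
    fun _ => {f.2 0}, fun _ => countable_singleton _, fun g hg => ⟨0, by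
      obtain ⟨t, ht⟩ := nonempty_iff_ne_empty.2 hg
      exact nd_val (nd_mono ht.1 (by omega))⟩⟩

theorem chi_ne {f g : F} {k : ℕ} : (chi f k univ).1 g ≠ ∅ ↔ nd g (k + 1) = nd f (k + 1) := by
  simp [chi, ← nonempty_iff_ne_empty, Set.Nonempty]

inductive X
  | inl (f : F)
  | inr (p : {p : P → Set F // {φ | p φ ≠ ∅}.Finite})

open X

def ev : X → P → Set F
  | inl f, φ => φ.1 f
  | inr p, φ => p.1 φ

def N (f : F) (η : Set P) : Set X := {x | ∀ φ ∈ η, ev x φ = φ.1 f}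

instance : TopologicalSpace X where
  IsOpen U := ∀ f, inl f ∈ U → ∃ η : Set P, η.Finite ∧ N f η ⊆ U
  isOpen_univ := fun _ _ => ⟨∅, finite_empty, subset_univ _⟩
  isOpen_inter := fun U V hU hV f hf => by
    obtain ⟨η, h1, h2⟩ := hU f hf.1
    obtain ⟨η', h3, h4⟩ := hV f hf.2
    exact ⟨η ∪ η', h1.union h3, fun x hx =>
      ⟨h2 fun φ h => hx φ (Or.inl h), h4 fun φ h => hx φ (Or.inr h)⟩⟩
  isOpen_sUnion := fun S hS f ⟨U, hU, hf⟩ => by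
    obtain ⟨η, h1, h2⟩ := hS U hU f hf
    exact ⟨η, h1, h2.trans (subset_sUnion_of_mem hU)⟩

theorem op {U : Set X} : IsOpen U ↔ ∀ f, inl f ∈ U → ∃ η : Set P, η.Finite ∧ N f η ⊆ U := Iff.rfl

theorem op_ev (φ : P) (Q : Set F → Prop) : IsOpen {x | Q (ev x φ)} :=
  fun f hf => ⟨{φ}, finite_singleton _, fun x hx => by
    show Q (ev x φ)
    rw [hx φ rfl]
    exact hf⟩

theorem op_iso {U : Set X} (h : ∀ f, inl f ∉ U) : IsOpen U := fun f hf => (h f hf).elim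

theorem clopen_N (f : F) {η : Set P} (h : η.Finite) : IsClopen (N f η) := by
  have : N f η = ⋂ φ ∈ η, {x | ev x φ = φ.1 f} := by ext; simp [N]
  rw [this]
  exact h.isClopen_biInter fun φ _ => ⟨⟨op_ev φ (· ≠ φ.1 f)⟩, op_ev φ (· = φ.1 f)⟩

theorem mem_N (f : F) (η : Set P) : inl f ∈ N f η := fun _ _ => rfl

theorem base {U : Set X} {f : F} (h : U ∈ 𝓝 (inl f : X)) : ∃ η : Set P, η.Finite ∧ N f η ⊆ U := by
  obtain ⟨V, h1, h2, h3⟩ := mem_nhds_iff.1 h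
  obtain ⟨η, h4, h5⟩ := h2 f h3
  exact ⟨η, h4, h5.trans h1⟩

theorem base' {U : Set X} {f : F} (h : U ∈ 𝓝 (inl f : X)) :
    ∃ k, ∀ g, nd g k = nd f k → inl g ∈ U := by
  obtain ⟨η, h1, h2⟩ := base h
  choose k hk using fun φ : P => φ.2.1 f
  obtain ⟨m, hm⟩ := (h1.image k).bddAbove
  exact ⟨m, fun g hg => h2 fun φ h => hk φ g (nd_mono hg (hm (mem_image_of_mem _ h)))⟩

theorem cl_inr (p) : IsClosed ({inr p} : Set X) := ⟨fun f _ => by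
  haveI : Infinite F := Prod.infinite_of_right
  have hi : Function.Injective fun t : F => chi f 0 {t} := fun s t h => by
    simpa [chi] using congrArg (fun φ : P => s ∈ φ.1 f) h
  obtain ⟨t, ht⟩ := (p.2.preimage hi.injOn).exists_notMem
  refine ⟨{chi f 0 {t}}, finite_singleton _, fun x hx h => ht ?_⟩
  obtain rfl : x = inr p := h
  have : p.1 (chi f 0 {t}) = _ := hx _ rfl
  exact fun h => (this.symm.trans h).subset (show t ∈ _ from ⟨rfl, rfl⟩)⟩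

instance : T1Space X := ⟨fun x => by
  rcases x with f | p
  · refine ⟨fun g hg => ?_⟩
    have : ∃ k, nd f (k + 1) ≠ nd g (k + 1) := by
      by_contra h
      push Not at h
      exact hg (congrArg inl (Prod.ext (congrArg Prod.fst (h 0)).symm
        (funext fun k => (nd_val (h k)).symm)))
    obtain ⟨k, hk⟩ := this
    refine ⟨{chi g k univ}, finite_singleton _, fun x hx h => hk (chi_ne.1 ?_)⟩
    obtain rfl : x = inl f := h
    exact (hx _ rfl).trans_ne (chi_ne.2 rfl)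
  · exact cl_inr p⟩

instance : RegularSpace X := .of_exists_mem_nhds_isClosed_subset fun x U hU => by
  rcases x with f | p
  · obtain ⟨η, h1, h2⟩ := base hU
    exact ⟨_, (clopen_N f h1).2.mem_nhds (mem_N f η), (clopen_N f h1).1, h2⟩
  · exact ⟨{inr p}, (op_iso (by simp)).mem_nhds rfl, cl_inr p,
      singleton_subset_iff.2 (mem_of_mem_nhds hU)⟩

instance : T3Space X := {}

theorem lind {A : Set X} (hA : IsLindelof A) : {ξ | ∃ k f, inl f ∈ A ∧ f.2 k = ξ}.Countable := by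
  rw [setOf_exists]
  refine countable_iUnion fun k => ?_
  let U : X → Set X := X.rec (fun f => {x | ev x (chi f k univ) ≠ ∅}) fun p => {inr p}
  obtain ⟨t, h1, -, h2⟩ := hA.elim_nhds_subcover U fun x _ => by
    rcases x with f | p
    · exact (op_ev _ (· ≠ ∅)).mem_nhds (chi_ne.2 rfl)
    · exact (op_iso (by simp [U])).mem_nhds rfl
  refine (h1.image (X.rec (fun f => f.2 k) fun _ => 0)).mono ?_
  rintro _ ⟨f, hf, rfl⟩
  obtain ⟨x, hx, h⟩ := mem_iUnion₂.1 (h2 hf)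
  rcases x with g | p
  · exact ⟨_, hx, (nd_val (chi_ne.1 h)).symm⟩
  · cases h

theorem cwh (𝓕 : Set (Set X)) (h1 : ∀ A ∈ 𝓕, IsClosed A ∧ IsLindelof A)
    (h2 : ∀ x : X, ∃ N ∈ nhds x, {A : Set X | A ∈ 𝓕 ∧ (A ∩ N).Nonempty}.Subsingleton) :
    ∃ U : Set X → Set X, (∀ A ∈ 𝓕, IsOpen (U A) ∧ A ⊆ U A) ∧
      ∀ A ∈ 𝓕, ∀ B ∈ 𝓕, A ≠ B → Disjoint (U A) (U B) := by
  have dis : ∀ A ∈ 𝓕, ∀ B ∈ 𝓕, ∀ x ∈ A, x ∈ B → A = B := fun A hA B hB x hx hx' => by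
    obtain ⟨N, hN, h⟩ := h2 x
    exact h ⟨hA, x, hx, mem_of_mem_nhds hN⟩ ⟨hB, x, hx', mem_of_mem_nhds hN⟩
  let S : Set ℝ × List ℝ → Set (Set X) := fun ρ =>
    {A | A ∈ 𝓕 ∧ ∃ g, nd g ρ.2.length = ρ ∧ inl g ∈ A}
  obtain ⟨n, hn, hn'⟩ := lev (fun ρ => (S ρ).Subsingleton) fun f => by
    obtain ⟨N, hN, h⟩ := h2 (inl f)
    obtain ⟨k, hk⟩ := base' hN
    exact ⟨k, h.anti fun A ⟨hA, g, hg, hg'⟩ => ⟨hA, _, hg', hk g (by rwa [nd_len] at hg)⟩⟩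
  have hS : ∀ f k, S (nd f (k + 1)) ⊆ S (nd f k) := fun f k A ⟨hA, g, hg, hg'⟩ =>
    ⟨hA, g, by rw [nd_len] at hg ⊢; exact nd_mono hg k.le_succ, hg'⟩
  let φ : P := ⟨fun f => {g | ∃ A ∈ S (nd f (n f + 1)), inl g ∈ A},
    fun f => ⟨n f + 1, fun g hg => by simp only [hn' f g hg, hg]⟩,
    fun ρ => {ξ | (S ρ).Subsingleton ∧ ξ ∈ ⋃ A ∈ S ρ, {ξ | ∃ k f, inl f ∈ A ∧ f.2 k = ξ}},
    fun ρ => by
      by_cases h : (S ρ).Subsingleton
      · exact (h.countable.biUnion fun A hA => lind (h1 A hA.1).2).mono fun ξ hξ => hξ.2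
      · simp [h],
    fun f hf => by
      obtain ⟨_, A, hA, -⟩ := nonempty_iff_ne_empty.2 hf
      obtain ⟨g, hg, hg'⟩ := hA.2
      rw [nd_len] at hg
      exact ⟨n f, hn f, mem_biUnion (hS _ _ hA) ⟨n f, g, hg', nd_val hg⟩⟩⟩
  refine ⟨fun A => {x | (∀ B ∈ 𝓕, x ∈ B → B = A) ∧ ((ev x φ = inl ⁻¹' A ∧ ev x φ ≠ ∅) ∨ x ∈ A)},
    fun A hA => ?_, fun A hA B hB hne => disjoint_left.2 ?_⟩
  · have h3 : ∀ f, inl f ∈ A → ev (inl f) φ = inl ⁻¹' A ∧ ev (inl f) φ ≠ ∅ := fun f hf => by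
      have h4 : A ∈ S (nd f (n f + 1)) := ⟨hA, f, by rw [nd_len], hf⟩
      exact ⟨Subset.antisymm (fun g ⟨B, hB, hg⟩ => hn f (hS _ _ hB) (hS _ _ h4) ▸ hg)
        fun g hg => ⟨A, h4, hg⟩, nonempty_iff_ne_empty.1 ⟨f, A, h4, hf⟩⟩
    refine ⟨fun f hf => base ?_, fun x hx => ⟨fun B hB h => dis B hB A hA x h hx, Or.inr hx⟩⟩
    have h5 := (op_ev φ fun s => s = inl ⁻¹' A ∧ s ≠ ∅).mem_nhds (hf.2.elim id (h3 f))
    obtain ⟨N, hN, h⟩ := h2 (inl f)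
    have h6 := h.finite.isClosed_biUnion (f := fun B => B ∩ {_x | B ≠ A}) fun B hB =>
      (h1 B hB.1).1.inter isClosed_const
    filter_upwards [h5, hN, h6.isOpen_compl.mem_nhds fun h => by
      obtain ⟨B, hB, h7⟩ := mem_iUnion₂.1 h
      exact h7.2 (hf.1 B hB.1 h7.1)] with x hx hx' hx''
    exact ⟨fun B hB h => by_contra fun h' => hx'' (mem_biUnion ⟨hB, x, h, hx'⟩ ⟨h, h'⟩), Or.inl hx⟩
  · rintro x ⟨h3, h4 | h4⟩ ⟨h5, h6 | h6⟩
    · obtain ⟨g, hg⟩ := nonempty_iff_ne_empty.2 h4.2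
      exact hne (dis A hA B hB (inl g) (h4.1.subset hg) (h6.1.subset hg))
    · exact hne (h3 B hB h6).symm
    · exact hne (h5 A hA h4)
    · exact hne (h5 A hA h4)

theorem mc (𝒰 : Set (Set X)) (h1 : ∀ U ∈ 𝒰, IsOpen U) (h2 : ⋃₀ 𝒰 = Set.univ) :
    ∃ 𝒱 : Set (Set X), (∀ V ∈ 𝒱, IsOpen V) ∧ ⋃₀ 𝒱 = Set.univ ∧ (∀ V ∈ 𝒱, ∃ U ∈ 𝒰, V ⊆ U) ∧
      ∀ x : X, {V : Set X | V ∈ 𝒱 ∧ x ∈ V}.Finite := by
  have h3 : ∀ x, ∃ U ∈ 𝒰, x ∈ U := fun x => h2.symm.subset (mem_univ x)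
  obtain ⟨n, hn, hn'⟩ := lev (fun ρ => ∃ U ∈ 𝒰, ∀ g, nd g ρ.2.length = ρ → inl g ∈ U) fun f => by
    obtain ⟨U, hU, hf⟩ := h3 (inl f)
    obtain ⟨k, hk⟩ := base' ((h1 U hU).mem_nhds hf)
    exact ⟨k, U, hU, fun g hg => hk g (by rwa [nd_len] at hg)⟩
  have h4 : ∀ φ : P, ∃ U ∈ 𝒰, (∃ f, φ = chi f (n f) univ) → ∀ g, φ.1 g ≠ ∅ → inl g ∈ U := by
    intro φ
    by_cases h : ∃ f, φ = chi f (n f) univ
    · obtain ⟨f, rfl⟩ := h
      obtain ⟨U, hU, h⟩ := hn f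
      exact ⟨U, hU, fun _ g hg => h g (by rw [nd_len]; exact nd_mono (chi_ne.1 hg) (Nat.le_succ _))⟩
    · obtain ⟨U, hU, -⟩ := h3 (inl (∅, 0))
      exact ⟨U, hU, fun h' => (h h').elim⟩
  choose U hU hU' using h4
  let V : P → Set X := fun φ => U φ ∩ {x | ev x φ ≠ ∅}
  refine ⟨range (fun f => V (chi f (n f) univ)) ∪ range (fun p => {inr p}), ?_,
    eq_univ_of_forall ?_, ?_, ?_⟩
  · rintro _ (⟨f, rfl⟩ | ⟨p, rfl⟩)
    · exact (h1 _ (hU _)).inter (op_ev _ (· ≠ ∅))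
    · exact op_iso (by simp)
  · rintro (f | p)
    · exact ⟨_, Or.inl ⟨f, rfl⟩, hU' _ ⟨f, rfl⟩ f (chi_ne.2 rfl), chi_ne.2 rfl⟩
    · exact ⟨_, Or.inr ⟨p, rfl⟩, rfl⟩
  · rintro _ (⟨f, rfl⟩ | ⟨p, rfl⟩)
    · exact ⟨_, hU _, inter_subset_left⟩
    · obtain ⟨U, hU, h⟩ := h3 (inr p)
      exact ⟨U, hU, singleton_subset_iff.2 h⟩
  · rintro (g | p)
    · refine (finite_singleton (V (chi g (n g) univ))).subset ?_
      rintro _ ⟨⟨f, rfl⟩ | ⟨p, rfl⟩, h⟩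
      · have := chi_ne.1 h.2
        simp only [mem_singleton_iff, hn' f g this, chi, this]
      · cases h
    · refine ((p.2.image V).insert {inr p}).subset ?_
      rintro _ ⟨⟨f, rfl⟩ | ⟨q, rfl⟩, h⟩
      · exact Or.inr ⟨_, h.2, rfl⟩
      · exact Or.inl (by rw [show inr p = inr q from h])

theorem notPara (𝒱 : Set (Set X)) (h1 : ∀ V ∈ 𝒱, IsOpen V) (h2 : ⋃₀ 𝒱 = Set.univ)
    (h3 : ∀ V ∈ 𝒱, ∃ α, ∀ f, inl f ∈ V → f.1 = α)
    (h4 : ∀ x : X, ∃ N ∈ nhds x, {V : Set X | V ∈ 𝒱 ∧ (V ∩ N).Nonempty}.Countable) : False := by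
  classical
  choose! a ha using h3
  choose V hV hV' using fun x => (h2.symm.subset (mem_univ x) : ∃ V ∈ 𝒱, x ∈ V)
  choose M hM hM' using h4
  choose η hη hη' using fun f : F =>
    base (Filter.inter_mem ((h1 _ (hV _)).mem_nhds (hV' (inl f))) (hM (inl f)))
  obtain ⟨β, hβ⟩ : ∃ β, β ∉ ⋃ x, a '' {V | V ∈ 𝒱 ∧ (V ∩ M (inl (∅, x))).Nonempty} := by
    by_contra h
    push Not at h
    have := (mk_le_mk_of_subset (s := univ) fun β _ => h β).trans ((mk_iUnion_le _).trans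
      (mul_le_mul' le_rfl (ciSup_le' fun x =>
        le_aleph0_iff_set_countable.2 ((hM' (inl (∅, x))).image a))))
    exact (cantor 𝔠).not_ge (by simpa [mk_real] using this)
  have key : ∀ x y, ∃ φ ∈ η (∅, x), φ ∈ η (β, y) ∧ φ.1 (∅, x) ≠ φ.1 (β, y) := fun x y => by
    by_contra h
    push Not at h
    let p : X := inr ⟨fun φ => if φ ∈ η (∅, x) then φ.1 (∅, x) else
      if φ ∈ η (β, y) then φ.1 (β, y) else ∅, ((hη (∅, x)).union (hη (β, y))).subset fun φ hφ => by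
        by_contra h'
        rw [mem_union, not_or] at h'
        exact hφ (by simp [h'])⟩
    refine hβ (mem_iUnion.2 ⟨x, V (inl (β, y)), ⟨hV _, p, (hη' _ fun φ hφ => ?_).1,
      (hη' _ fun φ hφ => ?_).2⟩, (ha _ (hV _) _ (hV' _)).symm⟩)
    · simp only [p, ev]
      split_ifs with h'
      · exact h φ h' hφ
      · rfl
    · exact if_pos hφ
  obtain ⟨y, -, hy⟩ := exists_seq_of_forall_finset_exists (fun _ => True)
    (fun y z => ∀ φ ∈ η (β, y), φ.1 (β, z) = ∅) fun s _ => by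
      obtain ⟨z, hz⟩ := avoid (s.finite_toSet.biUnion fun y _ => hη (β, y)).countable _
        (fun φ => φ.2.2) β
      exact ⟨z, trivial, fun y hy φ hφ => not_not.1 (hz φ (mem_biUnion hy hφ))⟩
  obtain ⟨x, hx⟩ := avoid (countable_iUnion fun i => (hη (β, y i)).countable) _
    (fun φ => φ.2.2) ∅
  choose φ h5 h6 h7 using fun i => key x (y i)
  have h8 : ∀ i j, i < j → φ i ≠ φ j := fun i j h e => h7 j
    ((not_not.1 (hx _ (mem_iUnion.2 ⟨j, h6 j⟩))).trans (hy i j h _ (e ▸ h6 i)).symm)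
  exact infinite_of_injective_forall_mem (Function.Injective.of_lt_imp_ne h8) h5 (hη _)

/-- The negation of the preceding statement: Every regular space in which discrete families of closed Lindelöf sets have disjoint open expansions, and every open cover has a point-finite open refinement, also has a locally countable open refinement for every open cover. -/
theorem result :
    ¬ (∀ (X : Type) [TopologicalSpace X] [T3Space X],
      (∀ 𝓕 : Set (Set X),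
        (∀ F ∈ 𝓕, IsClosed F ∧ IsLindelof F) →
        (∀ x : X, ∃ N ∈ nhds x, {F : Set X | F ∈ 𝓕 ∧ (F ∩ N).Nonempty}.Subsingleton) →
        ∃ U : Set X → Set X,
          (∀ F ∈ 𝓕, IsOpen (U F) ∧ F ⊆ U F) ∧
          (∀ F ∈ 𝓕, ∀ G ∈ 𝓕, F ≠ G → Disjoint (U F) (U G))) →
      (∀ 𝒰 : Set (Set X), (∀ U ∈ 𝒰, IsOpen U) → ⋃₀ 𝒰 = Set.univ →
        ∃ 𝒱 : Set (Set X), (∀ V ∈ 𝒱, IsOpen V) ∧ ⋃₀ 𝒱 = Set.univ ∧
          (∀ V ∈ 𝒱, ∃ U ∈ 𝒰, V ⊆ U) ∧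
          ∀ x : X, {V : Set X | V ∈ 𝒱 ∧ x ∈ V}.Finite) →
      (∀ 𝒰 : Set (Set X), (∀ U ∈ 𝒰, IsOpen U) → ⋃₀ 𝒰 = Set.univ →
        ∃ 𝒱 : Set (Set X), (∀ V ∈ 𝒱, IsOpen V) ∧ ⋃₀ 𝒱 = Set.univ ∧
          (∀ V ∈ 𝒱, ∃ U ∈ 𝒰, V ⊆ U) ∧
          ∀ x : X, ∃ N ∈ nhds x, {V : Set X | V ∈ 𝒱 ∧ (V ∩ N).Nonempty}.Countable)) := by
  intro h
  obtain ⟨𝒱, h1, h2, h3, h4⟩ := h X cwh mc {U | IsOpen U ∧ ∃ α, ∀ f, inl f ∈ U → f.1 = α}
    (fun U hU => hU.1) (eq_univ_of_forall fun x => by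
      rcases x with f | p
      · exact ⟨_, ⟨op_ev (chi f 0 univ) (· ≠ ∅), f.1, fun g hg => (Prod.mk.inj (chi_ne.1 hg)).1⟩,
          chi_ne.2 rfl⟩
      · exact ⟨{inr p}, ⟨op_iso (by simp), ∅, by simp⟩, rfl⟩)
  refine notPara 𝒱 h1 h2 (fun V hV => ?_) h4
  obtain ⟨U, ⟨-, α, hα⟩, h⟩ := h3 V hV
  exact ⟨α, fun f hf => hα f (h hf)⟩

end Pool.Agent.S13052
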