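import Pool.Statements.S13061
import Pool.Agent.H20.PL1

set_option autoImplicit false
open MeasureTheory Metric
open Pool Pool.MP_3f0dd2_gt

namespace Pool.Agent.S13061

open Matrix Set in
lemma ms {n : ℕ} (M : Matrix (Fin n) (Fin n) ℝ) :
    MeasurableSet {x : Fin n → ℝ | 0 ≤ M *ᵥ x ∧ x ⬝ᵥ x < 1} :=
  (isClosed_le (f := fun _ => 0) (g := fun x : Fin n → ℝ => M *ᵥ x) continuous_const
    (by fun_prop)).measurableSet.inter
    (isOpen_lt (f := fun x : Fin n → ℝ => x ⬝ᵥ x) (g := fun _ => 1) (by fun_prop)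
      continuous_const).measurableSet

open Matrix Set in
lemma ms1 {n : ℕ} : MeasurableSet {x : Fin n → ℝ | 0 ≤ x ∧ x ⬝ᵥ x < 1} := by
  simpa using ms (1 : Matrix (Fin n) (Fin n) ℝ)

open Matrix Set in
lemma mat {n : ℕ} (A B : Matrix (Fin n) (Fin n) ℝ) (h : A * B = 1) :
    volume {x : Fin n → ℝ | 0 ≤ A *ᵥ x ∧ x ⬝ᵥ x < 1} *
      volume {x : Fin n → ℝ | 0 ≤ Bᵀ *ᵥ x ∧ x ⬝ᵥ x < 1} ≤
    volume {x : Fin n → ℝ | 0 ≤ x ∧ x ⬝ᵥ x < 1} ^ 2 := by
  have hd : A.det * B.det = 1 := by rw [← det_mul, h, det_one]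
  have h1 := Measure.addHaar_preimage_linearMap (volume : Measure (Fin n → ℝ)) (f := toLin' B)
    (by rw [LinearMap.det_toLin']; exact right_ne_zero_of_mul_eq_one hd)
    {x | 0 ≤ A *ᵥ x ∧ x ⬝ᵥ x < 1}
  have h2 := Measure.addHaar_preimage_linearMap (volume : Measure (Fin n → ℝ)) (f := toLin' Aᵀ)
    (by rw [LinearMap.det_toLin', det_transpose]; exact left_ne_zero_of_mul_eq_one hd)
    {x | 0 ≤ Bᵀ *ᵥ x ∧ x ⬝ᵥ x < 1}
  rw [LinearMap.det_toLin'] at h1 h2
  have m1 := (ms A).preimage (toLin' B).continuous_of_finiteDimensional.measurable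
  have m2 := (ms Bᵀ).preimage (toLin' Aᵀ).continuous_of_finiteDimensional.measurable
  have m3 : MeasurableSet {x : Fin n → ℝ | 0 ≤ x ∧ x ⬝ᵥ x < 1} := ms1
  have p1 : ∀ y ∈ toLin' B ⁻¹' {x | 0 ≤ A *ᵥ x ∧ x ⬝ᵥ x < 1}, 0 ≤ y := fun y hy => by
    simpa [h] using hy.1
  have p2 : ∀ y ∈ toLin' Aᵀ ⁻¹' {x | 0 ≤ Bᵀ *ᵥ x ∧ x ⬝ᵥ x < 1}, 0 ≤ y := fun y hy => by
    simpa [← transpose_mul, h] using hy.1
  have := H20.PL.pl_pi n (measurable_one.indicator m1) (measurable_one.indicator m2)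
    (measurable_one.indicator m3) (fun x hx => p1 x (mem_of_indicator_ne_zero hx))
    (fun x hx => p2 x (mem_of_indicator_ne_zero hx)) (fun x y => by
      by_cases hx : x ∈ toLin' B ⁻¹' {x | 0 ≤ A *ᵥ x ∧ x ⬝ᵥ x < 1}
      swap
      · rw [indicator_of_notMem hx, zero_mul]; exact zero_le
      by_cases hy : y ∈ toLin' Aᵀ ⁻¹' {x | 0 ≤ Bᵀ *ᵥ x ∧ x ⬝ᵥ x < 1}
      swap
      · rw [indicator_of_notMem hy, mul_zero]; exact zero_le
      have e1 : (fun i => √(x i * y i)) ⬝ᵥ (fun i => √(x i * y i)) = x ⬝ᵥ y :=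
        Finset.sum_congr rfl fun i _ => Real.mul_self_sqrt (mul_nonneg (p1 x hx i) (p2 y hy i))
      have e2 : x ⬝ᵥ y = (B *ᵥ x) ⬝ᵥ (Aᵀ *ᵥ y) := by
        rw [dotProduct_mulVec, vecMul_transpose, mulVec_mulVec, h, one_mulVec]
      have e3 : 2 * ((B *ᵥ x) ⬝ᵥ (Aᵀ *ᵥ y)) ≤ (B *ᵥ x) ⬝ᵥ (B *ᵥ x) + (Aᵀ *ᵥ y) ⬝ᵥ (Aᵀ *ᵥ y) := by
        simp only [dotProduct, Finset.mul_sum, ← Finset.sum_add_distrib]
        exact Finset.sum_le_sum fun i _ => by nlinarith [sq_nonneg ((B *ᵥ x) i - (Aᵀ *ᵥ y) i)]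
      have hz : (fun i => √(x i * y i)) ∈ {x : Fin n → ℝ | 0 ≤ x ∧ x ⬝ᵥ x < 1} :=
        ⟨fun i => Real.sqrt_nonneg _, by
          have a1 : (B *ᵥ x) ⬝ᵥ (B *ᵥ x) < 1 := hx.2
          have a2 : (Aᵀ *ᵥ y) ⬝ᵥ (Aᵀ *ᵥ y) < 1 := hy.2
          rw [e1, e2]; linarith⟩
      rw [indicator_of_mem hx, indicator_of_mem hy, indicator_of_mem hz]; simp)
  rw [lintegral_indicator_one m1, lintegral_indicator_one m2, lintegral_indicator_one m3, h1, h2,
    mul_mul_mul_comm, ← ENNReal.ofReal_mul (abs_nonneg _), ← abs_mul, det_transpose, ← mul_inv,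
    mul_comm B.det, hd] at this
  simpa using this

open Matrix Set Pointwise in
lemma cone_le {n : ℕ} (M : Matrix (Fin n) (Fin n) ℝ)
    {s : Set (sphere (0 : EuclideanSpace ℝ (Fin n)) 1)} (hs : IsClosed s)
    (h : ∀ u ∈ s, 0 ≤ M *ᵥ u.1.ofLp) :
    volume.toSphere s ≤ n * volume {x : Fin n → ℝ | 0 ≤ M *ᵥ x ∧ x ⬝ᵥ x < 1} := by
  rw [Measure.toSphere_apply' _ hs.measurableSet, finrank_euclideanSpace_fin,
    ← (PiLp.volume_preserving_ofLp (Fin n)).measure_preimage (ms M).nullMeasurableSet]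
  gcongr
  rintro _ ⟨t, ht, _, ⟨u, hu, rfl⟩, rfl⟩
  have h1 : u.1.ofLp ⬝ᵥ u.1.ofLp = 1 := by
    have := EuclideanSpace.real_norm_sq_eq u.1
    rw [norm_eq_of_mem_sphere u] at this
    simp only [dotProduct, ← sq]; linarith
  refine ⟨?_, ?_⟩
  · show 0 ≤ M *ᵥ (t • u.1.ofLp)
    rw [mulVec_smul]; exact smul_nonneg ht.1.le (h u hu)
  · show (t • u.1.ofLp) ⬝ᵥ (t • u.1.ofLp) < 1
    rw [smul_dotProduct, dotProduct_smul, h1, smul_eq_mul, smul_eq_mul]
    nlinarith [ht.1, ht.2]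

open Matrix Set Pointwise in
lemma le_cone {n : ℕ} {s : Set (sphere (0 : EuclideanSpace ℝ (Fin n)) 1)} (hs : IsClosed s)
    (h : ∀ u : sphere (0 : EuclideanSpace ℝ (Fin n)) 1, 0 ≤ u.1.ofLp → u ∈ s) :
    n * volume {x : Fin n → ℝ | 0 ≤ x ∧ x ⬝ᵥ x < 1} ≤ volume.toSphere s := by
  rcases Nat.eq_zero_or_pos n with rfl | hn
  · simp
  have : Nonempty (Fin n) := ⟨⟨0, hn⟩⟩
  rw [Measure.toSphere_apply' _ hs.measurableSet, finrank_euclideanSpace_fin,
    ← (PiLp.volume_preserving_ofLp (Fin n)).measure_preimage ms1.nullMeasurableSet,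
    ← measure_sdiff_null (t := {0}) (measure_singleton _)]
  gcongr
  rintro x ⟨⟨h1, h2⟩, h3⟩
  have x0 : 0 < ‖x‖ := norm_pos_iff.2 h3
  have x1 : ‖x‖ < 1 := by
    have := EuclideanSpace.real_norm_sq_eq x
    have h4 : x.ofLp ⬝ᵥ x.ofLp < 1 := h2
    simp only [dotProduct, ← sq] at h4
    nlinarith
  refine ⟨‖x‖, ⟨x0, x1⟩, ‖x‖⁻¹ • x, ⟨⟨‖x‖⁻¹ • x, by simp [norm_smul, x0.ne']⟩,
    h _ (smul_nonneg (inv_pos.2 x0).le h1), rfl⟩, by simp [smul_smul, x0.ne']⟩

/-- For every n and linearly independent normals a_1..a_n, the spherical simplex {x on the sphere: <x,a_i> ≥ 0} times its polar has volume product at most that of the positive orthant on the sphere times its polar. -/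
theorem result :
    ∀ (n : ℕ) (a : Fin n → EuclideanSpace ℝ (Fin n)), LinearIndependent ℝ a →
      (volume : Measure (EuclideanSpace ℝ (Fin n))).toSphere
          (setOf fun x : sphere (0 : EuclideanSpace ℝ (Fin n)) 1 =>
            ∀ i, 0 ≤ @inner ℝ (EuclideanSpace ℝ (Fin n)) _ x.1 (a i)) *
        (volume : Measure (EuclideanSpace ℝ (Fin n))).toSphere
          (setOf fun x : sphere (0 : EuclideanSpace ℝ (Fin n)) 1 =>
            ∀ y : sphere (0 : EuclideanSpace ℝ (Fin n)) 1,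
              (∀ i, 0 ≤ @inner ℝ (EuclideanSpace ℝ (Fin n)) _ y.1 (a i)) →
                0 ≤ @inner ℝ (EuclideanSpace ℝ (Fin n)) _ x.1 y.1)
      ≤
      (volume : Measure (EuclideanSpace ℝ (Fin n))).toSphere
          (setOf fun x : sphere (0 : EuclideanSpace ℝ (Fin n)) 1 =>
            ∀ i, 0 ≤ @inner ℝ (EuclideanSpace ℝ (Fin n)) _ x.1
              (EuclideanSpace.single i (1 : ℝ))) *
        (volume : Measure (EuclideanSpace ℝ (Fin n))).toSphere
          (setOf fun x : sphere (0 : EuclideanSpace ℝ (Fin n)) 1 =>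
            ∀ y : sphere (0 : EuclideanSpace ℝ (Fin n)) 1,
              (∀ i, 0 ≤ @inner ℝ (EuclideanSpace ℝ (Fin n)) _ y.1
                (EuclideanSpace.single i (1 : ℝ))) →
                0 ≤ @inner ℝ (EuclideanSpace ℝ (Fin n)) _ x.1 y.1) := by
  intro n a ha
  set A : Matrix (Fin n) (Fin n) ℝ := fun i => (a i).ofLp with hA
  have hu : IsUnit A := Matrix.linearIndependent_rows_iff_isUnit.1
    (ha.map' (WithLp.linearEquiv 2 ℝ (Fin n → ℝ)).toLinearMap (LinearEquiv.ker _))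
  have hB := Matrix.mul_nonsing_inv A ((Matrix.isUnit_iff_isUnit_det A).1 hu)
  have c1 : ∀ b : Fin n → EuclideanSpace ℝ (Fin n),
      IsClosed {x : sphere (0 : EuclideanSpace ℝ (Fin n)) 1 | ∀ i, 0 ≤ inner ℝ x.1 (b i)} :=
    fun b => by
      simp only [Set.ofPred_forall]
      exact isClosed_iInter fun i => isClosed_le continuous_const (by fun_prop)
  have c2 : ∀ b : Fin n → EuclideanSpace ℝ (Fin n),
      IsClosed {x : sphere (0 : EuclideanSpace ℝ (Fin n)) 1 |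
        ∀ y : sphere (0 : EuclideanSpace ℝ (Fin n)) 1, (∀ i, 0 ≤ inner ℝ y.1 (b i)) →
          0 ≤ inner ℝ x.1 y.1} := fun b => by
    simp only [Set.ofPred_forall]
    exact isClosed_iInter fun i => isClosed_iInter fun _ =>
      isClosed_le continuous_const (by fun_prop)
  have inn : ∀ x y : EuclideanSpace ℝ (Fin n), inner ℝ x y = y.ofLp ⬝ᵥ x.ofLp := fun x y => by
    simp [PiLp.inner_apply, dotProduct]
  have k1 := cone_le A (c1 a) fun u hu i => (hu i).trans_eq (inn _ _)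
  have k2 := cone_le (Matrix.transpose A⁻¹) (c2 a) fun u hu i => by
    set b : EuclideanSpace ℝ (Fin n) := WithLp.toLp 2 fun j => A⁻¹ j i with hb
    have e : ∀ l, inner ℝ b (a l) = (1 : Matrix (Fin n) (Fin n) ℝ) l i := fun l => by
      rw [inn, ← hB]; rfl
    have b0 : 0 < ‖b‖ := norm_pos_iff.2 fun h => by simpa [h] using e i
    have := hu ⟨‖b‖⁻¹ • b, by simp [norm_smul, b0.ne']⟩ fun l => by
      rw [real_inner_smul_left, e, Matrix.one_apply]; positivity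
    rw [real_inner_smul_right, inn] at this
    exact (mul_nonneg_iff_of_pos_left (inv_pos.2 b0)).1 this
  have k3 := le_cone (c1 fun i => EuclideanSpace.single i (1 : ℝ)) fun u hu i => by
    simpa [EuclideanSpace.inner_single_right] using hu i
  have k4 := le_cone (c2 fun i => EuclideanSpace.single i (1 : ℝ)) fun u hu y hy => by
    rw [inn]
    exact Finset.sum_nonneg fun i _ => mul_nonneg
      (by simpa [EuclideanSpace.inner_single_right] using hy i) (hu i)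
  refine (mul_le_mul' k1 k2).trans (le_trans ?_ (mul_le_mul' k3 k4))
  rw [mul_mul_mul_comm, mul_mul_mul_comm (n : ENNReal) (volume _), ← sq (volume _)]
  gcongr
  exact mat A A⁻¹ hB

end Pool.Agent.S13061
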