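import Pool.Statements.S13088
import Pool.Agent.H8.PB2

set_option autoImplicit false
open Pool Pool.MP_42a2a8_gt

namespace Pool.Agent.S13088

/-- The negation of the preceding statement: In every T1 space without isolated points, every base contains two disjoint subfamilies: one is itself a base, the other is a π-base (nonempty members, and every nonempty open set contains one). -/
theorem result :
    ¬ (∀ (X : Type) [TopologicalSpace X] [T1Space X],
      (∀ x : X, ¬ IsOpen ({x} : Set X)) →
      ∀ B : Set (Set X), TopologicalSpace.IsTopologicalBasis B →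
        ∃ B0 B1 : Set (Set X),
          B0 ⊆ B ∧ B1 ⊆ B ∧ Disjoint B0 B1 ∧
          TopologicalSpace.IsTopologicalBasis B0 ∧
          (∀ V ∈ B1, V.Nonempty) ∧
          (∀ U : Set X, IsOpen U → U.Nonempty → ∃ V ∈ B1, V ⊆ U)) := by
  intro H
  obtain ⟨B0, B1, h0, h1, hd, hb, -, hp⟩ := H H8.PB.X H8.PB.no_isol H8.PB.Base H8.PB.basis
  exact H8.PB.final B0 B1 h0 h1 hd hb hp

end Pool.Agent.S13088
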