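import Pool.Statements.S13094

set_option autoImplicit false
open Pool Pool.MP_440a64_gt

namespace Pool.Agent.S13094

open Filter Topology Cardinal

def X : Type := Option (ℝ ⊕ Set ℝ)

def inf : X := none
def pz (z : ℝ) : X := some (Sum.inl z)
def pk (k : Set ℝ) : X := some (Sum.inr k)

instance : TopologicalSpace X where
  IsOpen U := inf ∈ U → {k : Set ℝ | pk k ∉ U}.Finite
  isOpen_univ := fun _ => by simp
  isOpen_inter := by
    intro s t hs ht h
    refine ((hs h.1).union (ht h.2)).subset ?_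
    intro k hk
    by_cases h1 : pk k ∈ s
    · exact Or.inr fun h2 => hk ⟨h1, h2⟩
    · exact Or.inl h1
  isOpen_sUnion := by
    rintro S hS ⟨t, ht, h⟩
    exact (hS t ht h).subset fun k hk h2 => hk ⟨t, ht, h2⟩

lemma isOpen_iff {U : Set X} : IsOpen U ↔ (inf ∈ U → {k : Set ℝ | pk k ∉ U}.Finite) := Iff.rfl

lemma pk_inj : Function.Injective pk := fun _ _ h => Sum.inr_injective (Option.some_injective _ h)

lemma pk_ne (k : Set ℝ) : pk k ≠ inf := Option.some_ne_none _

lemma pz_ne (k : ℝ) : pz k ≠ inf := Option.some_ne_none _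

lemma clopen_of {S : Set X} (h1 : inf ∉ S) (h2 : {k : Set ℝ | pk k ∈ S}.Finite) : IsClopen S :=
  ⟨⟨isOpen_iff.2 fun _ => by simpa using h2⟩, isOpen_iff.2 fun h => absurd h h1⟩

lemma fin_single (x : X) : {k : Set ℝ | pk k ∈ ({x} : Set X)}.Finite :=
  (Set.finite_singleton x).preimage pk_inj.injOn

instance : T1Space X := ⟨fun x => ⟨isOpen_iff.2 fun _ => by simpa using fin_single x⟩⟩

instance : CompletelyRegularSpace X := by
  refine ⟨fun x K hK hx => ?_⟩
  have key : ∃ S : Set X, IsClopen S ∧ x ∉ S ∧ K ⊆ S := by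
    by_cases h : inf ∈ K
    · have hx' : inf ∉ ({x} : Set X) := fun hh => hx (by rw [← Set.mem_singleton_iff.1 hh]; exact h)
      refine ⟨{x}ᶜ, (clopen_of hx' (fin_single x)).compl, by simp, ?_⟩
      intro y hy hyx
      exact hx (by rw [← Set.mem_singleton_iff.1 hyx]; exact hy)
    · exact ⟨K, ⟨hK, isOpen_iff.2 fun hh => absurd hh h⟩, hx, subset_rfl⟩
  obtain ⟨S, hS, h1, h2⟩ := key
  refine ⟨S.indicator 1, hS.continuous_indicator continuous_const, Set.indicator_of_notMem h1 _, ?_⟩
  intro y hy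
  exact Set.indicator_of_mem (h2 hy) _

instance : T35Space X := {}

def T (F : C(X, ℝ)) : Set (Set ℝ) := {k | F (pk k) ≠ F inf}

lemma T_count (F : C(X, ℝ)) : (T F).Countable := by
  have h : ∀ n : ℕ, {k : Set ℝ | pk k ∉ F ⁻¹' Metric.ball (F inf) (1 / ((n : ℝ) + 1))}.Finite :=
    fun n => isOpen_iff.1 (Metric.isOpen_ball.preimage F.continuous)
      (Metric.mem_ball_self (by positivity))
  refine (Set.countable_iUnion fun n => (h n).countable).mono ?_
  intro k hk
  obtain ⟨n, hn⟩ := exists_nat_one_div_lt (dist_pos.2 hk)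
  exact Set.mem_iUnion.2 ⟨n, fun hh => absurd (Metric.mem_ball.1 hh) (not_lt.2 hn.le)⟩

lemma exists_code : ∃ ξ : C(X, ℝ) × ℕ → Set ℝ, Function.Injective ξ := by
  let c : C(X, ℝ) → (ℝ → ℝ) × ℝ × {t : Set (Set ℝ × ℝ) // #t ≤ ℵ₀} := fun F =>
    (fun z => F (pz z), F inf, ⟨(fun k => (k, F (pk k))) '' T F,
      Cardinal.le_aleph0_iff_set_countable.2 ((T_count F).image _)⟩)
  have hc : Function.Injective c := by
    intro F G h
    have h1 : (fun z => F (pz z)) = fun z => G (pz z) := congrArg Prod.fst h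
    have h2 : F inf = G inf := congrArg (fun x => x.2.1) h
    have h3 : (fun k => (k, F (pk k))) '' T F = (fun k => (k, G (pk k))) '' T G :=
      congrArg (fun x => x.2.2.1) h
    ext x
    rcases x with _ | z | k
    · exact h2
    · exact congrFun h1 z
    · change F (pk k) = G (pk k)
      by_cases a1 : k ∈ T F
      · have : (k, F (pk k)) ∈ (fun k => (k, G (pk k))) '' T G := h3 ▸ ⟨k, a1, rfl⟩
        obtain ⟨k', _, hk⟩ := this
        obtain ⟨rfl, e⟩ := Prod.mk.inj hk
        exact e.symm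
      · by_cases a2 : k ∈ T G
        · have : (k, G (pk k)) ∈ (fun k => (k, F (pk k))) '' T F := h3 ▸ ⟨k, a2, rfl⟩
          obtain ⟨k', _, hk⟩ := this
          obtain ⟨rfl, e⟩ := Prod.mk.inj hk
          exact e
        · rw [not_not.1 a1, not_not.1 a2, h2]
  have hκ : ℵ₀ ≤ (2 : Cardinal.{0}) ^ 𝔠 := aleph0_le_continuum.trans (cantor _).le
  have hcκ : 𝔠 ≤ (2 : Cardinal.{0}) ^ 𝔠 := (cantor _).le
  have e1 : #(ℝ → ℝ) ≤ 2 ^ 𝔠 := by
    rw [← Cardinal.power_def, mk_real, power_self_eq aleph0_le_continuum]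
  have e2 : #(Set ℝ × ℝ) ≤ 2 ^ 𝔠 := by
    rw [← Cardinal.mul_def, mk_set, mk_real]
    exact Cardinal.mul_le_of_le hκ le_rfl hcκ
  have e3 : #{t : Set (Set ℝ × ℝ) // #t ≤ ℵ₀} ≤ 2 ^ 𝔠 := by
    refine (mk_bounded_set_le _ _).trans ?_
    refine (power_le_power_right (max_le e2 hκ)).trans ?_
    rw [← power_mul, continuum_mul_aleph0]
  have e4 : #(C(X, ℝ) × ℕ) ≤ #(Set ℝ) := by
    rw [← Cardinal.mul_def, mk_set, mk_real, mk_nat]
    refine Cardinal.mul_le_of_le hκ ((mk_le_of_injective hc).trans ?_) hκ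
    rw [← Cardinal.mul_def, ← Cardinal.mul_def, mk_real]
    exact Cardinal.mul_le_of_le hκ e1 (Cardinal.mul_le_of_le hκ hcκ e3)
  obtain ⟨e⟩ := Cardinal.le_def _ _ |>.1 e4
  exact ⟨e, e.injective⟩

noncomputable def ind (S : Set X) (h : IsClopen S) : C(X, ℝ) :=
  ⟨S.indicator 1, h.continuous_indicator continuous_const⟩

lemma exists_pert (F : C(X, ℝ)) (k : Set ℝ) (n : ℕ) :
    ∃ G : C(X, ℝ), k ∈ T G ∧ ∀ x, |F x - G x| ≤ 1 / ((n : ℝ) + 1) := by
  by_cases h : k ∈ T F
  · exact ⟨F, h, fun x => by simp only [sub_self, abs_zero]; positivity⟩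
  · have hc : IsClopen ({pk k} : Set X) := clopen_of (fun hh => pk_ne k hh.symm) (fin_single _)
    refine ⟨F + (1 / ((n : ℝ) + 1)) • ind _ hc, ?_, fun x => ?_⟩
    · have h1 : F (pk k) = F inf := not_not.1 h
      have h2 : (0 : ℝ) < 1 / ((n : ℝ) + 1) := by positivity
      have h3 : inf ∉ ({pk k} : Set X) := fun hh => pk_ne k hh.symm
      simp only [T, ind, Set.mem_ofPred_eq, ContinuousMap.add_apply, ContinuousMap.smul_apply,
        ContinuousMap.coe_mk, Set.indicator_of_notMem h3,
        Set.indicator_of_mem (Set.mem_singleton (pk k)), h1, Pi.one_apply, smul_eq_mul]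
      linarith
    · have h2 : (0 : ℝ) < 1 / ((n : ℝ) + 1) := by positivity
      simp only [ind, ContinuousMap.add_apply, ContinuousMap.smul_apply,
        ContinuousMap.coe_mk, smul_eq_mul, sub_add_cancel_left, abs_neg]
      by_cases hx : x ∈ ({pk k} : Set X)
      · rw [Set.indicator_of_mem hx, Pi.one_apply, mul_one, abs_of_pos h2]
      · rw [Set.indicator_of_notMem hx, mul_zero, abs_zero]; exact h2.le

lemma clopen_img (S : Set ℝ) : IsClopen (pz '' S) := by
  refine clopen_of ?_ ?_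
  · rintro ⟨z, _, h⟩; exact pz_ne z h
  · convert Set.finite_empty
    ext k
    simp only [Set.mem_ofPred_eq, Set.mem_empty_iff_false, iff_false]
    rintro ⟨z, _, h⟩
    exact Sum.inl_ne_inr (Option.some_injective _ h)

lemma pz_inj : Function.Injective pz := fun _ _ h => Sum.inl_injective (Option.some_injective _ h)

noncomputable def χ (S : Set ℝ) : C(X, ℝ) := ind _ (clopen_img S)


/-- The negation of the preceding statement: For every Tychonoff X: if C_p(X) has a uniformly dense subspace that is monotonically ω-monolithic (countable monotone σ-continuous external networks on closures of countable sets), then C_p(X) itself is monotonically ω-monolithic. -/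
theorem result :
    ¬ (∀ (X : Type) [TopologicalSpace X] [T35Space X] (D : Set C(X, ℝ)),
      (∀ f : C(X, ℝ), ∀ ε : ℝ, 0 < ε → ∃ g ∈ D, ∀ x : X, |f x - g x| < ε) →
      (∃ N : Set C(X, ℝ) → Set (Set C(X, ℝ)),
        (∀ A : Set C(X, ℝ), A ⊆ D → A.Countable →
          (N A).Countable ∧ (∀ n ∈ N A, n ⊆ D) ∧
          ∀ y ∈ D,
            y ∈ @closure _ (TopologicalSpace.induced (fun f : C(X, ℝ) => (⇑f : X → ℝ)) inferInstance) A →
            ∀ U : Set C(X, ℝ),
              @IsOpen _ (TopologicalSpace.induced (fun f : C(X, ℝ) => (⇑f : X → ℝ)) inferInstance) U →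
              y ∈ U → ∃ n ∈ N A, y ∈ n ∧ n ⊆ U) ∧
        (∀ A B : Set C(X, ℝ), A ⊆ B → B ⊆ D → B.Countable → N A ⊆ N B) ∧
        (∀ A : ℕ → Set C(X, ℝ), Monotone A → (∀ k, A k ⊆ D ∧ (A k).Countable) →
          N (⋃ k, A k) = ⋃ k, N (A k))) →
      (∃ N : Set C(X, ℝ) → Set (Set C(X, ℝ)),
        (∀ A : Set C(X, ℝ), A.Countable →
          (N A).Countable ∧
          ∀ y : C(X, ℝ),
            y ∈ @closure _ (TopologicalSpace.induced (fun f : C(X, ℝ) => (⇑f : X → ℝ)) inferInstance) A →
            ∀ U : Set C(X, ℝ),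
              @IsOpen _ (TopologicalSpace.induced (fun f : C(X, ℝ) => (⇑f : X → ℝ)) inferInstance) U →
              y ∈ U → ∃ n ∈ N A, y ∈ n ∧ n ⊆ U) ∧
        (∀ A B : Set C(X, ℝ), A ⊆ B → B.Countable → N A ⊆ N B) ∧
        (∀ A : ℕ → Set C(X, ℝ), Monotone A → (∀ k, (A k).Countable) →
          N (⋃ k, A k) = ⋃ k, N (A k)))) := by
  intro h
  let _ : TopologicalSpace C(X, ℝ) :=
    TopologicalSpace.induced (fun f : C(X, ℝ) => (⇑f : X → ℝ)) inferInstance
  have hco : Continuous (fun f : C(X, ℝ) => (⇑f : X → ℝ)) := continuous_induced_dom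
  have hev : ∀ x : X, Continuous (fun f : C(X, ℝ) => f x) := fun x => (continuous_apply x).comp hco
  obtain ⟨ξ, hξ⟩ := exists_code
  choose d hd1 hd2 using fun j : C(X, ℝ) × ℕ => exists_pert j.1 (ξ j) j.2
  obtain ⟨N, hN, -, -⟩ := h X (Set.range d)
    (by
      intro f ε hε
      obtain ⟨n, hn⟩ := exists_nat_one_div_lt hε
      exact ⟨d (f, n), ⟨_, rfl⟩, fun x => (hd2 (f, n) x).trans_lt hn⟩)
    ⟨fun A => (fun j => {d j}) '' (ξ ⁻¹' (⋃ F ∈ A, T F)), by
      intro A _ hA
      refine ⟨((hA.biUnion fun F _ => T_count F).preimage hξ).image _, ?_, ?_⟩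
      · rintro _ ⟨j, _, rfl⟩ _ rfl
        exact ⟨j, rfl⟩
      · rintro _ ⟨j, rfl⟩ hy U _ hU
        refine ⟨{d j}, ⟨j, ?_, rfl⟩, rfl, Set.singleton_subset_iff.2 hU⟩
        by_contra hc
        have hcl : IsClosed {F : C(X, ℝ) | F (pk (ξ j)) = F inf} := isClosed_eq (hev _) (hev _)
        refine hd1 j (closure_minimal (fun F hF => ?_) hcl hy)
        by_contra h2
        exact hc (Set.mem_biUnion hF h2), by
      intro A B hAB _ _
      exact Set.image_mono (Set.preimage_mono (Set.biUnion_subset_biUnion_left hAB)), by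
      intro A _ _
      simp only [Set.biUnion_iUnion, Set.preimage_iUnion, Set.image_iUnion]⟩
  obtain ⟨hc, hnet⟩ := hN (Set.range fun p : ℕ × ℤ => χ {x : ℝ | ⌊((p.1 : ℝ) + 1) * x⌋ = p.2})
    (Set.countable_range _)
  have hz : ∀ z : ℝ, ∃ n ∈ N (Set.range fun p : ℕ × ℤ => χ {x : ℝ | ⌊((p.1 : ℝ) + 1) * x⌋ = p.2}),
      χ {z} ∈ n ∧ n ⊆ {F : C(X, ℝ) | 0 < F (pz z)} := by
    intro z
    refine hnet _ ?_ _ (isOpen_lt continuous_const (hev _)) ?_
    · refine mem_closure_of_tendsto (b := atTop)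
        (f := fun n : ℕ => χ {x : ℝ | ⌊((n : ℝ) + 1) * x⌋ = ⌊((n : ℝ) + 1) * z⌋}) ?_
        (Eventually.of_forall fun n => ⟨(n, _), rfl⟩)
      rw [nhds_induced, tendsto_comap_iff, tendsto_pi_nhds]
      intro x
      refine tendsto_const_nhds.congr' ?_
      by_cases hx : x ∈ Set.range pz
      · obtain ⟨y, rfl⟩ := hx
        by_cases hy : y = z
        · subst hy
          refine Eventually.of_forall fun n => ?_
          simp only [χ, ind, Function.comp, ContinuousMap.coe_mk]
          rw [Set.indicator_of_mem (Set.mem_image_of_mem _ (Set.mem_singleton y)),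
            Set.indicator_of_mem (Set.mem_image_of_mem _ (by simp))]
        · have h0 : 0 < |y - z| := abs_pos.2 (sub_ne_zero.2 hy)
          filter_upwards [tendsto_natCast_atTop_atTop.eventually_ge_atTop (1 / |y - z|)] with n hn
          simp only [χ, ind, Function.comp, ContinuousMap.coe_mk]
          rw [Set.indicator_of_notMem, Set.indicator_of_notMem]
          · rw [pz_inj.mem_set_image]
            intro hh
            have a1 := Int.abs_sub_lt_one_of_floor_eq_floor (Set.mem_ofPred_eq ▸ hh)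
            rw [← mul_sub, abs_mul, abs_of_pos (by positivity : (0 : ℝ) < (n : ℝ) + 1)] at a1
            rw [div_le_iff₀ h0] at hn
            nlinarith
          · rw [pz_inj.mem_set_image]
            exact hy
      · refine Eventually.of_forall fun n => ?_
        simp only [χ, ind, Function.comp, ContinuousMap.coe_mk]
        rw [Set.indicator_of_notMem (fun hh => hx (Set.image_subset_range _ _ hh)),
          Set.indicator_of_notMem (fun hh => hx (Set.image_subset_range _ _ hh))]
    · simp only [χ, ind, Set.mem_ofPred_eq, ContinuousMap.coe_mk]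
      rw [Set.indicator_of_mem (Set.mem_image_of_mem _ (Set.mem_singleton z))]
      exact one_pos
  choose n hn1 hn2 hn3 using hz
  have hinj : Function.Injective n := by
    intro z z' hzz
    by_contra hne
    have h1 := hn3 z (hzz ▸ hn2 z')
    simp only [χ, ind, Set.mem_ofPred_eq, ContinuousMap.coe_mk] at h1
    rw [Set.indicator_of_notMem (by rw [pz_inj.mem_set_image]; exact hne)] at h1
    exact lt_irrefl _ h1
  exact Cardinal.not_countable_real ((hc.preimage hinj).mono fun z _ => hn1 z)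

end Pool.Agent.S13094
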