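import Pool.Statements.S13188

set_option autoImplicit false
open Pool Pool.MP_55e428_gt

namespace Pool.Agent.S13188

/-- The negation of the preceding statement: For every compact subset K of ℝ^Γ lying in c₀(Γ) (i.e. every Eberlein compact), every continuous surjection from C_p(K) (pointwise topology) onto a σ-compact Tychonoff space Y has Y with a countable network. -/
theorem result :
    ¬ (∀ (Γ : Type) (K : Set (Γ → ℝ)), IsCompact K →
      (∀ x ∈ K, ∀ ε : ℝ, 0 < ε → {γ : Γ | ε < |x γ|}.Finite) →
      ∀ (Y : Type) [TopologicalSpace Y] [T35Space Y] [SigmaCompactSpace Y]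
        (φ : {f : K → ℝ // Continuous f} → Y), Continuous φ → Function.Surjective φ →
        ∃ N : Set (Set Y), N.Countable ∧
          ∀ U : Set Y, IsOpen U → ∀ y ∈ U, ∃ A ∈ N, y ∈ A ∧ A ⊆ U) := by
  intro H
  classical
  let K : Set (ℝ → ℝ) := {x | (∀ γ, x γ = 0 ∨ x γ = 1) ∧ ∀ γ δ, γ ≠ δ → x γ = 0 ∨ x δ = 0}
  have hKc : IsCompact K := by
    refine (isCompact_univ_pi fun _ : ℝ => (isCompact_Icc : IsCompact (Set.Icc (0 : ℝ) 1))).of_isClosed_subset ?_ ?_
    · simp only [K, Set.ofPred_and, Set.ofPred_forall, Set.ofPred_or]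
      refine (isClosed_iInter fun γ => ?_).inter (isClosed_iInter fun γ => isClosed_iInter fun δ =>
        isClosed_iInter fun _ => ?_)
      · exact (isClosed_eq (continuous_apply γ) continuous_const).union
          (isClosed_eq (continuous_apply γ) continuous_const)
      · exact (isClosed_eq (continuous_apply γ) continuous_const).union
          (isClosed_eq (continuous_apply δ) continuous_const)
    · intro x hx γ _
      rcases hx.1 γ with h | h <;> simp [h]
  have hK0 : ∀ x ∈ K, ∀ ε : ℝ, 0 < ε → {γ : ℝ | ε < |x γ|}.Finite := by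
    intro x hx ε hε
    refine Set.Subsingleton.finite fun γ hγ δ hδ => ?_
    by_contra hne
    simp only [Set.mem_ofPred_eq] at hγ hδ
    rcases hx.2 γ δ hne with h | h
    · rw [h, abs_zero] at hγ; linarith
    · rw [h, abs_zero] at hδ; linarith
  let z : K := ⟨0, fun _ => Or.inl rfl, fun _ _ _ => Or.inl rfl⟩
  let e : ℝ → K := fun γ => ⟨Pi.single γ 1, fun δ => by
    by_cases h : δ = γ <;> simp [h], fun a b hab => by
    by_cases h : a = γ
    · right; rw [Pi.single_eq_of_ne]; exact fun h' => hab (h.trans h'.symm)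
    · left; exact Pi.single_eq_of_ne h _⟩
  have he : Filter.Tendsto e Filter.cofinite (nhds z) := by
    rw [tendsto_subtype_rng, tendsto_pi_nhds]
    intro δ
    refine tendsto_const_nhds.congr' ?_
    filter_upwards [(Set.finite_singleton δ).compl_mem_cofinite] with γ hγ
    have h : δ ≠ γ := fun h => hγ h.symm
    simp [e, z, h]
  let Ys : Set (ℝ → ℝ) := {y | (∀ γ, 0 ≤ y γ) ∧ (Function.support y).Finite}
  have hY : IsSigmaCompact Ys := by
    refine ⟨fun n => {y | (∀ γ, y γ ∈ Set.Icc (0 : ℝ) n) ∧
      ∀ s : Finset ℝ, n < s.card → ∃ γ ∈ s, y γ = 0}, fun n => ?_, ?_⟩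
    · refine (isCompact_univ_pi fun _ : ℝ => (isCompact_Icc : IsCompact (Set.Icc (0 : ℝ) n))).of_isClosed_subset ?_ fun y hy γ _ => hy.1 γ
      simp only [Set.ofPred_and, Set.ofPred_forall]
      refine (isClosed_iInter fun γ => isClosed_Icc.preimage (continuous_apply γ)).inter
        (isClosed_iInter fun s => isClosed_iInter fun _ => ?_)
      have : {y : ℝ → ℝ | ∃ γ ∈ s, y γ = 0} = ⋃ γ ∈ s, {y | y γ = 0} := by
        ext y; simp
      exact this ▸ isClosed_biUnion_finset fun γ _ => isClosed_eq (continuous_apply γ) continuous_const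
    · ext y
      simp only [Set.mem_iUnion, Set.mem_ofPred_eq]
      constructor
      · rintro ⟨n, h1, h2⟩
        refine ⟨fun γ => (h1 γ).1, ?_⟩
        by_contra hinf
        obtain ⟨s, hs1, hs2⟩ := Set.Infinite.exists_subset_card_eq hinf (n + 1)
        obtain ⟨γ, h3, h4⟩ := h2 s (by omega)
        exact hs1 h3 h4
      · rintro ⟨h1, h2⟩
        obtain ⟨M, hM⟩ := (h2.image y).bddAbove
        obtain ⟨n, hn⟩ := exists_nat_ge M
        refine ⟨max n h2.toFinset.card, fun γ => ⟨h1 γ, ?_⟩, fun s hs => ?_⟩
        · by_cases h : y γ = 0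
          · rw [h]; positivity
          · refine ((hM ⟨γ, h, rfl⟩).trans hn).trans ?_
            exact_mod_cast le_max_left _ _
        · by_contra hn'
          push Not at hn'
          have : s ⊆ h2.toFinset := fun γ hγ => h2.mem_toFinset.2 (hn' γ hγ)
          have := Finset.card_le_card this
          omega
  haveI : SigmaCompactSpace Ys := isSigmaCompact_iff_sigmaCompactSpace.1 hY
  let φ : {f : K → ℝ // Continuous f} → Ys := fun f =>
    ⟨fun γ => max (|f.1 (e γ) - f.1 z| - 1) 0, fun γ => le_max_right _ _, by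
      have h1 := (f.2.tendsto z).comp he
      have h2 := (Metric.tendsto_nhds.1 h1) 1 one_pos
      refine (Filter.mem_cofinite.1 h2).subset fun γ hγ h3 => hγ ?_
      have h4 : |f.1 (e γ) - f.1 z| < 1 := h3
      exact max_eq_right (by linarith)⟩
  have hφ : Continuous φ := by
    refine Continuous.subtype_mk (continuous_pi fun γ => ?_) _
    exact (((((continuous_apply (e γ)).comp continuous_subtype_val).sub
      ((continuous_apply z).comp continuous_subtype_val)).abs).sub continuous_const).max
      continuous_const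
  have hs : Function.Surjective φ := by
    rintro ⟨y, h1, h2⟩
    refine ⟨⟨fun x => ∑ γ ∈ h2.toFinset, (y γ + 1) * x.1 γ, continuous_finsetSum _ fun γ _ =>
      continuous_const.mul ((continuous_apply γ).comp continuous_subtype_val)⟩, Subtype.ext ?_⟩
    funext δ
    simp only [φ, e, z, Pi.zero_apply, mul_zero, Finset.sum_const_zero, sub_zero, Pi.single_apply,
      mul_ite, mul_one, Finset.sum_ite_eq', Set.Finite.mem_toFinset, Function.mem_support]
    have := h1 δ
    split_ifs with h
    · rw [abs_of_nonneg (by linarith), add_sub_cancel_right, max_eq_left this]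
    · push Not at h
      simp [h]
  obtain ⟨N, hN, hnet⟩ := H ℝ K hKc hK0 Ys φ hφ hs
  let y : ℝ → Ys := fun γ => ⟨Pi.single γ 1, fun δ => by
    by_cases h : δ = γ <;> simp [h], (Set.finite_singleton γ).subset Pi.support_single_subset⟩
  have := fun γ => hnet {w : Ys | 0 < w.1 γ}
    (isOpen_lt continuous_const ((continuous_apply γ).comp continuous_subtype_val)) (y γ)
    (by simp [y])
  choose A hA1 hA2 hA3 using this
  have hinj : Function.Injective A := by
    intro γ δ h
    have h1 : y γ ∈ A δ := h ▸ hA2 γ
    have h2 := hA3 δ h1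
    by_contra hne
    simp [y, Pi.single_eq_of_ne (Ne.symm hne)] at h2
  have : (Set.univ : Set ℝ).Countable :=
    (hN.preimage_of_injOn (f := A) hinj.injOn).mono fun γ _ => hA1 γ
  exact Cardinal.not_countable_real this

end Pool.Agent.S13188
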