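import Pool.Statements.S13204

set_option autoImplicit false
open Pool Pool.MP_58de27_gt

namespace Pool.Agent.S13204

open Set Metric

abbrev A := AddCircle (20 : ℝ)
instance : Fact ((0 : ℝ) < 20) := ⟨by norm_num⟩

def K : Set (A × A) := (fun t : ℝ => ((t : A), ((2 + 5 * t / 4 : ℝ) : A))) '' Icc 0 16

noncomputable def f (x y : A) : ℝ :=
  max 1 (max (2 - infDist (x, y) K) (2 - infDist (y, x) K))

theorem f_comm (x y : A) : f x y = f y x := by rw [f, f, max_comm (2 - _)]

theorem f_le (x y : A) : f x y ≤ 2 :=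
  max_le (by norm_num) (max_le (by linarith [infDist_nonneg (x := (x, y)) (s := K)])
    (by linarith [infDist_nonneg (x := (y, x)) (s := K)]))

theorem f_lip (x y z : A) : f x z ≤ f y z + dist x y := by
  have h1 := infDist_le_infDist_add_dist (x := (y, z)) (y := (x, z)) (s := K)
  have h2 := infDist_le_infDist_add_dist (x := (z, y)) (y := (z, x)) (s := K)
  rw [dist_prod_same_right, dist_comm] at h1
  rw [dist_prod_same_left, dist_comm] at h2
  have a1 : 1 ≤ f y z := le_max_left _ _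
  have a2 : 2 - infDist (y, z) K ≤ f y z := le_max_of_le_right (le_max_left _ _)
  have a3 : 2 - infDist (z, y) K ≤ f y z := le_max_of_le_right (le_max_right _ _)
  exact max_le (by linarith [dist_nonneg (x := x) (y := y)]) (max_le (by linarith) (by linarith))

def X : Type := A
def i (x : X) : A := x

noncomputable instance : MetricSpace X where
  dist x y := min (dist (i x) (i y)) (f (i x) (i y))
  dist_self x := by rw [dist_self]; exact min_eq_left (le_max_of_le_left zero_le_one)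
  dist_comm x y := by rw [dist_comm, f_comm]
  dist_triangle x y z := by
    have h1 := dist_triangle (i x) (i y) (i z)
    have h2 := f_lip (i x) (i y) (i z)
    have h3 := f_lip (i z) (i y) (i x)
    have h4 : 1 ≤ f (i x) (i y) := le_max_left _ _
    have h5 : 1 ≤ f (i y) (i z) := le_max_left _ _
    have h6 := f_le (i x) (i z)
    rw [f_comm (i z), f_comm (i y), dist_comm] at h3
    have a := min_le_left (dist (i x) (i z)) (f (i x) (i z))
    have b := min_le_right (dist (i x) (i z)) (f (i x) (i z))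
    rcases min_choice (dist (i x) (i y)) (f (i x) (i y)) with e | e <;>
      rcases min_choice (dist (i y) (i z)) (f (i y) (i z)) with e' | e' <;> rw [e, e'] <;> linarith
  eq_of_dist_eq_zero {x y} h := by
    have h4 : 1 ≤ f (i x) (i y) := le_max_left _ _
    rcases min_choice (dist (i x) (i y)) (f (i x) (i y)) with e | e
    · exact (dist_eq_zero (x := i x) (y := i y)).mp (e.symm.trans h)
    · exact absurd (e.symm.trans h) (by linarith)

theorem dX (x y : X) : dist x y = min (dist (i x) (i y)) (f (i x) (i y)) := rfl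

noncomputable def hom : X ≃ₜ A where
  toFun := i
  invFun x := x
  left_inv _ := rfl
  right_inv _ := rfl
  continuous_toFun := Metric.continuous_iff.mpr fun y ε hε =>
    ⟨min ε 1, by positivity, fun x h => by
      have h4 : 1 ≤ f (i x) (i y) := le_max_left _ _
      rw [dX, min_lt_iff, lt_min_iff, lt_min_iff] at h
      rcases h with h | h
      · exact h.1
      · linarith [h.2]⟩
  continuous_invFun := Metric.continuous_iff.mpr fun y ε hε =>
    ⟨ε, hε, fun x h => (min_le_left _ _).trans_lt h⟩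

theorem far (r c : ℝ) (n : ℤ) (h1 : 20 * n + c ≤ r) (h2 : r ≤ 20 * (n + 1) - c) :
    c ≤ ‖(r : A)‖ := by
  rw [AddCircle.norm_eq]
  generalize round ((20 : ℝ)⁻¹ * r) = m
  rcases le_or_gt m n with h | h
  · have : (m : ℝ) ≤ n := by exact_mod_cast h
    exact le_abs.mpr (.inl (by linarith))
  · have : (n + 1 : ℝ) ≤ m := by exact_mod_cast h
    exact le_abs.mpr (.inr (by linarith))

theorem near (r : ℝ) : ‖(r : A)‖ ≤ |r| := QuotientAddGroup.norm_mk_le_norm

def N (x y : A) : Prop := ∃ a b t : ℝ, x = a ∧ y = b ∧ 0 ≤ t ∧ t ≤ 16 ∧ |a - t| < 1 / 2 ∧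
  |b - (2 + 5 * t / 4)| < 1 / 2

theorem lift (x : A) (t : ℝ) (h : dist x t < 1 / 2) : ∃ a : ℝ, x = a ∧ |a - t| < 1 / 2 := by
  obtain ⟨a, rfl⟩ := QuotientAddGroup.mk_surjective x
  rw [dist_eq_norm, ← AddCircle.coe_sub, AddCircle.norm_eq] at h
  refine ⟨a - round ((20 : ℝ)⁻¹ * (a - t)) * 20, ?_, by rwa [sub_right_comm]⟩
  rw [AddCircle.coe_sub, ← zsmul_eq_mul, AddCircle.coe_zsmul, AddCircle.coe_period]; simp

theorem inN (x y : A) (h : infDist (x, y) K < 1 / 2) : N x y := by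
  obtain ⟨_, ⟨t, ht, rfl⟩, h⟩ := (infDist_lt_iff (s := K)
    ((nonempty_Icc.mpr (by norm_num)).image _)).mp h
  rw [Prod.dist_eq, max_lt_iff] at h
  obtain ⟨a, ha, ha'⟩ := lift _ _ h.1
  obtain ⟨b, hb, hb'⟩ := lift _ _ h.2
  exact ⟨a, b, t, ha, hb, ht.1, ht.2, ha', hb'⟩

theorem split {Z : Set (A × A)} (hZ : IsPreconnected Z) (φ : A × A → ℝ) (hφ : Continuous φ)
    (c : ℝ) (h : ∀ p ∈ Z, φ p ≠ c) : (∀ p ∈ Z, φ p < c) ∨ ∀ p ∈ Z, c < φ p := by
  by_contra! H
  obtain ⟨⟨p, hp, h1⟩, q, hq, h2⟩ := H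
  obtain ⟨r, hr, e⟩ := hZ.intermediate_value hq hp hφ.continuousOn ⟨h2, h1⟩
  exact h r hr e

theorem core (Z : Set (A × A)) (hZ : IsConnected Z) (he : Prod.fst '' Z = Prod.snd '' Z)
    (h : ∀ p ∈ Z, N p.1 p.2) : False := by
  have ex : ∀ p ∈ Z, ∃ q ∈ Z, q.1 = p.2 := fun p hp =>
    (he ▸ mem_image_of_mem _ hp : p.2 ∈ Prod.fst '' Z)
  have gap : ∀ p ∈ Z, ∀ b : ℝ, p.2 = b → b < 33 / 2 ∨ 39 / 2 < b := fun p hp b hb => by
    obtain ⟨q, hq, e⟩ := ex p hp
    obtain ⟨a, -, t, ha, -, t0, t1, h1, -⟩ := h q hq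
    rw [abs_lt] at h1
    by_contra! H
    have := (AddCircle.coe_eq_coe_iff_of_mem_Ico (p := (20 : ℝ)) (a := -1 / 2 + (a + 1 / 2) / 2 / 17)
      (x := a) (y := b) ⟨by linarith, by linarith⟩ ⟨by linarith, by linarith⟩).mp
      (by rw [← ha, e, hb])
    linarith
  have two : ∀ p ∈ Z, ∀ a b t : ℝ, p.1 = a → p.2 = b → 0 ≤ t → t ≤ 16 → |a - t| < 1 / 2 →
      |b - (2 + 5 * t / 4)| < 1 / 2 → (b < 33 / 2 ∧ 2 < ‖p.1 - (15 : ℝ)‖) ∨
        (39 / 2 < b ∧ ‖p.1 - (15 : ℝ)‖ < 2) := by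
    intro p hp a b t ha hb t0 t1 h1 h2
    rw [abs_lt] at h1 h2
    rw [ha, ← AddCircle.coe_sub]
    refine (gap p hp b hb).imp (fun g => ⟨g, ?_⟩) fun g => ⟨g, (near _).trans_lt ?_⟩
    · linarith [far (a - 15) (5 / 2) (-1) (by push_cast; linarith) (by push_cast; linarith)]
    · rw [abs_lt]; constructor <;> linarith
  obtain ⟨p0, hp0⟩ := hZ.nonempty
  rcases split hZ.isPreconnected (fun p => ‖p.1 - (15 : ℝ)‖) (by fun_prop) 2 (fun p hp => by
    obtain ⟨a, b, t, ha, hb, t0, t1, h1, h2⟩ := h p hp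
    rcases two p hp a b t ha hb t0 t1 h1 h2 with g | g <;> linarith [g.2]) with H | H
  · obtain ⟨a, b, t, ha, hb, t0, t1, h1, h2⟩ := h p0 hp0
    obtain ⟨q, hq, e⟩ := ex p0 hp0
    have g := H q hq
    rcases two p0 hp0 a b t ha hb t0 t1 h1 h2 with g' | g'
    · linarith [g'.2, H p0 hp0]
    rw [e, hb, ← AddCircle.coe_sub] at g
    rw [abs_lt] at h2
    linarith [far (b - 15) 2 0 (by push_cast; linarith) (by push_cast; linarith)]
  · have : ∀ n : ℕ, ∃ p ∈ Z, ∃ a : ℝ, p.1 = a ∧ n - 1 < a ∧ a < 33 / 2 := fun n => by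
      induction n with
      | zero =>
        obtain ⟨a, b, t, ha, -, t0, t1, h1, -⟩ := h p0 hp0
        rw [abs_lt] at h1
        exact ⟨p0, hp0, a, ha, by push_cast; linarith, by linarith⟩
      | succ n ih =>
        obtain ⟨p, hp, a', ha', g1, g2⟩ := ih
        obtain ⟨a, b, t, ha, hb, t0, t1, h1, h2⟩ := h p hp
        obtain ⟨q, hq, e⟩ := ex p hp
        rcases two p hp a b t ha hb t0 t1 h1 h2 with g' | g'
        · rw [abs_lt] at h1 h2
          have : (0 : ℝ) ≤ n := n.cast_nonneg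
          have := (AddCircle.coe_eq_coe_iff_of_mem_Ico (p := (20 : ℝ)) (a := -1) (x := a) (y := a')
            ⟨by linarith, by linarith⟩ ⟨by linarith, by linarith⟩).mp (ha.symm.trans ha')
          exact ⟨q, hq, b, e.trans hb, by push_cast; linarith, g'.1⟩
        · linarith [g'.2, H p hp]
    obtain ⟨-, -, a, -, g1, g2⟩ := this 18
    push_cast at g1; linarith

theorem none (Z : Set (A × A)) (hZ : IsConnected Z) (he : Prod.fst '' Z = Prod.snd '' Z)
    (h : ∀ p ∈ Z, N p.1 p.2 ∨ N p.2 p.1) : False := by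
  have h1 : ∀ x y, N x y → ‖y - x - (4 : ℝ)‖ < 4 := by
    rintro _ _ ⟨a, b, t, rfl, rfl, t0, t1, h1, h2⟩
    rw [← AddCircle.coe_sub, ← AddCircle.coe_sub]
    rw [abs_lt] at h1 h2
    exact (near _).trans_lt (abs_lt.mpr ⟨by linarith, by linarith⟩)
  have h2 : ∀ x y, N y x → 4 < ‖y - x - (4 : ℝ)‖ := by
    rintro _ _ ⟨a, b, t, rfl, rfl, t0, t1, h1, h2⟩
    rw [← AddCircle.coe_sub, ← AddCircle.coe_sub]
    rw [abs_lt] at h1 h2
    linarith [far (a - b - 4) 5 (-1) (by push_cast; linarith) (by push_cast; linarith)]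
  rcases split hZ.isPreconnected (fun p => ‖p.2 - p.1 - (4 : ℝ)‖) (by fun_prop) 4 (fun p hp =>
    (h p hp).elim (fun g => (h1 _ _ g).ne) fun g => (h2 _ _ g).ne') with H | H
  · exact core Z hZ he fun p hp => (h p hp).resolve_right fun g => lt_asymm (H p hp) (h2 _ _ g)
  · refine core (Prod.swap '' Z) (hZ.image _ continuous_swap.continuousOn)
      (by rw [image_image, image_image]; exact he.symm) ?_
    rintro _ ⟨p, hp, rfl⟩
    exact (h p hp).resolve_left fun g => lt_asymm (H p hp) (h1 _ _ g)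

/-- The negation of the preceding statement: For every simple closed curve C in a metric space, the span of C (sup of ε with a connected Z in C×C, equal projections, all pairs at distance ≥ ε) equals the semi-span (same, second projection contained in first). -/
theorem result :
    ¬ (∀ (X : Type) [MetricSpace X] (C : Set X),
      Nonempty (↥C ≃ₜ ↥(Metric.sphere (0 : ℂ) 1)) →
      sSup {ε : ℝ | ∃ Z : Set (X × X), Z ⊆ C ×ˢ C ∧ IsConnected Z ∧
          Prod.fst '' Z = Prod.snd '' Z ∧ ∀ p ∈ Z, ε ≤ dist p.1 p.2}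
        = sSup {ε : ℝ | ∃ Z : Set (X × X), Z ⊆ C ×ˢ C ∧ IsConnected Z ∧
          Prod.snd '' Z ⊆ Prod.fst '' Z ∧ ∀ p ∈ Z, ε ≤ dist p.1 p.2}) := by
  intro h
  have h := h X univ ⟨(Homeomorph.Set.univ X).trans
    (hom.trans (AddCircle.homeomorphCircle (by norm_num)))⟩
  have h1 := Real.sSup_le (a := 3 / 2) (s := {ε : ℝ | ∃ Z : Set (X × X), Z ⊆ univ ×ˢ univ ∧
      IsConnected Z ∧ Prod.fst '' Z = Prod.snd '' Z ∧ ∀ p ∈ Z, ε ≤ dist p.1 p.2}) (by
    rintro ε ⟨Z, -, hZ, he, hd⟩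
    by_contra! H
    refine none _ (hZ.image _ (hom.continuous.prodMap hom.continuous).continuousOn)
      (by rw [image_image, image_image]; exact he) ?_
    rintro _ ⟨p, hp, rfl⟩
    have := (H.trans_le (hd p hp)).trans_le (min_le_right _ _)
    rw [f, lt_max_iff, lt_max_iff] at this
    rcases this with g | g | g
    · norm_num at g
    · exact .inl (inN (i p.1) (i p.2) (by linarith))
    · exact .inr (inN (i p.2) (i p.1) (by linarith))) (by norm_num)
  rw [h] at h1
  refine absurd (le_trans (le_csSup ⟨2, ?_⟩ (a := 2) ?_) h1) (by norm_num)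
  · rintro ε ⟨Z, -, ⟨⟨p, hp⟩, -⟩, -, hd⟩
    exact (hd p hp).trans ((min_le_right _ _).trans (f_le _ _))
  · refine ⟨(fun t : ℝ => (hom.symm ((2 + 5 * t / 4 : ℝ) : A), hom.symm (t : A))) '' Icc 0 16,
      by simp, (isConnected_Icc (by norm_num)).image _ (Continuous.continuousOn (by fun_prop)),
      fun x _ => ?_, ?_⟩
    · obtain ⟨b, hb, e⟩ := AddCircle.eq_coe_Ico (p := (20 : ℝ)) (i x - (2 : ℝ))
      refine ⟨_, ⟨4 * b / 5, ⟨by linarith [hb.1], by linarith [hb.2]⟩, rfl⟩, ?_⟩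
      change ((2 + 5 * (4 * b / 5) / 4 : ℝ) : A) = i x
      rw [show 2 + 5 * (4 * b / 5) / 4 = 2 + b by ring, AddCircle.coe_add, e]; simp
    · rintro _ ⟨t, ht, rfl⟩
      refine le_min ?_ (le_max_of_le_right (le_max_of_le_right ?_))
      · change 2 ≤ dist ((2 + 5 * t / 4 : ℝ) : A) (t : A)
        rw [dist_eq_norm, ← AddCircle.coe_sub]
        exact far _ 2 0 (by push_cast; linarith [ht.1]) (by push_cast; linarith [ht.2])
      · change 2 ≤ 2 - infDist ((t : A), ((2 + 5 * t / 4 : ℝ) : A)) K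
        rw [infDist_zero_of_mem (s := K) ⟨t, ht, rfl⟩, sub_zero]

end Pool.Agent.S13204
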