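import Pool.Statements.S13210
import Pool.Agent.H31.Iso1

set_option autoImplicit false
open MeasureTheory
open scoped Pointwise
open Pool Pool.MP_598757_gt

namespace Pool.Agent.S13210

open Set Pool.Agent.H31.Iso

abbrev E := EuclideanSpace ℝ (Fin 3)

/-- coordinates in an orthonormal basis -/
noncomputable def T (b : OrthonormalBasis (Fin 3) ℝ E) : E →ₗ[ℝ] (Fin 3 → ℝ) :=
  (WithLp.linearEquiv 2 ℝ (Fin 3 → ℝ)).toLinearMap ∘ₗ b.repr.toLinearEquiv.toLinearMap

lemma T_apply (b : OrthonormalBasis (Fin 3) ℝ E) (x : E) (i : Fin 3) : T b x i = b.repr x i := rfl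

lemma T_cont (b : OrthonormalBasis (Fin 3) ℝ E) : Continuous (T b) :=
  LinearMap.continuous_of_finiteDimensional _

lemma volT (b : OrthonormalBasis (Fin 3) ℝ E) (S : Set E) : volume S = volume (T b '' S) := by
  have h : MeasurePreserving (b.measurableEquiv.trans (MeasurableEquiv.toLp 2 (Fin 3 → ℝ)).symm) :=
    b.measurePreserving_measurableEquiv.trans
      (EuclideanSpace.volume_preserving_symm_measurableEquiv_toLp (Fin 3))
  rw [← h.measure_preimage_equiv (T b '' S)]
  congr 1
  exact (Set.preimage_image_eq S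
    (b.measurableEquiv.trans (MeasurableEquiv.toLp 2 (Fin 3 → ℝ)).symm).injective).symm

lemma T_abs (b : OrthonormalBasis (Fin 3) ℝ E) (x : E) (i : Fin 3) : |T b x i| ≤ ‖x‖ := by
  rw [T_apply, ← b.repr.norm_map x]
  exact PiLp.norm_apply_le (b.repr x) i

lemma T_smul (b : OrthonormalBasis (Fin 3) ℝ E) (r : ℝ) (i : Fin 3) :
    T b (r • b i) = Pi.single i r := by
  funext j
  rw [T_apply, map_smul, b.repr_self]
  by_cases h : j = i
  · subst h; simp
  · simp [h]

lemma T_proj (b : OrthonormalBasis (Fin 3) ℝ E) (k : E) :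
    T b (k - (inner ℝ (b 0) k) • b 0) = ins 0 0 (pr 0 (T b k)) := by
  rw [map_sub, T_smul]
  apply ext_pr 0
  · simp [ins_self, T_apply, b.repr_apply_apply]
  · rw [pr_ins]
    funext j
    simp [pr]

/-- a centred box -/
def box (v : Fin 3 → ℝ) : Set E := {x | ∀ i, |x i| ≤ v i}

lemma box_eq (v : Fin 3 → ℝ) : box v = (WithLp.ofLp : E → Fin 3 → ℝ) ⁻¹' Icc (-v) v := by
  ext x
  simp only [box, mem_ofPred_eq, mem_preimage, mem_Icc, Pi.le_def, Pi.neg_apply, abs_le, forall_and]

lemma box_meas (v : Fin 3 → ℝ) : MeasurableSet (box v) := by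
  rw [box_eq]
  exact (PiLp.volume_preserving_ofLp (Fin 3)).measurable measurableSet_Icc

lemma box_vol (v : Fin 3 → ℝ) : volume (box v) = ∏ i, ENNReal.ofReal (v i - (-v) i) := by
  rw [box_eq, (PiLp.volume_preserving_ofLp (Fin 3)).measure_preimage
    measurableSet_Icc.nullMeasurableSet, Real.volume_Icc_pi]

lemma box_fin (v : Fin 3 → ℝ) : volume (box v) ≠ ⊤ := by
  rw [box_vol]
  exact ENNReal.prod_ne_top fun _ _ => ENNReal.ofReal_ne_top

lemma box_real (a b c : ℝ) (ha : 0 ≤ a) (hb : 0 ≤ b) (hc : 0 ≤ c) :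
    (volume (box ![a, b, c])).toReal = 8 * a * b * c := by
  rw [box_vol, Fin.prod_univ_three, ENNReal.toReal_mul, ENNReal.toReal_mul]
  simp only [Pi.neg_apply, Matrix.cons_val_zero, Matrix.cons_val_one, Matrix.cons_val]
  rw [ENNReal.toReal_ofReal (by linarith), ENNReal.toReal_ofReal (by linarith),
    ENNReal.toReal_ofReal (by linarith)]
  ring

lemma box_compact (v : Fin 3 → ℝ) : IsCompact (box v) := by
  rw [box_eq]
  exact (PiLp.homeomorph 2 (fun _ : Fin 3 => ℝ)).isCompact_preimage.2 isCompact_Icc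

lemma box_convex (v : Fin 3 → ℝ) : Convex ℝ (box v) := by
  rw [box_eq]
  exact (convex_Icc (-v) v).linear_preimage (WithLp.linearEquiv 2 ℝ (Fin 3 → ℝ)).toLinearMap

lemma coord_le (x : E) (i : Fin 3) : |x i| ≤ ‖x‖ := PiLp.norm_apply_le x i

lemma mem_thick (v : Fin 3 → ℝ) (hv : ∀ i, 0 ≤ v i) (t : ℝ) (ht : 0 ≤ t) (i : Fin 3) (x : E)
    (h1 : |x i| ≤ v i + t) (h2 : ∀ j, j ≠ i → |x j| ≤ v j) : x ∈ box v + Metric.closedBall (0 : E) t := by
  set r := x i - max (-v i) (min (x i) (v i)) with hr
  refine ⟨x - EuclideanSpace.single i r, ?_, EuclideanSpace.single i r, ?_, by simp⟩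
  · intro j
    by_cases h : j = i
    · subst h
      have : (x - EuclideanSpace.single j r : E) j = max (-v j) (min (x j) (v j)) := by simp [hr]
      rw [this, abs_le]
      have := hv j
      exact ⟨le_max_left _ _, max_le (by linarith) (min_le_right _ _)⟩
    · have : (x - EuclideanSpace.single i r : E) j = x j := by simp [h]
      rw [this]; exact h2 j h
  · rw [mem_closedBall_zero_iff, EuclideanSpace.norm_single, Real.norm_eq_abs, hr, abs_le]
    have := hv i
    have h3 := abs_le.1 h1
    rcases le_total (x i) (v i) with h | h <;> rcases le_total (-v i) (x i) with h' | h'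
    · rw [min_eq_left h, max_eq_right h']; constructor <;> linarith
    · rw [min_eq_left h, max_eq_left h']; constructor <;> linarith
    · rw [min_eq_right h, max_eq_right (by linarith)]; constructor <;> linarith
    · rw [min_eq_right h, max_eq_right (by linarith)]; constructor <;> linarith

lemma thick_bounds (c t : ℝ) (hc : 0 ≤ c) (ht : 0 ≤ t) :
    8 * c + 2 * t * (4 + 8 * c) ≤ (volume (box ![1, 1, c] + Metric.closedBall (0 : E) t)).toReal ∧
    (volume (box ![1, 1, c] + Metric.closedBall (0 : E) t)).toReal ≤ 8 * (1 + t) * (1 + t) * (c + t) := by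
  have hup : box ![1, 1, c] + Metric.closedBall (0 : E) t ⊆ box ![1 + t, 1 + t, c + t] := by
    rintro _ ⟨x, hx, w, hw, rfl⟩ i
    rw [mem_closedBall_zero_iff] at hw
    have h1 := hx i
    have h2 := (coord_le w i).trans hw
    have h3 : |(x + w) i| ≤ |x i| + |w i| := by simpa using abs_add_le (x i) (w i)
    fin_cases i <;> simp at h1 h2 h3 ⊢ <;> linarith
  have hfin : volume (box ![1, 1, c] + Metric.closedBall (0 : E) t) ≠ ⊤ :=
    ne_top_of_le_ne_top (box_fin _) (measure_mono hup)
  have hv : ∀ i, 0 ≤ (![1, 1, c] : Fin 3 → ℝ) i := by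
    intro i; fin_cases i <;> simp [hc]
  constructor
  · set B0 := box ![1 + t, 1, c]
    set B1 := box ![1, 1 + t, c]
    set B2 := box ![1, 1, c + t]
    have h1 := measure_union_add_inter (μ := volume) B0 (box_meas ![1, 1 + t, c])
    have h2 := measure_union_add_inter (μ := volume) (B0 ∪ B1) (box_meas ![1, 1, c + t])
    have h3 : volume (B0 ∩ B1) ≤ volume (box ![1, 1, c]) := by
      apply measure_mono
      rintro x ⟨hx0, hx1⟩ i
      fin_cases i
      · exact hx1 0
      · exact hx0 1
      · exact hx0 2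
    have h4 : volume ((B0 ∪ B1) ∩ B2) ≤ volume (box ![1, 1, c]) := by
      apply measure_mono
      rintro x ⟨hx0, hx1⟩ i
      fin_cases i
      · exact hx1 0
      · exact hx1 1
      · rcases hx0 with h | h
        · exact h 2
        · exact h 2
    have h5 : volume (B0 ∪ B1 ∪ B2) ≤ volume (box ![1, 1, c] + Metric.closedBall (0 : E) t) := by
      apply measure_mono
      rintro x ((hx | hx) | hx)
      · refine mem_thick _ hv t ht 0 x (hx 0) fun j hj => ?_
        fin_cases j
        · exact absurd rfl hj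
        · exact hx 1
        · exact hx 2
      · refine mem_thick _ hv t ht 1 x (hx 1) fun j hj => ?_
        fin_cases j
        · exact hx 0
        · exact absurd rfl hj
        · exact hx 2
      · refine mem_thick _ hv t ht 2 x (hx 2) fun j hj => ?_
        fin_cases j
        · exact hx 0
        · exact hx 1
        · exact absurd rfl hj
    have h6 : volume B0 + volume B1 + volume B2 ≤
        volume (box ![1, 1, c] + Metric.closedBall (0 : E) t) + volume (box ![1, 1, c])
          + volume (box ![1, 1, c]) := by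
      calc volume B0 + volume B1 + volume B2 = volume (B0 ∪ B1) + volume B2 + volume (B0 ∩ B1) := by
            rw [← h1]; ring
        _ = volume (B0 ∪ B1 ∪ B2) + volume ((B0 ∪ B1) ∩ B2) + volume (B0 ∩ B1) := by rw [← h2]
        _ ≤ _ := add_le_add (add_le_add h5 h4) h3
    have h7 := ENNReal.toReal_mono (ENNReal.add_ne_top.2 ⟨ENNReal.add_ne_top.2 ⟨hfin, box_fin _⟩,
      box_fin _⟩) h6
    rw [ENNReal.toReal_add (ENNReal.add_ne_top.2 ⟨box_fin _, box_fin _⟩) (box_fin _),
      ENNReal.toReal_add (box_fin _) (box_fin _),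
      ENNReal.toReal_add (ENNReal.add_ne_top.2 ⟨hfin, box_fin _⟩) (box_fin _),
      ENNReal.toReal_add hfin (box_fin _), box_real _ _ _ (by linarith) (by linarith) (by linarith),
      box_real _ _ _ (by linarith) (by linarith) (by linarith),
      box_real _ _ _ (by linarith) (by linarith) (by linarith),
      box_real _ _ _ (by linarith) (by linarith) (by linarith)] at h7
    linarith
  · have h := ENNReal.toReal_mono (box_fin _) (measure_mono hup)
    rwa [box_real _ _ _ (by linarith) (by linarith) (by linarith)] at h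

lemma S_lim (c : ℝ) (hc : 0 ≤ c) : Filter.Tendsto (fun t : ℝ =>
        ((volume (box ![1, 1, c] + Metric.closedBall (0 : E) t)).toReal
          - (volume (box ![1, 1, c])).toReal) / (2 * t))
        (nhdsWithin 0 (Set.Ioi 0)) (nhds (4 + 8 * c)) := by
  have hup : Filter.Tendsto (fun t : ℝ => 4 + 8 * c + t * (8 + 4 * c + 4 * t))
      (nhdsWithin 0 (Set.Ioi 0)) (nhds (4 + 8 * c)) := by
    apply Filter.Tendsto.mono_left _ nhdsWithin_le_nhds
    have : Continuous fun t : ℝ => 4 + 8 * c + t * (8 + 4 * c + 4 * t) := by fun_prop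
    simpa using this.tendsto 0
  refine tendsto_of_tendsto_of_tendsto_of_le_of_le' tendsto_const_nhds hup ?_ ?_
  · filter_upwards [self_mem_nhdsWithin] with t ht
    have ht' : 0 < t := ht
    rw [le_div_iff₀ (by linarith), box_real _ _ _ (by linarith) (by linarith) hc]
    have := (thick_bounds c t hc ht'.le).1
    linarith
  · filter_upwards [self_mem_nhdsWithin] with t ht
    have ht' : 0 < t := ht
    rw [div_le_iff₀ (by linarith), box_real _ _ _ (by linarith) (by linarith) hc]
    have := (thick_bounds c t hc ht'.le).2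
    linarith

lemma proj_bound (K : Set E) (hc : IsCompact K) (hv : Convex ℝ K) (hR : ∀ x ∈ K, ‖x‖ ≤ 2)
    (u : E) (hu : ‖u‖ = 1) : ∃ A : ℝ,
      (volume (K + segment ℝ (0 : E) u)).toReal - (volume K).toReal = A ∧ (volume K).toReal ≤ 4 * A ∧
      ∀ t : ℝ, 0 ≤ t → t ≤ 1 →
        2 * t * A + A / 8 * t ^ 2 ≤ (volume ((fun x : E => x - (inner ℝ u x) • u) '' K
              + Metric.closedBall (0 : E) t)).toReal ∧
        (volume ((fun x : E => x - (inner ℝ u x) • u) '' K
              + Metric.closedBall (0 : E) t)).toReal ≤ 2 * t * A + 40 * t ^ 2 := by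
  obtain ⟨b, hb⟩ : ∃ b : OrthonormalBasis (Fin 3) ℝ E, b 0 = u := by
    have h : Orthonormal ℝ (({0} : Set (Fin 3)).domRestrict (fun _ : Fin 3 => u)) := by
      constructor
      · intro i; exact hu
      · intro i j hij
        exact absurd (Subsingleton.elim i j) hij
    obtain ⟨b, hb⟩ := h.exists_orthonormalBasis_extension_of_card_eq (by simp)
    exact ⟨b, hb 0 rfl⟩
  subst hb
  have hc' : IsCompact (T b '' K) := hc.image (T_cont b)
  have hv' : Convex ℝ (T b '' K) := hv.linear_image _
  have hcQ : IsCompact (pr 0 '' (T b '' K)) := hc'.image (continuous_pr 0)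
  have hvQ : Convex ℝ (pr 0 '' (T b '' K)) := convex_pr 0 hv'
  have hRQ : ∀ y ∈ pr 0 '' (T b '' K), ∀ j, |y j| ≤ 2 := by
    rintro _ ⟨_, ⟨k, hk, rfl⟩, rfl⟩ j
    exact (T_abs b k _).trans (hR k hk)
  refine ⟨(volume (pr 0 '' (T b '' K))).toReal, ?_, ?_, ?_⟩
  · have h1 : T b '' (K + segment ℝ (0 : E) (b 0)) = T b '' K + seg 0 0 1 := by
      rw [Set.image_add]
      congr 1
      rw [segment_eq_image, Set.image_image]
      unfold seg
      refine Set.image_congr fun r _ => ?_
      simp only [smul_zero, zero_add]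
      exact T_smul b r 0
    rw [volT b, h1, real_add_seg 0 hc' hv' (by norm_num), volT b K]
    ring
  · have h := real_le_of_bound 0 hc' (by norm_num : (0 : ℝ) ≤ 2) (by
      rintro _ ⟨k, hk, rfl⟩
      exact (T_abs b k _).trans (hR k hk))
    rw [volT b K]
    linarith
  · intro t ht ht1
    have hcomp : IsCompact ((fun x : E => x - (inner ℝ (b 0) x) • b 0) '' K
        + Metric.closedBall (0 : E) t) :=
      (hc.image (by fun_prop)).add (isCompact_closedBall _ _)
    rw [volT b]
    constructor
    · apply lower hcQ hvQ hRQ ht (hcomp.image (T_cont b)).measure_lt_top.ne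
      · rintro x hx ⟨_, ⟨k, hk, rfl⟩, h⟩
        refine ⟨_, ⟨_, ⟨k, hk, rfl⟩, x 0 • b 0, ?_, rfl⟩, ?_⟩
        · rw [mem_closedBall_zero_iff, norm_smul, b.orthonormal.1 0, mul_one]
          exact hx
        · simp only
          rw [map_add, T_proj, T_smul, ← ins_eq, h, ins_pr]
      · rintro x hx ⟨_, ⟨_, ⟨k, hk, rfl⟩, rfl⟩, _, ⟨r, hr, rfl⟩, h⟩
        refine ⟨_, ⟨_, ⟨k, hk, rfl⟩, x 0 • b 0 + r • b 1, ?_, rfl⟩, ?_⟩
        · rw [mem_closedBall_zero_iff]
          refine (norm_add_le _ _).trans ?_
          rw [norm_smul, norm_smul, b.orthonormal.1 0, b.orthonormal.1 1, mul_one, mul_one,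
            Real.norm_eq_abs, Real.norm_eq_abs, abs_of_nonneg hr.1]
          linarith [hr.2]
        · simp only at h ⊢
          rw [map_add, map_add, T_proj, T_smul, T_smul, ← add_assoc, ← ins_eq]
          apply ext_pr 0
          · simp [ins_self]
          · rw [pr_add, pr_ins, ← h]
            congr 1
            funext j
            fin_cases j <;> simp [pr]
    · apply upper hcQ hvQ hRQ ht ht1
      rintro _ ⟨_, ⟨_, ⟨k, hk, rfl⟩, w, hw, rfl⟩, rfl⟩
      rw [mem_closedBall_zero_iff] at hw
      simp only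
      rw [map_add, T_proj]
      refine ⟨?_, pr 0 (T b k), ⟨_, ⟨k, hk, rfl⟩, rfl⟩, fun j => ?_⟩
      · rw [Pi.add_apply, ins_self, zero_add]
        exact (T_abs b w 0).trans hw
      · rw [pr_add, pr_ins, Pi.add_apply, add_sub_cancel_left]
        exact (T_abs b w _).trans hw


/-- The negation of the preceding statement: For every convex body K in 3-space and real c: if every orthogonal plane projection has isoperimetric ratio π·area/V₁² at least c, then 9π·vol(K)²/(2·V₂(K)³) is at least c (V₁, V₂ given via Steiner-formula limits). -/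
theorem result :
    ¬ (∀ (K : Set (EuclideanSpace ℝ (Fin 3))) (c : ℝ),
    IsCompact K → Convex ℝ K → (interior K).Nonempty →
    (∀ u ∈ Metric.sphere (0 : EuclideanSpace ℝ (Fin 3)) 1, ∀ L : ℝ,
      Filter.Tendsto (fun t : ℝ =>
        ((volume ((fun x : EuclideanSpace ℝ (Fin 3) => x - (inner ℝ u x) • u) '' K
              + Metric.closedBall (0 : EuclideanSpace ℝ (Fin 3)) t)).toReal
          - 2 * t * ((volume (K + segment ℝ (0 : EuclideanSpace ℝ (Fin 3)) u)).toReal
              - (volume K).toReal)) / (Real.pi * t ^ 2))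
        (nhdsWithin 0 (Set.Ioi 0)) (nhds L) →
      c ≤ Real.pi * ((volume (K + segment ℝ (0 : EuclideanSpace ℝ (Fin 3)) u)).toReal
              - (volume K).toReal) / L ^ 2) →
    ∀ S : ℝ,
      Filter.Tendsto (fun t : ℝ =>
        ((volume (K + Metric.closedBall (0 : EuclideanSpace ℝ (Fin 3)) t)).toReal
          - (volume K).toReal) / (2 * t))
        (nhdsWithin 0 (Set.Ioi 0)) (nhds S) →
      c ≤ 9 * Real.pi * (volume K).toReal ^ 2 / (2 * S ^ 3)) := by
  intro h
  have hpi := Real.pi_gt_three
  have hV : (volume (box ![1, 1, 1 / 1000])).toReal = 8 / 1000 := by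
    rw [box_real _ _ _ (by norm_num) (by norm_num) (by norm_num)]; norm_num
  have h1 := h (box ![1, 1, 1 / 1000]) (Real.pi / 98000) (box_compact _) (box_convex _) ?_ ?_ _
    (S_lim (1 / 1000) (by norm_num))
  · rw [hV, le_div_iff₀ (by norm_num)] at h1
    nlinarith
  · refine ⟨0, mem_interior.2 ⟨Metric.ball 0 (1 / 1000), fun x hx i => ?_, Metric.isOpen_ball,
      Metric.mem_ball_self (by norm_num)⟩⟩
    rw [mem_ball_zero_iff] at hx
    have := coord_le x i
    fin_cases i <;> simp at this ⊢ <;> linarith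
  · intro u hu L hL
    have hR : ∀ x ∈ box ![1, 1, 1 / 1000], ‖x‖ ≤ 2 := by
      intro x hx
      have h0 : |x 0| ≤ 1 := hx 0
      have h1 : |x 1| ≤ 1 := hx 1
      have h2 : |x 2| ≤ 1 / 1000 := hx 2
      rw [EuclideanSpace.norm_eq, Real.sqrt_le_iff, Fin.sum_univ_three]
      simp only [Real.norm_eq_abs]
      have := abs_nonneg (x 0)
      have := abs_nonneg (x 1)
      have := abs_nonneg (x 2)
      constructor
      · norm_num
      · nlinarith
    obtain ⟨A, hA, hA2, hA3⟩ := proj_bound _ (box_compact _) (box_convex _) hR u (by simpa using hu)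
    rw [hA] at hL ⊢
    rw [hV] at hA2
    have hev : ∀ᶠ t : ℝ in nhdsWithin 0 (Set.Ioi 0), 0 < t ∧ t ≤ 1 := by
      filter_upwards [Ioc_mem_nhdsGT (show (0 : ℝ) < 1 by norm_num)] with t ht using ht
    have hL1 : L ≤ 14 := by
      refine le_of_tendsto hL ?_
      filter_upwards [hev] with t ht
      have := (hA3 t ht.1.le ht.2).2
      have h3 : 0 < t ^ 2 := pow_pos ht.1 2
      rw [div_le_iff₀ (by positivity)]
      nlinarith
    have hL2 : A / 8 / Real.pi ≤ L := by
      refine ge_of_tendsto hL ?_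
      filter_upwards [hev] with t ht
      have := (hA3 t ht.1.le ht.2).1
      have h3 : 0 < t ^ 2 := pow_pos ht.1 2
      rw [le_div_iff₀ (by positivity)]
      have e : A / 8 / Real.pi * (Real.pi * t ^ 2) = A / 8 * t ^ 2 := by field_simp
      rw [e]
      linarith
    have hA0 : 0 < A := by linarith
    have hL0 : 0 < L := lt_of_lt_of_le (by positivity) hL2
    rw [le_div_iff₀ (by positivity)]
    have h5 : L ^ 2 ≤ 196 := by nlinarith
    nlinarith

end Pool.Agent.S13210
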