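import Pool.Statements.S13232
-- import your own Pool.Agent.* helpers here

set_option autoImplicit false
open Pool Pool.MP_5abde9_gt

namespace Pool.Agent.S13232

open Set Filter Topology

theorem closure_off {α : Type} (D : Finset α → Set α) (hD : ∀ A, (D A).Countable) :
    ∃ S : Set α, S.Countable ∧ ∀ A : Finset α, (A : Set α) ⊆ S → D A ⊆ S := by
  let T : ℕ → Set α := fun n => Nat.rec ∅ (fun _ s => s ∪ ⋃ A ∈ {A : Finset α | (A : Set α) ⊆ s}, D A) n
  have hc : ∀ n, (T n).Countable := by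
    intro n
    induction n with
    | zero => exact countable_empty
    | succ n ih =>
      refine ih.union (Countable.biUnion ?_ fun A _ => hD A)
      exact (countable_ofPred_finite_subset ih).preimage_of_injOn
        (f := fun A : Finset α => (A : Set α)) (Finset.coe_injective.injOn) |>.mono
        fun A hA => And.intro A.finite_toSet hA
  have hm : Monotone T := monotone_nat_of_le_succ fun n => subset_union_left
  refine ⟨⋃ n, T n, countable_iUnion hc, fun A hA => ?_⟩
  obtain ⟨n, hn⟩ : ∃ n, (A : Set α) ⊆ T n :=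
    hm.directed_le.exists_mem_subset_of_finset_subset_biUnion hA
  refine subset_trans ?_ (subset_iUnion T (n + 1))
  exact subset_union_of_subset_right (subset_biUnion_of_mem (u := D) hn) _

theorem key {α C Z : Type} [TopologicalSpace C] [Uncountable Z] (H : (α → Bool) → Prop)
    (hH : ∀ ξ η : α → Bool, (∀ P, η P = true → ξ P = true) → H ξ → H η)
    (g : {ξ // H ξ} → C) (hg : Continuous g) (hs : Function.Surjective g)
    (a : Z → C) (ha : Function.Injective a) (ho : ∀ z, {a z} ∈ 𝓝 (a z))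
    (hG : ∀ c : C, ∃ U : ℕ → Set C, (∀ n, U n ∈ 𝓝 c) ∧ ∀ d, (∀ n, d ∈ U n) → d = c) : False := by
  classical
  have fin : ∀ y, ∀ U ∈ 𝓝 (g y), ∃ T : Set α, T.Finite ∧
      ∀ y' : {ξ // H ξ}, (∀ P ∈ T, y'.1 P = y.1 P) → g y' ∈ U := by
    intro y U hU
    have := hg.continuousAt.preimage_mem_nhds hU
    rw [mem_nhds_subtype] at this
    obtain ⟨u, hu, hsub⟩ := this
    rw [nhds_pi, Filter.mem_pi] at hu
    obtain ⟨I, hI, t, ht, hIt⟩ := hu
    refine ⟨I, hI, fun y' hy' => hsub (hIt fun P hP => ?_)⟩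
    rw [hy' P hP]
    exact mem_of_mem_nhds (ht P)
  have cnt : ∀ ξ : α → Bool, ∃ D : Set α, D.Countable ∧ ∀ h : H ξ,
      ∀ y' : {ξ // H ξ}, (∀ P ∈ D, y'.1 P = ξ P) → g y' = g ⟨ξ, h⟩ := by
    intro ξ
    by_cases h : H ξ
    · obtain ⟨U, hU, hU'⟩ := hG (g ⟨ξ, h⟩)
      choose T hT hT' using fun n => fin ⟨ξ, h⟩ (U n) (hU n)
      refine ⟨⋃ n, T n, countable_iUnion fun n => (hT n).countable, fun _ y' hy' => hU' _ fun n =>
        hT' n y' fun P hP => hy' P (mem_iUnion.2 ⟨n, hP⟩)⟩
    · exact ⟨∅, countable_empty, fun h' => absurd h' h⟩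
  choose D hD hD' using cnt
  obtain ⟨S, hS, hS'⟩ := closure_off (fun A => D fun P => decide (P ∈ A)) fun A => hD _
  have main : ∀ z, ∃ A : Finset α, (A : Set α) ⊆ S ∧ ∃ h : H fun P => decide (P ∈ A),
      g ⟨_, h⟩ = a z := by
    intro z
    obtain ⟨y, hy⟩ := hs (a z)
    obtain ⟨T, hT, hT'⟩ := fin y {a z} (hy ▸ ho z)
    let B : Finset α := hT.toFinset.filter fun P => y.1 P = true
    have hB : H fun P => decide (P ∈ B) := hH _ _ (fun P hP => by
      simp only [decide_eq_true_eq, B, Finset.mem_filter] at hP; exact hP.2) y.2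
    have h1 : g ⟨_, hB⟩ = a z := hT' _ fun P hP => by
      simp only [B, Finset.mem_filter, Finite.mem_toFinset, hP, true_and]
      cases y.1 P <;> simp
    let A : Finset α := B.filter (· ∈ S)
    have hA : H fun P => decide (P ∈ A) := hH _ _ (fun P hP => by
      simp only [decide_eq_true_eq, A, Finset.mem_filter] at hP ⊢; exact hP.1) hB
    have hAS : (A : Set α) ⊆ S := fun P hP => (Finset.mem_filter.1 hP).2
    refine ⟨A, hAS, hA, ?_⟩
    rw [← h1]
    refine (hD' _ hA _ fun P hP => ?_).symm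
    have : P ∈ S := hS' A hAS hP
    simp [A, this]
  choose A hA h hA' using main
  have hinj : Function.Injective fun z => (A z : Set α) := by
    intro z w e
    have e' : A z = A w := Finset.coe_injective e
    apply ha
    rw [← hA' z, ← hA' w]
    simp only [e']
  have := (countable_ofPred_finite_subset hS).preimage hinj
  refine not_countable_univ (this.mono fun z _ => And.intro (A z).finite_toSet (hA z))

abbrev Cs : Type := ℕ → Bool

def S : Set (Set Cs) := range (fun p : ℕ × Bool => {z : Cs | z p.1 = p.2}) ∪ range fun z : Cs => {z}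

def cyl (n : ℕ) (b : Bool) : S := ⟨{z | z n = b}, Or.inl ⟨(n, b), rfl⟩⟩
def pt (z : Cs) : S := ⟨{z}, Or.inr ⟨z, rfl⟩⟩

abbrev K : Type := {ξ : S → Bool // ∀ F : Finset S, (∀ P ∈ F, ξ P = true) → (⋂ P ∈ F, P.1).Nonempty}

instance : CompactSpace K := by
  refine (isCompact_iff_compactSpace (s := {ξ : S → Bool | ∀ F : Finset S,
    (∀ P ∈ F, ξ P = true) → (⋂ P ∈ F, P.1).Nonempty})).1 (IsClosed.isCompact ?_)
  have : {ξ : S → Bool | ∀ F : Finset S, (∀ P ∈ F, ξ P = true) → (⋂ P ∈ F, P.1).Nonempty} =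
      ⋂ F ∈ {F : Finset S | ¬ (⋂ P ∈ F, P.1).Nonempty}, (⋂ P ∈ F, {ξ : S → Bool | ξ P = true})ᶜ := by
    ext ξ
    simp only [mem_ofPred_eq, mem_iInter, mem_compl_iff]
    exact ⟨fun h F h1 h2 => h1 (h F h2), fun h F h1 => by_contra fun h2 => h F h2 h1⟩
  rw [this]
  refine isClosed_biInter fun F _ => IsOpen.isClosed_compl ?_
  exact isOpen_biInter_finset fun P _ => IsOpen.preimage (f := fun ξ : S → Bool => ξ P)
    (continuous_apply P) (isOpen_discrete {true})

def C : Set K := ⋂ n, {ξ | ξ.1 (cyl n true) = true ∨ ξ.1 (cyl n false) = true}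

theorem clop (P : S) (b : Bool) : IsClopen {ξ : K | ξ.1 P = b} :=
  (isClopen_discrete {b}).preimage ((continuous_apply P).comp continuous_subtype_val)

theorem pair (ξ : K) {P Q : S} (h1 : ξ.1 P = true) (h2 : ξ.1 Q = true) : ∃ z, z ∈ P.1 ∧ z ∈ Q.1 := by
  classical
  obtain ⟨z, hz⟩ := ξ.2 {P, Q} (by simp [h1, h2])
  simp only [mem_iInter] at hz
  exact ⟨z, hz P (by simp), hz Q (by simp)⟩

theorem cyl_iff (ξ : C) (n : ℕ) (b : Bool) : ξ.1.1 (cyl n b) = true ↔ ξ.1.1 (cyl n true) = b := by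
  have h1 := mem_iInter.1 ξ.2 n
  have h2 : ξ.1.1 (cyl n true) = true → ξ.1.1 (cyl n false) = true → False := fun a b => by
    obtain ⟨z, h3, h4⟩ := pair ξ.1 a b
    have h3 : z n = true := h3
    have h4 : z n = false := h4
    simp [h3] at h4
  simp only [mem_ofPred_eq] at h1
  cases b <;> cases h : ξ.1.1 (cyl n true) <;> simp_all

theorem pt_imp (ξ : C) (z : Cs) (h : ξ.1.1 (pt z) = true) : z = fun n => ξ.1.1 (cyl n true) := by
  ext n
  obtain ⟨w, h1, h2⟩ := pair ξ.1 h ((cyl_iff ξ n _).2 rfl)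
  have h1 : w = z := h1
  subst h1
  exact h2

theorem ext' (c d : C) (h1 : ∀ n, d.1.1 (cyl n true) = c.1.1 (cyl n true))
    (h2 : d.1.1 (pt fun n => c.1.1 (cyl n true)) = c.1.1 (pt fun n => c.1.1 (cyl n true))) : d = c := by
  ext ⟨P, hP⟩
  rcases hP with ⟨⟨n, b⟩, rfl⟩ | ⟨z, rfl⟩
  · show d.1.1 (cyl n b) = c.1.1 (cyl n b)
    rw [Bool.eq_iff_iff, cyl_iff, cyl_iff, h1]
  · show d.1.1 (pt z) = c.1.1 (pt z)
    by_cases hz : z = fun n => c.1.1 (cyl n true)
    · rw [hz, h2]
    · rw [Bool.eq_iff_iff]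
      exact ⟨fun h => absurd ((pt_imp d z h).trans (funext h1)) hz, fun h => absurd (pt_imp c z h) hz⟩

open Classical in
noncomputable def a (z : Cs) : C := ⟨⟨fun P => decide (z ∈ P.1), fun F hF => ⟨z, by
    simpa using hF⟩⟩, mem_iInter.2 fun n => by
  simp only [mem_ofPred_eq, cyl, decide_eq_true_eq]
  cases z n <;> simp⟩

theorem a_cyl (z : Cs) (n : ℕ) : (a z).1.1 (cyl n true) = z n := by
  simp [a, cyl]

theorem a_pt (z : Cs) : (a z).1.1 (pt z) = true := by simp [a, pt]

theorem nb (c : C) (P : S) : {d : C | d.1.1 P = c.1.1 P} ∈ 𝓝 c :=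
  ((clop P _).isOpen.preimage continuous_subtype_val).mem_nhds rfl

/-- The negation of the preceding statement: If a compact Hausdorff space is a continuous image of the space of subfamilies with the finite intersection property of some infinite family of sets, then every nonempty closed G-delta subset of it is also such a continuous image. -/
theorem result :
    ¬ (∀ (K : Type) [TopologicalSpace K] [CompactSpace K] [T2Space K],
      (∃ (X : Type) (S : Set (Set X)), S.Infinite ∧
        ∃ f : {ξ : S → Bool //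
            ∀ F : Finset S, (∀ P ∈ F, ξ P = true) → (⋂ P ∈ F, P.1).Nonempty} → K,
          Continuous f ∧ Function.Surjective f) →
      ∀ C : Set K, IsClosed C → IsGδ C → C.Nonempty →
        ∃ (X : Type) (S : Set (Set X)), S.Infinite ∧
          ∃ g : {ξ : S → Bool //
              ∀ F : Finset S, (∀ P ∈ F, ξ P = true) → (⋂ P ∈ F, P.1).Nonempty} → C,
            Continuous g ∧ Function.Surjective g) := by
  intro h
  have hS : S.Infinite := by
    refine Set.Infinite.mono subset_union_right (infinite_range_of_injective singleton_injective)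
  obtain ⟨X, S', -, g, hg, hs⟩ := h K ⟨Cs, S, hS, id, continuous_id, Function.surjective_id⟩ C
    (isClosed_iInter fun n => ((clop _ _).union (clop _ _)).isClosed)
    (IsGδ.iInter fun n => ((clop _ _).union (clop _ _)).isOpen.isGδ) ⟨_, (a fun _ => true).2⟩
  have : Uncountable Cs := by
    rw [← Cardinal.aleph0_lt_mk_iff]
    simp [Cardinal.aleph0_lt_continuum]
  refine key _ (fun ξ η h1 h2 F hF => h2 F fun P hP => h1 P (hF P hP)) g hg hs a ?_ ?_ ?_
  · intro z w e
    ext n
    rw [← a_cyl z, e, a_cyl]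
  · intro z
    refine mem_of_superset (nb (a z) (pt z)) fun d hd => ?_
    have hd : d.1.1 (pt z) = (a z).1.1 (pt z) := hd
    have e : (fun n => (a z).1.1 (cyl n true)) = z := funext (a_cyl z)
    refine ext' _ _ (fun n => ?_) (by rw [e]; exact hd)
    rw [a_pt] at hd
    rw [a_cyl, pt_imp d z hd]
  · intro c
    exact ⟨fun n => {d : C | d.1.1 (cyl n true) = c.1.1 (cyl n true)} ∩
      {d | d.1.1 (pt fun n => c.1.1 (cyl n true)) = c.1.1 (pt fun n => c.1.1 (cyl n true))},
      fun n => inter_mem (nb _ _) (nb _ _), fun d hd => ext' _ _ (fun n => (hd n).1) (hd 0).2⟩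

end Pool.Agent.S13232
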