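import Pool.Statements.S13234
import Pool.Agent.H17.CCc

set_option autoImplicit false
open Pool Pool.MP_5b75f6_gt

namespace Pool.Agent.S13234

/-- The negation of the preceding statement: For Tychonoff spaces X and Y: if the spaces of continuous real functions on X and on Y, with pointwise convergence, are homeomorphic, and Y is a countable union of pseudocompact subspaces, then X is also a countable union of pseudocompact subspaces. -/
theorem result :
    ¬ (∀ (X Y : Type) [TopologicalSpace X] [T35Space X] [TopologicalSpace Y] [T35Space Y],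
      (∃ e : C(X, ℝ) ≃ C(Y, ℝ),
        @Continuous C(X, ℝ) (Y → ℝ)
          (TopologicalSpace.induced (fun g : C(X, ℝ) => (g : X → ℝ)) inferInstance)
          inferInstance (fun g => ((e g : C(Y, ℝ)) : Y → ℝ)) ∧
        @Continuous C(Y, ℝ) (X → ℝ)
          (TopologicalSpace.induced (fun g : C(Y, ℝ) => (g : Y → ℝ)) inferInstance)
          inferInstance (fun g => ((e.symm g : C(X, ℝ)) : X → ℝ))) →
      (∃ S : ℕ → Set Y, (⋃ n, S n) = Set.univ ∧
        ∀ n, ∀ f : C(S n, ℝ), ∃ M : ℝ, ∀ a, |f a| ≤ M) →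
      (∃ S : ℕ → Set X, (⋃ n, S n) = Set.univ ∧
        ∀ n, ∀ f : C(S n, ℝ), ∃ M : ℝ, ∀ a, |f a| ≤ M)) := by
  intro h
  open Pool.Agent.H17.CC Pool.Agent.H17 in
  refine CD.X_not (h _ _ ⟨(LinearEquiv.ofLinearMap
    (half (CD.tr CD.r fun _ => CD.r (CD.w, 0)) fun f =>
      CD.tr_mem CD.r_cont (fun _ => continuous_const) (CD.r_mem f))
    (half (CD.tr (fun _ => CD.r (CD.w, 0)) CD.r) fun f =>
      CD.tr_mem (fun _ => continuous_const) CD.r_cont (CD.wedge_mem _ f)) ?_ ?_).toEquiv,
    continuous_induced_rng.1 (half_cont (CD.tr_cont _ _) _),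
    continuous_induced_rng.1 (half_cont (CD.tr_cont _ _) _)⟩ (CD.Y_pc _))
  · ext f s; obtain ⟨z, rfl⟩ := Pool.Agent.H17.CC.em_surj s
    exact congrFun (Pool.Agent.H17.CD.tr_tr _ _ fun z => f (Pool.Agent.H17.CC.em _ z)) z
  · ext f s; obtain ⟨z, rfl⟩ := Pool.Agent.H17.CC.em_surj s
    exact congrFun (Pool.Agent.H17.CD.tr_tr _ _ fun z => f (Pool.Agent.H17.CC.em _ z)) z

end Pool.Agent.S13234
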