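import Pool.Statements.S13321

set_option autoImplicit false
open Topology
open Pool Pool.MP_6b9469_gt

namespace Pool.Agent.S13321

/-- Every topological space having a σ-disjoint base and a σ-locally countable base also has a single base that is both σ-disjoint and σ-locally countable. -/
theorem result :
    ∀ (X : Type) [TopologicalSpace X],
      (∃ B : Set (Set X), TopologicalSpace.IsTopologicalBasis B ∧
        ∃ F : ℕ → Set (Set X), B = ⋃ n, F n ∧ ∀ n, (F n).PairwiseDisjoint id) →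
      (∃ B : Set (Set X), TopologicalSpace.IsTopologicalBasis B ∧
        ∃ F : ℕ → Set (Set X), B = ⋃ n, F n ∧
          ∀ n, ∀ x : X, ∃ U ∈ 𝓝 x, {S ∈ F n | (S ∩ U).Nonempty}.Countable) →
      ∃ B : Set (Set X), TopologicalSpace.IsTopologicalBasis B ∧
        (∃ F : ℕ → Set (Set X), B = ⋃ n, F n ∧ ∀ n, (F n).PairwiseDisjoint id) ∧
        (∃ G : ℕ → Set (Set X), B = ⋃ n, G n ∧
          ∀ n, ∀ x : X, ∃ U ∈ 𝓝 x, {S ∈ G n | (S ∩ U).Nonempty}.Countable) := by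
  intro X _ ⟨B, hB, F, hBF, hF⟩ ⟨B', hB', G, hBG, hG⟩
  let u : Set X → ℕ → Set X := fun b m => ⋃₀ {c ∈ G m | c ⊆ b}
  have hu : ∀ b m, u b m ⊆ b := fun b m => Set.sUnion_subset fun c hc => hc.2
  let H : ℕ → Set (Set X) := fun k => (fun b => u b k.unpair.2) '' F k.unpair.1
  refine ⟨⋃ k, H k, ?_, ⟨H, rfl, ?_⟩, ⟨H, rfl, ?_⟩⟩
  · apply TopologicalSpace.isTopologicalBasis_of_isOpen_of_nhds
    · intro s hs
      obtain ⟨k, b, -, rfl⟩ := Set.mem_iUnion.mp hs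
      exact isOpen_sUnion fun c hc => hB'.isOpen (hBG ▸ Set.mem_iUnion.mpr ⟨_, hc.1⟩)
    · intro x O hx hO
      obtain ⟨b, hb, h1, h2⟩ := hB.exists_subset_of_mem_open hx hO
      obtain ⟨c, hc, h3, h4⟩ := hB'.exists_subset_of_mem_open h1 (hB.isOpen hb)
      obtain ⟨n, hn⟩ := Set.mem_iUnion.mp (hBF ▸ hb)
      obtain ⟨m, hm⟩ := Set.mem_iUnion.mp (hBG ▸ hc)
      refine ⟨u b m, Set.mem_iUnion.mpr ⟨Nat.pair n m, b, ?_, ?_⟩, ⟨c, ⟨hm, h4⟩, h3⟩,
        (hu b m).trans h2⟩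
      · rwa [Nat.unpair_pair]
      · rw [Nat.unpair_pair]
  · rintro k _ ⟨b, hb, rfl⟩ _ ⟨b', hb', rfl⟩ hne
    exact (hF _ hb hb' fun h => hne (by rw [h])).mono (hu _ _) (hu _ _)
  · intro k x
    obtain ⟨U, hU, hc⟩ := hG k.unpair.2 x
    refine ⟨U, hU, ?_⟩
    have key : ∀ c ∈ {S ∈ G k.unpair.2 | (S ∩ U).Nonempty},
        ((fun b => u b k.unpair.2) '' {b ∈ F k.unpair.1 | c ⊆ b}).Countable := by
      intro c hc'
      refine (Set.Subsingleton.countable ?_).image _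
      intro b hb b' hb'
      by_contra hne
      obtain ⟨y, hy, -⟩ := hc'.2
      exact Set.disjoint_left.mp (hF _ hb.1 hb'.1 hne) (hb.2 hy) (hb'.2 hy)
    refine (hc.biUnion key).mono ?_
    rintro _ ⟨⟨b, hb, rfl⟩, y, ⟨c, hc', hy⟩, hyU⟩
    exact Set.mem_iUnion₂.mpr ⟨c, ⟨hc'.1, y, hy, hyU⟩, b, ⟨hb, hc'.2⟩, rfl⟩

end Pool.Agent.S13321
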