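import Pool.Statements.S13356

set_option autoImplicit false
open Pool Pool.MP_6e1b9b_gt

namespace Pool.Agent.S13356

open Set Metric unitInterval

noncomputable def t : ℕ → unitInterval := TopologicalSpace.denseSeq unitInterval

def Z : Set (ℝ × ℝ) := {q | q.2 ≤ 0 ∨ ∃ n : ℕ, q.1 = t n ∧ q.2 ≤ 1 / ((n : ℝ) + 1)}

theorem Z_closed : IsClosed Z := by
  have : Z = ⋂ m : ℕ, ({q : ℝ × ℝ | q.2 ≤ 1 / ((m : ℝ) + 1)} ∪
      ⋃ n ∈ Finset.range m, {q : ℝ × ℝ | q.1 = t n ∧ q.2 ≤ 1 / ((n : ℝ) + 1)}) := by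
    ext q
    simp only [Z, mem_ofPred_eq, mem_iInter, mem_union, mem_iUnion, Finset.mem_range]
    constructor
    · rintro (h | ⟨n, h1, h2⟩) m
      · left
        have : (0 : ℝ) < 1 / ((m : ℝ) + 1) := by positivity
        linarith
      · by_cases hn : n < m
        · exact Or.inr ⟨n, hn, h1, h2⟩
        · left
          refine h2.trans ?_
          have : (m : ℝ) ≤ n := by exact_mod_cast not_lt.1 hn
          exact one_div_le_one_div_of_le (by positivity) (by linarith)
    · intro h
      by_cases hq : q.2 ≤ 0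
      · exact Or.inl hq
      · obtain ⟨m, hm⟩ := exists_nat_one_div_lt (not_le.1 hq)
        rcases h m with h1 | ⟨n, _, h1, h2⟩
        · linarith
        · exact Or.inr ⟨n, h1, h2⟩
  rw [this]
  refine isClosed_iInter fun m => IsClosed.union (isClosed_le continuous_snd continuous_const) ?_
  refine isClosed_biUnion_finset fun n _ => ?_
  exact (isClosed_eq continuous_fst continuous_const).inter
    (isClosed_le continuous_snd continuous_const)

noncomputable def hh (p : Fin 3 → unitInterval) : unitInterval :=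
  projIcc 0 1 zero_le_one ((p 1 : ℝ) + infDist ((p 0 : ℝ), (p 2 : ℝ)) Z)

theorem hh_cont : Continuous hh := by
  unfold hh
  refine continuous_projIcc.comp (Continuous.add (by fun_prop) ?_)
  exact (continuous_infDist_pt Z).comp (by fun_prop)

noncomputable def ff : C(Fin 3 → unitInterval, Fin 2 → unitInterval) :=
  ⟨fun p => ![p 0, hh p], by
    refine continuous_pi fun i => ?_
    fin_cases i
    · exact continuous_apply 0
    · exact hh_cont⟩

theorem ff_eq (p q : Fin 3 → unitInterval) : ff p = ff q ↔ p 0 = q 0 ∧ hh p = hh q := by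
  constructor
  · intro h
    exact ⟨congrFun h 0, congrFun h 1⟩
  · rintro ⟨h1, h2⟩
    show ![p 0, hh p] = ![q 0, hh q]
    rw [h1, h2]

theorem hh_base (x b : unitInterval) : hh ![x, b, 0] = b := by
  have : infDist ((x : ℝ), (0 : ℝ)) Z = 0 := infDist_zero_of_mem (Or.inl le_rfl)
  simp [hh, this]

theorem hh_diag (x b : unitInterval) (hb : b ≠ 0) : ∃ s : unitInterval, s ≠ 0 ∧ hh ![x, s, s] = b := by
  have hc : Continuous fun s : unitInterval => hh ![x, s, s] := by
    refine hh_cont.comp (continuous_pi fun i => ?_)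
    fin_cases i
    · exact continuous_const
    · exact continuous_id
    · exact continuous_id
  have h1 : hh ![x, 1, 1] = 1 := by
    have := infDist_nonneg (x := ((x : ℝ), (1 : ℝ))) (s := Z)
    simp only [hh]
    apply projIcc_of_right_le
    simp
    linarith
  have := intermediate_value_univ (0 : unitInterval) 1 hc
  obtain ⟨s, hs⟩ := this (show b ∈ Icc (hh ![x, 0, 0]) (hh ![x, 1, 1]) by
    rw [hh_base, h1]; exact ⟨b.2.1, b.2.2⟩)
  refine ⟨s, ?_, hs⟩
  rintro rfl
  simp only [hh_base] at hs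
  exact hb hs.symm

theorem hh_zero (p : Fin 3 → unitInterval) (h : hh p = 0) (hx : ∀ n, p 0 ≠ t n) :
    p = ![p 0, 0, 0] := by
  have h0 := infDist_nonneg (x := ((p 0 : ℝ), (p 2 : ℝ))) (s := Z)
  have h1 : (p 1 : ℝ) + infDist ((p 0 : ℝ), (p 2 : ℝ)) Z ≤ 0 := by
    have := (projIcc_eq_left (zero_lt_one' ℝ)).1 h
    simpa using this
  have h2 := (p 1).2.1
  have h3 : infDist ((p 0 : ℝ), (p 2 : ℝ)) Z = 0 := by linarith
  have h4 : ((p 0 : ℝ), (p 2 : ℝ)) ∈ Z :=
    (Z_closed.mem_iff_infDist_zero ⟨(0, 0), Or.inl le_rfl⟩).2 h3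
  have h5 : (p 2 : ℝ) = 0 := by
    rcases h4 with h4 | ⟨n, h4, _⟩
    · exact le_antisymm h4 (p 2).2.1
    · exact absurd (Subtype.ext h4) (hx n)
  funext i
  fin_cases i
  · rfl
  · exact Subtype.ext (show (p 1 : ℝ) = 0 by linarith)
  · exact Subtype.ext h5

theorem single (p : Fin 3 → unitInterval) (h : ∀ y, ff y = ff p → y = p) :
    p = ![p 0, 0, 0] ∧ ∀ n, p 0 ≠ t n := by
  have e1 := h ![p 0, hh p, 0] ((ff_eq _ _).2 ⟨rfl, hh_base _ _⟩)
  have hb : hh p = 0 := by
    by_contra hb
    obtain ⟨s, hs, hs'⟩ := hh_diag (p 0) (hh p) hb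
    have e2 := h ![p 0, s, s] ((ff_eq _ _).2 ⟨rfl, hs'⟩)
    have := congrFun (e2.trans e1.symm) 2
    exact hs this
  rw [hb] at e1
  refine ⟨e1.symm, fun n hn => ?_⟩
  have hpos : (0 : ℝ) < 1 / ((n : ℝ) + 1) := by positivity
  have hle : 1 / ((n : ℝ) + 1) ≤ 1 := by
    rw [div_le_one (by positivity)]
    have : (0 : ℝ) ≤ n := Nat.cast_nonneg n
    linarith
  let s : unitInterval := ⟨1 / ((n : ℝ) + 1), hpos.le, hle⟩
  have e2 := h ![p 0, 0, s] ((ff_eq _ _).2 ⟨rfl, by
    rw [hb]
    have : infDist ((p 0 : ℝ), (s : ℝ)) Z = 0 :=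
      infDist_zero_of_mem (Or.inr ⟨n, by rw [hn], le_rfl⟩)
    simp [hh, this]⟩)
  have := congrFun (e2.trans e1.symm) 2
  have h2 : (s : ℝ) = 0 := congrArg Subtype.val this
  exact hpos.ne' h2


/-- The negation of the preceding statement: For every continuous surjection f from the cube onto the square, if the set of points whose fiber is just themselves is totally disconnected, then some closed totally disconnected subset of the cube is mapped by f onto the whole square. -/
theorem result :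
    ¬ (∀ f : C(Fin 3 → unitInterval, Fin 2 → unitInterval),
      Function.Surjective f →
      IsTotallyDisconnected {x : Fin 3 → unitInterval | ∀ y, f y = f x → y = x} →
      ∃ K : Set (Fin 3 → unitInterval),
        IsClosed K ∧ IsTotallyDisconnected K ∧ f '' K = Set.univ) := by
  intro H
  obtain ⟨K, hK, hT, hf⟩ := H ff (fun y => ⟨![y 0, y 1, 0], by
      funext i
      fin_cases i
      · rfl
      · exact hh_base _ _⟩) (by
      intro s hs hc a ha b hb
      have hc' := (hc.image (fun p => p 0) (continuous_apply 0).continuousOn).ordConnected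
      have key : ∀ a ∈ s, ∀ b ∈ s, ¬ a 0 < b 0 := by
        intro a ha b hb hlt
        obtain ⟨n, hn⟩ := (TopologicalSpace.denseRange_denseSeq unitInterval).exists_mem_open
          isOpen_Ioo (nonempty_Ioo.2 hlt)
        obtain ⟨c, hc1, hc2⟩ := hc'.out ⟨a, ha, rfl⟩ ⟨b, hb, rfl⟩ ⟨hn.1.le, hn.2.le⟩
        exact (single c (hs hc1)).2 n hc2
      have : a 0 = b 0 := le_antisymm (not_lt.1 (key b hb a ha)) (not_lt.1 (key a ha b hb))
      rw [(single a (hs ha)).1, (single b (hs hb)).1, this])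
  let g : ℝ → Fin 3 → unitInterval := fun r => ![projIcc 0 1 zero_le_one r, 0, 0]
  have hg : Continuous g := by
    refine continuous_pi fun i => ?_
    fin_cases i
    · exact continuous_projIcc (h := zero_le_one)
    · exact continuous_const
    · exact continuous_const
  have hA : IsClosed (g ⁻¹' K ∪ (Ioo (0 : ℝ) 1)ᶜ) := (hK.preimage hg).union isOpen_Ioo.isClosed_compl
  have hD : Dense (range fun n => (t n : ℝ))ᶜ := (countable_range _).dense_compl ℝ
  have hsub : (range fun n => (t n : ℝ))ᶜ ⊆ g ⁻¹' K ∪ (Ioo (0 : ℝ) 1)ᶜ := by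
    intro r hr
    by_cases h01 : r ∈ Ioo (0 : ℝ) 1
    · left
      obtain ⟨p, hp, hfp⟩ : ff (g r) ∈ ff '' K := hf ▸ mem_univ _
      obtain ⟨e1, e2⟩ := (ff_eq _ _).1 hfp
      have e3 : p 0 = ⟨r, h01.1.le, h01.2.le⟩ := by
        rw [e1]; exact projIcc_of_mem zero_le_one ⟨h01.1.le, h01.2.le⟩
      have e4 := hh_zero p (e2.trans (hh_base _ _)) (fun n hn => hr ⟨n, by
        show (t n : ℝ) = r
        rw [← hn, e3]⟩)
      have : g r = p := by rw [e4, e1]; rfl
      show g r ∈ K
      rw [this]; exact hp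
    · exact Or.inr h01
  have hall : g '' Ioo (0 : ℝ) 1 ⊆ K := by
    rintro _ ⟨r, hr, rfl⟩
    have : r ∈ closure (range fun n => (t n : ℝ))ᶜ := hD r
    rcases hA.closure_subset_iff.2 hsub this with h | h
    · exact h
    · exact absurd hr h
  have := hT _ hall (isPreconnected_Ioo.image g hg.continuousOn)
    ⟨1 / 3, by norm_num, rfl⟩ ⟨2 / 3, by norm_num, rfl⟩
  have h2 := congrArg Subtype.val (congrFun this 0)
  simp only [g, Matrix.cons_val_zero] at h2
  rw [projIcc_of_mem _ (by norm_num), projIcc_of_mem _ (by norm_num)] at h2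
  norm_num at h2

end Pool.Agent.S13356
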