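import Pool.Statements.S13377
-- import your own Pool.Agent.* helpers here

set_option autoImplicit false
open Pool Pool.MP_717cd6_gt

namespace Pool.Agent.S13377

open Set Cardinal Filter Topology

abbrev X0 : Type := (ℕ × ℕ → ℝ) × (ℕ → Option (Set (ℕ × ℕ)))
abbrev I0 : Type := Set ℝ

def Fn (P : Set (I0 × Bool)) : Prop := P.Countable ∧ ∀ i, (i, true) ∈ P → (i, false) ∉ P

def Box (b : I0 → X0 → Bool) (P : Set (I0 × Bool)) : Set X0 := {x | ∀ p ∈ P, b p.1 x = p.2}

open Classical in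
noncomputable def b0 (A : I0) (x : X0) : Bool := decide (∃ n, x.2 n = some (x.1 ⁻¹' A))

theorem indep {P : Set (I0 × Bool)} (hP : Fn P) : (Box b0 P).Nonempty := by
  obtain ⟨A, hA⟩ := ((hP.1.image Prod.fst).insert ∅).exists_eq_range (insert_nonempty _ _)
  have : ∀ z : ℕ × ℕ, ∃ r : ℝ, A z.1 ≠ A z.2 → ¬ (r ∈ A z.1 ↔ r ∈ A z.2) := fun z => by
    by_cases h : A z.1 = A z.2
    · exact ⟨0, fun h' => (h' h).elim⟩
    · obtain ⟨r, hr⟩ := not_forall.1 (mt Set.ext h)
      exact ⟨r, fun _ => hr⟩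
  choose t ht using this
  obtain ⟨g, hg⟩ := ((((hP.1.mono (sep_subset P fun p => p.2 = true)).image
    fun p => some (t ⁻¹' p.1))).insert none).exists_eq_range (insert_nonempty _ _)
  refine ⟨(t, g), ?_⟩
  rintro ⟨B, e⟩ hp
  cases e with
  | true =>
    simp only [b0, decide_eq_true_eq]
    exact (hg ▸ Or.inr ⟨(B, true), ⟨hp, rfl⟩, rfl⟩ : some (t ⁻¹' B) ∈ range g)
  | false =>
    simp only [b0, decide_eq_false_iff_not]
    intro h
    have h1 : some (t ⁻¹' B) ∈ range g := h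
    rw [← hg] at h1
    rcases h1 with h1 | ⟨⟨C, e⟩, ⟨hC, he⟩, h2⟩
    · simp at h1
    · simp only at he h2
      subst he
      obtain ⟨m, hm⟩ : B ∈ range A := hA ▸ Or.inr ⟨_, hp, rfl⟩
      obtain ⟨n, hn⟩ : C ∈ range A := hA ▸ Or.inr ⟨_, hC, rfl⟩
      have hne : A m ≠ A n := by
        rw [hm, hn]; rintro rfl; exact hP.2 _ hC hp
      have h3 := Set.ext_iff.1 (Option.some.inj h2) (m, n)
      refine ht (m, n) hne ?_
      simp only [hm, hn]
      exact h3.symm

theorem exists_code : ∃ c : I0 → Set X0 × X0, Function.Surjective c := by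
  have h1 : #X0 = 𝔠 := by
    simp [X0, mk_real, add_one_eq aleph0_le_continuum]
  have : #(Set X0 × X0) ≤ #I0 := by
    rw [mk_prod, mk_set, h1, mk_set, mk_real, lift_id, lift_id]
    exact (mul_le_mul' le_rfl (cantor _).le).trans
      (mul_eq_self (aleph0_le_continuum.trans (cantor _).le)).le
  obtain ⟨e⟩ := this
  exact ⟨Function.invFun e, Function.invFun_surjective e.injective⟩

def Small (F : Set X0) : Prop := ∀ P, Fn P → ∃ Q, Fn Q ∧ P ⊆ Q ∧ Disjoint (Box b0 Q) F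

theorem box_anti (b : I0 → X0 → Bool) {P Q : Set (I0 × Bool)} (h : P ⊆ Q) : Box b Q ⊆ Box b P :=
  fun _ hx p hp => hx p (h hp)

theorem small_iUnion {F : ℕ → Set X0} (h : ∀ n, Small (F n)) : Small (⋃ n, F n) := by
  intro P hP
  choose f hf using h
  obtain ⟨Q, h0, hs⟩ : ∃ Q : ℕ → {P // Fn P}, Q 0 = ⟨P, hP⟩ ∧
      ∀ n, Q (n + 1) = ⟨f n (Q n).1 (Q n).2, (hf n _ _).1⟩ :=
    ⟨fun n => Nat.rec ⟨P, hP⟩ (fun n q => ⟨f n q.1 q.2, (hf n _ _).1⟩) n, rfl, fun _ => rfl⟩
  have hm : Monotone fun n => (Q n).1 := monotone_nat_of_le_succ fun n => by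
    simp only [hs]; exact (hf n _ _).2.1
  refine ⟨⋃ n, (Q n).1, ⟨countable_iUnion fun n => (Q n).2.1, fun i h1 h2 => ?_⟩,
    fun p hp => mem_iUnion.2 ⟨0, by rw [h0]; exact hp⟩, disjoint_iUnion_right.2 fun n => ?_⟩
  · obtain ⟨m, hm1⟩ := mem_iUnion.1 h1
    obtain ⟨n, hn1⟩ := mem_iUnion.1 h2
    exact (Q (max m n)).2.2 i (hm (le_max_left m n) hm1) (hm (le_max_right m n) hn1)
  · refine Disjoint.mono_left (box_anti _ (subset_iUnion (fun n => (Q n).1) (n + 1))) ?_
    simp only [hs]; exact (hf n _ _).2.2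

theorem small_empty : Small ∅ := fun P hP => ⟨P, hP, subset_rfl, disjoint_empty _⟩

theorem small_biUnion {ι : Type} {S : Set ι} (hS : S.Countable) {F : ι → Set X0}
    (h : ∀ i, Small (F i)) : Small (⋃ i ∈ S, F i) := by
  rcases S.eq_empty_or_nonempty with rfl | hne
  · simpa using small_empty
  · obtain ⟨f, rfl⟩ := hS.exists_eq_range hne
    rw [biUnion_range]
    exact small_iUnion fun n => h _

theorem small_single (x : X0) : Small {x} := by
  intro P hP
  have : Uncountable I0 := by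
    rw [← aleph0_lt_mk_iff, mk_set, mk_real]
    exact aleph0_lt_continuum.trans (cantor _)
  have : ¬ (univ : Set I0) ⊆ Prod.fst '' P := fun h =>
    not_countable_univ ((hP.1.image _).mono h)
  obtain ⟨i, -, hi⟩ := not_subset.1 this
  refine ⟨insert (i, !b0 i x) P, ⟨hP.1.insert _, ?_⟩, subset_insert _ _,
    disjoint_singleton_right.2 fun h => by simpa using h _ (mem_insert _ _)⟩
  rintro j (h | h) (h' | h')
  · have := (Prod.ext_iff.1 h).2.trans (Prod.ext_iff.1 h').2.symm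
    simp at this
  · exact hi ⟨_, h', (Prod.ext_iff.1 h).1⟩
  · exact hi ⟨_, h, (Prod.ext_iff.1 h').1⟩
  · exact hP.2 j h h'

theorem small_insert (x : X0) {F : Set X0} (h : Small F) : Small (insert x F) := by
  intro P hP
  obtain ⟨Q, h1, h2, h3⟩ := h P hP
  obtain ⟨R, h4, h5, h6⟩ := small_single x Q h1
  exact ⟨R, h4, h2.trans h5, disjoint_insert_right.2
    ⟨disjoint_singleton_right.1 h6, h3.mono_left (box_anti _ h5)⟩⟩

variable (c : I0 → Set X0 × X0)

open Classical in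
noncomputable def d0 (i : I0) (x : X0) : Bool :=
  if Small (c i).1 then (if x = (c i).2 then true else if x ∈ (c i).1 then false else b0 i x)
  else b0 i x

theorem star {P : Set (I0 × Bool)} (hP : Fn P) (x : X0) :
    ∃ Q, Fn Q ∧ P ⊆ Q ∧ Box b0 Q ⊆ Box (d0 c) P \ {x} := by
  classical
  obtain ⟨Q, h1, h2, h3⟩ := small_insert x (small_biUnion hP.1
    (F := fun p => if Small (c p.1).1 then insert (c p.1).2 (c p.1).1 else ∅) fun p => by
      by_cases h : Small (c p.1).1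
      · rw [if_pos h]; exact small_insert _ h
      · rw [if_neg h]; exact small_empty) P hP
  refine ⟨Q, h1, h2, fun y hy => ⟨fun p hp => ?_, fun h => disjoint_left.1 h3 hy (Or.inl h)⟩⟩
  have h4 : y ∉ (if Small (c p.1).1 then insert (c p.1).2 (c p.1).1 else ∅) := fun h =>
    disjoint_left.1 h3 hy (Or.inr (mem_biUnion hp h))
  rw [← hy p (h2 hp), d0]
  by_cases h : Small (c p.1).1
  · rw [if_pos h] at h4 ⊢
    rw [if_neg fun h => h4 (Or.inl h), if_neg fun h => h4 (Or.inr h)]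
  · rw [if_neg h]

def Nb (S : Set I0) (x : X0) : Set X0 := {y | ∀ i ∈ S, d0 c i y = d0 c i x}

theorem star' {P : Set (I0 × Bool)} (hP : Fn P) {x : X0} (hx : x ∈ Box (d0 c) P) {S : Set I0}
    (hS : S.Countable) : ∃ Q, Fn Q ∧ P ⊆ Q ∧ Box b0 Q ⊆ Nb c S x \ {x} := by
  have key : ∀ p ∈ P ∪ (fun i => (i, d0 c i x)) '' S, d0 c p.1 x = p.2 := by
    rintro p (hp | ⟨i, -, rfl⟩)
    · exact hx p hp
    · rfl
  obtain ⟨Q, h1, h2, h3⟩ := star c (P := P ∪ (fun i => (i, d0 c i x)) '' S)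
    ⟨hP.1.union (hS.image _), fun i h h' => by
      simpa using (key (i, true) h).symm.trans (key (i, false) h')⟩ x
  exact ⟨Q, h1, subset_union_left.trans h2, fun y hy =>
    ⟨fun i hi => (h3 hy).1 _ (Or.inr ⟨i, hi, rfl⟩), (h3 hy).2⟩⟩

def top : TopologicalSpace X0 where
  IsOpen U := ∀ x ∈ U, ∃ S : Set I0, S.Countable ∧ Nb c S x ⊆ U
  isOpen_univ := fun _ _ => ⟨∅, countable_empty, subset_univ _⟩
  isOpen_inter := fun U V hU hV x hx => by
    obtain ⟨S, h1, h2⟩ := hU x hx.1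
    obtain ⟨T, h3, h4⟩ := hV x hx.2
    exact ⟨S ∪ T, h1.union h3, fun y hy =>
      ⟨h2 fun i hi => hy i (Or.inl hi), h4 fun i hi => hy i (Or.inr hi)⟩⟩
  isOpen_sUnion := fun s hs x ⟨U, hU, hx⟩ => by
    obtain ⟨S, h1, h2⟩ := hs U hU x hx
    exact ⟨S, h1, h2.trans (subset_sUnion_of_mem hU)⟩

theorem nb_open {S : Set I0} (hS : S.Countable) (x : X0) : IsOpen[top c] (Nb c S x) :=
  fun _ hy => ⟨S, hS, fun _ hz i hi => (hz i hi).trans (hy i hi)⟩

theorem nb_closed {S : Set I0} (hS : S.Countable) (x : X0) : IsClosed[top c] (Nb c S x) :=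
  @IsClosed.mk _ (top c) _ fun _ hy => ⟨S, hS, fun _ hz hz' => hy fun i hi =>
    (hz i hi).symm.trans (hz' i hi)⟩

theorem closed_of_small (hc : Function.Surjective c) {F : Set X0} (hF : Small F) :
    IsClosed[top c] F := by
  refine @IsClosed.mk _ (top c) _ fun x hx => ?_
  obtain ⟨i, hi⟩ := hc (F, x)
  refine ⟨{i}, countable_singleton _, fun y hy hyF => ?_⟩
  have := hy i rfl
  have hne : y ≠ x := fun h => hx (h ▸ hyF)
  simp [d0, hi, hF, hne, hyF] at this

/-- There is a regular T1 topological space in which countable intersections of open sets are open, yet some non-closed set A contains no subset that is discrete in itself and has a closure point outside A. -/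
theorem result :
    ∃ (X : Type) (t : TopologicalSpace X),
      T3Space X ∧
      (∀ U : ℕ → Set X, (∀ n, IsOpen (U n)) → IsOpen (⋂ n, U n)) ∧
      ¬ (∀ A : Set X, ¬ IsClosed A →
          ∃ D : Set X, D ⊆ A ∧ DiscreteTopology D ∧ (closure D \ A).Nonempty) := by
  obtain ⟨c, hc⟩ := exists_code
  letI := top c
  haveI : T1Space X0 := ⟨fun x => closed_of_small c hc (small_single x)⟩
  haveI : RegularSpace X0 := by
    refine RegularSpace.of_exists_mem_nhds_isClosed_subset fun x s hs => ?_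
    obtain ⟨U, hU, ho, hx⟩ := mem_nhds_iff.1 hs
    obtain ⟨S, h1, h2⟩ := ho x hx
    exact ⟨Nb c S x, (nb_open c h1 x).mem_nhds fun _ _ => rfl, nb_closed c h1 x, h2.trans hU⟩
  refine ⟨X0, top c, {}, fun U hU x hx => ?_, fun h => ?_⟩
  · choose S h1 h2 using fun n => hU n x (mem_iInter.1 hx n)
    exact ⟨⋃ n, S n, countable_iUnion h1, fun y hy => mem_iInter.2 fun n =>
      h2 n fun i hi => hy i (mem_iUnion.2 ⟨n, hi⟩)⟩
  have h0 : Fn ∅ := ⟨countable_empty, fun _ h => h.elim⟩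
  obtain ⟨p, -⟩ := indep h0
  obtain ⟨D, hD, hdis, y, hy, hy'⟩ := h {p}ᶜ (by
    rw [isClosed_compl_iff]
    intro ho
    obtain ⟨S, h1, h2⟩ := ho p rfl
    obtain ⟨Q, h3, -, h4⟩ := star' c h0 (x := p) (fun _ h => h.elim) h1
    obtain ⟨z, hz⟩ := indep h3
    exact (h4 hz).2 (h2 (h4 hz).1))
  have hs : Small D := by
    intro P hP
    by_cases h : ∃ x ∈ D, x ∈ Box (d0 c) P
    · obtain ⟨x, hxD, hx⟩ := h
      obtain ⟨U, hU, hUD⟩ := isOpen_inter_eq_singleton_of_mem_discrete ⟨hdis⟩ hxD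
      obtain ⟨S, h1, h2⟩ := hU x (by
        have : x ∈ U ∩ D := hUD ▸ rfl
        exact this.1)
      obtain ⟨Q, h3, h4, h5⟩ := star' c hP hx h1
      refine ⟨Q, h3, h4, disjoint_left.2 fun z hz hzD => (h5 hz).2 ?_⟩
      rw [← hUD]; exact ⟨h2 (h5 hz).1, hzD⟩
    · obtain ⟨Q, h3, h4, h5⟩ := star c hP p
      exact ⟨Q, h3, h4, disjoint_left.2 fun z hz hzD => h ⟨z, hzD, (h5 hz).1⟩⟩
  rw [(closed_of_small c hc hs).closure_eq] at hy
  exact hy' (hD hy)

end Pool.Agent.S13377
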