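import Pool.Statements.S13418

set_option autoImplicit false
open Pool Pool.MP_79e81e_gt

namespace Pool.Agent.S13418
open SimpleGraph

lemma ball_bound {V : Type} (G : SimpleGraph V) (D : ℕ)
    (hD : ∀ v, ∃ s : Finset V, s.card ≤ D ∧ ∀ w, G.Adj v w → w ∈ s) (R : ℕ) :
    ∀ x, ∃ s : Finset V, s.card ≤ (D + 1) ^ R ∧ ∀ y (p : G.Walk x y), p.length ≤ R → y ∈ s := by
  classical
  induction R with
  | zero =>
    intro x
    refine ⟨{x}, by simp, fun y p hp => ?_⟩
    rw [Finset.mem_singleton, Walk.eq_of_length_eq_zero (Nat.le_zero.1 hp)]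
  | succ R ih =>
    intro x
    choose b hb1 hb2 using ih
    obtain ⟨s, hs1, hs2⟩ := hD x
    refine ⟨(insert x s).biUnion b, ?_, fun y p hp => ?_⟩
    · refine (Finset.card_biUnion_le_card_mul _ _ _ fun a _ => hb1 a).trans ?_
      rw [pow_succ']
      exact Nat.mul_le_mul_right _ ((Finset.card_insert_le _ _).trans (by omega))
    · cases p with
      | nil => exact Finset.mem_biUnion.2 ⟨x, Finset.mem_insert_self _ _, hb2 x x Walk.nil (by simp)⟩
      | cons h p =>
        exact Finset.mem_biUnion.2 ⟨_, Finset.mem_insert_of_mem (hs2 _ h),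
          hb2 _ _ p (by simpa using hp)⟩

lemma ball_dist {V : Type} (G : SimpleGraph V) (hc : G.Connected) (D : ℕ)
    (hD : ∀ v, ∃ s : Finset V, s.card ≤ D ∧ ∀ w, G.Adj v w → w ∈ s) (R : ℕ) (x : V) :
    ∃ s : Finset V, s.card ≤ (D + 1) ^ R ∧ ∀ y, G.dist x y ≤ R → y ∈ s := by
  obtain ⟨s, h1, h2⟩ := ball_bound G D hD R x
  refine ⟨s, h1, fun y hy => ?_⟩
  obtain ⟨p, hp⟩ := hc.exists_walk_length_eq_dist x y
  exact h2 y p (hp ▸ hy)

section Cay

variable {Γ : Type} [Group Γ] (S : Finset Γ)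

def Cay : SimpleGraph Γ := fromRel (fun a b : Γ => ∃ s ∈ S, b = a * s)

def lmul (g : Γ) : Cay S →g Cay S where
  toFun a := g * a
  map_rel' := by
    intro a b h
    rw [Cay, fromRel_adj] at h ⊢
    refine ⟨fun e => h.1 (mul_left_cancel e), ?_⟩
    rcases h.2 with ⟨s, hs, rfl⟩ | ⟨s, hs, rfl⟩
    · exact Or.inl ⟨s, hs, by rw [mul_assoc]⟩
    · exact Or.inr ⟨s, hs, by rw [mul_assoc]⟩

lemma cay_conn (hS : Subgroup.closure (S : Set Γ) = ⊤) : (Cay S).Connected := by
  have h1 : ∀ a : Γ, ∀ s ∈ S, (Cay S).Reachable a (a * s) := fun a s hs => by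
    by_cases h : a = a * s
    · rw [← h]
    · exact Adj.reachable ((fromRel_adj _ _ _).2 ⟨h, Or.inl ⟨s, hs, rfl⟩⟩)
  have h2 : ∀ g : Γ, (Cay S).Reachable 1 g := fun g => by
    have hg : g ∈ Subgroup.closure (S : Set Γ) := hS ▸ Subgroup.mem_top g
    induction hg using Subgroup.closure_induction_right with
    | one => rfl
    | mul_right x _ y hy ih => exact ih.trans (h1 x y hy)
    | mul_inv_cancel x _ y hy ih =>
      have := h1 (x * y⁻¹) y hy
      rw [inv_mul_cancel_right] at this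
      exact ih.trans this.symm
  exact (connected_iff_exists_forall_reachable _).2 ⟨1, h2⟩

lemma cay_dist (hS : Subgroup.closure (S : Set Γ) = ⊤) (g a b : Γ) :
    (Cay S).dist (g * a) (g * b) ≤ (Cay S).dist a b := by
  obtain ⟨p, hp⟩ := (cay_conn S hS).exists_walk_length_eq_dist a b
  have := dist_le (p.map (lmul S g))
  rwa [Walk.length_map, hp] at this

lemma cay_deg (v : Γ) : ∃ s : Finset Γ, s.card ≤ 2 * S.card ∧ ∀ w, (Cay S).Adj v w → w ∈ s := by
  classical
  refine ⟨S.image (fun s => v * s) ∪ S.image (fun s => v * s⁻¹), ?_, fun w h => ?_⟩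
  · refine (Finset.card_union_le _ _).trans ?_
    have h1 := Finset.card_image_le (s := S) (f := fun s => v * s)
    have h2 := Finset.card_image_le (s := S) (f := fun s => v * s⁻¹)
    omega
  · rcases ((fromRel_adj _ _ _).1 h).2 with ⟨s, hs, rfl⟩ | ⟨s, hs, rfl⟩
    · exact Finset.mem_union_left _ (Finset.mem_image_of_mem _ hs)
    · exact Finset.mem_union_right _ (Finset.mem_image.2 ⟨s, hs, by simp⟩)

end Cay

def XG (σ : ℕ → Equiv.Perm ℕ) : SimpleGraph (ℕ × ℕ) :=
  fromRel fun u v => v = (u.1, u.2 + 1) ∨ v = (u.1 + 1, u.2) ∨ v = (u.1, σ u.1 u.2)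

lemma XG_deg (σ : ℕ → Equiv.Perm ℕ) (v : ℕ × ℕ) :
    ∃ s : Finset (ℕ × ℕ), s.card ≤ 6 ∧ ∀ w, (XG σ).Adj v w → w ∈ s := by
  refine ⟨{(v.1, v.2 + 1), (v.1 + 1, v.2), (v.1, σ v.1 v.2), (v.1, v.2 - 1), (v.1 - 1, v.2),
    (v.1, (σ v.1).symm v.2)}, Finset.card_le_six, fun w h => ?_⟩
  rcases ((fromRel_adj _ _ _).1 h).2 with (rfl | rfl | rfl) | (rfl | rfl | rfl) <;> simp

lemma XG_dist (σ : ℕ → Equiv.Perm ℕ) {u v : ℕ × ℕ}
    (h : v = (u.1, u.2 + 1) ∨ v = (u.1 + 1, u.2) ∨ v = (u.1, σ u.1 u.2)) :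
    (XG σ).Reachable u v ∧ (XG σ).dist u v ≤ 1 := by
  by_cases e : u = v
  · rw [e]; simp
  · have : (XG σ).Adj u v := (fromRel_adj _ _ _).2 ⟨e, Or.inl h⟩
    exact ⟨this.reachable, (dist_eq_one_iff_adj.2 this).le⟩

lemma XG_conn (σ : ℕ → Equiv.Perm ℕ) : (XG σ).Connected := by
  refine (connected_iff_exists_forall_reachable _).2 ⟨(0, 0), fun ⟨a, b⟩ => ?_⟩
  induction b with
  | zero =>
    induction a with
    | zero => rfl
    | succ a ih => exact ih.trans (XG_dist σ (Or.inr (Or.inl rfl))).1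
  | succ b ih => exact ih.trans (XG_dist σ (Or.inl rfl)).1


/-- The negation of the preceding statement: Every connected graph of bounded degree coarsely embeds, with its path metric, into the word metric of some group generated by a finite set. -/
theorem result :
    ¬ (∀ (V : Type) (G : SimpleGraph V), G.Connected →
      (∃ D : ℕ, ∀ v : V, (G.neighborSet v).encard ≤ (D : ℕ∞)) →
      ∃ (Γ : Type) (inst : Group Γ) (S : Finset Γ),
        Subgroup.closure (S : Set Γ) = ⊤ ∧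
        ∃ f : V → Γ,
          (∀ R : ℕ, ∃ K : ℕ, ∀ x y : V, G.dist x y ≤ R →
              (SimpleGraph.fromRel (fun a b : Γ => ∃ s ∈ S, b = a * s)).dist (f x) (f y) ≤ K) ∧
          (∀ K : ℕ, ∃ R : ℕ, ∀ x y : V,
              (SimpleGraph.fromRel (fun a b : Γ => ∃ s ∈ S, b = a * s)).dist (f x) (f y) ≤ K →
              G.dist x y ≤ R)) := by
  intro H
  classical
  obtain ⟨e, he⟩ := exists_surjective_nat (Σ n : ℕ, Equiv.Perm (Fin n))
  let σ : ℕ → Equiv.Perm ℕ := fun t => (e t).2.viaEmbedding Fin.valEmbedding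
  have hσ : ∀ (n : ℕ) (τ : Equiv.Perm (Fin n)), ∃ t, ∀ i : Fin n, σ t i = τ i := fun n τ => by
    obtain ⟨t, ht⟩ := he ⟨n, τ⟩
    refine ⟨t, fun i => ?_⟩
    simp only [σ]
    rw [ht]
    exact Equiv.Perm.viaEmbedding_apply τ Fin.valEmbedding i
  obtain ⟨Γ, inst, S, hS, f, h1, h2⟩ := H (ℕ × ℕ) (XG σ) (XG_conn σ) ⟨6, fun v => by
    obtain ⟨s, hs1, hs2⟩ := XG_deg σ v
    refine (Set.encard_le_encard (show (XG σ).neighborSet v ⊆ s from hs2)).trans ?_
    rw [Set.encard_coe_eq_coe_finsetCard]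
    exact_mod_cast hs1⟩
  obtain ⟨K, hK⟩ := h1 1
  obtain ⟨R, hR⟩ := h2 K
  change ∀ x y, (XG σ).dist x y ≤ 1 → (Cay S).dist (f x) (f y) ≤ K at hK
  change ∀ x y, (Cay S).dist (f x) (f y) ≤ K → (XG σ).dist x y ≤ R at hR
  obtain ⟨B, -, hB⟩ := ball_dist (Cay S) (cay_conn S hS) _ (cay_deg S) K 1
  choose C hC1 hC2 using ball_dist (XG σ) (XG_conn σ) 6 (XG_deg σ) R
  obtain ⟨n, hn⟩ := (Nat.eventually_pow_lt_factorial_sub ((6 + 1) ^ R * B.card) 0).exists
  choose t ht using hσ n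
  let code : Equiv.Perm (Fin n) → Fin n → Γ := fun τ i => (f (t τ, i))⁻¹ * f (t τ, i + 1)
  have key := Finset.card_le_mul_card_image_of_maps_to (f := code) (s := Finset.univ)
    (t := Fintype.piFinset fun _ => B) (fun τ _ => Fintype.mem_piFinset.2 fun i => hB _ (by
      have := cay_dist S hS (f (t τ, i))⁻¹ (f (t τ, i)) (f (t τ, i + 1))
      rw [inv_mul_cancel] at this
      exact this.trans (hK _ _ (XG_dist σ (Or.inl rfl)).2))) (((6 + 1) ^ R) ^ n) (fun c _ => by
    rcases (Finset.univ.filter fun a => code a = c).eq_empty_or_nonempty with h | ⟨τ0, h0⟩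
    · rw [h]; simp
    have h0 := (Finset.mem_filter.1 h0).2
    have := Finset.card_le_card_of_injOn (s := Finset.univ.filter fun a => code a = c)
      (t := Fintype.piFinset fun i : Fin n => C (t τ0, i))
      (fun τ i => (t τ0, (τ i : ℕ))) (fun τ hτ => by
        have hτ := (Finset.mem_filter.1 hτ).2.trans h0.symm
        have hh : ∀ i, i ≤ n → f (t τ0, i) = f (t τ0, 0) * (f (t τ, 0))⁻¹ * f (t τ, i) := by
          intro i
          induction i with
          | zero => intro _; simp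
          | succ i ih =>
            intro hi
            have h3 : (f (t τ, i))⁻¹ * f (t τ, i + 1) = (f (t τ0, i))⁻¹ * f (t τ0, i + 1) :=
              congrFun hτ ⟨i, hi⟩
            calc f (t τ0, i + 1) = f (t τ0, i) * ((f (t τ0, i))⁻¹ * f (t τ0, i + 1)) := by group
              _ = _ := by rw [← h3, ih (by omega)]; group
        refine Fintype.mem_piFinset.2 fun i => hC2 _ _ (hR _ _ ?_)
        rw [hh i i.2.le, hh (τ i) (τ i).2.le]
        refine (cay_dist S hS _ _ _).trans (hK _ _ (XG_dist σ (Or.inr (Or.inr ?_))).2)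
        rw [ht]) (fun τ _ τ' _ h => Equiv.ext fun i =>
          Fin.ext (congrArg Prod.snd (congrFun h i)))
    refine this.trans ?_
    rw [Fintype.card_piFinset]
    refine (Finset.prod_le_pow_card _ _ _ fun i _ => hC1 _).trans ?_
    simp)
  rw [Finset.card_univ, Fintype.card_perm, Fintype.card_piFinset] at key
  simp only [Finset.prod_const, Finset.card_univ, Fintype.card_fin] at key
  rw [Nat.sub_zero, mul_pow] at hn
  omega

end Pool.Agent.S13418
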