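import Pool.Statements.S13419
import Pool.Agent.H26.Rect

set_option autoImplicit false
open Pool Pool.MP_7aa44c_gt

namespace Pool.Agent.S13419

/-- Every Tychonoff space that is rectifiable and is a p-space (via open families in its Stone–Čech compactification) is a D-space: every neighbourhood assignment has a closed discrete kernel whose neighbourhoods cover the space. -/
theorem result :
    ∀ (X : Type) [TopologicalSpace X] [T35Space X],
      (∃ (e : X) (φ : X × X ≃ₜ X × X),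
          (∀ p : X × X, (φ p).1 = p.1) ∧ ∀ x : X, φ (x, x) = (x, e)) →
      (∃ γ : ℕ → Set (Set (StoneCech X)),
          (∀ n, ∀ U ∈ γ n, IsOpen U) ∧
          (∀ n, ∀ x : X, ∃ U ∈ γ n, stoneCechUnit x ∈ U) ∧
          ∀ x : X, (⋂ n, ⋃₀ {U | U ∈ γ n ∧ stoneCechUnit x ∈ U}) ⊆
            Set.range (stoneCechUnit : X → StoneCech X)) →
      ∀ N : X → Set X, (∀ x, N x ∈ nhds x) →
        ∃ D : Set X, IsClosed D ∧ DiscreteTopology D ∧ (⋃ x ∈ D, N x) = Set.univ := by
  rintro X _ _ ⟨e, φ, h1, h2⟩ ⟨γ, h3, h4, h5⟩ N hN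
  obtain ⟨G, hG⟩ := H26.Rect.exists_good e φ h1 h2 γ h3 h4 h5
  obtain ⟨D, h6, h7, h8, -⟩ := H26.Rect.main hG N hN
  exact ⟨D, h6, h7, h8⟩

end Pool.Agent.S13419
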