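import Pool.Statements.S13425
import Pool.Agent.H8.Half2
import Pool.Agent.H8.Half3

set_option autoImplicit false
open Pool Pool.MP_7baebc_gt

namespace Pool.Agent.S13425


/-- There is a subset E of the hyperbolic plane such that two isometric copies of E partition the plane, and also continuum many isometric copies of E, indexed by the reals, partition the plane. -/
theorem result :
    ∃ E : Set UpperHalfPlane,
      (∃ g h : UpperHalfPlane ≃ᵢ UpperHalfPlane,
          Disjoint (⇑g '' E) (⇑h '' E) ∧ ⇑g '' E ∪ ⇑h '' E = Set.univ) ∧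
      (∃ f : ℝ → (UpperHalfPlane ≃ᵢ UpperHalfPlane),
          Pairwise (fun r s => Disjoint (⇑(f r) '' E) (⇑(f s) '' E)) ∧
          (⋃ r : ℝ, ⇑(f r) '' E) = Set.univ) := by
  obtain ⟨k, a, s, ha, hs⟩ := Pool.Agent.H8.Half.exists_indep
  have hinj := Pool.Agent.H8.Half.lift_inj k a ha s hs
  set φ : FreeGroup (Option ℝ) →* Matrix.SpecialLinearGroup (Fin 2) ℝ :=
    FreeGroup.lift fun x : Option ℝ => Pool.Agent.H8.Half.par (a x) s with hφ
  letI : MulAction (FreeGroup (Option ℝ)) UpperHalfPlane := MulAction.compHom _ φ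
  have hsm : ∀ (w : FreeGroup (Option ℝ)) (z : UpperHalfPlane), w • z = φ w • z := fun _ _ => rfl
  have hs0 : s ≠ 0 := by
    rintro rfl
    exact hs isAlgebraic_zero
  obtain ⟨val, h1, h2⟩ := Pool.Agent.H8.Half.half (ι := ℝ) (X := UpperHalfPlane)
    (fun x u v hu hv => hinj (by
      rw [map_mul, map_mul]
      exact Pool.Agent.H8.Half.fix_comm _ _ x hu hv))
    (fun x n h => by
      rw [hsm, map_zpow, Pool.Agent.H8.Half.gg, hφ, FreeGroup.lift_apply_of,
        Pool.Agent.H8.Half.par_zpow] at h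
      have := Pool.Agent.H8.Half.par_fix _ _ _ h
      have hn : (n : ℝ) = 0 := (mul_eq_zero.1 this).resolve_right hs0
      have : n = 0 := by exact_mod_cast hn
      simp [this])
  have himg : ∀ (w : FreeGroup (Option ℝ)) (z : UpperHalfPlane),
      z ∈ ⇑(IsometryEquiv.constSMul (φ w) : UpperHalfPlane ≃ᵢ UpperHalfPlane) '' {x | val x} ↔
        val (w⁻¹ • z) := by
    intro w z
    constructor
    · rintro ⟨x, hx, rfl⟩
      have : w⁻¹ • (IsometryEquiv.constSMul (φ w) : UpperHalfPlane ≃ᵢ UpperHalfPlane) x = x :=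
        inv_smul_smul w x
      rw [this]; exact hx
    · intro h
      exact ⟨w⁻¹ • z, h, smul_inv_smul w z⟩
  refine ⟨{x | val x}, ⟨IsometryEquiv.constSMul (φ 1),
    IsometryEquiv.constSMul (φ (Pool.Agent.H8.Half.gg ℝ)⁻¹), ?_, ?_⟩,
    ⟨fun r => IsometryEquiv.constSMul (φ (Pool.Agent.H8.Half.ff r)), ?_, ?_⟩⟩
  · refine Set.disjoint_left.2 fun z hz hz' => ?_
    rw [himg] at hz hz'
    rw [inv_inv, h1] at hz'
    exact hz' (by simpa using hz)
  · refine Set.eq_univ_of_forall fun z => ?_
    rw [Set.mem_union, himg, himg, inv_inv, h1, inv_one, one_smul]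
    exact em _
  · intro r t hrt
    refine Set.disjoint_left.2 fun z hz hz' => ?_
    rw [himg] at hz hz'
    exact hrt ((h2 z).unique hz hz')
  · refine Set.eq_univ_of_forall fun z => ?_
    obtain ⟨r, hr⟩ := (h2 z).exists
    exact Set.mem_iUnion.2 ⟨r, (himg _ _).2 hr⟩

end Pool.Agent.S13425
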