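import Pool.Statements.S13466

set_option autoImplicit false
open Pool Pool.MP_812062_gt

namespace Pool.Agent.S13466

noncomputable def g (t : ℝ) : ℝ × ℂ := (Real.exp t, Complex.exp (t * Complex.I))

def S : Set (ℝ × ℂ) := insert (0, 1) (Set.range g)

lemma cont_g : Continuous g := by unfold g; fun_prop

lemma conn_S : IsConnected S := by
  refine (isConnected_range cont_g).subset_closure (Set.subset_insert _ _) ?_
  rintro _ (rfl | h)
  · have h1 : Filter.Tendsto (fun n : ℕ => g (-(n * (2 * Real.pi)))) Filter.atTop (nhds (0, 1)) := by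
      refine Filter.Tendsto.prodMk_nhds ?_ ?_
      · refine Real.tendsto_exp_atBot.comp (Filter.tendsto_neg_atTop_atBot.comp ?_)
        exact tendsto_natCast_atTop_atTop.atTop_mul_const (by positivity)
      · refine tendsto_const_nhds.congr fun n => ?_
        have := Complex.exp_int_mul_two_pi_mul_I (-n)
        rw [← this]; congr 1; push_cast; ring
    exact mem_closure_of_tendsto h1 (Filter.Eventually.of_forall fun n => ⟨_, rfl⟩)
  · exact subset_closure h

lemma inj_S {x y : S} (h : x.1.1 = y.1.1) : x = y := by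
  obtain ⟨_, rfl | ⟨s, rfl⟩⟩ := x <;> obtain ⟨_, rfl | ⟨t, rfl⟩⟩ := y
  · rfl
  · exact absurd h (Real.exp_pos t).ne
  · exact absurd h (Real.exp_pos s).ne'
  · obtain rfl : s = t := Real.exp_injective h
    rfl

lemma nonneg_S (x : S) : 0 ≤ x.1.1 := by
  obtain ⟨_, rfl | ⟨s, rfl⟩⟩ := x
  · exact le_rfl
  · exact (Real.exp_pos s).le

/-- The negation of the preceding statement: For every connected metric space X, the span (sup over connected Z in X×X with equal projections of the min distance between coordinates) is at most twice the surjective span (same, with both projections onto X). -/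
theorem result :
    ¬ (∀ (X : Type) [MetricSpace X] [ConnectedSpace X],
      (⨆ (Z : Set (X × X)) (_ : IsConnected Z) (_ : Prod.fst '' Z = Prod.snd '' Z),
          ⨅ p ∈ Z, edist p.1 p.2)
        ≤ 2 * ⨆ (Z : Set (X × X)) (_ : IsConnected Z)
            (_ : Prod.fst '' Z = Set.univ ∧ Prod.snd '' Z = Set.univ),
            ⨅ p ∈ Z, edist p.1 p.2) := by
  intro H
  haveI : ConnectedSpace S := isConnected_iff_connectedSpace.1 conn_S
  have h := H S
  have h0 : (⨆ (Z : Set (S × S)) (_ : IsConnected Z)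
      (_ : Prod.fst '' Z = Set.univ ∧ Prod.snd '' Z = Set.univ), ⨅ p ∈ Z, edist p.1 p.2) = 0 := by
    simp only [ENNReal.iSup_eq_zero]
    rintro Z hZ ⟨h1, h2⟩
    obtain ⟨p, hp, e1⟩ : (⟨(0, 1), Or.inl rfl⟩ : S) ∈ Prod.fst '' Z := h1 ▸ Set.mem_univ _
    obtain ⟨q, hq, e2⟩ : (⟨(0, 1), Or.inl rfl⟩ : S) ∈ Prod.snd '' Z := h2 ▸ Set.mem_univ _
    have hc : Continuous fun r : S × S => r.1.1.1 - r.2.1.1 := by fun_prop
    obtain ⟨r, hr, e3⟩ := hZ.isPreconnected.intermediate_value hp hq hc.continuousOn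
      (show (0 : ℝ) ∈ Set.Icc _ _ from ⟨by
        have := nonneg_S p.2
        simp only [e1]; linarith, by
        have := nonneg_S q.1
        simp only [e2]; linarith⟩)
    refine le_antisymm (iInf₂_le_of_le r hr ?_) (zero_le)
    rw [inj_S (sub_eq_zero.1 e3), edist_self]
  rw [h0, mul_zero] at h
  let G : ℝ → S := fun t => ⟨g t, Or.inr ⟨t, rfl⟩⟩
  have hG : Continuous G := cont_g.subtype_mk _
  have hc : Continuous fun t : ℝ => (G t, G (t + Real.pi)) := by fun_prop
  have h1 := le_trans (le_iSup₂_of_le (Set.range fun t : ℝ => (G t, G (t + Real.pi)))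
    (isConnected_range hc) (le_iSup_of_le (by
      ext x
      constructor
      · rintro ⟨_, ⟨t, rfl⟩, rfl⟩
        exact ⟨_, ⟨t - Real.pi, rfl⟩, by simp⟩
      · rintro ⟨_, ⟨t, rfl⟩, rfl⟩
        exact ⟨_, ⟨t + Real.pi, rfl⟩, rfl⟩) le_rfl)) h
  have h2 : (1 : ENNReal) ≤ ⨅ p ∈ Set.range fun t : ℝ => (G t, G (t + Real.pi)), edist p.1 p.2 := by
    refine le_iInf₂ ?_
    rintro _ ⟨t, rfl⟩
    change 1 ≤ edist (g t) (g (t + Real.pi))
    rw [Prod.edist_eq, edist_dist (g t).2]
    refine le_max_of_le_right (ENNReal.one_le_ofReal.2 ?_)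
    have : (g (t + Real.pi)).2 = -(g t).2 := by
      simp only [g]
      push_cast
      rw [add_mul, Complex.exp_add, Complex.exp_pi_mul_I]; ring
    rw [this, dist_eq_norm, sub_neg_eq_add, ← two_mul, norm_mul]
    simp [g, Complex.norm_exp_ofReal_mul_I]
  exact absurd (h2.trans h1) (by simp)

end Pool.Agent.S13466
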