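import Pool.Statements.S13478

set_option autoImplicit false
open Pool Pool.MP_8403e4_gt

namespace Pool.Agent.S13478

open Set Filter Topology

lemma cc_neBot : (cocountable : Filter ℝ).NeBot := by
  rw [neBot_iff, Ne, ← empty_mem_iff_bot, mem_cocountable, compl_empty]
  exact Cardinal.not_countable_real

lemma exists_p : ∃ p : Ultrafilter ℝ, (p : Filter ℝ) ≤ cocountable ⊓ atTop := by
  have : (cocountable ⊓ atTop : Filter ℝ).NeBot := by
    rw [inf_neBot_iff]
    intro s hs t ht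
    obtain ⟨a, ha⟩ := mem_atTop_sets.mp ht
    by_contra he
    rw [not_nonempty_iff_eq_empty] at he
    have h1 : (Ici a).Countable := (mem_cocountable.mp hs).mono fun y hy hy' =>
      (he ▸ (⟨hy', ha y hy⟩ : y ∈ s ∩ t) : y ∈ (∅ : Set ℝ))
    rw [← Cardinal.le_aleph0_iff_set_countable, Cardinal.mk_Ici_real] at h1
    exact absurd h1 (not_le.mpr Cardinal.aleph0_lt_continuum)
  exact Ultrafilter.exists_le _

noncomputable def p : Ultrafilter ℝ := exists_p.choose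

lemma p_spec : (p : Filter ℝ) ≤ cocountable ⊓ atTop := exists_p.choose_spec

abbrev S : Type := ℝ ⊕ ℝ

noncomputable def UU : Filter S := map Sum.inl (p : Filter ℝ) ⊔ map Sum.inr cocountable

lemma mem_UU (A : Set S) : A ∈ UU ↔ Sum.inl ⁻¹' A ∈ p ∧ (Sum.inr ⁻¹' Aᶜ).Countable := by
  simp only [UU, mem_sup, mem_map, mem_cocountable, Ultrafilter.mem_coe, preimage_compl]

lemma UU_neBot : UU.NeBot := (map_neBot (f := (p : Filter ℝ)) (m := Sum.inl)).mono le_sup_left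

lemma compl_mem_UU {A : Set S} (hA : A.Countable) : Aᶜ ∈ UU := by
  rw [mem_UU, compl_compl]
  refine ⟨p_spec (mem_inf_of_left (mem_cocountable.mpr ?_)), hA.preimage Sum.inr_injective⟩
  rw [preimage_compl, compl_compl]
  exact hA.preimage Sum.inl_injective

/-- Points: ultrafilters containing a countable set, and the one filter `UU`. -/
structure X where
  F : Filter S
  prop : (∃ u : Ultrafilter S, (∃ C : Set S, C.Countable ∧ C ∈ u) ∧ F = u) ∨ F = UU

def br (A : Set S) : Set X := {x | A ∈ x.F}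

instance : TopologicalSpace X := TopologicalSpace.generateFrom (range br)

lemma br_inter (A B : Set S) : br (A ∩ B) = br A ∩ br B := by
  ext x
  simp [br]

lemma basis0 : TopologicalSpace.IsTopologicalBasis (range br) := by
  refine ⟨?_, ?_, rfl⟩
  · rintro _ ⟨A, rfl⟩ _ ⟨B, rfl⟩ x hx
    exact ⟨br (A ∩ B), ⟨_, rfl⟩, by rwa [br_inter], by rw [br_inter]⟩
  · exact eq_univ_of_forall fun x => ⟨br univ, ⟨_, rfl⟩, univ_mem⟩

lemma br_open (A : Set S) : IsOpen (br A) := basis0.isOpen ⟨A, rfl⟩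

lemma mem_nhds' {x : X} {O : Set X} : O ∈ 𝓝 x ↔ ∃ A ∈ x.F, br A ⊆ O := by
  rw [basis0.mem_nhds_iff]
  constructor
  · rintro ⟨_, ⟨A, rfl⟩, h1, h2⟩
    exact ⟨A, h1, h2⟩
  · rintro ⟨A, h1, h2⟩
    exact ⟨_, ⟨A, rfl⟩, h1, h2⟩

lemma X.neBot (x : X) : x.F.NeBot := by
  rcases x.prop with ⟨u, -, h⟩ | h
  · rw [h]; infer_instance
  · rw [h]; exact UU_neBot

noncomputable def inf : X := ⟨UU, Or.inr rfl⟩

def pt (s : S) : X := ⟨pure s, Or.inl ⟨pure s, ⟨{s}, countable_singleton _, by simp⟩, rfl⟩⟩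

lemma pt_mem (s : S) (A : Set S) : pt s ∈ br A ↔ s ∈ A := by
  simp [pt, br]

lemma tendsto_pt (x : X) : Tendsto pt x.F (𝓝 x) := by
  intro O hO
  obtain ⟨A, h1, h2⟩ := mem_nhds'.mp hO
  exact mem_map.mpr (mem_of_superset h1 fun s hs => h2 ((pt_mem s A).mpr hs))

lemma br_compl {A : Set S} (h : A ∈ UU ∨ Aᶜ ∈ UU) : (br A)ᶜ = br Aᶜ := by
  ext x
  have := x.neBot
  constructor
  · intro hx
    rcases x.prop with ⟨u, -, h1⟩ | h1
    · change Aᶜ ∈ x.F
      change ¬ A ∈ x.F at hx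
      rw [h1] at hx ⊢
      exact Ultrafilter.compl_mem_iff_notMem.mpr hx
    · change Aᶜ ∈ x.F
      change ¬ A ∈ x.F at hx
      rw [h1] at hx ⊢
      exact h.resolve_left hx
  · intro hx hx'
    have h2 := inter_mem hx' hx
    rw [inter_compl_self] at h2
    exact x.neBot.ne (empty_mem_iff_bot.mp h2)

lemma br_clopen {A : Set S} (h : A ∈ UU ∨ Aᶜ ∈ UU) : IsClopen (br A) :=
  ⟨⟨by rw [br_compl h]; exact br_open _⟩, br_open A⟩

def BB : Set (Set X) := {b | ∃ A : Set S, (A.Countable ∨ A ∈ UU) ∧ b = br A}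

lemma good {A : Set S} (h : A.Countable ∨ A ∈ UU) : A ∈ UU ∨ Aᶜ ∈ UU :=
  h.elim (fun h => Or.inr (compl_mem_UU h)) Or.inl

lemma BB_clopen : ∀ b ∈ BB, IsClopen b := by
  rintro _ ⟨A, hA, rfl⟩
  exact br_clopen (good hA)

lemma basis : TopologicalSpace.IsTopologicalBasis BB := by
  apply TopologicalSpace.isTopologicalBasis_of_isOpen_of_nhds
  · exact fun b hb => (BB_clopen b hb).isOpen
  · intro x O hx hO
    obtain ⟨A, h1, h2⟩ := mem_nhds'.mp (hO.mem_nhds hx)
    rcases x.prop with ⟨u, ⟨C, hC, h3⟩, h4⟩ | h3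
    · refine ⟨br (A ∩ C), ⟨_, Or.inl (hC.mono inter_subset_right), rfl⟩, inter_mem h1 ?_,
        fun v hv => h2 (mem_of_superset hv inter_subset_left)⟩
      rw [h4]; exact h3
    · exact ⟨br A, ⟨A, Or.inr (h3 ▸ h1), rfl⟩, h1, h2⟩

instance : T0Space X := by
  refine ⟨fun x y h => ?_⟩
  have : x.F = y.F := Filter.ext fun A => h.mem_open_iff (br_open A)
  cases x; cases y; cases this; rfl

instance : CompletelyRegularSpace X := by
  apply CompletelyRegularSpace.of_isTopologicalBasis_clopens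
  apply TopologicalSpace.isTopologicalBasis_of_isOpen_of_nhds
  · exact fun U hU => hU.isOpen
  · intro x O hx hO
    obtain ⟨b, hb, h1, h2⟩ := basis.exists_subset_of_mem_open hx hO
    exact ⟨b, BB_clopen b hb, h1, h2⟩

instance : T35Space X := {}

lemma pretty (C D : Set (Set X)) (hC : C ⊆ BB) (hc : C.Countable) (hD : D ⊆ BB)
    (h : ∀ c ∈ C, ∀ d ∈ D, Disjoint c d) :
    ∃ b ∈ BB, (∀ c ∈ C, c ⊆ b) ∧ (∀ d ∈ D, Disjoint b d) := by
  have hC' : ∀ c ∈ C, ∃ A : Set S, (A.Countable ∨ A ∈ UU) ∧ c = br A := hC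
  choose! A hA1 hA2 using hC'
  refine ⟨br (⋃ c ∈ C, A c), ⟨_, ?_, rfl⟩, fun c hc' => ?_, fun d hd => ?_⟩
  · by_cases h1 : ∀ c ∈ C, (A c).Countable
    · exact Or.inl (hc.biUnion h1)
    · push Not at h1
      obtain ⟨c, hc', h2⟩ := h1
      exact Or.inr (mem_of_superset ((hA1 c hc').resolve_left h2)
        (subset_biUnion_of_mem (u := A) hc'))
  · intro u hu
    rw [hA2 c hc'] at hu
    exact mem_of_superset hu (subset_biUnion_of_mem (u := A) hc')
  · obtain ⟨A', -, rfl⟩ := hD hd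
    rw [Set.disjoint_left]
    intro u h1 h2
    have := u.neBot
    obtain ⟨s, hs1, hs2⟩ := Filter.nonempty_of_mem (inter_mem h1 h2)
    obtain ⟨c, hc', hs⟩ := mem_iUnion₂.mp hs1
    exact Set.disjoint_left.mp (h c hc' _ hd) (by rw [hA2 c hc', pt_mem]; exact hs)
      ((pt_mem s A').mpr hs2)

lemma cocompact :
    @CompactSpace X (TopologicalSpace.generateFrom ((fun B : Set X => (closure B)ᶜ) '' BB)) := by
  have key : ∀ F : Ultrafilter X, ∃ x : X, ∀ A : Set S, (A.Countable ∨ A ∈ UU) →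
      x ∉ br A → (br A)ᶜ ∈ F := by
    intro F
    let w : Ultrafilter S := F.bind fun x => @Ultrafilter.of _ x.F x.neBot
    have hw : ∀ A, A ∈ w ↔ {x : X | A ∈ @Ultrafilter.of _ x.F x.neBot} ∈ F := fun A => by
      simp only [w, Ultrafilter.bind, ← Ultrafilter.mem_coe, Ultrafilter.ofComplNotMemIff,
        Filter.mem_bind']
    have hw' : ∀ A, br A ∈ F → A ∈ w := fun A hA =>
      (hw A).mpr (mem_of_superset hA fun x hx => @Ultrafilter.of_le _ x.F x.neBot _ hx)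
    by_cases h : ∃ C : Set S, C.Countable ∧ C ∈ w
    · exact ⟨⟨w, Or.inl ⟨w, h, rfl⟩⟩, fun A _ hA => Ultrafilter.compl_mem_iff_notMem.mpr
        fun h' => hA (hw' A h')⟩
    · refine ⟨inf, fun A hA hx => Ultrafilter.compl_mem_iff_notMem.mpr fun h' => h ?_⟩
      exact ⟨A, hA.resolve_right hx, hw' A h'⟩
  refine @CompactSpace.mk X (_) ?_
  rw [@isCompact_iff_ultrafilter_le_nhds X
    (TopologicalSpace.generateFrom ((fun B : Set X => (closure B)ᶜ) '' BB))]
  intro F _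
  obtain ⟨x, hx⟩ := key F
  refine ⟨x, mem_univ _, ?_⟩
  rw [TopologicalSpace.nhds_generateFrom]
  refine le_iInf₂ ?_
  rintro _ ⟨h1, _, ⟨A, hA, rfl⟩, rfl⟩
  have hcl : closure (br A) = br A := (br_clopen (good hA)).isClosed.closure_eq
  simp only [hcl] at h1 ⊢
  exact le_principal_iff.mpr (hx A hA h1)

lemma extend (h0 : S → ℝ) (M : ℝ) (hM : ∀ s, |h0 s| ≤ M) (a : ℝ) (ha : Tendsto h0 UU (𝓝 a)) :
    ∃ h : X → ℝ, Continuous h ∧ (∀ x, |h x| ≤ M) ∧ ∀ x, Tendsto h0 x.F (𝓝 (h x)) := by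
  have h1 : ∀ x : X, ∃ b, Tendsto h0 x.F (𝓝 b) := by
    intro x
    rcases x.prop with ⟨u, -, h⟩ | h
    · obtain ⟨b, -, hb⟩ := (isCompact_Icc (a := -M) (b := M)).ultrafilter_le_nhds (u.map h0)
        (le_principal_iff.mpr (mem_map.mpr (univ_mem' fun s => abs_le.mp (hM s))))
      exact ⟨b, by rw [h]; exact hb⟩
    · exact ⟨a, by rw [h]; exact ha⟩
  choose h hh using h1
  refine ⟨h, ?_, fun x => ?_, hh⟩
  · rw [continuous_iff_continuousAt]
    intro x
    refine (closed_nhds_basis (h x)).tendsto_right_iff.mpr fun V hV => ?_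
    refine mem_nhds'.mpr ⟨h0 ⁻¹' V, hh x hV.1, fun y hy => ?_⟩
    have := y.neBot
    exact hV.2.mem_of_tendsto (hh y) hy
  · have := x.neBot
    exact le_of_tendsto (hh x).abs (Eventually.of_forall hM)

lemma fspace (f : X → ℝ) (hf : Continuous f) (g : {y : X // f y ≠ 0} → ℝ) (hg : Continuous g)
    (hb : ∃ M : ℝ, ∀ y, |g y| ≤ M) :
    ∃ h : X → ℝ, Continuous h ∧ (∃ M : ℝ, ∀ y, |h y| ≤ M) ∧
      ∀ y : {y : X // f y ≠ 0}, h y.1 = g y := by
  classical
  obtain ⟨M, hM⟩ := hb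
  let G : (S → ℝ) → S → ℝ := fun c s => if h : f (pt s) ≠ 0 then g ⟨pt s, h⟩ else c s
  have hG : ∀ c (y : {y : X // f y ≠ 0}), Tendsto (G c) y.1.F (𝓝 (g y)) := by
    intro c y V hV
    have h1 : g ⁻¹' V ∈ 𝓝 y := hg.continuousAt hV
    have hop : IsOpen {y : X | f y ≠ 0} := isOpen_ne_fun hf continuous_const
    have h2 : Subtype.val '' (g ⁻¹' V) ∈ 𝓝 y.1 :=
      hop.isOpenMap_subtype_val.image_mem_nhds h1
    refine mem_map.mpr (mem_of_superset (tendsto_pt y.1 h2) ?_)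
    rintro s ⟨z, hz1, hz2⟩
    have h3 : f (pt s) ≠ 0 := hz2 ▸ z.2
    change G c s ∈ V
    simp only [G, dif_pos h3]
    have : z = ⟨pt s, h3⟩ := Subtype.ext hz2
    rw [← this]; exact hz1
  have hGb : ∀ c : S → ℝ, (∀ s, |c s| ≤ max M 0) → ∀ s, |G c s| ≤ max M 0 := by
    intro c hc s
    by_cases h : f (pt s) ≠ 0
    · simp only [G, dif_pos h]; exact (hM _).trans (le_max_left _ _)
    · simp only [G, dif_neg h]; exact hc s
  have main : ∃ c : S → ℝ, (∀ s, |c s| ≤ max M 0) ∧ ∃ a, Tendsto (G c) UU (𝓝 a) := by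
    by_cases h : f inf ≠ 0
    · exact ⟨fun _ => 0, fun _ => by simp, _, hG _ ⟨inf, h⟩⟩
    · push Not at h
      have hz : ∀ s : S, |(fun _ : S => (0 : ℝ)) s| ≤ max M 0 := fun _ => by simp
      obtain ⟨a, ha1, ha⟩ := (isCompact_Icc (a := -max M 0) (b := max M 0)).ultrafilter_le_nhds
        (p.map (G (fun _ => 0) ∘ Sum.inl))
        (le_principal_iff.mpr (mem_map.mpr (univ_mem' fun s => abs_le.mp (hGb _ hz _))))
      refine ⟨Sum.elim (fun _ => 0) (fun _ => a), ?_, a, ?_⟩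
      · rintro (s | s)
        · simp
        · exact abs_le.mpr ha1
      · rw [UU, tendsto_sup, tendsto_map'_iff, tendsto_map'_iff]
        refine ⟨ha, ?_⟩
        have h1 : Tendsto (fun t : ℝ => f (pt (Sum.inr t))) cocountable (𝓝 0) := by
          have h2 : Tendsto (f ∘ pt) UU (𝓝 0) := h ▸ hf.continuousAt.tendsto.comp (tendsto_pt inf)
          rw [UU, tendsto_sup, tendsto_map'_iff, tendsto_map'_iff] at h2
          exact h2.2
        have h3 : ∀ᶠ t : ℝ in cocountable, f (pt (Sum.inr t)) = 0 := by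
          have h4 : ∀ n : ℕ, {t : ℝ | |f (pt (Sum.inr t))| < 1 / ((n : ℝ) + 1)}ᶜ.Countable := by
            intro n
            refine mem_cocountable.mp ?_
            have := (Metric.tendsto_nhds.mp h1) (1 / ((n : ℝ) + 1)) (by positivity)
            simpa [Real.dist_eq] using this
          refine mem_cocountable.mpr ((countable_iUnion h4).mono fun t ht => ?_)
          obtain ⟨n, hn⟩ := exists_nat_one_div_lt (abs_pos.mpr ht)
          exact mem_iUnion.mpr ⟨n, fun h' => lt_asymm hn h'⟩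
        refine tendsto_const_nhds.congr' (h3.mono fun t ht => ?_)
        simp [G, ht]
  obtain ⟨c, hc, a, ha⟩ := main
  obtain ⟨h, h1, h2, h3⟩ := extend (G c) _ (hGb c hc) a ha
  refine ⟨h, h1, ⟨_, h2⟩, fun y => ?_⟩
  have := y.1.neBot
  exact tendsto_nhds_unique (h3 y.1) (hG c y)

lemma not_bd : ¬ ∀ s : ℕ → Set X, (∀ n, IsClopen (s n)) → IsClopen (closure (⋃ n, s n)) := by
  intro h
  let A : ℕ → Set S := fun n => Sum.inl '' Iic (n : ℝ)
  have hA : ∀ n, (A n)ᶜ ∈ UU := by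
    intro n
    rw [mem_UU, compl_compl]
    constructor
    · rw [preimage_compl, preimage_image_eq _ Sum.inl_injective, compl_Iic]
      exact p_spec (mem_inf_of_right (Ioi_mem_atTop _))
    · simp [A]
  have h1 := (h (fun n => br (A n)) fun n => br_clopen (Or.inr (hA n))).isOpen
  have h2 : inf ∈ closure (⋃ n, br (A n)) := by
    rw [mem_closure_iff_nhds]
    intro O hO
    obtain ⟨B, hB, hO'⟩ := mem_nhds'.mp hO
    obtain ⟨t, ht⟩ := Ultrafilter.nonempty_of_mem ((mem_UU B).mp hB).1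
    obtain ⟨n, hn⟩ := exists_nat_ge t
    exact ⟨pt (Sum.inl t), hO' ((pt_mem _ _).mpr ht),
      mem_iUnion.mpr ⟨n, (pt_mem _ _).mpr ⟨t, hn, rfl⟩⟩⟩
  obtain ⟨B, hB, hO⟩ := mem_nhds'.mp (h1.mem_nhds h2)
  have := cc_neBot
  have h3 : Sum.inr ⁻¹' B ∈ (cocountable : Filter ℝ) := mem_cocountable.mpr ((mem_UU B).mp hB).2
  obtain ⟨t, ht⟩ := Filter.nonempty_of_mem h3
  obtain ⟨x, hx1, hx2⟩ := mem_closure_iff.mp (hO ((pt_mem _ _).mpr ht)) (br {Sum.inr t})
    (br_open _) ((pt_mem _ _).mpr rfl)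
  obtain ⟨n, hn⟩ := mem_iUnion.mp hx2
  have := x.neBot
  obtain ⟨s, hs1, r, -, hs2⟩ := Filter.nonempty_of_mem (inter_mem hx1 hn)
  rw [mem_singleton_iff.mp hs1] at hs2
  cases hs2

/-- The negation of the preceding statement: Any Tychonoff space with a cocompact pretty base of clopen sets that embeds in some Tychonoff F-space is basically disconnected: the closure of any countable union of clopen sets is clopen. -/
theorem result :
    ¬ (∀ (X : Type) [TopologicalSpace X] [T35Space X],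
    (∃ 𝓑 : Set (Set X),
      (∀ B ∈ 𝓑, IsClopen B) ∧
      TopologicalSpace.IsTopologicalBasis 𝓑 ∧
      (∀ C D : Set (Set X), C ⊆ 𝓑 → C.Countable → D ⊆ 𝓑 →
        (∀ U ∈ C, ∀ V ∈ D, Disjoint U V) →
        ∃ W ∈ 𝓑, (∀ U ∈ C, U ⊆ W) ∧ ∀ V ∈ D, Disjoint W V) ∧
      @CompactSpace X (TopologicalSpace.generateFrom ((fun B : Set X => (closure B)ᶜ) '' 𝓑))) →
    (∃ (Y : Type) (_ : TopologicalSpace Y), T35Space Y ∧
      (∀ f : Y → ℝ, Continuous f →
        ∀ g : {y : Y // f y ≠ 0} → ℝ, Continuous g → (∃ M : ℝ, ∀ y, |g y| ≤ M) →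
          ∃ h : Y → ℝ, Continuous h ∧ (∃ M : ℝ, ∀ y, |h y| ≤ M) ∧
            ∀ y : {y : Y // f y ≠ 0}, h y.1 = g y) ∧
      ∃ e : X → Y, Topology.IsEmbedding e) →
    ∀ s : ℕ → Set X, (∀ n, IsClopen (s n)) → IsClopen (closure (⋃ n, s n))) := by
  intro h
  exact not_bd (h X ⟨BB, BB_clopen, basis, pretty, cocompact⟩
    ⟨X, inferInstance, inferInstance, fspace, id, Topology.IsEmbedding.id⟩)

end Pool.Agent.S13478
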