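import Pool.Statements.S13482
import Mathlib

set_option autoImplicit false
open Pool Pool.MP_8503ce_gt

namespace Pool.Agent.S13482

open Cardinal Set Topology Filter

noncomputable def kp (n : ℕ) : Cardinal.{0} := aleph ((n : Ordinal.{0}) + 1)

abbrev T (n : ℕ) : Type := (kp n).ord.ToType

lemma mk_T (n : ℕ) : #(T n) = kp n := by simp [T]

lemma kp_reg (n : ℕ) : (kp n).IsRegular := isRegular_aleph_add_one _

lemma kp_lt {m n : ℕ} (h : m < n) : kp m < kp n := by
  unfold kp
  rw [aleph_lt_aleph]
  exact_mod_cast Nat.succ_lt_succ h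

lemma aleph0_lt_kp (n : ℕ) : ℵ₀ < kp n := by
  unfold kp
  rw [← aleph_zero, aleph_lt_aleph]
  exact_mod_cast Nat.succ_pos n

lemma bdd (n : ℕ) {J : Type} (hJ : #J < kp n) (s : J → T n) : ∃ b, ∀ j, s j < b := by
  by_contra hc
  push Not at hc
  have h1 : (univ : Set (T n)) ⊆ ⋃ j, insert (s j) (Iio (s j)) := by
    intro γ _
    obtain ⟨j, hj⟩ := hc γ
    exact mem_iUnion.2 ⟨j, hj.eq_or_lt⟩
  have h2 : #(⋃ j, insert (s j) (Iio (s j)) : Set (T n)) < kp n := by
    refine mk_iUnion_le_sum_mk.trans_lt (sum_lt_of_isRegular (kp_reg n) hJ fun j => ?_)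
    refine mk_insert_le.trans_lt (add_lt_of_lt (aleph0_lt_kp n).le ?_ ?_)
    · simpa using mk_Iio_lt (s j)
    · exact one_lt_aleph0.trans (aleph0_lt_kp n)
  have h3 := (mk_le_mk_of_subset h1).trans_lt h2
  rw [mk_univ, mk_T] at h3
  exact lt_irrefl _ h3

instance (n : ℕ) : Nonempty (T n) := by
  rw [← mk_ne_zero_iff, mk_T]; exact (kp_reg n).pos.ne'

lemma attained {m n : ℕ} (hmn : m ≠ n) (h : T m → WithTop (T n)) (hm : Monotone h)
    (hl : ∀ b : T n, ∃ x, (b : WithTop (T n)) < h x) : ∃ x, h x = ⊤ := by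
  by_contra hc
  push Not at hc
  rcases lt_or_gt_of_ne hmn with h1 | h1
  · obtain ⟨b, hb⟩ := bdd n (J := T m) (by rw [mk_T]; exact kp_lt h1)
      (fun x => (h x).untop (hc x))
    obtain ⟨x, hx⟩ := hl b
    have := WithTop.coe_lt_coe.2 (hb x)
    rw [WithTop.coe_untop] at this
    exact lt_asymm hx this
  · choose g hg using hl
    obtain ⟨x, hx⟩ := bdd m (J := T n) (by rw [mk_T]; exact kp_lt h1) g
    have := (hg ((h x).untop (hc x))).trans_le (hm (hx _).le)
    rw [WithTop.coe_untop] at this
    exact lt_irrefl _ this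

abbrev X (n : ℕ) : Type := WithUpper (T n)
abbrev L (n : ℕ) : Type := WithUpper (WithTop (T n))
def tp (n : ℕ) : L n := (⊤ : WithTop (T n))
def up {n : ℕ} (x : X n) : L n := WithTop.some (α := T n) x
abbrev YY : Type := {y : ∀ n, L n // {n | y n = tp n}.Finite}

lemma mem_cl {y z : YY} : y ∈ closure ({z} : Set YY) ↔ ∀ n, y.1 n ≤ z.1 n := by
  rw [← specializes_iff_mem_closure, subtype_specializes_iff, specializes_pi]
  refine forall_congr' fun n => ?_
  rw [specializes_iff_mem_closure, IsUpper.closure_singleton]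
  rfl

lemma up_cont (n : ℕ) : Continuous (up : X n → L n) := by
  rw [IsUpper.continuous_iff_Iic]
  intro a
  by_cases ha : a = tp n
  · have : up ⁻¹' Iic a = Set.univ := by
      ext x; simp only [mem_preimage, mem_Iic, mem_univ, iff_true]; rw [ha]; exact le_top (α := WithTop (T n))
    rw [this]; exact isClosed_univ
  · obtain ⟨b, rfl⟩ := WithTop.ne_top_iff_exists.1 ha
    have : (up : X n → L n) ⁻¹' Iic (show L n from ((b : T n) : WithTop (T n))) =
        Iic (show X n from b) := by
      ext x; exact WithTop.coe_le_coe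
    rw [this]; exact isClosed_Iic

lemma irr (n : ℕ) : IsIrreducible (univ : Set (X n)) := by
  refine ⟨univ_nonempty, ?_⟩
  rintro U V hU hV ⟨x, -, hx⟩ ⟨y, -, hy⟩
  exact ⟨max x y, mem_univ _, IsUpper.isUpperSet_of_isOpen hU (le_max_left _ _) hx,
    IsUpper.isUpperSet_of_isOpen hV (le_max_right _ _) hy⟩

lemma YK (m : ℕ) (g : X m → YY) (hg : Continuous g) :
    ∃ y : YY, closure (g '' univ) = closure ({y} : Set YY) := by
  have hmono : ∀ n, Monotone fun x : T m => (show WithTop (T n) from (g x).1 n) := by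
    intro n x x' hx
    have h1 : (show X m from x) ∈ closure ({show X m from x'} : Set (X m)) := by
      rw [IsUpper.closure_singleton]; exact hx
    have h2 := image_closure_subset_closure_image hg ⟨_, h1, rfl⟩
    rw [image_singleton] at h2
    exact mem_cl.1 h2 n
  have hlub : ∀ n, ∃ y : WithTop (T n), (∀ x : T m, (show WithTop (T n) from (g x).1 n) ≤ y) ∧
      ∀ b < y, ∃ x : T m, b < (show WithTop (T n) from (g x).1 n) := by
    intro n
    obtain ⟨y, hy, hmin⟩ := (wellFounded_lt (α := WithTop (T n))).has_min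
      {y | ∀ x : T m, (show WithTop (T n) from (g x).1 n) ≤ y} ⟨⊤, fun _ => le_top⟩
    refine ⟨y, hy, fun b hb => ?_⟩
    by_contra hc
    push Not at hc
    exact hmin b hc hb
  choose y hy1 hy2 using hlub
  have hfin : {n | y n = tp n}.Finite := by
    have h1 : ∀ n : {n // n ≠ m ∧ y n = ⊤}, ∃ x : T m,
        (show WithTop (T n.1) from (g x).1 n.1) = ⊤ := fun n =>
      attained n.2.1.symm _ (hmono n.1) fun b => hy2 n.1 b (by
        rw [n.2.2]; exact WithTop.coe_lt_top b)
    choose s hs using h1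
    obtain ⟨x, hx⟩ := bdd m (mk_le_aleph0.trans_lt (aleph0_lt_kp m)) s
    refine ((g x).2.insert m).subset fun n hn => ?_
    by_cases hnm : n = m
    · exact Or.inl hnm
    · right
      exact top_le_iff.1 ((hs ⟨n, hnm, hn⟩).ge.trans (hmono n (hx ⟨n, hnm, hn⟩).le))
  refine ⟨⟨y, hfin⟩, Subset.antisymm (closure_minimal ?_ isClosed_closure)
    (closure_minimal ?_ isClosed_closure)⟩
  · rintro _ ⟨x, -, rfl⟩
    exact mem_cl.2 fun n => hy1 n x
  · rintro _ rfl
    refine mem_closure_of_tendsto (b := (atTop : Filter (T m))) (f := fun x : T m => g x) ?_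
      (Eventually.of_forall fun x => ⟨x, mem_univ _, rfl⟩)
    rw [tendsto_subtype_rng, tendsto_pi_nhds]
    intro n
    rw [IsUpper.tendsto_nhds_iff_lt]
    intro b hb
    obtain ⟨x, hx⟩ := hy2 n b hb
    filter_upwards [eventually_ge_atTop x] with x' hx'
    exact hx.trans_le (hmono n hx')


/-- The negation of the preceding statement: For any class K of T0 spaces containing all sober spaces, and any family of T0 spaces with K-determined subsets A_i, the product of the A_i is K-determined in the product space. -/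
theorem result :
    ¬ (∀ (K : ∀ (Y : Type) [TopologicalSpace Y], Prop),
    (∀ (Y : Type) [TopologicalSpace Y], K Y → T0Space Y) →
    (∀ (Y : Type) [TopologicalSpace Y], T0Space Y → QuasiSober Y → K Y) →
    ∀ (I : Type) (X : I → Type) [∀ i, TopologicalSpace (X i)] [∀ i, T0Space (X i)]
      (A : ∀ i, Set (X i)),
      (∀ i, ∀ (Y : Type) [TopologicalSpace Y], K Y →
        ∀ f : X i → Y, Continuous f →
          ∃! y : Y, closure (f '' A i) = closure ({y} : Set Y)) →
      ∀ (Y : Type) [TopologicalSpace Y], K Y →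
        ∀ f : (∀ i, X i) → Y, Continuous f →
          ∃! y : Y, closure (f '' Set.pi Set.univ A) = closure ({y} : Set Y)) := by
  intro H
  have hT : T0Space YY := inferInstance
  let f : (∀ n, X n) → YY := fun x => ⟨fun n => up (x n), by
    have : {n | up (x n) = tp n} = ∅ := by
      ext n
      simp only [mem_setOf_eq, mem_empty_iff_false, iff_false]
      exact WithTop.coe_ne_top
    rw [this]; exact finite_empty⟩
  have hf : Continuous f :=
    Continuous.subtype_mk (continuous_pi fun n => (up_cont n).comp (continuous_apply n)) _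
  obtain ⟨y, hy, -⟩ := H (fun Y _ => T0Space Y ∧ ∀ n, ∀ g : X n → Y, Continuous g →
      ∃ y : Y, closure (g '' univ) = closure ({y} : Set Y)) (fun Y _ h => h.1)
    (fun Y _ h0 hs => ⟨h0, fun n g hg => by
      obtain ⟨y, hy⟩ := QuasiSober.sober ((irr n).image g hg.continuousOn).closure isClosed_closure
      exact ⟨y, hy.symm⟩⟩) ℕ X (fun _ => univ)
    (fun n Y _ hY g hg => by
      obtain ⟨y, hy⟩ := hY.2 n g hg
      haveI := hY.1
      exact ⟨y, hy, fun z hz => (inseparable_iff_closure_eq.2 (hz.symm.trans hy)).eq⟩)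
    YY ⟨hT, YK⟩ f hf
  have hall : ∀ n, y.1 n = tp n := by
    intro n
    by_contra hn
    obtain ⟨b, hb⟩ := WithTop.ne_top_iff_exists.1 hn
    obtain ⟨c, hc⟩ := bdd n (J := Unit) (by
      rw [mk_unit]; exact one_lt_aleph0.trans (aleph0_lt_kp n)) (fun _ => b)
    let x : ∀ k, X k := Function.update (fun k => Classical.arbitrary (X k)) n c
    have h1 : f x ∈ closure ({y} : Set YY) := by
      rw [← hy]; exact subset_closure ⟨x, fun _ _ => mem_univ _, rfl⟩
    have h2 := mem_cl.1 h1 n
    simp only [f, x, Function.update_self] at h2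
    rw [← hb] at h2
    exact absurd (WithTop.coe_le_coe.1 h2) (not_le.2 (hc ()))
  have := y.2
  simp only [hall, setOf_true] at this
  exact infinite_univ this

end Pool.Agent.S13482
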