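import Pool.Statements.S13523
-- import your own Pool.Agent.* helpers here

set_option autoImplicit false
open Pool Pool.MP_8a5d18_gt

namespace Pool.Agent.S13523

/-- For a nonprincipal ultrafilter p on ℕ and Tychonoff X: if C_p(X) is p-sequential, then every open ω-cover of X (X not a member) has a sequence Uₙ of members with {n : x ∈ Uₙ} ∈ p for every point x. -/
theorem result :
    ∀ (p : Ultrafilter ℕ), (p : Filter ℕ) ≤ Filter.cofinite →
    ∀ (X : Type) [TopologicalSpace X] [T35Space X],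
      (∀ A : Set C(X, ℝ),
        (∀ (f : ℕ → C(X, ℝ)) (g : C(X, ℝ)), (∀ n, f n ∈ A) →
          Filter.Tendsto f (p : Filter ℕ)
            (@nhds C(X, ℝ)
              (TopologicalSpace.induced (fun h : C(X, ℝ) => (h : X → ℝ)) Pi.topologicalSpace) g) →
          g ∈ A) →
        @IsClosed C(X, ℝ)
          (TopologicalSpace.induced (fun h : C(X, ℝ) => (h : X → ℝ)) Pi.topologicalSpace) A) →
      ∀ 𝒰 : Set (Set X), (∀ U ∈ 𝒰, IsOpen U) → (Set.univ : Set X) ∉ 𝒰 →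
        (∀ F : Finset X, ∃ U ∈ 𝒰, (↑F : Set X) ⊆ U) →
        ∃ u : ℕ → Set X, (∀ n, u n ∈ 𝒰) ∧
          ∀ x : X, ∀ᶠ n in (p : Filter ℕ), x ∈ u n := by
  intro p _ X _ _ H 𝒰 u1 u2 u3
  classical
  have bump : ∀ (F : Finset X) (U : Set X) (c : ℝ), IsOpen U → (F : Set X) ⊆ U →
      ∃ f : C(X, ℝ), (∀ x ∈ F, f x = 0) ∧ ∀ x, x ∉ U → f x = c := by
    intro F U c hU hF
    have : ∀ x : F, ∃ f : X → unitInterval, Continuous f ∧ f x = 0 ∧ Set.EqOn f 1 Uᶜ := fun x =>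
      CompletelyRegularSpace.completely_regular x.1 Uᶜ hU.isClosed_compl fun t => t (hF x.2)
    choose f f1 f2 f3 using this
    refine ⟨⟨fun y => c * ∏ x : F, (f x y : ℝ), by fun_prop⟩, fun x hx => ?_, fun x hx => ?_⟩
    · simp only [ContinuousMap.coe_mk]
      rw [Finset.prod_eq_zero (Finset.mem_univ ⟨x, hx⟩) (by rw [f2 ⟨x, hx⟩]; rfl), mul_zero]
    · simp only [ContinuousMap.coe_mk]
      rw [Finset.prod_eq_one fun y _ => by rw [f3 y hx]; rfl, mul_one]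
  have cl0 : ∀ A : Set C(X, ℝ), (∀ (f : ℕ → C(X, ℝ)) (g : C(X, ℝ)), (∀ n, f n ∈ A) →
      (∀ x, Filter.Tendsto (fun n => f n x) (p : Filter ℕ) (nhds (g x))) → g ∈ A) →
      (∀ F : Finset X, ∃ f ∈ A, ∀ x ∈ F, f x = 0) → 0 ∈ A := by
    intro A hA h
    choose f f1 f2 using h
    letI : TopologicalSpace C(X, ℝ) :=
      TopologicalSpace.induced (fun h : C(X, ℝ) => (h : X → ℝ)) Pi.topologicalSpace
    refine IsClosed.mem_of_tendsto (b := Filter.atTop) (f := f)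
      (H A fun f g a b => hA f g a ?_) ?_ (Filter.Eventually.of_forall f1)
    · rw [nhds_induced, Filter.tendsto_comap_iff] at b
      exact tendsto_pi_nhds.mp b
    · rw [nhds_induced, Filter.tendsto_comap_iff]
      refine tendsto_pi_nhds.mpr fun x => tendsto_nhds_of_eventually_eq ?_
      filter_upwards [Filter.eventually_ge_atTop {x}] with F hF
      exact f2 F x (hF (Finset.mem_singleton_self x))
  obtain ⟨𝒱, v1, v2, v3⟩ := cl0 {g | ∃ 𝒱 ⊆ 𝒰, 𝒱.Countable ∧ ∀ F : Finset X,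
      (∀ x ∈ F, g x < 1) → ∃ U ∈ 𝒱, (F : Set X) ⊆ U} (by
    intro f g a b
    choose 𝒱 v1 v2 v3 using a
    refine ⟨⋃ n, 𝒱 n, Set.iUnion_subset v1, Set.countable_iUnion v2, fun F hF => ?_⟩
    obtain ⟨n, hn⟩ := ((Filter.eventually_all_finset F).mpr fun x hx =>
      (b x).eventually (gt_mem_nhds (hF x hx))).exists
    obtain ⟨U, c, d⟩ := v3 n F hn
    exact ⟨U, Set.mem_iUnion.mpr ⟨n, c⟩, d⟩) fun F => by
    obtain ⟨U, a, b⟩ := u3 F
    obtain ⟨f, f1, f2⟩ := bump F U 1 (u1 U a) b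
    refine ⟨f, ⟨{U}, by simpa using a, Set.countable_singleton U, fun G hG => ⟨U, rfl, fun x hx => ?_⟩⟩, f1⟩
    by_contra t
    exact (hG x hx).ne (f2 x t)
  have v4 := fun F => v3 F fun x _ => by simp
  obtain ⟨u, rfl⟩ := v2.exists_eq_range (by obtain ⟨U, a, -⟩ := v4 ∅; exact ⟨U, a⟩)
  have m : ∀ k, u k ∈ 𝒰 := fun k => v1 ⟨k, rfl⟩
  by_contra con
  obtain ⟨n, k, -, h⟩ := cl0 {f | ∃ n : ℕ, ∃ k ≤ n, ∀ x, x ∉ u k → (n : ℝ) + 1 ≤ f x} (by
    intro f g a b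
    choose n k k1 k2 using a
    by_cases c : ∃ N, {j | n j ≤ N} ∈ p
    · obtain ⟨N, hN⟩ := c
      have : (⋃ z ∈ Set.Iic N ×ˢ Set.Iic N, {j | (n j, k j) = z}) ∈ p :=
        Filter.mem_of_superset hN fun j hj =>
          Set.mem_biUnion (show (n j, k j) ∈ Set.Iic N ×ˢ Set.Iic N from ⟨hj, (k1 j).trans hj⟩) rfl
      obtain ⟨z, -, hz⟩ := (Ultrafilter.finite_biUnion_mem_iff
        ((Set.finite_Iic N).prod (Set.finite_Iic N))).mp this
      obtain ⟨j, rfl⟩ := p.nonempty_of_mem hz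
      refine ⟨n j, k j, k1 j, fun x hx => ge_of_tendsto (b x) ?_⟩
      filter_upwards [hz] with i hi
      obtain ⟨e1, e2⟩ := Prod.mk.inj hi
      exact e1 ▸ k2 i x (e2 ▸ hx)
    · refine absurd ⟨fun j => u (k j), fun j => m _, fun x => ?_⟩ con
      obtain ⟨N, hN⟩ := exists_nat_ge (g x)
      filter_upwards [Ultrafilter.compl_mem_iff_notMem.mpr fun t => c ⟨N, t⟩,
        (b x).eventually (gt_mem_nhds (lt_add_one (g x)))] with j h1 h2
      by_contra t
      have := k2 j x t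
      have : (N : ℝ) ≤ n j := by exact_mod_cast (not_le.mp (show ¬ n j ≤ N from h1)).le
      linarith) fun F => by
    obtain ⟨_, ⟨k, rfl⟩, b⟩ := v4 F
    obtain ⟨f, f1, f2⟩ := bump F _ ((k : ℝ) + 1) (u1 _ (m k)) b
    exact ⟨f, ⟨k, k, le_rfl, fun x hx => (f2 x hx).ge⟩, f1⟩
  refine u2 ((Set.eq_univ_of_forall fun x => ?_ : u k = Set.univ) ▸ m k)
  by_contra t
  have := h x t
  have : (0 : ℝ) ≤ n := Nat.cast_nonneg n
  simp only [ContinuousMap.zero_apply] at *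
  linarith

end Pool.Agent.S13523
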