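import Pool.Statements.S13540
import Pool.Agent.H19.OkuB
-- import your own Pool.Agent.* helpers here

set_option autoImplicit false
universe u
open Pool Pool.MP_8bbda9_gt

namespace Pool.Agent.S13540

/-- The negation of the preceding statement: For Tychonoff spaces X and Y whose spaces of continuous real functions with the pointwise topology are homeomorphic, if every countable subset of X is closed, then every countable subset of Y is closed. -/
theorem result :
    ¬ (∀ (X Y : Type u) [TopologicalSpace X] [TopologicalSpace Y] [T35Space X] [T35Space Y],
      Nonempty ({f : X → ℝ // Continuous f} ≃ₜ {g : Y → ℝ // Continuous g}) →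
      (∀ s : Set X, s.Countable → IsClosed s) →
      ∀ t : Set Y, t.Countable → IsClosed t) := by
  intro H
  obtain ⟨X, Y, _, _, _, _, ⟨T, hT, hT'⟩, hX, hY⟩ := Pool.Agent.H19.Oku.ctble_example.{u}
  exact hY (H X Y ⟨Pool.Agent.H19.Oku.toHomeo T hT hT'⟩ hX)

end Pool.Agent.S13540
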