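import Pool.Statements.S13550
-- import your own Pool.Agent.* helpers here

set_option autoImplicit false
open Pool Pool.MP_8d6ae8_gt

namespace Pool.Agent.S13550

open Set Topology

/-- the points -/
inductive X : Type
  | p : X
  | iso (n : ℕ) (σ : List (List ℕ)) (i : ℕ) : X
  | lim (n : ℕ) (σ : List (List ℕ)) (b : ℕ → ℕ) : X

/-- initial segments -/
def pre (b : ℕ → ℕ) (j : ℕ) : List ℕ := (List.range j).map b

@[simp] lemma pre_len (b : ℕ → ℕ) (j : ℕ) : (pre b j).length = j := by simp [pre]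

lemma pre_prefix (b : ℕ → ℕ) {u : List ℕ} {j : ℕ} (h : u.length ≤ j) :
    u <+: pre b j ↔ u = pre b u.length := by
  rw [List.prefix_iff_eq_take, pre, ← List.map_take, List.take_range, min_eq_left h, pre]

/-- neighbourhoods of the point at infinity -/
def ok (k : ℕ) : X → Prop
  | .p => True
  | .iso n σ _ => σ.length + k ≤ n
  | .lim n σ _ => σ.length + 1 + k ≤ n

/-- basic neighbourhoods -/
def N (k : ℕ) : X → Set X
  | .p => {y | ok k y}
  | .iso n σ i => {.iso n σ i}
  | .lim n σ b => {y | y = .lim n σ b ∨ ∃ j, k ≤ j ∧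
      (y = .iso n σ (Encodable.encode (pre b j)) ∨ y = .iso n (pre b j :: σ) (b j))}

lemma N_self (k : ℕ) (x : X) : x ∈ N k x := by cases x <;> simp [N, ok]

lemma N_anti {k l : ℕ} (h : k ≤ l) (x : X) : N l x ⊆ N k x := by
  intro y hy
  cases x with
  | p => cases y <;> simp only [N, ok, mem_setOf_eq] at hy ⊢ <;> omega
  | iso => exact hy
  | lim => exact hy.imp id fun ⟨j, hj, h'⟩ => ⟨j, h.trans hj, h'⟩

instance tX : TopologicalSpace X where
  IsOpen s := ∀ x ∈ s, ∃ k, N k x ⊆ s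
  isOpen_univ := fun _ _ => ⟨0, subset_univ _⟩
  isOpen_inter := fun s t hs ht x hx => by
    obtain ⟨k, hk⟩ := hs x hx.1
    obtain ⟨l, hl⟩ := ht x hx.2
    exact ⟨k + l, subset_inter ((N_anti (by omega) x).trans hk) ((N_anti (by omega) x).trans hl)⟩
  isOpen_sUnion := fun S hS x ⟨s, hs, hx⟩ => by
    obtain ⟨k, hk⟩ := hS s hs x hx
    exact ⟨k, hk.trans (subset_sUnion_of_mem hs)⟩

lemma N_open (k : ℕ) (x : X) : IsOpen (N k x) := by
  intro y hy
  cases x with
  | p =>
    cases y with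
    | p => exact ⟨k, Subset.rfl⟩
    | iso => exact ⟨0, singleton_subset_iff.2 hy⟩
    | lim n σ b =>
      refine ⟨0, ?_⟩
      rintro z (rfl | ⟨j, -, rfl | rfl⟩) <;>
        simp only [N, ok, mem_setOf_eq, List.length_cons] at hy ⊢ <;> omega
  | iso => exact ⟨k, by rw [mem_singleton_iff.1 hy]⟩
  | lim n σ b =>
    rcases id hy with rfl | ⟨j, -, rfl | rfl⟩
    · exact ⟨k, Subset.rfl⟩
    · exact ⟨0, singleton_subset_iff.2 hy⟩
    · exact ⟨0, singleton_subset_iff.2 hy⟩

lemma star (x : X) : ∃ k, ∀ y, x ∈ N k y → y = x := by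
  cases x with
  | p => exact ⟨0, fun y hy => by cases y <;> simp_all [N]⟩
  | lim n σ b => exact ⟨n, fun y hy => by cases y <;> simp_all [N, ok]⟩
  | iso n σ i =>
    refine ⟨n + (Denumerable.ofNat (List ℕ) i).length + (σ.headD []).length + 1, fun y hy => ?_⟩
    cases y with
    | p => simp only [N, ok, mem_setOf_eq] at hy; omega
    | iso => exact (mem_singleton_iff.1 hy).symm
    | lim n' τ b =>
      rcases hy with h | ⟨j, hj, h | h⟩ <;> cases h
      · simp at hj; omega
      · simp at hj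

lemma clopen {S : Set X} (h : ∀ x, ∃ k, ∀ y ∈ N k x, (y ∈ S ↔ x ∈ S)) : IsClopen S :=
  ⟨⟨fun x hx => (h x).imp fun _ hk y hy h' => hx ((hk y hy).1 h')⟩,
    fun x hx => (h x).imp fun _ hk y hy => (hk y hy).2 hx⟩

/-- separating sets -/
def D (n : ℕ) (σ : List (List ℕ)) (u : List ℕ) : X → Prop
  | .p => False
  | .iso m τ i => m = n ∧ ((τ = σ ∧ u <+: Denumerable.ofNat (List ℕ) i) ∨
      ∃ q, u <+: q ∧ q :: σ <:+ τ)
  | .lim m τ b => m = n ∧ ((τ = σ ∧ u = pre b u.length) ∨ ∃ q, u <+: q ∧ q :: σ <:+ τ)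

lemma D_clopen (n : ℕ) (σ : List (List ℕ)) (u : List ℕ) : IsClopen {x | D n σ u x} := by
  refine clopen fun x => ?_
  cases x with
  | p =>
    refine ⟨n + 1, fun y hy => ?_⟩
    cases y <;> simp only [N, ok, D, mem_setOf_eq, iff_false, not_and] at hy ⊢ <;> omega
  | iso => exact ⟨0, fun y hy => by rw [mem_singleton_iff.1 hy]⟩
  | lim m τ b =>
    refine ⟨u.length + (σ.headD []).length + 1, ?_⟩
    rintro y (rfl | ⟨j, hj, rfl | rfl⟩)
    · rfl
    · simp only [D, mem_setOf_eq, Denumerable.ofNat_encode, pre_prefix b (show u.length ≤ j by omega)]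
    · simp only [D, mem_setOf_eq, List.suffix_cons_iff]
      refine and_congr_right fun _ => ⟨?_, ?_⟩
      · rintro (⟨rfl, -⟩ | ⟨q, h1, h2 | h2⟩)
        · simp at hj
        · cases h2
          exact Or.inl ⟨rfl, (pre_prefix b (by omega)).1 h1⟩
        · exact Or.inr ⟨q, h1, h2⟩
      · rintro (⟨rfl, h⟩ | ⟨q, h1, h2⟩)
        · exact Or.inr ⟨_, (pre_prefix b (by omega)).2 h, Or.inl rfl⟩
        · exact Or.inr ⟨q, h1, Or.inr h2⟩

/-- the countable family of clopen sets -/
def S : (ℕ × List (List ℕ) × List ℕ) ⊕ (ℕ × List (List ℕ) × ℕ) → Set X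
  | .inl a => {x | D a.1 a.2.1 a.2.2 x}
  | .inr a => {.iso a.1 a.2.1 a.2.2}

lemma S_clopen (j : (ℕ × List (List ℕ) × List ℕ) ⊕ (ℕ × List (List ℕ) × ℕ)) :
    IsClopen (S j) := by
  rcases j with a | a
  · exact D_clopen _ _ _
  · obtain ⟨k, hk⟩ := star (.iso a.1 a.2.1 a.2.2)
    refine clopen fun x => ?_
    by_cases hx : x = .iso a.1 a.2.1 a.2.2
    · subst hx
      exact ⟨0, fun y hy => by rw [mem_singleton_iff.1 hy]⟩
    · exact ⟨k, fun y hy => ⟨fun h => hk x (mem_singleton_iff.1 h ▸ hy), fun h => absurd h hx⟩⟩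

lemma sep {x y : X} (h : ∀ j, x ∈ S j ↔ y ∈ S j) : x = y := by
  have h1 : ∀ n σ i, x = .iso n σ i ↔ y = .iso n σ i := fun n σ i => h (.inr (n, σ, i))
  have h2 : ∀ n σ u, D n σ u x ↔ D n σ u y := fun n σ u => h (.inl (n, σ, u))
  cases x with
  | iso n σ i => exact ((h1 n σ i).1 rfl).symm
  | p =>
    cases y with
    | p => rfl
    | iso n σ i => exact (h1 n σ i).2 rfl
    | lim n σ b => exact ((h2 n σ []).2 ⟨rfl, Or.inl ⟨rfl, rfl⟩⟩).elim
  | lim n σ b =>
    cases y with
    | p => exact ((h2 n σ []).1 ⟨rfl, Or.inl ⟨rfl, rfl⟩⟩).elim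
    | iso n σ i => exact (h1 n σ i).2 rfl
    | lim m τ c =>
      obtain ⟨rfl, h3⟩ := (h2 n σ []).1 ⟨rfl, Or.inl ⟨rfl, rfl⟩⟩
      obtain ⟨-, h4⟩ := (h2 m τ []).2 ⟨rfl, Or.inl ⟨rfl, rfl⟩⟩
      obtain rfl : τ = σ := by
        rcases h3 with h3 | ⟨q, -, h3⟩
        · exact h3.1
        · rcases h4 with h4 | ⟨q, -, h4⟩
          · exact h4.1.symm
          · have := h3.length_le
            have := h4.length_le
            simp at *; omega
      congr
      funext j
      obtain ⟨-, ⟨-, h5⟩ | ⟨q, -, h5⟩⟩ := (h2 m τ (pre b (j + 1))).1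
        ⟨rfl, Or.inl ⟨rfl, by simp⟩⟩
      · simp only [pre_len] at h5
        simpa [pre, List.range_succ] using congrArg List.getLast? h5
      · have := h5.length_le
        simp at this

lemma step (f : X → ℝ) (hf : Continuous f) (n : ℕ) (σ : List (List ℕ)) (c : ℝ)
    (h : ∀ b, f (.lim n σ b) < c) : ∃ q, ∀ b, f (.lim n (q :: σ) b) ≤ c := by
  have h1 : ∃ q, ∀ i, f (.iso n (q :: σ) i) < c := by
    by_contra hc
    push Not at hc
    choose g hg using hc
    let l : ℕ → List ℕ := fun j => Nat.rec [] (fun _ v => v ++ [g v]) j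
    have hl : ∀ j, pre (fun j => g (l j)) j = l j := by
      intro j
      induction j with
      | zero => rfl
      | succ j ih =>
        simp only [pre, List.range_succ, List.map_append] at ih ⊢
        rw [ih]; rfl
    obtain ⟨k, hk⟩ := isOpen_Iio.preimage hf _ (h fun j => g (l j))
    have := hk (Or.inr ⟨k, le_rfl, Or.inr rfl⟩)
    rw [hl] at this
    exact absurd this (not_lt.2 (hg _))
  obtain ⟨q, hq⟩ := h1
  refine ⟨q, fun b => not_lt.1 fun hb => ?_⟩
  obtain ⟨k, hk⟩ := isOpen_Ioi.preimage hf _ hb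
  exact absurd (hk (Or.inr ⟨k, le_rfl, Or.inl rfl⟩)) (not_lt.2 (hq _).le)

/-- the coding map -/
noncomputable def Φ (x : X) (j : (ℕ × List (List ℕ) × List ℕ) ⊕ (ℕ × List (List ℕ) × ℕ)) : Bool :=
  (S j).boolIndicator x

/-- the coarser topology -/
@[reducible] noncomputable def t₂ : TopologicalSpace X := .induced Φ inferInstance


/-- The negation of the preceding statement: Every regular developable space X is completely regular if it has a coarser metrizable topology t₂ such that each point p in an open set O has an open D around p whose t₂-closure lies in O. -/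
theorem result :
    ¬ (∀ (X : Type) (t : TopologicalSpace X),
      @RegularSpace X t →
      (∃ G : ℕ → Set (Set X),
          (∀ n : ℕ, ∀ U ∈ G n, @IsOpen X t U) ∧
          (∀ n : ℕ, ⋃₀ G n = Set.univ) ∧
          ∀ x : X, ∀ O : Set X, @IsOpen X t O → x ∈ O →
            ∃ n : ℕ, ⋃₀ {U ∈ G n | x ∈ U} ⊆ O) →
      (∃ t₂ : TopologicalSpace X, t ≤ t₂ ∧
          @TopologicalSpace.MetrizableSpace X t₂ ∧
          ∀ p : X, ∀ O : Set X, @IsOpen X t O → p ∈ O →
            ∃ D : Set X, @IsOpen X t D ∧ p ∈ D ∧ @closure X t₂ D ⊆ O) →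
      @CompletelyRegularSpace X t) := by
  intro H
  have hΦ : Function.Injective Φ := fun x y h => sep fun j => by
    rw [mem_iff_boolIndicator, mem_iff_boolIndicator]
    exact (congrArg (· = true) (congrFun h j)).to_iff
  have hle : tX ≤ t₂ := (continuous_iff_le_induced (t₁ := tX)).1
    (continuous_pi fun j => (continuous_boolIndicator_iff_isClopen _).2 (S_clopen j))
  have hm : @TopologicalSpace.MetrizableSpace X t₂ :=
    @IsEmbedding.metrizableSpace X _ t₂ _ _ Φ (@IsEmbedding.mk X _ t₂ _ Φ (@IsInducing.mk X _ t₂ _ Φ rfl) hΦ)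
  have hS : ∀ j, IsOpen[t₂] (S j) := fun j =>
    ⟨(fun v => v j) ⁻¹' {true}, (isOpen_discrete {true}).preimage (continuous_apply j), by
      ext x; exact (mem_iff_boolIndicator _ _).symm⟩
  have key : ∀ p : X, ∀ O : Set X, IsOpen O → p ∈ O →
      ∃ D : Set X, IsOpen D ∧ p ∈ D ∧ @closure X t₂ D ⊆ O := by
    intro x O hO hx
    obtain ⟨k, hk⟩ := hO x hx
    have h1 : (∀ l, (N k x \ N l x).Finite) → @closure X t₂ (N k x) ⊆ O := by
      intro h y hy
      by_contra hc
      obtain ⟨V, W, hV, hW, h1, h2, h3⟩ := @t2_separation X t₂ _ x y fun h => hc (h ▸ hx)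
      obtain ⟨l, hl⟩ := hle _ hV x h1
      obtain ⟨z, ⟨h4, h5⟩, h6⟩ := (@mem_closure_iff X t₂ _ _).1 hy (W \ (N k x \ N l x))
        (by letI := t₂; exact IsOpen.sdiff hW (h l).isClosed) ⟨h2, fun h => hc (hk h.1)⟩
      exact disjoint_left.1 h3 (hl (by_contra fun h => h5 ⟨h6, h⟩)) h4
    cases x with
    | iso => exact ⟨_, N_open k _, N_self _ _, h1 fun l => by simp [N]⟩
    | lim n σ b =>
      refine ⟨_, N_open k _, N_self _ _, h1 fun l => (((finite_Iio l).image fun j =>
        X.iso n σ (Encodable.encode (pre b j))).union ((finite_Iio l).image fun j =>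
          X.iso n (pre b j :: σ) (b j))).subset ?_⟩
      rintro y ⟨rfl | ⟨j, -, h⟩, h2⟩
      · exact absurd (N_self _ _) h2
      · have : j < l := not_le.1 fun h3 => h2 (Or.inr ⟨j, h3, h⟩)
        exact h.imp (fun h => ⟨j, this, h.symm⟩) fun h => ⟨j, this, h.symm⟩
    | p =>
      refine ⟨_, N_open (k + 1) _, N_self _ _, fun y hy => hk ?_⟩
      have h2 : ∀ n σ, D n σ [] y → σ.length + (k + 1) ≤ n := by
        intro n σ h
        obtain ⟨z, h3, h4⟩ := (@mem_closure_iff X t₂ _ _).1 hy _ (hS (.inl (n, σ, []))) h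
        cases z with
        | p => exact h3.elim
        | iso m τ i =>
          obtain ⟨rfl, ⟨rfl, -⟩ | ⟨q, -, h5⟩⟩ := h3
          · exact h4
          · have := h5.length_le
            simp only [N, ok, mem_setOf_eq, List.length_cons] at h4 this; omega
        | lim m τ i =>
          obtain ⟨rfl, ⟨rfl, -⟩ | ⟨q, -, h5⟩⟩ := h3
          · simp only [N, ok, mem_setOf_eq] at h4; omega
          · have := h5.length_le
            simp only [N, ok, mem_setOf_eq, List.length_cons] at h4 this; omega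
      cases y with
      | p => trivial
      | iso n σ i =>
        have := h2 n σ ⟨rfl, Or.inl ⟨rfl, List.nil_prefix⟩⟩
        simp only [N, ok, mem_setOf_eq]; omega
      | lim n σ b =>
        have := h2 n σ ⟨rfl, Or.inl ⟨rfl, rfl⟩⟩
        simp only [N, ok, mem_setOf_eq]; omega
  have hCR := H X tX (RegularSpace.of_exists_mem_nhds_isClosed_subset fun x s hs => by
      obtain ⟨O, h1, h2, h3⟩ := mem_nhds_iff.1 hs
      obtain ⟨D, h4, h5, h6⟩ := key x O h2 h3
      exact ⟨_, Filter.mem_of_superset (h4.mem_nhds h5) (@subset_closure X t₂ D),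
        (@isClosed_closure X t₂ D).mono hle, h6.trans h1⟩)
    ⟨fun k => range (N k), by rintro k _ ⟨x, rfl⟩; exact N_open k x,
      fun k => eq_univ_of_forall fun x => ⟨_, ⟨x, rfl⟩, N_self k x⟩, fun x O hO hx => by
        obtain ⟨k, hk⟩ := hO x hx
        obtain ⟨l, hl⟩ := star x
        refine ⟨k + l, sUnion_subset ?_⟩
        rintro _ ⟨⟨y, rfl⟩, h⟩
        rw [hl y (N_anti (by omega) y h)]
        exact (N_anti (by omega) x).trans hk⟩ ⟨t₂, hle, hm, key⟩
  obtain ⟨f, hf, h0, h1⟩ := hCR.completely_regular_isOpen .p _ (N_open 0 .p) (N_self _ _)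
  have hc : Continuous fun x => (f x : ℝ) := continuous_subtype_val.comp hf
  obtain ⟨k, hk⟩ := (isOpen_Iio (a := (1 / 4 : ℝ))).preimage hc .p (by simp [h0])
  have h2 : ∀ j : ℕ, ∀ c : ℝ, 1 / 4 < c → ∃ σ : List (List ℕ), σ.length = j ∧
      ∀ b, (f (.lim (k + 1) σ b) : ℝ) ≤ c := by
    intro j
    induction j with
    | zero =>
      exact fun c h => ⟨[], rfl, fun b => (lt_trans (hk (by simp [N, ok]; omega)) h).le⟩
    | succ j ih =>
      intro c h
      obtain ⟨σ, h3, h4⟩ := ih ((1 / 4 + c) / 2) (by linarith)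
      obtain ⟨q, hq⟩ := step _ hc (k + 1) σ c fun b => (h4 b).trans_lt (by linarith)
      exact ⟨q :: σ, by simp [h3], hq⟩
  obtain ⟨σ, h3, h4⟩ := h2 (k + 1) (1 / 2) (by norm_num)
  have h5 := h4 0
  rw [h1 (by simp [N, ok, h3])] at h5
  norm_num at h5

end Pool.Agent.S13550
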