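import Pool.Statements.S13555
import Pool.Agent.H10.Kakeya

set_option autoImplicit false
open Pool Pool.MP_8dda54_gt

namespace Pool.Agent.S13555

/-- Some d≥3 has a convex compact nonempty S in R^d, not a point, segment or ball, such that in every convex compact K holding a translate of each rotation of S, any two rotated-translated copies of S in K can be moved continuously into each other inside K. -/
theorem result :
    ∃ d : ℕ, 3 ≤ d ∧ ∃ S : Set (EuclideanSpace ℝ (Fin d)),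
      Convex ℝ S ∧ IsCompact S ∧ S.Nonempty ∧
      (¬ ∃ a : EuclideanSpace ℝ (Fin d), S = {a}) ∧
      (¬ ∃ a b : EuclideanSpace ℝ (Fin d), a ≠ b ∧ S = segment ℝ a b) ∧
      (¬ ∃ (c : EuclideanSpace ℝ (Fin d)) (r : ℝ), 0 < r ∧ S = Metric.closedBall c r) ∧
      ∀ K : Set (EuclideanSpace ℝ (Fin d)),
        Convex ℝ K → IsCompact K → K.Nonempty →
        (∀ ρ ∈ Matrix.specialOrthogonalGroup (Fin d) ℝ,
          ∃ x : EuclideanSpace ℝ (Fin d),
            (fun v => Matrix.toEuclideanLin ρ v + x) '' S ⊆ K) →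
        ∀ ρ₀ ρ₁ : Matrix (Fin d) (Fin d) ℝ, ∀ x₀ x₁ : EuclideanSpace ℝ (Fin d),
          ρ₀ ∈ Matrix.specialOrthogonalGroup (Fin d) ℝ →
          ρ₁ ∈ Matrix.specialOrthogonalGroup (Fin d) ℝ →
          (fun v => Matrix.toEuclideanLin ρ₀ v + x₀) '' S ⊆ K →
          (fun v => Matrix.toEuclideanLin ρ₁ v + x₁) '' S ⊆ K →
          ∃ γ : ℝ → Matrix (Fin d) (Fin d) ℝ, ∃ δ : ℝ → EuclideanSpace ℝ (Fin d),
            Continuous γ ∧ Continuous δ ∧
            γ 0 = ρ₀ ∧ γ 1 = ρ₁ ∧ δ 0 = x₀ ∧ δ 1 = x₁ ∧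
            ∀ t ∈ Set.Icc (0 : ℝ) 1,
              γ t ∈ Matrix.specialOrthogonalGroup (Fin d) ℝ ∧
              (fun v => Matrix.toEuclideanLin (γ t) v + δ t) '' S ⊆ K := by
  open Pool.Agent.H10.Kakeya in
  exact ⟨3, le_rfl, S, S_convex, S_compact, ⟨_, mem1⟩, not_pt, not_seg, not_ball,
    fun K hK hc _ h ρ₀ ρ₁ x₀ x₁ h0 h1 k0 k1 => rot K hK hc h ρ₀ ρ₁ x₀ x₁ h0 h1 k0 k1⟩

end Pool.Agent.S13555
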