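import Pool.Statements.S13565
import Pool.Agent.H8.Tau2

set_option autoImplicit false
open Pool Pool.MP_8f5cd4_gt

namespace Pool.Agent.S13565


/-- Every set of reals X with S1(Ω,T) also has the Hurewicz property. S1(Ω,T): from each open ω-cover in a sequence one can pick one set so the picks form a τ-cover. Hurewicz: any sequence of open covers has finite pieces eventually covering each point. -/
theorem result :
    ∀ X : Set ℝ,
      (∀ U : ℕ → Set (Set X),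
        (∀ n, (∀ V ∈ U n, IsOpen V) ∧ (Set.univ : Set X) ∉ U n ∧
            ∀ F : Finset X, ∃ V ∈ U n, (↑F : Set X) ⊆ V) →
        ∃ f : ℕ → Set X, (∀ n, f n ∈ U n) ∧
          ((∀ V ∈ Set.range f, IsOpen V) ∧ (Set.univ : Set X) ∉ Set.range f ∧
            (∀ x : X, {W : Set X | W ∈ Set.range f ∧ x ∈ W}.Infinite) ∧
            ∀ x y : X,
              ({W : Set X | W ∈ Set.range f ∧ x ∈ W} \
                  {W : Set X | W ∈ Set.range f ∧ y ∈ W}).Finite ∨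
              ({W : Set X | W ∈ Set.range f ∧ y ∈ W} \
                  {W : Set X | W ∈ Set.range f ∧ x ∈ W}).Finite)) →
      ∀ U : ℕ → Set (Set X),
        (∀ n, (∀ V ∈ U n, IsOpen V) ∧ ⋃₀ U n = Set.univ) →
        ∃ F : ℕ → Finset (Set X), (∀ n, (↑(F n) : Set (Set X)) ⊆ U n) ∧
          ∀ x : X, ∀ᶠ n in Filter.atTop, x ∈ ⋃₀ (↑(F n) : Set (Set X)) := by
  intro X H U hU
  refine Pool.Agent.H8.Tau.hur (Pool.Agent.H8.Tau.sel_G fun 𝒰 h => ?_) U hU
  obtain ⟨f, h1, h2, h3, h4, h5⟩ := H 𝒰 fun n => by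
    obtain ⟨u, hu, hg⟩ := (h n).enum
    have := Pool.Agent.H8.Tau.it_om (h n).1 ⟨u, hu, Pool.Agent.H8.Tau.ig_it hg⟩
    exact ⟨(h n).1.1, (h n).1.2.2, fun F => this.2 _ F.finite_toSet⟩
  refine ⟨f, h1, ⟨h2, Set.eq_univ_of_forall fun x => ?_, h3⟩, h4, fun x y => ?_⟩
  · obtain ⟨W, hW, hx⟩ := (h4 x).nonempty
    exact ⟨W, hW, hx⟩
  · exact (h5 x y).imp (fun h => h.subset fun W hW => ⟨⟨hW.1, hW.2.1⟩, fun h' => hW.2.2 h'.2⟩)
      fun h => h.subset fun W hW => ⟨⟨hW.1, hW.2.1⟩, fun h' => hW.2.2 h'.2⟩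

end Pool.Agent.S13565
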