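import Pool.Statements.S13580

set_option autoImplicit false
open Pool Pool.MP_925f0d_gt

namespace Pool.Agent.S13580

/-- The negation of the preceding statement: For k≥3, every continuous self-map φ of the one-point compactification of ℝ^k with (1−z)φ(x)=φ(φ(zx)(1−z)/z) for real z≠0,1 is the identity, constant 0, constant ∞, or conjugate by a 1-homogeneous homeomorphism to φ_1 or some φ_∞ with d≠0, Σd=0. -/
theorem result :
    ¬ (∀ k : ℕ, 3 ≤ k → ∀ φ : OnePoint (Fin k → ℝ) → OnePoint (Fin k → ℝ), Continuous φ →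
    (∀ (x : Fin k → ℝ) (z : ℝ), z ≠ 0 → z ≠ 1 →
      (Option.map (fun v : Fin k → ℝ => (1 - z) • v) (φ (OnePoint.some x)) : OnePoint (Fin k → ℝ)) =
        φ (Option.map (fun v : Fin k → ℝ => ((1 - z) / z) • v) (φ (OnePoint.some (z • x))))) →
    (∀ p, φ p = p) ∨ (∀ p, φ p = OnePoint.some 0) ∨ (∀ p, φ p = OnePoint.infty) ∨
    ∃ ℓ : (Fin k → ℝ) ≃ₜ (Fin k → ℝ), (∀ (c : ℝ) (x : Fin k → ℝ), ℓ (c • x) = c • ℓ x) ∧
      ((∀ x : Fin k → ℝ, φ (OnePoint.some (ℓ x)) =
          if ∑ i, (x i + 1) ^ 2 = 0 then OnePoint.infty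
          else OnePoint.some (ℓ (fun j => (∑ i, x i ^ 2 + (k : ℝ) * x j) / ∑ i, (x i + 1) ^ 2))) ∨
       ∃ d : Fin k → ℝ, d ≠ 0 ∧ ∑ i, d i = 0 ∧
         ∀ x : Fin k → ℝ, φ (OnePoint.some (ℓ x)) =
           OnePoint.some (ℓ (fun j => d j * (∑ i, x i) ^ 2 + x j)))) := by
  intro H
  let h : (Fin 3 → ℝ) ≃ₜ (Fin 3 → ℝ) :=
    { toFun := fun x => ![x 0, x 1, x 2 + (x 0 ^ 2 + x 1 ^ 2)]
      invFun := fun x => ![x 0, x 1, x 2 - (x 0 ^ 2 + x 1 ^ 2)]
      left_inv := fun x => by funext i; fin_cases i <;> simp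
      right_inv := fun x => by funext i; fin_cases i <;> simp
      continuous_toFun := by fun_prop
      continuous_invFun := by fun_prop }
  have hh : ∀ x, h x = ![x 0, x 1, x 2 + (x 0 ^ 2 + x 1 ^ 2)] := fun x => rfl
  have hφ : ∀ x, h.onePointCongr (OnePoint.some x) = OnePoint.some (h x) := fun x => rfl
  have key := H 3 le_rfl h.onePointCongr h.onePointCongr.continuous (by
    intro x z hz hz1
    show OnePoint.some ((1 - z) • h x) = OnePoint.some (h (((1 - z) / z) • h (z • x)))
    congr 1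
    funext i
    fin_cases i <;> simp [hh] <;> field_simp
    ring)
  rcases key with h1 | h1 | h1 | ⟨l, hl, h1 | ⟨d, hd, -, h1⟩⟩
  · have := h1 (OnePoint.some ![1, 0, 0])
    rw [hφ, OnePoint.some_eq_iff] at this
    simpa [hh] using congrFun this 2
  · have := h1 (OnePoint.some ![1, 0, 0])
    rw [hφ, OnePoint.some_eq_iff] at this
    simpa [hh] using congrFun this 0
  · exact OnePoint.coe_ne_infty _ (h1 (OnePoint.some 0))
  · have := h1 (fun _ => -1)
    rw [if_pos (by simp)] at this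
    exact OnePoint.coe_ne_infty _ this
  · have fx : ∀ x : Fin 3 → ℝ, ∑ i, x i = 0 → l x = l x 2 • ![0, 0, 1] := by
      intro x hx
      have := h1 x
      rw [hφ, OnePoint.some_eq_iff, hx] at this
      simp only [ne_eq, OfNat.ofNat_ne_zero, not_false_eq_true, zero_pow, mul_zero, zero_add] at this
      have h2 := congrFun this 2
      simp only [hh, Matrix.cons_val] at h2
      have h3 : l x 0 = 0 := by nlinarith
      have h4 : l x 1 = 0 := by nlinarith
      funext i
      fin_cases i <;> simp [h3, h4]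
    have hu := fx ![1, -1, 0] (by simp [Fin.sum_univ_three])
    have hv := fx ![1, 0, -1] (by simp [Fin.sum_univ_three])
    have e : l (l ![1, 0, -1] 2 • ![1, -1, 0]) = l (l ![1, -1, 0] 2 • ![1, 0, -1]) := by
      rw [hl, hl]
      conv_lhs => rw [hu]
      conv_rhs => rw [hv]
      simp [mul_comm]
    have e2 := congrFun (l.injective e) 1
    have e3 : l ![1, 0, -1] = l ((0 : ℝ) • ![1, 0, -1]) := by
      rw [hl, hv]
      simp at e2
      simp [e2]
    simpa using congrFun (l.injective e3) 0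

end Pool.Agent.S13580
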