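import Pool.Statements.S13589
import Pool.Agent.H24.St5

set_option autoImplicit false
open Pool Pool.MP_93ef73_gt

namespace Pool.Agent.S13589

/-- There exist d, a nonempty compact totally disconnected A in R^d with two distinct Steiner trees S, T, no terminal interior to segments in both, and nonempty compact M (∣M∣=∣A∣ if A finite) and r>0 with S an r-minimizer for M. -/
theorem result :
  ∃ (d : ℕ) (A S T M : Set (EuclideanSpace ℝ (Fin d))) (r : ℝ),
    IsCompact A ∧ A.Nonempty ∧ IsTotallyDisconnected A ∧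
    (IsCompact S ∧ IsConnected S ∧ A ⊆ S ∧
      MeasureTheory.Measure.hausdorffMeasure 1 S < ⊤ ∧
      ∀ S' : Set (EuclideanSpace ℝ (Fin d)), IsCompact S' → IsConnected S' → A ⊆ S' →
        MeasureTheory.Measure.hausdorffMeasure 1 S ≤ MeasureTheory.Measure.hausdorffMeasure 1 S') ∧
    (IsCompact T ∧ IsConnected T ∧ A ⊆ T ∧
      MeasureTheory.Measure.hausdorffMeasure 1 T < ⊤ ∧
      ∀ S' : Set (EuclideanSpace ℝ (Fin d)), IsCompact S' → IsConnected S' → A ⊆ S' →
        MeasureTheory.Measure.hausdorffMeasure 1 T ≤ MeasureTheory.Measure.hausdorffMeasure 1 S') ∧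
    S ≠ T ∧
    IsCompact M ∧ M.Nonempty ∧ 0 < r ∧
    (A.Finite → M.Finite ∧ M.ncard = A.ncard) ∧
    (¬ ∃ a ∈ A,
        (∃ x y : EuclideanSpace ℝ (Fin d), x ≠ y ∧ segment ℝ x y ⊆ S ∧ a ∈ openSegment ℝ x y) ∧
        (∃ x y : EuclideanSpace ℝ (Fin d), x ≠ y ∧ segment ℝ x y ⊆ T ∧ a ∈ openSegment ℝ x y)) ∧
    (∀ y ∈ M, Metric.infDist y S ≤ r) ∧
    ∀ W : Set (EuclideanSpace ℝ (Fin d)), IsCompact W → IsConnected W →
      (∀ y ∈ M, Metric.infDist y W ≤ r) →
        MeasureTheory.Measure.hausdorffMeasure 1 S ≤ MeasureTheory.Measure.hausdorffMeasure 1 W := by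
  open Pool.Agent.H24.St5 Pool.Agent.H4.Stein in
  have hT : IsConnected (T1 ∪ T2) := IsConnected.union ⟨!₂[0, 0],
    Or.inr (left_mem_segment _ _ _), Or.inr (left_mem_segment _ _ _)⟩ (st_conn _ _ _ _ _ _)
    (st_conn _ _ _ _ _ _)
  refine ⟨2, Set.range (pt 0), SS, T1 ∪ T2, Set.range q, 1 / 100, (Set.finite_range _).isCompact,
    Set.range_nonempty _, (Set.countable_range _).isTotallyDisconnected,
    ⟨st_compact _ _ _ _ _ _, st_conn _ _ _ _ _ _, ?_, SS_meas.trans_lt ENNReal.ofReal_lt_top,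
      fun W _ hW h => SS_meas.trans (lowerA W hW h)⟩,
    ⟨(st_compact _ _ _ _ _ _).union (st_compact _ _ _ _ _ _), hT, ?_,
      T_meas.trans_lt ENNReal.ofReal_lt_top, fun W _ hW h => T_meas.trans (lowerA W hW h)⟩,
    ne_ST, (Set.finite_range _).isCompact, Set.range_nonempty _, by norm_num,
    fun _ => ⟨Set.finite_range _, ?_⟩, ?_, ?_, fun W hc hW h => SS_meas.trans ?_⟩
  · rintro _ ⟨j, rfl⟩; exact mem_SS 0 (by norm_num) (by norm_num) j
  · rintro _ ⟨j, rfl⟩; exact mem_T j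
  · rw [Set.ncard_range_of_injective q_inj, Set.ncard_range_of_injective pt_inj]
  · rintro ⟨_, ⟨j, rfl⟩, ⟨x, y, h1, h2, h3⟩, ⟨x', y', h4, h5, h6⟩⟩
    obtain ⟨k0, k1, k2, k3⟩ := SS_K
    fin_cases j
    · exact K_ext _ _ _ x y h1 (h2.trans k0) h3
    · exact K_ext _ _ _ x y h1 (h2.trans k1) h3
    · exact K_ext _ _ _ x y h1 (h2.trans k2) h3
    · exact K_ext _ _ _ x y h1 (h2.trans k3) h3
    · exact T_corner x' y' h4 h5 h6
  · rintro _ ⟨j, rfl⟩
    exact (Metric.infDist_le_dist_of_mem (mem_SS 1 (by norm_num) le_rfl j)).trans (dist_q j)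
  · choose p hp hd using fun j => hc.exists_infDist_eq_dist hW.nonempty (q j)
    exact lowerM W hW p hp fun j => hd j ▸ h _ ⟨j, rfl⟩

end Pool.Agent.S13589
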