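import Pool.Statements.S13625
-- import your own Pool.Agent.* helpers here

set_option autoImplicit false
open Pool Pool.MP_98c8dd_gt

namespace Pool.Agent.S13625

section
open Set Filter Topology Metric
universe u

theorem sep {X : Type u} [TopologicalSpace X] [T2Space X] {H T : Set X} (hH : IsCompact H)
    (hT : IsClosed T) {a : X} (ha : a ∈ H) (hd : Disjoint (connectedComponentIn H a) T) :
    ∃ E, E ⊆ H ∧ IsClosed E ∧ IsClosed (H \ E) ∧ a ∈ E ∧ Disjoint E T := by
  haveI : CompactSpace H := isCompact_iff_compactSpace.1 hH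
  have hT' : IsCompact ((↑) ⁻¹' T : Set H) := (hT.preimage continuous_subtype_val).isCompact
  have h1 : ((↑) ⁻¹' T : Set H) ∩ ⋂ s : {s : Set H // IsClopen s ∧ (⟨a, ha⟩ : H) ∈ s}, s = ∅ := by
    rw [← connectedComponent_eq_iInter_isClopen, eq_empty_iff_forall_notMem]
    rintro x ⟨hx, hx'⟩
    rw [connectedComponentIn_eq_image ha] at hd
    exact disjoint_left.1 hd (mem_image_of_mem _ hx') hx
  obtain ⟨t, ht⟩ := hT'.elim_finite_subfamily_closed _ (fun s => s.2.1.isClosed) h1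
  have hc : IsClopen (⋂ s ∈ t, (s : Set H)) := isClopen_biInter_finset fun s _ => s.2.1
  refine ⟨(↑) '' ⋂ s ∈ t, (s : Set H), Subtype.coe_image_subset _ _,
    hH.isClosed.isClosedMap_subtype_val _ hc.isClosed, ?_,
    ⟨⟨a, ha⟩, mem_iInter₂.2 fun s _ => s.2.2, rfl⟩, ?_⟩
  · have : H \ (↑) '' (⋂ s ∈ t, (s : Set H)) = (↑) '' (⋂ s ∈ t, (s : Set H))ᶜ := by
      rw [image_compl_eq_range_diff_image Subtype.val_injective, Subtype.range_coe]
    rw [this]
    exact hH.isClosed.isClosedMap_subtype_val _ hc.compl.isClosed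
  · rw [disjoint_left]
    rintro _ ⟨x, hx, rfl⟩ hxT
    exact (eq_empty_iff_forall_notMem.1 ht x) ⟨hxT, hx⟩

theorem sub_of_clopen {X : Type u} [TopologicalSpace X] {H E C : Set X} (hE : IsClosed E)
    (hE' : IsClosed (H \ E)) (hC : IsPreconnected C) (hCH : C ⊆ H) {a : X} (haC : a ∈ C)
    (haE : a ∈ E) : C ⊆ E := by
  rcases isPreconnected_iff_subset_of_disjoint_closed.1 hC E (H \ E) hE hE'
    (fun x hx => by by_cases h : x ∈ E; exacts [Or.inl h, Or.inr ⟨hCH hx, h⟩])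
    (by ext x; simp) with h | h
  · exact h
  · exact absurd haE (h haC).2


section
variable {X : Type} [MetricSpace X] [CompactSpace X]

theorem bump {C W : Set X} (hC : IsClosed C) (hC' : IsPreconnected C) (hW : IsOpen W) {x : X}
    (hx : x ∈ C) (hxW : x ∈ W) (hn : ¬ C ⊆ W) :
    ∃ C', IsClosed C' ∧ IsPreconnected C' ∧ x ∈ C' ∧ C' ⊆ C ∩ closure W ∧ ∃ z ∈ C', z ∉ W := by
  have hH : IsCompact (C ∩ closure W) := (hC.inter isClosed_closure).isCompact
  have ha : x ∈ C ∩ closure W := ⟨hx, subset_closure hxW⟩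
  refine ⟨closure (connectedComponentIn (C ∩ closure W) x), isClosed_closure,
    isPreconnected_connectedComponentIn.closure, subset_closure (mem_connectedComponentIn ha),
    closure_minimal (connectedComponentIn_subset _ _) hH.isClosed, ?_⟩
  by_contra hcon
  push Not at hcon
  obtain ⟨E, e1, e2, e3, e4, e5⟩ := sep (T := Wᶜ) hH hW.isClosed_compl ha
    (disjoint_left.2 fun z hz hz' => hz' (hcon z (subset_closure hz)))
  have : C \ E = (C ∩ closure W) \ E ∪ C ∩ Wᶜ := by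
    ext y
    constructor
    · intro hy
      by_cases h : y ∈ W
      exacts [Or.inl ⟨⟨hy.1, subset_closure h⟩, hy.2⟩, Or.inr ⟨hy.1, h⟩]
    · rintro (hy | hy)
      exacts [⟨hy.1.1, hy.2⟩, ⟨hy.1, disjoint_right.1 e5 hy.2⟩]
  have := sub_of_clopen (H := C) e2 (this ▸ e3.union (hC.inter hW.isClosed_compl)) hC' subset_rfl
    hx e4
  exact hn fun y hy => by_contra fun h => disjoint_left.1 e5 (this hy) h

theorem sier {H : Set X} (hH : IsClosed H) (hH' : IsPreconnected H) (F : ℕ → Set X)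
    (hF : ∀ n, IsClosed (F n)) (hd : ∀ i j, F i = F j ∨ Disjoint (F i) (F j))
    (hcov : H ⊆ ⋃ n, F n) : ∃ i, H ⊆ F i := by
  by_contra hcon
  let P : Set X → Prop := fun C => IsClosed C ∧ IsPreconnected C ∧ C ⊆ H ∧ ¬ ∃ i, C ⊆ F i
  have step : ∀ (n : ℕ) (C : {C // P C}), ∃ C' : {C // P C}, C'.1 ⊆ C.1 ∧ Disjoint C'.1 (F n) := by
    rintro n ⟨C, h1, h2, h3, h4⟩
    by_cases h : Disjoint C (F n)
    · exact ⟨⟨C, h1, h2, h3, h4⟩, subset_rfl, h⟩
    obtain ⟨x, hx, hxn⟩ := not_subset.1 fun h' => h4 ⟨n, h'⟩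
    obtain ⟨j, hj⟩ := mem_iUnion.1 (hcov (h3 hx))
    have hjn : Disjoint (F j) (F n) := (hd j n).resolve_left fun h' => hxn (h' ▸ hj)
    obtain ⟨W, hW, hjW, hWn⟩ := normal_exists_closure_subset (hF j) (hF n).isOpen_compl
      (disjoint_left.1 hjn)
    obtain ⟨C', a1, a2, a3, a4, z, a5, a6⟩ := bump h1 h2 hW hx (hjW hj)
      (fun h' => h (disjoint_left.2 fun y hy => hWn (subset_closure (h' hy))))
    refine ⟨⟨C', a1, a2, fun y hy => h3 (a4 hy).1, ?_⟩, fun y hy => (a4 hy).1,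
      disjoint_left.2 fun y hy => hWn (a4 hy).2⟩
    rintro ⟨i, hi⟩
    rcases hd i j with h' | h'
    · exact a6 (hjW (h' ▸ hi a5))
    · exact disjoint_left.1 h' (hi a3) hj
  choose f hf using step
  let C : ℕ → {C // P C} := fun n => Nat.rec ⟨H, hH, hH', subset_rfl, hcon⟩ f n
  obtain ⟨x, hx⟩ := IsCompact.nonempty_iInter_of_sequence_nonempty_isCompact_isClosed
    (fun n => (C n).1) (fun n => (hf n (C n)).1)
    (fun n => nonempty_iff_ne_empty.2 fun h => (C n).2.2.2.2 ⟨0, h ▸ empty_subset _⟩)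
    (C 0).2.1.isCompact (fun n => (C n).2.1)
  obtain ⟨j, hj⟩ := mem_iUnion.1 (hcov ((C 0).2.2.2.1 (mem_iInter.1 hx 0)))
  exact disjoint_left.1 (hf j (C j)).2 (mem_iInter.1 hx (j + 1)) hj

def Star (X : Type) [TopologicalSpace X] : Prop :=
  ∀ A : Set X,
    (∃ C : ℕ → Set X, (∀ n, IsClosed (C n)) ∧ A = ⋃ n, C n) →
    (¬ ∃ F : ℕ → Set X,
        (∀ n, ∃ D : Set X, IsClosed D ∧ F n = D ∩ A) ∧
        (∀ i j, i ≠ j → Disjoint (F i) (F j)) ∧
        (⋃ n, F n) = A ∧
        (∃ i j, i ≠ j ∧ (F i).Nonempty ∧ (F j).Nonempty)) →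
    ∀ x ∈ A, ∀ y ∈ A, ∃ K : Set X, K ⊆ A ∧ IsCompact K ∧ IsConnected K ∧ x ∈ K ∧ y ∈ K

theorem tool (hs : Star X) {S : Set X} {o x : X}
    (hF : ∃ C : ℕ → Set X, (∀ n, IsClosed (C n)) ∧ S = ⋃ n, C n) (ho : o ∈ S)
    (hj : ∀ y ∈ S, ∃ G, IsClosed G ∧ IsPreconnected G ∧ G ⊆ S ∧ o ∈ G ∧ y ∈ G)
    (hx : x ∈ closure S) :
    ∃ G, IsClosed G ∧ IsPreconnected G ∧ G ⊆ insert x S ∧ o ∈ G ∧ x ∈ G := by
  obtain ⟨C, hC, hSC⟩ := hF
  obtain ⟨G, a, b, c, d, e⟩ := hs (insert x S) ⟨fun n => {x} ∪ C n,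
    fun n => isClosed_singleton.union (hC n), by rw [← union_iUnion, ← hSC]; rfl⟩ (by
      rintro ⟨F, h1, h2, h3, i, j, hij, hi, hj'⟩
      choose D hD hFD using h1
      obtain ⟨i0, hi0⟩ := mem_iUnion.1 (h3.symm ▸ mem_insert_of_mem x ho : o ∈ ⋃ n, F n)
      have hS : S ⊆ D i0 := by
        intro y hy
        obtain ⟨G, a, b, c, d, e⟩ := hj y hy
        have hsub : ∀ n, D n ∩ G ⊆ F n := fun n z hz => hFD n ▸ ⟨hz.1, Or.inr (c hz.2)⟩
        obtain ⟨l, hl⟩ := sier a b (fun n => D n ∩ G) (fun n => (hD n).inter a) (fun m n => by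
          by_cases h : m = n
          exacts [Or.inl (by rw [h]), Or.inr ((h2 m n h).mono (hsub m) (hsub n))]) (by
          intro z hz
          obtain ⟨n, hn⟩ := mem_iUnion.1 (h3.symm ▸ mem_insert_of_mem x (c hz) : z ∈ ⋃ n, F n)
          exact mem_iUnion.2 ⟨n, (hFD n ▸ hn : z ∈ D n ∩ insert x S).1, hz⟩)
        obtain rfl : l = i0 := by
          by_contra h
          exact disjoint_left.1 (h2 l i0 h) (hsub l (hl d)) hi0
        exact (hl e).1
      have hA : ∀ n, F n ⊆ F i0 := by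
        intro n z hz
        have hz' : z ∈ insert x S := (hFD n ▸ hz : z ∈ D n ∩ insert x S).2
        rw [hFD i0]
        refine ⟨?_, hz'⟩
        rcases hz' with rfl | h
        exacts [closure_minimal hS (hD i0) hx, hS h]
      obtain ⟨u, hu⟩ := hi
      obtain ⟨v, hv⟩ := hj'
      by_cases h : i = i0
      · exact disjoint_left.1 (h2 j i0 (h ▸ Ne.symm hij)) hv (hA j hv)
      · exact disjoint_left.1 (h2 i i0 h) hu (hA i hu)) o (Or.inr ho) x (Or.inl rfl)
  exact ⟨G, b.isClosed, c.2, a, d, e⟩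

def con (Y K : Set X) (a : X) : Set X :=
  {y | ∃ G, IsClosed G ∧ IsPreconnected G ∧ G ⊆ Y \ K ∧ a ∈ G ∧ y ∈ G}

variable {Y K : Set X} {a : X}

theorem con_sub : con Y K a ⊆ Y \ K := fun _ ⟨_, _, _, c, _, e⟩ => c e

theorem con_self (h : a ∈ Y \ K) : a ∈ con Y K a :=
  ⟨{a}, isClosed_singleton, isPreconnected_singleton, singleton_subset_iff.2 h, rfl, rfl⟩

theorem con_join : ∀ y ∈ con Y K a,
    ∃ G, IsClosed G ∧ IsPreconnected G ∧ G ⊆ con Y K a ∧ a ∈ G ∧ y ∈ G :=
  fun _ ⟨G, b, c, d, e, f⟩ => ⟨G, b, c, fun _ hz => ⟨G, b, c, d, e, hz⟩, e, f⟩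

theorem con_pre : IsPreconnected (con Y K a) :=
  isPreconnected_of_forall a fun y hy =>
    let ⟨G, _, c, d, e, f⟩ := con_join y hy
    ⟨G, d, e, f, c⟩

theorem con_symm {y : X} (h : y ∈ con Y K a) : a ∈ con Y K y :=
  let ⟨G, b, c, d, e, f⟩ := h
  ⟨G, b, c, d, f, e⟩

theorem con_trans {y : X} (h : y ∈ con Y K a) : con Y K y ⊆ con Y K a := by
  obtain ⟨G, b, c, d, e, f⟩ := h
  rintro z ⟨G', b', c', d', e', f'⟩
  exact ⟨G ∪ G', b.union b', c.union y f e' c', union_subset d d', Or.inl e, Or.inr f'⟩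

theorem con_tool (hs : Star X) (hY : IsClosed Y) (hK : IsClosed K) (hne : K.Nonempty) {x : X}
    (hx : x ∈ closure (con Y K a)) :
    a ∉ K ∧ ∃ G, IsClosed G ∧ IsPreconnected G ∧ G ⊆ insert x (con Y K a) ∧ a ∈ G ∧ x ∈ G := by
  obtain ⟨y, hy⟩ := closure_nonempty_iff.1 ⟨x, hx⟩
  have ha := con_sub (con_symm hy)
  refine ⟨ha.2, tool hs ?_ (con_self ha) con_join hx⟩
  let Z : ℕ → Set X := fun n => Y ∩ {y | 1 / ((n : ℝ) + 1) ≤ infDist y K}
  have hZ : ∀ n, IsClosed (Z n) := fun n =>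
    hY.inter (isClosed_le continuous_const (continuous_infDist_pt K))
  refine ⟨fun n => closure (connectedComponentIn (Z n) a), fun n => isClosed_closure,
    Subset.antisymm ?_ (iUnion_subset fun n z hz => ?_)⟩
  · rintro z ⟨G, b, c, d, e, f⟩
    obtain ⟨w, hw, hmin⟩ := b.isCompact.exists_isMinOn ⟨a, e⟩
      (continuous_infDist_pt K).continuousOn
    obtain ⟨n, hn⟩ := exists_nat_one_div_lt ((hK.notMem_iff_infDist_pos hne).1 (d hw).2)
    exact mem_iUnion.2 ⟨n, subset_closure (c.subset_connectedComponentIn (F := Z n) e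
      (fun u hu => ⟨(d hu).1, hn.le.trans (hmin hu)⟩) f)⟩
  · obtain ⟨u, hu⟩ := closure_nonempty_iff.1 ⟨z, hz⟩
    refine ⟨_, isClosed_closure, isPreconnected_connectedComponentIn.closure, fun v hv => ?_,
      subset_closure (mem_connectedComponentIn (connectedComponentIn_nonempty_iff.1 ⟨u, hu⟩)), hz⟩
    have := closure_minimal (connectedComponentIn_subset _ _) (hZ n) hv
    exact ⟨this.1, (hK.notMem_iff_infDist_pos hne).2
      (lt_of_lt_of_le (by positivity) (this.2 : 1 / ((n : ℝ) + 1) ≤ infDist v K))⟩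

theorem con_closed (hs : Star X) (hY : IsClosed Y) (hK : IsClosed K) (hne : K.Nonempty) {x : X}
    (hx : x ∈ closure (con Y K a)) (hxK : x ∉ K) : x ∈ con Y K a := by
  obtain ⟨-, G, b, c, d, e, f⟩ := con_tool hs hY hK hne hx
  refine ⟨G, b, c, fun z hz => ?_, e, f⟩
  rcases d hz with rfl | h
  exacts [⟨closure_minimal (con_sub.trans diff_subset) hY hx, hxK⟩, con_sub h]

theorem con_meets (hY : IsClosed Y) (hY' : IsPreconnected Y) (hK : IsClosed K) (hne : K.Nonempty)
    (hKY : K ⊆ Y) (ha : a ∈ Y \ K) : ∃ m ∈ closure (con Y K a), m ∈ K := by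
  by_contra hcon
  push Not at hcon
  obtain ⟨W, hW, h1, h2⟩ := normal_exists_closure_subset isClosed_closure hK.isOpen_compl hcon
  obtain ⟨k, hk⟩ := hne
  obtain ⟨C, b, c, d, e, z, f, g⟩ := bump hY hY' hW ha.1 (h1 (subset_closure (con_self ha)))
    fun h => h2 (subset_closure (h (hKY hk))) hk
  exact g (h1 (subset_closure ⟨C, b, c, fun u hu => ⟨(e hu).1, h2 (e hu).2⟩, d, f⟩))

theorem con_far (hs : Star X) (hY : IsClosed Y) (hK : IsClosed K) {c m : X} {ρ : ℝ}
    (hmax : ∀ G, IsPreconnected G → G ⊆ Y ∩ closedBall c ρ → ∀ u ∈ G, u ∈ K → G ⊆ K)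
    (hm : m ∈ closure (con Y K a)) (hmK : m ∈ K) : ρ ≤ dist m c := by
  by_contra hlt
  obtain ⟨ha, G, b, c', d, e, f⟩ := con_tool hs hY hK ⟨m, hmK⟩ hm
  have hmW : m ∈ ball c ρ ∩ {a}ᶜ := ⟨not_le.1 hlt, fun h => ha (mem_singleton_iff.1 h ▸ hmK)⟩
  obtain ⟨C, g1, g2, g3, g4, z, g5, g6⟩ := bump b c' (isOpen_ball.inter isOpen_compl_singleton) f
    hmW fun h => (h e).2 rfl
  have hGY : G ⊆ Y := fun u hu => by
    rcases d hu with rfl | h
    exacts [closure_minimal (con_sub.trans diff_subset) hY hm, (con_sub h).1]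
  have := hmax C g2 (fun u hu => ⟨hGY (g4 hu).1, closure_minimal
    (inter_subset_left.trans ball_subset_closedBall) isClosed_closedBall (g4 hu).2⟩) m g3 hmK g5
  rcases d (g4 g5).1 with rfl | h
  exacts [g6 hmW, (con_sub h).2 this]

theorem comp_ex (hY : IsClosed Y) {c : X} (hc : c ∈ Y) {ρ : ℝ} (hρ : 0 ≤ ρ) :
    ∃ K, IsClosed K ∧ IsPreconnected K ∧ c ∈ K ∧ K ⊆ Y ∩ closedBall c ρ ∧
      ∀ G, IsPreconnected G → G ⊆ Y ∩ closedBall c ρ → ∀ u ∈ G, u ∈ K → G ⊆ K := by
  have h0 : c ∈ connectedComponentIn (Y ∩ closedBall c ρ) c :=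
    mem_connectedComponentIn ⟨hc, mem_closedBall_self hρ⟩
  have hmax : ∀ G, IsPreconnected G → G ⊆ Y ∩ closedBall c ρ →
      ∀ u ∈ G, u ∈ connectedComponentIn (Y ∩ closedBall c ρ) c →
        G ⊆ connectedComponentIn (Y ∩ closedBall c ρ) c := fun G a b u d e => by
    rw [connectedComponentIn_eq e]
    exact a.subset_connectedComponentIn d b
  exact ⟨_, isClosed_of_closure_subset (hmax _ isPreconnected_connectedComponentIn.closure
    (closure_minimal (connectedComponentIn_subset _ _) (hY.inter isClosed_closedBall)) c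
    (subset_closure h0) h0), isPreconnected_connectedComponentIn, h0,
    connectedComponentIn_subset _ _, hmax⟩

theorem main [ConnectedSpace X] (hs : Star X) (p : X) {r : ℝ} (hr : 0 < r) :
    ∃ K : Set X, IsClosed K ∧ IsPreconnected K ∧ p ∈ interior K ∧ K ⊆ closedBall p r := by
  obtain ⟨K0, k1, k2, k3, k4, k5⟩ := comp_ex isClosed_univ (mem_univ p) hr.le
  refine ⟨K0, k1, k2, by_contra fun hp => ?_, k4.trans inter_subset_right⟩
  rw [← mem_compl_iff, ← closure_compl] at hp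
  obtain ⟨a, ha, hap⟩ := mem_closure_iff_seq_limit.1 hp
  choose m hm hmK using fun n => con_meets isClosed_univ isPreconnected_univ k1 ⟨p, k3⟩
    (subset_univ _) (a := a n) ⟨mem_univ _, ha n⟩
  obtain ⟨o, ho, φ, hφ, hlim⟩ := (k1.inter (isClosed_le continuous_const
    (continuous_id.dist continuous_const) : IsClosed {y | r ≤ dist y p})).isCompact.tendsto_subseq
    (x := m) fun n => ⟨hmK n, con_far hs isClosed_univ k1 k5 (hm n) (hmK n)⟩
  have hop : r ≤ dist o p := ho.2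
  obtain ⟨K1, l1, l2, l3, l4, l5⟩ := comp_ex k1 ho.1 (half_pos hr).le
  have hoP : o ∉ closure (con K0 K1 p) := fun h => by
    have := con_far hs k1 l1 l5 h l3
    rw [dist_self] at this
    linarith
  obtain ⟨N, hN⟩ := eventually_atTop.1 (hlim.eventually (isClosed_closure.isOpen_compl.mem_nhds hoP))
  let G : ℕ → Set X := fun n => closure (con univ K0 (a (φ (n + N)))) ∪
    (closure (con K0 K1 (m (φ (n + N)))) ∪ K1)
  have hG : ∀ n, IsClosed (G n) := fun n => isClosed_closure.union (isClosed_closure.union l1)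
  have hG' : ∀ n, IsPreconnected (G n) := by
    intro n
    by_cases h : m (φ (n + N)) ∈ K1
    · have : con K0 K1 (m (φ (n + N))) = ∅ :=
        eq_empty_iff_forall_notMem.2 fun y hy => (con_sub (con_symm hy)).2 h
      simp only [G, this, closure_empty, empty_union]
      exact con_pre.closure.union _ (hm _) h l2
    · obtain ⟨u, hu, hu'⟩ := con_meets k1 k2 l1 ⟨o, l3⟩ (l4.trans inter_subset_left) ⟨hmK _, h⟩
      exact con_pre.closure.union _ (hm _) (Or.inl (subset_closure (con_self ⟨hmK _, h⟩)))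
        (con_pre.closure.union u hu hu' l2)
  obtain ⟨H, h1, h2, h3, h4, h5⟩ := tool hs (S := ⋃ n, G n) (o := o) (x := p) ⟨G, hG, rfl⟩
    (mem_iUnion.2 ⟨0, Or.inr (Or.inr l3)⟩) (fun y hy =>
      let ⟨n, hn⟩ := mem_iUnion.1 hy
      ⟨G n, hG n, hG' n, subset_iUnion G n, Or.inr (Or.inr l3), hn⟩)
    (mem_closure_of_tendsto ((hap.comp hφ.tendsto_atTop).comp (tendsto_add_atTop_nat N))
      (Eventually.of_forall fun n =>
        mem_iUnion.2 ⟨n, Or.inl (subset_closure (con_self ⟨mem_univ _, ha _⟩))⟩))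
  have hr3 : 0 < r / 3 := by linarith
  obtain ⟨C, c1, c2, c3, c4, z, c5, c6⟩ := bump h1 h2 isOpen_ball h5 (mem_ball_self hr3) fun h => by
    have := mem_ball.1 (h h4)
    linarith
  have hCb : C ⊆ closedBall p (r / 3) := fun u hu => closure_ball_subset_closedBall (c4 hu).2
  have hCK : C ⊆ K0 := k5 C c2
    (fun u hu => ⟨mem_univ _, closedBall_subset_closedBall (by linarith) (hCb hu)⟩) p c3 k3
  have hK1 : ∀ u ∈ closedBall p (r / 3), u ∉ K1 := fun u hu h => by
    have e1 := mem_closedBall.1 hu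
    have e2 := mem_closedBall.1 (l4 h).2
    have e3 := dist_triangle_left o p u
    linarith
  have hin : ∀ y u, u ∈ closure (con K0 K1 y) ∩ closedBall p (r / 3) → u ∈ con K0 K1 y :=
    fun y u hu => con_closed hs k1 l1 ⟨o, l3⟩ hu.1 (hK1 u hu.2)
  have hpn : ∀ n, p ∉ closure (con K0 K1 (m (φ (n + N)))) ∩ closedBall p (r / 3) := fun n h =>
    hN (n + N) (Nat.le_add_left _ _) (subset_closure (con_symm (hin _ _ h)))
  obtain ⟨i, hi⟩ := sier c1 c2 (fun n => Nat.casesOn n {p} fun n =>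
    closure (con K0 K1 (m (φ (n + N)))) ∩ closedBall p (r / 3)) (by
      rintro (_ | n)
      exacts [isClosed_singleton, isClosed_closure.inter isClosed_closedBall]) (by
      rintro (_ | i) (_ | j)
      · exact Or.inl rfl
      · exact Or.inr (disjoint_singleton_left.2 (hpn j))
      · exact Or.inr (disjoint_singleton_right.2 (hpn i))
      · refine or_iff_not_imp_right.2 fun h => ?_
        obtain ⟨u, hu, hu'⟩ := not_disjoint_iff.1 h
        have e1 := hin _ _ hu
        have e2 := hin _ _ hu'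
        have : con K0 K1 (m (φ (i + N))) = con K0 K1 (m (φ (j + N))) := Subset.antisymm
          (con_trans (con_trans e2 (con_symm e1))) (con_trans (con_trans e1 (con_symm e2)))
        simp only [this]) (by
      intro u hu
      rcases h3 (c4 hu).1 with rfl | h
      · exact mem_iUnion.2 ⟨0, rfl⟩
      · obtain ⟨n, h | h | h⟩ := mem_iUnion.1 h
        · have e1 := con_far hs isClosed_univ k1 k5 h (hCK hu)
          have e2 := mem_closedBall.1 (hCb hu)
          linarith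
        · exact mem_iUnion.2 ⟨n + 1, h, hCb hu⟩
        · exact absurd h (hK1 u (hCb hu)))
  rcases i with _ | i
  · exact c6 (mem_singleton_iff.1 (hi c5) ▸ mem_ball_self hr3)
  · exact hpn i (hi c3)

end

end

/-- In a metrizable continuum where every σ-connected F_σ subset has any two of its points inside a subcontinuum of that subset, any two distinct points p,q admit a subcontinuum containing one of them in its interior and missing the other. -/
theorem result :
    ∀ (X : Type) [TopologicalSpace X] [TopologicalSpace.MetrizableSpace X]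
      [CompactSpace X] [ConnectedSpace X],
      (∀ A : Set X,
        (∃ C : ℕ → Set X, (∀ n, IsClosed (C n)) ∧ A = ⋃ n, C n) →
        (¬ ∃ F : ℕ → Set X,
            (∀ n, ∃ D : Set X, IsClosed D ∧ F n = D ∩ A) ∧
            (∀ i j, i ≠ j → Disjoint (F i) (F j)) ∧
            (⋃ n, F n) = A ∧
            (∃ i j, i ≠ j ∧ (F i).Nonempty ∧ (F j).Nonempty)) →
        ∀ x ∈ A, ∀ y ∈ A, ∃ K : Set X, K ⊆ A ∧ IsCompact K ∧ IsConnected K ∧ x ∈ K ∧ y ∈ K) →
      ∀ p q : X, p ≠ q →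
        (∃ K : Set X, IsCompact K ∧ IsConnected K ∧ p ∈ interior K ∧ q ∉ K) ∨
        (∃ K : Set X, IsCompact K ∧ IsConnected K ∧ q ∈ interior K ∧ p ∉ K) := by
  intro X _ _ _ _ hs p q hpq
  letI := TopologicalSpace.metrizableSpaceMetric X
  have hd : 0 < dist q p := dist_pos.2 hpq.symm
  obtain ⟨K, a, b, c, d⟩ := main hs p (half_pos hd)
  refine Or.inl ⟨K, a.isCompact, ⟨⟨p, interior_subset c⟩, b⟩, c, fun h => ?_⟩
  have := Metric.mem_closedBall.1 (d h)
  linarith

end Pool.Agent.S13625
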