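import Pool.Statements.S13676
import Pool.Agent.H29.Smyth

set_option autoImplicit false
open Pool Pool.MP_9fb79a_gt

namespace Pool.Agent.S13676

theorem result :
    ¬ (∀ (WF : (Y : Type) → TopologicalSpace Y → Prop),
    (∀ (Y : Type) (s : TopologicalSpace Y), WF Y s ↔
      (@T0Space Y s ∧
        ∀ (𝒦 : Set (Set Y)) (U : Set Y),
          (∀ K ∈ 𝒦, @IsCompact Y s K ∧
            ∀ y : Y, (∀ V : Set Y, @IsOpen Y s V → K ⊆ V → y ∈ V) → y ∈ K) →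
          𝒦.Nonempty →
          (∀ K₁ ∈ 𝒦, ∀ K₂ ∈ 𝒦, ∃ K₃ ∈ 𝒦, K₃ ⊆ K₁ ∩ K₂) →
          @IsOpen Y s U → ⋂₀ 𝒦 ⊆ U → ∃ K ∈ 𝒦, K ⊆ U)) →
  ∀ (WFD : (Z : Type) → TopologicalSpace Z → Prop),
    (∀ (Z : Type) (t : TopologicalSpace Z), WFD Z t ↔
      ∀ A : Set Z, @IsClosed Z t A → @IsIrreducible Z t A →
        ∀ (Y : Type) (s : TopologicalSpace Y) (f : Z → Y), WF Y s → @Continuous Z Y t s f →
          ∃ y : Y, @closure Y s (f '' A) = @closure Y s {y}) →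
  ∀ (X : Type) (t : TopologicalSpace X), @T0Space X t → WFD X t →
    WFD {K : Set X // K.Nonempty ∧ @IsCompact X t K ∧
          ∀ x : X, (∀ V : Set X, @IsOpen X t V → K ⊆ V → x ∈ V) → x ∈ K}
      (TopologicalSpace.generateFrom
        {S | ∃ U : Set X, @IsOpen X t U ∧ S = {K | K.1 ⊆ U}})) := by
  intro h
  have h1 := h _ (fun _ _ => Iff.rfl) _ (fun _ _ => Iff.rfl) H29.Smyth.X inferInstance inferInstance
    (fun A hA hi Y _ f wf hf => H29.Smyth.wfdX A hA hi Y f wf.2 hf)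
  exact H29.Smyth.nopt (h1 H29.Smyth.AA H29.Smyth.closedA H29.Smyth.irrA H29.Smyth.Y inferInstance
    H29.Smyth.ff ⟨inferInstance, H29.Smyth.wfY⟩ H29.Smyth.contf)

end Pool.Agent.S13676
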