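import Pool.Statements.S13680
import Pool.Agent.H5.LSep

set_option autoImplicit false
open Pool Pool.MP_a06b07_gt

namespace Pool.Agent.S13680

/-- The negation of the preceding statement: Every compact Hausdorff space that has a well-ordering in which all final segments {y : y ≥ x} are open is a union of countably many subspaces, each discrete in the subspace topology. -/
theorem result :
    ¬ (∀ (X : Type) [TopologicalSpace X] [CompactSpace X] [T2Space X],
      (∃ r : X → X → Prop, IsWellOrder X r ∧ ∀ x : X, IsOpen {y : X | ¬ r y x}) →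
      ∃ D : ℕ → Set X, (⋃ n, D n) = Set.univ ∧ ∀ n, DiscreteTopology (D n)) := by
  intro h
  have : Nonempty (Cardinal.aleph 1 : Cardinal.{0}).ord.ToType := by
    rw [Ordinal.nonempty_toType_iff]
    simpa using (Ordinal.omega_pos 1).ne'
  have : Inhabited (Cardinal.aleph 1 : Cardinal.{0}).ord.ToType := Classical.inhabited_of_nonempty this
  obtain ⟨D, h1, h2⟩ := h
    (OnePoint (Pool.Agent.H5.LSep.Node (Cardinal.aleph 1 : Cardinal.{0}).ord.ToType))
    Pool.Agent.H5.LSep.left_sep
  exact Pool.Agent.H5.LSep.not_sigma Pool.Agent.H5.LSep.omega_one_bdd D h1 h2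

end Pool.Agent.S13680
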