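import Pool.Statements.S13694
-- import your own Pool.Agent.* helpers here

set_option autoImplicit false
open Pool Pool.MP_a33cdf_gt

namespace Pool.Agent.S13694

open Set Cardinal Filter Topology

structure Big (κ : Cardinal.{0}) (K : Type) [LinearOrder K] : Prop where
  bdd : ∀ s : Set K, #s ≤ κ → ∃ b, ∀ x ∈ s, x < b
  small : ∀ x : K, #(Iic x) ≤ κ

theorem exists_big {κ : Cardinal.{0}} (hκ : ℵ₀ ≤ κ) : Big κ (Order.succ κ).ord.ToType := by
  have hreg : (Order.succ κ).IsRegular := isRegular_succ hκ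
  have hcof : Order.cof (Order.succ κ).ord.ToType = Order.succ κ := by
    rw [Ordinal.cof_toType, hreg.cof_ord]
  refine ⟨fun s hs => ?_, fun x => ?_⟩
  · have : ¬ IsCofinal s := fun h => by
      have h1 := Order.cof_le h
      rw [hcof] at h1
      exact (Order.lt_succ κ).not_ge (h1.trans hs)
    simp only [IsCofinal, not_forall, not_exists, not_and, not_le] at this
    exact this
  · have := mk_Iic_lt x (by simp) (by simpa using hreg.aleph0_le)
    rw [mk_ord_toType] at this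
    exact Order.lt_succ_iff.1 this

noncomputable def nu : ℕ → Cardinal.{0}
  | 0 => ℵ₀
  | n + 1 => 2 ^ nu n

theorem nu_mono : Monotone nu := monotone_nat_of_le_succ fun _ => (cantor _).le
theorem nu_inf (n : ℕ) : ℵ₀ ≤ nu n := nu_mono (Nat.zero_le n)
noncomputable def tau : Cardinal.{0} := sum nu
theorem nu_le (n : ℕ) : nu n ≤ tau := le_sum nu n
theorem tau_inf : ℵ₀ ≤ tau := nu_le 0
theorem nu_pow (n : ℕ) : nu n ^ ℵ₀ ≤ tau :=
  (power_le_power_left (aleph0_pos.trans_le (nu_inf n)).ne' (nu_inf n)).trans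
    ((power_self_eq (nu_inf n)).le.trans (nu_le (n + 1)))

theorem ins_le {A : Type} {S : Set A} {x : A} {κ : Cardinal.{0}} (hκ : ℵ₀ ≤ κ) (h : #S ≤ κ) :
    #(insert x S : Set A) ≤ κ :=
  mk_insert_le.trans ((add_le_add h (one_le_aleph0.trans hκ)).trans (add_eq_self hκ).le)

theorem un_le {A ι : Type} {S : ι → Set A} {κ : Cardinal.{0}} (hκ : ℵ₀ ≤ κ) (hι : #ι ≤ κ)
    (h : ∀ i, #(S i) ≤ κ) : #(⋃ i, S i) ≤ κ :=
  (mk_iUnion_le _).trans ((mul_le_mul' hι (ciSup_le' h)).trans (mul_eq_self hκ).le)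

section pr
variable {A : Type} [LinearOrder A] [WellFoundedLT A] [OrderTop A]

noncomputable def pr (S : Set A) (x : A) : A :=
  wellFounded_lt.min {s | s ∈ insert ⊤ S ∧ x ≤ s} ⟨⊤, Or.inl rfl, le_top⟩

theorem pr_spec (S : Set A) (x : A) : pr S x ∈ insert ⊤ S ∧ x ≤ pr S x :=
  wellFounded_lt.min_mem {s | s ∈ insert ⊤ S ∧ x ≤ s} _

theorem pr_le {S : Set A} {x s : A} (h : s ∈ S) (h' : x ≤ s) : pr S x ≤ s :=
  not_lt.1 (wellFounded_lt.not_lt_min {s | s ∈ insert ⊤ S ∧ x ≤ s} ⟨Or.inr h, h'⟩)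

end pr

variable {K : Type} [LinearOrder K] (hK : Big tau K) {J : ℕ → Type} [∀ n, LinearOrder (J n)]
  [∀ n, WellFoundedLT (J n)] [∀ n, OrderTop (J n)] {f : K → ∀ n, J n}
  (hf : ∀ α β, α < β → ∀ᶠ n in atTop, f α n < f β n)

include hK hf

theorem L1 (S : ∀ n, Set (J n)) (j : ℕ) (hS : ∀ n, #(S n) ≤ nu j) :
    ∃ α, ∀ β, ∀ᶠ n in atTop, f β n ≤ pr (S n) (f α n) := by
  let π : K → ∀ n, (insert ⊤ (S n) : Set (J n)) := fun α n => ⟨_, (pr_spec (S n) (f α n)).1⟩
  have : ¬ ∀ y, #(π ⁻¹' {y}) ≤ tau := fun h => by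
    obtain ⟨b, hb⟩ := hK.bdd _ (un_le tau_inf (by
      rw [mk_pi]
      exact (prod_le_prod _ _ fun n => ins_le (nu_inf j) (hS n)).trans
        (by rw [prod_const', mk_nat]; exact nu_pow j)) h)
    exact lt_irrefl _ (hb b (mem_iUnion.2 ⟨_, rfl⟩))
  push Not at this
  obtain ⟨y, hy⟩ := this
  have h1 : ∀ β, ∃ γ, π γ = y ∧ β < γ := fun β => by
    by_contra h
    push Not at h
    exact hy.not_ge ((mk_le_mk_of_subset h).trans (hK.small β))
  obtain ⟨b, -⟩ := hK.bdd ∅ (by simp)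
  obtain ⟨α, hα, -⟩ := h1 b
  refine ⟨α, fun β => ?_⟩
  obtain ⟨γ, hγ, h⟩ := h1 β
  filter_upwards [hf β γ h] with n hn
  exact hn.le.trans ((pr_spec (S n) _).2.trans_eq
    (congrArg Subtype.val (congrFun (hγ.trans hα.symm) n)))

theorem lub : ∃ g : ∀ n, J n, (∀ β, ∀ᶠ n in atTop, f β n ≤ g n) ∧
    ∀ g' : ∀ n, J n, (∀ β, ∀ᶠ n in atTop, f β n ≤ g' n) → ∀ᶠ n in atTop, g n ≤ g' n := by
  by_contra hc
  push Not at hc
  choose! Φ hΦ hΦ' using hc
  let ev : WType (fun b : Bool => {_n : ℕ // b = true}) → ∀ n, J n :=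
    WType.elim _ fun x => if h : x.1 = true then Φ fun n => x.2 ⟨n, h⟩ n else ⊤
  obtain ⟨α, hα⟩ := L1 hK hf (fun n => range fun t => ev t n) 1 fun n => mk_range_le.trans
    (WType.cardinalMk_le_of_le ((sum_le_mk_mul_iSup _).trans ((mul_le_mul'
      (mk_le_aleph0.trans (nu_inf 1)) (ciSup_le' fun b => (power_le_power_left
        (aleph0_pos.trans_le (nu_inf 1)).ne' mk_le_aleph0).trans
        (show 𝔠 ^ ℵ₀ ≤ 𝔠 by simp))).trans (mul_eq_self (nu_inf 1)).le)))
  have : ∀ n, ∃ t, ev t n = pr (range fun t => ev t n) (f α n) := fun n =>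
    (pr_spec _ _).1.elim (fun h => ⟨⟨false, fun x => by simpa using x.2⟩, h.symm⟩) id
  choose t ht using this
  have e : ev ⟨true, fun x => t x.1⟩ = Φ fun n => pr (range fun t => ev t n) (f α n) := by
    rw [← funext ht]; rfl
  refine (hΦ' _ hα).and_eventually (hΦ _ hα α) |>.exists.elim fun n hn => hn.1.not_ge ?_
  exact pr_le ⟨_, congrFun e n⟩ hn.2

theorem pcf : ∃ (g : ∀ n, J n) (C : ∀ n, Set (J n)), (∀ n, C n ⊆ Iio (g n)) ∧
    (∀ n, ∀ x < g n, ∃ c ∈ C n, x ≤ c) ∧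
    (∀ n, ∀ D ⊆ Iio (g n), #D < #(C n) → ∃ b < g n, ∀ x ∈ D, x < b) ∧
    (∀ j, {n | #(C n) ≤ nu j}.Finite) ∧ (∀ α, ∀ᶠ n in atTop, f α n < g n) ∧
    ∀ h : ∀ n, J n, (∀ᶠ n in atTop, h n < g n) → ∃ α, ∀ᶠ n in atTop, h n < f α n := by
  classical
  obtain ⟨g, hg, hg'⟩ := lub hK hf
  have h1 : ∀ α, ∀ᶠ n in atTop, f α n < g n := fun α => by
    obtain ⟨β, hβ⟩ := hK.bdd {α} (by simpa using one_le_aleph0.trans tau_inf)
    filter_upwards [hf α β (hβ α rfl), hg β] with n h h' using h.trans_le h'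
  have := fun n => (InvImage.wf (fun C : Set (J n) => #C) wellFounded_lt).has_min
    {C | C ⊆ Iio (g n) ∧ ∀ x < g n, ∃ c ∈ C, x ≤ c} ⟨_, Subset.rfl, fun x h => ⟨x, h, le_rfl⟩⟩
  choose C hC hC' using this
  refine ⟨g, C, fun n => (hC n).1, fun n => (hC n).2, fun n D hD h => ?_, fun j => ?_, h1,
    fun h hh => ?_⟩
  · by_contra hc
    push Not at hc
    exact hC' n D ⟨hD, hc⟩ h
  · obtain ⟨α, hα⟩ := L1 hK hf (fun n => if #(C n) ≤ nu j then C n else ∅) j fun n => by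
      split_ifs with h
      exacts [h, by simp]
    rw [← compl_compl {n | _}, ← mem_cofinite, Nat.cofinite_eq_atTop]
    filter_upwards [hg' _ hα, h1 α] with n h h' h''
    obtain ⟨c, hc, h2⟩ := (hC n).2 _ h'
    rw [if_pos (show #(C n) ≤ nu j from h'')] at h
    exact (h.trans (pr_le hc h2)).not_gt ((hC n).1 hc)
  · obtain ⟨α, hα⟩ := L1 hK hf (fun n => {h n}) 0 fun n => by simp [nu]
    refine ⟨α, ?_⟩
    filter_upwards [hg' _ hα, hh] with n h h'
    exact not_le.1 fun h'' => (h.trans (pr_le rfl h'')).not_gt h'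

omit hK hf

theorem nhds_pi_iff {I : Type} (g : I → Bool) (U : Set (I → Bool)) :
    U ∈ 𝓝 g ↔ ∃ w : Set I, w.Finite ∧ ∀ y : I → Bool, (∀ i ∈ w, y i = g i) → y ∈ U := by
  rw [nhds_pi, Filter.mem_pi]
  constructor
  · rintro ⟨w, hw, s, hs, hst⟩
    refine ⟨w, hw, fun y hy => hst fun i hi => ?_⟩
    rw [hy i hi]; exact mem_of_mem_nhds (hs i)
  · rintro ⟨w, h, hw⟩
    exact ⟨w, h, fun i => {g i}, fun i => by simp, fun y hy => hw y fun i hi => hy i hi⟩

theorem cl_iff {I : Type} {X : Set (I → Bool)} (x : X) (A : Set X) :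
    x ∈ closure A ↔ ∀ w : Set I, w.Finite → ∃ y ∈ A, ∀ i ∈ w, y.1 i = x.1 i := by
  rw [closure_subtype, mem_closure_iff_nhds]
  constructor
  · intro h w hw
    obtain ⟨_, hy, y, hA, rfl⟩ := h {y | ∀ i ∈ w, y i = x.1 i}
      ((nhds_pi_iff _ _).2 ⟨w, hw, fun y hy => hy⟩)
    exact ⟨y, hA, hy⟩
  · intro h U hU
    obtain ⟨w, hw, hw'⟩ := (nhds_pi_iff _ _).1 hU
    obtain ⟨y, hA, hy⟩ := h w hw
    exact ⟨y, hw' y hy, y, hA, rfl⟩

include hK hf

theorem core (hJ : ∀ n, #(J n) ≤ nu (n + 1)) : ∃ (I : Type) (X : Set (I → Bool)) (Z : Set X),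
    (∀ Y : Set X, IsClosed Y → ∃ D ⊆ Y, Y ⊆ closure D ∧ #D ≤ tau) ∧
    ∀ D ⊆ Z, Z ⊆ closure D → tau < #D := by
  classical
  obtain ⟨g, C, hC, hC1, hC2, hB, hg, hg'⟩ := pcf hK hf
  let B : ℕ → ℕ → Prop := fun j n => #(C n) ≤ nu j
  have hB1 : ∀ j n, n < j → B j n := fun j n h => (mk_set_le _).trans ((hJ n).trans (nu_mono h))
  have hB2 : ∀ j n, ¬ B j n → ∀ D ⊆ Iio (g n), #D ≤ nu j → ∃ b < g n, ∀ x ∈ D, x < b :=
    fun j n h D hD h' => hC2 n D hD (h'.trans_lt (not_le.1 h))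
  let p : K → ∀ n, J n := fun α n => pr (insert (g n) (C n)) (min (f α n) (g n))
  have hp1 : ∀ α n, p α n ≤ g n := fun α n => pr_le (Or.inl rfl) (min_le_right _ _)
  have hp2 : ∀ α, ∀ᶠ n in atTop, f α n ≤ p α n ∧ p α n < g n := fun α => by
    filter_upwards [hg α] with n h
    obtain ⟨c, hc, h2⟩ := hC1 n _ h
    exact ⟨(min_eq_left h.le).ge.trans (pr_spec _ _).2,
      (pr_le (mem_insert_of_mem _ hc) ((min_le_left _ _).trans h2)).trans_lt (hC n hc)⟩
  have hp3 : ∀ h : ∀ n, J n, (∀ᶠ n in atTop, h n < g n) →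
      ∃ α, ∀ β, α < β → ∀ᶠ n in atTop, h n < p β n := fun h hh => by
    obtain ⟨α, hα⟩ := hg' h hh
    refine ⟨α, fun β h => ?_⟩
    filter_upwards [hα, hf α β h, hp2 β] with n h1 h2 h3 using (h1.trans h2).trans_le h3.1
  let w : ℕ → K → ∀ n, J n := fun j α n => if B j n then p α n else g n
  have hw : ∀ j, #(range (w j)) ≤ nu j := fun j => by
    haveI := (hB j).to_subtype
    haveI := Fintype.ofFinite {n | #(C n) ≤ nu j}
    refine (mk_le_of_injective (f := fun (x : range (w j)) (n : {n | #(C n) ≤ nu j}) =>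
      (⟨x.1 n, ?_⟩ : (insert ⊤ (insert (g n) (C n)) : Set (J n)))) fun x y h => ?_).trans ?_
    · obtain ⟨_, α, rfl⟩ := x
      simp only [w, if_pos (show B j n from n.2)]
      exact (pr_spec _ _).1
    · obtain ⟨_, α, rfl⟩ := x
      obtain ⟨_, β, rfl⟩ := y
      refine Subtype.ext (funext fun n => ?_)
      by_cases h' : B j n
      · exact congrArg Subtype.val (congrFun h ⟨n, h'⟩)
      · simp only [w, if_neg h']
    · rw [mk_pi]
      refine (prod_le_prod _ _ fun n => ins_le (nu_inf j) (ins_le (nu_inf j) n.2)).trans ?_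
      rw [prod_const']
      exact pow_le (nu_inf j) (lt_aleph0_of_finite _)
  let e : (∀ n, J n) → (∀ n, J n) → Bool := fun h u => decide (∀ n, u n < g n → u n < h n)
  let X : Set ((∀ n, J n) → Bool) := range (e ∘ p) ∪ ⋃ j, e '' range (w j)
  let z : K → X := fun α => ⟨e (p α), Or.inl ⟨α, rfl⟩⟩
  let y : ℕ → K → X := fun j α => ⟨e (w j α), Or.inr (mem_iUnion.2 ⟨j, _, ⟨α, rfl⟩, rfl⟩)⟩
  refine ⟨_, X, range z, fun Y hY => ?_, fun D hD hD' => not_le.1 fun hc => ?_⟩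
  · let G : ℕ → (∀ n, J n) → (∀ n, J n) → Prop := fun j x v =>
      ∃ γ, z γ ∈ Y ∧ ∀ n, (B j n → p γ n = x n) ∧ (¬ B j n → v n < p γ n)
    have h1 : ∀ j x, ∃ v : ∀ n, J n, (∀ n, ¬ B j n → v n < g n) ∧
        (G j x v → ∀ v' : ∀ n, J n, (∀ n, ¬ B j n → v' n < g n) → G j x v') := fun j x => by
      by_cases h : ∃ v : ∀ n, J n, (∀ n, ¬ B j n → v n < g n) ∧ ¬ G j x v
      · obtain ⟨v, h, h'⟩ := h
        exact ⟨v, h, fun h => (h' h).elim⟩
      · push Not at h
        have : ∀ n, ∃ b, ¬ B j n → b < g n := fun n => by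
          by_cases h : B j n
          · exact ⟨⊤, fun h' => (h' h).elim⟩
          · obtain ⟨b, hb, -⟩ := hB2 j n h ∅ (empty_subset _) (by simp)
            exact ⟨b, fun _ => hb⟩
        choose b hb using this
        exact ⟨b, hb, fun _ => h⟩
    choose v hv hv' using h1
    have h2 : ∀ n, ∃ b, ¬ B 0 n → b < g n ∧ ∀ j α, ¬ B j n → v j (w j α) n < b := fun n => by
      by_cases h : B 0 n
      · exact ⟨⊤, fun h' => (h' h).elim⟩
      have h3 : ∃ j, B (j + 1) n := ⟨n, hB1 _ _ n.lt_succ_self⟩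
      have h4 : ¬ B (Nat.find h3) n := by
        rcases h5 : Nat.find h3 with _ | k
        exacts [h, Nat.find_min h3 (by omega)]
      obtain ⟨b, hb, hb'⟩ := hB2 _ n h4 (⋃ j : {j // ¬ B j n}, (v j · n) '' range (w j))
        (iUnion_subset fun j => image_subset_iff.2 fun x _ => hv j x n j.2)
        (un_le (nu_inf _) (mk_le_aleph0.trans (nu_inf _)) fun j => mk_image_le.trans ((hw j).trans
          (nu_mono (not_lt.1 fun h6 => j.2 ((Nat.find_spec h3).trans (nu_mono h6))))))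
      exact ⟨b, fun _ => ⟨hb, fun j α h => hb' _ (mem_iUnion.2 ⟨⟨j, h⟩, _, ⟨α, rfl⟩, rfl⟩)⟩⟩
    choose h hh using h2
    obtain ⟨α, hα⟩ := hp3 h (by
      filter_upwards [Nat.cofinite_eq_atTop ▸ (hB 0).compl_mem_cofinite] with n hn using (hh n hn).1)
    refine ⟨Y ∩ (z '' Iic α ∪ ⋃ j, range (y j)), inter_subset_left, fun x hx => ?_,
      (mk_le_mk_of_subset inter_subset_right).trans ((mk_union_le _ _).trans ((add_le_add
        (mk_image_le.trans (hK.small α)) (un_le tau_inf (mk_le_aleph0.trans tau_inf) fun j => ?_)).trans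
        (add_eq_self tau_inf).le))⟩
    swap
    · refine (mk_le_of_injective (f := fun x : range (y j) =>
        (⟨x.1.1, ?_⟩ : e '' range (w j))) fun a b h => ?_).trans
        (mk_image_le.trans ((hw j).trans (nu_le j)))
      · obtain ⟨_, β, rfl⟩ := x
        exact ⟨_, ⟨β, rfl⟩, rfl⟩
      · exact Subtype.ext (Subtype.ext (Subtype.mk.inj h))
    obtain ⟨_, ⟨β, rfl⟩ | h3⟩ := x
    swap
    · obtain ⟨j, _, ⟨β, rfl⟩, rfl⟩ := mem_iUnion.1 h3
      exact subset_closure ⟨hx, Or.inr (mem_iUnion.2 ⟨j, β, rfl⟩)⟩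
    rcases le_or_gt β α with h3 | h3
    · exact subset_closure ⟨hx, Or.inl ⟨β, h3, rfl⟩⟩
    obtain ⟨N, hN⟩ := eventually_atTop.1 (hα β h3)
    refine mem_closure_of_tendsto (f := fun j => y j β) (b := atTop)
      (tendsto_subtype_rng.2 (tendsto_pi_nhds.2 fun u => tendsto_const_nhds.congr' ?_)) ?_
    · by_cases h4 : ∀ n, u n < g n → u n < p β n
      · refine Eventually.of_forall fun j => decide_eq_decide.2 (iff_of_true h4 fun n hn => ?_)
        simp only [w]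
        split_ifs
        exacts [h4 n hn, hn]
      · have h5 := h4
        push Not at h5
        obtain ⟨n, h5, h6⟩ := h5
        filter_upwards [eventually_gt_atTop n] with j hj
        exact decide_eq_decide.2 (iff_of_false h4 fun h => (h n h5).not_ge
          ((if_pos (hB1 j n hj)).trans_le h6))
    filter_upwards [eventually_ge_atTop N] with j hj
    refine ⟨hY.closure_subset ((cl_iff _ _).2 fun t ht => ?_), Or.inr (mem_iUnion.2 ⟨j, β, rfl⟩)⟩
    have h4 : ∀ n, ∃ b, ¬ B j n → b < g n ∧ ∀ u ∈ t, u n < g n → u n < b := fun n => by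
      by_cases h : B j n
      · exact ⟨⊤, fun h' => (h' h).elim⟩
      obtain ⟨b, hb, hb'⟩ := hB2 j n h (Iio (g n) ∩ (· n) '' t) inter_subset_left
        (((ht.image _).inter_of_right _).lt_aleph0.le.trans (nu_inf j))
      exact ⟨b, fun _ => ⟨hb, fun u hu h => hb' _ ⟨h, u, hu, rfl⟩⟩⟩
    choose b hb using h4
    obtain ⟨γ, hγ, h5⟩ := hv' j (w j β) ⟨β, hx, fun n => ⟨fun h => (if_pos h).symm, fun h =>
      ((hh n fun h' => h (h'.trans (nu_mono j.zero_le))).2 j β h).trans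
        (hN n (not_lt.1 fun h' => h (hB1 j n (h'.trans_le hj))))⟩⟩ b fun n h => (hb n h).1
    refine ⟨_, hγ, fun u hu => decide_eq_decide.2 (forall₂_congr fun n hn => ?_)⟩
    by_cases h : B j n
    · rw [(h5 n).1 h]
    · exact iff_of_true (((hb n h).2 u hu hn).trans ((h5 n).2 h)) (hn.trans_eq (if_neg h).symm)
  · choose a ha using fun x : D => hD x.2
    choose c hc' using fun α => hp3 (p α) ((hp2 _).mono fun n h => h.2)
    obtain ⟨α, hα⟩ := hK.bdd (range (c ∘ a)) (mk_range_le.trans hc)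
    obtain ⟨β, hβ⟩ := hK.bdd {c α} (by simpa using one_le_aleph0.trans tau_inf)
    obtain ⟨x, hx, h1⟩ := (cl_iff _ _).1 (hD' ⟨β, rfl⟩)
      {fun n => if p α n < p β n then p α n else g n} (finite_singleton _)
    have h2 := h1 _ rfl
    rw [show x = z (a ⟨x, hx⟩) from (ha ⟨x, hx⟩).symm] at h2
    obtain ⟨n, h3, h4⟩ := ((hc' _ α (hα _ ⟨⟨x, hx⟩, rfl⟩)).and (hc' α β (hβ _ rfl))).exists
    have h5 := (decide_eq_decide.1 h2).2 (fun n hn => by
      beta_reduce at hn ⊢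
      split_ifs at hn ⊢ with h
      exacts [h, (lt_irrefl _ hn).elim]) n
    beta_reduce at h5
    rw [if_pos h4] at h5
    exact (h5 (h4.trans_le (hp1 β n))).not_gt h3

omit hK hf

theorem scale : ∃ f : (Order.succ tau).ord.ToType → ∀ n, WithTop (Order.succ (nu n)).ord.ToType,
    ∀ α β, α < β → ∀ᶠ n in atTop, f α n < f β n := by
  have h1 : ∀ α : (Order.succ tau).ord.ToType, Nonempty (Iic α ↪ Σ n, (nu n).out) := fun α =>
    (le_def _ _).1 (((exists_big tau_inf).small α).trans_eq (by simp [tau]))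
  let r := fun α => (h1 α).some
  have h2 : ∀ α n (x : ∀ β < α, (Order.succ (nu n)).ord.ToType), ∃ b, ∀ β (h : β < α),
      (r α ⟨β, h.le⟩).1 ≤ n → x β h < b := fun α n x => by
    classical
    obtain ⟨b0, -⟩ := (exists_big (nu_inf n)).bdd ∅ (by simp)
    obtain ⟨b, hb⟩ := (exists_big (nu_inf n)).bdd
      ((fun β : Iic α => if h : β.1 < α then x β h else b0) ''
        (r α ⁻¹' ⋃ k : Iic n, range (Sigma.mk k.1)))
      (mk_image_le.trans ((mk_preimage_of_injective _ _ (r α).injective).trans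
        (un_le (nu_inf n) (mk_le_aleph0.trans (nu_inf n)) fun k => mk_range_le.trans
          ((mk_out _).trans_le (nu_mono k.2)))))
    exact ⟨b, fun β h h' => hb _ ⟨⟨β, h.le⟩, mem_iUnion.2 ⟨⟨_, h'⟩, _, rfl⟩, dif_pos h⟩⟩
  choose b hb using h2
  let F : ∀ n, (Order.succ tau).ord.ToType → (Order.succ (nu n)).ord.ToType := fun n =>
    WellFoundedLT.fix fun α x => b α n x
  refine ⟨fun α n => F n α, fun α β h => ?_⟩
  filter_upwards [eventually_ge_atTop (r β ⟨α, h.le⟩).1] with n hn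
  have : F n β = b β n fun γ _ => F n γ := WellFoundedLT.fix_eq _ _
  rw [this]
  exact WithTop.coe_lt_coe.2 (hb β n (fun γ _ => F n γ) α h hn)

/-- The negation of the preceding statement: For every Tychonoff space X and cardinal τ: if every closed subspace of X has a dense subset of size at most τ, then every subspace of X has a dense subset of size at most τ. -/
theorem result :
    ¬ (∀ (X : Type) [TopologicalSpace X] [T35Space X] (τ : Cardinal.{0}),
      (∀ Y : Set X, IsClosed Y → ∃ D ⊆ Y, Y ⊆ closure D ∧ Cardinal.mk ↥D ≤ τ) →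
      ∀ Z : Set X, ∃ D ⊆ Z, Z ⊆ closure D ∧ Cardinal.mk ↥D ≤ τ) := by
  intro h
  obtain ⟨f, hf⟩ := scale
  obtain ⟨I, X, Z, h1, h2⟩ := core (exists_big tau_inf) hf fun n => by
    refine (show Cardinal.mk (Option _) ≤ _ from ?_)
    rw [Cardinal.mk_option, Cardinal.mk_ord_toType, Cardinal.add_one_eq
      ((nu_inf n).trans (Order.le_succ _))]
    exact Order.succ_le_of_lt (Cardinal.cantor _)
  obtain ⟨D, h3, h4, h5⟩ := h X tau h1 Z
  exact (h2 D h3 h4).not_ge h5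

end Pool.Agent.S13694
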