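import Pool.Statements.S13696
import Pool.Agent.H19.OkuA
-- import your own Pool.Agent.* helpers here

set_option autoImplicit false
open Pool Pool.MP_a4908e_gt

namespace Pool.Agent.S13696

/-- The negation of the preceding statement: For Tychonoff spaces X, Y: if every closed subset of X is a G-delta and the spaces of continuous real functions on X and Y with the pointwise topology are linearly homeomorphic, then every closed subset of Y is a G-delta. -/
theorem result :
    ¬ (∀ (X Y : Type) [TopologicalSpace X] [T35Space X] [TopologicalSpace Y] [T35Space Y],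
      (∀ s : Set X, IsClosed s → IsGδ s) →
      (∃ T : {f : X → ℝ // Continuous f} ≃ₜ {g : Y → ℝ // Continuous g},
        ∀ (a : ℝ) (f g h : {f : X → ℝ // Continuous f}),
          h.1 = a • f.1 + g.1 → (T h).1 = a • (T f).1 + (T g).1) →
      ∀ s : Set Y, IsClosed s → IsGδ s) := by
  intro H
  obtain ⟨X, Y, _, _, _, _, ⟨T, hT, hT'⟩, hX, hY⟩ := Pool.Agent.H19.Oku.perfect_example
  refine hY (H X Y (fun s _ => hX s) ⟨Pool.Agent.H19.Oku.toHomeo T hT hT', fun a f g h e => ?_⟩)
  have : (⟨h.1, h.2⟩ : C(X, ℝ)) = a • ⟨f.1, f.2⟩ + ⟨g.1, g.2⟩ := ContinuousMap.coe_injective e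
  show (T ⟨h.1, h.2⟩ : Y → ℝ) = a • (T ⟨f.1, f.2⟩ : Y → ℝ) + (T ⟨g.1, g.2⟩ : Y → ℝ)
  rw [this, map_add, map_smul]
  rfl

end Pool.Agent.S13696
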