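import Pool.Statements.S13710
-- import your own Pool.Agent.* helpers here

set_option autoImplicit false
open Pool Pool.MP_a6a8af_gt

namespace Pool.Agent.S13710

section Aux

open Set Topology

abbrev CC := AddCircle (1 : ℝ)

lemma cov : IsCoveringMap ((↑) : ℝ → CC) := AddCircle.isCoveringMap_coe 1

/-- a space on which all circle-valued maps lift is unicoherent -/
lemma unicoherent {Y : Type} [MetricSpace Y] [ConnectedSpace Y]
    (hl : ∀ g : Y → CC, Continuous g → ∃ H : Y → ℝ, Continuous H ∧ ∀ y, (H y : CC) = g y)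
    (A B : Set Y) (hA : IsClosed A) (hB : IsClosed B) (cA : IsConnected A) (cB : IsConnected B)
    (hAB : A ∪ B = univ) : IsConnected (A ∩ B) := by
  classical
  have hne : (A ∩ B).Nonempty := by
    by_contra h
    have h' : A ∩ B = ∅ := not_nonempty_iff_eq_empty.1 h
    have := isPreconnected_iff_subset_of_disjoint_closed.1 (isPreconnected_univ (α := Y)) A B hA hB
      hAB.ge (by rw [univ_inter, h'])
    rcases this with h1 | h1
    · obtain ⟨b, hb⟩ := cB.1; exact h ⟨b, h1 (mem_univ _), hb⟩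
    · obtain ⟨b, hb⟩ := cA.1; exact h ⟨b, hb, h1 (mem_univ _)⟩
  refine ⟨hne, isPreconnected_iff_subset_of_disjoint_closed.2 fun P Q hP hQ hs hd => ?_⟩
  by_contra hcon
  push Not at hcon
  obtain ⟨q, hq, hqP⟩ := not_subset.1 hcon.1
  obtain ⟨p, hp, hpQ⟩ := not_subset.1 hcon.2
  have hqQ : q ∈ Q := (hs hq).resolve_left hqP
  have hpP : p ∈ P := (hs hp).resolve_right hpQ
  obtain ⟨u, hu0, hu1, -⟩ := exists_continuous_zero_one_of_isClosed ((hA.inter hB).inter hP)
    ((hA.inter hB).inter hQ) (by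
      rw [Set.disjoint_left]
      rintro x ⟨h1, h2⟩ ⟨-, h3⟩
      have : x ∈ A ∩ B ∩ (P ∩ Q) := ⟨h1, h2, h3⟩
      rw [hd] at this; exact this)
  have cc : Continuous ((↑) : ℝ → CC) := cov.continuous
  let g : Y → CC := fun y => if y ∈ A then ((u y / 2 : ℝ) : CC) else ((-(u y / 2) : ℝ) : CC)
  have gA : ∀ y ∈ A, g y = ((u y / 2 : ℝ) : CC) := fun y hy => if_pos hy
  have gB : ∀ y ∈ B, g y = ((-(u y / 2) : ℝ) : CC) := by
    intro y hy
    by_cases h : y ∈ A
    · rw [gA y h]
      rcases hs ⟨h, hy⟩ with h1 | h1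
      · rw [hu0 ⟨⟨h, hy⟩, h1⟩]; simp
      · rw [hu1 ⟨⟨h, hy⟩, h1⟩, ← sub_eq_zero, ← AddCircle.coe_sub, AddCircle.coe_eq_zero_iff]
        exact ⟨1, by simp; norm_num⟩
    · exact if_neg h
  have cg : Continuous g := by
    rw [← continuousOn_univ, ← hAB]
    refine ContinuousOn.union_of_isClosed ?_ ?_ hA hB
    · exact (cc.comp (u.continuous.div_const 2)).continuousOn.congr gA
    · exact (cc.comp (u.continuous.div_const 2).neg).continuousOn.congr gB
  obtain ⟨H, cH, hH⟩ := hl g cg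
  have e1 : H p - u p / 2 = H q - u q / 2 :=
    cov.constOn_of_comp (g := fun y => H y - u y / 2) cA.2
      (cH.sub (u.continuous.div_const 2)).continuousOn
      (fun a ha a' ha' => by simp only [AddCircle.coe_sub, hH, gA a ha, gA a' ha', sub_self]) hp.1 hq.1
  have e2 : H p - -(u p / 2) = H q - -(u q / 2) :=
    cov.constOn_of_comp (g := fun y => H y - -(u y / 2)) cB.2
      (cH.sub (u.continuous.div_const 2).neg).continuousOn
      (fun a ha a' ha' => by simp only [AddCircle.coe_sub, hH, gB a ha, gB a' ha', sub_self]) hp.2 hq.2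
  rw [hu0 ⟨hp, hpP⟩, hu1 ⟨hq, hqQ⟩] at e1 e2
  simp at e1 e2
  linarith

noncomputable def hc : CC := ((1 / 2 : ℝ) : CC)

lemma hc_add : hc + hc = 0 := by
  unfold hc
  rw [← AddCircle.coe_add, AddCircle.coe_eq_zero_iff]; exact ⟨1, by norm_num⟩

lemma hc_neg : -hc = hc := neg_eq_of_add_eq_zero_left hc_add

lemma hc_ne : hc ≠ 0 := by
  unfold hc
  rw [Ne, AddCircle.coe_eq_zero_iff_of_mem_Ico (by constructor <;> norm_num)]
  norm_num

def sg (a : ZMod 2) (x : CC) : CC := if a = 0 then x else -x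
noncomputable def hf (a : ZMod 2) : CC := if a = 0 then 0 else hc

lemma z2 (a : ZMod 2) : a = 0 ∨ a = 1 := by revert a; decide
lemma z11 : (1 : ZMod 2) + 1 = 0 := by decide

lemma sg_add (a b : ZMod 2) (x : CC) : sg (a + b) x = sg a (sg b x) := by
  rcases z2 a with rfl | rfl <;> rcases z2 b with rfl | rfl <;> simp [sg, z11]
lemma hf_add (a b : ZMod 2) : hf (a + b) = hf a + hf b := by
  rcases z2 a with rfl | rfl <;> rcases z2 b with rfl | rfl <;> simp [hf, z11, hc_add]
lemma sg_map (a : ZMod 2) (x y : CC) : sg a (x + y) = sg a x + sg a y := by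
  rcases z2 a with rfl | rfl <;> simp [sg, add_comm]
lemma sg_hf (a b : ZMod 2) : sg a (hf b) = hf b := by
  rcases z2 a with rfl | rfl <;> rcases z2 b with rfl | rfl <;> simp [sg, hf, hc_neg]
lemma sg_cont (a : ZMod 2) : Continuous (sg a) := by
  unfold sg; split_ifs <;> fun_prop

abbrev XX := CC × CC × CC
abbrev K4 := ZMod 2 × ZMod 2

noncomputable instance act : AddAction K4 XX where
  vadd g x := (sg g.2 x.1 + hf g.1, sg g.1 x.2.1 + hf (g.1 + g.2), sg (g.1 + g.2) x.2.2 + hf g.2)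
  zero_vadd x := by
    show (sg 0 x.1 + hf 0, sg 0 x.2.1 + hf (0 + 0), sg (0 + 0) x.2.2 + hf 0) = x
    simp [sg, hf]
  add_vadd g h x := by
    show (sg (g.2 + h.2) x.1 + hf (g.1 + h.1), sg (g.1 + h.1) x.2.1 + hf ((g.1 + h.1) + (g.2 + h.2)),
      sg ((g.1 + h.1) + (g.2 + h.2)) x.2.2 + hf (g.2 + h.2)) =
      (sg g.2 (sg h.2 x.1 + hf h.1) + hf g.1, sg g.1 (sg h.1 x.2.1 + hf (h.1 + h.2)) + hf (g.1 + g.2),
        sg (g.1 + g.2) (sg (h.1 + h.2) x.2.2 + hf h.2) + hf g.2)
    rw [add_add_add_comm g.1 h.1 g.2 h.2]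
    simp only [sg_map, sg_hf, ← sg_add, hf_add (g.1 + g.2), hf_add g.1 h.1, hf_add g.2 h.2]
    refine Prod.ext ?_ (Prod.ext ?_ ?_) <;> simp only <;> abel

lemma vadd_def (g : K4) (x : XX) : g +ᵥ x =
    (sg g.2 x.1 + hf g.1, sg g.1 x.2.1 + hf (g.1 + g.2), sg (g.1 + g.2) x.2.2 + hf g.2) := rfl

instance actc : ContinuousConstVAdd K4 XX where
  continuous_const_vadd g := by
    simp only [vadd_def]
    have := sg_cont
    fun_prop

instance actf : IsCancelVAdd K4 XX := by
  rw [isCancelVAdd_iff_eq_zero_of_vadd_eq]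
  rintro ⟨a, b⟩ x h
  rw [vadd_def] at h
  have h1 := congrArg Prod.fst h
  have h2 := congrArg (fun y => y.2.1) h
  have h3 := congrArg (fun y => y.2.2) h
  rcases z2 a with rfl | rfl <;> rcases z2 b with rfl | rfl
  · rfl
  · simp [sg, hf, hc_ne] at h2
  · simp [sg, hf, hc_ne] at h1
  · simp [sg, hf, hc_ne, z11] at h3

abbrev YY := Quotient (AddAction.orbitRel K4 XX)

noncomputable def PP (v : ℝ × ℝ × ℝ) : XX := ((v.1 : CC), (v.2.1 : CC), (v.2.2 : CC))

lemma PP_oq : IsOpenQuotientMap PP :=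
  QuotientAddGroup.isOpenQuotientMap_mk.prodMap
    (QuotientAddGroup.isOpenQuotientMap_mk.prodMap QuotientAddGroup.isOpenQuotientMap_mk)

lemma lifts (g : YY → CC) (cg : Continuous g) : ∃ H : YY → ℝ, Continuous H ∧ ∀ y, (H y : CC) = g y := by
  let π : ℝ × ℝ × ℝ → YY := fun v => Quotient.mk _ (PP v)
  have hπ : IsQuotientMap π := isQuotientMap_quotient_mk'.comp PP_oq.isQuotientMap
  obtain ⟨e0, he0⟩ := QuotientAddGroup.mk_surjective (g (π 0))
  obtain ⟨h, ⟨-, hh⟩, -⟩ := cov.existsUnique_continuousMap_lifts ⟨g ∘ π, cg.comp hπ.continuous⟩ 0 e0 he0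
  have hh' : ∀ v, (h v : CC) = g (π v) := fun v => congrFun hh v
  have sc : ∀ φ : ℝ × ℝ × ℝ → ℝ × ℝ × ℝ, Continuous φ → (∀ v, π (φ v) = π v) →
      ∃ c, ∀ v, h (φ v) = h v + c := by
    intro φ cφ hφ
    refine ⟨h (φ 0) - h 0, fun v => ?_⟩
    have := cov.const_of_comp (g := fun v => h (φ v) - h v) ((h.continuous.comp cφ).sub h.continuous)
      (fun a a' => by simp only [AddCircle.coe_sub, hh', hφ, sub_self]) v 0
    linarith
  have one : ∀ x : ℝ, ((x + 1 : ℝ) : CC) = x := fun x => AddCircle.coe_add_period 1 x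
  have orb : ∀ (k : K4) (v w : ℝ × ℝ × ℝ), PP w = k +ᵥ PP v → π w = π v := fun k v w e =>
    Quotient.sound ⟨k, e.symm⟩
  have eA : ∀ v : ℝ × ℝ × ℝ, PP (v.1 + 1 / 2, -v.2.1 + 1 / 2, -v.2.2) = ((1, 0) : K4) +ᵥ PP v := fun v => by
    simp [vadd_def, PP, sg, hf, hc]
  have eB : ∀ v : ℝ × ℝ × ℝ, PP (-v.1, v.2.1 + 1 / 2, -v.2.2 + 1 / 2) = ((0, 1) : K4) +ᵥ PP v := fun v => by
    simp [vadd_def, PP, sg, hf, hc]
  obtain ⟨n1, h1⟩ := sc (fun v => (v.1 + 1, v.2.1, v.2.2)) (by fun_prop) (fun v => by simp only [π, PP, one])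
  obtain ⟨n2, h2⟩ := sc (fun v => (v.1, v.2.1 + 1, v.2.2)) (by fun_prop) (fun v => by simp only [π, PP, one])
  obtain ⟨n3, h3⟩ := sc (fun v => (v.1, v.2.1, v.2.2 + 1)) (by fun_prop) (fun v => by simp only [π, PP, one])
  obtain ⟨a, ha⟩ := sc (fun v => (v.1 + 1 / 2, -v.2.1 + 1 / 2, -v.2.2)) (by fun_prop)
    (fun v => orb _ _ _ (eA v))
  obtain ⟨b, hb⟩ := sc (fun v => (-v.1, v.2.1 + 1 / 2, -v.2.2 + 1 / 2)) (by fun_prop)
    (fun v => orb _ _ _ (eB v))
  have z2' : n2 = 0 := by
    have a1 := ha (0, 0, 0)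
    have a2 := ha (0, 1, 0)
    have a3 := h2 (0, 0, 0)
    have a4 := h2 (1 / 2, -1 / 2, 0)
    norm_num at a1 a2 a3 a4
    linarith
  have z3' : n3 = 0 := by
    have a1 := ha (0, 0, 0)
    have a2 := ha (0, 0, 1)
    have a3 := h3 (0, 0, 0)
    have a4 := h3 (1 / 2, 1 / 2, -1)
    norm_num at a1 a2 a3 a4
    linarith
  have z1' : n1 = 0 := by
    have a1 := hb (0, 0, 0)
    have a2 := hb (1, 0, 0)
    have a3 := h1 (0, 0, 0)
    have a4 := h1 (-1, 1 / 2, 1 / 2)
    norm_num at a1 a2 a3 a4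
    linarith
  have za : a = 0 := by
    have a1 := ha (0, 0, 0)
    have a2 := ha (1 / 2, 1 / 2, 0)
    have a3 := h1 (0, 0, 0)
    norm_num at a1 a2 a3
    linarith
  have zb : b = 0 := by
    have a1 := hb (0, 0, 0)
    have a2 := hb (0, 1 / 2, 1 / 2)
    have a3 := h2 (0, 0, 0)
    norm_num at a1 a2 a3
    linarith
  subst z1' z2' z3' za zb
  simp only [add_zero] at h1 h2 h3 ha hb
  have per : ∀ (F : ℝ → ℝ), (∀ x, F (x + 1) = F x) → ∀ x y : ℝ, (x : CC) = y → F x = F y := by
    intro F hF x y hxy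
    rw [← sub_eq_zero, ← AddCircle.coe_sub, AddCircle.coe_eq_zero_iff] at hxy
    obtain ⟨n, hn⟩ := hxy
    have := (show Function.Periodic F 1 from hF).zsmul n y
    rw [hn] at this
    rw [← this]; congr 1; ring
  have lat : ∀ v w : ℝ × ℝ × ℝ, PP v = PP w → h v = h w := by
    rintro ⟨x, y, z⟩ ⟨x', y', z'⟩ e
    simp only [PP, Prod.mk.injEq] at e
    rw [per (fun x => h (x, y, z)) (fun x => h1 (x, y, z)) x x' e.1,
      per (fun y => h (x', y, z)) (fun y => h2 (x', y, z)) y y' e.2.1,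
      per (fun z => h (x', y', z)) (fun z => h3 (x', y', z)) z z' e.2.2]
  have inv : ∀ v w, π v = π w → h v = h w := by
    intro v w e
    obtain ⟨⟨a, b⟩, hk⟩ := Quotient.exact e
    simp only at hk
    rcases z2 a with rfl | rfl <;> rcases z2 b with rfl | rfl
    · exact lat _ _ (by rw [← hk]; exact zero_vadd K4 _)
    · rw [← hb w]; exact lat _ _ (by rw [← hk, eB])
    · rw [← ha w]; exact lat _ _ (by rw [← hk, eA])
    · rw [← hb w, ← ha]
      refine lat _ _ ?_
      rw [eA, eB, ← hk, ← add_vadd]; rfl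
  choose s hs using hπ.surjective
  refine ⟨fun y => h (s y), ?_, fun y => by rw [hh', hs]⟩
  rw [hπ.continuous_iff]
  convert h.continuous using 1
  funext v
  exact inv _ _ (hs _)

end Aux

/-- The negation of the preceding statement: If X is a locally connected metric continuum that is a union of two subcontinua with disconnected intersection, and f is a local homeomorphism of X onto a metric space Y, then Y is also such a union. -/
theorem result :
    ¬ (∀ (X Y : Type) [MetricSpace X] [CompactSpace X] [ConnectedSpace X]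
      [LocallyConnectedSpace X] [MetricSpace Y] (f : X → Y),
      IsLocalHomeomorph f → Function.Surjective f →
      (∃ A B : Set X, IsClosed A ∧ IsClosed B ∧ IsConnected A ∧ IsConnected B ∧
          A ∪ B = Set.univ ∧ ¬ IsConnected (A ∩ B)) →
      (∃ A B : Set Y, IsClosed A ∧ IsClosed B ∧ IsConnected A ∧ IsConnected B ∧
          A ∪ B = Set.univ ∧ ¬ IsConnected (A ∩ B))) := by
  intro h
  haveI : LocallyPathConnectedSpace XX := PP_oq.isQuotientMap.locallyPathConnectedSpace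
  have hq := isAddQuotientCoveringMap_quotientMk_of_properlyDiscontinuousVAdd (G := K4) (E := XX)
  haveI : SecondCountableTopology YY := ContinuousConstVAdd.secondCountableTopology
  haveI : T2Space YY := t2Space_of_properlyDiscontinuousVAdd_of_t2Space
  letI : MetricSpace YY := TopologicalSpace.metrizableSpaceMetric YY
  have cc : Continuous ((↑) : ℝ → CC) := cov.continuous
  obtain ⟨A, B, hA, hB, cA, cB, hAB, hn⟩ := h XX YY (Quotient.mk _) hq.isCoveringMap.isLocalHomeomorph
    Quotient.mk_surjective ⟨(((↑) : ℝ → CC) '' Set.Icc 0 (1 / 2)) ×ˢ Set.univ,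
      (((↑) : ℝ → CC) '' Set.Icc (1 / 2) 1) ×ˢ Set.univ,
      (isCompact_Icc.image cc).isClosed.prod isClosed_univ,
      (isCompact_Icc.image cc).isClosed.prod isClosed_univ,
      ((isConnected_Icc (by norm_num)).image _ cc.continuousOn).prod isConnected_univ,
      ((isConnected_Icc (by norm_num)).image _ cc.continuousOn).prod isConnected_univ, by
        rw [← Set.union_prod, ← Set.image_union, Set.Icc_union_Icc_eq_Icc (by norm_num) (by norm_num)]
        have := AddCircle.coe_image_Icc_eq (1 : ℝ) 0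
        rw [zero_add] at this
        rw [this, Set.univ_prod_univ], by
        intro hcon
        rw [Set.prod_inter_prod, Set.inter_self] at hcon
        have h1 := (hcon.image _ continuous_fst.continuousOn).2
        rw [Set.fst_image_prod _ Set.univ_nonempty] at h1
        refine h1.infinite_of_nontrivial ⟨0, ⟨⟨0, by constructor <;> norm_num, rfl⟩,
          ⟨1, by constructor <;> norm_num, AddCircle.coe_period 1⟩⟩, hc,
          ⟨⟨1 / 2, by constructor <;> norm_num, rfl⟩, ⟨1 / 2, by constructor <;> norm_num, rfl⟩⟩,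
          hc_ne.symm⟩ ((Set.toFinite {0, hc}).subset ?_)
        rintro _ ⟨⟨x, hx, rfl⟩, y, hy, hxy⟩
        rcases eq_or_lt_of_le hy.2 with rfl | hy1
        · left; rw [← hxy]; exact AddCircle.coe_period 1
        · right
          have := (AddCircle.coe_eq_coe_iff_of_mem_Ico (p := (1 : ℝ)) (a := 0)
            ⟨by linarith [hy.1], by linarith⟩ ⟨hx.1, by linarith [hx.2]⟩).1 hxy
          have e : x = 1 / 2 := by linarith [hx.2, hy.1]
          rw [e]; rfl⟩
  exact hn (unicoherent lifts A B hA hB cA cB hAB)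

end Pool.Agent.S13710
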