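import Pool.Statements.S13718

set_option autoImplicit false
open Pool Pool.MP_a761c9_gt

namespace Pool.Agent.S13718

open MeasureTheory Set

/-- The plane. -/
abbrev E : Type := EuclideanSpace ℝ (Fin 2)

/-- Support function. -/
noncomputable def h (K : Set E) (v : E) : ℝ := sSup ((fun y : E => @inner ℝ E _ y v) '' K)

/-- Gaussian weight. -/
noncomputable def wt (v : E) : ℝ := Real.exp (-‖v‖ ^ 2)

theorem wt_pos (v : E) : 0 < wt v := Real.exp_pos _

theorem wt_neg (v : E) : wt (-v) = wt v := by simp [wt]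

theorem wt_cont : Continuous wt := by unfold wt; fun_prop

theorem exists_h {K : Set E} (hK : IsCompact K) (hn : K.Nonempty) (v : E) :
    ∃ x ∈ K, h K v = inner ℝ x v ∧ ∀ y ∈ K, inner ℝ y v ≤ (inner ℝ x v : ℝ) :=
  hK.exists_sSup_image_eq_and_ge hn (f := fun y : E => @inner ℝ E _ y v) (by fun_prop)

theorem le_h {K : Set E} (hK : IsCompact K) (v : E) {y : E} (hy : y ∈ K) :
    inner ℝ y v ≤ h K v := by
  obtain ⟨x, -, hx, hle⟩ := exists_h hK ⟨y, hy⟩ v
  rw [hx]; exact hle y hy

theorem h_mono {K L : Set E} (hK : IsCompact K) (hn : K.Nonempty) (hL : IsCompact L)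
    (hKL : K ⊆ L) (v : E) : h K v ≤ h L v := by
  obtain ⟨x, hxK, hx, -⟩ := exists_h hK hn v
  rw [hx]; exact le_h hL v (hKL hxK)

theorem h_cont {K : Set E} (hK : IsCompact K) : Continuous (h K) := by
  have := hK.continuous_sSup (f := fun (v : E) (y : E) => @inner ℝ E _ y v)
    (by show Continuous (fun p : E × E => @inner ℝ E _ p.2 p.1); fun_prop)
  exact this

theorem h_bound {K : Set E} (hK : IsCompact K) (hn : K.Nonempty) :
    ∃ R : ℝ, 0 ≤ R ∧ ∀ v, |h K v| ≤ R * ‖v‖ := by
  obtain ⟨R, hR⟩ := hK.isBounded.exists_norm_le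
  obtain ⟨y, hy⟩ := hn
  refine ⟨R, (norm_nonneg y).trans (hR y hy), fun v => ?_⟩
  obtain ⟨x, hxK, hx, -⟩ := exists_h hK ⟨y, hy⟩ v
  rw [hx]
  exact (abs_real_inner_le_norm x v).trans (mul_le_mul_of_nonneg_right (hR x hxK) (norm_nonneg _))

theorem int_gauss : Integrable (fun v : E => Real.exp (-(1 / 2) * ‖v‖ ^ 2)) := by
  have := (GaussianFourier.integrable_cexp_neg_mul_sq_norm_add (V := E) (b := (1 / 2 : ℂ))
    (by norm_num) 0 0).norm
  refine this.congr (Filter.Eventually.of_forall fun v => ?_)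
  simp only [zero_mul, add_zero, Complex.norm_exp]
  congr 1
  have : (-(1 / 2 : ℂ) * (‖v‖ : ℂ) ^ 2) = ((-(1 / 2) * ‖v‖ ^ 2 : ℝ) : ℂ) := by push_cast; ring
  rw [this, Complex.ofReal_re]

theorem int_of_bound {f : E → ℝ} (hf : Continuous f) {R : ℝ} (hR : 0 ≤ R)
    (hb : ∀ v, |f v| ≤ R * ‖v‖) : Integrable (fun v => f v * wt v) := by
  refine Integrable.mono' (int_gauss.const_mul R) (hf.mul wt_cont).aestronglyMeasurable
    (Filter.Eventually.of_forall fun v => ?_)
  rw [Real.norm_eq_abs, abs_mul, abs_of_pos (wt_pos v)]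
  have h1 : ‖v‖ ≤ Real.exp ((1 / 2) * ‖v‖ ^ 2) := by
    have := Real.add_one_le_exp ((1 / 2) * ‖v‖ ^ 2)
    nlinarith [sq_nonneg (‖v‖ - 1)]
  have h2 : Real.exp (-(1 / 2) * ‖v‖ ^ 2) = Real.exp ((1 / 2) * ‖v‖ ^ 2) * wt v := by
    unfold wt; rw [← Real.exp_add]; congr 1; ring
  rw [h2, ← mul_assoc]
  refine mul_le_mul_of_nonneg_right ((hb v).trans ?_) (wt_pos v).le
  exact mul_le_mul_of_nonneg_left h1 hR

/-- Half width in direction v. -/
noncomputable def e (K : Set E) (v : E) : ℝ := (h K v + h K (-v)) / 2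

/-- Distance of the origin from the projection of K on the line of v. -/
noncomputable def dd (K : Set E) (v : E) : ℝ := max 0 (max (-h K v) (-h K (-v)))

theorem e_nonneg {K : Set E} (hK : IsCompact K) (hn : K.Nonempty) (v : E) : 0 ≤ e K v := by
  obtain ⟨y, hy⟩ := hn
  have h1 := le_h hK v hy
  have h2 := le_h hK (-v) hy
  rw [inner_neg_right] at h2
  unfold e; linarith

theorem dd_nonneg (K : Set E) (v : E) : 0 ≤ dd K v := le_max_left _ _

theorem e_cont {K : Set E} (hK : IsCompact K) : Continuous (e K) := by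
  have := h_cont hK
  unfold e; fun_prop

theorem dd_cont {K : Set E} (hK : IsCompact K) : Continuous (dd K) := by
  have := h_cont hK
  unfold dd; fun_prop

theorem int_h {K : Set E} (hK : IsCompact K) (hn : K.Nonempty) :
    Integrable (fun v => h K v * wt v) := by
  obtain ⟨R, hR, hb⟩ := h_bound hK hn
  exact int_of_bound (h_cont hK) hR hb

theorem e_bound {K : Set E} {R : ℝ} (hb : ∀ v, |h K v| ≤ R * ‖v‖) (v : E) :
    |e K v| ≤ R * ‖v‖ := by
  have h1 := abs_le.1 (hb v)
  have h2 := abs_le.1 (hb (-v))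
  rw [norm_neg] at h2
  unfold e; rw [abs_le]; constructor <;> linarith [h1.1, h1.2, h2.1, h2.2]

theorem dd_bound {K : Set E} {R : ℝ} (hR : 0 ≤ R) (hb : ∀ v, |h K v| ≤ R * ‖v‖) (v : E) :
    |dd K v| ≤ R * ‖v‖ := by
  have h1 := abs_le.1 (hb v)
  have h2 := abs_le.1 (hb (-v))
  rw [norm_neg] at h2
  rw [abs_of_nonneg (dd_nonneg K v)]
  unfold dd
  refine max_le (mul_nonneg hR (norm_nonneg _)) (max_le ?_ ?_) <;> linarith [h1.1, h2.1]

theorem int_e {K : Set E} (hK : IsCompact K) (hn : K.Nonempty) :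
    Integrable (fun v => e K v * wt v) := by
  obtain ⟨R, hR, hb⟩ := h_bound hK hn
  exact int_of_bound (e_cont hK) hR (e_bound hb)

theorem int_dd {K : Set E} (hK : IsCompact K) (hn : K.Nonempty) :
    Integrable (fun v => dd K v * wt v) := by
  obtain ⟨R, hR, hb⟩ := h_bound hK hn
  exact int_of_bound (dd_cont hK) hR (dd_bound hR hb)

/-- Mean width up to a constant. -/
noncomputable def W (K : Set E) : ℝ := ∫ v, e K v * wt v

/-- Mean distance of the projections from the origin. -/
noncomputable def Δ (K : Set E) : ℝ := ∫ v, dd K v * wt v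

theorem W_eq {K : Set E} (hK : IsCompact K) (hn : K.Nonempty) :
    W K = ∫ v, h K v * wt v := by
  have i1 := int_h hK hn
  have i2 : Integrable (fun v => h K (-v) * wt v) := by
    have := i1.comp_neg
    simpa [wt_neg] using this
  have e2 : ∫ v, h K (-v) * wt v = ∫ v, h K v * wt v := by
    have := integral_neg_eq_self (fun v : E => h K v * wt v) volume
    simpa [wt_neg] using this
  have : (fun v => e K v * wt v) = fun v => (1 / 2) * (h K v * wt v + h K (-v) * wt v) := by
    funext v; unfold e; ring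
  unfold W
  rw [this, integral_const_mul, integral_add i1 i2, e2]; ring

theorem W_nonneg {K : Set E} (hK : IsCompact K) (hn : K.Nonempty) : 0 ≤ W K :=
  integral_nonneg fun v => mul_nonneg (e_nonneg hK hn v) (wt_pos v).le

theorem Δ_nonneg (K : Set E) : 0 ≤ Δ K :=
  integral_nonneg fun v => mul_nonneg (dd_nonneg K v) (wt_pos v).le

theorem W_mono {K L : Set E} (hK : IsCompact K) (hn : K.Nonempty) (hL : IsCompact L)
    (hKL : K ⊆ L) : W K ≤ W L := by
  refine integral_mono (int_e hK hn) (int_e hL (hn.mono hKL)) fun v => ?_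
  have h1 := h_mono hK hn hL hKL v
  have h2 := h_mono hK hn hL hKL (-v)
  refine mul_le_mul_of_nonneg_right ?_ (wt_pos v).le
  unfold e; linarith

theorem Δ_anti {K L : Set E} (hK : IsCompact K) (hn : K.Nonempty) (hL : IsCompact L)
    (hKL : K ⊆ L) : Δ L ≤ Δ K := by
  refine integral_mono (int_dd hL (hn.mono hKL)) (int_dd hK hn) fun v => ?_
  have h1 := h_mono hK hn hL hKL v
  have h2 := h_mono hK hn hL hKL (-v)
  refine mul_le_mul_of_nonneg_right ?_ (wt_pos v).le
  unfold dd
  exact max_le_max le_rfl (max_le_max (by linarith) (by linarith))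

noncomputable def lam (K : Set E) : ℝ := Δ K / (2 * (W K + Δ K + 1))
noncomputable def bet (K : Set E) : ℝ := W K / (2 * (W K + Δ K + 1))

/-- The support function of the symmetral. -/
noncomputable def g (K : Set E) (v : E) : ℝ := (1 - lam K) * e K v + bet K * dd K v

/-- The symmetral. -/
def D (K : Set E) : Set E := {y | ∀ u, inner ℝ y u ≤ g K u}

theorem par {K : Set E} (hK : IsCompact K) (hn : K.Nonempty) :
    0 ≤ lam K ∧ 0 ≤ bet K ∧ lam K ≤ 1 / 2 ∧ bet K ≤ (1 - lam K) / 2 ∧
      lam K * W K = bet K * Δ K := by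
  have h1 := W_nonneg hK hn
  have h2 := Δ_nonneg K
  have h3 : 0 < 2 * (W K + Δ K + 1) := by positivity
  unfold lam bet
  refine ⟨by positivity, by positivity, ?_, ?_, by ring⟩
  · rw [div_le_iff₀ h3]; linarith
  · rw [div_le_iff₀ h3]
    have : (1 - Δ K / (2 * (W K + Δ K + 1))) / 2 * (2 * (W K + Δ K + 1))
        = W K + Δ K + 1 - Δ K / 2 := by field_simp
    rw [this]; linarith

theorem g_neg (K : Set E) (v : E) : g K (-v) = g K v := by
  unfold g e dd
  rw [neg_neg, add_comm (h K (-v)), max_comm (-h K (-v))]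

theorem g_mono {K L : Set E} (hK : IsCompact K) (hn : K.Nonempty) (hL : IsCompact L)
    (hKL : K ⊆ L) (v : E) : g K v ≤ g L v := by
  have hnL := hn.mono hKL
  have w1 := W_mono hK hn hL hKL
  have d1 := Δ_anti hK hn hL hKL
  have a1 := W_nonneg hK hn
  have a2 := Δ_nonneg L
  have hl : lam L ≤ lam K := by
    unfold lam
    rw [div_le_div_iff₀ (by linarith) (by linarith)]
    nlinarith [mul_le_mul d1 w1 a1 (a2.trans d1)]
  have hb : bet K ≤ bet L := by
    unfold bet
    rw [div_le_div_iff₀ (by linarith) (by linarith)]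
    nlinarith [mul_le_mul d1 w1 a1 (a2.trans d1)]
  obtain ⟨p1, p2, p3, p4, -⟩ := par hL hnL
  have h1 := h_mono hK hn hL hKL v
  have h2 := h_mono hK hn hL hKL (-v)
  have s1 : g K v ≤ (1 - lam L) * e K v + bet L * dd K v := by
    unfold g
    nlinarith [mul_le_mul_of_nonneg_right hl (e_nonneg hK hn v),
      mul_le_mul_of_nonneg_right hb (dd_nonneg K v)]
  refine s1.trans ?_
  unfold g
  have m0 : 0 ≤ dd L v := dd_nonneg L v
  have m1 : -h L v ≤ dd L v := (le_max_left _ _).trans (le_max_right _ _)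
  have m2 : -h L (-v) ≤ dd L v := (le_max_right _ _).trans (le_max_right _ _)
  have key : dd K v - dd L v ≤ (h L v - h K v) + (h L (-v) - h K (-v)) := by
    have : dd K v ≤ dd L v + ((h L v - h K v) + (h L (-v) - h K (-v))) := by
      unfold dd at *
      refine max_le (by linarith) (max_le (by linarith) (by linarith))
    linarith
  have k2 : bet L * (dd K v - dd L v) ≤ bet L * ((h L v - h K v) + (h L (-v) - h K (-v))) :=
    mul_le_mul_of_nonneg_left key p2
  have k3 : bet L * ((h L v - h K v) + (h L (-v) - h K (-v))) ≤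
      (1 - lam L) / 2 * ((h L v - h K v) + (h L (-v) - h K (-v))) :=
    mul_le_mul_of_nonneg_right p4 (by linarith)
  unfold e
  nlinarith

theorem mem_D {K : Set E} (hK : IsCompact K) (hn : K.Nonempty) {a b : E} (ha : a ∈ K)
    (hb : b ∈ K) {s t : ℝ}
    (hst : (s = (1 - lam K) / 2 ∧ t = (1 - lam K) / 2) ∨
      (s = (1 - lam K) / 2 - bet K ∧ t = (1 - lam K) / 2) ∨
      (s = (1 - lam K) / 2 ∧ t = (1 - lam K) / 2 - bet K)) : s • a - t • b ∈ D K := by
  intro u
  obtain ⟨p1, p2, p3, p4, -⟩ := par hK hn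
  have h1 := le_h hK u ha
  have h2 := le_h hK (-u) hb
  rw [inner_neg_right] at h2
  rw [inner_sub_left, real_inner_smul_left, real_inner_smul_left]
  have m0 : 0 ≤ dd K u := dd_nonneg K u
  have m1 : -h K u ≤ dd K u := (le_max_left _ _).trans (le_max_right _ _)
  have m2 : -h K (-u) ≤ dd K u := (le_max_right _ _).trans (le_max_right _ _)
  have hs : 0 ≤ s := by rcases hst with ⟨rfl, -⟩ | ⟨rfl, -⟩ | ⟨rfl, -⟩ <;> linarith
  have ht : 0 ≤ t := by rcases hst with ⟨-, rfl⟩ | ⟨-, rfl⟩ | ⟨-, rfl⟩ <;> linarith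
  have k1 := mul_le_mul_of_nonneg_left h1 hs
  have k2 := mul_le_mul_of_nonneg_left h2 ht
  have n0 := mul_le_mul_of_nonneg_left m0 p2
  have n1 := mul_le_mul_of_nonneg_left m1 p2
  have n2 := mul_le_mul_of_nonneg_left m2 p2
  unfold g e
  rcases hst with ⟨rfl, rfl⟩ | ⟨rfl, rfl⟩ | ⟨rfl, rfl⟩ <;> nlinarith

theorem exists_D {K : Set E} (hK : IsCompact K) (hn : K.Nonempty) (u : E) :
    ∃ y ∈ D K, inner ℝ y u = g K u := by
  obtain ⟨a, ha, hau, -⟩ := exists_h hK hn u
  obtain ⟨b, hb, hbu, -⟩ := exists_h hK hn (-u)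
  rw [inner_neg_right] at hbu
  have hd : dd K u = 0 ∨ dd K u = -h K u ∨ dd K u = -h K (-u) := by
    unfold dd
    rcases max_choice 0 (max (-h K u) (-h K (-u))) with h0 | h0
    · exact Or.inl h0
    · rw [h0]; exact Or.inr (max_choice _ _)
  rcases hd with hd | hd | hd
  · refine ⟨_, mem_D hK hn ha hb (Or.inl ⟨rfl, rfl⟩), ?_⟩
    rw [inner_sub_left, real_inner_smul_left, real_inner_smul_left]
    unfold g e; rw [hd, hau, hbu]; ring
  · refine ⟨_, mem_D hK hn ha hb (Or.inr (Or.inl ⟨rfl, rfl⟩)), ?_⟩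
    rw [inner_sub_left, real_inner_smul_left, real_inner_smul_left]
    unfold g e; rw [hd, hau, hbu]; ring
  · refine ⟨_, mem_D hK hn ha hb (Or.inr (Or.inr ⟨rfl, rfl⟩)), ?_⟩
    rw [inner_sub_left, real_inner_smul_left, real_inner_smul_left]
    unfold g e; rw [hd, hau, hbu]; ring

theorem h_D {K : Set E} (hK : IsCompact K) (hn : K.Nonempty) (u : E) : h (D K) u = g K u := by
  obtain ⟨y, hy, hyu⟩ := exists_D hK hn u
  refine IsGreatest.csSup_eq ⟨⟨y, hy, hyu⟩, ?_⟩
  rintro _ ⟨z, hz, rfl⟩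
  exact hz u

theorem D_closed (K : Set E) : IsClosed (D K) := by
  have : D K = ⋂ u, {y : E | inner ℝ y u ≤ g K u} := by ext y; simp [D]
  rw [this]
  exact isClosed_iInter fun u => isClosed_le (by fun_prop) continuous_const

theorem D_convex (K : Set E) : Convex ℝ (D K) := by
  intro x hx y hy a b ha hb hab u
  rw [inner_add_left, real_inner_smul_left, real_inner_smul_left]
  have h1 := mul_le_mul_of_nonneg_left (hx u) ha
  have h2 := mul_le_mul_of_nonneg_left (hy u) hb
  have : a * g K u + b * g K u = g K u := by rw [← add_mul, hab, one_mul]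
  linarith

theorem D_compact {K : Set E} (hK : IsCompact K) (hn : K.Nonempty) : IsCompact (D K) := by
  obtain ⟨R, hR, hb⟩ := h_bound hK hn
  obtain ⟨p1, p2, p3, p4, -⟩ := par hK hn
  refine Metric.isCompact_of_isClosed_isBounded (D_closed K) ?_
  rw [isBounded_iff_forall_norm_le]
  refine ⟨2 * R, fun y hy => ?_⟩
  have h1 := hy y
  rw [real_inner_self_eq_norm_sq] at h1
  have h2 := (abs_le.1 (e_bound hb y)).2
  have h3 := (abs_le.1 (dd_bound hR hb y)).2
  have h4 : g K y ≤ 2 * R * ‖y‖ := by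
    unfold g
    have := e_nonneg hK hn y
    have := dd_nonneg K y
    nlinarith
  by_contra hc
  push Not at hc
  have : 0 < ‖y‖ := by linarith
  nlinarith

theorem D_neg (K : Set E) {y : E} (hy : y ∈ D K) : -y ∈ D K := by
  intro u
  have := hy (-u)
  rw [inner_neg_right, g_neg] at this
  rwa [inner_neg_left]

theorem D_interior {K : Set E} (hK : IsCompact K) (hi : (interior K).Nonempty) :
    (interior (D K)).Nonempty := by
  obtain ⟨a, ha⟩ := hi
  have haK := interior_subset ha
  have hn : K.Nonempty := ⟨a, haK⟩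
  obtain ⟨p1, p2, p3, p4, -⟩ := par hK hn
  rw [mem_interior_iff_mem_nhds, Metric.mem_nhds_iff] at ha
  obtain ⟨r, hr, hball⟩ := ha
  have hc : 0 < (1 - lam K) / 2 := by linarith
  refine ⟨0, ?_⟩
  rw [mem_interior_iff_mem_nhds, Metric.mem_nhds_iff]
  refine ⟨(1 - lam K) / 2 * r, by positivity, fun y hy => ?_⟩
  have hmem : a + ((1 - lam K) / 2)⁻¹ • y ∈ K := by
    apply hball
    rw [mem_ball_iff_norm, add_sub_cancel_left, norm_smul, Real.norm_eq_abs,
      abs_of_pos (inv_pos.2 hc), inv_mul_lt_iff₀ hc]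
    simpa using hy
  have := mem_D hK hn hmem haK (Or.inl ⟨rfl, rfl⟩)
  rwa [smul_add, add_sub_cancel_left, smul_smul, mul_inv_cancel₀ hc.ne', one_smul] at this

theorem int_D {K : Set E} (hK : IsCompact K) (hn : K.Nonempty) :
    ∫ v, h (D K) v * wt v = ∫ v, h K v * wt v := by
  obtain ⟨-, -, -, -, p5⟩ := par hK hn
  have : (fun v => h (D K) v * wt v) =
      fun v => (1 - lam K) * (e K v * wt v) + bet K * (dd K v * wt v) := by
    funext v; rw [h_D hK hn]; unfold g; ring
  rw [this, integral_add ((int_e hK hn).const_mul _) ((int_dd hK hn).const_mul _),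
    integral_const_mul, integral_const_mul, ← W_eq hK hn]
  show (1 - lam K) * W K + bet K * Δ K = W K
  linarith

theorem D_symm {K : Set E} (hK : IsCompact K) (hc : Convex ℝ K) (hn : K.Nonempty)
    (hs : ∀ x ∈ K, -x ∈ K) : D K = K := by
  have h0 : (0 : E) ∈ K := by
    obtain ⟨x, hx⟩ := hn
    have := hc hx (hs x hx) (a := 1 / 2) (b := 1 / 2) (by norm_num) (by norm_num) (by norm_num)
    simpa using this
  have hh : ∀ v, 0 ≤ h K v := fun v => by simpa using le_h hK v h0
  have hneg : ∀ v, h K (-v) ≤ h K v := fun v => by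
    obtain ⟨x, hx, hxv, -⟩ := exists_h hK hn (-v)
    have := le_h hK v (hs x hx)
    rw [inner_neg_left] at this
    rw [hxv, inner_neg_right]; exact this
  have he : ∀ v, e K v = h K v := fun v => by
    have h1 := hneg v
    have h2 := hneg (-v)
    rw [neg_neg] at h2
    unfold e; linarith
  have hd : ∀ v, dd K v = 0 := fun v => by
    unfold dd
    exact max_eq_left (max_le (by linarith [hh v]) (by linarith [hh (-v)]))
  have hΔ : Δ K = 0 := by unfold Δ; simp [hd]
  have hg : ∀ v, g K v = h K v := fun v => by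
    unfold g lam; rw [hΔ, hd, he]; simp
  ext y
  constructor
  · intro hy
    by_contra hyK
    obtain ⟨f, c, hf, hfy⟩ := geometric_hahn_banach_closed_point hc hK.isClosed hyK
    set u := (InnerProductSpace.toDual ℝ E).symm f with hu
    have hfu : ∀ z, inner ℝ z u = f z := fun z => by
      rw [real_inner_comm, hu, InnerProductSpace.toDual_symm_apply]
    have h1 := hy u
    obtain ⟨x, hx, hxu, -⟩ := exists_h hK hn u
    rw [hg, hxu, hfu, hfu] at h1
    linarith [hf x hx]
  · intro hy u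
    rw [hg]; exact le_h hK u hy

theorem fails :
    D ((fun y : E => y + EuclideanSpace.single 0 2) '' Metric.closedBall 0 1) ≠
      Metric.closedBall 0 1 := by
  intro hD
  set K : Set E := (fun y : E => y + EuclideanSpace.single 0 2) '' Metric.closedBall 0 1 with hKdef
  have hK : IsCompact K := (isCompact_closedBall 0 1).image (by fun_prop)
  have hn : K.Nonempty := (Metric.nonempty_closedBall.2 zero_le_one).image _
  have hup : ∀ v : E, h K v ≤ ‖v‖ + 2 * v 0 := fun v => by
    obtain ⟨_, ⟨x, hx, rfl⟩, hxv, -⟩ := exists_h hK hn v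
    rw [hxv, inner_add_left, EuclideanSpace.inner_single_left]
    have h1 : ‖x‖ ≤ 1 := by simpa using hx
    have h2 := real_inner_le_norm x v
    have h3 := mul_le_mul_of_nonneg_right h1 (norm_nonneg v)
    simp only [conj_trivial]
    linarith
  have hΔ : 0 < Δ K := by
    refine integral_pos_of_integrable_nonneg_nonzero (x := EuclideanSpace.single 0 1)
      ((dd_cont hK).mul wt_cont) (int_dd hK hn)
      (fun v => mul_nonneg (dd_nonneg K v) (wt_pos v).le) ?_
    refine (mul_pos ?_ (wt_pos _)).ne'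
    have h1 := hup (-EuclideanSpace.single 0 1)
    have m2 : -h K (-EuclideanSpace.single 0 1) ≤ dd K (EuclideanSpace.single 0 1) :=
      (le_max_right _ _).trans (le_max_right _ _)
    simp at h1
    linarith
  have hlam : 0 < lam K := by
    have := W_nonneg hK hn
    unfold lam; positivity
  obtain ⟨p1, p2, p3, p4, -⟩ := par hK hn
  set u : E := EuclideanSpace.single 1 1 with hu
  have hu1 : ‖u‖ = 1 := by simp [hu]
  have hu0 : u 0 = 0 := by simp [hu]
  have hmem : u ∈ D K := by rw [hD]; simp [hu1]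
  have h1 := hmem u
  rw [real_inner_self_eq_norm_sq, hu1] at h1
  have hc : EuclideanSpace.single 0 2 ∈ K := ⟨0, by simp, by simp⟩
  have a1 := le_h hK u hc
  have a2 := le_h hK (-u) hc
  rw [EuclideanSpace.inner_single_left] at a1 a2
  simp only [conj_trivial, PiLp.neg_apply, hu0, neg_zero, mul_zero] at a1 a2
  have hd : dd K u = 0 := by
    unfold dd
    exact max_eq_left (max_le (by linarith) (by linarith))
  have b1 := hup u
  have b2 := hup (-u)
  simp only [norm_neg, PiLp.neg_apply, hu0, hu1, neg_zero, mul_zero, add_zero] at b1 b2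
  have he : e K u ≤ 1 := by unfold e; linarith
  unfold g at h1
  rw [hd] at h1
  nlinarith

/-- The negation of the preceding statement: Let D map convex bodies (or compact convex sets) in R^n to H-symmetric ones. Suppose D is monotone, preserves mean width and fixes H-symmetric sets. Then D sends every translate K+x of an H-symmetric K, with x orthogonal to H, back to K. -/
theorem result :
    ¬ (∀ (n i : ℕ), i < n →
  ∀ (H : Submodule ℝ (EuclideanSpace ℝ (Fin n))), Module.finrank ℝ H = i →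
  ∀ (b : Bool) (D : Set (EuclideanSpace ℝ (Fin n)) → Set (EuclideanSpace ℝ (Fin n))),
  (∀ K : Set (EuclideanSpace ℝ (Fin n)),
      (IsCompact K ∧ Convex ℝ K ∧ K.Nonempty ∧ (b = true → (interior K).Nonempty)) →
      ((IsCompact (D K) ∧ Convex ℝ (D K) ∧ (D K).Nonempty ∧
          (b = true → (interior (D K)).Nonempty)) ∧
        (∀ x ∈ D K, ∀ y ∈ H, ∀ z ∈ Hᗮ, x = y + z → y - z ∈ D K))) →
  (∀ K L : Set (EuclideanSpace ℝ (Fin n)),
      (IsCompact K ∧ Convex ℝ K ∧ K.Nonempty ∧ (b = true → (interior K).Nonempty)) →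
      (IsCompact L ∧ Convex ℝ L ∧ L.Nonempty ∧ (b = true → (interior L).Nonempty)) →
      K ⊆ L → D K ⊆ D L) →
  (∀ K : Set (EuclideanSpace ℝ (Fin n)),
      (IsCompact K ∧ Convex ℝ K ∧ K.Nonempty ∧ (b = true → (interior K).Nonempty)) →
      (∫ v : EuclideanSpace ℝ (Fin n),
          sSup ((fun y : EuclideanSpace ℝ (Fin n) =>
              @inner ℝ (EuclideanSpace ℝ (Fin n)) _ y v) '' D K) * Real.exp (-‖v‖ ^ 2)) =
        ∫ v : EuclideanSpace ℝ (Fin n),
          sSup ((fun y : EuclideanSpace ℝ (Fin n) =>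
              @inner ℝ (EuclideanSpace ℝ (Fin n)) _ y v) '' K) * Real.exp (-‖v‖ ^ 2)) →
  (∀ K : Set (EuclideanSpace ℝ (Fin n)),
      (IsCompact K ∧ Convex ℝ K ∧ K.Nonempty ∧ (b = true → (interior K).Nonempty)) →
      (∀ x ∈ K, ∀ y ∈ H, ∀ z ∈ Hᗮ, x = y + z → y - z ∈ K) →
      D K = K) →
  ∀ K : Set (EuclideanSpace ℝ (Fin n)),
    (IsCompact K ∧ Convex ℝ K ∧ K.Nonempty ∧ (b = true → (interior K).Nonempty)) →
    (∀ x ∈ K, ∀ y ∈ H, ∀ z ∈ Hᗮ, x = y + z → y - z ∈ K) →
    ∀ x ∈ Hᗮ, D ((fun y : EuclideanSpace ℝ (Fin n) => y + x) '' K) = K) := by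
  intro H
  have key := H 2 0 (by norm_num) ⊥ (by simp) true D ?_ ?_ ?_ ?_ (Metric.closedBall 0 1) ?_ ?_
    (EuclideanSpace.single 0 2) (by simp)
  · exact fails key
  · rintro K ⟨hK, -, hn, hi⟩
    refine ⟨⟨D_compact hK hn, D_convex K, ?_, fun _ => D_interior hK (hi rfl)⟩, ?_⟩
    · obtain ⟨y, hy, -⟩ := exists_D hK hn 0
      exact ⟨y, hy⟩
    · intro x hx y hy z _ hxyz
      rw [Submodule.mem_bot] at hy
      subst hy
      rw [zero_add] at hxyz
      subst hxyz
      rw [zero_sub]; exact D_neg K hx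
  · rintro K L ⟨hK, -, hn, -⟩ ⟨hL, -, -, -⟩ hKL y hy u
    exact (hy u).trans (g_mono hK hn hL hKL u)
  · rintro K ⟨hK, -, hn, -⟩
    exact int_D hK hn
  · rintro K ⟨hK, hc, hn, -⟩ hs
    refine D_symm hK hc hn fun x hx => ?_
    have := hs x hx 0 (Submodule.zero_mem _) x (by simp) (by simp)
    rwa [zero_sub] at this
  · refine ⟨isCompact_closedBall 0 1, convex_closedBall 0 1,
      Metric.nonempty_closedBall.2 zero_le_one, fun _ => ⟨0, ?_⟩⟩
    rw [mem_interior_iff_mem_nhds]
    exact Metric.closedBall_mem_nhds 0 one_pos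
  · intro x hx y hy z _ hxyz
    rw [Submodule.mem_bot] at hy
    subst hy
    rw [zero_add] at hxyz
    subst hxyz
    simpa using hx

end Pool.Agent.S13718
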