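import Pool.Statements.S13724
import Pool.Agent.H23.VD2

set_option autoImplicit false
set_option maxSynthPendingDepth 3
open Pool Pool.MP_a8721e_gt

namespace Pool.Agent.S13724

open Set Filter Topology Pool.Agent.H23.VD

lemma homeo {K : Set ℝ} {F : (ℝ → Bool) → ℝ → Bool} (h1 : ContinuousOn F (I K 0 1))
    (h2 : BijOn F (I K 0 1) (I K 0 1)) : ∃ e : I K 0 1 ≃ₜ I K 0 1, ∀ D, (e D).1 = F D.1 := by
  have : CompactSpace (I K 0 1) := isCompact_iff_compactSpace.1 (I_closed 0 1).isCompact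
  exact ⟨Continuous.homeoOfEquivCompactToT2 (f := h2.equiv F) (h1.mapsToRestrict h2.mapsTo),
    fun _ => rfl⟩

lemma swap {K : Set ℝ} (h : H23.VD.Inv K) {t : ℚ} (h0 : (0 : ℝ) < t) (h1 : (t : ℝ) < 1 / 2) :
    ∃ e : I K 0 1 ≃ₜ I K 0 1, ∀ D : I K 0 1, D.1 t = false ∨ D.1 (1 - t) = true →
      (e D).1 ∈ I K 0 (t + t) := by
  have k1 := h.rat t
  have k2 := h.sub h.one t
  have k3 := h.add _ k1 t
  obtain ⟨f, f1, f2⟩ := (E.refl (I K 0 t)).union (tr h (a := 1 - t) (b := 1) (a' := t)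
    (b' := t + t) (t + t - 1) (by push_cast; ring) (by push_cast; ring)) (I_closed _ _)
    (I_closed _ _) (I_disj k1 (by linarith)) (I_disj k1 le_rfl)
  obtain ⟨g, g1, g2⟩ := tr h (a := t) (b := 1 - t) (a' := t + t) (b' := 1) t rfl (by ring)
  rw [← I_split h.zero k1 h0.le (by linarith)] at f2
  have e1 := I_diff h.zero k1 k2 h0.le (by linarith) (show 1 - (t : ℝ) ≤ 1 by linarith)
  obtain ⟨F, F1, F2, F3⟩ := un f1 f2 g1 g2 ((I_closed _ _).union (I_closed _ _)) (I_closed _ _)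
    (e1 ▸ disjoint_sdiff_left) (I_disj k3 le_rfl)
  rw [← e1, sdiff_union_of_subset (I_mono h.zero k2 h0.le (by linarith))] at F1 F2
  rw [← I_split h.zero k3 (by linarith) (by linarith)] at F2
  obtain ⟨e, he⟩ := homeo F1 F2
  refine ⟨e, fun D hD => ?_⟩
  have h2 : D.1 ∈ I K 0 t ∪ I K (1 - t) 1 :=
    hD.imp (fun h3 => ⟨D.2.1, D.2.2.1, D.2.2.2.1, h3⟩) (fun h3 => ⟨D.2.1, D.2.2.1, h3, D.2.2.2.2⟩)
  rw [he, F3 h2]
  exact f2.mapsTo h2

/-- The negation of the preceding statement: For every compact Hausdorff zero-dimensional homogeneous space X, for each pointwise neighborhood U of the identity there are finitely many continuous self-maps g such that every continuous self-map equals some g composed with a continuous map from U. -/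
theorem result :
    ¬ (∀ (X : Type) [TopologicalSpace X], T2Space X → CompactSpace X →
      TopologicalSpace.IsTopologicalBasis {s : Set X | IsClopen s} →
      (∀ x y : X, ∃ h : X ≃ₜ X, h x = y) →
      ∀ U : Set (X → X), U ∈ nhds (id : X → X) →
        ∃ F : Set (X → X), F.Finite ∧ (∀ g ∈ F, Continuous g) ∧
          ∀ f : X → X, Continuous f →
            ∃ g ∈ F, ∃ u ∈ U, Continuous u ∧ f = g ∘ u) := by
  intro H
  obtain ⟨K, h, hK⟩ := exists_K
  have : CompactSpace (I K 0 1) := isCompact_iff_compactSpace.1 (I_closed 0 1).isCompact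
  let o' : I K 0 1 := ⟨o K, o_mem h one_pos⟩
  have hom' : ∀ D : I K 0 1, ∃ e : I K 0 1 ≃ₜ I K 0 1, e D = o' := fun D => by
    obtain ⟨F, h1, h2, h3⟩ := hom h D.2
    obtain ⟨e, he⟩ := homeo h1 h2
    exact ⟨e, Subtype.ext ((he D).trans h3)⟩
  have hsm : ∀ V : Set (I K 0 1), V ∈ 𝓝 o' → ∃ t : ℚ, (0 : ℝ) < t ∧ (t : ℝ) < 1 / 2 ∧
      ∀ D : I K 0 1, D.1 (t + t) = false → D ∈ V := by
    intro V hV
    obtain ⟨v, v1, v2, v3⟩ := Real.exists_seq_rat_strictAnti_tendsto 0
    obtain ⟨n, hn⟩ := exists_subset_nhds_of_compactSpace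
      (V := fun n => Subtype.val ⁻¹' I K 0 (v n)) (U := V)
      (Antitone.directed_ge fun n m hnm => preimage_mono
        (I_mono h.zero (h.rat _) le_rfl (Rat.cast_le.2 (v1.antitone hnm))))
      (fun n => (I_closed _ _).preimage continuous_subtype_val) (fun D hD => by
        rw [show D = o' from Subtype.ext ((uniq (fun n => h.rat _) tendsto_const_nhds v3
          (fun _ => ⟨0, Or.inl rfl⟩) (fun n => o_mem h (v2 n)) D.1).1 fun n => mem_iInter.1 hD n)]
        exact hV)
    obtain ⟨t, t1, t2⟩ := exists_rat_btwn (lt_min (half_pos (v2 n)) one_half_pos)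
    refine ⟨t, t1, t2.trans_le (min_le_right _ _), fun D hD => hn (I_mono h.zero
      (h.add _ (h.rat t) t) le_rfl (by linarith [t2.trans_le (min_le_left _ _)])
      ⟨D.2.1, D.2.2.1, D.2.2.2.1, hD⟩)⟩
  have onto : ∀ s : I K 0 1 → I K 0 1, Continuous s → Function.Injective s →
      Function.Surjective s := by
    intro s hs hi D
    obtain ⟨e, he⟩ := hom' D
    by_contra hc
    obtain ⟨t, t1, -, t3⟩ := hsm (range (e ∘ s))ᶜ ((isCompact_range
      (e.continuous.comp hs)).isClosed.isOpen_compl.mem_nhds fun ⟨D', hD'⟩ =>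
        hc ⟨D', e.injective (hD'.trans he.symm)⟩)
    obtain ⟨D', hD'⟩ := rigid h hK (e ∘ s) (e.continuous.comp hs) (e.injective.comp hi)
      (add_pos t1 t1)
    exact t3 _ (pr_lt h ((e ∘ s) D').2 hD') ⟨D', rfl⟩
  have hU : ∀ b : Bool, IsClopen {D : I K 0 1 | D.1 (1 / 2) = b} := fun b =>
    (isClopen_discrete {b}).preimage ((continuous_apply (1 / 2 : ℝ)).comp continuous_subtype_val)
  have hh : (1 / 2 : ℝ) ∈ K := by simpa using h.rat (1 / 2)
  obtain ⟨F, hF, hFc, hF'⟩ := H (I K 0 1) inferInstance inferInstance isTopologicalBasis_isClopen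
    (fun x y => by
      obtain ⟨e, he⟩ := hom' x
      obtain ⟨e', he'⟩ := hom' y
      exact ⟨e.trans e'.symm, by simp [he, ← he']⟩)
    {u | (u o').1 (1 / 2) = false ∧ (u (pt h false 1)).1 (1 / 2) = true} (by
      have hO : ∀ (p : I K 0 1) (b : Bool),
          IsOpen {u : I K 0 1 → I K 0 1 | (u p).1 (1 / 2) = b} := fun p b =>
        (hU b).isOpen.preimage (f := fun u : I K 0 1 → I K 0 1 => u p) (continuous_apply p)
      refine ((hO o' false).inter (hO (pt h false 1) true)).mem_nhds ⟨?_, ?_⟩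
      · simp [o', o]
      · simp only [id, mem_ofPred_eq, pt, hh]
        norm_num)
  have hV : ∀ g ∈ F, ∀ᶠ D in 𝓝 o', ∀ b, D ∈ g '' {D | D.1 (1 / 2) = b} →
      o' ∈ g '' {D | D.1 (1 / 2) = b} := by
    intro g hg
    refine eventually_all.2 fun b => ?_
    by_cases hb : o' ∈ g '' {D | D.1 (1 / 2) = b}
    · exact Eventually.of_forall fun _ _ => hb
    · filter_upwards [(((hU b).isClosed.isCompact.image (hFc g hg)).isClosed.isOpen_compl).mem_nhds
        hb] with D h1 h2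
      exact absurd h2 h1
  obtain ⟨t, t1, t2, t3⟩ := hsm _ ((eventually_all_finite hF).2 hV)
  obtain ⟨e, he⟩ := swap h t1 t2
  obtain ⟨g, hg, u, hu, huc, hgu⟩ := hF' e e.continuous
  have hi : Function.Injective (g ∘ u) := hgu ▸ e.injective
  have hgi := hi.of_comp_right (onto u huc hi.of_comp)
  obtain ⟨a, a1, a2⟩ := t3 (e o') (he o' (Or.inl (o_mem h t1).2.2.2)).2.2.2 g hg false
    ⟨u o', hu.1, (congrFun hgu _).symm⟩
  obtain ⟨b, b1, b2⟩ := t3 (e (pt h false 1)) (he _ (Or.inr (by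
    simp only [pt, h.sub h.one t, sub_lt_self 1 t1]; simp))).2.2.2 g hg true ⟨u _, hu.2, (congrFun hgu _).symm⟩
  obtain rfl := hgi (a2.trans b2.symm)
  exact Bool.noConfusion (a1.symm.trans b1)

end Pool.Agent.S13724
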