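import Pool.Statements.S13741

set_option autoImplicit false
open Pool Pool.MP_abe51b_gt

namespace Pool.Agent.S13741

abbrev E := Fin 3 → ℝ

abbrev Mon := ℝ × ℕ × ℕ × ℕ × ℕ

noncomputable def L (u : Fin 3 → ℝ) : E →L[ℝ] ℝ :=
  u 0 • ContinuousLinearMap.proj 0 + u 1 • ContinuousLinearMap.proj 1
    + u 2 • ContinuousLinearMap.proj 2

lemma L_single (u : Fin 3 → ℝ) (i : Fin 3) : L u (Pi.single i 1) = u i := by
  fin_cases i <;> simp [L]

def ev (W : E → ℝ) : List Mon → E → ℝ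
  | [], _ => 0
  | m :: l, y => m.1 * y 0 ^ m.2.1 * y 1 ^ m.2.2.1 * y 2 ^ m.2.2.2.1 * W y ^ m.2.2.2.2 + ev W l y

def evd (W : E → ℝ) (w : Fin 3 → ℝ) : List Mon → E → Fin 3 → ℝ
  | [], _ => 0
  | m :: l, y => ![
      m.1 * (m.2.1 * y 0 ^ (m.2.1 - 1)) * y 1 ^ m.2.2.1 * y 2 ^ m.2.2.2.1 * W y ^ m.2.2.2.2,
      m.1 * y 0 ^ m.2.1 * (m.2.2.1 * y 1 ^ (m.2.2.1 - 1)) * y 2 ^ m.2.2.2.1 * W y ^ m.2.2.2.2,
      m.1 * y 0 ^ m.2.1 * y 1 ^ m.2.2.1 * (m.2.2.2.1 * y 2 ^ (m.2.2.2.1 - 1)) * W y ^ m.2.2.2.2]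
      + (m.1 * y 0 ^ m.2.1 * y 1 ^ m.2.2.1 * y 2 ^ m.2.2.2.1
        * (m.2.2.2.2 * W y ^ (m.2.2.2.2 - 1))) • w + evd W w l y

lemma hd_ev (W : E → ℝ) (w : Fin 3 → ℝ) (x : E) (hW : HasFDerivAt W (L w) x) (l : List Mon) :
    HasFDerivAt (ev W l) (L (evd W w l x)) x := by
  induction l with
  | nil =>
    have : L (evd W w [] x) = 0 := by ext v; simp [L, evd]
    rw [this]
    exact hasFDerivAt_const (0:ℝ) x
  | cons m l ih =>
    have h0 : HasFDerivAt (fun y : E => y 0) (ContinuousLinearMap.proj 0 : E →L[ℝ] ℝ) x :=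
      hasFDerivAt_apply 0 x
    have h1 : HasFDerivAt (fun y : E => y 1) (ContinuousLinearMap.proj 1 : E →L[ℝ] ℝ) x :=
      hasFDerivAt_apply 1 x
    have h2 : HasFDerivAt (fun y : E => y 2) (ContinuousLinearMap.proj 2 : E →L[ℝ] ℝ) x :=
      hasFDerivAt_apply 2 x
    have h := ((((((h0.pow m.2.1).const_mul m.1).mul (h1.pow m.2.2.1)).mul
      (h2.pow m.2.2.2.1)).mul (hW.pow m.2.2.2.2)).add ih)
    refine HasFDerivAt.congr_fderiv h ?_
    refine ContinuousLinearMap.ext fun v => ?_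
    simp [L, evd, Matrix.vecHead, Matrix.vecTail]
    ring

lemma second (F : E → ℝ) (a : Fin 3 → E → ℝ) (b : Fin 3 → Fin 3 → ℝ) (x : E) (hx : x ≠ 0)
    (hF : ∀ y : E, y ≠ 0 → HasFDerivAt F (L fun i => a i y) y)
    (ha : ∀ i, HasFDerivAt (a i) (L (b i)) x) (i j : Fin 3) :
    fderiv ℝ (fderiv ℝ F) x (Pi.single j 1) (Pi.single i 1) = b i j := by
  have h1 : fderiv ℝ F =ᶠ[nhds x] fun y => L fun i => a i y := by
    filter_upwards [isOpen_ne.mem_nhds hx] with y hy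
    exact (hF y hy).fderiv
  rw [h1.fderiv_eq]
  have h2 := (((ha 0).smul_const (ContinuousLinearMap.proj 0 : E →L[ℝ] ℝ)).add
    ((ha 1).smul_const (ContinuousLinearMap.proj 1 : E →L[ℝ] ℝ))).add
    ((ha 2).smul_const (ContinuousLinearMap.proj 2 : E →L[ℝ] ℝ))
  have h3 : (fun y => L fun i => a i y) = ((fun y => a 0 y • (ContinuousLinearMap.proj 0 : E →L[ℝ] ℝ))
      + fun y => a 1 y • (ContinuousLinearMap.proj 1 : E →L[ℝ] ℝ))
      + fun y => a 2 y • (ContinuousLinearMap.proj 2 : E →L[ℝ] ℝ) := rfl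
  rw [h3, h2.fderiv]
  simp only [add_apply, ContinuousLinearMap.smulRight_apply,
    smul_apply, L_single, ContinuousLinearMap.proj_apply, smul_eq_mul]
  fin_cases i <;> simp

def Q (y : E) : ℝ := 4 * y 0 ^ 2 + 4 * y 1 ^ 2 + 3 * y 2 ^ 2

def S (y : E) : ℝ := y 0 ^ 2 + y 1 ^ 2 + y 2 ^ 2

lemma S_pos (y : E) (hy : y ≠ 0) : 0 < S y := by
  by_contra h
  apply hy
  unfold S at h
  have h0 : y 0 = 0 := by nlinarith [sq_nonneg (y 0), sq_nonneg (y 1), sq_nonneg (y 2)]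
  have h1 : y 1 = 0 := by nlinarith [sq_nonneg (y 0), sq_nonneg (y 1), sq_nonneg (y 2)]
  have h2 : y 2 = 0 := by nlinarith [sq_nonneg (y 0), sq_nonneg (y 1), sq_nonneg (y 2)]
  funext i
  fin_cases i <;> simp [h0, h1, h2]

lemma Q_pos (y : E) (hy : y ≠ 0) : 0 < Q y := by
  have := S_pos y hy
  unfold S at this
  unfold Q
  nlinarith [sq_nonneg (y 0), sq_nonneg (y 1), sq_nonneg (y 2)]

noncomputable def W (y : E) : ℝ := (Real.sqrt (Q y))⁻¹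

noncomputable def V (y : E) : ℝ := (S y)⁻¹

noncomputable def dW (y : E) : Fin 3 → ℝ :=
  ![-4 * y 0 * W y ^ 3, -4 * y 1 * W y ^ 3, -3 * y 2 * W y ^ 3]

noncomputable def dV (y : E) : Fin 3 → ℝ :=
  ![-2 * y 0 * V y ^ 2, -2 * y 1 * V y ^ 2, -2 * y 2 * V y ^ 2]

lemma hW (x : E) (hx : x ≠ 0) : HasFDerivAt W (L (dW x)) x := by
  have h0 : HasFDerivAt (fun y : E => y 0) (ContinuousLinearMap.proj 0 : E →L[ℝ] ℝ) x :=
    hasFDerivAt_apply 0 x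
  have h1 : HasFDerivAt (fun y : E => y 1) (ContinuousLinearMap.proj 1 : E →L[ℝ] ℝ) x :=
    hasFDerivAt_apply 1 x
  have h2 : HasFDerivAt (fun y : E => y 2) (ContinuousLinearMap.proj 2 : E →L[ℝ] ℝ) x :=
    hasFDerivAt_apply 2 x
  have hq : HasFDerivAt Q _ x :=
    (((h0.pow 2).const_mul 4).add ((h1.pow 2).const_mul 4)).add ((h2.pow 2).const_mul 3)
  have hQ := Q_pos x hx
  have hs : Real.sqrt (Q x) ≠ 0 := (Real.sqrt_pos.mpr hQ).ne'
  have h := (hasDerivAt_inv hs).comp_hasFDerivAt x (hq.sqrt hQ.ne')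
  refine HasFDerivAt.congr_fderiv h ?_
  refine ContinuousLinearMap.ext fun v => ?_
  simp [L, dW, W]
  field_simp

lemma hV (x : E) (hx : x ≠ 0) : HasFDerivAt V (L (dV x)) x := by
  have h0 : HasFDerivAt (fun y : E => y 0) (ContinuousLinearMap.proj 0 : E →L[ℝ] ℝ) x :=
    hasFDerivAt_apply 0 x
  have h1 : HasFDerivAt (fun y : E => y 1) (ContinuousLinearMap.proj 1 : E →L[ℝ] ℝ) x :=
    hasFDerivAt_apply 1 x
  have h2 : HasFDerivAt (fun y : E => y 2) (ContinuousLinearMap.proj 2 : E →L[ℝ] ℝ) x :=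
    hasFDerivAt_apply 2 x
  have hq : HasFDerivAt S _ x := ((h0.pow 2).add (h1.pow 2)).add (h2.pow 2)
  have hs := (S_pos x hx).ne'
  have h := (hasDerivAt_inv hs).comp_hasFDerivAt x hq
  refine HasFDerivAt.congr_fderiv h ?_
  refine ContinuousLinearMap.ext fun v => ?_
  simp [L, dV, V]
  field_simp

def lF : List Mon := [((1:ℝ), 0, 0, 4, 3), ((6:ℝ), 0, 2, 2, 3), ((6:ℝ), 0, 4, 0, 3), ((6:ℝ), 2, 0, 2, 3), ((12:ℝ), 2, 2, 0, 3), ((6:ℝ), 4, 0, 0, 3)]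
def lF0 : List Mon := [((12:ℝ), 1, 0, 2, 3), ((-12:ℝ), 1, 0, 4, 5), ((24:ℝ), 1, 2, 0, 3), ((-72:ℝ), 1, 2, 2, 5), ((-72:ℝ), 1, 4, 0, 5), ((24:ℝ), 3, 0, 0, 3), ((-72:ℝ), 3, 0, 2, 5), ((-144:ℝ), 3, 2, 0, 5), ((-72:ℝ), 5, 0, 0, 5)]
def lF1 : List Mon := [((12:ℝ), 0, 1, 2, 3), ((-12:ℝ), 0, 1, 4, 5), ((24:ℝ), 0, 3, 0, 3), ((-72:ℝ), 0, 3, 2, 5), ((-72:ℝ), 0, 5, 0, 5), ((24:ℝ), 2, 1, 0, 3), ((-72:ℝ), 2, 1, 2, 5), ((-144:ℝ), 2, 3, 0, 5), ((-72:ℝ), 4, 1, 0, 5)]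
def lF2 : List Mon := [((4:ℝ), 0, 0, 3, 3), ((-9:ℝ), 0, 0, 5, 5), ((12:ℝ), 0, 2, 1, 3), ((-54:ℝ), 0, 2, 3, 5), ((-54:ℝ), 0, 4, 1, 5), ((12:ℝ), 2, 0, 1, 3), ((-54:ℝ), 2, 0, 3, 5), ((-108:ℝ), 2, 2, 1, 5), ((-54:ℝ), 4, 0, 1, 5)]
def lG : List Mon := [((-3:ℝ), 1, 2, 0, 1), ((1:ℝ), 3, 0, 0, 1)]
def lG0 : List Mon := [((-3:ℝ), 0, 2, 0, 1), ((3:ℝ), 2, 0, 0, 1), ((6:ℝ), 2, 2, 0, 2), ((-2:ℝ), 4, 0, 0, 2)]
def lG1 : List Mon := [((-6:ℝ), 1, 1, 0, 1), ((6:ℝ), 1, 3, 0, 2), ((-2:ℝ), 3, 1, 0, 2)]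
def lG2 : List Mon := [((6:ℝ), 1, 2, 1, 2), ((-2:ℝ), 3, 0, 1, 2)]

def lFs : Fin 3 → List Mon := ![lF0, lF1, lF2]

def lGs : Fin 3 → List Mon := ![lG0, lG1, lG2]

lemma dF (y : E) (hy : y ≠ 0) : HasFDerivAt (ev W lF) (L fun i => ev W (lFs i) y) y := by
  have h := hd_ev W _ y (hW y hy) lF
  have e : evd W (dW y) lF y = fun i => ev W (lFs i) y := by
    funext i
    fin_cases i <;> simp [evd, ev, lF, lFs, lF0, lF1, lF2, dW] <;> ring
  rwa [e] at h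

lemma dG (y : E) (hy : y ≠ 0) : HasFDerivAt (ev V lG) (L fun i => ev V (lGs i) y) y := by
  have h := hd_ev V _ y (hV y hy) lG
  have e : evd V (dV y) lG y = fun i => ev V (lGs i) y := by
    funext i
    fin_cases i <;> simp [evd, ev, lG, lGs, lG0, lG1, lG2, dV] <;> ring
  rwa [e] at h

noncomputable def bF (x : E) (i : Fin 3) : Fin 3 → ℝ := evd W (dW x) (lFs i) x

noncomputable def bG (x : E) (i : Fin 3) : Fin 3 → ℝ := evd V (dV x) (lGs i) x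

lemma HF (x : E) (hx : x ≠ 0) (i j : Fin 3) :
    fderiv ℝ (fderiv ℝ (ev W lF)) x (Pi.single j 1) (Pi.single i 1) = bF x i j :=
  second _ (fun i => ev W (lFs i)) (bF x) x hx dF (fun i => hd_ev W _ x (hW x hx) _) i j

lemma HG (x : E) (hx : x ≠ 0) (i j : Fin 3) :
    fderiv ℝ (fderiv ℝ (ev V lG)) x (Pi.single j 1) (Pi.single i 1) = bG x i j :=
  second _ (fun i => ev V (lGs i)) (bG x) x hx dG (fun i => hd_ev V _ x (hV x hx) _) i j

lemma L_add (u v : Fin 3 → ℝ) : L (u + v) = L u + L v := by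
  refine ContinuousLinearMap.ext fun w => ?_
  simp [L]; ring

lemma HFG (x : E) (hx : x ≠ 0) (i j : Fin 3) :
    fderiv ℝ (fderiv ℝ (fun y => ev W lF y + ev V lG y)) x (Pi.single j 1) (Pi.single i 1)
      = bF x i j + bG x i j := by
  refine second _ (fun i y => ev W (lFs i) y + ev V (lGs i) y) (fun i => bF x i + bG x i) x hx
    (fun y hy => ?_) (fun i => ?_) i j
  · have h := (dF y hy).add (dG y hy)
    rw [← L_add] at h
    exact h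
  · have h := (hd_ev W _ x (hW x hx) (lFs i)).add (hd_ev V _ x (hV x hx) (lGs i))
    rw [← L_add] at h
    exact h

lemma mixed (x : E) (hx : x ≠ 0) :
    ∑ i : Fin 3, ∑ j : Fin 3, (bF x i i * bG x j j - bF x j i * bG x i j
      + bG x i i * bF x j j - bG x j i * bF x i j) = 0 := by
  have hQ := Q_pos x hx
  have hS := S_pos x hx
  have h2 : W x ^ 2 = (Q x)⁻¹ := by rw [W, inv_pow, Real.sq_sqrt hQ.le]
  have h5 : W x ^ 5 = W x ^ 3 * (Q x)⁻¹ := by rw [← h2]; ring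
  have h7 : W x ^ 7 = W x ^ 3 * (Q x)⁻¹ ^ 2 := by rw [← h2]; ring
  have hv : V x = (S x)⁻¹ := rfl
  simp only [Fin.sum_univ_three]
  simp [bF, bG, evd, lFs, lGs, lF0, lF1, lF2, lG0, lG1, lG2, dW, dV]
  ring_nf
  rw [h5, h7, hv]
  have hQ' := hQ.ne'
  have hS' := hS.ne'
  field_simp
  unfold Q S
  ring

/-- There is a 1-homogeneous function F on R^3, analytic off 0 and not linear, and a 1-homogeneous G, C^2 off 0, such that the mixed curvature (sigma_2 of Hessians) of F and G vanishes on the unit sphere while the curvature of G does not vanish identically there. -/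
theorem result :
    ∀ R : ((Fin 3 → ℝ) → ℝ) → (Fin 3 → ℝ) → ℝ,
      (R = fun F x => (1 / 2 : ℝ) * ∑ i : Fin 3, ∑ j : Fin 3,
          (fderiv ℝ (fderiv ℝ F) x (Pi.single i 1) (Pi.single i 1) *
              fderiv ℝ (fderiv ℝ F) x (Pi.single j 1) (Pi.single j 1) -
            fderiv ℝ (fderiv ℝ F) x (Pi.single i 1) (Pi.single j 1) *
              fderiv ℝ (fderiv ℝ F) x (Pi.single j 1) (Pi.single i 1))) →
      ∃ F : (Fin 3 → ℝ) → ℝ,
        (∀ t : ℝ, 0 < t → ∀ x : Fin 3 → ℝ, F (t • x) = t * F x) ∧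
        AnalyticOnNhd ℝ F {x : Fin 3 → ℝ | x ≠ 0} ∧
        (¬ ∃ a : Fin 3 → ℝ, ∀ x : Fin 3 → ℝ, F x = ∑ i : Fin 3, a i * x i) ∧
        ∃ G : (Fin 3 → ℝ) → ℝ,
          (∀ t : ℝ, 0 < t → ∀ x : Fin 3 → ℝ, G (t • x) = t * G x) ∧
          ContDiffOn ℝ 2 G {x : Fin 3 → ℝ | x ≠ 0} ∧
          (∀ x : Fin 3 → ℝ, ∑ i : Fin 3, x i ^ 2 = 1 →
            R (fun y => F y + G y) x - R F x - R G x = 0) ∧
          ∃ x : Fin 3 → ℝ, ∑ i : Fin 3, x i ^ 2 = 1 ∧ R G x ≠ 0 := by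
  intro R hR
  refine ⟨ev W lF, ?_, ?_, ?_, ev V lG, ?_, ?_, ?_, ?_⟩
  · intro t ht x
    have h1 : W (t • x) = t⁻¹ * W x := by
      have : Q (t • x) = t ^ 2 * Q x := by simp [Q]; ring
      rw [W, W, this, Real.sqrt_mul (sq_nonneg t), Real.sqrt_sq ht.le, mul_inv]
    simp only [ev, lF, h1, Pi.smul_apply, smul_eq_mul]
    field_simp
    ring
  · intro x hx
    have hq : ContDiffAt ℝ ⊤ Q x := by unfold Q; fun_prop
    have hw : ContDiffAt ℝ ⊤ W x :=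
      (hq.sqrt (Q_pos x hx).ne').inv (Real.sqrt_pos.mpr (Q_pos x hx)).ne'
    have : ContDiffAt ℝ ⊤ (ev W lF) x := by
      have e : ev W lF = fun y => (y 2 ^ 4 + 6 * y 1 ^ 2 * y 2 ^ 2 + 6 * y 1 ^ 4
          + 6 * y 0 ^ 2 * y 2 ^ 2 + 12 * y 0 ^ 2 * y 1 ^ 2 + 6 * y 0 ^ 4) * W y ^ 3 := by
        funext y; simp [ev, lF]; ring
      rw [e]
      exact ContDiffAt.mul (by fun_prop) (hw.pow 3)
    exact this.analyticAt
  · rintro ⟨a, ha⟩
    have h1 := ha ![0, 0, 1]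
    have h2 := ha ![0, 0, -1]
    simp [ev, lF, Fin.sum_univ_three, W, Q] at h1 h2
    have h3 : (0:ℝ) < Real.sqrt 3 := Real.sqrt_pos.mpr (by norm_num)
    have h4 : (0:ℝ) < (Real.sqrt 3 ^ 3)⁻¹ := by positivity
    norm_num at h1 h2
    linarith
  · intro t ht x
    have h1 : V (t • x) = (t ^ 2)⁻¹ * V x := by
      have : S (t • x) = t ^ 2 * S x := by simp [S]; ring
      rw [V, V, this, mul_inv]
    simp only [ev, lG, h1, Pi.smul_apply, smul_eq_mul]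
    field_simp
    ring
  · intro x hx
    have hq : ContDiffAt ℝ 2 S x := by unfold S; fun_prop
    have hw : ContDiffAt ℝ 2 V x := hq.inv (S_pos x hx).ne'
    have : ContDiffAt ℝ 2 (ev V lG) x := by
      have e : ev V lG = fun y => (y 0 ^ 3 - 3 * y 0 * y 1 ^ 2) * V y := by
        funext y; simp [ev, lG]; ring
      rw [e]
      exact ContDiffAt.mul (by fun_prop) hw
    exact this.contDiffWithinAt
  · intro x hx1
    have hx : x ≠ 0 := by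
      rintro rfl
      simp at hx1
    have h := mixed x hx
    rw [hR]
    simp only [HF x hx, HG x hx, HFG x hx]
    simp only [Fin.sum_univ_three] at h ⊢
    linear_combination (1 / 2 : ℝ) * h
  · have hx : (![1, 0, 0] : E) ≠ 0 := by
      intro h
      have := congrFun h 0
      simp at this
    refine ⟨![1, 0, 0], by simp [Fin.sum_univ_three], ?_⟩
    rw [hR]
    simp only [HG _ hx]
    simp [Fin.sum_univ_three, bG, evd, lGs, lG0, lG1, lG2, dV, V, S]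
    norm_num

end Pool.Agent.S13741
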