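import Pool.Statements.S13782

set_option autoImplicit false
open Pool Pool.MP_b2bcdc_gt

namespace Pool.Agent.S13782

open Set

section core
variable {P : Type} [ConditionallyCompleteLinearOrderBot P] [TopologicalSpace P] [OrderTopology P]
  [NoMaxOrder P]

/-- points `(p, y)` with `y - f p` rational -/
structure X (f : P → ℝ) : Type where
  p : P
  y : ℝ
  h : ∃ q : ℚ, y = f p + q

def Op (f : P → ℝ) (U : Set (X f)) : Prop :=
  ∀ x ∈ U, ∃ (O : Set P) (r : ℝ) (β : P), IsOpen O ∧ x.p ∈ O ∧ r < x.y ∧ Ioi β ⊆ O ∧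
    ∀ z : X f, z.p ∈ O → r < z.y → z ∈ U

instance top (f : P → ℝ) : TopologicalSpace (X f) where
  IsOpen := Op f
  isOpen_univ := fun x _ => ⟨univ, x.y - 1, x.p, isOpen_univ, trivial, by linarith, subset_univ _,
    fun _ _ _ => trivial⟩
  isOpen_inter := by
    intro s t hs ht x hx
    obtain ⟨O, r, β, h1, h2, h3, h4, h5⟩ := hs x hx.1
    obtain ⟨O', r', β', h1', h2', h3', h4', h5'⟩ := ht x hx.2
    refine ⟨O ∩ O', max r r', max β β', h1.inter h1', ⟨h2, h2'⟩, max_lt h3 h3', ?_, ?_⟩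
    · intro a ha
      exact ⟨h4 (lt_of_le_of_lt (le_max_left _ _) ha), h4' (lt_of_le_of_lt (le_max_right _ _) ha)⟩
    · intro z hz hr
      exact ⟨h5 z hz.1 (lt_of_le_of_lt (le_max_left _ _) hr),
        h5' z hz.2 (lt_of_le_of_lt (le_max_right _ _) hr)⟩
  isOpen_sUnion := by
    rintro s hs x ⟨t, ht, hx⟩
    obtain ⟨O, r, β, h1, h2, h3, h4, h5⟩ := hs t ht x hx
    exact ⟨O, r, β, h1, h2, h3, h4, fun z hz hr => ⟨t, ht, h5 z hz hr⟩⟩

variable {f : P → ℝ}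

omit [NoMaxOrder P] in
theorem open_box (O : Set P) (hO : IsOpen O) (β : P) (hβ : Ioi β ⊆ O) (r : ℝ) :
    IsOpen {z : X f | z.p ∈ O ∧ r < z.y} :=
  fun _ hx => ⟨O, r, β, hO, hx.1, hx.2, hβ, fun _ h1 h2 => ⟨h1, h2⟩⟩

omit [NoMaxOrder P] in
theorem open_strip (O : Set P) (hO : IsOpen O) (β : P) (hβ : Ioi β ⊆ O) :
    IsOpen {z : X f | z.p ∈ O} :=
  fun x hx => ⟨O, x.y - 1, β, hO, hx, by linarith, hβ, fun _ h1 _ => h1⟩

omit [NoMaxOrder P] in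
theorem open_up (r : ℝ) : IsOpen {z : X f | r < z.y} :=
  fun x hx => ⟨univ, r, x.p, isOpen_univ, trivial, hx, subset_univ _, fun _ _ h => h⟩

omit [ConditionallyCompleteLinearOrderBot P] [TopologicalSpace P] [OrderTopology P]
  [NoMaxOrder P] in
theorem exists_pt (p : P) (a b : ℝ) (h : a < b) : ∃ z : X f, z.p = p ∧ a < z.y ∧ z.y < b := by
  obtain ⟨q, h1, h2⟩ := exists_rat_btwn (show a - f p < b - f p by linarith)
  exact ⟨⟨p, f p + q, q, rfl⟩, rfl, by simp; linarith, by simp; linarith⟩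

instance : T0Space (X f) := by
  refine ⟨fun x z h => ?_⟩
  rw [inseparable_iff_forall_isOpen] at h
  have hp : x.p = z.p := by
    by_contra hne
    have := (h _ (open_strip {z.p}ᶜ isOpen_compl_singleton z.p (fun a ha => ne_of_gt ha))).1 hne
    exact this rfl
  have hy : x.y = z.y := by
    apply le_antisymm
    · by_contra hlt
      exact lt_irrefl z.y ((h _ (open_up z.y)).1 (not_le.1 hlt))
    · by_contra hlt
      exact lt_irrefl x.y ((h _ (open_up x.y)).2 (not_le.1 hlt))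
  cases x
  cases z
  simp only at hp hy
  subst hp hy
  rfl

theorem irred : IsIrreducible (univ : Set (X f)) := by
  obtain ⟨z0, -⟩ := exists_pt (f := f) ⊥ 0 1 one_pos
  refine ⟨⟨z0, trivial⟩, ?_⟩
  rintro U V hU hV ⟨x, -, hx⟩ ⟨w, -, hw⟩
  obtain ⟨O, r, β, h1, h2, h3, h4, h5⟩ := hU x hx
  obtain ⟨O', r', β', h1', h2', h3', h4', h5'⟩ := hV w hw
  obtain ⟨p, hp⟩ := exists_gt (max β β')
  obtain ⟨z, hz, hz1, -⟩ := exists_pt (f := f) p (max r r') (max r r' + 1) (by linarith)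
  refine ⟨z, trivial, h5 z (h4 ?_) ?_, h5' z (h4' ?_) ?_⟩
  · rw [hz]; exact lt_of_le_of_lt (le_max_left _ _) hp
  · exact lt_of_le_of_lt (le_max_left _ _) hz1
  · rw [hz]; exact lt_of_le_of_lt (le_max_right _ _) hp
  · exact lt_of_le_of_lt (le_max_right _ _) hz1

theorem core_compact (U : Set (X f)) (hU : IsOpen U) (x : X f) (hx : x ∈ U) :
    ∃ V : Set (X f), IsOpen V ∧ x ∈ V ∧ V ⊆ U ∧
      ∀ 𝒰 : Set (Set (X f)), (∀ W ∈ 𝒰, IsOpen W) → U ⊆ ⋃₀ 𝒰 →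
        ∃ 𝒱 ⊆ 𝒰, 𝒱.Finite ∧ V ⊆ ⋃₀ 𝒱 := by
  obtain ⟨O, r, β, h1, h2, h3, h4, h5⟩ := hU x hx
  obtain ⟨r1, hr1, hr2⟩ := exists_between h3
  obtain ⟨N, hN, hNc, hNO⟩ := exists_mem_nhds_isClosed_subset (h1.mem_nhds h2)
  obtain ⟨β', hβ'⟩ := exists_gt β
  have hC : N ∪ Ici β' ⊆ O := union_subset hNO fun a ha => h4 (lt_of_lt_of_le hβ' ha)
  have hO1 : interior N ∪ Ioi β' ⊆ N ∪ Ici β' :=
    union_subset_union interior_subset Ioi_subset_Ici_self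
  refine ⟨{z | z.p ∈ interior N ∪ Ioi β' ∧ r1 < z.y},
    open_box _ (isOpen_interior.union isOpen_Ioi) β' subset_union_right r1,
    ⟨Or.inl (mem_interior_iff_mem_nhds.2 hN), hr2⟩,
    fun z hz => h5 z (hC (hO1 hz.1)) (hr1.trans hz.2), ?_⟩
  intro 𝒰 h𝒰 hcov
  have key : ∀ p ∈ O, ∃ W ∈ 𝒰, ∃ (Q : Set P) (γ : P), IsOpen Q ∧ p ∈ Q ∧ Ioi γ ⊆ Q ∧
      ∀ z : X f, z.p ∈ Q → r1 < z.y → z ∈ W := by
    intro p hp
    obtain ⟨z, hz, hz1, hz2⟩ := exists_pt (f := f) p r r1 hr1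
    obtain ⟨W, hW, hzW⟩ := hcov (h5 z (hz ▸ hp) hz1)
    obtain ⟨Q, s, γ, g1, g2, g3, g4, g5⟩ := h𝒰 W hW z hzW
    exact ⟨W, hW, Q, γ, g1, hz ▸ g2, g4, fun w hw hw' => g5 w hw (by linarith)⟩
  choose! W hW Q γ q1 q2 q3 q4 using key
  have hK : IsCompact ((N ∪ Ici β') ∩ Icc ⊥ (γ x.p)) :=
    isCompact_Icc.inter_left (hNc.union isClosed_Ici)
  obtain ⟨t, ht1, ht2⟩ := hK.elim_nhds_subcover Q
    (fun p hp => (q1 p (hC hp.1)).mem_nhds (q2 p (hC hp.1)))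
  refine ⟨insert (W x.p) (W '' (t : Set P)), ?_, (t.finite_toSet.image W).insert _, ?_⟩
  · rintro _ (rfl | ⟨p, hp, rfl⟩)
    · exact hW _ h2
    · exact hW _ (hC (ht1 p hp).1)
  · rintro z ⟨hz1, hz2⟩
    by_cases hz : γ x.p < z.p
    · exact ⟨W x.p, Or.inl rfl, q4 _ h2 z (q3 _ h2 hz) hz2⟩
    · have := ht2 ⟨hO1 hz1, bot_le, not_lt.1 hz⟩
      simp only [mem_iUnion] at this
      obtain ⟨p, hp, hzp⟩ := this
      exact ⟨W p, Or.inr ⟨p, hp, rfl⟩, q4 _ (hC (ht1 p hp).1) z hzp hz2⟩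

omit [NoMaxOrder P] in
theorem min_on (K : Set (X f)) (hK : IsCompact K) (hne : K.Nonempty) :
    ∃ m ∈ K, ∀ w ∈ K, m.y ≤ w.y := by
  have : LowerSemicontinuous (fun z : X f => z.y) :=
    lowerSemicontinuous_iff_isOpen_preimage.2 fun r => open_up r
  obtain ⟨m, hm, h⟩ := (this.lowerSemicontinuousOn K).exists_isMinOn hne hK
  exact ⟨m, hm, fun w hw => h hw⟩

theorem compact_bdd (hb : ∀ s : Set P, s.Countable → BddAbove s) (hf : Function.Injective f)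
    (K : Set (X f)) (hK : IsCompact K) : ∃ β : P, ∀ z ∈ K, z.p ≤ β := by
  by_contra hcon
  push Not at hcon
  have hmin : ∀ β : P, ∃ m ∈ K, β ≤ m.p ∧ ∀ w ∈ K, β ≤ w.p → m.y ≤ w.y := by
    intro β
    obtain ⟨z0, hz0, hz0'⟩ := hcon β
    have : ∀ q : ℚ, ∃ z ∈ K, β ≤ z.p ∧ ((∃ w ∈ K, β ≤ w.p ∧ w.y < q) → z.y < q) := by
      intro q
      by_cases h : ∃ w ∈ K, β ≤ w.p ∧ w.y < q
      · obtain ⟨w, h1, h2, h3⟩ := h
        exact ⟨w, h1, h2, fun _ => h3⟩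
      · exact ⟨z0, hz0, hz0'.le, fun h' => absurd h' h⟩
    choose g g1 g2 g3 using this
    obtain ⟨γ, hγ⟩ := hb _ (countable_range (fun q => (g q).p))
    have hcl : IsClosed {z : X f | z.p ∈ Icc β γ} := by
      rw [← isOpen_compl_iff]
      exact open_strip (Icc β γ)ᶜ isClosed_Icc.isOpen_compl γ fun a ha h => absurd h.2 (not_le.2 ha)
    obtain ⟨m, hm, hm'⟩ := min_on _ (hK.inter_right hcl)
      ⟨g 0, g1 0, g2 0, hγ (mem_range_self 0)⟩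
    refine ⟨m, hm.1, hm.2.1, fun w hw hw' => ?_⟩
    by_contra hlt
    obtain ⟨q, h1, h2⟩ := exists_rat_btwn (not_le.1 hlt)
    have h3 := g3 q ⟨w, hw, hw', h1⟩
    have h4 := hm' (g q) ⟨g1 q, g2 q, hγ (mem_range_self q)⟩
    linarith
  choose m m1 m2 m3 using hmin
  have hmono : ∀ a b : P, a ≤ b → (m a).y ≤ (m b).y := fun a b hab =>
    m3 a _ (m1 b) (hab.trans (m2 b))
  have : ∀ q : ℚ, ∃ b : P, (∃ a, (q : ℝ) < (m a).y) → (q : ℝ) < (m b).y := by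
    intro q
    by_cases h : ∃ a, (q : ℝ) < (m a).y
    · obtain ⟨a, ha⟩ := h
      exact ⟨a, fun _ => ha⟩
    · exact ⟨⊥, fun h' => absurd h' h⟩
  choose g hg using this
  obtain ⟨γ, hγ⟩ := hb _ (countable_range g)
  have hconst : ∀ b, γ ≤ b → (m b).y = (m γ).y := by
    intro b hb'
    refine le_antisymm ?_ (hmono _ _ hb')
    by_contra hlt
    obtain ⟨q, h1, h2⟩ := exists_rat_btwn (not_le.1 hlt)
    have h3 := hg q ⟨b, h2⟩
    have h4 := hmono _ _ (hγ (mem_range_self q))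
    linarith
  have hcount : {p : P | ∃ q : ℚ, (m γ).y = f p + q}.Countable := by
    have : {p : P | ∃ q : ℚ, (m γ).y = f p + q} = f ⁻¹' (range fun q : ℚ => (m γ).y - q) := by
      ext p
      simp only [mem_ofPred_eq, mem_preimage, mem_range]
      constructor
      · rintro ⟨q, hq⟩
        exact ⟨q, by linarith⟩
      · rintro ⟨q, hq⟩
        exact ⟨q, by linarith⟩
    rw [this]
    exact (countable_range _).preimage hf
  obtain ⟨δ, hδ⟩ := hb _ hcount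
  obtain ⟨b, hb'⟩ := exists_gt (max γ δ)
  have h1 := hconst b ((le_max_left _ _).trans hb'.le)
  have h2 : (m b).p ≤ δ := hδ (by
    obtain ⟨q, hq⟩ := (m b).h
    exact ⟨q, by rw [← h1, hq]⟩)
  exact absurd ((m2 b).trans h2) (not_le.2 (lt_of_le_of_lt (le_max_right _ _) hb'))

end core

abbrev W1 : Type := (Cardinal.aleph.{0} 1).ord.ToType

theorem W1_bdd (s : Set W1) (hs : s.Countable) : BddAbove s := by
  by_contra h
  rw [not_bddAbove_iff] at h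
  have h1 : (univ : Set W1) ⊆ ⋃ a ∈ s, Iio a := by
    intro x _
    obtain ⟨y, hy, hxy⟩ := h x
    simp only [mem_iUnion]
    exact ⟨y, hy, hxy⟩
  have h2 : (⋃ a ∈ s, Iio a : Set W1).Countable := by
    refine hs.biUnion fun a _ => ?_
    rw [Cardinal.countable_iff_lt_aleph_one]
    exact Cardinal.mk_Iio_toType_ord_lt a
  have h3 := h2.mono h1
  rw [Cardinal.countable_iff_lt_aleph_one, Cardinal.mk_univ, Cardinal.mk_ord_toType] at h3
  exact lt_irrefl _ h3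

theorem result :
    ¬ (∀ (X : Type) [TopologicalSpace X] [T0Space X],
      (∀ U : Set X, IsOpen U → ∀ x ∈ U, ∃ V : Set X, IsOpen V ∧ x ∈ V ∧ V ⊆ U ∧
        ∀ 𝒰 : Set (Set X), (∀ W ∈ 𝒰, IsOpen W) → U ⊆ ⋃₀ 𝒰 →
          ∃ 𝒱 ⊆ 𝒰, 𝒱.Finite ∧ V ⊆ ⋃₀ 𝒱) →
      ∀ A : Set X, IsClosed A → IsIrreducible A →
        ∃ 𝒦 : Set (Set X), 𝒦.Nonempty ∧
          (∀ K ∈ 𝒦, IsCompact K ∧
            ∀ x : X, (∀ U : Set X, IsOpen U → K ⊆ U → x ∈ U) → x ∈ K) ∧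
          (∀ K₁ ∈ 𝒦, ∀ K₂ ∈ 𝒦, ∃ K₃ ∈ 𝒦, K₃ ⊆ K₁ ∩ K₂) ∧
          (∀ K ∈ 𝒦, (A ∩ K).Nonempty) ∧
          ∀ B : Set X, IsClosed B → B ⊆ A → (∀ K ∈ 𝒦, (B ∩ K).Nonempty) → B = A) := by
  intro h
  have : NoMaxOrder W1 := Cardinal.noMaxOrder (Cardinal.aleph0_le_aleph 1)
  have hne : Nonempty W1 := by
    rw [← Cardinal.mk_ne_zero_iff, Cardinal.mk_ord_toType]
    exact (Cardinal.aleph_pos 1).ne'
  letI : OrderBot W1 := WellFoundedLT.toOrderBot W1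
  letI : ConditionallyCompleteLinearOrderBot W1 :=
    WellFoundedLT.conditionallyCompleteLinearOrderBot W1
  letI : TopologicalSpace W1 := Preorder.topology W1
  haveI : OrderTopology W1 := ⟨rfl⟩
  obtain ⟨f⟩ : Nonempty (W1 ↪ ℝ) := by
    rw [← Cardinal.le_def, Cardinal.mk_ord_toType, Cardinal.mk_real]
    exact Cardinal.aleph_one_le_continuum
  obtain ⟨𝒦, ⟨K, hK⟩, h1, h2, h3, h4⟩ :=
    h (X (f : W1 → ℝ)) core_compact univ isClosed_univ irred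
  obtain ⟨β, hβ⟩ := compact_bdd W1_bdd f.injective K (h1 K hK).1
  have hcl : IsClosed {z : X (f : W1 → ℝ) | z.p ∈ Iic β} := by
    rw [← isOpen_compl_iff]
    exact open_strip (Iic β)ᶜ isClosed_Iic.isOpen_compl β
      fun a (ha : β < a) (h : a ≤ β) => absurd h (not_le.2 ha)
  have := h4 _ hcl (subset_univ _) (by
    intro K' hK'
    obtain ⟨K3, hK3, hsub⟩ := h2 K hK K' hK'
    obtain ⟨z, -, hz⟩ := h3 K3 hK3
    exact ⟨z, hβ z (hsub hz).1, (hsub hz).2⟩)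
  obtain ⟨b, hb⟩ := exists_gt β
  obtain ⟨z, hz, -⟩ := exists_pt (f := (f : W1 → ℝ)) b 0 1 one_pos
  have hz' : z ∈ {z : X (f : W1 → ℝ) | z.p ∈ Iic β} := by rw [this]; trivial
  have : z.p ≤ β := hz'
  rw [hz] at this
  exact absurd this (not_le.2 hb)

end Pool.Agent.S13782
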