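import Pool.Statements.S13784
import Pool.Agent.H5.Creede

set_option autoImplicit false
open Pool Pool.MP_b3099b_gt

namespace Pool.Agent.S13784

/-- The negation of the preceding statement: A T1 space is Fréchet and semistratifiable if and only if it is the image of some semimetrizable space under a continuous closed surjection. -/
theorem result :
    ¬ (∀ (Y : Type) [TopologicalSpace Y], T1Space Y →
      ((FrechetUrysohnSpace Y ∧
        ∃ G : Set Y → ℕ → Set Y,
          (∀ F : Set Y, IsClosed F → ∀ n, IsOpen (G F n)) ∧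
          (∀ F : Set Y, IsClosed F → ⋂ n, G F n = F) ∧
          (∀ F K : Set Y, IsClosed F → IsClosed K → F ⊆ K → ∀ n, G F n ⊆ G K n))
      ↔
      ∃ (X : Type) (_ : TopologicalSpace X) (d : X → X → ℝ),
        (∀ x y, 0 ≤ d x y) ∧ (∀ x y, d x y = 0 ↔ x = y) ∧ (∀ x y, d x y = d y x) ∧
        (∀ x, (nhds x).HasBasis (fun ε : ℝ => 0 < ε) (fun ε => {y | d x y < ε})) ∧
        ∃ f : X → Y, Continuous f ∧ IsClosedMap f ∧ Function.Surjective f)) := by
  intro h
  obtain ⟨X, 𝓙, h1, -, h3⟩ := Pool.Agent.H5.Creede.simon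
  have : Nonempty (Pool.Agent.H5.Creede.Y X 𝓙) := ⟨.top⟩
  obtain ⟨Z, _, d, -, -, -, h4, f, h5, h6, h7⟩ := (h (Pool.Agent.H5.Creede.Y X 𝓙) inferInstance).1
    ⟨Pool.Agent.H5.Creede.frechet fun T a b => (h3 T a b).1, Pool.Agent.H5.Creede.semistrat _⟩
  have := Pool.Agent.H5.Creede.first_countable Z d h4
  exact Pool.Agent.H5.Creede.not_image h1 (fun T a b => (h3 T a b).2) Z f h5 h6 h7

end Pool.Agent.S13784
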