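import Pool.Statements.S13812
import Pool.Agent.H9.LZero

set_option autoImplicit false
open Pool Pool.MP_b81b72_gt

namespace Pool.Agent.S13812

/-- The negation of the preceding statement: For every assignment of a group topology to each abelian group making all homomorphisms continuous, each infinite abelian group whose assigned topology is Hausdorff has a base of clopen sets. -/
theorem result :
    ¬ (∀ T : ∀ (G : Type) [AddCommGroup G], AddGroupTopology G,
      (∀ (G H : Type) [AddCommGroup G] [AddCommGroup H] (f : G →+ H),
        @Continuous G H (T G).toTopologicalSpace (T H).toTopologicalSpace f) →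
      ∀ (G : Type) [AddCommGroup G], Infinite G →
        @T2Space G (T G).toTopologicalSpace →
        ∃ B : Set (Set G),
          @TopologicalSpace.IsTopologicalBasis G (T G).toTopologicalSpace B ∧
          ∀ s ∈ B, @IsClopen G (T G).toTopologicalSpace s) := by
  intro h
  have h1 := h H9.LZero.T H9.LZero.T_cont H9.LZero.L inferInstance
  rw [H9.LZero.T_eq] at h1
  obtain ⟨B, h2, h3⟩ := h1 inferInstance
  exact H9.LZero.no_basis B h2 h3

end Pool.Agent.S13812
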