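import Pool.Statements.S13824
import Pool.Agent.H32.Ell

set_option autoImplicit false
open Pool Pool.MP_ba31d6_gt

namespace Pool.Agent.S13824

/-- The negation of the preceding statement: For r ≥ 2, with N the maximum number of equiangular lines in R^r: a metric space embeds isometrically in elliptic space RP^(r-1) whenever all its subsets of at most N+1 points do, but this fails with N in place of N+1. -/
theorem result :
    ¬ (∀ r : ℕ, 2 ≤ r → ∀ N : ℕ,
    IsGreatest {n : ℕ | ∃ v : Fin n → EuclideanSpace ℝ (Fin r), ∃ c : ℝ, c < 1 ∧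
        (∀ i, ‖v i‖ = 1) ∧ ∀ i j, i ≠ j → |@inner ℝ _ _ (v i) (v j)| = c} N →
    ((∀ (M : Type) [MetricSpace M],
        (∀ s : Finset M, s.card ≤ N + 1 →
          ∃ f : M → EuclideanSpace ℝ (Fin r), (∀ x ∈ s, ‖f x‖ = 1) ∧
            ∀ x ∈ s, ∀ y ∈ s, Real.arccos |@inner ℝ _ _ (f x) (f y)| = dist x y) →
        ∃ f : M → EuclideanSpace ℝ (Fin r), (∀ x, ‖f x‖ = 1) ∧
          ∀ x y, Real.arccos |@inner ℝ _ _ (f x) (f y)| = dist x y) ∧
     ¬ (∀ (M : Type) [MetricSpace M],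
        (∀ s : Finset M, s.card ≤ N →
          ∃ f : M → EuclideanSpace ℝ (Fin r), (∀ x ∈ s, ‖f x‖ = 1) ∧
            ∀ x ∈ s, ∀ y ∈ s, Real.arccos |@inner ℝ _ _ (f x) (f y)| = dist x y) →
        ∃ f : M → EuclideanSpace ℝ (Fin r), (∀ x, ‖f x‖ = 1) ∧
          ∀ x y, Real.arccos |@inner ℝ _ _ (f x) (f y)| = dist x y))) := by
  intro H
  obtain ⟨N, hN, hg⟩ := Pool.Agent.H32.Ell.exists_greatest
  obtain ⟨f, h1, h2⟩ := (H 4 (by norm_num) N hg).1 Pool.Agent.H32.Ell.M
    fun s hs => Pool.Agent.H32.Ell.embed s (by omega)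
  exact Pool.Agent.H32.Ell.not_embed f h1 h2

end Pool.Agent.S13824
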