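import Pool.Statements.S13830
import Pool.Agent.H17.Cons

set_option autoImplicit false
open Pool Pool.MP_badb58_gt

namespace Pool.Agent.S13830

section
open Set Pool.Agent.H17.Cons

abbrev P : Type := {K : Set X // K.Nonempty ∧ IsCompact K ∧
  ∀ x : X, (∀ U : Set X, IsOpen U → K ⊆ U → x ∈ U) → x ∈ K}

def box (U : Set X) : Set P := {K | K.1 ⊆ U}

instance tP : TopologicalSpace P :=
  TopologicalSpace.generateFrom {S | ∃ U : Set X, IsOpen U ∧ S = {K : P | K.1 ⊆ U}}

theorem open_box {U : Set X} (hU : IsOpen U) : IsOpen (box U) :=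
  TopologicalSpace.isOpen_generateFrom_of_mem ⟨U, hU, rfl⟩

theorem box_mono {U V : Set X} (h : U ⊆ V) : box U ⊆ box V :=
  fun _ hK => Subset.trans hK h

def p (n k : ℕ) : P := ⟨{x | x = X.b ∨ x = X.s n k}, ⟨_, Or.inl rfl⟩,
  (toFinite ({X.b, X.s n k} : Set X)).isCompact, by
  intro x hx
  cases x with
  | b => exact Or.inl rfl
  | r m j =>
    rcases hx _ (open_b.union open_S1) (by
      rintro _ (rfl | rfl)
      · exact Or.inl rfl
      · exact Or.inr ⟨_, _, rfl⟩) with h | ⟨_, _, h⟩ <;> cases h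
  | s m j =>
    by_contra hne
    rcases hx _ (open_b.union (open_SB m j)) (by
      rintro _ (rfl | rfl)
      · exact Or.inl rfl
      · refine Or.inr ⟨_, _, rfl, ?_⟩
        rintro ⟨rfl, rfl⟩
        exact hne (Or.inr rfl)) with h | ⟨_, _, h, h'⟩
    · cases h
    · cases h; exact h' ⟨rfl, rfl⟩⟩

def q (n j : ℕ) : P := ⟨{x | x = X.r n j ∨ x ∈ S1}, ⟨_, Or.inl rfl⟩, by
  refine compact_of_pt (x := X.r n j) (Or.inl rfl) fun V hV hx => ?_
  refine Finite.subset finite_empty ?_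
  rintro x ⟨rfl | ⟨m, k, rfl⟩, hxV⟩
  · exact hxV hx
  · exact hxV ((hV.2 _ _ hx).2 _ _), by
  intro x hx
  cases x with
  | b =>
    refine absurd rfl (hx _ open_ne_b ?_)
    rintro _ (rfl | ⟨_, _, rfl⟩) h <;> cases h
  | s m k => exact Or.inr ⟨_, _, rfl⟩
  | r m k =>
    by_contra hne
    refine absurd rfl (hx _ (open_ne_r m k) ?_)
    rintro _ (rfl | ⟨_, _, rfl⟩) h
    · exact hne (Or.inl h.symm)
    · cases h⟩

theorem hp (W : Set P) (hW : IsOpen W) :
    ∀ n k, p n k ∈ W → ∀ n', ∃ f, ∀ k', f ≤ k' → p n' k' ∈ W := by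
  induction hW with
  | basic S hS =>
    obtain ⟨U, hU, rfl⟩ := hS
    intro n k h n'
    obtain ⟨f, hf⟩ := hU.1 n k (h (Or.inr rfl)) n'
    refine ⟨f, fun k' hk => ?_⟩
    rintro _ (rfl | rfl)
    · exact h (Or.inl rfl)
    · exact hf k' hk
  | univ => exact fun _ _ _ _ => ⟨0, fun _ _ => trivial⟩
  | inter S T _ _ h1 h2 =>
    intro n k h n'
    obtain ⟨f, hf⟩ := h1 n k h.1 n'
    obtain ⟨g, hg⟩ := h2 n k h.2 n'
    exact ⟨max f g, fun k' hk => ⟨hf k' (le_of_max_le_left hk), hg k' (le_of_max_le_right hk)⟩⟩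
  | sUnion S _ ih =>
    rintro n k ⟨T, hT, h⟩ n'
    obtain ⟨f, hf⟩ := ih T hT n k h n'
    exact ⟨f, fun k' hk => ⟨T, hT, hf k' hk⟩⟩

theorem hq (W : Set P) (hW : IsOpen W) :
    ∀ n j, q n j ∈ W → ∃ k, ∀ n' j', k ≤ j' → q n' j' ∈ W := by
  induction hW with
  | basic S hS =>
    obtain ⟨U, hU, rfl⟩ := hS
    intro n j h
    obtain ⟨f, hf⟩ := (hU.2 n j (h (Or.inl rfl))).1
    refine ⟨f, fun n' k' hk => ?_⟩
    rintro x (rfl | hx)
    · exact hf n' k' hk
    · exact h (Or.inr hx)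
  | univ => exact fun _ _ _ => ⟨0, fun _ _ _ => trivial⟩
  | inter S T _ _ h1 h2 =>
    intro n k h
    obtain ⟨f, hf⟩ := h1 n k h.1
    obtain ⟨g, hg⟩ := h2 n k h.2
    exact ⟨max f g, fun n' k' hk =>
      ⟨hf n' k' (le_of_max_le_left hk), hg n' k' (le_of_max_le_right hk)⟩⟩
  | sUnion S _ ih =>
    rintro n k ⟨T, hT, h⟩
    obtain ⟨f, hf⟩ := ih T hT n k h
    exact ⟨f, fun n' k' hk => ⟨T, hT, hf n' k' hk⟩⟩

def W0 : Set P := box ({X.b} ∪ S1) ∪ box {x | x ≠ X.b}

theorem W0_mem : W0 ∈ Bad p q := by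
  have h1 : ∀ n k, p n k ∈ W0 := by
    intro n k
    refine Or.inl ?_
    rintro _ (rfl | rfl)
    · exact Or.inl rfl
    · exact Or.inr ⟨_, _, rfl⟩
  refine ⟨(open_box (open_b.union open_S1)).union (open_box open_ne_b), ⟨0, 0, h1 0 0⟩,
    ⟨0, 0, Or.inr ?_⟩, fun j _ k _ => Or.inl (h1 j k)⟩
  rintro _ (rfl | ⟨_, _, rfl⟩) h <;> cases h

theorem no_compact (K : Set P) (hK : IsCompact K) (hKW : K ⊆ W0)
    (h : ∀ V : Set P, IsOpen V → K ⊆ V → V ∈ Bad p q) : False := by
  have h1 : ∃ N, ∀ m, ∀ C ∈ K, X.b ∈ C.1 → X.s N m ∉ C.1 := by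
    by_contra hcon
    push Not at hcon
    choose c C hCK hC using hcon
    obtain ⟨i, hi⟩ := cover_seq hK (fun i => box {x | x ≠ X.b} ∪ box ({X.b} ∪ SA c i))
      (fun i => (open_box open_ne_b).union (open_box (open_b.union (open_SA c i))))
      (fun a b hab => union_subset_union_right _ (box_mono (union_subset_union_right _ (by
        rintro x ⟨n, k, rfl, hx⟩
        exact ⟨n, k, rfl, fun hn => hx (hab.trans hn)⟩)))) (by
        intro D hD
        rcases hKW hD with hs | hb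
        · obtain ⟨i, hi⟩ := cover_seq D.2.2.1 (fun i => {X.b} ∪ SA c i)
            (fun i => open_b.union (open_SA c i))
            (fun a b hab => union_subset_union_right _ (by
              rintro x ⟨n, k, rfl, hx⟩
              exact ⟨n, k, rfl, fun hn => hx (hab.trans hn)⟩)) (by
              intro x hx
              rcases hs hx with hb | ⟨n, k, rfl⟩
              · exact mem_iUnion.2 ⟨0, Or.inl hb⟩
              · exact mem_iUnion.2 ⟨n + 1, Or.inr ⟨n, k, rfl, fun hn => by omega⟩⟩)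
          exact mem_iUnion.2 ⟨i, Or.inr hi⟩
        · exact mem_iUnion.2 ⟨0, Or.inl hb⟩)
    rcases hi (hCK i) with hb | hs
    · exact hb (hC i).1 rfl
    · rcases hs (hC i).2 with hb | ⟨n, k, h, hn⟩
      · cases hb
      · cases h; exact hn le_rfl rfl
  obtain ⟨N, hN⟩ := h1
  obtain ⟨m, hm⟩ := cover_seq hK (fun m => box ({X.b} ∪ S1) ∪ box (RA N m))
    (fun m => (open_box (open_b.union open_S1)).union (open_box (open_RA N m)))
    (fun a b hab => union_subset_union_right _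
      (box_mono fun x hx => ⟨hx.1, fun n hn => hx.2 n (hab.trans hn)⟩)) (by
      intro D hD
      rcases hKW hD with hs | hb
      · exact mem_iUnion.2 ⟨0, Or.inl hs⟩
      · obtain ⟨i, hi⟩ := cover_seq D.2.2.1 (fun m => RA N m) (fun m => open_RA N m)
          (fun a b hab x hx => ⟨hx.1, fun n hn => hx.2 n (hab.trans hn)⟩) (by
            intro x hx
            cases x with
            | b => exact absurd rfl (hb hx)
            | s n k => exact mem_iUnion.2 ⟨0, hb hx, fun _ _ h => by cases h⟩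
            | r n k => exact mem_iUnion.2 ⟨n + 1, hb hx, fun _ hn h => by cases h; omega⟩)
        exact mem_iUnion.2 ⟨i, Or.inr hi⟩)
  have hV := h (box ({X.b} ∪ SB N m) ∪ box (RA N m))
    ((open_box (open_b.union (open_SB N m))).union (open_box (open_RA N m))) (by
      intro C hC
      rcases hm hC with hs | hr
      · by_cases hb : X.b ∈ C.1
        · refine Or.inl fun x hx => ?_
          rcases hs hx with h | ⟨n, k, rfl⟩
          · exact Or.inl h
          · refine Or.inr ⟨n, k, rfl, ?_⟩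
            rintro ⟨rfl, rfl⟩
            exact hN _ C hC hb hx
        · refine Or.inr fun x hx => ?_
          rcases hs hx with h | ⟨n, k, rfl⟩
          · cases h; exact absurd hx hb
          · exact ⟨fun h => (by cases h), fun _ _ h => by cases h⟩
      · exact Or.inr hr)
  rcases hV.2.2.2 N m m le_rfl with (h | h) | (h | h)
  · rcases h (Or.inr rfl) with h | ⟨_, _, h, h'⟩
    · cases h
    · cases h; exact h' ⟨rfl, rfl⟩
  · exact (h (Or.inl rfl)).1 rfl
  · rcases h (Or.inl rfl) with h | ⟨_, _, h, -⟩ <;> cases h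
  · exact (h (Or.inl rfl)).2 m le_rfl rfl

end


/-- The negation of the preceding statement: For every consonant T0 space X, the space of nonempty compact saturated subsets of X, with the upper Vietoris topology generated by the sets {K : K ⊆ U} for U open, is again consonant. -/
theorem result :
    ¬ (∀ (Cons : (Y : Type) → TopologicalSpace Y → Prop),
    (∀ (Y : Type) (t : TopologicalSpace Y), Cons Y t ↔
      ∀ F : Set (Set Y), (∀ U ∈ F, @IsOpen Y t U) →
        (∀ U V : Set Y, U ∈ F → @IsOpen Y t V → U ⊆ V → V ∈ F) →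
        (∀ D : Set (Set Y), D.Nonempty → (∀ U ∈ D, @IsOpen Y t U) →
            DirectedOn (· ⊆ ·) D → ⋃₀ D ∈ F → ∃ U ∈ D, U ∈ F) →
        ∀ U ∈ F, ∃ K : Set Y, @IsCompact Y t K ∧ K ⊆ U ∧
          ∀ V : Set Y, @IsOpen Y t V → K ⊆ V → V ∈ F) →
    ∀ (X : Type) [TopologicalSpace X] [T0Space X], Cons X inferInstance →
      Cons {K : Set X // K.Nonempty ∧ IsCompact K ∧
              ∀ x : X, (∀ U : Set X, IsOpen U → K ⊆ U → x ∈ U) → x ∈ K}
        (TopologicalSpace.generateFrom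
          {S | ∃ U : Set X, IsOpen U ∧ S = {K | K.1 ⊆ U}})) := by
  intro H
  have hS := Pool.Agent.H17.Cons.scott_bad p q hp hq
  obtain ⟨K, hK, hKW, h⟩ := H _ (fun _ _ => Iff.rfl) Pool.Agent.H17.Cons.X
    (fun F h1 h2 h3 U hU => Pool.Agent.H17.Cons.consonant ⟨h1, h2, h3⟩ hU)
    (Pool.Agent.H17.Cons.Bad p q) hS.1 hS.2.1 hS.2.2 W0 W0_mem
  exact no_compact K hK hKW h

end Pool.Agent.S13830
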