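import Pool.Statements.S13875
-- import your own Pool.Agent.* helpers here

set_option autoImplicit false
open Pool Pool.MP_c1092b_gt

namespace Pool.Agent.S13875

@[ext] structure Pt where
  i : ℕ
  j : ℕ
  k : ℕ∞

def le' (x y : Pt) : Prop :=
  (x.i = y.i ∧ x.j = y.j ∧ x.k ≤ y.k) ∨ (y.i = x.i + 1 ∧ y.k = ⊤ ∧ x.k ≤ (y.j : ℕ∞))

instance : PartialOrder Pt where
  le := le'
  le_refl x := Or.inl ⟨rfl, rfl, le_rfl⟩
  le_trans x y z h1 h2 := by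
    rcases h1 with ⟨a, b, c⟩ | ⟨a, b, c⟩ <;> rcases h2 with ⟨d, e, f⟩ | ⟨d, e, f⟩
    · exact Or.inl ⟨a.trans d, b.trans e, c.trans f⟩
    · exact Or.inr ⟨by omega, e, c.trans f⟩
    · exact Or.inr ⟨by omega, by rw [b] at f; exact top_le_iff.1 f, e ▸ c⟩
    · rw [b] at f; simp at f
  le_antisymm x y h1 h2 := by
    rcases h1 with ⟨a, b, c⟩ | ⟨a, b, c⟩ <;> rcases h2 with ⟨d, e, f⟩ | ⟨d, e, f⟩
    · exact Pt.ext a b (le_antisymm c f)
    all_goals omega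

lemma le_iff (x y : Pt) : x ≤ y ↔
    (x.i = y.i ∧ x.j = y.j ∧ x.k ≤ y.k) ∨ (y.i = x.i + 1 ∧ y.k = ⊤ ∧ x.k ≤ (y.j : ℕ∞)) := Iff.rfl

lemma top_max {x y : Pt} (hx : x.k = ⊤) (h : x ≤ y) : y = x := by
  rcases h with ⟨a, b, c⟩ | ⟨a, b, c⟩
  · rw [hx] at c
    exact Pt.ext a.symm b.symm (by rw [hx]; exact top_le_iff.1 c)
  · rw [hx] at c; simp at c

lemma ub_col {i j : ℕ} {u : Pt} (h : ∀ n : ℕ, ∃ k : ℕ∞, (n : ℕ∞) ≤ k ∧ (⟨i, j, k⟩ : Pt) ≤ u) :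
    u = ⟨i, j, ⊤⟩ := by
  have key : ∀ n : ℕ, u.j < n → i = u.i ∧ j = u.j ∧ (n : ℕ∞) ≤ u.k := by
    intro n hn
    obtain ⟨k, hk, h⟩ := h n
    rcases h with ⟨a, b, c⟩ | ⟨a, b, c⟩
    · exact ⟨a, b, hk.trans c⟩
    · have := hk.trans c
      simp only [Nat.cast_le] at this
      omega
  obtain ⟨a, b, -⟩ := key (u.j + 1) (by omega)
  refine Pt.ext a.symm b.symm ?_
  by_contra hne
  obtain ⟨m, hm⟩ := ENat.ne_top_iff_exists.1 hne
  have := (key (u.j + 1 + m) (by omega)).2.2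
  rw [← hm] at this
  simp only [Nat.cast_le] at this
  omega

lemma dcpo (d : Set Pt) (hne : d.Nonempty) (hd : DirectedOn (· ≤ ·) d) : ∃ x, IsLUB d x := by
  by_cases h1 : ∃ x ∈ d, x.k = ⊤
  · obtain ⟨x, hx, hk⟩ := h1
    refine ⟨x, IsGreatest.isLUB ⟨hx, fun y hy => ?_⟩⟩
    obtain ⟨z, _, h2, h3⟩ := hd x hx y hy
    rw [top_max hk h2] at h3; exact h3
  push Not at h1
  obtain ⟨x0, hx0⟩ := hne
  have hcol : ∀ y ∈ d, y.i = x0.i ∧ y.j = x0.j := by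
    intro y hy
    obtain ⟨z, hz, h2, h3⟩ := hd x0 hx0 y hy
    rcases h2 with ⟨a, b, -⟩ | ⟨-, b, -⟩
    · rcases h3 with ⟨a', b', -⟩ | ⟨-, b', -⟩
      · exact ⟨a'.trans a.symm, b'.trans b.symm⟩
      · exact absurd b' (h1 z hz)
    · exact absurd b (h1 z hz)
  by_cases h2 : ∀ n : ℕ, ∃ y ∈ d, (n : ℕ∞) ≤ y.k
  · refine ⟨⟨x0.i, x0.j, ⊤⟩, fun y hy => Or.inl ⟨(hcol y hy).1, (hcol y hy).2, le_top⟩, fun u hu => ?_⟩
    rw [ub_col (i := x0.i) (j := x0.j) (u := u)]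
    intro n
    obtain ⟨y, hy, hn⟩ := h2 n
    refine ⟨y.k, hn, ?_⟩
    have : (⟨x0.i, x0.j, y.k⟩ : Pt) = y := Pt.ext (hcol y hy).1.symm (hcol y hy).2.symm rfl
    rw [this]; exact hu hy
  · push Not at h2
    obtain ⟨n, hn⟩ := h2
    have hfin : (Pt.k '' d).Finite := by
      refine (Set.finite_lt_nat n).image (fun m : ℕ => (m : ℕ∞)) |>.subset ?_
      rintro _ ⟨y, hy, rfl⟩
      obtain ⟨m, hm⟩ := ENat.ne_top_iff_exists.1 (h1 y hy)
      have := hn y hy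
      rw [← hm] at this
      exact ⟨m, by simpa using this, hm⟩
    obtain ⟨_, ⟨y, hy, rfl⟩, hmax⟩ := Set.exists_max_image _ id hfin ⟨_, x0, hx0, rfl⟩
    refine ⟨y, IsGreatest.isLUB ⟨hy, fun z hz => Or.inl ⟨(hcol z hz).1.trans (hcol y hy).1.symm,
      (hcol z hz).2.trans (hcol y hy).2.symm, hmax _ ⟨z, hz, rfl⟩⟩⟩⟩

lemma col_le (i j : ℕ) {a b : ℕ} (h : a ≤ b) : (⟨i, j, a⟩ : Pt) ≤ ⟨i, j, b⟩ :=
  Or.inl ⟨rfl, rfl, by simpa using h⟩

lemma le_coltop (x : Pt) : x ≤ ⟨x.i, x.j, ⊤⟩ := Or.inl ⟨rfl, rfl, le_top⟩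

def Op (U : Set Pt) : Prop :=
  IsUpperSet U ∧ ∀ i j : ℕ, (⟨i, j, ⊤⟩ : Pt) ∈ U → ∃ n : ℕ, (⟨i, j, n⟩ : Pt) ∈ U

@[reducible] def topo : TopologicalSpace Pt where
  IsOpen := Op
  isOpen_univ := ⟨isUpperSet_univ, fun _ _ _ => ⟨0, trivial⟩⟩
  isOpen_inter s t hs ht := by
    refine ⟨hs.1.inter ht.1, fun i j h => ?_⟩
    obtain ⟨a, ha⟩ := hs.2 i j h.1
    obtain ⟨b, hb⟩ := ht.2 i j h.2
    exact ⟨max a b, hs.1 (col_le i j (le_max_left a b)) ha, ht.1 (col_le i j (le_max_right a b)) hb⟩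
  isOpen_sUnion S hS := by
    refine ⟨isUpperSet_sUnion fun s hs => (hS s hs).1, fun i j ⟨s, hs, h⟩ => ?_⟩
    obtain ⟨n, hn⟩ := (hS s hs).2 i j h
    exact ⟨n, s, hs, hn⟩

lemma op_compl_Iic (x : Pt) : Op (Set.Iic x)ᶜ := by
  refine ⟨(isLowerSet_Iic x).compl, fun i j h => ?_⟩
  by_contra hc
  push Not at hc
  apply h
  have := ub_col (i := i) (j := j) (u := x) fun n => ⟨n, le_rfl, by simpa using hc n⟩
  rw [this]; exact Set.self_mem_Iic

lemma clos (x : Pt) : @closure Pt topo {x} = Set.Iic x := by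
  let _ := topo
  apply Set.Subset.antisymm
  · exact closure_minimal (by simp) ⟨op_compl_Iic x⟩
  · intro y hy
    rw [mem_closure_iff]
    intro o ho hyo
    exact ⟨x, (show Op o from ho).1 hy hyo, rfl⟩

lemma t0 : @T0Space Pt topo := by
  let _ := topo
  refine ⟨fun x y h => ?_⟩
  have h1 : closure ({x} : Set Pt) = closure {y} := inseparable_iff_closure_eq.1 h
  rw [clos, clos] at h1
  exact Set.Iic_injective h1

lemma bdd {K : Set Pt} (hK : @IsCompact Pt topo K) : ∃ M, ∀ x ∈ K, x.i < M := by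
  let _ := topo
  classical
  let p : ℕ → Pt := fun i => if h : ∃ x ∈ K, x.i = i then h.choose else ⟨i, 0, 0⟩
  have hp : ∀ i, (p i).i = i := by
    intro i
    by_cases h : ∃ x ∈ K, x.i = i
    · simp only [p, dif_pos h]; exact h.choose_spec.2
    · simp only [p, dif_neg h]
  have hpK : ∀ x ∈ K, p x.i ∈ K := by
    intro x hx
    have h : ∃ y ∈ K, y.i = x.i := ⟨x, hx, rfl⟩
    simp only [p, dif_pos h]; exact h.choose_spec.1
  let O : ℕ → Set Pt := fun M => {x | ∀ i, M ≤ i → ¬ x ≤ p i}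
  have hO : ∀ M, IsOpen (O M) := by
    intro M
    refine ⟨fun a b hab ha i hi hb => ha i hi (hab.trans hb), fun i j h => ?_⟩
    by_contra hc
    push Not at hc
    have key : ∀ n : ℕ, (p (i + 1)).j < n → M ≤ i ∧ (⟨i, j, n⟩ : Pt) ≤ p i := by
      intro n hn
      have := hc n
      simp only [O, Set.mem_ofPred_eq, not_forall, not_not] at this
      obtain ⟨i', hi', hle⟩ := this
      rcases hle with ⟨a, b, c⟩ | ⟨a, b, c⟩
      · have : i' = i := by rw [hp] at a; exact a.symm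
        subst this
        exact ⟨hi', Or.inl ⟨a, b, c⟩⟩
      · have : i' = i + 1 := by rw [hp] at a; exact a
        subst this
        simp only [Nat.cast_le] at c
        omega
    have h1 := ub_col (i := i) (j := j) (u := p i) fun n =>
      ⟨((p (i + 1)).j + 1 + n : ℕ), by simp, (key _ (by omega)).2⟩
    exact h i (key _ (Nat.lt_succ_self _)).1 (by rw [h1])
  have hcov : K ⊆ ⋃ M, O M := by
    intro x _
    refine Set.mem_iUnion.2 ⟨x.i + 2, fun i hi h => ?_⟩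
    rcases h with ⟨a, -⟩ | ⟨a, -⟩ <;> rw [hp] at a <;> omega
  obtain ⟨M, hM⟩ := hK.elim_directed_cover O hO hcov
    (Monotone.directed_le fun a b hab x hx i hi => hx i (hab.trans hi))
  refine ⟨M, fun x hx => ?_⟩
  by_contra hc
  exact hM (hpK x hx) x.i (by omega) le_rfl

lemma fincol {K : Set Pt} (hK : @IsCompact Pt topo K) (m : ℕ) (hm : ∀ x ∈ K, m ≤ x.i) :
    ∃ N, ∀ x ∈ K, x.i = m → x.j < N := by
  let _ := topo
  let O : ℕ → Set Pt := fun N => {x | m < x.i ∨ (x.i = m ∧ x.j < N)}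
  have hO : ∀ N, IsOpen (O N) := by
    intro N
    refine ⟨fun a b hab ha => ?_, fun i j h => ⟨0, h⟩⟩
    simp only [O, Set.mem_ofPred_eq] at ha ⊢
    rcases hab with ⟨a, b, -⟩ | ⟨a, -⟩ <;> omega
  have hcov : K ⊆ ⋃ N, O N := by
    intro x hx
    refine Set.mem_iUnion.2 ⟨x.j + 1, ?_⟩
    have := hm x hx
    simp only [O, Set.mem_ofPred_eq]
    omega
  obtain ⟨N, hN⟩ := hK.elim_directed_cover O hO hcov
    (Monotone.directed_le fun a b hab x hx => by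
      simp only [O, Set.mem_ofPred_eq] at hx ⊢
      omega)
  refine ⟨N, fun x hx h => ?_⟩
  have := hN hx
  simp only [O, Set.mem_ofPred_eq] at this
  omega

lemma wf (𝒦 : Set (Set Pt)) (hne : 𝒦.Nonempty) (hd : DirectedOn (· ⊇ ·) 𝒦)
    (hK : ∀ K ∈ 𝒦, @IsCompact Pt topo K ∧ IsUpperSet K) (U : Set Pt) (hU : @IsOpen Pt topo U)
    (hsub : ⋂₀ 𝒦 ⊆ U) : ∃ K ∈ 𝒦, K ⊆ U := by
  let _ := topo
  classical
  by_contra hc
  push Not at hc
  have hU' : Op U := hU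
  obtain ⟨K0, hK0⟩ := hne
  obtain ⟨M, hM⟩ := bdd (hK K0 hK0).1
  let Q : ℕ → Prop := fun m => ∃ K ∈ 𝒦, K ⊆ K0 ∧ ∀ x ∈ K, x ∉ U → m ≤ x.i
  have hQ0 : Q 0 := ⟨K0, hK0, subset_rfl, fun _ _ _ => Nat.zero_le _⟩
  have hQM : ∀ m, Q m → m < M := by
    rintro m ⟨K, hKK, hs, h⟩
    obtain ⟨x, hx, hxU⟩ := Set.not_subset.1 (hc K hKK)
    exact (h x hx hxU).trans_lt (hM x (hs hx))
  let m := Nat.findGreatest Q M
  have hQm : Q m := Nat.findGreatest_spec (Nat.zero_le M) hQ0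
  have hnQ : ¬ Q (m + 1) := fun h =>
    Nat.findGreatest_is_greatest (Nat.lt_succ_self m) (hQM _ h).le h
  obtain ⟨K1, hK1, hs1, h1⟩ := hQm
  obtain ⟨N, hN⟩ := fincol (((hK K1 hK1).1).inter_right hU.isClosed_compl) m
    (fun x hx => h1 x hx.1 hx.2)
  -- a finite set of test points
  have hcol : ∀ j, ∃ S : Set Pt, S.Finite ∧ (∀ s ∈ S, s ∉ U) ∧
      ∀ x : Pt, x.i = m → x.j = j → x ∉ U → ∃ s ∈ S, x ≤ s := by
    intro j
    by_cases h : (⟨m, j, ⊤⟩ : Pt) ∈ U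
    · obtain ⟨n, hn⟩ := hU'.2 m j h
      refine ⟨{s | s ∉ U ∧ s ∈ (fun k : ℕ => (⟨m, j, k⟩ : Pt)) '' {k | k < n}},
        ((Set.finite_lt_nat n).image _).subset fun s hs => hs.2, fun s hs => hs.1,
        fun x hi hj hx => ⟨x, ⟨hx, ?_⟩, le_rfl⟩⟩
      have hlt : x.k < n := by
        by_contra hge
        exact hx (hU'.1 (Or.inl ⟨hi.symm, hj.symm, not_lt.1 hge⟩) hn)
      obtain ⟨k, hk⟩ := ENat.ne_top_iff_exists.1 (ne_top_of_lt hlt)
      rw [← hk] at hlt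
      exact ⟨k, by simpa using hlt, Pt.ext hi.symm hj.symm hk⟩
    · exact ⟨{⟨m, j, ⊤⟩}, Set.finite_singleton _, by simpa using h,
        fun x hi hj _ => ⟨_, rfl, Or.inl ⟨hi, hj, le_top⟩⟩⟩
  choose S hSf hSU hS using hcol
  have hT : (⋃ j ∈ {j | j < N}, S j).Finite := (Set.finite_lt_nat N).biUnion fun j _ => hSf j
  have hall : ∀ T : Set Pt, T.Finite → (∀ s ∈ T, s ∉ U) → ∃ K ∈ 𝒦, K ⊆ K1 ∧ ∀ s ∈ T, s ∉ K := by
    intro T hT
    induction T, hT using Set.Finite.induction_on with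
    | empty => exact fun _ => ⟨K1, hK1, subset_rfl, by simp⟩
    | @insert a T _ _ ih =>
      intro h
      obtain ⟨K, hKK, hs, hT⟩ := ih fun s hs => h s (Set.mem_insert_of_mem _ hs)
      have : a ∉ ⋂₀ 𝒦 := fun h' => h a (Set.mem_insert _ _) (hsub h')
      simp only [Set.mem_sInter, not_forall] at this
      obtain ⟨K', hK', ha⟩ := this
      obtain ⟨K2, hK2, h2, h3⟩ := hd K hKK K' hK'
      refine ⟨K2, hK2, h2.trans hs, ?_⟩
      rintro s (rfl | hs')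
      · exact fun h => ha (h3 h)
      · exact fun h => hT s hs' (h2 h)
  obtain ⟨K, hKK, hs, hKT⟩ := hall _ hT (by
    intro s hs
    simp only [Set.mem_iUnion] at hs
    obtain ⟨j, -, hj⟩ := hs
    exact hSU j s hj)
  refine hnQ ⟨K, hKK, hs.trans hs1, fun x hx hxU => ?_⟩
  have h2 := h1 x (hs hx) hxU
  by_contra h3
  have h4 : x.i = m := by omega
  obtain ⟨s, hsS, hxs⟩ := hS x.j x h4 rfl hxU
  exact hKT s (Set.mem_biUnion (hN x ⟨hs hx, hxU⟩ h4) hsS) ((hK K hKK).2 hxs hx)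

lemma nosober (t : TopologicalSpace Pt) (hc : ∀ x : Pt, closure {x} = Set.Iic x)
    [QuasiSober Pt] : False := by
  have hup : ∀ U : Set Pt, IsOpen U → IsUpperSet U := by
    intro U hU a b hab ha
    have : a ∈ closure ({b} : Set Pt) := by rw [hc]; exact hab
    obtain ⟨z, hz, rfl⟩ := mem_closure_iff.1 this U hU ha
    exact hz
  have hop : ∀ U : Set Pt, IsOpen U → Op U := by
    intro U hU
    refine ⟨hup U hU, fun i j h => ?_⟩
    let C : Set Pt := Set.range fun n : ℕ => (⟨i, j, n⟩ : Pt)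
    have hC : IsIrreducible C := by
      refine ⟨⟨_, 0, rfl⟩, ?_⟩
      rintro u v hu hv ⟨_, ⟨a, rfl⟩, ha⟩ ⟨_, ⟨b, rfl⟩, hb⟩
      exact ⟨_, ⟨max a b, rfl⟩, hup u hu (col_le i j (le_max_left a b)) ha,
        hup v hv (col_le i j (le_max_right a b)) hb⟩
    obtain ⟨x, hx⟩ := QuasiSober.sober hC.closure isClosed_closure
    have hx' : closure ({x} : Set Pt) = closure C := hx
    have h1 : x = ⟨i, j, ⊤⟩ := ub_col fun n => ⟨n, le_rfl, by
      have : (⟨i, j, n⟩ : Pt) ∈ closure C := subset_closure ⟨n, rfl⟩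
      rw [← hx', hc] at this; exact this⟩
    have h2 : x ∈ closure C := by rw [← hx']; exact subset_closure rfl
    obtain ⟨_, hz, n, rfl⟩ := mem_closure_iff.1 h2 U hU (h1 ▸ h)
    exact ⟨n, hz⟩
  have hlev : ∀ U : Set Pt, Op U → ∀ x ∈ U, ∀ d : ℕ, ∃ N : ℕ, ∀ j, N ≤ j →
      (⟨x.i + d + 1, j, ⊤⟩ : Pt) ∈ U := by
    intro U hU x hx d
    have step : ∀ i j, (⟨i, j, ⊤⟩ : Pt) ∈ U → ∃ N : ℕ, ∀ j, N ≤ j → (⟨i + 1, j, ⊤⟩ : Pt) ∈ U := by
      intro i j h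
      obtain ⟨n, hn⟩ := hU.2 i j h
      exact ⟨n, fun j' hj' => hU.1 (Or.inr ⟨rfl, rfl, by simpa using hj'⟩) hn⟩
    induction d with
    | zero => exact step x.i x.j (hU.1 (le_coltop x) hx)
    | succ d ih =>
      obtain ⟨N, hN⟩ := ih
      exact step _ N (hN N le_rfl)
  have hirr : IsIrreducible (Set.univ : Set Pt) := by
    refine ⟨⟨⟨0, 0, 0⟩, trivial⟩, ?_⟩
    rintro u v hu hv ⟨x, -, hx⟩ ⟨y, -, hy⟩
    obtain ⟨N1, h1⟩ := hlev u (hop u hu) x hx y.i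
    obtain ⟨N2, h2⟩ := hlev v (hop v hv) y hy x.i
    refine ⟨⟨x.i + y.i + 1, max N1 N2, ⊤⟩, trivial, h1 _ (le_max_left _ _), ?_⟩
    rw [add_comm x.i]
    exact h2 _ (le_max_right _ _)
  obtain ⟨x, hx⟩ := QuasiSober.sober hirr isClosed_univ
  have hx' : closure ({x} : Set Pt) = Set.univ := hx
  rw [hc] at hx'
  have h0 : x = ⟨0, 0, ⊤⟩ := top_max rfl (show _ ∈ Set.Iic x by rw [hx']; trivial)
  have h1 : x = ⟨0, 1, ⊤⟩ := top_max rfl (show _ ∈ Set.Iic x by rw [hx']; trivial)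
  have := congrArg Pt.j (h0.symm.trans h1)
  simp at this

/-- There is a dcpo with a well-filtered T0 topology whose point closures are the principal down-sets, while no sober topology on it has point closures equal to the principal down-sets. -/
theorem result :
    ∃ (P : Type) (_ : PartialOrder P),
      (∀ d : Set P, d.Nonempty → DirectedOn (· ≤ ·) d → ∃ x : P, IsLUB d x) ∧
      (∃ t : TopologicalSpace P,
        (∀ x : P, @closure P t {x} = Set.Iic x) ∧ @T0Space P t ∧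
        (∀ 𝒦 : Set (Set P), 𝒦.Nonempty → DirectedOn (· ⊇ ·) 𝒦 →
          (∀ K ∈ 𝒦, @IsCompact P t K ∧ IsUpperSet K) →
          ∀ U : Set P, @IsOpen P t U → ⋂₀ 𝒦 ⊆ U → ∃ K ∈ 𝒦, K ⊆ U)) ∧
      ¬ ∃ t : TopologicalSpace P,
        (∀ x : P, @closure P t {x} = Set.Iic x) ∧ @T0Space P t ∧ @QuasiSober P t := by
  refine ⟨Pt, inferInstance, dcpo, ⟨topo, clos, t0, wf⟩, ?_⟩
  rintro ⟨t, h1, -, h3⟩
  exact @nosober t h1 h3

end Pool.Agent.S13875
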