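import Pool.Statements.S13885

set_option autoImplicit false
open Pool Pool.MP_c36963_gt

namespace Pool.Agent.S13885

open Classical in
noncomputable def rr (z : ℂ) : ℂ := if ‖z‖ = 1 then z else 1

theorem result :
    ∃ r : ℂ → ℂ,
      (∀ z ∈ Metric.closedBall (0:ℂ) 1, r z ∈ Metric.sphere (0:ℂ) 1) ∧
      (∀ y ∈ Metric.sphere (0:ℂ) 1, r y = y) ∧
      (∀ y ∈ Metric.sphere (0:ℂ) 1,
        IsConnected {z : ℂ | z ∈ Metric.closedBall (0:ℂ) 1 ∧ r z = y}) ∧
      Set.Finite {y : ℂ | y ∈ Metric.sphere (0:ℂ) 1 ∧
        ¬ (∀ s : ℕ → ℂ, (∀ n, s n ∈ Metric.sphere (0:ℂ) 1) →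
            Filter.Tendsto s Filter.atTop (nhds y) →
            ∀ x : ℂ, (∀ ε : ℝ, ε > 0 → ∀ N : ℕ, ∃ n : ℕ, n ≥ N ∧
                ∃ z : ℂ, z ∈ Metric.closedBall (0:ℂ) 1 ∧ r z = s n ∧ dist z x < ε) →
              r x = y)} := by
  refine ⟨rr, ?_, ?_, ?_, ?_⟩
  · intro z _
    unfold rr
    split_ifs with h
    · simpa using h
    · simp
  · intro y hy
    have : ‖y‖ = 1 := by simpa using hy
    simp [rr, this]
  · intro y hy
    have hy1 : ‖y‖ = 1 := by simpa using hy
    by_cases h : y = 1
    · subst h
      have h1 : IsConnected (Metric.ball (0 : ℂ) 1) := Metric.isConnected_ball one_pos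
      refine h1.subset_closure ?_ ?_
      · intro z hz
        have : ‖z‖ < 1 := by simpa using hz
        exact ⟨Metric.ball_subset_closedBall hz, by simp [rr, this.ne]⟩
      · rw [closure_ball _ one_ne_zero]
        exact fun z hz => hz.1
    · have : {z : ℂ | z ∈ Metric.closedBall (0:ℂ) 1 ∧ rr z = y} = {y} := by
        ext z
        simp only [Set.mem_setOf_eq, Set.mem_singleton_iff]
        constructor
        · rintro ⟨_, h2⟩
          unfold rr at h2
          split_ifs at h2 with h3
          · exact h2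
          · exact absurd h2.symm h
        · rintro rfl
          exact ⟨by simp [hy1], by simp [rr, hy1]⟩
      rw [this]
      exact isConnected_singleton
  · refine (Set.finite_singleton (1 : ℂ)).subset ?_
    rintro y ⟨hy, hn⟩
    by_contra h
    have h : y ≠ 1 := h
    apply hn
    intro s hs ht x hx
    have hy1 : ‖y‖ = 1 := by simpa using hy
    have hxy : x = y := by
      apply eq_of_forall_dist_le
      intro ε hε
      have e1 := (ht.eventually_ne h).and
        (ht.eventually (Metric.ball_mem_nhds y (half_pos hε)))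
      obtain ⟨N, hN⟩ := Filter.eventually_atTop.mp e1
      obtain ⟨n, hn, z, _, hz2, hz3⟩ := hx (ε / 2) (half_pos hε) N
      obtain ⟨a1, a2⟩ := hN n hn
      have hz : z = s n := by
        unfold rr at hz2
        split_ifs at hz2 with h3
        · exact hz2
        · exact absurd hz2.symm a1
      have a3 : dist (s n) y < ε / 2 := a2
      rw [hz] at hz3
      calc dist x y ≤ dist x (s n) + dist (s n) y := dist_triangle _ _ _
        _ ≤ ε := by rw [dist_comm x]; linarith
    rw [hxy]
    simp [rr, hy1]

end Pool.Agent.S13885
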