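import Pool.Statements.S13903
-- import your own Pool.Agent.* helpers here

set_option autoImplicit false
open Pool Pool.MP_c502b8_gt

namespace Pool.Agent.S13903

/-- If G is a countably compact topological group whose closed subgroups are all separable, and H is a topological group with a countable network, then every closed subgroup of G × H is separable. -/
theorem result :
    ∀ (G H : Type) [Group G] [TopologicalSpace G] [IsTopologicalGroup G]
      [Group H] [TopologicalSpace H] [IsTopologicalGroup H],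
      (∀ U : ℕ → Set G, (∀ n, IsOpen (U n)) → Set.univ ⊆ ⋃ n, U n →
          ∃ s : Finset ℕ, Set.univ ⊆ ⋃ n ∈ s, U n) →
      (∀ K : Subgroup G, IsClosed (K : Set G) → TopologicalSpace.SeparableSpace ↥K) →
      (∃ N : Set (Set H), N.Countable ∧
          ∀ (x : H) (U : Set H), IsOpen U → x ∈ U → ∃ A ∈ N, x ∈ A ∧ A ⊆ U) →
      ∀ K : Subgroup (G × H), IsClosed (K : Set (G × H)) →
        TopologicalSpace.SeparableSpace ↥K := by
  intro G H _ _ _ _ _ _ hcc hsep ⟨N, hN, hnet⟩ K hK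
  classical
  have hinl : Continuous (MonoidHom.inl G H) := by
    show Continuous fun g : G => ((g, 1) : G × H)
    fun_prop
  haveI := hsep (K.comap (MonoidHom.inl G H)) (hK.preimage hinl)
  obtain ⟨D₀, hD₀c, hD₀⟩ := TopologicalSpace.exists_countable_dense ↥(K.comap (MonoidHom.inl G H))
  rw [Subtype.dense_iff] at hD₀
  have hch : ∀ F : Set (Set H), ∃ c ∈ K, (∃ k ∈ K, k.2 ∈ ⋂₀ F) → c.2 ∈ ⋂₀ F := by
    intro F
    by_cases h : ∃ k ∈ K, k.2 ∈ ⋂₀ F
    · obtain ⟨k, hk, hkF⟩ := h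
      exact ⟨k, hk, fun _ => hkF⟩
    · exact ⟨1, K.one_mem, fun h' => absurd h' h⟩
  choose c hcK hc using hch
  set C : Set (G × H) := c '' {F | F.Finite ∧ F ⊆ N} with hC
  have hCc : C.Countable := (Set.countable_setOf_finite_subset hN).image c
  set E : Set (G × H) := (MonoidHom.inl G H) '' (Subtype.val '' D₀) with hE
  have hEc : E.Countable := (hD₀c.image _).image _
  have hCK : C ⊆ K := by rintro _ ⟨F, -, rfl⟩; exact hcK F
  have hEK : E ⊆ K := by rintro _ ⟨_, ⟨d, -, rfl⟩, rfl⟩; exact d.2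
  set D : Set (G × H) := Set.image2 (· * ·) C E with hD
  have hDK : D ⊆ K := by
    rintro _ ⟨a, ha, b, hb, rfl⟩
    exact K.mul_mem (hCK ha) (hEK hb)
  refine ⟨⟨Subtype.val ⁻¹' D, (hCc.image2 hEc _).preimage Subtype.val_injective, ?_⟩⟩
  rw [Subtype.dense_iff]
  refine Set.Subset.trans ?_ (closure_mono (s := D) fun x hx => ⟨⟨x, hDK hx⟩, hx, rfl⟩)
  rintro ⟨g₀, h⟩ hk
  obtain ⟨A, hA⟩ := (hN.mono (Set.sep_subset N (fun A => h ∈ A))).exists_eq_range (by
    obtain ⟨A, hA, hh, -⟩ := hnet h Set.univ isOpen_univ trivial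
    exact ⟨A, hA, hh⟩)
  have hA1 : ∀ n, A n ∈ N ∧ h ∈ A n := fun n => by
    have : A n ∈ {A ∈ N | h ∈ A} := by rw [hA]; exact ⟨n, rfl⟩
    exact this
  let e : ℕ → G × H := fun n => c (A '' Set.Iic n)
  have heC : ∀ n, e n ∈ C := fun n =>
    ⟨_, ⟨(Set.finite_Iic n).image A, by rintro _ ⟨m, -, rfl⟩; exact (hA1 m).1⟩, rfl⟩
  have he : ∀ n m, m ≤ n → (e n).2 ∈ A m := fun n m hm =>
    hc (A '' Set.Iic n) ⟨(g₀, h), hk, by rintro _ ⟨j, -, rfl⟩; exact (hA1 j).2⟩ _ ⟨m, hm, rfl⟩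
  obtain ⟨g, hg⟩ : ∃ g : G, ∀ n, g ∈ closure ((fun m => (e m).1) '' Set.Ici n) := by
    by_contra hcon
    push Not at hcon
    obtain ⟨s, hs⟩ := hcc (fun n => (closure ((fun m => (e m).1) '' Set.Ici n))ᶜ)
      (fun n => isClosed_closure.isOpen_compl) (fun x _ => Set.mem_iUnion.2 (hcon x))
    obtain ⟨n, hn, hx⟩ := Set.mem_iUnion₂.1 (hs (Set.mem_univ (e (s.sup id)).1))
    exact hx (subset_closure ⟨s.sup id, Finset.le_sup (f := id) hn, rfl⟩)
  have h1 : (g, h) ∈ closure C := by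
    rw [mem_closure_iff_nhds]
    intro t ht
    obtain ⟨V, hV, W, hW, hVW⟩ := mem_nhds_prod_iff.1 ht
    obtain ⟨W', hW', hWo, hhW⟩ := mem_nhds_iff.1 hW
    obtain ⟨B, hB, hhB, hBW⟩ := hnet h W' hWo hhW
    have : B ∈ Set.range A := by rw [← hA]; exact ⟨hB, hhB⟩
    obtain ⟨n, rfl⟩ := this
    obtain ⟨_, hx, m, hm, rfl⟩ := mem_closure_iff_nhds.1 (hg n) V hV
    exact ⟨e m, hVW ⟨hx, hW' (hBW (he m n hm))⟩, heC m⟩
  have h2 : (g, h) ∈ K := hK.closure_subset_iff.2 hCK h1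
  have h3 : g⁻¹ * g₀ ∈ K.comap (MonoidHom.inl G H) := by
    have := K.mul_mem (K.inv_mem h2) hk
    simpa using this
  have h4 : (MonoidHom.inl G H) (g⁻¹ * g₀) ∈ closure E :=
    image_closure_subset_closure_image hinl ⟨_, hD₀ h3, rfl⟩
  have h5 : (g, h) * (MonoidHom.inl G H) (g⁻¹ * g₀) ∈ closure D :=
    map_mem_closure₂ continuous_mul h1 h4 (fun a ha b hb => Set.mem_image2_of_mem ha hb)
  simpa using h5

end Pool.Agent.S13903
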