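import Pool.Statements.S13915
import Pool.Agent.H17.Ksd

set_option autoImplicit false
open Pool Pool.MP_c67c46_gt

namespace Pool.Agent.S13915

/-- For Tychonoff X, Y: if X is a countable intersection of σ-compact sets in some compact Hausdorff space containing it, and C_p(X), C_p(Y) are linearly homeomorphic in the pointwise topology, then Y has the same property. -/
theorem result :
  ∀ (X Y : Type) [TopologicalSpace X] [TopologicalSpace Y] [T35Space X] [T35Space Y],
    (∃ (K : Type) (_ : TopologicalSpace K), CompactSpace K ∧ T2Space K ∧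
      ∃ e : X → K, Topology.IsEmbedding e ∧
        ∃ A : ℕ → ℕ → Set K, (∀ n m, IsCompact (A n m)) ∧ Set.range e = ⋂ n, ⋃ m, A n m) →
    (∃ L : C(X, ℝ) ≃ₗ[ℝ] C(Y, ℝ),
      @Continuous C(X, ℝ) C(Y, ℝ)
        (TopologicalSpace.induced (fun f : C(X, ℝ) => (f : X → ℝ)) inferInstance)
        (TopologicalSpace.induced (fun g : C(Y, ℝ) => (g : Y → ℝ)) inferInstance)
        (fun f => L f) ∧
      @Continuous C(Y, ℝ) C(X, ℝ)
        (TopologicalSpace.induced (fun g : C(Y, ℝ) => (g : Y → ℝ)) inferInstance)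
        (TopologicalSpace.induced (fun f : C(X, ℝ) => (f : X → ℝ)) inferInstance)
        (fun g => L.symm g)) →
    (∃ (K : Type) (_ : TopologicalSpace K), CompactSpace K ∧ T2Space K ∧
      ∃ e : Y → K, Topology.IsEmbedding e ∧
        ∃ A : ℕ → ℕ → Set K, (∀ n m, IsCompact (A n m)) ∧ Set.range e = ⋂ n, ⋃ m, A n m) := by
  rintro X Y _ _ _ _ ⟨K, _, _, _, e, he, A, hA, hr⟩ ⟨L, h1, h2⟩
  have cv : ∀ {U V : Type} [TopologicalSpace U] [TopologicalSpace V] (F : C(U, ℝ) → C(V, ℝ)),
      @Continuous C(U, ℝ) C(V, ℝ)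
        (TopologicalSpace.induced (fun f : C(U, ℝ) => (f : U → ℝ)) inferInstance)
        (TopologicalSpace.induced (fun g : C(V, ℝ) => (g : V → ℝ)) inferInstance) F →
      Continuous fun f : H17.TE.Cp U => (⟨F ⟨f.1, f.2⟩, (F _).continuous⟩ : H17.TE.Cp V) := by
    intro U V _ _ F hF
    refine Continuous.subtype_mk ?_ _
    exact @Continuous.comp _ _ _ _
      (TopologicalSpace.induced (fun f : C(U, ℝ) => (f : U → ℝ)) inferInstance) _ _ _
      (continuous_induced_rng.1 hF) (continuous_induced_rng.2 continuous_subtype_val)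
  obtain ⟨B, b1, b2⟩ := H17.Ksd.main he.isInducing (cv _ h1)
    (fun f g h e => by
      have : (⟨f.1, f.2⟩ : C(X, ℝ)) = ⟨g.1, g.2⟩ + ⟨h.1, h.2⟩ := ContinuousMap.coe_injective e
      simp [this])
    (fun c f g e => by
      have : (⟨g.1, g.2⟩ : C(X, ℝ)) = c • ⟨f.1, f.2⟩ := ContinuousMap.coe_injective e
      simp [this])
    (cv _ h2) (fun h => Subtype.ext (congrArg DFunLike.coe (L.apply_symm_apply ⟨h.1, h.2⟩)))
    (congrArg DFunLike.coe (map_zero L.symm)) hA hr
  exact ⟨StoneCech Y, inferInstance, inferInstance, inferInstance, _, isEmbedding_stoneCechUnit,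
    B, b1, b2⟩

end Pool.Agent.S13915
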