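import Pool.Statements.S13946
-- import your own Pool.Agent.* helpers here

set_option autoImplicit false
open Pool Pool.MP_cb3f7b_gt

namespace Pool.Agent.S13946

theorem key {c s C S : ℝ} (h1 : c ^ 2 + s ^ 2 = 1) (h2 : C ^ 2 + S ^ 2 = 1) :
    (2 * (6 + c ^ 2 * s ^ 2) * (c * C + s * S) + 2 * c * s * (c ^ 2 - s ^ 2) * (c * S - s * C)) ^ 2 ≤
      4 * (6 + c ^ 2 * s ^ 2) * (6 + C ^ 2 * S ^ 2) := by
  obtain ⟨a, ha⟩ : ∃ a, a = c * C + s * S := ⟨_, rfl⟩
  obtain ⟨b, hb⟩ : ∃ b, b = c * S - s * C := ⟨_, rfl⟩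
  have h3 : a ^ 2 + b ^ 2 = 1 := by rw [ha, hb]; linear_combination (C ^ 2 + S ^ 2) * h1 + h2
  have hC : C = c * a - s * b := by rw [ha, hb]; linear_combination (-C) * h1
  have hS : S = s * a + c * b := by rw [ha, hb]; linear_combination (-S) * h1
  rw [← ha, ← hb]
  obtain ⟨m, hm⟩ : ∃ m, m = c * s := ⟨_, rfl⟩
  obtain ⟨n, hn⟩ : ∃ n, n = c ^ 2 - s ^ 2 := ⟨_, rfl⟩
  have h4 : n ^ 2 + 4 * m ^ 2 = 1 := by rw [hm, hn]; linear_combination (c ^ 2 + s ^ 2 + 1) * h1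
  have e1 : C * S = m * (a ^ 2 - b ^ 2) + n * a * b := by rw [hC, hS, hm, hn]; ring
  have e2 : C ^ 2 * S ^ 2 = (m * (1 - 2 * b ^ 2) + n * a * b) ^ 2 := by
    rw [← mul_pow, e1, show a ^ 2 - b ^ 2 = 1 - 2 * b ^ 2 by linarith]
  have e3 : c ^ 2 * s ^ 2 = m ^ 2 := by rw [hm]; ring
  rw [e2, e3, mul_assoc 2 c s, ← hm, ← hn]
  have e4 : 4 * (6 + m ^ 2) * (6 + (m * (1 - 2 * b ^ 2) + n * a * b) ^ 2) -
      (2 * (6 + m ^ 2) * a + 2 * m * n * b) ^ 2 =
      b ^ 2 * (4 * (6 + m ^ 2) * (6 + m ^ 2 - 4 * m ^ 2 * a ^ 2 + n ^ 2 * a ^ 2 -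
        4 * m * n * a * b) - 4 * m ^ 2 * n ^ 2) := by
    linear_combination (-4 * (6 + m ^ 2) ^ 2 + 16 * (6 + m ^ 2) * m ^ 2 * b ^ 2) * h3
  have g1 : 4 * m ^ 2 * a ^ 2 ≤ 1 := by nlinarith [sq_nonneg n, sq_nonneg b, sq_nonneg a, sq_nonneg m]
  have g2 : 4 * m * n * a * b ≤ 1 := by
    have : (n * a) ^ 2 + (2 * m * b) ^ 2 ≤ 1 := by
      nlinarith [mul_nonneg (sq_nonneg n) (sq_nonneg b), mul_nonneg (sq_nonneg m) (sq_nonneg a)]
    nlinarith [sq_nonneg (n * a - 2 * m * b)]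
  have g3 : 4 * m ^ 2 * n ^ 2 ≤ 1 := by nlinarith [sq_nonneg n, sq_nonneg m]
  have g4 : 4 ≤ 6 + m ^ 2 - 4 * m ^ 2 * a ^ 2 + n ^ 2 * a ^ 2 - 4 * m * n * a * b := by
    nlinarith [sq_nonneg m, sq_nonneg (n * a)]
  have g5 := mul_le_mul (show (4 : ℝ) ≤ 4 * (6 + m ^ 2) by nlinarith [sq_nonneg m]) g4
    (by norm_num) (by positivity)
  have g6 := mul_nonneg (sq_nonneg b) (show 0 ≤ 4 * (6 + m ^ 2) * (6 + m ^ 2 - 4 * m ^ 2 * a ^ 2 +
    n ^ 2 * a ^ 2 - 4 * m * n * a * b) - 4 * m ^ 2 * n ^ 2 by linarith)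
  linarith

abbrev E2 := EuclideanSpace ℝ (Fin 2)

def Ell (α β : ℝ) : Set E2 := {z | α * z 0 ^ 2 + β * z 1 ^ 2 ≤ 30}

def KK : Set E2 := {z | ∀ c s : ℝ, c ^ 2 + s ^ 2 = 1 → c * z 0 + s * z 1 ≤ √(6 + c ^ 2 * s ^ 2)}

theorem norm_sq2 (z : E2) : ‖z‖ ^ 2 = z 0 ^ 2 + z 1 ^ 2 := by
  rw [EuclideanSpace.real_norm_sq_eq, Fin.sum_univ_two]

theorem chord {α β c s p : ℝ} (hA : 0 < α * s ^ 2 + β * c ^ 2) (h1 : c ^ 2 + s ^ 2 = 1)
    (h2 : 30 * (α * s ^ 2 + β * c ^ 2) - α * β * p ^ 2 = 6 * (α * s ^ 2 + β * c ^ 2) ^ 2) :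
    MeasureTheory.Measure.hausdorffMeasure 1 (Ell α β ∩ {z | c * z 0 + s * z 1 = p}) =
      ENNReal.ofReal (2 * √6) := by
  set A := α * s ^ 2 + β * c ^ 2 with hAd
  set m := -(p * c * s * (β - α)) / A with hm
  have hm' : m * A = -(p * c * s * (β - α)) := div_mul_cancel₀ _ hA.ne'
  set r := √6 with hr
  have r0 : 0 < r := by positivity
  have r2 : r ^ 2 = 6 := Real.sq_sqrt (by norm_num)
  set f : ℝ → E2 := fun t => !₂[p * c - t * s, p * s + t * c] with hf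
  have q : ∀ t, α * (p * c - t * s) ^ 2 + β * (p * s + t * c) ^ 2 ≤ 30 ↔ |t - m| ≤ r := by
    intro t
    have e : A * (α * (p * c - t * s) ^ 2 + β * (p * s + t * c) ^ 2 - 30) =
        A ^ 2 * ((t - m) ^ 2 - r ^ 2) := by
      rw [r2]
      have : A ^ 2 * ((t - m) ^ 2 - 6) = (t * A - m * A) ^ 2 - 6 * A ^ 2 := by ring
      rw [this, hm', ← h2, hAd]
      linear_combination (α * β * p ^ 2 * (c ^ 2 + s ^ 2 + 1)) * h1
    rw [← sq_le_sq₀ (abs_nonneg _) r0.le, sq_abs]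
    constructor
    · intro h
      by_contra h'
      have := mul_pos (pow_pos hA 2) (show 0 < (t - m) ^ 2 - r ^ 2 by linarith)
      nlinarith
    · intro h
      by_contra h'
      have := mul_pos hA (show 0 < α * (p * c - t * s) ^ 2 + β * (p * s + t * c) ^ 2 - 30 by linarith)
      nlinarith [pow_pos hA 2]
  have g : ∀ θ : ℝ, f (m - r) + θ • (f (m + r) - f (m - r)) = f (m - r + 2 * r * θ) := by
    intro θ
    ext i; fin_cases i <;> simp [hf] <;> ring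
  have e : Ell α β ∩ {z | c * z 0 + s * z 1 = p} = segment ℝ (f (m - r)) (f (m + r)) := by
    rw [segment_eq_image']
    ext z
    simp only [g]
    constructor
    · rintro ⟨a1, a2⟩
      have a2' : c * z 0 + s * z 1 = p := a2
      have e0 : z 0 = p * c - (c * z 1 - s * z 0) * s := by
        rw [← a2']; linear_combination (-z 0) * h1
      have e1 : z 1 = p * s + (c * z 1 - s * z 0) * c := by
        rw [← a2']; linear_combination (-z 1) * h1
      have a3 := abs_le.1 ((q (c * z 1 - s * z 0)).1 (by rw [← e0, ← e1]; exact a1))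
      refine ⟨(c * z 1 - s * z 0 - m + r) / (2 * r), ⟨div_nonneg (by linarith [a3.1]) (by positivity),
        (div_le_one (by positivity)).2 (by linarith [a3.2])⟩, ?_⟩
      have : m - r + 2 * r * ((c * z 1 - s * z 0 - m + r) / (2 * r)) = c * z 1 - s * z 0 := by
        field_simp; ring
      simp only [this]
      ext i; fin_cases i
      · exact e0.symm
      · exact e1.symm
    · rintro ⟨θ, ⟨t0, t1⟩, rfl⟩
      refine ⟨(q (m - r + 2 * r * θ)).2 (abs_le.2 ⟨by nlinarith, by nlinarith⟩), ?_⟩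
      show c * (p * c - _ * s) + s * (p * s + _ * c) = p
      linear_combination p * h1
  rw [e, MeasureTheory.hausdorffMeasure_segment, edist_dist, dist_eq_norm]
  congr 1
  rw [← sq_eq_sq₀ (norm_nonneg _) (by positivity), norm_sq2]
  simp only [hf, PiLp.sub_apply, Matrix.cons_val_zero, Matrix.cons_val_one]
  linear_combination (4 * r ^ 2) * h1

theorem ell_props {α β : ℝ} (ha : 2 ≤ α) (ha' : α ≤ 3) (hb : 2 ≤ β) (hb' : β ≤ 3) :
    Convex ℝ (Ell α β) ∧ IsCompact (Ell α β) ∧ Metric.ball 0 3 ⊆ interior (Ell α β) := by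
  refine ⟨fun x hx y hy a b h0 h1 h2 => ?_, Metric.isCompact_of_isClosed_isBounded
    (isClosed_le (by fun_prop) continuous_const) ?_, interior_maximal (fun z hz => ?_)
      Metric.isOpen_ball⟩
  · have hx' : α * x 0 ^ 2 + β * x 1 ^ 2 ≤ 30 := hx
    have hy' : α * y 0 ^ 2 + β * y 1 ^ 2 ≤ 30 := hy
    show α * (a * x 0 + b * y 0) ^ 2 + β * (a * x 1 + b * y 1) ^ 2 ≤ 30
    have e : ∀ u v : ℝ, (a * u + b * v) ^ 2 ≤ a * u ^ 2 + b * v ^ 2 := fun u v => by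
      have : a * u ^ 2 + b * v ^ 2 - (a * u + b * v) ^ 2 = a * b * (u - v) ^ 2 := by
        obtain rfl : b = 1 - a := by linarith
        ring
      nlinarith [mul_nonneg (mul_nonneg h0 h1) (sq_nonneg (u - v))]
    have e1 := mul_le_mul_of_nonneg_left (e (x 0) (y 0)) (show 0 ≤ α by linarith)
    have e2 := mul_le_mul_of_nonneg_left (e (x 1) (y 1)) (show 0 ≤ β by linarith)
    nlinarith [mul_le_mul_of_nonneg_left hx' h0, mul_le_mul_of_nonneg_left hy' h1]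
  · refine (Metric.isBounded_closedBall (x := (0 : E2)) (r := 4)).subset fun z hz => ?_
    have hz' : α * z 0 ^ 2 + β * z 1 ^ 2 ≤ 30 := hz
    rw [mem_closedBall_zero_iff, ← sq_le_sq₀ (norm_nonneg _) (by norm_num), norm_sq2]
    nlinarith [sq_nonneg (z 0), sq_nonneg (z 1)]
  · rw [mem_ball_zero_iff, ← sq_lt_sq₀ (norm_nonneg _) (by norm_num), norm_sq2] at hz
    show α * z 0 ^ 2 + β * z 1 ^ 2 ≤ 30
    nlinarith [sq_nonneg (z 0), sq_nonneg (z 1)]

theorem unit_of {u : E2} (hu : u ≠ 0) :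
    (u 0 / ‖u‖) ^ 2 + (u 1 / ‖u‖) ^ 2 = 1 := by
  have := norm_pos_iff.2 hu
  field_simp
  exact (norm_sq2 u).symm

theorem KK_sub : KK ⊆ Metric.ball 0 3 := by
  intro z hz
  by_cases h : z = 0
  · simp [h]
  have h0 := norm_pos_iff.2 h
  have h1 := unit_of h
  have h2 := hz _ _ h1
  have h3 : z 0 / ‖z‖ * z 0 + z 1 / ‖z‖ * z 1 = ‖z‖ := by
    field_simp; exact (norm_sq2 z).symm
  rw [h3] at h2
  rw [mem_ball_zero_iff]
  refine h2.trans_lt ((Real.sqrt_lt' (by norm_num)).2 ?_)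
  nlinarith [sq_nonneg ((z 0 / ‖z‖) ^ 2 - (z 1 / ‖z‖) ^ 2)]

theorem KK_touch {c s : ℝ} (h : c ^ 2 + s ^ 2 = 1) :
    ∃ z ∈ KK, c * z 0 + s * z 1 = √(6 + c ^ 2 * s ^ 2) := by
  set p := √(6 + c ^ 2 * s ^ 2) with hp
  have p0 : 0 < p := by positivity
  have p2 : p ^ 2 = 6 + c ^ 2 * s ^ 2 := Real.sq_sqrt (by positivity)
  set τ := c * s * (c ^ 2 - s ^ 2) / p with hτ
  have hτ' : τ * p = c * s * (c ^ 2 - s ^ 2) := div_mul_cancel₀ _ p0.ne'
  refine ⟨!₂[p * c - τ * s, p * s + τ * c], fun C S h2 => ?_, ?_⟩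
  · show C * (p * c - τ * s) + S * (p * s + τ * c) ≤ _
    refine Real.le_sqrt_of_sq_le (le_of_mul_le_mul_left ?_ (show 0 < 4 * p ^ 2 by positivity))
    have k := key h h2
    rw [← p2] at k
    have e : 2 * p ^ 2 * (c * C + s * S) + 2 * c * s * (c ^ 2 - s ^ 2) * (c * S - s * C) =
        2 * p * (C * (p * c - τ * s) + S * (p * s + τ * c)) := by
      linear_combination (-2 * (c * S - s * C)) * hτ'
    rw [e] at k
    linarith
  · show c * (p * c - τ * s) + s * (p * s + τ * c) = p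
    linear_combination p * h

/-- The negation of the preceding statement: For n ≥ 2, suppose K, K₁, K₂ are convex bodies in ℝⁿ and K lies in the interiors of both K₁ and K₂. If every hyperplane supporting K cuts K₁ and K₂ in sections of equal (n−1)-dimensional measure, then K₁ = K₂. -/
theorem result :
    ¬ (∀ n : ℕ, 2 ≤ n →
    ∀ K K₁ K₂ : Set (EuclideanSpace ℝ (Fin n)),
      Convex ℝ K → IsCompact K → (interior K).Nonempty →
      Convex ℝ K₁ → IsCompact K₁ → (interior K₁).Nonempty →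
      Convex ℝ K₂ → IsCompact K₂ → (interior K₂).Nonempty →
      K ⊆ interior K₁ ∩ interior K₂ →
      (∀ u : EuclideanSpace ℝ (Fin n), u ≠ 0 → ∀ c : ℝ,
          (∀ x ∈ K, inner ℝ u x ≤ c) → (∃ x ∈ K, inner ℝ u x = c) →
          MeasureTheory.Measure.hausdorffMeasure ((n : ℝ) - 1)
              (K₁ ∩ {x : EuclideanSpace ℝ (Fin n) | inner ℝ u x = c}) =
            MeasureTheory.Measure.hausdorffMeasure ((n : ℝ) - 1)
              (K₂ ∩ {x : EuclideanSpace ℝ (Fin n) | inner ℝ u x = c})) →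
      K₁ = K₂) := by
  intro h
  obtain ⟨a1, a2, a3⟩ := ell_props (α := 2) (β := 3) le_rfl (by norm_num) (by norm_num) le_rfl
  obtain ⟨b1, b2, b3⟩ := ell_props (α := 3) (β := 2) (by norm_num) le_rfl le_rfl (by norm_num)
  have z3 : (0 : E2) ∈ Metric.ball (0 : E2) 3 := by simp
  have := h 2 le_rfl KK (Ell 2 3) (Ell 3 2) (fun x hx y hy a b h0 h1 h2 c s hcs => by
      have e1 := mul_le_mul_of_nonneg_left (hx c s hcs) h0
      have e2 := mul_le_mul_of_nonneg_left (hy c s hcs) h1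
      show c * (a * x 0 + b * y 0) + s * (a * x 1 + b * y 1) ≤ _
      have e3 : √(6 + c ^ 2 * s ^ 2) = a * √(6 + c ^ 2 * s ^ 2) + b * √(6 + c ^ 2 * s ^ 2) := by
        rw [← add_mul, h2, one_mul]
      linarith)
    (Metric.isCompact_of_isClosed_isBounded (by
      simp only [KK, Set.ofPred_forall]
      exact isClosed_iInter fun c => isClosed_iInter fun s => isClosed_iInter fun _ =>
        isClosed_le (by fun_prop) continuous_const) (Metric.isBounded_ball.subset KK_sub))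
    ⟨0, interior_maximal (t := Metric.ball 0 1) (fun z hz c s hcs => by
      rw [mem_ball_zero_iff, ← sq_lt_sq₀ (norm_nonneg _) (by norm_num), norm_sq2] at hz
      refine Real.le_sqrt_of_sq_le ?_
      nlinarith [sq_nonneg (c * z 1 - s * z 0), sq_nonneg (c * s)]) Metric.isOpen_ball (by simp)⟩
    a1 a2 ⟨0, a3 z3⟩ b1 b2 ⟨0, b3 z3⟩ (fun z hz => ⟨a3 (KK_sub hz), b3 (KK_sub hz)⟩) (by
      intro u hu t h1 ⟨x, hx, h2⟩
      have u0 := norm_pos_iff.2 hu
      have u1 := unit_of hu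
      set c := u 0 / ‖u‖ with hc
      set s := u 1 / ‖u‖ with hs
      have inn : ∀ z : E2, inner ℝ u z = ‖u‖ * (c * z 0 + s * z 1) := fun z => by
        rw [hc, hs]
        simp only [PiLp.inner_apply, Fin.sum_univ_two, RCLike.inner_apply, conj_trivial]
        field_simp
      obtain ⟨z, hz, hz'⟩ := KK_touch u1
      have e1 := h1 z hz
      rw [inn, hz'] at e1
      have e2 := mul_le_mul_of_nonneg_left (hx c s u1) u0.le
      rw [← inn, h2] at e2
      have e3 : {x : E2 | inner ℝ u x = t} = {z | c * z 0 + s * z 1 = √(6 + c ^ 2 * s ^ 2)} := by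
        ext y
        simp only [Set.mem_ofPred_eq, inn, le_antisymm e2 e1, mul_right_inj' u0.ne']
      have p2 : √(6 + c ^ 2 * s ^ 2) ^ 2 = 6 + c ^ 2 * s ^ 2 := Real.sq_sqrt (by positivity)
      rw [e3, show ((2 : ℕ) : ℝ) - 1 = 1 by norm_num, chord (by nlinarith) u1, chord (by nlinarith) u1]
      · rw [p2]; linear_combination (-(24 * c ^ 2 + 54 * s ^ 2) + 36 - 0) * u1
      · rw [p2]; linear_combination (-(54 * c ^ 2 + 24 * s ^ 2) + 36 - 0) * u1)
  have m : (!₂[7 / 2, 0] : E2) ∈ Ell 2 3 := by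
    show (2 : ℝ) * (7 / 2) ^ 2 + 3 * 0 ^ 2 ≤ 30
    norm_num
  rw [this] at m
  have m' : (3 : ℝ) * (7 / 2) ^ 2 + 2 * 0 ^ 2 ≤ 30 := m
  norm_num at m'

end Pool.Agent.S13946
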