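import Pool.Statements.S13949
import Pool.Agent.H17.Spr

set_option autoImplicit false
open Pool Pool.MP_cbb19f_gt

namespace Pool.Agent.S13949

/-- Every Tychonoff space X whose discrete subspaces are all countable, and whose iterated pointwise function space C_p(C_p(X)) is Lindelöf Σ (a compact cover with a countable network modulo it), has a countable network. -/
theorem result :
    ∀ (X : Type) [TopologicalSpace X] [T35Space X],
      (∀ D : Set X, DiscreteTopology ↥D → D.Countable) →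
      (∃ (𝒞 𝒩 : Set (Set {g : {f : X → ℝ // Continuous f} → ℝ // Continuous g})),
          𝒩.Countable ∧ (∀ K ∈ 𝒞, IsCompact K) ∧ ⋃₀ 𝒞 = Set.univ ∧
          ∀ K ∈ 𝒞, ∀ U : Set {g : {f : X → ℝ // Continuous f} → ℝ // Continuous g},
            IsOpen U → K ⊆ U → ∃ N ∈ 𝒩, K ⊆ N ∧ N ⊆ U) →
      ∃ 𝒩 : Set (Set X), 𝒩.Countable ∧
        ∀ (x : X) (U : Set X), IsOpen U → x ∈ U → ∃ N ∈ 𝒩, x ∈ N ∧ N ⊆ U := by
  rintro X _ _ hs ⟨C, M, hM, hC, hU, h⟩
  have h0 : ∀ g, ∃ K ∈ C, g ∈ K := fun g => Set.mem_sUnion.1 (hU ▸ Set.mem_univ g)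
  obtain ⟨K0, hK0, -⟩ := h0 ⟨0, continuous_const⟩
  obtain ⟨N0, hN0, -⟩ := h K0 hK0 Set.univ isOpen_univ (Set.subset_univ _)
  obtain ⟨N, rfl⟩ := hM.exists_eq_range ⟨N0, hN0⟩
  have hN : H17.Spr.LS N := fun g => by
    obtain ⟨K, hK, hg⟩ := h0 g
    refine ⟨K, hC K hK, hg, fun U hU' hKU => ?_⟩
    obtain ⟨_, ⟨i, rfl⟩, hi⟩ := h K hK U hU' hKU
    exact ⟨i, hi⟩
  obtain ⟨S, hS, hd⟩ := H17.Spr.nonsep hN hs
  exact H17.Spr.sepcase hN hS hd

end Pool.Agent.S13949
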