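import Pool.Statements.S14032
import Pool.Agent.H20.PL3

set_option autoImplicit false
open Pool Pool.MP_d722ac_gt

namespace Pool.Agent.S14032

open MeasureTheory Set in
lemma steiner {E : Type} [NormedAddCommGroup E] [InnerProductSpace ℝ E] {K : Set E}
    (hK : ∀ x ∈ K, -x ∈ K) {u p q : E} (hp : ∀ x ∈ K, inner ℝ x p ≤ 1)
    (hq : ∀ x ∈ K, inner ℝ x q ≤ 1) (h : inner ℝ u p = inner ℝ u q) {x : E}
    (h1 : ∃ s : ℝ, x - (inner ℝ x u) • u + s • u ∈ K)
    (h2 : ENNReal.ofReal (2 * |inner ℝ x u|) ≤ volume {s : ℝ | x - (inner ℝ x u) • u + s • u ∈ K}) :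
    inner ℝ x ((1 / 2 : ℝ) • (p - q) + (inner ℝ u p) • u) ≤ 1 := by
  set t := inner ℝ x u with ht
  set s := inner ℝ u p with hs
  set D := 2 - (inner ℝ x p - inner ℝ x q) with hD
  have key : ∀ a b : ℝ, x - t • u + a • u ∈ K → x - t • u + b • u ∈ K → s * (a - b) ≤ D :=
    fun a b ha hb => by
      have e1 := hp _ ha
      have e2 := hq _ (hK _ hb)
      simp only [inner_neg_left, inner_add_left, inner_sub_left, real_inner_smul_left, ← h,
        ← hs] at e1 e2
      linarith
  obtain ⟨a, ha⟩ := h1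
  have D0 : 0 ≤ D := by simpa using key a a ha ha
  rw [inner_add_right, real_inner_smul_right, real_inner_smul_right, inner_sub_right, ← ht]
  rcases eq_or_ne s 0 with h0 | h0
  · rw [h0]; linarith
  have s0 := abs_pos.2 h0
  have h3 := (h2.trans (Real.volume_le_diam _)).trans
    (Metric.ediam_le_of_forall_dist_le (C := D / |s|) fun a ha b hb => by
      rw [Real.dist_eq, le_div_iff₀ s0, ← abs_mul, abs_le]
      constructor <;> linarith [key a b ha hb, key b a hb ha])
  rw [ENNReal.ofReal_le_ofReal_iff (by positivity), le_div_iff₀ s0, mul_assoc, ← abs_mul] at h3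
  linarith [le_abs_self (t * s)]

open MeasureTheory Set Filter in
lemma thin {n : ℕ} (z : Fin n) : ∃ j : ℕ,
    volume (Metric.ball (0 : EuclideanSpace ℝ (Fin n)) 1) ≤ 2 * volume
      (Metric.ball (0 : EuclideanSpace ℝ (Fin n)) 1 ∩ {y | 1 / (j + 1 : ℝ) < |∑ i, y i|}) := by
  set B := Metric.ball (0 : EuclideanSpace ℝ (Fin n)) 1
  set f : EuclideanSpace ℝ (Fin n) →ₗ[ℝ] ℝ :=
    { toFun := fun y => ∑ i, y i
      map_add' := fun x y => by simp [Finset.sum_add_distrib]
      map_smul' := fun c x => by simp [Finset.mul_sum] } with hf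
  have h0 : volume (LinearMap.ker f : Set (EuclideanSpace ℝ (Fin n))) = 0 :=
    Measure.addHaar_submodule _ _ fun h => by
      have : EuclideanSpace.single z (1 : ℝ) ∈ LinearMap.ker f := by rw [h]; trivial
      simp [hf] at this
  have h1 := tendsto_measure_iUnion_atTop (μ := volume)
    (s := fun j : ℕ => B ∩ {y | 1 / (j + 1 : ℝ) < |∑ i, y i|}) fun a b hab y hy =>
      ⟨hy.1, lt_of_le_of_lt (Nat.one_div_le_one_div (α := ℝ) hab) hy.2⟩
  have h2 : volume B ≤ volume (⋃ j : ℕ, B ∩ {y | 1 / (j + 1 : ℝ) < |∑ i, y i|}) := by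
    rw [← measure_sdiff_null (t := LinearMap.ker f) h0]
    refine measure_mono fun y hy => ?_
    obtain ⟨j, hj⟩ := exists_nat_one_div_lt (abs_pos.2 (show ∑ i, y i ≠ 0 from hy.2))
    exact mem_iUnion.2 ⟨j, hy.1, hj⟩
  have h3 : volume B / 2 < volume B :=
    ENNReal.half_lt_self (Metric.measure_ball_pos _ _ one_pos).ne' measure_ball_lt_top.ne
  obtain ⟨j, hj⟩ := (h1.eventually (lt_mem_nhds (h3.trans_le h2))).exists
  refine ⟨j, ?_⟩
  rw [← ENNReal.div_le_iff' two_ne_zero ENNReal.ofNat_ne_top]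
  exact hj.le

open MeasureTheory Set Matrix H20.PL in
/-- The negation of the preceding statement: There is an absolute constant C such that for every n and every origin-symmetric convex body K in R^n, the sphere-average over directions u of the volume of the polar of the Steiner symmetral of K in direction u is at most C times the volume of the polar of K. -/
theorem result :
    ¬ (∃ C : NNReal, ∀ n : ℕ, 1 ≤ n →
      ∀ K : ConvexBody (EuclideanSpace ℝ (Fin n)),
        (∀ x ∈ K, -x ∈ K) →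
        (interior (K : Set (EuclideanSpace ℝ (Fin n)))).Nonempty →
        ∫⁻ y in Metric.ball (0 : EuclideanSpace ℝ (Fin n)) 1,
            MeasureTheory.volume
              {z : EuclideanSpace ℝ (Fin n) |
                ∀ x ∈ {w : EuclideanSpace ℝ (Fin n) |
                    (∃ s : ℝ, w - (inner ℝ w (‖y‖⁻¹ • y)) • (‖y‖⁻¹ • y) + s • (‖y‖⁻¹ • y) ∈ K) ∧
                    ENNReal.ofReal (2 * |inner ℝ w (‖y‖⁻¹ • y)|) ≤
                      MeasureTheory.volume
                        {s : ℝ | w - (inner ℝ w (‖y‖⁻¹ • y)) • (‖y‖⁻¹ • y) + s • (‖y‖⁻¹ • y) ∈ K}},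
                  inner ℝ x z ≤ (1 : ℝ)}
          ≤ (C : ENNReal) * MeasureTheory.volume (Metric.ball (0 : EuclideanSpace ℝ (Fin n)) 1)
              * MeasureTheory.volume {z : EuclideanSpace ℝ (Fin n) | ∀ x ∈ K, inner ℝ x z ≤ (1 : ℝ)}) := by
  rintro ⟨C, hC⟩
  obtain ⟨k, hk⟩ := exists_nat_gt (13312 * (C : ℝ) + 4)
  have k4 : (4 : ℝ) < k := by linarith [C.2]
  have k4' : 4 < k := by exact_mod_cast k4
  obtain ⟨n, hn⟩ : ∃ n, n = k ^ 2 := ⟨_, rfl⟩
  have n16 : 16 ≤ n := by nlinarith
  set z : Fin n := ⟨0, by omega⟩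
  obtain ⟨j, hj⟩ := thin z
  set l : ℝ := 3 * (j + 1) with hl
  have l0 : 0 < l := by positivity
  set M : Matrix (Fin n) (Fin n) ℝ := 1 + vecMulVec (fun _ => l) (fun _ => 1) with hM
  have Mt : Mᵀ = M := by ext a b; simp [hM, vecMulVec_apply, one_apply, eq_comm]
  have Md : 0 < M.det := by
    rw [hM, det_r1]; simp only [dotProduct, one_mul]; positivity
  have MN := mul_nonsing_inv M (Ne.isUnit Md.ne')
  have NM := nonsing_inv_mul M (Ne.isUnit Md.ne')
  have inn : ∀ x y : EuclideanSpace ℝ (Fin n), inner ℝ x y = x.ofLp ⬝ᵥ y.ofLp := fun x y => by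
    simp [PiLp.inner_apply, dotProduct, mul_comm]
  have sym : ∀ x y : Fin n → ℝ, x ⬝ᵥ M *ᵥ y = M *ᵥ x ⬝ᵥ y := fun x y => by
    rw [dotProduct_mulVec, ← mulVec_transpose, Mt]
  set S : Set (EuclideanSpace ℝ (Fin n)) := {x | ∑ i, |(M *ᵥ x.ofLp) i| ≤ 1} with hS
  have cS : Continuous fun x : EuclideanSpace ℝ (Fin n) => ∑ i, |(M *ᵥ x.ofLp) i| := by fun_prop
  let K : ConvexBody (EuclideanSpace ℝ (Fin n)) :=
    { carrier := S
      convex' := fun x hx y hy a b ha hb hab => by
        have h1 : ∑ i, |(M *ᵥ x.ofLp) i| ≤ 1 := hx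
        have h2 : ∑ i, |(M *ᵥ y.ofLp) i| ≤ 1 := hy
        calc ∑ i, |(M *ᵥ (a • x + b • y).ofLp) i|
            ≤ ∑ i, (a * |(M *ᵥ x.ofLp) i| + b * |(M *ᵥ y.ofLp) i|) :=
              Finset.sum_le_sum fun i _ => by
                simp only [WithLp.ofLp_add, WithLp.ofLp_smul, mulVec_add, mulVec_smul,
                  Pi.add_apply, Pi.smul_apply, smul_eq_mul]
                exact (abs_add_le _ _).trans_eq
                  (by rw [abs_mul, abs_mul, abs_of_nonneg ha, abs_of_nonneg hb])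
          _ ≤ 1 := by
              rw [Finset.sum_add_distrib, ← Finset.mul_sum, ← Finset.mul_sum]; nlinarith
      isCompact' := ((isCompact_Icc (a := fun _ : Fin n => (-1 : ℝ)) (b := fun _ => 1)).image
          (f := fun y => (WithLp.toLp 2 (M⁻¹ *ᵥ y) : EuclideanSpace ℝ (Fin n)))
          (by fun_prop)).of_isClosed_subset (isClosed_le cS continuous_const) fun x hx => by
        have h : ∀ i, |(M *ᵥ x.ofLp) i| ≤ 1 := fun i => (Finset.single_le_sum
          (f := fun i => |(M *ᵥ x.ofLp) i|) (fun _ _ => abs_nonneg _) (Finset.mem_univ i)).trans hx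
        exact ⟨M *ᵥ x.ofLp, ⟨fun i => (abs_le.1 (h i)).1, fun i => (abs_le.1 (h i)).2⟩,
          by simp [NM]⟩
      nonempty' := ⟨0, by simp [hS]⟩ }
  have Kn : ∀ x ∈ S, -x ∈ S := fun x hx => by simpa [hS, mulVec_neg] using hx
  have hi : (0 : EuclideanSpace ℝ (Fin n)) ∈ interior S := by
    refine interior_maximal
      (t := {x : EuclideanSpace ℝ (Fin n) | ∑ i, |(M *ᵥ x.ofLp) i| < 1})
      (fun x hx => le_of_lt (mem_ofPred_eq ▸ hx)) (isOpen_lt cS continuous_const) ?_
    simp
  have h := hC n (by omega) K Kn ⟨0, hi⟩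
  have up : volume {z : EuclideanSpace ℝ (Fin n) | ∀ x ∈ K, inner ℝ x z ≤ (1 : ℝ)} ≤
      ENNReal.ofReal (M.det * 2 ^ n) := by
    refine (measure_mono (t := WithLp.ofLp ⁻¹' (toLin' M '' Icc (fun _ => -1) (fun _ => 1)))
      fun y hy => ?_).trans ?_
    · have e : ∀ (i : Fin n) (c : ℝ), |c| = 1 → c * (M⁻¹ *ᵥ y.ofLp) i ≤ 1 := fun i c hc => by
        have := hy (WithLp.toLp 2 (M⁻¹ *ᵥ Pi.single i c)) (by
          show ∑ l, |(M *ᵥ (M⁻¹ *ᵥ Pi.single i c)) l| ≤ 1
          rw [mulVec_mulVec, MN, one_mulVec, Finset.sum_eq_single i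
            (fun b _ hb => by simp [hb]) (by simp)]
          simp [hc])
        rw [inn, ← one_mulVec y.ofLp, ← MN, ← mulVec_mulVec, sym, mulVec_mulVec, MN,
          one_mulVec] at this
        simpa using this
      exact ⟨M⁻¹ *ᵥ y.ofLp, ⟨fun i => by linarith [e i (-1) (by simp)],
        fun i => by linarith [e i 1 (by simp)]⟩, by simp [MN]⟩
    · refine (Measure.le_map_apply (PiLp.volume_preserving_ofLp (Fin n)).measurable.aemeasurable
        _).trans ?_
      rw [(PiLp.volume_preserving_ofLp (Fin n)).map_eq, Measure.addHaar_image_linearMap,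
        LinearMap.det_toLin', abs_of_pos Md, Real.volume_Icc_pi, ENNReal.ofReal_mul Md.le]
      norm_num [ENNReal.ofReal_pow]
  set L : ℝ := M.det * 2 ^ n * (k / 6656) with hL
  set G := Metric.ball (0 : EuclideanSpace ℝ (Fin n)) 1 ∩ {y | 1 / (j + 1 : ℝ) < |∑ i, y i|}
  have mG : MeasurableSet G :=
    (Metric.isOpen_ball.inter (isOpen_lt continuous_const (by fun_prop))).measurableSet
  have low := ((setLIntegral_mono' (f := fun _ => ENNReal.ofReal L) mG fun y hy => ?_).trans
    (lintegral_mono_set inter_subset_left)).trans h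
  · rw [setLIntegral_const] at low
    have b0 := Metric.measure_ball_pos volume (0 : EuclideanSpace ℝ (Fin n)) one_pos
    have := calc ENNReal.ofReal L * volume (Metric.ball (0 : EuclideanSpace ℝ (Fin n)) 1)
        ≤ ENNReal.ofReal L * (2 * volume G) := by gcongr
      _ = 2 * (ENNReal.ofReal L * volume G) := by ring
      _ ≤ 2 * (C * volume (Metric.ball (0 : EuclideanSpace ℝ (Fin n)) 1) *
          ENNReal.ofReal (M.det * 2 ^ n)) :=
        mul_le_mul_right (low.trans (mul_le_mul_right up _)) _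
      _ = ENNReal.ofReal (2 * C * (M.det * 2 ^ n)) *
          volume (Metric.ball (0 : EuclideanSpace ℝ (Fin n)) 1) := by
        rw [ENNReal.ofReal_mul (p := 2 * C) (by positivity),
          ENNReal.ofReal_mul (p := 2) (by positivity), ENNReal.ofReal_coe_nnreal,
          ENNReal.ofReal_ofNat]
        ring
    rw [ENNReal.mul_le_mul_iff_left b0.ne' measure_ball_lt_top.ne,
      ENNReal.ofReal_le_ofReal_iff (by positivity)] at this
    have p : 0 < M.det * 2 ^ n := by positivity
    nlinarith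
  · have y1 : ‖y‖ < 1 := mem_ball_zero_iff.1 hy.1
    have y2 : 1 / (j + 1 : ℝ) < |∑ i, y i| := hy.2
    have y0 : 0 < ‖y‖ := norm_pos_iff.2 fun e => by
      simp only [e, PiLp.zero_apply, Finset.sum_const_zero, abs_zero] at y2
      exact y2.not_ge (by positivity)
    set u := ‖y‖⁻¹ • y with hu
    have u1 : ‖u‖ = 1 := by simp [hu, norm_smul, y0.ne']
    set ρ := l * ∑ i, u i with hρ
    have ρ3 : 3 ≤ |ρ| := by
      have e : ∑ i, u i = ‖y‖⁻¹ * ∑ i, y i := by simp [hu, Finset.mul_sum]
      rw [hρ, e, abs_mul, abs_of_pos l0, abs_mul, abs_of_pos (inv_pos.2 y0), hl]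
      rw [div_lt_iff₀ (by positivity)] at y2
      have := (one_le_inv₀ y0).2 y1.le
      nlinarith [abs_nonneg (∑ i, y i), mul_le_mul_of_nonneg_right this (abs_nonneg (∑ i, y i))]
    have ρ0 : ρ ≠ 0 := fun e => by rw [e, abs_zero] at ρ3; linarith
    have hν : ∀ i, 2 / 3 ≤ 1 + u i / ρ ∧ 1 + u i / ρ ≤ 4 / 3 := fun i => by
      have : |u i / ρ| ≤ 1 / 3 := by
        rw [abs_div, div_le_iff₀ (by linarith)]
        have : |u i| ≤ 1 := (PiLp.norm_apply_le u i).trans_eq u1
        linarith
      rw [abs_le] at this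
      constructor <;> linarith [this.1, this.2]
    refine le_trans ?_ ((Measure.le_map_apply
      (PiLp.volume_preserving_toLp (Fin n)).measurable.aemeasurable _).trans_eq
      (by rw [(PiLp.volume_preserving_toLp (Fin n)).map_eq]))
    refine le_trans ?_ (lower n16 z M M⁻¹ Mt MN u.ofLp (fun i => 1 + u i / ρ) ρ0 ?_ hν ?_ ?_)
    · have sb := small_ball (by omega) hn (Function.update (fun i => 1 + u i / ρ) z 0) fun i => by
        by_cases e : i = z
        · simp [e]
        · rw [Function.update_of_ne e, abs_le]; constructor <;> linarith [(hν i).1, (hν i).2]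
      refine (ENNReal.mul_le_mul_iff_right (a := (12 * k + 1 : ℕ)) (by simp)
        (ENNReal.natCast_ne_top _)).1 ?_
      rw [mul_left_comm]
      refine le_trans ?_ (mul_le_mul_right sb _)
      rw [← ENNReal.ofReal_natCast, ← ENNReal.ofReal_mul (by positivity),
        ← ENNReal.ofReal_mul (by positivity), abs_of_pos Md]
      refine ENNReal.ofReal_le_ofReal ?_
      have e : (n : ℝ) = k ^ 2 := by rw [hn]; push_cast; rfl
      have p : 0 < M.det * 2 ^ n * k := by positivity
      rw [hL, e]; push_cast; nlinarith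
    · rw [hM, mul_r1]; ext i
      simp only [Pi.add_apply, Pi.smul_apply, smul_eq_mul, dotProduct, one_mul]
      rw [mul_add, mul_div_cancel₀ _ ρ0, hρ]; ring
    · rw [← inn, real_inner_self_eq_norm_sq, u1, one_pow]
    · intro w m hwm hw x hx
      have pol : ∀ a : Fin n → ℝ, (∀ i, |a i| ≤ 1) → ∀ x ∈ S,
          inner ℝ x (WithLp.toLp 2 (M *ᵥ a)) ≤ 1 := fun a ha x hx => by
        rw [inn, sym]
        refine le_trans (Finset.sum_le_sum fun i _ => (le_abs_self _).trans ?_) hx
        rw [abs_mul]; exact mul_le_of_le_one_right (abs_nonneg _) (ha i)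
      have := steiner Kn (pol (m + w) fun i => (abs_add_le _ _).trans (hwm i))
        (pol (m - w) fun i => (abs_sub _ _).trans (hwm i))
        (by rw [inn, inn, sym, sym, dotProduct_add, dotProduct_sub, hw, add_zero, sub_zero])
        hx.1 hx.2
      convert this using 2
      rw [inn, sym, dotProduct_add, hw, add_zero]
      ext i; simp [mulVec_add, mulVec_sub]; ring

end Pool.Agent.S14032
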