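import Pool.Statements.S14041

set_option autoImplicit false
open Pool Pool.MP_d91817_gt

namespace Pool.Agent.S14041

open Finset

abbrev X := (ℕ → Bool) × (ℕ → Bool)

def d (c : X) (n : ℕ) : ℕ :=
  4 * (c.1 n).toNat + 2 * (c.2 (2 * n)).toNat + (c.2 (2 * n + 1)).toNat

lemma d_le (c : X) (n : ℕ) : d c n ≤ 7 := by
  unfold d
  cases c.1 n <;> cases c.2 (2 * n) <;> cases c.2 (2 * n + 1) <;> simp

lemma d_inj (x y : X) (n : ℕ) (h : d x n = d y n) :
    x.1 n = y.1 n ∧ x.2 (2 * n) = y.2 (2 * n) ∧ x.2 (2 * n + 1) = y.2 (2 * n + 1) := by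
  unfold d at h
  revert h
  cases x.1 n <;> cases x.2 (2 * n) <;> cases x.2 (2 * n + 1) <;>
  cases y.1 n <;> cases y.2 (2 * n) <;> cases y.2 (2 * n + 1) <;> simp

noncomputable def G (c : X) : ℝ := ∑' n, (d c n : ℝ) / 16 ^ (n + 1)

def P : ℕ → X → ℕ
  | 0, _ => 0
  | q + 1, c => 16 * P q c + d c q

lemma term_le (c : X) (n : ℕ) : (d c n : ℝ) / 16 ^ (n + 1) ≤ 7 / 16 * (1 / 16) ^ n := by
  have h : (d c n : ℝ) ≤ 7 := by exact_mod_cast d_le c n
  rw [div_pow, one_pow, div_mul_div_comm, mul_one, ← pow_succ']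
  gcongr

lemma sumg : Summable (fun n : ℕ => (7 / 16 : ℝ) * (1 / 16) ^ n) :=
  (summable_geometric_of_lt_one (by norm_num) (by norm_num)).mul_left _

lemma summ (c : X) : Summable (fun n => (d c n : ℝ) / 16 ^ (n + 1)) :=
  Summable.of_nonneg_of_le (fun n => by positivity) (term_le c) sumg

lemma P_sum (q : ℕ) (c : X) :
    (P q c : ℝ) = 16 ^ q * ∑ n ∈ range q, (d c n : ℝ) / 16 ^ (n + 1) := by
  induction q with
  | zero => simp [P]
  | succ q ih =>
    rw [sum_range_succ, P]
    push_cast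
    rw [ih]
    field_simp
    ring

lemma PG (q : ℕ) (c : X) : (P q c : ℝ) ≤ 16 ^ q * G c ∧ 16 ^ q * G c ≤ P q c + 7 / 15 := by
  have h1 := (summ c).sum_add_tsum_nat_add q
  have h2 : 0 ≤ ∑' n, (d c (n + q) : ℝ) / 16 ^ (n + q + 1) := tsum_nonneg fun n => by positivity
  have h3 : ∑' n, (d c (n + q) : ℝ) / 16 ^ (n + q + 1) ≤ 7 / 15 * (1 / 16) ^ q := by
    have a1 : HasSum (fun n : ℕ => (7 / 16 : ℝ) * (1 / 16) ^ (n + q)) (7 / 15 * (1 / 16) ^ q) := by
      have := (hasSum_geometric_of_lt_one (r := (1 / 16 : ℝ)) (by norm_num) (by norm_num)).mul_left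
        (7 / 16 * (1 / 16) ^ q)
      have e1 : (fun n : ℕ => (7 / 16 : ℝ) * (1 / 16) ^ (n + q)) =
          fun i => 7 / 16 * (1 / 16) ^ q * (1 / 16) ^ i := by funext n; rw [pow_add]; ring
      have e2 : (7 / 15 * (1 / 16) ^ q : ℝ) = 7 / 16 * (1 / 16) ^ q * (1 - 1 / 16)⁻¹ := by ring
      rw [e1, e2]; exact this
    rw [← a1.tsum_eq]
    exact Summable.tsum_le_tsum (fun n => term_le c (n + q))
      ((summable_nat_add_iff q).mpr (summ c)) a1.summable
  have h4 : (16 : ℝ) ^ q * (1 / 16) ^ q = 1 := by rw [← mul_pow]; norm_num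
  have h5 : (0 : ℝ) < 16 ^ q := by positivity
  unfold G
  rw [← h1, mul_add, ← P_sum]
  constructor
  · nlinarith
  · nlinarith

lemma G_lt (q : ℕ) (x y : X) (h : P q x < P q y) : G x + 1 / 2 / 16 ^ q < G y := by
  have h1 := (PG q x).2
  have h2 := (PG q y).1
  have h3 : (P q x : ℝ) + 1 ≤ P q y := by exact_mod_cast h
  have h5 : (0 : ℝ) < 16 ^ q := by positivity
  have : 16 ^ q * (G x + 1 / 2 / 16 ^ q) < 16 ^ q * G y := by
    rw [mul_add, mul_div_cancel₀ _ h5.ne']; linarith
  exact lt_of_mul_lt_mul_left this h5.le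

lemma G_lt' (q : ℕ) (x y : X) (h : P q x < P q y) : G x < G y := by
  have := G_lt q x y h
  have h5 : (0 : ℝ) < 1 / 2 / 16 ^ q := by positivity
  linarith

lemma P_inj (q : ℕ) (x y : X) (h : P q x = P q y) : ∀ n < q, d x n = d y n := by
  induction q with
  | zero => intro n hn; omega
  | succ q ih =>
    have a := d_le x q
    have b := d_le y q
    simp only [P] at h
    intro n hn
    rcases Nat.lt_succ_iff_lt_or_eq.mp hn with h1 | h1
    · exact ih (by omega) n h1
    · subst h1; omega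

lemma P_congr (q : ℕ) (x y : X) (h : ∀ n < q, d x n = d y n) : P q x = P q y := by
  induction q with
  | zero => rfl
  | succ q ih =>
    simp only [P]
    rw [ih (fun n hn => h n (by omega)), h q (by omega)]

lemma G_inj : Function.Injective G := by
  intro x y h
  have hp : ∀ q, P q x = P q y := by
    intro q
    rcases lt_trichotomy (P q x) (P q y) with h1 | h1 | h1
    · exact absurd h (G_lt' q x y h1).ne
    · exact h1
    · exact absurd h.symm (G_lt' q y x h1).ne
  have hd : ∀ n, d x n = d y n := fun n => P_inj (n + 1) x y (hp _) n (by omega)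
  refine Prod.ext (funext fun n => (d_inj x y n (hd n)).1) (funext fun n => ?_)
  rcases Nat.even_or_odd' n with ⟨m, rfl | rfl⟩
  · exact (d_inj x y m (hd m)).2.1
  · exact (d_inj x y m (hd m)).2.2

lemma G_cont : Continuous G := by
  refine continuous_tsum (fun n => ?_) sumg (fun n c => ?_)
  · have h1 : Continuous (fun b : Bool => ((b.toNat : ℕ) : ℝ)) := continuous_of_discreteTopology
    simp only [d]
    push_cast
    refine Continuous.div_const (Continuous.add (Continuous.add ?_ ?_) ?_) _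
    · exact continuous_const.mul (h1.comp (by fun_prop))
    · exact continuous_const.mul (h1.comp (by fun_prop))
    · exact h1.comp (by fun_prop)
  · rw [Real.norm_of_nonneg (by positivity)]; exact term_le c n

lemma G_bd (c : X) : 0 ≤ G c ∧ G c ≤ 7 / 15 := by
  simpa [P] using PG 0 c

noncomputable def off (s : Bool) : ℝ := if s then 1 / 2 else 0
def sw (s : Bool) (c : X) : X := if s then c.swap else c
noncomputable def E (p : Bool × X) : ℝ := off p.1 + G (sw p.1 p.2)

lemma E_cont : Continuous E := by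
  rw [continuous_prod_of_discrete_left]
  intro s
  cases s
  · simpa [E, off, sw] using G_cont
  · simp only [E, off, sw, if_true]
    exact continuous_const.add (G_cont.comp continuous_swap)

lemma E_inj : Function.Injective E := by
  rintro ⟨s, x⟩ ⟨s', y⟩ h
  have a1 := G_bd x
  have a2 := G_bd y
  have a3 := G_bd x.swap
  have a4 := G_bd y.swap
  cases s <;> cases s' <;> simp only [E, off, sw] at h <;> norm_num at h
  · rw [G_inj h]
  · linarith
  · linarith
  · rw [Prod.swap_injective (G_inj h)]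

lemma exists_f : ∃ f : ℝ → ℝ × ℝ × ℝ, Continuous f ∧ (∀ y, {x | f x = y}.encard ≤ 2) ∧
    ∀ s y, f (off s + G y) = f (off (!s) + G y.swap) := by
  have he := E_cont.isClosedEmbedding E_inj
  obtain ⟨h, -, hh⟩ := ContinuousMap.exists_extension_forall_mem_of_isClosedEmbedding
    (⟨fun p : Bool × X => G p.2, G_cont.comp continuous_snd⟩ : C(Bool × X, ℝ))
    (t := Set.univ) (fun _ => trivial) Set.univ_nonempty he
  have hh' : ∀ p, h (E p) = G p.2 := fun p => congrFun hh p
  have hK : IsClosed (Set.range E) := he.isClosed_range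
  have hz : ∀ x, Metric.infDist x (Set.range E) = 0 ↔ x ∈ Set.range E := fun x =>
    (hK.mem_iff_infDist_zero (Set.range_nonempty E)).symm
  refine ⟨fun x => (h x, Metric.infDist x (Set.range E), Metric.infDist x (Set.range E) * x),
    ?_, ?_, ?_⟩
  · have := Metric.continuous_infDist_pt (Set.range E)
    fun_prop
  · rintro ⟨a, b, c⟩
    by_cases hb : b = 0
    · by_cases ha : ∃ p : X, G p = a
      · obtain ⟨p, hp⟩ := ha
        refine le_trans (Set.encard_le_encard (t := {E (false, p), E (true, p)}) ?_) ?_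
        · intro x hx
          simp only [Set.mem_setOf_eq, Prod.mk.injEq] at hx
          obtain ⟨⟨s, w⟩, rfl⟩ := (hz x).mp (hx.2.1.trans hb)
          have : w = p := G_inj (by rw [hp, ← hx.1, hh'])
          subst this
          cases s <;> simp
        · exact le_trans (Set.encard_insert_le _ _) (by rw [Set.encard_singleton]; rfl)
      · have : {x | (h x, Metric.infDist x (Set.range E), Metric.infDist x (Set.range E) * x)
            = (a, b, c)} = ∅ := by
          ext x
          simp only [Set.mem_setOf_eq, Prod.mk.injEq, Set.mem_empty_iff_false, iff_false]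
          intro hx
          obtain ⟨p, rfl⟩ := (hz x).mp (hx.2.1.trans hb)
          exact ha ⟨p.2, by rw [← hx.1, hh']⟩
        rw [this]; simp
    · refine le_trans (Set.encard_le_encard (t := {c / b}) ?_) (by simp)
      intro x hx
      simp only [Set.mem_setOf_eq, Prod.mk.injEq] at hx
      rw [Set.mem_singleton_iff, ← hx.2.2, hx.2.1]
      field_simp
  · intro s y
    have e1 : off s + G y = E (s, sw s y) := by cases s <;> simp [E, sw]
    have e2 : off (!s) + G y.swap = E (!s, sw s y) := by cases s <;> simp [E, sw]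
    have z1 := (hz (E (s, sw s y))).mpr ⟨_, rfl⟩
    have z2 := (hz (E (!s, sw s y))).mpr ⟨_, rfl⟩
    simp only [e1, e2, z1, z2, hh', zero_mul]

lemma find_int (t : ℕ → ℝ) (k : ℕ) (x : ℝ) (hk : 0 < k) (h0 : t 0 ≤ x) (h1 : x ≤ t k) :
    ∃ j < k, x ∈ Set.Icc (t j) (t (j + 1)) := by
  induction k with
  | zero => omega
  | succ k ih =>
    by_cases h : t k ≤ x
    · exact ⟨k, by omega, h, h1⟩
    · rcases Nat.eq_zero_or_pos k with h2 | h2
      · subst h2; exact absurd h0 h
      · obtain ⟨j, hj, hx⟩ := ih h2 (not_le.mp h).le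
        exact ⟨j, by omega, hx⟩

def Fail (t : ℕ → ℝ) (k q : ℕ) : Prop :=
  ∃ s i, i < k ∧ ∃ x y z, off s + G x ∈ Set.Icc (t i) (t (i + 1)) ∧
    off s + G z ∈ Set.Icc (t i) (t (i + 1)) ∧ P q x < P q y ∧ P q y < P q z

def one (n : ℕ) : X := (fun j => decide (j = n), fun _ => false)

lemma d_one (n j : ℕ) : d (one n) j = if j = n then 4 else 0 := by
  unfold d one
  by_cases h : j = n <;> simp [h]

lemma P_one (n q : ℕ) (h : q ≤ n) : P q (one n) = 0 := by
  induction q with
  | zero => rfl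
  | succ q ih => simp only [P]; rw [ih (by omega), d_one, if_neg (by omega)]

lemma exists_fail (t : ℕ → ℝ) (k : ℕ) (hk : 0 < k) (h0 : t 0 = 0) (h1 : 0 < t 1) :
    ∃ q, Fail t k q := by
  obtain ⟨n, hn⟩ := exists_pow_lt_of_lt_one h1 (show (1 / 16 : ℝ) < 1 by norm_num)
  have hb : ∀ m, n ≤ m → off false + G (one m) ∈ Set.Icc (t 0) (t (0 + 1)) := by
    intro m hm
    have a1 := (PG n (one m)).2
    rw [P_one m n hm] at a1
    have a2 := (G_bd (one m)).1
    have h4 : (16 : ℝ) ^ n * (1 / 16) ^ n = 1 := by rw [← mul_pow]; norm_num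
    have h5 : (0 : ℝ) < 16 ^ n := by positivity
    simp only [off, h0]
    constructor
    · simpa using a2
    · have : 16 ^ n * G (one m) ≤ 16 ^ n * t 1 := by
        have : 16 ^ n * (1 / 16 : ℝ) ^ n ≤ 16 ^ n * t 1 := by gcongr
        push_cast at a1
        linarith
      simpa using le_of_mul_le_mul_left this h5
  refine ⟨n + 2, false, 0, hk, one (n + 2), one (n + 1), one n, hb _ (by omega), hb _ le_rfl, ?_, ?_⟩
  · rw [P_one _ _ le_rfl]
    simp only [P]
    rw [d_one (n + 1) (n + 1), if_pos rfl]; omega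
  · simp only [P]
    rw [P_one (n + 1) n (by omega), P_one n n le_rfl]
    simp [d_one]

lemma fail3 (t : ℕ → ℝ) (k q : ℕ) (s : Bool) (i : ℕ) (hi : i < k) (x y z : X)
    (hx : off s + G x ∈ Set.Icc (t i) (t (i + 1))) (hy : off s + G y ∈ Set.Icc (t i) (t (i + 1)))
    (hz : off s + G z ∈ Set.Icc (t i) (t (i + 1))) (h1 : P q x ≠ P q y) (h2 : P q x ≠ P q z)
    (h3 : P q y ≠ P q z) : Fail t k q := by
  rcases lt_or_gt_of_ne h1 with a | a <;> rcases lt_or_gt_of_ne h2 with b | b <;>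
    rcases lt_or_gt_of_ne h3 with c | c
  · exact ⟨s, i, hi, x, y, z, hx, hz, a, c⟩
  · exact ⟨s, i, hi, x, z, y, hx, hy, b, c⟩
  · omega
  · exact ⟨s, i, hi, z, x, y, hz, hy, b, a⟩
  · exact ⟨s, i, hi, y, x, z, hy, hz, a, b⟩
  · omega
  · exact ⟨s, i, hi, y, z, x, hy, hx, c, b⟩
  · exact ⟨s, i, hi, z, y, x, hz, hx, c, a⟩

theorem result :
    ∃ (Y : Type) (_ : MetricSpace Y) (f : ℝ → Y) (n : ℕ),
      0 < n ∧ ContinuousOn f (Set.Icc (0:ℝ) 1) ∧
      (∀ y : Y, {x : ℝ | x ∈ Set.Icc (0:ℝ) 1 ∧ f x = y}.encard ≤ (n : ℕ∞)) ∧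
      ¬ ∃ m : ℕ, 0 < m ∧ ∀ ε : ℝ, 0 < ε →
        ∃ (k : ℕ) (t : ℕ → ℝ), 0 < k ∧ t 0 = 0 ∧ t k = 1 ∧
          (∀ i, i < k → t i < t (i + 1) ∧ t (i + 1) - t i < ε) ∧
          ∀ i, i < k →
            {j : ℕ | j < k ∧
              (f '' Set.Icc (t i) (t (i + 1)) ∩ f '' Set.Icc (t j) (t (j + 1))).Nonempty}.encard
              ≤ (m : ℕ∞) := by
  classical
  obtain ⟨f, hc, hf, hs⟩ := exists_f
  refine ⟨ℝ × ℝ × ℝ, inferInstance, f, 2, by norm_num, hc.continuousOn,
    fun y => le_trans (Set.encard_le_encard fun x hx => hx.2) (hf y), ?_⟩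
  rintro ⟨m, -, H⟩
  obtain ⟨k, t, hk, t0, t1, ht, hm⟩ := H (1 / 2 / 16 ^ (2 * m + 2)) (by positivity)
  have hex := exists_fail t k hk t0 (by have := (ht 0 hk).1; rwa [t0] at this)
  have hlow : ∀ q ≤ 2 * m + 2, ¬ Fail t k q := by
    rintro q hq ⟨s, i, hi, x, y, z, hx, hz, a, b⟩
    have a1 := G_lt q x z (lt_trans a b)
    have a2 := (ht i hi).2
    have a3 : (1 / 2 / 16 ^ (2 * m + 2) : ℝ) ≤ 1 / 2 / 16 ^ q := by gcongr; norm_num
    linarith [hx.1, hz.2]
  have hq0 : 2 * m + 2 < Nat.find hex := by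
    by_contra h
    exact hlow _ (not_lt.mp h) (Nat.find_spec hex)
  obtain ⟨q, hq⟩ : ∃ q, Nat.find hex = q + 1 := ⟨Nat.find hex - 1, by omega⟩
  have hnf : ¬ Fail t k q := Nat.find_min hex (by omega)
  have hF := Nat.find_spec hex
  rw [hq] at hF hq0
  obtain ⟨s, i, hi, x, y, z, hx, hz, a, b⟩ := hF
  let w : ℕ → X := fun r => (fun n => if n < q + 1 then y.1 n else decide (n = r), y.2)
  have hw : ∀ r, P (q + 1) (w r) = P (q + 1) y := fun r =>
    P_congr _ _ _ fun n hn => by simp [d, w, hn]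
  have hwI : ∀ r, off s + G (w r) ∈ Set.Icc (t i) (t (i + 1)) := fun r => by
    have a1 := G_lt' (q + 1) x (w r) (by rw [hw]; exact a)
    have a2 := G_lt' (q + 1) (w r) z (by rw [hw]; exact b)
    exact ⟨by linarith [hx.1], by linarith [hz.2]⟩
  have hj : ∀ r, ∃ j < k, off (!s) + G (w r).swap ∈ Set.Icc (t j) (t (j + 1)) := fun r => by
    have := G_bd (w r).swap
    apply find_int t k _ hk
    · rw [t0]; cases s <;> simp only [off] <;> norm_num <;> linarith
    · rw [t1]; cases s <;> simp only [off] <;> norm_num <;> linarith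
  choose J hJ1 hJ2 using hj
  have hne : ∀ r ∈ Ico (q + 1) (2 * q), ∀ r' ∈ Ico (q + 1) (2 * q), r ≠ r' →
      P q (w r).swap ≠ P q (w r').swap := by
    intro r hr r' _ hrr he
    rw [mem_Ico] at hr
    have h1 := d_inj _ _ (r / 2) (P_inj q _ _ he (r / 2) (by omega))
    have h2 : (w r).1 r = (w r').1 r := by
      rcases Nat.even_or_odd' r with ⟨n, h | h⟩
      · have : 2 * (r / 2) = r := by omega
        have h3 := h1.2.1
        rw [this] at h3; exact h3
      · have : 2 * (r / 2) + 1 = r := by omega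
        have h3 := h1.2.2
        rw [this] at h3; exact h3
    have h3 : ¬ r < q + 1 := by omega
    simp [w, h3, hrr] at h2
  have hcard : (Ico (q + 1) (2 * q)).card ≤ 2 * ((Ico (q + 1) (2 * q)).image J).card := by
    apply card_le_mul_card_image
    intro j _
    by_contra h
    obtain ⟨r1, r2, r3, m1, m2, m3, n1, n2, n3⟩ := two_lt_card_iff.mp (not_le.mp h)
    rw [mem_filter] at m1 m2 m3
    refine hnf (fail3 t k q (!s) j (m1.2 ▸ hJ1 r1) (w r1).swap (w r2).swap (w r3).swap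
      (m1.2 ▸ hJ2 r1) (m2.2 ▸ hJ2 r2) (m3.2 ▸ hJ2 r3) (hne _ m1.1 _ m2.1 n1) (hne _ m1.1 _ m3.1 n2)
      (hne _ m2.1 _ m3.1 n3))
  have hsub : (((Ico (q + 1) (2 * q)).image J : Finset ℕ) : Set ℕ) ⊆ {j : ℕ | j < k ∧
      (f '' Set.Icc (t i) (t (i + 1)) ∩ f '' Set.Icc (t j) (t (j + 1))).Nonempty} := by
    intro j hj
    obtain ⟨r, -, rfl⟩ := mem_image.mp (mem_coe.mp hj)
    exact ⟨hJ1 r, f (off s + G (w r)), ⟨_, hwI r, rfl⟩, ⟨_, hJ2 r, (hs s (w r)).symm⟩⟩
  have h1 := le_trans (Set.encard_le_encard hsub) (hm i hi)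
  rw [Set.encard_coe_eq_coe_finsetCard] at h1
  have h2 : ((Ico (q + 1) (2 * q)).image J).card ≤ m := by exact_mod_cast h1
  rw [Nat.card_Ico] at hcard
  omega

end Pool.Agent.S14041
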