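import Pool.Statements.S14068

set_option autoImplicit false
open Pool Pool.MP_db8e30_gt

namespace Pool.Agent.S14068

open Set Filter Topology

/-- Ultrafilters on the plane whose first projection is carried by a countable set. -/
abbrev X : Type := {u : Ultrafilter (ℝ × ℝ) // ∃ C : Set ℝ, C.Countable ∧ Prod.fst ⁻¹' C ∈ u}

def br (A : Set (ℝ × ℝ)) : Set X := {u | A ∈ u.1}

def BB : Set (Set X) := {b | ∃ A : Set (ℝ × ℝ), (Prod.fst '' A).Countable ∧ b = br A}

def pt (s : ℝ × ℝ) : X := ⟨pure s, {s.1}, countable_singleton _, by simp⟩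

lemma pt_mem (s : ℝ × ℝ) (A : Set (ℝ × ℝ)) : pt s ∈ br A ↔ s ∈ A := by
  simp [pt, br]

lemma br_clopen (A : Set (ℝ × ℝ)) : IsClopen (br A) :=
  ⟨(ultrafilter_isClosed_basic A).preimage continuous_subtype_val,
    (ultrafilter_isOpen_basic A).preimage continuous_subtype_val⟩

lemma exists_br {O : Set X} (hO : IsOpen O) {u : X} (hu : u ∈ O) :
    ∃ A : Set (ℝ × ℝ), A ∈ u.1 ∧ br A ⊆ O := by
  obtain ⟨O', hO', rfl⟩ := isOpen_induced_iff.mp hO
  obtain ⟨_, ⟨A, rfl⟩, h1, h2⟩ := ultrafilterBasis_is_basis.exists_subset_of_mem_open hu hO'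
  exact ⟨A, h1, fun v hv => h2 hv⟩

lemma basis : TopologicalSpace.IsTopologicalBasis BB := by
  apply TopologicalSpace.isTopologicalBasis_of_isOpen_of_nhds
  · rintro _ ⟨A, -, rfl⟩
    exact (br_clopen A).isOpen
  · intro u O hu hO
    obtain ⟨A, h1, h2⟩ := exists_br hO hu
    obtain ⟨C, hC, h3⟩ := u.2
    refine ⟨br (A ∩ Prod.fst ⁻¹' C), ⟨_, hC.mono ?_, rfl⟩, inter_mem h1 h3, fun v hv => h2 ?_⟩
    · rintro _ ⟨s, hs, rfl⟩
      exact hs.2
    · exact mem_of_superset hv inter_subset_left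

lemma pretty (C D : Set (Set X)) (hC : C ⊆ BB) (hD : D ⊆ BB) (hc : C.Countable)
    (h : ∀ c ∈ C, ∀ d ∈ D, Disjoint c d) :
    ∃ b ∈ BB, (∀ c ∈ C, c ⊆ b) ∧ (∀ d ∈ D, Disjoint b d) := by
  have hC' : ∀ c ∈ C, ∃ A : Set (ℝ × ℝ), (Prod.fst '' A).Countable ∧ c = br A := hC
  choose! A hA1 hA2 using hC'
  refine ⟨br (⋃ c ∈ C, A c), ⟨_, ?_, rfl⟩, fun c hc' => ?_, fun d hd => ?_⟩
  · rw [image_iUnion₂]
    exact hc.biUnion fun c hc' => hA1 c hc'
  · intro u hu
    rw [hA2 c hc'] at hu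
    exact mem_of_superset hu (subset_biUnion_of_mem (u := A) hc')
  · obtain ⟨A', -, rfl⟩ := hD hd
    rw [Set.disjoint_left]
    intro u h1 h2
    obtain ⟨s, hs1, hs2⟩ := Ultrafilter.nonempty_of_mem (inter_mem h1 h2)
    obtain ⟨c, hc', hs⟩ := mem_iUnion₂.mp hs1
    exact Set.disjoint_left.mp (h c hc' _ hd) (by rw [hA2 c hc', pt_mem]; exact hs)
      ((pt_mem s A').mpr hs2)

lemma cocompact : @IsCompact X
    (TopologicalSpace.generateFrom {U : Set X | ∃ b ∈ BB, U = (closure b)ᶜ}) Set.univ := by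
  have key : ∀ F : Ultrafilter X, ∃ x : X, ∀ A : Set (ℝ × ℝ), (Prod.fst '' A).Countable →
      x ∉ br A → (br A)ᶜ ∈ F := by
    intro F
    let w : Ultrafilter (ℝ × ℝ) := F.bind Subtype.val
    have hw : ∀ A, A ∈ w ↔ br A ∈ F := fun A => by
      simp only [w, Ultrafilter.bind, br, ← Ultrafilter.mem_coe, Ultrafilter.ofComplNotMemIff,
        Filter.mem_bind']
    by_cases h : ∃ C : Set ℝ, C.Countable ∧ Prod.fst ⁻¹' C ∈ w
    · exact ⟨⟨w, h⟩, fun A _ hA => Ultrafilter.compl_mem_iff_notMem.mpr fun h' =>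
        hA ((hw A).mpr h')⟩
    · refine ⟨pt (0, 0), fun A hA _ => Ultrafilter.compl_mem_iff_notMem.mpr fun h' => h ?_⟩
      exact ⟨_, hA, mem_of_superset ((hw A).mpr h') (subset_preimage_image _ _)⟩
  have hcl : ∀ A, closure (br A) = br A := fun A => (br_clopen A).isClosed.closure_eq
  rw [@isCompact_iff_ultrafilter_le_nhds X
    (TopologicalSpace.generateFrom {U : Set X | ∃ b ∈ BB, U = (closure b)ᶜ})]
  intro F _
  obtain ⟨x, hx⟩ := key F
  refine ⟨x, mem_univ _, ?_⟩
  rw [TopologicalSpace.nhds_generateFrom]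
  refine le_iInf₂ ?_
  rintro _ ⟨h1, _, ⟨A, hA, rfl⟩, rfl⟩
  rw [hcl] at h1 ⊢
  exact le_principal_iff.mpr (hx A hA h1)

lemma not_normal : ¬ NormalSpace X := by
  intro hn
  let F : Set X := ⋂ C ∈ {C : Set ℝ | C.Countable}, (br (Prod.snd ⁻¹' C))ᶜ
  let G : Set X := ⋂ C : Set ℝ, ((br (Prod.fst ⁻¹' C))ᶜ ∪ br (Prod.snd ⁻¹' C))
  have hF : IsClosed F := isClosed_biInter fun C _ => (br_clopen _).compl.isClosed
  have hG : IsClosed G :=
    isClosed_iInter fun C => (br_clopen _).compl.isClosed.union (br_clopen _).isClosed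
  have hd : Disjoint F G := by
    rw [Set.disjoint_left]
    intro u h1 h2
    obtain ⟨C, hC, h3⟩ := u.2
    rcases mem_iInter.mp h2 C with h | h
    · exact h h3
    · exact mem_iInter₂.mp h1 C hC h
  obtain ⟨U, V, hU, hV, hFU, hGV, hUV⟩ := hn.normal F G hF hG hd
  let A : Set (ℝ × ℝ) := {s | pt s ∈ U}
  have h1 : ∀ u ∈ U, A ∈ u.1 := by
    intro u hu
    obtain ⟨B, h1, h2⟩ := exists_br hU hu
    exact mem_of_superset h1 fun s hs => h2 ((pt_mem s B).mpr hs)
  have h2 : ∀ u ∈ V, A ∉ u.1 := by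
    intro u hu hA
    obtain ⟨B, h1, h2⟩ := exists_br hV hu
    obtain ⟨s, hs1, hs2⟩ := Ultrafilter.nonempty_of_mem (inter_mem hA h1)
    exact Set.disjoint_left.mp hUV hs1 (h2 ((pt_mem s B).mpr hs2))
  have h3 : ∀ x : ℝ, {y | (x, y) ∉ A}.Countable := by
    intro x
    by_contra hc
    have hne : (cocountable ⊓ 𝓟 {y | (x, y) ∉ A}).NeBot := by
      rw [inf_principal_neBot_iff]
      intro s hs
      by_contra he
      rw [not_nonempty_iff_eq_empty] at he
      refine hc (Countable.mono ?_ (mem_cocountable.mp hs))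
      intro y hy hy'
      exact (he ▸ (⟨hy', hy⟩ : y ∈ s ∩ {y | (x, y) ∉ A}) : y ∈ (∅ : Set ℝ))
    obtain ⟨q, hq⟩ := Ultrafilter.exists_le (cocountable ⊓ 𝓟 {y | (x, y) ∉ A})
    let u : X := ⟨q.map (fun y => (x, y)), {x}, countable_singleton _, by
      rw [Ultrafilter.mem_map]
      exact univ_mem' fun _ => rfl⟩
    have hu : u ∈ F := by
      refine mem_iInter₂.mpr fun C hC hC' => ?_
      have h4 : Cᶜ ∈ q := hq (mem_inf_of_left (mem_cocountable.mpr (by rwa [compl_compl])))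
      exact Ultrafilter.compl_mem_iff_notMem.mp h4 hC'
    have h5 : {y | (x, y) ∉ A} ∈ q := hq (mem_inf_of_right (mem_principal_self _))
    exact Ultrafilter.compl_mem_iff_notMem.mp h5 (h1 u (hFU hu))
  have h4 : ∀ l : List ℝ, ∃ y, ∀ x ∈ l, (x, y) ∈ A := by
    intro l
    by_contra hc
    push Not at hc
    have : (univ : Set ℝ).Countable :=
      ((l.finite_toSet.countable).biUnion fun x _ => h3 x).mono fun y _ => by
        obtain ⟨x, hx, hxy⟩ := hc y
        exact mem_iUnion₂.mpr ⟨x, hx, hxy⟩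
    exact Cardinal.not_countable_real this
  choose nx hnx using h4
  let L : ℕ → List ℝ := fun n => Nat.rec [] (fun _ l => nx l :: l) n
  let x : ℕ → ℝ := fun n => nx (L n)
  have hL : ∀ i j, i < j → x i ∈ L j := by
    intro i j hij
    induction j with
    | zero => omega
    | succ j ih =>
      change x i ∈ x j :: L j
      rcases Nat.lt_succ_iff_lt_or_eq.mp hij with h | rfl
      · exact List.mem_cons_of_mem _ (ih h)
      · exact List.mem_cons_self
  let p : Ultrafilter ℕ := hyperfilter ℕ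
  let w : Ultrafilter (ℝ × ℝ) := p.bind fun i => p.map fun j => (x i, x j)
  have hw : ∀ B, B ∈ w ↔ {i | {j | (x i, x j) ∈ B} ∈ p} ∈ p := fun B => by
    simp only [w, Ultrafilter.bind, ← Ultrafilter.mem_coe, Ultrafilter.ofComplNotMemIff,
      Filter.mem_bind', Ultrafilter.coe_map, Filter.mem_map]
    rfl
  let u : X := ⟨w, range x, countable_range x,
    (hw _).mpr (univ_mem' fun i => univ_mem' fun j => mem_range_self i)⟩
  have hu : u ∈ G := by
    refine mem_iInter.mpr fun C => ?_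
    by_cases hC : u ∈ br (Prod.fst ⁻¹' C)
    · right
      have h5 := (hw _).mp hC
      have h6 : {j | x j ∈ C} ∈ p := mem_of_superset h5 fun i hi =>
        (Ultrafilter.nonempty_of_mem hi).elim fun _ h => h
      exact (hw _).mpr (univ_mem' fun _ => h6)
    · exact Or.inl hC
  refine h2 u (hGV hu) ((hw A).mpr (univ_mem' fun i => ?_))
  have h7 : {j | i < j} ∈ p := Nat.hyperfilter_le_atTop (eventually_gt_atTop i)
  exact mem_of_superset h7 fun j hj => hnx (L j) _ (hL i j hj)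

/-- The negation of the preceding statement: For every Tychonoff X : Type, if X has a clopen basis 𝓑 satisfying the countable-vs-arbitrary separation property and X is compact in the topology generated by complements of closures of members of 𝓑, then X is normal. -/
theorem result :
    ¬ (∀ (X : Type) [TopologicalSpace X] [CompletelyRegularSpace X] [T2Space X],
      (∃ 𝓑 : Set (Set X),
        TopologicalSpace.IsTopologicalBasis 𝓑 ∧
        (∀ b ∈ 𝓑, IsClopen b) ∧
        (∀ C D : Set (Set X), C ⊆ 𝓑 → D ⊆ 𝓑 → C.Countable →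
          (∀ c ∈ C, ∀ d ∈ D, Disjoint c d) →
          ∃ b ∈ 𝓑, (∀ c ∈ C, c ⊆ b) ∧ (∀ d ∈ D, Disjoint b d)) ∧
        @IsCompact X
          (TopologicalSpace.generateFrom {U : Set X | ∃ b ∈ 𝓑, U = (closure b)ᶜ})
          Set.univ) →
      NormalSpace X) := by
  intro h
  exact not_normal (h X ⟨BB, basis, by rintro _ ⟨A, -, rfl⟩; exact br_clopen A, pretty, cocompact⟩)

end Pool.Agent.S14068
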