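import Pool.Statements.S14086
import Pool.Agent.H29.LcS3

set_option autoImplicit false
open Pool Pool.MP_dd23d5_gt

namespace Pool.Agent.S14086

theorem result :
    ¬ (∀ (P : Type) [PartialOrder P] [TopologicalSpace P] [Topology.IsScott P Set.univ],
      (∀ d : Set P, d.Nonempty → DirectedOn (· ≤ ·) d → ∃ x, IsLUB d x) →
      LocallyCompactSpace P →
      QuasiSober P ∧ T0Space P) := by
  intro h
  exact H29.LcS.not_sober (h H29.LcS.P
    (fun d h1 h2 => (H29.LcS.exists_lub h1 h2).imp fun _ hs => hs.1) H29.LcS.lcP).1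

end Pool.Agent.S14086
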