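import Pool.Statements.S14094
import Pool.Agent.H2.SGrp

set_option autoImplicit false
open Pool Pool.MP_de3f93_gt

namespace Pool.Agent.S14094

/-- The negation of the preceding statement: Every Hausdorff topological group of countable tightness that is an s-group and whose closed subgroups are all s-groups (sequentially continuous homomorphisms into Hausdorff groups are continuous) is a sequential space. -/
theorem result :
    ¬ (∀ (G : Type) [Group G] [TopologicalSpace G] [IsTopologicalGroup G] [T2Space G],
      (∀ (H : Type) [Group H] [TopologicalSpace H] [IsTopologicalGroup H] [T2Space H]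
          (f : G →* H), SeqContinuous (f : G → H) → Continuous (f : G → H)) →
      (∀ (A : Set G), ∀ x ∈ closure A, ∃ B : Set G, B ⊆ A ∧ B.Countable ∧ x ∈ closure B) →
      (∀ K : Subgroup G, IsClosed (K : Set G) →
        ∀ (H : Type) [Group H] [TopologicalSpace H] [IsTopologicalGroup H] [T2Space H]
          (f : K →* H), SeqContinuous (f : K → H) → Continuous (f : K → H)) →
      SequentialSpace G) := by
  intro h
  have hs : SequentialSpace Pool.Agent.H2.SGrp.G := by
    refine h Pool.Agent.H2.SGrp.G ?_ ?_ ?_
    · intro H _ _ _ _ f hf
      have h1 := Pool.Agent.H2.SGrp.sgrp_open ⊤ isOpen_univ H (f.comp (Subgroup.subtype ⊤))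
        (fun x p hx => hf ((continuous_subtype_val.tendsto p).comp hx))
      exact h1.comp (f := fun x => (⟨x, trivial⟩ : (⊤ : Subgroup Pool.Agent.H2.SGrp.G)))
        (continuous_id.subtype_mk _)
    · intro A x hx
      exact ⟨A, subset_rfl, Set.to_countable _, hx⟩
    · intro K hK H _ _ _ _ f hf
      exact Pool.Agent.H2.SGrp.sgrp_closed K hK H f hf
  have h1 := Pool.Agent.H2.SGrp.A_seq.isClosed
  exact Pool.Agent.H2.SGrp.one_not (h1.closure_subset Pool.Agent.H2.SGrp.one_closure)

end Pool.Agent.S14094
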