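import Pool.Statements.S14124
-- import your own Pool.Agent.* helpers here

set_option autoImplicit false
open Pool Pool.MP_e230d6_gt

namespace Pool.Agent.S14124

open Set Filter Topology MeasureTheory

/-- the real line together with isolated points indexed by pairs of rationals -/
def Y : Type := ℝ ⊕ (ℚ × ℚ)

/-- basic neighbourhoods of a real point -/
def N (c ε : ℝ) : Set Y := fun x =>
  match x with
  | Sum.inl y => |y - c| < ε
  | Sum.inr d => d.1 < d.2 ∧ |(d.1 : ℝ) - c| < ε ∧ |(d.2 : ℝ) - c| < ε ∧ c ∉ Ioo (d.1 : ℝ) d.2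

/-- real points -/
def pt (c : ℝ) : Y := Sum.inl c
/-- isolated points -/
def iso (d : ℚ × ℚ) : Y := Sum.inr d

lemma pt_mem (c ε y : ℝ) : pt y ∈ N c ε ↔ |y - c| < ε := Iff.rfl
lemma iso_mem (c ε : ℝ) (d : ℚ × ℚ) : iso d ∈ N c ε ↔
    d.1 < d.2 ∧ |(d.1 : ℝ) - c| < ε ∧ |(d.2 : ℝ) - c| < ε ∧ c ∉ Ioo (d.1 : ℝ) d.2 := Iff.rfl

lemma cases_Y (x : Y) : (∃ c, x = pt c) ∨ ∃ d, x = iso d := by
  rcases x with c | d
  · exact Or.inl ⟨c, rfl⟩
  · exact Or.inr ⟨d, rfl⟩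

lemma pt_ne_iso (c : ℝ) (d : ℚ × ℚ) : pt c ≠ iso d := Sum.inl_ne_inr
lemma iso_inj {d e : ℚ × ℚ} (h : iso d = iso e) : d = e := Sum.inr_injective h

lemma N_mono (c : ℝ) {ε η : ℝ} (h : ε ≤ η) : N c ε ⊆ N c η := by
  intro x hx
  rcases cases_Y x with ⟨y, rfl⟩ | ⟨d, rfl⟩
  · exact lt_of_lt_of_le hx h
  · exact ⟨hx.1, hx.2.1.trans_le h, hx.2.2.1.trans_le h, hx.2.2.2⟩

instance topY : TopologicalSpace Y where
  IsOpen U := ∀ c, pt c ∈ U → ∃ ε, 0 < ε ∧ N c ε ⊆ U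
  isOpen_univ := fun _ _ => ⟨1, one_pos, subset_univ _⟩
  isOpen_inter := by
    intro s t hs ht c hc
    obtain ⟨a, a0, ha⟩ := hs c hc.1
    obtain ⟨b, b0, hb⟩ := ht c hc.2
    exact ⟨min a b, lt_min a0 b0, subset_inter ((N_mono c (min_le_left _ _)).trans ha)
      ((N_mono c (min_le_right _ _)).trans hb)⟩
  isOpen_sUnion := by
    rintro s hs c ⟨t, ht, hc⟩
    obtain ⟨a, a0, ha⟩ := hs t ht c hc
    exact ⟨a, a0, ha.trans (subset_sUnion_of_mem ht)⟩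

lemma isOpen_Y {U : Set Y} : IsOpen U ↔ ∀ c, pt c ∈ U → ∃ ε, 0 < ε ∧ N c ε ⊆ U := Iff.rfl

lemma far {c y : ℝ} {d : ℚ × ℚ} (h1 : |(d.1 : ℝ) - y| < |y - c|) (h2 : |(d.2 : ℝ) - y| < |y - c|) :
    c ∉ Ioo (d.1 : ℝ) d.2 := by
  rintro ⟨a, b⟩
  rw [abs_lt] at h1 h2
  rcases le_total y c with h | h
  · rw [abs_of_nonpos (by linarith)] at h2; linarith [h2.2]
  · rw [abs_of_nonneg (by linarith)] at h1; linarith [h1.1]

lemma isOpen_N (c ε : ℝ) : IsOpen (N c ε) := by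
  rw [isOpen_Y]
  intro y hy
  rw [pt_mem] at hy
  by_cases h : y = c
  · subst h
    exact ⟨ε, by simpa using hy, subset_rfl⟩
  · have h0 : 0 < |y - c| := abs_pos.2 (sub_ne_zero.2 h)
    refine ⟨min (ε - |y - c|) |y - c|, lt_min (by linarith) h0, fun x hx => ?_⟩
    rcases cases_Y x with ⟨z, rfl⟩ | ⟨d, rfl⟩
    · rw [pt_mem] at hx ⊢
      have := abs_sub_le z y c
      have := (lt_min_iff.1 hx).1
      linarith
    · rw [iso_mem] at hx ⊢
      obtain ⟨h1, h2, h3, -⟩ := hx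
      have := abs_sub_le (d.1 : ℝ) y c
      have := abs_sub_le (d.2 : ℝ) y c
      rw [lt_min_iff] at h2 h3
      exact ⟨h1, by linarith [h2.1], by linarith [h3.1], far h2.2 h3.2⟩

lemma isOpen_iso (d : ℚ × ℚ) : IsOpen ({iso d} : Set Y) := fun c hc => absurd hc (pt_ne_iso c d)

lemma cont_pt : Continuous pt := by
  rw [continuous_def]
  intro U hU
  rw [Metric.isOpen_iff]
  intro c hc
  obtain ⟨ε, h0, h⟩ := hU c hc
  exact ⟨ε, h0, fun y hy => h hy⟩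

lemma sep (c : ℝ) (d : ℚ × ℚ) : ∃ ε, 0 < ε ∧ iso d ∉ N c ε := by
  by_cases h : d.1 < d.2
  · have h' : (d.1 : ℝ) < d.2 := by exact_mod_cast h
    refine ⟨((d.2 : ℝ) - d.1) / 2, by linarith, fun hx => ?_⟩
    obtain ⟨-, h2, h3, -⟩ := hx
    rw [abs_lt] at h2 h3
    linarith [h2.1, h3.2]
  · exact ⟨1, one_pos, fun hx => h hx.1⟩

instance t2Y : T2Space Y := by
  refine ⟨fun x y hxy => ?_⟩
  rcases cases_Y x with ⟨a, rfl⟩ | ⟨d, rfl⟩ <;> rcases cases_Y y with ⟨b, rfl⟩ | ⟨e, rfl⟩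
  · have h0 : 0 < |a - b| := abs_pos.2 (sub_ne_zero.2 fun h => hxy (by rw [h]))
    refine ⟨N a (|a - b| / 2), N b (|a - b| / 2), isOpen_N _ _, isOpen_N _ _,
      by rw [pt_mem]; simpa using h0, by rw [pt_mem]; simpa using h0, ?_⟩
    rw [Set.disjoint_left]
    intro z h1 h2
    have key : ∀ w : ℝ, |w - a| < |a - b| / 2 → |w - b| < |a - b| / 2 → False := by
      intro w w1 w2
      have := abs_sub_le a w b
      rw [abs_sub_comm a w] at this
      linarith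
    rcases cases_Y z with ⟨w, rfl⟩ | ⟨d, rfl⟩
    · exact key w h1 h2
    · exact key _ h1.2.1 h2.2.1
  · obtain ⟨ε, h0, h⟩ := sep a e
    exact ⟨N a ε, {iso e}, isOpen_N _ _, isOpen_iso _, by rw [pt_mem]; simpa using h0, rfl,
      disjoint_singleton_right.2 h⟩
  · obtain ⟨ε, h0, h⟩ := sep b d
    exact ⟨{iso d}, N b ε, isOpen_iso _, isOpen_N _ _, rfl, by rw [pt_mem]; simpa using h0,
      disjoint_singleton_left.2 h⟩
  · exact ⟨{iso d}, {iso e}, isOpen_iso _, isOpen_iso _, rfl, rfl, disjoint_singleton.2 hxy⟩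

lemma fcY : FirstCountableTopology Y := by
  refine ⟨fun x => ?_⟩
  rcases cases_Y x with ⟨c, rfl⟩ | ⟨d, rfl⟩
  · have h : (𝓝 (pt c)).HasBasis (fun _ : ℕ => True) (fun n => N c (1 / ((n : ℝ) + 1))) := by
      refine ⟨fun s => ⟨fun hs => ?_, ?_⟩⟩
      · obtain ⟨U, hUs, hU, hc⟩ := mem_nhds_iff.1 hs
        obtain ⟨ε, h0, h⟩ := hU c hc
        obtain ⟨n, hn⟩ := exists_nat_one_div_lt h0
        exact ⟨n, trivial, ((N_mono c hn.le).trans h).trans hUs⟩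
      · rintro ⟨n, -, hn⟩
        refine mem_of_superset ((isOpen_N _ _).mem_nhds ?_) hn
        rw [pt_mem, sub_self, abs_zero]
        positivity
    exact h.isCountablyGenerated
  · rw [(isOpen_singleton_iff_nhds_eq_pure _).1 (isOpen_iso d)]
    infer_instance

lemma point_finite {K : Set Y} (hK : IsCompact K) (c : ℝ) :
    ∃ n : ℕ, ∀ d, iso d ∈ K → c ∈ Ioo (d.1 : ℝ) d.2 → Encodable.encode d < n := by
  let U : ℕ → Set Y := fun n => {x | ∀ d, x = iso d → c ∈ Ioo (d.1 : ℝ) d.2 → Encodable.encode d < n}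
  have hU : ∀ n, IsOpen (U n) := by
    intro n y _
    by_cases h : y = c
    · subst h
      refine ⟨1, one_pos, ?_⟩
      rintro x hx d rfl hd
      exact absurd hd hx.2.2.2
    · refine ⟨|y - c|, abs_pos.2 (sub_ne_zero.2 h), ?_⟩
      rintro x hx d rfl hd
      exact absurd hd (far hx.2.1 hx.2.2.1)
  obtain ⟨n, hn⟩ := hK.elim_directed_cover U hU (by
    intro x _
    rcases cases_Y x with ⟨y, rfl⟩ | ⟨e, rfl⟩
    · exact mem_iUnion.2 ⟨0, fun d h => absurd h (pt_ne_iso _ _)⟩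
    · exact mem_iUnion.2 ⟨Encodable.encode e + 1, fun d h _ => by rw [iso_inj h]; omega⟩)
    (Monotone.directed_le fun a b hab x hx d h1 h2 => (hx d h1 h2).trans_le hab)
  exact ⟨n, fun d hd => hn hd d rfl⟩

/-- the part of the unit interval covered by the intervals in a family -/
def A (P : ℚ × ℚ → Prop) : Set ℝ := Icc 0 1 ∩ ⋃ d, ⋃ (_ : P d), Ioo (d.1 : ℝ) d.2

lemma mem_A {P : ℚ × ℚ → Prop} {c : ℝ} : c ∈ A P ↔ c ∈ Icc (0 : ℝ) 1 ∧ ∃ d, P d ∧ c ∈ Ioo (d.1 : ℝ) d.2 := by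
  simp only [A, mem_inter_iff, mem_iUnion, exists_prop]

lemma A_meas (P : ℚ × ℚ → Prop) : MeasurableSet (A P) :=
  measurableSet_Icc.inter (isOpen_iUnion fun _ => isOpen_iUnion fun _ => isOpen_Ioo).measurableSet

lemma A_mono {P Q : ℚ × ℚ → Prop} (h : ∀ d, P d → Q d) : A P ⊆ A Q := by
  intro c hc
  rw [mem_A] at hc ⊢
  obtain ⟨h1, d, h2, h3⟩ := hc
  exact ⟨h1, d, h d h2, h3⟩

lemma sat (K : Set Y) : ⋂₀ {U : Set Y | IsOpen U ∧ K ⊆ U} ⊆ K := by
  intro x hx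
  by_contra h
  exact hx {x}ᶜ ⟨isOpen_compl_singleton, fun y hy hyx => h (hyx ▸ hy)⟩ rfl

lemma tail_small {K : Set Y} (hK : IsCompact K) {η : ENNReal} (hη : 0 < η) :
    ∃ n : ℕ, volume (A fun d => iso d ∈ K ∧ n ≤ Encodable.encode d) < η := by
  have h := tendsto_measure_iInter_atTop (μ := volume)
    (s := fun n : ℕ => A fun d => iso d ∈ K ∧ n ≤ Encodable.encode d)
    (fun n => (A_meas _).nullMeasurableSet)
    (fun a b hab => A_mono fun d hd => ⟨hd.1, hab.trans hd.2⟩)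
    ⟨0, ne_top_of_le_ne_top (by simp) (measure_mono inter_subset_left)⟩
  have h0 : (⋂ n : ℕ, A fun d => iso d ∈ K ∧ n ≤ Encodable.encode d) = ∅ := by
    rw [eq_empty_iff_forall_notMem]
    intro c hc
    obtain ⟨n, hn⟩ := point_finite hK c
    obtain ⟨-, d, h1, h2⟩ := mem_A.1 (mem_iInter.1 hc n)
    have := hn d h1.1 h2
    omega
  rw [h0, measure_empty] at h
  exact (h.eventually (gt_mem_nhds hη)).exists

lemma big {U : Set Y} (hU : IsOpen U) (h : pt '' Icc 0 1 ⊆ U) :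
    ∃ n : ℕ, 1 / 2 < volume (A fun d => iso d ∈ U ∧ Encodable.encode d < n) := by
  have h1 : ∀ c : Icc (0 : ℝ) 1, ∃ ε, 0 < ε ∧ N c ε ⊆ U := fun c => hU c (h ⟨c, c.2, rfl⟩)
  choose ε h0 hε using h1
  obtain ⟨F, hF⟩ := (isCompact_Icc (a := (0 : ℝ)) (b := 1)).elim_finite_subcover
    (fun c : Icc (0 : ℝ) 1 => Metric.ball (c : ℝ) (ε c)) (fun _ => Metric.isOpen_ball)
    (fun y hy => mem_iUnion.2 ⟨⟨y, hy⟩, Metric.mem_ball_self (h0 _)⟩)
  have h2 := tendsto_measure_iUnion_atTop (μ := volume)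
    (s := fun n : ℕ => A fun d => iso d ∈ U ∧ Encodable.encode d < n)
    (fun a b hab => A_mono fun d hd => ⟨hd.1, hd.2.trans_le hab⟩)
  have h3 : Icc (0 : ℝ) 1 \ (Subtype.val '' (F : Set (Icc (0 : ℝ) 1))) ⊆
      ⋃ n : ℕ, A fun d => iso d ∈ U ∧ Encodable.encode d < n := by
    rintro y ⟨hy, hyF⟩
    obtain ⟨c, hc, hyc⟩ := mem_iUnion₂.1 (hF hy)
    rw [Metric.mem_ball, Real.dist_eq] at hyc
    have hne : y ≠ c := fun e => hyF ⟨c, hc, e.symm⟩
    have hp : 0 < min (ε c - |y - c|) |y - c| :=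
      lt_min (by linarith) (abs_pos.2 (sub_ne_zero.2 hne))
    set m := min (ε c - |y - c|) |y - c| with hm
    obtain ⟨p, p1, p2⟩ := exists_rat_btwn (show y - m < y by linarith)
    obtain ⟨q, q1, q2⟩ := exists_rat_btwn (show y < y + m by linarith)
    have e1 : |(p : ℝ) - y| < m := by rw [abs_lt]; constructor <;> linarith
    have e2 : |(q : ℝ) - y| < m := by rw [abs_lt]; constructor <;> linarith
    rw [hm, lt_min_iff] at e1 e2
    refine mem_iUnion.2 ⟨Encodable.encode (p, q) + 1, mem_A.2 ⟨hy, (p, q), ⟨hε c ?_, by omega⟩, p2, q1⟩⟩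
    have := abs_sub_le (p : ℝ) y c
    have := abs_sub_le (q : ℝ) y c
    refine ⟨?_, by simp only; linarith [e1.1], by simp only; linarith [e2.1], far e1.2 e2.2⟩
    have : (p : ℝ) < q := p2.trans q1
    exact_mod_cast this
  have h4 := measure_mono (μ := volume) h3
  rw [measure_diff_null ((F.finite_toSet.image _).measure_zero _), Real.volume_Icc] at h4
  have h5 : (1 / 2 : ENNReal) < volume (⋃ n : ℕ, A fun d => iso d ∈ U ∧ Encodable.encode d < n) := by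
    refine lt_of_lt_of_le ?_ h4
    norm_num
  exact (h2.eventually (lt_mem_nhds h5)).exists


/-- The negation of the preceding statement: For every first-countable well-filtered T0 space X, on the nonempty compact saturated subsets ordered by reverse inclusion, a family is open in the upper Vietoris topology exactly when it is Scott open. -/
theorem result :
    ¬ (∀ (X : Type) [TopologicalSpace X], T0Space X → FirstCountableTopology X →
    (∀ 𝒦 : Set (Set X), 𝒦.Nonempty →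
      (∀ K ∈ 𝒦, IsCompact K ∧ ⋂₀ {U : Set X | IsOpen U ∧ K ⊆ U} ⊆ K) →
      DirectedOn (fun A B : Set X => B ⊆ A) 𝒦 →
      ∀ U : Set X, IsOpen U → ⋂₀ 𝒦 ⊆ U → ∃ K ∈ 𝒦, K ⊆ U) →
    ∀ 𝒮 : Set {K : Set X // K.Nonempty ∧ IsCompact K ∧ ⋂₀ {U : Set X | IsOpen U ∧ K ⊆ U} ⊆ K},
      (@IsOpen {K : Set X // K.Nonempty ∧ IsCompact K ∧ ⋂₀ {U : Set X | IsOpen U ∧ K ⊆ U} ⊆ K}
        (TopologicalSpace.generateFrom
          {𝒱 : Set {K : Set X // K.Nonempty ∧ IsCompact K ∧ ⋂₀ {U : Set X | IsOpen U ∧ K ⊆ U} ⊆ K} |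
            ∃ U : Set X, IsOpen U ∧
              𝒱 = {K : {K : Set X // K.Nonempty ∧ IsCompact K ∧ ⋂₀ {U : Set X | IsOpen U ∧ K ⊆ U} ⊆ K} |
                K.1 ⊆ U}}) 𝒮 ↔
      ((∀ K ∈ 𝒮, ∀ L : {K : Set X // K.Nonempty ∧ IsCompact K ∧ ⋂₀ {U : Set X | IsOpen U ∧ K ⊆ U} ⊆ K},
          L.1 ⊆ K.1 → L ∈ 𝒮) ∧
       ∀ 𝒟 : Set {K : Set X // K.Nonempty ∧ IsCompact K ∧ ⋂₀ {U : Set X | IsOpen U ∧ K ⊆ U} ⊆ K},
        𝒟.Nonempty →
        DirectedOn (fun A B : {K : Set X // K.Nonempty ∧ IsCompact K ∧ ⋂₀ {U : Set X | IsOpen U ∧ K ⊆ U} ⊆ K} =>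
          B.1 ⊆ A.1) 𝒟 →
        ∀ L : {K : Set X // K.Nonempty ∧ IsCompact K ∧ ⋂₀ {U : Set X | IsOpen U ∧ K ⊆ U} ⊆ K},
          (∀ K ∈ 𝒟, L.1 ⊆ K.1) →
          (∀ M : {K : Set X // K.Nonempty ∧ IsCompact K ∧ ⋂₀ {U : Set X | IsOpen U ∧ K ⊆ U} ⊆ K},
            (∀ K ∈ 𝒟, M.1 ⊆ K.1) → M.1 ⊆ L.1) →
          L ∈ 𝒮 → ∃ K ∈ 𝒟, K ∈ 𝒮))) := by
  intro h
  have h1 := (h Y inferInstance fcY ?_ {L | volume (A fun d => iso d ∈ L.1) < 1 / 2}).2 ⟨?_, ?_⟩
  · have key : ∀ 𝒮, TopologicalSpace.GenerateOpen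
        {𝒱 : Set {K : Set Y // K.Nonempty ∧ IsCompact K ∧ ⋂₀ {U : Set Y | IsOpen U ∧ K ⊆ U} ⊆ K} |
            ∃ U : Set Y, IsOpen U ∧
              𝒱 = {K : {K : Set Y // K.Nonempty ∧ IsCompact K ∧ ⋂₀ {U : Set Y | IsOpen U ∧ K ⊆ U} ⊆ K} |
                K.1 ⊆ U}} 𝒮 → ∀ K ∈ 𝒮, ∃ U : Set Y, IsOpen U ∧ K.1 ⊆ U ∧ ∀ L, L.1 ⊆ U → L ∈ 𝒮 := by
      intro 𝒮 hS
      induction hS with
      | basic s hs =>
        obtain ⟨U, hU, rfl⟩ := hs
        exact fun K hK => ⟨U, hU, hK, fun L hL => hL⟩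
      | univ => exact fun K _ => ⟨univ, isOpen_univ, subset_univ _, fun _ _ => mem_univ _⟩
      | inter s t _ _ ihs iht =>
        intro K hK
        obtain ⟨U, hU, h1, h2⟩ := ihs K hK.1
        obtain ⟨V, hV, h3, h4⟩ := iht K hK.2
        exact ⟨U ∩ V, hU.inter hV, subset_inter h1 h3, fun L hL =>
          ⟨h2 L (hL.trans inter_subset_left), h4 L (hL.trans inter_subset_right)⟩⟩
      | sUnion S _ ih =>
        rintro K ⟨s, hs, hK⟩
        obtain ⟨U, hU, h1, h2⟩ := ih s hs K hK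
        exact ⟨U, hU, h1, fun L hL => ⟨s, hs, h2 L hL⟩⟩
    have hKc : IsCompact (pt '' Icc 0 1) := isCompact_Icc.image cont_pt
    have hKn : (pt '' Icc 0 1).Nonempty := ⟨_, 0, ⟨le_rfl, zero_le_one⟩, rfl⟩
    obtain ⟨U, hU, h2, h3⟩ := key _ h1 ⟨pt '' Icc 0 1, hKn, hKc, sat _⟩ (by
      have : (A fun d => iso d ∈ pt '' Icc 0 1) = ∅ := by
        rw [eq_empty_iff_forall_notMem]
        intro c hc
        obtain ⟨-, d, ⟨y, -, hy⟩, -⟩ := mem_A.1 hc
        exact pt_ne_iso _ _ hy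
      show volume (A fun d => iso d ∈ pt '' Icc 0 1) < 1 / 2
      rw [this]; simp)
    obtain ⟨n, hn⟩ := big hU h2
    have hfin : (iso '' {d | iso d ∈ U ∧ Encodable.encode d < n}).Finite := by
      apply Set.Finite.image
      exact ((Set.finite_lt_nat n).preimage Encodable.encode_injective.injOn).subset fun d hd => hd.2
    have h4 := h3 ⟨pt '' Icc 0 1 ∪ iso '' {d | iso d ∈ U ∧ Encodable.encode d < n}, hKn.inl,
      hKc.union hfin.isCompact, sat _⟩ (by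
        rintro x (hx | ⟨d, hd, rfl⟩)
        · exact h2 hx
        · exact hd.1)
    exact lt_asymm hn (lt_of_le_of_lt (measure_mono (A_mono fun d hd => Or.inr ⟨d, hd, rfl⟩)) h4)
  · intro 𝒦 hne hK hdir U hU hsub
    haveI : Nonempty 𝒦 := hne.to_subtype
    obtain ⟨K, hK'⟩ := exists_subset_nhds_of_isCompact' (V := fun K : 𝒦 => K.1)
      (directedOn_iff_directed.1 hdir) (fun K => (hK K.1 K.2).1) (fun K => (hK K.1 K.2).1.isClosed)
      (U := U) (fun x hx => hU.mem_nhds (hsub fun K hK => mem_iInter.1 hx ⟨K, hK⟩))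
    exact ⟨K.1, K.2, hK'⟩
  · intro K hK L hL
    exact lt_of_le_of_lt (measure_mono (A_mono fun d hd => hL hd)) hK
  · rintro 𝒟 ⟨K0, hK0⟩ hdir L - hmax hL
    have hx : ∀ x, x ∉ L.1 → ∃ K ∈ 𝒟, x ∉ K.1 := by
      intro x hx
      by_contra hc
      push Not at hc
      exact hx (hmax ⟨{x}, singleton_nonempty x, isCompact_singleton, sat _⟩
        (fun K hK => singleton_subset_iff.2 (hc K hK)) rfl)
    have hn : ∀ n : ℕ, ∃ K ∈ 𝒟, K.1 ⊆ K0.1 ∧ ∀ d, Encodable.encode d < n → iso d ∈ K.1 → iso d ∈ L.1 := by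
      intro n
      induction n with
      | zero => exact ⟨K0, hK0, subset_rfl, fun d hd => by omega⟩
      | succ n ih =>
        obtain ⟨K, hK, h1, h2⟩ := ih
        by_cases hc : ∃ e, Encodable.encode e = n ∧ iso e ∉ L.1
        · obtain ⟨e, he1, he2⟩ := hc
          obtain ⟨K', hK', h3⟩ := hx _ he2
          obtain ⟨M, hM, h4, h5⟩ := hdir K hK K' hK'
          refine ⟨M, hM, h4.trans h1, fun d hd hdM => ?_⟩
          rcases Nat.lt_succ_iff_lt_or_eq.1 hd with h | h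
          · exact h2 d h (h4 hdM)
          · have : d = e := Encodable.encode_injective (h.trans he1.symm)
            exact absurd (h5 hdM) (this ▸ h3)
        · push Not at hc
          refine ⟨K, hK, h1, fun d hd hdK => ?_⟩
          rcases Nat.lt_succ_iff_lt_or_eq.1 hd with h | h
          · exact h2 d h hdK
          · exact hc d h
    have hL' : volume (A fun d => iso d ∈ L.1) < 1 / 2 := hL
    obtain ⟨n, hsm⟩ := tail_small K0.2.2.1 (tsub_pos_of_lt hL')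
    obtain ⟨K, hK, h1, h2⟩ := hn n
    refine ⟨K, hK, ?_⟩
    have h3 : (A fun d => iso d ∈ K.1) ⊆ (A fun d => iso d ∈ K0.1 ∧ n ≤ Encodable.encode d) ∪
        A fun d => iso d ∈ L.1 := by
      intro c hc
      obtain ⟨a, d, b, e⟩ := mem_A.1 hc
      rcases lt_or_ge (Encodable.encode d) n with h | h
      · exact Or.inr (mem_A.2 ⟨a, d, h2 d h b, e⟩)
      · exact Or.inl (mem_A.2 ⟨a, d, ⟨h1 b, h⟩, e⟩)
    exact lt_of_le_of_lt ((measure_mono h3).trans (measure_union_le _ _)) (lt_tsub_iff_right.1 hsm)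

end Pool.Agent.S14124
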