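import Pool.Statements.S14147
import Pool.Agent.H18.Mag3
-- import your own Pool.Agent.* helpers here

set_option autoImplicit false
open Classical
open Pool Pool.MP_e62a5f_gt

namespace Pool.Agent.S14147

open H18.Mag Finset MeasureTheory

lemma cs {κ : Type} [Fintype κ] {K : κ → κ → ℝ} (h : PS K) (u m : κ → ℝ) :
    (∑ i, ∑ j, u i * m j * K i j) ^ 2 ≤
      (∑ i, ∑ j, u i * u j * K i j) * ∑ i, ∑ j, m i * m j * K i j := by
  have e : ∑ i, ∑ j, m i * u j * K i j = ∑ i, ∑ j, u i * m j * K i j := by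
    rw [sum_comm]
    exact sum_congr rfl fun i _ => sum_congr rfl fun j _ => by rw [h.1 j i]; ring
  have := discrim_le_zero (a := ∑ i, ∑ j, u i * u j * K i j) (b := 2 * ∑ i, ∑ j, u i * m j * K i j)
    (c := ∑ i, ∑ j, m i * m j * K i j) fun t => by
      refine le_of_le_of_eq (h.2 fun i => t * u i + m i) ?_
      rw [two_mul, add_mul]
      nth_rewrite 2 [← e]
      simp only [sum_mul, ← sum_add_distrib]
      exact sum_congr rfl fun i _ => sum_congr rfl fun j _ => by ring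
  rw [discrim] at this
  nlinarith

lemma mag {κ : Type} [Fintype κ] [DecidableEq κ] {K : κ → κ → ℝ} (h : (Matrix.of K).PosDef) :
    (∃ u : κ → ℝ, ∑ i, u i = ∑ i, ∑ j, (Matrix.of K)⁻¹ i j ∧
      ∑ i, ∑ j, u i * u j * K i j = ∑ i, ∑ j, (Matrix.of K)⁻¹ i j) ∧
    (∀ m : κ → ℝ, (∑ i, m i) ^ 2 ≤ (∑ i, ∑ j, (Matrix.of K)⁻¹ i j) * ∑ i, ∑ j, m i * m j * K i j) ∧
    ∃ Γ : ℝ, 0 ≤ Γ ∧ ∀ (m : κ → ℝ) (L : κ → κ → ℝ) (η : ℝ), 0 ≤ η → (∀ i j, |L i j - K i j| ≤ η) →
      |∑ i, ∑ j, m i * m j * L i j - ∑ i, ∑ j, m i * m j * K i j| ≤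
        η * Γ * ∑ i, ∑ j, m i * m j * K i j := by
  have hp : PS K := ps_iff.2 h.posSemidef
  have h1 : ∀ v m : κ → ℝ, ∑ i, ∑ j, ((Matrix.of K)⁻¹.mulVec v) i * m j * K i j =
      ∑ j, v j * m j := by
    intro v m
    have h2 : (Matrix.of K).mulVec ((Matrix.of K)⁻¹.mulVec v) = v := by
      rw [Matrix.mulVec_mulVec, Matrix.mul_nonsing_inv _ h.det_pos.ne'.isUnit, Matrix.one_mulVec]
    rw [sum_comm]
    refine sum_congr rfl fun j _ => ?_
    conv_rhs => rw [← h2]
    generalize (Matrix.of K)⁻¹.mulVec v = u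
    simp only [Matrix.mulVec, dotProduct, Matrix.of_apply, sum_mul]
    exact sum_congr rfl fun i _ => by rw [hp.1 j i]; ring
  have h2 : ∑ i, ((Matrix.of K)⁻¹.mulVec fun _ => 1) i = ∑ i, ∑ j, (Matrix.of K)⁻¹ i j := by
    simp [Matrix.mulVec, dotProduct]
  refine ⟨⟨_, h2, by rw [h1, ← h2]; simp⟩, fun m => ?_, ?_⟩
  · have := cs hp ((Matrix.of K)⁻¹.mulVec fun _ => 1) m
    rw [h1, h1] at this
    simpa [h2] using this
  have h3 : ∀ x, ∃ c : ℝ, 0 ≤ c ∧ ∀ m : κ → ℝ, m x ^ 2 ≤ c * ∑ i, ∑ j, m i * m j * K i j := by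
    intro x
    refine ⟨_, hp.2 ((Matrix.of K)⁻¹.mulVec fun j => if j = x then 1 else 0), fun m => ?_⟩
    have := cs hp ((Matrix.of K)⁻¹.mulVec fun j => if j = x then 1 else 0) m
    rw [h1] at this
    simpa using this
  choose c hc0 hc using h3
  refine ⟨Fintype.card κ * ∑ x, c x, mul_nonneg (by positivity) (sum_nonneg fun x _ => hc0 x),
    fun m L η hη hL => ?_⟩
  have h4 : (∑ i, |m i|) ^ 2 ≤ (Fintype.card κ * ∑ x, c x) * ∑ i, ∑ j, m i * m j * K i j := by
    refine sq_sum_le_card_mul_sum_sq.trans ?_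
    rw [mul_assoc, sum_mul]
    exact mul_le_mul_of_nonneg_left (sum_le_sum fun x _ => by rw [sq_abs]; exact hc x m)
      (by positivity)
  rw [mul_assoc]
  refine le_trans ?_ (mul_le_mul_of_nonneg_left h4 hη)
  rw [sq, sum_mul_sum, ← sum_sub_distrib, mul_sum]
  refine (abs_sum_le_sum_abs _ _).trans (sum_le_sum fun i _ => ?_)
  rw [← sum_sub_distrib, mul_sum]
  refine (abs_sum_le_sum_abs _ _).trans (sum_le_sum fun j _ => ?_)
  rw [← mul_sub, abs_mul, abs_mul, mul_comm]
  exact mul_le_mul_of_nonneg_right (hL i j) (by positivity)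

lemma push {κ ι : Type} [Fintype κ] [Fintype ι] (ϖ : ι → κ) (w : ι → ℝ) : ∃ m : κ → ℝ,
    ∑ x, m x = ∑ i, w i ∧ ∀ K : κ → κ → ℝ, ∑ x, ∑ y, m x * m y * K x y =
      ∑ i, ∑ j, w i * w j * K (ϖ i) (ϖ j) := by
  have h : ∀ F : κ → ℝ, ∑ x, (∑ i, if ϖ i = x then w i else 0) * F x = ∑ i, w i * F (ϖ i) := by
    intro F
    simp only [sum_mul]
    rw [sum_comm]
    simp
  refine ⟨fun x => ∑ i, if ϖ i = x then w i else 0, by simpa using h fun _ => 1, fun K => ?_⟩
  simp only [mul_assoc, ← mul_sum, h]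

lemma int_exp {V : Type} [NormedAddCommGroup V] [InnerProductSpace ℝ V] [MeasurableSpace V]
    [BorelSpace V] [FiniteDimensional ℝ V] {f : V → ℝ} (hf : Continuous f) {C : ℝ} (hC : 0 < C)
    (h : ∀ x, ‖x‖ ≤ C * f x) : Integrable fun x => Real.exp (-f x) := by
  set r := Module.finrank ℝ V + 1 with hr
  have hr0 : (0 : ℝ) < r := by positivity
  refine ((integrable_one_add_norm (E := V) (μ := volume) (r := r) (by simp [hr])).const_mul
    ((1 + r * C) ^ r)).mono' (Continuous.aestronglyMeasurable (by fun_prop))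
    (Filter.Eventually.of_forall fun x => ?_)
  have h0 : 0 ≤ f x := le_of_mul_le_mul_left (by simpa using (norm_nonneg x).trans (h x)) hC
  have h1 : 1 + ‖x‖ ≤ (1 + r * C) * Real.exp (f x / r) := by
    refine le_trans ?_ (mul_le_mul_of_nonneg_left (Real.add_one_le_exp _) (by positivity))
    have e : (1 + r * C) * (f x / r + 1) = f x / r + 1 + C * f x + r * C := by field_simp; ring
    have : 0 ≤ f x / r + r * C := by positivity
    linarith [h x]
  have h2 := pow_le_pow_left₀ (by positivity) h1 r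
  rw [mul_pow, ← Real.exp_nat_mul, mul_div_cancel₀ _ hr0.ne'] at h2
  rw [Real.norm_eq_abs, Real.abs_exp, Real.rpow_neg (by positivity), Real.rpow_natCast,
    Real.exp_neg, ← div_eq_mul_inv, le_div_iff₀ (by positivity), inv_mul_le_iff₀ (Real.exp_pos _)]
  linarith


/-- In any finite-dimensional real normed space where every finite subset has a positive definite matrix exp(-distance), the magnitude (sum of entries of the inverse matrix) of nonempty finite subsets is continuous in the Hausdorff distance. -/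
theorem result :
    ∀ (U : Type) [NormedAddCommGroup U] [NormedSpace ℝ U] [FiniteDimensional ℝ U],
      (∀ X : Finset U,
        (Matrix.of fun (x y : ↥X) => Real.exp (-‖(x : U) - (y : U)‖)).PosDef) →
      ∀ X : Finset U, X.Nonempty → ∀ ε : ℝ, 0 < ε → ∃ δ : ℝ, 0 < δ ∧
        ∀ Y : Finset U, Y.Nonempty →
          Metric.hausdorffDist (X : Set U) (Y : Set U) < δ →
          |(∑ i, ∑ j,
              (Matrix.of fun (x y : ↥Y) => Real.exp (-‖(x : U) - (y : U)‖))⁻¹ i j) -
            (∑ i, ∑ j,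
              (Matrix.of fun (x y : ↥X) => Real.exp (-‖(x : U) - (y : U)‖))⁻¹ i j)| < ε := by
  intro U _ _ _ hU X hX ε hε
  rcases subsingleton_or_nontrivial U with hs | hs
  · refine ⟨1, one_pos, fun Y hY _ => ?_⟩
    have : Y = X := by
      obtain ⟨x, hx⟩ := hX
      obtain ⟨y, hy⟩ := hY
      ext z
      exact ⟨fun _ => Subsingleton.elim x z ▸ hx, fun _ => Subsingleton.elim y z ▸ hy⟩
    subst this
    simpa using hε
  let T := (toEuclidean (E := U)).symm
  let N : EuclideanSpace ℝ (Fin (Module.finrank ℝ U)) → ℝ := fun x => ‖T x‖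
  have hNs : ∀ (t : ℝ) x, N (t • x) = |t| * N x := fun t x => by simp [N, norm_smul]
  obtain ⟨C, hC0, hC⟩ : ∃ C : ℝ, 0 < C ∧ ∀ x, ‖x‖ ≤ C * N x := by
    refine ⟨‖T.symm.toContinuousLinearMap‖ + 1, by positivity, fun x => ?_⟩
    have := T.symm.toContinuousLinearMap.le_opNorm (T x)
    simp only [ContinuousLinearEquiv.coe_coe, ContinuousLinearEquiv.symm_apply_apply] at this
    simp only [N]
    nlinarith [norm_nonneg (T x)]
  have hpi := Real.pi_gt_three
  obtain ⟨ν, hν, hch⟩ := bochner (f := fun x => Real.exp (-N ((2 * Real.pi) • x)))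
    (fun n x w => by
      let S := Finset.univ.image fun i => T ((2 * Real.pi) • x i)
      obtain ⟨m, -, hm⟩ := push (κ := S) (fun i => ⟨T ((2 * Real.pi) • x i), by simp [S]⟩) w
      have := (ps_iff.2 (hU S).posSemidef).2 m
      rw [hm] at this
      simpa only [N, smul_sub, map_sub] using this)
    (by fun_prop) (fun x => by simp [N])
    (int_exp (by fun_prop) hC0 fun x => by
      rw [hNs, abs_of_pos (by positivity)]
      refine (hC x).trans (mul_le_mul_of_nonneg_left ?_ hC0.le)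
      exact le_mul_of_one_le_left (norm_nonneg _) (by linarith))
    (fun x => by simp [N]) (by simp [N])
  obtain ⟨e, he⟩ := exists_norm_eq U one_pos.le
  obtain ⟨C0, hC00, hkey⟩ := key ν N (fun x => norm_nonneg _) hNs (fun x => by
    have := hch ((2 * Real.pi)⁻¹ • x)
    rwa [smul_inv_smul₀ (by positivity)] at this) (T.symm e) (by simpa [N] using he) C hC0.le hC
  obtain ⟨⟨u, hu1, hu2⟩, hXm, Γ, hΓ, hXp⟩ := mag (hU X)
  have hpX := (ps_iff.2 (hU X).posSemidef).2
  set a := ∑ i, ∑ j, (Matrix.of fun (x y : ↥X) => Real.exp (-‖(x : U) - (y : U)‖))⁻¹ i j with ha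
  have ha0 : 0 ≤ a := hu2 ▸ hpX u
  set s := min (1 / 2) (ε / (2 * a + 1)) with hs
  have hs0 : 0 < s := lt_min (by norm_num) (by positivity)
  have hs1 : s ≤ 1 / 2 := min_le_left _ _
  have hs2 : s * (2 * a + 1) ≤ ε := (le_div_iff₀ (by positivity)).1 (min_le_right _ _)
  set η := s / (1 + 2 * Γ) with hη
  have hη0 : 0 < η := by positivity
  have hη1 : η * (1 + 2 * Γ) = s := by rw [hη]; field_simp
  set δ := η / (Fintype.card X * C0 + 1) with hδ
  have hδ0 : 0 < δ := by positivity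
  have hδ1 : δ * (Fintype.card X * C0 + 1) = η := by rw [hδ]; field_simp
  have hk : (0 : ℝ) ≤ Fintype.card X * C0 := by positivity
  refine ⟨δ, hδ0, fun Y hY hd => ?_⟩
  have hfin := Metric.hausdorffEDist_ne_top_of_nonempty_of_bounded (s := (X : Set U))
    (t := (Y : Set U)) hX hY X.finite_toSet.isBounded Y.finite_toSet.isBounded
  obtain ⟨⟨w, hw1, hw2⟩, hYm, -⟩ := mag (hU Y)
  have hpY := (ps_iff.2 (hU Y).posSemidef).2
  set b := ∑ i, ∑ j, (Matrix.of fun (x y : ↥Y) => Real.exp (-‖(x : U) - (y : U)‖))⁻¹ i j with hb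
  have hb0 : 0 ≤ b := hw2 ▸ hpY w
  have h1 : (1 - s) * b ≤ a := by
    choose ϖ hϖ1 hϖ2 using fun y : Y => Metric.exists_dist_lt_of_hausdorffDist_lt' y.2 hd hfin
    obtain ⟨m, hm1, hm2⟩ := push (κ := X) (fun y => ⟨ϖ y, hϖ1 y⟩) w
    have hQ := hpX m
    have h2 : (1 - s) * ∑ i : X, ∑ j : X, m i * m j * Real.exp (-‖(i : U) - (j : U)‖) ≤ b := by
      refine le_of_forall_pos_le_add fun ε' hε' => ?_
      obtain ⟨K, t, ht, hK, h3⟩ := hkey X Y (fun x => T.symm x) (fun y => ⟨ϖ y, hϖ1 y⟩)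
        (fun y => T.symm y) δ η hδ0.le (fun y => by
          have := (hϖ2 y).le
          rw [dist_comm, dist_eq_norm] at this
          simpa [N] using this) (by linarith) w ε' hε'
      simp only [N, map_sub, ContinuousLinearEquiv.apply_symm_apply] at hK h3
      rw [hw2, ← hm2] at h3
      have h4 := (abs_le.1 (hXp m K (2 * η) (by positivity) hK)).1
      have h5 := Real.add_one_le_exp (-η)
      have h6 : 0 ≤ η * Γ := by positivity
      generalize ∑ i : X, ∑ j : X, m i * m j * Real.exp (-‖(i : U) - (j : U)‖) = Q at *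
      have h7 : (1 - 2 * η * Γ) * Q ≤ ∑ x, ∑ y, m x * m y * K x y := by linarith
      have h8 : 0 ≤ (1 - 2 * η * Γ) * Q := mul_nonneg (by linarith) hQ
      have h9 := mul_le_mul (show 1 - η ≤ t by linarith) h7 h8 (by linarith [Real.exp_pos (-η)])
      have h10 : (1 - s) * Q ≤ (1 - η) * ((1 - 2 * η * Γ) * Q) := by
        rw [← mul_assoc]
        exact mul_le_mul_of_nonneg_right (by nlinarith [mul_nonneg hη0.le h6]) hQ
      linarith
    have h3 := hXm m
    rw [hm1, hw1] at h3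
    rcases hb0.eq_or_lt with h | h
    · rw [← h]; simpa using ha0
    · refine le_of_mul_le_mul_right ?_ h
      have := mul_le_mul_of_nonneg_left h3 (show 0 ≤ 1 - s by linarith)
      have := mul_le_mul_of_nonneg_left h2 ha0
      nlinarith
  have h2 : a ≤ (1 + s) * b := by
    choose ϖ hϖ1 hϖ2 using fun x : X => Metric.exists_dist_lt_of_hausdorffDist_lt x.2 hd hfin
    obtain ⟨m, hm1, hm2⟩ := push (κ := Y) (fun y => ⟨ϖ y, hϖ1 y⟩) u
    have h3 := hYm m
    rw [hm1, hu1, hm2] at h3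
    have h4 := (abs_le.1 (hXp u (fun i j => Real.exp (-‖ϖ i - ϖ j‖)) (2 * δ) (by positivity)
      fun i j => (exp_lip (norm_nonneg _) (norm_nonneg _)).trans (by
        have := dist_dist_dist_le (ϖ i) (ϖ j) (i : U) (j : U)
        rw [Real.dist_eq, dist_eq_norm, dist_eq_norm, dist_comm, dist_comm (ϖ j)] at this
        linarith [hϖ2 i, hϖ2 j]))).2
    rw [hu2] at h4
    rcases ha0.eq_or_lt with h | h
    · rw [← h]; positivity
    · refine le_of_mul_le_mul_right ?_ h
      have h5 : 2 * δ * Γ ≤ s := by nlinarith [mul_nonneg hδ0.le hk, mul_nonneg (mul_nonneg hδ0.le hk) hΓ]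
      have := mul_le_mul_of_nonneg_left (show _ ≤ (1 + s) * a by nlinarith) hb0 |> h3.trans
      nlinarith
  rw [abs_lt]
  constructor <;> nlinarith

end Pool.Agent.S14147
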