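import Pool.Statements.S14160
import Pool.Agent.H26.Delta2

set_option autoImplicit false
open Pool Pool.MP_ea0cba_gt

namespace Pool.Agent.S14160

/-- The negation of the preceding statement: If f is a local homeomorphism from a metric continuum X onto a metric space Y, and any two points of X lie in a hereditarily decomposable subcontinuum irreducible between them, then the same holds for any two points of Y. -/
theorem result :
    ¬ (∀ (X Y : Type) [MetricSpace X] [MetricSpace Y] [CompactSpace X] [ConnectedSpace X]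
      (f : X → Y), IsLocalHomeomorph f → Function.Surjective f →
      (∀ x y : X, ∃ K : Set X, IsCompact K ∧ IsConnected K ∧ x ∈ K ∧ y ∈ K ∧
        (∀ L : Set X, L ⊆ K → IsCompact L → IsConnected L → x ∈ L → y ∈ L → L = K) ∧
        (∀ M : Set X, M ⊆ K → IsCompact M → IsConnected M → M.Nontrivial →
          ∃ A B : Set X, A ⊆ M ∧ B ⊆ M ∧ A ≠ M ∧ B ≠ M ∧ IsCompact A ∧ IsConnected A ∧
            IsCompact B ∧ IsConnected B ∧ A ∪ B = M)) →
      (∀ x y : Y, ∃ K : Set Y, IsCompact K ∧ IsConnected K ∧ x ∈ K ∧ y ∈ K ∧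
        (∀ L : Set Y, L ⊆ K → IsCompact L → IsConnected L → x ∈ L → y ∈ L → L = K) ∧
        (∀ M : Set Y, M ⊆ K → IsCompact M → IsConnected M → M.Nontrivial →
          ∃ A B : Set Y, A ⊆ M ∧ B ⊆ M ∧ A ≠ M ∧ B ≠ M ∧ IsCompact A ∧ IsConnected A ∧
            IsCompact B ∧ IsConnected B ∧ A ∪ B = M))) := by
  intro H
  obtain ⟨X, _, _, T, p, v, h1, h2, h3, h4, h5⟩ := Pool.Agent.H26.Delta.main
  haveI : ConnectedSpace X := @ConnectedSpace.mk _ _ ⟨isPreconnected_of_forall p fun y _ =>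
    let ⟨K, a, b, c, _⟩ := h4 p y
    ⟨K, Set.subset_univ _, b, c, a.2.2⟩⟩ ⟨p⟩
  let S : Setoid X := ⟨fun x y => x = y ∨ x = T y, ⟨fun _ => Or.inl rfl, by
    rintro x y (rfl | rfl)
    exacts [Or.inl rfl, Or.inr (h2 _).symm], by
    rintro x y z (rfl | rfl) (rfl | rfl)
    exacts [Or.inl rfl, Or.inr rfl, Or.inr rfl, Or.inl (h2 _)]⟩⟩
  haveI := Pool.Agent.H26.Delta.quot_metrizable S ((isClosed_eq continuous_fst continuous_snd).union
    (isClosed_eq continuous_fst (h1.comp continuous_snd)))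
  letI : MetricSpace (Quotient S) := TopologicalSpace.metrizableSpaceMetric _
  have hc : Continuous (Quotient.mk S) := continuous_quotient_mk'
  have hr : ∀ x y, Quotient.mk S x = Quotient.mk S y ↔ x = y ∨ x = T y := fun _ _ => Quotient.eq
  obtain ⟨K, a, b, c, d, -, e⟩ := H X (Quotient S) (Quotient.mk S)
    (Pool.Agent.H26.Delta.inv_quot h1 h2 h3 hc Quotient.mk_surjective hr) Quotient.mk_surjective
    (fun x y => by
      obtain ⟨K0, a, b, c, d⟩ := h4 x y
      obtain ⟨K, k1, k2, k3, k4, k5, k6⟩ := Pool.Agent.H26.Delta.irred a b c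
      refine ⟨K, k2, k3, k4, k5, k6, fun M m1 m2 m3 m4 => by_contra fun hcon =>
        d M (m1.trans k1) ⟨⟨m2, m3⟩, ?_⟩ m4⟩
      rintro ⟨A, B, e1, e2, e3, e4, e5⟩
      exact hcon ⟨A, B, e3.1, e4.1, e3.ne, e4.ne, e1.1, e1.2, e2.1, e2.2, e5⟩)
    (Quotient.mk S p) (Quotient.mk S v)
  obtain ⟨M, m1, m2, m3⟩ := h5 (Quotient S) (Quotient.mk S) hc Quotient.mk_surjective hr K ⟨a, b⟩ c d
  obtain ⟨A, B, e1, e2, e3, e4, e5, e6, e7, e8, e9⟩ := e M m1 m2.1.1 m2.1.2 m3
  exact m2.2 ⟨A, B, ⟨e5, e6⟩, ⟨e7, e8⟩, e1.ssubset_of_ne e3, e2.ssubset_of_ne e4, e9⟩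

end Pool.Agent.S14160
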