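import Pool.Statements.S14161
import Pool.Agent.H17.Vald2

set_option autoImplicit false
open Topology
open Pool Pool.MP_eb6644_gt

namespace Pool.Agent.S14161

/-- For every compact linearly ordered space that is a continuous image of a Valdivia compactum, the set of points with no countable neighbourhood base has cardinality at most aleph-one. -/
theorem result :
    ∀ (K : Type) [LinearOrder K] [TopologicalSpace K] [OrderTopology K] [CompactSpace K],
      (∃ (Γ : Type) (L : Set (Γ → ℝ)),
          IsCompact L ∧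
          L ⊆ closure (L ∩ {x : Γ → ℝ | (Function.support x).Countable}) ∧
          ∃ f : L → K, Continuous f ∧ Function.Surjective f) →
      Cardinal.mk {x : K | ¬ (𝓝 x).IsCountablyGenerated} ≤ Cardinal.aleph 1 := by
  intro K _ _ _ _ ⟨Γ, L, hc, hd, f, hf, hs⟩
  have : CompactSpace L := isCompact_iff_compactSpace.1 hc
  have hD : Dense {x : L | {γ | (x : Γ → ℝ) γ ≠ 0}.Countable} := by
    intro x
    rw [closure_subtype]
    refine closure_mono ?_ (hd x.2)
    rintro y ⟨a, b⟩
    exact ⟨⟨y, a⟩, b, rfl⟩
  have h1 := H17.Vald.lft_small (fun x : L => (x : Γ → ℝ)) Topology.IsEmbedding.subtypeVal hD f hf hs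
  have h2 := H17.Vald.lft_small (K := Kᵒᵈ) (fun x : L => (x : Γ → ℝ))
    Topology.IsEmbedding.subtypeVal hD f hf hs
  refine le_trans (Cardinal.mk_le_mk_of_subset ?_) (H17.Vald.small_union (X := K) h1 h2)
  intro x hx
  by_contra c
  replace c := not_or.1 c
  have a := H17.Vald.cg_of_not_lft c.1
  have b : (nhdsWithin x (Set.Ioi x)).IsCountablyGenerated :=
    H17.Vald.cg_of_not_lft (K := Kᵒᵈ) c.2
  apply hx
  rw [← nhdsNE_sup_pure, ← nhdsLT_sup_nhdsGT]
  infer_instance

end Pool.Agent.S14161
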