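import Pool.Statements.S14163
import Pool.Agent.H26.Stat

set_option autoImplicit false
open Pool Pool.MP_eb94e1_gt

namespace Pool.Agent.S14163

open Set Cardinal Filter Topology Pool.Agent.H26.Stat

section gen
variable {I : Type}

theorem nhds_pi_iff (g : I → Bool) (U : Set (I → Bool)) :
    U ∈ 𝓝 g ↔ ∃ w : Finset I, ∀ y : I → Bool, (∀ i ∈ w, y i = g i) → y ∈ U := by
  rw [nhds_pi, Filter.mem_pi']
  constructor
  · rintro ⟨w, s, hs, hst⟩
    refine ⟨w, fun y hy => hst fun i hi => ?_⟩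
    rw [hy i hi]; exact mem_of_mem_nhds (hs i)
  · rintro ⟨w, hw⟩
    exact ⟨w, fun i => {g i}, fun i => by simp, fun y hy => hw y fun i hi => hy i hi⟩

theorem nhds_sub_iff {P : (I → Bool) → Prop} (x : Subtype P) (U : Set (Subtype P)) :
    U ∈ 𝓝 x ↔ ∃ w : Finset I, ∀ y : Subtype P, (∀ i ∈ w, y.1 i = x.1 i) → y ∈ U := by
  rw [nhds_induced, mem_comap]
  constructor
  · rintro ⟨t, ht, hU⟩
    obtain ⟨w, hw⟩ := (nhds_pi_iff _ _).1 ht
    exact ⟨w, fun y hy => hU (hw _ hy)⟩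
  · rintro ⟨w, hw⟩
    exact ⟨{y | ∀ i ∈ w, y i = x.1 i}, (nhds_pi_iff _ _).2 ⟨w, fun y hy => hy⟩, fun y hy => hw y hy⟩

theorem closure_sub_iff {P : (I → Bool) → Prop} (x : Subtype P) (A : Set (Subtype P)) :
    x ∈ closure A ↔ ∀ w : Finset I, ∃ y ∈ A, ∀ i ∈ w, y.1 i = x.1 i := by
  rw [mem_closure_iff_nhds]
  constructor
  · intro h w
    obtain ⟨y, hy, hA⟩ := h {y | ∀ i ∈ w, y.1 i = x.1 i} ((nhds_sub_iff _ _).2 ⟨w, fun y hy => hy⟩)
    exact ⟨y, hA, hy⟩
  · intro h U hU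
    obtain ⟨w, hw⟩ := (nhds_sub_iff _ _).1 hU
    obtain ⟨y, hA, hy⟩ := h w
    exact ⟨y, hw y hy, hA⟩

theorem cnt_finsets {M : Set I} (hM : M.Countable) : {F : Finset I | ↑F ⊆ M}.Countable :=
  ((countable_setOf_finite_subset hM).preimage (f := fun F : Finset I => (F : Set I))
    Finset.coe_injective).mono fun F hF => And.intro F.finite_toSet hF

theorem closure_op (φ : Finset I → Set I) (hφ : ∀ F, (φ F).Countable) (i0 : I) :
    ∃ M : Set I, M.Countable ∧ i0 ∈ M ∧ ∀ F : Finset I, ↑F ⊆ M → φ F ⊆ M := by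
  obtain ⟨N, h0, hs⟩ : ∃ N : ℕ → Set I, N 0 = {i0} ∧
      ∀ n, N (n + 1) = N n ∪ ⋃ F ∈ {F : Finset I | ↑F ⊆ N n}, φ F :=
    ⟨fun n => Nat.rec {i0} (fun _ S => S ∪ ⋃ F ∈ {F : Finset I | ↑F ⊆ S}, φ F) n, rfl, fun _ => rfl⟩
  have hc : ∀ n, (N n).Countable := fun n => by
    induction n with
    | zero => rw [h0]; exact countable_singleton _
    | succ n ih => rw [hs]; exact ih.union ((cnt_finsets ih).biUnion fun F _ => hφ F)
  have hm : Monotone N := monotone_nat_of_le_succ fun n => by rw [hs]; exact subset_union_left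
  refine ⟨⋃ n, N n, countable_iUnion hc, mem_iUnion.2 ⟨0, by rw [h0]; rfl⟩, fun F hF => ?_⟩
  choose! n hn using fun i (hi : i ∈ F) => mem_iUnion.1 (hF hi)
  refine Subset.trans ?_ (subset_iUnion N (F.sup n + 1))
  rw [hs]
  exact (subset_biUnion_of_mem (u := φ) (show F ∈ {G : Finset I | ↑G ⊆ N (F.sup n)} from
    fun i hi => hm (Finset.le_sup hi) (hn i hi))).trans subset_union_right

end gen

variable {K : Type} [LinearOrder K] [Big K]

def Unc (l : WithTop K) : Prop :=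
  ∀ S : Set (WithTop K), S.Countable → (∀ x ∈ S, x < l) → ∃ b < l, ∀ x ∈ S, x < b

def Loc (f : WithTop K → Bool) : Prop :=
  ∀ l, Unc l → ∃ α < l, ∀ y, α < y → y ≤ l → f y = f l

noncomputable def r (M : Set (WithTop K)) (y : WithTop K) : WithTop K :=
  wellFounded_lt.min {w | (w ∈ M ∨ w = ⊤) ∧ y ≤ w} ⟨⊤, Or.inr rfl, le_top⟩

theorem r_spec (M : Set (WithTop K)) (y : WithTop K) : (r M y ∈ M ∨ r M y = ⊤) ∧ y ≤ r M y :=
  wellFounded_lt.min_mem {w | (w ∈ M ∨ w = ⊤) ∧ y ≤ w} ⟨⊤, Or.inr rfl, le_top⟩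

theorem r_le {M : Set (WithTop K)} {y w : WithTop K} (h : w ∈ M ∨ w = ⊤) (h' : y ≤ w) : r M y ≤ w :=
  not_lt.1 (wellFounded_lt.not_lt_min {w | (w ∈ M ∨ w = ⊤) ∧ y ≤ w} ⟨h, h'⟩)

theorem r_self {M : Set (WithTop K)} {y : WithTop K} (h : y ∈ M) : r M y = y :=
  le_antisymm (r_le (Or.inl h) le_rfl) (r_spec M y).2

theorem loc_r {M : Set (WithTop K)} (hM : M.Countable) (g : WithTop K → Bool) :
    Loc fun y => g (r M y) := by
  intro l hl
  obtain ⟨b, hb, h⟩ := hl (M ∩ Iio l) (hM.mono inter_subset_left) fun x hx => hx.2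
  refine ⟨b, hb, fun y h1 h2 => congrArg g (le_antisymm
    (r_le (r_spec M l).1 (h2.trans (r_spec M l).2)) (r_le (r_spec M y).1 (not_lt.1 fun h3 => ?_)))⟩
  rcases (r_spec M y).1 with h4 | h4
  · exact lt_asymm (h _ ⟨h4, h3⟩) (h1.trans_le (r_spec M y).2)
  · exact not_top_lt (h4 ▸ h3)

theorem supp {f : WithTop K → Bool} (hf : Loc f) :
    ∃ s : Set (WithTop K), s.Countable ∧ ∀ M, s ⊆ M → ∀ y, f (r M y) = f y := by
  have key : ∀ z, ∃ s : Set (WithTop K), s.Countable ∧ ∀ y ≤ z, ∃ w ∈ s, y ≤ w ∧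
      ∀ u, y ≤ u → u ≤ w → f u = f y := by
    intro z
    induction z using WellFoundedLT.induction with
    | ind z ih =>
      choose! s hs hs' using ih
      by_cases hz : Unc z
      · obtain ⟨α, h1, h2⟩ := hf z hz
        refine ⟨insert z (s α), (hs α h1).insert _, fun y hy => ?_⟩
        rcases le_or_gt y α with h | h
        · obtain ⟨w, hw, h3⟩ := hs' α h1 y h
          exact ⟨w, Or.inr hw, h3⟩
        · exact ⟨z, Or.inl rfl, hy, fun u h3 h4 =>
            (h2 u (h.trans_le h3) h4).trans (h2 y h hy).symm⟩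
      · simp only [Unc, not_forall, not_exists, not_and, not_lt] at hz
        obtain ⟨S, hS, h1, h2⟩ := hz
        refine ⟨insert z (⋃ x ∈ S, s x), (hS.biUnion fun x hx => hs x (h1 x hx)).insert _,
          fun y hy => ?_⟩
        rcases hy.eq_or_lt with rfl | hy
        · exact ⟨y, Or.inl rfl, le_rfl, fun u h3 h4 => by rw [le_antisymm h4 h3]⟩
        · obtain ⟨x, hx, h3⟩ := h2 y hy
          obtain ⟨w, hw, h4⟩ := hs' x (h1 x hx) y h3
          exact ⟨w, Or.inr (mem_biUnion hx hw), h4⟩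
  obtain ⟨s, hs, h⟩ := key ⊤
  refine ⟨s, hs, fun M hM y => ?_⟩
  obtain ⟨w, hw, h1, h2⟩ := h y le_top
  exact h2 _ (r_spec M y).2 (r_le (Or.inl (hM hw)) h1)

abbrev II (K : Type) := WithTop K ⊕ K

def One (h : II K → Bool) : Prop := ∀ i j, h (.inr i) = true → h (.inr j) = true → i = j

def Cond (h : II K → Bool) : Prop := Loc (fun y => h (.inl y)) ∧ One h

open Classical in
noncomputable def R (M : Set (II K)) (g : II K → Bool) : II K → Bool
  | .inl y => g (.inl (r (Sum.inl ⁻¹' M) y))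
  | .inr i => if Sum.inr i ∈ M then g (.inr i) else false

theorem R_true {M : Set (II K)} {g : II K → Bool} {i : K} (h : R M g (.inr i) = true) :
    Sum.inr i ∈ M ∧ g (.inr i) = true := by
  simpa [R] using h

theorem cond_R {M : Set (II K)} (hM : M.Countable) {g : II K → Bool} (hg : One g) : Cond (R M g) :=
  ⟨loc_r (hM.preimage Sum.inl_injective) fun y => g (.inl y),
    fun i j hi hj => hg i j (R_true hi).2 (R_true hj).2⟩

theorem R_mem {M : Set (II K)} (g : II K → Bool) {i : II K} (h : i ∈ M) : R M g i = g i := by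
  cases i with
  | inl y => simp only [R]; rw [r_self h]
  | inr i => simp only [R]; rw [if_pos h]

theorem supp' (x : Subtype (Cond (K := K))) :
    ∃ s : Set (II K), s.Countable ∧ ∀ M, s ⊆ M → R M x.1 = x.1 := by
  obtain ⟨s, hs, h⟩ := supp x.2.1
  have hc : {i : K | x.1 (.inr i) = true}.Countable :=
    Set.Subsingleton.countable fun i hi j hj => x.2.2 i j hi hj
  refine ⟨Sum.inl '' s ∪ Sum.inr '' {i | x.1 (.inr i) = true}, (hs.image _).union (hc.image _),
    fun M hM => funext fun i => ?_⟩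
  cases i with
  | inl y => exact h _ (fun w hw => hM (Or.inl ⟨w, hw, rfl⟩)) y
  | inr i =>
    simp only [R]
    split_ifs with h1
    · rfl
    · cases h2 : x.1 (.inr i)
      · rfl
      · exact (h1 (hM (Or.inr ⟨i, h2, rfl⟩))).elim

theorem R_congr {M : Set (II K)} (h0 : Sum.inl ⊤ ∈ M) (w : Finset (II K)) :
    ∃ F : Finset (II K), ↑F ⊆ M ∧ ∀ g g' : II K → Bool, (∀ i ∈ F, g i = g' i) →
      ∀ i ∈ w, R M g i = R M g' i := by
  classical
  let ρ : II K → II K := fun i => match i with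
    | .inl y => .inl (r (Sum.inl ⁻¹' M) y)
    | .inr k => if Sum.inr k ∈ M then .inr k else .inl ⊤
  refine ⟨w.image ρ, fun j hj => ?_, fun g g' h i hi => ?_⟩
  · obtain ⟨i, -, rfl⟩ := Finset.mem_image.1 hj
    cases i with
    | inl y =>
      rcases (r_spec (Sum.inl ⁻¹' M) y).1 with h | h
      · exact h
      · simp only [ρ, h]; exact h0
    | inr k =>
      simp only [ρ]
      split_ifs with h
      · exact h
      · exact h0
  · have := h _ (Finset.mem_image_of_mem ρ hi)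
    cases i with
    | inl y => exact this
    | inr k =>
      simp only [R]
      split_ifs with h1
      · simpa only [ρ, if_pos h1] using this
      · rfl

theorem normal : NormalSpace (Subtype (Cond (K := K))) := by
  classical
  refine ⟨fun A B hA hB hd => ?_⟩
  suffices h : Disjoint (closure (Subtype.val '' A)) (closure (Subtype.val '' B)) by
    obtain ⟨U, V, hU, hV, h1, h2, h3⟩ := normal_separation isClosed_closure isClosed_closure h
    exact ⟨_, _, hU.preimage continuous_subtype_val, hV.preimage continuous_subtype_val,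
      fun x hx => h1 (subset_closure (mem_image_of_mem _ hx)),
      fun x hx => h2 (subset_closure (mem_image_of_mem _ hx)), h3.preimage _⟩
  refine disjoint_left.2 fun g hgA hgB => ?_
  have key : ∀ C : Set (Subtype (Cond (K := K))), g ∈ closure (Subtype.val '' C) →
      ∀ w : Finset (II K), ∃ y ∈ C, ∀ i ∈ w, y.1 i = g i := fun C hC w => by
    obtain ⟨_, h1, y, hy, rfl⟩ := mem_closure_iff_nhds.1 hC _
      ((nhds_pi_iff g {y | ∀ i ∈ w, y i = g i}).2 ⟨w, fun y hy => hy⟩)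
    exact ⟨y, hy, h1⟩
  choose a ha ha' using key A hgA
  choose b hb hb' using key B hgB
  choose s hs hs' using supp' (K := K)
  obtain ⟨M, hM, h0, hcl⟩ := closure_op (fun F => s (a F) ∪ s (b F))
    (fun F => (hs _).union (hs _)) (Sum.inl ⊤)
  have hg : One g := fun i j hi hj => (a {.inr i, .inr j}).2.2 i j
    ((ha' _ _ (by simp)).trans hi) ((ha' _ _ (by simp)).trans hj)
  refine disjoint_left.1 hd (?_ : (⟨R M g, cond_R hM hg⟩ : Subtype Cond) ∈ A) ?_
  · rw [← hA.closure_eq, closure_sub_iff]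
    intro w
    obtain ⟨F, hF, h⟩ := R_congr h0 w
    refine ⟨a F, ha F, fun i hi => ?_⟩
    rw [← hs' (a F) M (subset_union_left.trans (hcl F hF))]
    exact h _ _ (ha' F) i hi
  · rw [← hB.closure_eq, closure_sub_iff]
    intro w
    obtain ⟨F, hF, h⟩ := R_congr h0 w
    refine ⟨b F, hb F, fun i hi => ?_⟩
    rw [← hs' (b F) M (subset_union_right.trans (hcl F hF))]
    exact h _ _ (hb' F) i hi

theorem wl (𝒰 : Set (Set (Subtype (Cond (K := K))))) (ho : ∀ U ∈ 𝒰, IsOpen U)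
    (hc : ⋃₀ 𝒰 = Set.univ) : ∃ 𝒱 ⊆ 𝒰, 𝒱.Countable ∧ Dense (⋃₀ 𝒱) := by
  classical
  have : ∀ x : Subtype (Cond (K := K)), ∃ U ∈ 𝒰, ∃ w : Finset (II K), ∀ y : Subtype (Cond (K := K)),
      (∀ i ∈ w, y.1 i = x.1 i) → y ∈ U := fun x => by
    obtain ⟨U, hU, hx⟩ : x ∈ ⋃₀ 𝒰 := hc ▸ mem_univ x
    exact ⟨U, hU, (nhds_sub_iff _ _).1 ((ho U hU).mem_nhds hx)⟩
  choose U hU G hG using this
  let pt : Finset (II K) → Finset (II K) → Subtype (Cond (K := K)) := fun F T =>
    if h : One (fun i => decide (i ∈ T)) then ⟨R F fun i => decide (i ∈ T),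
      cond_R F.countable_toSet h⟩
    else ⟨R ∅ fun _ => false, cond_R countable_empty fun _ _ h => by simp at h⟩
  obtain ⟨M, hM, -, hcl⟩ := closure_op (fun F => ⋃ T ∈ F.powerset, (G (pt F T) : Set (II K)))
    (fun F => F.powerset.countable_toSet.biUnion fun T _ => Finset.countable_toSet _) (Sum.inl ⊤)
  refine ⟨(fun p : Finset (II K) × Finset (II K) => U (pt p.1 p.2)) ''
    ({F : Finset (II K) | ↑F ⊆ M} ×ˢ {F : Finset (II K) | ↑F ⊆ M}), ?_,
    ((cnt_finsets hM).prod (cnt_finsets hM)).image _, fun z => ?_⟩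
  · rintro _ ⟨p, -, rfl⟩; exact hU _
  rw [closure_sub_iff]
  intro w
  let F := w.filter (· ∈ M)
  let T := F.filter fun i => z.1 i = true
  have hF : (F : Set (II K)) ⊆ M := fun i hi => (Finset.mem_filter.1 hi).2
  have hT : One (fun i => decide (i ∈ T)) := fun i j hi hj => z.2.2 i j
    (Finset.mem_filter.1 (of_decide_eq_true hi)).2 (Finset.mem_filter.1 (of_decide_eq_true hj)).2
  have hx : (pt F T).1 = R F fun i => decide (i ∈ T) := by simp only [pt, dif_pos hT]
  have hGM : (G (pt F T) : Set (II K)) ⊆ M := fun i hi => hcl F hF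
    (mem_biUnion (x := T) (Finset.mem_powerset.2 (Finset.filter_subset _ _)) hi)
  let g : II K → Bool := fun i => if i ∈ w then z.1 i else (pt F T).1 i
  have hg1 : ∀ i, g (.inr i) = true → z.1 (.inr i) = true := fun i hi => by
    simp only [g] at hi
    split_ifs at hi with h
    · exact hi
    · rw [hx] at hi
      exact (h (Finset.mem_filter.1 (R_true hi).1).1).elim
  refine ⟨⟨R (w ∪ G (pt F T) : Finset (II K)) g, cond_R (Finset.countable_toSet _)
    fun i j hi hj => z.2.2 i j (hg1 i hi) (hg1 j hj)⟩, ⟨_, ⟨(F, T), ⟨hF, fun i hi =>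
      hF (Finset.filter_subset _ _ hi)⟩, rfl⟩, hG _ _ fun i hi => ?_⟩, fun i hi => ?_⟩
  · refine (R_mem g (by simp [hi])).trans ?_
    simp only [g]
    split_ifs with h
    · have hiF : i ∈ F := Finset.mem_filter.2 ⟨h, hGM hi⟩
      rw [hx, R_mem _ hiF]
      cases h2 : z.1 i <;> simp [T, hiF, h2]
    · rfl
  · refine (R_mem g (by simp [hi])).trans ?_
    simp only [g, if_pos hi]

theorem unc_top : Unc (⊤ : WithTop K) := by
  intro S hS h
  obtain ⟨b, hb⟩ := Big.bdd _ (countable_le (hS.preimage (WithTop.coe_injective (α := K))))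
  refine ⟨b, WithTop.coe_lt_top b, fun x hx => ?_⟩
  obtain ⟨k, rfl⟩ := WithTop.ne_top_iff_exists.1 (h x hx).ne
  exact WithTop.coe_lt_coe.2 (hb k hx)

theorem press (a : K → WithTop K) (ha : ∀ l : K, Unc (l : WithTop K) → a l < l) :
    ∃ α : K, ∀ b, ∃ l : K, Unc (l : WithTop K) ∧ b < l ∧ a l ≤ α := by
  by_contra hc
  push Not at hc
  choose g hg using hc
  let W := (ℵ₁ : Cardinal.{0}).ord.ToType
  have hW : ∀ s : Set W, s.Countable → ∃ b, ∀ x ∈ s, x < b := fun s hs => by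
    have hcof : Order.cof W = ℵ₁ := by rw [Ordinal.cof_toType, isRegular_aleph_one.cof_ord]
    have : ¬ IsCofinal s := fun h => by
      have h1 := Order.cof_le h
      rw [hcof] at h1
      exact aleph0_lt_aleph_one.not_ge (h1.trans (le_aleph0_iff_set_countable.2 hs))
    simpa only [IsCofinal, not_forall, not_exists, not_and, not_le] using this
  have hW' : #W ≤ 𝔠 := by rw [mk_ord_toType]; exact aleph_one_le_continuum
  have : ∀ (i : W) (x : ∀ j < i, K), ∃ b, ∀ j (h : j < i), x j h < b ∧ g (x j h) < b := by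
    intro i x
    obtain ⟨b, hb⟩ := Big.bdd (range fun j : Iio i => max (x j.1 j.2) (g (x j.1 j.2)))
      (mk_range_le.trans ((mk_set_le _).trans hW'))
    exact ⟨b, fun j h => max_lt_iff.1 (hb _ ⟨⟨j, h⟩, rfl⟩)⟩
  choose c hc using this
  let x : W → K := WellFoundedLT.fix c
  have hx : ∀ i j, j < i → x j < x i ∧ g (x j) < x i := fun i j h => by
    have : x i = c i fun j _ => x j := WellFoundedLT.fix_eq c i
    rw [this]; exact hc i (fun j _ => x j) j h
  obtain ⟨b, hb⟩ := Big.bdd (range x) (mk_range_le.trans hW')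
  have hne : (upperBounds (range x)).Nonempty := ⟨b, fun y hy => (hb y hy).le⟩
  have hl : IsLUB (range x) (wellFounded_lt.min _ hne) := ⟨wellFounded_lt.min_mem _ hne,
    fun y hy => not_lt.1 (wellFounded_lt.not_lt_min _ hy)⟩
  generalize wellFounded_lt.min _ hne = l at hl
  have h1 : ∀ y : WithTop K, y < l → ∃ i, y < x i := fun y hy => by
    obtain ⟨k, rfl⟩ := WithTop.ne_top_iff_exists.1 hy.ne_top
    obtain ⟨_, ⟨i, rfl⟩, h⟩ := (lt_isLUB_iff hl).1 (WithTop.coe_lt_coe.1 hy)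
    exact ⟨i, WithTop.coe_lt_coe.2 h⟩
  have h2 : ∀ i, x i < l ∧ g (x i) < l := fun i => by
    obtain ⟨j, hj⟩ := hW {i} (countable_singleton i)
    exact ⟨(hx j i (hj i rfl)).1.trans_le (hl.1 (mem_range_self j)),
      (hx j i (hj i rfl)).2.trans_le (hl.1 (mem_range_self j))⟩
  have hu : Unc (l : WithTop K) := fun S hS h => by
    haveI : Nonempty W := ⟨(hW ∅ countable_empty).choose⟩
    choose! n hn using h1
    obtain ⟨j, hj⟩ := hW _ (hS.image n)
    exact ⟨x j, WithTop.coe_lt_coe.2 (h2 j).1, fun y hy => (hn y (h y hy)).trans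
      (WithTop.coe_lt_coe.2 (hx j _ (hj _ (mem_image_of_mem n hy))).1)⟩
  obtain ⟨i, hi⟩ := h1 _ (ha l hu)
  exact lt_asymm hi (hg (x i) l hu (h2 i).2)

theorem eval_open (i : II K) (b : Bool) : IsOpen {x : Subtype (Cond (K := K)) | x.1 i = b} :=
  isOpen_iff_mem_nhds.2 fun x hx => (nhds_sub_iff _ _).2
    ⟨{i}, fun y hy => (hy i (Finset.mem_singleton_self i)).trans hx⟩

def cell (l : K) : Set (Subtype (Cond (K := K))) :=
  {x | x.1 (.inl l) = true} ∩ {x | x.1 (.inl ⊤) = false} ∩ {x | x.1 (.inr l) = true}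

theorem not_cell (L : Set (Subtype (Cond (K := K)))) (hL : IsLindelof L) :
    ∃ l, Disjoint (cell l) L := by
  by_contra hc
  push Not at hc
  choose x hx hxL using fun l => not_disjoint_iff.1 (hc l)
  choose! a ha ha' using fun (l : K) (h : Unc (l : WithTop K)) => (x l).2.1 l h
  obtain ⟨α, hα⟩ := press a ha
  obtain ⟨t, ht, hcov⟩ := hL.elim_countable_subcover (fun y : Ioi α =>
    {x | x.1 (.inl ⊤) = true} ∪ {x | x.1 (.inl y.1) = false})
    (fun y => (eval_open _ _).union (eval_open _ _)) (fun z _ => by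
      obtain ⟨β, h1, h2⟩ := z.2.1 ⊤ unc_top
      obtain ⟨k, rfl⟩ := WithTop.ne_top_iff_exists.1 h1.ne
      obtain ⟨y, hy⟩ := exists_gt (max α k)
      refine mem_iUnion.2 ⟨⟨y, (le_max_left _ _).trans_lt hy⟩, ?_⟩
      have := h2 y (WithTop.coe_lt_coe.2 ((le_max_right _ _).trans_lt hy)) le_top
      cases h3 : z.1 (.inl ⊤)
      · exact Or.inr (this.trans h3)
      · exact Or.inl h3)
  obtain ⟨b, hb⟩ := Big.bdd _ (countable_le (ht.image Subtype.val))
  obtain ⟨l, h1, h2, h3⟩ := hα b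
  obtain ⟨y, hy, h4⟩ := mem_iUnion₂.1 (hcov (hxL l))
  rcases h4 with h4 | h4
  · simpa using h4.symm.trans (hx l).1.2
  · have := ha' l h1 y.1 (h3.trans_lt (WithTop.coe_lt_coe.2 y.2))
      (WithTop.coe_le_coe.2 ((hb _ (mem_image_of_mem _ hy)).trans h2).le)
    simpa using h4.symm.trans (this.trans (hx l).1.1)

theorem cell_ne (l : K) : (cell l).Nonempty := by
  classical
  refine ⟨⟨R {.inl l, .inl ⊤, .inr l} fun i => decide (i = .inl l ∨ i = .inr l),
    cond_R (toFinite _).countable fun i j hi hj => ?_⟩, ⟨?_, ?_⟩, ?_⟩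
  · simp at hi hj; rw [hi, hj]
  all_goals
    simp only [mem_setOf_eq]
    rw [R_mem _ (by simp)]
    simp

/-- There is a normal T1 space in which every open cover has a countable subfamily with dense union, but some family of disjoint nonempty open sets is not met entirely by any Lindelöf subset. -/
theorem result :
    ∃ (X : Type) (_ : TopologicalSpace X), T4Space X ∧
      (∀ 𝒰 : Set (Set X), (∀ U ∈ 𝒰, IsOpen U) → ⋃₀ 𝒰 = Set.univ →
        ∃ 𝒱 ⊆ 𝒰, 𝒱.Countable ∧ Dense (⋃₀ 𝒱)) ∧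
      (∃ 𝒰 : Set (Set X), (∀ U ∈ 𝒰, IsOpen U ∧ U.Nonempty) ∧ 𝒰.PairwiseDisjoint id ∧
        ∀ L : Set X, IsLindelof L → ∃ U ∈ 𝒰, Disjoint U L) := by
  obtain ⟨K, _, _⟩ := exists_big
  haveI := normal (K := K)
  refine ⟨Subtype (Cond (K := K)), inferInstance, {}, wl, range cell, ?_, ?_, fun L hL => ?_⟩
  · rintro _ ⟨l, rfl⟩
    exact ⟨((eval_open _ _).inter (eval_open _ _)).inter (eval_open _ _), cell_ne l⟩
  · rintro _ ⟨l, rfl⟩ _ ⟨m, rfl⟩ h
    refine disjoint_left.2 fun x h1 h2 => h ?_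
    rw [x.2.2 l m h1.2 h2.2]
  · obtain ⟨l, hl⟩ := not_cell L hL
    exact ⟨_, mem_range_self l, hl⟩

end Pool.Agent.S14163
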