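import Pool.Statements.S14175
import Pool.Agent.H17.TE6

set_option autoImplicit false
open Pool Pool.MP_ed4848_gt

namespace Pool.Agent.S14175

/-- For every index set κ and every compact Hausdorff space K of countable tightness, the image of any continuous map from the product space ℝ^κ into K has a countable network, i.e. is cosmic. -/
theorem result :
    ∀ (κ : Type) (K : Type) [TopologicalSpace K] [CompactSpace K] [T2Space K],
      (∀ (A : Set K) (x : K), x ∈ closure A →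
          ∃ C : Set K, C ⊆ A ∧ C.Countable ∧ x ∈ closure C) →
      ∀ φ : (κ → ℝ) → K, Continuous φ →
        ∃ 𝒩 : Set (Set K), 𝒩.Countable ∧ (∀ N ∈ 𝒩, N ⊆ Set.range φ) ∧
          ∀ x ∈ Set.range φ, ∀ U : Set K, IsOpen U → x ∈ U →
            ∃ N ∈ 𝒩, x ∈ N ∧ N ⊆ U := by
  intro κ K _ _ _ ht φ hφ
  classical
  obtain ⟨S, hS, hd⟩ : ∃ S : Set κ, S.Countable ∧ Pool.Agent.H17.TE.Dep S φ := by
    by_contra hn
    push Not at hn
    obtain ⟨h, hh⟩ := Pool.Agent.H17.TE.cube_of_not_dep Pool.Agent.H17.W1.mkW hφ hn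
    refine Pool.Agent.H17.TE.cube_tight Pool.Agent.H17.W1.mkW hh fun A x hx => ?_
    obtain ⟨C, h1, h2, h3⟩ := ht A x hx
    exact ⟨C, h1, h2, h3⟩
  have := hS.to_subtype
  let ex : (S → ℝ) → κ → ℝ := fun z γ => if h : γ ∈ S then z ⟨γ, h⟩ else 0
  have hex : Continuous ex := by
    refine continuous_pi fun γ => ?_
    simp only [ex]
    split_ifs
    · exact continuous_apply _
    · exact continuous_const
  have hre : ∀ t, φ (ex fun γ => t γ) = φ t := fun t =>
    hd _ _ fun γ hγ => by simp only [ex, dif_pos hγ]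
  refine ⟨(fun B => (φ ∘ ex) '' B) '' TopologicalSpace.countableBasis (S → ℝ),
    (TopologicalSpace.countable_countableBasis _).image _, ?_, ?_⟩
  · rintro _ ⟨B, -, rfl⟩ _ ⟨z, -, rfl⟩
    exact ⟨_, rfl⟩
  · rintro _ ⟨t, rfl⟩ U hU hx
    obtain ⟨B, hB, m, s⟩ := (TopologicalSpace.isBasis_countableBasis
      (S → ℝ)).exists_subset_of_mem_open (a := fun γ : S => t γ) (u := (φ ∘ ex) ⁻¹' U)
      (by show φ (ex fun γ : S => t γ) ∈ U; rw [hre]; exact hx) (hU.preimage (hφ.comp hex))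
    exact ⟨_, ⟨B, hB, rfl⟩, ⟨_, m, hre t⟩, Set.image_subset_iff.2 s⟩

end Pool.Agent.S14175
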