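import Pool.Statements.S14180
import Pool.Agent.H15.Para

set_option autoImplicit false
open Topology Pointwise
open Pool Pool.MP_ede847_gt

namespace Pool.Agent.S14180

theorem result :
    ¬ (∀ (G : Type) [Group G] [TopologicalSpace G] [ContinuousMul G],
      (∀ U ∈ 𝓝 (1 : G), ∃ F : Set G, F.Countable ∧ U * F = Set.univ) →
      (∀ U ∈ 𝓝 (1 : G), ∃ F : Set G, F.Countable ∧ F * U = Set.univ)) := by
  intro H
  exact Pool.Agent.H15.Para.not_left (H Pool.Agent.H15.Para.G Pool.Agent.H15.Para.right_bdd)

end Pool.Agent.S14180
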