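import Pool.Statements.S14230
import Pool.Agent.H29.KDet

set_option autoImplicit false
open Pool Pool.MP_f54e59_gt

namespace Pool.Agent.S14230

open Pool.Agent.H29.KDet in
theorem result :
    ¬ (∀ K : (∀ (Y : Type) [TopologicalSpace Y], Prop),
      (∀ (Y : Type) [TopologicalSpace Y], K Y → T0Space Y) →
      (∀ (Y : Type) [TopologicalSpace Y], T0Space Y → QuasiSober Y → K Y) →
      ∀ (I : Type) (X : I → Type) [∀ i, TopologicalSpace (X i)],
        (∀ i, T0Space (X i) ∧ ∀ A : Set (X i), IsIrreducible A → IsClosed A →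
          ∀ (Y : Type) [TopologicalSpace Y], K Y → ∀ f : X i → Y, Continuous f →
            ∃! y : Y, closure (f '' A) = closure {y}) →
        ∀ A : Set (∀ i, X i), IsIrreducible A → IsClosed A →
          ∀ (Y : Type) [TopologicalSpace Y], K Y → ∀ f : (∀ i, X i) → Y, Continuous f →
            ∃! y : Y, closure (f '' A) = closure {y}) := by
  intro h
  have h1 := h K K_T0 (fun Z _ h0 h1 => Or.inl ⟨h0, h1⟩) ℕ X
    (fun i => ⟨inferInstance, fun A hA _ Z _ hZ f hf => det i A hA Z hZ f hf⟩)
    Set.univ irr isClosed_univ Y (Or.inr ⟨Homeomorph.refl _⟩) emb emb_cont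
  exact fail h1.exists
end Pool.Agent.S14230
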