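import Pool.Statements.S14249
import Pool.Agent.H19.DtE

set_option autoImplicit false
open Pool Pool.MP_f74662_gt

namespace Pool.Agent.S14249

/-- For every N>1 there are sets of reals A,B,C,A_1..A_N with A p B p C and A p A_1 p ... p A_N p C. Here E<F means E embeds homeomorphically in F but not conversely, and E p F means E<F with nothing strictly between. -/
theorem result :
    ∀ Lt : Set ℝ → Set ℝ → Prop,
      (∀ E F : Set ℝ, Lt E F ↔
        ((∃ f : ↥E → ↥F, Topology.IsEmbedding f) ∧ ¬ ∃ g : ↥F → ↥E, Topology.IsEmbedding g)) →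
    ∀ P : Set ℝ → Set ℝ → Prop,
      (∀ E F : Set ℝ, P E F ↔ (Lt E F ∧ ¬ ∃ G : Set ℝ, Lt E G ∧ Lt G F)) →
    ∀ N : ℕ, 1 < N →
      ∃ A B C : Set ℝ, ∃ X : ℕ → Set ℝ,
        P A B ∧ P B C ∧ P A (X 1) ∧
        (∀ i : ℕ, 1 ≤ i → i < N → P (X i) (X (i + 1))) ∧
        P (X N) C := by
  intro Lt hLt P hP N hN
  obtain ⟨A, B, C, S, h⟩ := Pool.Agent.H19.Dt.chain_fin N hN
  refine ⟨A, B, C, S, ?_⟩
  simp only [hP, hLt]
  exact h

end Pool.Agent.S14249
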