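import Pool.Statements.S14293
import Pool.Agent.H19.DtE

set_option autoImplicit false
open Pool Pool.MP_fe23ac_gt

namespace Pool.Agent.S14293

/-- For sets of reals ordered by embeddability (E<F: E embeds in F, not conversely; E p F: E<F with nothing strictly between), there exist A,B,C and A_1,A_2,... with A p B p C, A p A_1 p A_2 p ..., and every A_n < C. -/
theorem result :
    ∀ (le lt p : Set ℝ → Set ℝ → Prop),
      (∀ E F : Set ℝ, le E F ↔ ∃ f : E → F, Topology.IsEmbedding f) →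
      (∀ E F : Set ℝ, lt E F ↔ le E F ∧ ¬ le F E) →
      (∀ E F : Set ℝ, p E F ↔ lt E F ∧ ¬ ∃ G : Set ℝ, lt E G ∧ lt G F) →
      ∃ (A B C : Set ℝ) (S : ℕ → Set ℝ),
        p A B ∧ p B C ∧ p A (S 0) ∧ (∀ n : ℕ, p (S n) (S (n + 1))) ∧
          ∀ n : ℕ, lt (S n) C := by
  intro le lt p hle hlt hp
  obtain ⟨A, B, C, S, h⟩ := Pool.Agent.H19.Dt.chain_inf
  refine ⟨A, B, C, S, ?_⟩
  simp only [hp, hlt, hle]
  exact h

end Pool.Agent.S14293
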