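import Pool.Statements.S14307
import Pool.Agent.H15.Dim

set_option autoImplicit false
open Pool Pool.MP_ffad8e_gt

namespace Pool.Agent.S14307

theorem result :
    ∀ (ind : ℕ → (α : Type) → [TopologicalSpace α] → Prop),
      (∀ (α : Type) [TopologicalSpace α],
        (ind 0 α ↔ IsEmpty α) ∧
        ∀ k : ℕ, (ind (k + 1) α ↔
          ∀ x : α, ∀ U ∈ nhds x, ∃ V : Set α,
            IsOpen V ∧ x ∈ V ∧ V ⊆ U ∧ ind k ↥(frontier V))) →
      ∀ (X : Type) [TopologicalSpace X] [TopologicalSpace.SeparableSpace X]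
        [TopologicalSpace.MetrizableSpace X] (n : ℕ),
        ((∃ (Y : Type) (_ : TopologicalSpace Y), PolishSpace Y ∧
            ∃ f : X → Y, Topology.IsEmbedding f ∧ ind (n + 1) ↥(Set.range f)ᶜ) ↔
          ∃ A : Fin (n + 1) → Set X, (⋃ i, A i) = Set.univ ∧
            ∀ i, ∃ (Y : Type) (_ : TopologicalSpace Y), PolishSpace Y ∧
              ∃ f : ↥(A i) → Y, Topology.IsEmbedding f ∧ ind 1 ↥(Set.range f)ᶜ) := by
  open Set Topology TopologicalSpace Pool.Agent.H15.Dim in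
  intro ind h X _ _ _ n
  constructor
  · rintro ⟨Y, _, hY, f, hf, hi⟩
    obtain ⟨T, hT, hz⟩ := dec ind h (n + 1) ↥(range f)ᶜ Unit (fun _ => univ)
      (fun _ => isClosed_univ) (fun _ => ⟨(), trivial⟩)
      (fun _ => L0 ind h _ IsInducing.subtypeVal hi)
    obtain ⟨G, hG, hG'⟩ := cover (fun j => Subtype.val '' T j) fun j =>
      Z0.ind (IsEmbedding.subtypeVal.homeomorphImage _).symm.isInducing (hz j)
    refine ⟨fun i => f ⁻¹' G i, eq_univ_of_forall fun x => mem_iUnion.2 (hG (f x)), fun i =>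
      ⟨G i, inferInstance, polish_gd (hG' i).1, (mapsTo_preimage f (G i)).restrict _ _ _,
        ⟨rst hf.isInducing _, fun a b e => Subtype.ext (hf.injective (congrArg Subtype.val e))⟩,
        (ind1 ind h _).2 ?_⟩⟩
    have hm : ∀ y : ↥(range ((mapsTo_preimage f (G i)).restrict _ _ _))ᶜ,
        y.1.1 ∈ G i ∩ ⋃ j, Subtype.val '' T j := by
      intro y
      have h1 : y.1.1 ∈ (range f)ᶜ := by
        rintro ⟨x, hx⟩
        exact y.2 ⟨⟨x, show f x ∈ G i from hx ▸ y.1.2⟩, Subtype.ext hx⟩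
      obtain ⟨j, hj⟩ := hT ⟨_, h1⟩
      exact ⟨y.1.2, mem_iUnion.2 ⟨j, _, hj, rfl⟩⟩
    exact Z0.ind ((IsInducing.subtypeVal.comp IsInducing.subtypeVal).codRestrict hm) (hG' i).2
  · rintro ⟨A, hA, hh⟩
    letI := metrizableSpaceMetric X
    let e : X → UniformSpace.Completion X := (↑)
    have he : IsEmbedding e := UniformSpace.Completion.coe_isometry.isEmbedding
    have : ∀ i, ∃ G : Set (UniformSpace.Completion X), IsGδ G ∧ e '' A i ⊆ G ∧
        Z0 ↥(G \ e '' A i) := by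
      intro i
      obtain ⟨Y, _, hY, f, hf, hi⟩ := hh i
      letI := upgradeIsCompletelyMetrizable Y
      obtain ⟨G, h1, h2, F, hF⟩ := lavr (e '' A i) (f ∘ (he.homeomorphImage _).symm)
        (hf.comp (he.homeomorphImage _).symm.isEmbedding)
      refine ⟨G, h1, h2, Z0.ind hF ?_⟩
      rw [(he.homeomorphImage _).symm.surjective.range_comp]
      exact (ind1 ind h _).1 hi
    choose G h1 h2 h3 using this
    have hc : ∀ x, ∃ i, x ∈ A i := fun x => mem_iUnion.1 (hA ▸ mem_univ x)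
    have hm : ∀ x, e x ∈ ⋃ i, G i := fun x =>
      (hc x).elim fun i hi => mem_iUnion.2 ⟨i, h2 i ⟨x, hi, rfl⟩⟩
    refine ⟨↥(⋃ i, G i), inferInstance, polish_gd (IsGδ.iUnion h1), fun x => ⟨e x, hm x⟩,
      he.codRestrict _ hm, L3 ind h _ _ (fun j => {y | y.1.1 ∈ G j \ e '' A j}) (fun y => ?_)
      fun j => ?_⟩
    · obtain ⟨j, hj⟩ := mem_iUnion.1 y.1.2
      exact ⟨j, hj, fun ⟨x, _, hx⟩ => y.2 ⟨x, Subtype.ext hx⟩⟩
    · exact Z0.ind (rst (IsInducing.subtypeVal.comp IsInducing.subtypeVal) fun y hy => hy) (h3 j)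

end Pool.Agent.S14307
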