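import Pool.Statements.S14417
import Pool.Agent.H26.Gauge

set_option autoImplicit false
open scoped NNReal ENNReal
open Pool Pool.MP_173f50_lc

namespace Pool.Agent.S14417

/-- The family of sets {gauge functions f (nondecreasing, right-continuous, f(0)=0, positive off 0) with positive f-Hausdorff measure on A}, as A ranges over subsets of the reals, has cardinality 2 to the continuum. -/
theorem result :
    Cardinal.mk
      (Set.range (fun A : Set ℝ =>
        {f : ℝ≥0 → ℝ≥0 |
          Monotone f ∧ f 0 = 0 ∧ (∀ r : ℝ≥0, 0 < r → 0 < f r) ∧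
          (∀ x : ℝ≥0, ContinuousWithinAt f (Set.Ici x) x) ∧
          0 < (MeasureTheory.OuterMeasure.mkMetric
                (fun r : ℝ≥0∞ => ((f r.toNNReal : ℝ≥0) : ℝ≥0∞)) :
                MeasureTheory.OuterMeasure ℝ) A}))
      = 2 ^ Cardinal.continuum := by
  open Pool.Agent.H26.Gauge in
  refine le_antisymm ?_ ?_
  · refine Cardinal.mk_range_le.trans ?_
    simp [Cardinal.mk_real]
  · have h1 : Cardinal.mk (Set (Set ℕ)) = 2 ^ Cardinal.continuum := by simp
    rw [← h1]
    refine Cardinal.mk_le_of_injective (f := fun T => ⟨_, ⟨AA T, rfl⟩⟩) ?_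
    intro T T' h
    have h2 := congrArg Subtype.val h
    ext a
    have h3 := Set.ext_iff.1 h2 (g (JJ (cc a)))
    have h4 := g_mono (JJ (cc a))
    have h5 := g_zero (JJ (cc a))
    have h6 := g_pos (JJ (cc a))
    have h7 := g_cont (JJ_inf (cc_inf a))
    rw [← AA_iff T a, ← AA_iff T' a]
    constructor
    · intro h8
      exact (h3.1 ⟨h4, h5, h6, h7, h8⟩).2.2.2.2
    · intro h8
      exact (h3.2 ⟨h4, h5, h6, h7, h8⟩).2.2.2.2

end Pool.Agent.S14417
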