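import Pool.Statements.S14430
import Pool.Agent.H30.Lfp

set_option autoImplicit false
open Pool Pool.MP_1a0bc6_lc

namespace Pool.Agent.S14430

noncomputable def dl : Fin 6 → Fin 2 → Fin 2 → Fin 6 → ℝ :=
  ![fun _ _ => ![0, 1 / 2, 1 / 2, 0, 0, 0],
    ![![![0, 0, 1, 0, 0, 0], ![0, 0, 0, 0, 1 / 4, 3 / 4]], ![![0, 0, 1, 0, 0, 0], ![0, 1, 0, 0, 0, 0]]],
    ![fun _ => ![0, 0, 0, 3 / 4, 0, 1 / 4], fun _ => ![0, 1 / 2, 0, 0, 1 / 2, 0]],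
    fun _ _ => ![0, 0, 0, 1, 0, 0], fun _ _ => ![0, 0, 0, 0, 1, 0], fun _ _ => ![0, 0, 0, 0, 0, 1]]

lemma dl_nn : ∀ s a b t, 0 ≤ dl s a b t := by
  intro s a b t
  fin_cases s <;> fin_cases a <;> fin_cases b <;> fin_cases t <;> simp [dl] <;> norm_num

lemma dl_sum : ∀ s a b, ∑ t, dl s a b t = 1 := by
  intro s a b
  fin_cases s <;> fin_cases a <;> fin_cases b <;> simp [dl, Fin.sum_univ_six] <;> norm_num

def St (σ : Fin 6 → Fin 2 → ℝ) : Prop := (∀ s a, 0 ≤ σ s a) ∧ ∀ s, ∑ a, σ s a = 1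

noncomputable def G (σ τ : Fin 6 → Fin 2 → ℝ) (x : Fin 6 → ℝ) (s : Fin 6) : ℝ :=
  ∑ t, (∑ a, ∑ b, σ s a * τ s b * dl s a b t) * x t

noncomputable def val (T : Set (Fin 6)) (σ τ : Fin 6 → Fin 2 → ℝ) (s : Fin 6) : ℝ :=
  ⨆ n : ℕ, (fun x : Fin 6 → ℝ => T.indicator (fun _ => (1 : ℝ)) + Tᶜ.indicator (G σ τ x))^[n] 0 s

lemma Gv {σ τ : Fin 6 → Fin 2 → ℝ} (hσ : St σ) (hτ : St τ) (x : Fin 6 → ℝ) :
    G σ τ x 0 = (x 1 + x 2) / 2 ∧
    G σ τ x 1 = τ 1 0 * x 2 + (1 - τ 1 0) * (σ 1 0 * (x 4 / 4 + 3 / 4 * x 5) + (1 - σ 1 0) * x 1) ∧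
    G σ τ x 2 = σ 2 0 * (3 / 4 * x 3 + x 5 / 4) + (1 - σ 2 0) * ((x 1 + x 4) / 2) ∧
    G σ τ x 3 = x 3 ∧ G σ τ x 4 = x 4 ∧ G σ τ x 5 = x 5 := by
  have a : ∀ s, σ s 1 = 1 - σ s 0 := fun s => by have := hσ.2 s; rw [Fin.sum_univ_two] at this; linarith
  have b : ∀ s, τ s 1 = 1 - τ s 0 := fun s => by have := hτ.2 s; rw [Fin.sum_univ_two] at this; linarith
  refine ⟨?_, ?_, ?_, ?_, ?_, ?_⟩ <;> simp [G, dl, Fin.sum_univ_six, Fin.sum_univ_two, a, b] <;> ring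

lemma bnd {σ : Fin 6 → Fin 2 → ℝ} (hσ : St σ) (s : Fin 6) : 0 ≤ σ s 0 ∧ σ s 0 ≤ 1 := by
  have := hσ.2 s; rw [Fin.sum_univ_two] at this
  exact ⟨hσ.1 s 0, by linarith [hσ.1 s 1]⟩

lemma facts {σ τ : Fin 6 → Fin 2 → ℝ} (hσ : St σ) (hτ : St τ) (T : Set (Fin 6)) :
    (∀ s ∈ T, val T σ τ s = 1) ∧ (∀ s ∉ T, val T σ τ s = G σ τ (val T σ τ) s) ∧
    (∀ s, 0 ≤ val T σ τ s) ∧
    ∀ v : Fin 6 → ℝ, (∀ s, 0 ≤ v s) → (∀ s ∈ T, 1 ≤ v s) → (∀ s ∉ T, G σ τ v s ≤ v s) →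
      ∀ s, val T σ τ s ≤ v s := by
  classical
  have nn : ∀ s t, 0 ≤ ∑ a, ∑ b, σ s a * τ s b * dl s a b t := fun s t =>
    Finset.sum_nonneg fun a _ => Finset.sum_nonneg fun b _ =>
      mul_nonneg (mul_nonneg (hσ.1 s a) (hτ.1 s b)) (dl_nn s a b t)
  have G1 : ∀ s, G σ τ 1 s ≤ 1 := by
    obtain ⟨g0, g1, g2, g3, g4, g5⟩ := Gv hσ hτ 1
    simp only [Pi.one_apply] at g0 g1 g2 g3 g4 g5
    intro s; fin_cases s <;> simp only [Fin.zero_eta, Fin.mk_one, Fin.reduceFinMk] <;> linarith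
  obtain ⟨h1, h2, h3⟩ := Pool.Agent.H30.Lfp.lfp
    (fun x : Fin 6 → ℝ => T.indicator (fun _ => (1 : ℝ)) + Tᶜ.indicator (G σ τ x))
    (fun x y hxy s => by
      by_cases hs : s ∈ T
      · simp [hs]
      · simp only [Pi.add_apply, Set.indicator_of_notMem hs, Set.indicator_of_mem (Set.mem_compl hs)]
        exact add_le_add le_rfl (Finset.sum_le_sum fun t _ => mul_le_mul_of_nonneg_left (hxy t) (nn s t)))
    (continuous_pi fun s => by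
      by_cases hs : s ∈ T
      · simp [hs, continuous_const]
      · simp only [Pi.add_apply, Set.indicator_of_notMem hs, Set.indicator_of_mem (Set.mem_compl hs), G]
        fun_prop) 0
    (fun s => by by_cases hs : s ∈ T <;> simp [hs, G]) zero_le_one
    (fun s => by by_cases hs : s ∈ T <;> simp [hs, G1])
  refine ⟨fun s hs => ?_, fun s hs => ?_, h2, fun v a b c => h3 v a fun s => ?_⟩
  · have := congrFun h1 s; simp [hs] at this; exact this.symm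
  · have := congrFun h1 s
    simp only [Pi.add_apply, Set.indicator_of_notMem hs, Set.indicator_of_mem (Set.mem_compl hs),
      zero_add] at this
    exact this.symm
  · by_cases hs : s ∈ T
    · simpa [hs] using b s hs
    · simpa [hs] using c s hs

lemma eqs {σ τ : Fin 6 → Fin 2 → ℝ} (hσ : St σ) (hτ : St τ) (T : Set (Fin 6)) (c : ℝ)
    (hT : (T = {3, 4} ∧ c = 3 / 4) ∨ (T = {4} ∧ c = 0)) :
    val T σ τ 0 = (val T σ τ 1 + val T σ τ 2) / 2 ∧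
    val T σ τ 1 = τ 1 0 * val T σ τ 2 + (1 - τ 1 0) * (σ 1 0 / 4 + (1 - σ 1 0) * val T σ τ 1) ∧
    val T σ τ 2 = σ 2 0 * c + (1 - σ 2 0) * ((val T σ τ 1 + 1) / 2) ∧
    0 ≤ val T σ τ 1 ∧ val T σ τ 1 ≤ 1 ∧ 0 ≤ val T σ τ 2 ∧ val T σ τ 2 ≤ 1 ∧
    (τ 1 0 = 0 → σ 1 0 = 0 → val T σ τ 1 = 0) := by
  obtain ⟨f1, f2, f3, f4⟩ := facts hσ hτ T
  obtain ⟨g0, g1, g2, -, -, -⟩ := Gv hσ hτ (val T σ τ)
  have p := bnd hσ 1
  have q := bnd hτ 1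
  have r := bnd hσ 2
  have up : ∀ z : ℝ, (z = 1 ∨ (z = 0 ∧ τ 1 0 = 0 ∧ σ 1 0 = 0)) →
      ∀ s, val T σ τ s ≤ ![1, z, 1, 4 / 3 * c, 1, 0] s := by
    intro z hz
    obtain ⟨k0, k1, k2, k3, k4, k5⟩ := Gv hσ hτ ![1, z, 1, 4 / 3 * c, 1, 0]
    simp only [Matrix.cons_val] at k0 k1 k2 k3 k4 k5
    refine f4 _ (fun s => ?_) (fun s hs => ?_) (fun s _ => ?_)
    · rcases hz with rfl | ⟨rfl, -⟩ <;> rcases hT with ⟨-, rfl⟩ | ⟨-, rfl⟩ <;> fin_cases s <;> simp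
    · rcases hT with ⟨rfl, rfl⟩ | ⟨rfl, rfl⟩ <;> fin_cases s <;> simp at hs ⊢ <;> norm_num
    · have hc : 0 ≤ c ∧ c ≤ 3 / 4 := by rcases hT with ⟨-, rfl⟩ | ⟨-, rfl⟩ <;> norm_num
      fin_cases s <;> simp only [Fin.zero_eta, Fin.mk_one, Fin.reduceFinMk, Matrix.cons_val]
      · rcases hz with rfl | ⟨rfl, -⟩ <;> linarith
      · rcases hz with rfl | ⟨rfl, e1, e2⟩
        · nlinarith [mul_nonneg p.1 (sub_nonneg.2 q.2)]
        · rw [k1, e1, e2]; norm_num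
      · rcases hz with rfl | ⟨rfl, -⟩ <;> nlinarith
      · exact k3.le
      · exact k4.le
      · exact k5.le
  have u := up 1 (Or.inl rfl)
  have v5 : val T σ τ 5 = 0 := le_antisymm (u 5) (f3 5)
  have v4 : val T σ τ 4 = 1 := f1 4 (by rcases hT with ⟨rfl, -⟩ | ⟨rfl, -⟩ <;> simp)
  have v3 : val T σ τ 3 = 4 / 3 * c := by
    rcases hT with ⟨rfl, rfl⟩ | ⟨rfl, rfl⟩
    · rw [f1 3 (by simp)]; norm_num
    · exact le_antisymm (u 3) (by simpa using f3 3)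
  have n : ∀ s : Fin 6, s < 3 → s ∉ T := by
    rcases hT with ⟨rfl, -⟩ | ⟨rfl, -⟩ <;> intro s hs <;> fin_cases s <;> simp at hs ⊢
  rw [v4, v5] at g1
  rw [v3, v4, v5] at g2
  refine ⟨(f2 0 (n 0 (by decide))).trans g0, (f2 1 (n 1 (by decide))).trans (g1.trans (by ring)),
    (f2 2 (n 2 (by decide))).trans (g2.trans (by ring)), f3 1, u 1, f3 2, u 2,
    fun a b => le_antisymm (up 0 (Or.inr ⟨rfl, a, b⟩) 1) (f3 1)⟩

lemma pure (i : Fin 2) : St (fun _ a => if a = i then 1 else 0) :=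
  ⟨fun _ a => by dsimp only; split_ifs <;> norm_num, fun _ => by simp⟩

/-- The negation of the preceding statement: In every finite concurrent stochastic game where player 1 wants to reach T and player 2 wants to avoid U, for each start state and ε>0 there are stationary strategies from which no stationary deviation gains either player more than ε. -/
theorem result :
    ¬ (∀ (S A B : Type) [Fintype S] [Fintype A] [Fintype B] [Nonempty A] [Nonempty B]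
      (δ : S → A → B → S → ℝ),
      (∀ s a b t, 0 ≤ δ s a b t) → (∀ s a b, ∑ t, δ s a b t = 1) →
      ∀ (T U : Set S) (s₀ : S) (ε : ℝ), 0 < ε →
      ∃ σ : S → A → ℝ, ∃ τ : S → B → ℝ,
        (∀ s a, 0 ≤ σ s a) ∧ (∀ s, ∑ a, σ s a = 1) ∧
        (∀ s b, 0 ≤ τ s b) ∧ (∀ s, ∑ b, τ s b = 1) ∧
        (∀ σ' : S → A → ℝ, (∀ s a, 0 ≤ σ' s a) → (∀ s, ∑ a, σ' s a = 1) →
          (⨆ n : ℕ, (fun x : S → ℝ => T.indicator (fun _ => (1 : ℝ)) +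
              Tᶜ.indicator (fun s => ∑ t, (∑ a, ∑ b, σ' s a * τ s b * δ s a b t) * x t))^[n] 0 s₀)
            ≤ (⨆ n : ℕ, (fun x : S → ℝ => T.indicator (fun _ => (1 : ℝ)) +
              Tᶜ.indicator (fun s => ∑ t, (∑ a, ∑ b, σ s a * τ s b * δ s a b t) * x t))^[n] 0 s₀) + ε) ∧
        (∀ τ' : S → B → ℝ, (∀ s b, 0 ≤ τ' s b) → (∀ s, ∑ b, τ' s b = 1) →
          (⨆ n : ℕ, (fun x : S → ℝ => U.indicator (fun _ => (1 : ℝ)) +
              Uᶜ.indicator (fun s => ∑ t, (∑ a, ∑ b, σ s a * τ s b * δ s a b t) * x t))^[n] 0 s₀)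
            ≤ (⨆ n : ℕ, (fun x : S → ℝ => U.indicator (fun _ => (1 : ℝ)) +
              Uᶜ.indicator (fun s => ∑ t, (∑ a, ∑ b, σ s a * τ' s b * δ s a b t) * x t))^[n] 0 s₀) + ε)) := by
  intro h
  obtain ⟨σ, τ, a1, a2, b1, b2, d1, d2⟩ := h (Fin 6) (Fin 2) (Fin 2) dl dl_nn dl_sum {3, 4} {4} 0
    (1 / 200) (by norm_num)
  have hσ : St σ := ⟨a1, a2⟩
  have hτ : St τ := ⟨b1, b2⟩
  have D1 : ∀ σ', St σ' → val {3, 4} σ' τ 0 ≤ val {3, 4} σ τ 0 + 1 / 200 := fun σ' h => d1 σ' h.1 h.2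
  have D2 : ∀ τ', St τ' → val {4} σ τ 0 ≤ val {4} σ τ' 0 + 1 / 200 := fun τ' h => d2 τ' h.1 h.2
  obtain ⟨u0, u1, u2, u3, u4, u5, u6, u7⟩ := eqs hσ hτ {3, 4} _ (Or.inl ⟨rfl, rfl⟩)
  obtain ⟨w0, w1, w2, w3, w4, w5, w6, w7⟩ := eqs hσ hτ {4} _ (Or.inr ⟨rfl, rfl⟩)
  have p := bnd hσ 1
  have q := bnd hτ 1
  have r := bnd hσ 2
  rcases q.1.eq_or_lt with q0 | q0
  · have e1 := D1 _ (pure 0)
    have e2 := D2 _ (pure 0)
    obtain ⟨x0, x1, x2, -⟩ := eqs (pure 0) hτ {3, 4} _ (Or.inl ⟨rfl, rfl⟩)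
    obtain ⟨y0, y1, y2, y3, y4, -⟩ := eqs hσ (pure 0) {4} _ (Or.inr ⟨rfl, rfl⟩)
    simp only [if_true] at x1 x2 y1
    rw [← q0] at x1 u1 w1
    rcases p.1.eq_or_lt with p0 | p0
    · have := u7 q0.symm p0.symm
      rw [this] at u2 u0
      nlinarith
    · have k1 : val {3, 4} σ τ 1 = 1 / 4 := by
        apply mul_left_cancel₀ p0.ne'; linarith
      have k2 : val {4} σ τ 1 = 1 / 4 := by
        apply mul_left_cancel₀ p0.ne'; linarith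
      rw [k1] at u2 u0
      rw [k2] at w0
      have k3 : 1 - σ 2 0 ≤ 1 / 10 := by linarith
      have k4 : (1 - σ 2 0) * ((val {4} σ (fun _ a => if a = 0 then 1 else 0) 1 + 1) / 2) ≤ 1 / 10 * 1 :=
        mul_le_mul k3 (by linarith) (by linarith) (by norm_num)
      linarith
  · have e1 := D1 _ (pure 1)
    have e2 := D2 _ (pure 1)
    obtain ⟨x0, x1, x2, -⟩ := eqs (pure 1) hτ {3, 4} _ (Or.inl ⟨rfl, rfl⟩)
    obtain ⟨y0, y1, y2, y3, y4, -, -, y7⟩ := eqs hσ (pure 1) {4} _ (Or.inr ⟨rfl, rfl⟩)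
    simp only [Fin.zero_eq_one_iff, OfNat.ofNat_ne_one, if_false] at x1 x2 y1 y7
    have k1 : val {3, 4} (fun _ a => if a = 1 then 1 else 0) τ 1 =
        val {3, 4} (fun _ a => if a = 1 then 1 else 0) τ 2 := by
      apply mul_left_cancel₀ q0.ne'; linarith
    have k2 : val {4} σ (fun _ a => if a = 1 then 1 else 0) 1 ≤ 1 / 4 := by
      rcases p.1.eq_or_lt with p0 | p0
      · rw [y7 trivial p0.symm]; norm_num
      · exact le_of_eq (by apply mul_left_cancel₀ p0.ne'; linarith)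
    have k3 : σ 2 0 ≤ 1 / 25 := by nlinarith
    have k4 : val {4} σ (fun _ a => if a = 1 then 1 else 0) 2 ≤ 5 / 8 := by nlinarith
    generalize val {3, 4} σ τ 1 = U1 at *
    generalize val {3, 4} σ τ 2 = U2 at *
    generalize val {4} σ τ 1 = W1 at *
    generalize val {4} σ τ 2 = W2 at *
    have hl : 0 < τ 1 0 + (1 - τ 1 0) * σ 1 0 := by nlinarith [mul_nonneg p.1 (sub_nonneg.2 q.2)]
    have k5 : U1 - W1 ≤ U2 - W2 ∧ 0 ≤ U1 - W1 ∨ U1 - W1 < 0 := by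
      rcases lt_or_ge (U1 - W1) 0 with c | c
      · exact Or.inr c
      · refine Or.inl ⟨?_, c⟩
        have : τ 1 0 * (U1 - W1) ≤ τ 1 0 * (U2 - W2) := by
          nlinarith [mul_nonneg (mul_nonneg p.1 (sub_nonneg.2 q.2)) c]
        exact le_of_mul_le_mul_left this q0
    rcases k5 with ⟨k5, k6⟩ | k5
    · nlinarith [mul_nonneg r.1 k6]
    · nlinarith

end Pool.Agent.S14430
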