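import Pool.Statements.S14445
import Pool.Agent.H10.PolyHom

set_option autoImplicit false
open Pool Pool.MP_1dfe91_lc

namespace Pool.Agent.S14445

/-- For every field P and every polynomial algebra P[y1..ym], any two finite tuples satisfying the same first-order formulas (ring language with constants from P) are mapped one to the other by some P-algebra automorphism. -/
theorem result :
    ∀ (P : Type) [Field P] (m n : ℕ) (a b : Fin n → MvPolynomial (Fin m) P),
      (∀ φ : FirstOrder.Language.ring.Formula (Fin n ⊕ P),
        (@FirstOrder.Language.Formula.Realize FirstOrder.Language.ring (MvPolynomial (Fin m) P)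
            (FirstOrder.Ring.compatibleRingOfRing (MvPolynomial (Fin m) P)).toStructure
            (Fin n ⊕ P) φ (Sum.elim a (algebraMap P (MvPolynomial (Fin m) P))) ↔
          @FirstOrder.Language.Formula.Realize FirstOrder.Language.ring (MvPolynomial (Fin m) P)
            (FirstOrder.Ring.compatibleRingOfRing (MvPolynomial (Fin m) P)).toStructure
            (Fin n ⊕ P) φ (Sum.elim b (algebraMap P (MvPolynomial (Fin m) P))))) →
      ∃ σ : MvPolynomial (Fin m) P ≃ₐ[P] MvPolynomial (Fin m) P, ∀ i, σ (a i) = b i := by
  intro P _ m n a b h
  letI := FirstOrder.Ring.compatibleRingOfRing (MvPolynomial (Fin m) P)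
  exact Pool.Agent.H10.PolyHom.main a b fun φ => (h φ).1

end Pool.Agent.S14445
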