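import Pool.Statements.S14632
-- import your own Pool.Agent.* helpers here

set_option autoImplicit false
open Pool Pool.MP_40e9ab_lc

namespace Pool.Agent.S14632

open Cardinal Set

section
variable {W : Type} [LinearOrder W]

def NS (A : Set W) : Prop :=
  ∃ g : W → W, (∀ a ∈ A, g a < a) ∧ ∀ x, #{a | a ∈ A ∧ g a = x} < #W

theorem NS.mono {A B : Set W} (h : NS B) (hAB : A ⊆ B) : NS A := by
  obtain ⟨g, h1, h2⟩ := h
  refine ⟨g, fun a ha => h1 a (hAB ha), fun x =>
    lt_of_le_of_lt (mk_le_mk_of_subset ?_) (h2 x)⟩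
  intro a ha
  exact ⟨hAB ha.1, ha.2⟩

variable (hreg : (#W).IsRegular) (hun : ℵ₀ < #W) (hio : ∀ a : W, #(Iio a) < #W)

include hreg in
theorem NS_empty : NS (∅ : Set W) := ⟨id, by simp, fun x => by simpa using hreg.pos⟩

include hreg hun in
theorem NS_iUnion (A : ℕ → Set W) (h : ∀ n, NS (A n)) : NS (⋃ n, A n) := by
  classical
  choose g h1 h2 using h
  let k : W → ℕ := fun a => if h : ∃ n, a ∈ A n then h.choose else 0
  have hk : ∀ a ∈ ⋃ n, A n, a ∈ A (k a) := by
    intro a ha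
    have h : ∃ n, a ∈ A n := mem_iUnion.1 ha
    simp only [k, dif_pos h]
    exact h.choose_spec
  refine ⟨fun a => g (k a) a, fun a ha => h1 _ a (hk a ha), fun x => ?_⟩
  have := (card_iUnion_lt_iff_forall_of_isRegular (t := fun n => {a | a ∈ A n ∧ g n a = x})
    hreg (by simpa using hun)).2 (fun n => h2 n x)
  refine lt_of_le_of_lt (mk_le_mk_of_subset ?_) this
  intro a ha
  exact mem_iUnion.2 ⟨k a, hk a ha.1, ha.2⟩

include hreg hun in
theorem NS_union {A B : Set W} (hA : NS A) (hB : NS B) : NS (A ∪ B) := by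
  have := NS_iUnion hreg hun (fun n => if n = 0 then A else B) (fun n => by
    split_ifs <;> assumption)
  refine this.mono ?_
  rintro a (h | h)
  · exact mem_iUnion.2 ⟨0, by simpa using h⟩
  · exact mem_iUnion.2 ⟨1, by simpa using h⟩

include hun hio in
theorem small_Iic (a : W) : #(Iic a) < #W := by
  rw [← Iio_insert]
  exact (mk_insert_le).trans_lt (add_lt_of_lt hun.le (hio a) (one_lt_aleph0.trans hun))

include hreg hun hio in
theorem bdd_of_small {s : Set W} (hs : #s < #W) : ∃ b, ∀ a ∈ s, a < b := by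
  have := (card_biUnion_lt_iff_forall_of_isRegular (t := fun a (_ : a ∈ s) => Iic a)
    hreg hs).2 (fun a _ => small_Iic hun hio a)
  by_contra hcon
  push Not at hcon
  have h2 : (⋃ a ∈ s, Iic a) = Set.univ := by
    rw [eq_univ_iff_forall]
    intro b
    obtain ⟨a, ha, hab⟩ := hcon b
    exact mem_biUnion ha hab
  rw [h2, mk_univ] at this
  exact lt_irrefl _ this

include hreg hun hio in
theorem small_le {A : Set W} {g : W → W} (h2 : ∀ x, #{a | a ∈ A ∧ g a = x} < #W) (b : W) :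
    #{a | a ∈ A ∧ g a ≤ b} < #W := by
  have := (card_biUnion_lt_iff_forall_of_isRegular
    (t := fun x (_ : x ∈ Iic b) => {a | a ∈ A ∧ g a = x})
    hreg (small_Iic hun hio b)).2 (fun x _ => h2 x)
  refine lt_of_le_of_lt (mk_le_mk_of_subset ?_) this
  intro a ha
  exact mem_iUnion₂.2 ⟨g a, ha.2, ha.1, rfl⟩

include hreg hun hio in
theorem NS_normal {A : Set W} {f : W → W} (hf : ∀ a ∈ A, f a < a)
    (h : ∀ y, NS {a | a ∈ A ∧ f a = y}) : NS A := by
  choose g h1 h2 using h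
  refine ⟨fun a => max (f a) (g (f a) a), fun a ha => max_lt (hf a ha) (h1 _ a ⟨ha, rfl⟩),
    fun x => ?_⟩
  have := (card_biUnion_lt_iff_forall_of_isRegular
    (t := fun y (_ : y ∈ Iic x) => {a | a ∈ {a | a ∈ A ∧ f a = y} ∧ g y a ≤ x})
    hreg (small_Iic hun hio x)).2 (fun y _ => small_le hreg hun hio (h2 y) x)
  refine (mk_le_mk_of_subset fun a ha => ?_).trans_lt this
  exact mem_biUnion (x := f a) ((le_max_left _ _).trans ha.2.le)
    ⟨⟨ha.1, rfl⟩, (le_max_right _ _).trans ha.2.le⟩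

def SS (W : Type) [LinearOrder W] : Set W :=
  {a | ∃ f : ℕ → W, (∀ n, f n < a) ∧ ∀ b < a, ∃ n, b ≤ f n}

include hreg hun hio in
theorem not_NS_SS [WellFoundedLT W] : ¬ NS (SS W) := by
  rintro ⟨g, h1, h2⟩
  have hstep : ∀ b : W, ∃ c, ∀ a ∈ SS W, g a ≤ b → a < c := by
    intro b
    obtain ⟨c, hc⟩ := bdd_of_small hreg hun hio (small_le hreg hun hio h2 b)
    exact ⟨c, fun a ha hab => hc a ⟨ha, hab⟩⟩
  choose step hstep using hstep
  have : Nonempty W := mk_ne_zero_iff.1 hreg.pos.ne'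
  let q : ℕ → W := fun n => step^[n] (Classical.arbitrary W)
  obtain ⟨c, hc⟩ := bdd_of_small hreg hun hio (s := range q)
    (mk_range_le.trans_lt (by simpa using hun))
  obtain ⟨a, ha, hmin⟩ := wellFounded_lt.has_min {x : W | ∀ n, q n < x}
    ⟨c, fun n => hc _ ⟨n, rfl⟩⟩
  have hb : ∀ b < a, ∃ n, b ≤ q n := by
    intro b hb
    by_contra hcon
    push Not at hcon
    exact hmin b hcon hb
  have haS : a ∈ SS W := ⟨q, ha, hb⟩
  obtain ⟨n, hn⟩ := hb _ (h1 a haS)
  have h3 := hstep _ a haS hn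
  have h4 := ha (n + 1)
  simp only [q, Function.iterate_succ_apply'] at h3 h4
  exact lt_asymm h3 h4

include hreg hun hio in
theorem solovay [WellFoundedLT W] : ∃ (T : W → Set W) (E : Set W), ¬ #E < #W ∧
    (∀ y ∈ E, ¬ NS (T y)) ∧ ∀ y z a, a ∈ T y → a ∈ T z → y = z := by
  classical
  have hF : ∀ a : W, ∃ f : ℕ → W, a ∈ SS W → (∀ n, f n < a) ∧ ∀ b < a, ∃ n, b ≤ f n := by
    intro a
    by_cases h : a ∈ SS W
    · obtain ⟨f, hf⟩ := h
      exact ⟨f, fun _ => hf⟩
    · exact ⟨fun _ => a, fun h' => absurd h' h⟩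
  choose F hF using hF
  have h1 : ∃ n, ∀ y, ¬ NS {a | a ∈ SS W ∧ y ≤ F a n} := by
    by_contra hcon
    push Not at hcon
    choose y hy using hcon
    obtain ⟨c, hc⟩ := bdd_of_small hreg hun hio (s := range y)
      (mk_range_le.trans_lt (by simpa using hun))
    have h2 : NS {a | a ∈ SS W ∧ a ≤ c} :=
      ⟨fun a => F a 0, fun a ha => (hF a ha.1).1 0, fun x =>
        (mk_le_mk_of_subset fun a ha => ha.1.2).trans_lt (small_Iic hun hio c)⟩
    apply not_NS_SS hreg hun hio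
    refine (NS_union hreg hun h2 (NS_iUnion hreg hun _ hy)).mono fun a ha => ?_
    by_cases hac : a ≤ c
    · exact Or.inl ⟨ha, hac⟩
    · obtain ⟨n, hn⟩ := (hF a ha).2 c (not_le.1 hac)
      exact Or.inr (mem_iUnion.2 ⟨n, ha, (hc _ ⟨n, rfl⟩).le.trans hn⟩)
  obtain ⟨n, hn⟩ := h1
  refine ⟨fun y => {a | a ∈ SS W ∧ F a n = y}, {y | ¬ NS {a | a ∈ SS W ∧ F a n = y}}, ?_,
    fun y hy => hy, fun y z a h1 h2 => h1.2.symm.trans h2.2⟩
  intro hE
  obtain ⟨c, hc⟩ := bdd_of_small hreg hun hio hE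
  apply hn c
  apply NS_normal hreg hun hio (f := fun a => F a n) (fun a ha => (hF a ha.1).1 n)
  intro y
  by_cases hy : NS {a | a ∈ SS W ∧ F a n = y}
  · exact hy.mono fun a ha => ⟨ha.1.1, ha.2⟩
  · refine (NS_empty hreg).mono fun a ha => ?_
    have h1 := hc y hy
    have h2 : c ≤ y := ha.2 ▸ ha.1.2
    exact absurd h1 (not_lt.2 h2)

end

theorem card_borel : #{B : Set ℝ | MeasurableSet B} ≤ 𝔠 := by
  have h := MeasurableSpace.cardinal_measurableSet_le_continuum
    (s := (⋃ a : ℚ, {Iio (a : ℝ)} : Set (Set ℝ))) (by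
      refine le_trans ?_ aleph0_le_continuum
      rw [le_aleph0_iff_set_countable]
      exact countable_iUnion fun _ => countable_singleton _)
  rw [← Real.borel_eq_generateFrom_Iio_rat] at h
  exact h

/-- The negation of the preceding statement: Any family of subsets of [0,1] that contains all subintervals, is closed under relative complement and countable unions, and contains a selector for every partition of [0,1] into parts of size at least two, contains every subset of [0,1]. -/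
theorem result :
    ¬ (∀ N : Set (Set ℝ),
      (∀ A ∈ N, A ⊆ Set.Icc (0:ℝ) 1) →
      (∀ J : Set ℝ, J.OrdConnected → J ⊆ Set.Icc (0:ℝ) 1 → J ∈ N) →
      (∀ A ∈ N, Set.Icc (0:ℝ) 1 \ A ∈ N) →
      (∀ f : ℕ → Set ℝ, (∀ n, f n ∈ N) → (⋃ n, f n) ∈ N) →
      (∀ P : Set (Set ℝ),
          (∀ p ∈ P, ∃ x ∈ p, ∃ y ∈ p, x ≠ y) →
          P.PairwiseDisjoint id →
          ⋃₀ P = Set.Icc (0:ℝ) 1 →
          ∃ S ∈ N, ∀ p ∈ P, ∃! x, x ∈ S ∧ x ∈ p) →
      ∀ A : Set ℝ, A ⊆ Set.Icc (0:ℝ) 1 → A ∈ N) := by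
  classical
  intro hall
  let κ : Cardinal.{0} := (𝔠 : Cardinal.{0}).ord.cof
  let W := κ.ord.ToType
  have hW : #W = κ := mk_ord_toType κ
  have hreg : (#W).IsRegular := by
    rw [hW]; exact isRegular_cof (isSuccLimit_ord aleph0_le_continuum)
  have hun : ℵ₀ < #W := by
    rw [hW]; exact lt_cof_ord_power (a := ℵ₀) (b := 2) le_rfl (by norm_num)
  have hio : ∀ a : W, #(Iio a) < #W := fun a => mk_Iio_lt a (by simp [W])
  have hle : #W ≤ #(Icc (0 : ℝ) 1) := by
    rw [hW, mk_Icc_real zero_lt_one]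
    exact Ordinal.cof_ord_le _
  have hbig : 𝔠 < 2 ^ #W := by
    have h1 := lt_power_cof_ord (c := 𝔠) aleph0_le_continuum
    have h2 : (𝔠 : Cardinal.{0}) ^ κ = 2 ^ κ := by
      rw [← two_power_aleph0, ← power_mul, mul_eq_right (hW ▸ hun.le) (hW ▸ hun.le) aleph0_ne_zero]
    rw [hW, ← h2]; exact h1
  obtain ⟨e0⟩ := (le_def _ _).1 hle
  let e : W → ℝ := fun a => (e0 a : ℝ)
  have he : Function.Injective e := fun a b h => e0.injective (Subtype.ext h)
  have heI : ∀ a, e a ∈ Icc (0 : ℝ) 1 := fun a => (e0 a).2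
  have hN := hall {A | A ⊆ Icc (0 : ℝ) 1 ∧ ∃ B, MeasurableSet B ∧ NS {a | ¬ (e a ∈ A ↔ e a ∈ B)}}
    (fun A hA => hA.1)
    (fun J hJ hJI => ⟨hJI, J, hJ.measurableSet, by simpa using NS_empty hreg⟩)
    (by
      rintro A ⟨-, B, hB, hns⟩
      refine ⟨diff_subset, Bᶜ, hB.compl, hns.mono fun a ha => ?_⟩
      have := heI a
      simp only [mem_ofPred_eq, mem_diff, mem_compl_iff] at ha ⊢
      tauto)
    (by
      intro f hf
      choose B hB hns using fun n => (hf n).2
      refine ⟨iUnion_subset fun n => (hf n).1, ⋃ n, B n, MeasurableSet.iUnion hB,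
        (NS_iUnion hreg hun _ hns).mono fun a ha => ?_⟩
      simp only [mem_ofPred_eq, mem_iUnion] at ha ⊢
      by_contra hcon
      push Not at hcon
      exact ha (exists_congr hcon))
    (by
      intro P h2 hdis hcov
      have hsel : ∀ p : P, ∃ x ∈ p.1, ∀ a, e a = x → ∃ a' < a, e a' ∈ p.1 := by
        rintro ⟨p, hp⟩
        by_cases h : ∃ x ∈ p, x ∉ range e
        · obtain ⟨x, hx, hx'⟩ := h
          exact ⟨x, hx, fun a ha => absurd ⟨a, ha⟩ hx'⟩
        · push Not at h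
          obtain ⟨x, hx, y, hy, hxy⟩ := h2 p hp
          obtain ⟨a, rfl⟩ := h x hx
          obtain ⟨b, rfl⟩ := h y hy
          rcases lt_trichotomy a b with hab | hab | hab
          · exact ⟨e b, hy, fun c hc => ⟨a, he hc ▸ hab, hx⟩⟩
          · exact absurd (congrArg e hab) hxy
          · exact ⟨e a, hx, fun c hc => ⟨b, he hc ▸ hab, hy⟩⟩
      choose sel hs1 hs2 using hsel
      have huniq : ∀ (p q : P) (x : ℝ), x ∈ p.1 → x ∈ q.1 → p = q := by
        intro p q x hp hq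
        by_contra hne
        exact disjoint_left.1 (hdis p.2 q.2 (fun h => hne (Subtype.ext h))) hp hq
      refine ⟨range sel, ⟨?_, ∅, MeasurableSet.empty, ?_⟩, ?_⟩
      · rintro _ ⟨p, rfl⟩
        rw [← hcov]
        exact ⟨p.1, p.2, hs1 p⟩
      · have hg : ∀ a : W, ∃ a', e a ∈ range sel → a' < a ∧ ∃ p, e a = sel p ∧ e a' ∈ p.1 := by
          intro a
          by_cases h : e a ∈ range sel
          · obtain ⟨p, hp⟩ := h
            obtain ⟨a', h1, h3⟩ := hs2 p a hp.symm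
            exact ⟨a', fun _ => ⟨h1, p, hp.symm, h3⟩⟩
          · exact ⟨a, fun h' => absurd h' h⟩
        choose g hg using hg
        refine NS.mono (B := {a | e a ∈ range sel}) ⟨g, fun a ha => (hg a ha).1, fun x => ?_⟩
          (fun a ha => by simpa using ha)
        refine lt_of_le_of_lt ?_ (one_lt_aleph0.trans hun)
        rw [mk_le_one_iff_set_subsingleton]
        rintro a ⟨ha, hax⟩ b ⟨hb, hbx⟩
        obtain ⟨p, hp1, hp2⟩ := (hg a ha).2
        obtain ⟨q, hq1, hq2⟩ := (hg b hb).2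
        rw [hax] at hp2
        rw [hbx] at hq2
        apply he
        rw [hp1, hq1, huniq p q _ hp2 hq2]
      · intro p hp
        refine ⟨sel ⟨p, hp⟩, ⟨⟨_, rfl⟩, hs1 ⟨p, hp⟩⟩, ?_⟩
        rintro _ ⟨⟨q, rfl⟩, hq⟩
        rw [huniq q ⟨p, hp⟩ _ (hs1 q) hq])
  obtain ⟨T, E, hE, hT, hTd⟩ := solovay hreg hun hio
  have hZ : ∀ Z : Set E, ∃ B : {B : Set ℝ | MeasurableSet B},
      NS {a | ¬ ((∃ y ∈ Z, a ∈ T y.1) ↔ e a ∈ B.1)} := by
    intro Z
    obtain ⟨-, B, hB, hns⟩ := hN (e '' {a | ∃ y ∈ Z, a ∈ T y.1})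
      (by rintro _ ⟨a, -, rfl⟩; exact heI a)
    refine ⟨⟨B, hB⟩, hns.mono fun a ha => ?_⟩
    simp only [mem_ofPred_eq, he.mem_set_image] at ha ⊢
    exact ha
  choose B hB using hZ
  have key : ∀ Z Z' : Set E, B Z = B Z' → Z ⊆ Z' := by
    intro Z Z' h y hy
    by_contra hy'
    apply hT y.1 y.2
    refine (NS_union hreg hun (hB Z) (hB Z')).mono fun a ha => ?_
    rw [h]
    by_cases h1 : e a ∈ (B Z').1
    · right
      intro h3
      obtain ⟨z, hz, haz⟩ := h3.2 h1
      exact hy' ((Subtype.ext (hTd _ _ a ha haz) : y = z) ▸ hz)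
    · left
      intro h3
      exact h1 (h3.1 ⟨y, hy, ha⟩)
  have hinj : Function.Injective B := fun Z Z' h => (key Z Z' h).antisymm (key Z' Z h.symm)
  have h1 := (mk_le_of_injective hinj).trans card_borel
  rw [mk_set] at h1
  have h2 : (2 : Cardinal) ^ #W ≤ 2 ^ #E := power_le_power_left two_ne_zero (not_lt.1 hE)
  exact absurd (hbig.trans_le (h2.trans h1)) (lt_irrefl _)

end Pool.Agent.S14632
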