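import Pool.Statements.S14880
import Pool.Agent.H33.Jmp2

set_option autoImplicit false
open Pool Pool.MP_708d71_lc

namespace Pool.Agent.S14880

/-- The negation of the preceding statement: There is a monotone grammar whose language under jumping derivations (delete a rule's left side anywhere, insert its right side anywhere) is generated by no context-sensitive grammar under jumping derivations. -/
theorem result :
    ¬ (∃ (T : Type) (_ : Fintype T) (N : Type) (_ : Fintype N) (S : N)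
      (P : Finset (List (Symbol T N) × List (Symbol T N))),
      (∀ r ∈ P, (∃ A : N, Symbol.nonterminal A ∈ r.1) ∧ r.1.length ≤ r.2.length) ∧
      ∀ (N' : Type) (_ : Fintype N') (S' : N')
        (P' : Finset (List (Symbol T N') × List (Symbol T N'))),
        (∀ r ∈ P', ∃ (α β γ : List (Symbol T N')) (A : N'), γ ≠ [] ∧
            r.1 = α ++ [Symbol.nonterminal A] ++ β ∧ r.2 = α ++ γ ++ β) →
        {w : List T | Relation.ReflTransGen
            (fun (x y : List (Symbol T N)) => ∃ r ∈ P, ∃ (u v u' v' : List (Symbol T N)),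
              x = u ++ r.1 ++ v ∧ y = u' ++ r.2 ++ v' ∧ u ++ v = u' ++ v')
            [Symbol.nonterminal S] (w.map Symbol.terminal)} ≠
        {w : List T | Relation.ReflTransGen
            (fun (x y : List (Symbol T N')) => ∃ r ∈ P', ∃ (u v u' v' : List (Symbol T N')),
              x = u ++ r.1 ++ v ∧ y = u' ++ r.2 ++ v' ∧ u ++ v = u' ++ v')
            [Symbol.nonterminal S'] (w.map Symbol.terminal)}) := by
  rintro ⟨T, iT, N, iN, S, P, hP, H⟩
  classical
  obtain ⟨K, hK⟩ : ∃ K : ℕ, ∀ r : P, r.1.2.length ≤ K :=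
    ⟨P.sup (fun r => r.2.length), fun r => Finset.le_sup (f := fun r => r.2.length) r.2⟩
  have hx : ∀ r : P, 0 < r.1.1.length ∧ r.1.1.length ≤ r.1.2.length := fun r => by
    obtain ⟨⟨A, hA⟩, h⟩ := hP r.1 r.2
    exact ⟨List.length_pos_of_mem hA, h⟩
  have := H33.Jmp.finN (Symbol T N) P K
  letI : Fintype (H33.Jmp.NN (Symbol T N) P K) := Fintype.ofFinite _
  have hfin : {p : List (H33.Jmp.Sy T N P K) × List (H33.Jmp.Sy T N P K) |
      H33.Jmp.Rule (fun r : P => r.1.1) (fun r : P => r.1.2) p.1 p.2}.Finite :=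
    ((List.finite_length_le _ (4 * K + 1)).prod (List.finite_length_le _ (4 * K + 1))).subset
      (fun p hp => H33.Jmp.rule_len hx hK hp)
  refine H (H33.Jmp.NN (Symbol T N) P K) inferInstance (.hat (.nonterminal S)) hfin.toFinset
    (fun r hr => H33.Jmp.rule_cs (hfin.mem_toFinset.1 hr)) ?_
  have e1 : (fun (x y : List (Symbol T N)) => ∃ r ∈ P, ∃ (u v u' v' : List (Symbol T N)),
      x = u ++ r.1 ++ v ∧ y = u' ++ r.2 ++ v' ∧ u ++ v = u' ++ v') =
      H33.Jmp.J (H33.Jmp.R0 (fun r : P => r.1.1) (fun r : P => r.1.2)) := by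
    funext a b
    apply propext
    constructor
    · rintro ⟨r, hr, u, v, u', v', h⟩
      exact ⟨_, _, u, v, u', v', ⟨⟨r, hr⟩, rfl, rfl⟩, h⟩
    · rintro ⟨_, _, u, v, u', v', ⟨r, rfl, rfl⟩, h⟩
      exact ⟨r.1, r.2, u, v, u', v', h⟩
  have e2 : (fun (x y : List (H33.Jmp.Sy T N P K)) => ∃ r ∈ hfin.toFinset,
      ∃ (u v u' v' : List (H33.Jmp.Sy T N P K)),
      x = u ++ r.1 ++ v ∧ y = u' ++ r.2 ++ v' ∧ u ++ v = u' ++ v') =
      H33.Jmp.J (H33.Jmp.Rule (fun r : P => r.1.1) (fun r : P => r.1.2)) := by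
    funext a b
    apply propext
    constructor
    · rintro ⟨r, hr, u, v, u', v', h⟩
      exact ⟨_, _, u, v, u', v', hfin.mem_toFinset.1 hr, h⟩
    · rintro ⟨L, R, u, v, u', v', hr, h⟩
      exact ⟨(L, R), hfin.mem_toFinset.2 hr, u, v, u', v', h⟩
  rw [e1, e2]
  ext w
  exact ⟨fun h => H33.Jmp.complete hx hK h, fun h => H33.Jmp.sound hx h⟩

end Pool.Agent.S14880
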