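import Pool.Statements.S14899
import Mathlib

set_option autoImplicit false
open Pool Pool.MP_73efbe_lc

namespace Pool.Agent.S14899

abbrev Node := Bool × ℕ

def Child (ρ τ : Node) : Prop := τ = (!ρ.1, 2 * ρ.2 + 1) ∨ τ = (!ρ.1, 2 * ρ.2 + 2)

def Desc : Node → Node → Prop := Relation.ReflTransGen Child

def X (T : Set Node) : Prop :=
  (true, 0) ∈ T ∧ (false, 0) ∈ T ∧ ∀ ρ, ρ ∈ T ↔ ∃ τ, Child ρ τ ∧ τ ∈ T

def agree (N : ℕ) (T T' : Set Node) : Prop := ∀ σ : Node, σ.2 < N → (σ ∈ T ↔ σ ∈ T')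

theorem child_lt {ρ τ : Node} (h : Child ρ τ) : ρ.2 < τ.2 ∧ τ.2 ≤ 2 * ρ.2 + 2 := by
  rcases h with rfl | rfl <;> constructor <;> simp <;> omega

theorem child_uniq {ρ ρ' τ : Node} (h : Child ρ τ) (h' : Child ρ' τ) : ρ = ρ' := by
  obtain ⟨a, m⟩ := ρ
  obtain ⟨b, n⟩ := ρ'
  rcases h with rfl | rfl <;> rcases h' with h | h <;>
    simp only [Prod.mk.injEq, Bool.not_inj_iff] at h ⊢ <;> exact ⟨h.1, by omega⟩

theorem desc_le {σ τ : Node} (h : Desc σ τ) : σ = τ ∨ σ.2 < τ.2 := by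
  induction h with
  | refl => exact Or.inl rfl
  | tail _ h2 ih =>
    right
    have := (child_lt h2).1
    rcases ih with rfl | ih <;> omega

theorem desc_child {σ ρ τ : Node} (h : Child ρ τ) : Desc σ τ ↔ τ = σ ∨ Desc σ ρ := by
  constructor
  · intro hd
    rcases Relation.ReflTransGen.cases_tail hd with h1 | ⟨c, h1, h2⟩
    · exact Or.inl h1
    · rw [child_uniq h h2]; exact Or.inr h1
  · rintro (rfl | hd)
    · exact Relation.ReflTransGen.refl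
    · exact Relation.ReflTransGen.tail hd h

theorem desc_total {σ σ' τ : Node} (h : Desc σ τ) (h' : Desc σ' τ) : Desc σ σ' ∨ Desc σ' σ := by
  induction h with
  | refl => exact Or.inr h'
  | tail h1 h2 ih =>
    rcases (desc_child h2).1 h' with rfl | h3
    · exact Or.inl (Relation.ReflTransGen.tail h1 h2)
    · exact ih h3

theorem key {T : Set Node} (hT : X T) {j : ℕ} {σ : Node} (hσ : 2 * j + 1 ≤ σ.2) :
    ∃ T', X T' ∧ agree (2 * j + 1) T T' ∧ σ ∉ T' ∧ ∀ τ ∈ T, ¬ Desc σ τ → τ ∈ T' := by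
  by_cases hin : σ ∈ T
  swap
  · exact ⟨T, hT, fun _ _ => Iff.rfl, hin, fun τ h _ => h⟩
  obtain ⟨π, σ', h1, h2, hne, hbig, hall⟩ : ∃ π σ' : Node, Child π σ ∧ Child π σ' ∧ σ ≠ σ' ∧
      2 * j + 1 ≤ σ'.2 ∧ ∀ τ, Child π τ → τ = σ ∨ τ = σ' := by
    obtain ⟨s, m⟩ := σ
    simp only at hσ
    obtain ⟨k, rfl | rfl⟩ : ∃ k, m = 2 * k + 1 ∨ m = 2 * k + 2 := ⟨(m - 1) / 2, by omega⟩
    · refine ⟨(!s, k), (s, 2 * k + 2), Or.inl (by simp), Or.inr (by simp), by simp, by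
        simp only; omega, ?_⟩
      rintro τ (rfl | rfl) <;> simp
    · refine ⟨(!s, k), (s, 2 * k + 1), Or.inr (by simp), Or.inl (by simp), by simp, by
        simp only; omega, ?_⟩
      rintro τ (rfl | rfl) <;> simp
  have hπ : π ∈ T := (hT.2.2 π).2 ⟨σ, h1, hin⟩
  have nd : ∀ {a b : Node}, Child π a → Child π b → a ≠ b → ¬ Desc a b := by
    intro a b ha hb hab hd
    rcases (desc_child hb).1 hd with h | h
    · exact hab h.symm
    · have := (child_lt ha).1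
      rcases desc_le h with h | h
      · rw [h] at this; omega
      · omega
  have disj : ∀ τ, Desc σ τ → ¬ Desc σ' τ := by
    intro τ ha hb
    rcases desc_total ha hb with h | h
    · exact nd h1 h2 hne h
    · exact nd h2 h1 hne.symm h
  have small : ∀ (a τ : Node), 2 * j + 1 ≤ a.2 → τ.2 < 2 * j + 1 → ¬ Desc a τ := by
    intro a τ ha hτ hd
    rcases desc_le hd with h | h
    · rw [h] at ha; omega
    · omega
  have hag : agree (2 * j + 1) T {τ | (τ ∈ T ∨ Desc σ' τ) ∧ ¬ Desc σ τ} := by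
    intro τ hτ
    have e1 := small σ τ hσ hτ
    have e2 := small σ' τ hbig hτ
    simp only [Set.mem_ofPred_eq]
    tauto
  refine ⟨{τ | (τ ∈ T ∨ Desc σ' τ) ∧ ¬ Desc σ τ}, ⟨(hag _ (by simp)).1 hT.1,
    (hag _ (by simp)).1 hT.2.1, fun ρ => ?_⟩, hag, fun h => h.2 Relation.ReflTransGen.refl,
    fun τ h h' => ⟨Or.inl h, h'⟩⟩
  simp only [Set.mem_ofPred_eq]
  by_cases c1 : Desc σ ρ
  · constructor
    · intro h; exact absurd c1 h.2
    · rintro ⟨τ, h, -, h'⟩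
      exact absurd (Relation.ReflTransGen.tail c1 h) h'
  by_cases c2 : Desc σ' ρ
  · refine ⟨fun _ => ⟨_, Or.inl rfl, Or.inr (Relation.ReflTransGen.tail c2 (Or.inl rfl)),
      fun h => disj _ h (Relation.ReflTransGen.tail c2 (Or.inl rfl))⟩, fun _ => ⟨Or.inr c2, c1⟩⟩
  by_cases c3 : ρ = π
  · subst c3
    exact ⟨fun _ => ⟨σ', h2, Or.inr Relation.ReflTransGen.refl, nd h1 h2 hne⟩,
      fun _ => ⟨Or.inl hπ, c1⟩⟩
  have e : ∀ τ, Child ρ τ → ¬ Desc σ τ ∧ ¬ Desc σ' τ := by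
    intro τ h
    rw [desc_child h, desc_child h]
    refine ⟨?_, ?_⟩
    · rintro (rfl | h')
      · exact c3 (child_uniq h h1)
      · exact c1 h'
    · rintro (rfl | h')
      · exact c3 (child_uniq h h2)
      · exact c2 h'
  constructor
  · rintro ⟨h | h, -⟩
    · obtain ⟨τ, h3, h4⟩ := (hT.2.2 ρ).1 h
      exact ⟨τ, h3, Or.inl h4, (e τ h3).1⟩
    · exact absurd h c2
  · rintro ⟨τ, h3, h4 | h4, -⟩
    · exact ⟨Or.inl ((hT.2.2 ρ).2 ⟨τ, h3, h4⟩), c1⟩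
    · exact absurd h4 (e τ h3).2

theorem generic {ι : Type} [Countable ι] [Nonempty ι] (D : ι → Set Node → ℕ → Prop)
    (hD : ∀ i T N, X T → ∃ T' N', X T' ∧ N ≤ N' ∧ agree N T T' ∧ D i T' N') :
    ∃ T, X T ∧ ∀ i, ∃ T' N', X T' ∧ D i T' N' ∧ agree N' T' T := by
  obtain ⟨e, he⟩ := exists_surjective_nat ι
  have hD' : ∀ (k : ℕ) (p : {T // X T} × ℕ), ∃ q : {T // X T} × ℕ,
      p.2 + 1 ≤ q.2 ∧ agree (p.2 + 1) p.1.1 q.1.1 ∧ D (e k) q.1.1 q.2 := by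
    intro k p
    obtain ⟨T', N', h1, h2⟩ := hD (e k) p.1.1 (p.2 + 1) p.1.2
    exact ⟨(⟨T', h1⟩, N'), h2⟩
  choose nx hnx using hD'
  have X0 : X Set.univ := ⟨trivial, trivial, fun ρ => ⟨fun _ => ⟨_, Or.inl rfl, trivial⟩,
    fun _ => trivial⟩⟩
  let s : ℕ → {T // X T} × ℕ := fun k => Nat.rec (⟨Set.univ, X0⟩, 0) (fun k p => nx k p) k
  have hs : ∀ k, s (k + 1) = nx k (s k) := fun k => rfl
  have hge : ∀ k, k ≤ (s k).2 := by
    intro k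
    induction k with
    | zero => exact Nat.zero_le _
    | succ k ih => have := (hnx k (s k)).1; rw [hs]; omega
  have hmono : ∀ k l, k ≤ l → (s k).2 ≤ (s l).2 ∧ agree (s k).2 (s k).1.1 (s l).1.1 := by
    intro k l hkl
    induction l, hkl using Nat.le_induction with
    | base => exact ⟨le_rfl, fun _ _ => Iff.rfl⟩
    | succ l _ ih =>
      have h := hnx l (s l)
      rw [← hs] at h
      exact ⟨by omega, fun σ hσ => (ih.2 σ hσ).trans (h.2.1 σ (by omega))⟩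
  have hlim : ∀ k, agree (s k).2 (s k).1.1 {σ | σ ∈ (s (σ.2 + 1)).1.1} := by
    intro k σ hσ
    simp only [Set.mem_ofPred_eq]
    rcases le_total k (σ.2 + 1) with h | h
    · exact (hmono _ _ h).2 σ hσ
    · exact ((hmono _ _ h).2 σ (hge _)).symm
  refine ⟨{σ | σ ∈ (s (σ.2 + 1)).1.1}, ⟨(s 1).1.2.1, (s 1).1.2.2.1, fun ρ => ?_⟩, fun i => ?_⟩
  · have h := hlim (2 * ρ.2 + 3)
    have hg := hge (2 * ρ.2 + 3)
    rw [← h ρ (by omega), (s (2 * ρ.2 + 3)).1.2.2.2 ρ]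
    refine exists_congr fun τ => and_congr_right fun hc => h τ ?_
    have := (child_lt hc).2
    omega
  · obtain ⟨k, rfl⟩ := he i
    exact ⟨_, _, (s (k + 1)).1.2, (hnx k (s k)).2.2, hlim (k + 1)⟩

def RE {α : Type} [Primcodable α] (W : Set α) : Prop :=
  ∃ f : α →. ℕ, Partrec f ∧ ∀ p, (f p).Dom ↔ p ∈ W

theorem countable_RE (α : Type) [Primcodable α] : Countable {W : Set α // RE W} := by
  refine Set.Countable.to_subtype (s := {W : Set α | RE W}) ?_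
  refine (Set.countable_range fun c : Nat.Partrec.Code =>
    {p : α | (c.eval (Encodable.encode p)).Dom}).mono ?_
  rintro W ⟨f, hf, hW⟩
  obtain ⟨c, hc⟩ := Nat.Partrec.Code.exists_code.1 hf
  refine ⟨c, Set.ext fun p => ?_⟩
  simp [hc, ← hW]

theorem RE_of_pred {α : Type} [Primcodable α] {W : Set α} (h : REPred fun p => p ∈ W) : RE W :=
  ⟨fun a => (Part.assert (a ∈ W) fun _ => Part.some ()).map fun _ => 0,
    Partrec.map h (Computable.const 0).to₂, fun p => by simp [Part.assert]⟩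

theorem RE_proj {W : Set (ℕ × ℕ)} (h : RE W) {q : ℕ → Prop} [DecidablePred q]
    (hq : PrimrecPred q) : RE {x | ∃ y, q y ∧ (x, y) ∈ W} := by
  obtain ⟨f, hf, hW⟩ := h
  obtain ⟨c, hc⟩ := Nat.Partrec.Code.exists_code.1 hf
  have hdom : ∀ p : ℕ × ℕ, p ∈ W ↔ ∃ k, (c.evaln k (Encodable.encode p)).isSome := by
    intro p
    rw [← hW]
    have : (f p).Dom ↔ (c.eval (Encodable.encode p)).Dom := by
      rw [hc]; simp only [Encodable.encodek]; simp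
    rw [this, Part.dom_iff_mem]
    simp only [Nat.Partrec.Code.evaln_complete, Option.isSome_iff_exists]
    exact ⟨fun ⟨y, k, h⟩ => ⟨k, y, h⟩, fun ⟨k, y, h⟩ => ⟨y, k, h⟩⟩
  let g : ℕ → ℕ → Bool := fun x n =>
    decide (q n.unpair.1) && (c.evaln n.unpair.2 (Encodable.encode (x, n.unpair.1))).isSome
  have hg : Primrec₂ g := by
    have h1 : Primrec fun p : ℕ × ℕ => p.2.unpair.1 :=
      Primrec.fst.comp (Primrec.unpair.comp Primrec.snd)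
    have h2 : Primrec fun p : ℕ × ℕ => p.2.unpair.2 :=
      Primrec.snd.comp (Primrec.unpair.comp Primrec.snd)
    refine Primrec.and.comp (hq.decide.comp h1) (Primrec.option_isSome.comp ?_)
    exact Nat.Partrec.Code.primrec_evaln.comp
      ((h2.pair (Primrec.const c)).pair (Primrec.encode.comp (Primrec.fst.pair h1)))
  refine ⟨fun x => Nat.rfind fun n => Part.some (g x n), Partrec.rfind hg.to_comp.partrec₂,
    fun x => ?_⟩
  simp only [Nat.rfind_dom, Part.mem_some_iff, Set.mem_ofPred_eq, hdom]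
  constructor
  · rintro ⟨n, hn, -⟩
    simp only [g, Bool.true_eq, Bool.and_eq_true, decide_eq_true_eq] at hn
    exact ⟨_, hn.1, _, hn.2⟩
  · rintro ⟨y, hy, k, hk⟩
    exact ⟨Nat.pair y k, by
      simp only [g, Nat.unpair_pair, hk, hy, decide_true, Bool.and_self], fun _ => trivial⟩

theorem deep {T : Set Node} (hT : X T) (N : ℕ) : ∀ s : Bool, ∃ m, N ≤ m ∧ (s, m) ∈ T := by
  induction N with
  | zero => intro s; cases s; exacts [⟨0, le_rfl, hT.2.1⟩, ⟨0, le_rfl, hT.1⟩]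
  | succ N ih =>
    intro s
    obtain ⟨m, hm, h⟩ := ih (!s)
    obtain ⟨τ, rfl | rfl, h2⟩ := (hT.2.2 _).1 h
    · exact ⟨2 * m + 1, by omega, by simpa using h2⟩
    · exact ⟨2 * m + 2, by omega, by simpa using h2⟩

def sec (W : Set (ℕ × ℕ)) (s : Bool) (x : ℕ) : Set Node := {σ | σ.1 = s ∧ (x, σ.2) ∈ W}

def Bad (U V : Set Node) (T : Set Node) (N : ℕ) : Prop :=
  (∀ σ ∈ U, σ ∈ T ∧ σ.2 < N) ∧ ∃ σ ∈ V, σ ∉ T ∧ σ.2 < N

def BadP (W₁ W₂ : Set (ℕ × ℕ)) (T : Set Node) (N : ℕ) : Prop :=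
  ∃ x, Bad (sec W₁ true x) (sec W₂ false x) T N ∨ Bad (sec W₂ false x) (sec W₁ true x) T N

abbrev Idx := (Bool × {R : Set ℕ // RE R}) ⊕ (Bool × ℕ × {W : Set (ℕ × ℕ) // RE W}) ⊕
  ({W : Set (ℕ × ℕ) // RE W} × {W : Set (ℕ × ℕ) // RE W})

def D : Idx → Set Node → ℕ → Prop
  | .inl (s, R), T, N => ∃ m, m < N ∧ ((s, m) ∈ T ↔ m ∈ R.1)
  | .inr (.inl (s, x, W)), T, N =>
      (∃ M, ∀ σ ∈ sec W.1 s x, σ.2 < M) ∨ ∃ σ ∈ sec W.1 s x, σ ∉ T ∧ σ.2 < N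
  | .inr (.inr (W₁, W₂)), T, N => BadP W₁.1 W₂.1 T N ∨
      ∃ j, N = 2 * j + 1 ∧ ∀ T' N', X T' → agree N T T' → ¬ BadP W₁.1 W₂.1 T' N'

theorem agree_mono {N N' : ℕ} {T T' : Set Node} (h : agree N' T T') (hN : N ≤ N') :
    agree N T T' := fun σ hσ => h σ (by omega)

theorem D_dense (i : Idx) (T : Set Node) (N : ℕ) (hT : X T) :
    ∃ T' N', X T' ∧ N ≤ N' ∧ agree N T T' ∧ D i T' N' := by
  rcases i with ⟨s, R⟩ | ⟨s, x, W⟩ | ⟨W₁, W₂⟩
  · obtain ⟨m, hm, h⟩ := deep hT (2 * N + 1) s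
    by_cases hR : m ∈ R.1
    · exact ⟨T, m + 1, hT, by omega, fun _ _ => Iff.rfl, m, by omega, iff_of_true h hR⟩
    · obtain ⟨T', h1, h2, h3, -⟩ := key hT (j := N) (σ := (s, m)) hm
      exact ⟨T', m + 1, h1, by omega, agree_mono h2 (by omega), m, by omega, iff_of_false h3 hR⟩
  · by_cases hb : ∃ M, ∀ σ ∈ sec W.1 s x, σ.2 < M
    · exact ⟨T, N, hT, le_rfl, fun _ _ => Iff.rfl, Or.inl hb⟩
    · push Not at hb
      obtain ⟨σ, hσ, hm⟩ := hb (2 * N + 1)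
      obtain ⟨T', h1, h2, h3, -⟩ := key hT hm
      exact ⟨T', σ.2 + 1, h1, by omega, agree_mono h2 (by omega), Or.inr ⟨σ, hσ, h3, by omega⟩⟩
  · by_cases hb : ∃ T' N', X T' ∧ agree (2 * N + 1) T T' ∧ BadP W₁.1 W₂.1 T' N'
    · obtain ⟨T', N', h1, h2, x, h3⟩ := hb
      have mono : ∀ U V, Bad U V T' N' → Bad U V T' (N' + N) := by
        rintro U V ⟨a, σ, b, c, d⟩
        exact ⟨fun τ hτ => ⟨(a τ hτ).1, by have := (a τ hτ).2; omega⟩, σ, b, c, by omega⟩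
      exact ⟨T', N' + N, h1, by omega, agree_mono h2 (by omega),
        Or.inl ⟨x, h3.imp (mono _ _) (mono _ _)⟩⟩
    · push Not at hb
      exact ⟨T, 2 * N + 1, hT, by omega, fun _ _ => Iff.rfl, Or.inr ⟨N, rfl, hb⟩⟩

theorem top_case {T : Set Node} (hT : X T) {j M : ℕ} {U V : Set Node} (hV : ∀ σ ∈ V, σ ∈ T)
    (hM : ∀ σ ∈ V, σ.2 < M) {σ : Node} (hσ : σ ∈ U) (hj : 2 * j + 1 ≤ σ.2) (hn : σ ∉ V)
    (hmax : ∀ τ ∈ V, τ.2 ≤ σ.2) :
    ∃ T' N', X T' ∧ agree (2 * j + 1) T T' ∧ Bad V U T' N' := by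
  obtain ⟨T', h1, h2, h3, h4⟩ := key hT hj
  refine ⟨T', σ.2 + 1, h1, h2, fun τ hτ => ⟨h4 τ (hV τ hτ) fun hd => ?_, ?_⟩, σ, hσ, h3, by omega⟩
  · have := hmax τ hτ
    rcases desc_le hd with h | h
    · exact hn (h ▸ hτ)
    · omega
  · have := hmax τ hτ
    omega

theorem main : ∃ T, X T ∧ (∀ (s : Bool) (R : Set ℕ), RE R → ∃ m, (s, m) ∈ T ↔ m ∈ R) ∧
    ∀ W₁ W₂ : Set (ℕ × ℕ), RE W₁ → RE W₂ →
      (∀ x, (∀ σ ∈ sec W₁ true x, σ ∈ T) ↔ ∀ σ ∈ sec W₂ false x, σ ∈ T) →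
      ∃ N, ∀ x, (∀ σ ∈ sec W₁ true x, σ ∈ T) → ∀ σ ∈ sec W₁ true x, σ.2 < N := by
  have := countable_RE ℕ
  have := countable_RE (ℕ × ℕ)
  have : Nonempty Idx := ⟨.inl (true, ⟨∅, fun _ => Part.none, Partrec.none, by simp⟩)⟩
  obtain ⟨T, hT, hG⟩ := generic D D_dense
  have fin : ∀ s x W, RE W → (∀ σ ∈ sec W s x, σ ∈ T) → ∃ M, ∀ σ ∈ sec W s x, σ.2 < M := by
    intro s x W hW h
    obtain ⟨T', N', -, h1 | ⟨σ, h1, h2, h3⟩, h4⟩ := hG (.inr (.inl (s, x, ⟨W, hW⟩)))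
    · exact h1
    · exact absurd ((h4 σ h3).2 (h σ h1)) h2
  refine ⟨T, hT, fun s R hR => ?_, fun W₁ W₂ h1 h2 hiff => ?_⟩
  · obtain ⟨T', N', -, ⟨m, hm, h⟩, h4⟩ := hG (.inl (s, ⟨R, hR⟩))
    exact ⟨m, (h4 (s, m) hm).symm.trans h⟩
  obtain ⟨T', N', -, ⟨x, hb⟩ | ⟨j, rfl, hb⟩, h4⟩ := hG (.inr (.inr (⟨W₁, h1⟩, ⟨W₂, h2⟩)))
  · exfalso
    rcases hb with ⟨a, σ, b, c, d⟩ | ⟨a, σ, b, c, d⟩
    · exact c ((h4 σ d).2 ((hiff x).1 (fun τ hτ => (h4 τ (a τ hτ).2).1 (a τ hτ).1) σ b))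
    · exact c ((h4 σ d).2 ((hiff x).2 (fun τ hτ => (h4 τ (a τ hτ).2).1 (a τ hτ).1) σ b))
  refine ⟨2 * j + 1, fun x hU => ?_⟩
  have hV := (hiff x).1 hU
  obtain ⟨M₁, hM₁⟩ := fin _ _ _ h1 hU
  obtain ⟨M₂, hM₂⟩ := fin _ _ _ h2 hV
  by_contra hcon
  push Not at hcon
  obtain ⟨σ₀, hσ₀, hj⟩ := hcon
  have hfin : (sec W₁ true x ∪ sec W₂ false x).Finite := by
    refine ((Set.finite_univ (α := Bool)).prod (Set.finite_lt_nat (M₁ + M₂))).subset ?_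
    rintro τ (h | h)
    · exact ⟨trivial, by have := hM₁ τ h; change τ.2 < _; omega⟩
    · exact ⟨trivial, by have := hM₂ τ h; change τ.2 < _; omega⟩
  obtain ⟨σ, hσ, hmax⟩ := Set.exists_max_image _ (fun τ : Node => τ.2) hfin ⟨σ₀, Or.inl hσ₀⟩
  have hj' : 2 * j + 1 ≤ σ.2 := hj.trans (hmax σ₀ (Or.inl hσ₀))
  rcases hσ with hσ | hσ
  · obtain ⟨T'', N'', a, b, c⟩ := top_case hT hV hM₂ hσ hj'
      (fun h => by have := hσ.1.symm.trans h.1; simp at this) (fun τ hτ => hmax τ (Or.inr hτ))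
    exact hb T'' N'' a (fun τ hτ => (h4 τ hτ).trans (b τ hτ)) ⟨x, Or.inr c⟩
  · obtain ⟨T'', N'', a, b, c⟩ := top_case hT hU hM₁ hσ hj'
      (fun h => by have := hσ.1.symm.trans h.1; simp at this) (fun τ hτ => hmax τ (Or.inl hτ))
    exact hb T'' N'' a (fun τ hτ => (h4 τ hτ).trans (b τ hτ)) ⟨x, Or.inl c⟩

theorem ered {T : Set Node} (hT : X T) (s : Bool) : ∃ W : Set (ℕ × List ℕ), RE W ∧
    ∀ x : ℕ, x ∈ {m | (s, m) ∉ T} ↔ ∃ l : List ℕ, (x, l) ∈ W ∧ ∀ y ∈ l, y ∈ {m | (!s, m) ∉ T} := by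
  refine ⟨{p | p.2 = [2 * p.1 + 1, 2 * p.1 + 2]}, RE_of_pred ?_, fun x => ?_⟩
  · refine ComputablePred.to_re (PrimrecPred.computablePred ?_)
    have h : Primrec fun p : ℕ × List ℕ => 2 * p.1 :=
      Primrec.nat_mul.comp (Primrec.const 2) Primrec.fst
    exact Primrec.eq.comp Primrec.snd
      (Primrec.list_cons.comp (Primrec.succ.comp h)
        (Primrec.list_cons.comp (Primrec.succ.comp (Primrec.succ.comp h)) (Primrec.const [])))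
  · simp only [Set.mem_ofPred_eq, exists_eq_left]
    rw [hT.2.2]
    simp [Child, or_and_right, exists_or]


/-- There are non-c.e. sets A, B of the same enumeration degree such that every set s-reducible to both A and B is c.e. -/
theorem result :
    ∃ A B : Set ℕ,
      (∃ W : Set (ℕ × List ℕ),
        (∃ f : ℕ × List ℕ →. ℕ, Partrec f ∧ ∀ p : ℕ × List ℕ, (f p).Dom ↔ p ∈ W) ∧
        ∀ x : ℕ, x ∈ A ↔ ∃ l : List ℕ, (x, l) ∈ W ∧ ∀ y ∈ l, y ∈ B) ∧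
      (∃ W : Set (ℕ × List ℕ),
        (∃ f : ℕ × List ℕ →. ℕ, Partrec f ∧ ∀ p : ℕ × List ℕ, (f p).Dom ↔ p ∈ W) ∧
        ∀ x : ℕ, x ∈ B ↔ ∃ l : List ℕ, (x, l) ∈ W ∧ ∀ y ∈ l, y ∈ A) ∧
      (¬ ∃ f : ℕ →. ℕ, Partrec f ∧ ∀ n : ℕ, (f n).Dom ↔ n ∈ A) ∧
      (¬ ∃ f : ℕ →. ℕ, Partrec f ∧ ∀ n : ℕ, (f n).Dom ↔ n ∈ B) ∧
      ∀ C : Set ℕ,
        (∃ W : Set (ℕ × ℕ),
          (∃ f : ℕ × ℕ →. ℕ, Partrec f ∧ ∀ p : ℕ × ℕ, (f p).Dom ↔ p ∈ W) ∧
          ∀ x : ℕ, x ∈ C ↔ ∃ y ∈ A, (x, y) ∈ W) →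
        (∃ W : Set (ℕ × ℕ),
          (∃ f : ℕ × ℕ →. ℕ, Partrec f ∧ ∀ p : ℕ × ℕ, (f p).Dom ↔ p ∈ W) ∧
          ∀ x : ℕ, x ∈ C ↔ ∃ y ∈ B, (x, y) ∈ W) →
        ∃ f : ℕ →. ℕ, Partrec f ∧ ∀ n : ℕ, (f n).Dom ↔ n ∈ C := by
  classical
  obtain ⟨T, hT, h1, h2⟩ := main
  have nre : ∀ s : Bool, ¬ RE {m | (s, m) ∉ T} := by
    intro s h
    obtain ⟨m, hm⟩ := h1 s _ h
    simp only [Set.mem_ofPred_eq] at hm
    tauto
  refine ⟨{m | (true, m) ∉ T}, {m | (false, m) ∉ T}, ered hT true, ered hT false, nre true,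
    nre false, ?_⟩
  rintro C ⟨W₁, r1, e1⟩ ⟨W₂, r2, e2⟩
  have c : ∀ (s : Bool) (W : Set (ℕ × ℕ)) (x : ℕ),
      (∀ σ ∈ sec W s x, σ ∈ T) ↔ ¬ ∃ y ∈ {m | (s, m) ∉ T}, (x, y) ∈ W := by
    intro s W x
    constructor
    · rintro h ⟨y, hy, hw⟩
      exact hy (h (s, y) ⟨rfl, hw⟩)
    · rintro h ⟨s', y⟩ ⟨rfl, hw⟩
      by_contra hy
      exact h ⟨y, hy, hw⟩
  obtain ⟨N, hN⟩ := h2 W₁ W₂ r1 r2 fun x => by rw [c, c, ← e1, ← e2]
  let L : List ℕ := (List.range N).filter fun y => (true, y) ∉ T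
  have hq : PrimrecPred fun y : ℕ => N ≤ y ∨ y ∈ L := by
    refine PrimrecPred.or (Primrec.nat_le.comp (Primrec.const N) Primrec.id) ?_
    induction L with
    | nil =>
      exact PrimrecPred.of_eq (p := fun _ : ℕ => (0 : ℕ) = 1)
        (Primrec.eq.comp (Primrec.const 0) (Primrec.const 1)) (fun _ => by simp)
    | cons a l ih =>
      exact ((Primrec.eq.comp Primrec.id (Primrec.const a)).or ih).of_eq fun y => by simp
  have hC : C = {x | ∃ y, (N ≤ y ∨ y ∈ L) ∧ (x, y) ∈ W₁} := by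
    ext x
    constructor
    · intro hx
      obtain ⟨y, hy, hw⟩ := (e1 x).1 hx
      refine ⟨y, ?_, hw⟩
      rcases le_or_gt N y with h | h
      · exact Or.inl h
      · exact Or.inr (by simpa [L, h] using hy)
    · rintro ⟨y, hy | hy, hw⟩
      · by_contra hx
        rw [e1, ← c] at hx
        have := hN x hx (true, y) ⟨rfl, hw⟩
        simp only at this
        omega
      · refine (e1 x).2 ⟨y, ?_, hw⟩
        simp only [L, List.mem_filter, decide_eq_true_eq] at hy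
        exact hy.2
  rw [hC]
  exact RE_proj r1 hq

end Pool.Agent.S14899
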