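import Pool.Statements.S14935
import Pool.Agent.H10.Hall2

set_option autoImplicit false
open Pool Pool.MP_7a8588_lc

namespace Pool.Agent.S14935

/-- For some n there is an isomorphism-invariant group property P, Borel in the space of n-generated marked groups, such that the just-non-P marked groups or the residually P marked groups form a non-Borel set. -/
theorem result :
    ∃ n : ℕ, ∃ S : Set (Subgroup (FreeGroup (Fin n))),
      (∀ (N M : Subgroup (FreeGroup (Fin n))) [N.Normal] [M.Normal],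
          Nonempty ((FreeGroup (Fin n) ⧸ N) ≃* (FreeGroup (Fin n) ⧸ M)) → (N ∈ S ↔ M ∈ S)) ∧
      @MeasurableSet (FreeGroup (Fin n) → Bool) (borel (FreeGroup (Fin n) → Bool))
        {f : FreeGroup (Fin n) → Bool | ∃ N : Subgroup (FreeGroup (Fin n)),
          N.Normal ∧ N ∈ S ∧ ∀ g, f g = true ↔ g ∈ N} ∧
      (¬ @MeasurableSet (FreeGroup (Fin n) → Bool) (borel (FreeGroup (Fin n) → Bool))
          {f : FreeGroup (Fin n) → Bool | ∃ N : Subgroup (FreeGroup (Fin n)),
            N.Normal ∧ N ∉ S ∧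
            (∀ M : Subgroup (FreeGroup (Fin n)), M.Normal → N < M → M ∈ S) ∧
            ∀ g, f g = true ↔ g ∈ N} ∨
       ¬ @MeasurableSet (FreeGroup (Fin n) → Bool) (borel (FreeGroup (Fin n) → Bool))
          {f : FreeGroup (Fin n) → Bool | ∃ N : Subgroup (FreeGroup (Fin n)),
            N.Normal ∧
            (∀ g : FreeGroup (Fin n), g ∉ N →
              ∃ M : Subgroup (FreeGroup (Fin n)), M.Normal ∧ N ≤ M ∧ g ∉ M ∧ M ∈ S) ∧
            ∀ g, f g = true ↔ g ∈ N}) := by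
  classical
  open Pool.Agent.H10.Hall in
  refine ⟨2, {N | R0 (· ∈ N) ∧ R1 (· ∈ N)}, fun N M _ _ ⟨e⟩ => ?_, ?_, .inr fun h => ?_⟩
  · have h1 := tr _ (QuotientGroup.mk'_surjective N) (· = 1)
    have h2 := tr _ (QuotientGroup.mk'_surjective M) (· = 1)
    have h3 := tr e.toMonoidHom e.surjective (· = 1)
    simp only [QuotientGroup.mk'_apply, QuotientGroup.eq_one_iff, MulEquiv.toMonoidHom_eq_coe,
      MonoidHom.coe_coe, EmbeddingLike.map_eq_one_iff] at h1 h2 h3
    exact h1.symm.trans (h3.symm.trans h2)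
  · rw [← BorelSpace.measurable_eq]
    have : ∀ f : FreeGroup (Fin 2) → Bool, (∃ N : Subgroup (FreeGroup (Fin 2)), N.Normal ∧
        (R0 (· ∈ N) ∧ R1 (· ∈ N)) ∧ ∀ g, f g = true ↔ g ∈ N) ↔ f 1 = true ∧
        (∀ a b, f a = true → f b = true → f (a * b) = true) ∧ (∀ a, f a = true → f a⁻¹ = true) ∧
        (∀ a, f a = true → ∀ b, f (b * a * b⁻¹) = true) ∧ R0 (f · = true) ∧ R1 (f · = true) := by
      refine fun f => ⟨?_, fun ⟨h1, h2, h3, h4, h5⟩ => ⟨⟨⟨⟨{g | f g = true}, fun {a b} => h2 a b⟩,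
        h1⟩, fun {a} => h3 a⟩, ⟨h4⟩, h5, fun _ => Iff.rfl⟩⟩
      rintro ⟨N, n, h1, h2⟩
      simp only [h2]
      exact ⟨one_mem _, fun _ _ => mul_mem, fun _ => inv_mem, n.conj_mem, h1⟩
    simp only [Set.mem_ofPred_eq, this]
    rw [measurableSet_setOfPred]
    unfold R0 R1 Cen
    fun_prop
  rw [← BorelSpace.measurable_eq] at h
  obtain ⟨e, he⟩ := exists_surjective_nat AA
  let B : V →+ AA := ((AddMonoidAlgebra.basis ℤ ℤ).constr ℤ
    fun k : ℤ => if 0 < k then e (k - 1).toNat else 0).toAddMonoidHom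
  have hT : ∀ k, B (LaurentPolynomial.T k) = if 0 < k then e (k - 1).toNat else 0 := fun k =>
    (AddMonoidAlgebra.basis ℤ ℤ).constr_basis ℤ _ k
  have sj : Function.Surjective (π B) := π_surj fun x => by
    obtain ⟨n, rfl⟩ := he x
    refine ⟨n + 1, ?_⟩
    rw [hT, hT, if_pos (by omega), if_neg (by omega)]
    simp
  let K := fun T => (Submodule.span ℤ (Rel T)).toAddSubgroup
  let N := fun T => ((K T).toSubgroup.map (z B)).comap (π B)
  have m : Measurable fun T w => decide (w ∈ N T) := measurable_pi_iff.2 fun w =>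
    measurable_to_bool (by
      have := span_meas (π B w).x
      simp only [Set.preimage, Set.mem_singleton_iff, decide_eq_true_eq, N, Subgroup.mem_comap,
        mem_z, measurableSet_setOfPred, K, Submodule.mem_toAddSubgroup]
      fun_prop)
  refine H10.DST.illf ?_
  convert m h using 1
  ext T
  simp only [Set.mem_ofPred_eq, Set.mem_preimage, decide_eq_true_eq]
  constructor
  · rintro ⟨b, hb⟩
    obtain ⟨χ, x0, h0, hχ⟩ := lemD hb
    have k1 : K T ≤ χ.ker := fun x hx =>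
      (Submodule.span_le (p := LinearMap.ker χ.toIntLinearMap)).2 hχ hx
    refine ⟨N T, inferInstance, fun g hg => ?_, fun _ => Iff.rfl⟩
    obtain ⟨ψ, h1, h2⟩ : ∃ ψ : AA →+ AddCircle (1 : ℚ), K T ≤ ψ.ker ∧
        ((π B g).x ∉ K T → ψ (π B g).x ≠ 0) := by
      by_cases hx : (π B g).x ∈ K T
      · exact ⟨0, by simp, fun h => (h hx).elim⟩
      obtain ⟨c, hc⟩ := CharacterModule.exists_character_apply_ne_zero_of_ne_zero
        ((QuotientAddGroup.eq_zero_iff _).not.2 hx)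
      exact ⟨AddMonoidHom.comp c (QuotientAddGroup.mk' _), fun x hx => by
        simp [(QuotientAddGroup.eq_zero_iff _).2 hx], fun _ => hc⟩
    refine ⟨((χ.ker ⊓ ψ.ker).toSubgroup.map (z B)).comap (π B), inferInstance, fun w hw => ?_,
      fun hw => hg ?_, (tr _ sj _).1 (lemB χ ψ h0)⟩
    · obtain ⟨a1, a2, a3⟩ := mem_z.1 hw
      exact mem_z.2 ⟨a1, a2, k1 a3, h1 a3⟩
    · obtain ⟨a1, a2, a3⟩ := mem_z.1 hw
      exact mem_z.2 ⟨a1, a2, by_contra fun h => h2 h a3.2⟩
  · rintro ⟨N', -, h1, h2⟩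
    obtain ⟨g, hg⟩ := sj (t B 1)
    obtain ⟨M, n, m1, -, m2⟩ := h1 g fun h => by
      simpa [hg, t] using (mem_z.1 ((h2 g).2 h)).2.1
    have := n.map _ sj
    have e : (M.map (π B)).comap (π B) = M := Subgroup.comap_map_eq_self fun w hw =>
      m1 ((h2 w).1 (mem_z.2 (by rw [show π B w = 1 from hw]; exact ⟨rfl, rfl, zero_mem _⟩)))
    rw [← e] at m2
    obtain ⟨χ, c1, c2⟩ := lemA _ ((tr _ sj (· ∈ M.map (π B))).2 m2).1 ((tr _ sj _).2 m2).2
    refine lemC χ c1 fun r hr => c2 r ?_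
    obtain ⟨w, hw⟩ := sj (z B (.ofAdd r))
    exact ⟨w, m1 ((h2 w).1 (mem_z.2 (by rw [hw]; exact ⟨rfl, rfl, Submodule.subset_span hr⟩))), hw⟩

end Pool.Agent.S14935
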