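import Pool.Statements.S14998


set_option autoImplicit false
open Pool Pool.MP_855a95_lc

namespace Pool.Agent.S14998

theorem result :
    ¬ (∃ c : {o : Ordinal.{0} // o < (Cardinal.aleph 1).ord} →
        {o : Ordinal.{0} // o < (Cardinal.aleph 1).ord} → ℕ,
      (∀ a b, c a b = c b a) ∧
      (∀ a b d, a ≠ b → b ≠ d → a ≠ d → ¬ (c a b = c b d ∧ c a b = c a d)) ∧
      ∀ f : {o : Ordinal.{0} // o < (Cardinal.aleph 1).ord} → ℕ,
        ∃ i : ℕ, ∀ n : ℕ, ∃ a b, a ≠ b ∧ f a = i ∧ f b = i ∧ c a b = n) := by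
  classical
  rintro ⟨c, _, h2, h3⟩
  let u : {o : Ordinal.{0} // o < (Cardinal.aleph 1).ord} :=
    ⟨0, by simpa using Ordinal.omega_pos 1⟩
  obtain ⟨i, hi⟩ := h3 (fun a => if a = u then 0 else c u a + 1)
  obtain ⟨a, b, hab, ha, hb, hc⟩ := hi (i - 1)
  by_cases e1 : a = u
  · by_cases e2 : b = u
    · exact hab (e1.trans e2.symm)
    · simp only [if_pos e1, if_neg e2] at ha hb
      omega
  · by_cases e2 : b = u
    · simp only [if_neg e1, if_pos e2] at ha hb
      omega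
    · simp only [if_neg e1, if_neg e2] at ha hb
      exact h2 u a b (Ne.symm e1) hab (Ne.symm e2) ⟨by omega, by omega⟩
end Pool.Agent.S14998
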