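import Pool.Statements.S15001
-- import your own Pool.Agent.* helpers here

set_option autoImplicit false
open Pool Pool.MP_856e04_lc

namespace Pool.Agent.S15001

open Fin.NatCast in
theorem one {L : Type} [LinearOrder L] [Nonempty L] {m : ℕ} (S : Fin (m + 1) → L → Prop)
    (hS : ∀ i a, ∃ x, a < x ∧ S i x) (b : Fin (m + 1)) : ∃ x : Fin (m + 1) → L,
      (∀ i, S i (x i)) ∧ Function.Injective x ∧ ∀ i, i ≠ b → x i < x (i + 1) := by
  choose g g1 g2 using hS
  let y : ℕ → L := fun s => Nat.rec (g (b + 1) (Classical.arbitrary L))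
    (fun s y => g (b + 1 + ((s + 1 : ℕ) : Fin (m + 1))) y) s
  have y1 : StrictMono y := strictMono_nat_of_lt_succ fun s => g1 _ _
  have y2 : ∀ s : ℕ, S (b + 1 + (s : Fin (m + 1))) (y s) := by
    rintro (_ | s)
    · rw [Nat.cast_zero, add_zero]
      exact g2 _ _
    · exact g2 _ _
  refine ⟨fun i => y (i - (b + 1)).val, fun i => ?_, fun i j h => ?_, fun i hi => y1 ?_⟩
  · simpa using y2 (i - (b + 1)).val
  · exact sub_left_injective (Fin.ext (y1.injective h))
  · have : i - (b + 1) < Fin.last m := Fin.lt_last_iff_ne_last.2 fun h => hi (by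
      have h2 := Fin.last_add_one m
      rw [← h] at h2
      rw [← sub_eq_zero, ← h2]
      abel)
    rw [show i + 1 - (b + 1) = i - (b + 1) + 1 by abel, Fin.val_add_one_of_lt this]
    exact Nat.lt_succ_self _

/-- Sets of tuples that are large for the iterated cofinal quantifier. -/
def Large {L : Type} [LinearOrder L] : (r : ℕ) → Set (Fin r → L) → Prop
  | 0, X => X.Nonempty
  | r + 1, X => ∀ a, ∃ x, a < x ∧ Large r {y | (Fin.cons x y : Fin (r + 1) → L) ∈ X}

theorem many {L : Type} [LinearOrder L] [Nonempty L] {m : ℕ} (r : ℕ) :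
    ∀ (X : Fin (m + 1) → Set (Fin r → L)), (∀ i, Large r (X i)) → ∀ b : Fin r → Fin (m + 1),
      ∃ a : Fin (m + 1) → Fin r → L, (∀ i, a i ∈ X i) ∧ ∀ t, (Function.Injective fun i => a i t) ∧
        ∀ i, i ≠ b t → a i t < a (i + 1) t := by
  induction r with
  | zero => exact fun X h b => ⟨fun i => (h i).some, fun i => (h i).some_mem, fun t => t.elim0⟩
  | succ r ih =>
    intro X h b
    obtain ⟨x, x1, x2⟩ := one _ h (b 0)
    obtain ⟨a, a1, a2⟩ := ih _ x1 fun t => b t.succ
    exact ⟨fun i => Fin.cons (x i) (a i), a1, fun t => Fin.cases x2 a2 t⟩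

theorem pigeon {L C : Type} [LinearOrder L] (hb : ∀ g : C → L, ∃ x, ∀ c, g c < x) (r : ℕ) :
    ∀ c : (Fin r → L) → C, ∃ col, Large r {y | c y = col} := by
  induction r with
  | zero => exact fun c => ⟨c default, default, rfl⟩
  | succ r ih =>
    intro c
    choose col hcol using fun x => ih fun y => c (Fin.cons x y)
    by_contra h
    simp only [Large, not_exists, not_forall, not_and] at h
    choose g hg using h
    obtain ⟨x, hx⟩ := hb g
    exact hg _ x (hx _) (hcol x)

open Cardinal in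
theorem bdd {l : Cardinal.{0}} (hl : l.IsRegular) {C : Type} (hC : #C < l)
    (g : C → l.ord.ToType) : ∃ x, ∀ c, g c < x := by
  by_contra h
  push Not at h
  have h1 : (⋃ c, Set.Iic (g c)) = Set.univ := Set.eq_univ_of_forall fun x => Set.mem_iUnion.2 (h x)
  have h2 := (mk_iUnion_le_sum_mk (f := fun c => Set.Iic (g c))).trans_lt
    (sum_lt_of_isRegular hl hC fun c => by
      rw [← Set.Iio_insert]
      exact mk_insert_le.trans_lt (add_lt_of_lt hl.1 (mk_Iio_ord_toType _)
        (one_lt_aleph0.trans_le hl.1)))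
  simp [h1] at h2

/-- For every infinite cardinal κ and every n, there is a loopless digraph on κ vertices with no directed cycle of length below n, such that every colouring with fewer than κ colours has a monochromatic directed cycle. -/
theorem result : ∀ κ : Cardinal.{0}, Cardinal.aleph0 ≤ κ → ∀ n : ℕ,
    ∃ (V : Type) (D : Digraph V),
      Cardinal.mk V = κ ∧
      (∀ v : V, ¬ D.Adj v v) ∧
      (∀ k : ℕ, k + 1 < n → ∀ f : Fin (k + 1) → V, Function.Injective f →
        ¬ ∀ i : Fin (k + 1), D.Adj (f i) (f (i + 1))) ∧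
      (∀ (C : Type) (c : V → C), Cardinal.mk C < κ →
        ∃ k : ℕ, ∃ f : Fin (k + 1) → V, Function.Injective f ∧
          (∀ i : Fin (k + 1), D.Adj (f i) (f (i + 1))) ∧
          ∀ i j : Fin (k + 1), c (f i) = c (f j)) := by
  intro κ hκ n
  refine ⟨Fin (n + 2) → κ.ord.ToType, ⟨fun a b => ∃ j, ∀ i, i ≠ j → a i < b i⟩, ?_, ?_, ?_, ?_⟩
  · have := Cardinal.power_nat_eq (n := n + 2) hκ (by omega)
    rw [← Cardinal.power_natCast] at this
    simpa using this
  · rintro v ⟨j, hj⟩
    obtain ⟨i, hi⟩ := exists_ne j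
    exact lt_irrefl _ (hj i hi)
  · intro k hk f _ h
    choose j hj using h
    obtain ⟨t, ht⟩ : ∃ t, ∀ i, j i ≠ t := by
      by_contra hc
      push Not at hc
      have := Fintype.card_le_of_surjective j hc
      simp only [Fintype.card_fin] at this
      omega
    obtain ⟨i, hi⟩ := Finite.exists_max fun i => f i t
    exact absurd (hj i t (ht i).symm) (not_lt.2 (hi _))
  · intro C c hC
    obtain ⟨l, l1, l2, l3⟩ : ∃ l : Cardinal.{0}, l.IsRegular ∧ Cardinal.mk C < l ∧ l ≤ κ := by
      rcases lt_or_ge (Cardinal.mk C) Cardinal.aleph0 with h | h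
      · exact ⟨_, Cardinal.isRegular_aleph0, h, hκ⟩
      · exact ⟨_, Cardinal.isRegular_succ h, Order.lt_succ _, Order.succ_le_of_lt hC⟩
    let e := (Ordinal.initialSegToType (Cardinal.ord_le_ord.2 l3)).toOrderEmbedding
    haveI : Nonempty l.ord.ToType := by
      rw [← Cardinal.mk_ne_zero_iff]
      simpa using l1.pos.ne'
    obtain ⟨col, hcol⟩ := pigeon (bdd l1 l2) (n + 2) fun y => c (e ∘ y)
    obtain ⟨a, a1, a2⟩ := many (m := n + 1) (n + 2) (fun _ => _) (fun _ => hcol) id
    exact ⟨n + 1, fun i => e ∘ a i, fun i j h => (a2 0).1 (e.injective (congrFun h 0)),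
      fun i => ⟨i, fun t ht => e.strictMono ((a2 t).2 i ht.symm)⟩,
      fun i j => (a1 i).trans (a1 j).symm⟩

end Pool.Agent.S15001
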