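import Pool.Statements.S15010
import Pool.Agent.H30.Rch1

set_option autoImplicit false
open Pool Pool.MP_87895e_lc

namespace Pool.Agent.S15010

open Pool.Agent.H30.Rch

variable {σ τ : Fin 14 → Fin 5 → ℝ}

lemma upd (hσ : St σ) (s0 : Fin 14) {m : Fin 5 → ℝ} (hm : Sx m) : St (Function.update σ s0 m) := by
  refine ⟨fun s a => ?_, fun s => ?_⟩ <;> by_cases h : s = s0
  · subst h; simpa using hm.1 a
  · simpa [h] using hσ.1 s a
  · subst h; simpa using hm.2
  · simpa [h] using hσ.2 s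

lemma pure (i : Fin 5) : Sx (fun a => if a = i then 1 else 0) :=
  ⟨fun a => by dsimp only; split_ifs <;> norm_num, by simp⟩

lemma unif : Sx (fun _ => 1 / 5) := ⟨fun _ => by norm_num, by simp⟩

lemma zer (hσ : St σ) (hτ : St τ) (T : Set (Fin 14)) (K : Finset (Fin 14)) (hK : ∀ s ∈ K, s ∉ T)
    (h : ∀ s ∈ K, G σ τ (fun s => if s ∈ K then 0 else 1) s ≤ 0) : ∀ s ∈ K, val σ τ T s = 0 := by
  obtain ⟨-, -, f3, f4⟩ := facts hσ hτ T
  intro s hs
  refine le_antisymm ?_ (f3 s)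
  have := f4 (fun s => if s ∈ K then 0 else 1) (fun s => by split_ifs <;> norm_num)
    (fun s hs => by rw [if_neg fun h => hK s h hs]) (fun s _ => by
      by_cases hs : s ∈ K
      · simpa [hs] using h s hs
      · simpa [hs, G0] using Gm hσ hτ (v := fun s => if s ∈ K then 0 else 1) (w := 0) 1
          (fun s => by split_ifs <;> norm_num) s) s
  simpa [hs] using this

lemma b01 (h : St σ) (s : Fin 14) : 0 ≤ σ s 0 ∧ σ s 0 ≤ 1 :=
  ⟨h.1 s 0, h.2 s ▸ Finset.single_le_sum (f := σ s) (fun a _ => h.1 s a) (Finset.mem_univ 0)⟩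

lemma main (hσ : St σ) (hτ : St τ) (e : ℝ) (e0 : 0 ≤ e) (e1 : e ≤ 1 / 10000)
    (H1 : ∀ s σ', St σ' → val σ' τ {11} s ≤ val σ τ {11} s + e)
    (H2 : ∀ s τ', St τ' → val σ τ' {12} s ≤ val σ τ {12} s + e) : False := by
  have D1 := fun (s0 : Fin 14) (hs : s0 ≠ 11) (m : Fin 5 → ℝ) (hm : Sx m) =>
    impr hσ hτ (upd hσ s0 hm) hτ {11} s0 hs (fun s h => ⟨by simp [h], rfl⟩) e e0 (H1 _ _ (upd hσ s0 hm))
  have D2 := fun (s0 : Fin 14) (hs : s0 ≠ 12) (m : Fin 5 → ℝ) (hm : Sx m) =>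
    impr hσ hτ hσ (upd hτ s0 hm) {12} s0 hs (fun s h => ⟨rfl, by simp [h]⟩) e e0 (H2 _ _ (upd hτ s0 hm))
  obtain ⟨f1, f2, f3, f4⟩ := facts hσ hτ {11}
  obtain ⟨g1, g2, g3, g4⟩ := facts hσ hτ {12}
  have zu := zer hσ hτ {11} {12, 13} (by decide) (by
    intro s hs
    obtain ⟨-, -, -, -, -, -, -, -, -, -, -, k1, k2, k3⟩ := Gv hσ hτ
      (fun s => if s ∈ ({12, 13} : Finset (Fin 14)) then 0 else 1)
    simp only [Finset.mem_insert, Finset.mem_singleton] at hs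
    rcases hs with rfl | rfl
    · rw [k2]; simp
    · rw [k3]; simp)
  have zw := zer hσ hτ {12} {11, 13} (by decide) (by
    intro s hs
    obtain ⟨-, -, -, -, -, -, -, -, -, -, -, k1, k2, k3⟩ := Gv hσ hτ
      (fun s => if s ∈ ({11, 13} : Finset (Fin 14)) then 0 else 1)
    simp only [Finset.mem_insert, Finset.mem_singleton] at hs
    rcases hs with rfl | rfl
    · rw [k1]; simp
    · rw [k3]; simp)
  have Z0 : σ 0 0 = 0 → τ 1 0 = 0 → val σ τ {11} 0 = 0 := fun a b =>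
    zer hσ hτ {11} {0, 1} (by decide) (by
      intro s hs
      obtain ⟨k0, k1, -⟩ := Gv hσ hτ (fun s => if s ∈ ({0, 1} : Finset (Fin 14)) then 0 else 1)
      simp only [Finset.mem_insert, Finset.mem_singleton] at hs
      rcases hs with rfl | rfl
      · rw [k0, a]; simp
      · rw [k1, b]; simp) 0 (by decide)
  have Z1 : τ 1 0 = 0 → τ 2 0 = 0 → eta (σ 4) (τ 4) = 0 → val σ τ {12} 1 = 0 := fun a b c =>
    zer hσ hτ {12} {0, 1, 2, 4} (by decide) (by
      intro s hs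
      obtain ⟨k0, k1, k2, -, k4, -⟩ := Gv hσ hτ
        (fun s => if s ∈ ({0, 1, 2, 4} : Finset (Fin 14)) then 0 else 1)
      simp only [Finset.mem_insert, Finset.mem_singleton] at hs
      rcases hs with rfl | rfl | rfl | rfl
      · rw [k0]; simp
      · rw [k1, a]; simp
      · rw [k2, b]; simp
      · rw [k4, c]; simp) 1 (by decide)
  have Z2 : σ 0 0 = 0 → σ 3 0 = 0 → eta (σ 5) (τ 5) = 0 → val σ τ {11} 1 = 0 := fun a b c =>
    zer hσ hτ {11} {0, 1, 3, 5} (by decide) (by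
      intro s hs
      obtain ⟨k0, k1, -, k3, -, k5, -⟩ := Gv hσ hτ
        (fun s => if s ∈ ({0, 1, 3, 5} : Finset (Fin 14)) then 0 else 1)
      simp only [Finset.mem_insert, Finset.mem_singleton] at hs
      rcases hs with rfl | rfl | rfl | rfl
      · rw [k0, a]; simp
      · rw [k1]; simp
      · rw [k3, b]; simp
      · rw [k5, c]; simp) 1 (by decide)
  have W1 : 0 < τ 1 0 → val σ τ {11} 3 ≤ val σ τ {11} 0 + e := by
    intro q0
    refine (D1 0 (by decide) _ (pure 1)).2 3 ?_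
    obtain ⟨-, k2, -⟩ := facts (upd hσ 0 (pure 1)) hτ {11}
    obtain ⟨a0, a1, -⟩ := Gv (upd hσ 0 (pure 1)) hτ (val _ τ {11})
    rw [← k2 0 (by decide)] at a0
    rw [← k2 1 (by decide)] at a1
    simp only [Function.update_self] at a0
    norm_num at a0
    apply mul_left_cancel₀ q0.ne'; linarith
  have W2 : 0 < σ 0 0 → val σ τ {12} 2 ≤ val σ τ {12} 1 + e := by
    intro p0
    refine (D2 1 (by decide) _ (pure 1)).2 2 ?_
    obtain ⟨-, k2, -⟩ := facts hσ (upd hτ 1 (pure 1)) {12}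
    obtain ⟨a0, a1, -⟩ := Gv hσ (upd hτ 1 (pure 1)) (val σ _ {12})
    rw [← k2 0 (by decide)] at a0
    rw [← k2 1 (by decide)] at a1
    simp only [Function.update_self] at a1
    norm_num at a1
    apply mul_left_cancel₀ p0.ne'; linarith
  set u := val σ τ {11} with hu
  set w := val σ τ {12} with hw
  have u11 : u 11 = 1 := f1 11 rfl
  have u12 : u 12 = 0 := zu 12 (by decide)
  have u13 : u 13 = 0 := zu 13 (by decide)
  have w12 : w 12 = 1 := g1 12 rfl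
  have w11 : w 11 = 0 := zw 11 (by decide)
  have w13 : w 13 = 0 := zw 13 (by decide)
  obtain ⟨a0, a1, a2, a3, a4, a5, a6, a7, a8, a9, a10, -⟩ := Gv hσ hτ u
  obtain ⟨b0, b1, b2, b3, b4, b5, b6, b7, b8, b9, b10, -, b12, -⟩ := Gv hσ hτ w
  have w1 : ∀ s, w s ≤ 1 := g4 1 (fun _ => zero_le_one) (fun _ _ => le_rfl) fun s _ => by
    simpa [G0] using Gm hσ hτ (v := 1) (w := 0) 1 (fun s => by simp) s
  have sm : ∀ s, u s ≤ 1 - w s := f4 (fun s => 1 - w s) (fun s => sub_nonneg.2 (w1 s))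
    (fun s hs => by rw [show s = 11 from hs, w11]; norm_num) fun s _ => by
      have : G σ τ (fun s => 1 - w s) s = 1 - G σ τ w s := by
        simp only [G, mul_sub, Finset.sum_sub_distrib, ab (sx hσ s) (sx hτ s)]
      rw [this]
      by_cases h : s = 12
      · rw [h, b12]
      · rw [← g2 s h]
  replace a10 := a10 u13
  replace b10 := b10 w13
  rw [← f2 _ (by decide)] at a0 a1 a2 a3 a4 a5 a6 a7 a8 a9 a10
  rw [← g2 _ (by decide)] at b0 b1 b2 b3 b4 b5 b6 b7 b8 b9 b10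
  have P1 := fun (s0 : Fin 14) (hs : s0 ≠ 11) (m : Fin 5 → ℝ) (hm : Sx m) =>
    And.intro (D1 s0 hs m hm).1 (Gv (upd hσ s0 hm) hτ u)
  have P2 := fun (s0 : Fin 14) (hs : s0 ≠ 12) (m : Fin 5 → ℝ) (hm : Sx m) =>
    And.intro (D2 s0 hs m hm).1 (Gv hσ (upd hτ s0 hm) w)
  have c0 : u 2 ≤ u 0 + e := by
    obtain ⟨h, k, -⟩ := P1 0 (by decide) _ (pure 0); rw [k] at h; simpa using h
  have c1 : w 3 ≤ w 1 + e := by
    obtain ⟨h, -, k, -⟩ := P2 1 (by decide) _ (pure 0); rw [k] at h; simpa using h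
  have c2 : w 6 ≤ w 2 + e := by
    obtain ⟨h, -, -, k, -⟩ := P2 2 (by decide) _ (pure 0); rw [k] at h; simpa using h
  have c2' : w 4 ≤ w 2 + e := by
    obtain ⟨h, -, -, k, -⟩ := P2 2 (by decide) _ (pure 1); rw [k] at h; simpa using h
  have c3 : u 7 ≤ u 3 + e := by
    obtain ⟨h, -, -, -, k, -⟩ := P1 3 (by decide) _ (pure 0); rw [k] at h; simpa using h
  have c3' : u 5 ≤ u 3 + e := by
    obtain ⟨h, -, -, -, k, -⟩ := P1 3 (by decide) _ (pure 1); rw [k] at h; simpa using h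
  have l4 : 2 / 5 * u 8 + (1 - 2 / 5) * u 1 ≤ u 4 + e := by
    obtain ⟨h, -, -, -, -, k, -⟩ := P1 4 (by decide) _ unif
    rwa [k, Function.update_self, (etaU (sx hτ 4)).1] at h
  have m4 : 2 / 5 * w 8 + (1 - 2 / 5) * w 1 ≤ w 4 + e := by
    obtain ⟨h, -, -, -, -, k, -⟩ := P2 4 (by decide) _ unif
    rwa [k, Function.update_self, (etaU (sx hσ 4)).2] at h
  have l5 : 2 / 5 * u 9 + (1 - 2 / 5) * u 1 ≤ u 5 + e := by
    obtain ⟨h, -, -, -, -, -, k, -⟩ := P1 5 (by decide) _ unif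
    rwa [k, Function.update_self, (etaU (sx hτ 5)).1] at h
  have m5 : 2 / 5 * w 9 + (1 - 2 / 5) * w 1 ≤ w 5 + e := by
    obtain ⟨h, -, -, -, -, -, k, -⟩ := P2 5 (by decide) _ unif
    rwa [k, Function.update_self, (etaU (sx hσ 5)).2] at h
  have l6 : 2 / 5 * u 12 + (1 - 2 / 5) * u 11 ≤ u 6 + e := by
    obtain ⟨h, -, -, -, -, -, -, k, -⟩ := P1 6 (by decide) _ unif
    rwa [k, Function.update_self, (etaU (sx hτ 6)).1] at h
  have m6 : 2 / 5 * w 12 + (1 - 2 / 5) * w 11 ≤ w 6 + e := by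
    obtain ⟨h, -, -, -, -, -, -, k, -⟩ := P2 6 (by decide) _ unif
    rwa [k, Function.update_self, (etaU (sx hσ 6)).2] at h
  have l7 : 2 / 5 * u 11 + (1 - 2 / 5) * u 12 ≤ u 7 + e := by
    obtain ⟨h, -, -, -, -, -, -, -, k, -⟩ := P1 7 (by decide) _ unif
    rwa [k, Function.update_self, (etaU (sx hτ 7)).1] at h
  have m7 : 2 / 5 * w 11 + (1 - 2 / 5) * w 12 ≤ w 7 + e := by
    obtain ⟨h, -, -, -, -, -, -, -, k, -⟩ := P2 7 (by decide) _ unif
    rwa [k, Function.update_self, (etaU (sx hσ 7)).2] at h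
  have l8 : 2 / 5 * u 12 + (1 - 2 / 5) * u 10 ≤ u 8 + e := by
    obtain ⟨h, -, -, -, -, -, -, -, -, k, -⟩ := P1 8 (by decide) _ unif
    rwa [k, Function.update_self, (etaU (sx hτ 8)).1] at h
  have m8 : 2 / 5 * w 12 + (1 - 2 / 5) * w 10 ≤ w 8 + e := by
    obtain ⟨h, -, -, -, -, -, -, -, -, k, -⟩ := P2 8 (by decide) _ unif
    rwa [k, Function.update_self, (etaU (sx hσ 8)).2] at h
  have l9 : 2 / 5 * u 11 + (1 - 2 / 5) * u 10 ≤ u 9 + e := by
    obtain ⟨h, -, -, -, -, -, -, -, -, -, k, -⟩ := P1 9 (by decide) _ unif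
    rwa [k, Function.update_self, (etaU (sx hτ 9)).1] at h
  have m9 : 2 / 5 * w 11 + (1 - 2 / 5) * w 10 ≤ w 9 + e := by
    obtain ⟨h, -, -, -, -, -, -, -, -, -, k, -⟩ := P2 9 (by decide) _ unif
    rwa [k, Function.update_self, (etaU (sx hσ 9)).2] at h
  rw [u11, u12, mul_one, mul_zero, add_zero] at a10
  rw [w11, w12, mul_one, mul_zero, zero_add] at b10
  have s1 : ∀ a, τ 10 (a + 1) ≤ u 10 + e := fun a => by
    obtain ⟨h, -, -, -, -, -, -, -, -, -, -, k, -⟩ := P1 10 (by decide) _ (pure a)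
    rw [k u13, u11, u12] at h; simpa using h
  have s2 : ∀ a, σ 10 a ≤ w 10 + e := fun a => by
    obtain ⟨h, -, -, -, -, -, -, -, -, -, -, k, -⟩ := P2 10 (by decide) _ (pure (a + 2))
    rw [k w13, w11, w12] at h; simpa using h
  obtain ⟨s3, s4⟩ := shap (σ 10) (τ 10) (sx hσ 10) (sx hτ 10) e e0 e1 (a10 ▸ s1) (b10 ▸ s2)
  rw [← a10] at s3
  rw [← b10] at s4
  have s5 : 1 / 5 - e ≤ u 10 := by
    have := hτ.2 10; rw [Fin.sum_univ_five] at this
    have h0 : τ 10 1 ≤ _ := s1 0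
    have h1 : τ 10 2 ≤ _ := s1 1
    have h2 : τ 10 3 ≤ _ := s1 2
    have h3 : τ 10 4 ≤ _ := s1 3
    have h4 : τ 10 0 ≤ _ := s1 4
    linarith
  have s6 : 1 / 5 - e ≤ w 10 := by
    have := hσ.2 10; rw [Fin.sum_univ_five] at this
    linarith [s2 0, s2 1, s2 2, s2 3, s2 4]
  have t := fun s => eta01 (sx hσ s) (sx hτ s)
  rw [u12] at a8 l8 l6 l7
  rw [w12] at b8 m8 m6 m7
  rw [u11] at a9 l9 l6 l7
  rw [w11] at b9 m9 m6 m7
  obtain ⟨h1, h2, h3, h4⟩ := gadH e _ _ _ (u 8) (w 8) e0 e1 (t 8).1 (t 8).2 s5 s3 s6 s4 (by linarith)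
    (by linarith) (by linarith) (by linarith)
  obtain ⟨i1, i2, i3, i4⟩ := gadH e _ _ _ (w 9) (u 9) e0 e1 (t 9).1 (t 9).2 s6 s4 s5 s3 (by linarith)
    (by linarith) (by linarith) (by linarith)
  have p := b01 hσ 0
  have q := b01 hτ 1
  have r := b01 hτ 2
  have s := b01 hσ 3
  have y6 := sm 6
  have y7 := sm 7
  rcases q.1.eq_or_lt with q0 | q0 <;> rcases p.1.eq_or_lt with p0 | p0
  · have := Z0 p0.symm q0.symm
    have k1 := mul_le_mul_of_nonneg_left (show 1 / 25 ≤ u 6 by linarith) r.1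
    have k2 := mul_le_mul_of_nonneg_left (show 1 / 25 ≤ u 4 by linarith [f3 1]) (sub_nonneg.2 r.2)
    linarith
  · rw [← q0] at a1 b1
    have k1 : u 1 = u 2 := by apply mul_left_cancel₀ p0.ne'; linarith
    have k2 : w 1 = w 2 := by apply mul_left_cancel₀ p0.ne'; linarith
    exact side e (u 1) (w 1) _ _ (u 4) (w 4) (u 6) (w 6) (u 8) (w 8) _ _ (u 3) (w 3) (u 5) (w 5)
      (u 7) (w 7) (u 9) (w 9) e0 e1 r.1 r.2 (t 4).1 (t 4).2 s.1 s.2 (t 5).1 (t 5).2 (k1.trans a2)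
      (k2.trans b2) a4 b4 (by linarith) (by linarith) (Z1 q0.symm) (by linarith) (by linarith) h2 h3 h4
      a3 b3 a5 b5 c3 (by linarith) (g3 5) (by linarith) (by linarith) i4 i2 c1
  · rw [← p0] at a0 b0
    rw [show u 0 = u 1 by linarith] at a1
    rw [show w 0 = w 1 by linarith] at b1
    have k1 : u 1 = u 3 := by apply mul_left_cancel₀ q0.ne'; linarith
    have k2 : w 1 = w 3 := by apply mul_left_cancel₀ q0.ne'; linarith
    exact side e (w 1) (u 1) _ _ (w 5) (u 5) (w 7) (u 7) (w 9) (u 9) _ _ (w 2) (u 2) (w 4) (u 4)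
      (w 6) (u 6) (w 8) (u 8) e0 e1 s.1 s.2 (t 5).1 (t 5).2 r.1 r.2 (t 4).1 (t 4).2 (k2.trans b3)
      (k1.trans a3) b5 a5 (by linarith) (by linarith) (Z2 p0.symm) (by linarith) (by linarith) i2 i3 i4
      b2 a2 b4 a4 c2 (by linarith) (f3 4) (by linarith) (by linarith) h4 h2 (by linarith)
  · have k1 := W1 q0
    have k2 := W2 p0
    have k3 : u 3 ≤ u 1 + e := by
      have := mul_le_mul_of_nonneg_left k1 (sub_nonneg.2 q.2)
      nlinarith [mul_nonneg q.1 e0]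
    linarith [sm 1]

/-- The negation of the preceding statement: In every finite concurrent two-player game with deterministic transitions, where each player wants to reach its own target set, for every ε>0 some pair of mixed stationary strategies is an ε-Nash equilibrium (against stationary deviations) from every initial state. -/
theorem result :
    ¬ (∀ (S A B : Type) [Fintype S] [Fintype A] [Fintype B] [Nonempty A] [Nonempty B]
      (next : S → A → B → S) (T₁ T₂ : Set S) (ε : ℝ),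
      0 < ε →
      ∀ R : (S → A → ℝ) → (S → B → ℝ) → Set S → S → ℝ,
        (∀ (σ : S → A → ℝ) (τ : S → B → ℝ) (T : Set S) (s : S),
          R σ τ T s =
            ⨆ n : ℕ,
              ((fun v : S → ℝ =>
                  T.indicator (fun _ => (1 : ℝ)) +
                    Tᶜ.indicator (fun x => ∑ a, ∑ b, σ x a * τ x b * v (next x a b)))^[n]
                (T.indicator (fun _ => (1 : ℝ)))) s) →
        ∃ σ : S → A → ℝ, ∃ τ : S → B → ℝ,
          ((∀ s a, 0 ≤ σ s a) ∧ ∀ s, ∑ a, σ s a = 1) ∧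
          ((∀ s b, 0 ≤ τ s b) ∧ ∀ s, ∑ b, τ s b = 1) ∧
          ∀ s : S,
            (∀ σ' : S → A → ℝ, ((∀ s a, 0 ≤ σ' s a) ∧ ∀ s, ∑ a, σ' s a = 1) →
              R σ' τ T₁ s ≤ R σ τ T₁ s + ε) ∧
            (∀ τ' : S → B → ℝ, ((∀ s b, 0 ≤ τ' s b) ∧ ∀ s, ∑ b, τ' s b = 1) →
              R σ τ' T₂ s ≤ R σ τ T₂ s + ε)) := by
  intro h
  obtain ⟨σ, τ, hσ, hτ, d⟩ := h (Fin 14) (Fin 5) (Fin 5) nx {11} {12} (1 / 10000) (by norm_num) val
    (fun _ _ _ _ => rfl)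
  exact main hσ hτ _ (by norm_num) le_rfl (fun s σ' h => (d s).1 σ' h) (fun s τ' h => (d s).2 τ' h)

end Pool.Agent.S15010
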