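import Pool.Statements.S15022
import Pool.Agent.H29.APTest

set_option autoImplicit false
open Pool Pool.MP_8aa41f_lc

namespace Pool.Agent.S15022

open Pool.Agent.H29.APTest in
theorem result :
    ¬ (∃ C : ℝ, ∃ D : ℕ, ∀ n k : ℕ, 2 ≤ n → 1 ≤ k → k ≤ n →
      ∃ m : ℕ, (m : ℝ) ≤ C * (k : ℝ) * Real.log (n : ℝ) ∧
        ∃ T : Fin m → Finset ℕ,
          (∀ i, T i ⊆ Finset.range n ∧
            ∃ a d L : ℕ, T i = (Finset.range L).image (fun j => a + d * j)) ∧
          ∃ J : (Fin m → Bool) → Finset ℕ,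
            (∀ o, (J o).card ≤ D * k) ∧
            ∀ S S' : Finset ℕ, S ⊆ Finset.range n → S' ⊆ Finset.range n →
              S.card ≤ k → S'.card ≤ k →
              (fun i => decide (Disjoint (T i) S)) =
                (fun i => decide (Disjoint (T i) S')) →
              S ∩ J (fun i => decide (Disjoint (T i) S)) =
                S' ∩ J (fun i => decide (Disjoint (T i) S)) →
              S = S') := by
  classical
  rintro ⟨C, D, h⟩
  obtain ⟨t, t2, ht⟩ := numeric (⌈C⌉₊ + 1) D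
  have hn2 : t ≤ 2 ^ (t ^ 2) :=
    le_trans (Nat.le_self_pow (by norm_num) t) (Nat.lt_two_pow_self).le
  obtain ⟨m, hm, T, hT, J, hJ, hS⟩ := h (2 ^ (t ^ 2)) 1 (by omega) le_rfl (by omega)
  have hm' : m ≤ (⌈C⌉₊ + 1) * t ^ 2 := by
    have h1 : Real.log ((2 ^ (t ^ 2) : ℕ) : ℝ) ≤ (t : ℝ) ^ 2 := by
      push_cast
      rw [Real.log_pow]
      have := Real.log_two_lt_d9
      push_cast
      nlinarith [sq_nonneg (t : ℝ)]
    have h0 : 0 ≤ Real.log ((2 ^ (t ^ 2) : ℕ) : ℝ) := Real.log_natCast_nonneg _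
    have h2 : C ≤ (⌈C⌉₊ : ℝ) + 1 := by linarith [Nat.le_ceil C]
    have h3 : (m : ℝ) ≤ ((⌈C⌉₊ : ℝ) + 1) * (t : ℝ) ^ 2 := by
      calc (m : ℝ) ≤ C * Real.log ((2 ^ (t ^ 2) : ℕ) : ℝ) := by simpa using hm
        _ ≤ ((⌈C⌉₊ : ℝ) + 1) * Real.log ((2 ^ (t ^ 2) : ℕ) : ℝ) := by gcongr
        _ ≤ _ := by gcongr
    exact_mod_cast h3
  choose a d L hadL using fun i => (hT i).2
  have key := core (2 ^ (t ^ 2)) m t (4 * (⌈C⌉₊ + 1) * t) D a d L T hadL (fun i => (hT i).1) hn2
    (by nlinarith) (by positivity) ?_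
  · exact absurd (ht m hm') (not_lt.mpr key)
  intro x
  set o : Fin m → Bool := fun i => decide (x ∉ T i) with ho
  set F := (Finset.range (2 ^ (t ^ 2))).filter (fun y => ∀ i, (y ∈ T i ↔ x ∈ T i)) with hF
  have hout : ∀ y ∈ F, (fun i => decide (Disjoint (T i) {y})) = o := by
    intro y hy
    funext i
    have := (Finset.mem_filter.mp hy).2 i
    simp [ho, this]
  have h1 : (F \ J o).card ≤ 1 := by
    rw [Finset.card_le_one]
    intro y hy z hz
    obtain ⟨hy1, hy2⟩ := Finset.mem_sdiff.mp hy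
    obtain ⟨hz1, hz2⟩ := Finset.mem_sdiff.mp hz
    have := hS {y} {z} (by simpa using (Finset.mem_filter.mp hy1).1)
      (by simpa using (Finset.mem_filter.mp hz1).1) (by simp) (by simp)
      ((hout y hy1).trans (hout z hz1).symm) (by
        rw [hout y hy1, Finset.singleton_inter_of_notMem hy2, Finset.singleton_inter_of_notMem hz2])
    simpa using this
  have h2 := hJ o
  have h3 := Finset.card_le_card_sdiff_add_card (s := F) (t := J o)
  omega
end Pool.Agent.S15022
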