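import Pool.Statements.S15054
-- import your own Pool.Agent.* helpers here

set_option autoImplicit false
open Pool Pool.MP_908db9_lc

namespace Pool.Agent.S15054

/-- The negation of the preceding statement: For every Polish group G, Polish space X, subset A of X and continuous action of G on A, there is a G_delta set B with A ⊆ B ⊆ X and a continuous action of G on B extending the given action. -/
theorem result :
    ¬ (∀ (G : Type) [TopologicalSpace G] [Group G] [IsTopologicalGroup G] [PolishSpace G]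
      (X : Type) [TopologicalSpace X] [PolishSpace X]
      (A : Set X) (a : G → A → A),
      Continuous (fun p : G × A => a p.1 p.2) →
      (∀ x : A, a 1 x = x) →
      (∀ (g h : G) (x : A), a g (a h x) = a (g * h) x) →
      ∃ B : Set X, IsGδ B ∧ A ⊆ B ∧
        ∃ b : G → B → B,
          Continuous (fun p : G × B => b p.1 p.2) ∧
          (∀ x : B, b 1 x = x) ∧
          (∀ (g h : G) (x : B), b g (b h x) = b (g * h) x) ∧
          (∀ (g : G) (x : B) (hx : (x : X) ∈ A),
            ((b g x : B) : X) = ((a g ⟨(x : X), hx⟩ : A) : X))) := by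
  intro H
  have hS : IsOpen ({1}ᶜ : Set (ℕ → ℂ)) := isOpen_compl_singleton
  haveI := hS.polishSpace
  haveI : PolishSpace (Multiplicative (ℕ → ℂ)) := inferInstanceAs (PolishSpace (ℕ → ℂ))
  have ne1 : ∀ y : ℕ → ℂ, (∃ n, y n = 0) → y ∈ ({1}ᶜ : Set (ℕ → ℂ)) := by
    rintro y ⟨n, hn⟩ rfl
    simp at hn
  have pres : ∀ (g y : ℕ → ℂ), (∃ n, y n = 0) → ∃ n, Complex.exp (g n) * y n = 0 :=
    fun g y ⟨n, hn⟩ => ⟨n, by rw [hn, mul_zero]⟩
  obtain ⟨B, b1, b2, b, b3, -, -, b4⟩ := H (Multiplicative (ℕ → ℂ)) ({1}ᶜ : Set (ℕ → ℂ))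
    {x | ∃ n, x.1 n = 0}
    (fun g x => ⟨⟨fun n => Complex.exp (g.toAdd n) * x.1.1 n, ne1 _ (pres _ _ x.2)⟩, pres _ _ x.2⟩)
    (((continuous_pi fun n => (Complex.continuous_exp.comp ((continuous_apply n).comp
      (continuous_toAdd.comp continuous_fst))).mul ((continuous_apply n).comp
        (continuous_subtype_val.comp (continuous_subtype_val.comp continuous_snd)))).subtype_mk
          _).subtype_mk _) (fun x => by ext n; simp)
    (fun g h x => by ext n; simp [Complex.exp_add, mul_assoc])
  have up : ∀ y : ℕ → ℂ, Filter.Tendsto (fun k => Function.update y k 0) Filter.atTop (nhds y) :=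
    fun y => tendsto_pi_nhds.2 fun n => tendsto_const_nhds.congr'
      ((Filter.eventually_gt_atTop n).mono fun k hk => (Function.update_of_ne hk.ne _ _).symm)
  have z : ∀ (y : ℕ → ℂ) k, ∃ n, Function.update y k 0 n = 0 := fun y k => ⟨k, by simp⟩
  have d1 : Dense B := fun x => mem_closure_of_tendsto
    (f := fun k => ⟨Function.update x.1 k 0, ne1 _ (z _ k)⟩) (tendsto_subtype_rng.2 (up x.1))
    (Filter.Eventually.of_forall fun k => b2 (z _ k))
  have r : ∀ᶠ x in residual ({1}ᶜ : Set (ℕ → ℂ)), x ∈ B ∧ ∀ n, x.1 n ≠ 0 :=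
    Filter.Eventually.and (residual_of_dense_Gδ b1 d1) (eventually_countable_forall.2 fun n =>
      residual_of_dense_open
        (isOpen_ne_fun ((continuous_apply n).comp continuous_subtype_val) continuous_const)
        (((dense_compl_singleton (0 : ℂ)).preimage
          (isOpenMap_eval (X := fun _ : ℕ => ℂ) n)).preimage hS.isOpenMap_subtype_val))
  haveI : Nonempty ({1}ᶜ : Set (ℕ → ℂ)) := ⟨⟨0, ne1 _ ⟨0, rfl⟩⟩⟩
  obtain ⟨x, x1, x2⟩ := (dense_of_mem_residual r).nonempty
  let g : Multiplicative (ℕ → ℂ) := Multiplicative.ofAdd fun n => -Complex.log (x.1 n)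
  let u : ℕ → B := fun k => ⟨⟨Function.update x.1 k 0, ne1 _ (z _ k)⟩, b2 (z _ k)⟩
  have t1 : Filter.Tendsto u Filter.atTop (nhds ⟨x, x1⟩) :=
    tendsto_subtype_rng.2 (tendsto_subtype_rng.2 (up x.1))
  have c1 : Continuous fun y : B => (b g y).1.1 :=
    continuous_subtype_val.comp (continuous_subtype_val.comp (b3.comp (Continuous.prodMk_right g)))
  have c2 : Continuous fun (y : B) (n : ℕ) => Complex.exp (g.toAdd n) * y.1.1 n :=
    continuous_pi fun n => continuous_const.mul ((continuous_apply n).comp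
      (continuous_subtype_val.comp continuous_subtype_val))
  have e := tendsto_nhds_unique ((c1.tendsto _).comp t1) (((c2.tendsto _).comp t1).congr fun k =>
    (congrArg Subtype.val (b4 g (u k) (z _ k))).symm)
  refine (b g ⟨x, x1⟩).1.2 (e.trans (funext fun n => ?_))
  simp [g, Complex.exp_neg, Complex.exp_log (x2 n), x2 n]

end Pool.Agent.S15054
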