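import Pool.Statements.S15060

set_option autoImplicit false
open Pool Pool.MP_917099_lc

namespace Pool.Agent.S15060

/-- The counterexample instance (7,7,8,8,8,8,16,23,859). -/
def per : Fin 9 → ℕ := ![7, 7, 8, 8, 8, 8, 16, 23, 859]

lemma lastBefore (P : ℤ → Prop) (f : ℤ) (h : ∃ t, t < f ∧ P t) :
    ∃ a, a < f ∧ P a ∧ ∀ t, t < f → P t → t ≤ a := by
  classical
  obtain ⟨a, ha, hmax⟩ := Int.exists_greatest_of_bdd (P := fun t => t < f ∧ P t)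
    ⟨f, fun z hz => hz.1.le⟩ h
  exact ⟨a, ha.1, ha.2, fun t h1 h2 => hmax t ⟨h1, h2⟩⟩

section
variable (S : ℤ → Fin 9)
  (hS : ∀ i : Fin 9, ∀ m : ℤ, ∃ t : ℤ, m ≤ t ∧ t < m + (per i : ℤ) ∧ S t = i)
include hS

lemma five (p1 p2 p3 p4 p5 : ℤ) (h12 : p1 < p2) (h23 : p2 < p3) (h34 : p3 < p4) (h45 : p4 < p5)
    (n1 : (S p1).1 < 2 ∨ 5 < (S p1).1) (n2 : (S p2).1 < 2 ∨ 5 < (S p2).1)
    (n3 : (S p3).1 < 2 ∨ 5 < (S p3).1) (n4 : (S p4).1 < 2 ∨ 5 < (S p4).1)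
    (n5 : (S p5).1 < 2 ∨ 5 < (S p5).1) : p1 + 8 ≤ p5 := by
  by_contra hcon
  obtain ⟨b2, h2a, h2b, h2c⟩ := hS 2 p1
  obtain ⟨b3, h3a, h3b, h3c⟩ := hS 3 p1
  obtain ⟨b4, h4a, h4b, h4c⟩ := hS 4 p1
  obtain ⟨b5, h5a, h5b, h5c⟩ := hS 5 p1
  have e2 : (per 2 : ℤ) = 8 := rfl
  have e3 : (per 3 : ℤ) = 8 := rfl
  have e4 : (per 4 : ℤ) = 8 := rfl
  have e5 : (per 5 : ℤ) = 8 := rfl
  rw [e2] at h2b; rw [e3] at h3b; rw [e4] at h4b; rw [e5] at h5b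
  have v2 : (S b2).1 = 2 := by rw [h2c]; rfl
  have v3 : (S b3).1 = 3 := by rw [h3c]; rfl
  have v4 : (S b4).1 = 4 := by rw [h4c]; rfl
  have v5 : (S b5).1 = 5 := by rw [h5c]; rfl
  have ne : ∀ x y : ℤ, (S x).1 ≠ (S y).1 → x ≠ y := fun x y h e => h (by rw [e])
  have hsub : ({p1, p2, p3, p4, p5, b2, b3, b4, b5} : Finset ℤ) ⊆ Finset.Ico p1 (p1 + 8) := by
    intro x hx
    simp only [Finset.mem_insert, Finset.mem_singleton] at hx
    rw [Finset.mem_Ico]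
    omega
  have hcard := Finset.card_le_card hsub
  have hnd : ([p1, p2, p3, p4, p5, b2, b3, b4, b5] : List ℤ).Nodup := by
    simp only [List.nodup_cons, List.mem_cons, List.not_mem_nil, or_false, not_or,
      List.nodup_nil, and_true, not_false_eq_true]
    refine ⟨⟨?_, ?_, ?_, ?_, ?_, ?_, ?_, ?_⟩, ⟨?_, ?_, ?_, ?_, ?_, ?_, ?_⟩, ⟨?_, ?_, ?_, ?_, ?_, ?_⟩,
      ⟨?_, ?_, ?_, ?_, ?_⟩, ⟨?_, ?_, ?_, ?_⟩, ⟨?_, ?_, ?_⟩, ⟨?_, ?_⟩, ?_⟩ <;>
    first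
      | omega
      | (apply ne; omega)
  have h9 : ({p1, p2, p3, p4, p5, b2, b3, b4, b5} : Finset ℤ).card = 9 := by
    have := List.toFinset_card_of_nodup hnd
    simpa using this
  rw [h9] at hcard
  simp at hcard

lemma twoA (f f' : ℤ) (h : f < f') (hf : 5 < (S f).1) (hf' : 5 < (S f').1) :
    ∃ u v, f < u ∧ u < v ∧ v < f' ∧ (S u).1 < 2 ∧ (S v).1 < 2 := by
  have e0 : (per 0 : ℤ) = 7 := rfl
  have e1 : (per 1 : ℤ) = 7 := rfl
  obtain ⟨a, ha1, ha2, ha3⟩ := lastBefore (fun t => (S t).1 < 2) f (by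
    obtain ⟨t, h1, h2, h3⟩ := hS 0 (f - 7)
    rw [e0] at h2
    exact ⟨t, by omega, by rw [h3]; decide⟩)
  obtain ⟨x, hx1, hx2, hx3⟩ := hS 0 (a + 1)
  obtain ⟨y, hy1, hy2, hy3⟩ := hS 1 (a + 1)
  rw [e0] at hx2; rw [e1] at hy2
  have vx : (S x).1 = 0 := by rw [hx3]; rfl
  have vy : (S y).1 = 1 := by rw [hy3]; rfl
  have ne : ∀ x y : ℤ, (S x).1 ≠ (S y).1 → x ≠ y := fun x y h e => h (by rw [e])
  have key : ∀ u v, a < u → u < v → v ≤ a + 7 → (S u).1 < 2 → (S v).1 < 2 →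
      ∃ u v, f < u ∧ u < v ∧ v < f' ∧ (S u).1 < 2 ∧ (S v).1 < 2 := by
    intro u v h1 h2 h3 hu hv
    have hfu : f < u := by
      by_contra hc
      have : u ≠ f := ne _ _ (by omega)
      have := ha3 u (by omega) hu
      omega
    by_cases hvf : v < f'
    · exact ⟨u, v, hfu, h2, hvf, hu, hv⟩
    · exfalso
      have h5 : v ≠ f' := ne _ _ (by omega)
      have h6 : u ≠ f' := ne _ _ (by omega)
      by_cases huf : u < f'
      · have := five S hS a f u f' v ha1 hfu huf (by omega) (by omega) (by omega) (by omega)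
          (by omega) (by omega)
        omega
      · have := five S hS a f f' u v ha1 h (by omega) h2 (by omega) (by omega) (by omega)
          (by omega) (by omega)
        omega
  have hxy : x ≠ y := ne _ _ (by omega)
  rcases lt_or_gt_of_ne hxy with hlt | hlt
  · exact key x y (by omega) hlt (by omega) (by omega) (by omega)
  · exact key y x (by omega) hlt (by omega) (by omega) (by omega)

lemma fourF (f1 f2 f3 f4 : ℤ) (h12 : f1 < f2) (h23 : f2 < f3) (h34 : f3 < f4)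
    (n1 : 5 < (S f1).1) (n2 : 5 < (S f2).1) (n3 : 5 < (S f3).1) (n4 : 5 < (S f4).1) :
    f1 + 17 ≤ f4 := by
  obtain ⟨u1, v1, a1, a2, a3, a4, a5⟩ := twoA S hS f1 f2 h12 n1 n2
  obtain ⟨u2, v2, b1, b2, b3, b4, b5⟩ := twoA S hS f2 f3 h23 n2 n3
  obtain ⟨u3, v3, c1, c2, c3, c4, c5⟩ := twoA S hS f3 f4 h34 n3 n4
  have k1 := five S hS f1 u1 v1 f2 u2 a1 a2 a3 b1 (by omega) (by omega) (by omega) (by omega)
    (by omega)
  have k2 := five S hS u2 v2 f3 u3 v3 b2 b3 c1 c2 (by omega) (by omega) (by omega) (by omega)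
    (by omega)
  omega

lemma fiveF (f1 f2 f3 f4 f5 : ℤ) (h12 : f1 < f2) (h23 : f2 < f3) (h34 : f3 < f4) (h45 : f4 < f5)
    (n1 : 5 < (S f1).1) (n2 : 5 < (S f2).1) (n3 : 5 < (S f3).1) (n4 : 5 < (S f4).1)
    (n5 : 5 < (S f5).1) : f1 + 24 ≤ f5 := by
  obtain ⟨u1, v1, a1, a2, a3, a4, a5⟩ := twoA S hS f1 f2 h12 n1 n2
  obtain ⟨u2, v2, b1, b2, b3, b4, b5⟩ := twoA S hS f2 f3 h23 n2 n3
  obtain ⟨u3, v3, c1, c2, c3, c4, c5⟩ := twoA S hS f3 f4 h34 n3 n4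
  obtain ⟨u4, v4, d1, d2, d3, d4, d5⟩ := twoA S hS f4 f5 h45 n4 n5
  have k1 := five S hS f1 u1 v1 f2 u2 a1 a2 a3 b1 (by omega) (by omega) (by omega) (by omega)
    (by omega)
  have k2 := five S hS u2 v2 f3 u3 v3 b2 b3 c1 c2 (by omega) (by omega) (by omega) (by omega)
    (by omega)
  have k3 := five S hS v3 f4 u4 v4 f5 c3 d1 d2 d3 (by omega) (by omega) (by omega) (by omega)
    (by omega)
  omega

lemma around (i : Fin 9) (h : ℤ) (hh : S h ≠ i) :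
    ∃ c1 c2, c1 < h ∧ h < c2 ∧ c2 ≤ c1 + (per i : ℤ) ∧ S c1 = i ∧ S c2 = i := by
  obtain ⟨a, ha1, ha2, ha3⟩ := lastBefore (fun t => S t = i) h (by
    obtain ⟨t, h1, h2, h3⟩ := hS i (h - per i)
    exact ⟨t, by omega, h3⟩)
  obtain ⟨x, hx1, hx2, hx3⟩ := hS i (a + 1)
  refine ⟨a, x, ha1, ?_, by omega, ha2, hx3⟩
  by_contra hc
  have h1 : x ≠ h := fun e => hh (e ▸ hx3)
  have := ha3 x (by omega) hx3
  omega

lemma contra : False := by
  obtain ⟨h, -, -, hh⟩ := hS 8 0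
  obtain ⟨c1, c2, a1, a2, a3, a4, a5⟩ := around S hS 6 h (by rw [hh]; decide)
  obtain ⟨d1, d2, b1, b2, b3, b4, b5⟩ := around S hS 7 h (by rw [hh]; decide)
  have e6 : (per 6 : ℤ) = 16 := rfl
  have e7 : (per 7 : ℤ) = 23 := rfl
  rw [e6] at a3; rw [e7] at b3
  have v0 : (S h).1 = 8 := by rw [hh]; rfl
  have v1 : (S c1).1 = 6 := by rw [a4]; rfl
  have v2 : (S c2).1 = 6 := by rw [a5]; rfl
  have v3 : (S d1).1 = 7 := by rw [b4]; rfl
  have v4 : (S d2).1 = 7 := by rw [b5]; rfl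
  have ne : ∀ x y : ℤ, (S x).1 ≠ (S y).1 → x ≠ y := fun x y h e => h (by rw [e])
  have n1 : c1 ≠ d1 := ne _ _ (by omega)
  have n2 : c2 ≠ d2 := ne _ _ (by omega)
  by_cases h1 : c1 < d1
  · have := fourF S hS c1 d1 h c2 h1 b1 a2 (by omega) (by omega) (by omega) (by omega)
    omega
  · by_cases h2 : d2 < c2
    · have := fourF S hS c1 h d2 c2 a1 b2 h2 (by omega) (by omega) (by omega) (by omega)
      omega
    · have := fiveF S hS d1 c1 h c2 d2 (by omega) a1 a2 (by omega) (by omega) (by omega)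
        (by omega) (by omega) (by omega)
      omega
end

/-- The negation: the instance (7,7,8,8,8,8,16,23,859) has density below the threshold but is not schedulable. -/
theorem result :
    ¬ (∀ (k : ℕ) (a : Fin (k + 1) → ℕ),
      (∀ i, 0 < a i) →
      (∀ i, a 0 ≤ a i) →
      (∑ i, (1 : ℝ) / (a i : ℝ)) ≤ 1 - ((a 0 : ℝ) - 1) / ((a 0 : ℝ) * ((a 0 : ℝ) + 1)) →
      ∃ S : ℤ → Fin (k + 1), ∀ i : Fin (k + 1), ∀ m : ℤ,
        ∃ t : ℤ, m ≤ t ∧ t < m + (a i : ℤ) ∧ S t = i) := by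
  intro H
  obtain ⟨S, hS⟩ := H 8 per (by decide) (by decide) (by
    simp only [per, Fin.sum_univ_succ, Fin.sum_univ_zero]
    simp
    norm_num)
  exact contra S hS

end Pool.Agent.S15060
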