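import Pool.Statements.S15106

set_option autoImplicit false
open Pool Pool.MP_9c356a_lc

namespace Pool.Agent.S15106

def hh : Fin 2 → List (Fin 2) := ![[1, 0, 1], [0, 1]]

def HH (u : List (Fin 2)) : List (Fin 2) := u.flatMap hh

lemma HH_inj : ∀ u v : List (Fin 2), HH u = HH v → u = v := by
  intro u
  induction u with
  | nil =>
    intro v hv
    cases v with
    | nil => rfl
    | cons y v => fin_cases y <;> simp [HH, hh] at hv
  | cons x u ih =>
    intro v hv
    cases v with
    | nil => fin_cases x <;> simp [HH, hh] at hv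
    | cons y v =>
      fin_cases x <;> fin_cases y <;> simp [HH, hh] at hv ⊢
      · exact ih v (by simpa [HH, hh] using hv)
      · exact ih v (by simpa [HH, hh] using hv)

lemma HH_flat (L : List ℕ) (m : ℕ) (hL : ∀ i ∈ L, i ≤ m) (w : List (Fin 2)) :
    HH ((L.map (fun i => HH^[m - i] w)).flatten) =
      (L.map (fun i => HH^[m + 1 - i] w)).flatten := by
  induction L with
  | nil => rfl
  | cons i L ih =>
    have hi : i ≤ m := hL i (by simp)
    have e : m + 1 - i = (m - i) + 1 := by omega
    simp only [List.map_cons, List.flatten_cons]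
    rw [← ih (fun j hj => hL j (by simp [hj])), e, Function.iterate_succ_apply']
    simp [HH]

lemma le_foldr (L : List ℕ) : ∀ i ∈ L, i ≤ L.foldr max 0 := by
  induction L with
  | nil => simp
  | cons j L ih =>
    intro i hi
    simp only [List.mem_cons] at hi
    simp only [List.foldr_cons]
    rcases hi with rfl | hi
    · exact le_max_left _ _
    · exact (ih i hi).trans (le_max_right _ _)


/-- The negation of the preceding statement: For every D0L system over an n-letter alphabet, words w_m = h^m(w): if eventually w_m = w_{m-i_1}…w_{m-i_k} for some nonempty list of positive i_j, then such a formula exists with max i_j ≤ n!, and conversely. -/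
theorem result :
    ¬ (∀ (n : ℕ) (h : Fin n → List (Fin n)) (w : List (Fin n)),
    (∃ d : ℕ, ∃ L : List ℕ, ∃ N : ℕ, L ≠ [] ∧ (∀ i ∈ L, 0 < i) ∧ L.foldr max 0 = d ∧ d ≤ N ∧
        ∀ m : ℕ, N ≤ m →
          (fun u : List (Fin n) => u.flatMap h)^[m] w =
            (L.map (fun i => (fun u : List (Fin n) => u.flatMap h)^[m - i] w)).flatten) ↔
    (∃ d : ℕ, d ≤ n.factorial ∧ ∃ L : List ℕ, ∃ N : ℕ, L ≠ [] ∧ (∀ i ∈ L, 0 < i) ∧
        L.foldr max 0 = d ∧ d ≤ N ∧
        ∀ m : ℕ, N ≤ m →
          (fun u : List (Fin n) => u.flatMap h)^[m] w =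
            (L.map (fun i => (fun u : List (Fin n) => u.flatMap h)^[m - i] w)).flatten)) := by
  intro H
  have H1 := (H 2 hh [0]).mp ⟨3, [2, 3, 2, 2, 1], 3, by simp, by simp, by simp, le_rfl, ?_⟩
  · obtain ⟨d, hd, L, N, hne, hpos, hmax, hdN, hrec⟩ := H1
    have hd2 : d ≤ 2 := hd
    have hle : ∀ i ∈ L, i ≤ 2 := fun i hi => (hmax ▸ le_foldr L i hi).trans hd2
    have key : ∀ k : ℕ, HH^[2 + k] [0] = (L.map (fun i => HH^[2 + k - i] [0])).flatten →
        HH^[2] [0] = (L.map (fun i => HH^[2 - i] [0])).flatten := by
      intro k
      induction k with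
      | zero => exact id
      | succ k ih =>
        intro h
        apply ih
        apply HH_inj
        rw [HH_flat L (2 + k) (fun i hi => (hle i hi).trans (by omega)),
          ← Function.iterate_succ_apply' HH]
        exact h
    have h2 := key N (hrec (2 + N) (by omega))
    have e2 : HH^[2] [0] = [0, 1, 1, 0, 1, 0, 1] := by decide
    have e1 : HH^[2 - 1] [0] = [1, 0, 1] := by decide
    have e0 : HH^[2 - 2] [0] = [0] := by decide
    rw [e2] at h2
    have hc : ∀ i ∈ L, i = 1 ∨ i = 2 := fun i hi => by
      have := hpos i hi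
      have := hle i hi
      omega
    match L, hc, h2 with
    | [], _, h2 => simp at h2
    | i :: L, hc, h2 =>
      simp only [List.map_cons, List.flatten_cons] at h2
      rcases hc i (by simp) with rfl | rfl
      · rw [e1] at h2; simp at h2
      · rw [e0] at h2
        match L, hc, h2 with
        | [], _, h2 => simp at h2
        | j :: L, hc, h2 =>
          simp only [List.map_cons, List.flatten_cons] at h2
          rcases hc j (by simp) with rfl | rfl
          · rw [e1] at h2; simp at h2
          · rw [e0] at h2; simp at h2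
  · intro m hm
    show HH^[m] [0] = (([2, 3, 2, 2, 1] : List ℕ).map (fun i => HH^[m - i] [0])).flatten
    induction m, hm using Nat.le_induction with
    | base => decide
    | succ m hm ih =>
      rw [← HH_flat _ m (by simp; omega), ← ih, Function.iterate_succ_apply']

end Pool.Agent.S15106
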