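import Pool.Statements.S15144
import Pool.Agent.H3.IntA

set_option autoImplicit false
open Pool Pool.MP_a2ec29_lc

namespace Pool.Agent.S15144

open Pool.Agent.H3.IntA

/-- the finite-cofinite algebra -/
def FC : BooleanSubalgebra (Set ℕ) where
  carrier := {A | A.Finite ∨ Aᶜ.Finite}
  supClosed' := by
    rintro A (hA | hA) B (hB | hB)
    · exact Or.inl (hA.union hB)
    · exact Or.inr (hB.subset fun x hx h => hx (Or.inr h))
    · exact Or.inr (hA.subset fun x hx h => hx (Or.inl h))
    · exact Or.inr (hA.subset fun x hx h => hx (Or.inl h))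
  infClosed' := by
    rintro A (hA | hA) B (hB | hB)
    · exact Or.inl (hA.subset fun x hx => hx.1)
    · exact Or.inl (hA.subset fun x hx => hx.1)
    · exact Or.inl (hB.subset fun x hx => hx.2)
    · refine Or.inr ((hA.union hB).subset fun x hx => ?_)
      by_contra hc
      simp only [Set.mem_union, Set.mem_compl_iff, not_or, not_not] at hc
      exact hx hc
  compl_mem' := by
    rintro A (hA | hA)
    · exact Or.inr (by simpa using hA)
    · exact Or.inl hA
  bot_mem' := Or.inl Set.finite_empty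

theorem mem_FC (A : Set ℕ) : A ∈ FC ↔ ∃ (b : Prop) (N : ℕ), ∀ n, N ≤ n → (n ∈ A ↔ b) := by
  constructor
  · rintro (h | h)
    · obtain ⟨N, hN⟩ := h.bddAbove
      exact ⟨False, N + 1, fun n hn => ⟨fun h => by have := hN h; omega, False.elim⟩⟩
    · obtain ⟨N, hN⟩ := h.bddAbove
      exact ⟨True, N + 1, fun n hn => ⟨fun _ => trivial, fun _ => by
        by_contra h; have := hN h; omega⟩⟩
  · rintro ⟨b, N, h⟩
    by_cases hb : b
    · refine Or.inr ((Set.finite_lt_nat N).subset fun n hn => ?_)
      by_contra hc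
      exact hn ((h n (not_lt.1 hc)).2 hb)
    · refine Or.inl ((Set.finite_lt_nat N).subset fun n hn => ?_)
      by_contra hc
      exact hb ((h n (not_lt.1 hc)).1 hn)

noncomputable def ee : ℕ ≃ FC := Equiv.ofBijective
  (fun c => ⟨{n | X c n = true}, by
    obtain ⟨b, t, h⟩ := X_ev c
    exact (mem_FC _).2 ⟨b = true, t, fun n hn => by simp [h n hn]⟩⟩) (by
  classical
  constructor
  · intro c d h
    refine X_inj fun n => ?_
    have := Set.ext_iff.1 (congrArg Subtype.val h) n
    simpa using this
  · rintro ⟨A, hA⟩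
    obtain ⟨b, N, h⟩ := (mem_FC A).1 hA
    obtain ⟨c, hc⟩ := X_surj (fun n => decide (n ∈ A)) (decide b) N fun n hn => by simp [h n hn]
    exact ⟨c, Subtype.ext (Set.ext fun n => by simp [hc])⟩)

theorem mem_ee (c n : ℕ) : n ∈ (ee c : Set ℕ) ↔ X c n = true := Iff.rfl

theorem X_symm (A : FC) (n : ℕ) : X (ee.symm A) n = true ↔ n ∈ (A : Set ℕ) := by
  rw [← mem_ee, Equiv.apply_symm_apply]

theorem range_eq : {A : Set ℕ | ∃ S : Finset ℕ, ∃ b : Bool,
    A = {x : ℕ | Xor' (b = true) (Odd (S.filter (fun s => s ≤ x)).card)}} = (FC : Set (Set ℕ)) := by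
  classical
  ext A
  simp only [Set.mem_setOf_eq, SetLike.mem_coe, mem_FC]
  constructor
  · rintro ⟨S, b, rfl⟩
    refine ⟨Xor' (b = true) (Odd S.card), S.sup id, fun n hn => ?_⟩
    rw [Set.mem_setOf_eq, Finset.filter_true_of_mem (p := fun s => s ≤ n) fun s hs =>
      le_trans (Finset.le_sup (f := id) hs) hn]
  · rintro ⟨b, N, h⟩
    let S : Finset ℕ := (Finset.range (N + 1)).filter
      fun s => if s = 0 then 0 ∈ A else ¬ (s ∈ A ↔ s - 1 ∈ A)
    refine ⟨S, false, Set.ext fun x => ?_⟩
    have e0 : ∀ P : Prop, Xor' False P ↔ P := fun P => ⟨fun h => h.elim (fun h => h.1.elim) fun h => h.1, fun h => Or.inr ⟨h, id⟩⟩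
    simp only [Set.mem_setOf_eq, Bool.false_eq_true, e0]
    induction x with
    | zero =>
      have : S.filter (fun s => s ≤ 0) = if 0 ∈ A then {0} else ∅ := by
        ext s
        split_ifs with h0 <;> simp +contextual [S, h0] <;> omega
      rw [this]
      split_ifs with h0 <;> simp [h0]
    | succ x ih =>
      have hm : x + 1 ∈ S ↔ ¬ (x + 1 ∈ A ↔ x ∈ A) := by
        simp only [S, Finset.mem_filter, Finset.mem_range, Nat.add_eq_zero_iff, one_ne_zero,
          and_false, if_false, Nat.add_sub_cancel, and_iff_right_iff_imp]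
        intro hc
        by_contra hx
        exact hc ((h _ (by omega)).trans (h _ (by omega)).symm)
      by_cases hx : x + 1 ∈ S
      · have : S.filter (fun s => s ≤ x + 1) = insert (x + 1) (S.filter fun s => s ≤ x) := by
          ext s
          simp only [Finset.mem_filter, Finset.mem_insert]
          constructor
          · rintro ⟨h1, h2⟩
            rcases Nat.eq_or_lt_of_le h2 with h3 | h3
            · exact Or.inl h3
            · exact Or.inr ⟨h1, by omega⟩
          · rintro (rfl | ⟨h1, h2⟩)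
            · exact ⟨hx, le_rfl⟩
            · exact ⟨h1, by omega⟩
        rw [this, Finset.card_insert_of_notMem (by simp), Nat.odd_add_one]
        have := hm.1 hx
        tauto
      · have : S.filter (fun s => s ≤ x + 1) = S.filter fun s => s ≤ x := by
          refine Finset.filter_congr fun s hs => ⟨fun h2 => ?_, fun h2 => by omega⟩
          rcases Nat.eq_or_lt_of_le h2 with h3 | h3
          · exact absurd (h3 ▸ hs) hx
          · omega
        rw [this]
        have := hm.not.1 hx
        tauto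

theorem psi_fin (ψ : FC → Set ℕ) (hinj : Function.Injective ψ)
    (hs : ∀ a b, ψ (a ⊔ b) = ψ a ∪ ψ b) (hc : ∀ a, ψ aᶜ = (ψ a)ᶜ)
    (hr : Set.range ψ = (FC : Set (Set ℕ))) (a : FC) : (ψ a).Finite ↔ (a : Set ℕ).Finite := by
  have h0 : ψ ⊥ = ∅ := by
    have h1 : ψ ⊤ = Set.univ := by rw [← sup_compl_eq_top (x := (⊥ : FC)), hs, hc]; simp
    rw [← compl_top, hc, h1]; simp
  have hsing : ∀ n : ℕ, (ψ ⟨{n}, Or.inl (Set.finite_singleton n)⟩).Finite := by
    intro n
    rcases (ψ ⟨{n}, Or.inl (Set.finite_singleton n)⟩).eq_empty_or_nonempty with h | ⟨x, hx⟩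
    · rw [h]; exact Set.finite_empty
    obtain ⟨Y, hY⟩ : ({x} : Set ℕ) ∈ Set.range ψ := by
      rw [hr]; exact Or.inl (Set.finite_singleton x)
    have h1 : Y ⊔ ⟨{n}, Or.inl (Set.finite_singleton n)⟩ = ⟨{n}, Or.inl (Set.finite_singleton n)⟩ :=
      hinj (by rw [hs, hY]; exact Set.union_eq_self_of_subset_left (by simpa using hx))
    have h2 : (Y : Set ℕ) ⊆ {n} := sup_eq_right.1 (congrArg Subtype.val h1)
    rcases Set.subset_singleton_iff_eq.1 h2 with h3 | h3
    · have : Y = ⊥ := Subtype.ext h3
      rw [this, h0] at hY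
      exact absurd hY.symm (Set.singleton_ne_empty x)
    · have : Y = ⟨{n}, Or.inl (Set.finite_singleton n)⟩ := Subtype.ext h3
      rw [← this, hY]
      exact Set.finite_singleton x
  have hfin : ∀ (A : Set ℕ) (hA : A.Finite), (ψ ⟨A, Or.inl hA⟩).Finite := by
    intro A hA
    induction A, hA using Set.Finite.induction_on with
    | empty => exact (h0 ▸ Set.finite_empty : (ψ ⊥).Finite)
    | @insert n A _ hA ih =>
      have : (⟨insert n A, Or.inl (hA.insert n)⟩ : FC) =
          ⟨{n}, Or.inl (Set.finite_singleton n)⟩ ⊔ ⟨A, Or.inl hA⟩ := Subtype.ext rfl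
      rw [this, hs]
      exact (hsing n).union ih
  refine ⟨fun h => ?_, fun h => hfin a h⟩
  rcases a.2 with h1 | h1
  · exact h1
  · have h2 : (ψ aᶜ).Finite := hfin _ h1
    rw [hc] at h2
    exact absurd (h.union h2) (by simpa using Set.infinite_univ)

/-- The negation of the preceding statement: Take any computable infinite linear order L and computable Boolean algebra B isomorphic to the algebra of finite unions of half-open intervals of L. Then some computable copy of L makes B computably isomorphic to that copy's interval algebra. -/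
theorem result :
    ¬ (∀ (β : Type) [LinearOrder β] (l : ℕ ≃ β),
      ComputablePred (fun p : ℕ × ℕ => l p.1 ≤ l p.2) →
      ∀ (α : Type) [BooleanAlgebra α] (e : ℕ ≃ α),
        Computable₂ (fun m n : ℕ => e.symm (e m ⊔ e n)) →
        Computable₂ (fun m n : ℕ => e.symm (e m ⊓ e n)) →
        Computable (fun n : ℕ => e.symm (e n)ᶜ) →
        (∃ φ : α → Set β, Function.Injective φ ∧
            (∀ a b, φ (a ⊔ b) = φ a ∪ φ b) ∧
            (∀ a, φ aᶜ = (φ a)ᶜ) ∧
            Set.range φ = {X : Set β | ∃ S : Finset β, ∃ b : Bool,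
              X = {x : β | Xor' (b = true) (Odd (S.filter (fun s => s ≤ x)).card)}}) →
        ∃ l' : ℕ ≃ β, ComputablePred (fun p : ℕ × ℕ => l' p.1 ≤ l' p.2) ∧
          ∃ ψ : α → Set β, Function.Injective ψ ∧
            (∀ a b, ψ (a ⊔ b) = ψ a ∪ ψ b) ∧
            (∀ a, ψ aᶜ = (ψ a)ᶜ) ∧
            Set.range ψ = {X : Set β | ∃ S : Finset β, ∃ b : Bool,
              X = {x : β | Xor' (b = true) (Odd (S.filter (fun s => s ≤ x)).card)}} ∧
            ∃ c : ℕ → List ℕ × Bool, Computable c ∧
              ∀ n : ℕ, ψ (e n) = {x : β | Xor' ((c n).2 = true)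
                (Odd ((c n).1.filter (fun s => decide (l' s ≤ x))).length)}) := by
  intro H
  obtain ⟨l', -, ψ, hinj, hs, hc, hr, c, hcomp, hψ⟩ := H ℕ (Equiv.refl ℕ)
    ⟨inferInstance, Primrec.nat_le.decide.to_comp⟩ FC ee
    (op_comp or _ fun a b j => by
      rw [Bool.eq_iff_iff, X_symm, Bool.or_eq_true]; rfl)
    (op_comp and _ fun a b j => by
      rw [Bool.eq_iff_iff, X_symm, Bool.and_eq_true]; rfl)
    ((op_comp (fun a _ => !a) (fun a _ => ee.symm (ee a)ᶜ) fun a b j => by
      rw [Bool.eq_iff_iff, X_symm, Bool.not_eq_true', ← Bool.not_eq_true]; rfl).comp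
      Computable.id Computable.id)
    ⟨Subtype.val, Subtype.val_injective, fun _ _ => rfl, fun _ => rfl, by
      rw [Subtype.range_coe_subtype]; exact range_eq.symm⟩
  refine true_not_comp (ComputablePred.computable_iff.2
    ⟨fun t => xor (c (2 ^ t)).2 (Nat.bodd (c (2 ^ t)).1.length), ?_, ?_⟩)
  · have h1 := hcomp.comp pow_prim.to_comp
    exact (Primrec.dom_bool₂ xor).to_comp.comp (Computable.snd.comp h1)
      (Primrec.nat_bodd.to_comp.comp (Computable.list_length.comp (Computable.fst.comp h1)))
  · funext t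
    apply propext
    have h1 := psi_fin ψ hinj hs hc (hr.trans range_eq) (ee (2 ^ t))
    rw [H3.IntA.true_iff]
    change ¬ ((ee (2 ^ t) : Set ℕ)).Finite ↔
      xor (c (2 ^ t)).2 (Nat.bodd (c (2 ^ t)).1.length) = true
    rw [← h1, hψ]
    generalize c (2 ^ t) = p
    obtain ⟨L, b⟩ := p
    have h2 : ∀ x, (L.map l').sum ≤ x → L.filter (fun s => decide (l' s ≤ x)) = L := by
      intro x hx
      rw [List.filter_eq_self]
      intro s hs'
      simpa using le_trans (List.single_le_sum (by simp) _ (List.mem_map_of_mem hs')) hx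
    have h3 : xor b (Nat.bodd L.length) = true ↔ Xor' (b = true) (Odd L.length) := by
      rw [Nat.odd_iff, Nat.mod_two_of_bodd]
      cases b <;> cases Nat.bodd L.length <;> simp [Xor']
    simp only
    rw [h3]
    constructor
    · intro h
      obtain ⟨x, hx, hlt⟩ := Set.Infinite.exists_gt h (L.map l').sum
      rwa [Set.mem_setOf_eq, h2 x hlt.le] at hx
    · intro h
      refine (Set.Ici_infinite (L.map l').sum).mono fun x hx => ?_
      rwa [Set.mem_setOf_eq, h2 x hx]

end Pool.Agent.S15144
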