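import Pool.Statements.S15353
-- import your own Pool.Agent.* helpers here

set_option autoImplicit false
open Pool Pool.MP_cc69c8_lc

namespace Pool.Agent.S15353

def Dom (D : Set (ℕ → ℕ)) : Prop := ∀ f : ℕ → ℕ, ∃ g ∈ D, ∀ᶠ n in Filter.atTop, f n ≤ g n

lemma dom_infinite {D : Set (ℕ → ℕ)} (h : Dom D) : D.Infinite := by
  intro hf
  obtain ⟨g, hg, hev⟩ := h (fun n => hf.toFinset.sup (fun g => g n) + 1)
  obtain ⟨n, hn⟩ := hev.exists
  have : g n ≤ hf.toFinset.sup (fun g => g n) :=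
    Finset.le_sup (f := fun g : ℕ → ℕ => g n) (hf.mem_toFinset.mpr hg)
  omega

def gv (g : ℕ → ℕ) (m k : ℕ) : ℕ :=
  Nat.pair (g k + 1) (Encodable.encode (List.ofFn (fun i : Fin (k + 1) => (g i, m))))

def Gr (g : ℕ → ℕ) (m : ℕ) : Set ℕ := Set.range (fun k => Nat.pair k (gv g m k))

def Col (k : ℕ) : Set ℕ := Set.range (fun v => Nat.pair k v)

lemma gr_inf (g : ℕ → ℕ) (m : ℕ) : (Gr g m).Infinite :=
  Set.infinite_range_of_injective (fun _ _ h => (Nat.pair_eq_pair.mp h).1)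

lemma col_inf (k : ℕ) : (Col k).Infinite :=
  Set.infinite_range_of_injective (fun _ _ h => (Nat.pair_eq_pair.mp h).2)

lemma gr_gr {g g' : ℕ → ℕ} {m m' : ℕ} (h : ¬ (g = g' ∧ m = m')) :
    (Gr g m ∩ Gr g' m').Finite := by
  obtain ⟨i, hi⟩ : ∃ i, (g i, m) ≠ (g' i, m') := by
    by_contra hc
    push Not at hc
    exact h ⟨funext fun i => (Prod.mk.inj (hc i)).1, (Prod.mk.inj (hc 0)).2⟩
  refine ((Set.finite_Iio i).image (fun k => Nat.pair k (gv g m k))).subset ?_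
  rintro _ ⟨⟨k, rfl⟩, ⟨k', hk⟩⟩
  obtain ⟨h1, h2⟩ := Nat.pair_eq_pair.mp hk
  subst h1
  refine ⟨k', ?_, rfl⟩
  by_contra hlt
  have hle : i < k' + 1 := by simp at hlt; omega
  have h3 := Encodable.encode_injective (Nat.pair_eq_pair.mp h2).2
  have h4 := congrFun (List.ofFn_injective h3) ⟨i, hle⟩
  exact hi h4.symm

lemma gr_col (g : ℕ → ℕ) (m k : ℕ) : (Gr g m ∩ Col k).Finite := by
  refine (Set.finite_singleton (Nat.pair k (gv g m k))).subset ?_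
  rintro _ ⟨⟨k', rfl⟩, ⟨v, hv⟩⟩
  obtain ⟨h1, _⟩ := Nat.pair_eq_pair.mp hv
  subst h1
  rfl

lemma col_col {k k' : ℕ} (h : k ≠ k') : (Col k ∩ Col k').Finite := by
  refine Set.finite_empty.subset ?_
  rintro _ ⟨⟨v, rfl⟩, ⟨v', hv⟩⟩
  exact h (Nat.pair_eq_pair.mp hv).1.symm

lemma gr_inj {g g' : ℕ → ℕ} {m m' : ℕ} (h : Gr g m = Gr g' m') : g = g' ∧ m = m' := by
  by_contra hc
  have := gr_gr hc
  rw [← h, Set.inter_self] at this
  exact gr_inf g m this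

lemma gr_ne_col (g : ℕ → ℕ) (m k : ℕ) : Gr g m ≠ Col k := by
  intro h
  have := gr_col g m k
  rw [← h, Set.inter_self] at this
  exact gr_inf g m this

def Fam (D : Set (ℕ → ℕ)) : Set (Set ℕ) :=
  Set.range Col ∪ Set.range (fun p : D × ℕ => Gr p.1.1 p.2)

lemma fam_card {D : Set (ℕ → ℕ)} (h : D.Infinite) : Cardinal.mk (Fam D) = Cardinal.mk D := by
  have hi : Cardinal.aleph0 ≤ Cardinal.mk D := Cardinal.infinite_iff.mp h.to_subtype
  apply le_antisymm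
  · refine (Cardinal.mk_union_le _ _).trans ?_
    have h1 : Cardinal.mk (Set.range Col) ≤ Cardinal.mk D :=
      Cardinal.mk_range_le.trans (by simpa using hi)
    have h2 : Cardinal.mk (Set.range (fun p : D × ℕ => Gr p.1.1 p.2)) ≤ Cardinal.mk D := by
      refine Cardinal.mk_range_le.trans ?_
      simp only [Cardinal.mk_prod, Cardinal.lift_id, Cardinal.mk_nat]
      rw [Cardinal.mul_aleph0_eq hi]
    exact (add_le_add h1 h2).trans (Cardinal.add_eq_self hi).le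
  · exact Cardinal.mk_le_of_injective (f := fun g : D => (⟨Gr g.1 0, Or.inr ⟨(g, 0), rfl⟩⟩ : Fam D))
      (fun g g' e => Subtype.ext (gr_inj (congrArg Subtype.val e)).1)

lemma nbhd {A : Set (Set ℕ)} {V : Set (ℕ ⊕ A)} (hV : TopologicalSpace.GenerateOpen
        ({s : Set (ℕ ⊕ A) | ∃ n : ℕ, s = {Sum.inl n}} ∪
         {s : Set (ℕ ⊕ A) | ∃ a : A, ∃ F : Set ℕ, F.Finite ∧
            s = insert (Sum.inr a) (Sum.inl '' ((a : Set ℕ) \ F))}) V) :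
    ∀ a : A, Sum.inr a ∈ V → ∃ F : Set ℕ, F.Finite ∧ ∀ x ∈ (a : Set ℕ), x ∉ F → Sum.inl x ∈ V := by
  induction hV with
  | basic s hs =>
    intro a ha
    rcases hs with ⟨n, rfl⟩ | ⟨b, F, hF, rfl⟩
    · simp at ha
    · have : a = b := by simpa using ha
      subst this
      exact ⟨F, hF, fun x hx hx' => Or.inr ⟨x, ⟨hx, hx'⟩, rfl⟩⟩
  | univ => exact fun a _ => ⟨∅, Set.finite_empty, fun _ _ _ => trivial⟩
  | inter s t _ _ ih1 ih2 =>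
    intro a ha
    obtain ⟨F, hF, h1⟩ := ih1 a ha.1
    obtain ⟨G, hG, h2⟩ := ih2 a ha.2
    exact ⟨F ∪ G, hF.union hG, fun x hx hx' =>
      ⟨h1 x hx (fun h => hx' (Or.inl h)), h2 x hx (fun h => hx' (Or.inr h))⟩⟩
  | sUnion S _ ih =>
    rintro a ⟨s, hs, ha⟩
    obtain ⟨F, hF, h1⟩ := ih s hs a ha
    exact ⟨F, hF, fun x hx hx' => ⟨s, hs, h1 x hx hx'⟩⟩

/-- There is an almost disjoint family of infinite subsets of ℕ, of cardinality equal to the dominating number, whose Mrówka–Isbell space Ψ(A) is not selectively (a). -/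
theorem result :
  ∃ A : Set (Set ℕ),
    (∀ a ∈ A, a.Infinite) ∧ (∀ a ∈ A, ∀ b ∈ A, a ≠ b → (a ∩ b).Finite) ∧
    (∃ D : Set (ℕ → ℕ), (∀ f : ℕ → ℕ, ∃ g ∈ D, ∀ᶠ n in Filter.atTop, f n ≤ g n) ∧
        Cardinal.mk D = Cardinal.mk A) ∧
    (∀ D : Set (ℕ → ℕ), (∀ f : ℕ → ℕ, ∃ g ∈ D, ∀ᶠ n in Filter.atTop, f n ≤ g n) →
        Cardinal.mk A ≤ Cardinal.mk D) ∧
    ∀ t : TopologicalSpace (ℕ ⊕ A),
      t = TopologicalSpace.generateFrom
        ({s : Set (ℕ ⊕ A) | ∃ n : ℕ, s = {Sum.inl n}} ∪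
         {s : Set (ℕ ⊕ A) | ∃ a : A, ∃ F : Set ℕ, F.Finite ∧
            s = insert (Sum.inr a) (Sum.inl '' ((a : Set ℕ) \ F))}) →
      ¬ (∀ U : ℕ → Set (Set (ℕ ⊕ A)),
          (∀ n, (∀ u ∈ U n, @IsOpen _ t u) ∧ ⋃₀ U n = Set.univ) →
          ∀ Dn : Set (ℕ ⊕ A), @Dense _ t Dn →
          ∃ F : ℕ → Set (ℕ ⊕ A),
            (∀ n, F n ⊆ Dn ∧ ∀ x, ∃ V : Set (ℕ ⊕ A), @IsOpen _ t V ∧ x ∈ V ∧ V ∩ F n ⊆ {x}) ∧
            ∀ x, ∃ n, ∃ u ∈ U n, x ∈ u ∧ (u ∩ F n).Nonempty) := by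
  obtain ⟨D, hD, hmin⟩ : ∃ D : Set (ℕ → ℕ), Dom D ∧
      ∀ D' : Set (ℕ → ℕ), Dom D' → Cardinal.mk D ≤ Cardinal.mk D' := by
    obtain ⟨D, hD, hm⟩ := (InvImage.wf (fun D : Set (ℕ → ℕ) => Cardinal.mk D)
      Cardinal.lt_wf).has_min {D | Dom D}
      ⟨Set.univ, fun f => ⟨f, trivial, Filter.Eventually.of_forall fun _ => le_rfl⟩⟩
    exact ⟨D, hD, fun D' h => not_lt.mp (hm D' h)⟩
  have hc := fam_card (dom_infinite hD)
  have hinf : ∀ a ∈ Fam D, a.Infinite := by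
    rintro _ (⟨k, rfl⟩ | ⟨p, rfl⟩)
    · exact col_inf k
    · exact gr_inf _ _
  refine ⟨Fam D, hinf, ?_, ⟨D, hD, hc.symm⟩, fun D' h => hc.trans_le (hmin D' h), ?_⟩
  · rintro _ (⟨k, rfl⟩ | ⟨p, rfl⟩) _ (⟨k', rfl⟩ | ⟨p', rfl⟩) hne
    · exact col_col (fun e => hne (by rw [e]))
    · rw [Set.inter_comm]; exact gr_col _ _ _
    · exact gr_col _ _ _
    · exact gr_gr (fun e => hne (by simp only [e.1, e.2]))
  rintro t rfl H
  let cl : ℕ → Fam D := fun k => ⟨Col k, Or.inl ⟨k, rfl⟩⟩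
  let gr : D × ℕ → Fam D := fun p => ⟨Gr p.1.1 p.2, Or.inr ⟨p, rfl⟩⟩
  let cut : ℕ → D × ℕ → Set ℕ := fun n p =>
    (fun k => Nat.pair k (gv p.1.1 p.2 k)) '' Set.Iio (n + p.2)
  obtain ⟨F, hF, hcov⟩ := H (fun n => {s | ∃ x : ℕ, s = {Sum.inl x}} ∪
      ({s | ∃ k, s = insert (Sum.inr (cl k)) (Sum.inl '' ((cl k : Set ℕ) \ ∅))} ∪
       {s | ∃ p, s = insert (Sum.inr (gr p)) (Sum.inl '' ((gr p : Set ℕ) \ cut n p))}))
    (fun n => ⟨by
      rintro _ (⟨x, rfl⟩ | ⟨k, rfl⟩ | ⟨p, rfl⟩)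
      · exact TopologicalSpace.GenerateOpen.basic _ (Or.inl ⟨x, rfl⟩)
      · exact TopologicalSpace.GenerateOpen.basic _ (Or.inr ⟨_, _, Set.finite_empty, rfl⟩)
      · exact TopologicalSpace.GenerateOpen.basic _
          (Or.inr ⟨_, _, (Set.finite_Iio _).image _, rfl⟩), by
      apply Set.eq_univ_of_forall
      rintro (x | ⟨_, ⟨k, rfl⟩ | ⟨p, rfl⟩⟩)
      · exact ⟨_, Or.inl ⟨x, rfl⟩, rfl⟩
      · exact ⟨_, Or.inr (Or.inl ⟨k, rfl⟩), Or.inl rfl⟩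
      · exact ⟨_, Or.inr (Or.inr ⟨p, rfl⟩), Or.inl rfl⟩⟩)
    (Set.range Sum.inl) (by
      refine (@dense_iff_inter_open _ (TopologicalSpace.generateFrom _) _).mpr ?_
      rintro V hV ⟨x | a, hx⟩
      · exact ⟨_, hx, x, rfl⟩
      · obtain ⟨G, hG, h1⟩ := nbhd hV a hx
        obtain ⟨y, hy⟩ := ((hinf a.1 a.2).diff hG).nonempty
        exact ⟨_, h1 y hy.1 hy.2, y, rfl⟩)
  have hb : ∀ n k, ∃ b, ∀ v, Sum.inl (Nat.pair k v) ∈ F n → v ≤ b := by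
    intro n k
    obtain ⟨V, hV, hx, hVF⟩ := (hF n).2 (Sum.inr (cl k))
    obtain ⟨G, hG, h1⟩ := nbhd hV _ hx
    obtain ⟨b, hb⟩ := hG.bddAbove
    refine ⟨b, fun v hv => (Nat.right_le_pair k v).trans (hb ?_)⟩
    by_contra hn
    have := hVF ⟨h1 _ ⟨v, rfl⟩ hn, hv⟩
    simp at this
  choose h hh using hb
  obtain ⟨g, hg, hev⟩ := hD (fun k => (Finset.range (k + 1)).sup (fun n => h n k))
  obtain ⟨N, hN⟩ := Filter.eventually_atTop.mp hev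
  obtain ⟨n, u, hu, hx, y, hy1, hy2⟩ := hcov (Sum.inr (gr (⟨g, hg⟩, N)))
  rcases hu with ⟨x, rfl⟩ | ⟨k, rfl⟩ | ⟨p, rfl⟩
  · simp at hx
  · have : gr (⟨g, hg⟩, N) = cl k := by simpa using hx
    exact gr_ne_col _ _ _ (congrArg Subtype.val this)
  · have e : gr (⟨g, hg⟩, N) = gr p := by simpa using hx
    obtain ⟨e1, e2⟩ := gr_inj (congrArg Subtype.val e)
    obtain ⟨z, hz⟩ := (hF n).1 hy2
    subst hz
    rcases hy1 with h0 | ⟨w, ⟨⟨k, hk⟩, hw⟩, hwz⟩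
    · simp at h0
    · have hwz' : w = z := Sum.inl.inj hwz
      subst hwz'
      subst hk
      have hk : n + p.2 ≤ k := by
        by_contra hlt
        exact hw ⟨k, not_le.mp hlt, rfl⟩
      simp only at e1 e2
      have h1 := hh n k _ hy2
      have h2 := hN k (by omega)
      have h3 : h n k ≤ (Finset.range (k + 1)).sup (fun n => h n k) :=
        Finset.le_sup (f := fun n => h n k) (Finset.mem_range.mpr (by omega))
      have h4 : p.1.1 k + 1 ≤ gv p.1.1 p.2 k := Nat.left_le_pair _ _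
      rw [← e1] at h4 h1
      omega

end Pool.Agent.S15353
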