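import Pool.Statements.S15376
import Pool.Agent.H23.FreeSub4

set_option autoImplicit false
open FirstOrder FirstOrder.Language
open Pool Pool.MP_cfda27_lc

namespace Pool.Agent.S15376

open Pool.Agent.H23.FreeSub

abbrev Lg (k : Type) : FirstOrder.Language.{0, 0} :=
  ⟨fun n => {_b : Bool // n = 2} ⊕ {_c : k // n = 0}, fun n => {_u : Unit // n = 1}⟩

@[reducible] def str {k : Type} [Field k] (F : Type) [Ring F] [Algebra k F] (A : Subalgebra k F) :
    (Lg k).Structure F :=
  { funMap := fun {n} f xs =>
      Sum.elim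
        (fun b : {_b : Bool // n = 2} =>
          if b.1 then xs (Fin.cast b.2.symm 0) + xs (Fin.cast b.2.symm 1)
          else xs (Fin.cast b.2.symm 0) * xs (Fin.cast b.2.symm 1))
        (fun c : {_c : k // n = 0} => algebraMap k F c.1) f,
    RelMap := fun {n} _ xs => ∀ i, xs i ∈ A }

variable {k : Type} [Field k]

noncomputable instance sS : (Lg k).Structure (FF k (SS k)) := str _ (kadd (LL k (SS k)))
noncomputable instance sP : (Lg k).Structure (FF k (PP k)) := str _ (kadd (LL k (PP k)))

lemma map_fun_aux {F G : Type} [Ring F] [Algebra k F] [Ring G] [Algebra k G]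
    (A : Subalgebra k F) (B : Subalgebra k G) (φ : F →ₐ[k] G) {n : ℕ} (f : (Lg k).Functions n)
    (x : Fin n → F) :
    φ ((str F A).funMap f x) = (str G B).funMap f (φ ∘ x) := by
  rcases f with ⟨b, hb⟩ | ⟨c, hc⟩
  · cases b
    · exact map_mul φ _ _
    · exact map_add φ _ _
  · exact φ.commutes c

noncomputable def embL : FF k (SS k) ↪[Lg k] FF k (PP k) where
  toFun := Fmap k (inc k)
  inj' := Fmap_inj _ inc_inj
  map_fun' := fun f x => map_fun_aux _ _ _ f x
  map_rel' := fun _ x =>
    forall_congr' fun i => ⟨reflect (x i), Fmap_A (inc k) (x i)⟩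

noncomputable def autL (σ : PP k ≃ₗ[Polynomial k] PP k) : FF k (PP k) ≃[Lg k] FF k (PP k) where
  toFun := Fmap k σ
  invFun := Fmap k σ.symm
  left_inv := fun a => by
    rw [Fmap_comp, show (σ.symm ∘ σ : PP k → PP k) = id from σ.symm_comp_self, Fmap_id]
  right_inv := fun a => by
    rw [Fmap_comp, show (σ ∘ σ.symm : PP k → PP k) = id from σ.self_comp_symm, Fmap_id]
  map_fun' := fun f x => map_fun_aux _ _ _ f x
  map_rel' := fun _ x => forall_congr' fun i => ⟨fun h => by
      have := Fmap_A σ.symm.toLinearMap _ h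
      change Fmap k σ.symm (Fmap k σ (x i)) ∈ _ at this
      rwa [Fmap_comp, show (σ.symm ∘ σ : PP k → PP k) = id from σ.symm_comp_self, Fmap_id]
        at this,
    Fmap_A σ.toLinearMap (x i)⟩

lemma elem : FirstOrder.Language.ElementarilyEquivalent (Lg k) (FF k (SS k)) (FF k (PP k)) := by
  refine (embL.toElementaryEmbedding ?_).elementarilyEquivalent
  intro n φ x a h
  obtain ⟨g, hg, b, hb⟩ := homogF x a
  refine ⟨b, ?_⟩
  have := (StrongHomClass.realize_boundedFormula (autL g) φ).2 h
  have e2 : (autL g ∘ (Fin.snoc (embL ∘ x) a : Fin (n + 1) → FF k (PP k))) =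
      (Fin.snoc (embL ∘ x) (embL b) : Fin (n + 1) → FF k (PP k)) := by
    funext i
    refine Fin.lastCases ?_ (fun j => ?_) i
    · simp only [Fin.snoc_last, Function.comp]
      exact hb.symm
    · simp only [Fin.snoc_castSucc, Function.comp]
      exact hg j
  rw [e2] at this
  have key : ∀ (v w : Empty → FF k (PP k)) (xs : Fin (n + 1) → FF k (PP k)),
      φ.Realize v xs → φ.Realize w xs :=
    fun v w xs hv => (funext fun e => Empty.elim e : v = w) ▸ hv
  exact key _ _ _ this

/-- The negative answer holds over every field `k`. -/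
theorem every_field (k : Type) [Field k] : ¬ ∃ T : (Lg k).Theory,
    ∀ (F : Type) [Ring F] [Algebra k F],
      (∃ X : Type, Nonempty (F ≃ₐ[k] FreeAlgebra k X)) →
      ∀ A : Subalgebra k F,
        ((∃ Y : Type, Nonempty (A ≃ₐ[k] FreeAlgebra k Y)) ↔
          ∀ [S : (Lg k).Structure F], S = str F A → F ⊨ T) := by
  rintro ⟨T, hT⟩
  have h0 : FF k (SS k) ⊨ T :=
    (hT (FF k (SS k)) ⟨_, ⟨AlgEquiv.refl⟩⟩ (kadd (LL k (SS k)))).1 free_S rfl
  have h1 : FF k (PP k) ⊨ T := elem.theory_model_iff.1 h0
  refine not_free ((hT (FF k (PP k)) ⟨_, ⟨AlgEquiv.refl⟩⟩ (kadd (LL k (PP k)))).2 ?_)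
  intro S hS
  subst hS
  exact h1

/-- The negation of the preceding statement: For every field k there is a first-order theory, in the language of k-algebras with a predicate P for a subalgebra, such that for every free unital k-algebra F and unital subalgebra A, A is free iff (F,A) satisfies that theory. -/
theorem result :
    ¬ (∀ (k : Type) [Field k],
    ∃ T : (⟨fun n => {_b : Bool // n = 2} ⊕ {_c : k // n = 0},
            fun n => {_u : Unit // n = 1}⟩ : FirstOrder.Language.{0, 0}).Theory,
    ∀ (F : Type) [Ring F] [Algebra k F],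
      (∃ X : Type, Nonempty (F ≃ₐ[k] FreeAlgebra k X)) →
      ∀ A : Subalgebra k F,
        ((∃ Y : Type, Nonempty (A ≃ₐ[k] FreeAlgebra k Y)) ↔
          ∀ [S : (⟨fun n => {_b : Bool // n = 2} ⊕ {_c : k // n = 0},
                   fun n => {_u : Unit // n = 1}⟩ : FirstOrder.Language.{0, 0}).Structure F],
            S = { funMap := fun {n} f xs =>
                    Sum.elim
                      (fun b : {_b : Bool // n = 2} =>
                        if b.1 then xs (Fin.cast b.2.symm 0) + xs (Fin.cast b.2.symm 1)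
                        else xs (Fin.cast b.2.symm 0) * xs (Fin.cast b.2.symm 1))
                      (fun c : {_c : k // n = 0} => algebraMap k F c.1) f,
                  RelMap := fun {n} _ xs => ∀ i, xs i ∈ A } →
            F ⊨ T)) := by
  exact fun h => every_field ℚ (h ℚ)

end Pool.Agent.S15376
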