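import Pool.Statements.S15401
import Pool.Agent.H26.IdealLim2

set_option autoImplicit false
open Filter Topology
open Pool Pool.MP_d33a1c_lc

namespace Pool.Agent.S15401

/-- For every Polish space X, every proper ideal on ω containing all finite sets that is Π^0_3 in Cantor space, and every sequence in X, the set of limits of subsequences indexed by sets outside the ideal is F_σ. -/
theorem result :
    ∀ (X : Type) [TopologicalSpace X] [PolishSpace X] (I : Set (Set ℕ)),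
      (∀ A ∈ I, ∀ B : Set ℕ, B ⊆ A → B ∈ I) →
      (∀ A ∈ I, ∀ B ∈ I, A ∪ B ∈ I) →
      (∀ A : Set ℕ, A.Finite → A ∈ I) →
      (Set.univ : Set ℕ) ∉ I →
      (∃ C : ℕ → ℕ → Set (ℕ → Bool), (∀ i j, IsClosed (C i j)) ∧
        {f : ℕ → Bool | {n : ℕ | f n = true} ∈ I} = ⋂ i, ⋃ j, C i j) →
      ∀ x : ℕ → X, ∃ D : ℕ → Set X, (∀ j, IsClosed (D j)) ∧
        {ℓ : X | ∃ A : Set ℕ, A ∉ I ∧ Tendsto x (atTop ⊓ 𝓟 A) (𝓝 ℓ)} = ⋃ j, D j := by
  rintro X _ _ I h1 h2 h3 h4 ⟨C, hC, hI⟩ x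
  letI := TopologicalSpace.upgradeIsCompletelyMetrizable X
  have hG : ∀ i j, ∃ U : ℕ → Set (ℕ → Bool), (∀ k, IsOpen (U k)) ∧ C i j = ⋂ k, U k := by
    intro i j
    obtain ⟨U, hU, e⟩ := isGδ_iff_eq_iInter_nat.1 (hC i j).isGδ
    exact ⟨U, hU, e⟩
  choose U hU hCU using hG
  refine Pool.Agent.H26.IdealLim2.fsigma (I := I) (U := U) ⟨fun hab hb => h1 _ hb _ hab,
    fun ha hb => h2 _ ha _ hb, fun ha => h3 _ ha, h4⟩ hU (fun S => ?_) x
  have e : S ∈ I ↔ Pool.Agent.H26.IdealLim.chi S ∈ {f : ℕ → Bool | {n : ℕ | f n = true} ∈ I} := by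
    simp [Pool.Agent.H26.IdealLim.chi]
  rw [e, hI]
  simp only [hCU, Set.mem_iInter, Set.mem_iUnion]

end Pool.Agent.S15401
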