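import Pool.Statements.S15436
import Pool.Agent.H23.Harz2

set_option autoImplicit false
open Pool Pool.MP_d6c85c_lc

namespace Pool.Agent.S15436

open Cardinal Set Pool.Agent.H23.Harz

abbrev G : Type := (Cardinal.aleph.{0} 1).ord.ToType

noncomputable def bb (γ : G) : Cardinal.{0} :=
  Cardinal.beth (Ordinal.typein (α := G) (· < ·) γ + 1)

lemma mk_G : #G = aleph 1 := by simp [G]

instance : Nonempty G := by
  rw [← mk_ne_zero_iff, mk_G]; exact (aleph_pos 1).ne'

lemma G_bdd (s : ℕ → G) : ∃ γ, ∀ n, s n < γ := by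
  by_contra hc
  push Not at hc
  have h1 : (univ : Set G) ⊆ ⋃ n, insert (s n) (Iio (s n)) := by
    intro γ _
    obtain ⟨n, hn⟩ := hc γ
    exact mem_iUnion.2 ⟨n, hn.eq_or_lt⟩
  have h2 : (⋃ n, insert (s n) (Iio (s n))).Countable := by
    refine countable_iUnion fun n => Countable.insert _ ?_
    rw [countable_iff_lt_aleph_one]
    exact mk_Iio_lt' _
  have h3 := (countable_iff_lt_aleph_one _).1 (h2.mono h1)
  rw [mk_univ, mk_G] at h3
  exact lt_irrefl _ h3

lemma bb_mono : Monotone bb := fun γ γ' h =>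
  beth_mono (add_le_add_left ((Ordinal.typein_le_typein' _).2 h) 1)

lemma bb_inf (γ : G) : ℵ₀ ≤ bb γ := aleph0_le_beth _

lemma bb_nx (γ : G) : ∃ γ', 2 ^ bb γ ≤ bb γ' := by
  obtain ⟨γ', h⟩ := G_bdd (fun _ => γ)
  refine ⟨γ', ?_⟩
  unfold bb
  rw [← beth_add_one]
  refine beth_mono (add_le_add_left ?_ 1)
  exact Order.add_one_le_of_lt ((Ordinal.typein_lt_typein _).2 (h 0))

lemma bb_G (γ : G) : #(ℕ → G) ≤ bb γ := by
  rw [← power_def, mk_G, mk_nat]
  have h1 : (aleph 1 : Cardinal.{0}) ^ (ℵ₀ : Cardinal.{0}) ≤ 2 ^ ℵ₀ := by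
    calc (aleph 1 : Cardinal.{0}) ^ (ℵ₀ : Cardinal.{0}) ≤ (2 ^ ℵ₀) ^ ℵ₀ :=
          power_le_power_right aleph_one_le_continuum
      _ = 2 ^ ℵ₀ := by rw [← power_mul, aleph0_mul_aleph0]
  refine h1.trans ?_
  unfold bb
  rw [beth_add_one]
  exact power_le_power_left two_ne_zero (aleph0_le_beth _)

noncomputable def kap : Cardinal.{0} := ⨆ γ, bb γ

lemma bb_le (γ : G) : bb γ ≤ kap := le_ciSup (bddAbove_range _) γ

lemma two_bb_le (γ : G) : 2 ^ bb γ ≤ kap := by
  obtain ⟨γ', h⟩ := bb_nx γ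
  exact h.trans (bb_le _)

lemma bb_lt (γ : G) : bb γ < kap := (cantor _).trans_le (two_bb_le γ)

lemma lt_kap {c : Cardinal.{0}} (h : c < kap) : ∃ γ, c < bb γ := exists_lt_of_lt_ciSup h

lemma kap_inf : ℵ₀ ≤ kap := (bb_inf (Classical.arbitrary G)).trans (bb_le _)

lemma G_lt : #G < kap := by
  refine lt_of_le_of_lt ?_ (bb_lt (Classical.arbitrary G))
  refine le_trans ?_ (bb_G _)
  exact mk_le_of_injective (f := fun γ _ => γ) fun a b h => congrFun h 0

abbrev MM : Type := kap.ord.ToType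

lemma mk_MM : #MM = kap := by simp [MM]

lemma exists_rho : ∃ ρ : MM → G, ∀ γ, #{m | ρ m ≤ γ} ≤ bb γ := by
  choose ρ hρ using fun m : MM => lt_kap (mk_Iio_lt' m)
  refine ⟨ρ, fun γ => le_trans (mk_le_mk_of_subset fun m hm => ?_) (card_small kap _ (bb_lt γ))⟩
  exact (hρ m).trans_le (bb_mono hm)

lemma kap_pow : #(ℕ → MM) ≤ kap := by
  obtain ⟨ρ, hρ⟩ := exists_rho
  have h1 : (univ : Set (ℕ → MM)) ⊆ ⋃ γ, {f | ∀ n, ρ (f n) ≤ γ} := by
    intro f _
    obtain ⟨γ, h⟩ := G_bdd (fun n => ρ (f n))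
    exact mem_iUnion.2 ⟨γ, fun n => (h n).le⟩
  rw [← mk_univ]
  refine (mk_le_mk_of_subset h1).trans ((mk_iUnion_le _).trans ?_)
  refine (mul_le_mul' G_lt.le (ciSup_le' fun γ => ?_)).trans (mul_eq_self kap_inf).le
  have h2 : #{f : ℕ → MM | ∀ n, ρ (f n) ≤ γ} ≤ #(ℕ → {m | ρ m ≤ γ}) :=
    mk_le_of_injective (f := fun f n => ⟨f.1 n, f.2 n⟩) fun f f' h =>
      Subtype.ext (funext fun n => congrArg Subtype.val (congrFun h n))
  refine h2.trans ?_
  rw [← power_def, mk_nat]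
  refine le_trans ?_ (two_bb_le γ)
  calc #{m | ρ m ≤ γ} ^ ℵ₀ ≤ (2 ^ bb γ) ^ bb γ :=
        (power_le_power_right ((hρ γ).trans (cantor _).le)).trans
          (power_le_power_left (power_ne_zero _ two_ne_zero) (bb_inf γ))
    _ = 2 ^ bb γ := by rw [← power_mul, mul_eq_self (bb_inf γ)]

lemma mk_PP : #(PP MM) = kap := by
  have h1 : #(PP MM) = #(MM × Bool) ^ #ℕ := (power_def _ _).symm
  have h2 : #(MM × Bool) = #MM := by
    rw [mk_prod, lift_id, lift_id, mk_bool, mk_MM]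
    exact mul_eq_left kap_inf ((natCast_lt_aleph0 (n := 2)).le.trans kap_inf) two_ne_zero
  rw [h1, h2, power_def]
  refine le_antisymm kap_pow ?_
  rw [← mk_MM]
  exact mk_le_of_injective (f := fun γ _ => γ) fun a b h => congrFun h 0


/-- The negation of the preceding statement: If aleph_alpha is singular and M has size sum over nu<alpha of 2^aleph_nu, then for any colouring of the subsets of M with aleph_alpha colours, some colour class under inclusion contains an order-embedded copy of every poset of size aleph_alpha. -/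
theorem result :
    ¬ (∀ (α : Ordinal.{0}), ¬ (Cardinal.aleph α).IsRegular →
      ∀ (M : Type),
        Cardinal.lift.{1} (Cardinal.mk M) =
          Cardinal.sum (fun ν : Set.Iio α => (2 : Cardinal.{0}) ^ Cardinal.aleph ν.1) →
        ∀ (ι : Type), Cardinal.mk ι = Cardinal.aleph α →
          ∀ c : Set M → ι, ∃ i : ι,
            ∀ (P : Type) [PartialOrder P], Cardinal.mk P = Cardinal.aleph α →
              ∃ f : P → Set M, (∀ x, c (f x) = i) ∧ ∀ x y : P, f x ≤ f y ↔ x ≤ y) := by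
  intro H
  obtain ⟨α, hα⟩ := mem_range_aleph_iff.2 kap_inf
  have hreg : ¬ (aleph α).IsRegular := by
    rw [hα]
    intro hr
    exact lt_irrefl _ (iSup_lt_of_isRegular hr G_lt bb_lt)
  have hsum : Cardinal.lift.{1} #MM =
      Cardinal.sum (fun ν : Set.Iio α => (2 : Cardinal.{0}) ^ Cardinal.aleph ν.1) := by
    rw [mk_MM]
    apply le_antisymm
    · by_contra hc
      obtain ⟨c, hc1, hc2⟩ := Cardinal.lt_lift_iff.1 (not_le.1 hc)
      obtain ⟨γ, hγ⟩ := lt_kap hc1
      obtain ⟨ν, hν⟩ := mem_range_aleph_iff.2 (bb_inf γ)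
      have hνα : ν < α := by
        rw [← aleph_lt_aleph, hν, hα]; exact bb_lt γ
      have h3 := lift_le_sum (fun ν : Set.Iio α => (2 : Cardinal.{0}) ^ Cardinal.aleph ν.1)
        ⟨ν, hνα⟩
      rw [← hc2, lift_le, hν] at h3
      exact absurd (hγ.trans (cantor _)) (not_lt.2 h3)
    · refine (sum_le_sum _ (fun _ => kap) fun ν => ?_).trans ?_
      · have : aleph ν.1 < kap := by rw [← hα]; exact aleph_lt_aleph.2 ν.2
        obtain ⟨γ, hγ⟩ := lt_kap this
        exact (power_le_power_left two_ne_zero hγ.le).trans (two_bb_le γ)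
      · rw [sum_const, Ordinal.mk_Iio_ordinal]
        have h1 : α.card ≤ kap := by
          rw [← hα]
          have := Ordinal.card_le_card (Ordinal.le_omega_self α)
          rwa [Ordinal.card_omega] at this
        rw [lift_lift, ← lift_mul, lift_le]
        exact (mul_le_mul' h1 le_rfl).trans (mul_eq_self kap_inf).le
  obtain ⟨ρ, hρ⟩ := exists_rho
  have hne : Nonempty MM := by
    rw [← mk_ne_zero_iff, mk_MM]; exact (aleph0_pos.trans_le kap_inf).ne'
  obtain ⟨m0, -, hm0⟩ := (wellFounded_lt (α := MM)).has_min univ univ_nonempty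
  obtain ⟨c, hc⟩ := core m0 (fun m => not_lt.1 (hm0 m (mem_univ _))) bb bb_mono bb_inf bb_nx bb_G
    (fun γ => by rw [mk_MM]; exact bb_lt γ) ρ hρ
  have hcol : #((ℕ → G) → Bool) ≤ #MM := by
    rw [← power_def, mk_bool, mk_MM]
    exact (power_le_power_left two_ne_zero (bb_G (Classical.arbitrary G))).trans (two_bb_le _)
  obtain ⟨e⟩ := (Cardinal.le_def _ _).1 hcol
  obtain ⟨i, hi⟩ := H α hreg MM hsum MM (by rw [mk_MM, hα]) (fun x => e (c x))
  obtain ⟨f, hf1, hf2⟩ := hi (PP MM) (by rw [mk_PP, hα])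
  obtain ⟨x, y, hxy⟩ := hc f hf2
  exact hxy (e.injective ((hf1 x).trans (hf1 y).symm))

end Pool.Agent.S15436
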