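import Pool.Statements.S15480
import Pool.Agent.H22.UShiftB

set_option autoImplicit false
open Pool Pool.MP_dd30de_lc

namespace Pool.Agent.S15480

open Pool.Agent.H22.UShift MeasureTheory Filter Topology
open scoped InnerProductSpace ENNReal

noncomputable abbrev e (j : ℕ) : H := lp.single 2 j (1 : ℂ)

theorem inner_e (j : ℕ) (v : H) : ⟪e j, v⟫_ℂ = v j := by
  rw [lp.inner_single_left]; simp

theorem exists_iso (β : ℕ ≃ ℤ × ℕ) :
    ∃ Φ : K ≃ₗᵢ[ℂ] H, ∀ t j, Φ (lp.single 2 t (e j)) = e (β.symm (t, j)) := by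
  let v : ℕ → K := fun m => lp.single 2 (β m).1 (e (β m).2)
  have hv : Orthonormal ℂ v := by
    rw [orthonormal_iff_ite]
    intro m n
    rw [lp.inner_single_left, inner_e]
    split_ifs with h
    · subst h; simp [v]
    · by_cases h1 : (β m).1 = (β n).1
      · have h2 : (β m).2 ≠ (β n).2 := fun h2 => h (β.injective (Prod.ext h1 h2))
        simp only [v, h1, lp.single_apply_self]
        exact lp.single_apply_ne _ _ _ h2
      · simp only [v]
        rw [lp.single_apply_ne _ _ _ h1]; rfl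
  have hs : (Submodule.span ℂ (Set.range v))ᗮ = ⊥ := by
    rw [eq_bot_iff]
    intro w hw
    refine lp.ext (funext fun t => lp.ext (funext fun j => ?_))
    have := (Submodule.mem_orthogonal _ _).1 hw _ (Submodule.subset_span ⟨β.symm (t, j), rfl⟩)
    simp only [v, Equiv.apply_symm_apply] at this
    rw [lp.inner_single_left, inner_e] at this
    exact this
  refine ⟨(HilbertBasis.mkOfOrthogonalEqBot hv hs).repr, fun t j => ?_⟩
  have := (HilbertBasis.mkOfOrthogonalEqBot hv hs).repr_self (β.symm (t, j))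
  rw [HilbertBasis.coe_mkOfOrthogonalEqBot] at this
  simpa only [v, Equiv.apply_symm_apply] using this

def walk (i : ℕ) : ℤ := (-1) ^ i.sqrt * ((i : ℤ) - i.sqrt * i.sqrt - i.sqrt)

theorem walk_step (i : ℕ) : (walk (i + 1) - walk i).natAbs ≤ 1 := by
  have h1 := Nat.sqrt_le i
  have h2 := Nat.lt_succ_sqrt i
  have hs : ∀ s : ℕ, ((-1 : ℤ) ^ s = 1) ∨ (-1 : ℤ) ^ s = -1 := fun s => neg_one_pow_eq_or ℤ s
  by_cases h : i + 1 < (i.sqrt + 1) * (i.sqrt + 1)
  · have : (i + 1).sqrt = i.sqrt := (Nat.eq_sqrt.2 ⟨by omega, h⟩).symm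
    unfold walk
    rw [this]
    rcases hs i.sqrt with e | e <;> rw [e] <;> push_cast <;> omega
  · have h3 : i + 1 = (i.sqrt + 1) * (i.sqrt + 1) := by
      simp only [Nat.succ_eq_add_one] at h2; omega
    have : (i + 1).sqrt = i.sqrt + 1 := by rw [h3, Nat.sqrt_eq]
    have h4 : (i : ℤ) = i.sqrt * i.sqrt + 2 * i.sqrt := by
      have : ((i + 1 : ℕ) : ℤ) = ((i.sqrt + 1) * (i.sqrt + 1) : ℕ) := by rw [← h3]
      push_cast at this; linarith
    unfold walk
    rw [this, pow_succ]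
    generalize i.sqrt = s at *
    have h5 : ((i + 1 : ℕ) : ℤ) - ((s + 1 : ℕ) : ℤ) * ((s + 1 : ℕ) : ℤ) - ((s + 1 : ℕ) : ℤ) =
        -(s + 1) := by push_cast; linarith
    have h6 : (i : ℤ) - s * s - s = s := by linarith
    rw [h5, h6]
    rcases hs s with e | e <;> rw [e] <;> omega

theorem walk_lip (i k : ℕ) : (walk (i + k) - walk i).natAbs ≤ k := by
  induction k with
  | zero => simp
  | succ k ih => have := walk_step (i + k); rw [← add_assoc]; omega

theorem walk_inf (t : ℤ) (N : ℕ) : ∃ i, N ≤ i ∧ walk i = t := by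
  let s := 2 * (N + t.natAbs)
  obtain ⟨r, hr⟩ : ∃ r : ℕ, (r : ℤ) = s + t := ⟨(s + t).toNat, by omega⟩
  have h : (s * s + r).sqrt = s := Nat.sqrt_add_eq s (by omega)
  refine ⟨s * s + r, ?_, ?_⟩
  · have : s ≤ s * s := Nat.le_mul_self s
    omega
  · unfold walk
    rw [h, Even.neg_one_pow ⟨N + t.natAbs, by omega⟩]
    push_cast; linarith

theorem exists_blk (ν : ℕ → ℕ → ℝ≥0∞) (h1 : ∀ q, ∑' p, ν p q ≤ 1) (h2 : ∀ p, ∑' q, ν p q ≤ 1) :
    ∃ blk : ℕ → ℕ, Function.Surjective blk ∧ ∑' p, ∑' q,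
      ((if blk q + 2 ≤ blk p then 16 ^ blk p else 0) +
        (if blk p + 2 ≤ blk q then 16 ^ blk q else 0)) * ν p q ≤ 1 / 2 := by
  have step : ∀ (M : ℕ) (ε : ℝ≥0∞), 0 < ε → ∃ N, M < N ∧
      ∑' p, ∑' q, (if q < M ∧ N ≤ p then ν p q + ν q p else 0) ≤ ε := by
    intro M ε hε
    have : Tendsto (fun N => ∑ q ∈ Finset.range M, ∑' p : {p // p ∉ Finset.range N},
        (ν p q + ν q p)) atTop (𝓝 (∑ q ∈ Finset.range M, 0)) := by
      refine tendsto_finset_sum _ fun q _ => ?_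
      refine (ENNReal.tendsto_tsum_compl_atTop_zero (f := fun p => ν p q + ν q p) ?_).comp
        tendsto_finset_range
      rw [ENNReal.tsum_add]
      exact ne_top_of_le_ne_top (by simp) (add_le_add (h1 q) (h2 q))
    rw [Finset.sum_const_zero] at this
    obtain ⟨N, a, b⟩ := ((eventually_gt_atTop M).and (this.eventually (ge_mem_nhds hε))).exists
    refine ⟨N, a, le_trans (le_of_eq ?_) b⟩
    rw [ENNReal.tsum_comm, tsum_eq_sum (s := Finset.range M) fun q hq => by
      simp [show ¬ q < M by simpa using hq]]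
    refine Finset.sum_congr rfl fun q hq => ?_
    rw [show ∑' p : {p // p ∉ Finset.range N}, (ν p q + ν q p) = _ from
      tsum_subtype {p | p ∉ Finset.range N} fun p => ν p q + ν q p]
    refine tsum_congr fun p => ?_
    simp [Set.indicator, Finset.mem_range.1 hq]
  choose nx n1 n2 using fun (M i : ℕ) => step M ((16 ^ (i + 1))⁻¹ * (2⁻¹ ^ i / 4))
    (ENNReal.mul_pos (by simp) (by simp))
  let N : ℕ → ℕ := fun i => Nat.rec (motive := fun _ => ℕ) 0 (fun i M => nx M i) i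
  have hN : StrictMono N := strictMono_nat_of_lt_succ fun i => n1 _ i
  have ex : ∀ p, ∃ i, p < N (i + 1) := fun p => ⟨p, hN.id_le (p + 1)⟩
  let blk : ℕ → ℕ := fun p => Nat.find (ex p)
  have b1 : ∀ p, p < N (blk p + 1) := fun p => Nat.find_spec (ex p)
  have b2 : ∀ p i, i + 1 ≤ blk p → N (i + 1) ≤ p := fun p i h => not_lt.1 (Nat.find_min (ex p) h)
  refine ⟨blk, fun i => ⟨N i, ?_⟩, ?_⟩
  · have : i < blk (N i) + 1 := hN.lt_iff_lt.1 (b1 (N i))
    have h3 : blk (N i) ≤ i := by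
      by_contra h
      exact absurd (b2 (N i) i (by omega)) (not_le.2 (hN (Nat.lt_succ_self i)))
    omega
  have e1 : ∑' p, ∑' q, ((if blk q + 2 ≤ blk p then (16 : ℝ≥0∞) ^ blk p else 0) +
      (if blk p + 2 ≤ blk q then 16 ^ blk q else 0)) * ν p q =
      ∑' p, ∑' q, (if blk q + 2 ≤ blk p then (16 : ℝ≥0∞) ^ blk p else 0) * (ν p q + ν q p) := by
    simp only [add_mul, mul_add, ENNReal.tsum_add]
    congr 1
    exact ENNReal.tsum_comm
  rw [e1]
  calc _ ≤ ∑' p : ℕ, ∑' q : ℕ, ∑' i : ℕ, 16 ^ (i + 1) *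
        (if q < N i ∧ N (i + 1) ≤ p then ν p q + ν q p else 0) := by
        refine ENNReal.tsum_le_tsum fun p => ENNReal.tsum_le_tsum fun q => ?_
        split_ifs with h
        · refine le_trans (le_of_eq ?_) (ENNReal.le_tsum (blk p - 1))
          rw [if_pos ⟨(b1 q).trans_le (hN.monotone (show blk q + 1 ≤ blk p - 1 by omega)), b2 p _ (by omega)⟩,
            show blk p - 1 + 1 = blk p by omega]
        · simp
    _ = ∑' i : ℕ, 16 ^ (i + 1) * ∑' p : ℕ, ∑' q : ℕ,
        (if q < N i ∧ N (i + 1) ≤ p then ν p q + ν q p else 0) := by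
        simp only [← ENNReal.tsum_mul_left]
        exact (tsum_congr fun p => ENNReal.tsum_comm).trans ENNReal.tsum_comm
    _ ≤ ∑' i : ℕ, 2⁻¹ ^ i / 4 := by
        refine ENNReal.tsum_le_tsum fun i => ?_
        refine (mul_le_mul_right (n2 (N i) i) _).trans (le_of_eq ?_)
        rw [← mul_assoc, ENNReal.mul_inv_cancel (by simp) (by simp), one_mul]
    _ = 1 / 2 := by
        simp only [div_eq_mul_inv, ENNReal.tsum_mul_right, ENNReal.tsum_geometric,
          ENNReal.one_sub_inv_two, inv_inv, one_mul]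
        rw [show (4 : ℝ≥0∞) = 2 * 2 by norm_num, ENNReal.mul_inv (by simp) (by simp), ← mul_assoc,
          ENNReal.mul_inv_cancel (by simp) (by simp), one_mul]

theorem tsum_unit (v : H) (hv : ‖v‖ = 1) : ∑' p, ENNReal.ofReal (‖v p‖ ^ 2) ≤ 1 := by
  rw [← ENNReal.ofReal_tsum_of_nonneg (fun _ => by positivity) (hasSum_sq v).summable,
    (hasSum_sq v).tsum_eq, hv]
  simp

theorem norm_e (j : ℕ) : ‖e j‖ = 1 := by rw [lp.norm_single (by norm_num)]; simp

theorem entry (x : H ≃ₗᵢ[ℂ] H) (p q : ℕ) : ‖x (e q) p‖ = ‖x.symm (e p) q‖ := by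
  rw [← inner_e, ← inner_e, ← x.inner_map_map (e q), x.apply_symm_apply, norm_inner_symm]

theorem block (β : ℕ ≃ ℤ × ℕ) (Φ : K ≃ₗᵢ[ℂ] H)
    (hΦ : ∀ t j, Φ (lp.single 2 t (e j)) = e (β.symm (t, j))) (x : H ≃ₗᵢ[ℂ] H)
    (c : ℕ → ℕ → ℝ≥0∞)
    (hc : ∀ p q, 2 ≤ ((β p).1 - (β q).1).natAbs → 16 ^ ((β p).1 - (β q).1).natAbs ≤ c p q)
    (hx : ∑' p, ∑' q, c p q * ENNReal.ofReal (‖x (e q) p‖ ^ 2) ≤ 1) (t t' : ℤ) (v : H) :
    ‖(Φ.trans (x.trans Φ.symm)) (lp.single 2 t v) t'‖ ≤ 4 * (1 / 4) ^ (t' - t).natAbs * ‖v‖ := by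
  set y := Φ.trans (x.trans Φ.symm)
  by_cases hd : (t' - t).natAbs ≤ 1
  · refine (lp.norm_apply_le_norm (by norm_num) _ _).trans ?_
    rw [y.norm_map, lp.norm_single (by norm_num)]
    refine le_mul_of_one_le_left (norm_nonneg _) ?_
    have := pow_le_pow_of_le_one (by norm_num : (0 : ℝ) ≤ 1 / 4) (by norm_num) hd
    linarith
  let w : ℕ → H := fun j' => y.symm (lp.single 2 t' (e j')) t
  have hw : ∀ j' j, ‖w j' j‖ = ‖x (e (β.symm (t, j))) (β.symm (t', j'))‖ := fun j' j => by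
    rw [← inner_e, ← lp.inner_single_left (𝕜 := ℂ) (G := fun _ : ℤ => H) t (e j),
      ← y.inner_map_map, y.apply_symm_apply, ← Φ.inner_map_map, hΦ, ← inner_e, norm_inner_symm]
    simp [y, hΦ]
  have hu : ∀ j', ‖y (lp.single 2 t v) t' j'‖ ≤ ‖w j'‖ * ‖v‖ := fun j' => by
    rw [← inner_e, ← lp.inner_single_left (𝕜 := ℂ) (G := fun _ : ℤ => H) t' (e j'),
      ← y.symm.inner_map_map, y.symm_apply_apply, lp.inner_single_right]
    exact norm_inner_le_norm _ _
  have hF : ∀ F : Finset ℕ, ∑ j' ∈ F, ‖w j'‖ ^ 2 ≤ ((1 / 4) ^ (t' - t).natAbs) ^ 2 := by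
    intro F
    refine hasSum_le_of_sum_le (hasSum_sum fun j' _ => hasSum_sq (w j')) fun G => ?_
    rw [Finset.sum_comm]
    have h1 : ∑ j' ∈ F, ∑ j ∈ G, 16 ^ (t' - t).natAbs * ENNReal.ofReal (‖w j' j‖ ^ 2) ≤ 1 := by
      refine le_trans ?_ hx
      refine le_trans ?_ (ENNReal.tsum_comp_le_tsum_of_injective
        (f := fun j' => β.symm (t', j')) (fun _ _ h => by simpa using h) _)
      refine le_trans (Finset.sum_le_sum fun j' _ => ?_) (ENNReal.sum_le_tsum F)
      refine le_trans ?_ (ENNReal.tsum_comp_le_tsum_of_injective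
        (f := fun j => β.symm (t, j)) (fun _ _ h => by simpa using h) _)
      refine le_trans (Finset.sum_le_sum fun j _ => ?_) (ENNReal.sum_le_tsum G)
      rw [hw]
      refine mul_le_mul_left ?_ _
      simpa using hc (β.symm (t', j')) (β.symm (t, j)) (by simp only [Equiv.apply_symm_apply]; omega)
    simp only [← Finset.mul_sum] at h1
    rw [Finset.sum_congr rfl fun j' _ => (ENNReal.ofReal_sum_of_nonneg fun _ _ => by positivity).symm,
      ← ENNReal.ofReal_sum_of_nonneg fun _ _ => by positivity,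
      show (16 : ℝ≥0∞) = ENNReal.ofReal 16 by simp, ← ENNReal.ofReal_pow (by norm_num),
      ← ENNReal.ofReal_mul (by positivity), ENNReal.ofReal_le_one] at h1
    rw [← pow_mul, mul_comm, pow_mul, show ((1 : ℝ) / 4) ^ 2 = 16⁻¹ by norm_num, inv_pow,
      ← one_div, le_div_iff₀' (by positivity)]
    exact h1
  refine (norm_le_of (C := (1 / 4) ^ (t' - t).natAbs * ‖v‖) (by positivity) fun F => ?_).trans ?_
  · rw [mul_pow]
    refine le_trans ?_ (mul_le_mul_of_nonneg_right (hF F) (by positivity))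
    rw [Finset.sum_mul]
    refine Finset.sum_le_sum fun j' _ => ?_
    rw [← mul_pow]
    exact pow_le_pow_left₀ (norm_nonneg _) (hu j') 2
  · have : (0 : ℝ) ≤ (1 / 4) ^ (t' - t).natAbs * ‖v‖ := by positivity
    linarith

theorem exists_beta {ht : ℕ → ℤ} (h : ∀ t, {m | ht m = t}.Infinite) :
    ∃ β : ℕ ≃ ℤ × ℕ, ∀ m, (β m).1 = ht m := by
  have : ∀ t, Nonempty ({m // ht m = t} ≃ ℕ) := fun t => by
    have : Infinite {m // ht m = t} := (h t).to_subtype
    exact nonempty_equiv_of_countable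
  exact ⟨(Equiv.sigmaFiberEquiv ht).symm.trans ((Equiv.sigmaCongrRight fun t =>
    (this t).some).trans (Equiv.sigmaEquivProd ℤ ℕ)), fun m => rfl⟩


/-- The negation of the preceding statement: Every conjugacy class in the unitary group of ℓ² (strong operator Borel structure) lies in a Borel set B with a probability measure μ such that μ{x : g·x·h ∈ B} = 0 for all unitaries g, h, i.e. every conjugacy class is Haar null. -/
theorem result :
    ¬ (∀ M : MeasurableSpace (unitary (lp (fun _ : ℕ => ℂ) 2 →L[ℂ] lp (fun _ : ℕ => ℂ) 2)),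
      M = MeasurableSpace.comap
        (fun U : unitary (lp (fun _ : ℕ => ℂ) 2 →L[ℂ] lp (fun _ : ℕ => ℂ) 2) =>
          fun n : ℕ => U.1 (lp.single 2 n (1 : ℂ)))
        (@MeasurableSpace.pi ℕ (fun _ => lp (fun _ : ℕ => ℂ) 2)
          (fun _ => borel (lp (fun _ : ℕ => ℂ) 2))) →
      ∀ a : unitary (lp (fun _ : ℕ => ℂ) 2 →L[ℂ] lp (fun _ : ℕ => ℂ) 2),
        ∃ B : Set (unitary (lp (fun _ : ℕ => ℂ) 2 →L[ℂ] lp (fun _ : ℕ => ℂ) 2)),
          @MeasurableSet _ M B ∧ {x | IsConj a x} ⊆ B ∧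
          ∃ μ : @MeasureTheory.Measure
              (unitary (lp (fun _ : ℕ => ℂ) 2 →L[ℂ] lp (fun _ : ℕ => ℂ) 2)) M,
            @MeasureTheory.IsProbabilityMeasure
              (unitary (lp (fun _ : ℕ => ℂ) 2 →L[ℂ] lp (fun _ : ℕ => ℂ) 2)) M μ ∧
            ∀ g h : unitary (lp (fun _ : ℕ => ℂ) 2 →L[ℂ] lp (fun _ : ℕ => ℂ) 2),
              μ {x | g * x * h ∈ B} = 0) := by
  intro hall
  obtain ⟨β₀⟩ : Nonempty (ℕ ≃ ℤ × ℕ) := nonempty_equiv_of_countable
  obtain ⟨Φ₀, -⟩ := exists_iso β₀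
  let L := Unitary.linearIsometryEquiv (𝕜 := ℂ) (H := H)
  obtain ⟨B, -, hB, μ, hμ, h0⟩ := hall _ rfl (L.symm (Φ₀.symm.trans ((sh 1).trans Φ₀)))
  letI : MeasurableSpace H := borel H
  haveI : BorelSpace H := ⟨rfl⟩
  letI : MeasurableSpace (unitary (H →L[ℂ] H)) := MeasurableSpace.comap
    (fun U : unitary (H →L[ℂ] H) => fun n : ℕ => U.1 (e n)) MeasurableSpace.pi
  have hm : ∀ p q, Measurable fun x : unitary (H →L[ℂ] H) => ENNReal.ofReal (‖L x (e q) p‖ ^ 2) := by
    intro p q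
    have h1 : Measurable fun x : unitary (H →L[ℂ] H) => x.1 (e q) :=
      (measurable_pi_apply q).comp
        (comap_measurable fun U : unitary (H →L[ℂ] H) => fun n : ℕ => U.1 (e n))
    have h2 := (lp.evalCLM ℂ (fun _ : ℕ => ℂ) 2 p).continuous.measurable.comp h1
    exact (h2.norm.pow_const 2).ennreal_ofReal
  obtain ⟨blk, hs, hb⟩ := exists_blk (fun p q => ∫⁻ x, ENNReal.ofReal (‖L x (e q) p‖ ^ 2) ∂μ)
    (fun q => by
      rw [← lintegral_tsum fun p => (hm p q).aemeasurable]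
      refine (lintegral_mono fun x => tsum_unit _ (by rw [(L x).norm_map, norm_e])).trans (by simp))
    (fun p => by
      rw [← lintegral_tsum fun q => (hm p q).aemeasurable]
      refine (lintegral_mono (g := fun _ => 1) fun x => ?_).trans (by simp)
      simp only [entry (L x) p]
      exact tsum_unit _ (by rw [(L x).symm.norm_map, norm_e]))
  obtain ⟨β, hβ⟩ := exists_beta (ht := fun m => walk (blk m)) fun t hf => by
    obtain ⟨N, hN⟩ := (hf.image blk).bddAbove
    obtain ⟨i, h1, h2⟩ := walk_inf t (N + 1)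
    obtain ⟨m, rfl⟩ := hs i
    have := hN ⟨m, h2, rfl⟩
    omega
  obtain ⟨Φ, hΦ⟩ := exists_iso β
  let c : ℕ → ℕ → ℝ≥0∞ := fun p q => (if blk q + 2 ≤ blk p then 16 ^ blk p else 0) +
    (if blk p + 2 ≤ blk q then 16 ^ blk q else 0)
  have hc : ∀ p q, 2 ≤ ((β p).1 - (β q).1).natAbs → 16 ^ ((β p).1 - (β q).1).natAbs ≤ c p q := by
    intro p q h
    rw [hβ, hβ] at *
    rcases le_total (blk p) (blk q) with h1 | h1
    · obtain ⟨k, hk⟩ := Nat.exists_eq_add_of_le h1
      have := walk_lip (blk p) k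
      rw [← hk] at this
      refine le_trans ?_ le_add_self
      rw [if_pos (by omega)]
      exact pow_le_pow_right₀ (by norm_num) (by omega)
    · obtain ⟨k, hk⟩ := Nat.exists_eq_add_of_le h1
      have := walk_lip (blk q) k
      rw [← hk] at this
      refine le_trans ?_ le_self_add
      rw [if_pos (by omega)]
      exact pow_le_pow_right₀ (by norm_num) (by omega)
  have hz := h0 1 (L.symm (Φ.symm.trans ((sh 6).trans Φ)))
  have hae : ∀ᵐ x ∂μ, 1 ≤ ∑' p, ∑' q, c p q * ENNReal.ofReal (‖L x (e q) p‖ ^ 2) := by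
    refine measure_mono_null (fun x hx => ?_) hz
    refine hB (a := 1 * x * L.symm (Φ.symm.trans ((sh 6).trans Φ))) ?_
    obtain ⟨W, hW⟩ := equiv_shift Φ (block β Φ hΦ (L x) c hc (le_of_not_ge hx))
    refine isConj_iff.2 ⟨L.symm (Φ₀.symm.trans (W.symm.trans Φ)),
      mul_inv_eq_iff_eq_mul.2 (L.injective ?_)⟩
    simp only [map_mul, one_mul, MulEquiv.apply_symm_apply]
    ext1 v
    have := hW (W.symm (Φ₀.symm v))
    rw [W.apply_symm_apply, eq_comm, ← LinearIsometryEquiv.symm_apply_eq] at this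
    simp [this]
  have h1 := lintegral_mono_ae hae
  rw [lintegral_tsum fun p => (Measurable.ennreal_tsum fun q => (hm p q).const_mul _).aemeasurable]
    at h1
  simp only [lintegral_tsum fun q => ((hm _ q).const_mul _).aemeasurable,
    lintegral_const_mul _ (hm _ _)] at h1
  have h2 := h1.trans hb
  simp at h2

end Pool.Agent.S15480
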