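import Pool.Statements.S15504
import Pool.Agent.H14.SelfIdeal

set_option autoImplicit false
open Pool Pool.MP_e1e357_lc

namespace Pool.Agent.S15504

open Pool.Agent.H14.SelfIdeal in
theorem result :
    ¬ (∀ I : Set (Set ℕ),
      (∀ A B : Set ℕ, A ∈ I → B ⊆ A → B ∈ I) →
      (∀ A B : Set ℕ, A ∈ I → B ∈ I → A ∪ B ∈ I) →
      (∀ A : Set ℕ, A.Finite → A ∈ I) →
      (Set.univ : Set ℕ) ∉ I →
      ∀ x : ℕ → (ℕ → Bool),
        {ℓ : ℕ → Bool | ∃ A : Set ℕ, A ∉ I ∧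
            Filter.Tendsto x (Filter.atTop ⊓ Filter.principal A) (nhds ℓ)}
          ≠ {f : ℕ → Bool | {n : ℕ | f n = true} ∈ I}) := by
  intro h

  refine h {B | I B} ?_ ?_ ?_ ?_ x ?_
  · intro A B hA hB
    obtain ⟨h1, h2⟩ := (I_iff A).1 hA
    exact (I_iff B).2 ⟨Z_mono hB h1, fun l hl =>
      (h2 l hl).subset (Set.inter_subset_inter_left _ hB)⟩
  · intro A B hA hB
    obtain ⟨h1, h2⟩ := (I_iff A).1 hA
    obtain ⟨h3, h4⟩ := (I_iff B).1 hB
    refine (I_iff _).2 ⟨Z_union h1 h3, fun l hl => ?_⟩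
    rw [Set.union_inter_distrib_right]
    exact (h2 l hl).union (h4 l hl)
  · intro A hA
    exact (I_iff A).2 ⟨Z_fin hA, fun l _ => hA.inter_of_left _⟩
  · intro hu
    exact not_Z_Cyl ∅ 0 (Z_mono (Set.subset_univ _) ((I_iff _).1 hu).1)
  · ext f
    simp only [Set.mem_ofPred_eq, tendsto_iff]
    exact main _

end Pool.Agent.S15504
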