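import Pool.Statements.S15510
import Pool.Agent.H32.BrTree

set_option autoImplicit false
open Pool Pool.MP_e29ee7_lc

namespace Pool.Agent.S15510

/-- The negation of the preceding statement: Let T be a tree that is a countable union of chains. Order its maximal chains by order-embeddability. Then every maximal linearly ordered family of such chains has a countable cofinal subfamily: every member embeds into one of countably many members. -/
theorem result :
    ¬ (∀ (T : Type) [PartialOrder T],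
      (∀ x : T, IsChain (· ≤ ·) {y : T | y < x}) →
      (∃ f : ℕ → Set T, (∀ n, IsChain (· ≤ ·) (f n)) ∧ (⋃ n, f n) = Set.univ) →
      ∀ S : Set (Set T),
        (∀ c ∈ S, IsMaxChain (· ≤ ·) c) →
        IsChain (fun c d : Set T => Nonempty (↥c ↪o ↥d)) S →
        (∀ U : Set (Set T), (∀ c ∈ U, IsMaxChain (· ≤ ·) c) →
            IsChain (fun c d : Set T => Nonempty (↥c ↪o ↥d)) U → S ⊆ U → U = S) →
        ∃ D : Set (Set T), D ⊆ S ∧ D.Countable ∧
          ∀ c ∈ S, ∃ d ∈ D, Nonempty (↥c ↪o ↥d)) := by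
  intro H
  obtain ⟨A, hA0, hA⟩ := Pool.Agent.H32.FreeSet.exists_family
  open Pool.Agent.H32.BrTree in
  obtain ⟨M, hM⟩ := zorn_subset {U : Set (Set (T A)) | (∀ c ∈ U, IsMaxChain (· ≤ ·) c) ∧
      IsChain (fun c d : Set (T A) => Nonempty (↥c ↪o ↥d)) U} (by
    intro c hc hch
    refine ⟨⋃₀ c, ⟨?_, ?_⟩, fun s hs => Set.subset_sUnion_of_mem hs⟩
    · rintro d ⟨U, hU, hd⟩
      exact (hc hU).1 d hd
    · rintro d ⟨U, hU, hd⟩ d' ⟨U', hU', hd'⟩ hne
      rcases hch.total hU hU' with h | h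
      · exact (hc hU').2 (h hd) hd' hne
      · exact (hc hU).2 hd (h hd') hne)
  open Pool.Agent.H32.BrTree in
  obtain ⟨D, hD1, hD2, hD3⟩ := H (T A) tree cover M hM.prop.1 hM.prop.2
    (fun U h1 h2 h3 => (hM.eq_of_subset ⟨h1, h2⟩ h3).symm)
  open Pool.Agent.H32.BrTree in
  have key : ∀ g, (∀ c ∈ M, Nonempty (↥c ↪o ↥(B A g))) → B A g ∈ M := by
    intro g hg
    have : M = insert (B A g) M := by
      refine hM.eq_of_subset ⟨?_, ?_⟩ (Set.subset_insert _ _)
      · rintro c (rfl | hc)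
        · exact max_B hA0 g
        · exact hM.prop.1 c hc
      · exact hM.prop.2.insert fun c hc _ => Or.inr (hg c hc)
    rw [this]
    exact Set.mem_insert _ _
  open Pool.Agent.H32.BrTree in
  rcases D.eq_empty_or_nonempty with rfl | hne
  · have := key 0 fun c hc => by simpa using hD3 c hc
    simpa using hD3 _ this
  open Pool.Agent.H32.BrTree in
  · obtain ⟨d, rfl⟩ := hD2.exists_eq_range hne
    have hd : ∀ i, d i ∈ M := fun i => hD1 ⟨i, rfl⟩
    choose gd hgd using fun i => eq_B (hM.prop.1 _ (hd i))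
    obtain ⟨g, hg⟩ := exists_ub (fun i => X (gd i)) (fun i => X_compl_infinite _) (fun i j => by
      rw [← emb_iff hA, ← emb_iff hA, ← hgd, ← hgd]
      by_cases hij : d i = d j
      · rw [hij]
        exact Or.inl ⟨RelEmbedding.refl _⟩
      · exact hM.prop.2 (hd i) (hd j) hij)
    obtain ⟨g', h1, h2⟩ := Pool.Agent.H32.BrTree.exists_gt g
    have h3 : B A g' ∈ M := key g' fun c hc => by
      obtain ⟨_, ⟨i, rfl⟩, ⟨f⟩⟩ := hD3 c hc
      have : Nonempty (↥(d i) ↪o ↥(B A g')) := by
        rw [hgd, emb_iff hA]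
        exact (hg i).subset (Set.sdiff_subset_sdiff_right h1)
      exact ⟨f.trans this.some⟩
    obtain ⟨_, ⟨i, rfl⟩, h4⟩ := hD3 _ h3
    rw [hgd, emb_iff hA] at h4
    refine h2 ((h4.union (hg i)).subset fun n hn => ?_)
    by_cases hni : n ∈ X (gd i)
    · exact Or.inr ⟨hni, hn.2⟩
    · exact Or.inl ⟨hn.1, hni⟩

end Pool.Agent.S15510
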