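import Pool.Statements.S15538

set_option autoImplicit false
open FirstOrder FirstOrder.Language
open Pool Pool.MP_e6168a_lc

namespace Pool.Agent.S15538

open Finset

/-! ### Counting -/

abbrev E := Fin 12 → Prop
abbrev W := Fin 6 → Prop

noncomputable instance : Fintype E := Fintype.ofFinite _
noncomputable instance : Fintype W := Fintype.ofFinite _
noncomputable instance : DecidableEq E := Classical.decEq _

lemma cardE : Fintype.card E = 4096 := by
  rw [← Nat.card_eq_fintype_card, Nat.card_fun]; simp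
lemma cardW : Fintype.card W = 64 := by
  rw [← Nat.card_eq_fintype_card, Nat.card_fun]; simp

variable {n : ℕ}

noncomputable def Row (S : Finset (Fin n)) : Finset (Fin n → E) :=
  Fintype.piFinset fun y => if y ∈ S then {⊥} else univ

lemma mem_Row {S : Finset (Fin n)} {v : Fin n → E} : v ∈ Row S ↔ ∀ y ∈ S, v y = ⊥ := by
  rw [Row, Fintype.mem_piFinset]
  refine forall_congr' fun y => ?_
  by_cases h : y ∈ S <;> simp [h]

lemma card_Row (S : Finset (Fin n)) : (Row S).card = 4096 ^ (n - S.card) := by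
  rw [Row, Fintype.card_piFinset]
  have : ∀ y, (if y ∈ S then ({⊥} : Finset E) else univ).card = if y ∈ Sᶜ then 4096 else 1 := by
    intro y
    by_cases h : y ∈ S <;> simp [h, cardE]
  simp only [this]
  rw [prod_ite_mem, univ_inter, prod_const, card_compl, Fintype.card_fin]

noncomputable def Fib (S : Finset (Fin n)) : Finset (Fin n → Fin n → E) :=
  Fintype.piFinset fun x => if x ∈ S then (Row S).erase ⊥ else {⊥}

lemma card_Fib (S : Finset (Fin n)) : (Fib S).card = (4096 ^ (n - S.card) - 1) ^ S.card := by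
  rw [Fib, Fintype.card_piFinset]
  have : ∀ x, (if x ∈ S then (Row S).erase ⊥ else {⊥}).card =
      if x ∈ S then 4096 ^ (n - S.card) - 1 else 1 := by
    intro y
    split_ifs
    · rw [card_erase_of_mem (a := ⊥) (mem_Row.2 fun _ _ => rfl), card_Row]
    · simp
  simp only [this]
  rw [prod_ite_mem, univ_inter, prod_const]

def PF (R : Fin n → Fin n → E) : Prop := ∀ x y z, R x y = ⊥ ∨ R y z = ⊥

noncomputable def src (R : Fin n → Fin n → E) : Finset (Fin n) := univ.filter fun x => R x ≠ ⊥

lemma mem_src {R : Fin n → Fin n → E} {y : Fin n} {p : Prop} :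
    (y ∈ src R → p) ↔ ∀ z, p ∨ R y z = ⊥ := by
  simp only [src, mem_filter, mem_univ, true_and]
  constructor
  · intro h z
    by_contra hc
    rw [not_or] at hc
    exact hc.1 (h fun e => hc.2 (by rw [e]; rfl))
  · intro h hy
    by_contra hp
    exact hy (funext fun z => (h z).resolve_left hp)

lemma mem_Fib {S : Finset (Fin n)} {R : Fin n → Fin n → E} : R ∈ Fib S ↔ PF R ∧ src R = S := by
  rw [Fib, Fintype.mem_piFinset]
  constructor
  · intro h
    have e : src R = S := by
      ext x
      have := h x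
      by_cases hx : x ∈ S
      · rw [if_pos hx, mem_erase] at this
        simp [src, hx, this.1]
      · rw [if_neg hx, mem_singleton] at this
        simp [src, hx, this]
    refine ⟨fun x y => mem_src.1 fun hy => ?_, e⟩
    have := h x
    by_cases hx : x ∈ S
    · rw [if_pos hx, mem_erase, mem_Row] at this
      exact this.2 y (e ▸ hy)
    · rw [if_neg hx, mem_singleton] at this
      rw [this]; rfl
  · rintro ⟨h, rfl⟩ x
    split_ifs with hx
    · exact mem_erase.2 ⟨(mem_filter.1 hx).2, mem_Row.2 fun y => mem_src.2 (h x y)⟩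
    · simpa [src] using hx

open Classical in
noncomputable def PA (n : ℕ) : Finset (Fin n → Fin n → E) := univ.filter PF

open Classical in
noncomputable def PB (n : ℕ) : Finset ((Fin n → Fin n → E) × (Fin n → E)) :=
  univ.filter fun p => PF p.1 ∧ ∀ y z, p.2 y = ⊥ ∨ p.1 y z = ⊥

lemma card_PA : (PA n).card = ∑ k ∈ range (n + 1), n.choose k * (4096 ^ (n - k) - 1) ^ k := by
  rw [card_eq_sum_card_fiberwise (f := src) (t := univ.powerset) (fun _ _ => by simp)]
  have := sum_powerset_apply_card (fun k => (4096 ^ (n - k) - 1) ^ k) (x := (univ : Finset (Fin n)))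
  simp only [card_univ, Fintype.card_fin, smul_eq_mul] at this
  rw [← this]
  refine sum_congr rfl fun S _ => ?_
  rw [← card_Fib]
  congr 1
  ext R
  simp [PA, mem_Fib]

lemma card_PB : (PB n).card =
    ∑ k ∈ range (n + 1), n.choose k * ((4096 ^ (n - k) - 1) ^ k * 4096 ^ (n - k)) := by
  rw [card_eq_sum_card_fiberwise (f := fun p => src p.1) (t := univ.powerset) (fun _ _ => by simp)]
  have := sum_powerset_apply_card (fun k => (4096 ^ (n - k) - 1) ^ k * 4096 ^ (n - k))
    (x := (univ : Finset (Fin n)))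
  simp only [card_univ, Fintype.card_fin, smul_eq_mul] at this
  rw [← this]
  refine sum_congr rfl fun S _ => ?_
  rw [← card_Fib, ← card_Row, ← card_product]
  congr 1
  ext ⟨R, V⟩
  simp only [PB, mem_filter, mem_univ, true_and, mem_product, mem_Fib, mem_Row]
  constructor
  · rintro ⟨⟨h1, h2⟩, rfl⟩
    exact ⟨⟨h1, rfl⟩, fun y => mem_src.2 (h2 y)⟩
  · rintro ⟨⟨h1, rfl⟩, h2⟩
    exact ⟨⟨h1, fun y => mem_src.1 (h2 y)⟩, rfl⟩

lemma theta (m : ℕ) :
    ∑ k ∈ range (2 * m + 2), 4096 ^ (k * (2 * m + 1 - k)) + 1 ≤ 3 * 4096 ^ (m * (m + 1)) := by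
  induction m with
  | zero => simp [sum_range_succ]
  | succ m ih =>
    rw [show 2 * (m + 1) + 2 = 2 * m + 2 + 1 + 1 by ring, sum_range_succ, sum_range_succ']
    have e : ∑ k ∈ range (2 * m + 2), 4096 ^ ((k + 1) * (2 * (m + 1) + 1 - (k + 1))) =
        4096 ^ (2 * m + 2) * ∑ k ∈ range (2 * m + 2), 4096 ^ (k * (2 * m + 1 - k)) := by
      rw [mul_sum]
      refine sum_congr rfl fun k hk => ?_
      rw [← pow_add]
      congr 1
      obtain ⟨j, hj⟩ : ∃ j, 2 * m + 1 = k + j := ⟨2 * m + 1 - k, by have := mem_range.1 hk; omega⟩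
      rw [show 2 * (m + 1) + 1 - (k + 1) = j + 1 by omega, show 2 * m + 1 - k = j by omega,
        show 2 * m + 2 = k + j + 1 by omega]
      ring
    rw [e, show 2 * (m + 1) + 1 - (2 * m + 2 + 1) = 0 by omega,
      show (m + 1) * (m + 1 + 1) = 2 * m + 2 + m * (m + 1) by ring, pow_add 4096 (2 * m + 2)]
    have h3 : 3 ≤ 4096 ^ (2 * m + 2) :=
      le_trans (by norm_num) (Nat.pow_le_pow_right (by norm_num) (Nat.le_add_left 2 _))
    have := Nat.mul_le_mul_left (4096 ^ (2 * m + 2)) ih
    simp only [mul_zero, zero_mul, pow_zero]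
    nlinarith

lemma bern (m j : ℕ) (h : m ≤ j) : (4096 ^ j) ^ m ≤ 2 * (4096 ^ j - 1) ^ m := by
  have h1 : 2 * m ≤ 4096 ^ j := by
    calc 2 * m ≤ 2 ^ (2 * m) := Nat.lt_two_pow_self.le
      _ = 4 ^ m := by rw [pow_mul]; norm_num
      _ ≤ 4096 ^ m := Nat.pow_le_pow_left (by norm_num) _
      _ ≤ 4096 ^ j := Nat.pow_le_pow_right (by norm_num) h
  have h0 : 1 ≤ 4096 ^ j := Nat.one_le_pow _ _ (by norm_num)
  generalize 4096 ^ j = Q at h0 h1
  have hQ : (1 : ℝ) ≤ Q := by exact_mod_cast h0
  have h2 : (2 : ℝ) * m ≤ Q := by exact_mod_cast h1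
  have h3 := one_add_mul_le_pow (a := -(1 / Q : ℝ)) (by
    have : 1 / (Q : ℝ) ≤ 1 := by rw [div_le_one (by linarith)]; exact hQ
    linarith) m
  have h4 : (1 / 2 : ℝ) ≤ 1 + m * -(1 / Q : ℝ) := by
    have : (m : ℝ) / Q ≤ 1 / 2 := by rw [div_le_iff₀ (by linarith)]; linarith
    rw [mul_neg, mul_one_div]; linarith
  have h5 : ((Q : ℝ) - 1) ^ m = Q ^ m * (1 + -(1 / Q : ℝ)) ^ m := by
    rw [← mul_pow]; congr 1; field_simp; ring
  have : (Q : ℝ) ^ m ≤ 2 * ((Q : ℝ) - 1) ^ m := by
    rw [h5]
    have : (0 : ℝ) ≤ Q ^ m := by positivity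
    nlinarith
  rw [← Nat.cast_one (R := ℝ), ← Nat.cast_sub h0] at this
  exact_mod_cast this

lemma even_case (m : ℕ) : (PB (2 * m)).card ≤ 6 * ((PA (2 * m)).card * 64 ^ (2 * m)) := by
  have h1 : (PB (2 * m)).card ≤ (2 * m).choose m * (3 * 4096 ^ (m * (m + 1))) := by
    have := theta m
    rw [sum_range_succ'] at this
    rw [card_PB]
    refine le_trans (sum_le_sum (g := fun k => (2 * m).choose m *
      4096 ^ ((k + 1) * (2 * m + 1 - (k + 1)))) fun k _ => ?_) ?_
    · refine Nat.mul_le_mul (by simpa using Nat.choose_le_middle k (2 * m)) ?_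
      rw [show 2 * m + 1 - (k + 1) = 2 * m - k by omega, mul_comm (k + 1), pow_mul, pow_succ]
      exact Nat.mul_le_mul_right _ (Nat.pow_le_pow_left (Nat.sub_le _ _) _)
    · rw [← mul_sum]
      exact Nat.mul_le_mul_left _ (le_trans (by rw [add_assoc]; exact Nat.le_add_right _ _) this)
  have h2 : (2 * m).choose m * (4096 ^ m - 1) ^ m ≤ (PA (2 * m)).card := by
    rw [card_PA]
    have := single_le_sum (f := fun k => (2 * m).choose k * (4096 ^ (2 * m - k) - 1) ^ k)
      (fun _ _ => Nat.zero_le _) (mem_range.2 (show m < 2 * m + 1 by omega))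
    rwa [show 2 * m - m = m by omega] at this
  have h3 := bern m m le_rfl
  rw [pow_mul 64, show 64 ^ 2 = 4096 by norm_num]
  rw [pow_mul, pow_succ] at h1
  calc _ ≤ _ := h1
    _ ≤ (2 * m).choose m * (3 * (2 * (4096 ^ m - 1) ^ m * 4096 ^ m)) := by gcongr
    _ = 6 * ((2 * m).choose m * (4096 ^ m - 1) ^ m * 4096 ^ m) := by ring
    _ ≤ _ := by gcongr

lemma odd_case (m : ℕ) :
    32 * ((PA (2 * m + 1)).card * 64 ^ (2 * m + 1)) ≤ 3 * (PB (2 * m + 1)).card := by
  have h1 : (PA (2 * m + 1)).card ≤ (2 * m + 1).choose m * (3 * 4096 ^ (m * (m + 1))) := by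
    have := theta m
    rw [card_PA]
    refine le_trans (sum_le_sum (g := fun k => (2 * m + 1).choose m *
      4096 ^ (k * (2 * m + 1 - k))) fun k _ => ?_) ?_
    · refine Nat.mul_le_mul (by
        have := Nat.choose_le_middle k (2 * m + 1)
        rwa [show (2 * m + 1) / 2 = m by omega] at this) ?_
      rw [mul_comm k, pow_mul]
      exact Nat.pow_le_pow_left (Nat.sub_le _ _) _
    · rw [← mul_sum]
      exact Nat.mul_le_mul_left _ (le_trans (Nat.le_add_right _ _) this)
  have h2 : (2 * m + 1).choose m * ((4096 ^ (m + 1) - 1) ^ m * 4096 ^ (m + 1)) ≤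
      (PB (2 * m + 1)).card := by
    rw [card_PB]
    have := single_le_sum (f := fun k => (2 * m + 1).choose k *
      ((4096 ^ (2 * m + 1 - k) - 1) ^ k * 4096 ^ (2 * m + 1 - k)))
      (fun _ _ => Nat.zero_le _) (mem_range.2 (show m < 2 * m + 1 + 1 by omega))
    rwa [show 2 * m + 1 - m = m + 1 by omega] at this
  have h3 := bern m (m + 1) (by omega)
  rw [mul_comm m, pow_mul] at h1
  rw [pow_succ 64, pow_mul 64, show 64 ^ 2 = 4096 by norm_num]
  calc _ ≤ 32 * ((2 * m + 1).choose m * (3 * (2 * (4096 ^ (m + 1) - 1) ^ m)) * (4096 ^ m * 64)) := by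
        gcongr
        exact h1.trans (by gcongr)
    _ = 3 * ((2 * m + 1).choose m * ((4096 ^ (m + 1) - 1) ^ m * 4096 ^ (m + 1))) := by ring
    _ ≤ _ := by gcongr

/-! ### The class of structures -/

inductive Rel : ℕ → Type
  | R (i : Fin 12) : Rel 2
  | U (j : Fin 6) : Rel 1
  | V (i : Fin 12) : Rel 1

def L : FirstOrder.Language.{0, 0} := ⟨fun _ => Empty, Rel⟩

lemma fin_rel : Finite (Σ l, L.Relations l) := by
  refine Finite.of_surjective (α := Fin 12 ⊕ Fin 6 ⊕ Fin 12)
    (Sum.elim (fun i => ⟨2, Rel.R i⟩) (Sum.elim (fun i => ⟨1, Rel.U i⟩) fun i => ⟨1, Rel.V i⟩)) ?_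
  rintro ⟨l, r⟩
  cases r with
  | R i => exact ⟨Sum.inl i, rfl⟩
  | U i => exact ⟨Sum.inr (Sum.inl i), rfl⟩
  | V i => exact ⟨Sum.inr (Sum.inr i), rfl⟩

abbrev Fact := Σ l, Rel l × (Fin l → Fin 3)

/-- The three-element structure with exactly two atomic facts. -/
def two (a b : Fact) : L.Structure (Fin 3) where
  funMap := fun f => Empty.elim f
  RelMap := fun {l} r v => (⟨l, r, v⟩ : Fact) = a ∨ (⟨l, r, v⟩ : Fact) = b

lemma two_iff (M : L.Structure (Fin n)) (a b : Fact) :
    IsEmpty (@FirstOrder.Language.Hom L (Fin 3) (Fin n) (two a b) M) ↔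
      ∀ f : Fin 3 → Fin n, ¬ (M.RelMap a.2.1 (f ∘ a.2.2) ∧ M.RelMap b.2.1 (f ∘ b.2.2)) := by
  letI := two a b
  constructor
  · rintro h f ⟨h1, h2⟩
    refine h.elim ⟨f, fun g => Empty.elim g, ?_⟩
    rintro l r v (rfl | rfl)
    exacts [h1, h2]
  · intro h
    exact ⟨fun f => h f ⟨f.map_rel' _ _ (Or.inl rfl), f.map_rel' _ _ (Or.inr rfl)⟩⟩

abbrev Ix := (Fin 12 × Fin 12) ⊕ (Fin 12 × Fin 12) ⊕ (Fin 6 × Fin 12)

def forb : Ix → L.Structure (Fin 3)
  | .inl p => two ⟨2, .R p.1, ![0, 1]⟩ ⟨2, .R p.2, ![1, 2]⟩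
  | .inr (.inl p) => two ⟨1, .V p.1, ![0]⟩ ⟨2, .R p.2, ![0, 1]⟩
  | .inr (.inr p) => two ⟨1, .U p.1, ![0]⟩ ⟨1, .V p.2, ![1]⟩

abbrev Dat (n : ℕ) := (Fin n → Fin n → E) × (Fin n → W) × (Fin n → E)

def eqv (n : ℕ) : L.Structure (Fin n) ≃ Dat n where
  toFun M := (fun x y i => M.RelMap (Rel.R i) ![x, y], fun x i => M.RelMap (Rel.U i) ![x],
    fun x i => M.RelMap (Rel.V i) ![x])
  invFun d :=
    { funMap := fun f => Empty.elim f
      RelMap := fun {_} r v => match r with
        | .R i => d.1 (v 0) (v 1) i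
        | .U i => d.2.1 (v 0) i
        | .V i => d.2.2 (v 0) i }
  left_inv M := by
    ext l r v
    · exact Empty.elim r
    · cases r with
      | R i =>
        exact iff_of_eq (congrArg (M.RelMap (Rel.R i))
          (show ![v 0, v 1] = v from funext fun k => by fin_cases k <;> rfl))
      | U i =>
        exact iff_of_eq (congrArg (M.RelMap (Rel.U i))
          (show ![v 0] = v from funext fun k => by fin_cases k; rfl))
      | V i =>
        exact iff_of_eq (congrArg (M.RelMap (Rel.V i))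
          (show ![v 0] = v from funext fun k => by fin_cases k; rfl))
  right_inv d := rfl

def Good (d : Dat n) : Prop :=
  PF d.1 ∧ (∀ y z, d.2.2 y = ⊥ ∨ d.1 y z = ⊥) ∧ ∀ x y, d.2.1 x = ⊥ ∨ d.2.2 y = ⊥

lemma bot_or {α β : Type} (f : α → Prop) (g : β → Prop) :
    (f = ⊥ ∨ g = ⊥) ↔ ∀ i j, ¬ (f i ∧ g j) := by
  constructor
  · rintro (rfl | rfl) i j h
    exacts [h.1, h.2]
  · intro h
    by_contra hc
    push Not at hc
    obtain ⟨i, hi⟩ := Function.ne_iff.1 hc.1
    obtain ⟨j, hj⟩ := Function.ne_iff.1 hc.2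
    exact h i j ⟨by simpa using hi, by simpa using hj⟩

lemma c2 (f : Fin 3 → Fin n) (a b : Fin 3) : f ∘ ![a, b] = ![f a, f b] :=
  funext fun k => by fin_cases k <;> rfl

lemma c1 (f : Fin 3 → Fin n) (a : Fin 3) : f ∘ ![a] = ![f a] := funext fun k => by fin_cases k; rfl

lemma good_iff (M : L.Structure (Fin n)) :
    (∀ i, IsEmpty (@FirstOrder.Language.Hom L (Fin 3) (Fin n) (forb i) M)) ↔ Good (eqv n M) := by
  simp only [Sum.forall, Good, PF, bot_or, Prod.forall]
  refine and_congr ⟨fun h x y z i j => ?_, fun h i j => (two_iff M _ _).2 fun f => ?_⟩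
    (and_congr ⟨fun h x y i j => ?_, fun h i j => (two_iff M _ _).2 fun f => ?_⟩
      ⟨fun h x y i j => ?_, fun h i j => (two_iff M _ _).2 fun f => ?_⟩)
  · have := (two_iff M _ _).1 (h i j) ![x, y, z]
    simp only [c2] at this
    exact this
  · simp only [c2]
    exact h _ _ _ i j
  · have := (two_iff M _ _).1 (h i j) ![x, y, x]
    simp only [c1, c2] at this
    exact this
  · simp only [c1, c2]
    exact h _ _ i j
  · have := (two_iff M _ _).1 (h i j) ![x, y, x]
    simp only [c1] at this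
    exact this
  · simp only [c1]
    exact h _ _ i j

noncomputable def phi : L.Sentence :=
  Formula.iInf fun i : Fin 12 => ∀' ∼(Relations.boundedFormula₁ (L := L) (Rel.V i) (&0))

lemma phi_iff (M : L.Structure (Fin n)) : Fin n ⊨ phi ↔ (eqv n M).2.2 = ⊥ := by
  rw [phi, Sentence.Realize, Formula.realize_iInf]
  simp only [Formula.Realize,
    BoundedFormula.realize_all, BoundedFormula.realize_not, BoundedFormula.realize_rel₁]
  constructor
  · intro h
    funext x i
    exact eq_false (h i x)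
  · intro h i x hx
    exact cast (congrFun (congrFun h x) i) hx

open Classical in
noncomputable def GA (n : ℕ) : Finset (Dat n) := univ.filter fun d => Good d ∧ d.2.2 = ⊥
open Classical in
noncomputable def GT (n : ℕ) : Finset (Dat n) := univ.filter fun d => Good d

lemma card_GA : (GA n).card = (PA n).card * 64 ^ n := by
  have : (univ : Finset (Fin n → W)).card = 64 ^ n := by simp [cardW]
  rw [← this, ← card_product]
  refine card_bij' (fun d _ => (d.1, d.2.1)) (fun p _ => (p.1, p.2, ⊥)) ?_ ?_ ?_ ?_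
  · intro d hd
    simp only [GA, mem_filter, mem_univ, true_and] at hd
    simp [PA, hd.1.1]
  · intro p hp
    simp only [PA, mem_product, mem_filter, mem_univ, true_and, and_true] at hp
    simp [GA, Good, hp]
  · intro d hd
    simp only [GA, mem_filter, mem_univ, true_and] at hd
    rw [← hd.2]
  · intro p _; rfl

lemma card_GT : (PB n).card ≤ (GT n).card ∧ (GT n).card ≤ (GA n).card + (PB n).card := by
  classical
  constructor
  · refine card_le_card_of_injOn (fun p => (p.1, ⊥, p.2)) (fun p hp => ?_) fun p _ q _ h => ?_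
    · simp only [PB, coe_filter, mem_univ, true_and, Set.mem_setOf_eq] at hp
      simp [GT, Good, hp.1, hp.2]
    · simp only [Prod.mk.injEq, true_and] at h
      exact Prod.ext h.1 h.2
  · refine le_trans (card_le_card (t := GA n ∪ (PB n).image fun p => (p.1, ⊥, p.2)) fun d hd => ?_)
      ((card_union_le _ _).trans (Nat.add_le_add_left card_image_le _))
    simp only [GT, mem_filter, mem_univ, true_and] at hd
    rw [mem_union]
    by_cases h : d.2.2 = ⊥
    · exact Or.inl (by simp [GA, hd, h])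
    · obtain ⟨y, hy⟩ := Function.ne_iff.1 h
      refine Or.inr (mem_image.2 ⟨(d.1, d.2.2), by simp [PB, hd.1, hd.2.1], ?_⟩)
      have : d.2.1 = ⊥ := funext fun x => (hd.2.2 x y).resolve_right hy
      rw [← this]

lemma GT_pos : (0 : ℝ) < (GT n).card := by
  have : (⊥, ⊥, ⊥) ∈ GT n := by simp [GT, Good, PF]
  exact_mod_cast card_pos.2 ⟨_, this⟩

/-- The negation of the preceding statement: For every finite relational signature, finite forbidden family and first-order sentence φ: among labeled structures on n points admitting no homomorphism from any forbidden structure, the fraction satisfying φ converges as n grows. -/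
theorem result :
    ¬ (∀ (L : FirstOrder.Language.{0, 0}), (∀ l, IsEmpty (L.Functions l)) →
      Finite (Σ l, L.Relations l) →
      ∀ (k : ℕ) (m : Fin k → ℕ) (S : (i : Fin k) → L.Structure (Fin (m i))) (φ : L.Sentence),
        ∃ c : ℝ, Filter.Tendsto
          (fun n : ℕ =>
            (Nat.card {M : L.Structure (Fin n) //
                (∀ i, IsEmpty (@FirstOrder.Language.Hom L (Fin (m i)) (Fin n) (S i) M)) ∧
                  Fin n ⊨ φ} : ℝ) /
            (Nat.card {M : L.Structure (Fin n) //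
                ∀ i, IsEmpty (@FirstOrder.Language.Hom L (Fin (m i)) (Fin n) (S i) M)} : ℝ))
          Filter.atTop (nhds c)) := by
  intro H
  let e := (Fintype.equivFin Ix).symm
  obtain ⟨c, hc⟩ := H L (fun _ => inferInstanceAs (IsEmpty Empty)) fin_rel _ (fun _ => 3)
    (fun i => forb (e i)) phi
  have g : ∀ (n : ℕ) (M : L.Structure (Fin n)), (∀ i, IsEmpty
      (@FirstOrder.Language.Hom L (Fin 3) (Fin n) (forb (e i)) M)) ↔ Good (eqv n M) := fun n M => by
    rw [← good_iff]
    exact e.forall_congr_right (q := fun i => IsEmpty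
      (@FirstOrder.Language.Hom L (Fin 3) (Fin n) (forb i) M))
  have hc' : Filter.Tendsto (fun n => ((GA n).card : ℝ) / (GT n).card) Filter.atTop (nhds c) := by
    refine hc.congr fun n => ?_
    congr 2
    · rw [← Nat.card_eq_finsetCard]
      exact Nat.card_congr ((eqv n).subtypeEquiv fun M => by simp [g, phi_iff, GA])
    · rw [← Nat.card_eq_finsetCard]
      exact Nat.card_congr ((eqv n).subtypeEquiv fun M => by simp [g, GT])
  have t1 : Filter.Tendsto (fun m : ℕ => 2 * m) Filter.atTop Filter.atTop :=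
    Filter.tendsto_atTop_mono (fun m => by simp only [id]; omega) Filter.tendsto_id
  have t2 : Filter.Tendsto (fun m : ℕ => 2 * m + 1) Filter.atTop Filter.atTop :=
    Filter.tendsto_atTop_mono (fun m => by simp only [id]; omega) Filter.tendsto_id
  have h1 : (1 / 7 : ℝ) ≤ c := ge_of_tendsto' (hc'.comp t1) fun m => by
    have a := even_case m
    have b := (card_GT (n := 2 * m)).2
    rw [← card_GA] at a
    have : ((GT (2 * m)).card : ℝ) ≤ 7 * (GA (2 * m)).card := by exact_mod_cast (by omega)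
    simp only [Function.comp]
    rw [le_div_iff₀ GT_pos]
    linarith
  have h2 : c ≤ (3 / 32 : ℝ) := le_of_tendsto' (hc'.comp t2) fun m => by
    have a := odd_case m
    have b := (card_GT (n := 2 * m + 1)).1
    rw [← card_GA] at a
    have : 32 * ((GA (2 * m + 1)).card : ℝ) ≤ 3 * (GT (2 * m + 1)).card := by
      exact_mod_cast (by omega)
    simp only [Function.comp]
    rw [div_le_iff₀ GT_pos]
    linarith
  linarith

end Pool.Agent.S15538
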