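import Pool.Statements.S15550

set_option autoImplicit false
open Pool Pool.MP_e6ce3e_lc

namespace Pool.Agent.S15550

open Set

/-- Right half of a condensation class is countable. -/
theorem right_countable {L : Type} [LinearOrder L]
    (h : ∀ S : Set L, S.WellFoundedOn (· < ·) → S.Countable) (x : L) :
    {y : L | x ≤ y ∧ (Icc x y).Countable}.Countable := by
  classical
  set R : Set L := {y : L | x ≤ y ∧ (Icc x y).Countable} with hR
  let r : L → L → Prop := WellOrderingRel
  have hwo : IsWellOrder L r := WellOrderingRel.isWellOrder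
  have hwf : WellFounded r := hwo.wf
  set S : Set L := {y | y ∈ R ∧ ∀ z ∈ R, r z y → z < y} with hS
  have hSc : S.Countable := by
    apply h
    rw [Set.wellFoundedOn_iff]
    refine Subrelation.wf (r := r) ?_ hwf
    intro a b hab
    obtain ⟨hlt, ha, hb⟩ := hab
    rcases trichotomous_of r a b with h1 | h1 | h1
    · exact h1
    · exact absurd h1 hlt.ne
    · exact absurd (ha.2 b hb.1 h1) (not_lt.mpr hlt.le)
  have hsub : R ⊆ ⋃ s ∈ S, Icc x s := by
    intro y hy
    have hne : ({z | z ∈ R ∧ y ≤ z} : Set L).Nonempty := ⟨y, hy, le_rfl⟩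
    obtain ⟨m, hm, hmin⟩ := hwf.has_min _ hne
    simp only [mem_iUnion]
    refine ⟨m, ⟨hm.1, ?_⟩, hy.1, hm.2⟩
    intro z hz hzm
    by_contra hc
    exact hmin z ⟨hz, hm.2.trans (not_lt.mp hc)⟩ hzm
  exact (hSc.biUnion (fun s hs => hs.1.2)).mono hsub

theorem class_countable {L : Type} [LinearOrder L]
    (h : ∀ S : Set L, S.WellFoundedOn (· < ·) → S.Countable)
    (h' : ∀ S : Set L, S.WellFoundedOn (· > ·) → S.Countable) (x : L) :
    {y : L | (uIcc x y).Countable}.Countable := by
  have h1 := right_countable h x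
  have h2 := right_countable (L := Lᵒᵈ) h' (OrderDual.toDual x)
  refine (h1.union h2).mono ?_
  intro y hy
  rcases le_total x y with hxy | hxy
  · left
    exact ⟨hxy, by simpa [uIcc_of_le hxy] using hy⟩
  · right
    refine ⟨hxy, ?_⟩
    have : (Icc y x).Countable := by simpa [uIcc_of_ge hxy] using hy
    refine this.mono ?_
    intro z hz
    exact ⟨hz.2, hz.1⟩

theorem exists_emb {L : Type} [LinearOrder L]
    (h : ∀ S : Set L, S.WellFoundedOn (· < ·) → S.Countable)
    (h' : ∀ S : Set L, S.WellFoundedOn (· > ·) → S.Countable) (hL : Uncountable L) :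
    ∃ e : ℚ ↪o L, ¬ (Icc (e 0) (e 1)).Countable := by
  classical
  let s : Setoid L :=
    { r := fun a b => (uIcc a b).Countable
      iseqv := ⟨fun a => by simp, fun {a b} hab => by rwa [uIcc_comm],
        fun {a b c} hab hbc => (hab.union hbc).mono uIcc_subset_uIcc_union_uIcc⟩ }
  let T : Set L := range (Quotient.out : Quotient s → L)
  have hT : ∀ a ∈ T, ∀ b ∈ T, (uIcc a b).Countable → a = b := by
    rintro _ ⟨p, rfl⟩ _ ⟨q, rfl⟩ hab
    have : p = q := by
      rw [← Quotient.out_eq p, ← Quotient.out_eq q]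
      exact Quotient.sound hab
    rw [this]
  have hrep : ∀ c : L, ∃ t ∈ T, (uIcc t c).Countable := fun c =>
    ⟨(Quotient.mk s c).out, ⟨_, rfl⟩, Quotient.mk_out (s := s) c⟩
  have hd : DenselyOrdered T := by
    refine ⟨fun a b hab => ?_⟩
    have hlt : (a : L) < b := hab
    have hunc : ¬ (Icc (a : L) b).Countable := by
      intro hc
      exact hlt.ne (hT _ a.2 _ b.2 (by rwa [uIcc_of_le hlt.le]))
    have : ∃ c ∈ Icc (a : L) b, ¬ (uIcc (a : L) c).Countable ∧ ¬ (uIcc (b : L) c).Countable := by
      by_contra hc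
      push Not at hc
      apply hunc
      refine ((class_countable h h' a).union (class_countable h h' b)).mono ?_
      intro c hcm
      by_cases h1 : (uIcc (a : L) c).Countable
      · exact Or.inl h1
      · exact Or.inr (hc c hcm h1)
    obtain ⟨c, hc, h1, h2⟩ := this
    obtain ⟨t, ht, htc⟩ := hrep c
    refine ⟨⟨t, ht⟩, ?_, ?_⟩
    · show (a : L) < t
      by_contra hh
      apply h1
      refine htc.mono ?_
      rw [uIcc_of_le hc.1, uIcc_of_le ((not_lt.mp hh).trans hc.1)]
      exact Icc_subset_Icc_left (not_lt.mp hh)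
    · show t < (b : L)
      by_contra hh
      apply h2
      refine htc.mono ?_
      rw [uIcc_of_ge hc.2, uIcc_of_ge (hc.2.trans (not_lt.mp hh))]
      exact Icc_subset_Icc_right (not_lt.mp hh)
  have hnt : Nontrivial T := by
    obtain ⟨a⟩ : Nonempty L := inferInstance
    have : ∃ b, ¬ (uIcc a b).Countable := by
      by_contra hc
      push Not at hc
      have := class_countable h h' a
      have h3 : {y : L | (uIcc a y).Countable} = univ := eq_univ_of_forall hc
      rw [h3] at this
      exact not_countable_univ this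
    obtain ⟨b, hb⟩ := this
    obtain ⟨ta, hta, hta'⟩ := hrep a
    obtain ⟨tb, htb, htb'⟩ := hrep b
    refine ⟨⟨ta, hta⟩, ⟨tb, htb⟩, fun hh => hb ?_⟩
    have : ta = tb := congrArg Subtype.val hh
    subst this
    rw [uIcc_comm] at hta'
    exact (hta'.union htb').mono uIcc_subset_uIcc_union_uIcc
  obtain ⟨e⟩ := Order.embedding_from_countable_to_dense ℚ T
  refine ⟨e.trans (OrderEmbedding.subtype _), ?_⟩
  intro hc
  have hlt : e 0 < e 1 := e.strictMono zero_lt_one
  have hlt' : ((e 0 : T) : L) < e 1 := hlt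
  exact hlt'.ne (hT _ (e 0).2 _ (e 1).2 (by rw [uIcc_of_le hlt'.le]; exact hc))

/-- The negation of the preceding statement: There is a linear order L with no uncountable well-ordered or reverse-well-ordered subset, of size at least aleph_1, mapping monotonically onto every size-aleph_1 linear order embeddable in it, but with no monotone surjection onto the rationals. -/
theorem result :
    ¬ (∃ (L : Type) (_ : LinearOrder L),
      (∀ S : Set L, S.WellFoundedOn (· < ·) → S.Countable) ∧
      (∀ S : Set L, S.WellFoundedOn (· > ·) → S.Countable) ∧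
      Cardinal.aleph 1 ≤ Cardinal.mk L ∧
      (∀ (K : Type) [LinearOrder K], Cardinal.mk K = Cardinal.aleph 1 →
          Nonempty (K ↪o L) → ∃ f : L → K, Monotone f ∧ Function.Surjective f) ∧
      ¬ ∃ f : L → ℚ, Monotone f ∧ Function.Surjective f) := by
  classical
  rintro ⟨L, _, h, h', hL, hsurj, hno⟩
  have hunc : Uncountable L := by
    rwa [Cardinal.aleph_one_le_iff, Cardinal.aleph0_lt_mk_iff] at hL
  obtain ⟨e, he⟩ := exists_emb h h' hunc
  rw [Cardinal.countable_iff_lt_aleph_one, not_lt, Cardinal.le_mk_iff_exists_subset] at he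
  obtain ⟨K', hK', hcard⟩ := he
  let K : Set L := range e ∪ K'
  have hK : Cardinal.mk K = Cardinal.aleph 1 := by
    apply le_antisymm
    · refine (Cardinal.mk_union_le _ _).trans ?_
      rw [hcard]
      have : Cardinal.mk (range e) ≤ Cardinal.aleph 1 :=
        ((Cardinal.countable_iff_lt_aleph_one _).mp (countable_range e)).le
      calc _ ≤ Cardinal.aleph 1 + Cardinal.aleph 1 := by gcongr
        _ = _ := Cardinal.add_eq_self (Cardinal.aleph0_le_aleph 1)
    · rw [← hcard]
      exact Cardinal.mk_le_mk_of_subset subset_union_right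
  obtain ⟨f, hf, hfs⟩ := hsurj K hK ⟨OrderEmbedding.subtype _⟩
  let φ : ℚ → ℚ := fun q => min q 0 + max (q - 1) 0
  have hφ : Monotone φ := fun a b hab => by
    simp only [φ]
    gcongr
  let g : K → ℚ := fun x => if hx : (x : L) ∈ range e then φ hx.choose else 0
  have hg1 : ∀ (x : K) (q : ℚ), e q = x → g x = φ q := by
    intro x q hq
    have hx : (x : L) ∈ range e := ⟨q, hq⟩
    simp only [g, dif_pos hx]
    congr 1
    exact e.injective (hx.choose_spec.trans hq.symm)
  have hg2 : ∀ x : K, (x : L) ∉ range e → g x = 0 ∧ (x : L) ∈ Icc (e 0) (e 1) := by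
    intro x hx
    refine ⟨by simp only [g, dif_neg hx], hK' ?_⟩
    rcases x.2 with h1 | h1
    · exact absurd h1 hx
    · exact h1
  have hφ0 : φ 0 = 0 := by norm_num [φ]
  have hφ1 : φ 1 = 0 := by norm_num [φ]
  apply hno
  refine ⟨g ∘ f, Monotone.comp ?_ hf, Function.Surjective.comp ?_ hfs⟩
  · intro x y hxy
    have hxy' : (x : L) ≤ y := hxy
    by_cases hx : (x : L) ∈ range e <;> by_cases hy : (y : L) ∈ range e
    · obtain ⟨p, hp⟩ := hx
      obtain ⟨q, hq⟩ := hy
      rw [hg1 x p hp, hg1 y q hq]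
      apply hφ
      rw [← e.le_iff_le, hp, hq]
      exact hxy'
    · obtain ⟨p, hp⟩ := hx
      rw [hg1 x p hp, (hg2 y hy).1, ← hφ1]
      apply hφ
      rw [← e.le_iff_le, hp]
      exact hxy'.trans (hg2 y hy).2.2
    · obtain ⟨q, hq⟩ := hy
      rw [hg1 y q hq, (hg2 x hx).1, ← hφ0]
      apply hφ
      rw [← e.le_iff_le, hq]
      exact (hg2 x hx).2.1.trans hxy'
    · rw [(hg2 x hx).1, (hg2 y hy).1]
  · intro q
    rcases le_total q 0 with hq | hq
    · refine ⟨⟨e q, Or.inl ⟨q, rfl⟩⟩, ?_⟩
      rw [hg1 _ q rfl]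
      simp only [φ]
      rw [min_eq_left hq, max_eq_right (by linarith), add_zero]
    · refine ⟨⟨e (q + 1), Or.inl ⟨_, rfl⟩⟩, ?_⟩
      rw [hg1 _ (q + 1) rfl]
      simp only [φ]
      rw [min_eq_right (by linarith), max_eq_left (by linarith)]
      ring

end Pool.Agent.S15550
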