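import Pool.Statements.S15597
import Mathlib

set_option autoImplicit false
open Pool Pool.MP_f0be4b_lc

namespace Pool.Agent.S15597

open Set Cardinal MeasureTheory Filter Topology

abbrev Γ : Type := (continuum.{0}).ord.ToType

def Sim (r s : ℝ) : Prop := ∃ q : ℚ, r - s = q

def Bad (a b : ℚ) (F : ℝ → ℝ) : Prop :=
  Monotone F ∧ StrictMonoOn F (Icc a b) ∧ a < b ∧ F b - F a < b - a

theorem big {a b : ℚ} {F : ℝ → ℝ} (h : Bad a b F) :
    #{x | x ∈ Icc (a : ℝ) b ∧ ¬ Sim (F x) x} = 𝔠 := by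
  obtain ⟨h1, h2, h3, h4⟩ := h
  have hS : ∀ q : ℚ, MeasurableSet {x | x ∈ Icc (a : ℝ) b ∧ F x - x = q} := fun q =>
    measurableSet_Icc.inter (measurableSet_eq_fun (h1.measurable.sub measurable_id) measurable_const)
  have e : {x | x ∈ Icc (a : ℝ) b ∧ ¬ Sim (F x) x} =
      Icc (a : ℝ) b \ ⋃ q : ℚ, {x | x ∈ Icc (a : ℝ) b ∧ F x - x = q} := by
    ext x; simp only [Sim, mem_ofPred_eq, mem_diff, mem_iUnion]
    exact and_congr_right fun h => by simp only [h, true_and]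
  have hm : MeasurableSet {x | x ∈ Icc (a : ℝ) b ∧ ¬ Sim (F x) x} :=
    e ▸ measurableSet_Icc.diff (MeasurableSet.iUnion hS)
  have hc : ¬ Countable {x | x ∈ Icc (a : ℝ) b ∧ ¬ Sim (F x) x} := by
    intro hc
    have h0 := (countable_coe_iff.1 hc).measure_zero volume
    let T : ℚ → Set ℝ := fun q => (fun y => y + (-q : ℝ)) ⁻¹' {x | x ∈ Icc (a : ℝ) b ∧ F x - x = q}
    have t1 : volume (Icc (a : ℝ) b) ≤ ∑' q, volume (T q) := by
      simp only [T, measure_preimage_add_right]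
      refine le_trans ?_ (measure_iUnion_le _)
      rw [e] at h0
      exact measure_mono_ae (ae_le_set.2 h0)
    have t2 : ∑' q, volume (T q) ≤ volume (Icc (F a) (F b)) := by
      rw [← measure_iUnion _ fun q => (hS q).preimage (measurable_add_const _)]
      · refine measure_mono (iUnion_subset fun q y hy => ?_)
        have : F (y + -q) = y := by linarith [hy.2]
        exact ⟨this ▸ h1 hy.1.1, this ▸ h1 hy.1.2⟩
      · intro q q' hq
        refine disjoint_left.2 fun y hy hy' => hq ?_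
        have e1 : F (y + -q) = y := by linarith [hy.2]
        have e2 : F (y + -q') = y := by linarith [hy'.2]
        have := h2.injOn hy.1 hy'.1 (e1.trans e2.symm)
        exact_mod_cast (by linarith : (q : ℝ) = q')
    have := t1.trans t2
    rw [Real.volume_Icc, Real.volume_Icc, ENNReal.ofReal_le_ofReal_iff
      (sub_nonneg.2 (h1 (by exact_mod_cast h3.le)))] at this
    linarith
  have := hm.standardBorel
  rw [(PolishSpace.measurableEquivNatBoolOfNotCountable hc).toEquiv.cardinal_eq]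
  simp

theorem small (β : Γ) (z : Γ → ℝ) : #{r | ∃ γ < β, Sim r (z γ)} < 𝔠 := by
  have : {r | ∃ γ < β, Sim r (z γ)} ⊆ range fun p : Iio β × ℚ => z p.1 + p.2 := by
    rintro r ⟨γ, h, q, hq⟩
    exact ⟨(⟨γ, h⟩, q), by simp only; linarith⟩
  refine (mk_le_mk_of_subset this).trans_lt (mk_range_le.trans_lt ?_)
  simp only [mk_prod, lift_id, Cardinal.mkRat]
  exact mul_lt_of_lt aleph0_le_continuum (mk_Iio_toType_ord_lt β) aleph0_lt_continuum

theorem step {a b : ℚ} {F : ℝ → ℝ} (h : Bad a b F) (β : Γ) (x y : Γ → ℝ) :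
    ∃ r ∈ Icc (a : ℝ) b, ContinuousAt F r ∧ ¬ Sim (F r) r ∧ ¬ Sim (F r) 0 ∧
      ∀ γ < β, ¬ Sim (F r) (x γ) ∧ ¬ Sim r (y γ) := by
  by_contra hcon
  have h1 : {x | x ∈ Icc (a : ℝ) b ∧ ¬ Sim (F x) x} ⊆ ({r | ¬ ContinuousAt F r} ∪
      {r | ∃ γ < β, Sim r (y γ)}) ∪ (Icc (a : ℝ) b ∩ F ⁻¹'
        (range ((↑) : ℚ → ℝ) ∪ {r | ∃ γ < β, Sim r (x γ)})) := by
    intro r hr
    by_contra h2
    simp only [mem_union, mem_inter_iff, mem_preimage, mem_ofPred_eq, not_or, not_and, not_not,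
      not_exists] at h2
    refine hcon ⟨r, hr.1, h2.1.1, hr.2, ?_, fun γ hγ => ⟨(h2.2 hr.1).2 γ hγ, h2.1.2 γ hγ⟩⟩
    rintro ⟨q, hq⟩
    exact (h2.2 hr.1).1 ⟨q, by linarith⟩
  have c1 : ∀ s : Set ℝ, s.Countable → #s < 𝔠 := fun s hs =>
    (le_aleph0_iff_set_countable.2 hs).trans_lt aleph0_lt_continuum
  have u : ∀ s t : Set ℝ, #s < 𝔠 → #t < 𝔠 → #(s ∪ t : Set ℝ) < 𝔠 := fun s t hs ht =>
    (mk_union_le _ _).trans_lt (add_lt_of_lt aleph0_le_continuum hs ht)
  have h3 := (mk_le_mk_of_subset h1).trans_lt (u _ _ (u _ _ (c1 _ h.1.countable_not_continuousAt)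
    (small β y)) (lt_of_le_of_lt ?_ (u _ _ (c1 _ (countable_range ((↑) : ℚ → ℝ))) (small β x))))
  · exact h3.ne (big h)
  · rw [← mk_image_eq_of_injOn F _ (h.2.1.injOn.mono inter_subset_left)]
    exact mk_le_mk_of_subset (by rintro _ ⟨r, hr, rfl⟩; exact hr.2)

theorem exists_D : ∃ D : Set ℝ, (∀ q : ℚ, (q : ℝ) ∈ D) ∧ (∀ x ∈ D, ∀ q : ℚ, x + q ∈ D) ∧
    ∀ (a b : ℚ) (F : ℝ → ℝ), Bad a b F → ∃ x ∈ D ∩ Icc (a : ℝ) b, F x ∉ D := by
  classical
  obtain ⟨cd⟩ : Nonempty (Γ ≃ ℚ × ℚ × (ℚ → ℝ)) := by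
    rw [← Cardinal.eq, mk_ord_toType]; simp [mk_real]
  let V : Γ → Prop := fun β => ∃ F, Bad (cd β).1 (cd β).2.1 F ∧ ∀ q : ℚ, F q = (cd β).2.2 q
  let G : Γ → ℝ → ℝ := fun β => if h : V β then h.choose else id
  have hG : ∀ β, V β → Bad (cd β).1 (cd β).2.1 (G β) ∧ ∀ q : ℚ, G β q = (cd β).2.2 q :=
    fun β h => by simp only [G, dif_pos h]; exact h.choose_spec
  let P : (β : Γ) → (Γ → ℝ) → ℝ → Prop := fun β x r =>
    r ∈ Icc ((cd β).1 : ℝ) (cd β).2.1 ∧ ContinuousAt (G β) r ∧ ¬ Sim (G β r) r ∧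
      ¬ Sim (G β r) 0 ∧ ∀ γ < β, ¬ Sim (G β r) (x γ) ∧ ¬ Sim r (G γ (x γ))
  let x : Γ → ℝ := (wellFounded_lt (α := Γ)).fix fun β ih =>
    if h : ∃ r, P β (fun γ => if h : γ < β then ih γ h else 0) r then h.choose else 0
  have hx : ∀ β, (V β → P β x (x β)) ∧ (P β x (x β) ∨ x β = 0) := by
    intro β
    have e : ∀ r, P β (fun γ => if γ < β then x γ else 0) r ↔ P β x r := fun r => by
      simp +contextual only [P, if_true]
    have e2 : x β = if h : ∃ r, P β (fun γ => if γ < β then x γ else 0) r then h.choose else 0 := by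
      simp only [x]; rw [WellFounded.fix_eq]; rfl
    by_cases h : ∃ r, P β (fun γ => if γ < β then x γ else 0) r
    · rw [dif_pos h] at e2
      have := (e _).1 h.choose_spec
      rw [← e2] at this
      exact ⟨fun _ => this, Or.inl this⟩
    · rw [dif_neg h] at e2
      refine ⟨fun hV => absurd ?_ h, Or.inr e2⟩
      obtain ⟨r, h1, h2⟩ := step (hG β hV).1 β x fun γ => G γ (x γ)
      exact ⟨r, (e r).2 ⟨h1, h2⟩⟩
  refine ⟨{r | Sim r 0 ∨ ∃ β, Sim r (x β)}, fun q => Or.inl ⟨q, by simp⟩, ?_, fun a b F hF => ?_⟩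
  · rintro r (⟨p, h⟩ | ⟨β, p, h⟩) q
    · exact Or.inl ⟨p + q, by push_cast; linarith⟩
    · exact Or.inr ⟨β, p + q, by push_cast; linarith⟩
  obtain ⟨β, hβ⟩ := cd.surjective (a, b, fun q => F q)
  have hV : V β := ⟨F, by rw [hβ]; exact hF, by rw [hβ]; exact fun _ => rfl⟩
  obtain ⟨p1, p2, p3, p4, p5⟩ := (hx β).1 hV
  obtain ⟨g1, g2⟩ := hG β hV
  rw [hβ] at p1 g1 g2
  have hFG : F (x β) = G β (x β) := by
    refine le_antisymm (le_of_forall_gt_imp_ge_of_dense fun c hc => ?_)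
      (le_of_forall_lt_imp_le_of_dense fun c hc => ?_)
    · obtain ⟨u, hu, h⟩ := (mem_nhdsGT_iff_exists_Ioo_subset.1
        (mem_nhdsWithin_of_mem_nhds (p2.eventually (gt_mem_nhds hc))))
      obtain ⟨q, q1, q2⟩ := exists_rat_btwn (show x β < u from hu)
      exact (hF.1 q1.le).trans ((g2 q).symm.le.trans (le_of_lt (h ⟨q1, q2⟩)))
    · obtain ⟨u, hu, h⟩ := (mem_nhdsLT_iff_exists_Ioo_subset.1
        (mem_nhdsWithin_of_mem_nhds (p2.eventually (lt_mem_nhds hc))))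
      obtain ⟨q, q1, q2⟩ := exists_rat_btwn (show u < x β from hu)
      exact (le_of_lt (h ⟨q1, q2⟩)).trans ((g2 q).le.trans (hF.1 q2.le))
  refine ⟨x β, ⟨Or.inr ⟨β, 0, by simp⟩, p1⟩, ?_⟩
  rw [hFG]
  rintro (h | ⟨γ, h⟩)
  · exact p4 h
  rcases lt_trichotomy γ β with h1 | rfl | h1
  · exact (p5 γ h1).1 h
  · exact p3 h
  · rcases (hx γ).2 with h2 | h2
    · obtain ⟨q, hq⟩ := h
      exact (h2.2.2.2.2 β h1).2 ⟨-q, by push_cast; linarith⟩
    · exact p4 (h2 ▸ h)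

theorem expand {D : Set ℝ} (h1 : ∀ q : ℚ, (q : ℝ) ∈ D)
    (h3 : ∀ (a b : ℚ) (F : ℝ → ℝ), Bad a b F → ∃ x ∈ D ∩ Icc (a : ℝ) b, F x ∉ D)
    {f : ℝ → ℝ} {a b : ℚ} (hab : a < b) (hf : StrictMonoOn f (D ∩ Icc (a : ℝ) b))
    (hD : ∀ x ∈ D ∩ Icc (a : ℝ) b, f x ∈ D) : (b : ℝ) - a ≤ f b - f a := by
  have hab' : (a : ℝ) < b := by exact_mod_cast hab
  let S : ℝ → Set ℝ := fun x => f '' (D ∩ Icc (a : ℝ) (max (a : ℝ) (min x b)))
  have hub : ∀ x, max (a : ℝ) (min x b) ≤ b := fun x => max_le hab'.le (min_le_right _ _)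
  have ne : ∀ x, (S x).Nonempty := fun x => ⟨_, a, ⟨h1 a, le_rfl, le_max_left _ _⟩, rfl⟩
  have up : ∀ x, ∀ d ∈ D ∩ Icc (a : ℝ) b, max (a : ℝ) (min x b) ≤ d → f d ∈ upperBounds (S x) := by
    rintro x d hd h _ ⟨c, hc, rfl⟩
    exact hf.monotoneOn ⟨hc.1, hc.2.1, hc.2.2.trans (hub x)⟩ hd (hc.2.2.trans h)
  have bd : ∀ x, BddAbove (S x) := fun x => ⟨_, up x b ⟨h1 b, hab'.le, le_rfl⟩ (hub x)⟩
  have mid : ∀ x ∈ Icc (a : ℝ) b, max (a : ℝ) (min x b) = x := fun x hx => by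
    rw [min_eq_left hx.2, max_eq_right hx.1]
  have eq : ∀ d ∈ D ∩ Icc (a : ℝ) b, sSup (S d) = f d := fun d hd =>
    le_antisymm (csSup_le (ne d) (up d d hd (mid d hd.2).le))
      (le_csSup (bd d) ⟨d, ⟨hd.1, hd.2.1, (mid d hd.2).ge⟩, rfl⟩)
  have mono : Monotone fun x => sSup (S x) := fun x y h => csSup_le_csSup (bd y) (ne x)
    (image_mono (inter_subset_inter_right _ (Icc_subset_Icc_right
      (max_le_max le_rfl (min_le_min h le_rfl)))))
  by_contra hcon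
  obtain ⟨x, hx, hx'⟩ := h3 a b (fun x => sSup (S x)) ⟨mono, fun x hx y hy h => by
      obtain ⟨p, p1, p2⟩ := exists_rat_btwn h
      obtain ⟨q, q1, q2⟩ := exists_rat_btwn p2
      have hp : (p : ℝ) ∈ D ∩ Icc (a : ℝ) b := ⟨h1 p, by linarith [hx.1], by linarith [hy.2]⟩
      have hq : (q : ℝ) ∈ D ∩ Icc (a : ℝ) b := ⟨h1 q, by linarith [hx.1], by linarith [hy.2]⟩
      exact (mono p1.le).trans_lt (((eq p hp).trans_lt ((hf hp hq q1).trans_eq
        (eq q hq).symm)).trans_le (mono q2.le)), hab, by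
      simp only
      rw [eq _ ⟨h1 a, le_rfl, hab'.le⟩, eq _ ⟨h1 b, hab'.le, le_rfl⟩]
      exact not_le.1 hcon⟩
  exact hx' (by rw [eq x hx]; exact hD x hx)


/-- There exist linear orders A, B, C such that neither A nor B embeds in the other, both embed in C, and C embeds in every linear order into which both A and B embed. -/
theorem result :
    ∃ (A B C : Type) (_ : LinearOrder A) (_ : LinearOrder B) (_ : LinearOrder C),
      IsEmpty (A ↪o B) ∧ IsEmpty (B ↪o A) ∧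
      Nonempty (A ↪o C) ∧ Nonempty (B ↪o C) ∧
      ∀ (X : Type) [LinearOrder X],
        Nonempty (A ↪o X) → Nonempty (B ↪o X) → Nonempty (C ↪o X) := by
  classical
  obtain ⟨D, h1, h2, h3⟩ := exists_D
  let C : Set ℝ := D ∩ Ico 0 2
  have sup : ∀ (X : Type) [LinearOrder X], Nonempty (↥(C \ {1}) ↪o X) →
      Nonempty (↥(C \ {0}) ↪o X) → Nonempty (C ↪o X) := by
    rintro X _ ⟨f⟩ ⟨g⟩
    have one : (1 : ℝ) ∈ C \ {0} := ⟨⟨by simpa using h1 1, by norm_num⟩, by norm_num⟩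
    by_cases h : ∀ t : ↥(C \ {1}), t.1 < 1 → f t < g ⟨1, one⟩
    · refine ⟨OrderEmbedding.ofStrictMono (fun x => if hx : x.1 < 1 then f ⟨x.1, x.2, hx.ne⟩
        else g ⟨x.1, x.2, fun e => hx (by rw [show x.1 = 0 from e]; norm_num)⟩) fun x y hxy => ?_⟩
      have hxy' : x.1 < y.1 := hxy
      simp only
      split_ifs with a b b
      · exact f.strictMono hxy'
      · exact (h _ a).trans_le (g.monotone (not_lt.1 b))
      · linarith
      · exact g.strictMono hxy'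
    · push Not at h
      obtain ⟨t, ht, hg⟩ := h
      obtain ⟨ε, e1, e2⟩ := exists_rat_btwn (show 0 < (1 - t.1) / 2 by linarith)
      have t0 := t.2.1.2.1
      refine ⟨OrderEmbedding.ofStrictMono (fun x => if hx : x.1 < 1 - ε then
        g ⟨x.1 + ε, ⟨h2 _ x.2.1 _, by linarith [x.2.2.1], by linarith⟩,
          fun e => by have : x.1 + ε = 0 := e; linarith [x.2.2.1]⟩
        else if hx' : x.1 ≤ 1 then f ⟨x.1 + (-ε : ℚ), ⟨h2 _ x.2.1 _, by push_cast; linarith,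
          by push_cast; linarith⟩, fun e => by
            have : x.1 + (-ε : ℚ) = 1 := e
            push_cast at this; linarith⟩
        else f ⟨x.1, x.2, fun e => hx' (le_of_eq e)⟩) fun x y hxy => ?_⟩
      have hxy' : x.1 < y.1 := hxy
      have k : ∀ (u : ↥(C \ {0})) (v : ↥(C \ {1})), u.1 < 1 → t.1 ≤ v.1 → g u < f v :=
        fun u v hu hv => (g.strictMono (show u < ⟨1, one⟩ from hu)).trans_le
          (hg.trans (f.monotone hv))
      simp only
      split_ifs with a b c b c d d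
      · exact g.strictMono (show x.1 + ε < y.1 + ε by linarith)
      · exact k _ _ (by simp only; linarith) (by simp only; push_cast; linarith)
      · exact k _ _ (by simp only; linarith) (by simp only; linarith)
      · linarith
      · exact f.strictMono (show x.1 + (-ε : ℚ) < y.1 + (-ε : ℚ) by linarith)
      · exact f.strictMono (show x.1 + (-ε : ℚ) < y.1 by push_cast; linarith)
      · linarith
      · linarith
      · exact f.strictMono hxy'
  have rigid : ∀ (p : ℚ), 0 ≤ p → p < 2 → IsEmpty (C ↪o ↥(C \ {(p : ℝ)})) := by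
    refine fun p p0 p2 => ⟨fun φ => ?_⟩
    let f : ℝ → ℝ := fun x => if hx : x ∈ C then (φ ⟨x, hx⟩).1 else 0
    have hf : ∀ x (hx : x ∈ C), f x = (φ ⟨x, hx⟩).1 := fun x hx => dif_pos hx
    have ex : ∀ a b : ℚ, 0 ≤ a → a < b → b < 2 → (b : ℝ) - a ≤ f b - f a := by
      intro a b ha hab hb
      have sub : ∀ x ∈ D ∩ Icc (a : ℝ) b, x ∈ C := fun x hx =>
        ⟨hx.1, le_trans (by exact_mod_cast ha) hx.2.1, hx.2.2.trans_lt (by exact_mod_cast hb)⟩
      refine expand h1 h3 hab (fun x hx y hy h => ?_) fun x hx => ?_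
      · rw [hf x (sub x hx), hf y (sub y hy)]
        exact φ.strictMono (show (⟨x, sub x hx⟩ : C) < ⟨y, sub y hy⟩ from h)
      · rw [hf x (sub x hx)]; exact (φ _).2.1.1
    have inC : ∀ q : ℚ, 0 ≤ q → q < 2 → (q : ℝ) ∈ C := fun q a b =>
      ⟨h1 q, by exact_mod_cast a, by exact_mod_cast b⟩
    have rg : ∀ q : ℚ, 0 ≤ q → q < 2 → 0 ≤ f q ∧ f q < 2 := fun q a b => by
      rw [hf _ (inC q a b)]; exact (φ _).2.1.2
    have lo : (p : ℝ) ≤ f p := by
      rcases p0.eq_or_lt with rfl | h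
      · simpa using (rg 0 le_rfl p2).1
      · have := ex 0 p le_rfl h p2
        have h4 := (rg 0 le_rfl (by norm_num)).1
        push_cast at *; linarith
    have hi : f p ≤ p := by
      by_contra h
      have p2' : (p : ℝ) < 2 := by exact_mod_cast p2
      obtain ⟨b, b1, b2⟩ := exists_rat_btwn (show max (p : ℝ) (2 - (f p - p)) < 2 from
        max_lt p2' (by linarith))
      rw [max_lt_iff] at b1
      have b3 : p < b := by exact_mod_cast b1.1
      have b4 : b < 2 := by exact_mod_cast b2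
      have := ex p b p0 b3 b4
      have := (rg b (p0.trans b3.le) b4).2
      linarith [b1.2]
    exact (φ ⟨p, inC p p0 p2⟩).2.2 ((hf _ _).symm.trans (le_antisymm hi lo))
  refine ⟨↥(C \ {1}), ↥(C \ {0}), C, inferInstance, inferInstance, inferInstance,
    ⟨fun φ => ?_⟩, ⟨fun φ => ?_⟩, ⟨OrderEmbedding.ofStrictMono (inclusion diff_subset) fun _ _ h => h⟩,
    ⟨OrderEmbedding.ofStrictMono (inclusion diff_subset) fun _ _ h => h⟩, sup⟩
  · obtain ⟨ψ⟩ := sup _ ⟨φ⟩ ⟨RelEmbedding.refl _⟩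
    have := rigid 0 le_rfl (by norm_num)
    rw [Rat.cast_zero] at this
    exact this.false ψ
  · obtain ⟨ψ⟩ := sup _ ⟨RelEmbedding.refl _⟩ ⟨φ⟩
    have := rigid 1 (by norm_num) (by norm_num)
    rw [Rat.cast_one] at this
    exact this.false ψ

end Pool.Agent.S15597
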