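import Pool.Statements.S15651
import Pool.Agent.H15.Cot

set_option autoImplicit false
open Pool Pool.MP_fccb05_lc

namespace Pool.Agent.S15651

theorem result :
    ∃ (U V : ℕ × List ℕ → Prop), REPred U ∧ REPred V ∧
      (∀ X Y : Set ℕ,
        (∀ i : ℕ, (∃ l : List ℕ, U (i, l) ∧ ∀ k ∈ l, k ∈ X) →
          ∃ l : List ℕ, V (i, l) ∧ ∀ k ∈ l, k ∈ X) →
        (∀ i : ℕ, (∃ l : List ℕ, U (i, l) ∧ ∀ k ∈ l, k ∈ Y) →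
          ∃ l : List ℕ, V (i, l) ∧ ∀ k ∈ l, k ∈ Y) →
        X ⊆ Y → X = Y) ∧
      ∃ A : Set ℕ,
        (∀ i : ℕ, (∃ l : List ℕ, U (i, l) ∧ ∀ k ∈ l, k ∈ A) →
          ∃ l : List ℕ, V (i, l) ∧ ∀ k ∈ l, k ∈ A) ∧
        ∀ C : Set ℕ,
          (∃ W : ℕ × List ℕ → Prop, REPred W ∧
            ∀ n : ℕ, n ∈ C ↔ ∃ l : List ℕ, W (n, l) ∧ ∀ k ∈ l, k ∉ C) →
          ¬ ((∃ W : ℕ × List ℕ → Prop, REPred W ∧
                ∀ n : ℕ, n ∈ A ↔ ∃ l : List ℕ, W (n, l) ∧ ∀ k ∈ l, k ∈ C) ∧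
             (∃ W : ℕ × List ℕ → Prop, REPred W ∧
                ∀ n : ℕ, n ∈ C ↔ ∃ l : List ℕ, W (n, l) ∧ ∀ k ∈ l, k ∈ A)) := by
  open Pool.Agent.H15 Pool.Agent.H15.Cot in
  refine ⟨U, V, reU, reV, fun X Y hX hY => anti hX hY, ?_⟩
  let T := {S : Set (ℕ × List ℕ) // REPred fun p => p ∈ S}
  have : Countable T := Pool.Agent.H15.Sig.countable_re.to_subtype
  obtain ⟨y, hy, h⟩ := Pool.Agent.H15.Cot.generic (ι := T × T × T)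
    (fun e i L => {B | (∃ l2 : List ℕ, (Pool.Agent.H15.Cot.s i, l2) ∈ e.2.1.1 ∧
      ∀ k ∈ l2, ∃ l1 : List ℕ, (k, l1) ∈ e.1.1 ∧ ∀ j ∈ l1, j ∈ L) ∧
      ∀ j ∈ L, ¬ ∃ l : List ℕ, (j, l) ∈ e.2.2.1 ∧ ∀ k ∈ l, k ∈ B})
    (fun e i L B B' hB h => ⟨h.1, fun j hj ⟨l, h1, h2⟩ =>
      h.2 j hj ⟨l, h1, fun k hk => hB (h2 k hk)⟩⟩)
    (fun e i L => by
      refine IsClosed.inter isClosed_const (s₂ := {y | ∀ j ∈ L, ¬ ∃ l : List ℕ,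
        (j, l) ∈ e.2.2.1 ∧ ∀ k ∈ l, k ∈ Pool.Agent.H15.Cot.A y}) ?_
      simp only [Set.setOf_forall]
      refine isClosed_iInter fun j => isClosed_iInter fun _ => ?_
      refine IsOpen.isClosed_compl (s := {y | ∃ l : List ℕ, (j, l) ∈ e.2.2.1 ∧
        ∀ k ∈ l, k ∈ Pool.Agent.H15.Cot.A y}) ?_
      rw [Set.setOf_exists]
      refine isOpen_iUnion fun l => IsOpen.inter isOpen_const ?_
      have e : {y | ∀ k ∈ l, k ∈ Pool.Agent.H15.Cot.A y} =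
          ⋂ k ∈ l.toFinset, {y | k ∈ Pool.Agent.H15.Cot.A y} := by
        ext y
        simp
      show IsOpen {y | ∀ k ∈ l, k ∈ Pool.Agent.H15.Cot.A y}
      rw [e]
      exact isOpen_biInter_finset fun k _ => Pool.Agent.H15.Cot.op_mem k)
  refine ⟨_, hy, fun C ⟨W1, r1, h1⟩ ⟨⟨W2, r2, h2⟩, W3, r3, h3⟩ => ?_⟩
  obtain ⟨i, hi⟩ := h (⟨{p | W1 p}, r1⟩, ⟨{p | W2 p}, r2⟩, ⟨{p | W3 p}, r3⟩)
  refine hi ⟨fun h => ?_, fun ⟨L, ⟨l2, a, b⟩, c⟩ => ?_⟩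
  · obtain ⟨l2, a, b⟩ := (h2 _).1 h
    have : ∀ k, ∃ l : List ℕ, k ∈ l2 → W1 (k, l) ∧ ∀ j ∈ l, j ∉ C := fun k => by
      by_cases hk : k ∈ l2
      · obtain ⟨l, hl⟩ := (h1 k).1 (b k hk)
        exact ⟨l, fun _ => hl⟩
      · exact ⟨[], fun h => absurd h hk⟩
    choose g hg using this
    refine ⟨l2.flatMap g, ⟨l2, a, fun k hk => ⟨g k, (hg k hk).1, fun j hj =>
      List.mem_flatMap.2 ⟨k, hk, hj⟩⟩⟩, fun j hj hh => ?_⟩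
    obtain ⟨k, hk, hj⟩ := List.mem_flatMap.1 hj
    exact (hg k hk).2 j hj ((h3 j).2 hh)
  · refine (h2 _).2 ⟨l2, a, fun k hk => ?_⟩
    obtain ⟨l1, d1, d2⟩ := b k hk
    exact (h1 k).2 ⟨l1, d1, fun j hj hh => c j (d2 j hj) ((h3 j).1 hh)⟩

end Pool.Agent.S15651
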