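import Pool.Statements.S15734
import Pool.Agent.H6.BorgC

set_option autoImplicit false
open Pool Pool.MP_64ae42_mp

namespace Pool.Agent.S15734

open Pool.Agent.H6.Borg


/-- The negation of the preceding statement: Lift a Jacobi matrix (positive symmetric edge weights, potential b) on a finite connected graph to its universal cover tree; if the lifted operator on l2 of the tree has connected spectrum, then b is constant. -/
theorem result :
    ¬ (∀ (V D : Type) [Fintype V] [Fintype D] [DecidableEq D] (src : D → V) (rev : D → D),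
    (∀ d, rev (rev d) = d) → (∀ d, rev d ≠ d) →
    (SimpleGraph.fromRel (fun u v : V => ∃ d, src d = u ∧ src (rev d) = v)).Connected →
    ∀ (a : D → ℝ) (b : V → ℝ), (∀ d, 0 < a d) → (∀ d, a (rev d) = a d) →
    ∀ (v0 : V) (S : Set (List D)),
      (∀ l : List D, l ∈ S ↔ ((∀ d ∈ l.head?, src d = v0) ∧
         ∀ (i : ℕ) (d e : D), l[i]? = some d → l[i+1]? = some e →
           (src e = src (rev d) ∧ e ≠ rev d))) →
    ∀ H : lp (fun _ : S => ℂ) 2 →L[ℂ] lp (fun _ : S => ℂ) 2,
      (∀ (f : lp (fun _ : S => ℂ) 2) (x : S),
        H f x = (b ((x.1.getLast?.map (fun d => src (rev d))).getD v0) : ℂ) * f x +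
          ∑' y : S, (∑ d : D, if (y.1 = x.1 ++ [d] ∨ x.1 = y.1 ++ [d]) then (a d : ℂ) else 0) * f y) →
      IsPreconnected (spectrum ℂ H) → ∀ u v : V, b u = b v) := by
  intro h
  obtain ⟨β, h0, h1⟩ := exists_connected
  have := h Bool D src rev (by decide) (by decide) ?_ (fun _ => 1) (bb β) (fun _ => one_pos)
    (fun _ => rfl) true S ?_ (H β) (fun f x => by simpa [vert] using H_formula β f x) h1 true false
  · simp only [bb, if_true, Bool.false_eq_true, if_false] at this
    linarith
  · have hadj : (SimpleGraph.fromRel (fun u v : Bool => ∃ d, src d = u ∧ src (rev d) = v)).Adj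
        true false := by
      rw [SimpleGraph.fromRel_adj]
      exact ⟨by decide, Or.inl ⟨(true, 2), rfl, rfl⟩⟩
    refine ⟨fun u v => ?_⟩
    cases u <;> cases v
    · rfl
    · exact hadj.symm.reachable
    · exact hadj.reachable
    · rfl
  · intro l
    refine and_congr Iff.rfl ?_
    rw [List.isChain_iff_getElem]
    constructor
    · intro hh i d e h1 h2
      obtain ⟨a2, rfl⟩ := List.getElem?_eq_some_iff.1 h2
      obtain ⟨a1, rfl⟩ := List.getElem?_eq_some_iff.1 h1
      exact hh i a2
    · intro hh i hi
      exact hh i _ _ (List.getElem?_eq_getElem (by omega)) (List.getElem?_eq_getElem hi)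

end Pool.Agent.S15734
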