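import Pool.Statements.S15828
import Pool.Agent.H21.FC

set_option autoImplicit false
open Pool Pool.MP_f387d3_mp

namespace Pool.Agent.S15828

open Pool.Agent.H21.FC

/-- The negation of the preceding statement: In the basic Feynman checkers model, with P(x,t) the squared norm of the checker-path amplitude at time t=n+1, there is a constant C such that every maximiser x of P(·,t) is within C of t/√2, for all t. -/
theorem result :
    ¬ (∃ C : ℝ, ∀ n : ℕ, ∀ x : ℤ,
      (∀ y : ℤ,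
        (2:ℝ) ^ (-(n:ℤ)) *
          ‖∑ s ∈ Finset.univ.filter
              (fun s : Fin (n+1) → Bool =>
                s 0 = true ∧ ∑ i, (if s i then (1:ℤ) else -1) = y),
            (-Complex.I) ^ ((Finset.univ.filter
              (fun i : Fin n => s i.castSucc ≠ s i.succ)).card)‖ ^ 2
        ≤
        (2:ℝ) ^ (-(n:ℤ)) *
          ‖∑ s ∈ Finset.univ.filter
              (fun s : Fin (n+1) → Bool =>
                s 0 = true ∧ ∑ i, (if s i then (1:ℤ) else -1) = x),
            (-Complex.I) ^ ((Finset.univ.filter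
              (fun i : Fin n => s i.castSucc ≠ s i.succ)).card)‖ ^ 2) →
      |(x:ℝ) - ((n:ℝ) + 1) / Real.sqrt 2| ≤ C) := by
  rintro ⟨C, hC⟩
  obtain ⟨K, hK⟩ := exists_nat_ge (|C| + 3)
  have hC0 := abs_nonneg C
  have hC1 := le_abs_self C
  have hK1 : 1 ≤ K := by exact_mod_cast (show (1 : ℝ) ≤ K by linarith)
  obtain ⟨m, hm, hinc⟩ := main K (100000 * K ^ 4) hK1 le_rfl
  set n : ℕ := 20 * (100000 * K ^ 4) with hn
  have hnK : 100 * (K : ℝ) ≤ n := by
    have : K ≤ K ^ 4 := Nat.le_self_pow (by norm_num) K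
    exact_mod_cast (show 100 * K ≤ n by omega)
  obtain ⟨x, -, hx⟩ := Finset.exists_max_image (Finset.Icc (-((n : ℤ) + 1)) (n + 1))
    (fun y => (R n y : ℝ) ^ 2 + (L n y : ℝ) ^ 2) ⟨0, by simp; omega⟩
  have hx' : ∀ y, (R n y : ℝ) ^ 2 + (L n y : ℝ) ^ 2 ≤ (R n x : ℝ) ^ 2 + (L n x : ℝ) ^ 2 := by
    intro y
    by_cases h : y ∈ Finset.Icc (-((n : ℤ) + 1)) (n + 1)
    · exact hx y h
    · rw [Finset.mem_Icc] at h
      have := supp n y (by omega)
      rw [this.1, this.2]
      simp only [Int.cast_zero, ne_eq, OfNat.ofNat_ne_zero, not_false_eq_true, zero_pow, add_zero]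
      positivity
  have h1 := hC n x fun y => by
    rw [normsq, normsq]
    exact mul_le_mul_of_nonneg_left (hx' y) (by positivity)
  obtain ⟨h2, h3⟩ := abs_le.1 h1
  have h4 : ¬ ((n : ℤ) + 1 < x ∨ x < -(n + 1) ∨ (x + n) % 2 = 0) := by
    intro h
    have a := supp n x h
    have b := hx' (n + 1)
    rw [a.1, a.2, (top n).1, (top n).2] at b
    norm_num at b
  obtain ⟨k, rfl⟩ : ∃ k : ℕ, x = n + 1 - 2 * k := ⟨((n + 1 - x) / 2).toNat, by omega⟩
  have s2 : (0 : ℝ) < Real.sqrt 2 := by positivity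
  have s3 : Real.sqrt 2 * Real.sqrt 2 = 2 := Real.mul_self_sqrt (by norm_num)
  obtain ⟨s, hs⟩ : ∃ s, s = ((n : ℝ) + 1) / Real.sqrt 2 := ⟨_, rfl⟩
  have hs0 : 0 < s := by rw [hs]; positivity
  have hs2 : 2 * s ^ 2 = ((n : ℝ) + 1) ^ 2 := by
    rw [hs, div_pow, sq (Real.sqrt 2), s3]; ring
  rw [← hs] at h2 h3
  push_cast at h2 h3 hm
  have k1 : 1 ≤ k := by
    by_contra h
    obtain rfl : k = 0 := by omega
    have : 9 / 10 * ((n : ℝ) + 1) ≤ s := by simp at h3; linarith
    nlinarith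
  have k2 : k + 1 ≤ m + K := by
    have a : (n : ℝ) - 2 * (m + 1) < s := by
      by_contra h
      nlinarith
    have : (k : ℝ) + 1 ≤ m + K := by linarith
    exact_mod_cast this
  have a := hinc k k1 k2
  rw [← sq_uv, ← sq_uv] at a
  exact absurd (hx' _) (not_le.2 a)

end Pool.Agent.S15828
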