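import Pool.Statements.S15847

set_option autoImplicit false
open Pool Pool.MP_01cdf7_nt

namespace Pool.Agent.S15847

open Filter Topology Finset

lemma ultra (U : Ultrafilter ℕ) (f : ℕ → ℕ) :
    (∃ a, ∀ᶠ n in U, f n = a) ∨ Tendsto f U atTop := by
  by_cases h : ∃ a, ∀ᶠ n in U, f n = a
  · exact Or.inl h
  push Not at h
  refine Or.inr (tendsto_atTop.2 fun b => ?_)
  have : ∀ᶠ n in U, ∀ a ∈ range b, f n ≠ a :=
    (eventually_all_finset _).2 fun a _ => Ultrafilter.eventually_not.2 (by simpa using h a)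
  exact this.mono fun n hn => not_lt.1 fun l => hn _ (mem_range.2 l) rfl

noncomputable def gg (p a : ℕ) : ℝ := ((∑ k ∈ range (a + 1), p ^ k : ℕ) : ℝ) / p ^ a

lemma gg_eq {p : ℕ} (hp : 2 ≤ p) (a : ℕ) : gg p a = (p - (1 / p : ℝ) ^ a) / (p - 1) := by
  have h1 : (2 : ℝ) ≤ p := by exact_mod_cast hp
  have h2 : (p : ℝ) - 1 ≠ 0 := by linarith
  have h3 : (p : ℝ) ≠ 0 := by linarith
  rw [gg]
  push_cast
  rw [geom_sum_eq (by linarith), one_div_pow]
  field_simp
  ring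

lemma gg_gt {p a : ℕ} (hp : 2 ≤ p) (ha : 1 ≤ a) : 1 < gg p a := by
  have h1 : (2 : ℝ) ≤ p := by exact_mod_cast hp
  rw [gg_eq hp, lt_div_iff₀ (by linarith)]
  have : (1 / p : ℝ) ^ a < 1 := pow_lt_one₀ (by positivity)
    (by rw [div_lt_one (by linarith)]; linarith) (by omega)
  linarith

lemma gg_le {p M : ℕ} (a : ℕ) (hp : M + 2 ≤ p) : gg p a ≤ 1 + 1 / (M + 1 : ℝ) := by
  have h1 : (M + 2 : ℝ) ≤ p := by exact_mod_cast hp
  have h0 : (0 : ℝ) ≤ M := M.cast_nonneg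
  have h2 : (1 : ℝ) / (p - 1) ≤ 1 / (M + 1) := one_div_le_one_div_of_le (by linarith) (by linarith)
  have h3 : (0 : ℝ) ≤ (1 / p : ℝ) ^ a := by positivity
  rw [gg_eq (by omega), div_le_iff₀ (by linarith)]
  rw [div_le_iff₀ (by linarith)] at h2
  linarith

lemma sig_eq {n : ℕ} (hn : n ≠ 0) : ((∑ i ∈ n.divisors, i : ℕ) : ℝ) / n =
    ∏ p ∈ n.primeFactors, gg p (n.factorization p) := by
  simp only [gg]
  rw [prod_div_distrib, Nat.sum_divisors hn, Nat.cast_prod]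
  congr 1
  conv_lhs => rw [← Nat.prod_factorization_pow_eq_self hn]
  simp [Finsupp.prod]

/-- For every k ≥ 3, only finitely many odd n have exactly k distinct prime factors and a divisor d < n with sum of divisors of n equal to 2n − d. -/
theorem result :
    ∀ k : ℕ, 3 ≤ k →
      Set.Finite {n : ℕ | Odd n ∧ n.primeFactors.card = k ∧
        ∃ d : ℕ, d ∣ n ∧ d < n ∧ (∑ i ∈ n.divisors, i) + d = 2 * n} := by
  classical
  intro k _
  by_contra hinf
  have := Set.Infinite.cofinite_inf_principal_neBot hinf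
  obtain ⟨U, hU⟩ := Ultrafilter.exists_le (cofinite ⊓ 𝓟 {n : ℕ | Odd n ∧ n.primeFactors.card = k ∧
    ∃ d : ℕ, d ∣ n ∧ d < n ∧ (∑ i ∈ n.divisors, i) + d = 2 * n})
  have hc : ∀ c : ℕ, ∀ᶠ n in U, n ≠ c := fun c =>
    (eventually_cofinite_ne c).filter_mono (hU.trans inf_le_left)
  have hS : ∀ᶠ n in U, Odd n ∧ n.primeFactors.card = k ∧
    ∃ d : ℕ, d ∣ n ∧ d < n ∧ (∑ i ∈ n.divisors, i) + d = 2 * n :=
    hU (mem_inf_of_right (mem_principal_self _))
  have fin : {p | ∀ᶠ n in U, p ∈ Nat.primeFactors n}.Finite := by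
    by_contra h
    obtain ⟨F, h1, h2⟩ := Set.Infinite.exists_subset_card_eq h (k + 1)
    obtain ⟨n, h3, h4⟩ := (((eventually_all_finset F).2 fun p hp => h1 hp).and hS).exists
    have := card_le_card (s := F) h3
    omega
  obtain ⟨Q, hQ⟩ : ∃ Q : Finset ℕ, ∀ p, p ∈ Q ↔ ∀ᶠ n in U, p ∈ Nat.primeFactors n :=
    ⟨fin.toFinset, fun p => fin.mem_toFinset⟩
  have hsub : ∀ᶠ n in U, Q ⊆ Nat.primeFactors n :=
    (eventually_all_finset Q).2 fun p hp => (hQ p).1 hp
  have loc : ∀ p, ∃ u w : ℕ, p ∈ Q → Odd u ∧ w ≠ 0 ∧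
      Tendsto (fun n : ℕ => gg p (n.factorization p)) U (𝓝 (u / w)) ∧
      (Odd w → ∃ a, ∀ᶠ n : ℕ in U, n.factorization p = a) := by
    intro p
    by_cases hp : p ∈ Q
    swap
    · exact ⟨0, 0, fun h => absurd h hp⟩
    rcases ultra U (fun n => n.factorization p) with ⟨a, ha⟩ | ha
    · obtain ⟨n, ⟨h1, h2⟩, h3, -, d, h4, -, h5⟩ := ((((hQ p).1 hp).and ha).and hS).exists
      refine ⟨∑ k ∈ range (a + 1), p ^ k, p ^ a, fun _ => ⟨?_,
        pow_ne_zero _ (Nat.prime_of_mem_primeFactors h1).ne_zero, ?_, fun _ => ⟨a, ha⟩⟩⟩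
      · have h6 : Odd (∑ i ∈ n.divisors, i) := by
          obtain ⟨e, he⟩ := h3.of_dvd_nat h4
          exact Nat.odd_iff.2 (by omega)
        rw [Nat.sum_divisors h3.pos.ne'] at h6
        rw [← h2]
        exact h6.of_dvd_nat (dvd_prod_of_mem _ h1)
      · refine tendsto_const_nhds.congr' (ha.mono fun n hn => ?_)
        simp only [gg, hn, Nat.cast_pow]
    · obtain ⟨n, h1, h3, -⟩ := (((hQ p).1 hp).and hS).exists
      have hp2 := (Nat.prime_of_mem_primeFactors h1).two_le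
      have hp3 : Odd p := h3.of_dvd_nat (Nat.dvd_of_mem_primeFactors h1)
      have hp4 : (2 : ℝ) ≤ p := by exact_mod_cast hp2
      refine ⟨p, p - 1, fun _ => ⟨hp3, by omega, ?_, fun h => ?_⟩⟩
      · simp only [gg_eq hp2]
        rw [Nat.cast_sub (by omega), Nat.cast_one]
        have t := (tendsto_pow_atTop_nhds_zero_of_lt_one (r := (1 / p : ℝ)) (by positivity)
          (by rw [div_lt_one (by linarith)]; linarith)).comp ha
        simpa using (t.const_sub (p : ℝ)).div_const ((p : ℝ) - 1)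
      · rw [Nat.odd_iff] at h hp3
        omega
  choose u w huw using loc
  have t1 : Tendsto (fun n : ℕ => ∏ p ∈ Q, gg p (n.factorization p)) U
      (𝓝 (((∏ p ∈ Q, u p : ℕ) : ℝ) / ((∏ p ∈ Q, w p : ℕ) : ℝ))) := by
    push_cast
    rw [← prod_div_distrib]
    exact tendsto_finsetProd _ fun p hp => (huw p hp).2.2.1
  have g1 : ∀ n : ℕ, ∀ p ∈ n.primeFactors \ Q, 1 < gg p (n.factorization p) := fun n p hp => by
    have h := (mem_sdiff.1 hp).1
    exact gg_gt (Nat.prime_of_mem_primeFactors h).two_le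
      ((Nat.prime_of_mem_primeFactors h).factorization_pos_of_dvd
        (Nat.mem_primeFactors.1 h).2.2 (Nat.dvd_of_mem_primeFactors h))
  have t2 : Tendsto (fun n : ℕ => ∏ p ∈ n.primeFactors \ Q, gg p (n.factorization p)) U (𝓝 1) := by
    have t : Tendsto (fun M : ℕ => (1 + 1 / (M + 1 : ℝ)) ^ k) atTop (𝓝 1) := by
      simpa using (tendsto_one_div_add_atTop_nhds_zero_nat.const_add (1 : ℝ)).pow k
    refine tendsto_order.2 ⟨fun a ha => Eventually.of_forall fun n =>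
      ha.trans_le (prod_induction _ _ (fun _ _ => one_le_mul_of_one_le_of_one_le) le_rfl
        fun p hp => (g1 n p hp).le), fun a ha => ?_⟩
    obtain ⟨M, hM⟩ := ((tendsto_order.1 t).2 a ha).exists
    have : ∀ᶠ n : ℕ in U, ∀ p ∈ range (M + 2) \ Q, p ∉ n.primeFactors :=
      (eventually_all_finset _).2 fun p hp =>
        Ultrafilter.eventually_not.2 (mt (hQ p).2 (mem_sdiff.1 hp).2)
    filter_upwards [this, hS] with n h1 h2
    refine lt_of_le_of_lt ?_ hM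
    have b : (1 : ℝ) ≤ 1 + 1 / (M + 1 : ℝ) := le_add_of_nonneg_right (by positivity)
    refine (prod_le_prod (fun p hp => (zero_le_one.trans (g1 n p hp).le))
      (g := fun _ => 1 + 1 / (M + 1 : ℝ)) fun p hp => gg_le _ ?_).trans ?_
    · by_contra l
      exact h1 p (mem_sdiff.2 ⟨mem_range.2 (by omega), (mem_sdiff.1 hp).2⟩) (mem_sdiff.1 hp).1
    · rw [prod_const]
      exact pow_le_pow_right₀ b (h2.2.1 ▸ card_le_card sdiff_subset)
  have hD : ∀ n, ∃ D : ℕ, (Odd n ∧ n.primeFactors.card = k ∧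
      ∃ d : ℕ, d ∣ n ∧ d < n ∧ (∑ i ∈ n.divisors, i) + d = 2 * n) →
      Odd D ∧ ((∑ i ∈ n.divisors, i : ℕ) : ℝ) / n = 2 - 1 / D := by
    intro n
    by_cases h : Odd n ∧ n.primeFactors.card = k ∧
      ∃ d : ℕ, d ∣ n ∧ d < n ∧ (∑ i ∈ n.divisors, i) + d = 2 * n
    swap
    · exact ⟨0, fun h' => absurd h' h⟩
    obtain ⟨h1, -, d, ⟨D, h2⟩, -, h3⟩ := h
    have h4 : Odd D := h1.of_dvd_nat ⟨d, by rw [h2, mul_comm]⟩
    have h5 : Odd d := h1.of_dvd_nat ⟨D, h2⟩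
    refine ⟨D, fun _ => ⟨h4, ?_⟩⟩
    have h6 : ((∑ i ∈ n.divisors, i : ℕ) : ℝ) = 2 * n - d := by
      rw [eq_sub_iff_add_eq]; exact_mod_cast h3
    have h7 : (D : ℝ) ≠ 0 := by exact_mod_cast h4.pos.ne'
    have h8 : (d : ℝ) ≠ 0 := by exact_mod_cast h5.pos.ne'
    rw [h6, h2]
    push_cast
    field_simp
  choose D hD using hD
  have e1 : ∀ᶠ n : ℕ in U, (∏ p ∈ n.primeFactors \ Q, gg p (n.factorization p)) *
      ∏ p ∈ Q, gg p (n.factorization p) = 2 - 1 / (D n : ℝ) := by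
    filter_upwards [hsub, hS] with n h1 h2
    rw [prod_sdiff h1, ← sig_eq h2.1.pos.ne', (hD n h2).2]
  have t3 := (t2.mul t1).congr' e1
  rw [one_mul] at t3
  have uo : Odd (∏ p ∈ Q, u p) := prod_induction _ _ (fun _ _ => Odd.mul) odd_one
    fun p hp => (huw p hp).1
  have w0 : ((∏ p ∈ Q, w p : ℕ) : ℝ) ≠ 0 := Nat.cast_ne_zero.2 (prod_ne_zero_iff.2
    fun p hp => (huw p hp).2.1)
  rcases ultra U D with ⟨D0, h0⟩ | h0
  · obtain ⟨n0, h1, h2⟩ := (h0.and hS).exists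
    have d1 : Odd D0 := h1 ▸ (hD n0 h2).1
    have d2 : (D0 : ℝ) ≠ 0 := by exact_mod_cast d1.pos.ne'
    have e2 := tendsto_nhds_unique t3
      (tendsto_const_nhds (x := (2 - 1 / (D0 : ℝ))).congr' (h0.mono fun n hn => by simp only [hn]))
    have e3 : (∏ p ∈ Q, u p) * D0 + ∏ p ∈ Q, w p = 2 * (D0 * ∏ p ∈ Q, w p) := by
      have := e2
      field_simp at this
      exact_mod_cast (by push_cast at this ⊢; linarith : (((∏ p ∈ Q, u p) * D0 + ∏ p ∈ Q, w p : ℕ) : ℝ) =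
        (2 * (D0 * ∏ p ∈ Q, w p) : ℕ))
    have wo : Odd (∏ p ∈ Q, w p) := by
      have := Nat.odd_iff.1 (uo.mul d1)
      exact Nat.odd_iff.2 (by omega)
    have : ∀ p, ∃ a, p ∈ Q → ∀ᶠ n : ℕ in U, n.factorization p = a := fun p => by
      by_cases hp : p ∈ Q
      · obtain ⟨a, ha⟩ := (huw p hp).2.2.2 (wo.of_dvd_nat (dvd_prod_of_mem _ hp))
        exact ⟨a, fun _ => ha⟩
      · exact ⟨0, fun h => absurd h hp⟩
    choose a ha using this
    have e4 : ∀ᶠ n : ℕ in U, ∀ p ∈ Q, n.factorization p = a p := (eventually_all_finset Q).2 ha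
    have e5 := tendsto_nhds_unique t1 (tendsto_const_nhds (x := ∏ p ∈ Q, gg p (a p)).congr'
      (e4.mono fun n hn => prod_congr rfl fun p hp => by rw [hn p hp]))
    obtain ⟨n, ⟨⟨⟨⟨k1, k2⟩, k3⟩, k4⟩, k5⟩, k6⟩ :=
      (((((e1.and e4).and h0).and hsub).and hS).and (hc (∏ p ∈ Q, p ^ a p))).exists
    have k0 : ∏ p ∈ Q, gg p (n.factorization p) = ∏ p ∈ Q, gg p (a p) :=
      prod_congr rfl fun p hp => by rw [k2 p hp]
    rw [k0, ← e5, k3, ← e2,
      mul_eq_right₀ (div_ne_zero (Nat.cast_ne_zero.2 uo.pos.ne') w0)] at k1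
    have k7 : n.primeFactors = Q := by
      refine Subset.antisymm (sdiff_eq_empty_iff_subset.1 ?_) k4
      by_contra hne
      have := prod_lt_prod_of_nonempty (f := fun _ => (1 : ℝ)) (fun _ _ => one_pos) (g1 n)
        (nonempty_iff_ne_empty.2 hne)
      rw [prod_const_one, k1] at this
      exact lt_irrefl _ this
    refine k6 ?_
    conv_lhs => rw [← Nat.prod_factorization_pow_eq_self k5.1.pos.ne']
    rw [Finsupp.prod, Nat.support_factorization, k7]
    exact prod_congr rfl fun p hp => by rw [k2 p hp]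
  · have t4 : Tendsto (fun n => 2 - 1 / (D n : ℝ)) U (𝓝 2) := by
      simpa using ((tendsto_one_div_atTop_nhds_zero_nat (𝕜 := ℝ)).comp h0).const_sub 2
    have e2 := tendsto_nhds_unique t3 t4
    rw [div_eq_iff w0] at e2
    have e3 : ∏ p ∈ Q, u p = 2 * ∏ p ∈ Q, w p := by exact_mod_cast e2
    have := Nat.odd_iff.1 uo
    omega

end Pool.Agent.S15847
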