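import Pool.Statements.S15888

set_option autoImplicit false
open Pool Pool.MP_0426f4_nt

namespace Pool.Agent.S15888

/-- Two numbers with the same colour at scale `s` cannot differ by `2^j` up to an error `≤ 2^s`. -/
lemma scale_avoid (s j a₁ a₂ w b : ℕ) (hj : s + 1 ≤ j) (hw : w ≤ 2 ^ s)
    (hc : (a₁ / 2 ^ s) % 6 = (a₂ / 2 ^ s) % 6)
    (h1 : b + 1 * 2 ^ j ≤ a₁) (h1' : a₁ ≤ b + 1 * 2 ^ j + w)
    (h2 : b + 2 * 2 ^ j ≤ a₂) (h2' : a₂ ≤ b + 2 * 2 ^ j + w) : False := by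
  obtain ⟨e, rfl⟩ : ∃ e, j = s + 1 + e := ⟨j - (s + 1), by omega⟩
  have hpos : 0 < 2 ^ s := by positivity
  set u := 2 ^ s with hu
  have hpow : 2 ^ (s + 1 + e) = u * (2 * 2 ^ e) := by rw [hu]; ring
  have hmod : 2 ^ e % 3 = 1 ∨ 2 ^ e % 3 = 2 := by
    induction e with
    | zero => simp
    | succ k ih =>
      have : 2 ^ k % 3 = 1 ∨ 2 ^ k % 3 = 2 := by
        clear ih h1 h1' h2 h2' hpow hj
        induction k with
        | zero => simp
        | succ k ih => rw [pow_succ]; omega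
      rw [pow_succ]; omega
  rw [hpow] at h1 h1' h2 h2'
  set E := 2 ^ e with hE
  have d1 := Nat.div_add_mod a₁ u
  have d2 := Nat.div_add_mod a₂ u
  have r1 := Nat.mod_lt a₁ hpos
  have r2 := Nat.mod_lt a₂ hpos
  generalize a₁ / u = q₁ at *
  generalize a₂ / u = q₂ at *
  generalize a₁ % u = ρ₁ at *
  generalize a₂ % u = ρ₂ at *
  have e0 : u * (2 * E) = 2 * (u * E) := by ring
  rw [e0] at h1 h1' h2 h2'
  -- q₂ - q₁ lies in [2E-1, 2E+1]
  have lo : q₁ + 2 * E ≤ q₂ + 1 := by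
    by_contra hcon
    have h : q₂ + 2 ≤ q₁ + 2 * E := by omega
    have h' := Nat.mul_le_mul_left u h
    have e1 : u * (q₂ + 2) = u * q₂ + 2 * u := by ring
    have e2 : u * (q₁ + 2 * E) = u * q₁ + 2 * (u * E) := by ring
    rw [e1, e2] at h'
    omega
  have hi : q₂ ≤ q₁ + 2 * E + 1 := by
    by_contra hcon
    have h : q₁ + 2 * E + 2 ≤ q₂ := by omega
    have h' := Nat.mul_le_mul_left u h
    have e2 : u * (q₁ + 2 * E + 2) = u * q₁ + 2 * (u * E) + 2 * u := by ring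
    rw [e2] at h'
    omega
  omega

lemma cover (m k : ℕ) (hk : 1 ≤ k) (hk' : k < 2 ^ m) :
    ∃ i : Fin m, 2 ^ (i : ℕ) ≤ k ∧ k < 2 ^ ((i : ℕ) + 1) := by
  have h0 : k ≠ 0 := by omega
  refine ⟨⟨Nat.log 2 k, ?_⟩, Nat.pow_log_le_self 2 h0, Nat.lt_pow_succ_log_self (by norm_num) k⟩
  exact (Nat.log_lt_iff_lt_pow (by norm_num) h0).2 hk'

lemma analytic (m : ℕ) (hm : 13 ≤ m) :
    (6 : ℝ) ^ m ≤ Real.log ((2 ^ (2 ^ m) : ℕ) : ℝ) ^ Real.log (Real.log ((2 ^ (2 ^ m) : ℕ) : ℝ)) := by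
  have hl2 : (1 / 2 : ℝ) ≤ Real.log 2 := by
    have := Real.log_two_gt_d9
    linarith
  have hy : Real.log ((2 ^ (2 ^ m) : ℕ) : ℝ) = (2 : ℝ) ^ m * Real.log 2 := by
    push_cast
    rw [Real.log_pow]; push_cast; ring
  obtain ⟨p, rfl⟩ : ∃ p, m = p + 1 := ⟨m - 1, by omega⟩
  rw [hy]
  set y := (2 : ℝ) ^ (p + 1) * Real.log 2 with hydef
  have hp : (12 : ℝ) ≤ p := by exact_mod_cast (by omega : 12 ≤ p)
  have hy1 : (2 : ℝ) ^ p ≤ y := by
    rw [hydef, pow_succ]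
    have : (0 : ℝ) < 2 ^ p := by positivity
    nlinarith
  have hy2 : (1 : ℝ) ≤ 2 ^ p := one_le_pow₀ (by norm_num)
  have hlog : (6 : ℝ) ≤ Real.log y := by
    have h1 : Real.log ((2 : ℝ) ^ p) ≤ Real.log y := Real.log_le_log (by positivity) hy1
    rw [Real.log_pow] at h1
    nlinarith
  calc (6 : ℝ) ^ (p + 1) ≤ ((2 : ℝ) ^ p) ^ (6 : ℕ) := by
        have h1 : (6 : ℝ) ^ (p + 1) ≤ (8 : ℝ) ^ (p + 1) := pow_le_pow_left₀ (by norm_num) (by norm_num) _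
        have h2 : (8 : ℝ) ^ (p + 1) = 2 ^ (3 * (p + 1)) := by
          rw [pow_mul]; norm_num
        have h3 : ((2 : ℝ) ^ p) ^ (6 : ℕ) = 2 ^ (p * 6) := by rw [← pow_mul]
        rw [h3]
        refine h1.trans (h2 ▸ pow_le_pow_right₀ (by norm_num) (by omega))
    _ ≤ y ^ (6 : ℕ) := pow_le_pow_left₀ (by positivity) hy1 _
    _ = y ^ ((6 : ℕ) : ℝ) := (Real.rpow_natCast y 6).symm
    _ ≤ y ^ Real.log y := Real.rpow_le_rpow_of_exponent_le (hy2.trans hy1) (by exact_mod_cast hlog)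

/-- The negation of the preceding statement: For each t ≥ 3 and all large n, every A ⊆ [1,n] that meets no blocks b+id..b+id+w (i=1..t−1) simultaneously, for d a power of 2 and wn<d², has (∣A∣/n)·(log n)^(log log n) < 1. -/
theorem result :
    ¬ (∀ t : ℕ, 3 ≤ t → ∃ n₀ : ℕ, ∀ n : ℕ, n₀ ≤ n → ∀ A : Finset ℕ, A ⊆ Finset.Icc 1 n →
      (∀ j w : ℕ, w * n < (2 ^ j) ^ 2 →
        ¬ ∃ b : ℕ, ∀ i ∈ Finset.Icc 1 (t - 1),
          ∃ a ∈ A, b + i * 2 ^ j ≤ a ∧ a ≤ b + i * 2 ^ j + w) →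
      (A.card : ℝ) / n * Real.log n ^ Real.log (Real.log n) < 1) := by
  intro H
  obtain ⟨n₀, hn₀⟩ := H 3 le_rfl
  obtain ⟨m, hm⟩ : ∃ m, m = n₀ + 13 := ⟨_, rfl⟩
  obtain ⟨N, hN⟩ : ∃ N, N = 2 ^ m := ⟨_, rfl⟩
  obtain ⟨n, hn⟩ : ∃ n, n = 2 ^ N := ⟨_, rfl⟩
  have hmN : m < N := hN ▸ Nat.lt_two_pow_self
  have hNn : N < n := hn ▸ Nat.lt_two_pow_self
  have hnpos : 0 < n := by omega
  let f : ℕ → (Fin m → Fin 6) := fun a i => ⟨(a / 2 ^ (N - 2 ^ ((i : ℕ) + 1))) % 6, Nat.mod_lt _ (by norm_num)⟩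
  have hpig : ∃ y ∈ (Finset.univ : Finset (Fin m → Fin 6)),
      (n : ℝ) / 6 ^ m ≤ (((Finset.Icc 1 n).filter (fun a => f a = y)).card : ℝ) := by
    apply Finset.exists_le_card_fiber_of_nsmul_le_card_of_maps_to (fun _ _ => Finset.mem_univ _)
      Finset.univ_nonempty
    simp only [Finset.card_univ, Fintype.card_fun, Fintype.card_fin, Nat.card_Icc, nsmul_eq_mul]
    push_cast
    rw [mul_div_cancel₀ _ (by positivity)]
  obtain ⟨y, -, hy⟩ := hpig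
  obtain ⟨A, hA⟩ : ∃ A, A = (Finset.Icc 1 n).filter (fun a => f a = y) := ⟨_, rfl⟩
  rw [← hA] at hy
  have hlt := hn₀ n (by omega) A (hA ▸ Finset.filter_subset _ _) (by
    intro j w hw ⟨b, hb⟩
    obtain ⟨a₁, ha₁, h1, h1'⟩ := hb 1 (by simp)
    obtain ⟨a₂, ha₂, h2, h2'⟩ := hb 2 (by simp)
    rw [hA, Finset.mem_filter, Finset.mem_Icc] at ha₁ ha₂
    have hf : f a₁ = f a₂ := ha₁.2.trans ha₂.2.symm
    have hjN : j < N := by
      have : 2 ^ (j + 1) ≤ 2 ^ N := by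
        rw [pow_succ]; omega
      have := (Nat.pow_le_pow_iff_right (by norm_num : 1 < 2)).1 this
      omega
    rcases Nat.eq_zero_or_pos j with rfl | hj0
    · -- d = 1, w = 0
      have hw0 : w = 0 := by
        rcases Nat.eq_zero_or_pos w with h | h
        · exact h
        · have := Nat.mul_le_mul_right n h
          simp at hw
          omega
      subst hw0
      have hi := congrFun hf ⟨n₀ + 12, by omega⟩
      have hs : N - 2 ^ (n₀ + 12 + 1) = 0 := by rw [hN, hm]; exact Nat.sub_self _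
      simp only [f, Fin.mk.injEq, hs, pow_zero, Nat.div_one] at hi
      simp only [pow_zero] at h1 h1' h2 h2'
      omega
    · obtain ⟨i, hi1, hi2⟩ := cover m (N - j) (by omega) (by omega)
      have hi := congrFun hf i
      simp only [f, Fin.mk.injEq] at hi
      have hiN : 2 ^ ((i : ℕ) + 1) ≤ N := by
        rw [hN]; exact Nat.pow_le_pow_right (by norm_num) i.2
      refine scale_avoid (N - 2 ^ ((i : ℕ) + 1)) j a₁ a₂ w b (by omega) ?_ hi h1 h1' h2 h2'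
      by_contra hcon
      have h3 : 2 ^ (N - 2 ^ ((i : ℕ) + 1)) * n ≤ w * n := Nat.mul_le_mul_right n (by omega)
      have h4 : 2 ^ (N - 2 ^ ((i : ℕ) + 1)) * n < (2 ^ j) ^ 2 := lt_of_le_of_lt h3 hw
      rw [hn, ← pow_add, ← pow_mul] at h4
      have h5 := (Nat.pow_lt_pow_iff_right (by norm_num : 1 < 2)).1 h4
      rw [pow_succ] at hi2 hiN h5
      omega)
  have han := analytic m (by omega)
  rw [← hN, ← hn] at han
  have hnR : (0 : ℝ) < n := by exact_mod_cast hnpos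
  have h6 : (0 : ℝ) < 6 ^ m := by positivity
  have h7 : (1 : ℝ) / 6 ^ m ≤ (A.card : ℝ) / n := by
    rw [div_le_div_iff₀ h6 hnR]
    rw [div_le_iff₀ h6] at hy
    linarith
  have h8 : (1 : ℝ) / 6 ^ m * 6 ^ m ≤ (A.card : ℝ) / n * Real.log n ^ Real.log (Real.log n) :=
    mul_le_mul h7 han h6.le (by positivity)
  rw [div_mul_cancel₀ _ h6.ne'] at h8
  linarith

end Pool.Agent.S15888
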