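import Pool.Statements.S15987
import Pool.Agent.H24.Leg4

set_option autoImplicit false
open Pool Pool.MP_0c110c_nt

namespace Pool.Agent.S15987

/-- For every prime p ≥ 5 with p ≡ 3 mod 4, the integer matrix whose (j,k) entry is the Legendre symbol of j−k mod p, for j,k ranging over (p−3)/2 consecutive indices, has determinant 1. -/
theorem result :
    ∀ (p : ℕ) [Fact (Nat.Prime p)], 5 ≤ p → p % 4 = 3 →
      Matrix.det (Matrix.of (fun j k : Fin ((p - 3) / 2) =>
        legendreSym p (((j : ℕ) : ℤ) - ((k : ℕ) : ℤ)))) = 1 := by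
  intro p hp h5 h3
  obtain ⟨k, rfl⟩ : ∃ k, p = 2 * (2 * (k + 1) + 1) + 1 := ⟨(p - 7) / 4, by omega⟩
  have h := Pool.Agent.H24.Leg.det_minor (m := 2 * (k + 1)) (even_two_mul _) (by omega)
  have e : (2 * (2 * (k + 1) + 1) + 1 - 3) / 2 = 2 * (k + 1) := by omega
  rw [← h, ← Matrix.det_submatrix_equiv_self (finCongr e) (Pool.Agent.H24.Leg.Tm _ _)]
  rfl

end Pool.Agent.S15987
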