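import Pool.Statements.S16171

set_option autoImplicit false
open Filter Topology
open Pool Pool.MP_184037_nt

namespace Pool.Agent.S16171

open Finset

/-- small divisors part of `σ n / n` -/
noncomputable def sA (D n : ℕ) : ℝ := ∑ d ∈ (Ioc 0 D).filter (· ∣ n), (d : ℝ)⁻¹

/-- large divisors part of `σ n / n` -/
noncomputable def sR (D n : ℕ) : ℝ := ∑ d ∈ (n.divisors).filter (D < ·), (d : ℝ)⁻¹

lemma sA_nonneg (D n : ℕ) : 0 ≤ sA D n := sum_nonneg fun _ _ => by positivity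

lemma sR_nonneg (D n : ℕ) : 0 ≤ sR D n := sum_nonneg fun _ _ => by positivity

lemma sigma_eq (D n : ℕ) (hn : n ≠ 0) :
    ((ArithmeticFunction.sigma 1 n : ℕ) : ℝ) = n * (sA D n + sR D n) := by
  have h1 : ((ArithmeticFunction.sigma 1 n : ℕ) : ℝ) = ∑ d ∈ n.divisors, (n : ℝ) * (d : ℝ)⁻¹ := by
    rw [ArithmeticFunction.sigma_one_apply, ← Nat.sum_div_divisors n (fun d => d)]
    push_cast
    refine sum_congr rfl fun d hd => ?_
    have hd' := Nat.dvd_of_mem_divisors hd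
    have hd0 : d ≠ 0 := (Nat.pos_of_mem_divisors hd).ne'
    rw [Nat.cast_div hd' (by exact_mod_cast hd0), div_eq_mul_inv]
  rw [h1, ← mul_sum]
  congr 1
  rw [← sum_filter_add_sum_filter_not n.divisors (fun d => D < d), add_comm]
  unfold sA sR
  congr 1
  refine sum_congr ?_ fun _ _ => rfl
  ext d
  simp only [mem_filter, Nat.mem_divisors, mem_Ioc, not_lt]
  constructor
  · rintro ⟨⟨h, _⟩, h2⟩
    exact ⟨⟨Nat.pos_of_dvd_of_pos h (Nat.pos_of_ne_zero hn), h2⟩, h⟩
  · rintro ⟨⟨_, h2⟩, h⟩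
    exact ⟨⟨h, hn⟩, h2⟩

lemma sA_mod (D n : ℕ) : sA D (n % D.factorial) = sA D n := by
  unfold sA
  refine sum_congr ?_ fun _ _ => rfl
  ext d
  simp only [mem_filter, mem_Ioc]
  refine and_congr_right fun h => ?_
  exact Nat.dvd_mod_iff (Nat.dvd_factorial h.1 h.2)

lemma sum_sR (D x : ℕ) (hD : D ≠ 0) : ∑ n ∈ Ioc 0 x, sR D n ≤ (x : ℝ) / D := by
  have h1 : ∑ n ∈ Ioc 0 x, sR D n
      = ∑ d ∈ Ioc D x, ∑ n ∈ (Ioc 0 x).filter (d ∣ ·), (d : ℝ)⁻¹ := by
    unfold sR
    rw [sum_comm' (t' := Ioc D x) (s' := fun d => (Ioc 0 x).filter (d ∣ ·))]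
    intro n d
    simp only [mem_Ioc, mem_filter, Nat.mem_divisors]
    constructor
    · rintro ⟨⟨h0, hx⟩, ⟨hd, _⟩, hD'⟩
      exact ⟨⟨⟨h0, hx⟩, hd⟩, hD', (Nat.le_of_dvd h0 hd).trans hx⟩
    · rintro ⟨⟨⟨h0, hx⟩, hd⟩, hD', _⟩
      exact ⟨⟨h0, hx⟩, ⟨hd, h0.ne'⟩, hD'⟩
  rw [h1]
  have h2 : ∀ d ∈ Ioc D x, ∑ n ∈ (Ioc 0 x).filter (d ∣ ·), (d : ℝ)⁻¹ ≤ x * ((d : ℝ) ^ 2)⁻¹ := by
    intro d hd
    have hd0 : 0 < d := lt_of_le_of_lt (Nat.zero_le _) (mem_Ioc.1 hd).1
    have hd1 : (0 : ℝ) < d := by exact_mod_cast hd0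
    rw [sum_const, Nat.Ioc_filter_dvd_card_eq_div, nsmul_eq_mul]
    calc ((x / d : ℕ) : ℝ) * (d : ℝ)⁻¹ ≤ (x : ℝ) / d * (d : ℝ)⁻¹ := by
          gcongr; exact Nat.cast_div_le
      _ = x * ((d : ℝ) ^ 2)⁻¹ := by field_simp
  refine (sum_le_sum h2).trans ?_
  rw [← mul_sum]
  rcases le_total D x with h | h
  · have := sum_Ioc_inv_sq_le_sub (α := ℝ) hD h
    have h3 : (0 : ℝ) ≤ (x : ℝ)⁻¹ := by positivity
    rw [div_eq_mul_inv]
    gcongr
    linarith
  · rw [Ioc_eq_empty (by omega)]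
    simp only [sum_empty, mul_zero]
    positivity

lemma card_cong (T : Finset ℕ) (Q : ℕ) (hQ : 0 < Q) (W : ℝ) (hW : 0 ≤ W)
    (h1 : ∀ a ∈ T, ∀ b ∈ T, a % Q = b % Q) (h2 : ∀ a ∈ T, ∀ b ∈ T, (a : ℝ) - b ≤ W) :
    (T.card : ℝ) ≤ W / Q + 1 := by
  rcases T.eq_empty_or_nonempty with rfl | hT
  · simp only [card_empty, Nat.cast_zero]; positivity
  have hm := T.min'_mem hT
  set m := T.min' hT
  have hQ' : (0 : ℝ) < Q := by exact_mod_cast hQ
  have : T.card ≤ (range (⌊W / Q⌋₊ + 1)).card := by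
    refine card_le_card_of_injOn (fun a => (a - m) / Q) ?_ ?_
    · intro a ha
      have ha' : a ∈ T := ha
      have hma : m ≤ a := T.min'_le a ha'
      simp only [coe_range, Set.mem_Iio, Nat.lt_succ_iff]
      apply Nat.le_floor
      calc (((a - m) / Q : ℕ) : ℝ) ≤ ((a - m : ℕ) : ℝ) / Q := Nat.cast_div_le
        _ ≤ W / Q := by
          gcongr
          rw [Nat.cast_sub hma]; exact h2 a ha' m hm
    · intro a ha b hb hab
      have ha' : a ∈ T := ha
      have hb' : b ∈ T := hb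
      have hma : m ≤ a := T.min'_le a ha'
      have hmb : m ≤ b := T.min'_le b hb'
      have e1 : Q ∣ a - m := (Nat.modEq_iff_dvd' hma).1 (h1 m hm a ha')
      have e2 : Q ∣ b - m := (Nat.modEq_iff_dvd' hmb).1 (h1 m hm b hb')
      have e3 := Nat.mul_div_cancel' e1
      have e4 := Nat.mul_div_cancel' e2
      simp only at hab
      rw [hab] at e3
      omega
  rw [card_range] at this
  have h3 : (T.card : ℝ) ≤ (⌊W / Q⌋₊ : ℝ) + 1 := by exact_mod_cast this
  have h4 : (⌊W / Q⌋₊ : ℝ) ≤ W / Q := Nat.floor_le (by positivity)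
  linarith

lemma card_S2 (D x : ℕ) (L W : ℝ) (hW : 0 ≤ W) :
    ((((Ioc 0 x).filter (fun n : ℕ => L ≤ n * (1 + sA D n) ∧ n * (1 + sA D n) ≤ L + W)).card : ℕ) : ℝ)
      ≤ W + D.factorial := by
  set Q := D.factorial with hQdef
  have hQ : 0 < Q := Nat.factorial_pos D
  have hQ' : (0 : ℝ) < Q := by exact_mod_cast hQ
  set S := (Ioc 0 x).filter (fun n : ℕ => L ≤ n * (1 + sA D n) ∧ n * (1 + sA D n) ≤ L + W)
  rw [card_eq_sum_card_fiberwise (f := fun n => n % Q) (s := S) (t := range Q)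
    (fun n _ => by simpa using Nat.mod_lt n hQ)]
  push_cast
  have : ∀ r ∈ range Q, (((S.filter (fun n => n % Q = r)).card : ℕ) : ℝ) ≤ W / Q + 1 := by
    intro r _
    refine card_cong _ Q hQ W hW ?_ ?_
    · intro a ha b hb
      rw [(mem_filter.1 ha).2, (mem_filter.1 hb).2]
    · intro a ha b hb
      have ha1 := (mem_filter.1 (mem_filter.1 ha).1).2
      have hb1 := (mem_filter.1 (mem_filter.1 hb).1).2
      have e : sA D a = sA D b := by
        rw [← sA_mod D a, ← sA_mod D b, ← hQdef, (mem_filter.1 ha).2, (mem_filter.1 hb).2]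
      rw [e] at ha1
      have h0 := sA_nonneg D b
      by_cases hab : (a : ℝ) ≤ b
      · linarith
      · have : ((a : ℝ) - b) * (1 + sA D b) ≤ W := by nlinarith [ha1.2, hb1.1]
        nlinarith
  refine (sum_le_sum this).trans ?_
  rw [sum_const, card_range, nsmul_eq_mul]
  apply le_of_eq
  field_simp

lemma key (k x : ℕ) (hk : 0 < k) (hx : k * (k ^ 2).factorial ≤ x) :
    (Nat.card {n : ℕ //
          (x : ℝ) < (n : ℝ) + ((ArithmeticFunction.sigma 1 n : ℕ) : ℝ) ∧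
          (n : ℝ) + ((ArithmeticFunction.sigma 1 n : ℕ) : ℝ) < (x : ℝ) + x / k} : ℝ)
      ≤ 4 * ((x : ℝ) / k) := by
  have hk' : (1 : ℝ) ≤ k := by exact_mod_cast hk
  have hk0 : (0 : ℝ) < k := by linarith
  set D := k ^ 2 with hD
  set S1 := (Ioc 0 x).filter (fun n : ℕ => (k : ℝ)⁻¹ < sR D n)
  set S2 := (Ioc 0 x).filter (fun n : ℕ => (x : ℝ) - x / k ≤ n * (1 + sA D n) ∧
    n * (1 + sA D n) ≤ ((x : ℝ) - x / k) + 2 * (x / k))
  have hx0 : (0 : ℝ) ≤ x := by positivity
  have hxk : (x : ℝ) / k ≤ x := div_le_self hx0 hk'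
  have hsub : {n : ℕ | (x : ℝ) < (n : ℝ) + ((ArithmeticFunction.sigma 1 n : ℕ) : ℝ) ∧
          (n : ℝ) + ((ArithmeticFunction.sigma 1 n : ℕ) : ℝ) < (x : ℝ) + x / k}
      ⊆ ((S1 ∪ S2 : Finset ℕ) : Set ℕ) := by
    rintro n ⟨h1, h2⟩
    have hn : n ≠ 0 := by
      rintro rfl
      simp at h1
      linarith
    have hs : (n : ℝ) ≤ ((ArithmeticFunction.sigma 1 n : ℕ) : ℝ) := by
      have : n ≤ ArithmeticFunction.sigma 1 n := by
        rw [ArithmeticFunction.sigma_one_apply]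
        exact single_le_sum (f := fun d => d) (fun _ _ => Nat.zero_le _)
          (Nat.mem_divisors_self n hn)
      exact_mod_cast this
    have hnx : (n : ℝ) ≤ x := by linarith
    have hmem : n ∈ Ioc 0 x := mem_Ioc.2 ⟨Nat.pos_of_ne_zero hn, by exact_mod_cast hnx⟩
    rw [sigma_eq D n hn] at h1 h2
    have hn0 : (0 : ℝ) ≤ n := by positivity
    have hR := sR_nonneg D n
    simp only [coe_union, Set.mem_union, mem_coe]
    by_cases hc : (k : ℝ)⁻¹ < sR D n
    · exact Or.inl (mem_filter.2 ⟨hmem, hc⟩)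
    · refine Or.inr (mem_filter.2 ⟨hmem, ?_, ?_⟩)
      · push Not at hc
        have : (n : ℝ) * sR D n ≤ x / k := by
          rw [div_eq_mul_inv]; gcongr
        nlinarith
      · nlinarith [mul_nonneg hn0 hR]
  have hc1 : (S1.card : ℝ) ≤ x / k := by
    have h1 : (S1.card : ℝ) * (k : ℝ)⁻¹ ≤ ∑ n ∈ S1, sR D n := by
      rw [← nsmul_eq_mul, ← sum_const]
      exact sum_le_sum fun n hn => (mem_filter.1 hn).2.le
    have h2 : ∑ n ∈ S1, sR D n ≤ ∑ n ∈ Ioc 0 x, sR D n :=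
      sum_le_sum_of_subset_of_nonneg (filter_subset _ _) fun n _ _ => sR_nonneg D n
    have h3 := sum_sR D x (by positivity)
    have h4 : (S1.card : ℝ) * (k : ℝ)⁻¹ ≤ (x : ℝ) / k * (k : ℝ)⁻¹ := by
      refine h1.trans (h2.trans (h3.trans (le_of_eq ?_)))
      rw [hD]; push_cast; field_simp
    exact le_of_mul_le_mul_right h4 (by positivity)
  have hc2 : (S2.card : ℝ) ≤ 2 * (x / k) + D.factorial := card_S2 D x _ _ (by positivity)
  have hc3 : (D.factorial : ℝ) ≤ x / k := by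
    rw [le_div_iff₀ hk0]
    have : ((k * D.factorial : ℕ) : ℝ) ≤ x := by exact_mod_cast hx
    push_cast at this
    linarith
  have hc4 : Nat.card {n : ℕ //
          (x : ℝ) < (n : ℝ) + ((ArithmeticFunction.sigma 1 n : ℕ) : ℝ) ∧
          (n : ℝ) + ((ArithmeticFunction.sigma 1 n : ℕ) : ℝ) < (x : ℝ) + x / k}
      ≤ S1.card + S2.card := by
    refine le_trans ?_ (card_union_le S1 S2)
    have := Set.ncard_le_ncard hsub (Finset.finite_toSet _)
    rw [Set.ncard_coe_finset] at this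
    exact this
  have hc5 : (Nat.card {n : ℕ //
          (x : ℝ) < (n : ℝ) + ((ArithmeticFunction.sigma 1 n : ℕ) : ℝ) ∧
          (n : ℝ) + ((ArithmeticFunction.sigma 1 n : ℕ) : ℝ) < (x : ℝ) + x / k} : ℝ)
      ≤ (S1.card : ℝ) + S2.card := by exact_mod_cast hc4
  linarith

/-- the slowly growing parameter -/
noncomputable def kk (x : ℕ) : ℕ := Nat.findGreatest (fun k => k * (k * (k ^ 2).factorial) ≤ x) x

lemma kk_spec (x : ℕ) : kk x * (kk x * ((kk x) ^ 2).factorial) ≤ x :=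
  Nat.findGreatest_spec (P := fun k => k * (k * (k ^ 2).factorial) ≤ x) (Nat.zero_le x) (by simp)

lemma le_kk (k x : ℕ) (h : k * (k * (k ^ 2).factorial) ≤ x) : k ≤ kk x := by
  apply Nat.le_findGreatest (P := fun k => k * (k * (k ^ 2).factorial) ≤ x) _ h
  rcases Nat.eq_zero_or_pos k with rfl | hk
  · exact Nat.zero_le _
  · exact le_trans (Nat.le_mul_of_pos_right _ (Nat.mul_pos hk (Nat.factorial_pos _))) h

lemma kk_tendsto : Tendsto kk atTop atTop :=
  tendsto_atTop_atTop.2 fun k => ⟨k * (k * (k ^ 2).factorial), fun x hx => le_kk k x hx⟩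

/-- It is not true that for every F tending to infinity with F(n)/σ(n) → 0 off a density-zero set, every constant C is beaten by #{n : x < n+σ(n) < x+F(x)} / F(x) for infinitely many x. -/
theorem result :
    ¬ ∀ F : ℕ → ℝ, Tendsto F atTop atTop →
      (∀ ε : ℝ, 0 < ε →
        Tendsto (fun N : ℕ =>
          (((Finset.range N).filter
            (fun n => ε ≤ |F n / ((ArithmeticFunction.sigma 1 n : ℕ) : ℝ)|)).card : ℝ) / (N : ℝ))
          atTop (𝓝 0)) →
      ∀ C : ℝ, ∀ N : ℕ, ∃ x : ℕ, N < x ∧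
        C * F x < (Nat.card {n : ℕ //
          (x : ℝ) < (n : ℝ) + ((ArithmeticFunction.sigma 1 n : ℕ) : ℝ) ∧
          (n : ℝ) + ((ArithmeticFunction.sigma 1 n : ℕ) : ℝ) < (x : ℝ) + F x} : ℝ) := by
  intro h
  have hkR : Tendsto (fun x => (kk x : ℝ)) atTop atTop :=
    tendsto_natCast_atTop_atTop.comp kk_tendsto
  have hpos : ∀ x, 1 ≤ x → 0 < kk x := fun x hx => le_kk 1 x (by simpa using hx)
  have h1 : Tendsto (fun x : ℕ => (x : ℝ) / kk x) atTop atTop := by
    refine tendsto_atTop_mono' atTop ?_ hkR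
    filter_upwards [eventually_ge_atTop 1] with x hx
    have hk := hpos x hx
    have hk' : (0 : ℝ) < kk x := by exact_mod_cast hk
    rw [le_div_iff₀ hk']
    have : kk x * kk x ≤ x := le_trans (Nat.mul_le_mul_left _
      (Nat.le_mul_of_pos_right _ (Nat.factorial_pos _))) (kk_spec x)
    exact_mod_cast this
  obtain ⟨x, hx, hlt⟩ := h (fun x => (x : ℝ) / kk x) h1 (by
    intro ε hε
    obtain ⟨M, hM⟩ := eventually_atTop.1 (hkR.eventually_gt_atTop ε⁻¹)
    have hb : ∀ N : ℕ, (((Finset.range N).filter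
        (fun n : ℕ => ε ≤ |(n : ℝ) / kk n / ((ArithmeticFunction.sigma 1 n : ℕ) : ℝ)|)).card : ℝ)
          ≤ (M + 1 : ℕ) := by
      intro N
      have : ((Finset.range N).filter
        (fun n : ℕ => ε ≤ |(n : ℝ) / kk n / ((ArithmeticFunction.sigma 1 n : ℕ) : ℝ)|))
          ⊆ range (M + 1) := by
        intro n hn
        have hn' := (mem_filter.1 hn).2
        rw [mem_range]
        by_contra hc
        have hn0 : n ≠ 0 := by omega
        have h2 := hM n (by omega)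
        have hs : (n : ℝ) ≤ ((ArithmeticFunction.sigma 1 n : ℕ) : ℝ) := by
          have : n ≤ ArithmeticFunction.sigma 1 n := by
            rw [ArithmeticFunction.sigma_one_apply]
            exact single_le_sum (f := fun d => d) (fun _ _ => Nat.zero_le _)
              (Nat.mem_divisors_self n hn0)
          exact_mod_cast this
        have hn1 : (0 : ℝ) < n := by exact_mod_cast Nat.pos_of_ne_zero hn0
        have hk' : (0 : ℝ) < kk n := lt_trans (by positivity) h2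
        rw [abs_of_nonneg (by positivity), le_div_iff₀ (by linarith), le_div_iff₀ hk'] at hn'
        have h3 : 1 < ε * kk n := by
          have := mul_lt_mul_of_pos_left h2 hε
          rwa [mul_inv_cancel₀ hε.ne'] at this
        nlinarith
      have := card_le_card this
      rw [card_range] at this
      exact_mod_cast this
    refine squeeze_zero (fun N => by positivity) (fun N => ?_)
      (tendsto_const_div_atTop_nhds_zero_nat ((M + 1 : ℕ) : ℝ))
    exact div_le_div_of_nonneg_right (hb N) (by positivity)) 4 0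
  have hk := hpos x hx
  have := key (kk x) x hk (le_trans (Nat.le_mul_of_pos_left _ hk) (kk_spec x))
  exact absurd hlt (not_lt.2 this)

end Pool.Agent.S16171
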