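import Pool.Statements.S16206


set_option autoImplicit false
open Pool Pool.MP_1bbd34_nt

namespace Pool.Agent.S16206

/-- The negation of the preceding statement: For every n with consecutive primes p < n ≤ q, some prime dividing n(n+1) exceeds min(n − p, q − n); equivalently, the largest prime factor of n(n+1) exceeds that minimum. -/
theorem result :
    ¬ (∀ n p q : ℕ, p.Prime → q.Prime → p < n → n ≤ q →
      (∀ r : ℕ, r.Prime → p < r → r < q → False) →
      ∃ r : ℕ, r.Prime ∧ r ∣ n * (n + 1) ∧ min (n - p) (q - n) < r) := by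
  intro h
  have hp : Nat.Prime 11859187 := by norm_num
  have hq : Nat.Prime 11859233 := by norm_num
  obtain ⟨r, hr, hd, hlt⟩ := h 11859210 11859187 11859233 hp hq (by norm_num) (by norm_num) (by
    intro r hr h1 h2
    interval_cases r <;> revert hr <;> norm_num)
  have e : 11859210 * (11859210 + 1) = 2 * 3 ^ 4 * 5 * 11 ^ 4 * (7 * 13 * 19 ^ 4) := by norm_num
  rw [e] at hd
  have h23 : 23 < r := by simpa using hlt
  have k : ∀ m : ℕ, 0 < m → m ≤ 23 → ¬ r ∣ m := fun m hm hm2 hd =>
    absurd (Nat.le_of_dvd hm hd) (by omega)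
  have k2 : ∀ m j : ℕ, 0 < m → m ≤ 23 → ¬ r ∣ m ^ j := fun m j hm hm2 hd =>
    k m hm hm2 (hr.dvd_of_dvd_pow hd)
  simp only [hr.dvd_mul] at hd
  rcases hd with (((hd | hd) | hd) | hd) | ((hd | hd) | hd)
  · exact k _ (by norm_num) (by norm_num) hd
  · exact k2 _ _ (by norm_num) (by norm_num) hd
  · exact k _ (by norm_num) (by norm_num) hd
  · exact k2 _ _ (by norm_num) (by norm_num) hd
  · exact k _ (by norm_num) (by norm_num) hd
  · exact k _ (by norm_num) (by norm_num) hd
  · exact k2 _ _ (by norm_num) (by norm_num) hd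

end Pool.Agent.S16206
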