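import Pool.Statements.S16227
import Pool.Agent.H24.Transl

set_option autoImplicit false
open N41f07a28
open Asymptotics Filter
open Pool Pool.MP_1d29c3_nt

namespace Pool.Agent.S16227

/-- There exists a set P of primes with both P and its complement in the primes having ≫ x/log x elements up to x, such that the set of positive integers with all prime factors in P has the translation property. -/
theorem result :
    ∃ P : Set ℕ, P ⊆ {p : ℕ | p.Prime} ∧ (fun x : ℕ ↦ (x : ℝ) / Real.log x) =O[atTop] (fun x ↦ ((P ∩ Set.Iic x).ncard : ℝ)) ∧ (fun x : ℕ ↦ (x : ℝ) / Real.log x) =O[atTop] (fun x ↦ ((({p : ℕ | p.Prime} \ P) ∩ Set.Iic x).ncard : ℝ)) ∧ HasTranslationProperty (composedOf P) := by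
  classical
  choose G hG1 hG2 t ht1 ht2 using fun n => Pool.Agent.H24.Transl.forced n (2 ^ (n + 3))
  refine ⟨{p | p.Prime ∧ (Nat.count Nat.Prime p % 2 = 0 ∨ ∃ n, p ∈ G n)}, fun p hp => hp.1, ?_, ?_, ?_⟩
  · refine Pool.Agent.H24.Transl.bigO _ fun x => ?_
    obtain ⟨S, hS, hS2⟩ := Pool.Agent.H24.Transl.half 0 x (by norm_num)
    have h1 : (S : Set ℕ).ncard ≤ ({p | p.Prime ∧ (Nat.count Nat.Prime p % 2 = 0 ∨ ∃ n, p ∈ G n)} ∩
        Set.Iic x).ncard :=
      Set.ncard_le_ncard (fun p hp => ⟨⟨(hS2 p hp).1, Or.inl (hS2 p hp).2.2⟩, (hS2 p hp).2.1⟩)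
        ((Set.finite_Iic x).inter_of_right _)
    rw [Set.ncard_coe_finset] at h1
    have h2 : (S.card : ℝ) ≤ _ := Nat.cast_le.2 h1
    have h3 : (0 : ℝ) ≤ Nat.primeCounting x := by positivity
    linarith
  · refine Pool.Agent.H24.Transl.bigO _ fun x => ?_
    obtain ⟨S, hS, hS2⟩ := Pool.Agent.H24.Transl.half 1 x (by norm_num)
    let B : Finset ℕ := (Finset.range x).biUnion fun n => (G n).filter (· ≤ x)
    have h1 : ((S \ B : Finset ℕ) : Set ℕ).ncard ≤ (({p : ℕ | p.Prime} \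
        {p | p.Prime ∧ (Nat.count Nat.Prime p % 2 = 0 ∨ ∃ n, p ∈ G n)}) ∩ Set.Iic x).ncard := by
      refine Set.ncard_le_ncard (fun p hp => ?_) ((Set.finite_Iic x).inter_of_right _)
      rw [Finset.mem_coe, Finset.mem_sdiff] at hp
      obtain ⟨h1, h2, h3⟩ := hS2 p hp.1
      refine ⟨⟨h1, ?_⟩, h2⟩
      rintro ⟨_, h | ⟨n, hn⟩⟩
      · omega
      · exact hp.2 (Finset.mem_biUnion.2 ⟨n, Finset.mem_range.2 (lt_of_lt_of_le (hG1 n p hn).2 h2),
          Finset.mem_filter.2 ⟨hn, h2⟩⟩)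
    rw [Set.ncard_coe_finset] at h1
    have h2 : (((S \ B).card : ℕ) : ℝ) ≤ _ := Nat.cast_le.2 h1
    have h3 : (S.card : ℝ) ≤ (S \ B).card + B.card := by
      exact_mod_cast Finset.card_le_card_sdiff_add_card
    have h4 : (B.card : ℝ) ≤ ∑ n ∈ Finset.range x, (Nat.primeCounting x : ℝ) / 2 ^ (n + 3) := by
      refine le_trans (Nat.cast_le.2 Finset.card_biUnion_le) ?_
      push_cast
      refine Finset.sum_le_sum fun n _ => ?_
      rw [le_div_iff₀ (by positivity), mul_comm]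
      exact_mod_cast hG2 n x
    have h5 := Pool.Agent.H24.Transl.geo x (Nat.primeCounting x : ℝ)
    have h6 : (0 : ℝ) ≤ (Nat.primeCounting x : ℝ) / 2 ^ (x + 2) := by positivity
    linarith
  · intro n
    refine ⟨t n, ht1 n, fun a ha han => ?_⟩
    obtain ⟨c, hc, hcG⟩ := ht2 n a ha han
    constructor
    · rintro ⟨_, h⟩
      refine ⟨by omega, fun p hp hd => ?_⟩
      rw [hc] at hd
      rcases hp.dvd_mul.1 hd with h1 | h1
      · exact h p hp h1
      · exact ⟨hp, Or.inr ⟨n, hcG p hp h1⟩⟩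
    · rintro ⟨_, h⟩
      exact ⟨ha, fun p hp hd => h p hp (hc ▸ hd.mul_right c)⟩

end Pool.Agent.S16227
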