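import Pool.Statements.S16290
import Pool.Agent.H12.CFTools

set_option autoImplicit false
open Filter Topology
open scoped Classical
open Pool Pool.MP_219c9f_nt

namespace Pool.Agent.S16290

open MeasureTheory Pool.Agent.H12.CFTools

noncomputable def g (k : ℕ) : ℝ := Real.logb 2 (1 + 1 / (k : ℝ))

noncomputable def p (k : ℕ) : ℝ := Real.logb 2 (1 + 1 / ((k : ℝ) * ((k : ℝ) + 2)))

lemma p_eq (k : ℕ) (hk : 1 ≤ k) : p k = g k - g (k + 1) := by
  have : (0 : ℝ) < k := by exact_mod_cast hk
  rw [p, g, g, ← Real.logb_div (by positivity) (by positivity)]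
  congr 1
  push_cast
  field_simp
  ring

lemma p_nonneg (k : ℕ) : 0 ≤ p k :=
  Real.logb_nonneg one_lt_two (le_add_of_nonneg_right (by positivity))

lemma g_one : g 1 = 1 := by norm_num [g]

lemma g_lim : Tendsto g atTop (𝓝 0) := by
  have h1 : Tendsto (fun k : ℕ => 1 + 1 / (k : ℝ)) atTop (𝓝 (1 + 0)) :=
    tendsto_const_nhds.add (tendsto_const_div_atTop_nhds_zero_nat 1)
  have h2 := ((Real.continuousAt_log (x := 1 + 0) (by norm_num)).tendsto.comp h1).div_const
    (Real.log 2)
  unfold g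
  simpa [Real.logb] using h2

lemma g2_pos : 0 < g 2 := Real.logb_pos one_lt_two (by norm_num)

lemma ineq1 : g 2 ≤ 2 / 3 := by
  have h : Real.logb 2 ((1 + 1 / ((2 : ℕ) : ℝ)) ^ 3) ≤ Real.logb 2 (2 ^ 2) :=
    Real.logb_le_logb_of_le one_lt_two (by norm_num) (by norm_num)
  rw [Real.logb_pow, Real.logb_pow, Real.logb_self_eq_one one_lt_two] at h
  unfold g
  push_cast at h ⊢
  linarith

lemma ineq2 : 2 + 2 * g 3 ≤ 5 * g 2 := by
  have h : Real.logb 2 (2 ^ 2 * (1 + 1 / ((3 : ℕ) : ℝ)) ^ 2) ≤
      Real.logb 2 ((1 + 1 / ((2 : ℕ) : ℝ)) ^ 5) :=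
    Real.logb_le_logb_of_le one_lt_two (by norm_num) (by norm_num)
  rw [Real.logb_mul (by norm_num) (by norm_num), Real.logb_pow, Real.logb_pow, Real.logb_pow,
    Real.logb_self_eq_one one_lt_two] at h
  unfold g
  push_cast at h ⊢
  linarith

lemma ineq3 : g 4 < 1 / 3 := by
  have h : Real.logb 2 ((1 + 1 / ((4 : ℕ) : ℝ)) ^ 3) < Real.logb 2 2 :=
    Real.logb_lt_logb one_lt_two (by norm_num) (by norm_num)
  rw [Real.logb_pow, Real.logb_self_eq_one one_lt_two] at h
  unfold g
  push_cast at h ⊢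
  linarith

lemma hasSum_w : HasSum (fun k : ℕ => p (k + 2) / g 2) 1 := by
  rw [hasSum_iff_tendsto_nat_of_nonneg fun k => div_nonneg (p_nonneg _) g2_pos.le]
  have h : ∀ n, ∑ k ∈ Finset.range n, p (k + 2) / g 2 = (g 2 - g (n + 2)) / g 2 := by
    intro n
    induction n with
    | zero => simp
    | succ n ih => rw [Finset.sum_range_succ, ih, p_eq _ (by omega)]; ring
  simp only [h]
  have := ((g_lim.comp (tendsto_add_atTop_nat 2)).const_sub (g 2)).div_const (g 2)
  rwa [sub_zero, div_self g2_pos.ne'] at this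

noncomputable def ν : Measure ℕ :=
  Measure.sum fun k => ENNReal.ofReal (p (k + 2) / g 2) • Measure.dirac k

instance : IsProbabilityMeasure ν := ⟨by
  rw [ν, Measure.sum_apply _ MeasurableSet.univ]
  simp only [Measure.smul_apply, measure_univ, smul_eq_mul, mul_one]
  rw [← ENNReal.ofReal_tsum_of_nonneg (fun k => div_nonneg (p_nonneg _) g2_pos.le)
    hasSum_w.summable, hasSum_w.tsum_eq, ENNReal.ofReal_one]⟩

lemma ν_single (k : ℕ) : ν.real {k} = p (k + 2) / g 2 := by
  rw [Measure.real, ν, Measure.sum_apply _ (measurableSet_singleton k), tsum_eq_single k]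
  · simp [div_nonneg (p_nonneg _) g2_pos.le]
  · intro j hj
    simp [hj]

lemma blocks : ∃ c e : ℕ → ℕ, (∀ j, 2 ≤ c j) ∧
    (∀ j, (Odd (c j) ∧ e j = 1) ∨ (Even (c j) ∧ (e j = 0 ∨ e j = 3))) ∧
    Tendsto (fun n : ℕ => (∑ j ∈ Finset.range n, (e j : ℝ)) / n) atTop (𝓝 (2 * p 1 / g 2)) ∧
    ∀ k, 2 ≤ k → Tendsto (fun n : ℕ => (∑ j ∈ Finset.range n, if c j = k then (1 : ℝ) else 0) / n)
      atTop (𝓝 (p k / g 2)) := by
  set o := ν.real {k | Odd k} with ho
  have h0 : 0 ≤ o := measureReal_nonneg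
  have hg := g2_pos
  have h1 : o ≤ 1 - p 2 / g 2 := by
    rw [← ν_single 0, ← probReal_compl_eq_one_sub (measurableSet_singleton 0)]
    apply measureReal_mono
    · rintro k hk rfl
      exact absurd hk (by decide)
    · finiteness
  have e1 : p 1 = 1 - g 2 := by rw [p_eq 1 le_rfl, g_one]
  have e2 : p 2 = g 2 - g 3 := p_eq 2 (by norm_num)
  have hp2 : 0 < p 2 / g 2 := div_pos (Real.logb_pos one_lt_two (by norm_num)) hg
  have h2 : 1 ≤ 2 * p 1 / g 2 := by rw [le_div_iff₀ hg]; linarith [ineq1]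
  have h3 : 2 * p 1 / g 2 ≤ 1 + 2 * (p 2 / g 2) := by
    rw [div_le_iff₀ hg, add_mul, mul_assoc, div_mul_cancel₀ _ hg.ne']
    linarith [ineq2]
  let θ : unitInterval := ⟨(2 * p 1 / g 2 - o) / (3 * (1 - o)),
    div_nonneg (by linarith) (by linarith), (div_le_one (by linarith)).mpr (by linarith)⟩
  let A : ℕ → Set (ℕ × unitInterval) := fun i => match i with
    | 0 => {k | Odd k} ×ˢ Set.univ
    | 1 => {k | Odd k}ᶜ ×ˢ Set.Iic θ
    | k + 2 => {k} ×ˢ Set.univ
  obtain ⟨t, ht⟩ := exists_freq (ν.prod volume) A fun i => match i with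
    | 0 => MeasurableSet.of_discrete.prod MeasurableSet.univ
    | 1 => MeasurableSet.of_discrete.prod measurableSet_Iic
    | _ + 2 => MeasurableSet.of_discrete.prod MeasurableSet.univ
  refine ⟨fun j => (t j).1 + 2, fun j => if Odd (t j).1 then 1 else if (t j).2 ≤ θ then 3 else 0,
    fun j => Nat.le_add_left _ _, fun j => ?_, ?_, fun k hk => ?_⟩
  · by_cases h : Odd (t j).1
    · exact Or.inl ⟨h.add_even even_two, if_pos h⟩
    · refine Or.inr ⟨(Nat.not_odd_iff_even.mp h).add even_two, ?_⟩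
      simp only [if_neg h]
      split_ifs <;> simp
  · have h4 := (ht 0).add ((ht 1).const_mul 3)
    have a0 : (ν.prod volume).real (A 0) = o := by simp [A, ho]
    have a1 : (ν.prod volume).real (A 1) = (1 - o) * θ := by
      simp only [A, measureReal_prod_prod]
      rw [probReal_compl_eq_one_sub MeasurableSet.of_discrete, ← ho, Measure.real,
        unitInterval.volume_Iic, ENNReal.toReal_ofReal θ.2.1]
    have a2 : o + 3 * ((1 - o) * θ) = 2 * p 1 / g 2 := by
      have : 1 - o ≠ 0 := by linarith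
      simp only [θ]
      field_simp
      ring
    rw [a0, a1, a2] at h4
    refine h4.congr fun n => ?_
    rw [← mul_div_assoc, ← add_div, Finset.mul_sum, ← Finset.sum_add_distrib]
    congr 1
    refine Finset.sum_congr rfl fun j _ => ?_
    by_cases h : Odd (t j).1 <;> by_cases h' : (t j).2 ≤ θ <;> simp [A, h, h']
  · obtain ⟨k, rfl⟩ := Nat.exists_eq_add_of_le' hk
    have h4 := ht (k + 2)
    have a0 : (ν.prod volume).real (A (k + 2)) = p (k + 2) / g 2 := by simp [A, ν_single]
    rw [a0] at h4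
    simpa [A, Set.mem_prod] using h4

lemma nxt_eq (a : ℕ) {u : ℝ} (h : 1 < u) : nxt ((a : ℝ) + u⁻¹) = u := by
  rw [nxt, fract_eq a (inv_nonneg.mpr (by linarith)) (inv_lt_one_of_one_lt₀ h), inv_inv]

lemma stepA {a b : ℕ} {z0 z1 z2 : ℝ} (hb : 1 ≤ b) (h2 : 1 < z2) (e0 : z0 = a + z1⁻¹)
    (e1 : z1 = (b + b : ℕ) + z2⁻¹) : nxt^[2] (2 * z0) = 2 * z2 := by
  have hb' : (1 : ℝ) ≤ b := by exact_mod_cast hb
  have : 0 < z2⁻¹ := by positivity
  push_cast at e1
  have a1 : 2 * z0 = (2 * a : ℕ) + (z1 / 2)⁻¹ := by rw [e0]; push_cast; field_simp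
  have a2 : z1 / 2 = b + (2 * z2)⁻¹ := by rw [e1]; field_simp; ring
  simp only [Function.iterate_succ_apply', Function.iterate_zero_apply]
  rw [a1, nxt_eq _ (by linarith), a2, nxt_eq _ (by linarith)]

lemma stepB {a b : ℕ} {z0 z1 z2 z3 : ℝ} (hb : 1 ≤ b) (h3 : 1 < z3) (e0 : z0 = a + z1⁻¹)
    (e1 : z1 = (1 : ℕ) + z2⁻¹) (e2 : z2 = (2 * b + 1 : ℕ) + z3⁻¹) :
    nxt^[3] (2 * z0) = 2 * z3 := by
  have hb' : (1 : ℝ) ≤ b := by exact_mod_cast hb
  have : 0 < z3⁻¹ := by positivity
  push_cast at e1 e2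
  have h2 : 3 < z2 := by linarith
  have h2' : z2 - 1 ≠ 0 := by linarith
  have a1 : 2 * z0 = (2 * a + 1 : ℕ) + ((z2 + 1) / (z2 - 1))⁻¹ := by
    rw [e0, e1]; push_cast; field_simp; ring
  have a2 : (z2 + 1) / (z2 - 1) = (1 : ℕ) + ((z2 - 1) / 2)⁻¹ := by push_cast; field_simp; ring
  have a3 : (z2 - 1) / 2 = b + (2 * z3)⁻¹ := by rw [e2]; field_simp; ring
  simp only [Function.iterate_succ_apply', Function.iterate_zero_apply]
  rw [a1, nxt_eq _ ((one_lt_div (by linarith)).mpr (by linarith)), a2, nxt_eq _ (by linarith), a3,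
    nxt_eq _ (by linarith)]

lemma stepC {a b : ℕ} {z0 z1 z2 z3 z4 z5 : ℝ} (hb : 1 ≤ b) (h5 : 1 < z5) (e0 : z0 = a + z1⁻¹)
    (e1 : z1 = (1 : ℕ) + z2⁻¹) (e2 : z2 = (1 : ℕ) + z3⁻¹) (e3 : z3 = (1 : ℕ) + z4⁻¹)
    (e4 : z4 = (b + b : ℕ) + z5⁻¹) : nxt^[3] (2 * z0) = 2 * z5 := by
  have hb' : (1 : ℝ) ≤ b := by exact_mod_cast hb
  have : 0 < z5⁻¹ := by positivity
  push_cast at e1 e2 e3 e4
  have h4 : 2 < z4 := by linarith
  have : 0 < z4⁻¹ := by positivity
  have h3 : 1 < z3 := by linarith
  have a1 : 2 * z0 = (2 * a + 1 : ℕ) + (1 + 2 * z3)⁻¹ := by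
    rw [e0, e1, e2]; push_cast; field_simp; ring
  have a2 : 1 + 2 * z3 = (3 : ℕ) + (z4 / 2)⁻¹ := by rw [e3]; push_cast; field_simp; ring
  have a3 : z4 / 2 = b + (2 * z5)⁻¹ := by rw [e4]; field_simp; ring
  simp only [Function.iterate_succ_apply', Function.iterate_zero_apply]
  rw [a1, nxt_eq _ (by linarith), a2, nxt_eq _ (by linarith), a3, nxt_eq _ (by linarith)]

lemma sparse (P : ℕ → Prop) (m : ℕ → ℕ) (h0 : m 0 = 0) (hm : ∀ j, m j < m (j + 1) ∧
    m (j + 1) ≤ m j + 3) (hP : ∀ j, ¬ P (m j)) (n : ℕ) :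
    ((Finset.range (3 * n)).filter P).card ≤ 2 * n := by
  obtain ⟨J, hJ⟩ := exists_block m h0 (strictMono_nat_of_lt_succ fun j => (hm j).1)
  induction n with
  | zero => simp
  | succ n ih =>
    have h1 := hJ (3 * n + 2)
    have h2 := (hm (J (3 * n + 2))).2
    have h3 := hP (J (3 * n + 2))
    rw [show 3 * (n + 1) = 3 * n + 1 + 1 + 1 by ring]
    simp only [Finset.card_filter, Finset.sum_range_succ] at ih ⊢
    have h4 : m (J (3 * n + 2)) = 3 * n ∨ m (J (3 * n + 2)) = 3 * n + 1 ∨
      m (J (3 * n + 2)) = 3 * n + 1 + 1 := by omega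
    rcases h4 with h | h | h <;> rw [h] at h3 <;> rw [if_neg h3] <;> split_ifs <;> omega

/-- The negation of the preceding statement: If every digit k ≥ 1 appears among the continued fraction partial quotients of x with frequency log2(1+1/(k(k+2))), then the same holds for qx+r, for all rationals q ≠ 0 and r. -/
theorem result :
    ¬ (∀ x : ℝ,
      (∀ k : ℕ, 1 ≤ k →
        Tendsto
          (fun n : ℕ =>
            (((Finset.range n).filter
                (fun i => (GenContFract.of x).partDens.get? i = some (k : ℝ))).card : ℝ) / (n : ℝ))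
          atTop (𝓝 (Real.logb 2 (1 + 1 / ((k : ℝ) * ((k : ℝ) + 2)))))) →
      ∀ q r : ℚ, q ≠ 0 →
        (∀ k : ℕ, 1 ≤ k →
          Tendsto
            (fun n : ℕ =>
              (((Finset.range n).filter
                  (fun i => (GenContFract.of ((q : ℝ) * x + (r : ℝ))).partDens.get? i
                    = some (k : ℝ))).card : ℝ) / (n : ℝ))
            atTop (𝓝 (Real.logb 2 (1 + 1 / ((k : ℝ) * ((k : ℝ) + 2))))))) := by
  intro H
  obtain ⟨c, e, hc, hce, he, hk⟩ := blocks
  let s : ℕ → ℕ := fun n => ∑ j ∈ Finset.range n, (e j + 2)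
  have hs0 : s 0 = 0 := rfl
  have hs1 : ∀ j, s (j + 1) = s j + (e j + 2) := fun j => Finset.sum_range_succ _ _
  have hsm : StrictMono s := strictMono_nat_of_lt_succ fun j => by rw [hs1]; omega
  obtain ⟨J, hJ⟩ := exists_block s hs0 hsm
  let d : ℕ → ℕ := fun n => if n = s (J n) ∨ n + 1 = s (J n + 1) then c (J n) else 1
  have hd : ∀ j r, r < e j + 2 → d (s j + r) = if r = 0 ∨ r = e j + 1 then c j else 1 := by
    intro j r hr
    have h1 := hsm.lt_iff_lt.mp ((hJ (s j + r)).1.trans_lt (show _ < s (j + 1) by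
      rw [hs1]; omega))
    have h2 := hsm.lt_iff_lt.mp ((Nat.le_add_right _ _).trans_lt (hJ (s j + r)).2)
    have h3 : J (s j + r) = j := by omega
    simp only [d, h3, hs1]
    exact if_congr (by omega) rfl rfl
  have hd1 : ∀ n, 1 ≤ d n := fun n => by
    have := hc (J n)
    simp only [d]
    split_ifs <;> omega
  obtain ⟨z, hz⟩ := exists_cf d hd1
  have hg := g2_pos
  have e1 : p 1 = 1 - g 2 := by rw [p_eq 1 le_rfl, g_one]
  have hl : Tendsto (fun j => (s j : ℝ) / j) atTop (𝓝 (2 / g 2)) := by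
    have h1 := he.add_const 2
    rw [show 2 * p 1 / g 2 + 2 = 2 / g 2 by rw [e1]; field_simp; ring] at h1
    refine h1.congr' ?_
    filter_upwards [eventually_gt_atTop 0] with n hn
    have : (n : ℝ) ≠ 0 := by positivity
    simp only [s]
    push_cast
    rw [Finset.sum_add_distrib, Finset.sum_const, Finset.card_range, nsmul_eq_mul]
    field_simp
  have key := H (z 0)⁻¹ (fun k hk1 => ?_) (1 / 2) 0 (by norm_num)
  · set y : ℝ := ((1 / 2 : ℚ) : ℝ) * (z 0)⁻¹ + ((0 : ℚ) : ℝ) with hy
    have hz2 : ∀ n, 2 < 2 * z n := fun n => by linarith [(hz n).1]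
    have hstep : ∀ j, ∃ r, 0 < r ∧ r ≤ 3 ∧ nxt^[r] (2 * z (s j)) = 2 * z (s (j + 1)) := by
      intro j
      have hz' : ∀ r, r < e j + 2 → z (s j + r) =
          ((if r = 0 ∨ r = e j + 1 then c j else 1 : ℕ) : ℝ) + (z (s j + (r + 1)))⁻¹ :=
        fun r hr => by rw [← hd j r hr]; exact (hz _).2
      have h2 := hc j
      rw [hs1]
      rcases hce j with ⟨⟨b, hb⟩, h⟩ | ⟨⟨b, hb⟩, h | h⟩ <;> rw [h] at hz' ⊢ <;> rw [hb] at hz'
      · exact ⟨3, by norm_num, le_rfl, stepB (b := b) (by omega) (hz _).1 (hz' 0 (by norm_num))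
          (hz' 1 (by norm_num)) (hz' 2 (by norm_num))⟩
      · exact ⟨2, by norm_num, by norm_num, stepA (b := b) (by omega) (hz _).1
          (hz' 0 (by norm_num)) (hz' 1 (by norm_num))⟩
      · exact ⟨3, by norm_num, le_rfl, stepC (b := b) (by omega) (hz _).1 (hz' 0 (by norm_num))
          (hz' 1 (by norm_num)) (hz' 2 (by norm_num)) (hz' 3 (by norm_num))
          (hz' 4 (by norm_num))⟩
    choose r hr0 hr3 hr using hstep
    let m : ℕ → ℕ := fun n => ∑ j ∈ Finset.range n, r j
    have hm1 : ∀ j, m (j + 1) = m j + r j := fun j => Finset.sum_range_succ _ _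
    have hm : ∀ j, nxt^[m j + 1] y = 2 * z (s j) := by
      intro j
      induction j with
      | zero =>
        have : y = (0 : ℕ) + (2 * z 0)⁻¹ := by rw [hy]; push_cast; rw [mul_inv]; ring
        change nxt y = _
        rw [this, nxt_eq _ (by linarith [hz2 0])]
        rfl
      | succ j ih =>
        rw [hm1, show m j + r j + 1 = r j + (m j + 1) by ring, Function.iterate_add_apply, ih, hr]
    have hbig : ∀ j (k : ℕ), k ≤ 3 → (GenContFract.of y).partDens.get? (m j) ≠ some (k : ℝ) := by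
      intro j k hk3 h
      have h1 := hm j
      rw [digit_eq y (m j) fun h0 => by
        rw [Function.iterate_succ_apply', nxt, h0, inv_zero] at h1
        linarith [hz2 (s j)], h1, Option.some_inj] at h
      have h2 : (4 : ℤ) ≤ ⌊2 * z (s j)⌋ := by
        rw [Int.le_floor, (hz _).2]
        have h3 := hd j 0 (by omega)
        rw [add_zero, if_pos (Or.inl rfl)] at h3
        have h4 : (2 : ℝ) ≤ d (s j) := by rw [h3]; exact_mod_cast hc j
        have : 0 < (z (s j + 1))⁻¹ := inv_pos.mpr (by linarith [(hz (s j + 1)).1])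
        push_cast
        linarith
      have h5 : ⌊2 * z (s j)⌋ = (k : ℤ) := by exact_mod_cast h
      omega
    have h3 : Tendsto (fun n : ℕ => 3 * n) atTop atTop := tendsto_id.const_mul_atTop' (by norm_num)
    have hlim := (((key 1 le_rfl).add (key 2 (by norm_num))).add (key 3 (by norm_num))).comp h3
    have hle := le_of_tendsto hlim (b := 2 / 3) (by
      filter_upwards [eventually_gt_atTop 0] with n hn
      have := sparse (fun i => (GenContFract.of y).partDens.get? i = some ((1 : ℕ) : ℝ) ∨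
          (GenContFract.of y).partDens.get? i = some ((2 : ℕ) : ℝ) ∨
          (GenContFract.of y).partDens.get? i = some ((3 : ℕ) : ℝ)) m rfl
        (fun j => by have := hr0 j; have := hr3 j; rw [hm1]; omega)
        (fun j h => by
          rcases h with h | h | h <;> exact hbig j _ (by norm_num) h) n
      simp only [Function.comp]
      rw [← add_div, ← add_div, div_le_iff₀ (by positivity)]
      have h6 : (2 / 3 : ℝ) * ((3 * n : ℕ) : ℝ) = ((2 * n : ℕ) : ℝ) := by push_cast; ring
      rw [h6, ← Nat.cast_add, ← Nat.cast_add, Nat.cast_le]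
      refine le_trans ?_ this
      simp only [Finset.card_filter, ← Finset.sum_add_distrib]
      refine Finset.sum_le_sum fun i _ => ?_
      rcases hi : (GenContFract.of y).partDens.get? i with _ | v
      · simp
      · simp only [Option.some_inj]
        by_cases a1 : v = ((1 : ℕ) : ℝ)
        · subst a1; norm_num
        by_cases a2 : v = ((2 : ℕ) : ℝ)
        · subst a2; norm_num
        by_cases a3 : v = ((3 : ℕ) : ℝ)
        · subst a3; norm_num
        simp only [if_neg a1, if_neg a2, if_neg a3]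
        simp)
    change p 1 + p 2 + p 3 ≤ _ at hle
    rw [e1, p_eq 2 (by norm_num), p_eq 3 (by norm_num)] at hle
    linarith [ineq3]
  · simp only [digit_cf hz, Option.some_inj, Nat.cast_inj]
    have hB : ∀ j, s (j + 1) ≤ s j + 5 := fun j => by
      rw [hs1]
      rcases hce j with ⟨_, h⟩ | ⟨_, h | h⟩ <;> omega
    have hcnt : ∀ j, ((Finset.range (s (j + 1))).filter fun i => d i = k).card =
        ((Finset.range (s j)).filter fun i => d i = k).card +
          (if k = 1 then e j else if c j = k then 2 else 0) := by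
      intro j
      simp only [Finset.card_filter]
      have hmid : ∑ r ∈ Finset.range (e j), (if d (s j + (r + 1)) = k then 1 else 0) =
          ∑ r ∈ Finset.range (e j), (if 1 = k then 1 else 0) :=
        Finset.sum_congr rfl fun r hr => by
          rw [hd j (r + 1) (by have := Finset.mem_range.mp hr; omega),
            if_neg (show ¬ (r + 1 = 0 ∨ r + 1 = e j + 1) by
              have := Finset.mem_range.mp hr; omega)]
      rw [hs1, Finset.sum_range_add, Finset.sum_range_succ, Finset.sum_range_succ',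
        hd j 0 (by omega), hd j (e j + 1) (by omega), if_pos (Or.inl rfl), if_pos (Or.inr rfl),
        hmid]
      have := hc j
      simp only [Finset.sum_const, Finset.card_range, smul_eq_mul]
      split_ifs <;> omega
    have hsum : ∀ j, ((Finset.range (s j)).filter fun i => d i = k).card =
        ∑ i ∈ Finset.range j, (if k = 1 then e i else if c i = k then 2 else 0) := by
      intro j
      induction j with
      | zero => simp [hs0]
      | succ j ih => rw [hcnt, ih, Finset.sum_range_succ]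
    have hγ : Tendsto (fun j => (((Finset.range (s j)).filter fun i => d i = k).card : ℝ) / j)
        atTop (𝓝 (2 * p k / g 2)) := by
      simp only [hsum]
      by_cases h1 : k = 1
      · subst h1
        simpa using he
      · have := (hk k (by omega)).const_mul 2
        rw [← mul_div_assoc] at this
        refine this.congr fun n => ?_
        rw [← mul_div_assoc, Finset.mul_sum]
        simp [h1]
    have := interp s hs0 hsm 5 hB hl (fun n => ((Finset.range n).filter fun i => d i = k).card)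
      (fun n => by
        simp only [Finset.card_filter, Finset.sum_range_succ]
        split_ifs <;> omega) hγ (by positivity)
    rwa [show 2 * p k / g 2 / (2 / g 2) = p k by field_simp] at this

end Pool.Agent.S16290
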