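import Pool.Statements.S16463

set_option autoImplicit false
open Pool Pool.MP_2fa2bc_nt

namespace Pool.Agent.S16463

open Polynomial

noncomputable def len (Q : ℤ[X]) : ℤ := ∑ i ∈ Q.support, |Q.coeff i|

lemma len_nonneg (Q : ℤ[X]) : 0 ≤ len Q := Finset.sum_nonneg (fun _ _ => abs_nonneg _)

lemma len_eq {Q : ℤ[X]} (h : Q ≠ 0) : len Q = |Q.leadingCoeff| + len Q.eraseLead := by
  unfold len
  rw [eraseLead_support, ← Finset.add_sum_erase _ _ (natDegree_mem_support_of_nonzero h)]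
  congr 1
  refine Finset.sum_congr rfl (fun i hi => ?_)
  rw [eraseLead_coeff_of_ne i (Finset.ne_of_mem_erase hi)]

lemma len_pos {Q : ℤ[X]} (h : Q ≠ 0) : 1 ≤ len Q := by
  rw [len_eq h]
  have h1 : 0 < |Q.leadingCoeff| := abs_pos.mpr (leadingCoeff_ne_zero.mpr h)
  have := len_nonneg Q.eraseLead
  omega

lemma len_parity (Q : ℤ[X]) : Even (len Q - Q.eval 1) := by
  rw [eval_eq_sum, Polynomial.sum_def, len, ← Finset.sum_sub_distrib]
  refine Finset.even_sum _ (fun i _ => ?_)
  rcases abs_choice (Q.coeff i) with h | h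
  · rw [h]; simp
  · rw [h]; exact ⟨-Q.coeff i, by ring⟩

lemma len_three {Q : ℤ[X]} (h : Q ≠ 0) {α : ℂ} (h0 : α ≠ 0) (h1 : ‖α‖ ≠ 1)
    (hα : aeval α Q = 0) : 3 ≤ len Q := by
  by_contra hlt
  have e1 := len_eq h
  have d1 := eraseLead_add_C_mul_X_pow Q
  have c1 : 0 < |Q.leadingCoeff| := abs_pos.mpr (leadingCoeff_ne_zero.mpr h)
  have lc1 : (Q.leadingCoeff : ℂ) ≠ 0 := by exact_mod_cast leadingCoeff_ne_zero.mpr h
  by_cases hR : Q.eraseLead = 0
  · rw [hR, zero_add] at d1
    rw [← d1] at hα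
    simp [h0, lc1] at hα
  · set R := Q.eraseLead with hRdef
    have e2 := len_eq hR
    have d2 := eraseLead_add_C_mul_X_pow R
    have c2 : 0 < |R.leadingCoeff| := abs_pos.mpr (leadingCoeff_ne_zero.mpr hR)
    have n2 := len_nonneg R.eraseLead
    have hR2 : R.eraseLead = 0 := by
      by_contra hne
      have := len_pos hne
      omega
    have a1 : |Q.leadingCoeff| = 1 := by omega
    have a2 : |R.leadingCoeff| = 1 := by omega
    rw [hR2, zero_add] at d2
    have hlt2 : R.natDegree < Q.natDegree := by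
      rcases eraseLead_natDegree_lt_or_eraseLead_eq_zero Q with h' | h'
      · exact h'
      · exact absurd h' hR
    rw [← d1, ← d2] at hα
    simp only [map_add, map_mul, map_pow, aeval_X, aeval_C, eq_intCast, map_intCast] at hα
    have h2 : ‖(R.leadingCoeff : ℂ) * α ^ R.natDegree‖ = ‖(Q.leadingCoeff : ℂ) * α ^ Q.natDegree‖ := by
      rw [eq_neg_of_add_eq_zero_left hα, norm_neg]
    have b1 : ‖(Q.leadingCoeff : ℂ)‖ = 1 := by
      rw [Complex.norm_intCast]; exact_mod_cast a1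
    have b2 : ‖(R.leadingCoeff : ℂ)‖ = 1 := by
      rw [Complex.norm_intCast]; exact_mod_cast a2
    rw [norm_mul, norm_mul, b1, b2, one_mul, one_mul, norm_pow, norm_pow] at h2
    have := pow_right_injective₀ (norm_pos_iff.mpr h0) h1 h2
    omega

lemma conj_mul {z : ℂ} (h : ‖z‖ = 1) : z * (starRingEnd ℂ) z = 1 := by
  rw [Complex.mul_conj, Complex.normSq_eq_norm_sq, h]; simp

lemma rootP : ∃ α : ℂ, α ^ 4 + α ^ 3 + α ^ 2 + 1 = 0 ∧ α ≠ 0 ∧ ‖α‖ ≠ 1 := by
  have hd : (X ^ 4 + X ^ 3 + X ^ 2 + 1 : ℂ[X]).degree = 4 := by compute_degree!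
  obtain ⟨α, hα⟩ := Complex.exists_root (f := X ^ 4 + X ^ 3 + X ^ 2 + 1) (by rw [hd]; norm_num)
  have h : α ^ 4 + α ^ 3 + α ^ 2 + 1 = 0 := by simpa using hα
  refine ⟨α, h, ?_, ?_⟩
  · rintro rfl; simp at h
  · intro h1
    have h2 := conj_mul h1
    have h3 := congrArg (starRingEnd ℂ) h
    simp only [map_add, map_pow, map_one, map_zero] at h3
    set w := (starRingEnd ℂ) α
    have h4 : 1 + α + α ^ 2 + α ^ 4 = 0 := by
      have : α ^ 4 * (w ^ 4 + w ^ 3 + w ^ 2 + 1) =
          (α * w) ^ 4 + α * (α * w) ^ 3 + α ^ 2 * (α * w) ^ 2 + α ^ 4 := by ring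
      rw [h3, h2] at this
      linear_combination -this
    have h5 : α * ((α - 1) * (α + 1)) = 0 := by linear_combination h - h4
    rcases mul_eq_zero.mp h5 with h6 | h6
    · rw [h6] at h; simp at h
    · rcases mul_eq_zero.mp h6 with h7 | h7
      · have : α = 1 := by linear_combination h7
        rw [this] at h; norm_num at h
      · have : α = -1 := by linear_combination h7
        rw [this] at h; norm_num at h

lemma rootT : ∃ z : ℂ, z ^ 3 - z ^ 2 + 1 = 0 ∧ z ≠ 0 ∧ ‖z‖ ≠ 1 := by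
  have hd : (X ^ 3 - X ^ 2 + 1 : ℂ[X]).degree = 3 := by compute_degree!
  obtain ⟨α, hα⟩ := Complex.exists_root (f := X ^ 3 - X ^ 2 + 1) (by rw [hd]; norm_num)
  have h : α ^ 3 - α ^ 2 + 1 = 0 := by simpa using hα
  refine ⟨α, h, ?_, ?_⟩
  · rintro rfl; simp at h
  · intro h1
    have h2 := conj_mul h1
    have h3 := congrArg (starRingEnd ℂ) h
    simp only [map_add, map_sub, map_pow, map_one, map_zero] at h3
    set w := (starRingEnd ℂ) α
    have h4 : 1 - α + α ^ 3 = 0 := by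
      have : α ^ 3 * (w ^ 3 - w ^ 2 + 1) =
          (α * w) ^ 3 - α * (α * w) ^ 2 + α ^ 3 := by ring
      rw [h3, h2] at this
      linear_combination -this
    have h5 : α * (α - 1) = 0 := by linear_combination h4 - h
    rcases mul_eq_zero.mp h5 with h6 | h6
    · rw [h6] at h; simp at h
    · have : α = 1 := by linear_combination h6
      rw [this] at h; norm_num at h

lemma irredP : Irreducible (X ^ 4 + X ^ 3 + X ^ 2 + 1 : ℤ[X]) := by
  have hm : (X ^ 4 + X ^ 3 + X ^ 2 + 1 : ℤ[X]).Monic := by monicity!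
  have hd : (X ^ 4 + X ^ 3 + X ^ 2 + 1 : ℤ[X]).natDegree = 4 := by compute_degree!
  have hne : (X ^ 4 + X ^ 3 + X ^ 2 + 1 : ℤ[X]) ≠ 1 := by
    intro h; rw [h] at hd; simp at hd
  rw [hm.irreducible_iff_lt_natDegree_lt hne]
  intro q hq hdq hdiv
  rw [hd] at hdq
  simp only [Finset.mem_Ioc] at hdq
  obtain ⟨r, hr⟩ := hdiv
  have hrm : r.Monic := hq.of_mul_monic_left (hr ▸ hm)
  have hdeg : q.natDegree + r.natDegree = 4 := by
    rw [← hq.natDegree_mul hrm, ← hr, hd]
  have hcase : q.natDegree = 1 ∨ q.natDegree = 2 := by omega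
  rcases hcase with h1 | h2
  · have hq1 := hq.eq_X_add_C h1
    have := congrArg (eval (-q.coeff 0)) hr
    rw [hq1] at this
    simp only [eval_add, eval_pow, eval_X, eval_one, eval_mul, eval_C, coeff_add, coeff_X_zero,
      coeff_C_zero, zero_add, neg_add_cancel, zero_mul] at this
    have h3 : ∀ a : ZMod 3, (-a) ^ 4 + (-a) ^ 3 + (-a) ^ 2 + 1 ≠ 0 := by decide
    apply h3 ((q.coeff 0 : ℤ) : ZMod 3)
    exact_mod_cast congrArg (Int.cast : ℤ → ZMod 3) this
  · have hr2 : r.natDegree = 2 := by omega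
    have eq : q = X ^ 2 + C (q.coeff 1) * X + C (q.coeff 0) := by
      have := hq.as_sum
      rw [h2] at this
      refine this.trans ?_
      simp only [Finset.sum_range_succ, Finset.sum_range_zero]
      ring
    have er : r = X ^ 2 + C (r.coeff 1) * X + C (r.coeff 0) := by
      have := hrm.as_sum
      rw [hr2] at this
      refine this.trans ?_
      simp only [Finset.sum_range_succ, Finset.sum_range_zero]
      ring
    generalize q.coeff 1 = a at eq
    generalize q.coeff 0 = b at eq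
    generalize r.coeff 1 = c at er
    generalize r.coeff 0 = d at er
    rw [eq, er] at hr
    have v0 := congrArg (eval 0) hr
    have v1 := congrArg (eval 1) hr
    have v2 := congrArg (eval (-1)) hr
    have v3 := congrArg (fun p => coeff p 3) hr
    have ex : (X ^ 2 + C a * X + C b) * (X ^ 2 + C c * X + C d) =
        (X ^ 4 + C (a + c) * X ^ 3 + C (b + d + a * c) * X ^ 2 + C (a * d + b * c) * X
          + C (b * d) : ℤ[X]) := by
      simp only [map_add, map_mul]; ring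
    rw [ex] at v3
    simp only [coeff_add, coeff_C_mul, coeff_X_pow, coeff_X, coeff_C, coeff_one] at v3
    simp at v0 v1 v2 v3
    have h3 : ∀ a b c d : ZMod 3, ¬ (1 = b * d ∧ 1 + 1 + 1 + 1 = (1 + a + b) * (1 + c + d) ∧
        2 = (1 + -a + b) * (1 + -c + d) ∧ 1 = a + c) := by decide
    apply h3 (a : ZMod 3) (b : ZMod 3) (c : ZMod 3) (d : ZMod 3)
    refine ⟨?_, ?_, ?_, ?_⟩
    · exact_mod_cast congrArg (Int.cast : ℤ → ZMod 3) v0
    · exact_mod_cast congrArg (Int.cast : ℤ → ZMod 3) v1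
    · have : (2 : ℤ) = (1 + -a + b) * (1 + -c + d) := by linarith
      exact_mod_cast congrArg (Int.cast : ℤ → ZMod 3) this
    · exact_mod_cast congrArg (Int.cast : ℤ → ZMod 3) v3

lemma lenPT : len (X ^ 7 + C 2 * X ^ 3 + 1 : ℤ[X]) ≤ 4 := by
  have hs : (X ^ 7 + C 2 * X ^ 3 + 1 : ℤ[X]).support ⊆ {0, 3, 7} := by
    intro i hi
    rw [mem_support_iff] at hi
    by_contra hn
    simp only [Finset.mem_insert, Finset.mem_singleton, not_or] at hn
    apply hi
    simp only [coeff_add, coeff_C_mul, coeff_X_pow, coeff_one, if_neg hn.1, if_neg hn.2.1,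
      if_neg hn.2.2]
    simp
  refine (Finset.sum_le_sum_of_subset_of_nonneg hs (fun _ _ _ => abs_nonneg _)).trans ?_
  simp only [coeff_add, coeff_C_mul, coeff_X_pow, coeff_one]
  decide


/-- There is a monic irreducible integer polynomial P and a nonzero integer T such that PT has least length among all nonzero multiples of P, and T has a nonzero complex root that is not a root of unity. -/
theorem result :
    ∃ P T : Polynomial ℤ, P.Monic ∧ Irreducible P ∧ T ≠ 0 ∧
      (∀ S : Polynomial ℤ, S ≠ 0 →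
        ∑ i ∈ (P * T).support, |(P * T).coeff i| ≤
          ∑ i ∈ (P * S).support, |(P * S).coeff i|) ∧
      ∃ z : ℂ, z ≠ 0 ∧ Polynomial.aeval z T = 0 ∧ ∀ n : ℕ, 0 < n → z ^ n ≠ 1 := by
  refine ⟨X ^ 4 + X ^ 3 + X ^ 2 + 1, X ^ 3 - X ^ 2 + 1, by monicity!, irredP, ?_, ?_, ?_⟩
  · have : (X ^ 3 - X ^ 2 + 1 : ℤ[X]).Monic := by monicity!
    exact this.ne_zero
  · intro S hS
    have e : ((X ^ 4 + X ^ 3 + X ^ 2 + 1) * (X ^ 3 - X ^ 2 + 1) : ℤ[X]) =
        X ^ 7 + C 2 * X ^ 3 + 1 := by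
      have : (C 2 : ℤ[X]) = 2 := rfl
      rw [this]; ring
    rw [e]
    refine lenPT.trans ?_
    obtain ⟨α, h, h0, h1⟩ := rootP
    have hne : ((X ^ 4 + X ^ 3 + X ^ 2 + 1) * S : ℤ[X]) ≠ 0 := mul_ne_zero irredP.ne_zero hS
    have h3 := len_three hne h0 h1 (by simp [h])
    have hp := len_parity ((X ^ 4 + X ^ 3 + X ^ 2 + 1) * S)
    simp only [eval_mul, eval_add, eval_pow, eval_X, eval_one] at hp
    obtain ⟨k, hk⟩ := hp
    show 4 ≤ len _
    omega
  · obtain ⟨z, h, h0, h1⟩ := rootT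
    refine ⟨z, h0, by simp [h], fun n hn hz => h1 ?_⟩
    exact Complex.norm_eq_one_of_pow_eq_one hz hn.ne'

end Pool.Agent.S16463
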