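import Pool.Statements.S16580
import Pool.Agent.H12.Zud

set_option autoImplicit false
open Filter
open Pool Pool.MP_37fc1f_nt

namespace Pool.Agent.S16580

open Pool.Agent.H12.Zud Polynomial Topology

/-- solution of the recurrence with initial values `1, c` -/
def sol (c : ℚ) : ℕ → ℚ
  | 0 => 1
  | 1 => c
  | n + 2 => 9 * (2 * n + 3) / (n + 2) * sol c (n + 1) +
      -(49 * ((n + 1) ^ 2 - 1 / 9)) / ((n + 2) * (n + 1)) * sol c n

noncomputable def ra : RatFunc ℚ :=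
  algebraMap ℚ[X] _ (-(C 49 * ((X - 1) ^ 2 - C (1 / 9)))) / algebraMap ℚ[X] _ (X * (X - 1))

noncomputable def rb : RatFunc ℚ :=
  algebraMap ℚ[X] _ (C 9 * (C 2 * X - 1)) / algebraMap ℚ[X] _ X

lemma eval_div (p q : ℚ[X]) (x : ℚ) (h : q.eval x ≠ 0) :
    RatFunc.eval (RingHom.id ℚ) x (algebraMap ℚ[X] (RatFunc ℚ) p / algebraMap ℚ[X] _ q) =
      p.eval x / q.eval x := by
  have hq : q ≠ 0 := by rintro rfl; simp at h
  have h1 := (RatFunc.num_mul_eq_mul_denom_iff hq).2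
    (rfl : algebraMap ℚ[X] (RatFunc ℚ) p / algebraMap ℚ[X] _ q = _)
  obtain ⟨r, hr⟩ := RatFunc.denom_div_dvd p q
  have h2 : (RatFunc.denom (algebraMap ℚ[X] (RatFunc ℚ) p / algebraMap ℚ[X] _ q)).eval x ≠ 0 := by
    intro h0
    apply h
    rw [hr, eval_mul, h0, zero_mul]
  have h3 := congrArg (eval x) h1
  rw [eval_mul, eval_mul] at h3
  unfold RatFunc.eval
  rw [eval₂_id, eval₂_id, div_eq_div_iff h2 h, h3]

lemma ea (n : ℕ) : RatFunc.eval (RingHom.id ℚ) ((n + 2 : ℕ) : ℚ) ra =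
    -(49 * ((n + 1) ^ 2 - 1 / 9)) / ((n + 2) * (n + 1)) := by
  have e : ((n + 2 : ℕ) : ℚ) - 1 = n + 1 := by push_cast; ring
  rw [ra, eval_div]
  · simp only [eval_neg, eval_mul, eval_sub, eval_pow, eval_C, eval_X, eval_one, e]
    push_cast; rfl
  · simp only [eval_mul, eval_sub, eval_X, eval_one, e]
    positivity

lemma eb (n : ℕ) : RatFunc.eval (RingHom.id ℚ) ((n + 2 : ℕ) : ℚ) rb =
    9 * (2 * n + 3) / (n + 2) := by
  rw [rb, eval_div]
  · simp only [eval_mul, eval_sub, eval_C, eval_X, eval_one]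
    push_cast; ring
  · simp only [eval_X]
    positivity

noncomputable def be (n : ℕ) : ℝ := 9 * (2 * n + 3) / (n + 2)

noncomputable def ga (n : ℕ) : ℝ := 49 * ((n + 1) ^ 2 - 1 / 9) / ((n + 2) * (n + 1))

lemma sol_rec (c : ℚ) (n : ℕ) :
    (sol c (n + 2) : ℝ) = be n * sol c (n + 1) - ga n * sol c n := by
  rw [sol, be, ga]; push_cast; ring

lemma be_eq (n : ℕ) : be n = 18 - 9 / ((n : ℝ) + 2) := by
  unfold be; field_simp; ring

lemma ga_le (n : ℕ) : 49 - 60 / ((n : ℝ) + 2) ≤ ga n ∧ ga n ≤ 49 - 49 / ((n : ℝ) + 2) := by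
  have hn : (0 : ℝ) ≤ n := n.cast_nonneg
  have e : ga n = 49 - 49 / ((n : ℝ) + 2) - 49 / 9 / (((n : ℝ) + 2) * (n + 1)) := by
    unfold ga; field_simp; ring
  have h1 : 49 / 9 / (((n : ℝ) + 2) * (n + 1)) ≤ 11 / ((n : ℝ) + 2) := by
    rw [div_le_div_iff₀ (by positivity) (by positivity)]; nlinarith
  have h2 : 0 ≤ 49 / 9 / (((n : ℝ) + 2) * (n + 1)) := by positivity
  have h3 : 60 / ((n : ℝ) + 2) = 49 / ((n : ℝ) + 2) + 11 / ((n : ℝ) + 2) := by ring
  constructor <;> linarith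

lemma t0 (c : ℝ) : Tendsto (fun n : ℕ => c / ((n : ℝ) + 2)) atTop (𝓝 0) :=
  tendsto_const_nhds.div_atTop (tendsto_natCast_atTop_atTop.atTop_add tendsto_const_nhds)

lemma v_eq (n : ℕ) : (sol 2 n : ℝ) * J 0 = 49 ^ n * J n := by
  induction n using Nat.twoStepInduction with
  | zero => simp [sol]
  | one => simp [sol, J_init]
  | more n h1 h2 =>
    have h := J_rec n
    rw [sol_rec, sub_mul, mul_assoc, mul_assoc, h1, h2, be, ga]
    field_simp
    rw [pow_add, pow_add]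
    linear_combination (-9 * 49 ^ n * 49 : ℝ) * h

lemma v_pos (n : ℕ) : (0 : ℝ) < sol 2 n := by
  have h := v_eq n
  have h1 := J_pos n
  have h2 : 0 < (sol 2 n : ℝ) * J 0 := by rw [h]; positivity
  exact (mul_pos_iff_of_pos_right (J_pos 0)).1 h2

lemma v_le (n : ℕ) : (sol 2 (n + 1) : ℝ) ≤ 4 * sol 2 n := by
  refine le_of_mul_le_mul_right ?_ (J_pos 0)
  rw [mul_assoc, v_eq, v_eq, pow_succ]
  have := J_ratio n
  have h : (0 : ℝ) < 49 ^ n := by positivity
  nlinarith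

lemma inv_le (n : ℕ) : 0 < 1 / ((n : ℝ) + 2) ∧ 1 / ((n : ℝ) + 2) ≤ 1 / 2 := by
  have hn : (0 : ℝ) ≤ n := n.cast_nonneg
  exact ⟨by positivity, by gcongr; linarith⟩

lemma w_bd (n : ℕ) : (0 : ℝ) < sol 18 n ∧ 7 * (sol 18 n : ℝ) ≤ sol 18 (n + 1) ∧
    (sol 18 (n + 1) : ℝ) ≤ 18 * sol 18 n := by
  induction n with
  | zero => simp [sol]; norm_num
  | succ n ih =>
    obtain ⟨h1, h2, h3⟩ := ih
    have h4 : (0 : ℝ) < sol 18 (n + 1) := by linarith
    obtain ⟨g1, g2⟩ := ga_le n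
    obtain ⟨i1, i2⟩ := inv_le n
    rw [sol_rec, be_eq]
    rw [div_eq_mul_one_div] at g1 g2
    rw [div_eq_mul_one_div 9]
    generalize 1 / ((n : ℝ) + 2) = t at *
    refine ⟨h4, ?_, ?_⟩
    · have : ga n * sol 18 n ≤ (49 - 49 * t) * sol 18 n := by gcongr
      nlinarith
    · have : 0 ≤ ga n * sol 18 n := mul_nonneg (by linarith) h1.le
      nlinarith

lemma s2 : (1.4 : ℝ) ≤ Real.sqrt 2 ∧ Real.sqrt 2 ≤ 1.5 ∧ Real.sqrt 2 * Real.sqrt 2 = 2 :=
  ⟨Real.le_sqrt_of_sq_le (by norm_num), Real.sqrt_le_iff.2 ⟨by norm_num, by norm_num⟩,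
    Real.mul_self_sqrt (by norm_num)⟩

lemma v_lim : Tendsto (fun n : ℕ => ((sol 2 (n + 1) : ℝ) / (sol 2 n : ℝ))) atTop
    (𝓝 (9 - 4 * Real.sqrt 2)) := by
  obtain ⟨s1, s3, s4⟩ := s2
  rw [tendsto_iff_dist_tendsto_zero]
  have hr : ∀ n, 0 < (sol 2 (n + 1) : ℝ) / sol 2 n ∧ (sol 2 (n + 1) : ℝ) / sol 2 n ≤ 4 := fun n =>
    ⟨div_pos (v_pos _) (v_pos _), (div_le_iff₀ (v_pos _)).2 (v_le n)⟩
  refine lim_back 4 (fun n => dist_nonneg) (fun n => ?_) (t0 10) (Or.inl fun n => ?_)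
  · obtain ⟨a, b⟩ := hr n
    rw [Real.dist_eq, abs_le]; constructor <;> linarith
  · obtain ⟨a, b⟩ := hr n
    obtain ⟨a', b'⟩ := hr (n + 1)
    have e : (sol 2 (n + 1) : ℝ) / sol 2 n * (be n - sol 2 (n + 1 + 1) / sol 2 (n + 1)) = ga n := by
      have := (v_pos n).ne'
      have := (v_pos (n + 1)).ne'
      rw [sol_rec]; field_simp; ring
    obtain ⟨g1, g2⟩ := ga_le n
    obtain ⟨i1, i2⟩ := inv_le n
    rw [be_eq, div_eq_mul_one_div 9] at e
    rw [div_eq_mul_one_div] at g1 g2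
    rw [div_eq_mul_one_div 10, Real.dist_eq, Real.dist_eq]
    generalize 1 / ((n : ℝ) + 2) = t at *
    generalize (sol 2 (n + 1) : ℝ) / sol 2 n = r at *
    generalize (sol 2 (n + 1 + 1) : ℝ) / sol 2 (n + 1) = r' at *
    set l := 9 - 4 * Real.sqrt 2 with hl
    have hl2 : l * (18 - l) = 49 := by rw [hl]; linear_combination (-16) * s4
    have key : (r - l) * (18 - r') = 9 * t * r + (ga n - 49) + l * (r' - l) := by
      linear_combination e - hl2
    have h1 : |r - l| * (18 - r') ≤ 100 * t + 4 * |r' - l| := by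
      rw [← abs_of_pos (by linarith : 0 < 18 - r'), ← abs_mul, key]
      have h2 : |l * (r' - l)| ≤ 4 * |r' - l| := by
        rw [abs_mul, abs_of_pos (by linarith : 0 < l)]
        gcongr; linarith
      have h3 : |9 * t * r + (ga n - 49)| ≤ 100 * t := by
        rw [abs_le]; constructor <;> nlinarith
      linarith [abs_add_le (9 * t * r + (ga n - 49)) (l * (r' - l))]
    nlinarith [abs_nonneg (r - l), abs_nonneg (r' - l)]

lemma w_lim : Tendsto (fun n : ℕ => ((sol 18 (n + 1) : ℝ) / (sol 18 n : ℝ))) atTop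
    (𝓝 (9 + 4 * Real.sqrt 2)) := by
  obtain ⟨s1, s3, s4⟩ := s2
  rw [tendsto_iff_dist_tendsto_zero]
  have hr : ∀ n, 7 ≤ (sol 18 (n + 1) : ℝ) / sol 18 n ∧ (sol 18 (n + 1) : ℝ) / sol 18 n ≤ 18 :=
    fun n => ⟨(le_div_iff₀ (w_bd n).1).2 (w_bd n).2.1, (div_le_iff₀ (w_bd n).1).2 (w_bd n).2.2⟩
  refine lim_back 18 (fun n => dist_nonneg) (fun n => ?_) (t0 40) (Or.inr fun n => ?_)
  · obtain ⟨a, b⟩ := hr n
    rw [Real.dist_eq, abs_le]; constructor <;> linarith
  · obtain ⟨a, b⟩ := hr n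
    obtain ⟨a', b'⟩ := hr (n + 1)
    have e : (sol 18 (n + 1) : ℝ) / sol 18 n * (be n - sol 18 (n + 1 + 1) / sol 18 (n + 1)) =
        ga n := by
      have := (w_bd n).1.ne'
      have := (w_bd (n + 1)).1.ne'
      rw [sol_rec]; field_simp; ring
    obtain ⟨g1, g2⟩ := ga_le n
    obtain ⟨i1, i2⟩ := inv_le n
    rw [be_eq, div_eq_mul_one_div 9] at e
    rw [div_eq_mul_one_div] at g1 g2
    rw [div_eq_mul_one_div 40, Real.dist_eq, Real.dist_eq]
    generalize 1 / ((n : ℝ) + 2) = t at *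
    generalize (sol 18 (n + 1) : ℝ) / sol 18 n = r at *
    generalize (sol 18 (n + 1 + 1) : ℝ) / sol 18 (n + 1) = r' at *
    set L := 9 + 4 * Real.sqrt 2 with hL
    have hl2 : L * (18 - L) = 49 := by rw [hL]; linear_combination (-16) * s4
    have key : (r' - L) * r = (-(9 * t * r) + (49 - ga n)) + (18 - L) * (r - L) := by
      linear_combination -e + hl2
    have h1 : |r' - L| * r ≤ 200 * t + 7 / 2 * |r - L| := by
      rw [← abs_of_pos (by linarith : 0 < r), ← abs_mul, key, abs_of_pos (by linarith : 0 < r)]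
      have h2 : |(18 - L) * (r - L)| ≤ 7 / 2 * |r - L| := by
        rw [abs_mul, abs_of_pos (by linarith : 0 < 18 - L)]
        gcongr; linarith
      have h3 : |-(9 * t * r) + (49 - ga n)| ≤ 200 * t := by
        rw [abs_le]; constructor <;> nlinarith
      linarith [abs_add_le (-(9 * t * r) + (49 - ga n)) ((18 - L) * (r - L))]
    nlinarith [abs_nonneg (r - L), abs_nonneg (r' - L)]


/-- The negation of the preceding statement: If rational-function coefficients a_n, b_n tend to α, β, the roots λ, Λ of x²−βx−α satisfy 0<∣λ∣<∣Λ∣, and two independent rational solutions of u_n=b_n u_{n−1}+a_n u_{n−2} have ratios tending to λ and Λ, then λ, Λ are rational. -/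
theorem result :
    ¬ (∀ (a b : RatFunc ℚ) (α β lam Lam : ℝ) (v w : ℕ → ℚ),
      Tendsto (fun n : ℕ => ((RatFunc.eval (RingHom.id ℚ) (n : ℚ) a : ℚ) : ℝ)) atTop (nhds α) →
      Tendsto (fun n : ℕ => ((RatFunc.eval (RingHom.id ℚ) (n : ℚ) b : ℚ) : ℝ)) atTop (nhds β) →
      lam + Lam = β →
      lam * Lam = -α →
      0 < |lam| →
      |lam| < |Lam| →
      (∀ᶠ n in atTop, v (n + 2) =
          RatFunc.eval (RingHom.id ℚ) ((n + 2 : ℕ) : ℚ) b * v (n + 1) +
          RatFunc.eval (RingHom.id ℚ) ((n + 2 : ℕ) : ℚ) a * v n) →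
      (∀ᶠ n in atTop, w (n + 2) =
          RatFunc.eval (RingHom.id ℚ) ((n + 2 : ℕ) : ℚ) b * w (n + 1) +
          RatFunc.eval (RingHom.id ℚ) ((n + 2 : ℕ) : ℚ) a * w n) →
      (∀ c d : ℚ, (∀ᶠ n in atTop, c * v n + d * w n = 0) → c = 0 ∧ d = 0) →
      Tendsto (fun n : ℕ => ((v (n + 1) : ℝ) / (v n : ℝ))) atTop (nhds lam) →
      Tendsto (fun n : ℕ => ((w (n + 1) : ℝ) / (w n : ℝ))) atTop (nhds Lam) →
      (∃ q : ℚ, (q : ℝ) = lam) ∧ (∃ r : ℚ, (r : ℝ) = Lam)) := by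
  intro H
  obtain ⟨s1, s3, s4⟩ := s2
  have ha : Tendsto (fun n : ℕ => ((RatFunc.eval (RingHom.id ℚ) (n : ℚ) ra : ℚ) : ℝ)) atTop
      (nhds (-49)) := by
    rw [← tendsto_add_atTop_iff_nat 2]
    have h1 : Tendsto ga atTop (𝓝 49) :=
      tendsto_of_tendsto_of_tendsto_of_le_of_le (by simpa using (t0 60).const_sub 49)
        (by simpa using (t0 49).const_sub 49) (fun n => (ga_le n).1) fun n => (ga_le n).2
    refine h1.neg.congr fun n => ?_
    rw [ea, ga]; push_cast; ring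
  have hb : Tendsto (fun n : ℕ => ((RatFunc.eval (RingHom.id ℚ) (n : ℚ) rb : ℚ) : ℝ)) atTop
      (nhds 18) := by
    rw [← tendsto_add_atTop_iff_nat 2]
    have h1 : Tendsto (fun n : ℕ => 18 - 9 / ((n : ℝ) + 2)) atTop (𝓝 18) := by
      simpa using (t0 9).const_sub 18
    refine h1.congr fun n => ?_
    rw [eb, ← be_eq, be]; push_cast; ring
  obtain ⟨⟨q, hq⟩, -⟩ := H ra rb (-49) 18 (9 - 4 * Real.sqrt 2) (9 + 4 * Real.sqrt 2) (sol 2)
    (sol 18) ha hb (by ring) (by linear_combination (-16) * s4) (abs_pos.2 (by linarith))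
    (by rw [abs_of_pos (by linarith), abs_of_pos (by linarith)]; linarith)
    (Eventually.of_forall fun n => by rw [ea, eb, sol])
    (Eventually.of_forall fun n => by rw [ea, eb, sol])
    (fun c d h => by
      obtain ⟨n, hn⟩ := eventually_atTop.1 h
      have h1 : (c : ℝ) * sol 2 n + d * sol 18 n = 0 := by exact_mod_cast hn n le_rfl
      have h2 : (c : ℝ) * sol 2 (n + 1) + d * sol 18 (n + 1) = 0 := by
        exact_mod_cast hn (n + 1) n.le_succ
      have a1 := v_pos n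
      have a2 := v_le n
      obtain ⟨a3, a4, -⟩ := w_bd n
      have h3 : (c : ℝ) * (sol 2 (n + 1) * sol 18 n - sol 2 n * sol 18 (n + 1)) = 0 := by
        linear_combination (sol 18 n : ℝ) * h2 - (sol 18 (n + 1) : ℝ) * h1
      have h4 : (c : ℝ) = 0 := (mul_eq_zero.1 h3).resolve_right (by nlinarith [mul_pos a1 a3])
      rw [h4, zero_mul, zero_add] at h1
      exact ⟨by exact_mod_cast h4, by exact_mod_cast (mul_eq_zero.1 h1).resolve_right a3.ne'⟩)
    v_lim w_lim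
  exact irrational_sqrt_two ⟨(9 - q) / 4, by push_cast; linarith⟩

end Pool.Agent.S16580
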