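import Pool.Statements.S16631
-- import your own Pool.Agent.* helpers here

set_option autoImplicit false
open Pool Pool.MP_3bec75_nt

namespace Pool.Agent.S16631

def Rep (B : Set ℕ) (m n : ℕ) : Prop := ∃ f : Fin m → ℕ, (∀ i, f i ∈ B) ∧ ∑ i, f i = n

theorem Rep.zero (B : Set ℕ) : Rep B 0 0 := ⟨Fin.elim0, fun i => i.elim0, by simp⟩

theorem Rep.cons {B : Set ℕ} {m n b : ℕ} (h : Rep B m n) (hb : b ∈ B) : Rep B (m + 1) (n + b) := by
  obtain ⟨f, hf, rfl⟩ := h
  refine ⟨Fin.cons b f, fun i => ?_, by rw [Fin.sum_univ_succ]; simp [add_comm]⟩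
  refine Fin.cases ?_ (fun j => ?_) i
  · simpa using hb
  · simpa using hf j

theorem Rep.copies {B : Set ℕ} {m n b : ℕ} (h : Rep B m n) (hb : b ∈ B) (j : ℕ) :
    Rep B (m + j) (n + j * b) := by
  induction j with
  | zero => simpa using h
  | succ k ih =>
    have := ih.cons hb
    rwa [show n + k * b + b = n + (k + 1) * b by ring] at this

theorem Rep.interval {B : Set ℕ} {s Q : ℕ} (hB : ∀ z, s ≤ z → z ≤ Q → z ∈ B) (hsQ : s ≤ Q) (m : ℕ) :
    ∀ r, m * s ≤ r → r ≤ m * Q → Rep B m r := by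
  induction m with
  | zero => intro r _ h; obtain rfl : r = 0 := by omega
            exact Rep.zero B
  | succ k ih =>
    intro r h1 h2
    rw [add_mul, one_mul] at h1 h2
    have h3 : k * s ≤ k * Q := Nat.mul_le_mul_left _ hsQ
    by_cases h : r ≤ k * Q + s
    · have := (ih (r - s) (by omega) (by omega)).cons (hB s le_rfl hsQ)
      rwa [Nat.sub_add_cancel (by omega)] at this
    · have := (ih (k * Q) h3 le_rfl).cons (hB (r - k * Q) (by omega) (by omega))
      rwa [Nat.add_sub_cancel' (by omega)] at this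

section
variable (g : ℕ)

def Good (A : Set ℕ) (t : ℕ) : Prop := 1 ≤ t ∧ t - 1 ∉ A ∧ ∀ z, t ≤ z → z ≤ (g + 2) * t → z ∈ A

open Classical in
noncomputable def aa (k : ℕ) (p : ℕ × Set ℕ) : ℕ := if k + 2 ∈ p.2 then k + 2 else 2 * p.1

open Classical in
noncomputable def tt (k : ℕ) (p : ℕ × Set ℕ) : ℕ := Nat.findGreatest (Good g p.2) (aa k p / 2)

noncomputable def dd (k : ℕ) (p : ℕ × Set ℕ) : ℕ := aa k p + 1 - tt g k p

def QQ (p : ℕ × Set ℕ) : ℕ := 3 * (g + 2) * p.1

noncomputable def xx (k : ℕ) (p : ℕ × Set ℕ) : ℕ := 2 * QQ g p + g * dd g k p + 1 - aa k p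

noncomputable def nn (k : ℕ) (p : ℕ × Set ℕ) : ℕ := (g + 1) * xx g k p + aa k p

noncomputable def st : ℕ → ℕ × Set ℕ
  | 0 => (1, Set.Icc 1 (3 * (g + 2)))
  | k + 1 => (nn g k (st k) + 1, (st k).2 ∪ {xx g k (st k), xx g k (st k) + dd g k (st k)} ∪
      Set.Icc (nn g k (st k) + 1) (3 * (g + 2) * (nn g k (st k) + 1)))

theorem sQ (p : ℕ × Set ℕ) : 6 * p.1 ≤ QQ g p := by unfold QQ; nlinarith

theorem basic {k : ℕ} {p : ℕ × Set ℕ} (h : k + 1 ≤ p.1) :
    k + 2 ≤ aa k p ∧ aa k p ≤ 2 * p.1 ∧ 2 * tt g k p ≤ aa k p ∧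
      dd g k p + tt g k p = aa k p + 1 ∧ xx g k p + aa k p = 2 * QQ g p + g * dd g k p + 1 ∧
      QQ g p < xx g k p ∧ xx g k p + dd g k p < nn g k p + xx g k p - g * xx g k p + 1 ∧
      xx g k p + aa k p ≤ nn g k p := by
  classical
  have h1 : k + 2 ≤ aa k p ∧ aa k p ≤ 2 * p.1 := by unfold aa; split_ifs <;> omega
  have h2 : tt g k p ≤ aa k p / 2 := by unfold tt; convert Nat.findGreatest_le _
  have h3 := sQ g p
  have h4 : dd g k p + tt g k p = aa k p + 1 := by unfold dd; omega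
  have h5 : xx g k p + aa k p = 2 * QQ g p + g * dd g k p + 1 := by unfold xx; omega
  have h6 : nn g k p = g * xx g k p + xx g k p + aa k p := by unfold nn; ring
  refine ⟨h1.1, h1.2, by omega, h4, h5, by omega, by omega, by omega⟩

theorem inv (hg : 1 ≤ g) (k : ℕ) : k + 1 ≤ (st g k).1 ∧ (∀ z ∈ (st g k).2, z ≤ QQ g (st g k)) ∧
    (∀ z, (st g k).1 ≤ z → z ≤ QQ g (st g k) → z ∈ (st g k).2) ∧ (st g k).1 - 1 ∉ (st g k).2 := by
  induction k with
  | zero => simp [st, QQ]; exact fun z h1 h2 => ⟨h1, h2⟩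
  | succ k ih =>
    obtain ⟨h1, h2, h3, h4⟩ := ih
    obtain ⟨b1, b2, b3, b4, b5, b6, -, b8⟩ := basic g h1
    have h5 := sQ g (st g k)
    have h6 := sQ g (st g (k + 1))
    have h7 : nn g k (st g k) = g * xx g k (st g k) + xx g k (st g k) + aa k (st g k) := by
      unfold nn; ring
    have h8 : xx g k (st g k) ≤ g * xx g k (st g k) := Nat.le_mul_of_pos_left _ hg
    have e1 : (st g (k + 1)).1 = nn g k (st g k) + 1 := rfl
    have e2 : ∀ z, z ∈ (st g (k + 1)).2 ↔ (z ∈ (st g k).2 ∨ z = xx g k (st g k) ∨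
        z = xx g k (st g k) + dd g k (st g k)) ∨ (nn g k (st g k) + 1 ≤ z ∧
        z ≤ QQ g (st g (k + 1))) := fun z => Iff.rfl
    refine ⟨by omega, fun z hz => ?_, fun z h h' => (e2 z).2 (Or.inr ⟨h, h'⟩), fun hz => ?_⟩
    · rcases (e2 z).1 hz with (h | h | h) | h
      · have := h2 z h; omega
      all_goals omega
    · rcases (e2 _).1 hz with (h | h | h) | h
      · have := h2 _ h; omega
      all_goals omega

theorem mem_succ (k z : ℕ) : z ∈ (st g (k + 1)).2 ↔ (z ∈ (st g k).2 ∨ z = xx g k (st g k) ∨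
    z = xx g k (st g k) + dd g k (st g k)) ∨ (nn g k (st g k) + 1 ≤ z ∧
    z ≤ QQ g (st g (k + 1))) := Iff.rfl

theorem mono1 (k : ℕ) : (st g k).2 ⊆ (st g (k + 1)).2 := fun _ h => Or.inl (Or.inl h)

theorem mono : Monotone fun k => (st g k).2 := monotone_nat_of_le_succ (mono1 g)

theorem smono (hg : 1 ≤ g) : StrictMono fun k => (st g k).1 := strictMono_nat_of_lt_succ fun k => by
  obtain ⟨b1, b2, b3, b4, b5, b6, -, b8⟩ := basic g (inv g hg k).1
  have h5 := sQ g (st g k)
  have e1 : (st g (k + 1)).1 = nn g k (st g k) + 1 := rfl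
  omega

def AA : Set ℕ := ⋃ k, (st g k).2

theorem sub (k : ℕ) : (st g k).2 ⊆ AA g := Set.subset_iUnion (fun k => (st g k).2) k

theorem low (hg : 1 ≤ g) (k z : ℕ) (hz : z ∈ AA g) (h : z ≤ nn g k (st g k)) :
    z ∈ (st g k).2 ∨ z = xx g k (st g k) ∨ z = xx g k (st g k) + dd g k (st g k) := by
  obtain ⟨l, hl⟩ := Set.mem_iUnion.1 hz
  have key : ∀ m, z ∈ (st g (k + 1 + m)).2 → z ∈ (st g (k + 1)).2 := by
    intro m
    induction m with
    | zero => exact id
    | succ m ih =>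
      obtain ⟨b1, b2, b3, b4, b5, b6, -, b8⟩ := basic g (inv g hg (k + 1 + m)).1
      have h5 := sQ g (st g (k + 1 + m))
      have h6 : (st g (k + 1)).1 ≤ (st g (k + 1 + m)).1 := (smono g hg).monotone (by omega)
      have e1 : (st g (k + 1)).1 = nn g k (st g k) + 1 := rfl
      intro hz'
      rcases (mem_succ g (k + 1 + m) z).1 hz' with (h | h | h) | h
      · exact ih h
      all_goals omega
  rcases key l (mono g (by omega) hl) with (h | h | h) | h
  · exact Or.inl h
  · exact Or.inr (Or.inl h)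
  · exact Or.inr (Or.inr h)
  · have := h.1; omega

theorem low2 (hg : 1 ≤ g) (k z : ℕ) (hz : z ∈ AA g) (h : z ≤ QQ g (st g k)) : z ∈ (st g k).2 := by
  obtain ⟨b1, b2, b3, b4, b5, b6, -, b8⟩ := basic g (inv g hg k).1
  rcases low g hg k z hz (by omega) with h | h | h
  · exact h
  all_goals omega

theorem good_s (hg : 1 ≤ g) {j k : ℕ} (h : j ≤ k) : Good g (st g k).2 (st g j).1 := by
  obtain ⟨h1, h2, h3, h4⟩ := inv g hg j
  have h5 := sQ g (st g j)
  refine ⟨by omega, fun h => h4 (low2 g hg j _ (sub g k h) (by omega)),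
    fun z a b => mono g h (h3 z a (b.trans ?_))⟩
  unfold QQ; nlinarith

theorem good_t (hg : 1 ≤ g) (k : ℕ) : Good g (st g k).2 (tt g k (st g k)) := by
  classical
  obtain ⟨b1, -⟩ := basic g (inv g hg k).1
  unfold tt
  convert Nat.findGreatest_spec (P := Good g (st g k).2) (m := 1) (n := aa k (st g k) / 2)
    (by omega) (good_s g hg (Nat.zero_le k))

theorem t_large (hg : 1 ≤ g) (M k : ℕ) (h : 2 * (st g M).1 ≤ k) : M < tt g k (st g k) := by
  classical
  obtain ⟨b1, -⟩ := basic g (inv g hg k).1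
  have h1 := (inv g hg M).1
  have : (st g M).1 ≤ tt g k (st g k) := by
    unfold tt
    convert Nat.le_findGreatest (P := Good g (st g k).2) (n := aa k (st g k) / 2) (by omega)
      (good_s g hg (show M ≤ k by omega))
  omega

theorem a_mem (hg : 1 ≤ g) (k : ℕ) : aa k (st g k) ∈ (st g k).2 := by
  obtain ⟨h1, h2, h3, h4⟩ := inv g hg k
  have h5 := sQ g (st g k)
  unfold aa; split_ifs with h
  · exact h
  · exact h3 _ (by omega) (by omega)

theorem essential (hg : 1 ≤ g) (k : ℕ) (f : Fin (g + 2) → ℕ) (hf : ∀ i, f i ∈ AA g)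
    (hs : ∑ i, f i = nn g k (st g k)) : ∃ i, f i = aa k (st g k) := by
  obtain ⟨h1, h2, h3, h4⟩ := inv g hg k
  obtain ⟨b1, b2, b3, b4, b5, b6, -, b8⟩ := basic g h1
  obtain ⟨t1, t2, -⟩ := good_t g hg k
  have h5 := sQ g (st g k)
  have h7 : nn g k (st g k) = (g + 1) * xx g k (st g k) + aa k (st g k) := rfl
  have hl := fun i => low g hg k (f i) (hf i)
    (hs ▸ Finset.single_le_sum (fun _ _ => Nat.zero_le _) (Finset.mem_univ i))
  generalize xx g k (st g k) = x at *
  generalize dd g k (st g k) = d at *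
  generalize aa k (st g k) = a at *
  generalize tt g k (st g k) = t at *
  generalize QQ g (st g k) = Q at *
  generalize nn g k (st g k) = n at *
  set T := Finset.univ.filter fun i => x ≤ f i with hT
  set T' := Finset.univ.filter fun i => ¬ x ≤ f i with hT'
  have hc : T.card + T'.card = g + 2 := by
    rw [hT, hT', Finset.card_filter_add_card_filter_not]; simp
  have hsum : ∑ i ∈ T, f i + ∑ i ∈ T', f i = n := by
    rw [hT, hT', Finset.sum_filter_add_sum_filter_not, hs]
  have hA : ∀ i ∈ T', f i ∈ (st g k).2 := fun i hi => by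
    have := (Finset.mem_filter.1 hi).2
    rcases hl i with h | h | h
    · exact h
    all_goals omega
  have hW : ∑ i ∈ T', f i ≤ T'.card * Q :=
    Finset.sum_le_card_nsmul _ _ _ fun i hi => h2 _ (hA i hi)
  obtain ⟨V, hV, hV'⟩ : ∃ V, V ≤ T.card ∧ ∑ i ∈ T, f i = T.card * x + V * d := by
    refine ⟨(T.filter fun i => f i ≠ x).card, Finset.card_filter_le _ _, ?_⟩
    rw [Finset.card_filter (fun i => f i ≠ x), Finset.sum_mul, ← smul_eq_mul T.card,
      ← Finset.sum_const, ← Finset.sum_add_distrib]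
    refine Finset.sum_congr rfl fun i hi => ?_
    have := (Finset.mem_filter.1 hi).2
    rcases hl i with h | h | h
    · have := h2 _ h; omega
    · simp [h]
    · split_ifs <;> omega
  rcases Nat.lt_trichotomy T'.card 1 with h | h | h
  · exfalso
    have : T.card = g + 2 := by omega
    rw [this] at hV'
    nlinarith [Nat.zero_le (V * d), Nat.zero_le (∑ i ∈ T', f i)]
  · obtain ⟨i, hi⟩ := Finset.card_eq_one.1 h
    have hi2 := hA i (by rw [hi]; simp)
    have : T.card = g + 1 := by omega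
    rw [hi, Finset.sum_singleton, hV', this] at hsum
    refine ⟨i, ?_⟩
    rcases Nat.lt_trichotomy V 1 with h | h | h
    · obtain rfl : V = 0 := by omega
      omega
    · subst h
      exact absurd (by rwa [show t - 1 = f i by omega]) t2
    · have : 2 * d ≤ V * d := Nat.mul_le_mul_right _ h
      omega
  · exfalso
    obtain ⟨e, he⟩ : ∃ e, T'.card = e + 2 := ⟨T'.card - 2, by omega⟩
    have hg' : g = T.card + e := by omega
    rw [he] at hW
    generalize T.card = u at *
    subst hg'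
    have : V * d ≤ u * d := Nat.mul_le_mul_right _ hV
    have : e * Q ≤ e * x := Nat.mul_le_mul_left _ b6.le
    nlinarith [Nat.zero_le (e * d)]

theorem cover (hg : 1 ≤ g) (k n : ℕ) (hlo : (g + 2) * (st g k).1 ≤ n)
    (hhi : n < (g + 2) * (st g (k + 1)).1) :
    Rep {z | z ∈ AA g ∧ tt g k (st g k) ≤ z} (g + 2) n := by
  obtain ⟨h1, h2, h3, h4⟩ := inv g hg k
  obtain ⟨-, -, h3', -⟩ := inv g hg (k + 1)
  obtain ⟨b1, b2, b3, b4, b5, b6, -, b8⟩ := basic g h1
  obtain ⟨t1, -, t3⟩ := good_t g hg k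
  have h5 := sQ g (st g k)
  have h7 : nn g k (st g k) = (g + 1) * xx g k (st g k) + aa k (st g k) := rfl
  have hQ : QQ g (st g k) = 3 * (g + 2) * (st g k).1 := rfl
  have hQ' : QQ g (st g (k + 1)) = 3 * (g + 2) * (nn g k (st g k) + 1) := rfl
  have e1 : (st g (k + 1)).1 = nn g k (st g k) + 1 := rfl
  have ma := sub g k (a_mem g hg k)
  have mx : xx g k (st g k) ∈ AA g := sub g (k + 1) (Or.inl (Or.inr (Or.inl rfl)))
  have my : xx g k (st g k) + dd g k (st g k) ∈ AA g :=
    sub g (k + 1) (Or.inl (Or.inr (Or.inr rfl)))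
  rw [e1] at hhi h3'
  rw [hQ'] at h3'
  have i1 : ∀ z, (st g k).1 ≤ z → z ≤ QQ g (st g k) → z ∈ AA g := fun z a b => sub g k (h3 z a b)
  have i2 := fun z a b => sub g (k + 1) (h3' z a b)
  have i3 := fun z a b => sub g k (t3 z a b)
  clear h2 h3 h4 h3' t3 hQ' e1
  generalize xx g k (st g k) = x at *
  generalize dd g k (st g k) = d at *
  generalize aa k (st g k) = a at *
  generalize tt g k (st g k) = t at *
  generalize QQ g (st g k) = Q at *
  generalize nn g k (st g k) = N at *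
  generalize (st g k).1 = s at *
  set B := {z | z ∈ AA g ∧ t ≤ z} with hB
  have hI := Rep.interval (B := B) (s := s) (Q := Q) (fun z a b => ⟨i1 z a b, by omega⟩) (by omega)
  have hy : x + d + (g + 2) * s ≤ 3 * Q := by
    have : g * d ≤ g * (2 * s) := Nat.mul_le_mul_left _ (by omega)
    nlinarith
  have hj : ∀ j e, g = j + e → n ≤ j * (x + d) + (e + 2) * Q → Rep B (g + 2) n := by
    intro j
    induction j with
    | zero => intro e he h; exact hI _ n hlo (by simpa [he] using h)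
    | succ j ih =>
      intro e he h
      by_cases h' : n ≤ j * (x + d) + (e + 1 + 2) * Q
      · exact ih (e + 1) (by omega) h'
      · have a1 : (e + 2) * s ≤ (g + 2) * s := Nat.mul_le_mul_right _ (by omega)
        have a2 : (j + 1) * (x + d) + (e + 2) * s ≤ n := by nlinarith [Nat.zero_le (e * Q)]
        have := (hI (e + 2) (n - (j + 1) * (x + d)) (by omega) (by omega)).copies
          (show x + d ∈ B from ⟨my, by omega⟩) (j + 1)
        rwa [Nat.sub_add_cancel (by omega), show e + 2 + (j + 1) = g + 2 by omega] at this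
  rcases Nat.lt_trichotomy n N with h | h | h
  · exact hj g 0 rfl (by nlinarith)
  · have := ((Rep.zero B).cons (show a ∈ B from ⟨ma, by omega⟩)).copies
      (show x ∈ B from ⟨mx, by omega⟩) (g + 1)
    rwa [show 0 + 1 + (g + 1) = g + 2 by omega, show 0 + a + (g + 1) * x = n by omega] at this
  · by_cases h' : n ≤ N + (g + 1) * t
    · have a1 : (g + 2) * t = (g + 1) * t + t := by ring
      have := (((Rep.zero B).cons (show t + (n - N) - 1 ∈ B from
        ⟨i3 _ (by omega) (by omega), by omega⟩)).cons (show x + d ∈ B from ⟨my, by omega⟩)).copies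
        (show x ∈ B from ⟨mx, by omega⟩) g
      have a2 : (g + 1) * x = g * x + x := by ring
      rwa [show 0 + 1 + 1 + g = g + 2 by omega,
        show 0 + (t + (n - N) - 1) + (x + d) + g * x = n by omega] at this
    · have a1 : (g + 2) * (N + 1) ≤ 3 * (g + 2) * (N + 1) := by nlinarith
      have := ((Rep.zero B).cons (show n - (g + 1) * t ∈ B from
        ⟨i2 _ (by omega) (by omega), by omega⟩)).copies
        (show t ∈ B from ⟨i3 _ le_rfl (by nlinarith), le_rfl⟩) (g + 1)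
      rwa [show 0 + 1 + (g + 1) = g + 2 by omega,
        show 0 + (n - (g + 1) * t) + (g + 1) * t = n by omega] at this

theorem basis (hg : 1 ≤ g) (M : ℕ) : ∃ N, ∀ n, N ≤ n → Rep {z | z ∈ AA g ∧ M < z} (g + 2) n := by
  classical
  refine ⟨(g + 2) * (st g (2 * (st g M).1)).1, fun n hn => ?_⟩
  have hex : ∃ k, n < (g + 2) * (st g k).1 := ⟨n, by have := (inv g hg n).1; nlinarith⟩
  have h1 := Nat.find_spec hex
  have h2 : 2 * (st g M).1 < Nat.find hex := by
    by_contra h
    have := Nat.mul_le_mul_left (g + 2) ((smono g hg).monotone (not_lt.1 h))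
    omega
  obtain ⟨k, hk⟩ : ∃ k, Nat.find hex = k + 1 := ⟨Nat.find hex - 1, by omega⟩
  have h3 := Nat.find_min hex (show k < Nat.find hex by omega)
  rw [hk] at h1
  obtain ⟨f, hf, hs⟩ := cover g hg k n (not_lt.1 h3) h1
  exact ⟨f, fun i => ⟨(hf i).1, (t_large g hg M k (by omega)).trans_le (hf i).2⟩, hs⟩

end

/-- For every h ≥ 3 there is a set A of naturals such that all large n are sums of h elements of A, and for every subset S of A, removing S keeps this property exactly when S is finite. -/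
theorem result :
    ∀ h : ℕ, 3 ≤ h →
      ∃ A : Set ℕ,
        (∃ N : ℕ, ∀ n : ℕ, N ≤ n →
          ∃ f : Fin h → ℕ, (∀ i, f i ∈ A) ∧ ∑ i, f i = n) ∧
        ∀ S : Set ℕ, S ⊆ A →
          ((∃ N : ℕ, ∀ n : ℕ, N ≤ n →
              ∃ f : Fin h → ℕ, (∀ i, f i ∈ A \ S) ∧ ∑ i, f i = n) ↔ S.Finite) := by
  intro h hh
  obtain ⟨g, rfl⟩ : ∃ g, h = g + 2 := ⟨h - 2, by omega⟩
  have hg : 1 ≤ g := by omega
  refine ⟨AA g, ?_, fun S hS => ⟨?_, fun hfin => ?_⟩⟩
  · obtain ⟨N, hN⟩ := basis g hg 0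
    refine ⟨N, fun n hn => ?_⟩
    obtain ⟨f, hf, hs⟩ := hN n hn
    exact ⟨f, fun i => (hf i).1, hs⟩
  · rintro ⟨N, hN⟩
    by_contra hinf
    obtain ⟨a, ha, ha'⟩ := Set.Infinite.exists_gt hinf (N + 2)
    obtain ⟨k, rfl⟩ : ∃ k, a = k + 2 := ⟨a - 2, by omega⟩
    have h1 := (inv g hg k).1
    have h5 := sQ g (st g k)
    obtain ⟨b1, b2, b3, b4, b5, b6, -, b8⟩ := basic g h1
    have h2 : aa k (st g k) = k + 2 := by
      unfold aa; rw [if_pos (low2 g hg k _ (hS ha) (by omega))]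
    obtain ⟨f, hf, hs⟩ := hN (nn g k (st g k)) (by omega)
    obtain ⟨i, hi⟩ := essential g hg k f (fun i => (hf i).1) hs
    exact (hf i).2 (by rwa [hi, h2])
  · obtain ⟨M, hM⟩ := hfin.bddAbove
    obtain ⟨N, hN⟩ := basis g hg M
    refine ⟨N, fun n hn => ?_⟩
    obtain ⟨f, hf, hs⟩ := hN n hn
    exact ⟨f, fun i => ⟨(hf i).1, fun h => absurd (hM h) (not_le.2 (hf i).2)⟩, hs⟩

end Pool.Agent.S16631
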