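import Pool.Statements.S16733

set_option autoImplicit false
open Pool Pool.MP_44e698_nt

namespace Pool.Agent.S16733

/-- index set -/
abbrev P := (ℕ × ℕ) × (ℕ × ℕ)

/-- the exponent `((2a+1)(2x+1) + (2b+2)(y+1) + 1) / 2` -/
def N (a b x y : ℕ) : ℕ := 2 * a * x + a + x + 1 + (b + 1) * (y + 1)

lemma summ {r : ℝ} (h0 : 0 ≤ r) (h1 : r < 1) (f : P → ℂ) (e : P → ℕ)
    (he : ∀ p, p.1.1 + p.1.2 + (p.2.1 + p.2.2) ≤ e p) (hf : ∀ p, ‖f p‖ ≤ 2 * r ^ e p) :
    Summable f := by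
  have g1 := summable_geometric_of_lt_one h0 h1
  have g2 : Summable (fun p : ℕ × ℕ => r ^ p.1 * r ^ p.2) :=
    g1.mul_of_nonneg g1 (fun _ => by positivity) (fun _ => by positivity)
  have g4 : Summable (fun p : P => (r ^ p.1.1 * r ^ p.1.2) * (r ^ p.2.1 * r ^ p.2.2)) :=
    g2.mul_of_nonneg g2 (fun _ => by positivity) (fun _ => by positivity)
  refine Summable.of_norm_bounded (g4.mul_left 2) fun p => (hf p).trans ?_
  rw [← pow_add, ← pow_add, ← pow_add]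
  exact mul_le_mul_of_nonneg_left (pow_le_pow_of_le_one h0 h1.le (he p)) (by norm_num)

lemma reidx (f : P → ℂ) (φ : P → P) (hφ : Function.Injective φ) (R : P → Prop) [DecidablePred R]
    (h1 : ∀ i, R (φ i)) (h2 : ∀ p, R p → ∃ i, φ i = p) :
    ∑' i, f (φ i) = ∑' p, if R p then f p else 0 := by
  rw [← hφ.tsum_eq (f := fun p => if R p then f p else 0)]
  · simp [h1]
  · intro p hp
    by_cases h : R p
    · exact h2 p h
    · simp [h] at hp

lemma split (f : P → ℂ) (hf : Summable f) (R : P → Prop) [DecidablePred R] :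
    ∑' p, f p = (∑' p, if R p then f p else 0) + ∑' p, if ¬ R p then f p else 0 := by
  rw [← Summable.tsum_add]
  · refine tsum_congr fun p => ?_
    by_cases h : R p <;> simp [h]
  · refine Summable.of_norm_bounded hf.norm fun p => ?_
    split_ifs <;> simp
  · refine Summable.of_norm_bounded hf.norm fun p => ?_
    split_ifs <;> simp

/-- signed even part -/
noncomputable def K (q : ℂ) (a b x y : ℕ) : ℂ :=
  (-1) ^ x * (-1) ^ y * (q ^ N a b x y + (-q) ^ N a b x y)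

lemma K_le (q : ℂ) (a b x y : ℕ) : ‖K q a b x y‖ ≤ 2 * ‖q‖ ^ N a b x y := by
  unfold K
  rw [norm_mul, norm_mul, norm_pow, norm_pow, norm_neg, norm_one, one_pow, one_pow, one_mul,
    one_mul]
  refine (norm_add_le _ _).trans ?_
  rw [norm_pow, norm_pow, norm_neg]
  linarith

lemma K_shift (q : ℂ) (s b x e : ℕ) : K q (b + 1 + s) b x (2 * e) = -K q s b x (2 * (e + x) + 1) := by
  have : N (b + 1 + s) b x (2 * e) = N s b x (2 * (e + x) + 1) := by unfold N; ring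
  unfold K
  rw [this, pow_succ (-1 : ℂ) (2 * (e + x)), pow_mul, pow_mul]
  ring

lemma K_swap (q : ℂ) (a b x d : ℕ) : K q x d a (2 * b + 1) = -K q a b x (2 * d + 1) := by
  have h1 : N x d a (2 * b + 1) = N a b x (2 * d + 1) := by unfold N; ring
  have h2 : N a b x (2 * d + 1) = 2 * (a * x + (b + 1) * (d + 1)) + (a + x + 1) := by
    unfold N; ring
  unfold K
  rw [h1, pow_succ (-1 : ℂ) (2 * b), pow_succ (-1 : ℂ) (2 * d), pow_mul, pow_mul, neg_pow q, h2,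
    pow_add (-1 : ℂ), pow_mul, pow_add (-1 : ℂ), pow_add (-1 : ℂ)]
  rcases neg_one_pow_eq_or ℂ a with ha | ha <;> rcases neg_one_pow_eq_or ℂ x with hx | hx <;>
    simp [ha, hx]

lemma main (q : ℂ) (hq : ‖q‖ < 1) :
    ∑' p : P, K q (p.1.2 + 1 + p.2.1) p.1.2 p.1.1 p.2.2 = 0 := by
  set H : P → ℂ := fun p => K q p.2.1 p.1.2 p.1.1 (2 * p.2.2 + 1) with hH
  have sH : Summable H := summ (norm_nonneg q) hq _ _
    (fun p => by unfold N; nlinarith [Nat.zero_le (p.2.1 * p.1.1), Nat.zero_le (p.1.2 * p.2.2)])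
    (fun p => K_le q _ _ _ _)
  have sM : Summable (fun p : P => K q (p.1.2 + 1 + p.2.1) p.1.2 p.1.1 p.2.2) :=
    summ (norm_nonneg q) hq _ _
      (fun p => by
        unfold N
        nlinarith [Nat.zero_le ((p.1.2 + 1 + p.2.1) * p.1.1), Nat.zero_le (p.1.2 * p.2.2)])
      (fun p => K_le q _ _ _ _)
  let σ : P ≃ P := ⟨fun p => ((p.2.1, p.2.2), (p.1.1, p.1.2)),
    fun p => ((p.2.1, p.2.2), (p.1.1, p.1.2)), fun _ => rfl, fun _ => rfl⟩
  have hσ : ∀ p, H (σ p) = -H p := fun p => K_swap q _ _ _ _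
  have h0 : ∑' p, H p = 0 := by
    have := σ.tsum_eq H
    simp only [hσ, tsum_neg] at this
    linear_combination (-1 / 2 : ℂ) * this
  have h1 : (∑' p, if p.1.2 < p.2.1 then H p else 0) =
      -∑' p, if ¬ p.1.1 ≤ p.2.2 then H p else 0 := by
    rw [← σ.tsum_eq, ← tsum_neg]
    refine tsum_congr fun p => ?_
    rw [hσ]
    change (if p.2.2 < p.1.1 then _ else _) = _
    by_cases h : p.2.2 < p.1.1
    · rw [if_pos h, if_pos (by omega)]
    · rw [if_neg h, if_neg (by omega), neg_zero]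
  have h2 := split H sH (fun p => p.1.1 ≤ p.2.2)
  have h3 := reidx H (fun p => (p.1, (p.1.2 + 1 + p.2.1, p.2.2)))
    (fun p p' h => by
      simp only [Prod.ext_iff] at h ⊢
      omega) (fun p => p.1.2 < p.2.1) (fun p => by dsimp only; omega)
    (fun p h => ⟨(p.1, (p.2.1 - p.1.2 - 1, p.2.2)), by
      simp only [Prod.ext_iff, true_and, and_true]
      omega⟩)
  have h4 := reidx H (fun p => (p.1, (p.2.1, p.2.2 + p.1.1)))
    (fun p p' h => by
      simp only [Prod.ext_iff] at h ⊢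
      omega) (fun p => p.1.1 ≤ p.2.2) (fun p => by dsimp only; omega)
    (fun p h => ⟨(p.1, (p.2.1, p.2.2 - p.1.1)), by
      simp only [Prod.ext_iff, true_and]
      omega⟩)
  have h5 := reidx (fun p : P => K q (p.1.2 + 1 + p.2.1) p.1.2 p.1.1 p.2.2)
    (fun p => (p.1, (p.2.1, 2 * p.2.2)))
    (fun p p' h => by
      simp only [Prod.ext_iff] at h ⊢
      omega) (fun p => p.2.2 % 2 = 0) (fun p => by dsimp only; omega)
    (fun p h => ⟨(p.1, (p.2.1, p.2.2 / 2)), by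
      simp only [Prod.ext_iff, true_and]
      omega⟩)
  have h6 := reidx (fun p : P => K q (p.1.2 + 1 + p.2.1) p.1.2 p.1.1 p.2.2)
    (fun p => (p.1, (p.2.1, 2 * p.2.2 + 1)))
    (fun p p' h => by
      simp only [Prod.ext_iff] at h ⊢
      omega) (fun p => ¬ p.2.2 % 2 = 0) (fun p => by dsimp only; omega)
    (fun p h => ⟨(p.1, (p.2.1, p.2.2 / 2)), by
      simp only [Prod.ext_iff, true_and]
      omega⟩)
  rw [split _ sM (fun p => p.2.2 % 2 = 0), ← h5, ← h6]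
  simp only [K_shift, tsum_neg]
  simp only [hH] at h0 h1 h2 h3 h4
  linear_combination h3 + h1 - h4 + h2 - h0

lemma term (q : ℂ) (hq : ‖q‖ < 1) (x b : ℕ) :
    (-q) ^ (2 * (x + 1) * (b + 1) + (x + 1)) / ((1 + q ^ (b + 1)) * (1 - q ^ (2 * x + 1))) =
      ∑' u : ℕ × ℕ, -((-1) ^ x * (-1) ^ u.2 * q ^ N (b + 1 + u.1) b x u.2) := by
  have n1 : ‖q ^ (2 * x + 1)‖ < 1 := by
    rw [norm_pow]; exact pow_lt_one₀ (norm_nonneg q) hq (by omega)
  have n2 : ‖-q ^ (b + 1)‖ < 1 := by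
    rw [norm_neg, norm_pow]; exact pow_lt_one₀ (norm_nonneg q) hq (by omega)
  have e := tsum_mul_tsum_of_summable_norm (summable_norm_geometric_of_norm_lt_one n1)
    (summable_norm_geometric_of_norm_lt_one n2)
  rw [tsum_geometric_of_norm_lt_one n1, tsum_geometric_of_norm_lt_one n2, sub_neg_eq_add] at e
  rw [div_eq_mul_inv, mul_inv, mul_comm (1 + q ^ (b + 1))⁻¹, e, ← tsum_mul_left]
  refine tsum_congr fun u => ?_
  have h : N (b + 1 + u.1) b x u.2 =
      (2 * (x + 1) * (b + 1) + (x + 1)) + (2 * x + 1) * u.1 + (b + 1) * u.2 := by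
    unfold N; ring
  rw [h, neg_pow q, neg_pow (q ^ (b + 1)), ← pow_mul, ← pow_mul, pow_add (-1 : ℂ), mul_assoc 2,
    pow_mul (-1 : ℂ) 2, pow_add q, pow_add q (_ + _)]
  ring

lemma sumN (q : ℂ) (hq : ‖q‖ < 1) : Summable (fun p : P =>
    -((-1) ^ p.1.1 * (-1) ^ p.2.2 * q ^ N (p.1.2 + 1 + p.2.1) p.1.2 p.1.1 p.2.2)) :=
  summ (norm_nonneg q) hq _ (fun p => N (p.1.2 + 1 + p.2.1) p.1.2 p.1.1 p.2.2)
    (fun p => by
      unfold N
      nlinarith [Nat.zero_le ((p.1.2 + 1 + p.2.1) * p.1.1), Nat.zero_le (p.1.2 * p.2.2)])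
    (fun p => by
      rw [norm_neg, norm_mul, norm_mul, norm_pow, norm_pow, norm_pow, norm_neg, norm_one, one_pow,
        one_pow, one_mul, one_mul]
      have : 0 ≤ ‖q‖ ^ N (p.1.2 + 1 + p.2.1) p.1.2 p.1.1 p.2.2 := by positivity
      linarith)

lemma Yexp (q : ℂ) (hq : ‖q‖ < 1) :
    (∑' p : ℕ × ℕ, (-q) ^ (2 * (p.1 + 1) * (p.2 + 1) + (p.1 + 1)) /
      ((1 + q ^ (p.2 + 1)) * (1 - q ^ (2 * p.1 + 1)))) =
    ∑' p : P, -((-1) ^ p.1.1 * (-1) ^ p.2.2 * q ^ N (p.1.2 + 1 + p.2.1) p.1.2 p.1.1 p.2.2) := by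
  rw [(sumN q hq).tsum_prod]
  exact tsum_congr fun p => term q hq p.1 p.2

/-- For every complex q with ∣q∣<1, let Y(q) be the sum over m,n≥1 of (-q)^(2mn+m)/((1+q^n)(1-q^(2m-1))). Then Y(-q) = -Y(q), i.e. Y is an odd function. -/
theorem result :
    ∀ q : ℂ, ‖q‖ < 1 →
      (∑' p : ℕ × ℕ, (-(-q)) ^ (2 * (p.1 + 1) * (p.2 + 1) + (p.1 + 1)) /
          ((1 + (-q) ^ (p.2 + 1)) * (1 - (-q) ^ (2 * p.1 + 1))))
        = -(∑' p : ℕ × ℕ, (-q) ^ (2 * (p.1 + 1) * (p.2 + 1) + (p.1 + 1)) /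
          ((1 + q ^ (p.2 + 1)) * (1 - q ^ (2 * p.1 + 1)))) := by
  intro q hq
  have hq' : ‖-q‖ < 1 := by rwa [norm_neg]
  rw [Yexp q hq, Yexp (-q) hq', eq_neg_iff_add_eq_zero, ← (sumN _ hq').tsum_add (sumN q hq),
    ← neg_zero, ← main q hq, ← tsum_neg]
  refine tsum_congr fun p => ?_
  unfold K
  ring

end Pool.Agent.S16733
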