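import Pool.Statements.S16968
-- import your own Pool.Agent.* helpers here

set_option autoImplicit false
open Pool Pool.MP_5317dd_nt

namespace Pool.Agent.S16968

/-- The cycle of `F_13` through 147. -/
def orbit13 : List ℕ :=
  [147, 2054, 158, 2210, 170, 2379, 183, 2561, 197, 2756, 212, 2964, 228, 3185, 245, 3419, 263, 3679, 283, 3952, 304, 4251, 327, 4576, 352, 4927, 379, 5304, 408, 5707, 439, 6136, 472, 6604, 508, 7111, 547, 7657, 589, 8242, 634, 8866, 682, 9542, 734, 10270, 790, 11050, 850, 11895, 915, 12805, 985, 13780, 1060, 14833, 1141, 15964, 1228, 17186, 1322, 18499, 1423, 19916, 1532, 21437, 1649, 23075, 1775, 24843, 1911]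

/-- The negation of the preceding statement: For every D ≥ 2 and every n ≥ 1, iterating F_D from n eventually gives a value below D. Here F_D(x) is x/D if D divides x, (D+1)x+1 if x ≡ −1 mod D, and (D+1)x − (x mod D) otherwise. -/
theorem result :
    ¬ (∀ D : ℕ, 2 ≤ D → ∀ n : ℕ, 1 ≤ n →
      ∃ k : ℕ,
        (fun x : ℕ =>
          if x % D = 0 then x / D
          else if x % D = D - 1 then (D + 1) * x + 1
          else (D + 1) * x - x % D)^[k] n < D) := by
  intro h
  obtain ⟨k, hk⟩ := h 13 (by norm_num) 147 (by norm_num)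
  have key : ∀ x ∈ orbit13, 13 ≤ x ∧
      (if x % 13 = 0 then x / 13
        else if x % 13 = 13 - 1 then (13 + 1) * x + 1
        else (13 + 1) * x - x % 13) ∈ orbit13 := by
    decide +kernel
  have inv : ∀ m : ℕ, (fun x : ℕ =>
          if x % 13 = 0 then x / 13
          else if x % 13 = 13 - 1 then (13 + 1) * x + 1
          else (13 + 1) * x - x % 13)^[m] 147 ∈ orbit13 := by
    intro m
    induction m with
    | zero => decide +kernel
    | succ m ih =>
      rw [Function.iterate_succ_apply']
      exact (key _ ih).2
  have := (key _ (inv k)).1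
  omega

end Pool.Agent.S16968
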