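import Pool.Statements.S16992
import Pool.Agent.H24.Rom7

set_option autoImplicit false
open Pool Pool.MP_559555_nt

namespace Pool.Agent.S16992

/-- The negation of the preceding statement: Let W(n) be the sum over the prime powers p^a exactly dividing n of n/p^a. The number of distinct values W(n) takes for 1 ≤ n ≤ x, divided by x, tends to 0 as x tends to infinity. -/
theorem result :
    ¬ (Filter.Tendsto
      (fun x : ℕ =>
        (((Finset.Icc 1 x).image
            (fun n : ℕ => ∑ p ∈ n.primeFactors, n / p ^ (n.factorization p))).card : ℝ)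
          / (x : ℝ))
      Filter.atTop (nhds 0)) := by
  intro h
  obtain ⟨C, j0, C0, hC⟩ := Pool.Agent.H24.Rom.main
  have t : Filter.Tendsto (fun j : ℕ => (4 ^ j) ^ 520) Filter.atTop Filter.atTop :=
    (Filter.tendsto_pow_atTop (by norm_num)).comp (tendsto_pow_atTop_atTop_of_one_lt (by norm_num))
  obtain ⟨j, h1, h2⟩ := (((h.comp t).eventually (gt_mem_nhds (by positivity : (0 : ℝ) < 1 / C))).and
    (Filter.eventually_ge_atTop j0)).exists
  have h3 := hC j h2
  simp only [Function.comp] at h1
  rw [div_lt_div_iff₀ (by positivity) C0] at h1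
  push_cast at h1
  rw [one_mul, mul_comm] at h1
  exact absurd h3 (not_le.2 h1)

end Pool.Agent.S16992
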