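import Pool.Statements.S16995
import Pool.Agent.H20.HypE

set_option autoImplicit false
open Pool Pool.MP_55e671_nt

namespace Pool.Agent.S16995

/-- For every A in ℕ×ℕ of positive upper Banach density, the set of products x·y over (x,y) in A−A contains a nonzero subgroup of the integers. -/
theorem result :
    ∀ A : Set (ℕ × ℕ),
      (∃ ε : ℝ, 0 < ε ∧ ∀ N : ℕ, ∃ a b m n : ℕ, N ≤ m ∧ N ≤ n ∧
        ε * ((m : ℝ) * (n : ℝ)) ≤
          (({p : ℕ × ℕ | p ∈ A ∧ a ≤ p.1 ∧ p.1 < a + m ∧ b ≤ p.2 ∧ p.2 < b + n}.ncard : ℕ) : ℝ)) →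
      ∃ H : AddSubgroup ℤ, H ≠ ⊥ ∧
        ∀ z ∈ H, ∃ p ∈ A, ∃ q ∈ A,
          (((p.1 : ℤ) - (q.1 : ℤ)) * ((p.2 : ℤ) - (q.2 : ℤ))) = z := by
  rintro A ⟨ε, hε, hA⟩
  by_contra hh
  push Not at hh
  have h1 : ∀ k : ℕ, ∃ z : ℤ, ∀ p ∈ A, ∀ q ∈ A,
      ((p.1 : ℤ) - q.1) * ((p.2 : ℤ) - q.2) ≠ z * (k.factorial * k.factorial) := fun k => by
    have h0 : ((k.factorial : ℤ) * k.factorial) ≠ 0 := by positivity
    obtain ⟨z, hz, h⟩ := hh (AddSubgroup.zmultiples ((k.factorial : ℤ) * k.factorial))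
      (by rwa [Ne, AddSubgroup.zmultiples_eq_bot])
    obtain ⟨c, rfl⟩ := AddSubgroup.mem_zmultiples_iff.1 hz
    exact ⟨c, h⟩
  choose z hz using h1
  obtain ⟨F, hF⟩ := Pool.Agent.H20.Hyp.exists_good A ε hε hA z hz
  obtain ⟨G, hG, hi⟩ := Pool.Agent.H20.Hyp.exists_inv hF
  exact Pool.Agent.H20.Hyp.core (by positivity) hG hi

end Pool.Agent.S16995
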