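import Pool.Statements.S17050
import Pool.Agent.H24.Quint

set_option autoImplicit false
open Pool Pool.MP_59b56e_nt

namespace Pool.Agent.S17050

/-- The negation of the preceding statement: Every real polynomial of degree n ≥ 1 having n distinct rational roots admits a nonzero real t such that p(x) − t also has n distinct rational roots. -/
theorem result :
    ¬ (∀ p : Polynomial ℝ, 0 < p.natDegree →
      (∃ s : Finset ℚ, s.card = p.natDegree ∧ ∀ q ∈ s, p.eval (q : ℝ) = 0) →
      ∃ t : ℝ, t ≠ 0 ∧
        ∃ s : Finset ℚ, s.card = p.natDegree ∧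
          ∀ q ∈ s, (p - Polynomial.C t).eval (q : ℝ) = 0) := by
  intro h
  have hdeg : (Polynomial.X ^ 5 - Polynomial.C 13 * Polynomial.X ^ 3 + Polynomial.C 36 * Polynomial.X :
      Polynomial ℝ).natDegree = 5 := by compute_degree!
  obtain ⟨t, ht, s, hs, hq⟩ := h (Polynomial.X ^ 5 - Polynomial.C 13 * Polynomial.X ^ 3 +
      Polynomial.C 36 * Polynomial.X) (by rw [hdeg]; norm_num) ⟨{0, 2, -2, 3, -3}, by rw [hdeg]; decide, by
    intro q hq
    simp only [Finset.mem_insert, Finset.mem_singleton] at hq
    rcases hq with rfl | rfl | rfl | rfl | rfl <;> simp <;> norm_num⟩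
  rw [hdeg] at hs
  have hq' : ∀ q ∈ s, ((q ^ 5 - 13 * q ^ 3 + 36 * q : ℚ) : ℝ) = t := by
    intro q hqs
    have := hq q hqs
    simp only [Polynomial.eval_sub, Polynomial.eval_add, Polynomial.eval_mul, Polynomial.eval_pow,
      Polynomial.eval_X, Polynomial.eval_C] at this
    push_cast
    linarith
  let f : Fin 5 → ℚ := fun i => ((s.equivFinOfCardEq hs).symm i : ℚ)
  have hf : Function.Injective f := fun i j hij =>
    (s.equivFinOfCardEq hs).symm.injective (Subtype.ext hij)
  have hm : ∀ i, f i ∈ s := fun i => ((s.equivFinOfCardEq hs).symm i).2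
  have := Pool.Agent.H24.Quint.main (f 0 ^ 5 - 13 * f 0 ^ 3 + 36 * f 0) (f 0) (f 1) (f 2) (f 3) (f 4)
    (hf.ne (by decide)) (hf.ne (by decide)) (hf.ne (by decide)) (hf.ne (by decide)) (hf.ne (by decide))
    (hf.ne (by decide)) (hf.ne (by decide)) (hf.ne (by decide)) (hf.ne (by decide)) (hf.ne (by decide)) (by
      intro r hr
      have hr' : r ∈ s := by rcases hr with rfl | rfl | rfl | rfl | rfl <;> exact hm _
      have := (hq' r hr').trans (hq' _ (hm 0)).symm
      exact_mod_cast this)
  apply ht
  rw [← hq' _ (hm 0), this]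
  simp

end Pool.Agent.S17050
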