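import Pool.Statements.S17143


set_option autoImplicit false
open Pool Pool.MP_6023ab_nt

namespace Pool.Agent.S17143

open MvPolynomial

noncomputable def F (a b c d : ℝ) : MvPolynomial (Fin 2) ℝ :=
  C a * X 0 ^ 3 + C b * (X 0 ^ 2 * X 1) + C c * (X 0 * X 1 ^ 2) + C d * X 1 ^ 3

lemma F_hom (a b c d : ℝ) : (F a b c d).IsHomogeneous 3 := by
  unfold F
  refine ((IsHomogeneous.add (IsHomogeneous.add ?_ ?_) ?_).add ?_)
  · exact ((isHomogeneous_X ℝ 0).pow 3).C_mul _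
  · exact (((isHomogeneous_X ℝ 0).pow 2).mul (isHomogeneous_X ℝ 1)).C_mul _
  · exact ((isHomogeneous_X ℝ 0).mul ((isHomogeneous_X ℝ 1).pow 2)).C_mul _
  · exact ((isHomogeneous_X ℝ 1).pow 3).C_mul _

lemma ev0 (a b c d : ℝ) : eval ![1, 0] (F a b c d) = a := by simp [F]
lemma ev1 (a b c d : ℝ) : eval ![0, 1] (F a b c d) = d := by simp [F]

lemma nonprop {a b c d a' b' c' d' : ℝ} (h : a * d' ≠ a' * d) (t : ℝ) :
    F a b c d ≠ t • F a' b' c' d' := by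
  intro he
  have h0 := congrArg (eval ![1, 0]) he
  have h1 := congrArg (eval ![0, 1]) he
  rw [smul_eval, ev0, ev0] at h0
  rw [smul_eval, ev1, ev1] at h1
  apply h
  rw [h0, h1]; ring

noncomputable def f : Fin 4 → MvPolynomial (Fin 2) ℝ :=
  ![F (√2) 1 (2 * √2) (-1), F (-1) (2 * √2) 1 (√2), F (√2) (-1) (2 * √2) 1,
    F 1 (2 * √2) (-1) (√2)]

lemma ident : f 0 ^ 4 + f 1 ^ 4 = f 2 ^ 4 + f 3 ^ 4 := by
  have h : (C (√2) : MvPolynomial (Fin 2) ℝ) ^ 2 = 2 := by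
    rw [← C_pow, Real.sq_sqrt (by norm_num)]; rfl
  have h2 : (C 2 : MvPolynomial (Fin 2) ℝ) = 2 := rfl
  show F (√2) 1 (2 * √2) (-1) ^ 4 + F (-1) (2 * √2) 1 (√2) ^ 4 = F (√2) (-1) (2 * √2) 1 ^ 4 +
    F 1 (2 * √2) (-1) (√2) ^ 4
  simp only [F, C_mul, C_neg, C_1, h2]
  set w : MvPolynomial (Fin 2) ℝ := C (√2)
  set x : MvPolynomial (Fin 2) ℝ := X 0
  set y : MvPolynomial (Fin 2) ℝ := X 1
  linear_combination (8 * w * x * y * (x ^ 2 - y ^ 2) *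
    (x ^ 2 * (x ^ 2 + 2 * y ^ 2) ^ 3 - y ^ 2 * (2 * x ^ 2 + y ^ 2) ^ 3)) * h


/-- There is a degree k between 1 and 6 and four nonzero, pairwise non-proportional real binary forms of degree k with f1^4 + f2^4 = f3^4 + f4^4. -/
theorem result :
    ∃ k : ℕ, 1 ≤ k ∧ k < 7 ∧
      ∃ f : Fin 4 → MvPolynomial (Fin 2) ℝ,
        (∀ i, f i ≠ 0 ∧ (f i).IsHomogeneous k) ∧
        (∀ i j, i ≠ j → ∀ c : ℝ, f i ≠ c • f j) ∧
        f 0 ^ 4 + f 1 ^ 4 = f 2 ^ 4 + f 3 ^ 4 := by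
  have hs : (√2 : ℝ) ^ 2 = 2 := Real.sq_sqrt (by norm_num)
  have hp : (0 : ℝ) < √2 := by positivity
  refine ⟨3, by norm_num, by norm_num, f, ?_, ?_, ident⟩
  · intro i
    fin_cases i <;> refine ⟨?_, F_hom _ _ _ _⟩ <;> intro h <;>
      have h0 := congrArg (eval ![1, 0]) h <;> simp [f, ev0] at h0
  · intro i j hij
    fin_cases i <;> fin_cases j <;> first
      | exact absurd rfl hij
      | (apply nonprop; intro h; nlinarith)

end Pool.Agent.S17143
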