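import Pool.Statements.S17434
-- import your own Pool.Agent.* helpers here

set_option autoImplicit false
open Pool Pool.MP_74da6d_nt

namespace Pool.Agent.S17434

open Complex

lemma cube_rel {μ : ℂ} (hμ : IsPrimitiveRoot μ 3) : μ ^ 2 + μ + 1 = 0 := by
  have h1 : μ ^ 3 = 1 := hμ.pow_eq_one
  have h2 : μ - 1 ≠ 0 := sub_ne_zero.2 (hμ.ne_one (by norm_num))
  apply mul_left_cancel₀ h2
  linear_combination h1

lemma im_ne {μ : ℂ} (hμ : IsPrimitiveRoot μ 3) : μ.im ≠ 0 := by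
  intro h
  have h1 := congrArg Complex.re (cube_rel hμ)
  simp [pow_two, h] at h1
  nlinarith [sq_nonneg (μ.re + 1 / 2)]

lemma coord_unique {μ : ℂ} (hμ : IsPrimitiveRoot μ 3) {a b c d : ℤ}
    (h : (a : ℂ) + b * μ = c + d * μ) : b = d := by
  have h1 := congrArg Complex.im h
  simp at h1
  rcases h1 with h1 | h1
  · exact h1
  · exact absurd h1 (im_ne hμ)

lemma coords {μ : ℂ} (hμ : IsPrimitiveRoot μ 3) {z : ℂ} (hz : z ∈ Algebra.adjoin ℤ {μ}) :
    ∃ u v : ℤ, z = u + v * μ := by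
  induction hz using Algebra.adjoin_induction with
  | mem x hx => exact ⟨0, 1, by rw [Set.mem_singleton_iff.1 hx]; simp⟩
  | algebraMap r => exact ⟨r, 0, by simp⟩
  | add x y _ _ hx hy =>
    obtain ⟨a, b, rfl⟩ := hx
    obtain ⟨c, d, rfl⟩ := hy
    exact ⟨a + c, b + d, by push_cast; ring⟩
  | mul x y _ _ hx hy =>
    obtain ⟨a, b, rfl⟩ := hx
    obtain ⟨c, d, rfl⟩ := hy
    exact ⟨a * c - b * d, a * d + b * c - b * d, by
      push_cast; linear_combination (b * d : ℂ) * cube_rel hμ⟩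

lemma star_mu {μ : ℂ} (hμ : IsPrimitiveRoot μ 3) : starRingEnd ℂ μ = μ ^ 2 := by
  have h1 : μ ^ 3 = 1 := hμ.pow_eq_one
  have h2 : ‖μ‖ = 1 := hμ.norm'_eq_one (by norm_num)
  have h3 : μ ≠ 0 := hμ.ne_zero (by norm_num)
  rw [← inv_eq_conj h2]
  field_simp
  linear_combination -h1

/-- If the order of `2` mod `p` is a power of two and `p ≡ 1 mod 3` then `p = A² + 27 c²`. -/
lemma rep27 (p : ℕ) [hp : Fact p.Prime] (h3 : 3 ∣ p - 1) (hp2 : p ≠ 2) (N : ℕ)
    (h2 : (2 : ZMod p) ^ (2 ^ N) = 1) : ∃ A c : ℤ, (p : ℤ) = A ^ 2 + 3 * (3 * c) ^ 2 := by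
  classical
  have hμ := Complex.isPrimitiveRoot_exp 3 (by norm_num)
  set μ := Complex.exp (2 * Real.pi * I / (3 : ℕ)) with hμdef
  clear_value μ
  have hcard : Fintype.card (ZMod p) = p := ZMod.card p
  obtain ⟨χ, hχ⟩ := MulChar.exists_mulChar_orderOf (ZMod p) (n := 3) (by rwa [hcard]) hμ
  have hχ3 : χ ^ 3 = 1 := by rw [← hχ]; exact pow_orderOf_eq_one χ
  have hχ1 : χ ≠ 1 := by
    intro h; rw [h, orderOf_one] at hχ; exact absurd hχ (by norm_num)
  have hχ2 : χ * χ ≠ 1 := by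
    intro h
    have := orderOf_dvd_of_pow_eq_one (x := χ) (n := 2) (by rw [pow_two, h])
    rw [hχ] at this
    exact absurd this (by norm_num)
  have h20 : (2 : ZMod p) ≠ 0 := by
    intro h
    have : ((2 : ℕ) : ZMod p) = 0 := by exact_mod_cast h
    rw [ZMod.natCast_eq_zero_iff] at this
    exact hp2 ((Nat.prime_dvd_prime_iff_eq hp.out Nat.prime_two).1 this)
  have hχtwo : χ 2 = 1 := by
    have a1 : χ 2 ^ (2 ^ N) = 1 := by rw [← map_pow, h2, map_one]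
    have a2 : χ 2 ^ 3 = 1 := by
      rw [← MulChar.pow_apply' χ (by norm_num), hχ3, MulChar.one_apply h20.isUnit]
    have a3 := Nat.dvd_gcd (orderOf_dvd_of_pow_eq_one a1) (orderOf_dvd_of_pow_eq_one a2)
    have a4 : Nat.gcd (2 ^ N) 3 = 1 := Nat.Coprime.pow_left N (by norm_num)
    rw [a4, Nat.dvd_one, orderOf_eq_one_iff] at a3
    exact a3
  have hchar : ringChar ℂ ≠ ringChar (ZMod p) := by
    rw [ringChar.eq_zero, ZMod.ringChar_zmod_n]
    exact hp.out.ne_zero.symm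
  have hJ := jacobiSum_mul_jacobiSum_inv hchar hχ1 hχ1 hχ2
  rw [← MulChar.star_eq_inv, hcard] at hJ
  have hJ' : jacobiSum (star χ) (star χ) = starRingEnd ℂ (jacobiSum χ χ) :=
    jacobiSum_ringHomComp χ χ (starRingEnd ℂ)
  rw [hJ'] at hJ
  obtain ⟨z, hz, hJz⟩ := exists_jacobiSum_eq_neg_one_add (n := 3) (by norm_num) hχ3 hχ3
    (by rwa [hcard]) hμ
  obtain ⟨u, v, rfl⟩ := coords hμ hz
  have hJ3 : jacobiSum χ χ = ((-1 + 3 * v : ℤ) : ℂ) + ((3 * (v - u) : ℤ) : ℂ) * μ := by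
    rw [hJz]; push_cast
    linear_combination ((u : ℂ) + v * μ - 3 * v) * cube_rel hμ
  have hco : ∀ w : ℂ, ∃ a b : ℤ, w ∈ Algebra.adjoin ℤ {μ} → w = a + b * μ := by
    intro w
    by_cases hw : w ∈ Algebra.adjoin ℤ {μ}
    · obtain ⟨a, b, h⟩ := coords hμ hw
      exact ⟨a, b, fun _ => h⟩
    · exact ⟨0, 0, fun h => absurd h hw⟩
  choose α β hαβ using hco
  have hterm : ∀ x : ZMod p, χ x * χ (1 - x) = α (χ x * χ (1 - x)) + β (χ x * χ (1 - x)) * μ :=
    fun x => hαβ _ (Subalgebra.mul_mem _ (MulChar.apply_mem_algebraAdjoin_of_pow_eq_one hχ3 hμ x)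
      (MulChar.apply_mem_algebraAdjoin_of_pow_eq_one hχ3 hμ _))
  have hJ2 : jacobiSum χ χ = ((∑ x : ZMod p, α (χ x * χ (1 - x)) : ℤ) : ℂ) +
      ((∑ x : ZMod p, β (χ x * χ (1 - x)) : ℤ) : ℂ) * μ := by
    push_cast
    rw [Finset.sum_mul, ← Finset.sum_add_distrib, jacobiSum]
    exact Finset.sum_congr rfl fun x _ => hterm x
  have hb := coord_unique hμ (hJ3.symm.trans hJ2)
  have hβ1 : β 1 = 0 := by
    have := hαβ 1 (Subalgebra.one_mem _)
    exact (coord_unique hμ (a := 1) (b := 0) (by rw [← this]; simp)).symm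
  have hpar : ((∑ x : ZMod p, β (χ x * χ (1 - x)) : ℤ) : ZMod 2) = 0 := by
    push_cast
    refine Finset.sum_involution (fun x _ => 1 - x) ?_ ?_ (fun _ _ => Finset.mem_univ _)
      (fun x _ => by ring)
    · intro x _
      rw [sub_sub_cancel, mul_comm (χ (1 - x))]
      exact CharTwo.add_self_eq_zero _
    · intro x _ hne heq
      apply hne
      have e1 : 2 * x = 1 := by linear_combination -heq
      have e2 : χ x = 1 := by
        have := congrArg χ e1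
        rwa [map_mul, hχtwo, one_mul, map_one] at this
      rw [heq, e2, one_mul, hβ1]
      simp
  rw [← hb, ZMod.intCast_zmod_eq_zero_iff_dvd] at hpar
  have hpar' : (2 : ℤ) ∣ v - u := by
    have : (2 : ℤ) ∣ 3 * (v - u) := by exact_mod_cast hpar
    omega
  obtain ⟨c, hc⟩ := hpar'
  refine ⟨-1 + 3 * v - 3 * c, c, ?_⟩
  rw [hJ3, hc, map_add, map_mul, map_intCast, map_intCast, star_mu hμ] at hJ
  have h1 : μ ^ 3 = 1 := hμ.pow_eq_one
  have : (p : ℂ) = (((-1 + 3 * v - 3 * c) ^ 2 + 3 * (3 * c) ^ 2 : ℤ) : ℂ) := by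
    rw [← hJ]; push_cast
    linear_combination (6 * c * (-1 + 3 * v) : ℂ) * cube_rel hμ + (36 * c ^ 2 : ℂ) * h1
  exact_mod_cast this

lemma uniq_aux {p A B y : ℤ} (hp : 0 < p) (h1 : p = A ^ 2 + 3 * B ^ 2) (h2 : p = 1 + 3 * y ^ 2)
    (hd : p ∣ A * y - B) : y ^ 2 = B ^ 2 := by
  obtain ⟨t, ht⟩ := hd
  have e : p ^ 2 = (A + 3 * B * y) ^ 2 + 3 * (p * t) ^ 2 := by
    rw [← ht]
    calc p ^ 2 = (A ^ 2 + 3 * B ^ 2) * (1 + 3 * y ^ 2) := by rw [← h1, ← h2]; ring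
      _ = _ := by ring
  have ht0 : t = 0 := by
    by_contra hne
    have : 1 ≤ t ^ 2 := by
      have := sq_pos_of_ne_zero hne
      omega
    nlinarith [sq_nonneg (A + 3 * B * y), mul_pos hp hp]
  rw [ht0, mul_zero, sub_eq_zero] at ht
  have e2 : p * A ^ 2 = p * 1 := by
    calc p * A ^ 2 = (1 + 3 * y ^ 2) * A ^ 2 := by rw [← h2]
      _ = A ^ 2 + 3 * (A * y) ^ 2 := by ring
      _ = p * 1 := by rw [ht, ← h1, mul_one]
  have e3 := mul_left_cancel₀ hp.ne' e2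
  rw [← ht, mul_pow, e3, one_mul]

lemma uniq {p : ℕ} (hp : p.Prime) {A c y : ℤ} (h1 : (p : ℤ) = A ^ 2 + 3 * (3 * c) ^ 2)
    (h2 : (p : ℤ) = 1 + 3 * y ^ 2) : (3 : ℤ) ∣ y := by
  have hp' : Prime (p : ℤ) := Nat.prime_iff_prime_int.1 hp
  have hpos : (0 : ℤ) < p := by exact_mod_cast hp.pos
  have hd : (p : ℤ) ∣ (A * y - 3 * c) * (A * y - (-(3 * c))) :=
    ⟨y ^ 2 - (3 * c) ^ 2, by linear_combination (-(y ^ 2)) * h1 + (3 * c) ^ 2 * h2⟩
  have h : y ^ 2 = (3 * c) ^ 2 := by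
    rcases hp'.dvd_or_dvd hd with h | h
    · exact uniq_aux hpos h1 h2 h
    · have := uniq_aux hpos (B := -(3 * c)) (by rw [h1]; ring) h2 h
      rw [this]; ring
  have : (3 : ℤ) ∣ y ^ 2 := ⟨3 * c ^ 2, by rw [h]; ring⟩
  exact Int.prime_three.dvd_of_dvd_pow this

def pm (m : ℕ) : ℕ → ℕ → ℕ → ℕ → ℕ
  | 0, _, _, acc => acc
  | f + 1, b, e, acc => pm m f (b * b % m) (e / 2) (if e % 2 = 1 then acc * b % m else acc)

lemma pm_spec (m : ℕ) : ∀ f b e acc, e < 2 ^ f →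
    ((pm m f b e acc : ℕ) : ZMod m) = acc * (b : ZMod m) ^ e := by
  intro f
  induction f with
  | zero => intro b e acc h; obtain rfl : e = 0 := by simpa using h
            simp [pm]
  | succ f ih =>
    intro b e acc h
    rw [pm, ih _ _ _ (by rw [pow_succ] at h; omega)]
    have he : e = 2 * (e / 2) + e % 2 := (Nat.div_add_mod e 2).symm
    split_ifs with h1
    · conv_rhs => rw [he, h1]
      simp only [ZMod.natCast_mod, Nat.cast_mul]
      ring
    · have h0 : e % 2 = 0 := by omega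
      conv_rhs => rw [he, h0]
      simp only [ZMod.natCast_mod, Nat.cast_mul]
      ring

def hh : ℕ := 126674275217905151634936211892407
def kk : ℕ := 3 * hh ^ 2
def pp : ℕ := kk * 2 ^ 10 + 1

lemma pp_pow : pm pp 225 14 (pp - 1) 1 = 1 := by decide +kernel

lemma pp_ne : ∀ q ∈ [2, 3, 13, 23, 29, 43, 4451, 5441, 20357, 34841, 140381, 140897],
    pm pp 225 14 ((pp - 1) / q) 1 % pp ≠ 1 % pp := by decide +kernel

lemma pp_fac : pp - 1 = [2 ^ 10, 3, 13 ^ 2, 23 ^ 2, 29 ^ 2, 43 ^ 2, 4451 ^ 2, 5441 ^ 2, 20357 ^ 2,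
    34841 ^ 2, 140381 ^ 2, 140897 ^ 2].prod := by decide +kernel

lemma pp_lt : pp - 1 < 2 ^ 225 := by decide +kernel

lemma pp_prime : pp.Prime := by
  refine lucas_primality pp ((14 : ℕ) : ZMod pp) ?_ ?_
  · have := pm_spec pp 225 14 (pp - 1) 1 pp_lt
    rw [pp_pow] at this
    simpa using this.symm
  · intro q hq hd h
    have hmem : q ∈ [2, 3, 13, 23, 29, 43, 4451, 5441, 20357, 34841, 140381, 140897] := by
      rw [pp_fac] at hd
      obtain ⟨a, ha, hqa⟩ := (Prime.dvd_prod_iff (Nat.Prime.prime hq)).1 hd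
      have key : ∀ r e : ℕ, r.Prime → q ∣ r ^ e → q = r := fun r e hr h =>
        (Nat.prime_dvd_prime_iff_eq hq hr).1 (hq.dvd_of_dvd_pow h)
      simp only [List.mem_cons, List.not_mem_nil, or_false] at ha ⊢
      rcases ha with rfl | rfl | rfl | rfl | rfl | rfl | rfl | rfl | rfl | rfl | rfl | rfl
      · simp [key 2 _ (by norm_num) hqa]
      · simp [key 3 1 (by norm_num) (by simpa using hqa)]
      · simp [key 13 _ (by norm_num) hqa]
      · simp [key 23 _ (by norm_num) hqa]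
      · simp [key 29 _ (by norm_num) hqa]
      · simp [key 43 _ (by norm_num) hqa]
      · simp [key 4451 _ (by norm_num) hqa]
      · simp [key 5441 _ (by norm_num) hqa]
      · simp [key 20357 _ (by norm_num) hqa]
      · simp [key 34841 _ (by norm_num) hqa]
      · simp [key 140381 _ (by norm_num) hqa]
      · simp [key 140897 _ (by norm_num) hqa]
    have h1 := pm_spec pp 225 14 ((pp - 1) / q) 1 ((Nat.div_le_self _ _).trans_lt pp_lt)
    rw [h] at h1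
    apply pp_ne q hmem
    have h2 : ((pm pp 225 14 ((pp - 1) / q) 1 : ℕ) : ZMod pp) = ((1 : ℕ) : ZMod pp) := by
      simpa using h1
    exact (ZMod.natCast_eq_natCast_iff' _ _ _).1 h2

lemma cover : ∀ r < 720, r % 2 = 1 →
    ∃ q ∈ [5, 7, 241, 97, 673, 73, 433, 38737, 11, 31, 151, 1321, 61681],
      (kk * 2 ^ r + 1) % q = 0 ∧ 2 ^ 720 % q = 1 % q ∧ 1 < q ∧ q < kk := by decide +kernel

set_option exponentiation.threshold 1000 in
lemma odd_comp (n : ℕ) (hn : n % 2 = 1) : ¬ (kk * 2 ^ n + 1).Prime := by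
  intro hp
  obtain ⟨q, -, h1, h2, h3, h4⟩ := cover (n % 720) (Nat.mod_lt _ (by norm_num)) (by omega)
  have e1 : 2 ^ n ≡ 2 ^ (n % 720) [MOD q] := by
    conv_lhs => rw [← Nat.div_add_mod n 720, pow_add, pow_mul]
    have : (2 ^ 720) ^ (n / 720) ≡ 1 ^ (n / 720) [MOD q] := Nat.ModEq.pow _ h2
    simpa using this.mul_right (2 ^ (n % 720))
  have e2 : kk * 2 ^ n + 1 ≡ kk * 2 ^ (n % 720) + 1 [MOD q] := (e1.mul_left kk).add_right 1
  have e3 : q ∣ kk * 2 ^ n + 1 := Nat.dvd_of_mod_eq_zero (Eq.trans e2 h1)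
  rcases (Nat.dvd_prime hp).1 e3 with h | h
  · omega
  · have : kk * 1 ≤ kk * 2 ^ n := Nat.mul_le_mul_left _ Nat.one_le_two_pow
    omega

lemma even_no (j m : ℕ) (hp : (kk * 2 ^ (2 * j) + 1).Prime) :
    ¬ (kk * 2 ^ (2 * j) + 1) ∣ Nat.fermatNumber m := by
  intro hd
  set p := kk * 2 ^ (2 * j) + 1 with hpdef
  have : Fact p.Prime := ⟨hp⟩
  have h3 : 3 ∣ p - 1 := ⟨hh ^ 2 * 2 ^ (2 * j), by rw [hpdef, Nat.add_sub_cancel, kk]; ring⟩
  have hp2 : p ≠ 2 := by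
    intro h
    rw [h] at h3
    exact absurd h3 (by norm_num)
  have h2 : (2 : ZMod p) ^ (2 ^ (m + 1)) = 1 := by
    have h0 := (ZMod.natCast_eq_zero_iff _ p).2 hd
    rw [Nat.fermatNumber] at h0
    push_cast at h0
    rw [pow_succ, pow_mul]
    linear_combination ((2 : ZMod p) ^ 2 ^ m - 1) * h0
  obtain ⟨A, c, hA⟩ := rep27 p h3 hp2 _ h2
  have hy : (p : ℤ) = 1 + 3 * ((hh * 2 ^ j : ℕ) : ℤ) ^ 2 := by
    rw [hpdef, kk]; push_cast; ring
  have h4 : (3 : ℕ) ∣ hh * 2 ^ j := by exact_mod_cast uniq hp hA hy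
  rcases (Nat.Prime.dvd_mul Nat.prime_three).1 h4 with h | h
  · exact absurd h (by decide +kernel)
  · exact absurd (Nat.prime_three.dvd_of_dvd_pow h) (by norm_num)

/-- The negation of the preceding statement: For every odd k ≥ 3 such that k·2^n+1 is prime for some n, there are infinitely many m for which the Fermat number 2^(2^m)+1 is divisible by some prime of the form k·2^n+1. -/
theorem result :
    ¬ (∀ k : ℕ, Odd k → 3 ≤ k → (∃ n : ℕ, Nat.Prime (k * 2 ^ n + 1)) →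
      Set.Infinite {m : ℕ | ∃ n : ℕ, Nat.Prime (k * 2 ^ n + 1) ∧
        (k * 2 ^ n + 1) ∣ Nat.fermatNumber m}) := by
  intro H
  have h := H kk (by decide +kernel) (by decide +kernel) ⟨10, pp_prime⟩
  obtain ⟨m, n, hp, hd⟩ := h.nonempty
  rcases Nat.even_or_odd' n with ⟨j, rfl | rfl⟩
  · exact even_no j m hp hd
  · exact odd_comp _ (by omega) hp

end Pool.Agent.S17434
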