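import Pool.Statements.S17576
import Pool.Agent.H27.LcmWin

set_option autoImplicit false
open Pool Pool.MP_7fe555_nt

namespace Pool.Agent.S17576

/-- The negation of the preceding statement: There is a strictly increasing sequence of positive integers and a constant c>0 such that, for all large x, the number of i with lcm of three consecutive terms a(i+1),a(i+2),a(i+3) below x exceeds c·x^(1/3)·ln x. -/
theorem result :
    ¬ (∃ a : ℕ → ℕ, StrictMono a ∧ (∀ n, 0 < a n) ∧
      ∃ c : ℝ, 0 < c ∧ ∃ X : ℝ, ∀ x : ℝ, X ≤ x →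
        c * x ^ ((1 : ℝ) / 3) * Real.log x <
          (({i : ℕ | ((Nat.lcm (Nat.lcm (a (i + 1)) (a (i + 2))) (a (i + 3)) : ℕ) : ℝ) < x}.ncard : ℕ) : ℝ)) := by
  exact Pool.Agent.H27.LcmWin.main

end Pool.Agent.S17576
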