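import Pool.Statements.S17658

set_option autoImplicit false
open Pool Pool.MP_874039_nt

namespace Pool.Agent.S17658

open PowerSeries

abbrev R := ZMod 32

noncomputable def toPS : List R → PowerSeries R
  | [] => 0
  | a :: l => C a + X * toPS l

def go : R → List R → List R
  | c, [] => [-c]
  | c, a :: l => (a - c) :: go a l

lemma toPS_go (l : List R) : ∀ c : R, toPS (go c l) = (1 - X) * toPS l - C c := by
  induction l with
  | nil => intro c; simp [go, toPS]
  | cons a l ih => intro c; simp only [go, toPS, ih, map_sub]; ring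

def itr : ℕ → List R → List R
  | 0, l => l
  | k + 1, l => itr k (go 0 l)

lemma toPS_itr (k : ℕ) : ∀ l, toPS (itr k l) = (1 - X) ^ k * toPS l := by
  induction k with
  | zero => intro l; simp [itr]
  | succ k ih => intro l; simp only [itr, ih, toPS_go, map_zero]; ring

def ev : List R → List R
  | [] => []
  | [a] => [a]
  | a :: _ :: l => a :: ev l

def od : List R → List R
  | [] => []
  | [_] => []
  | _ :: b :: l => b :: od l

noncomputable abbrev E : PowerSeries R →ₐ[R] PowerSeries R := expand 2 (by norm_num)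

lemma toPS_split : ∀ l : List R, toPS l = E (toPS (ev l)) + X * E (toPS (od l))
  | [] => by simp [toPS, ev, od]
  | [a] => by simp [toPS, ev, od, expand_C]
  | a :: b :: l => by
    have := toPS_split l
    simp only [toPS, ev, od, map_add, map_mul, expand_C, expand_X]
    rw [this]; ring

noncomputable def A (i : ℕ) : PowerSeries R := mk (fun j : ℕ => if 2 ^ i ∣ j then (1 : R) else 0)

lemma E_A (i : ℕ) : E (A i) = A (i + 1) := by
  ext n
  rw [coeff_expand]
  split_ifs with h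
  · obtain ⟨k, rfl⟩ := h
    simp only [A, coeff_mk]
    rw [Nat.mul_div_cancel_left _ (by norm_num : 0 < 2), pow_succ']
    simp [Nat.mul_dvd_mul_iff_left]
  · simp only [A, coeff_mk]
    rw [if_neg]
    intro h2
    exact h (Dvd.dvd.trans (Dvd.intro_left (2 ^ i) (pow_succ 2 i).symm) h2)

lemma A0 : (1 - X) * A 0 = 1 := by
  have : A 0 = mk 1 := by ext n; simp [A]
  rw [this, mul_comm]; exact mk_one_mul_one_sub_eq_one R

lemma A1 : (1 - X ^ 2) * A 1 = 1 := by
  have := congrArg E A0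
  simpa [E_A, expand_X] using this

lemma pow32 : ((1 - X : PowerSeries R)) ^ 32 = (1 - X ^ 2) ^ 16 := by
  have h1 : toPS (itr 32 [1]) = E (toPS (itr 16 [1])) := by
    rw [toPS_split (itr 32 [1])]
    have e1 : ev (itr 32 [1]) = itr 16 [1] := by decide +kernel
    have e2 : od (itr 32 [1]) = List.replicate 16 0 := by decide +kernel
    rw [e1, e2]
    simp [List.replicate, toPS]
  rw [toPS_itr, toPS_itr] at h1
  simpa [toPS, expand_X] using h1

lemma A32 : A 0 ^ 32 = A 1 ^ 16 := by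
  have h0 : (1 - X) ^ 32 * A 0 ^ 32 = 1 := by rw [← mul_pow, A0, one_pow]
  have h1 : (1 - X ^ 2) ^ 16 * A 1 ^ 16 = 1 := by rw [← mul_pow, A1, one_pow]
  rw [pow32] at h0
  calc A 0 ^ 32 = A 0 ^ 32 * ((1 - X ^ 2) ^ 16 * A 1 ^ 16) := by rw [h1, mul_one]
    _ = ((1 - X ^ 2) ^ 16 * A 0 ^ 32) * A 1 ^ 16 := by ring
    _ = A 1 ^ 16 := by rw [h0, one_mul]

noncomputable def G (k : ℕ) : PowerSeries R := ∏ i ∈ Finset.range k, A i

lemma G_succ (k : ℕ) : G (k + 1) = A 0 * E (G k) := by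
  simp only [G, Finset.prod_range_succ', map_prod, E_A]; ring

def S : List (List R) :=
  [[1, 16, 24, 16, 28, 16, 8, 16, 6, 16, 8, 16, 28, 16, 24, 16, 1],
   [1, 18, 1, 24, 2, 12, 10, 24, 29, 18, 21],
   [11, 14, 3, 8, 22, 20, 30, 8, 31, 14, 31],
   [1, 17, 5, 5, 3, 19, 23, 23],
   [13, 29, 1, 1, 7, 23, 11, 11],
   [11, 11, 23, 7, 1, 1, 29, 13],
   [23, 23, 19, 3, 5, 5, 17, 1],
   [1, 26, 23, 12, 31, 26, 9],
   [12, 12, 24, 24, 28, 28],
   [13, 18, 11, 28, 19, 18, 21],
   [28, 28, 24, 24, 12, 12],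
   [11, 14, 13, 4, 21, 14, 19],
   [20, 20, 8, 8, 4, 4],
   [23, 6, 1, 20, 9, 6, 31],
   [4, 4, 8, 8, 20, 20],
   [1, 31, 10, 30, 5, 19],
   [21, 19, 18, 6, 9, 23],
   [12, 20, 24, 8, 28, 4],
   [16, 0, 0, 0, 16],
   [13, 19, 2, 6, 1, 23],
   [17, 23, 10, 14, 21, 11],
   [28, 4, 24, 8, 12, 20],
   [11, 21, 14, 10, 23, 17],
   [23, 1, 6, 2, 19, 13],
   [20, 12, 8, 24, 4, 28],
   [23, 9, 6, 18, 19, 21],
   [19, 5, 30, 10, 31, 1],
   [4, 28, 8, 24, 20, 12],
   [1, 25, 2, 26, 29, 13],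
   [26, 24, 28, 24, 26],
   [21, 5, 10, 18, 1, 9],
   [10, 24, 28, 24, 10],
   [24, 0, 16, 0, 24],
   [13, 5, 26, 18, 25, 9],
   [18, 24, 12, 24, 18],
   [17, 1, 2, 10, 13, 21],
   [2, 24, 12, 24, 2],
   [11, 19, 22, 30, 31, 15],
   [30, 8, 20, 8, 30],
   [23, 7, 14, 6, 27, 19],
   [14, 8, 20, 8, 14],
   [8, 0, 16, 0, 8],
   [23, 31, 14, 22, 27, 11],
   [22, 8, 4, 8, 22],
   [19, 3, 6, 30, 7, 31],
   [6, 8, 4, 8, 6],
   [1, 15, 26, 14, 21, 19],
   [20, 0, 8, 0, 4],
   [26, 8, 12, 8, 10],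
   [22, 24, 20, 24, 6],
   [21, 3, 2, 22, 25, 23],
   [28, 0, 24, 0, 12],
   [10, 8, 12, 8, 26],
   [6, 24, 20, 24, 22],
   [13, 3, 18, 22, 17, 23],
   [4, 0, 8, 0, 20],
   [18, 8, 28, 8, 2],
   [30, 24, 4, 24, 14],
   [17, 7, 26, 30, 5, 11],
   [12, 0, 24, 0, 28],
   [2, 8, 28, 8, 18],
   [14, 24, 4, 24, 30],
   [11, 5, 30, 26, 7, 17],
   [23, 17, 22, 18, 3, 13],
   [23, 25, 22, 2, 3, 21],
   [19, 21, 14, 26, 15, 1],
   [20, 16, 24, 16, 20],
   [28, 16, 8, 16, 28],
   [4, 16, 24, 16, 4],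
   [12, 16, 8, 16, 12]]

lemma S_closed : ∀ l ∈ S, ev (itr 5 l) ∈ S ∧ od (itr 5 l) ∈ S ∧ l.headD 0 ≠ 0 := by
  decide +kernel

lemma S_init : itr 16 [1] ∈ S := by decide +kernel

lemma key (k : ℕ) : ∀ l ∈ S, ∀ n < 2 ^ k, coeff n (toPS l * A 0 ^ 16 * G k ^ 11) ≠ 0 := by
  induction k with
  | zero =>
    intro l hl n hn
    have hn0 : n = 0 := by omega
    subst hn0
    have h := (S_closed l hl).2.2
    cases l with
    | nil => simp at h
    | cons a l =>
      have hA : constantCoeff (A 0) = 1 := by simp [A]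
      simpa [G, toPS, hA] using h
  | succ k ih =>
    intro l hl n hn
    obtain ⟨h1, h2, -⟩ := S_closed l hl
    have hA5 : (1 - X) ^ 5 * A 0 ^ 5 = 1 := by rw [← mul_pow, A0, one_pow]
    have e : toPS l * A 0 ^ 16 * G (k + 1) ^ 11 =
        E (toPS (ev (itr 5 l)) * A 0 ^ 16 * G k ^ 11) +
          X * E (toPS (od (itr 5 l)) * A 0 ^ 16 * G k ^ 11) := by
      have e1 : toPS l * A 0 ^ 16 * G (k + 1) ^ 11 =
          ((1 - X) ^ 5 * toPS l) * A 0 ^ 32 * E (G k) ^ 11 := by
        rw [G_succ]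
        calc toPS l * A 0 ^ 16 * (A 0 * E (G k)) ^ 11
            = ((1 - X) ^ 5 * A 0 ^ 5) * (toPS l * A 0 ^ 16 * (A 0 * E (G k)) ^ 11) := by
              rw [hA5, one_mul]
          _ = _ := by ring
      rw [e1, A32, ← toPS_itr, toPS_split (itr 5 l)]
      simp only [map_mul, map_pow, E_A]
      ring
    rw [e, map_add]
    rcases Nat.even_or_odd' n with ⟨j, rfl | rfl⟩
    · have hj : j < 2 ^ k := by rw [pow_succ] at hn; omega
      have z : coeff (2 * j) (X * E (toPS (od (itr 5 l)) * A 0 ^ 16 * G k ^ 11)) = 0 := by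
        cases j with
        | zero => simp
        | succ j =>
          rw [show 2 * (j + 1) = (2 * j + 1) + 1 by ring, coeff_succ_X_mul]
          exact coeff_expand_of_not_dvd _ _ _ (by omega)
      rw [z, add_zero, coeff_expand_mul]
      exact ih _ h1 j hj
    · have hj : j < 2 ^ k := by rw [pow_succ] at hn; omega
      rw [coeff_succ_X_mul, coeff_expand_mul, coeff_expand_of_not_dvd _ _ _ (by omega), zero_add]
      exact ih _ h2 j hj

lemma main (n : ℕ) : coeff n (G (n + 1) ^ 11) ≠ 0 := by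
  have h := key (n + 1) _ S_init n
    (lt_trans (Nat.lt_succ_self n) (Nat.lt_pow_self (by norm_num)))
  have e : toPS (itr 16 [1]) * A 0 ^ 16 = 1 := by
    rw [toPS_itr]
    simp only [toPS, map_one, mul_zero, add_zero, mul_one]
    rw [← mul_pow, A0, one_pow]
  rwa [e, one_mul] at h

/-- The negation of the preceding statement: For every positive m with m+1 not a power of 2, the 2-adic valuation of the n-th coefficient of the product over i of (1-x^(2^i))^(-m), the m-colored binary partition count, exceeds any given bound for some n. -/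
theorem result :
    ¬ (∀ m : ℕ, 0 < m → (¬ ∃ k : ℕ, m + 1 = 2 ^ k) →
      ∀ B : ℕ, ∃ n : ℕ,
        B < padicValNat 2
          (PowerSeries.coeff n
            ((∏ i ∈ Finset.range (n + 1),
                PowerSeries.mk (fun j : ℕ => if 2 ^ i ∣ j then (1 : ℕ) else 0)) ^ m))) := by
  intro h
  have h12 : ¬ ∃ k : ℕ, 11 + 1 = 2 ^ k := by
    rintro ⟨k, hk⟩
    have h3 : 3 ∣ 2 ^ k := ⟨4, by omega⟩
    have := (Nat.prime_three).dvd_of_dvd_pow h3
    omega
  obtain ⟨n, hn⟩ := h 11 (by norm_num) h12 4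
  set b := (PowerSeries.coeff n
            ((∏ i ∈ Finset.range (n + 1),
                PowerSeries.mk (fun j : ℕ => if 2 ^ i ∣ j then (1 : ℕ) else 0)) ^ 11)) with hb
  have hd : 2 ^ 5 ∣ b := (pow_dvd_pow 2 hn).trans pow_padicValNat_dvd
  have hcast : ((b : ℕ) : R) = coeff n (G (n + 1) ^ 11) := by
    have : G (n + 1) ^ 11 = PowerSeries.map (Nat.castRingHom R) ((∏ i ∈ Finset.range (n + 1),
                PowerSeries.mk (fun j : ℕ => if 2 ^ i ∣ j then (1 : ℕ) else 0)) ^ 11) := by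
      rw [map_pow, map_prod, G]
      congr 1
      refine Finset.prod_congr rfl fun i _ => ?_
      ext j
      simp [A]
    rw [this, coeff_map, hb]; rfl
  apply main n
  rw [← hcast]
  exact (ZMod.natCast_eq_zero_iff b 32).2 hd

end Pool.Agent.S17658
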