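import Pool.Statements.S17662
import Pool.Agent.H21.DivBound

set_option autoImplicit false
open Pool Pool.MP_87cb84_nt

namespace Pool.Agent.S17662

theorem sum_le1 (M : Multiset ℕ) (h : ∀ y ∈ M, 2 ≤ y) :
    M.sum + 1 ≤ M.prod + M.card ∧ M.card ≤ M.sum ∧ 1 ≤ M.prod := by
  induction M using Multiset.induction_on with
  | empty => simp
  | cons a M ih =>
    have ha := h a (Multiset.mem_cons_self _ _)
    obtain ⟨h1, h2, h3⟩ := ih (fun y hy => h y (Multiset.mem_cons_of_mem hy))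
    simp only [Multiset.sum_cons, Multiset.prod_cons, Multiset.card_cons]
    refine ⟨?_, by omega, by nlinarith⟩
    nlinarith

theorem sum_le2 (M : Multiset ℕ) (h : ∀ y ∈ M, 2 ≤ y) :
    M = 0 ∨ (∃ b, M = {b}) ∨ (2 * M.sum ≤ M.prod + 2 * M.card ∧ 2 ≤ M.prod) := by
  induction M using Multiset.induction_on with
  | empty => simp
  | cons a M ih =>
    have ha := h a (Multiset.mem_cons_self _ _)
    right
    rcases ih (fun y hy => h y (Multiset.mem_cons_of_mem hy)) with rfl | ⟨b, rfl⟩ | ⟨h1, h2⟩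
    · exact Or.inl ⟨a, rfl⟩
    · right
      have hb := h b (by simp)
      simp only [Multiset.sum_cons, Multiset.prod_cons, Multiset.card_cons, Multiset.sum_singleton,
        Multiset.prod_singleton, Multiset.card_singleton]
      obtain ⟨a, rfl⟩ := Nat.exists_eq_add_of_le ha
      obtain ⟨b, rfl⟩ := Nat.exists_eq_add_of_le hb
      constructor <;> nlinarith [Nat.zero_le (a * b)]
    · right
      simp only [Multiset.sum_cons, Multiset.prod_cons, Multiset.card_cons]
      constructor <;> nlinarith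

def L (M : Multiset ℕ) : ℕ := M.prod + M.sum - M.card - 1

def recov (q : Multiset ℕ × ℕ) : ℕ × Multiset ℕ :=
  (q.1.prod - q.2, ((q.1.prod - q.2) * (L q.1 / q.2 - 1)) ::ₘ
    (q.1 + Multiset.replicate (q.1.prod - q.2 - 1 - q.1.card) 1))

theorem structure_thm (p : ℕ) (hp : p.Prime) (s : Multiset ℕ) (hc : s.card = p)
    (hpos : ∀ x ∈ s, 0 < x) (he : s.prod = p * s.sum) :
    ∃ q : Multiset ℕ × ℕ, (∀ y ∈ q.1, 2 ≤ y) ∧ q.2 ∈ (L q.1).divisors ∧ q.1.prod ≤ 4 * p ∧
      recov q = (p, s) := by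
  have hp2 := hp.two_le
  obtain ⟨x, hx, c, rfl⟩ := hp.prime.exists_mem_multiset_dvd (s := s) ⟨_, he⟩
  obtain ⟨r, rfl⟩ := Multiset.exists_cons_of_mem hx
  have hc0 : 0 < c := Nat.pos_of_mul_pos_left (hpos _ hx)
  set M := r.filter (fun y => ¬ y = 1) with hM
  have hM2 : ∀ y ∈ M, 2 ≤ y := by
    intro y hy
    rw [hM, Multiset.mem_filter] at hy
    have := hpos y (Multiset.mem_cons_of_mem hy.1)
    omega
  have hr : r = M + Multiset.replicate (r.count 1) 1 := by
    rw [← Multiset.filter_eq', add_comm, Multiset.filter_add_not]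
  generalize r.count 1 = k at hr
  clear_value M
  subst hr
  simp only [Multiset.card_cons, Multiset.card_add, Multiset.card_replicate] at hc
  simp only [Multiset.prod_cons, Multiset.prod_add, Multiset.prod_replicate, one_pow, mul_one,
    Multiset.sum_cons, Multiset.sum_add, Multiset.sum_replicate, smul_eq_mul] at he
  have he' : c * M.prod = p * c + (M.sum + k) := by
    apply Nat.eq_of_mul_eq_mul_left hp.pos
    rw [← he]; ring
  obtain ⟨h1, h2, h3⟩ := sum_le1 M hM2
  obtain ⟨t, ht⟩ := Nat.exists_eq_add_of_le h2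
  have hlt : p < M.prod := by
    by_contra hle
    push Not at hle
    have : c * M.prod ≤ c * p := Nat.mul_le_mul_left c hle
    have h4 : 0 < M.sum + k := by omega
    nlinarith
  obtain ⟨d, hd⟩ := Nat.exists_eq_add_of_lt hlt
  have hcd : c * (d + 1) = M.sum + k := by
    rw [hd] at he'
    nlinarith
  have hL : L M = (d + 1) * (c + 1) := by
    unfold L
    have : (d + 1) * (c + 1) = c * (d + 1) + (d + 1) := by ring
    omega
  refine ⟨(M, d + 1), hM2, ?_, ?_, ?_⟩
  · rw [Nat.mem_divisors, hL]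
    exact ⟨Dvd.intro _ rfl, by positivity⟩
  · show M.prod ≤ 4 * p
    by_cases hc1 : c = 1
    · subst hc1
      rcases sum_le2 M hM2 with rfl | ⟨b, rfl⟩ | ⟨h5, h6⟩
      · simp at hd; omega
      · simp at hd hcd hc; omega
      · omega
    · have : 2 * (d + 1) ≤ c * (d + 1) := Nat.mul_le_mul_right _ (by omega)
      omega
  · unfold recov
    have e1 : M.prod - (d + 1) = p := by omega
    have e2 : L M / (d + 1) - 1 = c := by
      rw [hL, Nat.mul_div_cancel_left _ (Nat.succ_pos d)]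
      rfl
    have e3 : p - 1 - M.card = k := by omega
    simp only [e1, e2, e3]

theorem result :
    ¬ (∃ ε : ℝ, 0 < ε ∧ ∃ N : ℕ, ∀ n : ℕ, N ≤ n →
      (n : ℝ) ^ ε <
        (({s : Multiset ℕ | Multiset.card s = n ∧ (∀ x ∈ s, 0 < x) ∧
            s.prod = n * s.sum}.ncard : ℕ) : ℝ)) := by
  classical
  rintro ⟨ε, hε, N, h⟩
  have hF : ∀ n : ℕ, N ≤ n → ∃ F : Finset (Multiset ℕ), (n : ℝ) ^ ε < F.card ∧
      ∀ s ∈ F, Multiset.card s = n ∧ (∀ x ∈ s, 0 < x) ∧ s.prod = n * s.sum := by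
    intro n hn
    have h1 := h n hn
    have h0 : (0 : ℝ) ≤ (n : ℝ) ^ ε := by positivity
    have hfin : {s : Multiset ℕ | Multiset.card s = n ∧ (∀ x ∈ s, 0 < x) ∧
            s.prod = n * s.sum}.Finite := by
      apply Set.finite_of_ncard_pos
      exact_mod_cast h0.trans_lt h1
    refine ⟨hfin.toFinset, ?_, fun s hs => by simpa using hs⟩
    rwa [Set.ncard_eq_toFinset_card _ hfin] at h1
  choose! F hF1 hF2 using hF
  obtain ⟨C, hC, hdiv⟩ := Pool.Agent.H21.divisor_bound (ε / 2) (by positivity)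
  obtain ⟨Z, hZ, hmul⟩ := Pool.Agent.H21.multiset_sum_bound (1 + ε / 2) (by linarith)
  choose! ψ hψ1 hψ2 hψ3 hψ4 using structure_thm
  have key : ∀ T : Finset ℕ, (∀ p ∈ T, p.Prime ∧ N ≤ p) →
      ∑ p ∈ T, (1 / p : ℝ) ≤ 4 ^ (1 + ε) * (C * 2 ^ (ε / 2) * Z) := by
    intro T hT
    set D : Finset (Σ _ : ℕ, Multiset ℕ) := T.sigma F with hD
    let φ : (Σ _ : ℕ, Multiset ℕ) → Multiset ℕ × ℕ := fun x => ψ x.1 x.2
    have hDm : ∀ x ∈ D, (∀ y ∈ (φ x).1, 2 ≤ y) ∧ (φ x).2 ∈ (L (φ x).1).divisors ∧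
        (φ x).1.prod ≤ 4 * x.1 ∧ recov (φ x) = (x.1, x.2) := by
      intro x hx
      rw [hD, Finset.mem_sigma] at hx
      obtain ⟨hp, hN⟩ := hT _ hx.1
      obtain ⟨a1, a2, a3⟩ := hF2 _ hN _ hx.2
      exact ⟨hψ1 _ hp _ a1 a2 a3, hψ2 _ hp _ a1 a2 a3, hψ3 _ hp _ a1 a2 a3, hψ4 _ hp _ a1 a2 a3⟩
    have hinj : Set.InjOn φ D := by
      intro x hx y hy hxy
      have h1 := (hDm x hx).2.2.2
      rw [hxy, (hDm y hy).2.2.2] at h1
      obtain ⟨x1, x2⟩ := x
      obtain ⟨y1, y2⟩ := y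
      simp only [Prod.mk.injEq] at h1
      obtain ⟨rfl, rfl⟩ := h1
      rfl
    let g : Multiset ℕ × ℕ → ℝ := fun q => ((q.1.prod : ℕ) : ℝ) ^ (-(1 + ε))
    have hg0 : ∀ q, 0 ≤ g q := fun q => by positivity
    have s1 : ∑ p ∈ T, (1 / p : ℝ) ≤ ∑ x ∈ D, ((x.1 : ℕ) : ℝ) ^ (-(1 + ε)) := by
      rw [hD, Finset.sum_sigma]
      refine Finset.sum_le_sum fun p hp => ?_
      obtain ⟨hp', hN⟩ := hT p hp
      have hp0 : (0 : ℝ) < p := by exact_mod_cast hp'.pos
      simp only [Finset.sum_const, nsmul_eq_mul]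
      calc (1 / p : ℝ) = (p : ℝ) ^ ε * (p : ℝ) ^ (-(1 + ε)) := by
            rw [← Real.rpow_add hp0, show ε + -(1 + ε) = -1 by ring, Real.rpow_neg_one, one_div]
        _ ≤ _ := by gcongr; exact (hF1 p hN).le
    have s2 : ∑ x ∈ D, ((x.1 : ℕ) : ℝ) ^ (-(1 + ε)) ≤ 4 ^ (1 + ε) * ∑ x ∈ D, g (φ x) := by
      rw [Finset.mul_sum]
      refine Finset.sum_le_sum fun x hx => ?_
      obtain ⟨a1, -, a3, -⟩ := hDm x hx
      have a4 : (1 : ℝ) ≤ ((φ x).1.prod : ℕ) := by exact_mod_cast (sum_le1 _ a1).2.2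
      have a5 : (((φ x).1.prod : ℕ) : ℝ) ≤ 4 * (x.1 : ℕ) := by exact_mod_cast a3
      have a6 : (4 * ((x.1 : ℕ) : ℝ)) ^ (-(1 + ε)) ≤ g (φ x) :=
        Real.rpow_le_rpow_of_nonpos (by linarith) a5 (by linarith)
      rw [Real.mul_rpow (by norm_num) (by positivity)] at a6
      have a7 : (4 : ℝ) ^ (1 + ε) * 4 ^ (-(1 + ε)) = 1 := by
        rw [← Real.rpow_add (by norm_num)]; simp
      calc _ = (4 : ℝ) ^ (1 + ε) * (4 ^ (-(1 + ε)) * ((x.1 : ℕ) : ℝ) ^ (-(1 + ε))) := by
            rw [← mul_assoc, a7, one_mul]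
        _ ≤ _ := by gcongr
    have s3 : ∑ x ∈ D, g (φ x) ≤ C * 2 ^ (ε / 2) * Z := by
      rw [← Finset.sum_image (f := g) hinj]
      set A : Finset (Multiset ℕ) := D.image (fun x => (φ x).1) with hA
      have hA2 : ∀ M ∈ A, ∀ y ∈ M, 2 ≤ y := by
        intro M hM
        obtain ⟨x, hx, rfl⟩ := Finset.mem_image.1 hM
        exact (hDm x hx).1
      have hsub : D.image φ ⊆ A.biUnion (fun M => (L M).divisors.image (fun d => (M, d))) := by
        intro q hq
        obtain ⟨x, hx, rfl⟩ := Finset.mem_image.1 hq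
        rw [Finset.mem_biUnion]
        exact ⟨(φ x).1, Finset.mem_image_of_mem _ hx,
          Finset.mem_image.2 ⟨(φ x).2, (hDm x hx).2.1, rfl⟩⟩
      refine (Finset.sum_le_sum_of_subset_of_nonneg hsub (fun _ _ _ => hg0 _)).trans ?_
      rw [Finset.sum_biUnion]
      · refine le_trans ?_ (mul_le_mul_of_nonneg_left (hmul A hA2) (by positivity))
        rw [Finset.mul_sum]
        refine Finset.sum_le_sum fun M hM => ?_
        rw [Finset.sum_image (fun a _ b _ hab => (Prod.mk.inj hab).2)]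
        simp only [g, Finset.sum_const, nsmul_eq_mul]
        obtain ⟨b1, b2, b3⟩ := sum_le1 M (hA2 M hM)
        have hP : (0 : ℝ) < (M.prod : ℕ) := by exact_mod_cast b3
        by_cases hL0 : L M = 0
        · rw [hL0]
          simp only [Nat.divisors_zero, Finset.card_empty, CharP.cast_eq_zero, zero_mul]
          positivity
        · have b4 : (L M : ℝ) ≤ 2 * (M.prod : ℕ) := by
            have : L M ≤ 2 * M.prod := by unfold L; omega
            exact_mod_cast this
          have b5 : ((L M).divisors.card : ℝ) ≤ C * (2 * (M.prod : ℕ)) ^ (ε / 2) :=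
            (hdiv _ hL0).trans (by gcongr)
          rw [Real.mul_rpow (by norm_num) hP.le] at b5
          calc _ ≤ C * (2 ^ (ε / 2) * ((M.prod : ℕ) : ℝ) ^ (ε / 2)) *
                ((M.prod : ℕ) : ℝ) ^ (-(1 + ε)) := by gcongr
            _ = C * 2 ^ (ε / 2) * (((M.prod : ℕ) : ℝ) ^ (ε / 2) *
                ((M.prod : ℕ) : ℝ) ^ (-(1 + ε))) := by ring
            _ = _ := by
              rw [← Real.rpow_add hP]
              congr 2
              ring
      · intro M _ M' _ hne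
        rw [Function.onFun, Finset.disjoint_left]
        intro q h1 h2
        obtain ⟨d, -, rfl⟩ := Finset.mem_image.1 h1
        obtain ⟨d', -, h⟩ := Finset.mem_image.1 h2
        exact hne (Prod.mk.inj h).1.symm
    calc _ ≤ _ := s1
      _ ≤ _ := s2
      _ ≤ _ := by gcongr
  apply not_summable_one_div_on_primes
  rw [← summable_nat_add_iff N]
  refine summable_of_sum_le (c := 4 ^ (1 + ε) * (C * 2 ^ (ε / 2) * Z))
    (fun n => Set.indicator_nonneg (fun _ _ => by positivity) _) fun u => ?_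
  have := key ((u.image (· + N)).filter Nat.Prime) (by
    intro p hp
    rw [Finset.mem_filter, Finset.mem_image] at hp
    obtain ⟨⟨a, _, rfl⟩, h2⟩ := hp
    exact ⟨h2, by omega⟩)
  rw [Finset.sum_filter, Finset.sum_image (fun a _ b _ hab => by simpa using hab)] at this
  refine le_trans (le_of_eq ?_) this
  refine Finset.sum_congr rfl fun n _ => ?_
  simp [Set.indicator]

end Pool.Agent.S17662
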