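import Pool.Statements.S17899
import Pool.Agent.H24.PhiP

set_option autoImplicit false
open Filter Topology
open Pool Pool.MP_9d1108_nt

namespace Pool.Agent.S17899

/-- There is F with F(x)→∞ and F(n)/φ(n)→0 along a density-one set, such that for some C only finitely many x have more than C·F(x) integers n with n+φ(n) in the open interval (x, x+F(x)). -/
theorem result :
    ∃ F : ℕ → ℝ, Tendsto F atTop atTop ∧
      (∃ A : Set ℕ,
        Tendsto (fun N : ℕ => ((A ∩ Set.Iio N).ncard : ℝ) / (N : ℝ)) atTop (𝓝 1) ∧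
        Tendsto (fun n : ℕ => F n / (Nat.totient n : ℝ)) (atTop ⊓ 𝓟 A) (𝓝 0)) ∧
      ¬ (∀ C : ℝ, Set.Infinite {x : ℕ |
          ((Set.ncard {n : ℕ | (x : ℝ) < (n : ℝ) + (Nat.totient n : ℝ) ∧
              (n : ℝ) + (Nat.totient n : ℝ) < (x : ℝ) + F x} : ℕ) : ℝ) > C * F x}) := by
  set k : ℕ → ℕ := fun x => Nat.sqrt (Nat.log 2 x / 3) with hk
  have kt : Tendsto k atTop atTop := tendsto_atTop.2 fun b => eventually_atTop.2
    ⟨2 ^ (3 * (b * b)), fun x hx => Nat.le_sqrt.2 ((Nat.le_div_iff_mul_le (by norm_num)).2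
      (by rw [mul_comm]; exact Nat.le_log_of_pow_le (by norm_num) hx))⟩
  have kr : Tendsto (fun x => (k x : ℝ)) atTop atTop := tendsto_natCast_atTop_atTop.comp kt
  have k1 : ∀ x, 2 ≤ k x → primorial (k x ^ 2) * k x ≤ x ∧ k x * k x ≤ x ∧
      Nat.log 2 x ≤ 15 * k x ^ 2 := fun x h => by
    have h1 : k x ^ 2 ≤ Nat.log 2 x / 3 := Nat.sqrt_le' _
    have h2 : Nat.log 2 x / 3 < (k x + 1) ^ 2 := Nat.lt_succ_sqrt' _
    have h0 : x ≠ 0 := by rintro rfl; simp [hk] at h
    have h3 := Nat.pow_log_le_self 2 h0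
    have h4 : Nat.log 2 x < 2 ^ Nat.log 2 x := Nat.lt_two_pow_self
    refine ⟨?_, by rw [← sq]; omega, by nlinarith [Nat.lt_mul_div_succ (Nat.log 2 x) three_pos]⟩
    calc _ ≤ 4 ^ (k x ^ 2) * 2 ^ (k x ^ 2) := Nat.mul_le_mul (primorial_le_four_pow _)
          (Nat.lt_two_pow_self.le.trans (Nat.pow_le_pow_right (by norm_num) (by nlinarith)))
      _ = 2 ^ (3 * k x ^ 2) := by rw [← mul_pow, pow_mul]; norm_num
      _ ≤ 2 ^ Nat.log 2 x := Nat.pow_le_pow_right (by norm_num) (by omega)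
      _ ≤ x := h3
  have k2 := kt.eventually_ge_atTop 2
  refine ⟨fun x => x / k x, ?_, ⟨Set.univ, ?_, ?_⟩, fun h => ?_⟩
  · refine tendsto_atTop_mono' _ (k2.mono fun x h => ?_) kr
    have : (0 : ℝ) < k x := by exact_mod_cast (by omega : 0 < k x)
    rw [le_div_iff₀ this]; exact_mod_cast (k1 x h).2.1
  · refine tendsto_const_nhds.congr' ((eventually_gt_atTop 0).mono fun N hN => ?_)
    have : (N : ℝ) ≠ 0 := by exact_mod_cast hN.ne'
    simp [this]
  · obtain ⟨C, C0, hC⟩ := Pool.Agent.H24.PhiP.ratio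
    rw [principal_univ, inf_top_eq]
    have t : Tendsto (fun n : ℕ => ((n : ℝ) / k n / n.totient) ^ 4) atTop (𝓝 0) := by
      refine squeeze_zero' (Eventually.of_forall fun _ => by positivity) (k2.mono fun n h => ?_)
        (kr.const_div_atTop (1 + 15 * C))
      have h1 := k1 n h
      have h2 := hC n (by nlinarith [h1.2.1])
      have h3 : (Nat.log 2 n : ℝ) ≤ 15 * (k n : ℝ) ^ 2 := by exact_mod_cast h1.2.2
      have h4 : (2 : ℝ) ≤ k n := by exact_mod_cast h
      rw [div_right_comm, div_pow, div_le_div_iff₀ (by positivity) (by positivity)]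
      have h5 : ((n : ℝ) / n.totient) ^ 4 ≤ (1 + 15 * C) * (k n : ℝ) ^ 2 := by nlinarith
      calc _ ≤ (1 + 15 * C) * (k n : ℝ) ^ 2 * k n := by gcongr
        _ ≤ (1 + 15 * C) * (k n : ℝ) ^ 2 * (k n : ℝ) ^ 2 := by gcongr; nlinarith
        _ = _ := by ring
    have := (t.sqrt).sqrt
    simp only [Real.sqrt_zero] at this
    refine this.congr fun n => ?_
    rw [show (4 : ℕ) = 2 * 2 by rfl, pow_mul, Real.sqrt_sq (by positivity), Real.sqrt_sq (by positivity)]
  · obtain ⟨N, hN⟩ := eventually_atTop.1 k2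
    obtain ⟨x, h1, h2⟩ := (h 6).exists_gt N
    have h3 := hN x h2.le
    have h4 := Pool.Agent.H24.PhiP.count x (k x) h3 (k1 x h3).1
    refine absurd h1 (not_lt.2 (le_trans (le_of_eq ?_) h4))
    rw [← Set.ncard_coe_finset]
    congr 2
    ext n
    simp only [Set.mem_setOf_eq, Finset.coe_filter, Finset.mem_Ioc]
    refine ⟨fun hn => ⟨⟨Nat.pos_of_ne_zero ?_, ?_⟩, hn⟩, fun hn => hn.2⟩
    · rintro rfl
      have : (0 : ℝ) ≤ x := Nat.cast_nonneg x
      simp at hn; linarith [hn.1]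
    · have h5 : (1 : ℝ) ≤ k x := by exact_mod_cast (by omega : 1 ≤ k x)
      have h6 : (x : ℝ) / k x ≤ x := div_le_self (Nat.cast_nonneg x) h5
      have h7 : (0 : ℝ) ≤ n.totient := Nat.cast_nonneg _
      have : (n : ℝ) ≤ 2 * x := by linarith [hn.2]
      exact_mod_cast this

end Pool.Agent.S17899
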