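import Pool.Statements.S18142
import Pool.Agent.H24.Ap8

set_option autoImplicit false
open Pool Pool.MP_ae71a2_nt

namespace Pool.Agent.S18142

/-- The negation of the preceding statement: The 5-adic valuation of the Apéry numbers, as an integer sequence, is 5-regular: the ℤ-module spanned by all subsequences n ↦ b(5^e n + r) with 0 ≤ r < 5^e is finitely generated. -/
theorem result :
    ¬ (∀ b : ℕ → ℤ,
      (∀ n : ℕ, b n = ((padicValNat 5
          (∑ k ∈ Finset.range (n + 1), (n.choose k) ^ 2 * ((n + k).choose k) ^ 2) : ℕ) : ℤ)) →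
      (Submodule.span ℤ
        {f : ℕ → ℤ | ∃ e r : ℕ, r < 5 ^ e ∧ f = fun n => b (5 ^ e * n + r)}).FG) := by
  intro H
  have hF := H (fun n => padicValNat 5 (H24.Ap.u n)) fun n => rfl
  obtain ⟨R, m, hR, hm⟩ := H24.Ap.exists_seq
  set M := Submodule.span ℤ {f : ℕ → ℤ | ∃ e r : ℕ, r < 5 ^ e ∧
    f = fun n => ((padicValNat 5 (H24.Ap.u (5 ^ e * n + r)) : ℕ) : ℤ)}
  have hG : ∀ j, (fun n => H24.Ap.g (5 ^ (j + 2) * n + R j)) ∈ M := fun j => by
    have := M.sub_mem (Submodule.subset_span ⟨j + 2, R j, (hR j).2, rfl⟩)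
      (Submodule.subset_span ⟨j + 2, R j - 1, by have := hR j; omega, rfl⟩)
    convert this using 1
    funext n
    simp only [H24.Ap.g, Pi.sub_apply, Nat.add_sub_assoc (hR j).1]
  have : IsNoetherian ℤ M := isNoetherian_of_fg_of_noetherian M hF
  have hl : LinearIndependent ℤ fun j : ℕ => (⟨_, M.sub_mem (hG (j + 1)) (hG j)⟩ : M) := by
    refine LinearIndependent.of_comp M.subtype (linearIndependent_iff'.2 fun s c hc => ?_)
    by_contra hne
    push Not at hne
    obtain ⟨i0, hi0, hc0⟩ := hne
    obtain ⟨i, hi, hmax⟩ := (s.filter fun i => c i ≠ 0).exists_max_image id ⟨i0, by simp [*]⟩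
    rw [Finset.mem_filter] at hi
    have h1 := congrFun hc (m i)
    rw [Finset.sum_apply, Finset.sum_eq_single i] at h1
    · simp [(hm i).2, (hm i).1 i le_rfl, hi.2] at h1
    · intro j hj hji
      by_cases h0 : c j = 0
      · simp [h0]
      · have : j ≤ i := hmax j (by simp [*])
        simp [(hm i).1 j this, (hm i).1 (j + 1) (by omega)]
    · exact fun h => absurd hi.1 h
  exact not_finite_iff_infinite.2 inferInstance hl.finite_of_isNoetherian

end Pool.Agent.S18142
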