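import Pool.Statements.S18225
import Pool.Agent.H12.SN4

set_option autoImplicit false
open Filter
open Pool Pool.MP_b5ad3e_nt

namespace Pool.Agent.S18225

/-- There is a base b≥2 and a strictly increasing positive sequence A with A(N)>N^θ eventually for each θ<1 such that the base-b concatenation number of A has, in every base b^m, each digit count's limsup/liminf of (count−n/B)/√(2n log log n) equal to ±√(B−1)/B. -/
theorem result :
    ∃ b : ℕ, 2 ≤ b ∧ ∃ a : ℕ → ℕ, StrictMono a ∧ (∀ n, 0 < a n) ∧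
      (∀ θ : ℝ, θ < 1 → ∀ᶠ N : ℕ in atTop,
          (N : ℝ) ^ θ < (Nat.card {n : ℕ | a n ≤ N} : ℝ)) ∧
      ∃ d : ℕ → ℕ,
        (∀ n r : ℕ, r < (Nat.digits b (a n)).length →
          d ((∑ j ∈ Finset.range n, (Nat.digits b (a j)).length) + r)
            = ((Nat.digits b (a n)).reverse).getD r 0) ∧
        ∃ ξ : ℝ, ξ = ∑' i : ℕ, (d i : ℝ) / (b : ℝ) ^ (i + 1) ∧
          ∀ m : ℕ, 1 ≤ m → ∀ k : ℕ, k < b ^ m →
            ∀ F : ℕ → ℝ,
              (∀ n : ℕ, F n =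
                ((((Finset.range n).filter
                    (fun i : ℕ => ⌊ξ * ((b : ℝ) ^ m) ^ (i + 1)⌋ % ((b : ℤ) ^ m) = (k : ℤ))).card : ℝ)
                  - (n : ℝ) / (b : ℝ) ^ m)
                / Real.sqrt (2 * (n : ℝ) * Real.log (Real.log (n : ℝ)))) →
              ∀ ε : ℝ, 0 < ε →
                (∀ᶠ n in atTop, F n < Real.sqrt ((b : ℝ) ^ m - 1) / (b : ℝ) ^ m + ε) ∧
                (∃ᶠ n in atTop, Real.sqrt ((b : ℝ) ^ m - 1) / (b : ℝ) ^ m - ε < F n) ∧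
                (∀ᶠ n in atTop, -(Real.sqrt ((b : ℝ) ^ m - 1) / (b : ℝ) ^ m) - ε < F n) ∧
                (∃ᶠ n in atTop, F n < -(Real.sqrt ((b : ℝ) ^ m - 1) / (b : ℝ) ^ m) + ε) := by
  obtain ⟨M, r, L, f, y, N, hM, hL, hy, h0, hN, hMN, hf, hL2, hdvd, hQ, hθ⟩ :=
    H12.SN3.exists_params
  obtain ⟨φ, hφ⟩ := H12.SN4.exists_freq
  choose γ hγ1 hγ2 hγ3 using fun t => H12.SN4.exists_dir (M t) (φ t)
  obtain ⟨P, hP⟩ : ∃ P : ℕ → ℤ, ∀ t, P t = M t * 2 ^ M t * ∑ s ∈ Finset.range (2 ^ M t), γ t s ^ 2 :=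
    ⟨_, fun _ => rfl⟩
  obtain ⟨j, hj⟩ : ∃ j : ℕ → ℕ, ∀ t, j t = ⌊H12.SN2.Λ (N t) / √(P t)⌋₊ := ⟨_, fun _ => rfl⟩
  have hΛ0 : ∀ x, 0 ≤ H12.SN2.Λ x := fun x => Real.sqrt_nonneg _
  have hP0 : ∀ t, 0 ≤ P t := fun t => by rw [hP]; positivity
  have hj1 : ∀ t, (j t : ℝ) ≤ H12.SN2.Λ (N t) / √(P t) := fun t => by
    rw [hj]; exact Nat.floor_le (div_nonneg (hΛ0 _) (Real.sqrt_nonneg _))
  have hj2 : ∀ t, (j t : ℝ) ≤ H12.SN2.Λ (N t) := fun t => by
    refine (hj1 t).trans ?_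
    rcases eq_or_lt_of_le (hP0 t) with h | h
    · simp [← h, hΛ0]
    · exact div_le_self (hΛ0 _) (Real.one_le_sqrt.mpr (by exact_mod_cast h))
  have hj3 : ∀ t, (j t : ℝ) ^ 2 * P t ≤ H12.SN2.Λ (N t) ^ 2 := fun t => by
    have h1 := mul_le_of_le_div₀ (hΛ0 _) (Real.sqrt_nonneg _) (hj1 t)
    have h2 := pow_le_pow_left₀ (by positivity) h1 2
    rwa [mul_pow, Real.sq_sqrt (by exact_mod_cast hP0 t)] at h2
  choose A hA1 hA2 using fun t => H12.SN1.exists_numbers (M t) (r t) (hM t) (γ t) (hγ1 t) (hγ2 t)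
    (H12.SN4.sg (j t)) (H12.SN4.sg_abs (j t))
  simp only [← hL, ← hy] at hA1 hA2
  obtain ⟨a, len, ha1, ha2, ha3, ha4, ha5⟩ := H12.SN4.exists_seq A h0 hN hf hL2 hθ hA1
    fun t i hi => ⟨(hA2 t i hi).1, (hA2 t i hi).2.1⟩
  obtain ⟨d, hd1, hd2⟩ := H12.SN2.exists_digits a len ha2 ha3
  refine ⟨2, le_rfl, a, ha1, fun n => (Nat.two_pow_pos _).trans_le (ha2 n).2.1, ha4, d, hd1, _, rfl,
    fun m hm k hk F hF ε hε => ?_⟩
  have hd3 : (∑' i : ℕ, (d i : ℝ) / ((2 : ℕ) : ℝ) ^ (i + 1)) =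
    ∑' i : ℕ, (d i : ℝ) / (2 : ℝ) ^ (i + 1) := by simp
  rw [hd3] at hF
  generalize (∑' i : ℕ, (d i : ℝ) / (2 : ℝ) ^ (i + 1)) = ξ at hF hd2
  have hF' : ∀ n, F n = (H12.SN2.D ξ m k n : ℝ) / H12.SN2.Λ n / 2 ^ m := fun n => by
    rw [hF, H12.SN2.D, H12.SN2.Λ, div_right_comm]
    congr 1
    push_cast
    field_simp
  have hf' : ∀ t, 2 ≤ f t ∧ f t < L t := fun t => ⟨(hf t).1, (hf t).2.1⟩
  have hgr := H12.SN4.growth h0 hN hf' hL2 (fun t => by
    rw [hy, hL]; gcongr <;> omega) hθ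
  obtain ⟨Δ, hΔ⟩ : ∃ Δ : ℕ → ℤ, ∀ t, Δ t =
    ∑ s ∈ Finset.range (2 ^ M t), γ t s * H12.SN1.g (2 ^ m) k (M t / m) s := ⟨_, fun _ => rfl⟩
  have hLd : ∀ t, m ∣ M t → m ∣ L t := fun t h => by
    rw [hL]; exact (h.mul_right _).mul_right _
  obtain ⟨C, hC0, hC⟩ := H12.SN4.walk (j := j) (W := H12.SN2.D ξ m k) (Δ := Δ) (K := 2 ^ m) hm
    (by positivity) (H12.SN2.D_lip ξ m k) hN hf' hL2 (by
      filter_upwards [hdvd m hm, hgr] with t h1 h2
      refine ⟨h1.trans (hMN t), hLd t h1, ?_, fun i hi => ?_⟩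
      · have : (2 * j t : ℝ) ≤ 2 ^ y t := by linarith [hj2 t, h2.2.1]
        exact_mod_cast this
      · obtain ⟨n, h3, h4, h5⟩ := ha5 t i hi
        have h6 := Nat.mul_div_cancel' (hLd t h1)
        rw [H12.SN2.D_block ξ m k _ _ (A t i) (by
          rw [mul_add, mul_left_comm, h6, Nat.mul_div_cancel' (h1.trans (hMN t)), ← h5, ← h4, ← h3]
          exact hd2 n), hΔ, ← (hA2 t i hi).2.2 m _ k (Nat.mul_div_cancel' h1) hk]
        congr 2
        refine Nat.eq_of_mul_eq_mul_left hm ?_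
        rw [h6, ← mul_assoc, Nat.mul_div_cancel' h1, hL, mul_assoc])
  have hm' : (0 : ℝ) < m := by exact_mod_cast hm
  have hβ : (2 : ℝ) ≤ 2 ^ m := le_self_pow₀ (by norm_num) (by omega)
  have hV : ∀ t, m ∣ M t → (∑ s ∈ Finset.range (2 ^ M t), H12.SN1.g (2 ^ m) k (M t / m) s ^ 2 : ℤ) =
      2 ^ M t * (M t / m : ℕ) * (2 ^ m - 1) := fun t h => by
    have := (H12.SN1.g_sums hk (M t / m)).2
    rw [← pow_mul, Nat.mul_div_cancel' h] at this
    rw [this]; push_cast; rw [← pow_mul, Nat.mul_div_cancel' h]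
  have hS : Tendsto (fun t : ℕ => (t + 5 : ℝ)) atTop atTop :=
    tendsto_atTop_add_const_right _ _ tendsto_natCast_atTop_atTop
  have hmono : StrictMono N := strictMono_nat_of_lt_succ fun t => by
    have := hf (t + 1); rw [hN]; omega
  obtain ⟨h1, h2⟩ := H12.SN2.lil (fun n => H12.SN2.D ξ m k n) m hm √(2 ^ m - 1) N hmono
    (fun t => C + 2 ^ m * (t + 5) ^ 3) (by
      refine squeeze_zero' (Eventually.of_forall fun t => div_nonneg (by positivity) (hΛ0 _)) ?_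
        ((tendsto_const_nhds (x := (C + 2 ^ m : ℝ))).div_atTop hS)
      filter_upwards [hgr] with t ht
      have h1 : (1 : ℝ) ≤ (t + 5) ^ 3 := one_le_pow₀ (by linarith [(Nat.cast_nonneg t : (0 : ℝ) ≤ t)])
      have h2 : (0 : ℝ) ≤ C := by exact_mod_cast hC0
      calc _ ≤ (C + 2 ^ m) * (t + 5 : ℝ) ^ 3 / (t + 5) ^ 4 := by
            gcongr
            · nlinarith
            · exact ht.1
        _ = _ := by field_simp)
    (fun t => N t / m + j t * (L t / m)) (by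
      have h1 : Tendsto (fun t => (j t * L t : ℝ) / N t) atTop (nhds 0) := by
        refine squeeze_zero' (Eventually.of_forall fun t => by positivity) ?_
          ((tendsto_const_nhds (x := (2 : ℝ))).div_atTop hS)
        filter_upwards [hgr] with t ht
        refine le_trans ?_ ht.2.2
        gcongr
        exact hj2 t
      have h2 := (h1.const_add 1).div_const m
      rw [add_zero] at h2
      refine h2.congr' ?_
      filter_upwards [hdvd m hm, hmono.tendsto_atTop.eventually_gt_atTop 0] with t h3 h4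
      have h5 : (0 : ℝ) < N t := by exact_mod_cast h4
      push_cast [Nat.cast_div (h3.trans (hMN t)) hm'.ne', Nat.cast_div (hLd t h3) hm'.ne']
      field_simp) (by
      filter_upwards [hdvd m hm, hC] with t h1 h2 n h3 h4
      have h5 : |(H12.SN2.D ξ m k n : ℝ)| ≤ C + 2 ^ m * (t + 5) ^ 3 + j t * |(Δ t : ℝ)| := by
        exact_mod_cast h2.1 n h3 h4
      refine h5.trans (add_le_add le_rfl ((sq_le_sq₀ (by positivity)
        (mul_nonneg (hΛ0 _) (by positivity))).mp ?_))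
      have h6 := Finset.sum_mul_sq_le_sq_mul_sq (Finset.range (2 ^ M t)) (γ t)
        (H12.SN1.g (2 ^ m) k (M t / m))
      rw [← hΔ, hV t h1] at h6
      have h7 : m * Δ t ^ 2 ≤ P t * (2 ^ m - 1) := by
        have h8 : (M t : ℤ) = m * (M t / m : ℕ) := by exact_mod_cast (Nat.mul_div_cancel' h1).symm
        refine (mul_le_mul_of_nonneg_left h6 (by positivity)).trans_eq ?_
        rw [hP]
        generalize M t / m = e at h8 ⊢
        rw [h8]; ring
      have h8 : (m * Δ t ^ 2 : ℝ) ≤ P t * (2 ^ m - 1) := by exact_mod_cast h7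
      rw [mul_pow, mul_pow, div_pow, Real.sq_sqrt (by linarith), Real.sq_sqrt hm'.le, sq_abs,
        ← mul_div_assoc, le_div_iff₀ hm']
      nlinarith [mul_le_mul_of_nonneg_left h8 (sq_nonneg (j t : ℝ)),
        mul_le_mul_of_nonneg_right (hj3 t) (show (0 : ℝ) ≤ 2 ^ m - 1 by linarith)])
    (ε * 2 ^ m) (by positivity)
  have h3 : ∀ s : ℤ, |s| = 1 → ∃ᶠ n : ℕ in atTop, √(2 ^ m - 1) - ε * 2 ^ m <
      s * ((H12.SN2.D ξ m k n : ℝ) / H12.SN2.Λ n) := fun s hs => by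
    refine h2 s (((hφ (m, k, s)).and_eventually ((hdvd m hm).and hC)).mono fun t ⟨h3, h4, h5⟩ => ?_)
    have h6 := hγ3 t m _ k s h3 hm (Nat.mul_div_cancel' h4) hk hs
    have h7 : s ^ 2 = 1 := by rw [← sq_abs, hs, one_pow]
    have h8 := hV t h4
    have h9 := hP t
    have h10 := hΔ t
    have h11 := hQ t
    simp only [h6, mul_pow, h7, one_mul, h8] at h9
    simp only [h6, mul_assoc, ← sq, ← Finset.mul_sum, h8] at h10
    obtain ⟨e, he⟩ := h4
    have he0 : 0 < e := Nat.pos_of_ne_zero (by rintro rfl; have := hM t; omega)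
    rw [show M t / m = e by rw [he, Nat.mul_div_cancel_left _ hm]] at h9 h10
    have h12 : 2 ^ M t * e ≤ t + 4 := by
      refine le_trans ?_ h11
      rw [mul_comm]; gcongr; rw [he]; exact Nat.le_mul_of_pos_left _ hm
    have h13 : (2 ^ M t * e : ℝ) ≤ t + 4 := by exact_mod_cast h12
    have h14 : (0 : ℝ) < 2 ^ M t * e := by positivity
    have h15 : (P t : ℝ) = (2 ^ M t * e * (√m * √(2 ^ m - 1))) ^ 2 := by
      rw [h9, mul_pow, mul_pow √m, Real.sq_sqrt hm'.le, Real.sq_sqrt (by linarith)]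
      push_cast
      rw [show (M t : ℝ) = m * e by exact_mod_cast he]
      ring
    have h16 := Nat.lt_floor_add_one (H12.SN2.Λ (N t) / √(P t))
    have h17 : 0 < √((2 : ℝ) ^ m - 1) := Real.sqrt_pos.mpr (by linarith)
    rw [← hj, h15, Real.sqrt_sq (by positivity), div_lt_iff₀ (by positivity)] at h16
    have h18 : H12.SN2.Λ (N t) * (√(2 ^ m - 1) / √m) ≤ (j t + 1) * (2 ^ M t * e * (2 ^ m - 1)) := by
      rw [← mul_div_assoc, div_le_iff₀ (by positivity)]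
      refine (mul_le_mul_of_nonneg_right h16.le h17.le).trans_eq ?_
      conv_rhs => rw [← Real.mul_self_sqrt (show (0 : ℝ) ≤ 2 ^ m - 1 by linarith)]
      ring
    have h19 : (j t : ℤ) * (2 ^ M t * e * (2 ^ m - 1)) - (C + 2 ^ m * (t + 4) ^ 3) ≤
        s * H12.SN2.D ξ m k (N t / m + j t * (L t / m)) := by
      have h20 := neg_abs_le (s * (H12.SN2.D ξ m k (N t / m + j t * (L t / m)) - j t * Δ t))
      rw [abs_mul, hs, one_mul] at h20
      have h21 : s * (j t * Δ t) = j t * (2 ^ M t * e * (2 ^ m - 1)) := by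
        rw [h10]; linear_combination (j t * (2 ^ M t * e * (2 ^ m - 1))) * h7
      linarith [h5.2]
    have h20 : (j t : ℝ) * (2 ^ M t * e * (2 ^ m - 1)) - (C + 2 ^ m * (t + 4) ^ 3) ≤
        s * H12.SN2.D ξ m k (N t / m + j t * (L t / m)) := by exact_mod_cast h19
    have h21 : (2 ^ M t * e : ℝ) * (2 ^ m - 1) + 2 ^ m * (t + 4) ^ 3 ≤ 2 ^ m * (t + 5) ^ 3 := by
      have : (0 : ℝ) ≤ t := Nat.cast_nonneg t
      have h22 : (t + 4 : ℝ) + (t + 4) ^ 3 ≤ (t + 5) ^ 3 := by nlinarith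
      nlinarith
    linarith
  have hb : (0 : ℝ) < 2 ^ m := by positivity
  simp only [hF', Nat.cast_ofNat]
  refine ⟨h1.mono fun n hn => ?_, (h3 1 abs_one).mono fun n hn => ?_, h1.mono fun n hn => ?_,
    (h3 (-1) (by simp)).mono fun n hn => ?_⟩
  · rw [div_add' _ _ _ hb.ne', div_lt_div_iff_of_pos_right hb]
    exact (abs_lt.mp hn).2
  · rw [div_sub' hb.ne', div_lt_div_iff_of_pos_right hb]
    push_cast at hn
    linarith
  · rw [← neg_div, div_sub' hb.ne', div_lt_div_iff_of_pos_right hb]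
    linarith [(abs_lt.mp hn).1]
  · rw [← neg_div, div_add' _ _ _ hb.ne', div_lt_div_iff_of_pos_right hb]
    push_cast at hn
    linarith

end Pool.Agent.S18225
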