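import Pool.Statements.S18340
import Pool.Agent.Lead.JR2

set_option autoImplicit false
open Pool Pool.MP_be0b77_nt

namespace Pool.Agent.S18340

open Pool.Agent.Lead.JR in
/-- The negation of the preceding statement: For every totally real field K of algebraic numbers, let A be the set of s>0 such that infinitely many algebraic integers of K have all conjugates in [0,s]. If A is nonempty, then its infimum belongs to A. -/
theorem result :
    ¬ (∀ K : Subfield ℂ,
      (∀ x ∈ K, IsIntegral ℚ x ∧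
        ∀ z : ℂ, Polynomial.aeval z (minpoly ℚ x) = 0 → z.im = 0) →
      ∀ A : Set ℝ,
        A = {s : ℝ | 0 < s ∧
          {α : ℂ | α ∈ K ∧ IsIntegral ℤ α ∧
            ∀ z : ℂ, Polynomial.aeval z (minpoly ℚ α) = 0 →
              z.im = 0 ∧ 0 ≤ z.re ∧ z.re ≤ s}.Infinite} →
        A.Nonempty → sInf A ∈ A) := by
  intro h
  obtain ⟨K, β, hK, hinj, hβ, hfin⟩ := tower
  have := isAlg
  let ι : Ω →ₐ[ℚ] ℂ := IsAlgClosed.lift
  have hι : Function.Injective ι := ι.toRingHom.injective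
  have hmin : ∀ x, minpoly ℚ (ι x) = minpoly ℚ x := fun x => minpoly.algHom_eq ι hι x
  have hint : ∀ x, IsIntegral ℤ (ι x) ↔ IsIntegral ℤ x := fun x =>
    isIntegral_algHom_iff ι.toRingHom.toIntAlgHom hι
  have hA : {s : ℝ | 0 < s ∧
      {α : ℂ | α ∈ (K.map ι).toSubfield ∧ IsIntegral ℤ α ∧
        ∀ z : ℂ, Polynomial.aeval z (minpoly ℚ α) = 0 →
          z.im = 0 ∧ 0 ≤ z.re ∧ z.re ≤ s}.Infinite} = Set.Ioi 4 := by
    ext s
    constructor
    · rintro ⟨-, hs⟩
      by_contra h4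
      have h4' : s ≤ 4 := not_lt.mp h4
      refine hs (((Set.finite_Icc (0 : ℤ) 4).image (fun n : ℤ => (n : ℂ))).subset ?_)
      rintro _ ⟨⟨x, hx, rfl⟩, hi, hg⟩
      change IsIntegral ℤ (ι x) at hi
      change ∀ z : ℂ, Polynomial.aeval z (minpoly ℚ (ι x)) = 0 → _ at hg
      have hb := hg (ι x) (minpoly.aeval ℚ _)
      rw [hmin] at hg
      obtain ⟨r, rfl⟩ := IntermediateField.mem_bot.mp (hfin x hx ((hint x).mp hi)
        fun z hz => ⟨(hg z hz).1, (hg z hz).2.1, (hg z hz).2.2.trans h4'⟩)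
      rw [AlgHom.commutes] at hi hb
      have hr : IsIntegral ℤ r :=
        (isIntegral_algHom_iff (algebraMap ℚ ℂ).toIntAlgHom (algebraMap ℚ ℂ).injective).mp hi
      obtain ⟨n, rfl⟩ := IsIntegrallyClosed.isIntegral_iff.mp hr
      simp only [eq_intCast, map_intCast, Complex.intCast_re] at hb
      refine ⟨n, ⟨by exact_mod_cast hb.2.1, by exact_mod_cast hb.2.2.trans h4'⟩, ?_⟩
      simp
    · intro hs
      have hs' : (4 : ℝ) < s := hs
      refine ⟨by linarith, ?_⟩
      obtain ⟨N, hN⟩ := exists_nat_one_div_lt (show 0 < s - 4 by linarith)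
      refine Set.infinite_of_injective_forall_mem (f := fun n : ℕ => ι (β (n + N)))
        (hι.comp (hinj.comp (add_left_injective N))) fun n => ?_
      obtain ⟨h1, h2, h3⟩ := hβ (n + N)
      refine ⟨⟨_, h1, rfl⟩, (hint _).mpr h2, fun z hz => ?_⟩
      rw [hmin] at hz
      refine ⟨(h3 z hz).1, (h3 z hz).2.1, (h3 z hz).2.2.trans ?_⟩
      have : 1 / (((n + N : ℕ) : ℝ) + 1) ≤ 1 / ((N : ℝ) + 1) := by
        gcongr; omega
      linarith
  have key := h (K.map ι).toSubfield (by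
    rintro _ ⟨x, hx, rfl⟩
    change IsIntegral ℚ (ι x) ∧ ∀ z : ℂ, Polynomial.aeval z (minpoly ℚ (ι x)) = 0 → _
    refine ⟨(Algebra.IsIntegral.isIntegral x).map ι, fun z hz => ?_⟩
    rw [hmin] at hz
    obtain ⟨φ, rfl⟩ := IntermediateField.exists_algHom_of_splits_of_aeval
      (fun s => ⟨Algebra.IsIntegral.isIntegral s, IsAlgClosed.splits _⟩) hz
    exact hK hx φ) _ rfl
  rw [hA, csInf_Ioi] at key
  exact lt_irrefl (4 : ℝ) (key ⟨5, by norm_num⟩)

end Pool.Agent.S18340
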