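import Pool.Statements.S18406

set_option autoImplicit false
open Classical
open Pool Pool.MP_c36293_nt

namespace Pool.Agent.S18406

open MeasureTheory

/-- number of grid points `j / n` below `t` -/
noncomputable def F (n : ℕ) (t : ℝ) : ℝ := ∑ j : Fin n, if ((j : ℕ) : ℝ) / n < t then 1 else 0

theorem F_bounds (n : ℕ) (hn : 0 < n) (t : ℝ) (h0 : 0 ≤ t) (h1 : t ≤ 1) :
    n * t ≤ F n t ∧ F n t ≤ n * t + 1 := by
  have hn' : (0 : ℝ) < n := by exact_mod_cast hn
  have hle : ⌈(n : ℝ) * t⌉₊ ≤ n := by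
    rw [Nat.ceil_le]
    nlinarith
  have : F n t = (⌈(n : ℝ) * t⌉₊ : ℝ) := by
    unfold F
    rw [Fin.sum_univ_eq_sum_range (fun j : ℕ => if (j : ℝ) / n < t then (1 : ℝ) else 0) n,
      Finset.sum_boole]
    congr 1
    rw [← Finset.card_range ⌈(n : ℝ) * t⌉₊]
    congr 1
    ext j
    simp only [Finset.mem_filter, Finset.mem_range, Nat.lt_ceil, div_lt_iff₀ hn']
    constructor
    · rintro ⟨_, h⟩
      linarith
    · intro h
      refine ⟨?_, by linarith⟩
      have : (j : ℝ) < n := by nlinarith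
      exact_mod_cast this
  rw [this]
  exact ⟨Nat.le_ceil _, (Nat.ceil_lt_add_one (by positivity)).le⟩

theorem low_count (n k : ℕ) (hk : k ≤ n) :
    (∑ i : Fin n, if (i : ℕ) < k then (1 : ℝ) else 0) = k := by
  rw [Fin.sum_univ_eq_sum_range (fun j : ℕ => if j < k then (1 : ℝ) else 0) n, Finset.sum_boole]
  congr 1
  rw [← Finset.card_range k]
  congr 1
  ext j
  simp only [Finset.mem_filter, Finset.mem_range, Finset.card_range]
  omega

noncomputable def pt (n k : ℕ) (q : Fin n × Fin n) : Fin 2 → ℝ :=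
  if (q.1 : ℕ) < k then 0 else ![((q.1 : ℕ) : ℝ) / n, ((q.2 : ℕ) : ℝ) / n]

noncomputable def PP (n k : ℕ) (i : Fin (n * n)) : Fin 2 → ℝ := pt n k (finProdFinEquiv.symm i)

theorem count_eq (n k : ℕ) (c : (Fin 2 → ℝ) → Prop) [DecidablePred fun i => c (PP n k i)]
    [DecidablePred c] :
    ((Finset.univ.filter (fun i : Fin (n * n) => c (PP n k i))).card : ℝ) =
      ∑ i : Fin n, ∑ j : Fin n, if c (pt n k (i, j)) then (1 : ℝ) else 0 := by
  rw [← Finset.sum_boole, ← Fintype.sum_prod_type' (fun i j => if c (pt n k (i, j)) then (1 : ℝ) else 0)]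
  refine Fintype.sum_equiv finProdFinEquiv.symm _ _ ?_
  intro i
  unfold PP
  split_ifs <;> rfl

theorem b_eq (n : ℕ) (s t : ℝ) (h : s ≤ t) :
    (∑ j : Fin n, if s ≤ ((j : ℕ) : ℝ) / n ∧ ((j : ℕ) : ℝ) / n < t then (1 : ℝ) else 0) =
      F n t - F n s := by
  unfold F
  rw [← Finset.sum_sub_distrib]
  refine Finset.sum_congr rfl fun j _ => ?_
  by_cases h1 : ((j : ℕ) : ℝ) / n < s
  · rw [if_neg (fun h => absurd h.1 (not_le.2 h1)), if_pos (h1.trans_le h), if_pos h1]; simp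
  · by_cases h2 : ((j : ℕ) : ℝ) / n < t
    · rw [if_pos ⟨not_lt.1 h1, h2⟩, if_pos h2, if_neg h1]; simp
    · rw [if_neg (fun h => h2 h.2), if_neg h2, if_neg h1]; simp

/-- pointwise bound for the extreme discrepancy function -/
theorem extr_bound (n k : ℕ) (hn : 0 < n) (hk0 : 0 < k) (hk : k ≤ n) (x y : Fin 2 → ℝ)
    (hx : x ∈ Set.Icc (0 : Fin 2 → ℝ) 1) (hy : y ∈ Set.Icc (0 : Fin 2 → ℝ) 1) (hxy : x ≤ y) :
    |((Finset.univ.filter (fun i : Fin (n * n) => ∀ j : Fin 2,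
        x j ≤ PP n k i j ∧ PP n k i j < y j)).card : ℝ)
      - ((n * n : ℕ) : ℝ) * ∏ j : Fin 2, (y j - x j)| ≤
      2 * n + if x 0 ≤ (k : ℝ) / n then 2 * (k : ℝ) * n else 0 := by
  have hn' : (0 : ℝ) < n := by exact_mod_cast hn
  have hk' : (0 : ℝ) < k := by exact_mod_cast hk0
  rw [count_eq n k (fun z => ∀ j : Fin 2, x j ≤ z j ∧ z j < y j)]
  set b : ℝ := ∑ j : Fin n, if x 1 ≤ ((j : ℕ) : ℝ) / n ∧ ((j : ℕ) : ℝ) / n < y 1 then (1 : ℝ) else 0
    with hb
  set a : ℝ := ∑ j : Fin n, if x 0 ≤ ((j : ℕ) : ℝ) / n ∧ ((j : ℕ) : ℝ) / n < y 0 then (1 : ℝ) else 0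
    with ha
  have hb0 : 0 ≤ b := Finset.sum_nonneg fun j _ => by split_ifs <;> norm_num
  have hbn : b ≤ n := by
    calc b ≤ ∑ j : Fin n, (1 : ℝ) := Finset.sum_le_sum fun j _ => by split_ifs <;> norm_num
      _ = n := by simp
  have hb1 := b_eq n _ _ (hxy 1)
  have ha1 := b_eq n _ _ (hxy 0)
  rw [← hb] at hb1
  rw [← ha] at ha1
  have f1 := F_bounds n hn _ (hx.1 0) (hx.2 0)
  have f2 := F_bounds n hn _ (hx.1 1) (hx.2 1)
  have f3 := F_bounds n hn _ (hy.1 0) (hy.2 0)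
  have f4 := F_bounds n hn _ (hy.1 1) (hy.2 1)
  have hl0 : 0 ≤ y 0 - x 0 := sub_nonneg.2 (hxy 0)
  have hl1 : y 0 - x 0 ≤ 1 := by
    have h1 : (0 : ℝ) ≤ x 0 := hx.1 0
    have h2 : y 0 ≤ (1 : ℝ) := hy.2 0
    linarith
  have hmain : |a * b - ((n * n : ℕ) : ℝ) * ∏ j : Fin 2, (y j - x j)| ≤ 2 * n := by
    rw [Fin.prod_univ_two]
    have e : a * b - ((n * n : ℕ) : ℝ) * ((y 0 - x 0) * (y 1 - x 1)) =
        (a - n * (y 0 - x 0)) * b + n * (y 0 - x 0) * (b - n * (y 1 - x 1)) := by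
      push_cast; ring
    rw [e]
    have h1 : |a - n * (y 0 - x 0)| ≤ 1 := by
      rw [abs_le]; constructor <;> nlinarith [f1.1, f1.2, f3.1, f3.2]
    have h2 : |b - n * (y 1 - x 1)| ≤ 1 := by
      rw [abs_le]; constructor <;> nlinarith [f2.1, f2.2, f4.1, f4.2]
    calc _ ≤ |(a - n * (y 0 - x 0)) * b| + |n * (y 0 - x 0) * (b - n * (y 1 - x 1))| := abs_add_le _ _
      _ = |a - n * (y 0 - x 0)| * b + n * (y 0 - x 0) * |b - n * (y 1 - x 1)| := by
        rw [abs_mul, abs_mul, abs_of_nonneg hb0,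
          abs_of_nonneg (show 0 ≤ (n : ℝ) * (y 0 - x 0) by positivity)]
      _ ≤ 1 * n + n * 1 * 1 := by gcongr
      _ = 2 * n := by ring
  have hab : a * b = ∑ i : Fin n, ∑ j : Fin n,
      if (x 0 ≤ ((i : ℕ) : ℝ) / n ∧ ((i : ℕ) : ℝ) / n < y 0) ∧
        (x 1 ≤ ((j : ℕ) : ℝ) / n ∧ ((j : ℕ) : ℝ) / n < y 1) then (1 : ℝ) else 0 := by
    rw [ha, hb, Finset.sum_mul_sum]
    refine Finset.sum_congr rfl fun i _ => Finset.sum_congr rfl fun j _ => ?_
    rw [ite_zero_mul_ite_zero, one_mul]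
  have hdiff : |(∑ i : Fin n, ∑ j : Fin n,
      if ∀ l : Fin 2, x l ≤ pt n k (i, j) l ∧ pt n k (i, j) l < y l then (1 : ℝ) else 0) - a * b| ≤
      if x 0 ≤ (k : ℝ) / n then 2 * (k : ℝ) * n else 0 := by
    rw [hab, ← Finset.sum_sub_distrib]
    have hterm : ∀ i : Fin n, |(∑ j : Fin n,
        if ∀ l : Fin 2, x l ≤ pt n k (i, j) l ∧ pt n k (i, j) l < y l then (1 : ℝ) else 0) -
        ∑ j : Fin n, if (x 0 ≤ ((i : ℕ) : ℝ) / n ∧ ((i : ℕ) : ℝ) / n < y 0) ∧
        (x 1 ≤ ((j : ℕ) : ℝ) / n ∧ ((j : ℕ) : ℝ) / n < y 1) then (1 : ℝ) else 0| ≤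
        (if x 0 ≤ (k : ℝ) / n then (n : ℝ) else 0) * (if (i : ℕ) < k then (1 : ℝ) else 0) := by
      intro i
      rw [← Finset.sum_sub_distrib]
      by_cases hi : (i : ℕ) < k
      · rw [if_pos hi, mul_one]
        by_cases h0 : x 0 ≤ (k : ℝ) / n
        · rw [if_pos h0]
          refine (Finset.abs_sum_le_sum_abs _ _).trans ?_
          calc _ ≤ ∑ j : Fin n, (1 : ℝ) := Finset.sum_le_sum fun j _ => by split_ifs <;> norm_num
            _ = n := by simp
        · rw [if_neg h0, Finset.sum_eq_zero, abs_zero]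
          intro j _
          have h1 : ((i : ℕ) : ℝ) / n < k / n := by gcongr
          have h2 : (0 : ℝ) < k / n := by positivity
          rw [if_neg, if_neg, sub_zero]
          · intro h; linarith [h.1.1]
          · intro h
            have := (h 0).1
            simp only [pt, if_pos hi, Pi.zero_apply] at this
            linarith
      · rw [if_neg hi, mul_zero, Finset.sum_eq_zero, abs_zero]
        intro j _
        simp only [pt, if_neg hi, Fin.forall_fin_two, Matrix.cons_val_zero, Matrix.cons_val_one,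
          sub_self]
    refine (Finset.abs_sum_le_sum_abs _ _).trans ((Finset.sum_le_sum fun i _ => hterm i).trans ?_)
    rw [← Finset.mul_sum, low_count n k hk]
    split_ifs
    · nlinarith
    · simp
  calc _ = |((∑ i : Fin n, ∑ j : Fin n,
      if ∀ l : Fin 2, x l ≤ pt n k (i, j) l ∧ pt n k (i, j) l < y l then (1 : ℝ) else 0) - a * b) +
      (a * b - ((n * n : ℕ) : ℝ) * ∏ j : Fin 2, (y j - x j))| := by congr 1; ring
    _ ≤ _ := abs_add_le _ _
    _ ≤ _ := by linarith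

/-- pointwise lower bound for the periodic discrepancy function on a fixed region -/
theorem per_bound (n k : ℕ) (hn : 0 < n) (hk : 4 * k ≤ n) (x y : Fin 2 → ℝ)
    (hx : x ∈ Set.Icc (![3 / 4, 1 / 8] : Fin 2 → ℝ) ![1, 1 / 4])
    (hy : y ∈ Set.Icc (![1 / 4, 3 / 4] : Fin 2 → ℝ) ![1 / 2, 1]) (hk1 : 1 ≤ k) :
    ((k : ℝ) - 3) * n / 2 ≤
    |((Finset.univ.filter (fun i : Fin (n * n) => ∀ j : Fin 2,
        (x j ≤ y j ∧ x j ≤ PP n k i j ∧ PP n k i j < y j) ∨
        (y j < x j ∧ (PP n k i j < y j ∨ x j ≤ PP n k i j)))).card : ℝ)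
      - ((n * n : ℕ) : ℝ) * ∏ j : Fin 2, (if x j ≤ y j then y j - x j else 1 - x j + y j)| := by
  have hn' : (0 : ℝ) < n := by exact_mod_cast hn
  have hk' : (1 : ℝ) ≤ k := by exact_mod_cast hk1
  have hk4 : 4 * (k : ℝ) ≤ n := by exact_mod_cast hk
  have x0 : 3 / 4 ≤ x 0 := by simpa using hx.1 0
  have x0' : x 0 ≤ 1 := by simpa using hx.2 0
  have x1 : 1 / 8 ≤ x 1 := by simpa using hx.1 1
  have x1' : x 1 ≤ 1 / 4 := by simpa using hx.2 1
  have y0 : 1 / 4 ≤ y 0 := by simpa using hy.1 0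
  have y0' : y 0 ≤ 1 / 2 := by simpa using hy.2 0
  have y1 : 3 / 4 ≤ y 1 := by simpa using hy.1 1
  have y1' : y 1 ≤ 1 := by simpa using hy.2 1
  have c0 : ¬ x 0 ≤ y 0 := by linarith
  have c0' : y 0 < x 0 := by linarith
  have c1 : x 1 ≤ y 1 := by linarith
  have c1' : ¬ y 1 < x 1 := by linarith
  rw [count_eq n k (fun z => ∀ j : Fin 2, (x j ≤ y j ∧ x j ≤ z j ∧ z j < y j) ∨
        (y j < x j ∧ (z j < y j ∨ x j ≤ z j))), Fin.prod_univ_two, if_neg c0, if_pos c1]
  set b : ℝ := ∑ j : Fin n, if x 1 ≤ ((j : ℕ) : ℝ) / n ∧ ((j : ℕ) : ℝ) / n < y 1 then (1 : ℝ) else 0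
    with hb
  set a : ℝ := ∑ i : Fin n, if ¬ (i : ℕ) < k ∧
    (((i : ℕ) : ℝ) / n < y 0 ∨ x 0 ≤ ((i : ℕ) : ℝ) / n) then (1 : ℝ) else 0 with ha
  have ha0 : 0 ≤ a := Finset.sum_nonneg fun j _ => by split_ifs <;> norm_num
  have hb1 := b_eq n _ _ c1
  rw [← hb] at hb1
  have ha1 : a = F n (y 0) - k + (n - F n (x 0)) := by
    have hn1 : (n : ℝ) = ∑ j : Fin n, (1 : ℝ) := by simp
    have : F n (y 0) - k + (n - F n (x 0)) = F n (y 0) -
      (∑ i : Fin n, if (i : ℕ) < k then (1 : ℝ) else 0) + ((∑ j : Fin n, (1 : ℝ)) - F n (x 0)) := by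
      rw [low_count n k (by omega), ← hn1]
    rw [this]
    unfold F
    rw [← Finset.sum_sub_distrib, ← Finset.sum_sub_distrib, ← Finset.sum_add_distrib, ha]
    refine Finset.sum_congr rfl fun i _ => ?_
    by_cases hi : (i : ℕ) < k
    · have h1 : ((i : ℕ) : ℝ) / n < y 0 := by
        have : ((i : ℕ) : ℝ) < k := by exact_mod_cast hi
        rw [div_lt_iff₀ hn']
        nlinarith
      rw [if_neg (fun h => h.1 hi), if_pos h1, if_pos hi, if_pos (h1.trans c0')]
      norm_num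
    · by_cases h1 : ((i : ℕ) : ℝ) / n < y 0
      · rw [if_pos ⟨hi, Or.inl h1⟩, if_pos h1, if_neg hi, if_pos (h1.trans c0')]
        norm_num
      · by_cases h2 : ((i : ℕ) : ℝ) / n < x 0
        · rw [if_neg (fun h => h.2.elim h1 (not_le.2 h2)), if_neg h1, if_neg hi, if_pos h2]
          norm_num
        · rw [if_pos ⟨hi, Or.inr (not_lt.1 h2)⟩, if_neg h1, if_neg hi, if_neg h2]
          norm_num
  have f1 := F_bounds n hn (x 0) (by linarith) x0'
  have f2 := F_bounds n hn (x 1) (by linarith) (by linarith)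
  have f3 := F_bounds n hn (y 0) (by linarith) (by linarith)
  have f4 := F_bounds n hn (y 1) (by linarith) y1'
  have hab : (∑ i : Fin n, ∑ j : Fin n, if ∀ l : Fin 2,
      (x l ≤ y l ∧ x l ≤ pt n k (i, j) l ∧ pt n k (i, j) l < y l) ∨
        (y l < x l ∧ (pt n k (i, j) l < y l ∨ x l ≤ pt n k (i, j) l)) then (1 : ℝ) else 0) =
      a * b := by
    rw [ha, hb, Finset.sum_mul_sum]
    refine Finset.sum_congr rfl fun i _ => Finset.sum_congr rfl fun j _ => ?_
    rw [ite_zero_mul_ite_zero, one_mul]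
    by_cases hi : (i : ℕ) < k
    · rw [if_neg, if_neg (fun h => h.1.1 hi)]
      intro h
      have := h 1
      simp only [pt, if_pos hi, Pi.zero_apply] at this
      rcases this with h | h
      · linarith [h.2.1]
      · exact c1' h.1
    · simp only [pt, if_neg hi, Fin.forall_fin_two, Matrix.cons_val_zero, Matrix.cons_val_one,
        c0, c0', c1, c1', hi, true_and, false_and, false_or, or_false, not_false_eq_true, if_false]
  rw [hab]
  refine le_trans ?_ (neg_le_abs _)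
  have h1 : a ≤ n * (1 - x 0 + y 0) + 1 - k := by nlinarith [f1.1, f3.2]
  have h2 : b ≤ n * (y 1 - x 1) + 1 := by nlinarith [f2.1, f4.2]
  have h3 : a * b ≤ (n * (1 - x 0 + y 0) + 1 - k) * (n * (y 1 - x 1) + 1) := by
    calc a * b ≤ a * (n * (y 1 - x 1) + 1) := by gcongr
      _ ≤ _ := by
        have : 0 ≤ n * (y 1 - x 1) + 1 := by nlinarith
        gcongr
  have h4 : ((k : ℝ) - 1) * (n / 2) ≤ (k - 1) * (n * (y 1 - x 1) + 1) := by
    have : (n : ℝ) / 2 ≤ n * (y 1 - x 1) + 1 := by nlinarith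
    have : (0 : ℝ) ≤ k - 1 := by linarith
    gcongr
  have h5 : (n : ℝ) * (1 - x 0 + y 0) ≤ n := by nlinarith
  push_cast
  nlinarith

abbrev I2 : Set (Fin 2 → ℝ) := Set.Icc 0 1

theorem vol_I2 : volume I2 = 1 := by
  rw [Real.volume_Icc_pi]
  simp

instance : IsFiniteMeasure (volume.restrict I2) := by
  refine ⟨?_⟩
  rw [Measure.restrict_apply_univ, vol_I2]
  simp

theorem upper (f : (Fin 2 → ℝ) → (Fin 2 → ℝ) → ℝ) (g : (Fin 2 → ℝ) → ℝ)
    (h0 : ∀ x y, 0 ≤ f x y) (hle : ∀ x ∈ I2, ∀ y ∈ I2, f x y ≤ g x) (hg : IntegrableOn g I2) :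
    ∫ x in I2, ∫ y in I2, f x y ≤ ∫ x in I2, g x := by
  refine integral_mono_of_nonneg (Filter.Eventually.of_forall fun x => integral_nonneg (h0 x)) hg ?_
  refine (ae_restrict_iff' measurableSet_Icc).2 (Filter.Eventually.of_forall fun x hx => ?_)
  have : ∫ y in I2, f x y ≤ ∫ y in I2, g x := by
    refine integral_mono_of_nonneg (Filter.Eventually.of_forall (h0 x)) (integrable_const _) ?_
    exact (ae_restrict_iff' measurableSet_Icc).2 (Filter.Eventually.of_forall fun y hy =>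
      hle x hx y hy)
  simpa [Measure.real, vol_I2] using this

theorem lower1 (f : (Fin 2 → ℝ) → ℝ) (hf : IntegrableOn f I2) (h0 : ∀ x, 0 ≤ f x)
    (A : Set (Fin 2 → ℝ)) (hA : MeasurableSet A) (hAI : A ⊆ I2) (c : ℝ)
    (hc : ∀ x ∈ A, c ≤ f x) : c * volume.real A ≤ ∫ x in I2, f x := by
  have h1 : ∫ x in A, f x ≤ ∫ x in I2, f x :=
    setIntegral_mono_set hf (Filter.Eventually.of_forall h0) hAI.eventuallyLE
  refine le_trans ?_ h1
  refine setIntegral_ge_of_const_le_real hA ?_ hc (hf.mono_set hAI)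
  exact ((measure_mono hAI).trans_lt (by rw [vol_I2]; simp)).ne

theorem lower (f : (Fin 2 → ℝ) → (Fin 2 → ℝ) → ℝ) (hf : Measurable (Function.uncurry f))
    (h0 : ∀ x y, 0 ≤ f x y) (M : ℝ) (hM : ∀ x ∈ I2, ∀ y ∈ I2, f x y ≤ M)
    (A B : Set (Fin 2 → ℝ)) (hA : MeasurableSet A) (hAI : A ⊆ I2) (hB : MeasurableSet B)
    (hBI : B ⊆ I2) (c : ℝ) (hc : ∀ x ∈ A, ∀ y ∈ B, c ≤ f x y) :
    c * volume.real B * volume.real A ≤ ∫ x in I2, ∫ y in I2, f x y := by
  have hint : ∀ x ∈ I2, IntegrableOn (f x) I2 := by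
    intro x hx
    refine Integrable.of_bound (hf.of_uncurry_left).aestronglyMeasurable M ?_
    exact (ae_restrict_iff' measurableSet_Icc).2 (Filter.Eventually.of_forall fun y hy => by
      rw [Real.norm_eq_abs, abs_of_nonneg (h0 x y)]; exact hM x hx y hy)
  refine lower1 _ ?_ (fun x => integral_nonneg (h0 x)) A hA hAI _ ?_
  · refine Integrable.of_bound
      (hf.stronglyMeasurable.integral_prod_right (ν := volume.restrict I2)).aestronglyMeasurable M ?_
    refine (ae_restrict_iff' measurableSet_Icc).2 (Filter.Eventually.of_forall fun x hx => ?_)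
    rw [Real.norm_eq_abs, abs_of_nonneg (integral_nonneg (h0 x))]
    have : ∫ y in I2, f x y ≤ ∫ y in I2, M := by
      refine integral_mono_of_nonneg (Filter.Eventually.of_forall (h0 x)) (integrable_const _) ?_
      exact (ae_restrict_iff' measurableSet_Icc).2 (Filter.Eventually.of_forall fun y hy =>
        hM x hx y hy)
    simpa [Measure.real, vol_I2] using this
  · intro x hx
    exact lower1 _ (hint x (hAI hx)) (h0 x) B hB hBI c (hc x hx)

theorem per_meas (N : ℕ) (P : Fin N → Fin 2 → ℝ) :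
    Measurable (Function.uncurry fun x y : Fin 2 → ℝ =>
      |((Finset.univ.filter (fun i : Fin N => ∀ j : Fin 2,
              (x j ≤ y j ∧ x j ≤ P i j ∧ P i j < y j) ∨
              (y j < x j ∧ (P i j < y j ∨ x j ≤ P i j)))).card : ℝ)
            - (N : ℝ) * ∏ j : Fin 2, (if x j ≤ y j then y j - x j else 1 - x j + y j)|) := by
  have hx : ∀ j : Fin 2, Measurable (fun z : (Fin 2 → ℝ) × (Fin 2 → ℝ) => z.1 j) := fun j => by
    fun_prop
  have hy : ∀ j : Fin 2, Measurable (fun z : (Fin 2 → ℝ) × (Fin 2 → ℝ) => z.2 j) := fun j => by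
    fun_prop
  unfold Function.uncurry
  simp only [← Finset.sum_boole]
  refine continuous_abs.measurable.comp (Measurable.sub ?_ (Measurable.const_mul ?_ _))
  · refine Finset.measurable_sum _ fun i _ => Measurable.ite ?_ measurable_const measurable_const
    rw [Set.setOf_forall]
    refine MeasurableSet.iInter fun j => ?_
    exact ((measurableSet_le (hx j) (hy j)).inter ((measurableSet_le (hx j) measurable_const).inter
      (measurableSet_lt measurable_const (hy j)))).union ((measurableSet_lt (hy j) (hx j)).inter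
      ((measurableSet_lt measurable_const (hy j)).union (measurableSet_le (hx j) measurable_const)))
  · refine Finset.measurable_prod _ fun j _ => Measurable.ite (measurableSet_le (hx j) (hy j)) ?_ ?_
    · exact (hy j).sub (hx j)
    · exact (measurable_const.sub (hx j)).add (hy j)

theorem per_le (N : ℕ) (P : Fin N → Fin 2 → ℝ) (x y : Fin 2 → ℝ) (hx : x ∈ I2) (hy : y ∈ I2) :
      |((Finset.univ.filter (fun i : Fin N => ∀ j : Fin 2,
              (x j ≤ y j ∧ x j ≤ P i j ∧ P i j < y j) ∨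
              (y j < x j ∧ (P i j < y j ∨ x j ≤ P i j)))).card : ℝ)
            - (N : ℝ) * ∏ j : Fin 2, (if x j ≤ y j then y j - x j else 1 - x j + y j)| ≤ N := by
  have h1 : ((Finset.univ.filter (fun i : Fin N => ∀ j : Fin 2,
              (x j ≤ y j ∧ x j ≤ P i j ∧ P i j < y j) ∨
              (y j < x j ∧ (P i j < y j ∨ x j ≤ P i j)))).card : ℝ) ≤ N := by
    have := Finset.card_filter_le (Finset.univ : Finset (Fin N)) (fun i : Fin N => ∀ j : Fin 2,
              (x j ≤ y j ∧ x j ≤ P i j ∧ P i j < y j) ∨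
              (y j < x j ∧ (P i j < y j ∨ x j ≤ P i j)))
    rw [Finset.card_univ, Fintype.card_fin] at this
    exact_mod_cast this
  have h2 : ∀ j : Fin 2, 0 ≤ (if x j ≤ y j then y j - x j else 1 - x j + y j) ∧
      (if x j ≤ y j then y j - x j else 1 - x j + y j) ≤ 1 := by
    intro j
    have a1 : (0 : ℝ) ≤ x j := hx.1 j
    have a2 : x j ≤ (1 : ℝ) := hx.2 j
    have a3 : (0 : ℝ) ≤ y j := hy.1 j
    have a4 : y j ≤ (1 : ℝ) := hy.2 j
    split_ifs with h
    · constructor <;> linarith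
    · push Not at h
      constructor <;> linarith
  have h3 : 0 ≤ ∏ j : Fin 2, (if x j ≤ y j then y j - x j else 1 - x j + y j) :=
    Finset.prod_nonneg fun j _ => (h2 j).1
  have h4 : ∏ j : Fin 2, (if x j ≤ y j then y j - x j else 1 - x j + y j) ≤ 1 :=
    Finset.prod_le_one (fun j _ => (h2 j).1) (fun j _ => (h2 j).2)
  have hN : (0 : ℝ) ≤ N := Nat.cast_nonneg N
  have h5 : (0 : ℝ) ≤ ((Finset.univ.filter (fun i : Fin N => ∀ j : Fin 2,
              (x j ≤ y j ∧ x j ≤ P i j ∧ P i j < y j) ∨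
              (y j < x j ∧ (P i j < y j ∨ x j ≤ P i j)))).card : ℝ) := Nat.cast_nonneg _
  rw [abs_le]
  constructor <;> nlinarith

theorem g_int (n k : ℕ) (hn : 0 < n) :
    IntegrableOn (fun x : Fin 2 → ℝ => 2 * (n : ℝ) +
      if x 0 ≤ (k : ℝ) / n then 2 * (k : ℝ) * n else 0) I2 ∧
    ∫ x in I2, (2 * (n : ℝ) + if x 0 ≤ (k : ℝ) / n then 2 * (k : ℝ) * n else 0) ≤
      2 * n + 2 * k * k := by
  have hn' : (0 : ℝ) < n := by exact_mod_cast hn
  have hS : MeasurableSet {x : Fin 2 → ℝ | x 0 ≤ (k : ℝ) / n} :=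
    measurableSet_le (measurable_pi_apply 0) measurable_const
  have e : (fun x : Fin 2 → ℝ => if x 0 ≤ (k : ℝ) / n then 2 * (k : ℝ) * n else 0) =
      Set.indicator {x : Fin 2 → ℝ | x 0 ≤ (k : ℝ) / n} (fun _ => 2 * (k : ℝ) * n) := by
    ext x
    simp [Set.indicator]
  have hi : Integrable (fun x : Fin 2 → ℝ => if x 0 ≤ (k : ℝ) / n then 2 * (k : ℝ) * n else 0)
      (volume.restrict I2) := by
    rw [e]
    exact (integrable_const _).indicator hS
  refine ⟨(integrable_const _).add hi, ?_⟩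
  rw [integral_add (integrable_const _) hi, e, integral_indicator_const _ hS]
  have h1 : (volume.restrict I2).real {x : Fin 2 → ℝ | x 0 ≤ (k : ℝ) / n} ≤ k / n := by
    rw [Measure.real, Measure.restrict_apply hS]
    have hsub : {x : Fin 2 → ℝ | x 0 ≤ (k : ℝ) / n} ∩ I2 ⊆ Set.Icc 0 ![(k : ℝ) / n, 1] := by
      rintro x ⟨h1, h2⟩
      refine ⟨h2.1, ?_⟩
      intro j
      fin_cases j
      · simpa using h1
      · simpa using h2.2 1
    refine ENNReal.toReal_le_of_le_ofReal (by positivity) ((measure_mono hsub).trans ?_)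
    rw [Real.volume_Icc_pi]
    simp
  have h2 : ∫ x in I2, 2 * (n : ℝ) = 2 * n := by simp [Measure.real, vol_I2]
  rw [h2, smul_eq_mul]
  have : (volume.restrict I2).real {x : Fin 2 → ℝ | x 0 ≤ (k : ℝ) / n} * (2 * k * n) ≤
      k / n * (2 * k * n) := by gcongr
  have e2 : (k : ℝ) / n * (2 * k * n) = 2 * k * k := by field_simp
  linarith

theorem PP_mem (n k : ℕ) (i : Fin (n * n)) (j : Fin 2) : 0 ≤ PP n k i j ∧ PP n k i j < 1 := by
  have key : ∀ a : Fin n, 0 ≤ ((a : ℕ) : ℝ) / n ∧ ((a : ℕ) : ℝ) / n < 1 := by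
    intro a
    have h : ((a : ℕ) : ℝ) < n := by exact_mod_cast a.2
    have hn : (0 : ℝ) < n := lt_of_le_of_lt (Nat.cast_nonneg _) h
    exact ⟨by positivity, (div_lt_one hn).2 h⟩
  unfold PP pt
  split_ifs
  · simp
  · fin_cases j
    · exact key _
    · exact key _

theorem result :
    ¬ (∀ (d : ℕ), 1 ≤ d → ∀ (p : ℝ), 1 ≤ p → ∃ C : ℝ, 0 < C ∧
      ∀ (N : ℕ), 1 ≤ N → ∀ P : Fin N → Fin d → ℝ, (∀ i j, 0 ≤ P i j ∧ P i j < 1) →
        (∫ x in Set.Icc (0 : Fin d → ℝ) 1, ∫ y in Set.Icc (0 : Fin d → ℝ) 1,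
          |((Finset.univ.filter (fun i : Fin N => ∀ j : Fin d,
              (x j ≤ y j ∧ x j ≤ P i j ∧ P i j < y j) ∨
              (y j < x j ∧ (P i j < y j ∨ x j ≤ P i j)))).card : ℝ)
            - (N : ℝ) * ∏ j : Fin d, (if x j ≤ y j then y j - x j else 1 - x j + y j)| ^ p)
        ≤ C * ∫ x in Set.Icc (0 : Fin d → ℝ) 1, ∫ y in Set.Icc (0 : Fin d → ℝ) 1,
          (if x ≤ y then
            |((Finset.univ.filter (fun i : Fin N => ∀ j : Fin d,
                x j ≤ P i j ∧ P i j < y j)).card : ℝ)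
              - (N : ℝ) * ∏ j : Fin d, (y j - x j)| ^ p
           else 0)) := by
  intro h
  obtain ⟨C, hC, h⟩ := h 2 (by norm_num) 1 le_rfl
  obtain ⟨k, hk⟩ := exists_nat_gt (4096 * C + 4)
  have hk4 : 4 ≤ k := by
    have : (4 : ℝ) < k := by linarith
    exact_mod_cast this.le
  set n := k * k with hn
  have hn0 : 0 < n := by positivity
  have hkn : 4 * k ≤ n := Nat.mul_le_mul_right k hk4
  have h1 := h (n * n) (Nat.mul_pos hn0 hn0) (PP n k) (PP_mem n k)
  simp only [Real.rpow_one] at h1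
  have hA : Set.Icc (![3 / 4, 1 / 8] : Fin 2 → ℝ) ![1, 1 / 4] ⊆ I2 := by
    apply Set.Icc_subset_Icc <;> intro j <;> fin_cases j <;> simp <;> norm_num
  have hB : Set.Icc (![1 / 4, 3 / 4] : Fin 2 → ℝ) ![1 / 2, 1] ⊆ I2 := by
    apply Set.Icc_subset_Icc <;> intro j <;> fin_cases j <;> simp <;> norm_num
  have hlow := lower _ (per_meas (n * n) (PP n k)) (fun x y => abs_nonneg _) _
    (fun x hx y hy => per_le (n * n) (PP n k) x y hx hy) _ _ measurableSet_Icc hA
    measurableSet_Icc hB _ (fun x hx y hy => per_bound n k hn0 hkn x y hx hy (by omega))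
  have hup := upper (fun x y => if x ≤ y then
            |((Finset.univ.filter (fun i : Fin (n * n) => ∀ j : Fin 2,
                x j ≤ PP n k i j ∧ PP n k i j < y j)).card : ℝ)
              - ((n * n : ℕ) : ℝ) * ∏ j : Fin 2, (y j - x j)| else 0) _
    (fun x y => by split_ifs <;> positivity)
    (fun x hx y hy => by
      by_cases hxy : x ≤ y
      · rw [if_pos hxy]
        exact extr_bound n k hn0 (by omega) (by omega) x y hx hy hxy
      · rw [if_neg hxy]
        split_ifs <;> positivity) (g_int n k hn0).1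
  have vA : volume.real (Set.Icc (![3 / 4, 1 / 8] : Fin 2 → ℝ) ![1, 1 / 4]) = 1 / 32 := by
    rw [Measure.real, Real.volume_Icc_pi_toReal (by intro j; fin_cases j <;> simp <;> norm_num)]
    simp; norm_num
  have vB : volume.real (Set.Icc (![1 / 4, 3 / 4] : Fin 2 → ℝ) ![1 / 2, 1]) = 1 / 16 := by
    rw [Measure.real, Real.volume_Icc_pi_toReal (by intro j; fin_cases j <;> simp <;> norm_num)]
    simp; norm_num
  rw [vA, vB] at hlow
  have h2 := hlow.trans (h1.trans (mul_le_mul_of_nonneg_left (hup.trans (g_int n k hn0).2) hC.le))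
  have hnk : (n : ℝ) = k * k := by rw [hn]; push_cast; ring
  have hn' : (0 : ℝ) < n := by exact_mod_cast hn0
  have h3 : 2 * (n : ℝ) + 2 * k * k = 4 * n := by rw [hnk]; ring
  rw [h3] at h2
  nlinarith

end Pool.Agent.S18406
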