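import Pool.Statements.S18419


set_option autoImplicit false
open Pool Pool.MP_c520af_nt

namespace Pool.Agent.S18419

theorem result :
    ∀ (K : Type) [Field K] [NumberField K],
      ∃ (F : ℕ → Polynomial K) (δ : ℕ → K),
        (∀ d : ℕ, 2 ≤ d → (F d).natDegree = d ∧ δ d ≠ 0) ∧
        ∀ C : ℕ, ∃ D : ℕ, ∀ d : ℕ, 2 ≤ d → D ≤ d →
          (((C * d : ℕ) : ℕ∞) <
            {P : K × K | ∃ n : ℕ, 1 ≤ n ∧
              (fun p : K × K => (p.2, (F d).eval p.2 - δ d * p.1))^[n] P = P}.encard) := by
  intro K _ _
  classical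
  let s : ℕ → ℕ → K := fun d i => 2 * (i : K) - ((d : K) - 1)
  have hinj : ∀ d i j, s d i = s d j → i = j := by
    intro d i j h
    simp only [s] at h
    have h2 : (2 : K) * (i : K) = 2 * (j : K) := by linear_combination h
    have h3 : (i : K) = (j : K) := mul_left_cancel₀ two_ne_zero h2
    exact_mod_cast h3
  have hneg : ∀ d i, i < d → - s d i = s d (d - 1 - i) := by
    intro d i hi
    simp only [s]
    have h1 : ((d - 1 - i : ℕ) : K) = (d : K) - 1 - i := by
      rw [Nat.cast_sub (by omega), Nat.cast_sub (by omega)]; simp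
    rw [h1]; ring
  refine ⟨fun d => ∏ i ∈ Finset.range d, (Polynomial.X - Polynomial.C (s d i)), fun _ => 1, ?_, ?_⟩
  · intro d _
    refine ⟨?_, one_ne_zero⟩
    rw [Polynomial.natDegree_prod_of_monic _ _ (fun i _ => Polynomial.monic_X_sub_C _)]
    simp
  · intro C
    refine ⟨C + 1, fun d h2 hd => ?_⟩
    set f : K × K → K × K := fun p : K × K =>
      (p.2, (∏ i ∈ Finset.range d, (Polynomial.X - Polynomial.C (s d i))).eval p.2 - 1 * p.1) with hf
    have hstep : ∀ i j, i < d → j < d → f (s d i, s d j) = (s d j, s d (d - 1 - i)) := by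
      intro i j hi hj
      simp only [hf, Polynomial.eval_prod, Polynomial.eval_sub, Polynomial.eval_X, Polynomial.eval_C]
      rw [Finset.prod_eq_zero (Finset.mem_range.2 hj) (sub_self _), ← hneg d i hi]
      simp
    let T : Finset (K × K) := ((Finset.range d) ×ˢ (Finset.range d)).image (fun p => (s d p.1, s d p.2))
    have hT : T.card = d * d := by
      rw [Finset.card_image_of_injOn]
      · simp
      · intro p _ q _ h
        simp only [Prod.mk.injEq] at h
        exact Prod.ext (hinj d _ _ h.1) (hinj d _ _ h.2)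
    have hsub : (T : Set (K × K)) ⊆ {P : K × K | ∃ n : ℕ, 1 ≤ n ∧ f^[n] P = P} := by
      intro P hP
      simp only [T, Finset.coe_image, Set.mem_image, Finset.mem_coe, Finset.mem_product,
        Finset.mem_range] at hP
      obtain ⟨⟨i, j⟩, ⟨hi, hj⟩, rfl⟩ := hP
      refine ⟨4, by norm_num, ?_⟩
      simp only at hi hj
      show f (f (f (f (s d i, s d j)))) = (s d i, s d j)
      rw [hstep i j hi hj, hstep j _ hj (by omega), hstep _ _ (by omega) (by omega),
        hstep _ _ (by omega) (by omega)]
      congr 2 <;> omega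
    have h1 := Set.encard_le_encard hsub
    rw [Set.encard_coe_eq_coe_finsetCard, hT] at h1
    refine lt_of_lt_of_le ?_ h1
    have : C * d < d * d := Nat.mul_lt_mul_of_pos_right (by omega) (by omega)
    exact_mod_cast this

end Pool.Agent.S18419
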