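import Pool.Statements.S18519
-- import your own Pool.Agent.* helpers here

set_option autoImplicit false
open Pool Pool.MP_cd51d2_nt

namespace Pool.Agent.S18519

structure Good (P : ℤ → ℤ) : Prop where
  dvd : ∀ x, P x ∣ x ^ 120 - 1
  cong : ∀ x, x * (x - 1) ∣ P x - 1
  fac : ∀ y, P y ∣ P (y ^ 7)
  lo : ∀ x, 2 ≤ x → x ^ 7 ≤ P x
  hi : ∀ x, 2 ≤ x → P x ≤ 2 * x ^ 8

def P15 (x : ℤ) : ℤ := (1) * x ^ 0 + (-1) * x ^ 1 + (1) * x ^ 3 + (-1) * x ^ 4 + (1) * x ^ 5 + (-1) * x ^ 7 + (1) * x ^ 8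

lemma good15 : Good P15 where
  dvd x := Dvd.dvd.trans (⟨(-1) * x ^ 0 + (-1) * x ^ 1 + (-1) * x ^ 2 + (1) * x ^ 5 + (1) * x ^ 6 + (1) * x ^ 7, by unfold P15; ring⟩ : P15 x ∣ x ^ 15 - 1)
    (by have h := sub_dvd_pow_sub_pow (x ^ 15) 1 8; rwa [one_pow, ← pow_mul] at h)
  cong x := ⟨(1) * x ^ 0 + (1) * x ^ 1 + (1) * x ^ 3 + (1) * x ^ 6, by unfold P15; ring⟩
  fac y := ⟨(1) * y ^ 0 + (1) * y ^ 1 + (1) * y ^ 2 + (-1) * y ^ 5 + (-1) * y ^ 6 + (-2) * y ^ 7 + (-1) * y ^ 8 + (-1) * y ^ 9 + (1) * y ^ 12 + (1) * y ^ 13 + (1) * y ^ 14 + (1) * y ^ 15 + (1) * y ^ 16 + (1) * y ^ 17 + (-1) * y ^ 20 + (-1) * y ^ 22 + (-1) * y ^ 24 + (-1) * y ^ 26 + (-1) * y ^ 28 + (1) * y ^ 31 + (1) * y ^ 32 + (1) * y ^ 33 + (1) * y ^ 34 + (1) * y ^ 35 + (1) * y ^ 36 + (-1) * y ^ 39 + (-1) * y ^ 40 + (-2) * y ^ 41 + (-1) * y ^ 42 + (-1)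 * y ^ 43 + (1) * y ^ 46 + (1) * y ^ 47 + (1) * y ^ 48, by unfold P15; ring⟩
  lo x hx := by
    obtain ⟨t, ht, rfl⟩ : ∃ t, 0 ≤ t ∧ x = t + 2 := ⟨x - 2, by omega, by ring⟩
    have h : 0 ≤ 23 * t ^ 0 + 187 * t ^ 1 + 510 * t ^ 2 + 705 * t ^ 3 + 569 * t ^ 4 + 281 * t ^ 5 + 84 * t ^ 6 + 14 * t ^ 7 + 1 * t ^ 8 := by positivity
    unfold P15; linarith [h, (by ring : (1) * (t + 2) ^ 0 + (-1) * (t + 2) ^ 1 + (1) * (t + 2) ^ 3 + (-1) * (t + 2) ^ 4 + (1) * (t + 2) ^ 5 + (-1) * (t + 2) ^ 7 + (1) * (t + 2) ^ 8 - (t + 2) ^ 7 = 23 * t ^ 0 + 187 * t ^ 1 + 510 * t ^ 2 + 705 * t ^ 3 + 569 * t ^ 4 + 281 * t ^ 5 + 84 * t ^ 6 + 14 * t ^ 7 + 1 * t ^ 8)]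
  hi x hx := by
    obtain ⟨t, ht, rfl⟩ : ∃ t, 0 ≤ t ∧ x = t + 2 := ⟨x - 2, by omega, by ring⟩
    have h : 0 ≤ 361 * t ^ 0 + 1413 * t ^ 1 + 2402 * t ^ 2 + 2319 * t ^ 3 + 1391 * t ^ 4 + 531 * t ^ 5 + 126 * t ^ 6 + 17 * t ^ 7 + 1 * t ^ 8 := by positivity
    unfold P15; linarith [h, (by ring : 2 * (t + 2) ^ 8 - ((1) * (t + 2) ^ 0 + (-1) * (t + 2) ^ 1 + (1) * (t + 2) ^ 3 + (-1) * (t + 2) ^ 4 + (1) * (t + 2) ^ 5 + (-1) * (t + 2) ^ 7 + (1) * (t + 2) ^ 8) = 361 * t ^ 0 + 1413 * t ^ 1 + 2402 * t ^ 2 + 2319 * t ^ 3 + 1391 * t ^ 4 + 531 * t ^ 5 + 126 * t ^ 6 + 17 * t ^ 7 + 1 * t ^ 8)]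

def P24 (x : ℤ) : ℤ := (1) * x ^ 0 + (-1) * x ^ 4 + (1) * x ^ 8

lemma good24 : Good P24 where
  dvd x := Dvd.dvd.trans (⟨(-1) * x ^ 0 + (-1) * x ^ 4 + (1) * x ^ 12 + (1) * x ^ 16, by unfold P24; ring⟩ : P24 x ∣ x ^ 24 - 1)
    (by have h := sub_dvd_pow_sub_pow (x ^ 24) 1 5; rwa [one_pow, ← pow_mul] at h)
  cong x := ⟨(1) * x ^ 3 + (1) * x ^ 4 + (1) * x ^ 5 + (1) * x ^ 6, by unfold P24; ring⟩
  fac y := ⟨(1) * y ^ 0 + (1) * y ^ 4 + (-1) * y ^ 12 + (-1) * y ^ 16 + (1) * y ^ 24 + (-1) * y ^ 32 + (-1) * y ^ 36 + (1) * y ^ 44 + (1) * y ^ 48, by unfold P24; ring⟩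
  lo x hx := by
    obtain ⟨t, ht, rfl⟩ : ∃ t, 0 ≤ t ∧ x = t + 2 := ⟨x - 2, by omega, by ring⟩
    have h : 0 ≤ 113 * t ^ 0 + 544 * t ^ 1 + 1096 * t ^ 2 + 1224 * t ^ 3 + 839 * t ^ 4 + 364 * t ^ 5 + 98 * t ^ 6 + 15 * t ^ 7 + 1 * t ^ 8 := by positivity
    unfold P24; linarith [h, (by ring : (1) * (t + 2) ^ 0 + (-1) * (t + 2) ^ 4 + (1) * (t + 2) ^ 8 - (t + 2) ^ 7 = 113 * t ^ 0 + 544 * t ^ 1 + 1096 * t ^ 2 + 1224 * t ^ 3 + 839 * t ^ 4 + 364 * t ^ 5 + 98 * t ^ 6 + 15 * t ^ 7 + 1 * t ^ 8)]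
  hi x hx := by
    obtain ⟨t, ht, rfl⟩ : ∃ t, 0 ≤ t ∧ x = t + 2 := ⟨x - 2, by omega, by ring⟩
    have h : 0 ≤ 271 * t ^ 0 + 1056 * t ^ 1 + 1816 * t ^ 2 + 1800 * t ^ 3 + 1121 * t ^ 4 + 448 * t ^ 5 + 112 * t ^ 6 + 16 * t ^ 7 + 1 * t ^ 8 := by positivity
    unfold P24; linarith [h, (by ring : 2 * (t + 2) ^ 8 - ((1) * (t + 2) ^ 0 + (-1) * (t + 2) ^ 4 + (1) * (t + 2) ^ 8) = 271 * t ^ 0 + 1056 * t ^ 1 + 1816 * t ^ 2 + 1800 * t ^ 3 + 1121 * t ^ 4 + 448 * t ^ 5 + 112 * t ^ 6 + 16 * t ^ 7 + 1 * t ^ 8)]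

def P30 (x : ℤ) : ℤ := (1) * x ^ 0 + (1) * x ^ 1 + (-1) * x ^ 3 + (-1) * x ^ 4 + (-1) * x ^ 5 + (1) * x ^ 7 + (1) * x ^ 8

lemma good30 : Good P30 where
  dvd x := Dvd.dvd.trans (⟨(-1) * x ^ 0 + (1) * x ^ 1 + (-1) * x ^ 2 + (-1) * x ^ 5 + (1) * x ^ 6 + (-1) * x ^ 7 + (1) * x ^ 15 + (-1) * x ^ 16 + (1) * x ^ 17 + (1) * x ^ 20 + (-1) * x ^ 21 + (1) * x ^ 22, by unfold P30; ring⟩ : P30 x ∣ x ^ 30 - 1)
    (by have h := sub_dvd_pow_sub_pow (x ^ 30) 1 4; rwa [one_pow, ← pow_mul] at h)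
  cong x := ⟨(-1) * x ^ 0 + (-1) * x ^ 1 + (1) * x ^ 3 + (2) * x ^ 4 + (2) * x ^ 5 + (1) * x ^ 6, by unfold P30; ring⟩
  fac y := ⟨(1) * y ^ 0 + (-1) * y ^ 1 + (1) * y ^ 2 + (1) * y ^ 5 + (-1) * y ^ 6 + (2) * y ^ 7 + (-1) * y ^ 8 + (1) * y ^ 9 + (1) * y ^ 12 + (-1) * y ^ 13 + (1) * y ^ 14 + (-1) * y ^ 15 + (1) * y ^ 16 + (-1) * y ^ 17 + (-1) * y ^ 20 + (-1) * y ^ 22 + (-1) * y ^ 24 + (-1) * y ^ 26 + (-1) * y ^ 28 + (-1) * y ^ 31 + (1) * y ^ 32 + (-1) * y ^ 33 + (1) * y ^ 34 + (-1) * y ^ 35 + (1) * y ^ 36 + (1) * y ^ 39 + (-1) * y ^ 40 + (2) * y ^ 41 + (-1) * y ^ 42 + (1) * y ^ 43 + (1) * y ^ 46 + (-1) * y ^ 47 + (1) * y ^ 48, by unfold P30; ring⟩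
  lo x hx := by
    obtain ⟨t, ht, rfl⟩ : ∃ t, 0 ≤ t ∧ x = t + 2 := ⟨x - 2, by omega, by ring⟩
    have h : 0 ≤ 203 * t ^ 0 + 901 * t ^ 1 + 1682 * t ^ 2 + 1743 * t ^ 3 + 1109 * t ^ 4 + 447 * t ^ 5 + 112 * t ^ 6 + 16 * t ^ 7 + 1 * t ^ 8 := by positivity
    unfold P30; linarith [h, (by ring : (1) * (t + 2) ^ 0 + (1) * (t + 2) ^ 1 + (-1) * (t + 2) ^ 3 + (-1) * (t + 2) ^ 4 + (-1) * (t + 2) ^ 5 + (1) * (t + 2) ^ 7 + (1) * (t + 2) ^ 8 - (t + 2) ^ 7 = 203 * t ^ 0 + 901 * t ^ 1 + 1682 * t ^ 2 + 1743 * t ^ 3 + 1109 * t ^ 4 + 447 * t ^ 5 + 112 * t ^ 6 + 16 * t ^ 7 + 1 * t ^ 8)]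
  hi x hx := by
    obtain ⟨t, ht, rfl⟩ : ∃ t, 0 ≤ t ∧ x = t + 2 := ⟨x - 2, by omega, by ring⟩
    have h : 0 ≤ 181 * t ^ 0 + 699 * t ^ 1 + 1230 * t ^ 2 + 1281 * t ^ 3 + 851 * t ^ 4 + 365 * t ^ 5 + 98 * t ^ 6 + 15 * t ^ 7 + 1 * t ^ 8 := by positivity
    unfold P30; linarith [h, (by ring : 2 * (t + 2) ^ 8 - ((1) * (t + 2) ^ 0 + (1) * (t + 2) ^ 1 + (-1) * (t + 2) ^ 3 + (-1) * (t + 2) ^ 4 + (-1) * (t + 2) ^ 5 + (1) * (t + 2) ^ 7 + (1) * (t + 2) ^ 8) = 181 * t ^ 0 + 699 * t ^ 1 + 1230 * t ^ 2 + 1281 * t ^ 3 + 851 * t ^ 4 + 365 * t ^ 5 + 98 * t ^ 6 + 15 * t ^ 7 + 1 * t ^ 8)]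

lemma idem : ∀ z : ZMod 315, z ^ 12 * z ^ 12 = z ^ 12 := by decide +kernel

lemma key_dvd (a : ℤ) (ha : Even a) (j : ℕ) :
    ((120 * (84 * 2 ^ j) : ℕ) : ℤ) ∣ a ^ (84 * 2 ^ j) * (a ^ (84 * 2 ^ j) - 1) := by
  have e : ((120 * (84 * 2 ^ j) : ℕ) : ℤ) = 2 ^ (j + 5) * 315 := by push_cast; ring
  rw [e]
  apply IsCoprime.mul_dvd
  · apply IsCoprime.pow_left
    exact ⟨158, -1, by norm_num⟩
  · apply Dvd.dvd.mul_right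
    obtain ⟨b, rfl⟩ := ha
    have h1 : j + 5 ≤ 84 * 2 ^ j := by
      have := j.lt_two_pow_self
      omega
    exact (pow_dvd_pow 2 h1).trans (pow_dvd_pow_of_dvd ⟨b, by ring⟩ _)
  · have h := (ZMod.intCast_zmod_eq_zero_iff_dvd
      (a ^ (84 * 2 ^ j) * (a ^ (84 * 2 ^ j) - 1)) 315).1 (by
        have h1 : IsIdempotentElem ((a : ZMod 315) ^ 12) := idem a
        have h2 : (a : ZMod 315) ^ (84 * 2 ^ j) = (a : ZMod 315) ^ 12 := by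
          have h3 : 84 * 2 ^ j = 12 * ((7 * 2 ^ j - 1) + 1) := by
            have : 0 < 2 ^ j := by positivity
            omega
          rw [h3, pow_mul, h1.pow_succ_eq]
        push_cast
        rw [h2, mul_sub, idem a]
        simp)
    exact_mod_cast h

lemma two_le_pow {a : ℤ} (ha : 2 ≤ a) {k : ℕ} (hk : k ≠ 0) : 2 ≤ a ^ k :=
  ha.trans (le_self_pow₀ (by omega) hk)

lemma psp {P : ℤ → ℤ} (hP : Good P) (a : ℕ) (h2 : 2 ≤ a) (ha : Even a) (j n : ℕ)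
    (hn : (n : ℤ) = P ((a : ℤ) ^ (84 * 2 ^ j))) : Nat.FermatPsp n a := by
  have ha2 : (2 : ℤ) ≤ a := by exact_mod_cast h2
  have hy : (2 : ℤ) ≤ (a : ℤ) ^ (12 * 2 ^ j) := two_le_pow ha2 (by positivity)
  have hxy : (a : ℤ) ^ (84 * 2 ^ j) = ((a : ℤ) ^ (12 * 2 ^ j)) ^ 7 := by
    rw [← pow_mul]; congr 1; ring
  set y := (a : ℤ) ^ (12 * 2 ^ j) with hydef
  have hy7 : 2 ≤ y ^ 7 := two_le_pow hy (by norm_num)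
  have b1 := hP.lo y hy
  have b2 := hP.hi y hy
  have b3 := hP.lo _ hy7
  have b4 : 2 * y ^ 8 < (y ^ 7) ^ 7 := by
    have c1 : 2 * y ^ 8 ≤ y ^ 9 := by
      have : 0 < y ^ 8 := by positivity
      nlinarith
    have c2 : y ^ 9 < y ^ 49 := pow_lt_pow_right₀ (by omega) (by norm_num)
    calc 2 * y ^ 8 ≤ y ^ 9 := c1
      _ < y ^ 49 := c2
      _ = _ := by ring
  have hn1 : 1 < n := by
    have : (1 : ℤ) < n := by rw [hn, hxy]; omega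
    exact_mod_cast this
  refine ⟨?_, ?_, hn1⟩
  · have d1 : ((120 * (84 * 2 ^ j) : ℕ) : ℤ) ∣ ((n - 1 : ℕ) : ℤ) := by
      rw [Nat.cast_sub hn1.le, hn]
      exact (key_dvd a (by exact_mod_cast ha) j).trans (hP.cong _)
    obtain ⟨t, ht⟩ := Int.natCast_dvd_natCast.1 d1
    have d2 : (n : ℤ) ∣ (a : ℤ) ^ (n - 1) - 1 := by
      rw [ht, hn]
      refine (hP.dvd _).trans ?_
      have := sub_dvd_pow_sub_pow ((((a : ℤ) ^ (84 * 2 ^ j))) ^ 120) 1 t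
      rw [one_pow, ← pow_mul, ← pow_mul] at this
      rw [← pow_mul]
      convert this using 3
      ring
    unfold Nat.ProbablePrime
    apply Int.natCast_dvd_natCast.1
    rw [Nat.cast_sub (Nat.one_le_pow _ _ (by omega))]
    exact_mod_cast d2
  · intro hp
    have d1 : (P y).natAbs ∣ n := by
      have := hP.fac y
      rw [← hxy, ← hn] at this
      exact Int.natAbs_dvd_natAbs.2 this
    rw [hxy] at hn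
    rcases (Nat.dvd_prime hp).1 d1 with h | h <;> omega

/-- For every even natural base a ≥ 2, there are infinitely many pairs (n, d) with d > 0 such that n, n+d and n+2d are all Fermat pseudoprimes to base a. -/
theorem result :
    ∀ a : ℕ, 2 ≤ a → Even a →
      Set.Infinite {p : ℕ × ℕ | 0 < p.2 ∧ Nat.FermatPsp p.1 a ∧
        Nat.FermatPsp (p.1 + p.2) a ∧ Nat.FermatPsp (p.1 + 2 * p.2) a} := by
  intro a h2 ha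
  have ha2 : (2 : ℤ) ≤ a := by exact_mod_cast h2
  have hx : ∀ j : ℕ, (2 : ℤ) ≤ (a : ℤ) ^ (84 * 2 ^ j) := fun j => two_le_pow ha2 (by positivity)
  have hd : ∀ x : ℤ, 2 ≤ x → 0 < P24 x - P15 x := by
    intro x hx
    obtain ⟨t, ht, rfl⟩ : ∃ t, 0 ≤ t ∧ x = t + 2 := ⟨x - 2, by omega, by ring⟩
    have e : P24 (t + 2) - P15 (t + 2) = (t + 2) * ((t + 2) ^ 2 * ((t + 2) ^ 2 *
      (t ^ 2 + 4 * t + 2) + (t ^ 2 + 4 * t + 3)) + 1) := by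
      unfold P24 P15; ring
    rw [e]; positivity
  have hs : ∀ x : ℤ, P30 x = P15 x + 2 * (P24 x - P15 x) := by
    intro x; unfold P30 P24 P15; ring
  apply Set.Infinite.of_image Prod.fst
  apply Set.infinite_of_forall_exists_gt
  intro j
  have hxj := hx j
  set x := (a : ℤ) ^ (84 * 2 ^ j) with hxdef
  have l1 := good15.lo x hxj
  have l2 := hd x hxj
  have l3 : x ≤ x ^ 7 := le_self_pow₀ (by omega) (by norm_num)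
  have l4 : (j : ℤ) < x := by
    have c1 : j < 2 ^ (84 * 2 ^ j) := by
      have := j.lt_two_pow_self
      have := (84 * 2 ^ j).lt_two_pow_self
      omega
    have c2 : 2 ^ (84 * 2 ^ j) ≤ a ^ (84 * 2 ^ j) := Nat.pow_le_pow_left h2 _
    rw [hxdef]
    exact_mod_cast c1.trans_le c2
  refine ⟨(P15 x).toNat, ⟨((P15 x).toNat, (P24 x - P15 x).toNat), ⟨?_, ?_, ?_, ?_⟩, rfl⟩, ?_⟩
  · show 0 < (P24 x - P15 x).toNat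
    omega
  · exact psp good15 a h2 ha j _ (by show (((P15 x).toNat : ℕ) : ℤ) = P15 x; omega)
  · exact psp good24 a h2 ha j _ (by
      show (((P15 x).toNat + (P24 x - P15 x).toNat : ℕ) : ℤ) = P24 x; omega)
  · exact psp good30 a h2 ha j _ (by
      show (((P15 x).toNat + 2 * (P24 x - P15 x).toNat : ℕ) : ℤ) = P30 x
      rw [hs]; omega)
  · omega

end Pool.Agent.S18519
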