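import Pool.Statements.S18664

set_option autoImplicit false
open Pool Pool.MP_daf011_nt

namespace Pool.Agent.S18664

open Polynomial in
/-- `q X^3 + q X - 1` -/
noncomputable def P (q : ℕ) : Polynomial ℤ := C (q : ℤ) * X ^ 3 + C (q : ℤ) * X - 1

open Polynomial in
lemma P_natDegree (q : ℕ) (hq : 0 < q) : (P q).natDegree = 3 := by
  unfold P
  compute_degree!
  omega

open Polynomial in
lemma P_lead (q : ℕ) (hq : 0 < q) : (P q).leadingCoeff = q := by
  rw [leadingCoeff, P_natDegree q hq]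
  unfold P
  rw [coeff_sub, coeff_add, coeff_C_mul, coeff_C_mul, coeff_X_pow, coeff_X, coeff_one]
  simp

lemma P_eval (q : ℕ) (z : ℂ) : Polynomial.aeval z (P q) = q * z ^ 3 + q * z - 1 := by
  simp [P]

lemma exists_rho (q : ℕ) (hq : 0 < q) :
    ∃ r : ℝ, 0 < r ∧ r ≤ 1 / q ∧ (q : ℝ) * (r * (1 + r ^ 2)) = 1 := by
  have hq' : (0 : ℝ) < q := by exact_mod_cast hq
  have hc : ContinuousOn (fun r : ℝ => (q : ℝ) * (r * (1 + r ^ 2))) (Set.Icc 0 (1 / q)) := by
    fun_prop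
  have h1 : (1 : ℝ) ∈ Set.Icc ((q : ℝ) * (0 * (1 + 0 ^ 2))) ((q : ℝ) * (1 / q * (1 + (1 / q) ^ 2))) := by
    constructor
    · simp
    · have : (q : ℝ) * (1 / q * (1 + (1 / q) ^ 2)) = 1 + (1 / q) ^ 2 := by field_simp
      rw [this]
      nlinarith [sq_nonneg (1 / (q : ℝ))]
  obtain ⟨r, hr, h⟩ := intermediate_value_Icc (by positivity) hc h1
  refine ⟨r, lt_of_le_of_ne hr.1 ?_, hr.2, h⟩
  rintro rfl
  simp at h

lemma factor (q : ℕ) (r : ℝ) (h : (q : ℝ) * (r * (1 + r ^ 2)) = 1) (z : ℂ) :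
    (q : ℂ) * z ^ 3 + q * z - 1 = q * ((z - r) * (z ^ 2 + r * z + (1 + r ^ 2))) := by
  have h' : (q : ℂ) * (r * (1 + r ^ 2)) = 1 := by exact_mod_cast h
  linear_combination h'

lemma norm_quad (r : ℝ) (z : ℂ) (h : z ^ 2 + r * z + (1 + r ^ 2) = 0) : ‖z‖ ^ 2 = 1 + r ^ 2 := by
  have h1 := congrArg Complex.re h
  have h2 := congrArg Complex.im h
  simp [pow_two] at h1 h2
  rw [Complex.sq_norm, Complex.normSq_apply]
  have hy : z.im ≠ 0 := by
    intro hy
    rw [hy] at h1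
    nlinarith [sq_nonneg (z.re + r / 2), sq_nonneg r]
  have hx : z.re = -r / 2 := by
    have : z.im * (2 * z.re + r) = 0 := by linarith
    rcases mul_eq_zero.1 this with h3 | h3
    · exact absurd h3 hy
    · linarith
  rw [hx] at h1 ⊢
  linarith

/-- The negation of the preceding statement: There is c>0 such that every integer polynomial of degree n≥1 with leading coefficient q that has a complex root of modulus >1 also has a complex root of modulus >1+c/(∣q∣n). -/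
theorem result :
    ¬ (∃ c : ℝ, 0 < c ∧
      ∀ P : Polynomial ℤ, 0 < P.natDegree →
        (∃ z : ℂ, Polynomial.aeval z P = 0 ∧ 1 < ‖z‖) →
        ∃ z : ℂ, Polynomial.aeval z P = 0 ∧
          1 + c / (|((P.leadingCoeff : ℤ) : ℝ)| * (P.natDegree : ℝ)) < ‖z‖) := by
  rintro ⟨c, hc, h⟩
  obtain ⟨q, hq⟩ := exists_nat_gt (3 / c + 1)
  have h3 : 0 < 3 / c := by positivity
  have hq1 : (1 : ℝ) < q := by linarith
  have hq0 : 0 < q := by exact_mod_cast (by linarith : (0 : ℝ) < q)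
  obtain ⟨r, hr0, hr1, hr⟩ := exists_rho q hq0
  have hex : ∃ z : ℂ, z ^ 2 + r * z + (1 + r ^ 2) = 0 := by
    refine ⟨-r / 2 + (Real.sqrt (1 + 3 * r ^ 2 / 4) : ℝ) * Complex.I, ?_⟩
    have hs : ((Real.sqrt (1 + 3 * r ^ 2 / 4) : ℝ) : ℂ) ^ 2 = 1 + 3 * r ^ 2 / 4 := by
      have := Real.sq_sqrt (show (0 : ℝ) ≤ 1 + 3 * r ^ 2 / 4 by positivity)
      exact_mod_cast this
    linear_combination (-1 : ℂ) * hs +
      ((Real.sqrt (1 + 3 * r ^ 2 / 4) : ℝ) : ℂ) ^ 2 * Complex.I_sq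
  obtain ⟨z₀, hz₀⟩ := hex
  obtain ⟨z, hz, hn⟩ := h (P q) (by rw [P_natDegree q hq0]; norm_num)
    ⟨z₀, by rw [P_eval, factor q r hr, hz₀]; simp, by
      have := norm_quad r z₀ hz₀
      nlinarith [norm_nonneg z₀, sq_pos_of_pos hr0]⟩
  rw [P_lead q hq0, P_natDegree q hq0] at hn
  simp only [Int.cast_natCast, Nat.abs_cast, Nat.cast_ofNat] at hn
  rw [P_eval, factor q r hr] at hz
  have hqc : (q : ℂ) ≠ 0 := by exact_mod_cast hq0.ne'
  have hpos : 0 < c / (q * 3) := by positivity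
  have hinv : 1 / (q : ℝ) < 1 := by rw [div_lt_one (by linarith)]; exact hq1
  rcases mul_eq_zero.1 ((mul_eq_zero.1 hz).resolve_left hqc) with h1 | h1
  · have : z = r := sub_eq_zero.1 h1
    rw [this, Complex.norm_real, Real.norm_eq_abs, abs_of_pos hr0] at hn
    linarith
  · have h2 := norm_quad r z h1
    have h4 : 1 / (q : ℝ) ≤ c / 3 := by
      rw [div_le_div_iff₀ (by linarith) (by norm_num)]
      have : 3 / c * c = 3 := by field_simp
      nlinarith
    have h5 : r ^ 2 ≤ c / (q * 3) := by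
      have e : c / (q * 3) = 1 / (q : ℝ) * (c / 3) := by field_simp
      rw [e]
      nlinarith
    nlinarith

end Pool.Agent.S18664
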