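import Pool.Statements.S18672
import Pool.Agent.H24.Last

set_option autoImplicit false
open Pool Pool.MP_db34dc_nt

namespace Pool.Agent.S18672

/-- The negation of the preceding statement: There is ε > 0 such that for all large n, the number of nondecreasing n-tuples of positive integers whose product equals n times their sum exceeds n^ε. -/
theorem result :
    ¬ (∃ ε : ℝ, 0 < ε ∧ ∃ N : ℕ, ∀ n : ℕ, N ≤ n →
      (n : ℝ) ^ ε <
        ((Set.ncard {x : Fin n → ℕ | Monotone x ∧ (∀ i, 0 < x i) ∧
            (∏ i, x i) = n * ∑ i, x i} : ℕ) : ℝ)) := by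
  exact H24.Last.main

end Pool.Agent.S18672
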