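import Pool.Statements.S18742
import Pool.Agent.H21.Disc

set_option autoImplicit false
open Classical
open Pool Pool.MP_e1a649_nt

namespace Pool.Agent.S18742

open MeasureTheory H21.Disc

noncomputable def pt (n k : ℕ) (q : Fin n × Fin n) : Fin 2 → ℝ :=
  ![((q.1 : ℕ) : ℝ) / n, if (q.1 : ℕ) < n - k then ((q.2 : ℕ) : ℝ) / n else 0]

noncomputable def PP (n k : ℕ) (i : Fin (n * n)) : Fin 2 → ℝ := pt n k (finProdFinEquiv.symm i)

theorem count_eq (n k : ℕ) (c : (Fin 2 → ℝ) → Prop) [DecidablePred fun i => c (PP n k i)]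
    [DecidablePred c] :
    ((Finset.univ.filter (fun i : Fin (n * n) => c (PP n k i))).card : ℝ) =
      ∑ i : Fin n, ∑ j : Fin n, if c (pt n k (i, j)) then (1 : ℝ) else 0 := by
  rw [← Finset.sum_boole,
    ← Fintype.sum_prod_type' (fun i j => if c (pt n k (i, j)) then (1 : ℝ) else 0)]
  refine Fintype.sum_equiv finProdFinEquiv.symm _ _ ?_
  intro i
  unfold PP
  split_ifs <;> rfl

theorem star_bound (n k : ℕ) (hn : 0 < n) (hk : k ≤ n) (t : Fin 2 → ℝ) (ht : t ∈ I2) :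
    |((Finset.univ.filter (fun i : Fin (n * n) => ∀ j : Fin 2, PP n k i j < t j)).card : ℝ)
      - ((n * n : ℕ) : ℝ) * ∏ j : Fin 2, t j| ≤
      3 * n + if 1 - (k : ℝ) / n ≤ t 0 then (k : ℝ) * n else 0 := by
  have hn' : (1 : ℝ) ≤ n := by exact_mod_cast hn
  rw [count_eq n k (fun z => ∀ j : Fin 2, z j < t j), Fin.prod_univ_two]
  have f1 := F_bounds n hn _ (ht.1 0) (ht.2 0)
  have f2 := F_bounds n hn _ (ht.1 1) (ht.2 1)
  have a0 : 0 ≤ t 0 := ht.1 0
  have a1 : 0 ≤ t 1 := ht.1 1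
  have b0 : t 0 ≤ 1 := ht.2 0
  have b1 : t 1 ≤ 1 := ht.2 1
  have hmain : |F n (t 0) * F n (t 1) - ((n * n : ℕ) : ℝ) * (t 0 * t 1)| ≤ 3 * n := by
    have l := mul_le_mul f1.1 f2.1 (by positivity) (le_trans (by positivity) f1.1)
    have u := mul_le_mul f1.2 f2.2 (le_trans (by positivity) f2.1) (by positivity)
    push_cast
    rw [abs_le]; constructor <;> nlinarith
  have hdiff : |(∑ i : Fin n, ∑ j : Fin n, if ∀ l : Fin 2, pt n k (i, j) l < t l then (1 : ℝ) else 0)
      - F n (t 0) * F n (t 1)| ≤ if 1 - (k : ℝ) / n ≤ t 0 then (k : ℝ) * n else 0 := by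
    unfold F
    rw [Finset.sum_mul_sum, ← Finset.sum_sub_distrib]
    have hterm : ∀ i : Fin n, |(∑ j : Fin n, if ∀ l : Fin 2, pt n k (i, j) l < t l then (1 : ℝ)
        else 0) - ∑ j : Fin n, (if ((i : ℕ) : ℝ) / n < t 0 then (1 : ℝ) else 0) *
          (if ((j : ℕ) : ℝ) / n < t 1 then (1 : ℝ) else 0)| ≤
        (if 1 - (k : ℝ) / n ≤ t 0 then (n : ℝ) else 0) *
          (1 - if (i : ℕ) < n - k then (1 : ℝ) else 0) := by
      intro i
      rw [← Finset.sum_sub_distrib]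
      by_cases hi : (i : ℕ) < n - k
      · rw [if_pos hi, sub_self, mul_zero, Finset.sum_eq_zero, abs_zero]
        intro j _
        rw [ite_zero_mul_ite_zero]; simp [pt, hi]
      · rw [if_neg hi, sub_zero, mul_one]
        by_cases h0 : 1 - (k : ℝ) / n ≤ t 0
        · rw [if_pos h0]
          refine (Finset.abs_sum_le_sum_abs _ _).trans ?_
          calc _ ≤ ∑ j : Fin n, (1 : ℝ) := Finset.sum_le_sum fun j _ => by split_ifs <;> norm_num
            _ = n := by simp
        · rw [if_neg h0, Finset.sum_eq_zero, abs_zero]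
          intro j _
          have h1 : ((n - k : ℕ) : ℝ) ≤ (i : ℕ) := by exact_mod_cast not_lt.mp hi
          have h2 : ¬ ((i : ℕ) : ℝ) / n < t 0 := by
            rw [Nat.cast_sub hk] at h1
            have : 1 - (k : ℝ) / n ≤ (i : ℕ) / n := by
              rw [le_div_iff₀ (by positivity)]; field_simp; linarith
            linarith
          rw [if_neg h2, if_neg fun h => h2 (h 0)]; simp
    refine (Finset.abs_sum_le_sum_abs _ _).trans ((Finset.sum_le_sum fun i _ => hterm i).trans ?_)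
    rw [← Finset.mul_sum, Finset.sum_sub_distrib, low_count n (n - k) (by omega), Nat.cast_sub hk]
    split_ifs <;> simp [mul_comm]
  rw [abs_le] at *
  constructor <;> linarith [hmain.1, hmain.2, hdiff.1, hdiff.2]

theorem per_bound (n k : ℕ) (hn : 0 < n) (hk : 4 * k ≤ n) (x y : Fin 2 → ℝ)
    (hx : x ∈ Set.Icc (![1 / 2, 1 / 8] : Fin 2 → ℝ) ![3 / 4, 1 / 4])
    (hy : y ∈ Set.Icc (![0, 3 / 4] : Fin 2 → ℝ) ![1 / 4, 1]) (hk1 : 1 ≤ k) :
    ((k : ℝ) - 3) * n / 2 ≤
    |((Finset.univ.filter (fun i : Fin (n * n) => ∀ j : Fin 2,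
        (x j ≤ y j ∧ x j ≤ PP n k i j ∧ PP n k i j < y j) ∨
        (y j < x j ∧ (PP n k i j < y j ∨ x j ≤ PP n k i j)))).card : ℝ)
      - ((n * n : ℕ) : ℝ) * ∏ j : Fin 2, (if x j ≤ y j then y j - x j else 1 - x j + y j)| := by
  have hn' : (0 : ℝ) < n := by exact_mod_cast hn
  have hk' : (1 : ℝ) ≤ k := by exact_mod_cast hk1
  have hk4 : 4 * (k : ℝ) ≤ n := by exact_mod_cast hk
  have x0 : 1 / 2 ≤ x 0 := by simpa using hx.1 0
  have x0' : x 0 ≤ 3 / 4 := by simpa using hx.2 0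
  have x1 : 1 / 8 ≤ x 1 := by simpa using hx.1 1
  have x1' : x 1 ≤ 1 / 4 := by simpa using hx.2 1
  have y0 : 0 ≤ y 0 := by simpa using hy.1 0
  have y0' : y 0 ≤ 1 / 4 := by simpa using hy.2 0
  have y1 : 3 / 4 ≤ y 1 := by simpa using hy.1 1
  have y1' : y 1 ≤ 1 := by simpa using hy.2 1
  have c0 : ¬ x 0 ≤ y 0 := by linarith
  have c0' : y 0 < x 0 := by linarith
  have c1 : x 1 ≤ y 1 := by linarith
  have c1' : ¬ y 1 < x 1 := by linarith
  rw [count_eq n k (fun z => ∀ j : Fin 2, (x j ≤ y j ∧ x j ≤ z j ∧ z j < y j) ∨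
        (y j < x j ∧ (z j < y j ∨ x j ≤ z j))), Fin.prod_univ_two, if_neg c0, if_pos c1]
  set b : ℝ := ∑ j : Fin n, if x 1 ≤ ((j : ℕ) : ℝ) / n ∧ ((j : ℕ) : ℝ) / n < y 1 then (1 : ℝ) else 0
    with hb
  set a : ℝ := ∑ i : Fin n, if (i : ℕ) < n - k ∧
    (((i : ℕ) : ℝ) / n < y 0 ∨ x 0 ≤ ((i : ℕ) : ℝ) / n) then (1 : ℝ) else 0 with ha
  have ha0 : 0 ≤ a := Finset.sum_nonneg fun j _ => by split_ifs <;> norm_num
  have hb1 := b_eq n _ _ c1
  rw [← hb] at hb1
  have ha1 : a = F n (y 0) + (n - k) - F n (x 0) := by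
    rw [← Nat.cast_sub (by omega), ← low_count n (n - k) (by omega)]
    unfold F
    rw [← Finset.sum_add_distrib, ← Finset.sum_sub_distrib, ha]
    refine Finset.sum_congr rfl fun i _ => ?_
    by_cases hi : (i : ℕ) < n - k
    · by_cases h1 : ((i : ℕ) : ℝ) / n < y 0
      · simp [hi, h1, h1.trans c0']
      · by_cases h2 : ((i : ℕ) : ℝ) / n < x 0
        · simp [hi, h1, h2]
        · simp [hi, h1, h2, not_lt.mp h2]
    · have h1 : ((n - k : ℕ) : ℝ) ≤ (i : ℕ) := by exact_mod_cast not_lt.mp hi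
      rw [Nat.cast_sub (by omega)] at h1
      have h2 : x 0 ≤ ((i : ℕ) : ℝ) / n := by rw [le_div_iff₀ hn']; nlinarith
      simp [hi, not_lt.mpr h2, not_lt.mpr (c0'.le.trans h2)]
  have f1 := F_bounds n hn (x 0) (by linarith) (by linarith)
  have f2 := F_bounds n hn (x 1) (by linarith) (by linarith)
  have f3 := F_bounds n hn (y 0) (by linarith) (by linarith)
  have f4 := F_bounds n hn (y 1) (by linarith) y1'
  have hab : (∑ i : Fin n, ∑ j : Fin n, if ∀ l : Fin 2,
      (x l ≤ y l ∧ x l ≤ pt n k (i, j) l ∧ pt n k (i, j) l < y l) ∨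
        (y l < x l ∧ (pt n k (i, j) l < y l ∨ x l ≤ pt n k (i, j) l)) then (1 : ℝ) else 0) =
      a * b := by
    rw [ha, hb, Finset.sum_mul_sum]
    refine Finset.sum_congr rfl fun i _ => Finset.sum_congr rfl fun j _ => ?_
    rw [ite_zero_mul_ite_zero, one_mul]
    by_cases hi : (i : ℕ) < n - k
    · simp only [pt, Fin.forall_fin_two, Matrix.cons_val_zero, Matrix.cons_val_one,
        c0, c0', c1, c1', hi, true_and, false_and, false_or, or_false, if_true]
    · rw [if_neg, if_neg (fun h => hi h.1.1)]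
      intro h
      have := h 1
      simp only [pt, if_neg hi, Matrix.cons_val_zero, Matrix.cons_val_one] at this
      rcases this with h | h
      · linarith [h.2.1]
      · exact c1' h.1
  rw [hab]
  refine le_trans ?_ (neg_le_abs _)
  have h1 : a ≤ n * (1 - x 0 + y 0) + 1 - k := by nlinarith [f1.1, f3.2]
  have h2 : b ≤ n * (y 1 - x 1) + 1 := by nlinarith [f2.1, f4.2]
  have h3 : a * b ≤ (n * (1 - x 0 + y 0) + 1 - k) * (n * (y 1 - x 1) + 1) := by
    calc a * b ≤ a * (n * (y 1 - x 1) + 1) := by gcongr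
      _ ≤ _ := by
        have : 0 ≤ n * (y 1 - x 1) + 1 := by nlinarith
        gcongr
  have h4 : ((k : ℝ) - 1) * (n / 2) ≤ (k - 1) * (n * (y 1 - x 1) + 1) := by
    have : (n : ℝ) / 2 ≤ n * (y 1 - x 1) + 1 := by nlinarith
    have : (0 : ℝ) ≤ k - 1 := by linarith
    gcongr
  have h5 : (n : ℝ) * (1 - x 0 + y 0) ≤ n := by nlinarith
  push_cast
  nlinarith

theorem g_int (n k : ℕ) (hn : 0 < n) :
    IntegrableOn (fun x : Fin 2 → ℝ => 3 * (n : ℝ) +
      if 1 - (k : ℝ) / n ≤ x 0 then (k : ℝ) * n else 0) I2 ∧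
    ∫ x in I2, (3 * (n : ℝ) + if 1 - (k : ℝ) / n ≤ x 0 then (k : ℝ) * n else 0) ≤
      3 * n + k * k := by
  have hn' : (0 : ℝ) < n := by exact_mod_cast hn
  have hS : MeasurableSet {x : Fin 2 → ℝ | 1 - (k : ℝ) / n ≤ x 0} :=
    measurableSet_le measurable_const (measurable_pi_apply 0)
  have e : (fun x : Fin 2 → ℝ => if 1 - (k : ℝ) / n ≤ x 0 then (k : ℝ) * n else 0) =
      Set.indicator {x : Fin 2 → ℝ | 1 - (k : ℝ) / n ≤ x 0} (fun _ => (k : ℝ) * n) := by
    ext x
    simp [Set.indicator]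
  have hi : Integrable (fun x : Fin 2 → ℝ => if 1 - (k : ℝ) / n ≤ x 0 then (k : ℝ) * n else 0)
      (volume.restrict I2) := by
    rw [e]
    exact (integrable_const _).indicator hS
  refine ⟨(integrable_const _).add hi, ?_⟩
  rw [integral_add (integrable_const _) hi, e, integral_indicator_const _ hS]
  have h1 : (volume.restrict I2).real {x : Fin 2 → ℝ | 1 - (k : ℝ) / n ≤ x 0} ≤ k / n := by
    rw [Measure.real, Measure.restrict_apply hS]
    have hsub : {x : Fin 2 → ℝ | 1 - (k : ℝ) / n ≤ x 0} ∩ I2 ⊆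
        Set.Icc ![1 - (k : ℝ) / n, 0] 1 := by
      rintro x ⟨h1, h2⟩
      refine ⟨?_, h2.2⟩
      intro j
      fin_cases j
      · simpa using h1
      · simpa using h2.1 1
    refine ENNReal.toReal_le_of_le_ofReal (by positivity) ((measure_mono hsub).trans ?_)
    rw [Real.volume_Icc_pi]
    simp
  have h2 : ∫ x in I2, 3 * (n : ℝ) = 3 * n := by simp [Measure.real, vol_I2]
  rw [h2, smul_eq_mul]
  have : (volume.restrict I2).real {x : Fin 2 → ℝ | 1 - (k : ℝ) / n ≤ x 0} * (k * n) ≤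
      k / n * (k * n) := by gcongr
  have e2 : (k : ℝ) / n * (k * n) = k * k := by field_simp
  linarith

theorem PP_mem (n k : ℕ) (i : Fin (n * n)) (j : Fin 2) : 0 ≤ PP n k i j ∧ PP n k i j < 1 := by
  have key : ∀ a : Fin n, 0 ≤ ((a : ℕ) : ℝ) / n ∧ ((a : ℕ) : ℝ) / n < 1 := by
    intro a
    have h : ((a : ℕ) : ℝ) < n := by exact_mod_cast a.2
    have hn : (0 : ℝ) < n := lt_of_le_of_lt (Nat.cast_nonneg _) h
    exact ⟨by positivity, (div_lt_one hn).2 h⟩
  unfold PP pt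
  fin_cases j
  · exact key _
  · simp only [Fin.mk_one, Matrix.cons_val_one, Matrix.cons_val_zero]
    split_ifs
    · exact key _
    · simp

/-- The negation of the preceding statement: For every p ≥ 1 and d ≥ 1 there is C > 0 such that every N-point family in [0,1)^d has periodic L_p discrepancy (over wrap-around boxes) at most C times its star L_p discrepancy (over anchored boxes). -/
theorem result :
    ¬ (∀ p : ℝ, 1 ≤ p → ∀ d : ℕ, 1 ≤ d → ∃ C : ℝ, 0 < C ∧
      ∀ N : ℕ, ∀ P : Fin N → Fin d → ℝ, (∀ i j, 0 ≤ P i j ∧ P i j < 1) →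
        (∫ x in Set.Icc (0 : Fin d → ℝ) 1, ∫ y in Set.Icc (0 : Fin d → ℝ) 1,
            |((Finset.univ.filter (fun i : Fin N => ∀ j : Fin d,
                  if x j ≤ y j then (x j ≤ P i j ∧ P i j < y j)
                  else (P i j < y j ∨ x j ≤ P i j))).card : ℝ)
              - (N : ℝ) * ∏ j : Fin d, (if x j ≤ y j then y j - x j else 1 - x j + y j)| ^ p)
          ^ (1 / p)
        ≤ C * (∫ t in Set.Icc (0 : Fin d → ℝ) 1,
            |((Finset.univ.filter (fun i : Fin N => ∀ j : Fin d, P i j < t j)).card : ℝ)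
              - (N : ℝ) * ∏ j : Fin d, t j| ^ p) ^ (1 / p)) := by
  intro h
  obtain ⟨C, hC, h⟩ := h 1 le_rfl 2 (by norm_num)
  obtain ⟨k, hk⟩ := exists_nat_gt (4096 * C + 4)
  have hk4 : 4 ≤ k := by
    have : (4 : ℝ) < k := by linarith
    exact_mod_cast this.le
  set n := k * k with hn
  have hn0 : 0 < n := by positivity
  have hkn : 4 * k ≤ n := Nat.mul_le_mul_right k hk4
  have h1 := h (n * n) (PP n k) (PP_mem n k)
  have eq : ∀ a b c : ℝ, (if a ≤ b then a ≤ c ∧ c < b else c < b ∨ a ≤ c) ↔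
      (a ≤ b ∧ a ≤ c ∧ c < b) ∨ (b < a ∧ (c < b ∨ a ≤ c)) := fun a b c => by
    split_ifs with h
    · simp [h, not_lt.mpr h]
    · simp [h, not_le.mp h]
  simp only [Real.rpow_one, div_one, eq] at h1
  have hA : Set.Icc (![1 / 2, 1 / 8] : Fin 2 → ℝ) ![3 / 4, 1 / 4] ⊆ I2 := by
    apply Set.Icc_subset_Icc <;> intro j <;> fin_cases j <;> simp <;> norm_num
  have hB : Set.Icc (![0, 3 / 4] : Fin 2 → ℝ) ![1 / 4, 1] ⊆ I2 := by
    apply Set.Icc_subset_Icc <;> intro j <;> fin_cases j <;> simp <;> norm_num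
  have hlow := lower _ (per_meas (n * n) (PP n k)) (fun x y => abs_nonneg _) _
    (fun x hx y hy => per_le (n * n) (PP n k) x y hx hy) _ _ measurableSet_Icc hA
    measurableSet_Icc hB _ (fun x hx y hy => per_bound n k hn0 hkn x y hx hy (by omega))
  have hup := integral_mono_of_nonneg (Filter.Eventually.of_forall fun x => abs_nonneg _)
    (g_int n k hn0).1 ((ae_restrict_iff' measurableSet_Icc).2
      (Filter.Eventually.of_forall fun t ht => star_bound n k hn0 (by omega) t ht))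
  have vA : volume.real (Set.Icc (![1 / 2, 1 / 8] : Fin 2 → ℝ) ![3 / 4, 1 / 4]) = 1 / 32 := by
    rw [Measure.real, Real.volume_Icc_pi_toReal (by intro j; fin_cases j <;> simp <;> norm_num)]
    simp; norm_num
  have vB : volume.real (Set.Icc (![0, 3 / 4] : Fin 2 → ℝ) ![1 / 4, 1]) = 1 / 16 := by
    rw [Measure.real, Real.volume_Icc_pi_toReal (by intro j; fin_cases j <;> simp <;> norm_num)]
    simp; norm_num
  rw [vA, vB] at hlow
  have h2 : ((k : ℝ) - 3) * n / 2 * (1 / 16) * (1 / 32) ≤ C * (3 * n + k * k) := by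
    refine hlow.trans (le_trans ?_
      (mul_le_mul_of_nonneg_left (hup.trans (g_int n k hn0).2) hC.le))
    convert h1
  have hnk : (n : ℝ) = k * k := by rw [hn]; push_cast; ring
  have hn' : (0 : ℝ) < n := by exact_mod_cast hn0
  rw [← hnk] at h2
  nlinarith

end Pool.Agent.S18742
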