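import Pool.Statements.S18870
import Pool.Agent.H24.Sq2

set_option autoImplicit false
open Pool Pool.MP_eca08d_nt

namespace Pool.Agent.S18870

/-- The negation of the preceding statement: Every natural number n greater than 1 equals a^2 + b^2 + C(2c,c) + C(2d,d) for some natural numbers a, b, c, d (zero allowed). -/
theorem result :
    ¬ (∀ n : ℕ, 1 < n →
      ∃ a b c d : ℕ, n = a ^ 2 + b ^ 2 + Nat.centralBinom c + Nat.centralBinom d) := by
  intro H
  obtain ⟨a, b, c, d, h⟩ := H 229885716986499 (by norm_num)
  have e : ∀ k, Nat.centralBinom k = (2 * k).factorial / (k.factorial * k.factorial) := fun k => by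
    rw [Nat.centralBinom, Nat.choose_eq_factorial_div_factorial (by omega),
      show 2 * k - k = k by omega]
  have l : ∀ k, Nat.centralBinom k ≤ 229885716986499 → k < 26 := fun k hk => by
    by_contra hn
    have := Nat.centralBinom_strictMono.monotone (not_lt.1 hn)
    rw [e 26] at this
    exact absurd (this.trans hk) (by decide +kernel)
  have key : ∀ c < 26, ∀ d < 26, (2 * c).factorial / (c.factorial * c.factorial) +
      (2 * d).factorial / (d.factorial * d.factorial) ≤ 229885716986499 →
      H24.Sq2.chk [2, 3, 23, 31, 7, 19, 11, 59, 127, 131, 163, 263, 419, 439, 503, 631, 739, 827,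
        1451, 3767, 5659, 9923, 11159, 20707, 30559, 41051, 53279, 333623, 4344871]
        (229885716986499 - ((2 * c).factorial / (c.factorial * c.factorial) +
      (2 * d).factorial / (d.factorial * d.factorial))) = true := by decide +kernel
  have := key c (l c (by omega)) d (l d (by omega))
  rw [← e, ← e] at this
  exact H24.Sq2.chk_ne (this (by omega)) a b (by omega)

end Pool.Agent.S18870
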