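import Pool.Statements.S18994
-- import your own Pool.Agent.* helpers here

set_option autoImplicit false
open Filter Topology
open Pool Pool.MP_f5ee21_nt

namespace Pool.Agent.S18994

open NumberTheorySymbols

def W (R : Type) [CommRing R] (l : List ℕ) : Matrix (Fin 2) (Fin 2) R :=
  (List.map (fun b : ℕ => (!![(b : R), 1; 1, 0] : Matrix (Fin 2) (Fin 2) R)) l).prod

lemma W_nil (R : Type) [CommRing R] : W R [] = 1 := by simp [W]

lemma W_cons (R : Type) [CommRing R] (x : ℕ) (l : List ℕ) :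
    W R (x :: l) = !![(x : R), 1; 1, 0] * W R l := by simp [W]

lemma W_append (R : Type) [CommRing R] (l l' : List ℕ) :
    W R (l ++ l') = W R l * W R l' := by simp [W]

lemma inv (n : ℕ) : ∀ l : List ℕ, l.length = 2 * n → (∀ x ∈ l, x % 100 = 4) →
    ∃ a b c d : ℕ, W ℤ l = !![(a : ℤ), b; c, d] ∧ a * d = b * c + 1 ∧ J(b | d) = 1 ∧
      d % 8 = 1 ∧ b % 4 = 0 ∧ c % 4 = 0 ∧ (∃ k : ℤ, (b : ℤ) = c + 25 * k) ∧ (∃ k : ℤ, (a : ℤ) = d + 4 * c + 25 * k) := by
  induction n with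
  | zero =>
    intro l hl _
    have : l = [] := List.length_eq_zero_iff.mp (by omega)
    subst this
    refine ⟨1, 0, 0, 1, ?_, by norm_num, by simp, by norm_num, by norm_num, by norm_num,
      ⟨0, by norm_num⟩, ⟨0, by norm_num⟩⟩
    rw [W_nil]; ext i j; fin_cases i <;> fin_cases j <;> simp
  | succ n ih =>
    intro l hl h
    match l, hl, h with
    | x :: y :: l, hl, h =>
      obtain ⟨a, b, c, d, hW, hdet, hJ, hd, hb, hc, hbc, had⟩ :=
        ih l (by simp at hl; omega) (fun z hz => h z (by simp [hz]))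
      have hx := h x (by simp)
      have hy := h y (by simp)
      obtain ⟨u, rfl⟩ : ∃ u, x = 4 + 100 * u := ⟨x / 100, by omega⟩
      obtain ⟨v, rfl⟩ : ∃ v, y = 4 + 100 * v := ⟨y / 100, by omega⟩
      refine ⟨a + (4 + 100 * u) * (c + (4 + 100 * v) * a),
        b + (4 + 100 * u) * (d + (4 + 100 * v) * b), c + (4 + 100 * v) * a,
        d + (4 + 100 * v) * b, ?_, ?_, ?_, ?_, ?_, ?_, ?_, ?_⟩
      · rw [W_cons, W_cons, hW]
        ext i j; fin_cases i <;> fin_cases j <;>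
          simp [Matrix.mul_apply, Fin.sum_univ_two] <;> ring
      · zify at hdet ⊢
        linear_combination hdet
      · have hodd : Odd d := Nat.odd_iff.mpr (by omega)
        have hodd' : Odd (d + (4 + 100 * v) * b) := by
          have : (4 + 100 * v) * b = 2 * ((2 + 50 * v) * b) := by ring
          rw [this]; exact hodd.add_even (even_two_mul _)
        have h1 : J(((b + (4 + 100 * u) * (d + (4 + 100 * v) * b) : ℕ) : ℤ) |
            d + (4 + 100 * v) * b) = J(b | d + (4 + 100 * v) * b) := by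
          apply jacobiSym.mod_left'
          rw [Nat.cast_add, Nat.cast_mul, Int.add_mul_emod_self_right]
        rw [h1, jacobiSym.mod_right' b hodd', ← hJ, jacobiSym.mod_right' b hodd]
        congr 1
        have : (4 + 100 * v) * b = (4 * b) * (1 + 25 * v) := by ring
        rw [this, Nat.add_mul_mod_self_left]
      · obtain ⟨b', rfl⟩ : ∃ b', b = 4 * b' := ⟨b / 4, by omega⟩
        have : (4 + 100 * v) * (4 * b') = 8 * ((2 + 50 * v) * b') := by ring
        rw [this]; omega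
      · have : (4 + 100 * u) * (d + (4 + 100 * v) * b) =
          4 * ((1 + 25 * u) * (d + (4 + 100 * v) * b)) := by ring
        rw [this]; omega
      · have : (4 + 100 * v) * a = 4 * ((1 + 25 * v) * a) := by ring
        rw [this]; omega
      · obtain ⟨k, hk⟩ := hbc
        obtain ⟨k', hk'⟩ := had
        refine ⟨17 * k - 4 * k' + 16 * v * b + 4 * u * (d + (4 + 100 * v) * b) - 4 * v * a, ?_⟩
        push_cast
        linear_combination 17 * hk - 4 * hk'
      · obtain ⟨k, hk⟩ := hbc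
        obtain ⟨k', hk'⟩ := had
        refine ⟨k' - 4 * k + 4 * u * (c + (4 + 100 * v) * a) - 4 * v * b, ?_⟩
        push_cast
        linear_combination hk' - 4 * hk

lemma obstruct (a b c d i : ℕ) (hdet : a * d = b * c + 1) (hJ : J(b | d) = 1)
    (hd : d % 8 = 1) (hb : b % 4 = 0) (hc : c % 4 = 0) (hbc : ∃ k : ℤ, (b : ℤ) = c + 25 * k)
    (had : ∃ k : ℤ, (a : ℤ) = d + 4 * c + 25 * k) (ht : a + d + 2 = 20 * (3 ^ (2 * i + 1)) ^ 2) : False := by
  set m := 3 ^ (2 * i + 1) with hm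
  have hm2 : m ^ 2 % 40 = 9 := by
    have : m ^ 2 = 81 ^ i * 9 := by
      rw [hm, ← pow_mul, show (81 : ℕ) = 3 ^ 4 by norm_num, ← pow_mul,
        show (9 : ℕ) = 3 ^ 2 by norm_num, ← pow_add]; congr 1; ring
    rw [this, Nat.mul_mod, Nat.pow_mod]; simp
  have h5 : b % 5 = 2 ∨ b % 5 = 3 := by
    obtain ⟨k, hk⟩ := hbc
    obtain ⟨k', hk'⟩ := had
    obtain ⟨s, hs⟩ : ∃ s, m ^ 2 = 40 * s + 9 := ⟨m ^ 2 / 40, by omega⟩
    rw [hs] at ht
    zify at ht hdet
    obtain ⟨e, he⟩ : ∃ e : ℤ, (d : ℤ) = 14 - 2 * c + 25 * e :=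
      ⟨((d : ℤ) - 14 + 2 * c) / 25, by omega⟩
    have h1 : ∃ z : ℤ, (c : ℤ) * c = 4 + 5 * z := by
      refine ⟨7 + 28 * e + 25 * e * e + k' * d - k * c, ?_⟩
      rw [hk', hk, he] at hdet
      rw [he]
      linarith
    obtain ⟨z, hz⟩ := h1
    have h2 : (c : ℤ) % 5 = 2 ∨ (c : ℤ) % 5 = 3 := by
      have h3 : ((c : ℤ) * c) % 5 = 4 := by omega
      rw [Int.mul_emod] at h3
      have : (c : ℤ) % 5 = 0 ∨ (c : ℤ) % 5 = 1 ∨ (c : ℤ) % 5 = 2 ∨ (c : ℤ) % 5 = 3 ∨
        (c : ℤ) % 5 = 4 := by omega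
      rcases this with h | h | h | h | h <;> rw [h] at h3 <;> simp_all
    omega
  clear hbc had
  obtain ⟨b', rfl⟩ : ∃ b', b = 4 * b' := ⟨b / 4, by omega⟩
  obtain ⟨c', rfl⟩ : ∃ c', c = 4 * c' := ⟨c / 4, by omega⟩
  obtain ⟨k, hk⟩ : ∃ k, d = 8 * k + 1 := ⟨d / 8, by omega⟩
  obtain ⟨s, hs⟩ : ∃ s, m ^ 2 = 40 * s + 9 := ⟨m ^ 2 / 40, by omega⟩
  have key : d * (20 * m ^ 2) = (d + 1) ^ 2 + 16 * (b' * c') := by
    rw [← ht]; zify at hdet ⊢; linear_combination hdet
  have hodd : Odd b' := by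
    have : (b' * c') % 2 = 1 := by
      rw [hs, hk] at key
      have e : (8 * k + 1) * (20 * (40 * s + 9)) =
        180 + 32 * (200 * k * s + 45 * k + 25 * s) := by ring
      have e' : (8 * k + 1 + 1) ^ 2 = 4 + 32 * (2 * k * k + k) := by ring
      rw [e, e'] at key; omega
    exact (Nat.odd_mul.mp (Nat.odd_iff.mpr this)).1
  have hdo : Odd d := Nat.odd_iff.mpr (by omega)
  have hb5 : b' % 5 = 2 ∨ b' % 5 = 3 := by omega
  have j1 : J(b' | d) = 1 := by
    have h4 : J(((2 : ℤ)) ^ 2 | d) = 1 := by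
      apply jacobiSym.sq_one'
      have : Nat.Coprime 2 d := (Nat.coprime_two_left).mpr hdo
      simpa [Int.gcd] using this
    have : ((4 * b' : ℕ) : ℤ) = 2 ^ 2 * b' := by push_cast; ring
    rw [this, jacobiSym.mul_left, h4, one_mul] at hJ
    exact hJ
  have j2 : J(d | b') = 1 := by
    rw [jacobiSym.quadratic_reciprocity_one_mod_four (by omega) hodd, j1]
  have j3 : J((5 : ℕ) | b') = -1 := by
    rw [jacobiSym.quadratic_reciprocity_one_mod_four (by norm_num) hodd, jacobiSym.mod_left]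
    rcases hb5 with h | h
    · have : ((b' : ℤ)) % ((5 : ℕ) : ℤ) = 2 := by omega
      rw [this]; norm_num
    · have : ((b' : ℤ)) % ((5 : ℕ) : ℤ) = 3 := by omega
      rw [this]; norm_num
  have j4 : J(((5 : ℕ) : ℤ) * d | b') = -1 := by rw [jacobiSym.mul_left, j2, j3]; norm_num
  obtain ⟨p, hp, hpb, hpj⟩ := jacobiSym.eq_neg_one_at_prime_divisor_of_eq_neg_one j4
  have := Fact.mk hp
  have hdv : (p : ℤ) ∣ (((d : ℤ) + 1) ^ 2 - (((5 : ℕ) : ℤ) * d) * (2 * (m : ℤ)) ^ 2) := by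
    have : (((d : ℤ) + 1) ^ 2 - (((5 : ℕ) : ℤ) * d) * (2 * (m : ℤ)) ^ 2) =
        (b' : ℤ) * (-16 * c') := by
      zify at key; push_cast; linear_combination -key
    rw [this]
    exact Dvd.dvd.mul_right (Int.natCast_dvd_natCast.mpr hpb) _
  obtain ⟨h1, h2⟩ := jacobiSym.prime_dvd_of_eq_neg_one hpj hdv
  have h2' : p ∣ 2 * m := by exact_mod_cast h2
  have hp3 : p = 3 := by
    rcases (Nat.Prime.dvd_mul hp).mp h2' with h | h
    · exfalso
      have : p = 2 := (Nat.prime_dvd_prime_iff_eq hp Nat.prime_two).mp h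
      subst this
      exact (Nat.not_even_iff_odd.mpr hodd) (even_iff_two_dvd.mpr hpb)
    · exact (Nat.prime_dvd_prime_iff_eq hp Nat.prime_three).mp (hp.dvd_of_dvd_pow h)
  subst hp3
  have : (((5 : ℕ) : ℤ) * d) % ((3 : ℕ) : ℤ) = 1 % ((3 : ℕ) : ℤ) := by
    push_cast at h1 ⊢; omega
  rw [jacobiSym.mod_left' this] at hpj
  simp at hpj

lemma not_trace (l : List ℕ) (he : Even l.length) (h : ∀ x ∈ l, x % 100 = 4) (i : ℕ) :
    Matrix.trace (W ℤ l) ≠ 20 * (3 ^ (2 * i + 1)) ^ 2 - 2 := by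
  obtain ⟨n, hn⟩ := he
  obtain ⟨a, b, c, d, hW, hdet, hJ, hd, hb, hc, hbc, had⟩ := inv n l (by omega) h
  intro ht
  rw [hW, Matrix.trace_fin_two_of] at ht
  refine obstruct a b c d i hdet hJ hd hb hc hbc had ?_
  zify; linarith

lemma W_map (Q : ℕ) (l : List ℕ) :
    (Int.castRingHom (ZMod Q)).mapMatrix (W ℤ l) = W (ZMod Q) l := by
  induction l with
  | nil => rw [W_nil, W_nil, map_one]
  | cons x l ih =>
    rw [W_cons, W_cons, map_mul, ih]
    congr 1
    ext i j; fin_cases i <;> fin_cases j <;> simp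

lemma trace_cast (Q : ℕ) (l : List ℕ) :
    ((Matrix.trace (W ℤ l) : ℤ) : ZMod Q) = Matrix.trace (W (ZMod Q) l) := by
  rw [← W_map]
  simp [Matrix.trace_fin_two]

lemma W_replicate (R : Type) [CommRing R] (x n : ℕ) :
    W R (List.replicate n x) = (!![(x : R), 1; 1, 0]) ^ n := by
  simp [W]

lemma fin_order (R : Type) [CommRing R] [Finite R] :
    ∃ n, 0 < n ∧ (!![((4 : ℕ) : R), 1; 1, 0]) ^ n = 1 := by
  let u : (Matrix (Fin 2) (Fin 2) R)ˣ :=
    ⟨!![((4 : ℕ) : R), 1; 1, 0], !![0, 1; 1, -((4 : ℕ) : R)], by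
      ext i j; fin_cases i <;> fin_cases j <;> simp [Matrix.mul_apply, Fin.sum_univ_two], by
      ext i j; fin_cases i <;> fin_cases j <;> simp [Matrix.mul_apply, Fin.sum_univ_two]⟩
  obtain ⟨n, hn, h⟩ := (isOfFinOrder_of_finite u).exists_pow_eq_one
  refine ⟨n, hn, ?_⟩
  have := congrArg (fun v : (Matrix (Fin 2) (Fin 2) R)ˣ => (v : Matrix (Fin 2) (Fin 2) R)) h
  simpa [u] using this

lemma letter (R : Type) [CommRing R] [Finite R] (j : ℕ) :
    ∃ l : List ℕ, Odd l.length ∧ (∀ x ∈ l, x = 4 ∨ x = 104) ∧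
      W R l = !![((4 + 100 * j : ℕ) : R), 1; 1, 0] := by
  obtain ⟨n, hn, h⟩ := fin_order R
  have hU : W R (104 :: List.replicate (2 * n - 1) 4) = !![1, 100; 0, 1] := by
    have h1 : W R (104 :: List.replicate (2 * n - 1) 4) * !![((4 : ℕ) : R), 1; 1, 0] =
        !![((104 : ℕ) : R), 1; 1, 0] := by
      rw [W_cons, W_replicate, mul_assoc, ← pow_succ, show 2 * n - 1 + 1 = n * 2 by omega,
        pow_mul, h, one_pow, mul_one]
    have h2 : (!![((4 : ℕ) : R), 1; 1, 0] : Matrix (Fin 2) (Fin 2) R) *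
        !![0, 1; 1, -((4 : ℕ) : R)] = 1 := by
      ext i j; fin_cases i <;> fin_cases j <;> simp [Matrix.mul_apply, Fin.sum_univ_two]
    rw [← mul_one (W R _), ← h2, ← mul_assoc, h1]
    ext i j; fin_cases i <;> fin_cases j <;> simp [Matrix.mul_apply, Fin.sum_univ_two]
    norm_num
  induction j with
  | zero => exact ⟨[4], by simp, by simp, by simp [W]⟩
  | succ j ih =>
    obtain ⟨l, hl, hm, hW⟩ := ih
    refine ⟨(104 :: List.replicate (2 * n - 1) 4) ++ l, ?_, ?_, ?_⟩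
    · rw [List.length_append, List.length_cons, List.length_replicate,
        show 2 * n - 1 + 1 = 2 * n by omega]
      exact (even_two_mul n).add_odd hl
    · intro x hx
      rcases List.mem_append.mp hx with hx | hx
      · rcases List.mem_cons.mp hx with hx | hx
        · exact Or.inr hx
        · exact Or.inl (List.eq_of_mem_replicate hx)
      · exact hm x hx
    · rw [W_append, hU, hW]
      ext i j; fin_cases i <;> fin_cases j <;> simp [Matrix.mul_apply, Fin.sum_univ_two]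
      ring

lemma admissible (t : ℤ) (ht : t % 400 = 178) (q : ℤ) (hq : 1 ≤ q) :
    ∃ l : List ℕ, l ≠ [] ∧ Even l.length ∧ (∀ x ∈ l, x = 4 ∨ x = 104) ∧
      Matrix.trace (W ℤ l) ≡ t [ZMOD q] := by
  obtain ⟨Q, rfl⟩ : ∃ Q : ℕ, q = Q := ⟨q.toNat, by omega⟩
  have hQ : 0 < Q := by omega
  have : NeZero Q := ⟨hQ.ne'⟩
  obtain ⟨p, hpQ, hp, hmod⟩ := Nat.forall_exists_prime_gt_and_modEq (Q + 323)
    (q := 7625) (a := 323) (by norm_num) (by norm_num)
  obtain ⟨s, hs⟩ : ∃ s, p = 323 + 7625 * s := by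
    refine ⟨(p - 323) / 7625, ?_⟩
    unfold Nat.ModEq at hmod
    omega
  have hcop : Nat.Coprime p Q := Nat.coprime_of_lt_prime hQ.ne' (by omega) hp
  obtain ⟨T, hT⟩ : ∃ T : ℤ, t = 178 + 400 * T := ⟨t / 400, by omega⟩
  let u := ZMod.unitOfCoprime p hcop
  let j : ℕ := (((u⁻¹ : (ZMod Q)ˣ) : ZMod Q) * ((T : ZMod Q) - 14 - 323 * s)).val
  have hj : (p : ZMod Q) * (j : ZMod Q) = (T : ZMod Q) - 14 - 323 * s := by
    have hu : (u : ZMod Q) = p := ZMod.coe_unitOfCoprime p hcop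
    simp only [j, ZMod.natCast_val, ZMod.cast_id', id]
    rw [← hu, ← mul_assoc, Units.mul_inv, one_mul]
  obtain ⟨l1, ho1, hm1, hW1⟩ := letter (ZMod Q) s
  obtain ⟨l2, ho2, hm2, hW2⟩ := letter (ZMod Q) j
  refine ⟨4 :: 4 :: 4 :: 4 :: (l1 ++ l2), by simp, ?_, ?_, ?_⟩
  · have := ho1.add_odd ho2
    simp only [List.length_cons, List.length_append]
    obtain ⟨k, hk⟩ := this
    exact ⟨k + 2, by omega⟩
  · intro x hx
    simp only [List.mem_cons, List.mem_append] at hx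
    rcases hx with h | h | h | h | h | h
    · exact Or.inl h
    · exact Or.inl h
    · exact Or.inl h
    · exact Or.inl h
    · exact hm1 x h
    · exact hm2 x h
  · rw [← ZMod.intCast_eq_intCast_iff, trace_cast, W_cons, W_cons, W_cons, W_cons, W_append,
      hW1, hW2, hT]
    rw [hs] at hj
    simp [Matrix.trace_fin_two, Matrix.mul_apply, Fin.sum_univ_two] at hj ⊢
    linear_combination 400 * hj

noncomputable def P (a : ℕ → ℕ) (n : ℕ) : Matrix (Fin 2) (Fin 2) ℝ :=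
  (List.map (fun j : ℕ => (!![(a j : ℝ), 1; 1, 0] : Matrix (Fin 2) (Fin 2) ℝ))
    (List.range (n + 1))).prod

noncomputable def rr (a : ℕ → ℕ) (n : ℕ) : ℝ := P a n 0 0 / P a n 1 0

def sh (a : ℕ → ℕ) : ℕ → ℕ := fun j => a (j + 1)

lemma P_zero (a : ℕ → ℕ) : P a 0 = !![(a 0 : ℝ), 1; 1, 0] := by simp [P]

lemma P_succ (a : ℕ → ℕ) (n : ℕ) : P a (n + 1) = !![(a 0 : ℝ), 1; 1, 0] * P (sh a) n := by
  unfold P
  rw [List.range_succ_eq_map, List.map_cons, List.prod_cons, List.map_map]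
  rfl

lemma P_pos (n : ℕ) : ∀ a : ℕ → ℕ, (∀ j, 4 ≤ a j) → 0 < P a n 0 0 ∧ 0 ≤ P a n 1 0 := by
  induction n with
  | zero =>
    intro a h
    rw [P_zero]
    have : (4 : ℝ) ≤ a 0 := by exact_mod_cast h 0
    simp only [Matrix.of_apply, Matrix.cons_val', Matrix.cons_val_zero, Matrix.cons_val_one,
      Matrix.cons_val_fin_one]
    constructor <;> linarith
  | succ n ih =>
    intro a h
    obtain ⟨h1, h2⟩ := ih (sh a) (fun j => h (j + 1))
    have : (4 : ℝ) ≤ a 0 := by exact_mod_cast h 0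
    rw [P_succ]
    simp [Matrix.mul_apply, Fin.sum_univ_two]
    constructor
    · positivity
    · exact h1.le

lemma rr_zero (a : ℕ → ℕ) : rr a 0 = a 0 := by simp [rr, P_zero]

lemma rr_succ (a : ℕ → ℕ) (h : ∀ j, 4 ≤ a j) (n : ℕ) :
    rr a (n + 1) = a 0 + 1 / rr (sh a) n := by
  obtain ⟨h1, h2⟩ := P_pos n (sh a) (fun j => h (j + 1))
  unfold rr
  rw [P_succ, one_div_div]
  simp [Matrix.mul_apply, Fin.sum_univ_two]
  field_simp

lemma rr_ge (n : ℕ) : ∀ a : ℕ → ℕ, (∀ j, 4 ≤ a j) → 4 ≤ rr a n := by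
  induction n with
  | zero => intro a h; rw [rr_zero]; exact_mod_cast h 0
  | succ n ih =>
    intro a h
    have h1 := ih (sh a) (fun j => h (j + 1))
    have : (4 : ℝ) ≤ a 0 := by exact_mod_cast h 0
    rw [rr_succ a h]
    have : 0 < 1 / rr (sh a) n := by positivity
    linarith

lemma rr_diff (n : ℕ) : ∀ a : ℕ → ℕ, (∀ j, 4 ≤ a j) →
    dist (rr a n) (rr a (n + 1)) ≤ 1 * (1 / 2) ^ n := by
  induction n with
  | zero =>
    intro a h
    have h1 := rr_ge 0 (sh a) (fun j => h (j + 1))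
    rw [rr_succ a h, rr_zero, Real.dist_eq]
    have h2 : 0 < 1 / rr (sh a) 0 := by positivity
    have h3 : 1 / rr (sh a) 0 ≤ 1 := by rw [div_le_one (by linarith)]; linarith
    rw [abs_le]; constructor <;> simp only [pow_zero] <;> linarith
  | succ n ih =>
    intro a h
    have h0 := ih (sh a) (fun j => h (j + 1))
    have h1 := rr_ge n (sh a) (fun j => h (j + 1))
    have h2 := rr_ge (n + 1) (sh a) (fun j => h (j + 1))
    rw [rr_succ a h, rr_succ a h (n + 1), Real.dist_eq]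
    rw [Real.dist_eq] at h0
    set u := rr (sh a) n
    set v := rr (sh a) (n + 1)
    have : (a 0 : ℝ) + 1 / u - (a 0 + 1 / v) = -(u - v) / (u * v) := by field_simp; ring
    rw [this, abs_div, abs_neg, abs_of_pos (by positivity : 0 < u * v),
      div_le_iff₀ (by positivity), pow_succ]
    have h3 : 2 ≤ u * v := by nlinarith
    have h4 : (0 : ℝ) ≤ (1 / 2) ^ n := by positivity
    nlinarith

lemma rr_conv (a : ℕ → ℕ) (h : ∀ j, 4 ≤ a j) : ∃ x, Tendsto (rr a) atTop (𝓝 x) :=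
  cauchySeq_tendsto_of_complete
    (cauchySeq_of_le_geometric (1 / 2) 1 (by norm_num) (fun n => rr_diff n a h))

noncomputable def X (a : ℕ → ℕ) : ℝ := limUnder atTop (rr a)

lemma X_tendsto (a : ℕ → ℕ) (h : ∀ j, 4 ≤ a j) : Tendsto (rr a) atTop (𝓝 (X a)) :=
  tendsto_nhds_limUnder (rr_conv a h)

lemma X_ge (a : ℕ → ℕ) (h : ∀ j, 4 ≤ a j) : 4 ≤ X a :=
  ge_of_tendsto' (X_tendsto a h) (fun n => rr_ge n a h)

lemma X_rec (a : ℕ → ℕ) (h : ∀ j, 4 ≤ a j) : X a = a 0 + 1 / X (sh a) := by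
  have h' : ∀ j, 4 ≤ sh a j := fun j => h (j + 1)
  have h1 : Tendsto (fun n => rr a (n + 1)) atTop (𝓝 (X a)) :=
    (X_tendsto a h).comp (tendsto_add_atTop_nat 1)
  have h2 : Tendsto (fun n => (a 0 : ℝ) + 1 / rr (sh a) n) atTop (𝓝 (a 0 + 1 / X (sh a))) :=
    tendsto_const_nhds.add (tendsto_const_nhds.div (X_tendsto _ h')
      (by have := X_ge _ h'; linarith))
  simp only [rr_succ a h] at h1
  exact tendsto_nhds_unique h1 h2

lemma exists_K : ∃ (K : ℕ) (r : ℝ), 2 ≤ K ∧ 1 / 2 < r ∧ r ≤ 1 ∧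
    1 ≤ ∑ j ∈ Finset.range K, ((100 * j + 5 : ℝ)) ^ (-(2 * r)) := by
  obtain ⟨K, hK, hK2⟩ : ∃ K : ℕ, 200 ≤ ∑ j ∈ Finset.range K, 1 / ((j : ℝ) + 1) ∧ 2 ≤ K :=
    ((Real.tendsto_sum_range_one_div_nat_succ_atTop.eventually_ge_atTop 200).and
      (eventually_ge_atTop 2)).exists
  have h1 : 1 < ∑ j ∈ Finset.range K, ((100 * j + 5 : ℝ)) ^ (-(2 * (1 / 2 : ℝ))) := by
    have : ∑ j ∈ Finset.range K, (1 / 100) * (1 / ((j : ℝ) + 1)) ≤
        ∑ j ∈ Finset.range K, ((100 * j + 5 : ℝ)) ^ (-(2 * (1 / 2 : ℝ))) := by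
      apply Finset.sum_le_sum
      intro j _
      rw [show -(2 * (1 / 2 : ℝ)) = -1 by norm_num, Real.rpow_neg_one, one_div_mul_one_div,
        one_div]
      apply inv_anti₀ (by positivity)
      linarith
    rw [← Finset.mul_sum] at this
    linarith
  have hc : Continuous (fun r : ℝ => ∑ j ∈ Finset.range K, ((100 * j + 5 : ℝ)) ^ (-(2 * r))) := by
    apply continuous_finsetSum
    intro j _
    exact Continuous.rpow continuous_const (by fun_prop) (fun _ => Or.inl (by positivity))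
  have h2 : ∀ᶠ r in 𝓝 (1 / 2 : ℝ),
      1 < ∑ j ∈ Finset.range K, ((100 * j + 5 : ℝ)) ^ (-(2 * r)) :=
    hc.continuousAt.eventually (lt_mem_nhds h1)
  have h3 : ∀ᶠ r in 𝓝 (1 / 2 : ℝ), r < 1 := gt_mem_nhds (by norm_num)
  obtain ⟨r, ⟨ha, hb⟩, hr⟩ := (((h2.and h3).filter_mono nhdsWithin_le_nhds).and
    (self_mem_nhdsWithin : Set.Ioi (1 / 2 : ℝ) ∈ 𝓝[>] (1 / 2 : ℝ))).exists
  exact ⟨K, r, hK2, hr, hb.le, ha.le⟩

lemma digit (p : ℕ → ℝ) (hp : ∀ j, 0 < p j) (K : ℕ) (y : ℝ) (h0 : 0 ≤ y)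
    (h1 : y < ∑ j ∈ Finset.range K, p j) :
    ∃ j < K, ∃ y', 0 ≤ y' ∧ y' < 1 ∧ y = ∑ i ∈ Finset.range j, p i + p j * y' := by
  induction K with
  | zero => simp at h1; linarith
  | succ K ih =>
    by_cases h : y < ∑ j ∈ Finset.range K, p j
    · obtain ⟨j, hj, h'⟩ := ih h
      exact ⟨j, by omega, h'⟩
    · push Not at h
      rw [Finset.sum_range_succ] at h1
      have := hp K
      refine ⟨K, by omega, (y - ∑ j ∈ Finset.range K, p j) / p K, ?_, ?_, ?_⟩
      · exact div_nonneg (by linarith) this.le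
      · rw [div_lt_one this]; linarith
      · field_simp; ring

lemma coding (K : ℕ) (r : ℝ) (hr : 1 / 2 < r) (hr1 : r ≤ 1)
    (hs : 1 ≤ ∑ j ∈ Finset.range K, ((100 * j + 5 : ℝ)) ^ (-(2 * r))) :
    ∃ (c : Set.Ico (0 : ℝ) 1 → ℕ → ℕ) (C : ℝ), 0 ≤ C ∧ (∀ y n, ∃ j < K, c y n = 4 + 100 * j) ∧
      ∀ y y', |y.1 - y'.1| ≤ C * |X (c y) - X (c y')| ^ r := by
  set p : ℕ → ℝ := fun j => ((100 * j + 5 : ℝ)) ^ (-(2 * r)) with hp
  have hp0 : ∀ j, 0 < p j := fun j => Real.rpow_pos_of_pos (by positivity) _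
  have hp1 : ∀ j, p j ≤ 1 / 2 := by
    intro j
    have h1 : p j ≤ ((100 * j + 5 : ℝ)) ^ (-1 : ℝ) :=
      Real.rpow_le_rpow_of_exponent_le (by have : (0 : ℝ) ≤ j := by positivity
                                           linarith) (by linarith)
    rw [Real.rpow_neg_one] at h1
    refine h1.trans ?_
    rw [one_div]
    apply inv_anti₀ (by norm_num)
    have : (0 : ℝ) ≤ j := by positivity
    linarith
  have hd : ∀ y : Set.Ico (0 : ℝ) 1, ∃ j, ∃ y' : Set.Ico (0 : ℝ) 1, j < K ∧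
      y.1 = ∑ i ∈ Finset.range j, p i + p j * y'.1 := by
    intro y
    obtain ⟨j, hj, y', h1, h2, h3⟩ := digit p hp0 K y.1 y.2.1 (y.2.2.trans_le hs)
    exact ⟨j, ⟨y', h1, h2⟩, hj, h3⟩
  choose d T hdK hT using hd
  set c : Set.Ico (0 : ℝ) 1 → ℕ → ℕ := fun y n => 4 + 100 * d (T^[n] y) with hc
  have hc4 : ∀ y j, 4 ≤ c y j := fun y j => Nat.le_add_right _ _
  have hsh : ∀ y, sh (c y) = c (T y) := fun y => by
    funext n; simp [sh, hc, Function.iterate_succ]
  have hX4 : ∀ y, 4 ≤ X (c y) := fun y => X_ge _ (hc4 y)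
  have hrec : ∀ y, X (c y) = 4 + 100 * d y + 1 / X (c (T y)) := fun y => by
    rw [X_rec _ (hc4 y), hsh]; simp [hc]
  have hz : ∀ y, 0 < 1 / X (c y) ∧ 1 / X (c y) ≤ 1 := fun y => by
    have := hX4 y
    exact ⟨by positivity, by rw [div_le_one (by linarith)]; linarith⟩
  set B : ℝ := 100 * K + 5 with hB
  have hB1 : 1 ≤ B := by have : (0 : ℝ) ≤ K := by positivity
                         linarith
  have hXB : ∀ y, X (c y) ≤ 100 * d y + 5 := fun y => by
    rw [hrec]; linarith [(hz (T y)).2]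
  have hXB' : ∀ y, X (c y) ≤ B := fun y => by
    have : (d y : ℝ) ≤ K := by exact_mod_cast (hdK y).le
    linarith [hXB y]
  have hzd : ∀ y y', |1 / X (c y) - 1 / X (c y')| =
      |X (c y) - X (c y')| / (X (c y) * X (c y')) := fun y y' => by
    have h1 := hX4 y
    have h2 := hX4 y'
    have : 1 / X (c y) - 1 / X (c y') = -(X (c y) - X (c y')) / (X (c y) * X (c y')) := by
      field_simp; ring
    rw [this, abs_div, abs_neg, abs_of_pos (by positivity : 0 < X (c y) * X (c y'))]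
  have main : ∀ n : ℕ, ∀ y y' : Set.Ico (0 : ℝ) 1,
      |y.1 - y'.1| ≤ B ^ 2 * |1 / X (c y) - 1 / X (c y')| ^ r + (1 / 2) ^ n := by
    intro n
    have triv : ∀ y y' : Set.Ico (0 : ℝ) 1, |y.1 - y'.1| ≤ 1 := fun y y' => by
      rw [abs_le]; constructor <;> linarith [y.2.1, y.2.2, y'.2.1, y'.2.2]
    induction n with
    | zero =>
      intro y y'
      have : 0 ≤ B ^ 2 * |1 / X (c y) - 1 / X (c y')| ^ r := by positivity
      linarith [triv y y']
    | succ n ih =>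
      intro y y'
      have h1 := hX4 y
      have h2 := hX4 y'
      by_cases hdd : d y = d y'
      · have e1 : |y.1 - y'.1| = p (d y) * |(T y).1 - (T y').1| := by
          rw [hT y, hT y', ← hdd, ← abs_of_pos (hp0 (d y)), ← abs_mul, abs_of_pos (hp0 (d y))]
          congr 1; ring
        have e2 : |X (c y) - X (c y')| = |1 / X (c (T y)) - 1 / X (c (T y'))| := by
          rw [hrec y, hrec y', hdd]; congr 1; ring
        set D : ℝ := 100 * d y + 5 with hD
        have hD0 : 0 < D := by positivity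
        have e3 : |1 / X (c (T y)) - 1 / X (c (T y'))| ≤
            D ^ (2 : ℝ) * |1 / X (c y) - 1 / X (c y')| := by
          rw [hzd y y', e2, ← mul_div_assoc, le_div_iff₀ (by positivity), mul_comm]
          apply mul_le_mul_of_nonneg_right _ (abs_nonneg _)
          have a1 := hXB y
          have a2 := hXB y'
          rw [← hdd] at a2
          rw [Real.rpow_two]
          nlinarith
        have e4 : p (d y) * |1 / X (c (T y)) - 1 / X (c (T y'))| ^ r ≤
            |1 / X (c y) - 1 / X (c y')| ^ r := by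
          have a1 := Real.rpow_le_rpow (abs_nonneg _) e3 (by linarith : 0 ≤ r)
          rw [Real.mul_rpow (by positivity) (abs_nonneg _), ← Real.rpow_mul hD0.le] at a1
          have a2 : p (d y) * D ^ (2 * r) = 1 := by
            simp only [hp]
            rw [← Real.rpow_add hD0]; simp
          calc _ ≤ p (d y) * (D ^ (2 * r) * |1 / X (c y) - 1 / X (c y')| ^ r) :=
                mul_le_mul_of_nonneg_left a1 (hp0 _).le
            _ = _ := by rw [← mul_assoc, a2, one_mul]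
        have e5 := mul_le_mul_of_nonneg_left (ih (T y) (T y')) (hp0 (d y)).le
        rw [e1, pow_succ (1 / 2 : ℝ)]
        have a1 : p (d y) * (1 / 2 : ℝ) ^ n ≤ (1 / 2) ^ n * (1 / 2) := by
          rw [mul_comm]; exact mul_le_mul_of_nonneg_left (hp1 _) (by positivity)
        have a2 := mul_le_mul_of_nonneg_left e4 (by positivity : 0 ≤ B ^ 2)
        nlinarith
      · have e1 : 1 ≤ |X (c y) - X (c y')| := by
          rw [hrec y, hrec y']
          have a1 := hz (T y)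
          have a2 := hz (T y')
          rcases lt_or_gt_of_ne hdd with h | h
          · have : (d y : ℝ) + 1 ≤ d y' := by exact_mod_cast h
            rw [le_abs]; right; linarith [a1.1, a1.2, a2.1, a2.2]
          · have : (d y' : ℝ) + 1 ≤ d y := by exact_mod_cast h
            rw [le_abs]; left; linarith [a1.1, a1.2, a2.1, a2.2]
        have e2 : 1 / B ^ 2 ≤ |1 / X (c y) - 1 / X (c y')| := by
          rw [hzd y y']
          apply div_le_div₀ (abs_nonneg _) e1 (by positivity)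
          have a1 := hXB' y
          have a2 := hXB' y'
          nlinarith
        have e3 : 1 / B ^ 2 ≤ |1 / X (c y) - 1 / X (c y')| ^ r := by
          refine le_trans ?_ (Real.rpow_le_rpow (by positivity) e2 (by linarith : 0 ≤ r))
          have a1 : 1 / B ^ 2 ≤ 1 := by rw [div_le_one (by positivity)]; nlinarith
          calc 1 / B ^ 2 = (1 / B ^ 2) ^ (1 : ℝ) := (Real.rpow_one _).symm
            _ ≤ _ := Real.rpow_le_rpow_of_exponent_ge (by positivity) a1 hr1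
        have e4 : 1 ≤ B ^ 2 * |1 / X (c y) - 1 / X (c y')| ^ r := by
          rw [div_le_iff₀ (by positivity)] at e3; linarith
        have : (0 : ℝ) ≤ (1 / 2) ^ (n + 1) := by positivity
        linarith [triv y y']
  refine ⟨c, B ^ 2, by positivity, fun y n => ⟨_, hdK _, rfl⟩, fun y y' => ?_⟩
  have h1 : |y.1 - y'.1| ≤ B ^ 2 * |1 / X (c y) - 1 / X (c y')| ^ r := by
    have ht : Tendsto (fun n : ℕ => B ^ 2 * |1 / X (c y) - 1 / X (c y')| ^ r + (1 / 2 : ℝ) ^ n)
        atTop (𝓝 (B ^ 2 * |1 / X (c y) - 1 / X (c y')| ^ r + 0)) :=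
      tendsto_const_nhds.add (tendsto_pow_atTop_nhds_zero_of_lt_one (by norm_num) (by norm_num))
    rw [add_zero] at ht
    exact ge_of_tendsto' ht (fun n => main n y y')
  refine h1.trans (mul_le_mul_of_nonneg_left
    (Real.rpow_le_rpow (abs_nonneg _) ?_ (by linarith)) (by positivity))
  rw [hzd]
  apply div_le_self (abs_nonneg _)
  nlinarith [hX4 y, hX4 y']

lemma dim_ge (S : Set ℝ) (r C : ℝ) (hr : 1 / 2 < r) (hC : 0 ≤ C) (g : Set.Ico (0 : ℝ) 1 → ℝ)
    (hg : ∀ y, g y ∈ S) (h : ∀ y y', |y.1 - y'.1| ≤ C * |g y - g y'| ^ r) :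
    (1 / 2 : ENNReal) < dimH S := by
  have : Nonempty (Set.Ico (0 : ℝ) 1) := ⟨⟨0, le_rfl, one_pos⟩⟩
  have hr0 : 0 < r := by linarith
  have hinj : Function.Injective g := by
    intro y y' e
    have := h y y'
    rw [e, sub_self, abs_zero, Real.zero_rpow hr0.ne', mul_zero] at this
    exact Subtype.ext (sub_eq_zero.mp (abs_nonpos_iff.mp this))
  let f : ℝ → ℝ := fun x => (Function.invFun g x).1
  have hf : ∀ y, f (g y) = y.1 := fun y => by
    simp only [f]; rw [Function.leftInverse_invFun hinj y]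
  have hH : HolderOnWith ⟨C, hC⟩ ⟨r, hr0.le⟩ f (Set.range g) := by
    rintro _ ⟨y, rfl⟩ _ ⟨y', rfl⟩
    rw [hf, hf, edist_dist, edist_dist, Real.dist_eq, Real.dist_eq,
      ENNReal.ofReal_rpow_of_nonneg (abs_nonneg _) (by exact hr0.le),
      ← ENNReal.ofReal_coe_nnreal, ← ENNReal.ofReal_mul (by exact hC)]
    exact ENNReal.ofReal_le_ofReal (h y y')
  have him : f '' Set.range g = Set.Ico 0 1 := by
    ext x; constructor
    · rintro ⟨_, ⟨y, rfl⟩, rfl⟩; rw [hf]; exact y.2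
    · intro hx; exact ⟨_, ⟨⟨x, hx⟩, rfl⟩, hf _⟩
  have hr0' : (0 : NNReal) < ⟨r, hr0.le⟩ := by exact hr0
  have h1 := hH.dimH_image_le hr0'
  rw [him, Real.dimH_of_nonempty_interior (by simp), Module.finrank_self, Nat.cast_one,
    ENNReal.le_div_iff_mul_le (Or.inl (ENNReal.coe_ne_zero.mpr hr0'.ne'))
      (Or.inl ENNReal.coe_ne_top), one_mul] at h1
  refine lt_of_lt_of_le ?_ (h1.trans (dimH_mono (by rintro _ ⟨y, rfl⟩; exact hg y)))
  have : (1 / 2 : ENNReal) = ((1 / 2 : NNReal) : ENNReal) := by simp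
  rw [this, ENNReal.coe_lt_coe, ← NNReal.coe_lt_coe]
  push_cast
  exact hr

/-- The negation of the preceding statement: For every finite alphabet of at least two positive integers whose continued-fraction Cantor set has Hausdorff dimension above 1/2, every sufficiently large integer that is a trace of the even-length semigroup modulo every q is an actual trace. -/
theorem result :
    ¬ (∀ A : Finset ℕ, (∀ a ∈ A, 1 ≤ a) → 2 ≤ A.card →
      ((1 / 2 : ENNReal) < dimH {x : ℝ | ∃ a : ℕ → ℕ, (∀ j, a j ∈ A) ∧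
          Tendsto (fun n : ℕ =>
            ((List.map (fun j : ℕ => (!![(a j : ℝ), 1; 1, 0] : Matrix (Fin 2) (Fin 2) ℝ))
                (List.range (n + 1))).prod 0 0) /
            ((List.map (fun j : ℕ => (!![(a j : ℝ), 1; 1, 0] : Matrix (Fin 2) (Fin 2) ℝ))
                (List.range (n + 1))).prod 1 0)) atTop (𝓝 x)}) →
      ∃ N : ℤ, ∀ t : ℤ, N ≤ t →
        (∀ q : ℤ, 1 ≤ q → ∃ l : List ℕ, l ≠ [] ∧ Even l.length ∧ (∀ b ∈ l, b ∈ A) ∧
          Matrix.trace ((List.map (fun b : ℕ => (!![(b : ℤ), 1; 1, 0] : Matrix (Fin 2) (Fin 2) ℤ)) l).prod)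
            ≡ t [ZMOD q]) →
        ∃ l : List ℕ, l ≠ [] ∧ Even l.length ∧ (∀ b ∈ l, b ∈ A) ∧
          Matrix.trace ((List.map (fun b : ℕ => (!![(b : ℤ), 1; 1, 0] : Matrix (Fin 2) (Fin 2) ℤ)) l).prod) = t) := by
  intro H
  obtain ⟨K, r, hK, hr, hr1, hs⟩ := exists_K
  obtain ⟨c, C, hC, hc, hcod⟩ := coding K r hr hr1 hs
  have hmem : ∀ x, x ∈ (Finset.range K).image (fun j => 4 + 100 * j) ↔
      ∃ j < K, x = 4 + 100 * j := by
    intro x; simp [eq_comm]
  have hc4 : ∀ y j, 4 ≤ c y j := fun y n => by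
    obtain ⟨j, _, h⟩ := hc y n
    omega
  obtain ⟨N, hN⟩ := H ((Finset.range K).image (fun j => 4 + 100 * j))
    (fun a ha => by obtain ⟨j, _, h⟩ := (hmem a).mp ha; omega)
    (by rw [Finset.card_image_of_injective _ (fun i j h => by simpa using h), Finset.card_range]
        exact hK)
    (dim_ge _ r C hr hC (fun y => X (c y))
      (fun y => ⟨c y, fun n => (hmem _).mpr (hc y n), X_tendsto _ (hc4 y)⟩) hcod)
  have h81 : ∀ i : ℕ, (20 * (3 ^ (2 * i + 1)) ^ 2 - 2 : ℤ) = 180 * 81 ^ i - 2 := fun i => by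
    rw [← pow_mul, show (81 : ℤ) = 3 ^ 4 by norm_num, ← pow_mul,
      show (2 * i + 1) * 2 = 4 * i + 2 by ring, pow_add]; ring
  have hbig : N ≤ 20 * (3 ^ (2 * N.toNat + 1)) ^ 2 - 2 := by
    rw [h81]
    have h1 : N.toNat < 81 ^ N.toNat := Nat.lt_pow_self (by norm_num)
    have h2 : ((N.toNat : ℕ) : ℤ) < 81 ^ N.toNat := by exact_mod_cast h1
    have h3 := Int.self_le_toNat N
    have h4 : (0 : ℤ) ≤ (N.toNat : ℕ) := by positivity
    linarith
  have hmod : (20 * (3 ^ (2 * N.toNat + 1)) ^ 2 - 2 : ℤ) % 400 = 178 := by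
    rw [h81]
    have h1 : ((81 : ℤ) ^ N.toNat) % 20 = 1 := by
      have : (81 : ℤ) ^ N.toNat ≡ 1 ^ N.toNat [ZMOD 20] := Int.ModEq.pow _ (by decide)
      rw [one_pow] at this
      exact this
    omega
  obtain ⟨l, _, he, hl, ht⟩ := hN _ hbig (fun q hq => by
    obtain ⟨l, h1, h2, h3, h4⟩ := admissible _ hmod q hq
    refine ⟨l, h1, h2, fun b hb => (hmem b).mpr ?_, h4⟩
    rcases h3 b hb with h | h
    · exact ⟨0, by omega, by omega⟩
    · exact ⟨1, by omega, by omega⟩)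
  exact not_trace l he (fun x hx => by obtain ⟨j, _, h⟩ := (hmem x).mp (hl x hx); omega)
    N.toNat ht

end Pool.Agent.S18994
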