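import Pool.Statements.S19070
import Pool.Agent.H4.BarnesB

set_option autoImplicit false
open Pool Pool.MP_fcb754_nt

namespace Pool.Agent.S19070

/-- The negation of the preceding statement: For the continuation F of the Barnes r-fold zeta (a>0, w_j>0) and d the Q-dimension of the span of the w_j: for each ε>0 and σ₁, ∣F(σ+it)∣ ≤ C t^ε for all t≥1 and r−d/2 ≤ σ ≤ σ₁. -/
theorem result :
    ¬ (∀ (r : ℕ), 1 ≤ r → ∀ (a : ℝ), 0 < a → ∀ (w : Fin r → ℝ), (∀ j, 0 < w j) →
      ∀ F : ℂ → ℂ,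
        DifferentiableOn ℂ F {s : ℂ | ∀ k : ℕ, 1 ≤ k → k ≤ r → s ≠ (k : ℂ)} →
        (∀ s : ℂ, (r : ℝ) < s.re →
          F s = ∑' m : Fin r → ℕ, (((a + ∑ j, (m j : ℝ) * w j : ℝ) : ℂ) ^ (-s))) →
        ∀ ε : ℝ, 0 < ε → ∀ σ₁ : ℝ, ∃ C : ℝ, ∀ σ t : ℝ,
          (r : ℝ) - (Module.finrank ℚ (Submodule.span ℚ (Set.range w)) : ℝ) / 2 ≤ σ →
          σ ≤ σ₁ → 1 ≤ t →
          ‖F ((σ : ℂ) + (t : ℂ) * Complex.I)‖ ≤ C * t ^ ε) := by
  intro h
  have hL : Liouville (liouvilleNumber (2 : ℕ)) := liouville_liouvilleNumber le_rfl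
  set w : ℝ := liouvilleNumber (2 : ℕ) with hwdef
  have hw : 0 < w := by
    rw [hwdef, liouvilleNumber]
    exact (LiouvilleNumber.summable (by norm_num)).tsum_pos (fun i => by positivity) 0
      (by positivity)
  have hli : LinearIndependent ℚ ![(1 : ℝ), w] := by
    rw [LinearIndependent.pair_iff]
    intro s t hst
    simp only [Rat.smul_def, mul_one] at hst
    by_cases ht : t = 0
    · subst ht
      simp only [Rat.cast_zero, zero_mul, add_zero, Rat.cast_eq_zero] at hst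
      exact ⟨hst, rfl⟩
    · exfalso
      have ht' : (t : ℝ) ≠ 0 := by exact_mod_cast ht
      refine hL.irrational ⟨-s / t, ?_⟩
      push_cast
      field_simp
      linarith
  have hrk : Module.finrank ℚ (Submodule.span ℚ (Set.range ![(1 : ℝ), w])) = 2 := by
    rw [finrank_span_eq_card hli, Fintype.card_fin]
  obtain ⟨C, hC⟩ := h 2 (by norm_num) 1 one_pos ![1, w]
    (by intro j; fin_cases j <;> simp [hw]) (Pool.Agent.H4.Barnes.FF w)
    (fun s hs => (Pool.Agent.H4.Barnes.FF_diff hw (by simpa using hs 1 le_rfl (by norm_num))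
      (by simpa using hs 2 (by norm_num) le_rfl)).differentiableWithinAt)
    (fun s hs => Pool.Agent.H4.Barnes.FF_series hw (by simpa using hs)) (1 / 4) (by norm_num) 1
  refine Pool.Agent.H4.Barnes.not_bound hw hL (C := C) fun t ht => ?_
  have := hC 1 t (by rw [hrk]; norm_num) le_rfl ht
  simpa using this

end Pool.Agent.S19070
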