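import Pool.Statements.S19138
-- import your own Pool.Agent.* helpers here

set_option autoImplicit false
open Pool Pool.MP_0b691a_pr

namespace Pool.Agent.S19138

open MeasureTheory Set Real Filter Topology

/-- the kernel `x₊^s / Γ(s+1)` -/
noncomputable def P (s x : ℝ) : ℝ := max x 0 ^ s / Gamma (s + 1)

lemma P_zero {s x : ℝ} (hs : 0 < s) (hx : x ≤ 0) : P s x = 0 := by
  rw [P, max_eq_right hx, zero_rpow hs.ne', zero_div]

lemma P_cont {s : ℝ} (hs : 0 < s) : Continuous (P s) :=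
  ((continuous_id.max continuous_const).rpow_const fun _ => Or.inr hs.le).div_const _

lemma P_deriv {s : ℝ} (hs : 1 < s) (x : ℝ) : HasDerivAt (P s) (P (s - 1) x) x := by
  refine hasDerivAt_of_hasDerivAt_of_ne' (x := 0) (fun y hy => ?_)
    (P_cont (by linarith)).continuousAt (P_cont (by linarith)).continuousAt x
  rcases hy.lt_or_gt with h | h
  · rw [P_zero (by linarith) h.le]
    exact (hasDerivAt_const y 0).congr_of_eventuallyEq
      ((eventually_lt_nhds h).mono fun z hz => P_zero (by linarith) hz.le)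
  · refine (((hasDerivAt_rpow_const (p := s) (Or.inl h.ne')).div_const
      (Gamma (s + 1))).congr_of_eventuallyEq ((eventually_gt_nhds h).mono fun z hz => by
        simp only [P, max_eq_left hz.le])).congr_deriv ?_
    rw [P, max_eq_left h.le, sub_add_cancel, Gamma_add_one (by linarith),
      mul_div_mul_left _ _ (by linarith)]

lemma P_le {s : ℝ} (hs : 0 < s) (x : ℝ) : |P s x| ≤ exp (4 * max x 0) / 4 ^ s := by
  have h0 := Gamma_pos_of_pos (show 0 < s + 1 by linarith)
  obtain ⟨u, hu⟩ : ∃ u, u = 4 * max x 0 := ⟨_, rfl⟩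
  have hu0 : 0 ≤ u := by rw [hu]; positivity
  have h1 : exp (-u) * u ^ s ≤ Gamma (s + 1) := by
    have h2 := GammaIntegral_convergent (show 0 < s + 1 by linarith)
    rw [Gamma_eq_integral (by linarith), ← integral_exp_neg_Ioi, ← integral_mul_const]
    refine le_trans (setIntegral_mono_on ((integrableOn_exp_neg_Ioi u).mul_const _)
      (h2.mono_set (Ioi_subset_Ioi hu0)) measurableSet_Ioi fun y hy => ?_)
      (setIntegral_mono_set h2 (ae_restrict_of_forall_mem measurableSet_Ioi fun y hy => by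
        have : 0 < y := hy
        positivity) (Ioi_subset_Ioi hu0).eventuallyLE)
    rw [add_sub_cancel_right]
    exact mul_le_mul_of_nonneg_left (rpow_le_rpow hu0 (le_of_lt hy) hs.le) (exp_pos _).le
  rw [P, abs_of_nonneg (by positivity), div_le_div_iff₀ h0 (by positivity), mul_comm,
    ← mul_rpow (by norm_num) (by positivity), ← hu, ← inv_mul_le_iff₀ (exp_pos _), ← exp_neg]
  exact h1

lemma P_lap {s β j : ℝ} (hs : 0 < s) (hβ : 0 < β) (hj : 0 ≤ j) :
    ∫ x in Ioi 0, exp (-β * x) * P s (x - j) = exp (-β * j) * (1 / β) ^ (s + 1) := by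
  have h0 := Gamma_pos_of_pos (show 0 < s + 1 by linarith)
  rw [setIntegral_eq_integral_of_forall_compl_eq_zero fun x hx => by
      rw [P_zero hs (by linarith [notMem_Ioi.mp hx]), mul_zero],
    ← integral_add_right_eq_self _ j, ← setIntegral_eq_integral_of_forall_compl_eq_zero
      (s := Ioi 0) fun x hx => by rw [P_zero hs (by linarith [notMem_Ioi.mp hx]), mul_zero],
    setIntegral_congr_fun measurableSet_Ioi (g := fun x => exp (-β * j) / Gamma (s + 1) *
      (x ^ (s + 1 - 1) * exp (-(β * x)))) fun x (hx : 0 < x) => by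
        simp only [P, add_sub_cancel_right, max_eq_left hx.le, mul_add, exp_add, neg_mul]
        ring, integral_const_mul, integral_rpow_mul_exp_neg_mul_Ioi (by linarith) hβ]
  field_simp

/-- `n`-th backward difference of the kernel -/
noncomputable def U (n : ℕ) (s x : ℝ) : ℝ :=
  ∑ j ∈ Finset.range (n + 1), (-1) ^ j * n.choose j * P s (x - j)

lemma U_cont {s : ℝ} (hs : 0 < s) (n : ℕ) : Continuous (U n s) :=
  continuous_finsetSum _ fun j _ => continuous_const.mul ((P_cont hs).comp (by fun_prop))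

lemma U_le {s : ℝ} (hs : 0 < s) (n : ℕ) (x : ℝ) :
    |U n s x| ≤ 2 ^ n * (exp (4 * max x 0) / 4 ^ s) := by
  refine (Finset.abs_sum_le_sum_abs _ _).trans ((Finset.sum_le_sum (g := fun j => n.choose j *
    (exp (4 * max x 0) / 4 ^ s)) fun j _ => ?_).trans_eq ?_)
  · rw [abs_mul, abs_mul, abs_neg_one_pow, one_mul, Nat.abs_cast]
    refine mul_le_mul_of_nonneg_left ((P_le hs _).trans ?_) (by positivity)
    gcongr
    exact sub_le_self _ (by positivity)
  · rw [← Finset.sum_mul, ← Nat.cast_sum, Nat.sum_range_choose]; simp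

lemma lap_int {f : ℝ → ℝ} (hf : Continuous f) {K β : ℝ} (hβ : 4 < β)
    (h : ∀ x, |f x| ≤ K * exp (4 * max x 0)) :
    IntegrableOn (fun x => exp (-β * x) * f x) (Ioi 0) ∧
      ∫ x in Ioi 0, ‖exp (-β * x) * f x‖ ≤ K * ∫ x in Ioi 0, exp (-(β - 4) * x) := by
  have h1 := (exp_neg_integrableOn_Ioi 0 (sub_pos.mpr hβ)).const_mul K
  have h2 : ∀ᵐ x ∂volume.restrict (Ioi 0), ‖exp (-β * x) * f x‖ ≤ K * exp (-(β - 4) * x) :=
    ae_restrict_of_forall_mem measurableSet_Ioi fun x hx => by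
      rw [norm_mul, norm_eq_abs, norm_eq_abs, abs_of_pos (exp_pos _)]
      refine (mul_le_mul_of_nonneg_left (h x) (exp_pos _).le).trans_eq ?_
      rw [max_eq_left (le_of_lt hx), mul_left_comm, ← exp_add]
      congr 2; ring
  refine ⟨h1.mono' (Continuous.aestronglyMeasurable (by fun_prop)) h2, ?_⟩
  rw [← integral_const_mul]
  exact integral_mono_of_nonneg (.of_forall fun _ => norm_nonneg _) h1 h2

lemma U_lap {s β : ℝ} (hs : 0 < s) (hβ : 4 < β) (n : ℕ) :
    ∫ x in Ioi 0, exp (-β * x) * U n s x = (1 - exp (-β)) ^ n * (1 / β) ^ (s + 1) := by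
  simp only [U, Finset.mul_sum, mul_left_comm (exp _)]
  rw [integral_finsetSum _ fun (j : ℕ) _ => Integrable.const_mul (lap_int (f := fun x => P s (x - j))
    (K := 1 / 4 ^ s) ((P_cont hs).comp (by fun_prop)) hβ fun x => (P_le hs _).trans (by
      rw [one_div_mul_eq_div]; gcongr; exact sub_le_self _ (by positivity))).1 _,
    ← neg_add_eq_sub, add_pow, Finset.sum_mul]
  refine Finset.sum_congr rfl fun j _ => ?_
  rw [integral_const_mul, P_lap hs (by linarith) (by positivity), neg_pow (exp _), ← exp_nat_mul,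
    mul_comm (-β)]
  ring

/-- the series part of the scale function -/
noncomputable def G (a x : ℝ) : ℝ := ∑' n : ℕ, U (n + 1) (7 / 4 * n + a) x

lemma G_le {a : ℝ} (ha : 0 < a) (n : ℕ) (x : ℝ) :
    |U (n + 1) (7 / 4 * n + a) x| ≤ 4 / 2 / 2 ^ n * exp (4 * max x 0) := by
  refine (U_le (by positivity) _ _).trans ?_
  have h1 : (4 : ℝ) ^ n ≤ 4 ^ (7 / 4 * n + a : ℝ) := by
    rw [← rpow_natCast]
    exact rpow_le_rpow_of_exponent_le (by norm_num) (by linarith [n.cast_nonneg (α := ℝ)])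
  refine (mul_le_mul_of_nonneg_left (div_le_div_of_nonneg_left (exp_pos _).le (by positivity) h1)
    (by positivity)).trans_eq ?_
  rw [show (4 : ℝ) ^ n = 2 ^ n * 2 ^ n by rw [← mul_pow]; norm_num]
  field_simp
  ring

lemma G_le' {a R : ℝ} (ha : 0 < a) (n : ℕ) (x : ℝ) (hx : x ∈ Iio R) :
    ‖U (n + 1) (7 / 4 * n + a) x‖ ≤ 4 / 2 / 2 ^ n * exp (4 * max R 0) :=
  (G_le ha n x).trans (by gcongr; exact le_of_lt hx)

lemma G_cont {a : ℝ} (ha : 0 < a) : Continuous (G a) := continuous_iff_continuousAt.mpr fun x =>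
  (continuousOn_tsum (fun n => (U_cont (by positivity) _).continuousOn)
    ((summable_geometric_two' 4).mul_right _) (G_le' ha)).continuousAt (Iio_mem_nhds (lt_add_one x))

lemma G_deriv {a : ℝ} (ha : 1 < a) : Differentiable ℝ (G a) ∧ deriv (G a) = G (a - 1) := by
  have h : ∀ x, HasDerivAt (G a) (G (a - 1) x) x := fun x =>
    hasDerivAt_tsum_of_isPreconnected ((summable_geometric_two' 4).mul_right _) isOpen_Iio
      isPreconnected_Iio (fun n y _ => by
        rw [← add_sub_assoc]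
        exact HasDerivAt.fun_sum fun j _ => ((P_deriv (by
          linarith [n.cast_nonneg (α := ℝ)]) _).comp_sub_const y _).const_mul _)
      (G_le' (sub_pos.mpr ha)) (lt_add_one x) (((summable_geometric_two' 4).mul_right _).of_norm_bounded
        fun n => G_le (by linarith) n x) (lt_add_one x)
  exact ⟨fun x => (h x).differentiableAt, funext fun x => (h x).deriv⟩

lemma W_lap {β : ℝ} (hβ : 4 < β) :
    IntegrableOn (fun x => exp (-β * x) * (P (3 / 4) x + G (5 / 2) x)) (Ioi 0) ∧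
      ∫ x in Ioi 0, exp (-β * x) * (P (3 / 4) x + G (5 / 2) x) =
        1 / (β ^ (7 / 4 : ℝ) + (exp (-β) - 1)) := by
  have h1 := (lap_int (K := 1 / 4 ^ (3 / 4 : ℝ)) (P_cont (s := 3 / 4) (by norm_num)) hβ fun x =>
    (P_le (by norm_num) x).trans_eq (by ring)).1
  have h2 := (lap_int (K := 4) (G_cont (a := 5 / 2) (by norm_num)) hβ fun x =>
    tsum_of_norm_bounded (f := fun n : ℕ => U (n + 1) (7 / 4 * n + 5 / 2) x)
      ((hasSum_geometric_two' 4).mul_right _) fun n => G_le (a := 5 / 2) (by norm_num) n x).1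
  have h3 := fun n : ℕ => lap_int (U_cont (s := 7 / 4 * n + 5 / 2) (by positivity) (n + 1)) hβ
    (G_le (by norm_num) n)
  have h4 := hasSum_integral_of_summable_integral_norm (fun n => (h3 n).1)
    (((summable_geometric_two' 4).mul_right _).of_nonneg_of_le (fun _ => by positivity)
      fun n => (h3 n).2)
  have h5 := P_lap (s := 3 / 4) (β := β) (j := 0) (by norm_num) (by linarith) le_rfl
  simp only [mul_add]
  refine ⟨h1.add h2, ?_⟩
  have h6 : 0 < β := by linarith
  have h7 : 1 < β ^ (7 / 4 : ℝ) := one_lt_rpow (by linarith) (by norm_num)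
  have h8 : exp (-β) < 1 := exp_lt_one_iff.mpr (by linarith)
  have h9 := exp_pos (-β)
  simp only [sub_zero, mul_zero, exp_zero, one_mul, tsum_mul_left] at h4 h5
  have h10 : ∀ n : ℕ, ∫ x in Ioi 0, exp (-β * x) * U (n + 1) (7 / 4 * n + 5 / 2) x =
      (1 - exp (-β)) / (β ^ (7 / 4 : ℝ)) ^ 2 * ((1 - exp (-β)) / β ^ (7 / 4 : ℝ)) ^ n := fun n => by
    rw [U_lap (by positivity) hβ, div_rpow zero_le_one h6.le, one_rpow, show (7 / 4 * n + 5 / 2 +
      1 : ℝ) = 7 / 4 * (n + 2 : ℕ) by push_cast; ring, rpow_mul_natCast h6.le, div_pow]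
    field_simp
    ring
  simp only [h10] at h4
  rw [integral_add h1 h2, h5]
  simp only [G]
  rw [← h4.tsum_eq, tsum_mul_left, tsum_geometric_of_lt_one
    (div_nonneg (by linarith) (by linarith)) ((div_lt_one (by linarith)).mpr (by linarith)),
    div_rpow zero_le_one h6.le, one_rpow, show (3 / 4 + 1 : ℝ) = 7 / 4 by norm_num]
  generalize β ^ (7 / 4 : ℝ) = b at h7
  have h11 : b + (exp (-β) - 1) ≠ 0 := by linarith
  have h12 : b - (1 - exp (-β)) ≠ 0 := by linarith
  field_simp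
  ring

lemma st_int {f : ℝ → ℝ} (hf : Measurable f) {K : ℝ} (h : ∀ y, 0 < y → |f y| ≤ K * min y (y ^ 2)) :
    IntegrableOn (fun y => y ^ (-11 / 4 : ℝ) * f y) (Ioi 0) := by
  have hK : 0 ≤ K := by simpa using (abs_nonneg _).trans (h 1 one_pos)
  have h1 : ∀ (s : Set ℝ) (n : ℕ), MeasurableSet s → s ⊆ Ioi 0 → (∀ y, min y (y ^ 2) ≤ y ^ n) →
      IntegrableOn (fun y : ℝ => y ^ (-11 / 4 + n : ℝ)) s →
        IntegrableOn (fun y => y ^ (-11 / 4 : ℝ) * f y) s := fun s n h1 h2 h3 h4 =>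
    (h4.const_mul K).mono' (Measurable.aestronglyMeasurable (by fun_prop))
      (ae_restrict_of_forall_mem h1 fun y hy => by
        have h5 : 0 < y := h2 hy
        rw [norm_mul, norm_eq_abs, norm_eq_abs, abs_of_pos (by positivity), rpow_add_natCast h5.ne',
          mul_left_comm]
        gcongr
        exact (h y h5).trans (mul_le_mul_of_nonneg_left (h3 y) hK))
  rw [← Ioc_union_Ioi_eq_Ioi zero_le_one]
  refine (h1 _ 2 measurableSet_Ioc Ioc_subset_Ioi_self (fun _ => min_le_right _ _) ?_).union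
    (h1 _ 1 measurableSet_Ioi (Ioi_subset_Ioi zero_le_one) (fun _ => by simp)
      (integrableOn_Ioi_rpow_of_lt (by norm_num) one_pos))
  rw [integrableOn_Ioc_iff_integrableOn_Ioo, intervalIntegral.integrableOn_Ioo_rpow_iff one_pos]
  norm_num

lemma E_int {β : ℝ} (hβ : 0 < β) :
    IntegrableOn (fun y => y ^ (-11 / 4 : ℝ) * (exp (-(β * y)) - 1 + β * y)) (Ioi 0) := by
  refine st_int (by fun_prop) (K := β + β ^ 2) fun y hy => ?_
  have h1 := add_one_le_exp (-(β * y))
  have h2 := mul_pos hβ hy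
  have h3 : exp (-(β * y)) ≤ 1 - β * y + (β * y) ^ 2 := by
    rw [exp_neg, inv_le_iff_one_le_mul₀ (exp_pos _)]
    nlinarith [add_one_le_exp (β * y), pow_pos h2 3, sq_nonneg (β * y - 1 / 2)]
  have h4 := exp_lt_one_iff.mpr (neg_lt_zero.mpr h2)
  rw [abs_of_nonneg (by linarith), mul_min_of_nonneg _ _ (by positivity), le_min_iff]
  constructor <;> nlinarith [mul_pos h2 hβ, mul_pos h2 hy]


/-- The negation of the preceding statement: Spectrally negative Lévy process with no Gaussian part, Lévy measure on (−∞,0), infinite ∫_{(−1,0)}∣x∣: for every k, the scale function is C^{k+2} on (0,∞) iff the Lévy tail y ↦ ν(−∞,−y) is C^k on (0,∞). -/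
theorem result :
    ¬ (∀ (ν : MeasureTheory.Measure ℝ) (γ : ℝ) (W : ℝ → ℝ),
      ν (Set.Ici 0) = 0 →
      (∫⁻ x, ENNReal.ofReal (min 1 (x ^ 2)) ∂ν) < ⊤ →
      (∫⁻ x in Set.Ioo (-1 : ℝ) 0, ENNReal.ofReal |x| ∂ν) = ⊤ →
      ContinuousOn W (Set.Ioi 0) →
      (∃ β₀ : ℝ, ∀ β : ℝ, β₀ < β →
        MeasureTheory.IntegrableOn (fun x => Real.exp (-β * x) * W x) (Set.Ioi 0) ∧
        (∫ x in Set.Ioi (0 : ℝ), Real.exp (-β * x) * W x) =
          1 / (γ * β + ∫ x, (Real.exp (β * x) - 1 - (if -1 < x then β * x else 0)) ∂ν)) →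
      ∀ k : ℕ,
        (ContDiffOn ℝ ((k + 2 : ℕ) : WithTop ℕ∞) W (Set.Ioi 0) ↔
          ContDiffOn ℝ ((k : ℕ) : WithTop ℕ∞) (fun y => (ν (Set.Iio (-y))).toReal) (Set.Ioi 0))) := by
  intro H
  obtain ⟨C, hC⟩ : ∃ C, C = ∫ y in Ioi (0 : ℝ), y ^ (-11 / 4 : ℝ) * (exp (-(1 * y)) - 1 + 1 * y) :=
    ⟨_, rfl⟩
  have hC0 : 0 < C := by
    have h : ∀ y ∈ Ioi (0 : ℝ), 0 < y ^ (-11 / 4 : ℝ) * (exp (-(1 * y)) - 1 + 1 * y) :=
      fun y (hy : 0 < y) => mul_pos (by positivity)
        (by linarith [add_one_lt_exp (show -(1 * y) ≠ 0 by linarith)])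
    rw [hC, setIntegral_pos_iff_support_of_nonneg_ae (ae_restrict_of_forall_mem measurableSet_Ioi
      fun y hy => (h y hy).le) (E_int one_pos)]
    exact lt_of_lt_of_le (by simp) (measure_mono fun y hy => ⟨(h y hy).ne', hy⟩)
  obtain ⟨μ, hμ⟩ : ∃ μ : Measure ℝ, μ = ((volume.restrict (Ioi 0)).withDensity fun y : ℝ =>
    ENNReal.ofReal (C⁻¹ * y ^ (-11 / 4 : ℝ))).map (MeasurableEquiv.neg ℝ) := ⟨_, rfl⟩
  have hm : Measurable fun y : ℝ => ENNReal.ofReal (C⁻¹ * y ^ (-11 / 4 : ℝ)) := by fun_prop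
  have hd : ∀ g : ℝ → ℝ, (fun y => (ENNReal.ofReal (C⁻¹ * y ^ (-11 / 4 : ℝ))).toReal • g (-y)) =ᵐ[
      volume.restrict (Ioi 0)] fun y => C⁻¹ * (y ^ (-11 / 4 : ℝ) * g (-y)) := fun g =>
    ae_restrict_of_forall_mem measurableSet_Ioi fun y (hy : 0 < y) => by
      simp only [smul_eq_mul]
      rw [ENNReal.toReal_ofReal (by positivity), mul_assoc]
  have hI : ∀ g : ℝ → ℝ, Integrable g μ ↔
      IntegrableOn (fun y => y ^ (-11 / 4 : ℝ) * g (-y)) (Ioi 0) := fun g => by
    rw [hμ, integrable_map_equiv, integrable_withDensity_iff_integrable_smul' hm (by simp)]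
    exact (integrable_congr (hd g)).trans (integrable_const_mul_iff (by simp [hC0.ne']) _)
  have hJ : ∀ g : ℝ → ℝ, ∫ x, g x ∂μ = C⁻¹ * ∫ y in Ioi 0, y ^ (-11 / 4 : ℝ) * g (-y) := fun g => by
    rw [hμ, integral_map_equiv, integral_withDensity_eq_integral_toReal_smul hm (by simp),
      ← integral_const_mul]
    exact integral_congr_ae (hd g)
  have hδ : ∀ g : ℝ → ℝ, Integrable g (Measure.dirac (-1)) := fun g => integrable_dirac (by simp)
  have h1 : Integrable (fun x : ℝ => min 1 (x ^ 2)) (μ + Measure.dirac (-1)) :=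
    ((hI _).mpr (st_int (by fun_prop) (K := 1) fun y hy => by
      rw [abs_of_nonneg (by positivity), one_mul, neg_sq, le_min_iff]
      refine ⟨min_le_iff.mpr ?_, min_le_right _ _⟩
      by_contra! h
      nlinarith)).add_measure (hδ _)
  have h2 : IntegrableOn (fun y : ℝ => y ^ (-11 / 4 : ℝ) * if y < 1 then 0 else y) (Ioi 0) :=
    st_int (Measurable.ite measurableSet_Iio (by fun_prop) (by fun_prop)) (K := 1) fun y hy => by
      split_ifs with h
      · simp only [abs_zero]; positivity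
      · rw [abs_of_pos hy, one_mul, le_min_iff]
        exact ⟨le_rfl, by nlinarith [not_lt.mp h]⟩
  have h3 : ContDiffOn ℝ (0 + 2 : ℕ) (fun x => P (3 / 4) x + G (5 / 2) x) (Ioi 0) := by
    refine ContDiffOn.add (((contDiffOn_id.rpow_const_of_ne (p := 3 / 4) fun x hx =>
      ne_of_gt hx).div_const (Gamma (3 / 4 + 1))).congr fun x (hx : 0 < x) => by
        simp only [P, max_eq_left hx.le, id]) (ContDiff.contDiffOn ?_)
    have h4 := G_deriv (a := 5 / 2) (by norm_num)
    have h5 := G_deriv (a := 5 / 2 - 1) (by norm_num)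
    rw [show ((0 + 2 : ℕ) : WithTop ℕ∞) = 1 + 1 by norm_num, contDiff_succ_iff_deriv,
      contDiff_one_iff_deriv, h4.2, h5.2]
    exact ⟨h4.1, by simp, h5.1, G_cont (by norm_num)⟩
  have h4 := (H (μ + Measure.dirac (-1)) (C⁻¹ * ∫ y in Ioi (0 : ℝ), y ^ (-11 / 4 : ℝ) *
    if y < 1 then 0 else y) _ ?_ h1.lintegral_lt_top ?_ h3.continuousOn ⟨4, fun β hβ => ?_⟩ 0).mp h3
  · clear H
    have h5 := ((h4.continuousOn.continuousAt (Ioi_mem_nhds one_pos)).eventually
      (gt_mem_nhds (lt_add_one _))).and (Ioi_mem_nhds (show (1 / 2 : ℝ) < 1 by norm_num))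
    obtain ⟨y, hy1, hy2, hy3⟩ := ((h5.filter_mono nhdsWithin_le_nhds).and
      (self_mem_nhdsWithin (s := Iio 1))).exists.imp fun _ h => and_assoc.mp h
    have hy4 : (1 / 2 : ℝ) < y := hy2
    have hy5 : y < 1 := hy3
    have h6 : (μ + Measure.dirac (-1) : Measure ℝ) (Iio (-y)) < ⊤ := lt_of_le_of_lt (measure_mono
      fun x (hx : x < -y) => show (1 / 4 : ℝ) ≤ min 1 (x ^ 2) from le_min (by norm_num)
        (by nlinarith)) (h1.measure_ge_lt_top (ε := 1 / 4) (by norm_num))
    have h7 : μ (Iio (-1)) ≤ μ (Iio (-y)) := measure_mono (Iio_subset_Iio (by linarith))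
    simp only [Measure.add_apply, Measure.dirac_apply, indicator_of_notMem self_notMem_Iio,
      indicator_of_mem (show (-1 : ℝ) ∈ Iio (-y) from neg_lt_neg hy5), add_zero, Pi.one_apply,
      ENNReal.add_lt_top] at h6 hy1
    rw [ENNReal.toReal_add h6.1.ne h6.2.ne, ENNReal.toReal_one] at hy1
    linarith [ENNReal.toReal_mono h6.1.ne h7]
  · rw [Measure.add_apply, hμ, MeasurableEquiv.map_apply, withDensity_absolutelyContinuous _ _ (by
      rw [Measure.restrict_apply' measurableSet_Ioi, show (MeasurableEquiv.neg ℝ) ⁻¹' Ici 0 ∩ Ioi 0 =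
        ∅ from eq_empty_of_forall_notMem fun x hx => by
          have h1 : 0 ≤ -x := hx.1
          have h2 : 0 < x := hx.2
          linarith, measure_empty])]
    simp
  · clear H
    by_contra h
    have h5 : IntegrableOn (fun x : ℝ => |x|) (Ioo (-1) 0) (μ + Measure.dirac (-1)) :=
      (lintegral_ofReal_ne_top_iff_integrable (Continuous.aestronglyMeasurable (by fun_prop))
        (.of_forall fun _ => abs_nonneg _)).mp h
    rw [← integrable_indicator_iff measurableSet_Ioo] at h5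
    have h6 := (((hI _).mp h5.left_of_add_measure).mono_set
      (show Ioo (0 : ℝ) 1 ⊆ Ioi 0 from Ioo_subset_Ioi_self)).congr_fun (g := fun y => y ^ (-11 / 4 + (1 : ℕ) : ℝ))
        (fun y hy => by
          simp only
          rw [indicator_of_mem (show -y ∈ Ioo (-1 : ℝ) 0 from ⟨by linarith [hy.2], by linarith [hy.1]⟩),
            abs_neg, abs_of_pos hy.1, rpow_add_natCast hy.1.ne', pow_one]) measurableSet_Ioo
    rw [intervalIntegral.integrableOn_Ioo_rpow_iff one_pos] at h6
    norm_num at h6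
  · clear H
    have h0 : 0 < β := by linarith
    have h5 : (fun y : ℝ => y ^ (-11 / 4 : ℝ) * (exp (β * -y) - 1 - if -1 < -y then β * -y else 0)) =
        fun y => y ^ (-11 / 4 : ℝ) * (exp (-(β * y)) - 1 + β * y) -
          β * (y ^ (-11 / 4 : ℝ) * if y < 1 then 0 else y) := funext fun y => by
      simp only [neg_lt_neg_iff, mul_neg]
      split_ifs <;> ring
    have h6 := integral_comp_mul_left_Ioi (fun y => y ^ (-11 / 4 : ℝ) *
      (exp (-(1 * y)) - 1 + 1 * y)) 0 h0
    rw [mul_zero, ← hC, setIntegral_congr_fun measurableSet_Ioi (g := fun y => β ^ (-11 / 4 : ℝ) *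
      (y ^ (-11 / 4 : ℝ) * (exp (-(β * y)) - 1 + β * y))) fun y hy => by
        simp only [one_mul, mul_rpow h0.le (le_of_lt hy), mul_assoc], integral_const_mul,
      ← eq_inv_mul_iff_mul_eq₀ (by positivity)] at h6
    refine ⟨(W_lap hβ).1, (W_lap hβ).2.trans ?_⟩
    rw [integral_add_measure ((hI _).mpr (by rw [h5]; exact (E_int h0).sub (h2.const_mul _)))
      (hδ _), hJ, h5, integral_sub (E_int h0) (h2.const_mul _), integral_const_mul, h6,
      integral_dirac, ← rpow_neg h0.le, show (-(-11 / 4) : ℝ) = 7 / 4 + (1 : ℕ) by norm_num,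
      rpow_add_natCast h0.ne']
    simp only [lt_self_iff_false, if_false, mul_neg, mul_one, smul_eq_mul]
    congr 1
    field_simp
    ring

end Pool.Agent.S19138
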