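import Pool.Statements.S19194
import Pool.Agent.H29.Queue2

set_option autoImplicit false
open MeasureTheory ProbabilityTheory
open Pool Pool.MP_1c00b2_pr

namespace Pool.Agent.S19194

theorem result :
    ¬ (∀ (Ω : Type) [MeasurableSpace Ω] (μ : Measure Ω) [IsProbabilityMeasure μ]
    (k : ℕ) (T S : ℕ → Ω → ℝ) (V : ℕ → Ω → Fin k → ℝ) (ρ : ℝ),
    0 < k →
    (∀ n, Measurable (T n)) → (∀ n, Measurable (S n)) →
    iIndepFun (fun n ω => (T n ω, S n ω)) μ →
    (∀ n, IndepFun (T n) (S n) μ) →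
    (∀ n, IdentDistrib (T n) (T 0) μ μ) →
    (∀ n, IdentDistrib (S n) (S 0) μ μ) →
    (∀ n ω, 0 ≤ T n ω) → (∀ n ω, 0 ≤ S n ω) →
    MemLp (T 0) 2 μ → MemLp (S 0) 2 μ →
    0 < ∫ ω, T 0 ω ∂μ →
    ρ = (∫ ω, S 0 ω ∂μ) / ((k : ℝ) * ∫ ω, T 0 ω ∂μ) →
    ρ < 1 →
    (∀ ω i, V 0 ω i = 0) →
    (∀ n ω, ∃ j : Fin k, (∀ i, V n ω j ≤ V n ω i) ∧
        ∀ i, V (n + 1) ω i = max 0 (V n ω i + (if i = j then S n ω else 0) - T n ω)) →
    ∀ n, ∫⁻ ω, ENNReal.ofReal (⨅ i, V n ω i) ∂μ ≤
      ENNReal.ofReal ((ρ * (2 - ρ) * variance (T 0) μ + variance (S 0) μ / ((k : ℝ) ^ 2)) /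
        (2 * (1 - ρ) * ∫ ω, T 0 ω ∂μ))) := by
  intro H
  let X : ℕ → Bool → ℝ × ℝ := fun _ b => (4, Pool.Agent.H29.Queue.sw b)
  open Pool.Agent.H29.Queue in
  have h0 : iIndepFun (fun i (ω : Om) => ω i) mu :=
    iIndepFun_infinitePi (X := fun _ ω => ω) (by fun_prop)
  open Pool.Agent.H29.Queue in
  have hi : iIndepFun (fun (i : ℕ) (ω : Om) => X i (ω (.inr i))) mu :=
    (h0.precomp (g := Sum.inr) Sum.inr_injective).comp X fun _ => measurable_of_finite _
  open Pool.Agent.H29.Queue in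
  have hS : ∀ n, Measurable fun ω : Om => sw (ω (.inr n)) := fun n =>
    (measurable_of_finite sw).comp (measurable_pi_apply _)
  open Pool.Agent.H29.Queue in
  have e : ∫ ω : Om, sw (ω (.inr 0)) ∂mu = 143 / 20 := by rw [mu_int]; norm_num [sw]
  open Pool.Agent.H29.Queue in
  have key := H Om mu 2 (fun _ _ => 4) (fun n ω => sw (ω (.inr n))) V2 (143 / 160) (by norm_num)
    (fun _ => measurable_const) hS hi (fun _ => indepFun_const_left _ _)
    (fun n => IdentDistrib.refl measurable_const.aemeasurable)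
    (fun n => IdentDistrib.comp (f := fun ω : Om => ω (.inr n)) (g := fun ω : Om => ω (.inr 0))
      ⟨(mp _).measurable.aemeasurable, (mp _).measurable.aemeasurable,
        by rw [(mp _).map_eq, (mp _).map_eq]⟩ (measurable_of_finite sw))
    (fun _ _ => by norm_num) (fun n ω => by unfold sw; split_ifs <;> norm_num)
    (memLp_const _)
    (MemLp.of_bound (hS 0).aestronglyMeasurable 10 (Filter.Eventually.of_forall fun ω => by
      unfold sw; split_ifs <;> norm_num))
    (by simp) (by rw [e]; simp; norm_num) (by norm_num) (fun _ _ => rfl)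
    (fun n ω => ⟨if V2 n ω 0 ≤ V2 n ω 1 then 0 else 1, fun j => by
      split_ifs with h <;> fin_cases j
      · exact le_rfl
      · exact h
      · exact (not_le.1 h).le
      · exact le_rfl, fun _ => rfl⟩) 4
  open Pool.Agent.H29.Queue in
  have := V2_int.trans key
  open Pool.Agent.H29.Queue in
  rw [sw_var, variance_eq_integral measurable_const.aemeasurable] at this
  simp only [integral_const, probReal_univ, smul_eq_mul, one_mul, sub_self] at this
  rw [ENNReal.ofReal_le_ofReal_iff (by norm_num)] at this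
  norm_num at this

end Pool.Agent.S19194
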