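import Pool.Statements.S19196
import Pool.Agent.H31.EntLC

set_option autoImplicit false
open Pool Pool.MP_1d7c3b_pr

namespace Pool.Agent.S19196

/-- The negation of the preceding statement: For i.i.d. X_1..X_n with a symmetric log-concave density and real d with sum of d_i^2 equal to 1, the differential entropy of the sum of d_i X_i is at most that of the sum of X_i/sqrt(n). -/
theorem result :
    ¬ (∀ (n : ℕ), 0 < n → ∀ (f : ℝ → ℝ), (∀ x, 0 ≤ f x) → (∀ x, f (-x) = f x) →
      (∀ x y t : ℝ, 0 ≤ t → t ≤ 1 →
        f x ^ t * f y ^ (1 - t) ≤ f (t * x + (1 - t) * y)) →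
      MeasureTheory.Integrable f → ∫ x, f x = 1 →
      ∀ (Ω : Type) [MeasureTheory.MeasureSpace Ω]
        [MeasureTheory.IsProbabilityMeasure (MeasureTheory.volume : MeasureTheory.Measure Ω)]
        (X : Fin n → Ω → ℝ),
        (∀ i, Measurable (X i)) →
        ProbabilityTheory.iIndepFun X (MeasureTheory.volume : MeasureTheory.Measure Ω) →
        (∀ i, MeasureTheory.Measure.map (X i) (MeasureTheory.volume : MeasureTheory.Measure Ω)
            = MeasureTheory.volume.withDensity (fun x => ENNReal.ofReal (f x))) →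
        ∀ d : Fin n → ℝ, ∑ i, d i ^ 2 = 1 →
          ∫ x, Real.negMulLog
              (((MeasureTheory.Measure.map (fun ω => ∑ i, d i * X i ω)
                (MeasureTheory.volume : MeasureTheory.Measure Ω)).rnDeriv
                  MeasureTheory.volume x).toReal)
            ≤ ∫ x, Real.negMulLog
              (((MeasureTheory.Measure.map (fun ω => ∑ i, (1 / Real.sqrt n) * X i ω)
                (MeasureTheory.volume : MeasureTheory.Measure Ω)).rnDeriv
                  MeasureTheory.volume x).toReal)) := by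
  intro h
  open MeasureTheory ProbabilityTheory Pool.Agent.H31.EntLC in
  have hi : iIndepFun (fun (i : Fin 2) (ω : Fin 2 → ℝ) => ω i)
      (Measure.pi fun _ : Fin 2 => W r0) :=
    iIndepFun_pi (X := fun _ x => x) (fun _ => measurable_id.aemeasurable)
  open MeasureTheory ProbabilityTheory Pool.Agent.H31.EntLC in
  have hl : ∀ i : Fin 2, Measure.map (fun ω : Fin 2 → ℝ => ω i)
      (Measure.pi fun _ : Fin 2 => W r0) = W r0 :=
    fun i => (measurePreserving_eval (fun _ : Fin 2 => W r0) i).map_eq
  open MeasureTheory ProbabilityTheory Pool.Agent.H31.EntLC in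
  have key := @h 2 (by norm_num) (fun x => g x * r0 x)
    (fun x => mul_nonneg (g_pos x).le (r0_nonneg x)) f_even logconcave
    (integrable_gr r0 r0_cont r0_nonneg r0_le) int_gr0 (Fin 2 → ℝ)
    ⟨Measure.pi fun _ : Fin 2 => W r0⟩
    (inferInstanceAs (IsProbabilityMeasure (Measure.pi fun _ : Fin 2 => W r0)))
    (fun i ω => ω i) (fun i => measurable_pi_apply i) hi hl ![4 / 5, 3 / 5]
    (by simp [Fin.sum_univ_two]; norm_num)
  have hc : (1 / Real.sqrt ((2 : ℕ) : ℝ)) ^ 2 = 1 / 2 := by
    rw [div_pow, Real.sq_sqrt (by norm_num)]; norm_num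
  have := Pool.Agent.H31.EntLC.main (measurable_pi_apply 0) (measurable_pi_apply 1)
    (hi.indepFun (show (0 : Fin 2) ≠ 1 by decide)) (hl 0) (hl 1) _ hc
  simp only [Fin.sum_univ_two, Matrix.cons_val_zero, Matrix.cons_val_one] at key
  exact absurd key (not_le.2 this)

end Pool.Agent.S19196
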