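import Pool.Statements.S19204

set_option autoImplicit false
open MeasureTheory
open Pool Pool.MP_218893_pr

namespace Pool.Agent.S19204

def v (a : Fin 17) : ℤ := [0, 0, 3, 4, 4, 4, 4, 6, 6, 6, 8, 9, 11, 12, 12, 12, 12].getD a.1 0

def cnt (w0 w1 w2 k : ℤ) : ℕ :=
  ∑ a : Fin 17, ∑ b : Fin 17, ∑ c : Fin 17, if w0 * v a + w1 * v b + w2 * v c = k then 1 else 0

def SS (F : ℤ → ℕ) : ℕ := 2 * F 0 + F 3 + 4 * F 4 + 3 * F 6 + F 8 + F 9 + F 11 + 4 * F 12

lemma sum_v (F : ℤ → ℕ) : ∑ a : Fin 17, F (v a) = SS F := by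
  simp [Fin.sum_univ_succ, v, SS]
  ring

def cnt' (w0 w1 w2 k : ℤ) : ℕ :=
  SS fun x => SS fun y => SS fun z => if w0 * x + w1 * y + w2 * z = k then 1 else 0

lemma cnt_eq (w0 w1 w2 k : ℤ) : cnt w0 w1 w2 k = cnt' w0 w1 w2 k := by
  unfold cnt cnt'
  rw [← sum_v]
  refine Finset.sum_congr rfl fun a _ => ?_
  rw [← sum_v]
  refine Finset.sum_congr rfl fun b _ => ?_
  rw [← sum_v]

lemma cnt_big : cnt 2 1 2 36 = 396 := by rw [cnt_eq]; decide +kernel

lemma cnt_small' : ∀ w0 ∈ [(1 : ℤ), -1], ∀ w1 ∈ [(1 : ℤ), -1], ∀ w2 ∈ [(1 : ℤ), -1],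
    ∀ j ∈ List.range 73, cnt' w0 w1 w2 ((j : ℤ) - 36) ≤ 389 := by decide +kernel

lemma cnt_small : ∀ w0 ∈ [(1 : ℤ), -1], ∀ w1 ∈ [(1 : ℤ), -1], ∀ w2 ∈ [(1 : ℤ), -1],
    ∀ j ∈ List.range 73, cnt w0 w1 w2 ((j : ℤ) - 36) ≤ 389 := by
  simp only [cnt_eq]; exact cnt_small'

lemma v_bd : ∀ a, 0 ≤ v a ∧ v a ≤ 12 := by decide

lemma cnt_le (w0 w1 w2 k : ℤ) (h0 : w0 = 1 ∨ w0 = -1) (h1 : w1 = 1 ∨ w1 = -1)
    (h2 : w2 = 1 ∨ w2 = -1) : cnt w0 w1 w2 k ≤ 389 := by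
  by_cases hk : -36 ≤ k ∧ k ≤ 36
  · have := cnt_small w0 (by simpa using h0) w1 (by simpa using h1) w2 (by simpa using h2)
      (k + 36).toNat (List.mem_range.2 (by omega))
    rwa [show (((k + 36).toNat : ℕ) : ℤ) - 36 = k by omega] at this
  · have : cnt w0 w1 w2 k = 0 := by
      refine Finset.sum_eq_zero fun a _ => Finset.sum_eq_zero fun b _ =>
        Finset.sum_eq_zero fun c _ => if_neg ?_
      have ha := v_bd a
      have hb := v_bd b
      have hc := v_bd c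
      rcases h0 with rfl | rfl <;> rcases h1 with rfl | rfl <;> rcases h2 with rfl | rfl <;> omega
    omega

noncomputable def ν : Measure (Fin 17) := (17 : ENNReal)⁻¹ • Measure.count

instance : IsProbabilityMeasure ν := ⟨by
  simp only [ν, Measure.smul_apply, Measure.count_univ, smul_eq_mul, ENat.card_eq_coe_fintype_card,
    Fintype.card_fin]
  exact ENNReal.inv_mul_cancel (by norm_num) (by norm_num)⟩

def g (a : Fin 17) : Fin 1 → ℤ := fun _ => v a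

noncomputable def μ0 : Measure (Fin 1 → ℤ) := ν.map g

instance : IsProbabilityMeasure μ0 :=
  Measure.isProbabilityMeasure_map (measurable_of_finite g).aemeasurable

def e3 : (Fin 17 × Fin 17 × Fin 17) ≃ (Fin 3 → Fin 17) where
  toFun p := ![p.1, p.2.1, p.2.2]
  invFun ω := (ω 0, ω 1, ω 2)
  left_inv _ := rfl
  right_inv ω := by funext i; fin_cases i <;> rfl

lemma meas (w0 w1 w2 k : ℤ) (s : Set (Fin 3 → Fin 1 → ℤ))
    (hs : ∀ ω, ω ∈ s ↔ w0 * ω 0 0 + w1 * ω 1 0 + w2 * ω 2 0 = k) :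
    Measure.pi (fun _ : Fin 3 => μ0) s = (cnt w0 w1 w2 k : ENNReal) * (17 : ENNReal)⁻¹ ^ 3 := by
  have h1 : Measure.pi (fun _ : Fin 3 => μ0)
      = (Measure.pi (fun _ : Fin 3 => ν)).map (fun ω i => g (ω i)) :=
    (Measure.pi_map_pi (fun _ => (measurable_of_finite g).aemeasurable)).symm
  rw [h1, Measure.map_apply (measurable_of_finite _) (Set.to_countable s).measurableSet]
  have h2 : (fun (ω : Fin 3 → Fin 17) i => g (ω i)) ⁻¹' s
      = ↑(Finset.univ.filter fun ω : Fin 3 → Fin 17 =>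
        w0 * v (ω 0) + w1 * v (ω 1) + w2 * v (ω 2) = k) := by
    ext ω
    simp [hs, g]
  have h3 : ∀ ω : Fin 3 → Fin 17, Measure.pi (fun _ : Fin 3 => ν) {ω} = (17 : ENNReal)⁻¹ ^ 3 := by
    intro ω
    rw [← Set.univ_pi_singleton, Measure.pi_pi]
    simp [ν]
  rw [h2, ← sum_measure_singleton]
  simp only [h3, Finset.sum_const, nsmul_eq_mul]
  have h4 : (Finset.univ.filter fun ω : Fin 3 → Fin 17 =>
        w0 * v (ω 0) + w1 * v (ω 1) + w2 * v (ω 2) = k).card = cnt w0 w1 w2 k := by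
    rw [Finset.card_filter, ← e3.sum_comp, Fintype.sum_prod_type]
    unfold cnt
    refine Finset.sum_congr rfl fun a _ => ?_
    rw [Fintype.sum_prod_type]
    refine Finset.sum_congr rfl fun b _ => Finset.sum_congr rfl fun c _ => ?_
    simp [e3]
  rw [h4]


/-- The negation of the preceding statement: For every law μ on ℤ^d and iid X₁..Xₙ ~ μ, some signs wᵢ ∈ {±1} satisfy P(∑aᵢXᵢ = x) ≤ max over k ∈ ℤ^d of P(∑wᵢXᵢ = k), for all nonzero real aᵢ and all x ∈ ℝ^d. -/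
theorem result :
    ¬ (∀ (n d : ℕ) (μ : Measure (Fin d → ℤ)) [IsProbabilityMeasure μ],
      ∃ w : Fin n → ℤ, (∀ i, w i = 1 ∨ w i = -1) ∧
        ∀ a : Fin n → ℝ, (∀ i, a i ≠ 0) → ∀ x : Fin d → ℝ,
          Measure.pi (fun _ : Fin n => μ)
              {ω : Fin n → Fin d → ℤ | ∑ i, a i • (fun j => ((ω i j : ℤ) : ℝ)) = x}
            ≤ ⨆ k : Fin d → ℤ, Measure.pi (fun _ : Fin n => μ)
              {ω : Fin n → Fin d → ℤ | ∑ i, w i • ω i = k}) := by
  intro h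
  obtain ⟨w, hw, h2⟩ := h 3 1 μ0
  have h3 := h2 ![2, 1, 2] (by intro i; fin_cases i <;> simp) (fun _ => 36)
  rw [meas 2 1 2 36 _ (by
    intro ω
    simp only [Set.mem_ofPred_eq, Fin.sum_univ_three, funext_iff, Fin.forall_fin_one, Pi.add_apply,
      Pi.smul_apply, smul_eq_mul]
    simp only [Matrix.cons_val_zero, Matrix.cons_val_one, Matrix.cons_val]
    constructor
    · intro hh; exact_mod_cast hh
    · intro hh; exact_mod_cast hh), cnt_big] at h3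
  have h4 : (⨆ k : Fin 1 → ℤ, Measure.pi (fun _ : Fin 3 => μ0)
      {ω : Fin 3 → Fin 1 → ℤ | ∑ i, w i • ω i = k}) ≤ (389 : ℕ) * (17 : ENNReal)⁻¹ ^ 3 := by
    refine iSup_le fun k => ?_
    rw [meas (w 0) (w 1) (w 2) (k 0) _ (by
      intro ω
      simp only [Set.mem_ofPred_eq, Fin.sum_univ_three, funext_iff, Fin.forall_fin_one,
        Pi.add_apply, Pi.smul_apply, smul_eq_mul])]
    gcongr
    exact cnt_le _ _ _ _ (hw 0) (hw 1) (hw 2)
  have h5 := h3.trans h4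
  rw [ENNReal.mul_le_mul_iff_left (by simp) (by simp)] at h5
  norm_num at h5

end Pool.Agent.S19204
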