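import Pool.Statements.S19209
import Pool.Agent.H22.Cyc6

set_option autoImplicit false
open MeasureTheory ProbabilityTheory
open Pool Pool.MP_240aa8_pr

namespace Pool.Agent.S19209
open Pool.Agent.H22.Cyc

lemma inv {X : Type} [Fintype X] [MeasurableSpace X] [MeasurableSingletonClass X] {μ : Measure X}
    {p : X → ℝ} (h : ∀ x, μ {x} = .ofReal (p x)) (τ : X ≃ X) (h1 : ∀ x, p (τ x) = p x) :
    μ.map τ = μ := Measure.ext_iff_singleton.2 fun x => by
  rw [Measure.map_apply .of_discrete .of_discrete, Equiv.preimage_eq_iff_eq_image τ _ _ |>.2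
    (by rw [Set.image_singleton, τ.apply_symm_apply] : {x} = τ '' {τ.symm x}), h, h, ← h1,
    τ.apply_symm_apply]

lemma adj {m : ℕ} {X : Type} {x : Fin (m + 3) → X} (h : ∀ i, x i ≠ x (i + 1)) {i j : Fin (m + 3)}
    (h1 : (SimpleGraph.cycleGraph (m + 3)).Adj i j) : x i ≠ x j := by
  rcases SimpleGraph.cycleGraph_adj.1 h1 with h2 | h2
  · rw [eq_add_of_sub_eq' h2]
    exact (h j).symm
  · rw [eq_add_of_sub_eq' h2]
    exact h i


/-- Whenever k≥1,q≥5 or k≥2,q≥4 or k≥3,q≥3, every n-cycle with n≥3 has a random proper q-coloring whose law is invariant under color permutations and whose restrictions to vertex sets more than k apart are independent. -/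
theorem result :
    ∀ k q : ℕ, ((1 ≤ k ∧ 5 ≤ q) ∨ (2 ≤ k ∧ 4 ≤ q) ∨ (3 ≤ k ∧ 3 ≤ q)) →
      ∀ n : ℕ, 3 ≤ n →
        ∃ μ : Measure (Fin n → Fin q), IsProbabilityMeasure μ ∧
          (∀ᵐ x ∂μ, ∀ i j : Fin n, (SimpleGraph.cycleGraph n).Adj i j → x i ≠ x j) ∧
          (∀ σ : Equiv.Perm (Fin q), μ.map (fun x : Fin n → Fin q => σ ∘ x) = μ) ∧
          (∀ A B : Set (Fin n),
            (∀ a ∈ A, ∀ b ∈ B, k < (SimpleGraph.cycleGraph n).dist a b) →
            IndepFun (fun x : Fin n → Fin q => fun a : A => x a)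
              (fun x : Fin n → Fin q => fun b : B => x b) μ) := by
  intro k q hq n hn
  obtain ⟨m, rfl⟩ : ∃ m, n = m + 3 := ⟨n - 3, by omega⟩
  by_cases h4 : 4 ≤ q
  · obtain ⟨p, h0, h1, h2, h3, h5⟩ := pmf (α := Fin q) (by simpa) m
    obtain ⟨μ, _, h6, h7⟩ := meas h0 h1 h5
    exact ⟨μ, inferInstance, ae_iff_of_countable.2 fun x hx i j => adj fun i h => hx
      (by simp [h6, h2 x i h]), fun σ => inv h6 (Equiv.arrowCongr (.refl _) σ) (h3 σ),
      fun A B h => h7 A B fun a ha b hb => lt_of_le_of_lt (by omega) (h a ha b hb)⟩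
  obtain rfl : q = 3 := by omega
  obtain ⟨p, h0, h1, h2, h3, h5⟩ := pmf (α := Option (Fin 3)) (by simp) m
  obtain ⟨h6, h7⟩ := h5.prod (β := Equiv.Perm (Fin 3))
  let _ : MeasurableSpace (Option (Fin 3) × Equiv.Perm (Fin 3)) := ⊤
  have : MeasurableSingletonClass (Option (Fin 3) × Equiv.Perm (Fin 3)) := ⟨fun _ => trivial⟩
  obtain ⟨μ, _, h8, h9⟩ := meas (fun y => div_nonneg (h0 _) (by positivity))
    (by simpa [h1] using h6 1) h7
  set H := SimpleGraph.cycleGraph (m + 3)
  let Φ : (Fin (m + 3) → Option (Fin 3) × Equiv.Perm (Fin 3)) → Fin (m + 3) → Fin 3 := fun y i =>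
    (y i).1.getD ((y i).2 (Classical.epsilon fun c => ∀ j, H.Adj i j → (y j).1 ≠ some ((y i).2 c)))
  have hΦ : ∀ y i j, (y i).1 = none → H.Adj i j → (y j).1 ≠ some (Φ y i) := fun y i j h => by
    obtain ⟨d, hd⟩ := (by decide : ∀ u v : Option (Fin 3), ∃ d, u ≠ some d ∧ v ≠ some d)
      (y (i - 1)).1 (y (i + 1)).1
    simp only [Φ, h, Option.getD_none]
    refine Classical.epsilon_spec (p := fun c => ∀ j, H.Adj i j → (y j).1 ≠ some ((y i).2 c))
      ⟨(y i).2.symm d, fun j hj => ?_⟩ j
    rw [Equiv.apply_symm_apply]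
    rcases SimpleGraph.cycleGraph_adj.1 hj with h2 | h2
    · rw [← sub_eq_of_eq_add' (eq_add_of_sub_eq h2)]
      exact hd.1
    · rw [eq_add_of_sub_eq' h2]
      exact hd.2
  refine ⟨μ.map Φ, Measure.isProbabilityMeasure_map Measurable.of_discrete.aemeasurable,
    (ae_map_iff Measurable.of_discrete.aemeasurable .of_discrete).2
      (ae_iff_of_countable.2 fun y hy i j hij => ?_), fun σ => ?_, fun A B h => ?_⟩
  · have h10 := adj (x := fun i => (y i).1) (fun i h => hy (by simp [h8, h2 (fun i => (y i).1) i h])) hij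
    have h11 := fun h => hΦ y i j h hij
    have h12 := fun h => hΦ y j i h hij.symm
    rcases h13 : (y i).1 with _ | a <;> rcases h14 : (y j).1 with _ | b
    · exact absurd (h13.trans h14.symm) h10
    · exact fun h => h11 h13 (by simp [h, Φ, h14])
    · exact fun h => h12 h14 (by simp [← h, Φ, h13])
    · simpa [Φ, h13, h14] using h10
  · let τ := Equiv.arrowCongr (.refl (Fin (m + 3))) (σ.optionCongr.prodCongr (Equiv.mulLeft σ))
    have := inv h8 τ fun y => congrArg (· / _) (h3 σ.optionCongr fun i => (y i).1)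
    conv_rhs => rw [← this]
    rw [Measure.map_map .of_discrete .of_discrete, Measure.map_map .of_discrete .of_discrete]
    refine congrArg (Measure.map · μ) (funext fun y => funext fun i => ?_)
    simp [Φ, τ]
  · let N : Set (Fin (m + 3)) → Set (Fin (m + 3)) := fun A => {j | ∃ a ∈ A, H.dist a j ≤ 1}
    have h10 := h9 (N A) (N B) fun i ⟨a, ha, hi⟩ j ⟨b, hb, hj⟩ => by
      have := h a ha b hb
      have hc : H.Connected := SimpleGraph.cycleGraph_connected
      have h1 := hc.dist_triangle (u := a) (v := i) (w := b)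
      have h2 := hc.dist_triangle (u := i) (v := j) (w := b)
      rw [SimpleGraph.dist_comm] at hj
      omega
    classical
    let ψ : ∀ A : Set (Fin (m + 3)), (N A → Option (Fin 3) × Equiv.Perm (Fin 3)) → A → Fin 3 :=
      fun A z a => Φ (fun j => if h : j ∈ N A then z ⟨j, h⟩ else (none, 1)) a
    have h11 : ∀ A, (ψ A ∘ fun y (j : N A) => y j) = (fun x (a : A) => x a) ∘ Φ := fun A => by
      ext1 y
      ext1 a
      have h1 : a.1 ∈ N A := ⟨a, a.2, by simp⟩
      have h2 : ∀ j, H.Adj a j → j ∈ N A := fun j hj =>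
        ⟨a, a.2, (SimpleGraph.dist_eq_one_iff_adj.2 hj).le⟩
      simp only [ψ, Φ, Function.comp, dif_pos h1]
      congr 3
      exact funext fun c => propext (forall₂_congr fun j hj => by rw [dif_pos (h2 j hj)])
    have h12 := h10.comp (φ := ψ A) (ψ := ψ B) .of_discrete .of_discrete
    rw [h11, h11, indepFun_iff_measure_inter_preimage_eq_mul] at h12
    rw [indepFun_iff_measure_inter_preimage_eq_mul]
    intro s t hs ht
    simp only [Measure.map_apply (Measurable.of_discrete (f := Φ)) .of_discrete]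
    exact h12 s t hs ht

end Pool.Agent.S19209
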