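import Pool.Statements.S19221
import Pool.Agent.H27.DyadB

set_option autoImplicit false
open Classical
open Pool Pool.MP_27a786_pr

namespace Pool.Agent.S19221

/-- For every d ≥ 4, the infimum of p in [0,1] for which the probability that independently p-available order-n dyadic tiles of [0,1]^d contain a tiling tends to 1 as n→∞ is strictly positive. -/
theorem result :
  ∀ d : ℕ, 4 ≤ d →
    0 < sInf {p : ℝ | p ∈ Set.Icc (0 : ℝ) 1 ∧
      Filter.Tendsto (fun n : ℕ =>
        ∑ A ∈ ((Finset.univ : Finset ((Fin d → Fin (n + 1)) × (Fin d → Fin (2 ^ n)))).filter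
                (fun x => ∑ k, (x.1 k : ℕ) = n ∧ ∀ k, (x.2 k : ℕ) < 2 ^ (x.1 k : ℕ))).powerset,
          if (∃ S ⊆ A,
                (⋃ x ∈ S, Set.pi Set.univ (fun k => Set.Icc (((x.2 k : ℕ) : ℝ) / 2 ^ (x.1 k : ℕ))
                    ((((x.2 k : ℕ) : ℝ) + 1) / 2 ^ (x.1 k : ℕ)))) = Set.Icc (0 : Fin d → ℝ) 1 ∧
                ∀ x ∈ S, ∀ y ∈ S, x ≠ y →
                  Disjoint
                    (interior (Set.pi Set.univ (fun k => Set.Icc (((x.2 k : ℕ) : ℝ) / 2 ^ (x.1 k : ℕ))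
                      ((((x.2 k : ℕ) : ℝ) + 1) / 2 ^ (x.1 k : ℕ)))))
                    (interior (Set.pi Set.univ (fun k => Set.Icc (((y.2 k : ℕ) : ℝ) / 2 ^ (y.1 k : ℕ))
                      ((((y.2 k : ℕ) : ℝ) + 1) / 2 ^ (y.1 k : ℕ))))))
          then p ^ A.card * (1 - p) ^
              (((Finset.univ : Finset ((Fin d → Fin (n + 1)) × (Fin d → Fin (2 ^ n)))).filter
                (fun x => ∑ k, (x.1 k : ℕ) = n ∧ ∀ k, (x.2 k : ℕ) < 2 ^ (x.1 k : ℕ))).card - A.card)
          else 0)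
        Filter.atTop (nhds 1)} := by
  intro d hd
  have h := Pool.Agent.H27.Dyad.main d hd
  unfold Pool.Agent.H27.Dyad.T Pool.Agent.H27.Dyad.til Pool.Agent.H27.Dyad.Om Pool.Agent.H27.Dyad.box at h
  convert h

end Pool.Agent.S19221
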