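import Pool.Statements.S19285
import Pool.Agent.H5.Gap

set_option autoImplicit false
open MeasureTheory ProbabilityTheory
open scoped NNReal
open Pool Pool.MP_429aeb_pr

namespace Pool.Agent.S19285

/-- There are positive constants c,k1,k2,k3 such that for m≤n, any m×n Ā with Frobenius norm ≤1, 0<σ≤1, x>1, the probability that Ā plus iid N(0,σ²) noise has minimum relative singular-value gap ≤1/x is at most c n^k1 x^-k2 σ^-k3. -/
theorem result :
    ∃ c k₁ k₂ k₃ : ℝ, 0 < c ∧ 0 < k₁ ∧ 0 < k₂ ∧ 0 < k₃ ∧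
      ∀ m n : ℕ, m ≤ n → ∀ Abar : Matrix (Fin m) (Fin n) ℝ,
        (∑ i, ∑ j, Abar i j ^ 2) ≤ 1 →
        ∀ σ : ℝ≥0, 0 < σ → σ ≤ 1 → ∀ x : ℝ, 1 < x →
          (Measure.pi (fun _ : Fin m => Measure.pi (fun _ : Fin n => gaussianReal 0 (σ ^ 2))))
            {G : Fin m → Fin n → ℝ | ∃ j k : Fin m, j ≠ k ∧
              Real.sqrt ((Matrix.isHermitian_mul_conjTranspose_self (Abar + Matrix.of G)).eigenvalues k)
                ≤ Real.sqrt ((Matrix.isHermitian_mul_conjTranspose_self (Abar + Matrix.of G)).eigenvalues j) ∧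
              Real.sqrt ((Matrix.isHermitian_mul_conjTranspose_self (Abar + Matrix.of G)).eigenvalues j)
                - Real.sqrt ((Matrix.isHermitian_mul_conjTranspose_self (Abar + Matrix.of G)).eigenvalues k)
                ≤ Real.sqrt ((Matrix.isHermitian_mul_conjTranspose_self (Abar + Matrix.of G)).eigenvalues k) / x}
            ≤ ENNReal.ofReal (c * (n : ℝ) ^ k₁ * x ^ (-k₂) * (σ : ℝ) ^ (-k₃)) := by
  refine ⟨7, 5, 1 / 2, 1, by norm_num, by norm_num, by norm_num, by norm_num, ?_⟩
  intro m n hmn Abar hA σ hσ hσ1 x hx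
  have hx0 : 0 < x := by linarith
  have hσ' : (0 : ℝ) < σ := hσ
  have hσ1' : (σ : ℝ) ≤ 1 := hσ1
  set t := Real.sqrt x with htdef
  have htt : t ^ 2 = x := Real.sq_sqrt hx0.le
  have ht : 1 ≤ t := Real.one_le_sqrt.2 hx.le
  have hA' : ∀ i j, |Abar i j| ≤ 1 := by
    intro i j
    have h1 : Abar i j ^ 2 ≤ ∑ j, Abar i j ^ 2 :=
      Finset.single_le_sum (f := fun j => Abar i j ^ 2) (fun _ _ => sq_nonneg _) (Finset.mem_univ j)
    have h2 : ∑ j, Abar i j ^ 2 ≤ ∑ i, ∑ j, Abar i j ^ 2 :=
      Finset.single_le_sum (f := fun i => ∑ j, Abar i j ^ 2)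
        (fun _ _ => Finset.sum_nonneg fun _ _ => sq_nonneg _) (Finset.mem_univ i)
    exact (sq_le_one_iff_abs_le_one _).1 (h1.trans (h2.trans hA))
  set P := Measure.pi (fun _ : Fin m => Measure.pi (fun _ : Fin n => gaussianReal 0 (σ ^ 2)))
  have hrhs : 7 * (n : ℝ) ^ (5 : ℝ) * x ^ (-(1 / 2) : ℝ) * (σ : ℝ) ^ (-1 : ℝ)
      = 7 * n ^ 5 / (t * σ) := by
    rw [Real.rpow_neg hx0.le, ← Real.sqrt_eq_rpow, Real.rpow_neg_one,
      show (5 : ℝ) = ((5 : ℕ) : ℝ) by norm_num, Real.rpow_natCast]
    field_simp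
    rfl
  rw [hrhs]
  rcases Nat.eq_zero_or_pos m with rfl | hm
  · refine le_trans (le_of_eq ?_) zero_le
    convert measure_empty (μ := P)
    ext G
    simp
  have hn : (1 : ℝ) ≤ n := by exact_mod_cast hm.trans_le hmn
  have hmn' : (m : ℝ) ≤ n := by exact_mod_cast hmn
  calc _ ≤ P ((⋃ p : Fin m × Fin n, {G | t ≤ |G p.1 p.2|}) ∪ ⋃ r, H5.Gap.Ev Abar t (3 / x) r) := by
        refine measure_mono ?_
        rintro G ⟨j, k, hjk, h1, h2⟩
        by_cases hG : ∃ p : Fin m × Fin n, t ≤ |G p.1 p.2|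
        · exact Or.inl (Set.mem_iUnion.2 hG)
        push Not at hG
        right
        set hM := Matrix.isHermitian_mul_conjTranspose_self (Abar + Matrix.of G)
        obtain ⟨e1, e2, -⟩ := H5.Gap.eig_basis _ hM
        have hpsd := (Matrix.posSemidef_self_mul_conjTranspose (Abar + Matrix.of G)).eigenvalues_nonneg
        have hk : 0 ≤ hM.eigenvalues k := hpsd k
        have hj : 0 ≤ hM.eigenvalues j := hpsd j
        have hkk : dotProduct ⇑(hM.eigenvectorBasis k) ⇑(hM.eigenvectorBasis k) = 1 := by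
          simpa using e2 k k
        have hjj : dotProduct ⇑(hM.eigenvectorBasis j) ⇑(hM.eigenvectorBasis j) = 1 := by
          simpa using e2 j j
        have hkj : dotProduct ⇑(hM.eigenvectorBasis k) ⇑(hM.eigenvectorBasis j) = 0 := by
          simpa [hjk.symm] using e2 k j
        obtain ⟨r, hr⟩ : ∃ r, 1 ≤ (m : ℝ) * (hM.eigenvectorBasis k) r ^ 2 := by
          by_contra hc
          push Not at hc
          have : ∑ l, (m : ℝ) * (hM.eigenvectorBasis k) l ^ 2 < ∑ _l : Fin m, (1 : ℝ) :=
            Finset.sum_lt_sum_of_nonempty ⟨k, Finset.mem_univ _⟩ fun l _ => hc l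
          rw [← Finset.mul_sum] at this
          have h3 : ∑ l, (hM.eigenvectorBasis k) l ^ 2 = 1 := by
            rw [← hkk]
            exact Finset.sum_congr rfl fun l _ => pow_two _
          rw [h3] at this
          simp at this
        have e1' : ∀ i, ((Abar + Matrix.of G) * (Abar + Matrix.of G).transpose).mulVec
            ⇑(hM.eigenvectorBasis i) = hM.eigenvalues i • ⇑(hM.eigenvectorBasis i) := e1
        refine Set.mem_iUnion.2 ⟨r, (⇑(hM.eigenvectorBasis k), ⇑(hM.eigenvectorBasis j)),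
          ⟨hkk, hjj, hkj⟩, fun a b => (hG (a, b)).le, ?_⟩
        dsimp only
        simp only [e1', dotProduct_smul, hkk, hjj, smul_eq_mul, mul_one, true_and]
        refine ⟨(Real.sqrt_le_sqrt_iff hj).1 h1, ?_, hr⟩
        have h4 := Real.sq_sqrt hk
        have h5 := Real.sq_sqrt hj
        set a := Real.sqrt (hM.eigenvalues k)
        set b := Real.sqrt (hM.eigenvalues j)
        have ha : 0 ≤ a := Real.sqrt_nonneg _
        have hb : 0 ≤ b := Real.sqrt_nonneg _
        have hy : 0 < 1 / x := by positivity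
        have hy1 : 1 / x ≤ 1 := by rw [div_le_one hx0]; exact hx.le
        have h6 : b ≤ a * (1 + 1 / x) := by
          have : a / x = a * (1 / x) := by ring
          linarith
        have h7 : b ^ 2 ≤ (a * (1 + 1 / x)) ^ 2 := pow_le_pow_left₀ hb h6 2
        have h8 : (1 + 1 / x) ^ 2 ≤ 1 + 3 / x := by
          have : 3 / x = 3 * (1 / x) := by ring
          nlinarith
        rw [← h4, ← h5]
        rw [mul_pow] at h7
        nlinarith [mul_le_mul_of_nonneg_left h8 (sq_nonneg a)]
    _ ≤ ∑ p : Fin m × Fin n, P {G | t ≤ |G p.1 p.2|} + ∑ r, P (H5.Gap.Ev Abar t (3 / x) r) :=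
        (measure_union_le _ _).trans
          (add_le_add (measure_iUnion_fintype_le _ _) (measure_iUnion_fintype_le _ _))
    _ ≤ ∑ _p : Fin m × Fin n, ENNReal.ofReal (1 / t ^ 2)
          + ∑ _r : Fin m, n * ENNReal.ofReal (2 * (3 / x) * t * n ^ 2 * n / σ) := by
        refine add_le_add (Finset.sum_le_sum fun p _ => ?_) (Finset.sum_le_sum fun r _ =>
          H5.Gap.Ev_bound hmn Abar hA' t (3 / x) ht (by positivity) r σ hσ)
        refine H5.Gap.pi_section _ p.1 _
          (isClosed_le continuous_const (by fun_prop)).measurableSet _ fun G => ?_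
        simp only [Set.mem_ofPred_eq, Function.update_self]
        refine H5.Gap.pi_section _ p.2 _
          (isClosed_le continuous_const (by fun_prop)).measurableSet _ fun g => ?_
        simp only [Set.mem_ofPred_eq, Function.update_self]
        exact H5.Gap.gauss_tail σ hσ1 t (by linarith)
    _ = ENNReal.ofReal (m * n * (1 / t ^ 2) + m * (n * (2 * (3 / x) * t * n ^ 2 * n / σ))) := by
        rw [ENNReal.ofReal_add (by positivity) (by positivity), ENNReal.ofReal_mul (by positivity),
          ENNReal.ofReal_mul (by positivity), ENNReal.ofReal_mul (p := m) (by positivity),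
          ENNReal.ofReal_mul (p := n) (by positivity)]
        simp
    _ ≤ _ := by
        refine ENNReal.ofReal_le_ofReal ?_
        have h1 : (m : ℝ) * n * (1 / t ^ 2) ≤ n ^ 5 / (t * σ) := by
          rw [mul_one_div]
          refine div_le_div₀ (by positivity) ?_ (by positivity) (by nlinarith)
          calc (m : ℝ) * n ≤ n * n := by gcongr
            _ = n ^ 2 := by ring
            _ ≤ n ^ 5 := pow_le_pow_right₀ hn (by norm_num)
        have h2 : (m : ℝ) * (n * (2 * (3 / x) * t * n ^ 2 * n / σ)) ≤ 6 * n ^ 5 / (t * σ) := by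
          calc _ ≤ (n : ℝ) * (n * (2 * (3 / x) * t * n ^ 2 * n / σ)) := by gcongr
            _ = _ := by
              rw [← htt]
              field_simp
              ring
        have h3 : 7 * (n : ℝ) ^ 5 / (t * σ) = n ^ 5 / (t * σ) + 6 * n ^ 5 / (t * σ) := by ring
        linarith

end Pool.Agent.S19285
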