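import Pool.Statements.S19308
-- import your own Pool.Agent.* helpers here

set_option autoImplicit false
open Filter Topology MeasureTheory Real
open Pool Pool.MP_4e696d_pr

namespace Pool.Agent.S19308

lemma exists_eta : ∃ η : ℝ, 1 < η ∧ η < 1 + 1 / 32 ∧ Transcendental ℚ η := by
  have hc : {x : ℝ | IsAlgebraic ℚ x}.Countable := Algebraic.countable ℚ ℝ
  have hd : Dense {x : ℝ | IsAlgebraic ℚ x}ᶜ := hc.dense_compl ℝ
  obtain ⟨η, h1, h2⟩ := hd.exists_between (show (1 : ℝ) < 1 + 1 / 32 by norm_num)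
  exact ⟨η, h2.1, h2.2, h1⟩

lemma int_cos : ∫ t in (0 : ℝ)..1, Real.cos (2 * π * t) = 0 := by
  have h : (2 * π) ≠ 0 := by positivity
  rw [intervalIntegral.integral_comp_mul_left (fun x => Real.cos x) h]
  simp

lemma log_int_le : Real.log (∫ t in (0 : ℝ)..1, Real.exp (1 / 4 * Real.cos (2 * π * t))) ≤ 1 / 16 := by
  have hcont : Continuous (fun t : ℝ => Real.exp (1 / 4 * Real.cos (2 * π * t))) := by fun_prop
  have hpos : 0 < ∫ t in (0 : ℝ)..1, Real.exp (1 / 4 * Real.cos (2 * π * t)) :=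
    intervalIntegral.intervalIntegral_pos_of_pos (hcont.intervalIntegrable _ _)
      (fun x => Real.exp_pos _) one_pos
  have hc2 : Continuous (fun t : ℝ => Real.cos (2 * π * t)) := by fun_prop
  have hle : ∫ t in (0 : ℝ)..1, Real.exp (1 / 4 * Real.cos (2 * π * t)) ≤
      ∫ t in (0 : ℝ)..1, (17 / 16 + 1 / 4 * Real.cos (2 * π * t)) := by
    apply intervalIntegral.integral_mono_on zero_le_one (hcont.intervalIntegrable _ _)
      ((by fun_prop : Continuous (fun t : ℝ => 17 / 16 + 1 / 4 * Real.cos (2 * π * t))).intervalIntegrable _ _)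
    intro t _
    have h1 := Real.cos_le_one (2 * π * t)
    have h2 := Real.neg_one_le_cos (2 * π * t)
    have h3 : |1 / 4 * Real.cos (2 * π * t)| ≤ 1 := by
      rw [abs_le]; constructor <;> linarith
    have h4 := (abs_le.mp (Real.abs_exp_sub_one_sub_id_le h3)).2
    nlinarith
  have heq : ∫ t in (0 : ℝ)..1, (17 / 16 + 1 / 4 * Real.cos (2 * π * t)) = 17 / 16 := by
    rw [intervalIntegral.integral_add (by simp)
      ((by fun_prop : Continuous (fun t : ℝ => 1 / 4 * Real.cos (2 * π * t))).intervalIntegrable _ _),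
      intervalIntegral.integral_const_mul, int_cos]
    simp
  have := Real.log_le_sub_one_of_pos hpos
  linarith

/-- The sequence: ceilings of `M * η ^ k`. -/
noncomputable def seq (M η : ℝ) (k : ℕ) : ℕ := ⌈M * η ^ k⌉₊

lemma seq_pos {M η : ℝ} (hM : 1 ≤ M) (hη : 1 < η) (k : ℕ) : 0 < seq M η k := by
  unfold seq
  exact Nat.ceil_pos.mpr (by positivity)

lemma seq_mono {M η : ℝ} (hM : 1 ≤ M) (hη : 1 < η) : Monotone (seq M η) := by
  intro i j hij
  unfold seq
  apply Nat.ceil_mono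
  exact mul_le_mul_of_nonneg_left (pow_le_pow_right₀ hη.le hij) (by linarith)

lemma seq_le {M η : ℝ} (hM : 1 ≤ M) (hη : 1 < η) (k : ℕ) : (seq M η k : ℝ) ≤ 2 * M * η ^ k := by
  unfold seq
  have h1 : 1 ≤ η ^ k := one_le_pow₀ hη.le
  have h2 : (⌈M * η ^ k⌉₊ : ℝ) < M * η ^ k + 1 := Nat.ceil_lt_add_one (by positivity)
  nlinarith

/-- With `M = 2 / (η - 1) + 1` the sequence satisfies the Hadamard gap condition. -/
lemma seq_lacunary {η : ℝ} (hη : 1 < η) :
    ∃ q : ℝ, 1 < q ∧ ∀ k, q ≤ (seq (2 / (η - 1) + 1) η (k + 1) : ℝ) / (seq (2 / (η - 1) + 1) η k : ℝ) := by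
  have he : 0 < η - 1 := by linarith
  set M : ℝ := 2 / (η - 1) + 1 with hMdef
  have hM : 1 ≤ M := by
    have : 0 < 2 / (η - 1) := by positivity
    linarith
  have hM2 : 2 ≤ M * (η - 1) := by
    rw [hMdef, add_mul, div_mul_cancel₀ _ he.ne']; linarith
  refine ⟨η * M / (M + 1), ?_, fun k => ?_⟩
  · rw [lt_div_iff₀ (by linarith)]; nlinarith
  · have hp : (0 : ℝ) < seq M η k := by exact_mod_cast seq_pos hM hη k
    rw [div_le_div_iff₀ (by linarith) hp]
    have h1 : 1 ≤ η ^ k := one_le_pow₀ hη.le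
    have h2 : (seq M η k : ℝ) < M * η ^ k + 1 := Nat.ceil_lt_add_one (by positivity)
    have h3 : M * η ^ (k + 1) ≤ (seq M η (k + 1) : ℝ) := Nat.le_ceil _
    have h4 : (seq M η k : ℝ) ≤ (M + 1) * η ^ k := by nlinarith
    calc η * M * (seq M η k : ℝ) ≤ η * M * ((M + 1) * η ^ k) :=
          mul_le_mul_of_nonneg_left h4 (by positivity)
      _ = M * η ^ (k + 1) * (M + 1) := by ring
      _ ≤ _ := mul_le_mul_of_nonneg_right h3 (by linarith)

lemma seq_ratio {M η : ℝ} (hM : 1 ≤ M) (hη : 1 < η) :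
    Tendsto (fun k : ℕ => (seq M η (k + 1) : ℝ) / (seq M η k : ℝ)) atTop (𝓝 η) := by
  have h0 : Tendsto (fun k : ℕ => M * η ^ k) atTop atTop :=
    (tendsto_pow_atTop_atTop_of_one_lt hη).const_mul_atTop (by linarith)
  have h1 : Tendsto (fun k : ℕ => (seq M η k : ℝ) / (M * η ^ k)) atTop (𝓝 1) :=
    tendsto_nat_ceil_div_atTop.comp h0
  have h2 : Tendsto (fun k : ℕ => (seq M η (k + 1) : ℝ) / (M * η ^ (k + 1))) atTop (𝓝 1) :=
    h1.comp (tendsto_add_atTop_nat 1)
  have h3 := (h2.div h1 one_ne_zero).mul_const η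
  simp only [div_one, one_mul] at h3
  refine h3.congr fun k => ?_
  have hp : (0 : ℝ) < seq M η k := by exact_mod_cast seq_pos hM hη k
  have : (0 : ℝ) < η ^ k := by positivity
  simp only [Pi.div_apply]
  field_simp
  ring

lemma vol_ge {M η : ℝ} (hM : 1 ≤ M) (hη : 1 < η) (n : ℕ) (hn : 0 < n) :
    ENNReal.ofReal (1 / (12 * M * η ^ n)) ≤ volume (Set.Icc (0 : ℝ) 1 ∩
      {ω : ℝ | (∑ k ∈ Finset.range n, Real.cos (2 * π * (seq M η k : ℝ) * ω)) / (n : ℝ) ∈
        Set.Ici (1 / 2 : ℝ)}) := by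
  have h1 : 1 ≤ η ^ n := one_le_pow₀ hη.le
  have hD : 12 ≤ 12 * M * η ^ n := by nlinarith
  have : ENNReal.ofReal (1 / (12 * M * η ^ n)) = volume (Set.Icc (0 : ℝ) (1 / (12 * M * η ^ n))) := by
    simp
  rw [this]
  apply measure_mono
  rintro ω ⟨h0, hω⟩
  refine ⟨⟨h0, hω.trans ?_⟩, ?_⟩
  · rw [div_le_one (by linarith)]; linarith
  · have hn' : (0 : ℝ) < n := by exact_mod_cast hn
    change 1 / 2 ≤ (∑ k ∈ Finset.range n, Real.cos (2 * π * (seq M η k : ℝ) * ω)) / (n : ℝ)
    rw [le_div_iff₀ hn']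
    have : ∀ k ∈ Finset.range n, (1 / 2 : ℝ) ≤ Real.cos (2 * π * (seq M η k : ℝ) * ω) := by
      intro k hk
      have hk' : k ≤ n := (Finset.mem_range.mp hk).le
      have h2 : (seq M η k : ℝ) ≤ 2 * M * η ^ n :=
        le_trans (by exact_mod_cast seq_mono hM hη hk') (seq_le hM hη n)
      have h3 : (seq M η k : ℝ) * ω ≤ 1 / 6 := by
        calc (seq M η k : ℝ) * ω ≤ (2 * M * η ^ n) * (1 / (12 * M * η ^ n)) :=
              mul_le_mul h2 hω h0 (by positivity)
          _ = 1 / 6 := by field_simp; norm_num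
      rw [← Real.cos_pi_div_three]
      have hp := Real.pi_pos
      apply Real.cos_le_cos_of_nonneg_of_le_pi (by positivity) (by linarith)
      nlinarith
    have h5 := Finset.sum_le_sum this
    simp only [Finset.sum_const, Finset.card_range, nsmul_eq_mul] at h5
    linarith

/-- The negation of the preceding statement: For positive integers a_k with a_{k+1}/a_k tending to a transcendental η>1, the averages (1/n)Σcos(2π a_k ω), ω uniform on [0,1], satisfy an LDP with speed n and the i.i.d. Cramér rate function of cos(2πU). -/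
theorem result :
    ¬ (∀ (a : ℕ → ℕ) (η : ℝ), 1 < η → Transcendental ℚ η → (∀ k, 0 < a k) →
      Tendsto (fun k : ℕ => (a (k + 1) : ℝ) / (a k : ℝ)) atTop (𝓝 η) →
      ((∀ F : Set ℝ, IsClosed F →
          limsup (fun n : ℕ => ((((n : ℝ)⁻¹ : ℝ)) : EReal) *
              ENNReal.log (volume (Set.Icc (0 : ℝ) 1 ∩
                {ω : ℝ | (∑ k ∈ Finset.range n, Real.cos (2 * π * (a k : ℝ) * ω)) / (n : ℝ) ∈ F})))
            atTop
          ≤ - ⨅ x ∈ F, ⨆ l : ℝ,
              (((l * x - Real.log (∫ t in (0 : ℝ)..1, Real.exp (l * Real.cos (2 * π * t)))) : ℝ) : EReal)) ∧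
       (∀ G : Set ℝ, IsOpen G →
          - (⨅ x ∈ G, ⨆ l : ℝ,
              (((l * x - Real.log (∫ t in (0 : ℝ)..1, Real.exp (l * Real.cos (2 * π * t)))) : ℝ) : EReal))
          ≤ liminf (fun n : ℕ => ((((n : ℝ)⁻¹ : ℝ)) : EReal) *
              ENNReal.log (volume (Set.Icc (0 : ℝ) 1 ∩
                {ω : ℝ | (∑ k ∈ Finset.range n, Real.cos (2 * π * (a k : ℝ) * ω)) / (n : ℝ) ∈ G})))
            atTop))) := by
  intro h
  obtain ⟨η, h1, h2, ht⟩ := exists_eta
  have he : 0 < η - 1 := by linarith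
  set M : ℝ := 2 / (η - 1) + 1 with hMdef
  have hM : 1 ≤ M := by
    have : 0 < 2 / (η - 1) := by positivity
    linarith
  have H := (h (seq M η) η h1 ht (seq_pos hM h1) (seq_ratio hM h1)).1 (Set.Ici (1 / 2)) isClosed_Ici
  have hI : ((1 / 16 : ℝ) : EReal) ≤ ⨅ x ∈ Set.Ici (1 / 2 : ℝ), ⨆ l : ℝ,
      (((l * x - Real.log (∫ t in (0 : ℝ)..1, Real.exp (l * Real.cos (2 * π * t)))) : ℝ) : EReal) := by
    refine le_iInf₂ fun x hx => le_iSup_of_le (1 / 4) ?_
    rw [EReal.coe_le_coe_iff]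
    have := log_int_le
    have hx' : 1 / 2 ≤ x := hx
    linarith
  have H2 := H.trans (EReal.neg_le_neg_iff.mpr hI)
  have hlog : Real.log η ≤ 1 / 32 := by
    have := Real.log_le_sub_one_of_pos (show 0 < η by linarith)
    linarith
  have hev : ∀ᶠ n : ℕ in atTop, Real.log (12 * M) / (n : ℝ) ≤ 1 / 64 :=
    (tendsto_const_div_atTop_nhds_zero_nat (Real.log (12 * M))).eventually
      (ge_mem_nhds (by norm_num))
  have H3 : ((-(3 / 64) : ℝ) : EReal) ≤ limsup (fun n : ℕ => ((((n : ℝ)⁻¹ : ℝ)) : EReal) *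
      ENNReal.log (volume (Set.Icc (0 : ℝ) 1 ∩
        {ω : ℝ | (∑ k ∈ Finset.range n, Real.cos (2 * π * (seq M η k : ℝ) * ω)) / (n : ℝ) ∈
          Set.Ici (1 / 2 : ℝ)}))) atTop := by
    apply le_limsup_of_frequently_le'
    apply Eventually.frequently
    filter_upwards [hev, eventually_gt_atTop 0] with n hn hn0
    have hn' : (0 : ℝ) < n := by exact_mod_cast hn0
    have hv := ENNReal.log_monotone (vol_ge hM h1 n hn0)
    have hpos : 0 < 1 / (12 * M * η ^ n) := by positivity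
    rw [ENNReal.log_ofReal_of_pos hpos] at hv
    have h4 := mul_le_mul_of_nonneg_left hv
      (show (0 : EReal) ≤ ((((n : ℝ)⁻¹ : ℝ)) : EReal) by
        rw [EReal.coe_nonneg]; positivity)
    refine le_trans ?_ h4
    rw [← EReal.coe_mul, EReal.coe_le_coe_iff, one_div, Real.log_inv,
      Real.log_mul (by positivity) (by positivity), Real.log_pow]
    have e : (n : ℝ)⁻¹ * -(Real.log (12 * M) + n * Real.log η) =
        -(Real.log (12 * M) / n) - Real.log η := by
      field_simp; ring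
    rw [e]; linarith
  have H4 := H3.trans H2
  rw [← EReal.coe_neg, EReal.coe_le_coe_iff] at H4
  norm_num at H4

end Pool.Agent.S19308
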