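import Pool.Statements.S19343
import Pool.Agent.H22.Net2

set_option autoImplicit false
open MeasureTheory ProbabilityTheory
open Pool Pool.MP_5bb7da_pr

namespace Pool.Agent.S19343
open Pool.Agent.H22.Net Set Filter Topology in
lemma nc0 (u v : ℝ) : Measurable fun z => (XX z ∩ Icc u v).ncard :=
  ncm' _ u v fun _ _ _ _ => (evc _).measurable

open Pool.Agent.H22.Net Set Filter Topology in
lemma noat {P : Measure Om} [IsProbabilityMeasure P]
    (h : ∀ (j : ℕ) (k : ℤ), MeasurePreserving (ta (k / 2 ^ j)) P P) (x : ℝ) :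
    ∀ᵐ z ∂P, x ∉ XX z := by
  have hm : MeasurableSet {z | x ∈ XX z} := by
    simp only [XX, mem_ofPred_eq]
    simp only [ofPred_forall]
    exact .iInter fun p => .iInter fun q => .iInter fun _ => .iInter fun _ =>
      (evc _).measurable (measurableSet_singleton true)
  have := measure_iUnion (μ := P) (f := fun j : ℕ => ta ((1 : ℤ) / 2 ^ j) ⁻¹' {z | x ∈ XX z})
    (fun i j hij => disjoint_left.2 fun z h1 h2 => ?_) fun j => (h j 1).measurable hm
  · simp only [(h _ 1).measure_preimage hm.nullMeasurableSet] at this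
    by_contra c
    rw [ENNReal.tsum_const_eq_top_of_ne_zero (by simpa [ae_iff] using c)] at this
    exact measure_ne_top _ _ this
  simp only [mem_preimage, mem_ofPred_eq, XX_ta] at h1 h2
  push_cast at h1 h2
  have a : ∀ i : ℕ, (0 : ℝ) < 1 / 2 ^ i ∧ (1 : ℝ) / 2 ^ i ≤ 1 := fun i =>
    ⟨by positivity, (div_le_one (by positivity)).2 (one_le_pow₀ one_le_two)⟩
  refine (sep' z h1 h2 fun e => hij ?_).not_gt (abs_lt.2 ⟨?_, ?_⟩)
  · simpa using e
  · linarith [a i, a j]
  · linarith [a i, a j]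

open Pool.Agent.H22.Net Set Filter Topology in
lemma evn (z : Om) {l r : ℝ} (hl : l ∉ XX z) (hr : r ∉ XX z) :
    ∀ᶠ t in 𝓝 (0 : ℝ), XX z ∩ Icc (l + t) (r + t) = XX z ∩ Icc l r := by
  simp only [XX, mem_ofPred_eq, not_forall] at hl hr
  obtain ⟨p, q, a, b, c⟩ := hl
  obtain ⟨p', q', a', b', c'⟩ := hr
  filter_upwards [Ioo_mem_nhds (sub_neg.2 a) (sub_pos.2 b),
    Ioo_mem_nhds (sub_neg.2 a') (sub_pos.2 b')] with t h h'
  ext x
  refine and_congr_right fun hx => ?_
  have h1 : x ≤ p ∨ q ≤ x := by by_contra! e; exact c (hx _ _ e.1 e.2)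
  have h2 : x ≤ p' ∨ q' ≤ x := by by_contra! e; exact c' (hx _ _ e.1 e.2)
  simp only [mem_Icc, mem_Ioo] at *
  constructor <;> rintro ⟨e, e'⟩ <;> constructor <;> rcases h1 with h1 | h1 <;>
    rcases h2 with h2 | h2 <;> linarith


/-- There is a locally finite random subset of the reals, shift-invariant in law, with some c>0 making its parts in (-inf,0] and [c,inf) independent, and constants 0<a<=b so that a.s. distinct points are at least a apart and every interval of length b contains a point. -/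
theorem result :
    ∃ (Ω : Type) (m : MeasurableSpace Ω) (P : Measure Ω) (X : Ω → Set ℝ),
      IsProbabilityMeasure P ∧
      (∀ ω : Ω, ∀ u v : ℝ, (X ω ∩ Set.Icc u v).Finite) ∧
      (∀ u v : ℝ, Measurable (fun ω : Ω => (X ω ∩ Set.Icc u v).ncard)) ∧
      (∀ t : ℝ, ∀ n : ℕ, ∀ (l r : Fin n → ℝ) (k : Fin n → ℕ),
        P {ω : Ω | ∀ i : Fin n, (X ω ∩ Set.Icc (l i) (r i)).ncard = k i} =
        P {ω : Ω | ∀ i : Fin n, (X ω ∩ Set.Icc (l i + t) (r i + t)).ncard = k i}) ∧
      (∃ c : ℝ, 0 < c ∧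
        Indep
          (⨆ u : ℝ, ⨆ v : ℝ, MeasurableSpace.comap
            (fun ω : Ω => (X ω ∩ Set.Icc u (min v 0)).ncard) (inferInstance : MeasurableSpace ℕ))
          (⨆ u : ℝ, ⨆ v : ℝ, MeasurableSpace.comap
            (fun ω : Ω => (X ω ∩ Set.Icc (max u c) v).ncard) (inferInstance : MeasurableSpace ℕ))
          P) ∧
      (∃ a b : ℝ, 0 < a ∧ a ≤ b ∧
        ∀ᵐ ω ∂P, (∀ x ∈ X ω, ∀ y ∈ X ω, x ≠ y → a ≤ |x - y|) ∧
          ∀ t : ℝ, (X ω ∩ Set.Icc t (t + b)).Nonempty) := by
  open Pool.Agent.H22.Net Set Filter Topology in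
  obtain ⟨P, _, h1, h2⟩ := lim
  refine ⟨Om, inferInstance, P, XX, inferInstance, fin, nc0, fun t n l r k => ?_,
    ⟨404, by norm_num, indep_of_indep_of_le_right (indep_of_indep_of_le_left h1 ?_) ?_⟩,
    1, 202, one_pos, by norm_num, ae_of_all _ fun z => ⟨fun x hx y hy => sep' z hx hy, fun t => ?_⟩⟩
  · have hm : ∀ t : ℝ, MeasurableSet {z | ∀ i, (XX z ∩ Icc (l i + t) (r i + t)).ncard = k i} :=
      fun t => by
        simp only [ofPred_forall]
        exact .iInter fun i => nc0 _ _ (measurableSet_singleton _)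
    have ht : Tendsto (fun j : ℕ => (((⌊t * 2 ^ j⌋ : ℤ) / 2 ^ j : ℚ) : ℝ) - t) atTop (𝓝 0) := by
      refine squeeze_zero_norm (fun j => ?_) (tendsto_inv_atTop_zero.comp
        (tendsto_pow_atTop_atTop_of_one_lt (one_lt_two (α := ℝ))))
      have h : (0 : ℝ) < 2 ^ j := by positivity
      push_cast
      rw [div_sub' h.ne', norm_div, Real.norm_eq_abs, Real.norm_eq_abs, abs_of_pos h,
        Function.comp, inv_eq_one_div]
      gcongr
      rw [abs_le]
      constructor <;> linarith [Int.floor_le (t * 2 ^ j), Int.lt_floor_add_one (t * 2 ^ j)]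
    have := tendsto_measure_of_ae_tendsto_indicator_of_isFiniteMeasure atTop (μ := P) (hm t)
      (fun j : ℕ => hm (((⌊t * 2 ^ j⌋ : ℤ) / 2 ^ j : ℚ) : ℝ)) (by
        filter_upwards [ae_all_iff.2 fun i => noat h2 (l i + t),
          ae_all_iff.2 fun i => noat h2 (r i + t)] with z a b
        filter_upwards [eventually_all.2 fun i => ht.eventually (evn z (a i) (b i))] with j hj
        simp only [add_assoc, add_sub_cancel] at hj
        simp only [mem_ofPred_eq, hj])
    refine tendsto_nhds_unique (tendsto_const_nhds.congr fun j => ?_) this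
    have h0 := hm 0
    simp only [add_zero] at h0
    rw [← (h2 j ⌊t * 2 ^ j⌋).measure_preimage h0.nullMeasurableSet]
    simp only [preimage_ofPred_eq, nc_ta]
  · refine iSup₂_le fun u v => Measurable.comap_le (ncm' _ _ _ fun p q _ h => ?_)
    have : q ≤ 1 := by exact_mod_cast (show (q : ℝ) ≤ 1 by linarith [min_le_right v 0])
    exact (measurable_pi_apply (⟨(p, q), this⟩ : {i : ℚ × ℚ // i.2 ≤ 1})).comp
      (comap_measurable fun (z : Om) (i : {i : ℚ × ℚ // i.2 ≤ 1}) => z.1 i)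
  · refine iSup₂_le fun u v => Measurable.comap_le (ncm' _ _ _ fun p q h _ => ?_)
    have : 403 ≤ p := by exact_mod_cast (show (403 : ℝ) ≤ p by linarith [le_max_right u 404])
    exact (measurable_pi_apply (⟨(p, q), this⟩ : {i : ℚ × ℚ // 403 ≤ i.1})).comp
      (comap_measurable fun (z : Om) (i : {i : ℚ × ℚ // 403 ≤ i.1}) => z.1 i)
  · obtain ⟨p, a, b⟩ := exists_rat_btwn (lt_add_one t)
    obtain ⟨x, c, d, e⟩ := hit z (z.2.2.2.2.1 p)
    push_cast at e
    exact ⟨x, c, by linarith, by linarith⟩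

end Pool.Agent.S19343
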