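import Pool.Statements.S19358
import Pool.Agent.Results.MP_37af32_pr.Coalescing

set_option autoImplicit false
open MeasureTheory ProbabilityTheory Filter Topology
open Pool Pool.MP_621202_pr

namespace Pool.Agent.S19358

open Set Pool.Agent.Results.MP_37af32_pr.Coalescing
open scoped ENNReal

/-- configurations -/
abbrev X : Type := (Fin 1 → ℤ) → (Bool × Bool) × Bool

/-- sites -/
def e (j : ℤ) : Fin 1 → ℤ := fun _ => j

lemma e_add (i j : ℤ) : e i + e j = e (i + j) := rfl

/-- local rule: a left-moving signal and coalescing killers -/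
def r (u v w : (Bool × Bool) × Bool) : Bool × Bool :=
  (w.1.1 && !v.1.2 && !w.1.2, (v.1.2 && !v.2) || (u.1.2 && u.2) || v.1.1)

/-- next symbols -/
def G (x : X) (i : Fin 1 → ℤ) : Bool × Bool := r (x (i + e (-1))) (x i) (x (i + e 1))

/-- one move -/
def M (p : X × ((Fin 1 → ℤ) → Bool)) : X := fun i => (G p.1 i, p.2 i)

/-- fair coins -/
noncomputable def K : Measure ((Fin 1 → ℤ) → Bool) :=
  Measure.infinitePi fun _ => (PMF.uniformOfFintype Bool).toMeasure

instance : IsProbabilityMeasure K := by unfold K; infer_instance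

lemma G_meas (i : Fin 1 → ℤ) : Measurable fun x => G x i :=
  (measurable_of_finite fun p : _ × _ × _ => r p.1 p.2.1 p.2.2).comp
    (f := fun x : X => (x (i + e (-1)), x i, x (i + e 1))) (by fun_prop)

lemma M_meas : Measurable M := measurable_pi_lambda _ fun i =>
  ((G_meas i).comp measurable_fst).prodMk ((measurable_pi_apply i).comp measurable_snd)

/-- the operator -/
noncomputable def F (μ : Measure X) : Measure X := (μ.prod K).map M

instance (μ : Measure X) [IsProbabilityMeasure μ] (n : ℕ) : IsProbabilityMeasure (F^[n] μ) := by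
  induction n with
  | zero => assumption
  | succ n ih =>
    rw [Function.iterate_succ_apply']
    exact Measure.isProbabilityMeasure_map M_meas.aemeasurable

/-- action on functions -/
noncomputable def P (f : X → ℝ≥0∞) (x : X) : ℝ≥0∞ := ∫⁻ c, f (M (x, c)) ∂K

lemma P_meas {f : X → ℝ≥0∞} (hf : Measurable f) (n : ℕ) : Measurable (P^[n] f) := by
  induction n with
  | zero => exact hf
  | succ n ih =>
    rw [Function.iterate_succ_apply']
    exact (ih.comp M_meas).lintegral_prod_right'

lemma link {f : X → ℝ≥0∞} (hf : Measurable f) (n : ℕ) (μ : Measure X) :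
    ∫⁻ x, f x ∂F^[n] μ = ∫⁻ x, P^[n] f x ∂μ := by
  induction n generalizing μ with
  | zero => rfl
  | succ n ih =>
    rw [Function.iterate_succ_apply, ih, F, lintegral_map (P_meas hf n) M_meas,
      lintegral_prod (fun a => P^[n] f (M a)) ((P_meas hf n).comp M_meas).aemeasurable,
      Function.iterate_succ_apply']
    rfl

lemma sig (j : ℤ) (μ : Measure X) [IsProbabilityMeasure μ] :
    Tendsto (fun n => F^[n] μ {x | (G x (e j)).1 = true}) atTop (𝓝 0) := by
  have hm : MeasurableSet {x | (G x (e j)).1 = true} := (G_meas _).fst (.singleton _)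
  have hf : Measurable ({x | (G x (e j)).1 = true}.indicator (1 : X → ℝ≥0∞)) :=
    measurable_one.indicator hm
  generalize hb : {x | (G x (e j)).1 = true}.indicator (1 : X → ℝ≥0∞) = b at hf
  have hZ : ∀ n : ℕ, ∀ x, (G x (e (j + n))).1 = false → P^[n] b x = 0 := fun n => by
    induction n with
    | zero => intro x h; simpa [← hb] using h
    | succ n ih =>
      intro x h
      rw [Function.iterate_succ_apply', P, lintegral_congr fun c => ih _ (by
        push_cast at h
        simp [G.eq_def (M _), r, M, e_add, add_assoc, h]), lintegral_zero]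
  have hA : ∀ n : ℕ, ∀ x q, (G x (e q)).2 = true → q ≤ j + n →
      P^[n] b x ≤ ENNReal.ofReal (2 ^ (j - q) * (3 / 4) ^ n) := fun n => by
    induction n with
    | zero =>
      intro x q _ h
      rw [← hb]
      exact (indicator_le_self _ _ x).trans (by
        simpa using one_le_zpow₀ (one_le_two (α := ℝ)) (show 0 ≤ j - q by omega))
    | succ n ih =>
      intro x q h1 h2
      rw [Function.iterate_succ_apply', P]
      refine (lintegral_mono (g := fun c => ENNReal.ofReal (2 ^ (j - (q + (c (e q)).toInt)) *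
        (3 / 4) ^ n)) fun c => ?_).trans_eq ?_
      · by_cases h3 : q + (c (e q)).toInt ≤ j + n
        · refine ih _ _ ?_ h3
          cases h4 : c (e q) <;> simp [G.eq_def (M _), r, M, e_add, h1, h4]
        · refine (hZ n _ ?_).trans_le bot_le
          have h4 : q = j + n ∨ q = j + n + 1 := by
            cases h4 : c (e q) <;> simp [h4] at h3 h2 <;> omega
          rcases h4 with rfl | rfl <;> simp [G.eq_def (M _), r, M, e_add, h1]
      · rw [← lintegral_map (measurable_of_finite fun a : Bool => ENNReal.ofReal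
          (2 ^ (j - (q + a.toInt)) * (3 / 4) ^ n)) (measurable_pi_apply (e q)), K,
          Measure.infinitePi_map_eval, lintegral_fintype]
        simp only [Fintype.sum_bool, PMF.toMeasure_apply_singleton _ _ (.singleton _),
          PMF.uniformOfFintype_apply, Fintype.card_bool, Bool.toInt_true, Bool.toInt_false,
          add_zero, ← sub_sub, zpow_sub_one₀ (two_ne_zero (α := ℝ)), ← add_mul]
        rw [← ENNReal.ofReal_add (by positivity) (by positivity), ← ENNReal.ofReal_natCast,
          ← ENNReal.ofReal_inv_of_pos (by norm_num), ← ENNReal.ofReal_mul (by positivity)]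
        congr 1
        push_cast
        ring_nf
  have h1 : ∀ n x, P^[n] b x ≤ 1 := fun n x => by
    rw [← lintegral_dirac' x (P_meas hf n), ← link hf, ← hb, lintegral_indicator_one hm]
    exact prob_le_one
  simp only [← lintegral_indicator_one hm, hb, link hf]
  refine (lintegral_zero (μ := μ)) ▸ tendsto_lintegral_of_dominated_convergence (fun _ => 1)
    (P_meas hf) (fun n => .of_forall (h1 n)) (by simp) (.of_forall fun x => ?_)
  by_cases h : ∃ q, (x (e q)).1.1 = true
  · obtain ⟨q, hq⟩ := h
    have h2 := ENNReal.tendsto_ofReal ((tendsto_pow_atTop_nhds_zero_of_lt_one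
      (show (0 : ℝ) ≤ 3 / 4 by norm_num) (by norm_num)).const_mul (2 ^ (j - q)))
    rw [mul_zero, ENNReal.ofReal_zero] at h2
    refine tendsto_of_tendsto_of_tendsto_of_le_of_le' tendsto_const_nhds h2
      (.of_forall fun _ => bot_le) ?_
    filter_upwards [eventually_ge_atTop (q - j).toNat] with n hn
    exact hA n x q (by simp [G, r, hq]) (by omega)
  · push Not at h
    simp only [fun n => hZ n x (by simp [G, r, e_add, h])]
    exact tendsto_const_nhds

/-- a killer lands in `[l, m)` -/
def W (l m : ℤ) : Set X := {x | ∃ j, l ≤ j ∧ j < m ∧ (G x (e j)).2 = true}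

lemma W_meas (l m : ℤ) : MeasurableSet (W l m) := by
  have := fun j => (G_meas (e j)).snd
  unfold W
  measurability

lemma key2 (μ : Measure X) [IsProbabilityMeasure μ] {l m : ℤ} (h : l < m) :
    (F μ).real (W l m) ≤ (μ.real (W (l - 1) (m - 1)) + μ.real (W (l - 1) m) +
      (μ.real (W l (m - 1)) + μ.real (W l m))) / 4 +
        ∑ j ∈ Finset.Ico l m, μ.real {x | (G x (e j)).1 = true} := by
  have h1 : ∀ c : (Fin 1 → ℤ) → Bool, (fun x => (x, c)) ⁻¹' (M ⁻¹' W l m) ⊆
      W (l - (c (e (l - 1))).toInt) (m - (c (e (m - 1))).toInt) ∪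
        ⋃ j ∈ Finset.Ico l m, {x | (G x (e j)).1 = true} := fun c x ⟨j, h3, h4, h5⟩ => by
    have h2 : ∀ i, (c i).toInt = 1 ∨ (c i).toInt = 0 := fun i => by cases c i <;> simp
    simp only [G.eq_def (M _), r, M, Bool.or_eq_true, Bool.and_eq_true, Bool.not_eq_true',
      e_add] at h5
    rcases h5 with (h5 | h5) | h5
    · refine Or.inl ⟨j, by rcases h2 (e (l - 1)) with h | h <;> omega, ?_, h5.1⟩
      by_cases h6 : j = m - 1
      · rw [← h6, h5.2]; simpa using h4
      · rcases h2 (e (m - 1)) with h | h <;> omega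
    · refine Or.inl ⟨_, ?_, by rcases h2 (e (m - 1)) with h | h <;> omega, h5.1⟩
      by_cases h6 : j + -1 = l - 1
      · rw [← h6, h5.2]; simp; omega
      · rcases h2 (e (l - 1)) with h | h <;> omega
    · exact Or.inr (mem_biUnion (Finset.mem_Ico.mpr ⟨h3, h4⟩) h5)
  have hp : Measurable fun c : (Fin 1 → ℤ) → Bool => (c (e (l - 1)), c (e (m - 1))) := by fun_prop
  have h3 : ∀ y, (K.map fun c => (c (e (l - 1)), c (e (m - 1)))) {y} = 4⁻¹ := fun y => by
    have h4 : e (l - 1) ≠ e (m - 1) := fun h4 => by have := congrFun h4 0; simp [e] at this; omega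
    rw [Measure.map_apply hp (.singleton _), show (fun c : (Fin 1 → ℤ) → Bool =>
      (c (e (l - 1)), c (e (m - 1)))) ⁻¹' {y} = Set.pi ({e (l - 1), e (m - 1)} : Finset _)
        fun i => {if i = e (l - 1) then y.1 else y.2} by ext c; simp [h4.symm, Prod.ext_iff], K,
      Measure.infinitePi_pi _ fun _ _ => .singleton _, Finset.prod_pair h4,
      show (4 : ENNReal) = 2 * 2 by norm_num, ENNReal.mul_inv (by simp) (by simp)]
    simp [PMF.uniformOfFintype_apply]
  have h4 := lintegral_map (μ := K) (measurable_of_finite fun y : Bool × Bool =>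
    μ (W (l - y.1.toInt) (m - y.2.toInt))) hp
  refine le_trans ?_ (add_le_add_right (measureReal_biUnion_finset_le _ _) _)
  simp only [Measure.real, F]
  rw [Measure.map_apply M_meas (W_meas l m), Measure.prod_apply_symm (M_meas (W_meas l m))]
  refine (ENNReal.toReal_mono ?_ (lintegral_mono fun c => (measure_mono (h1 c)).trans
    (measure_union_le _ _))).trans_eq ?_ <;>
    rw [lintegral_add_right _ measurable_const, ← h4, lintegral_fintype] <;>
    simp only [h3, ← Finset.sum_mul, Fintype.sum_prod_type, Fintype.sum_bool, Bool.toInt_true,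
      Bool.toInt_false, sub_zero, lintegral_const, measure_univ, mul_one]
  · exact ENNReal.add_ne_top.mpr ⟨by finiteness, measure_ne_top _ _⟩
  rw [ENNReal.toReal_add (by finiteness) (measure_ne_top _ _), ENNReal.toReal_mul,
    ENNReal.toReal_add (by finiteness) (by finiteness),
    ENNReal.toReal_add (by finiteness) (by finiteness),
    ENNReal.toReal_add (by finiteness) (by finiteness), div_eq_mul_inv]
  simp

lemma kil (j : ℤ) (μ : Measure X) [IsProbabilityMeasure μ] :
    Tendsto (fun n => F^[n] μ (W j (j + (1 : ℕ)))) atTop (𝓝 0) := by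
  have h1 : ∀ (t k : ℕ) (l : ℤ), ∀ ε > 0, ∀ᶠ n in atTop,
      (F^[n] μ).real (W l (l + k)) ≤ U t k + ε := fun t => by
    have h0 : ∀ l : ℤ, W l (l + (0 : ℕ)) = ∅ := fun l =>
      eq_empty_of_forall_notMem fun _ ⟨_, h1, h2, _⟩ => by omega
    induction t with
    | zero =>
      rintro (_ | k) l ε hε <;> refine .of_forall fun n => ?_
      · rw [h0]; simp [U, hε.le]
      · exact measureReal_le_one.trans (by simp [U, hε.le])
    | succ t ih =>
      rintro (_ | k) l ε hε
      · rw [h0]; simp [U, hε.le]
      have h2 := tendsto_finsetSum (Finset.Ico l (l + (k + 1 : ℕ))) fun j _ =>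
        (ENNReal.tendsto_toReal ENNReal.zero_ne_top).comp (sig j μ)
      rw [ENNReal.toReal_zero, Finset.sum_const_zero] at h2
      have h3 := half_pos hε
      rw [← map_add_atTop_eq_nat 1, eventually_map]
      filter_upwards [ih k l _ h3, ih (k + 1) l _ h3, ih (k + 1) (l - 1) _ h3,
        ih (k + 2) (l - 1) _ h3, h2.eventually (ge_mem_nhds h3)] with n h4 h5 h6 h7 h8
      rw [Function.iterate_succ_apply', U]
      refine (key2 _ (by omega)).trans ?_
      rw [show l - 1 + (k + 1 : ℕ) = l + (k + 1 : ℕ) - 1 by omega] at h6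
      rw [show l - 1 + (k + 2 : ℕ) = l + (k + 1 : ℕ) by omega] at h7
      rw [show l + k = l + (k + 1 : ℕ) - 1 by omega] at h4
      simp only [Function.comp, ← measureReal_def] at h8
      linarith
  refine (ENNReal.tendsto_toReal_zero_iff (by finiteness)).mp (tendsto_order.mpr
    ⟨fun a ha => .of_forall fun _ => ha.trans_le ENNReal.toReal_nonneg, fun a ha => ?_⟩)
  obtain ⟨t, ht⟩ := (U_lim.eventually (gt_mem_nhds (half_pos ha))).exists
  exact (h1 t 1 j _ (half_pos ha)).mono fun n hn => hn.trans_lt (by linarith)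

lemma cylF (μ : Measure X) [SFinite μ] (D : Finset (Fin 1 → ℤ)) (w : X) :
    F μ {x | ∀ i ∈ D, x i = w i} =
      μ {x | ∀ i ∈ D, G x i = (w i).1} * K {c | ∀ i ∈ D, c i = (w i).2} := by
  rw [← Measure.prod_prod, F, Measure.map_apply M_meas (by measurability)]
  congr 1
  ext p
  simp [M, Prod.ext_iff (x := (_, _)), forall_and]

lemma erg (μ : Measure X) [IsProbabilityMeasure μ] (D : Finset (Fin 1 → ℤ)) (w : X) :
    Tendsto (fun n => F^[n] μ {x | ∀ i ∈ D, x i = w i}) atTop
      (𝓝 (F (Measure.dirac fun _ => ((false, false), false)) {x | ∀ i ∈ D, x i = w i})) := by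
  rw [← tendsto_add_atTop_iff_nat 1]
  simp only [Function.iterate_succ_apply', cylF]
  refine ENNReal.Tendsto.mul_const ?_ (Or.inr (measure_ne_top _ _))
  have hm : MeasurableSet {x | ∀ i ∈ D, G x i = (w i).1} := by
    have := G_meas
    measurability
  have h1 : ∀ B : Set X, (∀ x ∈ B, ∃ i ∈ D, G x i ≠ (false, false)) →
      Tendsto (fun n => F^[n] μ B) atTop (𝓝 0) := fun B hB => by
    have h2 := tendsto_finsetSum D fun i _ => (sig (i 0) μ).add (kil (i 0) μ)
    rw [add_zero, Finset.sum_const_zero] at h2
    refine tendsto_of_tendsto_of_tendsto_of_le_of_le tendsto_const_nhds h2 (fun _ => bot_le)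
      fun n => le_trans (measure_mono fun x hx => ?_) ((measure_biUnion_finset_le _ _).trans
        (Finset.sum_le_sum fun i _ => measure_union_le _ _))
    obtain ⟨i, h3, h4⟩ := hB x hx
    refine mem_biUnion h3 ?_
    by_contra h5
    rw [mem_union, not_or] at h5
    rw [show i = e (i 0) from funext fun k => congrArg i (Subsingleton.elim _ _)] at h4
    exact h4 (Prod.ext (by simpa using h5.1) (by
      by_contra h6; exact h5.2 ⟨i 0, le_rfl, by omega, by simpa using h6⟩))
  rw [Measure.dirac_apply' _ hm]
  by_cases h : ∀ i ∈ D, (false, false) = (w i).1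
  · rw [indicator_of_mem (by exact h)]
    have h2 := ENNReal.Tendsto.sub (tendsto_const_nhds (x := 1)) (h1 {x | ∀ i ∈ D, G x i = (w i).1}ᶜ
      fun x hx => by
        by_contra! h3
        exact hx fun i hi => (h3 i hi).trans (h i hi)) (Or.inl ENNReal.one_ne_top)
    simpa only [← prob_compl_eq_one_sub hm.compl, compl_compl, tsub_zero, Pi.one_apply] using h2
  · rw [indicator_of_notMem (by exact h)]
    refine h1 _ fun x hx => ?_
    by_contra! h3
    exact h fun i hi => (h3 i hi).symm.trans (hx i hi)

lemma run (n : ℕ) : ∃ x, F^[n + 1] (Measure.dirac x)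
    {x | ∀ i ∈ ({e 0} : Finset _), x i = ((true, false), false)} = 2⁻¹ := by
  obtain ⟨R, hR⟩ : ∃ R : ℤ → Set X, ∀ m, R m = {x | (G x (e m)).1 = true ∧
    (∀ j ≤ m, (G x (e j)).2 = false) ∧ ∀ j < m, (G x (e j)).1 = false} := ⟨_, fun _ => rfl⟩
  have hm : ∀ m, MeasurableSet (R m) := fun m => by
    have h1 := fun j => (G_meas (e j)).snd
    have h2 := fun j => (G_meas (e j)).fst
    rw [hR]
    measurability
  have h1 : ∀ (n : ℕ) (m : ℤ), ∀ x ∈ R (m + n), 1 ≤ F^[n] (Measure.dirac x) (R m) := fun n => by
    induction n with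
    | zero => intro m x hx; exact (Measure.dirac_apply_of_mem (by simpa using hx)).ge
    | succ n ih =>
      intro m x hx
      rw [Function.iterate_succ_apply', F, Measure.map_apply M_meas (hm m)]
      refine le_trans ?_ (measure_mono (s := R (m + 1) ×ˢ univ) ?_)
      · rw [Measure.prod_prod, measure_univ, mul_one]
        exact ih (m + 1) x (by convert hx using 2; omega)
      · rintro ⟨y, c⟩ ⟨hy, -⟩
        simp only [hR, mem_ofPred_eq, mem_preimage] at hy ⊢
        obtain ⟨h2, h3, h4⟩ := hy
        refine ⟨?_, fun j hj => ?_, fun j hj => ?_⟩ <;> simp only [G.eq_def (M _), r, M, e_add]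
        · simp [h2, h3 m (by omega), h3 (m + 1) le_rfl]
        · simp [h3 j (by omega), h3 (j + -1) (by omega), h4 j (by omega)]
        · simp [h4 (j + 1) (by omega)]
  refine ⟨fun i => ((decide (i 0 = n + 1), false), false), ?_⟩
  rw [Function.iterate_succ_apply', cylF _ _ fun _ => ((true, false), false), le_antisymm prob_le_one
    ((h1 n 0 _ (by
      simp only [hR, G, r, e, mem_ofPred_eq, Pi.add_apply]
      exact ⟨by simp, fun j hj => by simp; omega, fun j hj => by simp; omega⟩)).trans (measure_mono fun x hx => by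
      rw [hR] at hx; simpa [Prod.ext_iff] using ⟨hx.1, hx.2.1 0 le_rfl⟩)), one_mul,
    show {c : (Fin 1 → ℤ) → Bool | ∀ i ∈ ({e 0} : Finset _), c i = false} =
      Set.pi ({e 0} : Finset _) fun _ => {false} from rfl, K,
    Measure.infinitePi_pi _ fun _ _ => .singleton _]
  simp [PMF.uniformOfFintype_apply]


/-- The negation of the preceding statement: For every PCA on A^(ℤ^d) with a finite alphabet and a finite neighbourhood: if all initial laws converge on cylinders to one limit π, then for each cylinder this convergence is uniform over all initial laws. -/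
theorem result :
    ¬ (∀ (d : ℕ) (A : Type) [Fintype A] [MeasurableSpace A] [DiscreteMeasurableSpace A]
    (N : Finset (Fin d → ℤ)) (f : (↥N → A) → ProbabilityMeasure A)
    (κ : Kernel ((Fin d → ℤ) → A) ((Fin d → ℤ) → A)),
    (∀ x : (Fin d → ℤ) → A,
      κ x = Measure.infinitePi
        (fun k : Fin d → ℤ => ((f (fun v : ↥N => x (k + (v : Fin d → ℤ)))) : Measure A))) →
    (∃ π : Measure ((Fin d → ℤ) → A), IsProbabilityMeasure π ∧
      ∀ μ : Measure ((Fin d → ℤ) → A), IsProbabilityMeasure μ →
        ∀ (S : Finset (Fin d → ℤ)) (a : (Fin d → ℤ) → A),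
          Tendsto (fun n : ℕ => ((fun ν : Measure ((Fin d → ℤ) → A) => ν.bind (⇑κ))^[n] μ)
              {x | ∀ k ∈ S, x k = a k})
            atTop (𝓝 (π {x | ∀ k ∈ S, x k = a k}))) →
    (∃ π : Measure ((Fin d → ℤ) → A), IsProbabilityMeasure π ∧
      ∀ (S : Finset (Fin d → ℤ)) (a : (Fin d → ℤ) → A), ∀ ε : ℝ, 0 < ε →
        ∃ n0 : ℕ, ∀ n : ℕ, n0 ≤ n →
          ∀ μ : Measure ((Fin d → ℤ) → A), IsProbabilityMeasure μ →
            |(((fun ν : Measure ((Fin d → ℤ) → A) => ν.bind (⇑κ))^[n] μ)
                {x | ∀ k ∈ S, x k = a k}).toReal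
              - (π {x | ∀ k ∈ S, x k = a k}).toReal| < ε)) := by
  intro H
  have h2 : ∀ s, MeasurableSet s → ∀ x, (K.map fun c => M (x, c)) s = K (Prod.mk x ⁻¹' (M ⁻¹' s)) :=
    fun s hs x => Measure.map_apply (M_meas.comp measurable_prodMk_left) hs
  have h3 : Measurable fun x => K.map fun c => M (x, c) :=
    Measure.measurable_of_measurable_coe _ fun s hs => by
      simp only [h2 s hs]; exact measurable_measure_prodMk_left (M_meas hs)
  have h4 : (fun ν : Measure X => ν.bind fun x => K.map fun c => M (x, c)) = F :=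
    funext fun ν => Measure.ext fun s hs => by
      rw [Measure.bind_apply hs h3.aemeasurable, F, Measure.map_apply M_meas hs,
        Measure.prod_apply (M_meas hs)]
      simp only [h2 s hs]
  obtain ⟨π, -, h⟩ := H 1 _ {e (-1), 0, e 1} (fun u => ⟨((PMF.uniformOfFintype Bool).map fun c =>
    (r (u ⟨e (-1), by simp⟩) (u ⟨0, by simp⟩) (u ⟨e 1, by simp⟩), c)).toMeasure, inferInstance⟩)
    ⟨_, h3⟩ (fun x => by
      simp only [ProbabilityMeasure.coe_mk, ← PMF.toMeasure_map _ _ (measurable_of_finite _),
        add_zero]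
      exact Measure.infinitePi_map_pi _ (f := fun i c => (G x i, c)) fun _ =>
        measurable_of_finite _)
    ⟨F^[1] (Measure.dirac fun _ => ((false, false), false)), inferInstance, fun μ _ D w => by
      simp only [Kernel.coe_mk, h4]; exact erg μ D w⟩
  obtain ⟨n, hn⟩ := h {e 0} (fun _ => ((true, false), false)) (1 / 8) (by norm_num)
  simp only [Kernel.coe_mk, h4] at hn
  have h5 := erg (Measure.dirac fun _ => ((false, false), false)) {e 0}
    fun _ => ((true, false), false)
  rw [cylF, Measure.dirac_apply' _ (by have := G_meas; measurability),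
    indicator_of_notMem (by simp [G, r]), zero_mul] at h5
  obtain ⟨m, h6, h7⟩ := ((((ENNReal.tendsto_toReal ENNReal.zero_ne_top).comp h5).eventually
    (gt_mem_nhds (show (0 : ℝ≥0∞).toReal < 1 / 8 by simp))).and (eventually_ge_atTop n)).exists
  obtain ⟨x, hx⟩ := run n
  have h8 := hn (n + 1) n.le_succ (Measure.dirac x) inferInstance
  have h9 := hn m h7 (Measure.dirac fun _ => ((false, false), false)) inferInstance
  rw [hx, abs_lt] at h8
  rw [abs_lt] at h9
  simp only [Function.comp] at h6
  norm_num at h8 h9 h6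
  linarith [h8.2, h9.1]

end Pool.Agent.S19358
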