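import Pool.Statements.S19375
import Pool.Agent.H22.Nil5

set_option autoImplicit false
open MeasureTheory ProbabilityTheory
open Pool Pool.MP_65c995_pr

namespace Pool.Agent.S19375
open Pool.Agent.H22.Nil Set in
lemma ce {m : MeasurableSpace Om} (n : ℤ) {A : Set S} (hA : MeasurableSet A)
    (h1 : m ≤ MeasurableSpace.pi.comap fun ω (i : Iic n) => X i ω) (h2 : Measurable[m] (X n)) :
    (fun ω => (ph A (X n ω)).toReal) =ᵐ[mu]
      condExp m mu (indicator (X (n + 1) ⁻¹' A) fun _ => (1 : ℝ)) := by
  letI : MeasurableSpace Om := MeasurableSpace.pi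
  have hm := h1.trans (measurable_pi_iff.2 fun i : Iic n => Xm i).comap_le
  have hf : Measurable fun ω => ph A (X n ω) := (phm hA).comp (Xm n)
  refine ae_eq_condExp_of_forall_setIntegral_eq hm ((integrable_const _).indicator (Xm _ hA))
    (fun s _ _ => Integrable.integrableOn (.of_bound hf.ennreal_toReal.aestronglyMeasurable 1
      (ae_of_all _ fun ω => ?_))) (fun s hs _ => ?_)
    ((phm hA).comp h2).ennreal_toReal.stronglyMeasurable.aestronglyMeasurable
  · simpa using ENNReal.toReal_mono (by simp) (ph1 A (X n ω))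
  · rw [integral_toReal hf.aemeasurable (ae_of_all _ fun ω => (ph1 _ _).trans_lt (by simp)),
      setIntegral_indicator (Xm _ hA)]
    rw [← markov n hA s (h1 _ hs)]
    simp [Measure.real]


/-- There exist a compact metric space S, a stationary Markov process (X_i) indexed by the integers with values in S, an integer k>0 and ε>0 such that X_0 and X_k are independent and dist(X_0,X_1) ≥ ε almost surely. -/
theorem result :
    ∃ (S : Type) (_ : MetricSpace S) (_ : CompactSpace S) (_ : MeasurableSpace S)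
      (_ : BorelSpace S) (Ω : Type) (_ : MeasurableSpace Ω) (μ : MeasureTheory.Measure Ω)
      (X : ℤ → Ω → S) (k : ℤ) (ε : ℝ),
      MeasureTheory.IsProbabilityMeasure μ ∧
      (∀ i, Measurable (X i)) ∧
      (∀ n : ℤ, μ.map (fun ω (i : ℤ) => X (i + n) ω) = μ.map (fun ω (i : ℤ) => X i ω)) ∧
      (∀ (n : ℤ) (A : Set S), MeasurableSet A →
        MeasureTheory.condExp (⨆ (m : ℤ) (_ : m ≤ n), MeasurableSpace.comap (X m) inferInstance) μ
          (Set.indicator (X (n + 1) ⁻¹' A) (fun _ => (1 : ℝ)))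
        =ᵐ[μ] MeasureTheory.condExp (MeasurableSpace.comap (X n) inferInstance) μ
          (Set.indicator (X (n + 1) ⁻¹' A) (fun _ => (1 : ℝ)))) ∧
      0 < k ∧ 0 < ε ∧
      ProbabilityTheory.IndepFun (X 0) (X k) μ ∧
      ∀ᵐ ω ∂μ, ε ≤ dist (X 0 ω) (X 1 ω) := by
  open Pool.Agent.H22.Nil Set in
  letI : MetricSpace S := TopologicalSpace.metrizableSpaceMetric S
  have hc : IsCompact {p : S × S | p.1.1 ≠ p.2.1} :=
    ((isClosed_discrete {q : G × G | q.1 ≠ q.2}).preimage (f := fun p : S × S => (p.1.1, p.2.1))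
      (by fun_prop)).isCompact
  obtain ⟨ε, h0, hε⟩ := hc.exists_forall_le' (f := fun p : S × S => dist p.1 p.2) (a := 0)
    (by fun_prop) fun p hp => dist_pos.2 fun e => hp (by rw [e])
  refine ⟨S, inferInstance, inferInstance, inferInstance, inferInstance, Om, inferInstance, mu, X,
    2, ε, inferInstance, Xm, fun n => ?_, fun n A hA => ?_, two_pos, h0, ?_, ?_⟩
  · conv_rhs => rw [← (sft_mp n).map_eq]
    rw [Measure.map_map (by fun_prop) (sft_mp n).measurable]
    simp only [Function.comp_def, Xs]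
  · have e := MeasurableSpace.comap_process_pi fun (i : Iic n) ω => X i ω
    refine (ce n hA ?_ ?_).symm.trans (ce n hA ?_ (comap_measurable _))
    · rw [e]; exact iSup₂_le fun i hi => le_iSup_of_le (⟨i, hi⟩ : Iic n) le_rfl
    · exact Measurable.of_comap_le (le_iSup₂_of_le n le_rfl le_rfl)
    · rw [e]; exact le_iSup_of_le (⟨n, self_mem_Iic⟩ : Iic n) le_rfl
  · exact (ind1 (A := {0}) (B := {2}) (by simp)).comp (measurable_pi_apply ⟨0, rfl⟩)
      (measurable_pi_apply ⟨2, rfl⟩)
  · filter_upwards [proper 0] with ω hω using hε (X 0 ω, X 1 ω) hω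

end Pool.Agent.S19375
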