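import Pool.Statements.S19386
import Pool.Agent.H29.Queue

set_option autoImplicit false
open Pool Pool.MP_68c8f2_pr

namespace Pool.Agent.S19386

open Pool.Agent.H29.Queue MeasureTheory ProbabilityTheory in
theorem result :
    ¬ (∀ (k : ℕ), 1 ≤ k →
  ∀ (Ω : Type) [MeasurableSpace Ω] (μ : MeasureTheory.Measure Ω)
    [MeasureTheory.IsProbabilityMeasure μ]
    (T S : ℕ → Ω → ℝ),
    (∀ n, Measurable (T n)) → (∀ n, Measurable (S n)) →
    ProbabilityTheory.iIndepFun (fun i : ℕ ⊕ ℕ => Sum.elim T S i) μ →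
    (∀ n, ProbabilityTheory.IdentDistrib (T n) (T 0) μ μ) →
    (∀ n, ProbabilityTheory.IdentDistrib (S n) (S 0) μ μ) →
    (∀ n ω, 0 ≤ T n ω) → (∀ n ω, 0 ≤ S n ω) →
    MeasureTheory.Integrable (T 0) μ → MeasureTheory.Integrable (S 0) μ →
    (∫ ω, S 0 ω ∂μ) < (k : ℝ) * ∫ ω, T 0 ω ∂μ →
    ∀ (V : ℕ → Ω → Fin k → ℝ) (U : ℕ → Ω → ℝ),
    (∀ ω j, V 0 ω j = 0) →
    (∀ n ω, ∃ i : Fin k, (∀ j, V n ω i ≤ V n ω j) ∧
      ∀ j, V (n + 1) ω j = max 0 (V n ω j + (if j = i then S n ω else 0) - T n ω)) →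
    (∀ ω, U 0 ω = 0) →
    (∀ n ω, U (n + 1) ω = max 0 (U n ω + S n ω / (k : ℝ) - T n ω)) →
    (⨆ n, ∫⁻ ω, ENNReal.ofReal (⨅ j, V n ω j) ∂μ) ≤
      ⨆ n, ∫⁻ ω, ENNReal.ofReal (U n ω) ∂μ) := by
  intro H
  let X : ℕ ⊕ ℕ → Bool → ℝ := Sum.elim (fun _ _ => 2) (fun _ => sv)
  have hi : iIndepFun (fun i (ω : Om) => X i (ω i)) mu :=
    iIndepFun_infinitePi (X := X) (fun i => measurable_of_finite _)
  have hS : ∀ n, Measurable fun ω : Om => sv (ω (.inr n)) := fun n =>
    (measurable_of_finite sv).comp (measurable_pi_apply _)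
  have key := H 2 (by norm_num) Om mu (fun _ _ => 2) (fun n ω => sv (ω (.inr n)))
    (fun _ => measurable_const) hS
    (by convert hi using 2 with i; cases i <;> rfl)
    (fun n => IdentDistrib.refl measurable_const.aemeasurable)
    (fun n => IdentDistrib.comp (f := fun ω : Om => ω (.inr n)) (g := fun ω : Om => ω (.inr 0))
      ⟨(mp _).measurable.aemeasurable, (mp _).measurable.aemeasurable,
        by rw [(mp _).map_eq, (mp _).map_eq]⟩ (measurable_of_finite sv))
    (fun _ _ => by norm_num) (fun n ω => by unfold sv; split_ifs <;> norm_num)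
    (integrable_const _) (mu_integrable _ sv)
    (by rw [mu_int]; simp [sv]; norm_num)
    V (fun n ω => (Y n ω : ℝ) / 2) (fun _ _ => rfl)
    (fun n ω => ⟨if V n ω 0 ≤ V n ω 1 then 0 else 1, fun j => by
      split_ifs with h <;> fin_cases j
      · exact le_rfl
      · exact h
      · exact (not_le.1 h).le
      · exact le_rfl, fun _ => rfl⟩)
    (fun ω => by simp [Y])
    (fun n ω => by
      simp only [Y, sv]
      split_ifs
      · rw [max_eq_right (by have : (0 : ℝ) ≤ Y n ω := by positivity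
                             push_cast; linarith)]
        push_cast; ring
      · cases Y n ω with
        | zero => norm_num
        | succ k =>
          have : (0 : ℝ) ≤ k := by positivity
          rw [Nat.add_sub_cancel, max_eq_right (by push_cast; linarith)]
          push_cast; ring)
  have := (V_low.trans (le_iSup (fun n => ∫⁻ ω, ENNReal.ofReal (⨅ j, V n ω j) ∂mu) 2)).trans
    (key.trans (iSup_le U_le))
  rw [ENNReal.ofReal_le_ofReal_iff (by norm_num)] at this
  norm_num at this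

end Pool.Agent.S19386
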