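import Pool.Statements.S19414
import Pool.Agent.H22.TG2

set_option autoImplicit false
open MeasureTheory ProbabilityTheory
open Pool Pool.MP_76c567_pr

namespace Pool.Agent.S19414
open Set Filter Pool.Agent.H22.Glue Pool.Agent.H22.T3 Pool.Agent.H22.TG

/-- The negation of the preceding statement: On a regular tree of degree at least 3, every automorphism-invariant finitely dependent process with standard Borel values is an equivariant factor of i.i.d. uniform labels with almost surely finite coding radius. -/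
theorem result :
    ¬ (∀ (V : Type) (G : SimpleGraph V) (d : ℕ), 3 ≤ d → G.IsTree →
    (∀ v : V, (G.neighborSet v).ncard = d) →
    ∀ (S : Type) [MeasurableSpace S] [StandardBorelSpace S] (μ : Measure (V → S)),
      IsProbabilityMeasure μ →
      (∀ φ : G ≃g G, μ.map (fun x : V → S => fun v => x (φ v)) = μ) →
      (∃ k : ℕ, ∀ A B : Set V, (∀ a ∈ A, ∀ b ∈ B, k < G.dist a b) →
        Indep (MeasurableSpace.comap (fun x : V → S => fun a : A => x a) inferInstance)
          (MeasurableSpace.comap (fun x : V → S => fun b : B => x b) inferInstance) μ) →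
      ∃ F : (V → unitInterval) → (V → S), Measurable F ∧
        (Measure.infinitePi (fun _ : V => (volume : Measure unitInterval))).map F = μ ∧
        (∀ φ : G ≃g G, ∀ᵐ y ∂(Measure.infinitePi (fun _ : V => (volume : Measure unitInterval))),
          F (fun v => y (φ v)) = fun v => F y (φ v)) ∧
        (∀ᵐ y ∂(Measure.infinitePi (fun _ : V => (volume : Measure unitInterval))),
          ∀ v : V, ∃ r : ℕ, ∀ y' : V → unitInterval,
            (∀ u : V, G.dist v u ≤ r → y' u = y u) → F y' v = F y v)) := by
  intro H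
  have hX := X_meas univ
  obtain ⟨F, hF, hl, he, hf⟩ := H V G 3 le_rfl tree deg (C → Z) (PP.map (X univ))
    (Measure.isProbabilityMeasure_map hX.aemeasurable) (fun φ => by
      have h := reidx (un 100) (φ.toEquiv.prodCongr (Equiv.refl C))
      refine Eq.trans ?_ (congrArg _ h.map_eq)
      rw [Measure.map_map (by fun_prop) hX, Measure.map_map hX h.measurable]
      exact congrArg (Measure.map · _) (funext fun ω => funext fun v => (X_iso φ ω v).symm))
    ⟨4, fun A B h => by
      rw [← IndepFun_iff_Indep, indepFun_iff_map_prod_eq_prod_map_map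
        (Measurable.aemeasurable (by fun_prop)) (Measurable.aemeasurable (by fun_prop)),
        Measure.map_map (by fun_prop) hX, Measure.map_map (by fun_prop) hX,
        Measure.map_map (by fun_prop) hX]
      exact (indepFun_iff_map_prod_eq_prod_map_map (Measurable.aemeasurable (by fun_prop))
        (Measurable.aemeasurable (by fun_prop))).1 (dep A B h)⟩
  set P := Measure.infinitePi fun _ : V => (volume : Measure unitInterval)
  have hμ : ∀ E, MeasurableSet E → P (F ⁻¹' E) = PP (X univ ⁻¹' E) := fun E hE => by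
    rw [← Measure.map_apply hF hE, hl, Measure.map_apply hX hE]
  let Gd : ℕ → V → Set (V → unitInterval) := fun r v =>
    {y | P {y' | F (gl {u | r < G.dist v u} y y') v ≠ F y v} = 0}
  have hb : ∀ (D : Set V) v, MeasurableSet {p : (V → unitInterval) × (V → unitInterval) |
      F (gl D p.1 p.2) v ≠ F p.1 v} := fun D v => (measurableSet_eq_fun
    ((measurable_pi_apply v).comp (hF.comp (glue_meas D))) (by fun_prop)).compl
  have hG : ∀ r v, MeasurableSet (Gd r v) := fun r v =>
    measurable_measure_prodMk_left (hb _ v) (measurableSet_singleton 0)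
  obtain ⟨r, hr⟩ : ∃ r, P.real (Gd r o)ᶜ ≤ 1 / 10 := by
    let E : ℕ → Set (V → unitInterval) := fun r =>
      {y | ∀ y' : V → unitInterval, (∀ u, G.dist o u ≤ r → y' u = y u) → F y' o = F y o}
    have h1 : P (⋃ r, E r) = 1 := by
      rw [← measure_univ (μ := P)]
      exact measure_congr (eventuallyEq_univ.2 (hf.mono fun y h => mem_iUnion.2 (h o)))
    rw [Monotone.measure_iUnion (s := E) fun a b h y hy y' h' =>
      hy y' fun u hu => h' u (hu.trans h)] at h1
    obtain ⟨r, hr⟩ := lt_iSup_iff.1 (show ENNReal.ofReal (9 / 10) < _ from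
      h1 ▸ ENNReal.ofReal_lt_one.2 (by norm_num))
    refine ⟨r, ?_⟩
    have h2 : E r ⊆ Gd r o := fun y hy => measure_mono_null
      (fun y' h => h (hy _ fun u hu => gl_out _ _ (not_lt.2 hu))) measure_empty
    have := ENNReal.ofReal_lt_iff_lt_toReal (by norm_num) (measure_ne_top _ _) |>.1
      (hr.trans_le (measure_mono h2))
    rw [probReal_compl_eq_one_sub (hG r o), Measure.real]
    linarith
  have hT : ∀ v, MeasurableSet {z : V → C → Z | TF (fun u => z u none) v} := fun v =>
    measurableSet_setOfPred.2 (.forall fun a => .forall fun b => Measurable.imp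
      (Measurable.eq (by fun_prop) (by fun_prop)) measurable_const)
  let g : V → Set (V → unitInterval) := fun v => Gd r v ∩ F ⁻¹' {z | TF (fun u => z u none) v}
  have hg : ∀ v, MeasurableSet (g v) := fun v => (hG r v).inter (hF (hT v))
  have hσ : ∀ s, MeasurePreserving (fun (y : V → unitInterval) v => y (τ s v)) P P :=
    fun s => reidx _ (τ s).toEquiv
  have h1 := prune P g hg _ hσ (fun s => by
    filter_upwards [he (τ s), Measure.ae_ae_of_ae_prod (ae_all_iff.2 fun v =>
      (glue (fun _ : V => (volume : Measure unitInterval))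
        {u | r < G.dist v u}).quasiMeasurePreserving.ae (he (τ s)))] with y h1 h2 v
    refine and_congr ?_ ⟨fun h => ?_, fun h => ?_⟩
    · change P _ = 0 ↔ P _ = 0
      refine Eq.congr_left (((hσ s).measure_preimage
        (measurable_prodMk_left (hb _ v)).nullMeasurableSet).symm.trans
        (measure_congr (h2.mono fun y' h3 => propext ?_)))
      change F (gl {u | r < G.dist v u} (fun v => y (τ s v)) (fun v => y' (τ s v))) v ≠
        F (fun v => y (τ s v)) v ↔ F (gl {u | r < G.dist (τ s v) u} y y') (τ s v) ≠ F y (τ s v)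
      have e1 : F _ v = F _ (τ s v) := congrFun (h3 (τ s v)) v
      have e2 : F _ v = F _ (τ s v) := congrFun h1 v
      rw [← e1, ← e2]
      refine iff_of_eq (congrArg (F · v ≠ _) (funext fun u => ?_))
      by_cases hu : r < G.dist v u
      · rw [gl_in _ _ (show u ∈ {u | r < G.dist v u} from hu), gl_in _ _
          (show τ s u ∈ {u | r < G.dist (τ s v) u} by simpa [iso_dist] using hu)]
      · rw [gl_out _ _ (show u ∉ {u | r < G.dist v u} from hu), gl_out _ _
          (show τ s u ∉ {u | r < G.dist (τ s v) u} by simpa [iso_dist] using hu)]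
    · simp only [mem_preimage, h1, mem_ofPred_eq] at h
      show TF (fun u => F y u none) (τ s v)
      simpa using tf_iso (τ s).symm (fun u => F y (τ s u) none) (τ s v) (by simpa)
    · simp only [mem_preimage, h1, mem_ofPred_eq]
      exact tf_iso (τ s) (fun u => F y u none) v h) (4 * r + 2)
  have h2 : P.real (g o)ᶜ ≤ 1 / 10 + 1 / 10 := by
    rw [compl_inter]
    refine (measureReal_union_le _ _).trans (add_le_add hr ?_)
    rw [← preimage_compl, Measure.real, hμ _ (hT o).compl]
    exact tie
  have det : ∀ v y y', y ∈ g v → y' ∈ g v → (∀ u, G.dist v u ≤ r → y u = y' u) →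
      F y v = F y' v := by
    intro v y y' h h' e
    obtain ⟨y'', h3, h4⟩ := ((measure_eq_zero_iff_ae_notMem.1 h.1).and
      (measure_eq_zero_iff_ae_notMem.1 h'.1)).exists
    rw [← not_not.1 h3, ← not_not.1 h4]
    refine congrArg (F · v) (funext fun u => ?_)
    by_cases hu : u ∈ {u | r < G.dist v u}
    · rw [gl_in _ _ hu, gl_in _ _ hu]
    · rw [gl_out _ _ hu, gl_out _ _ hu, e u (not_lt.1 hu)]
  have key : ∀ (c : List Z) (γ : ℕ → V), P {y | 4 * r < G.dist (γ 0) (γ (4 * r + 2)) ∧
      (∀ k < 4 * r + 2, G.Adj (γ k) (γ (k + 1))) ∧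
      ∀ k ≤ 4 * r + 2, y ∈ g (γ k) ∧ F y (γ k) none = c.getD k 0} = 0 := by
    intro c γ
    by_cases h3 : 4 * r < G.dist (γ 0) (γ (4 * r + 2)) ∧ ∀ k < 4 * r + 2, G.Adj (γ k) (γ (k + 1))
    swap
    · exact measure_mono_null (fun y h => h3 ⟨h.1, h.2.1⟩) measure_empty
    let x : ℕ → ℕ → (V → C → Z) → Z := fun j s z => z (γ s) (some ((c, 4 * r, j), s))
    let Q := {z | ∀ j, ∑ s ∈ Finset.Ico 1 (4 * r + 2), x j s z = x j 0 z * x j (4 * r + 2) z}
    have hQ : MeasurableSet Q := measurableSet_setOfPred.2 (.forall fun j =>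
      Measurable.eq (by fun_prop) (by fun_prop))
    let A := (⋂ k ≤ 4 * r + 2, g (γ k)) ∩ F ⁻¹' Q
    have hA : MeasurableSet A := (MeasurableSet.biInter (to_countable _) fun k _ => hg _).inter (hF hQ)
    let N := {z : V → C → Z | ∀ k ≤ 4 * r + 2, z (γ k) none = c.getD k 0 ∧
      TF (fun u => z u none) (γ k)}
    have hN : MeasurableSet N := measurableSet_setOfPred.2 (.forall fun k => measurable_const.imp
      ((Measurable.eq (by fun_prop) measurable_const).and (measurableSet_setOfPred.1 (hT _))))
    have h0 : ∀ ω v i s, s ≠ 1 → X univ ω v (some (i, s)) = ω (v, some (i, s)) :=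
      fun ω v i s h => X2_no _ fun h' => h h'.1
    have h4 : P (F ⁻¹' (N \ Q)) = 0 := by
      rw [hμ _ (hN.diff hQ)]
      refine measure_mono_null (fun ω h => h.2 fun j => ?_) measure_empty
      have h5 : x j 1 (X univ ω) = _ := X2_ok (i := (c, 4 * r, j)) (γ := γ) ω
        ⟨fun k hk => ⟨(h.1 k hk).1, (h.1 k hk).2, h3.2 k⟩, rfl, fun _ _ => trivial⟩
      rw [Finset.sum_eq_sum_Ico_succ_bot (by omega), h5, Finset.sum_congr rfl fun u hu =>
        h0 ω _ _ u (by have := (Finset.mem_Ico.1 hu).1; omega)]
      simp only [x, gad, h0 ω _ _ 0 (by omega), h0 ω _ _ (4 * r + 2) (by omega)]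
      ring
    let U := {u | G.dist (γ 0) u ≤ r}
    let W := {u | G.dist (γ (4 * r + 2)) u ≤ r}
    have h5 : P A = 0 := null _ U hA fun y1 => null _ W (hA.inter
        ((glue_meas U).comp measurable_prodMk_right hA)) fun y2 => by
      by_cases h5 : ∃ y0, gl U (gl W y0 y2) y1 ∈ A
      swap
      · exact measure_mono_null (fun y h => h5 ⟨y, h.2.2⟩) measure_empty
      obtain ⟨y0, h5⟩ := h5
      have h6 := hμ {z | ∀ j, (x j 0 z - x j 0 (F (gl U (gl W y0 y2) y1))) *
        (x j (4 * r + 2) z - x j (4 * r + 2) (F (gl U (gl W y0 y2) y1))) = 0}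
        (measurableSet_setOfPred.2 (.forall fun j => Measurable.eq (by fun_prop) measurable_const))
      simp only [preimage_ofPred_eq, x, h0 _ _ _ 0 (by omega), h0 _ _ _ (4 * r + 2) (by omega),
        many] at h6
      refine measure_mono_null ?_ h6
      rintro y ⟨⟨a0, a1⟩, a2, a3⟩ j
      have d : ∀ {y y'}, y ∈ A → y' ∈ A → ∀ s ≤ 4 * r + 2, (∀ u, G.dist (γ s) u ≤ r → y u = y' u) →
          x j s (F y) = x j s (F y') := fun h h' s hs e =>
        congrFun (det _ _ _ (mem_iInter₂.1 h.1 s hs) (mem_iInter₂.1 h'.1 s hs) e) _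
      have tri : ∀ s u, 2 * r < G.dist (γ s) (γ 0) → G.dist (γ s) u ≤ r → u ∉ U := by
        intro s u h h' (h7 : _ ≤ r)
        have := conn.dist_triangle (u := γ s) (v := u) (w := γ 0)
        rw [SimpleGraph.dist_comm] at h7
        omega
      have tri' : ∀ s u, 2 * r < G.dist (γ s) (γ (4 * r + 2)) → G.dist (γ s) u ≤ r → u ∉ W := by
        intro s u h h' (h7 : _ ≤ r)
        have := conn.dist_triangle (u := γ s) (v := u) (w := γ (4 * r + 2))
        rw [SimpleGraph.dist_comm] at h7
        omega
      have dU : ∀ s ≤ 4 * r + 2, 2 * r < G.dist (γ s) (γ 0) → x j s (F (gl U y y1)) = x j s (F y) ∧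
          x j s (F (gl U (gl W y y2) y1)) = x j s (F (gl W y y2)) := fun s hs h =>
        ⟨d a1 a0 s hs fun u hu => gl_out _ _ (tri s u h hu),
          d a3 a2 s hs fun u hu => gl_out _ _ (tri s u h hu)⟩
      have dW : ∀ s ≤ 4 * r + 2, 2 * r < G.dist (γ s) (γ (4 * r + 2)) →
          x j s (F (gl W y y2)) = x j s (F y) ∧
          x j s (F (gl U (gl W y y2) y1)) = x j s (F (gl U y y1)) := fun s hs h =>
        ⟨d a2 a0 s hs fun u hu => gl_out _ _ (tri' s u h hu),
          d a3 a1 s hs fun u hu => by
            by_cases hU : u ∈ U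
            · rw [gl_in _ _ hU, gl_in _ _ hU]
            · rw [gl_out _ _ hU, gl_out _ _ hU, gl_out _ _ (tri' s u h hu)]⟩
      have h7 : ∑ s ∈ Finset.Ico 1 (4 * r + 2), (x j s (F y) - x j s (F (gl U y y1)) -
          x j s (F (gl W y y2)) + x j s (F (gl U (gl W y y2) y1))) = 0 := by
        refine Finset.sum_eq_zero fun s hs => ?_
        have h7 := (Finset.mem_Ico.1 hs).2.le
        have h8 := conn.dist_triangle (u := γ 0) (v := γ s) (w := γ (4 * r + 2))
        rw [SimpleGraph.dist_comm (v := γ s)] at h8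
        by_cases h9 : 2 * r < G.dist (γ s) (γ 0)
        · rw [(dU s h7 h9).1, (dU s h7 h9).2]; ring
        · rw [(dW s h7 (by omega)).1, (dW s h7 (by omega)).2]; ring
      have h8 := dW 0 (by omega) (by omega)
      have h9 : 2 * r < G.dist (γ (4 * r + 2)) (γ 0) := by rw [SimpleGraph.dist_comm]; omega
      have h10 := dU _ le_rfl h9
      have h11 := d a3 h5 0 (by omega) fun u hu => by
        rw [gl_in _ _ (show u ∈ U from hu), gl_in _ _ (show u ∈ U from hu)]
      have h12 := d a3 h5 _ le_rfl fun u hu => by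
        rw [gl_out _ _ (tri _ u h9 hu), gl_out _ _ (tri _ u h9 hu), gl_in _ _ (show u ∈ W from hu),
          gl_in _ _ (show u ∈ W from hu)]
      simp only [Finset.sum_add_distrib, Finset.sum_sub_distrib] at h7
      rw [a0.2 j, a1.2 j, a2.2 j, a3.2 j, h8.1, ← h8.2, h10.1, ← h10.2, h11, h12] at h7
      simp only [x] at h7
      linear_combination h7
    refine measure_mono_null (fun y h => ?_) (measure_union_null h4 h5)
    by_cases h6 : F y ∈ Q
    · exact .inr ⟨mem_iInter₂.2 fun k hk => (h.2.2 k hk).1, h6⟩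
    · exact .inl ⟨fun k hk => ⟨(h.2.2 k hk).2, (h.2.2 k hk).1.2⟩, h6⟩
  have h3 : P (Gn g (4 * r + 2) o) = 0 := by
    refine measure_mono_null (fun y hy => ?_) (measure_iUnion_null fun c : List Z =>
      measure_iUnion_null fun f : Fin (4 * r + 2 + 1) → V =>
        key c fun k => f ⟨min k (4 * r + 2), by omega⟩)
    obtain ⟨γ, h3, h4, h5, h6⟩ := path g y _ o hy
    refine mem_iUnion₂.2 ⟨(List.range (4 * r + 3)).map fun k => F y (γ k) none, fun k => γ k, ?_,
      fun k hk => ?_, fun k hk => ?_⟩
    · have := len_le (γ (4 * r + 2))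
      simp only [zero_le, inf_of_le_left, h3, min_self]
      omega
    · simpa [hk.le, Nat.succ_le_of_lt hk] using h4 k hk
    · simp [hk, h5 k hk, Nat.lt_succ_of_le hk]
  have h4 := measureReal_le_measureReal_union_right (μ := P) (s := (Gn g (4 * r + 2) o)ᶜ)
    (t := Gn g (4 * r + 2) o) (measure_ne_top _ _)
  have h5 := measureReal_union_le (μ := P) (Gn g (4 * r + 2) o) (Gn g (4 * r + 2) o)ᶜ
  rw [union_compl_self, probReal_univ, Measure.real, h3, ENNReal.toReal_zero] at h5
  linarith

end Pool.Agent.S19414
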