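import Pool.Statements.S19424
import Pool.Agent.H12.Toom

set_option autoImplicit false
open MeasureTheory Filter Topology
open Pool Pool.MP_798553_pr

namespace Pool.Agent.S19424

open Set ProbabilityTheory Pool.Agent.H12.Toom
open scoped ENNReal

/-- sites -/
abbrev I : Type := Fin 2 → ℤ

/-- a nilpotent automaton: it computes an eroder and writes the answer in dead symbols -/
def F (x : I → Fin 3) (i : I) : Fin 3 :=
  if (x i = 1 ∧ x (i + ![1, 0]) = 1) ∨ (x (i + ![0, 1]) = 1 ∧ x (i + ![1, 1]) = 1) then 2 else 0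

/-- the noise revives dead symbols -/
def rev (b : Fin 3) : Fin 4 → Fin 3 := ![0, 1, 2, if b = 2 then 1 else 0]

/-- the random input -/
noncomputable def coin : PMF (Fin 4) :=
  PMF.ofFintype (fun c => if c = 3 then 1 - 3 * 2⁻¹ ^ 19 else 2⁻¹ ^ 19) (by
    have h : (3 * 2⁻¹ ^ 19 : ℝ≥0∞) ≤ 1 := by
      rw [← ENNReal.inv_pow, ← div_eq_mul_inv, ENNReal.div_le_iff (by simp) (by simp)]; norm_num
    refine Eq.trans ?_ (add_tsub_cancel_of_le h)
    simp [Fin.sum_univ_four]
    ring)

/-- random inputs at one time -/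
noncomputable def K : Measure (I → Fin 4) := Measure.infinitePi fun _ => coin.toMeasure

instance : IsProbabilityMeasure K := by unfold K; infer_instance

/-- one move -/
def T (p : (I → Fin 3) × (I → Fin 4)) (i : I) : Fin 3 := rev (F p.1 i) (p.2 i)

lemma T_meas : Measurable T := measurable_pi_lambda _ fun i =>
  (measurable_of_finite fun p : (Fin 4 → Fin 3) × Fin 4 => rev (if (p.1 0 = 1 ∧ p.1 1 = 1) ∨
    (p.1 2 = 1 ∧ p.1 3 = 1) then 2 else 0) p.2).comp (f := fun p : (I → Fin 3) × (I → Fin 4) =>
      (fun k => p.1 (i + ![0, ![1, 0], ![0, 1], ![1, 1]] k), p.2 i)) (by fun_prop) |>.mono le_rfl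
        le_rfl |> fun h => by simpa [Function.comp_def, T, F] using h

/-- trajectories -/
def traj (x : I → Fin 3) : ℕ → (ℕ → I → Fin 4) → I → Fin 3
  | 0, _ => x
  | n + 1, ω => T (traj x n ω, ω n)

lemma traj_meas (x : I → Fin 3) (n : ℕ) : Measurable (traj x n) := by
  induction n with
  | zero => exact measurable_const
  | succ n ih => exact T_meas.comp (ih.prodMk (measurable_pi_apply n))

lemma law (x : I → Fin 3) (n : ℕ) : (fun m => (m.prod K).map T)^[n] (Measure.dirac x) =
    (Measure.infinitePi fun _ : ℕ => K).map (traj x n) := by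
  induction n with
  | zero => simp [traj]
  | succ n ih =>
    have h1 : ∀ n, DependsOn (traj x n) (Finset.range n) := fun n => by
      induction n with
      | zero => exact fun _ _ _ => rfl
      | succ n ih =>
        intro y z h
        rw [traj, traj, h n (by simp), ih fun i hi => h i (by simp at hi ⊢; omega)]
    have h2 := ((iIndepFun_infinitePi (P := fun _ : ℕ => K) (X := fun _ a => a)
      fun _ => measurable_id).indepFun_finset (Finset.range n) {n} (by simp) (by fun_prop)).comp
        ((traj_meas x n).comp (measurable_updateFinset (x := fun _ _ => 0)))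
        (measurable_pi_apply ⟨n, by simp⟩)
    have h3 : IndepFun (traj x n) (fun ω => ω n) (Measure.infinitePi fun _ : ℕ => K) := by
      convert h2 using 1
      · exact funext fun ω => h1 n fun i hi => by
          simp [Function.updateFinset, Finset.mem_coe.mp hi]
      · rfl
    have h4 := (indepFun_iff_map_prod_eq_prod_map_map (traj_meas x n).aemeasurable
      (measurable_pi_apply n).aemeasurable).mp h3
    rw [Measure.infinitePi_map_eval] at h4
    rw [Function.iterate_succ_apply', ih, ← h4, Measure.map_map T_meas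
      ((traj_meas x n).prodMk (measurable_pi_apply n))]
    rfl

lemma stable (x : I → Fin 3) (σ : ℤ → ℤ → I) (hσ : ∀ a b c d, σ a b = σ c d → a = c ∧ b = d)
    (D : Fin 3 → Prop) (h0 : ∀ i, ¬D (x i)) (h : ∀ y a b, D (rev (F y (σ a b)) 3) → ∃ u v : ℤ,
      (u = 0 ∨ u = 1) ∧ (v = 0 ∨ v = 1) ∧ D (y (σ (a + 1) (b + u))) ∧ D (y (σ a (b + v)))) (n : ℕ) :
    (Measure.infinitePi fun _ : ℕ => K) {ω | D (traj x n ω (σ 0 0))} ≤ 3⁻¹ := by
  refine le_trans (measure_mono fun ω hω => ?_) (peierls _ (err := fun ω p => 0 < p.2.2 ∧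
    ω (p.2.2 - 1).toNat (σ p.1 p.2.1) ≠ 3) (fun l hl => ?_) (0, 0, n))
  · have h1 : ∀ p : Pt, 0 ≤ p.2.2 ∧ D (traj x p.2.2.toNat ω (σ p.1 p.2.1)) → 0 < p.2.2 :=
      fun p hp => hp.1.lt_of_ne fun h2 => h0 _ (by simpa [← h2, traj] using hp.2)
    refine contour (fun p hp => ?_) h1 ⟨by simp, hω⟩
    have h2 := h1 p hp
    have h3 := hp.2
    rw [show p.2.2.toNat = (p.2.2 - 1).toNat + 1 by omega, traj, T] at h3
    refine or_iff_not_imp_left.mpr fun h4 => ?_
    simp only [h2, true_and, not_not] at h4
    simp only [h4] at h3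
    obtain ⟨u, v, h5, h6, h7, h8⟩ := h _ _ _ h3
    exact ⟨u, v, h5, h6, ⟨by simp only; omega, h7⟩, by simp only; omega, h8⟩
  · by_cases h1 : ∀ m ∈ l, 0 < m.2.2
    swap
    · exact (measure_mono (t := ∅) fun ω hω => h1 fun m hm => (hω m hm).1).trans (by simp)
    have h2 : (l.map fun p => ((p.2.2 - 1).toNat, σ p.1 p.2.1)).Nodup :=
      hl.map_on fun p hp q hq h3 => by
        have h4 := hσ _ _ _ _ (congrArg Prod.snd h3)
        have h5 := congrArg Prod.fst h3
        have := h1 p hp
        have := h1 q hq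
        exact Prod.ext h4.1 (Prod.ext h4.2 (by simp only at h5; omega))
    rw [K, ← Measure.infinitePi_map_curry fun _ _ => coin.toMeasure, MeasurableEquiv.map_apply]
    refine (measure_mono (t := Set.pi (l.map fun p => ((p.2.2 - 1).toNat, σ p.1 p.2.1)).toFinset
      fun _ => {3}ᶜ) fun ω hω q hq => ?_).trans ?_
    · obtain ⟨p, hp, rfl⟩ := List.mem_map.mp (List.mem_toFinset.mp hq)
      exact (hω p hp).2
    · rw [Measure.infinitePi_pi _ fun _ _ => .of_discrete, Finset.prod_const,
        List.toFinset_card_of_nodup h2, List.length_map, prob_compl_eq_one_sub .of_discrete,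
        PMF.toMeasure_apply_singleton _ _ .of_discrete]
      refine pow_le_pow_left' (tsub_tsub_le.trans ?_) _
      rw [show 19 = 2 + 17 from rfl, pow_add, ← mul_assoc]
      refine mul_le_of_le_one_left' ?_
      rw [← ENNReal.inv_pow, ← div_eq_mul_inv, ENNReal.div_le_iff (by simp) (by simp)]
      norm_num


/-- The negation of the preceding statement: For every nilpotent cellular automaton on ℤ^d with finite alphabet and every positive cellwise noise matrix, the noisy dynamics (CA then independent noise) has a probability measure to which all initial measures converge weakly. -/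
theorem result :
    ¬ (∀ (d q : ℕ) (N : Finset (Fin d → ℤ)) (f : (N → Fin q) → Fin q)
    (F : ((Fin d → ℤ) → Fin q) → ((Fin d → ℤ) → Fin q)),
    (∀ x i, F x i = f (fun v => x (i + v.1))) →
    (∃ n : ℕ, ∃ a : Fin q, ∀ x, F^[n] x = fun _ => a) →
    ∀ θ : Fin q → PMF (Fin q), (∀ a b, θ a b ≠ 0) →
    ∃ ν : Measure ((Fin d → ℤ) → Fin q), IsProbabilityMeasure ν ∧
      ∀ μ : Measure ((Fin d → ℤ) → Fin q), IsProbabilityMeasure μ →
        ∀ (S : Finset (Fin d → ℤ)) (c : (Fin d → ℤ) → Fin q),
          Tendsto (fun n : ℕ =>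
              ((fun m : Measure ((Fin d → ℤ) → Fin q) =>
                  m.bind (fun x => Measure.infinitePi
                    (fun i : Fin d → ℤ => (θ (F x i)).toMeasure)))^[n] μ)
                {y | ∀ i ∈ S, y i = c i})
            atTop (𝓝 (ν {y | ∀ i ∈ S, y i = c i}))) := by
  intro H
  obtain ⟨ν, -, h⟩ := H 2 3 {0, ![1, 0], ![0, 1], ![1, 1]} (fun u => if (u ⟨0, by simp⟩ = 1 ∧
    u ⟨![1, 0], by simp⟩ = 1) ∨ (u ⟨![0, 1], by simp⟩ = 1 ∧ u ⟨![1, 1], by simp⟩ = 1) then 2 else 0)
    F (fun x i => by simp only [F, add_zero]) ⟨2, 0, fun x => funext fun i => by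
      have h : ∀ j, F x j ≠ 1 := fun j => by unfold F; split_ifs <;> decide
      simp [F.eq_def (F x), h]⟩ (fun b => coin.map (rev b)) fun a b =>
        (PMF.mem_support_map_iff _ _ _).mpr ⟨b.castSucc, by fin_cases b <;> simp [coin],
          by fin_cases b <;> rfl⟩
  have h2 : ∀ s, MeasurableSet s → ∀ x, (K.map fun c => T (x, c)) s = K (Prod.mk x ⁻¹' (T ⁻¹' s)) :=
    fun s hs x => Measure.map_apply (T_meas.comp measurable_prodMk_left) hs
  have h3 : ∀ x, (Measure.infinitePi fun i => (coin.map (rev (F x i))).toMeasure) =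
      K.map fun c => T (x, c) := fun x => by
    simp only [← PMF.toMeasure_map _ _ (measurable_of_finite _)]
    exact (Measure.infinitePi_map_pi _ (f := fun i c => rev (F x i) c) fun _ =>
      measurable_of_finite _).symm
  have h4 : (fun m : Measure (I → Fin 3) => m.bind fun x => K.map fun c => T (x, c)) =
      fun m => (m.prod K).map T := funext fun ν => Measure.ext fun s hs => by
    rw [Measure.bind_apply hs (Measure.measurable_of_measurable_coe _ fun s hs => by
      simp only [h2 s hs]; exact measurable_measure_prodMk_left (T_meas hs)).aemeasurable,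
      Measure.map_apply T_meas hs, Measure.prod_apply (T_meas hs)]
    simp only [h2 s hs]
  have hm : MeasurableSet {y : I → Fin 3 | ∀ i ∈ ({![0, 0]} : Finset I), y i = 1} := by
    measurability
  have h5 := fun x => h (Measure.dirac x) inferInstance {![0, 0]} fun _ => 1
  simp only [h3, h4, law, Measure.map_apply (traj_meas _ _) hm] at h5
  have h6 := le_of_tendsto' (h5 fun _ => 0) fun n => le_trans (measure_mono fun ω hω => hω _
    (Finset.mem_singleton_self _)) (stable _ (fun a b => ![a, b]) (by simp) (· = 1) (by simp)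
      (fun y a b h7 => by
        by_cases h8 : F y ![a, b] = 2
        · simp only [F, Matrix.cons_add_cons, Matrix.empty_add_empty, add_zero, ite_eq_left_iff,
            show (0 : Fin 3) ≠ 2 by decide, imp_false, not_not] at h8
          rcases h8 with h8 | h8
          exacts [⟨0, 0, by simpa [and_comm] using h8⟩, ⟨1, 1, by simpa [and_comm] using h8⟩]
        · simp [rev, h8] at h7) n)
  have h7 := ge_of_tendsto' (h5 fun _ => 1) fun n => (tsub_le_tsub_left (stable (fun _ => 1)
    (fun a b => ![b, a]) (by simp [and_comm]) (· ≠ 1) (by simp) (fun y a b h7 => by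
      have h8 : F y ![b, a] ≠ 2 := fun h8 => by simp [rev, h8] at h7
      simp only [F, Matrix.cons_add_cons, Matrix.empty_add_empty, add_zero, ne_eq, ite_eq_left_iff,
        show (0 : Fin 3) ≠ 2 by decide, imp_false, not_not, not_or, not_and_or] at h8
      rcases h8 with ⟨h8 | h8, h9 | h9⟩
      exacts [⟨0, 0, by simp [h8, h9]⟩, ⟨1, 0, by simp [h8, h9]⟩, ⟨0, 1, by simp [h8, h9]⟩,
        ⟨1, 1, by simp [h8, h9]⟩]) n) 1).trans (tsub_le_iff_right.mpr (measure_univ.ge.trans
          ((measure_mono fun ω _ => by simpa using em _).trans (measure_union_le _ _))))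
  have h8 := ENNReal.toReal_mono (by simp) (h7.trans h6)
  rw [ENNReal.toReal_sub_of_le (by simp) (by simp)] at h8
  norm_num at h8

end Pool.Agent.S19424
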