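import Pool.Statements.S19425
import Pool.Agent.H22.Lap3

set_option autoImplicit false
open MeasureTheory
open Pool Pool.MP_79a0fa_pr

namespace Pool.Agent.S19425
open Pool.Agent.H22.Lap Set Filter Real


/-- For a spectrally negative Lévy triplet with nonzero Gaussian part, the scale function W (inverse Laplace transform of 1/ψ) is C^(k+3) on (0,∞) iff the tail y ↦ Π(−∞,−y) is C^k on (0,∞), for every k ≥ 0. -/
theorem result :
  ∀ (μ : MeasureTheory.Measure ℝ) (a σ : ℝ) (W : ℝ → ℝ),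
    μ (Set.Ici 0) = 0 →
    ∫⁻ x, ENNReal.ofReal (min 1 (x ^ 2)) ∂μ < ⊤ →
    σ ≠ 0 →
    ContinuousOn W (Set.Ioi 0) →
    (∃ β₀ : ℝ, ∀ β : ℝ, β₀ < β →
      MeasureTheory.IntegrableOn (fun x => Real.exp (-(β * x)) * W x) (Set.Ioi 0) ∧
      ∫ x in Set.Ioi (0 : ℝ), Real.exp (-(β * x)) * W x =
        1 / (-(a * β) + σ ^ 2 * β ^ 2 / 2 +
          ∫ x, (Real.exp (β * x) - 1 - (Set.Ioi (-1 : ℝ)).indicator (fun y => β * y) x) ∂μ)) →
    ∀ k : ℕ,
      (ContDiffOn ℝ (((k + 3 : ℕ) : ℕ∞) : WithTop ℕ∞) W (Set.Ioi 0) ↔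
        ContDiffOn ℝ (((k : ℕ) : ℕ∞) : WithTop ℕ∞) (fun y => (μ (Set.Iio (-y))).toReal) (Set.Ioi 0)) := by
  rintro μ a σ W hμ hi hσ hW ⟨b, hb⟩ k
  have h0 : ∀ᵐ x ∂μ, x < 0 := by simpa [ae_iff, Ici] using hμ
  have h1 : Integrable (fun x : ℝ => min 1 (x ^ 2)) μ :=
    ⟨by fun_prop, (hasFiniteIntegral_iff_ofReal (ae_of_all _ fun x => by positivity)).2 hi⟩
  have : SFinite μ := by
    have := isFiniteMeasure_withDensity hi.ne
    rw [← withDensity_inv_same (μ := μ) (f := fun x => ENNReal.ofReal (min 1 (x ^ 2)))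
      (by fun_prop) (h0.mono fun x hx => by simpa using hx.ne) (by simp)]
    infer_instance
  have hc : σ ^ 2 / 2 ≠ 0 := by positivity
  set c := σ ^ 2 / 2 with hc'
  set T := fun y => (μ (Iio (-y))).toReal
  have p1 := K1.P h0 h1
  have p3 := K3.P h0 h1
  have p0 := (p1.add (P_H.cm (-a))).cm c⁻¹
  have q0 := p0.add (p3.cm (-c⁻¹))
  have e0 : ∀ᶠ β in atTop, β * L (fun y => y * (c⁻¹ * (∫ x, k1 x y ∂μ + -a * H y))) β =
      L (fun y => c⁻¹ * (∫ x, k1 x y ∂μ + -a * H y) + -c⁻¹ * ∫ x, k3 x y ∂μ) β := by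
    filter_upwards [L_add p0 (p3.cm (-c⁻¹)), L_add p1 (P_H.cm (-a)), L_add p1.x (P_H.I.cm (-a)),
      L_I P_H, eventually_gt_atTop 3] with β a1 a2 a3 a4 a5
    have a6 : (fun y => y * (c⁻¹ * (∫ x, k1 x y ∂μ + -a * H y))) =
        fun y => c⁻¹ * (y * ∫ x, k1 x y ∂μ + -a * I H y) := by
      ext y
      rcases le_or_gt y 0 with hy | hy
      · simp [p1.z y hy, P_H.z y hy, P_H.I.z y hy]
      · rw [I, intervalIntegral.integral_of_le hy.le, setIntegral_congr_fun (f := H) (g := fun _ => (1 : ℝ))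
          measurableSet_Ioc fun t ht => indicator_of_mem ht.1 _]
        simp [H, hy, hy.le]; ring
    have b1 := K1.L h0 h1 (show 2 ≤ β by linarith)
    have b3 := K3.L h0 h1 (show 2 ≤ β by linarith)
    have a7 : β * L (fun y => y * ∫ x, k1 x y ∂μ) β =
        L (fun y => ∫ x, k1 x y ∂μ) β - L (fun y => ∫ x, k3 x y ∂μ) β := by
      simp only [← integral_const_mul]
      rw [(K2.L h0 h1 (by linarith)).2, b1.2, b3.2, ← integral_sub b1.1 b3.1, ← integral_const_mul]
      exact integral_congr_ae (h0.mono fun x hx => L_k2 hx a5)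
    rw [a1, a6, L_cm, L_cm, L_cm, a2, a3, L_cm, L_cm]
    linear_combination c⁻¹ * a7 - c⁻¹ * a * a4
  obtain ⟨f, pf, cf, ef⟩ := fix p0 q0 e0
  have ph := pf.add (p3.cm (-c⁻¹))
  have e1 : ∀ᶠ β in atTop, β * L (fun y => y * f y) β =
      L (fun y => f y + -c⁻¹ * ∫ x, k3 x y ∂μ) β := by
    rwa [← L_congr (g := fun y => y * f y) (ef.mono fun y hy => congrArg (y * ·) hy),
      ← L_congr (g := fun y => f y + -c⁻¹ * ∫ x, k3 x y ∂μ)
        (ef.mono fun y hy => congrArg (· + -c⁻¹ * ∫ x, k3 x y ∂μ) hy)]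
  have pW : P (indicator (Ioi 0) W) := ⟨fun x hx => by simp [hx], by
    filter_upwards [eventually_gt_atTop b] with β h
    rw [w_ind, integrable_indicator_iff measurableSet_Ioi]; exact (hb β h).1⟩
  have eW (x) (hx : x ∈ Ioi (0 : ℝ)) : c * indicator (Ioi 0) W x = c * W x := by simp [hx]
  have h2 := main (k := k) pf ph e1 cf (pW.cm c) (C0.2 ((continuousOn_const.mul hW).congr eW)) (by
    filter_upwards [eventually_gt_atTop b, L_add p1 (P_H.cm (-a)), L_H, eventually_gt_atTop 2]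
      with β a1 a2 a3 a4
    have a5 : β ^ 2 * L (fun y => ∫ x, k1 x y ∂μ) β =
        ∫ x, (exp (β * x) - 1 - (Ioi (-1 : ℝ)).indicator (fun y => β * y) x) ∂μ := by
      rw [(K1.L h0 h1 a4.le).2, ← integral_const_mul]
      refine integral_congr_ae (h0.mono fun x hx => ?_)
      have := L_E (neg_pos.2 hx) β
      simp only [pow_two, mul_assoc, L_k1 hx (show 0 < β by linarith), mul_sub, this, indicator,
        mem_Ioi]
      split_ifs <;> simp <;> ring
    rw [L_cm, L, w_ind, integral_indicator measurableSet_Ioi, (hb β a1).2, ← L_congr ef, L_cm, a2,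
      L_cm, ← a5, ← div_div_eq_mul_div, mul_one_div, div_eq_mul_inv c, ← one_div_one_div c,
      ← div_eq_mul_inv, div_div]
    congr 1
    field_simp
    linear_combination a * 2 * a3 + β * hc' * -2)
  have h3 (y) (hy : y ∈ Ioi (0 : ℝ)) : ∫ x, k3 x y ∂μ = y * T y := by
    simp only [k3, integral_const_mul, T, ← measureReal_def]
    rw [← integral_indicator_one measurableSet_Iio]
    congr 2; ext x; simp [E, indicator, mem_Ioi.1 hy, lt_neg]
  refine (show _ ↔ C (k + 3) fun x => c * indicator (Ioi 0) W x from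
    ⟨fun h => (contDiffOn_const.mul h).congr eW, fun h => ((contDiffOn_const (c := c⁻¹)).mul h).congr
      fun x hx => by rw [eW x hx, inv_mul_cancel_left₀ hc]⟩).trans (h2.trans ⟨fun h => ?_, fun h => ?_⟩)
  · have h4 : C k fun y => c * (f y - deriv (fun y => y * f y) y) / y :=
      (contDiffOn_const.mul ((h.le (by simp)).sub (C_succ.1 (contDiffOn_id.mul h)).2)).div
        contDiffOn_id fun x hx => ne_of_gt hx
    refine h4.congr (mono_eq (fun y hy z _ hz => ENNReal.toReal_mono ?_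
      (measure_mono (Iio_subset_Iio (by linarith)))) h4.continuousOn ?_)
    · have hy : 0 < y := hy
      refine ((measure_mono fun x hx => ?_).trans_lt
        (h1.measure_ge_lt_top (ε := min 1 (y ^ 2)) (by positivity))).ne
      exact min_le_min_left 1 (show y ^ 2 ≤ x ^ 2 by nlinarith [mem_Iio.1 hx])
    · filter_upwards [dh pf ph e1 cf] with y hy h5
      rw [indicator_of_mem (mem_Ioi.2 h5), h3 y h5] at hy
      rw [← hy]; field_simp; ring
  · have h5 (j) (hj : j ≤ k + 1) : C j f := by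
      induction j with
      | zero => exact cf
      | succ j ih =>
        exact step pf ph e1 cf ((ih (by omega)).add (contDiffOn_const.mul
          ((contDiffOn_id.mul (C.le h (by omega))).congr h3)))
    exact h5 _ le_rfl

end Pool.Agent.S19425
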