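import Pool.Statements.S19429
import Pool.Agent.H22.Cond2

set_option autoImplicit false
open MeasureTheory ProbabilityTheory
open Pool Pool.MP_7b591b_pr

namespace Pool.Agent.S19429
open Pool.Agent.H22.Cond Set


/-- There is an absolute constant C with this property: for every real n×n matrix Ā of spectral norm ≤ √n, every σ in (0,1] and every x > 0, the probability that Ā+σG (G i.i.d. standard Gaussian) has condition number ≥ x, counting singular as infinite, is at most Cn/(xσ). -/
theorem result :
    ∃ C : ℝ, 0 < C ∧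
      ∀ n : ℕ, 1 ≤ n →
        ∀ Abar : Matrix (Fin n) (Fin n) ℝ,
          ‖Matrix.toEuclideanCLM (𝕜 := ℝ) Abar‖ ≤ Real.sqrt n →
          ∀ σ : ℝ, 0 < σ → σ ≤ 1 →
            ∀ x : ℝ, 0 < x →
              (Measure.pi (fun _ : Fin n =>
                  Measure.pi (fun _ : Fin n => gaussianReal 0 1)))
                {G : Fin n → Fin n → ℝ |
                  (Abar + σ • Matrix.of G).det = 0 ∨
                  x ≤ ‖Matrix.toEuclideanCLM (𝕜 := ℝ) (Abar + σ • Matrix.of G)‖ *
                      ‖Matrix.toEuclideanCLM (𝕜 := ℝ) (Abar + σ • Matrix.of G)⁻¹‖}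
                ≤ ENNReal.ofReal (C * n / (x * σ)) := by
  refine ⟨500000, by norm_num, fun n hn A hA σ hσ hσ' x hx => ?_⟩
  have h0 := F_meas A σ (x / 24)
  let S := {G : Fin n → Fin n → ℝ | 2⁻¹ ≤ γ n (Prod.mk G ⁻¹' F A σ (x / 24))}
  have h1 := meas_ge_le_lintegral_div (μ := Γ n) (measurable_measure_prodMk_left (ν := γ n) h0).aemeasurable
    (ε := 2⁻¹) (by simp) (by simp)
  refine (measure_mono_ae (t := S) ?_).trans (h1.trans ?_)
  · filter_upwards [det_ne A hσ] with G h2 h3 using step1 hx h2 (h3.resolve_left h2)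
  rw [← Measure.prod_apply h0, Measure.prod_apply_symm h0]
  refine ENNReal.div_le_of_le_mul ((lintegral_mono (step2 hn hA hσ hσ' (by positivity))).trans ?_)
  rw [lintegral_const_mul _ nv_cont.measurable.ennreal_ofReal]
  refine (mul_le_mul_right (E_nv hn) _).trans ?_
  rw [← ENNReal.ofReal_ofNat, ← ENNReal.ofReal_ofNat 2, ← ENNReal.ofReal_inv_of_pos two_pos,
    ← ENNReal.ofReal_mul (by positivity), ← ENNReal.ofReal_mul (by positivity),
    ← ENNReal.ofReal_mul (by positivity), ← ENNReal.ofReal_mul (by positivity)]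
  refine ENNReal.ofReal_le_ofReal ?_
  have := Real.mul_self_sqrt (n.cast_nonneg (α := ℝ))
  field_simp
  nlinarith [n.cast_nonneg (α := ℝ)]

end Pool.Agent.S19429
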