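import Pool.Statements.S19478
import Pool.Agent.H29.REP4

set_option autoImplicit false
open MeasureTheory
open scoped ENNReal Pointwise
open Pool Pool.MP_91dfc6_pr

namespace Pool.Agent.S19478

theorem result :
    ¬ (∀ (n : ℕ), 1 ≤ n →
  ∀ (p : ℝ≥0∞) (κ : EReal), κ ≤ (((1 : ℝ) / (n : ℝ) : ℝ) : EReal) →
  ∀ (μ : Measure (Fin n → ℝ)), IsProbabilityMeasure μ → μ ≪ volume →
  μ.map (fun x => -x) = μ →
  (∀ (A B : Set (Fin n → ℝ)), MeasurableSet A → MeasurableSet B → A.Nonempty → B.Nonempty →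
    ∀ t : ℝ, 0 ≤ t → t ≤ 1 →
      (κ = ⊥ → min (μ A) (μ B) ≤ μ (t • A + (1 - t) • B)) ∧
      (κ = 0 → ENNReal.ofReal ((μ A).toReal ^ t * (μ B).toReal ^ (1 - t))
                  ≤ μ (t • A + (1 - t) • B)) ∧
      (κ ≠ ⊥ → κ ≠ 0 → (0 < κ ∨ (0 < μ A ∧ 0 < μ B)) →
        ENNReal.ofReal ((t * (μ A).toReal ^ κ.toReal + (1 - t) * (μ B).toReal ^ κ.toReal)
                          ^ (1 / κ.toReal))
          ≤ μ (t • A + (1 - t) • B))) →
  ∀ (g : (Fin n → ℝ) → ℝ → ℝ≥0∞),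
    (∀ v : Fin n → ℝ, v ≠ 0 → Measurable (g v) ∧
      μ.map (fun x => ∑ i, v i * x i) = (volume : Measure ℝ).withDensity (g v)) →
  ∀ (N : (Fin n → ℝ) → ℝ≥0∞),
    (p = 0 → ∀ v, N v = (volume {x : ℝ | 0 < g v x}) ^ 2) →
    (p = 1 → ∀ v,
      (Integrable (fun x => (g v x).toReal * Real.log (g v x).toReal) →
        N v = ENNReal.ofReal (Real.exp (-2 * ∫ x, (g v x).toReal * Real.log (g v x).toReal))) ∧
      (¬ Integrable (fun x => (g v x).toReal * Real.log (g v x).toReal) → N v = 0)) →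
    (p = ⊤ → ∀ v, N v = (essSup (g v) volume) ^ (-2 : ℝ)) →
    (p ≠ 0 → p ≠ 1 → p ≠ ⊤ → ∀ v,
      N v = (∫⁻ x, g v x ^ p.toReal) ^ (2 / (1 - p.toReal))) →
    (∀ v : Fin n → ℝ, v ≠ 0 → 0 < N v ∧ N v < ⊤) →
  ∀ (nrm : (Fin n → ℝ) → ℝ),
    (∀ v, (v = 0 → nrm v = 0) ∧ (v ≠ 0 → nrm v = Real.sqrt (N v).toReal)) →
    (∀ u v : Fin n → ℝ, nrm (u + v) ≤ nrm u + nrm v) ∧
    (∀ (c : ℝ) (v : Fin n → ℝ), nrm (c • v) = |c| * nrm v) ∧
    (∀ v : Fin n → ℝ, nrm v = 0 → v = 0)) := by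
  intro H
  obtain ⟨z0, z1, fU, fV, fW, mU, mV, mW, nU, nV, nW, eU, eV, eW, hlt⟩ := Pool.Agent.H29.REP.main
  let P := Pool.Agent.H29.REP.P0
  have hp := P.prob z0 z1
  let e : (ℝ × ℝ) ≃ᵐ (Fin 2 → ℝ) := MeasurableEquiv.finTwoArrow.symm
  have hf : ∀ v : Fin 2 → ℝ, ∃ f L M, Pool.Agent.H29.REP.Dens f L M ∧ (v ≠ 0 →
      P.μ.map (fun p => v 0 * p.1 + v 1 * p.2) =
        volume.withDensity fun x => ENNReal.ofReal (f x)) := fun v => by
    by_cases hv : v = 0
    · obtain ⟨f, L, M, h, -⟩ := Pool.Agent.H29.REP.all_dens P z0 z1 1 1 (Or.inl one_ne_zero)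
      exact ⟨f, L, M, h, fun c => absurd hv c⟩
    · obtain ⟨f, L, M, h, h'⟩ := Pool.Agent.H29.REP.all_dens P z0 z1 (v 0) (v 1) (by
        by_contra c
        push Not at c
        exact hv (funext fun i => by fin_cases i <;> simp [c.1, c.2]))
      exact ⟨f, L, M, h, fun _ => h'⟩
  choose f L M hD hm using hf
  have tr : ∀ v x, (ENNReal.ofReal (f v x)).toReal = f v x := fun v x =>
    ENNReal.toReal_ofReal ((hD v).n x)
  have hn : ∀ v, -2 * ∫ x, f v x * Real.log (f v x) = 2 * ∫ x, Real.negMulLog (f v x) :=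
    fun v => by
      simp only [Real.negMulLog, neg_mul, integral_neg]; ring
  have key := (H 2 (by norm_num) 1 ⊥ bot_le (P.μ.map e)
    (Measure.isProbabilityMeasure_map e.measurable.aemeasurable)
    (by
      rw [← (volume_preserving_finTwoArrow ℝ).symm.map_eq]
      refine Measure.AbsolutelyContinuous.map ?_ e.measurable
      exact (Measure.smul_absolutelyContinuous).trans (withDensity_absolutelyContinuous _ _))
    (by
      have := Pool.Agent.H29.REP.map_comp P.mρ (Measure.measurePreserving_neg volume)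
      simp only [Function.comp_def, P.ρ_neg] at this
      have h2 : P.μ.map (fun x => -x) = P.μ := by
        rw [Pool.Agent.H29.REP.Par.μ, Measure.map_smul]
        congr 1
      conv_rhs => rw [← h2]
      rw [Measure.map_map (by fun_prop) e.measurable, Measure.map_map e.measurable (by fun_prop)]
      congr 1
      funext p i
      fin_cases i <;> rfl)
    (fun A B mA mB nA nB t t0 t1 => ⟨fun _ => by
      simp only [e.map_apply]
      refine (Pool.Agent.H29.REP.conc' P z0 z1 (e.measurable mA) (e.measurable mB)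
        (nA.preimage e.surjective) (nB.preimage e.surjective) t0 t1).trans (measure_mono ?_)
      rintro _ ⟨_, ⟨a, ha, rfl⟩, _, ⟨b, hb, rfl⟩, rfl⟩
      refine ⟨_, ⟨_, ha, rfl⟩, _, ⟨_, hb, rfl⟩, ?_⟩
      funext i
      fin_cases i <;> rfl, fun h => by simp at h, fun h => absurd rfl h⟩)
    (fun v x => ENNReal.ofReal (f v x))
    (fun v hv => ⟨(hD v).m.ennreal_ofReal, by
      rw [Measure.map_map (by fun_prop) e.measurable, ← hm v hv]
      congr 1
      funext p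
      simp [e, MeasurableEquiv.finTwoArrow]⟩)
    (fun v => ENNReal.ofReal (Real.exp (2 * ∫ x, Real.negMulLog (f v x))))
    (fun h => by simp at h)
    (fun _ v => ⟨fun _ => by simp only [tr, hn], fun h => absurd (by
      simp only [tr]
      refine (hD v).ent.neg.congr (Filter.Eventually.of_forall fun x => ?_)
      simp [Real.negMulLog]) h⟩)
    (fun h => by simp at h) (fun _ h => absurd rfl h)
    (fun v _ => ⟨ENNReal.ofReal_pos.2 (Real.exp_pos _), ENNReal.ofReal_lt_top⟩)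
    (fun v => if v = 0 then 0 else Real.exp (∫ x, Real.negMulLog (f v x)))
    (fun v => ⟨fun h => if_pos h, fun h => by
      rw [if_neg h, ENNReal.toReal_ofReal (Real.exp_pos _).le, two_mul, Real.exp_add,
        Real.sqrt_mul_self (Real.exp_pos _).le]⟩)).1 ![1, 0] ![0, 1]
  have n1 : (![1, 0] : Fin 2 → ℝ) ≠ 0 := fun c => by simpa using congrFun c 0
  have n2 : (![0, 1] : Fin 2 → ℝ) ≠ 0 := fun c => by simpa using congrFun c 1
  have n3 : (![1, 0] + ![0, 1] : Fin 2 → ℝ) ≠ 0 := fun c => by simpa using congrFun c 1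
  rw [if_neg n1, if_neg n2, if_neg n3,
    Pool.Agent.H29.REP.ent_eq (hD ![1, 0]).m mU (hD _).n nU (by rw [← hm _ n1, ← eU]; simp; rfl),
    Pool.Agent.H29.REP.ent_eq (hD ![0, 1]).m mV (hD _).n nV (by rw [← hm _ n2, ← eV]; simp; rfl),
    Pool.Agent.H29.REP.ent_eq (hD (![1, 0] + ![0, 1])).m mW (hD _).n nW (by rw [← hm _ n3, ← eW]; simp; rfl)] at key
  linarith

end Pool.Agent.S19478
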