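import Pool.Statements.S19482
import Pool.Agent.H22.Rdv

set_option autoImplicit false
open MeasureTheory
open Pool Pool.MP_925b40_pr

namespace Pool.Agent.S19482


/-- The negation of the preceding statement: On the directed unit circle with uniform random rotation, no mixed speed-1 strategy used by both players gives a smaller expected meeting time than the coin-half-tour strategy (random direction per half-circle), so CO-HA-TO is optimal symmetric. -/
theorem result :
    ¬ (∀ μ : @Measure C(NNReal, UnitAddCircle) (borel C(NNReal, UnitAddCircle)),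
      IsProbabilityMeasure μ →
      (∀ᵐ (f : C(NNReal, UnitAddCircle)) ∂μ, LipschitzWith 1 (⇑f) ∧ f 0 = 0) →
      (∫⁻ ω₁ : ℕ → Bool,
          (∫⁻ ω₂ : ℕ → Bool,
              (∫⁻ a : UnitAddCircle,
                ⨅ (τ : NNReal)
                  (_ : a + (((∑ j ∈ Finset.range ⌊2 * (τ : ℝ)⌋₊,
                              (if ω₁ j then (1 / 2 : ℝ) else -1 / 2))
                            + (if ω₁ ⌊2 * (τ : ℝ)⌋₊ then (1 : ℝ) else -1)
                              * ((τ : ℝ) - (⌊2 * (τ : ℝ)⌋₊ : ℝ) / 2) : ℝ) : UnitAddCircle)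
                      = (((∑ j ∈ Finset.range ⌊2 * (τ : ℝ)⌋₊,
                              (if ω₂ j then (1 / 2 : ℝ) else -1 / 2))
                            + (if ω₂ ⌊2 * (τ : ℝ)⌋₊ then (1 : ℝ) else -1)
                              * ((τ : ℝ) - (⌊2 * (τ : ℝ)⌋₊ : ℝ) / 2) : ℝ) : UnitAddCircle)),
                  ((τ : ENNReal)))
            ∂(Measure.infinitePi (fun _ : ℕ => (PMF.uniformOfFintype Bool).toMeasure)))
        ∂(Measure.infinitePi (fun _ : ℕ => (PMF.uniformOfFintype Bool).toMeasure)))
      ≤ ∫⁻ (f : C(NNReal, UnitAddCircle)), (∫⁻ (g : C(NNReal, UnitAddCircle)),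
            (∫⁻ a : UnitAddCircle,
              ⨅ (τ : NNReal) (_ : a + f τ = g τ), ((τ : ENNReal))) ∂μ) ∂μ) := by
  intro h
  have h1 := h Pool.Agent.H22.Rdv.μ0 Pool.Agent.H22.Rdv.μ0_prob Pool.Agent.H22.Rdv.μ0_ae
  exact absurd (lt_of_le_of_lt (le_trans Pool.Agent.H22.Rdv.low_two h1)
    Pool.Agent.H22.Rdv.directed) (lt_irrefl _)

end Pool.Agent.S19482
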