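import Pool.Statements.S19489
import Pool.Agent.H12.Tasep

set_option autoImplicit false
open Classical
open Pool Pool.MP_9492fd_pr

namespace Pool.Agent.S19489


/-- In the n-species TASEP on a ring of n sites (larger species at a site swaps with a smaller one to its right at rate 1), any stationary law gives probability 1/n^r that sites 1..r carry i_1..i_r whenever i_a+1<i_{a+1}. -/
theorem result :
    ∀ n : ℕ, ∀ π : Equiv.Perm (Fin n) → ℝ,
      (∀ σ, 0 ≤ π σ) →
      (∑ σ, π σ) = 1 →
      (∀ σ : Equiv.Perm (Fin n),
        (∑ k : Fin n, (if σ (finRotate n k) < σ k then π σ else 0)) =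
          ∑ k : Fin n, (if σ k < σ (finRotate n k)
            then π (σ * Equiv.swap k (finRotate n k)) else 0)) →
      ∀ r : ℕ, r ≤ n →
      ∀ i : Fin r → Fin n,
        (∀ a b : Fin r, a.val + 1 = b.val → (i a).val + 1 < (i b).val) →
        (∑ σ ∈ Finset.univ.filter
            (fun σ : Equiv.Perm (Fin n) =>
              ∀ p : Fin n, ∀ a : Fin r, p.val = a.val → σ p = i a),
          π σ) = 1 / (n : ℝ) ^ r := by
  intro n π h0 h1 hπ r
  have hm := Pool.Agent.H12.Tasep.main n π h0 h1 fun τ => by
    rw [Finset.sum_filter, ← hπ, ← Finset.sum_filter]; simp [mul_comm]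
  induction r with
  | zero => intro _ i _; simpa using h1
  | succ r ih =>
    intro hr i hi
    have hmono : StrictMono fun a : Fin (r + 1) => ((i a : ℕ) : ℤ) - (a : ℕ) :=
      Fin.strictMono_iff_lt_succ.2 fun a => by
        have := hi a.castSucc a.succ (by simp)
        simp only [Fin.val_succ, Fin.val_castSucc]
        omega
    have h2 := hm r hr (fun a => i a.castSucc) (i (Fin.last r)) fun a => by
      have := hmono (Fin.castSucc_lt_last a)
      have := a.2
      simp only [Fin.val_last, Fin.val_castSucc] at *
      omega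
    have h3 := ih (by omega) (fun a => i a.castSucc) fun a b hab => hi _ _ (by simpa using hab)
    rw [pow_succ, ← one_div_mul_one_div, mul_comm, ← h3]
    convert h2 using 3
    · refine ⟨fun h => ⟨fun a => h _ _ rfl, h _ _ rfl⟩, ?_⟩
      rintro ⟨h4, h5⟩ p a hpa
      rcases Fin.eq_castSucc_or_eq_last a with ⟨a, rfl⟩ | rfl
      · rw [← h4]; congr 1; exact Fin.ext hpa
      · rw [← h5]; congr 1; exact Fin.ext hpa
    · refine Finset.filter_congr fun σ _ => ⟨fun h a => h _ _ rfl, fun h p a hpa => ?_⟩
      rw [← h]; congr 1; exact Fin.ext hpa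

end Pool.Agent.S19489
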