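import Pool.Statements.S19536

set_option autoImplicit false
open MeasureTheory
open Pool Pool.MP_a24ad1_pr

namespace Pool.Agent.S19536

open Set Filter Topology

noncomputable def al : ℝ := √2 / 4

lemma al_pos : 0 < al := by unfold al; positivity

lemma al_lt : al < 1 / 2 := by
  have : √2 < 2 := by rw [Real.sqrt_lt' (by norm_num)]; norm_num
  unfold al; linarith

lemma al_irr : Irrational al := by
  have := irrational_sqrt_two.div_natCast (m := 4) (by norm_num)
  simpa [al] using this

noncomputable def a (ω : UnitAddCircle) : ℝ := (AddCircle.equivIoc 1 0 ω).1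

lemma a_pos (ω : UnitAddCircle) : 0 < a ω := (AddCircle.equivIoc 1 0 ω).2.1
lemma a_le (ω : UnitAddCircle) : a ω ≤ 1 := (AddCircle.equivIoc 1 0 ω).2.2.trans_eq (zero_add 1)

instance : IsProbabilityMeasure (volume : Measure UnitAddCircle) := ⟨UnitAddCircle.measure_univ⟩

lemma a_coe {x : ℝ} (h0 : 0 < x) (h1 : x ≤ 1) : a (x : UnitAddCircle) = x := by
  rw [a, AddCircle.equivIoc_coe_eq ⟨h0, by simpa using h1⟩]

lemma a_meas : Measurable a :=
  measurable_subtype_coe.comp (AddCircle.measurableEquivIoc 1 0).measurable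

lemma vol_a {I : Set ℝ} (hI : MeasurableSet I) : volume (a ⁻¹' I) = volume (I ∩ Ioc 0 1) := by
  rw [← (UnitAddCircle.measurePreserving_mk 0).measure_preimage (a_meas hI).nullMeasurableSet,
    Measure.restrict_apply' measurableSet_Ioc, zero_add]
  congr 1
  ext x
  refine and_congr_left fun hx => ?_
  rw [mem_preimage, mem_preimage, a_coe hx.1 hx.2]

lemma vol_le (x e : ℝ) : volume (a ⁻¹' Ioc x (x + e)) ≤ ENNReal.ofReal e := by
  rw [vol_a measurableSet_Ioc]
  exact (measure_mono inter_subset_left).trans (by simp)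

noncomputable def th (ω : UnitAddCircle) : UnitAddCircle := ω + ((-al : ℝ) : UnitAddCircle)

lemma th_erg : Ergodic th volume := by
  refine AddCircle.ergodic_add_right.2 (addOrderOf_eq_zero_iff.2 ?_)
  rw [AddCircle.isOfFinAddOrder_iff_exists_rat_eq_div]
  rintro ⟨q, hq⟩
  exact al_irr.neg ⟨q, by simpa using hq⟩

lemma a_th (ω : UnitAddCircle) : a (th ω) = if a ω ≤ al then a ω + 1 - al else a ω - al := by
  have e : th ω = ((a ω - al : ℝ) : UnitAddCircle) := by
    rw [th, sub_eq_add_neg, AddCircle.coe_add, a, AddCircle.coe_equivIoc]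
  have h0 := a_pos ω
  have h1 := a_le ω
  have := al_pos
  have := al_lt
  rw [e]
  split_ifs with h
  · rw [← AddCircle.coe_add_period 1, a_coe (by linarith) (by linarith)]; ring
  · exact a_coe (by linarith) (by linarith)

noncomputable def sg (ω : UnitAddCircle) : ℝ :=
  al / 2 + (a ⁻¹' Ioc 0 (0 + al)).indicator (fun _ => 1 - al / 2) ω +
    (a ⁻¹' Ioc al (al + al)).indicator (fun _ => 3 * al / 2) ω

lemma sg_eq (ω : UnitAddCircle) :
    sg ω = if a ω ≤ al then 1 else if a ω ≤ al + al then al + al else al / 2 := by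
  have h0 := a_pos ω
  simp only [sg, indicator, mem_preimage, mem_Ioc, zero_add, h0, true_and]
  by_cases h1 : a ω ≤ al
  · simp [h1, not_lt.2 h1]
  · by_cases h2 : a ω ≤ al + al
    · simp [h1, h2, not_le.1 h1]; ring
    · simp [h1, h2]

lemma sg_int : Integrable sg volume :=
  ((integrable_const _).add ((integrable_const _).indicator (a_meas measurableSet_Ioc))).add
    ((integrable_const _).indicator (a_meas measurableSet_Ioc))

lemma sg_lt : ∫ ω, sg ω < 2 * al := by
  have h0 := al_pos
  have h1 := al_lt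
  have r : ∀ x, volume.real (a ⁻¹' Ioc x (x + al)) ≤ al := fun x =>
    ENNReal.toReal_le_of_le_ofReal h0.le (vol_le x al)
  unfold sg
  rw [integral_add ((integrable_const _).add ((integrable_const _).indicator
      (a_meas measurableSet_Ioc))) ((integrable_const _).indicator (a_meas measurableSet_Ioc)),
    integral_add (integrable_const _) ((integrable_const _).indicator (a_meas measurableSet_Ioc)),
    integral_indicator_const _ (a_meas measurableSet_Ioc),
    integral_indicator_const _ (a_meas measurableSet_Ioc), integral_const]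
  simp only [smul_eq_mul, probReal_univ, one_mul]
  nlinarith [r 0, r al]

lemma sort2 (v : Fin 2 → ℝ) : (fun i => max (v (Tuple.sort v i)) 0) =
    ![min (max (v 0) 0) (max (v 1) 0), max (max (v 0) 0) (max (v 1) 0)] := by
  rcases le_total (v 0) (v 1) with h | h
  · have e : v ∘ (Equiv.refl _) = v ∘ Tuple.sort v :=
      Tuple.comp_sort_eq_comp_iff_monotone.2 (Fin.monotone_iff_le_succ.2 fun i => by
        fin_cases i; exact h)
    have := max_le_max_right 0 h
    rw [min_eq_left this, max_eq_right this]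
    funext i
    rw [show v (Tuple.sort v i) = _ from (congrFun e i).symm]
    fin_cases i <;> rfl
  · have e : v ∘ (Equiv.swap 0 1) = v ∘ Tuple.sort v :=
      Tuple.comp_sort_eq_comp_iff_monotone.2 (Fin.monotone_iff_le_succ.2 fun i => by
        fin_cases i; exact h)
    have := max_le_max_right 0 h
    rw [min_eq_right this, max_eq_left this]
    funext i
    rw [show v (Tuple.sort v i) = _ from (congrFun e i).symm]
    fin_cases i <;> rfl

noncomputable def W : ℕ → UnitAddCircle → Fin (1 + 1) → ℝ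
  | 0, _ => 0
  | n + 1, ω => fun i : Fin (1 + 1) =>
      max ((W n ω + (Pi.single 0 (sg (th^[n] ω)) : Fin (1 + 1) → ℝ) - (fun _ : Fin (1 + 1) => al))
        (Tuple.sort (W n ω + (Pi.single 0 (sg (th^[n] ω)) : Fin (1 + 1) → ℝ)
          - (fun _ : Fin (1 + 1) => al)) i)) 0

def G (y : ℝ) : Prop := ∃ p : ℤ × ℤ, y = p.1 + p.2 * al

lemma inv (ω : UnitAddCircle) (n : ℕ) : ∃ y b, W n ω = ![min y b, max y b] ∧ 0 ≤ y ∧
    y < a (th^[n] ω) ∧ (∀ k ≤ n, a (th^[n] ω) - y ≤ a (th^[k] ω)) ∧ G y ∧ G b ∧
    (a (th^[n] ω) ≤ al → y ≤ b ∧ b ≤ al) ∧ (al < a (th^[n] ω) → b = 0) := by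
  have h0 := al_pos
  have h1 := al_lt
  have g0 : G 0 := ⟨(0, 0), by simp⟩
  induction n with
  | zero =>
    refine ⟨0, 0, ?_, le_rfl, a_pos _, fun k hk => ?_, g0, g0, fun _ => ⟨le_rfl, h0.le⟩,
      fun _ => rfl⟩
    · funext i; fin_cases i <;> simp [W]
    · rw [Nat.le_zero.1 hk]; simp
  | succ n ih =>
    obtain ⟨y, b, e, y0, y1, y2, ⟨p, hp⟩, -, c1, c2⟩ := ih
    have hx := a_th (th^[n] ω)
    have hs := sg_eq (th^[n] ω)
    have hx0 := a_pos (th (th^[n] ω))
    have hW : W (n + 1) ω = ![min (max (min y b + sg (th^[n] ω) - al) 0) (max (max y b - al) 0),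
        max (max (min y b + sg (th^[n] ω) - al) 0) (max (max y b - al) 0)] := by
      rw [W, sort2, e]
      simp only [Pi.sub_apply, Pi.add_apply, Matrix.cons_val_zero, Matrix.cons_val_one,
        Pi.single_eq_same, Pi.single_eq_of_ne (show (1 : Fin 2) ≠ 0 by decide), add_zero]
    have key : ∀ z, z ≤ a (th^[n] ω) - y → z ≤ a (th (th^[n] ω)) →
        ∀ k ≤ n + 1, z ≤ a (th^[k] ω) := fun z z1 z2 k hk => by
      rcases Nat.of_le_succ hk with hk | rfl
      · exact z1.trans (y2 k hk)
      · rwa [Function.iterate_succ_apply']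
    rw [Function.iterate_succ_apply']
    by_cases h : a (th^[n] ω) ≤ al
    · obtain ⟨d1, d2⟩ := c1 h
      rw [if_pos h] at hx hs
      rw [hs, min_eq_left d1, max_eq_right d1, max_eq_left (show 0 ≤ y + 1 - al by linarith),
        max_eq_right (show b - al ≤ 0 by linarith)] at hW
      exact ⟨_, _, hW, by linarith, by linarith, key _ (by linarith) (by linarith),
        ⟨(p.1 + 1, p.2 - 1), by rw [hp]; push_cast; ring⟩, g0,
        fun _ => by exfalso; linarith [a_pos (th^[n] ω)], fun _ => rfl⟩
    · rw [if_neg h] at hx hs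
      obtain rfl := c2 (not_le.1 h)
      rw [min_eq_right y0, max_eq_left y0, zero_add, min_comm, max_comm (max _ _)] at hW
      have m1 := le_max_left (y - al) 0
      have m2 := le_max_right (y - al) 0
      have m3 : max (y - al) 0 < a (th (th^[n] ω)) := max_lt (by linarith) hx0
      have m4 : G (max (y - al) 0) := by
        rcases max_choice (y - al) 0 with m | m <;> rw [m]
        exacts [⟨(p.1, p.2 - 1), by rw [hp]; push_cast; ring⟩, g0]
      refine ⟨_, _, hW, m2, m3, key _ (by linarith) (by linarith), m4, ?_⟩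
      by_cases h' : a (th^[n] ω) ≤ al + al
      · rw [hs, if_pos h', max_eq_left (show 0 ≤ al + al - al by linarith)]
        exact ⟨⟨(0, 1), by simp⟩, fun _ => ⟨by linarith, by linarith⟩,
          fun _ => by exfalso; linarith⟩
      · rw [hs, if_neg h', max_eq_right (show al / 2 - al ≤ 0 by linarith)]
        exact ⟨g0, fun _ => by exfalso; linarith, fun _ => rfl⟩

lemma far {e : ℝ} (he : 0 < e) :
    Tendsto (fun n => volume {ω | ∀ k ≤ n, e < a (th^[k] ω)}) atTop (𝓝 0) := by
  have hm : ∀ k, Measurable fun ω => a (th^[k] ω) := fun k =>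
    a_meas.comp (th_erg.measurable.iterate k)
  have hs : ∀ n, MeasurableSet {ω | ∀ k ≤ n, e < a (th^[k] ω)} := fun n => by
    simp only [setOf_forall]
    exact .iInter fun k => .iInter fun _ => measurableSet_lt measurable_const (hm k)
  have := tendsto_measure_iInter_atTop (μ := volume) (fun n => (hs n).nullMeasurableSet)
    (fun m n hmn ω h k hk => h k (hk.trans hmn)) ⟨0, measure_ne_top _ _⟩
  suffices h : volume (⋂ n, {ω | ∀ k ≤ n, e < a (th^[k] ω)}) = 0 by rwa [h] at this
  rcases th_erg.ae_empty_or_univ_of_ae_le_preimage (MeasurableSet.iInter hs).nullMeasurableSet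
    (HasSubset.Subset.eventuallyLE fun ω h => by
      simp only [mem_preimage, mem_iInter, mem_setOf_eq] at h ⊢
      exact fun n k _ => h (k + 1) (k + 1) le_rfl) with h | h
  · rw [measure_congr h, measure_empty]
  · exfalso
    rw [ae_eq_univ] at h
    have h2 : volume (a ⁻¹' Ioc 0 e) = 0 := by
      refine measure_mono_null (fun ω hω => ?_) h
      intro hc
      simp only [mem_iInter, mem_setOf_eq] at hc
      exact absurd (hc 0 0 le_rfl) (not_lt.2 hω.2)
    rw [vol_a measurableSet_Ioc, Ioc_inter_Ioc, Real.volume_Ioc, ENNReal.ofReal_eq_zero] at h2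
    have := lt_min he one_pos
    simp only [max_self, sub_zero] at h2
    linarith

lemma atom (w : Fin (1 + 1) → ℝ) (e : ℝ) (n : ℕ) : volume {ω | W n ω ∈ ({w} : Set _)} ≤
    volume {ω | ∀ k ≤ n, e < a (th^[k] ω)} + ENNReal.ofReal e + ENNReal.ofReal e := by
  have hp : ∀ x, volume (th^[n] ⁻¹' (a ⁻¹' Ioc x (x + e))) ≤ ENNReal.ofReal e := fun x => by
    rw [(th_erg.toMeasurePreserving.iterate n).measure_preimage
      (a_meas measurableSet_Ioc).nullMeasurableSet]
    exact vol_le x e
  refine le_trans (measure_mono fun ω hω => ?_) ((measure_union_le _ _).trans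
    (add_le_add ((measure_union_le _ _).trans (add_le_add le_rfl (hp (w 0)))) (hp (w 1))))
  obtain ⟨y, b, h, -, y1, y2, -⟩ := inv ω n
  rw [mem_setOf_eq, mem_singleton_iff, h] at hω
  subst hω
  by_cases hc : ∀ k ≤ n, e < a (th^[k] ω)
  · exact Or.inl (Or.inl hc)
  · push Not at hc
    obtain ⟨k, hk, hk'⟩ := hc
    have := y2 k hk
    rcases le_total y b with c | c
    · exact Or.inl (Or.inr (by simp [c, y1]; linarith))
    · exact Or.inr (by simp [c, y1]; linarith)

/-- The negation of the preceding statement: For any stationary ergodic nonnegative integrable input with E service < m·E interarrival, the Kiefer–Wolfowitz workload vectors started at zero converge in total variation to some probability law. -/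
theorem result :
    ¬ (∀ (Ω : Type) [MeasurableSpace Ω] (μ : Measure Ω) [IsProbabilityMeasure μ]
    (θ : Ω → Ω) (k : ℕ) (t σ : Ω → ℝ) (W : ℕ → Ω → (Fin (k+1) → ℝ)),
    Ergodic θ μ → Integrable t μ → Integrable σ μ →
    (∀ᵐ ω ∂μ, 0 ≤ t ω) → (∀ᵐ ω ∂μ, 0 ≤ σ ω) →
    ∫ ω, σ ω ∂μ < ((k : ℝ) + 1) * ∫ ω, t ω ∂μ →
    (∀ ω, W 0 ω = 0) →
    (∀ (n : ℕ) (ω : Ω), W (n+1) ω =
      (fun i : Fin (k+1) =>
        max ((W n ω + (Pi.single 0 (σ (θ^[n] ω)) : Fin (k+1) → ℝ)
                - (fun _ : Fin (k+1) => t (θ^[n] ω)))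
              (Tuple.sort (W n ω + (Pi.single 0 (σ (θ^[n] ω)) : Fin (k+1) → ℝ)
                - (fun _ : Fin (k+1) => t (θ^[n] ω))) i)) 0)) →
    ∃ π : Measure (Fin (k+1) → ℝ), IsProbabilityMeasure π ∧
      ∀ ε > (0 : ℝ), ∃ N : ℕ, ∀ n ≥ N, ∀ A : Set (Fin (k+1) → ℝ), MeasurableSet A →
        |(μ {ω | W n ω ∈ A}).toReal - (π A).toReal| < ε) := by
  intro H
  have h0 := al_pos
  obtain ⟨π, hπ, h⟩ := H UnitAddCircle volume th 1 (fun _ => al) sg W th_erg (integrable_const _)
    sg_int (.of_forall fun _ => h0.le)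
    (.of_forall fun ω => by rw [sg_eq]; split_ifs <;> linarith)
    (by simpa [one_add_one_eq_two] using sg_lt) (fun _ => rfl) (fun _ _ => rfl)
  have lim : ∀ A, MeasurableSet A →
      Tendsto (fun n => (volume {ω | W n ω ∈ A}).toReal) atTop (𝓝 (π A).toReal) := fun A hA =>
    Metric.tendsto_atTop.2 fun ε hε => (h ε hε).imp fun N hN n hn => hN n hn A hA
  have hat : ∀ w, π {w} = 0 := fun w => by
    have : (π {w}).toReal ≤ 0 := le_of_forall_pos_le_add fun e he => by
      have t := ((ENNReal.tendsto_toReal ENNReal.zero_ne_top).comp (far (half_pos he))).add_const e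
      refine le_of_tendsto_of_tendsto' (lim _ (measurableSet_singleton w)) t fun n => ?_
      refine (ENNReal.toReal_mono (by finiteness) (atom w (e / 2) n)).trans (le_of_eq ?_)
      rw [ENNReal.toReal_add (by finiteness) (by finiteness),
        ENNReal.toReal_add (by finiteness) (by finiteness), ENNReal.toReal_ofReal (by linarith)]
      simp only [Function.comp]
      ring
    exact ((ENNReal.toReal_eq_zero_iff _).1 (le_antisymm this ENNReal.toReal_nonneg)).resolve_right
      (measure_ne_top _ _)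
  let f : (ℤ × ℤ) × (ℤ × ℤ) → Fin (1 + 1) → ℝ := fun p =>
    ![min (p.1.1 + p.1.2 * al) (p.2.1 + p.2.2 * al), max (p.1.1 + p.1.2 * al) (p.2.1 + p.2.2 * al)]
  have hc := countable_range f
  have h1 : π (range f) = 0 := by
    rw [← biUnion_of_singleton (range f), measure_biUnion_null_iff hc]
    exact fun w _ => hat w
  have h2 := lim _ hc.measurableSet
  have h3 : ∀ n, {ω | W n ω ∈ range f} = univ := fun n => eq_univ_of_forall fun ω => by
    obtain ⟨y, b, e, -, -, -, ⟨p, rfl⟩, ⟨q, rfl⟩, -⟩ := inv ω n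
    exact ⟨(p, q), e.symm⟩
  simp only [h1, h3, measure_univ, ENNReal.toReal_one, ENNReal.toReal_zero] at h2
  exact one_ne_zero (tendsto_nhds_unique tendsto_const_nhds h2)

end Pool.Agent.S19536
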