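import Pool.Statements.S19550
import Pool.Agent.H29.REP3

set_option autoImplicit false
open MeasureTheory Pointwise
open Pool Pool.MP_a5e374_pr

namespace Pool.Agent.S19550

open Pool.Agent.H29.REP Set in
theorem result :
    ¬ (∀ κ : EReal, κ ≤ ((1/2 : ℝ) : EReal) →
  ∀ μ : Measure (ℝ × ℝ), IsProbabilityMeasure μ →
    μ.map (fun x => -x) = μ →
    (∀ A B : Set (ℝ × ℝ), IsCompact A → IsCompact B → 0 < μ A → 0 < μ B →
      ∀ t : ℝ, 0 < t → t < 1 →
        (if κ = ⊥ then min (μ A).toReal (μ B).toReal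
         else if κ = 0 then (μ A).toReal ^ t * (μ B).toReal ^ (1 - t)
         else (t * (μ A).toReal ^ κ.toReal + (1 - t) * (μ B).toReal ^ κ.toReal) ^ (1 / κ.toReal))
        ≤ (μ (t • A + (1 - t) • B)).toReal) →
  ∀ fU fV fW : ℝ → ℝ, Measurable fU → Measurable fV → Measurable fW →
    (∀ x, 0 ≤ fU x) → (∀ x, 0 ≤ fV x) → (∀ x, 0 ≤ fW x) →
    μ.map Prod.fst = volume.withDensity (fun x => ENNReal.ofReal (fU x)) →
    μ.map Prod.snd = volume.withDensity (fun x => ENNReal.ofReal (fV x)) →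
    μ.map (fun x => x.1 + x.2) = volume.withDensity (fun x => ENNReal.ofReal (fW x)) →
    (∀ p : ENNReal, 1 < p →
      eLpNorm fW p volume ^ (-((1 - p⁻¹)⁻¹).toReal) ≤
        eLpNorm fU p volume ^ (-((1 - p⁻¹)⁻¹).toReal)
          + eLpNorm fV p volume ^ (-((1 - p⁻¹)⁻¹).toReal)) ∧
    (Integrable (fun x => Real.negMulLog (fU x)) →
      Integrable (fun x => Real.negMulLog (fV x)) →
      Integrable (fun x => Real.negMulLog (fW x)) →
      Real.exp (∫ x, Real.negMulLog (fW x)) ≤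
        Real.exp (∫ x, Real.negMulLog (fU x)) + Real.exp (∫ x, Real.negMulLog (fV x)))) := by
  intro H
  obtain ⟨hq, hδ, hT, gV, gU⟩ := P0_facts
  have d0 := P0.d0
  have hR := P0.hR
  have hT' := P0.hT
  have GV := (ENNReal.ofReal_le_ofReal gV).trans (P0.goodV hT)
  have GU := (ENNReal.ofReal_le_ofReal gU).trans (P0.goodU (hT.trans hR))
  have z1 : P0.μ0 univ ≠ ⊤ := ne_top_of_le_ne_top (by simp) (P0.Z_le hq)
  have z0 : P0.μ0 univ ≠ 0 := fun e => by
    have zl := GV.trans (measure_mono (subset_univ _))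
    rw [e, nonpos_iff_eq_zero, ENNReal.ofReal_eq_zero] at zl
    linarith
  have m := P0.mρ
  obtain ⟨⟨M1, d1⟩, e1, i1⟩ := P0.pack z0 z1 measurable_fst m.lintegral_prod_right' (map_fst m)
    (fun x => sec_le (fun _ => P0.ρ_one _) fun y hy => P0.ρ_zero (Or.inr hy))
    (fun x hx => by
      have : ∀ y, P0.ρ (x, y) = 0 := fun y => P0.ρ_zero (Or.inl (by linarith [P0.out hx]))
      simp [this])
  obtain ⟨⟨M2, d2⟩, e2, i2⟩ := P0.pack z0 z1 measurable_snd m.lintegral_prod_left' (map_snd m)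
    (fun x => sec_le (fun _ => P0.ρ_one _) fun y hy => P0.ρ_zero (Or.inl hy))
    (fun x hx => by
      have : ∀ y, P0.ρ (y, x) = 0 := fun y => P0.ρ_zero (Or.inr (by linarith [P0.out hx]))
      simp [this])
  obtain ⟨⟨M3, d3⟩, e3, -⟩ := P0.pack z0 z1 (by fun_prop)
    (Measurable.lintegral_prod_left' (f := fun p : ℝ × ℝ => ENNReal.ofReal (P0.ρ (p.1, p.2 - p.1)))
      (m.comp (by fun_prop))) (map_add m)
    (fun x => sec_le (fun _ => P0.ρ_one _) fun y hy => P0.ρ_zero (Or.inl hy))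
    (fun x hx => by simp [P0.outW hx])
  have gle : ∀ w, P0.den (fun w => ∫⁻ x, ENNReal.ofReal (P0.ρ (x, w - x))) w
      ≤ 120 * P0.δ * P0.q w / (P0.μ0 univ).toReal := fun w => by
    have := P0.q_pos w
    rw [Par.den, ENNReal.toReal_mul, ENNReal.toReal_inv, div_eq_inv_mul]
    gcongr
    exact ENNReal.toReal_le_of_le_ofReal (by positivity) (P0.secW w)
  have mb : ∀ X : ℝ × ℝ → ℝ, Continuous X → AEMeasurable (fun p : ℝ × ℝ =>
      ENNReal.ofReal (P0.ρ p) * ENNReal.ofReal (bad (X p) (p.1 + p.2))) (volume.prod volume) :=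
    fun X cX => (m.mul (bad_cont cX (by fun_prop)).measurable.ennreal_ofReal).aemeasurable
  have k1 := P0.gap (by norm_num) hq hδ continuous_fst P0.mU GU
    (fun p hp => by rw [add_comm p.1]; exact P0.good_ineq hp.1 hp.2)
    (by
      rw [Measure.volume_eq_prod, lintegral_prod _ (mb _ continuous_fst)]
      exact (bad_gen (r := fun s t => P0.ρ (s, t)) (fun s t h1 h2 => P0.badρ h1
        (by simp only; linarith) h2) fun s hs t => P0.ρ_zero
          (Or.inl (by linarith [P0.out hs]))).trans (P0.lint_q d0.le hq))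
    d1 d3 e1 i1 e3 gle
  have k2 := P0.gap (by norm_num) hq hδ continuous_snd P0.mV GV
    (fun p hp => P0.good_ineq hp.1 hp.2)
    (by
      rw [Measure.volume_eq_prod, lintegral_prod_symm _ (mb _ continuous_snd)]
      refine le_trans (le_of_eq ?_) ((bad_gen (r := fun s t => P0.ρ (t, s))
        (fun s t h1 h2 => P0.badρ h1 h2 (by simp only; linarith)) fun s hs t => P0.ρ_zero
          (Or.inr (by linarith [P0.out hs]))).trans (P0.lint_q d0.le hq))
      simp only [add_comm])
    d2 d3 e2 i2 e3 gle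
  have := (H ⊥ bot_le P0.μ (P0.prob z0 z1) (by
      have := map_comp m (Measure.measurePreserving_neg volume)
      rw [Par.μ, Measure.map_smul]
      congr 1
      simp only [Function.comp_def, P0.ρ_neg] at this
      exact this)
    (fun A B hA hB _ _ t t0 t1 => by
      have f : ∀ S, P0.μ0 S ≠ ⊤ := fun S => ne_top_of_le_ne_top z1 (measure_mono (subset_univ S))
      have := ENNReal.toReal_mono (f _) (P0.conc A B hA hB t0 t1)
      rw [← Par.μ0, ENNReal.toReal_min (f _) (f _)] at this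
      simp only [if_true, Par.μ, Measure.smul_apply, smul_eq_mul, ENNReal.toReal_mul]
      rw [← mul_min_of_nonneg _ _ ENNReal.toReal_nonneg]
      exact mul_le_mul_of_nonneg_left this ENNReal.toReal_nonneg)
    _ _ _ d1.m d2.m d3.m d1.n d2.n d3.n e1 e2 e3).2 d1.ent d2.ent d3.ent
  have a1 := Real.exp_le_exp.2 k1
  have a2 := Real.exp_le_exp.2 k2
  rw [Real.exp_sub] at a1 a2
  have a3 : 2 < Real.exp 1 := by linarith [Real.add_one_lt_exp (one_ne_zero)]
  have a4 := div_lt_div_of_pos_left (Real.exp_pos (∫ x, Real.negMulLog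
    (P0.den (fun w => ∫⁻ x, ENNReal.ofReal (P0.ρ (x, w - x))) x))) (by norm_num) a3
  linarith

end Pool.Agent.S19550
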