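import Pool.Statements.S19560

set_option autoImplicit false
open MeasureTheory ProbabilityTheory
open Pool Pool.MP_aa6114_pr

namespace Pool.Agent.S19560

/-- The two equally likely values of each of the four variables. -/
def x : Fin 4 → Bool → ℕ :=
  ![fun b => cond b 4 1, fun _ => 2, fun b => cond b 6 0, fun b => cond b 8 3]

noncomputable def μ : Measure (Fin 4 → Bool) :=
  Measure.pi (fun _ => uniformOn (Set.univ : Set Bool))

instance : IsProbabilityMeasure μ := by
  unfold μ
  infer_instance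

lemma meas (p : (Fin 4 → Bool) → Prop) [DecidablePred p] (s : Set (Fin 4 → Bool))
    (hs : ∀ ω, ω ∈ s ↔ p ω) (k : ℕ) (hk : (Finset.univ.filter p).card = k) :
    μ s = (k : ENNReal) * (1 / 16) := by
  have e : s = ↑(Finset.univ.filter p) := by
    ext ω
    simp [hs]
  have h1 : ∀ ω : Fin 4 → Bool, μ {ω} = 1 / 16 := by
    intro ω
    unfold μ
    rw [Measure.pi_singleton]
    simp only [uniformOn_univ, Measure.count_singleton, Fintype.card_bool, Finset.prod_const,
      Finset.card_univ, Fintype.card_fin]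
    rw [one_div, one_div, ← ENNReal.inv_pow]
    norm_num
  rw [e, ← sum_measure_singleton]
  simp only [h1, Finset.sum_const, hk, nsmul_eq_mul]

/-- The negation of the preceding statement: For independent real random variables and any finite set of pairwise strict or weak inequality constraints P, P(X_a<X_b given P) ≤ P(X_a<X_b given P and X_a<X_c) whenever the second conditioning event has positive probability. -/
theorem result :
    ¬ (∀ (Ω : Type) [MeasurableSpace Ω] (μ : Measure Ω) [IsProbabilityMeasure μ]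
      (n : ℕ) (X : Fin n → Ω → ℝ),
      (∀ i, Measurable (X i)) →
      iIndepFun X μ →
      ∀ (a b c : Fin n), a ≠ b → a ≠ c → b ≠ c →
      ∀ (S W : Finset (Fin n × Fin n)),
        μ ({ω | (∀ p ∈ S, X p.1 ω < X p.2 ω) ∧ (∀ p ∈ W, X p.1 ω ≤ X p.2 ω)}
            ∩ {ω | X a ω < X c ω}) ≠ 0 →
        ProbabilityTheory.cond μ
            {ω | (∀ p ∈ S, X p.1 ω < X p.2 ω) ∧ (∀ p ∈ W, X p.1 ω ≤ X p.2 ω)}
            {ω | X a ω < X b ω}
          ≤ ProbabilityTheory.cond μ
            ({ω | (∀ p ∈ S, X p.1 ω < X p.2 ω) ∧ (∀ p ∈ W, X p.1 ω ≤ X p.2 ω)}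
              ∩ {ω | X a ω < X c ω})
            {ω | X a ω < X b ω}) := by
  intro h
  have h0 := h (Fin 4 → Bool) μ 4 (fun i ω => (x i (ω i) : ℝ))
    (fun i => measurable_of_finite _)
    (iIndepFun_pi (X := fun i b => (x i b : ℝ)) (fun i => (measurable_of_finite _).aemeasurable))
    0 1 2 (by decide) (by decide) (by decide) {(0, 3), (2, 3)} ∅
  simp only [Nat.cast_lt, Nat.cast_le] at h0
  rw [cond_apply (MeasurableSet.of_discrete), cond_apply (MeasurableSet.of_discrete)] at h0
  rw [meas (fun ω => (x 0 (ω 0) < x 3 (ω 3) ∧ x 2 (ω 2) < x 3 (ω 3)) ∧ x 0 (ω 0) < x 2 (ω 2)) _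
      (by simp) 4 (by decide),
    meas (fun ω => x 0 (ω 0) < x 3 (ω 3) ∧ x 2 (ω 2) < x 3 (ω 3)) _ (by simp) 10 (by decide),
    meas (fun ω => (x 0 (ω 0) < x 3 (ω 3) ∧ x 2 (ω 2) < x 3 (ω 3)) ∧ x 0 (ω 0) < x 1 (ω 1)) _
      (by simp) 6 (by decide),
    meas (fun ω => ((x 0 (ω 0) < x 3 (ω 3) ∧ x 2 (ω 2) < x 3 (ω 3)) ∧ x 0 (ω 0) < x 2 (ω 2)) ∧
      x 0 (ω 0) < x 1 (ω 1)) _ (by simp) 2 (by decide)] at h0
  have h1 := ENNReal.toReal_mono (ENNReal.mul_ne_top (by simp) (ENNReal.mul_ne_top (by simp) (by simp))) (h0 (by simp))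
  simp only [ENNReal.toReal_mul, ENNReal.toReal_inv, ENNReal.toReal_natCast, ENNReal.toReal_div,
    ENNReal.toReal_one, ENNReal.toReal_ofNat] at h1
  norm_num at h1

end Pool.Agent.S19560
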