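import Pool.Statements.S19562
-- import your own Pool.Agent.* helpers here

set_option autoImplicit false
open MeasureTheory
open Pool Pool.MP_aa6ebe_pr

namespace Pool.Agent.S19562

open Set Filter Topology DihedralGroup
open scoped ENNReal

/-- ambient group -/
abbrev H := ℕ → DihedralGroup 0

lemma grp (S : Set H) (hmul : ∀ a ∈ S, ∀ b ∈ S, a * b ∈ S) (k : ℕ)
    (hr : ∀ j < k, ∃ a ∈ S, ∃ i, a j = sr i) :
    ∀ j ≤ k, ∀ s ∈ S, ∃ t ∈ S, ∀ i < j, (s * t) i = 1 := by
  intro j
  induction j with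
  | zero => intro _ s hs; exact ⟨s, hs, fun i hi => absurd hi (Nat.not_lt_zero _)⟩
  | succ j ih =>
    intro hj s hs
    obtain ⟨t, ht, hst⟩ := ih (by omega) s hs
    obtain ⟨a, ha, u, hu⟩ := hr j (by omega)
    obtain ⟨b, hb, hab⟩ := ih (by omega) a ha
    have hg := hmul _ hs _ ht
    have hc := hmul _ ha _ hb
    have fin : ∀ w ∈ S, (∀ i < j, w i = 1) → (s * t) j * w j = 1 →
        ∃ t ∈ S, ∀ i < j + 1, (s * t) i = 1 := by
      intro w hw h1 h2
      refine ⟨t * w, hmul _ ht _ hw, fun i hi => ?_⟩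
      rw [← mul_assoc, Pi.mul_apply]
      rcases Nat.lt_succ_iff_lt_or_eq.1 hi with h | rfl
      · rw [hst i h, h1 i h, one_mul]
      · exact h2
    cases hgj : (s * t) j with
    | sr y => exact fin _ hg hst (by rw [hgj]; simp)
    | r y =>
      cases hcj : (a * b) j with
      | sr z =>
        refine fin (a * b * (s * t) * (a * b)) (hmul _ (hmul _ hc _ hg) _ hc) (fun i hi => ?_) ?_
        · rw [Pi.mul_apply, Pi.mul_apply, hab i hi, hst i hi]; simp
        · rw [Pi.mul_apply (a * b * (s * t)), Pi.mul_apply (a * b), hcj, hgj]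
          simp only [sr_mul_r, sr_mul_sr, r_mul_r, one_def]
          congr 1; ring
      | r z =>
        refine fin (a * ((a * b) * (s * t)) * b) (hmul _ (hmul _ ha _ (hmul _ hc _ hg)) _ hb)
          (fun i hi => ?_) ?_
        · rw [Pi.mul_apply, Pi.mul_apply, Pi.mul_apply, hab i hi, hst i hi, mul_one, mul_one]
          exact hab i hi
        · have hbj : b j = sr (u + z) := by
            rw [Pi.mul_apply, hu] at hcj
            rw [eq_inv_mul_of_mul_eq hcj]; simp
          rw [Pi.mul_apply (a * ((a * b) * (s * t))), Pi.mul_apply a, Pi.mul_apply (a * b), hcj,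
            hgj, hu, hbj]
          simp only [sr_mul_r, sr_mul_sr, r_mul_r, one_def]
          congr 1; ring

/-- reflection below `k` -/
def sg (k : ℕ) : H := fun j => if j < k then sr 0 else 1

/-- translation at `k` -/
def tr (k : ℕ) : H := fun j => if j = k then r 1 else 1

/-- reflecting steps -/
def rho (c : ℕ × Bool) : H := sg (c.1 + 1) * (if c.2 then tr c.1 else 1)

/-- translating steps -/
def hh (c : ℕ × Bool) : H := tr c.1 * (if c.2 then sg c.1 else 1)

lemma sg_sq (k : ℕ) : sg k * sg k = 1 := by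
  funext j; by_cases h : j < k <;> simp [sg, h]

/-- the group -/
def G : Subgroup H := Subgroup.closure (range rho)

instance : Countable G := by
  have : Countable (FreeGroup (ℕ × Bool)) := Quot.mk_surjective.countable
  have h : (G : Set H) = range (FreeGroup.lift rho) := by
    rw [G, ← FreeGroup.range_lift_eq_closure]; rfl
  exact (h ▸ Set.countable_range _ : (G : Set H).Countable)

instance : MeasurableSpace G := ⊤
instance : DiscreteMeasurableSpace G := ⟨fun _ => trivial⟩

/-- reflecting steps in the group -/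
def rG (c : ℕ × Bool) : G := ⟨rho c, Subgroup.subset_closure ⟨c, rfl⟩⟩

lemma sg_mem (k : ℕ) : sg k ∈ G := by
  cases k with
  | zero => exact (show sg 0 = 1 from funext fun j => by simp [sg]) ▸ G.one_mem
  | succ k => simpa [rG, rho] using (rG (k, false)).2

lemma tr_mem (k : ℕ) : tr k ∈ G := by
  have := G.mul_mem (sg_mem (k + 1)) (rG (k, true)).2
  simpa [rG, rho, ← mul_assoc, sg_sq] using this

/-- translating steps in the group -/
def hG (c : ℕ × Bool) : G := ⟨hh c, G.mul_mem (tr_mem _) (by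
  split_ifs
  · exact sg_mem _
  · exact G.one_mem)⟩

lemma closure_rG : Subgroup.closure (range rG) = ⊤ := by
  rw [eq_top_iff]
  refine (Subgroup.closure_closure_coe_preimage (k := range rho)).ge.trans
    (Subgroup.closure_mono ?_)
  rintro ⟨g, hg⟩ ⟨c, hc⟩
  exact ⟨c, Subtype.ext hc⟩

lemma closure_hG : Subgroup.closure (range hG) = ⊤ := by
  rw [eq_top_iff, ← closure_rG, Subgroup.closure_le]
  rintro _ ⟨⟨k, b⟩, rfl⟩
  have h := fun c => Subgroup.subset_closure (k := range hG) ⟨c, rfl⟩
  cases b with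
  | false =>
    have : rG (k, false) = (hG (k + 1, false))⁻¹ * hG (k + 1, true) :=
      Subtype.ext (by simp [rG, hG, rho, hh])
    rw [this]
    exact Subgroup.mul_mem _ (Subgroup.inv_mem _ (h _)) (h _)
  | true =>
    have : rG (k, true) = (hG (k + 1, false))⁻¹ * hG (k + 1, true) * hG (k, false) :=
      Subtype.ext (by simp [rG, hG, rho, hh])
    rw [this]
    exact Subgroup.mul_mem _ (Subgroup.mul_mem _ (Subgroup.inv_mem _ (h _)) (h _)) (h _)

/-- symmetrisation -/
noncomputable def sym (m : PMF G) : PMF G :=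
  ⟨fun g => (m g + m g⁻¹) / 2, by
    rw [ENNReal.summable.hasSum_iff]
    simp only [div_eq_mul_inv]
    rw [ENNReal.tsum_mul_right, ENNReal.tsum_add, m.tsum_coe,
      (Equiv.inv G).tsum_eq (fun g => m g) |>.trans m.tsum_coe |> fun h => (show ∑' g, m g⁻¹ = 1 from h),
      one_add_one_eq_two]
    exact ENNReal.mul_inv_cancel (by simp) (by simp)⟩

lemma sym_apply (m : PMF G) (g : G) : sym m g = (m g + m g⁻¹) / 2 := rfl

lemma sym_symm (m : PMF G) (g : G) : sym m g⁻¹ = sym m g := by
  rw [sym_apply, sym_apply, inv_inv, add_comm]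

lemma sym_supp (m : PMF G) (g : G) : g ∈ (sym m).support ↔ g ∈ m.support ∨ g⁻¹ ∈ m.support := by
  simp only [PMF.mem_support_iff, sym_apply, ne_eq, ENNReal.div_eq_zero_iff, add_eq_zero]
  simp only [ENNReal.ofNat_ne_top, or_false]
  tauto

lemma sym_meas (m : PMF G) (A : Set G) (hA : ∀ g, g⁻¹ ∈ A ↔ g ∈ A) :
    (sym m).toMeasure A = m.toMeasure A := by
  rw [PMF.toMeasure_apply _ (MeasurableSet.of_discrete), PMF.toMeasure_apply _
    (MeasurableSet.of_discrete)]
  have h1 : ∀ g, A.indicator (sym m) g = (A.indicator m g + A.indicator m g⁻¹) * 2⁻¹ := by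
    intro g
    by_cases h : g ∈ A
    · rw [indicator_of_mem h, indicator_of_mem h, indicator_of_mem ((hA g).2 h), sym_apply,
        div_eq_mul_inv]
    · rw [indicator_of_notMem h, indicator_of_notMem h, indicator_of_notMem ((hA g).not.2 h)]
      simp
  have h2 : ∑' g, A.indicator m g⁻¹ = ∑' g, A.indicator m g :=
    (Equiv.inv G).tsum_eq (fun g => A.indicator m g)
  simp only [h1]
  rw [ENNReal.tsum_mul_right, ENNReal.tsum_add, h2, ← two_mul, mul_comm, ← mul_assoc,
    ENNReal.inv_mul_cancel (by simp) (by simp), one_mul]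

/-- level weights -/
noncomputable def pw (k : ℕ) : ℝ≥0∞ := ENNReal.ofReal (2 / ((k + 2) * (k + 3)))

lemma pw_sum (n : ℕ) : ∑ k ∈ Finset.range n, pw k = ENNReal.ofReal (1 - 2 / (n + 2)) := by
  induction n with
  | zero => simp
  | succ n ih =>
    rw [Finset.sum_range_succ, ih, pw, ← ENNReal.ofReal_add]
    · congr 1; push_cast; field_simp; ring
    · rw [sub_nonneg, div_le_one (by positivity)]; linarith [(Nat.cast_nonneg n : (0 : ℝ) ≤ n)]
    · positivity

lemma pw_tsum : ∑' k, pw k = 1 := by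
  refine tendsto_nhds_unique (ENNReal.tendsto_nat_tsum pw) ?_
  simp only [pw_sum]
  have h : Tendsto (fun n : ℕ => (1 : ℝ) - 2 / (n + 2)) atTop (𝓝 (1 - 0)) :=
    (tendsto_const_nhds.div_atTop
      (tendsto_atTop_add_const_right _ _ tendsto_natCast_atTop_atTop)).const_sub 1
  simpa using ENNReal.tendsto_ofReal h

/-- level law -/
noncomputable def pp : PMF ℕ := ⟨pw, ENNReal.summable.hasSum_iff.2 pw_tsum⟩

/-- index law -/
noncomputable def qq : PMF (ℕ × Bool) :=
  pp.bind fun k => (PMF.uniformOfFintype Bool).map (Prod.mk k)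

lemma qq_supp (c : ℕ × Bool) : c ∈ qq.support := by
  simp only [qq, PMF.mem_support_bind_iff, PMF.mem_support_map_iff]
  refine ⟨c.1, ?_, c.2, PMF.mem_support_uniformOfFintype _, rfl⟩
  show pw c.1 ≠ 0
  simp only [pw, ne_eq, ENNReal.ofReal_eq_zero, not_le]
  positivity

lemma qq_fst : qq.map Prod.fst = pp := by
  simp only [qq, PMF.map_bind, PMF.map_comp]
  conv_rhs => rw [← PMF.bind_pure pp]
  congr 1
  funext k
  exact PMF.map_const _ _

lemma supp_map (f : ℕ × Bool → G) : (qq.map f).support = range f := by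
  ext g
  simp only [PMF.mem_support_map_iff, qq_supp, true_and, mem_range]

lemma map_meas (f : ℕ × Bool → G) (A : Set G) (Q : Set ℕ) (h : ∀ c, f c ∈ A ↔ c.1 ∈ Q) :
    (qq.map f).toMeasure A = pp.toMeasure Q := by
  rw [← qq_fst, PMF.toMeasure_map_apply _ _ _ Measurable.of_discrete MeasurableSet.of_discrete,
    PMF.toMeasure_map_apply _ _ _ Measurable.of_discrete MeasurableSet.of_discrete]
  congr 1
  ext c
  exact h c

lemma ae_supp (m : PMF G) : ∀ᵐ ω ∂(Measure.infinitePi (fun _ : ℕ => m.toMeasure)),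
    ∀ i, ω i ∈ m.support := by
  rw [ae_all_iff]
  intro i
  have : ∀ᵐ g ∂m.toMeasure, g ∈ m.support := by
    rw [ae_iff]
    exact (PMF.toMeasure_apply_eq_zero_iff _ MeasurableSet.of_discrete).2 disjoint_compl_right
  exact (measurePreserving_eval_infinitePi (fun _ : ℕ => m.toMeasure) i).quasiMeasurePreserving.ae
    this

lemma ae_io (m : PMF G) (g : G) (hg : g ∈ m.support) (n : ℕ) :
    ∀ᵐ ω ∂(Measure.infinitePi (fun _ : ℕ => m.toMeasure)), ∃ j ≥ n, ω j = g := by
  rw [ae_iff]
  have hlt : m.toMeasure {g}ᶜ < 1 := by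
    refine lt_of_le_of_ne prob_le_one fun h => ?_
    exact (PMF.toMeasure_apply_eq_one_iff _ MeasurableSet.of_discrete).1 h hg rfl
  refine le_antisymm (ge_of_tendsto' (ENNReal.tendsto_pow_atTop_nhds_zero_of_lt_one hlt)
    fun N => ?_) bot_le
  have h := Measure.infinitePi_pi (fun _ : ℕ => m.toMeasure) (s := Finset.Ico n (n + N))
    (t := fun _ => {g}ᶜ) (fun _ _ => MeasurableSet.of_discrete)
  rw [Finset.prod_const, Nat.card_Ico, Nat.add_sub_cancel_left] at h
  rw [← h]
  refine measure_mono fun ω hω j hj => ?_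
  simp only [Finset.coe_Ico, mem_Ico] at hj
  exact fun e => hω ⟨j, hj.1, e⟩

/-- the walk -/
def X (ω : ℕ → G) (n : ℕ) : G := ((List.range n).map ω).prod

lemma X_succ (ω : ℕ → G) (n : ℕ) : X ω (n + 1) = X ω n * ω n := by
  simp [X, List.range_succ]

lemma X_low (ω : ℕ → G) (k n : ℕ) (h : ∀ i < n, ∀ j ≥ k, (ω i).1 j = 1) :
    ∀ j ≥ k, (X ω n).1 j = 1 := by
  induction n with
  | zero => intro j _; rfl
  | succ n ih =>
    intro j hj
    rw [X_succ, Subgroup.coe_mul, Pi.mul_apply, ih (fun i hi => h i (by omega)) j hj,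
      h n (by omega) j hj, one_mul]

lemma rho_hi (c : ℕ × Bool) (j : ℕ) (h : c.1 < j) : rho c j = 1 := by
  have h1 : ¬ j < c.1 + 1 := by omega
  have h2 : j ≠ c.1 := by omega
  cases hb : c.2 <;> simp [rho, sg, tr, h1, h2, hb]

lemma rho_lo (c : ℕ × Bool) (j : ℕ) (h : j ≤ c.1) : ∃ i, rho c j = sr i := by
  have h1 : j < c.1 + 1 := by omega
  by_cases h2 : j = c.1 <;> cases hb : c.2 <;> simp [rho, sg, tr, h1, h2, hb]

lemma rG_inv (c : ℕ × Bool) : (rG c)⁻¹ = rG c := by
  refine Subtype.ext (funext fun j => ?_)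
  show (rho c j)⁻¹ = rho c j
  rcases lt_or_ge c.1 j with h | h
  · rw [rho_hi c j h, inv_one]
  · obtain ⟨i, hi⟩ := rho_lo c j h
    rw [hi, inv_sr]

lemma AR (ω : ℕ → G) (h1 : ∀ i, ω i ∈ range rG) (h2 : ∀ c n, ∃ j ≥ n, ω j = rG c) (N : ℕ) :
    Subsemigroup.closure (range fun k => X ω (N + k)) = ⊤ := by
  set S := Subsemigroup.closure (range fun k => X ω (N + k)) with hS
  choose κ hκ using h1
  have hX : ∀ n ≥ N, X ω n ∈ S := fun n hn =>
    Subsemigroup.subset_closure ⟨n - N, by simp [Nat.add_sub_cancel' hn]⟩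
  have hinv : ∀ i ≥ N, (X ω i)⁻¹ ∈ S := by
    intro i hi
    set M := (Finset.range i).sup fun j => (κ j).1 with hM
    have hex : ∃ n, M < (κ n).1 := by
      obtain ⟨j, -, hj⟩ := h2 (M + 1, false) 0
      refine ⟨j, ?_⟩
      by_contra hle
      have e1 := rho_hi (κ j) (M + 1) (by omega)
      obtain ⟨u, e2⟩ := rho_lo (M + 1, false) (M + 1) le_rfl
      have : rho (κ j) = rho (M + 1, false) := congrArg Subtype.val ((hκ j).trans hj)
      rw [this, e2] at e1
      cases e1
    set n := Nat.find hex with hn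
    have hn1 : M < (κ n).1 := Nat.find_spec hex
    have hn2 : ∀ j < n, (κ j).1 ≤ M := fun j hj => not_lt.1 (Nat.find_min hex hj)
    have hin : i ≤ n := by
      by_contra hlt
      have : (κ n).1 ≤ M := Finset.le_sup (f := fun j => (κ j).1) (Finset.mem_range.2 (by omega))
      omega
    set k := (κ n).1 with hk
    have hlow : ∀ m ≤ n + 1, ∀ j ≥ k + 1, (X ω m).1 j = 1 := fun m hm =>
      X_low ω _ _ fun l hl j hj => by
        rw [← hκ l]
        refine rho_hi _ _ ?_
        rcases Nat.lt_succ_iff_lt_or_eq.1 (show l < n + 1 by omega) with h | rfl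
        · have := hn2 l h; omega
        · omega
    let S' : Set H := {a | ∃ g ∈ S, g.1 = a ∧ ∀ j ≥ k + 1, a j = 1}
    have hm : ∀ a ∈ S', ∀ b ∈ S', a * b ∈ S' := by
      rintro _ ⟨g, hg, rfl, hg'⟩ _ ⟨g', hf, rfl, hf'⟩
      exact ⟨g * g', S.mul_mem hg hf, rfl, fun j hj => by
        rw [Pi.mul_apply, hg' j hj, hf' j hj, one_mul]⟩
    obtain ⟨_, ⟨t, ht, rfl, ht'⟩, hst⟩ := grp S' hm (k + 1) (fun j hj => by
      cases hw : (X ω n).1 j with
      | sr u => exact ⟨_, ⟨_, hX n (by omega), rfl, hlow n (by omega)⟩, u, hw⟩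
      | r u =>
        obtain ⟨v, hv⟩ := rho_lo (κ n) j (by omega)
        refine ⟨_, ⟨_, hX (n + 1) (by omega), rfl, hlow _ le_rfl⟩, v - u, ?_⟩
        rw [X_succ, Subgroup.coe_mul, Pi.mul_apply, hw, ← hκ n]
        show r u * rho (κ n) j = _
        rw [hv, r_mul_sr]) (k + 1) le_rfl _ ⟨_, hX i hi, rfl, hlow i (by omega)⟩
    have : X ω i * t = 1 := Subtype.ext (funext fun j => by
      rcases lt_or_ge j (k + 1) with h | h
      · exact hst j h
      · rw [Subgroup.coe_mul, Pi.mul_apply, hlow i (by omega) j h, ht' j h, one_mul]; rfl)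
    rw [inv_eq_of_mul_eq_one_right this]
    exact ht
  have hr : ∀ c, rG c ∈ S := fun c => by
    obtain ⟨j, hj, e⟩ := h2 c N
    have := S.mul_mem (hinv j hj) (hX (j + 1) (by omega))
    rwa [X_succ, inv_mul_cancel_left, e] at this
  rw [eq_top_iff]
  intro g _
  have hg : g ∈ Subgroup.closure (range rG) := by rw [closure_rG]; trivial
  induction hg using Subgroup.closure_induction'' with
  | one =>
    have := S.mul_mem (hr (0, false)) (hr (0, false))
    rwa [show rG (0, false) * rG (0, false) = 1 from mul_eq_one_iff_eq_inv.2 (rG_inv _).symm] at this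
  | mem x hx => obtain ⟨c, rfl⟩ := hx; exact hr c
  | inv_mem x hx => obtain ⟨c, rfl⟩ := hx; rw [rG_inv]; exact hr c
  | mul x y _ _ hx hy => exact S.mul_mem (hx trivial) (hy trivial)

/-- supported on levels at most `k` -/
def Low (k : ℕ) : Set G := {g | ∀ j > k, g.1 j = 1}

/-- level exactly `k` -/
def Lev (k : ℕ) : Set G := {g | (∀ j > k, g.1 j = 1) ∧ g.1 k ≠ 1}

/-- a repeated record -/
def Bad (k i d : ℕ) : Set (ℕ → G) :=
  Set.pi (Finset.range (i + d + 2)) fun j => if j = i ∨ j = i + d + 1 then Lev k else Low k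

lemma hh_hi (c : ℕ × Bool) (j : ℕ) (h : c.1 < j) : hh c j = 1 := by
  have h1 : ¬ j < c.1 := by omega
  have h2 : j ≠ c.1 := by omega
  cases hb : c.2 <;> simp [hh, sg, tr, h1, h2, hb]

lemma hh_top (c : ℕ × Bool) : hh c c.1 = r 1 := by
  cases hb : c.2 <;> simp [hh, sg, tr, hb]

lemma r_pow_ne (a : ℤ) (ha : a ≠ 0) (m : ℕ) : (r (n := 0) a) ^ (m + 1) ≠ 1 := by
  rw [r_pow, one_def]
  intro h
  have h1 : a * ((m + 1 : ℕ) : ℤ) = 0 := DihedralGroup.r.inj h
  rcases mul_eq_zero.1 h1 with h | h
  · exact ha h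
  · omega

lemma r_one_ne : (r 1 : DihedralGroup 0) ≠ 1 := by
  have := r_pow_ne 1 one_ne_zero 0
  rw [zero_add, pow_one] at this
  exact this

lemma notAR (ω : ℕ → G) (h1 : ∀ i, ω i ∈ range hG ∨ (ω i)⁻¹ ∈ range hG)
    (h2 : ∀ k i d, ω ∉ Bad k i d) :
    Subsemigroup.closure (range fun k => X ω (1 + k)) ≠ ⊤ := by
  have h3 : ∀ i, ∃ k, (∀ j > k, (ω i).1 j = 1) ∧ ∃ a : ℤ, a ≠ 0 ∧ (ω i).1 k = r (n := 0) a := by
    intro i
    rcases h1 i with ⟨c, hc⟩ | ⟨c, hc⟩
    · rw [← hc]
      exact ⟨c.1, hh_hi c, 1, one_ne_zero, hh_top c⟩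
    · rw [← inv_eq_iff_eq_inv.2 hc]
      refine ⟨c.1, fun j hj => ?_, -1, by simp, ?_⟩
      · show (hh c j)⁻¹ = 1
        rw [hh_hi c j hj, inv_one]
      · show (hh c c.1)⁻¹ = _
        rw [hh_top, inv_r]; rfl
  choose l hl a ha hla using h3
  have hne : ∀ i, (ω i).1 (l i) ≠ 1 := fun i => by
    rw [hla]; simpa using r_pow_ne _ (ha i) 0
  let P : Subsemigroup G :=
    { carrier := {g | ∃ i, (∀ j < i, l j < l i) ∧ (∀ j > l i, g.1 j = 1) ∧
        ∃ m : ℕ, g.1 (l i) = (ω i).1 (l i) ^ (m + 1)}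
      mul_mem' := by
        rintro g g' ⟨i, r1, z1, m1, e1⟩ ⟨i', r2, z2, m2, e2⟩
        rcases lt_trichotomy (l i) (l i') with h | h | h
        · refine ⟨i', r2, fun j hj => ?_, m2, ?_⟩
          · rw [Subgroup.coe_mul, Pi.mul_apply, z1 j (by omega), z2 j hj, one_mul]
          · rw [Subgroup.coe_mul, Pi.mul_apply, z1 _ h, e2, one_mul]
        · obtain rfl : i = i' := by
            rcases lt_trichotomy i i' with h' | h' | h'
            · have := r2 i h'; omega
            · exact h'
            · have := r1 i' h'; omega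
          refine ⟨i, r1, fun j hj => ?_, m1 + 1 + m2, ?_⟩
          · rw [Subgroup.coe_mul, Pi.mul_apply, z1 j hj, z2 j hj, one_mul]
          · rw [Subgroup.coe_mul, Pi.mul_apply, e1, e2, ← pow_add]; rfl
        · refine ⟨i, r1, fun j hj => ?_, m1, ?_⟩
          · rw [Subgroup.coe_mul, Pi.mul_apply, z1 j hj, z2 j (by omega), one_mul]
          · rw [Subgroup.coe_mul, Pi.mul_apply, z2 _ h, e1, mul_one] }
  have key : ∀ m, ∃ i < m + 1, (∀ j < i, l j < l i) ∧ (∀ j < m + 1, l j ≤ l i) ∧
      (X ω (m + 1)).1 (l i) = (ω i).1 (l i) := by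
    intro m
    induction m with
    | zero =>
      refine ⟨0, by omega, fun j hj => by omega, fun j hj => ?_, by simp [X]⟩
      obtain rfl : j = 0 := by omega
      exact le_rfl
    | succ m ih =>
      obtain ⟨i, hi, r1, r2, e⟩ := ih
      rcases lt_trichotomy (l (m + 1)) (l i) with h | h | h
      · refine ⟨i, by omega, r1, fun j hj => ?_, ?_⟩
        · rcases Nat.lt_succ_iff_lt_or_eq.1 hj with h' | rfl
          · exact r2 j h'
          · exact h.le
        · rw [X_succ, Subgroup.coe_mul, Pi.mul_apply, e, hl _ _ h, mul_one]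
      · exfalso
        refine h2 (l i) i (m - i) fun j hj => ?_
        simp only [Finset.coe_range, mem_Iio] at hj
        beta_reduce
        split_ifs with hc
        · rcases hc with rfl | rfl
          · exact ⟨hl _, hne _⟩
          · rw [show i + (m - i) + 1 = m + 1 by omega, ← h]
            exact ⟨hl _, hne _⟩
        · exact fun j' hj' => hl j j' (by have := r2 j (by omega); omega)
      · refine ⟨m + 1, by omega, fun j hj => (r2 j hj).trans_lt h, fun j hj => ?_, ?_⟩
        · rcases Nat.lt_succ_iff_lt_or_eq.1 hj with h' | rfl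
          · exact ((r2 j h').trans_lt h).le
          · exact le_rfl
        · rw [X_succ, Subgroup.coe_mul, Pi.mul_apply, X_low ω (l i + 1) (m + 1)
            (fun i' hi' j hj => hl i' j (by have := r2 i' hi'; omega)) _ h, one_mul]
  intro htop
  have hle : Subsemigroup.closure (range fun k => X ω (1 + k)) ≤ P := by
    rw [Subsemigroup.closure_le]
    rintro _ ⟨m, rfl⟩
    obtain ⟨i, hi, r1, r2, e⟩ := key m
    refine ⟨i, r1, ?_, 0, ?_⟩
    · simp only [add_comm 1 m]
      exact X_low ω (l i + 1) (m + 1) fun i' hi' j hj => hl i' j (by have := r2 i' hi'; omega)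
    · simp only [add_comm 1 m]
      rw [e, zero_add, pow_one]
  obtain ⟨i, -, -, m, e⟩ : (1 : G) ∈ P := hle (by rw [htop]; trivial)
  rw [hla] at e
  exact r_pow_ne _ (ha i) m e.symm

lemma bad_meas (k i d : ℕ) :
    Measure.infinitePi (fun _ : ℕ => (sym (qq.map hG)).toMeasure) (Bad k i d) =
      pw k ^ 2 * (ENNReal.ofReal (1 - 2 / (k + 3)) ^ i * ENNReal.ofReal (1 - 2 / (k + 3)) ^ d) := by
  have h1 : (sym (qq.map hG)).toMeasure (Lev k) = pw k := by
    rw [sym_meas _ _ (fun g => by simp [Lev]), map_meas hG _ {k}, PMF.toMeasure_apply_singleton _ _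
      MeasurableSet.of_discrete]
    · rfl
    · intro c
      constructor
      · rintro ⟨e1, e2⟩
        rcases lt_trichotomy c.1 k with h | h | h
        · exact absurd (hh_hi c k h) e2
        · exact h
        · have := e1 _ h
          rw [show (hG c).1 c.1 = r 1 from hh_top c] at this
          exact absurd this r_one_ne
      · rintro rfl
        exact ⟨hh_hi c, by
          rw [show (hG c).1 c.1 = r 1 from hh_top c]; exact r_one_ne⟩
  have h2 : (sym (qq.map hG)).toMeasure (Low k) = ENNReal.ofReal (1 - 2 / (k + 3)) := by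
    rw [sym_meas _ _ (fun g => by simp [Low]), map_meas hG _ (Finset.range (k + 1) : Finset ℕ),
      PMF.toMeasure_apply_finset]
    · have := pw_sum (k + 1)
      push_cast at this
      rw [show (k : ℝ) + 3 = k + 1 + 2 by ring, ← this]
      rfl
    · intro c
      simp only [Finset.coe_range, mem_Iio]
      constructor
      · intro e1
        by_contra h
        have := e1 c.1 (by omega)
        rw [show (hG c).1 c.1 = r 1 from hh_top c] at this
        exact absurd this r_one_ne
      · exact fun h j hj => hh_hi c j (by omega)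
  rw [Bad, Measure.infinitePi_pi _ (fun _ _ => MeasurableSet.of_discrete)]
  simp only [apply_ite, h1, h2]
  have h3 : (Finset.range (i + d + 2)).filter (fun j => j = i ∨ j = i + d + 1) = {i, i + d + 1} := by
    ext j
    simp only [Finset.mem_filter, Finset.mem_range, Finset.mem_insert, Finset.mem_singleton]
    omega
  have h4 := Finset.card_filter_add_card_filter_not (s := Finset.range (i + d + 2))
    (fun j => j = i ∨ j = i + d + 1)
  rw [h3, Finset.card_pair (by omega), Finset.card_range] at h4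
  rw [Finset.prod_ite, Finset.prod_const, Finset.prod_const, h3, Finset.card_pair (by omega),
    ← pow_add]
  congr 2
  omega

lemma bad_total :
    Measure.infinitePi (fun _ : ℕ => (sym (qq.map hG)).toMeasure) (⋃ k, ⋃ i, ⋃ d, Bad k i d) < 1 := by
  have h : ∀ k : ℕ, Measure.infinitePi (fun _ : ℕ => (sym (qq.map hG)).toMeasure)
      (⋃ i, ⋃ d, Bad k i d) ≤ ENNReal.ofReal (3 / 4) * pw k := by
    intro k
    refine (measure_iUnion_le _).trans ((ENNReal.tsum_le_tsum fun i => measure_iUnion_le _).trans ?_)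
    simp only [bad_meas, ENNReal.tsum_mul_left, ENNReal.tsum_mul_right, ENNReal.tsum_geometric]
    have hk : (0 : ℝ) ≤ k := Nat.cast_nonneg k
    have e : 1 - ENNReal.ofReal (1 - 2 / ((k : ℝ) + 3)) = ENNReal.ofReal (2 / (k + 3)) := by
      rw [← ENNReal.ofReal_one, ← ENNReal.ofReal_sub _ (by
        rw [sub_nonneg, div_le_one (by positivity)]; linarith)]
      congr 1; ring
    rw [e, pw, ← ENNReal.ofReal_inv_of_pos (by positivity), ← ENNReal.ofReal_pow (by positivity),
      ← ENNReal.ofReal_mul (by positivity), ← ENNReal.ofReal_mul (by positivity),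
      ← ENNReal.ofReal_mul (by positivity)]
    refine ENNReal.ofReal_le_ofReal ?_
    rw [show (2 / (((k : ℝ) + 2) * (k + 3))) ^ 2 * ((2 / ((k : ℝ) + 3))⁻¹ * (2 / ((k : ℝ) + 3))⁻¹) =
      ((k + 3) / (2 * (k + 2))) * (2 / ((k + 2) * (k + 3))) by field_simp]
    refine mul_le_mul_of_nonneg_right ?_ (by positivity)
    rw [div_le_div_iff₀ (by positivity) (by positivity)]
    linarith
  refine (measure_iUnion_le _).trans_lt ((ENNReal.tsum_le_tsum h).trans_lt ?_)
  rw [ENNReal.tsum_mul_left, pw_tsum, mul_one, ← ENNReal.ofReal_one]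
  exact (ENNReal.ofReal_lt_ofReal_iff one_pos).2 (by norm_num)


/-- The negation of the preceding statement: For every countable group and any two symmetric probability measures whose supports generate it: if a.s. the products X_n, X_{n+1}, ... of the walk generate the whole group as a semigroup for every n under the first, the same holds under the second. -/
theorem result :
    ¬ (∀ (G : Type) [Group G] [Countable G] [MeasurableSpace G] [DiscreteMeasurableSpace G]
      (μ ν : PMF G),
      (∀ g : G, μ g⁻¹ = μ g) → Subgroup.closure μ.support = ⊤ →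
      (∀ g : G, ν g⁻¹ = ν g) → Subgroup.closure ν.support = ⊤ →
      (∀ n : ℕ, ∀ᵐ ω ∂(Measure.infinitePi (fun _ : ℕ => μ.toMeasure)),
          Subsemigroup.closure
            (Set.range (fun k : ℕ => ((List.range (n + k)).map ω).prod)) = ⊤) →
      (∀ n : ℕ, ∀ᵐ ω ∂(Measure.infinitePi (fun _ : ℕ => ν.toMeasure)),
          Subsemigroup.closure
            (Set.range (fun k : ℕ => ((List.range (n + k)).map ω).prod)) = ⊤)) := by
  intro h
  have h1 := h G (sym (qq.map rG)) (sym (qq.map hG)) (sym_symm _) (by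
      rw [eq_top_iff, ← closure_rG]
      exact Subgroup.closure_mono fun g hg => (sym_supp _ _).2 (Or.inl (by rwa [supp_map])))
    (sym_symm _) (by
      rw [eq_top_iff, ← closure_hG]
      exact Subgroup.closure_mono fun g hg => (sym_supp _ _).2 (Or.inl (by rwa [supp_map])))
    (fun N => by
      have h2 : ∀ᵐ ω ∂(Measure.infinitePi (fun _ : ℕ => (sym (qq.map rG)).toMeasure)),
          ∀ c n, ∃ j ≥ n, ω j = rG c :=
        ae_all_iff.2 fun c => ae_all_iff.2 fun n =>
          ae_io _ _ ((sym_supp _ _).2 (Or.inl (by rw [supp_map]; exact ⟨c, rfl⟩))) n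
      filter_upwards [h2, ae_supp _] with ω h2 h3
      refine AR ω (fun i => ?_) h2 N
      rcases (sym_supp _ _).1 (h3 i) with h4 | h4
      · rwa [supp_map] at h4
      · rw [supp_map] at h4
        obtain ⟨c, hc⟩ := h4
        exact ⟨c, by rw [← rG_inv, hc, inv_inv]⟩) 1
  have h2 : ∀ᵐ ω ∂(Measure.infinitePi (fun _ : ℕ => (sym (qq.map hG)).toMeasure)),
      ω ∈ ⋃ k, ⋃ i, ⋃ d, Bad k i d := by
    filter_upwards [h1, ae_supp _] with ω h1 h3
    by_contra hb
    simp only [mem_iUnion, not_exists] at hb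
    exact notAR ω (fun i => by simpa only [supp_map] using (sym_supp _ _).1 (h3 i)) hb h1
  have h3 := measure_mono_ae (μ := Measure.infinitePi (fun _ : ℕ => (sym (qq.map hG)).toMeasure))
    (s := univ) (t := ⋃ k, ⋃ i, ⋃ d, Bad k i d) (h2.mono fun ω h _ => h)
  rw [measure_univ] at h3
  exact absurd bad_total (not_lt.2 h3)

end Pool.Agent.S19562
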