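import Pool.Statements.S19597
import Pool.Agent.H3.AlohaB

set_option autoImplicit false
open Pool Pool.MP_ba3ff3_pr

namespace Pool.Agent.S19597

/-- For some λ>0 and some update rule p↦f(p, success) on [0,1], the backlog/probability chain (Poisson(λ) arrivals, slot succeeds iff exactly one backlogged packet transmits) has a discrete stationary probability distribution. -/
theorem result :
    ∃ lam : ℝ, 0 < lam ∧
      ∃ f : ℝ → Bool → ℝ,
        (∀ p ∈ Set.Icc (0:ℝ) 1, ∀ b : Bool, f p b ∈ Set.Icc (0:ℝ) 1) ∧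
        ∃ π : ℕ → ℝ → ℝ,
          (∀ w p, 0 ≤ π w p) ∧
          (∀ w p, π w p ≠ 0 → p ∈ Set.Icc (0:ℝ) 1) ∧
          Summable (fun x : ℕ × ℝ => π x.1 x.2) ∧
          (∑' x : ℕ × ℝ, π x.1 x.2) = 1 ∧
          ∀ w' : ℕ, ∀ p' : ℝ,
            π w' p' = ∑' x : ℕ × ℝ, π x.1 x.2 *
              ((if x.1 ≤ w' + 1 ∧ f x.2 true = p' then
                  ((x.1 : ℝ) * x.2 * (1 - x.2) ^ (x.1 - 1)) *
                    (Real.exp (-lam) * lam ^ (w' + 1 - x.1) / ((w' + 1 - x.1).factorial : ℝ))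
                else 0) +
               (if x.1 ≤ w' ∧ f x.2 false = p' then
                  (1 - (x.1 : ℝ) * x.2 * (1 - x.2) ^ (x.1 - 1)) *
                    (Real.exp (-lam) * lam ^ (w' - x.1) / ((w' - x.1).factorial : ℝ))
                else 0)) := by
  classical
  open Pool.Agent.H3.Aloha in
  obtain ⟨lam, hl, ν, hν1, hν⟩ := exists_stat
  have hνt : ∀ x, ν x ≠ ⊤ := fun x =>
    ne_top_of_le_ne_top ENNReal.one_ne_top (hν1 ▸ ENNReal.le_tsum x)
  let g : ℕ × H3.Aloha.St → ℕ × ℝ := fun x => (x.1, H3.Aloha.enc x.2)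
  have hg : Function.Injective g := by
    rintro ⟨a, b⟩ ⟨c, d⟩ h
    simp only [g, Prod.mk.injEq] at h
    exact Prod.ext h.1 (H3.Aloha.enc_inj h.2)
  let f : ℝ → Bool → ℝ := fun p b =>
    if h : ∃ σ, H3.Aloha.enc σ = p then H3.Aloha.enc (H3.Aloha.nxt h.choose b) else 0
  have hf : ∀ σ b, f (H3.Aloha.enc σ) b = H3.Aloha.enc (H3.Aloha.nxt σ b) := by
    intro σ b
    have h : ∃ τ, H3.Aloha.enc τ = H3.Aloha.enc σ := ⟨σ, rfl⟩
    simp only [f, dif_pos h]
    rw [H3.Aloha.enc_inj h.choose_spec]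
  let π : ℕ → ℝ → ℝ := fun w p =>
    if h : ∃ σ, H3.Aloha.enc σ = p then (ν (w, h.choose)).toReal else 0
  have hπ : ∀ w σ, π w (H3.Aloha.enc σ) = (ν (w, σ)).toReal := by
    intro w σ
    have h : ∃ τ, H3.Aloha.enc τ = H3.Aloha.enc σ := ⟨σ, rfl⟩
    simp only [π, dif_pos h]
    rw [H3.Aloha.enc_inj h.choose_spec]
  have hπ0 : ∀ x : ℕ × ℝ, x ∉ Set.range g → π x.1 x.2 = 0 := by
    rintro ⟨w, p⟩ hx
    have h : ¬ ∃ σ, H3.Aloha.enc σ = p := by
      rintro ⟨σ, rfl⟩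
      exact hx ⟨(w, σ), rfl⟩
    simp only [π, dif_neg h]
  have hsum : HasSum (fun x : ℕ × ℝ => π x.1 x.2) 1 := by
    rw [← hg.hasSum_iff hπ0]
    have e : (fun x : ℕ × ℝ => π x.1 x.2) ∘ g = fun x => (ν x).toReal := by
      funext x; exact hπ x.1 x.2
    rw [e]
    have := ENNReal.hasSum_toReal (f := ν) (by rw [hν1]; simp)
    rwa [← ENNReal.tsum_toReal_eq hνt, hν1, ENNReal.toReal_one] at this
  refine ⟨lam, hl, f, ?_, π, ?_, ?_, hsum.summable, hsum.tsum_eq, ?_⟩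
  · intro p _ b
    simp only [f]
    split_ifs
    · exact ⟨(H3.Aloha.enc_mem _).1, (H3.Aloha.enc_mem _).2.trans (by norm_num)⟩
    · simp
  · intro w p
    simp only [π]
    split_ifs
    · exact ENNReal.toReal_nonneg
    · exact le_rfl
  · intro w p h
    by_cases h2 : ∃ σ, H3.Aloha.enc σ = p
    · obtain ⟨σ, rfl⟩ := h2
      exact ⟨(H3.Aloha.enc_mem _).1, (H3.Aloha.enc_mem _).2.trans (by norm_num)⟩
    · exact absurd (by simp only [π, dif_neg h2]) h
  intro w' p'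
  rw [← hg.tsum_eq (by
    intro x hx
    by_contra h
    exact hx (by simp only [hπ0 x h, zero_mul]))]
  simp only [g, hπ, hf]
  by_cases h2 : ∃ σ, H3.Aloha.enc σ = p'
  swap
  · have : ∀ σ, H3.Aloha.enc σ ≠ p' := fun σ h => h2 ⟨σ, h⟩
    simp only [π, dif_neg h2, this, and_false, if_false, add_zero, mul_zero, tsum_zero]
  obtain ⟨σ', rfl⟩ := h2
  have hrle : ∀ x, (∑' i, if H3.Aloha.T x i = (w', σ') then H3.Aloha.r lam x i else 0) ≠ ⊤ := by
    intro x
    refine ne_top_of_le_ne_top ENNReal.one_ne_top ?_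
    rw [← H3.Aloha.r_sum hl.le x]
    exact ENNReal.tsum_le_tsum (fun i => by split_ifs <;> simp)
  rw [hπ, hν, ENNReal.tsum_toReal_eq (fun x => ENNReal.mul_ne_top (hνt x) (hrle x))]
  refine tsum_congr (fun x => ?_)
  rw [ENNReal.toReal_mul]
  congr 1
  obtain ⟨w, σ⟩ := x
  have h0 := H3.Aloha.q_nonneg w (H3.Aloha.enc_mem σ).1 (H3.Aloha.enc_mem σ).2
  have h1 := H3.Aloha.q_le_one w (H3.Aloha.enc_mem σ).1 (H3.Aloha.enc_mem σ).2
  have hA : (∑' n : ℕ, if H3.Aloha.T (w, σ) (true, n) = (w', σ') then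
      H3.Aloha.r lam (w, σ) (true, n) else 0) = ENNReal.ofReal
      (if w ≤ w' + 1 ∧ H3.Aloha.enc (H3.Aloha.nxt σ true) = H3.Aloha.enc σ' then
        H3.Aloha.q w (H3.Aloha.enc σ) * H3.Aloha.pois lam (w' + 1 - w) else 0) := by
    rcases Nat.eq_zero_or_pos w with rfl | hw
    · simp [H3.Aloha.r, H3.Aloha.q]
    rw [tsum_eq_single (w' + 1 - w)]
    · simp only [H3.Aloha.T, H3.Aloha.r, if_true, Prod.mk.injEq, H3.Aloha.enc_inj.eq_iff]
      have : (w - 1 + (w' + 1 - w) = w') ↔ w ≤ w' + 1 := by omega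
      simp only [this]
      split_ifs <;> simp
    · intro n hn
      rw [if_neg]
      simp only [H3.Aloha.T, if_true, Prod.mk.injEq]
      omega
  have hB : (∑' n : ℕ, if H3.Aloha.T (w, σ) (false, n) = (w', σ') then
      H3.Aloha.r lam (w, σ) (false, n) else 0) = ENNReal.ofReal
      (if w ≤ w' ∧ H3.Aloha.enc (H3.Aloha.nxt σ false) = H3.Aloha.enc σ' then
        (1 - H3.Aloha.q w (H3.Aloha.enc σ)) * H3.Aloha.pois lam (w' - w) else 0) := by
    rw [tsum_eq_single (w' - w)]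
    · simp only [H3.Aloha.T, H3.Aloha.r, Bool.false_eq_true, if_false, Prod.mk.injEq,
        H3.Aloha.enc_inj.eq_iff]
      have : (w + (w' - w) = w') ↔ w ≤ w' := by omega
      simp only [this]
      split_ifs <;> simp
    · intro n hn
      rw [if_neg]
      simp only [H3.Aloha.T, Bool.false_eq_true, if_false, Prod.mk.injEq]
      omega
  have p1 := H3.Aloha.pois_nonneg hl.le (w' + 1 - w)
  have p2 := H3.Aloha.pois_nonneg hl.le (w' - w)
  have n1 : 0 ≤ (if w ≤ w' + 1 ∧ H3.Aloha.enc (H3.Aloha.nxt σ true) = H3.Aloha.enc σ' then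
        H3.Aloha.q w (H3.Aloha.enc σ) * H3.Aloha.pois lam (w' + 1 - w) else 0) := by
    split_ifs
    · exact mul_nonneg h0 p1
    · exact le_rfl
  have n2 : 0 ≤ (if w ≤ w' ∧ H3.Aloha.enc (H3.Aloha.nxt σ false) = H3.Aloha.enc σ' then
        (1 - H3.Aloha.q w (H3.Aloha.enc σ)) * H3.Aloha.pois lam (w' - w) else 0) := by
    split_ifs
    · exact mul_nonneg (by linarith) p2
    · exact le_rfl
  rw [ENNReal.tsum_prod', tsum_bool, hA, hB, ← ENNReal.ofReal_add n2 n1,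
    ENNReal.toReal_ofReal (add_nonneg n2 n1), add_comm]
  rfl

end Pool.Agent.S19597
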