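import Pool.Statements.S19615
import Pool.Agent.H21.Mix2

set_option autoImplicit false
open MeasureTheory
open Pool Pool.MP_bf37ff_pr

namespace Pool.Agent.S19615

open Pool.Agent.H21.Mix Set
open scoped ENNReal unitInterval

/-- For every probability law on the reals with a density and support in a bounded interval, there is N such that for every n ≥ N some joint law on n coordinates has all marginals equal to it and an a.s. constant coordinate sum. -/
theorem result :
    ∀ μ : Measure ℝ, IsProbabilityMeasure μ →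
      μ ≪ volume →
      (∃ a b : ℝ, μ (Set.Icc a b)ᶜ = 0) →
      ∃ N : ℕ, ∀ n : ℕ, N ≤ n →
        ∃ ν : Measure (Fin n → ℝ), IsProbabilityMeasure ν ∧
          (∀ i : Fin n, ν.map (fun x => x i) = μ) ∧
          ∃ c : ℝ, ∀ᵐ x ∂ν, ∑ i, x i = c := by
  rintro μ hμ hac ⟨a, b, hab0⟩
  have hab : a ≤ b := by
    by_contra h
    rw [Icc_eq_empty h, compl_empty, measure_univ] at hab0
    exact one_ne_zero hab0
  obtain ⟨y0, h, C, ψ, hh, hC, hψ, hψC, hψs⟩ := flex μ hac
  obtain ⟨L, hL⟩ := exists_nat_ge ((b - a) / h)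
  let M : Measure ℝ := ∑ c : Bool, ((Lam L).prod (volume : Measure I)).map (ψ c)
  have hMle : ∀ A, MeasurableSet A → M A ≤ (C * ((2 * (2 + 4 * L) : ℕ) : ℝ≥0∞)) * μ A := by
    intro A hA
    have h1 : ∀ c, ((Lam L).prod (volume : Measure I)).map (ψ c) A ≤
        C * μ A * ((2 + 4 * L : ℕ) : ℝ≥0∞) := by
      intro c
      rw [map_prod_apply _ _ _ (hψ c) A hA, ← Lam_univ, ← lintegral_const]
      exact lintegral_mono fun t => hψC c t A hA
    simp only [M, Fintype.sum_bool, Measure.add_apply]
    refine (add_le_add (h1 true) (h1 false)).trans (le_of_eq ?_)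
    push_cast
    ring
  have hMu : M univ = ((2 * (2 + 4 * L) : ℕ) : ℝ≥0∞) := by
    have h1 : ∀ c, ((Lam L).prod (volume : Measure I)).map (ψ c) univ =
        ((2 + 4 * L : ℕ) : ℝ≥0∞) := by
      intro c
      rw [map_prod_apply _ _ _ (hψ c) _ MeasurableSet.univ]
      simp only [preimage_univ, measure_univ, lintegral_const, one_mul, Lam_univ]
    simp only [M, Fintype.sum_bool, Measure.add_apply, h1]
    push_cast
    ring
  haveI : IsFiniteMeasure M := ⟨by rw [hMu]; exact ENNReal.natCast_lt_top _⟩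
  obtain ⟨N, hN⟩ := ENNReal.exists_nat_gt
    (ENNReal.mul_ne_top hC (ENNReal.natCast_ne_top (2 * (2 + 4 * L))))
  refine ⟨N + 2 * (2 + 4 * L), fun n hn => ?_⟩
  obtain ⟨r, rfl⟩ : ∃ r, n = r + 2 * (2 + 4 * L) := ⟨n - 2 * (2 + 4 * L), by omega⟩
  have hle : M ≤ ((r + 2 * (2 + 4 * L) : ℕ) : ℝ≥0∞) • μ := by
    refine Measure.le_iff.2 fun A hA => (hMle A hA).trans ?_
    rw [Measure.smul_apply, smul_eq_mul]
    refine mul_le_mul_left (hN.le.trans ?_) _
    exact_mod_cast (by omega : N ≤ r + 2 * (2 + 4 * L))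
  have hRM := Measure.sub_add_cancel_of_le hle
  set R := ((r + 2 * (2 + 4 * L) : ℕ) : ℝ≥0∞) • μ - M with hR
  have hR0 : R (Icc a b)ᶜ = 0 := by
    have := congrArg (fun ν : Measure ℝ => ν (Icc a b)ᶜ) hRM
    simp only [Measure.add_apply, Measure.smul_apply, hab0, smul_zero, add_eq_zero] at this
    exact this.1
  have hRu : R univ = ENNReal.ofReal r := by
    have := congrArg (fun ν : Measure ℝ => ν univ) hRM
    simp only [Measure.add_apply, Measure.smul_apply, hMu, measure_univ, smul_eq_mul, mul_one] at this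
    rw [Nat.cast_add r] at this
    rw [ENNReal.ofReal_natCast]
    exact (ENNReal.add_left_inj (ENNReal.natCast_ne_top _)).1 this
  obtain ⟨Q, hQ, hQab, hQR⟩ := quantile R a b hab hR0 r hRu
  have hQm := hQ.measurable
  let S : ℝ → ℝ := fun u => ∑ i ∈ Finset.range r, Q (u + i)
  have hSm : Measurable S := Finset.measurable_sum _ fun i _ => hQm.comp (measurable_add_const _)
  have hS : ∀ᵐ u ∂lam, S 0 ≤ S u ∧ S u ≤ S 0 + (b - a) := by
    filter_upwards [lam_ae] with u hu
    constructor
    · exact Finset.sum_le_sum fun i _ => hQ (by linarith [hu.1])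
    · have h1 : S u ≤ ∑ i ∈ Finset.range r, Q (((i + 1 : ℕ) : ℝ)) :=
        Finset.sum_le_sum fun i _ => hQ (by push_cast; linarith [hu.2])
      have h2 := Finset.sum_range_succ' (fun i : ℕ => Q (i : ℝ)) r
      rw [Finset.sum_range_succ] at h2
      have h3 := (hQab (r : ℝ)).2
      have h4 := (hQab ((0 : ℕ) : ℝ)).1
      simp only [S, zero_add] at h1 ⊢
      linarith
  have hSi : Integrable S lam :=
    Integrable.of_bound hSm.aestronglyMeasurable (|S 0| + (b - a)) (hS.mono fun u hu => by
      rw [Real.norm_eq_abs, abs_le]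
      constructor <;> linarith [hu.1, hu.2, le_abs_self (S 0), neg_abs_le (S 0)])
  obtain ⟨θ, hθ⟩ : ∃ θ, θ = ∫ u, S u ∂lam := ⟨_, rfl⟩
  have hθ1 : S 0 ≤ θ := by
    have := integral_mono_ae (integrable_const (S 0)) hSi (hS.mono fun u hu => hu.1)
    simpa [← hθ] using this
  have hθ2 : θ ≤ S 0 + (b - a) := by
    have := integral_mono_ae hSi (integrable_const (S 0 + (b - a))) (hS.mono fun u hu => hu.2)
    simpa [← hθ] using this
  obtain ⟨T, hT, hTL, hTae⟩ := absorb L (fun u => (θ - S u) / h) (by fun_prop)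
    (hS.mono fun u hu => by
      rw [abs_div, abs_of_pos hh]
      refine le_trans (div_le_div_of_nonneg_right ?_ hh.le) hL
      rw [abs_le]
      constructor <;> linarith [hu.1, hu.2])
    (by rw [integral_div, integral_sub (integrable_const _) hSi, ← hθ]; simp)
  refine symm (((lam.prod lam).prod lam).prod (volume : Measure I)) (ι := Fin r ⊕ (τ L × Bool)) _
    (by simp; ring) (by omega)
    (fun i ω => match i with
      | Sum.inl i => Q (ω.1.1.1 + (i : ℕ))
      | Sum.inr (t, c) => ψ c (T t ω.1, ω.2)) ?_ μ ?_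
    (θ + (2 + 4 * L) * y0 + h * (1 + 3 * L)) ?_
  · rintro (i | ⟨t, c⟩)
    · exact hQm.comp (by fun_prop)
    · exact (hψ c).comp (((hT t).comp measurable_fst).prodMk measurable_snd)
  · rw [← hRM, Fintype.sum_sum_type]
    congr 1
    · have h1 : ∀ i : ℕ, (((lam.prod lam).prod lam).prod (volume : Measure I)).map
          (fun ω => Q (ω.1.1.1 + (i : ℝ))) = (lam.map fun v : ℝ => v + (i : ℝ)).map Q := by
        intro i
        rw [map_fst' _ _ (fun x : (ℝ × ℝ) × ℝ => Q (x.1.1 + i)) (hQm.comp (by fun_prop)),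
          map_fst' _ _ (fun x : ℝ × ℝ => Q (x.1 + i)) (hQm.comp (by fun_prop)),
          map_fst' _ _ (fun x : ℝ => Q (x + i)) (hQm.comp (by fun_prop)),
          Measure.map_map hQm (by fun_prop)]
        rfl
      simp only [h1]
      rw [Fin.sum_univ_eq_sum_range (fun i : ℕ => (lam.map fun v : ℝ => v + (i : ℝ)).map Q),
        ← Measure.map_finset_sum hQm.aemeasurable, lam_sum, hQR]
    · rw [Fintype.sum_prod_type, Finset.sum_comm]
      refine Finset.sum_congr rfl fun c _ => ?_
      ext A hA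
      have hm : Measurable fun t => volume ((fun w : I => ψ c (t, w)) ⁻¹' A) :=
        measurable_measure_prodMk_left (hψ c hA)
      rw [map_prod_apply _ _ _ (hψ c) A hA, ← hTL, lintegral_finsetSum_measure,
        Measure.finset_sum_apply]
      refine Finset.sum_congr rfl fun t _ => ?_
      have hm2 : Measurable fun ω : ((ℝ × ℝ) × ℝ) × I => ψ c (T t ω.1, ω.2) :=
        (hψ c).comp (((hT t).comp measurable_fst).prodMk measurable_snd)
      rw [map_prod_apply _ _ _ hm2 A hA, lintegral_map hm (hT t)]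
  · filter_upwards [(Measure.quasiMeasurePreserving_fst (μ := (lam.prod lam).prod lam)
      (ν := (volume : Measure I))).ae hTae] with ω hω
    rw [Fintype.sum_sum_type, Fintype.sum_prod_type]
    simp only [Fintype.sum_bool]
    rw [Fin.sum_univ_eq_sum_range (fun i : ℕ => Q (ω.1.1.1 + (i : ℝ))),
      Finset.sum_congr rfl fun t _ => hψs _ (hω.1 t) ω.2, Finset.sum_add_distrib, ← Finset.mul_sum,
      hω.2]
    simp only [Finset.sum_const, Finset.card_univ, Fintype.card_sum, Fintype.card_bool,
      Fintype.card_prod, Fintype.card_fin, nsmul_eq_mul]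
    show S ω.1.1.1 + _ = _
    push_cast
    field_simp
    ring

end Pool.Agent.S19615
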