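import Pool.Statements.S19632
import Pool.Agent.H8.Mix

set_option autoImplicit false
open MeasureTheory Filter Topology
open Pool Pool.MP_c7dc48_pr

namespace Pool.Agent.S19632

open Pool.Agent.H8.Mix in
def Cls : Set (H8.Mix.X → ℝ) :=
  {f | ∃ S : Set H8.Mix.X, S.Finite ∧ (∀ y ∈ S, ∀ y' ∈ S, (∃ w, y' [] = y w) ∨ (∃ w, y [] = y' w)) ∧
    f = S.indicator 1}

open Pool.Agent.H8.Mix in
lemma nu_single (y : H8.Mix.X) : nu {y} = 0 := by
  have h := (measurePreserving_eval_infinitePi (fun _ : List Bool => (volume : Measure unitInterval))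
    []).measure_preimage (s := {y []}) (measurableSet_singleton _).nullMeasurableSet
  rw [measure_singleton] at h
  refine measure_mono_null ?_ h
  rintro _ rfl
  rfl

open Pool.Agent.H8.Mix in
lemma int_cls {f : H8.Mix.X → ℝ} (hf : f ∈ Cls) : ∫ y, f y ∂nu = 0 := by
  obtain ⟨S, hS, -, rfl⟩ := hf
  rw [integral_indicator_one hS.measurableSet, Measure.real,
    (measure_null_iff_singleton hS.countable).2 (fun y _ => nu_single y)]
  rfl

open Pool.Agent.H8.Mix ProbabilityTheory in
lemma pair_null {m : ℕ} {i j : Fin m} (h : i ≠ j) (w : List Bool) :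
    Measure.pi (fun _ : Fin m => nu) {x | x j [] = x i w} = 0 := by
  have hi := (iIndepFun_pi (μ := fun _ : Fin m => nu)
    (X := fun k (y : H8.Mix.X) => y (if k = j then [] else w))
    (fun _ => (measurable_pi_apply _).aemeasurable)).indepFun h
  simp only [if_neg h, if_true] at hi
  have m1 : ∀ (k : Fin m) (t : List Bool), Measurable (fun x : Fin m → H8.Mix.X => x k t) :=
    fun k t => (measurable_pi_apply t).comp (measurable_pi_apply k)
  have h2 := hi.map_prod_eq_prod_map_map (m1 i w).aemeasurable (m1 j []).aemeasurable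
  have h3 : ∀ (k : Fin m) (t : List Bool),
      (Measure.pi (fun _ : Fin m => nu)).map (fun x => x k t) = volume := fun k t =>
    ((measurePreserving_eval_infinitePi (fun _ : List Bool => (volume : Measure unitInterval))
      t).comp (measurePreserving_eval (fun _ : Fin m => nu) k)).map_eq
  rw [h3, h3] at h2
  have hd : MeasurableSet {q : unitInterval × unitInterval | q.2 = q.1} :=
    measurableSet_eq_fun measurable_snd measurable_fst
  have h4 := Measure.map_apply (μ := Measure.pi (fun _ : Fin m => nu)) ((m1 i w).prodMk (m1 j [])) hd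
  rw [h2, Measure.prod_apply hd] at h4
  have h5 : ∀ a : unitInterval,
      volume (Prod.mk a ⁻¹' {q : unitInterval × unitInterval | q.2 = q.1}) = 0 := fun a =>
    measure_singleton a
  simp only [h5, lintegral_zero] at h4
  exact h4.symm

/-- The negation of the preceding statement: Take a stationary α-mixing process on X with marginal P0 and an infinite class of measurable functions into [0,B] whose empirical means converge uniformly in probability under i.i.d. P0 samples. Then empirical means along the process also converge uniformly in probability. -/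
theorem result :
    ¬ (∀ (X : Type) [mX : MeasurableSpace X] (P : Measure (ℕ → X)) [IsProbabilityMeasure P]
    (P0 : Measure X) [IsProbabilityMeasure P0] (𝓕 : Set (X → ℝ)) (B : ℝ),
    P.map (fun (ω : ℕ → X) (n : ℕ) => ω (n + 1)) = P →
    P0 = P.map (fun (ω : ℕ → X) => ω 0) →
    (∀ ε : ℝ, 0 < ε → ∃ K : ℕ, ∀ k : ℕ, K ≤ k → ∀ l : ℕ, ∀ A S : Set (ℕ → X),
       @MeasurableSet (ℕ → X)
         (⨆ (i : ℕ) (_ : i ≤ l), MeasurableSpace.comap (fun ω : ℕ → X => ω i) mX) A →
       @MeasurableSet (ℕ → X)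
         (⨆ (i : ℕ) (_ : l + k ≤ i), MeasurableSpace.comap (fun ω : ℕ → X => ω i) mX) S →
       |P.real (A ∩ S) - P.real A * P.real S| ≤ ε) →
    𝓕.Infinite →
    (∀ f ∈ 𝓕, Measurable f ∧ ∀ x, 0 ≤ f x ∧ f x ≤ B) →
    (∀ ε : ℝ, 0 < ε →
      Tendsto (fun m : ℕ => Measure.pi (fun _ : Fin m => P0)
        {x : Fin m → X | ∃ f ∈ 𝓕,
          ε < |(1 / (m : ℝ)) * ∑ i : Fin m, f (x i) - ∫ y, f y ∂P0|}) atTop (𝓝 0)) →
    (∀ ε : ℝ, 0 < ε →
      Tendsto (fun m : ℕ => P
        {ω : ℕ → X | ∃ f ∈ 𝓕,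
          ε < |(1 / (m : ℝ)) * ∑ i ∈ Finset.range m, f (ω i) - ∫ y, f y ∂P0|}) atTop (𝓝 0))) := by
  intro H
  have hP : IsProbabilityMeasure (H8.Mix.mu.map H8.Mix.Z) :=
    Measure.isProbabilityMeasure_map H8.Mix.meas_Z.aemeasurable
  have msh : ∀ n : ℕ, Measurable (fun (ω : ℕ → H8.Mix.X) (i : ℕ) => ω (i + n)) := fun n => by
    fun_prop
  have key := H H8.Mix.X (H8.Mix.mu.map H8.Mix.Z) H8.Mix.nu Cls 1 ?_ ?_ ?_ ?_ ?_ ?_ (1 / 2)
    (by norm_num)
  · have h1 : ∀ᶠ m : ℕ in atTop, (H8.Mix.mu.map H8.Mix.Z)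
        {ω : ℕ → H8.Mix.X | ∃ f ∈ Cls, (1 / 2 : ℝ) <
          |(1 / (m : ℝ)) * ∑ i ∈ Finset.range m, f (ω i) - ∫ y, f y ∂H8.Mix.nu|} < 1 :=
      key.eventually (gt_mem_nhds zero_lt_one)
    obtain ⟨m, hm, hm1⟩ := (h1.and (eventually_ge_atTop 1)).exists
    refine absurd hm (not_lt.2 (le_trans ?_ (Measure.le_map_apply H8.Mix.meas_Z.aemeasurable _)))
    rw [Set.eq_univ_of_forall (s := H8.Mix.Z ⁻¹' _), measure_univ]
    intro p
    have hc : ((H8.Mix.Z p '' Set.Iio m).indicator 1 : H8.Mix.X → ℝ) ∈ Cls := by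
      refine ⟨_, (Set.finite_Iio m).image _, ?_, rfl⟩
      rintro _ ⟨i, -, rfl⟩ _ ⟨j, -, rfl⟩
      rcases le_total i j with h | h
      · exact Or.inl (H8.Mix.Z_rel' p h)
      · exact Or.inr (H8.Mix.Z_rel' p h)
    refine ⟨_, hc, ?_⟩
    rw [int_cls hc, Finset.sum_congr rfl (g := fun _ => (1 : ℝ))]
    · have : (m : ℝ) ≠ 0 := by positivity
      simp only [Finset.sum_const, Finset.card_range, nsmul_eq_mul, mul_one, sub_zero]
      rw [one_div_mul_cancel this]; norm_num
    · intro i hi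
      rw [Set.indicator_of_mem (Set.mem_image_of_mem _ (by simpa using hi))]; rfl
  · rw [Measure.map_map (msh 1) H8.Mix.meas_Z]
    conv_rhs => rw [← H8.Mix.mp_T.map_eq, Measure.map_map H8.Mix.meas_Z H8.Mix.meas_T]
    rfl
  · rw [Measure.map_map (measurable_pi_apply 0) H8.Mix.meas_Z]
    exact (measurePreserving_fst (μ := H8.Mix.nu) (ν := H8.Mix.pw)).map_eq.symm
  · intro ε hε
    obtain ⟨K, hK⟩ := exists_pow_lt_of_lt_one (show 0 < ε ^ 2 by positivity)
      (show (1 / 2 : ℝ) < 1 by norm_num)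
    refine ⟨K, fun k hk l A S hA hS => ?_⟩
    have hA' : MeasurableSet A :=
      (iSup₂_le fun i _ => (measurable_pi_apply i).comap_le : _ ≤ MeasurableSpace.pi) A hA
    have hS' : MeasurableSet S :=
      (iSup₂_le fun i _ => (measurable_pi_apply i).comap_le : _ ≤ MeasurableSpace.pi) S hS
    have hfut : (⨆ (i : ℕ) (_ : l + k ≤ i), MeasurableSpace.comap (fun ω : ℕ → H8.Mix.X => ω i)
        inferInstance) ≤ MeasurableSpace.comap
          (fun (ω : ℕ → H8.Mix.X) (i : ℕ) => ω (i + (l + k))) inferInstance := by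
      refine iSup₂_le fun i hi => ?_
      obtain ⟨d, rfl⟩ := Nat.exists_eq_add_of_le' hi
      rintro _ ⟨t, ht, rfl⟩
      exact ⟨(fun ω : ℕ → H8.Mix.X => ω d) ⁻¹' t, measurable_pi_apply d ht, rfl⟩
    obtain ⟨S0, hS0, rfl⟩ := hfut S hS
    have hdep : H8.Mix.Dep l (H8.Mix.Z ⁻¹' A) := by
      intro x ω ω' h
      let M : MeasurableSpace (ℕ → H8.Mix.X) :=
        { MeasurableSet' := fun B => (H8.Mix.Z (x, ω) ∈ B ↔ H8.Mix.Z (x, ω') ∈ B)
          measurableSet_empty := by simp
          measurableSet_compl := fun B hB => by simp [hB]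
          measurableSet_iUnion := fun B hB => by simp [hB] }
      have hle : (⨆ (i : ℕ) (_ : i ≤ l), MeasurableSpace.comap (fun ω : ℕ → H8.Mix.X => ω i)
          inferInstance) ≤ M := by
        refine iSup₂_le fun i hi => ?_
        rintro _ ⟨t, -, rfl⟩
        change H8.Mix.Z (x, ω) i ∈ t ↔ H8.Mix.Z (x, ω') i ∈ t
        rw [H8.Mix.Z_dep i x ω ω' (fun j hj => h j (by omega))]
      exact (hle A hA).1
    have hmix := H8.Mix.mixing (H8.Mix.meas_Z hS0) k l id (MeasurePreserving.id _) _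
      (H8.Mix.meas_Z hA') hdep
    have e1 : H8.Mix.Z ⁻¹' ((fun (ω : ℕ → H8.Mix.X) (i : ℕ) => ω (i + (l + k))) ⁻¹' S0) =
        H8.Mix.T^[l + k] ⁻¹' (H8.Mix.Z ⁻¹' S0) := by
      ext p
      have : (fun i => H8.Mix.Z p (i + (l + k))) = H8.Mix.Z (H8.Mix.T^[l + k] p) := by
        funext i; simp only [H8.Mix.Z, Function.iterate_add_apply _ i]
      simp only [Set.mem_preimage, this]
    rw [map_measureReal_apply H8.Mix.meas_Z (hA'.inter hS'),
      map_measureReal_apply H8.Mix.meas_Z hA', map_measureReal_apply H8.Mix.meas_Z hS',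
      Set.preimage_inter, e1]
    have e2 : H8.Mix.mu.real (H8.Mix.T^[l + k] ⁻¹' (H8.Mix.Z ⁻¹' S0)) =
        H8.Mix.mu.real (H8.Mix.Z ⁻¹' S0) := by
      simp only [Measure.real]
      rw [(H8.Mix.mp_T.iterate _).measure_preimage (H8.Mix.meas_Z hS0).nullMeasurableSet]
    rw [e2]
    refine hmix.trans ((H8.Mix.abs_int_gk (H8.Mix.meas_Z hS0) k hε).trans ?_)
    have h1 : (1 / 2 : ℝ) ^ k ≤ ε ^ 2 :=
      (pow_le_pow_of_le_one (by norm_num) (by norm_num) hk).trans hK.le
    have h2 : (1 / 2 : ℝ) ^ k / (2 * ε) ≤ ε / 2 := by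
      rw [div_le_iff₀ (by positivity)]; nlinarith
    linarith
  · have hinf : Infinite H8.Mix.X := by
      have : Infinite unitInterval := Set.Icc.infinite zero_lt_one
      exact Pi.infinite_of_right
    refine Set.infinite_of_injective_forall_mem
      (f := fun y : H8.Mix.X => (({y} : Set H8.Mix.X).indicator 1 : H8.Mix.X → ℝ)) ?_ ?_
    · intro y y' h
      have := congrFun h y
      by_contra hne
      simp [hne] at this
    · intro y
      refine ⟨{y}, Set.finite_singleton y, ?_, rfl⟩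
      rintro _ rfl _ rfl
      exact Or.inl ⟨[], rfl⟩
  · rintro _ ⟨S, hS, -, rfl⟩
    refine ⟨measurable_one.indicator hS.measurableSet, fun x => ?_⟩
    by_cases hx : x ∈ S <;> simp [hx]
  · intro ε hε
    obtain ⟨N, hN⟩ := exists_nat_gt (1 / ε)
    refine tendsto_const_nhds.congr' ?_
    filter_upwards [eventually_ge_atTop N] with m hm
    symm
    refine measure_mono_null (t := ⋃ i : Fin m, ⋃ j : Fin m, ⋃ (_ : i ≠ j), ⋃ w : List Bool,
      {x | x j [] = x i w}) ?_ ?_
    · rintro x ⟨f, hf, hx⟩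
      rw [int_cls hf, sub_zero] at hx
      obtain ⟨S, hS, hrel, rfl⟩ := hf
      by_contra hcon
      simp only [Set.mem_iUnion, not_exists, Set.mem_setOf_eq] at hcon
      have hsub : ∀ i j, x i ∈ S → x j ∈ S → i = j := fun i j hi hj => by
        by_contra hne
        rcases hrel _ hi _ hj with ⟨w, hw⟩ | ⟨w, hw⟩
        · exact hcon i j hne w hw
        · exact hcon j i (Ne.symm hne) w hw
      have hs : ∑ i : Fin m, (S.indicator 1 : H8.Mix.X → ℝ) (x i) ≤ 1 := by
        by_cases h : ∃ i, x i ∈ S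
        · obtain ⟨i, hi⟩ := h
          rw [Finset.sum_eq_single i]
          · simp [hi]
          · intro j _ hj
            exact Set.indicator_of_notMem (fun h => hj (hsub j i h hi)) _
          · simp
        · rw [Finset.sum_eq_zero]
          · norm_num
          · intro j _
            exact Set.indicator_of_notMem (fun h' => h ⟨j, h'⟩) _
      have hs0 : 0 ≤ ∑ i : Fin m, (S.indicator 1 : H8.Mix.X → ℝ) (x i) :=
        Finset.sum_nonneg fun i _ => Set.indicator_nonneg (fun _ _ => zero_le_one) _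
      have hm' : 1 / ε < m := hN.trans_le (by exact_mod_cast hm)
      have hm0 : (0 : ℝ) < m := lt_trans (by positivity) hm'
      rw [abs_of_nonneg (by positivity)] at hx
      have h1 : 1 / (m : ℝ) < ε := by
        rw [div_lt_iff₀ hm0]; rw [div_lt_iff₀ hε] at hm'; linarith
      have h2 : 1 / (m : ℝ) * ∑ i : Fin m, (S.indicator 1 : H8.Mix.X → ℝ) (x i) ≤ 1 / (m : ℝ) :=
        mul_le_of_le_one_right (by positivity) hs
      linarith
    · simp only [measure_iUnion_null_iff]
      intro i j h w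
      exact pair_null h w

end Pool.Agent.S19632
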