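import Pool.Statements.S19634
-- import your own Pool.Agent.* helpers here

set_option autoImplicit false
open MeasureTheory ProbabilityTheory Filter Topology
open Pool Pool.MP_c7fa75_pr

namespace Pool.Agent.S19634

open Set
open scoped ENNReal unitInterval

/-- position and visit counts -/
noncomputable def st (e : ℤ → ℕ → ℝ) (u : ℕ → I) : ℕ → ℤ × (ℤ → ℕ)
  | 0 => (0, fun _ => 0)
  | n + 1 =>
    (if (u n : ℝ) ≤ e (st e u n).1 ((st e u n).2 (st e u n).1) then (st e u n).1 + 1
      else (st e u n).1 - 1,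
     fun x => if (st e u n).1 = x then (st e u n).2 x + 1 else (st e u n).2 x)

/-- the excited walk -/
noncomputable def walk (e : ℤ → ℕ → ℝ) (u : ℕ → I) (n : ℕ) : ℤ := (st e u n).1

/-- visits before time `n` -/
def cnt (X : ℕ → ℤ) (n : ℕ) (x : ℤ) : ℕ := ((Finset.range n).filter fun m => X m = x).card

lemma st_cnt (e : ℤ → ℕ → ℝ) (u : ℕ → I) (n : ℕ) (x : ℤ) :
    (st e u n).2 x = cnt (walk e u) n x := by
  induction n with
  | zero => rfl
  | succ n ih =>
    simp only [st, cnt, Finset.range_add_one, Finset.filter_insert, walk] at ih ⊢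
    split_ifs
    · rw [Finset.card_insert_of_notMem (by simp), ih]
    · exact ih

lemma walk_succ (e : ℤ → ℕ → ℝ) (u : ℕ → I) (n : ℕ) : walk e u (n + 1) =
    if (u n : ℝ) ≤ e (walk e u n) (cnt (walk e u) n (walk e u n)) then walk e u n + 1
    else walk e u n - 1 := by
  rw [← st_cnt]; rfl

lemma walk_congr (e : ℤ → ℕ → ℝ) {u u' : ℕ → I} (n : ℕ) (h : ∀ m < n, u m = u' m) :
    walk e u n = walk e u' n := by
  suffices st e u n = st e u' n from congrArg Prod.fst this
  induction n with
  | zero => rfl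
  | succ n ih => simp only [st, ih fun m hm => h m (by omega), h n (by omega)]

lemma meas_eval {Θ : Type*} [MeasurableSpace Θ] {e : Θ → ℤ → ℕ → ℝ} {a : Θ → ℤ} {b : Θ → ℕ}
    (he : Measurable e) (ha : Measurable a) (hb : Measurable b) :
    Measurable fun θ => e θ (a θ) (b θ) := by
  have : Measurable fun z : (ℤ → ℕ → ℝ) × (ℤ × ℕ) => z.1 z.2.1 z.2.2 :=
    measurable_from_prod_countable_left fun c =>
      (measurable_pi_apply c.2).comp (measurable_pi_apply (X := fun _ : ℤ => ℕ → ℝ) c.1)
  exact this.comp (he.prodMk (ha.prodMk hb))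

lemma meas_cnt {Θ : Type*} [MeasurableSpace Θ] {X : Θ → ℕ → ℤ} (n : ℕ)
    (h : ∀ m ≤ n, Measurable fun θ => X θ m) : Measurable fun θ => cnt (X θ) n (X θ n) := by
  simp only [cnt, Finset.card_filter]
  exact Finset.measurable_sum _ fun m hm => Measurable.ite
    (measurableSet_eq_fun (h m (Finset.mem_range.1 hm).le) (h n le_rfl))
    measurable_const measurable_const

lemma meas_walk {Θ : Type*} [MeasurableSpace Θ] {e : Θ → ℤ → ℕ → ℝ} {u : Θ → ℕ → I}
    (he : Measurable e) (hu : Measurable u) : Measurable fun θ => walk (e θ) (u θ) := by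
  refine measurable_pi_lambda _ fun n => ?_
  induction n using Nat.strong_induction_on with
  | _ n ih =>
    cases n with
    | zero => exact measurable_const
    | succ n =>
      simp only [walk_succ]
      have h1 := ih n (by omega)
      exact Measurable.ite (measurableSet_le (by fun_prop) (meas_eval he h1
        (meas_cnt (X := fun θ => walk (e θ) (u θ)) n fun m hm => ih m (by omega))))
        (h1.add_const 1) (h1.sub_const 1)

open Classical in
/-- leftover environment -/
noncomputable def nxt (e : ℤ → ℕ → ℝ) (X : ℕ → ℤ) : ℤ → ℕ → ℝ :=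
  if Tendsto (fun m => |X m|) atTop atTop then fun x n => e x (n + Nat.card {m : ℕ // X m = x})
  else fun _ _ => 1 / 2

lemma meas_tr {Θ : Type*} [MeasurableSpace Θ] {X : Θ → ℕ → ℤ} (hX : Measurable X) :
    MeasurableSet {θ | Tendsto (fun m => |X θ m|) atTop atTop} :=
  measurableSet_tendsto _ fun m =>
    (Measurable.of_discrete (f := fun z : ℤ => |z|)).comp ((measurable_pi_apply m).comp hX)

lemma meas_nxt {Θ : Type*} [MeasurableSpace Θ] {e : Θ → ℤ → ℕ → ℝ} {X : Θ → ℕ → ℤ}
    (he : Measurable e) (hX : Measurable X) : Measurable fun θ => nxt (e θ) (X θ) := by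
  refine Measurable.ite (meas_tr hX) ?_ measurable_const
  refine measurable_pi_lambda _ fun x => measurable_pi_lambda _ fun n =>
    meas_eval he measurable_const (Measurable.const_add ?_ n)
  have : Measurable fun θ => {m : ℕ | X θ m = x} := measurable_set_iff.2 fun m =>
    (Measurable.of_discrete (f := fun z : ℤ => z = x)).comp ((measurable_pi_apply m).comp hX)
  exact measurable_ncard.comp this

/-- sample space -/
abbrev Th : Type := ℤ ⊕ ℕ × ℕ → I

/-- its law -/
noncomputable abbrev mu : Measure Th := Measure.infinitePi fun _ => volume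

lemma vol_le {c : ℝ} (h0 : 0 ≤ c) (h1 : c ≤ 1) :
    volume {u : I | (u : ℝ) ≤ c} = ENNReal.ofReal c :=
  unitInterval.volume_Iic ⟨c, h0, h1⟩

lemma resample (i : ℤ ⊕ ℕ × ℕ) :
    (mu.prod volume).map (fun z : Th × I => Function.update z.1 i z.2) = mu := by
  refine Measure.eq_infinitePi _ fun s t ht => ?_
  rw [Measure.map_apply (by fun_prop) (MeasurableSet.pi s.countable_toSet fun i _ => ht i)]
  have : (fun z : Th × I => Function.update z.1 i z.2) ⁻¹' (Set.pi s t) =
      (Set.pi (s.erase i) t) ×ˢ (if i ∈ s then t i else univ) := by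
    ext z
    simp only [mem_preimage, Set.mem_pi, Finset.mem_coe, mem_prod, Finset.mem_erase]
    constructor
    · intro h
      refine ⟨fun j hj => by simpa [hj.1] using h j hj.2, ?_⟩
      split_ifs with hi
      · simpa using h i hi
      · trivial
    · rintro ⟨h1, h2⟩ j hj
      by_cases hji : j = i
      · subst hji; rw [if_pos hj] at h2; simpa using h2
      · simpa [hji] using h1 j ⟨hji, hj⟩
  rw [this, Measure.prod_prod, Measure.infinitePi_pi _ fun i _ => ht i]
  split_ifs with hi
  · exact Finset.prod_erase_mul s (fun j => volume (t j)) hi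
  · simp [Finset.erase_eq_of_notMem hi]

section params

/-- level of a site -/
noncomputable def lev (u : I) : ℕ := ⌊(u : ℝ)⁻¹⌋₊

lemma meas_lev : Measurable lev := by unfold lev; fun_prop

lemma lev_lt (k : ℕ) : volume {u : I | k + 2 ≤ lev u}ᶜ < 1 := by
  have hk : (0 : ℝ) < 1 / (k + 2) := by positivity
  have h1 : (1 : ℝ) / (k + 2) ≤ 1 := by
    rw [div_le_one (by positivity)]; linarith [(Nat.cast_nonneg k : (0 : ℝ) ≤ k)]
  have : {u : I | k + 2 ≤ lev u}ᶜ ⊆ {0} ∪ {u : I | (u : ℝ) ≤ 1 / (k + 2)}ᶜ := by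
    intro u hu
    by_contra hc
    simp only [mem_union, mem_singleton_iff, mem_compl_iff, mem_ofPred_eq, not_or, not_not] at hc
    have h0 : (0 : ℝ) < u := unitInterval.pos_iff_ne_zero.2 hc.1
    refine hu (Nat.le_floor ?_)
    push_cast
    rw [le_inv_comm₀ (by positivity) h0, ← one_div]
    exact hc.2
  refine (measure_mono this).trans_lt ((measure_union_le _ _).trans_lt ?_)
  rw [measure_singleton, zero_add, prob_compl_eq_one_sub (measurableSet_le (by fun_prop)
    measurable_const), vol_le hk.le h1]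
  exact ENNReal.sub_lt_self (by simp) (by simp) (by simpa using hk)

lemma exists_pow {q : ℝ≥0∞} (hq : q < 1) (k : ℕ) : ∃ n : ℕ, 1 ≤ n ∧ q ^ n ≤ 8⁻¹ * 2⁻¹ ^ k :=
  (((eventually_ge_atTop 1).and ((ENNReal.tendsto_pow_atTop_nhds_zero_of_lt_one hq).eventually
    (ge_mem_nhds (ENNReal.mul_pos (by simp) (pow_ne_zero _ (by simp))))))).exists

/-- block lengths -/
noncomputable def b (k : ℕ) : ℕ := (exists_pow (lev_lt k) k).choose

/-- run lengths -/
noncomputable def t (k : ℕ) : ℕ := b k + b (k + 1)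

lemma run_lt (k : ℕ) : 1 - ENNReal.ofReal (1 / 4) ^ t k < 1 :=
  ENNReal.sub_lt_self (by simp) (by simp) (pow_ne_zero _ (by simp))

/-- numbers of attempts -/
noncomputable def r (k : ℕ) : ℕ := (exists_pow (run_lt k) k).choose

/-- block ends -/
noncomputable def a (k : ℕ) : ℕ := ∑ i ∈ Finset.range k, b i

/-- time windows -/
noncomputable def T (k : ℕ) : ℕ := ∑ i ∈ Finset.range k, r i * t i

lemma b_pos (k : ℕ) : 1 ≤ b k := (exists_pow (lev_lt k) k).choose_spec.1

lemma a_succ (k : ℕ) : a (k + 1) = a k + b k := Finset.sum_range_succ _ _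

lemma T_succ (k : ℕ) : T (k + 1) = T k + r k * t k := Finset.sum_range_succ _ _

lemma T_mono : StrictMono T := strictMono_nat_of_lt_succ fun k => by
  have h1 : 1 ≤ r k := (exists_pow (run_lt k) k).choose_spec.1
  have h2 := b_pos k
  have : 0 < r k * t k := Nat.mul_pos h1 (by unfold t; omega)
  rw [T_succ]; omega

lemma a_mono : StrictMono a := strictMono_nat_of_lt_succ fun k => by
  have := b_pos k; rw [a_succ]; omega

/-- barrier strength -/
noncomputable def M (u : I) : ℕ := if lev u ≤ 1 then 0 else T (lev u)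

/-- cookie stack of strength `m` -/
noncomputable def stk (m n : ℕ) : ℝ := if n < m then 1 else if n < 3 * m then 1 / 4 else 1 / 2

end params

/-- the environment -/
noncomputable def W (θ : Th) (x : ℤ) : ℕ → ℝ := stk (M (θ (.inl x)))

lemma meas_stk : Measurable fun u : I => stk (M u) :=
  (Measurable.of_discrete (f := fun l => stk (if l ≤ 1 then 0 else T l))).comp meas_lev

lemma meas_W : Measurable W :=
  measurable_pi_lambda _ fun _ => meas_stk.comp (measurable_pi_apply _)

/-- successive environments -/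
noncomputable def env : ℕ → Th → ℤ → ℕ → ℝ
  | 0 => W
  | j + 1 => fun θ => nxt (env j θ) (walk (env j θ) fun n => θ (.inr (j, n)))

/-- successive walkers -/
noncomputable def X (j : ℕ) (θ : Th) : ℕ → ℤ := walk (env j θ) fun n => θ (.inr (j, n))

lemma meas_env (j : ℕ) : Measurable (env j) := by
  induction j with
  | zero => exact meas_W
  | succ j ih => exact meas_nxt ih (meas_walk ih (by fun_prop))

lemma meas_X (j : ℕ) : Measurable (X j) := meas_walk (meas_env j) (by fun_prop)

lemma stk_mem (m n : ℕ) : 1 / 4 ≤ stk m n ∧ stk m n ≤ 1 := by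
  unfold stk; split_ifs <;> norm_num

lemma env_mem (j : ℕ) (θ : Th) (x : ℤ) (n : ℕ) : 0 ≤ env j θ x n ∧ env j θ x n ≤ 1 := by
  induction j generalizing n with
  | zero => exact ⟨by linarith [(stk_mem (M (θ (.inl x))) n).1, show env 0 θ x n = stk _ n from rfl],
      (stk_mem _ n).2⟩
  | succ j ih =>
    simp only [env, nxt]
    split_ifs
    · exact ih _
    · norm_num

lemma env_upd (j n : ℕ) (θ : Th) (v : I) :
    ∀ i ≤ j, env i (Function.update θ (.inr (j, n)) v) = env i θ := by
  intro i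
  induction i with
  | zero => intro _; funext x; simp [env, W]
  | succ i ih =>
    intro hi
    have : i ≠ j := by omega
    simp [env, ih (by omega), this]

lemma cond (j n : ℕ) :
    condExp (MeasurableSpace.comap
      (fun θ => (W θ, (fun i : Fin j => X (i : ℕ) θ), (fun m : Fin (n+1) => X j θ (m : ℕ))))
        inferInstance) mu (Set.indicator {θ | X j θ (n+1) = X j θ n + 1} (fun _ => (1:ℝ)))
      =ᵐ[mu] fun θ => env j θ (X j θ n) (cnt (X j θ) n (X j θ n)) := by
  set Φ := fun θ => (W θ, (fun i : Fin j => X (i : ℕ) θ), (fun m : Fin (n+1) => X j θ (m : ℕ)))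
    with hΦ
  set p := fun θ => env j θ (X j θ n) (cnt (X j θ) n (X j θ n)) with hp
  have hΦm : Measurable Φ := meas_W.prodMk ((measurable_pi_lambda _ fun i : Fin j => meas_X i).prodMk
    (measurable_pi_lambda _ fun m : Fin (n + 1) => (measurable_pi_apply (m : ℕ)).comp (meas_X j)))
  have hle := hΦm.comap_le
  have hpG : Measurable[MeasurableSpace.comap Φ inferInstance] p := by
    let _ : MeasurableSpace Th := MeasurableSpace.comap Φ inferInstance
    have h0 : Measurable Φ := comap_measurable Φ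
    have h1 : ∀ i ≤ j, Measurable (env i) := by
      intro i
      induction i with
      | zero => exact fun _ => h0.fst
      | succ i ih =>
        exact fun hi => meas_nxt (ih (by omega)) ((measurable_pi_apply (⟨i, hi⟩ : Fin j)).comp
          h0.snd.fst)
    have h2 : ∀ m ≤ n, Measurable fun θ => X j θ m := fun m hm =>
      (measurable_pi_apply (⟨m, by omega⟩ : Fin (n + 1))).comp h0.snd.snd
    exact meas_eval (h1 j le_rfl) (h2 n le_rfl) (meas_cnt n h2)
  have hpm : Measurable p := hpG.mono hle le_rfl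
  have hE : {θ | X j θ (n+1) = X j θ n + 1} = {θ | (θ (.inr (j, n)) : ℝ) ≤ p θ} := by
    ext θ
    simp only [mem_ofPred_eq, hp, X]
    rw [walk_succ]
    split_ifs with h
    · simp [h]
    · simp only [h, iff_false]; omega
  have hEm : MeasurableSet {θ : Th | (θ (.inr (j, n)) : ℝ) ≤ p θ} :=
    measurableSet_le (by fun_prop) hpm
  have hX : ∀ θ v, ∀ m ≤ n, X j (Function.update θ (.inr (j, n)) v) m = X j θ m := by
    intro θ v m hm
    simp only [X, env_upd j n θ v j le_rfl]
    exact walk_congr _ _ fun l hl => Function.update_of_ne (by simp; omega) _ _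
  have hinv : ∀ θ v, Φ (Function.update θ (.inr (j, n)) v) = Φ θ := by
    intro θ v
    refine Prod.ext (env_upd j n θ v 0 (by omega)) (Prod.ext (funext fun i => ?_)
      (funext fun m => hX θ v m (by omega)))
    have : (i : ℕ) ≠ j := by omega
    simp [hΦ, X, env_upd j n θ v i (by omega), this]
  have hpi : ∀ θ v, p (Function.update θ (.inr (j, n)) v) = p θ := by
    intro θ v
    simp only [hp, env_upd j n θ v j le_rfl, hX θ v n le_rfl, cnt]
    rw [Finset.filter_congr fun m hm => by rw [hX θ v m (Finset.mem_range.1 hm).le]]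
  have hint : Integrable p mu := (integrable_const (1 : ℝ)).mono' hpm.aestronglyMeasurable
    (.of_forall fun θ => by
      rw [Real.norm_of_nonneg (env_mem _ _ _ _).1]; exact (env_mem _ _ _ _).2)
  rw [hE]
  refine (ae_eq_condExp_of_forall_setIntegral_eq hle ((integrable_const 1).indicator hEm)
    (fun s _ _ => hint.integrableOn) ?_ hpG.aestronglyMeasurable).symm
  rintro _ ⟨B, hB, rfl⟩ -
  have hA := hΦm hB
  rw [setIntegral_indicator hEm, setIntegral_const, smul_eq_mul, mul_one,
    integral_eq_lintegral_of_nonneg_ae (.of_forall fun θ => (env_mem _ _ _ _).1)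
      hpm.aestronglyMeasurable, Measure.real]
  congr 1
  conv_rhs => rw [← resample (.inr (j, n)), Measure.map_apply (by fun_prop) (hA.inter hEm),
    Measure.prod_apply ((hA.inter hEm).preimage (by fun_prop))]
  rw [← lintegral_indicator hA]
  refine lintegral_congr fun θ => ?_
  by_cases hθ : θ ∈ Φ ⁻¹' B
  · rw [indicator_of_mem hθ, ← vol_le (env_mem _ _ _ _).1 (env_mem _ _ _ _).2]
    congr 1
    ext v
    simp only [mem_ofPred_eq, mem_preimage, mem_inter_iff, hinv, hpi, Function.update_self]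
    exact ⟨fun h => ⟨hθ, h⟩, fun h => h.2⟩
  · rw [indicator_of_notMem hθ]
    refine (measure_mono_null (fun v hv => ?_) measure_empty).symm
    simp only [mem_preimage, mem_inter_iff, hinv] at hv
    exact hθ hv.1

lemma barrier (θ : Th) (y : ℤ) (s n : ℕ) (hs : y ≤ X 0 θ s) (hsn : s ≤ n)
    (hn : n ≤ M (θ (.inl y))) : y ≤ X 0 θ n := by
  induction n, hsn using Nat.le_induction with
  | base => exact hs
  | succ n hsn ih =>
    have h1 := ih (by omega)
    simp only [X] at h1 ⊢
    rw [walk_succ]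
    split_ifs with h
    · omega
    · rcases h1.lt_or_eq with h2 | h2
      · omega
      · refine absurd ?_ h
        rw [← h2]
        have : cnt (walk (env 0 θ) fun n => θ (.inr (0, n))) n y ≤ n :=
          (Finset.card_filter_le _ _).trans (by simp)
        show _ ≤ stk _ _
        rw [stk, if_pos (by omega)]
        exact unitInterval.le_one _

lemma run (θ : Th) (s n : ℕ) (h : ∀ i < n, (θ (.inr (0, s + i)) : ℝ) ≤ 1 / 4) :
    X 0 θ (s + n) = X 0 θ s + n := by
  induction n with
  | zero => simp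
  | succ n ih =>
    have h1 := ih fun i hi => h i (by omega)
    simp only [X] at h1 ⊢
    rw [← add_assoc, walk_succ, if_pos, h1]
    · push_cast; ring
    · exact (h n (by omega)).trans (stk_mem _ _).1

/-- no barrier in block `k` -/
def Bad1 (k : ℕ) : Set Th :=
  Set.pi ((Finset.range (b k)).image fun i : ℕ => (.inl (a k + i - b 0) : ℤ ⊕ ℕ × ℕ))
    fun _ => {u : I | k + 2 ≤ lev u}ᶜ

/-- no run in window `k` -/
def Bad2 (k : ℕ) : Set Th :=
  {θ | ∀ q < r k, ∃ i < t k, ¬ (θ (.inr (0, T k + q * t k + i)) : ℝ) ≤ 1 / 4}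

lemma good (θ : Th) (h1 : ∀ k, θ ∉ Bad1 k) (h2 : ∀ k, θ ∉ Bad2 k) :
    Tendsto (fun m => |X 0 θ m|) atTop atTop := by
  have h3 : ∀ k, ∃ y : ℤ, a k - b 0 ≤ y ∧ y < a (k + 1) - b 0 ∧ T (k + 1) ≤ M (θ (.inl y)) := by
    intro k
    have := h1 k
    simp only [Bad1, Set.mem_pi, Finset.coe_image, Finset.coe_range, forall_mem_image, mem_Iio,
      not_forall, mem_compl_iff, not_not, mem_ofPred_eq] at this
    obtain ⟨i, hi, hl⟩ := this
    refine ⟨_, by omega, by rw [a_succ]; push_cast; omega, (?_ : _ ≤ M (θ (.inl (a k + i - b 0))))⟩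
    rw [M, if_neg (by omega)]
    exact T_mono.monotone (by omega)
  choose y hy1 hy2 hy3 using h3
  have h4 : ∀ k, ∃ s ≤ T k, y k ≤ X 0 θ s := by
    intro k
    induction k with
    | zero => exact ⟨0, by omega, by have := hy2 0; simp [a] at this; exact this.le⟩
    | succ k ih =>
      obtain ⟨s, hs, hX⟩ := ih
      have := h2 k
      simp only [Bad2, mem_ofPred_eq, not_forall, not_exists, not_and, not_not] at this
      obtain ⟨q, hq, hr⟩ := this
      have h5 : q * t k + t k ≤ r k * t k := by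
        rw [← Nat.succ_mul]; exact Nat.mul_le_mul_right _ hq
      have h6 := barrier θ (y k) s (T k + q * t k) hX (by omega)
        (by have := hy3 k; rw [T_succ] at this; omega)
      refine ⟨T k + q * t k + t k, by rw [T_succ]; omega, ?_⟩
      rw [run θ _ _ hr]
      have := hy1 k
      have := hy2 (k + 1)
      rw [a_succ, a_succ] at this
      have ht : t k = b k + b (k + 1) := rfl
      omega
  refine tendsto_atTop.2 fun c => ?_
  filter_upwards [eventually_ge_atTop (T (c + b 0).toNat)] with n hn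
  have hex : ∃ k, n ≤ T (k + 1) := ⟨n, (Nat.le_succ n).trans (T_mono.id_le _)⟩
  obtain ⟨k, hk1, hk2, hk3⟩ : ∃ k, (c + b 0).toNat ≤ k ∧ T k ≤ n ∧ n ≤ T (k + 1) := by
    by_cases h : (c + b 0).toNat ≤ Nat.find hex
    · refine ⟨_, h, ?_, Nat.find_spec hex⟩
      rcases h0 : Nat.find hex with _ | l
      · simp [T]
      · exact (not_le.1 (Nat.find_min hex (m := l) (by omega))).le
    · exact ⟨_, le_rfl, hn, (Nat.find_spec hex).trans (T_mono.monotone (by omega))⟩
  obtain ⟨s, hs, hX⟩ := h4 k
  have h5 := barrier θ (y k) s n hX (by omega) (hk3.trans (hy3 k))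
  have h6 := hy1 k
  have h7 : k ≤ a k := a_mono.id_le k
  exact le_trans (by omega) (le_abs_self _)

lemma bad1 (k : ℕ) : mu (Bad1 k) ≤ 8⁻¹ * 2⁻¹ ^ k := by
  rw [Bad1, Measure.infinitePi_pi _ fun _ _ => (measurableSet_le measurable_const meas_lev).compl,
    Finset.prod_const, Finset.card_image_of_injective _ fun i j h => by simpa using h,
    Finset.card_range]
  exact (exists_pow (lev_lt k) k).choose_spec.2

lemma bad2 (k : ℕ) : mu (Bad2 k) ≤ 8⁻¹ * 2⁻¹ ^ k := by
  have hinj : Function.Injective fun z : ℕ × Fin (t k) =>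
      (.inr (0, T k + z.1 * t k + z.2) : ℤ ⊕ ℕ × ℕ) := by
    rintro ⟨q, i⟩ ⟨q', i'⟩ h
    simp only [Sum.inr.injEq, Prod.mk.injEq, true_and, add_assoc, add_right_inj] at h
    have h1 := congrArg (· / t k) h
    have h0 : 0 < t k := Fin.pos i
    simp only [mul_comm _ (t k), Nat.mul_add_div h0, Nat.div_eq_of_lt i.2, Nat.div_eq_of_lt i'.2,
      add_zero] at h1
    subst h1
    exact Prod.ext rfl (Fin.ext (by simpa using h))
  have h1 := Measure.map_infinitePi_infinitePi_of_inj (P := fun _ : ℤ ⊕ ℕ × ℕ => (volume : Measure I))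
    hinj
  have h2 := Measure.infinitePi_map_curry (fun (_ : ℕ) (_ : Fin (t k)) => (volume : Measure I))
  have hA : MeasurableSet {u : I | (u : ℝ) ≤ 1 / 4} := measurableSet_le (by fun_prop) measurable_const
  have hC : MeasurableSet (Set.pi ((Finset.univ : Finset (Fin (t k))) : Set (Fin (t k)))
      fun _ => {u : I | (u : ℝ) ≤ 1 / 4}) :=
    MeasurableSet.pi (Finset.countable_toSet _) fun _ _ => hA
  have h3 := Measure.infinitePi_pi (fun _ : ℕ => Measure.infinitePi fun _ : Fin (t k) =>
    (volume : Measure I)) (s := Finset.range (r k))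
    (t := fun _ => (Set.pi ((Finset.univ : Finset (Fin (t k))) : Set (Fin (t k)))
      fun _ => {u : I | (u : ℝ) ≤ 1 / 4})ᶜ) fun _ _ => hC.compl
  rw [prob_compl_eq_one_sub hC, Measure.infinitePi_pi _ fun _ _ => hA, vol_le (by norm_num)
    (by norm_num), Finset.prod_const, Finset.prod_const, Finset.card_range, Finset.card_univ,
    Fintype.card_fin, ← h2, ← h1, Measure.map_map (by fun_prop) (by fun_prop),
    Measure.map_apply (by fun_prop) (MeasurableSet.pi (Finset.countable_toSet _)
      fun _ _ => hC.compl)] at h3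
  refine le_trans (measure_mono ?_) (h3.le.trans (exists_pow (run_lt k) k).choose_spec.2)
  intro θ hθ q hq hc
  obtain ⟨i, hi, h⟩ := hθ q (by simpa using hq)
  exact h (hc ⟨i, hi⟩ (by simp))

lemma trans_pos : mu {θ | Tendsto (fun m => |X 0 θ m|) atTop atTop} ≠ 0 := by
  intro h0
  have h1 : mu univ ≤ mu {θ | Tendsto (fun m => |X 0 θ m|) atTop atTop} +
      (mu (⋃ k, Bad1 k) + mu (⋃ k, Bad2 k)) := by
    refine le_trans (measure_mono fun θ _ => ?_) ((measure_union_le _ _).trans
      (add_le_add le_rfl (measure_union_le _ _)))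
    by_contra hc
    simp only [mem_union, mem_iUnion, not_or, not_exists] at hc
    exact hc.1 (good θ hc.2.1 hc.2.2)
  have h2 : ∑' k : ℕ, (8⁻¹ * 2⁻¹ ^ k : ℝ≥0∞) = 8⁻¹ * 2 := by
    rw [ENNReal.tsum_mul_left, ENNReal.tsum_geometric_two]
  have h3 := (measure_iUnion_le _).trans ((ENNReal.tsum_le_tsum bad1).trans h2.le)
  have h4 := (measure_iUnion_le _).trans ((ENNReal.tsum_le_tsum bad2).trans h2.le)
  rw [h0, zero_add, measure_univ] at h1
  have h5 := ENNReal.toReal_mono (by finiteness) (h1.trans (add_le_add h3 h4))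
  rw [ENNReal.toReal_add (by finiteness) (by finiteness)] at h5
  norm_num at h5

lemma sum_zero (m : ℕ) : Tendsto (fun N : ℕ =>
    (((∑ i ∈ Finset.range N, (2 * stk m i - 1) : ℝ)) : EReal)) atTop (𝓝 0) := by
  have h1 : ∀ N, ∑ i ∈ Finset.range N, (2 * stk m i - 1) =
      (min N m : ℕ) - ((min N (3 * m) : ℕ) - (min N m : ℕ) : ℝ) / 2 := by
    intro N
    induction N with
    | zero => simp
    | succ N ih =>
      rw [Finset.sum_range_succ, ih, stk]
      split_ifs with h h'
      · rw [min_eq_left (by omega), min_eq_left (by omega), min_eq_left (by omega),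
          min_eq_left (by omega)]; push_cast; ring
      · rw [min_eq_right (by omega), min_eq_left (by omega), min_eq_right (by omega),
          min_eq_left (by omega)]; push_cast; ring
      · rw [min_eq_right (by omega), min_eq_right (by omega), min_eq_right (by omega),
          min_eq_right (by omega)]; push_cast; ring
  refine tendsto_const_nhds.congr' ?_
  filter_upwards [eventually_ge_atTop (3 * m)] with N hN
  rw [h1, min_eq_right (by omega), min_eq_right hN]
  have : ((m : ℕ) : ℝ) - (((3 * m : ℕ) : ℝ) - (m : ℕ)) / 2 = 0 := by push_cast; ring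
  rw [this]; rfl


/-- The negation of the preceding statement: For i.i.d. cookie stacks with (WEL) and well-defined drift delta in [0,∞], the k-th walker on the leftover environment (annealed) is a.s. transient when k<delta and transient with probability zero when k≥delta. -/
theorem result :
    ¬ (∀ (P : Measure (ℤ → ℕ → ℝ)), IsProbabilityMeasure P →
    (∀ᵐ ω ∂P, ∀ (x : ℤ) (n : ℕ), ω x n ∈ Set.Icc (0:ℝ) 1) →
    iIndepFun (fun (x : ℤ) (ω : ℤ → ℕ → ℝ) => ω x) P →
    (∀ x : ℤ, IdentDistrib (fun ω : ℤ → ℕ → ℝ => ω x) (fun ω => ω 0) P P) →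
    (∀ x : ℤ, 0 < P {ω | ∀ n, 0 < ω x n} ∧ 0 < P {ω | ∀ n, ω x n < 1}) →
    (∀ᵐ ω ∂P, ∃ s : EReal, Tendsto
        (fun N : ℕ => (((∑ i ∈ Finset.range N, (2 * ω 0 i - 1) : ℝ)) : EReal)) atTop (𝓝 s)) →
    (∫⁻ ω, (-(limsup (fun N : ℕ =>
        (((∑ i ∈ Finset.range N, (2 * ω 0 i - 1) : ℝ)) : EReal)) atTop)).toENNReal ∂P) < ⊤ →
    (0 : EReal) ≤
      ((∫⁻ ω, (limsup (fun N : ℕ =>
          (((∑ i ∈ Finset.range N, (2 * ω 0 i - 1) : ℝ)) : EReal)) atTop).toENNReal ∂P) : EReal)
      - ((∫⁻ ω, (-(limsup (fun N : ℕ =>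
          (((∑ i ∈ Finset.range N, (2 * ω 0 i - 1) : ℝ)) : EReal)) atTop)).toENNReal ∂P) : EReal) →
    ∀ (Θ : Type) [MeasurableSpace Θ] (μ : Measure Θ), IsProbabilityMeasure μ →
    ∀ (W : Θ → ℤ → ℕ → ℝ) (X : ℕ → Θ → ℕ → ℤ) (env : ℕ → Θ → ℤ → ℕ → ℝ),
    Measurable W → μ.map W = P → (∀ j, Measurable (X j)) →
    env 0 = W →
    (∀ (j : ℕ) (θ : Θ) (x : ℤ) (n : ℕ),
        Tendsto (fun m => |X j θ m|) atTop atTop →
          env (j+1) θ x n = env j θ x (n + Nat.card {m : ℕ // X j θ m = x})) →
    (∀ (j : ℕ) (θ : Θ) (x : ℤ) (n : ℕ),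
        ¬ Tendsto (fun m => |X j θ m|) atTop atTop → env (j+1) θ x n = 1/2) →
    (∀ (j : ℕ) (θ : Θ), X j θ 0 = 0) →
    (∀ (j : ℕ) (θ : Θ) (n : ℕ), X j θ (n+1) = X j θ n + 1 ∨ X j θ (n+1) = X j θ n - 1) →
    (∀ (j n : ℕ),
        condExp
          (MeasurableSpace.comap
            (fun θ => (W θ, (fun i : Fin j => X (i : ℕ) θ), (fun m : Fin (n+1) => X j θ (m : ℕ))))
            inferInstance)
          μ
          (Set.indicator {θ | X j θ (n+1) = X j θ n + 1} (fun _ => (1:ℝ)))
        =ᵐ[μ] fun θ => env j θ (X j θ n) ((Finset.range n).filter (fun m => X j θ m = X j θ n)).card) →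
    ∀ k : ℕ, 1 ≤ k →
      (((k : EReal) <
          ((∫⁻ ω, (limsup (fun N : ℕ =>
              (((∑ i ∈ Finset.range N, (2 * ω 0 i - 1) : ℝ)) : EReal)) atTop).toENNReal ∂P) : EReal)
          - ((∫⁻ ω, (-(limsup (fun N : ℕ =>
              (((∑ i ∈ Finset.range N, (2 * ω 0 i - 1) : ℝ)) : EReal)) atTop)).toENNReal ∂P) : EReal))
        → ∀ᵐ θ ∂μ, Tendsto (fun n => |X (k-1) θ n|) atTop atTop) ∧
      ((((∫⁻ ω, (limsup (fun N : ℕ =>
              (((∑ i ∈ Finset.range N, (2 * ω 0 i - 1) : ℝ)) : EReal)) atTop).toENNReal ∂P) : EReal)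
          - ((∫⁻ ω, (-(limsup (fun N : ℕ =>
              (((∑ i ∈ Finset.range N, (2 * ω 0 i - 1) : ℝ)) : EReal)) atTop)).toENNReal ∂P) : EReal)
          ≤ (k : EReal))
        → μ {θ | Tendsto (fun n => |X (k-1) θ n|) atTop atTop} = 0)) := by
  intro h
  have hP : mu.map W = Measure.infinitePi fun _ : ℤ => volume.map fun u : I => stk (M u) := by
    have hm : Measurable fun (x : ℤ → I) (i : ℤ) => stk (M (x i)) :=
      measurable_pi_lambda _ fun i => meas_stk.comp (measurable_pi_apply i)
    rw [← Measure.infinitePi_map_pi _ fun _ => meas_stk,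
      ← Measure.map_infinitePi_infinitePi_of_inj (P := fun _ : ℤ ⊕ ℕ × ℕ => (volume : Measure I))
        Sum.inl_injective, Measure.map_map hm (by fun_prop)]
    rfl
  have : IsProbabilityMeasure (volume.map fun u : I => stk (M u)) :=
    Measure.isProbabilityMeasure_map meas_stk.aemeasurable
  have hae : ∀ᵐ ω ∂mu.map W, ∀ x, ∃ m, ω x = stk m := by
    refine (ae_map_iff meas_W.aemeasurable ?_).2 (.of_forall fun θ x => ⟨_, rfl⟩)
    simp only [Set.ofPred_forall, Set.ofPred_exists]
    exact MeasurableSet.iInter fun x => MeasurableSet.iUnion fun m =>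
      measurableSet_eq_fun (measurable_pi_apply x) measurable_const
  have hls : ∀ᵐ ω ∂mu.map W, limsup (fun N : ℕ =>
      (((∑ i ∈ Finset.range N, (2 * ω 0 i - 1) : ℝ)) : EReal)) atTop = 0 :=
    hae.mono fun ω hω => by obtain ⟨m, hm⟩ := hω 0; rw [hm]; exact (sum_zero m).limsup_eq
  have e1 : ∫⁻ ω, (limsup (fun N : ℕ => (((∑ i ∈ Finset.range N, (2 * ω 0 i - 1) : ℝ)) : EReal))
      atTop).toENNReal ∂mu.map W = 0 :=
    (lintegral_congr_ae (hls.mono fun ω hω => by simp only [hω]; simp)).trans lintegral_zero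
  have e2 : ∫⁻ ω, (-(limsup (fun N : ℕ => (((∑ i ∈ Finset.range N, (2 * ω 0 i - 1) : ℝ)) : EReal))
      atTop)).toENNReal ∂mu.map W = 0 :=
    (lintegral_congr_ae (hls.mono fun ω hω => by simp only [hω]; simp)).trans lintegral_zero
  refine trans_pos ((h (mu.map W) (Measure.isProbabilityMeasure_map meas_W.aemeasurable)
    (hae.mono fun ω hω x n => ?_) ?_ (fun x => ?_) (fun x => ⟨?_, ?_⟩)
    (hae.mono fun ω hω => ?_) (by rw [e2]; simp) (by rw [e1, e2]; simp) Th mu inferInstance W X env
    meas_W rfl meas_X rfl (fun j θ x n ht => ?_) (fun j θ x n ht => ?_) (fun _ _ => rfl)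
    (fun j θ n => ?_) cond 1 le_rfl).2 (by rw [e1, e2]; simp))
  · obtain ⟨m, hm⟩ := hω x
    rw [hm]
    exact ⟨by linarith [(stk_mem m n).1], (stk_mem m n).2⟩
  · rw [hP]
    exact iIndepFun_infinitePi (X := fun _ ω => ω) (by fun_prop)
  · refine ⟨(measurable_pi_apply x).aemeasurable, (measurable_pi_apply 0).aemeasurable, ?_⟩
    rw [hP, Measure.infinitePi_map_eval, Measure.infinitePi_map_eval]
  · refine lt_of_lt_of_le ?_ (Measure.le_map_apply meas_W.aemeasurable _)
    rw [show W ⁻¹' {ω | ∀ n, 0 < ω x n} = univ from eq_univ_of_forall fun θ n =>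
      lt_of_lt_of_le (by norm_num) (stk_mem _ n).1]
    simp
  · refine lt_of_lt_of_le ?_ (Measure.le_map_apply meas_W.aemeasurable _)
    have hA : MeasurableSet {u : I | (u : ℝ) ≤ 1 / 2} :=
      measurableSet_le (by fun_prop) measurable_const
    refine lt_of_lt_of_le ?_ (measure_mono (s := (fun θ : Th => θ (.inl x)) ⁻¹'
      {u : I | (u : ℝ) ≤ 1 / 2}ᶜ) fun θ hθ n => ?_)
    · rw [(measurePreserving_eval_infinitePi _ (Sum.inl x)).measure_preimage
        hA.compl.nullMeasurableSet, prob_compl_eq_one_sub hA, vol_le (by norm_num) (by norm_num),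
        tsub_pos_iff_lt]
      exact ENNReal.ofReal_lt_one.2 (by norm_num)
    · have h1 : (1 : ℝ) / 2 < θ (.inl x) := not_le.1 hθ
      have h2 : lev (θ (.inl x)) ≤ 1 := Nat.lt_succ_iff.1 ((Nat.floor_lt' (by norm_num)).2 (by
        rw [inv_lt_comm₀ (by linarith) (by norm_num)]; norm_num; linarith))
      simp only [W, M, h2, if_true, stk]
      norm_num
  · obtain ⟨m, hm⟩ := hω 0
    rw [hm]
    exact ⟨0, sum_zero m⟩
  · show nxt (env j θ) (X j θ) x n = _
    unfold nxt
    rw [if_pos ht]
  · show nxt (env j θ) (X j θ) x n = _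
    unfold nxt
    rw [if_neg ht]
  · simp only [X]
    rw [walk_succ]
    split_ifs <;> simp

end Pool.Agent.S19634
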