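import Pool.Statements.S19731
-- import your own Pool.Agent.* helpers here

set_option autoImplicit false
open Pool Pool.MP_f07634_pr

namespace Pool.Agent.S19731

open Finset

variable {n : ℕ}

/-- binary words on the ring -/
abbrev Wd (n : ℕ) : Type := Fin (n + 1) → Bool

/-- number of particles -/
def cnt (x : Wd n) : ℕ := ∑ t, (x t).toNat

/-- sorting at a bond -/
def srt (p : Fin (n + 1)) (x : Wd n) : Wd n :=
  if x p = false ∧ x (p + 1) = true then x ∘ Equiv.swap p (p + 1) else x

lemma cnt_comp (x : Wd n) (e : Equiv.Perm (Fin (n + 1))) : cnt (x ∘ e) = cnt x :=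
  Equiv.sum_comp e fun t => (x t).toNat

lemma cnt_srt (p : Fin (n + 1)) (x : Wd n) : cnt (srt p x) = cnt x := by
  unfold srt; split_ifs
  · exact cnt_comp _ _
  · rfl

lemma srt_of_ne (p : Fin (n + 1)) (x : Wd n) {t : Fin (n + 1)} (h1 : t ≠ p) (h2 : t ≠ p + 1) :
    srt p x t = x t := by
  unfold srt; split_ifs
  · simp [Equiv.swap_apply_of_ne_of_ne h1 h2]
  · rfl

lemma srt_fst (p : Fin (n + 1)) (x : Wd n) : srt p x p = (x p || x (p + 1)) := by
  unfold srt; split_ifs with h
  · simp [h.1]
  · cases h1 : x p <;> cases h2 : x (p + 1) <;> simp_all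

lemma srt_snd (p : Fin (n + 1)) (x : Wd n) : srt p x (p + 1) = (x p && x (p + 1)) := by
  unfold srt; split_ifs with h
  · simp [h.1]
  · cases h1 : x p <;> cases h2 : x (p + 1) <;> simp_all

/-- cyclic queue recursion -/
def Sol (a s : Wd n) (q : Fin (n + 1) → ℕ) : Prop :=
  ∀ t, q t = q (t - 1) + (a t).toNat - (s t).toNat

lemma sum_shift (q : Fin (n + 1) → ℕ) : ∑ t, q (t - 1) = ∑ t, q t :=
  Equiv.sum_comp (Equiv.subRight (1 : Fin (n + 1))) q

lemma exists_sol {a s : Wd n} (h : cnt a ≤ cnt s) : ∃ q, Sol a s q := by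
  have hne : ∃ m, ∃ q : Fin (n + 1) → ℕ,
      (∀ t, q (t - 1) + (a t).toNat ≤ q t + (s t).toNat) ∧ ∑ t, q t = m := by
    refine ⟨_, fun t => ∑ i ∈ Iic t, (a i).toNat + ∑ i ∈ Ioi t, (s i).toNat, fun t => ?_, rfl⟩
    rcases Fin.eq_zero_or_eq_succ t with rfl | ⟨t, rfl⟩
    · have h1 : (0 : Fin (n + 1)) - 1 = Fin.last n := by simp [Fin.ext_iff, Fin.coe_neg_one]
      have h2 : Iic (Fin.last n) = univ := by ext; simp [Fin.le_last]
      have h3 : Ioi (Fin.last n) = ∅ := by ext; simp [Fin.le_last]
      have h4 : Iic (0 : Fin (n + 1)) = {0} := by ext; simp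
      have h5 : cnt s = (s 0).toNat + ∑ i ∈ Ioi 0, (s i).toNat := by
        rw [cnt, ← sum_insert (f := fun i => (s i).toNat) (by simp)]
        refine sum_congr ?_ fun _ _ => rfl
        ext i; simp [Fin.pos_iff_ne_zero, em]
      simp only [h1, h2, h3, h4, sum_empty, sum_singleton]
      unfold cnt at h h5
      omega
    · have h1 : t.succ - 1 = t.castSucc := by rw [sub_eq_iff_eq_add]; simp
      have h2 : Iic t.succ = insert t.succ (Iic t.castSucc) := by
        ext i; simp only [mem_Iic, mem_insert, Fin.le_def, Fin.ext_iff, Fin.val_succ,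
          Fin.val_castSucc]; omega
      have h3 : Ioi t.castSucc = insert t.succ (Ioi t.succ) := by
        ext i; simp only [mem_Ioi, mem_insert, Fin.lt_def, Fin.ext_iff, Fin.val_succ,
          Fin.val_castSucc]; omega
      simp only [h1]
      rw [h2, h3, sum_insert (by simp [Fin.castSucc_lt_succ]), sum_insert (by simp)]
      omega
  classical
  obtain ⟨q, hq, hm⟩ := Nat.find_spec hne
  refine ⟨q, fun t => ?_⟩
  by_contra hc
  have h1 := hq t
  refine Nat.find_min hne (m := ∑ i, Function.update q t (q t - 1) i) ?_ ⟨_, fun u => ?_, rfl⟩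
  · rw [← hm]
    refine sum_lt_sum (fun i _ => ?_) ⟨t, mem_univ _, by simp; omega⟩
    by_cases hi : i = t
    · subst hi; simp
    · simp [hi]
  · have h2 : Function.update q t (q t - 1) (u - 1) ≤ q (u - 1) := by
      by_cases hi : u - 1 = t
      · rw [hi]; simp
      · simp [hi]
    by_cases hu : u = t
    · subst hu; rw [Function.update_self]; omega
    · rw [Function.update_of_ne hu]; have := hq u; omega

lemma unused {a s : Wd n} {q : Fin (n + 1) → ℕ} (hq : Sol a s q) (h : cnt a < cnt s) :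
    ∃ u, s u = true ∧ q (u - 1) + (a u).toNat = 0 := by
  by_contra hc
  push Not at hc
  have : ∑ t, (q t + (s t).toNat) = ∑ t, (q (t - 1) + (a t).toNat) := sum_congr rfl fun t _ => by
    have h1 := hq t
    cases h2 : s t
    · simp [h2] at h1 ⊢; exact h1
    · have := hc t h2; simp [h2] at h1 ⊢; omega
  rw [sum_add_distrib, sum_add_distrib, sum_shift] at this
  unfold cnt at h; omega

lemma cyc_ind {P : Fin (n + 1) → Prop} (u : Fin (n + 1)) (h0 : P u)
    (hs : ∀ t, P (t - 1) → P t) (t : Fin (n + 1)) : P t := by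
  have : ∀ i : ℕ, P (u + Fin.ofNat (n + 1) i) := by
    intro i
    induction i with
    | zero => simpa using h0
    | succ i ih =>
      refine hs _ ?_
      have : Fin.ofNat (n + 1) (i + 1) = Fin.ofNat (n + 1) i + 1 := by
        simp [Fin.ext_iff, Fin.val_add]
      rwa [this, ← add_assoc, add_sub_cancel_right]
  have h := this (t - u).val
  rwa [Fin.ofNat_val_eq_self, add_sub_cancel] at h

lemma sol_mono {a s a' s' : Wd n} {q q' : Fin (n + 1) → ℕ} (hq : Sol a s q) (hq' : Sol a' s' q')
    (h : cnt a < cnt s) (ha : ∀ t, (a t).toNat ≤ (a' t).toNat)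
    (hs : ∀ t, (s' t).toNat ≤ (s t).toNat) (t : Fin (n + 1)) : q t ≤ q' t := by
  obtain ⟨u, -, hu⟩ := unused hq h
  refine cyc_ind (P := fun t => q t ≤ q' t) u ?_ (fun t ht => ?_) t
  · have := hq u; omega
  · have := hq t; have := hq' t; have := ha t; have := hs t; omega

open Classical in
/-- the queue length -/
noncomputable def Q (a s : Wd n) : Fin (n + 1) → ℕ :=
  if h : ∃ q, Sol a s q then h.choose else 0

lemma Q_sol {a s : Wd n} (h : cnt a < cnt s) : Sol a s (Q a s) := by
  rw [Q, dif_pos (exists_sol h.le)]; exact (exists_sol h.le).choose_spec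

lemma Q_eq {a s : Wd n} (h : cnt a < cnt s) {q : Fin (n + 1) → ℕ} (hq : Sol a s q) :
    Q a s = q := funext fun t => le_antisymm
  (sol_mono (Q_sol h) hq h (fun _ => le_rfl) (fun _ => le_rfl) t)
  (sol_mono hq (Q_sol h) h (fun _ => le_rfl) (fun _ => le_rfl) t)

/-- the departure process -/
noncomputable def dep (a s : Wd n) : Wd n := fun t =>
  s t && decide (0 < Q a s (t - 1) + (a t).toNat)

lemma cnt_dep {a s : Wd n} (h : cnt a < cnt s) : cnt (dep a s) = cnt a := by
  have : ∑ t, (Q a s t + (dep a s t).toNat) = ∑ t, (Q a s (t - 1) + (a t).toNat) :=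
    sum_congr rfl fun t _ => by
      have h1 := Q_sol h t
      unfold dep
      by_cases h3 : 0 < Q a s (t - 1) + (a t).toNat <;> cases h2 : s t <;>
        simp only [h2, h3, Bool.toNat_true, Bool.toNat_false, decide_true, decide_false,
          Bool.and_true, Bool.and_false] at h1 ⊢ <;> omega
  rw [sum_add_distrib, sum_add_distrib, sum_shift] at this
  unfold cnt; omega

lemma Q_local {a s a' s' : Wd n} (h : cnt a < cnt s) (h' : cnt a' < cnt s') (b : Fin (n + 1))
    (hb : b + 1 ≠ b) (ha : ∀ t, t ≠ b → t ≠ b + 1 → a' t = a t)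
    (hs : ∀ t, t ≠ b → t ≠ b + 1 → s' t = s t)
    (he : Q a s (b + 1) = Q a s (b - 1) + (a' b).toNat - (s' b).toNat + (a' (b + 1)).toNat
      - (s' (b + 1)).toNat) :
    Q a' s' = Function.update (Q a s) b (Q a s (b - 1) + (a' b).toNat - (s' b).toNat) := by
  refine Q_eq h' fun t => ?_
  by_cases h1 : t = b
  · subst h1
    rw [Function.update_self, Function.update_of_ne fun hc => hb (by
      rw [sub_eq_iff_eq_add] at hc; exact hc.symm)]
  · by_cases h2 : t = b + 1
    · subst h2
      rw [Function.update_of_ne h1, add_sub_cancel_right, Function.update_self, he]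
    · rw [Function.update_of_ne h1, Function.update_of_ne fun hc => h2 (by
        rwa [sub_eq_iff_eq_add] at hc), ha t h1 h2, hs t h1 h2]
      exact Q_sol h t

lemma srt_triv {p : Fin (n + 1)} (hp : p + 1 = p) (x : Wd n) : srt p x = x := by
  unfold srt; rw [if_neg]; rw [hp]; simp

lemma dep_srt1 {a s : Wd n} (h : cnt a < cnt s) (p : Fin (n + 1)) (hs : s (p + 1) = true) :
    dep (srt p a) (srt p s) = srt p (dep a s) := by
  by_cases hp : p + 1 = p
  · simp only [srt_triv hp]
  have h1 := Q_sol h p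
  have h2 := Q_sol h (p + 1)
  rw [add_sub_cancel_right] at h2
  have hp' : p - 1 ≠ p := fun hc => hp (by rw [sub_eq_iff_eq_add] at hc; exact hc.symm)
  have hQ := Q_local (a' := srt p a) (s' := srt p s) h (by rwa [cnt_srt, cnt_srt]) p hp
    (fun t => srt_of_ne p a) (fun t => srt_of_ne p s) (by
      rw [srt_fst, srt_fst, srt_snd, srt_snd, h2, h1, hs]
      cases a p <;> cases a (p + 1) <;> cases s p <;> simp <;> omega)
  funext t
  by_cases t1 : t = p
  · subst t1
    rw [srt_fst]
    simp only [dep, hQ, Function.update_of_ne hp', srt_fst, add_sub_cancel_right, h1, hs]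
    cases a t <;> cases a (t + 1) <;> cases s t <;> simp <;> omega
  · by_cases t2 : t = p + 1
    · subst t2
      rw [srt_snd]
      simp only [dep, hQ, Function.update_self, srt_fst, srt_snd, add_sub_cancel_right, h1, hs]
      cases a p <;> cases a (p + 1) <;> cases s p <;> simp <;> omega
    · rw [srt_of_ne _ _ t1 t2]
      simp only [dep, hQ, srt_of_ne _ _ t1 t2]
      rw [Function.update_of_ne fun hc => t2 (by rwa [sub_eq_iff_eq_add] at hc)]

lemma dep_srt2 {a s : Wd n} (h : cnt a < cnt s) (p : Fin (n + 1)) (hs : s p = false) :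
    dep (srt p a) s = dep a s := by
  by_cases hp : p + 1 = p
  · simp only [srt_triv hp]
  have h1 := Q_sol h p
  have h2 := Q_sol h (p + 1)
  rw [add_sub_cancel_right] at h2
  have hQ := Q_local (a' := srt p a) (s' := s) h (by rwa [cnt_srt]) p hp
    (fun t => srt_of_ne p a) (fun _ _ _ => rfl) (by
      rw [srt_fst, srt_snd, h2, h1, hs]
      cases a p <;> cases a (p + 1) <;> simp)
  funext t
  by_cases t1 : t = p
  · subst t1; simp [dep, hs]
  · by_cases t2 : t = p + 1
    · subst t2
      simp only [dep, hQ, Function.update_self, srt_fst, srt_snd, add_sub_cancel_right, h1, hs]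
      cases a p <;> cases a (p + 1) <;> simp
    · simp only [dep, hQ, srt_of_ne _ _ t1 t2]
      rw [Function.update_of_ne fun hc => t2 (by rwa [sub_eq_iff_eq_add] at hc)]

/-- propagation of the bell -/
def ph (s : Wd n) (p : Fin (n + 1)) : Fin (n + 1) := if s (p + 1) = true then p else p + 1

lemma dep_srt {a s : Wd n} (h : cnt a < cnt s) (p : Fin (n + 1)) :
    dep (srt (ph s p) a) (srt p s) = srt p (dep a s) := by
  unfold ph
  split_ifs with hs
  · exact dep_srt1 h p hs
  · rw [show srt p s = s from if_neg fun hc => hs hc.2, dep_srt2 h _ (by simpa using hs)]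
    exact (if_neg fun hc => hs (by have := hc.2; simp only [dep, Bool.and_eq_true] at this; exact this.1)).symm

lemma bell_inj : Function.Injective fun z : Fin (n + 1) × Wd n => (ph z.2 z.1, srt z.1 z.2) := by
  have key : ∀ (p : Fin (n + 1)) (s : Wd n), srt p s (ph s p) = s (p + 1) := by
    intro p s
    unfold ph
    split_ifs with hs
    · rw [srt_fst, hs]; simp
    · rw [srt_snd]; simp at hs; simp [hs]
  rintro ⟨p, s⟩ ⟨p', s'⟩ h
  simp only [Prod.mk.injEq] at h
  have h1 : s (p + 1) = s' (p' + 1) := by rw [← key p s, ← key p' s', h.1, h.2]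
  have h2 : p = p' := by
    have := h.1
    unfold ph at this
    rw [h1] at this
    split_ifs at this
    · exact this
    · exact add_right_cancel this
  subst h2
  refine Prod.ext rfl (funext fun t => ?_)
  by_cases t2 : t = p + 1
  · rw [t2]; exact h1
  by_cases t1 : t = p
  · subst t1
    have h3 := congrFun h.2 t
    have h4 := congrFun h.2 (t + 1)
    rw [srt_fst, srt_fst] at h3
    rw [srt_snd, srt_snd] at h4
    rw [h1] at h3 h4
    show s t = s' t
    revert h3 h4
    cases s t <;> cases s' t <;> cases s' (t + 1) <;> simp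
  · have h3 := congrFun h.2 t
    rwa [srt_of_ne _ _ t1 t2, srt_of_ne _ _ t1 t2] at h3

lemma closed {Y : Type*} [Fintype Y] (τ : Fin (n + 1) → Y → Y) (μ : Y → ℝ)
    (h : ∀ f : Y → ℝ, ∑ p, ∑ y, μ y * f (τ p y) = (n + 1 : ℝ) * ∑ y, μ y * f y)
    (p : Fin (n + 1)) (y : Y) (hy : 0 < μ y) : 0 < μ (τ p y) := by
  set f : Y → ℝ := fun y => if 0 < μ y then 1 else 0 with hf
  have h1 : ∀ p y, 0 ≤ μ y * f y - μ y * f (τ p y) := by
    intro p y
    simp only [hf]
    split_ifs <;> linarith
  have h2 : ∑ p, ∑ y, (μ y * f y - μ y * f (τ p y)) = 0 := by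
    simp only [sum_sub_distrib, h f]; simp
  have h3 := (sum_eq_zero_iff_of_nonneg fun y _ => h1 p y).1
    ((sum_eq_zero_iff_of_nonneg fun p _ => sum_nonneg fun y _ => h1 p y).1 h2 p (mem_univ _))
    y (mem_univ _)
  by_contra hc
  simp only [hf, if_pos hy, if_neg hc] at h3
  linarith

/-- potential -/
def pot (x : Wd n) : ℕ := ∑ t : Fin (n + 1), (t : ℕ) * (x t).toNat

lemma pot_lt (p : Fin n) (x : Wd n) (h : x p.castSucc = false ∧ x (p.castSucc + 1) = true) :
    pot (srt p.castSucc x) < pot x := by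
  rw [srt, if_pos h, pot, ← Equiv.sum_comp (Equiv.swap p.castSucc (p.castSucc + 1))]
  simp only [Function.comp, Equiv.swap_apply_self]
  refine sum_lt_sum (fun t _ => ?_) ⟨p.castSucc + 1, mem_univ _, by rw [h.2]; simp⟩
  by_cases t1 : t = p.castSucc
  · simp [t1, h.1]
  · by_cases t2 : t = p.castSucc + 1
    · rw [t2, Equiv.swap_apply_right, h.2]; simp
    · rw [Equiv.swap_apply_of_ne_of_ne t1 t2]

lemma pot_le (p : Fin n) (x : Wd n) : pot (srt p.castSucc x) ≤ pot x := by
  by_cases h : x p.castSucc = false ∧ x (p.castSucc + 1) = true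
  · exact (pot_lt p x h).le
  · rw [srt, if_neg h]

lemma sorted_le {x y : Wd n} (hx : Antitone x) (hy : Antitone y) (h : cnt x = cnt y)
    (t : Fin (n + 1)) : x t ≤ y t := by
  by_contra hc
  have h1 : x t = true ∧ y t = false := by revert hc; cases x t <;> cases y t <;> simp
  refine absurd h (sum_lt_sum (fun u _ => ?_) ⟨t, mem_univ _, by simp [h1]⟩).ne'
  rcases le_total u t with hu | hu
  · have := hx hu; rw [h1.1] at this
    revert this; cases x u <;> cases y u <;> simp
  · have := hy hu; rw [h1.2] at this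
    revert this; cases x u <;> cases y u <;> simp

lemma reach {ι : Type} [Fintype ι] [DecidableEq ι] (μ : (ι → Wd n) → ℝ)
    (h : ∀ f : (ι → Wd n) → ℝ, ∑ p, ∑ y, μ y * f (fun o => srt p (y o)) =
      (n + 1 : ℝ) * ∑ y, μ y * f y) (y : ι → Wd n) (hy : 0 < μ y) :
    ∃ y, 0 < μ y ∧ ∀ o, Antitone (y o) := by
  obtain ⟨z, hz, hm⟩ := exists_min_image (univ.filter fun y => 0 < μ y) (fun y => ∑ o, pot (y o))
    ⟨y, by simpa using hy⟩
  refine ⟨z, by simpa using hz, fun o => Fin.antitone_iff_succ_le.2 fun p => ?_⟩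
  by_contra hc
  refine absurd (hm (fun o => srt p.castSucc (z o)) (by
    simpa using closed (fun p y o => srt p (y o)) μ h p.castSucc z (by simpa using hz))) (not_le.2
      (sum_lt_sum (fun o _ => pot_le p _) ⟨o, mem_univ _, pot_lt p _ ?_⟩))
  rw [Fin.coeSucc_eq_succ]
  revert hc; cases z o p.succ <;> cases z o p.castSucc <;> simp

lemma uniq {ι : Type} [Fintype ι] [DecidableEq ι] (μ : (ι → Wd n) → ℝ) (c : ι → ℕ)
    (h : ∀ f : (ι → Wd n) → ℝ, ∑ p, ∑ y, μ y * f (fun o => srt p (y o)) =
      (n + 1 : ℝ) * ∑ y, μ y * f y) (h0 : ∑ y, μ y = 0)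
    (hc : ∀ y, μ y ≠ 0 → ∀ o, cnt (y o) = c o) (y : ι → Wd n) : μ y = 0 := by
  by_contra hy
  have h1 : ∃ y, 0 < μ y := by
    by_contra h1; push Not at h1
    exact hy ((sum_eq_zero_iff_of_nonpos fun y _ => h1 y).1 h0 y (mem_univ _))
  have h2 : ∃ y, 0 < -μ y := by
    by_contra h1; push Not at h1
    exact hy ((sum_eq_zero_iff_of_nonneg fun y _ => by linarith [h1 y]).1 h0 y (mem_univ _))
  obtain ⟨x, hx⟩ := h1
  obtain ⟨z, hz⟩ := h2
  obtain ⟨x, hx, hx'⟩ := reach μ h x hx
  obtain ⟨z, hz, hz'⟩ := reach (fun y => -μ y) (fun f => by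
    simp only [neg_mul, sum_neg_distrib, h f, mul_neg]) z hz
  have h3 : ∀ o, cnt (x o) = cnt (z o) := fun o => by
    rw [hc x hx.ne' o, hc z (by linarith) o]
  have : x = z := funext fun o => funext fun t => le_antisymm
    (sorted_le (hx' o) (hz' o) (h3 o) t) (sorted_le (hz' o) (hx' o) (h3 o).symm t)
  subst this
  linarith

/-- sorting of a permutation at a bond -/
def sg (p : Fin (n + 1)) (w : Equiv.Perm (Fin (n + 1))) : Equiv.Perm (Fin (n + 1)) :=
  if w (p + 1) < w p then w * Equiv.swap p (p + 1) else w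

/-- threshold word -/
def W (c : ℕ) (w : Equiv.Perm (Fin (n + 1))) : Wd n := fun t => decide ((w t : ℕ) < c)

lemma W_sg (c : ℕ) (p : Fin (n + 1)) (w : Equiv.Perm (Fin (n + 1))) :
    W c (sg p w) = srt p (W c w) := by
  funext t
  by_cases t1 : t = p
  · rw [t1, srt_fst]; unfold sg W
    split_ifs with h <;> rw [Fin.lt_def] at h <;> rw [Bool.eq_iff_iff] <;> simp <;> omega
  · by_cases t2 : t = p + 1
    · rw [t2, srt_snd]; unfold sg W
      split_ifs with h <;> rw [Fin.lt_def] at h <;> rw [Bool.eq_iff_iff] <;> simp <;> omega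
    · rw [srt_of_ne _ _ t1 t2]; unfold sg W
      split_ifs <;> simp [Equiv.swap_apply_of_ne_of_ne t1 t2]

lemma cnt_W {c : ℕ} (hc : c ≤ n + 1) (w : Equiv.Perm (Fin (n + 1))) : cnt (W c w) = c := by
  rw [show W c w = W c 1 ∘ w from rfl, cnt_comp]
  show ∑ t : Fin (n + 1), (decide ((t : ℕ) < c)).toNat = c
  rw [Fin.sum_univ_eq_sum_range (fun t => (decide (t < c)).toNat), sum_congr rfl
    (g := fun t => if t < c then 1 else 0) fun t _ => by split_ifs with h <;> simp [h],
    ← card_filter, show (range (n + 1)).filter (· < c) = range c by ext; simp; omega, card_range]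

lemma stat (π : Equiv.Perm (Fin (n + 1)) → ℝ) (h : ∀ τ : Equiv.Perm (Fin (n + 1)),
    π τ * ((univ.filter (fun j => τ (j + 1) < τ j)).card : ℝ)
      = ∑ j ∈ univ.filter (fun j => τ j < τ (j + 1)), π (τ * Equiv.swap j (j + 1)))
    (f : Equiv.Perm (Fin (n + 1)) → ℝ) :
    ∑ p, ∑ w, π w * f (sg p w) = (n + 1 : ℝ) * ∑ w, π w * f w := by
  have h1 : ∀ p, ∑ w, π w * f (sg p w) =
      ∑ w, ((if w p < w (p + 1) then π (w * Equiv.swap p (p + 1)) else 0) * f w +
        (π w - if w (p + 1) < w p then π w else 0) * f w) := by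
    intro p
    rw [sum_add_distrib, ← Equiv.sum_comp (Equiv.mulRight (Equiv.swap p (p + 1)))
      fun w => (if w p < w (p + 1) then π (w * Equiv.swap p (p + 1)) else 0) * f w,
      ← sum_add_distrib]
    refine sum_congr rfl fun w _ => ?_
    simp only [Equiv.coe_mulRight, Equiv.Perm.mul_apply, Equiv.swap_apply_left,
      Equiv.swap_apply_right, mul_assoc, Equiv.swap_mul_self, mul_one, sg]
    split_ifs <;> ring
  simp only [h1]
  rw [sum_comm, mul_sum]
  refine sum_congr rfl fun w _ => ?_
  rw [sum_add_distrib, ← sum_mul, ← sum_mul, sum_sub_distrib, ← sum_filter, ← h, ← sum_filter]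
  simp only [sum_const, card_univ, Fintype.card_fin, nsmul_eq_mul]
  push_cast; ring

/-- thresholds of a permutation -/
def G (k j : ℕ) (w : Equiv.Perm (Fin (n + 1))) : Option (Fin k) → Wd n
  | none => W j w
  | some c => W c w

/-- output of the queue -/
noncomputable def D (k : ℕ) (w : Equiv.Perm (Fin (n + 1))) (s : Wd n) : Option (Fin k) → Wd n
  | none => s
  | some c => dep (W c w) s

lemma fm (π : Equiv.Perm (Fin (n + 1)) → ℝ)
    (h : ∀ f : Equiv.Perm (Fin (n + 1)) → ℝ,
      ∑ p, ∑ w, π w * f (sg p w) = (n + 1 : ℝ) * ∑ w, π w * f w) {k j : ℕ} (hk : k ≤ j)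
    (hj : j ≤ n + 1) (f : (Option (Fin k) → Wd n) → ℝ) :
    ∑ s with cnt s = j, ∑ w, π w * (f (G k j w) - f (D k w s)) = 0 := by
  set μ : (Option (Fin k) → Wd n) → ℝ := fun y => ∑ s with cnt s = j, ∑ w,
    π w * ((if G k j w = y then 1 else 0) - if D k w s = y then 1 else 0) with hμ
  have h1 : ∀ f : (Option (Fin k) → Wd n) → ℝ, ∑ y, μ y * f y =
      ∑ s with cnt s = j, ∑ w, π w * (f (G k j w) - f (D k w s)) := by
    intro f
    simp only [hμ, sum_mul]
    rw [sum_comm]
    refine sum_congr rfl fun s _ => ?_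
    rw [sum_comm]
    refine sum_congr rfl fun w _ => ?_
    simp [mul_assoc, ← mul_sum, sub_mul]
  have hc : ∀ (c : Fin k) (w : Equiv.Perm (Fin (n + 1))) (s : Wd n), cnt s = j → cnt (W c w) < cnt s := fun c w s hs => by
    rw [cnt_W (by omega), hs]; omega
  have h2 := uniq μ (fun o => o.elim j (↑)) (fun f => ?_) ?_ ?_
  · rw [← h1]; simp [h2]
  · simp only [h1 fun y => f fun o => srt _ (y o), h1 f, mul_sub, sum_sub_distrib]
    congr 1
    · rw [sum_comm, mul_sum]
      refine sum_congr rfl fun s _ => ?_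
      rw [← h]
      refine sum_congr rfl fun p _ => sum_congr rfl fun w _ => ?_
      congr 2
      funext o
      cases o <;> simp [G, W_sg]
    · have h3 := (Finite.injective_iff_bijective.1 (bell_inj (n := n))).sum_comp
        fun z => if cnt z.2 = j then ∑ w, π w * f (D k (sg z.1 w) z.2) else 0
      simp only [Fintype.sum_prod_type, cnt_srt] at h3
      simp only [← sum_filter] at h3
      rw [mul_sum]
      simp only [← h]
      rw [sum_comm (s := filter _ _), ← h3]
      refine sum_congr rfl fun p _ => sum_congr rfl fun s hs => sum_congr rfl fun w _ => ?_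
      congr 2
      funext o
      cases o with
      | none => rfl
      | some c => simp only [D, W_sg, dep_srt (hc c w s (mem_filter.1 hs).2)]
  · simpa using h1 fun _ => 1
  · intro y hy o
    by_contra ho
    refine hy (sum_eq_zero fun s hs => sum_eq_zero fun w _ => ?_)
    rw [if_neg, if_neg]
    · simp
    · rintro rfl
      cases o with
      | none => exact ho (mem_filter.1 hs).2
      | some c => exact ho ((cnt_dep (hc c w s (mem_filter.1 hs).2)).trans (cnt_W (by omega) w))
    · rintro rfl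
      cases o with
      | none => exact ho (cnt_W hj w)
      | some c => exact ho (cnt_W (by omega) w)

lemma cnt_update {s : Wd n} {r : Fin (n + 1)} (h : s r = false) :
    cnt (Function.update s r true) = cnt s + 1 := by
  unfold cnt
  rw [← add_sum_erase _ _ (mem_univ r), ← add_sum_erase _ (fun t => (s t).toNat) (mem_univ r),
    sum_congr rfl fun t ht => by rw [Function.update_of_ne (mem_erase.1 ht).1]]
  simp [h, add_comm]

lemma insert_service {s b : Wd n} {r : Fin (n + 1)} (hr : s r = false) (hb : cnt b < cnt s)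
    (h : (∀ t < r, dep b s t = true) ∨ ∀ t < r, dep b (Function.update s r true) t = true)
    {a : Wd n} (ha : cnt a < cnt s) (hab : ∀ t, (a t).toNat ≤ (b t).toNat) (t : Fin (n + 1))
    (ht : t < r) : dep a (Function.update s r true) t = dep a s t := by
  have hs : ∀ t, (s t).toNat ≤ (Function.update s r true t).toNat := fun t => by
    by_cases h : t = r
    · simp [h, hr]
    · simp [h]
  have hb' : cnt b < cnt (Function.update s r true) := by rw [cnt_update hr]; omega
  have ha' : cnt a < cnt (Function.update s r true) := by rw [cnt_update hr]; omega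
  obtain ⟨u, hu1, hu2⟩ := unused (Q_sol hb) hb
  have hur : r < u := by
    rcases lt_trichotomy u r with h1 | h1 | h1
    · have h2 := sol_mono (Q_sol hb') (Q_sol hb) hb' (fun _ => le_rfl) hs (u - 1)
      rcases h with h | h <;> have := h u h1 <;>
        simp only [dep, Bool.and_eq_true, decide_eq_true_eq] at this <;> omega
    · rw [h1, hr] at hu1; simp at hu1
    · exact h1
  have key : ∀ t, u ≤ t ∨ t < r → Q a (Function.update s r true) t = Q a s t := by
    refine cyc_ind u (fun _ => ?_) fun t ih ht => ?_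
    · have h1 := sol_mono (Q_sol ha) (Q_sol hb) ha hab (fun _ => le_rfl) u
      have h2 := sol_mono (Q_sol ha') (Q_sol ha) ha' (fun _ => le_rfl) hs u
      have h3 := Q_sol hb u
      omega
    · by_cases htu : t = u
      · subst htu
        have h1 := sol_mono (Q_sol ha) (Q_sol hb) ha hab (fun _ => le_rfl) t
        have h2 := sol_mono (Q_sol ha') (Q_sol ha) ha' (fun _ => le_rfl) hs t
        have h3 := Q_sol hb t
        omega
      · rw [Q_sol ha' t, Q_sol ha t, ih, Function.update_of_ne (by omega)]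
        rcases Fin.eq_zero_or_eq_succ t with rfl | ⟨t, rfl⟩
        · left
          rw [show (0 : Fin (n + 1)) - 1 = Fin.last n by simp [Fin.ext_iff, Fin.coe_neg_one]]
          exact Fin.le_last _
        · rw [show t.succ - 1 = t.castSucc by rw [sub_eq_iff_eq_add]; simp]
          simp only [Fin.le_def, Fin.lt_def, Fin.ext_iff, Fin.val_succ, Fin.val_castSucc] at *
          omega
  simp only [dep]
  rw [key, Function.update_of_ne ht.ne]
  rcases Fin.eq_zero_or_eq_succ t with rfl | ⟨t, rfl⟩
  · left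
    rw [show (0 : Fin (n + 1)) - 1 = Fin.last n by simp [Fin.ext_iff, Fin.coe_neg_one]]
    exact Fin.le_last _
  · rw [show t.succ - 1 = t.castSucc by rw [sub_eq_iff_eq_add]; simp]
    exact Or.inr (Fin.castSucc_lt_succ.trans ht)

lemma card_hole (j : ℕ) (r : Fin (n + 1)) :
    ((n + 1 : ℝ)) * #{s : Wd n | cnt s = j ∧ s r = false} =
      (n + 1 - j) * #{s : Wd n | cnt s = j} := by
  have h1 : ∀ t, #{s : Wd n | cnt s = j ∧ s r = false} = #{s : Wd n | cnt s = j ∧ s t = false} :=
    fun t => card_bijective (fun s => s ∘ Equiv.swap r t)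
      (Function.Involutive.bijective fun s => by funext u; simp) fun s => by simp [cnt_comp]
  have h2 : ∑ t, (#{s : Wd n | cnt s = j ∧ s t = false} : ℝ) =
      ∑ s : Wd n with cnt s = j, (n + 1 - j : ℝ) := by
    simp only [← filter_filter, card_filter]
    push_cast
    rw [sum_comm]
    refine sum_congr rfl fun s hs => ?_
    rw [← (mem_filter.1 hs).2, cnt]
    push_cast
    rw [show (n + 1 : ℝ) = ∑ _t : Fin (n + 1), 1 by simp, ← sum_sub_distrib]
    exact sum_congr rfl fun t _ => by cases s t <;> simp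
  simp only [← h1, sum_const, card_univ, Fintype.card_fin, nsmul_eq_mul] at h2
  push_cast at h2
  rw [h2, mul_comm]

/-- the pattern event -/
def Pat {r k : ℕ} (h : r < n + 1) (i : Fin r → Fin (n + 1)) (y : Option (Fin k) → Wd n) : Prop :=
  ∀ (a : Fin r) (c : Fin k), y (some c) (Fin.castLE h.le a) = decide ((i a : ℕ) < c)

lemma pat_G {r k : ℕ} (h : r < n + 1) (i : Fin r → Fin (n + 1)) (hi : ∀ a, (i a : ℕ) + 1 < k)
    (j : ℕ) (w : Equiv.Perm (Fin (n + 1))) :
    Pat h i (G k j w) ↔ ∀ a, w (Fin.castLE h.le a) = i a := by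
  refine ⟨fun hp a => ?_, fun hp a c => by simp [G, W, hp]⟩
  have h1 := hp a ⟨i a + 1, hi a⟩
  have h2 := hp a ⟨i a, by have := hi a; omega⟩
  simp [G, W] at h1 h2
  exact Fin.ext (by omega)

lemma pat_D {r k : ℕ} (h : r < n + 1) (i : Fin r → Fin (n + 1)) (hi : ∀ a, (i a : ℕ) + 1 < k)
    (hk : k ≤ n + 1) (w : Equiv.Perm (Fin (n + 1))) {s : Wd n} (hs : k ≤ cnt s)
    (hr : s ⟨r, h⟩ = false) :
    Pat h i (D k w (Function.update s ⟨r, h⟩ true)) ↔ Pat h i (D k w s) := by
  have key : Pat h i (D k w s) ∨ Pat h i (D k w (Function.update s ⟨r, h⟩ true)) →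
      ∀ (a : Fin r) (c : Fin k), D k w (Function.update s ⟨r, h⟩ true) (some c)
        (Fin.castLE h.le a) = D k w s (some c) (Fin.castLE h.le a) := by
    intro hp a c
    have h1 := hi a
    refine insert_service (b := W (k - 1) w) hr (by rw [cnt_W (by omega)]; omega) ?_
      (by rw [cnt_W (by omega)]; omega) (fun t => ?_) _ a.2
    · refine hp.imp (fun hp t ht => ?_) fun hp t ht => ?_ <;>
      · have h2 := hi ⟨t, ht⟩
        exact (hp ⟨t, ht⟩ ⟨k - 1, by omega⟩).trans (by simp; omega)
    · have := c.2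
      by_cases h2 : (w t : ℕ) < c
      · simp [W, h2, show (w t : ℕ) < k - 1 by omega]
      · simp [W, h2]
  exact ⟨fun hp a c => (key (Or.inr hp) a c).symm.trans (hp a c),
    fun hp a c => (key (Or.inl hp) a c).trans (hp a c)⟩

open Classical in
lemma hole (π : Equiv.Perm (Fin (n + 1)) → ℝ)
    (hπ : ∀ f : Equiv.Perm (Fin (n + 1)) → ℝ,
      ∑ p, ∑ w, π w * f (sg p w) = (n + 1 : ℝ) * ∑ w, π w * f w)
    {r k : ℕ} (h : r < n + 1) (i : Fin r → Fin (n + 1)) (hi : ∀ a, (i a : ℕ) + 1 < k)
    {j : ℕ} (hk : k ≤ j) (hj : j ≤ n + 1) :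
    (n + 1 : ℝ) * ∑ w, π w * (if (∀ a, w (Fin.castLE h.le a) = i a) ∧ j ≤ w ⟨r, h⟩ then 1 else 0)
      = (n + 1 - j) * ∑ w, π w * if ∀ a, w (Fin.castLE h.le a) = i a then 1 else 0 := by
  set H : Wd n → ℝ := fun s => ∑ w, π w * ((if ∀ a, w (Fin.castLE h.le a) = i a then 1 else 0) -
    if Pat h i (D k w s) then 1 else 0) with hH
  have h1 : ∀ j, k ≤ j → j ≤ n + 1 → ∑ s with cnt s = j, H s = 0 := fun j h1 h2 => by
    simpa only [pat_G h i hi] using fm π hπ h1 h2 fun y => if Pat h i y then 1 else 0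
  have h2 : ∀ j ≤ n + 1, k ≤ j → ∑ s with cnt s = j ∧ s ⟨r, h⟩ = false, H s = 0 := by
    intro j hj
    induction hj using Nat.decreasingInduction with
    | self =>
      refine fun _ => sum_eq_zero fun s hs => absurd (mem_filter.1 hs).2.1 (ne_of_lt ?_)
      exact (sum_lt_sum (g := fun _ => 1) (fun t _ => Bool.toNat_le _)
        ⟨⟨r, h⟩, mem_univ _, by simp [(mem_filter.1 hs).2.2]⟩).trans_eq (by simp)
    | of_succ j hj ih =>
      intro hk
      have h3 := h1 (j + 1) (by omega) hj
      rw [← sum_filter_add_sum_filter_not _ (fun s => s ⟨r, h⟩ = false), filter_filter,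
        ih (by omega), zero_add, filter_filter] at h3
      rw [← h3]
      refine sum_nbij' (fun s => Function.update s ⟨r, h⟩ true)
        (fun s => Function.update s ⟨r, h⟩ false) (fun s hs => ?_) (fun s hs => ?_)
        (fun s hs => ?_) (fun s hs => ?_) fun s hs => ?_
      · simp only [mem_filter, mem_univ, true_and] at hs ⊢
        simp [cnt_update hs.2, hs.1]
      · simp only [mem_filter, mem_univ, true_and, Bool.not_eq_false] at hs ⊢
        have := cnt_update (s := Function.update s ⟨r, h⟩ false) (r := ⟨r, h⟩) (by simp)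
        rw [Function.update_idem, ← hs.2, Function.update_eq_self] at this
        exact ⟨by omega, by simp⟩
      · simp only [mem_filter, mem_univ, true_and] at hs
        simp only [Function.update_idem]
        rw [← hs.2, Function.update_eq_self]
      · simp only [mem_filter, mem_univ, true_and, Bool.not_eq_false] at hs
        simp only [Function.update_idem]
        rw [← hs.2, Function.update_eq_self]
      · simp only [mem_filter, mem_univ, true_and] at hs
        simp only [hH, pat_D h i hi (by omega) _ (hs.1.ge.trans' hk) hs.2]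
  have h3 := fm π hπ hk hj fun y => if Pat h i y ∧ y none ⟨r, h⟩ = false then 1 else 0
  have h4 := h2 j hj hk
  have h5 := card_hole j ⟨r, h⟩
  have h6 : (0 : ℝ) < #{s : Wd n | cnt s = j} := by
    exact_mod_cast card_pos.2 ⟨W j 1, by simp [cnt_W hj]⟩
  simp only [hH, mul_sub, sum_sub_distrib, sum_const, nsmul_eq_mul] at h3 h4
  have h7 : ∑ s with cnt s = j, ∑ w, π w * (if Pat h i (D k w s) ∧ D k w s none ⟨r, h⟩ = false
      then 1 else 0) = ∑ s with cnt s = j ∧ s ⟨r, h⟩ = false, ∑ w, π w *
        if Pat h i (D k w s) then 1 else 0 := by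
    rw [← filter_filter, sum_filter (fun s : Wd n => s ⟨r, h⟩ = false)]
    refine sum_congr rfl fun s _ => ?_
    by_cases hs : s ⟨r, h⟩ = false <;> simp [D, hs]
  have h8 : ∀ w : Equiv.Perm (Fin (n + 1)), G k j w none ⟨r, h⟩ = false ↔ j ≤ w ⟨r, h⟩ :=
    fun w => by simp [G, W]
  simp only [h7, pat_G h i hi, h8] at h3
  refine mul_left_cancel₀ h6.ne' ?_
  linear_combination (n + 1 : ℝ) * h3 - (n + 1 : ℝ) * h4 +
    (∑ w, π w * if ∀ a, w (Fin.castLE h.le a) = i a then 1 else 0) * h5


/-- For the stationary law of the ring TASEP with n distinct species (larger label jumps right at rate 1), the probability of seeing i_1..i_r then k at the first r+1 sites, with k > 1 + max i_a, is 1/n times that of seeing i_1..i_r. -/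
theorem result :
    ∀ n : ℕ, ∀ π : Equiv.Perm (Fin n) → ℝ,
      (∀ τ, 0 ≤ π τ) →
      (∑ τ, π τ = 1) →
      (∀ τ : Equiv.Perm (Fin n),
        π τ * ((Finset.univ.filter (fun j : Fin n => τ (finRotate n j) < τ j)).card : ℝ)
          = ∑ j ∈ Finset.univ.filter (fun j : Fin n => τ j < τ (finRotate n j)),
              π (τ * Equiv.swap j (finRotate n j))) →
      ∀ (r : ℕ) (h : r < n) (i : Fin r → Fin n) (k : Fin n),
        (∀ a : Fin r, (i a : ℕ) + 1 < (k : ℕ)) →
        ∑ τ ∈ Finset.univ.filter (fun τ : Equiv.Perm (Fin n) =>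
              (∀ a : Fin r, τ (Fin.castLE h.le a) = i a) ∧ τ ⟨r, h⟩ = k), π τ
          = (1 / (n : ℝ)) * ∑ τ ∈ Finset.univ.filter (fun τ : Equiv.Perm (Fin n) =>
              ∀ a : Fin r, τ (Fin.castLE h.le a) = i a), π τ := by
  classical
  intro n π _ _ hπ r h i k hk
  obtain ⟨n, rfl⟩ : ∃ m, n = m + 1 := ⟨n - 1, by omega⟩
  simp only [finRotate_apply] at hπ
  have h1 := hole π (stat π hπ) h i hk le_rfl k.2.le
  have h2 := hole π (stat π hπ) h i hk (Nat.le_succ k) k.2
  have h3 : ∑ τ ∈ Finset.univ.filter (fun τ : Equiv.Perm (Fin (n + 1)) =>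
      (∀ a : Fin r, τ (Fin.castLE h.le a) = i a) ∧ τ ⟨r, h⟩ = k), π τ =
      ∑ w, π w * (if (∀ a, w (Fin.castLE h.le a) = i a) ∧ (k : ℕ) ≤ w ⟨r, h⟩ then 1 else 0) -
      ∑ w, π w * (if (∀ a, w (Fin.castLE h.le a) = i a) ∧ (k : ℕ).succ ≤ w ⟨r, h⟩ then 1 else 0) := by
    rw [sum_filter, ← sum_sub_distrib]
    refine sum_congr rfl fun w _ => ?_
    by_cases hw : ∀ a, w (Fin.castLE h.le a) = i a
    · simp only [hw, implies_true, true_and, Fin.ext_iff (b := k)]
      split_ifs <;> first | omega | simp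
    · simp [hw]
  rw [h3, sum_filter]
  simp only [mul_ite, mul_one, mul_zero] at h1 h2 ⊢
  push_cast at h2 ⊢
  field_simp
  linear_combination h1 - h2

end Pool.Agent.S19731
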